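import Pool.Agent.H31.PT.M02

/-! The parts of this file: Perc.BK, H29.Sep.CircDef, H61.NC.Calc, H57.EX.GeoQ. -/

section

/-!
# The van den Berg–Kesten inequality for increasing events
-/

namespace Pool.Agent.Perc

open Finset

variable {ι : Type*} [DecidableEq ι] {p : ℝ} {F S : Finset ι}

/-- `R U V` holds for some disjoint sets of open bits `U, V ⊆ S`. -/
def DisjOcc (R : Finset ι → Finset ι → Prop) (S : Finset ι) : Prop :=
  ∃ U V, U ⊆ S ∧ V ⊆ S ∧ Disjoint U V ∧ R U V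

/-- General form of the BK inequality: for `R` increasing in both arguments, the probability that
`R U V` holds for some disjoint open `U, V` is at most the probability that `R S T` holds for
independent `S, T`. -/
theorem bk_general (h0 : 0 ≤ p) (h1 : p ≤ 1) (F : Finset ι) (R : Finset ι → Finset ι → Prop)
    (hR : ∀ U U' V V', U ⊆ U' → U' ⊆ F → V ⊆ V' → V' ⊆ F → R U V → R U' V') :
    Pr p F (DisjOcc R) ≤ Ex p F (fun S => Ex p F (fun T => ind (R S) T)) := by
  unfold Pr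
  induction F using Finset.induction_on generalizing R with
  | empty =>
    simp only [Ex_empty]
    refine le_of_eq (ind_congr ?_)
    constructor
    · rintro ⟨U, V, hU, hV, -, hR⟩
      rw [Finset.subset_empty.1 hU, Finset.subset_empty.1 hV] at hR
      exact hR
    · intro h
      exact ⟨∅, ∅, Finset.Subset.refl _, Finset.Subset.refl _, by simp, h⟩
  | insert e F he ih =>
    have hq : 0 ≤ 1 - p := by linarith
    -- the four conditioned relations
    set R11 : Finset ι → Finset ι → Prop := fun U V => R (insert e U) (insert e V) with h11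
    set R10 : Finset ι → Finset ι → Prop := fun U V => R (insert e U) V with h10
    set R01 : Finset ι → Finset ι → Prop := fun U V => R U (insert e V) with h01
    have hsub : ∀ {S : Finset ι}, S ⊆ F → S ⊆ insert e F := fun h =>
      h.trans (Finset.subset_insert e F)
    have hins : ∀ {S : Finset ι}, S ⊆ F → insert e S ⊆ insert e F := fun h =>
      Finset.insert_subset_insert e h
    have i11 := ih R11 (fun U U' V V' a b c d => hR _ _ _ _ (Finset.insert_subset_insert e a)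
      (hins b) (Finset.insert_subset_insert e c) (hins d))
    have i10 := ih R10 (fun U U' V V' a b c d => hR _ _ _ _ (Finset.insert_subset_insert e a)
      (hins b) c (hsub d))
    have i01 := ih R01 (fun U U' V V' a b c d => hR _ _ _ _ a
      (hsub b) (Finset.insert_subset_insert e c) (hins d))
    have i00 := ih R (fun U U' V V' a b c d => hR _ _ _ _ a (hsub b) c (hsub d))
    -- right-hand side
    have rhs : Ex p (insert e F) (fun S => Ex p (insert e F) (fun T => ind (R S) T))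
        = p * p * Ex p F (fun S => Ex p F (fun T => ind (R11 S) T))
          + p * (1 - p) * Ex p F (fun S => Ex p F (fun T => ind (R10 S) T))
          + (1 - p) * p * Ex p F (fun S => Ex p F (fun T => ind (R01 S) T))
          + (1 - p) * (1 - p) * Ex p F (fun S => Ex p F (fun T => ind (R S) T)) := by
      rw [Ex_insert he]
      have e1 : Ex p F (fun S => Ex p (insert e F) (fun T => ind (R (insert e S)) T))
          = p * Ex p F (fun S => Ex p F (fun T => ind (R11 S) T))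
            + (1 - p) * Ex p F (fun S => Ex p F (fun T => ind (R10 S) T)) := by
        rw [← Ex_const_mul, ← Ex_const_mul, ← Ex_add]
        refine Ex_congr fun S _ => ?_
        rw [Ex_insert he]
        rfl
      have e2 : Ex p F (fun S => Ex p (insert e F) (fun T => ind (R S) T))
          = p * Ex p F (fun S => Ex p F (fun T => ind (R01 S) T))
            + (1 - p) * Ex p F (fun S => Ex p F (fun T => ind (R S) T)) := by
        rw [← Ex_const_mul, ← Ex_const_mul, ← Ex_add]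
        refine Ex_congr fun S _ => ?_
        rw [Ex_insert he]
        rfl
      rw [e1, e2]
      ring
    rw [rhs]
    -- left-hand side
    rw [Ex_insert he]
    have key : p * Ex p F (fun S => ind (DisjOcc R) (insert e S)) + (1 - p) * Ex p F (ind (DisjOcc R))
        ≤ p * p * Ex p F (ind (DisjOcc R11)) + p * (1 - p) * Ex p F (ind (DisjOcc R10))
          + (1 - p) * p * Ex p F (ind (DisjOcc R01))
          + (1 - p) * (1 - p) * Ex p F (ind (DisjOcc R)) := by
      simp only [← Ex_const_mul, ← Ex_add]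
      refine Ex_mono h0 h1 fun S hS => ?_
      have c1 : DisjOcc R (insert e S) → DisjOcc R10 S ∨ DisjOcc R01 S := by
        rintro ⟨U, V, hU, hV, hd, hr⟩
        have hU' : U.erase e ⊆ S := fun x hx => by
          have := hU (Finset.mem_of_mem_erase hx)
          exact (Finset.mem_insert.1 this).resolve_left (Finset.ne_of_mem_erase hx)
        have hV' : V.erase e ⊆ S := fun x hx => by
          have := hV (Finset.mem_of_mem_erase hx)
          exact (Finset.mem_insert.1 this).resolve_left (Finset.ne_of_mem_erase hx)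
        have hdd : Disjoint (U.erase e) (V.erase e) :=
          (hd.mono_left (Finset.erase_subset _ _)).mono_right (Finset.erase_subset _ _)
        by_cases heV : e ∈ V
        · right
          have heU : e ∉ U := fun h => (Finset.disjoint_left.1 hd) h heV
          refine ⟨U.erase e, V.erase e, hU', hV', hdd, ?_⟩
          show R (U.erase e) (insert e (V.erase e))
          rw [Finset.insert_erase heV, Finset.erase_eq_of_notMem heU]
          exact hr
        · left
          refine ⟨U.erase e, V.erase e, hU', hV', hdd, ?_⟩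
          show R (insert e (U.erase e)) (V.erase e)
          rw [Finset.erase_eq_of_notMem heV]
          refine hR U _ V V ?_ (hins (hU'.trans hS)) (Finset.Subset.refl _)
            (hV.trans (hins hS)) hr
          intro x hx
          by_cases hxe : x = e
          · simp [hxe]
          · exact Finset.mem_insert_of_mem (Finset.mem_erase.2 ⟨hxe, hx⟩)
      have c2 : DisjOcc R S → DisjOcc R10 S := by
        rintro ⟨U, V, hU, hV, hd, hr⟩
        exact ⟨U, V, hU, hV, hd, hR U _ V V (Finset.subset_insert e U) (hins (hU.trans hS))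
          (Finset.Subset.refl _) (hsub (hV.trans hS)) hr⟩
      have c3 : DisjOcc R S → DisjOcc R01 S := by
        rintro ⟨U, V, hU, hV, hd, hr⟩
        exact ⟨U, V, hU, hV, hd, hR U U V _ (Finset.Subset.refl _) (hsub (hU.trans hS))
          (Finset.subset_insert e V) (hins (hV.trans hS)) hr⟩
      have c4 : DisjOcc R10 S → DisjOcc R11 S := by
        rintro ⟨U, V, hU, hV, hd, hr⟩
        exact ⟨U, V, hU, hV, hd, hR _ _ V _ (Finset.Subset.refl _) (hins (hU.trans hS))
          (Finset.subset_insert e V) (hins (hV.trans hS)) hr⟩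
      have c5 : DisjOcc R01 S → DisjOcc R11 S := by
        rintro ⟨U, V, hU, hV, hd, hr⟩
        exact ⟨U, V, hU, hV, hd, hR U _ _ _ (Finset.subset_insert e U) (hins (hU.trans hS))
          (Finset.Subset.refl _) (hins (hV.trans hS)) hr⟩
      have hpp := mul_nonneg h0 h0
      have hpq := mul_nonneg h0 hq
      have hqq := mul_nonneg hq hq
      by_cases d00 : DisjOcc R S
      · have d10 := c2 d00
        have d01 := c3 d00
        have d11 := c4 d10
        rw [ind_of d00, ind_of d10, ind_of d01, ind_of d11]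
        nlinarith [ind_le_one (DisjOcc R) (insert e S)]
      · rw [ind_of_not d00]
        by_cases d10 : DisjOcc R10 S
        · have d11 := c4 d10
          rw [ind_of d10, ind_of d11]
          nlinarith [ind_le_one (DisjOcc R) (insert e S), ind_nonneg (DisjOcc R01) S,
            ind_nonneg (DisjOcc R) (insert e S), mul_nonneg hpq (ind_nonneg (DisjOcc R01) S)]
        · by_cases d01 : DisjOcc R01 S
          · have d11 := c5 d01
            rw [ind_of_not d10, ind_of d01, ind_of d11]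
            nlinarith [ind_le_one (DisjOcc R) (insert e S),
              ind_nonneg (DisjOcc R) (insert e S)]
          · have : ¬ DisjOcc R (insert e S) := fun h => (c1 h).elim d10 d01
            rw [ind_of_not this, ind_of_not d10, ind_of_not d01]
            nlinarith [mul_nonneg hpp (ind_nonneg (DisjOcc R11) S)]
    refine key.trans ?_
    have j11 := mul_le_mul_of_nonneg_left i11 (mul_nonneg h0 h0)
    have j10 := mul_le_mul_of_nonneg_left i10 (mul_nonneg h0 hq)
    have j01 := mul_le_mul_of_nonneg_left i01 (mul_nonneg hq h0)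
    have j00 := mul_le_mul_of_nonneg_left i00 (mul_nonneg hq hq)
    linarith

/-- `A` is increasing on the subsets of `F`. -/
def UpOn (F : Finset ι) (A : Finset ι → Prop) : Prop :=
  ∀ S T, S ⊆ T → T ⊆ F → A S → A T

/-- **BK inequality** for two increasing events. -/
theorem bk (h0 : 0 ≤ p) (h1 : p ≤ 1) {A B : Finset ι → Prop} (hA : UpOn F A) (hB : UpOn F B) :
    Pr p F (DisjOcc (fun U V => A U ∧ B V)) ≤ Pr p F A * Pr p F B := by
  refine (bk_general h0 h1 F _ ?_).trans (le_of_eq ?_)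
  · intro U U' V V' a b c d h
    exact ⟨hA U U' a b h.1, hB V V' c d h.2⟩
  · unfold Pr
    rw [← Ex_mul_const]
    refine Ex_congr fun S _ => ?_
    rw [← Ex_const_mul]
    refine Ex_congr fun T _ => ?_
    by_cases hS : A S
    · rw [ind_of hS, one_mul]
      exact ind_congr ⟨fun h => h.2, fun h => ⟨hS, h⟩⟩
    · rw [ind_of_not hS, zero_mul]
      exact ind_of_not (fun h => hS h.1)

/-- `A` occurs `k` times disjointly. -/
def DisjK (A : Finset ι → Prop) : ℕ → Finset ι → Prop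
  | 0, _ => True
  | k + 1, S => DisjOcc (fun U V => A U ∧ DisjK A k V) S

omit [DecidableEq ι] in
theorem DisjOcc.mono {R : Finset ι → Finset ι → Prop} {S T : Finset ι} (h : DisjOcc R S)
    (hST : S ⊆ T) : DisjOcc R T := by
  obtain ⟨U, V, hU, hV, hd, hr⟩ := h
  exact ⟨U, V, hU.trans hST, hV.trans hST, hd, hr⟩

theorem DisjK_mono (A : Finset ι → Prop) (k : ℕ) {S T : Finset ι} (h : DisjK A k S)
    (hST : S ⊆ T) : DisjK A k T := by
  cases k with
  | zero => trivial
  | succ k => exact DisjOcc.mono h hST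

/-- k-fold BK inequality. -/
theorem bk_pow (h0 : 0 ≤ p) (h1 : p ≤ 1) {A : Finset ι → Prop} (hA : UpOn F A) (k : ℕ) :
    Pr p F (DisjK A k) ≤ Pr p F A ^ k := by
  induction k with
  | zero =>
    refine le_of_eq ?_
    rw [pow_zero]
    unfold Pr
    have : Ex p F (ind (DisjK A 0)) = Ex p F (fun _ => (1 : ℝ)) :=
      Ex_congr fun S _ => ind_of (A := DisjK A 0) trivial
    rw [this, Ex_const]
  | succ k ih =>
    have h := bk (F := F) h0 h1 hA (B := DisjK A k) (fun S T hST _ h => DisjK_mono A k h hST)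
    have hA0 : 0 ≤ Pr p F A := Ex_nonneg h0 h1 fun S _ => ind_nonneg _ _
    calc Pr p F (DisjK A (k + 1)) ≤ Pr p F A * Pr p F (DisjK A k) := h
      _ ≤ Pr p F A * Pr p F A ^ k := mul_le_mul_of_nonneg_left ih hA0
      _ = Pr p F A ^ (k + 1) := by rw [pow_succ]; ring

/-- A list of pairwise disjoint witnesses gives `DisjK`. -/
theorem DisjK_of_family (A : Finset ι → Prop) (k : ℕ) (U : ℕ → Finset ι) (S : Finset ι)
    (hU : ∀ i < k, U i ⊆ S) (hd : ∀ i < k, ∀ j < k, i ≠ j → Disjoint (U i) (U j))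
    (hA : ∀ i < k, A (U i)) : DisjK A k S := by
  induction k generalizing S with
  | zero => trivial
  | succ k ih =>
    refine ⟨U k, S \ U k, hU k (Nat.lt_succ_self k), Finset.sdiff_subset, Finset.disjoint_sdiff,
      hA k (Nat.lt_succ_self k), ?_⟩
    refine ih (S \ U k) (fun i hi => ?_) (fun i hi j hj hij => hd i (by omega) j (by omega) hij)
      (fun i hi => hA i (by omega))
    intro x hx
    rw [Finset.mem_sdiff]
    refine ⟨hU i (by omega) hx, fun h => ?_⟩
    exact (Finset.disjoint_left.1 (hd i (by omega) k (by omega) (by omega))) hx h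

theorem Pr_nonneg (h0 : 0 ≤ p) (h1 : p ≤ 1) (A : Finset ι → Prop) : 0 ≤ Pr p F A :=
  Ex_nonneg h0 h1 fun S _ => ind_nonneg _ _

end Pool.Agent.Perc

end

section

/-!
# Open circuits made of four strip crossings: definitions
-/

open MeasureTheory ProbabilityTheory unitInterval

namespace Pool.Agent.H29.Sep

open Pool.Agent.H89.Perc

/-- The annulus `ball v r` minus `ball v s`. -/
def ann (v : Vert) (s r : ℕ) : Set Vert := ball v r \ ball v s

/-- Open circuit: four strip crossings of `ball v (3 s)` minus `ball v s`. -/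
def Circ (v : Vert) (s : ℕ) : Set Config :=
  {ω | HCross ω (v.1 - 3 * s) (v.1 + 3 * s) (v.2 + s + 1) (v.2 + 3 * s) ∧
    HCross ω (v.1 - 3 * s) (v.1 + 3 * s) (v.2 - 3 * s) (v.2 - s - 1) ∧
    VCross ω (v.1 + s + 1) (v.1 + 3 * s) (v.2 - 3 * s) (v.2 + 3 * s) ∧
    VCross ω (v.1 - 3 * s) (v.1 - s - 1) (v.2 - 3 * s) (v.2 + 3 * s)}

/-- The edges on which `Circ v s` depends. -/
noncomputable def eCirc (v : Vert) (s : ℕ) : Finset Edge :=
  haveI := Classical.decPred (fun e : Edge => src e ∈ ann v s (3 * s) ∧ tgt e ∈ ann v s (3 * s))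
  (eRect (v.1 - 3 * s) (v.1 + 3 * s) (v.2 - 3 * s) (v.2 + 3 * s)).filter
    (fun e => src e ∈ ann v s (3 * s) ∧ tgt e ∈ ann v s (3 * s))

theorem mem_eCirc {v : Vert} {s : ℕ} {e : Edge} :
    e ∈ eCirc v s ↔ src e ∈ ann v s (3 * s) ∧ tgt e ∈ ann v s (3 * s) := by
  have hball : ∀ w : Vert, w ∈ ball v (3 * s) →
      w ∈ rect (v.1 - 3 * s) (v.1 + 3 * s) (v.2 - 3 * s) (v.2 + 3 * s) := by
    intro w h
    rw [mem_ball] at h
    push_cast at h
    exact h
  unfold eCirc
  rw [@Finset.mem_filter _ _ (Classical.decPred _)]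
  refine ⟨fun h => h.2, fun h => ⟨?_, h⟩⟩
  rw [mem_eRect]
  exact hball _ h.1.1

/-- The top strip is contained in the annulus. -/
theorem circDef_top (v : Vert) (s : ℕ) :
    rect (v.1 - 3 * s) (v.1 + 3 * s) (v.2 + s + 1) (v.2 + 3 * s) ⊆ ann v s (3 * s) := by
  rintro w ⟨h1, h2, h3, h4⟩
  refine ⟨?_, fun h => ?_⟩
  · rw [mem_ball]
    push_cast
    exact ⟨h1, h2, by omega, h4⟩
  · rw [mem_ball] at h
    omega

/-- The bottom strip is contained in the annulus. -/
theorem circDef_bot (v : Vert) (s : ℕ) :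
    rect (v.1 - 3 * s) (v.1 + 3 * s) (v.2 - 3 * s) (v.2 - s - 1) ⊆ ann v s (3 * s) := by
  rintro w ⟨h1, h2, h3, h4⟩
  refine ⟨?_, fun h => ?_⟩
  · rw [mem_ball]
    push_cast
    exact ⟨h1, h2, h3, by omega⟩
  · rw [mem_ball] at h
    omega

/-- The right strip is contained in the annulus. -/
theorem circDef_right (v : Vert) (s : ℕ) :
    rect (v.1 + s + 1) (v.1 + 3 * s) (v.2 - 3 * s) (v.2 + 3 * s) ⊆ ann v s (3 * s) := by
  rintro w ⟨h1, h2, h3, h4⟩
  refine ⟨?_, fun h => ?_⟩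
  · rw [mem_ball]
    push_cast
    exact ⟨by omega, h2, h3, h4⟩
  · rw [mem_ball] at h
    omega

/-- The left strip is contained in the annulus. -/
theorem circDef_left (v : Vert) (s : ℕ) :
    rect (v.1 - 3 * s) (v.1 - s - 1) (v.2 - 3 * s) (v.2 + 3 * s) ⊆ ann v s (3 * s) := by
  rintro w ⟨h1, h2, h3, h4⟩
  refine ⟨?_, fun h => ?_⟩
  · rw [mem_ball]
    push_cast
    exact ⟨h1, by omega, h3, h4⟩
  · rw [mem_ball] at h
    omega

theorem localOn_circ (v : Vert) (s : ℕ) : LocalOn (eCirc v s) (Circ v s) := by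
  intro ω ω' hω h
  have key : ∀ (S : Set Vert), S ⊆ ann v s (3 * s) → ∀ u u' : Vert, Conn ω S u u' →
      Conn ω' S u u' := by
    intro S hS u u' hc
    exact hc.congr fun e h1 h2 => hω e (mem_eCirc.2 ⟨hS h1, hS h2⟩)
  obtain ⟨⟨u1, v1, a1, b1, c1⟩, ⟨u2, v2, a2, b2, c2⟩, ⟨u3, v3, a3, b3, c3⟩,
    ⟨u4, v4, a4, b4, c4⟩⟩ := h
  exact ⟨⟨u1, v1, a1, b1, key _ (circDef_top v s) _ _ c1⟩,
    ⟨u2, v2, a2, b2, key _ (circDef_bot v s) _ _ c2⟩,
    ⟨u3, v3, a3, b3, key _ (circDef_right v s) _ _ c3⟩,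
    ⟨u4, v4, a4, b4, key _ (circDef_left v s) _ _ c4⟩⟩

theorem incr_circ (v : Vert) (s : ℕ) : Incr (Circ v s) := by
  intro ω ω' hω h
  obtain ⟨⟨u1, v1, a1, b1, c1⟩, ⟨u2, v2, a2, b2, c2⟩, ⟨u3, v3, a3, b3, c3⟩,
    ⟨u4, v4, a4, b4, c4⟩⟩ := h
  exact ⟨⟨u1, v1, a1, b1, c1.mono subset_rfl hω⟩,
    ⟨u2, v2, a2, b2, c2.mono subset_rfl hω⟩,
    ⟨u3, v3, a3, b3, c3.mono subset_rfl hω⟩,
    ⟨u4, v4, a4, b4, c4.mono subset_rfl hω⟩⟩

/-- `C` is an open ring around `ball v s` in `ball v (3 s)`: it is connected by open edges inside the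
annulus and every lattice path from `ball v s` to `sphere v (3 s)` meets it. -/
def IsRing (ω : Config) (v : Vert) (s : ℕ) (C : Set Vert) : Prop :=
  C ⊆ ann v s (3 * s) ∧ (∀ a ∈ C, ∀ b ∈ C, Conn ω (ann v s (3 * s)) a b) ∧
    ∀ (η : Config) (D : Set Vert) (u u' : Vert), Conn η D u u' → u ∈ ball v s →
      (u' ∈ sphere v (3 * s) ∨ u' ∉ ball v (3 * s)) → ∃ w ∈ C, Conn η D u w

/-- The ring of a configuration in `Circ v s`: everything joined inside the annulus to a crossing of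
the top strip. -/
def ring (ω : Config) (v : Vert) (s : ℕ) : Set Vert :=
  {w | ∃ u u' : Vert, u.1 = v.1 - 3 * s ∧ u'.1 = v.1 + 3 * s ∧
    Conn ω (rect (v.1 - 3 * s) (v.1 + 3 * s) (v.2 + s + 1) (v.2 + 3 * s)) u u' ∧
    Conn ω (ann v s (3 * s)) u w}

end Pool.Agent.H29.Sep

end

section

/-!
# Two calculus lemmas
-/

namespace Pool.Agent.H61.NC

theorem Calc_aux {F F' G G' : ℝ → ℝ} {a b K : ℝ} (hab : a ≤ b)
    (hF : ∀ x ∈ Set.Icc a b, HasDerivAt F (F' x) x)
    (hG : ∀ x ∈ Set.Icc a b, HasDerivAt G (G' x) x)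
    (hpos : ∀ x ∈ Set.Icc a b, 0 < G x)
    (hK : ∀ x ∈ Set.Icc a b, G' x ≤ K * G x * F' x) :
    Real.log (G b) - K * F b ≤ Real.log (G a) - K * F a := by
  have hd : ∀ x ∈ Set.Icc a b, HasDerivAt (fun x => Real.log (G x) - K * F x)
      (G' x / G x - K * F' x) x := by
    intro x hx
    exact ((hG x hx).log (hpos x hx).ne').sub ((hF x hx).const_mul K)
  have hanti : AntitoneOn (fun x => Real.log (G x) - K * F x) (Set.Icc a b) := by
    refine antitoneOn_of_deriv_nonpos (convex_Icc a b) ?_ ?_ ?_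
    · exact fun x hx => (hd x hx).continuousAt.continuousWithinAt
    · exact fun x hx => (hd x (interior_subset hx)).differentiableAt.differentiableWithinAt
    · intro x hx
      have hx' := interior_subset hx
      rw [(hd x hx').deriv]
      have h1 := hK x hx'
      have h2 := hpos x hx'
      rw [sub_nonpos, div_le_iff₀ h2]
      linarith
  exact hanti ⟨le_rfl, hab⟩ ⟨hab, le_rfl⟩ hab

/-- If `|G'| ≤ K G F'`, `G > 0` and `0 ≤ F ≤ 1` on `[a, b]`, then `G` is constant on `[a, b]` up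
to the factor `exp K`. -/
theorem Calc_log_stability {F F' G G' : ℝ → ℝ} {a b K : ℝ} (hab : a ≤ b) (hK0 : 0 ≤ K)
    (hF : ∀ x ∈ Set.Icc a b, HasDerivAt F (F' x) x)
    (hG : ∀ x ∈ Set.Icc a b, HasDerivAt G (G' x) x)
    (hpos : ∀ x ∈ Set.Icc a b, 0 < G x)
    (hK : ∀ x ∈ Set.Icc a b, |G' x| ≤ K * G x * F' x)
    (h01 : ∀ x ∈ Set.Icc a b, 0 ≤ F x ∧ F x ≤ 1) :
    G b ≤ Real.exp K * G a ∧ G a ≤ Real.exp K * G b := by
  have ha : a ∈ Set.Icc a b := ⟨le_rfl, hab⟩
  have hb : b ∈ Set.Icc a b := ⟨hab, le_rfl⟩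
  have hFa := h01 a ha
  have hFb := h01 b hb
  have h1 := Calc_aux hab hF hG hpos (fun x hx => (le_abs_self _).trans (hK x hx))
  have h3 : Real.log (G b) ≤ Real.log (G a) + K := by nlinarith
  have h4 : Real.log (G a) ≤ Real.log (G b) + K := by
    have h5 := Calc_aux (K := K) hab (F := F) (F' := F') (G := fun x => (G x)⁻¹)
      (G' := fun x => -G' x / G x ^ 2) hF (fun x hx => (hG x hx).inv (hpos x hx).ne')
      (fun x hx => inv_pos.2 (hpos x hx)) (fun x hx => by
        have h6 := hK x hx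
        have h7 := hpos x hx
        have h8 : -G' x ≤ K * G x * F' x := (neg_le_abs _).trans h6
        rw [div_le_iff₀ (by positivity)]
        have h9 : K * (G x)⁻¹ * F' x * G x ^ 2 = K * G x * F' x := by
          field_simp
        rw [h9]
        exact h8)
    simp only [Real.log_inv] at h5
    nlinarith
  constructor
  · have h5 := Real.exp_le_exp.2 h3
    rwa [Real.exp_add, Real.exp_log (hpos b hb), Real.exp_log (hpos a ha), mul_comm] at h5
  · have h5 := Real.exp_le_exp.2 h4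
    rwa [Real.exp_add, Real.exp_log (hpos b hb), Real.exp_log (hpos a ha), mul_comm] at h5

/-- If `|F''| ≤ K F' ^ 2`, `F' > 0` and `0 ≤ F ≤ 1` on `[a, b]`, then `F'` is constant on `[a, b]` up
to the factor `exp K`. -/
theorem stability {F F' F'' : ℝ → ℝ} {a b K : ℝ} (hab : a ≤ b) (hK0 : 0 ≤ K)
    (hF : ∀ x ∈ Set.Icc a b, HasDerivAt F (F' x) x)
    (hF' : ∀ x ∈ Set.Icc a b, HasDerivAt F' (F'' x) x)
    (hpos : ∀ x ∈ Set.Icc a b, 0 < F' x)
    (hK : ∀ x ∈ Set.Icc a b, |F'' x| ≤ K * F' x ^ 2)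
    (h01 : ∀ x ∈ Set.Icc a b, 0 ≤ F x ∧ F x ≤ 1) :
    F' b ≤ Real.exp K * F' a ∧ F' a ≤ Real.exp K * F' b := by
  refine Calc_log_stability hab hK0 hF hF' hpos (fun x hx => ?_) h01
  have := hK x hx
  rw [pow_two, ← mul_assoc] at this
  exact this

/-- If `|G'| ≤ K G F'`, `G > 0` and `0 ≤ F ≤ 1` on `[a, b]`, then `G` is constant on `[a, b]` up
to the factor `exp K`. -/
theorem log_stability {F F' G G' : ℝ → ℝ} {a b K : ℝ} (hab : a ≤ b) (hK0 : 0 ≤ K)
    (hF : ∀ x ∈ Set.Icc a b, HasDerivAt F (F' x) x)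
    (hG : ∀ x ∈ Set.Icc a b, HasDerivAt G (G' x) x)
    (hpos : ∀ x ∈ Set.Icc a b, 0 < G x)
    (hK : ∀ x ∈ Set.Icc a b, |G' x| ≤ K * G x * F' x)
    (h01 : ∀ x ∈ Set.Icc a b, 0 ≤ F x ∧ F x ≤ 1) :
    G b ≤ Real.exp K * G a ∧ G a ≤ Real.exp K * G b :=
  Calc_log_stability hab hK0 hF hG hpos hK h01

end Pool.Agent.H61.NC

end

section

/-!
# The boundary of the unit square of the sup norm, parametrised by arc length
-/

namespace Pool.Agent.H57.EX

/-- The boundary of the unit square by arc length, on `[0, 8)`. -/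
noncomputable def qz (τ : ℝ) : ℝ × ℝ :=
  if τ ≤ 1 then (1, τ) else if τ ≤ 3 then (2 - τ, 1) else if τ ≤ 5 then (-1, 4 - τ)
  else if τ ≤ 7 then (τ - 6, -1) else (1, τ - 8)

/-- The boundary of the unit square by arc length, with period `8`. -/
noncomputable def qq (t : ℝ) : ℝ × ℝ := qz (t - 8 * ⌊t / 8⌋)

private lemma qz_cases {τ : ℝ} (_h0 : 0 ≤ τ) (_h1 : τ < 8) :
    ((qz τ).1 = 1 ∧ (qz τ).2 = τ ∧ τ ≤ 1) ∨
    ((qz τ).1 = 2 - τ ∧ (qz τ).2 = 1 ∧ 1 ≤ τ ∧ τ ≤ 3) ∨
    ((qz τ).1 = -1 ∧ (qz τ).2 = 4 - τ ∧ 3 ≤ τ ∧ τ ≤ 5) ∨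
    ((qz τ).1 = τ - 6 ∧ (qz τ).2 = -1 ∧ 5 ≤ τ ∧ τ ≤ 7) ∨
    ((qz τ).1 = 1 ∧ (qz τ).2 = τ - 8 ∧ 7 ≤ τ) := by
  unfold qz
  split_ifs with h2 h3 h4 h5
  · exact Or.inl ⟨rfl, rfl, h2⟩
  · exact Or.inr (Or.inl ⟨rfl, rfl, (not_le.1 h2).le, h3⟩)
  · exact Or.inr (Or.inr (Or.inl ⟨rfl, rfl, (not_le.1 h3).le, h4⟩))
  · exact Or.inr (Or.inr (Or.inr (Or.inl ⟨rfl, rfl, (not_le.1 h4).le, h5⟩)))
  · exact Or.inr (Or.inr (Or.inr (Or.inr ⟨rfl, rfl, (not_le.1 h5).le⟩)))

private lemma qq_fract (t : ℝ) : 0 ≤ t - 8 * ⌊t / 8⌋ ∧ t - 8 * ⌊t / 8⌋ < 8 := by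
  have h1 := Int.floor_le (t / 8)
  have h2 := Int.lt_floor_add_one (t / 8)
  constructor <;> linarith

private lemma qq_add_mul (t : ℝ) (i : ℤ) : qq (t + 8 * i) = qq t := by
  unfold qq
  have h : (t + 8 * i) / 8 = t / 8 + i := by ring
  rw [h, Int.floor_add_intCast]
  congr 1
  push_cast
  ring

private lemma qq_of_mem {τ : ℝ} (h0 : 0 ≤ τ) (h1 : τ < 8) : qq τ = qz τ := by
  unfold qq
  have h : ⌊τ / 8⌋ = 0 := by
    rw [Int.floor_eq_zero_iff]
    constructor <;> linarith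
  rw [h]
  simp

private lemma qq_reduce (t : ℝ) : ∃ (i : ℤ) (τ : ℝ), 0 ≤ τ ∧ τ < 8 ∧ t = τ + 8 * i ∧ qq t = qz τ := by
  obtain ⟨h1, h2⟩ := qq_fract t
  exact ⟨⌊t / 8⌋, t - 8 * ⌊t / 8⌋, h1, h2, by ring, rfl⟩

private lemma norm_le_iff2 {v : ℝ × ℝ} {r : ℝ} : ‖v‖ ≤ r ↔ |v.1| ≤ r ∧ |v.2| ≤ r := by
  rw [Prod.norm_def, max_le_iff, Real.norm_eq_abs, Real.norm_eq_abs]

private lemma le_norm_iff2 {v : ℝ × ℝ} {r : ℝ} : r ≤ ‖v‖ ↔ r ≤ |v.1| ∨ r ≤ |v.2| := by
  rw [Prod.norm_def, le_max_iff, Real.norm_eq_abs, Real.norm_eq_abs]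

theorem qq_norm (t : ℝ) : ‖qq t‖ = 1 := by
  obtain ⟨i, τ, h0, h1, -, h2⟩ := qq_reduce t
  rw [h2]
  refine le_antisymm (norm_le_iff2.2 ?_) (le_norm_iff2.2 ?_)
  · rcases qz_cases h0 h1 with ⟨a, b, c⟩ | ⟨a, b, c, d⟩ | ⟨a, b, c, d⟩ | ⟨a, b, c, d⟩ | ⟨a, b, c⟩ <;>
    · rw [a, b, abs_le, abs_le]
      refine ⟨⟨?_, ?_⟩, ?_, ?_⟩ <;> linarith
  · rcases qz_cases h0 h1 with ⟨a, b, c⟩ | ⟨a, b, c, d⟩ | ⟨a, b, c, d⟩ | ⟨a, b, c, d⟩ | ⟨a, b, c⟩
    · left; rw [a]; norm_num
    · right; rw [b]; norm_num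
    · left; rw [a]; norm_num
    · right; rw [b]; norm_num
    · left; rw [a]; norm_num

/-- Lipschitz bound for small differences, reduced to one period. -/
private lemma qq_lip_aux {t d : ℝ} (h0 : 0 ≤ t) (h1 : t < 8) (hd0 : 0 ≤ d) (hd : d < 2) :
    ‖qq t - qq (t + d)‖ ≤ d := by
  rw [norm_le_iff2]
  simp only [Prod.fst_sub, Prod.snd_sub]
  rcases lt_or_ge (t + d) 8 with h2 | h2
  · rw [qq_of_mem h0 h1, qq_of_mem (by linarith) h2]
    rcases qz_cases h0 h1 with ⟨a, b, c⟩ | ⟨a, b, c, e⟩ | ⟨a, b, c, e⟩ | ⟨a, b, c, e⟩ | ⟨a, b, c⟩ <;>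
    rcases qz_cases (show 0 ≤ t + d by linarith) h2 with ⟨a', b', c'⟩ | ⟨a', b', c', e'⟩ |
      ⟨a', b', c', e'⟩ | ⟨a', b', c', e'⟩ | ⟨a', b', c'⟩ <;>
    · rw [a, b, a', b', abs_le, abs_le]
      refine ⟨⟨?_, ?_⟩, ?_, ?_⟩ <;> linarith
  · have e1 : qq (t + d) = qq (t + d - 8) := by
      have := qq_add_mul (t + d - 8) 1
      rw [← this]
      congr 1
      push_cast
      ring
    rw [e1, qq_of_mem h0 h1, qq_of_mem (show 0 ≤ t + d - 8 by linarith) (by linarith)]
    rcases qz_cases h0 h1 with ⟨a, b, c⟩ | ⟨a, b, c, e⟩ | ⟨a, b, c, e⟩ | ⟨a, b, c, e⟩ | ⟨a, b, c⟩ <;>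
    rcases qz_cases (show 0 ≤ t + d - 8 by linarith) (by linarith) with ⟨a', b', c'⟩ |
      ⟨a', b', c', e'⟩ | ⟨a', b', c', e'⟩ | ⟨a', b', c', e'⟩ | ⟨a', b', c'⟩ <;>
    · rw [a, b, a', b', abs_le, abs_le]
      refine ⟨⟨?_, ?_⟩, ?_, ?_⟩ <;> linarith

private lemma qq_lip_le {t t' : ℝ} (h : t ≤ t') : ‖qq t - qq t'‖ ≤ t' - t := by
  rcases lt_or_ge (t' - t) 2 with h2 | h2
  · obtain ⟨i, τ, k0, k1, k2, -⟩ := qq_reduce t
    have e1 : qq t = qq τ := by rw [k2, qq_add_mul]
    have e2 : qq t' = qq (τ + (t' - t)) := by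
      have : t' = (τ + (t' - t)) + 8 * i := by rw [k2]; ring
      conv_lhs => rw [this]
      exact qq_add_mul _ _
    rw [e1, e2]
    exact qq_lip_aux k0 k1 (by linarith) h2
  · have h3 := norm_sub_le (qq t) (qq t')
    rw [qq_norm, qq_norm] at h3
    linarith

theorem qq_lip (t t' : ℝ) : ‖qq t - qq t'‖ ≤ |t - t'| := by
  rcases le_total t t' with h | h
  · rw [abs_of_nonpos (by linarith)]
    have := qq_lip_le h
    linarith
  · rw [abs_of_nonneg (by linarith), norm_sub_rev]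
    exact qq_lip_le h

private lemma qz_far {τ τ' δ : ℝ} (h0 : 0 ≤ τ) (h1 : τ < 8) (h0' : 0 ≤ τ') (h1' : τ' < 8)
    (k0 : δ ≤ τ' - τ) (k1 : τ' - τ ≤ 8 - δ) : δ / 2 ≤ ‖qz τ - qz τ'‖ := by
  by_contra hcon
  rw [le_norm_iff2, not_or] at hcon
  obtain ⟨h2, h3⟩ := hcon
  rw [not_le, abs_lt] at h2 h3
  simp only [Prod.fst_sub, Prod.snd_sub] at h2 h3
  rcases qz_cases h0 h1 with ⟨a, b, c⟩ | ⟨a, b, c, e⟩ | ⟨a, b, c, e⟩ | ⟨a, b, c, e⟩ | ⟨a, b, c⟩ <;>
  rcases qz_cases h0' h1' with ⟨a', b', c'⟩ | ⟨a', b', c', e'⟩ |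
    ⟨a', b', c', e'⟩ | ⟨a', b', c', e'⟩ | ⟨a', b', c'⟩ <;>
  · rw [a, a'] at h2
    rw [b, b'] at h3
    linarith [h2.1, h2.2, h3.1, h3.2]

private lemma qq_far_le {t t' δ : ℝ} (h0 : 0 ≤ δ) (h1 : δ ≤ t' - t) (h2 : t' - t ≤ 8 - δ) :
    δ / 2 ≤ ‖qq t - qq t'‖ := by
  obtain ⟨i, τ, k0, k1, k2, -⟩ := qq_reduce t
  have e1 : qq t = qq τ := by rw [k2, qq_add_mul]
  have e2 : qq t' = qq (τ + (t' - t)) := by
    have : t' = (τ + (t' - t)) + 8 * i := by rw [k2]; ring
    conv_lhs => rw [this]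
    exact qq_add_mul _ _
  rw [e1, e2]
  set d := t' - t with hd
  rcases lt_or_ge (τ + d) 8 with h3 | h3
  · rw [qq_of_mem k0 k1, qq_of_mem (by linarith) h3]
    exact qz_far k0 k1 (by linarith) h3 (by linarith) (by linarith)
  · have e3 : qq (τ + d) = qq (τ + d - 8) := by
      have := qq_add_mul (τ + d - 8) 1
      rw [← this]
      congr 1
      push_cast
      ring
    rw [e3, qq_of_mem k0 k1, qq_of_mem (show 0 ≤ τ + d - 8 by linarith) (by linarith),
      norm_sub_rev]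
    exact qz_far (by linarith) (by linarith) k0 k1 (by linarith) (by linarith)

theorem qq_far {t t' δ : ℝ} (h0 : 0 ≤ δ) (h1 : δ ≤ |t - t'|) (h2 : |t - t'| ≤ 8 - δ) :
    δ / 2 ≤ ‖qq t - qq t'‖ := by
  rcases le_total t t' with h | h
  · rw [abs_of_nonpos (by linarith)] at h1 h2
    exact qq_far_le h0 (by linarith) (by linarith)
  · rw [abs_of_nonneg (by linarith)] at h1 h2
    rw [norm_sub_rev]
    exact qq_far_le h0 (by linarith) (by linarith)

private lemma qz_surj (v : ℝ × ℝ) (hv : ‖v‖ = 1) : ∃ τ, 0 ≤ τ ∧ τ < 8 ∧ qz τ = v := by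
  obtain ⟨x, y⟩ := v
  have h1 := norm_le_iff2.1 hv.le
  have h2 := le_norm_iff2.1 hv.ge
  simp only [abs_le] at h1
  simp only at h2
  have key : x = 1 ∨ x = -1 ∨ y = 1 ∨ y = -1 := by
    rcases h2 with h2 | h2
    · rcases le_abs.1 h2 with h | h
      · left; linarith [h1.1.2]
      · right; left; linarith [h1.1.1]
    · rcases le_abs.1 h2 with h | h
      · right; right; left; linarith [h1.2.2]
      · right; right; right; linarith [h1.2.1]
  rcases key with h | h | h | h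
  · subst h
    rcases le_or_gt 0 y with hy | hy
    · exact ⟨y, hy, by linarith [h1.2.2], by unfold qz; rw [if_pos h1.2.2]⟩
    · rcases eq_or_lt_of_le h1.2.1 with hy1 | hy1
      · refine ⟨7, by norm_num, by norm_num, ?_⟩
        rw [← hy1]
        unfold qz
        norm_num
      · refine ⟨y + 8, by linarith, by linarith, ?_⟩
        unfold qz
        rw [if_neg (by linarith), if_neg (by linarith), if_neg (by linarith), if_neg (by linarith)]
        simp
  · subst h
    rcases eq_or_lt_of_le h1.2.2 with hy1 | hy1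
    · refine ⟨3, by norm_num, by norm_num, ?_⟩
      rw [hy1]
      unfold qz
      norm_num
    · refine ⟨4 - y, by linarith, by linarith [h1.2.1], ?_⟩
      unfold qz
      rw [if_neg (by linarith), if_neg (by linarith), if_pos (by linarith [h1.2.1])]
      simp
  · subst h
    rcases eq_or_lt_of_le h1.1.2 with hx1 | hx1
    · refine ⟨1, by norm_num, by norm_num, ?_⟩
      rw [hx1]
      unfold qz
      norm_num
    · refine ⟨2 - x, by linarith, by linarith [h1.1.1], ?_⟩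
      unfold qz
      rw [if_neg (by linarith), if_pos (by linarith [h1.1.1])]
      simp
  · subst h
    rcases eq_or_lt_of_le h1.1.1 with hx1 | hx1
    · refine ⟨5, by norm_num, by norm_num, ?_⟩
      rw [← hx1]
      unfold qz
      norm_num
    · refine ⟨x + 6, by linarith, by linarith [h1.1.2], ?_⟩
      unfold qz
      rw [if_neg (by linarith), if_neg (by linarith), if_neg (by linarith),
        if_pos (by linarith [h1.1.2])]
      simp

theorem qq_surj (v : ℝ × ℝ) {R : ℝ} (hR : 0 < R) (hv : ‖v‖ = R) (a : ℝ) :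
    ∃ t, a ≤ t ∧ t < a + 8 ∧ R • qq t = v := by
  have h1 : ‖R⁻¹ • v‖ = 1 := by
    rw [norm_smul, hv, Real.norm_eq_abs, abs_of_pos (inv_pos.2 hR), inv_mul_cancel₀ hR.ne']
  obtain ⟨τ, h2, h3, h4⟩ := qz_surj _ h1
  -- shift to the interval `[a, a + 8)`
  set i : ℤ := ⌈(a - τ) / 8⌉ with hi
  have k1 := Int.le_ceil ((a - τ) / 8)
  have k2 := Int.ceil_lt_add_one ((a - τ) / 8)
  refine ⟨τ + 8 * i, by rw [hi]; linarith, by rw [hi]; linarith, ?_⟩
  rw [qq_add_mul, qq_of_mem h2 h3, h4, smul_smul, mul_inv_cancel₀ hR.ne', one_smul]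

end Pool.Agent.H57.EX

end
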