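import Pool.Agent.H31.PT.M02

/-! The parts of this file: H61.NC.Second, H85.Kes.BlockOSSS, H89.Perc.RSWKey, H89.Perc.DualityA, H89.Perc.RSW, H89.Perc.DualityB, H89.Perc.Circuit, H89.Perc.Decay, H59.EX.Defs, H59.EX.Out0, H29.Sep.ExplA, H29.Sep.ExplB, H26.HP.Expl, H59.EX.S0, H59.EX.Corr, H59.EX.Seal. -/

section

/-!
# Second derivative of the probability of a local event
-/

open MeasureTheory ProbabilityTheory unitInterval

namespace Pool.Agent.H61.NC

open Pool.Agent.H89.Perc

variable {s : Finset Edge} {A : Set Config}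

/-- The event `A` after giving the value `b` to the edge `e`. -/
def upd (A : Set Config) (e : Edge) (b : Bool) : Set Config := {ω | Function.update ω e b ∈ A}

/-- The second discrete derivative of the indicator of the increasing event `A` in the directions
`e` and `f` does not vanish. -/
def Joint (A : Set Config) (e f : Edge) : Set Config :=
  (upd (upd A e true) f true \ (upd (upd A e true) f false ∪ upd (upd A e false) f true)) ∪
  ((upd (upd A e true) f false ∩ upd (upd A e false) f true) \ upd (upd A e false) f false)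

/-- The derivative of the probability of `A` as a function on the real line. -/
noncomputable def PrR' (s : Finset Edge) (A : Set Config) (x : ℝ) : ℝ :=
  ∑ e ∈ s, (PrR s (upd A e true) x - PrR s (upd A e false) x)

theorem localOn_upd (hA : LocalOn s A) (e : Edge) (b : Bool) : LocalOn s (upd A e b) :=
  (hA.update e b).mono (Finset.erase_subset e s)

private theorem second_pivot_eq (q : I) (A : Set Config) (e : Edge) :
    pivot q A e = Pr q (upd A e true) - Pr q (upd A e false) := rfl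

theorem PrR'_eq (hA : LocalOn s A) (q : I) : PrR' s A (q : ℝ) = ∑ e ∈ s, pivot q A e := by
  unfold PrR'
  refine Finset.sum_congr rfl fun e _ => ?_
  rw [second_pivot_eq, Pr_eq_PrR (localOn_upd hA e true), Pr_eq_PrR (localOn_upd hA e false)]

theorem hasDerivAt_PrR_eq (hA : LocalOn s A) (q : I) :
    HasDerivAt (PrR s A) (PrR' s A (q : ℝ)) (q : ℝ) := by
  rw [PrR'_eq hA q]
  exact hasDerivAt_PrR hA q

theorem hasDerivAt_PrR' (hA : LocalOn s A) (q : I) :
    HasDerivAt (PrR' s A)
      (∑ e ∈ s, ∑ f ∈ s, (pivot q (upd A e true) f - pivot q (upd A e false) f)) (q : ℝ) := by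
  unfold PrR'
  refine HasDerivAt.fun_sum fun e _ => ?_
  rw [Finset.sum_sub_distrib]
  exact (hasDerivAt_PrR (localOn_upd hA e true) q).sub (hasDerivAt_PrR (localOn_upd hA e false) q)

private theorem second_upd_mono (iA : Incr A) (e : Edge) : upd A e false ⊆ upd A e true := by
  intro ω hω
  refine iA _ _ (fun x hx => ?_) hω
  by_cases hxe : x = e
  · subst hxe; simp
  · rw [Function.update_of_ne hxe] at hx ⊢; exact hx

private theorem second_upd_incr (iA : Incr A) (e : Edge) (b : Bool) : Incr (upd A e b) := by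
  intro ω ω' h hω
  refine iA _ _ (fun x hx => ?_) hω
  by_cases hxe : x = e
  · subst hxe; simpa using hx
  · rw [Function.update_of_ne hxe] at hx ⊢; exact h x hx

private theorem second_upd_sub {A B : Set Config} (h : A ⊆ B) (f : Edge) (b : Bool) :
    upd A f b ⊆ upd B f b := fun _ hω => h hω

theorem abs_pivot2_le (hA : LocalOn s A) (iA : Incr A) {e f : Edge} (hef : e ≠ f) (q : I) :
    |pivot q (upd A e true) f - pivot q (upd A e false) f| ≤ Pr q (Joint A e f) := by
  set TT := upd (upd A e true) f true with hTT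
  set TF := upd (upd A e true) f false with hTF
  set FT := upd (upd A e false) f true with hFT
  set FF := upd (upd A e false) f false with hFF
  have lTT : MeasurableSet TT := (localOn_upd (localOn_upd hA e true) f true).measurableSet
  have lTF : MeasurableSet TF := (localOn_upd (localOn_upd hA e true) f false).measurableSet
  have lFT : MeasurableSet FT := (localOn_upd (localOn_upd hA e false) f true).measurableSet
  have lFF : MeasurableSet FF := (localOn_upd (localOn_upd hA e false) f false).measurableSet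
  have s1 : TF ⊆ TT := second_upd_mono (second_upd_incr iA e true) f
  have s2 : FT ⊆ TT := second_upd_sub (second_upd_mono iA e) f true
  have s3 : FF ⊆ TF := second_upd_sub (second_upd_mono iA e) f false
  have s4 : FF ⊆ FT := second_upd_mono (second_upd_incr iA e false) f
  have e1 : Pr q (TF ∪ FT) + Pr q (TF ∩ FT) = Pr q TF + Pr q FT :=
    measureReal_union_add_inter lFT
  have e2 : Pr q (TT \ (TF ∪ FT)) = Pr q TT - Pr q (TF ∪ FT) :=
    measureReal_sdiff (Set.union_subset s1 s2) (lTF.union lFT)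
  have e3 : Pr q ((TF ∩ FT) \ FF) = Pr q (TF ∩ FT) - Pr q FF :=
    measureReal_sdiff (Set.subset_inter s3 s4) lFF
  have e4 : Pr q (TT \ (TF ∪ FT)) ≤ Pr q (Joint A e f) := Pr_mono Set.subset_union_left
  have e5 : Pr q ((TF ∩ FT) \ FF) ≤ Pr q (Joint A e f) := Pr_mono Set.subset_union_right
  have p1 : 0 ≤ Pr q (TT \ (TF ∪ FT)) := Pr_nonneg
  have p2 : 0 ≤ Pr q ((TF ∩ FT) \ FF) := Pr_nonneg
  have e6 : pivot q (upd A e true) f - pivot q (upd A e false) f =
      Pr q (TT \ (TF ∪ FT)) - Pr q ((TF ∩ FT) \ FF) := by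
    rw [second_pivot_eq, second_pivot_eq, e2, e3]
    linarith
  rw [e6, abs_le]
  constructor <;> linarith

theorem pivot_upd_self (q : I) (A : Set Config) (e : Edge) (b : Bool) :
    pivot q (upd A e b) e = 0 := by
  have h : ∀ b' : Bool, {ω : Config | Function.update ω e b' ∈ upd A e b} = upd A e b := by
    intro b'
    ext ω
    simp only [upd, Set.mem_ofPred_eq, Function.update_idem]
  unfold pivot
  rw [h true, h false, sub_self]

theorem abs_second_le (hA : LocalOn s A) (iA : Incr A) (q : I) :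
    |∑ e ∈ s, ∑ f ∈ s, (pivot q (upd A e true) f - pivot q (upd A e false) f)| ≤
      ∑ e ∈ s, ∑ f ∈ s.erase e, Pr q (Joint A e f) := by
  refine (Finset.abs_sum_le_sum_abs _ _).trans (Finset.sum_le_sum fun e _ => ?_)
  rw [← Finset.sum_erase s (a := e)
    (f := fun f => pivot q (upd A e true) f - pivot q (upd A e false) f)
    (by simp only [pivot_upd_self, sub_self])]
  refine (Finset.abs_sum_le_sum_abs _ _).trans (Finset.sum_le_sum fun f hf => ?_)
  exact abs_pivot2_le hA iA (Ne.symm (Finset.ne_of_mem_erase hf)) q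

/-- On `Joint A e f`, for some value of `f` the edge `e` is pivotal, and conversely. -/
theorem Joint_piv {A : Set Config} (iA : Incr A) {e f : Edge} (hef : e ≠ f) {ω : Config}
    (h : ω ∈ Joint A e f) :
    (∃ b, Function.update (Function.update ω f b) e true ∈ A ∧
      Function.update (Function.update ω f b) e false ∉ A) ∧
    (∃ b, Function.update (Function.update ω e b) f true ∈ A ∧
      Function.update (Function.update ω e b) f false ∉ A) := by
  rcases h with ⟨h1, h2⟩ | ⟨⟨h1, h2⟩, h3⟩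
  · rw [Set.mem_union, not_or] at h2
    obtain ⟨h2, h3⟩ := h2
    refine ⟨⟨true, h1, h3⟩, ⟨true, ?_, ?_⟩⟩
    · rw [Function.update_comm hef]; exact h1
    · rw [Function.update_comm hef]; exact h2
  · refine ⟨⟨false, h1, h3⟩, ⟨false, ?_, ?_⟩⟩
    · rw [Function.update_comm hef]; exact h2
    · rw [Function.update_comm hef]; exact h3

/-- Comparison with the influence of one edge (finite energy). -/
theorem Pr_Joint_le (hA : LocalOn s A) (iA : Incr A) {e f : Edge} (hef : e ≠ f) (q : I)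
    (h1 : 1 / 4 ≤ (q : ℝ)) (h2 : (q : ℝ) ≤ 3 / 4) :
    Pr q (Joint A e f) ≤ 8 * pivot q A e := by
  set TT := upd (upd A e true) f true with hTT
  set TF := upd (upd A e true) f false with hTF
  set FT := upd (upd A e false) f true with hFT
  set FF := upd (upd A e false) f false with hFF
  have lFT : MeasurableSet FT := (localOn_upd (localOn_upd hA e false) f true).measurableSet
  have lFF : MeasurableSet FF := (localOn_upd (localOn_upd hA e false) f false).measurableSet
  have s2 : FT ⊆ TT := second_upd_sub (second_upd_mono iA e) f true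
  have s3 : FF ⊆ TF := second_upd_sub (second_upd_mono iA e) f false
  have e2 : Pr q (TT \ FT) = Pr q TT - Pr q FT := measureReal_sdiff s2 lFT
  have e3 : Pr q (TF \ FF) = Pr q TF - Pr q FF := measureReal_sdiff s3 lFF
  have p1 : 0 ≤ Pr q (TT \ FT) := Pr_nonneg
  have p2 : 0 ≤ Pr q (TF \ FF) := Pr_nonneg
  have e4 : Pr q (Joint A e f) ≤ Pr q (TT \ FT) + Pr q (TF \ FF) := by
    refine (Pr_mono ?_).trans Pr_union_le
    rintro ω (⟨a1, a2⟩ | ⟨⟨a1, a2⟩, a3⟩)
    · left
      rw [Set.mem_union, not_or] at a2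
      exact ⟨a1, a2.2⟩
    · right
      exact ⟨a1, a3⟩
  have f1 : Pr q (upd A e true) = q * Pr q TT + (1 - q) * Pr q TF :=
    Pr_eq_update (localOn_upd hA e true) f
  have f2 : Pr q (upd A e false) = q * Pr q FT + (1 - q) * Pr q FF :=
    Pr_eq_update (localOn_upd hA e false) f
  have f3 : pivot q A e = q * Pr q (TT \ FT) + (1 - q) * Pr q (TF \ FF) := by
    rw [second_pivot_eq, f1, f2, e2, e3]
    ring
  rw [f3]
  nlinarith [mul_nonneg (sub_nonneg.2 h1) p1, mul_nonneg (sub_nonneg.2 h2) p2]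

end Pool.Agent.H61.NC

end

section

/-!
# The OSSS inequality for explorations that reveal whole blocks of edges
-/

open MeasureTheory ProbabilityTheory unitInterval

namespace Pool.Agent.H85.Kes

open Pool.Agent.H89.Perc
open Pool.Agent.Perc (Ex ind ind_of ind_of_not MonoOnF)

variable {κ : Type*} [DecidableEq κ]

/-- A block exploration rule: given the set of revealed blocks and the set of open edges in these
blocks it says which block to reveal next (or stops). -/
abbrev BRule (κ : Type*) := Finset κ → Finset Edge → Option κ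

variable (s : Finset Edge) (β : Edge → κ) (R : BRule κ)

/-- The edges of a block. -/
def blk (b : κ) : Finset Edge := s.filter (fun e => β e = b)

/-- One step of the block exploration of `ω`. -/
def bStep (ω : Config) (x : Finset κ × Finset Edge) : Finset κ × Finset Edge :=
  match R x.1 x.2 with
  | none => x
  | some b => (insert b x.1, x.2 ∪ (blk s β b).filter (fun e => ω e = true))

/-- The revealed blocks when the exploration starts from a given state. -/
def bFrom (ω : Config) (n : ℕ) (x : Finset κ × Finset Edge) : Finset κ :=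
  ((bStep s β R ω)^[n] x).1

/-- The blocks revealed during the first `n` steps. -/
def revealed (ω : Config) (n : ℕ) : Finset κ := bFrom s β R ω n (∅, ∅)

variable {s β R}

omit [DecidableEq κ] in
lemma mem_blk [DecidableEq κ] {b : κ} {e : Edge} : e ∈ blk s β b ↔ e ∈ s ∧ β e = b := by
  simp [blk]

lemma bStep_none {ω : Config} {x : Finset κ × Finset Edge} (h : R x.1 x.2 = none) :
    bStep s β R ω x = x := by
  unfold bStep; rw [h]

lemma bStep_some {ω : Config} {x : Finset κ × Finset Edge} {b : κ} (h : R x.1 x.2 = some b) :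
    bStep s β R ω x = (insert b x.1, x.2 ∪ (blk s β b).filter (fun e => ω e = true)) := by
  unfold bStep; rw [h]

lemma bFrom_succ (ω : Config) (n : ℕ) (x : Finset κ × Finset Edge) :
    bFrom s β R ω (n + 1) x = bFrom s β R ω n (bStep s β R ω x) := by
  unfold bFrom
  rw [Function.iterate_succ_apply]

lemma bStep_subset (ω : Config) (x : Finset κ × Finset Edge) : x.1 ⊆ (bStep s β R ω x).1 := by
  rcases h : R x.1 x.2 with _ | b
  · rw [bStep_none h]
  · rw [bStep_some h]
    exact Finset.subset_insert _ _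

lemma subset_bFrom (ω : Config) (n : ℕ) (x : Finset κ × Finset Edge) :
    x.1 ⊆ bFrom s β R ω n x := by
  induction n generalizing x with
  | zero => exact le_rfl
  | succ n ih =>
    rw [bFrom_succ]
    exact (bStep_subset ω x).trans (ih _)

lemma bFrom_none {ω : Config} {x : Finset κ × Finset Edge} (h : R x.1 x.2 = none) (n : ℕ) :
    bFrom s β R ω n x = x.1 := by
  induction n with
  | zero => rfl
  | succ n ih => rw [bFrom_succ, bStep_none h, ih]

/-- Influence of the block `b` on a function of the subsets of `F`. -/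
noncomputable def bInf (p : ℝ) (F : Finset Edge) (B : Finset Edge) (g : Finset Edge → ℝ) : ℝ :=
  Ex p F (fun S => g (S ∪ B) - g (S \ B))

lemma bInf_nonneg {p : ℝ} (h0 : 0 ≤ p) (h1 : p ≤ 1) {F B : Finset Edge} (hB : B ⊆ F)
    {g : Finset Edge → ℝ} (hg : MonoOnF F g) : 0 ≤ bInf p F B g := by
  refine Pool.Agent.Perc.Ex_nonneg h0 h1 fun S hS => sub_nonneg.2 ?_
  exact hg _ _ (Finset.sdiff_subset.trans Finset.subset_union_left)
    (Finset.union_subset hS hB)

/-- The covariance inequality for block explorations, by induction on the number of steps. -/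
theorem block_cov {p : ℝ} (hp0 : 0 ≤ p) (hp1 : p ≤ 1) {K : Finset κ} (hK : ∀ e ∈ s, β e ∈ K)
    (hR : ∀ D O b, R D O = some b → b ∈ K ∧ b ∉ D) (n : ℕ) :
    ∀ (D : Finset κ) (O : Finset Edge), (K \ D).card ≤ n → (∀ e ∈ O, β e ∈ D) →
    ∀ f g : Finset Edge → ℝ, (∀ S, S ⊆ s.filter (fun e => β e ∉ D) → 0 ≤ f S ∧ f S ≤ 1) →
    MonoOnF (s.filter (fun e => β e ∉ D)) g →
    (∀ S S', S ⊆ s.filter (fun e => β e ∉ D) → S' ⊆ s.filter (fun e => β e ∉ D) →
      (∀ e ∈ s.filter (fun e => β e ∉ D), β e ∈ bFrom s β R (ofS (O ∪ S)) n (D, O) →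
        (e ∈ S ↔ e ∈ S')) → f S = f S') →
    |Ex p (s.filter (fun e => β e ∉ D)) (fun S => f S * g S) -
        Ex p (s.filter (fun e => β e ∉ D)) f * Ex p (s.filter (fun e => β e ∉ D)) g| ≤
      ∑ b ∈ K \ D, Ex p (s.filter (fun e => β e ∉ D))
          (ind fun S => b ∈ bFrom s β R (ofS (O ∪ S)) n (D, O)) *
        bInf p (s.filter (fun e => β e ∉ D)) (blk s β b) g := by
  have hRHS : ∀ (D : Finset κ) (A : κ → Finset Edge → Prop) (g : Finset Edge → ℝ),
      MonoOnF (s.filter (fun e => β e ∉ D)) g →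
      0 ≤ ∑ b ∈ K \ D, Ex p (s.filter (fun e => β e ∉ D)) (ind (A b)) *
        bInf p (s.filter (fun e => β e ∉ D)) (blk s β b) g := by
    intro D A g hg
    refine Finset.sum_nonneg fun b hb => mul_nonneg ?_ ?_
    · exact Pool.Agent.Perc.Ex_nonneg hp0 hp1 fun S _ => Pool.Agent.Perc.ind_nonneg _ _
    · refine bInf_nonneg hp0 hp1 ?_ hg
      intro e he
      rw [mem_blk] at he
      rw [Finset.mem_filter]
      exact ⟨he.1, by rw [he.2]; exact (Finset.mem_sdiff.1 hb).2⟩
  induction n with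
  | zero =>
    intro D O hD _ f g _ _ _
    have hKD : K \ D = ∅ := Finset.card_eq_zero.1 (Nat.le_zero.1 hD)
    have hF : s.filter (fun e => β e ∉ D) = ∅ := by
      rw [Finset.filter_eq_empty_iff]
      intro e he h
      have : β e ∈ K \ D := Finset.mem_sdiff.2 ⟨hK e he, h⟩
      rw [hKD] at this
      exact absurd this (Finset.notMem_empty _)
    rw [hF, hKD]
    simp
  | succ n ih =>
    intro D O hD hO f g hf hg hdet
    rcases hNe : R D O with _ | b
    · -- the exploration has stopped: `f` is constant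
      set F := s.filter (fun e => β e ∉ D) with hF
      have hconst : ∀ S, S ⊆ F → f S = f ∅ := by
        intro S hS
        refine hdet S ∅ hS (Finset.empty_subset _) fun e heF he => ?_
        rw [bFrom_none (x := (D, O)) hNe] at he
        exact absurd he (Finset.mem_filter.1 heF).2
      have h1 : Ex p F (fun S => f S * g S) = f ∅ * Ex p F g := by
        rw [← Pool.Agent.Perc.Ex_const_mul]
        exact Pool.Agent.Perc.Ex_congr fun S hS => by rw [hconst S hS]
      have h2 : Ex p F f = f ∅ := by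
        rw [Pool.Agent.Perc.Ex_congr hconst, Pool.Agent.Perc.Ex_const]
      rw [h1, h2, sub_self, abs_zero]
      exact hRHS D _ g hg
    · obtain ⟨hbK, hbD⟩ := hR D O b hNe
      set F := s.filter (fun e => β e ∉ D) with hF
      set B := blk s β b with hB
      set F' := s.filter (fun e => β e ∉ insert b D) with hF'
      have hBF : B ⊆ F := by
        intro e he
        rw [hB, mem_blk] at he
        rw [hF, Finset.mem_filter]
        exact ⟨he.1, by rw [he.2]; exact hbD⟩
      have hF'F : F' ⊆ F := by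
        intro e he
        rw [hF', Finset.mem_filter, Finset.mem_insert, not_or] at he
        rw [hF, Finset.mem_filter]
        exact ⟨he.1, he.2.2⟩
      have hBF' : Disjoint B F' := by
        rw [Finset.disjoint_left]
        intro e he he'
        rw [hB, mem_blk] at he
        rw [hF', Finset.mem_filter, Finset.mem_insert, not_or] at he'
        exact he'.2.1 he.2
      have hU : B ∪ F' = F := by
        ext e
        rw [Finset.mem_union, hB, mem_blk, hF', Finset.mem_filter, hF, Finset.mem_filter,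
          Finset.mem_insert]
        constructor
        · rintro (h | h)
          · exact ⟨h.1, by rw [h.2]; exact hbD⟩
          · exact ⟨h.1, fun h' => h.2 (Or.inr h')⟩
        · rintro ⟨h1, h2⟩
          by_cases h : β e = b
          · exact Or.inl ⟨h1, h⟩
          · exact Or.inr ⟨h1, fun h' => h'.elim h h2⟩
      have hcard : (K \ insert b D).card ≤ n := by
        have h1 : K \ insert b D = (K \ D).erase b := by
          ext x
          simp only [Finset.mem_sdiff, Finset.mem_insert, Finset.mem_erase, not_or]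
          tauto
        rw [h1, Finset.card_erase_of_mem (Finset.mem_sdiff.2 ⟨hbK, hbD⟩)]
        omega
      -- expectations over `F`
      have hE : ∀ h : Finset Edge → ℝ, Ex p F h =
          Ex p B (fun T => Ex p F' (fun S => h (T ∪ S))) := by
        intro h
        rw [← Pool.Agent.Perc.Ex_union hBF', hU]
      have hsub : ∀ T S, T ⊆ B → S ⊆ F' → T ∪ S ⊆ F := fun T S hT hS =>
        Finset.union_subset (hT.trans hBF) (hS.trans hF'F)
      -- the next state
      have hst : ∀ T S, T ⊆ B → S ⊆ F' → bFrom s β R (ofS (O ∪ (T ∪ S))) (n + 1) (D, O) =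
          bFrom s β R (ofS ((O ∪ T) ∪ S)) n (insert b D, O ∪ T) := by
        intro T S hT hS
        rw [bFrom_succ, bStep_some (x := (D, O)) hNe, ← Finset.union_assoc]
        congr 2
        congr 1
        ext e
        rw [Finset.mem_filter, ofS_eq_true, Finset.mem_union, Finset.mem_union]
        constructor
        · rintro ⟨h1, (h2 | h2) | h2⟩
          · exfalso
            have h3 := hO e h2
            rw [mem_blk] at h1
            rw [h1.2] at h3
            exact hbD h3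
          · exact h2
          · exact absurd (hS h2) (Finset.disjoint_left.1 hBF' h1)
        · intro h
          exact ⟨hT h, Or.inl (Or.inr h)⟩
      set gb : Finset Edge → ℝ := fun S => Ex p B (fun T => g (T ∪ S)) with hgb
      have hgbm : MonoOnF F' gb := by
        intro S S' h1 h2
        refine Pool.Agent.Perc.Ex_mono hp0 hp1 fun T hT => ?_
        exact hg _ _ (Finset.union_subset_union_right h1) (hsub T S' hT h2)
      -- induction hypothesis for every configuration `T` of the block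
      have IH : ∀ T, T ⊆ B → |Ex p F' (fun S => f (T ∪ S) * gb S) -
          Ex p F' (fun S => f (T ∪ S)) * Ex p F' gb| ≤
          ∑ x ∈ K \ insert b D, Ex p F'
            (ind fun S => x ∈ bFrom s β R (ofS ((O ∪ T) ∪ S)) n (insert b D, O ∪ T)) *
          bInf p F' (blk s β x) gb := by
        intro T hT
        refine ih (insert b D) (O ∪ T) hcard ?_ (fun S => f (T ∪ S)) gb ?_ hgbm ?_
        · intro e he
          rcases Finset.mem_union.1 he with h | h
          · exact Finset.mem_insert_of_mem (hO e h)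
          · have := hT h
            rw [hB, mem_blk] at this
            rw [this.2]
            exact Finset.mem_insert_self _ _
        · intro S hS
          exact hf _ (hsub T S hT hS)
        · intro S S' hS hS' h
          refine hdet _ _ (hsub T S hT hS) (hsub T S' hT hS') fun e heF he => ?_
          rw [hst T S hT hS] at he
          rw [Finset.mem_union, Finset.mem_union]
          by_cases heB : e ∈ B
          · have h1 : e ∉ S := fun h' => Finset.disjoint_left.1 hBF' heB (hS h')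
            have h2 : e ∉ S' := fun h' => Finset.disjoint_left.1 hBF' heB (hS' h')
            tauto
          · have heF' : e ∈ F' := by
              rw [← hU, Finset.mem_union] at heF
              exact heF.resolve_left heB
            have := h e heF' he
            tauto
      -- decomposition of the covariance
      have hEg : Ex p F g = Ex p F' gb := by
        rw [hE g, Pool.Agent.Perc.Ex_comm]
      set Rm : ℝ := Ex p B (fun T => Ex p F' (fun S => f (T ∪ S) * (g (T ∪ S) - gb S))) with hRm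
      have hdec : Ex p F (fun S => f S * g S) - Ex p F f * Ex p F g =
          Ex p B (fun T => Ex p F' (fun S => f (T ∪ S) * gb S) -
            Ex p F' (fun S => f (T ∪ S)) * Ex p F' gb) + Rm := by
        rw [hE (fun S => f S * g S), hE f, hEg, hRm, Pool.Agent.Perc.Ex_sub,
          Pool.Agent.Perc.Ex_mul_const]
        have : ∀ T, T ⊆ B → Ex p F' (fun S => f (T ∪ S) * g (T ∪ S)) =
            Ex p F' (fun S => f (T ∪ S) * gb S) +
              Ex p F' (fun S => f (T ∪ S) * (g (T ∪ S) - gb S)) := by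
          intro T _
          rw [← Pool.Agent.Perc.Ex_add]
          exact Pool.Agent.Perc.Ex_congr fun S _ => by ring
        rw [Pool.Agent.Perc.Ex_congr this, Pool.Agent.Perc.Ex_add]
        ring
      -- the influence of the block `b`
      have hinfb : bInf p F B g = Ex p F' (fun S => g (B ∪ S) - g S) := by
        unfold bInf
        rw [hE]
        have : ∀ T, T ⊆ B → Ex p F' (fun S => g (T ∪ S ∪ B) - g ((T ∪ S) \ B)) =
            Ex p F' (fun S => g (B ∪ S) - g S) := by
          intro T hT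
          refine Pool.Agent.Perc.Ex_congr fun S hS => ?_
          have h1 : T ∪ S ∪ B = B ∪ S := by
            ext x
            have := @hT x
            simp only [Finset.mem_union]
            tauto
          have h2 : (T ∪ S) \ B = S := by
            ext x
            have h3 := @hT x
            have h4 : x ∈ S → x ∉ B := fun h h' => Finset.disjoint_left.1 hBF' h' (hS h)
            simp only [Finset.mem_union, Finset.mem_sdiff]
            tauto
          rw [h1, h2]
        rw [Pool.Agent.Perc.Ex_congr this, Pool.Agent.Perc.Ex_const]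
      have hRle : |Rm| ≤ bInf p F B g := by
        rw [hinfb, hRm]
        have h1 : |Ex p B (fun T => Ex p F' (fun S => f (T ∪ S) * (g (T ∪ S) - gb S)))| ≤
            Ex p B (fun _ => Ex p F' (fun S => g (B ∪ S) - g S)) := by
          refine (Pool.Agent.Perc.abs_Ex_le hp0 hp1 _).trans ?_
          refine Pool.Agent.Perc.Ex_mono hp0 hp1 fun T hT => ?_
          refine (Pool.Agent.Perc.abs_Ex_le hp0 hp1 _).trans ?_
          refine Pool.Agent.Perc.Ex_mono hp0 hp1 fun S hS => ?_
          have hSF : B ∪ S ⊆ F := hsub B S le_rfl hS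
          have b1 : g S ≤ g (T ∪ S) := hg _ _ Finset.subset_union_right (hsub T S hT hS)
          have b2 : g (T ∪ S) ≤ g (B ∪ S) := hg _ _ (Finset.union_subset_union_left hT) hSF
          have b3 : g S ≤ gb S := by
            have : Ex p B (fun _ => g S) ≤ gb S := Pool.Agent.Perc.Ex_mono hp0 hp1 fun T' hT' =>
              hg _ _ Finset.subset_union_right (hsub T' S hT' hS)
            rwa [Pool.Agent.Perc.Ex_const] at this
          have b4 : gb S ≤ g (B ∪ S) := by
            have : gb S ≤ Ex p B (fun _ => g (B ∪ S)) :=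
              Pool.Agent.Perc.Ex_mono hp0 hp1 fun T' hT' =>
                hg _ _ (Finset.union_subset_union_left hT') hSF
            rwa [Pool.Agent.Perc.Ex_const] at this
          have b5 := hf _ (hsub T S hT hS)
          rw [abs_mul, abs_of_nonneg b5.1]
          have b6 : |g (T ∪ S) - gb S| ≤ g (B ∪ S) - g S := by
            rw [abs_le]; constructor <;> linarith
          calc f (T ∪ S) * |g (T ∪ S) - gb S| ≤ 1 * |g (T ∪ S) - gb S| :=
                mul_le_mul_of_nonneg_right b5.2 (abs_nonneg _)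
            _ ≤ _ := by rw [one_mul]; exact b6
        rwa [Pool.Agent.Perc.Ex_const] at h1
      -- influences of the averaged function
      have hinf : ∀ x ∈ K \ insert b D, bInf p F' (blk s β x) gb = bInf p F (blk s β x) g := by
        intro x hx
        rw [Finset.mem_sdiff, Finset.mem_insert, not_or] at hx
        unfold bInf
        rw [hE, Pool.Agent.Perc.Ex_comm]
        refine Pool.Agent.Perc.Ex_congr fun S hS => ?_
        rw [hgb, ← Pool.Agent.Perc.Ex_sub]
        refine Pool.Agent.Perc.Ex_congr fun T hT => ?_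
        have hTx : Disjoint T (blk s β x) := by
          rw [Finset.disjoint_left]
          intro e he he'
          have h1 := hT he
          rw [hB, mem_blk] at h1
          rw [mem_blk] at he'
          exact hx.2.1 (he'.2.symm.trans h1.2)
        have h1 : T ∪ (S ∪ blk s β x) = T ∪ S ∪ blk s β x := by rw [Finset.union_assoc]
        have h2 : T ∪ (S \ blk s β x) = (T ∪ S) \ blk s β x := by
          rw [Finset.union_sdiff_distrib, Finset.sdiff_eq_self_of_disjoint hTx]
        simp only [h1, h2]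
      -- probabilities of being revealed
      have hQ : ∀ x, Ex p F (ind fun S => x ∈ bFrom s β R (ofS (O ∪ S)) (n + 1) (D, O)) =
          Ex p B (fun T => Ex p F' (ind fun S => x ∈ bFrom s β R (ofS ((O ∪ T) ∪ S)) n
            (insert b D, O ∪ T))) := by
        intro x
        rw [hE]
        refine Pool.Agent.Perc.Ex_congr fun T hT => Pool.Agent.Perc.Ex_congr fun S hS => ?_
        refine Pool.Agent.Perc.ind_congr ?_
        rw [hst T S hT hS]
      have hQb : Ex p F (ind fun S => b ∈ bFrom s β R (ofS (O ∪ S)) (n + 1) (D, O)) = 1 := by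
        have : ∀ S, S ⊆ F → ind (fun S => b ∈ bFrom s β R (ofS (O ∪ S)) (n + 1) (D, O)) S = 1 := by
          intro S _
          refine Pool.Agent.Perc.ind_of
            (A := fun S => b ∈ bFrom s β R (ofS (O ∪ S)) (n + 1) (D, O)) ?_
          rw [bFrom_succ, bStep_some (x := (D, O)) hNe]
          exact subset_bFrom _ _ _ (Finset.mem_insert_self _ _)
        rw [Pool.Agent.Perc.Ex_congr this, Pool.Agent.Perc.Ex_const]
      have hsplit : ∑ x ∈ K \ D, Ex p F (ind fun S => x ∈ bFrom s β R (ofS (O ∪ S)) (n + 1) (D, O)) *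
            bInf p F (blk s β x) g =
          bInf p F B g + ∑ x ∈ K \ insert b D,
            Ex p F (ind fun S => x ∈ bFrom s β R (ofS (O ∪ S)) (n + 1) (D, O)) *
            bInf p F (blk s β x) g := by
        have h1 : K \ D = insert b (K \ insert b D) := by
          ext x
          simp only [Finset.mem_sdiff, Finset.mem_insert, not_or]
          by_cases hx : x = b
          · subst hx; simp [hbK, hbD]
          · simp [hx]
        rw [h1, Finset.sum_insert (by simp), hQb, one_mul]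
      rw [hsplit, hdec]
      refine (abs_add_le _ _).trans ?_
      rw [add_comm]
      refine add_le_add hRle ?_
      refine (Pool.Agent.Perc.abs_Ex_le hp0 hp1 _).trans ?_
      refine (Pool.Agent.Perc.Ex_mono hp0 hp1 IH).trans ?_
      rw [Pool.Agent.Perc.Ex_sum]
      refine Finset.sum_le_sum fun x hx => ?_
      rw [Pool.Agent.Perc.Ex_mul_const, hinf x hx, hQ x]

/-! ### Version for local events -/

/-- The configuration with all edges of the finite set `B` set to `b`. -/
def setB (B : Finset Edge) (b : Bool) (ω : Config) : Config := fun e => if e ∈ B then b else ω e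

/-- The set of edges `B` is pivotal for `A`. -/
def BPiv (B : Finset Edge) (A : Set Config) : Set Config :=
  {ω | setB B true ω ∈ A ∧ setB B false ω ∉ A}

lemma setB_ofS_true (B S : Finset Edge) : setB B true (ofS S) = ofS (S ∪ B) := by
  funext e
  by_cases h : e ∈ B <;> simp [setB, ofS, h]

lemma setB_ofS_false (B S : Finset Edge) : setB B false (ofS S) = ofS (S \ B) := by
  funext e
  by_cases h : e ∈ B <;> simp [setB, ofS, h]

lemma setB_mono {B : Finset Edge} (ω : Config) (e : Edge) (h : setB B false ω e = true) :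
    setB B true ω e = true := by
  by_cases h' : e ∈ B
  · simp [setB, h']
  · simpa [setB, h'] using h

lemma localOn_BPiv {A : Set Config} (hA : LocalOn s A) (B : Finset Edge) :
    LocalOn s (BPiv B A) := by
  rintro ω ω' h ⟨h1, h2⟩
  have key : ∀ b : Bool, ∀ e ∈ s, setB B b ω e = setB B b ω' e := by
    intro b e he
    unfold setB
    split_ifs
    · rfl
    · exact h e he
  exact ⟨hA _ _ (key true) h1, fun h3 => h2 (hA _ _ (fun e he => (key false e he).symm) h3)⟩

lemma Pr_BPiv {A : Set Config} (hA : LocalOn s A) (iA : Incr A) (p : I) (B : Finset Edge) :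
    Pr p (BPiv B A) = bInf (p : ℝ) s B (ind fun S => ofS S ∈ A) := by
  rw [Pr_eq_Ex (localOn_BPiv hA B)]
  unfold bInf
  refine Pool.Agent.Perc.Ex_congr fun S _ => ?_
  by_cases h1 : ofS (S ∪ B) ∈ A
  · by_cases h2 : ofS (S \ B) ∈ A
    · rw [ind_of (A := fun S => ofS S ∈ A) h1, ind_of (A := fun S => ofS S ∈ A) h2, sub_self,
        ind_of_not]
      rintro ⟨_, h4⟩
      rw [setB_ofS_false] at h4
      exact h4 h2
    · rw [ind_of (A := fun S => ofS S ∈ A) h1, ind_of_not (A := fun S => ofS S ∈ A) h2, sub_zero,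
        ind_of]
      refine ⟨?_, ?_⟩
      · rw [setB_ofS_true]; exact h1
      · rw [setB_ofS_false]; exact h2
  · have h2 : ¬ ofS (S \ B) ∈ A := fun h => h1 (iA _ _ (ofS_mono
      (Finset.sdiff_subset.trans Finset.subset_union_left)) h)
    rw [ind_of_not (A := fun S => ofS S ∈ A) h1, ind_of_not (A := fun S => ofS S ∈ A) h2, sub_self,
      ind_of_not]
    rintro ⟨h3, _⟩
    rw [setB_ofS_true] at h3
    exact h1 h3

lemma bStep_congr {ω ω' : Config} {x : Finset κ × Finset Edge}
    (h : ∀ b, R x.1 x.2 = some b → ∀ e ∈ blk s β b, ω e = ω' e) :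
    bStep s β R ω x = bStep s β R ω' x := by
  rcases hN : R x.1 x.2 with _ | b
  · rw [bStep_none hN, bStep_none hN]
  · rw [bStep_some hN, bStep_some hN]
    congr 2
    refine Finset.filter_congr fun e he => ?_
    rw [h b hN e he]

lemma localOn_revealed (n : ℕ) (b : κ) : LocalOn s {ω | b ∈ revealed s β R ω n} := by
  intro ω ω' h hω
  have : bStep s β R ω = bStep s β R ω' := funext fun x =>
    bStep_congr fun b _ e he => h e (mem_blk.1 he).1
  simp only [Set.mem_ofPred_eq, revealed, bFrom] at hω ⊢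
  rwa [← this]

/-- If two configurations agree on the blocks revealed by the first one, then they have the same
exploration. -/
lemma bFrom_congr {ω ω' : Config} (n : ℕ) (x : Finset κ × Finset Edge)
    (h : ∀ e ∈ s, β e ∈ bFrom s β R ω n x → ω e = ω' e) :
    bFrom s β R ω' n x = bFrom s β R ω n x := by
  induction n generalizing x with
  | zero => rfl
  | succ n ih =>
    have hstep : bStep s β R ω x = bStep s β R ω' x := by
      refine bStep_congr fun b hb e he => ?_
      rw [mem_blk] at he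
      refine h e he.1 ?_
      rw [bFrom_succ, he.2]
      refine subset_bFrom _ _ _ ?_
      rw [bStep_some hb]
      exact Finset.mem_insert_self _ _
    rw [bFrom_succ, bFrom_succ, ← hstep]
    refine ih _ fun e he h' => h e he ?_
    rw [bFrom_succ]
    exact h'

/-- **Block OSSS inequality** for an increasing local event determined by a block exploration. -/
theorem block_osss {A : Set Config} (hA : LocalOn s A) (iA : Incr A) {K : Finset κ}
    (hK : ∀ e ∈ s, β e ∈ K) (hR : ∀ D O b, R D O = some b → b ∈ K ∧ b ∉ D)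
    (hdet : ∀ ω ω' : Config, (∀ e ∈ s, β e ∈ revealed s β R ω K.card → ω e = ω' e) →
      ω ∈ A → ω' ∈ A) (p : I) :
    Pr p A * (1 - Pr p A) ≤
      ∑ b ∈ K, Pr p {ω | b ∈ revealed s β R ω K.card} * Pr p (BPiv (blk s β b) A) := by
  have hp0 : 0 ≤ (p : ℝ) := p.2.1
  have hp1 : (p : ℝ) ≤ 1 := p.2.2
  have hs : s.filter (fun e => β e ∉ (∅ : Finset κ)) = s := by simp
  have hK' : K \ (∅ : Finset κ) = K := Finset.sdiff_empty
  have key := block_cov (s := s) (β := β) (R := R) hp0 hp1 hK hR K.card ∅ ∅ (by rw [hK'])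
    (by simp) (ind fun S => ofS S ∈ A) (ind fun S => ofS S ∈ A)
    (fun S _ => ⟨Pool.Agent.Perc.ind_nonneg _ _, Pool.Agent.Perc.ind_le_one _ _⟩)
    (iA.monoOnF _)
    (by
      intro S S' hS hS' h
      rw [hs] at hS hS' h
      rw [Finset.empty_union] at h
      have h1 : ∀ e ∈ s, β e ∈ revealed s β R (ofS S) K.card → ofS S e = ofS S' e := by
        intro e he hr
        rw [ofS_apply, ofS_apply, decide_eq_decide]
        exact h e he hr
      refine Pool.Agent.Perc.ind_congr ⟨hdet _ _ h1, fun h2 => ?_⟩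
      refine hdet _ _ (fun e he hr => (h1 e he ?_).symm) h2
      unfold revealed at hr h1 ⊢
      rwa [bFrom_congr K.card (∅, ∅) h1] at hr)
  rw [hs, hK'] at key
  have hcov : Ex (p : ℝ) s (fun S => ind (fun S => ofS S ∈ A) S * ind (fun S => ofS S ∈ A) S) -
      Ex (p : ℝ) s (ind fun S => ofS S ∈ A) * Ex (p : ℝ) s (ind fun S => ofS S ∈ A) =
      Pr p A * (1 - Pr p A) := by
    rw [Pr_eq_Ex hA p]
    have : Ex (p : ℝ) s (fun S => ind (fun S => ofS S ∈ A) S * ind (fun S => ofS S ∈ A) S) =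
        Ex (p : ℝ) s (ind fun S => ofS S ∈ A) := by
      refine Pool.Agent.Perc.Ex_congr fun S _ => ?_
      rw [← pow_two, Pool.Agent.Perc.ind_sq]
    rw [this]
    ring
  rw [hcov] at key
  refine (le_abs_self _).trans (key.trans (le_of_eq ?_))
  refine Finset.sum_congr rfl fun b _ => ?_
  rw [Pr_BPiv hA iA, Pr_eq_Ex (localOn_revealed K.card b)]
  congr 1
  refine Pool.Agent.Perc.Ex_congr fun S _ => Pool.Agent.Perc.ind_congr ?_
  rw [Finset.empty_union]
  rfl

end Pool.Agent.H85.Kes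

end

section

/-!
# The Russo-Seymour-Welsh lemma (version of Bollobas and Riordan)
-/

open MeasureTheory ProbabilityTheory unitInterval

namespace Pool.Agent.H89.Perc

/-- There is an open bottom-top crossing of the square `[0, n]²` which is joined inside
`[0, m] × [0, 2 n]` to the right side of the latter rectangle. -/
def XEvent (m n : ℕ) : Set Config :=
  {ω | ∃ u v w : Vert, u.2 = 0 ∧ v.2 = n ∧ w.1 = m ∧
    Conn ω (rect 0 n 0 n) u v ∧ Conn ω (rect 0 m 0 (2 * n)) u w}

/-- Image of a path under a map of vertices (local version). -/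
theorem Conn.map_mem {ω ω' : Config} {S T : Set Vert} {u v : Vert} (f : Vert → Vert)
    (hf : ∀ w ∈ S, f w ∈ T)
    (hstep : ∀ e a b, a ∈ S → b ∈ S → Joins e a b → ω e = true →
      ∃ e', Joins e' (f a) (f b) ∧ ω' e' = true)
    (h : Conn ω S u v) : Conn ω' T (f u) (f v) := by
  refine ⟨hf u h.1, ?_⟩
  obtain ⟨_, h2⟩ := h
  refine Relation.ReflTransGen.lift f ?_ _ _ h2
  rintro a b ⟨ha, hb, e, he, ho⟩
  exact ⟨hf a ha, hf b hb, hstep e a b ha hb he ho⟩

/-! ### The exploration from the left side of the square -/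

/-- Edges of the square that the exploration may examine. -/
def rkInner (n : ℕ) (e : Edge) : Prop :=
  (e.2.2 = true ∧ 0 ≤ e.1 ∧ e.1 ≤ n ∧ 0 ≤ e.2.1 ∧ e.2.1 ≤ (n : ℤ) - 1) ∨
  (e.2.2 = false ∧ 0 ≤ e.1 ∧ e.1 ≤ (n : ℤ) - 1 ∧ 1 ≤ e.2.1 ∧ e.2.1 ≤ (n : ℤ) - 1)

/-- Boundary conditions: outside the examined edges all horizontal edges are closed and all
vertical edges are open. -/
noncomputable def rkBc (n : ℕ) (ω : Config) : Config := fun e => by
  classical exact if rkInner n e then ω e else e.2.2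

theorem rkBc_inner {n : ℕ} {ω : Config} {e : Edge} (h : rkInner n e) : rkBc n ω e = ω e := by
  unfold rkBc; simp [h]

theorem rkBc_not_inner {n : ℕ} {ω : Config} {e : Edge} (h : ¬ rkInner n e) :
    rkBc n ω e = e.2.2 := by
  unfold rkBc; simp [h]

/-- The faces considered. -/
def rkD (n : ℕ) : Set Vert := rect (-1) n (-1) n

/-- The explored faces. -/
def rkZ (n : ℕ) (ω : Config) : Set Vert := {φ | Conn (dual (rkBc n ω)) (rkD n) (-1, 0) φ}

theorem mem_rkD {n : ℕ} {φ : Vert} :
    φ ∈ rkD n ↔ -1 ≤ φ.1 ∧ φ.1 ≤ n ∧ -1 ≤ φ.2 ∧ φ.2 ≤ n := Iff.rfl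

theorem rkZ_subset (n : ℕ) (ω : Config) : rkZ n ω ⊆ rkD n := fun _ h => Conn.mem_right h

theorem rk_source_mem (n : ℕ) (ω : Config) : ((-1, 0) : Vert) ∈ rkZ n ω :=
  Conn.refl (by rw [mem_rkD]; simp)

theorem rkZ_step {n : ℕ} {ω : Config} {e : Edge} {φ ψ : Vert} (hφ : φ ∈ rkZ n ω) (hψ : ψ ∈ rkD n)
    (he : Joins e φ ψ) (hc : rkBc n ω (crossed e) = false) : ψ ∈ rkZ n ω := by
  refine Conn.tail hφ ⟨Conn.mem_right hφ, hψ, e, he, ?_⟩
  simp [dual, hc]

/-- Vertical neighbours separated by a non examined edge. -/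
theorem rkZ_vert {n : ℕ} {ω : Config} {i j : ℤ} (hi : -1 ≤ i) (hi' : i ≤ n) (hj : -1 ≤ j)
    (hj' : j + 1 ≤ n) (h : ¬ rkInner n (i, j + 1, false)) :
    (i, j) ∈ rkZ n ω ↔ (i, j + 1) ∈ rkZ n ω := by
  have hc : rkBc n ω (crossed (i, j, true)) = false := by
    have : crossed (i, j, true) = (i, j + 1, false) := by simp [crossed]
    rw [this, rkBc_not_inner h]
  have hJ : Joins (i, j, true) (i, j) (i, j + 1) := Or.inl ⟨rfl, by simp [tgt]⟩
  constructor
  · intro hm
    exact rkZ_step hm (by rw [mem_rkD]; simp only; omega) hJ hc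
  · intro hm
    exact rkZ_step hm (by rw [mem_rkD]; simp only; omega) hJ.symm hc

theorem rkZ_left {n : ℕ} {ω : Config} {j : ℤ} (hj : -1 ≤ j) (hj' : j ≤ n) :
    ((-1, j) : Vert) ∈ rkZ n ω := by
  have hno : ∀ y, ¬ rkInner n (-1, y, false) := by
    intro y h
    rcases h with h | h
    · simp at h
    · have := h.2.1; simp at this
  have key : ∀ k : ℕ, (k : ℤ) ≤ n → ((-1, (k : ℤ)) : Vert) ∈ rkZ n ω := by
    intro k
    induction k with
    | zero => intro _; exact rk_source_mem n ω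
    | succ k ih =>
      intro hk
      have h1 := ih (by push_cast at hk; omega)
      have := (rkZ_vert (ω := ω) (i := -1) (j := k) (by omega) (by omega) (by omega)
        (by push_cast at hk; omega) (hno _)).1 h1
      simpa using this
  by_cases h : j = -1
  · subst h
    have h0 := rk_source_mem n ω
    by_cases hn : (0 : ℤ) ≤ n
    · exact (rkZ_vert (ω := ω) (i := -1) (j := -1) (by omega) (by omega) (by omega)
        (by omega) (hno _)).2 (by simpa using h0)
    · omega
  · have := key j.toNat (by omega)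
    rwa [show ((j.toNat : ℕ) : ℤ) = j by omega] at this

theorem rkZ_row0 {n : ℕ} {ω : Config} {i : ℤ} (hi : -1 ≤ i) (hi' : i ≤ n) :
    (i, -1) ∈ rkZ n ω ↔ (i, 0) ∈ rkZ n ω := by
  have := rkZ_vert (n := n) (ω := ω) (i := i) (j := -1) hi hi' (by omega) (by omega)
    (by rintro (h | h)
        · simp at h
        · have := h.2.2.2.1; simp at this)
  simpa using this

theorem rkZ_rown {n : ℕ} {ω : Config} {i : ℤ} (hn : 1 ≤ n) (hi : -1 ≤ i) (hi' : i ≤ n) :
    (i, (n : ℤ) - 1) ∈ rkZ n ω ↔ (i, (n : ℤ)) ∈ rkZ n ω := by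
  have := rkZ_vert (n := n) (ω := ω) (i := i) (j := (n : ℤ) - 1) hi hi' (by omega) (by omega)
    (by rintro (h | h)
        · simp at h
        · have := h.2.2.2.2; simp at this)
  simpa using this

/-- If there is a vertical crossing, the exploration does not reach the right column. -/
theorem rkZ_right {n : ℕ} {ω : Config} (hn : 1 ≤ n) (hV : VCross ω 0 n 0 n) (j : ℤ) :
    ((n : ℤ), j) ∉ rkZ n ω := by
  intro hj
  have hno := not_vcross_and_dual_hcross (ω := ω) (a := 0) (b := n) (c := 0) (d := n)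
    (by exact_mod_cast hn) hV
  apply hno
  obtain ⟨w, w', h1, h2, h3, -⟩ := Conn.exists_exit (T := {φ : Vert | φ.1 < n}) hj
    (by simp only [Set.mem_ofPred_eq]; omega) (by simp)
  set cl : ℤ → ℤ := fun y => max 0 (min y ((n : ℤ) - 1)) with hcl
  have hcl1 : ∀ y, 0 ≤ cl y ∧ cl y ≤ (n : ℤ) - 1 := by
    intro y; simp only [hcl]; omega
  have hcl2 : ∀ y, 0 ≤ y → y ≤ (n : ℤ) - 1 → cl y = y := by
    intro y _ _; simp only [hcl]; omega
  -- horizontal steps
  have hor : ∀ (e : Edge) (a b : Vert), a ∈ rkD n → b ∈ rkD n → Joins e a b → e.2.2 = false →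
      dual (rkBc n ω) e = true →
      dual ω e = true ∧ a.2 = b.2 ∧ 0 ≤ a.2 ∧ a.2 ≤ (n : ℤ) - 1 := by
    rintro ⟨x, y, t⟩ a b ha hb hJ ht ho
    simp only at ht
    subst ht
    have hcr : crossed (x, y, false) = (x + 1, y, true) := by simp [crossed]
    simp only [dual, hcr, Bool.not_eq_true'] at ho ⊢
    have hin : rkInner n (x + 1, y, true) := by
      by_contra h
      rw [rkBc_not_inner h] at ho
      exact absurd ho (by simp)
    rw [rkBc_inner hin] at ho
    have hy : a.2 = y ∧ b.2 = y := by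
      rcases hJ with ⟨h1, h2⟩ | ⟨h1, h2⟩ <;> simp [h1, h2, src, tgt]
    refine ⟨ho, by rw [hy.1, hy.2], ?_⟩
    rcases hin with h | h
    · rw [hy.1]; exact ⟨h.2.2.2.1, h.2.2.2.2⟩
    · simp at h
  -- every explored face is joined to the left column in the original dual configuration
  have key : ∃ ψ : Vert, ψ.1 = 0 - 1 ∧
      Conn (dual ω) (rect (0 - 1) n 0 ((n : ℤ) - 1)) ψ (w.1, cl w.2) := by
    refine h1.induction_right
      (P := fun φ => ∃ ψ : Vert, ψ.1 = 0 - 1 ∧
        Conn (dual ω) (rect (0 - 1) n 0 ((n : ℤ) - 1)) ψ (φ.1, cl φ.2)) ?_ ?_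
    · refine ⟨(-1, cl 0), by simp, Conn.refl ?_⟩
      have := hcl1 0
      simp only [rect, Set.mem_ofPred_eq]
      omega
    · rintro a b hwa ⟨ha, hb, e, hJ, ho⟩ ⟨ψ, hψ, hc⟩
      have haD := ha.1
      have hbD := hb.1
      have hbT := hb.2
      rw [mem_rkD] at haD hbD
      simp only [Set.mem_ofPred_eq] at hbT
      by_cases hb1 : b.1 = -1
      · refine ⟨(b.1, cl b.2), by simp [hb1], Conn.refl ?_⟩
        have := hcl1 b.2
        simp only [rect, Set.mem_ofPred_eq]
        omega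
      refine ⟨ψ, hψ, ?_⟩
      cases ht : e.2.2
      · obtain ⟨h5, h6, h7, h8⟩ := hor e a b ha.1 hb.1 hJ ht ho
        rw [hcl2 a.2 h7 h8] at hc
        rw [← h6, hcl2 a.2 h7 h8]
        refine hc.tail ⟨hc.mem_right, ?_, e, ?_, h5⟩
        · simp only [rect, Set.mem_ofPred_eq]
          omega
        · have : ((b.1, a.2) : Vert) = b := by rw [h6]
          rw [this]
          exact hJ
      · -- vertical step
        obtain ⟨x, y, t⟩ := e
        simp only at ht
        subst ht
        have hcr : crossed (x, y, true) = (x, y + 1, false) := by simp [crossed]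
        simp only [dual, hcr, Bool.not_eq_true'] at ho
        have hab : (a = (x, y) ∧ b = (x, y + 1)) ∨ (a = (x, y + 1) ∧ b = (x, y)) := by
          rcases hJ with ⟨h1, h2⟩ | ⟨h1, h2⟩
          · left; exact ⟨by simpa [src] using h1, by simpa [tgt] using h2⟩
          · right; exact ⟨by simpa [tgt] using h1, by simpa [src] using h2⟩
        have hbx : b.1 = x := by rcases hab with ⟨h1, h2⟩ | ⟨h1, h2⟩ <;> rw [h2]
        have hby : (a.2 = y ∧ b.2 = y + 1) ∨ (a.2 = y + 1 ∧ b.2 = y) := by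
          rcases hab with ⟨h1, h2⟩ | ⟨h1, h2⟩ <;> simp [h1, h2]
        by_cases hin : rkInner n (x, y + 1, false)
        · rw [rkBc_inner hin] at ho
          have hy : 1 ≤ y + 1 ∧ y + 1 ≤ (n : ℤ) - 1 := by
            rcases hin with h | h
            · simp at h
            · exact ⟨h.2.2.2.1, h.2.2.2.2⟩
          have hS : Step (dual ω) (rect (0 - 1) n 0 ((n : ℤ) - 1)) (x, y) (x, y + 1) := by
            refine ⟨?_, ?_, (x, y, true), Or.inl ⟨rfl, by simp [tgt]⟩, ?_⟩
            · simp only [rect, Set.mem_ofPred_eq]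
              omega
            · simp only [rect, Set.mem_ofPred_eq]
              omega
            · simp [dual, hcr, ho]
          have e1 : cl y = y := hcl2 y (by omega) (by omega)
          have e2 : cl (y + 1) = y + 1 := hcl2 (y + 1) (by omega) (by omega)
          rcases hab with ⟨h1, h2⟩ | ⟨h1, h2⟩
          · rw [h2]; rw [h1] at hc
            simp only [e1, e2] at hc ⊢
            exact hc.tail hS
          · rw [h2]; rw [h1] at hc
            simp only [e1, e2] at hc ⊢
            exact hc.tail hS.symm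
        · -- the projected faces coincide
          have hxn : 0 ≤ x ∧ x ≤ (n : ℤ) - 1 := by omega
          have hy : y + 1 ≤ 0 ∨ (n : ℤ) ≤ y + 1 := by
            by_contra hc'
            push Not at hc'
            refine hin (Or.inr ⟨rfl, hxn.1, hxn.2, ?_, ?_⟩)
            · show (1 : ℤ) ≤ y + 1
              omega
            · show y + 1 ≤ (n : ℤ) - 1
              omega
          have e1 : cl y = cl (y + 1) := by
            simp only [hcl]
            omega
          rcases hab with ⟨h1, h2⟩ | ⟨h1, h2⟩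
          · rw [h2]; rw [h1] at hc
            simp only [e1] at hc ⊢
            exact hc
          · rw [h2]; rw [h1] at hc
            simp only [e1] at hc ⊢
            exact hc
  obtain ⟨ψ, hψ, hc⟩ := key
  obtain ⟨hw, hw', e, hJ, ho⟩ := h2
  have hwT := h1.mem_right.2
  simp only [Set.mem_ofPred_eq, not_lt] at hwT h3
  have hw'D := hw'
  have hwD := hw
  rw [mem_rkD] at hw'D hwD
  have ht : e.2.2 = false := by
    by_contra ht
    rw [Bool.not_eq_false] at ht
    obtain ⟨x, y, t⟩ := e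
    simp only at ht
    subst ht
    rcases hJ with ⟨h1, h2⟩ | ⟨h1, h2⟩ <;> rw [h1] at hwT <;> rw [h2] at h3 <;>
      simp [src, tgt] at hwT h3 <;> omega
  obtain ⟨h5, h6, h7, h8⟩ := hor e w w' hw hw' hJ ht ho
  rw [hcl2 w.2 h7 h8] at hc
  refine ⟨ψ, w', hψ, by omega, hc.tail ⟨hc.mem_right, ?_, e, hJ, h5⟩⟩
  simp only [rect, Set.mem_ofPred_eq]
  omega

theorem isFace_crossed {e : Edge} {φ ψ : Vert} (h : Joins e φ ψ) :
    IsFace φ (crossed e) ∧ IsFace ψ (crossed e) := by
  obtain ⟨x, y, t⟩ := e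
  rcases h with ⟨h1, h2⟩ | ⟨h1, h2⟩ <;> subst h1 h2 <;> cases t <;>
    simp [IsFace, crossed, src, tgt]

/-- The examined edges when the explored set of faces is `Z`. -/
noncomputable def rkExpl (n : ℕ) (Z : Set Vert) : Finset Edge := by
  classical exact (eRect 0 n 0 n).filter (fun e => rkInner n e ∧ ∃ φ ∈ Z, IsFace φ e)

theorem mem_rkExpl {n : ℕ} {Z : Set Vert} {e : Edge} :
    e ∈ rkExpl n Z ↔ rkInner n e ∧ ∃ φ ∈ Z, IsFace φ e := by
  classical
  unfold rkExpl
  rw [Finset.mem_filter]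
  constructor
  · exact fun h => h.2
  · intro h
    refine ⟨?_, h⟩
    rw [mem_eRect]
    simp only [src, rect, Set.mem_ofPred_eq]
    rcases h.1 with h | h <;> omega

/-- The event that the explored set is `Z` depends only on the examined edges. -/
theorem localOn_rkE (n : ℕ) (Z : Set Vert) : LocalOn (rkExpl n Z) {ω | rkZ n ω = Z} := by
  intro ω ω' h hω
  rw [Set.mem_ofPred_eq] at hω ⊢
  have hagree : ∀ (e : Edge) (φ ψ : Vert), φ ∈ Z → Joins e φ ψ →
      rkBc n ω (crossed e) = rkBc n ω' (crossed e) := by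
    intro e φ ψ hφ hJ
    by_cases hin : rkInner n (crossed e)
    · rw [rkBc_inner hin, rkBc_inner hin]
      exact h _ (mem_rkExpl.2 ⟨hin, φ, hφ, (isFace_crossed hJ).1⟩)
    · rw [rkBc_not_inner hin, rkBc_not_inner hin]
  apply Set.Subset.antisymm
  · intro φ hφ
    refine Conn.induction_right (P := fun φ => φ ∈ Z) hφ (by rw [← hω]; exact rk_source_mem n ω) ?_
    rintro a b _ ⟨_, hb, e, hJ, ho⟩ ha
    have : rkBc n ω (crossed e) = false := by
      rw [hagree e a b ha hJ]
      simpa [dual] using ho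
    rw [← hω] at ha ⊢
    exact rkZ_step ha hb hJ this
  · intro φ hφ
    rw [← hω] at hφ
    refine Conn.induction_right (P := fun φ => φ ∈ rkZ n ω') hφ (rk_source_mem n ω') ?_
    rintro a b hca ⟨_, hb, e, hJ, ho⟩ ha
    have haZ : a ∈ Z := by rw [← hω]; exact hca
    have : rkBc n ω' (crossed e) = false := by
      rw [← hagree e a b haZ hJ]
      simpa [dual] using ho
    exact rkZ_step ha hb hJ this

/-- The properties of the explored set used below. -/
structure RkGood (n : ℕ) (Z : Set Vert) : Prop where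
  sub : Z ⊆ rkD n
  conn : ∀ u ∈ Z, ∀ v ∈ Z, Conn allOpen Z u v
  left : ∀ j : ℤ, -1 ≤ j → j ≤ n → ((-1, j) : Vert) ∈ Z
  right : ∀ j : ℤ, ((n : ℤ), j) ∉ Z
  row0 : ∀ i : ℤ, -1 ≤ i → i ≤ n → ((i, -1) ∈ Z ↔ (i, 0) ∈ Z)
  rown : ∀ i : ℤ, -1 ≤ i → i ≤ n → ((i, (n : ℤ) - 1) ∈ Z ↔ (i, (n : ℤ)) ∈ Z)

theorem rkGood_of_vcross {n : ℕ} {ω : Config} (hn : 1 ≤ n) (hV : VCross ω 0 n 0 n) :
    RkGood n (rkZ n ω) where
  sub := rkZ_subset n ω
  conn := by
    have key : ∀ u ∈ rkZ n ω, Conn allOpen (rkZ n ω) (-1, 0) u := by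
      intro u hu
      refine Conn.induction_right (P := fun u => Conn allOpen (rkZ n ω) (-1, 0) u) hu
        (Conn.refl (rk_source_mem n ω)) ?_
      rintro a b hca hs ha
      refine ha.tail ⟨hca, Conn.tail hca hs, ?_⟩
      obtain ⟨_, _, e, hJ, _⟩ := hs
      exact ⟨e, hJ, rfl⟩
    intro u hu v hv
    exact (key u hu).symm.trans (key v hv)
  left := fun j h h' => rkZ_left h h'
  right := rkZ_right hn hV
  row0 := fun i h h' => rkZ_row0 h h'
  rown := fun i h h' => rkZ_rown hn h h'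

/-- The side of the right column. -/
def rkK (n : ℕ) (Z : Set Vert) : Set Vert := comp (rkD n) Z ((n : ℤ), 0)

section good

variable {n : ℕ} {Z : Set Vert}

theorem rkK_sub (n : ℕ) (Z : Set Vert) : rkK n Z ⊆ rkD n \ Z := fun _ h => Conn.mem_right h

theorem rkK_step {e : Edge} {φ ψ : Vert} (hφ : φ ∈ rkK n Z) (hψ : ψ ∈ rkD n) (hψ' : ψ ∉ Z)
    (hJ : Joins e φ ψ) : ψ ∈ rkK n Z :=
  Conn.tail hφ ⟨Conn.mem_right hφ, ⟨hψ, hψ'⟩, e, hJ, rfl⟩

theorem rkK_vert {i j : ℤ} (hi : -1 ≤ i) (hi' : i ≤ n) (hj : -1 ≤ j) (hj' : j + 1 ≤ n)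
    (h : (i, j) ∈ Z ↔ (i, j + 1) ∈ Z) : (i, j) ∈ rkK n Z ↔ (i, j + 1) ∈ rkK n Z := by
  have hJ : Joins (i, j, true) (i, j) (i, j + 1) := Or.inl ⟨rfl, by simp [tgt]⟩
  constructor
  · intro hm
    exact rkK_step hm (by rw [mem_rkD]; simp only; omega)
      (fun h' => (rkK_sub n Z hm).2 (h.2 h')) hJ
  · intro hm
    exact rkK_step hm (by rw [mem_rkD]; simp only; omega)
      (fun h' => (rkK_sub n Z hm).2 (h.1 h')) hJ.symm

theorem RkGood.k_row0 (hZ : RkGood n Z) {i : ℤ} (hi : -1 ≤ i) (hi' : i ≤ n) :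
    (i, -1) ∈ rkK n Z ↔ (i, 0) ∈ rkK n Z := by
  have := rkK_vert (n := n) (Z := Z) (i := i) (j := -1) hi hi' (by omega) (by omega)
    (by simpa using hZ.row0 i hi hi')
  simpa using this

theorem RkGood.k_rown (hn : 1 ≤ n) (hZ : RkGood n Z) {i : ℤ} (hi : -1 ≤ i) (hi' : i ≤ n) :
    (i, (n : ℤ) - 1) ∈ rkK n Z ↔ (i, (n : ℤ)) ∈ rkK n Z := by
  have := rkK_vert (n := n) (Z := Z) (i := i) (j := (n : ℤ) - 1) hi hi' (by omega) (by omega)
    (by simpa using hZ.rown i hi hi')
  simpa using this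

theorem RkGood.k_right (hZ : RkGood n Z) {j : ℤ} (hj : -1 ≤ j) (hj' : j ≤ n) :
    ((n : ℤ), j) ∈ rkK n Z := by
  have h0 : ((n : ℤ), (0 : ℤ)) ∈ rkK n Z :=
    Conn.refl ⟨by rw [mem_rkD]; simp only; omega, hZ.right 0⟩
  have key : ∀ k : ℕ, (k : ℤ) ≤ n → ((n : ℤ), (k : ℤ)) ∈ rkK n Z := by
    intro k
    induction k with
    | zero => intro _; simpa using h0
    | succ k ih =>
      intro hk
      push_cast at hk
      have h1 := ih (by omega)
      have := (rkK_vert (n := n) (Z := Z) (i := n) (j := k) (by omega) (by omega) (by omega)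
        (by omega) (by simp [hZ.right])).1 h1
      simpa using this
  by_cases h : j = -1
  · subst h
    exact (hZ.k_row0 (by omega) le_rfl).2 h0
  · have := key j.toNat (by omega)
    rwa [show ((j.toNat : ℕ) : ℤ) = j by omega] at this

theorem RkGood.k_left (hZ : RkGood n Z) (j : ℤ) : ((-1, j) : Vert) ∉ rkK n Z := by
  intro h
  have h1 := rkK_sub n Z h
  have h2 := h1.1
  rw [mem_rkD] at h2
  exact h1.2 (hZ.left j h2.2.2.1 h2.2.2.2)

/-- Reflected classification of faces: the side of the right column. -/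
def rkKK (n : ℕ) (Z : Set Vert) : Set Vert :=
  {φ | (n : ℤ) < φ.1 ∨ φ ∈ rkK n Z ∨ (φ.1, 2 * (n : ℤ) - 1 - φ.2) ∈ rkK n Z}

theorem rkKK_refl {φ : Vert} : (φ.1, 2 * (n : ℤ) - 1 - φ.2) ∈ rkKK n Z ↔ φ ∈ rkKK n Z := by
  simp only [rkKK, Set.mem_ofPred_eq, sub_sub_cancel, Prod.mk.eta]
  tauto

theorem RkGood.kk_low (hn : 1 ≤ n) (hZ : RkGood n Z) {φ : Vert} (h1 : φ.1 ≤ n)
    (h2 : φ.2 ≤ n) : φ ∈ rkKK n Z ↔ φ ∈ rkK n Z := by
  constructor
  · rintro (h | h | h)
    · omega
    · exact h
    · have h3 := (rkK_sub n Z h).1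
      rw [mem_rkD] at h3
      simp only at h3
      by_cases h4 : φ.2 = n
      · rw [h4, show 2 * (n : ℤ) - 1 - n = (n : ℤ) - 1 by ring, hZ.k_rown hn h3.1 h3.2.1,
          ← h4] at h
        exact h
      · have h5 : φ.2 = (n : ℤ) - 1 := by omega
        rw [h5, show 2 * (n : ℤ) - 1 - ((n : ℤ) - 1) = n by ring, ← hZ.k_rown hn h3.1 h3.2.1,
          ← h5] at h
        exact h
  · intro h; exact Or.inr (Or.inl h)

theorem RkGood.kk_right (hZ : RkGood n Z) {φ : Vert} (h1 : (n : ℤ) ≤ φ.1)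
    (h2 : -1 ≤ φ.2) (h3 : φ.2 ≤ 2 * n) : φ ∈ rkKK n Z := by
  rcases h1.eq_or_lt with h | h
  · by_cases h4 : φ.2 ≤ n
    · right; left
      have := hZ.k_right h2 h4
      rwa [h, Prod.mk.eta] at this
    · right; right
      have := hZ.k_right (j := 2 * (n : ℤ) - 1 - φ.2) (by omega) (by omega)
      show (φ.1, 2 * (n : ℤ) - 1 - φ.2) ∈ rkK n Z
      rw [← h]
      exact this
  · exact Or.inl h

theorem RkGood.kk_left (hZ : RkGood n Z) {φ : Vert} (h1 : φ.1 = -1) : φ ∉ rkKK n Z := by
  obtain ⟨i, j⟩ := φ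
  simp only at h1
  subst h1
  rintro (h | h | h)
  · simp only at h; omega
  · exact hZ.k_left j h
  · exact hZ.k_left _ h

/-- The four faces around a vertex. -/
def Around (φ v : Vert) : Prop := (φ.1 = v.1 - 1 ∨ φ.1 = v.1) ∧ (φ.2 = v.2 - 1 ∨ φ.2 = v.2)

/-- Vertices all of whose faces are on the right side. -/
def rkG (n : ℕ) (Z : Set Vert) : Set Vert := {v | ∀ φ, Around φ v → φ ∈ rkKK n Z}

theorem rkG_refl {v : Vert} : (v.1, 2 * (n : ℤ) - v.2) ∈ rkG n Z ↔ v ∈ rkG n Z := by
  simp only [rkG, Set.mem_ofPred_eq]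
  constructor
  · intro h φ hφ
    rw [← rkKK_refl]
    apply h
    simp only [Around] at hφ ⊢
    omega
  · intro h φ hφ
    rw [← rkKK_refl]
    apply h
    simp only [Around] at hφ ⊢
    omega

theorem isFace_around {φ u v : Vert} {e : Edge} (hJ : Joins e u v) (h : IsFace φ e) :
    Around φ u ∧ Around φ v := by
  obtain ⟨x, y, t⟩ := e
  rcases hJ with ⟨h1, h2⟩ | ⟨h1, h2⟩ <;> subst h1 h2 <;> rcases h with h | h <;> subst h <;>
    cases t <;> simp [Around, src, tgt]

/-- The boundary vertices. -/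
def rkT (n : ℕ) (Z : Set Vert) : Set Vert :=
  {t | t ∈ rect 0 n 0 n ∧ ∃ e, src e ∈ rkD n ∧ tgt e ∈ rkD n ∧
    cutConfig (rkK n Z) e = false ∧ IsFace (t.1 - 1, t.2 - 1) e}

theorem rswkey_cutConfig_false {K : Set Vert} {e : Edge} :
    cutConfig K e = false ↔ ¬ (src e ∈ K ↔ tgt e ∈ K) := by
  classical
  simp [cutConfig]

/-- A vertex of the square with faces of both kinds is a boundary vertex. -/
theorem rkT_of_mixed {v : Vert} (hv : v ∈ rect 0 n 0 n) (h1 : ∃ φ, Around φ v ∧ φ ∈ rkK n Z)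
    (h2 : ∃ φ, Around φ v ∧ φ ∉ rkK n Z) : v ∈ rkT n Z := by
  by_contra hno
  have hv' := hv
  simp only [rect, Set.mem_ofPred_eq] at hv'
  have key : ∀ e : Edge, src e ∈ rkD n → tgt e ∈ rkD n → IsFace (v.1 - 1, v.2 - 1) e →
      (src e ∈ rkK n Z ↔ tgt e ∈ rkK n Z) := by
    intro e ha hb hf
    by_contra hc
    exact hno ⟨hv, e, ha, hb, rswkey_cutConfig_false.2 hc, hf⟩
  have k1 := key (v.1 - 1, v.2 - 1, false) (by rw [mem_rkD]; simp only [src]; omega)
    (by rw [mem_rkD]; simp only [tgt]; simp; omega) (by simp [IsFace, src])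
  have k2 := key (v.1 - 1, v.2 - 1, true) (by rw [mem_rkD]; simp only [src]; omega)
    (by rw [mem_rkD]; simp only [tgt]; simp; omega) (by simp [IsFace, src])
  have k3 := key (v.1 - 1, v.2, false) (by rw [mem_rkD]; simp only [src]; omega)
    (by rw [mem_rkD]; simp only [tgt]; simp; omega) (by simp [IsFace, src])
  simp only [src, tgt, sub_add_cancel, if_true, Bool.false_eq_true, if_false] at k1 k2 k3
  have all : ∀ φ, Around φ v → (φ ∈ rkK n Z ↔ (v.1 - 1, v.2 - 1) ∈ rkK n Z) := by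
    rintro ⟨i, j⟩ ⟨h3 | h3, h4 | h4⟩ <;> simp only at h3 h4 <;> subst h3 h4 <;> tauto
  obtain ⟨φ, hφ, hφ'⟩ := h1
  obtain ⟨ψ, hψ, hψ'⟩ := h2
  exact hψ' ((all ψ hψ).2 ((all φ hφ).1 hφ'))

/-- Connectivity of the boundary (application of `sep`). -/
theorem RkGood.conn_T (hZ : RkGood n Z) {ω : Config} (hω : rkZ n ω = Z) {t t' : Vert}
    (ht : t ∈ rkT n Z) (ht' : t' ∈ rkT n Z) : Conn ω (rect 0 n 0 n) t t' := by
  obtain ⟨hts, e, he1, he2, hec, hef⟩ := ht
  obtain ⟨hts', e', he1', he2', hec', hef'⟩ := ht'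
  have hD : rkK n Z ⊆ rect (-1) n (-1) n := fun _ h => (rkK_sub n Z h).1
  have hsep := sep (a := -1) (b := n) (c := -1) (d := n) (K := rkK n Z) hD
    (comp_connected) (compl_comp_connected hZ.sub (hZ.left 0 (by omega) (by omega)) hZ.conn)
    ⟨he1, he2⟩ ⟨he1', he2'⟩ hec hec' hef hef'
    (by simp only [rect, Set.mem_ofPred_eq] at hts ⊢; omega)
    (by simp only [rect, Set.mem_ofPred_eq] at hts' ⊢; omega)
  have hmap := hsep.map_mem (ω' := ω) (T := rect 0 n 0 n) (fun φ => (φ.1 + 1, φ.2 + 1)) ?_ ?_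
  · simpa using hmap
  · intro w hw
    simp only [rect, Set.mem_ofPred_eq] at hw ⊢
    omega
  · rintro ⟨x, y, b⟩ u v hu hv hJ ho
    refine ⟨(x + 1, y + 1, b), ?_, ?_⟩
    · have := joins_shift (1, 1) hJ
      simpa [shiftE] using this
    · -- the crossed dual edge is a cut edge inside `D`
      have hxy : (x, y) ∈ rect (-1) ((n : ℤ) - 1) (-1) ((n : ℤ) - 1) ∧
          tgt (x, y, b) ∈ rect (-1) ((n : ℤ) - 1) (-1) ((n : ℤ) - 1) := by
        rcases hJ with ⟨h1, h2⟩ | ⟨h1, h2⟩
        · subst h1 h2; exact ⟨hu, hv⟩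
        · subst h1 h2; exact ⟨hv, hu⟩
      have hcut : cutConfig (rkK n Z) (crossed (x, y, b)) = false := by
        simpa [dual] using ho
      have hin : src (crossed (x, y, b)) ∈ rkD n ∧ tgt (crossed (x, y, b)) ∈ rkD n := by
        obtain ⟨h1, h2⟩ := hxy
        simp only [rect, Set.mem_ofPred_eq, tgt] at h1 h2
        cases b <;> simp [crossed, src, tgt, mem_rkD] at h1 h2 ⊢ <;> omega
      -- a cut edge is open in the modified configuration
      have hopen : rkBc n ω (crossed (crossed (x, y, b))) = true := by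
        by_contra hcl
        rw [Bool.not_eq_true] at hcl
        rcases cut_comp hin hcut with ⟨h1, h2⟩ | ⟨h1, h2⟩
        · have h3 : tgt (crossed (x, y, b)) ∈ rkZ n ω :=
            rkZ_step (by rw [hω]; exact h1) hin.2 (joins_src_tgt _) hcl
          rw [hω] at h3
          exact (rkK_sub n Z h2).2 h3
        · have h3 : src (crossed (x, y, b)) ∈ rkZ n ω :=
            rkZ_step (by rw [hω]; exact h1) hin.1 (joins_src_tgt _).symm hcl
          rw [hω] at h3
          exact (rkK_sub n Z h2).2 h3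
      have hcc : crossed (crossed (x, y, b)) = (x + 1, y + 1, b) := by
        cases b <;> simp [crossed]
      rw [hcc] at hopen
      by_cases hi : rkInner n (x + 1, y + 1, b)
      · rwa [rkBc_inner hi] at hopen
      · rw [rkBc_not_inner hi] at hopen
        simp only at hopen
        subst hopen
        exfalso
        apply hi
        left
        obtain ⟨h1, h2⟩ := hxy
        simp only [rect, Set.mem_ofPred_eq, tgt, if_true] at h1 h2
        exact ⟨rfl, by simp only; omega, by simp only; omega, by simp only; omega,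
          by simp only; omega⟩

theorem rk_switch {P : ℤ → Prop} (n : ℕ) (h0 : ¬ P (-1)) (h1 : P n) :
    ∃ i : ℤ, 0 ≤ i ∧ i ≤ n ∧ ¬ P (i - 1) ∧ P i := by
  by_contra hno
  push Not at hno
  have key : ∀ k : ℕ, k ≤ n → ¬ P k := by
    intro k
    induction k with
    | zero =>
      intro _ h
      exact h0 (by by_contra hc; exact hno 0 le_rfl (by omega) (by simpa using hc) (by simpa using h))
    | succ k ih =>
      intro hk h
      have h2 := ih (by omega)
      exact hno ((k + 1 : ℕ) : ℤ) (by omega) (by exact_mod_cast hk) (by simpa using h2) h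
  exact key n le_rfl h1

theorem RkGood.bottom (hn : 1 ≤ n) (hZ : RkGood n Z) : ∃ u ∈ rkT n Z, u.2 = 0 := by
  obtain ⟨i, h1, h2, h3, h4⟩ := rk_switch (P := fun i => ((i, (0 : ℤ)) : Vert) ∈ rkK n Z) n
    (hZ.k_left 0) (hZ.k_right (by omega) (by omega))
  refine ⟨(i, 0), rkT_of_mixed ?_ ⟨(i, 0), ?_, h4⟩ ⟨(i - 1, 0), ?_, h3⟩, rfl⟩
  · simp only [rect, Set.mem_ofPred_eq]; omega
  · simp [Around]
  · simp [Around]

theorem RkGood.top (hn : 1 ≤ n) (hZ : RkGood n Z) : ∃ v ∈ rkT n Z, v.2 = n := by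
  obtain ⟨i, h1, h2, h3, h4⟩ := rk_switch (P := fun i => ((i, (n : ℤ)) : Vert) ∈ rkK n Z) n
    (hZ.k_left n) (hZ.k_right (by omega) (by omega))
  refine ⟨(i, n), rkT_of_mixed ?_ ⟨(i, n), ?_, h4⟩ ⟨(i - 1, n), ?_, h3⟩, rfl⟩
  · simp only [rect, Set.mem_ofPred_eq]; omega
  · simp [Around]
  · simp [Around]

/-- Vertices of the tall rectangle with faces of both kinds. -/
theorem RkGood.mixed (hn : 1 ≤ n) (hZ : RkGood n Z) {m : ℕ} {v : Vert}
    (hv : v ∈ rect 0 m 0 (2 * n)) (h1 : ∃ φ, Around φ v ∧ φ ∈ rkKK n Z)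
    (h2 : ∃ φ, Around φ v ∧ φ ∉ rkKK n Z) :
    v ∈ rkT n Z ∨ (v.1, 2 * (n : ℤ) - v.2) ∈ rkT n Z := by
  -- the lower half
  have low : ∀ v : Vert, v ∈ rect 0 m 0 (2 * n) → v.2 ≤ n → (∃ φ, Around φ v ∧ φ ∈ rkKK n Z) →
      (∃ φ, Around φ v ∧ φ ∉ rkKK n Z) → v ∈ rkT n Z := by
    rintro v hv hv2 ⟨φ, hφ, hφ'⟩ ⟨ψ, hψ, hψ'⟩
    simp only [rect, Set.mem_ofPred_eq] at hv
    have hψ1 : ψ.1 < n := by
      by_contra hc
      push Not at hc
      refine hψ' (hZ.kk_right hc ?_ ?_) <;> simp only [Around] at hψ <;> omega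
    have hvn : v.1 ≤ n := by simp only [Around] at hψ; omega
    refine rkT_of_mixed ?_ ⟨φ, hφ, ?_⟩ ⟨ψ, hψ, ?_⟩
    · simp only [rect, Set.mem_ofPred_eq]; omega
    · refine (hZ.kk_low hn ?_ ?_).1 hφ' <;> simp only [Around] at hφ <;> omega
    · intro hc
      refine hψ' ((hZ.kk_low hn ?_ ?_).2 hc) <;> simp only [Around] at hψ <;> omega
  by_cases hv2 : v.2 ≤ n
  · exact Or.inl (low v hv hv2 h1 h2)
  · right
    refine low _ ?_ ?_ ?_ ?_
    · simp only [rect, Set.mem_ofPred_eq] at hv ⊢; omega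
    · simp only; omega
    · obtain ⟨φ, hφ, hφ'⟩ := h1
      refine ⟨(φ.1, 2 * (n : ℤ) - 1 - φ.2), ?_, rkKK_refl.2 hφ'⟩
      simp only [Around] at hφ ⊢
      omega
    · obtain ⟨φ, hφ, hφ'⟩ := h2
      refine ⟨(φ.1, 2 * (n : ℤ) - 1 - φ.2), ?_, fun h => hφ' (rkKK_refl.1 h)⟩
      simp only [Around] at hφ ⊢
      omega

/-- The examined edges together with their mirror images. -/
noncomputable def rkB (n : ℕ) (Z : Set Vert) : Finset Edge :=
  rkExpl n Z ∪ (rkExpl n Z).image (reflY (2 * n))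

/-- Close the edges of a finite set. -/
def mask (B : Finset Edge) (ω : Config) : Config := fun e => ω e && !decide (e ∈ B)

theorem mask_of_notMem {B : Finset Edge} {ω : Config} {e : Edge} (h : e ∉ B) :
    mask B ω e = ω e := by simp [mask, h]

theorem mask_le {B : Finset Edge} {ω : Config} {e : Edge} (h : mask B ω e = true) :
    ω e = true := by
  simp only [mask, Bool.and_eq_true] at h
  exact h.1

theorem RkGood.notMem_expl (hn : 1 ≤ n) (hZ : RkGood n Z) {e : Edge} {u v : Vert}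
    (hJ : Joins e u v) (hu : u ∈ rkG n Z) : e ∉ rkExpl n Z := by
  intro he
  obtain ⟨-, φ, hφ, hf⟩ := mem_rkExpl.1 he
  have h1 := hu φ (isFace_around hJ hf).1
  have h2 := hZ.sub hφ
  rw [mem_rkD] at h2
  exact (rkK_sub n Z ((hZ.kk_low hn h2.2.1 h2.2.2.2).1 h1)).2 hφ

theorem RkGood.notMem_B (hn : 1 ≤ n) (hZ : RkGood n Z) {e : Edge} {u v : Vert}
    (hJ : Joins e u v) (hu : u ∈ rkG n Z) : e ∉ rkB n Z := by
  unfold rkB
  rw [Finset.mem_union, not_or]
  refine ⟨hZ.notMem_expl hn hJ hu, ?_⟩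
  rw [Finset.mem_image]
  rintro ⟨e', he', rfl⟩
  have h1 := joins_reflY (2 * (n : ℤ)) _ _ _ hJ
  rw [reflY_reflY] at h1
  exact hZ.notMem_expl hn h1 (rkG_refl.2 hu) he'

/-- Main geometric step: a horizontal crossing of the tall rectangle contains a path from the
right side to the boundary vertices or their mirror images that avoids the examined edges. -/
theorem RkGood.path (hn : 1 ≤ n) (hZ : RkGood n Z) {m : ℕ} (hmn : n ≤ m) {ω : Config}
    (hH : HCross ω 0 m 0 (2 * n)) :
    ∃ w t : Vert, w.1 = m ∧ (t ∈ rkT n Z ∨ (t.1, 2 * (n : ℤ) - t.2) ∈ rkT n Z) ∧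
      Conn (mask (rkB n Z) ω) (rect 0 m 0 (2 * n)) w t := by
  obtain ⟨l, w, hl, hw, hc⟩ := hH
  have hwR := hc.mem_right
  have hlR := hc.mem_left
  by_cases hwG : w ∈ rkG n Z
  · have hlG : l ∉ rkG n Z := by
      intro h
      exact hZ.kk_left (φ := (-1, l.2)) rfl (h _ (by simp [Around, hl]))
    obtain ⟨a, b, h1, h2, h3, -⟩ := hc.symm.exists_exit (T := rkG n Z) hwG hlG
    have haG : a ∈ rkG n Z := h1.mem_right.2
    have hstep : Step (mask (rkB n Z) ω) (rect 0 m 0 (2 * n)) a b := by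
      obtain ⟨ha, hb, e, hJ, ho⟩ := h2
      exact ⟨ha, hb, e, hJ, by rw [mask_of_notMem (hZ.notMem_B hn hJ haG)]; exact ho⟩
    refine ⟨w, b, hw, ?_, ?_⟩
    · obtain ⟨ha, hb, e, hJ, ho⟩ := h2
      apply hZ.mixed hn hb
      · refine ⟨src e, ?_, ?_⟩
        · exact (isFace_around hJ (Or.inl rfl)).2
        · exact haG _ (isFace_around hJ (Or.inl rfl)).1
      · by_contra hno
        push Not at hno
        exact h3 hno
    · have h4 : Conn (mask (rkB n Z) ω) (rect 0 m 0 (2 * n) ∩ rkG n Z) w a := by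
        refine Conn.congr ?_ h1
        intro e he _
        rw [mask_of_notMem (hZ.notMem_B hn (joins_src_tgt e) he.2)]
      exact (h4.mono_set Set.inter_subset_left).tail hstep
  · refine ⟨w, w, hw, hZ.mixed hn hwR ?_ ?_, Conn.refl hwR⟩
    · refine ⟨(w.1, w.2), by simp [Around], hZ.kk_right ?_ ?_ ?_⟩
      · simp only [hw]; exact_mod_cast hmn
      · simp only [rect, Set.mem_ofPred_eq] at hwR ⊢; omega
      · simp only [rect, Set.mem_ofPred_eq] at hwR ⊢; omega
    · by_contra hno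
      push Not at hno
      exact hwG hno

end good

/-! ### The probability estimate -/

/-- A path from the right side of the tall rectangle to `T` off the edges of `B`. -/
def rkY (n m : ℕ) (B : Finset Edge) (T : Set Vert) : Set Config :=
  {ω | ∃ w t : Vert, w.1 = m ∧ t ∈ T ∧ Conn (mask B ω) (rect 0 m 0 (2 * n)) w t}

theorem localOn_rkY (n m : ℕ) (B : Finset Edge) (T : Set Vert) :
    LocalOn (eRect 0 m 0 (2 * n) \ B) (rkY n m B T) := by
  rintro ω ω' h ⟨w, t, hw, ht, hc⟩
  refine ⟨w, t, hw, ht, Conn.congr ?_ hc⟩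
  intro e he _
  by_cases heB : e ∈ B
  · simp [mask, heB]
  · rw [mask_of_notMem heB, mask_of_notMem heB]
    exact h e (Finset.mem_sdiff.2 ⟨mem_eRect.2 he, heB⟩)

theorem Pr_rkY_refl {p : I} {n m : ℕ} {B : Finset Edge} (hB : ∀ e, reflY (2 * n) e ∈ B ↔ e ∈ B)
    (T : Set Vert) :
    Pr p (rkY n m B {t | (t.1, 2 * (n : ℤ) - t.2) ∈ T}) = Pr p (rkY n m B T) := by
  rw [← Pr_comp (localOn_rkY n m B T) (reflY_injective (2 * (n : ℤ))).injOn]
  congr 1
  ext ω
  have hm : mask B (fun e => ω (reflY (2 * n) e)) = fun e => mask B ω (reflY (2 * n) e) := by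
    funext e
    simp only [mask, hB]
  have hR : {w : Vert | (w.1, 2 * (n : ℤ) - w.2) ∈ rect 0 m 0 (2 * n)} = rect 0 m 0 (2 * n) := by
    ext w
    simp only [rect, Set.mem_ofPred_eq]
    omega
  simp only [rkY, Set.mem_ofPred_eq, hm, conn_reflY, hR]
  constructor
  · rintro ⟨w, t, hw, ht, hc⟩
    exact ⟨(w.1, 2 * (n : ℤ) - w.2), (t.1, 2 * (n : ℤ) - t.2), hw, ht, by simpa using hc⟩
  · rintro ⟨w, t, hw, ht, hc⟩
    exact ⟨(w.1, 2 * (n : ℤ) - w.2), (t.1, 2 * (n : ℤ) - t.2), hw, by simpa using ht, hc⟩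

theorem rkB_refl {n : ℕ} {Z : Set Vert} (e : Edge) :
    reflY (2 * n) e ∈ rkB n Z ↔ e ∈ rkB n Z := by
  have key : ∀ e, e ∈ rkB n Z → reflY (2 * n) e ∈ rkB n Z := by
    intro e he
    unfold rkB at he ⊢
    rw [Finset.mem_union] at he ⊢
    rcases he with he | he
    · exact Or.inr (Finset.mem_image_of_mem _ he)
    · obtain ⟨e', he', rfl⟩ := Finset.mem_image.1 he
      rw [reflY_reflY]
      exact Or.inl he'
  constructor
  · intro h
    have := key _ h
    rwa [reflY_reflY] at this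
  · exact key e

theorem rsw_key {p : I} {m n : ℕ} (hn : 1 ≤ n) (hmn : n ≤ m) :
    1 / 2 * Pr p {ω | VCross ω 0 n 0 n} * Pr p {ω | HCross ω 0 m 0 (2 * n)} ≤
      Pr p (XEvent m n) := by
  classical
  set DF : Finset Vert := Finset.Icc (-1 : ℤ) n ×ˢ Finset.Icc (-1 : ℤ) n with hDF
  set good : Finset (Finset Vert) := DF.powerset.filter (fun S => RkGood n (↑S : Set Vert))
    with hgood
  set E : Finset Vert → Set Config := fun S => {ω | rkZ n ω = (↑S : Set Vert)} with hE
  set Y : Finset Vert → Set Config := fun S => rkY n m (rkB n ↑S) (rkT n ↑S) with hY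
  have hlE : ∀ S : Finset Vert, LocalOn (rkExpl n (↑S : Set Vert)) (E S) := fun S => localOn_rkE n ↑S
  have hlY : ∀ S : Finset Vert, LocalOn (eRect 0 m 0 (2 * n) \ rkB n (↑S : Set Vert)) (Y S) := fun S => localOn_rkY _ _ _ _
  have hdisj : ∀ S : Finset Vert, Disjoint (rkExpl n (↑S : Set Vert))
      (eRect 0 m 0 (2 * n) \ rkB n (↑S : Set Vert)) := by
    intro S
    rw [Finset.disjoint_left]
    intro e he he'
    exact (Finset.mem_sdiff.1 he').2 (Finset.mem_union_left _ he)
  -- independence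
  have hind : ∀ S : Finset Vert, Pr p (E S ∩ Y S) = Pr p (E S) * Pr p (Y S) := fun S =>
    Pr_inter_of_disjoint (hlE S) (hlY S) (hdisj S)
  -- the lower bound for `Y`
  have hYlow : ∀ S ∈ good, 1 / 2 * Pr p {ω | HCross ω 0 m 0 (2 * n)} ≤ Pr p (Y S) := by
    intro S hS
    have hZ : RkGood n (↑S : Set Vert) := (Finset.mem_filter.1 hS).2
    have hsub : {ω | HCross ω 0 m 0 (2 * n)} ⊆ Y S ∪
        rkY n m (rkB n ↑S) {t | (t.1, 2 * (n : ℤ) - t.2) ∈ rkT n ↑S} := by
      intro ω hω
      obtain ⟨w, t, hw, ht, hc⟩ := hZ.path hn hmn hω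
      rcases ht with ht | ht
      · exact Or.inl ⟨w, t, hw, ht, hc⟩
      · exact Or.inr ⟨w, t, hw, ht, hc⟩
    have h1 := (Pr_mono (p := p) hsub).trans Pr_union_le
    rw [Pr_rkY_refl rkB_refl] at h1
    linarith
  -- the vertical crossing event
  have hV : Pr p {ω | VCross ω 0 n 0 n} ≤ ∑ S ∈ good, Pr p (E S) := by
    refine (Pr_mono ?_).trans (Pr_biUnion_le good E)
    intro ω hω
    have hg := rkGood_of_vcross hn hω
    have hcoe : (↑(DF.filter (fun φ => φ ∈ rkZ n ω)) : Set Vert) = rkZ n ω := by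
      ext φ
      simp only [Finset.coe_filter, Set.mem_ofPred_eq, hDF, Finset.mem_product, Finset.mem_Icc]
      constructor
      · exact fun h => h.2
      · intro h
        have := rkZ_subset n ω h
        rw [mem_rkD] at this
        exact ⟨⟨⟨this.1, this.2.1⟩, this.2.2.1, this.2.2.2⟩, h⟩
    rw [Set.mem_iUnion₂]
    refine ⟨DF.filter (fun φ => φ ∈ rkZ n ω), ?_, ?_⟩
    · rw [hgood, Finset.mem_filter, Finset.mem_powerset, hcoe]
      exact ⟨Finset.filter_subset _ _, hg⟩
    · simp only [hE, Set.mem_ofPred_eq, hcoe]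
  -- the union is contained in the event `X`
  have hX : (⋃ S ∈ good, E S ∩ Y S) ⊆ XEvent m n := by
    intro ω hω
    rw [Set.mem_iUnion₂] at hω
    obtain ⟨S, hS, hωE, hωY⟩ := hω
    have hZ : RkGood n (↑S : Set Vert) := (Finset.mem_filter.1 hS).2
    obtain ⟨w, t, hw, ht, hc⟩ := hωY
    obtain ⟨u, hu, hu0⟩ := hZ.bottom hn
    obtain ⟨v, hv, hvn⟩ := hZ.top hn
    refine ⟨u, v, w, hu0, hvn, hw, hZ.conn_T hωE hu hv, ?_⟩
    have h1 := hZ.conn_T hωE hu ht
    have h2 : Conn ω (rect 0 m 0 (2 * n)) u t := by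
      refine h1.mono_set ?_
      intro x hx
      simp only [rect, Set.mem_ofPred_eq] at hx ⊢
      omega
    exact h2.trans (hc.symm.mono le_rfl fun e he => mask_le he)
  have hsum : Pr p (⋃ S ∈ good, E S ∩ Y S) = ∑ S ∈ good, Pr p (E S ∩ Y S) := by
    unfold Pr
    refine measureReal_biUnion_finset ?_ ?_ (fun _ _ => measure_ne_top _ _)
    · intro S _ S' _ hne
      rw [Function.onFun, Set.disjoint_left]
      rintro ω ⟨h1, -⟩ ⟨h2, -⟩
      simp only [hE, Set.mem_ofPred_eq] at h1 h2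
      exact hne (Finset.coe_injective (h1.symm.trans h2))
    · intro S _
      exact (hlE S).measurableSet.inter (hlY S).measurableSet
  calc 1 / 2 * Pr p {ω | VCross ω 0 n 0 n} * Pr p {ω | HCross ω 0 m 0 (2 * n)}
      = Pr p {ω | VCross ω 0 n 0 n} * (1 / 2 * Pr p {ω | HCross ω 0 m 0 (2 * n)}) := by ring
    _ ≤ (∑ S ∈ good, Pr p (E S)) * (1 / 2 * Pr p {ω | HCross ω 0 m 0 (2 * n)}) :=
        mul_le_mul_of_nonneg_right hV (mul_nonneg (by norm_num) Pr_nonneg)
    _ = ∑ S ∈ good, Pr p (E S) * (1 / 2 * Pr p {ω | HCross ω 0 m 0 (2 * n)}) := by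
        rw [Finset.sum_mul]
    _ ≤ ∑ S ∈ good, Pr p (E S ∩ Y S) := by
        refine Finset.sum_le_sum fun S hS => ?_
        rw [hind S]
        exact mul_le_mul_of_nonneg_left (hYlow S hS) Pr_nonneg
    _ = Pr p (⋃ S ∈ good, E S ∩ Y S) := hsum.symm
    _ ≤ Pr p (XEvent m n) := Pr_mono hX

end Pool.Agent.H89.Perc

end

section

/-!
# Topology, part 3: rectangle duality
-/

namespace Pool.Agent.H89.Perc

variable {ω : Config}

/-- If there is no open left-right crossing, there is a dual bottom-top crossing. -/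
theorem hcross_or_dual_vcross {a b c d : ℤ} (hab : a < b) (hcd : c ≤ d) :
    HCross ω a b c d ∨ VCross (dual ω) a (b - 1) (c - 1) d := by
  classical
  by_contra hno
  push Not at hno
  obtain ⟨hH, hV⟩ := hno
  have hd1 : d + 1 - 1 = d := by ring
  set C : Set Vert := {v | ∃ u : Vert, u.1 = a ∧ Conn ω (rect a b c d) u v} with hC
  set χ : Vert → ZMod 2 := fun v => if (v.1, max c (min d v.2)) ∈ C then 1 else 0 with hχ
  set T : Set Vert := {F | ∃ φ : Vert, φ.2 = c - 1 ∧
    Conn (dual ω) (rect a (b - 1) (c - 1) (d + 1 - 1)) φ F} with hT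
  have hopen : ∀ e : Edge, src e ∈ rect a b c d → tgt e ∈ rect a b c d → ω e = true →
      (src e ∈ C ↔ tgt e ∈ C) := by
    intro e h1 h2 h3
    constructor
    · rintro ⟨u, h4, h5⟩
      exact ⟨u, h4, h5.tail ⟨h1, h2, e, joins_src_tgt e, h3⟩⟩
    · rintro ⟨u, h4, h5⟩
      exact ⟨u, h4, h5.tail ⟨h2, h1, e, (joins_src_tgt e).symm, h3⟩⟩
  have hclosed : ∀ e : Edge, src e ∈ rect a (b - 1) (c - 1) (d + 1 - 1) →
      lowFace e ∈ rect a (b - 1) (c - 1) (d + 1 - 1) → χ (src e) ≠ χ (tgt e) → ω e = false := by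
    rintro ⟨x, y, t⟩ h1 h2 h3
    by_contra h4
    rw [Bool.not_eq_false] at h4
    cases t
    · simp only [src, lowFace, rect, Set.mem_ofPred_eq, Bool.false_eq_true, if_false] at h1 h2
      have e1 : max c (min d y) = y := by omega
      simp only [hχ, src, tgt, Bool.false_eq_true, if_false, e1] at h3
      have h5 := hopen (x, y, false) ⟨h1.1, by simp only [src]; omega, by simp only [src]; omega,
        by simp only [src]; omega⟩ ⟨by simp [tgt]; omega, by simp [tgt]; omega,
        by simp [tgt]; omega, by simp [tgt]; omega⟩ h4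
      simp only [src, tgt, Bool.false_eq_true, if_false] at h5
      simp only [h5, ne_eq, not_true_eq_false] at h3
    · simp only [src, lowFace, rect, Set.mem_ofPred_eq, if_true] at h1 h2
      simp only [hχ, src, tgt, if_true] at h3
      by_cases hy : y = c - 1
      · have e1 : max c (min d y) = max c (min d (y + 1)) := by omega
        rw [e1] at h3
        exact h3 rfl
      by_cases hy' : y = d
      · have e1 : max c (min d y) = max c (min d (y + 1)) := by omega
        rw [e1] at h3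
        exact h3 rfl
      have e1 : max c (min d y) = y := by omega
      have e2 : max c (min d (y + 1)) = y + 1 := by omega
      rw [e1, e2] at h3
      have h5 := hopen (x, y, true) ⟨h1.1, by simp only [src]; omega, by simp only [src]; omega,
        by simp only [src]; omega⟩ ⟨by simp [tgt]; omega, by simp [tgt]; omega,
        by simp [tgt]; omega, by simp [tgt]; omega⟩ h4
      simp only [src, tgt, if_true] at h5
      simp only [h5, ne_eq, not_true_eq_false] at h3
  obtain ⟨W, hW⟩ := cut_lemma (a := a) (b := b) (c := c - 1) (d := d + 1) χ T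
    (fun F ⟨φ, _, hF⟩ => hF.mem_right) (by
      intro e h1 h2 h3
      have h4 := dual_step (hclosed e h1 h2 h3) h2 h1
      constructor
      · rintro ⟨φ, h5, h6⟩
        exact ⟨φ, h5, h6.tail h4.symm⟩
      · rintro ⟨φ, h5, h6⟩
        exact ⟨φ, h5, h6.tail h4⟩)
  have hWe : ∀ e, src e ∈ rect a b (c - 1) (d + 1) → tgt e ∈ rect a b (c - 1) (d + 1) →
      χ (src e) = χ (tgt e) → W (src e) = W (tgt e) := by
    intro e h1 h2 h3
    by_cases h4 : src e ∈ T ∨ lowFace e ∈ T
    · have := (hW e h1 h2).1 h4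
      rwa [h3, z2_add_self, z2_add_eq_zero] at this
    · push Not at h4
      exact (hW e h1 h2).2 h4.1 h4.2
  have hχa : ∀ y, χ (a, y) = 1 := by
    intro y
    simp only [hχ]
    rw [if_pos]
    exact ⟨(a, max c (min d y)), rfl, Conn.refl ⟨le_rfl, hab.le, by simp only; omega,
      by simp only; omega⟩⟩
  have hχb : ∀ y, χ (b, y) = 0 := by
    intro y
    simp only [hχ]
    rw [if_neg]
    rintro ⟨u, h1, h2⟩
    exact hH ⟨u, _, h1, rfl, h2⟩
  have hcola : W (a, c - 1) = W (a, d + 1) := by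
    refine const_col (by omega) fun y h1 h2 => ?_
    refine hWe (a, y, true) ⟨by simp [src], by simp [src]; omega, by simp [src]; omega,
      by simp [src]; omega⟩ ⟨by simp [tgt], by simp [tgt]; omega, by simp [tgt]; omega,
      by simp [tgt]; omega⟩ ?_
    simp only [src, tgt, if_true]
    rw [hχa, hχa]
  have hcolb : W (b, c - 1) = W (b, d + 1) := by
    refine const_col (by omega) fun y h1 h2 => ?_
    refine hWe (b, y, true) ⟨by simp [src]; omega, by simp [src], by simp [src]; omega,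
      by simp [src]; omega⟩ ⟨by simp [tgt]; omega, by simp [tgt], by simp [tgt]; omega,
      by simp [tgt]; omega⟩ ?_
    simp only [src, tgt, if_true]
    rw [hχb, hχb]
  have htop : W (a, d + 1) = W (b, d + 1) := by
    refine const_row hab.le fun x h1 h2 => ?_
    refine (hW (x, d + 1, false) ⟨by simp [src]; omega, by simp [src]; omega,
      by simp [src]; omega, by simp [src]⟩ ⟨by simp [tgt]; omega, by simp [tgt]; omega,
      by simp [tgt]; omega, by simp [tgt]⟩).2 ?_ ?_
    · rintro ⟨φ, _, h3⟩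
      have h4 := h3.mem_right
      simp only [src, rect, Set.mem_ofPred_eq] at h4
      omega
    · rintro ⟨φ, h4, h3⟩
      rw [hd1] at h3
      exact hV ⟨φ, _, h4, by simp [lowFace], h3⟩
  have hbot : W (a, c - 1) + χ (a, c - 1) = W (b, c - 1) + χ (b, c - 1) := by
    refine const_row (f := fun v => W v + χ v) hab.le fun x h1 h2 => ?_
    have h3 := (hW (x, c - 1, false) ⟨by simp [src]; omega, by simp [src]; omega,
      by simp [src], by simp [src]; omega⟩ ⟨by simp [tgt]; omega, by simp [tgt]; omega,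
      by simp [tgt], by simp [tgt]; omega⟩).1 (Or.inl ⟨(x, c - 1), rfl, Conn.refl
      ⟨by simp only; omega, by simp only; omega, by simp only; omega, by simp only; omega⟩⟩)
    simp only [src, tgt, Bool.false_eq_true, if_false] at h3
    rw [← z2_add_eq_zero]
    linear_combination h3 + z2_add_self (χ (x, c - 1)) + z2_add_self (χ (x + 1, c - 1))
  rw [hχa, hχb, hcola, htop, ← hcolb, add_zero] at hbot
  exact absurd (left_eq_add.1 hbot.symm) (by decide)

end Pool.Agent.H89.Perc

end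

section

/-!
# Russo-Seymour-Welsh at the self-dual point
-/

open MeasureTheory ProbabilityTheory unitInterval

namespace Pool.Agent.H89.Perc

/-! ### The mirror image of `XEvent` -/

/-- Mirror image of `XEvent m n` under `x ↦ n - x`. -/
def rsw_XEvent' (m n : ℕ) : Set Config :=
  {ω | ∃ u v w : Vert, u.2 = 0 ∧ v.2 = n ∧ w.1 = (n : ℤ) - m ∧
    Conn ω (rect 0 n 0 n) u v ∧ Conn ω (rect ((n : ℤ) - m) n 0 (2 * n)) u w}

lemma rsw_rect_subset {a b c d a' b' c' d' : ℤ} (h1 : a' ≤ a) (h2 : b ≤ b') (h3 : c' ≤ c)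
    (h4 : d ≤ d') : rect a b c d ⊆ rect a' b' c' d' := by
  rintro x ⟨hx1, hx2, hx3, hx4⟩
  exact ⟨h1.trans hx1, hx2.trans h2, h3.trans hx3, hx4.trans h4⟩

lemma rsw_localOn_XEvent {m n : ℕ} (hmn : n ≤ m) :
    LocalOn (eRect 0 m 0 (2 * n)) (XEvent m n) := by
  rintro ω ω' h ⟨u, v, w, hu, hv, hw, h1, h2⟩
  refine ⟨u, v, w, hu, hv, hw, Conn.congr (fun e he _ => h e (mem_eRect.2 ?_)) h1,
    Conn.congr (fun e he _ => h e (mem_eRect.2 he)) h2⟩
  exact rsw_rect_subset le_rfl (by exact_mod_cast hmn) le_rfl (by omega) he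

lemma rsw_incr_XEvent (m n : ℕ) : Incr (XEvent m n) := by
  rintro ω ω' h ⟨u, v, w, hu, hv, hw, h1, h2⟩
  exact ⟨u, v, w, hu, hv, hw, h1.mono le_rfl h, h2.mono le_rfl h⟩

lemma rsw_localOn_XEvent' {m n : ℕ} (hmn : n ≤ m) :
    LocalOn (eRect ((n : ℤ) - m) n 0 (2 * n)) (rsw_XEvent' m n) := by
  rintro ω ω' h ⟨u, v, w, hu, hv, hw, h1, h2⟩
  refine ⟨u, v, w, hu, hv, hw, Conn.congr (fun e he _ => h e (mem_eRect.2 ?_)) h1,
    Conn.congr (fun e he _ => h e (mem_eRect.2 he)) h2⟩
  exact rsw_rect_subset (by omega) le_rfl le_rfl (by omega) he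

lemma rsw_incr_XEvent' (m n : ℕ) : Incr (rsw_XEvent' m n) := by
  rintro ω ω' h ⟨u, v, w, hu, hv, hw, h1, h2⟩
  exact ⟨u, v, w, hu, hv, hw, h1.mono le_rfl h, h2.mono le_rfl h⟩

lemma rsw_reflX_reflX (z : ℤ) (e : Edge) : reflX z (reflX z e) = e := by
  obtain ⟨x, y, t⟩ := e
  cases t <;> simp [reflX]

lemma rsw_reflX_injective (z : ℤ) : Function.Injective (reflX z) := by
  intro e e' h
  rw [← rsw_reflX_reflX z e, h, rsw_reflX_reflX]

lemma rsw_XEvent'_eq (m n : ℕ) :
    {ω : Config | (fun e => ω (reflX n e)) ∈ XEvent m n} = rsw_XEvent' m n := by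
  ext ω
  constructor
  · rintro ⟨u, v, w, hu, hv, hw, h1, h2⟩
    rw [conn_reflX] at h1 h2
    refine ⟨((n : ℤ) - u.1, u.2), ((n : ℤ) - v.1, v.2), ((n : ℤ) - w.1, w.2), hu, hv, ?_,
      h1.mono_set ?_, h2.mono_set ?_⟩
    · simp [hw]
    · rintro x ⟨hx1, hx2, hx3, hx4⟩
      simp only at hx1 hx2 hx3 hx4
      exact ⟨by omega, by omega, hx3, hx4⟩
    · rintro x ⟨hx1, hx2, hx3, hx4⟩
      simp only at hx1 hx2 hx3 hx4
      exact ⟨by omega, by omega, hx3, hx4⟩
  · rintro ⟨u, v, w, hu, hv, hw, h1, h2⟩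
    refine ⟨((n : ℤ) - u.1, u.2), ((n : ℤ) - v.1, v.2), ((n : ℤ) - w.1, w.2), hu, hv, ?_, ?_, ?_⟩
    · simp [hw]
    · rw [conn_reflX]
      simp only [sub_sub_cancel]
      refine h1.mono_set ?_
      rintro x ⟨hx1, hx2, hx3, hx4⟩
      exact ⟨by simp only; omega, by simp only; omega, hx3, hx4⟩
    · rw [conn_reflX]
      simp only [sub_sub_cancel]
      refine h2.mono_set ?_
      rintro x ⟨hx1, hx2, hx3, hx4⟩
      exact ⟨by simp only; omega, by simp only; omega, hx3, hx4⟩

lemma rsw_Pr_XEvent' {p : I} {m n : ℕ} (hmn : n ≤ m) :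
    Pr p (rsw_XEvent' m n) = Pr p (XEvent m n) := by
  rw [← rsw_XEvent'_eq, Pr_comp (rsw_localOn_XEvent hmn) (rsw_reflX_injective _).injOn]

theorem rsw_glue {p : I} {m n : ℕ} (hn : 1 ≤ n) (hmn : n ≤ m) :
    Pr p (XEvent m n) ^ 2 * Pr p {ω | HCross ω 0 n 0 n} ≤
      Pr p {ω | HCross ω (n - m) m 0 (2 * n)} := by
  classical
  have hsub : (XEvent m n ∩ rsw_XEvent' m n) ∩ {ω | HCross ω 0 n 0 n} ⊆
      {ω | HCross ω (n - m) m 0 (2 * n)} := by
    rintro ω ⟨⟨⟨u, v, w, hu, hv, hw, h1, h2⟩, ⟨u', v', w', hu', hv', hw', h1', h2'⟩⟩,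
      ⟨x, y, hx, hy, h3⟩⟩
    obtain ⟨z, hz1, hz2⟩ := cross h3 hx hy h1 hu hv
    obtain ⟨z', hz1', hz2'⟩ := cross h3 hx hy h1' hu' hv'
    have h4 : Conn ω (rect 0 n 0 n) u' u :=
      (hz2'.trans hz1'.symm).trans (hz1.trans hz2.symm)
    refine ⟨w', w, hw', hw, ?_⟩
    have h5 : Conn ω (rect ((n : ℤ) - m) m 0 (2 * n)) w' u' :=
      (h2'.mono_set (rsw_rect_subset le_rfl (by exact_mod_cast hmn) le_rfl le_rfl)).symm
    have h6 : Conn ω (rect ((n : ℤ) - m) m 0 (2 * n)) u' u :=
      h4.mono_set (rsw_rect_subset (by omega) (by exact_mod_cast hmn) le_rfl (by omega))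
    have h7 : Conn ω (rect ((n : ℤ) - m) m 0 (2 * n)) u w :=
      h2.mono_set (rsw_rect_subset (by omega) le_rfl le_rfl le_rfl)
    exact (h5.trans h6).trans h7
  have h1 := fkg (p := p) (rsw_localOn_XEvent hmn) (rsw_localOn_XEvent' hmn)
    (rsw_incr_XEvent m n) (rsw_incr_XEvent' m n)
  have h2 := fkg (p := p) ((rsw_localOn_XEvent hmn).inter' (rsw_localOn_XEvent' hmn))
    (localOn_hcross 0 (n : ℤ) 0 (n : ℤ))
    ((rsw_incr_XEvent m n).inter (rsw_incr_XEvent' m n)) (incr_hcross 0 (n : ℤ) 0 (n : ℤ))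
  rw [rsw_Pr_XEvent' hmn] at h1
  calc Pr p (XEvent m n) ^ 2 * Pr p {ω | HCross ω 0 n 0 n}
      ≤ Pr p (XEvent m n ∩ rsw_XEvent' m n) * Pr p {ω | HCross ω 0 n 0 n} := by
        apply mul_le_mul_of_nonneg_right _ Pr_nonneg
        rw [sq]
        exact h1
    _ ≤ _ := h2.trans (Pr_mono hsub)

lemma rsw_symm_half : σ half = half := by
  apply Subtype.ext
  simp only [unitInterval.coe_symm_eq, half]
  norm_num

theorem half_le_hcross (n : ℕ) : 1 / 2 ≤ Pr half {ω | HCross ω 0 n 0 n} := by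
  have h1 : (Set.univ : Set Config) ⊆ {ω | HCross ω 0 ((n : ℤ) + 1) 0 n} ∪
      {ω | dual ω ∈ {η | VCross η 0 n (-1) n}} := by
    intro ω _
    have := hcross_or_dual_vcross (ω := ω) (a := 0) (b := (n : ℤ) + 1) (c := 0) (d := n)
      (by omega) (by omega)
    rcases this with h | h
    · exact Or.inl h
    · right
      simpa using h
  have h2 : (1 : ℝ) ≤ Pr half {ω | HCross ω 0 ((n : ℤ) + 1) 0 n} +
      Pr half {ω | dual ω ∈ {η | VCross η 0 n (-1) n}} := by
    rw [← Pr_univ (p := half)]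
    exact (Pr_mono h1).trans Pr_union_le
  rw [Pr_dual (localOn_vcross 0 (n : ℤ) (-1) n), rsw_symm_half, Pr_vcross_eq_hcross] at h2
  have h3 : Pr half {ω | HCross ω (-1) n 0 n} = Pr half {ω | HCross ω 0 ((n : ℤ) + 1) 0 n} := by
    have := Pr_hcross_translate (p := half) (a := 0) (b := (n : ℤ) + 1) (c := 0) (d := n) (-1) 0
    simpa using this
  rw [h3] at h2
  have h4 : Pr half {ω | HCross ω 0 ((n : ℤ) + 1) 0 n} ≤ Pr half {ω | HCross ω 0 n 0 n} := by
    apply Pr_mono
    intro ω h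
    exact HCross.mono h le_rfl (by omega) (by omega) le_rfl le_rfl
  linarith

theorem half_le_vcross (n : ℕ) : 1 / 2 ≤ Pr half {ω | VCross ω 0 n 0 n} := by
  rw [Pr_vcross_eq_hcross]
  exact half_le_hcross n

/-- One step of the iteration: from width `m` to width `2 m - n`. -/
lemma rsw_step {m n : ℕ} (hn : 1 ≤ n) (hmn : n ≤ m) {x : ℝ} (hx : 0 ≤ x)
    (h : x ≤ Pr half {ω | HCross ω 0 m 0 (2 * n)}) :
    x ^ 2 / 32 ≤ Pr half {ω | HCross ω 0 (2 * m - n) 0 (2 * n)} := by
  have h1 := rsw_key (p := half) hn hmn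
  have h2 := rsw_glue (p := half) hn hmn
  have h3 : Pr half {ω | HCross ω (n - m) m 0 (2 * n)} =
      Pr half {ω | HCross ω 0 (2 * m - n) 0 (2 * n)} := by
    have := Pr_hcross_translate (p := half) (a := 0) (b := 2 * (m : ℤ) - n) (c := 0)
      (d := 2 * (n : ℤ)) ((n : ℤ) - m) 0
    rw [← this]
    congr 1
    ext ω
    simp only [zero_add, add_zero, Set.mem_ofPred_eq]
    rw [show 2 * (m : ℤ) - n + (n - m) = m by ring]
  rw [h3] at h2
  have h4 := half_le_hcross n
  have h5 := half_le_vcross n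
  have h6 : x / 4 ≤ Pr half (XEvent m n) := by
    refine le_trans ?_ h1
    have h7 : 0 ≤ Pr half {ω | VCross ω 0 n 0 n} := Pr_nonneg
    have h8 : 0 ≤ Pr half {ω | HCross ω 0 m 0 (2 * n)} := Pr_nonneg
    nlinarith
  have h9 : (x / 4) ^ 2 ≤ Pr half (XEvent m n) ^ 2 := by
    apply pow_le_pow_left₀ (by positivity) h6
  refine le_trans ?_ h2
  have h10 : 0 ≤ Pr half (XEvent m n) ^ 2 := by positivity
  nlinarith

lemma rsw_even {n : ℕ} (hn : 1 ≤ n) :
    (1 / 2 : ℝ) ^ 91 ≤ Pr half {ω | HCross ω 0 (17 * n) 0 (2 * n)} := by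
  have h1 : (1 / 2 : ℝ) ≤ Pr half {ω | HCross ω 0 ((2 * n : ℕ) : ℤ) 0 (2 * n)} := by
    have := half_le_hcross (2 * n)
    simpa using this
  have h2 := rsw_step hn (by omega) (by norm_num) h1
  have e2 : (2 : ℤ) * ((2 * n : ℕ) : ℤ) - n = ((3 * n : ℕ) : ℤ) := by push_cast; ring
  rw [e2] at h2
  have h3 := rsw_step hn (by omega) (by norm_num) h2
  have e3 : (2 : ℤ) * ((3 * n : ℕ) : ℤ) - n = ((5 * n : ℕ) : ℤ) := by push_cast; ring
  rw [e3] at h3
  have h4 := rsw_step hn (by omega) (by norm_num) h3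
  have e4 : (2 : ℤ) * ((5 * n : ℕ) : ℤ) - n = ((9 * n : ℕ) : ℤ) := by push_cast; ring
  rw [e4] at h4
  have h5 := rsw_step hn (by omega) (by norm_num) h4
  have e5 : (2 : ℤ) * ((9 * n : ℕ) : ℤ) - n = 17 * n := by push_cast; ring
  rw [e5] at h5
  refine le_trans ?_ h5
  norm_num

lemma rsw_edge (e : Edge) : (1 / 2 : ℝ) ≤ Pr half {ω | ω e = true} := by
  classical
  have hloc : LocalOn {e} {ω : Config | ω e = true} := by
    intro ω ω' h hA
    have : ω e = ω' e := h e (by simp)
    simp only [Set.mem_ofPred_eq] at hA ⊢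
    rw [← this]
    exact hA
  rw [Pr_eq_update hloc e]
  have h1 : {ω : Config | Function.update ω e true ∈ {ω : Config | ω e = true}} = Set.univ := by
    ext ω
    simp
  rw [h1, Pr_univ]
  have h2 : ((half : I) : ℝ) = 1 / 2 := rfl
  rw [h2]
  have h3 : 0 ≤ Pr half {ω : Config | Function.update ω e false ∈ {ω : Config | ω e = true}} :=
    Pr_nonneg
  linarith

lemma rsw_one : (1 / 16 : ℝ) ≤ Pr half {ω | HCross ω 0 4 0 1} := by
  classical
  have hloc : ∀ e : Edge, LocalOn {e} {ω : Config | ω e = true} := by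
    intro e ω ω' h hA
    have : ω e = ω' e := h e (by simp)
    simp only [Set.mem_ofPred_eq] at hA ⊢
    rw [← this]
    exact hA
  have hinc : ∀ e : Edge, Incr {ω : Config | ω e = true} := fun e ω ω' h hA => h e hA
  set A : ℤ → Set Config := fun i => {ω | ω (i, 0, false) = true} with hA
  have h01 := fkg (p := half) (hloc (0, 0, false)) (hloc (1, 0, false)) (hinc _) (hinc _)
  have h23 := fkg (p := half) (hloc (2, 0, false)) (hloc (3, 0, false)) (hinc _) (hinc _)
  have h := fkg (p := half) ((hloc (0, 0, false)).inter' (hloc (1, 0, false)))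
    ((hloc (2, 0, false)).inter' (hloc (3, 0, false))) ((hinc _).inter (hinc _))
    ((hinc _).inter (hinc _))
  have e0 := rsw_edge (0, 0, false)
  have e1 := rsw_edge (1, 0, false)
  have e2 := rsw_edge (2, 0, false)
  have e3 := rsw_edge (3, 0, false)
  have h01' : (1 / 4 : ℝ) ≤ Pr half ({ω : Config | ω (0, 0, false) = true} ∩
      {ω : Config | ω (1, 0, false) = true}) := by
    refine le_trans ?_ h01
    nlinarith
  have h23' : (1 / 4 : ℝ) ≤ Pr half ({ω : Config | ω (2, 0, false) = true} ∩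
      {ω : Config | ω (3, 0, false) = true}) := by
    refine le_trans ?_ h23
    nlinarith
  have h' : (1 / 16 : ℝ) ≤ Pr half (({ω : Config | ω (0, 0, false) = true} ∩
      {ω : Config | ω (1, 0, false) = true}) ∩ ({ω : Config | ω (2, 0, false) = true} ∩
      {ω : Config | ω (3, 0, false) = true})) := by
    refine le_trans ?_ h
    nlinarith
  refine h'.trans (Pr_mono ?_)
  rintro ω ⟨⟨w0, w1⟩, ⟨w2, w3⟩⟩
  have hstep : ∀ i : ℤ, 0 ≤ i → i ≤ 3 → ω (i, 0, false) = true →
      Step ω (rect 0 4 0 1) (i, 0) (i + 1, 0) := by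
    intro i hi hi' hw
    refine ⟨⟨hi, by simp only; omega, le_rfl, by norm_num⟩,
      ⟨by simp only; omega, by simp only; omega, le_rfl, by norm_num⟩,
      (i, 0, false), Or.inl ⟨rfl, rfl⟩, hw⟩
  refine ⟨(0, 0), (4, 0), rfl, rfl, ?_⟩
  have s0 := (hstep 0 (by norm_num) (by norm_num) w0).conn
  have s1 := hstep 1 (by norm_num) (by norm_num) w1
  have s2 := hstep 2 (by norm_num) (by norm_num) w2
  have s3 := hstep 3 (by norm_num) (by norm_num) w3
  norm_num at s0 s1 s2 s3
  exact ((s0.tail s1).tail s2).tail s3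

/-- Crossings of long rectangles. -/
theorem rsw : ∃ c > (0 : ℝ), ∀ m : ℕ, 1 ≤ m → c ≤ Pr half {ω | HCross ω 0 (4 * m) 0 m} := by
  refine ⟨(1 / 2 : ℝ) ^ 91, by positivity, fun m hm => ?_⟩
  by_cases h1 : m = 1
  · subst h1
    refine le_trans ?_ (le_trans rsw_one (le_of_eq ?_))
    · norm_num
    · norm_num
  · have hn : 1 ≤ m / 2 := by omega
    refine (rsw_even hn).trans (Pr_mono ?_)
    intro ω h
    refine HCross.mono h le_rfl (by omega) ?_ le_rfl ?_
    · omega
    · omega

end Pool.Agent.H89.Perc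

end

section

/-!
# Topology, part 4: gluing and blocking
-/

namespace Pool.Agent.H89.Perc

variable {ω : Config}

/-- Faces inside `ball 0 r`: a path from a face near `ball 0 s` to a boundary face. -/
def DArm (s r : ℕ) : Set Config :=
  {η | ∃ φ φ' : Vert, φ ∈ rect (-s - 1) s (-s - 1) s ∧ φ' ∈ rect (-r) (r - 1) (-r) (r - 1) ∧
    (φ'.1 = -r ∨ φ'.1 = r - 1 ∨ φ'.2 = -r ∨ φ'.2 = r - 1) ∧
    Conn η (rect (-r) (r - 1) (-r) (r - 1)) φ φ'}

/-- Horizontal segments. -/
private lemma dualB_seg_x {S : Set Vert} (x y : ℤ) (n : ℕ)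
    (h : ∀ z : ℤ, x ≤ z → z ≤ x + n → ((z, y) : Vert) ∈ S) :
    Conn allOpen S (x, y) (x + n, y) := by
  induction n with
  | zero => simpa using Conn.refl (h x le_rfl (by simp))
  | succ n ih =>
    have h1 := ih fun z hz hz' => h z hz (by push_cast; omega)
    refine h1.tail ⟨h1.mem_right, h _ (by push_cast; omega) (by push_cast; omega),
      (x + n, y, false), Or.inl ⟨rfl, ?_⟩, rfl⟩
    simp [tgt, add_assoc]

/-- Vertical segments. -/
private lemma dualB_seg_y {S : Set Vert} (x y : ℤ) (n : ℕ)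
    (h : ∀ z : ℤ, y ≤ z → z ≤ y + n → ((x, z) : Vert) ∈ S) :
    Conn allOpen S (x, y) (x, y + n) := by
  induction n with
  | zero => simpa using Conn.refl (h y le_rfl (by simp))
  | succ n ih =>
    have h1 := ih fun z hz hz' => h z hz (by push_cast; omega)
    refine h1.tail ⟨h1.mem_right, h _ (by push_cast; omega) (by push_cast; omega),
      (x, y + n, true), Or.inl ⟨rfl, ?_⟩, rfl⟩
    simp [tgt, add_assoc]

private lemma dualB_seg_x' {S : Set Vert} (x x' y : ℤ) (hx : x ≤ x')
    (h : ∀ z : ℤ, x ≤ z → z ≤ x' → ((z, y) : Vert) ∈ S) :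
    Conn allOpen S (x, y) (x', y) := by
  obtain ⟨n, hn⟩ := Int.eq_ofNat_of_zero_le (sub_nonneg.2 hx)
  have h1 : x' = x + n := by omega
  subst h1
  exact dualB_seg_x x y n h

private lemma dualB_seg_y' {S : Set Vert} (x y y' : ℤ) (hy : y ≤ y')
    (h : ∀ z : ℤ, y ≤ z → z ≤ y' → ((x, z) : Vert) ∈ S) :
    Conn allOpen S (x, y) (x, y') := by
  obtain ⟨n, hn⟩ := Int.eq_ofNat_of_zero_le (sub_nonneg.2 hy)
  have h1 : y' = y + n := by omega
  subst h1
  exact dualB_seg_y x y n h

/-- Squares are connected. -/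
private lemma dualB_ball {s : ℕ} {w : Vert} (hw : w ∈ ball 0 s) : Conn allOpen (ball 0 s) 0 w := by
  obtain ⟨x, y⟩ := w
  simp only [mem_ball, Prod.fst_zero, Prod.snd_zero] at hw
  have h1 : Conn allOpen (ball 0 s) (0, 0) (x, 0) := by
    rcases le_total 0 x with h | h
    · exact dualB_seg_x' _ _ _ h fun z h1 h2 => by
        simp only [mem_ball, Prod.fst_zero, Prod.snd_zero]; omega
    · exact (dualB_seg_x' _ _ _ h fun z h1 h2 => by
        simp only [mem_ball, Prod.fst_zero, Prod.snd_zero]; omega).symm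
  have h2 : Conn allOpen (ball 0 s) (x, 0) (x, y) := by
    rcases le_total 0 y with h | h
    · exact dualB_seg_y' _ _ _ h fun z h1 h2 => by
        simp only [mem_ball, Prod.fst_zero, Prod.snd_zero]; omega
    · exact (dualB_seg_y' _ _ _ h fun z h1 h2 => by
        simp only [mem_ball, Prod.fst_zero, Prod.snd_zero]; omega).symm
  exact h1.trans h2

/-- Boundaries of squares are connected. -/
private lemma dualB_sphere {r : ℕ} {w : Vert} (hw : w ∈ sphere 0 r) :
    Conn allOpen (sphere 0 r) (r, r) w := by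
  obtain ⟨x, y⟩ := w
  simp only [sphere, mem_ball, Prod.fst_zero, Prod.snd_zero, Set.mem_ofPred_eq] at hw
  have top : ∀ x : ℤ, -r ≤ x → x ≤ r → Conn allOpen (sphere 0 r) (r, r) (x, r) := by
    intro x h1 h2
    exact (dualB_seg_x' _ _ _ h2 fun z h3 h4 => by
      simp only [sphere, mem_ball, Prod.fst_zero, Prod.snd_zero, Set.mem_ofPred_eq]; omega).symm
  have right : ∀ y : ℤ, -r ≤ y → y ≤ r → Conn allOpen (sphere 0 r) (r, r) (r, y) := by
    intro x h1 h2
    exact (dualB_seg_y' _ _ _ h2 fun z h3 h4 => by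
      simp only [sphere, mem_ball, Prod.fst_zero, Prod.snd_zero, Set.mem_ofPred_eq]; omega).symm
  obtain ⟨h1, h2 | h2 | h2 | h2⟩ := hw
  · have h3 : x = -r := by omega
    subst h3
    exact (top (-r) (by omega) (by omega)).trans
      (dualB_seg_y' _ _ _ (by omega) fun z h3 h4 => by
        simp only [sphere, mem_ball, Prod.fst_zero, Prod.snd_zero, Set.mem_ofPred_eq]; omega).symm
  · have h3 : x = r := by omega
    subst h3
    exact right y (by omega) (by omega)
  · have h3 : y = -r := by omega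
    subst h3
    exact (right (-r) (by omega) (by omega)).trans
      (dualB_seg_x' _ _ _ (by omega) fun z h3 h4 => by
        simp only [sphere, mem_ball, Prod.fst_zero, Prod.snd_zero, Set.mem_ofPred_eq]; omega).symm
  · have h3 : y = r := by omega
    subst h3
    exact top x (by omega) (by omega)

/-- A step out of a set `K` is along a cut edge. -/
private lemma dualB_cut {K S : Set Vert} {ω : Config} {u v : Vert} (h : Step ω S u v)
    (hu : u ∉ K) (hv : v ∈ K) :
    ∃ e, Joins e u v ∧ cutConfig K e = false ∧ src e ∈ S ∧ tgt e ∈ S := by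
  obtain ⟨h1, h2, e, h3, h4⟩ := h
  refine ⟨e, h3, ?_, ?_⟩
  · rcases h3 with ⟨h5, h6⟩ | ⟨h5, h6⟩
    · subst h5 h6; simp [cutConfig, hu, hv]
    · subst h5 h6; simp [cutConfig, hu, hv]
  · rcases h3 with ⟨h5, h6⟩ | ⟨h5, h6⟩
    · subst h5 h6; exact ⟨h1, h2⟩
    · subst h5 h6; exact ⟨h2, h1⟩

/-- A boundary face next to an edge of the sphere. -/
private lemma dualB_face {r : ℕ} (hr : 1 ≤ r) {e : Edge} (h1 : src e ∈ sphere 0 r)
    (h2 : tgt e ∈ sphere 0 r) :
    ∃ φ : Vert, IsFace φ e ∧ φ ∈ rect (-r) (r - 1) (-r) (r - 1) ∧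
      (φ.1 = -r ∨ φ.1 = r - 1 ∨ φ.2 = -r ∨ φ.2 = r - 1) := by
  obtain ⟨x, y, b⟩ := e
  cases b
  · simp only [sphere, mem_ball, Prod.fst_zero, Prod.snd_zero, Set.mem_ofPred_eq, src, tgt,
      Bool.false_eq_true, if_false] at h1 h2
    by_cases h : y = r
    · refine ⟨(x, y - 1), Or.inr (by simp), ?_, ?_⟩
      · simp only [rect, Set.mem_ofPred_eq]; omega
      · right; right; right; show y - 1 = r - 1; omega
    · refine ⟨(x, y), Or.inl rfl, ?_, ?_⟩
      · simp only [rect, Set.mem_ofPred_eq]; omega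
      · simp only; omega
  · simp only [sphere, mem_ball, Prod.fst_zero, Prod.snd_zero, Set.mem_ofPred_eq, src, tgt,
      if_true] at h1 h2
    by_cases h : x = r
    · refine ⟨(x - 1, y), Or.inr (by simp), ?_, ?_⟩
      · simp only [rect, Set.mem_ofPred_eq]; omega
      · right; left; show x - 1 = r - 1; omega
    · refine ⟨(x, y), Or.inl rfl, ?_, ?_⟩
      · simp only [rect, Set.mem_ofPred_eq]; omega
      · simp only; omega

/-- Gluing: if no dual path crosses the annulus between `ball 0 s` and `ball 0 r`, then a path from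
`0` to `sphere 0 r` and a path from `ball 0 s` to `sphere 0 R` are connected. -/
theorem glue {s r R : ℕ} (hs : s < r) (hr : r ≤ R) (h1 : ω ∈ Arm 0 r) (h2 : ω ∈ ArmBox 0 s R)
    (h3 : dual ω ∉ DArm s r) : ω ∈ Arm 0 R := by
  obtain ⟨y₀, hy₀, hc₀⟩ := h1
  obtain ⟨w, hw, u, hu, hwu⟩ := h2
  have hrR : ball 0 r ⊆ ball 0 R := by
    intro x hx
    simp only [mem_ball, Prod.fst_zero, Prod.snd_zero] at hx ⊢
    omega
  have hwr : w ∈ ball 0 r := by
    simp only [mem_ball, Prod.fst_zero, Prod.snd_zero] at hw ⊢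
    omega
  by_cases hw0 : Conn ω (ball 0 r) 0 w
  · exact ⟨u, hu, (hw0.mono_set hrR).trans hwu⟩
  exfalso
  obtain ⟨x, hx, hwx⟩ := hwu.to_sphere (v := 0) (r := r) hwr (by
    by_cases h : u ∈ ball 0 r
    · right
      refine ⟨h, ?_⟩
      have h4 := hu.2
      simp only [mem_ball, Prod.fst_zero, Prod.snd_zero] at h h4 ⊢
      omega
    · exact Or.inl h)
  have hwx' : Conn ω (ball 0 r) w x := hwx.mono_set Set.inter_subset_right
  -- the open cluster of the origin in the ball
  set C : Set Vert := {z | Conn ω (ball 0 r) 0 z} with hCdef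
  have hCsub : C ⊆ rect (-r) r (-r) r := by
    intro z hz
    have := Conn.mem_right hz
    simp only [mem_ball, Prod.fst_zero, Prod.snd_zero] at this
    simp only [rect, Set.mem_ofPred_eq]; omega
  have hball : ball 0 r = rect (-r) r (-r) r := by
    ext z
    simp only [mem_ball, Prod.fst_zero, Prod.snd_zero, rect, Set.mem_ofPred_eq]
    omega
  have h0C : (0 : Vert) ∈ C := Conn.refl self_mem_ball
  have hC0 : ∀ z ∈ C, Conn allOpen C 0 z := by
    intro z hz
    refine Conn.induction_right (P := fun z => Conn allOpen C 0 z) hz (Conn.refl h0C) ?_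
    intro a b ha hab h
    exact h.tail ⟨ha, ha.tail hab, by obtain ⟨_, _, e, he, _⟩ := hab; exact ⟨e, he, rfl⟩⟩
  have hCc : ∀ u ∈ C, ∀ w ∈ C, Conn allOpen C u w := fun u hu w hw =>
    (hC0 u hu).symm.trans (hC0 w hw)
  set D : Set Vert := rect (-(r : ℤ)) r (-r) r with hD
  set K : Set Vert := comp D C w with hKdef
  have hwK : w ∈ K := Conn.refl ⟨hball ▸ hwr, hw0⟩
  have hxK : x ∈ K := by
    refine Conn.induction_right (P := fun z => z ∈ K) hwx' hwK ?_
    intro a b ha hab h
    refine Conn.tail (v := a) h ⟨Conn.mem_right h, ⟨hball ▸ hab.2.1, ?_⟩, ?_⟩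
    · intro hb
      exact hw0 ((Conn.tail hb hab.symm).trans ha.symm)
    · obtain ⟨_, _, e, he, _⟩ := hab
      exact ⟨e, he, rfl⟩
  have hKC : ∀ z ∈ K, z ∈ D ∧ z ∉ C := fun z hz => Conn.mem_right hz
  have h0K : (0 : Vert) ∉ K := fun h => (hKC _ h).2 h0C
  have hyK : y₀ ∉ K := fun h => (hKC _ h).2 hc₀
  -- first cut edge
  obtain ⟨a, b, h4, h5, h6, -⟩ := (dualB_ball hw).exists_hit (T := K) h0K hwK
  obtain ⟨e, -, he2, he3, he4⟩ := dualB_cut h5 h4.mem_right.2 h6
  -- second cut edge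
  have hys : Conn allOpen (sphere 0 r) y₀ x := (dualB_sphere hy₀).symm.trans (dualB_sphere hx)
  obtain ⟨a', b', h4', h5', h6', -⟩ := hys.exists_hit (T := K) hyK hxK
  obtain ⟨e', -, he2', he3', he4'⟩ := dualB_cut h5' h4'.mem_right.2 h6'
  obtain ⟨φ', hφ', hφD', hφb'⟩ := dualB_face (by omega) he3' he4'
  have hse : ∀ z ∈ ball 0 s, z ∈ D := by
    intro z hz
    simp only [mem_ball, Prod.fst_zero, Prod.snd_zero] at hz
    simp only [hD, rect, Set.mem_ofPred_eq]
    omega
  have hsphere : ∀ z ∈ sphere 0 r, z ∈ D := fun z hz => hball ▸ hz.1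
  have hsep := sep (a := -r) (b := r) (c := -r) (d := r) (K := K) (fun z hz => (hKC z hz).1)
    (comp_connected (D := D) (C := C) (v := w))
    (compl_comp_connected (c₀ := 0) hCsub h0C hCc)
    (e := e) (e' := e') ⟨hse _ he3, hse _ he4⟩ ⟨hsphere _ he3', hsphere _ he4'⟩ he2 he2'
    (φ := src e) (φ' := φ') (Or.inl rfl) hφ'
    (by
      simp only [mem_ball, Prod.fst_zero, Prod.snd_zero] at he3
      simp only [rect, Set.mem_ofPred_eq]
      omega) hφD'
  refine h3 ⟨src e, φ', ?_, hφD', hφb', ?_⟩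
  · simp only [mem_ball, Prod.fst_zero, Prod.snd_zero] at he3
    simp only [rect, Set.mem_ofPred_eq]
    omega
  · -- cut edges are closed
    refine ⟨hsep.1, Relation.ReflTransGen.mono ?_ _ _ hsep.2⟩
    rintro p q ⟨hp, hq, f, hf, ho⟩
    refine ⟨hp, hq, f, hf, ?_⟩
    have hcr : src (crossed f) ∈ D ∧ tgt (crossed f) ∈ D := by
      have key : ∀ p q : Vert, p ∈ rect (-(r : ℤ)) (r - 1) (-r) (r - 1) →
          q ∈ rect (-(r : ℤ)) (r - 1) (-r) (r - 1) → p = src f → q = tgt f →
          src (crossed f) ∈ D ∧ tgt (crossed f) ∈ D := by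
        rintro p q hp hq rfl rfl
        obtain ⟨x, y, b⟩ := f
        cases b
        · simp only [rect, src, tgt, Bool.false_eq_true, if_false, Set.mem_ofPred_eq] at hp hq
          simp only [hD, rect, crossed, src, tgt, Bool.false_eq_true, if_false, if_true,
            Set.mem_ofPred_eq]
          omega
        · simp only [rect, src, tgt, if_true, Set.mem_ofPred_eq] at hp hq
          simp only [hD, rect, crossed, src, tgt, Bool.false_eq_true, if_false, if_true,
            Set.mem_ofPred_eq]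
          omega
      rcases hf with ⟨hf1, hf2⟩ | ⟨hf1, hf2⟩
      · exact key p q hp hq hf1 hf2
      · exact key q p hq hp hf2 hf1
    have hcut : cutConfig K (crossed f) = false := by
      simpa [dual] using ho
    simp only [dual, Bool.not_eq_true']
    by_contra hopen
    have hopen' : ω (crossed f) = true := by simpa using hopen
    have hcD := hcr
    rw [← hball] at hcD
    rcases cut_comp hcr hcut with ⟨g1, g2⟩ | ⟨g1, g2⟩
    · exact (hKC _ g2).2 (Conn.tail g1 ⟨hcD.1, hcD.2, _, joins_src_tgt _, hopen'⟩)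
    · exact (hKC _ g2).2 (Conn.tail g1 ⟨hcD.2, hcD.1, _, (joins_src_tgt _).symm, hopen'⟩)

/-- Four long crossings block the annulus. -/
theorem block {s r : ℕ} (hs : s + 1 < r)
    (h1 : VCross ω (s + 1) (r - 1) (-r) r) (h2 : VCross ω (-r + 1) (-s - 1) (-r) r)
    (h3 : HCross ω (-r) r (s + 1) (r - 1)) (h4 : HCross ω (-r) r (-r + 1) (-s - 1)) :
    dual ω ∉ DArm s r := by
  rintro ⟨φ, φ', hφ, hφ', hb, hc⟩
  simp only [rect, Set.mem_ofPred_eq] at hφ hφ'
  rcases hb with hb | hb | hb | hb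
  · -- left side
    obtain ⟨u, v, hu, hv, huv, -, -⟩ := hc.symm.cross_x (a := -r) (b := -s - 1) (by omega)
      (by omega) (by omega)
    have := not_vcross_and_dual_hcross (by omega) h2
    rw [add_sub_cancel_right] at this
    refine this ⟨u, v, hu, hv, huv.mono_set ?_⟩
    rintro z ⟨hz1, hz2⟩
    simp only [rect, Set.mem_ofPred_eq] at hz1 hz2 ⊢
    omega
  · obtain ⟨u, v, hu, hv, huv, -, -⟩ := hc.cross_x (a := s) (b := r - 1) (by omega)
      (by omega) (by omega)
    have := not_vcross_and_dual_hcross (by omega) h1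
    rw [add_sub_cancel_right] at this
    refine this ⟨u, v, hu, hv, huv.mono_set ?_⟩
    rintro z ⟨hz1, hz2⟩
    simp only [rect, Set.mem_ofPred_eq] at hz1 hz2 ⊢
    omega
  · obtain ⟨u, v, hu, hv, huv, -, -⟩ := hc.symm.cross_y (a := -r) (b := -s - 1) (by omega)
      (by omega) (by omega)
    have := not_hcross_and_dual_vcross (by omega) h4
    rw [add_sub_cancel_right] at this
    refine this ⟨u, v, hu, hv, huv.mono_set ?_⟩
    rintro z ⟨hz1, hz2⟩
    simp only [rect, Set.mem_ofPred_eq] at hz1 hz2 ⊢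
    omega
  · obtain ⟨u, v, hu, hv, huv, -, -⟩ := hc.cross_y (a := s) (b := r - 1) (by omega)
      (by omega) (by omega)
    have := not_hcross_and_dual_vcross (by omega) h3
    rw [add_sub_cancel_right] at this
    refine this ⟨u, v, hu, hv, huv.mono_set ?_⟩
    rintro z ⟨hz1, hz2⟩
    simp only [rect, Set.mem_ofPred_eq] at hz1 hz2 ⊢
    omega

theorem armBox_subset_DArm {s r : ℕ} (hr : 1 ≤ r) : ArmBox 0 s r ⊆ DArm s r := by
  rintro ω ⟨w, hw, u, hu, hwu⟩
  have hu1 := hu.1
  have hu2 := hu.2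
  have hwr := hwu.mem_left
  simp only [mem_ball, Prod.fst_zero, Prod.snd_zero] at hw hu1 hu2 hwr
  by_cases hwD : w ∈ rect (-(r : ℤ)) (r - 1) (-r) (r - 1)
  · by_cases huD : u ∈ rect (-(r : ℤ)) (r - 1) (-r) (r - 1) ∧
        Conn ω (rect (-(r : ℤ)) (r - 1) (-r) (r - 1)) w u
    · refine ⟨w, u, ?_, huD.1, ?_, huD.2⟩
      · simp only [rect, Set.mem_ofPred_eq]; omega
      · have := huD.1
        simp only [rect, Set.mem_ofPred_eq] at this
        omega
    · -- some vertex on the path is a boundary face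
      by_contra hno
      have key : Conn ω (rect (-(r : ℤ)) (r - 1) (-r) (r - 1)) w u := by
        refine hwu.induction_right
          (P := fun z => Conn ω (rect (-(r : ℤ)) (r - 1) (-r) (r - 1)) w z) (Conn.refl hwD) ?_
        intro a b _ hab ha
        refine ha.tail ⟨ha.mem_right, ?_, hab.2.2⟩
        have g1 := ha.mem_right
        have g2 : ¬ (a.1 = -r ∨ a.1 = r - 1 ∨ a.2 = -r ∨ a.2 = r - 1) := by
          intro h
          refine hno ⟨w, a, ?_, g1, h, ha⟩
          simp only [rect, Set.mem_ofPred_eq]; omega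
        have g3 := hab.fst_le
        have g4 := hab.snd_le
        simp only [rect, Set.mem_ofPred_eq] at g1 ⊢
        omega
      exact huD ⟨key.mem_right, key⟩
  · refine ⟨(-r, -r), (-r, -r), ?_, ?_, Or.inl rfl, Conn.refl ?_⟩
    · simp only [rect, Set.mem_ofPred_eq] at hwD ⊢; omega
    · simp only [rect, Set.mem_ofPred_eq]; omega
    · simp only [rect, Set.mem_ofPred_eq]; omega

end Pool.Agent.H89.Perc

end

section

/-!
# Blocking circuits
-/

open MeasureTheory ProbabilityTheory unitInterval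

namespace Pool.Agent.H89.Perc

lemma circuit_localOn_DArm (s r : ℕ) :
    LocalOn (eRect (-r) (r - 1) (-r) (r - 1)) (DArm s r) := by
  rintro ω ω' h ⟨φ, φ', h1, h2, h3, h4⟩
  exact ⟨φ, φ', h1, h2, h3, Conn.congr (fun e he _ => h e (mem_eRect.2 he)) h4⟩

lemma circuit_incr_DArm (s r : ℕ) : Incr (DArm s r) := by
  rintro ω ω' h ⟨φ, φ', h1, h2, h3, h4⟩
  exact ⟨φ, φ', h1, h2, h3, h4.mono le_rfl h⟩

theorem localOn_dual_DArm (s r : ℕ) :
    LocalOn ((eRect (-r) (r - 1) (-r) (r - 1)).image crossed) {ω | dual ω ∉ DArm s r} :=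
  (circuit_localOn_DArm s r).dual'.compl

theorem incr_dual_DArm (s r : ℕ) : Incr {ω | dual ω ∉ DArm s r} :=
  (circuit_incr_DArm s r).dual_compl

/-- Blocking circuits exist with positive probability for `p ≥ 1 / 2`. -/
theorem circuit : ∃ c > (0 : ℝ), ∀ s r : ℕ, 1 ≤ s → 4 * (s + 1) ≤ r → ∀ p : I, half ≤ p →
    c ≤ Pr p {ω | dual ω ∉ DArm s r} := by
  classical
  obtain ⟨c, hc, hrsw⟩ := rsw
  refine ⟨c ^ 4, by positivity, fun s r hs hr p hp => ?_⟩
  obtain ⟨m, hm⟩ : ∃ m : ℕ, r = m + s + 2 := ⟨r - s - 2, by omega⟩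
  have hm1 : 1 ≤ m := by omega
  have h2r : 2 * r ≤ 4 * m := by omega
  -- the four crossings
  have key : ∀ t : ℤ, c ≤ Pr p {ω | HCross ω (-r) r t (t + m)} := by
    intro t
    have h1 : c ≤ Pr half {ω | HCross ω 0 (2 * r) 0 m} :=
      (hrsw m hm1).trans (Pr_mono fun ω h => HCross.mono h le_rfl (by omega) (by omega) le_rfl
        le_rfl)
    have h2 := Pr_mono_param (localOn_hcross 0 (2 * (r : ℤ)) 0 m) (incr_hcross 0 (2 * (r : ℤ)) 0 m) hp
    have h3 := Pr_hcross_translate (p := p) (a := 0) (b := 2 * (r : ℤ)) (c := 0) (d := m) (-r) t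
    have e1 : (0 : ℤ) + -r = -r := by ring
    have e2 : 2 * (r : ℤ) + -r = r := by ring
    have e3 : (0 : ℤ) + t = t := by ring
    have e4 : (m : ℤ) + t = t + m := by ring
    rw [e1, e2, e3, e4] at h3
    rw [h3]
    exact h1.trans h2
  have keyV : ∀ t : ℤ, c ≤ Pr p {ω | VCross ω t (t + m) (-r) r} := by
    intro t
    rw [Pr_vcross_eq_hcross]
    exact key t
  have k1 := keyV (s + 1)
  have k2 := keyV (-r + 1)
  have k3 := key (s + 1)
  have k4 := key (-r + 1)
  have e1 : (s : ℤ) + 1 + m = r - 1 := by omega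
  have e2 : -(r : ℤ) + 1 + m = -s - 1 := by omega
  rw [e1] at k1 k3
  rw [e2] at k2 k4
  have h12 := fkg (p := p) (localOn_vcross ((s : ℤ) + 1) (r - 1) (-r) r)
    (localOn_vcross (-(r : ℤ) + 1) (-s - 1) (-r) r) (incr_vcross _ _ _ _) (incr_vcross _ _ _ _)
  have h34 := fkg (p := p) (localOn_hcross (-(r : ℤ)) r (s + 1) (r - 1))
    (localOn_hcross (-(r : ℤ)) r (-r + 1) (-s - 1)) (incr_hcross _ _ _ _) (incr_hcross _ _ _ _)
  have h1234 := fkg (p := p) ((localOn_vcross ((s : ℤ) + 1) (r - 1) (-r) r).inter'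
      (localOn_vcross (-(r : ℤ) + 1) (-s - 1) (-r) r))
    ((localOn_hcross (-(r : ℤ)) r (s + 1) (r - 1)).inter'
      (localOn_hcross (-(r : ℤ)) r (-r + 1) (-s - 1)))
    ((incr_vcross _ _ _ _).inter (incr_vcross _ _ _ _))
    ((incr_hcross _ _ _ _).inter (incr_hcross _ _ _ _))
  have h12' := (mul_le_mul k1 k2 hc.le Pr_nonneg).trans h12
  have h34' := (mul_le_mul k3 k4 hc.le Pr_nonneg).trans h34
  have h' := (mul_le_mul h12' h34' (by positivity) Pr_nonneg).trans h1234
  have e : c ^ 4 = c * c * (c * c) := by ring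
  rw [e]
  refine h'.trans (Pr_mono ?_)
  rintro ω ⟨⟨w1, w2⟩, ⟨w3, w4⟩⟩
  exact block (by omega) w1 w2 w3 w4

end Pool.Agent.H89.Perc

end

section

/-!
# Decay of the one-arm probability at the self-dual point
-/

open MeasureTheory ProbabilityTheory unitInterval

namespace Pool.Agent.H89.Perc

private lemma σ_half : σ half = half := by
  apply Subtype.ext
  simp only [half, unitInterval.coe_symm_eq]
  norm_num

/-- `DArm` is a local event. -/
theorem decay_localOn_DArm (s r : ℕ) :
    LocalOn (eRect (-r) (r - 1) (-r) (r - 1)) (DArm s r) := by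
  rintro ω ω' h ⟨φ, φ', h1, h2, h3, hc⟩
  exact ⟨φ, φ', h1, h2, h3, Conn.congr (fun e he _ => h e (mem_eRect.2 he)) hc⟩

/-- Annulus crossing event using only vertices of `ball 0 r` outside `ball 0 s`. -/
def Ann (s r : ℕ) : Set Config :=
  {ω | ∃ w ∈ ball 0 (s + 1), ∃ u ∈ sphere 0 r, Conn ω (ball 0 r \ ball 0 s) w u}

/-- Edges with first endpoint in `ball 0 r`. -/
noncomputable def eBall (r : ℕ) : Finset Edge := eRect (-r) r (-r) r

lemma mem_eBall {r : ℕ} {e : Edge} : e ∈ eBall r ↔ src e ∈ ball 0 r := by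
  rw [eBall, mem_eRect]
  simp only [ball, rect, Set.mem_ofPred_eq, Prod.fst_zero, Prod.snd_zero, zero_sub, zero_add]

lemma ball_subset_ball {r r' : ℕ} (h : r ≤ r') : ball 0 r ⊆ ball 0 r' := by
  intro v hv
  simp only [mem_ball, Prod.fst_zero, Prod.snd_zero] at hv ⊢
  omega

lemma eBall_subset {r r' : ℕ} (h : r ≤ r') : eBall r ⊆ eBall r' := fun _ he =>
  mem_eBall.2 (ball_subset_ball h (mem_eBall.1 he))

lemma localOn_ann [DecidableEq Edge] (s r : ℕ) : LocalOn (eBall r \ eBall s) (Ann s r) := by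
  rintro ω ω' h ⟨w, hw, u, hu, hc⟩
  refine ⟨w, hw, u, hu, Conn.congr (fun e he _ => h e ?_) hc⟩
  rw [Finset.mem_sdiff, mem_eBall, mem_eBall]
  exact he

lemma ann_subset_armBox (s r : ℕ) : Ann s r ⊆ ArmBox 0 (s + 1) r := by
  rintro ω ⟨w, hw, u, hu, hc⟩
  exact ⟨w, hw, u, hu, hc.mono_set Set.sdiff_subset⟩

lemma arm_subset_ann {s r R : ℕ} (hs : s < r) (hr : r ≤ R) : Arm 0 R ⊆ Ann s r := by
  rintro ω ⟨u, hu, hc⟩
  -- path to the sphere of radius `r`
  have h1 : ∃ x ∈ sphere 0 r, Conn ω (ball 0 R ∩ ball 0 r) 0 x := by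
    refine hc.to_sphere self_mem_ball ?_
    obtain ⟨hb, h⟩ := hu
    by_cases h2 : u ∈ ball 0 r
    · refine Or.inr ⟨h2, ?_⟩
      simp only [mem_ball, Prod.fst_zero, Prod.snd_zero] at hb h h2 ⊢
      omega
    · exact Or.inl h2
  obtain ⟨x, hx, hc'⟩ := h1
  have hxs : x ∉ ball 0 s := by
    intro hxs
    obtain ⟨_, h⟩ := hx
    simp only [mem_ball, Prod.fst_zero, Prod.snd_zero] at hxs h
    omega
  obtain ⟨w, w', hw, _, hst, hl⟩ := hc'.exists_last (T := ball 0 s) self_mem_ball hxs
  refine ⟨w', ?_, x, hx, hl.mono_set ?_⟩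
  · have h2 := hst.fst_le
    have h3 := hst.snd_le
    simp only [mem_ball, Prod.fst_zero, Prod.snd_zero] at hw ⊢
    push_cast
    omega
  · exact fun y hy => ⟨hy.1.2, hy.2⟩

/-- Intersections of the annulus events at scales `16 ^ j`. -/
def AnnInter : ℕ → Set Config
  | 0 => Set.univ
  | n + 1 => AnnInter n ∩ Ann (16 ^ n) (16 ^ (n + 1))

lemma localOn_annInter (n : ℕ) : LocalOn (eBall (16 ^ n)) (AnnInter n) := by
  classical
  induction n with
  | zero => exact fun _ _ _ _ => Set.mem_univ _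
  | succ n ih =>
    have h1 : (16 : ℕ) ^ n ≤ 16 ^ (n + 1) := Nat.pow_le_pow_right (by norm_num) (Nat.le_succ n)
    exact (ih.mono (eBall_subset h1)).inter ((localOn_ann _ _).mono Finset.sdiff_subset)

lemma arm_subset_annInter {R : ℕ} (n : ℕ) (h : 16 ^ n ≤ R) : Arm 0 R ⊆ AnnInter n := by
  induction n with
  | zero => exact Set.subset_univ _
  | succ n ih =>
    have h1 : (16 : ℕ) ^ n < 16 ^ (n + 1) := Nat.pow_lt_pow_right (by norm_num) (Nat.lt_succ_self n)
    exact Set.subset_inter (ih (h1.le.trans h)) (arm_subset_ann h1 h)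

/-- Annulus crossings have probability bounded away from one. -/
theorem armBox_le : ∃ c > (0 : ℝ), ∀ s r : ℕ, 1 ≤ s → 4 * (s + 1) ≤ r →
    Pr half (ArmBox 0 s r) ≤ 1 - c := by
  obtain ⟨c, hc, h⟩ := circuit
  refine ⟨c, hc, fun s r hs hr => ?_⟩
  have h1 := h s r hs hr half le_rfl
  have h2 := Pr_compl (p := half) (localOn_dual_DArm s r)
  have h3 : {ω : Config | dual ω ∉ DArm s r}ᶜ = {ω | dual ω ∈ DArm s r} := by
    ext ω
    simp only [Set.mem_compl_iff, Set.mem_ofPred_eq, not_not]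
  rw [h3, Pr_dual (decay_localOn_DArm s r), σ_half] at h2
  have h4 : Pr half (ArmBox 0 s r) ≤ Pr half (DArm s r) :=
    Pr_mono (armBox_subset_DArm (by omega))
  linarith

/-- Polynomial decay of the one-arm probability at `1 / 2`. -/
theorem arm_decay : ∃ C c : ℝ, 0 < C ∧ 0 < c ∧ ∀ r : ℕ, 1 ≤ r →
    arm half r ≤ C * (r : ℝ) ^ (-c) := by
  classical
  obtain ⟨c, hc, h⟩ := armBox_le
  have hc1 : c ≤ 1 := by
    have h1 := h 1 8 le_rfl (by norm_num)
    have h2 : 0 ≤ Pr half (ArmBox 0 1 8) := Pr_nonneg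
    linarith
  set q : ℝ := 1 - c / 2 with hq
  have hq0 : 0 < q := by linarith
  have hq1 : q < 1 := by linarith
  -- the probability of the intersection of the annulus events
  have key : ∀ n : ℕ, Pr half (AnnInter n) ≤ q ^ n := by
    intro n
    induction n with
    | zero => rw [pow_zero]; exact Pr_le_one
    | succ n ih =>
      have h1 : Pr half (AnnInter (n + 1)) =
          Pr half (AnnInter n) * Pr half (Ann (16 ^ n) (16 ^ (n + 1))) :=
        Pr_inter_of_disjoint (localOn_annInter n) (localOn_ann _ _) Finset.disjoint_sdiff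
      have h2 : Pr half (Ann (16 ^ n) (16 ^ (n + 1))) ≤ q := by
        have h3 : 4 * (16 ^ n + 1 + 1) ≤ 16 ^ (n + 1) := by
          have : 1 ≤ 16 ^ n := Nat.one_le_pow _ _ (by norm_num)
          rw [pow_succ]
          omega
        have h4 := h (16 ^ n + 1) (16 ^ (n + 1)) (by omega) h3
        have h5 : Pr half (Ann (16 ^ n) (16 ^ (n + 1))) ≤
            Pr half (ArmBox 0 (16 ^ n + 1) (16 ^ (n + 1))) := Pr_mono (ann_subset_armBox _ _)
        linarith
      rw [h1, pow_succ]
      exact mul_le_mul ih h2 Pr_nonneg (pow_nonneg hq0.le n)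
  have hlog : Real.log q < 0 := Real.log_neg hq0 hq1
  have hlog16 : 0 < Real.log 16 := Real.log_pos (by norm_num)
  refine ⟨1 / q, - Real.log q / Real.log 16, by positivity,
    div_pos (neg_pos.2 hlog) hlog16, fun r hr => ?_⟩
  set n := Nat.log 16 r with hn
  have hn1 : 16 ^ n ≤ r := Nat.pow_log_le_self 16 (by omega)
  have hn2 : r < 16 ^ (n + 1) := Nat.lt_pow_succ_log_self (by norm_num) r
  have h1 : arm half r ≤ q ^ n := (Pr_mono (arm_subset_annInter n hn1)).trans (key n)
  refine h1.trans ?_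
  have hr0 : (0 : ℝ) < r := by exact_mod_cast hr
  have h2 : q ^ (n + 1) ≤ (r : ℝ) ^ (-(-Real.log q / Real.log 16)) := by
    have h3 : ((16 : ℝ) ^ (n + 1)) ^ (-(-Real.log q / Real.log 16)) = q ^ (n + 1) := by
      rw [← Real.rpow_natCast (16 : ℝ) (n + 1), ← Real.rpow_mul (by norm_num), mul_comm,
        Real.rpow_mul (by norm_num), Real.rpow_natCast]
      congr 1
      rw [Real.rpow_def_of_pos (by norm_num)]
      have : Real.log 16 * -(-Real.log q / Real.log 16) = Real.log q := by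
        field_simp
      rw [this, Real.exp_log hq0]
    rw [← h3]
    refine Real.rpow_le_rpow_of_nonpos hr0 ?_ ?_
    · exact_mod_cast hn2.le
    · have := div_pos (neg_pos.2 hlog) hlog16
      linarith
  calc q ^ n = 1 / q * q ^ (n + 1) := by
        rw [pow_succ]; field_simp
    _ ≤ _ := mul_le_mul_of_nonneg_left h2 (by positivity)

end Pool.Agent.H89.Perc

end

section

/-!
# Separated four-arm events: definitions

`Src` is a pair of points near the origin together with a set of closed edges (for instance the two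
endpoints of an edge with the edge itself closed).  `Sep s d d' k` is the four-arm event to distance
`32 k` in which the cluster of `x` leaves the ball only through the mouth on side `d`, the cluster
of `y` only through the mouth on side `d'`, even if all edges in the two target rectangles
`T d k`, `T d' k` are opened, and both clusters contain a crossing of their target rectangle.
-/

open MeasureTheory ProbabilityTheory unitInterval

namespace Pool.Agent.H59.EX

open Pool.Agent.H89.Perc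

/-- The event `A` depends only on the edges in the (arbitrary) set `s`. -/
def LocS (s : Set Edge) (A : Set Config) : Prop :=
  ∀ ω ω' : Config, (∀ e ∈ s, ω e = ω' e) → ω ∈ A → ω' ∈ A

/-- Edges with both endpoints in `S`. -/
def inE (S : Set Vert) : Set Edge := {e | src e ∈ S ∧ tgt e ∈ S}

/-- Edges with both endpoints in `D` and at least one endpoint in `S`. -/
def touch (D S : Set Vert) : Set Edge := {e | e ∈ inE D ∧ (src e ∈ S ∨ tgt e ∈ S)}

/-- The union of the clusters of the points of `X` in the graph `D`. -/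
def clus (ω : Config) (D X : Set Vert) : Set Vert := {v | ∃ x ∈ X, Conn ω D x v}

/-- Open all edges inside `Z`. -/
noncomputable def fillV (Z : Set Vert) (ω : Config) : Config := fun e => by
  classical exact ω e || decide (e ∈ inE Z)

/-- Close all edges in `t`. -/
noncomputable def closeS (t : Set Edge) (ω : Config) : Config := fun e => by
  classical exact ω e && decide (e ∉ t)

/-- A source: two points near the origin and a finite set of closed edges near the origin. -/
structure Src where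
  /-- first point -/
  x : Vert
  /-- second point -/
  y : Vert
  /-- closed edges -/
  E0 : Finset Edge
  hx : x ∈ ball 0 2
  hy : y ∈ ball 0 2
  hE : ∀ e ∈ E0, src e ∈ ball 0 2 ∧ tgt e ∈ ball 0 2

/-- The configuration with the edges of the source closed. -/
noncomputable def Src.cut (s : Src) (ω : Config) : Config := closeS (s.E0 : Set Edge) ω

/-- Four-arm event of a source: both points are joined to the sphere of radius `r` and not to each
other, in `ball 0 r`. -/
def Four (s : Src) (r : ℕ) : Set Config :=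
  {ω | (∃ u ∈ sphere 0 r, Conn (s.cut ω) (ball 0 r) s.x u) ∧
    (∃ u ∈ sphere 0 r, Conn (s.cut ω) (ball 0 r) s.y u) ∧
    ¬ Conn (s.cut ω) (ball 0 r) s.x s.y}

/-- The four sides of a square. -/
inductive Side
  | E | N | W | S
  deriving DecidableEq

/-- Target rectangle at side `d` of `ball 0 (32 k)`. -/
def T (d : Side) (k : ℕ) : Set Vert :=
  match d with
  | .E => rect (28 * k) (36 * k) (-(3 * k)) (3 * k)
  | .N => rect (-(3 * k)) (3 * k) (28 * k) (36 * k)
  | .W => rect (-(36 * k)) (-(28 * k)) (-(3 * k)) (3 * k)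
  | .S => rect (-(3 * k)) (3 * k) (-(36 * k)) (-(28 * k))

/-- Mouth at side `d` of `ball 0 (32 k)`. -/
def Mouth (d : Side) (k : ℕ) : Set Vert :=
  match d with
  | .E => rect (32 * k) (32 * k) (-(4 * k)) (4 * k)
  | .N => rect (-(4 * k)) (4 * k) (32 * k) (32 * k)
  | .W => rect (-(32 * k)) (-(32 * k)) (-(4 * k)) (4 * k)
  | .S => rect (-(4 * k)) (4 * k) (-(32 * k)) (-(32 * k))

/-- `x` is joined in `D` to an open crossing of the target rectangle (parallel to the side). -/
def Fence (d : Side) (k : ℕ) (ω : Config) (D : Set Vert) (x : Vert) : Prop :=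
  match d with
  | .E => ∃ u v : Vert, u.2 = -(3 * k) ∧ v.2 = 3 * k ∧ Conn ω (T .E k) u v ∧ Conn ω D x u
  | .N => ∃ u v : Vert, u.1 = -(3 * k) ∧ v.1 = 3 * k ∧ Conn ω (T .N k) u v ∧ Conn ω D x u
  | .W => ∃ u v : Vert, u.2 = -(3 * k) ∧ v.2 = 3 * k ∧ Conn ω (T .W k) u v ∧ Conn ω D x u
  | .S => ∃ u v : Vert, u.1 = -(3 * k) ∧ v.1 = 3 * k ∧ Conn ω (T .S k) u v ∧ Conn ω D x u

/-- The domain of the separated event. -/
def dom (d d' : Side) (k : ℕ) : Set Vert := ball 0 (32 * k) ∪ (T d k ∪ T d' k)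

/-- Separated four-arm event. -/
def Sep (s : Src) (d d' : Side) (k : ℕ) : Set Config :=
  {ω | Fence d k (s.cut ω) (dom d d' k) s.x ∧ Fence d' k (s.cut ω) (dom d d' k) s.y ∧
    ¬ Conn (fillV (T d k ∪ T d' k) (s.cut ω)) (dom d d' k) s.x s.y ∧
    (∀ v ∈ sphere 0 (32 * k),
      Conn (fillV (T d k ∪ T d' k) (s.cut ω)) (dom d d' k) s.x v → v ∈ Mouth d k) ∧
    (∀ v ∈ sphere 0 (32 * k),
      Conn (fillV (T d k ∪ T d' k) (s.cut ω)) (dom d d' k) s.y v → v ∈ Mouth d' k)}

end Pool.Agent.H59.EX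

end

section

/-!
# Outward separation: definitions for the stage scheme (abstract corridors)

`CorrData w ρ v d Z Nev`: a corridor `Z` starting at the boundary vertex `v` of `ball 0 (8 w)` and
containing the target rectangle `T d (4 w)`; if the increasing event `Nev` of the edges inside `Z`
happens, every path coming out of `ball v ρ` is joined inside `Z` to a fence of the target.
-/

open MeasureTheory ProbabilityTheory unitInterval

namespace Pool.Agent.H59.EX

open Pool.Agent.H89.Perc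

/-- A corridor with its crossing event. -/
structure CorrData (w ρ : ℕ) (v : Vert) (d : Side) (Z : Set Vert) (Nev : Set Config) : Prop where
  ball_sub : ball v (3 * ρ) ⊆ Z
  T_sub : T d (4 * w) ⊆ Z
  sub : Z ⊆ ball 0 (128 * w) ∪ T d (4 * w)
  inter : ∀ a ∈ Z, ∀ b ∈ ball 0 (8 * w), b ∈ ball a ρ → b ∈ ball v (5 * ρ)
  conn : ∀ a ∈ Z, ∀ b ∈ Z, Conn allOpen Z a b
  incr : Incr Nev
  loc : LocS (inE Z) Nev
  hook : ∀ ω ∈ Nev, ∀ (η : Config) (D : Set Vert) (u u' : Vert), Conn η D u u' → u ∈ ball v ρ →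
    u' ∉ ball v (3 * ρ) → ∃ z, Conn η D u z ∧ Fence d (4 * w) ω Z z
  mouth : ∀ z ∈ sphere 0 (128 * w), ∀ a ∈ Z, z ∈ ball a w → z ∈ Mouth d (4 * w)

/-- Separation of the corridor `Zx` from the corridor `Zy` which starts at `v'`. -/
structure CorrSep (w ρ' : ℕ) (v' : Vert) (Zx Zy : Set Vert) : Prop where
  far : ∀ a ∈ Zx, ∀ b ∈ Zy, b ∉ ball a (8 * ρ')
  fringe : ∀ z ∈ Zy, ∀ a ∈ sphere 0 (8 * w), z ∈ ball a (4 * ρ') → a ∈ ball v' (7 * ρ')

/-- Cluster of the second point in `ball 0 (8 w)`. -/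
def SY (s : Src) (w : ℕ) (ω : Config) : Set Vert := clus (s.cut ω) (ball 0 (8 * w)) {s.y}

/-- Cluster of the first point in `ball 0 (8 w) ∪ Z`, with `Z` filled. -/
def S1 (s : Src) (w : ℕ) (Z : Set Vert) (ω : Config) : Set Vert :=
  clus (fillV Z (s.cut ω)) (ball 0 (8 * w) ∪ Z) {s.x}

/-- Cluster of the first point in `ball 0 (160 w)`, with `Z` filled. -/
def SH (s : Src) (w : ℕ) (Z : Set Vert) (ω : Config) : Set Vert :=
  clus (fillV Z (s.cut ω)) (ball 0 (160 * w)) {s.x}

/-- Stage 0: `x` lands near `v`, the cluster of `y` is far from `v`. -/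
def Ev0 (s : Src) (w ρ : ℕ) (v : Vert) : Set Config :=
  {ω | (∃ u ∈ sphere 0 (8 * w), u ∈ ball v ρ ∧ Conn (s.cut ω) (ball 0 (8 * w)) s.x u) ∧
    (∃ u ∈ sphere 0 (8 * w), Conn (s.cut ω) (ball 0 (8 * w)) s.y u) ∧
    ¬ Conn (s.cut ω) (ball 0 (8 * w)) s.x s.y ∧ Disjoint (SY s w ω) (ball v (11 * ρ))}

/-- The clusters of `x` (after gluing) and of `y` are nowhere both close to the same vertex of the
sphere. -/
def Good12 (s : Src) (w ρ' : ℕ) (Z : Set Vert) : Set Config :=
  {ω | ∀ z ∈ sphere 0 (8 * w), (S1 s w Z ω ∩ ball z (12 * ρ')).Nonempty →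
    ¬ (SY s w ω ∩ ball z (12 * ρ')).Nonempty}

/-- The cluster of `x` is confined, contains a fence, and misses `y`. -/
def Conf (s : Src) (w ρ' : ℕ) (d : Side) (Z : Set Vert) : Set Config :=
  {ω | s.y ∉ SH s w Z ω ∧
    Fence d (4 * w) (s.cut ω) (SH s w Z ω ∩ (ball 0 (8 * w) ∪ Z)) s.x ∧
    ∀ z ∈ SH s w Z ω, z ∈ ball 0 (8 * w) ∨ (∃ a ∈ Z, z ∈ ball a (4 * ρ')) ∨
      ∃ a ∈ SH s w Z ω, a ∈ sphere 0 (8 * w) ∧ z ∈ ball a (4 * ρ')}

/-- Stage 2 result. -/
def Ev2 (s : Src) (w ρ ρ' : ℕ) (v : Vert) (d : Side) (Z : Set Vert) : Set Config :=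
  {ω | ω ∈ Conf s w ρ' d Z ∧ ∃ u ∈ sphere 0 (8 * w), u ∉ ball v (11 * ρ) ∧
    Conn (s.cut ω) (ball 0 (8 * w) \ SH s w Z ω) s.y u ∧
    Disjoint (SH s w Z ω) (ball u (8 * ρ'))}

/-- Stage 3: `y` lands near `v'`. -/
def Ev3 (s : Src) (w ρ' : ℕ) (v' : Vert) (d : Side) (Z : Set Vert) : Set Config :=
  {ω | ω ∈ Conf s w ρ' d Z ∧ (∃ u ∈ sphere 0 (8 * w), u ∈ ball v' ρ' ∧
    Conn (s.cut ω) (ball 0 (8 * w) \ SH s w Z ω) s.y u) ∧
    Disjoint (SH s w Z ω) (ball v' (7 * ρ'))}

end Pool.Agent.H59.EX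

end

section

/-!
# Exploration of full clusters and conditional FKG

`cl ω D X` is the open cluster of the vertex set `X` inside the vertex set `D`.  The event
`cl ω D X = S` only depends on the edges touching `S`; all other edges are fresh.
-/

open MeasureTheory ProbabilityTheory unitInterval

namespace Pool.Agent.H29.Sep

open Pool.Agent.H89.Perc

variable {p : I}

/-- Open cluster of the vertex set `X` inside `D`. -/
def cl (ω : Config) (D X : Set Vert) : Set Vert := {v | ∃ u ∈ X, Conn ω D u v}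

/-- The edges of `s` touching the vertex set `S`. -/
noncomputable def touch (s : Finset Edge) (S : Set Vert) : Finset Edge := by
  classical exact s.filter (fun e => src e ∈ S ∨ tgt e ∈ S)

/-- The edges of `s` not touching the vertex set `S`. -/
noncomputable def off (s : Finset Edge) (S : Set Vert) : Finset Edge := by
  classical exact s.filter (fun e => src e ∉ S ∧ tgt e ∉ S)

theorem mem_touch {s : Finset Edge} {S : Set Vert} {e : Edge} :
    e ∈ touch s S ↔ e ∈ s ∧ (src e ∈ S ∨ tgt e ∈ S) := by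
  classical
  unfold touch
  exact Finset.mem_filter

theorem mem_off {s : Finset Edge} {S : Set Vert} {e : Edge} :
    e ∈ off s S ↔ e ∈ s ∧ src e ∉ S ∧ tgt e ∉ S := by
  classical
  unfold off
  exact Finset.mem_filter

theorem touch_disj (s t : Finset Edge) (S : Set Vert) : Disjoint (touch s S) (off t S) := by
  rw [Finset.disjoint_left]
  intro e h1 h2
  rw [mem_touch] at h1
  rw [mem_off] at h2
  rcases h1.2 with h | h
  · exact h2.2.1 h
  · exact h2.2.2 h

theorem cl_sub {ω : Config} {D X : Set Vert} : cl ω D X ⊆ D := by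
  rintro v ⟨u, _, h⟩
  exact h.mem_right

/-- No open edge of `D` leaves a cluster. -/
theorem cl_step {ω : Config} {D X : Set Vert} {a b : Vert} (ha : a ∈ cl ω D X)
    (h : Step ω D a b) : b ∈ cl ω D X := by
  obtain ⟨u, hu, hua⟩ := ha
  exact ⟨u, hu, hua.tail h⟩

/-- A vertex joined to a vertex of the cluster is in the cluster. -/
theorem cl_conn {ω : Config} {D X : Set Vert} {a b : Vert} (ha : a ∈ cl ω D X)
    (h : Conn ω D a b) : b ∈ cl ω D X := by
  obtain ⟨u, hu, hua⟩ := ha
  exact ⟨u, hu, hua.trans h⟩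

/-- Connections of vertices off the cluster stay off the cluster. -/
theorem conn_off {ω : Config} {D X : Set Vert} {a b : Vert} (ha : a ∉ cl ω D X)
    (h : Conn ω D a b) : Conn ω (D \ cl ω D X) a b := by
  refine h.induction_right (P := fun b => Conn ω (D \ cl ω D X) a b)
    (Conn.refl ⟨h.mem_left, ha⟩) ?_
  intro a' b' h1 h2 h3
  have h4 : a' ∉ cl ω D X := fun h5 => ha (cl_conn h5 h1.symm)
  have h5 : b' ∉ cl ω D X := fun h6 => ha (cl_conn h6 (h1.tail h2).symm)
  exact h3.tail ⟨⟨h2.1, h4⟩, ⟨h2.2.1, h5⟩, h2.2.2⟩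

/-- a step starting in `S` only uses an edge touching `S` -/
private theorem explA_step {ω ω' : Config} {s : Finset Edge} {D S : Set Vert}
    (hs : ∀ e, src e ∈ D → tgt e ∈ D → e ∈ s) (h : ∀ e ∈ touch s S, ω e = ω' e) {a b : Vert}
    (ha : a ∈ S) (st : Step ω D a b) : Step ω' D a b := by
  obtain ⟨h1, h2, e, he, ho⟩ := st
  refine ⟨h1, h2, e, he, ?_⟩
  rcases he with ⟨h3, h4⟩ | ⟨h3, h4⟩
  · rw [← h e (mem_touch.2 ⟨hs e (h3 ▸ h1) (h4 ▸ h2), Or.inl (h3 ▸ ha)⟩)]
    exact ho
  · rw [← h e (mem_touch.2 ⟨hs e (h4 ▸ h2) (h3 ▸ h1), Or.inr (h3 ▸ ha)⟩)]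
    exact ho

/-- The value of a cluster is decided by the edges touching it. -/
theorem localOn_cl {s : Finset Edge} {D X S : Set Vert}
    (hs : ∀ e, src e ∈ D → tgt e ∈ D → e ∈ s) :
    LocalOn (touch s S) {ω | cl ω D X = S} := by
  intro ω ω' hω hcl
  change cl ω D X = S at hcl
  change cl ω' D X = S
  have hω' : ∀ e ∈ touch s S, ω' e = ω e := fun e he => (hω e he).symm
  apply Set.Subset.antisymm
  · rintro v ⟨u, hu, huv⟩
    refine huv.induction_right (P := fun v => v ∈ S) ?_ ?_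
    · rw [← hcl]
      exact ⟨u, hu, Conn.refl huv.mem_left⟩
    · intro a b _ h2 h3
      have h4 := explA_step hs hω' h3 h2
      rw [← hcl] at h3 ⊢
      exact cl_step h3 h4
  · intro v hv
    rw [← hcl] at hv
    obtain ⟨u, hu, huv⟩ := hv
    refine ⟨u, hu, ?_⟩
    refine huv.induction_right (P := fun v => Conn ω' D u v) (Conn.refl huv.mem_left) ?_
    intro a b h1 h2 h3
    have ha : a ∈ S := by
      rw [← hcl]
      exact ⟨u, hu, h1⟩
    exact h3.tail (explA_step hs hω ha h2)

/-- Connections off `S` are decided by the edges not touching `S`. -/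
theorem localOn_conn_off {s : Finset Edge} {D S : Set Vert} {u v : Vert}
    (hs : ∀ e, src e ∈ D → tgt e ∈ D → e ∈ s) :
    LocalOn (off s S) {ω | Conn ω (D \ S) u v} := by
  intro ω ω' hω h
  exact Conn.congr (fun e h1 h2 => hω e (mem_off.2 ⟨hs e h1.1 h2.1, h1.2, h2.2⟩)) h

/-- Closing the edges of a set. -/
noncomputable def shut (T : Finset Edge) (ω : Config) : Config := by
  classical exact fun e => if e ∈ T then false else ω e

private theorem shut_mem {T : Finset Edge} {ω : Config} {e : Edge} (h : e ∈ T) :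
    shut T ω e = false := by
  unfold shut
  exact if_pos h

private theorem shut_not_mem {T : Finset Edge} {ω : Config} {e : Edge} (h : e ∉ T) :
    shut T ω e = ω e := by
  unfold shut
  exact if_neg h

theorem localOn_shut [DecidableEq Edge] {s T : Finset Edge} {A : Set Config} (h : LocalOn s A) :
    LocalOn (s \ T) {ω | shut T ω ∈ A} := by
  intro ω ω' hω hA
  refine h _ _ (fun e he => ?_) hA
  by_cases hT : e ∈ T
  · rw [shut_mem hT, shut_mem hT]
  · rw [shut_not_mem hT, shut_not_mem hT]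
    exact hω e (Finset.mem_sdiff.2 ⟨he, hT⟩)

theorem incr_shut {T : Finset Edge} {A : Set Config} (h : Incr A) : Incr {ω | shut T ω ∈ A} := by
  intro ω ω' hω hA
  refine h _ _ (fun e he => ?_) hA
  by_cases hT : e ∈ T
  · rw [shut_mem hT] at he
    exact absurd he Bool.false_ne_true
  · rw [shut_not_mem hT] at he ⊢
    exact hω e he

/-- Closing edges makes a decreasing event more likely. -/
theorem Pr_le_shut {s T : Finset Edge} {A : Set Config} (h : LocalOn s A) (iA : Incr Aᶜ) :
    Pr p A ≤ Pr p {ω | shut T ω ∈ A} := by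
  refine Pr_mono fun ω hω => ?_
  by_contra hcon
  refine iA (shut T ω) ω (fun e he => ?_) hcon hω
  by_cases hT : e ∈ T
  · rw [shut_mem hT] at he
    exact absurd he Bool.false_ne_true
  · rwa [shut_not_mem hT] at he

end Pool.Agent.H29.Sep

end

section

/-!
# Conditional FKG and conditional independence after an exploration
-/

open MeasureTheory ProbabilityTheory unitInterval

namespace Pool.Agent.H29.Sep

open Pool.Agent.H89.Perc

variable {p : I}

private theorem ExplB_union {ι : Type*} (F : Finset ι) (A : ι → Set Config)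
    (t : ι → Finset Edge) (hA : ∀ i ∈ F, LocalOn (t i) (A i))
    (hd : ∀ i ∈ F, ∀ j ∈ F, i ≠ j → Disjoint (A i) (A j)) :
    Pr p (⋃ i ∈ F, A i) = ∑ i ∈ F, Pr p (A i) := by
  unfold Pr
  exact measureReal_biUnion_finset (fun i hi j hj hij => hd i hi j hj hij)
    (fun i hi => (hA i hi).measurableSet)

/-- Conditional FKG: the values `E i` of an exploration are disjoint events, given `E i` the events
`A i` and `O i` are increasing events of fresh edges. -/
theorem cond_fkg {ι : Type*} (F : Finset ι) (E A O : ι → Set Config) (tE tA tO : ι → Finset Edge)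
    {c : ℝ} (hc : 0 ≤ c)
    (hdisj : ∀ i ∈ F, ∀ j ∈ F, i ≠ j → Disjoint (E i) (E j))
    (hE : ∀ i ∈ F, LocalOn (tE i) (E i)) (hA : ∀ i ∈ F, LocalOn (tA i) (A i))
    (hO : ∀ i ∈ F, LocalOn (tO i) (O i)) (iA : ∀ i ∈ F, Incr (A i)) (iO : ∀ i ∈ F, Incr (O i))
    (h1 : ∀ i ∈ F, Disjoint (tE i) (tA i)) (h2 : ∀ i ∈ F, Disjoint (tE i) (tO i))
    (hP : ∀ i ∈ F, c ≤ Pr p (O i)) :
    c * Pr p (⋃ i ∈ F, E i ∩ A i) ≤ Pr p (⋃ i ∈ F, E i ∩ (A i ∩ O i)) := by
  classical
  rw [ExplB_union F (fun i => E i ∩ (A i ∩ O i)) (fun i => tE i ∪ (tA i ∪ tO i))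
    (fun i hi => (hE i hi).inter' ((hA i hi).inter' (hO i hi)))
    (fun i hi j hj hij => (hdisj i hi j hj hij).mono Set.inter_subset_left Set.inter_subset_left)]
  calc c * Pr p (⋃ i ∈ F, E i ∩ A i) ≤ c * ∑ i ∈ F, Pr p (E i ∩ A i) :=
        mul_le_mul_of_nonneg_left (Pr_biUnion_le F _) hc
    _ = ∑ i ∈ F, c * Pr p (E i ∩ A i) := Finset.mul_sum _ _ _
    _ ≤ ∑ i ∈ F, Pr p (E i ∩ (A i ∩ O i)) := by
        refine Finset.sum_le_sum fun i hi => ?_
        rw [Pr_inter_of_disjoint (hE i hi) (hA i hi) (h1 i hi),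
          Pr_inter_of_disjoint (hE i hi) ((hA i hi).inter' (hO i hi))
            (Finset.disjoint_union_right.2 ⟨h1 i hi, h2 i hi⟩)]
        have h3 := fkg (p := p) (hA i hi) (hO i hi) (iA i hi) (iO i hi)
        have h4 : c * Pr p (A i) ≤ Pr p (A i ∩ O i) := by
          refine le_trans ?_ h3
          rw [mul_comm]
          exact mul_le_mul_of_nonneg_left (hP i hi) Pr_nonneg
        calc c * (Pr p (E i) * Pr p (A i)) = Pr p (E i) * (c * Pr p (A i)) := by ring
          _ ≤ Pr p (E i) * Pr p (A i ∩ O i) := mul_le_mul_of_nonneg_left h4 Pr_nonneg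

/-- Conditional independence (used for the seals): the events `O i` are events of fresh edges. -/
theorem cond_indep {ι : Type*} (F : Finset ι) (E O : ι → Set Config) (tE tO : ι → Finset Edge)
    {c : ℝ} (hc : 0 ≤ c)
    (hdisj : ∀ i ∈ F, ∀ j ∈ F, i ≠ j → Disjoint (E i) (E j))
    (hE : ∀ i ∈ F, LocalOn (tE i) (E i)) (hO : ∀ i ∈ F, LocalOn (tO i) (O i))
    (h2 : ∀ i ∈ F, Disjoint (tE i) (tO i)) (hP : ∀ i ∈ F, c ≤ Pr p (O i)) :
    c * Pr p (⋃ i ∈ F, E i) ≤ Pr p (⋃ i ∈ F, E i ∩ O i) := by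
  classical
  rw [ExplB_union F (fun i => E i ∩ O i) (fun i => tE i ∪ tO i)
    (fun i hi => (hE i hi).inter' (hO i hi))
    (fun i hi j hj hij => (hdisj i hi j hj hij).mono Set.inter_subset_left Set.inter_subset_left)]
  calc c * Pr p (⋃ i ∈ F, E i) ≤ c * ∑ i ∈ F, Pr p (E i) :=
        mul_le_mul_of_nonneg_left (Pr_biUnion_le F _) hc
    _ = ∑ i ∈ F, c * Pr p (E i) := Finset.mul_sum _ _ _
    _ ≤ ∑ i ∈ F, Pr p (E i ∩ O i) := by
        refine Finset.sum_le_sum fun i hi => ?_
        rw [Pr_inter_of_disjoint (hE i hi) (hO i hi) (h2 i hi), mul_comm]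
        exact mul_le_mul_of_nonneg_left (hP i hi) Pr_nonneg

private theorem ExplB_inter {ι : Type*} [DecidableEq Edge] (F : Finset ι) (A : ι → Set Config)
    (t : ι → Finset Edge) (hA : ∀ i ∈ F, LocalOn (t i) (A i)) :
    LocalOn (F.biUnion t) (⋂ i ∈ F, A i) := by
  intro ω ω' hω h
  rw [Set.mem_iInter₂] at h ⊢
  intro i hi
  exact hA i hi ω ω' (fun e he => hω e (Finset.mem_biUnion.2 ⟨i, hi, he⟩)) (h i hi)

/-- Finite intersections of decreasing local events: Harris inequality. -/
theorem fkg_decr_many {ι : Type*} (F : Finset ι) (A : ι → Set Config) (t : ι → Finset Edge)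
    {c : ℝ} (hc : 0 ≤ c) (hA : ∀ i ∈ F, LocalOn (t i) (A i)) (iA : ∀ i ∈ F, Incr (A i)ᶜ)
    (hP : ∀ i ∈ F, c ≤ Pr p (A i)) : c ^ F.card ≤ Pr p (⋂ i ∈ F, A i) := by
  classical
  induction F using Finset.induction_on with
  | empty => simp [Pr_univ]
  | insert a F ha ih =>
    rw [Finset.card_insert_of_notMem ha, Finset.set_biInter_insert, pow_succ']
    have hF : ∀ i ∈ F, i ∈ insert a F := fun i hi => Finset.mem_insert_of_mem hi
    have haF : a ∈ insert a F := Finset.mem_insert_self _ _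
    have h1 := ih (fun i hi => hA i (hF i hi)) (fun i hi => iA i (hF i hi))
      (fun i hi => hP i (hF i hi))
    have h2 : Incr (⋂ i ∈ F, A i)ᶜ := by
      intro ω ω' hω h h3
      apply h
      rw [Set.mem_iInter₂] at h3 ⊢
      intro i hi
      by_contra h4
      exact iA i (hF i hi) ω ω' hω h4 (h3 i hi)
    refine le_trans ?_ (fkg_decr (hA a haF) (ExplB_inter F A t (fun i hi => hA i (hF i hi)))
      (iA a haF) h2)
    exact mul_le_mul (hP a haF) h1 (pow_nonneg hc _) Pr_nonneg

/-- Finite intersections of increasing local events: Harris inequality. -/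
theorem fkg_many {ι : Type*} (F : Finset ι) (A : ι → Set Config) (t : ι → Finset Edge)
    {c : ℝ} (hc : 0 ≤ c) (hA : ∀ i ∈ F, LocalOn (t i) (A i)) (iA : ∀ i ∈ F, Incr (A i))
    (hP : ∀ i ∈ F, c ≤ Pr p (A i)) : c ^ F.card ≤ Pr p (⋂ i ∈ F, A i) := by
  classical
  induction F using Finset.induction_on with
  | empty => simp [Pr_univ]
  | insert a F ha ih =>
    rw [Finset.card_insert_of_notMem ha, Finset.set_biInter_insert, pow_succ']
    have hF : ∀ i ∈ F, i ∈ insert a F := fun i hi => Finset.mem_insert_of_mem hi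
    have haF : a ∈ insert a F := Finset.mem_insert_self _ _
    have h1 := ih (fun i hi => hA i (hF i hi)) (fun i hi => iA i (hF i hi))
      (fun i hi => hP i (hF i hi))
    have h2 : Incr (⋂ i ∈ F, A i) := by
      intro ω ω' hω h
      rw [Set.mem_iInter₂] at h ⊢
      intro i hi
      exact iA i (hF i hi) ω ω' hω (h i hi)
    refine le_trans ?_ (fkg (hA a haF) (ExplB_inter F A t (fun i hi => hA i (hF i hi)))
      (iA a haF) h2)
    exact mul_le_mul (hP a haF) h1 (pow_nonneg hc _) Pr_nonneg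

end Pool.Agent.H29.Sep

end

section

/-!
# Exploration of clusters

`D` is a finite set of vertices, `clus ω D X` the union of the clusters in `D` of the vertices of
`X`.  Given this set, the edges of `D` which do not touch it are fresh.
-/

open MeasureTheory ProbabilityTheory unitInterval

namespace Pool.Agent.H26.HP

open Pool.Agent.H89.Perc

variable {ω ω' : Config} {D X S : Set Vert} {R : ℕ} {q : I}

/-- The union of the clusters in `D` of the vertices of `X`. -/
def clus (ω : Config) (D X : Set Vert) : Set Vert := {v | ∃ x ∈ X, Conn ω D x v}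

/-- `S` is the union of the clusters in `D` of the vertices of `X`. -/
def Full (D X S : Set Vert) : Set Config := {ω | clus ω D X = S}

/-- `S` is a cluster of `D`. -/
def IsClus (D S : Set Vert) : Set Config := {ω | ∃ u ∈ S, clus ω D {u} = S}

/-- The edges with both ends in `D`. -/
noncomputable def eIn (R : ℕ) (D : Set Vert) : Finset Edge := by
  classical exact (eBall R).filter (fun e => src e ∈ D ∧ tgt e ∈ D)

/-- The edges of `D` with at least one end in `S`. -/
noncomputable def eTouch (R : ℕ) (D S : Set Vert) : Finset Edge := by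
  classical exact (eBall R).filter (fun e => (src e ∈ D ∧ tgt e ∈ D) ∧ (src e ∈ S ∨ tgt e ∈ S))

lemma mem_eIn {e : Edge} : e ∈ eIn R D ↔ e ∈ eBall R ∧ src e ∈ D ∧ tgt e ∈ D := by
  classical
  simp only [eIn, Finset.mem_filter]

lemma mem_eTouch {e : Edge} : e ∈ eTouch R D S ↔
    e ∈ eBall R ∧ (src e ∈ D ∧ tgt e ∈ D) ∧ (src e ∈ S ∨ tgt e ∈ S) := by
  classical
  simp only [eTouch, Finset.mem_filter]

lemma eTouch_disjoint : Disjoint (eTouch R D S) (eIn R (D \ S)) := by
  rw [Finset.disjoint_left]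
  intro e h1 h2
  rw [mem_eTouch] at h1
  rw [mem_eIn] at h2
  rcases h1.2.2 with h | h
  · exact h2.2.1.2 h
  · exact h2.2.2.2 h

lemma localOn_conn_in (hD : D ⊆ ball 0 R) (u v : Vert) :
    LocalOn (eIn R D) {ω | Conn ω D u v} := by
  intro ω ω' h hc
  exact Conn.congr (fun e h1 h2 => h e (mem_eIn.2 ⟨mem_eBall.2 (hD h1), h1, h2⟩)) hc

lemma clus_subset : clus ω D X ⊆ D := fun _ ⟨_, _, h⟩ => h.mem_right

lemma mem_clus_of_conn {u v : Vert} (hu : u ∈ clus ω D X) (h : Conn ω D u v) :
    v ∈ clus ω D X := by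
  obtain ⟨x, hx, hc⟩ := hu
  exact ⟨x, hx, hc.trans h⟩

/-- A path which starts outside of the explored set stays outside. -/
lemma conn_off {u v : Vert} (hu : u ∉ clus ω D X) (h : Conn ω D u v) :
    Conn ω (D \ clus ω D X) u v := by
  refine h.induction_right (P := fun x => Conn ω (D \ clus ω D X) u x)
    (Conn.refl ⟨h.mem_left, hu⟩) ?_
  intro a b ha hab ih
  refine ih.tail ⟨ih.mem_right, ⟨hab.2.1, fun hb => hu ?_⟩, hab.2.2⟩
  exact mem_clus_of_conn hb (ha.tail hab).symm

lemma localOn_full (hD : D ⊆ ball 0 R) : LocalOn (eTouch R D S) (Full D X S) := by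
  intro ω ω' h hω
  have hω' : clus ω D X = S := hω
  have hedge : ∀ a b : Vert, a ∈ S → Step ω D a b → Step ω' D a b := by
    rintro a b ha ⟨h1, h2, e, h3, h4⟩
    refine ⟨h1, h2, e, h3, ?_⟩
    rw [← h e, h4]
    rw [mem_eTouch]
    rcases h3 with ⟨h5, h6⟩ | ⟨h5, h6⟩
    · exact ⟨mem_eBall.2 (hD (h5 ▸ h1)), ⟨h5 ▸ h1, h6 ▸ h2⟩, Or.inl (h5 ▸ ha)⟩
    · exact ⟨mem_eBall.2 (hD (h6 ▸ h2)), ⟨h6 ▸ h2, h5 ▸ h1⟩, Or.inr (h5 ▸ ha)⟩
  have hedge' : ∀ a b : Vert, a ∈ S → Step ω' D a b → Step ω D a b := by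
    rintro a b ha ⟨h1, h2, e, h3, h4⟩
    refine ⟨h1, h2, e, h3, ?_⟩
    rw [h e, h4]
    rw [mem_eTouch]
    rcases h3 with ⟨h5, h6⟩ | ⟨h5, h6⟩
    · exact ⟨mem_eBall.2 (hD (h5 ▸ h1)), ⟨h5 ▸ h1, h6 ▸ h2⟩, Or.inl (h5 ▸ ha)⟩
    · exact ⟨mem_eBall.2 (hD (h6 ▸ h2)), ⟨h6 ▸ h2, h5 ▸ h1⟩, Or.inr (h5 ▸ ha)⟩
  show clus ω' D X = S
  ext v
  constructor
  · rintro ⟨x, hx, hc⟩
    refine hc.induction_right (P := fun y => y ∈ S) ?_ ?_
    · rw [← hω']; exact ⟨x, hx, Conn.refl hc.mem_left⟩
    · intro a b _ hab ha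
      rw [← hω'] at ha ⊢
      exact mem_clus_of_conn ha (hedge' a b (hω' ▸ ha) hab).conn
  · intro hv
    rw [← hω'] at hv
    obtain ⟨x, hx, hc⟩ := hv
    refine ⟨x, hx, ?_⟩
    refine hc.induction_right (P := fun y => Conn ω' D x y) (Conn.refl hc.mem_left) ?_
    intro a b ha hab ih
    exact ih.tail (hedge a b (hω' ▸ ⟨x, hx, ha⟩) hab)

lemma localOn_isClus (hD : D ⊆ ball 0 R) : LocalOn (eTouch R D S) (IsClus D S) := by
  rintro ω ω' h ⟨u, hu, hc⟩
  exact ⟨u, hu, localOn_full hD ω ω' h hc⟩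

/-- The vertices of the ball as a finset. -/
noncomputable def bF (R : ℕ) : Finset Vert :=
  Finset.Icc (-(R : ℤ)) R ×ˢ Finset.Icc (-(R : ℤ)) R

lemma mem_bF {v : Vert} : v ∈ bF R ↔ v ∈ ball 0 R := by
  simp only [bF, Finset.mem_product, Finset.mem_Icc, mem_ball, Prod.fst_zero, Prod.snd_zero]
  omega

lemma exists_finset (hS : S ⊆ ball 0 R) : ∃ T ∈ (bF R).powerset, (↑T : Set Vert) = S := by
  classical
  refine ⟨(bF R).filter (fun v => v ∈ S), Finset.mem_powerset.2 (Finset.filter_subset _ _), ?_⟩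
  ext v
  simp only [Finset.coe_filter, mem_bF, Set.mem_ofPred_eq]
  exact ⟨fun h => h.2, fun h => ⟨hS h, h⟩⟩

/-- **Exploration.**  Given the cluster `S` of `X`, the events `A' S` and `G S` only depend on
fresh edges; if `c P(A' S) ≤ P(G S)` for all `S`, then `c P(A) ≤ P(B)`. -/
theorem explore (hD : D ⊆ ball 0 R) {A B : Set Config} {A' G : Set Vert → Set Config} {c : ℝ}
    (hc0 : 0 ≤ c) (hA : ∀ ω ∈ A, ω ∈ A' (clus ω D X))
    (lA : ∀ S, LocalOn (eIn R (D \ S)) (A' S)) (lG : ∀ S, LocalOn (eIn R (D \ S)) (G S))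
    (hc : ∀ S, c * Pr q (A' S) ≤ Pr q (G S)) (hB : ∀ ω, ω ∈ G (clus ω D X) → ω ∈ B) :
    c * Pr q A ≤ Pr q B := by
  classical
  have h1 : Pr q A ≤ ∑ T ∈ (bF R).powerset, Pr q (Full D X T ∩ A' T) := by
    refine (Pr_mono ?_).trans (Pr_biUnion_le _ _)
    intro ω hω
    obtain ⟨T, hT, hTe⟩ := exists_finset (S := clus ω D X) (clus_subset.trans hD)
    simp only [Set.mem_iUnion]
    refine ⟨T, hT, hTe.symm, ?_⟩
    rw [hTe]
    exact hA ω hω
  have h2 : ∑ T ∈ (bF R).powerset, Pr q (Full D X T ∩ G T) ≤ Pr q B := by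
    have hd : Set.PairwiseDisjoint (↑(bF R).powerset)
        (fun T : Finset Vert => Full D X T ∩ G T) := by
      intro T1 _ T2 _ hne
      rw [Function.onFun, Set.disjoint_left]
      rintro ω ⟨k1, _⟩ ⟨k2, _⟩
      apply hne
      have k3 : (↑T1 : Set Vert) = ↑T2 := by
        rw [← (show clus ω D X = ↑T1 from k1), ← (show clus ω D X = ↑T2 from k2)]
      exact_mod_cast k3
    have hm : ∀ T ∈ (bF R).powerset, MeasurableSet (Full D X (↑T : Set Vert) ∩ G T) :=
      fun T _ => ((localOn_full hD).inter' (lG T)).measurableSet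
    have := measureReal_biUnion_finset (μ := μ q) hd hm
    unfold Pr
    rw [← this]
    refine measureReal_mono ?_
    intro ω hω
    simp only [Set.mem_iUnion] at hω
    obtain ⟨T, _, k1, k2⟩ := hω
    apply hB
    rw [show clus ω D X = ↑T from k1]
    exact k2
  calc c * Pr q A ≤ c * ∑ T ∈ (bF R).powerset, Pr q (Full D X T ∩ A' T) :=
        mul_le_mul_of_nonneg_left h1 hc0
    _ = ∑ T ∈ (bF R).powerset, c * Pr q (Full D X T ∩ A' T) := Finset.mul_sum _ _ _
    _ ≤ ∑ T ∈ (bF R).powerset, Pr q (Full D X T ∩ G T) := by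
        refine Finset.sum_le_sum fun T _ => ?_
        rw [Pr_inter_of_disjoint (localOn_full hD) (lA T) eTouch_disjoint,
          Pr_inter_of_disjoint (localOn_full hD) (lG T) eTouch_disjoint]
        calc c * (Pr q (Full D X T) * Pr q (A' T)) = Pr q (Full D X T) * (c * Pr q (A' T)) := by
              ring
          _ ≤ _ := mul_le_mul_of_nonneg_left (hc T) Pr_nonneg
    _ ≤ Pr q B := h2

/-- The expected number of clusters of `D` in the family `F`. -/
noncomputable def EN (q : I) (D : Set Vert) (F : Finset (Finset Vert)) : ℝ :=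
  ∑ T ∈ F, Pr q (IsClus D T)

/-- If each cluster of the family is alone with probability at least `c`, then the expected number
of clusters is at most `c⁻¹ P(B)`. -/
theorem EN_le (hD : D ⊆ ball 0 R) {F : Finset (Finset Vert)} {B : Set Config}
    {G : Set Vert → Set Config} {c : ℝ} (lG : ∀ S, LocalOn (eIn R (D \ S)) (G S))
    (hc : ∀ T ∈ F, c ≤ Pr q (G T))
    (hu : ∀ ω, ∀ T ∈ F, ∀ T' ∈ F, ω ∈ IsClus D T → ω ∈ G T → ω ∈ IsClus D T' → ω ∈ G T' → T = T')
    (hB : ∀ ω, ∀ T ∈ F, ω ∈ IsClus D T → ω ∈ G T → ω ∈ B) :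
    c * EN q D F ≤ Pr q B := by
  classical
  have h2 : ∑ T ∈ F, Pr q (IsClus D T ∩ G T) ≤ Pr q B := by
    have hd : Set.PairwiseDisjoint (↑F) (fun T : Finset Vert => IsClus D (↑T : Set Vert) ∩ G T) := by
      intro T1 hT1 T2 hT2 hne
      rw [Function.onFun, Set.disjoint_left]
      rintro ω ⟨k1, k2⟩ ⟨k3, k4⟩
      exact hne (hu ω T1 hT1 T2 hT2 k1 k2 k3 k4)
    have hm : ∀ T ∈ F, MeasurableSet (IsClus D (↑T : Set Vert) ∩ G T) :=
      fun T _ => ((localOn_isClus hD).inter' (lG T)).measurableSet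
    have := measureReal_biUnion_finset (μ := μ q) hd hm
    unfold Pr
    rw [← this]
    refine measureReal_mono ?_
    intro ω hω
    simp only [Set.mem_iUnion] at hω
    obtain ⟨T, hT, k1, k2⟩ := hω
    exact hB ω T hT k1 k2
  refine le_trans ?_ h2
  rw [EN, Finset.mul_sum]
  refine Finset.sum_le_sum fun T hT => ?_
  rw [Pr_inter_of_disjoint (localOn_isClus hD) (lG T) eTouch_disjoint, mul_comm]
  exact mul_le_mul_of_nonneg_left (hc T hT) Pr_nonneg

/-- Upper bound by the expected number of clusters times the conditional probability of the rest. -/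
theorem le_EN (hD : D ⊆ ball 0 R) {F : Finset (Finset Vert)} {A : Set Config}
    {G : Set Vert → Set Config} {δ : ℝ} (lG : ∀ S, LocalOn (eIn R (D \ S)) (G S))
    (hδ : ∀ T ∈ F, Pr q (G T) ≤ δ) (hA : ∀ ω ∈ A, ∃ T ∈ F, ω ∈ IsClus D T ∧ ω ∈ G T) :
    Pr q A ≤ EN q D F * δ := by
  classical
  calc Pr q A ≤ Pr q (⋃ T ∈ F, (IsClus D (↑T : Set Vert) ∩ G T)) := by
        refine Pr_mono fun ω hω => ?_
        simp only [Set.mem_iUnion]
        obtain ⟨T, hT, h1, h2⟩ := hA ω hω
        exact ⟨T, hT, h1, h2⟩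
    _ ≤ ∑ T ∈ F, Pr q (IsClus D (↑T : Set Vert) ∩ G T) := Pr_biUnion_le _ _
    _ ≤ ∑ T ∈ F, Pr q (IsClus D (↑T : Set Vert)) * δ := by
        refine Finset.sum_le_sum fun T hT => ?_
        rw [Pr_inter_of_disjoint (localOn_isClus hD) (lG T) eTouch_disjoint]
        exact mul_le_mul_of_nonneg_left (hδ T hT) Pr_nonneg
    _ = EN q D F * δ := by rw [EN, Finset.sum_mul]

lemma isClus_unique {S T : Set Vert} (h1 : ω ∈ IsClus D S) (h2 : ω ∈ IsClus D T) {v : Vert}
    (hS : v ∈ S) (hT : v ∈ T) : S = T := by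
  obtain ⟨u, _, rfl⟩ := h1
  obtain ⟨w, _, rfl⟩ := h2
  obtain ⟨_, rfl, hu⟩ := hS
  obtain ⟨_, rfl, hw⟩ := hT
  ext z
  constructor
  · rintro ⟨_, rfl, h⟩
    exact ⟨_, rfl, (hw.trans hu.symm).trans h⟩
  · rintro ⟨_, rfl, h⟩
    exact ⟨_, rfl, (hu.trans hw.symm).trans h⟩

lemma isClus_clus {u : Vert} (hu : u ∈ D) : ω ∈ IsClus D (clus ω D {u}) :=
  ⟨u, ⟨u, rfl, Conn.refl hu⟩, rfl⟩

/-- Two points of a cluster are joined. -/
lemma isClus_conn (h : ω ∈ IsClus D S) {u v : Vert} (hu : u ∈ S) (hv : v ∈ S) :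
    Conn ω D u v := by
  obtain ⟨w, _, rfl⟩ := h
  obtain ⟨_, rfl, h1⟩ := hu
  obtain ⟨_, rfl, h2⟩ := hv
  exact h1.symm.trans h2

lemma isClus_closed (h : ω ∈ IsClus D S) {u v : Vert} (hu : u ∈ S) (hc : Conn ω D u v) :
    v ∈ S := by
  obtain ⟨w, _, rfl⟩ := h
  obtain ⟨_, rfl, h1⟩ := hu
  exact ⟨_, rfl, h1.trans hc⟩

lemma isClus_subset (h : ω ∈ IsClus D S) : S ⊆ D := by
  obtain ⟨w, _, rfl⟩ := h
  exact clus_subset

lemma isClus_off (h : ω ∈ IsClus D S) {u v : Vert} (hu : u ∉ S) (hc : Conn ω D u v) :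
    Conn ω (D \ S) u v := by
  obtain ⟨w, _, rfl⟩ := h
  exact conn_off hu hc

end Pool.Agent.H26.HP

end

section

/-!
# Probabilistic tools

Conditioning on the edges of a (possibly infinite) set `t`, and on the value of a random set.
-/

open MeasureTheory ProbabilityTheory unitInterval

namespace Pool.Agent.H59.EX

open Pool.Agent.H89.Perc

variable {q : I} {Λ : Finset Edge} {t : Set Edge} {A G H : Set Config}

/-- An event which is local on `Λ` and depends only on the edges of `t` is local on any finite set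
containing `Λ ∩ t`. -/
theorem localOn_of_locS {s : Finset Edge} (hA : LocalOn Λ A) (hA' : LocS t A)
    (hs : ∀ e ∈ Λ, e ∈ t → e ∈ s) : LocalOn s A := by
  classical
  intro ω ω' h hω
  have h1 : (fun e => if e ∈ t then ω' e else ω e) ∈ A := by
    refine hA ω _ (fun e he => ?_) hω
    by_cases het : e ∈ t
    · simp only [het, if_true]
      exact h e (hs e he het)
    · simp only [het, if_false]
  refine hA' _ ω' (fun e he => ?_) h1
  simp only [he, if_true]

/-- Independence: `A` depends on the edges of `t`, `H` on the other edges. -/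
theorem indep_cond (hA : LocalOn Λ A) (hA' : LocS t A) (hH : LocalOn Λ H) (hH' : LocS tᶜ H) :
    Pr q (A ∩ H) = Pr q A * Pr q H := by
  classical
  have h1 : LocalOn (Λ.filter (· ∈ t)) A :=
    localOn_of_locS hA hA' (fun e he het => Finset.mem_filter.2 ⟨he, het⟩)
  have h2 : LocalOn (Λ.filter (· ∉ t)) H :=
    localOn_of_locS hH hH' (fun e he het => Finset.mem_filter.2 ⟨he, het⟩)
  exact Pr_inter_of_disjoint h1 h2 (Finset.disjoint_filter_filter_not Λ Λ (· ∈ t))

private theorem fkg_aux (s : Finset Edge) : ∀ {s' : Finset Edge} {A G : Set Config},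
    LocalOn s A → LocalOn Λ G → Incr G → LocalOn s' H → Incr H → (∀ e ∈ s, e ∉ s') →
    Pr q (A ∩ G) * Pr q H ≤ Pr q (A ∩ G ∩ H) := by
  classical
  induction s using Finset.induction_on with
  | empty =>
    intro s' A G hA hG iG hH iH _
    rcases A.eq_empty_or_nonempty with h0 | ⟨ω₀, h0⟩
    · subst h0
      simp [Pr]
    · have hu : A = Set.univ := by
        ext ω
        simp only [Set.mem_univ, iff_true]
        exact hA ω₀ ω (fun e he => absurd he (Finset.notMem_empty e)) h0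
      subst hu
      rw [Set.univ_inter]
      exact fkg hG hH iG iH
  | @insert a s ha ih =>
    intro s' A G hA hG iG hH iH hdis
    have hAG : LocalOn (insert a s ∪ Λ) (A ∩ G) := LocalOn.inter' hA hG
    have hAGH : LocalOn (insert a s ∪ Λ ∪ s') (A ∩ G ∩ H) := LocalOn.inter' hAG hH
    have hH0 : ∀ b : Bool, {ω : Config | Function.update ω a b ∈ H} = H := by
      intro b
      have hloc : ∀ ω : Config, ∀ e ∈ s', Function.update ω a b e = ω e := by
        intro ω e he
        rw [Function.update_of_ne]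
        intro hea
        exact hdis a (Finset.mem_insert_self a s) (hea ▸ he)
      ext ω
      exact ⟨hH _ _ (hloc ω), hH _ _ (fun e he => (hloc ω e he).symm)⟩
    have key : ∀ b : Bool,
        Pr q {ω | Function.update ω a b ∈ A ∩ G} * Pr q H ≤
          Pr q {ω | Function.update ω a b ∈ A ∩ G ∩ H} := by
      intro b
      have h1 : LocalOn s {ω : Config | Function.update ω a b ∈ A} := by
        have := hA.update a b
        rwa [Finset.erase_insert ha] at this
      have h2 : LocalOn Λ {ω : Config | Function.update ω a b ∈ G} :=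
        (hG.update a b).mono (Finset.erase_subset a Λ)
      have h3 : Incr {ω : Config | Function.update ω a b ∈ G} := by
        intro ω ω' h hω
        refine iG _ _ (fun e he => ?_) hω
        by_cases hea : e = a
        · subst hea
          rw [Function.update_self] at he ⊢
          exact he
        · rw [Function.update_of_ne hea] at he ⊢
          exact h e he
      have h4 := ih (A := {ω : Config | Function.update ω a b ∈ A})
        (G := {ω : Config | Function.update ω a b ∈ G}) h1 h2 h3 hH iH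
        (fun e he => hdis e (Finset.mem_insert_of_mem he))
      have h5 : {ω : Config | Function.update ω a b ∈ A ∩ G ∩ H} =
          {ω : Config | Function.update ω a b ∈ A} ∩ {ω : Config | Function.update ω a b ∈ G} ∩
            H := by
        conv_rhs => rw [← hH0 b]
        rfl
      rw [h5]
      exact h4
    rw [Pr_eq_update hAG a, Pr_eq_update hAGH a]
    have h1 := mul_le_mul_of_nonneg_left (key true) (show (0 : ℝ) ≤ (q : ℝ) from q.2.1)
    have h2 := mul_le_mul_of_nonneg_left (key false)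
      (show (0 : ℝ) ≤ 1 - (q : ℝ) from sub_nonneg.2 q.2.2)
    linarith

/-- Conditional FKG: `A` depends on the edges of `t`, `G` and `H` are increasing, `H` depends only
on the edges outside `t`. -/
theorem fkg_cond (hA : LocalOn Λ A) (hA' : LocS t A) (hG : LocalOn Λ G) (iG : Incr G)
    (hH : LocalOn Λ H) (hH' : LocS tᶜ H) (iH : Incr H) :
    Pr q (A ∩ G) * Pr q H ≤ Pr q (A ∩ G ∩ H) := by
  classical
  have h1 : LocalOn (Λ.filter (· ∈ t)) A :=
    localOn_of_locS hA hA' (fun e he het => Finset.mem_filter.2 ⟨he, het⟩)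
  have h2 : LocalOn (Λ.filter (· ∉ t)) H :=
    localOn_of_locS hH hH' (fun e he het => Finset.mem_filter.2 ⟨he, het⟩)
  refine fkg_aux (Λ.filter (· ∈ t)) h1 hG iG h2 iH (fun e he he' => ?_)
  exact (Finset.mem_filter.1 he').2 (Finset.mem_filter.1 he).2

/-- Summation over the values of `X`. -/
private theorem markov_sum {ι : Type*} {c : ℝ} (X : Config → ι) (Good : ι → Prop)
    (B C : ι → Set Config) (hX : ∀ i, LocalOn Λ {ω | X ω = i})
    (hB : ∀ i, LocalOn Λ (B i)) (hC : ∀ i, LocalOn Λ (C i))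
    (h : ∀ i, Good i → c * Pr q ({ω | X ω = i} ∩ B i) ≤ Pr q ({ω | X ω = i} ∩ C i)) :
    c * Pr q {ω | Good (X ω) ∧ ω ∈ B (X ω)} ≤ Pr q {ω | Good (X ω) ∧ ω ∈ C (X ω)} := by
  classical
  set F : Finset ι := (Λ.powerset.image (fun S => X (ofS S))).filter Good with hF
  have hval : ∀ ω : Config, X ω ∈ Λ.powerset.image (fun S => X (ofS S)) := by
    intro ω
    refine Finset.mem_image.2 ⟨Λ.filter (fun e => ω e = true),
      Finset.mem_powerset.2 (Finset.filter_subset _ _), ?_⟩
    have := hX (X ω) ω (ofS (Λ.filter (fun e => ω e = true))) (fun e he => ?_) rfl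
    · exact this
    · rw [ofS_apply]
      by_cases ho : ω e = true
      · simp [ho, he]
      · simp [ho]
  have hun : ∀ D : ι → Set Config, {ω | Good (X ω) ∧ ω ∈ D (X ω)} =
      ⋃ i ∈ F, ({ω | X ω = i} ∩ D i) := by
    intro D
    ext ω
    simp only [Set.mem_ofPred_eq, Set.mem_iUnion, Set.mem_inter_iff, hF, Finset.mem_filter,
      exists_prop]
    constructor
    · rintro ⟨h1, h2⟩
      exact ⟨X ω, ⟨hval ω, h1⟩, rfl, h2⟩
    · rintro ⟨i, ⟨_, h1⟩, h2, h3⟩
      subst h2
      exact ⟨h1, h3⟩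
  have hsum : ∀ D : ι → Set Config, (∀ i, LocalOn Λ (D i)) →
      Pr q {ω | Good (X ω) ∧ ω ∈ D (X ω)} = ∑ i ∈ F, Pr q ({ω | X ω = i} ∩ D i) := by
    intro D hD
    rw [hun D, Pr]
    refine measureReal_biUnion_finset ?_ ?_
    · intro i _ j _ hij
      refine Set.disjoint_left.2 ?_
      rintro ω ⟨h1, _⟩ ⟨h2, _⟩
      exact hij (h1.symm.trans h2)
    · intro i _
      exact ((hX i).inter (hD i)).measurableSet
  rw [hsum B hB, hsum C hC, Finset.mul_sum]
  refine Finset.sum_le_sum (fun i hi => ?_)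
  exact h i (Finset.mem_filter.1 hi).2

/-- Conditioning on the value of `X`, increasing version. -/
theorem markov_incr {ι : Type*} {c : ℝ} (X : Config → ι) (Good : ι → Prop) (t : ι → Set Edge)
    (A G H : ι → Set Config) (hX : ∀ i, LocalOn Λ {ω | X ω = i})
    (hX' : ∀ i, Good i → LocS (t i) {ω | X ω = i})
    (hA : ∀ i, LocalOn Λ (A i)) (hA' : ∀ i, Good i → LocS (t i) (A i))
    (hG : ∀ i, LocalOn Λ (G i)) (iG : ∀ i, Good i → Incr (G i))
    (hH : ∀ i, LocalOn Λ (H i)) (hH' : ∀ i, Good i → LocS (t i)ᶜ (H i))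
    (iH : ∀ i, Good i → Incr (H i)) (hc : ∀ i, Good i → c ≤ Pr q (H i)) (hc0 : 0 ≤ c) :
    c * Pr q {ω | Good (X ω) ∧ ω ∈ A (X ω) ∧ ω ∈ G (X ω)} ≤
      Pr q {ω | Good (X ω) ∧ ω ∈ A (X ω) ∧ ω ∈ G (X ω) ∧ ω ∈ H (X ω)} := by
  have _ := hc0
  refine markov_sum (q := q) (c := c) X Good (fun i => A i ∩ G i) (fun i => A i ∩ (G i ∩ H i)) hX
    (fun i => (hA i).inter (hG i)) (fun i => (hA i).inter ((hG i).inter (hH i))) ?_
  intro i hi
  have h1 : LocS (t i) ({ω | X ω = i} ∩ A i) :=
    fun ω ω' h hω => ⟨hX' i hi ω ω' h hω.1, hA' i hi ω ω' h hω.2⟩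
  have h2 := fkg_cond (q := q) ((hX i).inter (hA i)) h1 (hG i) (iG i hi) (hH i) (hH' i hi)
    (iH i hi)
  have h3 : ({ω | X ω = i} ∩ A i) ∩ G i ∩ H i = {ω | X ω = i} ∩ (A i ∩ (G i ∩ H i)) := by
    simp only [Set.inter_assoc]
  have h4 : ({ω | X ω = i} ∩ A i) ∩ G i = {ω | X ω = i} ∩ (A i ∩ G i) := by
    simp only [Set.inter_assoc]
  rw [h3, h4] at h2
  refine le_trans ?_ h2
  rw [mul_comm]
  exact mul_le_mul_of_nonneg_left (hc i hi) Pr_nonneg

/-- Conditioning on the value of `X`, independent version. -/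
theorem markov_indep {ι : Type*} {c : ℝ} (X : Config → ι) (Good : ι → Prop) (t : ι → Set Edge)
    (A H : ι → Set Config) (hX : ∀ i, LocalOn Λ {ω | X ω = i})
    (hX' : ∀ i, Good i → LocS (t i) {ω | X ω = i})
    (hA : ∀ i, LocalOn Λ (A i)) (hA' : ∀ i, Good i → LocS (t i) (A i))
    (hH : ∀ i, LocalOn Λ (H i)) (hH' : ∀ i, Good i → LocS (t i)ᶜ (H i))
    (hc : ∀ i, Good i → c ≤ Pr q (H i)) (hc0 : 0 ≤ c) :
    c * Pr q {ω | Good (X ω) ∧ ω ∈ A (X ω)} ≤
      Pr q {ω | Good (X ω) ∧ ω ∈ A (X ω) ∧ ω ∈ H (X ω)} := by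
  have _ := hc0
  refine markov_sum (q := q) (c := c) X Good A (fun i => A i ∩ H i) hX hA
    (fun i => (hA i).inter (hH i)) ?_
  intro i hi
  have h1 : LocS (t i) ({ω | X ω = i} ∩ A i) :=
    fun ω ω' h hω => ⟨hX' i hi ω ω' h hω.1, hA' i hi ω ω' h hω.2⟩
  have h2 := indep_cond (q := q) ((hX i).inter (hA i)) h1 (hH i) (hH' i hi)
  rw [Set.inter_assoc] at h2
  rw [h2, mul_comm]
  exact mul_le_mul_of_nonneg_left (hc i hi) Pr_nonneg

private theorem joins_touch {D S : Set Vert} {e : Edge} {a b : Vert} (he : Joins e a b)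
    (ha : a ∈ D) (hb : b ∈ D) (haS : a ∈ S) : e ∈ touch D S := by
  rcases he with ⟨h1, h2⟩ | ⟨h1, h2⟩
  · exact ⟨⟨h1 ▸ ha, h2 ▸ hb⟩, Or.inl (h1 ▸ haS)⟩
  · exact ⟨⟨h2 ▸ hb, h1 ▸ ha⟩, Or.inr (h1 ▸ haS)⟩

/-- The event that the cluster of `X` in `D` equals `S` depends only on the edges touching `S`. -/
theorem locS_clus (D X S : Set Vert) : LocS (touch D S) {ω | clus ω D X = S} := by
  intro ω ω' h hω
  rw [Set.mem_ofPred_eq] at hω ⊢
  refine Set.Subset.antisymm ?_ ?_
  · rintro v ⟨x, hx, hc⟩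
    refine hc.induction_right (P := fun w => w ∈ S) ?_ ?_
    · rw [← hω]
      exact ⟨x, hx, Conn.refl hc.mem_left⟩
    · intro a b _ hab haS
      obtain ⟨ha, hb, e, he, ho⟩ := hab
      have het : e ∈ touch D S := joins_touch he ha hb haS
      have haS' := haS
      rw [← hω] at haS' ⊢
      obtain ⟨y, hy, hya⟩ := haS'
      exact ⟨y, hy, hya.tail ⟨ha, hb, e, he, by rw [h e het]; exact ho⟩⟩
  · intro v hv
    rw [← hω] at hv
    obtain ⟨x, hx, hc⟩ := hv
    refine ⟨x, hx, ?_⟩
    refine hc.induction_right (P := fun w => Conn ω' D x w) (Conn.refl hc.mem_left) ?_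
    intro a b hxa hab hc'
    obtain ⟨ha, hb, e, he, ho⟩ := hab
    have haS : a ∈ S := by
      rw [← hω]
      exact ⟨x, hx, hxa⟩
    have het : e ∈ touch D S := joins_touch he ha hb haS
    exact hc'.tail ⟨ha, hb, e, he, by rw [← h e het]; exact ho⟩

/-- The same with filled edges inside `Z ⊆ S`. -/
theorem locS_clus_fill {D X S Z : Set Vert} (hZ : Z ⊆ S) :
    LocS (touch D S \ inE Z) {ω | clus (fillV Z ω) D X = S} := by
  have _ := hZ
  intro ω ω' h hω
  refine locS_clus D X S (fillV Z ω) (fillV Z ω') (fun e he => ?_) hω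
  unfold fillV
  by_cases hez : e ∈ inE Z
  · simp [hez]
  · rw [h e ⟨he, hez⟩]

end Pool.Agent.H59.EX

end

section

/-!
# The corridor lemma

`pb π ω` is the configuration `e ↦ ω (π e)`; `π = id` for the plane, the reduction modulo the
periods (and a translation) for the torus and for the cylinder.  Given a separated four-arm event,
increasing events inside the corridor `C` and arbitrary events `H` of the edges which are neither
inside `C` nor touch the two clusters (in the configuration with filled targets) can be added at the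
cost of constant factors.
-/

open MeasureTheory ProbabilityTheory unitInterval

namespace Pool.Agent.H59.EX

open Pool.Agent.H89.Perc

/-- Pulled back configuration. -/
def pb (π : Edge → Edge) (ω : Config) : Config := fun e => ω (π e)

/-- The edges equivalent to an edge of `t`. -/
def sat (π : Edge → Edge) (t : Set Edge) : Set Edge := {e | ∃ e' ∈ t, π e = π e'}

/-- Cluster of the first point with filled targets. -/
def FX (s : Src) (d d' : Side) (k : ℕ) (ω : Config) : Set Vert :=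
  clus (fillV (T d k ∪ T d' k) (s.cut ω)) (dom d d' k) {s.x}

/-- Cluster of the second point with filled targets. -/
def FY (s : Src) (d d' : Side) (k : ℕ) (ω : Config) : Set Vert :=
  clus (fillV (T d k ∪ T d' k) (s.cut ω)) (dom d d' k) {s.y}

/-- The determined edges. -/
def det (π : Edge → Edge) (d d' : Side) (k : ℕ) (C S : Set Vert) : Set Edge :=
  sat π (touch (dom d d' k) S ∪ inE C)

private theorem LocS.mono' {t t' : Set Edge} {A : Set Config} (h : LocS t A) (ht : t ⊆ t') :
    LocS t' A := fun _ _ hω => h _ _ fun e he => hω e (ht he)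

private theorem LocS.inter' {t : Set Edge} {A B : Set Config} (h : LocS t A) (h' : LocS t B) :
    LocS t (A ∩ B) := fun ω ω' hω hm => ⟨h ω ω' hω hm.1, h' ω ω' hω hm.2⟩

private theorem LocS.localOn' {t : Set Edge} {Λ : Finset Edge} {A : Set Config} (h : LocS t A)
    (ht : t ⊆ ↑Λ) : LocalOn Λ A := fun ω ω' hω => h ω ω' fun e he => hω e (by exact_mod_cast ht he)

private theorem locS_pb {π : Edge → Edge} {t : Set Edge} {A : Set Config} (h : LocS t A) :
    LocS (π '' t) {ω | pb π ω ∈ A} := fun _ _ hω hm =>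
  h _ _ (fun e he => hω (π e) ⟨e, he, rfl⟩) hm

private theorem incr_pb {π : Edge → Edge} {A : Set Config} (h : Incr A) :
    Incr {ω | pb π ω ∈ A} := fun _ _ hω hm => h _ _ (fun e he => hω (π e) he) hm

private theorem inE_finite {S : Set Vert} (hS : S.Finite) : (inE S).Finite := by
  refine ((hS.prod (Set.finite_univ (α := Bool))).image
    (fun z : Vert × Bool => ((z.1.1, z.1.2, z.2) : Edge))).subset ?_
  rintro ⟨a, b, t⟩ ⟨h1, -⟩
  exact ⟨((a, b), t), ⟨h1, trivial⟩, rfl⟩

private theorem rect_finite (a b c d : ℤ) : (rect a b c d).Finite := by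
  refine Set.Finite.subset ((Set.finite_Icc a b).prod (Set.finite_Icc c d)) ?_
  rintro ⟨x, y⟩ ⟨h1, h2, h3, h4⟩
  exact ⟨⟨h1, h2⟩, ⟨h3, h4⟩⟩

private theorem T_finite (d : Side) (k : ℕ) : (T d k).Finite := by
  cases d <;> exact rect_finite _ _ _ _

private theorem dom_finite (d d' : Side) (k : ℕ) : (dom d d' k).Finite :=
  (rect_finite _ _ _ _).union ((T_finite d k).union (T_finite d' k))

private theorem touch_mono {D S S' : Set Vert} (h : S ⊆ S') : touch D S ⊆ touch D S' :=
  fun _ he => ⟨he.1, he.2.imp (fun x => h x) fun x => h x⟩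

/-- Configurations which agree on the edges touching the cluster of `x` have the same cluster. -/
private theorem clus_congr {ω ω' : Config} {D X : Set Vert}
    (h : ∀ e ∈ touch D (clus ω D X), ω e = ω' e) : clus ω' D X = clus ω D X :=
  locS_clus D X (clus ω D X) ω ω' h rfl

private theorem conn_congr {ω ω' : Config} {D : Set Vert} {x v : Vert}
    (h : ∀ e ∈ touch D (clus ω D {x}), ω e = ω' e) (hc : Conn ω D x v) : Conn ω' D x v := by
  have h1 : v ∈ clus ω D {x} := ⟨x, rfl, hc⟩
  rw [← clus_congr h] at h1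
  obtain ⟨y, hy, h2⟩ := h1
  rw [Set.mem_singleton_iff.1 hy] at h2
  exact h2

private theorem conn_congr' {ω ω' : Config} {D : Set Vert} {x v : Vert}
    (h : ∀ e ∈ inE D, ω e = ω' e) (hc : Conn ω D x v) : Conn ω' D x v :=
  conn_congr (fun e he => h e he.1) hc

private theorem cut_congr (s : Src) {ω ω' : Config} {e : Edge} (h : ω e = ω' e) :
    s.cut ω e = s.cut ω' e := by
  simp only [Src.cut, closeS, h]

private theorem fill_congr {Z : Set Vert} {ω ω' : Config} {e : Edge}
    (h : e ∉ inE Z → ω e = ω' e) : fillV Z ω e = fillV Z ω' e := by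
  by_cases he : e ∈ inE Z
  · simp [fillV, he]
  · simp [fillV, he, h he]

private theorem cut_mono (s : Src) {ω ω' : Config} (h : ∀ e, ω e = true → ω' e = true) (e : Edge)
    (he : s.cut ω e = true) : s.cut ω' e = true := by
  simp only [Src.cut, closeS, Bool.and_eq_true, decide_eq_true_eq] at he ⊢
  exact ⟨h e he.1, he.2⟩

private theorem le_fill {Z : Set Vert} {ω : Config} (e : Edge) (he : ω e = true) :
    fillV Z ω e = true := by
  simp [fillV, he]

/-- A fence only looks at the edges of its target and at the edges touching the cluster. -/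
private theorem fence_congr {d : Side} {k : ℕ} {ω ω' : Config} {D : Set Vert} {x : Vert}
    (h1 : ∀ e ∈ inE (T d k), ω e = ω' e) (h2 : ∀ e ∈ touch D (clus ω D {x}), ω e = ω' e)
    (h : Fence d k ω D x) : Fence d k ω' D x := by
  cases d <;> obtain ⟨u, v, hu, hv, k1, k2⟩ := h <;>
    exact ⟨u, v, hu, hv, conn_congr' h1 k1, conn_congr h2 k2⟩

private theorem fence_mono {d : Side} {k : ℕ} {ω ω' : Config} {D : Set Vert} {x : Vert}
    (h1 : ∀ e, ω e = true → ω' e = true) (h : Fence d k ω D x) : Fence d k ω' D x := by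
  cases d <;> obtain ⟨u, v, hu, hv, k1, k2⟩ := h <;>
    exact ⟨u, v, hu, hv, k1.mono le_rfl h1, k2.mono le_rfl h1⟩

/-- The part of `Sep` about the filled configuration. -/
private def SepA (s : Src) (d d' : Side) (k : ℕ) : Set Config :=
  {ω | ¬ Conn (fillV (T d k ∪ T d' k) (s.cut ω)) (dom d d' k) s.x s.y ∧
    (∀ v ∈ sphere 0 (32 * k),
      Conn (fillV (T d k ∪ T d' k) (s.cut ω)) (dom d d' k) s.x v → v ∈ Mouth d k) ∧
    (∀ v ∈ sphere 0 (32 * k),
      Conn (fillV (T d k ∪ T d' k) (s.cut ω)) (dom d d' k) s.y v → v ∈ Mouth d' k)}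

/-- The increasing part of `Sep`. -/
private def SepG (s : Src) (d d' : Side) (k : ℕ) : Set Config :=
  {ω | Fence d k (s.cut ω) (dom d d' k) s.x ∧ Fence d' k (s.cut ω) (dom d d' k) s.y}

private theorem sep_eq (s : Src) (d d' : Side) (k : ℕ) : Sep s d d' k = SepA s d d' k ∩ SepG s d d' k := by
  ext ω
  simp only [Sep, SepA, SepG, Set.mem_ofPred_eq, Set.mem_inter_iff]
  tauto

private theorem T_sub_dom (d d' : Side) (k : ℕ) : T d k ⊆ dom d d' k := fun _ h => Or.inr (Or.inl h)

private theorem T_sub_dom' (d d' : Side) (k : ℕ) : T d' k ⊆ dom d d' k :=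
  fun _ h => Or.inr (Or.inr h)

private theorem inE_mono {S S' : Set Vert} (h : S ⊆ S') : inE S ⊆ inE S' :=
  fun _ he => ⟨h he.1, h he.2⟩

private theorem locS_sepA (s : Src) (d d' : Side) (k : ℕ) :
    LocS (inE (dom d d' k) \ inE (T d k ∪ T d' k)) (SepA s d d' k) := by
  rintro ω ω' h ⟨h1, h2, h3⟩
  have key : ∀ e ∈ inE (dom d d' k), fillV (T d k ∪ T d' k) (s.cut ω') e =
      fillV (T d k ∪ T d' k) (s.cut ω) e := fun e he =>
    fill_congr fun hne => (cut_congr s (h e ⟨he, hne⟩)).symm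
  exact ⟨fun hc => h1 (conn_congr' key hc), fun v hv hc => h2 v hv (conn_congr' key hc),
    fun v hv hc => h3 v hv (conn_congr' key hc)⟩

private theorem locS_sepG (s : Src) (d d' : Side) (k : ℕ) :
    LocS (inE (dom d d' k)) (SepG s d d' k) := by
  rintro ω ω' h ⟨h1, h2⟩
  have key : ∀ e ∈ inE (dom d d' k), s.cut ω e = s.cut ω' e := fun e he => cut_congr s (h e he)
  exact ⟨fence_congr (fun e he => key e (inE_mono (T_sub_dom d d' k) he))
      (fun e he => key e he.1) h1,
    fence_congr (fun e he => key e (inE_mono (T_sub_dom' d d' k) he)) (fun e he => key e he.1) h2⟩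

private theorem incr_sepG (s : Src) (d d' : Side) (k : ℕ) : Incr (SepG s d d' k) := by
  rintro ω ω' h ⟨h1, h2⟩
  exact ⟨fence_mono (cut_mono s h) h1, fence_mono (cut_mono s h) h2⟩

private theorem locS_FX (s : Src) (d d' : Side) (k : ℕ) (S : Set Vert) :
    LocS (touch (dom d d' k) S) {ω | FX s d d' k ω = S} := by
  intro ω ω' h hω
  exact locS_clus _ _ S _ _ (fun e he => fill_congr fun _ => cut_congr s (h e he)) hω

private theorem locS_FY (s : Src) (d d' : Side) (k : ℕ) (S : Set Vert) :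
    LocS (touch (dom d d' k) S) {ω | FY s d d' k ω = S} := by
  intro ω ω' h hω
  exact locS_clus _ _ S _ _ (fun e he => fill_congr fun _ => cut_congr s (h e he)) hω

private theorem clus_cut_sub {s : Src} {ω : Config} {Z D X : Set Vert} :
    clus (s.cut ω) D X ⊆ clus (fillV Z (s.cut ω)) D X := by
  rintro v ⟨x, hx, hc⟩
  exact ⟨x, hx, hc.mono le_rfl fun e he => le_fill e he⟩

private theorem mem_FX {s : Src} {d d' : Side} {k : ℕ} {ω : Config} {v : Vert} :
    v ∈ FX s d d' k ω ↔ Conn (fillV (T d k ∪ T d' k) (s.cut ω)) (dom d d' k) s.x v := by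
  simp [FX, clus]

private theorem mem_FY {s : Src} {d d' : Side} {k : ℕ} {ω : Config} {v : Vert} :
    v ∈ FY s d d' k ω ↔ Conn (fillV (T d k ∪ T d' k) (s.cut ω)) (dom d d' k) s.y v := by
  simp [FY, clus]

/-- Once the two clusters are known, `Sep` is decided by the edges touching them and the edges in the
targets. -/
private theorem locS_sep_val (s : Src) (d d' : Side) (k : ℕ) {C : Set Vert}
    (hCT : T d k ∪ T d' k ⊆ C) (S S' : Set Vert) :
    LocS (touch (dom d d' k) (S ∪ S') ∪ inE C)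
      {ω | ω ∈ Sep s d d' k ∧ FX s d d' k ω = S ∧ FY s d d' k ω = S'} := by
  rintro ω ω' h ⟨⟨h1, h2, h3, h4, h5⟩, hX, hY⟩
  have hX' : FX s d d' k ω' = S := locS_FX s d d' k S ω ω'
    (fun e he => h e (Or.inl (touch_mono Set.subset_union_left he))) hX
  have hY' : FY s d d' k ω' = S' := locS_FY s d d' k S' ω ω'
    (fun e he => h e (Or.inl (touch_mono Set.subset_union_right he))) hY
  have cX : ∀ v, Conn (fillV (T d k ∪ T d' k) (s.cut ω')) (dom d d' k) s.x v →
      Conn (fillV (T d k ∪ T d' k) (s.cut ω)) (dom d d' k) s.x v := fun v hv => by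
    rw [← mem_FX] at hv ⊢
    rw [hX]
    rw [hX'] at hv
    exact hv
  have cY : ∀ v, Conn (fillV (T d k ∪ T d' k) (s.cut ω')) (dom d d' k) s.y v →
      Conn (fillV (T d k ∪ T d' k) (s.cut ω)) (dom d d' k) s.y v := fun v hv => by
    rw [← mem_FY] at hv ⊢
    rw [hY]
    rw [hY'] at hv
    exact hv
  refine ⟨⟨?_, ?_, fun hc => h3 (cX _ hc), fun v hv hc => h4 v hv (cX _ hc),
    fun v hv hc => h5 v hv (cY _ hc)⟩, hX', hY'⟩
  · refine fence_congr (fun e he => cut_congr s (h e (Or.inr ?_))) (fun e he => cut_congr s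
      (h e (Or.inl ?_))) h1
    · exact inE_mono (fun v hv => hCT (Or.inl hv)) he
    · refine touch_mono (fun v hv => Or.inl ?_) he
      rw [← hX]
      exact clus_cut_sub hv
  · refine fence_congr (fun e he => cut_congr s (h e (Or.inr ?_))) (fun e he => cut_congr s
      (h e (Or.inl ?_))) h2
    · exact inE_mono (fun v hv => hCT (Or.inr hv)) he
    · refine touch_mono (fun v hv => Or.inr ?_) he
      rw [← hY]
      exact clus_cut_sub hv

theorem corridor_prob {q : I} {π : Edge → Edge} {s : Src} {d d' : Side} {k : ℕ} (hk : 1 ≤ k)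
    {C : Set Vert} {Np : Set Config} {H : Set Vert → Set Config} {c₁ c₂ : ℝ} (hc₁ : 0 ≤ c₁)
    (hc₂ : 0 ≤ c₂) (hinj : Set.InjOn π (inE (dom d d' k ∪ C)))
    (hCT : T d k ∪ T d' k ⊆ C) (hC : C ∩ dom d d' k ⊆ T d k ∪ T d' k) (hCf : C.Finite)
    (hN : LocS (inE C) Np) (iN : Incr Np) (hN1 : c₁ ≤ Pr q {ω | pb π ω ∈ Np})
    (hH : ∀ S, LocS (det π d d' k C S)ᶜ (H S))
    (hHΛ : ∃ Λ : Finset Edge, ∀ S, LocalOn Λ (H S))
    (hH1 : ∀ S, c₂ ≤ Pr q {ω | pb π ω ∈ H S}) :
    c₁ * c₂ * Pr q (Sep s d d' k) ≤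
      Pr q {ω | pb π ω ∈ Sep s d d' k ∧ pb π ω ∈ Np ∧
        pb π ω ∈ H (FX s d d' k (pb π ω) ∪ FY s d d' k (pb π ω))} := by
  classical
  obtain ⟨ΛH, hΛH⟩ := hHΛ
  have hfin : (inE (dom d d' k ∪ C)).Finite := inE_finite ((dom_finite d d' k).union hCf)
  obtain ⟨Λ, hΛ⟩ : ∃ Λ : Finset Edge, Λ = (hfin.toFinset ∪ ΛH).image π := ⟨_, rfl⟩
  have hsub : ∀ t : Set Edge, t ⊆ inE (dom d d' k ∪ C) → π '' t ⊆ ↑Λ := by
    rintro t ht _ ⟨e, he, rfl⟩
    rw [hΛ, Finset.mem_coe]
    exact Finset.mem_image_of_mem _ (Finset.mem_union_left _ (hfin.mem_toFinset.2 (ht he)))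
  have hloc : ∀ {t : Set Edge} {A : Set Config}, LocS t A → t ⊆ inE (dom d d' k ∪ C) →
      LocalOn Λ {ω | pb π ω ∈ A} := fun h ht => (locS_pb h).localOn' (hsub _ ht)
  have hdomsub : inE (dom d d' k) ⊆ inE (dom d d' k ∪ C) := inE_mono Set.subset_union_left
  have hCsub : inE C ⊆ inE (dom d d' k ∪ C) := inE_mono Set.subset_union_right
  have hZdom : inE (dom d d' k) \ inE (T d k ∪ T d' k) ⊆ inE (dom d d' k ∪ C) :=
    fun e he => hdomsub he.1
  -- Step A
  have hA : c₁ * Pr q (Sep s d d' k) ≤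
      Pr q {ω | pb π ω ∈ Sep s d d' k ∧ pb π ω ∈ Np} := by
    have hdisj : π '' inE C ⊆ (π '' (inE (dom d d' k) \ inE (T d k ∪ T d' k)))ᶜ := by
      rintro _ ⟨e, he, rfl⟩ ⟨e', he', heq⟩
      have h1 : e' = e := hinj (hdomsub he'.1) (hCsub he) heq
      subst h1
      exact he'.2 ⟨hC ⟨he.1, he'.1.1⟩, hC ⟨he.2, he'.1.2⟩⟩
    have h1 := fkg_cond (q := q) (Λ := Λ)
      (t := π '' (inE (dom d d' k) \ inE (T d k ∪ T d' k)))
      (A := {ω | pb π ω ∈ SepA s d d' k}) (G := {ω | pb π ω ∈ SepG s d d' k})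
      (H := {ω | pb π ω ∈ Np})
      (hloc (locS_sepA s d d' k) hZdom) (locS_pb (locS_sepA s d d' k))
      (hloc (locS_sepG s d d' k) hdomsub) (incr_pb (incr_sepG s d d' k))
      (hloc hN hCsub) ((locS_pb hN).mono' hdisj) (incr_pb iN)
    have h2 : {ω | pb π ω ∈ SepA s d d' k} ∩ {ω | pb π ω ∈ SepG s d d' k} =
        {ω | pb π ω ∈ Sep s d d' k} := by
      rw [sep_eq]; rfl
    have h3 : Pr q {ω | pb π ω ∈ Sep s d d' k} = Pr q (Sep s d d' k) := by
      have hl : LocalOn (inE_finite (dom_finite d d' k)).toFinset (Sep s d d' k) := by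
        rw [sep_eq]
        refine LocS.localOn' (t := inE (dom d d' k)) ?_ (by simp)
        exact ((locS_sepA s d d' k).mono' Set.sdiff_subset).inter' (locS_sepG s d d' k)
      refine Pr_comp hl ?_
      intro e he e' he' heq
      rw [Set.Finite.coe_toFinset] at he he'
      exact hinj (hdomsub he) (hdomsub he') heq
    rw [h2, h3] at h1
    calc c₁ * Pr q (Sep s d d' k) ≤ Pr q (Sep s d d' k) * Pr q {ω | pb π ω ∈ Np} := by
          rw [mul_comm]
          exact mul_le_mul_of_nonneg_left hN1 Pr_nonneg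
      _ ≤ _ := h1
      _ ≤ _ := Pr_mono fun ω hω => hω
  -- Step B
  have hB := markov_indep (q := q) (Λ := Λ) (c := c₂)
    (fun ω => (FX s d d' k (pb π ω), FY s d d' k (pb π ω))) (fun _ => True)
    (fun i => π '' (touch (dom d d' k) (i.1 ∪ i.2) ∪ inE C))
    (fun i => {ω | pb π ω ∈ {η | η ∈ Sep s d d' k ∧ FX s d d' k η = i.1 ∧ FY s d d' k η = i.2} ∩ Np})
    (fun i => {ω | pb π ω ∈ H (i.1 ∪ i.2)}) ?_ ?_ ?_ ?_ ?_ ?_ ?_ hc₂
  · refine le_trans ?_ (hB.trans (Pr_mono ?_))
    · have e : c₁ * c₂ * Pr q (Sep s d d' k) = c₂ * (c₁ * Pr q (Sep s d d' k)) := by ring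
      rw [e]
      refine (mul_le_mul_of_nonneg_left hA hc₂).trans
        (mul_le_mul_of_nonneg_left (Pr_mono ?_) hc₂)
      intro ω hω
      exact ⟨trivial, ⟨hω.1, rfl, rfl⟩, hω.2⟩
    · intro ω hω
      exact ⟨hω.2.1.1.1, hω.2.1.2, hω.2.2⟩
  · -- the values are local
    rintro ⟨S, S'⟩
    have h1 : LocS (inE (dom d d' k)) {η | FX s d d' k η = S ∧ FY s d d' k η = S'} :=
      fun ω ω' h hω => ⟨locS_FX s d d' k S ω ω' (fun e he => h e he.1) hω.1,
        locS_FY s d d' k S' ω ω' (fun e he => h e he.1) hω.2⟩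
    have h2 := hloc h1 hdomsub
    have h3 : {ω | (FX s d d' k (pb π ω), FY s d d' k (pb π ω)) = (S, S')} =
        {ω | pb π ω ∈ {η | FX s d d' k η = S ∧ FY s d d' k η = S'}} := by
      ext ω
      simp only [Set.mem_ofPred_eq, Prod.mk.injEq]
    rw [h3]
    exact h2
  · rintro ⟨S, S'⟩ -
    have h1 : LocS (touch (dom d d' k) (S ∪ S') ∪ inE C)
        {η | FX s d d' k η = S ∧ FY s d d' k η = S'} :=
      fun ω ω' h hω => ⟨locS_FX s d d' k S ω ω'
          (fun e he => h e (Or.inl (touch_mono Set.subset_union_left he))) hω.1,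
        locS_FY s d d' k S' ω ω'
          (fun e he => h e (Or.inl (touch_mono Set.subset_union_right he))) hω.2⟩
    have h2 := locS_pb (π := π) h1
    have h3 : {ω | (FX s d d' k (pb π ω), FY s d d' k (pb π ω)) = (S, S')} =
        {ω | pb π ω ∈ {η | FX s d d' k η = S ∧ FY s d d' k η = S'}} := by
      ext ω
      simp only [Set.mem_ofPred_eq, Prod.mk.injEq]
    rw [h3]
    exact h2
  · rintro ⟨S, S'⟩
    refine hloc (t := touch (dom d d' k) (S ∪ S') ∪ inE C) ?_ ?_
    · exact (locS_sep_val s d d' k hCT S S').inter' (hN.mono' Set.subset_union_right)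
    · rintro e (he | he)
      · exact hdomsub he.1
      · exact hCsub he
  · rintro ⟨S, S'⟩ -
    exact locS_pb ((locS_sep_val s d d' k hCT S S').inter' (hN.mono' Set.subset_union_right))
  · rintro ⟨S, S'⟩ ω ω' h hω
    refine hΛH (S ∪ S') _ _ (fun e he => h (π e) ?_) hω
    rw [hΛ]
    exact Finset.mem_image_of_mem _ (Finset.mem_union_right _ he)
  · rintro ⟨S, S'⟩ - ω ω' h hω
    refine hH (S ∪ S') _ _ (fun e he => h (π e) ?_) hω
    rintro ⟨e', he', heq⟩
    exact he ⟨e', he', heq.symm⟩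
  · rintro ⟨S, S'⟩ -
    exact hH1 (S ∪ S')

end Pool.Agent.H59.EX

end

section

/-!
# Seals: confinement of clusters by closed annuli (purely graph-theoretic)
-/

open MeasureTheory ProbabilityTheory unitInterval

namespace Pool.Agent.H59.EX

open Pool.Agent.H89.Perc

/-- With the edges of `t` closed, no path leads from `ball g ρ` out of `ball g (3 ρ)`, for all
centres `g ∈ G`. -/
def Seal (G : Finset Vert) (ρ : ℕ) (t : Set Edge) : Set Config :=
  {ω | ∀ g ∈ G, ∀ u ∈ ball g ρ, ∀ v, v ∉ ball g (3 * ρ) → ¬ Conn (closeS t ω) Set.univ u v}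

/-- The centres `(ρ i, ρ j)`, `|i|, |j| ≤ K`. -/
noncomputable def grid (ρ K : ℕ) : Finset Vert :=
  (Finset.Icc (-(K : ℤ)) K ×ˢ Finset.Icc (-(K : ℤ)) K).image fun z => ((ρ : ℤ) * z.1, (ρ : ℤ) * z.2)

theorem mem_grid {ρ K : ℕ} {i j : ℤ} (hi : |i| ≤ K) (hj : |j| ≤ K) :
    (((ρ : ℤ) * i, (ρ : ℤ) * j) : Vert) ∈ grid ρ K := by
  rw [abs_le] at hi hj
  have h : ((i, j) : ℤ × ℤ) ∈ Finset.Icc (-(K : ℤ)) K ×ˢ Finset.Icc (-(K : ℤ)) K :=
    Finset.mem_product.2 ⟨Finset.mem_Icc.2 hi, Finset.mem_Icc.2 hj⟩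
  exact Finset.mem_image_of_mem (fun z : ℤ × ℤ => (((ρ : ℤ) * z.1, (ρ : ℤ) * z.2) : Vert)) h

/-- The grid is `ρ`-dense in `ball 0 (K ρ)`. -/
theorem exists_grid {ρ K : ℕ} (hρ : 1 ≤ ρ) {v : Vert} (hv : v ∈ ball 0 (K * ρ)) :
    ∃ g ∈ grid ρ K, v ∈ ball g ρ := by
  have h1 : ∀ a : ℤ, |a| ≤ (K * ρ : ℕ) → ∃ i : ℤ, |i| ≤ K ∧ (ρ : ℤ) * i - ρ ≤ a ∧ a ≤ ρ * i + ρ := by
    intro a ha
    have hρ0 : (0 : ℤ) < ρ := by exact_mod_cast hρ
    rw [abs_le] at ha
    push_cast at ha
    rcases le_total 0 a with h0 | h0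
    · refine ⟨a / ρ, ?_, ?_, ?_⟩
      · rw [abs_le]
        refine ⟨le_trans (by omega) (Int.ediv_nonneg h0 hρ0.le), ?_⟩
        exact Int.ediv_le_of_le_mul hρ0 ha.2
      · have := Int.mul_ediv_self_le (x := a) (k := ρ) hρ0.ne'
        omega
      · have := Int.lt_mul_ediv_self_add (x := a) (k := ρ) hρ0
        omega
    · refine ⟨-((-a) / ρ), ?_, ?_, ?_⟩
      · rw [abs_neg, abs_le]
        refine ⟨le_trans (by omega) (Int.ediv_nonneg (by omega) hρ0.le), ?_⟩
        exact Int.ediv_le_of_le_mul hρ0 (by omega)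
      · have := Int.lt_mul_ediv_self_add (x := -a) (k := ρ) hρ0
        have h2 : (ρ : ℤ) * -(-a / ρ) = -(ρ * (-a / ρ)) := by ring
        omega
      · have := Int.mul_ediv_self_le (x := -a) (k := ρ) hρ0.ne'
        have h2 : (ρ : ℤ) * -(-a / ρ) = -(ρ * (-a / ρ)) := by ring
        omega
  rw [mem_ball] at hv
  simp only [Prod.fst_zero, Prod.snd_zero, zero_sub, zero_add] at hv
  obtain ⟨i, hi, hi1, hi2⟩ := h1 v.1 (abs_le.2 ⟨hv.1, hv.2.1⟩)
  obtain ⟨j, hj, hj1, hj2⟩ := h1 v.2 (abs_le.2 ⟨hv.2.2.1, hv.2.2.2⟩)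
  refine ⟨_, mem_grid hi hj, ?_⟩
  rw [mem_ball]
  exact ⟨hi1, hi2, hj1, hj2⟩

/-- **Seal lemma.**  `η` is a configuration which is below `ω` off `t`; open edges of `η` leave `S`
only at the vertices of `Ex`, do not enter `F` from `S`, and enter `F` from elsewhere only far from
`Ex`; open edges off `S ∪ F` are not in `t`.  If `ω` is sealed near `Ex`, then the cluster of `S`
stays near `S` and off `F`. -/
theorem seal_confine {η ω : Config} {W S F Ex : Set Vert} {t : Set Edge} {G : Finset Vert} {ρ : ℕ}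
    (hηω : ∀ e, e ∉ t → η e = true → ω e = true)
    (hseal : ω ∈ Seal G ρ t)
    (hG : ∀ a ∈ Ex, ∃ g ∈ G, a ∈ ball g ρ)
    (h1 : ∀ a b e, Joins e a b → η e = true → a ∈ W → b ∈ W → a ∈ S → b ∉ S →
      a ∈ Ex ∧ b ∉ F ∧ e ∉ t)
    (h2 : ∀ a b e, Joins e a b → η e = true → a ∈ W → b ∈ W → a ∉ S → a ∉ F → b ∈ F →
      ∀ x ∈ Ex, b ∉ ball x (4 * ρ))
    (h3 : ∀ a b e, Joins e a b → η e = true → a ∈ W → b ∈ W → a ∉ S → a ∉ F → b ∉ S → b ∉ F →
      e ∉ t)
    (h4 : ∀ a b e, Joins e a b → η e = true → a ∈ W → b ∈ W → a ∉ S → a ∉ F → b ∈ F → e ∉ t)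
    {x z : Vert} (hx : x ∈ S) (h : Conn η W x z) :
    z ∈ S ∨ (z ∉ F ∧ ∃ a ∈ Ex, z ∈ ball a (4 * ρ)) := by
  have key : z ∈ S ∨ (z ∉ S ∧ z ∉ F ∧ ∃ a ∈ Ex, Conn (closeS t ω) Set.univ a z) := by
    refine h.induction_right
      (P := fun z => z ∈ S ∨ (z ∉ S ∧ z ∉ F ∧ ∃ a ∈ Ex, Conn (closeS t ω) Set.univ a z))
      (Or.inl hx) ?_
    rintro a b _ ⟨haW, hbW, e, hj, ho⟩ ih
    have hopen : e ∉ t → (closeS t ω) e = true := by
      intro het
      simp only [closeS, Bool.and_eq_true, decide_eq_true_eq]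
      exact ⟨hηω e het ho, het⟩
    by_cases hbS : b ∈ S
    · exact Or.inl hbS
    rcases ih with haS | ⟨haS, haF, c, hc, hcc⟩
    · obtain ⟨k1, k2, k3⟩ := h1 a b e hj ho haW hbW haS hbS
      exact Or.inr ⟨hbS, k2, a, k1, (Step.conn ⟨trivial, trivial, e, hj, hopen k3⟩)⟩
    · by_cases hbF : b ∈ F
      · exfalso
        have hcb : Conn (closeS t ω) Set.univ c b :=
          hcc.tail ⟨trivial, trivial, e, hj, hopen (h4 a b e hj ho haW hbW haS haF hbF)⟩
        obtain ⟨g, hg, hcg⟩ := hG c hc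
        have hb : b ∈ ball g (3 * ρ) := by
          by_contra hb
          exact hseal g hg c hcg b hb hcb
        refine h2 a b e hj ho haW hbW haS haF hbF c hc ?_
        rw [mem_ball] at hb hcg ⊢
        push_cast at hb ⊢
        omega
      · exact Or.inr ⟨hbS, hbF, c, hc, hcc.tail ⟨trivial, trivial, e, hj,
          hopen (h3 a b e hj ho haW hbW haS haF hbS hbF)⟩⟩
  rcases key with h | ⟨-, hF, a, ha, hac⟩
  · exact Or.inl h
  · refine Or.inr ⟨hF, a, ha, ?_⟩
    obtain ⟨g, hg, hag⟩ := hG a ha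
    have hz : z ∈ ball g (3 * ρ) := by
      by_contra hz
      exact hseal g hg a hag z hz hac
    rw [mem_ball] at hz hag ⊢
    push_cast at hz ⊢
    omega

theorem seal_anti {G : Finset Vert} {ρ : ℕ} {t : Set Edge} {ω ω' : Config}
    (h : ω' ∈ Seal G ρ t) (hω : ∀ e, e ∉ t → ω e = true → ω' e = true) : ω ∈ Seal G ρ t := by
  intro g hg u hu v hv hc
  refine h g hg u hu v hv (hc.mono le_rfl ?_)
  intro e he
  simp only [closeS, Bool.and_eq_true, decide_eq_true_eq] at he ⊢
  exact ⟨hω e he.2 he.1, he.2⟩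

theorem locS_seal (G : Finset Vert) (ρ : ℕ) (t : Set Edge) : LocS tᶜ (Seal G ρ t) := by
  intro ω ω' h hω
  refine seal_anti hω fun e he ho => ?_
  rw [h e he]
  exact ho

theorem seal_decr (G : Finset Vert) (ρ : ℕ) (t : Set Edge) : Incr (Seal G ρ t)ᶜ := by
  intro ω ω' h hω hω'
  exact hω (seal_anti hω' fun e _ he => h e he)

end Pool.Agent.H59.EX

end
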