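import Pool.Agent.H31.PT.H85.Strict.Corr
import Pool.Agent.H31.PT.M03
import Pool.Agent.H31.PT.M04
import Pool.Agent.H31.PT.M05

/-! The parts of this file: H29.Sep.Ring, H89.Perc.TorusSym, H31.EX.ArmReg, H59.EX.Fact, H57.EX.Defs, H57.EX.Walk, H57.EX.Base, H26.HP.Reg, H26.HP.One, H59.EX.GeoDef. -/

section

/-!
# Open circuits: hooking and meeting
-/

open MeasureTheory ProbabilityTheory unitInterval

namespace Pool.Agent.H29.Sep

open Pool.Agent.H89.Perc

/-- Restrict the configuration `η` to the edges inside `S`. -/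
private noncomputable def ring_cut (η : Config) (S : Set Vert) : Config := by
  classical exact fun e => decide (η e = true ∧ src e ∈ S ∧ tgt e ∈ S)

private theorem ring_cut_of {η : Config} {S R : Set Vert} {u v : Vert} (h : Conn η S u v)
    (hS : S ⊆ R) : Conn (ring_cut η S) R u v := by
  refine h.induction_right (P := fun x => Conn (ring_cut η S) R u x)
    (Conn.refl (hS h.mem_left)) ?_
  rintro a b _ ⟨h1, h2, e, h3, h4⟩ ih
  refine ih.tail ⟨hS h1, hS h2, e, h3, ?_⟩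
  simp only [ring_cut, decide_eq_true_eq]
  refine ⟨h4, ?_⟩
  rcases h3 with ⟨h5, h6⟩ | ⟨h5, h6⟩
  · exact ⟨h5 ▸ h1, h6 ▸ h2⟩
  · exact ⟨h6 ▸ h2, h5 ▸ h1⟩

private theorem ring_of_cut {η : Config} {S R : Set Vert} {u v : Vert} (hu : u ∈ S)
    (h : Conn (ring_cut η S) R u v) : Conn η S u v := by
  refine h.induction_right (P := fun x => Conn η S u x) (Conn.refl hu) ?_
  rintro a b _ ⟨_, _, e, h3, h4⟩ ih
  simp only [ring_cut, decide_eq_true_eq] at h4
  refine ih.tail ⟨ih.mem_right, ?_, e, h3, h4.1⟩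
  rcases h3 with ⟨_, h6⟩ | ⟨_, h6⟩
  · rw [h6]; exact h4.2.2
  · rw [h6]; exact h4.2.1

/-- A left-right crossing is met by a bottom-top path in a smaller domain. -/
private theorem ring_cross_y {ω η : Config} {a b c d : ℤ} {S : Set Vert} {u v u' v' : Vert}
    (h : Conn ω (rect a b c d) u v) (hu : u.1 = a) (hv : v.1 = b)
    (h' : Conn η S u' v') (hS : S ⊆ rect a b c d) (hu' : u'.2 = c) (hv' : v'.2 = d) :
    ∃ w, Conn ω (rect a b c d) u w ∧ Conn η S u' w := by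
  obtain ⟨w, h1, h2⟩ := cross h hu hv (ring_cut_of h' hS) hu' hv'
  exact ⟨w, h1, ring_of_cut h'.mem_left h2⟩

/-- A bottom-top crossing is met by a left-right path in a smaller domain. -/
private theorem ring_cross_x {ω η : Config} {a b c d : ℤ} {S : Set Vert} {u v u' v' : Vert}
    (h : Conn ω (rect a b c d) u v) (hu : u.2 = c) (hv : v.2 = d)
    (h' : Conn η S u' v') (hS : S ⊆ rect a b c d) (hu' : u'.1 = a) (hv' : v'.1 = b) :
    ∃ w, Conn ω (rect a b c d) u w ∧ Conn η S u' w := by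
  obtain ⟨w, h1, h2⟩ := cross (ring_cut_of h' hS) hu' hv' h hu hv
  exact ⟨w, h2, ring_of_cut h'.mem_left h1⟩

/-- The four crossings of a circuit, all of them inside the ring. -/
private theorem ring_data {ω : Config} {v : Vert} {s : ℕ} (hs : 1 ≤ s) (h : ω ∈ Circ v s) :
    (∃ u u' : Vert, u.1 = v.1 - 3 * s ∧ u'.1 = v.1 + 3 * s ∧
      Conn ω (rect (v.1 - 3 * s) (v.1 + 3 * s) (v.2 + s + 1) (v.2 + 3 * s)) u u' ∧
      ∀ w, Conn ω (rect (v.1 - 3 * s) (v.1 + 3 * s) (v.2 + s + 1) (v.2 + 3 * s)) u w →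
        w ∈ ring ω v s) ∧
    (∃ u u' : Vert, u.1 = v.1 - 3 * s ∧ u'.1 = v.1 + 3 * s ∧
      Conn ω (rect (v.1 - 3 * s) (v.1 + 3 * s) (v.2 - 3 * s) (v.2 - s - 1)) u u' ∧
      ∀ w, Conn ω (rect (v.1 - 3 * s) (v.1 + 3 * s) (v.2 - 3 * s) (v.2 - s - 1)) u w →
        w ∈ ring ω v s) ∧
    (∃ u u' : Vert, u.2 = v.2 - 3 * s ∧ u'.2 = v.2 + 3 * s ∧
      Conn ω (rect (v.1 + s + 1) (v.1 + 3 * s) (v.2 - 3 * s) (v.2 + 3 * s)) u u' ∧
      ∀ w, Conn ω (rect (v.1 + s + 1) (v.1 + 3 * s) (v.2 - 3 * s) (v.2 + 3 * s)) u w →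
        w ∈ ring ω v s) ∧
    (∃ u u' : Vert, u.2 = v.2 - 3 * s ∧ u'.2 = v.2 + 3 * s ∧
      Conn ω (rect (v.1 - 3 * s) (v.1 - s - 1) (v.2 - 3 * s) (v.2 + 3 * s)) u u' ∧
      ∀ w, Conn ω (rect (v.1 - 3 * s) (v.1 - s - 1) (v.2 - 3 * s) (v.2 + 3 * s)) u w →
        w ∈ ring ω v s) := by
  obtain ⟨⟨t, t', ht1, ht2, hT⟩, ⟨b, b', hb1, hb2, hB⟩, ⟨r, r', hr1, hr2, hR⟩,
    ⟨l, l', hl1, hl2, hL⟩⟩ := h
  have sT : rect (v.1 - 3 * s) (v.1 + 3 * s) (v.2 + s + 1) (v.2 + 3 * s) ⊆ ann v s (3 * s) := by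
    intro w hw
    simp only [rect, ann, ball, Set.mem_ofPred_eq, Set.mem_sdiff, Nat.cast_mul, Nat.cast_ofNat]
      at hw ⊢
    omega
  have sB : rect (v.1 - 3 * s) (v.1 + 3 * s) (v.2 - 3 * s) (v.2 - s - 1) ⊆ ann v s (3 * s) := by
    intro w hw
    simp only [rect, ann, ball, Set.mem_ofPred_eq, Set.mem_sdiff, Nat.cast_mul, Nat.cast_ofNat]
      at hw ⊢
    omega
  have sR : rect (v.1 + s + 1) (v.1 + 3 * s) (v.2 - 3 * s) (v.2 + 3 * s) ⊆ ann v s (3 * s) := by
    intro w hw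
    simp only [rect, ann, ball, Set.mem_ofPred_eq, Set.mem_sdiff, Nat.cast_mul, Nat.cast_ofNat]
      at hw ⊢
    omega
  have sL : rect (v.1 - 3 * s) (v.1 - s - 1) (v.2 - 3 * s) (v.2 + 3 * s) ⊆ ann v s (3 * s) := by
    intro w hw
    simp only [rect, ann, ball, Set.mem_ofPred_eq, Set.mem_sdiff, Nat.cast_mul, Nat.cast_ofNat]
      at hw ⊢
    omega
  have ctr : Conn ω (ann v s (3 * s)) t r := by
    obtain ⟨z, h1, h2⟩ := Pool.Agent.H85.Strict.hv_meet hT (by omega) (by omega) hR (by omega)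
      (by omega) (by omega) (by omega)
    exact (h1.mono_set sT).trans (h2.mono_set sR).symm
  have ctl : Conn ω (ann v s (3 * s)) t l := by
    obtain ⟨z, h1, h2⟩ := Pool.Agent.H85.Strict.hv_meet hT (by omega) (by omega) hL (by omega)
      (by omega) (by omega) (by omega)
    exact (h1.mono_set sT).trans (h2.mono_set sL).symm
  have cbr : Conn ω (ann v s (3 * s)) b r := by
    obtain ⟨z, h1, h2⟩ := Pool.Agent.H85.Strict.hv_meet hB (by omega) (by omega) hR (by omega)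
      (by omega) (by omega) (by omega)
    exact (h1.mono_set sB).trans (h2.mono_set sR).symm
  refine ⟨⟨t, t', ht1, ht2, hT, fun w hw => ?_⟩, ⟨b, b', hb1, hb2, hB, fun w hw => ?_⟩,
    ⟨r, r', hr1, hr2, hR, fun w hw => ?_⟩, ⟨l, l', hl1, hl2, hL, fun w hw => ?_⟩⟩
  · exact ⟨t, t', ht1, ht2, hT, hw.mono_set sT⟩
  · exact ⟨t, t', ht1, ht2, hT, (ctr.trans cbr.symm).trans (hw.mono_set sB)⟩
  · exact ⟨t, t', ht1, ht2, hT, ctr.trans (hw.mono_set sR)⟩
  · exact ⟨t, t', ht1, ht2, hT, ctl.trans (hw.mono_set sL)⟩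

theorem circ_ring {ω : Config} {v : Vert} {s : ℕ} (hs : 1 ≤ s) (h : ω ∈ Circ v s) :
    IsRing ω v s (ring ω v s) := by
  refine ⟨?_, ?_, ?_⟩
  · rintro w ⟨_, _, _, _, _, hw⟩
    exact hw.mem_right
  · rintro a ⟨t, t', ht1, ht2, hT, ha⟩ b ⟨y, y', hy1, hy2, hY, hb⟩
    obtain ⟨_, _, ⟨r, r', hr1, hr2, hR⟩, _⟩ := h
    have sT : rect (v.1 - 3 * s) (v.1 + 3 * s) (v.2 + s + 1) (v.2 + 3 * s) ⊆
        ann v s (3 * s) := by
      intro w hw
      simp only [rect, ann, ball, Set.mem_ofPred_eq, Set.mem_sdiff, Nat.cast_mul,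
        Nat.cast_ofNat] at hw ⊢
      omega
    have sR : rect (v.1 + s + 1) (v.1 + 3 * s) (v.2 - 3 * s) (v.2 + 3 * s) ⊆
        ann v s (3 * s) := by
      intro w hw
      simp only [rect, ann, ball, Set.mem_ofPred_eq, Set.mem_sdiff, Nat.cast_mul,
        Nat.cast_ofNat] at hw ⊢
      omega
    obtain ⟨z, h1, h2⟩ := Pool.Agent.H85.Strict.hv_meet hT (by omega) (by omega) hR (by omega)
      (by omega) (by omega) (by omega)
    obtain ⟨z', h1', h2'⟩ := Pool.Agent.H85.Strict.hv_meet hY (by omega) (by omega) hR (by omega)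
      (by omega) (by omega) (by omega)
    have c1 : Conn ω (ann v s (3 * s)) t r := (h1.mono_set sT).trans (h2.mono_set sR).symm
    have c2 : Conn ω (ann v s (3 * s)) y r := (h1'.mono_set sT).trans (h2'.mono_set sR).symm
    exact (ha.symm.trans (c1.trans c2.symm)).trans hb
  · intro η D u u' hc hu hu'
    obtain ⟨⟨t, t', ht1, ht2, hT, hT'⟩, ⟨b, b', hb1, hb2, hB, hB'⟩, ⟨r, r', hr1, hr2, hR, hR'⟩,
      ⟨l, l', hl1, hl2, hL, hL'⟩⟩ := ring_data hs h
    have hu3 : u ∈ ball v (3 * s) := by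
      simp only [mem_ball, Nat.cast_mul, Nat.cast_ofNat] at hu ⊢
      omega
    obtain ⟨x, hx, hux⟩ := hc.to_sphere hu3 hu'.symm
    have hx2 := hx.2
    have hx1 := hx.1
    simp only [mem_ball, Nat.cast_mul, Nat.cast_ofNat] at hu hx1 hx2
    rcases hx2 with h1 | h1 | h1 | h1
    · -- left side
      obtain ⟨p, q, hp, hq, k1, k2, k3⟩ := hux.symm.cross_x (a := v.1 - 3 * s)
        (b := v.1 - s - 1) (by omega) (by omega) (by omega)
      obtain ⟨w, g1, g2⟩ := ring_cross_x hL hl1 hl2 k1 (by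
        rintro z ⟨⟨_, hz⟩, hz'⟩
        simp only [mem_ball, Nat.cast_mul, Nat.cast_ofNat] at hz
        simp only [rect, Set.mem_ofPred_eq] at hz' ⊢
        omega) hp hq
      refine ⟨w, hL' w g1, ?_⟩
      exact (hux.mono_set fun z hz => hz.1).trans
        ((k2.trans (g2.mono_set fun z hz => hz.1)).mono_set fun z hz => hz.1)
    · -- right side
      obtain ⟨p, q, hp, hq, k1, k2, k3⟩ := hux.cross_x (a := v.1 + s + 1)
        (b := v.1 + 3 * s) (by omega) (by omega) (by omega)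
      obtain ⟨w, g1, g2⟩ := ring_cross_x hR hr1 hr2 k1 (by
        rintro z ⟨⟨_, hz⟩, hz'⟩
        simp only [mem_ball, Nat.cast_mul, Nat.cast_ofNat] at hz
        simp only [rect, Set.mem_ofPred_eq] at hz' ⊢
        omega) hp hq
      exact ⟨w, hR' w g1, (k2.trans (g2.mono_set fun z hz => hz.1)).mono_set fun z hz => hz.1⟩
    · -- bottom side
      obtain ⟨p, q, hp, hq, k1, k2, k3⟩ := hux.symm.cross_y (a := v.2 - 3 * s)
        (b := v.2 - s - 1) (by omega) (by omega) (by omega)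
      obtain ⟨w, g1, g2⟩ := ring_cross_y hB hb1 hb2 k1 (by
        rintro z ⟨⟨_, hz⟩, hz'⟩
        simp only [mem_ball, Nat.cast_mul, Nat.cast_ofNat] at hz
        simp only [rect, Set.mem_ofPred_eq] at hz' ⊢
        omega) hp hq
      refine ⟨w, hB' w g1, ?_⟩
      exact (hux.mono_set fun z hz => hz.1).trans
        ((k2.trans (g2.mono_set fun z hz => hz.1)).mono_set fun z hz => hz.1)
    · -- top side
      obtain ⟨p, q, hp, hq, k1, k2, k3⟩ := hux.cross_y (a := v.2 + s + 1)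
        (b := v.2 + 3 * s) (by omega) (by omega) (by omega)
      obtain ⟨w, g1, g2⟩ := ring_cross_y hT ht1 ht2 k1 (by
        rintro z ⟨⟨_, hz⟩, hz'⟩
        simp only [mem_ball, Nat.cast_mul, Nat.cast_ofNat] at hz
        simp only [rect, Set.mem_ofPred_eq] at hz' ⊢
        omega) hp hq
      exact ⟨w, hT' w g1, (k2.trans (g2.mono_set fun z hz => hz.1)).mono_set fun z hz => hz.1⟩

/-- Rings whose centres are at distance at most `4 s` meet. -/
theorem circ_meet {ω : Config} {v v' : Vert} {s : ℕ} (hs : 1 ≤ s) (h : ω ∈ Circ v s)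
    (h' : ω ∈ Circ v' s) (h1 : |v.1 - v'.1| ≤ 4 * s) (h2 : |v.2 - v'.2| ≤ 4 * s) :
    ∃ w, w ∈ ring ω v s ∧ w ∈ ring ω v' s := by
  obtain ⟨-, -, ⟨r, r', hr1, hr2, hR, hR'⟩, ⟨l, l', hl1, hl2, hL, hL'⟩⟩ := ring_data hs h
  obtain ⟨⟨t, t', ht1, ht2, hT, hT'⟩, ⟨b, b', hb1, hb2, hB, hB'⟩, -, -⟩ := ring_data hs h'
  rw [abs_le] at h1 h2
  rcases le_total v.1 v'.1 with k1 | k1 <;> rcases le_total v.2 v'.2 with k2 | k2
  · obtain ⟨z, g1, g2⟩ := Pool.Agent.H85.Strict.hv_meet hB (by omega) (by omega) hR (by omega)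
      (by omega) (by omega) (by omega)
    exact ⟨z, hR' z g2, hB' z g1⟩
  · obtain ⟨z, g1, g2⟩ := Pool.Agent.H85.Strict.hv_meet hT (by omega) (by omega) hR (by omega)
      (by omega) (by omega) (by omega)
    exact ⟨z, hR' z g2, hT' z g1⟩
  · obtain ⟨z, g1, g2⟩ := Pool.Agent.H85.Strict.hv_meet hB (by omega) (by omega) hL (by omega)
      (by omega) (by omega) (by omega)
    exact ⟨z, hL' z g2, hB' z g1⟩
  · obtain ⟨z, g1, g2⟩ := Pool.Agent.H85.Strict.hv_meet hT (by omega) (by omega) hL (by omega)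
      (by omega) (by omega) (by omega)
    exact ⟨z, hL' z g2, hT' z g1⟩

end Pool.Agent.H29.Sep

end

section

/-!
# Symmetries of the winding event
-/

open MeasureTheory ProbabilityTheory unitInterval

namespace Pool.Agent.H89.Perc

theorem localOn_wind {N : ℕ} (hN : 1 ≤ N) : LocalOn (tEdges N) (Wind N) := by
  intro ω ω' h hω
  have hper : per N ω = per N ω' := by
    funext e
    refine h _ ?_
    have hN' : (0 : ℤ) < N := by exact_mod_cast hN
    simp only [tEdges, Finset.mem_product, Finset.mem_Ico, Finset.mem_univ, and_true]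
    exact ⟨⟨Int.emod_nonneg _ hN'.ne', Int.emod_lt_of_pos _ hN'⟩,
      ⟨Int.emod_nonneg _ hN'.ne', Int.emod_lt_of_pos _ hN'⟩⟩
  obtain ⟨u, a, b, ha, hc⟩ := hω
  exact ⟨u, a, b, ha, hper ▸ hc⟩

theorem incr_wind (N : ℕ) : Incr (Wind N) := by
  rintro ω ω' h ⟨u, a, b, ha, hc⟩
  exact ⟨u, a, b, ha, hc.mono le_rfl fun e he => h _ he⟩

/-- Translation by `z` of the edges of the torus. -/
def torusSym_tau (N : ℕ) (z : Vert) (f : Edge) : Edge :=
  ((f.1 + z.1) % N, (f.2.1 + z.2) % N, f.2.2)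

theorem torusSym_tau_injOn (N : ℕ) (z : Vert) : Set.InjOn (torusSym_tau N z) (tEdges N) := by
  rintro ⟨x, y, d⟩ hf ⟨x', y', d'⟩ hf' h
  simp only [tEdges, Finset.coe_product, Set.mem_prod, Finset.coe_Ico, Set.mem_Ico,
    Finset.coe_univ, Set.mem_univ, and_true] at hf hf'
  simp only [torusSym_tau, Prod.mk.injEq] at h ⊢
  obtain ⟨h1, h2, h3⟩ := h
  refine ⟨?_, ?_, h3⟩
  · have h4 : x % N = x' % N := by
      have h5 : (x + z.1) ≡ (x' + z.1) [ZMOD N] := h1
      exact Int.ModEq.add_right_cancel' z.1 h5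
    rwa [Int.emod_eq_of_lt hf.1.1 hf.1.2, Int.emod_eq_of_lt hf'.1.1 hf'.1.2] at h4
  · have h4 : y % N = y' % N := by
      have h5 : (y + z.2) ≡ (y' + z.2) [ZMOD N] := h2
      exact Int.ModEq.add_right_cancel' z.2 h5
    rwa [Int.emod_eq_of_lt hf.2.1 hf.2.2, Int.emod_eq_of_lt hf'.2.1 hf'.2.2] at h4

theorem torusSym_per (N : ℕ) (z : Vert) (ω : Config) :
    per N (fun f => ω (torusSym_tau N z f)) = fun f => per N ω (shiftE z f) := by
  funext f
  simp only [per, torusSym_tau, shiftE, Int.emod_add_emod]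

theorem torusSym_wind (N : ℕ) (z : Vert) (ω : Config) :
    (fun f => ω (torusSym_tau N z f)) ∈ Wind N ↔ ω ∈ Wind N := by
  constructor
  · rintro ⟨u, a, b, ha, hc⟩
    rw [torusSym_per, conn_shift] at hc
    refine ⟨(u.1 + z.1, u.2 + z.2), a, b, ha, ?_⟩
    have h := hc.mono_set (Set.subset_univ _)
    convert h using 2
    · simp only; ring
    · simp only; ring
  · rintro ⟨u, a, b, ha, hc⟩
    refine ⟨(u.1 - z.1, u.2 - z.2), a, b, ha, ?_⟩
    rw [torusSym_per, conn_shift]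
    have h1 : {w : Vert | (w.1 - z.1, w.2 - z.2) ∈ (Set.univ : Set Vert)} = Set.univ := by
      ext w; simp
    rw [h1]
    convert hc using 2
    · simp
    · simp
    · simp only; ring
    · simp only; ring

theorem torusSym_update {N : ℕ} (hN : 1 ≤ N) (q : I) {e e' : Edge} (he : e ∈ tEdges N)
    (he' : e' ∈ tEdges N) (h : e.2.2 = e'.2.2) (b : Bool) :
    Pr q {ω | Function.update ω e' b ∈ Wind N} = Pr q {ω | Function.update ω e b ∈ Wind N} := by
  have hloc : LocalOn (tEdges N) {ω | Function.update ω e b ∈ Wind N} := by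
    intro ω ω' hω h1
    refine localOn_wind hN _ _ (fun f hf => ?_) h1
    by_cases hfe : f = e
    · subst hfe; simp
    · simp only [Function.update_of_ne hfe]; exact hω f hf
  set z : Vert := (e'.1 - e.1, e'.2.1 - e.2.1) with hz
  have hτ : torusSym_tau N z e = e' := by
    simp only [tEdges, Finset.mem_product, Finset.mem_Ico, Finset.mem_univ, and_true] at he he'
    obtain ⟨x, y, d⟩ := e
    obtain ⟨x', y', d'⟩ := e'
    simp only at h he he'
    simp only [torusSym_tau, hz, Prod.mk.injEq]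
    refine ⟨?_, ?_, h⟩
    · rw [show x + (x' - x) = x' by ring, Int.emod_eq_of_lt he'.1.1 he'.1.2]
    · rw [show y + (y' - y) = y' by ring, Int.emod_eq_of_lt he'.2.1 he'.2.2]
  rw [← Pr_comp hloc (torusSym_tau_injOn N z)]
  congr 1
  ext ω
  simp only [Set.mem_ofPred_eq]
  rw [← torusSym_wind N z (Function.update ω e' b)]
  have key : ∀ f ∈ tEdges N, Function.update ω e' b (torusSym_tau N z f) =
      Function.update (fun f => ω (torusSym_tau N z f)) e b f := by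
    intro f hf
    by_cases hfe : f = e
    · subst hfe
      rw [hτ]; simp
    · have h2 : torusSym_tau N z f ≠ e' := by
        intro h3
        rw [← hτ] at h3
        exact hfe (torusSym_tau_injOn N z hf he h3)
      rw [Function.update_of_ne h2, Function.update_of_ne hfe]
  exact ⟨fun h1 => localOn_wind hN _ _ key h1,
    fun h1 => localOn_wind hN _ _ (fun f hf => (key f hf).symm) h1⟩

/-- By translation invariance all edges of the same direction have the same influence. -/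
theorem pivot_wind {N : ℕ} (hN : 1 ≤ N) (q : I) {e e' : Edge} (he : e ∈ tEdges N)
    (he' : e' ∈ tEdges N) (h : e.2.2 = e'.2.2) : pivot q (Wind N) e = pivot q (Wind N) e' := by
  unfold pivot
  rw [torusSym_update hN q he he' h true, torusSym_update hN q he he' h false]

end Pool.Agent.H89.Perc

end

section

/-!
# Blocking circuits and decay of annulus crossings in the box-crossing regime
-/

open MeasureTheory ProbabilityTheory unitInterval

namespace Pool.Agent.H31.EX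

open Pool.Agent.H89.Perc Pool.Agent.H61.NC

lemma reg_mono_c {c c' : ℝ} {n : ℕ} {q : I} (h : RSWreg c n q) (hc : c' ≤ c) :
    RSWreg c' n q := fun m h1 h2 => ⟨hc.trans (h m h1 h2).1, hc.trans (h m h1 h2).2⟩

lemma reg_symm {c : ℝ} {n : ℕ} {q : I} (h : RSWreg c n q) : RSWreg c n (σ q) := by
  intro m h1 h2
  rw [unitInterval.symm_symm]
  exact ⟨(h m h1 h2).2, (h m h1 h2).1⟩

/-- Wide crossings at all places. -/
lemma reg_hcross {c : ℝ} {n : ℕ} {q : I} (h : RSWreg c n q) {m : ℕ} (hm : 1 ≤ m) (hmn : m ≤ n)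
    {x y x' y' : ℤ} (hx : x' - x ≤ 4 * m) (hx0 : x ≤ x') (hy : (m : ℤ) ≤ y' - y) :
    c ≤ Pr q {ω | HCross ω x x' y y'} := by
  have h1 : c ≤ Pr q {ω | HCross ω 0 (x' - x) 0 (y' - y)} :=
    ((h m hm hmn).1).trans (Pr_mono fun ω h => HCross.mono h le_rfl (by omega) hx le_rfl hy)
  have h3 := Pr_hcross_translate (p := q) (a := 0) (b := x' - x) (c := 0) (d := y' - y) x y
  have e1 : (0 : ℤ) + x = x := by ring
  have e2 : x' - x + x = x' := by ring
  have e3 : (0 : ℤ) + y = y := by ring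
  have e4 : y' - y + y = y' := by ring
  rw [e1, e2, e3, e4] at h3
  rw [h3]
  exact h1

lemma reg_vcross {c : ℝ} {n : ℕ} {q : I} (h : RSWreg c n q) {m : ℕ} (hm : 1 ≤ m) (hmn : m ≤ n)
    {x y x' y' : ℤ} (hx : y' - y ≤ 4 * m) (hx0 : y ≤ y') (hy : (m : ℤ) ≤ x' - x) :
    c ≤ Pr q {ω | VCross ω x x' y y'} := by
  rw [Pr_vcross_eq_hcross]
  exact reg_hcross h hm hmn hx hx0 hy

/-- Blocking circuits exist with positive probability. -/
theorem circuit_reg {c : ℝ} (hc : 0 < c) {n : ℕ} {q : I} (h : RSWreg c n q) {s r : ℕ}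
    (hr : 4 * (s + 1) ≤ r) (hs : 1 ≤ s) (hrn : r ≤ n) : c ^ 4 ≤ Pr q {ω | dual ω ∉ DArm s r} := by
  classical
  obtain ⟨m, hm⟩ : ∃ m : ℕ, r = m + s + 2 := ⟨r - s - 2, by omega⟩
  have hm1 : 1 ≤ m := by omega
  have h2r : 2 * r ≤ 4 * m := by omega
  have hmn : m ≤ n := by omega
  have k1 : c ≤ Pr q {ω | VCross ω (s + 1) (r - 1) (-r) r} :=
    reg_vcross h hm1 hmn (by omega) (by omega) (by omega)
  have k2 : c ≤ Pr q {ω | VCross ω (-r + 1) (-s - 1) (-r) r} :=
    reg_vcross h hm1 hmn (by omega) (by omega) (by omega)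
  have k3 : c ≤ Pr q {ω | HCross ω (-r) r (s + 1) (r - 1)} :=
    reg_hcross h hm1 hmn (by omega) (by omega) (by omega)
  have k4 : c ≤ Pr q {ω | HCross ω (-r) r (-r + 1) (-s - 1)} :=
    reg_hcross h hm1 hmn (by omega) (by omega) (by omega)
  have h12 := fkg (p := q) (localOn_vcross ((s : ℤ) + 1) (r - 1) (-r) r)
    (localOn_vcross (-(r : ℤ) + 1) (-s - 1) (-r) r) (incr_vcross _ _ _ _) (incr_vcross _ _ _ _)
  have h34 := fkg (p := q) (localOn_hcross (-(r : ℤ)) r (s + 1) (r - 1))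
    (localOn_hcross (-(r : ℤ)) r (-r + 1) (-s - 1)) (incr_hcross _ _ _ _) (incr_hcross _ _ _ _)
  have h1234 := fkg (p := q) ((localOn_vcross ((s : ℤ) + 1) (r - 1) (-r) r).inter'
      (localOn_vcross (-(r : ℤ) + 1) (-s - 1) (-r) r))
    ((localOn_hcross (-(r : ℤ)) r (s + 1) (r - 1)).inter'
      (localOn_hcross (-(r : ℤ)) r (-r + 1) (-s - 1)))
    ((incr_vcross _ _ _ _).inter (incr_vcross _ _ _ _))
    ((incr_hcross _ _ _ _).inter (incr_hcross _ _ _ _))
  have h12' := (mul_le_mul k1 k2 hc.le Pr_nonneg).trans h12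
  have h34' := (mul_le_mul k3 k4 hc.le Pr_nonneg).trans h34
  have h' := (mul_le_mul h12' h34' (by positivity) Pr_nonneg).trans h1234
  have e : c ^ 4 = c * c * (c * c) := by ring
  rw [e]
  refine h'.trans (Pr_mono ?_)
  rintro ω ⟨⟨w1, w2⟩, ⟨w3, w4⟩⟩
  exact block (by omega) w1 w2 w3 w4

/-- Annulus crossings have probability bounded away from one. -/
theorem armBox_reg_le {c : ℝ} (hc : 0 < c) {n : ℕ} {q : I} (h : RSWreg c n q) {s r : ℕ}
    (hr : 4 * (s + 1) ≤ r) (hs : 1 ≤ s) (hrn : r ≤ n) : Pr q (ArmBox 0 s r) ≤ 1 - c ^ 4 := by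
  have h1 := circuit_reg hc (reg_symm h) hr hs hrn
  have h2 := Pr_compl (p := σ q) (localOn_dual_DArm s r)
  have h3 : {ω : Config | dual ω ∉ DArm s r}ᶜ = {ω | dual ω ∈ DArm s r} := by
    ext ω
    simp only [Set.mem_compl_iff, Set.mem_ofPred_eq, not_not]
  rw [h3, Pr_dual (decay_localOn_DArm s r), unitInterval.symm_symm] at h2
  have h4 : Pr q (ArmBox 0 s r) ≤ Pr q (DArm s r) :=
    Pr_mono (armBox_subset_DArm (by omega))
  linarith

lemma armBox_subset_ann {s0 s r R : ℕ} (h0 : s0 ≤ s) (hs : s < r) (hr : r ≤ R) :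
    ArmBox 0 s0 R ⊆ Ann s r := by
  rintro ω ⟨w0, hw0, u, hu, hc⟩
  have hw0' : w0 ∈ ball 0 s := ball_subset_ball h0 hw0
  have hw0r : w0 ∈ ball 0 r := ball_subset_ball hs.le hw0'
  have h1 : ∃ x ∈ sphere 0 r, Conn ω (ball 0 R ∩ ball 0 r) w0 x := by
    refine hc.to_sphere hw0r ?_
    obtain ⟨hb, h⟩ := hu
    by_cases h2 : u ∈ ball 0 r
    · refine Or.inr ⟨h2, ?_⟩
      simp only [mem_ball, Prod.fst_zero, Prod.snd_zero] at hb h h2 ⊢
      omega
    · exact Or.inl h2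
  obtain ⟨x, hx, hc'⟩ := h1
  have hxs : x ∉ ball 0 s := by
    intro hxs
    obtain ⟨_, h⟩ := hx
    simp only [mem_ball, Prod.fst_zero, Prod.snd_zero] at hxs h
    omega
  obtain ⟨w, w', hw, _, hst, hl⟩ := hc'.exists_last (T := ball 0 s) hw0' hxs
  refine ⟨w', ?_, x, hx, hl.mono_set ?_⟩
  · have h2 := hst.fst_le
    have h3 := hst.snd_le
    simp only [mem_ball, Prod.fst_zero, Prod.snd_zero] at hw ⊢
    push_cast
    omega
  · exact fun y hy => ⟨hy.1.2, hy.2⟩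

/-- Intersections of the annulus events at scales `s 16 ^ j`. -/
def AnnS (s : ℕ) : ℕ → Set Config
  | 0 => Set.univ
  | n + 1 => AnnS s n ∩ Ann (s * 16 ^ n) (s * 16 ^ (n + 1))

lemma localOn_annS (s n : ℕ) : LocalOn (eBall (s * 16 ^ n)) (AnnS s n) := by
  classical
  induction n with
  | zero => exact fun _ _ _ _ => Set.mem_univ _
  | succ n ih =>
    have h1 : s * 16 ^ n ≤ s * 16 ^ (n + 1) :=
      Nat.mul_le_mul_left s (Nat.pow_le_pow_right (by norm_num) (Nat.le_succ n))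
    exact (ih.mono (eBall_subset h1)).inter ((localOn_ann _ _).mono Finset.sdiff_subset)

lemma armBox_subset_annS {s R : ℕ} (hs : 1 ≤ s) (n : ℕ) (h : s * 16 ^ n ≤ R) :
    ArmBox 0 s R ⊆ AnnS s n := by
  induction n with
  | zero => exact Set.subset_univ _
  | succ n ih =>
    have h1 : s * 16 ^ n < s * 16 ^ (n + 1) :=
      Nat.mul_lt_mul_of_pos_left (Nat.pow_lt_pow_right (by norm_num) (Nat.lt_succ_self n)) hs
    exact Set.subset_inter (ih (h1.le.trans h)) (armBox_subset_ann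
      (Nat.le_mul_of_pos_right s (by positivity)) h1 h)

/-- Decay of annulus crossings in the box-crossing regime. -/
theorem armBox_decay {c : ℝ} (hc : 0 < c) : ∃ C a : ℝ, 0 < C ∧ 0 < a ∧ a ≤ 1 / 4 ∧
    ∀ (n s R : ℕ) (q : I), RSWreg c n q → 1 ≤ s → s ≤ R → R ≤ n →
      Pr q (ArmBox 0 s R) ≤ C * ((s : ℝ) / R) ^ a := by
  classical
  set c' := min c 1 with hc'
  have hc0 : 0 < c' := lt_min hc one_pos
  have hc1 : c' ≤ 1 := min_le_right _ _
  have hc4 : 0 < c' ^ 4 := by positivity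
  have hc41 : c' ^ 4 ≤ 1 := pow_le_one₀ hc0.le hc1
  set t : ℝ := 1 - c' ^ 4 / 2 with ht
  have ht0 : 0 < t := by linarith
  have ht1 : t < 1 := by linarith
  have hlog : Real.log t < 0 := Real.log_neg ht0 ht1
  have hlog16 : 0 < Real.log 16 := Real.log_pos (by norm_num)
  set a0 : ℝ := - Real.log t / Real.log 16 with ha0
  have ha0p : 0 < a0 := div_pos (neg_pos.2 hlog) hlog16
  refine ⟨1 / t, min a0 (1 / 4), by positivity, lt_min ha0p (by norm_num), min_le_right _ _, ?_⟩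
  intro n s R q hreg hs hsR hRn
  have hreg' : RSWreg c' n q := reg_mono_c hreg (min_le_left _ _)
  -- the probability of the intersection of the annulus events
  have key : ∀ k : ℕ, s * 16 ^ k ≤ n → Pr q (AnnS s k) ≤ t ^ k := by
    intro k
    induction k with
    | zero => intro _; rw [pow_zero]; exact Pr_le_one
    | succ k ih =>
      intro hk
      have hle : s * 16 ^ k ≤ s * 16 ^ (k + 1) :=
        Nat.mul_le_mul_left s (Nat.pow_le_pow_right (by norm_num) (Nat.le_succ k))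
      have h1 : Pr q (AnnS s (k + 1)) =
          Pr q (AnnS s k) * Pr q (Ann (s * 16 ^ k) (s * 16 ^ (k + 1))) :=
        Pr_inter_of_disjoint (localOn_annS s k) (localOn_ann _ _) Finset.disjoint_sdiff
      have h2 : Pr q (Ann (s * 16 ^ k) (s * 16 ^ (k + 1))) ≤ t := by
        have h3 : 4 * (s * 16 ^ k + 1 + 1) ≤ s * 16 ^ (k + 1) := by
          have h6 : 1 ≤ 16 ^ k := Nat.one_le_pow _ _ (by norm_num)
          have h5 : 1 ≤ s * 16 ^ k := Nat.one_le_iff_ne_zero.2 (by positivity)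
          have : s * 16 ^ (k + 1) = 16 * (s * 16 ^ k) := by ring
          omega
        have h4 := armBox_reg_le hc0 hreg' h3 (by omega) hk
        have h5 : Pr q (Ann (s * 16 ^ k) (s * 16 ^ (k + 1))) ≤
            Pr q (ArmBox 0 (s * 16 ^ k + 1) (s * 16 ^ (k + 1))) := Pr_mono (ann_subset_armBox _ _)
        linarith
      rw [h1, pow_succ]
      exact mul_le_mul (ih (hle.trans hk)) h2 Pr_nonneg (pow_nonneg ht0.le k)
  set k := Nat.log 16 (R / s) with hk
  have hRs : R / s ≠ 0 := by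
    have : 0 < R / s := Nat.div_pos hsR hs
    omega
  have hk1 : s * 16 ^ k ≤ R := by
    have h1 : 16 ^ k ≤ R / s := Nat.pow_log_le_self 16 hRs
    calc s * 16 ^ k ≤ s * (R / s) := Nat.mul_le_mul_left s h1
      _ ≤ R := Nat.mul_div_le R s
  have hk2 : R < s * 16 ^ (k + 1) := by
    have h1 : R / s < 16 ^ (k + 1) := Nat.lt_pow_succ_log_self (by norm_num) (R / s)
    rw [mul_comm]
    exact (Nat.div_lt_iff_lt_mul hs).1 h1
  have h1 : Pr q (ArmBox 0 s R) ≤ t ^ k :=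
    (Pr_mono (armBox_subset_annS hs k hk1)).trans (key k (hk1.trans hRn))
  have hs0 : (0 : ℝ) < s := by exact_mod_cast hs
  have hR0 : (0 : ℝ) < R := by exact_mod_cast (by omega : 0 < R)
  have hx0 : 0 < (s : ℝ) / R := by positivity
  have hx1 : (s : ℝ) / R ≤ 1 := by
    rw [div_le_one hR0]
    exact_mod_cast hsR
  have hx2 : ((16 : ℝ) ^ (k + 1))⁻¹ ≤ (s : ℝ) / R := by
    rw [inv_eq_one_div, div_le_div_iff₀ (by positivity) hR0, one_mul]
    exact_mod_cast hk2.le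
  have h2 : t ^ (k + 1) ≤ ((s : ℝ) / R) ^ a0 := by
    have h3 : (((16 : ℝ) ^ (k + 1))⁻¹) ^ a0 = t ^ (k + 1) := by
      rw [Real.inv_rpow (by positivity), ← Real.rpow_natCast (16 : ℝ) (k + 1),
        ← Real.rpow_mul (by norm_num), mul_comm, Real.rpow_mul (by norm_num), Real.rpow_natCast,
        ← inv_pow]
      congr 1
      rw [Real.rpow_def_of_pos (by norm_num)]
      have : Real.log 16 * a0 = - Real.log t := by
        rw [ha0]; field_simp
      rw [this, Real.exp_neg, Real.exp_log ht0, inv_inv]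
    rw [← h3]
    exact Real.rpow_le_rpow (by positivity) hx2 ha0p.le
  have h3 : ((s : ℝ) / R) ^ a0 ≤ ((s : ℝ) / R) ^ (min a0 (1 / 4)) :=
    Real.rpow_le_rpow_of_exponent_ge hx0 hx1 (min_le_left _ _)
  calc Pr q (ArmBox 0 s R) ≤ t ^ k := h1
    _ = 1 / t * t ^ (k + 1) := by rw [pow_succ]; field_simp
    _ ≤ _ := mul_le_mul_of_nonneg_left (h2.trans h3) (by positivity)

end Pool.Agent.H31.EX

end

section

/-!
# Elementary facts used by all stages
-/

open MeasureTheory ProbabilityTheory unitInterval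

namespace Pool.Agent.H59.EX

open Pool.Agent.H89.Perc

section clus

variable {ω ω' : Config} {D D' X S Z : Set Vert} {a b x : Vert} {e : Edge} {t : Set Edge}

theorem clus_sub : clus ω D X ⊆ D := by
  rintro v ⟨x, _, h⟩
  exact h.mem_right

theorem clus_step (ha : a ∈ clus ω D X) (h : Step ω D a b) : b ∈ clus ω D X := by
  obtain ⟨x, hx, hxa⟩ := ha
  exact ⟨x, hx, hxa.tail h⟩

theorem clus_conn (ha : a ∈ clus ω D X) (h : Conn ω D a b) : b ∈ clus ω D X := by
  obtain ⟨x, hx, hxa⟩ := ha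
  exact ⟨x, hx, hxa.trans h⟩

theorem mem_clus (hx : x ∈ X) (h : Conn ω D x b) : b ∈ clus ω D X := by
  exact ⟨x, hx, h⟩

theorem mem_clus_single : b ∈ clus ω D {x} ↔ Conn ω D x b := by
  constructor
  · rintro ⟨y, hy, h⟩
    rw [Set.mem_singleton_iff.1 hy] at h
    exact h
  · intro h
    exact ⟨x, Set.mem_singleton x, h⟩

theorem clus_mono (hD : D ⊆ D') (hω : ∀ e, ω e = true → ω' e = true) :
    clus ω D X ⊆ clus ω' D' X := by
  rintro v ⟨x, hx, h⟩
  exact ⟨x, hx, h.mono hD hω⟩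

/-- A path starting in the cluster stays in the cluster. -/
theorem conn_in_clus (ha : a ∈ clus ω D X) (h : Conn ω D a b) : Conn ω (clus ω D X) a b := by
  refine h.induction_right (P := fun b => Conn ω (clus ω D X) a b) (Conn.refl ha) ?_
  intro a' b' h1 h2 h3
  exact h3.tail ⟨clus_conn ha h1, clus_conn ha (h1.tail h2), h2.2.2⟩

theorem fillV_true : fillV Z ω e = true ↔ ω e = true ∨ e ∈ inE Z := by
  classical
  unfold fillV
  rw [Bool.or_eq_true, decide_eq_true_iff]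

theorem closeS_true : closeS t ω e = true ↔ ω e = true ∧ e ∉ t := by
  classical
  unfold closeS
  rw [Bool.and_eq_true, decide_eq_true_iff]

theorem fillV_mono (hZ : S ⊆ Z) : fillV S ω e = true → fillV Z ω e = true := by
  rw [fillV_true, fillV_true]
  rintro (h | h)
  · exact Or.inl h
  · exact Or.inr ⟨hZ h.1, hZ h.2⟩

theorem inE_of_joins (hj : Joins e a b) : e ∈ inE S ↔ a ∈ S ∧ b ∈ S := by
  rcases hj with ⟨h1, h2⟩ | ⟨h1, h2⟩
  · rw [h1, h2]
    exact Iff.rfl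
  · rw [h1, h2]
    exact and_comm

theorem touch_of_joins (hj : Joins e a b) :
    e ∈ touch D S ↔ (a ∈ D ∧ b ∈ D) ∧ (a ∈ S ∨ b ∈ S) := by
  have h := inE_of_joins (S := D) hj
  constructor
  · rintro ⟨h1, h2⟩
    refine ⟨h.1 h1, ?_⟩
    rcases hj with ⟨h3, h4⟩ | ⟨h3, h4⟩
    · rwa [h3, h4]
    · rw [h3, h4]
      exact h2.symm
  · rintro ⟨h1, h2⟩
    refine ⟨h.2 h1, ?_⟩
    rcases hj with ⟨h3, h4⟩ | ⟨h3, h4⟩
    · rwa [h3, h4] at h2
    · rw [h3, h4] at h2
      exact h2.symm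

/-- Filled sets are connected. -/
theorem conn_fillV (hZ : Z ⊆ D) (h : Conn allOpen Z a b) : Conn (fillV Z ω) D a b := by
  refine h.induction_right (P := fun b => Conn (fillV Z ω) D a b) (Conn.refl (hZ h.mem_left)) ?_
  rintro a' b' _ ⟨h1, h2, e, he, _⟩ h3
  exact h3.tail ⟨hZ h1, hZ h2, e, he, fillV_true.2 (Or.inr ((inE_of_joins he).2 ⟨h1, h2⟩))⟩

/-- The configurations `ω` and `s.cut ω` agree off `ball 0 2`. -/
theorem cut_of_not_ball {s : Src} {e : Edge} (h : src e ∉ ball 0 2 ∨ tgt e ∉ ball 0 2) :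
    s.cut ω e = ω e := by
  have h1 : e ∉ (s.E0 : Set Edge) := by
    intro he
    have h2 := s.hE e (Finset.mem_coe.1 he)
    rcases h with h | h
    · exact h h2.1
    · exact h h2.2
  have h2 : s.cut ω e = true ↔ ω e = true := by
    unfold Src.cut
    rw [closeS_true]
    exact ⟨fun h => h.1, fun h => ⟨h, h1⟩⟩
  exact Bool.eq_iff_iff.2 h2

theorem cut_le {s : Src} {e : Edge} (h : s.cut ω e = true) : ω e = true := by
  unfold Src.cut at h
  exact (closeS_true.1 h).1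

private theorem fact_near (hj : Joins e a b) :
    b.1 ≤ a.1 + 1 ∧ a.1 ≤ b.1 + 1 ∧ b.2 ≤ a.2 + 1 ∧ a.2 ≤ b.2 + 1 := by
  have h : Step allOpen Set.univ a b := ⟨trivial, trivial, e, hj, rfl⟩
  exact ⟨h.fst_le.1, h.fst_le.2, h.snd_le.1, h.snd_le.2⟩

/-- The neighbours of a vertex of the ball which is not on the sphere are in the ball. -/
theorem mem_sphere_of_joins {r : ℕ} (hj : Joins e a b) (ha : a ∈ ball 0 r) (hb : b ∉ ball 0 r) :
    a ∈ sphere 0 r := by
  refine ⟨ha, ?_⟩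
  have h := fact_near hj
  simp only [mem_ball] at ha hb
  omega

theorem ball_of_joins (hj : Joins e a b) : a ∈ ball b 1 := by
  have h := fact_near hj
  simp only [mem_ball]
  omega

end clus

section fence

variable {ω ω' : Config} {D D' : Set Vert} {x y : Vert} {d : Side} {k : ℕ}

theorem fence_mono (hD : D ⊆ D') (hω : ∀ e, ω e = true → ω' e = true) (h : Fence d k ω D x) :
    Fence d k ω' D' x := by
  cases d
  all_goals
    obtain ⟨u, v, h1, h2, h3, h4⟩ := h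
    exact ⟨u, v, h1, h2, h3.mono subset_rfl hω, h4.mono hD hω⟩

theorem fence_congr (hT : ∀ e ∈ inE (T d k), ω e = ω' e) (hD : ∀ e ∈ inE D, ω e = ω' e)
    (h : Fence d k ω D x) : Fence d k ω' D x := by
  cases d
  all_goals
    obtain ⟨u, v, h1, h2, h3, h4⟩ := h
    exact ⟨u, v, h1, h2, h3.congr (fun e h5 h6 => hT e ⟨h5, h6⟩),
      h4.congr (fun e h5 h6 => hD e ⟨h5, h6⟩)⟩

/-- A fence of `y` is a fence of `x` if `x` is joined to `y`. -/
theorem fence_trans (h1 : Conn ω D x y) (h2 : Fence d k ω D y) : Fence d k ω D x := by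
  cases d
  all_goals
    obtain ⟨u, v, h3, h4, h5, h6⟩ := h2
    exact ⟨u, v, h3, h4, h5, h1.trans h6⟩

/-- The fence gives a vertex of the target joined to `x`. -/
theorem fence_mem (h : Fence d k ω D x) : ∃ u ∈ T d k, Conn ω D x u := by
  cases d
  all_goals
    obtain ⟨u, v, _, _, h5, h6⟩ := h
    exact ⟨u, h5.mem_left, h6⟩

end fence

section stages

variable {ω : Config} {s : Src} {w ρ ρ' : ℕ} {v v' : Vert} {d d' : Side} {Z Zy : Set Vert}
  {Nev Ny : Set Config}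

private theorem fact_ball_mono {z : Vert} {r r' : ℕ} (h : r ≤ r') : ball z r ⊆ ball z r' := by
  intro a ha
  simp only [mem_ball] at ha ⊢
  omega

theorem corr_inter (hK : CorrData w ρ v d Z Nev) : Z ∩ ball 0 (8 * w) ⊆ ball v (5 * ρ) := by
  rintro a ⟨ha, hb⟩
  exact hK.inter a ha a hb self_mem_ball

/-- Corridors stay away from the source. -/
theorem corr_far (hK : CorrData w ρ v d Z Nev) (hρ : 1 ≤ ρ) (hw : 64 * ρ ≤ w)
    (hv : v ∈ sphere 0 (8 * w)) {a : Vert} (ha : a ∈ Z) : a ∉ ball 0 (4 * w) := by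
  intro hb
  have h1 : a ∈ ball v (5 * ρ) := corr_inter hK ⟨ha, fact_ball_mono (by omega) hb⟩
  obtain ⟨h2, h3⟩ := hv
  simp only [mem_ball, Prod.fst_zero, Prod.snd_zero, Nat.cast_mul, Nat.cast_ofNat] at hb h1 h2 h3
  have h4 : (64 : ℤ) * ρ ≤ w := by exact_mod_cast hw
  have h5 : (1 : ℤ) ≤ ρ := by exact_mod_cast hρ
  omega

theorem corr_cut (hK : CorrData w ρ v d Z Nev) (hρ : 1 ≤ ρ) (hw : 64 * ρ ≤ w)
    (hv : v ∈ sphere 0 (8 * w)) {e : Edge} (he : e ∈ inE Z) : s.cut ω e = ω e := by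
  refine cut_of_not_ball (Or.inl fun h => ?_)
  exact corr_far hK hρ hw hv he.1 (fact_ball_mono (by omega) h)

theorem corr_sub160 (hK : CorrData w ρ v d Z Nev) : Z ⊆ ball 0 (160 * w) := by
  intro a ha
  rcases hK.sub ha with h | h
  · exact fact_ball_mono (by omega) h
  · cases d
    all_goals
      simp only [T, rect, Set.mem_ofPred_eq, Nat.cast_mul, Nat.cast_ofNat] at h
      simp only [mem_ball, Prod.fst_zero, Prod.snd_zero, Nat.cast_mul, Nat.cast_ofNat]
      omega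

/-- The cluster of `y` is closed under steps of the filled configuration in `D ∪ Z`. -/
theorem SY_closed (hK : CorrData w ρ v d Z Nev) (hρ : 1 ≤ ρ)
    (h : Disjoint (SY s w ω) (ball v (11 * ρ))) {a b : Vert} (ha : a ∈ SY s w ω)
    (hs : Step (fillV Z (s.cut ω)) (ball 0 (8 * w) ∪ Z) a b) : b ∈ SY s w ω := by
  have haD : a ∈ ball 0 (8 * w) := clus_sub ha
  have hfar : a ∉ ball v (5 * ρ) := fun h1 =>
    Set.disjoint_left.1 h ha (fact_ball_mono (by omega) h1)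
  obtain ⟨_, h2, e, he, ho⟩ := hs
  rw [fillV_true] at ho
  rcases ho with ho | ho
  · by_cases hbD : b ∈ ball 0 (8 * w)
    · exact clus_step ha ⟨haD, hbD, e, he, ho⟩
    · have hbZ : b ∈ Z := h2.resolve_left hbD
      exact absurd (hK.inter b hbZ a haD (fact_ball_mono hρ (ball_of_joins he))) hfar
  · exact absurd (corr_inter hK ⟨((inE_of_joins he).1 ho).1, haD⟩) hfar

/-- F1. -/
theorem S1_disj_SY (hK : CorrData w ρ v d Z Nev) (hρ : 1 ≤ ρ)
    (h : Disjoint (SY s w ω) (ball v (11 * ρ)))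
    (hxy : ¬ Conn (s.cut ω) (ball 0 (8 * w)) s.x s.y) : Disjoint (S1 s w Z ω) (SY s w ω) := by
  rw [Set.disjoint_left]
  intro z hz hz'
  have h1 : Conn (fillV Z (s.cut ω)) (ball 0 (8 * w) ∪ Z) z s.x := (mem_clus_single.1 hz).symm
  have h2 : s.x ∈ SY s w ω := h1.induction_right (P := fun b => b ∈ SY s w ω) hz'
    fun a b _ h3 h4 => SY_closed hK hρ h h4 h3
  exact hxy (mem_clus_single.1 h2).symm

private theorem fact_sub160 (hK : CorrData w ρ v d Z Nev) :
    ball 0 (8 * w) ∪ Z ⊆ ball 0 (160 * w) :=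
  Set.union_subset (fact_ball_mono (by omega)) (corr_sub160 hK)

theorem S1_sub_SH (hK : CorrData w ρ v d Z Nev) : S1 s w Z ω ⊆ SH s w Z ω := by
  exact clus_mono (fact_sub160 hK) fun _ h => h

/-- If the cluster of `x` meets the filled corridor it contains it. -/
theorem Z_sub_SH (hK : CorrData w ρ v d Z Nev) {a : Vert} (ha : a ∈ Z) (ha' : a ∈ SH s w Z ω) :
    Z ⊆ SH s w Z ω := by
  intro b hb
  exact clus_conn ha' (conn_fillV (corr_sub160 hK) (hK.conn a ha b hb))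

theorem Z_sub_S1 (hK : CorrData w ρ v d Z Nev) {a : Vert} (ha : a ∈ Z) (ha' : a ∈ S1 s w Z ω) :
    Z ⊆ S1 s w Z ω := by
  intro b hb
  exact clus_conn ha' (conn_fillV Set.subset_union_right (hK.conn a ha b hb))

theorem Z_sub_SH_of_conf (hK : CorrData w ρ v d Z Nev) (h : ω ∈ Conf s w ρ' d Z) :
    Z ⊆ SH s w Z ω := by
  obtain ⟨_, hF, _⟩ := h
  obtain ⟨u, hu, hc⟩ := fence_mem hF
  exact Z_sub_SH hK (hK.T_sub hu) hc.mem_right.1

/-- The second corridor misses the confined cluster. -/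
theorem Zy_disj_SH (hKy : CorrData w ρ' v' d' Zy Ny) (hS : CorrSep w ρ' v' Z Zy)
    (hρ' : 1 ≤ ρ') (h : ω ∈ Conf s w ρ' d Z) (hd : Disjoint (SH s w Z ω) (ball v' (7 * ρ'))) :
    Disjoint Zy (SH s w Z ω) := by
  rw [Set.disjoint_left] at hd ⊢
  intro z hz hz'
  obtain ⟨_, _, hconf⟩ := h
  rcases hconf z hz' with h1 | ⟨a, ha, h1⟩ | ⟨a, ha, ha', h1⟩
  · exact hd hz' (fact_ball_mono (by omega) (corr_inter hKy ⟨hz, h1⟩))
  · exact hS.far a ha z hz (fact_ball_mono (by omega) h1)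
  · exact hd ha (hS.fringe z hz a ha' h1)

end stages

end Pool.Agent.H59.EX

end

section

/-!
# Gluing of four arms in the plane (GLT): definitions

The inner domain is `ball 0 (4 m)`, the outer domain is a finite vertex set `D` whose points have norm
at least `16 m`.  Everything is formulated for configurations in which some edges (the set `E`) near
the origin have been closed; the corresponding probability is `PrE`.
-/

open MeasureTheory ProbabilityTheory unitInterval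

namespace Pool.Agent.H57.EX

open Pool.Agent.H89.Perc Pool.Agent.H61.NC Pool.Agent.H29.Sep

/-- Sup norm. -/
def nrm (v : Vert) : ℤ := max |v.1| |v.2|

/-- Probability when the edges of `E` are closed. -/
noncomputable def PrE (q : I) (E : Finset Edge) (A : Set Config) : ℝ := Pr q {ω | shut E ω ∈ A}

/-- The edges with both endpoints in `D` (for `D ⊆ ball 0 R`). -/
noncomputable def eIn (R : ℕ) (D : Set Vert) : Finset Edge := by
  classical exact (eRect (-(R : ℤ)) R (-(R : ℤ)) R).filter (fun e => src e ∈ D ∧ tgt e ∈ D)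

/-- Data of the gluing: two vertices `x`, `y` near the origin, a finite set `E` of closed edges near
the origin, the scale `m`, the outer domain `D`, the universe `W`, and the terminals `L`, `T`. -/
structure Dat where
  x : Vert
  y : Vert
  E : Finset Edge
  m : ℕ
  R : ℕ
  D : Set Vert
  W : Set Vert
  L : Set Vert
  T : Set Vert
  hx : x ∈ ball 0 2
  hy : y ∈ ball 0 2
  hE : ∀ e ∈ E, src e ∈ ball 0 2 ∧ tgt e ∈ ball 0 2
  hm : 10 ≤ m
  hD : ∀ v ∈ D, 16 * (m : ℤ) ≤ nrm v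
  hDW : D ⊆ W
  hBW : ball 0 (17 * m) ⊆ W
  hWD : ∀ v ∈ W, v ∉ ball 0 (19 * m) → v ∈ D
  hWR : W ⊆ ball 0 R
  hL : ∀ v ∈ L, v ∈ D ∧ 17 * (m : ℤ) < nrm v
  hT : ∀ v ∈ T, v ∈ D ∧ 17 * (m : ℤ) < nrm v

/-- The inner domain. -/
def Dat.B (Z : Dat) : Set Vert := ball 0 (4 * Z.m)

/-- The places of the outer side where two clusters must not be close to each other. -/
def Dat.Bd (Z : Dat) : Set Vert :=
  sphere 0 (16 * Z.m) ∪ {v | v ∈ Z.D ∧ ∃ e w, Joins e v w ∧ w ∈ Z.W ∧ w ∉ Z.D}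

/-- Four arms: `x` and `y` are joined to the sphere of radius `r` and not joined to each other inside
the ball of radius `r`. -/
def Four (x y : Vert) (r : ℕ) : Set Config :=
  {ω | (∃ u ∈ sphere 0 r, Conn ω (ball 0 r) x u) ∧ (∃ u ∈ sphere 0 r, Conn ω (ball 0 r) y u) ∧
    ¬ Conn ω (ball 0 r) x y}

/-- Two-terminal event in the domain `D`: a cluster touching `L` and not touching `T` reaches the
sphere of radius `t`, and a cluster touching `T` reaches this sphere. -/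
def Out (D L T : Set Vert) (t : ℕ) : Set Config :=
  {ω | (∃ u ∈ L, ∃ v ∈ sphere 0 t, Conn ω D u v ∧ ∀ w ∈ T, ¬ Conn ω D u w) ∧
    ∃ w ∈ T, ∃ v ∈ sphere 0 t, Conn ω D w v}

/-- The clusters of `x` and `y` in the inner domain are both near to a point of the inner sphere. -/
def NearIn (Z : Dat) (t : ℕ) : Set Config :=
  {ω | ∃ z ∈ sphere 0 (4 * Z.m), (cl ω Z.B {Z.x} ∩ ball z t).Nonempty ∧
    (cl ω Z.B {Z.y} ∩ ball z t).Nonempty}

/-- A cluster of `L` and a cluster of `T` in the outer domain are both near to a point of the outer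
sphere. -/
def NearOut (Z : Dat) (t : ℕ) : Set Config :=
  {ω | ∃ z ∈ sphere 0 (16 * Z.m), ∃ u ∈ Z.L, u ∉ cl ω Z.D Z.T ∧
    (cl ω Z.D {u} ∩ ball z t).Nonempty ∧ (cl ω Z.D Z.T ∩ ball z t).Nonempty}

/-- A chain of centres from `b` to `b'` with steps at most `2 s`. -/
structure Chain (γ : ℕ → Vert) (n s : ℕ) (b b' : Vert) : Prop where
  h0 : γ 0 = b
  hn : γ n = b'
  step : ∀ i < n, γ (i + 1) ∈ ball (γ i) (2 * s)

/-- The zone of a chain. -/
def zone (γ : ℕ → Vert) (n s : ℕ) : Set Vert := {w | ∃ i ≤ n, w ∈ ball (γ i) (3 * s)}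

/-- Open circuits around all the centres of the chain. -/
def AllCirc (γ : ℕ → Vert) (n s : ℕ) : Set Config := {ω | ∀ i ≤ n, ω ∈ Circ (γ i) s}

/-- The edges on which `AllCirc` depends. -/
noncomputable def eZone (γ : ℕ → Vert) (n s : ℕ) : Finset Edge := by
  classical exact (Finset.range (n + 1)).biUnion (fun i => eCirc (γ i) s)

/-- Properties of the chains used for the gluing between the spheres of radii `4 m` and `16 m`. -/
structure ZGood (m s : ℕ) (γ : ℕ → Vert) (n : ℕ) (b b' : Vert) : Prop where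
  chain : Chain γ n s b b'
  inner : ∀ w ∈ zone γ n s, nrm w ≤ 4 * m + 5 * s → w ∈ ball b (20 * s)
  outer : ∀ w ∈ zone γ n s, 16 * (m : ℤ) - 5 * s ≤ nrm w → w ∈ ball b' (20 * s)
  low : ∀ w ∈ zone γ n s, 3 * (m : ℤ) ≤ nrm w
  bdd : ∀ w ∈ zone γ n s, nrm w ≤ 17 * m

/-- Existence of the chains. -/
def Geo : Prop :=
  ∃ k₀ : ℕ, 1 ≤ k₀ ∧ ∀ k : ℕ, k₀ ≤ k → ∃ n₁ k₁ : ℕ, ∀ k' : ℕ, k₁ ≤ k' → ∃ n₂ m₀ : ℕ,
    ∀ m : ℕ, m₀ ≤ m → ∀ b ∈ sphere 0 (4 * m), ∀ b' ∈ sphere 0 (16 * m), ∃ γ : ℕ → Vert,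
      ZGood m (m / k) γ n₁ b b' ∧
      ∀ β ∈ sphere 0 (4 * m), β ∉ ball b (30 * (m / k)) →
      ∀ β' ∈ sphere 0 (16 * m), β' ∉ ball b' (30 * (m / k)) → ∃ γ' : ℕ → Vert,
        ZGood m (m / k') γ' n₂ β β' ∧
        ∀ w ∈ zone γ' n₂ (m / k'), ∀ z ∈ zone γ n₁ (m / k), w ∉ ball z (8 * (m / k'))

/-- `N` is a net of mesh `s` of the sphere of radius `t`. -/
structure IsNet (N : Finset Vert) (t s : ℕ) : Prop where
  sub : ∀ v ∈ N, v ∈ sphere 0 t
  cov : ∀ u ∈ sphere 0 t, ∃ v ∈ N, u ∈ ball v s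

/-- First event: landing of `x` near `b`, of a cluster of `L` near `b'`, and the clusters of `y` and
of `T` are far from these points. -/
def E0 (Z : Dat) (s : ℕ) (b b' : Vert) : Set Config :=
  {ω | (∃ u ∈ ball b s, Conn ω Z.B Z.x u) ∧ Z.x ∉ cl ω Z.B {Z.y} ∧
    (∃ u ∈ Z.L, u ∉ cl ω Z.D Z.T ∧ ∃ w ∈ ball b' s, Conn ω Z.D u w) ∧
    (cl ω Z.B {Z.y} ∩ sphere 0 (4 * Z.m)).Nonempty ∧
    (cl ω Z.D Z.T ∩ sphere 0 (16 * Z.m)).Nonempty ∧
    Disjoint (cl ω Z.B {Z.y}) (ball b (38 * s)) ∧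
    Disjoint (cl ω Z.D Z.T) (ball b' (38 * s))}

/-- The glued domain. -/
def GG (Z : Dat) (s : ℕ) (γ : ℕ → Vert) (n : ℕ) : Set Vert := Z.B ∪ Z.D ∪ zone γ n s

/-- The three clusters after the first gluing: conditions on their values. -/
def P1 (Z : Dat) (s : ℕ) (b b' : Vert) (S1 S2 S3 : Set Vert) : Prop :=
  (S1 ∩ Z.L).Nonempty ∧ (S2 ∩ sphere 0 (4 * Z.m)).Nonempty ∧
    (S3 ∩ sphere 0 (16 * Z.m)).Nonempty ∧ S2 ⊆ Z.B ∧ S3 ⊆ Z.D ∧
    Disjoint S2 (ball b (38 * s)) ∧ Disjoint S3 (ball b' (38 * s)) ∧ Disjoint S1 S2 ∧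
    Disjoint S1 S3

/-- Second event: `x` is glued to `L` in the glued domain `G`. -/
def E1 (Z : Dat) (s : ℕ) (b b' : Vert) (G : Set Vert) : Set Config :=
  {ω | P1 Z s b b' (cl ω G {Z.x}) (cl ω G {Z.y}) (cl ω G Z.T)}

/-- The clusters are not near to each other at the scale `t`. -/
def NBp (Z : Dat) (t : ℕ) (S1 S2 S3 : Set Vert) : Prop :=
  (∀ z ∈ sphere 0 (4 * Z.m), (S1 ∩ ball z t).Nonempty → ¬ (S2 ∩ ball z t).Nonempty) ∧
    ∀ z ∈ Z.Bd, (S1 ∩ ball z t).Nonempty → ¬ (S3 ∩ ball z t).Nonempty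

/-- The clusters of the glued domain are not near to each other at the scale `t`. -/
def NB (Z : Dat) (t : ℕ) (G : Set Vert) : Set Config :=
  {ω | NBp Z t (cl ω G {Z.x}) (cl ω G {Z.y}) (cl ω G Z.T)}

/-- Vertices of `S1` with an edge leaving the glued domain. -/
def Exits (W G S1 : Set Vert) : Set Vert := {v | v ∈ S1 ∧ ∃ e w, Joins e v w ∧ w ∈ W ∧ w ∉ G}

/-- The sealing event for given values of the clusters: for some values of the determined edges, no
ball containing an exit is joined to distance `3 s`. -/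
def SealP (Z : Dat) (s : ℕ) (V : Finset Vert) (G S1 S2 S3 : Set Vert) : Set Config :=
  {ω | ∃ ω' : Config, (∀ e ∉ touch (eIn Z.R G) (S1 ∪ S2 ∪ S3), ω' e = ω e) ∧
    ∀ v ∈ V, (Exits Z.W G S1 ∩ ball v s).Nonempty → ω' ∉ ArmBox v s (3 * s)}

/-- The sealing event. -/
def Seal (Z : Dat) (s : ℕ) (V : Finset Vert) (G : Set Vert) : Set Config :=
  {ω | ω ∈ SealP Z s V G (cl ω G {Z.x}) (cl ω G {Z.y}) (cl ω G Z.T)}

/-- Third event: the cluster of `x` in the universe meets `L`, avoids the zone of the chain `γ'`, and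
off this cluster `y` and `T` reach the ends of the chain. -/
def E2 (Z : Dat) (s : ℕ) (γ' : ℕ → Vert) (n : ℕ) (β β' : Vert) : Set Config :=
  {ω | (cl ω Z.W {Z.x} ∩ Z.L).Nonempty ∧ Disjoint (cl ω Z.W {Z.x}) (zone γ' n s) ∧
    (∃ u ∈ ball β s, Conn ω (Z.B \ cl ω Z.W {Z.x}) Z.y u) ∧
    ∃ w ∈ Z.T, ∃ v ∈ ball β' s, Conn ω (Z.D \ cl ω Z.W {Z.x}) w v}

/-- Final event: `x` is joined to `L`, and `y` is joined to `T` off the cluster of `x`. -/
def Fin (Z : Dat) (s : ℕ) (γ' : ℕ → Vert) (n : ℕ) : Set Config :=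
  {ω | (cl ω Z.W {Z.x} ∩ Z.L).Nonempty ∧
    ∃ w ∈ Z.T, Conn ω (GG Z s γ' n \ cl ω Z.W {Z.x}) Z.y w}

/-- The data of the planar gluing with terminals on the sphere of radius `R`. -/
def std (m R : ℕ) (L T : Set Vert) (hm : 10 ≤ m) (hR : 64 * m ≤ R) (hL : L ⊆ sphere 0 R)
    (hT : T ⊆ sphere 0 R) : Dat where
  x := 0
  y := (1, 0)
  E := {(0, 0, false)}
  m := m
  R := R
  D := dom (16 * m) R
  W := ball 0 R
  L := L
  T := T
  hx := by simp [ball, rect]
  hy := by simp [ball, rect]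
  hE := by simp [ball, rect, src, tgt]
  hm := hm
  hD := by
    intro v hv
    have h := hv.2
    simp only [ball, rect, Set.mem_setOf_eq, Prod.fst_zero, Prod.snd_zero, not_and_or, not_le,
      nrm] at h ⊢
    rcases abs_cases v.1 with h1 | h1 <;> rcases abs_cases v.2 with h2 | h2 <;> omega
  hDW := fun v hv => hv.1
  hBW := by
    intro v hv
    simp only [ball, rect, Set.mem_setOf_eq, Prod.fst_zero, Prod.snd_zero] at hv ⊢
    omega
  hWD := by
    intro v hv hv'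
    refine ⟨hv, fun h => hv' ?_⟩
    simp only [ball, rect, Set.mem_setOf_eq, Prod.fst_zero, Prod.snd_zero] at h ⊢
    omega
  hWR := fun v hv => hv
  hL := by
    intro v hv
    have h := hL hv
    simp only [sphere, dom, nrm, ball, rect, Set.mem_setOf_eq, Prod.fst_zero, Prod.snd_zero,
      Set.mem_diff] at h ⊢
    rcases abs_cases v.1 with h1 | h1 <;> rcases abs_cases v.2 with h2 | h2 <;> omega
  hT := by
    intro v hv
    have h := hT hv
    simp only [sphere, dom, nrm, ball, rect, Set.mem_setOf_eq, Prod.fst_zero, Prod.snd_zero,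
      Set.mem_diff] at h ⊢
    rcases abs_cases v.1 with h1 | h1 <;> rcases abs_cases v.2 with h2 | h2 <;> omega

end Pool.Agent.H57.EX

end

section

/-!
# Open paths: last exits, comparison of clusters in two domains
-/

open MeasureTheory ProbabilityTheory unitInterval

namespace Pool.Agent.H57.EX

open Pool.Agent.H89.Perc Pool.Agent.H29.Sep

/-- Monotonicity in the domain and in the configuration (only the edges of the smaller domain
matter). -/
theorem conn_congr {ω ω' : Config} {S T : Set Vert} {u v : Vert} (h : Conn ω S u v) (hST : S ⊆ T)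
    (he : ∀ e, src e ∈ S → tgt e ∈ S → ω e = true → ω' e = true) : Conn ω' T u v := by
  refine ⟨hST h.1, Relation.ReflTransGen.mono ?_ _ _ h.2⟩
  rintro a b ⟨ha, hb, e, hj, ho⟩
  refine ⟨hST ha, hST hb, e, hj, ?_⟩
  rcases hj with ⟨h1, h2⟩ | ⟨h1, h2⟩
  · exact he e (h1 ▸ ha) (h2 ▸ hb) ho
  · exact he e (h2 ▸ hb) (h1 ▸ ha) ho

/-- The last exit of a path from the set `S`. -/
theorem last_exit {ω : Config} {W S : Set Vert} {x p : Vert} (h : Conn ω W x p) (hx : x ∈ S)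
    (hp : p ∉ S) : ∃ v ∈ S, ∃ w, w ∉ S ∧ v ∈ W ∧ w ∈ W ∧ (∃ e, Joins e v w ∧ ω e = true) ∧
      Conn ω (W \ S) w p := by
  obtain ⟨v, w, hv, _, hstep, hc⟩ := h.exists_last hx hp
  exact ⟨v, hv, w, hc.mem_left.2, hstep.1, hstep.2.1, hstep.2.2, hc⟩

/-- First exit from a ball: the part of a path up to the sphere. -/
theorem reach_sphere {ω : Config} {D : Set Vert} {z u w : Vert} {ρ : ℕ} (h : Conn ω D u w)
    (hu : u ∈ ball z ρ) (hw : w ∉ ball z ρ ∨ w ∈ sphere z ρ) :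
    ∃ v ∈ sphere z ρ, Conn ω (D ∩ ball z ρ) u v :=
  h.to_sphere hu hw

/-- The start of a path entering `ball 0 (t - 1)`, backwards. -/
private theorem walk_enter {ω : Config} {D : Set Vert} {z w : Vert} {t : ℕ} (ht : 1 ≤ t)
    (h : Conn ω D w z) (hz : z ∈ ball 0 (t - 1)) (hw : w ∉ ball 0 (t - 1)) :
    ∃ v ∈ sphere 0 t, Conn ω (D \ ball 0 (t - 1)) v w := by
  obtain ⟨a, a', h1, h2, h3, _⟩ := h.exists_hit hw hz
  refine ⟨a, ?_, h1.symm⟩
  have h4 := h1.mem_right.2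
  have h5 := h2.fst_le
  have h6 := h2.snd_le
  have h7 : ((t - 1 : ℕ) : ℤ) = (t : ℤ) - 1 := by omega
  simp only [mem_ball, Prod.fst_zero, Prod.snd_zero, h7] at h3 h4
  simp only [sphere, ball, rect, Set.mem_ofPred_eq, Prod.fst_zero, Prod.snd_zero]
  omega

/-- Last visit of a ball: the part of a path after the sphere. -/
theorem leave_sphere {ω : Config} {D : Set Vert} {u w : Vert} {t : ℕ} (ht : 1 ≤ t)
    (h : Conn ω D u w) (hu : u ∈ ball 0 t) (hw : w ∉ ball 0 (t - 1)) :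
    ∃ v ∈ sphere 0 t, Conn ω (D \ ball 0 (t - 1)) v w := by
  by_cases hub : u ∈ ball 0 (t - 1)
  · exact walk_enter ht h.symm hub hw
  by_contra hno
  push Not at hno
  have key : Conn ω (D \ ball 0 (t - 1)) w u := by
    refine h.symm.induction_right (P := fun x => Conn ω (D \ ball 0 (t - 1)) w x)
      (Conn.refl ⟨h.mem_right, hw⟩) ?_
    intro a b hwa hab ha
    by_cases hb : b ∈ ball 0 (t - 1)
    · obtain ⟨v, hv, hc⟩ := walk_enter ht (hwa.tail hab) hb hw
      exact absurd hc (hno v hv)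
    · exact ha.tail ⟨ha.mem_right, ⟨hab.2.1, hb⟩, hab.2.2⟩
  refine hno u ?_ key.symm
  have h7 : ((t - 1 : ℕ) : ℤ) = (t : ℤ) - 1 := by omega
  simp only [mem_ball, Prod.fst_zero, Prod.snd_zero, h7] at hu hub
  simp only [sphere, ball, rect, Set.mem_ofPred_eq, Prod.fst_zero, Prod.snd_zero]
  omega

/-- A path which starts in a cluster stays in this cluster. -/
theorem conn_in_cl {ω : Config} {D X : Set Vert} {u v : Vert} (h : Conn ω D u v)
    (hu : u ∈ cl ω D X) : Conn ω (cl ω D X) u v := by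
  obtain ⟨x, hx, hxu⟩ := hu
  refine h.induction_right (P := fun y => Conn ω (cl ω D X) u y)
    (Conn.refl ⟨x, hx, hxu⟩) ?_
  intro a b hua hab ha
  refine ha.tail ⟨ha.mem_right, ⟨x, hx, (hxu.trans hua).tail hab⟩, hab.2.2⟩

theorem cl_mono {ω : Config} {D G X : Set Vert} (h : D ⊆ G) : cl ω D X ⊆ cl ω G X := by
  rintro v ⟨u, hu, hc⟩
  exact ⟨u, hu, hc.mono_set h⟩

/-- If no open edge of `G` leaves the domain `D` from the cluster of `X` in `D`, this cluster is the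
cluster in `G`. -/
theorem cl_eq_cl {ω : Config} {D G X : Set Vert} (h : D ⊆ G) (hX : ∀ v ∈ X, v ∈ G → v ∈ D)
    (hstep : ∀ v ∈ cl ω D X, ∀ e w, Joins e v w → w ∈ G → w ∈ D) : cl ω G X = cl ω D X := by
  refine Set.Subset.antisymm ?_ (cl_mono h)
  rintro v ⟨u, hu, hc⟩
  refine ⟨u, hu, ?_⟩
  refine hc.induction_right (P := fun y => Conn ω D u y)
    (Conn.refl (hX u hu hc.mem_left)) ?_
  intro a b _ hab ha
  obtain ⟨e, hj, ho⟩ := hab.2.2
  exact ha.tail ⟨ha.mem_right, hstep a ⟨u, hu, ha⟩ e b hj hab.2.1, e, hj, ho⟩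

theorem mem_cl_self {ω : Config} {D : Set Vert} {v : Vert} (h : v ∈ D) : v ∈ cl ω D {v} :=
  ⟨v, rfl, Conn.refl h⟩

theorem mem_cl_iff {ω : Config} {D : Set Vert} {u v : Vert} :
    v ∈ cl ω D {u} ↔ Conn ω D u v := by
  constructor
  · rintro ⟨x, hx, hc⟩
    rw [Set.mem_singleton_iff] at hx
    rwa [← hx]
  · intro h
    exact ⟨u, rfl, h⟩

/-- Two clusters are equal or disjoint. -/
theorem cl_disjoint {ω : Config} {D X : Set Vert} {x : Vert} (hx : x ∉ cl ω D X) :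
    Disjoint (cl ω D {x}) (cl ω D X) := by
  rw [Set.disjoint_left]
  rintro v hv ⟨u, hu, hc⟩
  exact hx ⟨u, hu, hc.trans (mem_cl_iff.1 hv).symm⟩

end Pool.Agent.H57.EX

end

section

/-!
# Probability with some closed edges, norms
-/

open MeasureTheory ProbabilityTheory unitInterval

namespace Pool.Agent.H57.EX

open Pool.Agent.H89.Perc Pool.Agent.H61.NC Pool.Agent.H29.Sep

variable {q : I} {E : Finset Edge}

theorem PrE_nonneg {A : Set Config} : 0 ≤ PrE q E A := by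
  exact Pr_nonneg

theorem PrE_mono {A B : Set Config} (h : A ⊆ B) : PrE q E A ≤ PrE q E B := by
  exact Pr_mono fun _ hω => h hω

theorem PrE_union_le {A B : Set Config} : PrE q E (A ∪ B) ≤ PrE q E A + PrE q E B := by
  have h : {ω | shut E ω ∈ A ∪ B} = {ω | shut E ω ∈ A} ∪ {ω | shut E ω ∈ B} := rfl
  unfold PrE
  rw [h]
  exact Pr_union_le

theorem PrE_biUnion_le {ι : Type*} (F : Finset ι) (A : ι → Set Config) :
    PrE q E (⋃ i ∈ F, A i) ≤ ∑ i ∈ F, PrE q E (A i) := by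
  unfold PrE
  have h : {ω | shut E ω ∈ ⋃ i ∈ F, A i} = ⋃ i ∈ F, {ω | shut E ω ∈ A i} := by
    ext ω
    simp
  rw [h]
  exact Pr_biUnion_le F _

/-- Events which do not look at the closed edges. -/
theorem PrE_eq {t : Finset Edge} {A : Set Config} (h : LocalOn t A) (hd : Disjoint t E) :
    PrE q E A = Pr q A := by
  unfold PrE
  congr 1
  ext ω
  have h1 : ∀ e ∈ t, shut E ω e = ω e := by
    intro e he
    have h2 : e ∉ E := fun h3 => (Finset.disjoint_left.1 hd he) h3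
    simp [shut, h2]
  constructor
  · exact h _ _ h1
  · exact h _ _ fun e he => (h1 e he).symm

theorem PrE_inter {s t : Finset Edge} {A B : Set Config} (hA : LocalOn s A) (hB : LocalOn t B)
    (hd : Disjoint s t) : PrE q E (A ∩ B) = PrE q E A * PrE q E B := by
  classical
  unfold PrE
  have h : {ω | shut E ω ∈ A ∩ B} = {ω | shut E ω ∈ A} ∩ {ω | shut E ω ∈ B} := rfl
  rw [h]
  exact Pr_inter_of_disjoint (localOn_shut hA) (localOn_shut hB)
    (hd.mono Finset.sdiff_subset Finset.sdiff_subset)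

/-- Closing edges makes a decreasing event more likely. -/
theorem le_PrE_of_decr {t : Finset Edge} {A : Set Config} (h : LocalOn t A) (iA : Incr Aᶜ) :
    Pr q A ≤ PrE q E A := by
  exact Pr_le_shut h iA

/-- Conditional FKG (see `cond_fkg`). -/
theorem cond_fkgE {ι : Type*} (F : Finset ι) (X A O : ι → Set Config) (tX tA tO : ι → Finset Edge)
    {c : ℝ} (hc : 0 ≤ c)
    (hdisj : ∀ i ∈ F, ∀ j ∈ F, i ≠ j → Disjoint (X i) (X j))
    (hX : ∀ i ∈ F, LocalOn (tX i) (X i)) (hA : ∀ i ∈ F, LocalOn (tA i) (A i))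
    (hO : ∀ i ∈ F, LocalOn (tO i) (O i)) (iA : ∀ i ∈ F, Incr (A i)) (iO : ∀ i ∈ F, Incr (O i))
    (h1 : ∀ i ∈ F, Disjoint (tX i) (tA i)) (h2 : ∀ i ∈ F, Disjoint (tX i) (tO i))
    (hP : ∀ i ∈ F, c ≤ PrE q E (O i)) :
    c * PrE q E (⋃ i ∈ F, X i ∩ A i) ≤ PrE q E (⋃ i ∈ F, X i ∩ (A i ∩ O i)) := by
  classical
  have e1 : {ω | shut E ω ∈ ⋃ i ∈ F, X i ∩ A i} =
      ⋃ i ∈ F, {ω | shut E ω ∈ X i} ∩ {ω | shut E ω ∈ A i} := by
    ext ω
    simp
  have e2 : {ω | shut E ω ∈ ⋃ i ∈ F, X i ∩ (A i ∩ O i)} =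
      ⋃ i ∈ F, {ω | shut E ω ∈ X i} ∩ ({ω | shut E ω ∈ A i} ∩ {ω | shut E ω ∈ O i}) := by
    ext ω
    simp
  unfold PrE at hP ⊢
  rw [e1, e2]
  refine cond_fkg F _ _ _ (fun i => tX i \ E) (fun i => tA i \ E) (fun i => tO i \ E) hc ?_
    (fun i hi => localOn_shut (hX i hi)) (fun i hi => localOn_shut (hA i hi))
    (fun i hi => localOn_shut (hO i hi)) (fun i hi => incr_shut (iA i hi))
    (fun i hi => incr_shut (iO i hi))
    (fun i hi => (h1 i hi).mono Finset.sdiff_subset Finset.sdiff_subset)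
    (fun i hi => (h2 i hi).mono Finset.sdiff_subset Finset.sdiff_subset) hP
  intro i hi j hj hij
  rw [Set.disjoint_left]
  intro ω hω hω'
  exact (Set.disjoint_left.1 (hdisj i hi j hj hij)) hω hω'

/-- Conditional independence (see `cond_indep`). -/
theorem cond_indepE {ι : Type*} (F : Finset ι) (X O : ι → Set Config) (tX tO : ι → Finset Edge)
    {c : ℝ} (hc : 0 ≤ c)
    (hdisj : ∀ i ∈ F, ∀ j ∈ F, i ≠ j → Disjoint (X i) (X j))
    (hX : ∀ i ∈ F, LocalOn (tX i) (X i)) (hO : ∀ i ∈ F, LocalOn (tO i) (O i))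
    (h2 : ∀ i ∈ F, Disjoint (tX i) (tO i)) (hP : ∀ i ∈ F, c ≤ PrE q E (O i)) :
    c * PrE q E (⋃ i ∈ F, X i) ≤ PrE q E (⋃ i ∈ F, X i ∩ O i) := by
  classical
  have e1 : {ω | shut E ω ∈ ⋃ i ∈ F, X i} = ⋃ i ∈ F, {ω | shut E ω ∈ X i} := by
    ext ω
    simp
  have e2 : {ω | shut E ω ∈ ⋃ i ∈ F, X i ∩ O i} =
      ⋃ i ∈ F, {ω | shut E ω ∈ X i} ∩ {ω | shut E ω ∈ O i} := by
    ext ω
    simp
  unfold PrE at hP ⊢
  rw [e1, e2]
  refine cond_indep F _ _ (fun i => tX i \ E) (fun i => tO i \ E) hc ?_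
    (fun i hi => localOn_shut (hX i hi)) (fun i hi => localOn_shut (hO i hi))
    (fun i hi => (h2 i hi).mono Finset.sdiff_subset Finset.sdiff_subset) hP
  intro i hi j hj hij
  rw [Set.disjoint_left]
  intro ω hω hω'
  exact (Set.disjoint_left.1 (hdisj i hi j hj hij)) hω hω'

theorem mem_eIn {R : ℕ} {D : Set Vert} {e : Edge} (h : D ⊆ ball 0 R) :
    e ∈ eIn R D ↔ src e ∈ D ∧ tgt e ∈ D := by
  classical
  unfold eIn
  rw [Finset.mem_filter]
  constructor
  · exact fun h1 => h1.2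
  · intro h1
    refine ⟨mem_eRect.2 ?_, h1⟩
    have h2 := h h1.1
    simpa [ball] using h2

theorem mem_ball_zero {v : Vert} {r : ℕ} : v ∈ ball 0 r ↔ nrm v ≤ r := by
  simp only [mem_ball, nrm, max_le_iff, abs_le, Prod.fst_zero, Prod.snd_zero, zero_sub, zero_add]
  tauto

theorem mem_sphere_zero {v : Vert} {r : ℕ} : v ∈ sphere 0 r ↔ nrm v = r := by
  have h1 : v ∈ sphere 0 r ↔ v ∈ ball 0 r ∧
      (v.1 = -(r : ℤ) ∨ v.1 = r ∨ v.2 = -(r : ℤ) ∨ v.2 = r) := by
    change v ∈ ball 0 r ∧ _ ↔ _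
    simp only [Prod.fst_zero, Prod.snd_zero, zero_sub, zero_add]
  rw [h1, mem_ball]
  simp only [nrm, Prod.fst_zero, Prod.snd_zero, zero_sub, zero_add]
  rcases abs_cases v.1 with h2 | h2 <;> rcases abs_cases v.2 with h3 | h3 <;>
    rcases max_cases |v.1| |v.2| with h4 | h4 <;> omega

theorem mem_ball_self (v : Vert) (r : ℕ) : v ∈ ball v r := by
  exact self_mem_ball

theorem mem_ball_comm {u v : Vert} {r : ℕ} : u ∈ ball v r ↔ v ∈ ball u r := by
  simp only [mem_ball]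
  omega

theorem ball_trans {u v w : Vert} {a b : ℕ} (h : u ∈ ball v a) (h' : w ∈ ball u b) :
    w ∈ ball v (a + b) := by
  simp only [mem_ball] at h h' ⊢
  push_cast
  omega

theorem ball_mono {v : Vert} {a b : ℕ} (h : a ≤ b) : ball v a ⊆ ball v b := by
  intro u hu
  simp only [mem_ball] at hu ⊢
  omega

theorem nrm_le_of_mem_ball {u v : Vert} {a : ℕ} (h : u ∈ ball v a) : nrm u ≤ nrm v + a := by
  simp only [mem_ball] at h
  simp only [nrm]
  rcases abs_cases v.1 with h2 | h2 <;> rcases abs_cases v.2 with h3 | h3 <;>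
    rcases max_cases |v.1| |v.2| with h4 | h4 <;>
    refine max_le (abs_le.2 ⟨?_, ?_⟩) (abs_le.2 ⟨?_, ?_⟩) <;> omega

theorem le_nrm_of_mem_ball {u v : Vert} {a : ℕ} (h : u ∈ ball v a) : nrm v - a ≤ nrm u := by
  have h1 := nrm_le_of_mem_ball (mem_ball_comm.1 h)
  omega

theorem joins_ball {e : Edge} {u v : Vert} (h : Joins e u v) : v ∈ ball u 1 := by
  obtain ⟨x, y, b⟩ := e
  rcases h with ⟨rfl, rfl⟩ | ⟨rfl, rfl⟩ <;> cases b <;> simp [mem_ball, src, tgt] <;> omega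

theorem joins_symm {e : Edge} {u v : Vert} (h : Joins e u v) : Joins e v u := by
  exact h.symm

end Pool.Agent.H57.EX

end

section

/-!
# Consequences of the box-crossing regime: blocking, decay, half circuits
-/

open MeasureTheory ProbabilityTheory unitInterval

namespace Pool.Agent.H26.HP

open Pool.Agent.H89.Perc
open Pool.Agent.H61.NC (RSWreg)

variable {ω ω' : Config} {D X S : Set Vert} {R n : ℕ} {q : I} {c : ℝ}

lemma RSWreg.mono {m : ℕ} (h : RSWreg c n q) (hm : m ≤ n) : RSWreg c m q :=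
  fun k h1 h2 => h k h1 (h2.trans hm)

/-- Four crossings block all dual paths. -/
theorem circuit_of {p : I} {c : ℝ} (hc : 0 < c) {s r : ℕ} (hr : 4 * (s + 1) ≤ r)
    (hreg : ∀ m : ℕ, 1 ≤ m → m ≤ r → c ≤ Pr p {ω | HCross ω 0 (4 * m) 0 m}) :
    c ^ 4 ≤ Pr p {ω | dual ω ∉ DArm s r} := by
  classical
  obtain ⟨m, hm⟩ : ∃ m : ℕ, r = m + s + 2 := ⟨r - s - 2, by omega⟩
  have hm1 : 1 ≤ m := by omega
  have h2r : 2 * r ≤ 4 * m := by omega
  have key : ∀ t : ℤ, c ≤ Pr p {ω | HCross ω (-r) r t (t + m)} := by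
    intro t
    have h1 : c ≤ Pr p {ω | HCross ω 0 (2 * r) 0 m} :=
      (hreg m hm1 (by omega)).trans (Pr_mono fun ω h => HCross.mono h le_rfl (by omega) (by omega)
        le_rfl le_rfl)
    have h3 := Pr_hcross_translate (p := p) (a := 0) (b := 2 * (r : ℤ)) (c := 0) (d := m) (-r) t
    have e1 : (0 : ℤ) + -r = -r := by ring
    have e2 : 2 * (r : ℤ) + -r = r := by ring
    have e3 : (0 : ℤ) + t = t := by ring
    have e4 : (m : ℤ) + t = t + m := by ring
    rw [e1, e2, e3, e4] at h3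
    rw [h3]
    exact h1
  have keyV : ∀ t : ℤ, c ≤ Pr p {ω | VCross ω t (t + m) (-r) r} := by
    intro t
    rw [Pr_vcross_eq_hcross]
    exact key t
  have k1 := keyV (s + 1)
  have k2 := keyV (-r + 1)
  have k3 := key (s + 1)
  have k4 := key (-r + 1)
  have e1 : (s : ℤ) + 1 + m = r - 1 := by omega
  have e2 : -(r : ℤ) + 1 + m = -s - 1 := by omega
  rw [e1] at k1 k3
  rw [e2] at k2 k4
  have h12 := fkg (p := p) (localOn_vcross ((s : ℤ) + 1) (r - 1) (-r) r)
    (localOn_vcross (-(r : ℤ) + 1) (-s - 1) (-r) r) (incr_vcross _ _ _ _) (incr_vcross _ _ _ _)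
  have h34 := fkg (p := p) (localOn_hcross (-(r : ℤ)) r (s + 1) (r - 1))
    (localOn_hcross (-(r : ℤ)) r (-r + 1) (-s - 1)) (incr_hcross _ _ _ _) (incr_hcross _ _ _ _)
  have h1234 := fkg (p := p) ((localOn_vcross ((s : ℤ) + 1) (r - 1) (-r) r).inter'
      (localOn_vcross (-(r : ℤ) + 1) (-s - 1) (-r) r))
    ((localOn_hcross (-(r : ℤ)) r (s + 1) (r - 1)).inter'
      (localOn_hcross (-(r : ℤ)) r (-r + 1) (-s - 1)))
    ((incr_vcross _ _ _ _).inter (incr_vcross _ _ _ _))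
    ((incr_hcross _ _ _ _).inter (incr_hcross _ _ _ _))
  have h12' := (mul_le_mul k1 k2 hc.le Pr_nonneg).trans h12
  have h34' := (mul_le_mul k3 k4 hc.le Pr_nonneg).trans h34
  have h' := (mul_le_mul h12' h34' (by positivity) Pr_nonneg).trans h1234
  have e : c ^ 4 = c * c * (c * c) := by ring
  rw [e]
  refine h'.trans (Pr_mono ?_)
  rintro ω ⟨⟨w1, w2⟩, ⟨w3, w4⟩⟩
  exact block (by omega) w1 w2 w3 w4

/-- In the box-crossing regime an annulus is not crossed with probability at least `c⁴`. -/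
theorem armBox_le_reg (hc : 0 < c) (h : RSWreg c n q) {s r : ℕ} (hr : 4 * (s + 1) ≤ r)
    (hrn : r ≤ n) : Pr q (ArmBox 0 s r) ≤ 1 - c ^ 4 := by
  have h1 := circuit_of (p := σ q) hc hr fun m h1 h2 => (h m h1 (h2.trans hrn)).2
  have h2 := Pr_compl (p := σ q) (localOn_dual_DArm s r)
  have h3 : {ω : Config | dual ω ∉ DArm s r}ᶜ = {ω | dual ω ∈ DArm s r} := by
    ext ω
    simp only [Set.mem_compl_iff, Set.mem_ofPred_eq, not_not]
  rw [h3, Pr_dual (circuit_localOn_DArm s r), unitInterval.symm_symm] at h2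
  have h4 : Pr q (ArmBox 0 s r) ≤ Pr q (DArm s r) :=
    Pr_mono (armBox_subset_DArm (by omega))
  linarith

lemma reg_le_one (h : RSWreg c n q) (hn : 1 ≤ n) : c ≤ 1 :=
  ((h 1 le_rfl hn).1).trans Pr_le_one

/-- The complement has probability at least `c⁴`. -/
theorem noCross_reg (hc : 0 < c) (h : RSWreg c n q) {s r : ℕ} (hr : 4 * (s + 1) ≤ r)
    (hrn : r ≤ n) : c ^ 4 ≤ Pr q (ArmBox 0 s r)ᶜ := by
  rw [Pr_compl (localOn_armBox 0 s r)]
  linarith [armBox_le_reg hc h hr hrn]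

lemma armBox_subset_ann {s' s r R : ℕ} (hs' : s' ≤ s) (hs : s < r) (hr : r ≤ R) :
    ArmBox 0 s' R ⊆ Ann s r := by
  rintro ω ⟨w₀, hw₀, u, hu, hc⟩
  have hw₀s : w₀ ∈ ball 0 s := ball_subset_ball hs' hw₀
  have hw₀r : w₀ ∈ ball 0 r := ball_subset_ball hs.le hw₀s
  have h1 : ∃ x ∈ sphere 0 r, Conn ω (ball 0 R ∩ ball 0 r) w₀ x := by
    refine hc.to_sphere hw₀r ?_
    obtain ⟨hb, h⟩ := hu
    by_cases h2 : u ∈ ball 0 r
    · refine Or.inr ⟨h2, ?_⟩
      simp only [mem_ball, Prod.fst_zero, Prod.snd_zero] at hb h h2 ⊢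
      omega
    · exact Or.inl h2
  obtain ⟨x, hx, hc'⟩ := h1
  have hxs : x ∉ ball 0 s := by
    intro hxs
    obtain ⟨_, h⟩ := hx
    simp only [mem_ball, Prod.fst_zero, Prod.snd_zero] at hxs h
    omega
  obtain ⟨w, w', hw, _, hst, hl⟩ := hc'.exists_last (T := ball 0 s) hw₀s hxs
  refine ⟨w', ?_, x, hx, hl.mono_set ?_⟩
  · have h2 := hst.fst_le
    have h3 := hst.snd_le
    simp only [mem_ball, Prod.fst_zero, Prod.snd_zero] at hw ⊢
    push_cast
    omega
  · exact fun y hy => ⟨hy.1.2, hy.2⟩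

/-- Intersections of the annulus events at scales `16 ^ j s`. -/
def AnnI (s : ℕ) : ℕ → Set Config
  | 0 => Set.univ
  | k + 1 => AnnI s k ∩ Ann (16 ^ k * s) (16 ^ (k + 1) * s)

lemma localOn_annI (s k : ℕ) : LocalOn (eBall (16 ^ k * s)) (AnnI s k) := by
  classical
  induction k with
  | zero => exact fun _ _ _ _ => Set.mem_univ _
  | succ k ih =>
    have h1 : (16 : ℕ) ^ k * s ≤ 16 ^ (k + 1) * s :=
      Nat.mul_le_mul_right _ (Nat.pow_le_pow_right (by norm_num) (Nat.le_succ k))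
    exact (ih.mono (eBall_subset h1)).inter ((localOn_ann _ _).mono Finset.sdiff_subset)

lemma armBox_subset_annI {s R : ℕ} (hs : 1 ≤ s) (k : ℕ) (h : 16 ^ k * s ≤ R) :
    ArmBox 0 s R ⊆ AnnI s k := by
  induction k with
  | zero => exact Set.subset_univ _
  | succ k ih =>
    have h1 : (16 : ℕ) ^ k * s < 16 ^ (k + 1) * s :=
      Nat.mul_lt_mul_of_pos_right (Nat.pow_lt_pow_right (by norm_num) (Nat.lt_succ_self k)) hs
    have h2 : s ≤ 16 ^ k * s := Nat.le_mul_of_pos_left s (by positivity)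
    exact Set.subset_inter (ih (h1.le.trans h)) (armBox_subset_ann h2 h1 h)

/-- Polynomial decay of annulus crossings in the box-crossing regime. -/
theorem armBox_decay (c : ℝ) (hc : 0 < c) : ∃ C κ : ℝ, 0 < C ∧ 0 < κ ∧ κ ≤ 1 ∧
    ∀ (n : ℕ) (q : I), RSWreg c n q → ∀ s r : ℕ, 1 ≤ s → s ≤ r → r ≤ n →
      Pr q (ArmBox 0 s r) ≤ C * ((s : ℝ) / r) ^ κ := by
  classical
  set c' : ℝ := min c 1 with hc'
  have hc'0 : 0 < c' := lt_min hc one_pos
  have hc'1 : c' ≤ 1 := min_le_right _ _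
  set b : ℝ := 1 - c' ^ 4 / 2 with hb
  have h4 : c' ^ 4 ≤ 1 := pow_le_one₀ hc'0.le hc'1
  have h40 : 0 < c' ^ 4 := by positivity
  have hb0 : 0 < b := by linarith
  have hb1 : b < 1 := by linarith
  have hb2 : 1 / 2 ≤ b := by linarith
  have hlog : Real.log b < 0 := Real.log_neg hb0 hb1
  have hlog16 : 0 < Real.log 16 := Real.log_pos (by norm_num)
  have hκ : 0 < - Real.log b / Real.log 16 := div_pos (neg_pos.2 hlog) hlog16
  refine ⟨1 / b, - Real.log b / Real.log 16, by positivity, hκ, ?_, ?_⟩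
  · rw [div_le_one hlog16]
    have h1 : Real.log (1 / 16) ≤ Real.log b := Real.log_le_log (by norm_num) (by linarith)
    rw [Real.log_div one_ne_zero (by norm_num), Real.log_one, zero_sub] at h1
    linarith
  intro n q hreg s r hs hsr hrn
  have hreg' : RSWreg c' n q := fun m h1 h2 =>
    ⟨(min_le_left _ _).trans (hreg m h1 h2).1, (min_le_left _ _).trans (hreg m h1 h2).2⟩
  have key : ∀ k : ℕ, 16 ^ k * s ≤ n → Pr q (AnnI s k) ≤ b ^ k := by
    intro k
    induction k with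
    | zero => intro _; rw [pow_zero]; exact Pr_le_one
    | succ k ih =>
      intro hk
      have h0 : (16 : ℕ) ^ k * s ≤ 16 ^ (k + 1) * s :=
        Nat.mul_le_mul_right _ (Nat.pow_le_pow_right (by norm_num) (Nat.le_succ k))
      have ih' := ih (h0.trans hk)
      have h1 : Pr q (AnnI s (k + 1)) =
          Pr q (AnnI s k) * Pr q (Ann (16 ^ k * s) (16 ^ (k + 1) * s)) :=
        Pr_inter_of_disjoint (localOn_annI s k) (localOn_ann _ _) Finset.disjoint_sdiff
      have h2 : Pr q (Ann (16 ^ k * s) (16 ^ (k + 1) * s)) ≤ b := by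
        have h3 : 4 * (16 ^ k * s + 1 + 1) ≤ 16 ^ (k + 1) * s := by
          have : 1 ≤ 16 ^ k * s := Nat.mul_pos (by positivity) hs
          rw [pow_succ]
          nlinarith
        have h4 := armBox_le_reg hc'0 hreg' h3 hk
        have h5 : Pr q (Ann (16 ^ k * s) (16 ^ (k + 1) * s)) ≤
            Pr q (ArmBox 0 (16 ^ k * s + 1) (16 ^ (k + 1) * s)) := Pr_mono (ann_subset_armBox _ _)
        linarith
      rw [h1, pow_succ]
      exact mul_le_mul ih' h2 Pr_nonneg (pow_nonneg hb0.le k)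
  set k := Nat.log 16 (r / s) with hk
  have hrs : 1 ≤ r / s := Nat.div_pos hsr hs
  have hk1 : 16 ^ k ≤ r / s := Nat.pow_log_le_self 16 (by omega)
  have hk2 : r / s < 16 ^ (k + 1) := Nat.lt_pow_succ_log_self (by norm_num) _
  have hk1' : 16 ^ k * s ≤ r := (Nat.mul_le_mul_right s hk1).trans (Nat.div_mul_le_self r s)
  have hk2' : r < 16 ^ (k + 1) * s := (Nat.div_lt_iff_lt_mul hs).1 hk2
  have h1 : Pr q (ArmBox 0 s r) ≤ b ^ k :=
    (Pr_mono (armBox_subset_annI hs k hk1')).trans (key k (hk1'.trans hrn))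
  refine h1.trans ?_
  have hr0 : (0 : ℝ) < r := by exact_mod_cast (lt_of_lt_of_le hs hsr)
  have hs0 : (0 : ℝ) < s := by exact_mod_cast hs
  have h2 : b ^ (k + 1) ≤ ((s : ℝ) / r) ^ (- Real.log b / Real.log 16) := by
    have h3 : (((1 : ℝ) / 16) ^ (k + 1)) ^ (-Real.log b / Real.log 16) = b ^ (k + 1) := by
      rw [← Real.rpow_natCast ((1 : ℝ) / 16) (k + 1), ← Real.rpow_mul (by norm_num), mul_comm,
        Real.rpow_mul (by norm_num), Real.rpow_natCast]
      congr 1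
      rw [Real.rpow_def_of_pos (by norm_num), Real.log_div one_ne_zero (by norm_num),
        Real.log_one, zero_sub]
      have : -Real.log 16 * (-Real.log b / Real.log 16) = Real.log b := by
        field_simp
      rw [this, Real.exp_log hb0]
    rw [← h3]
    refine Real.rpow_le_rpow (by positivity) ?_ hκ.le
    rw [div_pow, one_pow, div_le_div_iff₀ (by positivity) hr0, one_mul, mul_comm]
    exact_mod_cast hk2'.le
  calc b ^ k = 1 / b * b ^ (k + 1) := by
        rw [pow_succ]; field_simp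
    _ ≤ _ := mul_le_mul_of_nonneg_left h2 (by positivity)

/-- The upper half plane. -/
def up : Set Vert := {v | 0 ≤ v.2}

/-- The half ball around `(z, 0)`. -/
def hb (z : ℤ) (r : ℕ) : Set Vert := ball (z, 0) r ∩ up

lemma mem_hb {z : ℤ} {r : ℕ} {v : Vert} :
    v ∈ hb z r ↔ z - r ≤ v.1 ∧ v.1 ≤ z + r ∧ 0 ≤ v.2 ∧ v.2 ≤ r := by
  simp only [hb, up, Set.mem_inter_iff, mem_ball, Set.mem_ofPred_eq]
  omega

/-- Open half circuit around the origin in the annulus between distances `s` and `2 s`. -/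
def HC (s : ℕ) : Set Config :=
  {ω | VCross ω (-(2 * s)) (-s) 0 (2 * s)} ∩ {ω | HCross ω (-(2 * s)) (2 * s) s (2 * s)} ∩
    {ω | VCross ω s (2 * s) 0 (2 * s)}

lemma incr_HC (s : ℕ) : Incr (HC s) :=
  ((incr_vcross _ _ _ _).inter (incr_hcross _ _ _ _)).inter (incr_vcross _ _ _ _)

lemma localOn_hcross_in {a b c d : ℤ} (hD : D ⊆ ball 0 R) (h : rect a b c d ⊆ D) :
    LocalOn (eIn R D) {ω | HCross ω a b c d} := by
  rintro ω ω' hω ⟨u, v, h1, h2, h3⟩
  refine ⟨u, v, h1, h2, Conn.congr (fun e h4 h5 => hω e ?_) h3⟩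
  exact mem_eIn.2 ⟨mem_eBall.2 (hD (h h4)), h h4, h h5⟩

lemma localOn_vcross_in {a b c d : ℤ} (hD : D ⊆ ball 0 R) (h : rect a b c d ⊆ D) :
    LocalOn (eIn R D) {ω | VCross ω a b c d} := by
  rintro ω ω' hω ⟨u, v, h1, h2, h3⟩
  refine ⟨u, v, h1, h2, Conn.congr (fun e h4 h5 => hω e ?_) h3⟩
  exact mem_eIn.2 ⟨mem_eBall.2 (hD (h h4)), h h4, h h5⟩

lemma localOn_HC {s : ℕ} (hD : D ⊆ ball 0 R) (h : hb 0 (2 * s) ⊆ D) :
    LocalOn (eIn R D) (HC s) := by
  have hsub : ∀ a b c d : ℤ, -(2 * (s : ℤ)) ≤ a → b ≤ 2 * s → 0 ≤ c → d ≤ 2 * s →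
      rect a b c d ⊆ D := by
    intro a b c d h1 h2 h3 h4 v hv
    refine h (mem_hb.2 ?_)
    obtain ⟨k1, k2, k3, k4⟩ := hv
    push_cast
    omega
  exact ((localOn_vcross_in hD (hsub _ _ _ _ (by omega) (by omega) (by omega) (by omega))).inter
    (localOn_hcross_in hD (hsub _ _ _ _ (by omega) (by omega) (by omega) (by omega)))).inter
    (localOn_vcross_in hD (hsub _ _ _ _ (by omega) (by omega) (by omega) (by omega)))

theorem HC_ge (hc : 0 < c) {s : ℕ} (hs : 1 ≤ s) (h : RSWreg c s q) : c ^ 3 ≤ Pr q (HC s) := by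
  classical
  have h0 := (h s hs le_rfl).1
  have k2 : c ≤ Pr q {ω | HCross ω (-(2 * (s : ℤ))) (2 * s) s (2 * s)} := by
    have h3 := Pr_hcross_translate (p := q) (a := 0) (b := 4 * (s : ℤ)) (c := 0) (d := s)
      (-(2 * (s : ℤ))) s
    have e1 : (0 : ℤ) + -(2 * s) = -(2 * s) := by ring
    have e2 : 4 * (s : ℤ) + -(2 * s) = 2 * s := by ring
    have e3 : (0 : ℤ) + s = s := by ring
    have e4 : (s : ℤ) + s = 2 * s := by ring
    rw [e1, e2, e3, e4] at h3
    rw [h3]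
    exact h0
  have kV : ∀ t : ℤ, c ≤ Pr q {ω | VCross ω t (t + s) 0 (2 * s)} := by
    intro t
    rw [Pr_vcross_eq_hcross]
    have h3 := Pr_hcross_translate (p := q) (a := 0) (b := 2 * (s : ℤ)) (c := 0) (d := s) 0 t
    have e2 : 2 * (s : ℤ) + 0 = 2 * s := by ring
    have e3 : (0 : ℤ) + t = t := by ring
    have e4 : (s : ℤ) + t = t + s := by ring
    have e5 : (0 : ℤ) + 0 = 0 := by ring
    rw [e5, e2, e3, e4] at h3
    rw [h3]
    exact h0.trans (Pr_mono fun ω h => HCross.mono h le_rfl (by omega) (by omega) le_rfl le_rfl)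
  have k1 := kV (-(2 * s))
  have k3 := kV s
  have e1 : -(2 * (s : ℤ)) + s = -s := by ring
  have e2 : (s : ℤ) + s = 2 * s := by ring
  rw [e1] at k1
  rw [e2] at k3
  have h12 := fkg (p := q) (localOn_vcross (-(2 * (s : ℤ))) (-s) 0 (2 * s))
    (localOn_hcross (-(2 * (s : ℤ))) (2 * s) s (2 * s)) (incr_vcross _ _ _ _) (incr_hcross _ _ _ _)
  have h123 := fkg (p := q) ((localOn_vcross (-(2 * (s : ℤ))) (-s) 0 (2 * s)).inter'
    (localOn_hcross (-(2 * (s : ℤ))) (2 * s) s (2 * s))) (localOn_vcross (s : ℤ) (2 * s) 0 (2 * s))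
    ((incr_vcross _ _ _ _).inter (incr_hcross _ _ _ _)) (incr_vcross _ _ _ _)
  have h12' := (mul_le_mul k1 k2 hc.le Pr_nonneg).trans h12
  have h' := (mul_le_mul h12' k3 hc.le Pr_nonneg).trans h123
  have e : c ^ 3 = c * c * c := by ring
  rw [e]
  exact h'

/-- Keep only the edges inside `S`. -/
noncomputable def restr (ω : Config) (S : Set Vert) : Config := fun e => by
  classical exact decide (ω e = true ∧ src e ∈ S ∧ tgt e ∈ S)

lemma restr_iff {e : Edge} : restr ω S e = true ↔ ω e = true ∧ src e ∈ S ∧ tgt e ∈ S := by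
  classical
  simp only [restr, decide_eq_true_eq]

lemma conn_restr {T : Set Vert} (hST : S ⊆ T) {u v : Vert} (h : Conn ω S u v) :
    Conn (restr ω S) T u v := by
  refine h.induction_right (P := fun x => Conn (restr ω S) T u x) (Conn.refl (hST h.mem_left)) ?_
  rintro a b _ ⟨h1, h2, e, h3, h4⟩ ih
  refine ih.tail ⟨hST h1, hST h2, e, h3, restr_iff.2 ⟨h4, ?_⟩⟩
  rcases h3 with ⟨h5, h6⟩ | ⟨h5, h6⟩
  · exact ⟨h5 ▸ h1, h6 ▸ h2⟩
  · exact ⟨h6 ▸ h2, h5 ▸ h1⟩

lemma conn_of_restr {T : Set Vert} {u v : Vert} (hu : u ∈ S) (h : Conn (restr ω S) T u v) :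
    Conn ω S u v := by
  refine h.induction_right (P := fun x => Conn ω S u x) (Conn.refl hu) ?_
  rintro a b _ ⟨_, _, e, h3, h4⟩ ih
  rw [restr_iff] at h4
  refine ih.tail ⟨ih.mem_right, ?_, e, h3, h4.1⟩
  rcases h3 with ⟨h5, h6⟩ | ⟨h5, h6⟩
  · exact h6 ▸ h4.2.2
  · exact h6 ▸ h4.2.1

/-- Crossing paths inside prescribed sets. -/
theorem cross_in {a b c d : ℤ} {S' : Set Vert} {u v u' v' : Vert}
    (h : Conn ω S u v) (hS : S ⊆ rect a b c d) (hu : u.1 = a) (hv : v.1 = b)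
    (h' : Conn ω' S' u' v') (hS' : S' ⊆ rect a b c d) (hu' : u'.2 = c) (hv' : v'.2 = d) :
    ∃ w, Conn ω S u w ∧ Conn ω' S' u' w := by
  obtain ⟨w, h1, h2⟩ := cross (conn_restr hS h) hu hv (conn_restr hS' h') hu' hv'
  exact ⟨w, conn_of_restr h.mem_left h1, conn_of_restr h'.mem_left h2⟩

/-- A path in the upper half plane from `ball 0 s` to distance `2 s` meets the half circuit, which
is joined to the base. -/
theorem HC_meet {s : ℕ} (hs : 1 ≤ s) (h : ω ∈ HC s) (hS : S ⊆ up) {u v : Vert}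
    (hc : Conn ω' S u v) (hu : u ∈ ball 0 s)
    (hv : v ∉ ball 0 (2 * s) ∨ v ∈ sphere 0 (2 * s)) :
    ∃ w, Conn ω' S u w ∧ ∃ b : ℤ, -(2 * s) ≤ b ∧ b ≤ 2 * s ∧ Conn ω (hb 0 (2 * s)) (b, 0) w := by
  obtain ⟨⟨h1, h2⟩, h3⟩ := h
  have hu2 : u ∈ ball 0 (2 * s) := ball_subset_ball (by omega) hu
  obtain ⟨x, hx, hcx⟩ := hc.to_sphere hu2 hv
  have hxS : x ∈ up := hS hcx.mem_right.1
  have hcS : Conn ω' S u x := hcx.mono_set Set.inter_subset_left
  have hsub : ∀ a b c d : ℤ, -(2 * (s : ℤ)) ≤ a → b ≤ 2 * s → 0 ≤ c → d ≤ 2 * s →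
      rect a b c d ⊆ hb 0 (2 * s) := by
    intro a b c d h1 h2 h3 h4 v hv
    refine mem_hb.2 ?_
    obtain ⟨k1, k2, k3, k4⟩ := hv
    push_cast
    omega
  have hin : ∀ T : Set Vert, (∀ w ∈ T, w ∈ S ∩ ball 0 (2 * s)) → ∀ w ∈ T,
      -(2 * (s : ℤ)) ≤ w.1 ∧ w.1 ≤ 2 * s ∧ 0 ≤ w.2 ∧ w.2 ≤ 2 * s := by
    intro T hT w hw
    obtain ⟨k1, k2⟩ := hT w hw
    have : 0 ≤ w.2 := hS k1
    simp only [mem_ball, Prod.fst_zero, Prod.snd_zero] at k2
    push_cast at k2
    omega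
  have hu' := hu
  simp only [mem_ball, Prod.fst_zero, Prod.snd_zero] at hu'
  have hxb := hx.1
  simp only [mem_ball, Prod.fst_zero, Prod.snd_zero] at hxb
  push_cast at hxb
  have hx2 := hx.2
  simp only [Prod.fst_zero, Prod.snd_zero] at hx2
  push_cast at hx2
  have hxup : 0 ≤ x.2 := hxS
  by_cases hxl : x.1 = -(2 * (s : ℤ))
  · -- left strip
    obtain ⟨u', v', k1, k2, k3, k4, k5⟩ := hcx.symm.cross_x (a := -(2 * (s : ℤ))) (b := -s)
      (by omega) (by omega) (by omega)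
    obtain ⟨a, b, k6, k7, k8⟩ := h1
    obtain ⟨w, k9, k10⟩ := cross_in (a := -(2 * (s : ℤ))) (b := -s) (c := 0) (d := 2 * s) k3
      (fun w hw => by
        have h9 := hin _ (fun w h => h.1) w hw
        exact ⟨hw.2.1, hw.2.2, h9.2.2.1, h9.2.2.2⟩) k1 k2 k8 le_rfl k6 k7
    refine ⟨w, ?_, a.1, ?_, ?_, ?_⟩
    · exact hcS.trans ((k4.mono_set Set.inter_subset_left).trans (k9.mono_set fun z hz => hz.1.1))
    · have := k8.mem_left.1; omega
    · have := k8.mem_left.2.1; omega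
    · have : (a.1, (0 : ℤ)) = a := by rw [← k6]
      rw [this]
      exact k10.mono_set (hsub _ _ _ _ (by omega) (by omega) (by omega) (by omega))
  by_cases hxr : x.1 = 2 * (s : ℤ)
  · -- right strip
    obtain ⟨u', v', k1, k2, k3, k4, k5⟩ := hcx.cross_x (a := (s : ℤ)) (b := 2 * s)
      (by omega) (by omega) (by omega)
    obtain ⟨a, b, k6, k7, k8⟩ := h3
    obtain ⟨w, k9, k10⟩ := cross_in (a := (s : ℤ)) (b := 2 * s) (c := 0) (d := 2 * s) k3
      (fun w hw => by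
        have h9 := hin _ (fun w h => h.1) w hw
        exact ⟨hw.2.1, hw.2.2, h9.2.2.1, h9.2.2.2⟩) k1 k2 k8 le_rfl k6 k7
    refine ⟨w, ?_, a.1, ?_, ?_, ?_⟩
    · exact (k4.mono_set Set.inter_subset_left).trans (k9.mono_set fun z hz => hz.1.1)
    · have := k8.mem_left.1; omega
    · have := k8.mem_left.2.1; omega
    · have : (a.1, (0 : ℤ)) = a := by rw [← k6]
      rw [this]
      exact k10.mono_set (hsub _ _ _ _ (by omega) (by omega) (by omega) (by omega))
  -- top strip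
  have hxt : x.2 = 2 * (s : ℤ) := by omega
  obtain ⟨u', v', k1, k2, k3, k4, k5⟩ := hcx.cross_y (a := (s : ℤ)) (b := 2 * s)
    (by omega) (by omega) (by omega)
  obtain ⟨a, b, k6, k7, k8⟩ := h2
  obtain ⟨w, k9, k10⟩ := cross_in (a := -(2 * (s : ℤ))) (b := 2 * s) (c := s) (d := 2 * s) k8
    le_rfl k6 k7 k3 (fun w hw => by
        have h9 := hin _ (fun w h => h.1) w hw
        exact ⟨h9.1, h9.2.1, hw.2.1, hw.2.2⟩) k1 k2
  -- the horizontal crossing meets the left vertical one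
  obtain ⟨a', b', j1, j2, j3, j4, j5⟩ := k8.cross_x (a := -(2 * (s : ℤ))) (b := -s)
    (by omega) (by omega) (by omega)
  obtain ⟨a'', b'', j6, j7, j8⟩ := h1
  obtain ⟨w', j9, j10⟩ := cross_in (a := -(2 * (s : ℤ))) (b := -s) (c := 0) (d := 2 * s) j3
    (fun w hw => ⟨hw.2.1, hw.2.2, by have := hw.1.2.2.1; omega, hw.1.2.2.2⟩) j1 j2 j8 le_rfl j6 j7
  refine ⟨w, ?_, a''.1, ?_, ?_, ?_⟩
  · exact (k4.mono_set Set.inter_subset_left).trans (k10.mono_set fun z hz => hz.1.1)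
  · have := j8.mem_left.1; omega
  · have := j8.mem_left.2.1; omega
  · have : (a''.1, (0 : ℤ)) = a'' := by rw [← j6]
    rw [this]
    have e1 : Conn ω (hb 0 (2 * s)) a'' w' :=
      j10.mono_set (hsub _ _ _ _ (by omega) (by omega) (by omega) (by omega))
    have hss : rect (-(2 * (s : ℤ))) (2 * s) s (2 * s) ⊆ hb 0 (2 * s) :=
      hsub _ _ _ _ (by omega) (by omega) (by omega) (by omega)
    have e2 : Conn ω (hb 0 (2 * s)) a' w' := j9.mono_set fun z hz => hss hz.1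
    have e3 : Conn ω (hb 0 (2 * s)) a a' := j4.mono_set hss
    have e4 : Conn ω (hb 0 (2 * s)) a w := k9.mono_set hss
    exact e1.trans (e2.symm.trans (e3.symm.trans e4))

end Pool.Agent.H26.HP

end

section

/-!
# Half plane, one arm with a free side: the exponent is one

`E1 R z`: the cluster of `(z, 0)` in the half ball of radius `R` reaches distance `R` and does not
touch the base to the right of `(z, 0)`.  Its probability is at most `C / R`.
-/

open MeasureTheory ProbabilityTheory unitInterval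

namespace Pool.Agent.H26.HP

open Pool.Agent.H89.Perc
open Pool.Agent.H61.NC (RSWreg)

variable {ω ω' : Config} {D X S : Set Vert} {R n : ℕ} {q : I} {c : ℝ}

/-- The cluster of `(z, 0)` in the half ball of radius `R` reaches distance `R` and does not touch
the base to the right of `(z, 0)`. -/
def E1 (R : ℕ) (z : ℤ) : Set Config :=
  {ω | (∃ w ∈ sphere (z, 0) R, Conn ω (hb z R) (z, 0) w) ∧
    ∀ x : ℤ, z < x → x ≤ z + R → ¬ Conn ω (hb z R) (z, 0) (x, 0)}

lemma hb_subset_ball {z : ℤ} {r : ℕ} (h : |z| + r ≤ R) : hb z r ⊆ ball 0 R := by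
  intro v hv
  rw [mem_hb] at hv
  simp only [mem_ball, Prod.fst_zero, Prod.snd_zero]
  rcases abs_cases z with ⟨h1, h2⟩ | ⟨h1, h2⟩ <;> rw [h1] at h <;> omega

lemma localOn_E1 (R : ℕ) : LocalOn (eIn R (hb 0 R)) (E1 R 0) := by
  have hD : hb 0 R ⊆ ball 0 R := hb_subset_ball (by simp)
  rintro ω ω' h ⟨⟨w, hw, hc⟩, h2⟩
  refine ⟨⟨w, hw, localOn_conn_in hD _ _ ω ω' h hc⟩, fun x h3 h4 h5 => h2 x h3 h4 ?_⟩
  exact localOn_conn_in hD _ _ ω' ω (fun e he => (h e he).symm) h5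

lemma hb_shift (z : ℤ) (r : ℕ) : {w : Vert | (w.1 - z, w.2 - 0) ∈ hb 0 r} = hb z r := by
  ext w
  simp only [Set.mem_ofPred_eq, mem_hb]
  omega

lemma E1_shift (R : ℕ) (z : ℤ) :
    {ω : Config | (fun e => ω (shiftE (z, 0) e)) ∈ E1 R 0} = E1 R z := by
  have hkey : ∀ (ω : Config) (u v : Vert), Conn (fun e => ω (shiftE (z, 0) e)) (hb 0 R) u v ↔
      Conn ω (hb z R) (u.1 + z, u.2) (v.1 + z, v.2) := by
    intro ω u v
    rw [conn_shift]
    simp only [hb_shift, add_zero]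
  ext ω
  simp only [E1, Set.mem_ofPred_eq]
  constructor
  · rintro ⟨⟨w, hw, hc⟩, h2⟩
    rw [hkey] at hc
    refine ⟨⟨(w.1 + z, w.2), ?_, by simpa using hc⟩, fun x h3 h4 h5 => ?_⟩
    · refine ⟨?_, ?_⟩
      · have := hw.1
        simp only [mem_ball] at this ⊢
        omega
      · have := hw.2
        simp only at this ⊢
        omega
    · refine h2 (x - z) (by omega) (by omega) ?_
      rw [hkey]
      simpa using h5
  · rintro ⟨⟨w, hw, hc⟩, h2⟩
    refine ⟨⟨(w.1 - z, w.2), ?_, ?_⟩, fun x h3 h4 h5 => ?_⟩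
    · refine ⟨?_, ?_⟩
      · have := hw.1
        simp only [mem_ball] at this ⊢
        omega
      · have := hw.2
        simp only at this ⊢
        omega
    · rw [hkey]
      simpa using hc
    · rw [hkey] at h5
      refine h2 (x + z) (by omega) (by omega) ?_
      simpa using h5

lemma Pr_E1 (R : ℕ) (z : ℤ) : Pr q (E1 R z) = Pr q (E1 R 0) := by
  rw [← E1_shift R z, Pr_comp (localOn_E1 R) (shiftE_injective _).injOn]

/-- Restriction to a smaller half ball: a connection to the outer sphere. -/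
lemma reach_restrict {z z' : ℤ} {r r' : ℕ} (h : |z - z'| + r' ≤ r) {u w : Vert}
    (hu : u ∈ ball (z', 0) r') (hw : w ∈ sphere (z, 0) r) (hc : Conn ω (hb z r) u w) :
    ∃ w' ∈ sphere (z', 0) r', Conn ω (hb z' r') u w' := by
  have hw' : w ∉ ball (z', 0) r' ∨ w ∈ sphere (z', 0) r' := by
    by_cases h1 : w ∈ ball (z', 0) r'
    · right
      refine ⟨h1, ?_⟩
      have h2 := hw.2
      have h3 := hw.1
      have h4 : 0 ≤ w.2 := hc.mem_right.2
      simp only [mem_ball] at h1 h2 h3 ⊢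
      rcases abs_cases (z - z') with ⟨h4, h5⟩ | ⟨h4, h5⟩ <;> rw [h4] at h <;> omega
    · exact Or.inl h1
  obtain ⟨x, hx, hcx⟩ := hc.to_sphere (v := (z', 0)) (r := r') hu hw'
  exact ⟨x, hx, hcx.mono_set fun v hv => ⟨hv.2, hv.1.2⟩⟩

lemma hb_subset_hb {z z' : ℤ} {r r' : ℕ} (h : |z - z'| + r' ≤ r) : hb z' r' ⊆ hb z r := by
  intro v hv
  rw [mem_hb] at hv ⊢
  rcases abs_cases (z - z') with ⟨h4, h5⟩ | ⟨h4, h5⟩ <;> rw [h4] at h <;> omega

/-- The main bound at scale `9 n`. -/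
theorem E1_scale (hc : 0 < c) (hn : 1 ≤ n) (hreg : RSWreg c (8 * n) q) :
    (2 * (n : ℝ) + 1) * (c ^ 4 * Pr q (E1 (9 * n) 0)) ≤ 1 := by
  classical
  set D : Set Vert := hb 0 (8 * n) with hD
  have hDR : D ⊆ ball 0 (8 * n) := hb_subset_ball (by simp)
  -- the events
  set A : ℤ → Set Config := fun z => {ω | (∃ w ∈ sphere 0 (8 * n), Conn ω D (z, 0) w) ∧
    ∀ x : ℤ, z < x → x ≤ n → ¬ Conn ω D (z, 0) (x, 0)} with hA
  set B : ℤ → Set Config := fun z => {ω | (∃ w ∈ sphere 0 (8 * n), Conn ω D (z, 0) w) ∧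
    ∀ x : ℤ, z < x → x ≤ n → ¬ ∃ w ∈ sphere 0 (8 * n), Conn ω D (x, 0) w} with hB
  have h0 : ∀ z : ℤ, -(n : ℤ) ≤ z → z ≤ n → c ^ 4 * Pr q (A z) ≤ Pr q (B z) := by
    intro z hz1 hz2
    set Φ : Set Vert → Prop := fun S => (∃ w ∈ sphere 0 (8 * n), w ∈ S) ∧
      ∀ x : ℤ, z < x → x ≤ n → ((x, 0) : Vert) ∉ S with hΦ
    refine explore (X := {(z, 0)}) (A' := fun S => {ω | Φ S})
      (G := fun S => {ω | Φ S ∧ ∀ x : ℤ, z < x → x ≤ n →
        ¬ ∃ w ∈ sphere 0 (8 * n), Conn ω (D \ S) (x, 0) w}) hDR (by positivity) ?_ ?_ ?_ ?_ ?_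
    · rintro ω ⟨⟨w, hw, h1⟩, h2⟩
      refine ⟨⟨w, hw, (z, 0), rfl, h1⟩, ?_⟩
      rintro x h3 h4 ⟨_, rfl, h5⟩
      exact h2 x h3 h4 h5
    · intro S ω ω' _ h
      exact h
    · rintro S ω ω' hω ⟨h1, h2⟩
      refine ⟨h1, fun x h3 h4 => ?_⟩
      rintro ⟨w, hw, h5⟩
      refine h2 x h3 h4 ⟨w, hw, ?_⟩
      exact localOn_conn_in (Set.sdiff_subset.trans hDR) _ _ ω' ω (fun e he => (hω e he).symm) h5
    · intro S
      by_cases hS : Φ S
      · have e1 : {ω : Config | Φ S} = Set.univ := by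
          ext ω; simp [hS]
        rw [e1, Pr_univ, mul_one]
        refine (noCross_reg hc hreg (s := n) (r := 8 * n) (by omega) le_rfl).trans (Pr_mono ?_)
        intro ω hω
        refine ⟨hS, fun x h3 h4 => ?_⟩
        rintro ⟨w, hw, h5⟩
        apply hω
        refine ⟨(x, 0), ?_, w, hw, h5.mono_set (Set.sdiff_subset.trans hDR)⟩
        simp only [mem_ball, Prod.fst_zero, Prod.snd_zero]
        omega
      · have e1 : {ω : Config | Φ S} = ∅ := by
          ext ω; simp [hS]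
        rw [e1]
        have e2 : Pr q (∅ : Set Config) = 0 := by simp [Pr]
        rw [e2, mul_zero]
        exact Pr_nonneg
    · rintro ω ⟨⟨⟨w, hw, _, rfl, h1⟩, h2⟩, h3⟩
      refine ⟨⟨w, hw, h1⟩, fun x h4 h5 => ?_⟩
      rintro ⟨w', hw', h6⟩
      exact h3 x h4 h5 ⟨w', hw', conn_off (h2 x h4 h5) h6⟩
  -- disjointness
  have hsum : ∑ z ∈ Finset.Icc (-(n : ℤ)) n, Pr q (B z) ≤ 1 := by
    have hd : Set.PairwiseDisjoint (↑(Finset.Icc (-(n : ℤ)) n)) B := by
      intro z hz z' hz' hne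
      rw [Finset.coe_Icc, Set.mem_Icc] at hz hz'
      rw [Function.onFun, Set.disjoint_left]
      rintro ω ⟨h1, h2⟩ ⟨h3, h4⟩
      rcases lt_or_gt_of_ne hne with h | h
      · exact h2 z' h hz'.2 h3
      · exact h4 z h hz.2 h1
    have hm : ∀ z ∈ Finset.Icc (-(n : ℤ)) n, MeasurableSet (B z) := by
      intro z _
      have : LocalOn (eIn (8 * n) D) (B z) := by
        rintro ω ω' hω ⟨⟨w, hw, h1⟩, h2⟩
        refine ⟨⟨w, hw, localOn_conn_in hDR _ _ ω ω' hω h1⟩, fun x h3 h4 => ?_⟩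
        rintro ⟨w', hw', h6⟩
        exact h2 x h3 h4 ⟨w', hw', localOn_conn_in hDR _ _ ω' ω (fun e he => (hω e he).symm) h6⟩
      exact this.measurableSet
    have := measureReal_biUnion_finset (μ := μ q) hd hm
    unfold Pr
    rw [← this]
    exact measureReal_le_one
  -- comparison
  have hle : ∀ z ∈ Finset.Icc (-(n : ℤ)) n, c ^ 4 * Pr q (E1 (9 * n) 0) ≤ Pr q (B z) := by
    intro z hz
    rw [Finset.mem_Icc] at hz
    refine le_trans ?_ (h0 z hz.1 hz.2)
    refine mul_le_mul_of_nonneg_left ?_ (by positivity)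
    rw [← Pr_E1 (9 * n) z]
    refine Pr_mono ?_
    rintro ω ⟨⟨w, hw, h1⟩, h2⟩
    have habs : |z - 0| + ((8 * n : ℕ) : ℤ) ≤ ((9 * n : ℕ) : ℤ) := by
      push_cast
      rcases abs_cases (z - 0) with ⟨h4, h5⟩ | ⟨h4, h5⟩ <;> rw [h4] <;> omega
    refine ⟨?_, fun x h3 h4 h5 => ?_⟩
    · refine reach_restrict habs ?_ hw h1
      simp only [mem_ball]
      push_cast
      omega
    · exact h2 x h3 (by push_cast; omega) (h5.mono_set (hb_subset_hb habs))
  calc (2 * (n : ℝ) + 1) * (c ^ 4 * Pr q (E1 (9 * n) 0))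
      = ∑ _z ∈ Finset.Icc (-(n : ℤ)) n, c ^ 4 * Pr q (E1 (9 * n) 0) := by
        rw [Finset.sum_const, Int.card_Icc, nsmul_eq_mul]
        congr 1
        have : ((n : ℤ) + 1 - -(n : ℤ)).toNat = 2 * n + 1 := by omega
        rw [this]
        push_cast
        ring
    _ ≤ ∑ z ∈ Finset.Icc (-(n : ℤ)) n, Pr q (B z) := Finset.sum_le_sum hle
    _ ≤ 1 := hsum

/-- A smaller radius gives a larger event. -/
lemma E1_anti {r : ℕ} (h : r ≤ R) (z : ℤ) : E1 R z ⊆ E1 r z := by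
  rintro ω ⟨⟨w, hw, h1⟩, h2⟩
  have habs : |z - z| + (r : ℤ) ≤ R := by simp [h]
  refine ⟨reach_restrict habs ?_ hw h1, fun x h3 h4 h5 => ?_⟩
  · simp only [mem_ball]; omega
  · exact h2 x h3 (by omega) (h5.mono_set (hb_subset_hb habs))

/-- **(H1)** The one-arm event with a free side has probability at most `C / R`. -/
theorem E1_le (hc : 0 < c) (hR : 1 ≤ R) (hreg : RSWreg c R q) (z : ℤ) :
    Pr q (E1 R z) ≤ 9 / (c ^ 4 * R) := by
  rw [Pr_E1]
  have hc1 : c ≤ 1 := reg_le_one hreg hR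
  have hc4 : c ^ 4 ≤ 1 := pow_le_one₀ hc.le hc1
  have hc40 : 0 < c ^ 4 := by positivity
  have hR0 : (0 : ℝ) < R := by exact_mod_cast hR
  rw [le_div_iff₀ (by positivity)]
  by_cases h9 : R < 9
  · have h1 : (R : ℝ) ≤ 9 := by exact_mod_cast h9.le
    calc Pr q (E1 R 0) * (c ^ 4 * R) ≤ 1 * (1 * 9) := by
          refine mul_le_mul Pr_le_one (mul_le_mul hc4 h1 hR0.le zero_le_one) (by positivity)
            zero_le_one
      _ = 9 := by norm_num
  · set n := R / 9 with hn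
    have hn1 : 1 ≤ n := by omega
    have hnR : 9 * n ≤ R := by omega
    have h1 := E1_scale (q := q) hc hn1 (RSWreg.mono hreg (by omega))
    have h2 : Pr q (E1 R 0) ≤ Pr q (E1 (9 * n) 0) := Pr_mono (E1_anti hnR 0)
    have h3 : (R : ℝ) ≤ 9 * (2 * (n : ℝ) + 1) := by
      have : R ≤ 9 * (2 * n + 1) := by omega
      exact_mod_cast this
    calc Pr q (E1 R 0) * (c ^ 4 * R) ≤ Pr q (E1 (9 * n) 0) * (c ^ 4 * (9 * (2 * (n : ℝ) + 1))) := by
          refine mul_le_mul h2 (mul_le_mul_of_nonneg_left h3 hc40.le) (by positivity) Pr_nonneg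
      _ = 9 * ((2 * (n : ℝ) + 1) * (c ^ 4 * Pr q (E1 (9 * n) 0))) := by ring
      _ ≤ 9 * 1 := by linarith
      _ = 9 := by norm_num

end Pool.Agent.H26.HP

end

section

/-!
# Corridors for the outward separation: definitions
-/

open MeasureTheory ProbabilityTheory unitInterval

namespace Pool.Agent.H59.EX

open Pool.Agent.H89.Perc
open Pool.Agent.H29.Sep (Circ)

/-- `v` lies on the side `d` of `ball 0 r`. -/
def OnSide (d : Side) (r : ℕ) (v : Vert) : Prop :=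
  v ∈ sphere 0 r ∧
    match d with
    | .E => v.1 = r
    | .N => v.2 = r
    | .W => v.1 = -r
    | .S => v.2 = -r

/-- Straight corridor from the vertex `v` on side `d` of `ball 0 (8 w)` to the target rectangle on
the same side. -/
def ZS (d : Side) (w ρ : ℕ) (v : Vert) : Set Vert :=
  match d with
  | .E => ball v (3 * ρ) ∪ rect (8 * w) (17 * w) (v.2 - ρ) (v.2 + ρ) ∪
      rect (16 * w) (144 * w) (-(12 * w)) (12 * w)
  | .N => ball v (3 * ρ) ∪ rect (v.1 - ρ) (v.1 + ρ) (8 * w) (17 * w) ∪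
      rect (-(12 * w)) (12 * w) (16 * w) (144 * w)
  | .W => ball v (3 * ρ) ∪ rect (-(17 * w)) (-(8 * w)) (v.2 - ρ) (v.2 + ρ) ∪
      rect (-(144 * w)) (-(16 * w)) (-(12 * w)) (12 * w)
  | .S => ball v (3 * ρ) ∪ rect (v.1 - ρ) (v.1 + ρ) (-(17 * w)) (-(8 * w)) ∪
      rect (-(12 * w)) (12 * w) (-(144 * w)) (-(16 * w))

/-- Crossing event of the straight corridor. -/
def NS (d : Side) (w ρ : ℕ) (v : Vert) : Set Config :=
  match d with
  | .E => {ω | ω ∈ Circ v ρ ∧ HCross ω (8 * w) (17 * w) (v.2 - ρ) (v.2 + ρ) ∧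
      VCross ω (16 * w) (17 * w) (-(12 * w)) (12 * w) ∧
      HCross ω (16 * w) (144 * w) (-(12 * w)) (12 * w) ∧
      VCross ω (112 * w) (144 * w) (-(12 * w)) (12 * w)}
  | .N => {ω | ω ∈ Circ v ρ ∧ VCross ω (v.1 - ρ) (v.1 + ρ) (8 * w) (17 * w) ∧
      HCross ω (-(12 * w)) (12 * w) (16 * w) (17 * w) ∧
      VCross ω (-(12 * w)) (12 * w) (16 * w) (144 * w) ∧
      HCross ω (-(12 * w)) (12 * w) (112 * w) (144 * w)}
  | .W => {ω | ω ∈ Circ v ρ ∧ HCross ω (-(17 * w)) (-(8 * w)) (v.2 - ρ) (v.2 + ρ) ∧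
      VCross ω (-(17 * w)) (-(16 * w)) (-(12 * w)) (12 * w) ∧
      HCross ω (-(144 * w)) (-(16 * w)) (-(12 * w)) (12 * w) ∧
      VCross ω (-(144 * w)) (-(112 * w)) (-(12 * w)) (12 * w)}
  | .S => {ω | ω ∈ Circ v ρ ∧ VCross ω (v.1 - ρ) (v.1 + ρ) (-(17 * w)) (-(8 * w)) ∧
      HCross ω (-(12 * w)) (12 * w) (-(17 * w)) (-(16 * w)) ∧
      VCross ω (-(12 * w)) (12 * w) (-(144 * w)) (-(16 * w)) ∧
      HCross ω (-(12 * w)) (12 * w) (-(144 * w)) (-(112 * w))}

/-- Corridor from the vertex `v` on the east side of `ball 0 (8 w)` turning to the target rectangle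
in the north. -/
def ZTN (w ρ : ℕ) (v : Vert) : Set Vert :=
  ball v (3 * ρ) ∪ rect (8 * w) (13 * w) (v.2 - ρ) (v.2 + ρ) ∪
    rect (12 * w) (13 * w) (v.2 - ρ) (13 * w) ∪ rect (-(4 * w)) (13 * w) (12 * w) (13 * w) ∪
    rect (-(4 * w)) (4 * w) (12 * w) (144 * w) ∪ rect (-(12 * w)) (12 * w) (112 * w) (144 * w)

/-- Crossing event. -/
def NTN (w ρ : ℕ) (v : Vert) : Set Config :=
  {ω | ω ∈ Circ v ρ ∧ HCross ω (8 * w) (13 * w) (v.2 - ρ) (v.2 + ρ) ∧
    VCross ω (12 * w) (13 * w) (v.2 - ρ) (13 * w) ∧ HCross ω (-(4 * w)) (13 * w) (12 * w) (13 * w) ∧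
    VCross ω (-(4 * w)) (4 * w) (12 * w) (144 * w) ∧
    HCross ω (-(12 * w)) (12 * w) (112 * w) (144 * w)}

/-- Corridor from the vertex `v` on the east side turning to the target rectangle in the south. -/
def ZTS (w ρ : ℕ) (v : Vert) : Set Vert :=
  ball v (3 * ρ) ∪ rect (8 * w) (13 * w) (v.2 - ρ) (v.2 + ρ) ∪
    rect (12 * w) (13 * w) (-(13 * w)) (v.2 + ρ) ∪ rect (-(4 * w)) (13 * w) (-(13 * w)) (-(12 * w)) ∪
    rect (-(4 * w)) (4 * w) (-(144 * w)) (-(12 * w)) ∪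
    rect (-(12 * w)) (12 * w) (-(144 * w)) (-(112 * w))

/-- Crossing event. -/
def NTS (w ρ : ℕ) (v : Vert) : Set Config :=
  {ω | ω ∈ Circ v ρ ∧ HCross ω (8 * w) (13 * w) (v.2 - ρ) (v.2 + ρ) ∧
    VCross ω (12 * w) (13 * w) (-(13 * w)) (v.2 + ρ) ∧
    HCross ω (-(4 * w)) (13 * w) (-(13 * w)) (-(12 * w)) ∧
    VCross ω (-(4 * w)) (4 * w) (-(144 * w)) (-(12 * w)) ∧
    HCross ω (-(12 * w)) (12 * w) (-(144 * w)) (-(112 * w))}

end Pool.Agent.H59.EX

end
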