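import Pool.Agent.H31.PT.H85.Strict.Corr
import Pool.Agent.H31.PT.M04

/-! The parts of this file: H90.NC.ArmDefs, H61.NC.A4Basic, H90.NC.Circ. -/

section

/-!
# One-arm stability near criticality: definitions

`W0 N` is the event that the cluster of the middle vertex of the torus of side `N` winds around the
torus horizontally.
-/

open MeasureTheory ProbabilityTheory unitInterval

namespace Pool.Agent.H61.NC

open Pool.Agent.H89.Perc

/-- The middle vertex of the torus. -/
def m0 (N : ℕ) : Vert := (mid N, mid N)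

/-- The cluster of the middle vertex winds around the torus horizontally. -/
def W0 (N : ℕ) : Set Config :=
  {ω | ∃ a b : ℤ, a ≠ 0 ∧ Conn (per N ω) Set.univ (m0 N) ((m0 N).1 + a * N, (m0 N).2 + b * N)}

/-- The event `W0` after opening the block of radius `R`. -/
def OutArm (N R : ℕ) : Set Config := {ω | fill (blk N R) true ω ∈ W0 N}

/-- The one-arm event of the middle vertex on the torus. -/
def ArmT (N r : ℕ) : Set Config := {ω | per N ω ∈ Arm (m0 N) r}

/-- Horizontal crossing of a rectangle on the torus. -/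
def HT (N : ℕ) (a b c d : ℤ) : Set Config := {ω | HCross (per N ω) a b c d}

/-- Vertical crossing of a rectangle on the torus. -/
def VT (N : ℕ) (a b c d : ℤ) : Set Config := {ω | VCross (per N ω) a b c d}

theorem incr_fill {A : Set Config} (iA : Incr A) (s : Finset Edge) (b : Bool) :
    Incr {ω | fill s b ω ∈ A} := by
  classical
  intro ω ω' h hω
  refine iA _ _ (fun e he => ?_) hω
  unfold fill at he ⊢
  by_cases hs : e ∈ s
  · simp only [hs, if_true] at he ⊢
    exact he
  · simp only [hs, if_false] at he ⊢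
    exact h e he

theorem per_mono {N : ℕ} {ω ω' : Config} (h : ∀ e, ω e = true → ω' e = true) :
    ∀ e, per N ω e = true → per N ω' e = true := fun e he => h _ he

theorem incr_W0 (N : ℕ) : Incr (W0 N) := by
  rintro ω ω' h ⟨a, b, ha, hc⟩
  exact ⟨a, b, ha, hc.mono le_rfl (per_mono h)⟩

theorem incr_OutArm (N R : ℕ) : Incr (OutArm N R) := incr_fill (incr_W0 N) _ _

theorem incr_ArmT (N r : ℕ) : Incr (ArmT N r) := fun _ _ h hω => incr_arm _ _ _ _ (per_mono h) hω

theorem incr_HT (N : ℕ) (a b c d : ℤ) : Incr (HT N a b c d) :=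
  fun _ _ h hω => incr_hcross _ _ _ _ _ _ (per_mono h) hω

theorem incr_VT (N : ℕ) (a b c d : ℤ) : Incr (VT N a b c d) :=
  fun _ _ h hω => incr_vcross _ _ _ _ _ _ (per_mono h) hω

/-- Two configurations which agree on the torus have the same periodic extension. -/
theorem per_eq_of {N : ℕ} (hN : 1 ≤ N) {ω ω' : Config} (h : ∀ e ∈ tEdges N, ω e = ω' e) :
    per N ω = per N ω' := by
  funext e
  refine h _ ?_
  have hN' : (0 : ℤ) < N := by exact_mod_cast hN
  simp only [tEdges, Finset.mem_product, Finset.mem_Ico, Finset.mem_univ, and_true]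
  exact ⟨⟨Int.emod_nonneg _ hN'.ne', Int.emod_lt_of_pos _ hN'⟩,
    ⟨Int.emod_nonneg _ hN'.ne', Int.emod_lt_of_pos _ hN'⟩⟩

/-- Events of the periodic extension are local on the torus. -/
theorem localOn_per {N : ℕ} (hN : 1 ≤ N) (A : Set Config) :
    LocalOn (tEdges N) {ω | per N ω ∈ A} := by
  intro ω ω' h hω
  have := per_eq_of hN h
  simp only [Set.mem_ofPred_eq] at hω ⊢
  rwa [← this]

theorem localOn_W0 {N : ℕ} (hN : 1 ≤ N) : LocalOn (tEdges N) (W0 N) :=
  localOn_per hN {η | ∃ a b : ℤ, a ≠ 0 ∧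
    Conn η Set.univ (m0 N) ((m0 N).1 + a * N, (m0 N).2 + b * N)}

theorem localOn_ArmT {N : ℕ} (hN : 1 ≤ N) (r : ℕ) : LocalOn (tEdges N) (ArmT N r) :=
  localOn_per hN _

theorem localOn_HT {N : ℕ} (hN : 1 ≤ N) (a b c d : ℤ) : LocalOn (tEdges N) (HT N a b c d) :=
  localOn_per hN {η | HCross η a b c d}

theorem localOn_VT {N : ℕ} (hN : 1 ≤ N) (a b c d : ℤ) : LocalOn (tEdges N) (VT N a b c d) :=
  localOn_per hN {η | VCross η a b c d}

/-- The modified event depends only on the edges outside the block. -/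
theorem localOn_fill {s t : Finset Edge} {A : Set Config} (hA : LocalOn t A) (b : Bool) :
    LocalOn (t \ s) {ω | fill s b ω ∈ A} := by
  classical
  intro ω ω' h hω
  refine hA _ _ (fun e he => ?_) hω
  unfold fill
  by_cases hs : e ∈ s
  · simp only [hs, if_true]
  · simp only [hs, if_false]
    exact h e (Finset.mem_sdiff.2 ⟨he, hs⟩)

theorem localOn_OutArm {N : ℕ} (hN : 1 ≤ N) (R : ℕ) :
    LocalOn (tEdges N \ blk N R) (OutArm N R) := localOn_fill (localOn_W0 hN) true

end Pool.Agent.H61.NC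

end

section

/-!
# Basic properties of the four-arm event, in the plane and on the torus
-/

open MeasureTheory ProbabilityTheory unitInterval

namespace Pool.Agent.H61.NC

open Pool.Agent.H89.Perc

/-- Reduction of an edge modulo `N`. -/
def modE (N : ℕ) (e : Edge) : Edge := (e.1 % N, e.2.1 % N, e.2.2)

/-- The four-arm event of an edge of the torus. -/
def A4T (N : ℕ) (f : Edge) (r : ℕ) : Set Config := {ω | per N ω ∈ A4 f r}

private theorem a4Basic_close_apply_ne {e f : Edge} (h : f ≠ e) (ω : Config) :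
    close e ω f = ω f := by
  unfold close
  rw [Function.update_of_ne h]

private theorem a4Basic_close_apply_self (e : Edge) (ω : Config) : close e ω e = false := by
  unfold close
  rw [Function.update_self]

private theorem a4Basic_close_congr {e f : Edge} {ω ω' : Config} (h : ω f = ω' f) :
    close e ω f = close e ω' f := by
  by_cases hfe : f = e
  · subst hfe
    rw [a4Basic_close_apply_self, a4Basic_close_apply_self]
  · rw [a4Basic_close_apply_ne hfe, a4Basic_close_apply_ne hfe, h]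

theorem localOn_A4 (e : Edge) (r : ℕ) :
    LocalOn (eRect (e.1 - r) (e.1 + r) (e.2.1 - r) (e.2.1 + r)) (A4 e r) := by
  have key : ∀ ω ω' : Config, (∀ f ∈ eRect (e.1 - r) (e.1 + r) (e.2.1 - r) (e.2.1 + r),
      ω f = ω' f) → ∀ u v : Vert, Conn (close e ω) (ball (src e) r) u v →
        Conn (close e ω') (ball (src e) r) u v := by
    intro ω ω' h u v hc
    exact Conn.congr (fun f hf _ => a4Basic_close_congr (h f (mem_eRect.2 hf))) hc
  rintro ω ω' h ⟨⟨u, hu, h1⟩, ⟨u', hu', h2⟩, h3⟩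
  exact ⟨⟨u, hu, key _ _ h _ _ h1⟩, ⟨u', hu', key _ _ h _ _ h2⟩,
    fun h4 => h3 (key _ _ (fun f hf => (h f hf).symm) _ _ h4)⟩

private theorem a4Basic_tgt_mem (e : Edge) {r : ℕ} (h1 : 1 ≤ r) : tgt e ∈ ball (src e) r := by
  obtain ⟨x, y, d⟩ := e
  cases d
  · simp only [mem_ball, src, tgt, Bool.false_eq_true, if_false]
    omega
  · simp only [mem_ball, src, tgt, if_true]
    omega

theorem A4_anti {e : Edge} {r r' : ℕ} (h1 : 1 ≤ r) (h : r ≤ r') : A4 e r' ⊆ A4 e r := by
  rcases h.eq_or_lt with h0 | h0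
  · subst h0; exact le_rfl
  have hsub : ball (src e) r ⊆ ball (src e) r' := by
    intro w hw
    simp only [mem_ball] at hw ⊢
    omega
  have hout : ∀ u ∈ sphere (src e) r', u ∉ ball (src e) r := by
    rintro u ⟨hu1, hu2⟩ hu3
    simp only [mem_ball] at hu1 hu3
    omega
  rintro ω ⟨⟨u, hu, h2⟩, ⟨u', hu', h3⟩, h4⟩
  obtain ⟨x, hx, hcx⟩ := h2.to_sphere (v := src e) (r := r) self_mem_ball (Or.inl (hout u hu))
  obtain ⟨x', hx', hcx'⟩ := h3.to_sphere (v := src e) (r := r) (a4Basic_tgt_mem e h1)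
    (Or.inl (hout u' hu'))
  exact ⟨⟨x, hx, hcx.mono_set Set.inter_subset_right⟩,
    ⟨x', hx', hcx'.mono_set Set.inter_subset_right⟩, fun h5 => h4 (h5.mono_set hsub)⟩

private theorem a4Basic_shift (v : Vert) (d : Bool) (r : ℕ) :
    {ω : Config | (fun f => ω (shiftE v f)) ∈ A4 (0, 0, d) r} = A4 (v.1, v.2, d) r := by
  have hcl : ∀ ω : Config, close (0, 0, d) (fun f => ω (shiftE v f)) =
      fun f => close (v.1, v.2, d) ω (shiftE v f) := by
    intro ω
    funext f
    by_cases hf : f = (0, 0, d)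
    · subst hf
      have : shiftE v (0, 0, d) = (v.1, v.2, d) := by simp [shiftE]
      rw [this, a4Basic_close_apply_self, a4Basic_close_apply_self]
    · have : shiftE v f ≠ (v.1, v.2, d) := by
        intro h
        apply hf
        apply shiftE_injective v
        rw [h]
        simp [shiftE]
      rw [a4Basic_close_apply_ne hf, a4Basic_close_apply_ne this]
  have hb : {w : Vert | (w.1 - v.1, w.2 - v.2) ∈ ball (src (0, 0, d)) r} =
      ball (src (v.1, v.2, d)) r := by
    ext w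
    simp only [Set.mem_ofPred_eq, mem_ball, src]
    omega
  have key : ∀ (ω : Config) (a b : Vert),
      Conn (close (0, 0, d) (fun f => ω (shiftE v f))) (ball (src (0, 0, d)) r) a b ↔
      Conn (close (v.1, v.2, d) ω) (ball (src (v.1, v.2, d)) r) (a.1 + v.1, a.2 + v.2)
        (b.1 + v.1, b.2 + v.2) := by
    intro ω a b
    rw [hcl, conn_shift, hb]
  have hs : (((src ((0 : ℤ), (0 : ℤ), d)).1 + v.1, (src ((0 : ℤ), (0 : ℤ), d)).2 + v.2) : Vert) =
      src (v.1, v.2, d) := by simp [src]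
  have ht : (((tgt ((0 : ℤ), (0 : ℤ), d)).1 + v.1, (tgt ((0 : ℤ), (0 : ℤ), d)).2 + v.2) : Vert) =
      tgt (v.1, v.2, d) := by
    cases d <;> simp [tgt, add_comm]
  have hex : ∀ (ω : Config) (a : Vert),
      (∃ u ∈ sphere (src (0, 0, d)) r,
        Conn (close (0, 0, d) (fun f => ω (shiftE v f))) (ball (src (0, 0, d)) r) a u) ↔
      ∃ u ∈ sphere (src (v.1, v.2, d)) r,
        Conn (close (v.1, v.2, d) ω) (ball (src (v.1, v.2, d)) r) (a.1 + v.1, a.2 + v.2) u := by
    intro ω a
    constructor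
    · rintro ⟨u, hu, hc⟩
      refine ⟨(u.1 + v.1, u.2 + v.2), ?_, (key ω a u).1 hc⟩
      obtain ⟨hu1, hu2⟩ := hu
      simp only [sphere, Set.mem_ofPred_eq, mem_ball, src] at hu1 hu2 ⊢
      omega
    · rintro ⟨u, hu, hc⟩
      refine ⟨(u.1 - v.1, u.2 - v.2), ?_, (key ω a _).2 (by simpa using hc)⟩
      obtain ⟨hu1, hu2⟩ := hu
      simp only [sphere, Set.mem_ofPred_eq, mem_ball, src] at hu1 hu2 ⊢
      omega
  ext ω
  simp only [A4, Set.mem_ofPred_eq]
  rw [hex, hex, key, hs, ht]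

private theorem a4Basic_swap (r : ℕ) :
    {ω : Config | (fun f => ω (swapE f)) ∈ A4 (0, 0, true) r} = A4 (0, 0, false) r := by
  have hcl : ∀ ω : Config, close (0, 0, true) (fun f => ω (swapE f)) =
      fun f => close (0, 0, false) ω (swapE f) := by
    intro ω
    funext f
    by_cases hf : f = (0, 0, true)
    · subst hf
      have : swapE (0, 0, true) = (0, 0, false) := by simp [swapE]
      rw [this, a4Basic_close_apply_self, a4Basic_close_apply_self]
    · have : swapE f ≠ (0, 0, false) := by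
        intro h
        apply hf
        apply swapE_injective
        rw [h]
        simp [swapE]
      rw [a4Basic_close_apply_ne hf, a4Basic_close_apply_ne this]
  have hb : {w : Vert | (w.2, w.1) ∈ ball (src (0, 0, true)) r} =
      ball (src (0, 0, false)) r := by
    ext w
    simp only [Set.mem_ofPred_eq, mem_ball, src]
    omega
  have key : ∀ (ω : Config) (a b : Vert),
      Conn (close (0, 0, true) (fun f => ω (swapE f))) (ball (src (0, 0, true)) r) a b ↔
      Conn (close (0, 0, false) ω) (ball (src (0, 0, false)) r) (a.2, a.1) (b.2, b.1) := by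
    intro ω a b
    rw [hcl, conn_swap, hb]
  have hs : (((src ((0 : ℤ), (0 : ℤ), true)).2, (src ((0 : ℤ), (0 : ℤ), true)).1) : Vert) =
      src (0, 0, false) := by simp [src]
  have ht : (((tgt ((0 : ℤ), (0 : ℤ), true)).2, (tgt ((0 : ℤ), (0 : ℤ), true)).1) : Vert) =
      tgt (0, 0, false) := by
    simp [tgt]
  have hex : ∀ (ω : Config) (a : Vert),
      (∃ u ∈ sphere (src (0, 0, true)) r,
        Conn (close (0, 0, true) (fun f => ω (swapE f))) (ball (src (0, 0, true)) r) a u) ↔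
      ∃ u ∈ sphere (src (0, 0, false)) r,
        Conn (close (0, 0, false) ω) (ball (src (0, 0, false)) r) (a.2, a.1) u := by
    intro ω a
    constructor
    · rintro ⟨u, hu, hc⟩
      refine ⟨(u.2, u.1), ?_, (key ω a u).1 hc⟩
      obtain ⟨hu1, hu2⟩ := hu
      simp only [sphere, Set.mem_ofPred_eq, mem_ball, src] at hu1 hu2 ⊢
      omega
    · rintro ⟨u, hu, hc⟩
      refine ⟨(u.2, u.1), ?_, (key ω a _).2 (by simpa using hc)⟩
      obtain ⟨hu1, hu2⟩ := hu
      simp only [sphere, Set.mem_ofPred_eq, mem_ball, src] at hu1 hu2 ⊢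
      omega
  ext ω
  simp only [A4, Set.mem_ofPred_eq]
  rw [hex, hex, key, hs, ht]

/-- The four-arm probability does not depend on the edge (translations and the reflection which
exchanges the coordinates). -/
theorem Pr_A4 (q : I) (e : Edge) (r : ℕ) : Pr q (A4 e r) = a4 q r := by
  obtain ⟨x, y, d⟩ := e
  have h1 : Pr q (A4 (x, y, d) r) = Pr q (A4 (0, 0, d) r) := by
    have := a4Basic_shift (x, y) d r
    simp only at this
    rw [← this, Pr_comp (localOn_A4 (0, 0, d) r) (shiftE_injective (x, y)).injOn]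
  rw [h1, a4]
  cases d
  · rfl
  · rw [← a4Basic_swap r, Pr_comp (localOn_A4 (0, 0, true) r) swapE_injective.injOn]

theorem a4_nonneg (q : I) (r : ℕ) : 0 ≤ a4 q r := Pr_nonneg

theorem a4_le_one (q : I) (r : ℕ) : a4 q r ≤ 1 := Pr_le_one

theorem a4_anti (q : I) {r r' : ℕ} (h1 : 1 ≤ r) (h : r ≤ r') : a4 q r' ≤ a4 q r :=
  Pr_mono (A4_anti h1 h)

private theorem a4Basic_cyl (q : I) (h1 : 1 / 4 ≤ (q : ℝ)) (h2 : (q : ℝ) ≤ 3 / 4)
    (b : Config) (s : Finset Edge) :
    (1 / 4 : ℝ) ^ s.card ≤ Pr q {ω | ∀ e ∈ s, ω e = b e} := by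
  classical
  induction s using Finset.induction_on with
  | empty =>
    have : {ω : Config | ∀ e ∈ (∅ : Finset Edge), ω e = b e} = Set.univ := by
      ext ω; simp
    rw [this, Pr_univ]
    simp
  | @insert a s ha ih =>
    have hloc : LocalOn (insert a s) {ω : Config | ∀ e ∈ insert a s, ω e = b e} := by
      intro ω ω' h hω e he
      rw [← h e he]
      exact hω e he
    have hne : ∀ e ∈ s, e ≠ a := fun e he hea => ha (hea ▸ he)
    have hup : ∀ c : Bool, c = b a →
        {ω : Config | Function.update ω a c ∈ {ω : Config | ∀ e ∈ insert a s, ω e = b e}} =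
          {ω | ∀ e ∈ s, ω e = b e} := by
      intro c hc
      ext ω
      simp only [Set.mem_ofPred_eq, Finset.mem_insert, forall_eq_or_imp, Function.update_self]
      constructor
      · rintro ⟨-, h⟩ e he
        have := h e he
        rwa [Function.update_of_ne (hne e he)] at this
      · intro h
        refine ⟨hc, fun e he => ?_⟩
        rw [Function.update_of_ne (hne e he)]
        exact h e he
    rw [Pr_eq_update hloc a, Finset.card_insert_of_notMem ha, pow_succ]
    have hn : ∀ A : Set Config, 0 ≤ Pr q A := fun A => Pr_nonneg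
    have hp : (0 : ℝ) ≤ (1 / 4 : ℝ) ^ s.card := by positivity
    cases hb : b a
    · rw [hup false hb.symm]
      have h3 := hn {ω | Function.update ω a true ∈ {ω : Config | ∀ e ∈ insert a s, ω e = b e}}
      have h4 : 0 ≤ (q : ℝ) * Pr q {ω | Function.update ω a true ∈
          {ω : Config | ∀ e ∈ insert a s, ω e = b e}} := mul_nonneg (by linarith) h3
      have h5 : (1 / 4 : ℝ) * (1 / 4 : ℝ) ^ s.card ≤ (1 - (q : ℝ)) *
          Pr q {ω | ∀ e ∈ s, ω e = b e} :=
        mul_le_mul (by linarith) ih hp (by linarith)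
      linarith
    · rw [hup true hb.symm]
      have h3 := hn {ω | Function.update ω a false ∈ {ω : Config | ∀ e ∈ insert a s, ω e = b e}}
      have h4 : 0 ≤ (1 - (q : ℝ)) * Pr q {ω | Function.update ω a false ∈
          {ω : Config | ∀ e ∈ insert a s, ω e = b e}} := mul_nonneg (by linarith) h3
      have h5 : (1 / 4 : ℝ) * (1 / 4 : ℝ) ^ s.card ≤ (q : ℝ) *
          Pr q {ω | ∀ e ∈ s, ω e = b e} :=
        mul_le_mul (by linarith) ih hp (by linarith)
      linarith

/-- An explicit configuration in the ball of radius `1`. -/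
theorem a4_one (q : I) (h1 : 1 / 4 ≤ (q : ℝ)) (h2 : (q : ℝ) ≤ 3 / 4) :
    (1 / 4 : ℝ) ^ 24 ≤ a4 q 1 := by
  set b : Config := fun f => decide (f = ((-1 : ℤ), (0 : ℤ), false)) with hb
  have hcard : (eRect (-1) 1 (-1) 1).card = 18 := by
    simp [eRect]
  have hle := a4Basic_cyl q h1 h2 b (eRect (-1) 1 (-1) 1)
  rw [hcard] at hle
  have hpow : (1 / 4 : ℝ) ^ 24 ≤ (1 / 4 : ℝ) ^ 18 :=
    pow_le_pow_of_le_one (by norm_num) (by norm_num) (by norm_num)
  refine hpow.trans (hle.trans (Pr_mono ?_))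
  intro ω hω
  have hball : ∀ w : Vert, w ∈ ball (src ((0 : ℤ), (0 : ℤ), false)) 1 ↔ w ∈ rect (-1) 1 (-1) 1 := by
    intro w
    simp only [mem_ball, src, rect, Set.mem_ofPred_eq, Nat.cast_one]
    omega
  have hopen : ω (-1, 0, false) = true := by
    rw [hω (-1, 0, false) (mem_eRect.2 (by simp [src, rect]))]
    simp [hb]
  have hclosed : ∀ f : Edge, src f ∈ ball (src ((0 : ℤ), (0 : ℤ), false)) 1 → ω f = true →
      f = (-1, 0, false) := by
    intro f hf ho
    rw [hω f (mem_eRect.2 ((hball _).1 hf))] at ho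
    simpa [hb] using ho
  refine ⟨⟨(-1, 0), ?_, ?_⟩, ⟨(1, 0), ?_, ?_⟩, ?_⟩
  · refine ⟨(hball _).2 (by simp [rect]), Or.inl (by simp [src])⟩
  · refine Step.conn ⟨(hball _).2 (by simp [src, rect]), (hball _).2 (by simp [rect]),
      (-1, 0, false), Or.inr ⟨by simp [src, tgt], by simp [src]⟩, ?_⟩
    rw [a4Basic_close_apply_ne (by simp)]
    exact hopen
  · refine ⟨(hball _).2 (by simp [rect]), Or.inr (Or.inl (by simp [src]))⟩
  · have : tgt ((0 : ℤ), (0 : ℤ), false) = (1, 0) := by simp [tgt]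
    rw [this]
    exact Conn.refl ((hball _).2 (by simp [rect]))
  · intro hc
    have hP : (tgt ((0 : ℤ), (0 : ℤ), false)).1 ≤ 0 := by
      refine hc.induction_right (P := fun w => w.1 ≤ 0) (by simp [src]) ?_
      intro a c _ hac _
      obtain ⟨ha, hc', f, hf, ho⟩ := hac
      have hfe : f ≠ (0, 0, false) := by
        intro h
        rw [h, a4Basic_close_apply_self] at ho
        exact absurd ho (by decide)
      rw [a4Basic_close_apply_ne hfe] at ho
      have hsrc : src f ∈ ball (src ((0 : ℤ), (0 : ℤ), false)) 1 := by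
        rcases hf with ⟨h3, _⟩ | ⟨_, h3⟩
        · rw [← h3]; exact ha
        · rw [← h3]; exact hc'
      have hff := hclosed f hsrc ho
      subst hff
      rcases hf with ⟨_, h3⟩ | ⟨_, h3⟩
      · rw [h3]; simp [tgt]
      · rw [h3]; simp [src]
    simp [tgt] at hP

theorem localOn_A4T (N : ℕ) (f : Edge) (r : ℕ) :
    LocalOn ((eRect (f.1 - r) (f.1 + r) (f.2.1 - r) (f.2.1 + r)).image (modE N)) (A4T N f r) := by
  intro ω ω' h hω
  refine localOn_A4 f r _ _ (fun e he => ?_) hω
  exact h _ (Finset.mem_image_of_mem (modE N) he)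

private theorem a4Basic_int {N : ℕ} {a b c : ℤ} {r : ℕ} (h : 2 * r < N) (ha1 : c - r ≤ a)
    (ha2 : a ≤ c + r) (hb1 : c - r ≤ b) (hb2 : b ≤ c + r) (hab : a % N = b % N) : a = b := by
  have h1 : (N : ℤ) ∣ a - b := Int.ModEq.dvd (show b ≡ a [ZMOD N] from hab.symm)
  have h2 : |a - b| < N := by
    rw [abs_lt]
    constructor <;> omega
  have h3 := Int.eq_zero_of_abs_lt_dvd h1 h2
  omega

theorem Pr_A4T (q : I) {N : ℕ} {f : Edge} (hf : f ∈ tEdges N) {r : ℕ} (h : 2 * r < N) :
    Pr q (A4T N f r) = a4 q r := by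
  have hinj : Set.InjOn (modE N) (eRect (f.1 - r) (f.1 + r) (f.2.1 - r) (f.2.1 + r)) := by
    intro e he e' he' hee
    rw [Finset.mem_coe, mem_eRect] at he he'
    simp only [src, rect, Set.mem_ofPred_eq] at he he'
    simp only [modE, Prod.mk.injEq] at hee
    obtain ⟨x, y, d⟩ := e
    obtain ⟨x', y', d'⟩ := e'
    simp only at he he' hee
    obtain ⟨hx, hy, hd⟩ := hee
    rw [a4Basic_int h he.1 he.2.1 he'.1 he'.2.1 hx,
      a4Basic_int h he.2.2.1 he.2.2.2 he'.2.2.1 he'.2.2.2 hy, hd]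
  rw [← Pr_A4 q f r, ← Pr_comp (localOn_A4 f r) hinj]
  rfl

end Pool.Agent.H61.NC

end

section

/-!
# Open circuits in the box-crossing regime, in the plane and on the torus
-/

open MeasureTheory ProbabilityTheory unitInterval

namespace Pool.Agent.H61.NC

open Pool.Agent.H89.Perc Pool.Agent.H85.Strict

variable {q : I}

/-- Open crossings of the four sides of the annulus with radii `s < r` around `z`. -/
def CircE (ω : Config) (z : Vert) (s r : ℕ) : Prop :=
  (HCross ω (z.1 - r) (z.1 + r) (z.2 + s) (z.2 + r) ∧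
    HCross ω (z.1 - r) (z.1 + r) (z.2 - r) (z.2 - s)) ∧
  (VCross ω (z.1 + s) (z.1 + r) (z.2 - r) (z.2 + r) ∧
    VCross ω (z.1 - r) (z.1 - s) (z.2 - r) (z.2 + r))

/-- All crossings of the annulus meet the circuit, and the circuit is connected.  The vertex `k` is
on the right side. -/
theorem circ_join {ω : Config} {z : Vert} {s r : ℕ} (hsr : s ≤ r) (h : CircE ω z s r) :
    ∃ k : Vert, k ∈ ball z r ∧
      (∀ w u : Vert, w ∈ ball z s → (u ∉ ball z r ∨ u ∈ sphere z r) → Conn ω Set.univ w u →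
        Conn ω Set.univ k w) ∧
      (∀ u v : Vert, u.1 ≤ z.1 + s → z.1 + r ≤ v.1 →
        Conn ω {w | z.2 - r ≤ w.2 ∧ w.2 ≤ z.2 + r} u v → Conn ω Set.univ k u) ∧
      (∀ u v : Vert, u.1 ≤ z.1 - r → z.1 - s ≤ v.1 →
        Conn ω {w | z.2 - r ≤ w.2 ∧ w.2 ≤ z.2 + r} u v → Conn ω Set.univ k u) := by
  have hsr' : (s : ℤ) ≤ r := by exact_mod_cast hsr
  obtain ⟨⟨⟨tu, tv, htu, htv, T⟩, ⟨bu, bv, hbu, hbv, B⟩⟩,
    ⟨⟨ru, rv, hru, hrv, R⟩, ⟨lu, lv, hlu, hlv, L⟩⟩⟩ := h
  have hs : ∀ S : Set Vert, ∀ a b : Vert, Conn ω S a b → Conn ω Set.univ a b :=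
    fun S a b h => h.mono_set (Set.subset_univ _)
  have tR : Conn ω Set.univ tu ru := by
    obtain ⟨p, h1, h2⟩ := hv_meet T (by omega) (by omega) R (by omega) (by omega) (by omega)
      (by omega)
    exact (hs _ _ _ h1).trans (hs _ _ _ h2).symm
  have tL : Conn ω Set.univ tu lu := by
    obtain ⟨p, h1, h2⟩ := hv_meet T (by omega) (by omega) L (by omega) (by omega) (by omega)
      (by omega)
    exact (hs _ _ _ h1).trans (hs _ _ _ h2).symm
  have bR : Conn ω Set.univ bu ru := by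
    obtain ⟨p, h1, h2⟩ := hv_meet B (by omega) (by omega) R (by omega) (by omega) (by omega)
      (by omega)
    exact (hs _ _ _ h1).trans (hs _ _ _ h2).symm
  have tB : Conn ω Set.univ tu bu := tR.trans bR.symm
  refine ⟨tu, ?_, ?_, ?_, ?_⟩
  · have := T.mem_left
    simp only [rect, Set.mem_ofPred_eq] at this
    rw [mem_ball]
    omega
  · intro w u hw hu hwu
    have hw' : w ∈ ball z r := by
      rw [mem_ball] at hw ⊢
      omega
    obtain ⟨x, hx, hwx⟩ := hwu.to_sphere hw' hu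
    have hwx' : Conn ω (rect (z.1 - r) (z.1 + r) (z.2 - r) (z.2 + r)) w x :=
      hwx.mono_set Set.inter_subset_right
    rw [mem_ball] at hw
    have hb := hx.1
    rw [mem_ball] at hb
    rcases hx.2 with h1 | h1 | h1 | h1
    · obtain ⟨p, h2, h3⟩ := hv_meet hwx'.symm (by omega) (by omega) L (by omega) (by omega)
        (by omega) (by omega)
      exact tL.trans ((hs _ _ _ h3).trans ((hs _ _ _ h2).symm.trans (hs _ _ _ hwx'.symm)))
    · obtain ⟨p, h2, h3⟩ := hv_meet hwx' (by omega) (by omega) R (by omega) (by omega)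
        (by omega) (by omega)
      exact tR.trans ((hs _ _ _ h3).trans (hs _ _ _ h2).symm)
    · obtain ⟨p, h2, h3⟩ := hv_meet B (by omega) (by omega) hwx'.symm (by omega) (by omega)
        (by omega) (by omega)
      exact tB.trans ((hs _ _ _ h2).trans ((hs _ _ _ h3).symm.trans (hs _ _ _ hwx'.symm)))
    · obtain ⟨p, h2, h3⟩ := hv_meet T (by omega) (by omega) hwx' (by omega) (by omega)
        (by omega) (by omega)
      exact (hs _ _ _ h2).trans (hs _ _ _ h3).symm
  · intro u v hu hv huv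
    obtain ⟨u', v', hu', hv', h1, h2, -⟩ := huv.cross_x hu hv (by omega)
    have h3 : Conn ω (rect (z.1 + s) (z.1 + r) (z.2 - r) (z.2 + r)) u' v' := by
      refine h1.mono_set ?_
      intro w hw
      simp only [rect, Set.mem_inter_iff, Set.mem_ofPred_eq] at hw ⊢
      omega
    obtain ⟨p, h4, h5⟩ := hv_meet h3 (by omega) (by omega) R (by omega) (by omega)
      (by omega) (by omega)
    exact tR.trans ((hs _ _ _ h5).trans ((hs _ _ _ h4).symm.trans (hs _ _ _ h2).symm))
  · intro u v hu hv huv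
    obtain ⟨u', v', hu', hv', h1, h2, -⟩ := huv.cross_x hu hv (by omega)
    have h3 : Conn ω (rect (z.1 - r) (z.1 - s) (z.2 - r) (z.2 + r)) u' v' := by
      refine h1.mono_set ?_
      intro w hw
      simp only [rect, Set.mem_inter_iff, Set.mem_ofPred_eq] at hw ⊢
      omega
    obtain ⟨p, h4, h5⟩ := hv_meet h3 (by omega) (by omega) L (by omega) (by omega)
      (by omega) (by omega)
    exact tL.trans ((hs _ _ _ h5).trans ((hs _ _ _ h4).symm.trans (hs _ _ _ h2).symm))

/-! ### Probabilities of crossings -/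

/-- Crossings in the box-crossing regime. -/
theorem reg_hcross {c : ℝ} {N m : ℕ} (h : RSWreg c N q) (h1 : 1 ≤ m) (h2 : m ≤ N) {x y z t : ℤ}
    (hxy : x ≤ y) (h3 : y - x ≤ 4 * m) (h4 : m ≤ t - z) :
    c ≤ Pr q {ω | HCross ω x y z t} := by
  have k1 := (h m h1 h2).1
  have k2 := Pr_hcross_translate (p := q) (a := 0) (b := 4 * (m : ℤ)) (c := 0) (d := m) x z
  rw [← k2] at k1
  refine k1.trans (Pr_mono fun ω hω => ?_)
  exact HCross.mono hω (by omega) hxy (by omega) (by omega) (by omega)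

theorem reg_vcross {c : ℝ} {N m : ℕ} (h : RSWreg c N q) (h1 : 1 ≤ m) (h2 : m ≤ N) {x y z t : ℤ}
    (hzt : z ≤ t) (h3 : t - z ≤ 4 * m) (h4 : m ≤ y - x) :
    c ≤ Pr q {ω | VCross ω x y z t} := by
  rw [Pr_vcross_eq_hcross]
  exact reg_hcross h h1 h2 hzt h3 h4

theorem modE_injOn {N : ℕ} {a b c d : ℤ} (h1 : b - a < N) (h2 : d - c < N) :
    Set.InjOn (modE N) (eRect a b c d) := by
  have key : ∀ {a b x y : ℤ}, b - a < N → a ≤ x → x ≤ b → a ≤ y → y ≤ b → x % N = y % N →
      x = y := by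
    intro a b x y hab h1 h2 h3 h4 h5
    have h6 : (N : ℤ) ∣ x - y := Int.ModEq.dvd (show y ≡ x [ZMOD N] from h5.symm)
    have h7 : |x - y| < N := by
      rw [abs_lt]
      constructor <;> omega
    have h8 := Int.eq_zero_of_abs_lt_dvd h6 h7
    omega
  intro e he e' he' hee
  rw [Finset.mem_coe, mem_eRect] at he he'
  simp only [src, rect, Set.mem_ofPred_eq] at he he'
  simp only [modE, Prod.mk.injEq] at hee
  obtain ⟨x, y, g⟩ := e
  obtain ⟨x', y', g'⟩ := e'
  simp only at he he' hee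
  obtain ⟨hx, hy, hd⟩ := hee
  rw [key h1 he.1 he.2.1 he'.1 he'.2.1 hx, key h2 he.2.2.1 he.2.2.2 he'.2.2.1 he'.2.2.2 hy, hd]

/-- Local events in a rectangle of size less than `N` have the same probability in the plane and
on the torus. -/
theorem Pr_per {N : ℕ} {a b c d : ℤ} {A : Set Config} (hA : LocalOn (eRect a b c d) A)
    (h1 : b - a < N) (h2 : d - c < N) : Pr q {ω | per N ω ∈ A} = Pr q A := by
  rw [← Pr_comp hA (modE_injOn h1 h2)]
  rfl

theorem reg_HT {c : ℝ} {N m : ℕ} (h : RSWreg c N q) (h1 : 1 ≤ m) (h2 : m ≤ N) {x y z t : ℤ}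
    (hxy : x ≤ y) (h3 : y - x ≤ 4 * m) (h4 : m ≤ t - z) (h5 : y - x < N) (h6 : t - z < N) :
    c ≤ Pr q (HT N x y z t) := by
  have k : Pr q (HT N x y z t) = Pr q {ω | HCross ω x y z t} :=
    Pr_per (localOn_hcross x y z t) h5 h6
  rw [k]
  exact reg_hcross h h1 h2 hxy h3 h4

theorem reg_VT {c : ℝ} {N m : ℕ} (h : RSWreg c N q) (h1 : 1 ≤ m) (h2 : m ≤ N) {x y z t : ℤ}
    (hzt : z ≤ t) (h3 : t - z ≤ 4 * m) (h4 : m ≤ y - x) (h5 : y - x < N) (h6 : t - z < N) :
    c ≤ Pr q (VT N x y z t) := by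
  have k : Pr q (VT N x y z t) = Pr q {ω | VCross ω x y z t} :=
    Pr_per (localOn_vcross x y z t) h5 h6
  rw [k]
  exact reg_vcross h h1 h2 hzt h3 h4

theorem Pr_ArmT {N r : ℕ} (h : 2 * r < N) : Pr q (ArmT N r) = arm q r := by
  have k : Pr q (ArmT N r) = Pr q (Arm (m0 N) r) :=
    Pr_per (localOn_arm (m0 N) r) (by omega) (by omega)
  rw [k, Pr_arm]

/-- Positive correlations, with a lower bound for the second event. -/
theorem fkg_step {s t : Finset Edge} {A B : Set Config} {x y : ℝ} (hA : LocalOn s A)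
    (hB : LocalOn t B) (iA : Incr A) (iB : Incr B) (hy : 0 ≤ y) (h1 : x ≤ Pr q A)
    (h2 : y ≤ Pr q B) : x * y ≤ Pr q (A ∩ B) :=
  (mul_le_mul h1 h2 hy Pr_nonneg).trans (fkg hA hB iA iB)

/-- Circuits on the torus, together with another increasing event. -/
theorem circT {c : ℝ} (hc : 0 ≤ c) {N m : ℕ} (hR : RSWreg c N q) (h1 : 1 ≤ m) (h2 : 4 * m < N)
    {A : Set Config} (hA : LocalOn (tEdges N) A) (iA : Incr A) {x : ℝ} (hx : x ≤ Pr q A) :
    x * c ^ 4 ≤ Pr q (A ∩ {ω | CircE (per N ω) (m0 N) m (2 * m)}) := by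
  classical
  have hN : 1 ≤ N := by omega
  obtain ⟨z, hz⟩ : ∃ z, z = m0 N := ⟨_, rfl⟩
  have e2 : ((2 * m : ℕ) : ℤ) = 2 * m := by push_cast; ring
  have k1 := reg_HT hR h1 (by omega) (x := z.1 - (2 * m : ℕ)) (y := z.1 + (2 * m : ℕ))
    (z := z.2 + m) (t := z.2 + (2 * m : ℕ)) (by omega) (by omega) (by omega) (by omega) (by omega)
  have k2 := reg_HT hR h1 (by omega) (x := z.1 - (2 * m : ℕ)) (y := z.1 + (2 * m : ℕ))
    (z := z.2 - (2 * m : ℕ)) (t := z.2 - m) (by omega) (by omega) (by omega) (by omega) (by omega)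
  have k3 := reg_VT hR h1 (by omega) (x := z.1 + m) (y := z.1 + (2 * m : ℕ))
    (z := z.2 - (2 * m : ℕ)) (t := z.2 + (2 * m : ℕ)) (by omega) (by omega) (by omega) (by omega)
    (by omega)
  have k4 := reg_VT hR h1 (by omega) (x := z.1 - (2 * m : ℕ)) (y := z.1 - m)
    (z := z.2 - (2 * m : ℕ)) (t := z.2 + (2 * m : ℕ)) (by omega) (by omega) (by omega) (by omega)
    (by omega)
  have l1 := fkg_step hA (localOn_HT hN _ _ _ _) iA (incr_HT N _ _ _ _) hc hx k1
  have l2 := fkg_step (hA.inter (localOn_HT hN _ _ _ _)) (localOn_HT hN _ _ _ _)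
    (iA.inter (incr_HT N _ _ _ _)) (incr_HT N _ _ _ _) hc l1 k2
  have l3 := fkg_step ((hA.inter (localOn_HT hN _ _ _ _)).inter (localOn_HT hN _ _ _ _))
    (localOn_VT hN _ _ _ _) ((iA.inter (incr_HT N _ _ _ _)).inter (incr_HT N _ _ _ _))
    (incr_VT N _ _ _ _) hc l2 k3
  have l4 := fkg_step (((hA.inter (localOn_HT hN _ _ _ _)).inter (localOn_HT hN _ _ _ _)).inter
    (localOn_VT hN _ _ _ _)) (localOn_VT hN _ _ _ _)
    (((iA.inter (incr_HT N _ _ _ _)).inter (incr_HT N _ _ _ _)).inter (incr_VT N _ _ _ _))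
    (incr_VT N _ _ _ _) hc l3 k4
  rw [← hz]
  have e : x * c ^ 4 = x * c * c * c * c := by ring
  rw [e]
  refine l4.trans (Pr_mono ?_)
  rintro ω ⟨⟨⟨⟨h0, h1⟩, h2⟩, h3⟩, h4⟩
  exact ⟨h0, ⟨h1, h2⟩, h3, h4⟩

end Pool.Agent.H61.NC

end
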