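import Pool.Agent.H31.PT.M06
import Pool.Agent.H31.PT.M09

/-! The parts of this file: H61.NC.Det, H61.NC.Pair, H61.NC.TSym, H57.EX.Nets, H59.EX.Sym, H59.EX.St1, H59.EX.GeoSep, H59.EX.St3, H59.EX.Bad. -/

section

/-!
# A pivotal edge for the winding event has four arms
-/

open MeasureTheory ProbabilityTheory unitInterval

namespace Pool.Agent.H61.NC

open Pool.Agent.H89.Perc

private lemma Det_per_shift {N : ℕ} (η : Config) (a b : ℤ) {u v : Vert}
    (h : Conn (per N η) Set.univ u v) :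
    Conn (per N η) Set.univ (u.1 + a * N, u.2 + b * N) (v.1 + a * N, v.2 + b * N) := by
  have h1 := conn_shift (ω := per N η) (a * N, b * N) Set.univ u v
  have h2 : (fun e => per N η (shiftE (a * N, b * N) e)) = per N η := by
    funext e
    simp only [per, shiftE]
    rw [Int.add_mul_emod_self_right, Int.add_mul_emod_self_right]
  rw [h2] at h1
  exact (h1.1 h).mono_set (Set.subset_univ _)

/-- Contraction of the translates of a small cluster. -/
private lemma Det_core {N r : ℕ} (hN : 2 * r + 2 ≤ N) (x p q : Vert)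
    (η0 η1 : Config)
    (hper : ∀ (a b : ℤ) (u v : Vert), Conn η0 Set.univ u v →
      Conn η0 Set.univ (u.1 + a * N, u.2 + b * N) (v.1 + a * N, v.2 + b * N))
    (hstep : ∀ v v' : Vert, Step η1 Set.univ v v' → Step η0 Set.univ v v' ∨ ∃ a b : ℤ,
      (v = (p.1 + a * N, p.2 + b * N) ∧ v' = (q.1 + a * N, q.2 + b * N)) ∨
      (v = (q.1 + a * N, q.2 + b * N) ∧ v' = (p.1 + a * N, p.2 + b * N)))
    (hq : |q.1 - x.1| ≤ 1 ∧ |q.2 - x.2| ≤ 1) (hpq : ¬ Conn η0 Set.univ p q)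
    (hC : ∀ v : Vert, Conn η0 Set.univ p v → |v.1 - x.1| ≤ r ∧ |v.2 - x.2| ≤ r)
    (u : Vert) (a b : ℤ) (h : Conn η1 Set.univ u (u.1 + a * N, u.2 + b * N)) :
    ∃ u' : Vert, Conn η0 Set.univ u' (u'.1 + a * N, u'.2 + b * N) := by
  classical
  have hN' : (2 * r + 2 : ℤ) ≤ N := by exact_mod_cast hN
  -- membership in the translate of the cluster
  obtain ⟨Cl, hCl⟩ : ∃ Cl : ℤ → ℤ → Vert → Prop, ∀ a b v, Cl a b v ↔
      Conn η0 Set.univ p (v.1 - a * N, v.2 - b * N) := ⟨_, fun _ _ _ => Iff.rfl⟩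
  have hmul : ∀ c : ℤ, |c * N| < N → c = 0 := by
    intro c hc
    by_contra h0
    have h1 : 1 ≤ |c| := Int.one_le_abs h0
    rw [abs_mul, abs_of_nonneg (by omega : (0 : ℤ) ≤ N)] at hc
    nlinarith
  have huniq : ∀ a b a' b' v, Cl a b v → Cl a' b' v → a = a' ∧ b = b' := by
    intro a b a' b' v h1 h2
    have h3 := hC _ ((hCl _ _ _).1 h1)
    have h4 := hC _ ((hCl _ _ _).1 h2)
    simp only at h3 h4
    have h5 : a - a' = 0 := by
      apply hmul
      have e1 : (a - a') * N = (v.1 - a' * N - x.1) - (v.1 - a * N - x.1) := by ring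
      rw [e1]
      have := abs_sub (v.1 - a' * N - x.1) (v.1 - a * N - x.1)
      omega
    have h6 : b - b' = 0 := by
      apply hmul
      have e1 : (b - b') * N = (v.2 - b' * N - x.2) - (v.2 - b * N - x.2) := by ring
      rw [e1]
      have := abs_sub (v.2 - b' * N - x.2) (v.2 - b * N - x.2)
      omega
    exact ⟨by omega, by omega⟩
  have hshift : ∀ a b c d v, Cl a b v → Cl (a + c) (b + d) (v.1 + c * N, v.2 + d * N) := by
    intro a b c d v h1
    rw [hCl] at h1 ⊢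
    have e1 : ((v.1 + c * N - (a + c) * N, v.2 + d * N - (b + d) * N) : Vert) =
        (v.1 - a * N, v.2 - b * N) := by
      ext <;> (simp only; ring)
    simp only at e1 ⊢
    rw [e1]
    exact h1
  have hqC : ∀ a b c d, ¬ Cl a b (q.1 + c * N, q.2 + d * N) := by
    intro a b c d h1
    rw [hCl] at h1
    have h3 := hC _ h1
    simp only at h3
    have h5 : c - a = 0 := by
      apply hmul
      have e1 : (c - a) * N = (q.1 + c * N - a * N - x.1) - (q.1 - x.1) := by ring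
      rw [e1]
      have := abs_sub (q.1 + c * N - a * N - x.1) (q.1 - x.1)
      omega
    have h6 : d - b = 0 := by
      apply hmul
      have e1 : (d - b) * N = (q.2 + d * N - b * N - x.2) - (q.2 - x.2) := by ring
      rw [e1]
      have := abs_sub (q.2 + d * N - b * N - x.2) (q.2 - x.2)
      omega
    have h7 : c = a := by omega
    have h8 : d = b := by omega
    subst h7 h8
    apply hpq
    have e1 : ((q.1 + c * N - c * N, q.2 + d * N - d * N) : Vert) = q := by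
      ext <;> (simp only; ring)
    simp only at h1
    rw [e1] at h1
    exact h1
  have hpC : ∀ c d, Cl c d (p.1 + c * N, p.2 + d * N) := by
    intro c d
    rw [hCl]
    have e1 : ((p.1 + c * N - c * N, p.2 + d * N - d * N) : Vert) = p := by
      ext <;> (simp only; ring)
    simp only
    rw [e1]
    exact Conn.refl (Set.mem_univ _)
  -- closure under steps
  have hclose : ∀ a b v v', Step η0 Set.univ v v' → Cl a b v → Cl a b v' := by
    intro a b v v' h1 h2
    rw [hCl] at h2 ⊢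
    have h3 := hper (-a) (-b) v v' h1.conn
    have e1 : ∀ w : Vert, ((w.1 + -a * N, w.2 + -b * N) : Vert) = (w.1 - a * N, w.2 - b * N) := by
      intro w
      ext <;> (simp only; ring)
    rw [e1, e1] at h3
    exact h2.trans h3
  obtain ⟨g, hg⟩ : ∃ g : Vert → Vert, g = fun v => if h : ∃ c : ℤ × ℤ, Cl c.1 c.2 v then
      (q.1 + h.choose.1 * N, q.2 + h.choose.2 * N) else v := ⟨_, rfl⟩
  have hg1 : ∀ a b v, Cl a b v → g v = (q.1 + a * N, q.2 + b * N) := by
    intro a b v h1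
    have h2 : ∃ c : ℤ × ℤ, Cl c.1 c.2 v := ⟨(a, b), h1⟩
    rw [hg]
    simp only
    rw [dif_pos h2]
    obtain ⟨h3, h4⟩ := huniq _ _ _ _ v h2.choose_spec h1
    rw [h3, h4]
  have hg2 : ∀ v, (∀ a b, ¬ Cl a b v) → g v = v := by
    intro v h1
    have h2 : ¬ ∃ c : ℤ × ℤ, Cl c.1 c.2 v := by
      rintro ⟨c, hc⟩
      exact h1 _ _ hc
    rw [hg]
    simp only
    rw [dif_neg h2]
  have hg3 : ∀ v c d, g (v.1 + c * N, v.2 + d * N) = ((g v).1 + c * N, (g v).2 + d * N) := by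
    intro v c d
    by_cases h1 : ∃ c : ℤ × ℤ, Cl c.1 c.2 v
    · obtain ⟨k, hk⟩ := h1
      rw [hg1 _ _ v hk, hg1 _ _ _ (hshift k.1 k.2 c d v hk)]
      ext <;> (simp only; ring)
    · have h2 : ∀ a b, ¬ Cl a b v := fun a b h => h1 ⟨(a, b), h⟩
      rw [hg2 v h2, hg2]
      intro a b h3
      have h4 := hshift a b (-c) (-d) _ h3
      have e1 : (((v.1 + c * N) + -c * N, (v.2 + d * N) + -d * N) : Vert) = v := by
        ext <;> (simp only; ring)
      simp only at h4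
      rw [e1] at h4
      exact h2 _ _ h4
  refine ⟨g u, ?_⟩
  rw [← hg3]
  refine h.induction_right (P := fun v => Conn η0 Set.univ (g u) (g v))
    (Conn.refl (Set.mem_univ _)) ?_
  intro v v' _ hvv hv
  rcases hstep v v' hvv with h1 | ⟨c, d, h1 | h1⟩
  · by_cases h2 : ∃ c : ℤ × ℤ, Cl c.1 c.2 v
    · obtain ⟨k, hk⟩ := h2
      rw [hg1 _ _ v hk] at hv
      rw [hg1 _ _ v' (hclose _ _ _ _ h1 hk)]
      exact hv
    · have h3 : ∀ a b, ¬ Cl a b v := fun a b h => h2 ⟨(a, b), h⟩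
      have h4 : ∀ a b, ¬ Cl a b v' := fun a b h => h3 a b (hclose _ _ _ _ h1.symm h)
      rw [hg2 v h3] at hv
      rw [hg2 v' h4]
      exact hv.tail h1
  · obtain ⟨h2, h3⟩ := h1
    rw [h2, hg1 _ _ _ (hpC c d)] at hv
    rw [h3, hg2 _ fun a b => hqC a b c d]
    exact hv
  · obtain ⟨h2, h3⟩ := h1
    rw [h2, hg2 _ fun a b => hqC a b c d] at hv
    rw [h3, hg1 _ _ _ (hpC c d)]
    exact hv

/-- If the edge `e` is pivotal for the winding event then the four-arm event of `e` occurs (on the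
universal cover, i.e. for the periodic configuration). -/
theorem A4T_of_pivot {N : ℕ} {e : Edge} (he : e ∈ tEdges N) {r : ℕ} (hr : 1 ≤ r)
    (hN : 2 * r + 2 ≤ N) {ω : Config} (h1 : Function.update ω e true ∈ Wind N)
    (h2 : Function.update ω e false ∉ Wind N) : ω ∈ A4T N e r := by
  have hN' : (2 * r + 2 : ℤ) ≤ N := by exact_mod_cast hN
  have hte : 0 ≤ e.1 ∧ e.1 < N ∧ 0 ≤ e.2.1 ∧ e.2.1 < N := by
    simp only [tEdges, Finset.mem_product, Finset.mem_Ico, Finset.mem_univ, and_true] at he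
    tauto
  have hmod : modE N e = e := by
    obtain ⟨x, y, c⟩ := e
    simp only [modE]
    simp only at hte
    rw [Int.emod_eq_of_lt hte.1 hte.2.1, Int.emod_eq_of_lt hte.2.2.1 hte.2.2.2]
  obtain ⟨η0, hη0⟩ : ∃ η0, η0 = per N (Function.update ω e false) := ⟨_, rfl⟩
  obtain ⟨η1, hη1⟩ : ∃ η1, η1 = per N (Function.update ω e true) := ⟨_, rfl⟩
  -- edges which are translates of `e`
  have htr : ∀ f : Edge, modE N f = e → ∃ a b : ℤ, f = shiftE (a * N, b * N) e := by
    intro f hf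
    refine ⟨f.1 / N, f.2.1 / N, ?_⟩
    rw [← hf]
    obtain ⟨x, y, c⟩ := f
    simp only [modE, shiftE]
    rw [Int.emod_add_ediv_mul, Int.emod_add_ediv_mul]
  have hη0f : ∀ f : Edge, η0 f = if modE N f = e then false else per N ω f := by
    intro f
    rw [hη0]
    unfold per
    rw [Function.update_apply]
    rfl
  have hη1f : ∀ f : Edge, η1 f = if modE N f = e then true else per N ω f := by
    intro f
    rw [hη1]
    unfold per
    rw [Function.update_apply]
    rfl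
  have hper : ∀ (a b : ℤ) (u v : Vert), Conn η0 Set.univ u v →
      Conn η0 Set.univ (u.1 + a * N, u.2 + b * N) (v.1 + a * N, v.2 + b * N) := by
    intro a b u v h
    rw [hη0] at h ⊢
    exact Det_per_shift _ a b h
  have hstep : ∀ v v' : Vert, Step η1 Set.univ v v' → Step η0 Set.univ v v' ∨ ∃ a b : ℤ,
      (v = ((src e).1 + a * N, (src e).2 + b * N) ∧ v' = ((tgt e).1 + a * N, (tgt e).2 + b * N)) ∨
      (v = ((tgt e).1 + a * N, (tgt e).2 + b * N) ∧
        v' = ((src e).1 + a * N, (src e).2 + b * N)) := by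
    rintro v v' ⟨-, -, f, hf, hfo⟩
    by_cases hfe : modE N f = e
    · right
      obtain ⟨a, b, hab⟩ := htr f hfe
      refine ⟨a, b, ?_⟩
      have h3 := joins_shift (a * N, b * N) (joins_src_tgt e)
      rw [← hab] at h3
      rcases hf with ⟨g1, g2⟩ | ⟨g1, g2⟩ <;> rcases h3 with ⟨g3, g4⟩ | ⟨g3, g4⟩
      · left
        exact ⟨g1.trans g3.symm, g2.trans g4.symm⟩
      · right
        exact ⟨g1.trans g4.symm, g2.trans g3.symm⟩
      · right
        exact ⟨g1.trans g4.symm, g2.trans g3.symm⟩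
      · left
        exact ⟨g1.trans g3.symm, g2.trans g4.symm⟩
    · left
      refine ⟨Set.mem_univ _, Set.mem_univ _, f, hf, ?_⟩
      rw [hη1f, if_neg hfe] at hfo
      rw [hη0f, if_neg hfe]
      exact hfo
  -- the configurations agree inside the ball
  have hball : ∀ f : Edge, src f ∈ ball (src e) r → tgt f ∈ ball (src e) r →
      close e (per N ω) f = η0 f := by
    intro f hf _
    rw [hη0f]
    unfold close
    by_cases hfe : f = e
    · rw [hfe, Function.update_self, hmod, if_pos rfl]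
    · rw [Function.update_of_ne hfe]
      have h3 : modE N f ≠ e := by
        intro h
        obtain ⟨a, b, hab⟩ := htr f h
        apply hfe
        rw [hab] at hf ⊢
        obtain ⟨x, y, c⟩ := e
        simp only [mem_ball, src, shiftE] at hf ⊢
        have ha : a = 0 := by
          by_contra h0
          rcases lt_or_gt_of_ne h0 with h0 | h0
          · have : a * N ≤ -1 * N := mul_le_mul_of_nonneg_right (by omega) (by omega)
            omega
          · have : 1 * N ≤ a * N := mul_le_mul_of_nonneg_right (by omega) (by omega)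
            omega
        have hb : b = 0 := by
          by_contra h0
          rcases lt_or_gt_of_ne h0 with h0 | h0
          · have : b * N ≤ -1 * N := mul_le_mul_of_nonneg_right (by omega) (by omega)
            omega
          · have : 1 * N ≤ b * N := mul_le_mul_of_nonneg_right (by omega) (by omega)
            omega
        rw [ha, hb]
        simp
      rw [if_neg h3]
  obtain ⟨u, a, b, ha, hu⟩ := h1
  rw [← hη1] at hu
  have hnot : ∀ u' : Vert, ¬ Conn η0 Set.univ u' (u'.1 + a * N, u'.2 + b * N) := by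
    intro u' h
    rw [hη0] at h
    exact h2 ⟨u', a, b, ha, h⟩
  -- the two ends are not joined
  have hxy : ¬ Conn η0 Set.univ (src e) (tgt e) := by
    intro h
    apply hnot u
    refine hu.induction_right (P := fun v => Conn η0 Set.univ u v)
      (Conn.refl (Set.mem_univ _)) ?_
    intro v v' _ hvv hv
    rcases hstep v v' hvv with h3 | ⟨c, d, h3 | h3⟩
    · exact hv.tail h3
    · rw [h3.1] at hv
      rw [h3.2]
      exact hv.trans (hper c d _ _ h)
    · rw [h3.1] at hv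
      rw [h3.2]
      exact hv.trans (hper c d _ _ h.symm)
  have htgt : |(tgt e).1 - (src e).1| ≤ 1 ∧ |(tgt e).2 - (src e).2| ≤ 1 := by
    obtain ⟨x, y, c⟩ := e
    cases c
    · simp [src, tgt]
    · simp [src, tgt]
  have htb : tgt e ∈ ball (src e) r := by
    have h3 := abs_le.1 htgt.1
    have h4 := abs_le.1 htgt.2
    rw [mem_ball]
    omega
  -- a point of the ball with no arm has a small cluster
  have hsmall : ∀ p : Vert, p ∈ ball (src e) r →
      (¬ ∃ u ∈ sphere (src e) r, Conn (close e (per N ω)) (ball (src e) r) p u) →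
      ∀ v : Vert, Conn η0 Set.univ p v → |v.1 - (src e).1| ≤ r ∧ |v.2 - (src e).2| ≤ r := by
    intro p hp hno v hv
    by_contra hcon
    have h3 : v ∉ ball (src e) r := by
      intro h
      apply hcon
      rw [mem_ball] at h
      rw [abs_le, abs_le]
      omega
    obtain ⟨w, hw, hc⟩ := hv.to_sphere hp (Or.inl h3)
    apply hno
    refine ⟨w, hw, ?_⟩
    have h4 := hc.mono_set (T := ball (src e) r) Set.inter_subset_right
    exact h4.congr fun f hf1 hf2 => (hball f hf1 hf2).symm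
  refine ⟨?_, ?_, ?_⟩
  · by_contra hno
    obtain ⟨u', hu'⟩ := Det_core hN (src e) (src e) (tgt e) η0 η1 hper hstep htgt hxy
      (hsmall (src e) self_mem_ball hno) u a b hu
    exact hnot u' hu'
  · by_contra hno
    obtain ⟨u', hu'⟩ := Det_core hN (src e) (tgt e) (src e) η0 η1 hper
      (fun v v' h => by
        rcases hstep v v' h with h3 | ⟨c, d, h3 | h3⟩
        · exact Or.inl h3
        · exact Or.inr ⟨c, d, Or.inr h3⟩
        · exact Or.inr ⟨c, d, Or.inl h3⟩)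
      (by simp) (fun h => hxy h.symm)
      (hsmall (tgt e) htb hno) u a b hu
    exact hnot u' hu'
  · intro h
    exact hxy ((h.congr hball).mono_set (Set.subset_univ _))

end Pool.Agent.H61.NC

end

section

/-!
# Pairs of edges of the torus
-/

open MeasureTheory ProbabilityTheory unitInterval

namespace Pool.Agent.H61.NC

open Pool.Agent.H89.Perc

/-- Distance from an edge of the torus to the middle. -/
def dist0 (N : ℕ) (f : Edge) : ℕ := max (f.1 - mid N).natAbs (f.2.1 - mid N).natAbs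

private lemma Pair_mem_eRect {a b c d : ℤ} {e : Edge} :
    e ∈ eRect a b c d ↔ (a ≤ e.1 ∧ e.1 ≤ b) ∧ (c ≤ e.2.1 ∧ e.2.1 ≤ d) := by
  simp only [eRect, Finset.mem_product, Finset.mem_Icc, Finset.mem_univ, and_true]

private lemma Pair_mem_tEdges {N : ℕ} {e : Edge} :
    e ∈ tEdges N ↔ (0 ≤ e.1 ∧ e.1 < N) ∧ (0 ≤ e.2.1 ∧ e.2.1 < N) := by
  simp only [tEdges, Finset.mem_product, Finset.mem_Ico, Finset.mem_univ, and_true]

/-- The edges on which the four-arm event of `f` depends. -/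
private noncomputable def PairS (N : ℕ) (f : Edge) (r : ℕ) : Finset Edge :=
  (eRect (f.1 - r) (f.1 + r) (f.2.1 - r) (f.2.1 + r)).image (modE N)

private lemma Pair_modE {N : ℕ} {e : Edge} (he : e ∈ tEdges N) : modE N e = e := by
  rw [Pair_mem_tEdges] at he
  obtain ⟨x, y, t⟩ := e
  simp only at he
  simp only [modE]
  rw [Int.emod_eq_of_lt he.1.1 he.1.2, Int.emod_eq_of_lt he.2.1 he.2.2]

private lemma Pair_self {N : ℕ} {f : Edge} (hf : f ∈ tEdges N) (r : ℕ) : f ∈ PairS N f r := by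
  unfold PairS
  rw [Finset.mem_image]
  refine ⟨f, ?_, Pair_modE hf⟩
  rw [Pair_mem_eRect]
  omega

private lemma Pair_ctr {N : ℕ} (hN : 1 ≤ N) (d : Bool) : ctr N d ∈ tEdges N := by
  rw [Pair_mem_tEdges]
  simp only [ctr, mid]
  omega

private lemma Pair_one_dim {N ρ : ℕ} {x u v : ℤ} (hx0 : 0 ≤ x) (hxN : x < N)
    (hu : (N : ℤ) / 2 - ρ ≤ u ∧ u ≤ (N : ℤ) / 2 + ρ) (hv : x - ρ ≤ v ∧ v ≤ x + ρ)
    (h : u % (N : ℤ) = v % N) : (x - (N : ℤ) / 2).natAbs ≤ 2 * ρ := by
  have h1 : (N : ℤ) ∣ v - u := by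
    have h2 : u ≡ v [ZMOD N] := h
    exact h2.dvd
  obtain ⟨k, hk⟩ := h1
  rcases lt_trichotomy k 0 with h3 | h3 | h3
  · have h4 : (N : ℤ) * k ≤ -N := by nlinarith [Int.natCast_nonneg N]
    omega
  · subst h3
    rw [mul_zero] at hk
    omega
  · have h4 : (N : ℤ) ≤ N * k := by nlinarith [Int.natCast_nonneg N]
    omega

private lemma Pair_disj {N ρ : ℕ} {d : Bool} {f : Edge} (hf : f ∈ tEdges N)
    (h2 : 2 * ρ < dist0 N f) : Disjoint (PairS N (ctr N d) ρ) (PairS N f ρ) := by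
  rw [Finset.disjoint_left]
  intro x hx hx'
  unfold PairS at hx hx'
  rw [Finset.mem_image] at hx hx'
  obtain ⟨e1, he1, hx1⟩ := hx
  obtain ⟨e2, he2, hx2⟩ := hx'
  rw [Pair_mem_eRect] at he1 he2
  rw [Pair_mem_tEdges] at hf
  have h3 : modE N e1 = modE N e2 := hx1.trans hx2.symm
  simp only [modE, Prod.mk.injEq] at h3
  simp only [ctr, mid] at he1
  unfold dist0 at h2
  simp only [mid] at h2
  have g1 := Pair_one_dim hf.1.1 hf.1.2 he1.1 he2.1 h3.1
  have g2 := Pair_one_dim hf.2.1 hf.2.2 he1.2 he2.2 h3.2.1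
  rcases lt_max_iff.1 h2 with h | h
  · omega
  · omega

private lemma Pair_sub {N ρ R : ℕ} {f : Edge} (h3 : dist0 N f + ρ ≤ R) (h4 : 2 * R + 2 ≤ N) :
    PairS N f ρ ⊆ blk N R := by
  intro x hx
  unfold PairS at hx
  rw [Finset.mem_image] at hx
  obtain ⟨e, he, hx1⟩ := hx
  rw [Pair_mem_eRect] at he
  unfold dist0 mid at h3
  have h5 : (f.1 - (N : ℤ) / 2).natAbs + ρ ≤ R := by
    have := le_max_left (f.1 - (N : ℤ) / 2).natAbs (f.2.1 - (N : ℤ) / 2).natAbs
    omega
  have h6 : (f.2.1 - (N : ℤ) / 2).natAbs + ρ ≤ R := by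
    have := le_max_right (f.1 - (N : ℤ) / 2).natAbs (f.2.1 - (N : ℤ) / 2).natAbs
    omega
  have h7 : e ∈ tEdges N := by
    rw [Pair_mem_tEdges]
    omega
  rw [Pair_modE h7] at hx1
  rw [← hx1]
  unfold blk mid
  rw [Pair_mem_eRect]
  omega

private lemma Pair_dist_ctr (N : ℕ) (d : Bool) : dist0 N (ctr N d) = 0 := by
  simp [dist0, ctr]

private lemma Pair_fill_mem {s : Finset Edge} {b : Bool} {ω : Config} {e : Edge} (h : e ∈ s) :
    fill s b ω e = b := by
  classical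
  unfold fill
  rw [if_pos h]

private lemma Pair_fill_notMem {s : Finset Edge} {b : Bool} {ω : Config} {e : Edge}
    (h : e ∉ s) : fill s b ω e = ω e := by
  classical
  unfold fill
  rw [if_neg h]

/-- The block event depends only on the edges outside the block. -/
theorem localOn_BlockPiv {N : ℕ} (hN : 1 ≤ N) (R : ℕ) :
    LocalOn (tEdges N \ blk N R) (BlockPiv N R) := by
  intro ω ω' h hω
  have key : ∀ b, ∀ e ∈ tEdges N, fill (blk N R) b ω e = fill (blk N R) b ω' e := by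
    intro b e he
    by_cases hb : e ∈ blk N R
    · rw [Pair_fill_mem hb, Pair_fill_mem hb]
    · rw [Pair_fill_notMem hb, Pair_fill_notMem hb]
      exact h e (Finset.mem_sdiff.2 ⟨he, hb⟩)
  exact ⟨localOn_wind hN _ _ (key true) hω.1,
    fun h' => hω.2 (localOn_wind hN _ _ (fun e he => (key false e he).symm) h')⟩

private lemma Pair_ne {N ρ : ℕ} {d : Bool} {f : Edge} (h2 : 2 * ρ < dist0 N f) :
    ctr N d ≠ f := by
  rintro rfl
  rw [Pair_dist_ctr] at h2
  omega

private lemma Pair_localS (N : ℕ) (f : Edge) (r : ℕ) : LocalOn (PairS N f r) (A4T N f r) :=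
  localOn_A4T N f r

/-- On the joint event both edges have four arms. -/
private lemma Pair_joint_sub {N ρ : ℕ} {d : Bool} {f : Edge} (hf : f ∈ tEdges N)
    (h1 : 1 ≤ ρ) (h2 : 2 * ρ < dist0 N f) (h3 : 2 * ρ + 2 ≤ N) :
    Joint (Wind N) (ctr N d) f ⊆ A4T N (ctr N d) ρ ∩ A4T N f ρ := by
  intro ω hω
  have hc : ctr N d ∈ tEdges N := Pair_ctr (by omega) d
  have hdis := Pair_disj (d := d) hf h2
  obtain ⟨⟨b, hb1, hb2⟩, ⟨b', hb1', hb2'⟩⟩ := Joint_piv (incr_wind N) (Pair_ne h2) hω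
  constructor
  · have g := A4T_of_pivot hc h1 h3 hb1 hb2
    refine Pair_localS N (ctr N d) ρ _ _ (fun e he => ?_) g
    rw [Function.update_of_ne]
    rintro rfl
    exact Finset.disjoint_left.1 hdis he (Pair_self hf ρ)
  · have g := A4T_of_pivot hf h1 h3 hb1' hb2'
    refine Pair_localS N f ρ _ _ (fun e he => ?_) g
    rw [Function.update_of_ne]
    rintro rfl
    exact Finset.disjoint_left.1 hdis (Pair_self hc ρ) he

/-- On the joint event a block which contains both edges is pivotal. -/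
private lemma Pair_joint_blk {N R : ℕ} {e f : Edge} (hef : e ≠ f) (he : e ∈ blk N R)
    (hf : f ∈ blk N R) : Joint (Wind N) e f ⊆ BlockPiv N R := by
  intro ω hω
  obtain ⟨⟨b, hb1, hb2⟩, -⟩ := Joint_piv (incr_wind N) hef hω
  constructor
  · refine incr_wind N _ _ (fun x hx => ?_) hb1
    by_cases hxb : x ∈ blk N R
    · exact Pair_fill_mem hxb
    · rw [Pair_fill_notMem hxb]
      have n1 : x ≠ e := by
        rintro rfl
        exact hxb he
      have n2 : x ≠ f := by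
        rintro rfl
        exact hxb hf
      rwa [Function.update_of_ne n1, Function.update_of_ne n2] at hx
  · intro h
    refine hb2 (incr_wind N _ _ (fun x hx => ?_) h)
    by_cases hxb : x ∈ blk N R
    · rw [Pair_fill_mem hxb] at hx
      exact absurd hx (by decide)
    · rw [Pair_fill_notMem hxb] at hx
      have n1 : x ≠ e := by
        rintro rfl
        exact hxb he
      have n2 : x ≠ f := by
        rintro rfl
        exact hxb hf
      rwa [Function.update_of_ne n1, Function.update_of_ne n2]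

private lemma Pair_prob (q : I) {N ρ : ℕ} {d : Bool} {f : Edge} (hf : f ∈ tEdges N)
    (h2 : 2 * ρ < dist0 N f) (h3 : 2 * ρ + 2 ≤ N) :
    Pr q (A4T N (ctr N d) ρ ∩ A4T N f ρ) = a4 q ρ ^ 2 := by
  rw [Pr_inter_of_disjoint (Pair_localS N _ ρ) (Pair_localS N _ ρ) (Pair_disj hf h2),
    Pr_A4T q (Pair_ctr (by omega) d) (by omega), Pr_A4T q hf (by omega), sq]

theorem Pr_joint_near (q : I) {N ρ R : ℕ} {d : Bool} {f : Edge} (hf : f ∈ tEdges N)
    (h1 : 1 ≤ ρ) (h2 : 2 * ρ < dist0 N f) (h3 : dist0 N f + ρ ≤ R) (h4 : 2 * R + 2 ≤ N) :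
    Pr q (Joint (Wind N) (ctr N d) f) ≤ a4 q ρ ^ 2 * Pr q (BlockPiv N R) := by
  have hρ : 2 * ρ + 2 ≤ N := by omega
  have s1 : PairS N f ρ ⊆ blk N R := Pair_sub h3 h4
  have s2 : PairS N (ctr N d) ρ ⊆ blk N R := Pair_sub (by rw [Pair_dist_ctr]; omega) h4
  have hc : ctr N d ∈ tEdges N := Pair_ctr (by omega) d
  have hsub : Joint (Wind N) (ctr N d) f ⊆
      (A4T N (ctr N d) ρ ∩ A4T N f ρ) ∩ BlockPiv N R :=
    Set.subset_inter (Pair_joint_sub hf h1 h2 hρ)
      (Pair_joint_blk (Pair_ne h2) (s2 (Pair_self hc ρ)) (s1 (Pair_self hf ρ)))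
  refine (Pr_mono hsub).trans ?_
  rw [Pr_inter_of_disjoint (LocalOn.inter' (Pair_localS N (ctr N d) ρ) (Pair_localS N f ρ))
    (localOn_BlockPiv (by omega) R) ?_, Pair_prob q hf h2 hρ]
  rw [Finset.disjoint_left]
  intro x hx hx'
  rw [Finset.mem_sdiff] at hx'
  rcases Finset.mem_union.1 hx with h | h
  · exact hx'.2 (s2 h)
  · exact hx'.2 (s1 h)

theorem Pr_joint_far (q : I) {N ρ : ℕ} {d : Bool} {f : Edge} (hf : f ∈ tEdges N)
    (h1 : 1 ≤ ρ) (h2 : 2 * ρ < dist0 N f) (h3 : 2 * ρ + 2 ≤ N) :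
    Pr q (Joint (Wind N) (ctr N d) f) ≤ a4 q ρ ^ 2 :=
  (Pr_mono (Pair_joint_sub hf h1 h2 h3)).trans (Pair_prob q hf h2 h3).le

/-- The influence of an edge is bounded by the four-arm probability. -/
theorem pivot_le_a4 (q : I) {N r : ℕ} {e : Edge} (he : e ∈ tEdges N) (hr : 1 ≤ r)
    (hN : 2 * r + 2 ≤ N) : pivot q (Wind N) e ≤ a4 q r := by
  rw [← Pr_A4T q he (show 2 * r < N by omega)]
  unfold pivot
  have h1 : {ω : Config | Function.update ω e true ∈ Wind N} ⊆
      A4T N e r ∪ {ω : Config | Function.update ω e false ∈ Wind N} := by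
    intro ω hω
    by_cases h : Function.update ω e false ∈ Wind N
    · exact Or.inr h
    · exact Or.inl (A4T_of_pivot he hr hN hω h)
  have h2 := (Pr_mono (p := q) h1).trans Pr_union_le
  linarith

end Pool.Agent.H61.NC

end

section

/-!
# Translation invariance on the torus: sums over pairs of edges
-/

open MeasureTheory ProbabilityTheory unitInterval

namespace Pool.Agent.H61.NC

open Pool.Agent.H89.Perc

theorem ctr_mem {N : ℕ} (hN : 1 ≤ N) (d : Bool) : ctr N d ∈ tEdges N := by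
  simp only [tEdges, ctr, mid, Finset.mem_product, Finset.mem_Ico, Finset.mem_univ, and_true]
  omega

private theorem tSym_sum (N : ℕ) (G : Bool → ℝ) :
    ∑ e ∈ tEdges N, G e.2.2 = (N : ℝ) ^ 2 * ∑ d : Bool, G d := by
  unfold tEdges
  rw [Finset.sum_product]
  simp only [Finset.sum_product]
  rw [Finset.sum_const, Finset.sum_const, Int.card_Ico]
  simp only [sub_zero, Int.toNat_natCast, nsmul_eq_mul]
  ring

theorem sum_pivot {N : ℕ} (hN : 1 ≤ N) (q : I) :
    ∑ e ∈ tEdges N, pivot q (Wind N) e = (N : ℝ) ^ 2 * (sT q N false + sT q N true) := by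
  have h1 : ∑ e ∈ tEdges N, pivot q (Wind N) e = ∑ e ∈ tEdges N, sT q N e.2.2 := by
    refine Finset.sum_congr rfl fun e he => ?_
    exact pivot_wind hN q he (ctr_mem hN e.2.2) rfl
  rw [h1, tSym_sum N (fun d => sT q N d)]
  simp only [Fintype.sum_bool]
  ring

theorem sT_nonneg (q : I) (N : ℕ) (d : Bool) : 0 ≤ sT q N d := by
  unfold sT pivot
  rw [sub_nonneg]
  refine Pr_mono ?_
  intro ω hω
  refine incr_wind N _ _ ?_ hω
  intro e he
  by_cases h : e = ctr N d
  · subst h; simp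
  · rw [Function.update_of_ne h] at he ⊢
    exact he

private theorem tSym_mem_upd {A : Set Config} {e f : Edge} {a b : Bool} {ω : Config} :
    ω ∈ upd (upd A e a) f b ↔ Function.update (Function.update ω f b) e a ∈ A := Iff.rfl

private theorem tSym_upd {N : ℕ} (hN : 1 ≤ N) (z : Vert) {e f : Edge} (he : e ∈ tEdges N)
    (hf : f ∈ tEdges N) (a b : Bool) (ω : Config) :
    (fun x => ω (torusSym_tau N z x)) ∈ upd (upd (Wind N) e a) f b ↔
      ω ∈ upd (upd (Wind N) (torusSym_tau N z e) a) (torusSym_tau N z f) b := by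
  rw [tSym_mem_upd, tSym_mem_upd, ← torusSym_wind N z
    (Function.update (Function.update ω (torusSym_tau N z f) b) (torusSym_tau N z e) a)]
  have key : ∀ x ∈ tEdges N,
      Function.update (Function.update ω (torusSym_tau N z f) b) (torusSym_tau N z e) a
        (torusSym_tau N z x) =
      Function.update (Function.update (fun x => ω (torusSym_tau N z x)) f b) e a x := by
    intro x hx
    by_cases hxe : x = e
    · subst hxe
      rw [Function.update_self, Function.update_self]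
    · have h2 : torusSym_tau N z x ≠ torusSym_tau N z e := fun h =>
        hxe (torusSym_tau_injOn N z hx he h)
      rw [Function.update_of_ne h2, Function.update_of_ne hxe]
      by_cases hxf : x = f
      · subst hxf
        rw [Function.update_self, Function.update_self]
      · have h3 : torusSym_tau N z x ≠ torusSym_tau N z f := fun h =>
          hxf (torusSym_tau_injOn N z hx hf h)
        rw [Function.update_of_ne h3, Function.update_of_ne hxf]
  exact ⟨fun h1 => localOn_wind hN _ _ (fun x hx => (key x hx).symm) h1,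
    fun h1 => localOn_wind hN _ _ key h1⟩

private theorem tSym_localOn {N : ℕ} (hN : 1 ≤ N) (e f : Edge) :
    LocalOn (tEdges N) (Joint (Wind N) e f) := by
  have hl : ∀ (A : Set Config), LocalOn (tEdges N) A → ∀ (e : Edge) (b : Bool),
      LocalOn (tEdges N) (upd A e b) := by
    intro A hA e b ω ω' h hω
    refine hA _ _ (fun x hx => ?_) hω
    by_cases hxe : x = e
    · subst hxe; simp
    · rw [Function.update_of_ne hxe, Function.update_of_ne hxe]
      exact h x hx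
  have hl2 : ∀ (a b : Bool), LocalOn (tEdges N) (upd (upd (Wind N) e a) f b) := fun a b =>
    hl _ (hl _ (localOn_wind hN) e a) f b
  unfold Joint
  rw [Set.sdiff_eq, Set.sdiff_eq]
  exact ((hl2 _ _).inter ((hl2 _ _).union (hl2 _ _)).compl).union
    (((hl2 _ _).inter (hl2 _ _)).inter (hl2 _ _).compl)

private theorem tSym_joint {N : ℕ} (hN : 1 ≤ N) (q : I) (z : Vert) {e f : Edge}
    (he : e ∈ tEdges N) (hf : f ∈ tEdges N) :
    Pr q (Joint (Wind N) (torusSym_tau N z e) (torusSym_tau N z f)) =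
      Pr q (Joint (Wind N) e f) := by
  rw [← Pr_comp (tSym_localOn hN e f) (torusSym_tau_injOn N z)]
  congr 1
  ext ω
  have h := fun a b => tSym_upd hN z he hf a b ω
  unfold Joint
  rw [Set.mem_ofPred_eq]
  simp only [Set.mem_union, Set.mem_sdiff, Set.mem_inter_iff, h]

private theorem tSym_tau_mem {N : ℕ} (hN : 1 ≤ N) (z : Vert) {e : Edge} :
    torusSym_tau N z e ∈ tEdges N := by
  have hN' : (0 : ℤ) < N := by exact_mod_cast hN
  simp only [tEdges, torusSym_tau, Finset.mem_product, Finset.mem_Ico, Finset.mem_univ, and_true]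
  exact ⟨⟨Int.emod_nonneg _ hN'.ne', Int.emod_lt_of_pos _ hN'⟩,
      ⟨Int.emod_nonneg _ hN'.ne', Int.emod_lt_of_pos _ hN'⟩⟩

private theorem tSym_tau_ctr {N : ℕ} {e : Edge} (he : e ∈ tEdges N) :
    torusSym_tau N (e.1 - mid N, e.2.1 - mid N) (ctr N e.2.2) = e := by
  simp only [tEdges, Finset.mem_product, Finset.mem_Ico, Finset.mem_univ, and_true] at he
  obtain ⟨x, y, d⟩ := e
  simp only at he
  simp only [torusSym_tau, ctr, Prod.mk.injEq, and_true]
  constructor
  · rw [show mid N + (x - mid N) = x by ring, Int.emod_eq_of_lt he.1.1 he.1.2]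
  · rw [show mid N + (y - mid N) = y by ring, Int.emod_eq_of_lt he.2.1 he.2.2]

private theorem tSym_image {N : ℕ} (hN : 1 ≤ N) (z : Vert) :
    (tEdges N).image (torusSym_tau N z) = tEdges N := by
  refine Finset.eq_of_subset_of_card_le ?_ ?_
  · intro x hx
    obtain ⟨y, -, rfl⟩ := Finset.mem_image.1 hx
    exact tSym_tau_mem hN z
  · rw [Finset.card_image_of_injOn (torusSym_tau_injOn N z)]

/-- By translation invariance the sum over pairs is a sum over pairs with first edge in the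
middle. -/
theorem sum_joint {N : ℕ} (hN : 1 ≤ N) (q : I) :
    ∑ e ∈ tEdges N, ∑ f ∈ (tEdges N).erase e, Pr q (Joint (Wind N) e f) =
      (N : ℝ) ^ 2 * ∑ d : Bool, ∑ f ∈ (tEdges N).erase (ctr N d),
        Pr q (Joint (Wind N) (ctr N d) f) := by
  rw [← tSym_sum N (fun d => ∑ f ∈ (tEdges N).erase (ctr N d),
        Pr q (Joint (Wind N) (ctr N d) f))]
  refine Finset.sum_congr rfl fun e he => ?_
  set z : Vert := (e.1 - mid N, e.2.1 - mid N) with hz
  have hτ : torusSym_tau N z (ctr N e.2.2) = e := tSym_tau_ctr he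
  symm
  refine Finset.sum_bij (fun f _ => torusSym_tau N z f) ?_ ?_ ?_ ?_
  · intro f hf
    rw [Finset.mem_erase] at hf ⊢
    refine ⟨fun h => hf.1 ?_, tSym_tau_mem hN z⟩
    refine torusSym_tau_injOn N z hf.2 (ctr_mem hN _) ?_
    rw [h, hτ]
  · intro f hf f' hf' h
    exact torusSym_tau_injOn N z (Finset.mem_of_mem_erase hf) (Finset.mem_of_mem_erase hf') h
  · intro f hf
    rw [Finset.mem_erase] at hf
    have h1 : f ∈ (tEdges N).image (torusSym_tau N z) := by rw [tSym_image hN z]; exact hf.2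
    obtain ⟨g, hg, hgf⟩ := Finset.mem_image.1 h1
    refine ⟨g, Finset.mem_erase.2 ⟨fun h => hf.1 ?_, hg⟩, hgf⟩
    rw [← hgf, h, hτ]
  · intro f hf
    have h1 := tSym_joint hN q z (ctr_mem hN e.2.2) (Finset.mem_of_mem_erase hf)
    rw [hτ] at h1
    exact h1.symm

end Pool.Agent.H61.NC

end

section

/-!
# Nets of spheres and grids of balls
-/

open MeasureTheory ProbabilityTheory unitInterval

namespace Pool.Agent.H57.EX

open Pool.Agent.H89.Perc Pool.Agent.H61.NC Pool.Agent.H29.Sep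

/-- The one-dimensional grid. -/
private noncomputable def nets_line (t s : ℕ) : Finset ℤ :=
  (Finset.range (2 * t / s + 1)).image fun i : ℕ => -(t : ℤ) + s * i

private theorem nets_line_card (t s : ℕ) : (nets_line t s).card ≤ 2 * t / s + 1 := by
  unfold nets_line
  refine Finset.card_image_le.trans ?_
  rw [Finset.card_range]

private theorem nets_line_bound {t s : ℕ} {g : ℤ} (hg : g ∈ nets_line t s) :
    -(t : ℤ) ≤ g ∧ g ≤ t := by
  unfold nets_line at hg
  obtain ⟨i, hi, rfl⟩ := Finset.mem_image.1 hg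
  rw [Finset.mem_range, Nat.lt_succ_iff] at hi
  have h1 : s * i ≤ 2 * t := (Nat.mul_le_mul_left s hi).trans (Nat.mul_div_le _ _)
  have h2 : (s : ℤ) * i ≤ 2 * t := by exact_mod_cast h1
  have h3 : (0 : ℤ) ≤ (s : ℤ) * i := by positivity
  omega

private theorem nets_line_cov {t s : ℕ} (hs : 1 ≤ s) {x : ℤ} (h1 : -(t : ℤ) ≤ x) (h2 : x ≤ t) :
    ∃ g ∈ nets_line t s, g - s ≤ x ∧ x ≤ g + s := by
  obtain ⟨n, hn⟩ := Int.eq_ofNat_of_zero_le (show 0 ≤ x + t by omega)
  have hn2 : n ≤ 2 * t := by omega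
  refine ⟨-(t : ℤ) + s * ((n / s : ℕ) : ℤ), ?_, ?_⟩
  · unfold nets_line
    refine Finset.mem_image.2 ⟨n / s, ?_, rfl⟩
    rw [Finset.mem_range, Nat.lt_succ_iff]
    exact Nat.div_le_div_right hn2
  · have h3 : s * (n / s) ≤ n := Nat.mul_div_le _ _
    have h4 : n < s * (n / s) + s := by
      have := Nat.lt_mul_div_succ n (show 0 < s by omega)
      rw [Nat.mul_add, Nat.mul_one] at this
      exact this
    have h5 : (s : ℤ) * ((n / s : ℕ) : ℤ) ≤ n := by exact_mod_cast h3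
    have h6 : (n : ℤ) < (s : ℤ) * ((n / s : ℕ) : ℤ) + s := by exact_mod_cast h4
    omega

/-- Nets of spheres with boundedly many points. -/
theorem exists_net (t s : ℕ) (hs : 1 ≤ s) :
    ∃ N : Finset Vert, IsNet N t s ∧ N.card ≤ 8 * (2 * t / s + 2) := by
  classical
  refine ⟨(((nets_line t s).image fun g => ((-(t : ℤ), g) : Vert)) ∪
    ((nets_line t s).image fun g => (((t : ℤ), g) : Vert))) ∪
    (((nets_line t s).image fun g => ((g, -(t : ℤ)) : Vert)) ∪
    ((nets_line t s).image fun g => ((g, (t : ℤ)) : Vert))), ⟨?_, ?_⟩, ?_⟩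
  · intro v hv
    simp only [Finset.mem_union, Finset.mem_image] at hv
    rcases hv with (⟨g, hg, rfl⟩ | ⟨g, hg, rfl⟩) | (⟨g, hg, rfl⟩ | ⟨g, hg, rfl⟩) <;>
    · have h := nets_line_bound hg
      simp only [sphere, ball, rect, Set.mem_ofPred_eq, Prod.fst_zero, Prod.snd_zero]
      omega
  · rintro u ⟨hu, hb⟩
    simp only [mem_ball, Prod.fst_zero, Prod.snd_zero] at hu hb
    rcases hb with hb | hb | hb | hb
    · obtain ⟨g, hg, hg2⟩ := nets_line_cov hs (x := u.2) (t := t) (by omega) (by omega)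
      refine ⟨(-(t : ℤ), g), ?_, ?_⟩
      · simp only [Finset.mem_union, Finset.mem_image]
        exact Or.inl (Or.inl ⟨g, hg, rfl⟩)
      · simp only [mem_ball]
        omega
    · obtain ⟨g, hg, hg2⟩ := nets_line_cov hs (x := u.2) (t := t) (by omega) (by omega)
      refine ⟨((t : ℤ), g), ?_, ?_⟩
      · simp only [Finset.mem_union, Finset.mem_image]
        exact Or.inl (Or.inr ⟨g, hg, rfl⟩)
      · simp only [mem_ball]
        omega
    · obtain ⟨g, hg, hg2⟩ := nets_line_cov hs (x := u.1) (t := t) (by omega) (by omega)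
      refine ⟨(g, -(t : ℤ)), ?_, ?_⟩
      · simp only [Finset.mem_union, Finset.mem_image]
        exact Or.inr (Or.inl ⟨g, hg, rfl⟩)
      · simp only [mem_ball]
        omega
    · obtain ⟨g, hg, hg2⟩ := nets_line_cov hs (x := u.1) (t := t) (by omega) (by omega)
      refine ⟨(g, (t : ℤ)), ?_, ?_⟩
      · simp only [Finset.mem_union, Finset.mem_image]
        exact Or.inr (Or.inr ⟨g, hg, rfl⟩)
      · simp only [mem_ball]
        omega
  · have h := nets_line_card t s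
    have h1 := (Finset.card_image_le (s := nets_line t s) (f := fun g => ((-(t : ℤ), g) : Vert)))
    have h2 := (Finset.card_image_le (s := nets_line t s) (f := fun g => (((t : ℤ), g) : Vert)))
    have h3 := (Finset.card_image_le (s := nets_line t s) (f := fun g => ((g, -(t : ℤ)) : Vert)))
    have h4 := (Finset.card_image_le (s := nets_line t s) (f := fun g => ((g, (t : ℤ)) : Vert)))
    refine (Finset.card_union_le _ _).trans ?_
    refine (Nat.add_le_add (Finset.card_union_le _ _) (Finset.card_union_le _ _)).trans ?_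
    omega

/-- Grids of balls with boundedly many points. -/
theorem exists_grid (t s : ℕ) (hs : 1 ≤ s) :
    ∃ V : Finset Vert, (∀ u ∈ ball 0 t, ∃ v ∈ V, u ∈ ball v s) ∧
      V.card ≤ (2 * t / s + 2) ^ 2 := by
  classical
  refine ⟨nets_line t s ×ˢ nets_line t s, ?_, ?_⟩
  · intro u hu
    simp only [mem_ball, Prod.fst_zero, Prod.snd_zero] at hu
    obtain ⟨g, hg, hg2⟩ := nets_line_cov hs (x := u.1) (t := t) (by omega) (by omega)
    obtain ⟨g', hg', hg2'⟩ := nets_line_cov hs (x := u.2) (t := t) (by omega) (by omega)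
    refine ⟨(g, g'), Finset.mem_product.2 ⟨hg, hg'⟩, ?_⟩
    simp only [mem_ball]
    omega
  · rw [Finset.card_product, sq]
    have h := nets_line_card t s
    exact Nat.mul_le_mul (h.trans (by omega)) (h.trans (by omega))

end Pool.Agent.H57.EX

end

section

/-!
# Symmetries of the separated events, sum over sides
-/

open MeasureTheory ProbabilityTheory unitInterval

namespace Pool.Agent.H59.EX

open Pool.Agent.H89.Perc Pool.Agent.H61.NC

deriving instance Fintype for Side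

/-- Generators of the symmetry group of the square. -/
inductive Gen
  | sw | rx | ry
  deriving DecidableEq, Fintype

/-- Action on the vertices. -/
def Gen.v : Gen → Vert → Vert
  | .sw, a => (a.2, a.1)
  | .rx, a => (-a.1, a.2)
  | .ry, a => (a.1, -a.2)

/-- Action on the edges. -/
def Gen.e : Gen → Edge → Edge
  | .sw => swapE
  | .rx => reflX 0
  | .ry => reflY 0

/-- Action on the sides. -/
def Gen.s : Gen → Side → Side
  | .sw, .E => .N
  | .sw, .N => .E
  | .sw, .W => .S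
  | .sw, .S => .W
  | .rx, .E => .W
  | .rx, .W => .E
  | .rx, .N => .N
  | .rx, .S => .S
  | .ry, .E => .E
  | .ry, .W => .W
  | .ry, .N => .S
  | .ry, .S => .N

theorem Gen.v_v (g : Gen) (a : Vert) : g.v (g.v a) = a := by
  cases g <;> simp [Gen.v]

theorem Gen.e_e (g : Gen) (e : Edge) : g.e (g.e e) = e := by
  cases g
  · exact swapE_swapE e
  · exact reflX_reflX 0 e
  · exact reflY_reflY 0 e

theorem Gen.s_s (g : Gen) (d : Side) : g.s (g.s d) = d := by
  cases g <;> cases d <;> rfl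

theorem Gen.mem_ball (g : Gen) (r : ℕ) (a : Vert) : g.v a ∈ ball 0 r ↔ a ∈ ball 0 r := by
  cases g <;>
    simp only [Gen.v, Pool.Agent.H89.Perc.mem_ball, Prod.fst_zero, Prod.snd_zero] <;> omega

private theorem sym_joins (g : Gen) (e : Edge) (a b : Vert) (h : Joins e a b) :
    Joins (g.e e) (g.v a) (g.v b) := by
  cases g
  · exact joins_swap e a b h
  · have := joins_reflX 0 e a b h
    rw [zero_sub, zero_sub] at this
    exact this
  · have := joins_reflY 0 e a b h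
    rw [zero_sub, zero_sub] at this
    exact this

private theorem sym_ends (g : Gen) (e : Edge) :
    (src (g.e e) = g.v (src e) ∧ tgt (g.e e) = g.v (tgt e)) ∨
      (src (g.e e) = g.v (tgt e) ∧ tgt (g.e e) = g.v (src e)) := by
  rcases sym_joins g e _ _ (joins_src_tgt e) with ⟨h1, h2⟩ | ⟨h1, h2⟩
  · exact Or.inl ⟨h1.symm, h2.symm⟩
  · exact Or.inr ⟨h2.symm, h1.symm⟩

private theorem sym_inj (g : Gen) : Function.Injective g.e :=
  Function.LeftInverse.injective g.e_e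

theorem Gen.src_tgt (g : Gen) (e : Edge) (r : ℕ) :
    src e ∈ ball 0 r ∧ tgt e ∈ ball 0 r → src (g.e e) ∈ ball 0 r ∧ tgt (g.e e) ∈ ball 0 r := by
  rintro ⟨h1, h2⟩
  rcases sym_ends g e with ⟨h3, h4⟩ | ⟨h3, h4⟩
  · rw [h3, h4, g.mem_ball, g.mem_ball]
    exact ⟨h1, h2⟩
  · rw [h3, h4, g.mem_ball, g.mem_ball]
    exact ⟨h2, h1⟩

/-- The image of a source. -/
noncomputable def Src.map (g : Gen) (s : Src) : Src where
  x := g.v s.x
  y := g.v s.y
  E0 := s.E0.image g.e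
  hx := (g.mem_ball 2 s.x).2 s.hx
  hy := (g.mem_ball 2 s.y).2 s.hy
  hE := by
    intro e he
    obtain ⟨f, hf, rfl⟩ := Finset.mem_image.1 he
    exact g.src_tgt f 2 (s.hE f hf)

/-- Exchange the two points. -/
def Src.flip (s : Src) : Src := ⟨s.y, s.x, s.E0, s.hy, s.hx, s.hE⟩

/-- `x` reaches the side `d` of `ball 0 (8 w)`. -/
def Land (d : Side) (s : Src) (w : ℕ) : Set Config :=
  {ω | ∃ u, OnSide d (8 * w) u ∧ Conn (s.cut ω) (ball 0 (8 * w)) s.x u}

variable {q : I} {s : Src} {d d' : Side} {k r w : ℕ}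

/-! ### The action on the constructions -/

private theorem sym_cut (g : Gen) (s : Src) (ω : Config) :
    (s.map g).cut (fun e => ω (g.e e)) = fun e => s.cut ω (g.e e) := by
  funext e
  have h : e ∈ ((s.map g).E0 : Set Edge) ↔ g.e e ∈ (s.E0 : Set Edge) := by
    constructor
    · intro he
      obtain ⟨f, hf, rfl⟩ := Finset.mem_image.1 (Finset.mem_coe.1 he)
      rw [g.e_e]
      exact Finset.mem_coe.2 hf
    · intro he
      exact Finset.mem_coe.2 (Finset.mem_image.2 ⟨g.e e, Finset.mem_coe.1 he, g.e_e e⟩)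
  rw [Bool.eq_iff_iff]
  unfold Src.cut
  rw [closeS_true, closeS_true, h]

private theorem sym_fill (g : Gen) (S : Set Vert) (η : Config) :
    fillV S (fun e => η (g.e e)) = fun e => fillV {w | g.v w ∈ S} η (g.e e) := by
  funext e
  have h : e ∈ inE S ↔ g.e e ∈ inE {w | g.v w ∈ S} := by
    simp only [inE, Set.mem_ofPred_eq]
    rcases sym_ends g e with ⟨h3, h4⟩ | ⟨h3, h4⟩
    · rw [h3, h4, g.v_v, g.v_v]
    · rw [h3, h4, g.v_v, g.v_v]
      exact and_comm
  rw [Bool.eq_iff_iff, fillV_true, fillV_true, h]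

private theorem sym_conn (g : Gen) (η : Config) (S : Set Vert) (u v : Vert) :
    Conn (fun e => η (g.e e)) S u v ↔ Conn η {w | g.v w ∈ S} (g.v u) (g.v v) :=
  conn_invol g.e_e g.v_v (sym_joins g) S u v

private theorem sym_conn' (g : Gen) (η : Config) (S : Set Vert) (u v : Vert) :
    Conn (fun e => η (g.e e)) S (g.v u) (g.v v) ↔ Conn η {w | g.v w ∈ S} u v := by
  rw [sym_conn, g.v_v, g.v_v]

private theorem sym_T (g : Gen) (d : Side) (k : ℕ) (w : Vert) :
    g.v w ∈ T (g.s d) k ↔ w ∈ T d k := by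
  cases g <;> cases d <;> simp only [Gen.v, Gen.s, T, rect, Set.mem_ofPred_eq] <;> omega

private theorem sym_Mouth (g : Gen) (d : Side) (k : ℕ) (w : Vert) :
    g.v w ∈ Mouth (g.s d) k ↔ w ∈ Mouth d k := by
  cases g <;> cases d <;> simp only [Gen.v, Gen.s, Mouth, rect, Set.mem_ofPred_eq] <;> omega

private theorem sym_sphere (g : Gen) (r : ℕ) (a : Vert) : g.v a ∈ sphere 0 r ↔ a ∈ sphere 0 r := by
  have h := g.mem_ball r a
  unfold sphere
  simp only [Set.mem_ofPred_eq]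
  rw [h]
  cases g <;> simp only [Gen.v, Prod.fst_zero, Prod.snd_zero] <;>
    refine and_congr_right fun _ => ?_ <;> omega

private theorem sym_side (g : Gen) (d : Side) (r : ℕ) (a : Vert) :
    OnSide (g.s d) r (g.v a) ↔ OnSide d r a := by
  unfold OnSide
  rw [sym_sphere]
  refine and_congr_right fun _ => ?_
  cases g <;> cases d <;> simp only [Gen.v, Gen.s] <;> omega

private theorem sym_T' (g : Gen) (d : Side) (k : ℕ) : {w | g.v w ∈ T (g.s d) k} = T d k := by
  ext w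
  exact sym_T g d k w

private theorem sym_ball' (g : Gen) (r : ℕ) : {w | g.v w ∈ ball 0 r} = ball 0 r := by
  ext w
  exact g.mem_ball r w

private theorem sym_TT (g : Gen) (d d' : Side) (k : ℕ) :
    {w | g.v w ∈ T (g.s d) k ∪ T (g.s d') k} = T d k ∪ T d' k := by
  ext w
  simp only [Set.mem_ofPred_eq, Set.mem_union, sym_T]

private theorem sym_dom (g : Gen) (d d' : Side) (k : ℕ) :
    {w | g.v w ∈ dom (g.s d) (g.s d') k} = dom d d' k := by
  ext w
  simp only [dom, Set.mem_ofPred_eq, Set.mem_union, sym_T, g.mem_ball]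

/-- The two ends of a crossing of the target. -/
private def sym_E (d : Side) (k : ℕ) (u v : Vert) : Prop :=
  match d with
  | .E => u.2 = -(3 * k) ∧ v.2 = 3 * k
  | .N => u.1 = -(3 * k) ∧ v.1 = 3 * k
  | .W => u.2 = -(3 * k) ∧ v.2 = 3 * k
  | .S => u.1 = -(3 * k) ∧ v.1 = 3 * k

private theorem sym_fence_iff {d : Side} {k : ℕ} {ω : Config} {D : Set Vert} {x : Vert} :
    Fence d k ω D x ↔ ∃ u v, sym_E d k u v ∧ Conn ω (T d k) u v ∧ Conn ω D x u := by
  cases d
  all_goals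
    constructor
    · rintro ⟨u, v, h1, h2, h3, h4⟩
      exact ⟨u, v, ⟨h1, h2⟩, h3, h4⟩
    · rintro ⟨u, v, ⟨h1, h2⟩, h3, h4⟩
      exact ⟨u, v, h1, h2, h3, h4⟩

private theorem sym_E_g (g : Gen) {d : Side} {k : ℕ} {u v : Vert} (h : sym_E d k u v) :
    sym_E (g.s d) k (g.v u) (g.v v) ∨ sym_E (g.s d) k (g.v v) (g.v u) := by
  cases g <;> cases d <;> simp only [sym_E, Gen.s, Gen.v] at h ⊢ <;> omega

private theorem sym_fence (g : Gen) {d : Side} {k : ℕ} {η : Config} {D : Set Vert} {x : Vert}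
    (hT : T (g.s d) k ⊆ D) (h : Fence d k η {w | g.v w ∈ D} x) :
    Fence (g.s d) k (fun e => η (g.e e)) D (g.v x) := by
  obtain ⟨u, v, h1, h2, h3⟩ := sym_fence_iff.1 h
  have h2' : Conn (fun e => η (g.e e)) (T (g.s d) k) (g.v u) (g.v v) := by
    rw [sym_conn', sym_T']
    exact h2
  have h3' : Conn (fun e => η (g.e e)) D (g.v x) (g.v u) := (sym_conn' g η D x u).2 h3
  rcases sym_E_g g h1 with h4 | h4
  · exact sym_fence_iff.2 ⟨_, _, h4, h2', h3'⟩
  · exact sym_fence_iff.2 ⟨_, _, h4, h2'.symm, h3'.trans (h2'.mono_set hT)⟩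

private theorem sym_map_map (g : Gen) (s : Src) : (s.map g).map g = s := by
  obtain ⟨x, y, E0, hx, hy, hE⟩ := s
  simp only [Src.map, Src.mk.injEq]
  refine ⟨g.v_v x, g.v_v y, ?_⟩
  ext e
  simp only [Finset.mem_image]
  constructor
  · rintro ⟨f, ⟨f', hf', rfl⟩, rfl⟩
    rw [g.e_e]
    exact hf'
  · intro he
    exact ⟨g.e e, ⟨e, he, rfl⟩, g.e_e e⟩

private theorem sym_T_dom (d d' : Side) (k : ℕ) : T d k ⊆ dom d d' k := fun _ h =>
  Or.inr (Or.inl h)

private theorem sym_T_dom' (d d' : Side) (k : ℕ) : T d' k ⊆ dom d d' k := fun _ h =>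
  Or.inr (Or.inr h)

private theorem sym_sep (g : Gen) {s : Src} {d d' : Side} {k : ℕ} {ω : Config}
    (h : ω ∈ Sep s d d' k) :
    (fun e => ω (g.e e)) ∈ Sep (s.map g) (g.s d) (g.s d') k := by
  obtain ⟨h1, h2, h3, h4, h5⟩ := h
  have hx : (s.map g).x = g.v s.x := rfl
  have hy : (s.map g).y = g.v s.y := rfl
  refine ⟨?_, ?_, ?_, ?_, ?_⟩
  · rw [sym_cut, hx]
    refine sym_fence g (sym_T_dom _ _ k) ?_
    rw [sym_dom]
    exact h1
  · rw [sym_cut, hy]
    refine sym_fence g (sym_T_dom' _ _ k) ?_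
    rw [sym_dom]
    exact h2
  · rw [sym_cut, sym_fill, sym_TT, hx, hy, sym_conn', sym_dom]
    exact h3
  · intro v hv hc
    rw [sym_cut, sym_fill, sym_TT, hx, sym_conn, sym_dom, g.v_v] at hc
    have h6 := h4 (g.v v) ((sym_sphere g _ v).2 hv) hc
    rw [← sym_Mouth g, g.v_v] at h6
    exact h6
  · intro v hv hc
    rw [sym_cut, sym_fill, sym_TT, hy, sym_conn, sym_dom, g.v_v] at hc
    have h6 := h5 (g.v v) ((sym_sphere g _ v).2 hv) hc
    rw [← sym_Mouth g, g.v_v] at h6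
    exact h6

private theorem sym_four (g : Gen) {s : Src} {r : ℕ} {ω : Config} (h : ω ∈ Four s r) :
    (fun e => ω (g.e e)) ∈ Four (s.map g) r := by
  obtain ⟨⟨u, hu, h1⟩, ⟨u', hu', h2⟩, h3⟩ := h
  have hx : (s.map g).x = g.v s.x := rfl
  have hy : (s.map g).y = g.v s.y := rfl
  refine ⟨⟨g.v u, (sym_sphere g r u).2 hu, ?_⟩, ⟨g.v u', (sym_sphere g r u').2 hu', ?_⟩, ?_⟩
  · rw [sym_cut, hx, sym_conn', sym_ball']
    exact h1
  · rw [sym_cut, hy, sym_conn', sym_ball']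
    exact h2
  · rw [sym_cut, hx, hy, sym_conn', sym_ball']
    exact h3

private theorem sym_land (g : Gen) {s : Src} {d : Side} {w : ℕ} {ω : Config}
    (h : ω ∈ Land d s w) : (fun e => ω (g.e e)) ∈ Land (g.s d) (s.map g) w := by
  obtain ⟨u, hu, h1⟩ := h
  have hx : (s.map g).x = g.v s.x := rfl
  refine ⟨g.v u, (sym_side g d _ u).2 hu, ?_⟩
  rw [sym_cut, hx, sym_conn', sym_ball']
  exact h1

private theorem sym_cut_congr {s : Src} {ω ω' : Config} {e : Edge} (h : ω e = ω' e) :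
    s.cut ω e = s.cut ω' e := by
  unfold Src.cut closeS
  rw [h]

private theorem sym_fill_congr {s : Src} {Z : Set Vert} {ω ω' : Config} {e : Edge}
    (h : ω e = ω' e) : fillV Z (s.cut ω) e = fillV Z (s.cut ω') e := by
  unfold fillV
  rw [sym_cut_congr h]

theorem localOn_sep (s : Src) (d d' : Side) (k : ℕ) : ∃ Λ : Finset Edge, LocalOn Λ (Sep s d d' k) := by
  refine ⟨eRect (-(36 * k : ℕ)) (36 * k : ℕ) (-(36 * k : ℕ)) (36 * k : ℕ), ?_⟩
  have hT : ∀ d : Side, ∀ a ∈ T d k,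
      a ∈ rect (-(36 * k : ℕ)) (36 * k : ℕ) (-(36 * k : ℕ)) (36 * k : ℕ) := by
    intro d a ha
    cases d <;> simp only [T, rect, Set.mem_ofPred_eq] at ha ⊢ <;> omega
  have hdom : ∀ a ∈ dom d d' k,
      a ∈ rect (-(36 * k : ℕ)) (36 * k : ℕ) (-(36 * k : ℕ)) (36 * k : ℕ) := by
    rintro a (ha | ha | ha)
    · simp only [mem_ball, Prod.fst_zero, Prod.snd_zero] at ha
      simp only [rect, Set.mem_ofPred_eq]
      omega
    · exact hT d a ha
    · exact hT d' a ha
  have key : ∀ ω ω' : Config,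
      (∀ e ∈ eRect (-(36 * k : ℕ)) (36 * k : ℕ) (-(36 * k : ℕ)) (36 * k : ℕ), ω e = ω' e) →
      ∀ u v, Conn (fillV (T d k ∪ T d' k) (s.cut ω)) (dom d d' k) u v →
        Conn (fillV (T d k ∪ T d' k) (s.cut ω')) (dom d d' k) u v := fun ω ω' h u v hc =>
    hc.congr fun e h1 _ => sym_fill_congr (h e (mem_eRect.2 (hdom _ h1)))
  rintro ω ω' h ⟨h1, h2, h3, h4, h5⟩
  refine ⟨?_, ?_, fun hc => h3 (key ω' ω (fun e he => (h e he).symm) _ _ hc),
    fun v hv hc => h4 v hv (key ω' ω (fun e he => (h e he).symm) _ _ hc),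
    fun v hv hc => h5 v hv (key ω' ω (fun e he => (h e he).symm) _ _ hc)⟩
  · exact fence_congr (fun e he => sym_cut_congr (h e (mem_eRect.2 (hT _ _ he.1))))
      (fun e he => sym_cut_congr (h e (mem_eRect.2 (hdom _ he.1)))) h1
  · exact fence_congr (fun e he => sym_cut_congr (h e (mem_eRect.2 (hT _ _ he.1))))
      (fun e he => sym_cut_congr (h e (mem_eRect.2 (hdom _ he.1)))) h2

private theorem sym_mem_eRect {r : ℕ} {e : Edge} (h : src e ∈ ball 0 r) :
    e ∈ eRect (-(r : ℤ)) r (-(r : ℤ)) r := by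
  rw [mem_eRect]
  simp only [mem_ball, Prod.fst_zero, Prod.snd_zero] at h
  simp only [rect, Set.mem_ofPred_eq]
  omega

private theorem sym_localOn_four (s : Src) (r : ℕ) :
    LocalOn (eRect (-(r : ℤ)) r (-(r : ℤ)) r) (Four s r) := by
  have key : ∀ ω ω' : Config, (∀ e ∈ eRect (-(r : ℤ)) r (-(r : ℤ)) r, ω e = ω' e) →
      ∀ u v, Conn (s.cut ω) (ball 0 r) u v → Conn (s.cut ω') (ball 0 r) u v := fun ω ω' h u v hc =>
    hc.congr fun e h1 _ => sym_cut_congr (h e (sym_mem_eRect h1))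
  rintro ω ω' h ⟨⟨u, hu, h1⟩, ⟨u', hu', h2⟩, h3⟩
  exact ⟨⟨u, hu, key _ _ h _ _ h1⟩, ⟨u', hu', key _ _ h _ _ h2⟩,
    fun h4 => h3 (key _ _ (fun e he => (h e he).symm) _ _ h4)⟩

private theorem sym_localOn_land (d : Side) (s : Src) (w : ℕ) :
    LocalOn (eRect (-((8 * w : ℕ) : ℤ)) (8 * w : ℕ) (-((8 * w : ℕ) : ℤ)) (8 * w : ℕ)) (Land d s w) := by
  rintro ω ω' h ⟨u, hu, h1⟩
  exact ⟨u, hu, h1.congr fun e h2 _ => sym_cut_congr (h e (sym_mem_eRect h2))⟩

theorem localOn_four (s : Src) (r : ℕ) : ∃ Λ : Finset Edge, LocalOn Λ (Four s r) := by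
  exact ⟨_, sym_localOn_four s r⟩

theorem sep_map (g : Gen) : Pr q (Sep (s.map g) (g.s d) (g.s d') k) = Pr q (Sep s d d' k) := by
  have key : ∀ (s : Src) (d d' : Side),
      Pr q (Sep s d d' k) ≤ Pr q (Sep (s.map g) (g.s d) (g.s d') k) := by
    intro s d d'
    obtain ⟨Λ, hΛ⟩ := localOn_sep (s.map g) (g.s d) (g.s d') k
    rw [← Pr_comp hΛ (sym_inj g).injOn]
    exact Pr_mono fun ω hω => sym_sep g hω
  refine le_antisymm ?_ (key s d d')
  have h := key (s.map g) (g.s d) (g.s d')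
  rw [sym_map_map, g.s_s, g.s_s] at h
  exact h

theorem four_map (g : Gen) : Pr q (Four (s.map g) r) = Pr q (Four s r) := by
  have key : ∀ s : Src, Pr q (Four s r) ≤ Pr q (Four (s.map g) r) := by
    intro s
    obtain ⟨Λ, hΛ⟩ := localOn_four (s.map g) r
    rw [← Pr_comp hΛ (sym_inj g).injOn]
    exact Pr_mono fun ω hω => sym_four g hω
  refine le_antisymm ?_ (key s)
  have h := key (s.map g)
  rw [sym_map_map] at h
  exact h

theorem four_land_map (g : Gen) :
    Pr q (Four (s.map g) (8 * w) ∩ Land (g.s d) (s.map g) w) = Pr q (Four s (8 * w) ∩ Land d s w) := by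
  have key : ∀ (s : Src) (d : Side), Pr q (Four s (8 * w) ∩ Land d s w) ≤
      Pr q (Four (s.map g) (8 * w) ∩ Land (g.s d) (s.map g) w) := by
    intro s d
    rw [← Pr_comp ((sym_localOn_four (s.map g) (8 * w)).inter
      (sym_localOn_land (g.s d) (s.map g) w)) (sym_inj g).injOn]
    exact Pr_mono fun ω hω => ⟨sym_four g hω.1, sym_land g hω.2⟩
  refine le_antisymm ?_ (key s d)
  have h := key (s.map g) (g.s d)
  rw [sym_map_map, g.s_s] at h
  exact h

theorem sep_flip : Sep s.flip d' d k = Sep s d d' k := by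
  have hdom : dom d' d k = dom d d' k := by
    unfold dom
    rw [Set.union_comm (T d' k)]
  have hT : T d' k ∪ T d k = T d k ∪ T d' k := Set.union_comm _ _
  have hcut : ∀ ω, s.flip.cut ω = s.cut ω := fun _ => rfl
  ext ω
  unfold Sep
  simp only [Set.mem_ofPred_eq, hcut, hdom, hT]
  have h : Conn (fillV (T d k ∪ T d' k) (s.cut ω)) (dom d d' k) s.flip.x s.flip.y ↔
      Conn (fillV (T d k ∪ T d' k) (s.cut ω)) (dom d d' k) s.x s.y := conn_comm
  rw [h]
  change Fence d' k (s.cut ω) (dom d d' k) s.y ∧ Fence d k (s.cut ω) (dom d d' k) s.x ∧ _ ∧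
    (∀ v ∈ sphere 0 (32 * k),
      Conn (fillV (T d k ∪ T d' k) (s.cut ω)) (dom d d' k) s.y v → v ∈ Mouth d' k) ∧
    (∀ v ∈ sphere 0 (32 * k),
      Conn (fillV (T d k ∪ T d' k) (s.cut ω)) (dom d d' k) s.x v → v ∈ Mouth d k) ↔ _
  tauto

/-- Horizontal segments. -/
private lemma sym_seg_x {S : Set Vert} (x y : ℤ) (n : ℕ)
    (h : ∀ z : ℤ, x ≤ z → z ≤ x + n → ((z, y) : Vert) ∈ S) :
    Conn allOpen S (x, y) (x + n, y) := by
  induction n with
  | zero => simpa using Conn.refl (h x le_rfl (by simp))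
  | succ n ih =>
    have h1 := ih fun z hz hz' => h z hz (by push_cast; omega)
    refine h1.tail ⟨h1.mem_right, h _ (by push_cast; omega) (by push_cast; omega),
      (x + n, y, false), Or.inl ⟨rfl, ?_⟩, rfl⟩
    simp [tgt, add_assoc]

/-- Vertical segments. -/
private lemma sym_seg_y {S : Set Vert} (x y : ℤ) (n : ℕ)
    (h : ∀ z : ℤ, y ≤ z → z ≤ y + n → ((x, z) : Vert) ∈ S) :
    Conn allOpen S (x, y) (x, y + n) := by
  induction n with
  | zero => simpa using Conn.refl (h y le_rfl (by simp))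
  | succ n ih =>
    have h1 := ih fun z hz hz' => h z hz (by push_cast; omega)
    refine h1.tail ⟨h1.mem_right, h _ (by push_cast; omega) (by push_cast; omega),
      (x, y + n, true), Or.inl ⟨rfl, ?_⟩, rfl⟩
    simp [tgt, add_assoc]

/-- Rectangles are connected. -/
private lemma sym_rect_conn {a b c d : ℤ} {u v : Vert} (hu : u ∈ rect a b c d)
    (hv : v ∈ rect a b c d) : Conn allOpen (rect a b c d) u v := by
  obtain ⟨x, y⟩ := u
  obtain ⟨x', y'⟩ := v
  have hx : ∀ z z' t : ℤ, a ≤ z → z ≤ b → a ≤ z' → z' ≤ b → c ≤ t → t ≤ d → z ≤ z' →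
      Conn allOpen (rect a b c d) (z, t) (z', t) := by
    intro z z' t h1 h2 h3 h4 h5 h6 h7
    obtain ⟨n, hn⟩ := Int.eq_ofNat_of_zero_le (sub_nonneg.2 h7)
    have h8 : z' = z + n := by omega
    subst h8
    exact sym_seg_x z t n fun w hw hw' => ⟨by omega, by omega, h5, h6⟩
  have hy : ∀ z t t' : ℤ, a ≤ z → z ≤ b → c ≤ t → t ≤ d → c ≤ t' → t' ≤ d → t ≤ t' →
      Conn allOpen (rect a b c d) (z, t) (z, t') := by
    intro z t t' h1 h2 h3 h4 h5 h6 h7
    obtain ⟨n, hn⟩ := Int.eq_ofNat_of_zero_le (sub_nonneg.2 h7)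
    have h8 : t' = t + n := by omega
    subst h8
    exact sym_seg_y z t n fun w hw hw' => ⟨h1, h2, by change c ≤ w; omega, by change w ≤ d; omega⟩
  obtain ⟨u1, u2, u3, u4⟩ := hu
  obtain ⟨v1, v2, v3, v4⟩ := hv
  simp only at u1 u2 u3 u4 v1 v2 v3 v4
  have h1 : Conn allOpen (rect a b c d) (x, y) (x', y) := by
    rcases le_total x x' with h | h
    · exact hx x x' y u1 u2 v1 v2 u3 u4 h
    · exact (hx x' x y v1 v2 u1 u2 u3 u4 h).symm
  have h2 : Conn allOpen (rect a b c d) (x', y) (x', y') := by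
    rcases le_total y y' with h | h
    · exact hy x' y y' v1 v2 u3 u4 v3 v4 h
    · exact (hy x' y' y v1 v2 v3 v4 u3 u4 h).symm
  exact h1.trans h2

private lemma sym_T_conn {d : Side} {k : ℕ} {u v : Vert} (hu : u ∈ T d k) (hv : v ∈ T d k) :
    Conn allOpen (T d k) u v := by
  cases d <;> exact sym_rect_conn hu hv

theorem sep_same : Sep s d d k = ∅ := by
  rw [Set.eq_empty_iff_forall_notMem]
  rintro ω ⟨h1, h2, h3, -, -⟩
  obtain ⟨u, hu, hxu⟩ := fence_mem h1
  obtain ⟨u', hu', hyu⟩ := fence_mem h2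
  have hle : ∀ e, s.cut ω e = true → fillV (T d k ∪ T d k) (s.cut ω) e = true :=
    fun e he => fillV_true.2 (Or.inl he)
  have huu : Conn (fillV (T d k ∪ T d k) (s.cut ω)) (dom d d k) u u' :=
    conn_fillV (fun a ha => Or.inr ha) ((sym_T_conn hu hu').mono_set fun a ha => Or.inl ha)
  exact h3 ((hxu.mono le_rfl hle).trans (huu.trans (hyu.mono le_rfl hle).symm))

/-- A separated event is a four-arm event. -/
theorem sep_sub_four (hk : 1 ≤ k) : Sep s d d' k ⊆ Four s (28 * k) := by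
  have hball : ∀ a ∈ ball (0 : Vert) 2, a ∈ ball (0 : Vert) (28 * k) := by
    intro a ha
    simp only [mem_ball, Prod.fst_zero, Prod.snd_zero] at ha ⊢
    push_cast at ha ⊢
    omega
  have hT : ∀ (d : Side), ∀ u ∈ T d k, u ∉ ball (0 : Vert) (28 * k) ∨ u ∈ sphere 0 (28 * k) := by
    intro d u hu
    by_cases h : u ∈ ball (0 : Vert) (28 * k)
    · refine Or.inr ⟨h, ?_⟩
      cases d <;> simp only [T, rect, Set.mem_ofPred_eq] at hu <;>
        simp only [mem_ball, Prod.fst_zero, Prod.snd_zero] at h ⊢ <;> push_cast at h ⊢ <;> omega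
    · exact Or.inl h
  rintro ω ⟨h1, h2, h3, -, -⟩
  obtain ⟨u, hu, hxu⟩ := fence_mem h1
  obtain ⟨u', hu', hyu⟩ := fence_mem h2
  obtain ⟨z, hz, hxz⟩ := hxu.to_sphere (v := 0) (r := 28 * k) (hball _ s.hx) (hT d u hu)
  obtain ⟨z', hz', hyz⟩ := hyu.to_sphere (v := 0) (r := 28 * k) (hball _ s.hy) (hT d' u' hu')
  refine ⟨⟨z, hz, hxz.mono_set Set.inter_subset_right⟩,
    ⟨z', hz', hyz.mono_set Set.inter_subset_right⟩, fun hc => h3 ?_⟩
  refine hc.mono (fun a ha => Or.inl ?_) fun e he => fillV_true.2 (Or.inl he)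
  simp only [mem_ball, Prod.fst_zero, Prod.snd_zero] at ha ⊢
  push_cast at ha ⊢
  omega

theorem four_mono' (h : 2 ≤ r) {r' : ℕ} (hr : r ≤ r') : Four s r' ⊆ Four s r := by
  have hball : ∀ a ∈ ball (0 : Vert) 2, a ∈ ball (0 : Vert) r := by
    intro a ha
    simp only [mem_ball, Prod.fst_zero, Prod.snd_zero] at ha ⊢
    push_cast at ha
    omega
  have hsph : ∀ u ∈ sphere (0 : Vert) r', u ∉ ball (0 : Vert) r ∨ u ∈ sphere 0 r := by
    rintro u ⟨-, hu⟩
    by_cases h : u ∈ ball (0 : Vert) r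
    · refine Or.inr ⟨h, ?_⟩
      simp only [mem_ball, Prod.fst_zero, Prod.snd_zero] at h hu ⊢
      omega
    · exact Or.inl h
  have hsub : ball (0 : Vert) r ⊆ ball 0 r' := by
    intro a ha
    simp only [mem_ball, Prod.fst_zero, Prod.snd_zero] at ha ⊢
    omega
  rintro ω ⟨⟨u, hu, h1⟩, ⟨u', hu', h2⟩, h3⟩
  obtain ⟨z, hz, hxz⟩ := h1.to_sphere (v := 0) (r := r) (hball _ s.hx) (hsph u hu)
  obtain ⟨z', hz', hyz⟩ := h2.to_sphere (v := 0) (r := r) (hball _ s.hy) (hsph u' hu')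
  exact ⟨⟨z, hz, hxz.mono_set Set.inter_subset_right⟩,
    ⟨z', hz', hyz.mono_set Set.inter_subset_right⟩, fun hc => h3 (hc.mono_set hsub)⟩

theorem four_land : Four s (8 * w) ⊆ ⋃ d : Side, Four s (8 * w) ∩ Land d s w := by
  intro ω hω
  obtain ⟨u, hu, h1⟩ := hω.1
  rw [Set.mem_iUnion]
  obtain ⟨d, hd⟩ : ∃ d : Side, OnSide d (8 * w) u := by
    have h2 := hu.2
    simp only [Prod.fst_zero, Prod.snd_zero, zero_sub, zero_add] at h2
    rcases h2 with h | h | h | h
    · exact ⟨.W, hu, h⟩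
    · exact ⟨.E, hu, h⟩
    · exact ⟨.S, hu, h⟩
    · exact ⟨.N, hu, h⟩
  exact ⟨d, hω, u, hd, h1⟩

/-- Sum of the separated probabilities. -/
noncomputable def bS (q : I) (s : Src) (k : ℕ) : ℝ := ∑ d : Side, ∑ d' : Side, Pr q (Sep s d d' k)

/-- The source of an edge at the origin. -/
def sE (dir : Bool) : Src where
  x := 0
  y := tgt (0, 0, dir)
  E0 := {(0, 0, dir)}
  hx := by
    rw [Pool.Agent.H89.Perc.mem_ball]
    simp
  hy := by
    rw [Pool.Agent.H89.Perc.mem_ball]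
    cases dir <;> simp [tgt]
  hE := by
    intro e he
    rw [Finset.mem_singleton] at he
    subst he
    rw [Pool.Agent.H89.Perc.mem_ball, Pool.Agent.H89.Perc.mem_ball]
    cases dir <;> simp [src, tgt]

theorem a4_eq_four {r : ℕ} (dir : Bool) : a4 q r = Pr q (Four (sE dir) r) := by
  rw [← Pr_A4 q (0, 0, dir) r]
  congr 1
  have hcut : ∀ ω : Config, (sE dir).cut ω = close (0, 0, dir) ω := by
    intro ω
    funext e
    unfold close Src.cut
    by_cases he : e = (0, 0, dir)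
    · subst he
      rw [Function.update_self]
      by_contra h
      have h1 := (closeS_true.1 (Bool.eq_true_of_not_eq_false h)).2
      exact h1 (Finset.mem_coe.2 (Finset.mem_singleton_self _))
    · rw [Function.update_of_ne he, Bool.eq_iff_iff, closeS_true]
      refine ⟨fun h => h.1, fun h => ⟨h, fun h2 => he ?_⟩⟩
      exact Finset.mem_singleton.1 (Finset.mem_coe.1 h2)
  ext ω
  unfold A4 Four
  simp only [Set.mem_ofPred_eq, hcut]
  exact Iff.rfl

end Pool.Agent.H59.EX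

end

section

/-!
# Outward separation: stage 1
-/

open MeasureTheory ProbabilityTheory unitInterval

namespace Pool.Agent.H59.EX

open Pool.Agent.H89.Perc

variable {s : Src} {w ρ ρ' : ℕ} {v v' : Vert} {d d' : Side} {Z Zy : Set Vert} {Nev Ny : Set Config}
  {q : I}

private theorem st1_cut_congr {s : Src} {ω ω' : Config} {e : Edge} (h : ω e = ω' e) :
    s.cut ω e = s.cut ω' e := by
  unfold Src.cut closeS
  rw [h]

private theorem st1_cut_incr {s : Src} {ω ω' : Config} (h : ∀ e, ω e = true → ω' e = true)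
    (e : Edge) (he : s.cut ω e = true) : s.cut ω' e = true := by
  unfold Src.cut at he ⊢
  rw [closeS_true] at he ⊢
  exact ⟨h e he.1, he.2⟩

/-- The cluster of `y` depends on the edges of the ball only. -/
private theorem st1_SY_congr {s : Src} {w : ℕ} {ω ω' : Config}
    (h : ∀ e ∈ inE (ball 0 (8 * w)), ω e = ω' e) : SY s w ω = SY s w ω' := by
  have key : ∀ ω ω' : Config, (∀ e ∈ inE (ball 0 (8 * w)), ω e = ω' e) →
      SY s w ω ⊆ SY s w ω' := by
    rintro ω ω' h a ⟨y, hy, hc⟩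
    exact ⟨y, hy, hc.congr fun e h1 h2 => st1_cut_congr (h e ⟨h1, h2⟩)⟩
  exact Set.Subset.antisymm (key _ _ h) (key _ _ fun e he => (h e he).symm)

/-- Stage 1: conditional FKG given the cluster of `y`. -/
theorem stage1 (hK : CorrData w ρ v d Z Nev) (hρ : 1 ≤ ρ) (hw : 64 * ρ ≤ w)
    (hv : v ∈ sphere 0 (8 * w)) {c : ℝ} (hc : 0 ≤ c) (hN : c ≤ Pr q Nev) :
    c * Pr q (Ev0 s w ρ v) ≤ Pr q (Ev0 s w ρ v ∩ Nev) := by
  classical
  -- the finite set of edges
  obtain ⟨Λ, hΛ⟩ : ∃ Λ : Finset Edge, ∀ e ∈ inE (ball 0 (160 * w)), e ∈ Λ :=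
    ⟨eRect (-(160 * w : ℕ)) (160 * w : ℕ) (-(160 * w : ℕ)) (160 * w : ℕ), fun e he => by
      rw [mem_eRect]
      have h := he.1
      unfold ball at h
      simp only [Prod.fst_zero, Prod.snd_zero, zero_sub, zero_add] at h
      exact h⟩
  have hball : ball (0 : Vert) (8 * w) ⊆ ball 0 (160 * w) := by
    intro a ha
    simp only [mem_ball, Prod.fst_zero, Prod.snd_zero] at ha ⊢
    omega
  have hΛD : ∀ e ∈ inE (ball (0 : Vert) (8 * w)), e ∈ Λ := fun e he =>
    hΛ e ⟨hball he.1, hball he.2⟩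
  have hZ160 := corr_sub160 hK
  have hΛZ : ∀ e ∈ inE Z, e ∈ Λ := fun e he => hΛ e ⟨hZ160 he.1, hZ160 he.2⟩
  have hN1 : LocalOn Λ Nev := fun ω ω' h hω => hK.loc ω ω' (fun e he => h e (hΛZ e he)) hω
  have main := markov_incr (Λ := Λ) (q := q) (c := c) (SY s w)
    (fun S => s.x ∉ S ∧ (∃ u ∈ sphere 0 (8 * w), u ∈ S) ∧ Disjoint S (ball v (11 * ρ)))
    (fun S => touch (ball 0 (8 * w)) S) (fun _ => Set.univ)
    (fun _ => {ω | ∃ u ∈ sphere 0 (8 * w), u ∈ ball v ρ ∧
      Conn (s.cut ω) (ball 0 (8 * w)) s.x u}) (fun _ => Nev)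
    (by
      intro i ω ω' h hω
      have h1 : SY s w ω = SY s w ω' := st1_SY_congr fun e he => h e (hΛD e he)
      change SY s w ω' = i
      rw [← h1]
      exact hω)
    (by
      intro i _ ω ω' h hω
      exact locS_clus (ball 0 (8 * w)) {s.y} i (s.cut ω) (s.cut ω')
        (fun e he => st1_cut_congr (h e he)) hω)
    (fun _ ω ω' _ _ => trivial)
    (fun _ _ ω ω' _ _ => trivial)
    (by
      rintro _ ω ω' h ⟨u, h1, h2, h3⟩
      exact ⟨u, h1, h2, h3.congr fun e k1 k2 => st1_cut_congr (h e (hΛD e ⟨k1, k2⟩))⟩)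
    (by
      rintro _ _ ω ω' h ⟨u, h1, h2, h3⟩
      exact ⟨u, h1, h2, h3.mono le_rfl (st1_cut_incr h)⟩)
    (fun _ => hN1)
    (by
      rintro S ⟨_, _, hd⟩ ω ω' h hω
      refine hK.loc ω ω' (fun e he => h e ?_) hω
      rintro ⟨hD, hS⟩
      have hin := corr_inter hK
      have h5 : ball v (5 * ρ) ⊆ ball v (11 * ρ) := by
        intro a ha
        simp only [mem_ball] at ha ⊢
        omega
      rcases hS with hS | hS
      · exact Set.disjoint_left.1 hd hS (h5 (hin ⟨he.1, hD.1⟩))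
      · exact Set.disjoint_left.1 hd hS (h5 (hin ⟨he.2, hD.2⟩)))
    (fun _ _ => hK.incr) (fun _ _ => hN) hc
  have e1 : {ω | (s.x ∉ SY s w ω ∧ (∃ u ∈ sphere 0 (8 * w), u ∈ SY s w ω) ∧
      Disjoint (SY s w ω) (ball v (11 * ρ))) ∧ ω ∈ (Set.univ : Set Config) ∧
      ω ∈ {ω | ∃ u ∈ sphere 0 (8 * w), u ∈ ball v ρ ∧
        Conn (s.cut ω) (ball 0 (8 * w)) s.x u}} = Ev0 s w ρ v := by
    ext ω
    unfold Ev0
    simp only [SY, mem_clus_single, Set.mem_univ, true_and, Set.mem_ofPred_eq]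
    rw [conn_comm (u := s.x) (v := s.y)]
    tauto
  have e2 : {ω | (s.x ∉ SY s w ω ∧ (∃ u ∈ sphere 0 (8 * w), u ∈ SY s w ω) ∧
      Disjoint (SY s w ω) (ball v (11 * ρ))) ∧ ω ∈ (Set.univ : Set Config) ∧
      ω ∈ {ω | ∃ u ∈ sphere 0 (8 * w), u ∈ ball v ρ ∧
        Conn (s.cut ω) (ball 0 (8 * w)) s.x u} ∧ ω ∈ Nev} = Ev0 s w ρ v ∩ Nev := by
    rw [← e1]
    ext ω
    simp only [Set.mem_inter_iff, Set.mem_ofPred_eq]
    tauto
  rw [e1, e2] at main
  exact main

end Pool.Agent.H59.EX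

end

section

/-!
# The corridors of the two points are far apart
-/

open MeasureTheory ProbabilityTheory unitInterval

namespace Pool.Agent.H59.EX

open Pool.Agent.H89.Perc

variable {w ρ ρ' : ℕ} {v v' : Vert}

theorem sep_EN (hρ' : 1 ≤ ρ') (h1 : 64 * ρ' ≤ ρ) (h2 : 64 * ρ ≤ w) (hv : OnSide .E (8 * w) v)
    (hv' : OnSide .N (8 * w) v') (hvv : v' ∉ ball v (10 * ρ)) :
    CorrSep w ρ' v' (ZS .E w ρ v) (ZS .N w ρ' v') := by
  obtain ⟨v1, v2⟩ := v
  obtain ⟨u1, u2⟩ := v'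
  obtain ⟨⟨hb, -⟩, he⟩ := hv
  obtain ⟨⟨hb', -⟩, he'⟩ := hv'
  simp only [ball, rect, Set.mem_setOf_eq, Prod.fst_zero, Prod.snd_zero] at hb hb' he he' hvv
  refine ⟨?_, ?_⟩
  · rintro ⟨a1, a2⟩ ha ⟨b1, b2⟩ hb1 hb2
    simp only [ZS, ball, rect, Set.mem_union, Set.mem_setOf_eq] at ha hb1 hb2
    rcases ha with (ha | ha) | ha <;> rcases hb1 with (hb1 | hb1) | hb1 <;> omega
  · rintro ⟨z1, z2⟩ hz ⟨a1, a2⟩ ⟨ha, -⟩ hza
    simp only [ZS, ball, rect, Set.mem_union, Set.mem_setOf_eq, Prod.fst_zero, Prod.snd_zero]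
      at hz ha hza ⊢
    rcases hz with (hz | hz) | hz <;> omega

theorem sep_ES (hρ' : 1 ≤ ρ') (h1 : 64 * ρ' ≤ ρ) (h2 : 64 * ρ ≤ w) (hv : OnSide .E (8 * w) v)
    (hv' : OnSide .S (8 * w) v') (hvv : v' ∉ ball v (10 * ρ)) :
    CorrSep w ρ' v' (ZS .E w ρ v) (ZS .S w ρ' v') := by
  obtain ⟨v1, v2⟩ := v
  obtain ⟨u1, u2⟩ := v'
  obtain ⟨⟨hb, -⟩, he⟩ := hv
  obtain ⟨⟨hb', -⟩, he'⟩ := hv'
  simp only [ball, rect, Set.mem_setOf_eq, Prod.fst_zero, Prod.snd_zero] at hb hb' he he' hvv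
  refine ⟨?_, ?_⟩
  · rintro ⟨a1, a2⟩ ha ⟨b1, b2⟩ hb1 hb2
    simp only [ZS, ball, rect, Set.mem_union, Set.mem_setOf_eq] at ha hb1 hb2
    rcases ha with (ha | ha) | ha <;> rcases hb1 with (hb1 | hb1) | hb1 <;> omega
  · rintro ⟨z1, z2⟩ hz ⟨a1, a2⟩ ⟨ha, -⟩ hza
    simp only [ZS, ball, rect, Set.mem_union, Set.mem_setOf_eq, Prod.fst_zero, Prod.snd_zero]
      at hz ha hza ⊢
    rcases hz with (hz | hz) | hz <;> omega

theorem sep_EW (hρ' : 1 ≤ ρ') (h1 : 64 * ρ' ≤ ρ) (h2 : 64 * ρ ≤ w) (hv : OnSide .E (8 * w) v)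
    (hv' : OnSide .W (8 * w) v') :
    CorrSep w ρ' v' (ZS .E w ρ v) (ZS .W w ρ' v') := by
  obtain ⟨v1, v2⟩ := v
  obtain ⟨u1, u2⟩ := v'
  obtain ⟨⟨hb, -⟩, he⟩ := hv
  obtain ⟨⟨hb', -⟩, he'⟩ := hv'
  simp only [ball, rect, Set.mem_setOf_eq, Prod.fst_zero, Prod.snd_zero] at hb hb' he he'
  refine ⟨?_, ?_⟩
  · rintro ⟨a1, a2⟩ ha ⟨b1, b2⟩ hb1 hb2
    simp only [ZS, ball, rect, Set.mem_union, Set.mem_setOf_eq] at ha hb1 hb2
    rcases ha with (ha | ha) | ha <;> rcases hb1 with (hb1 | hb1) | hb1 <;> omega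
  · rintro ⟨z1, z2⟩ hz ⟨a1, a2⟩ ⟨ha, -⟩ hza
    simp only [ZS, ball, rect, Set.mem_union, Set.mem_setOf_eq, Prod.fst_zero, Prod.snd_zero]
      at hz ha hza ⊢
    rcases hz with (hz | hz) | hz <;> omega

theorem sep_ETN (hρ' : 1 ≤ ρ') (h1 : 64 * ρ' ≤ ρ) (h2 : 64 * ρ ≤ w) (hv : OnSide .E (8 * w) v)
    (hv' : OnSide .E (8 * w) v') (hvv : v.2 + 10 * ρ < v'.2) :
    CorrSep w ρ' v' (ZS .E w ρ v) (ZTN w ρ' v') := by
  obtain ⟨v1, v2⟩ := v
  obtain ⟨u1, u2⟩ := v'
  obtain ⟨⟨hb, -⟩, he⟩ := hv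
  obtain ⟨⟨hb', -⟩, he'⟩ := hv'
  simp only [ball, rect, Set.mem_setOf_eq, Prod.fst_zero, Prod.snd_zero] at hb hb' he he' hvv
  refine ⟨?_, ?_⟩
  · rintro ⟨a1, a2⟩ ha ⟨b1, b2⟩ hb1 hb2
    simp only [ZS, ZTN, ball, rect, Set.mem_union, Set.mem_setOf_eq] at ha hb1 hb2
    rcases ha with (ha | ha) | ha <;>
      rcases hb1 with ((((hb1 | hb1) | hb1) | hb1) | hb1) | hb1 <;> omega
  · rintro ⟨z1, z2⟩ hz ⟨a1, a2⟩ ⟨ha, -⟩ hza
    simp only [ZTN, ball, rect, Set.mem_union, Set.mem_setOf_eq, Prod.fst_zero, Prod.snd_zero]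
      at hz ha hza ⊢
    rcases hz with ((((hz | hz) | hz) | hz) | hz) | hz <;> omega

theorem sep_ETS (hρ' : 1 ≤ ρ') (h1 : 64 * ρ' ≤ ρ) (h2 : 64 * ρ ≤ w) (hv : OnSide .E (8 * w) v)
    (hv' : OnSide .E (8 * w) v') (hvv : v'.2 + 10 * ρ < v.2) :
    CorrSep w ρ' v' (ZS .E w ρ v) (ZTS w ρ' v') := by
  obtain ⟨v1, v2⟩ := v
  obtain ⟨u1, u2⟩ := v'
  obtain ⟨⟨hb, -⟩, he⟩ := hv
  obtain ⟨⟨hb', -⟩, he'⟩ := hv'
  simp only [ball, rect, Set.mem_setOf_eq, Prod.fst_zero, Prod.snd_zero] at hb hb' he he' hvv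
  refine ⟨?_, ?_⟩
  · rintro ⟨a1, a2⟩ ha ⟨b1, b2⟩ hb1 hb2
    simp only [ZS, ZTS, ball, rect, Set.mem_union, Set.mem_setOf_eq] at ha hb1 hb2
    rcases ha with (ha | ha) | ha <;>
      rcases hb1 with ((((hb1 | hb1) | hb1) | hb1) | hb1) | hb1 <;> omega
  · rintro ⟨z1, z2⟩ hz ⟨a1, a2⟩ ⟨ha, -⟩ hza
    simp only [ZTS, ball, rect, Set.mem_union, Set.mem_setOf_eq, Prod.fst_zero, Prod.snd_zero]
      at hz ha hza ⊢
    rcases hz with ((((hz | hz) | hz) | hz) | hz) | hz <;> omega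

end Pool.Agent.H59.EX

end

section

/-!
# Outward separation: stage 3
-/

open MeasureTheory ProbabilityTheory unitInterval

namespace Pool.Agent.H59.EX

open Pool.Agent.H89.Perc

variable {s : Src} {w ρ ρ' : ℕ} {v v' : Vert} {d d' : Side} {Z Zy : Set Vert} {Nev Ny : Set Config}
  {q : I}

private theorem st3_cut_congr {s : Src} {ω ω' : Config} {e : Edge} (h : ω e = ω' e) :
    s.cut ω e = s.cut ω' e := by
  unfold Src.cut closeS
  rw [h]

private theorem st3_cut_incr {s : Src} {ω ω' : Config} (h : ∀ e, ω e = true → ω' e = true)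
    (e : Edge) (he : s.cut ω e = true) : s.cut ω' e = true := by
  unfold Src.cut at he ⊢
  rw [closeS_true] at he ⊢
  exact ⟨h e he.1, he.2⟩

private theorem st3_fill_congr {s : Src} {Z : Set Vert} {ω ω' : Config} {e : Edge}
    (h : ω e = ω' e) : fillV Z (s.cut ω) e = fillV Z (s.cut ω') e := by
  unfold fillV
  rw [st3_cut_congr h]

/-- The cluster of `x` depends on the edges of `ball 0 (160 w)` only. -/
private theorem st3_SH_congr {s : Src} {w : ℕ} {Z : Set Vert} {ω ω' : Config}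
    (h : ∀ e ∈ inE (ball 0 (160 * w)), ω e = ω' e) : SH s w Z ω = SH s w Z ω' := by
  have key : ∀ ω ω' : Config, (∀ e ∈ inE (ball 0 (160 * w)), ω e = ω' e) →
      SH s w Z ω ⊆ SH s w Z ω' := by
    rintro ω ω' h a ⟨y, hy, hc⟩
    exact ⟨y, hy, hc.congr fun e h1 h2 => st3_fill_congr (h e ⟨h1, h2⟩)⟩
  exact Set.Subset.antisymm (key _ _ h) (key _ _ fun e he => (h e he).symm)

/-- Conditions on the value of the cluster of `x`. -/
private def st3_Good (s : Src) (w ρ' : ℕ) (v' : Vert) (Z : Set Vert) (S : Set Vert) : Prop :=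
  Z ⊆ S ∧ s.y ∉ S ∧ (∀ z ∈ S, z ∈ ball 0 (8 * w) ∨ (∃ a ∈ Z, z ∈ ball a (4 * ρ')) ∨
    ∃ a ∈ S, a ∈ sphere 0 (8 * w) ∧ z ∈ ball a (4 * ρ')) ∧ Disjoint S (ball v' (7 * ρ'))

/-- Stage 3: conditional FKG given the sealed cluster of `x`. -/
theorem stage3 (hK : CorrData w ρ v d Z Nev) (hKy : CorrData w ρ' v' d' Zy Ny)
    (hS : CorrSep w ρ' v' Z Zy) (hρ' : 1 ≤ ρ') (h1 : 64 * ρ' ≤ ρ) (h2 : 64 * ρ ≤ w)
    (hv : v ∈ sphere 0 (8 * w)) (hv' : v' ∈ sphere 0 (8 * w)) {c : ℝ} (hc : 0 ≤ c)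
    (hN : c ≤ Pr q Ny) :
    c * Pr q (Ev3 s w ρ' v' d Z) ≤ Pr q (Ev3 s w ρ' v' d Z ∩ Ny) := by
  classical
  have _ := h1
  have _ := h2
  have _ := hv
  have _ := hv'
  -- the finite set of edges
  obtain ⟨Λ, hΛ⟩ : ∃ Λ : Finset Edge, ∀ e ∈ inE (ball 0 (160 * w)), e ∈ Λ :=
    ⟨eRect (-(160 * w : ℕ)) (160 * w : ℕ) (-(160 * w : ℕ)) (160 * w : ℕ), fun e he => by
      rw [mem_eRect]
      have h := he.1
      unfold ball at h
      simp only [Prod.fst_zero, Prod.snd_zero, zero_sub, zero_add] at h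
      exact h⟩
  have hball : ball (0 : Vert) (8 * w) ⊆ ball 0 (160 * w) := by
    intro a ha
    simp only [mem_ball, Prod.fst_zero, Prod.snd_zero] at ha ⊢
    omega
  have hZ160 := corr_sub160 hK
  have hZy160 := corr_sub160 hKy
  have hDZ : ball (0 : Vert) (8 * w) ∪ Z ⊆ ball 0 (160 * w) := Set.union_subset hball hZ160
  have hN1 : LocalOn Λ Ny := fun ω ω' h hω =>
    hKy.loc ω ω' (fun e he => h e (hΛ e ⟨hZy160 he.1, hZy160 he.2⟩)) hω
  -- the second corridor misses the cluster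
  have hdis : ∀ S : Set Vert, st3_Good s w ρ' v' Z S → ∀ z ∈ Zy, z ∉ S := by
    rintro S ⟨-, -, hconf, hd⟩ z hz hzS
    have h57 : ball v' (5 * ρ') ⊆ ball v' (7 * ρ') := by
      intro a ha
      simp only [mem_ball] at ha ⊢
      omega
    rcases hconf z hzS with h | ⟨a, ha, h⟩ | ⟨a, ha, ha', h⟩
    · exact Set.disjoint_left.1 hd hzS (h57 (corr_inter hKy ⟨hz, h⟩))
    · refine hS.far a ha z hz ?_
      simp only [mem_ball] at h ⊢
      push_cast at h ⊢
      omega
    · exact Set.disjoint_left.1 hd ha (hS.fringe z hz a ha' h)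
  have main := markov_incr (Λ := Λ) (q := q) (c := c) (SH s w Z)
    (st3_Good s w ρ' v' Z)
    (fun S => touch (ball 0 (160 * w)) S)
    (fun S => {ω | Fence d (4 * w) (s.cut ω) (S ∩ (ball 0 (8 * w) ∪ Z)) s.x})
    (fun S => {ω | ∃ u ∈ sphere 0 (8 * w), u ∈ ball v' ρ' ∧
      Conn (s.cut ω) (ball 0 (8 * w) \ S) s.y u}) (fun _ => Ny)
    (by
      intro i ω ω' h hω
      have h1 : SH s w Z ω = SH s w Z ω' := st3_SH_congr fun e he => h e (hΛ e he)
      change SH s w Z ω' = i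
      rw [← h1]
      exact hω)
    (by
      rintro i ⟨hi, -⟩ ω ω' h hω
      exact locS_clus_fill (D := ball 0 (160 * w)) (X := {s.x}) hi (s.cut ω) (s.cut ω')
        (fun e he => st3_cut_congr (h e he.1)) hω)
    (by
      intro S ω ω' h hω
      refine fence_congr (fun e he => ?_) (fun e he => ?_) hω
      · exact st3_cut_congr (h e (hΛ e ⟨hZ160 (hK.T_sub he.1), hZ160 (hK.T_sub he.2)⟩))
      · exact st3_cut_congr (h e (hΛ e ⟨hDZ he.1.2, hDZ he.2.2⟩)))
    (by
      rintro S ⟨hZS, -⟩ ω ω' h hω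
      refine fence_congr (fun e he => ?_) (fun e he => ?_) hω
      · exact st3_cut_congr (h e ⟨⟨hZ160 (hK.T_sub he.1), hZ160 (hK.T_sub he.2)⟩,
          Or.inl (hZS (hK.T_sub he.1))⟩)
      · exact st3_cut_congr (h e ⟨⟨hDZ he.1.2, hDZ he.2.2⟩, Or.inl he.1.1⟩))
    (by
      rintro _ ω ω' h ⟨u, h1, h2, h3⟩
      exact ⟨u, h1, h2, h3.congr fun e k1 k2 =>
        st3_cut_congr (h e (hΛ e ⟨hball k1.1, hball k2.1⟩))⟩)
    (by
      rintro _ _ ω ω' h ⟨u, h1, h2, h3⟩
      exact ⟨u, h1, h2, h3.mono le_rfl (st3_cut_incr h)⟩)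
    (fun _ => hN1)
    (by
      intro S hG ω ω' h hω
      refine hKy.loc ω ω' (fun e he => h e ?_) hω
      rintro ⟨-, hS | hS⟩
      · exact hdis S hG _ he.1 hS
      · exact hdis S hG _ he.2 hS)
    (fun _ _ => hKy.incr) (fun _ _ => hN) hc
  have e1 : {ω | st3_Good s w ρ' v' Z (SH s w Z ω) ∧
      ω ∈ {ω' | Fence d (4 * w) (s.cut ω') (SH s w Z ω ∩ (ball 0 (8 * w) ∪ Z)) s.x} ∧
      ω ∈ {ω' | ∃ u ∈ sphere 0 (8 * w), u ∈ ball v' ρ' ∧
        Conn (s.cut ω') (ball 0 (8 * w) \ SH s w Z ω) s.y u}} = Ev3 s w ρ' v' d Z := by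
    ext ω
    constructor
    · rintro ⟨⟨hZ, hy, hconf, hd⟩, hF, hL⟩
      exact ⟨⟨hy, hF, hconf⟩, hL, hd⟩
    · rintro ⟨hC, hL, hd⟩
      have hZ := Z_sub_SH_of_conf hK hC
      obtain ⟨hy, hF, hconf⟩ := hC
      exact ⟨⟨hZ, hy, hconf, hd⟩, hF, hL⟩
  have e2 : {ω | st3_Good s w ρ' v' Z (SH s w Z ω) ∧
      ω ∈ {ω' | Fence d (4 * w) (s.cut ω') (SH s w Z ω ∩ (ball 0 (8 * w) ∪ Z)) s.x} ∧
      ω ∈ {ω' | ∃ u ∈ sphere 0 (8 * w), u ∈ ball v' ρ' ∧
        Conn (s.cut ω') (ball 0 (8 * w) \ SH s w Z ω) s.y u} ∧ ω ∈ Ny} =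
      Ev3 s w ρ' v' d Z ∩ Ny := by
    rw [← e1]
    ext ω
    simp only [Set.mem_inter_iff, Set.mem_ofPred_eq]
    tauto
  rw [e1, e2] at main
  exact main

end Pool.Agent.H59.EX

end

section

/-!
# Bad events: two clusters close to the same vertex of the sphere
-/

open MeasureTheory ProbabilityTheory unitInterval

namespace Pool.Agent.H59.EX

open Pool.Agent.H89.Perc Pool.Agent.H61.NC
open Pool.Agent.H29.Sep (LocTwo BadIn)

variable {s : Src} {w ρ ρ' : ℕ} {v v' : Vert} {d d' : Side} {Z Zy : Set Vert} {Nev Ny : Set Config}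
  {q : I}

/-- The balls around a vertex of the sphere are far from the source. -/
private theorem bad_far {r : ℕ} {z : Vert} (hz : z ∈ sphere 0 (8 * w)) (hr : r + 2 < 8 * w)
    {a : Vert} (ha : a ∈ ball z r) : a ∉ ball 0 2 := by
  intro h
  obtain ⟨h1, h2⟩ := hz
  rw [mem_ball] at h1 ha h
  simp only [Prod.fst_zero, Prod.snd_zero, zero_sub, zero_add] at h1 h2 h
  push_cast at h1 h2 h
  omega

/-- On sets far from the source the configuration is not cut. -/
private theorem bad_uncut {ω : Config} {S : Set Vert} {a b : Vert}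
    (hS : ∀ p ∈ S, p ∉ ball 0 2) (h : Conn ω S a b) : Conn (s.cut ω) S a b :=
  h.congr fun _ he _ => (cut_of_not_ball (Or.inl (hS _ he))).symm

theorem four_mono {r r' : ℕ} (h : 2 ≤ r) (hr : r ≤ r') : Four s r' ⊆ Four s r := by
  rcases hr.eq_or_lt with h0 | h0
  · subst h0; exact le_rfl
  have hsub : ball (0 : Vert) r ⊆ ball 0 r' := by
    intro a ha
    simp only [mem_ball] at ha ⊢
    omega
  have hsub2 : ball (0 : Vert) 2 ⊆ ball 0 r := by
    intro a ha
    simp only [mem_ball] at ha ⊢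
    omega
  have hout : ∀ u ∈ sphere (0 : Vert) r', u ∉ ball 0 r := by
    rintro u ⟨hu1, hu2⟩ hu3
    simp only [mem_ball] at hu1 hu3
    omega
  rintro ω ⟨⟨u, hu, h1⟩, ⟨u', hu', h2⟩, h3⟩
  obtain ⟨x, hx, hcx⟩ := h1.to_sphere (v := 0) (r := r) (hsub2 s.hx) (Or.inl (hout u hu))
  obtain ⟨x', hx', hcx'⟩ := h2.to_sphere (v := 0) (r := r) (hsub2 s.hy) (Or.inl (hout u' hu'))
  exact ⟨⟨x, hx, hcx.mono_set Set.inter_subset_right⟩,
    ⟨x', hx', hcx'.mono_set Set.inter_subset_right⟩, fun h5 => h3 (h5.mono_set hsub)⟩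

/-- If `x` lands near `v` and the cluster of `y` comes near `v`, then two distinct clusters cross
a half annulus. -/
theorem bad0 (hρ : 1 ≤ ρ) (hw : 64 * ρ ≤ w) (hv : v ∈ sphere 0 (8 * w)) {ω : Config}
    (hω : ω ∈ Four s (8 * w))
    (hx : ∃ u ∈ sphere 0 (8 * w), u ∈ ball v ρ ∧ Conn (s.cut ω) (ball 0 (8 * w)) s.x u)
    (hy : ¬ Disjoint (SY s w ω) (ball v (11 * ρ))) :
    ω ∈ Four s (2 * w) ∧ ∃ z ∈ sphere 0 (8 * w), ω ∈ LocTwo (ball 0 (8 * w)) z (11 * ρ) (4 * w) := by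
  refine ⟨four_mono (by omega) (by omega) hω, v, hv, ?_⟩
  obtain ⟨u, -, huv, hxu⟩ := hx
  obtain ⟨p, hp, hpv⟩ := Set.not_disjoint_iff.1 hy
  have hyp : Conn (s.cut ω) (ball 0 (8 * w)) s.y p := mem_clus_single.1 hp
  have hfar : ∀ a ∈ ball v (4 * w), a ∉ ball 0 2 := fun a ha => bad_far hv (by omega) ha
  have hu11 : u ∈ ball v (11 * ρ) := by
    rw [mem_ball] at huv ⊢
    push_cast
    omega
  have hsub : ball v (11 * ρ) ⊆ ball v (4 * w) := by
    intro a ha
    rw [mem_ball] at ha ⊢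
    push_cast at ha ⊢
    omega
  obtain ⟨a, ha, hca⟩ := hxu.symm.to_sphere (v := v) (r := 4 * w) (hsub hu11)
    (Or.inl fun h => hfar _ h s.hx)
  obtain ⟨b, hb, hcb⟩ := hyp.symm.to_sphere (v := v) (r := 4 * w) (hsub hpv)
    (Or.inl fun h => hfar _ h s.hy)
  refine ⟨u, hu11, p, hpv, a, ha, b, hb, hca.mono le_rfl fun e he => cut_le he,
    hcb.mono le_rfl fun e he => cut_le he, fun h => hω.2.2 ?_⟩
  have h1 : Conn (s.cut ω) (ball 0 (8 * w) ∩ ball v (4 * w)) u p :=
    bad_uncut (fun q hq => hfar q hq.2) h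
  exact (hxu.trans (h1.mono_set Set.inter_subset_left)).trans hyp.symm

/-- If the clusters of `x` (after gluing) and of `y` come close to the same vertex, then two
distinct clusters cross a half annulus. -/
theorem bad12 (hK : CorrData w ρ v d Z Nev) (hρ' : 1 ≤ ρ') (h1 : 64 * ρ' ≤ ρ) (h2 : 64 * ρ ≤ w)
    (hv : v ∈ sphere 0 (8 * w)) {ω : Config} (hω : ω ∈ Ev0 s w ρ v)
    (hg : ω ∉ Good12 s w ρ' Z) :
    ω ∈ Four s (2 * w) ∧ ∃ z ∈ sphere 0 (8 * w), ω ∈ LocTwo (ball 0 (8 * w)) z (12 * ρ') ρ := by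
  obtain ⟨⟨u, hu, huv, hxu⟩, ⟨u', hu', hyu'⟩, hxy, hdis⟩ := hω
  refine ⟨four_mono (by omega) (by omega) ⟨⟨u, hu, hxu⟩, ⟨u', hu', hyu'⟩, hxy⟩, ?_⟩
  simp only [Good12, Set.mem_ofPred_eq, not_forall, not_not] at hg
  obtain ⟨z, hz, ⟨a, ha1, haz⟩, ⟨b, hb1, hbz⟩⟩ := hg
  refine ⟨z, hz, ?_⟩
  have hfar : ∀ p ∈ ball z ρ, p ∉ ball 0 2 := fun p hp => bad_far hz (by omega) hp
  have hsub : ball z (12 * ρ') ⊆ ball z ρ := by
    intro p hp
    rw [mem_ball] at hp ⊢
    push_cast at hp ⊢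
    omega
  -- the corridor is far from `z`
  have hbv : b ∉ ball v (11 * ρ) := Set.disjoint_left.1 hdis hb1
  have hZ : ∀ p ∈ ball z ρ, p ∉ Z := by
    intro p hp hpZ
    have h3 : z ∈ ball v (5 * ρ) := by
      refine hK.inter p hpZ z hz.1 ?_
      rw [mem_ball] at hp ⊢
      omega
    apply hbv
    rw [mem_ball] at h3 hbz ⊢
    push_cast at h3 hbz ⊢
    omega
  have hca : Conn (fillV Z (s.cut ω)) (ball 0 (8 * w) ∪ Z) s.x a := mem_clus_single.1 ha1
  have hcb : Conn (s.cut ω) (ball 0 (8 * w)) s.y b := mem_clus_single.1 hb1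
  obtain ⟨a', ha', haa'⟩ := hca.symm.to_sphere (v := z) (r := ρ) (hsub haz)
    (Or.inl fun h => hfar _ h s.hx)
  obtain ⟨b', hb', hbb'⟩ := hcb.symm.to_sphere (v := z) (r := ρ) (hsub hbz)
    (Or.inl fun h => hfar _ h s.hy)
  have hDa : Conn ω (ball 0 (8 * w) ∩ ball z ρ) a a' := by
    have h4 : Conn (s.cut ω) ((ball 0 (8 * w) ∪ Z) ∩ ball z ρ) a a' := by
      refine haa'.congr fun e he _ => ?_
      have h5 : e ∉ inE Z := fun h => hZ _ he.2 h.1
      simp [fillV, h5]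
    refine h4.mono ?_ fun e he => cut_le he
    rintro p ⟨hp | hp, hp'⟩
    · exact ⟨hp, hp'⟩
    · exact absurd hp (hZ p hp')
  refine ⟨a, haz, b, hbz, a', ha', b', hb', hDa, hbb'.mono le_rfl fun e he => cut_le he, fun h => ?_⟩
  have h6 : Conn (s.cut ω) (ball 0 (8 * w) ∩ ball z ρ) a b :=
    bad_uncut (fun q hq => hfar q hq.2) h
  have h7 : b ∈ S1 s w Z ω := by
    refine clus_conn ha1 (h6.mono ?_ fun e he => fillV_true.2 (Or.inl he))
    exact Set.inter_subset_left.trans Set.subset_union_left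
  exact Set.disjoint_left.1 (S1_disj_SY hK (by omega) hdis hxy) h7 hb1

private theorem bad_localOn_four (r : ℕ) :
    LocalOn (eRect (-r) r (-r) r) (Four s r) := by
  have key : ∀ ω ω' : Config, (∀ f ∈ eRect (-r) r (-r) r,
      ω f = ω' f) → ∀ u v : Vert, Conn (s.cut ω) (ball 0 r) u v →
        Conn (s.cut ω') (ball 0 r) u v := by
    intro ω ω' h u v hc
    refine Conn.congr (fun f hf _ => ?_) hc
    have : ω f = ω' f := by
      refine h f (mem_eRect.2 ?_)
      rw [mem_ball] at hf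
      simpa [rect] using hf
    simp only [Src.cut, closeS, this]
  rintro ω ω' h ⟨⟨u, hu, h1⟩, ⟨u', hu', h2⟩, h3⟩
  exact ⟨⟨u, hu, key _ _ h _ _ h1⟩, ⟨u', hu', key _ _ h _ _ h2⟩,
    fun h4 => h3 (key _ _ (fun f hf => (h f hf).symm) _ _ h4)⟩

/-- Independence of the inner four-arm event and of the events near the sphere. -/
theorem four_bad_indep {t ρ₁ : ℕ} (ht : t ≤ ρ₁) (hρ₁ : ρ₁ ≤ 4 * w) (hw : 1 ≤ w) :
    Pr q (Four s (2 * w) ∩ {ω | ∃ z ∈ sphere 0 (8 * w), ω ∈ LocTwo (ball 0 (8 * w)) z t ρ₁}) =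
      Pr q (Four s (2 * w)) *
        Pr q {ω | ∃ z ∈ sphere 0 (8 * w), ω ∈ LocTwo (ball 0 (8 * w)) z t ρ₁} := by
  classical
  set Λ : Finset Edge := eRect (-(8 * w : ℕ)) (8 * w : ℕ) (-(8 * w : ℕ)) (8 * w : ℕ) \
    eRect (-(2 * w : ℕ)) (2 * w : ℕ) (-(2 * w : ℕ)) (2 * w : ℕ) with hΛ
  refine Pr_inter_of_disjoint (bad_localOn_four (2 * w)) (t := Λ) ?_ ?_
  · have key : ∀ z ∈ sphere (0 : Vert) (8 * w), ∀ ω ω' : Config, (∀ f ∈ Λ, ω f = ω' f) →
        ∀ u v : Vert, Conn ω (ball 0 (8 * w) ∩ ball z ρ₁) u v →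
          Conn ω' (ball 0 (8 * w) ∩ ball z ρ₁) u v := by
      intro z hz ω ω' h u v hc
      refine Conn.congr (fun f hf _ => h f ?_) hc
      obtain ⟨hf1, hf2⟩ := hf
      obtain ⟨hz1, hz2⟩ := hz
      rw [hΛ, Finset.mem_sdiff, mem_eRect, mem_eRect]
      simp only [mem_ball, rect, Set.mem_ofPred_eq, Prod.fst_zero, Prod.snd_zero, zero_sub,
        zero_add] at hf1 hf2 hz1 hz2 ⊢
      push_cast at hf1 hf2 hz1 hz2 ⊢
      omega
    rintro ω ω' h ⟨z, hz, u, hu, u', hu', p, hp, p', hp', h1, h2, h3⟩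
    exact ⟨z, hz, u, hu, u', hu', p, hp, p', hp', key z hz _ _ h _ _ h1, key z hz _ _ h _ _ h2,
      fun h4 => h3 (key z hz _ _ (fun f hf => (h f hf).symm) _ _ h4)⟩
  · exact Finset.disjoint_sdiff

end Pool.Agent.H59.EX

end
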