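import Pool.Agent.H31.PT.H29.Sep.NoArm
import Pool.Agent.H31.PT.M06
import Pool.Agent.H31.PT.M09

/-! The parts of this file: H57.EX.Det2, H57.EX.Det1, H57.EX.Stage2a, H57.EX.StdDet, H57.EX.StdBad, H57.EX.Near, H59.EX.SealProb, H59.EX.St2, H83.EX.CorrE, H26.ST.Defs, H26.ST.Cells, H26.ST.Open. -/

section

/-!
# The sealed cluster
-/

open MeasureTheory ProbabilityTheory unitInterval

namespace Pool.Agent.H57.EX

open Pool.Agent.H89.Perc Pool.Agent.H61.NC Pool.Agent.H29.Sep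

/-- The hypotheses of this file. -/
structure H2 (Z : Dat) (s s' : ℕ) (γ : ℕ → Vert) (n : ℕ) (b b' : Vert) (V : Finset Vert)
    (ω : Config) : Prop where
  hs' : 1 ≤ s'
  hss : 40 * s' ≤ s
  hsm : 100 * s ≤ Z.m
  hb : b ∈ sphere 0 (4 * Z.m)
  hb' : b' ∈ sphere 0 (16 * Z.m)
  hg : ZGood Z.m s γ n b b'
  hV : ∀ u ∈ ball 0 (20 * Z.m), ∃ v ∈ V, u ∈ ball v s'
  h1 : ω ∈ E1 Z s b b' (GG Z s γ n)
  h2 : ω ∈ NB Z (38 * s') (GG Z s γ n)
  h3 : ω ∈ Seal Z s' V (GG Z s γ n)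

/-- The three parts of the glued domain. -/
private theorem mem_GG {Z : Dat} {s n : ℕ} {γ : ℕ → Vert} {v : Vert} :
    v ∈ GG Z s γ n ↔ v ∈ Z.B ∨ v ∈ Z.D ∨ v ∈ zone γ n s := by
  unfold GG
  rw [Set.mem_union, Set.mem_union, or_assoc]

private theorem mem_B {Z : Dat} {v : Vert} : v ∈ Z.B ↔ nrm v ≤ 4 * (Z.m : ℤ) := by
  unfold Dat.B
  rw [mem_ball_zero]
  push_cast
  rfl

private theorem B_sub_W (Z : Dat) : Z.B ⊆ Z.W := by
  intro v hv
  apply Z.hBW
  rw [mem_B] at hv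
  rw [mem_ball_zero]
  push_cast
  omega

private theorem GG_sub_W {Z : Dat} {s n : ℕ} {γ : ℕ → Vert} {b b' : Vert}
    (hg : ZGood Z.m s γ n b b') : GG Z s γ n ⊆ Z.W := by
  intro v hv
  rw [mem_GG] at hv
  rcases hv with hv | hv | hv
  · exact B_sub_W Z hv
  · exact Z.hDW hv
  · apply Z.hBW
    rw [mem_ball_zero]
    have := hg.bdd v hv
    push_cast
    omega

private theorem x_mem_GG (Z : Dat) (s n : ℕ) (γ : ℕ → Vert) : Z.x ∈ GG Z s γ n := by
  rw [mem_GG]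
  left
  rw [mem_B]
  have h1 := Z.hx
  rw [mem_ball_zero] at h1
  have h2 := Z.hm
  push_cast at h1
  omega

private theorem y_mem_GG (Z : Dat) (s n : ℕ) (γ : ℕ → Vert) : Z.y ∈ GG Z s γ n := by
  rw [mem_GG]
  left
  rw [mem_B]
  have h1 := Z.hy
  rw [mem_ball_zero] at h1
  have h2 := Z.hm
  push_cast at h1
  omega

private theorem src_ne_tgt (e : Edge) : src e ≠ tgt e := by
  unfold src tgt
  intro h
  rcases he : e.2.2 with _ | _
  · rw [he] at h
    have h1 := congrArg Prod.fst h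
    simp at h1
  · rw [he] at h
    have h1 := congrArg Prod.snd h
    simp at h1

private theorem nrm_sphere {t : ℕ} {v : Vert} (h : v ∈ sphere 0 t) : nrm v = t :=
  mem_sphere_zero.1 h

/-- Places of the exits. -/
theorem exit_cases {Z : Dat} {s s' : ℕ} {γ : ℕ → Vert} {n : ℕ} {b b' : Vert} {V : Finset Vert}
    {ω : Config} (h : H2 Z s s' γ n b b' V ω) {v : Vert}
    (hv : v ∈ Exits Z.W (GG Z s γ n) (cl ω (GG Z s γ n) {Z.x})) :
    v ∈ ball 0 (20 * Z.m) ∧ (v ∈ zone γ n s ∨ v ∈ sphere 0 (4 * Z.m) ∨ (v ∈ Z.D ∧ v ∈ Z.Bd)) := by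
  obtain ⟨hv1, e, w, he, hwW, hwG⟩ := hv
  have hvG : v ∈ GG Z s γ n := cl_sub hv1
  have hm := Z.hm
  have hwB : w ∉ Z.B := fun hw => hwG (mem_GG.2 (Or.inl hw))
  have hwD : w ∉ Z.D := fun hw => hwG (mem_GG.2 (Or.inr (Or.inl hw)))
  have hw19 : w ∈ ball 0 (19 * Z.m) := by
    by_contra hcon
    exact hwD (Z.hWD w hwW hcon)
  have hvw : v ∈ ball w 1 := joins_ball (joins_symm he)
  have hwv : w ∈ ball v 1 := joins_ball he
  have h1 := nrm_le_of_mem_ball hvw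
  have h2 := nrm_le_of_mem_ball hwv
  rw [mem_ball_zero] at hw19
  push_cast at hw19 h1 h2
  refine ⟨?_, ?_⟩
  · rw [mem_ball_zero]
    push_cast
    omega
  · rw [mem_GG] at hvG
    rcases hvG with hB | hD | hzn
    · right
      left
      rw [mem_B] at hB hwB
      rw [mem_sphere_zero]
      push_cast
      omega
    · right
      right
      exact ⟨hD, Or.inr ⟨hD, e, w, he, hwW, hwD⟩⟩
    · left
      exact hzn

/-- Near the exits there are no vertices of the clusters of `y` and `T`. -/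
theorem exit_far {Z : Dat} {s s' : ℕ} {γ : ℕ → Vert} {n : ℕ} {b b' : Vert} {V : Finset Vert}
    {ω : Config} (h : H2 Z s s' γ n b b' V ω) {v p : Vert}
    (hv : v ∈ Exits Z.W (GG Z s γ n) (cl ω (GG Z s γ n) {Z.x})) (hp : p ∈ ball v (4 * s')) :
    p ∉ cl ω (GG Z s γ n) {Z.y} ∧ p ∉ cl ω (GG Z s γ n) Z.T := by
  obtain ⟨-, hc⟩ := exit_cases h hv
  obtain ⟨-, -, -, hS2, hS3, hd2, hd3, -, -⟩ := h.h1
  obtain ⟨hn1, hn2⟩ := h.h2
  have hs' := h.hs'
  have hss := h.hss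
  have hsm := h.hsm
  have hp1 := nrm_le_of_mem_ball hp
  have hp2 := le_nrm_of_mem_ball hp
  push_cast at hp1 hp2
  have h38 : 4 * s' ≤ 38 * s' := by omega
  have hvS1 : v ∈ cl ω (GG Z s γ n) {Z.x} := hv.1
  rcases hc with hzn | hsp | ⟨hD, hBd⟩
  · constructor
    · intro hpS
      have hpB := hS2 hpS
      rw [mem_B] at hpB
      have hvb := h.hg.inner v hzn (by omega)
      have hpb := ball_mono (show 20 * s + 4 * s' ≤ 38 * s by omega) (ball_trans hvb hp)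
      exact Set.disjoint_left.1 hd2 hpS hpb
    · intro hpS
      have hpD := Z.hD p (hS3 hpS)
      have hvb := h.hg.outer v hzn (by omega)
      have hpb := ball_mono (show 20 * s + 4 * s' ≤ 38 * s by omega) (ball_trans hvb hp)
      exact Set.disjoint_left.1 hd3 hpS hpb
  · have hnv := nrm_sphere hsp
    push_cast at hnv
    constructor
    · intro hpS
      exact hn1 v hsp ⟨v, hvS1, mem_ball_self v _⟩ ⟨p, hpS, ball_mono h38 hp⟩
    · intro hpS
      have hpD := Z.hD p (hS3 hpS)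
      have hm := Z.hm
      omega
  · have hnv := Z.hD v hD
    constructor
    · intro hpS
      have hpB := hS2 hpS
      rw [mem_B] at hpB
      have hm := Z.hm
      omega
    · intro hpS
      exact hn2 v hBd ⟨v, hvS1, mem_ball_self v _⟩ ⟨p, hpS, ball_mono h38 hp⟩

/-- The cluster of `x` in the universe. -/
theorem sealed {Z : Dat} {s s' : ℕ} {γ : ℕ → Vert} {n : ℕ} {b b' : Vert} {V : Finset Vert}
    {ω : Config} (h : H2 Z s s' γ n b b' V ω) {p : Vert} (hp : p ∈ cl ω Z.W {Z.x}) :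
    p ∈ cl ω (GG Z s γ n) {Z.x} ∨
      ∃ v ∈ Exits Z.W (GG Z s γ n) (cl ω (GG Z s γ n) {Z.x}), p ∈ ball v (4 * s') := by
  by_cases hp1 : p ∈ cl ω (GG Z s γ n) {Z.x}
  · exact Or.inl hp1
  right
  have hxG := x_mem_GG Z s n γ
  have hxS : Z.x ∈ cl ω (GG Z s γ n) {Z.x} := mem_cl_self hxG
  rw [mem_cl_iff] at hp
  obtain ⟨v, hv, w, hw, hvW, hwW, ⟨e, he, heo⟩, hwp⟩ := last_exit hp hxS hp1
  have hvG : v ∈ GG Z s γ n := cl_sub hv
  have hwG : w ∉ GG Z s γ n := by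
    intro hwG
    exact hw (cl_step hv ⟨hvG, hwG, e, he, heo⟩)
  have hvE : v ∈ Exits Z.W (GG Z s γ n) (cl ω (GG Z s γ n) {Z.x}) := ⟨hv, e, w, he, hwW, hwG⟩
  refine ⟨v, hvE, ?_⟩
  by_contra hpv
  obtain ⟨hv20, -⟩ := exit_cases h hvE
  obtain ⟨c, hcV, hvc⟩ := h.hV v hv20
  have hpc : p ∉ ball c (3 * s') := by
    intro hpc
    apply hpv
    have h1 := ball_trans (mem_ball_comm.1 hvc) hpc
    exact ball_mono (by omega) h1
  have hs' := h.hs'
  -- the path from the exit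
  set D1 : Set Vert := {v} ∪ (Z.W \ cl ω (GG Z s γ n) {Z.x}) with hD1
  have hvD1 : v ∈ D1 := Or.inl rfl
  have hpath : Conn ω D1 v p := by
    have h1 : Step ω D1 v w := ⟨hvD1, Or.inr ⟨hwW, hw⟩, e, he, heo⟩
    exact h1.conn.trans (hwp.mono_set fun a ha => Or.inr ha)
  obtain ⟨u, hu, hvu⟩ := reach_sphere hpath (ball_mono (by omega) hvc) (Or.inl hpc)
  obtain ⟨ω', hω', hseal⟩ := h.h3
  refine hseal c hcV ⟨v, hvE, hvc⟩ ⟨v, hvc, u, hu, ?_⟩
  refine conn_congr hvu (fun a ha => ha.2) ?_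
  intro f hf1 hf2 hfo
  rw [hω' f ?_]
  · exact hfo
  intro hft
  rw [mem_touch] at hft
  obtain ⟨hfin, hfS⟩ := hft
  rw [mem_eIn ((GG_sub_W h.hg).trans Z.hWR)] at hfin
  obtain ⟨hfG1, hfG2⟩ := hfin
  -- the ends of `f` are near the exit
  have hball : ∀ a, a ∈ ball c (3 * s') → a ∈ ball v (4 * s') := by
    intro a ha
    have h1 := ball_trans (mem_ball_comm.1 hvc) ha
    exact ball_mono (by omega) h1
  have hfar1 := exit_far h hvE (hball _ hf1.2)
  have hfar2 := exit_far h hvE (hball _ hf2.2)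
  have hne := src_ne_tgt f
  -- an end in the cluster of `x` is the exit
  have hS1 : ∀ a, a ∈ D1 → a ∈ cl ω (GG Z s γ n) {Z.x} → a = v := by
    intro a ha ha'
    rcases ha with ha | ha
    · exact ha
    · exact absurd ha' ha.2
  have hboth : src f ∈ cl ω (GG Z s γ n) {Z.x} ↔ tgt f ∈ cl ω (GG Z s γ n) {Z.x} := by
    constructor
    · intro h1
      exact cl_step h1 ⟨hfG1, hfG2, f, joins_src_tgt f, hfo⟩
    · intro h1
      exact cl_step h1 ⟨hfG2, hfG1, f, (joins_src_tgt f).symm, hfo⟩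
  rcases hfS with ((hf | hf) | hf) | ((hf | hf) | hf)
  · exact hne ((hS1 _ hf1.1 hf).trans (hS1 _ hf2.1 (hboth.1 hf)).symm)
  · exact hfar1.1 hf
  · exact hfar1.2 hf
  · exact hne ((hS1 _ hf1.1 (hboth.2 hf)).trans (hS1 _ hf2.1 hf).symm)
  · exact hfar2.1 hf
  · exact hfar2.2 hf

/-- The second landing. -/
theorem det2 {Z : Dat} {s s' : ℕ} {γ : ℕ → Vert} {n : ℕ} {b b' : Vert} {V : Finset Vert}
    {ω : Config} (h : H2 Z s s' γ n b b' V ω) {N N' : Finset Vert} (hN : IsNet N (4 * Z.m) s')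
    (hN' : IsNet N' (16 * Z.m) s') :
    ∃ β ∈ N, ∃ β' ∈ N', β ∉ ball b (30 * s) ∧ β' ∉ ball b' (30 * s) ∧
      ∀ (γ' : ℕ → Vert) (n' : ℕ), ZGood Z.m s' γ' n' β β' →
        (∀ w ∈ zone γ' n' s', ∀ z ∈ zone γ n s, w ∉ ball z (8 * s')) →
        ω ∈ E2 Z s' γ' n' β β' := by
  obtain ⟨hL, ⟨u0, hu0S, hu0⟩, ⟨v0, hv0S, hv0⟩, hS2, hS3, hd2, hd3, hd12, hd13⟩ := h.h1
  obtain ⟨hn1, hn2⟩ := h.h2
  have hs' := h.hs'
  have hss := h.hss
  have hsm := h.hsm
  obtain ⟨β, hβ, hu0β⟩ := hN.cov u0 hu0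
  obtain ⟨β', hβ', hv0β⟩ := hN'.cov v0 hv0
  refine ⟨β, hβ, β', hβ', ?_, ?_, ?_⟩
  · intro hcon
    exact Set.disjoint_left.1 hd2 hu0S
      (ball_mono (show 30 * s + s' ≤ 38 * s by omega) (ball_trans hcon hu0β))
  · intro hcon
    exact Set.disjoint_left.1 hd3 hv0S
      (ball_mono (show 30 * s + s' ≤ 38 * s by omega) (ball_trans hcon hv0β))
  intro γ' n' hg' hsep
  have hβs := hN.sub β hβ
  have hβs' : β' ∈ Z.Bd := Or.inl (hN'.sub β' hβ')
  -- the two contradictions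
  have hin : ∀ a ∈ cl ω (GG Z s γ n) {Z.x}, a ∉ ball β (38 * s') := by
    intro a ha hab
    exact hn1 β hβs ⟨a, ha, hab⟩ ⟨u0, hu0S, ball_mono (by omega) hu0β⟩
  have hout : ∀ a ∈ cl ω (GG Z s γ n) {Z.x}, a ∉ ball β' (38 * s') := by
    intro a ha hab
    exact hn2 β' hβs' ⟨a, ha, hab⟩ ⟨v0, hv0S, ball_mono (by omega) hv0β⟩
  -- the cluster in the universe misses the clusters of `y` and `T`
  have hmiss2 : ∀ a ∈ cl ω (GG Z s γ n) {Z.y}, a ∉ cl ω Z.W {Z.x} := by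
    intro a ha hax
    rcases sealed h hax with h1 | ⟨v, hv, hav⟩
    · exact Set.disjoint_left.1 hd12 h1 ha
    · exact (exit_far h hv hav).1 ha
  have hmiss3 : ∀ a ∈ cl ω (GG Z s γ n) Z.T, a ∉ cl ω Z.W {Z.x} := by
    intro a ha hax
    rcases sealed h hax with h1 | ⟨v, hv, hav⟩
    · exact Set.disjoint_left.1 hd13 h1 ha
    · exact (exit_far h hv hav).2 ha
  refine ⟨?_, ?_, ?_, ?_⟩
  · obtain ⟨a, ha, haL⟩ := hL
    exact ⟨a, cl_mono (GG_sub_W h.hg) ha, haL⟩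
  · rw [Set.disjoint_left]
    intro p hp hpz
    rcases sealed h hp with hp1 | ⟨v, hv, hpv⟩
    · have hpG : p ∈ GG Z s γ n := cl_sub hp1
      rw [mem_GG] at hpG
      rcases hpG with hB | hD | hzn
      · rw [mem_B] at hB
        have h1 := hg'.inner p hpz (by omega)
        exact hin p hp1 (ball_mono (by omega) h1)
      · have hD' := Z.hD p hD
        have h1 := hg'.outer p hpz (by omega)
        exact hout p hp1 (ball_mono (by omega) h1)
      · exact hsep p hpz p hzn (mem_ball_self p _)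
    · obtain ⟨-, hc⟩ := exit_cases h hv
      have hp1 := nrm_le_of_mem_ball hpv
      have hp2 := le_nrm_of_mem_ball hpv
      push_cast at hp1 hp2
      rcases hc with hzn | hsp | ⟨hD, -⟩
      · exact hsep p hpz v hzn (ball_mono (by omega) hpv)
      · have hnv := nrm_sphere hsp
        push_cast at hnv
        have h1 := hg'.inner p hpz (by omega)
        have h2 := ball_trans h1 (mem_ball_comm.1 hpv)
        exact hin v hv.1 (ball_mono (by omega) h2)
      · have hD' := Z.hD v hD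
        have h1 := hg'.outer p hpz (by omega)
        have h2 := ball_trans h1 (mem_ball_comm.1 hpv)
        exact hout v hv.1 (ball_mono (by omega) h2)
  · refine ⟨u0, hu0β, ?_⟩
    have h1 := conn_in_cl (mem_cl_iff.1 hu0S) (mem_cl_self (ω := ω) (y_mem_GG Z s n γ))
    exact h1.mono_set fun a ha => ⟨hS2 ha, hmiss2 a ha⟩
  · obtain ⟨w, hw, hwv⟩ := hv0S
    refine ⟨w, hw, v0, hv0β, ?_⟩
    have hwS : w ∈ cl ω (GG Z s γ n) Z.T := ⟨w, hw, Conn.refl hwv.mem_left⟩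
    have h1 := conn_in_cl hwv hwS
    exact h1.mono_set fun a ha => ⟨hS3 ha, hmiss3 a ha⟩

end Pool.Agent.H57.EX

end

section

/-!
# First landing
-/

open MeasureTheory ProbabilityTheory unitInterval

namespace Pool.Agent.H57.EX

open Pool.Agent.H89.Perc Pool.Agent.H61.NC Pool.Agent.H29.Sep

/-- First landing. -/
theorem det1 {Z : Dat} {s : ℕ} {N N' : Finset Vert} (hN : IsNet N (4 * Z.m) s)
    (hN' : IsNet N' (16 * Z.m) s) :
    Four Z.x Z.y (4 * Z.m) ∩ Out Z.D Z.L Z.T (16 * Z.m) ⊆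
      (Four Z.x Z.y (4 * Z.m) ∩ Out Z.D Z.L Z.T (16 * Z.m) ∩
        (NearIn Z (38 * s) ∪ NearOut Z (38 * s))) ∪ ⋃ b ∈ N, ⋃ b' ∈ N', E0 Z s b b' := by
  intro ω hω
  by_cases hnear : ω ∈ NearIn Z (38 * s) ∪ NearOut Z (38 * s)
  · exact Or.inl ⟨hω, hnear⟩
  · right
    obtain ⟨⟨⟨u0, hu0, hxu⟩, ⟨u1, hu1, hyu⟩, hxy⟩, ⟨u, hu, v, hv, huv, hT⟩, w, hw, v', hv', hwv⟩ :=
      hω
    obtain ⟨b, hb, hub⟩ := hN.cov u0 hu0
    obtain ⟨b', hb', hvb⟩ := hN'.cov v hv
    have hs : s ≤ 38 * s := by omega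
    have hucl : u ∉ cl ω Z.D Z.T := by
      rintro ⟨a, ha, hau⟩
      exact hT a ha hau.symm
    simp only [Set.mem_iUnion]
    refine ⟨b, hb, b', hb', ⟨u0, hub, hxu⟩, ?_, ⟨u, hu, hucl, v, hvb, huv⟩,
      ⟨u1, mem_cl_iff.2 hyu, hu1⟩, ⟨v', ⟨w, hw, hwv⟩, hv'⟩, ?_, ?_⟩
    · intro h
      exact hxy (mem_cl_iff.1 h).symm
    · by_contra hd
      rw [Set.not_disjoint_iff] at hd
      obtain ⟨a, ha, hab⟩ := hd
      exact hnear (Or.inl ⟨b, hN.sub b hb, ⟨u0, mem_cl_iff.2 hxu, ball_mono hs hub⟩, ⟨a, ha, hab⟩⟩)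
    · by_contra hd
      rw [Set.not_disjoint_iff] at hd
      obtain ⟨a, ha, hab⟩ := hd
      exact hnear (Or.inr ⟨b', hN'.sub b' hb', u, hu, hucl,
        ⟨v, mem_cl_iff.2 huv, ball_mono hs hvb⟩, ⟨a, ha, hab⟩⟩)

end Pool.Agent.H57.EX

end

section

/-!
# Sealing of the first cluster
-/

open MeasureTheory ProbabilityTheory unitInterval

namespace Pool.Agent.H57.EX

open Pool.Agent.H89.Perc Pool.Agent.H61.NC Pool.Agent.H29.Sep

private lemma stage2a_seal_sub {Z : Dat} {s : ℕ} {V : Finset Vert} {G S1 S2 S3 : Set Vert} :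
    {ω | ∀ v ∈ V, ω ∉ ArmBox v s (3 * s)} ⊆ SealP Z s V G S1 S2 S3 :=
  fun ω hω => ⟨ω, fun _ _ => rfl, fun v hv _ => hω v hv⟩

private lemma stage2a_local {Z : Dat} {s : ℕ} {V : Finset Vert} {G S1 S2 S3 : Set Vert}
    [DecidableEq Edge] :
    LocalOn ((V.biUnion fun v => eRect (v.1 - (3 * s : ℕ)) (v.1 + (3 * s : ℕ))
      (v.2 - (3 * s : ℕ)) (v.2 + (3 * s : ℕ))) \ touch (eIn Z.R G) (S1 ∪ S2 ∪ S3))
      (SealP Z s V G S1 S2 S3) := by
  intro ω ω₂ hω hA
  obtain ⟨ω', h1, h2⟩ := hA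
  refine ⟨fun e => if e ∈ touch (eIn Z.R G) (S1 ∪ S2 ∪ S3) then ω' e else ω₂ e, ?_, ?_⟩
  · intro e he
    simp only [if_neg he]
  · intro v hv hne hcon
    refine h2 v hv hne ?_
    refine localOn_armBox v s (3 * s) _ _ (fun e he => ?_) hcon
    split_ifs with he'
    · rfl
    · rw [h1 e he', hω e]
      exact Finset.mem_sdiff.2 ⟨Finset.mem_biUnion.2 ⟨v, hv, he⟩, he'⟩

private lemma stage2a_noarm_local {s : ℕ} {V : Finset Vert} [DecidableEq Edge] :
    LocalOn (V.biUnion fun v => eRect (v.1 - (3 * s : ℕ)) (v.1 + (3 * s : ℕ))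
      (v.2 - (3 * s : ℕ)) (v.2 + (3 * s : ℕ))) {ω | ∀ v ∈ V, ω ∉ ArmBox v s (3 * s)} := by
  intro ω ω' hω hA v hv hcon
  refine hA v hv (localOn_armBox v s (3 * s) _ _ (fun e he => ?_) hcon)
  exact (hω e (Finset.mem_biUnion.2 ⟨v, hv, he⟩)).symm

private lemma stage2a_noarm_incr {s : ℕ} {V : Finset Vert} :
    Incr {ω | ∀ v ∈ V, ω ∉ ArmBox v s (3 * s)}ᶜ := by
  intro ω ω' hω hA hB
  refine hA fun v hv hcon => hB v hv (incr_armBox v s (3 * s) ω ω' hω hcon)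

/-- Sealing, for any condition `P` on the values of the three clusters. -/
theorem stage2a {Z : Dat} {s : ℕ} {V : Finset Vert} {G : Set Vert} (hG : G ⊆ Z.W)
    (P : Set Vert → Set Vert → Set Vert → Prop) {q : I} {c : ℝ} (hc : 0 ≤ c)
    (hP : c ≤ Pr q {ω | ∀ v ∈ V, ω ∉ ArmBox v s (3 * s)}) :
    c * PrE q Z.E {ω | P (cl ω G {Z.x}) (cl ω G {Z.y}) (cl ω G Z.T)} ≤
      PrE q Z.E ({ω | P (cl ω G {Z.x}) (cl ω G {Z.y}) (cl ω G Z.T)} ∩ Seal Z s V G) := by
  classical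
  have hGR : G ⊆ ball 0 Z.R := hG.trans Z.hWR
  have hfin : G.Finite := by
    refine Set.Finite.subset (Set.Finite.subset
      (Finset.finite_toSet (Finset.Icc (-(Z.R : ℤ)) Z.R ×ˢ Finset.Icc (-(Z.R : ℤ)) Z.R)) ?_) hGR
    intro v hv
    simp only [ball, rect, Set.mem_ofPred_eq, Prod.fst_zero, Prod.snd_zero, zero_sub, zero_add]
      at hv
    simp only [Finset.coe_product, Finset.coe_Icc, Set.mem_prod, Set.mem_Icc]
    omega
  set Q : Finset (Set Vert) := hfin.finite_subsets.toFinset with hQ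
  have hmemQ : ∀ S : Set Vert, S ∈ Q ↔ S ⊆ G := by
    intro S
    rw [hQ, Set.Finite.mem_toFinset]
    rfl
  set F : Finset (Set Vert × Set Vert × Set Vert) :=
    (Q ×ˢ Q ×ˢ Q).filter (fun i => P i.1 i.2.1 i.2.2) with hF
  set X : Set Vert × Set Vert × Set Vert → Set Config :=
    fun i => {ω | cl ω G {Z.x} = i.1} ∩ ({ω | cl ω G {Z.y} = i.2.1} ∩ {ω | cl ω G Z.T = i.2.2})
    with hX
  set tX : Set Vert × Set Vert × Set Vert → Finset Edge :=
    fun i => touch (eIn Z.R G) (i.1 ∪ i.2.1 ∪ i.2.2) with htX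
  set tO : Set Vert × Set Vert × Set Vert → Finset Edge :=
    fun i => (V.biUnion fun v => eRect (v.1 - (3 * s : ℕ)) (v.1 + (3 * s : ℕ))
      (v.2 - (3 * s : ℕ)) (v.2 + (3 * s : ℕ))) \ tX i with htO
  set O : Set Vert × Set Vert × Set Vert → Set Config :=
    fun i => SealP Z s V G i.1 i.2.1 i.2.2 with hO
  have hmemE : ∀ e, src e ∈ G → tgt e ∈ G → e ∈ eIn Z.R G :=
    fun e h1 h2 => (mem_eIn hGR).2 ⟨h1, h2⟩
  have htouch : ∀ S S' : Set Vert, S ⊆ S' → touch (eIn Z.R G) S ⊆ touch (eIn Z.R G) S' := by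
    intro S S' hSS e he
    rw [mem_touch] at he ⊢
    exact ⟨he.1, he.2.imp (fun h => hSS h) (fun h => hSS h)⟩
  have key := cond_indepE (q := q) (E := Z.E) F X O tX tO hc
    (by
      intro i _ j _ hij
      rw [Set.disjoint_left]
      rintro ω ⟨h1, h2, h3⟩ ⟨h4, h5, h6⟩
      refine hij ?_
      simp only [Set.mem_ofPred_eq] at h1 h2 h3 h4 h5 h6
      exact Prod.ext (h1.symm.trans h4) (Prod.ext (h2.symm.trans h5) (h3.symm.trans h6)))
    (by
      intro i _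
      refine LocalOn.inter ?_ (LocalOn.inter ?_ ?_)
      · exact (localOn_cl hmemE).mono (htouch _ _ fun v hv => Or.inl (Or.inl hv))
      · exact (localOn_cl hmemE).mono (htouch _ _ fun v hv => Or.inl (Or.inr hv))
      · exact (localOn_cl hmemE).mono (htouch _ _ fun v hv => Or.inr hv))
    (by
      intro i _
      exact stage2a_local)
    (by
      intro i _
      exact Finset.disjoint_sdiff)
    (by
      intro i _
      exact hP.trans ((le_PrE_of_decr stage2a_noarm_local stage2a_noarm_incr).trans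
        (PrE_mono stage2a_seal_sub)))
  refine (mul_le_mul_of_nonneg_left (PrE_mono ?_) hc).trans (key.trans (PrE_mono ?_))
  · intro ω hω
    simp only [Set.mem_iUnion]
    refine ⟨(cl ω G {Z.x}, cl ω G {Z.y}, cl ω G Z.T), ?_, rfl, rfl, rfl⟩
    rw [hF, Finset.mem_filter]
    refine ⟨?_, hω⟩
    simp only [Finset.mem_product, hmemQ]
    exact ⟨cl_sub, cl_sub, cl_sub⟩
  · intro ω hω
    simp only [Set.mem_iUnion] at hω
    obtain ⟨i, hi, ⟨h1, h2, h3⟩, h4⟩ := hω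
    rw [hF, Finset.mem_filter] at hi
    simp only [Set.mem_ofPred_eq] at h1 h2 h3
    refine ⟨?_, ?_⟩
    · change P (cl ω G {Z.x}) (cl ω G {Z.y}) (cl ω G Z.T)
      rw [h1, h2, h3]
      exact hi.2
    · change ω ∈ SealP Z s V G (cl ω G {Z.x}) (cl ω G {Z.y}) (cl ω G Z.T)
      rw [h1, h2, h3]
      exact h4

end Pool.Agent.H57.EX

end

section

/-!
# The standard data: deterministic facts
-/

open MeasureTheory ProbabilityTheory unitInterval

namespace Pool.Agent.H57.EX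

open Pool.Agent.H89.Perc Pool.Agent.H61.NC Pool.Agent.H29.Sep

variable {m R : ℕ} {L T : Set Vert} {hm : 10 ≤ m} {hR : 64 * m ≤ R} {hL : L ⊆ sphere 0 R}
  {hT : T ⊆ sphere 0 R}

private theorem sd_mem_dom {v : Vert} {t R : ℕ} (ht : 1 ≤ t) :
    v ∈ dom t R ↔ nrm v ≤ R ∧ (t : ℤ) ≤ nrm v := by
  rw [dom, Set.mem_sdiff, mem_ball_zero, mem_ball_zero]
  constructor
  · rintro ⟨h1, h2⟩
    exact ⟨h1, by omega⟩
  · rintro ⟨h1, h2⟩
    exact ⟨h1, by omega⟩

private theorem sd_dom_anti {t t' R : ℕ} (ht : 1 ≤ t) (h : t ≤ t') : dom t' R ⊆ dom t R := by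
  intro v hv
  rw [sd_mem_dom (by omega)] at hv
  rw [sd_mem_dom ht]
  exact ⟨hv.1, by omega⟩

private theorem sd_diff_sub {t' R : ℕ} {G : Set Vert} (hG : G ⊆ ball 0 R) :
    G \ ball 0 (t' - 1) ⊆ dom t' R := fun _ hv => ⟨hG hv.1, hv.2⟩

theorem bd_std : (std m R L T hm hR hL hT).Bd = sphere 0 (16 * m) := by
  ext v
  constructor
  · rintro (h | ⟨hv, e, w, he, hw, hwD⟩)
    · exact h
    · change v ∈ dom (16 * m) R at hv
      change w ∈ ball 0 R at hw
      change w ∉ dom (16 * m) R at hwD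
      have hw' : w ∈ ball 0 (16 * m - 1) := by
        by_contra hc
        exact hwD ⟨hw, hc⟩
      rw [sd_mem_dom (by omega)] at hv
      rw [mem_ball_zero] at hw'
      have h1 := nrm_le_of_mem_ball (joins_ball (joins_symm he))
      rw [mem_sphere_zero]
      have h2 := hv.2
      push_cast at h1 h2 ⊢
      omega
  · intro h
    exact Or.inl h

theorem out_eq_BT (t : ℕ) : Out (dom t R) L T t = BT t R L T := rfl

private theorem sd_reach {ω : Config} {G : Set Vert} {t' R : ℕ} {p u : Vert} (ht : 1 ≤ t')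
    (hG : G ⊆ ball 0 R) (hc : Conn ω G p u) (hp : nrm p ≤ t') (hu : (t' : ℤ) ≤ nrm u) :
    ∃ v ∈ sphere 0 t', Conn ω (dom t' R) u v := by
  have hu' : u ∉ ball 0 (t' - 1) := by
    rw [mem_ball_zero]
    omega
  obtain ⟨v, hv, hc'⟩ := leave_sphere ht hc (mem_ball_zero.2 hp) hu'
  exact ⟨v, hv, (hc'.mono_set (sd_diff_sub hG)).symm⟩

theorem BT_mono {t t' : ℕ} (h1 : 1 ≤ t) (h : t ≤ t') (h' : t' ≤ R) (hL : L ⊆ sphere 0 R)
    (hT : T ⊆ sphere 0 R) : BT t R L T ⊆ BT t' R L T := by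
  rintro ω ⟨⟨u, huL, v, hv, hc, hn⟩, w, hwT, v', hv', hc'⟩
  have hsub : dom t R ⊆ ball 0 R := fun _ hx => hx.1
  rw [mem_sphere_zero] at hv hv'
  refine ⟨?_, ?_⟩
  · have hu := mem_sphere_zero.1 (hL huL)
    obtain ⟨v1, hv1, hc1⟩ := sd_reach (t' := t') (by omega) hsub hc.symm (by omega) (by omega)
    exact ⟨u, huL, v1, hv1, hc1, fun x hx hcx => hn x hx (hcx.mono_set (sd_dom_anti h1 h))⟩
  · have hw := mem_sphere_zero.1 (hT hwT)
    obtain ⟨v1, hv1, hc1⟩ := sd_reach (t' := t') (by omega) hsub hc'.symm (by omega) (by omega)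
    exact ⟨w, hwT, v1, hv1, hc1⟩

private theorem sd_GG_sub {s n : ℕ} {γ : ℕ → Vert} (hz : zone γ n s ⊆ ball 0 (17 * m)) :
    GG (std m R L T hm hR hL hT) s γ n ⊆ ball 0 R := by
  rintro v ((hv | hv) | hv)
  · change v ∈ ball 0 (4 * m) at hv
    rw [mem_ball_zero] at hv ⊢
    push_cast at hv
    omega
  · exact hv.1
  · have := hz hv
    rw [mem_ball_zero] at this ⊢
    push_cast at this
    omega

private theorem sd_dom_GG {s n : ℕ} {γ : ℕ → Vert} :
    dom (64 * m) R ⊆ GG (std m R L T hm hR hL hT) s γ n := by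
  intro v hv
  refine Or.inl (Or.inr ?_)
  exact sd_dom_anti (t := 16 * m) (t' := 64 * m) (by omega) (by omega) hv

theorem e1_BT {s n : ℕ} {γ : ℕ → Vert} {b b' : Vert} (hz : zone γ n s ⊆ ball 0 (17 * m)) :
    E1 (std m R L T hm hR hL hT) s b b' (GG (std m R L T hm hR hL hT) s γ n) ⊆
      BT (64 * m) R L T := by
  rintro ω ⟨⟨u, hu1, huL⟩, _, ⟨p, hp3, hp⟩, _, _, _, _, _, hd⟩
  have hGs := sd_GG_sub (m := m) (R := R) (L := L) (T := T) (hm := hm) (hR := hR) (hL := hL)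
    (hT := hT) (γ := γ) (n := n) (s := s) hz
  set G := GG (std m R L T hm hR hL hT) s γ n with hG
  change u ∈ L at huL
  change p ∈ sphere 0 (16 * m) at hp
  have huR := mem_sphere_zero.1 (hL huL)
  rw [mem_sphere_zero] at hp
  have hxu : Conn ω G 0 u := mem_cl_iff.1 hu1
  obtain ⟨w, hwT, hwp⟩ := hp3
  change w ∈ T at hwT
  have hwR := mem_sphere_zero.1 (hT hwT)
  refine ⟨?_, ?_⟩
  · obtain ⟨v, hv, hc⟩ := sd_reach (t' := 64 * m) (by omega) hGs hxu
      (by simp [nrm]) (by push_cast; omega)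
    refine ⟨u, huL, v, hv, hc, ?_⟩
    intro x hx hcx
    have h1 : Conn ω G x u := (hcx.mono_set sd_dom_GG).symm
    have h2 : u ∈ cl ω G T := ⟨x, hx, h1⟩
    exact Set.disjoint_left.1 hd hu1 h2
  · obtain ⟨v, hv, hc⟩ := sd_reach (t' := 64 * m) (by omega) hGs hwp.symm
      (by push_cast at hp ⊢; omega) (by push_cast; omega)
    exact ⟨w, hwT, v, hv, hc⟩

theorem fin_sub {s n : ℕ} {γ : ℕ → Vert} (hz : zone γ n s ⊆ ball 0 (17 * m)) :
    Fin (std m R L T hm hR hL hT) s γ n ⊆ Four 0 (1, 0) R := by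
  rintro ω ⟨⟨u, hu, huL⟩, w, hwT, hc⟩
  have hGs := sd_GG_sub (m := m) (R := R) (L := L) (T := T) (hm := hm) (hR := hR) (hL := hL)
    (hT := hT) (γ := γ) (n := n) (s := s) hz
  refine ⟨⟨u, hL huL, mem_cl_iff.1 hu⟩, ⟨w, hT hwT, hc.mono_set (fun v hv => hGs hv.1)⟩, ?_⟩
  intro h
  exact hc.mem_left.2 (mem_cl_iff.2 h)

/-- The four-arm probability. -/
theorem a4_eq (q : I) (r : ℕ) : a4 q r = PrE q {(0, 0, false)} (Four 0 (1, 0) r) := by
  have hs : src (0, 0, false) = 0 := rfl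
  have ht : tgt (0, 0, false) = (1, 0) := rfl
  have hcl : ∀ ω : Config, close (0, 0, false) ω = shut {(0, 0, false)} ω := by
    intro ω
    funext e
    unfold close shut
    by_cases h : e = (0, 0, false)
    · rw [h, Function.update_self]
      simp
    · rw [Function.update_of_ne h]
      simp [h]
  unfold a4 PrE
  congr 1
  ext ω
  simp only [A4, Four, Set.mem_ofPred_eq, hs, ht, hcl]

/-- The terminals are far from the outer sphere. -/
theorem far_std {z v : Vert} {ρ : ℕ} (hρ : ρ ≤ 2 * m) (hR : 64 * m ≤ R) (hm : 10 ≤ m)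
    (hz : z ∈ sphere 0 (16 * m)) (hv : v ∈ sphere 0 R) : v ∉ ball z ρ := by
  intro h
  have h1 := nrm_le_of_mem_ball h
  rw [mem_sphere_zero] at hz hv
  push_cast at hz
  omega

end Pool.Agent.H57.EX

end

section

/-!
# The standard data: probability of the bad events
-/

open MeasureTheory ProbabilityTheory unitInterval

namespace Pool.Agent.H57.EX

open Pool.Agent.H89.Perc Pool.Agent.H61.NC Pool.Agent.H29.Sep

/-- Connections inside `S` only look at the edges inside `S`. -/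
private theorem conn_iff_of_local {s : Finset Edge} {S : Set Vert} {ω ω' : Config}
    (hs : ∀ e, src e ∈ S → tgt e ∈ S → e ∈ s) (h : ∀ e ∈ s, ω e = ω' e) (u v : Vert) :
    Conn ω S u v ↔ Conn ω' S u v :=
  ⟨Conn.congr fun e h1 h2 => h e (hs e h1 h2),
    Conn.congr fun e h1 h2 => (h e (hs e h1 h2)).symm⟩

private theorem localOn_locTwo_aux {s : Finset Edge} {Z D : Set Vert} {t ρ : ℕ}
    (hs : ∀ z ∈ Z, ∀ e, src e ∈ D ∩ ball z ρ → tgt e ∈ D ∩ ball z ρ → e ∈ s) :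
    LocalOn s {ω | ∃ z ∈ Z, ω ∈ LocTwo D z t ρ} := by
  rintro ω ω' h ⟨z, hz, u, hu, u', hu', v, hv, v', hv', h1, h2, h3⟩
  refine ⟨z, hz, u, hu, u', hu', v, hv, v', hv', ?_, ?_, ?_⟩
  · exact (conn_iff_of_local (hs z hz) h _ _).1 h1
  · exact (conn_iff_of_local (hs z hz) h _ _).1 h2
  · exact fun h4 => h3 ((conn_iff_of_local (hs z hz) h _ _).2 h4)

private theorem dom_subset {t R : ℕ} : dom t R ⊆ ball 0 R := fun _ h => h.1

theorem localOn_four {x y : Vert} {r : ℕ} : LocalOn (eIn r (ball 0 r)) (Four x y r) := by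
  have hs : ∀ e, src e ∈ ball 0 r → tgt e ∈ ball 0 r → e ∈ eIn r (ball 0 r) :=
    fun e h1 h2 => (mem_eIn subset_rfl).2 ⟨h1, h2⟩
  rintro ω ω' h ⟨⟨u, hu, h1⟩, ⟨u', hu', h2⟩, h3⟩
  refine ⟨⟨u, hu, ?_⟩, ⟨u', hu', ?_⟩, ?_⟩
  · exact (conn_iff_of_local hs h _ _).1 h1
  · exact (conn_iff_of_local hs h _ _).1 h2
  · exact fun h4 => h3 ((conn_iff_of_local hs h _ _).2 h4)

theorem localOn_BT {t R : ℕ} {L T : Set Vert} : LocalOn (eIn R (dom t R)) (BT t R L T) := by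
  have hs : ∀ e, src e ∈ dom t R → tgt e ∈ dom t R → e ∈ eIn R (dom t R) :=
    fun e h1 h2 => (mem_eIn dom_subset).2 ⟨h1, h2⟩
  rintro ω ω' h ⟨⟨u, hu, v, hv, h1, h2⟩, w, hw, v', hv', h3⟩
  refine ⟨⟨u, hu, v, hv, (conn_iff_of_local hs h _ _).1 h1, ?_⟩, w, hw, v', hv',
    (conn_iff_of_local hs h _ _).1 h3⟩
  exact fun w hw h4 => h2 w hw ((conn_iff_of_local hs h _ _).2 h4)

theorem localOn_locTwo_in {m t ρ : ℕ} (hρ : ρ ≤ 2 * m) :
    LocalOn (eIn (4 * m) (dom (2 * m) (4 * m)))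
      {ω | ∃ z ∈ sphere 0 (4 * m), ω ∈ LocTwo (ball 0 (4 * m)) z t ρ} := by
  apply localOn_locTwo_aux
  rintro z hz e ⟨h1, h2⟩ ⟨h3, h4⟩
  rw [mem_eIn dom_subset]
  rw [mem_sphere_zero] at hz
  rcases Nat.eq_zero_or_pos m with hm | hm
  · exfalso
    subst hm
    simp only [mem_ball, Prod.fst_zero, Prod.snd_zero, Nat.mul_zero, Nat.cast_zero] at h1 h3
    have h5 : (src e).1 = (tgt e).1 := by omega
    have h6 : (src e).2 = (tgt e).2 := by omega
    unfold src tgt at h5 h6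
    split_ifs at h5 h6 <;> simp at h5 h6
  · have key : ∀ v, v ∈ ball 0 (4 * m) → v ∈ ball z ρ → v ∈ dom (2 * m) (4 * m) := by
      intro v hv hv'
      refine ⟨hv, fun h => ?_⟩
      have h5 := le_nrm_of_mem_ball hv'
      rw [mem_ball_zero] at h
      push_cast at hz h
      omega
    exact ⟨key _ h1 h2, key _ h3 h4⟩

theorem localOn_locTwo_out {m R t ρ : ℕ} (hρ : ρ ≤ 2 * m) :
    LocalOn (eIn (18 * m) (dom (16 * m) (18 * m)))
      {ω | ∃ z ∈ sphere 0 (16 * m), ω ∈ LocTwo (dom (16 * m) R) z t ρ} := by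
  apply localOn_locTwo_aux
  rintro z hz e ⟨h1, h2⟩ ⟨h3, h4⟩
  rw [mem_eIn dom_subset]
  rw [mem_sphere_zero] at hz
  have key : ∀ v, v ∈ dom (16 * m) R → v ∈ ball z ρ → v ∈ dom (16 * m) (18 * m) := by
    intro v hv hv'
    refine ⟨?_, hv.2⟩
    have h5 := nrm_le_of_mem_ball hv'
    rw [mem_ball_zero]
    push_cast at hz ⊢
    omega
  exact ⟨key _ h1 h2, key _ h3 h4⟩

/-- The two local events in the domains of `BadOut` and of the standard data are the same. -/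
theorem locTwo_out_eq {m R t ρ : ℕ} (hR : 64 * m ≤ R) (hρ : ρ ≤ 2 * m) {z : Vert}
    (hz : z ∈ sphere 0 (16 * m)) :
    LocTwo (dom (16 * m) R) z t ρ = LocTwo (ball 0 (16 * m - 1))ᶜ z t ρ := by
  have key : dom (16 * m) R ∩ ball z ρ = (ball 0 (16 * m - 1))ᶜ ∩ ball z ρ := by
    ext v
    constructor
    · rintro ⟨h1, h2⟩
      exact ⟨h1.2, h2⟩
    · rintro ⟨h1, h2⟩
      refine ⟨⟨?_, h1⟩, h2⟩
      have h5 := nrm_le_of_mem_ball h2
      rw [mem_sphere_zero] at hz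
      rw [mem_ball_zero]
      push_cast at hz
      omega
  unfold LocTwo
  rw [key]

/-- Edges of two domains at different distances. -/
private theorem eIn_disjoint {R R' : ℕ} {D D' : Set Vert} (h : D ⊆ ball 0 R) (h' : D' ⊆ ball 0 R')
    (hd : ∀ v, v ∈ D → v ∉ D') : Disjoint (eIn R D) (eIn R' D') := by
  rw [Finset.disjoint_left]
  intro e he he'
  rw [mem_eIn h] at he
  rw [mem_eIn h'] at he'
  exact hd _ he.1 he'.1

private theorem eIn_disjoint_edge {R : ℕ} {D : Set Vert} (h : D ⊆ ball 0 R)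
    (hd : (0 : Vert) ∉ D) : Disjoint (eIn R D) {(0, 0, false)} := by
  rw [Finset.disjoint_singleton_right]
  intro he
  rw [mem_eIn h] at he
  exact hd he.1

private theorem zero_notMem_dom {t R : ℕ} : (0 : Vert) ∉ dom t R := by
  intro h
  apply h.2
  simp only [mem_ball, Prod.fst_zero, Prod.snd_zero]
  omega

private theorem four_bt_bad {m R r₁ t₁ : ℕ} {L T : Set Vert} {q : I} {A : Set Config} (hm : 10 ≤ m)
    (h1 : m < t₁) (h2 : r₁ < 64 * m)
    (hA : LocalOn (eIn r₁ (dom t₁ r₁)) A) :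
    PrE q {(0, 0, false)} (Four 0 (1, 0) m ∩ BT (64 * m) R L T ∩ A) =
      a4 q m * Pr q (BT (64 * m) R L T) * Pr q A := by
  classical
  have d1 : Disjoint (eIn m (ball 0 m)) (eIn r₁ (dom t₁ r₁)) := by
    apply eIn_disjoint subset_rfl dom_subset
    intro v hv hv'
    apply hv'.2
    exact ball_mono (by omega) hv
  have d2 : Disjoint (eIn m (ball 0 m)) (eIn R (dom (64 * m) R)) := by
    apply eIn_disjoint subset_rfl dom_subset
    intro v hv hv'
    apply hv'.2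
    exact ball_mono (by omega) hv
  have d3 : Disjoint (eIn R (dom (64 * m) R)) (eIn r₁ (dom t₁ r₁)) := by
    apply eIn_disjoint dom_subset dom_subset
    intro v hv hv'
    apply hv.2
    exact ball_mono (by omega) hv'.1
  have hFB : LocalOn (eIn m (ball 0 m) ∪ eIn R (dom (64 * m) R))
      (Four 0 (1, 0) m ∩ BT (64 * m) R L T) := localOn_four.inter' localOn_BT
  rw [PrE_inter hFB hA (Finset.disjoint_union_left.2 ⟨d1, d3⟩),
    PrE_inter localOn_four localOn_BT d2, a4_eq,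
    PrE_eq localOn_BT (eIn_disjoint_edge dom_subset zero_notMem_dom),
    PrE_eq hA (eIn_disjoint_edge dom_subset zero_notMem_dom)]

/-- Probability of the bad events together with four arms inside and outside. -/
theorem bad_std (hI : BadIn) (hO : BadOut) : ∀ c : ℝ, 0 < c → ∃ C κ : ℝ, 0 < C ∧ 0 < κ ∧
    ∀ (m R n t ρ : ℕ) (q : I) (L T : Set Vert), 10 ≤ m → 64 * m ≤ R → R ≤ n →
      RSWreg c n q → 1 ≤ t → t ≤ ρ → ρ ≤ 2 * m →
      PrE q {(0, 0, false)} (Four 0 (1, 0) m ∩ BT (64 * m) R L T ∩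
          ({ω | ∃ z ∈ sphere 0 (4 * m), ω ∈ LocTwo (ball 0 (4 * m)) z t ρ} ∪
            {ω | ∃ z ∈ sphere 0 (16 * m), ω ∈ LocTwo (dom (16 * m) R) z t ρ})) ≤
        C * ((m : ℝ) / ρ) * ((t : ℝ) / ρ) ^ κ * (a4 q m * Pr q (BT (64 * m) R L T)) := by
  intro c hc
  obtain ⟨C₁, κ₁, hC₁, hκ₁, H₁⟩ := hI c hc
  obtain ⟨C₂, κ₂, hC₂, hκ₂, H₂⟩ := hO c hc
  refine ⟨4 * C₁ + 16 * C₂, min κ₁ κ₂, by positivity, lt_min hκ₁ hκ₂, ?_⟩
  intro m R n t ρ q L T hm hR hn hreg ht htρ hρ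
  have hρ0 : (0 : ℝ) < ρ := by
    have : 0 < ρ := by omega
    exact_mod_cast this
  have ht0 : (0 : ℝ) < t := by
    have : 0 < t := by omega
    exact_mod_cast this
  have hx0 : (0 : ℝ) < (t : ℝ) / ρ := div_pos ht0 hρ0
  have hx1 : (t : ℝ) / ρ ≤ 1 := by
    rw [div_le_one hρ0]
    exact_mod_cast htρ
  have ha4 : 0 ≤ a4 q m * Pr q (BT (64 * m) R L T) := mul_nonneg Pr_nonneg Pr_nonneg
  have hpw₁ : ((t : ℝ) / ρ) ^ κ₁ ≤ ((t : ℝ) / ρ) ^ (min κ₁ κ₂) :=
    Real.rpow_le_rpow_of_exponent_ge hx0 hx1 (min_le_left _ _)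
  have hpw₂ : ((t : ℝ) / ρ) ^ κ₂ ≤ ((t : ℝ) / ρ) ^ (min κ₁ κ₂) :=
    Real.rpow_le_rpow_of_exponent_ge hx0 hx1 (min_le_right _ _)
  have e1 : Pr q {ω | ∃ z ∈ sphere 0 (4 * m), ω ∈ LocTwo (ball 0 (4 * m)) z t ρ} ≤
      4 * C₁ * ((m : ℝ) / ρ) * ((t : ℝ) / ρ) ^ (min κ₁ κ₂) := by
    have h := H₁ n t ρ (4 * m) q ht htρ (by omega) (by omega) hreg
    refine h.trans ?_
    have h2 : C₁ * (((4 * m : ℕ) : ℝ) / ρ) = 4 * C₁ * ((m : ℝ) / ρ) := by
      push_cast
      ring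
    rw [h2]
    exact mul_le_mul_of_nonneg_left hpw₁ (by positivity)
  have e2 : Pr q {ω | ∃ z ∈ sphere 0 (16 * m), ω ∈ LocTwo (dom (16 * m) R) z t ρ} ≤
      16 * C₂ * ((m : ℝ) / ρ) * ((t : ℝ) / ρ) ^ (min κ₁ κ₂) := by
    have h := H₂ n t ρ (16 * m) q ht htρ (by omega) (by omega) hreg
    have h3 : {ω | ∃ z ∈ sphere 0 (16 * m), ω ∈ LocTwo (dom (16 * m) R) z t ρ} =
        {ω | ∃ z ∈ sphere 0 (16 * m), ω ∈ LocTwo (ball 0 (16 * m - 1))ᶜ z t ρ} := by
      ext ω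
      constructor
      · rintro ⟨z, hz, h⟩
        exact ⟨z, hz, locTwo_out_eq hR hρ hz ▸ h⟩
      · rintro ⟨z, hz, h⟩
        exact ⟨z, hz, (locTwo_out_eq hR hρ hz).symm ▸ h⟩
    rw [h3]
    refine h.trans ?_
    have h2 : C₂ * (((16 * m : ℕ) : ℝ) / ρ) = 16 * C₂ * ((m : ℝ) / ρ) := by
      push_cast
      ring
    rw [h2]
    exact mul_le_mul_of_nonneg_left hpw₂ (by positivity)
  rw [Set.inter_union_distrib_left]
  refine PrE_union_le.trans ?_
  rw [four_bt_bad hm (by omega) (by omega) (localOn_locTwo_in hρ),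
    four_bt_bad hm (by omega) (by omega) (localOn_locTwo_out hρ)]
  have := mul_le_mul_of_nonneg_left e1 ha4
  have := mul_le_mul_of_nonneg_left e2 ha4
  nlinarith

end Pool.Agent.H57.EX

end

section

/-!
# Near clusters give two clusters of a local domain
-/

open MeasureTheory ProbabilityTheory unitInterval

namespace Pool.Agent.H57.EX

open Pool.Agent.H89.Perc Pool.Agent.H61.NC Pool.Agent.H29.Sep

private lemma near_norm_center {v : Vert} {r : ℕ} (h : v ∈ ball 0 r) : nrm v ≤ r :=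
  mem_ball_zero.mp h

private lemma not_mem_of_far {x z : Vert} {ρ : ℕ} (h : nrm x + ρ < nrm z) : x ∉ ball z ρ := by
  intro hx
  have := le_nrm_of_mem_ball hx
  omega

/-- The common part of the three inclusions. -/
private lemma locTwo_of {ω : Config} {D : Set Vert} {z : Vert} {t ρ : ℕ} (ht : t ≤ ρ)
    {G : Set Vert} (hG : G ∩ ball z ρ ⊆ D) (hDG : D ⊆ G) {p p' a a' : Vert} (hp : p ∈ ball z t)
    (hp' : p' ∈ ball z t) (h1 : Conn ω G p a) (h2 : Conn ω G p' a') (ha : a ∉ ball z ρ)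
    (ha' : a' ∉ ball z ρ) (hn : ¬ Conn ω G p p') : ω ∈ LocTwo D z t ρ := by
  obtain ⟨v, hv, h3⟩ := reach_sphere h1 (ball_mono ht hp) (Or.inl ha)
  obtain ⟨v', hv', h4⟩ := reach_sphere h2 (ball_mono ht hp') (Or.inl ha')
  have hsub : G ∩ ball z ρ ⊆ D ∩ ball z ρ := fun w hw => ⟨hG hw, hw.2⟩
  refine ⟨p, hp, p', hp', v, hv, v', hv', h3.mono_set hsub, h4.mono_set hsub, fun h => hn ?_⟩
  exact h.mono_set fun w hw => hDG hw.1

theorem nearIn_sub {Z : Dat} {t ρ : ℕ} (ht : t ≤ ρ) (hρ : ρ ≤ 2 * Z.m) :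
    Four Z.x Z.y (4 * Z.m) ∩ NearIn Z t ⊆
      {ω | ∃ z ∈ sphere 0 (4 * Z.m), ω ∈ LocTwo (ball 0 (4 * Z.m)) z t ρ} := by
  rintro ω ⟨⟨-, -, hxy⟩, z, hz, ⟨p, hp, hpz⟩, ⟨p', hp', hpz'⟩⟩
  rw [mem_cl_iff] at hp hp'
  have hnz := mem_sphere_zero.mp hz
  have hx := near_norm_center Z.hx
  have hy := near_norm_center Z.hy
  have hm := Z.hm
  push_cast at hnz hx hy
  refine ⟨z, hz, locTwo_of ht (G := Z.B) (fun w hw => hw.1) (fun w hw => hw) hpz hpz' hp.symm
    hp'.symm (not_mem_of_far (by omega)) (not_mem_of_far (by omega)) fun h => hxy ?_⟩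
  exact (hp.trans h).trans hp'.symm

theorem nearOut_sub {Z : Dat} {t ρ : ℕ} (ht : t ≤ ρ)
    (hfar : ∀ z ∈ sphere 0 (16 * Z.m), ∀ v, v ∈ Z.L ∨ v ∈ Z.T → v ∉ ball z ρ) :
    NearOut Z t ⊆ {ω | ∃ z ∈ sphere 0 (16 * Z.m), ω ∈ LocTwo Z.D z t ρ} := by
  rintro ω ⟨z, hz, u, hu, huT, ⟨p, hp, hpz⟩, ⟨p', ⟨w, hw, hp'⟩, hpz'⟩⟩
  rw [mem_cl_iff] at hp
  refine ⟨z, hz, locTwo_of ht (G := Z.D) (fun w hw => hw.1) (fun w hw => hw) hpz hpz' hp.symm
    hp'.symm (hfar z hz u (Or.inl hu)) (hfar z hz w (Or.inr hw)) fun h => huT ?_⟩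
  exact ⟨w, hw, (hp'.trans h.symm).trans hp.symm⟩

theorem e1_nb_sub {Z : Dat} {s n : ℕ} {γ : ℕ → Vert} {b b' : Vert} {t ρ : ℕ}
    (hsm : 100 * s ≤ Z.m) (hg : ZGood Z.m s γ n b b') (ht : t ≤ ρ) (hρ : ρ ≤ 5 * s)
    (hfar : ∀ z ∈ Z.Bd, ∀ v ∈ Z.T, v ∉ ball z ρ) :
    E1 Z s b b' (GG Z s γ n) \ NB Z t (GG Z s γ n) ⊆
      {ω | ∃ z ∈ sphere 0 (4 * Z.m), ω ∈ LocTwo (ball 0 (4 * Z.m)) z t ρ} ∪
        {ω | ∃ z ∈ Z.Bd, ω ∈ LocTwo Z.D z t ρ} := by
  rintro ω ⟨⟨-, -, -, -, -, h2b, h3b, h12, h13⟩, hnb⟩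
  have hx := near_norm_center Z.hx
  have hm := Z.hm
  push_cast at hx
  have hnb' : ¬ ((∀ z ∈ sphere 0 (4 * Z.m), (cl ω (GG Z s γ n) {Z.x} ∩ ball z t).Nonempty →
      ¬ (cl ω (GG Z s γ n) {Z.y} ∩ ball z t).Nonempty) ∧
    ∀ z ∈ Z.Bd, (cl ω (GG Z s γ n) {Z.x} ∩ ball z t).Nonempty →
      ¬ (cl ω (GG Z s γ n) Z.T ∩ ball z t).Nonempty) := hnb
  rw [not_and_or] at hnb'
  push Not at hnb'
  -- a vertex of the zone near a point of the clusters contradicts `P1`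
  have hclose : ∀ {a p' z c : Vert}, a ∈ ball z ρ → p' ∈ ball z t → a ∈ ball c (20 * s) →
      p' ∈ ball c (38 * s) := by
    intro a p' z c h1 h2 h3
    have h4 := ball_trans (ball_trans h3 (mem_ball_comm.mp h1)) h2
    exact ball_mono (by omega) h4
  rcases hnb' with ⟨z, hz, ⟨p, hp, hpz⟩, ⟨p', hp', hpz'⟩⟩ | ⟨z, hz, ⟨p, hp, hpz⟩, ⟨p', hp', hpz'⟩⟩
  · left
    have hnz := mem_sphere_zero.mp hz
    push_cast at hnz
    have e1 := mem_cl_iff.mp hp
    have e2 := mem_cl_iff.mp hp'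
    have hy := near_norm_center Z.hy
    push_cast at hy
    refine ⟨z, hz, locTwo_of ht (G := GG Z s γ n) ?_ ?_ hpz hpz' e1.symm e2.symm
      (not_mem_of_far (by omega)) (not_mem_of_far (by omega)) fun h => ?_⟩
    · rintro a ⟨(ha | ha) | ha, haz⟩
      · exact ha
      · exfalso
        have h1 := Z.hD a ha
        have h2 := nrm_le_of_mem_ball haz
        omega
      · exfalso
        have h2 := nrm_le_of_mem_ball haz
        have h3 := hg.inner a ha (by omega)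
        exact Set.disjoint_left.mp h2b hp' (hclose haz hpz' h3)
    · exact fun w hw => Or.inl (Or.inl hw)
    · exact Set.disjoint_left.mp h12 (mem_cl_iff.mpr (e1.trans h)) hp'
  · right
    have hnz : 16 * (Z.m : ℤ) ≤ nrm z := by
      rcases hz with hz | hz
      · have := mem_sphere_zero.mp hz
        push_cast at this
        omega
      · exact Z.hD z hz.1
    have e1 := mem_cl_iff.mp hp
    obtain ⟨w, hw, e2⟩ := hp'
    refine ⟨z, hz, locTwo_of ht (G := GG Z s γ n) ?_ ?_ hpz hpz' e1.symm e2.symm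
      (not_mem_of_far (by omega)) (hfar z hz w hw) fun h => ?_⟩
    · rintro a ⟨(ha | ha) | ha, haz⟩
      · exfalso
        have h1 := mem_ball_zero.mp ha
        have h2 := le_nrm_of_mem_ball haz
        push_cast at h1
        omega
      · exact ha
      · exfalso
        have h2 := le_nrm_of_mem_ball haz
        have h3 := hg.outer a ha (by omega)
        exact Set.disjoint_left.mp h3b ⟨w, hw, e2⟩ (hclose haz hpz' h3)
    · exact fun w hw => Or.inl (Or.inr hw)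
    · exact Set.disjoint_left.mp h13 (mem_cl_iff.mpr (e1.trans h)) ⟨w, hw, e2⟩

theorem e1_four {Z : Dat} {s n : ℕ} {γ : ℕ → Vert} {b b' : Vert} :
    E1 Z s b b' (GG Z s γ n) ⊆ Four Z.x Z.y Z.m := by
  rintro ω ⟨⟨u, hu, huL⟩, ⟨u', hu', huS⟩, -, -, -, -, -, h12, -⟩
  have hm := Z.hm
  have hsub : ball 0 Z.m ⊆ GG Z s γ n := fun w hw => Or.inl (Or.inl (ball_mono (by omega) hw))
  have hx : Z.x ∈ ball 0 Z.m := ball_mono (by omega) Z.hx
  have hy : Z.y ∈ ball 0 Z.m := ball_mono (by omega) Z.hy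
  have hu1 : u ∉ ball 0 Z.m := by
    intro h
    have h1 := mem_ball_zero.mp h
    have h2 := (Z.hL u huL).2
    omega
  have hu2 : u' ∉ ball 0 Z.m := by
    intro h
    have h1 := mem_ball_zero.mp h
    have h2 := mem_sphere_zero.mp huS
    push_cast at h2
    omega
  obtain ⟨v, hv, h1⟩ := reach_sphere (mem_cl_iff.mp hu) hx (Or.inl hu1)
  obtain ⟨v', hv', h2⟩ := reach_sphere (mem_cl_iff.mp hu') hy (Or.inl hu2)
  refine ⟨⟨v, hv, h1.mono_set Set.inter_subset_right⟩, ⟨v', hv', h2.mono_set Set.inter_subset_right⟩,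
    fun h => ?_⟩
  exact Set.disjoint_left.mp h12 (mem_cl_iff.mpr (h.mono_set hsub)) (mem_cl_self (hsub hy))

theorem four_mono {x y : Vert} {r r' : ℕ} (hx : x ∈ ball 0 r) (hy : y ∈ ball 0 r) (h : r ≤ r') :
    Four x y r' ⊆ Four x y r := by
  rintro ω ⟨⟨u, hu, h1⟩, ⟨u', hu', h2⟩, h3⟩
  have key : ∀ u : Vert, u ∈ sphere 0 r' → u ∉ ball 0 r ∨ u ∈ sphere 0 r := by
    intro u hu
    have h4 := mem_sphere_zero.mp hu
    rcases h.eq_or_lt with h5 | h5
    · right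
      rw [h5]
      exact hu
    · left
      intro h6
      have := mem_ball_zero.mp h6
      omega
  obtain ⟨v, hv, h4⟩ := reach_sphere h1 hx (key u hu)
  obtain ⟨v', hv', h5⟩ := reach_sphere h2 hy (key u' hu')
  exact ⟨⟨v, hv, h4.mono_set Set.inter_subset_right⟩, ⟨v', hv', h5.mono_set Set.inter_subset_right⟩,
    fun h6 => h3 (h6.mono_set (ball_mono h))⟩

end Pool.Agent.H57.EX

end

section

/-!
# Probability of seals

`Seal G ρ t` contains the intersection over `g ∈ G` of the decreasing events no open path of the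
full configuration from `ball g ρ` to `sphere g (3 ρ)` (close more edges), each of probability at
least `c'` by `noarm_lower`; use `fkg_decr_many`.  The cardinality of `G` is bounded by `M`.
-/

open MeasureTheory ProbabilityTheory unitInterval

namespace Pool.Agent.H59.EX

open Pool.Agent.H89.Perc Pool.Agent.H61.NC

/-- Edges with both endpoints in `ball g r` (as a finite set). -/
private noncomputable def bE (g : Vert) (r : ℕ) : Finset Edge := by
  classical exact (eRect (g.1 - r) (g.1 + r) (g.2 - r) (g.2 + r)).filter (fun e => e ∈ inE (ball g r))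

private theorem mem_bE {g : Vert} {r : ℕ} {e : Edge} : e ∈ bE g r ↔ e ∈ inE (ball g r) := by
  classical
  simp only [bE, Finset.mem_filter, and_iff_right_iff_imp]
  intro h
  exact mem_eRect.2 h.1

private theorem sealprob_localOn_arm (g : Vert) (k r : ℕ) : LocalOn (bE g r) (ArmBox g k r)ᶜ := by
  refine LocalOn.compl ?_
  rintro ω ω' h ⟨w, hw, u, hu, hc⟩
  exact ⟨w, hw, u, hu, Conn.congr (fun e he he' => h e (mem_bE.2 ⟨he, he'⟩)) hc⟩

/-- A step out of a ball ends in the ball of radius one larger. -/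
private theorem step_ball_succ {ω : Config} {S : Set Vert} {g a b : Vert} {r : ℕ}
    (ha : a ∈ ball g r) (h : Step ω S a b) : b ∈ ball g (r + 1) := by
  have h1 := h.fst_le
  have h2 := h.snd_le
  rw [mem_ball] at ha ⊢
  push_cast
  omega

/-- `Seal` is a local event. -/
theorem localOn_seal (G : Finset Vert) (ρ : ℕ) : ∃ Λ : Finset Edge, ∀ t : Set Edge,
    LocalOn Λ (Seal G ρ t) := by
  classical
  refine ⟨G.biUnion fun g => bE g (3 * ρ + 1), fun t ω ω' h hω g hg u hu v hv hc => ?_⟩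
  have hu' : u ∈ ball g (3 * ρ) := by
    rw [mem_ball] at hu ⊢
    push_cast
    omega
  obtain ⟨w, w', h1, h2, h3, -⟩ := hc.exists_exit hu' hv
  have hw : w ∈ ball g (3 * ρ) := h1.mem_right.2
  have hw1 : w ∈ ball g (3 * ρ + 1) := by
    rw [mem_ball] at hw ⊢
    push_cast at hw ⊢
    omega
  have hw' : w' ∈ ball g (3 * ρ + 1) := step_ball_succ hw h2
  have hsub : Set.univ ∩ ball g (3 * ρ) ⊆ ball g (3 * ρ + 1) := by
    rintro z ⟨-, hz⟩
    rw [mem_ball] at hz ⊢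
    push_cast at hz ⊢
    omega
  have hc2 : Conn (closeS t ω') (ball g (3 * ρ + 1)) u w' :=
    (h1.mono_set hsub).tail ⟨hw1, hw', h2.2.2⟩
  have hc3 : Conn (closeS t ω) (ball g (3 * ρ + 1)) u w' := by
    refine Conn.congr (fun e he he' => ?_) hc2
    have := h e (Finset.mem_biUnion.2 ⟨g, hg, mem_bE.2 ⟨he, he'⟩⟩)
    simp only [closeS, this]
  exact hω g hg u hu w' h3 (hc3.mono_set (Set.subset_univ _))

theorem card_grid (ρ K : ℕ) : (grid ρ K).card ≤ (2 * K + 1) ^ 2 := by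
  classical
  refine Finset.card_image_le.trans ?_
  rw [Finset.card_product, Int.card_Icc, sq]
  have h : ((K : ℤ) + 1 - -(K : ℤ)).toNat = 2 * K + 1 := by omega
  rw [h]

/-- The intersection of the no-arm events is contained in the seal. -/
private theorem noarm_subset_seal (G : Finset Vert) (ρ : ℕ) (t : Set Edge) {ω : Config}
    (h : ∀ g ∈ G, ω ∈ (ArmBox g ρ (3 * ρ))ᶜ) : ω ∈ Seal G ρ t := by
  intro g hg u hu v hv hc
  have hu' : u ∈ ball g (3 * ρ) := by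
    rw [mem_ball] at hu ⊢
    push_cast
    omega
  have hc' : Conn ω Set.univ u v := by
    refine hc.mono le_rfl fun e he => ?_
    simp only [closeS, Bool.and_eq_true] at he
    exact he.1
  obtain ⟨x, hx, hcx⟩ := hc'.to_sphere (v := g) (r := 3 * ρ) hu' (Or.inl hv)
  exact h g hg ⟨u, hu, x, hx, hcx.mono_set Set.inter_subset_right⟩

private theorem compl_armBox_eq (v : Vert) (s : ℕ) :
    {ω | ¬ ∃ u ∈ ball v s, ∃ u' ∈ sphere v (3 * s), Conn ω (ball v (3 * s)) u u'} =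
      (ArmBox v s (3 * s))ᶜ := rfl

/-- The same for a pulled back configuration, if `π` is injective on the edges of every
`ball g (3 ρ)`. -/
theorem seal_lower_pb (c : ℝ) (hc : 0 < c) (K M : ℕ) : ∃ c' : ℝ, 0 < c' ∧ ∀ (n ρ : ℕ) (q : I)
    (G : Finset Vert) (t : Set Edge) (π : Edge → Edge), 1 ≤ n → RSWreg c n q → 1 ≤ ρ →
      ρ ≤ K * n → G.card ≤ M → (∀ g ∈ G, Set.InjOn π (inE (ball g (3 * ρ)))) →
      c' ≤ Pr q {ω | pb π ω ∈ Seal G ρ t} := by
  classical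
  obtain ⟨c₀, hc₀, h0⟩ := Pool.Agent.H29.Sep.noarm_lower c hc K
  refine ⟨(min c₀ 1) ^ M, pow_pos (lt_min hc₀ one_pos) _, ?_⟩
  intro n ρ q G t π hn hr hρ hρK hG hinj
  have hm0 : 0 ≤ min c₀ 1 := (lt_min hc₀ one_pos).le
  have h1 : (min c₀ 1) ^ M ≤ (min c₀ 1) ^ G.card :=
    pow_le_pow_of_le_one hm0 (min_le_right _ _) hG
  have hloc : ∀ g ∈ G, LocalOn ((bE g (3 * ρ)).image π)
      {ω | pb π ω ∈ (ArmBox g ρ (3 * ρ))ᶜ} := by
    intro g _ ω ω' h hω
    exact sealprob_localOn_arm g ρ (3 * ρ) _ _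
      (fun e he => h _ (Finset.mem_image_of_mem π he)) hω
  have hincr : ∀ g ∈ G, Incr ({ω | pb π ω ∈ (ArmBox g ρ (3 * ρ))ᶜ} : Set Config)ᶜ := by
    intro g _ ω ω' h hω hω'
    have h2 : pb π ω ∈ ArmBox g ρ (3 * ρ) := by
      by_contra hcon
      exact hω hcon
    exact hω' (incr_armBox g ρ (3 * ρ) _ _ (fun e he => h _ he) h2)
  have hP : ∀ g ∈ G, min c₀ 1 ≤ Pr q {ω | pb π ω ∈ (ArmBox g ρ (3 * ρ))ᶜ} := by
    intro g hg
    have h2 : Pr q {ω | (fun e => ω (π e)) ∈ (ArmBox g ρ (3 * ρ))ᶜ} =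
        Pr q (ArmBox g ρ (3 * ρ))ᶜ := by
      refine Pr_comp (sealprob_localOn_arm g ρ (3 * ρ)) ?_
      intro a ha b hb hab
      exact hinj g hg (mem_bE.1 (Finset.mem_coe.1 ha)) (mem_bE.1 (Finset.mem_coe.1 hb)) hab
    have h3 := h0 n q hn hr g ρ hρ hρK
    rw [compl_armBox_eq] at h3
    rw [← h2] at h3
    exact (min_le_left _ _).trans h3
  have h4 := Pool.Agent.H29.Sep.fkg_decr_many (p := q) G
    (fun g => {ω | pb π ω ∈ (ArmBox g ρ (3 * ρ))ᶜ}) (fun g => (bE g (3 * ρ)).image π)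
    hm0 hloc hincr hP
  refine (h1.trans h4).trans (Pr_mono ?_)
  intro ω hω
  simp only [Set.mem_iInter] at hω
  exact noarm_subset_seal G ρ t fun g hg => hω g hg

theorem seal_lower (c : ℝ) (hc : 0 < c) (K M : ℕ) : ∃ c' : ℝ, 0 < c' ∧ ∀ (n ρ : ℕ) (q : I)
    (G : Finset Vert) (t : Set Edge), 1 ≤ n → RSWreg c n q → 1 ≤ ρ → ρ ≤ K * n → G.card ≤ M →
      c' ≤ Pr q (Seal G ρ t) := by
  obtain ⟨c', hc', h⟩ := seal_lower_pb c hc K M
  refine ⟨c', hc', fun n ρ q G t hn hr hρ hρK hG => ?_⟩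
  exact h n ρ q G t id hn hr hρ hρK hG fun g _ => Set.injOn_id _

end Pool.Agent.H59.EX

end

section

/-!
# Outward separation: stage 2
-/

open MeasureTheory ProbabilityTheory unitInterval

namespace Pool.Agent.H59.EX

open Pool.Agent.H89.Perc Pool.Agent.H61.NC

variable {s : Src} {w ρ ρ' : ℕ} {v v' : Vert} {d d' : Side} {Z Zy : Set Vert} {Nev Ny : Set Config}
  {q : I}

private theorem st2_cut_congr {s : Src} {ω ω' : Config} {e : Edge} (h : ω e = ω' e) :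
    s.cut ω e = s.cut ω' e := by
  unfold Src.cut closeS
  rw [h]

private theorem st2_fill_congr {s : Src} {Z : Set Vert} {ω ω' : Config} {e : Edge}
    (h : ω e = ω' e) : fillV Z (s.cut ω) e = fillV Z (s.cut ω') e := by
  unfold fillV
  rw [st2_cut_congr h]

/-- A path depends only on the edges touching the cluster. -/
private theorem st2_conn_transfer {ω ω' : Config} {D : Set Vert} {S : Set Vert} {x u : Vert}
    (hS : ∀ a, Conn ω D x a → a ∈ S)
    (h : ∀ a b e, Joins e a b → a ∈ D → b ∈ D → a ∈ S → ω e = ω' e) (hc : Conn ω D x u) :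
    Conn ω' D x u := by
  refine hc.induction_right (P := fun u => Conn ω' D x u) (Conn.refl hc.mem_left) ?_
  rintro a b hxa ⟨ha, hb, e, hj, ho⟩ ih
  exact ih.tail ⟨ha, hb, e, hj, by rw [← h a b e hj ha hb (hS a hxa)]; exact ho⟩

/-- The clusters depend only on the edges of `D ∪ Z`. -/
private theorem st2_clus_congr {ω ω' : Config} {D X : Set Vert}
    (h : ∀ e ∈ inE D, ω e = ω' e) : clus ω D X = clus ω' D X := by
  ext a
  constructor
  · rintro ⟨x, hx, hc⟩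
    exact ⟨x, hx, hc.congr fun e h1 h2 => h e ⟨h1, h2⟩⟩
  · rintro ⟨x, hx, hc⟩
    exact ⟨x, hx, hc.congr fun e h1 h2 => (h e ⟨h1, h2⟩).symm⟩

/-- The point `x` of the source is far from `v`. -/
private theorem st2_x_far (hρ : 1 ≤ ρ) (hw : 64 * ρ ≤ w) (hv : v ∈ sphere 0 (8 * w)) :
    s.x ∉ ball v (3 * ρ) := by
  intro h
  have h1 := s.hx
  have h2 := hv.2
  simp only [mem_ball, Prod.fst_zero, Prod.snd_zero] at h h1 h2
  push_cast at h h1 h2
  omega

/-- The landing gives `Z ⊆ S1`. -/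
private theorem st2_Z_sub (hK : CorrData w ρ v d Z Nev) {ω : Config}
    (h : ∃ u ∈ sphere 0 (8 * w), u ∈ ball v ρ ∧ Conn (s.cut ω) (ball 0 (8 * w)) s.x u) :
    Z ⊆ S1 s w Z ω := by
  obtain ⟨u, _, hu, hc⟩ := h
  have huZ : u ∈ Z := by
    apply hK.ball_sub
    simp only [mem_ball] at hu ⊢
    push_cast
    omega
  refine Z_sub_S1 hK huZ ?_
  exact ⟨s.x, rfl, hc.mono Set.subset_union_left fun e he => fillV_true.2 (Or.inl he)⟩

private theorem st2_x_mem_S1 (hw : 1 ≤ w) {ω : Config} : s.x ∈ S1 s w Z ω := by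
  refine ⟨s.x, rfl, Conn.refl (Or.inl ?_)⟩
  have h1 := s.hx
  simp only [mem_ball, Prod.fst_zero, Prod.snd_zero] at h1 ⊢
  push_cast at h1 ⊢
  omega

private theorem st2_y_mem_SY (hw : 1 ≤ w) {ω : Config} : s.y ∈ SY s w ω := by
  refine ⟨s.y, rfl, Conn.refl ?_⟩
  have h1 := s.hy
  simp only [mem_ball, Prod.fst_zero, Prod.snd_zero] at h1 ⊢
  push_cast at h1 ⊢
  omega

/-- The determined edges. -/
private def st2_t (w : ℕ) (Z : Set Vert) (i : Set Vert × Set Vert) : Set Edge :=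
  touch (ball 0 (8 * w) ∪ Z) (i.2 ∪ i.1)

/-- The pair of clusters depends only on the determined edges. -/
private theorem st2_X_congr {i : Set Vert × Set Vert} (hZ : Z ⊆ i.2) {ω ω' : Config}
    (h : ∀ e ∈ st2_t w Z i, ω e = ω' e) (hω : (SY s w ω, S1 s w Z ω) = i) :
    (SY s w ω', S1 s w Z ω') = i := by
  refine Prod.ext ?_ ?_
  · exact locS_clus (ball 0 (8 * w)) {s.y} i.1 (s.cut ω) (s.cut ω')
      (fun e he => st2_cut_congr (h e ⟨⟨Or.inl he.1.1, Or.inl he.1.2⟩, he.2.imp Or.inr Or.inr⟩))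
      (congrArg Prod.fst hω)
  · exact locS_clus_fill (D := ball 0 (8 * w) ∪ Z) (X := {s.x}) hZ (s.cut ω) (s.cut ω')
      (fun e he => st2_cut_congr (h e ⟨he.1.1, he.1.2.imp Or.inl Or.inl⟩))
      (congrArg Prod.snd hω)

/-- The event depends only on the determined edges. -/
private theorem st2_A_congr (hK : CorrData w ρ v d Z Nev) {ω ω' : Config}
    (h : ∀ e ∈ st2_t w Z (SY s w ω, S1 s w Z ω), ω e = ω' e)
    (hω : ω ∈ Ev0 s w ρ v ∩ Nev ∩ Good12 s w ρ' Z) :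
    (SY s w ω', S1 s w Z ω') = (SY s w ω, S1 s w Z ω) ∧
      ω' ∈ Ev0 s w ρ v ∩ Nev ∩ Good12 s w ρ' Z := by
  have hZ : Z ⊆ S1 s w Z ω := st2_Z_sub hK hω.1.1.1
  have hX := st2_X_congr (s := s) (w := w) (Z := Z) (i := (SY s w ω, S1 s w Z ω)) hZ h rfl
  refine ⟨hX, ?_⟩
  have hY : SY s w ω' = SY s w ω := congrArg Prod.fst hX
  have h1 : S1 s w Z ω' = S1 s w Z ω := congrArg Prod.snd hX
  obtain ⟨⟨⟨⟨u, hu, huv, hxu⟩, ⟨u', hu', hyu⟩, hxy, hdis⟩, hN⟩, hG⟩ := hω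
  refine ⟨⟨⟨⟨u, hu, huv, ?_⟩, ⟨u', hu', ?_⟩, ?_, ?_⟩, ?_⟩, ?_⟩
  · refine st2_conn_transfer (S := S1 s w Z ω) (fun a ha => ?_) (fun a b e hj ha hb haS => ?_) hxu
    · exact ⟨s.x, rfl, ha.mono Set.subset_union_left fun e he => fillV_true.2 (Or.inl he)⟩
    · exact st2_cut_congr (h e ((touch_of_joins hj).2 ⟨⟨Or.inl ha, Or.inl hb⟩,
        Or.inl (Or.inl haS)⟩))
  · have h2 : u' ∈ SY s w ω' := by
      rw [hY]
      exact ⟨s.y, rfl, hyu⟩
    exact mem_clus_single.1 h2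
  · intro hc
    have h2 : s.x ∈ SY s w ω' := ⟨s.y, rfl, hc.symm⟩
    rw [hY] at h2
    exact hxy (mem_clus_single.1 h2).symm
  · rw [hY]
    exact hdis
  · exact hK.loc ω ω' (fun e he => h e ⟨⟨Or.inr he.1, Or.inr he.2⟩, Or.inl (Or.inl (hZ he.1))⟩) hN
  · intro z hz
    rw [hY, h1]
    exact hG z hz

/-- Deterministic part of stage 2. -/
private theorem st2_det (hK : CorrData w ρ v d Z Nev) (hρ' : 4 ≤ ρ') (hρ : 64 * ρ' ≤ ρ)
    (hw : 64 * ρ ≤ w) {K : ℕ} (hwK : w ≤ K * ρ') (hv : v ∈ sphere 0 (8 * w)) {ω : Config}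
    (h0 : ω ∈ Ev0 s w ρ v) (hN : ω ∈ Nev) (hG : ω ∈ Good12 s w ρ' Z)
    (hs : ω ∈ Seal (grid ρ' (160 * K)) ρ' (st2_t w Z (SY s w ω, S1 s w Z ω))) :
    ω ∈ Ev2 s w ρ ρ' v d Z := by
  have hρ1 : 1 ≤ ρ := by omega
  have hw1 : 1 ≤ w := by omega
  obtain ⟨hx, hy, hxy, hdis⟩ := h0
  have hZS1 : Z ⊆ S1 s w Z ω := st2_Z_sub hK hx
  have F1 := S1_disj_SY hK hρ1 hdis hxy
  have F1' : ∀ a, a ∈ S1 s w Z ω → a ∉ SY s w ω := fun a h1 h2 => Set.disjoint_left.1 F1 h1 h2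
  have hS1D : S1 s w Z ω ⊆ ball 0 (8 * w) ∪ Z := clus_sub
  have hSYD : SY s w ω ⊆ ball 0 (8 * w) := clus_sub
  have hD160 : ball (0 : Vert) (8 * w) ∪ Z ⊆ ball 0 (160 * w) := by
    apply Set.union_subset
    · intro a ha
      simp only [mem_ball, Prod.fst_zero, Prod.snd_zero] at ha ⊢
      push_cast at ha ⊢
      omega
    · exact corr_sub160 hK
  have hS1H : S1 s w Z ω ⊆ SH s w Z ω := S1_sub_SH hK
  -- off the clusters: a step into `SY`
  have key : ∀ a b e, Joins e a b → fillV Z (s.cut ω) e = true → a ∉ SY s w ω → b ∈ SY s w ω →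
      a ∉ ball 0 (8 * w) ∪ Z := by
    intro a b e hj ho ha hb haD
    exact ha (SY_closed hK hρ1 hdis hb ⟨Or.inl (hSYD hb), haD, e, hj.symm, ho⟩)
  set Ex : Set Vert := {a | a ∈ S1 s w Z ω ∧ ∃ b e, Joins e a b ∧ b ∉ ball 0 (8 * w) ∪ Z} with hEx
  have conf : ∀ z ∈ SH s w Z ω, z ∈ S1 s w Z ω ∨ (z ∉ SY s w ω ∧ ∃ a ∈ Ex, z ∈ ball a (4 * ρ')) := by
    rintro z ⟨x, hxx, hz⟩
    rw [Set.mem_singleton_iff] at hxx
    subst hxx
    refine seal_confine (ω := ω) (F := SY s w ω) (t := st2_t w Z (SY s w ω, S1 s w Z ω))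
      (G := grid ρ' (160 * K)) ?_ hs ?_ ?_ ?_ ?_ ?_ (st2_x_mem_S1 hw1) hz
    · intro e he ho
      rcases fillV_true.1 ho with h | h
      · exact cut_le h
      · exact absurd ⟨⟨Or.inr h.1, Or.inr h.2⟩, Or.inl (Or.inl (hZS1 h.1))⟩ he
    · rintro a ⟨ha, -⟩
      refine exists_grid (by omega) ?_
      have h1 := hD160 (hS1D ha)
      have h2 : (160 * w : ℕ) ≤ 160 * K * ρ' := by
        calc 160 * w ≤ 160 * (K * ρ') := Nat.mul_le_mul_left _ hwK
          _ = 160 * K * ρ' := by ring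
      have h3 : ((160 * w : ℕ) : ℤ) ≤ ((160 * K * ρ' : ℕ) : ℤ) := by exact_mod_cast h2
      simp only [mem_ball, Prod.fst_zero, Prod.snd_zero] at h1 ⊢
      omega
    · intro a b e hj ho _ _ ha hb
      have hb' : b ∉ ball 0 (8 * w) ∪ Z := fun h =>
        hb (clus_step ha ⟨hS1D ha, h, e, hj, ho⟩)
      refine ⟨⟨ha, b, e, hj, hb'⟩, fun h => hb' (Or.inl (hSYD h)), fun h => ?_⟩
      exact hb' ((touch_of_joins hj).1 h).1.2
    · intro a b e hj ho _ _ ha1 ha2 hb x' hx' hbx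
      have haD := key a b e hj ho ha2 hb
      have hbs : b ∈ sphere 0 (8 * w) :=
        mem_sphere_of_joins hj.symm (hSYD hb) fun h => haD (Or.inl h)
      refine hG b hbs ⟨x', hx'.1, ?_⟩ ⟨b, hb, self_mem_ball⟩
      simp only [mem_ball] at hbx ⊢
      push_cast at hbx ⊢
      omega
    · intro a b e hj _ _ _ ha1 ha2 hb1 hb2 h
      rcases ((touch_of_joins hj).1 h).2 with (h | h) | (h | h)
      · exact ha1 h
      · exact ha2 h
      · exact hb1 h
      · exact hb2 h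
    · intro a b e hj ho _ _ ha1 ha2 hb h
      exact key a b e hj ho ha2 hb ((touch_of_joins hj).1 h).1.1
  have hSYH : ∀ a ∈ SY s w ω, a ∉ SH s w Z ω := by
    intro a ha h
    rcases conf a h with h | ⟨h, -⟩
    · exact F1' a h ha
    · exact h ha
  have hZH : Z ⊆ SH s w Z ω := hZS1.trans hS1H
  refine ⟨⟨hSYH _ (st2_y_mem_SY hw1), ?_, ?_⟩, ?_⟩
  · -- the fence
    obtain ⟨u, hu, huv, hxu⟩ := hx
    obtain ⟨z, hz, hf⟩ := hK.hook ω hN (s.cut ω) (ball 0 (8 * w)) u s.x hxu.symm huv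
      (st2_x_far hρ1 hw hv)
    have hcut : ∀ e ∈ inE Z, ω e = s.cut ω e := fun e he => (corr_cut hK hρ1 hw hv he).symm
    have hf' : Fence d (4 * w) (s.cut ω) Z z :=
      fence_congr (fun e he => hcut e ⟨hK.T_sub he.1, hK.T_sub he.2⟩) hcut hf
    have hxz : Conn (s.cut ω) (ball 0 (8 * w)) s.x z := hxu.trans hz
    have hxz' : Conn (s.cut ω) (SH s w Z ω ∩ (ball 0 (8 * w) ∪ Z)) s.x z := by
      have h1 : Conn (s.cut ω) (clus (s.cut ω) (ball 0 (8 * w)) {s.x}) s.x z :=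
        conn_in_clus (mem_clus rfl (Conn.refl hxz.mem_left)) hxz
      refine h1.mono_set ?_
      rintro a ⟨x, hxx, hc⟩
      refine ⟨?_, Or.inl hc.mem_right⟩
      exact hS1H ⟨x, hxx, hc.mono Set.subset_union_left fun e he => fillV_true.2 (Or.inl he)⟩
    exact fence_trans hxz' (fence_mono (fun a ha => ⟨hZH ha, Or.inr ha⟩) (fun _ h => h) hf')
  · -- confinement
    intro z hz
    rcases conf z hz with h | ⟨-, a, ha, hza⟩
    · rcases hS1D h with h | h
      · exact Or.inl h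
      · exact Or.inr (Or.inl ⟨z, h, self_mem_ball⟩)
    · obtain ⟨ha1, b, e, hj, hb⟩ := ha
      rcases hS1D ha1 with h | h
      · exact Or.inr (Or.inr ⟨a, hS1H ha1, mem_sphere_of_joins hj h fun h => hb (Or.inl h), hza⟩)
      · exact Or.inr (Or.inl ⟨a, h, hza⟩)
  · -- the cluster of `y`
    obtain ⟨u, hu, hyu⟩ := hy
    have huY : u ∈ SY s w ω := ⟨s.y, rfl, hyu⟩
    refine ⟨u, hu, fun h => Set.disjoint_left.1 hdis huY h, ?_, ?_⟩
    · have h1 : Conn (s.cut ω) (SY s w ω) s.y u := conn_in_clus (st2_y_mem_SY hw1) hyu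
      exact h1.mono_set fun a ha => ⟨hSYD ha, hSYH a ha⟩
    · refine Set.disjoint_left.2 fun z hz hzu => ?_
      rcases conf z hz with h | ⟨-, a, ha, hza⟩
      · refine hG u hu ⟨z, h, ?_⟩ ⟨u, huY, self_mem_ball⟩
        simp only [mem_ball] at hzu ⊢
        push_cast at hzu ⊢
        omega
      · refine hG u hu ⟨a, ha.1, ?_⟩ ⟨u, huY, self_mem_ball⟩
        simp only [mem_ball] at hzu hza ⊢
        push_cast at hzu hza ⊢
        omega

/-- Stage 2: seal the cluster of `x`. -/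
theorem stage2 (c : ℝ) (hc : 0 < c) (K : ℕ) : ∃ c' : ℝ, 0 < c' ∧ ∀ (s : Src) (w ρ ρ' : ℕ)
    (v : Vert) (d : Side) (Z : Set Vert) (Nev : Set Config) (n : ℕ) (q : I),
    CorrData w ρ v d Z Nev → 4 ≤ ρ' → 64 * ρ' ≤ ρ → 64 * ρ ≤ w → w ≤ K * ρ' →
    v ∈ sphere 0 (8 * w) → w ≤ n → RSWreg c n q →
      c' * Pr q (Ev0 s w ρ v ∩ Nev ∩ Good12 s w ρ' Z) ≤ Pr q (Ev2 s w ρ ρ' v d Z) := by
  classical
  obtain ⟨c', hc', hlow⟩ := seal_lower c hc 1 ((2 * (160 * K) + 1) ^ 2)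
  refine ⟨c', hc', fun s w ρ ρ' v d Z Nev n q hK hρ' hρ hw hwK hv hn hR => ?_⟩
  have hρ1 : 1 ≤ ρ := by omega
  have hw1 : 1 ≤ w := by omega
  set D : Set Vert := ball 0 (8 * w) with hD
  -- the finite set of edges
  obtain ⟨Λ1, hΛ1⟩ : ∃ Λ : Finset Edge, ∀ e ∈ inE (ball 0 (160 * w)), e ∈ Λ :=
    ⟨eRect (-(160 * w : ℕ)) (160 * w : ℕ) (-(160 * w : ℕ)) (160 * w : ℕ), fun e he => by
      rw [mem_eRect]
      have h := he.1
      unfold ball at h
      simp only [Prod.fst_zero, Prod.snd_zero, zero_sub, zero_add] at h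
      exact h⟩
  obtain ⟨Λ2, hΛ2⟩ := localOn_seal (grid ρ' (160 * K)) ρ'
  have hD160 : D ∪ Z ⊆ ball 0 (160 * w) := by
    apply Set.union_subset
    · intro a ha
      simp only [hD, mem_ball, Prod.fst_zero, Prod.snd_zero] at ha ⊢
      push_cast at ha ⊢
      omega
    · exact corr_sub160 hK
  have hΛ : ∀ e ∈ inE (D ∪ Z), e ∈ Λ1 ∪ Λ2 := fun e he =>
    Finset.mem_union_left _ (hΛ1 e ⟨hD160 he.1, hD160 he.2⟩)
  have hXc : ∀ ω ω' : Config, (∀ e ∈ Λ1 ∪ Λ2, ω e = ω' e) →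
      (SY s w ω, S1 s w Z ω) = (SY s w ω', S1 s w Z ω') := by
    intro ω ω' h
    refine Prod.ext ?_ ?_
    · exact st2_clus_congr fun e he => st2_cut_congr (h e (hΛ e ⟨Or.inl he.1, Or.inl he.2⟩))
    · exact st2_clus_congr fun e he => st2_fill_congr (h e (hΛ e he))
  have main := markov_indep (Λ := Λ1 ∪ Λ2) (q := q) (c := c')
    (fun ω => (SY s w ω, S1 s w Z ω))
    (fun i => Z ⊆ i.2) (fun i => st2_t w Z i)
    (fun i => {ω | (SY s w ω, S1 s w Z ω) = i} ∩ (Ev0 s w ρ v ∩ Nev ∩ Good12 s w ρ' Z))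
    (fun i => Seal (grid ρ' (160 * K)) ρ' (st2_t w Z i))
    ?_ ?_ ?_ ?_ ?_ ?_ ?_ hc'.le
  · have e1 : Ev0 s w ρ v ∩ Nev ∩ Good12 s w ρ' Z ⊆
        {ω | Z ⊆ (SY s w ω, S1 s w Z ω).2 ∧
          ω ∈ {ω' | (SY s w ω', S1 s w Z ω') = (SY s w ω, S1 s w Z ω)} ∩
            (Ev0 s w ρ v ∩ Nev ∩ Good12 s w ρ' Z)} := by
      intro ω hω
      exact ⟨st2_Z_sub hK hω.1.1.1, rfl, hω⟩
    refine le_trans (mul_le_mul_of_nonneg_left (Pr_mono e1) hc'.le) (le_trans main (Pr_mono ?_))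
    rintro ω ⟨_, ⟨_, ⟨⟨h0, hN⟩, hG⟩⟩, hs⟩
    exact st2_det hK hρ' hρ hw hwK hv h0 hN hG hs
  · intro i ω ω' h hω
    change (SY s w ω', S1 s w Z ω') = i
    rw [← hXc ω ω' h]
    exact hω
  · intro i hi ω ω' h hω
    exact st2_X_congr hi h hω
  · rintro i ω ω' h ⟨hω, hA⟩
    obtain ⟨h1, h2⟩ := st2_A_congr (ω' := ω') hK (fun e he => h e (hΛ e he.1)) hA
    exact ⟨h1.trans hω, h2⟩
  · rintro i hi ω ω' h ⟨hω, hA⟩
    obtain ⟨h1, h2⟩ := st2_A_congr (ω' := ω') hK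
      (fun e he => h e (by
        have hω' : (SY s w ω, S1 s w Z ω) = i := hω
        rw [← hω']
        exact he)) hA
    exact ⟨h1.trans hω, h2⟩
  · intro i ω ω' h
    exact hΛ2 _ ω ω' fun e he => h e (Finset.mem_union_right _ he)
  · intro i _
    exact locS_seal _ _ _
  · intro i _
    exact hlow n ρ' q _ _ (by omega) hR (by omega) (by omega) (card_grid _ _)

end Pool.Agent.H59.EX

end

section

/-!
# The corridor lemma with an arbitrary finite edge set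
-/

open MeasureTheory ProbabilityTheory unitInterval

namespace Pool.Agent.H59.EX

open Pool.Agent.H89.Perc

/-- The determined edges. -/
def detE (π : Edge → Edge) (d d' : Side) (k : ℕ) (EC : Set Edge) (S : Set Vert) : Set Edge :=
  sat π (touch (dom d d' k) S ∪ EC)

private theorem LocS.mono' {t t' : Set Edge} {A : Set Config} (h : LocS t A) (ht : t ⊆ t') :
    LocS t' A := fun _ _ hω => h _ _ fun e he => hω e (ht he)

private theorem LocS.inter' {t : Set Edge} {A B : Set Config} (h : LocS t A) (h' : LocS t B) :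
    LocS t (A ∩ B) := fun ω ω' hω hm => ⟨h ω ω' hω hm.1, h' ω ω' hω hm.2⟩

private theorem LocS.localOn' {t : Set Edge} {Λ : Finset Edge} {A : Set Config} (h : LocS t A)
    (ht : t ⊆ ↑Λ) : LocalOn Λ A := fun ω ω' hω => h ω ω' fun e he => hω e (by exact_mod_cast ht he)

private theorem locS_pb {π : Edge → Edge} {t : Set Edge} {A : Set Config} (h : LocS t A) :
    LocS (π '' t) {ω | pb π ω ∈ A} := fun _ _ hω hm =>
  h _ _ (fun e he => hω (π e) ⟨e, he, rfl⟩) hm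

private theorem incr_pb {π : Edge → Edge} {A : Set Config} (h : Incr A) :
    Incr {ω | pb π ω ∈ A} := fun _ _ hω hm => h _ _ (fun e he => hω (π e) he) hm

private theorem inE_finite {S : Set Vert} (hS : S.Finite) : (inE S).Finite := by
  refine ((hS.prod (Set.finite_univ (α := Bool))).image
    (fun z : Vert × Bool => ((z.1.1, z.1.2, z.2) : Edge))).subset ?_
  rintro ⟨a, b, t⟩ ⟨h1, -⟩
  exact ⟨((a, b), t), ⟨h1, trivial⟩, rfl⟩

private theorem rect_finite (a b c d : ℤ) : (rect a b c d).Finite := by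
  refine Set.Finite.subset ((Set.finite_Icc a b).prod (Set.finite_Icc c d)) ?_
  rintro ⟨x, y⟩ ⟨h1, h2, h3, h4⟩
  exact ⟨⟨h1, h2⟩, ⟨h3, h4⟩⟩

private theorem T_finite (d : Side) (k : ℕ) : (T d k).Finite := by
  cases d <;> exact rect_finite _ _ _ _

private theorem dom_finite (d d' : Side) (k : ℕ) : (dom d d' k).Finite :=
  (rect_finite _ _ _ _).union ((T_finite d k).union (T_finite d' k))

private theorem touch_mono {D S S' : Set Vert} (h : S ⊆ S') : touch D S ⊆ touch D S' :=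
  fun _ he => ⟨he.1, he.2.imp (fun x => h x) fun x => h x⟩

/-- Configurations which agree on the edges touching the cluster of `x` have the same cluster. -/
private theorem clus_congr {ω ω' : Config} {D X : Set Vert}
    (h : ∀ e ∈ touch D (clus ω D X), ω e = ω' e) : clus ω' D X = clus ω D X :=
  locS_clus D X (clus ω D X) ω ω' h rfl

private theorem conn_congr {ω ω' : Config} {D : Set Vert} {x v : Vert}
    (h : ∀ e ∈ touch D (clus ω D {x}), ω e = ω' e) (hc : Conn ω D x v) : Conn ω' D x v := by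
  have h1 : v ∈ clus ω D {x} := ⟨x, rfl, hc⟩
  rw [← clus_congr h] at h1
  obtain ⟨y, hy, h2⟩ := h1
  rw [Set.mem_singleton_iff.1 hy] at h2
  exact h2

private theorem conn_congr' {ω ω' : Config} {D : Set Vert} {x v : Vert}
    (h : ∀ e ∈ inE D, ω e = ω' e) (hc : Conn ω D x v) : Conn ω' D x v :=
  conn_congr (fun e he => h e he.1) hc

private theorem cut_congr (s : Src) {ω ω' : Config} {e : Edge} (h : ω e = ω' e) :
    s.cut ω e = s.cut ω' e := by
  simp only [Src.cut, closeS, h]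

private theorem fill_congr {Z : Set Vert} {ω ω' : Config} {e : Edge}
    (h : e ∉ inE Z → ω e = ω' e) : fillV Z ω e = fillV Z ω' e := by
  by_cases he : e ∈ inE Z
  · simp [fillV, he]
  · simp [fillV, he, h he]

private theorem cut_mono (s : Src) {ω ω' : Config} (h : ∀ e, ω e = true → ω' e = true) (e : Edge)
    (he : s.cut ω e = true) : s.cut ω' e = true := by
  simp only [Src.cut, closeS, Bool.and_eq_true, decide_eq_true_eq] at he ⊢
  exact ⟨h e he.1, he.2⟩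

private theorem le_fill {Z : Set Vert} {ω : Config} (e : Edge) (he : ω e = true) :
    fillV Z ω e = true := by
  simp [fillV, he]

/-- A fence only looks at the edges of its target and at the edges touching the cluster. -/
private theorem fence_congrCE {d : Side} {k : ℕ} {ω ω' : Config} {D : Set Vert} {x : Vert}
    (h1 : ∀ e ∈ inE (T d k), ω e = ω' e) (h2 : ∀ e ∈ touch D (clus ω D {x}), ω e = ω' e)
    (h : Fence d k ω D x) : Fence d k ω' D x := by
  cases d <;> obtain ⟨u, v, hu, hv, k1, k2⟩ := h <;>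
    exact ⟨u, v, hu, hv, conn_congr' h1 k1, conn_congr h2 k2⟩

private theorem fence_monoCE {d : Side} {k : ℕ} {ω ω' : Config} {D : Set Vert} {x : Vert}
    (h1 : ∀ e, ω e = true → ω' e = true) (h : Fence d k ω D x) : Fence d k ω' D x := by
  cases d <;> obtain ⟨u, v, hu, hv, k1, k2⟩ := h <;>
    exact ⟨u, v, hu, hv, k1.mono le_rfl h1, k2.mono le_rfl h1⟩

/-- The part of `Sep` about the filled configuration. -/
private def SepA (s : Src) (d d' : Side) (k : ℕ) : Set Config :=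
  {ω | ¬ Conn (fillV (T d k ∪ T d' k) (s.cut ω)) (dom d d' k) s.x s.y ∧
    (∀ v ∈ sphere 0 (32 * k),
      Conn (fillV (T d k ∪ T d' k) (s.cut ω)) (dom d d' k) s.x v → v ∈ Mouth d k) ∧
    (∀ v ∈ sphere 0 (32 * k),
      Conn (fillV (T d k ∪ T d' k) (s.cut ω)) (dom d d' k) s.y v → v ∈ Mouth d' k)}

/-- The increasing part of `Sep`. -/
private def SepG (s : Src) (d d' : Side) (k : ℕ) : Set Config :=
  {ω | Fence d k (s.cut ω) (dom d d' k) s.x ∧ Fence d' k (s.cut ω) (dom d d' k) s.y}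

private theorem sep_eq (s : Src) (d d' : Side) (k : ℕ) : Sep s d d' k = SepA s d d' k ∩ SepG s d d' k := by
  ext ω
  simp only [Sep, SepA, SepG, Set.mem_ofPred_eq, Set.mem_inter_iff]
  tauto

private theorem T_sub_dom (d d' : Side) (k : ℕ) : T d k ⊆ dom d d' k := fun _ h => Or.inr (Or.inl h)

private theorem T_sub_dom' (d d' : Side) (k : ℕ) : T d' k ⊆ dom d d' k :=
  fun _ h => Or.inr (Or.inr h)

private theorem inE_mono {S S' : Set Vert} (h : S ⊆ S') : inE S ⊆ inE S' :=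
  fun _ he => ⟨h he.1, h he.2⟩

private theorem locS_sepA (s : Src) (d d' : Side) (k : ℕ) :
    LocS (inE (dom d d' k) \ inE (T d k ∪ T d' k)) (SepA s d d' k) := by
  rintro ω ω' h ⟨h1, h2, h3⟩
  have key : ∀ e ∈ inE (dom d d' k), fillV (T d k ∪ T d' k) (s.cut ω') e =
      fillV (T d k ∪ T d' k) (s.cut ω) e := fun e he =>
    fill_congr fun hne => (cut_congr s (h e ⟨he, hne⟩)).symm
  exact ⟨fun hc => h1 (conn_congr' key hc), fun v hv hc => h2 v hv (conn_congr' key hc),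
    fun v hv hc => h3 v hv (conn_congr' key hc)⟩

private theorem locS_sepG (s : Src) (d d' : Side) (k : ℕ) :
    LocS (inE (dom d d' k)) (SepG s d d' k) := by
  rintro ω ω' h ⟨h1, h2⟩
  have key : ∀ e ∈ inE (dom d d' k), s.cut ω e = s.cut ω' e := fun e he => cut_congr s (h e he)
  exact ⟨fence_congrCE (fun e he => key e (inE_mono (T_sub_dom d d' k) he))
      (fun e he => key e he.1) h1,
    fence_congrCE (fun e he => key e (inE_mono (T_sub_dom' d d' k) he)) (fun e he => key e he.1) h2⟩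

private theorem incr_sepG (s : Src) (d d' : Side) (k : ℕ) : Incr (SepG s d d' k) := by
  rintro ω ω' h ⟨h1, h2⟩
  exact ⟨fence_monoCE (cut_mono s h) h1, fence_monoCE (cut_mono s h) h2⟩

private theorem locS_FX (s : Src) (d d' : Side) (k : ℕ) (S : Set Vert) :
    LocS (touch (dom d d' k) S) {ω | FX s d d' k ω = S} := by
  intro ω ω' h hω
  exact locS_clus _ _ S _ _ (fun e he => fill_congr fun _ => cut_congr s (h e he)) hω

private theorem locS_FY (s : Src) (d d' : Side) (k : ℕ) (S : Set Vert) :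
    LocS (touch (dom d d' k) S) {ω | FY s d d' k ω = S} := by
  intro ω ω' h hω
  exact locS_clus _ _ S _ _ (fun e he => fill_congr fun _ => cut_congr s (h e he)) hω

private theorem clus_cut_sub {s : Src} {ω : Config} {Z D X : Set Vert} :
    clus (s.cut ω) D X ⊆ clus (fillV Z (s.cut ω)) D X := by
  rintro v ⟨x, hx, hc⟩
  exact ⟨x, hx, hc.mono le_rfl fun e he => le_fill e he⟩

private theorem mem_FX {s : Src} {d d' : Side} {k : ℕ} {ω : Config} {v : Vert} :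
    v ∈ FX s d d' k ω ↔ Conn (fillV (T d k ∪ T d' k) (s.cut ω)) (dom d d' k) s.x v := by
  simp [FX, clus]

private theorem mem_FY {s : Src} {d d' : Side} {k : ℕ} {ω : Config} {v : Vert} :
    v ∈ FY s d d' k ω ↔ Conn (fillV (T d k ∪ T d' k) (s.cut ω)) (dom d d' k) s.y v := by
  simp [FY, clus]

/-- Once the two clusters are known, `Sep` is decided by the edges touching them and the edges in the
targets. -/
private theorem locS_sep_val (s : Src) (d d' : Side) (k : ℕ) {EC : Set Edge}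
    (hT : inE (T d k) ⊆ EC) (hT' : inE (T d' k) ⊆ EC) (S S' : Set Vert) :
    LocS (touch (dom d d' k) (S ∪ S') ∪ EC)
      {ω | ω ∈ Sep s d d' k ∧ FX s d d' k ω = S ∧ FY s d d' k ω = S'} := by
  rintro ω ω' h ⟨⟨h1, h2, h3, h4, h5⟩, hX, hY⟩
  have hX' : FX s d d' k ω' = S := locS_FX s d d' k S ω ω'
    (fun e he => h e (Or.inl (touch_mono Set.subset_union_left he))) hX
  have hY' : FY s d d' k ω' = S' := locS_FY s d d' k S' ω ω'
    (fun e he => h e (Or.inl (touch_mono Set.subset_union_right he))) hY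
  have cX : ∀ v, Conn (fillV (T d k ∪ T d' k) (s.cut ω')) (dom d d' k) s.x v →
      Conn (fillV (T d k ∪ T d' k) (s.cut ω)) (dom d d' k) s.x v := fun v hv => by
    rw [← mem_FX] at hv ⊢
    rw [hX]
    rw [hX'] at hv
    exact hv
  have cY : ∀ v, Conn (fillV (T d k ∪ T d' k) (s.cut ω')) (dom d d' k) s.y v →
      Conn (fillV (T d k ∪ T d' k) (s.cut ω)) (dom d d' k) s.y v := fun v hv => by
    rw [← mem_FY] at hv ⊢
    rw [hY]
    rw [hY'] at hv
    exact hv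
  refine ⟨⟨?_, ?_, fun hc => h3 (cX _ hc), fun v hv hc => h4 v hv (cX _ hc),
    fun v hv hc => h5 v hv (cY _ hc)⟩, hX', hY'⟩
  · refine fence_congrCE (fun e he => cut_congr s (h e (Or.inr ?_))) (fun e he => cut_congr s
      (h e (Or.inl ?_))) h1
    · exact hT he
    · refine touch_mono (fun v hv => Or.inl ?_) he
      rw [← hX]
      exact clus_cut_sub hv
  · refine fence_congrCE (fun e he => cut_congr s (h e (Or.inr ?_))) (fun e he => cut_congr s
      (h e (Or.inl ?_))) h2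
    · exact hT' he
    · refine touch_mono (fun v hv => Or.inr ?_) he
      rw [← hY]
      exact clus_cut_sub hv

/-- Corridor lemma with an arbitrary finite edge set `EC`. -/
theorem corridor_probE {q : I} {π : Edge → Edge} {s : Src} {d d' : Side} {k : ℕ}
    {EC : Set Edge} {Np : Set Config} {H : Set Vert → Set Config} {c₁ c₂ : ℝ}
    (hc₂ : 0 ≤ c₂) (hinj : Set.InjOn π (inE (dom d d' k) ∪ EC))
    (hT : inE (T d k) ⊆ EC) (hT' : inE (T d' k) ⊆ EC)
    (hC : EC ∩ inE (dom d d' k) ⊆ inE (T d k ∪ T d' k)) (hCf : EC.Finite)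
    (hN : LocS EC Np) (iN : Incr Np) (hN1 : c₁ ≤ Pr q {ω | pb π ω ∈ Np})
    (hH : ∀ S, LocS (detE π d d' k EC S)ᶜ (H S))
    (hHΛ : ∃ Λ : Finset Edge, ∀ S, LocalOn Λ (H S))
    (hH1 : ∀ S, c₂ ≤ Pr q {ω | pb π ω ∈ H S}) :
    c₁ * c₂ * Pr q (Sep s d d' k) ≤
      Pr q {ω | pb π ω ∈ Sep s d d' k ∧ pb π ω ∈ Np ∧
        pb π ω ∈ H (FX s d d' k (pb π ω) ∪ FY s d d' k (pb π ω))} := by
  classical
  obtain ⟨ΛH, hΛH⟩ := hHΛ
  have hfin : (inE (dom d d' k) ∪ EC).Finite := (inE_finite (dom_finite d d' k)).union hCf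
  obtain ⟨Λ, hΛ⟩ : ∃ Λ : Finset Edge, Λ = (hfin.toFinset ∪ ΛH).image π := ⟨_, rfl⟩
  have hsub : ∀ t : Set Edge, t ⊆ inE (dom d d' k) ∪ EC → π '' t ⊆ ↑Λ := by
    rintro t ht _ ⟨e, he, rfl⟩
    rw [hΛ, Finset.mem_coe]
    exact Finset.mem_image_of_mem _ (Finset.mem_union_left _ (hfin.mem_toFinset.2 (ht he)))
  have hloc : ∀ {t : Set Edge} {A : Set Config}, LocS t A → t ⊆ inE (dom d d' k) ∪ EC →
      LocalOn Λ {ω | pb π ω ∈ A} := fun h ht => (locS_pb h).localOn' (hsub _ ht)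
  have hdomsub : inE (dom d d' k) ⊆ inE (dom d d' k) ∪ EC := Set.subset_union_left
  have hCsub : EC ⊆ inE (dom d d' k) ∪ EC := Set.subset_union_right
  have hZdom : inE (dom d d' k) \ inE (T d k ∪ T d' k) ⊆ inE (dom d d' k) ∪ EC :=
    fun e he => hdomsub he.1
  -- Step A
  have hA : c₁ * Pr q (Sep s d d' k) ≤
      Pr q {ω | pb π ω ∈ Sep s d d' k ∧ pb π ω ∈ Np} := by
    have hdisj : π '' EC ⊆ (π '' (inE (dom d d' k) \ inE (T d k ∪ T d' k)))ᶜ := by
      rintro _ ⟨e, he, rfl⟩ ⟨e', he', heq⟩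
      have h1 : e' = e := hinj (hdomsub he'.1) (hCsub he) heq
      subst h1
      exact he'.2 (hC ⟨he, he'.1⟩)
    have h1 := fkg_cond (q := q) (Λ := Λ)
      (t := π '' (inE (dom d d' k) \ inE (T d k ∪ T d' k)))
      (A := {ω | pb π ω ∈ SepA s d d' k}) (G := {ω | pb π ω ∈ SepG s d d' k})
      (H := {ω | pb π ω ∈ Np})
      (hloc (locS_sepA s d d' k) hZdom) (locS_pb (locS_sepA s d d' k))
      (hloc (locS_sepG s d d' k) hdomsub) (incr_pb (incr_sepG s d d' k))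
      (hloc hN hCsub) ((locS_pb hN).mono' hdisj) (incr_pb iN)
    have h2 : {ω | pb π ω ∈ SepA s d d' k} ∩ {ω | pb π ω ∈ SepG s d d' k} =
        {ω | pb π ω ∈ Sep s d d' k} := by
      rw [sep_eq]; rfl
    have h3 : Pr q {ω | pb π ω ∈ Sep s d d' k} = Pr q (Sep s d d' k) := by
      have hl : LocalOn (inE_finite (dom_finite d d' k)).toFinset (Sep s d d' k) := by
        rw [sep_eq]
        refine LocS.localOn' (t := inE (dom d d' k)) ?_ (by simp)
        exact ((locS_sepA s d d' k).mono' Set.sdiff_subset).inter' (locS_sepG s d d' k)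
      refine Pr_comp hl ?_
      intro e he e' he' heq
      rw [Set.Finite.coe_toFinset] at he he'
      exact hinj (hdomsub he) (hdomsub he') heq
    rw [h2, h3] at h1
    calc c₁ * Pr q (Sep s d d' k) ≤ Pr q (Sep s d d' k) * Pr q {ω | pb π ω ∈ Np} := by
          rw [mul_comm]
          exact mul_le_mul_of_nonneg_left hN1 Pr_nonneg
      _ ≤ _ := h1
      _ ≤ _ := Pr_mono fun ω hω => hω
  -- Step B
  have hB := markov_indep (q := q) (Λ := Λ) (c := c₂)
    (fun ω => (FX s d d' k (pb π ω), FY s d d' k (pb π ω))) (fun _ => True)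
    (fun i => π '' (touch (dom d d' k) (i.1 ∪ i.2) ∪ EC))
    (fun i => {ω | pb π ω ∈ {η | η ∈ Sep s d d' k ∧ FX s d d' k η = i.1 ∧ FY s d d' k η = i.2} ∩ Np})
    (fun i => {ω | pb π ω ∈ H (i.1 ∪ i.2)}) ?_ ?_ ?_ ?_ ?_ ?_ ?_ hc₂
  · refine le_trans ?_ (hB.trans (Pr_mono ?_))
    · have e : c₁ * c₂ * Pr q (Sep s d d' k) = c₂ * (c₁ * Pr q (Sep s d d' k)) := by ring
      rw [e]
      refine (mul_le_mul_of_nonneg_left hA hc₂).trans
        (mul_le_mul_of_nonneg_left (Pr_mono ?_) hc₂)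
      intro ω hω
      exact ⟨trivial, ⟨hω.1, rfl, rfl⟩, hω.2⟩
    · intro ω hω
      exact ⟨hω.2.1.1.1, hω.2.1.2, hω.2.2⟩
  · -- the values are local
    rintro ⟨S, S'⟩
    have h1 : LocS (inE (dom d d' k)) {η | FX s d d' k η = S ∧ FY s d d' k η = S'} :=
      fun ω ω' h hω => ⟨locS_FX s d d' k S ω ω' (fun e he => h e he.1) hω.1,
        locS_FY s d d' k S' ω ω' (fun e he => h e he.1) hω.2⟩
    have h2 := hloc h1 hdomsub
    have h3 : {ω | (FX s d d' k (pb π ω), FY s d d' k (pb π ω)) = (S, S')} =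
        {ω | pb π ω ∈ {η | FX s d d' k η = S ∧ FY s d d' k η = S'}} := by
      ext ω
      simp only [Set.mem_ofPred_eq, Prod.mk.injEq]
    rw [h3]
    exact h2
  · rintro ⟨S, S'⟩ -
    have h1 : LocS (touch (dom d d' k) (S ∪ S') ∪ EC)
        {η | FX s d d' k η = S ∧ FY s d d' k η = S'} :=
      fun ω ω' h hω => ⟨locS_FX s d d' k S ω ω'
          (fun e he => h e (Or.inl (touch_mono Set.subset_union_left he))) hω.1,
        locS_FY s d d' k S' ω ω'
          (fun e he => h e (Or.inl (touch_mono Set.subset_union_right he))) hω.2⟩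
    have h2 := locS_pb (π := π) h1
    have h3 : {ω | (FX s d d' k (pb π ω), FY s d d' k (pb π ω)) = (S, S')} =
        {ω | pb π ω ∈ {η | FX s d d' k η = S ∧ FY s d d' k η = S'}} := by
      ext ω
      simp only [Set.mem_ofPred_eq, Prod.mk.injEq]
    rw [h3]
    exact h2
  · rintro ⟨S, S'⟩
    refine hloc (t := touch (dom d d' k) (S ∪ S') ∪ EC) ?_ ?_
    · exact (locS_sep_val s d d' k hT hT' S S').inter' (hN.mono' Set.subset_union_right)
    · rintro e (he | he)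
      · exact hdomsub he.1
      · exact hCsub he
  · rintro ⟨S, S'⟩ -
    exact locS_pb ((locS_sep_val s d d' k hT hT' S S').inter' (hN.mono' Set.subset_union_right))
  · rintro ⟨S, S'⟩ ω ω' h hω
    refine hΛH (S ∪ S') _ _ (fun e he => h (π e) ?_) hω
    rw [hΛ]
    exact Finset.mem_image_of_mem _ (Finset.mem_union_right _ he)
  · rintro ⟨S, S'⟩ - ω ω' h hω
    refine hH (S ∪ S') _ _ (fun e he => h (π e) ?_) hω
    rintro ⟨e', he', heq⟩
    exact he ⟨e', he', heq.symm⟩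
  · rintro ⟨S, S'⟩ -
    exact hH1 (S ∪ S')

end Pool.Agent.H59.EX

end

section

/-!
# Separated four arms on the torus: definitions

The torus of side `N` is `ℤ²` with the periodic configuration `per N ω = pb (modE N) ω`.  The source
edge is `(0, 0, d)`; the first point `(0, 0)` has its mouth in the west, the second point in the
east.  The corridor is the horizontal strip `[28 k, N - 28 k] × [-3 k, 3 k]` from the east target to
the translate by `(N, 0)` of the west target.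
-/

open MeasureTheory ProbabilityTheory unitInterval

namespace Pool.Agent.H26.ST

open Pool.Agent.H89.Perc Pool.Agent.H61.NC Pool.Agent.H59.EX

/-- `s` is the source given by the edge `(0, 0, d)`. -/
structure IsSrc (s : Src) (d : Bool) : Prop where
  x : s.x = (0, 0)
  y : s.y = tgt (0, 0, d)
  E : s.E0 = {(0, 0, d)}

/-- The corridor. -/
def Cor (N k : ℕ) : Set Vert := rect (28 * k) (N - 28 * k) (-(3 * k)) (3 * k)

/-- The edges of the corridor: those of the strip left of the translated west target, and those of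
the west target. -/
def EC (N k : ℕ) : Set Edge := {e | (e ∈ inE (Cor N k) ∧ e.1 < N - 36 * k) ∨ e ∈ inE (T .W k)}

/-- Read the edges with `x ≥ N - 36 k` at the place shifted by `(-N, 0)`. -/
noncomputable def glu (N k : ℕ) (η : Config) : Config :=
  fun e => if e.1 < N - 36 * k then η e else η (e.1 - N, e.2.1, e.2.2)

/-- The corridor is crossed. -/
def NpT (N k : ℕ) : Set Config := {η | HCross (glu N k η) (28 * k) (N - 28 * k) (-(3 * k)) (3 * k)}

/-- A vertical strip off the corridor is not crossed. -/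
def NoX (N k : ℕ) : Set Config := {η | ¬ HCross η (40 * k) (50 * k) (3 * k + 1) (N - 3 * k - 1)}

/-- Seals and a closed vertical strip. -/
def HT (N k ρ K : ℕ) (S : Set Vert) : Set Config :=
  Seal (grid ρ K) ρ (detE (modE N) .W .E k (EC N k) S) ∩ NoX N k

end Pool.Agent.H26.ST

end

section

/-!
# The sausages `Y ∪ corridor ∪ (X + (N, 0))` and their translates are far apart
-/

open MeasureTheory ProbabilityTheory unitInterval

namespace Pool.Agent.H26.ST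

open Pool.Agent.H89.Perc Pool.Agent.H61.NC Pool.Agent.H59.EX

/-- Periodic configuration. -/
def PerInv (N : ℕ) (ζ : Config) : Prop :=
  ∀ (z : ℤ × ℤ) (e : Edge), ζ (shiftE (z.1 * N, z.2 * N) e) = ζ e

/-- Translation by `-z N`. -/
def sh (N : ℕ) (z : ℤ × ℤ) (v : Vert) : Vert := (v.1 - z.1 * N, v.2 - z.2 * N)

/-- The data of the deterministic argument. -/
structure TD (N k : ℕ) (ζ : Config) (X Y : Set Vert) : Prop where
  hk : 64 ≤ k
  hN : 128 * k ≤ N
  per : PerInv N ζ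
  Xs : X ⊆ dom .W .E k
  Ys : Y ⊆ dom .W .E k
  TX : T .W k ⊆ X
  TY : T .E k ⊆ Y
  disj : ∀ v ∈ X, v ∉ Y
  clX : ∀ a ∈ X, ∀ b ∈ dom .W .E k, ∀ e, Joins e a b → ζ e = true → b ∈ X
  clY : ∀ a ∈ Y, ∀ b ∈ dom .W .E k, ∀ e, Joins e a b → ζ e = true → b ∈ Y
  mX : ∀ v ∈ X, v ∈ sphere 0 (32 * k) → v ∈ Mouth .W k
  mY : ∀ v ∈ Y, v ∈ sphere 0 (32 * k) → v ∈ Mouth .E k

/-- Equal or joined by an open edge. -/
def Rel1 (ζ : Config) (a b : Vert) : Prop := a = b ∨ ∃ e, Joins e a b ∧ ζ e = true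

/-- In the sausage with index `z`. -/
def In (N k : ℕ) (X Y : Set Vert) (z : ℤ × ℤ) (v : Vert) : Prop :=
  sh N z v ∈ Y ∨ sh N z v ∈ Cor N k ∨ sh N (z.1 + 1, z.2) v ∈ X

theorem Rel1.symm {ζ : Config} {a b : Vert} (h : Rel1 ζ a b) : Rel1 ζ b a := by
  rcases h with h | ⟨e, he, ho⟩
  · exact Or.inl h.symm
  · exact Or.inr ⟨e, he.symm, ho⟩

theorem near_of_joins {e : Edge} {a b : Vert} (hj : Joins e a b) :
    b.1 ≤ a.1 + 1 ∧ a.1 ≤ b.1 + 1 ∧ b.2 ≤ a.2 + 1 ∧ a.2 ≤ b.2 + 1 := by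
  have h : Step allOpen Set.univ a b := ⟨trivial, trivial, e, hj, rfl⟩
  exact ⟨h.fst_le.1, h.fst_le.2, h.snd_le.1, h.snd_le.2⟩

theorem Rel1.near {ζ : Config} {a b : Vert} (h : Rel1 ζ a b) :
    b.1 ≤ a.1 + 1 ∧ a.1 ≤ b.1 + 1 ∧ b.2 ≤ a.2 + 1 ∧ a.2 ≤ b.2 + 1 := by
  rcases h with h | ⟨e, he, ho⟩
  · subst h; omega
  · exact near_of_joins he

theorem joins_sh {N : ℕ} (z : ℤ × ℤ) {e : Edge} {a b : Vert} (h : Joins e a b) :
    Joins (shiftE (-(z.1 * N), -(z.2 * N)) e) (sh N z a) (sh N z b) := by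
  have := joins_shift (-(z.1 * N), -(z.2 * N)) h
  simpa [sh, sub_eq_add_neg] using this

theorem per_sh {N : ℕ} {ζ : Config} (h : PerInv N ζ) (z : ℤ × ℤ) (e : Edge) :
    ζ (shiftE (-(z.1 * N), -(z.2 * N)) e) = ζ e := by
  have := h (-z.1, -z.2) e
  simpa using this

theorem Rel1.sh {N : ℕ} {ζ : Config} (hp : PerInv N ζ) (z : ℤ × ℤ) {a b : Vert}
    (h : Rel1 ζ a b) : Rel1 ζ (sh N z a) (sh N z b) := by
  rcases h with h | ⟨e, he, ho⟩
  · exact Or.inl (by rw [h])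
  · exact Or.inr ⟨_, joins_sh z he, by rw [per_sh hp]; exact ho⟩

theorem mulN (N : ℕ) (z : ℤ) : (z ≤ -1 ∧ z * N ≤ -N) ∨ (z = 0 ∧ z * N = 0) ∨
    (z = 1 ∧ z * N = N) ∨ (2 ≤ z ∧ 2 * N ≤ z * N) := by
  have h0 : (0 : ℤ) ≤ N := Int.natCast_nonneg N
  rcases lt_trichotomy z 0 with h | h | h
  · left
    exact ⟨by omega, by nlinarith⟩
  · right; left
    exact ⟨h, by rw [h]; ring⟩
  · rcases eq_or_lt_of_le (show 1 ≤ z by omega) with h1 | h1
    · right; right; left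
      exact ⟨h1.symm, by rw [← h1]; ring⟩
    · right; right; right
      exact ⟨by omega, by nlinarith⟩

theorem mem_dom {k : ℕ} {v : Vert} : v ∈ dom .W .E k ↔
    (-(32 * k : ℤ) ≤ v.1 ∧ v.1 ≤ 32 * k ∧ -(32 * k : ℤ) ≤ v.2 ∧ v.2 ≤ 32 * k) ∨
    (-(36 * k : ℤ) ≤ v.1 ∧ v.1 ≤ -(28 * k) ∧ -(3 * k : ℤ) ≤ v.2 ∧ v.2 ≤ 3 * k) ∨
    (28 * k ≤ v.1 ∧ v.1 ≤ 36 * k ∧ -(3 * k : ℤ) ≤ v.2 ∧ v.2 ≤ 3 * k) := by
  simp only [dom, Set.mem_union, mem_ball, T, rect, Set.mem_ofPred_eq, Prod.fst_zero, Prod.snd_zero,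
    Nat.cast_mul, Nat.cast_ofNat, zero_sub, zero_add]

theorem mem_TW {k : ℕ} {v : Vert} : v ∈ T .W k ↔
    (-(36 * k : ℤ) ≤ v.1 ∧ v.1 ≤ -(28 * k) ∧ -(3 * k : ℤ) ≤ v.2 ∧ v.2 ≤ 3 * k) := Iff.rfl

theorem mem_TE {k : ℕ} {v : Vert} : v ∈ T .E k ↔
    (28 * (k : ℤ) ≤ v.1 ∧ v.1 ≤ 36 * k ∧ -(3 * k : ℤ) ≤ v.2 ∧ v.2 ≤ 3 * k) := Iff.rfl

theorem mem_Cor {N k : ℕ} {v : Vert} : v ∈ Cor N k ↔
    (28 * (k : ℤ) ≤ v.1 ∧ v.1 ≤ N - 28 * k ∧ -(3 * k : ℤ) ≤ v.2 ∧ v.2 ≤ 3 * k) := Iff.rfl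

variable {N k : ℕ} {ζ : Config} {X Y : Set Vert} {a b : Vert} {i j : ℤ × ℤ}

theorem TD.xy (h : TD N k ζ X Y) (ha : a ∈ X) (hb : b ∈ Y) (hr : Rel1 ζ a b) : False := by
  rcases hr with hr | ⟨e, he, ho⟩
  · exact h.disj a ha (hr ▸ hb)
  · exact h.disj b (h.clX a ha b (h.Ys hb) e he ho) hb

/-- Two translates of the domain which are close are equal. -/
theorem TD.domdom (h : TD N k ζ X Y) (ha : sh N i a ∈ dom .W .E k) (hb : sh N j b ∈ dom .W .E k)
    (hr : Rel1 ζ a b) : i = j := by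
  have hn := hr.near
  have hk := h.hk
  have hN : (128 * k : ℤ) ≤ N := by exact_mod_cast h.hN
  rw [mem_dom] at ha hb
  simp only [sh] at ha hb
  have e1 := mulN N (i.1 - j.1)
  have e2 := mulN N (i.2 - j.2)
  rw [sub_mul] at e1 e2
  obtain ⟨i1, i2⟩ := i
  obtain ⟨j1, j2⟩ := j
  simp only at *
  rw [Prod.mk.injEq]
  omega

theorem TD.cor (h : TD N k ζ X Y) (ha : sh N i a ∈ Cor N k) (hb : sh N j b ∈ Cor N k)
    (hr : Rel1 ζ a b) : i = j := by
  have hn := hr.near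
  have hk := h.hk
  have hN : (128 * k : ℤ) ≤ N := by exact_mod_cast h.hN
  rw [mem_Cor] at ha hb
  simp only [sh] at ha hb
  have e1 := mulN N (i.1 - j.1)
  have e2 := mulN N (i.2 - j.2)
  rw [sub_mul] at e1 e2
  obtain ⟨i1, i2⟩ := i
  obtain ⟨j1, j2⟩ := j
  simp only at *
  rw [Prod.mk.injEq]
  omega

theorem TD.XY (h : TD N k ζ X Y) (ha : sh N i a ∈ X) (hb : sh N j b ∈ Y)
    (hr : Rel1 ζ a b) : False := by
  have h1 := h.domdom (h.Xs ha) (h.Ys hb) hr
  subst h1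
  exact h.xy ha hb (hr.sh h.per i)

theorem TD.YC (h : TD N k ζ X Y) (ha : sh N i a ∈ Y) (hb : sh N j b ∈ Cor N k)
    (hr : Rel1 ζ a b) : i = j := by
  have hr' := hr.sh h.per i
  have hn := hr'.near
  have hk := h.hk
  have hN : (128 * k : ℤ) ≤ N := by exact_mod_cast h.hN
  have hd := h.Ys ha
  have hTW : sh N i a ∉ T .W k := fun h1 => h.disj _ (h.TX h1) ha
  have hbX : sh N i b ∉ T .W k := fun h1 => h.xy (h.TX h1) ha hr'.symm
  rw [mem_dom] at hd
  rw [mem_TW] at hTW hbX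
  rw [mem_Cor] at hb
  have e1 := mulN N (i.1 - j.1)
  have e2 := mulN N (i.2 - j.2)
  rw [sub_mul] at e1 e2
  simp only [sh] at *
  obtain ⟨i1, i2⟩ := i
  obtain ⟨j1, j2⟩ := j
  simp only at *
  rw [Prod.mk.injEq]
  omega

theorem TD.XC (h : TD N k ζ X Y) (ha : sh N i a ∈ X) (hb : sh N j b ∈ Cor N k)
    (hr : Rel1 ζ a b) : i = (j.1 + 1, j.2) := by
  have hr' := hr.sh h.per i
  have hn := hr'.near
  have hk := h.hk
  have hN : (128 * k : ℤ) ≤ N := by exact_mod_cast h.hN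
  have hd := h.Xs ha
  have hTE : sh N i a ∉ T .E k := fun h1 => h.disj _ ha (h.TY h1)
  have hbY : sh N i b ∉ T .E k := fun h1 => h.xy ha (h.TY h1) hr'
  rw [mem_dom] at hd
  rw [mem_TE] at hTE hbY
  rw [mem_Cor] at hb
  have e1 := mulN N (i.1 - j.1)
  have e2 := mulN N (i.2 - j.2)
  rw [sub_mul] at e1 e2
  simp only [sh] at *
  obtain ⟨i1, i2⟩ := i
  obtain ⟨j1, j2⟩ := j
  simp only at *
  rw [Prod.mk.injEq]
  omega

/-- Different sausages are neither joined by an open edge nor do they intersect. -/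
theorem TD.sep (h : TD N k ζ X Y) (ha : In N k X Y i a) (hb : In N k X Y j b)
    (hr : Rel1 ζ a b) : i = j := by
  rcases ha with ha | ha | ha <;> rcases hb with hb | hb | hb
  · exact h.domdom (h.Ys ha) (h.Ys hb) hr
  · exact h.YC ha hb hr
  · exact (h.XY hb ha hr.symm).elim
  · exact (h.YC hb ha hr.symm).symm
  · exact h.cor ha hb hr
  · have h1 := h.XC hb ha hr.symm
    rw [Prod.mk.injEq] at h1
    exact (Prod.ext (by omega) h1.2).symm
  · exact (h.XY ha hb hr).elim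
  · have h1 := h.XC ha hb hr
    rw [Prod.mk.injEq] at h1
    exact Prod.ext (by omega) h1.2
  · have h1 := h.domdom (h.Xs ha) (h.Xs hb) hr
    rw [Prod.mk.injEq] at h1
    exact Prod.ext (by omega) h1.2

/-- Open edges leave the sausage near the corridor. -/
theorem TD.exit (h : TD N k ζ X Y) (ha : In N k X Y (0, 0) a) (hb : ¬ In N k X Y (0, 0) b)
    {e : Edge} (he : Joins e a b) (ho : ζ e = true) :
    28 * (k : ℤ) ≤ a.1 ∧ a.1 ≤ N - 28 * k ∧ -(4 * k : ℤ) ≤ a.2 ∧ a.2 ≤ 4 * k := by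
  have hn := near_of_joins he
  have hk := h.hk
  have hN : (128 * k : ℤ) ≤ N := by exact_mod_cast h.hN
  have s0 : ∀ v : Vert, sh N (0, 0) v = v := fun v => by simp [sh]
  unfold In at ha hb
  rw [s0] at ha hb
  push Not at hb
  have hr : Rel1 ζ a b := Or.inr ⟨e, he, ho⟩
  rcases ha with ha | ha | ha
  · have hd := h.Ys ha
    have hbd : b ∉ dom .W .E k := fun h1 => hb.1 (h.clY a ha b h1 e he ho)
    have hTW : a ∉ T .W k := fun h1 => h.disj _ (h.TX h1) ha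
    by_cases hTE : a ∈ T .E k
    · rw [mem_TE] at hTE; omega
    have hab : a ∈ ball 0 (32 * k) := by
      rcases hd with hd | hd | hd
      · exact hd
      · exact absurd hd hTW
      · exact absurd hd hTE
    have hbb : b ∉ ball 0 (32 * k) := fun h1 => hbd (Or.inl h1)
    have := h.mY a ha (mem_sphere_of_joins he hab hbb)
    simp only [Mouth, rect, Set.mem_ofPred_eq] at this
    omega
  · rw [mem_Cor] at ha
    omega
  · have he' := joins_sh (N := N) (0 + 1, 0) he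
    have ho' : ζ (shiftE (-(((0 : ℤ) + 1, (0 : ℤ)).1 * N), -(((0 : ℤ) + 1, (0 : ℤ)).2 * N)) e) = true := by
      rw [per_sh h.per]; exact ho
    have hd := h.Xs ha
    have hbd : sh N (0 + 1, 0) b ∉ dom .W .E k := fun h1 => hb.2.2 (h.clX _ ha _ h1 _ he' ho')
    have hTE : sh N (0 + 1, 0) a ∉ T .E k := fun h1 => h.disj _ ha (h.TY h1)
    by_cases hTW : sh N (0 + 1, 0) a ∈ T .W k
    · rw [mem_TW] at hTW
      simp only [sh] at hTW
      omega
    have hab : sh N (0 + 1, 0) a ∈ ball 0 (32 * k) := by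
      rcases hd with hd | hd | hd
      · exact hd
      · exact absurd hd hTW
      · exact absurd hd hTE
    have hbb : sh N (0 + 1, 0) b ∉ ball 0 (32 * k) := fun h1 => hbd (Or.inl h1)
    have := h.mX _ ha (mem_sphere_of_joins he' hab hbb)
    simp only [Mouth, rect, Set.mem_ofPred_eq, sh] at this
    omega

end Pool.Agent.H26.ST

end

section

/-!
# With the source edge open there is a winding path
-/

open MeasureTheory ProbabilityTheory unitInterval

namespace Pool.Agent.H26.ST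

open Pool.Agent.H89.Perc Pool.Agent.H61.NC Pool.Agent.H59.EX

theorem glu_per (N k : ℕ) (ω : Config) : glu N k (per N ω) = per N ω := by
  funext e
  unfold glu
  split_ifs with h
  · rfl
  · simp only [per, Int.sub_emod_right]

private theorem per_x (N : ℕ) (ω : Config) (e : Edge) :
    per N ω (shiftE ((N : ℤ), 0) e) = per N ω e := by
  obtain ⟨a, b, t⟩ := e
  simp only [per, shiftE, Int.add_emod_right, add_zero]

private theorem conn_x {N : ℕ} {ω : Config} {S S' : Set Vert}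
    (hS : ∀ w ∈ S, ((w.1 + N, w.2) : Vert) ∈ S') {u v : Vert} (h : Conn (per N ω) S u v) :
    Conn (per N ω) S' (u.1 + N, u.2) (v.1 + N, v.2) := by
  refine h.map (fun w => (w.1 + N, w.2)) hS ?_
  intro e a b hj ho
  refine ⟨shiftE ((N : ℤ), 0) e, ?_, ?_⟩
  · have := joins_shift ((N : ℤ), 0) hj
    simpa using this
  · rw [per_x]
    exact ho

/-- The path `x - y - T E - corridor - T W + (N, 0) - x + (N, 0)`. -/
theorem open_wind {N k : ℕ} {d : Bool} {s : Src} (hs : IsSrc s d) (hk : 64 ≤ k)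
    (hN : 128 * k ≤ N) {ω : Config} (h1 : per N ω ∈ Pool.Agent.H59.EX.Sep s .W .E k)
    (h2 : per N ω ∈ NpT N k) : Function.update ω (0, 0, d) true ∈ Wind N := by
  obtain ⟨ω', hω'⟩ : ∃ ω' : Config, ω' = Function.update ω (0, 0, d) true := ⟨_, rfl⟩
  rw [← hω']
  have hk' : (64 : ℤ) ≤ k := by exact_mod_cast hk
  have hN' : 128 * (k : ℤ) ≤ N := by exact_mod_cast hN
  have hle0 : ∀ e, ω e = true → ω' e = true := by
    intro e he
    rw [hω', Function.update_apply]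
    split_ifs
    · rfl
    · exact he
  have hle : ∀ e, per N ω e = true → per N ω' e = true := fun e he => hle0 _ he
  have hcut : ∀ e, s.cut (per N ω) e = true → per N ω' e = true := fun e he => hle e (cut_le he)
  obtain ⟨⟨uW, vW, pW, qW, cW, dW⟩, ⟨uE, vE, pE, qE, cE, dE⟩, -⟩ := h1
  obtain ⟨u, v, p, q, c⟩ : HCross (glu N k (per N ω)) (28 * k) (N - 28 * k) (-(3 * k)) (3 * k) := h2
  rw [glu_per] at c
  have c1 := c.mono le_rfl hle
  have cE1 : Conn (per N ω') (rect (28 * k) (36 * k) (-(3 * k)) (3 * k)) uE vE :=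
    Conn.mono le_rfl hcut cE
  have cW1 : Conn (per N ω') (rect (-(36 * k)) (-(28 * k)) (-(3 * k)) (3 * k)) uW vW :=
    Conn.mono le_rfl hcut cW
  have cW2 := conn_x (S' := rect (N - 36 * k) (N - 28 * k) (-(3 * k)) (3 * k)) (fun w hw => by
    simp only [rect, Set.mem_ofPred_eq] at hw ⊢
    omega) cW1
  obtain ⟨z1, a1, b1⟩ := Pool.Agent.H85.Strict.hv_meet c1 (by omega) (by omega) cE1 (by omega)
    (by omega) (by omega) (by omega)
  obtain ⟨z2, a2, b2⟩ := Pool.Agent.H85.Strict.hv_meet c1 (by omega) (by omega) cW2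
    (by simp only; omega) (by simp only; omega) (by omega) (by omega)
  have sub : ∀ S : Set Vert, S ⊆ Set.univ := fun S => Set.subset_univ S
  -- the source edge
  have hxy : Conn (per N ω') Set.univ s.x s.y := by
    refine Step.conn ⟨trivial, trivial, (0, 0, d), ?_, ?_⟩
    · rw [hs.x, hs.y]
      exact Or.inl ⟨rfl, rfl⟩
    · simp only [per, Int.zero_emod]
      rw [hω', Function.update_self]
  have k1 : Conn (per N ω') Set.univ s.y uE := Conn.mono (sub _) hcut dE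
  have k2 : Conn (per N ω') Set.univ uE (uW.1 + N, uW.2) :=
    (((b1.mono_set (sub _)).trans (a1.mono_set (sub _)).symm).trans
      (a2.mono_set (sub _))).trans (b2.mono_set (sub _)).symm
  have k3 : Conn (per N ω') Set.univ s.x uW := Conn.mono (sub _) hcut dW
  have k4 := conn_x (S' := Set.univ) (fun _ _ => trivial) k3
  refine ⟨s.x, 1, 0, one_ne_zero, ?_⟩
  have e1 : ((s.x.1 + 1 * (N : ℤ), s.x.2 + 0 * (N : ℤ)) : Vert) = (s.x.1 + N, s.x.2) := by
    rw [one_mul, zero_mul, add_zero]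
  rw [e1]
  exact ((hxy.trans k1).trans k2).trans k4.symm

end Pool.Agent.H26.ST

end
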