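import Pool.Agent.H31.PT.M06

/-! The parts of this file: H57.EX.GeoR, H57.EX.Geo, H26.HP.Two, H26.HP.Three, H26.HP.Frame, H26.HP.Bad. -/

section

/-!
# Geo: passage from `ℤ × ℤ` to `ℝ × ℝ` with the sup norm, polar coordinates of the sup norm
-/

namespace Pool.Agent.H57.EX

open Pool.Agent.H89.Perc Pool.Agent.H61.NC Pool.Agent.H29.Sep

/-- A vertex as a point of the real plane. -/
def toR (v : Vert) : ℝ × ℝ := ((v.1 : ℝ), (v.2 : ℝ))

/-- Rounding. -/
noncomputable def rd (z : ℝ × ℝ) : Vert := (⌊z.1⌋, ⌊z.2⌋)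

theorem rd_toR (v : Vert) : rd (toR v) = v := by
  simp [rd, toR]

theorem norm_rd (z : ℝ × ℝ) : ‖toR (rd z) - z‖ ≤ 1 := by
  rw [Prod.norm_def]
  simp only [toR, rd, Prod.fst_sub, Prod.snd_sub, Real.norm_eq_abs]
  refine max_le ?_ ?_
  · rw [abs_le]
    have h1 := Int.floor_le z.1
    have h2 := Int.lt_floor_add_one z.1
    constructor <;> linarith
  · rw [abs_le]
    have h1 := Int.floor_le z.2
    have h2 := Int.lt_floor_add_one z.2
    constructor <;> linarith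

theorem mem_ball_iff_norm {w z : Vert} {r : ℕ} : w ∈ ball z r ↔ ‖toR w - toR z‖ ≤ r := by
  rw [Prod.norm_def, max_le_iff]
  simp only [toR, Prod.fst_sub, Prod.snd_sub, Real.norm_eq_abs, abs_le]
  have e1 : w ∈ ball z r ↔ (-(r : ℤ) ≤ w.1 - z.1 ∧ w.1 - z.1 ≤ r) ∧
      (-(r : ℤ) ≤ w.2 - z.2 ∧ w.2 - z.2 ≤ r) := by
    constructor
    · rintro ⟨h1, h2, h3, h4⟩
      refine ⟨⟨?_, ?_⟩, ?_, ?_⟩ <;> linarith
    · rintro ⟨⟨h1, h2⟩, h3, h4⟩
      refine ⟨?_, ?_, ?_, ?_⟩ <;> linarith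
  rw [e1]
  have e2 : ∀ a b : ℤ, (-(r : ℝ) ≤ (a : ℝ) - b ∧ (a : ℝ) - b ≤ r) ↔
      (-(r : ℤ) ≤ a - b ∧ a - b ≤ r) := by
    intro a b
    constructor
    · rintro ⟨h1, h2⟩
      exact ⟨by exact_mod_cast h1, by exact_mod_cast h2⟩
    · rintro ⟨h1, h2⟩
      exact ⟨by exact_mod_cast h1, by exact_mod_cast h2⟩
  rw [e2, e2]

theorem nrm_eq_norm (v : Vert) : (nrm v : ℝ) = ‖toR v‖ := by
  rw [Prod.norm_def]
  simp only [toR, nrm, Real.norm_eq_abs]
  push_cast
  rfl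

theorem mem_sphere_iff_norm {v : Vert} {r : ℕ} : v ∈ sphere 0 r ↔ ‖toR v‖ = r := by
  rw [← nrm_eq_norm]
  have e1 : (nrm v : ℝ) = r ↔ nrm v = r := by
    constructor
    · intro h
      exact_mod_cast h
    · intro h
      rw [h]
      rfl
  rw [e1]
  simp only [sphere, ball, rect, Set.mem_ofPred_eq, Prod.fst_zero, Prod.snd_zero, nrm]
  rcases abs_cases v.1 with h1 | h1 <;> rcases abs_cases v.2 with h2 | h2 <;>
    rcases max_cases |v.1| |v.2| with h3 | h3 <;> omega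

theorem pol_norm {a : ℝ × ℝ} {l : ℝ} (hl : 0 ≤ l) (ha : ‖a‖ = 1) : ‖l • a‖ = l := by
  rw [norm_smul, ha, mul_one, Real.norm_of_nonneg hl]

theorem pol_ge_abs {a b : ℝ × ℝ} {l l' : ℝ} (hl : 0 ≤ l) (hl' : 0 ≤ l') (ha : ‖a‖ = 1)
    (hb : ‖b‖ = 1) : |l - l'| ≤ ‖l • a - l' • b‖ := by
  have h1 := abs_norm_sub_norm_le (l • a) (l' • b)
  rwa [pol_norm hl ha, pol_norm hl' hb] at h1

theorem pol_ge {a b : ℝ × ℝ} {l l' : ℝ} (hl : 0 ≤ l) (hl' : 0 ≤ l') (ha : ‖a‖ = 1)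
    (hb : ‖b‖ = 1) : l' * ‖a - b‖ ≤ 2 * ‖l • a - l' • b‖ := by
  have h1 : l' * ‖a - b‖ = ‖l' • (a - b)‖ := by
    rw [norm_smul, Real.norm_of_nonneg hl']
  have h2 : l' • (a - b) = (l • a - l' • b) - (l - l') • a := by
    rw [smul_sub, sub_smul]
    abel
  have h3 : ‖(l - l') • a‖ = |l - l'| := by
    rw [norm_smul, ha, mul_one, Real.norm_eq_abs]
  have h4 := norm_sub_le (l • a - l' • b) ((l - l') • a)
  have h5 := pol_ge_abs hl hl' ha hb
  rw [h1, h2]
  rw [h3] at h4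
  linarith

theorem pol_le {a b : ℝ × ℝ} {l l' : ℝ} (hl : 0 ≤ l) (_hl' : 0 ≤ l') (_ha : ‖a‖ = 1)
    (hb : ‖b‖ = 1) :
    ‖l • a - l' • b‖ ≤ |l - l'| + l * ‖a - b‖ := by
  have h1 : l * ‖a - b‖ = ‖l • (a - b)‖ := by
    rw [norm_smul, Real.norm_of_nonneg hl]
  have h2 : l • a - l' • b = (l - l') • b + l • (a - b) := by
    rw [smul_sub, sub_smul]
    abel
  have h3 : ‖(l - l') • b‖ = |l - l'| := by
    rw [norm_smul, hb, mul_one, Real.norm_eq_abs]
  rw [h1, h2, ← h3]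
  exact norm_add_le _ _

end Pool.Agent.H57.EX

end

section

/-!
# Existence of the chains (plane geometry)
-/

namespace Pool.Agent.H57.EX

open Pool.Agent.H89.Perc Pool.Agent.H61.NC Pool.Agent.H29.Sep

/-! ### Clamping -/

/-- Clamp to `[0, 1]`. -/
private noncomputable def gc (x : ℝ) : ℝ := max 0 (min x 1)

private lemma gc_nonneg (x : ℝ) : 0 ≤ gc x := le_max_left _ _

private lemma gc_le_one (x : ℝ) : gc x ≤ 1 := max_le (by norm_num) (min_le_right _ _)

private lemma gc_of_nonpos {x : ℝ} (h : x ≤ 0) : gc x = 0 := by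
  unfold gc
  rw [min_eq_left (by linarith), max_eq_left h]

private lemma gc_of_one_le {x : ℝ} (h : 1 ≤ x) : gc x = 1 := by
  unfold gc
  rw [min_eq_right h, max_eq_right (by norm_num)]

private lemma gc_lip (x y : ℝ) : |gc x - gc y| ≤ |x - y| := by
  unfold gc
  have h1 := abs_max_sub_max_le_max (0 : ℝ) (min x 1) 0 (min y 1)
  have h2 := abs_min_sub_min_le_max x 1 y 1
  simp only [sub_self, abs_zero] at h1 h2
  exact (h1.trans (max_le (abs_nonneg _) le_rfl)).trans (h2.trans (max_le le_rfl (abs_nonneg _)))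

/-! ### From curves to chains -/

private lemma geo_zgood {m s n : ℕ} {b b' : Vert} {c : ℕ → ℝ × ℝ} (h0 : c 0 = toR b)
    (hn : c n = toR b') (hs : ∀ i < n, ‖c (i + 1) - c i‖ + 2 ≤ 2 * (s : ℝ))
    (hlo : ∀ i ≤ n, 4 * (m : ℝ) ≤ ‖c i‖) (hhi : ∀ i ≤ n, ‖c i‖ ≤ 16 * (m : ℝ))
    (hin : ∀ i ≤ n, ‖c i‖ ≤ 4 * (m : ℝ) + 8 * s + 1 → ‖c i - toR b‖ ≤ 8 * s + 1)
    (hout : ∀ i ≤ n, 16 * (m : ℝ) - 8 * s - 1 ≤ ‖c i‖ → ‖c i - toR b'‖ ≤ 8 * s + 1)
    (hs1 : 1 ≤ s) (hsm : 3 * s + 1 ≤ m) : ZGood m s (fun i => rd (c i)) n b b' := by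
  have hs1' : (1 : ℝ) ≤ s := by exact_mod_cast hs1
  have hsm' : 3 * (s : ℝ) + 1 ≤ m := by exact_mod_cast hsm
  have hrd : ∀ i, ‖toR (rd (c i)) - c i‖ ≤ 1 := fun i => norm_rd (c i)
  have hz : ∀ w ∈ zone (fun i => rd (c i)) n s, ∃ i ≤ n, ‖toR w - c i‖ ≤ 3 * s + 1 := by
    rintro w ⟨i, hi, hw⟩
    rw [mem_ball_iff_norm] at hw
    push_cast at hw
    refine ⟨i, hi, ?_⟩
    have h1 := norm_sub_le_norm_sub_add_norm_sub (toR w) (toR (rd (c i))) (c i)
    have h2 := hrd i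
    linarith
  have hnrm : ∀ w : Vert, ∀ i, |‖toR w‖ - ‖c i‖| ≤ ‖toR w - c i‖ := fun w i =>
    abs_norm_sub_norm_le _ _
  refine ⟨⟨?_, ?_, ?_⟩, ?_, ?_, ?_, ?_⟩
  · simp only [h0, rd_toR]
  · simp only [hn, rd_toR]
  · intro i hi
    rw [mem_ball_iff_norm]
    push_cast
    have h1 := hs i hi
    have h2 := hrd i
    have h3 := hrd (i + 1)
    have h4 : toR (rd (c (i + 1))) - toR (rd (c i)) =
        (toR (rd (c (i + 1))) - c (i + 1)) + (c (i + 1) - c i) - (toR (rd (c i)) - c i) := by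
      abel
    rw [h4]
    have h5 := norm_sub_le ((toR (rd (c (i + 1))) - c (i + 1)) + (c (i + 1) - c i))
      (toR (rd (c i)) - c i)
    have h6 := norm_add_le (toR (rd (c (i + 1))) - c (i + 1)) (c (i + 1) - c i)
    linarith
  · intro w hw hw2
    obtain ⟨i, hi, h1⟩ := hz w hw
    rw [mem_ball_iff_norm]
    push_cast
    have h2 : (nrm w : ℝ) ≤ 4 * m + 5 * s := by exact_mod_cast hw2
    rw [nrm_eq_norm] at h2
    have h3 := hnrm w i
    rw [abs_le] at h3
    have h4 := hin i hi (by linarith)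
    have h5 := norm_sub_le_norm_sub_add_norm_sub (toR w) (c i) (toR b)
    linarith
  · intro w hw hw2
    obtain ⟨i, hi, h1⟩ := hz w hw
    rw [mem_ball_iff_norm]
    push_cast
    have h2 : 16 * (m : ℝ) - 5 * s ≤ (nrm w : ℝ) := by exact_mod_cast hw2
    rw [nrm_eq_norm] at h2
    have h3 := hnrm w i
    rw [abs_le] at h3
    have h4 := hout i hi (by linarith)
    have h5 := norm_sub_le_norm_sub_add_norm_sub (toR w) (c i) (toR b')
    linarith
  · intro w hw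
    obtain ⟨i, hi, h1⟩ := hz w hw
    have h3 := hnrm w i
    rw [abs_le] at h3
    have h4 := hlo i hi
    have h5 : 3 * (m : ℝ) ≤ (nrm w : ℝ) := by
      rw [nrm_eq_norm]
      linarith
    exact_mod_cast h5
  · intro w hw
    obtain ⟨i, hi, h1⟩ := hz w hw
    have h3 := hnrm w i
    rw [abs_le] at h3
    have h4 := hhi i hi
    have h5 : (nrm w : ℝ) ≤ 17 * (m : ℝ) := by
      rw [nrm_eq_norm]
      linarith
    exact_mod_cast h5

private lemma geo_sep {s s' n n' : ℕ} {c c' : ℕ → ℝ × ℝ}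
    (h : ∀ i ≤ n, ∀ j ≤ n', 6 * (s : ℝ) ≤ ‖c' j - c i‖) (hss : 11 * (s' : ℝ) + 2 < 3 * s) :
    ∀ w ∈ zone (fun i => rd (c' i)) n' s', ∀ z ∈ zone (fun i => rd (c i)) n s,
      w ∉ ball z (8 * s') := by
  rintro w ⟨j, hj, hw⟩ z ⟨i, hi, hz⟩ hwz
  rw [mem_ball_iff_norm] at hw hz hwz
  push_cast at hw hz hwz
  have h1 := norm_rd (c i)
  have h2 := norm_rd (c' j)
  have h3 := h i hi j hj
  have h4 : c' j - c i = -(toR (rd (c' j)) - c' j) - (toR w - toR (rd (c' j))) +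
      (toR w - toR z) + (toR z - toR (rd (c i))) + (toR (rd (c i)) - c i) := by abel
  rw [h4] at h3
  have k1 := norm_add_le (-(toR (rd (c' j)) - c' j) - (toR w - toR (rd (c' j))) +
      (toR w - toR z) + (toR z - toR (rd (c i)))) (toR (rd (c i)) - c i)
  have k2 := norm_add_le (-(toR (rd (c' j)) - c' j) - (toR w - toR (rd (c' j))) +
      (toR w - toR z)) (toR z - toR (rd (c i)))
  have k3 := norm_add_le (-(toR (rd (c' j)) - c' j) - (toR w - toR (rd (c' j)))) (toR w - toR z)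
  have k4 := norm_sub_le (-(toR (rd (c' j)) - c' j)) (toR w - toR (rd (c' j)))
  rw [norm_neg] at k4
  linarith

/-! ### The two curves in polar coordinates -/

/-- The angle of the coarse curve at radius `λ m`. -/
private noncomputable def gt (tb tb' l : ℝ) : ℝ := tb + (tb' - tb) * gc ((l - 6) / 8)

private lemma gt_low {tb tb' l : ℝ} (h : l ≤ 6) : gt tb tb' l = tb := by
  unfold gt
  rw [gc_of_nonpos (by linarith)]
  ring

private lemma gt_high {tb tb' l : ℝ} (h : 14 ≤ l) : gt tb tb' l = tb' := by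
  unfold gt
  rw [gc_of_one_le (by linarith)]
  ring

private lemma gt_lip {tb tb' : ℝ} (h : |tb' - tb| ≤ 4) (l l' : ℝ) :
    |gt tb tb' l - gt tb tb' l'| ≤ |l - l'| / 2 := by
  have e : gt tb tb' l - gt tb tb' l' = (tb' - tb) * (gc ((l - 6) / 8) - gc ((l' - 6) / 8)) := by
    unfold gt; ring
  rw [e, abs_mul]
  have h1 := gc_lip ((l - 6) / 8) ((l' - 6) / 8)
  have h2 : (l - 6) / 8 - (l' - 6) / 8 = (l - l') / 8 := by ring
  rw [h2, abs_div, abs_of_pos (show (0 : ℝ) < 8 by norm_num)] at h1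
  have h3 := abs_nonneg (gc ((l - 6) / 8) - gc ((l' - 6) / 8))
  calc |tb' - tb| * |gc ((l - 6) / 8) - gc ((l' - 6) / 8)|
      ≤ 4 * (|l - l'| / 8) := mul_le_mul h h1 h3 (by norm_num)
    _ = |l - l'| / 2 := by ring

/-- Radius of the fine curve. -/
private noncomputable def gl (u : ℝ) : ℝ := 4 + gc u + 10 * gc (u - 2) + gc (u - 4)

/-- Angle of the fine curve. -/
private noncomputable def ga (tb tb' ta ta' u : ℝ) : ℝ :=
  ta + (tb + 4 - ta) * gc (u - 1) + (gt tb tb' (gl u) - tb) + (ta' - (tb' + 4)) * gc (u - 3)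

private lemma gl_bounds (u : ℝ) : 4 ≤ gl u ∧ gl u ≤ 16 := by
  unfold gl
  have h1 := gc_nonneg u
  have h2 := gc_nonneg (u - 2)
  have h3 := gc_nonneg (u - 4)
  have h4 := gc_le_one u
  have h5 := gc_le_one (u - 2)
  have h6 := gc_le_one (u - 4)
  constructor <;> linarith

private lemma gl_lip (u v : ℝ) : |gl u - gl v| ≤ 12 * |u - v| := by
  have h1 := gc_lip u v
  have h2 := gc_lip (u - 2) (v - 2)
  have h3 := gc_lip (u - 4) (v - 4)
  have e2 : u - 2 - (v - 2) = u - v := by ring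
  have e3 : u - 4 - (v - 4) = u - v := by ring
  rw [e2] at h2
  rw [e3] at h3
  unfold gl
  rw [abs_le] at h1 h2 h3 ⊢
  constructor <;> linarith [h1.1, h1.2, h2.1, h2.2, h3.1, h3.2]

private lemma gl_low {u : ℝ} (h : u ≤ 2) : gl u ≤ 5 := by
  unfold gl
  rw [gc_of_nonpos (show u - 2 ≤ 0 by linarith), gc_of_nonpos (show u - 4 ≤ 0 by linarith)]
  linarith [gc_le_one u]

private lemma gl_high {u : ℝ} (h : 3 ≤ u) : 15 ≤ gl u := by
  unfold gl
  rw [gc_of_one_le (show 1 ≤ u by linarith), gc_of_one_le (show 1 ≤ u - 2 by linarith)]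
  linarith [gc_nonneg (u - 4)]

private lemma gl_lt {u : ℝ} (h : gl u < 5) : u < 1 := by
  by_contra h1
  push Not at h1
  unfold gl at h
  rw [gc_of_one_le h1] at h
  linarith [gc_nonneg (u - 2), gc_nonneg (u - 4)]

private lemma gl_gt {u : ℝ} (h : 15 < gl u) : 4 < u := by
  by_contra h1
  push Not at h1
  unfold gl at h
  rw [gc_of_nonpos (show u - 4 ≤ 0 by linarith)] at h
  linarith [gc_le_one u, gc_le_one (u - 2)]

private lemma ga_low {tb tb' ta ta' u : ℝ} (h : u ≤ 2) :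
    ga tb tb' ta ta' u = ta + (tb + 4 - ta) * gc (u - 1) := by
  unfold ga
  rw [gt_low (by linarith [gl_low h]), gc_of_nonpos (show u - 3 ≤ 0 by linarith)]
  ring

private lemma ga_mid {tb tb' ta ta' u : ℝ} (h : 2 ≤ u) (h' : u ≤ 3) :
    ga tb tb' ta ta' u = gt tb tb' (gl u) + 4 := by
  unfold ga
  rw [gc_of_one_le (show 1 ≤ u - 1 by linarith), gc_of_nonpos (show u - 3 ≤ 0 by linarith)]
  ring

private lemma ga_high {tb tb' ta ta' u : ℝ} (h : 3 ≤ u) :
    ga tb tb' ta ta' u = tb' + 4 + (ta' - (tb' + 4)) * gc (u - 3) := by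
  unfold ga
  rw [gt_high (by linarith [gl_high h]), gc_of_one_le (show 1 ≤ u - 1 by linarith)]
  ring

private lemma ga_lip {tb tb' ta ta' : ℝ} (h : |tb' - tb| ≤ 4) (h1 : |tb + 4 - ta| ≤ 4)
    (h2 : |ta' - (tb' + 4)| ≤ 4) (u v : ℝ) :
    |ga tb tb' ta ta' u - ga tb tb' ta ta' v| ≤ 14 * |u - v| := by
  have e : ga tb tb' ta ta' u - ga tb tb' ta ta' v =
      (tb + 4 - ta) * (gc (u - 1) - gc (v - 1)) + (gt tb tb' (gl u) - gt tb tb' (gl v)) +
        (ta' - (tb' + 4)) * (gc (u - 3) - gc (v - 3)) := by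
    unfold ga; ring
  rw [e]
  have k1 := gc_lip (u - 1) (v - 1)
  have k2 := gc_lip (u - 3) (v - 3)
  have e2 : u - 1 - (v - 1) = u - v := by ring
  have e3 : u - 3 - (v - 3) = u - v := by ring
  rw [e2] at k1
  rw [e3] at k2
  have k3 := (gt_lip h (gl u) (gl v)).trans (div_le_div_of_nonneg_right (gl_lip u v)
    (show (0 : ℝ) ≤ 2 by norm_num))
  have k4 : |(tb + 4 - ta) * (gc (u - 1) - gc (v - 1))| ≤ 4 * |u - v| := by
    rw [abs_mul]
    exact mul_le_mul h1 k1 (abs_nonneg _) (by norm_num)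
  have k5 : |(ta' - (tb' + 4)) * (gc (u - 3) - gc (v - 3))| ≤ 4 * |u - v| := by
    rw [abs_mul]
    exact mul_le_mul h2 k2 (abs_nonneg _) (by norm_num)
  have k6 := abs_add_le ((tb + 4 - ta) * (gc (u - 1) - gc (v - 1)) +
    (gt tb tb' (gl u) - gt tb tb' (gl v))) ((ta' - (tb' + 4)) * (gc (u - 3) - gc (v - 3)))
  have k7 := abs_add_le ((tb + 4 - ta) * (gc (u - 1) - gc (v - 1)))
    (gt tb tb' (gl u) - gt tb tb' (gl v))
  linarith

/-- The function `qq` has period `8`. -/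
private lemma qq_sub_eight (t : ℝ) : qq (t - 8) = qq t := by
  unfold qq
  have h : (t - 8) / 8 = t / 8 - 1 := by ring
  rw [h, Int.floor_sub_one]
  congr 1
  push_cast
  ring

/-- Angles between `ta` and `tb + 4` are far from `tb`. -/
private lemma geo_arc {tb ta θ D : ℝ} (h1 : tb ≤ ta) (h2 : ta < tb + 8)
    (hD : D ≤ ‖qq ta - qq tb‖) (hθ1 : min ta (tb + 4) ≤ θ) (hθ2 : θ ≤ max ta (tb + 4)) :
    D / 2 ≤ ‖qq θ - qq tb‖ := by
  have k1 := (hD.trans (qq_lip ta tb))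
  have k2 : D ≤ |(ta - 8) - tb| := by
    have := qq_lip (ta - 8) tb
    rw [qq_sub_eight] at this
    exact hD.trans this
  rw [abs_of_nonneg (by linarith)] at k1
  rw [abs_of_nonpos (by linarith)] at k2
  rcases le_total D 0 with hD0 | hD0
  · exact (by linarith : D / 2 ≤ 0).trans (norm_nonneg _)
  have hD4 : D ≤ 4 := by linarith
  have k3 : D ≤ θ - tb := by
    rcases le_total ta (tb + 4) with h | h
    · rw [min_eq_left h] at hθ1; linarith
    · rw [min_eq_right h] at hθ1; linarith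
  have k4 : θ - tb ≤ 8 - D := by
    rcases le_total ta (tb + 4) with h | h
    · rw [max_eq_right h] at hθ2; linarith
    · rw [max_eq_left h] at hθ2; linarith
  refine qq_far hD0 ?_ ?_
  · rw [abs_of_nonneg (by linarith)]; exact k3
  · rw [abs_of_nonneg (by linarith)]; exact k4

private lemma geo_between (a b : ℝ) {c : ℝ} (h0 : 0 ≤ c) (h1 : c ≤ 1) :
    min a b ≤ a + (b - a) * c ∧ a + (b - a) * c ≤ max a b := by
  rcases le_total a b with h | h
  · rw [min_eq_left h, max_eq_right h]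
    constructor <;> nlinarith
  · rw [min_eq_right h, max_eq_left h]
    constructor <;> nlinarith

/-- The two curves are far from each other. -/
private lemma geo_far {m s tb tb' ta ta' u l : ℝ} (hm : 0 < m) (hs : 12 * s ≤ m)
    (hb : |tb' - tb| ≤ 4) (h1 : tb ≤ ta) (h2 : ta < tb + 8) (h3 : tb' ≤ ta') (h4 : ta' < tb' + 8)
    (h5 : 30 * s ≤ 4 * m * ‖qq ta - qq tb‖) (h6 : 30 * s ≤ 16 * m * ‖qq ta' - qq tb'‖)
    (hl : 4 ≤ l) :
    6 * s ≤ ‖(m * gl u) • qq (ga tb tb' ta ta' u) - (m * l) • qq (gt tb tb' l)‖ := by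
  set N := ‖(m * gl u) • qq (ga tb tb' ta ta' u) - (m * l) • qq (gt tb tb' l)‖ with hN
  obtain ⟨g1, g2⟩ := gl_bounds u
  have hN0 : 0 ≤ N := norm_nonneg _
  by_contra hcon
  push Not at hcon
  have a1 : m * |gl u - l| ≤ N := by
    have := pol_ge_abs (a := qq (ga tb tb' ta ta' u)) (b := qq (gt tb tb' l))
      (show 0 ≤ m * gl u by positivity) (show 0 ≤ m * l by positivity) (qq_norm _) (qq_norm _)
    rwa [← mul_sub, abs_mul, abs_of_pos hm] at this
  have a2 : m * l * ‖qq (ga tb tb' ta ta' u) - qq (gt tb tb' l)‖ ≤ 2 * N :=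
    pol_ge (show 0 ≤ m * gl u by positivity) (show 0 ≤ m * l by positivity) (qq_norm _) (qq_norm _)
  have a3 : |gl u - l| < 1 / 2 := by
    have : m * |gl u - l| < m * (1 / 2) := by linarith
    exact lt_of_mul_lt_mul_left this hm.le
  rw [abs_lt] at a3
  rcases le_total u 2 with hu | hu
  · have b1 := gl_low hu
    have b2 : gt tb tb' l = tb := gt_low (by linarith)
    rw [ga_low hu, b2] at a2
    obtain ⟨b3, b4⟩ := geo_between ta (tb + 4) (gc_nonneg (u - 1)) (gc_le_one (u - 1))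
    have b5 : 30 * s / (4 * m) ≤ ‖qq ta - qq tb‖ := by
      rw [div_le_iff₀ (by positivity)]
      linarith
    have b6 := geo_arc h1 h2 b5 b3 b4
    have b7 : 15 * s ≤ m * l * ‖qq (ta + (tb + 4 - ta) * gc (u - 1)) - qq tb‖ := by
      calc 15 * s = m * 4 * (30 * s / (4 * m) / 2) := by field_simp; ring
        _ ≤ m * 4 * ‖qq (ta + (tb + 4 - ta) * gc (u - 1)) - qq tb‖ :=
            mul_le_mul_of_nonneg_left b6 (by positivity)
        _ ≤ m * l * ‖qq (ta + (tb + 4 - ta) * gc (u - 1)) - qq tb‖ := by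
            refine mul_le_mul_of_nonneg_right ?_ (norm_nonneg _)
            exact mul_le_mul_of_nonneg_left hl hm.le
    linarith
  rcases le_total u 3 with hu' | hu'
  · rw [ga_mid hu hu'] at a2
    have b1 := gt_lip hb (gl u) l
    have b2 : |gl u - l| < 1 / 2 := abs_lt.2 a3
    have b3 : |gt tb tb' (gl u) - gt tb tb' l| ≤ 1 / 4 := by linarith
    rw [abs_le] at b3
    have b4 : (3 : ℝ) / 2 ≤ ‖qq (gt tb tb' (gl u) + 4) - qq (gt tb tb' l)‖ := by
      refine qq_far (by norm_num) ?_ ?_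
      · rw [abs_of_nonneg (by linarith)]; linarith
      · rw [abs_of_nonneg (by linarith)]; linarith
    have b5 : m * 4 * (3 / 2) ≤ m * l * ‖qq (gt tb tb' (gl u) + 4) - qq (gt tb tb' l)‖ := by
      refine mul_le_mul ?_ b4 (by norm_num) (by positivity)
      exact mul_le_mul_of_nonneg_left hl hm.le
    linarith
  · have b1 := gl_high hu'
    have hl' : (14 : ℝ) ≤ l := by linarith
    have b2 : gt tb tb' l = tb' := gt_high hl'
    rw [ga_high hu', b2] at a2
    obtain ⟨b3, b4⟩ := geo_between (tb' + 4) ta' (gc_nonneg (u - 3)) (gc_le_one (u - 3))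
    have b5 : 30 * s / (16 * m) ≤ ‖qq ta' - qq tb'‖ := by
      rw [div_le_iff₀ (by positivity)]
      linarith
    have b6 := geo_arc h3 h4 b5 ((min_comm ta' (tb' + 4)).le.trans b3)
      (b4.trans (max_comm (tb' + 4) ta').le)
    rcases le_total s 0 with hs0 | hs0
    · linarith
    have b7 : 13 * s ≤ m * l * ‖qq (tb' + 4 + (ta' - (tb' + 4)) * gc (u - 3)) - qq tb'‖ := by
      calc 13 * s ≤ m * 14 * (30 * s / (16 * m) / 2) := by
            have : m * 14 * (30 * s / (16 * m) / 2) = 210 / 16 * s := by field_simp; ring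
            rw [this]
            linarith
        _ ≤ m * 14 * ‖qq (tb' + 4 + (ta' - (tb' + 4)) * gc (u - 3)) - qq tb'‖ :=
            mul_le_mul_of_nonneg_left b6 (by positivity)
        _ ≤ m * l * ‖qq (tb' + 4 + (ta' - (tb' + 4)) * gc (u - 3)) - qq tb'‖ := by
            refine mul_le_mul_of_nonneg_right ?_ (norm_nonneg _)
            exact mul_le_mul_of_nonneg_left hl' hm.le
    linarith

/-- The coarse curve gives a good chain. -/
private lemma geo_coarse {m k : ℕ} (hk : 100 ≤ k) (hm : 100 * k ≤ m) {b b' : Vert} {tb tb' : ℝ}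
    (hb : (4 * (m : ℝ)) • qq tb = toR b) (hb' : (16 * (m : ℝ)) • qq tb' = toR b')
    (hbb : |tb' - tb| ≤ 4) :
    ZGood m (m / k) (fun i => rd (((m : ℝ) * (4 + 12 * ((i : ℝ) / ((108 * k : ℕ) : ℝ)))) •
      qq (gt tb tb' (4 + 12 * ((i : ℝ) / ((108 * k : ℕ) : ℝ)))))) (108 * k) b b' := by
  have hk0 : (0 : ℝ) < k := by exact_mod_cast (show 0 < k by omega)
  have hk' : (100 : ℝ) ≤ k := by exact_mod_cast hk
  have hm' : 100 * (k : ℝ) ≤ m := by exact_mod_cast hm
  have hm0 : (0 : ℝ) < m := by nlinarith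
  have hs1 : ((m / k : ℕ) : ℝ) ≤ m / k := Nat.cast_div_le
  have hs2 : (m : ℝ) / k - 1 ≤ ((m / k : ℕ) : ℝ) := by
    have h1 : m < k * (m / k + 1) := Nat.lt_mul_div_succ m (by omega)
    have h2 : (m : ℝ) < k * (((m / k : ℕ) : ℝ) + 1) := by exact_mod_cast h1
    have h3 : (m : ℝ) / k < ((m / k : ℕ) : ℝ) + 1 := by
      rw [div_lt_iff₀ hk0]; linarith
    linarith
  have hx : 100 ≤ (m : ℝ) / k := by rw [le_div_iff₀ hk0]; exact hm'
  have hx2 : (m : ℝ) / k ≤ m / 100 := by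
    exact div_le_div_of_nonneg_left hm0.le (by norm_num) hk'
  set s := m / k with hs
  set n : ℕ := 108 * k with hn
  have hn0 : (0 : ℝ) < n := by exact_mod_cast (show 0 < n by omega)
  have hs3 : 1 ≤ s := by
    have : (1 : ℝ) ≤ s := by linarith
    exact_mod_cast this
  have hu : ∀ i ≤ n, 0 ≤ (i : ℝ) / n ∧ (i : ℝ) / n ≤ 1 := by
    intro i hi
    refine ⟨by positivity, ?_⟩
    rw [div_le_one hn0]
    exact_mod_cast hi
  have hnorm : ∀ i ≤ n, ‖((m : ℝ) * (4 + 12 * ((i : ℝ) / n))) •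
      qq (gt tb tb' (4 + 12 * ((i : ℝ) / n)))‖ = (m : ℝ) * (4 + 12 * ((i : ℝ) / n)) := by
    intro i hi
    have := (hu i hi).1
    exact pol_norm (by positivity) (qq_norm _)
  refine geo_zgood (c := fun i => ((m : ℝ) * (4 + 12 * ((i : ℝ) / n))) •
      qq (gt tb tb' (4 + 12 * ((i : ℝ) / n)))) ?_ ?_ ?_ ?_ ?_ ?_ ?_ hs3 ?_
  · simp only [Nat.cast_zero, zero_div, mul_zero, add_zero]
    rw [gt_low (by norm_num), ← hb, mul_comm]
  · rw [div_self hn0.ne', gt_high (by norm_num), ← hb']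
    congr 1
    ring
  · intro i hi
    obtain ⟨k1, k2⟩ := hu i hi.le
    obtain ⟨k3, k4⟩ := hu (i + 1) hi
    have k5 : ((i + 1 : ℕ) : ℝ) / n - (i : ℝ) / n = 1 / n := by
      push_cast
      field_simp
      ring
    have k6 := pol_le (l := (m : ℝ) * (4 + 12 * (((i + 1 : ℕ) : ℝ) / n)))
      (l' := (m : ℝ) * (4 + 12 * ((i : ℝ) / n)))
      (a := qq (gt tb tb' (4 + 12 * (((i + 1 : ℕ) : ℝ) / n))))
      (b := qq (gt tb tb' (4 + 12 * ((i : ℝ) / n)))) (by positivity) (by positivity)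
      (qq_norm _) (qq_norm _)
    have k7 : |(m : ℝ) * (4 + 12 * (((i + 1 : ℕ) : ℝ) / n)) - (m : ℝ) * (4 + 12 * ((i : ℝ) / n))| =
        12 * m / n := by
      have : (m : ℝ) * (4 + 12 * (((i + 1 : ℕ) : ℝ) / n)) - (m : ℝ) * (4 + 12 * ((i : ℝ) / n)) =
          12 * m * (((i + 1 : ℕ) : ℝ) / n - (i : ℝ) / n) := by ring
      rw [this, k5, abs_of_nonneg (by positivity)]
      ring
    have k8 : ‖qq (gt tb tb' (4 + 12 * (((i + 1 : ℕ) : ℝ) / n))) -
        qq (gt tb tb' (4 + 12 * ((i : ℝ) / n)))‖ ≤ 6 / n := by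
      refine (qq_lip _ _).trans ((gt_lip hbb _ _).trans (le_of_eq ?_))
      have : 4 + 12 * (((i + 1 : ℕ) : ℝ) / n) - (4 + 12 * ((i : ℝ) / n)) =
          12 * (((i + 1 : ℕ) : ℝ) / n - (i : ℝ) / n) := by ring
      rw [this, k5, abs_of_nonneg (by positivity)]
      ring
    have k9 : (m : ℝ) * (4 + 12 * (((i + 1 : ℕ) : ℝ) / n)) *
        ‖qq (gt tb tb' (4 + 12 * (((i + 1 : ℕ) : ℝ) / n))) -
          qq (gt tb tb' (4 + 12 * ((i : ℝ) / n)))‖ ≤ (m * 16) * (6 / n) := by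
      refine mul_le_mul ?_ k8 (norm_nonneg _) (by positivity)
      refine mul_le_mul_of_nonneg_left (by linarith) hm0.le
    have k10 : 12 * (m : ℝ) / n + (m * 16) * (6 / n) = m / k := by
      rw [hn]
      push_cast
      field_simp
      ring
    linarith
  · intro i hi
    rw [hnorm i hi]
    have := (hu i hi).1
    nlinarith
  · intro i hi
    rw [hnorm i hi]
    have := (hu i hi).2
    nlinarith
  · intro i hi h
    beta_reduce at h ⊢
    rw [hnorm i hi] at h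
    obtain ⟨k1, k2⟩ := hu i hi
    have k3 : (m : ℝ) * (12 * ((i : ℝ) / n)) ≤ 8 * s + 1 := by linarith
    have k4 : 12 * ((i : ℝ) / n) ≤ 2 := by
      have : (m : ℝ) * (12 * ((i : ℝ) / n)) ≤ m * 2 := by linarith
      exact le_of_mul_le_mul_left this hm0
    rw [gt_low (by linarith), ← hb, ← sub_smul, norm_smul, qq_norm, mul_one, Real.norm_eq_abs,
      abs_of_nonneg (by nlinarith)]
    linarith
  · intro i hi h
    beta_reduce at h ⊢
    rw [hnorm i hi] at h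
    obtain ⟨k1, k2⟩ := hu i hi
    have k3 : (m : ℝ) * (12 * (1 - (i : ℝ) / n)) ≤ 8 * s + 1 := by linarith
    have k4 : 12 * (1 - (i : ℝ) / n) ≤ 2 := by
      have : (m : ℝ) * (12 * (1 - (i : ℝ) / n)) ≤ m * 2 := by linarith
      exact le_of_mul_le_mul_left this hm0
    rw [gt_high (by linarith), ← hb', ← sub_smul, norm_smul, qq_norm, mul_one, Real.norm_eq_abs,
      abs_of_nonpos (by nlinarith)]
    linarith
  · have : 3 * (s : ℝ) + 1 ≤ m := by linarith
    exact_mod_cast this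

/-- The fine curve gives a good chain. -/
private lemma geo_fine {m k : ℕ} (hk : 100 ≤ k) (hm : 100 * k ≤ m) {b b' : Vert}
    {tb tb' ta ta' : ℝ} (ha : (4 * (m : ℝ)) • qq ta = toR b) (ha' : (16 * (m : ℝ)) • qq ta' = toR b')
    (hbb : |tb' - tb| ≤ 4) (h1 : |tb + 4 - ta| ≤ 4) (h2 : |ta' - (tb' + 4)| ≤ 4) :
    ZGood m (m / k) (fun i => rd (((m : ℝ) * gl ((i : ℝ) / ((236 * k : ℕ) : ℝ))) •
      qq (ga tb tb' ta ta' ((i : ℝ) / ((236 * k : ℕ) : ℝ))))) (5 * (236 * k)) b b' := by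
  have hk0 : (0 : ℝ) < k := by exact_mod_cast (show 0 < k by omega)
  have hk' : (100 : ℝ) ≤ k := by exact_mod_cast hk
  have hm' : 100 * (k : ℝ) ≤ m := by exact_mod_cast hm
  have hm0 : (0 : ℝ) < m := by nlinarith
  have hs1 : ((m / k : ℕ) : ℝ) ≤ m / k := Nat.cast_div_le
  have hs2 : (m : ℝ) / k - 1 ≤ ((m / k : ℕ) : ℝ) := by
    have h1 : m < k * (m / k + 1) := Nat.lt_mul_div_succ m (by omega)
    have h2 : (m : ℝ) < k * (((m / k : ℕ) : ℝ) + 1) := by exact_mod_cast h1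
    have h3 : (m : ℝ) / k < ((m / k : ℕ) : ℝ) + 1 := by
      rw [div_lt_iff₀ hk0]; linarith
    linarith
  have hx : 100 ≤ (m : ℝ) / k := by rw [le_div_iff₀ hk0]; exact hm'
  have hx2 : (m : ℝ) / k ≤ m / 100 := by
    exact div_le_div_of_nonneg_left hm0.le (by norm_num) hk'
  set s := m / k with hs
  set M : ℕ := 236 * k with hM
  have hM0 : (0 : ℝ) < M := by exact_mod_cast (show 0 < M by omega)
  have hs3 : 1 ≤ s := by
    have : (1 : ℝ) ≤ s := by linarith
    exact_mod_cast this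
  have hnorm : ∀ u : ℝ, ‖((m : ℝ) * gl u) • qq (ga tb tb' ta ta' u)‖ = (m : ℝ) * gl u := by
    intro u
    have := (gl_bounds u).1
    exact pol_norm (by positivity) (qq_norm _)
  refine geo_zgood (c := fun i => ((m : ℝ) * gl ((i : ℝ) / M)) •
      qq (ga tb tb' ta ta' ((i : ℝ) / M))) ?_ ?_ ?_ ?_ ?_ ?_ ?_ hs3 ?_
  · simp only [Nat.cast_zero, zero_div]
    rw [ga_low (by norm_num), ← ha, gc_of_nonpos (by norm_num), mul_zero, add_zero]
    unfold gl
    rw [gc_of_nonpos le_rfl, gc_of_nonpos (by norm_num), gc_of_nonpos (by norm_num)]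
    congr 1
    ring
  · have e : ((5 * M : ℕ) : ℝ) / M = 5 := by
      push_cast
      field_simp
    rw [e, ga_high (by norm_num), ← ha', gc_of_one_le (by norm_num)]
    unfold gl
    rw [gc_of_one_le (by norm_num), gc_of_one_le (by norm_num), gc_of_one_le (by norm_num)]
    congr 1
    · ring
    · congr 1
      ring
  · intro i hi
    have k5 : ((i + 1 : ℕ) : ℝ) / M - (i : ℝ) / M = 1 / M := by
      push_cast
      field_simp
      ring
    obtain ⟨g1, g2⟩ := gl_bounds (((i + 1 : ℕ) : ℝ) / M)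
    obtain ⟨g3, g4⟩ := gl_bounds ((i : ℝ) / M)
    have k6 := pol_le (l := (m : ℝ) * gl (((i + 1 : ℕ) : ℝ) / M))
      (l' := (m : ℝ) * gl ((i : ℝ) / M))
      (a := qq (ga tb tb' ta ta' (((i + 1 : ℕ) : ℝ) / M)))
      (b := qq (ga tb tb' ta ta' ((i : ℝ) / M))) (by positivity) (by positivity)
      (qq_norm _) (qq_norm _)
    have k7 : |(m : ℝ) * gl (((i + 1 : ℕ) : ℝ) / M) - (m : ℝ) * gl ((i : ℝ) / M)| ≤
        12 * m / M := by
      rw [← mul_sub, abs_mul, abs_of_pos hm0]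
      have := gl_lip (((i + 1 : ℕ) : ℝ) / M) ((i : ℝ) / M)
      rw [k5, abs_of_nonneg (show (0 : ℝ) ≤ 1 / M by positivity)] at this
      calc (m : ℝ) * |gl (((i + 1 : ℕ) : ℝ) / M) - gl ((i : ℝ) / M)| ≤ m * (12 * (1 / M)) :=
            mul_le_mul_of_nonneg_left this hm0.le
        _ = 12 * m / M := by ring
    have k8 : ‖qq (ga tb tb' ta ta' (((i + 1 : ℕ) : ℝ) / M)) -
        qq (ga tb tb' ta ta' ((i : ℝ) / M))‖ ≤ 14 / M := by
      refine (qq_lip _ _).trans ((ga_lip hbb h1 h2 _ _).trans (le_of_eq ?_))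
      rw [k5, abs_of_nonneg (by positivity)]
      ring
    have k9 : (m : ℝ) * gl (((i + 1 : ℕ) : ℝ) / M) *
        ‖qq (ga tb tb' ta ta' (((i + 1 : ℕ) : ℝ) / M)) -
          qq (ga tb tb' ta ta' ((i : ℝ) / M))‖ ≤ (m * 16) * (14 / M) := by
      refine mul_le_mul ?_ k8 (norm_nonneg _) (by positivity)
      refine mul_le_mul_of_nonneg_left (by linarith) hm0.le
    have k10 : 12 * (m : ℝ) / M + (m * 16) * (14 / M) = m / k := by
      rw [hM]
      push_cast
      field_simp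
      ring
    linarith
  · intro i _
    rw [hnorm]
    have := (gl_bounds ((i : ℝ) / M)).1
    nlinarith
  · intro i _
    rw [hnorm]
    have := (gl_bounds ((i : ℝ) / M)).2
    nlinarith
  · intro i _ h
    beta_reduce at h ⊢
    rw [hnorm] at h
    obtain ⟨g1, g2⟩ := gl_bounds ((i : ℝ) / M)
    have k4 : gl ((i : ℝ) / M) < 5 := by
      have : (m : ℝ) * gl ((i : ℝ) / M) < m * 5 := by linarith
      exact lt_of_mul_lt_mul_left this hm0.le
    have k5 := gl_lt k4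
    rw [ga_low (by linarith), gc_of_nonpos (show (i : ℝ) / M - 1 ≤ 0 by linarith), mul_zero,
      add_zero, ← ha, ← sub_smul, norm_smul, qq_norm, mul_one, Real.norm_eq_abs,
      abs_of_nonneg (by nlinarith)]
    linarith
  · intro i _ h
    beta_reduce at h ⊢
    rw [hnorm] at h
    obtain ⟨g1, g2⟩ := gl_bounds ((i : ℝ) / M)
    have k4 : 15 < gl ((i : ℝ) / M) := by
      have : (m : ℝ) * 15 < m * gl ((i : ℝ) / M) := by linarith
      exact lt_of_mul_lt_mul_left this hm0.le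
    have k5 := gl_gt k4
    have k6 : ga tb tb' ta ta' ((i : ℝ) / M) = ta' := by
      rw [ga_high (by linarith), gc_of_one_le (by linarith)]
      ring
    rw [k6, ← ha', ← sub_smul, norm_smul, qq_norm, mul_one, Real.norm_eq_abs,
      abs_of_nonpos (by nlinarith)]
    linarith
  · have : 3 * (s : ℝ) + 1 ≤ m := by linarith
    exact_mod_cast this

theorem geo : Geo := by
  refine ⟨100, by norm_num, fun k hk => ⟨108 * k, 100 * k, fun k' hk' =>
    ⟨5 * (236 * k'), 100 * k', fun m hm b hb b' hb' => ?_⟩⟩⟩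
  have hkm : 100 * k ≤ m := by nlinarith
  have hk1 : 100 ≤ k' := by nlinarith
  have hk0 : (0 : ℝ) < k := by exact_mod_cast (show 0 < k by omega)
  have hkR : (100 : ℝ) ≤ k := by exact_mod_cast hk
  have hk'0 : (0 : ℝ) < k' := by exact_mod_cast (show 0 < k' by omega)
  have hk'R : 100 * (k : ℝ) ≤ k' := by exact_mod_cast hk'
  have hmR : 100 * (k' : ℝ) ≤ m := by exact_mod_cast hm
  have hm0 : (0 : ℝ) < m := by nlinarith
  rw [mem_sphere_iff_norm] at hb hb'
  push_cast at hb hb'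
  obtain ⟨tb, -, -, htb⟩ := qq_surj (toR b) (show (0 : ℝ) < 4 * m by positivity) hb 0
  obtain ⟨tb', htb1, htb2, htb'⟩ := qq_surj (toR b') (show (0 : ℝ) < 16 * m by positivity) hb'
    (tb - 4)
  have hbb : |tb' - tb| ≤ 4 := by rw [abs_le]; constructor <;> linarith
  refine ⟨_, geo_coarse hk hkm htb htb' hbb, ?_⟩
  intro β hβ hβb β' hβ' hβb'
  rw [mem_sphere_iff_norm] at hβ hβ'
  rw [mem_ball_iff_norm, not_le] at hβb hβb'
  push_cast at hβ hβ' hβb hβb'
  obtain ⟨ta, hta1, hta2, hta⟩ := qq_surj (toR β) (show (0 : ℝ) < 4 * m by positivity) hβ tb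
  obtain ⟨ta', hta1', hta2', hta'⟩ := qq_surj (toR β') (show (0 : ℝ) < 16 * m by positivity) hβ'
    tb'
  refine ⟨_, geo_fine (tb := tb) (tb' := tb') hk1 hm hta hta' hbb ?_ ?_, ?_⟩
  · rw [abs_le]; constructor <;> linarith
  · rw [abs_le]; constructor <;> linarith
  have hs1 : ((m / k : ℕ) : ℝ) ≤ m / k := Nat.cast_div_le
  have hs2 : (m : ℝ) / k - 1 ≤ ((m / k : ℕ) : ℝ) := by
    have h1 : m < k * (m / k + 1) := Nat.lt_mul_div_succ m (by omega)
    have h2 : (m : ℝ) < k * (((m / k : ℕ) : ℝ) + 1) := by exact_mod_cast h1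
    have h3 : (m : ℝ) / k < ((m / k : ℕ) : ℝ) + 1 := by
      rw [div_lt_iff₀ hk0]; linarith
    linarith
  have hs3 : ((m / k' : ℕ) : ℝ) ≤ m / k' := Nat.cast_div_le
  have hs4 : (m : ℝ) / k' ≤ m / k / 100 := by
    rw [div_div]
    refine div_le_div_of_nonneg_left hm0.le (by positivity) (by linarith)
  have hx : 100 ≤ (m : ℝ) / k := by
    rw [le_div_iff₀ hk0]; nlinarith
  have hx2 : (m : ℝ) / k ≤ m / 100 := div_le_div_of_nonneg_left hm0.le (by norm_num) hkR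
  refine geo_sep ?_ (by linarith)
  intro i hi j hj
  refine geo_far hm0 (by linarith) hbb hta1 hta2 hta1' hta2' ?_ ?_ ?_
  · rw [← hta, ← htb, ← smul_sub, norm_smul, Real.norm_eq_abs,
      abs_of_pos (show (0 : ℝ) < 4 * m by positivity)] at hβb
    exact hβb.le
  · rw [← hta', ← htb', ← smul_sub, norm_smul, Real.norm_eq_abs,
      abs_of_pos (show (0 : ℝ) < 16 * m by positivity)] at hβb'
    exact hβb'.le
  · have : (0 : ℝ) ≤ (i : ℝ) / ((108 * k : ℕ) : ℝ) := by positivity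
    linarith

end Pool.Agent.H57.EX

end

section

/-!
# Half plane: clusters which cross a half annulus and avoid one side of the base
-/

open MeasureTheory ProbabilityTheory unitInterval

namespace Pool.Agent.H26.HP

open Pool.Agent.H89.Perc
open Pool.Agent.H61.NC (RSWreg)

variable {ω ω' : Config} {D X S : Set Vert} {R n r s : ℕ} {q : I} {c : ℝ}

/-- `S` joins `ball 0 s` to distance `r` and avoids the base to the right of `16 s`. -/
def PhiR (s r : ℕ) (S : Set Vert) : Prop :=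
  (∃ v ∈ S, v ∈ ball 0 s) ∧ (∃ w ∈ S, w ∈ sphere 0 r) ∧
    ∀ x : ℤ, 16 * s < x → x ≤ r → ((x, 0) : Vert) ∉ S

/-- The family of the sets with the property `PhiR`. -/
noncomputable def FR (s r : ℕ) : Finset (Finset Vert) := by
  classical exact (bF r).powerset.filter (fun T => PhiR s r ↑T)

lemma mem_FR {T : Finset Vert} : T ∈ FR s r ↔ T ⊆ bF r ∧ PhiR s r ↑T := by
  classical
  rw [FR, Finset.mem_filter, Finset.mem_powerset]

/-- The base to the right of `16 s`. -/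
def XR (s r : ℕ) : Set Vert := {v | v.2 = 0 ∧ 16 * (s : ℤ) < v.1 ∧ v.1 ≤ r}

/-- Auxiliary event. -/
def BR (s r : ℕ) : Set Config :=
  {ω | (∀ y ∈ clus ω (hb 0 r) (XR s r), y ∉ ball 0 (2 * s)) ∧
    ∃ u ∈ ball 0 s, ∃ w ∈ sphere 0 r, Conn ω (hb 0 r \ clus ω (hb 0 r) (XR s r)) u w}

/-- A cluster touches the base near the origin, reaches distance `r` and avoids the base to the
right of `16 s`. -/
def TR (s r : ℕ) : Set Config :=
  {ω | ∃ b : ℤ, -(2 * s) ≤ b ∧ b ≤ 2 * s ∧ (∃ w ∈ sphere 0 r, Conn ω (hb 0 r) (b, 0) w) ∧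
    ∀ x : ℤ, 16 * s < x → x ≤ r → ¬ Conn ω (hb 0 r) (b, 0) (x, 0)}

lemma not_mem_ball_of_sphere {t r : ℕ} (h : t < r) {w : Vert} (hw : w ∈ sphere 0 r) :
    w ∉ ball 0 t := by
  intro hb
  have h1 := hw.2
  simp only [mem_ball, Prod.fst_zero, Prod.snd_zero] at hb h1
  omega

theorem two_step1 (hc : 0 < c) (hs : 1 ≤ s) (hr : 32 * s ≤ r) (hreg : RSWreg c r q) :
    c ^ 4 * EN q (hb 0 r) (FR s r) ≤ Pr q (BR s r) := by
  have hDR : hb 0 r ⊆ ball 0 r := hb_subset_ball (by simp)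
  have h16 : hb 0 (16 * s) ⊆ hb 0 r := hb_subset_hb (by simp; omega)
  refine EN_le (G := fun S => {ω | ¬ ∃ u ∈ ball 0 (2 * s), ∃ w ∈ sphere 0 (16 * s),
    Conn ω (hb 0 (16 * s) \ S) u w}) hDR ?_ ?_ ?_ ?_
  · rintro S ω ω' hω h1 ⟨u, hu, w, hw, h2⟩
    refine h1 ⟨u, hu, w, hw, ?_⟩
    refine Conn.congr (fun e h3 h4 => (hω e ?_).symm) h2
    exact mem_eIn.2 ⟨mem_eBall.2 (hDR (h16 h3.1)), ⟨h16 h3.1, h3.2⟩, ⟨h16 h4.1, h4.2⟩⟩
  · intro T _
    refine (noCross_reg hc (RSWreg.mono hreg (m := 16 * s) (by omega)) (s := 2 * s) (r := 16 * s)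
      (by omega) le_rfl).trans (Pr_mono ?_)
    rintro ω hω ⟨u, hu, w, hw, h2⟩
    refine hω ⟨u, hu, w, hw, h2.mono_set ?_⟩
    exact fun v hv => hv.1.1
  · intro ω T hT T' hT' h1 h2 h3 h4
    rw [mem_FR] at hT hT'
    by_contra hne
    obtain ⟨⟨v, hv, hvb⟩, ⟨w, hw, hws⟩, _⟩ := hT'.2
    have hvT : v ∉ (↑T : Set Vert) := by
      intro h
      have := isClus_unique h1 h3 h hv
      exact hne (by exact_mod_cast this)
    have h5 := isClus_off h1 hvT (isClus_conn h3 hv hw)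
    obtain ⟨x, hx, h6⟩ := h5.to_sphere (v := 0) (r := 16 * s)
      (ball_subset_ball (by omega) hvb) (Or.inl (not_mem_ball_of_sphere (by omega) hws))
    refine h2 ⟨v, ball_subset_ball (by omega) hvb, x, hx, h6.mono_set ?_⟩
    exact fun z hz => ⟨⟨hz.2, hz.1.1.2⟩, hz.1.2⟩
  · intro ω T hT h1 h2
    rw [mem_FR] at hT
    obtain ⟨⟨v, hv, hvb⟩, ⟨w, hw, hws⟩, h3⟩ := hT.2
    have key : ∀ y ∈ clus ω (hb 0 r) (XR s r), y ∉ ball 0 (2 * s) := by
      rintro y ⟨x, hx, h4⟩ hy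
      have hxT : x ∉ (↑T : Set Vert) := by
        have := h3 x.1 hx.2.1 hx.2.2
        have e : (x.1, (0 : ℤ)) = x := by rw [← hx.1]
        rwa [e] at this
      have h5 := (isClus_off h1 hxT h4).symm
      obtain ⟨x', hx', h6⟩ := h5.to_sphere (v := 0) (r := 16 * s)
        (ball_subset_ball (by omega) hy) (Or.inl (by
          intro hb
          simp only [mem_ball, Prod.fst_zero, Prod.snd_zero] at hb
          have := hx.2.1
          push_cast at hb
          omega))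
      refine h2 ⟨y, hy, x', hx', h6.mono_set ?_⟩
      exact fun z hz => ⟨⟨hz.2, hz.1.1.2⟩, hz.1.2⟩
    refine ⟨key, v, hvb, w, hws, ?_⟩
    exact conn_off (fun h => key v h (ball_subset_ball (by omega) hvb)) (isClus_conn h1 hv hw)

theorem two_step2 (hc : 0 < c) (hs : 1 ≤ s) (hr : 32 * s ≤ r) (hreg : RSWreg c r q) :
    c ^ 3 * Pr q (BR s r) ≤ Pr q (TR s r) := by
  classical
  have hDR : hb 0 r ⊆ ball 0 r := hb_subset_ball (by simp)
  have h2s : hb 0 (2 * s) ⊆ hb 0 r := hb_subset_hb (by simp; omega)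
  set A' : Set Vert → Set Config := fun S => {ω | (∀ y ∈ S, y ∉ ball 0 (2 * s)) ∧
    ∃ u ∈ ball 0 s, ∃ w ∈ sphere 0 r, Conn ω (hb 0 r \ S) u w} with hA'
  have lA : ∀ S, LocalOn (eIn r (hb 0 r \ S)) (A' S) := by
    rintro S ω ω' hω ⟨h1, u, hu, w, hw, h2⟩
    exact ⟨h1, u, hu, w, hw,
      localOn_conn_in (Set.sdiff_subset.trans hDR) _ _ ω ω' hω h2⟩
  refine explore (X := XR s r) (A' := A')
    (G := fun S => {ω | (∀ y ∈ S, y ∉ ball 0 (2 * s)) ∧ ω ∈ A' S ∧ ω ∈ HC s}) hDR (by positivity)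
    ?_ lA ?_ ?_ ?_
  · intro ω h
    exact h
  · rintro S ω ω' hω ⟨h1, h2, h3⟩
    refine ⟨h1, lA S ω ω' hω h2, ?_⟩
    refine localOn_HC (Set.sdiff_subset.trans hDR) ?_ ω ω' hω h3
    exact fun v hv => ⟨h2s hv, fun hvS => h1 v hvS hv.1⟩
  · intro S
    by_cases hS : ∀ y ∈ S, y ∉ ball 0 (2 * s)
    · have hHC : LocalOn (eIn r (hb 0 r \ S)) (HC s) :=
        localOn_HC (Set.sdiff_subset.trans hDR) fun v hv => ⟨h2s hv, fun hvS => hS v hvS hv.1⟩
      have iA : Incr (A' S) := by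
        rintro ω ω' hω ⟨h1, u, hu, w, hw, h2⟩
        exact ⟨h1, u, hu, w, hw, h2.mono le_rfl hω⟩
      have h1 := fkg (p := q) (lA S) hHC iA (incr_HC s)
      have h2 := HC_ge hc hs (RSWreg.mono hreg (m := s) (by omega))
      calc c ^ 3 * Pr q (A' S) = Pr q (A' S) * c ^ 3 := mul_comm _ _
        _ ≤ Pr q (A' S) * Pr q (HC s) := mul_le_mul_of_nonneg_left h2 Pr_nonneg
        _ ≤ Pr q (A' S ∩ HC s) := h1
        _ ≤ Pr q {ω | (∀ y ∈ S, y ∉ ball 0 (2 * s)) ∧ ω ∈ A' S ∧ ω ∈ HC s} :=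
            Pr_mono fun ω hω => ⟨hS, hω.1, hω.2⟩
    · have e1 : A' S = ∅ := by
        ext ω
        simp only [hA', Set.mem_ofPred_eq, Set.mem_empty_iff_false, iff_false]
        exact fun h => hS h.1
      rw [e1]
      have e2 : Pr q (∅ : Set Config) = 0 := by simp [Pr]
      rw [e2, mul_zero]
      exact Pr_nonneg
  · rintro ω ⟨h1, ⟨_, u, hu, w, hw, h2⟩, h3⟩
    obtain ⟨w0, h4, b, h5, h6, h7⟩ := HC_meet hs h3
      (S := hb 0 r \ clus ω (hb 0 r) (XR s r)) (fun v hv => hv.1.2) h2 hu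
      (Or.inl (not_mem_ball_of_sphere (by omega) hw))
    have h8 : Conn ω (hb 0 r) (b, 0) w0 := h7.mono_set h2s
    refine ⟨b, h5, h6, ⟨w, hw, ?_⟩, fun x h9 h10 h11 => ?_⟩
    · exact h8.trans ((h4.symm.trans h2).mono_set Set.sdiff_subset)
    · refine h1 (b, 0) ⟨(x, 0), ⟨rfl, h9, h10⟩, h11.symm⟩ ?_
      simp only [mem_ball, Prod.fst_zero, Prod.snd_zero]
      push_cast
      omega

theorem two_step3 (hc : 0 < c) (hs : 1 ≤ s) (hr : 32 * s ≤ r) (hreg : RSWreg c r q) :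
    Pr q (TR s r) ≤ 594 / c ^ 4 * (s / r) := by
  classical
  have hsub : TR s r ⊆ ⋃ z ∈ Finset.Icc (-(16 * s : ℤ)) (16 * s), E1 (r - 16 * s) z := by
    rintro ω ⟨b, h1, h2, ⟨w, hw, h3⟩, h4⟩
    -- the rightmost point of the cluster on the base
    set P : Finset ℤ := (Finset.Icc b (16 * s)).filter
      (fun x => Conn ω (hb 0 r) (b, 0) (x, 0)) with hP
    have hbD : ((b, 0) : Vert) ∈ hb 0 r := h3.mem_left
    have hne : P.Nonempty := ⟨b, by
      rw [hP, Finset.mem_filter, Finset.mem_Icc]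
      exact ⟨⟨le_rfl, by omega⟩, Conn.refl hbD⟩⟩
    obtain ⟨z, hz, hmax⟩ := P.exists_max_image id hne
    rw [hP, Finset.mem_filter, Finset.mem_Icc] at hz
    simp only [Set.mem_iUnion, Finset.mem_Icc]
    have habs : |(0 : ℤ) - z| + ((r - 16 * s : ℕ) : ℤ) ≤ r := by
      rcases abs_cases ((0 : ℤ) - z) with ⟨h4, h5⟩ | ⟨h4, h5⟩ <;> rw [h4] <;> omega
    refine ⟨z, ⟨by omega, hz.1.2⟩, ?_, fun x h5 h6 h7 => ?_⟩
    · refine reach_restrict habs ?_ hw (hz.2.symm.trans h3)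
      simp only [mem_ball]
      omega
    · have h8 : Conn ω (hb 0 r) (b, 0) (x, 0) := hz.2.trans (h7.mono_set (hb_subset_hb habs))
      by_cases h9 : x ≤ 16 * s
      · have := hmax x (by
          rw [hP, Finset.mem_filter, Finset.mem_Icc]
          exact ⟨⟨by omega, h9⟩, h8⟩)
        simp only [id] at this
        omega
      · refine h4 x (by omega) ?_ h8
        have := h8.mem_right
        rw [mem_hb] at this
        simp only at this
        omega
  have hR1 : 1 ≤ r - 16 * s := by omega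
  have hr0 : (0 : ℝ) < r := by
    have : 0 < r := by omega
    exact_mod_cast this
  have hs1 : (1 : ℝ) ≤ s := by exact_mod_cast hs
  have hR2 : (r : ℝ) / 2 ≤ ((r - 16 * s : ℕ) : ℝ) := by
    have : r ≤ 2 * (r - 16 * s) := by omega
    have : (r : ℝ) ≤ 2 * ((r - 16 * s : ℕ) : ℝ) := by exact_mod_cast this
    linarith
  calc Pr q (TR s r) ≤ ∑ z ∈ Finset.Icc (-(16 * s : ℤ)) (16 * s), Pr q (E1 (r - 16 * s) z) :=
        (Pr_mono hsub).trans (Pr_biUnion_le _ _)
    _ ≤ ∑ _z ∈ Finset.Icc (-(16 * s : ℤ)) (16 * s), 9 / (c ^ 4 * (r / 2)) := by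
        refine Finset.sum_le_sum fun z _ => ?_
        refine (E1_le hc hR1 (RSWreg.mono hreg (by omega)) z).trans ?_
        have : 0 < c ^ 4 := by positivity
        exact div_le_div_of_nonneg_left (by norm_num) (by positivity)
          (mul_le_mul_of_nonneg_left hR2 this.le)
    _ = (32 * s + 1) * (9 / (c ^ 4 * (r / 2))) := by
        rw [Finset.sum_const, Int.card_Icc, nsmul_eq_mul]
        congr 1
        have : ((16 * s : ℤ) + 1 - -(16 * s : ℤ)).toNat = 32 * s + 1 := by omega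
        rw [this]
        push_cast
        ring
    _ ≤ (33 * s) * (9 / (c ^ 4 * (r / 2))) := by
        refine mul_le_mul_of_nonneg_right (by linarith) (by positivity)
    _ = 594 / c ^ 4 * (s / r) := by
        field_simp
        ring

/-- **(H2)** The expected number of clusters which join `ball 0 s` to distance `r` in the half ball
and avoid the base to the right of `16 s` is at most `C s / r`. -/
theorem EN_right (hc : 0 < c) (hs : 1 ≤ s) (hr : 32 * s ≤ r) (hreg : RSWreg c r q) :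
    EN q (hb 0 r) (FR s r) ≤ 594 / c ^ 11 * (s / r) := by
  have h1 := two_step1 (q := q) hc hs hr hreg
  have h2 := two_step2 (q := q) hc hs hr hreg
  have h3 := two_step3 (q := q) hc hs hr hreg
  have hc7 : 0 < c ^ 7 := by positivity
  have h4 : c ^ 7 * EN q (hb 0 r) (FR s r) ≤ 594 / c ^ 4 * (s / r) := by
    calc c ^ 7 * EN q (hb 0 r) (FR s r) = c ^ 3 * (c ^ 4 * EN q (hb 0 r) (FR s r)) := by ring
      _ ≤ c ^ 3 * Pr q (BR s r) := mul_le_mul_of_nonneg_left h1 (by positivity)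
      _ ≤ Pr q (TR s r) := h2
      _ ≤ _ := h3
  calc EN q (hb 0 r) (FR s r) = (c ^ 7 * EN q (hb 0 r) (FR s r)) / c ^ 7 := by field_simp
    _ ≤ (594 / c ^ 4 * (s / r)) / c ^ 7 := by gcongr
    _ = 594 / c ^ 11 * (s / r) := by field_simp

end Pool.Agent.H26.HP

end

section

/-!
# Half plane: two disjoint crossing clusters

`U s r`: two different clusters of the half ball of radius `r` join `ball 0 s` to distance `r`.
Its probability is at most `C (s / r) ^ (1 + κ)`.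
-/

open MeasureTheory ProbabilityTheory unitInterval

namespace Pool.Agent.H26.HP

open Pool.Agent.H89.Perc
open Pool.Agent.H61.NC (RSWreg)

variable {ω ω' : Config} {D X S T : Set Vert} {R n r s : ℕ} {q : I} {c : ℝ}

/-! ### Reflection -/

/-- Reflection in the vertical axis. -/
def rho (v : Vert) : Vert := (0 - v.1, v.2)

lemma rho_rho (v : Vert) : rho (rho v) = v := by
  ext <;> simp [rho]

lemma rho_mem_hb {v : Vert} : rho v ∈ hb 0 r ↔ v ∈ hb 0 r := by
  simp only [mem_hb, rho]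
  omega

lemma rho_mem_ball {v : Vert} : rho v ∈ ball 0 r ↔ v ∈ ball 0 r := by
  simp only [mem_ball, rho, Prod.fst_zero, Prod.snd_zero]
  omega

lemma rho_mem_sphere {v : Vert} : rho v ∈ sphere 0 r ↔ v ∈ sphere 0 r := by
  simp only [sphere, Set.mem_ofPred_eq, rho_mem_ball]
  simp only [rho, Prod.fst_zero, Prod.snd_zero]
  constructor <;> (rintro ⟨h1, h2⟩; refine ⟨h1, ?_⟩; omega)

lemma conn_rho {u v : Vert} : Conn (fun e => ω (reflX 0 e)) (hb 0 r) u v ↔
    Conn ω (hb 0 r) (rho u) (rho v) := by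
  rw [conn_reflX]
  have : {w : Vert | (0 - w.1, w.2) ∈ hb 0 r} = hb 0 r := by
    ext w
    exact rho_mem_hb
  rw [this]
  rfl

lemma isClus_rho : {ω : Config | (fun e => ω (reflX 0 e)) ∈ IsClus (hb 0 r) S} =
    IsClus (hb 0 r) (rho '' S) := by
  have key : ∀ (ω : Config) (u : Vert),
      clus (fun e => ω (reflX 0 e)) (hb 0 r) {u} = rho '' (clus ω (hb 0 r) {rho u}) := by
    intro ω u
    ext v
    simp only [clus, Set.mem_singleton_iff, exists_eq_left, Set.mem_image, Set.mem_ofPred_eq]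
    rw [conn_rho]
    constructor
    · intro h
      exact ⟨rho v, h, rho_rho v⟩
    · rintro ⟨w, h, rfl⟩
      rwa [rho_rho]
  ext ω
  simp only [IsClus, Set.mem_ofPred_eq]
  constructor
  · rintro ⟨u, hu, h⟩
    refine ⟨rho u, ⟨u, hu, rfl⟩, ?_⟩
    rw [key] at h
    rw [← h, ← Set.image_comp]
    have : rho ∘ rho = id := by funext v; exact rho_rho v
    rw [this, Set.image_id]
  · rintro ⟨_, ⟨u, hu, rfl⟩, h⟩
    refine ⟨u, hu, ?_⟩
    rw [key, h, ← Set.image_comp]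
    have : rho ∘ rho = id := by funext v; exact rho_rho v
    rw [this, Set.image_id]

lemma Pr_isClus_rho : Pr q (IsClus (hb 0 r) (rho '' S)) = Pr q (IsClus (hb 0 r) S) := by
  rw [← isClus_rho, Pr_comp (localOn_isClus (R := r) (hb_subset_ball (by simp)))
    (reflX_injective 0).injOn]

/-- `S` joins `ball 0 s` to distance `r` and avoids the base to the left of `-16 s`. -/
def PhiL (s r : ℕ) (S : Set Vert) : Prop :=
  (∃ v ∈ S, v ∈ ball 0 s) ∧ (∃ w ∈ S, w ∈ sphere 0 r) ∧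
    ∀ x : ℤ, 16 * s < x → x ≤ r → ((-x, 0) : Vert) ∉ S

/-- The family of the sets with the property `PhiL`. -/
noncomputable def FL (s r : ℕ) : Finset (Finset Vert) := by
  classical exact (bF r).powerset.filter (fun T => PhiL s r ↑T)

lemma mem_FL {T : Finset Vert} : T ∈ FL s r ↔ T ⊆ bF r ∧ PhiL s r ↑T := by
  classical
  rw [FL, Finset.mem_filter, Finset.mem_powerset]

lemma PhiL_iff : PhiL s r S ↔ PhiR s r (rho '' S) := by
  have h1 : ∀ v : Vert, v ∈ rho '' S ↔ rho v ∈ S := by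
    intro v
    constructor
    · rintro ⟨w, hw, rfl⟩
      rwa [rho_rho]
    · intro h
      exact ⟨_, h, rho_rho v⟩
  simp only [PhiL, PhiR, h1]
  refine and_congr ?_ (and_congr ?_ ?_)
  · constructor
    · rintro ⟨v, hv, h⟩
      exact ⟨rho v, by rwa [rho_rho], rho_mem_ball.2 h⟩
    · rintro ⟨v, hv, h⟩
      exact ⟨rho v, hv, rho_mem_ball.2 h⟩
  · constructor
    · rintro ⟨v, hv, h⟩
      exact ⟨rho v, by rwa [rho_rho], rho_mem_sphere.2 h⟩
    · rintro ⟨v, hv, h⟩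
      exact ⟨rho v, hv, rho_mem_sphere.2 h⟩
  · simp only [rho, zero_sub]

theorem EN_left (hc : 0 < c) (hs : 1 ≤ s) (hr : 32 * s ≤ r) (hreg : RSWreg c r q) :
    EN q (hb 0 r) (FL s r) ≤ 594 / c ^ 11 * (s / r) := by
  classical
  have h1 : ∀ T : Finset Vert, (↑(T.image rho) : Set Vert) = rho '' ↑T := fun T => by simp
  have h2 : ∀ T : Finset Vert, (T.image rho).image rho = T := by
    intro T
    rw [Finset.image_image]
    have : rho ∘ rho = id := by funext v; exact rho_rho v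
    rw [this, Finset.image_id]
  have h3 : ∀ T : Finset Vert, T ⊆ bF r → T.image rho ⊆ bF r := by
    intro T hT v hv
    rw [Finset.mem_image] at hv
    obtain ⟨w, hw, rfl⟩ := hv
    rw [mem_bF, rho_mem_ball, ← mem_bF]
    exact hT hw
  have h4 : EN q (hb 0 r) (FL s r) = EN q (hb 0 r) (FR s r) := by
    rw [EN, EN]
    refine Finset.sum_nbij' (fun T => T.image rho) (fun T => T.image rho) ?_ ?_ ?_ ?_ ?_
    · intro T hT
      rw [mem_FL] at hT
      rw [mem_FR, h1]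
      exact ⟨h3 T hT.1, PhiL_iff.1 hT.2⟩
    · intro T hT
      rw [mem_FR] at hT
      rw [mem_FL, PhiL_iff, ← h1, h2]
      exact ⟨h3 T hT.1, hT.2⟩
    · intro T _
      exact h2 T
    · intro T _
      exact h2 T
    · intro T _
      rw [h1, Pr_isClus_rho]
  rw [h4]
  exact EN_right hc hs hr hreg

/-! ### Planarity -/

lemma isClus_conn' (h : ω ∈ IsClus D S) {u v : Vert} (hu : u ∈ S) (hv : v ∈ S) :
    Conn ω S u v := by
  refine (isClus_conn h hu hv).induction_right (P := fun x => Conn ω S u x) (Conn.refl hu) ?_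
  intro a b ha hab ih
  exact ih.tail ⟨ih.mem_right, isClus_closed h hu (ha.tail hab), hab.2.2⟩

/-- Two disjoint connected sets in the half ball: the first one cannot touch the base on both
sides of a base point of the second one, if the second one reaches the sphere. -/
theorem planar (hr : 1 ≤ r) (hS : S ⊆ hb 0 r) (hT : T ⊆ hb 0 r) (hdis : ∀ v ∈ S, v ∉ T)
    {a b a' : ℤ} {z : Vert} (hab : a < a') (hab' : a' < b)
    (h1 : Conn ω S (a, 0) (b, 0)) (h2 : Conn ω' T (a', 0) z) (hz : z ∈ sphere 0 r) : False := by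
  classical
  -- the extended sets
  set S' : Set Vert := {v | v ∈ S ∨ (v.1 = a ∧ -1 ≤ v.2 ∧ v.2 ≤ 0) ∨
    (v.2 = -1 ∧ -(r : ℤ) - 2 ≤ v.1 ∧ v.1 ≤ a) ∨ (v.1 = b ∧ -1 ≤ v.2 ∧ v.2 ≤ 0) ∨
    (v.2 = -1 ∧ b ≤ v.1 ∧ v.1 ≤ r + 2)} with hS'
  set T' : Set Vert := {v | v ∈ T ∨ (v.1 = a' ∧ -2 ≤ v.2 ∧ v.2 ≤ 0) ∨
    (v.1 = z.1 ∧ z.2 = r ∧ r ≤ v.2 ∧ v.2 ≤ r + 1) ∨
    (z.1 = -r ∧ v.2 = z.2 ∧ -(r : ℤ) - 1 ≤ v.1 ∧ v.1 ≤ -r) ∨
    (z.1 = -r ∧ v.1 = -(r : ℤ) - 1 ∧ z.2 ≤ v.2 ∧ v.2 ≤ r + 1) ∨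
    (z.1 = r ∧ v.2 = z.2 ∧ r ≤ v.1 ∧ v.1 ≤ r + 1) ∨
    (z.1 = r ∧ v.1 = r + 1 ∧ z.2 ≤ v.2 ∧ v.2 ≤ r + 1)} with hT'
  have haS := h1.mem_left
  have hbS := h1.mem_right
  have haT := h2.mem_left
  have hzT := h2.mem_right
  have ha := mem_hb.1 (hS haS)
  have hb := mem_hb.1 (hS hbS)
  have ha' := mem_hb.1 (hT haT)
  have hz' := mem_hb.1 (hT hzT)
  simp only at ha hb ha'
  have hzs := hz.2
  simp only [Prod.fst_zero, Prod.snd_zero] at hzs
  have c1 : Conn allOpen S' (-(r : ℤ) - 2, -1) (r + 2, -1) := by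
    have k1 : Conn allOpen S' (-(r : ℤ) - 2, -1) (a, -1) :=
      conn_line_x (by omega) fun x h3 h4 => Or.inr (Or.inr (Or.inl ⟨rfl, h3, h4⟩))
    have k2 : Conn allOpen S' (a, -1) (a, 0) :=
      conn_line_y (by omega) fun y h3 h4 => Or.inr (Or.inl ⟨rfl, h3, h4⟩)
    have k3 : Conn allOpen S' (a, 0) (b, 0) :=
      h1.mono (fun v hv => Or.inl hv) (fun _ _ => rfl)
    have k4 : Conn allOpen S' (b, -1) (b, 0) :=
      conn_line_y (by omega) fun y h3 h4 => Or.inr (Or.inr (Or.inr (Or.inl ⟨rfl, h3, h4⟩)))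
    have k5 : Conn allOpen S' (b, -1) (r + 2, -1) :=
      conn_line_x (by omega) fun x h3 h4 => Or.inr (Or.inr (Or.inr (Or.inr ⟨rfl, h3, h4⟩)))
    exact k1.trans (k2.trans (k3.trans (k4.symm.trans k5)))
  have c2 : ∃ t : ℤ, Conn allOpen T' (a', -2) (t, r + 1) := by
    have k1 : Conn allOpen T' (a', -2) (a', 0) :=
      conn_line_y (by omega) fun y h3 h4 => Or.inr (Or.inl ⟨rfl, h3, h4⟩)
    have k2 : Conn allOpen T' (a', 0) z :=
      h2.mono (fun v hv => Or.inl hv) (fun _ _ => rfl)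
    by_cases e1 : z.2 = r
    · have k3 : Conn allOpen T' (z.1, (r : ℤ)) (z.1, r + 1) :=
        conn_line_y (by omega) fun y h3 h4 => Or.inr (Or.inr (Or.inl ⟨rfl, e1, h3, h4⟩))
      have e : z = (z.1, (r : ℤ)) := by ext <;> simp [e1]
      exact ⟨z.1, k1.trans (k2.trans (e ▸ k3))⟩
    by_cases e2 : z.1 = -r
    · have k3 : Conn allOpen T' (-(r : ℤ) - 1, z.2) (-(r : ℤ), z.2) :=
        conn_line_x (by omega) fun x h3 h4 => Or.inr (Or.inr (Or.inr (Or.inl ⟨e2, rfl, h3, h4⟩)))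
      have k4 : Conn allOpen T' (-(r : ℤ) - 1, z.2) (-(r : ℤ) - 1, r + 1) :=
        conn_line_y (by omega) fun y h3 h4 =>
          Or.inr (Or.inr (Or.inr (Or.inr (Or.inl ⟨e2, rfl, h3, h4⟩))))
      have e : z = (-(r : ℤ), z.2) := by ext <;> simp [e2]
      refine ⟨-(r : ℤ) - 1, k1.trans (k2.trans ?_)⟩
      rw [e]
      exact k3.symm.trans k4
    · have e3 : z.1 = r := by
        rcases hzs with h | h | h | h <;> omega
      have k3 : Conn allOpen T' ((r : ℤ), z.2) (r + 1, z.2) :=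
        conn_line_x (by omega) fun x h3 h4 =>
          Or.inr (Or.inr (Or.inr (Or.inr (Or.inr (Or.inl ⟨e3, rfl, h3, h4⟩)))))
      have k4 : Conn allOpen T' ((r : ℤ) + 1, z.2) (r + 1, r + 1) :=
        conn_line_y (by omega) fun y h3 h4 =>
          Or.inr (Or.inr (Or.inr (Or.inr (Or.inr (Or.inr ⟨e3, rfl, h3, h4⟩)))))
      have e : z = ((r : ℤ), z.2) := by ext <;> simp [e3]
      refine ⟨r + 1, k1.trans (k2.trans ?_)⟩
      rw [e]
      exact k3.trans k4
  obtain ⟨t, c2⟩ := c2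
  have hS'sub : S' ⊆ rect (-(r : ℤ) - 2) (r + 2) (-2) (r + 1) := by
    intro v hv
    rcases hv with h | h | h | h | h
    · have := mem_hb.1 (hS h)
      exact ⟨by omega, by omega, by omega, by omega⟩
    all_goals exact ⟨by omega, by omega, by omega, by omega⟩
  have hT'sub : T' ⊆ rect (-(r : ℤ) - 2) (r + 2) (-2) (r + 1) := by
    intro v hv
    rcases hv with h | h | h | h | h | h | h
    · have := mem_hb.1 (hT h)
      exact ⟨by omega, by omega, by omega, by omega⟩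
    all_goals exact ⟨by omega, by omega, by omega, by omega⟩
  obtain ⟨w, hw1, hw2⟩ := cross_in c1 hS'sub rfl rfl c2 hT'sub rfl rfl
  have hwS := hw1.mem_right
  have hwT := hw2.mem_right
  obtain ⟨x, y⟩ := w
  obtain ⟨z1, z2⟩ := z
  simp only at hz' hzs
  rcases hwS with h | h | h | h | h
  · have hxy := mem_hb.1 (hS h)
    simp only at hxy
    rcases hwT with g | g | g | g | g | g | g
    · exact hdis _ h g
    · simp only at g
      have : y = 0 := by omega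
      rw [this, g.1] at h
      exact hdis _ h haT
    · simp only at g
      have e1 : x = z1 := g.1
      have e2 : y = z2 := by omega
      rw [e1, e2] at h
      exact hdis _ h hzT
    · simp only at g
      have e1 : x = z1 := by omega
      have e2 : y = z2 := g.2.1
      rw [e1, e2] at h
      exact hdis _ h hzT
    · simp only at g
      omega
    · simp only at g
      have e1 : x = z1 := by omega
      have e2 : y = z2 := g.2.1
      rw [e1, e2] at h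
      exact hdis _ h hzT
    · simp only at g
      omega
  · simp only at h
    rcases hwT with g | g | g | g | g | g | g
    · have hxy := mem_hb.1 (hT g)
      simp only at hxy
      have : y = 0 := by omega
      rw [this, h.1] at g
      exact hdis _ haS g
    · simp only at g; omega
    · simp only at g; omega
    · simp only at g
      have e1 : z1 = a := by omega
      have e2 : z2 = 0 := by omega
      rw [e1, e2] at hzT
      exact hdis _ haS hzT
    · simp only at g; omega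
    · simp only at g
      have e1 : z1 = a := by omega
      have e2 : z2 = 0 := by omega
      rw [e1, e2] at hzT
      exact hdis _ haS hzT
    · simp only at g; omega
  · simp only at h
    rcases hwT with g | g | g | g | g | g | g
    · have hxy := mem_hb.1 (hT g)
      simp only at hxy
      omega
    all_goals (simp only at g; omega)
  · simp only at h
    rcases hwT with g | g | g | g | g | g | g
    · have hxy := mem_hb.1 (hT g)
      simp only at hxy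
      have : y = 0 := by omega
      rw [this, h.1] at g
      exact hdis _ hbS g
    · simp only at g; omega
    · simp only at g; omega
    · simp only at g
      have e1 : z1 = b := by omega
      have e2 : z2 = 0 := by omega
      rw [e1, e2] at hzT
      exact hdis _ hbS hzT
    · simp only at g; omega
    · simp only at g
      have e1 : z1 = b := by omega
      have e2 : z2 = 0 := by omega
      rw [e1, e2] at hzT
      exact hdis _ hbS hzT
    · simp only at g; omega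
  · simp only at h
    rcases hwT with g | g | g | g | g | g | g
    · have hxy := mem_hb.1 (hT g)
      simp only at hxy
      omega
    all_goals (simp only at g; omega)

/-! ### Two clusters -/

/-- Two different clusters of the half ball of radius `r` join `ball 0 s` to distance `r`. -/
def U (s r : ℕ) : Set Config :=
  {ω | ∃ u ∈ ball 0 s, ∃ v ∈ ball 0 s, (∃ w ∈ sphere 0 r, Conn ω (hb 0 r) u w) ∧
    (∃ w ∈ sphere 0 r, Conn ω (hb 0 r) v w) ∧ ¬ Conn ω (hb 0 r) u v}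

/-- There is a crossing off `S`. -/
def GG (s r : ℕ) (S : Set Vert) : Set Config :=
  {ω | ∃ u ∈ ball 0 s, ∃ w ∈ sphere 0 r, Conn ω (hb 0 r \ S) u w}

/-- One of the two clusters avoids one side of the base. -/
theorem U_cases (hr : 1 ≤ r) (h : ω ∈ U s r) :
    (∃ T ∈ FR s r, ω ∈ IsClus (hb 0 r) ↑T ∧ ω ∈ GG s r ↑T) ∨
    (∃ T ∈ FL s r, ω ∈ IsClus (hb 0 r) ↑T ∧ ω ∈ GG s r ↑T) := by
  classical
  obtain ⟨u, hu, v, hv, ⟨w, hw, h1⟩, ⟨w', hw', h2⟩, h3⟩ := h
  have hDR : hb 0 r ⊆ ball 0 r := hb_subset_ball (by simp)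
  set S : Set Vert := clus ω (hb 0 r) {u} with hSdef
  set T : Set Vert := clus ω (hb 0 r) {v} with hTdef
  have cS : ω ∈ IsClus (hb 0 r) S := isClus_clus h1.mem_left
  have cT : ω ∈ IsClus (hb 0 r) T := isClus_clus h2.mem_left
  have huS : u ∈ S := ⟨u, rfl, Conn.refl h1.mem_left⟩
  have hvT : v ∈ T := ⟨v, rfl, Conn.refl h2.mem_left⟩
  have hwS : w ∈ S := ⟨u, rfl, h1⟩
  have hwT : w' ∈ T := ⟨v, rfl, h2⟩
  have hdis : ∀ x ∈ S, x ∉ T := by
    intro x hx hx'
    have := isClus_unique cS cT hx hx'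
    exact h3 (isClus_conn cS huS (this ▸ hvT))
  have gS : ω ∈ GG s r S := ⟨v, hv, w', hw', isClus_off cS (fun h => hdis v h hvT) h2⟩
  have gT : ω ∈ GG s r T := ⟨u, hu, w, hw, isClus_off cT (hdis u huS) h1⟩
  obtain ⟨FS, hFS, hFSe⟩ := exists_finset (S := S) (R := r) (clus_subset.trans hDR)
  obtain ⟨FT, hFT, hFTe⟩ := exists_finset (S := T) (R := r) (clus_subset.trans hDR)
  rw [Finset.mem_powerset] at hFS hFT
  by_contra hno
  push Not at hno
  obtain ⟨n1, n2⟩ := hno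
  -- none of the four cases
  have m1 : ∃ x : ℤ, 16 * s < x ∧ x ≤ r ∧ ((x, 0) : Vert) ∈ S := by
    by_contra hx
    push Not at hx
    exact n1 FS (mem_FR.2 ⟨hFS, hFSe ▸ ⟨⟨u, huS, hu⟩, ⟨w, hwS, hw⟩, hx⟩⟩) (hFSe ▸ cS) (hFSe ▸ gS)
  have m2 : ∃ x : ℤ, 16 * s < x ∧ x ≤ r ∧ ((-x, 0) : Vert) ∈ S := by
    by_contra hx
    push Not at hx
    exact n2 FS (mem_FL.2 ⟨hFS, hFSe ▸ ⟨⟨u, huS, hu⟩, ⟨w, hwS, hw⟩, hx⟩⟩) (hFSe ▸ cS) (hFSe ▸ gS)
  have m3 : ∃ x : ℤ, 16 * s < x ∧ x ≤ r ∧ ((x, 0) : Vert) ∈ T := by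
    by_contra hx
    push Not at hx
    exact n1 FT (mem_FR.2 ⟨hFT, hFTe ▸ ⟨⟨v, hvT, hv⟩, ⟨w', hwT, hw'⟩, hx⟩⟩) (hFTe ▸ cT) (hFTe ▸ gT)
  have m4 : ∃ x : ℤ, 16 * s < x ∧ x ≤ r ∧ ((-x, 0) : Vert) ∈ T := by
    by_contra hx
    push Not at hx
    exact n2 FT (mem_FL.2 ⟨hFT, hFTe ▸ ⟨⟨v, hvT, hv⟩, ⟨w', hwT, hw'⟩, hx⟩⟩) (hFTe ▸ cT) (hFTe ▸ gT)
  obtain ⟨b, b1, b2, b3⟩ := m1
  obtain ⟨a, a1, a2, a3⟩ := m2
  obtain ⟨b', b1', b2', b3'⟩ := m3
  obtain ⟨a', a1', a2', a3'⟩ := m4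
  have hne : a ≠ a' := by
    rintro rfl
    exact hdis _ a3 a3'
  rcases lt_or_gt_of_ne hne with h | h
  · -- `-a' < -a`: the second cluster surrounds
    exact planar hr (isClus_subset cT) (isClus_subset cS) (fun x hx hx' => hdis x hx' hx)
      (a := -a') (a' := -a) (b := b') (by omega) (by omega)
      (isClus_conn' cT a3' b3') (isClus_conn' cS a3 hwS) hw
  · exact planar hr (isClus_subset cS) (isClus_subset cT) hdis
      (a := -a) (a' := -a') (b := b) (by omega) (by omega)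
      (isClus_conn' cS a3 b3) (isClus_conn' cT a3' hwT) hw'

/-- **(H3)** Two disjoint clusters crossing a half annulus. -/
theorem U_le (c : ℝ) (hc : 0 < c) : ∃ C κ : ℝ, 0 < C ∧ 0 < κ ∧ κ ≤ 1 ∧
    ∀ (n : ℕ) (q : I), RSWreg c n q → ∀ s r : ℕ, 1 ≤ s → s ≤ r → r ≤ n →
      Pr q (U s r) ≤ C * ((s : ℝ) / r) ^ (1 + κ) := by
  obtain ⟨C, κ, hC, hκ, hκ1, hdec⟩ := armBox_decay c hc
  refine ⟨max (1188 / c ^ 11 * C) (32 ^ (1 + κ)), κ, by positivity, hκ, hκ1, ?_⟩
  intro n q hreg s r hs hsr hrn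
  have hr1 : 1 ≤ r := hs.trans hsr
  have hs0 : (0 : ℝ) < s := by exact_mod_cast hs
  have hr0 : (0 : ℝ) < r := by exact_mod_cast hr1
  have hregr : RSWreg c r q := RSWreg.mono hreg hrn
  by_cases h32 : 32 * s ≤ r
  · set δ : ℝ := Pr q (ArmBox 0 s r) with hδ
    have hδ1 : δ ≤ C * ((s : ℝ) / r) ^ κ := hdec r q hregr s r hs hsr le_rfl
    have hDR : hb 0 r ⊆ ball 0 r := hb_subset_ball (by simp)
    have lG : ∀ S, LocalOn (eIn r (hb 0 r \ S)) (GG s r S) := by
      rintro S ω ω' hω ⟨u, hu, w, hw, h2⟩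
      exact ⟨u, hu, w, hw, localOn_conn_in (Set.sdiff_subset.trans hDR) _ _ ω ω' hω h2⟩
    have hG : ∀ S, Pr q (GG s r S) ≤ δ := by
      intro S
      refine Pr_mono ?_
      rintro ω ⟨u, hu, w, hw, h2⟩
      exact ⟨u, hu, w, hw, h2.mono_set (Set.sdiff_subset.trans hDR)⟩
    have h1 : Pr q {ω | ∃ T ∈ FR s r, ω ∈ IsClus (hb 0 r) ↑T ∧ ω ∈ GG s r ↑T} ≤
        EN q (hb 0 r) (FR s r) * δ :=
      le_EN hDR lG (fun T _ => hG T) fun ω h => h
    have h2 : Pr q {ω | ∃ T ∈ FL s r, ω ∈ IsClus (hb 0 r) ↑T ∧ ω ∈ GG s r ↑T} ≤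
        EN q (hb 0 r) (FL s r) * δ :=
      le_EN hDR lG (fun T _ => hG T) fun ω h => h
    have h3 : Pr q (U s r) ≤ EN q (hb 0 r) (FR s r) * δ + EN q (hb 0 r) (FL s r) * δ := by
      refine le_trans ((Pr_mono ?_).trans Pr_union_le) (add_le_add h1 h2)
      intro ω hω
      exact U_cases hr1 hω
    have h4 := EN_right hc hs h32 hregr
    have h5 := EN_left hc hs h32 hregr
    have hδ0 : 0 ≤ δ := Pr_nonneg
    have h6 : Pr q (U s r) ≤ 1188 / c ^ 11 * (s / r) * δ := by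
      calc Pr q (U s r) ≤ _ := h3
        _ ≤ 594 / c ^ 11 * (s / r) * δ + 594 / c ^ 11 * (s / r) * δ :=
          add_le_add (mul_le_mul_of_nonneg_right h4 hδ0) (mul_le_mul_of_nonneg_right h5 hδ0)
        _ = _ := by ring
    calc Pr q (U s r) ≤ 1188 / c ^ 11 * (s / r) * δ := h6
      _ ≤ 1188 / c ^ 11 * (s / r) * (C * ((s : ℝ) / r) ^ κ) :=
          mul_le_mul_of_nonneg_left hδ1 (by positivity)
      _ = (1188 / c ^ 11 * C) * ((s : ℝ) / r) ^ (1 + κ) := by
          rw [Real.rpow_add (by positivity), Real.rpow_one]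
          ring
      _ ≤ _ := mul_le_mul_of_nonneg_right (le_max_left _ _) (by positivity)
  · have h1 : (1 : ℝ) ≤ 32 * ((s : ℝ) / r) := by
      rw [← mul_div_assoc, le_div_iff₀ hr0, one_mul]
      have : r ≤ 32 * s := by omega
      exact_mod_cast this
    calc Pr q (U s r) ≤ 1 := Pr_le_one
      _ ≤ (32 * ((s : ℝ) / r)) ^ (1 + κ) := Real.one_le_rpow h1 (by linarith)
      _ = 32 ^ (1 + κ) * ((s : ℝ) / r) ^ (1 + κ) := Real.mul_rpow (by norm_num) (by positivity)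
      _ ≤ _ := mul_le_mul_of_nonneg_right (le_max_right _ _) (by positivity)

end Pool.Agent.H26.HP

end

section

/-!
# The two-cluster event in the four half planes at an arbitrary point
-/

open MeasureTheory ProbabilityTheory unitInterval

namespace Pool.Agent.H26.HP

open Pool.Agent.H89.Perc
open Pool.Agent.H61.NC (RSWreg)
open Pool.Agent.H29.Sep (LocTwo)

variable {ω ω' : Config} {D X S T : Set Vert} {R n r s : ℕ} {q : I} {c : ℝ}

lemma exists_big_ball (z : Vert) (ρ : ℕ) : ∃ R : ℕ, ball z ρ ⊆ ball 0 R := by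
  refine ⟨z.1.natAbs + z.2.natAbs + ρ, fun v hv => ?_⟩
  simp only [mem_ball, Prod.fst_zero, Prod.snd_zero] at hv ⊢
  push_cast
  rcases abs_cases z.1 with ⟨h1, h2⟩ | ⟨h1, h2⟩ <;> rcases abs_cases z.2 with ⟨h3, h4⟩ | ⟨h3, h4⟩ <;>
    rw [h1, h3] <;> omega

lemma localOn_locTwo (D : Set Vert) (z : Vert) (t ρ : ℕ) :
    ∃ E : Finset Edge, LocalOn E (LocTwo D z t ρ) := by
  obtain ⟨R, hR⟩ := exists_big_ball z ρ
  have hD : D ∩ ball z ρ ⊆ ball 0 R := Set.inter_subset_right.trans hR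
  refine ⟨eIn R (D ∩ ball z ρ), ?_⟩
  rintro ω ω' h ⟨u, hu, u', hu', v, hv, v', hv', h1, h2, h3⟩
  exact ⟨u, hu, u', hu', v, hv, v', hv', localOn_conn_in hD _ _ ω ω' h h1,
    localOn_conn_in hD _ _ ω ω' h h2, fun h4 => h3 (localOn_conn_in hD _ _ ω' ω
      (fun e he => (h e he).symm) h4)⟩

/-- Invariance under a symmetry of the lattice. -/
theorem Pr_locTwo_map {φ : Edge → Edge} (hφ : Function.Injective φ) {f g : Vert → Vert}
    (hfg : ∀ w, f (g w) = w) (_hgf : ∀ w, g (f w) = w)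
    (hconn : ∀ (ω : Config) (S : Set Vert) (u v : Vert), Conn (fun e => ω (φ e)) S u v ↔
      Conn ω {w | g w ∈ S} (f u) (f v))
    (hball : ∀ (z w : Vert) (t : ℕ), f w ∈ ball (f z) t ↔ w ∈ ball z t)
    (hsph : ∀ (z w : Vert) (t : ℕ), f w ∈ sphere (f z) t ↔ w ∈ sphere z t)
    (D : Set Vert) (z : Vert) (t ρ : ℕ) :
    Pr q (LocTwo {w | g w ∈ D} (f z) t ρ) = Pr q (LocTwo D z t ρ) := by
  obtain ⟨E, hE⟩ := localOn_locTwo D z t ρ
  rw [← Pr_comp hE hφ.injOn]
  congr 1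
  have hset : {w | g w ∈ D ∩ ball z ρ} = {w | g w ∈ D} ∩ ball (f z) ρ := by
    ext w
    simp only [Set.mem_ofPred_eq, Set.mem_inter_iff]
    rw [← hball z (g w) ρ, hfg]
  ext ω
  simp only [LocTwo, Set.mem_ofPred_eq]
  constructor
  · rintro ⟨u, hu, u', hu', v, hv, v', hv', h1, h2, h3⟩
    refine ⟨g u, ?_, g u', ?_, g v, ?_, g v', ?_, ?_, ?_, ?_⟩
    · rwa [← hball, hfg]
    · rwa [← hball, hfg]
    · rwa [← hsph, hfg]
    · rwa [← hsph, hfg]
    · rw [hconn, hset, hfg, hfg]; exact h1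
    · rw [hconn, hset, hfg, hfg]; exact h2
    · rw [hconn, hset, hfg, hfg]; exact h3
  · rintro ⟨u, hu, u', hu', v, hv, v', hv', h1, h2, h3⟩
    rw [hconn, hset] at h1 h2 h3
    exact ⟨f u, (hball _ _ _).2 hu, f u', (hball _ _ _).2 hu', f v, (hsph _ _ _).2 hv, f v',
      (hsph _ _ _).2 hv', h1, h2, h3⟩

theorem Pr_locTwo_shift (a : Vert) (D : Set Vert) (z : Vert) (t ρ : ℕ) :
    Pr q (LocTwo {w | (w.1 - a.1, w.2 - a.2) ∈ D} (z.1 + a.1, z.2 + a.2) t ρ) =
      Pr q (LocTwo D z t ρ) := by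
  refine Pr_locTwo_map (φ := shiftE a) (shiftE_injective a) (f := fun w => (w.1 + a.1, w.2 + a.2))
    (g := fun w => (w.1 - a.1, w.2 - a.2)) ?_ ?_ ?_ ?_ ?_ D z t ρ
  · intro w; ext <;> simp
  · intro w; ext <;> simp
  · intro ω S u v
    exact conn_shift a S u v
  · intro z w t
    simp only [mem_ball]
    omega
  · intro z w t
    simp only [sphere, Set.mem_ofPred_eq, mem_ball]
    omega

theorem Pr_locTwo_reflY (D : Set Vert) (z : Vert) (t ρ : ℕ) :
    Pr q (LocTwo {w | (w.1, 0 - w.2) ∈ D} (z.1, 0 - z.2) t ρ) =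
      Pr q (LocTwo D z t ρ) := by
  refine Pr_locTwo_map (φ := reflY 0) (reflY_injective 0) (f := fun w => (w.1, 0 - w.2))
    (g := fun w => (w.1, 0 - w.2)) ?_ ?_ ?_ ?_ ?_ D z t ρ
  · intro w; ext <;> simp
  · intro w; ext <;> simp
  · intro ω S u v
    exact conn_reflY 0 S u v
  · intro z w t
    simp only [mem_ball]
    omega
  · intro z w t
    simp only [sphere, Set.mem_ofPred_eq, mem_ball]
    omega

theorem Pr_locTwo_swap (D : Set Vert) (z : Vert) (t ρ : ℕ) :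
    Pr q (LocTwo {w | (w.2, w.1) ∈ D} (z.2, z.1) t ρ) = Pr q (LocTwo D z t ρ) := by
  refine Pr_locTwo_map (φ := swapE) swapE_injective (f := fun w => (w.2, w.1))
    (g := fun w => (w.2, w.1)) ?_ ?_ ?_ ?_ ?_ D z t ρ
  · intro w; rfl
  · intro w; rfl
  · intro ω S u v
    exact conn_swap S u v
  · intro z w t
    simp only [mem_ball]
    omega
  · intro z w t
    simp only [sphere, Set.mem_ofPred_eq, mem_ball]
    omega

lemma locTwo_up_zero (t ρ : ℕ) : LocTwo up 0 t ρ = U t ρ := by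
  have h : up ∩ ball 0 ρ = hb 0 ρ := Set.inter_comm _ _
  ext ω
  simp only [LocTwo, U, h, Set.mem_ofPred_eq]
  constructor
  · rintro ⟨u, hu, u', hu', v, hv, v', hv', h1, h2, h3⟩
    exact ⟨u, hu, u', hu', ⟨v, hv, h1⟩, ⟨v', hv', h2⟩, h3⟩
  · rintro ⟨u, hu, u', hu', ⟨v, hv, h1⟩, ⟨v', hv', h2⟩, h3⟩
    exact ⟨u, hu, u', hu', v, hv, v', hv', h1, h2, h3⟩

/-- Only the part of the domain near `z` matters. -/
lemma locTwo_congr {D D' : Set Vert} {z : Vert} {t ρ : ℕ}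
    (h : ∀ v ∈ ball z ρ, v ∈ D ↔ v ∈ D') : LocTwo D z t ρ = LocTwo D' z t ρ := by
  have : D ∩ ball z ρ = D' ∩ ball z ρ := by
    ext v
    simp only [Set.mem_inter_iff]
    constructor
    · rintro ⟨h1, h2⟩; exact ⟨(h v h2).1 h1, h2⟩
    · rintro ⟨h1, h2⟩; exact ⟨(h v h2).2 h1, h2⟩
  simp only [LocTwo, this]

theorem Pr_locTwo_up (z : Vert) (t ρ : ℕ) :
    Pr q (LocTwo {v | z.2 ≤ v.2} z t ρ) = Pr q (U t ρ) := by
  have h := Pr_locTwo_shift (q := q) z up 0 t ρ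
  rw [locTwo_up_zero] at h
  rw [← h]
  congr 1
  have e1 : {w : Vert | (w.1 - z.1, w.2 - z.2) ∈ up} = {v | z.2 ≤ v.2} := by
    ext w
    simp only [up, Set.mem_ofPred_eq, sub_nonneg]
  have e2 : ((0 : Vert).1 + z.1, (0 : Vert).2 + z.2) = z := by ext <;> simp
  rw [e1, e2]

theorem Pr_locTwo_down (z : Vert) (t ρ : ℕ) :
    Pr q (LocTwo {v | v.2 ≤ z.2} z t ρ) = Pr q (U t ρ) := by
  have h := Pr_locTwo_reflY (q := q) {v | (0 - z.2) ≤ v.2} (z.1, 0 - z.2) t ρ
  rw [Pr_locTwo_up (z.1, 0 - z.2)] at h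
  rw [← h]
  congr 1
  have e1 : {w : Vert | (w.1, 0 - w.2) ∈ {v : Vert | (0 - z.2) ≤ v.2}} = {v | v.2 ≤ z.2} := by
    ext w
    simp only [Set.mem_ofPred_eq]
    omega
  have e2 : ((z.1, 0 - z.2).1, 0 - (z.1, 0 - z.2).2) = z := by ext <;> simp
  rw [e1, e2]

theorem Pr_locTwo_right (z : Vert) (t ρ : ℕ) :
    Pr q (LocTwo {v | z.1 ≤ v.1} z t ρ) = Pr q (U t ρ) := by
  have h := Pr_locTwo_swap (q := q) {v | z.1 ≤ v.2} (z.2, z.1) t ρ
  rw [Pr_locTwo_up (z.2, z.1)] at h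
  rw [← h]
  congr 1

theorem Pr_locTwo_left (z : Vert) (t ρ : ℕ) :
    Pr q (LocTwo {v | v.1 ≤ z.1} z t ρ) = Pr q (U t ρ) := by
  have h := Pr_locTwo_swap (q := q) {v | v.2 ≤ z.1} (z.2, z.1) t ρ
  rw [Pr_locTwo_down (z.2, z.1)] at h
  rw [← h]
  congr 1

end Pool.Agent.H26.HP

end

section

/-!
# Two clusters near a boundary point: the inner and the outer side of a square

Final output of the half-plane part: `badIn : BadIn` and `badOut : BadOut`.
-/

open MeasureTheory ProbabilityTheory unitInterval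

namespace Pool.Agent.H26.HP

open Pool.Agent.H89.Perc
open Pool.Agent.H61.NC (RSWreg)
open Pool.Agent.H29.Sep (LocTwo BadIn BadOut)

variable {ω ω' : Config} {D X S T : Set Vert} {R n r s t : ℕ} {q : I} {c : ℝ}

/-- `z` lies on a side of the square of radius `r`, at distance more than `ρ` from the corners. -/
def Flat (z : Vert) (ρ r : ℕ) : Prop :=
  ((z.2 = r ∨ z.2 = -r) ∧ |z.1| + ρ + 1 ≤ r) ∨ ((z.1 = r ∨ z.1 = -r) ∧ |z.2| + ρ + 1 ≤ r)

/-- Moving the centre to a grid point. -/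
lemma locTwo_grid {z z' : Vert} {ρ ρ₃ : ℕ} (hz : z ∈ ball z' t) (h1 : ρ₃ + t ≤ ρ)
    (h2 : 2 * t ≤ ρ₃) : LocTwo D z t ρ ⊆ LocTwo D z' (2 * t) ρ₃ := by
  have hb : ∀ u ∈ ball z t, u ∈ ball z' (2 * t) := by
    intro u hu
    simp only [mem_ball] at hu hz ⊢
    push_cast
    omega
  have hb3 : ∀ u ∈ ball z t, u ∈ ball z' ρ₃ := by
    intro u hu
    simp only [mem_ball] at hu hz ⊢
    omega
  have hsub : ball z' ρ₃ ⊆ ball z ρ := by
    intro u hu
    simp only [mem_ball] at hu hz ⊢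
    omega
  have hout : ∀ v ∈ sphere z ρ, v ∉ ball z' ρ₃ ∨ v ∈ sphere z' ρ₃ := by
    intro v hv
    by_cases h : v ∈ ball z' ρ₃
    · right
      refine ⟨h, ?_⟩
      have h3 := hv.2
      simp only [mem_ball] at h hz h3
      omega
    · exact Or.inl h
  rintro ω ⟨u, hu, u', hu', v, hv, v', hv', k1, k2, k3⟩
  obtain ⟨x, hx, hcx⟩ := k1.to_sphere (hb3 u hu) (hout v hv)
  obtain ⟨x', hx', hcx'⟩ := k2.to_sphere (hb3 u' hu') (hout v' hv')
  refine ⟨u, hb u hu, u', hb u' hu', x, hx, x', hx', ?_, ?_, ?_⟩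
  · exact hcx.mono_set fun w hw => ⟨hw.1.1, hw.2⟩
  · exact hcx'.mono_set fun w hw => ⟨hw.1.1, hw.2⟩
  · exact fun h => k3 (h.mono_set fun w hw => ⟨hw.1, hsub hw.2⟩)

/-- One arm from a corner. -/
lemma locTwo_arm {z v₀ : Vert} {ρ ρ₁ : ℕ} (hz : z ∈ ball v₀ ρ₁) (h1 : 2 * ρ₁ + t ≤ ρ) :
    LocTwo D z t ρ ⊆ ArmBox v₀ (ρ₁ + t) (ρ - ρ₁) := by
  rintro ω ⟨u, hu, _, _, v, hv, _, _, k1, _, _⟩
  have hub : u ∈ ball v₀ (ρ₁ + t) := by
    simp only [mem_ball] at hu hz ⊢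
    push_cast
    omega
  have hub' : u ∈ ball v₀ (ρ - ρ₁) := by
    simp only [mem_ball] at hu hz ⊢
    omega
  have hout : v ∉ ball v₀ (ρ - ρ₁) ∨ v ∈ sphere v₀ (ρ - ρ₁) := by
    by_cases h : v ∈ ball v₀ (ρ - ρ₁)
    · right
      refine ⟨h, ?_⟩
      have h3 := hv.2
      simp only [mem_ball] at h hz h3
      omega
    · exact Or.inl h
  obtain ⟨x, hx, hcx⟩ := k1.to_sphere hub' hout
  exact ⟨u, hub, x, hx, hcx.mono_set Set.inter_subset_right⟩

/-- The grid points. -/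
def cand (t r : ℕ) (p : (Bool × Bool) × ℤ) : Vert :=
  if p.1.1 then (t * p.2, if p.1.2 then r else -r) else (if p.1.2 then r else -r, t * p.2)

/-- The corners. -/
def corner (r : ℕ) (k : Bool × Bool) : Vert := (if k.1 then r else -r, if k.2 then r else -r)

lemma grid_bound {x : ℤ} (ht : 1 ≤ t) (hx : |x| ≤ r) :
    x / t ∈ Finset.Icc (-((r / t : ℕ) + 1 : ℤ)) ((r / t : ℕ) + 1) := by
  rw [Finset.mem_Icc]
  have ht0 : (0 : ℤ) < t := by exact_mod_cast ht
  obtain ⟨hx1, hx2⟩ := abs_le.1 hx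
  have h1 : (t : ℤ) * ((r / t : ℕ) : ℤ) ≤ r := by exact_mod_cast Nat.mul_div_le r t
  have h2 : (r : ℤ) < t * ((r / t : ℕ) : ℤ) + t := by
    have := Nat.lt_mul_div_succ r (show 0 < t by omega)
    have h3 : t * (r / t + 1) = t * (r / t) + t := by ring
    rw [h3] at this
    exact_mod_cast this
  have h3 := Int.mul_ediv_add_emod x t
  have h4 := Int.emod_nonneg x ht0.ne'
  have h5 := Int.emod_lt_of_pos x ht0
  constructor
  · by_contra hlt
    push Not at hlt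
    have h6 : x / (t : ℤ) ≤ -((r / t : ℕ) : ℤ) - 2 := by omega
    have h7 : (t : ℤ) * (x / t) ≤ t * (-((r / t : ℕ) : ℤ) - 2) :=
      mul_le_mul_of_nonneg_left h6 ht0.le
    have h8 : (t : ℤ) * (-((r / t : ℕ) : ℤ) - 2) = -(t * ((r / t : ℕ) : ℤ)) - 2 * t := by ring
    omega
  · by_contra hlt
    push Not at hlt
    have h6 : ((r / t : ℕ) : ℤ) + 1 ≤ x / (t : ℤ) := by omega
    have h7 : (t : ℤ) * (((r / t : ℕ) : ℤ) + 1) ≤ t * (x / t) :=
      mul_le_mul_of_nonneg_left h6 ht0.le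
    have h8 : (t : ℤ) * (((r / t : ℕ) : ℤ) + 1) = t * ((r / t : ℕ) : ℤ) + t := by ring
    omega

lemma grid_near {x : ℤ} (ht : 1 ≤ t) :
    (t : ℤ) * (x / t) ≤ x ∧ x ≤ t * (x / t) + t ∧ |(t : ℤ) * (x / t)| ≤ |x| + t := by
  have ht0 : (0 : ℤ) < t := by exact_mod_cast ht
  have h3 := Int.mul_ediv_add_emod x t
  have h4 := Int.emod_nonneg x ht0.ne'
  have h5 := Int.emod_lt_of_pos x ht0
  refine ⟨by omega, by omega, ?_⟩
  rcases abs_cases ((t : ℤ) * (x / t)) with ⟨h6, h7⟩ | ⟨h6, h7⟩ <;>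
    rcases abs_cases x with ⟨h8, h9⟩ | ⟨h8, h9⟩ <;> rw [h6, h8] <;> omega

/-- The deterministic covering. -/
theorem bad_cover {ρ ρ₁ : ℕ} (ht : 1 ≤ t) (h4 : 4 * t + 4 ≤ ρ₁) (h2 : 2 * ρ₁ + t ≤ ρ)
    (_hr : 2 * ρ ≤ r) (h : ∃ z ∈ sphere 0 r, ω ∈ LocTwo D z t ρ) :
    (∃ k : Bool × Bool, ω ∈ ArmBox (corner r k) (ρ₁ + t) (ρ - ρ₁)) ∨
    ∃ p ∈ (Finset.univ : Finset (Bool × Bool)) ×ˢ
        Finset.Icc (-((r / t : ℕ) + 1 : ℤ)) ((r / t : ℕ) + 1),
      Flat (cand t r p) (ρ₁ - t - 1) r ∧ ω ∈ LocTwo D (cand t r p) (2 * t) (ρ₁ - t - 1) := by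
  obtain ⟨z, hz, hω⟩ := h
  obtain ⟨x, y⟩ := z
  obtain ⟨hzb, hzs⟩ := hz
  simp only [mem_ball, Prod.fst_zero, Prod.snd_zero] at hzb hzs
  have hxr : |x| ≤ r := abs_le.2 ⟨by omega, by omega⟩
  have hyr : |y| ≤ r := abs_le.2 ⟨by omega, by omega⟩
  by_cases hy : y = r ∨ y = -r
  · by_cases hx : |x| + ρ₁ ≤ r
    · right
      obtain ⟨g1, g2, g3⟩ := grid_near (x := x) ht
      refine ⟨((true, decide (y = r)), x / t), ?_, ?_, ?_⟩
      · rw [Finset.mem_product]
        exact ⟨Finset.mem_univ _, grid_bound ht hxr⟩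
      · left
        refine ⟨?_, ?_⟩
        · rcases hy with hy | hy
          · left; simp [cand, hy]
          · by_cases h : y = r
            · left; simp [cand, h]
            · right; simp [cand, h]
        · simp only [cand, if_true]
          have : ((ρ₁ - t - 1 : ℕ) : ℤ) = ρ₁ - t - 1 := by omega
          rw [this]
          omega
      · refine locTwo_grid ?_ (by omega) (by omega) hω
        have e2 : (cand t r ((true, decide (y = r)), x / t)).2 = y := by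
          by_cases h : y = r
          · simp [cand, h]
          · have : y = -r := by omega
            simp [cand, h]
            omega
        have e1 : (cand t r ((true, decide (y = r)), x / t)).1 = t * (x / t) := by simp [cand]
        rw [mem_ball, e1, e2]
        simp only
        omega
    · left
      refine ⟨(decide (0 ≤ x), decide (y = r)), ?_⟩
      refine locTwo_arm ?_ (by omega) hω
      have e1 : (corner r (decide (0 ≤ x), decide (y = r))).2 = y := by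
        by_cases h : y = r
        · simp [corner, h]
        · simp [corner, h]
          omega
      rw [mem_ball, e1]
      by_cases h : 0 ≤ x
      · have e2 : (corner r (decide (0 ≤ x), decide (y = r))).1 = r := by simp [corner, h]
        rw [e2]
        rw [abs_of_nonneg h] at hx
        simp only
        omega
      · have e2 : (corner r (decide (0 ≤ x), decide (y = r))).1 = -r := by simp [corner, h]
        rw [e2]
        rw [abs_of_neg (by omega)] at hx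
        simp only
        omega
  · have hx : x = r ∨ x = -r := by omega
    by_cases hy' : |y| + ρ₁ ≤ r
    · right
      obtain ⟨g1, g2, g3⟩ := grid_near (x := y) ht
      refine ⟨((false, decide (x = r)), y / t), ?_, ?_, ?_⟩
      · rw [Finset.mem_product]
        exact ⟨Finset.mem_univ _, grid_bound ht hyr⟩
      · right
        refine ⟨?_, ?_⟩
        · rcases hx with hx | hx
          · left; simp [cand, hx]
          · by_cases h : x = r
            · left; simp [cand, h]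
            · right; simp [cand, h]
        · simp only [cand, Bool.false_eq_true, if_false]
          have : ((ρ₁ - t - 1 : ℕ) : ℤ) = ρ₁ - t - 1 := by omega
          rw [this]
          omega
      · refine locTwo_grid ?_ (by omega) (by omega) hω
        have e2 : (cand t r ((false, decide (x = r)), y / t)).1 = x := by
          by_cases h : x = r
          · simp [cand, h]
          · simp [cand, h]
            omega
        have e1 : (cand t r ((false, decide (x = r)), y / t)).2 = t * (y / t) := by simp [cand]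
        rw [mem_ball, e1, e2]
        simp only
        omega
    · left
      refine ⟨(decide (x = r), decide (0 ≤ y)), ?_⟩
      refine locTwo_arm ?_ (by omega) hω
      have e1 : (corner r (decide (x = r), decide (0 ≤ y))).1 = x := by
        by_cases h : x = r
        · simp [corner, h]
        · simp [corner, h]
          omega
      rw [mem_ball, e1]
      by_cases h : 0 ≤ y
      · have e2 : (corner r (decide (x = r), decide (0 ≤ y))).2 = r := by simp [corner, h]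
        rw [e2]
        rw [abs_of_nonneg h] at hy'
        simp only
        omega
      · have e2 : (corner r (decide (x = r), decide (0 ≤ y))).2 = -r := by simp [corner, h]
        rw [e2]
        rw [abs_of_neg (by omega)] at hy'
        simp only
        omega

/-- From flat boundary points to all boundary points. -/
theorem bad_of_flat (c : ℝ) (hc : 0 < c) : ∃ C κ : ℝ, 0 < C ∧ 0 < κ ∧
    ∀ (n t ρ r : ℕ) (q : I) (D : Set Vert), 1 ≤ t → t ≤ ρ → 2 * ρ ≤ r → r ≤ n → RSWreg c n q →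
      (∀ (z : Vert) (s ρ' : ℕ), Flat z ρ' r → Pr q (LocTwo D z s ρ') ≤ Pr q (U s ρ')) →
      Pr q {ω | ∃ z ∈ sphere 0 r, ω ∈ LocTwo D z t ρ} ≤
        C * ((r : ℝ) / ρ) * ((t : ℝ) / ρ) ^ κ := by
  classical
  obtain ⟨C1, κ1, hC1, hκ1, hκ11, hU⟩ := U_le c hc
  obtain ⟨C2, κ2, hC2, hκ2, hκ21, hA⟩ := armBox_decay c hc
  set a : ℝ := κ1 / (2 * (1 + κ1)) with ha
  have ha0 : 0 < a := by positivity
  have ha1 : a ≤ 1 := by
    rw [ha, div_le_one (by positivity)]
    linarith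
  set κ : ℝ := min (κ1 / 2) (a * κ2) with hκ
  have hκ0 : 0 < κ := lt_min (by positivity) (by positivity)
  have hκa : κ ≤ a := (min_le_right _ _).trans (mul_le_of_le_one_right ha0.le hκ21)
  refine ⟨40 + 20 * C1 + 80 * C2, κ, by positivity, hκ0, ?_⟩
  intro n t ρ r q D ht htρ hρr hrn hreg hflat
  have ht0 : (0 : ℝ) < t := by exact_mod_cast ht
  have hρ0 : (0 : ℝ) < ρ := by exact_mod_cast (lt_of_lt_of_le ht htρ)
  have hr0 : (0 : ℝ) < r := by
    have : 0 < r := by omega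
    exact_mod_cast this
  set θ : ℝ := (t : ℝ) / ρ with hθ
  have hθ0 : 0 < θ := by positivity
  have hθ1 : θ ≤ 1 := by
    rw [hθ, div_le_one hρ0]; exact_mod_cast htρ
  have hrρ : 1 ≤ (r : ℝ) / ρ := by
    rw [le_div_iff₀ hρ0, one_mul]
    have : ρ ≤ r := by omega
    exact_mod_cast this
  set x : ℝ := θ ^ a with hx
  have hx0 : 0 < x := by positivity
  have hxθ : θ ≤ x := by
    calc θ = θ ^ (1 : ℝ) := (Real.rpow_one θ).symm
      _ ≤ θ ^ a := Real.rpow_le_rpow_of_exponent_ge hθ0 hθ1 ha1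
  have hθκ : 0 < θ ^ κ := by positivity
  have hxκ : x ≤ θ ^ κ := Real.rpow_le_rpow_of_exponent_ge hθ0 hθ1 hκa
  have hmain : ∀ y : ℝ, 0 ≤ y → y ≤ θ ^ κ → ∀ A : ℝ, 0 ≤ A → A * y ≤ A * (r / ρ) * θ ^ κ := by
    intro y hy0 hy A hA
    calc A * y ≤ A * θ ^ κ := mul_le_mul_of_nonneg_left hy hA
      _ = A * 1 * θ ^ κ := by ring
      _ ≤ A * (r / ρ) * θ ^ κ :=
        mul_le_mul_of_nonneg_right (mul_le_mul_of_nonneg_left hrρ hA) hθκ.le
  by_cases hx40 : 1 / 40 < x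
  · calc Pr q {ω | ∃ z ∈ sphere 0 r, ω ∈ LocTwo D z t ρ} ≤ 1 := Pr_le_one
      _ ≤ 40 * x := by linarith
      _ ≤ 40 * (r / ρ) * θ ^ κ := hmain x hx0.le hxκ 40 (by norm_num)
      _ ≤ (40 + 20 * C1 + 80 * C2) * (r / ρ) * θ ^ κ := by
        refine mul_le_mul_of_nonneg_right (mul_le_mul_of_nonneg_right ?_ (by positivity)) hθκ.le
        linarith
  push Not at hx40
  have hρx : (t : ℝ) ≤ ρ * x := by
    calc (t : ℝ) = ρ * θ := by rw [hθ]; field_simp
      _ ≤ ρ * x := mul_le_mul_of_nonneg_left hxθ hρ0.le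
  have ht1 : (1 : ℝ) ≤ t := by exact_mod_cast ht
  set ρ₁ : ℕ := ⌈8 * (ρ * x)⌉₊ with hρ₁
  have e1 : 8 * (ρ * x) ≤ ρ₁ := Nat.le_ceil _
  have e2 : (ρ₁ : ℝ) ≤ 9 * (ρ * x) := by
    have := Nat.ceil_lt_add_one (show 0 ≤ 8 * (ρ * x) by positivity)
    linarith
  have e3 : (ρ * x) ≤ ρ / 40 := by
    calc ρ * x ≤ ρ * (1 / 40) := mul_le_mul_of_nonneg_left hx40 hρ0.le
      _ = ρ / 40 := by ring
  have n1 : 8 * t ≤ ρ₁ := by
    have : (8 * t : ℝ) ≤ ρ₁ := by linarith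
    exact_mod_cast this
  have n2 : 2 * ρ₁ + t ≤ ρ := by
    have : (2 * ρ₁ + t : ℝ) ≤ ρ := by linarith
    exact_mod_cast this
  set ρ₃ : ℕ := ρ₁ - t - 1 with hρ₃
  have e4 : 2 * (ρ * x) ≤ ρ₃ := by
    have h1 : (ρ₃ : ℝ) = ρ₁ - t - 1 := by
      have : ρ₃ + t + 1 = ρ₁ := by omega
      have h : (ρ₃ : ℝ) + t + 1 = ρ₁ := by exact_mod_cast this
      linarith
    rw [h1]
    linarith
  have hρ₃0 : (0 : ℝ) < ρ₃ := by linarith
  -- the covering
  have hcov : Pr q {ω | ∃ z ∈ sphere 0 r, ω ∈ LocTwo D z t ρ} ≤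
      Pr q (⋃ k ∈ (Finset.univ : Finset (Bool × Bool)), ArmBox (corner r k) (ρ₁ + t) (ρ - ρ₁)) +
      Pr q (⋃ p ∈ ((Finset.univ : Finset (Bool × Bool)) ×ˢ
        Finset.Icc (-((r / t : ℕ) + 1 : ℤ)) ((r / t : ℕ) + 1)).filter
          (fun p => Flat (cand t r p) ρ₃ r), LocTwo D (cand t r p) (2 * t) ρ₃) := by
    refine (Pr_mono ?_).trans Pr_union_le
    intro ω hω
    rcases bad_cover ht (by omega) n2 hρr hω with ⟨k, hk⟩ | ⟨p, hp, hpf, hpω⟩
    · left
      simp only [Set.mem_iUnion]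
      exact ⟨k, Finset.mem_univ _, hk⟩
    · right
      simp only [Set.mem_iUnion]
      exact ⟨p, Finset.mem_filter.2 ⟨hp, hpf⟩, hpω⟩
  -- corners
  have hcor : Pr q (⋃ k ∈ (Finset.univ : Finset (Bool × Bool)),
      ArmBox (corner r k) (ρ₁ + t) (ρ - ρ₁)) ≤ 80 * C2 * (r / ρ) * θ ^ κ := by
    have h1 : ∀ k : Bool × Bool, Pr q (ArmBox (corner r k) (ρ₁ + t) (ρ - ρ₁)) ≤
        20 * C2 * θ ^ κ := by
      intro k
      rw [Pr_armBox]
      have h2 := hA n q hreg (ρ₁ + t) (ρ - ρ₁) (by omega) (by omega) (by omega)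
      refine h2.trans ?_
      have h3 : ((ρ₁ + t : ℕ) : ℝ) / ((ρ - ρ₁ : ℕ) : ℝ) ≤ 20 * x := by
        have h4 : ((ρ - ρ₁ : ℕ) : ℝ) = ρ - ρ₁ := by
          rw [Nat.cast_sub (by omega)]
        rw [h4, div_le_iff₀ (by linarith)]
        push_cast
        have h5 : (ρ : ℝ) / 2 ≤ ρ - ρ₁ := by linarith
        calc (ρ₁ : ℝ) + t ≤ 10 * (ρ * x) := by linarith
          _ = 20 * x * (ρ / 2) := by ring
          _ ≤ 20 * x * (ρ - ρ₁) := mul_le_mul_of_nonneg_left h5 (by positivity)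
      have h6 : (((ρ₁ + t : ℕ) : ℝ) / ((ρ - ρ₁ : ℕ) : ℝ)) ^ κ2 ≤ (20 * x) ^ κ2 :=
        Real.rpow_le_rpow (by positivity) h3 hκ2.le
      have h7 : (20 * x) ^ κ2 ≤ 20 * θ ^ κ := by
        rw [Real.mul_rpow (by norm_num) hx0.le]
        have h8 : (20 : ℝ) ^ κ2 ≤ 20 := by
          calc (20 : ℝ) ^ κ2 ≤ 20 ^ (1 : ℝ) := Real.rpow_le_rpow_of_exponent_le (by norm_num) hκ21
            _ = 20 := Real.rpow_one _
        have h9 : x ^ κ2 ≤ θ ^ κ := by
          rw [hx, ← Real.rpow_mul hθ0.le]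
          exact Real.rpow_le_rpow_of_exponent_ge hθ0 hθ1 (min_le_right _ _)
        exact mul_le_mul h8 h9 (by positivity) (by norm_num)
      calc C2 * (((ρ₁ + t : ℕ) : ℝ) / ((ρ - ρ₁ : ℕ) : ℝ)) ^ κ2 ≤ C2 * (20 * θ ^ κ) :=
            mul_le_mul_of_nonneg_left (h6.trans h7) hC2.le
        _ = 20 * C2 * θ ^ κ := by ring
    calc _ ≤ ∑ k ∈ (Finset.univ : Finset (Bool × Bool)),
          Pr q (ArmBox (corner r k) (ρ₁ + t) (ρ - ρ₁)) := Pr_biUnion_le _ _
      _ ≤ ∑ _k ∈ (Finset.univ : Finset (Bool × Bool)), 20 * C2 * θ ^ κ :=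
          Finset.sum_le_sum fun k _ => h1 k
      _ = (80 * C2) * θ ^ κ := by
          rw [Finset.sum_const, Finset.card_univ]
          simp only [Fintype.card_prod, Fintype.card_bool, nsmul_eq_mul]
          push_cast
          ring
      _ ≤ 80 * C2 * (r / ρ) * θ ^ κ := hmain (θ ^ κ) hθκ.le le_rfl (80 * C2) (by positivity)
  -- flat points
  have hfl : Pr q (⋃ p ∈ ((Finset.univ : Finset (Bool × Bool)) ×ˢ
        Finset.Icc (-((r / t : ℕ) + 1 : ℤ)) ((r / t : ℕ) + 1)).filter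
          (fun p => Flat (cand t r p) ρ₃ r), LocTwo D (cand t r p) (2 * t) ρ₃) ≤
      20 * C1 * (r / ρ) * θ ^ κ := by
    have h1 : ∀ p ∈ ((Finset.univ : Finset (Bool × Bool)) ×ˢ
        Finset.Icc (-((r / t : ℕ) + 1 : ℤ)) ((r / t : ℕ) + 1)).filter
          (fun p => Flat (cand t r p) ρ₃ r), Pr q (LocTwo D (cand t r p) (2 * t) ρ₃) ≤
        C1 * (θ * θ ^ (κ1 / 2)) := by
      intro p hp
      rw [Finset.mem_filter] at hp
      refine (hflat _ _ _ hp.2).trans ((hU n q hreg (2 * t) ρ₃ (by omega) (by omega)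
        (by omega)).trans ?_)
      refine mul_le_mul_of_nonneg_left ?_ hC1.le
      have h2 : ((2 * t : ℕ) : ℝ) / ρ₃ ≤ θ / x := by
        rw [div_le_div_iff₀ hρ₃0 hx0]
        push_cast
        calc 2 * (t : ℝ) * x = θ * (2 * (ρ * x)) := by rw [hθ]; field_simp
          _ ≤ θ * ρ₃ := mul_le_mul_of_nonneg_left e4 hθ0.le
      calc (((2 * t : ℕ) : ℝ) / ρ₃) ^ (1 + κ1) ≤ (θ / x) ^ (1 + κ1) :=
            Real.rpow_le_rpow (by positivity) h2 (by positivity)
        _ = θ * θ ^ (κ1 / 2) := by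
            rw [Real.div_rpow hθ0.le hx0.le, hx, ← Real.rpow_mul hθ0.le,
              ← Real.rpow_sub hθ0]
            have e : 1 + κ1 - a * (1 + κ1) = 1 + κ1 / 2 := by
              rw [ha]; field_simp; ring
            rw [e, Real.rpow_add hθ0, Real.rpow_one]
    calc _ ≤ ∑ p ∈ ((Finset.univ : Finset (Bool × Bool)) ×ˢ
        Finset.Icc (-((r / t : ℕ) + 1 : ℤ)) ((r / t : ℕ) + 1)).filter
          (fun p => Flat (cand t r p) ρ₃ r), Pr q (LocTwo D (cand t r p) (2 * t) ρ₃) :=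
          Pr_biUnion_le _ _
      _ ≤ ∑ _p ∈ ((Finset.univ : Finset (Bool × Bool)) ×ˢ
        Finset.Icc (-((r / t : ℕ) + 1 : ℤ)) ((r / t : ℕ) + 1)).filter
          (fun p => Flat (cand t r p) ρ₃ r), C1 * (θ * θ ^ (κ1 / 2)) := Finset.sum_le_sum h1
      _ ≤ ∑ _p ∈ (Finset.univ : Finset (Bool × Bool)) ×ˢ
        Finset.Icc (-((r / t : ℕ) + 1 : ℤ)) ((r / t : ℕ) + 1), C1 * (θ * θ ^ (κ1 / 2)) :=
          Finset.sum_le_sum_of_subset_of_nonneg (Finset.filter_subset _ _)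
            fun _ _ _ => by positivity
      _ = (4 * (2 * (r / t : ℕ) + 3) : ℝ) * (C1 * (θ * θ ^ (κ1 / 2))) := by
          rw [Finset.sum_const, Finset.card_product, Finset.card_univ, Int.card_Icc, nsmul_eq_mul]
          simp only [Fintype.card_prod, Fintype.card_bool]
          congr 1
          have : ((((r / t : ℕ) : ℤ) + 1) + 1 - -(((r / t : ℕ) : ℤ) + 1)).toNat =
            2 * (r / t) + 3 := by omega
          rw [this]
          push_cast
          ring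
      _ ≤ (20 * ((r : ℝ) / t)) * (C1 * (θ * θ ^ (κ1 / 2))) := by
          refine mul_le_mul_of_nonneg_right ?_ (by positivity)
          have h3 : ((r / t : ℕ) : ℝ) ≤ (r : ℝ) / t := Nat.cast_div_le
          have h4 : (1 : ℝ) ≤ (r : ℝ) / t := by
            rw [le_div_iff₀ ht0, one_mul]
            have : t ≤ r := by omega
            exact_mod_cast this
          linarith
      _ = 20 * C1 * (r / ρ) * θ ^ (κ1 / 2) := by
          rw [hθ]; field_simp
      _ ≤ 20 * C1 * (r / ρ) * θ ^ κ := by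
          refine mul_le_mul_of_nonneg_left ?_ (by positivity)
          exact Real.rpow_le_rpow_of_exponent_ge hθ0 hθ1 (min_le_left _ _)
  calc _ ≤ _ := hcov
    _ ≤ 80 * C2 * (r / ρ) * θ ^ κ + 20 * C1 * (r / ρ) * θ ^ κ := add_le_add hcor hfl
    _ ≤ (40 + 20 * C1 + 80 * C2) * (r / ρ) * θ ^ κ := by
        have : 0 ≤ 40 * ((r : ℝ) / ρ) * θ ^ κ := by positivity
        nlinarith

/-- The inner side. -/
theorem badIn : BadIn := by
  intro c hc
  obtain ⟨C, κ, hC, hκ, h⟩ := bad_of_flat c hc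
  refine ⟨C, κ, hC, hκ, fun n t ρ r q h1 h2 h3 h4 h5 => h n t ρ r q (ball 0 r) h1 h2 h3 h4 h5 ?_⟩
  intro z s ρ' hz
  rcases hz with ⟨hz1 | hz1, hz2⟩ | ⟨hz1 | hz1, hz2⟩
  · rw [locTwo_congr (D' := {v | v.2 ≤ z.2}), Pr_locTwo_down]
    intro v hv
    simp only [mem_ball, Prod.fst_zero, Prod.snd_zero, Set.mem_ofPred_eq] at hv ⊢
    rcases abs_cases z.1 with ⟨k1, k2⟩ | ⟨k1, k2⟩ <;> rw [k1] at hz2 <;> omega
  · rw [locTwo_congr (D' := {v | z.2 ≤ v.2}), Pr_locTwo_up]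
    intro v hv
    simp only [mem_ball, Prod.fst_zero, Prod.snd_zero, Set.mem_ofPred_eq] at hv ⊢
    rcases abs_cases z.1 with ⟨k1, k2⟩ | ⟨k1, k2⟩ <;> rw [k1] at hz2 <;> omega
  · rw [locTwo_congr (D' := {v | v.1 ≤ z.1}), Pr_locTwo_left]
    intro v hv
    simp only [mem_ball, Prod.fst_zero, Prod.snd_zero, Set.mem_ofPred_eq] at hv ⊢
    rcases abs_cases z.2 with ⟨k1, k2⟩ | ⟨k1, k2⟩ <;> rw [k1] at hz2 <;> omega
  · rw [locTwo_congr (D' := {v | z.1 ≤ v.1}), Pr_locTwo_right]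
    intro v hv
    simp only [mem_ball, Prod.fst_zero, Prod.snd_zero, Set.mem_ofPred_eq] at hv ⊢
    rcases abs_cases z.2 with ⟨k1, k2⟩ | ⟨k1, k2⟩ <;> rw [k1] at hz2 <;> omega

/-- The outer side. -/
theorem badOut : BadOut := by
  intro c hc
  obtain ⟨C, κ, hC, hκ, h⟩ := bad_of_flat c hc
  refine ⟨C, κ, hC, hκ, fun n t ρ r q h1 h2 h3 h4 h5 =>
    h n t ρ r q (ball 0 (r - 1))ᶜ h1 h2 h3 h4 h5 ?_⟩
  intro z s ρ' hz
  have hr1 : 1 ≤ r := by omega
  have hcast : ((r - 1 : ℕ) : ℤ) = r - 1 := by omega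
  rcases hz with ⟨hz1 | hz1, hz2⟩ | ⟨hz1 | hz1, hz2⟩
  · rw [locTwo_congr (D' := {v | z.2 ≤ v.2}), Pr_locTwo_up]
    intro v hv
    simp only [mem_ball, Prod.fst_zero, Prod.snd_zero, Set.mem_ofPred_eq, Set.mem_compl_iff,
      hcast] at hv ⊢
    rcases abs_cases z.1 with ⟨k1, k2⟩ | ⟨k1, k2⟩ <;> rw [k1] at hz2 <;> omega
  · rw [locTwo_congr (D' := {v | v.2 ≤ z.2}), Pr_locTwo_down]
    intro v hv
    simp only [mem_ball, Prod.fst_zero, Prod.snd_zero, Set.mem_ofPred_eq, Set.mem_compl_iff,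
      hcast] at hv ⊢
    rcases abs_cases z.1 with ⟨k1, k2⟩ | ⟨k1, k2⟩ <;> rw [k1] at hz2 <;> omega
  · rw [locTwo_congr (D' := {v | z.1 ≤ v.1}), Pr_locTwo_right]
    intro v hv
    simp only [mem_ball, Prod.fst_zero, Prod.snd_zero, Set.mem_ofPred_eq, Set.mem_compl_iff,
      hcast] at hv ⊢
    rcases abs_cases z.2 with ⟨k1, k2⟩ | ⟨k1, k2⟩ <;> rw [k1] at hz2 <;> omega
  · rw [locTwo_congr (D' := {v | v.1 ≤ z.1}), Pr_locTwo_left]
    intro v hv
    simp only [mem_ball, Prod.fst_zero, Prod.snd_zero, Set.mem_ofPred_eq, Set.mem_compl_iff,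
      hcast] at hv ⊢
    rcases abs_cases z.2 with ⟨k1, k2⟩ | ⟨k1, k2⟩ <;> rw [k1] at hz2 <;> omega

end Pool.Agent.H26.HP

end
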