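import Pool.Agent.H31.PT.H29.Sep.CircProb
import Pool.Agent.H31.PT.M10
import Pool.Agent.H31.PT.M14
import Pool.Agent.H31.PT.M17

/-! The parts of this file: H59.EX.GeoP, H59.EX.GeoAll, H59.EX.St4, H59.EX.OutE. -/

section

/-!
# Probability of the crossing events of the corridors
-/

open MeasureTheory ProbabilityTheory unitInterval

namespace Pool.Agent.H59.EX

open Pool.Agent.H89.Perc Pool.Agent.H61.NC
open Pool.Agent.H29.Sep (Circ circ_lower rect_lower incr_circ localOn_circ)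

namespace GeoP

/-- A local increasing event of probability at least `c`. -/
def Gd (q : I) (c : ℝ) (A : Set Config) : Prop :=
  0 ≤ c ∧ (∃ s : Finset Edge, LocalOn s A) ∧ Incr A ∧ c ≤ Pr q A

theorem Gd.inter {q : I} {c c' : ℝ} {A B : Set Config} (hA : Gd q c A) (hB : Gd q c' B) :
    Gd q (c * c') (A ∩ B) := by
  classical
  obtain ⟨h0, ⟨s, hs⟩, iA, hp⟩ := hA
  obtain ⟨h0', ⟨t, ht⟩, iB, hp'⟩ := hB
  refine ⟨mul_nonneg h0 h0', ⟨s ∪ t, hs.inter' ht⟩, ?_, ?_⟩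
  · exact fun ω ω' hω h => ⟨iA ω ω' hω h.1, iB ω ω' hω h.2⟩
  · exact (mul_le_mul hp hp' h0' (h0.trans hp)).trans (fkg hs ht iA iB)

theorem gd_h {q : I} {c : ℝ} {a b y z : ℤ} (hc : 0 ≤ c) (h : c ≤ Pr q {ω | HCross ω a b y z}) :
    Gd q c {ω | HCross ω a b y z} :=
  ⟨hc, ⟨_, localOn_hcross a b y z⟩, GeoS.incr_h _ _ _ _, h⟩

theorem gd_v {q : I} {c : ℝ} {a b y z : ℤ} (hc : 0 ≤ c) (h : c ≤ Pr q {ω | VCross ω a b y z}) :
    Gd q c {ω | VCross ω a b y z} :=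
  ⟨hc, ⟨_, localOn_vcross a b y z⟩, GeoS.incr_v _ _ _ _, h⟩

theorem gd_c {q : I} {c : ℝ} {v : Vert} {ρ : ℕ} (hc : 0 ≤ c) (h : c ≤ Pr q (Circ v ρ)) :
    Gd q c (Circ v ρ) :=
  ⟨hc, ⟨_, localOn_circ v ρ⟩, incr_circ v ρ, h⟩

end GeoP

open GeoP

theorem prob_straight (c : ℝ) (hc : 0 < c) (K : ℕ) : ∃ c' : ℝ, 0 < c' ∧ ∀ (d : Side) (w ρ n : ℕ)
    (v : Vert) (q : I), 1 ≤ ρ → ρ ≤ w → w ≤ K * ρ → w ≤ n → OnSide d (8 * w) v → RSWreg c n q →
      c' ≤ Pr q (NS d w ρ v) := by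
  obtain ⟨c1, hc1, H1⟩ := circ_lower c hc 1
  obtain ⟨c2, hc2, H2⟩ := rect_lower c hc (5 * K + 200)
  refine ⟨c1 * (c2 * (c2 * (c2 * c2))), by positivity, ?_⟩
  intro d w ρ n v q hρ hρw hK hwn hv hreg
  have hn : 1 ≤ n := by omega
  have g1 := gd_c hc1.le (H1 n q hn hreg v ρ hρ (by omega))
  have eK : (w : ℤ) ≤ K * ρ := by exact_mod_cast hK
  have eK0 : (0 : ℤ) ≤ K := Int.natCast_nonneg K
  have eρ : (1 : ℤ) ≤ ρ := by exact_mod_cast hρ
  have ew : (ρ : ℤ) ≤ w := by exact_mod_cast hρw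
  have en : (w : ℤ) ≤ n := by exact_mod_cast hwn
  have p1 : (0 : ℤ) ≤ K * n := by positivity
  have p2 : (0 : ℤ) ≤ K * w := by positivity
  -- thin crossing
  have t1 : ∀ a y : ℤ, c2 ≤ Pr q {ω | HCross ω a (a + 9 * w) y (y + 2 * ρ)} ∧
      c2 ≤ Pr q {ω | VCross ω y (y + 2 * ρ) a (a + 9 * w)} := by
    intro a y
    refine H2 n q hn hreg a (a + 9 * w) y (y + 2 * ρ) (by omega) (by omega) ?_ ?_
    · push_cast
      nlinarith
    · push_cast
      nlinarith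
  have t2 : ∀ a y : ℤ, c2 ≤ Pr q {ω | HCross ω a (a + 24 * w) y (y + w)} ∧
      c2 ≤ Pr q {ω | VCross ω y (y + w) a (a + 24 * w)} := by
    intro a y
    refine H2 n q hn hreg a (a + 24 * w) y (y + w) (by omega) (by omega) ?_ ?_
    · push_cast
      nlinarith
    · push_cast
      nlinarith
  have t3 : ∀ a y : ℤ, c2 ≤ Pr q {ω | HCross ω a (a + 128 * w) y (y + 24 * w)} ∧
      c2 ≤ Pr q {ω | VCross ω y (y + 24 * w) a (a + 128 * w)} := by
    intro a y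
    refine H2 n q hn hreg a (a + 128 * w) y (y + 24 * w) (by omega) (by omega) ?_ ?_
    · push_cast
      nlinarith
    · push_cast
      nlinarith
  have t4 : ∀ a y : ℤ, c2 ≤ Pr q {ω | HCross ω a (a + 24 * w) y (y + 32 * w)} ∧
      c2 ≤ Pr q {ω | VCross ω y (y + 32 * w) a (a + 24 * w)} := by
    intro a y
    refine H2 n q hn hreg a (a + 24 * w) y (y + 32 * w) (by omega) (by omega) ?_ ?_
    · push_cast
      nlinarith
    · push_cast
      nlinarith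
  cases d with
  | E =>
    have g2 := gd_h hc2.le (t1 (8 * w) (v.2 - ρ)).1
    have g3 := gd_v hc2.le (t2 (-(12 * w)) (16 * w)).2
    have g4 := gd_h hc2.le (t3 (16 * w) (-(12 * w))).1
    have g5 := gd_v hc2.le (t4 (-(12 * w)) (112 * w)).2
    rw [show (8 * w + 9 * w : ℤ) = 17 * w by ring, show (v.2 - ρ + 2 * ρ : ℤ) = v.2 + ρ by ring] at g2
    rw [show (-(12 * w) + 24 * w : ℤ) = 12 * w by ring, show (16 * w + w : ℤ) = 17 * w by ring] at g3
    rw [show (-(12 * w) + 24 * w : ℤ) = 12 * w by ring,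
      show (16 * w + 128 * w : ℤ) = 144 * w by ring] at g4
    rw [show (-(12 * w) + 24 * w : ℤ) = 12 * w by ring,
      show (112 * w + 32 * w : ℤ) = 144 * w by ring] at g5
    exact (g1.inter (g2.inter (g3.inter (g4.inter g5)))).2.2.2
  | N =>
    have g2 := gd_v hc2.le (t1 (8 * w) (v.1 - ρ)).2
    have g3 := gd_h hc2.le (t2 (-(12 * w)) (16 * w)).1
    have g4 := gd_v hc2.le (t3 (16 * w) (-(12 * w))).2
    have g5 := gd_h hc2.le (t4 (-(12 * w)) (112 * w)).1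
    rw [show (8 * w + 9 * w : ℤ) = 17 * w by ring, show (v.1 - ρ + 2 * ρ : ℤ) = v.1 + ρ by ring] at g2
    rw [show (-(12 * w) + 24 * w : ℤ) = 12 * w by ring, show (16 * w + w : ℤ) = 17 * w by ring] at g3
    rw [show (-(12 * w) + 24 * w : ℤ) = 12 * w by ring,
      show (16 * w + 128 * w : ℤ) = 144 * w by ring] at g4
    rw [show (-(12 * w) + 24 * w : ℤ) = 12 * w by ring,
      show (112 * w + 32 * w : ℤ) = 144 * w by ring] at g5
    exact (g1.inter (g2.inter (g3.inter (g4.inter g5)))).2.2.2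
  | W =>
    have g2 := gd_h hc2.le (t1 (-(17 * w)) (v.2 - ρ)).1
    have g3 := gd_v hc2.le (t2 (-(12 * w)) (-(17 * w))).2
    have g4 := gd_h hc2.le (t3 (-(144 * w)) (-(12 * w))).1
    have g5 := gd_v hc2.le (t4 (-(12 * w)) (-(144 * w))).2
    rw [show (-(17 * w) + 9 * w : ℤ) = -(8 * w) by ring,
      show (v.2 - ρ + 2 * ρ : ℤ) = v.2 + ρ by ring] at g2
    rw [show (-(12 * w) + 24 * w : ℤ) = 12 * w by ring,
      show (-(17 * w) + w : ℤ) = -(16 * w) by ring] at g3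
    rw [show (-(12 * w) + 24 * w : ℤ) = 12 * w by ring,
      show (-(144 * w) + 128 * w : ℤ) = -(16 * w) by ring] at g4
    rw [show (-(12 * w) + 24 * w : ℤ) = 12 * w by ring,
      show (-(144 * w) + 32 * w : ℤ) = -(112 * w) by ring] at g5
    exact (g1.inter (g2.inter (g3.inter (g4.inter g5)))).2.2.2
  | S =>
    have g2 := gd_v hc2.le (t1 (-(17 * w)) (v.1 - ρ)).2
    have g3 := gd_h hc2.le (t2 (-(12 * w)) (-(17 * w))).1
    have g4 := gd_v hc2.le (t3 (-(144 * w)) (-(12 * w))).2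
    have g5 := gd_h hc2.le (t4 (-(12 * w)) (-(144 * w))).1
    rw [show (-(17 * w) + 9 * w : ℤ) = -(8 * w) by ring,
      show (v.1 - ρ + 2 * ρ : ℤ) = v.1 + ρ by ring] at g2
    rw [show (-(12 * w) + 24 * w : ℤ) = 12 * w by ring,
      show (-(17 * w) + w : ℤ) = -(16 * w) by ring] at g3
    rw [show (-(12 * w) + 24 * w : ℤ) = 12 * w by ring,
      show (-(144 * w) + 128 * w : ℤ) = -(16 * w) by ring] at g4
    rw [show (-(12 * w) + 24 * w : ℤ) = 12 * w by ring,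
      show (-(144 * w) + 32 * w : ℤ) = -(112 * w) by ring] at g5
    exact (g1.inter (g2.inter (g3.inter (g4.inter g5)))).2.2.2

theorem prob_turn (c : ℝ) (hc : 0 < c) (K : ℕ) : ∃ c' : ℝ, 0 < c' ∧ ∀ (w ρ n : ℕ)
    (v : Vert) (q : I), 1 ≤ ρ → ρ ≤ w → w ≤ K * ρ → w ≤ n → OnSide .E (8 * w) v → RSWreg c n q →
      c' ≤ Pr q (NTN w ρ v) ∧ c' ≤ Pr q (NTS w ρ v) := by
  obtain ⟨c1, hc1, H1⟩ := circ_lower c hc 1
  obtain ⟨c2, hc2, H2⟩ := rect_lower c hc (5 * K + 200)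
  refine ⟨c1 * (c2 * (c2 * (c2 * (c2 * c2)))), by positivity, ?_⟩
  intro w ρ n v q hρ hρw hK hwn hv hreg
  obtain ⟨⟨hvb, -⟩, hv1⟩ := hv
  simp only [mem_ball, Prod.fst_zero, Prod.snd_zero] at hvb hv1
  have hn : 1 ≤ n := by omega
  have g1 := gd_c hc1.le (H1 n q hn hreg v ρ hρ (by omega))
  have eK : (w : ℤ) ≤ K * ρ := by exact_mod_cast hK
  have eK0 : (0 : ℤ) ≤ K := Int.natCast_nonneg K
  have eρ : (1 : ℤ) ≤ ρ := by exact_mod_cast hρ
  have ew : (ρ : ℤ) ≤ w := by exact_mod_cast hρw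
  have en : (w : ℤ) ≤ n := by exact_mod_cast hwn
  have p1 : (0 : ℤ) ≤ K * n := by positivity
  have p2 : (0 : ℤ) ≤ K * w := by positivity
  have g2 : Gd q c2 {ω | HCross ω (8 * w) (13 * w) (v.2 - ρ) (v.2 + ρ)} := by
    refine gd_h hc2.le (H2 n q hn hreg _ _ _ _ (by omega) (by omega) ?_ ?_).1
    · push_cast
      nlinarith
    · push_cast
      nlinarith
  have r1 : ∀ a b y : ℤ, a ≤ b → b - a ≤ 132 * w →
      c2 ≤ Pr q {ω | HCross ω a b y (y + w)} ∧ c2 ≤ Pr q {ω | VCross ω y (y + w) a b} := by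
    intro a b y hab hb
    refine H2 n q hn hreg a b y (y + w) hab (by omega) ?_ ?_
    · push_cast
      nlinarith
    · push_cast
      nlinarith
  have r2 : ∀ a b y : ℤ, a ≤ b → b - a ≤ 132 * w →
      c2 ≤ Pr q {ω | HCross ω a b y (y + 8 * w)} ∧ c2 ≤ Pr q {ω | VCross ω y (y + 8 * w) a b} := by
    intro a b y hab hb
    refine H2 n q hn hreg a b y (y + 8 * w) hab (by omega) ?_ ?_
    · push_cast
      nlinarith
    · push_cast
      nlinarith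
  have r3 : ∀ a b y : ℤ, a ≤ b → b - a ≤ 132 * w →
      c2 ≤ Pr q {ω | HCross ω a b y (y + 32 * w)} ∧ c2 ≤ Pr q {ω | VCross ω y (y + 32 * w) a b} := by
    intro a b y hab hb
    refine H2 n q hn hreg a b y (y + 32 * w) hab (by omega) ?_ ?_
    · push_cast
      nlinarith
    · push_cast
      nlinarith
  constructor
  · have g3 := gd_v hc2.le (r1 (v.2 - ρ) (13 * w) (12 * w) (by omega) (by omega)).2
    have g4 := gd_h hc2.le (r1 (-(4 * w)) (13 * w) (12 * w) (by omega) (by omega)).1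
    have g5 := gd_v hc2.le (r2 (12 * w) (144 * w) (-(4 * w)) (by omega) (by omega)).2
    have g6 := gd_h hc2.le (r3 (-(12 * w)) (12 * w) (112 * w) (by omega) (by omega)).1
    rw [show (12 * w + w : ℤ) = 13 * w by ring] at g3 g4
    rw [show (-(4 * w) + 8 * w : ℤ) = 4 * w by ring] at g5
    rw [show (112 * w + 32 * w : ℤ) = 144 * w by ring] at g6
    exact (g1.inter (g2.inter (g3.inter (g4.inter (g5.inter g6))))).2.2.2
  · have g3 := gd_v hc2.le (r1 (-(13 * w)) (v.2 + ρ) (12 * w) (by omega) (by omega)).2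
    have g4 := gd_h hc2.le (r1 (-(4 * w)) (13 * w) (-(13 * w)) (by omega) (by omega)).1
    have g5 := gd_v hc2.le (r2 (-(144 * w)) (-(12 * w)) (-(4 * w)) (by omega) (by omega)).2
    have g6 := gd_h hc2.le (r3 (-(12 * w)) (12 * w) (-(144 * w)) (by omega) (by omega)).1
    rw [show (12 * w + w : ℤ) = 13 * w by ring] at g3
    rw [show (-(13 * w) + w : ℤ) = -(12 * w) by ring] at g4
    rw [show (-(4 * w) + 8 * w : ℤ) = 4 * w by ring] at g5
    rw [show (-(144 * w) + 32 * w : ℤ) = -(112 * w) by ring] at g6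
    exact (g1.inter (g2.inter (g3.inter (g4.inter (g5.inter g6))))).2.2.2

end Pool.Agent.H59.EX

end

section

/-!
# Corridors for the second point
-/

open MeasureTheory ProbabilityTheory unitInterval

namespace Pool.Agent.H59.EX

open Pool.Agent.H89.Perc Pool.Agent.H61.NC

/-- `x` lands at `v` on the east side, `y` at `v'` anywhere on the sphere, not close to `v`. -/
theorem exists_corr_y (c : ℝ) (hc : 0 < c) (K : ℕ) : ∃ c' : ℝ, 0 < c' ∧
    ∀ (w ρ ρ' n : ℕ) (v v' : Vert) (q : I), 1 ≤ ρ' → 64 * ρ' ≤ ρ → 64 * ρ ≤ w → w ≤ K * ρ' →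
      w ≤ n → OnSide .E (8 * w) v → v' ∈ sphere 0 (8 * w) → v' ∉ ball v (10 * ρ) →
      RSWreg c n q → ∃ (d' : Side) (Zy : Set Vert) (Ny : Set Config), d' ≠ .E ∧
        CorrData w ρ' v' d' Zy Ny ∧ CorrSep w ρ' v' (ZS .E w ρ v) Zy ∧ c' ≤ Pr q Ny := by
  obtain ⟨c₁, hc₁, H₁⟩ := prob_straight c hc K
  obtain ⟨c₂, hc₂, H₂⟩ := prob_turn c hc K
  refine ⟨min c₁ c₂, lt_min hc₁ hc₂, ?_⟩
  intro w ρ ρ' n v v' q h1 h2 h3 h4 h5 hv hv' hvv hR
  have hw' : 64 * ρ' ≤ w := by omega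
  have hρw : ρ' ≤ w := by omega
  obtain ⟨-, hv1⟩ := id hv
  have hv1' : v.1 = ((8 * w : ℕ) : ℤ) := hv1
  obtain ⟨-, hside⟩ := id hv'
  simp only [Prod.fst_zero, Prod.snd_zero, zero_sub, zero_add] at hside
  have straight : ∀ d' : Side, d' ≠ .E → OnSide d' (8 * w) v' →
      CorrSep w ρ' v' (ZS .E w ρ v) (ZS d' w ρ' v') →
      ∃ (d' : Side) (Zy : Set Vert) (Ny : Set Config), d' ≠ .E ∧
        CorrData w ρ' v' d' Zy Ny ∧ CorrSep w ρ' v' (ZS .E w ρ v) Zy ∧ min c₁ c₂ ≤ Pr q Ny :=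
    fun d' hd hO hS => ⟨d', _, _, hd, corr_straight h1 hw' hO, hS,
      (min_le_left _ _).trans (H₁ d' w ρ' n v' q h1 hρw h4 h5 hO hR)⟩
  rcases hside with h | h | h | h
  · exact straight .W (by simp) ⟨hv', h⟩ (sep_EW h1 h2 h3 hv ⟨hv', h⟩)
  · have hO : OnSide .E (8 * w) v' := ⟨hv', h⟩
    have h' : v'.2 < v.2 - 10 * ρ ∨ v.2 + 10 * ρ < v'.2 := by
      by_contra hcon
      push Not at hcon
      refine hvv ?_
      rw [mem_ball]
      omega
    rcases h' with h' | h'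
    · exact ⟨.S, _, _, by simp, corr_turn_S h1 hw' hO, sep_ETS h1 h2 h3 hv hO (by omega),
        (min_le_right _ _).trans (H₂ w ρ' n v' q h1 hρw h4 h5 hO hR).2⟩
    · exact ⟨.N, _, _, by simp, corr_turn_N h1 hw' hO, sep_ETN h1 h2 h3 hv hO h',
        (min_le_right _ _).trans (H₂ w ρ' n v' q h1 hρw h4 h5 hO hR).1⟩
  · exact straight .S (by simp) ⟨hv', h⟩ (sep_ES h1 h2 h3 hv ⟨hv', h⟩ hvv)
  · exact straight .N (by simp) ⟨hv', h⟩ (sep_EN h1 h2 h3 hv ⟨hv', h⟩ hvv)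

end Pool.Agent.H59.EX

end

section

/-!
# Outward separation: stage 4
-/

open MeasureTheory ProbabilityTheory unitInterval

namespace Pool.Agent.H59.EX

open Pool.Agent.H89.Perc Pool.Agent.H61.NC

variable {s : Src} {w ρ ρ' : ℕ} {v v' : Vert} {d d' : Side} {Z Zy : Set Vert} {Nev Ny : Set Config}
  {q : I}

private theorem st4_cut_congr {s : Src} {ω ω' : Config} {e : Edge} (h : ω e = ω' e) :
    s.cut ω e = s.cut ω' e := by
  unfold Src.cut closeS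
  rw [h]

private theorem st4_fill_congr {s : Src} {Z : Set Vert} {ω ω' : Config} {e : Edge}
    (h : ω e = ω' e) : fillV Z (s.cut ω) e = fillV Z (s.cut ω') e := by
  unfold fillV
  rw [st4_cut_congr h]

/-- A path depends only on the edges touching the cluster. -/
private theorem st4_conn_transfer {ω ω' : Config} {D : Set Vert} {S : Set Vert} {x u : Vert}
    (hS : ∀ a, Conn ω D x a → a ∈ S)
    (h : ∀ a b e, Joins e a b → a ∈ D → b ∈ D → a ∈ S → ω e = ω' e) (hc : Conn ω D x u) :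
    Conn ω' D x u := by
  refine hc.induction_right (P := fun u => Conn ω' D x u) (Conn.refl hc.mem_left) ?_
  rintro a b hxa ⟨ha, hb, e, hj, ho⟩ ih
  exact ih.tail ⟨ha, hb, e, hj, by rw [← h a b e hj ha hb (hS a hxa)]; exact ho⟩

/-- The clusters depend only on the edges of the domain. -/
private theorem st4_clus_congr {ω ω' : Config} {D X : Set Vert}
    (h : ∀ e ∈ inE D, ω e = ω' e) : clus ω D X = clus ω' D X := by
  ext a
  constructor
  · rintro ⟨x, hx, hc⟩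
    exact ⟨x, hx, hc.congr fun e h1 h2 => h e ⟨h1, h2⟩⟩
  · rintro ⟨x, hx, hc⟩
    exact ⟨x, hx, hc.congr fun e h1 h2 => (h e ⟨h1, h2⟩).symm⟩

/-- The cluster of `y` in `ball 0 (8 w) ∪ Zy` off the set `H`, with `Zy` filled. -/
private def st4_RR (s : Src) (w : ℕ) (Zy : Set Vert) (H : Set Vert) (ω : Config) : Set Vert :=
  clus (fillV Zy (s.cut ω)) ((ball 0 (8 * w) ∪ Zy) \ H) {s.y}

/-- The pair of clusters. -/
private def st4_X (s : Src) (w : ℕ) (Z Zy : Set Vert) (ω : Config) : Set Vert × Set Vert :=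
  (SH s w Z ω, st4_RR s w Zy (SH s w Z ω) ω)

/-- The determined edges. -/
private def st4_t (w : ℕ) (Zy : Set Vert) (i : Set Vert × Set Vert) : Set Edge :=
  touch (ball 0 (160 * w)) i.1 ∪ touch ((ball 0 (8 * w) ∪ Zy) \ i.1) i.2

/-- The point `y` of the source is far from `v'`. -/
private theorem st4_y_far (hρ : 1 ≤ ρ) (hw : 64 * ρ ≤ w) (hv : v ∈ sphere 0 (8 * w)) :
    s.y ∉ ball v (3 * ρ) := by
  intro h
  have h1 := s.hy
  have h2 := hv.2
  simp only [mem_ball, Prod.fst_zero, Prod.snd_zero] at h h1 h2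
  push_cast at h h1 h2
  omega

private theorem st4_y_mem_ball (hw : 1 ≤ w) : s.y ∈ ball 0 (8 * w) := by
  have h1 := s.hy
  simp only [mem_ball, Prod.fst_zero, Prod.snd_zero] at h1 ⊢
  push_cast at h1 ⊢
  omega

/-- The landing of `y` gives `Zy ⊆ R`. -/
private theorem st4_Zy_sub (hKy : CorrData w ρ' v' d' Zy Ny) {H : Set Vert} {ω : Config}
    (hd : Disjoint Zy H)
    (h : ∃ u ∈ sphere 0 (8 * w), u ∈ ball v' ρ' ∧ Conn (s.cut ω) (ball 0 (8 * w) \ H) s.y u) :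
    Zy ⊆ st4_RR s w Zy H ω := by
  obtain ⟨u, _, hu, hc⟩ := h
  have huZ : u ∈ Zy := by
    apply hKy.ball_sub
    simp only [mem_ball] at hu ⊢
    push_cast
    omega
  have hsub : Zy ⊆ (ball 0 (8 * w) ∪ Zy) \ H := fun a ha =>
    ⟨Or.inr ha, fun h => Set.disjoint_left.1 hd ha h⟩
  have huR : u ∈ st4_RR s w Zy H ω :=
    ⟨s.y, rfl, hc.mono (fun a ha => ⟨Or.inl ha.1, ha.2⟩) fun e he => fillV_true.2 (Or.inl he)⟩
  intro b hb
  exact clus_conn huR (conn_fillV hsub (hKy.conn u huZ b hb))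

/-- The pair of clusters depends only on the determined edges. -/
private theorem st4_X_congr {i : Set Vert × Set Vert} (hZ : Z ⊆ i.1) (hZy : Zy ⊆ i.2)
    {ω ω' : Config} (h : ∀ e ∈ st4_t w Zy i, ω e = ω' e) (hω : st4_X s w Z Zy ω = i) :
    st4_X s w Z Zy ω' = i := by
  have h1 : SH s w Z ω' = i.1 :=
    locS_clus_fill (D := ball 0 (160 * w)) (X := {s.x}) hZ (s.cut ω) (s.cut ω')
      (fun e he => st4_cut_congr (h e (Or.inl he.1))) (congrArg Prod.fst hω)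
  have h0 : SH s w Z ω = i.1 := congrArg Prod.fst hω
  have h2 : st4_RR s w Zy i.1 ω = i.2 := by
    have := congrArg Prod.snd hω
    rw [← h0]
    exact this
  have h3 : st4_RR s w Zy i.1 ω' = i.2 :=
    locS_clus_fill (D := (ball 0 (8 * w) ∪ Zy) \ i.1) (X := {s.y}) hZy (s.cut ω) (s.cut ω')
      (fun e he => st4_cut_congr (h e (Or.inr he.1))) h2
  refine Prod.ext h1 ?_
  change st4_RR s w Zy (SH s w Z ω') ω' = i.2
  rw [h1]
  exact h3

/-- The event depends only on the determined edges. -/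
private theorem st4_A_congr (hK : CorrData w ρ v d Z Nev) (hKy : CorrData w ρ' v' d' Zy Ny)
    (hS : CorrSep w ρ' v' Z Zy) (hρ' : 1 ≤ ρ') {ω ω' : Config}
    (h : ∀ e ∈ st4_t w Zy (st4_X s w Z Zy ω), ω e = ω' e)
    (hω : ω ∈ Ev3 s w ρ' v' d Z ∩ Ny) :
    st4_X s w Z Zy ω' = st4_X s w Z Zy ω ∧ ω' ∈ Ev3 s w ρ' v' d Z ∩ Ny := by
  obtain ⟨⟨hC, hL, hdis⟩, hN⟩ := hω
  have hZ : Z ⊆ SH s w Z ω := Z_sub_SH_of_conf hK hC
  have hdZ : Disjoint Zy (SH s w Z ω) := Zy_disj_SH hKy hS hρ' hC hdis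
  have hZy : Zy ⊆ st4_RR s w Zy (SH s w Z ω) ω := st4_Zy_sub hKy hdZ hL
  have hX := st4_X_congr (s := s) (w := w) (Z := Z) (i := st4_X s w Z Zy ω) hZ hZy h rfl
  refine ⟨hX, ?_⟩
  have h1 : SH s w Z ω' = SH s w Z ω := congrArg Prod.fst hX
  have hHW : SH s w Z ω ⊆ ball 0 (160 * w) := clus_sub
  obtain ⟨hy, hF, hconf⟩ := hC
  obtain ⟨u, hu, huv, hyu⟩ := hL
  refine ⟨⟨⟨?_, ?_, ?_⟩, ⟨u, hu, huv, ?_⟩, ?_⟩, ?_⟩
  · rw [h1]
    exact hy
  · rw [h1]
    refine fence_congr (fun e he => ?_) (fun e he => ?_) hF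
    · refine st4_cut_congr (h e (Or.inl ⟨⟨?_, ?_⟩, Or.inl ?_⟩))
      · exact hHW (hZ (hK.T_sub he.1))
      · exact hHW (hZ (hK.T_sub he.2))
      · exact hZ (hK.T_sub he.1)
    · exact st4_cut_congr (h e (Or.inl ⟨⟨hHW he.1.1, hHW he.2.1⟩, Or.inl he.1.1⟩))
  · rw [h1]
    exact hconf
  · rw [h1]
    refine st4_conn_transfer (S := st4_RR s w Zy (SH s w Z ω) ω) (fun a ha => ?_)
      (fun a b e hj ha hb haS => ?_) hyu
    · exact ⟨s.y, rfl, ha.mono (fun a ha => ⟨Or.inl ha.1, ha.2⟩)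
        fun e he => fillV_true.2 (Or.inl he)⟩
    · refine st4_cut_congr (h e (Or.inr ((touch_of_joins hj).2 ⟨⟨?_, ?_⟩, Or.inl haS⟩)))
      · exact ⟨Or.inl ha.1, ha.2⟩
      · exact ⟨Or.inl hb.1, hb.2⟩
  · rw [h1]
    exact hdis
  · refine hKy.loc ω ω' (fun e he => h e (Or.inr ⟨⟨⟨Or.inr he.1, ?_⟩, ⟨Or.inr he.2, ?_⟩⟩,
      Or.inl (hZy he.1)⟩)) hN
    · exact fun hh => Set.disjoint_left.1 hdZ he.1 hh
    · exact fun hh => Set.disjoint_left.1 hdZ he.2 hh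

private theorem st4_dom_sub (hK : CorrData w ρ v d Z Nev) (hKy : CorrData w ρ' v' d' Zy Ny) :
    dom d d' (4 * w) ⊆ ball 0 (160 * w) := by
  rintro a (h | h | h)
  · simp only [mem_ball, Prod.fst_zero, Prod.snd_zero] at h ⊢
    push_cast at h ⊢
    omega
  · exact corr_sub160 hK (hK.T_sub h)
  · exact corr_sub160 hKy (hKy.T_sub h)

private theorem st4_corr_dom_left (hK : CorrData w ρ v d Z Nev) :
    ball 0 (8 * w) ∪ Z ⊆ dom d d' (4 * w) := by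
  have hb : ball (0 : Vert) (128 * w) ⊆ dom d d' (4 * w) := by
    intro a ha
    refine Or.inl ?_
    simp only [mem_ball, Prod.fst_zero, Prod.snd_zero] at ha ⊢
    push_cast at ha ⊢
    omega
  rintro a (h | h)
  · apply hb
    simp only [mem_ball, Prod.fst_zero, Prod.snd_zero] at h ⊢
    push_cast at h ⊢
    omega
  · rcases hK.sub h with h | h
    · exact hb h
    · exact Or.inr (Or.inl h)

private theorem st4_corr_dom_right (hKy : CorrData w ρ' v' d' Zy Ny) :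
    ball 0 (8 * w) ∪ Zy ⊆ dom d d' (4 * w) := by
  have hb : ball (0 : Vert) (128 * w) ⊆ dom d d' (4 * w) := by
    intro a ha
    refine Or.inl ?_
    simp only [mem_ball, Prod.fst_zero, Prod.snd_zero] at ha ⊢
    push_cast at ha ⊢
    omega
  rintro a (h | h)
  · apply hb
    simp only [mem_ball, Prod.fst_zero, Prod.snd_zero] at h ⊢
    push_cast at h ⊢
    omega
  · rcases hKy.sub h with h | h
    · exact hb h
    · exact Or.inr (Or.inr h)

/-- Deterministic part of stage 4. -/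
private theorem st4_det (hK : CorrData w ρ v d Z Nev) (hKy : CorrData w ρ' v' d' Zy Ny)
    (hS : CorrSep w ρ' v' Z Zy) (hρ' : 4 ≤ ρ') (hρ : 64 * ρ' ≤ ρ)
    (hw : 64 * ρ ≤ w) {K : ℕ} (hwK : w ≤ K * ρ') (hv' : v' ∈ sphere 0 (8 * w)) {ω : Config}
    (h3 : ω ∈ Ev3 s w ρ' v' d Z) (hN : ω ∈ Ny)
    (hs : ω ∈ Seal (grid ρ' (160 * K)) ρ' (st4_t w Zy (st4_X s w Z Zy ω))) :
    ω ∈ Sep s d d' (4 * w) := by
  have hρ'1 : 1 ≤ ρ' := by omega
  have hw1 : 1 ≤ w := by omega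
  have hw' : 64 * ρ' ≤ w := by omega
  obtain ⟨hC, hL, hdis⟩ := h3
  have hZ : Z ⊆ SH s w Z ω := Z_sub_SH_of_conf hK hC
  have hdZ : Disjoint Zy (SH s w Z ω) := Zy_disj_SH hKy hS hρ'1 hC hdis
  have hZy : Zy ⊆ st4_RR s w Zy (SH s w Z ω) ω := st4_Zy_sub hKy hdZ hL
  obtain ⟨hy, hF, hconf⟩ := hC
  obtain ⟨u, hu, huv, hyu⟩ := hL
  set H : Set Vert := SH s w Z ω with hH
  set R : Set Vert := st4_RR s w Zy H ω with hR
  have hRsub : ∀ a ∈ R, a ∈ ball 0 (8 * w) ∪ Zy ∧ a ∉ H := fun a ha => clus_sub ha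
  have hZyH : ∀ a ∈ Zy, a ∉ H := fun a ha h => Set.disjoint_left.1 hdZ ha h
  have hDW : ball (0 : Vert) (8 * w) ∪ Zy ⊆ ball 0 (160 * w) :=
    (st4_corr_dom_right (d := d) hKy).trans (st4_dom_sub hK hKy)
  -- the edges of `Z ∪ Zy`
  have hZZ : ∀ {e : Edge} {a b : Vert}, Joins e a b → e ∈ inE (Z ∪ Zy) →
      (a ∈ Z ∧ b ∈ Z) ∨ (a ∈ Zy ∧ b ∈ Zy) := by
    intro e a b hj he
    have h1 := (inE_of_joins hj).1 he
    have hfar : ∀ {p p' : Vert}, p ∈ Z → p' ∈ Zy → ¬ p' ∈ ball p 1 := by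
      intro p p' hp hp' hpp
      refine hS.far p hp p' hp' ?_
      simp only [mem_ball] at hpp ⊢
      push_cast at hpp ⊢
      omega
    rcases h1 with ⟨h1 | h1, h2 | h2⟩
    · exact Or.inl ⟨h1, h2⟩
    · exact absurd (ball_of_joins hj.symm) (hfar h1 h2)
    · exact absurd (ball_of_joins hj) (hfar h2 h1)
    · exact Or.inr ⟨h1, h2⟩
  -- `H` is closed
  have hclosed : ∀ {e : Edge} {a b : Vert}, Joins e a b → fillV (Z ∪ Zy) (s.cut ω) e = true →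
      a ∈ ball 0 (160 * w) → b ∈ ball 0 (160 * w) → a ∈ H → b ∈ H := by
    intro e a b hj ho ha hb haH
    have haH' := haH
    refine clus_step (ω := fillV Z (s.cut ω)) (D := ball 0 (160 * w)) (X := {s.x}) haH
      ⟨ha, hb, e, hj, ?_⟩
    rw [fillV_true] at ho ⊢
    rcases ho with ho | ho
    · exact Or.inl ho
    · rcases hZZ hj ho with h | h
      · exact Or.inr ((inE_of_joins hj).2 h)
      · exact absurd haH' (hZyH a h.1)
  have hxH : s.x ∈ H := by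
    refine ⟨s.x, rfl, Conn.refl ?_⟩
    have h1 := s.hx
    simp only [mem_ball, Prod.fst_zero, Prod.snd_zero] at h1 ⊢
    push_cast at h1 ⊢
    omega
  have hconnH : ∀ z, Conn (fillV (Z ∪ Zy) (s.cut ω)) (ball 0 (160 * w)) s.x z → z ∈ H := by
    intro z hz
    refine hz.induction_right (P := fun z => z ∈ H) hxH ?_
    rintro a b _ ⟨ha, hb, e, hj, ho⟩ ih
    exact hclosed hj ho ha hb ih
  -- from the separated event to `W`
  have hTT : T d (4 * w) ∪ T d' (4 * w) ⊆ Z ∪ Zy := by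
    rintro a (h | h)
    · exact Or.inl (hK.T_sub h)
    · exact Or.inr (hKy.T_sub h)
  have hlift : ∀ {a b : Vert},
      Conn (fillV (T d (4 * w) ∪ T d' (4 * w)) (s.cut ω)) (dom d d' (4 * w)) a b →
      Conn (fillV (Z ∪ Zy) (s.cut ω)) (ball 0 (160 * w)) a b := by
    intro a b h
    exact h.mono (st4_dom_sub hK hKy) fun e he => fillV_mono hTT he
  have hyR : s.y ∈ R := ⟨s.y, rfl, Conn.refl ⟨Or.inl (st4_y_mem_ball hw1), hy⟩⟩
  set Ex : Set Vert := {a | a ∈ R ∧ ∃ b e, Joins e a b ∧ b ∉ ball 0 (8 * w) ∪ Zy} with hEx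
  have conf : ∀ z, Conn (fillV (Z ∪ Zy) (s.cut ω)) (ball 0 (160 * w)) s.y z →
      z ∈ R ∨ (z ∉ H ∧ ∃ a ∈ Ex, z ∈ ball a (4 * ρ')) := by
    intro z hz
    refine seal_confine (ω := ω) (F := H) (t := st4_t w Zy (st4_X s w Z Zy ω))
      (G := grid ρ' (160 * K)) ?_ hs ?_ ?_ ?_ ?_ ?_ hyR hz
    · intro e he ho
      rcases fillV_true.1 ho with h | h
      · exact cut_le h
      · exfalso
        rcases hZZ (joins_src_tgt e) h with h | h
        · exact he (Or.inl ⟨⟨corr_sub160 hK h.1, corr_sub160 hK h.2⟩, Or.inl (hZ h.1)⟩)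
        · exact he (Or.inr ⟨⟨⟨Or.inr h.1, hZyH _ h.1⟩, ⟨Or.inr h.2, hZyH _ h.2⟩⟩,
            Or.inl (hZy h.1)⟩)
    · rintro a ⟨ha, -⟩
      refine exists_grid (by omega) ?_
      have h1 := hDW (hRsub a ha).1
      have h2 : (160 * w : ℕ) ≤ 160 * K * ρ' := by
        calc 160 * w ≤ 160 * (K * ρ') := Nat.mul_le_mul_left _ hwK
          _ = 160 * K * ρ' := by ring
      have h3 : ((160 * w : ℕ) : ℤ) ≤ ((160 * K * ρ' : ℕ) : ℤ) := by exact_mod_cast h2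
      simp only [mem_ball, Prod.fst_zero, Prod.snd_zero] at h1 ⊢
      omega
    · intro a b e hj ho haW hbW ha hb
      have hbH : b ∉ H := fun h => (hRsub a ha).2 (hclosed hj.symm ho hbW haW h)
      have hb' : b ∉ ball 0 (8 * w) ∪ Zy := by
        intro h
        refine hb (clus_step ha ⟨hRsub a ha, ⟨h, hbH⟩, e, hj, ?_⟩)
        rw [fillV_true] at ho ⊢
        rcases ho with ho | ho
        · exact Or.inl ho
        · rcases hZZ hj ho with h | h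
          · exact absurd (hZ h.1) (hRsub a ha).2
          · exact Or.inr ((inE_of_joins hj).2 h)
      refine ⟨⟨ha, b, e, hj, hb'⟩, hbH, ?_⟩
      rintro (h | h)
      · rcases ((touch_of_joins hj).1 h).2 with h | h
        · exact (hRsub a ha).2 h
        · exact hbH h
      · exact hb' ((touch_of_joins hj).1 h).1.2.1
    · intro a b e hj ho haW hbW _ ha2 hb
      exact absurd (hclosed hj.symm ho hbW haW hb) ha2
    · rintro a b e hj _ _ _ ha1 ha2 hb1 hb2 (h | h)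
      · rcases ((touch_of_joins hj).1 h).2 with h | h
        · exact ha2 h
        · exact hb2 h
      · rcases ((touch_of_joins hj).1 h).2 with h | h
        · exact ha1 h
        · exact hb1 h
    · intro a b e hj ho haW hbW _ ha2 hb
      exact absurd (hclosed hj.symm ho hbW haW hb) ha2
  have h128 : ∀ {z : Vert}, z ∈ sphere 0 (32 * (4 * w)) → z ∈ sphere 0 (128 * w) := by
    intro z hz
    have e : 32 * (4 * w) = 128 * w := by ring
    rwa [e] at hz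
  have hnear : ∀ {z a : Vert}, z ∈ sphere 0 (128 * w) → z ∈ ball a (4 * ρ') →
      a ∉ ball 0 (8 * w) := by
    intro z a hz hza ha
    have hz2 := hz.2
    simp only [mem_ball, Prod.fst_zero, Prod.snd_zero] at hza ha hz2
    push_cast at hza ha hz2
    omega
  have hball : ∀ {z a : Vert}, z ∈ ball a (4 * ρ') → z ∈ ball a w := by
    intro z a h
    simp only [mem_ball] at h ⊢
    push_cast at h ⊢
    omega
  have hself : ∀ {z : Vert} {r : ℕ}, z ∈ ball z r := by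
    intro z r
    exact self_mem_ball
  refine ⟨?_, ?_, ?_, ?_, ?_⟩
  · exact fence_mono (fun a ha => st4_corr_dom_left hK ha.2) (fun _ h => h) hF
  · -- the fence of `y`
    obtain ⟨z, hz, hf⟩ := hKy.hook ω hN (s.cut ω) (ball 0 (8 * w) \ H) u s.y hyu.symm huv
      (st4_y_far hρ'1 hw' hv')
    have hcut : ∀ e ∈ inE Zy, ω e = s.cut ω e := fun e he =>
      (corr_cut hKy hρ'1 hw' hv' he).symm
    have hf' : Fence d' (4 * w) (s.cut ω) Zy z :=
      fence_congr (fun e he => hcut e ⟨hKy.T_sub he.1, hKy.T_sub he.2⟩) hcut hf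
    have hsub := st4_corr_dom_right (d := d) hKy
    have hyz : Conn (s.cut ω) (dom d d' (4 * w)) s.y z :=
      (hyu.trans hz).mono_set fun a ha => hsub (Or.inl ha.1)
    exact fence_trans hyz (fence_mono (fun a ha => hsub (Or.inr ha)) (fun _ h => h) hf')
  · intro h
    exact hy (hconnH _ (hlift h))
  · intro z hz h
    have hz' := h128 hz
    rcases hconf z (hconnH z (hlift h)) with h1 | ⟨a, ha, h1⟩ | ⟨a, _, ha, h1⟩
    · exact absurd h1 (hnear hz' hself)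
    · exact hK.mouth z hz' a ha (hball h1)
    · exact absurd ha.1 (hnear hz' h1)
  · intro z hz h
    have hz' := h128 hz
    rcases conf z (hlift h) with h1 | ⟨-, a, ha, h1⟩
    · rcases (hRsub z h1).1 with h2 | h2
      · exact absurd h2 (hnear hz' hself)
      · exact hKy.mouth z hz' z h2 hself
    · rcases (hRsub a ha.1).1 with h2 | h2
      · exact absurd h2 (hnear hz' h1)
      · exact hKy.mouth z hz' a h2 (hball h1)

/-- Stage 4: seal the cluster of `y`. -/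
theorem stage4 (c : ℝ) (hc : 0 < c) (K : ℕ) : ∃ c' : ℝ, 0 < c' ∧ ∀ (s : Src) (w ρ ρ' : ℕ)
    (v v' : Vert) (d d' : Side) (Z Zy : Set Vert) (Nev Ny : Set Config) (n : ℕ) (q : I),
    CorrData w ρ v d Z Nev → CorrData w ρ' v' d' Zy Ny → CorrSep w ρ' v' Z Zy → 4 ≤ ρ' →
    64 * ρ' ≤ ρ → 64 * ρ ≤ w → w ≤ K * ρ' → v ∈ sphere 0 (8 * w) → v' ∈ sphere 0 (8 * w) →
    w ≤ n → RSWreg c n q →
      c' * Pr q (Ev3 s w ρ' v' d Z ∩ Ny) ≤ Pr q (Sep s d d' (4 * w)) := by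
  classical
  obtain ⟨c', hc', hlow⟩ := seal_lower c hc 1 ((2 * (160 * K) + 1) ^ 2)
  refine ⟨c', hc', fun s w ρ ρ' v v' d d' Z Zy Nev Ny n q hK hKy hS hρ' hρ hw hwK hv hv' hn hR =>
    ?_⟩
  have hρ'1 : 1 ≤ ρ' := by omega
  have hw1 : 1 ≤ w := by omega
  -- the finite set of edges
  obtain ⟨Λ1, hΛ1⟩ : ∃ Λ : Finset Edge, ∀ e ∈ inE (ball 0 (160 * w)), e ∈ Λ :=
    ⟨eRect (-(160 * w : ℕ)) (160 * w : ℕ) (-(160 * w : ℕ)) (160 * w : ℕ), fun e he => by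
      rw [mem_eRect]
      have h := he.1
      unfold ball at h
      simp only [Prod.fst_zero, Prod.snd_zero, zero_sub, zero_add] at h
      exact h⟩
  obtain ⟨Λ2, hΛ2⟩ := localOn_seal (grid ρ' (160 * K)) ρ'
  have hDW : ball (0 : Vert) (8 * w) ∪ Zy ⊆ ball 0 (160 * w) :=
    (st4_corr_dom_right (d := d) hKy).trans (st4_dom_sub hK hKy)
  have hΛ : ∀ e ∈ inE (ball 0 (160 * w)), e ∈ Λ1 ∪ Λ2 := fun e he =>
    Finset.mem_union_left _ (hΛ1 e he)
  have hXc : ∀ ω ω' : Config, (∀ e ∈ Λ1 ∪ Λ2, ω e = ω' e) →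
      st4_X s w Z Zy ω = st4_X s w Z Zy ω' := by
    intro ω ω' h
    have h1 : SH s w Z ω = SH s w Z ω' :=
      st4_clus_congr fun e he => st4_fill_congr (h e (hΛ e he))
    refine Prod.ext h1 ?_
    change st4_RR s w Zy (SH s w Z ω) ω = st4_RR s w Zy (SH s w Z ω') ω'
    rw [← h1]
    exact st4_clus_congr fun e he => st4_fill_congr (h e (hΛ e ⟨hDW he.1.1, hDW he.2.1⟩))
  have htW : ∀ {i : Set Vert × Set Vert}, ∀ e ∈ st4_t w Zy i, e ∈ inE (ball 0 (160 * w)) := by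
    rintro i e (he | he)
    · exact he.1
    · exact ⟨hDW he.1.1.1, hDW he.1.2.1⟩
  have main := markov_indep (Λ := Λ1 ∪ Λ2) (q := q) (c := c')
    (fun ω => st4_X s w Z Zy ω)
    (fun i => Z ⊆ i.1 ∧ Zy ⊆ i.2) (fun i => st4_t w Zy i)
    (fun i => {ω | st4_X s w Z Zy ω = i} ∩ (Ev3 s w ρ' v' d Z ∩ Ny))
    (fun i => Seal (grid ρ' (160 * K)) ρ' (st4_t w Zy i))
    ?_ ?_ ?_ ?_ ?_ ?_ ?_ hc'.le
  · have e1 : Ev3 s w ρ' v' d Z ∩ Ny ⊆
        {ω | (Z ⊆ (st4_X s w Z Zy ω).1 ∧ Zy ⊆ (st4_X s w Z Zy ω).2) ∧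
          ω ∈ {ω' | st4_X s w Z Zy ω' = st4_X s w Z Zy ω} ∩ (Ev3 s w ρ' v' d Z ∩ Ny)} := by
      intro ω hω
      have hC := hω.1.1
      exact ⟨⟨Z_sub_SH_of_conf hK hC,
        st4_Zy_sub hKy (Zy_disj_SH hKy hS hρ'1 hC hω.1.2.2) hω.1.2.1⟩, rfl, hω⟩
    refine le_trans (mul_le_mul_of_nonneg_left (Pr_mono e1) hc'.le) (le_trans main (Pr_mono ?_))
    rintro ω ⟨_, ⟨_, h3, hN⟩, hs⟩
    exact st4_det hK hKy hS hρ' hρ hw hwK hv' h3 hN hs
  · intro i ω ω' h hω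
    change st4_X s w Z Zy ω' = i
    rw [← hXc ω ω' h]
    exact hω
  · intro i hi ω ω' h hω
    exact st4_X_congr hi.1 hi.2 h hω
  · rintro i ω ω' h ⟨hω, hA⟩
    obtain ⟨h1, h2⟩ := st4_A_congr (ω' := ω') hK hKy hS hρ'1
      (fun e he => h e (hΛ e (htW e he))) hA
    exact ⟨h1.trans hω, h2⟩
  · rintro i hi ω ω' h ⟨hω, hA⟩
    obtain ⟨h1, h2⟩ := st4_A_congr (ω' := ω') hK hKy hS hρ'1
      (fun e he => h e (by
        have hω' : st4_X s w Z Zy ω = i := hω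
        rw [← hω']
        exact he)) hA
    exact ⟨h1.trans hω, h2⟩
  · intro i ω ω' h
    exact hΛ2 _ ω ω' fun e he => h e (Finset.mem_union_right _ he)
  · intro i _
    exact locS_seal _ _ _
  · intro i _
    exact hlow n ρ' q _ _ (by omega) hR (by omega) (by omega) (card_grid _ _)

end Pool.Agent.H59.EX

end

section

/-!
# Outward separation: assembly
-/

open MeasureTheory ProbabilityTheory unitInterval

namespace Pool.Agent.H59.EX

open Pool.Agent.H89.Perc Pool.Agent.H61.NC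
open Pool.Agent.H29.Sep (LocTwo BadIn)

/-! ### Nets -/

/-- Points with step `ρ` in `[-8 w, 8 w]`. -/
theorem oute_net1 {w ρ : ℕ} (hρ : 1 ≤ ρ) {y : ℤ} (h1 : -(8 * (w : ℤ)) ≤ y) (h2 : y ≤ 8 * w) :
    ∃ j ∈ Finset.range (16 * w / ρ + 1), -(8 * (w : ℤ)) + j * ρ ≤ y ∧
      y ≤ -(8 * (w : ℤ)) + j * ρ + ρ := by
  obtain ⟨t, ht⟩ := Int.eq_ofNat_of_zero_le (show 0 ≤ y + 8 * w by omega)
  have ht' : t ≤ 16 * w := by omega
  refine ⟨t / ρ, ?_, ?_, ?_⟩
  · rw [Finset.mem_range, Nat.lt_succ_iff]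
    exact Nat.div_le_div_right ht'
  · have h3 := Nat.div_mul_le_self t ρ
    have h4 : ((t / ρ : ℕ) : ℤ) * (ρ : ℤ) ≤ t := by exact_mod_cast h3
    omega
  · have h3 : t < t / ρ * ρ + ρ := Nat.lt_div_mul_add (by omega)
    have h4 : (t : ℤ) < ((t / ρ : ℕ) : ℤ) * (ρ : ℤ) + ρ := by exact_mod_cast h3
    omega

theorem oute_net2 {w ρ j : ℕ} (hj : j ∈ Finset.range (16 * w / ρ + 1)) :
    0 ≤ (j : ℤ) * ρ ∧ (j : ℤ) * ρ ≤ 16 * w := by
  rw [Finset.mem_range, Nat.lt_succ_iff] at hj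
  have h3 : j * ρ ≤ 16 * w := (Nat.mul_le_mul_right ρ hj).trans (Nat.div_mul_le_self _ _)
  exact ⟨by positivity, by exact_mod_cast h3⟩

theorem oute_netE {w ρ : ℕ} (hρ : 1 ≤ ρ) : ∃ V : Finset Vert,
    (∀ v ∈ V, OnSide .E (8 * w) v) ∧ V.card ≤ 16 * w / ρ + 1 ∧
      ∀ u, OnSide .E (8 * w) u → ∃ v ∈ V, u ∈ ball v ρ := by
  classical
  refine ⟨(Finset.range (16 * w / ρ + 1)).image
    (fun j : ℕ => ((8 * w : ℕ), -(8 * (w : ℤ)) + j * ρ)), ?_, ?_, ?_⟩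
  · intro v hv
    obtain ⟨j, hj, rfl⟩ := Finset.mem_image.1 hv
    obtain ⟨h1, h2⟩ := oute_net2 hj
    refine ⟨?_, rfl⟩
    simp only [sphere, ball, rect, Set.mem_ofPred_eq, Prod.fst_zero, Prod.snd_zero]
    push_cast
    omega
  · exact Finset.card_image_le.trans (by simp)
  · rintro u ⟨⟨h1, -⟩, h2⟩
    simp only [ball, rect, Set.mem_ofPred_eq, Prod.fst_zero, Prod.snd_zero] at h1 h2
    push_cast at h1 h2
    obtain ⟨j, hj, h3, h4⟩ := oute_net1 (w := w) hρ (y := u.2) (by omega) (by omega)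
    refine ⟨_, Finset.mem_image_of_mem _ hj, ?_⟩
    simp only [ball, rect, Set.mem_ofPred_eq]
    push_cast
    omega

theorem oute_netS {w ρ : ℕ} (hρ : 1 ≤ ρ) : ∃ V : Finset Vert,
    (∀ v ∈ V, v ∈ sphere 0 (8 * w)) ∧ V.card ≤ 4 * (16 * w / ρ + 1) ∧
      ∀ u ∈ sphere 0 (8 * w), ∃ v ∈ V, u ∈ ball v ρ := by
  classical
  set r := Finset.range (16 * w / ρ + 1) with hr
  refine ⟨(r.image (fun j : ℕ => (((8 * w : ℕ) : ℤ), -(8 * (w : ℤ)) + j * ρ)) ∪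
    r.image (fun j : ℕ => (-((8 * w : ℕ) : ℤ), -(8 * (w : ℤ)) + j * ρ))) ∪
    (r.image (fun j : ℕ => (-(8 * (w : ℤ)) + j * ρ, ((8 * w : ℕ) : ℤ))) ∪
    r.image (fun j : ℕ => (-(8 * (w : ℤ)) + j * ρ, -((8 * w : ℕ) : ℤ)))), ?_, ?_, ?_⟩
  · intro v hv
    simp only [Finset.mem_union, Finset.mem_image] at hv
    rcases hv with (⟨j, hj, rfl⟩ | ⟨j, hj, rfl⟩) | (⟨j, hj, rfl⟩ | ⟨j, hj, rfl⟩) <;>
      obtain ⟨h1, h2⟩ := oute_net2 (hr ▸ hj) <;>
      simp only [sphere, ball, rect, Set.mem_ofPred_eq, Prod.fst_zero, Prod.snd_zero] <;>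
      push_cast <;> omega
  · have hc : r.card = 16 * w / ρ + 1 := by rw [hr]; simp
    have h1 : ∀ f : ℕ → Vert, (r.image f).card ≤ 16 * w / ρ + 1 := fun f =>
      Finset.card_image_le.trans hc.le
    refine (Finset.card_union_le _ _).trans ?_
    refine (Nat.add_le_add (Finset.card_union_le _ _) (Finset.card_union_le _ _)).trans ?_
    have h2 := h1 (fun j : ℕ => (((8 * w : ℕ) : ℤ), -(8 * (w : ℤ)) + j * ρ))
    have h3 := h1 (fun j : ℕ => (-((8 * w : ℕ) : ℤ), -(8 * (w : ℤ)) + j * ρ))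
    have h4 := h1 (fun j : ℕ => (-(8 * (w : ℤ)) + j * ρ, ((8 * w : ℕ) : ℤ)))
    have h5 := h1 (fun j : ℕ => (-(8 * (w : ℤ)) + j * ρ, -((8 * w : ℕ) : ℤ)))
    omega
  · rintro u ⟨h1, h2⟩
    simp only [ball, rect, Set.mem_ofPred_eq, Prod.fst_zero, Prod.snd_zero] at h1 h2
    push_cast at h1 h2
    rcases h2 with h2 | h2 | h2 | h2
    · obtain ⟨j, hj, h3, h4⟩ := oute_net1 (w := w) hρ (y := u.2) (by omega) (by omega)
      refine ⟨(-((8 * w : ℕ) : ℤ), -(8 * (w : ℤ)) + j * ρ), ?_, ?_⟩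
      · exact Finset.mem_union_left _ (Finset.mem_union_right _ (Finset.mem_image_of_mem _ hj))
      · simp only [ball, rect, Set.mem_ofPred_eq]
        push_cast
        omega
    · obtain ⟨j, hj, h3, h4⟩ := oute_net1 (w := w) hρ (y := u.2) (by omega) (by omega)
      refine ⟨(((8 * w : ℕ) : ℤ), -(8 * (w : ℤ)) + j * ρ), ?_, ?_⟩
      · exact Finset.mem_union_left _ (Finset.mem_union_left _ (Finset.mem_image_of_mem _ hj))
      · simp only [ball, rect, Set.mem_ofPred_eq]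
        push_cast
        omega
    · obtain ⟨j, hj, h3, h4⟩ := oute_net1 (w := w) hρ (y := u.1) (by omega) (by omega)
      refine ⟨(-(8 * (w : ℤ)) + j * ρ, -((8 * w : ℕ) : ℤ)), ?_, ?_⟩
      · exact Finset.mem_union_right _ (Finset.mem_union_right _ (Finset.mem_image_of_mem _ hj))
      · simp only [ball, rect, Set.mem_ofPred_eq]
        push_cast
        omega
    · obtain ⟨j, hj, h3, h4⟩ := oute_net1 (w := w) hρ (y := u.1) (by omega) (by omega)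
      refine ⟨(-(8 * (w : ℤ)) + j * ρ, ((8 * w : ℕ) : ℤ)), ?_, ?_⟩
      · exact Finset.mem_union_right _ (Finset.mem_union_left _ (Finset.mem_image_of_mem _ hj))
      · simp only [ball, rect, Set.mem_ofPred_eq]
        push_cast
        omega

/-! ### Numbers -/

theorem oute_pow {a κ δ : ℝ} (ha : 0 < a) (hκ : 0 < κ) (hδ : 0 < δ) : ∃ K₀ : ℕ, ∀ K : ℕ, K₀ ≤ K →
    (a / K) ^ κ ≤ δ := by
  refine ⟨⌈a / δ ^ (1 / κ)⌉₊ + 1, fun K hK => ?_⟩
  have h1 : 0 < δ ^ (1 / κ) := Real.rpow_pos_of_pos hδ _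
  have h2 : a / δ ^ (1 / κ) ≤ K := by
    refine (Nat.le_ceil _).trans ?_
    exact_mod_cast (Nat.le_succ _).trans hK
  have h3 : (0 : ℝ) < K := lt_of_lt_of_le (by positivity) h2
  have h4 : a / K ≤ δ ^ (1 / κ) := by
    rw [div_le_iff₀ h3]
    rwa [div_le_iff₀ h1, mul_comm] at h2
  calc (a / K) ^ κ ≤ (δ ^ (1 / κ)) ^ κ := Real.rpow_le_rpow (by positivity) h4 hκ.le
    _ = δ := by rw [← Real.rpow_mul hδ.le, one_div, inv_mul_cancel₀ hκ.ne', Real.rpow_one]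

/-- Comparison of `w` and `w / K`. -/
theorem oute_div {w K : ℕ} (hK : 1 ≤ K) (hw : K ≤ w) :
    1 ≤ w / K ∧ K * (w / K) ≤ w ∧ w ≤ 2 * K * (w / K) := by
  have h1 : 1 ≤ w / K := (Nat.one_le_div_iff (by omega)).2 hw
  have h2 : K * (w / K) ≤ w := Nat.mul_div_le w K
  have h3 : w < K * (w / K) + K := by
    have := Nat.lt_mul_div_succ w (show 0 < K by omega)
    rwa [Nat.mul_succ] at this
  refine ⟨h1, h2, ?_⟩
  nlinarith

theorem oute_card {w K ρ : ℕ} (hρ : 1 ≤ ρ) (h : w ≤ 2 * K * ρ) : 16 * w / ρ + 1 ≤ 32 * K + 1 := by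
  have : 16 * w / ρ ≤ 32 * K := by
    rw [Nat.div_le_iff_le_mul_add_pred (by omega)]
    nlinarith
  omega

/-! ### Events -/

variable {s : Src} {w ρ ρ' : ℕ} {v v' : Vert} {d d' : Side} {Z Zy : Set Vert} {Nev Ny : Set Config}
  {q : I}

/-- The bad event of the inner boundary. -/
def BadZ (w t ρ : ℕ) : Set Config := {ω | ∃ z ∈ sphere 0 (8 * w), ω ∈ LocTwo (ball 0 (8 * w)) z t ρ}

theorem oute_cover1 (hρ : 1 ≤ ρ) (hw : 64 * ρ ≤ w) {V : Finset Vert}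
    (hV : ∀ v ∈ V, OnSide .E (8 * w) v)
    (hV' : ∀ u, OnSide .E (8 * w) u → ∃ v ∈ V, u ∈ ball v ρ) :
    Four s (8 * w) ∩ Land .E s w ⊆
      (⋃ v ∈ V, Ev0 s w ρ v) ∪ (Four s (2 * w) ∩ BadZ w (11 * ρ) (4 * w)) := by
  rintro ω ⟨h1, u, hu, hc⟩
  obtain ⟨v, hv, huv⟩ := hV' u hu
  by_cases hd : Disjoint (SY s w ω) (ball v (11 * ρ))
  · left
    simp only [Set.mem_iUnion]
    exact ⟨v, hv, ⟨u, hu.1, huv, hc⟩, h1.2.1, h1.2.2, hd⟩
  · right
    exact bad0 hρ hw (hV v hv).1 h1 ⟨u, hu.1, huv, hc⟩ hd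

theorem oute_ball {u v : Vert} {a b : ℕ} (h : u ∈ ball v a) {z : Vert} (hz : z ∈ ball v b) :
    z ∈ ball u (a + b) := by
  simp only [ball, rect, Set.mem_ofPred_eq] at h hz ⊢
  push_cast
  omega

open scoped Classical in
theorem oute_cover2 (_hρ' : 1 ≤ ρ') (h1 : 64 * ρ' ≤ ρ) {V : Finset Vert}
    (hV' : ∀ u ∈ sphere 0 (8 * w), ∃ v' ∈ V, u ∈ ball v' ρ') :
    Ev2 s w ρ ρ' v d Z ⊆ ⋃ v' ∈ V.filter (fun v' => v' ∉ ball v (10 * ρ)), Ev3 s w ρ' v' d Z := by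
  rintro ω ⟨h2, u, hu, huv, hc, hd⟩
  obtain ⟨v', hv', huv'⟩ := hV' u hu
  simp only [Set.mem_iUnion]
  refine ⟨v', Finset.mem_filter.2 ⟨hv', fun h => huv ?_⟩, h2, ⟨u, hu, huv', hc⟩, ?_⟩
  · simp only [ball, rect, Set.mem_ofPred_eq] at h huv' ⊢
    push_cast at h huv' ⊢
    omega
  · refine hd.mono_right fun z hz => ?_
    have := oute_ball huv' hz
    have h8 : ρ' + 7 * ρ' = 8 * ρ' := by ring
    rwa [h8] at this

theorem bE_nonneg (q : I) (s : Src) (d : Side) (k : ℕ) : 0 ≤ ∑ d' : Side, Pr q (Sep s d d' k) :=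
  Finset.sum_nonneg fun _ _ => Pr_nonneg

/-- Outward separation, landing of `x` on the east side. -/
theorem outE (hB : BadIn) (c ε : ℝ) (hc : 0 < c) (hε : 0 < ε) : ∃ (C : ℝ) (w₀ : ℕ), 0 < C ∧
    ∀ (s : Src) (w n : ℕ) (q : I), w₀ ≤ w → 8 * w ≤ n → RSWreg c n q →
      Pr q (Four s (8 * w) ∩ Land .E s w) ≤
        C * (∑ d' : Side, Pr q (Sep s .E d' (4 * w))) + ε * Pr q (Four s (2 * w)) := by
  classical
  obtain ⟨CB, κ, hCB, hκ, hbad⟩ := hB c hc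
  -- coarse scale
  obtain ⟨A₁, hA₁⟩ := oute_pow (a := 11 / 4) (κ := κ) (δ := ε / 2 / (CB * 2)) (by norm_num) hκ
    (by positivity)
  set K₁ : ℕ := max A₁ 128 with hK₁
  have hK₁A : A₁ ≤ K₁ := le_max_left _ _
  have hK₁1 : 128 ≤ K₁ := le_max_right _ _
  obtain ⟨c₁, hc₁, hc₁'⟩ := prob_straight c hc (2 * K₁)
  -- fine scale
  obtain ⟨A₂, hA₂⟩ := oute_pow (a := 24 * K₁) (κ := κ)
    (δ := ε / 2 / ((32 * K₁ + 1) / c₁ * (CB * (16 * K₁)))) (by positivity) hκ (by positivity)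
  set K₂ : ℕ := max A₂ (128 * K₁) with hK₂
  have hK₂A : A₂ ≤ K₂ := le_max_left _ _
  have hK₂1 : 128 * K₁ ≤ K₂ := le_max_right _ _
  obtain ⟨c₂, hc₂, hst2⟩ := stage2 c hc (2 * K₂)
  obtain ⟨c₃, hc₃, hcy⟩ := exists_corr_y c hc (2 * K₂)
  obtain ⟨c₄, hc₄, hst4⟩ := stage4 c hc (2 * K₂)
  refine ⟨(32 * K₁ + 1) / c₁ * ((4 * (32 * K₂ + 1)) / (c₂ * c₃ * c₄)), 4 * K₂, by positivity, ?_⟩
  intro s w n q hw hwn hreg
  obtain ⟨r1, r2, r3⟩ := oute_div (w := w) (K := K₁) (by omega) (by omega)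
  obtain ⟨r1', r2', r3'⟩ := oute_div (w := w) (K := K₂) (by omega) (by omega)
  set ρ : ℕ := w / K₁ with hρ
  set ρ' : ℕ := w / K₂ with hρ'
  have hρ'4 : 4 ≤ ρ' := by
    rw [hρ', Nat.le_div_iff_mul_le (by omega)]
    omega
  have hwn' : w ≤ n := by omega
  have h64 : 64 * ρ ≤ w := by nlinarith
  have h64' : 64 * ρ' ≤ ρ := by
    have h1 : 128 * K₁ * ρ' ≤ w := (Nat.mul_le_mul_right ρ' hK₂1).trans r2'
    have h2 : w < K₁ * ρ + K₁ := by
      have := Nat.lt_mul_div_succ w (show 0 < K₁ by omega)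
      rwa [Nat.mul_succ] at this
    have h3 : K₁ * (128 * ρ') < K₁ * (ρ + 1) := by nlinarith
    have h4 : 128 * ρ' < ρ + 1 := Nat.lt_of_mul_lt_mul_left h3
    omega
  have hw1 : 1 ≤ w := by omega
  -- real versions
  have hwR : (0 : ℝ) < w := by exact_mod_cast hw1
  have hρR : (0 : ℝ) < ρ := by exact_mod_cast r1
  have hρ'R : (0 : ℝ) < ρ' := by exact_mod_cast r1'
  have hK₁R : (0 : ℝ) < K₁ := by exact_mod_cast (show 0 < K₁ by omega)
  have hK₂R : (0 : ℝ) < K₂ := by exact_mod_cast (show 0 < K₂ by omega)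
  have e1 : (K₁ : ℝ) * ρ ≤ w := by exact_mod_cast r2
  have e2 : (w : ℝ) ≤ 2 * K₁ * ρ := by exact_mod_cast r3
  have e3 : (K₂ : ℝ) * ρ' ≤ w := by exact_mod_cast r2'
  -- the bad events
  have hF0 : 0 ≤ Pr q (Four s (2 * w)) := Pr_nonneg
  have hb1 : Pr q (BadZ w (11 * ρ) (4 * w)) ≤ ε / 2 := by
    have h1 := hbad n (11 * ρ) (4 * w) (8 * w) q (by omega) (by omega) (by omega) hwn hreg
    refine h1.trans ?_
    have h2 : (((8 * w : ℕ) : ℝ) / ((4 * w : ℕ) : ℝ)) = 2 := by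
      push_cast
      field_simp
      norm_num
    have h3 : (((11 * ρ : ℕ) : ℝ) / ((4 * w : ℕ) : ℝ)) ≤ 11 / 4 / K₁ := by
      push_cast
      rw [div_le_div_iff₀ (by positivity) hK₁R]
      nlinarith
    have h4 : (((11 * ρ : ℕ) : ℝ) / ((4 * w : ℕ) : ℝ)) ^ κ ≤ ε / 2 / (CB * 2) :=
      (Real.rpow_le_rpow (by positivity) h3 hκ.le).trans (hA₁ K₁ hK₁A)
    rw [h2]
    calc CB * 2 * (((11 * ρ : ℕ) : ℝ) / ((4 * w : ℕ) : ℝ)) ^ κ
        ≤ CB * 2 * (ε / 2 / (CB * 2)) := mul_le_mul_of_nonneg_left h4 (by positivity)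
      _ = ε / 2 := by field_simp
  have hb2 : (32 * K₁ + 1) / c₁ * Pr q (BadZ w (12 * ρ') ρ) ≤ ε / 2 := by
    have h1 := hbad n (12 * ρ') ρ (8 * w) q (by omega) (by omega) (by omega) hwn hreg
    have h2 : (((8 * w : ℕ) : ℝ) / (ρ : ℝ)) ≤ 16 * K₁ := by
      push_cast
      rw [div_le_iff₀ hρR]
      nlinarith
    have h3 : (((12 * ρ' : ℕ) : ℝ) / (ρ : ℝ)) ≤ 24 * K₁ / K₂ := by
      push_cast
      rw [div_le_div_iff₀ hρR hK₂R]
      nlinarith
    have h4 : (((12 * ρ' : ℕ) : ℝ) / (ρ : ℝ)) ^ κ ≤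
        ε / 2 / ((32 * K₁ + 1) / c₁ * (CB * (16 * K₁))) :=
      (Real.rpow_le_rpow (by positivity) h3 hκ.le).trans (hA₂ K₂ hK₂A)
    have h5 : Pr q (BadZ w (12 * ρ') ρ) ≤
        CB * (16 * K₁) * (ε / 2 / ((32 * K₁ + 1) / c₁ * (CB * (16 * K₁)))) := by
      refine h1.trans ?_
      exact mul_le_mul (mul_le_mul_of_nonneg_left h2 hCB.le) h4 (by positivity) (by positivity)
    calc (32 * K₁ + 1) / c₁ * Pr q (BadZ w (12 * ρ') ρ)
        ≤ (32 * K₁ + 1) / c₁ *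
          (CB * (16 * K₁) * (ε / 2 / ((32 * K₁ + 1) / c₁ * (CB * (16 * K₁))))) :=
          mul_le_mul_of_nonneg_left h5 (by positivity)
      _ = ε / 2 := by field_simp
  -- nets
  obtain ⟨V₁, hV₁, hV₁c, hV₁'⟩ := oute_netE (w := w) (ρ := ρ) r1
  obtain ⟨V₂, hV₂, hV₂c, hV₂'⟩ := oute_netS (w := w) (ρ := ρ') r1'
  have hcard1 : (V₁.card : ℝ) ≤ 32 * K₁ + 1 := by
    exact_mod_cast hV₁c.trans (oute_card r1 r3)
  have hcard2 : (V₂.card : ℝ) ≤ 4 * (32 * K₂ + 1) := by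
    exact_mod_cast hV₂c.trans (Nat.mul_le_mul_left 4 (oute_card r1' r3'))
  set B : ℝ := ∑ d' : Side, Pr q (Sep s .E d' (4 * w)) with hBdef
  have hB0 : 0 ≤ B := bE_nonneg q s .E (4 * w)
  -- stage 3 and stage 4
  have step34 : ∀ v ∈ V₁, ∀ v' ∈ V₂.filter (fun v' => v' ∉ ball v (10 * ρ)),
      Pr q (Ev3 s w ρ' v' .E (ZS .E w ρ v)) ≤ B / (c₃ * c₄) := by
    intro v hv v' hv'
    rw [Finset.mem_filter] at hv'
    obtain ⟨d', Zy, Ny, -, hKy, hKS, hNy⟩ := hcy w ρ ρ' n v v' q r1' h64' h64 r3' hwn' (hV₁ v hv)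
      (hV₂ v' hv'.1) hv'.2 hreg
    have hK := corr_straight (d := .E) (w := w) (ρ := ρ) (v := v) r1 h64 (hV₁ v hv)
    have h3 := stage3 (s := s) (q := q) hK hKy hKS r1' h64' h64 (hV₁ v hv).1 (hV₂ v' hv'.1) hc₃.le
      hNy
    have h4 := hst4 s w ρ ρ' v v' .E d' (ZS .E w ρ v) Zy (NS .E w ρ v) Ny n q hK hKy hKS hρ'4 h64'
      h64 r3' (hV₁ v hv).1 (hV₂ v' hv'.1) hwn' hreg
    have h5 : Pr q (Sep s .E d' (4 * w)) ≤ B :=
      Finset.single_le_sum (f := fun d' => Pr q (Sep s .E d' (4 * w)))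
        (fun _ _ => Pr_nonneg) (Finset.mem_univ d')
    rw [le_div_iff₀ (by positivity)]
    calc Pr q (Ev3 s w ρ' v' .E (ZS .E w ρ v)) * (c₃ * c₄)
        = c₄ * (c₃ * Pr q (Ev3 s w ρ' v' .E (ZS .E w ρ v))) := by ring
      _ ≤ c₄ * Pr q (Ev3 s w ρ' v' .E (ZS .E w ρ v) ∩ Ny) := mul_le_mul_of_nonneg_left h3 hc₄.le
      _ ≤ B := h4.trans h5
  -- stage 2
  have step2 : ∀ v ∈ V₁, Pr q (Ev0 s w ρ v ∩ NS .E w ρ v ∩ Good12 s w ρ' (ZS .E w ρ v)) ≤
      4 * (32 * K₂ + 1) / (c₂ * c₃ * c₄) * B := by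
    intro v hv
    have hK := corr_straight (d := .E) (w := w) (ρ := ρ) (v := v) r1 h64 (hV₁ v hv)
    have h2 := hst2 s w ρ ρ' v .E (ZS .E w ρ v) (NS .E w ρ v) n q hK hρ'4 h64' h64 r3'
      (hV₁ v hv).1 hwn' hreg
    have h3 : Pr q (Ev2 s w ρ ρ' v .E (ZS .E w ρ v)) ≤ 4 * (32 * K₂ + 1) * (B / (c₃ * c₄)) := by
      refine (Pr_mono (oute_cover2 r1' h64' hV₂')).trans ((Pr_biUnion_le _ _).trans ?_)
      refine (Finset.sum_le_card_nsmul _ _ _ (step34 v hv)).trans ?_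
      rw [nsmul_eq_mul]
      refine mul_le_mul_of_nonneg_right ?_ (by positivity)
      refine le_trans ?_ hcard2
      exact_mod_cast Finset.card_filter_le _ _
    rw [div_mul_eq_mul_div, le_div_iff₀ (by positivity)]
    calc Pr q (Ev0 s w ρ v ∩ NS .E w ρ v ∩ Good12 s w ρ' (ZS .E w ρ v)) * (c₂ * c₃ * c₄)
        = (c₂ * Pr q (Ev0 s w ρ v ∩ NS .E w ρ v ∩ Good12 s w ρ' (ZS .E w ρ v))) * (c₃ * c₄) := by
          ring
      _ ≤ (4 * (32 * K₂ + 1) * (B / (c₃ * c₄))) * (c₃ * c₄) :=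
          mul_le_mul_of_nonneg_right (h2.trans h3) (by positivity)
      _ = 4 * (32 * K₂ + 1) * B := by field_simp
  -- stage 1
  have step1 : ∀ v ∈ V₁, Pr q (Ev0 s w ρ v) ≤
      (4 * (32 * K₂ + 1) / (c₂ * c₃ * c₄) * B +
        Pr q (Four s (2 * w)) * Pr q (BadZ w (12 * ρ') ρ)) / c₁ := by
    intro v hv
    have hK := corr_straight (d := .E) (w := w) (ρ := ρ) (v := v) r1 h64 (hV₁ v hv)
    have hN := hc₁' .E w ρ n v q r1 (by omega) r3 hwn' (hV₁ v hv) hreg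
    have h1 := stage1 (s := s) (q := q) hK r1 h64 (hV₁ v hv).1 hc₁.le hN
    have h2 : Ev0 s w ρ v ∩ NS .E w ρ v ⊆
        (Ev0 s w ρ v ∩ NS .E w ρ v ∩ Good12 s w ρ' (ZS .E w ρ v)) ∪
          (Four s (2 * w) ∩ BadZ w (12 * ρ') ρ) := by
      rintro ω ⟨h3, h4⟩
      by_cases h5 : ω ∈ Good12 s w ρ' (ZS .E w ρ v)
      · exact Or.inl ⟨⟨h3, h4⟩, h5⟩
      · exact Or.inr (bad12 hK r1' h64' h64 (hV₁ v hv).1 h3 h5)
    have h3 : Pr q (Four s (2 * w) ∩ BadZ w (12 * ρ') ρ) =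
        Pr q (Four s (2 * w)) * Pr q (BadZ w (12 * ρ') ρ) :=
      four_bad_indep (by omega) (by omega) hw1
    rw [le_div_iff₀ hc₁, mul_comm]
    refine h1.trans ((Pr_mono h2).trans (Pr_union_le.trans ?_))
    rw [h3]
    exact add_le_add (step2 v hv) le_rfl
  -- conclusion
  have h3 : Pr q (Four s (2 * w) ∩ BadZ w (11 * ρ) (4 * w)) =
      Pr q (Four s (2 * w)) * Pr q (BadZ w (11 * ρ) (4 * w)) :=
    four_bad_indep (by omega) (by omega) hw1
  have hcov := (Pr_mono (p := q) (oute_cover1 (s := s) r1 h64 hV₁ hV₁')).trans Pr_union_le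
  rw [h3] at hcov
  have hsum : Pr q (⋃ v ∈ V₁, Ev0 s w ρ v) ≤ (32 * K₁ + 1) *
      ((4 * (32 * K₂ + 1) / (c₂ * c₃ * c₄) * B +
        Pr q (Four s (2 * w)) * Pr q (BadZ w (12 * ρ') ρ)) / c₁) := by
    refine (Pr_biUnion_le _ _).trans ((Finset.sum_le_card_nsmul _ _ _ step1).trans ?_)
    rw [nsmul_eq_mul]
    refine mul_le_mul_of_nonneg_right hcard1 ?_
    have : 0 ≤ Pr q (BadZ w (12 * ρ') ρ) := Pr_nonneg
    positivity
  have hfin : (32 * (K₁ : ℝ) + 1) *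
      ((4 * (32 * K₂ + 1) / (c₂ * c₃ * c₄) * B +
        Pr q (Four s (2 * w)) * Pr q (BadZ w (12 * ρ') ρ)) / c₁) =
      (32 * K₁ + 1) / c₁ * ((4 * (32 * K₂ + 1)) / (c₂ * c₃ * c₄)) * B +
        ((32 * K₁ + 1) / c₁ * Pr q (BadZ w (12 * ρ') ρ)) * Pr q (Four s (2 * w)) := by ring
  rw [hfin] at hsum
  have h4 := mul_le_mul_of_nonneg_right hb2 hF0
  have h5 := mul_le_mul_of_nonneg_left hb1 hF0
  nlinarith [hcov, hsum, h4, h5]

/-- Transport of the bound by a symmetry. -/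
theorem oute_transport {C ε : ℝ} {w : ℕ} {q : I} (g : Gen) (d : Side)
    (h : ∀ s : Src, Pr q (Four s (8 * w) ∩ Land (g.s d) s w) ≤
      C * (∑ d' : Side, Pr q (Sep s (g.s d) d' (4 * w))) + ε * Pr q (Four s (2 * w))) (s : Src) :
    Pr q (Four s (8 * w) ∩ Land d s w) ≤
      C * (∑ d' : Side, Pr q (Sep s d d' (4 * w))) + ε * Pr q (Four s (2 * w)) := by
  have h1 := h (s.map g)
  rw [four_land_map, four_map] at h1
  have h2 : (∑ d' : Side, Pr q (Sep (s.map g) (g.s d) d' (4 * w))) =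
      ∑ d' : Side, Pr q (Sep s d d' (4 * w)) := by
    refine Finset.sum_bij' (fun d' _ => g.s d') (fun d' _ => g.s d') (fun _ _ => Finset.mem_univ _)
      (fun _ _ => Finset.mem_univ _) (fun d' _ => g.s_s d') (fun d' _ => g.s_s d') ?_
    intro d' _
    have h3 := sep_map (q := q) (s := s) (d := d) (d' := g.s d') (k := 4 * w) g
    rw [g.s_s] at h3
    exact h3
  rw [h2] at h1
  exact h1

/-- **One step of the outward separation.** -/
theorem out_step (hB : BadIn) (c ε : ℝ) (hc : 0 < c) (hε : 0 < ε) : ∃ (C : ℝ) (w₀ : ℕ), 0 < C ∧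
    ∀ (s : Src) (w n : ℕ) (q : I), w₀ ≤ w → 8 * w ≤ n → RSWreg c n q →
      Pr q (Four s (8 * w)) ≤ C * bS q s (4 * w) + ε * Pr q (Four s (2 * w)) := by
  obtain ⟨C, w₀, hC, h⟩ := outE hB c (ε / 4) hc (by positivity)
  refine ⟨C, w₀, hC, ?_⟩
  intro s w n q hw hwn hreg
  have hE : ∀ s : Src, Pr q (Four s (8 * w) ∩ Land .E s w) ≤
      C * (∑ d' : Side, Pr q (Sep s .E d' (4 * w))) + ε / 4 * Pr q (Four s (2 * w)) :=
    fun s => h s w n q hw hwn hreg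
  have hN := oute_transport (g := .sw) (d := .N) hE
  have hW := oute_transport (g := .rx) (d := .W) hE
  have hS := oute_transport (g := .ry) (d := .S) hN
  have hall : ∀ d : Side, Pr q (Four s (8 * w) ∩ Land d s w) ≤
      C * (∑ d' : Side, Pr q (Sep s d d' (4 * w))) + ε / 4 * Pr q (Four s (2 * w)) := by
    intro d
    cases d
    · exact hE s
    · exact hN s
    · exact hW s
    · exact hS s
  have h1 : Pr q (Four s (8 * w)) ≤ ∑ d : Side, Pr q (Four s (8 * w) ∩ Land d s w) := by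
    have h2 := Pr_biUnion_le (p := q) (Finset.univ : Finset Side)
      (fun d => Four s (8 * w) ∩ Land d s w)
    refine (Pr_mono ?_).trans h2
    refine four_land.trans ?_
    simp
  refine h1.trans ((Finset.sum_le_sum fun d _ => hall d).trans ?_)
  rw [Finset.sum_add_distrib, ← Finset.mul_sum, Finset.sum_const, Finset.card_univ]
  have h4 : Fintype.card Side = 4 := rfl
  rw [h4, nsmul_eq_mul]
  unfold bS
  push_cast
  linarith

end Pool.Agent.H59.EX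

end
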