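import Pool.Agent.H31.PT.M12
import Pool.Agent.H31.PT.M14
import Pool.Agent.H31.PT.M22

/-! The parts of this file: H83.SK.P57.StdDet, H83.SK.P57.StdBad, H83.SK.PHP.Frame, H83.SK.PHP.Two, H83.SK.PHP.Three, H83.SK.PHP.Bad. -/

section

/-!
# Site percolation: the standard data
-/

open MeasureTheory ProbabilityTheory unitInterval

namespace Pool.Agent.H83.SK

open Pool.Agent.H57.EX

open Pool.Agent.H89.Perc Pool.Agent.H61.NC Pool.Agent.H29.Sep

/-- The data of the planar gluing with terminals on the sphere of radius `R`. -/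
def stdS (x y : Vert) (hx : x ∈ ball 0 2) (hy : y ∈ ball 0 2) (m R : ℕ) (L T : Set Vert)
    (hm : 10 ≤ m) (hR : 64 * m ≤ R) (hL : L ⊆ sphere 0 R) (hT : T ⊆ sphere 0 R) : Dat :=
  { std m R L T hm hR hL hT with x := x, y := y, hx := hx, hy := hy }

variable {x y : Vert} {hx : x ∈ ball 0 2} {hy : y ∈ ball 0 2} {m R : ℕ} {L T : Set Vert}
  {hm : 10 ≤ m} {hR : 64 * m ≤ R} {hL : L ⊆ sphere 0 R} {hT : T ⊆ sphere 0 R}

theorem bd_stdS : (stdS x y hx hy m R L T hm hR hL hT).Bd = sphere 0 (16 * m) :=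
  bd_std (m := m) (R := R) (L := L) (T := T) (hm := hm) (hR := hR) (hL := hL) (hT := hT)

private theorem sd_mem_dom {v : Vert} {t R : ℕ} (ht : 1 ≤ t) :
    v ∈ dom t R ↔ nrm v ≤ R ∧ (t : ℤ) ≤ nrm v := by
  rw [dom, Set.mem_sdiff, mem_ball_zero, mem_ball_zero]
  constructor
  · rintro ⟨h1, h2⟩
    exact ⟨h1, by omega⟩
  · rintro ⟨h1, h2⟩
    exact ⟨h1, by omega⟩

private theorem sd_dom_anti {t t' R : ℕ} (ht : 1 ≤ t) (h : t ≤ t') : dom t' R ⊆ dom t R := by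
  intro v hv
  rw [sd_mem_dom (by omega)] at hv
  rw [sd_mem_dom ht]
  exact ⟨hv.1, by omega⟩

private theorem sd_diff_sub {t' R : ℕ} {G : Set Vert} (hG : G ⊆ ball 0 R) :
    G \ ball 0 (t' - 1) ⊆ dom t' R := fun _ hv => ⟨hG hv.1, hv.2⟩

private theorem sd_reach {ω : Config} {G : Set Vert} {t' R : ℕ} {p u : Vert} (ht : 1 ≤ t')
    (hG : G ⊆ ball 0 R) (hc : Conn ω G p u) (hp : nrm p ≤ t') (hu : (t' : ℤ) ≤ nrm u) :
    ∃ v ∈ sphere 0 t', Conn ω (dom t' R) u v := by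
  have hu' : u ∉ ball 0 (t' - 1) := by
    rw [mem_ball_zero]
    omega
  obtain ⟨v, hv, hc'⟩ := leave_sphere ht hc (mem_ball_zero.2 hp) hu'
  exact ⟨v, hv, (hc'.mono_set (sd_diff_sub hG)).symm⟩

private theorem sd_GG_sub {s n : ℕ} {γ : ℕ → Vert} (hz : zone γ n s ⊆ ball 0 (17 * m)) :
    GG (stdS x y hx hy m R L T hm hR hL hT) s γ n ⊆ ball 0 R := by
  rintro v ((hv | hv) | hv)
  · change v ∈ ball 0 (4 * m) at hv
    rw [mem_ball_zero] at hv ⊢
    push_cast at hv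
    omega
  · exact hv.1
  · have := hz hv
    rw [mem_ball_zero] at this ⊢
    push_cast at this
    omega

private theorem sd_dom_GG {s n : ℕ} {γ : ℕ → Vert} :
    dom (64 * m) R ⊆ GG (stdS x y hx hy m R L T hm hR hL hT) s γ n := by
  intro v hv
  refine Or.inl (Or.inr ?_)
  exact sd_dom_anti (t := 16 * m) (t' := 64 * m) (by omega) (by omega) hv

theorem e1_BT {s n : ℕ} {γ : ℕ → Vert} {b b' : Vert} (hz : zone γ n s ⊆ ball 0 (17 * m)) :
    E1 (stdS x y hx hy m R L T hm hR hL hT) s b b'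
        (GG (stdS x y hx hy m R L T hm hR hL hT) s γ n) ⊆ BT (64 * m) R L T := by
  rintro ω ⟨⟨u, hu1, huL⟩, _, ⟨p, hp3, hp⟩, _, _, _, _, _, hd⟩
  have hGs := sd_GG_sub (x := x) (y := y) (hx := hx) (hy := hy) (m := m) (R := R) (L := L)
    (T := T) (hm := hm) (hR := hR) (hL := hL) (hT := hT) (γ := γ) (n := n) (s := s) hz
  set G := GG (stdS x y hx hy m R L T hm hR hL hT) s γ n with hG
  change u ∈ L at huL
  change p ∈ sphere 0 (16 * m) at hp
  have huR := mem_sphere_zero.1 (hL huL)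
  rw [mem_sphere_zero] at hp
  have hxu : Conn ω G x u := mem_cl_iff.1 hu1
  have hx2 : nrm x ≤ 2 := by
    have := mem_ball_zero.1 hx
    push_cast at this
    exact this
  obtain ⟨w, hwT, hwp⟩ := hp3
  change w ∈ T at hwT
  have hwR := mem_sphere_zero.1 (hT hwT)
  refine ⟨?_, ?_⟩
  · obtain ⟨v, hv, hc⟩ := sd_reach (t' := 64 * m) (by omega) hGs hxu
      (by push_cast; omega) (by push_cast; omega)
    refine ⟨u, huL, v, hv, hc, ?_⟩
    intro z hz' hcx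
    have h1 : Conn ω G z u := (hcx.mono_set sd_dom_GG).symm
    have h2 : u ∈ cl ω G T := ⟨z, hz', h1⟩
    exact Set.disjoint_left.1 hd hu1 h2
  · obtain ⟨v, hv, hc⟩ := sd_reach (t' := 64 * m) (by omega) hGs hwp.symm
      (by push_cast at hp ⊢; omega) (by push_cast; omega)
    exact ⟨w, hwT, v, hv, hc⟩

theorem fin_sub {s n : ℕ} {γ : ℕ → Vert} (hz : zone γ n s ⊆ ball 0 (17 * m)) :
    Fin (stdS x y hx hy m R L T hm hR hL hT) s γ n ⊆ Pool.Agent.H57.EX.Four x y R := by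
  rintro ω ⟨⟨u, hu, huL⟩, w, hwT, hc⟩
  have hGs := sd_GG_sub (x := x) (y := y) (hx := hx) (hy := hy) (m := m) (R := R) (L := L)
    (T := T) (hm := hm) (hR := hR) (hL := hL) (hT := hT) (γ := γ) (n := n) (s := s) hz
  refine ⟨⟨u, hL huL, mem_cl_iff.1 hu⟩, ⟨w, hT hwT, hc.mono_set (fun v hv => hGs hv.1)⟩, ?_⟩
  intro h
  exact hc.mem_left.2 (mem_cl_iff.2 h)

/-- The four-arm probability of a source is the one with the site `0` closed. -/
theorem four_s4 (q : I) (b : Bool) (r : ℕ) : Pr q (Pool.Agent.H59.EX.Four (s4 b) r) =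
    PS q {sv 0} (Pool.Agent.H57.EX.Four (s4 b).x (s4 b).y r) := by
  have hcut : ∀ w : Config, (s4 b).cut (sit w) = sit (shut {sv 0} w) := by
    intro w
    funext e
    have hstar : e ∈ star0 ↔ (src e = 0 ∨ tgt e = 0) := by
      obtain ⟨a, c, t⟩ := e
      cases t
      · simp only [star0, Finset.mem_insert, Finset.mem_singleton, Prod.mk.injEq, src, tgt,
          Bool.false_eq_true, if_false, Prod.ext_iff, Prod.fst_zero, Prod.snd_zero, and_true,
          and_false, or_false, false_or]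
        omega
      · simp only [star0, Finset.mem_insert, Finset.mem_singleton, Prod.mk.injEq, src, tgt,
          if_true, Prod.ext_iff, Prod.fst_zero, Prod.snd_zero, and_true,
          and_false, or_false, false_or, Bool.true_eq_false]
        omega
    have hsh : ∀ v : Vert, shut {sv 0} w (sv v) = (w (sv v) && decide (v ≠ 0)) := by
      intro v
      unfold shut
      by_cases h : v = 0
      · subst h
        simp
      · have h' : sv v ∉ ({sv 0} : Finset Edge) := by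
          rw [Finset.mem_singleton]
          exact fun k => h (sv_injective k)
        simp [h, h']
    have hcutE : (s4 b).cut (sit w) e = true ↔ sit w e = true ∧ e ∉ star0 := by
      unfold Pool.Agent.H59.EX.Src.cut Pool.Agent.H59.EX.closeS
      simp [s4]
    rw [Bool.eq_iff_iff, hcutE, hstar, sit_true, sit_true, hsh, hsh]
    simp only [Bool.and_eq_true, decide_eq_true_eq, not_or, ne_eq]
    tauto
  unfold Pr PS PrE
  congr 1
  ext w
  simp only [Set.mem_ofPred_eq]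
  rw [← hcut w]
  exact Iff.rfl

end Pool.Agent.H83.SK

end

section

/-!
# The standard data: probability of the bad events
-/

open MeasureTheory ProbabilityTheory unitInterval

namespace Pool.Agent.H83.SK

open Pool.Agent.H57.EX

open Pool.Agent.H89.Perc Pool.Agent.H61.NC Pool.Agent.H29.Sep

private theorem dom_subset {t R : ℕ} : dom t R ⊆ ball 0 R := fun _ h => h.1

/-- Sites of two domains at different distances. -/
theorem hull_eIn_disjoint {R R' : ℕ} {D D' : Set Vert} (h : D ⊆ ball 0 R) (h' : D' ⊆ ball 0 R')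
    (hd : ∀ v, v ∈ D → v ∉ D') :
    Disjoint (hull (Pool.Agent.H57.EX.eIn R D)) (hull (Pool.Agent.H57.EX.eIn R' D')) := by
  refine disj_hull_of (S := D) (fun e he => (Pool.Agent.H57.EX.mem_eIn h).1 he) fun e he => ?_
  have h1 := (Pool.Agent.H57.EX.mem_eIn h').1 he
  exact ⟨fun h2 => hd _ h2 h1.1, fun h2 => hd _ h2 h1.2⟩

theorem hull_eIn_V0 {V0 : Finset Edge} (hV0 : ∀ g ∈ V0, src g ∈ ball 0 2) {t R : ℕ}
    (ht : 4 ≤ t) : Disjoint (hull (Pool.Agent.H57.EX.eIn R (dom t R))) V0 := by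
  rw [Finset.disjoint_left]
  intro g h1 h2
  have h3 := hV0 g h2
  obtain ⟨e, he, h4⟩ := mem_hull.1 h1
  have h5 := (Pool.Agent.H57.EX.mem_eIn (dom_subset (t := t))).1 he
  rcases h4 with rfl | rfl
  · exact h5.1.2 (ball_mono (by omega) h3)
  · exact h5.2.2 (ball_mono (by omega) h3)

private theorem four_bt_bad {V0 : Finset Edge} (hV0 : ∀ g ∈ V0, src g ∈ ball 0 2) {x y : Vert}
    {m R r₁ t₁ : ℕ} {L T : Set Vert} {q : I} {A : Set Config} (hm : 10 ≤ m)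
    (h1 : m < t₁) (h2 : r₁ < 64 * m)
    (hA : LocalOn (Pool.Agent.H57.EX.eIn r₁ (dom t₁ r₁)) A) :
    PS q V0 (Pool.Agent.H57.EX.Four x y m ∩ BT (64 * m) R L T ∩ A) =
      PS q V0 (Pool.Agent.H57.EX.Four x y m) * Pr q (BT (64 * m) R L T) * Pr q A := by
  classical
  have d1 : Disjoint (hull (Pool.Agent.H57.EX.eIn m (ball 0 m)))
      (hull (Pool.Agent.H57.EX.eIn r₁ (dom t₁ r₁))) := by
    apply hull_eIn_disjoint subset_rfl dom_subset
    intro v hv hv'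
    apply hv'.2
    exact ball_mono (by omega) hv
  have d2 : Disjoint (hull (Pool.Agent.H57.EX.eIn m (ball 0 m)))
      (hull (Pool.Agent.H57.EX.eIn R (dom (64 * m) R))) := by
    apply hull_eIn_disjoint subset_rfl dom_subset
    intro v hv hv'
    apply hv'.2
    exact ball_mono (by omega) hv
  have d3 : Disjoint (hull (Pool.Agent.H57.EX.eIn R (dom (64 * m) R)))
      (hull (Pool.Agent.H57.EX.eIn r₁ (dom t₁ r₁))) := by
    apply hull_eIn_disjoint dom_subset dom_subset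
    intro v hv hv'
    apply hv.2
    exact ball_mono (by omega) hv'.1
  have hFB : LocalOn (Pool.Agent.H57.EX.eIn m (ball 0 m) ∪ Pool.Agent.H57.EX.eIn R (dom (64 * m) R))
      (Pool.Agent.H57.EX.Four x y m ∩ BT (64 * m) R L T) := localOn_four.inter' localOn_BT
  have hu : Disjoint (hull (Pool.Agent.H57.EX.eIn m (ball 0 m) ∪
      Pool.Agent.H57.EX.eIn R (dom (64 * m) R))) (hull (Pool.Agent.H57.EX.eIn r₁ (dom t₁ r₁))) := by
    rw [Finset.disjoint_left]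
    intro g g1 g2
    obtain ⟨e, he, g3⟩ := mem_hull.1 g1
    rcases Finset.mem_union.1 he with he | he
    · exact Finset.disjoint_left.1 d1 (mem_hull.2 ⟨e, he, g3⟩) g2
    · exact Finset.disjoint_left.1 d3 (mem_hull.2 ⟨e, he, g3⟩) g2
  rw [PS_inter hFB hA hu, PS_inter localOn_four localOn_BT d2,
    PS_eq localOn_BT (hull_eIn_V0 hV0 (by omega)), PS_eq hA (hull_eIn_V0 hV0 (by omega))]

/-- Probability of the bad events together with four arms inside and outside. -/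
theorem bad_std (hI : BadIn) (hO : BadOut) : ∀ c : ℝ, 0 < c → ∃ C κ : ℝ, 0 < C ∧ 0 < κ ∧
    ∀ (V0 : Finset Edge) (x y : Vert) (m R n t ρ : ℕ) (q : I) (L T : Set Vert),
      (∀ g ∈ V0, src g ∈ ball 0 2) → 10 ≤ m → 64 * m ≤ R → R ≤ n →
      RSWreg c n q → 1 ≤ t → t ≤ ρ → ρ ≤ 2 * m →
      PS q V0 (Pool.Agent.H57.EX.Four x y m ∩ BT (64 * m) R L T ∩
          ({ω | ∃ z ∈ sphere 0 (4 * m), ω ∈ LocTwo (ball 0 (4 * m)) z t ρ} ∪
            {ω | ∃ z ∈ sphere 0 (16 * m), ω ∈ LocTwo (dom (16 * m) R) z t ρ})) ≤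
        C * ((m : ℝ) / ρ) * ((t : ℝ) / ρ) ^ κ * (PS q V0 (Pool.Agent.H57.EX.Four x y m) * Pr q (BT (64 * m) R L T)) := by
  intro c hc
  obtain ⟨C₁, κ₁, hC₁, hκ₁, H₁⟩ := hI c hc
  obtain ⟨C₂, κ₂, hC₂, hκ₂, H₂⟩ := hO c hc
  refine ⟨4 * C₁ + 16 * C₂, min κ₁ κ₂, by positivity, lt_min hκ₁ hκ₂, ?_⟩
  intro V0 x y m R n t ρ q L T hV0 hm hR hn hreg ht htρ hρ
  have hρ0 : (0 : ℝ) < ρ := by
    have : 0 < ρ := by omega
    exact_mod_cast this
  have ht0 : (0 : ℝ) < t := by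
    have : 0 < t := by omega
    exact_mod_cast this
  have hx0 : (0 : ℝ) < (t : ℝ) / ρ := div_pos ht0 hρ0
  have hx1 : (t : ℝ) / ρ ≤ 1 := by
    rw [div_le_one hρ0]
    exact_mod_cast htρ
  have ha4 : 0 ≤ PS q V0 (Pool.Agent.H57.EX.Four x y m) * Pr q (BT (64 * m) R L T) :=
    mul_nonneg PS_nonneg Pr_nonneg
  have hpw₁ : ((t : ℝ) / ρ) ^ κ₁ ≤ ((t : ℝ) / ρ) ^ (min κ₁ κ₂) :=
    Real.rpow_le_rpow_of_exponent_ge hx0 hx1 (min_le_left _ _)
  have hpw₂ : ((t : ℝ) / ρ) ^ κ₂ ≤ ((t : ℝ) / ρ) ^ (min κ₁ κ₂) :=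
    Real.rpow_le_rpow_of_exponent_ge hx0 hx1 (min_le_right _ _)
  have e1 : Pr q {ω | ∃ z ∈ sphere 0 (4 * m), ω ∈ LocTwo (ball 0 (4 * m)) z t ρ} ≤
      4 * C₁ * ((m : ℝ) / ρ) * ((t : ℝ) / ρ) ^ (min κ₁ κ₂) := by
    have h := H₁ n t ρ (4 * m) q ht htρ (by omega) (by omega) hreg
    refine h.trans ?_
    have h2 : C₁ * (((4 * m : ℕ) : ℝ) / ρ) = 4 * C₁ * ((m : ℝ) / ρ) := by
      push_cast
      ring
    rw [h2]
    exact mul_le_mul_of_nonneg_left hpw₁ (by positivity)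
  have e2 : Pr q {ω | ∃ z ∈ sphere 0 (16 * m), ω ∈ LocTwo (dom (16 * m) R) z t ρ} ≤
      16 * C₂ * ((m : ℝ) / ρ) * ((t : ℝ) / ρ) ^ (min κ₁ κ₂) := by
    have h := H₂ n t ρ (16 * m) q ht htρ (by omega) (by omega) hreg
    have h3 : {ω | ∃ z ∈ sphere 0 (16 * m), ω ∈ LocTwo (dom (16 * m) R) z t ρ} =
        {ω | ∃ z ∈ sphere 0 (16 * m), ω ∈ LocTwo (ball 0 (16 * m - 1))ᶜ z t ρ} := by
      ext ω
      constructor
      · rintro ⟨z, hz, h⟩
        exact ⟨z, hz, locTwo_out_eq hR hρ hz ▸ h⟩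
      · rintro ⟨z, hz, h⟩
        exact ⟨z, hz, (locTwo_out_eq hR hρ hz).symm ▸ h⟩
    rw [h3]
    refine h.trans ?_
    have h2 : C₂ * (((16 * m : ℕ) : ℝ) / ρ) = 16 * C₂ * ((m : ℝ) / ρ) := by
      push_cast
      ring
    rw [h2]
    exact mul_le_mul_of_nonneg_left hpw₂ (by positivity)
  rw [Set.inter_union_distrib_left]
  refine PS_union_le.trans ?_
  rw [four_bt_bad hV0 hm (by omega) (by omega) (localOn_locTwo_in hρ),
    four_bt_bad hV0 hm (by omega) (by omega) (localOn_locTwo_out hρ)]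
  have := mul_le_mul_of_nonneg_left e1 ha4
  have := mul_le_mul_of_nonneg_left e2 ha4
  nlinarith

end Pool.Agent.H83.SK

end

section

/-!
# The two-cluster event in the four half planes at an arbitrary point
-/

open MeasureTheory ProbabilityTheory unitInterval

namespace Pool.Agent.H83.SK

open Pool.Agent.H26.HP

open Pool.Agent.H89.Perc

open Pool.Agent.H29.Sep (LocTwo)

variable {ω ω' : Config} {D X S T : Set Vert} {R n r s : ℕ} {q : I} {c : ℝ}

/-- Invariance under a symmetry of the lattice. -/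
theorem Pr_locTwo_map {φ : Edge → Edge} (hφ : IsAut φ) {f g : Vert → Vert}
    (hfg : ∀ w, f (g w) = w) (_hgf : ∀ w, g (f w) = w)
    (hconn : ∀ (ω : Config) (S : Set Vert) (u v : Vert), Conn (fun e => ω (φ e)) S u v ↔
      Conn ω {w | g w ∈ S} (f u) (f v))
    (hball : ∀ (z w : Vert) (t : ℕ), f w ∈ ball (f z) t ↔ w ∈ ball z t)
    (hsph : ∀ (z w : Vert) (t : ℕ), f w ∈ sphere (f z) t ↔ w ∈ sphere z t)
    (D : Set Vert) (z : Vert) (t ρ : ℕ) :
    Pr q (LocTwo {w | g w ∈ D} (f z) t ρ) = Pr q (LocTwo D z t ρ) := by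
  obtain ⟨E, hE⟩ := localOn_locTwo D z t ρ
  rw [← Pr_comp hE hφ]
  congr 1
  have hset : {w | g w ∈ D ∩ ball z ρ} = {w | g w ∈ D} ∩ ball (f z) ρ := by
    ext w
    simp only [Set.mem_ofPred_eq, Set.mem_inter_iff]
    rw [← hball z (g w) ρ, hfg]
  ext ω
  simp only [LocTwo, Set.mem_ofPred_eq]
  constructor
  · rintro ⟨u, hu, u', hu', v, hv, v', hv', h1, h2, h3⟩
    refine ⟨g u, ?_, g u', ?_, g v, ?_, g v', ?_, ?_, ?_, ?_⟩
    · rwa [← hball, hfg]
    · rwa [← hball, hfg]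
    · rwa [← hsph, hfg]
    · rwa [← hsph, hfg]
    · rw [hconn, hset, hfg, hfg]; exact h1
    · rw [hconn, hset, hfg, hfg]; exact h2
    · rw [hconn, hset, hfg, hfg]; exact h3
  · rintro ⟨u, hu, u', hu', v, hv, v', hv', h1, h2, h3⟩
    rw [hconn, hset] at h1 h2 h3
    exact ⟨f u, (hball _ _ _).2 hu, f u', (hball _ _ _).2 hu', f v, (hsph _ _ _).2 hv, f v',
      (hsph _ _ _).2 hv', h1, h2, h3⟩

theorem Pr_locTwo_shift (a : Vert) (D : Set Vert) (z : Vert) (t ρ : ℕ) :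
    Pr q (LocTwo {w | (w.1 - a.1, w.2 - a.2) ∈ D} (z.1 + a.1, z.2 + a.2) t ρ) =
      Pr q (LocTwo D z t ρ) := by
  refine Pr_locTwo_map (φ := shiftE a) (isAut_shift a) (f := fun w => (w.1 + a.1, w.2 + a.2))
    (g := fun w => (w.1 - a.1, w.2 - a.2)) ?_ ?_ ?_ ?_ ?_ D z t ρ
  · intro w; ext <;> simp
  · intro w; ext <;> simp
  · intro ω S u v
    exact conn_shift a S u v
  · intro z w t
    simp only [mem_ball]
    omega
  · intro z w t
    simp only [sphere, Set.mem_ofPred_eq, mem_ball]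
    omega

theorem Pr_locTwo_reflY (D : Set Vert) (z : Vert) (t ρ : ℕ) :
    Pr q (LocTwo {w | (w.1, 0 - w.2) ∈ D} (z.1, 0 - z.2) t ρ) =
      Pr q (LocTwo D z t ρ) := by
  refine Pr_locTwo_map (φ := reflY 0) (isAut_reflY 0) (f := fun w => (w.1, 0 - w.2))
    (g := fun w => (w.1, 0 - w.2)) ?_ ?_ ?_ ?_ ?_ D z t ρ
  · intro w; ext <;> simp
  · intro w; ext <;> simp
  · intro ω S u v
    exact conn_reflY 0 S u v
  · intro z w t
    simp only [mem_ball]
    omega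
  · intro z w t
    simp only [sphere, Set.mem_ofPred_eq, mem_ball]
    omega

theorem Pr_locTwo_swap (D : Set Vert) (z : Vert) (t ρ : ℕ) :
    Pr q (LocTwo {w | (w.2, w.1) ∈ D} (z.2, z.1) t ρ) = Pr q (LocTwo D z t ρ) := by
  refine Pr_locTwo_map (φ := swapE) isAut_swap (f := fun w => (w.2, w.1))
    (g := fun w => (w.2, w.1)) ?_ ?_ ?_ ?_ ?_ D z t ρ
  · intro w; rfl
  · intro w; rfl
  · intro ω S u v
    exact conn_swap S u v
  · intro z w t
    simp only [mem_ball]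
    omega
  · intro z w t
    simp only [sphere, Set.mem_ofPred_eq, mem_ball]
    omega

theorem Pr_locTwo_up (z : Vert) (t ρ : ℕ) :
    Pr q (LocTwo {v | z.2 ≤ v.2} z t ρ) = Pr q (U t ρ) := by
  have h := Pr_locTwo_shift (q := q) z up 0 t ρ
  rw [locTwo_up_zero] at h
  rw [← h]
  congr 1
  have e1 : {w : Vert | (w.1 - z.1, w.2 - z.2) ∈ up} = {v | z.2 ≤ v.2} := by
    ext w
    simp only [up, Set.mem_ofPred_eq, sub_nonneg]
  have e2 : ((0 : Vert).1 + z.1, (0 : Vert).2 + z.2) = z := by ext <;> simp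
  rw [e1, e2]

theorem Pr_locTwo_down (z : Vert) (t ρ : ℕ) :
    Pr q (LocTwo {v | v.2 ≤ z.2} z t ρ) = Pr q (U t ρ) := by
  have h := Pr_locTwo_reflY (q := q) {v | (0 - z.2) ≤ v.2} (z.1, 0 - z.2) t ρ
  rw [Pr_locTwo_up (z.1, 0 - z.2)] at h
  rw [← h]
  congr 1
  have e1 : {w : Vert | (w.1, 0 - w.2) ∈ {v : Vert | (0 - z.2) ≤ v.2}} = {v | v.2 ≤ z.2} := by
    ext w
    simp only [Set.mem_ofPred_eq]
    omega
  have e2 : ((z.1, 0 - z.2).1, 0 - (z.1, 0 - z.2).2) = z := by ext <;> simp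
  rw [e1, e2]

theorem Pr_locTwo_right (z : Vert) (t ρ : ℕ) :
    Pr q (LocTwo {v | z.1 ≤ v.1} z t ρ) = Pr q (U t ρ) := by
  have h := Pr_locTwo_swap (q := q) {v | z.1 ≤ v.2} (z.2, z.1) t ρ
  rw [Pr_locTwo_up (z.2, z.1)] at h
  rw [← h]
  congr 1

theorem Pr_locTwo_left (z : Vert) (t ρ : ℕ) :
    Pr q (LocTwo {v | v.1 ≤ z.1} z t ρ) = Pr q (U t ρ) := by
  have h := Pr_locTwo_swap (q := q) {v | v.2 ≤ z.1} (z.2, z.1) t ρ
  rw [Pr_locTwo_down (z.2, z.1)] at h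
  rw [← h]
  congr 1

end Pool.Agent.H83.SK

end

section

/-!
# Half plane: clusters which cross a half annulus and avoid one side of the base
-/

open MeasureTheory ProbabilityTheory unitInterval

namespace Pool.Agent.H83.SK

open Pool.Agent.H26.HP

open Pool.Agent.H89.Perc

variable {ω ω' : Config} {D X S : Set Vert} {R n r s : ℕ} {q : I} {c : ℝ}

/-- Auxiliary event. -/
def BR' (s r : ℕ) : Set Config :=
  {ω | (∀ y ∈ clus ω (hb 0 r) (XR s r), y ∉ ball 0 (2 * s + 1)) ∧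
    ∃ u ∈ ball 0 s, ∃ w ∈ sphere 0 r, Conn ω (hb 0 r) u w}

lemma ne_of_sphere {t r : ℕ} (h : t < r) {v w : Vert} (hv : v ∈ ball 0 t) (hw : w ∈ sphere 0 r) :
    v ≠ w := fun e => not_mem_ball_of_sphere h hw (e ▸ hv)

theorem two_step1 (hc : 0 < c) (hs : 1 ≤ s) (hr : 32 * s ≤ r) (hreg : RSWreg c r q) :
    c ^ 4 * EN q (hb 0 r) (FR s r) ≤ Pr q (BR' s r) := by
  have hDR : hb 0 r ⊆ ball 0 r := hb_subset_ball (by simp)
  have h16 : hb 0 (16 * s) ⊆ hb 0 r := hb_subset_hb (by simp; omega)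
  refine EN_le (G := fun S => {ω | ¬ ∃ u ∈ ball 0 (2 * s + 1), ∃ w ∈ sphere 0 (16 * s),
    Conn ω (hb 0 (16 * s) \ nb (hb 0 r) S) u w}) hDR ?_ ?_ ?_ ?_
  · rintro S ω ω' hω h1 ⟨u, hu, w, hw, h2⟩
    refine h1 ⟨u, hu, w, hw, ?_⟩
    refine Conn.congr (fun e h3 h4 => (hω e ?_).symm) h2
    exact mem_eIn.2 ⟨mem_eBall.2 (hDR (h16 h3.1)), ⟨h16 h3.1, h3.2⟩, ⟨h16 h4.1, h4.2⟩⟩
  · intro T _
    refine (hnoCross_reg hc (rswreg_mono hreg (m := 16 * s) (by omega)) (s := 2 * s + 1)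
      (r := 16 * s) (by omega) (by omega) le_rfl).trans (Pr_mono ?_)
    rintro ω hω ⟨u, hu, w, hw, h2⟩
    refine hω ⟨u, hu, w, hw, h2.mono_set ?_⟩
    exact fun v hv => hv.1.1
  · intro ω T hT T' hT' h1 h2 h3 h4
    rw [mem_FR] at hT hT'
    by_contra hne
    obtain ⟨⟨v, hv, hvb⟩, ⟨w, hw, hws⟩, _⟩ := hT'.2
    obtain ⟨⟨v1, hv1, hvb1⟩, ⟨w1, hw1, hws1⟩, _⟩ := hT.2
    have hvT : v ∉ (↑T : Set Vert) := by
      intro h
      have := isClus_unique h1 h3 h hv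
      exact hne (by exact_mod_cast this)
    have h5 := isClus_offU h1 hv1 hw1 (ne_of_sphere (by omega) hvb1 hws1) hvT
      (ne_of_sphere (by omega) hvb hws) (isClus_conn h3 hv hw)
    obtain ⟨x, hx, h6⟩ := h5.to_sphere (v := 0) (r := 16 * s)
      (ball_subset_ball (by omega) hvb) (Or.inl (not_mem_ball_of_sphere (by omega) hws))
    refine h2 ⟨v, ball_subset_ball (by omega) hvb, x, hx, h6.mono_set ?_⟩
    exact fun z hz => ⟨⟨hz.2, hz.1.1.2⟩, hz.1.2⟩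
  · intro ω T hT h1 h2
    rw [mem_FR] at hT
    obtain ⟨⟨v, hv, hvb⟩, ⟨w, hw, hws⟩, h3⟩ := hT.2
    have hvw : v ≠ w := ne_of_sphere (by omega) hvb hws
    have key : ∀ y ∈ clus (sit ω) (hb 0 r) (XR s r), y ∉ ball 0 (2 * s + 1) := by
      rintro y ⟨x, hx, h4⟩ hy
      have hxT : x ∉ (↑T : Set Vert) := by
        have := h3 x.1 hx.2.1 hx.2.2
        have e : (x.1, (0 : ℤ)) = x := by rw [← hx.1]
        rwa [e] at this
      have hx16 : x ∉ ball 0 (16 * s) := by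
        intro hb
        simp only [mem_ball, Prod.fst_zero, Prod.snd_zero] at hb
        have := hx.2.1
        push_cast at hb
        omega
      have hxy : x ≠ y := by
        rintro rfl
        exact hx16 (ball_subset_ball (by omega) hy)
      have h5 := (isClus_offU h1 hv hw hvw hxT hxy h4).symm
      obtain ⟨x', hx', h6⟩ := h5.to_sphere (v := 0) (r := 16 * s)
        (ball_subset_ball (by omega) hy) (Or.inl hx16)
      refine h2 ⟨y, hy, x', hx', h6.mono_set ?_⟩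
      exact fun z hz => ⟨⟨hz.2, hz.1.1.2⟩, hz.1.2⟩
    exact ⟨key, v, hvb, w, hws, isClus_conn h1 hv hw⟩

theorem two_step2 (hc : 0 < c) (hs : 1 ≤ s) (hr : 32 * s ≤ r) (hreg : RSWreg c r q) :
    c ^ 3 * Pr q (BR' s r) ≤ Pr q (TR s r) := by
  classical
  have hDR : hb 0 r ⊆ ball 0 r := hb_subset_ball (by simp)
  have h2s : hb 0 (2 * s) ⊆ hb 0 r := hb_subset_hb (by simp; omega)
  set A' : Set Vert → Set Vert → Set Config := fun S U => {ω | (∀ y ∈ S, y ∉ ball 0 (2 * s + 1)) ∧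
    ∃ u ∈ ball 0 s, ∃ w ∈ sphere 0 r, Conn ω (hb 0 r \ U) u w} with hA'
  have lA : ∀ S U, LocalOn (eIn r (hb 0 r \ U)) (A' S U) := by
    rintro S U ω ω' hω ⟨h1, u, hu, w, hw, h2⟩
    exact ⟨h1, u, hu, w, hw,
      localOn_conn_in (Set.sdiff_subset.trans hDR) _ _ ω ω' hω h2⟩
  have hfar : ∀ S U : Set Vert, (∀ v ∈ U, v ∈ S ∨ ∃ a ∈ S, Adj a v) →
      (∀ y ∈ S, y ∉ ball 0 (2 * s + 1)) → hb 0 (2 * s) ⊆ hb 0 r \ U := by
    intro S U hU hS v hv
    refine ⟨h2s hv, fun hvU => ?_⟩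
    rcases hU v hvU with h | ⟨a, ha, hav⟩
    · exact hS v h (ball_subset_ball (by omega) hv.1)
    · apply hS a ha
      have h1 := adj_ball hav
      have h2 := hv.1
      simp only [mem_ball, Prod.fst_zero, Prod.snd_zero] at h1 h2 ⊢
      push_cast at h1 h2 ⊢
      omega
  refine explore (X := XR s r) (A' := A')
    (G := fun S U => {ω | ((∀ v ∈ U, v ∈ S ∨ ∃ a ∈ S, Adj a v) ∧
      ∀ y ∈ S, y ∉ ball 0 (2 * s + 1)) ∧ ω ∈ A' S U ∧ ω ∈ HC s}) hDR (by positivity)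
    ?_ lA ?_ ?_ ?_
  · rintro w ⟨h1, u, hu, x, hx, h2⟩
    exact ⟨h1, u, hu, x, hx, conn_offU (fun h => h1 u h (ball_subset_ball (by omega) hu))
      (ne_of_sphere (by omega) hu hx) h2⟩
  · rintro S U ω ω' hω ⟨h1, h2, h3⟩
    refine ⟨h1, lA S U ω ω' hω h2, ?_⟩
    exact localOn_HC (Set.sdiff_subset.trans hDR) (hfar S U h1.1 h1.2) ω ω' hω h3
  · intro S U hU
    by_cases hS : ∀ y ∈ S, y ∉ ball 0 (2 * s + 1)
    · have hHC : LocalOn (eIn r (hb 0 r \ U)) (HC s) :=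
        localOn_HC (Set.sdiff_subset.trans hDR) (hfar S U hU hS)
      have iA : Incr (A' S U) := by
        rintro ω ω' hω ⟨h1, u, hu, w, hw, h2⟩
        exact ⟨h1, u, hu, w, hw, h2.mono le_rfl hω⟩
      have h1 := fkg (p := q) (lA S U) hHC iA (incr_HC s)
      have h2 := hHC_ge hc hs (rswreg_mono hreg (m := s) (by omega))
      calc c ^ 3 * Pr q (A' S U) = Pr q (A' S U) * c ^ 3 := mul_comm _ _
        _ ≤ Pr q (A' S U) * Pr q (HC s) := mul_le_mul_of_nonneg_left h2 Pr_nonneg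
        _ ≤ Pr q (A' S U ∩ HC s) := h1
        _ ≤ _ := by
            refine Pr_mono fun ω hω => ?_
            exact ⟨⟨hU, hS⟩, hω.1, hω.2⟩
    · have e1 : A' S U = ∅ := by
        ext ω
        simp only [hA', Set.mem_ofPred_eq, Set.mem_empty_iff_false, iff_false]
        exact fun h => hS h.1
      rw [e1, Pr_empty, mul_zero]
      exact Pr_nonneg
  · rintro ω ⟨⟨-, h1⟩, ⟨_, u, hu, w, hw, h2⟩, h3⟩
    obtain ⟨w0, h4, b, h5, h6, h7⟩ := HC_meet hs h3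
      (S := hb 0 r \ Ucl ω (hb 0 r) (XR s r)) (fun v hv => hv.1.2) h2 hu
      (Or.inl (not_mem_ball_of_sphere (by omega) hw))
    have h8 : Conn (sit ω) (hb 0 r) (b, 0) w0 := h7.mono_set h2s
    refine ⟨b, h5, h6, ⟨w, hw, ?_⟩, fun x h9 h10 h11 => ?_⟩
    · exact h8.trans ((h4.symm.trans h2).mono_set Set.sdiff_subset)
    · refine h1 (b, 0) ⟨(x, 0), ⟨rfl, h9, h10⟩, h11.symm⟩ ?_
      simp only [mem_ball, Prod.fst_zero, Prod.snd_zero]
      push_cast
      omega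

theorem two_step3 (hc : 0 < c) (hs : 1 ≤ s) (hr : 32 * s ≤ r) (hreg : RSWreg c r q) :
    Pr q (TR s r) ≤ 594 / c ^ 4 * (s / r) := by
  classical
  have hsub : TR s r ⊆ ⋃ z ∈ Finset.Icc (-(16 * s : ℤ)) (16 * s), E1 (r - 16 * s) z := by
    rintro ω ⟨b, h1, h2, ⟨w, hw, h3⟩, h4⟩
    -- the rightmost point of the cluster on the base
    set P : Finset ℤ := (Finset.Icc b (16 * s)).filter
      (fun x => Conn ω (hb 0 r) (b, 0) (x, 0)) with hP
    have hbD : ((b, 0) : Vert) ∈ hb 0 r := h3.mem_left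
    have hne : P.Nonempty := ⟨b, by
      rw [hP, Finset.mem_filter, Finset.mem_Icc]
      exact ⟨⟨le_rfl, by omega⟩, Conn.refl hbD⟩⟩
    obtain ⟨z, hz, hmax⟩ := P.exists_max_image id hne
    rw [hP, Finset.mem_filter, Finset.mem_Icc] at hz
    simp only [Set.mem_iUnion, Finset.mem_Icc]
    have habs : |(0 : ℤ) - z| + ((r - 16 * s : ℕ) : ℤ) ≤ r := by
      rcases abs_cases ((0 : ℤ) - z) with ⟨h4, h5⟩ | ⟨h4, h5⟩ <;> rw [h4] <;> omega
    refine ⟨z, ⟨by omega, hz.1.2⟩, ?_, fun x h5 h6 h7 => ?_⟩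
    · refine reach_restrict habs ?_ hw (hz.2.symm.trans h3)
      simp only [mem_ball]
      omega
    · have h8 : Conn ω (hb 0 r) (b, 0) (x, 0) := hz.2.trans (h7.mono_set (hb_subset_hb habs))
      by_cases h9 : x ≤ 16 * s
      · have := hmax x (by
          rw [hP, Finset.mem_filter, Finset.mem_Icc]
          exact ⟨⟨by omega, h9⟩, h8⟩)
        simp only [id] at this
        omega
      · refine h4 x (by omega) ?_ h8
        have := h8.mem_right
        rw [mem_hb] at this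
        simp only at this
        omega
  have hR1 : 1 ≤ r - 16 * s := by omega
  have hr0 : (0 : ℝ) < r := by
    have : 0 < r := by omega
    exact_mod_cast this
  have hs1 : (1 : ℝ) ≤ s := by exact_mod_cast hs
  have hR2 : (r : ℝ) / 2 ≤ ((r - 16 * s : ℕ) : ℝ) := by
    have : r ≤ 2 * (r - 16 * s) := by omega
    have : (r : ℝ) ≤ 2 * ((r - 16 * s : ℕ) : ℝ) := by exact_mod_cast this
    linarith
  calc Pr q (TR s r) ≤ ∑ z ∈ Finset.Icc (-(16 * s : ℤ)) (16 * s), Pr q (E1 (r - 16 * s) z) :=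
        (Pr_mono hsub).trans (Pr_biUnion_le _ _)
    _ ≤ ∑ _z ∈ Finset.Icc (-(16 * s : ℤ)) (16 * s), 9 / (c ^ 4 * (r / 2)) := by
        refine Finset.sum_le_sum fun z _ => ?_
        refine (E1_le hc hR1 (rswreg_mono hreg (by omega)) z).trans ?_
        have : 0 < c ^ 4 := by positivity
        exact div_le_div_of_nonneg_left (by norm_num) (by positivity)
          (mul_le_mul_of_nonneg_left hR2 this.le)
    _ = (32 * s + 1) * (9 / (c ^ 4 * (r / 2))) := by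
        rw [Finset.sum_const, Int.card_Icc, nsmul_eq_mul]
        congr 1
        have : ((16 * s : ℤ) + 1 - -(16 * s : ℤ)).toNat = 32 * s + 1 := by omega
        rw [this]
        push_cast
        ring
    _ ≤ (33 * s) * (9 / (c ^ 4 * (r / 2))) := by
        refine mul_le_mul_of_nonneg_right (by linarith) (by positivity)
    _ = 594 / c ^ 4 * (s / r) := by
        field_simp
        ring

/-- **(H2)** The expected number of clusters which join `ball 0 s` to distance `r` in the half ball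
and avoid the base to the right of `16 s` is at most `C s / r`. -/
theorem EN_right (hc : 0 < c) (hs : 1 ≤ s) (hr : 32 * s ≤ r) (hreg : RSWreg c r q) :
    EN q (hb 0 r) (FR s r) ≤ 594 / c ^ 11 * (s / r) := by
  have h1 := two_step1 (q := q) hc hs hr hreg
  have h2 := two_step2 (q := q) hc hs hr hreg
  have h3 := two_step3 (q := q) hc hs hr hreg
  have hc7 : 0 < c ^ 7 := by positivity
  have h4 : c ^ 7 * EN q (hb 0 r) (FR s r) ≤ 594 / c ^ 4 * (s / r) := by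
    calc c ^ 7 * EN q (hb 0 r) (FR s r) = c ^ 3 * (c ^ 4 * EN q (hb 0 r) (FR s r)) := by ring
      _ ≤ c ^ 3 * Pr q (BR' s r) := mul_le_mul_of_nonneg_left h1 (by positivity)
      _ ≤ Pr q (TR s r) := h2
      _ ≤ _ := h3
  calc EN q (hb 0 r) (FR s r) = (c ^ 7 * EN q (hb 0 r) (FR s r)) / c ^ 7 := by field_simp
    _ ≤ (594 / c ^ 4 * (s / r)) / c ^ 7 := by gcongr
    _ = 594 / c ^ 11 * (s / r) := by field_simp

end Pool.Agent.H83.SK

end

section

/-!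
# Half plane: two disjoint crossing clusters

`U s r`: two different clusters of the half ball of radius `r` join `ball 0 s` to distance `r`.
Its probability is at most `C (s / r) ^ (1 + κ)`.
-/

open MeasureTheory ProbabilityTheory unitInterval

namespace Pool.Agent.H83.SK

open Pool.Agent.H26.HP

open Pool.Agent.H89.Perc hiding rho

variable {ω ω' : Config} {D X S T : Set Vert} {R n r s : ℕ} {q : I} {c : ℝ}

/-! ### Reflection -/

lemma Pr_isClus_rho : Pr q (IsClus (hb 0 r) (rho '' S)) = Pr q (IsClus (hb 0 r) S) := by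
  rw [← isClus_rho, Pr_comp (localOn_isClus (R := r) (hb_subset_ball (by simp)))
    (isAut_reflX 0)]

theorem EN_left (hc : 0 < c) (hs : 1 ≤ s) (hr : 32 * s ≤ r) (hreg : RSWreg c r q) :
    EN q (hb 0 r) (FL s r) ≤ 594 / c ^ 11 * (s / r) := by
  classical
  have h1 : ∀ T : Finset Vert, (↑(T.image rho) : Set Vert) = rho '' ↑T := fun T => by simp
  have h2 : ∀ T : Finset Vert, (T.image rho).image rho = T := by
    intro T
    rw [Finset.image_image]
    have : rho ∘ rho = id := by funext v; exact rho_rho v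
    rw [this, Finset.image_id]
  have h3 : ∀ T : Finset Vert, T ⊆ bF r → T.image rho ⊆ bF r := by
    intro T hT v hv
    rw [Finset.mem_image] at hv
    obtain ⟨w, hw, rfl⟩ := hv
    rw [mem_bF, rho_mem_ball, ← mem_bF]
    exact hT hw
  have h4 : EN q (hb 0 r) (FL s r) = EN q (hb 0 r) (FR s r) := by
    rw [EN, EN]
    refine Finset.sum_nbij' (fun T => T.image rho) (fun T => T.image rho) ?_ ?_ ?_ ?_ ?_
    · intro T hT
      rw [mem_FL] at hT
      rw [mem_FR, h1]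
      exact ⟨h3 T hT.1, PhiL_iff.1 hT.2⟩
    · intro T hT
      rw [mem_FR] at hT
      rw [mem_FL, PhiL_iff, ← h1, h2]
      exact ⟨h3 T hT.1, hT.2⟩
    · intro T _
      exact h2 T
    · intro T _
      exact h2 T
    · intro T _
      rw [h1, Pr_isClus_rho]
  rw [h4]
  exact EN_right hc hs hr hreg

/-! ### Planarity -/

/-! ### Two clusters -/

/-- There is a crossing off the neighbourhood of `S`. -/
def GG' (s r : ℕ) (S : Set Vert) : Set Config :=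
  {ω | ∃ u ∈ ball 0 s, ∃ w ∈ sphere 0 r, Conn ω (hb 0 r \ nb (hb 0 r) S) u w}

lemma GG_imp {w : Config} {T : Set Vert} (hsr : s < r) (h : sit w ∈ IsClus (hb 0 r) T)
    (h1 : ∃ v ∈ T, v ∈ ball 0 s) (h2 : ∃ x ∈ T, x ∈ sphere 0 r) (hG : sit w ∈ GG s r T) :
    sit w ∈ GG' s r T := by
  obtain ⟨u, hu, x, hx, hc⟩ := hG
  obtain ⟨v, hv, hvb⟩ := h1
  obtain ⟨y, hy, hys⟩ := h2
  refine ⟨u, hu, x, hx, ?_⟩
  exact isClus_offU h hv hy (ne_of_sphere hsr hvb hys) hc.mem_left.2 (ne_of_sphere hsr hu hx)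
    (hc.mono_set Set.sdiff_subset)

lemma U_cases' {w : Config} (hr : 1 ≤ r) (hsr : s < r) (h : sit w ∈ U s r) :
    (∃ T ∈ FR s r, sit w ∈ IsClus (hb 0 r) ↑T ∧ sit w ∈ GG' s r ↑T) ∨
    (∃ T ∈ FL s r, sit w ∈ IsClus (hb 0 r) ↑T ∧ sit w ∈ GG' s r ↑T) := by
  rcases U_cases hr h with ⟨T, hT, h1, h2⟩ | ⟨T, hT, h1, h2⟩
  · have h3 := (mem_FR.1 hT).2
    exact Or.inl ⟨T, hT, h1, GG_imp hsr h1 h3.1 h3.2.1 h2⟩
  · have h3 := (mem_FL.1 hT).2
    exact Or.inr ⟨T, hT, h1, GG_imp hsr h1 h3.1 h3.2.1 h2⟩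

/-- **(H3)** Two disjoint clusters crossing a half annulus. -/
theorem U_le (c : ℝ) (hc : 0 < c) : ∃ C κ : ℝ, 0 < C ∧ 0 < κ ∧ κ ≤ 1 ∧
    ∀ (n : ℕ) (q : I), RSWreg c n q → ∀ s r : ℕ, 1 ≤ s → s ≤ r → r ≤ n →
      Pr q (U s r) ≤ C * ((s : ℝ) / r) ^ (1 + κ) := by
  obtain ⟨C, κ, hC, hκ, hκ1, hdec⟩ := hdecay c hc
  refine ⟨max (1188 / c ^ 11 * C) (32 ^ (1 + κ)), κ, by positivity, hκ, hκ1, ?_⟩
  intro n q hreg s r hs hsr hrn
  have hr1 : 1 ≤ r := hs.trans hsr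
  have hs0 : (0 : ℝ) < s := by exact_mod_cast hs
  have hr0 : (0 : ℝ) < r := by exact_mod_cast hr1
  have hregr : RSWreg c r q := rswreg_mono hreg hrn
  by_cases h32 : 32 * s ≤ r
  · set δ : ℝ := Pr q (ArmBox 0 s r) with hδ
    have hδ1 : δ ≤ C * ((s : ℝ) / r) ^ κ := hdec r q hregr s r hs hsr le_rfl
    have hDR : hb 0 r ⊆ ball 0 r := hb_subset_ball (by simp)
    have lG : ∀ S, LocalOn (eIn r (hb 0 r \ nb (hb 0 r) S)) (GG' s r S) := by
      rintro S ω ω' hω ⟨u, hu, w, hw, h2⟩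
      exact ⟨u, hu, w, hw, localOn_conn_in (Set.sdiff_subset.trans hDR) _ _ ω ω' hω h2⟩
    have hG : ∀ S, Pr q (GG' s r S) ≤ δ := by
      intro S
      refine Pr_mono ?_
      rintro ω ⟨u, hu, w, hw, h2⟩
      exact ⟨u, hu, w, hw, h2.mono_set (Set.sdiff_subset.trans hDR)⟩
    have h1 : Pr q {ω | ∃ T ∈ FR s r, ω ∈ IsClus (hb 0 r) ↑T ∧ ω ∈ GG' s r ↑T} ≤
        EN q (hb 0 r) (FR s r) * δ :=
      le_EN hDR lG (fun T _ => hG T) fun ω h => h
    have h2 : Pr q {ω | ∃ T ∈ FL s r, ω ∈ IsClus (hb 0 r) ↑T ∧ ω ∈ GG' s r ↑T} ≤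
        EN q (hb 0 r) (FL s r) * δ :=
      le_EN hDR lG (fun T _ => hG T) fun ω h => h
    have h3 : Pr q (U s r) ≤ EN q (hb 0 r) (FR s r) * δ + EN q (hb 0 r) (FL s r) * δ := by
      refine le_trans (?_ : _ ≤ Pr q ({ω | ∃ T ∈ FR s r, ω ∈ IsClus (hb 0 r) ↑T ∧
        ω ∈ GG' s r ↑T} ∪ {ω | ∃ T ∈ FL s r, ω ∈ IsClus (hb 0 r) ↑T ∧ ω ∈ GG' s r ↑T}))
        (Pr_union_le.trans (add_le_add h1 h2))
      refine Pool.Agent.H89.Perc.Pr_mono ?_
      intro w hw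
      exact U_cases' hr1 (by omega) hw
    have h4 := EN_right hc hs h32 hregr
    have h5 := EN_left hc hs h32 hregr
    have hδ0 : 0 ≤ δ := Pr_nonneg
    have h6 : Pr q (U s r) ≤ 1188 / c ^ 11 * (s / r) * δ := by
      calc Pr q (U s r) ≤ _ := h3
        _ ≤ 594 / c ^ 11 * (s / r) * δ + 594 / c ^ 11 * (s / r) * δ :=
          add_le_add (mul_le_mul_of_nonneg_right h4 hδ0) (mul_le_mul_of_nonneg_right h5 hδ0)
        _ = _ := by ring
    calc Pr q (U s r) ≤ 1188 / c ^ 11 * (s / r) * δ := h6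
      _ ≤ 1188 / c ^ 11 * (s / r) * (C * ((s : ℝ) / r) ^ κ) :=
          mul_le_mul_of_nonneg_left hδ1 (by positivity)
      _ = (1188 / c ^ 11 * C) * ((s : ℝ) / r) ^ (1 + κ) := by
          rw [Real.rpow_add (by positivity), Real.rpow_one]
          ring
      _ ≤ _ := mul_le_mul_of_nonneg_right (le_max_left _ _) (by positivity)
  · have h1 : (1 : ℝ) ≤ 32 * ((s : ℝ) / r) := by
      rw [← mul_div_assoc, le_div_iff₀ hr0, one_mul]
      have : r ≤ 32 * s := by omega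
      exact_mod_cast this
    calc Pr q (U s r) ≤ 1 := Pr_le_one
      _ ≤ (32 * ((s : ℝ) / r)) ^ (1 + κ) := Real.one_le_rpow h1 (by linarith)
      _ = 32 ^ (1 + κ) * ((s : ℝ) / r) ^ (1 + κ) := Real.mul_rpow (by norm_num) (by positivity)
      _ ≤ _ := mul_le_mul_of_nonneg_right (le_max_right _ _) (by positivity)

end Pool.Agent.H83.SK

end

section

/-!
# Two clusters near a boundary point: the inner and the outer side of a square

Final output of the half-plane part: `badIn : BadIn` and `badOut : BadOut`.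
-/

open MeasureTheory ProbabilityTheory unitInterval

namespace Pool.Agent.H83.SK

open Pool.Agent.H26.HP

open Pool.Agent.H89.Perc

open Pool.Agent.H29.Sep (LocTwo)

variable {ω ω' : Config} {D X S T : Set Vert} {R n r s t : ℕ} {q : I} {c : ℝ}

/-- From flat boundary points to all boundary points. -/
theorem bad_of_flat (c : ℝ) (hc : 0 < c) : ∃ C κ : ℝ, 0 < C ∧ 0 < κ ∧
    ∀ (n t ρ r : ℕ) (q : I) (D : Set Vert), 1 ≤ t → t ≤ ρ → 2 * ρ ≤ r → r ≤ n → RSWreg c n q →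
      (∀ (z : Vert) (s ρ' : ℕ), Flat z ρ' r → Pr q (LocTwo D z s ρ') ≤ Pr q (U s ρ')) →
      Pr q {ω | ∃ z ∈ sphere 0 r, ω ∈ LocTwo D z t ρ} ≤
        C * ((r : ℝ) / ρ) * ((t : ℝ) / ρ) ^ κ := by
  classical
  obtain ⟨C1, κ1, hC1, hκ1, hκ11, hU⟩ := U_le c hc
  obtain ⟨C2, κ2, hC2, hκ2, hκ21, hA⟩ := hdecay c hc
  set a : ℝ := κ1 / (2 * (1 + κ1)) with ha
  have ha0 : 0 < a := by positivity
  have ha1 : a ≤ 1 := by
    rw [ha, div_le_one (by positivity)]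
    linarith
  set κ : ℝ := min (κ1 / 2) (a * κ2) with hκ
  have hκ0 : 0 < κ := lt_min (by positivity) (by positivity)
  have hκa : κ ≤ a := (min_le_right _ _).trans (mul_le_of_le_one_right ha0.le hκ21)
  refine ⟨40 + 20 * C1 + 80 * C2, κ, by positivity, hκ0, ?_⟩
  intro n t ρ r q D ht htρ hρr hrn hreg hflat
  have ht0 : (0 : ℝ) < t := by exact_mod_cast ht
  have hρ0 : (0 : ℝ) < ρ := by exact_mod_cast (lt_of_lt_of_le ht htρ)
  have hr0 : (0 : ℝ) < r := by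
    have : 0 < r := by omega
    exact_mod_cast this
  set θ : ℝ := (t : ℝ) / ρ with hθ
  have hθ0 : 0 < θ := by positivity
  have hθ1 : θ ≤ 1 := by
    rw [hθ, div_le_one hρ0]; exact_mod_cast htρ
  have hrρ : 1 ≤ (r : ℝ) / ρ := by
    rw [le_div_iff₀ hρ0, one_mul]
    have : ρ ≤ r := by omega
    exact_mod_cast this
  set x : ℝ := θ ^ a with hx
  have hx0 : 0 < x := by positivity
  have hxθ : θ ≤ x := by
    calc θ = θ ^ (1 : ℝ) := (Real.rpow_one θ).symm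
      _ ≤ θ ^ a := Real.rpow_le_rpow_of_exponent_ge hθ0 hθ1 ha1
  have hθκ : 0 < θ ^ κ := by positivity
  have hxκ : x ≤ θ ^ κ := Real.rpow_le_rpow_of_exponent_ge hθ0 hθ1 hκa
  have hmain : ∀ y : ℝ, 0 ≤ y → y ≤ θ ^ κ → ∀ A : ℝ, 0 ≤ A → A * y ≤ A * (r / ρ) * θ ^ κ := by
    intro y hy0 hy A hA
    calc A * y ≤ A * θ ^ κ := mul_le_mul_of_nonneg_left hy hA
      _ = A * 1 * θ ^ κ := by ring
      _ ≤ A * (r / ρ) * θ ^ κ :=
        mul_le_mul_of_nonneg_right (mul_le_mul_of_nonneg_left hrρ hA) hθκ.le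
  by_cases hx40 : 1 / 40 < x
  · calc Pr q {ω | ∃ z ∈ sphere 0 r, ω ∈ LocTwo D z t ρ} ≤ 1 := Pr_le_one
      _ ≤ 40 * x := by linarith
      _ ≤ 40 * (r / ρ) * θ ^ κ := hmain x hx0.le hxκ 40 (by norm_num)
      _ ≤ (40 + 20 * C1 + 80 * C2) * (r / ρ) * θ ^ κ := by
        refine mul_le_mul_of_nonneg_right (mul_le_mul_of_nonneg_right ?_ (by positivity)) hθκ.le
        linarith
  push Not at hx40
  have hρx : (t : ℝ) ≤ ρ * x := by
    calc (t : ℝ) = ρ * θ := by rw [hθ]; field_simp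
      _ ≤ ρ * x := mul_le_mul_of_nonneg_left hxθ hρ0.le
  have ht1 : (1 : ℝ) ≤ t := by exact_mod_cast ht
  set ρ₁ : ℕ := ⌈8 * (ρ * x)⌉₊ with hρ₁
  have e1 : 8 * (ρ * x) ≤ ρ₁ := Nat.le_ceil _
  have e2 : (ρ₁ : ℝ) ≤ 9 * (ρ * x) := by
    have := Nat.ceil_lt_add_one (show 0 ≤ 8 * (ρ * x) by positivity)
    linarith
  have e3 : (ρ * x) ≤ ρ / 40 := by
    calc ρ * x ≤ ρ * (1 / 40) := mul_le_mul_of_nonneg_left hx40 hρ0.le
      _ = ρ / 40 := by ring
  have n1 : 8 * t ≤ ρ₁ := by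
    have : (8 * t : ℝ) ≤ ρ₁ := by linarith
    exact_mod_cast this
  have n2 : 2 * ρ₁ + t ≤ ρ := by
    have : (2 * ρ₁ + t : ℝ) ≤ ρ := by linarith
    exact_mod_cast this
  set ρ₃ : ℕ := ρ₁ - t - 1 with hρ₃
  have e4 : 2 * (ρ * x) ≤ ρ₃ := by
    have h1 : (ρ₃ : ℝ) = ρ₁ - t - 1 := by
      have : ρ₃ + t + 1 = ρ₁ := by omega
      have h : (ρ₃ : ℝ) + t + 1 = ρ₁ := by exact_mod_cast this
      linarith
    rw [h1]
    linarith
  have hρ₃0 : (0 : ℝ) < ρ₃ := by linarith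
  -- the covering
  have hcov : Pr q {ω | ∃ z ∈ sphere 0 r, ω ∈ LocTwo D z t ρ} ≤
      Pr q (⋃ k ∈ (Finset.univ : Finset (Bool × Bool)), ArmBox (corner r k) (ρ₁ + t) (ρ - ρ₁)) +
      Pr q (⋃ p ∈ ((Finset.univ : Finset (Bool × Bool)) ×ˢ
        Finset.Icc (-((r / t : ℕ) + 1 : ℤ)) ((r / t : ℕ) + 1)).filter
          (fun p => Flat (cand t r p) ρ₃ r), LocTwo D (cand t r p) (2 * t) ρ₃) := by
    refine (Pr_mono ?_).trans Pr_union_le
    intro ω hω
    rcases bad_cover ht (by omega) n2 hρr hω with ⟨k, hk⟩ | ⟨p, hp, hpf, hpω⟩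
    · left
      simp only [Set.mem_iUnion]
      exact ⟨k, Finset.mem_univ _, hk⟩
    · right
      simp only [Set.mem_iUnion]
      exact ⟨p, Finset.mem_filter.2 ⟨hp, hpf⟩, hpω⟩
  -- corners
  have hcor : Pr q (⋃ k ∈ (Finset.univ : Finset (Bool × Bool)),
      ArmBox (corner r k) (ρ₁ + t) (ρ - ρ₁)) ≤ 80 * C2 * (r / ρ) * θ ^ κ := by
    have h1 : ∀ k : Bool × Bool, Pr q (ArmBox (corner r k) (ρ₁ + t) (ρ - ρ₁)) ≤
        20 * C2 * θ ^ κ := by
      intro k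
      rw [Pr_armBox]
      have h2 := hA n q hreg (ρ₁ + t) (ρ - ρ₁) (by omega) (by omega) (by omega)
      refine h2.trans ?_
      have h3 : ((ρ₁ + t : ℕ) : ℝ) / ((ρ - ρ₁ : ℕ) : ℝ) ≤ 20 * x := by
        have h4 : ((ρ - ρ₁ : ℕ) : ℝ) = ρ - ρ₁ := by
          rw [Nat.cast_sub (by omega)]
        rw [h4, div_le_iff₀ (by linarith)]
        push_cast
        have h5 : (ρ : ℝ) / 2 ≤ ρ - ρ₁ := by linarith
        calc (ρ₁ : ℝ) + t ≤ 10 * (ρ * x) := by linarith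
          _ = 20 * x * (ρ / 2) := by ring
          _ ≤ 20 * x * (ρ - ρ₁) := mul_le_mul_of_nonneg_left h5 (by positivity)
      have h6 : (((ρ₁ + t : ℕ) : ℝ) / ((ρ - ρ₁ : ℕ) : ℝ)) ^ κ2 ≤ (20 * x) ^ κ2 :=
        Real.rpow_le_rpow (by positivity) h3 hκ2.le
      have h7 : (20 * x) ^ κ2 ≤ 20 * θ ^ κ := by
        rw [Real.mul_rpow (by norm_num) hx0.le]
        have h8 : (20 : ℝ) ^ κ2 ≤ 20 := by
          calc (20 : ℝ) ^ κ2 ≤ 20 ^ (1 : ℝ) := Real.rpow_le_rpow_of_exponent_le (by norm_num) hκ21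
            _ = 20 := Real.rpow_one _
        have h9 : x ^ κ2 ≤ θ ^ κ := by
          rw [hx, ← Real.rpow_mul hθ0.le]
          exact Real.rpow_le_rpow_of_exponent_ge hθ0 hθ1 (min_le_right _ _)
        exact mul_le_mul h8 h9 (by positivity) (by norm_num)
      calc C2 * (((ρ₁ + t : ℕ) : ℝ) / ((ρ - ρ₁ : ℕ) : ℝ)) ^ κ2 ≤ C2 * (20 * θ ^ κ) :=
            mul_le_mul_of_nonneg_left (h6.trans h7) hC2.le
        _ = 20 * C2 * θ ^ κ := by ring
    calc _ ≤ ∑ k ∈ (Finset.univ : Finset (Bool × Bool)),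
          Pr q (ArmBox (corner r k) (ρ₁ + t) (ρ - ρ₁)) := Pr_biUnion_le _ _
      _ ≤ ∑ _k ∈ (Finset.univ : Finset (Bool × Bool)), 20 * C2 * θ ^ κ :=
          Finset.sum_le_sum fun k _ => h1 k
      _ = (80 * C2) * θ ^ κ := by
          rw [Finset.sum_const, Finset.card_univ]
          simp only [Fintype.card_prod, Fintype.card_bool, nsmul_eq_mul]
          push_cast
          ring
      _ ≤ 80 * C2 * (r / ρ) * θ ^ κ := hmain (θ ^ κ) hθκ.le le_rfl (80 * C2) (by positivity)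
  -- flat points
  have hfl : Pr q (⋃ p ∈ ((Finset.univ : Finset (Bool × Bool)) ×ˢ
        Finset.Icc (-((r / t : ℕ) + 1 : ℤ)) ((r / t : ℕ) + 1)).filter
          (fun p => Flat (cand t r p) ρ₃ r), LocTwo D (cand t r p) (2 * t) ρ₃) ≤
      20 * C1 * (r / ρ) * θ ^ κ := by
    have h1 : ∀ p ∈ ((Finset.univ : Finset (Bool × Bool)) ×ˢ
        Finset.Icc (-((r / t : ℕ) + 1 : ℤ)) ((r / t : ℕ) + 1)).filter
          (fun p => Flat (cand t r p) ρ₃ r), Pr q (LocTwo D (cand t r p) (2 * t) ρ₃) ≤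
        C1 * (θ * θ ^ (κ1 / 2)) := by
      intro p hp
      rw [Finset.mem_filter] at hp
      refine (hflat _ _ _ hp.2).trans ((hU n q hreg (2 * t) ρ₃ (by omega) (by omega)
        (by omega)).trans ?_)
      refine mul_le_mul_of_nonneg_left ?_ hC1.le
      have h2 : ((2 * t : ℕ) : ℝ) / ρ₃ ≤ θ / x := by
        rw [div_le_div_iff₀ hρ₃0 hx0]
        push_cast
        calc 2 * (t : ℝ) * x = θ * (2 * (ρ * x)) := by rw [hθ]; field_simp
          _ ≤ θ * ρ₃ := mul_le_mul_of_nonneg_left e4 hθ0.le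
      calc (((2 * t : ℕ) : ℝ) / ρ₃) ^ (1 + κ1) ≤ (θ / x) ^ (1 + κ1) :=
            Real.rpow_le_rpow (by positivity) h2 (by positivity)
        _ = θ * θ ^ (κ1 / 2) := by
            rw [Real.div_rpow hθ0.le hx0.le, hx, ← Real.rpow_mul hθ0.le,
              ← Real.rpow_sub hθ0]
            have e : 1 + κ1 - a * (1 + κ1) = 1 + κ1 / 2 := by
              rw [ha]; field_simp; ring
            rw [e, Real.rpow_add hθ0, Real.rpow_one]
    calc _ ≤ ∑ p ∈ ((Finset.univ : Finset (Bool × Bool)) ×ˢ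
        Finset.Icc (-((r / t : ℕ) + 1 : ℤ)) ((r / t : ℕ) + 1)).filter
          (fun p => Flat (cand t r p) ρ₃ r), Pr q (LocTwo D (cand t r p) (2 * t) ρ₃) :=
          Pr_biUnion_le _ _
      _ ≤ ∑ _p ∈ ((Finset.univ : Finset (Bool × Bool)) ×ˢ
        Finset.Icc (-((r / t : ℕ) + 1 : ℤ)) ((r / t : ℕ) + 1)).filter
          (fun p => Flat (cand t r p) ρ₃ r), C1 * (θ * θ ^ (κ1 / 2)) := Finset.sum_le_sum h1
      _ ≤ ∑ _p ∈ (Finset.univ : Finset (Bool × Bool)) ×ˢ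
        Finset.Icc (-((r / t : ℕ) + 1 : ℤ)) ((r / t : ℕ) + 1), C1 * (θ * θ ^ (κ1 / 2)) :=
          Finset.sum_le_sum_of_subset_of_nonneg (Finset.filter_subset _ _)
            fun _ _ _ => by positivity
      _ = (4 * (2 * (r / t : ℕ) + 3) : ℝ) * (C1 * (θ * θ ^ (κ1 / 2))) := by
          rw [Finset.sum_const, Finset.card_product, Finset.card_univ, Int.card_Icc, nsmul_eq_mul]
          simp only [Fintype.card_prod, Fintype.card_bool]
          congr 1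
          have : ((((r / t : ℕ) : ℤ) + 1) + 1 - -(((r / t : ℕ) : ℤ) + 1)).toNat =
            2 * (r / t) + 3 := by omega
          rw [this]
          push_cast
          ring
      _ ≤ (20 * ((r : ℝ) / t)) * (C1 * (θ * θ ^ (κ1 / 2))) := by
          refine mul_le_mul_of_nonneg_right ?_ (by positivity)
          have h3 : ((r / t : ℕ) : ℝ) ≤ (r : ℝ) / t := Nat.cast_div_le
          have h4 : (1 : ℝ) ≤ (r : ℝ) / t := by
            rw [le_div_iff₀ ht0, one_mul]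
            have : t ≤ r := by omega
            exact_mod_cast this
          linarith
      _ = 20 * C1 * (r / ρ) * θ ^ (κ1 / 2) := by
          rw [hθ]; field_simp
      _ ≤ 20 * C1 * (r / ρ) * θ ^ κ := by
          refine mul_le_mul_of_nonneg_left ?_ (by positivity)
          exact Real.rpow_le_rpow_of_exponent_ge hθ0 hθ1 (min_le_left _ _)
  calc _ ≤ _ := hcov
    _ ≤ 80 * C2 * (r / ρ) * θ ^ κ + 20 * C1 * (r / ρ) * θ ^ κ := add_le_add hcor hfl
    _ ≤ (40 + 20 * C1 + 80 * C2) * (r / ρ) * θ ^ κ := by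
        have : 0 ≤ 40 * ((r : ℝ) / ρ) * θ ^ κ := by positivity
        nlinarith

/-- The inner side. -/
theorem badIn : BadIn := by
  intro c hc
  obtain ⟨C, κ, hC, hκ, h⟩ := bad_of_flat c hc
  refine ⟨C, κ, hC, hκ, fun n t ρ r q h1 h2 h3 h4 h5 => h n t ρ r q (ball 0 r) h1 h2 h3 h4 h5 ?_⟩
  intro z s ρ' hz
  rcases hz with ⟨hz1 | hz1, hz2⟩ | ⟨hz1 | hz1, hz2⟩
  · rw [locTwo_congr (D' := {v | v.2 ≤ z.2}), Pr_locTwo_down]
    intro v hv
    simp only [mem_ball, Prod.fst_zero, Prod.snd_zero, Set.mem_ofPred_eq] at hv ⊢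
    rcases abs_cases z.1 with ⟨k1, k2⟩ | ⟨k1, k2⟩ <;> rw [k1] at hz2 <;> omega
  · rw [locTwo_congr (D' := {v | z.2 ≤ v.2}), Pr_locTwo_up]
    intro v hv
    simp only [mem_ball, Prod.fst_zero, Prod.snd_zero, Set.mem_ofPred_eq] at hv ⊢
    rcases abs_cases z.1 with ⟨k1, k2⟩ | ⟨k1, k2⟩ <;> rw [k1] at hz2 <;> omega
  · rw [locTwo_congr (D' := {v | v.1 ≤ z.1}), Pr_locTwo_left]
    intro v hv
    simp only [mem_ball, Prod.fst_zero, Prod.snd_zero, Set.mem_ofPred_eq] at hv ⊢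
    rcases abs_cases z.2 with ⟨k1, k2⟩ | ⟨k1, k2⟩ <;> rw [k1] at hz2 <;> omega
  · rw [locTwo_congr (D' := {v | z.1 ≤ v.1}), Pr_locTwo_right]
    intro v hv
    simp only [mem_ball, Prod.fst_zero, Prod.snd_zero, Set.mem_ofPred_eq] at hv ⊢
    rcases abs_cases z.2 with ⟨k1, k2⟩ | ⟨k1, k2⟩ <;> rw [k1] at hz2 <;> omega

/-- The outer side. -/
theorem badOut : BadOut := by
  intro c hc
  obtain ⟨C, κ, hC, hκ, h⟩ := bad_of_flat c hc
  refine ⟨C, κ, hC, hκ, fun n t ρ r q h1 h2 h3 h4 h5 =>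
    h n t ρ r q (ball 0 (r - 1))ᶜ h1 h2 h3 h4 h5 ?_⟩
  intro z s ρ' hz
  have hr1 : 1 ≤ r := by omega
  have hcast : ((r - 1 : ℕ) : ℤ) = r - 1 := by omega
  rcases hz with ⟨hz1 | hz1, hz2⟩ | ⟨hz1 | hz1, hz2⟩
  · rw [locTwo_congr (D' := {v | z.2 ≤ v.2}), Pr_locTwo_up]
    intro v hv
    simp only [mem_ball, Prod.fst_zero, Prod.snd_zero, Set.mem_ofPred_eq, Set.mem_compl_iff,
      hcast] at hv ⊢
    rcases abs_cases z.1 with ⟨k1, k2⟩ | ⟨k1, k2⟩ <;> rw [k1] at hz2 <;> omega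
  · rw [locTwo_congr (D' := {v | v.2 ≤ z.2}), Pr_locTwo_down]
    intro v hv
    simp only [mem_ball, Prod.fst_zero, Prod.snd_zero, Set.mem_ofPred_eq, Set.mem_compl_iff,
      hcast] at hv ⊢
    rcases abs_cases z.1 with ⟨k1, k2⟩ | ⟨k1, k2⟩ <;> rw [k1] at hz2 <;> omega
  · rw [locTwo_congr (D' := {v | z.1 ≤ v.1}), Pr_locTwo_right]
    intro v hv
    simp only [mem_ball, Prod.fst_zero, Prod.snd_zero, Set.mem_ofPred_eq, Set.mem_compl_iff,
      hcast] at hv ⊢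
    rcases abs_cases z.2 with ⟨k1, k2⟩ | ⟨k1, k2⟩ <;> rw [k1] at hz2 <;> omega
  · rw [locTwo_congr (D' := {v | v.1 ≤ z.1}), Pr_locTwo_left]
    intro v hv
    simp only [mem_ball, Prod.fst_zero, Prod.snd_zero, Set.mem_ofPred_eq, Set.mem_compl_iff,
      hcast] at hv ⊢
    rcases abs_cases z.2 with ⟨k1, k2⟩ | ⟨k1, k2⟩ <;> rw [k1] at hz2 <;> omega

end Pool.Agent.H83.SK

end
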