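import Pool.Agent.H31.PT.H85.Strict.Corr
import Pool.Agent.H31.PT.M03
import Pool.Agent.H31.PT.M04
import Pool.Agent.H31.PT.M05

/-! The parts of this file: H83.Site.Defs, H83.Site.TProb, H83.Site.DualN, H83.Site.Glue, H83.Site.Circ, H83.Site.DualE, H83.Site.Low, H83.Site.Expl, H83.Site.Renorm, H83.Site.ABLower, H83.Site.Transfer, H83.SK.Base, H92.SN.Defs, H83.SK.P29.Rect, H83.SK.P29.CircProb, H13.SK.BlockL1, H13.SK.BlockEv, H83.SK.Tor, H83.SK.Iface, H83.SK.PHP.Expl, H83.SK.P29.ExplB. -/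

section

/-!
# Site percolation on the centred square lattice

The vertices of the centred lattice `T` are the sites `(x, y, false)` of `ℤ²` and the centres
`(x, y, true)` of the unit squares `[x, x + 1] × [y, y + 1]`. Sites are adjacent to their four
nearest neighbours and every centre is adjacent to the four corners of its square. This is a
triangulation of the plane. A configuration is a function `Edge → Bool` (`Edge = ℤ × ℤ × Bool`
is used here as the set of vertices of `T`); `full r ω` is the configuration in which all centres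
have the state `r`. Open paths of `full false ω` are nearest neighbour paths of open sites, open
paths of `full true ω` are paths of open sites with diagonal steps.
-/

set_option autoImplicit false

open MeasureTheory ProbabilityTheory unitInterval

namespace Pool.Agent.H83.Site

open Pool.Agent.H89.Perc

/-- Vertices of the centred lattice. -/
abbrev TV := Edge

/-- Twice the first coordinate of the position of a vertex. -/
def fx (v : TV) : ℤ := 2 * v.1 + (if v.2.2 then 1 else 0)

/-- Twice the second coordinate of the position of a vertex. -/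
def fy (v : TV) : ℤ := 2 * v.2.1 + (if v.2.2 then 1 else 0)

/-- Adjacency of the centred lattice. -/
def TAdj (u v : TV) : Prop :=
  (u.2.2 = false ∧ v.2.2 = false ∧
    ((u.1 = v.1 ∧ (u.2.1 = v.2.1 + 1 ∨ v.2.1 = u.2.1 + 1)) ∨
      (u.2.1 = v.2.1 ∧ (u.1 = v.1 + 1 ∨ v.1 = u.1 + 1)))) ∨
  (u.2.2 = false ∧ v.2.2 = true ∧ (u.1 = v.1 ∨ u.1 = v.1 + 1) ∧
    (u.2.1 = v.2.1 ∨ u.2.1 = v.2.1 + 1)) ∨
  (u.2.2 = true ∧ v.2.2 = false ∧ (v.1 = u.1 ∨ v.1 = u.1 + 1) ∧
    (v.2.1 = u.2.1 ∨ v.2.1 = u.2.1 + 1))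

/-- The vertices of `T` in the rectangle `[a, b] × [c, d]`. -/
def TR (a b c d : ℤ) : Set TV := {v | 2 * a ≤ fx v ∧ fx v ≤ 2 * b ∧ 2 * c ≤ fy v ∧ fy v ≤ 2 * d}

/-- One step between open vertices of `S`. -/
def TStep (η : Config) (S : Set TV) (u v : TV) : Prop :=
  u ∈ S ∧ v ∈ S ∧ TAdj u v ∧ η u = true ∧ η v = true

/-- `u` and `v` are joined by a path of open vertices of `S`. -/
def TConn (η : Config) (S : Set TV) (u v : TV) : Prop :=
  u ∈ S ∧ η u = true ∧ Relation.ReflTransGen (TStep η S) u v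

/-- The configuration with open and closed exchanged. -/
def neg (η : Config) : Config := fun v => !η v

/-- The configuration in which the centres have the state `r`. -/
def full (r : Bool) (ω : Config) : Config := fun v => if v.2.2 then r else ω v

/-- Open horizontal crossing of `[a, b] × [c, d]`. -/
def HC (η : Config) (a b c d : ℤ) : Prop :=
  ∃ y y' : ℤ, TConn η (TR a b c d) (a, y, false) (b, y', false)

/-- Open vertical crossing of `[a, b] × [c, d]`. -/
def VC (η : Config) (a b c d : ℤ) : Prop :=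
  ∃ x x' : ℤ, TConn η (TR a b c d) (x, c, false) (x', d, false)

/-- The probability of an event for the configuration `full r ω`, when the sites are open with
probability `p`. -/
noncomputable def PT (p : I) (r : Bool) (E : Set Config) : ℝ := Pr p {ω | full r ω ∈ E}

/-- The sites of the boundary of the square with centre `(x, y)` and half side `n`. -/
def sph (x y : ℤ) (n : ℕ) : Set TV :=
  {v | v ∈ TR (x - n) (x + n) (y - n) (y + n) ∧ v.2.2 = false ∧
    (v.1 = x - n ∨ v.1 = x + n ∨ v.2.1 = y - n ∨ v.2.1 = y + n)}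

/-- The square with centre `(x, y)` and half side `s` is joined to the boundary of the square with
half side `n`, inside the latter. -/
def AB (x y : ℤ) (s n : ℕ) : Set Config :=
  {η | ∃ u ∈ TR (x - s) (x + s) (y - s) (y + s), ∃ w ∈ sph x y n,
    TConn η (TR (x - n) (x + n) (y - n) (y + n)) u w}

/-- The probability that the square with half side `s` is joined to distance `n`. -/
noncomputable def ab (p : I) (r : Bool) (s n : ℕ) : ℝ := PT p r (AB 0 0 s n)

/-- The probability that the origin is joined to all distances. -/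
noncomputable def thT (p : I) (r : Bool) : ℝ := PT p r {η | ∀ n, η ∈ AB 0 0 0 n}

/-! ### Geometry -/

@[simp] theorem fx_site (x y : ℤ) : fx (x, y, false) = 2 * x := by simp [fx]
@[simp] theorem fy_site (x y : ℤ) : fy (x, y, false) = 2 * y := by simp [fy]
@[simp] theorem fx_cen (x y : ℤ) : fx (x, y, true) = 2 * x + 1 := by simp [fx]
@[simp] theorem fy_cen (x y : ℤ) : fy (x, y, true) = 2 * y + 1 := by simp [fy]

theorem mem_TR {a b c d : ℤ} {v : TV} :
    v ∈ TR a b c d ↔ 2 * a ≤ fx v ∧ fx v ≤ 2 * b ∧ 2 * c ≤ fy v ∧ fy v ≤ 2 * d := Iff.rfl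

theorem mem_TR_site {a b c d x y : ℤ} :
    (x, y, false) ∈ TR a b c d ↔ a ≤ x ∧ x ≤ b ∧ c ≤ y ∧ y ≤ d := by
  simp only [mem_TR, fx_site, fy_site]
  omega

theorem mem_TR_cen {a b c d x y : ℤ} :
    (x, y, true) ∈ TR a b c d ↔ a ≤ x ∧ x + 1 ≤ b ∧ c ≤ y ∧ y + 1 ≤ d := by
  simp only [mem_TR, fx_cen, fy_cen]
  omega

theorem TR_mono {a b c d a' b' c' d' : ℤ} (h1 : a' ≤ a) (h2 : b ≤ b') (h3 : c' ≤ c)
    (h4 : d ≤ d') : TR a b c d ⊆ TR a' b' c' d' := by
  intro v hv
  rw [mem_TR] at hv ⊢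
  omega

theorem fx_even {v : TV} (h : v.2.2 = false) : fx v = 2 * v.1 := by simp [fx, h]
theorem fy_even {v : TV} (h : v.2.2 = false) : fy v = 2 * v.2.1 := by simp [fy, h]
theorem fx_odd {v : TV} (h : v.2.2 = true) : fx v = 2 * v.1 + 1 := by simp [fx, h]
theorem fy_odd {v : TV} (h : v.2.2 = true) : fy v = 2 * v.2.1 + 1 := by simp [fy, h]

theorem TAdj.symm {u v : TV} (h : TAdj u v) : TAdj v u := by
  unfold TAdj at h ⊢
  rcases h with ⟨h1, h2, h3⟩ | ⟨h1, h2, h3⟩ | ⟨h1, h2, h3⟩
  · left; refine ⟨h2, h1, ?_⟩; omega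
  · right; right; exact ⟨h2, h1, h3⟩
  · right; left; exact ⟨h2, h1, h3⟩

/-- A step changes the coordinates by at most one (two in doubled coordinates), and it does not
jump over a line of sites. -/
theorem TAdj.fx_le {u v : TV} (h : TAdj u v) {a : ℤ} (hu : fx u < 2 * a) : fx v ≤ 2 * a := by
  unfold TAdj at h
  rcases h with ⟨h1, h2, h3⟩ | ⟨h1, h2, h3⟩ | ⟨h1, h2, h3⟩
  · rw [fx_even h1] at hu; rw [fx_even h2]; omega
  · rw [fx_even h1] at hu; rw [fx_odd h2]; omega
  · rw [fx_odd h1] at hu; rw [fx_even h2]; omega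

theorem TAdj.le_fx {u v : TV} (h : TAdj u v) {a : ℤ} (hu : 2 * a < fx u) : 2 * a ≤ fx v := by
  unfold TAdj at h
  rcases h with ⟨h1, h2, h3⟩ | ⟨h1, h2, h3⟩ | ⟨h1, h2, h3⟩
  · rw [fx_even h1] at hu; rw [fx_even h2]; omega
  · rw [fx_even h1] at hu; rw [fx_odd h2]; omega
  · rw [fx_odd h1] at hu; rw [fx_even h2]; omega

theorem TAdj.fy_le {u v : TV} (h : TAdj u v) {a : ℤ} (hu : fy u < 2 * a) : fy v ≤ 2 * a := by
  unfold TAdj at h
  rcases h with ⟨h1, h2, h3⟩ | ⟨h1, h2, h3⟩ | ⟨h1, h2, h3⟩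
  · rw [fy_even h1] at hu; rw [fy_even h2]; omega
  · rw [fy_even h1] at hu; rw [fy_odd h2]; omega
  · rw [fy_odd h1] at hu; rw [fy_even h2]; omega

theorem TAdj.le_fy {u v : TV} (h : TAdj u v) {a : ℤ} (hu : 2 * a < fy u) : 2 * a ≤ fy v := by
  unfold TAdj at h
  rcases h with ⟨h1, h2, h3⟩ | ⟨h1, h2, h3⟩ | ⟨h1, h2, h3⟩
  · rw [fy_even h1] at hu; rw [fy_even h2]; omega
  · rw [fy_even h1] at hu; rw [fy_odd h2]; omega
  · rw [fy_odd h1] at hu; rw [fy_even h2]; omega

/-- A vertex with even doubled coordinate is a site. -/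
theorem site_of_fx {v : TV} {a : ℤ} (h : fx v = 2 * a) : v.2.2 = false ∧ v.1 = a := by
  obtain ⟨x, y, b⟩ := v
  cases b
  · simp only [fx_site] at h; exact ⟨rfl, by simp only; omega⟩
  · simp only [fx_cen] at h; omega

theorem site_of_fy {v : TV} {a : ℤ} (h : fy v = 2 * a) : v.2.2 = false ∧ v.2.1 = a := by
  obtain ⟨x, y, b⟩ := v
  cases b
  · simp only [fy_site] at h; exact ⟨rfl, by simp only; omega⟩
  · simp only [fy_cen] at h; omega

/-! ### Paths -/

variable {η η' : Config} {S T : Set TV} {u v w : TV}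

theorem TStep.symm (h : TStep η S u v) : TStep η S v u :=
  ⟨h.2.1, h.1, h.2.2.1.symm, h.2.2.2.2, h.2.2.2.1⟩

theorem TStep.mono (hST : S ⊆ T) (hη : ∀ x ∈ S, η x = true → η' x = true) (h : TStep η S u v) :
    TStep η' T u v :=
  ⟨hST h.1, hST h.2.1, h.2.2.1, hη _ h.1 h.2.2.2.1, hη _ h.2.1 h.2.2.2.2⟩

theorem TConn.refl (h : u ∈ S) (ho : η u = true) : TConn η S u u :=
  ⟨h, ho, Relation.ReflTransGen.refl⟩

theorem TConn.mem_left (h : TConn η S u v) : u ∈ S := h.1

theorem TConn.open_left (h : TConn η S u v) : η u = true := h.2.1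

theorem TStep.conn (h : TStep η S u v) : TConn η S u v :=
  ⟨h.1, h.2.2.2.1, Relation.ReflTransGen.single h⟩

theorem TConn.mem_right (h : TConn η S u v) : v ∈ S := by
  obtain ⟨h1, _, h2⟩ := h
  rcases Relation.ReflTransGen.cases_tail h2 with h3 | ⟨c, _, h3⟩
  · rw [h3]; exact h1
  · exact h3.2.1

theorem TConn.open_right (h : TConn η S u v) : η v = true := by
  obtain ⟨_, h1, h2⟩ := h
  rcases Relation.ReflTransGen.cases_tail h2 with h3 | ⟨c, _, h3⟩
  · rw [h3]; exact h1
  · exact h3.2.2.2.2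

theorem TConn.trans (h1 : TConn η S u v) (h2 : TConn η S v w) : TConn η S u w :=
  ⟨h1.1, h1.2.1, h1.2.2.trans h2.2.2⟩

theorem TConn.tail (h1 : TConn η S u v) (h2 : TStep η S v w) : TConn η S u w := h1.trans h2.conn

theorem TConn.symm (h : TConn η S u v) : TConn η S v u := by
  refine ⟨h.mem_right, h.open_right, ?_⟩
  obtain ⟨_, _, h2⟩ := h
  induction h2 with
  | refl => exact Relation.ReflTransGen.refl
  | tail _ hbc ih => exact Relation.ReflTransGen.head hbc.symm ih

theorem TConn.mono (hST : S ⊆ T) (hη : ∀ x ∈ S, η x = true → η' x = true) (h : TConn η S u v) :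
    TConn η' T u v :=
  ⟨hST h.1, hη _ h.1 h.2.1, Relation.ReflTransGen.mono (fun _ _ hab => hab.mono hST hη) _ _ h.2.2⟩

theorem TConn.mono_set (hST : S ⊆ T) (h : TConn η S u v) : TConn η T u v :=
  h.mono hST fun _ _ => id

/-- `TConn η S` only depends on the vertices of `S`. -/
theorem TConn.congr (h : ∀ x ∈ S, η x = η' x) (hc : TConn η S u v) : TConn η' S u v :=
  hc.mono le_rfl fun x hx ho => by rw [← h x hx]; exact ho

/-- Induction along a path. -/
theorem TConn.induction_right {P : TV → Prop} (h : TConn η S u v) (h0 : P u)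
    (hs : ∀ a b, TConn η S u a → TStep η S a b → P a → P b) : P v := by
  obtain ⟨h1, h2, h3⟩ := h
  induction h3 with
  | refl => exact h0
  | @tail b c hab hbc ih => exact hs b c ⟨h1, h2, hab⟩ hbc ih

/-- First exit from `T`. -/
theorem TConn.exists_exit (h : TConn η S u v) (hu : u ∈ T) (hv : v ∉ T) :
    ∃ w w', TConn η (S ∩ T) u w ∧ TStep η S w w' ∧ w' ∉ T ∧ TConn η S w' v := by
  obtain ⟨h1, h0, h2⟩ := h
  induction h2 using Relation.ReflTransGen.head_induction_on with
  | refl => exact absurd hu hv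
  | @head a c hac hcv ih =>
    by_cases hc : c ∈ T
    · obtain ⟨w, w', h3, h4, h5, h6⟩ := ih hc hac.2.1 hac.2.2.2.2
      refine ⟨w, w', ?_, h4, h5, h6⟩
      have : TStep η (S ∩ T) a c := ⟨⟨hac.1, hu⟩, ⟨hac.2.1, hc⟩, hac.2.2⟩
      exact this.conn.trans h3
    · exact ⟨a, c, TConn.refl ⟨h1, hu⟩ h0, hac, hc, ⟨hac.2.1, hac.2.2.2.2, hcv⟩⟩

/-- Last visit of `T`. -/
theorem TConn.exists_last (h : TConn η S u v) (hu : u ∈ T) (hv : v ∉ T) :
    ∃ w w', w ∈ T ∧ TConn η S u w ∧ TStep η S w w' ∧ TConn η (S \ T) w' v := by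
  obtain ⟨w, w', h1, h2, h3, h4⟩ :=
    h.symm.exists_exit (T := Tᶜ) (by simpa using hv) (by simpa using hu)
  refine ⟨w', w, by simpa using h3, h4.symm, h2.symm, ?_⟩
  have := h1.symm
  rwa [← Set.sdiff_eq] at this

/-- First hitting of `T`, when the path does not start in `T`. -/
theorem TConn.exists_hit (h : TConn η S u v) (hu : u ∉ T) (hv : v ∈ T) :
    ∃ w w', TConn η (S \ T) u w ∧ TStep η S w w' ∧ w' ∈ T ∧ TConn η S w' v := by
  obtain ⟨w, w', h1, h2, h3, h4⟩ :=
    h.exists_exit (T := Tᶜ) (by simpa using hu) (by simpa using hv)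
  exact ⟨w, w', by rwa [Set.sdiff_eq], h2, by simpa using h3, h4⟩

/-- Image of a path under a map of vertices. -/
theorem TConn.map (f : TV → TV) (hf : ∀ x ∈ S, f x ∈ T)
    (ho : ∀ x ∈ S, η x = true → η' (f x) = true)
    (hstep : ∀ a b, a ∈ S → b ∈ S → TAdj a b → TAdj (f a) (f b) ∨ f a = f b)
    (h : TConn η S u v) : TConn η' T (f u) (f v) := by
  refine h.induction_right (P := fun v => TConn η' T (f u) (f v))
    (TConn.refl (hf _ h.mem_left) (ho _ h.mem_left h.open_left)) ?_
  intro a b _ hab ih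
  rcases hstep a b hab.1 hab.2.1 hab.2.2.1 with h1 | h1
  · exact ih.tail ⟨hf _ hab.1, hf _ hab.2.1, h1, ho _ hab.1 hab.2.2.2.1,
      ho _ hab.2.1 hab.2.2.2.2⟩
  · rw [← h1]; exact ih

/-- Extraction of a horizontal crossing of the strip `a ≤ x ≤ b`. -/
theorem TConn.cross_x {a b : ℤ} (h : TConn η S u v) (hu : fx u ≤ 2 * a) (hv : 2 * b ≤ fx v)
    (hab : a ≤ b) : ∃ y y' : ℤ,
      TConn η (S ∩ {w | 2 * a ≤ fx w ∧ fx w ≤ 2 * b}) (a, y, false) (b, y', false) ∧
      TConn η S u (a, y, false) ∧ TConn η S (b, y', false) v := by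
  have h1 : ∃ v' : TV, fx v' = 2 * b ∧ TConn η (S ∩ {w | fx w ≤ 2 * b}) u v' ∧
      TConn η S v' v := by
    by_cases hub : fx u = 2 * b
    · exact ⟨u, hub, TConn.refl ⟨h.mem_left, by simp [hub]⟩ h.open_left, h⟩
    have hub' : fx u < 2 * b := lt_of_le_of_ne (hu.trans (by omega)) hub
    obtain ⟨w, w', h1, h2, h3, h4⟩ := h.exists_hit (T := {w | 2 * b ≤ fx w}) (by simpa using hub')
      (by simpa using hv)
    have h5 := h1.mem_right.2
    simp only [Set.mem_ofPred_eq, not_le] at h3 h5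
    have h6 := h2.2.2.1.fx_le h5
    have h7 : fx w' = 2 * b := le_antisymm h6 h3
    refine ⟨w', h7, ?_, h4⟩
    have h8 : TConn η (S ∩ {w | fx w ≤ 2 * b}) u w :=
      h1.mono_set fun x hx => ⟨hx.1, by
        have := hx.2; simp only [Set.mem_ofPred_eq, not_le] at this ⊢; omega⟩
    exact h8.tail ⟨h8.mem_right, ⟨h2.2.1, by simp [h7]⟩, h2.2.2⟩
  obtain ⟨v', hv', hc, hv'v⟩ := h1
  have hvs : v' = (b, v'.2.1, false) := by
    obtain ⟨h1, h2⟩ := site_of_fx hv'
    ext <;> simp [h1, h2]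
  by_cases hab' : a = b
  · subst hab'
    refine ⟨v'.2.1, v'.2.1, ?_, ?_, ?_⟩
    · rw [← hvs]; exact TConn.refl ⟨hc.mem_right.1, by simp [hv']⟩ hc.open_right
    · rw [← hvs]; exact hc.mono_set (fun x hx => hx.1)
    · rw [← hvs]; exact hv'v
  have hlt : a < b := lt_of_le_of_ne hab hab'
  obtain ⟨w, w', h1, h2, h3, h4⟩ := hc.exists_last (T := {w | fx w ≤ 2 * a}) (by simpa using hu)
    (by simp [hv']; omega)
  have h5 := h4.mem_left.2
  simp only [Set.mem_ofPred_eq, not_le] at h1 h5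
  have h6 := h3.2.2.1.symm.le_fx h5
  have h7 : fx w = 2 * a := le_antisymm h1 h6
  have hws : w = (a, w.2.1, false) := by
    obtain ⟨h1, h2⟩ := site_of_fx h7
    ext <;> simp [h1, h2]
  refine ⟨w.2.1, v'.2.1, ?_, ?_, ?_⟩
  · rw [← hws, ← hvs]
    have h8 : TConn η (S ∩ {w | 2 * a ≤ fx w ∧ fx w ≤ 2 * b}) w' v' :=
      h4.mono_set fun x hx => ⟨hx.1.1, by
        have := hx.2; have h9 := hx.1.2
        simp only [Set.mem_ofPred_eq, not_le] at this h9 ⊢; omega⟩
    have h9 : TStep η (S ∩ {w | 2 * a ≤ fx w ∧ fx w ≤ 2 * b}) w w' :=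
      ⟨⟨h3.1.1, by simp only [Set.mem_ofPred_eq]; omega⟩, h8.mem_left, h3.2.2⟩
    exact h9.conn.trans h8
  · rw [← hws]; exact h2.mono_set (fun x hx => hx.1)
  · rw [← hvs]; exact hv'v

/-- Extraction of a vertical crossing of the strip `c ≤ y ≤ d`. -/
theorem TConn.cross_y {c d : ℤ} (h : TConn η S u v) (hu : fy u ≤ 2 * c) (hv : 2 * d ≤ fy v)
    (hcd : c ≤ d) : ∃ x x' : ℤ,
      TConn η (S ∩ {w | 2 * c ≤ fy w ∧ fy w ≤ 2 * d}) (x, c, false) (x', d, false) ∧
      TConn η S u (x, c, false) ∧ TConn η S (x', d, false) v := by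
  have h1 : ∃ v' : TV, fy v' = 2 * d ∧ TConn η (S ∩ {w | fy w ≤ 2 * d}) u v' ∧
      TConn η S v' v := by
    by_cases hub : fy u = 2 * d
    · exact ⟨u, hub, TConn.refl ⟨h.mem_left, by simp [hub]⟩ h.open_left, h⟩
    have hub' : fy u < 2 * d := lt_of_le_of_ne (hu.trans (by omega)) hub
    obtain ⟨w, w', h1, h2, h3, h4⟩ := h.exists_hit (T := {w | 2 * d ≤ fy w}) (by simpa using hub')
      (by simpa using hv)
    have h5 := h1.mem_right.2
    simp only [Set.mem_ofPred_eq, not_le] at h3 h5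
    have h6 := h2.2.2.1.fy_le h5
    have h7 : fy w' = 2 * d := le_antisymm h6 h3
    refine ⟨w', h7, ?_, h4⟩
    have h8 : TConn η (S ∩ {w | fy w ≤ 2 * d}) u w :=
      h1.mono_set fun x hx => ⟨hx.1, by
        have := hx.2; simp only [Set.mem_ofPred_eq, not_le] at this ⊢; omega⟩
    exact h8.tail ⟨h8.mem_right, ⟨h2.2.1, by simp [h7]⟩, h2.2.2⟩
  obtain ⟨v', hv', hc, hv'v⟩ := h1
  have hvs : v' = (v'.1, d, false) := by
    obtain ⟨h1, h2⟩ := site_of_fy hv'
    ext <;> simp [h1, h2]
  by_cases hab' : c = d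
  · subst hab'
    refine ⟨v'.1, v'.1, ?_, ?_, ?_⟩
    · rw [← hvs]; exact TConn.refl ⟨hc.mem_right.1, by simp [hv']⟩ hc.open_right
    · rw [← hvs]; exact hc.mono_set (fun x hx => hx.1)
    · rw [← hvs]; exact hv'v
  have hlt : c < d := lt_of_le_of_ne hcd hab'
  obtain ⟨w, w', h1, h2, h3, h4⟩ := hc.exists_last (T := {w | fy w ≤ 2 * c}) (by simpa using hu)
    (by simp [hv']; omega)
  have h5 := h4.mem_left.2
  simp only [Set.mem_ofPred_eq, not_le] at h1 h5
  have h6 := h3.2.2.1.symm.le_fy h5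
  have h7 : fy w = 2 * c := le_antisymm h1 h6
  have hws : w = (w.1, c, false) := by
    obtain ⟨h1, h2⟩ := site_of_fy h7
    ext <;> simp [h1, h2]
  refine ⟨w.1, v'.1, ?_, ?_, ?_⟩
  · rw [← hws, ← hvs]
    have h8 : TConn η (S ∩ {w | 2 * c ≤ fy w ∧ fy w ≤ 2 * d}) w' v' :=
      h4.mono_set fun x hx => ⟨hx.1.1, by
        have := hx.2; have h9 := hx.1.2
        simp only [Set.mem_ofPred_eq, not_le] at this h9 ⊢; omega⟩
    have h9 : TStep η (S ∩ {w | 2 * c ≤ fy w ∧ fy w ≤ 2 * d}) w w' :=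
      ⟨⟨h3.1.1, by simp only [Set.mem_ofPred_eq]; omega⟩, h8.mem_left, h3.2.2⟩
    exact h9.conn.trans h8
  · rw [← hws]; exact h2.mono_set (fun x hx => hx.1)
  · rw [← hvs]; exact hv'v

theorem TR_inter_x {a b c d a' b' : ℤ} (ha : a ≤ a') (hb : b' ≤ b) :
    TR a b c d ∩ {w | 2 * a' ≤ fx w ∧ fx w ≤ 2 * b'} = TR a' b' c d := by
  ext w
  simp only [Set.mem_inter_iff, mem_TR, Set.mem_ofPred_eq]
  omega

theorem TR_inter_y {a b c d c' d' : ℤ} (hc : c ≤ c') (hd : d' ≤ d) :
    TR a b c d ∩ {w | 2 * c' ≤ fy w ∧ fy w ≤ 2 * d'} = TR a b c' d' := by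
  ext w
  simp only [Set.mem_inter_iff, mem_TR, Set.mem_ofPred_eq]
  omega

/-- A horizontal crossing contains a horizontal crossing of a shorter and higher rectangle. -/
theorem HC.mono {η : Config} {a b c d a' b' c' d' : ℤ} (h : HC η a b c d) (ha : a ≤ a')
    (hab : a' ≤ b') (hb : b' ≤ b) (hc : c' ≤ c) (hd : d ≤ d') : HC η a' b' c' d' := by
  obtain ⟨y, y', h⟩ := h
  obtain ⟨z, z', h1, -, -⟩ := h.cross_x (a := a') (b := b') (by simp only [fx_site]; omega)
    (by simp only [fx_site]; omega) hab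
  rw [TR_inter_x ha hb] at h1
  exact ⟨z, z', h1.mono_set (TR_mono le_rfl le_rfl hc hd)⟩

theorem VC.mono {η : Config} {a b c d a' b' c' d' : ℤ} (h : VC η a b c d) (ha : a' ≤ a)
    (hb : b ≤ b') (hc : c ≤ c') (hcd : c' ≤ d') (hd : d' ≤ d) : VC η a' b' c' d' := by
  obtain ⟨x, x', h⟩ := h
  obtain ⟨z, z', h1, -, -⟩ := h.cross_y (c := c') (d := d') (by simp only [fy_site]; omega)
    (by simp only [fy_site]; omega) hcd
  rw [TR_inter_y hc hd] at h1
  exact ⟨z, z', h1.mono_set (TR_mono ha hb le_rfl le_rfl)⟩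

theorem neg_neg' (η : Config) : neg (neg η) = η := by funext v; simp [neg]

theorem neg_full (r : Bool) (ω : Config) : neg (full r ω) = full (!r) (neg ω) := by
  funext v
  simp only [neg, full]
  split <;> rfl

end Pool.Agent.H83.Site

end

section

/-!
# Probability of events of site percolation on the centred lattice
-/

set_option autoImplicit false

open MeasureTheory ProbabilityTheory unitInterval

namespace Pool.Agent.H83.Site

open Pool.Agent.H89.Perc

variable {p q : I} {r : Bool} {E F : Set Config} {s t : Finset Edge}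

/-! ### Local and increasing events -/

theorem localOn_full (r : Bool) (h : LocalOn s E) : LocalOn s {ω | full r ω ∈ E} := by
  intro ω ω' hω hE
  refine h _ _ (fun e he => ?_) hE
  simp only [full]
  split
  · rfl
  · exact hω e he

theorem incr_full (r : Bool) (h : Incr E) : Incr {ω | full r ω ∈ E} := by
  intro ω ω' hω hE
  refine h _ _ (fun e he => ?_) hE
  simp only [full] at he ⊢
  split
  · rename_i h1; rw [if_pos h1] at he; exact he
  · rename_i h1; rw [if_neg h1] at he; exact hω e he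

theorem TR_subset_eRect {a b c d : ℤ} {v : TV} (h : v ∈ TR a b c d) : v ∈ eRect a b c d := by
  rw [mem_eRect]
  obtain ⟨x, y, t⟩ := v
  cases t
  · rw [mem_TR_site] at h; exact h
  · rw [mem_TR_cen] at h
    exact ⟨h.1, by simp only [src]; omega, h.2.2.1, by simp only [src]; omega⟩

theorem localOn_tconn (a b c d : ℤ) (u v : TV) :
    LocalOn (eRect a b c d) {η | TConn η (TR a b c d) u v} := by
  intro η η' h hc
  exact hc.congr fun x hx => h x (TR_subset_eRect hx)

theorem incr_tconn (S : Set TV) (u v : TV) : Incr {η | TConn η S u v} :=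
  fun _ _ h hc => hc.mono le_rfl fun x _ => h x

theorem localOn_HC (a b c d : ℤ) : LocalOn (eRect a b c d) {η | HC η a b c d} := by
  rintro η η' h ⟨y, y', hc⟩
  exact ⟨y, y', localOn_tconn a b c d _ _ η η' h hc⟩

theorem localOn_VC (a b c d : ℤ) : LocalOn (eRect a b c d) {η | VC η a b c d} := by
  rintro η η' h ⟨y, y', hc⟩
  exact ⟨y, y', localOn_tconn a b c d _ _ η η' h hc⟩

theorem incr_HC (a b c d : ℤ) : Incr {η | HC η a b c d} := by
  rintro η η' h ⟨y, y', hc⟩
  exact ⟨y, y', hc.mono le_rfl fun x _ => h x⟩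

theorem incr_VC (a b c d : ℤ) : Incr {η | VC η a b c d} := by
  rintro η η' h ⟨y, y', hc⟩
  exact ⟨y, y', hc.mono le_rfl fun x _ => h x⟩

theorem localOn_AB (x y : ℤ) (k n : ℕ) :
    LocalOn (eRect (x - n) (x + n) (y - n) (y + n)) (AB x y k n) := by
  rintro η η' h ⟨u, hu, w, hw, hc⟩
  exact ⟨u, hu, w, hw, localOn_tconn _ _ _ _ _ _ η η' h hc⟩

theorem incr_AB (x y : ℤ) (k n : ℕ) : Incr (AB x y k n) := by
  rintro η η' h ⟨u, hu, w, hw, hc⟩
  exact ⟨u, hu, w, hw, hc.mono le_rfl fun x _ => h x⟩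

theorem LocalOn.neg (h : LocalOn s E) : LocalOn s {η | neg η ∈ E} := by
  intro ω ω' hω hE
  exact h _ _ (fun e he => by simp only [Site.neg]; rw [hω e he]) hE

theorem Incr.neg_compl (h : Incr E) : Incr {η | neg η ∈ E}ᶜ := by
  intro ω ω' hω hE hE'
  refine hE (h _ _ (fun e he => ?_) hE')
  simp only [neg, Bool.not_eq_true'] at he ⊢
  by_contra hc
  rw [Bool.not_eq_false] at hc
  rw [hω _ hc] at he
  exact absurd he (by decide)

theorem eRect_disjoint_x {a b c d a' b' c' d' : ℤ} (h : b < a' ∨ b' < a ∨ d < c' ∨ d' < c) :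
    Disjoint (eRect a b c d) (eRect a' b' c' d') := by
  rw [Finset.disjoint_left]
  intro v h1 h2
  rw [mem_eRect] at h1 h2
  simp only [rect, Set.mem_ofPred_eq] at h1 h2
  omega

/-! ### Elementary properties of `PT` -/

theorem PT_nonneg : 0 ≤ PT p r E := Pr_nonneg

theorem PT_le_one : PT p r E ≤ 1 := Pr_le_one

theorem PT_mono (h : E ⊆ F) : PT p r E ≤ PT p r F := Pr_mono fun _ hω => h hω

theorem PT_union_le : PT p r (E ∪ F) ≤ PT p r E + PT p r F := by
  have := Pr_union_le (p := p) (A := {ω | full r ω ∈ E}) (B := {ω | full r ω ∈ F})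
  exact this

theorem PT_compl (h : LocalOn s E) : PT p r Eᶜ = 1 - PT p r E := by
  have := Pr_compl (p := p) (localOn_full r h)
  exact this

theorem PT_biUnion_le {ι : Type*} (G : Finset ι) (A : ι → Set Config) :
    PT p r (⋃ i ∈ G, A i) ≤ ∑ i ∈ G, PT p r (A i) := by
  have h := Pr_biUnion_le (p := p) G (fun i => {ω | full r ω ∈ A i})
  refine le_trans (Pr_mono ?_) h
  intro ω hω
  simpa using hω

theorem PT_fkg (hE : LocalOn s E) (hF : LocalOn t F) (iE : Incr E) (iF : Incr F) :
    PT p r E * PT p r F ≤ PT p r (E ∩ F) := by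
  have := fkg (p := p) (localOn_full r hE) (localOn_full r hF) (incr_full r iE) (incr_full r iF)
  exact this

theorem PT_fkg_decr (hE : LocalOn s E) (hF : LocalOn t F) (iE : Incr Eᶜ) (iF : Incr Fᶜ) :
    PT p r E * PT p r F ≤ PT p r (E ∩ F) := by
  have := fkg_decr (p := p) (localOn_full r hE) (localOn_full r hF) (incr_full r iE)
    (incr_full r iF)
  exact this

theorem PT_indep (hE : LocalOn s E) (hF : LocalOn t F) (hst : Disjoint s t) :
    PT p r (E ∩ F) = PT p r E * PT p r F := by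
  have := Pr_inter_of_disjoint (p := p) (localOn_full r hE) (localOn_full r hF) hst
  exact this

theorem PT_mono_param (hE : LocalOn s E) (iE : Incr E) (hpq : p ≤ q) : PT p r E ≤ PT q r E :=
  Pr_mono_param (localOn_full r hE) (incr_full r iE) hpq

/-- Probabilities of local events are continuous functions of the density. -/
theorem PT_continuous (hE : LocalOn s E) (r : Bool) : Continuous (fun p : I => PT p r E) := by
  have h : ∀ p : I, PT p r E = PrR s {ω | full r ω ∈ E} (p : ℝ) := fun p =>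
    Pr_eq_PrR (localOn_full r hE) p
  simp only [h]
  exact (Pool.Agent.Perc.continuous_Ex s _).comp continuous_subtype_val

/-- Relabelling of the vertices. -/
theorem PT_comp (hE : LocalOn s E) {φ : TV → TV} (hφ : Set.InjOn φ s)
    (ht : ∀ v, (φ v).2.2 = v.2.2) : PT p r {η | (fun v => η (φ v)) ∈ E} = PT p r E := by
  unfold PT
  rw [← Pr_comp (localOn_full r hE) hφ]
  congr 1
  ext ω
  simp only [Set.mem_ofPred_eq]
  have : (fun v => full r ω (φ v)) = full r (fun e => ω (φ e)) := by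
    funext v
    simp only [full, ht]
  rw [this]

/-- Relabelling of the vertices and exchange of open and closed. -/
theorem PT_comp_not (hE : LocalOn s E) {φ : TV → TV} (hφ : Set.InjOn φ s)
    (ht : ∀ v, (φ v).2.2 = v.2.2) :
    PT p r {η | (fun v => !η (φ v)) ∈ E} = PT (σ p) (!r) E := by
  unfold PT
  rw [← Pr_comp_not (localOn_full (!r) hE) hφ]
  congr 1
  ext ω
  simp only [Set.mem_ofPred_eq]
  have : (fun v => !full r ω (φ v)) = full (!r) (fun e => !ω (φ e)) := by
    funext v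
    simp only [full, ht]
    split <;> rfl
  rw [this]

theorem PT_neg (hE : LocalOn s E) : PT p r {η | neg η ∈ E} = PT (σ p) (!r) E :=
  PT_comp_not hE (φ := id) (fun _ _ _ _ h => h) (fun _ => rfl)

theorem σσ (p : I) : σ (σ p) = p := unitInterval.symm_symm p

/-! ### Symmetries -/

/-- Translation. -/
def shf (x y : ℤ) (v : TV) : TV := (v.1 + x, v.2.1 + y, v.2.2)

/-- Reflection `x ↦ z - x`. -/
def rfx (z : ℤ) (v : TV) : TV := (z - v.1 - (if v.2.2 then 1 else 0), v.2.1, v.2.2)

/-- Reflection `y ↦ z - y`. -/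
def rfy (z : ℤ) (v : TV) : TV := (v.1, z - v.2.1 - (if v.2.2 then 1 else 0), v.2.2)

/-- Reflection in the diagonal. -/
def swp (v : TV) : TV := (v.2.1, v.1, v.2.2)

theorem fx_shf (x y : ℤ) (v : TV) : fx (shf x y v) = fx v + 2 * x := by
  obtain ⟨a, b, c⟩ := v
  cases c <;> simp [shf] <;> ring
theorem fy_shf (x y : ℤ) (v : TV) : fy (shf x y v) = fy v + 2 * y := by
  obtain ⟨a, b, c⟩ := v
  cases c <;> simp [shf] <;> ring
theorem fx_rfx (z : ℤ) (v : TV) : fx (rfx z v) = 2 * z - fx v := by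
  obtain ⟨x, y, b⟩ := v
  cases b <;> simp [rfx] <;> omega
theorem fy_rfx (z : ℤ) (v : TV) : fy (rfx z v) = fy v := by
  obtain ⟨x, y, b⟩ := v
  cases b <;> simp [rfx]
theorem fx_rfy (z : ℤ) (v : TV) : fx (rfy z v) = fx v := by
  obtain ⟨x, y, b⟩ := v
  cases b <;> simp [rfy]
theorem fy_rfy (z : ℤ) (v : TV) : fy (rfy z v) = 2 * z - fy v := by
  obtain ⟨x, y, b⟩ := v
  cases b <;> simp [rfy] <;> omega
theorem fx_swp (v : TV) : fx (swp v) = fy v := rfl
theorem fy_swp (v : TV) : fy (swp v) = fx v := rfl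

theorem shf_shf (x y : ℤ) (v : TV) : shf x y (shf (-x) (-y) v) = v := by
  obtain ⟨a, b, c⟩ := v; simp [shf]
theorem shf_shf' (x y : ℤ) (v : TV) : shf (-x) (-y) (shf x y v) = v := by
  obtain ⟨a, b, c⟩ := v; simp [shf]
theorem rfx_rfx (z : ℤ) (v : TV) : rfx z (rfx z v) = v := by
  obtain ⟨a, b, c⟩ := v
  cases c
  · simp [rfx]
  · simp only [rfx, if_true]; ext <;> simp <;> ring
theorem rfy_rfy (z : ℤ) (v : TV) : rfy z (rfy z v) = v := by
  obtain ⟨a, b, c⟩ := v
  cases c
  · simp [rfy]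
  · simp only [rfy, if_true]; ext <;> simp <;> ring
theorem swp_swp (v : TV) : swp (swp v) = v := rfl

theorem TAdj.shf {u v : TV} (h : TAdj u v) (x y : ℤ) : TAdj (shf x y u) (shf x y v) := by
  unfold TAdj Site.shf at *
  simp only
  rcases h with ⟨h1, h2, h3⟩ | ⟨h1, h2, h3⟩ | ⟨h1, h2, h3⟩
  · exact Or.inl ⟨h1, h2, by omega⟩
  · exact Or.inr (Or.inl ⟨h1, h2, by omega⟩)
  · exact Or.inr (Or.inr ⟨h1, h2, by omega⟩)

theorem TAdj.rfx {u v : TV} (h : TAdj u v) (z : ℤ) : TAdj (rfx z u) (rfx z v) := by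
  unfold TAdj Site.rfx at *
  simp only
  rcases h with ⟨h1, h2, h3⟩ | ⟨h1, h2, h3⟩ | ⟨h1, h2, h3⟩
  · refine Or.inl ⟨h1, h2, ?_⟩; rw [h1, h2]; simp only [Bool.false_eq_true, if_false]; omega
  · refine Or.inr (Or.inl ⟨h1, h2, ?_⟩); rw [h1, h2]
    simp only [Bool.false_eq_true, if_false, if_true]; omega
  · refine Or.inr (Or.inr ⟨h1, h2, ?_⟩); rw [h1, h2]
    simp only [Bool.false_eq_true, if_false, if_true]; omega

theorem TAdj.rfy {u v : TV} (h : TAdj u v) (z : ℤ) : TAdj (rfy z u) (rfy z v) := by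
  unfold TAdj Site.rfy at *
  simp only
  rcases h with ⟨h1, h2, h3⟩ | ⟨h1, h2, h3⟩ | ⟨h1, h2, h3⟩
  · refine Or.inl ⟨h1, h2, ?_⟩; rw [h1, h2]; simp only [Bool.false_eq_true, if_false]; omega
  · refine Or.inr (Or.inl ⟨h1, h2, ?_⟩); rw [h1, h2]
    simp only [Bool.false_eq_true, if_false, if_true]; omega
  · refine Or.inr (Or.inr ⟨h1, h2, ?_⟩); rw [h1, h2]
    simp only [Bool.false_eq_true, if_false, if_true]; omega

theorem TAdj.swp {u v : TV} (h : TAdj u v) : TAdj (swp u) (swp v) := by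
  unfold TAdj Site.swp at *
  simp only
  rcases h with ⟨h1, h2, h3⟩ | ⟨h1, h2, h3⟩ | ⟨h1, h2, h3⟩
  · exact Or.inl ⟨h1, h2, h3.symm⟩
  · exact Or.inr (Or.inl ⟨h1, h2, h3.symm⟩)
  · exact Or.inr (Or.inr ⟨h1, h2, h3.symm⟩)

/-- Behaviour of connections under an automorphism `φ` of the lattice with inverse `ψ`. -/
theorem tconn_comp {φ ψ : TV → TV} (h1 : ∀ v, φ (ψ v) = v) (h2 : ∀ v, ψ (φ v) = v)
    (hφ : ∀ u v, TAdj u v → TAdj (φ u) (φ v)) (hψ : ∀ u v, TAdj u v → TAdj (ψ u) (ψ v))
    {η : Config} {S : Set TV} {u v : TV} :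
    TConn (fun v => η (φ v)) S u v ↔ TConn η {w | ψ w ∈ S} (φ u) (φ v) := by
  constructor
  · intro h
    exact h.map φ (fun x hx => by simpa [h2] using hx) (fun x _ hx => hx)
      (fun a b _ _ hab => Or.inl (hφ a b hab))
  · intro h
    have := h.map (η' := fun v => η (φ v)) (T := S) ψ (fun x hx => hx)
      (fun x _ hx => by simp only [h1]; exact hx) (fun a b _ _ hab => Or.inl (hψ a b hab))
    rwa [h2, h2] at this

theorem TR_shf (a b c d x y : ℤ) :
    {w : TV | shf (-x) (-y) w ∈ TR a b c d} = TR (a + x) (b + x) (c + y) (d + y) := by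
  ext w
  simp only [Set.mem_ofPred_eq, mem_TR, fx_shf, fy_shf]
  omega

theorem TR_rfx (a b c d z : ℤ) : {w : TV | rfx z w ∈ TR a b c d} = TR (z - b) (z - a) c d := by
  ext w
  simp only [Set.mem_ofPred_eq, mem_TR, fx_rfx, fy_rfx]
  omega

theorem TR_rfy (a b c d z : ℤ) : {w : TV | rfy z w ∈ TR a b c d} = TR a b (z - d) (z - c) := by
  ext w
  simp only [Set.mem_ofPred_eq, mem_TR, fx_rfy, fy_rfy]
  omega

theorem TR_swp (a b c d : ℤ) : {w : TV | swp w ∈ TR a b c d} = TR c d a b := by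
  ext w
  simp only [Set.mem_ofPred_eq, mem_TR, fx_swp, fy_swp]
  omega

theorem tconn_shf {η : Config} {a b c d x y : ℤ} {u v : TV} :
    TConn (fun v => η (shf x y v)) (TR a b c d) u v ↔
      TConn η (TR (a + x) (b + x) (c + y) (d + y)) (shf x y u) (shf x y v) := by
  rw [tconn_comp (shf_shf x y) (shf_shf' x y) (fun _ _ h => h.shf x y)
    (fun _ _ h => h.shf (-x) (-y)), TR_shf]

theorem tconn_rfx {η : Config} {a b c d z : ℤ} {u v : TV} :
    TConn (fun v => η (rfx z v)) (TR a b c d) u v ↔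
      TConn η (TR (z - b) (z - a) c d) (rfx z u) (rfx z v) := by
  rw [tconn_comp (rfx_rfx z) (rfx_rfx z) (fun _ _ h => h.rfx z) (fun _ _ h => h.rfx z), TR_rfx]

theorem tconn_rfy {η : Config} {a b c d z : ℤ} {u v : TV} :
    TConn (fun v => η (rfy z v)) (TR a b c d) u v ↔
      TConn η (TR a b (z - d) (z - c)) (rfy z u) (rfy z v) := by
  rw [tconn_comp (rfy_rfy z) (rfy_rfy z) (fun _ _ h => h.rfy z) (fun _ _ h => h.rfy z), TR_rfy]

theorem tconn_swp {η : Config} {a b c d : ℤ} {u v : TV} :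
    TConn (fun v => η (swp v)) (TR a b c d) u v ↔
      TConn η (TR c d a b) (swp u) (swp v) := by
  rw [tconn_comp swp_swp swp_swp (fun _ _ h => h.swp) (fun _ _ h => h.swp), TR_swp]

theorem HC_shf {η : Config} {a b c d x y : ℤ} :
    HC (fun v => η (shf x y v)) a b c d ↔ HC η (a + x) (b + x) (c + y) (d + y) := by
  constructor
  · rintro ⟨z, z', h⟩
    rw [tconn_shf] at h
    exact ⟨z + y, z' + y, h⟩
  · rintro ⟨z, z', h⟩
    refine ⟨z - y, z' - y, ?_⟩
    rw [tconn_shf]
    simpa [shf] using h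

theorem VC_shf {η : Config} {a b c d x y : ℤ} :
    VC (fun v => η (shf x y v)) a b c d ↔ VC η (a + x) (b + x) (c + y) (d + y) := by
  constructor
  · rintro ⟨z, z', h⟩
    rw [tconn_shf] at h
    exact ⟨z + x, z' + x, h⟩
  · rintro ⟨z, z', h⟩
    refine ⟨z - x, z' - x, ?_⟩
    rw [tconn_shf]
    simpa [shf] using h

theorem HC_swp {η : Config} {a b c d : ℤ} :
    HC (fun v => η (swp v)) a b c d ↔ VC η c d a b := by
  constructor
  · rintro ⟨y, y', h⟩
    rw [tconn_swp] at h
    exact ⟨y, y', h⟩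
  · rintro ⟨y, y', h⟩
    exact ⟨y, y', tconn_swp.2 h⟩

theorem shf_injective (x y : ℤ) : Function.Injective (shf x y) := fun u v h => by
  rw [← shf_shf' x y u, h, shf_shf']

theorem rfx_injective (z : ℤ) : Function.Injective (rfx z) := fun u v h => by
  rw [← rfx_rfx z u, h, rfx_rfx]

theorem rfy_injective (z : ℤ) : Function.Injective (rfy z) := fun u v h => by
  rw [← rfy_rfy z u, h, rfy_rfy]

theorem swp_injective : Function.Injective swp := fun u v h => by
  rw [← swp_swp u, h, swp_swp]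

/-- Translation invariance of crossing probabilities. -/
theorem PT_HC_shf (p : I) (r : Bool) (a b c d x y : ℤ) :
    PT p r {η | HC η (a + x) (b + x) (c + y) (d + y)} = PT p r {η | HC η a b c d} := by
  rw [← PT_comp (p := p) (r := r) (localOn_HC a b c d) (shf_injective x y).injOn (fun _ => rfl)]
  congr 1
  ext η
  exact HC_shf.symm

theorem PT_VC_shf (p : I) (r : Bool) (a b c d x y : ℤ) :
    PT p r {η | VC η (a + x) (b + x) (c + y) (d + y)} = PT p r {η | VC η a b c d} := by
  rw [← PT_comp (p := p) (r := r) (localOn_VC a b c d) (shf_injective x y).injOn (fun _ => rfl)]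
  congr 1
  ext η
  exact VC_shf.symm

/-- Reflection in the diagonal. -/
theorem PT_VC_eq_HC (p : I) (r : Bool) (a b c d : ℤ) :
    PT p r {η | VC η a b c d} = PT p r {η | HC η c d a b} := by
  rw [← PT_comp (p := p) (r := r) (localOn_HC c d a b) swp_injective.injOn (fun _ => rfl)]
  congr 1
  ext η
  exact HC_swp.symm

theorem AB_shf (x y : ℤ) (k n : ℕ) :
    {η : Config | (fun v => η (shf x y v)) ∈ AB 0 0 k n} = AB x y k n := by
  ext η
  simp only [AB, Set.mem_ofPred_eq]
  constructor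
  · rintro ⟨u, hu, w, hw, hc⟩
    rw [tconn_shf] at hc
    refine ⟨shf x y u, ?_, shf x y w, ?_, ?_⟩
    · rw [mem_TR] at hu ⊢; rw [fx_shf, fy_shf]; omega
    · obtain ⟨h1, h2, h3⟩ := hw
      refine ⟨?_, h2, ?_⟩
      · rw [mem_TR] at h1 ⊢; rw [fx_shf, fy_shf]; omega
      · simp only [shf]; omega
    · have e1 : (0 : ℤ) - n + x = x - n := by ring
      have e2 : (0 : ℤ) + n + x = x + n := by ring
      have e3 : (0 : ℤ) - n + y = y - n := by ring
      have e4 : (0 : ℤ) + n + y = y + n := by ring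
      rwa [e1, e2, e3, e4] at hc
  · rintro ⟨u, hu, w, hw, hc⟩
    refine ⟨shf (-x) (-y) u, ?_, shf (-x) (-y) w, ?_, ?_⟩
    · rw [mem_TR] at hu ⊢; rw [fx_shf, fy_shf]; omega
    · obtain ⟨h1, h2, h3⟩ := hw
      refine ⟨?_, h2, ?_⟩
      · rw [mem_TR] at h1 ⊢; rw [fx_shf, fy_shf]; omega
      · simp only [shf]; omega
    · rw [tconn_shf, shf_shf, shf_shf]
      have e1 : (0 : ℤ) - n + x = x - n := by ring
      have e2 : (0 : ℤ) + n + x = x + n := by ring
      have e3 : (0 : ℤ) - n + y = y - n := by ring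
      have e4 : (0 : ℤ) + n + y = y + n := by ring
      rw [e1, e2, e3, e4]
      exact hc

/-- Translation invariance of the arm probabilities. -/
theorem PT_AB (p : I) (r : Bool) (x y : ℤ) (k n : ℕ) : PT p r (AB x y k n) = ab p r k n := by
  rw [← AB_shf x y k n, PT_comp (localOn_AB 0 0 k n) (shf_injective x y).injOn (fun _ => rfl), ab]

theorem ab_nonneg {k n : ℕ} : 0 ≤ ab p r k n := PT_nonneg

theorem ab_le_one {k n : ℕ} : ab p r k n ≤ 1 := PT_le_one

theorem ab_mono_param (r : Bool) (k n : ℕ) (h : p ≤ q) : ab p r k n ≤ ab q r k n :=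
  PT_mono_param (localOn_AB 0 0 k n) (incr_AB 0 0 k n) h

/-! ### Paths and squares -/

/-- A path from the square of half side `n` to a vertex outside or on the boundary contains a path
inside the square to the boundary. -/
theorem TConn.to_sph {η : Config} {S : Set TV} {u w : TV} {x y : ℤ} {n : ℕ}
    (h : TConn η S u w) (hu : u ∈ TR (x - n) (x + n) (y - n) (y + n))
    (hw : fx w ≤ 2 * (x - n) ∨ 2 * (x + n) ≤ fx w ∨ fy w ≤ 2 * (y - n) ∨ 2 * (y + n) ≤ fy w) :
    ∃ z ∈ sph x y n, TConn η (S ∩ TR (x - n) (x + n) (y - n) (y + n)) u z := by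
  set T : Set TV := {v | 2 * (x - n) < fx v ∧ fx v < 2 * (x + n) ∧ 2 * (y - n) < fy v ∧
    fy v < 2 * (y + n)} with hT
  have hwT : w ∉ T := by
    rw [hT]; simp only [Set.mem_ofPred_eq]; omega
  have hsph : ∀ v : TV, v ∈ TR (x - n) (x + n) (y - n) (y + n) → v ∉ T → v ∈ sph x y n := by
    intro v hv hvT
    refine ⟨hv, ?_⟩
    rw [mem_TR] at hv
    rw [hT] at hvT
    simp only [Set.mem_ofPred_eq] at hvT
    have : fx v = 2 * (x - n) ∨ fx v = 2 * (x + n) ∨ fy v = 2 * (y - n) ∨ fy v = 2 * (y + n) := by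
      omega
    rcases this with h | h | h | h
    · exact ⟨(site_of_fx h).1, Or.inl (site_of_fx h).2⟩
    · exact ⟨(site_of_fx h).1, Or.inr (Or.inl (site_of_fx h).2)⟩
    · exact ⟨(site_of_fy h).1, Or.inr (Or.inr (Or.inl (site_of_fy h).2))⟩
    · exact ⟨(site_of_fy h).1, Or.inr (Or.inr (Or.inr (site_of_fy h).2))⟩
  by_cases huT : u ∈ T
  · obtain ⟨a, b, h1, h2, h3, -⟩ := h.exists_exit huT hwT
    have ha := h1.mem_right.2
    rw [hT] at ha
    simp only [Set.mem_ofPred_eq] at ha
    have hb : b ∈ TR (x - n) (x + n) (y - n) (y + n) := by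
      rw [mem_TR]
      exact ⟨h2.2.2.1.le_fx ha.1, h2.2.2.1.fx_le ha.2.1, h2.2.2.1.le_fy ha.2.2.1,
        h2.2.2.1.fy_le ha.2.2.2⟩
    refine ⟨b, hsph b hb h3, ?_⟩
    have h4 : TConn η (S ∩ TR (x - n) (x + n) (y - n) (y + n)) u a :=
      h1.mono_set fun v hv => ⟨hv.1, by
        have := hv.2; rw [hT] at this; simp only [Set.mem_ofPred_eq] at this
        rw [mem_TR]; omega⟩
    exact h4.tail ⟨h4.mem_right, ⟨h2.2.1, hb⟩, h2.2.2⟩
  · exact ⟨u, hsph u hu huT, TConn.refl ⟨h.mem_left, hu⟩ h.open_left⟩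

/-- A far connection gives an arm event. -/
theorem TConn.mem_AB {η : Config} {S : Set TV} {u w : TV} {x y : ℤ} {k n : ℕ}
    (h : TConn η S u w) (hk : k ≤ n) (hu : u ∈ TR (x - k) (x + k) (y - k) (y + k))
    (hw : fx w ≤ 2 * (x - n) ∨ 2 * (x + n) ≤ fx w ∨ fy w ≤ 2 * (y - n) ∨ 2 * (y + n) ≤ fy w) :
    η ∈ AB x y k n := by
  obtain ⟨z, hz, hc⟩ := h.to_sph (x := x) (y := y) (n := n)
    (TR_mono (by omega) (by omega) (by omega) (by omega) hu) hw
  exact ⟨u, hu, z, hz, hc.mono_set Set.inter_subset_right⟩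

theorem AB_mono {x y : ℤ} {k k' n n' : ℕ} (hk : k ≤ k') (hn : n' ≤ n) (hkn : k' ≤ n') :
    AB x y k n ⊆ AB x y k' n' := by
  rintro η ⟨u, hu, w, hw, hc⟩
  refine hc.mem_AB hkn (TR_mono (by omega) (by omega) (by omega) (by omega) hu) ?_
  obtain ⟨h1, h2, h3⟩ := hw
  rw [fx_even h2, fy_even h2]
  omega

theorem ab_mono {k k' n n' : ℕ} (hk : k ≤ k') (hn : n' ≤ n) (hkn : k' ≤ n') :
    ab p r k n ≤ ab p r k' n' := PT_mono (AB_mono hk hn hkn)

/-! ### Square root trick -/

theorem PT_sqrt_trick (hE : LocalOn s E) (hF : LocalOn t F) (iE : Incr E) (iF : Incr F)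
    (h : PT p r F = PT p r E) : 1 - Real.sqrt (1 - PT p r (E ∪ F)) ≤ PT p r E := by
  classical
  have hc : PT p r Eᶜ * PT p r Fᶜ ≤ PT p r (Eᶜ ∩ Fᶜ) :=
    PT_fkg_decr hE.compl hF.compl (by rwa [compl_compl]) (by rwa [compl_compl])
  have hU : LocalOn (s ∪ t) (E ∪ F) :=
    (hE.mono Finset.subset_union_left).union (hF.mono Finset.subset_union_right)
  have h2 : PT p r (Eᶜ ∩ Fᶜ) = 1 - PT p r (E ∪ F) := by
    rw [← PT_compl hU, Set.compl_union]
  rw [h2, PT_compl hE, PT_compl hF, h] at hc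
  have h3 : 0 ≤ 1 - PT p r E := by linarith [PT_le_one (p := p) (r := r) (E := E)]
  have h4 : 1 - PT p r E ≤ Real.sqrt (1 - PT p r (E ∪ F)) := by
    apply Real.le_sqrt_of_sq_le
    rw [sq]; exact hc
  linarith

end Pool.Agent.H83.Site

end

section

/-! # Duality: open horizontal and closed vertical crossings do not coexist

The centred lattice `T` is drawn in the square lattice `ℤ²`, scaled by 3: the site `(x, y)` at
`(3 x, 3 y)` and the centre `(x, y)` at `(3 x + 1, 3 y + 1)`. Every vertex of the fine lattice has a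
label, a vertex of `T`, such that every edge `u v` of `T` is drawn as a path of vertices with the
labels `u` and `v`. An open horizontal and a closed vertical crossing give two paths in the fine
lattice which cross (`Pool.Agent.H89.Perc.cross`), in a vertex whose label is both open and closed.
-/

set_option autoImplicit false

namespace Pool.Agent.H83.Site

open Pool.Agent.H89.Perc

/-- The label of a vertex of the fine lattice. -/
private def lab (p : Vert) : TV :=
  if p.2 % 3 = 0 then ((p.1 + 1) / 3, p.2 / 3, false)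
  else if p.1 % 3 = 0 then (p.1 / 3, (p.2 + 1) / 3, false)
  else (p.1 / 3, p.2 / 3, true)

private lemma lab_row {m n x y : ℤ} (hn : n = 3 * y) (h1 : 3 * x - 1 ≤ m) (h2 : m ≤ 3 * x + 1) :
    lab (m, n) = (x, y, false) := by
  unfold lab
  simp only
  rw [if_pos (by omega)]
  refine Prod.ext ?_ (Prod.ext ?_ rfl) <;> simp only <;> omega

private lemma lab_col {m n x y : ℤ} (hm : m = 3 * x) (h1 : 3 * y - 1 ≤ n) (h2 : n ≤ 3 * y + 1) :
    lab (m, n) = (x, y, false) := by
  by_cases h : n = 3 * y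
  · exact lab_row h (by omega) (by omega)
  · unfold lab
    simp only
    rw [if_neg (by omega), if_pos (by omega)]
    refine Prod.ext ?_ (Prod.ext ?_ rfl) <;> simp only <;> omega

private lemma lab_cen {m n x y : ℤ} (h1 : 3 * x + 1 ≤ m) (h2 : m ≤ 3 * x + 2)
    (h3 : 3 * y + 1 ≤ n) (h4 : n ≤ 3 * y + 2) : lab (m, n) = (x, y, true) := by
  unfold lab
  simp only
  rw [if_neg (by omega), if_neg (by omega)]
  refine Prod.ext ?_ (Prod.ext ?_ rfl) <;> simp only <;> omega

/-- The position of a vertex of `T` in the fine lattice. -/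
private def pos (v : TV) : Vert := if v.2.2 then (3 * v.1 + 1, 3 * v.2.1 + 1) else (3 * v.1, 3 * v.2.1)

/-- The bonds of the fine lattice between vertices with open labels. -/
private def fine (η : Config) : Config := fun e => η (lab (src e)) && η (lab (tgt e))

private lemma fine_h {η : Config} {S : Set Vert} {m n m' : ℤ} (hm : m' = m + 1)
    (h1 : (m, n) ∈ S) (h2 : (m', n) ∈ S) (h3 : η (lab (m, n)) = true)
    (h4 : η (lab (m', n)) = true) : Conn (fine η) S (m, n) (m', n) := by
  subst hm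
  refine Step.conn ⟨h1, h2, (m, n, false), Or.inl ⟨?_, ?_⟩, ?_⟩
  · simp [src]
  · simp [tgt]
  · simp [fine, src, tgt, h3, h4]

private lemma fine_v {η : Config} {S : Set Vert} {m n n' : ℤ} (hn : n' = n + 1)
    (h1 : (m, n) ∈ S) (h2 : (m, n') ∈ S) (h3 : η (lab (m, n)) = true)
    (h4 : η (lab (m, n')) = true) : Conn (fine η) S (m, n) (m, n') := by
  subst hn
  refine Step.conn ⟨h1, h2, (m, n, true), Or.inl ⟨?_, ?_⟩, ?_⟩
  · simp [src]
  · simp [tgt]
  · simp [fine, src, tgt, h3, h4]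

/-- Labels along fine paths are open. -/
private lemma fine_open {η : Config} {S : Set Vert} {p q : Vert} (h : Conn (fine η) S p q)
    (hp : η (lab p) = true) : η (lab q) = true := by
  refine h.induction_right (P := fun q => η (lab q) = true) hp ?_
  rintro a b _ ⟨_, _, e, he, ho⟩ _
  simp only [fine, Bool.and_eq_true] at ho
  rcases he with ⟨h1, h2⟩ | ⟨h1, h2⟩
  · rw [h2]; exact ho.2
  · rw [h2]; exact ho.1

private lemma fine_ss_h {η : Config} {a b c d x y : ℤ} (hu : (x, y, false) ∈ TR a b c d)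
    (hv : (x + 1, y, false) ∈ TR a b c d) (ou : η (x, y, false) = true)
    (ov : η (x + 1, y, false) = true) :
    Conn (fine η) (rect (3 * a) (3 * b) (3 * c) (3 * d)) (3 * x, 3 * y) (3 * (x + 1), 3 * y) := by
  rw [mem_TR_site] at hu hv
  have l0 : η (lab (3 * x, 3 * y)) = true := by
    rw [lab_row (x := x) (y := y) rfl (by omega) (by omega)]; exact ou
  have l1 : η (lab (3 * x + 1, 3 * y)) = true := by
    rw [lab_row (x := x) (y := y) rfl (by omega) (by omega)]; exact ou
  have l2 : η (lab (3 * x + 2, 3 * y)) = true := by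
    rw [lab_row (x := x + 1) (y := y) rfl (by omega) (by omega)]; exact ov
  have l3 : η (lab (3 * (x + 1), 3 * y)) = true := by
    rw [lab_row (x := x + 1) (y := y) rfl (by omega) (by omega)]; exact ov
  have m0 : ((3 * x, 3 * y) : Vert) ∈ rect (3 * a) (3 * b) (3 * c) (3 * d) := by
    simp only [rect, Set.mem_ofPred_eq]; omega
  have m1 : ((3 * x + 1, 3 * y) : Vert) ∈ rect (3 * a) (3 * b) (3 * c) (3 * d) := by
    simp only [rect, Set.mem_ofPred_eq]; omega
  have m2 : ((3 * x + 2, 3 * y) : Vert) ∈ rect (3 * a) (3 * b) (3 * c) (3 * d) := by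
    simp only [rect, Set.mem_ofPred_eq]; omega
  have m3 : ((3 * (x + 1), 3 * y) : Vert) ∈ rect (3 * a) (3 * b) (3 * c) (3 * d) := by
    simp only [rect, Set.mem_ofPred_eq]; omega
  exact ((fine_h (by ring) m0 m1 l0 l1).trans (fine_h (by ring) m1 m2 l1 l2)).trans
    (fine_h (by ring) m2 m3 l2 l3)

private lemma fine_ss_v {η : Config} {a b c d x y : ℤ} (hu : (x, y, false) ∈ TR a b c d)
    (hv : (x, y + 1, false) ∈ TR a b c d) (ou : η (x, y, false) = true)
    (ov : η (x, y + 1, false) = true) :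
    Conn (fine η) (rect (3 * a) (3 * b) (3 * c) (3 * d)) (3 * x, 3 * y) (3 * x, 3 * (y + 1)) := by
  rw [mem_TR_site] at hu hv
  have l0 : η (lab (3 * x, 3 * y)) = true := by
    rw [lab_col (x := x) (y := y) rfl (by omega) (by omega)]; exact ou
  have l1 : η (lab (3 * x, 3 * y + 1)) = true := by
    rw [lab_col (x := x) (y := y) rfl (by omega) (by omega)]; exact ou
  have l2 : η (lab (3 * x, 3 * y + 2)) = true := by
    rw [lab_col (x := x) (y := y + 1) rfl (by omega) (by omega)]; exact ov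
  have l3 : η (lab (3 * x, 3 * (y + 1))) = true := by
    rw [lab_col (x := x) (y := y + 1) rfl (by omega) (by omega)]; exact ov
  have m0 : ((3 * x, 3 * y) : Vert) ∈ rect (3 * a) (3 * b) (3 * c) (3 * d) := by
    simp only [rect, Set.mem_ofPred_eq]; omega
  have m1 : ((3 * x, 3 * y + 1) : Vert) ∈ rect (3 * a) (3 * b) (3 * c) (3 * d) := by
    simp only [rect, Set.mem_ofPred_eq]; omega
  have m2 : ((3 * x, 3 * y + 2) : Vert) ∈ rect (3 * a) (3 * b) (3 * c) (3 * d) := by
    simp only [rect, Set.mem_ofPred_eq]; omega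
  have m3 : ((3 * x, 3 * (y + 1)) : Vert) ∈ rect (3 * a) (3 * b) (3 * c) (3 * d) := by
    simp only [rect, Set.mem_ofPred_eq]; omega
  exact ((fine_v (by ring) m0 m1 l0 l1).trans (fine_v (by ring) m1 m2 l1 l2)).trans
    (fine_v (by ring) m2 m3 l2 l3)

/-- The edges between a centre and the four corners of its square. -/
private lemma fine_sc {η : Config} {a b c d x y x' y' : ℤ} (hx : x' = x ∨ x' = x + 1)
    (hy : y' = y ∨ y' = y + 1) (hu : (x', y', false) ∈ TR a b c d)
    (hv : (x, y, true) ∈ TR a b c d) (ou : η (x', y', false) = true)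
    (ov : η (x, y, true) = true) :
    Conn (fine η) (rect (3 * a) (3 * b) (3 * c) (3 * d)) (3 * x', 3 * y')
      (3 * x + 1, 3 * y + 1) := by
  rw [mem_TR_site] at hu
  rw [mem_TR_cen] at hv
  -- the four vertices inside the square
  have li : ∀ m n : ℤ, 3 * x + 1 ≤ m → m ≤ 3 * x + 2 → 3 * y + 1 ≤ n → n ≤ 3 * y + 2 →
      η (lab (m, n)) = true := by
    intro m n h1 h2 h3 h4
    rw [lab_cen h1 h2 h3 h4]; exact ov
  have mi : ∀ m n : ℤ, 3 * x ≤ m → m ≤ 3 * x + 3 → 3 * y ≤ n → n ≤ 3 * y + 3 →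
      ((m, n) : Vert) ∈ rect (3 * a) (3 * b) (3 * c) (3 * d) := by
    intro m n h1 h2 h3 h4
    simp only [rect, Set.mem_ofPred_eq]; omega
  -- paths between the vertices inside the square
  have c00 : Conn (fine η) (rect (3 * a) (3 * b) (3 * c) (3 * d)) (3 * x + 1, 3 * y + 1)
      (3 * x + 1, 3 * y + 1) := Conn.refl (mi _ _ (by omega) (by omega) (by omega) (by omega))
  have c10 : Conn (fine η) (rect (3 * a) (3 * b) (3 * c) (3 * d)) (3 * x + 2, 3 * y + 1)
      (3 * x + 1, 3 * y + 1) :=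
    (fine_h (by ring) (mi _ _ (by omega) (by omega) (by omega) (by omega))
      (mi _ _ (by omega) (by omega) (by omega) (by omega))
      (li _ _ (by omega) (by omega) (by omega) (by omega))
      (li _ _ (by omega) (by omega) (by omega) (by omega))).symm
  have c01 : Conn (fine η) (rect (3 * a) (3 * b) (3 * c) (3 * d)) (3 * x + 1, 3 * y + 2)
      (3 * x + 1, 3 * y + 1) :=
    (fine_v (by ring) (mi _ _ (by omega) (by omega) (by omega) (by omega))
      (mi _ _ (by omega) (by omega) (by omega) (by omega))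
      (li _ _ (by omega) (by omega) (by omega) (by omega))
      (li _ _ (by omega) (by omega) (by omega) (by omega))).symm
  have c11 : Conn (fine η) (rect (3 * a) (3 * b) (3 * c) (3 * d)) (3 * x + 2, 3 * y + 2)
      (3 * x + 1, 3 * y + 1) :=
    (fine_h (by ring) (mi _ _ (by omega) (by omega) (by omega) (by omega))
      (mi _ _ (by omega) (by omega) (by omega) (by omega))
      (li _ _ (by omega) (by omega) (by omega) (by omega))
      (li _ _ (by omega) (by omega) (by omega) (by omega))).symm.trans c01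
  -- labels near the corner
  have ls : ∀ m : ℤ, 3 * x' - 1 ≤ m → m ≤ 3 * x' + 1 → η (lab (m, 3 * y')) = true := by
    intro m h1 h2
    rw [lab_row rfl h1 h2]; exact ou
  rcases hx with rfl | rfl
  · have s1 : Conn (fine η) (rect (3 * a) (3 * b) (3 * c) (3 * d)) (3 * x', 3 * y')
        (3 * x' + 1, 3 * y') :=
      fine_h rfl (mi _ _ (by omega) (by omega) (by omega) (by omega))
        (mi _ _ (by omega) (by omega) (by omega) (by omega))
        (ls _ (by omega) (by omega)) (ls _ (by omega) (by omega))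
    rcases hy with rfl | rfl
    · exact (s1.trans (fine_v rfl (mi _ _ (by omega) (by omega) (by omega) (by omega))
        (mi _ _ (by omega) (by omega) (by omega) (by omega)) (ls _ (by omega) (by omega))
        (li _ _ (by omega) (by omega) (by omega) (by omega)))).trans c00
    · exact (s1.trans (fine_v (n := 3 * y + 2) (n' := 3 * (y + 1)) (by ring)
        (mi _ _ (by omega) (by omega) (by omega) (by omega))
        (mi _ _ (by omega) (by omega) (by omega) (by omega))
        (li _ _ (by omega) (by omega) (by omega) (by omega))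
        (ls _ (by omega) (by omega))).symm).trans c01
  · have s1 : Conn (fine η) (rect (3 * a) (3 * b) (3 * c) (3 * d)) (3 * (x + 1), 3 * y')
        (3 * x + 2, 3 * y') :=
      (fine_h (m := 3 * x + 2) (m' := 3 * (x + 1)) (by ring)
        (mi _ _ (by omega) (by omega) (by omega) (by omega))
        (mi _ _ (by omega) (by omega) (by omega) (by omega))
        (ls _ (by omega) (by omega)) (ls _ (by omega) (by omega))).symm
    rcases hy with rfl | rfl
    · exact (s1.trans (fine_v rfl (mi _ _ (by omega) (by omega) (by omega) (by omega))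
        (mi _ _ (by omega) (by omega) (by omega) (by omega)) (ls _ (by omega) (by omega))
        (li _ _ (by omega) (by omega) (by omega) (by omega)))).trans c10
    · exact (s1.trans (fine_v (n := 3 * y + 2) (n' := 3 * (y + 1)) (by ring)
        (mi _ _ (by omega) (by omega) (by omega) (by omega))
        (mi _ _ (by omega) (by omega) (by omega) (by omega))
        (li _ _ (by omega) (by omega) (by omega) (by omega))
        (ls _ (by omega) (by omega))).symm).trans c11

/-- A step between open vertices of `T` gives a path in the fine lattice. -/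
private lemma fine_step {η : Config} {a b c d : ℤ} {u v : TV} (h : TStep η (TR a b c d) u v) :
    Conn (fine η) (rect (3 * a) (3 * b) (3 * c) (3 * d)) (pos u) (pos v) := by
  obtain ⟨hu, hv, hadj, ou, ov⟩ := h
  obtain ⟨x, y, r⟩ := u
  obtain ⟨x', y', r'⟩ := v
  unfold TAdj at hadj
  simp only at hadj
  rcases hadj with ⟨h1, h2, h3⟩ | ⟨h1, h2, h3, h4⟩ | ⟨h1, h2, h3, h4⟩
  · subst h1 h2
    simp only [pos, Bool.false_eq_true, if_false]
    rcases h3 with ⟨h3, h4 | h4⟩ | ⟨h3, h4 | h4⟩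
    · subst h3 h4
      exact (fine_ss_v hv hu ov ou).symm
    · subst h3 h4
      exact fine_ss_v hu hv ou ov
    · subst h3 h4
      exact (fine_ss_h hv hu ov ou).symm
    · subst h3 h4
      exact fine_ss_h hu hv ou ov
  · subst h1 h2
    simp only [pos, Bool.false_eq_true, if_false, if_true]
    exact fine_sc h3 h4 hu hv ou ov
  · subst h1 h2
    simp only [pos, Bool.false_eq_true, if_false, if_true]
    exact (fine_sc h3 h4 hv hu ov ou).symm

private lemma pos_mem {a b c d : ℤ} {u : TV} (h : u ∈ TR a b c d) :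
    pos u ∈ rect (3 * a) (3 * b) (3 * c) (3 * d) := by
  obtain ⟨x, y, r⟩ := u
  cases r
  · rw [mem_TR_site] at h
    simp only [pos, Bool.false_eq_true, if_false, rect, Set.mem_ofPred_eq]; omega
  · rw [mem_TR_cen] at h
    simp only [pos, if_true, rect, Set.mem_ofPred_eq]; omega

private lemma fine_conn {η : Config} {a b c d : ℤ} {u v : TV} (h : TConn η (TR a b c d) u v) :
    Conn (fine η) (rect (3 * a) (3 * b) (3 * c) (3 * d)) (pos u) (pos v) :=
  h.induction_right (P := fun v => Conn (fine η) (rect (3 * a) (3 * b) (3 * c) (3 * d)) (pos u)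
    (pos v)) (Conn.refl (pos_mem h.mem_left)) fun _ _ _ hs ih => ih.trans (fine_step hs)

theorem not_hc_and_vc {a b c d : ℤ} {η : Config} (h : HC η a b c d) : ¬ VC (neg η) a b c d := by
  rintro ⟨x, x', h'⟩
  obtain ⟨y, y', h⟩ := h
  have hc := fine_conn h
  have hc' := fine_conn h'
  simp only [pos, Bool.false_eq_true, if_false] at hc hc'
  obtain ⟨w, h1, h2⟩ := cross hc rfl rfl hc' rfl rfl
  have h3 : η (lab w) = true := fine_open h1 (by
    rw [lab_row (x := a) (y := y) rfl (by omega) (by omega)]; exact h.open_left)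
  have h4 : neg η (lab w) = true := fine_open h2 (by
    rw [lab_row (x := x) (y := c) rfl (by omega) (by omega)]; exact h'.open_left)
  simp only [neg, h3] at h4
  exact absurd h4 (by simp)

end Pool.Agent.H83.Site

end

section

/-! # Paths which cross a rectangle in different directions meet -/

set_option autoImplicit false

namespace Pool.Agent.H83.Site

open Pool.Agent.H89.Perc

/-! ### Indicator of a cluster -/

open Classical in
/-- The indicator of the open cluster of `u` in `S`. -/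
noncomputable def glueClu (η : Config) (S : Set TV) (u : TV) : Config :=
  fun v => if TConn η S u v then true else false

theorem glueClu_eq_true {η : Config} {S : Set TV} {u v : TV} :
    glueClu η S u v = true ↔ TConn η S u v := by
  unfold glueClu
  split <;> simp_all

theorem neg_glueClu_eq_true {η : Config} {S : Set TV} {u v : TV} :
    neg (glueClu η S u) v = true ↔ ¬ TConn η S u v := by
  unfold neg
  rw [← glueClu_eq_true (η := η) (S := S) (u := u) (v := v)]
  simp

theorem glue_in_clu {η : Config} {S : Set TV} {u v : TV} (h : TConn η S u v) :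
    TConn (glueClu η S u) S u v := by
  refine h.induction_right (P := fun v => TConn (glueClu η S u) S u v)
    (TConn.refl h.mem_left (glueClu_eq_true.2 (TConn.refl h.mem_left h.open_left))) ?_
  intro a b hua hab ih
  exact ih.tail ⟨hab.1, hab.2.1, hab.2.2.1, glueClu_eq_true.2 hua,
    glueClu_eq_true.2 (hua.tail hab)⟩

theorem glue_avoid {η : Config} {S : Set TV} {u x x' : TV} (h : TConn η S x x')
    (hx : ¬ TConn η S u x) : TConn (neg (glueClu η S u)) S x x' := by
  refine h.induction_right (P := fun v => TConn (neg (glueClu η S u)) S x v)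
    (TConn.refl h.mem_left (neg_glueClu_eq_true.2 hx)) ?_
  intro a b hxa hab ih
  exact ih.tail ⟨hab.1, hab.2.1, hab.2.2.1, neg_glueClu_eq_true.2 fun hh => hx (hh.trans hxa.symm),
    neg_glueClu_eq_true.2 fun hh => hx (hh.trans (hxa.tail hab).symm)⟩

theorem glue_closed {η : Config} {S : Set TV} {u x x' : TV} (h : TConn (neg η) S x x') :
    TConn (neg (glueClu η S u)) S x x' := by
  refine h.mono le_rfl fun v _ hv => neg_glueClu_eq_true.2 fun hh => ?_
  have := hh.open_right
  unfold neg at hv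
  rw [this] at hv
  simp at hv

/-! ### The extension by one column -/

/-- `η` extended by the column `x = a - 1`, where exactly the sites with `y < t` are open. -/
def glueExt (η : Config) (a t : ℤ) : Config :=
  fun v => if 2 * a ≤ fx v then η v else if v.2.1 < t then true else false

theorem glueExt_conn {η : Config} {a b c d t : ℤ} {u v : TV} (h : TConn η (TR a b c d) u v) :
    TConn (glueExt η a t) (TR (a - 1) b c d) u v := by
  refine h.mono (TR_mono (by omega) le_rfl le_rfl le_rfl) fun x hx ho => ?_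
  unfold glueExt
  rw [if_pos (mem_TR.1 hx).1]
  exact ho

theorem glueExt_neg_conn {η : Config} {a b c d t : ℤ} {u v : TV}
    (h : TConn (neg η) (TR a b c d) u v) :
    TConn (neg (glueExt η a t)) (TR (a - 1) b c d) u v := by
  refine h.mono (TR_mono (by omega) le_rfl le_rfl le_rfl) fun x hx ho => ?_
  unfold neg glueExt
  unfold neg at ho
  rw [if_pos (mem_TR.1 hx).1]
  exact ho

theorem glueExt_site {η : Config} {a t y : ℤ} :
    glueExt η a t (a - 1, y, false) = if y < t then true else false := by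
  unfold glueExt
  rw [if_neg (by rw [fx_site]; omega)]

/-- The column of new open sites. -/
theorem glueExt_col_open {η : Config} {a b c d t : ℤ} (hab : a ≤ b) (y : ℤ) (hy : y < t)
    (hc : c ≤ y) (hd : y ≤ d) (n : ℕ) (hn : c ≤ y - n) :
    TConn (glueExt η a t) (TR (a - 1) b c d) (a - 1, y, false) (a - 1, y - n, false) := by
  induction n with
  | zero =>
    simp only [Nat.cast_zero, sub_zero]
    refine TConn.refl ?_ ?_
    · rw [mem_TR_site]; omega
    · rw [glueExt_site, if_pos hy]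
  | succ n ih =>
    have hn' : c ≤ y - n := by push_cast at hn; omega
    refine (ih hn').tail ⟨?_, ?_, ?_, ?_, ?_⟩
    · rw [mem_TR_site]; omega
    · rw [mem_TR_site]; push_cast at hn ⊢; omega
    · left
      refine ⟨rfl, rfl, Or.inl ⟨rfl, Or.inl ?_⟩⟩
      push_cast; ring
    · rw [glueExt_site, if_pos (by omega)]
    · rw [glueExt_site, if_pos (by push_cast; omega)]

/-- The column of new closed sites. -/
theorem glueExt_col_closed {η : Config} {a b c d t : ℤ} (hab : a ≤ b) (y : ℤ) (hy : t ≤ y)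
    (hc : c ≤ y) (hd : y ≤ d) (n : ℕ) (hn : y + n ≤ d) :
    TConn (neg (glueExt η a t)) (TR (a - 1) b c d) (a - 1, y, false) (a - 1, y + n, false) := by
  have hval : ∀ z : ℤ, t ≤ z → neg (glueExt η a t) (a - 1, z, false) = true := by
    intro z hz
    unfold neg
    rw [glueExt_site, if_neg (by omega)]
    rfl
  induction n with
  | zero =>
    simp only [Nat.cast_zero, add_zero]
    refine TConn.refl ?_ (hval y hy)
    rw [mem_TR_site]; omega
  | succ n ih =>
    have hn' : y + n ≤ d := by push_cast at hn; omega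
    refine (ih hn').tail ⟨?_, ?_, ?_, hval _ (by omega), hval _ (by push_cast; omega)⟩
    · rw [mem_TR_site]; omega
    · rw [mem_TR_site]; push_cast at hn ⊢; omega
    · left
      refine ⟨rfl, rfl, Or.inl ⟨rfl, Or.inr ?_⟩⟩
      push_cast; ring

theorem glue_adj_left (a y : ℤ) : TAdj (a - 1, y, false) (a, y, false) := by
  left
  refine ⟨rfl, rfl, Or.inr ⟨rfl, Or.inr ?_⟩⟩
  ring

/-- A horizontal and a vertical open crossing are connected. -/
theorem glue_hv {η : Config} {a b c d y y' x x' : ℤ}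
    (h1 : TConn η (TR a b c d) (a, y, false) (b, y', false))
    (h2 : TConn η (TR a b c d) (x, c, false) (x', d, false)) :
    TConn η (TR a b c d) (a, y, false) (x, c, false) := by
  by_contra hcon
  exact not_hc_and_vc ⟨y, y', glue_in_clu h1⟩ ⟨x, x', glue_avoid h2 hcon⟩

/-- An open path from the lower point `(a, y₁)` of the left side to the right side and a closed path
from the upper point `(a, y₂)` of the left side to the bottom do not coexist. -/
theorem no_left_bottom {η : Config} {a b c d y₁ y₂ y₃ x : ℤ} (hy : y₁ < y₂)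
    (h1 : TConn η (TR a b c d) (a, y₁, false) (b, y₃, false))
    (h2 : TConn (neg η) (TR a b c d) (a, y₂, false) (x, c, false)) : False := by
  have m1 := mem_TR_site.1 h1.mem_left
  have m2 := mem_TR_site.1 h2.mem_left
  have hab : a ≤ b := by omega
  have e1 := glueExt_conn (t := y₂) h1
  have e2 := glueExt_neg_conn (t := y₂) h2
  have H : HC (glueExt η a y₂) (a - 1) b c d := by
    refine ⟨y₁, y₃, TConn.trans (TStep.conn ⟨?_, e1.mem_left, glue_adj_left a y₁, ?_,
      e1.open_left⟩) e1⟩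
    · rw [mem_TR_site]; omega
    · rw [glueExt_site, if_pos hy]
  have V : VC (neg (glueExt η a y₂)) (a - 1) b c d := by
    have hcol := glueExt_col_closed (η := η) (b := b) (c := c) (d := d) (t := y₂) hab y₂ le_rfl
      (by omega) (by omega) (d - y₂).toNat (by omega)
    have hd : y₂ + ((d - y₂).toNat : ℤ) = d := by omega
    rw [hd] at hcol
    exact ⟨x, a - 1, (e2.symm.tail ⟨e2.mem_left, hcol.mem_left, (glue_adj_left a y₂).symm,
      e2.open_left, hcol.open_left⟩).trans hcol⟩
  exact not_hc_and_vc H V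

/-- An open path from the lower point `(a, y₁)` of the left side to the top and a closed path from
the upper point `(a, y₂)` of the left side to the right side do not coexist. -/
theorem no_left_top {η : Config} {a b c d y₁ y₂ y₃ x : ℤ} (hy : y₁ < y₂)
    (h1 : TConn η (TR a b c d) (a, y₁, false) (x, d, false))
    (h2 : TConn (neg η) (TR a b c d) (a, y₂, false) (b, y₃, false)) : False := by
  have m1 := mem_TR_site.1 h1.mem_left
  have m2 := mem_TR_site.1 h2.mem_left
  have hab : a ≤ b := by omega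
  have e1 := glueExt_conn (t := y₂) h1
  have e2 := glueExt_neg_conn (t := y₂) h2
  have H : HC (neg (glueExt η a y₂)) (a - 1) b c d := by
    refine ⟨y₂, y₃, TConn.trans (TStep.conn ⟨?_, e2.mem_left, glue_adj_left a y₂, ?_,
      e2.open_left⟩) e2⟩
    · rw [mem_TR_site]; omega
    · unfold neg
      rw [glueExt_site, if_neg (by omega)]
      rfl
  have V : VC (neg (neg (glueExt η a y₂))) (a - 1) b c d := by
    rw [neg_neg']
    have hcol := glueExt_col_open (η := η) (b := b) (c := c) (d := d) (t := y₂) hab y₁ hy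
      (by omega) (by omega) (y₁ - c).toNat (by omega)
    have hc : y₁ - ((y₁ - c).toNat : ℤ) = c := by omega
    rw [hc] at hcol
    exact ⟨a - 1, x, (hcol.symm.tail ⟨hcol.mem_left, e1.mem_left, glue_adj_left a y₁,
      hcol.open_left, e1.open_left⟩).trans e1⟩
  exact not_hc_and_vc H V

/-! ### The mirror image -/

theorem glue_mirror {η : Config} {a b c d x y x' y' : ℤ}
    (h : TConn η (TR a b c d) (x, y, false) (x', y', false)) :
    TConn (fun v => η (rfx (a + b) v)) (TR a b c d) (a + b - x, y, false)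
      (a + b - x', y', false) := by
  rw [tconn_rfx]
  have e1 : a + b - b = a := by ring
  have e2 : a + b - a = b := by ring
  have e3 : rfx (a + b) (a + b - x, y, false) = (x, y, false) := by
    simp [rfx]
  have e4 : rfx (a + b) (a + b - x', y', false) = (x', y', false) := by
    simp [rfx]
  rw [e1, e2, e3, e4]
  exact h

theorem no_right_bottom {η : Config} {a b c d y₁ y₂ y₃ x : ℤ} (hy : y₁ < y₂)
    (h1 : TConn η (TR a b c d) (b, y₁, false) (a, y₃, false))
    (h2 : TConn (neg η) (TR a b c d) (b, y₂, false) (x, c, false)) : False := by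
  have e1 := glue_mirror h1
  have e2 := glue_mirror h2
  have ha : a + b - b = a := by ring
  have hb : a + b - a = b := by ring
  rw [ha, hb] at e1
  rw [ha] at e2
  exact no_left_bottom hy e1 e2

theorem no_right_top {η : Config} {a b c d y₁ y₂ y₃ x : ℤ} (hy : y₁ < y₂)
    (h1 : TConn η (TR a b c d) (b, y₁, false) (x, d, false))
    (h2 : TConn (neg η) (TR a b c d) (b, y₂, false) (a, y₃, false)) : False := by
  have e1 := glue_mirror h1
  have e2 := glue_mirror h2
  have ha : a + b - b = a := by ring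
  have hb : a + b - a = b := by ring
  rw [ha] at e1
  rw [ha, hb] at e2
  exact no_left_top hy e1 e2

/-- Open path from a lower point of the left side to the top, open path from an upper point of the
left side to the right side: they are connected. -/
theorem glue_left {η : Config} {a b c d y₁ y₂ y₃ x : ℤ} (hy : y₁ ≤ y₂)
    (h1 : TConn η (TR a b c d) (a, y₁, false) (x, d, false))
    (h2 : TConn η (TR a b c d) (a, y₂, false) (b, y₃, false)) :
    TConn η (TR a b c d) (a, y₁, false) (a, y₂, false) := by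
  rcases hy.eq_or_lt with rfl | hlt
  · exact TConn.refl h1.mem_left h1.open_left
  · by_contra hcon
    exact no_left_top hlt (glue_in_clu h1) (glue_avoid h2 hcon)

theorem glue_right {η : Config} {a b c d y₁ y₂ y₃ x : ℤ} (hy : y₁ ≤ y₂)
    (h1 : TConn η (TR a b c d) (b, y₁, false) (x, d, false))
    (h2 : TConn η (TR a b c d) (b, y₂, false) (a, y₃, false)) :
    TConn η (TR a b c d) (b, y₁, false) (b, y₂, false) := by
  rcases hy.eq_or_lt with rfl | hlt
  · exact TConn.refl h1.mem_left h1.open_left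
  · by_contra hcon
    exact no_right_top hlt (glue_in_clu h1) (glue_avoid h2 hcon)

/-- Open crossing starting at `(a, y₀)`; the open site `(a, y)` above it is adjacent to a closed
vertex `w` which is joined to the bottom by a closed path. Then the crossing is connected to
`(a, y)`. -/
theorem glue_low_left {η : Config} {a b c d y₀ y₁ y x : ℤ} {w : TV} (hy : y₀ < y)
    (ho : η (a, y, false) = true) (hm : (a, y, false) ∈ TR a b c d)
    (h1 : TConn η (TR a b c d) (a, y₀, false) (b, y₁, false))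
    (h2 : TConn (neg η) (TR a b c d) (x, c, false) w) (hw : TAdj w (a, y, false)) :
    TConn η (TR a b c d) (a, y₀, false) (a, y, false) := by
  by_contra hcon
  have hcl := glue_closed (u := (a, y₀, false)) h2
  exact no_left_bottom hy (glue_in_clu h1) (hcl.tail ⟨hcl.mem_right, hm, hw, hcl.open_right,
    neg_glueClu_eq_true.2 hcon⟩).symm

theorem glue_low_right {η : Config} {a b c d y₀ y₁ y x : ℤ} {w : TV} (hy : y₁ < y)
    (ho : η (b, y, false) = true) (hm : (b, y, false) ∈ TR a b c d)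
    (h1 : TConn η (TR a b c d) (a, y₀, false) (b, y₁, false))
    (h2 : TConn (neg η) (TR a b c d) (x, c, false) w) (hw : TAdj w (b, y, false)) :
    TConn η (TR a b c d) (b, y₁, false) (b, y, false) := by
  by_contra hcon
  have hcl := glue_closed (u := (b, y₁, false)) h2
  exact no_right_bottom hy (glue_in_clu h1.symm) (hcl.tail ⟨hcl.mem_right, hm, hw, hcl.open_right,
    neg_glueClu_eq_true.2 hcon⟩).symm

end Pool.Agent.H83.Site

end

section

/-! # Circuits in annuli -/

set_option autoImplicit false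

open MeasureTheory ProbabilityTheory unitInterval

namespace Pool.Agent.H83.Site

open Pool.Agent.H89.Perc

/-- Open crossings of the four rectangles that form the annulus `[-2s, 2s]² \ [-s, s]²`. -/
def CircE (s : ℕ) : Set Config :=
  {η | HC η (-(2 * s)) (2 * s) s (2 * s) ∧ HC η (-(2 * s)) (2 * s) (-(2 * s)) (-s) ∧
    VC η s (2 * s) (-(2 * s)) (2 * s) ∧ VC η (-(2 * s)) (-s) (-(2 * s)) (2 * s)}

theorem circ_eRect_mono {a b c d a' b' c' d' : ℤ} (h1 : a' ≤ a) (h2 : b ≤ b') (h3 : c' ≤ c)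
    (h4 : d ≤ d') : eRect a b c d ⊆ eRect a' b' c' d' := by
  intro v hv
  rw [mem_eRect] at hv ⊢
  simp only [rect, Set.mem_ofPred_eq] at hv ⊢
  omega

theorem circ_eq (s : ℕ) : CircE s = ({η | HC η (-(2 * s)) (2 * s) s (2 * s)} ∩
    {η | HC η (-(2 * s)) (2 * s) (-(2 * s)) (-s)}) ∩ ({η | VC η s (2 * s) (-(2 * s)) (2 * s)} ∩
    {η | VC η (-(2 * s)) (-s) (-(2 * s)) (2 * s)}) := by
  ext η
  simp only [CircE, Set.mem_ofPred_eq, Set.mem_inter_iff]
  tauto

theorem localOn_CircE (s : ℕ) :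
    LocalOn (eRect (-(2 * s)) (2 * s) (-(2 * s)) (2 * s)) (CircE s) := by
  rw [circ_eq]
  refine LocalOn.inter (LocalOn.inter ?_ ?_) (LocalOn.inter ?_ ?_)
  · exact (localOn_HC _ _ _ _).mono (circ_eRect_mono (by omega) (by omega) (by omega) (by omega))
  · exact (localOn_HC _ _ _ _).mono (circ_eRect_mono (by omega) (by omega) (by omega) (by omega))
  · exact (localOn_VC _ _ _ _).mono (circ_eRect_mono (by omega) (by omega) (by omega) (by omega))
  · exact (localOn_VC _ _ _ _).mono (circ_eRect_mono (by omega) (by omega) (by omega) (by omega))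

theorem incr_CircE (s : ℕ) : Incr (CircE s) := by
  rw [circ_eq]
  exact ((incr_HC _ _ _ _).inter (incr_HC _ _ _ _)).inter
    ((incr_VC _ _ _ _).inter (incr_VC _ _ _ _))

theorem circ_prob {p₀ : I} {r : Bool} {c : ℝ} (hc : 0 < c)
    (h : ∀ m : ℕ, 1 ≤ m → c ≤ PT p₀ r {η | HC η 0 ((4 : ℕ) * m) 0 m}) {p : I} (hp : p₀ ≤ p)
    {s : ℕ} (hs : 1 ≤ s) : c ^ 4 ≤ PT p r (CircE s) := by
  have h0 : c ≤ PT p r {η | HC η 0 ((4 : ℕ) * s) 0 s} :=
    (h s hs).trans (PT_mono_param (localOn_HC _ _ _ _) (incr_HC _ _ _ _) hp)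
  have e1 : c ≤ PT p r {η | HC η (-(2 * s)) (2 * s) s (2 * s)} := by
    have := PT_HC_shf p r 0 ((4 : ℕ) * s) 0 s (-(2 * s)) s
    have a1 : (0 : ℤ) + -(2 * s) = -(2 * s) := by ring
    have a2 : ((4 : ℕ) : ℤ) * s + -(2 * s) = 2 * s := by push_cast; ring
    have a3 : (0 : ℤ) + s = s := by ring
    have a4 : (s : ℤ) + s = 2 * s := by ring
    rw [a1, a2, a3, a4] at this
    rw [this]
    exact h0
  have e2 : c ≤ PT p r {η | HC η (-(2 * s)) (2 * s) (-(2 * s)) (-s)} := by
    have := PT_HC_shf p r 0 ((4 : ℕ) * s) 0 s (-(2 * s)) (-(2 * s))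
    have a1 : (0 : ℤ) + -(2 * s) = -(2 * s) := by ring
    have a2 : ((4 : ℕ) : ℤ) * s + -(2 * s) = 2 * s := by push_cast; ring
    have a4 : (s : ℤ) + -(2 * s) = -s := by ring
    rw [a1, a2, a4] at this
    rw [this]
    exact h0
  have e3 : c ≤ PT p r {η | VC η s (2 * s) (-(2 * s)) (2 * s)} := by
    rw [PT_VC_eq_HC]
    exact e1
  have e4 : c ≤ PT p r {η | VC η (-(2 * s)) (-s) (-(2 * s)) (2 * s)} := by
    rw [PT_VC_eq_HC]
    exact e2
  have f1 := PT_fkg (p := p) (r := r) (localOn_HC (-(2 * s)) (2 * s) s (2 * s))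
    (localOn_HC (-(2 * s)) (2 * s) (-(2 * s)) (-s)) (incr_HC _ _ _ _) (incr_HC _ _ _ _)
  have f2 := PT_fkg (p := p) (r := r) (localOn_VC s (2 * s) (-(2 * s)) (2 * s))
    (localOn_VC (-(2 * s)) (-s) (-(2 * s)) (2 * s)) (incr_VC _ _ _ _) (incr_VC _ _ _ _)
  have g1 : LocalOn (eRect (-(2 * s)) (2 * s) (-(2 * s)) (2 * s))
      ({η | HC η (-(2 * s)) (2 * s) s (2 * s)} ∩
        {η | HC η (-(2 * s)) (2 * s) (-(2 * s)) (-s)}) :=
    LocalOn.inter
      ((localOn_HC _ _ _ _).mono (circ_eRect_mono (by omega) (by omega) (by omega) (by omega)))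
      ((localOn_HC _ _ _ _).mono (circ_eRect_mono (by omega) (by omega) (by omega) (by omega)))
  have g2 : LocalOn (eRect (-(2 * s)) (2 * s) (-(2 * s)) (2 * s))
      ({η | VC η s (2 * s) (-(2 * s)) (2 * s)} ∩
        {η | VC η (-(2 * s)) (-s) (-(2 * s)) (2 * s)}) :=
    LocalOn.inter
      ((localOn_VC _ _ _ _).mono (circ_eRect_mono (by omega) (by omega) (by omega) (by omega)))
      ((localOn_VC _ _ _ _).mono (circ_eRect_mono (by omega) (by omega) (by omega) (by omega)))
  have f3 := PT_fkg (p := p) (r := r) g1 g2 ((incr_HC _ _ _ _).inter (incr_HC _ _ _ _))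
    ((incr_VC _ _ _ _).inter (incr_VC _ _ _ _))
  rw [circ_eq]
  have k1 : c * c ≤ _ := (mul_le_mul e1 e2 hc.le (hc.le.trans e1)).trans f1
  have k2 : c * c ≤ _ := (mul_le_mul e3 e4 hc.le (hc.le.trans e3)).trans f2
  have k3 : (c * c) * (c * c) ≤ _ :=
    (mul_le_mul k1 k2 (mul_nonneg hc.le hc.le) ((mul_nonneg hc.le hc.le).trans k1)).trans f3
  calc c ^ 4 = (c * c) * (c * c) := by ring
    _ ≤ _ := k3

/-- A horizontal and a vertical crossing of rectangles which cross each other are connected. -/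
theorem circ_hv {η : Config} {a b c d a' b' c' d' y y' x x' : ℤ} (ha : a ≤ a') (hab : a' ≤ b')
    (hb : b' ≤ b) (hc : c' ≤ c) (hcd : c ≤ d) (hd : d ≤ d')
    (h1 : TConn η (TR a b c d) (a, y, false) (b, y', false))
    (h2 : TConn η (TR a' b' c' d') (x, c', false) (x', d', false)) :
    TConn η (TR a b c d ∪ TR a' b' c' d') (a, y, false) (x, c', false) := by
  obtain ⟨z, z', h3, h4, -⟩ := h1.cross_x (a := a') (b := b') (by simp only [fx_site]; omega)
    (by simp only [fx_site]; omega) hab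
  rw [TR_inter_x ha hb] at h3
  obtain ⟨t, t', h5, h6, -⟩ := h2.cross_y (c := c) (d := d) (by simp only [fy_site]; omega)
    (by simp only [fy_site]; omega) hcd
  rw [TR_inter_y hc hd] at h5
  have h7 := glue_hv h3 h5
  refine (h4.mono_set Set.subset_union_left).trans ((h7.mono_set ?_).trans
    (h6.symm.mono_set Set.subset_union_right))
  exact (TR_mono ha hb le_rfl le_rfl).trans Set.subset_union_left

/-- All paths which cross the annulus are connected to one vertex. -/
theorem circ_base {η : Config} {s : ℕ} (hs : 1 ≤ s) (h : η ∈ CircE s) : ∃ w : TV,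
    ∀ (S : Set TV) (u v : TV), TConn η S u v → u ∈ TR (-s) s (-s) s →
      (fx v ≤ 2 * (-(2 * s)) ∨ 2 * (2 * s) ≤ fx v ∨ fy v ≤ 2 * (-(2 * s)) ∨
        2 * (2 * s) ≤ fy v) →
      TConn η (S ∪ TR (-(2 * s)) (2 * s) (-(2 * s)) (2 * s)) u w := by
  obtain ⟨⟨yT, yT', hT⟩, ⟨yB, yB', hB⟩, ⟨xR, xR', hR⟩, ⟨xL, xL', hL⟩⟩ := h
  set Q : Set TV := TR (-(2 * s)) (2 * s) (-(2 * s)) (2 * s) with hQ
  have hs' : (1 : ℤ) ≤ s := by exact_mod_cast hs
  have sT : TR (-(2 * s)) (2 * s) s (2 * s) ⊆ Q := TR_mono le_rfl le_rfl (by omega) le_rfl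
  have sB : TR (-(2 * s)) (2 * s) (-(2 * s)) (-s) ⊆ Q := TR_mono le_rfl le_rfl le_rfl (by omega)
  have sR : TR s (2 * s) (-(2 * s)) (2 * s) ⊆ Q := TR_mono (by omega) le_rfl le_rfl le_rfl
  have sL : TR (-(2 * s)) (-s) (-(2 * s)) (2 * s) ⊆ Q := TR_mono le_rfl (by omega) le_rfl le_rfl
  have cTR : TConn η Q (-(2 * s), yT, false) (xR, -(2 * s), false) :=
    (circ_hv (by omega) (by omega) (by omega) (by omega) (by omega) (by omega) hT hR).mono_set
      (Set.union_subset sT sR)
  have cBR : TConn η Q (-(2 * s), yB, false) (xR, -(2 * s), false) :=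
    (circ_hv (by omega) (by omega) (by omega) (by omega) (by omega) (by omega) hB hR).mono_set
      (Set.union_subset sB sR)
  have cTL : TConn η Q (-(2 * s), yT, false) (xL, -(2 * s), false) :=
    (circ_hv (by omega) (by omega) (by omega) (by omega) (by omega) (by omega) hT hL).mono_set
      (Set.union_subset sT sL)
  have cLR : TConn η Q (xL, -(2 * s), false) (xR, -(2 * s), false) := cTL.symm.trans cTR
  refine ⟨(xR, -(2 * s), false), fun S u v huv hu hv => ?_⟩
  have hu' := hu
  rw [mem_TR] at hu'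
  have hc2 : ((2 * s : ℕ) : ℤ) = 2 * s := by push_cast; ring
  obtain ⟨z, hz, hz2⟩ := huv.to_sph (x := 0) (y := 0) (n := 2 * s)
    (by rw [mem_TR, hc2]; omega) (by rw [hc2]; simp only [zero_sub, zero_add]; exact hv)
  rw [hc2] at hz2
  simp only [zero_sub, zero_add] at hz2
  obtain ⟨hz3, hz4, hz5⟩ := hz
  rw [hc2] at hz5
  simp only [zero_sub, zero_add] at hz5
  have hfx := fx_even hz4
  have hfy := fy_even hz4
  have sub1 : S ∩ Q ⊆ S ∪ Q := Set.inter_subset_left.trans Set.subset_union_left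
  rcases hz5 with h1 | h1 | h1 | h1
  · -- left
    obtain ⟨y, y', h3, -, h5⟩ := hz2.symm.cross_x (a := -(2 * s)) (b := -s)
      (by rw [hfx]; omega) (by omega) (by omega)
    have h6 : TConn η (TR (-(2 * s)) (-s) (-(2 * s)) (2 * s)) (-(2 * s), y, false)
        (-s, y', false) := by
      refine h3.mono_set fun x hx => ?_
      obtain ⟨⟨_, hx1⟩, hx2⟩ := hx
      rw [mem_TR] at hx1 ⊢
      simp only [Set.mem_ofPred_eq] at hx2
      omega
    have h7 := glue_hv h6 hL
    have h8 : TConn η (S ∪ Q) (-s, y', false) (xL, -(2 * s), false) :=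
      (h6.symm.trans h7).mono_set (sL.trans Set.subset_union_right)
    exact (h5.symm.mono_set sub1).trans (h8.trans (cLR.mono_set Set.subset_union_right))
  · -- right
    obtain ⟨y, y', h3, h4, -⟩ := hz2.cross_x (a := s) (b := 2 * s)
      (by omega) (by rw [hfx]; omega) (by omega)
    have h6 : TConn η (TR s (2 * s) (-(2 * s)) (2 * s)) (s, y, false) (2 * s, y', false) := by
      refine h3.mono_set fun x hx => ?_
      obtain ⟨⟨_, hx1⟩, hx2⟩ := hx
      rw [mem_TR] at hx1 ⊢
      simp only [Set.mem_ofPred_eq] at hx2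
      omega
    have h7 := glue_hv h6 hR
    exact (h4.mono_set sub1).trans (h7.mono_set (sR.trans Set.subset_union_right))
  · -- bottom
    obtain ⟨x, x', h3, -, h5⟩ := hz2.symm.cross_y (c := -(2 * s)) (d := -s)
      (by rw [hfy]; omega) (by omega) (by omega)
    have h6 : TConn η (TR (-(2 * s)) (2 * s) (-(2 * s)) (-s)) (x, -(2 * s), false)
        (x', -s, false) := by
      refine h3.mono_set fun x hx => ?_
      obtain ⟨⟨_, hx1⟩, hx2⟩ := hx
      rw [mem_TR] at hx1 ⊢
      simp only [Set.mem_ofPred_eq] at hx2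
      omega
    have h7 := glue_hv hB h6
    have h8 : TConn η (S ∪ Q) (x', -s, false) (xR, -(2 * s), false) :=
      ((h6.symm.trans h7.symm).mono_set (sB.trans Set.subset_union_right)).trans
        (cBR.mono_set Set.subset_union_right)
    exact (h5.symm.mono_set sub1).trans h8
  · -- top
    obtain ⟨x, x', h3, h4, -⟩ := hz2.cross_y (c := s) (d := 2 * s)
      (by omega) (by rw [hfy]; omega) (by omega)
    have h6 : TConn η (TR (-(2 * s)) (2 * s) s (2 * s)) (x, s, false) (x', 2 * s, false) := by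
      refine h3.mono_set fun x hx => ?_
      obtain ⟨⟨_, hx1⟩, hx2⟩ := hx
      rw [mem_TR] at hx1 ⊢
      simp only [Set.mem_ofPred_eq] at hx2
      omega
    have h7 := glue_hv hT h6
    exact (h4.mono_set sub1).trans ((h7.symm.mono_set (sT.trans Set.subset_union_right)).trans
      (cTR.mono_set Set.subset_union_right))

/-- Two paths which cross the annulus are connected, if the four crossings exist. -/
theorem circ_glue {η : Config} {s : ℕ} (hs : 1 ≤ s) (h : η ∈ CircE s) {S S' : Set TV}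
    {u v u' v' : TV} (h1 : TConn η S u v) (hu : u ∈ TR (-s) s (-s) s)
    (hv : fx v ≤ 2 * (-(2 * s)) ∨ 2 * (2 * s) ≤ fx v ∨ fy v ≤ 2 * (-(2 * s)) ∨
      2 * (2 * s) ≤ fy v)
    (h2 : TConn η S' u' v') (hu' : u' ∈ TR (-s) s (-s) s)
    (hv' : fx v' ≤ 2 * (-(2 * s)) ∨ 2 * (2 * s) ≤ fx v' ∨ fy v' ≤ 2 * (-(2 * s)) ∨
      2 * (2 * s) ≤ fy v') :
    TConn η (S ∪ S' ∪ TR (-(2 * s)) (2 * s) (-(2 * s)) (2 * s)) u u' := by
  obtain ⟨w, hw⟩ := circ_base hs h
  have a1 := hw S u v h1 hu hv
  have a2 := hw S' u' v' h2 hu' hv'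
  refine (a1.mono_set ?_).trans (a2.symm.mono_set ?_)
  · exact Set.union_subset_union_left _ Set.subset_union_left
  · exact Set.union_subset_union_left _ Set.subset_union_right

/-- Gluing of arms. -/
theorem arm_glue {η : Config} {s k n : ℕ} (hs : 1 ≤ s) (hk : k ≤ s) (hsn : 2 * s ≤ n)
    (h : η ∈ CircE s) (h1 : η ∈ AB 0 0 k (2 * s)) (h2 : η ∈ AB 0 0 s n) : η ∈ AB 0 0 k n := by
  obtain ⟨u, hu, w, hw, hc⟩ := h1
  obtain ⟨u', hu', w', hw', hc'⟩ := h2
  have hk' : (k : ℤ) ≤ s := by exact_mod_cast hk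
  have hn' : 2 * (s : ℤ) ≤ n := by exact_mod_cast hsn
  have hc2 : ((2 * s : ℕ) : ℤ) = 2 * s := by push_cast; ring
  rw [hc2] at hc
  obtain ⟨hw1, hw2, hw3⟩ := hw
  rw [hc2] at hw3
  have e1 := fx_even hw2
  have e2 := fy_even hw2
  have hw'0 := hw'
  obtain ⟨hw1', hw2', hw3'⟩ := hw'0
  have e1' := fx_even hw2'
  have e2' := fy_even hw2'
  have hu1 : u ∈ TR (-s) s (-s) s := by
    rw [mem_TR] at hu ⊢
    omega
  have hu1' : u' ∈ TR (-s) s (-s) s := by
    rw [mem_TR] at hu' ⊢
    omega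
  have h3 := circ_glue hs h hc hu1 (by omega) hc' hu1' (by omega)
  refine ⟨u, hu, w', hw', (h3.mono_set ?_).trans hc'⟩
  refine Set.union_subset (Set.union_subset ?_ ?_) ?_
  · exact TR_mono (by omega) (by omega) (by omega) (by omega)
  · exact TR_mono (by omega) (by omega) (by omega) (by omega)
  · exact TR_mono (by omega) (by omega) (by omega) (by omega)

end Pool.Agent.H83.Site

end

section

/-! # Duality: an open horizontal or a closed vertical crossing exists -/

set_option autoImplicit false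

namespace Pool.Agent.H83.Site

open Pool.Agent.H89.Perc

private lemma dualE_conn {η η' : Config} {S T : Set TV} {u v : TV}
    (h : ∀ x ∈ S, η x = true → x ∈ T ∧ η' x = true) (hc : TConn η S u v) : TConn η' T u v := by
  have h0 := h _ hc.mem_left hc.open_left
  refine hc.induction_right (P := fun v => TConn η' T u v) (TConn.refl h0.1 h0.2) ?_
  intro a b _ hs ih
  have h1 := h _ hs.1 hs.2.2.2.1
  have h2 := h _ hs.2.1 hs.2.2.2.2
  exact ih.tail ⟨h1.1, h2.1, hs.2.2.1, h1.2, h2.2⟩

/-- The configuration extended by an open column on the left and closed rows at the bottom and at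
the top. -/
private def dualEExt (η : Config) (a b c d : ℤ) : Config := fun v =>
  if 2 * a ≤ fx v ∧ fx v ≤ 2 * b ∧ 2 * c ≤ fy v ∧ fy v ≤ 2 * d then η v
  else decide (fx v < 2 * a ∧ 2 * c ≤ fy v ∧ fy v ≤ 2 * d)

open Classical in
private noncomputable def dualEInd (A : Set TV) (v : TV) : ZMod 2 := if v ∈ A then 1 else 0

private noncomputable def dualEK (A B : Set TV) (u v : TV) : ZMod 2 :=
  dualEInd A u * dualEInd B v + dualEInd B u * dualEInd A v

private lemma dualE_tri {A B R : Set TV} (hAB : ∀ v, v ∈ A → v ∉ B)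
    (hcl : ∀ u v w, w ∈ R → TAdj u w → TAdj v w → u ∈ A → v ∈ B → w ∈ A ∨ w ∈ B)
    {u v w : TV} (hu : u ∈ R) (hv : v ∈ R) (hw : w ∈ R) (huv : TAdj u v) (hvw : TAdj v w)
    (huw : TAdj u w) : dualEK A B u v + dualEK A B v w + dualEK A B u w = 0 := by
  have h1 := hcl u v w hw huw hvw
  have h2 := hcl v u w hw hvw huw
  have h3 := hcl u w v hv huv hvw.symm
  have h4 := hcl w u v hv hvw.symm huv
  have h5 := hcl v w u hu huv.symm huw.symm
  have h6 := hcl w v u hu huw.symm huv.symm
  have h7 := hAB u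
  have h8 := hAB v
  have h9 := hAB w
  have two : (1 : ZMod 2) + 1 = 0 := by decide
  unfold dualEK dualEInd
  by_cases a1 : u ∈ A <;> by_cases a2 : v ∈ A <;> by_cases a3 : w ∈ A <;>
    by_cases b1 : u ∈ B <;> by_cases b2 : v ∈ B <;> by_cases b3 : w ∈ B <;>
    simp only [a1, a2, a3, b1, b2, b3, not_true_eq_false, not_false_eq_true, if_true, if_false,
      forall_true_left, or_false, or_true, mul_one, mul_zero, add_zero, zero_add, two] at *

theorem hc_or_vc {a b c d : ℤ} (hab : a ≤ b) (hcd : c ≤ d) (η : Config) :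
    HC η a b c d ∨ VC (neg η) a b c d := by
  by_contra hcon
  push Not at hcon
  obtain ⟨hH, hV⟩ := hcon
  set R : Set TV := TR (a - 1) b (c - 1) (d + 1) with hR
  set η' : Config := dualEExt η a b c d with hη'
  set A : Set TV := {v | ∃ y, c ≤ y ∧ y ≤ d ∧ TConn η' R (a - 1, y, false) v} with hA
  set B : Set TV := {v | ∃ x, a - 1 ≤ x ∧ x ≤ b ∧ TConn (neg η') R (x, c - 1, false) v} with hB
  have hAo : ∀ v ∈ A, η' v = true := by
    rintro v ⟨y, _, _, h⟩
    exact h.open_right
  have hBc : ∀ v ∈ B, η' v = false := by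
    rintro v ⟨x, _, _, h⟩
    have := h.open_right
    simpa [neg] using this
  have hdis : ∀ v, v ∈ A → v ∉ B := by
    intro v h1 h2
    have h3 := hAo v h1
    rw [hBc v h2] at h3
    exact absurd h3 (by decide)
  have hcl : ∀ u v w, w ∈ R → TAdj u w → TAdj v w → u ∈ A → v ∈ B → w ∈ A ∨ w ∈ B := by
    intro u v w hw huw hvw hu hv
    by_cases ho : η' w = true
    · left
      obtain ⟨y, h1, h2, h3⟩ := hu
      exact ⟨y, h1, h2, h3.tail ⟨h3.mem_right, hw, huw, h3.open_right, ho⟩⟩
    · right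
      obtain ⟨x, h1, h2, h3⟩ := hv
      exact ⟨x, h1, h2, h3.tail ⟨h3.mem_right, hw, hvw, h3.open_right, by simpa [neg] using ho⟩⟩
  -- the left column is in `A`, the bottom row in `B`
  have hleft : ∀ y, c ≤ y → y ≤ d → ((a - 1, y, false) : TV) ∈ A := by
    intro y h1 h2
    refine ⟨y, h1, h2, TConn.refl ?_ ?_⟩
    · rw [hR, mem_TR_site]
      omega
    · rw [hη']
      unfold dualEExt
      rw [fx_site, fy_site, if_neg (by omega), decide_eq_true_eq]
      omega
  have hbot : ∀ x, a - 1 ≤ x → x ≤ b → ((x, c - 1, false) : TV) ∈ B := by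
    intro x h1 h2
    refine ⟨x, h1, h2, TConn.refl ?_ ?_⟩
    · rw [hR, mem_TR_site]
      omega
    · rw [hη']
      unfold neg dualEExt
      rw [fx_site, fy_site, if_neg (by omega), decide_eq_false (by omega)]
      rfl
  -- the top row is closed and not in `B`, the right column is not in `A`
  have htopc : ∀ x, ((x, d + 1, false) : TV) ∉ A := by
    intro x h
    have h1 := hAo _ h
    rw [hη'] at h1
    unfold dualEExt at h1
    rw [fx_site, fy_site, if_neg (by omega), decide_eq_true_eq] at h1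
    omega
  have htop : ∀ x, ((x, d + 1, false) : TV) ∉ B := by
    rintro x ⟨x0, h1, h2, h3⟩
    obtain ⟨x1, x2, h4, -, -⟩ := h3.cross_y (c := c) (d := d) (by rw [fy_site]; omega)
      (by rw [fy_site]; omega) hcd
    refine hV ⟨x1, x2, dualE_conn ?_ h4⟩
    rintro v ⟨hv1, hv2, hv3⟩ hvo
    rw [hR, mem_TR] at hv1
    simp only [neg, hη', dualEExt] at hvo
    split_ifs at hvo with h5
    · exact ⟨h5, hvo⟩
    · exfalso
      rw [decide_eq_true (by omega)] at hvo
      exact absurd hvo (by decide)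
  have hright : ∀ y, ((b, y, false) : TV) ∉ A := by
    rintro y ⟨y0, h1, h2, h3⟩
    obtain ⟨y1, y2, h4, -, -⟩ := h3.cross_x (a := a) (b := b) (by rw [fx_site]; omega)
      (by rw [fx_site]) hab
    refine hH ⟨y1, y2, dualE_conn ?_ h4⟩
    rintro v ⟨hv1, hv2, hv3⟩ hvo
    rw [hR, mem_TR] at hv1
    simp only [hη', dualEExt] at hvo
    split_ifs at hvo with h5
    · exact ⟨h5, hvo⟩
    · exfalso
      rw [decide_eq_false (by omega)] at hvo
      exact absurd hvo (by decide)
  -- integration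
  obtain ⟨W, hW⟩ := integRect (a := a - 1) (b := b) (c := c - 1) (d := d + 1)
    (fun e => dualEK A B ((src e).1, (src e).2, false) ((tgt e).1, (tgt e).2, false)) (by
      rintro ⟨x, y⟩ ⟨h1, h2, h3, h4⟩
      simp only at h1 h2 h3 h4
      have m0 : ((x, y, true) : TV) ∈ R := by rw [hR, mem_TR_cen]; omega
      have m1 : ((x, y, false) : TV) ∈ R := by rw [hR, mem_TR_site]; omega
      have m2 : ((x + 1, y, false) : TV) ∈ R := by rw [hR, mem_TR_site]; omega
      have m3 : ((x + 1, y + 1, false) : TV) ∈ R := by rw [hR, mem_TR_site]; omega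
      have m4 : ((x, y + 1, false) : TV) ∈ R := by rw [hR, mem_TR_site]; omega
      have t1 := dualE_tri hdis hcl m1 m2 m0 (by simp [TAdj]) (by simp [TAdj]) (by simp [TAdj])
      have t2 := dualE_tri hdis hcl m2 m3 m0 (by simp [TAdj]) (by simp [TAdj]) (by simp [TAdj])
      have t3 := dualE_tri hdis hcl m4 m3 m0 (by simp [TAdj]) (by simp [TAdj]) (by simp [TAdj])
      have t4 := dualE_tri hdis hcl m1 m4 m0 (by simp [TAdj]) (by simp [TAdj]) (by simp [TAdj])
      simp only [fsum, src, tgt, Bool.false_eq_true, if_false, if_true]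
      linear_combination t1 + t2 + t3 + t4
        - z2_add_self (dualEK A B (x, y, false) (x, y, true))
        - z2_add_self (dualEK A B (x + 1, y, false) (x, y, true))
        - z2_add_self (dualEK A B (x + 1, y + 1, false) (x, y, true))
        - z2_add_self (dualEK A B (x, y + 1, false) (x, y, true)))
  have hver : ∀ x y, a - 1 ≤ x → x ≤ b → c - 1 ≤ y → y + 1 ≤ d + 1 →
      dualEK A B (x, y, false) (x, y + 1, false) = 0 → W (x, y) = W (x, y + 1) := by
    intro x y h1 h2 h3 h4 h5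
    have := hW (x, y, true) ⟨h1, h2, h3, by simp only [src]; omega⟩
      ⟨by simpa [tgt] using h1, by simpa [tgt] using h2, by simp only [tgt, if_true]; omega,
        by simp only [tgt, if_true]; omega⟩
    simp only [src, tgt, if_true] at this
    rw [h5] at this
    exact z2_add_eq_zero.1 this.symm
  have hhor : ∀ x y, a - 1 ≤ x → x + 1 ≤ b → c - 1 ≤ y → y ≤ d + 1 →
      dualEK A B (x, y, false) (x + 1, y, false) = 0 → W (x, y) = W (x + 1, y) := by
    intro x y h1 h2 h3 h4 h5
    have := hW (x, y, false) ⟨h1, by simp only [src]; omega, h3, h4⟩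
      ⟨by simp only [tgt, Bool.false_eq_true, if_false]; omega,
        by simpa [tgt] using h2, by simpa [tgt] using h3, by simpa [tgt] using h4⟩
    simp only [src, tgt, Bool.false_eq_true, if_false] at this
    rw [h5] at this
    exact z2_add_eq_zero.1 this.symm
  have hK : ∀ u v, (u ∉ A ∨ v ∉ B) → (u ∉ B ∨ v ∉ A) → dualEK A B u v = 0 := by
    intro u v h1 h2
    unfold dualEK dualEInd
    rcases h1 with h1 | h1 <;> rcases h2 with h2 | h2 <;> simp [h1, h2]
  have e1 : W (a - 1, c) = W (a - 1, d) := const_col (f := W) hcd fun y h1 h2 =>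
    hver (a - 1) y le_rfl (by omega) (by omega) (by omega)
      (hK _ _ (Or.inr (hdis _ (hleft (y + 1) (by omega) (by omega))))
        (Or.inl (hdis _ (hleft y h1 (by omega)))))
  have e2 : W (a - 1, d) = W (a - 1, d + 1) :=
    hver (a - 1) d le_rfl (by omega) (by omega) (by omega)
      (hK _ _ (Or.inr (htop _)) (Or.inl (hdis _ (hleft d hcd le_rfl))))
  have e3 : W (a - 1, d + 1) = W (b, d + 1) := const_row (f := W) (by omega) fun x h1 h2 =>
    hhor x (d + 1) h1 (by omega) (by omega) le_rfl (hK _ _ (Or.inl (htopc _)) (Or.inl (htop _)))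
  have e4 : W (b, c - 1) = W (b, d + 1) := const_col (f := W) (by omega) fun y h1 h2 =>
    hver b y (by omega) le_rfl h1 (by omega) (hK _ _ (Or.inl (hright _)) (Or.inr (hright _)))
  have e5 : W (a - 1, c - 1) = W (b, c - 1) := const_row (f := W) (by omega) fun x h1 h2 =>
    hhor x (c - 1) h1 (by omega) le_rfl (by omega)
      (hK _ _ (Or.inl fun h => hdis _ h (hbot x h1 (by omega)))
        (Or.inr fun h => hdis _ h (hbot (x + 1) (by omega) (by omega))))
  have hfin : W (a - 1, c - 1) = W (a - 1, c) := by rw [e1, e2, e3, ← e4, ← e5]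
  have h1 := hW (a - 1, c - 1, true)
    ⟨by simp only [src]; omega, by simp only [src]; omega, by simp only [src]; omega,
      by simp only [src]; omega⟩
    ⟨by simp only [tgt, if_true]; omega, by simp only [tgt, if_true]; omega,
      by simp only [tgt, if_true]; omega, by simp only [tgt, if_true]; omega⟩
  simp only [src, tgt, if_true, sub_add_cancel] at h1
  rw [hfin, z2_add_self] at h1
  have m1 := hbot (a - 1) le_rfl (by omega)
  have m2 := hleft c le_rfl hcd
  have m3 := hdis _ m2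
  have m4 : ((a - 1, c - 1, false) : TV) ∉ A := fun h => hdis _ h m1
  unfold dualEK dualEInd at h1
  rw [if_neg m4, if_neg m3, if_pos m1, if_pos m2] at h1
  exact absurd h1 (by decide)

end Pool.Agent.H83.Site

end

section

/-! # The lowest crossing of a rectangle -/

set_option autoImplicit false

namespace Pool.Agent.H83.Site

open Pool.Agent.H89.Perc

/-- The closed cluster of the bottom row of `[0, l] × [c, d]`. -/
def Clo (η : Config) (l c d : ℤ) : Set TV :=
  {v | ∃ x : ℤ, TConn (neg η) (TR 0 l c d) (x, c, false) v}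

/-- The vertices explored when the closed cluster of the bottom row is `C`. -/
def Exd (l c d : ℤ) (C : Set TV) : Set TV :=
  {v | v ∈ TR 0 l c d ∧ (fy v = 2 * c ∨ v ∈ C ∨ ∃ w ∈ C, TAdj w v)}

/-- The configuration with all vertices that are not explored closed. -/
noncomputable def zet (η : Config) (l c d : ℤ) : Config := fun v => by
  classical exact η v && decide (v ∈ Exd l c d (Clo η l c d))

/-- The set `D ⊆ [0, l] × [c, d]` is joined to the top of `[0, 2 l] × [c, e]` by an open path which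
does not use the vertices of `D` and of its mirror image (except for the last vertex, whose state
does not matter). -/
def FJ (η : Config) (l c e : ℤ) (D : Set TV) : Prop :=
  ∃ u ∈ D, fy u = 2 * e ∨ ∃ w : TV, ∃ x : ℤ, TAdj w u ∧
    TConn η (TR 0 (2 * l) c e \ (D ∪ {v | rfx (2 * l) v ∈ D})) (x, e, false) w

variable {η : Config} {l c d e y y' : ℤ}

theorem zet_eq_true {v : TV} :
    zet η l c d v = true ↔ η v = true ∧ v ∈ Exd l c d (Clo η l c d) := by
  unfold zet
  simp

/-! ### Auxiliary facts -/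

private theorem low_site_fy {v : TV} {a : ℤ} (h : fy v = 2 * a) : v = (v.1, a, false) := by
  obtain ⟨h1, h2⟩ := site_of_fy h
  ext <;> simp [h1, h2]

private theorem low_site_fx {v : TV} {a : ℤ} (h : fx v = 2 * a) : v = (a, v.2.1, false) := by
  obtain ⟨h1, h2⟩ := site_of_fx h
  ext <;> simp [h1, h2]

private theorem low_neg_eq_true {η : Config} {v : TV} : neg η v = true ↔ η v = false := by
  simp [neg]

private theorem low_clo_closed {v : TV} (h : v ∈ Clo η l c d) : η v = false := by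
  obtain ⟨x, hx⟩ := h
  exact low_neg_eq_true.1 hx.open_right

private theorem low_clo_bottom {v : TV} (hv : v ∈ TR 0 l c d) (h : fy v = 2 * c)
    (hc : η v = false) : v ∈ Clo η l c d := by
  refine ⟨v.1, ?_⟩
  rw [← low_site_fy h]
  exact TConn.refl hv (low_neg_eq_true.2 hc)

private theorem low_clo_step {v w : TV} (hv : v ∈ Clo η l c d) (ha : TAdj v w)
    (hw : w ∈ TR 0 l c d) (hc : η w = false) : w ∈ Clo η l c d := by
  obtain ⟨x, hx⟩ := hv
  exact ⟨x, hx.tail ⟨hx.mem_right, hw, ha, hx.open_right, low_neg_eq_true.2 hc⟩⟩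

private theorem low_zet_open {v : TV} (h : zet η l c d v = true) : η v = true :=
  (zet_eq_true.1 h).1

/-- Indicator configuration. -/
private noncomputable def lowInd (A : Set TV) : Config := fun v => by
  classical exact decide (v ∈ A)

private theorem lowInd_true {A : Set TV} {v : TV} : lowInd A v = true ↔ v ∈ A := by
  unfold lowInd
  simp

private theorem low_neg_ind {A : Set TV} {v : TV} : neg (lowInd A) v = true ↔ v ∉ A := by
  rw [low_neg_eq_true, ← lowInd_true (A := A), Bool.not_eq_true]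

/-- If there is a crossing, there is one in the explored set. -/
theorem low_exists (hl : 0 ≤ l) (hcd : c ≤ d) (h : HC η 0 l c d) :
    ∃ y y' : ℤ, TConn (zet η l c d) (TR 0 l c d) (0, y, false) (l, y', false) := by
  rcases hc_or_vc hl hcd (zet η l c d) with h1 | ⟨x, x', h2⟩
  · exact h1
  · exfalso
    have key : ∀ v : TV, neg (zet η l c d) v = true → v ∈ Exd l c d (Clo η l c d) →
        η v = false := by
      intro v hv hE
      rw [low_neg_eq_true] at hv
      by_contra hη
      rw [Bool.not_eq_false] at hη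
      rw [zet_eq_true.2 ⟨hη, hE⟩] at hv
      exact absurd hv (by decide)
    have h3 : ((x', d, false) : TV) ∈ Clo η l c d := by
      refine h2.induction_right (P := fun v => v ∈ Clo η l c d) ?_ ?_
      · refine low_clo_bottom h2.mem_left (by simp) (key _ h2.open_left ⟨h2.mem_left, ?_⟩)
        left; simp
      · intro a b _ hab ha
        refine low_clo_step ha hab.2.2.1 hab.2.1 (key _ hab.2.2.2.2 ⟨hab.2.1, ?_⟩)
        right; right
        exact ⟨a, ha, hab.2.2.1⟩
    obtain ⟨x₁, h4⟩ := h3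
    exact not_hc_and_vc h ⟨x₁, x', h4⟩

/-- An explored open vertex which is not in the bottom row is adjacent to the closed cluster. -/
private theorem low_adj {v : TV} (h : zet η l c d v = true) (hv : 2 * c < fy v) :
    ∃ w : TV, ∃ x : ℤ, TConn (neg η) (TR 0 l c d) (x, c, false) w ∧ TAdj w v := by
  obtain ⟨h1, h2, h3⟩ := zet_eq_true.1 h
  rcases h3 with h3 | h3 | ⟨w, ⟨x, hw⟩, hwv⟩
  · omega
  · rw [low_clo_closed h3] at h1
    exact absurd h1 (by decide)
  · exact ⟨w, x, hw, hwv⟩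

/-- The start of the lowest crossing is connected to a point not higher than the start of a given
crossing. -/
theorem low_left (h : TConn (zet η l c d) (TR 0 l c d) (0, y, false) (l, y', false))
    {y₀ y₁ : ℤ} (h0 : TConn η (TR 0 l c d) (0, y₀, false) (l, y₁, false)) :
    ∃ y₂ ≤ y₀, TConn η (TR 0 l c d) (0, y, false) (0, y₂, false) := by
  by_cases hy : y ≤ y₀
  · exact ⟨y, hy, TConn.refl h.mem_left (low_zet_open h.open_left)⟩
  · rw [not_le] at hy
    have h1 := mem_TR_site.1 h0.mem_left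
    obtain ⟨w, x, hw, hwv⟩ := low_adj h.open_left (by simp only [fy_site]; omega)
    exact ⟨y₀, le_rfl,
      (glue_low_left hy (low_zet_open h.open_left) h.mem_left h0 hw hwv).symm⟩

theorem low_right (h : TConn (zet η l c d) (TR 0 l c d) (0, y, false) (l, y', false))
    {y₀ y₁ : ℤ} (h0 : TConn η (TR 0 l c d) (0, y₀, false) (l, y₁, false)) :
    ∃ y₂ ≤ y₁, TConn η (TR 0 l c d) (l, y', false) (l, y₂, false) := by
  by_cases hy : y' ≤ y₁
  · exact ⟨y', hy, TConn.refl h.mem_right (low_zet_open h.open_right)⟩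
  · rw [not_le] at hy
    have h1 := mem_TR_site.1 h0.mem_right
    obtain ⟨w, x, hw, hwv⟩ := low_adj h.open_right (by simp only [fy_site]; omega)
    exact ⟨y₁, le_rfl,
      (glue_low_right hy (low_zet_open h.open_right) h.mem_right h0 hw hwv).symm⟩

/-- Folding of the double rectangle. -/
private def lowPhi (l : ℤ) (v : TV) : TV := if fx v ≤ 2 * l then v else rfx (2 * l) v

private theorem low_rfx_fix {v : TV} (h : fx v = 2 * l) : rfx (2 * l) v = v := by
  rw [low_site_fx h]
  simp only [rfx, Bool.false_eq_true, if_false]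
  ext <;> simp
  ring

private theorem lowPhi_of_le {v : TV} (h : fx v ≤ 2 * l) : lowPhi l v = v := by
  rw [lowPhi, if_pos h]

private theorem lowPhi_of_ge {v : TV} (h : 2 * l ≤ fx v) : lowPhi l v = rfx (2 * l) v := by
  rcases h.eq_or_lt with h1 | h1
  · rw [low_rfx_fix h1.symm, lowPhi, if_pos h1.symm.le]
  · rw [lowPhi, if_neg (by omega)]

private theorem lowPhi_adj {u v : TV} (h : TAdj u v) : TAdj (lowPhi l u) (lowPhi l v) := by
  by_cases hu : fx u ≤ 2 * l
  · by_cases hv : fx v ≤ 2 * l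
    · rw [lowPhi_of_le hu, lowPhi_of_le hv]; exact h
    · rw [not_le] at hv
      rw [lowPhi_of_ge (h.symm.le_fx hv), lowPhi_of_ge hv.le]
      exact h.rfx _
  · rw [not_le] at hu
    rw [lowPhi_of_ge (h.le_fx hu), lowPhi_of_ge hu.le]
    exact h.rfx _

private theorem lowPhi_fy (v : TV) : fy (lowPhi l v) = fy v := by
  unfold lowPhi
  split
  · rfl
  · exact fy_rfx _ _

private theorem lowPhi_mem {v : TV} (h : v ∈ TR 0 (2 * l) c e) : lowPhi l v ∈ TR 0 l c e := by
  rw [mem_TR] at h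
  rw [mem_TR, lowPhi_fy]
  by_cases hv : fx v ≤ 2 * l
  · rw [lowPhi_of_le hv]; omega
  · rw [not_le] at hv
    rw [lowPhi_of_ge hv.le, fx_rfx]; omega

/-- If the explored set is joined to the top, then so is the lowest crossing. -/
theorem low_joined (hde : d ≤ e)
    (h : TConn (zet η l c d) (TR 0 l c d) (0, y, false) (l, y', false))
    (hF : FJ η l c e (Exd l c d (Clo η l c d))) :
    ∃ x : ℤ, TConn η (TR 0 (2 * l) c e) (0, y, false) (x, e, false) := by
  set D : Set TV := Exd l c d (Clo η l c d) with hD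
  set A : Set TV := {v | TConn (zet η l c d) (TR 0 l c d) (0, y, false) v} with hA
  have hm := mem_TR_site.1 h.mem_left
  have hsub : TR 0 l c d ⊆ TR 0 l c e := TR_mono le_rfl le_rfl le_rfl hde
  have hsub2 : TR 0 l c d ⊆ TR 0 (2 * l) c e := TR_mono le_rfl (by omega) le_rfl hde
  have hAη : ∀ v ∈ A, η v = true := fun v hv => low_zet_open hv.open_right
  have hAD : ∀ v ∈ A, v ∈ D := fun v hv => (zet_eq_true.1 hv.open_right).2
  obtain ⟨u, huD, hu⟩ := hF
  have huA : u ∈ A := by
    by_contra huA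
    have hHC : HC (lowInd A) 0 l c d := by
      refine ⟨y, y', ?_⟩
      refine h.induction_right
        (P := fun v => TConn (lowInd A) (TR 0 l c d) (0, y, false) v)
        (TConn.refl h.mem_left (lowInd_true.2 (TConn.refl h.mem_left h.open_left))) ?_
      intro a b h1 h2 h3
      exact h3.tail ⟨h2.1, h2.2.1, h2.2.2.1, lowInd_true.2 h1, lowInd_true.2 (h1.tail h2)⟩
    refine not_hc_and_vc hHC ?_
    -- from the bottom to `u`
    have hclosed : ∀ v : TV, neg η v = true → neg (lowInd A) v = true := by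
      intro v hv
      rw [low_neg_ind]
      intro hvA
      rw [low_neg_eq_true, hAη v hvA] at hv
      exact absurd hv (by decide)
    have hbot : ∃ x : ℤ, TConn (neg (lowInd A)) (TR 0 l c e) (x, c, false) u := by
      obtain ⟨h1, h2 | ⟨x, h2⟩ | ⟨w, ⟨x, hw⟩, hwu⟩⟩ := huD
      · refine ⟨u.1, ?_⟩
        rw [← low_site_fy h2]
        exact TConn.refl (hsub h1) (low_neg_ind.2 huA)
      · exact ⟨x, h2.mono hsub fun v _ => hclosed v⟩
      · have h3 := hw.mono (η' := neg (lowInd A)) hsub fun v _ => hclosed v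
        exact ⟨x, h3.tail ⟨h3.mem_right, hsub h1, hwu, h3.open_right, low_neg_ind.2 huA⟩⟩
    obtain ⟨x, hx⟩ := hbot
    have hVC : VC (neg (lowInd A)) 0 l c e := by
      rcases hu with hu | ⟨w, x₁, hwu, hw⟩
      · refine ⟨x, u.1, ?_⟩
        rw [← low_site_fy hu]
        exact hx
      · have hdis : ∀ v ∈ TR 0 (2 * l) c e \ (D ∪ {v | rfx (2 * l) v ∈ D}), lowPhi l v ∉ D := by
          intro v hv
          have h2 := hv.2
          rw [Set.mem_union, not_or] at h2
          by_cases hvl : fx v ≤ 2 * l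
          · rw [lowPhi_of_le hvl]; exact h2.1
          · rw [not_le] at hvl
            rw [lowPhi_of_ge hvl.le]; exact h2.2
        have h2 : TConn (neg (lowInd A)) (TR 0 l c e) (lowPhi l (x₁, e, false)) (lowPhi l w) :=
          hw.map (lowPhi l) (fun v hv => lowPhi_mem hv.1)
            (fun v hv _ => low_neg_ind.2 fun hvA => hdis v hv (hAD _ hvA))
            (fun a b _ _ hab => Or.inl (lowPhi_adj hab))
        have h3 : TAdj (lowPhi l w) u := by
          have h4 := lowPhi_adj (l := l) hwu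
          rwa [lowPhi_of_le (v := u) (mem_TR.1 huD.1).2.1] at h4
        have h4 := h2.tail ⟨h2.mem_right, hsub huD.1, h3, h2.open_right, low_neg_ind.2 huA⟩
        have h5 : lowPhi l (x₁, e, false) = ((lowPhi l (x₁, e, false)).1, e, false) :=
          low_site_fy (by rw [lowPhi_fy, fy_site])
        refine ⟨x, (lowPhi l (x₁, e, false)).1, ?_⟩
        rw [← h5]
        exact hx.trans h4.symm
    exact hVC.mono le_rfl le_rfl le_rfl (by omega) hde
  have h1 : TConn η (TR 0 (2 * l) c e) (0, y, false) u :=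
    TConn.mono hsub2 (fun v _ => low_zet_open) huA
  rcases hu with hu | ⟨w, x, hwu, hw⟩
  · refine ⟨u.1, ?_⟩
    rw [← low_site_fy hu]
    exact h1
  · have h2 : TConn η (TR 0 (2 * l) c e) (x, e, false) w := hw.mono_set fun v hv => hv.1
    exact ⟨x, (h1.tail ⟨h1.mem_right, h2.mem_right, hwu.symm, h1.open_right,
      h2.open_right⟩).trans h2.symm⟩

/-- Reflection of the closed cluster. -/
private theorem low_clo_rfx {v : TV} :
    v ∈ Clo (fun v => η (rfx l v)) l c d ↔ rfx l v ∈ Clo η l c d := by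
  have h0 : neg (fun v => η (rfx l v)) = fun v => neg η (rfx l v) := rfl
  have hTR : TR (l - l) (l - 0) c d = TR 0 l c d := by
    rw [sub_self, sub_zero]
  constructor
  · rintro ⟨x, hx⟩
    rw [h0, tconn_rfx, hTR] at hx
    exact ⟨l - x, by simpa [rfx] using hx⟩
  · rintro ⟨x, hx⟩
    refine ⟨l - x, ?_⟩
    rw [h0, tconn_rfx, hTR]
    simpa [rfx] using hx

private theorem low_exd_rfx {v : TV} :
    v ∈ Exd l c d (Clo (fun v => η (rfx l v)) l c d) ↔ rfx l v ∈ Exd l c d (Clo η l c d) := by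
  have h1 : v ∈ TR 0 l c d ↔ rfx l v ∈ TR 0 l c d := by
    rw [mem_TR, mem_TR, fx_rfx, fy_rfx]; omega
  unfold Exd
  simp only [Set.mem_ofPred_eq]
  rw [← h1, fy_rfx, low_clo_rfx]
  refine and_congr_right fun _ => or_congr_right (or_congr_right ?_)
  constructor
  · rintro ⟨w, hw, hwv⟩
    exact ⟨rfx l w, low_clo_rfx.1 hw, hwv.rfx l⟩
  · rintro ⟨w, hw, hwv⟩
    refine ⟨rfx l w, low_clo_rfx.2 (by rwa [rfx_rfx]), ?_⟩
    have h2 := hwv.rfx l
    rwa [rfx_rfx] at h2

private theorem low_zet_rfx :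
    zet (fun v => η (rfx l v)) l c d = fun v => zet η l c d (rfx l v) := by
  funext v
  rw [Bool.eq_iff_iff, zet_eq_true, zet_eq_true, low_exd_rfx]

/-- Mirror image. -/
theorem low_joined_left (hde : d ≤ e)
    (h : TConn (zet η l c d) (TR 0 l c d) (0, y, false) (l, y', false))
    (hF : FJ (fun v => η (rfx l v)) l c e (Exd l c d (Clo (fun v => η (rfx l v)) l c d))) :
    ∃ x : ℤ, TConn η (TR (-l) l c e) (l, y', false) (x, e, false) := by
  have h1 : TConn (zet (fun v => η (rfx l v)) l c d) (TR 0 l c d) (0, y', false)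
      (l, y, false) := by
    rw [low_zet_rfx, tconn_rfx]
    have h2 := h.symm
    rw [sub_self, sub_zero]
    simpa [rfx] using h2
  obtain ⟨x, hx⟩ := low_joined hde h1 hF
  rw [tconn_rfx] at hx
  refine ⟨l - x, ?_⟩
  have e1 : l - 2 * l = -l := by ring
  rw [e1, sub_zero] at hx
  simpa [rfx] using hx

/-- A vertical crossing of the double rectangle joins the explored set or its mirror image to the
top. -/
theorem fj_cover {η₀ : Config} (hl : 0 ≤ l) (hcd : c ≤ d) (hde : d ≤ e) (h0 : HC η₀ 0 l c d)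
    (h : VC η 0 (2 * l) c e) :
    FJ η l c e (Exd l c d (Clo η₀ l c d)) ∨
      FJ (fun v => η (rfx (2 * l) v)) l c e (Exd l c d (Clo η₀ l c d)) := by
  set D : Set TV := Exd l c d (Clo η₀ l c d) with hD
  set E : Set TV := D ∪ {v | rfx (2 * l) v ∈ D} with hE
  have hErfx : ∀ v : TV, v ∈ E → rfx (2 * l) v ∈ E := by
    intro v hv
    rcases hv with hv | hv
    · right
      simp only [Set.mem_ofPred_eq, rfx_rfx]
      exact hv
    · left; exact hv
  have hSrfx : ∀ v : TV, v ∈ TR 0 (2 * l) c e → rfx (2 * l) v ∈ TR 0 (2 * l) c e := by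
    intro v hv
    rw [mem_TR] at hv ⊢
    rw [fx_rfx, fy_rfx]
    omega
  have hsub : TR 0 l c d ⊆ TR 0 (2 * l) c e := TR_mono le_rfl (by omega) le_rfl hde
  have hHC : HC (lowInd E) 0 (2 * l) c e := by
    obtain ⟨y, y', h1⟩ := low_exists hl hcd h0
    have h2 : TConn (lowInd E) (TR 0 (2 * l) c e) (0, y, false) (l, y', false) :=
      h1.mono hsub fun v _ hv => lowInd_true.2 (Or.inl (zet_eq_true.1 hv).2)
    have h3 : TConn (lowInd E) (TR 0 (2 * l) c e) (rfx (2 * l) (0, y, false))
        (rfx (2 * l) (l, y', false)) :=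
      h2.map (rfx (2 * l)) (fun v hv => hSrfx v hv)
        (fun v _ hv => lowInd_true.2 (hErfx v (lowInd_true.1 hv)))
        (fun a b _ _ hab => Or.inl (hab.rfx _))
    rw [low_rfx_fix (v := (l, y', false)) (by simp)] at h3
    refine ⟨y, y, h2.trans ?_⟩
    have h4 := h3.symm
    simpa [rfx] using h4
  obtain ⟨x, x', hx⟩ := h
  have hx := hx.symm
  by_cases hE0 : ((x', e, false) : TV) ∈ E
  · rcases hE0 with h1 | h1
    · left
      exact ⟨_, h1, Or.inl (by simp)⟩
    · right
      exact ⟨_, h1, Or.inl (by rw [fy_rfx, fy_site])⟩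
  · by_cases hz : ∃ z ∈ E, TConn η (TR 0 (2 * l) c e) (x', e, false) z
    · obtain ⟨z, hzE, hz⟩ := hz
      obtain ⟨w, w', h1, h2, h3, -⟩ := hz.exists_hit hE0 hzE
      rcases h3 with h3 | h3
      · left
        exact ⟨w', h3, Or.inr ⟨w, x', h2.2.2.1, h1⟩⟩
      · right
        refine ⟨rfx (2 * l) w', h3, Or.inr ⟨rfx (2 * l) w, 2 * l - x', h2.2.2.1.rfx _, ?_⟩⟩
        have h4 : TConn (fun v => η (rfx (2 * l) v)) (TR 0 (2 * l) c e \ E)
            (rfx (2 * l) (x', e, false)) (rfx (2 * l) w) :=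
          h1.map (rfx (2 * l)) (fun v hv => ⟨hSrfx v hv.1, fun hv' => hv.2 (by
              have := hErfx _ hv'
              rwa [rfx_rfx] at this)⟩)
            (fun v _ hv => by simp only [rfx_rfx]; exact hv)
            (fun a b _ _ hab => Or.inl (hab.rfx _))
        have e1 : rfx (2 * l) (x', e, false) = (2 * l - x', e, false) := by simp [rfx]
        rw [e1] at h4
        exact h4
    · exfalso
      push Not at hz
      refine not_hc_and_vc hHC ⟨x, x', ?_⟩
      refine TConn.symm ?_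
      refine hx.induction_right
        (P := fun v => TConn (neg (lowInd E)) (TR 0 (2 * l) c e) (x', e, false) v)
        (TConn.refl hx.mem_left (low_neg_ind.2 hE0)) ?_
      intro a b h1 h2 h3
      exact h3.tail ⟨h2.1, h2.2.1, h2.2.2.1, h3.open_right,
        low_neg_ind.2 fun hb => hz b hb (h1.tail h2)⟩

end Pool.Agent.H83.Site

end

section

/-! # Conditioning on the lowest crossing -/

set_option autoImplicit false

open MeasureTheory ProbabilityTheory unitInterval

namespace Pool.Agent.H83.Site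

open Pool.Agent.H89.Perc

/-- The lowest crossing of `[0, l] × [c, d]` exists and is joined to the top of
`[0, 2 l] × [c, e]`. -/
def LJ (l c d e : ℤ) : Set Config :=
  {η | HC η 0 l c d ∧ FJ η l c e (Exd l c d (Clo η l c d))}

/-! ### Auxiliary facts -/

theorem expl_clo_congr {l c d : ℤ} {η η' : Config} (h : ∀ v ∈ TR 0 l c d, η v = η' v) :
    Clo η l c d = Clo η' l c d := by
  have key : ∀ {η η' : Config}, (∀ v ∈ TR 0 l c d, η v = η' v) →
      Clo η l c d ⊆ Clo η' l c d := by
    intro η η' h v hv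
    obtain ⟨x, hx⟩ := hv
    exact ⟨x, hx.congr fun w hw => by simp only [neg]; rw [h w hw]⟩
  exact Set.Subset.antisymm (key h) (key fun v hv => (h v hv).symm)

theorem expl_fj_congr {l c e : ℤ} {D : Set TV} {η η' : Config}
    (h : ∀ v ∈ TR 0 (2 * l) c e, v ∉ D → η v = η' v) (hF : FJ η l c e D) : FJ η' l c e D := by
  obtain ⟨u, hu, h1⟩ := hF
  refine ⟨u, hu, ?_⟩
  rcases h1 with h1 | ⟨w, x, hw, hc⟩
  · exact Or.inl h1
  · exact Or.inr ⟨w, x, hw, hc.congr fun v hv => h v hv.1 fun hD => hv.2 (Or.inl hD)⟩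

theorem expl_fj_incr (l c e : ℤ) (D : Set TV) : Incr {η | FJ η l c e D} := by
  rintro η η' h ⟨u, hu, h1⟩
  refine ⟨u, hu, ?_⟩
  rcases h1 with h1 | ⟨w, x, hw, hc⟩
  · exact Or.inl h1
  · exact Or.inr ⟨w, x, hw, hc.mono le_rfl fun v _ => h v⟩

theorem expl_clo_subset {l c d : ℤ} (η : Config) : Clo η l c d ⊆ TR 0 l c d :=
  fun _ ⟨_, hx⟩ => hx.mem_right

/-- The closed cluster of the bottom row is determined by the states of the explored vertices. -/
theorem expl_clo_eq {l c d : ℤ} {η η' : Config}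
    (h : ∀ v ∈ Exd l c d (Clo η l c d), η v = η' v) : Clo η' l c d = Clo η l c d := by
  apply Set.Subset.antisymm
  · rintro v ⟨x, hx⟩
    refine hx.induction_right (P := fun v => v ∈ Clo η l c d) ?_ ?_
    · refine ⟨x, TConn.refl hx.mem_left ?_⟩
      have h1 : (x, c, false) ∈ Exd l c d (Clo η l c d) := ⟨hx.mem_left, Or.inl (by simp)⟩
      have h2 := hx.open_left
      simp only [neg] at h2 ⊢
      rw [h _ h1]; exact h2
    · rintro a b - ⟨-, hb, hab, -, hb'⟩ ha
      have h1 : b ∈ Exd l c d (Clo η l c d) := ⟨hb, Or.inr (Or.inr ⟨a, ha, hab⟩)⟩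
      obtain ⟨z, hz⟩ := ha
      refine ⟨z, hz.tail ⟨hz.mem_right, hb, hab, hz.open_right, ?_⟩⟩
      simp only [neg] at hb' ⊢
      rw [h _ h1]; exact hb'
  · rintro v ⟨x, hx⟩
    have hst : ∀ w : TV, TConn (neg η) (TR 0 l c d) (x, c, false) w → neg η' w = true := by
      intro w hw
      have h1 : w ∈ Exd l c d (Clo η l c d) := ⟨hw.mem_right, Or.inr (Or.inl ⟨x, hw⟩)⟩
      have h2 := hw.open_right
      simp only [neg] at h2 ⊢
      rw [← h _ h1]; exact h2
    refine hx.induction_right (P := fun v => v ∈ Clo η' l c d) ?_ ?_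
    · exact ⟨x, TConn.refl hx.mem_left (hst _ (TConn.refl hx.mem_left hx.open_left))⟩
    · rintro a b hxa hs ⟨z, hz⟩
      exact ⟨z, hz.tail ⟨hs.1, hs.2.1, hs.2.2.1, hst a hxa, hst b (hxa.tail hs)⟩⟩

theorem localOn_LJ {l c d e : ℤ} (hl : 0 ≤ l) (hde : d ≤ e) :
    LocalOn (eRect 0 (2 * l) c e) (LJ l c d e) := by
  rintro η η' h ⟨h1, h2⟩
  have hsub : TR 0 l c d ⊆ TR 0 (2 * l) c e := TR_mono le_rfl (by omega) le_rfl hde
  have hη : ∀ v ∈ TR 0 l c d, η v = η' v := fun v hv => h v (TR_subset_eRect (hsub hv))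
  refine ⟨?_, ?_⟩
  · obtain ⟨y, y', hc⟩ := h1
    exact ⟨y, y', hc.congr hη⟩
  · rw [← expl_clo_congr hη]
    exact expl_fj_congr (fun v hv _ => h v (TR_subset_eRect hv)) h2

/-- Whether there is a crossing is determined by the closed cluster of the bottom row. -/
theorem expl_hc_of_clo {l c d : ℤ} {η η₀ : Config} (hl : 0 ≤ l) (hcd : c ≤ d)
    (h0 : HC η₀ 0 l c d) (h : Clo η l c d = Clo η₀ l c d) : HC η 0 l c d := by
  rcases hc_or_vc hl hcd η with h1 | ⟨x, x', h1⟩
  · exact h1
  · exfalso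
    have h2 : (x', d, false) ∈ Clo η₀ l c d := by rw [← h]; exact ⟨x, h1⟩
    obtain ⟨z, hz⟩ := h2
    exact not_hc_and_vc h0 ⟨z, x', hz⟩

theorem expl_prob (p : I) (r : Bool) {l c d e : ℤ} (hl : 0 ≤ l) (hcd : c ≤ d) (hde : d ≤ e) :
    PT p r {η | HC η 0 l c d} * (1 - Real.sqrt (1 - PT p r {η | VC η 0 (2 * l) c e})) ≤
      PT p r (LJ l c d e) := by
  classical
  set F : Finset TV := eRect 0 l c d with hF
  set good : Finset (Finset TV) :=
    F.powerset.filter (fun S => ∃ η₀ : Config, Clo η₀ l c d = (↑S : Set TV) ∧ HC η₀ 0 l c d)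
    with hgood
  set E : Finset TV → Set Config := fun S => {η | Clo η l c d = (↑S : Set TV)} with hE
  set Y : Finset TV → Set Config := fun S => {η | FJ η l c e (Exd l c d (↑S : Set TV))} with hY
  set sE : Finset TV → Finset TV := fun S => F.filter (fun v => v ∈ Exd l c d (↑S : Set TV))
    with hsE
  set sY : Finset TV → Finset TV := fun S =>
    (eRect 0 (2 * l) c e).filter (fun v => v ∉ Exd l c d (↑S : Set TV)) with hsY
  have hlE : ∀ S : Finset TV, LocalOn (sE S) (E S) := by
    intro S η η' h hη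
    simp only [hE, Set.mem_ofPred_eq] at hη ⊢
    rw [← hη]
    apply expl_clo_eq
    intro v hv
    rw [hη] at hv
    exact h v (Finset.mem_filter.2 ⟨TR_subset_eRect hv.1, hv⟩)
  have hlY : ∀ S : Finset TV, LocalOn (sY S) (Y S) := by
    intro S η η' h hη
    exact expl_fj_congr (fun v hv hD => h v (Finset.mem_filter.2 ⟨TR_subset_eRect hv, hD⟩)) hη
  have hdisj : ∀ S : Finset TV, Disjoint (sE S) (sY S) := by
    intro S
    rw [Finset.disjoint_left]
    intro v h1 h2
    exact (Finset.mem_filter.1 h2).2 (Finset.mem_filter.1 h1).2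
  have hind : ∀ S : Finset TV, PT p r (E S ∩ Y S) = PT p r (E S) * PT p r (Y S) := fun S =>
    PT_indep (hlE S) (hlY S) (hdisj S)
  set q : ℝ := 1 - Real.sqrt (1 - PT p r {η | VC η 0 (2 * l) c e}) with hq
  have hq0 : 0 ≤ q := by
    have h1 : Real.sqrt (1 - PT p r {η | VC η 0 (2 * l) c e}) ≤ 1 := by
      rw [Real.sqrt_le_one]
      linarith [PT_nonneg (p := p) (r := r) (E := {η | VC η 0 (2 * l) c e})]
    linarith
  -- the lower bound for `Y`
  have hYlow : ∀ S ∈ good, q ≤ PT p r (Y S) := by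
    intro S hS
    obtain ⟨η₀, h0, h0'⟩ := (Finset.mem_filter.1 hS).2
    have hsub : {η | VC η 0 (2 * l) c e} ⊆
        Y S ∪ {η | (fun v => η (rfx (2 * l) v)) ∈ Y S} := by
      intro η hη
      have h1 := fj_cover hl hcd hde h0' hη
      rw [h0] at h1
      exact h1
    have hY' : LocalOn ((sY S).image (rfx (2 * l)))
        {η | (fun v => η (rfx (2 * l) v)) ∈ Y S} := by
      intro η η' h hη
      exact hlY S _ _ (fun v hv => h _ (Finset.mem_image_of_mem _ hv)) hη
    have iY' : Incr {η : Config | (fun v => η (rfx (2 * l) v)) ∈ Y S} := by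
      intro η η' h hη
      exact expl_fj_incr l c e _ _ _ (fun v => h _) hη
    have h2 := PT_sqrt_trick (p := p) (r := r) (hlY S) hY' (expl_fj_incr l c e _) iY'
      (PT_comp (hlY S) (rfx_injective (2 * l)).injOn (fun _ => rfl))
    have h3 := PT_mono (p := p) (r := r) hsub
    refine le_trans ?_ h2
    rw [hq]
    have h4 := Real.sqrt_le_sqrt (sub_le_sub_left h3 1)
    linarith
  have hV : PT p r {η | HC η 0 l c d} ≤ ∑ S ∈ good, PT p r (E S) := by
    refine (PT_mono ?_).trans (PT_biUnion_le good E)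
    intro η hη
    have hcoe : (↑(F.filter (fun v => v ∈ Clo η l c d)) : Set TV) = Clo η l c d := by
      ext v
      simp only [Finset.coe_filter, Set.mem_ofPred_eq]
      exact ⟨fun h => h.2, fun h => ⟨TR_subset_eRect (expl_clo_subset η h), h⟩⟩
    rw [Set.mem_iUnion₂]
    refine ⟨F.filter (fun v => v ∈ Clo η l c d), ?_, ?_⟩
    · rw [hgood, Finset.mem_filter, Finset.mem_powerset]
      exact ⟨Finset.filter_subset _ _, η, hcoe.symm, hη⟩
    · simp only [hE, Set.mem_ofPred_eq]
      exact hcoe.symm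
  have hX : (⋃ S ∈ good, E S ∩ Y S) ⊆ LJ l c d e := by
    intro η hη
    rw [Set.mem_iUnion₂] at hη
    obtain ⟨S, hS, hηE, hηY⟩ := hη
    obtain ⟨η₀, h0, h0'⟩ := (Finset.mem_filter.1 hS).2
    simp only [hE, Set.mem_ofPred_eq] at hηE
    simp only [hY, Set.mem_ofPred_eq] at hηY
    refine ⟨expl_hc_of_clo hl hcd h0' (hηE.trans h0.symm), ?_⟩
    rw [hηE]
    exact hηY
  have hsum : PT p r (⋃ S ∈ good, E S ∩ Y S) = ∑ S ∈ good, PT p r (E S ∩ Y S) := by
    have h1 : {ω : Config | full r ω ∈ ⋃ S ∈ good, E S ∩ Y S} =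
        ⋃ S ∈ good, {ω : Config | full r ω ∈ E S ∩ Y S} := by
      ext ω
      simp only [Set.mem_ofPred_eq, Set.mem_iUnion]
    unfold PT
    rw [h1]
    unfold Pr
    refine measureReal_biUnion_finset ?_ ?_ (fun _ _ => measure_ne_top _ _)
    · intro S _ S' _ hne
      rw [Function.onFun, Set.disjoint_left]
      rintro ω ⟨h1, -⟩ ⟨h2, -⟩
      simp only [hE, Set.mem_ofPred_eq] at h1 h2
      exact hne (Finset.coe_injective (h1.symm.trans h2))
    · intro S _
      exact (localOn_full r (LocalOn.inter' (hlE S) (hlY S))).measurableSet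
  calc PT p r {η | HC η 0 l c d} * q
      ≤ (∑ S ∈ good, PT p r (E S)) * q := mul_le_mul_of_nonneg_right hV hq0
    _ = ∑ S ∈ good, PT p r (E S) * q := by rw [Finset.sum_mul]
    _ ≤ ∑ S ∈ good, PT p r (E S ∩ Y S) := by
        refine Finset.sum_le_sum fun S hS => ?_
        rw [hind S]
        exact mul_le_mul_of_nonneg_left (hYlow S hS) PT_nonneg
    _ = PT p r (⋃ S ∈ good, E S ∩ Y S) := hsum.symm
    _ ≤ PT p r (LJ l c d e) := PT_mono hX

end Pool.Agent.H83.Site

end

section

/-! # Renormalisation of crossing probabilities -/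

set_option autoImplicit false

open MeasureTheory ProbabilityTheory unitInterval

namespace Pool.Agent.H83.Site

open Pool.Agent.H89.Perc

/-- The probability that `[0, 4 m] × [1, m]` has no open horizontal crossing. -/
noncomputable def qc (p : I) (r : Bool) (m : ℕ) : ℝ := PT p r {η | VC (neg η) 0 (4 * m) 1 m}

theorem qc_eq (p : I) (r : Bool) {m : ℕ} (hm : 1 ≤ m) :
    qc p r m = 1 - PT p r {η | HC η 0 (4 * m) 1 m} := by
  have h : {η : Config | VC (neg η) 0 (4 * m) 1 m} = {η | HC η 0 (4 * m) 1 m}ᶜ := by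
    ext η
    constructor
    · intro h1 h2
      exact not_hc_and_vc h2 h1
    · intro h1
      rcases hc_or_vc (a := 0) (b := 4 * m) (c := 1) (d := m) (by omega) (by omega) η with h2 | h2
      · exact absurd h2 h1
      · exact h2
  unfold qc
  rw [h]
  exact PT_compl (localOn_HC _ _ _ _)

/-- Either a path stays in `T` or it leaves `T`. -/
private theorem renorm_stay {η : Config} {S T : Set TV} {u v : TV} (h : TConn η S u v)
    (hu : u ∈ T) : TConn η (S ∩ T) u v ∨ ∃ w, w ∉ T ∧ TConn η S u w := by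
  refine h.induction_right
    (P := fun v => TConn η (S ∩ T) u v ∨ ∃ w, w ∉ T ∧ TConn η S u w) ?_ ?_
  · exact Or.inl (TConn.refl ⟨h.mem_left, hu⟩ h.open_left)
  · intro a b hua hab hP
    rcases hP with hP | hP
    · by_cases hb : b ∈ T
      · exact Or.inl (hP.tail ⟨hP.mem_right, ⟨hab.2.1, hb⟩, hab.2.2⟩)
      · exact Or.inr ⟨b, hb, hua.tail hab⟩
    · exact Or.inr hP

private theorem renorm_hc {η : Config} {a b c d a' b' : ℤ} {u v : TV}
    (h : TConn η (TR a b c d) u v) (ha : a ≤ a') (hab : a' ≤ b') (hb : b' ≤ b)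
    (hu : fx u ≤ 2 * a') (hv : 2 * b' ≤ fx v) : HC η a' b' c d := by
  obtain ⟨y, y', h1, -, -⟩ := h.cross_x (a := a') (b := b') hu hv hab
  rw [TR_inter_x ha hb] at h1
  exact ⟨y, y', h1⟩

private theorem renorm_vc {η : Config} {a b c d a' b' x x' : ℤ}
    (h : TConn η (TR a b c d ∩ {w | 2 * a' ≤ fx w ∧ fx w ≤ 2 * b'}) (x, c, false) (x', d, false))
    (ha : a ≤ a') (hb : b' ≤ b) : VC η a' b' c d := by
  rw [TR_inter_x ha hb] at h
  exact ⟨x, x', h⟩

private theorem renorm_geom {η : Config} {m : ℕ} (hm : 1 ≤ m) (h : VC η 0 (8 * m) 1 m) :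
    (VC η 0 (4 * m) 1 m ∨ VC η (2 * m) (6 * m) 1 m ∨ VC η (4 * m) (8 * m) 1 m) ∨
    (HC η (3 * m + 1) (4 * m) 1 m ∨ HC η (2 * m + 1) (3 * m) 1 m ∨
      HC η (5 * m + 1) (6 * m) 1 m ∨ HC η (4 * m + 1) (5 * m) 1 m) := by
  obtain ⟨x, x', h⟩ := h
  have hx := mem_TR_site.1 h.mem_left
  by_cases h1 : x ≤ 3 * m
  · rcases renorm_stay (T := {w | 2 * (0 : ℤ) ≤ fx w ∧ fx w ≤ 2 * (4 * m : ℤ)}) h
      (by simp only [Set.mem_ofPred_eq, fx_site]; omega) with h2 | ⟨w, hw, h2⟩
    · exact Or.inl (Or.inl (renorm_vc h2 le_rfl (by omega)))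
    · simp only [Set.mem_ofPred_eq, not_and_or, not_le] at hw
      have hw2 := mem_TR.1 h2.mem_right
      refine Or.inr (Or.inl (renorm_hc h2 (by omega) (by omega) (by omega) ?_ ?_))
      · rw [fx_site]; omega
      · omega
  by_cases h1' : x ≤ 5 * m
  · rcases renorm_stay (T := {w | 2 * (2 * m : ℤ) ≤ fx w ∧ fx w ≤ 2 * (6 * m : ℤ)}) h
      (by simp only [Set.mem_ofPred_eq, fx_site]; omega) with h2 | ⟨w, hw, h2⟩
    · exact Or.inl (Or.inr (Or.inl (renorm_vc h2 (by omega) (by omega))))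
    · simp only [Set.mem_ofPred_eq, not_and_or, not_le] at hw
      rcases hw with hw | hw
      · refine Or.inr (Or.inr (Or.inl (renorm_hc h2.symm (by omega) (by omega) (by omega) ?_ ?_)))
        · omega
        · rw [fx_site]; omega
      · refine Or.inr (Or.inr (Or.inr (Or.inl
          (renorm_hc h2 (by omega) (by omega) (by omega) ?_ ?_))))
        · rw [fx_site]; omega
        · omega
  · rcases renorm_stay (T := {w | 2 * (4 * m : ℤ) ≤ fx w ∧ fx w ≤ 2 * (8 * m : ℤ)}) h
      (by simp only [Set.mem_ofPred_eq, fx_site]; omega) with h2 | ⟨w, hw, h2⟩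
    · exact Or.inl (Or.inr (Or.inr (renorm_vc h2 (by omega) (by omega))))
    · simp only [Set.mem_ofPred_eq, not_and_or, not_le] at hw
      have hw2 := mem_TR.1 h2.mem_right
      refine Or.inr (Or.inr (Or.inr (Or.inr
        (renorm_hc h2.symm (by omega) (by omega) (by omega) ?_ ?_))))
      · omega
      · rw [fx_site]; omega

private theorem renorm_vshift (p : I) (r : Bool) (m : ℕ) (j : ℤ) :
    PT p r {η | VC η j (4 * m + j) 1 m} = PT p r {η | VC η 0 (4 * m) 1 m} := by
  have h := PT_VC_shf p r 0 (4 * m) 1 m j 0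
  rw [zero_add, add_zero, add_zero] at h
  exact h

private theorem renorm_strip (p : I) (r : Bool) {m : ℕ} (hm : 1 ≤ m) (j : ℤ) :
    PT p r {η | HC η (1 + j) (m + j) 1 m} ≤ PT p r {η | VC η 0 (4 * m) 1 m} := by
  have h := PT_HC_shf p r 1 m 0 (4 * m) j 0
  rw [add_zero, add_zero] at h
  rw [PT_VC_eq_HC, ← h]
  refine PT_mono fun η hη => ?_
  exact HC.mono hη le_rfl (by omega) le_rfl (by omega) (by omega)

private theorem renorm_seven (p : I) (r : Bool) {m : ℕ} (hm : 1 ≤ m) :
    PT p r {η | VC η 0 (8 * m) 1 m} ≤ 7 * PT p r {η | VC η 0 (4 * m) 1 m} := by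
  set Q : ℝ := PT p r {η | VC η 0 (4 * m) 1 m} with hQ
  have v1 : PT p r {η | VC η (2 * m) (6 * m) 1 m} = Q := by
    have := renorm_vshift p r m (2 * m)
    have e : (4 * (m : ℤ) + 2 * m) = 6 * m := by ring
    rw [e] at this
    exact this
  have v2 : PT p r {η | VC η (4 * m) (8 * m) 1 m} = Q := by
    have := renorm_vshift p r m (4 * m)
    have e : (4 * (m : ℤ) + 4 * m) = 8 * m := by ring
    rw [e] at this
    exact this
  have hs : ∀ (k : ℕ) (k' : ℤ), k' = k + 1 →
      PT p r {η | HC η (k * m + 1) (k' * m) 1 m} ≤ Q := by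
    intro k k' hk
    have := renorm_strip p r hm (k * m)
    have e1 : (1 : ℤ) + k * m = k * m + 1 := by ring
    have e2 : (m : ℤ) + k * m = k' * m := by rw [hk]; ring
    rw [e1, e2] at this
    exact this
  have s1 : PT p r {η | HC η (3 * m + 1) (4 * m) 1 m} ≤ Q := by
    have := hs 3 4 (by norm_num)
    exact_mod_cast this
  have s2 : PT p r {η | HC η (2 * m + 1) (3 * m) 1 m} ≤ Q := by
    have := hs 2 3 (by norm_num)
    exact_mod_cast this
  have s3 : PT p r {η | HC η (5 * m + 1) (6 * m) 1 m} ≤ Q := by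
    have := hs 5 6 (by norm_num)
    exact_mod_cast this
  have s4 : PT p r {η | HC η (4 * m + 1) (5 * m) 1 m} ≤ Q := by
    have := hs 4 5 (by norm_num)
    exact_mod_cast this
  have hsub : {η : Config | VC η 0 (8 * m) 1 m} ⊆
      ({η | VC η 0 (4 * m) 1 m} ∪ ({η | VC η (2 * m) (6 * m) 1 m} ∪
        {η | VC η (4 * m) (8 * m) 1 m})) ∪
      ({η | HC η (3 * m + 1) (4 * m) 1 m} ∪ ({η | HC η (2 * m + 1) (3 * m) 1 m} ∪
        ({η | HC η (5 * m + 1) (6 * m) 1 m} ∪ {η | HC η (4 * m + 1) (5 * m) 1 m}))) := by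
    intro η hη
    exact renorm_geom hm hη
  have h0 := PT_mono (p := p) (r := r) hsub
  have h1 := PT_union_le (p := p) (r := r) (E := {η | VC η 0 (4 * m) 1 m} ∪
      ({η | VC η (2 * m) (6 * m) 1 m} ∪ {η | VC η (4 * m) (8 * m) 1 m}))
    (F := {η | HC η (3 * m + 1) (4 * m) 1 m} ∪ ({η | HC η (2 * m + 1) (3 * m) 1 m} ∪
        ({η | HC η (5 * m + 1) (6 * m) 1 m} ∪ {η | HC η (4 * m + 1) (5 * m) 1 m})))
  have h2 := PT_union_le (p := p) (r := r) (E := {η | VC η 0 (4 * m) 1 m})
    (F := {η | VC η (2 * m) (6 * m) 1 m} ∪ {η | VC η (4 * m) (8 * m) 1 m})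
  have h3 := PT_union_le (p := p) (r := r) (E := {η | VC η (2 * m) (6 * m) 1 m})
    (F := {η | VC η (4 * m) (8 * m) 1 m})
  have h4 := PT_union_le (p := p) (r := r) (E := {η | HC η (3 * m + 1) (4 * m) 1 m})
    (F := {η | HC η (2 * m + 1) (3 * m) 1 m} ∪
        ({η | HC η (5 * m + 1) (6 * m) 1 m} ∪ {η | HC η (4 * m + 1) (5 * m) 1 m}))
  have h5 := PT_union_le (p := p) (r := r) (E := {η | HC η (2 * m + 1) (3 * m) 1 m})
    (F := {η | HC η (5 * m + 1) (6 * m) 1 m} ∪ {η | HC η (4 * m + 1) (5 * m) 1 m})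
  have h6 := PT_union_le (p := p) (r := r) (E := {η | HC η (5 * m + 1) (6 * m) 1 m})
    (F := {η | HC η (4 * m + 1) (5 * m) 1 m})
  rw [v1, v2] at h3
  linarith

private theorem renorm_qc (p : I) (r : Bool) (m : ℕ) :
    qc p r m = PT (σ p) (!r) {η | VC η 0 (4 * m) 1 m} :=
  PT_neg (p := p) (r := r) (localOn_VC 0 (4 * m) 1 m)

theorem qc_step (p : I) (r : Bool) {m : ℕ} (hm : 1 ≤ m) :
    qc p r (2 * m) ≤ (11 * qc p r m) ^ 2 := by
  rw [renorm_qc, renorm_qc]
  set q := σ p
  set s := !r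
  have hQ : 0 ≤ PT q s {η | VC η 0 (4 * m) 1 m} := PT_nonneg
  have h7 := renorm_seven q s hm
  have hw : 0 ≤ PT q s {η | VC η 0 (8 * m) 1 m} := PT_nonneg
  have h1 : PT q s {η | VC η 0 (4 * (2 * m : ℕ)) 1 (2 * m : ℕ)} ≤
      PT q s ({η | VC η 0 (8 * m) 1 m} ∩ {η | VC η 0 (8 * m) (1 + m) (m + m)}) := by
    refine PT_mono fun η hη => ?_
    have hη' : VC η 0 (4 * (2 * m : ℕ)) 1 (2 * m : ℕ) := hη
    push_cast at hη'
    constructor
    · exact VC.mono hη' (by omega) (by omega) (by omega) (by omega) (by omega)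
    · exact VC.mono hη' (by omega) (by omega) (by omega) (by omega) (by omega)
  have h2 : PT q s {η | VC η 0 (8 * m) (1 + m) (m + m)} = PT q s {η | VC η 0 (8 * m) 1 m} := by
    have h := PT_VC_shf q s 0 (8 * m) 1 m 0 m
    rw [add_zero, add_zero] at h
    exact h
  have h3 : PT q s ({η | VC η 0 (8 * m) 1 m} ∩ {η | VC η 0 (8 * m) (1 + m) (m + m)}) =
      PT q s {η | VC η 0 (8 * m) 1 m} * PT q s {η | VC η 0 (8 * m) (1 + m) (m + m)} :=
    PT_indep (localOn_VC _ _ _ _) (localOn_VC _ _ _ _) (eRect_disjoint_x (by omega))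
  rw [h3, h2] at h1
  refine h1.trans ?_
  nlinarith

theorem qc_iter {p : I} {r : Bool} {m : ℕ} (hm : 1 ≤ m) (h : qc p r m ≤ 1 / 242) (k : ℕ) :
    qc p r (2 ^ k * m) ≤ 1 / 121 * (1 / 2) ^ (2 ^ k) := by
  induction k with
  | zero =>
    rw [pow_zero, one_mul, pow_one]
    refine h.trans ?_
    norm_num
  | succ k ih =>
    have h1 : 1 ≤ 2 ^ k * m := Nat.mul_pos (by positivity) hm
    have h2 := qc_step p r h1
    have e1 : 2 ^ (k + 1) * m = 2 * (2 ^ k * m) := by ring
    have h0 : 0 ≤ qc p r (2 ^ k * m) := PT_nonneg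
    rw [e1]
    refine h2.trans ?_
    have e2 : ((1 : ℝ) / 2) ^ (2 ^ (k + 1)) = ((1 / 2) ^ (2 ^ k)) ^ 2 := by
      rw [← pow_mul, pow_succ]
    rw [e2]
    have h3 : qc p r (2 ^ k * m) ^ 2 ≤ (1 / 121 * (1 / 2) ^ (2 ^ k)) ^ 2 :=
      pow_le_pow_left₀ h0 ih 2
    calc (11 * qc p r (2 ^ k * m)) ^ 2 = 121 * qc p r (2 ^ k * m) ^ 2 := by ring
      _ ≤ 121 * (1 / 121 * (1 / 2) ^ (2 ^ k)) ^ 2 := by linarith
      _ = _ := by ring

end Pool.Agent.H83.Site

end

section

/-! # Lower bound for arm probabilities by the van den Berg-Kesten inequality -/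

set_option autoImplicit false

open MeasureTheory ProbabilityTheory unitInterval

namespace Pool.Agent.H83.Site

open Pool.Agent.H89.Perc

/-! ### Disjoint occurrence -/

/-- Disjoint occurrence of two events. -/
def ablower_two (r : Bool) (A B : Set Config) : Set Config :=
  {ω | ∃ ω₁ ω₂ : Config, (∀ e, ω₁ e = true → ω e = true) ∧ (∀ e, ω₂ e = true → ω e = true) ∧
    (∀ e, ω₁ e = true → ω₂ e = false) ∧ full r ω₁ ∈ A ∧ full r ω₂ ∈ B}

/-- Restriction of a configuration to a finite set. -/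
def ablower_res (F : Finset Edge) (ω : Config) : Config := fun e => ω e && decide (e ∈ F)

theorem ablower_res_true {F : Finset Edge} {ω : Config} {e : Edge} :
    ablower_res F ω e = true ↔ ω e = true ∧ e ∈ F := by
  simp [ablower_res]

theorem ablower_res_mem {r : Bool} {F : Finset Edge} {A : Set Config} (hA : LocalOn F A)
    {ω : Config} (h : full r ω ∈ A) : full r (ablower_res F ω) ∈ A := by
  refine hA _ _ (fun e he => ?_) h
  simp only [full, ablower_res, he, decide_true, Bool.and_true]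

theorem ablower_localOn_two {r : Bool} {F : Finset Edge} {A B : Set Config} (hA : LocalOn F A)
    (hB : LocalOn F B) : LocalOn F (ablower_two r A B) := by
  rintro ω ω' h ⟨ω₁, ω₂, h1, h2, h3, h4, h5⟩
  refine ⟨ablower_res F ω₁, ablower_res F ω₂, ?_, ?_, ?_, ablower_res_mem hA h4,
    ablower_res_mem hB h5⟩
  · intro e he
    rw [ablower_res_true] at he
    rw [← h e he.2]
    exact h1 e he.1
  · intro e he
    rw [ablower_res_true] at he
    rw [← h e he.2]
    exact h2 e he.1
  · intro e he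
    rw [ablower_res_true] at he
    rw [ablower_res, h3 e he.1, Bool.false_and]

theorem ablower_Pr_two (p : I) {r : Bool} {F : Finset Edge} {A B : Set Config}
    (hA : LocalOn F A) (hB : LocalOn F B) (iA : Incr A) (iB : Incr B) :
    Pr p (ablower_two r A B) ≤ PT p r A * PT p r B := by
  classical
  have hupA : Pool.Agent.Perc.UpOn F (fun S => ofS S ∈ {ω | full r ω ∈ A}) :=
    fun S T hST _ h => incr_full r iA _ _ (ofS_mono hST) h
  have hupB : Pool.Agent.Perc.UpOn F (fun S => ofS S ∈ {ω | full r ω ∈ B}) :=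
    fun S T hST _ h => incr_full r iB _ _ (ofS_mono hST) h
  have key := Pool.Agent.Perc.bk (p := (p : ℝ)) (F := F) p.2.1 p.2.2 hupA hupB
  unfold PT
  rw [Pr_eq_Ex (ablower_localOn_two hA hB), Pr_eq_Ex (localOn_full r hA),
    Pr_eq_Ex (localOn_full r hB)]
  refine le_trans ?_ key
  unfold Pool.Agent.Perc.Pr
  refine Pool.Agent.Perc.Ex_mono p.2.1 p.2.2 fun S _ => Pool.Agent.Perc.ind_le_ind ?_
  rintro ⟨ω₁, ω₂, h1, h2, h3, h4, h5⟩
  have hof : ∀ ω' : Config, (∀ e, ω' e = true → ofS S e = true) →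
      ofS (S.filter fun e => ω' e = true) = ω' := by
    intro ω' h
    funext e
    rw [Bool.eq_iff_iff, ofS_eq_true, Finset.mem_filter]
    exact ⟨fun h' => h'.2, fun h' => ⟨ofS_eq_true.1 (h e h'), h'⟩⟩
  refine ⟨S.filter fun e => ω₁ e = true, S.filter fun e => ω₂ e = true,
    Finset.filter_subset _ _, Finset.filter_subset _ _, ?_, ?_, ?_⟩
  · rw [Finset.disjoint_left]
    intro e he he'
    have h6 := h3 e (Finset.mem_filter.1 he).2
    rw [(Finset.mem_filter.1 he').2] at h6
    exact absurd h6 (by decide)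
  · rw [hof ω₁ h1]
    exact h4
  · rw [hof ω₂ h2]
    exact h5

/-! ### Splitting of a self-avoiding path -/

/-- The graph of the steps between open vertices of `S`. -/
def ablower_graph (η : Config) (S : Set TV) : SimpleGraph TV :=
  SimpleGraph.fromRel (TStep η S)

theorem ablower_adj {η : Config} {S : Set TV} {a b : TV} :
    (ablower_graph η S).Adj a b ↔ a ≠ b ∧ TStep η S a b := by
  rw [ablower_graph, SimpleGraph.fromRel_adj]
  constructor
  · rintro ⟨h1, h2 | h2⟩
    · exact ⟨h1, h2⟩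
    · exact ⟨h1, h2.symm⟩
  · rintro ⟨h1, h2⟩
    exact ⟨h1, Or.inl h2⟩

theorem ablower_walk {η : Config} {S : Set TV} {u v : TV} (h : TConn η S u v) :
    ∃ P : (ablower_graph η S).Walk u v, P.IsPath := by
  classical
  have h1 : (ablower_graph η S).Reachable u v := by
    obtain ⟨_, _, h2⟩ := h
    induction h2 with
    | refl => exact SimpleGraph.Reachable.refl _
    | @tail b c _ hbc ih =>
      by_cases hbc' : b = c
      · rw [← hbc']; exact ih
      · exact ih.trans (SimpleGraph.Adj.reachable (ablower_adj.2 ⟨hbc', hbc⟩))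
  obtain ⟨w⟩ := h1
  exact ⟨w.bypass, w.bypass_isPath⟩

theorem ablower_tconn {η : Config} {S : Set TV} {a b : TV} (Q : (ablower_graph η S).Walk a b)
    (ho : η a = true) :
    (∀ x ∈ Q.support, η x = true) ∧
      ∀ T : Set TV, (∀ x ∈ Q.support, x ∈ T) → TConn η T a b := by
  induction Q with
  | nil =>
    refine ⟨fun x hx => ?_, fun T hT => TConn.refl (hT _ (by simp)) ho⟩
    rw [SimpleGraph.Walk.support_nil, List.mem_singleton] at hx
    rw [hx]; exact ho
  | @cons a c b h q ih =>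
    have h1 := (ablower_adj.1 h).2
    obtain ⟨ih1, ih2⟩ := ih h1.2.2.2.2
    refine ⟨fun x hx => ?_, fun T hT => ?_⟩
    · rw [SimpleGraph.Walk.support_cons, List.mem_cons] at hx
      rcases hx with hx | hx
      · rw [hx]; exact ho
      · exact ih1 x hx
    · have hc : c ∈ T := hT c (by
        rw [SimpleGraph.Walk.support_cons]
        exact List.mem_cons_of_mem _ q.start_mem_support)
      have ha : a ∈ T := hT a (by
        rw [SimpleGraph.Walk.support_cons]
        exact List.mem_cons_self)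
      have h2 : TStep η T a c := ⟨ha, hc, h1.2.2⟩
      exact h2.conn.trans (ih2 T fun x hx => hT x (by
        rw [SimpleGraph.Walk.support_cons]
        exact List.mem_cons_of_mem _ hx))

/-- A horizontal crossing of a `2 : 1` rectangle contains two disjoint paths from two vertices
next to each other to the left and right sides. -/
theorem ablower_split {η : Config} {m : ℤ} (hm : 1 ≤ m) (h : HC η 0 (2 * m) 0 m) :
    ∃ (y : ℤ) (S T : Set TV) (u v : TV) (a b : ℤ), 0 ≤ y ∧ y ≤ m ∧ -1 ≤ a ∧ a ≤ 1 ∧ -1 ≤ b ∧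
      b ≤ 1 ∧ (∀ x ∈ S, x ∉ T) ∧ (∀ x ∈ S, η x = true) ∧ (∀ x ∈ T, η x = true) ∧
      TConn η S (m, y, false) u ∧ fx u = 0 ∧ TConn η T (m + a, y + b, false) v ∧
      fx v = 4 * m := by
  classical
  obtain ⟨y₁, y₂, hc⟩ := h
  obtain ⟨P, hP⟩ := ablower_walk hc
  obtain ⟨hPo, hPc⟩ := ablower_tconn P hc.open_left
  have h1 := hPc {x | x ∈ P.support ∧ x ∈ TR 0 (2 * m) 0 m} (by
    intro x hx
    refine ⟨hx, ?_⟩
    have h2 : ∀ {a b : TV} (Q : (ablower_graph η (TR 0 (2 * m) 0 m)).Walk a b),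
        a ∈ TR 0 (2 * m) 0 m → ∀ x ∈ Q.support, x ∈ TR 0 (2 * m) 0 m := by
      intro a b Q
      induction Q with
      | nil =>
        intro ha x hx
        rw [SimpleGraph.Walk.support_nil, List.mem_singleton] at hx
        rw [hx]; exact ha
      | @cons a c b h q ih =>
        intro ha x hx
        rw [SimpleGraph.Walk.support_cons, List.mem_cons] at hx
        rcases hx with hx | hx
        · rw [hx]; exact ha
        · exact ih (ablower_adj.1 h).2.2.1 x hx
    exact h2 P hc.mem_left x hx)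
  obtain ⟨y, y', h2, -, -⟩ := h1.cross_x (a := m) (b := m) (by simp only [fx_site]; omega)
    (by simp only [fx_site]; omega) le_rfl
  have hz := h2.mem_left.1
  have hzP : ((m, y, false) : TV) ∈ P.support := hz.1
  have hzR := mem_TR_site.1 hz.2
  obtain ⟨P1, hP1⟩ : ∃ P1, P1 = P.takeUntil _ hzP := ⟨_, rfl⟩
  obtain ⟨P2, hP2⟩ : ∃ P2, P2 = P.dropUntil _ hzP := ⟨_, rfl⟩
  have hspec : P1.append P2 = P := by rw [hP1, hP2]; exact P.take_spec hzP
  have hnd : (P1.append P2).support.Nodup := by rw [hspec]; exact hP.support_nodup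
  rw [SimpleGraph.Walk.support_append] at hnd
  have hdj := List.disjoint_of_nodup_append hnd
  obtain ⟨hP1o, hP1c⟩ := ablower_tconn P1 hc.open_left
  obtain ⟨w, hadj, q, rfl⟩ := SimpleGraph.Walk.exists_eq_cons_of_ne (by
    intro h3
    have h4 := congrArg Prod.fst h3
    simp only at h4
    omega) P2
  rw [SimpleGraph.Walk.support_cons, List.tail_cons] at hdj
  have hst := (ablower_adj.1 hadj).2
  obtain ⟨hqo, hqc⟩ := ablower_tconn q hst.2.2.2.2
  have hdj' : ∀ x ∈ {x | x ∈ P1.support}, x ∉ {x | x ∈ q.support} := fun x h3 h4 => hdj h3 h4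
  have hw1 : TConn η {x | x ∈ q.support} w (2 * m, y₂, false) := hqc _ fun x hx => hx
  have hTA := hst.2.2.1
  refine ⟨y, {x | x ∈ P1.support}, {x | x ∈ q.support}, (0, y₁, false), (2 * m, y₂, false), ?_⟩
  have hcom : (0 ≤ y ∧ y ≤ m) ∧ (∀ x ∈ {x | x ∈ P1.support}, x ∉ {x | x ∈ q.support}) ∧
      (∀ x ∈ {x | x ∈ P1.support}, η x = true) ∧ (∀ x ∈ {x | x ∈ q.support}, η x = true) ∧
      TConn η {x | x ∈ P1.support} (m, y, false) (0, y₁, false) :=
    ⟨⟨hzR.2.2.1, hzR.2.2.2⟩, hdj', hP1o, hqo, (hP1c _ fun x hx => hx).symm⟩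
  obtain ⟨⟨c1, c2⟩, c3, c4, c5, c6⟩ := hcom
  suffices hsuff : ∃ w' : TV, w'.2.2 = false ∧ -1 ≤ w'.1 - m ∧ w'.1 - m ≤ 1 ∧
      -1 ≤ w'.2.1 - y ∧ w'.2.1 - y ≤ 1 ∧
      TConn η {x | x ∈ q.support} w' (2 * m, y₂, false) by
    obtain ⟨w', d1, d2, d3, d4, d5, d6⟩ := hsuff
    refine ⟨w'.1 - m, w'.2.1 - y, c1, c2, d2, d3, d4, d5, c3, c4, c5, c6, by simp, ?_,
      by simp only [fx_site]; ring⟩
    have : ((m + (w'.1 - m), y + (w'.2.1 - y), false) : TV) = w' := by
      ext
      · simp
      · simp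
      · simp [d1]
    rw [this]
    exact d6
  unfold TAdj at hTA
  simp only [Bool.false_eq_true, false_and, or_false, true_and] at hTA
  by_cases hwc : w.2.2 = false
  · refine ⟨w, hwc, ?_, ?_, ?_, ?_, hw1⟩ <;>
      rcases hTA with ⟨_, h3⟩ | ⟨h3, _⟩
    all_goals first
      | (rw [hwc] at h3; exact absurd h3 (by decide))
      | omega
  · have hwt : w.2.2 = true := by simpa using hwc
    obtain ⟨e1, e2, e3⟩ := hw1
    rcases Relation.ReflTransGen.cases_head e3 with h3 | ⟨w', h3, h4⟩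
    · rw [h3] at hwc
      exact absurd rfl hwc
    · have hTA' := h3.2.2.1
      refine ⟨w', ?_, ?_, ?_, ?_, ?_, ⟨h3.2.1, h3.2.2.2.2, h4⟩⟩
      · unfold TAdj at hTA'
        rcases hTA' with ⟨h5, _⟩ | ⟨h5, _⟩ | ⟨_, h5, _⟩
        · exact absurd h5 hwc
        · exact absurd h5 hwc
        · exact h5
      all_goals
        unfold TAdj at hTA'
        rcases hTA' with ⟨h5, _⟩ | ⟨h5, _⟩ | ⟨_, h5, h6, h7⟩
        · exact absurd h5 hwc
        · exact absurd h5 hwc
        · rcases hTA with ⟨h8, _⟩ | ⟨_, h8, h9⟩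
          · exact absurd h8 hwc
          · omega

/-! ### The configuration of the sites of a set -/

open Classical in
/-- The configuration in which exactly the sites of `S` are open. -/
noncomputable def ablower_cfg (S : Set TV) : Config := fun e => !e.2.2 && decide (e ∈ S)

theorem ablower_cfg_true {S : Set TV} {e : TV} :
    ablower_cfg S e = true ↔ e.2.2 = false ∧ e ∈ S := by
  simp [ablower_cfg]

theorem ablower_conn {r : Bool} {ω : Config} {S : Set TV} {u v : TV}
    (h : TConn (full r ω) S u v) : TConn (full r (ablower_cfg S)) S u v := by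
  refine h.mono le_rfl fun x hx ho => ?_
  simp only [full] at ho ⊢
  split
  · rename_i h1
    rw [if_pos h1] at ho
    exact ho
  · rename_i h1
    exact ablower_cfg_true.2 ⟨by simpa using h1, hx⟩

theorem ablower_le {r : Bool} {ω : Config} {S : Set TV} (h : ∀ x ∈ S, full r ω x = true) :
    ∀ e, ablower_cfg S e = true → ω e = true := by
  intro e he
  rw [ablower_cfg_true] at he
  have := h e he.2
  simp only [full] at this
  rw [if_neg (by rw [he.1]; decide)] at this
  exact this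

theorem ablower_disj {S T : Set TV} (h : ∀ x ∈ S, x ∉ T) :
    ∀ e, ablower_cfg S e = true → ablower_cfg T e = false := by
  intro e he
  rw [ablower_cfg_true] at he
  rw [← Bool.not_eq_true, ablower_cfg_true]
  exact fun h1 => h e he.2 h1.2

theorem ab_lower {c : ℝ} (hc : 0 < c) : ∃ c' > (0 : ℝ), ∀ (p₀ : I) (r : Bool),
    (∀ m : ℕ, 1 ≤ m → c ≤ PT p₀ r {η | HC η 0 ((2 : ℕ) * m) 0 m}) →
    ∀ p : I, p₀ ≤ p → ∀ s n : ℕ, s ≤ n → 1 ≤ n →
      c' * Real.sqrt (((s : ℝ) + 1) / n) ≤ ab p r s n := by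
  refine ⟨Real.sqrt (c / 45), by positivity, fun p₀ r hHC p hp s n hs hn => ?_⟩
  refine le_trans ?_ (ab_mono_param r s n hp)
  set P := ab p₀ r s n with hP
  have hP0 : 0 ≤ P := ab_nonneg
  set M : ℤ := 2 * s + 1 with hM
  set N : ℤ := (n + 1 + s) / M with hN
  have hMpos : 0 < M := by omega
  have hN0 : 0 ≤ N := Int.ediv_nonneg (by omega) hMpos.le
  let G : Finset (ℤ × ℤ × ℤ) := Finset.Icc 0 N ×ˢ Finset.Icc (-1) 1 ×ˢ Finset.Icc (-1) 1
  let Ev : ℤ × ℤ × ℤ → Set Config := fun i =>
    ablower_two r (AB (n + 1) (M * i.1) s n) (AB (n + 1 + i.2.1) (M * i.1 + i.2.2) s n)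
  have hsub : {ω : Config | full r ω ∈ {η | HC η 0 ((2 : ℕ) * ((n + 1 : ℕ) : ℤ)) 0 ((n + 1 : ℕ) : ℤ)}} ⊆
      ⋃ i ∈ G, Ev i := by
    intro ω hω
    have hω' : HC (full r ω) 0 (2 * (n + 1 : ℤ)) 0 (n + 1 : ℤ) := by
      have h := hω
      simp only [Set.mem_ofPred_eq] at h
      push_cast at h
      exact h
    obtain ⟨y, S, T, u, v, a, b, h1, h2, h3, h4, h5, h6, h7, h8, h9, h10, h11, h12, h13⟩ :=
      ablower_split (by omega) hω'
    set i : ℤ := (y + s) / M with hi
    have hi1 : M * i ≤ y + s := Int.mul_ediv_self_le hMpos.ne'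
    have hi2 : y + s < M * i + M := by
      have := Int.lt_mul_ediv_self_add (x := y + s) hMpos
      exact this
    have hiN : ((i, a, b) : ℤ × ℤ × ℤ) ∈ G := by
      simp only [G, Finset.mem_product, Finset.mem_Icc]
      refine ⟨⟨Int.ediv_nonneg (by omega) hMpos.le, ?_⟩, ⟨h3, h4⟩, ⟨h5, h6⟩⟩
      rw [hi, hN]
      exact Int.ediv_le_ediv hMpos (by omega)
    refine Set.mem_biUnion hiN ?_
    refine ⟨ablower_cfg S, ablower_cfg T, ablower_le h8, ablower_le h9, ablower_disj h7, ?_, ?_⟩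
    · refine (ablower_conn h10).mem_AB hs ?_ (Or.inl (by rw [h11]; omega))
      rw [mem_TR_site]
      simp only
      omega
    · refine (ablower_conn h12).mem_AB hs ?_ (Or.inr (Or.inl (by
        rw [h13]
        simp only
        omega)))
      rw [mem_TR_site]
      simp only
      omega
  have hEv : ∀ i, Pr p₀ (Ev i) ≤ P ^ 2 := by
    intro i
    have h1 := ablower_Pr_two p₀ (r := r)
      ((localOn_AB (n + 1) (M * i.1) s n).mono (Finset.subset_union_left
        (s₂ := eRect (n + 1 + i.2.1 - n) (n + 1 + i.2.1 + n) (M * i.1 + i.2.2 - n)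
          (M * i.1 + i.2.2 + n))))
      ((localOn_AB (n + 1 + i.2.1) (M * i.1 + i.2.2) s n).mono Finset.subset_union_right)
      (incr_AB _ _ _ _) (incr_AB _ _ _ _)
    rw [PT_AB, PT_AB] at h1
    rw [sq]
    exact h1
  have hcard : (G.card : ℝ) = 9 * (N + 1) := by
    have h1 : G.card = (N + 1).toNat * (3 * 3) := by
      simp only [G, Finset.card_product, Int.card_Icc]
      have e1 : (N + 1 - 0).toNat = (N + 1).toNat := by rw [sub_zero]
      rw [e1]
      rfl
    have h2 : ((N + 1).toNat : ℤ) = N + 1 := Int.toNat_of_nonneg (by omega)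
    have h3 : (((N + 1).toNat : ℕ) : ℝ) = (N : ℝ) + 1 := by exact_mod_cast h2
    rw [h1]
    push_cast
    rw [h3]
    ring
  have hfin : c ≤ 9 * ((N : ℝ) + 1) * P ^ 2 := by
    calc c ≤ _ := hHC (n + 1) (by omega)
      _ ≤ Pr p₀ (⋃ i ∈ G, Ev i) := Pr_mono hsub
      _ ≤ ∑ i ∈ G, Pr p₀ (Ev i) := Pr_biUnion_le _ _
      _ ≤ ∑ _i ∈ G, P ^ 2 := Finset.sum_le_sum (fun i _ => hEv i)
      _ = 9 * ((N : ℝ) + 1) * P ^ 2 := by
        rw [Finset.sum_const, nsmul_eq_mul, hcard]
  have hn' : (1 : ℝ) ≤ n := by exact_mod_cast hn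
  have hs' : (s : ℝ) ≤ n := by exact_mod_cast hs
  have hs0 : (0 : ℝ) ≤ s := Nat.cast_nonneg s
  have hNb : ((N : ℝ) + 1) * (s + 1) ≤ 5 * n := by
    have h5 : M * N ≤ n + 1 + s := Int.mul_ediv_self_le hMpos.ne'
    have h6 : ((M : ℝ)) * N ≤ n + 1 + s := by exact_mod_cast h5
    have hN0' : (0 : ℝ) ≤ N := by exact_mod_cast hN0
    have h7 : (M : ℝ) = 2 * s + 1 := by rw [hM]; push_cast; ring
    rw [h7] at h6
    nlinarith [mul_nonneg hs0 hN0']
  have hkey : c / 45 * ((s + 1) / (n : ℝ)) ≤ P ^ 2 := by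
    have hnpos : (0 : ℝ) < n := by linarith
    have h1 : c * (s + 1) ≤ 45 * n * P ^ 2 := by
      calc c * (s + 1) ≤ 9 * ((N : ℝ) + 1) * P ^ 2 * (s + 1) :=
            mul_le_mul_of_nonneg_right hfin (by linarith)
        _ = 9 * (((N : ℝ) + 1) * (s + 1)) * P ^ 2 := by ring
        _ ≤ 9 * (5 * n) * P ^ 2 := by
            refine mul_le_mul_of_nonneg_right ?_ (sq_nonneg P)
            exact mul_le_mul_of_nonneg_left hNb (by norm_num)
        _ = 45 * n * P ^ 2 := by ring
    rw [← mul_div_assoc, div_le_iff₀ hnpos]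
    linarith
  rw [← Real.sqrt_mul (by positivity)]
  exact Real.sqrt_le_iff.2 ⟨hP0, hkey⟩

end Pool.Agent.H83.Site

end

section

/-!
# Transfer to site percolation on `ℤ × ℤ`
-/

set_option autoImplicit false

open MeasureTheory ProbabilityTheory unitInterval

namespace Pool.Agent.H83.Site

open Pool.Agent.H89.Perc

/-- Adjacency of the square lattice (`r = false`) and of its matching lattice (`r = true`). -/
def SA (r : Bool) (u v : ℤ × ℤ) : Prop :=
  u ≠ v ∧ |u.1 - v.1| ≤ 1 ∧ |u.2 - v.2| ≤ 1 ∧ (r = true ∨ u.1 = v.1 ∨ u.2 = v.2)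

/-- The configuration on the centred lattice given by a configuration of the sites. -/
def extS (ω : ℤ × ℤ → Bool) : Config := fun v => ω (v.1, v.2.1)

/-- Restriction to the sites. -/
def resS (ω : Config) : ℤ × ℤ → Bool := fun v => ω (v.1, v.2, false)

theorem full_extS_resS (r : Bool) (ω : Config) : full r (extS (resS ω)) = full r ω := by
  funext v
  obtain ⟨x, y, b⟩ := v
  cases b <;> simp [full, extS, resS]

theorem full_site (r : Bool) (ω : Config) (x y : ℤ) : full r ω (x, y, false) = ω (x, y, false) := by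
  simp [full]

theorem full_cen (r : Bool) (ω : Config) (x y : ℤ) : full r ω (x, y, true) = r := by
  simp [full]

variable {r : Bool} {ω : ℤ × ℤ → Bool}

/-- Neighbours are joined in the centred lattice. -/
theorem tconn_of_SA {u v : ℤ × ℤ} (hu : ω u = true) (hv : ω v = true) (h : SA r u v) :
    TConn (full r (extS ω)) Set.univ (u.1, u.2, false) (v.1, v.2, false) := by
  obtain ⟨a, b⟩ := u
  obtain ⟨c, d⟩ := v
  obtain ⟨h1, h2, h3, h4⟩ := h
  simp only [abs_le] at h2 h3
  simp only at h4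
  have hu' : full r (extS ω) (a, b, false) = true := by rw [full_site]; exact hu
  have hv' : full r (extS ω) (c, d, false) = true := by rw [full_site]; exact hv
  have hne : a ≠ c ∨ b ≠ d := by
    by_contra hcon
    push Not at hcon
    exact h1 (by rw [hcon.1, hcon.2])
  by_cases h5 : a = c ∨ b = d
  · refine TStep.conn ⟨trivial, trivial, Or.inl ⟨rfl, rfl, ?_⟩, hu', hv'⟩
    simp only
    omega
  · push Not at h5
    have hr : r = true := by
      rcases h4 with h | h | h
      · exact h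
      · exact absurd h h5.1
      · exact absurd h h5.2
    subst hr
    have hc : full true (extS ω) (min a c, min b d, true) = true := full_cen _ _ _ _
    have s1 : TStep (full true (extS ω)) Set.univ (a, b, false) (min a c, min b d, true) :=
      ⟨trivial, trivial, Or.inr (Or.inl ⟨rfl, rfl, by simp only; omega, by simp only; omega⟩),
        hu', hc⟩
    have s2 : TStep (full true (extS ω)) Set.univ (min a c, min b d, true) (c, d, false) :=
      ⟨trivial, trivial, Or.inr (Or.inr ⟨rfl, rfl, by simp only; omega, by simp only; omega⟩),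
        hc, hv'⟩
    exact s1.conn.tail s2

section graph

variable {G : SimpleGraph (ℤ × ℤ)}

theorem tconn_of_reachable (hG : ∀ u v, G.Adj u v ↔ ω u = true ∧ ω v = true ∧ SA r u v)
    {u v : ℤ × ℤ} (hu : ω u = true) (h : G.Reachable u v) :
    TConn (full r (extS ω)) Set.univ (u.1, u.2, false) (v.1, v.2, false) := by
  rw [SimpleGraph.reachable_iff_reflTransGen] at h
  induction h with
  | refl => exact TConn.refl trivial (by rw [full_site]; exact hu)
  | tail _ hbc ih =>
    obtain ⟨h1, h2, h3⟩ := (hG _ _).1 hbc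
    exact ih.trans (tconn_of_SA h1 h2 h3)

/-- The corners of a centre. -/
def crn (v : TV) (c : ℤ × ℤ) : Prop :=
  if v.2.2 then (c.1 = v.1 ∨ c.1 = v.1 + 1) ∧ (c.2 = v.2.1 ∨ c.2 = v.2.1 + 1)
  else c = (v.1, v.2.1)

theorem reachable_of_tconn (hG : ∀ u v, G.Adj u v ↔ ω u = true ∧ ω v = true ∧ SA r u v)
    {S : Set TV} {u : ℤ × ℤ} {v : TV} (h : TConn (full r (extS ω)) S (u.1, u.2, false) v) :
    ∀ c : ℤ × ℤ, crn v c → ω c = true → G.Reachable u c := by
  refine h.induction_right (P := fun v => ∀ c : ℤ × ℤ, crn v c → ω c = true → G.Reachable u c)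
    ?_ ?_
  · intro c hc _
    simp only [crn, Bool.false_eq_true, if_false] at hc
    rw [hc]
  · intro a b _ hab ih c hc ho
    obtain ⟨-, -, hadj, ha, hb⟩ := hab
    have key : ∀ a' c' : ℤ × ℤ, ω a' = true → ω c' = true → G.Reachable u a' →
        |a'.1 - c'.1| ≤ 1 → |a'.2 - c'.2| ≤ 1 → (r = true ∨ a'.1 = c'.1 ∨ a'.2 = c'.2) →
        G.Reachable u c' := by
      intro a' c' h1 h2 h3 h4 h5 h6
      by_cases h7 : a' = c'
      · rw [← h7]; exact h3
      · exact h3.trans ((hG _ _).2 ⟨h1, h2, h7, h4, h5, h6⟩).reachable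
    obtain ⟨a1, a2, a3⟩ := a
    obtain ⟨b1, b2, b3⟩ := b
    unfold TAdj at hadj
    rcases hadj with ⟨h1, h2, h3⟩ | ⟨h1, h2, h3⟩ | ⟨h1, h2, h3⟩
    · simp only at h1 h2 h3
      subst h1 h2
      simp only [crn, Bool.false_eq_true, if_false] at hc ih
      rw [full_site] at ha hb
      have h4 := ih (a1, a2) rfl ha
      rw [hc]
      refine key (a1, a2) (b1, b2) ha hb h4 ?_ ?_ ?_
      · simp only [abs_le]; omega
      · simp only [abs_le]; omega
      · right; simp only; omega
    · simp only at h1 h2 h3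
      subst h1 h2
      simp only [crn, Bool.false_eq_true, if_false, if_true] at hc ih
      rw [full_site] at ha
      rw [full_cen] at hb
      have h4 := ih (a1, a2) rfl ha
      refine key (a1, a2) c ha ho h4 ?_ ?_ (Or.inl hb)
      · simp only [abs_le]; omega
      · simp only [abs_le]; omega
    · simp only at h1 h2 h3
      subst h1 h2
      simp only [crn, Bool.false_eq_true, if_false, if_true] at hc ih
      rw [full_site] at hb
      rw [hc]
      exact ih (b1, b2) h3 hb

/-- The cluster of the origin is infinite if and only if the origin is joined to all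
distances. -/
theorem infinite_iff (hG : ∀ u v, G.Adj u v ↔ ω u = true ∧ ω v = true ∧ SA r u v) :
    {v | G.Reachable (0, 0) v}.Infinite ↔ ∀ n, full r (extS ω) ∈ AB 0 0 0 n := by
  constructor
  · intro hinf n
    -- a point of the cluster outside of the box
    have hfin : (Set.Icc ((-n : ℤ), (-n : ℤ)) ((n : ℤ), (n : ℤ))).Finite := Set.finite_Icc _ _
    obtain ⟨v, hv, hvn⟩ := hinf.exists_notMem_finite hfin
    have hne : v ≠ (0, 0) := by
      rintro rfl
      apply hvn
      rw [Set.mem_Icc]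
      exact ⟨⟨by simp, by simp⟩, ⟨by simp, by simp⟩⟩
    have hvr : G.Reachable (0, 0) v := hv
    have h0 : ω (0, 0) = true := by
      rw [SimpleGraph.reachable_iff_reflTransGen] at hvr
      rcases Relation.ReflTransGen.cases_head hvr with h | ⟨c, h, -⟩
      · exact absurd h.symm hne
      · exact ((hG _ _).1 h).1
    have hc := tconn_of_reachable hG h0 hvr
    have hvn' : (v.1, v.2, false) ∉ TR (0 - n) (0 + n) (0 - n) (0 + n) := by
      rw [mem_TR_site]
      intro h
      apply hvn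
      rw [Set.mem_Icc]
      exact ⟨⟨by simp only; omega, by simp only; omega⟩, ⟨by simp only; omega, by simp only; omega⟩⟩
    have h0n : ((0 : ℤ), (0 : ℤ), false) ∈ TR (0 - n) (0 + n) (0 - n) (0 + n) := by
      rw [mem_TR_site]; omega
    obtain ⟨w, w', h1, h2, h3, -⟩ := hc.exists_exit h0n hvn'
    rw [Set.univ_inter] at h1
    have hw := h1.mem_right
    have hs : w ∈ sph 0 0 n := by
      rw [mem_TR] at hw
      rw [mem_TR] at h3
      have hadj := h2.2.2.1
      have e1 : fx w < 2 * (0 + n) → fx w' ≤ 2 * (0 + n) := hadj.fx_le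
      have e2 : 2 * (0 - n) < fx w → 2 * (0 - n) ≤ fx w' := hadj.le_fx
      have e3 : fy w < 2 * (0 + n) → fy w' ≤ 2 * (0 + n) := hadj.fy_le
      have e4 : 2 * (0 - n) < fy w → 2 * (0 - n) ≤ fy w' := hadj.le_fy
      have h5 : fx w = 2 * (0 - n) ∨ fx w = 2 * (0 + n) ∨ fy w = 2 * (0 - n) ∨
          fy w = 2 * (0 + n) := by
        by_contra hcon
        push Not at hcon
        apply h3
        refine ⟨e2 ?_, e1 ?_, e4 ?_, e3 ?_⟩ <;> omega
      refine ⟨h1.mem_right, ?_, ?_⟩
      · rcases h5 with h | h | h | h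
        · exact (site_of_fx h).1
        · exact (site_of_fx h).1
        · exact (site_of_fy h).1
        · exact (site_of_fy h).1
      · rcases h5 with h | h | h | h
        · left; exact (site_of_fx h).2
        · right; left; exact (site_of_fx h).2
        · right; right; left; exact (site_of_fy h).2
        · right; right; right; exact (site_of_fy h).2
    refine ⟨(0, 0, false), ?_, w, hs, h1⟩
    rw [mem_TR_site]; omega
  · intro h hfin
    -- all points of the cluster are bounded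
    obtain ⟨N, hN⟩ : ∃ N : ℕ, ∀ v ∈ {v | G.Reachable (0, 0) v}, |v.1| < N ∧ |v.2| < N := by
      obtain ⟨B, hB⟩ := (hfin.image fun v : ℤ × ℤ => max |v.1| |v.2|).bddAbove
      refine ⟨(B + 1).toNat, fun v hv => ?_⟩
      have h1 : max |v.1| |v.2| ≤ B := hB ⟨v, hv, rfl⟩
      have h2 := le_max_left |v.1| |v.2|
      have h3 := le_max_right |v.1| |v.2|
      have h4 := abs_nonneg v.1
      have h5 := Int.self_le_toNat (B + 1)
      constructor <;> omega
    obtain ⟨u, hu, w, ⟨-, hws, hw⟩, hc⟩ := h N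
    obtain ⟨u1, u2, u3⟩ := u
    have hu' : u3 = false ∧ u1 = 0 ∧ u2 = 0 := by
      cases u3
      · rw [mem_TR_site] at hu
        exact ⟨rfl, by omega, by omega⟩
      · rw [mem_TR_cen] at hu
        omega
    obtain ⟨rfl, rfl, rfl⟩ := hu'
    obtain ⟨w1, w2, w3⟩ := w
    simp only at hws
    subst hws
    have ho : ω (w1, w2) = true := by
      have := hc.open_right
      rwa [full_site] at this
    have hr := reachable_of_tconn (u := (0, 0)) hG hc (w1, w2) (by simp [crn]) ho
    have h1 := hN (w1, w2) hr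
    simp only [abs_lt] at h1
    simp only at hw
    omega

end graph

theorem map_resS (p : I) :
    (μ p).map resS = Measure.infinitePi (fun _ : ℤ × ℤ => bernoulliMeasure true false p) := by
  classical
  have hres : Measurable resS := by
    refine measurable_pi_lambda _ fun v => ?_
    exact measurable_pi_apply (v.1, v.2, false)
  apply Measure.eq_infinitePi
  intro s t ht
  have hmeas : MeasurableSet (Set.pi (s : Set (ℤ × ℤ)) t) :=
    MeasurableSet.pi s.countable_toSet fun i _ => ht i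
  rw [Measure.map_apply hres hmeas]
  have hinj : Function.Injective (fun v : ℤ × ℤ => ((v.1, v.2, false) : Edge)) := by
    rintro ⟨a, b⟩ ⟨c, d⟩ h
    simpa using h
  have hpre : resS ⁻¹' (Set.pi (s : Set (ℤ × ℤ)) t) =
      Set.pi ((s.image fun v : ℤ × ℤ => ((v.1, v.2, false) : Edge) : Finset Edge) : Set Edge)
        (fun e => t (e.1, e.2.1)) := by
    ext ω
    simp only [Set.mem_preimage, Set.mem_pi, Finset.mem_coe, Finset.mem_image]
    constructor
    · rintro h e ⟨v, hv, rfl⟩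
      exact h v hv
    · intro h v hv
      exact h (v.1, v.2, false) ⟨v, hv, rfl⟩
  rw [hpre, μ, Measure.infinitePi_pi _ (fun e _ => ht _), Finset.prod_image hinj.injOn]

/-- The percolation probability of the two site percolation models. -/
theorem theta_transfer (p : I) (r : Bool) (G : (ℤ × ℤ → Bool) → SimpleGraph (ℤ × ℤ))
    (hG : ∀ ω u v, (G ω).Adj u v ↔ ω u = true ∧ ω v = true ∧ SA r u v) :
    (Measure.infinitePi (fun _ : ℤ × ℤ => bernoulliMeasure true false p)).real
      {ω | {v | (G ω).Reachable (0, 0) v}.Infinite} = thT p r := by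
  have hset : {ω | {v | (G ω).Reachable (0, 0) v}.Infinite} =
      extS ⁻¹' {ω | ∀ n, full r ω ∈ AB 0 0 0 n} := by
    ext ω
    simp only [Set.mem_ofPred_eq, Set.mem_preimage]
    exact infinite_iff (hG ω)
  have hext : Measurable extS := by
    refine measurable_pi_lambda _ fun v => ?_
    exact measurable_pi_apply (v.1, v.2.1)
  have hres : Measurable resS := by
    refine measurable_pi_lambda _ fun v => ?_
    exact measurable_pi_apply (v.1, v.2, false)
  have hT : MeasurableSet {ω : Config | ∀ n, full r ω ∈ AB 0 0 0 n} := by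
    have : {ω : Config | ∀ n, full r ω ∈ AB 0 0 0 n} = ⋂ n, {ω | full r ω ∈ AB 0 0 0 n} := by
      ext ω; simp
    rw [this]
    exact MeasurableSet.iInter fun n => (localOn_full r (localOn_AB 0 0 0 n)).measurableSet
  rw [hset, ← map_resS, map_measureReal_apply hres (hext hT)]
  unfold thT PT Pr
  congr 1
  ext ω
  simp only [Set.mem_preimage, Set.mem_ofPred_eq, full_extS_resS]

end Pool.Agent.H83.Site

end

section

/-!
# Site percolation through the induced bond configuration

Site configurations are stored at the edges `(x, y, false)` of the lattice. `sit ω` is the induced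
bond configuration: an edge is open if both endpoints are open sites. `Pr p A` is the probability
that the induced configuration is in `A`, when the sites are open with probability `p`.
-/

set_option autoImplicit false

open MeasureTheory ProbabilityTheory unitInterval

namespace Pool.Agent.H83.SK

open Pool.Agent.H89.Perc

/-- The coordinate of a site. -/
def sv (v : Vert) : Edge := (v.1, v.2, false)

/-- The induced bond configuration. -/
def sit (ω : Config) : Config := fun e => ω (sv (src e)) && ω (sv (tgt e))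

/-- Probability for site percolation. -/
noncomputable def Pr (p : I) (A : Set Config) : ℝ := Pool.Agent.H89.Perc.Pr p {ω | sit ω ∈ A}

/-- The sites of a set of edges. -/
noncomputable def hull (s : Finset Edge) : Finset Edge := by
  classical exact s.image (fun e => sv (src e)) ∪ s.image (fun e => sv (tgt e))

variable {s t : Finset Edge} {A B : Set Config} {p q : I}

theorem sit_true {ω : Config} {e : Edge} :
    sit ω e = true ↔ ω (sv (src e)) = true ∧ ω (sv (tgt e)) = true := by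
  simp [sit]

theorem mem_hull {s : Finset Edge} {g : Edge} :
    g ∈ hull s ↔ ∃ e ∈ s, g = sv (src e) ∨ g = sv (tgt e) := by
  classical
  unfold hull
  simp only [Finset.mem_union, Finset.mem_image]
  constructor
  · rintro (⟨e, he, rfl⟩ | ⟨e, he, rfl⟩)
    · exact ⟨e, he, Or.inl rfl⟩
    · exact ⟨e, he, Or.inr rfl⟩
  · rintro ⟨e, he, rfl | rfl⟩
    · exact Or.inl ⟨e, he, rfl⟩
    · exact Or.inr ⟨e, he, rfl⟩

theorem hull_mono {s t : Finset Edge} (h : s ⊆ t) : hull s ⊆ hull t := by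
  intro g hg
  rw [mem_hull] at hg ⊢
  obtain ⟨e, he, h'⟩ := hg
  exact ⟨e, h he, h'⟩

theorem sv_injective : Function.Injective sv := by
  rintro ⟨a, b⟩ ⟨c, d⟩ h
  simpa [sv] using h

theorem disj_hull {s t : Finset Edge}
    (h : ∀ e ∈ s, ∀ f ∈ t, src e ≠ src f ∧ src e ≠ tgt f ∧ tgt e ≠ src f ∧ tgt e ≠ tgt f) :
    Disjoint (hull s) (hull t) := by
  rw [Finset.disjoint_left]
  intro g h1 h2
  rw [mem_hull] at h1 h2
  obtain ⟨e, he, h1⟩ := h1
  obtain ⟨f, hf, h2⟩ := h2
  obtain ⟨k1, k2, k3, k4⟩ := h e he f hf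
  rcases h1 with rfl | rfl <;> rcases h2 with h2 | h2
  · exact k1 (sv_injective h2)
  · exact k2 (sv_injective h2)
  · exact k3 (sv_injective h2)
  · exact k4 (sv_injective h2)

/-- Disjointness through a separating set of vertices. -/
theorem disj_hull_of {s t : Finset Edge} {S : Set Vert} (h1 : ∀ e ∈ s, src e ∈ S ∧ tgt e ∈ S)
    (h2 : ∀ e ∈ t, src e ∉ S ∧ tgt e ∉ S) : Disjoint (hull s) (hull t) := by
  refine disj_hull fun e he f hf => ?_
  obtain ⟨a1, a2⟩ := h1 e he
  obtain ⟨b1, b2⟩ := h2 f hf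
  exact ⟨fun h => b1 (h ▸ a1), fun h => b2 (h ▸ a1), fun h => b1 (h ▸ a2), fun h => b2 (h ▸ a2)⟩

theorem localOn_sit (h : LocalOn s A) : LocalOn (hull s) {ω | sit ω ∈ A} := by
  intro ω ω' hω hA
  refine h _ _ (fun e he => ?_) hA
  have h1 : sv (src e) ∈ hull s := mem_hull.2 ⟨e, he, Or.inl rfl⟩
  have h2 : sv (tgt e) ∈ hull s := mem_hull.2 ⟨e, he, Or.inr rfl⟩
  simp only [sit]
  rw [hω _ h1, hω _ h2]

theorem sit_mono {ω ω' : Config} (h : ∀ e, ω e = true → ω' e = true) :
    ∀ e, sit ω e = true → sit ω' e = true := by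
  intro e he
  rw [sit_true] at he ⊢
  exact ⟨h _ he.1, h _ he.2⟩

theorem incr_sit (h : Incr A) : Incr {ω | sit ω ∈ A} :=
  fun _ _ hω hA => h _ _ (sit_mono hω) hA

theorem incr_sit_compl (h : Incr Aᶜ) : Incr {ω | sit ω ∈ A}ᶜ :=
  fun _ _ hω hA => h _ _ (sit_mono hω) hA

theorem Pr_nonneg : 0 ≤ Pr p A := Pool.Agent.H89.Perc.Pr_nonneg

theorem Pr_le_one : Pr p A ≤ 1 := Pool.Agent.H89.Perc.Pr_le_one

theorem Pr_mono (h : A ⊆ B) : Pr p A ≤ Pr p B :=
  Pool.Agent.H89.Perc.Pr_mono fun _ hω => h hω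

theorem Pr_union_le : Pr p (A ∪ B) ≤ Pr p A + Pr p B := by
  unfold Pr
  exact Pool.Agent.H89.Perc.Pr_union_le (A := {ω | sit ω ∈ A}) (B := {ω | sit ω ∈ B})

theorem Pr_univ : Pr p Set.univ = 1 := by
  unfold Pr
  have : {ω : Config | sit ω ∈ (Set.univ : Set Config)} = Set.univ := by ext ω; simp
  rw [this, Pool.Agent.H89.Perc.Pr_univ]

theorem Pr_empty : Pr p (∅ : Set Config) = 0 := by
  unfold Pr
  have : {ω : Config | sit ω ∈ (∅ : Set Config)} = ∅ := by ext ω; simp
  rw [this]
  simp [Pool.Agent.H89.Perc.Pr]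

theorem Pr_compl (h : LocalOn s A) : Pr p Aᶜ = 1 - Pr p A := by
  unfold Pr
  exact Pool.Agent.H89.Perc.Pr_compl (localOn_sit h)

theorem Pr_biUnion_le {ι : Type*} (F : Finset ι) (A : ι → Set Config) :
    Pr p (⋃ i ∈ F, A i) ≤ ∑ i ∈ F, Pr p (A i) := by
  unfold Pr
  have h : {ω | sit ω ∈ ⋃ i ∈ F, A i} = ⋃ i ∈ F, {ω | sit ω ∈ A i} := by
    ext ω
    simp
  rw [h]
  exact Pool.Agent.H89.Perc.Pr_biUnion_le F _

/-- Probability of a disjoint union of local events. -/
theorem Pr_biUnion {ι : Type*} (F : Finset ι) (A : ι → Set Config)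
    (t : ι → Finset Edge) (hA : ∀ i ∈ F, LocalOn (t i) (A i))
    (hd : ∀ i ∈ F, ∀ j ∈ F, i ≠ j → Disjoint (A i) (A j)) :
    Pr p (⋃ i ∈ F, A i) = ∑ i ∈ F, Pr p (A i) := by
  unfold Pr
  have h : {ω | sit ω ∈ ⋃ i ∈ F, A i} = ⋃ i ∈ F, {ω | sit ω ∈ A i} := by
    ext ω
    simp
  rw [h]
  refine measureReal_biUnion_finset (fun i hi j hj hij => ?_)
    (fun i hi => (localOn_sit (hA i hi)).measurableSet)
  rw [Function.onFun, Set.disjoint_left]
  intro ω h1 h2
  exact Set.disjoint_left.1 (hd i hi j hj hij) h1 h2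

/-- Events depending on edges without a common vertex are independent. -/
theorem Pr_inter_of_disjoint (hA : LocalOn s A) (hB : LocalOn t B)
    (hst : Disjoint (hull s) (hull t)) : Pr p (A ∩ B) = Pr p A * Pr p B := by
  unfold Pr
  exact Pool.Agent.H89.Perc.Pr_inter_of_disjoint (localOn_sit hA) (localOn_sit hB) hst

/-- Harris inequality for two increasing local events. -/
theorem fkg (hA : LocalOn s A) (hB : LocalOn t B) (iA : Incr A) (iB : Incr B) :
    Pr p A * Pr p B ≤ Pr p (A ∩ B) := by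
  unfold Pr
  exact Pool.Agent.H89.Perc.fkg (localOn_sit hA) (localOn_sit hB) (incr_sit iA) (incr_sit iB)

/-- Harris inequality for two decreasing local events. -/
theorem fkg_decr (hA : LocalOn s A) (hB : LocalOn t B) (iA : Incr Aᶜ) (iB : Incr Bᶜ) :
    Pr p A * Pr p B ≤ Pr p (A ∩ B) := by
  unfold Pr
  exact Pool.Agent.H89.Perc.fkg_decr (localOn_sit hA) (localOn_sit hB) (incr_sit_compl iA)
    (incr_sit_compl iB)

/-- The probability of an increasing local event is nondecreasing in the density. -/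
theorem Pr_mono_param (hA : LocalOn s A) (iA : Incr A) (hpq : p ≤ q) : Pr p A ≤ Pr q A := by
  unfold Pr
  exact Pool.Agent.H89.Perc.Pr_mono_param (localOn_sit hA) (incr_sit iA) hpq

/-! ### Symmetries -/

/-- An edge map which comes from an injective map of the vertices. -/
def IsAut (φ : Edge → Edge) : Prop :=
  ∃ f : Vert → Vert, Function.Injective f ∧ ∀ e,
    (src (φ e) = f (src e) ∧ tgt (φ e) = f (tgt e)) ∨ (src (φ e) = f (tgt e) ∧ tgt (φ e) = f (src e))

theorem Pr_comp (hA : LocalOn s A) {φ : Edge → Edge} (hφ : IsAut φ) :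
    Pr p {ω | (fun e => ω (φ e)) ∈ A} = Pr p A := by
  obtain ⟨f, hf, h⟩ := hφ
  unfold Pr
  have h1 : {ω : Config | sit ω ∈ {ω | (fun e => ω (φ e)) ∈ A}} =
      {ω : Config | (fun e => ω (sv (f (src e)))) ∈ {ω | sit ω ∈ A}} := by
    ext ω
    have h2 : (fun e => sit ω (φ e)) = sit (fun e => ω (sv (f (src e)))) := by
      funext e
      simp only [sit]
      have e1 : src (sv (src e)) = src e := rfl
      have e2 : src (sv (tgt e)) = tgt e := rfl
      rcases h e with ⟨h3, h4⟩ | ⟨h3, h4⟩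
      · rw [h3, h4, e1, e2]
      · rw [h3, h4, e1, e2, Bool.and_comm]
    simp only [Set.mem_ofPred_eq]
    rw [h2]
  rw [h1]
  refine Pool.Agent.H89.Perc.Pr_comp (s := hull s) (localOn_sit hA)
    (φ := fun e => sv (f (src e))) ?_
  intro a ha b hb hab
  have hab' : f (src a) = f (src b) := sv_injective hab
  have hsrc := hf hab'
  have ha' := mem_hull.1 ha
  have hb' := mem_hull.1 hb
  have key : ∀ g : Edge, (∃ e ∈ s, g = sv (src e) ∨ g = sv (tgt e)) → g = sv (src g) := by
    rintro g ⟨e, -, rfl | rfl⟩ <;> rfl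
  rw [key a ha', key b hb', hsrc]

theorem isAut_shift (z : Vert) : IsAut (shiftE z) := by
  refine ⟨fun w => (w.1 + z.1, w.2 + z.2), ?_, ?_⟩
  · rintro ⟨a, b⟩ ⟨c, d⟩ h
    simpa using h
  · rintro ⟨x, y, t⟩
    left
    refine ⟨rfl, ?_⟩
    cases t
    · simp only [tgt, shiftE]
      ext <;> (simp; try ring)
    · simp only [tgt, shiftE]
      ext <;> (simp; try ring)

theorem isAut_swap : IsAut swapE := by
  refine ⟨fun w => (w.2, w.1), ?_, ?_⟩
  · rintro ⟨a, b⟩ ⟨c, d⟩ h
    simp only [Prod.mk.injEq] at h ⊢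
    exact ⟨h.2, h.1⟩
  · rintro ⟨x, y, t⟩
    left
    cases t <;> exact ⟨rfl, rfl⟩

theorem isAut_reflX (z : ℤ) : IsAut (reflX z) := by
  refine ⟨fun w => (z - w.1, w.2), ?_, ?_⟩
  · rintro ⟨a, b⟩ ⟨c, d⟩ h
    simp only [Prod.mk.injEq] at h ⊢
    exact ⟨by omega, h.2⟩
  · rintro ⟨x, y, t⟩
    cases t
    · right
      refine ⟨?_, ?_⟩ <;> ext <;> simp [reflX, src, tgt] <;> ring
    · left
      refine ⟨?_, ?_⟩ <;> ext <;> simp [reflX, src, tgt]

theorem isAut_reflY (z : ℤ) : IsAut (reflY z) := by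
  refine ⟨fun w => (w.1, z - w.2), ?_, ?_⟩
  · rintro ⟨a, b⟩ ⟨c, d⟩ h
    simp only [Prod.mk.injEq] at h ⊢
    exact ⟨h.1, by omega⟩
  · rintro ⟨x, y, t⟩
    cases t
    · left
      refine ⟨?_, ?_⟩ <;> ext <;> simp [reflY, src, tgt]
    · right
      refine ⟨?_, ?_⟩ <;> ext <;> simp [reflY, src, tgt] <;> ring

theorem Pr_hcross_translate {a b c d : ℤ} (x y : ℤ) :
    Pr p {ω | HCross ω (a + x) (b + x) (c + y) (d + y)} = Pr p {ω | HCross ω a b c d} := by
  rw [← Pr_comp (localOn_hcross a b c d) (isAut_shift (x, y))]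
  congr 1
  ext ω
  exact (hcross_shift x y).symm

theorem Pr_vcross_translate {a b c d : ℤ} (x y : ℤ) :
    Pr p {ω | VCross ω (a + x) (b + x) (c + y) (d + y)} = Pr p {ω | VCross ω a b c d} := by
  rw [← Pr_comp (localOn_vcross a b c d) (isAut_shift (x, y))]
  congr 1
  ext ω
  exact (vcross_shift x y).symm

theorem Pr_vcross_eq_hcross {a b c d : ℤ} :
    Pr p {ω | VCross ω c d a b} = Pr p {ω | HCross ω a b c d} := by
  rw [← Pr_comp (localOn_vcross c d a b) isAut_swap]
  congr 1
  ext ω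
  exact vcross_swap

/-! ### One-arm events -/

theorem Pr_armBox (v : Vert) (k r : ℕ) : Pr p (ArmBox v k r) = Pr p (ArmBox 0 k r) := by
  rw [← armBox_shift v k r, Pr_comp (localOn_armBox 0 k r) (isAut_shift v)]

/-! ### The box-crossing regime -/

/-- Box-crossing regime: for all scales up to `n`, open crossings of `4 : 1` rectangles in the long
direction, and absence of open crossings in the short direction, have probability at least `c`. -/
def RSWreg (c : ℝ) (n : ℕ) (q : I) : Prop :=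
  ∀ m : ℕ, 1 ≤ m → m ≤ n → c ≤ Pr q {ω | HCross ω 0 (4 * m) 0 m} ∧
    c ≤ Pr q {ω | ¬ VCross ω 0 (4 * m) 0 m}

theorem rswreg_mono {c : ℝ} {n m : ℕ} {q : I} (h : RSWreg c n q) (hm : m ≤ n) :
    RSWreg c m q := fun k h1 h2 => h k h1 (h2.trans hm)

end Pool.Agent.H83.SK

end

section

/-!
# Near-critical site percolation: definitions and interfaces

Four-arm events are sets of bond configurations (used for `sit w`), torus events are sets of site
configurations. `a4 q r` is the probability that the origin has two neighbours which are joined to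
distance `r` by open paths avoiding the origin and which are not joined to each other by such a
path.
-/

set_option autoImplicit false

open MeasureTheory ProbabilityTheory unitInterval

namespace Pool.Agent.H92.SN

open Pool.Agent.H89.Perc Pool.Agent.H61.NC
open Pool.Agent.H83.SK (sv sit)

/-- Box-crossing regime for site percolation. -/
abbrev SReg := Pool.Agent.H83.SK.RSWreg

/-- The site `v` is closed. -/
def shut (v : Vert) (w : Config) : Config := Function.update w (sv v) false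

/-- Close the edges at the vertex `v`. -/
def closeV (v : Vert) (ω : Config) : Config := fun e => ω e && decide (src e ≠ v ∧ tgt e ≠ v)

/-- `a` is a neighbour of `v`. -/
def Nb (v a : Vert) : Prop := ∃ e, Joins e v a

/-- Four-arm event of the site `v`, for the induced bond configuration: two neighbours of `v` are
joined to the sphere of radius `r` around `v` and not joined to each other, off `v`, inside the
ball. -/
def A4 (v : Vert) (r : ℕ) : Set Config :=
  {ω | ∃ a b, Nb v a ∧ Nb v b ∧ (∃ u ∈ sphere v r, Conn (closeV v ω) (ball v r) a u) ∧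
    (∃ u ∈ sphere v r, Conn (closeV v ω) (ball v r) b u) ∧ ¬ Conn (closeV v ω) (ball v r) a b}

/-- Four-arm probability. -/
noncomputable def a4 (q : I) (r : ℕ) : ℝ := Pool.Agent.H83.SK.Pr q (A4 0 r)

/-- Sites of the torus. -/
noncomputable def tSites (N : ℕ) : Finset Edge :=
  Finset.Ico (0 : ℤ) N ×ˢ Finset.Ico (0 : ℤ) N ×ˢ {false}

/-- There is an open path on the torus which winds around it horizontally (site percolation). -/
def WindS (N : ℕ) : Set Config :=
  {w | ∃ (u : Vert) (a b : ℤ), a ≠ 0 ∧ Conn (sit (per N w)) Set.univ u (u.1 + a * N, u.2 + b * N)}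

/-- The site in the middle of the torus, as a vertex. -/
def cV (N : ℕ) : Vert := (mid N, mid N)

/-- The site in the middle of the torus. -/
def cE (N : ℕ) : Edge := (mid N, mid N, false)

/-- The influence of a site on the winding event. -/
noncomputable def sT (q : I) (N : ℕ) : ℝ := pivot q (WindS N) (cE N)

/-- The block of radius `r` in the middle of the torus. -/
noncomputable def blkS (N r : ℕ) : Finset Edge :=
  Finset.Icc (mid N - r) (mid N + r) ×ˢ Finset.Icc (mid N - r) (mid N + r) ×ˢ {false}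

/-- The block of radius `r` is pivotal for the winding event. -/
def BlockPiv (N r : ℕ) : Set Config :=
  {w | fill (blkS N r) true w ∈ WindS N ∧ fill (blkS N r) false w ∉ WindS N}

/-- The four-arm event of a site of the torus. -/
def A4T (N : ℕ) (v : Vert) (r : ℕ) : Set Config := {w | sit (per N w) ∈ A4 v r}

/-- The derivative of the winding probability. -/
noncomputable def FT' (N : ℕ) (q : I) : ℝ := PrR' (tSites N) (WindS N) (q : ℝ)

/-! ### Interfaces -/

/-- Separation and gluing on the torus. -/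
def GLTorus : Prop :=
  ∀ c : ℝ, 0 < c → ∃ C : ℝ, 0 < C ∧ ∀ (N r : ℕ) (q : I), 1 ≤ r → 64 * r ≤ N →
    SReg c N q → a4 q r * Pr q (BlockPiv N (16 * r)) ≤ C * sT q N

/-- Block OSSS on the torus, lower bound. -/
def BlockLow : Prop :=
  ∀ c : ℝ, 0 < c → ∃ C δ : ℝ, 0 < C ∧ 0 < δ ∧ ∀ (N r : ℕ) (q : I), 1 ≤ r → 4 * r ≤ N →
    SReg c N q → ((r : ℝ) / N) ^ (2 - δ) ≤ C * Pr q (BlockPiv N r)

/-- Level-one inequality for blocks, upper bound. -/
def BlockUp : Prop :=
  ∀ c : ℝ, 0 < c → ∃ C δ : ℝ, 0 < C ∧ 0 < δ ∧ ∀ (N r : ℕ) (q : I), 1 ≤ r → 4 * r ≤ N →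
    SReg c N q → Pr q (BlockPiv N r) ≤ C * ((r : ℝ) / N) ^ (1 + δ)

/-- Quasi-multiplicativity for the planar annulus. -/
def QMann : Prop :=
  ∀ c : ℝ, 0 < c → ∃ C : ℝ, 0 < C ∧ ∀ (n r R : ℕ) (q : I), 1 ≤ r → 16 * r ≤ R → 64 * R ≤ n →
    SReg c n q →
      a4 q r * Pool.Agent.H83.SK.Pr q (Pool.Agent.H29.Sep.A2 (16 * r) R) ≤ C * a4 q R

/-! ### The connection of the neighbours of a site -/

/-- The neighbours of `v`. -/
def nb (v : Vert) : ℕ → Vert
  | 0 => (v.1 + 1, v.2)
  | 1 => (v.1, v.2 + 1)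
  | 2 => (v.1 - 1, v.2)
  | _ => (v.1, v.2 - 1)

/-- The `i`-th neighbour of `v` is joined to an earlier one off `v`, in `S` (bond
configurations). -/
def Dn (S : Set Vert) (v : Vert) (i : ℕ) : Set Config :=
  {ω | ∃ j < i, Conn (closeV v ω) S (nb v j) (nb v i)}

/-- `E(N₀) = 4 p - tau p` is the expected number of open clusters adjacent to the origin (off the
origin). -/
noncomputable def tau (p : I) : ℝ := ∑ i ∈ Finset.Icc 1 3, Pool.Agent.H83.SK.Pr p (Dn Set.univ 0 i)

/-- `tau` as a function on the real line (`0` outside the unit interval). -/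
noncomputable def tauR (x : ℝ) : ℝ := by
  classical exact if h : x ∈ I then tau ⟨x, h⟩ else 0

/-- The same event on the torus, for the site in the middle: in the periodic extension the `i`-th
neighbour is joined to a translate of an earlier one, off the translates of the middle site. -/
def DT (N i : ℕ) : Set Config :=
  {w | ∃ j < i, ∃ a b : ℤ, Conn (sit (per N (shut (cV N) w))) Set.univ (nb (cV N) j)
    ((nb (cV N) i).1 + a * N, (nb (cV N) i).2 + b * N)}

/-- The torus version of `tau`. -/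
noncomputable def tauT (N : ℕ) (q : I) : ℝ := ∑ i ∈ Finset.Icc 1 3, Pr q (DT N i)

end Pool.Agent.H92.SN

end

section

/-!
# Site percolation, RSW regime: crossings of all rectangles of bounded aspect ratio, both colours
-/

open MeasureTheory ProbabilityTheory unitInterval

namespace Pool.Agent.H83.SK

open Pool.Agent.H89.Perc Pool.Agent.H85.Strict

/-- Long crossings. -/
theorem long_rsw {q : I} {n : ℕ} {c₀ : ℝ} (hc : 0 ≤ c₀)
    (h : c₀ ≤ Pr q {ω | HCross ω 0 (4 * n) 0 n}) (j : ℕ) :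
    c₀ ^ (2 * j + 1) ≤ Pr q {ω | HCross ω 0 ((4 + 3 * j) * n) 0 n} := by
  induction j with
  | zero => simpa using h
  | succ j ih =>
    have hn : (0 : ℤ) ≤ n := by positivity
    have hjn : (0 : ℤ) ≤ (j : ℤ) * n := by positivity
    have hV : c₀ ≤ Pr q {ω | VCross ω ((3 + 3 * j) * n) ((4 + 3 * j) * n) 0 n} := by
      rw [Pr_vcross_eq_hcross]
      have h1 := Pr_hcross_translate (p := q) (a := 0) (b := (n : ℤ)) (c := 0) (d := (n : ℤ)) 0
        ((3 + 3 * j) * n)
      have e1 : (0 : ℤ) + (3 + 3 * j) * n = (3 + 3 * j) * n := by ring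
      have e2 : (n : ℤ) + (3 + 3 * j) * n = (4 + 3 * j) * n := by ring
      rw [e1, e2, add_zero, add_zero] at h1
      rw [h1]
      refine h.trans (Pr_mono fun ω hω => ?_)
      exact HCross.mono hω le_rfl hn (by omega) le_rfl le_rfl
    have hH : c₀ ≤ Pr q {ω | HCross ω ((3 + 3 * j) * n) ((7 + 3 * j) * n) 0 n} := by
      have h1 := Pr_hcross_translate (p := q) (a := 0) (b := 4 * (n : ℤ)) (c := 0) (d := (n : ℤ))
        ((3 + 3 * j) * n) 0
      have e1 : (0 : ℤ) + (3 + 3 * j) * n = (3 + 3 * j) * n := by ring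
      have e2 : 4 * (n : ℤ) + (3 + 3 * j) * n = (7 + 3 * j) * n := by ring
      rw [e1, e2, add_zero, add_zero] at h1
      rw [h1]
      exact h
    have f1 := fkg (p := q) (localOn_hcross 0 ((4 + 3 * (j : ℤ)) * n) 0 n)
      (localOn_vcross ((3 + 3 * (j : ℤ)) * n) ((4 + 3 * (j : ℤ)) * n) 0 n)
      (incr_hcross _ _ _ _) (incr_vcross _ _ _ _)
    have f2 := fkg (p := q) ((localOn_hcross 0 ((4 + 3 * (j : ℤ)) * n) 0 n).inter'
      (localOn_vcross ((3 + 3 * (j : ℤ)) * n) ((4 + 3 * (j : ℤ)) * n) 0 n))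
      (localOn_hcross ((3 + 3 * (j : ℤ)) * n) ((7 + 3 * (j : ℤ)) * n) 0 n)
      ((incr_hcross _ _ _ _).inter (incr_vcross _ _ _ _)) (incr_hcross _ _ _ _)
    have e : c₀ ^ (2 * (j + 1) + 1) = c₀ ^ (2 * j + 1) * c₀ * c₀ := by ring
    rw [e]
    have g1 := (mul_le_mul ih hV hc Pr_nonneg).trans f1
    have g2 := (mul_le_mul g1 hH hc Pr_nonneg).trans f2
    refine g2.trans (Pr_mono ?_)
    rintro ω ⟨⟨w1, w2⟩, w3⟩
    have := hcross_glue (by nlinarith) (by nlinarith) (by nlinarith) hn w1 w2 w3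
    show HCross ω 0 ((4 + 3 * ((j + 1 : ℕ) : ℤ)) * n) 0 n
    have e : (4 + 3 * ((j + 1 : ℕ) : ℤ)) * n = (7 + 3 * (j : ℤ)) * n := by push_cast; ring
    rw [e]
    exact this

/-- Without vertical crossings of two overlapping rectangles and without a horizontal crossing of
the overlap there is no vertical crossing of the union. -/
theorem novcross_glue {ω : Config} {a a' b b' c d : ℤ} (haa : a ≤ a') (hab : a' ≤ b)
    (hbb : b ≤ b') (h1 : ¬ VCross ω a b c d) (h2 : ¬ HCross ω a' b c d)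
    (h3 : ¬ VCross ω a' b' c d) : ¬ VCross ω a b' c d := by
  rintro ⟨u, v, hu, hv, h⟩
  by_cases hA : ∃ w, Conn ω (rect a b' c d) u w ∧ b < w.1
  · by_cases hB : ∃ w, Conn ω (rect a b' c d) u w ∧ w.1 < a'
    · obtain ⟨w, hw, hw'⟩ := hA
      obtain ⟨z, hz, hz'⟩ := hB
      obtain ⟨x, y, hx, hy, hxy, -, -⟩ := (hz.symm.trans hw).cross_x hz'.le hw'.le hab
      refine h2 ⟨x, y, hx, hy, hxy.mono_set ?_⟩
      rintro t ⟨ht, ht'⟩
      simp only [rect, Set.mem_ofPred_eq] at ht ht' ⊢
      omega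
    · push Not at hB
      refine h3 ⟨u, v, hu, hv, ?_⟩
      refine h.induction_right (P := fun y => Conn ω (rect a' b' c d) u y) ?_ ?_
      · refine Conn.refl ?_
        have k1 := h.mem_left
        have k2 := hB u (Conn.refl k1)
        simp only [rect, Set.mem_ofPred_eq] at k1 ⊢
        omega
      · intro x y hx hst ih
        have k1 := hst.2.1
        have k2 := hB y (hx.tail hst)
        refine ih.tail ⟨ih.mem_right, ?_, hst.2.2⟩
        simp only [rect, Set.mem_ofPred_eq] at k1 ⊢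
        omega
  · push Not at hA
    refine h1 ⟨u, v, hu, hv, ?_⟩
    refine h.induction_right (P := fun y => Conn ω (rect a b c d) u y) ?_ ?_
    · refine Conn.refl ?_
      have k1 := h.mem_left
      have k2 := hA u (Conn.refl k1)
      simp only [rect, Set.mem_ofPred_eq] at k1 ⊢
      omega
    · intro x y hx hst ih
      have k1 := hst.2.1
      have k2 := hA y (hx.tail hst)
      refine ih.tail ⟨ih.mem_right, ?_, hst.2.2⟩
      simp only [rect, Set.mem_ofPred_eq] at k1 ⊢
      omega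

theorem decr_novcross (a b c d : ℤ) : Incr {ω | ¬ VCross ω a b c d}ᶜ := by
  have : {ω : Config | ¬ VCross ω a b c d}ᶜ = {ω | VCross ω a b c d} := by
    ext ω
    simp
  rw [this]
  exact incr_vcross a b c d

theorem decr_nohcross (a b c d : ℤ) : Incr {ω | ¬ HCross ω a b c d}ᶜ := by
  have : {ω : Config | ¬ HCross ω a b c d}ᶜ = {ω | HCross ω a b c d} := by
    ext ω
    simp
  rw [this]
  exact incr_hcross a b c d

theorem localOn_novcross (a b c d : ℤ) : LocalOn (eRect a b c d) {ω | ¬ VCross ω a b c d} :=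
  (localOn_vcross a b c d).compl

theorem localOn_nohcross (a b c d : ℤ) : LocalOn (eRect a b c d) {ω | ¬ HCross ω a b c d} :=
  (localOn_hcross a b c d).compl

theorem Pr_novcross_eq {p : I} {a b c d : ℤ} :
    Pr p {ω | ¬ VCross ω c d a b} = Pr p {ω | ¬ HCross ω a b c d} := by
  have h1 := Pr_compl (p := p) (localOn_vcross c d a b)
  have h2 := Pr_compl (p := p) (localOn_hcross a b c d)
  rw [Pr_vcross_eq_hcross] at h1
  exact h1.trans h2.symm

theorem Pr_novcross_translate {p : I} {a b c d : ℤ} (x y : ℤ) :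
    Pr p {ω | ¬ VCross ω (a + x) (b + x) (c + y) (d + y)} = Pr p {ω | ¬ VCross ω a b c d} := by
  have h1 := Pr_compl (p := p) (localOn_vcross (a + x) (b + x) (c + y) (d + y))
  have h2 := Pr_compl (p := p) (localOn_vcross a b c d)
  rw [Pr_vcross_translate] at h1
  exact h1.trans h2.symm

/-- Absence of crossings of long rectangles in the short direction. -/
theorem long_closed {q : I} {n : ℕ} {c₀ : ℝ} (hc : 0 ≤ c₀)
    (h : c₀ ≤ Pr q {ω | ¬ VCross ω 0 (4 * n) 0 n}) (j : ℕ) :
    c₀ ^ (2 * j + 1) ≤ Pr q {ω | ¬ VCross ω 0 ((4 + 3 * j) * n) 0 n} := by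
  induction j with
  | zero => simpa using h
  | succ j ih =>
    have hn : (0 : ℤ) ≤ n := by positivity
    have hjn : (0 : ℤ) ≤ (j : ℤ) * n := by positivity
    have hV : c₀ ≤ Pr q {ω | ¬ HCross ω ((3 + 3 * j) * n) ((4 + 3 * j) * n) 0 n} := by
      rw [← Pr_novcross_eq]
      have h1 := Pr_novcross_translate (p := q) (a := 0) (b := (n : ℤ)) (c := 0) (d := (n : ℤ)) 0
        ((3 + 3 * j) * n)
      have e1 : (0 : ℤ) + (3 + 3 * j) * n = (3 + 3 * j) * n := by ring
      have e2 : (n : ℤ) + (3 + 3 * j) * n = (4 + 3 * j) * n := by ring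
      rw [e1, e2, add_zero, add_zero] at h1
      rw [h1]
      refine h.trans (Pr_mono fun ω hω => ?_)
      exact fun hv => hω (VCross.mono hv le_rfl (by omega) le_rfl hn le_rfl)
    have hH : c₀ ≤ Pr q {ω | ¬ VCross ω ((3 + 3 * j) * n) ((7 + 3 * j) * n) 0 n} := by
      have h1 := Pr_novcross_translate (p := q) (a := 0) (b := 4 * (n : ℤ)) (c := 0) (d := (n : ℤ))
        ((3 + 3 * j) * n) 0
      have e1 : (0 : ℤ) + (3 + 3 * j) * n = (3 + 3 * j) * n := by ring
      have e2 : 4 * (n : ℤ) + (3 + 3 * j) * n = (7 + 3 * j) * n := by ring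
      rw [e1, e2, add_zero, add_zero] at h1
      rw [h1]
      exact h
    have f1 := fkg_decr (p := q) (localOn_novcross 0 ((4 + 3 * (j : ℤ)) * n) 0 n)
      (localOn_nohcross ((3 + 3 * (j : ℤ)) * n) ((4 + 3 * (j : ℤ)) * n) 0 n)
      (decr_novcross _ _ _ _) (decr_nohcross _ _ _ _)
    have f2 := fkg_decr (p := q) ((localOn_novcross 0 ((4 + 3 * (j : ℤ)) * n) 0 n).inter'
      (localOn_nohcross ((3 + 3 * (j : ℤ)) * n) ((4 + 3 * (j : ℤ)) * n) 0 n))
      (localOn_novcross ((3 + 3 * (j : ℤ)) * n) ((7 + 3 * (j : ℤ)) * n) 0 n)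
      (by
        rw [Set.compl_inter]
        exact Incr.union (decr_novcross _ _ _ _) (decr_nohcross _ _ _ _)) (decr_novcross _ _ _ _)
    have e : c₀ ^ (2 * (j + 1) + 1) = c₀ ^ (2 * j + 1) * c₀ * c₀ := by ring
    rw [e]
    have g1 := (mul_le_mul ih hV hc Pr_nonneg).trans f1
    have g2 := (mul_le_mul g1 hH hc Pr_nonneg).trans f2
    refine g2.trans (Pr_mono ?_)
    rintro ω ⟨⟨w1, w2⟩, w3⟩
    have := novcross_glue (by nlinarith) (by nlinarith) (by nlinarith) w1 w2 w3
    show ¬ VCross ω 0 ((4 + 3 * ((j + 1 : ℕ) : ℤ)) * n) 0 n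
    have e : (4 + 3 * ((j + 1 : ℕ) : ℤ)) * n = (7 + 3 * (j : ℤ)) * n := by push_cast; ring
    rw [e]
    exact this

/-- Crossings of all rectangles of aspect ratio at most `K` and height at most `K n`. -/
theorem rect_lower (c : ℝ) (hc : 0 < c) (K : ℕ) : ∃ c' : ℝ, 0 < c' ∧ ∀ (n : ℕ) (q : I), 1 ≤ n →
    RSWreg c n q → ∀ a b y z : ℤ, a ≤ b → y < z → b - a ≤ K * (z - y) → z - y ≤ K * n →
      c' ≤ Pr q {ω | HCross ω a b y z} ∧ c' ≤ Pr q {ω | VCross ω y z a b} := by
  refine ⟨c ^ (2 * (K * K) + 1), pow_pos hc _, ?_⟩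
  intro n q hn hreg a b y z hab hyz h1 h2
  have key : c ^ (2 * (K * K) + 1) ≤ Pr q {ω | HCross ω a b y z} := by
    obtain ⟨h, hh⟩ : ∃ h : ℕ, (h : ℤ) = z - y := ⟨(z - y).toNat, Int.toNat_of_nonneg (by omega)⟩
    have hh1 : 1 ≤ h := by omega
    have hK : h ≤ K * n := by
      have : (h : ℤ) ≤ ((K * n : ℕ) : ℤ) := by push_cast; rw [hh]; exact h2
      exact_mod_cast this
    have hK1 : 1 ≤ K := by
      rcases Nat.eq_zero_or_pos K with h0 | h0
      · rw [h0, zero_mul] at hK
        omega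
      · exact h0
    set m : ℕ := min h n with hm
    have hm1 : 1 ≤ m := le_min hh1 hn
    have hmh : m ≤ h := min_le_left _ _
    have hmn : m ≤ n := min_le_right _ _
    have hhm : h ≤ K * m := by
      rcases min_choice h n with h3 | h3
      · rw [hm, h3]; exact Nat.le_mul_of_pos_left _ hK1
      · rw [hm, h3]; exact hK
    have hlen : b - a ≤ ((4 + 3 * (K * K) : ℕ) : ℤ) * m := by
      have e1 : b - a ≤ K * (h : ℤ) := by rw [hh]; exact h1
      have e2 : (h : ℤ) ≤ K * (m : ℤ) := by exact_mod_cast hhm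
      have e3 : (K : ℤ) * h ≤ K * (K * m) := mul_le_mul_of_nonneg_left e2 (by positivity)
      have e4 : (0 : ℤ) ≤ (K : ℤ) * K * m := by positivity
      have e5 : (0 : ℤ) ≤ (m : ℤ) := by positivity
      push_cast
      nlinarith
    have hl := long_rsw (q := q) (n := m) hc.le (hreg m hm1 hmn).1 (K * K)
    have ht := Pr_hcross_translate (p := q) (a := 0) (b := (4 + 3 * ((K * K : ℕ) : ℤ)) * m) (c := 0)
      (d := (m : ℤ)) a y
    have e0 : (0 : ℤ) + a = a := zero_add a
    have e0' : (0 : ℤ) + y = y := zero_add y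
    rw [e0, e0'] at ht
    refine hl.trans ?_
    rw [← ht]
    refine Pr_mono fun ω hω => ?_
    have hlen' : b ≤ (4 + 3 * ((K * K : ℕ) : ℤ)) * m + a := by
      push_cast at hlen ⊢
      linarith
    have hz : (m : ℤ) + y ≤ z := by
      have : (m : ℤ) ≤ h := by exact_mod_cast hmh
      linarith
    exact HCross.mono hω le_rfl hab hlen' le_rfl hz
  refine ⟨key, ?_⟩
  rw [Pr_vcross_eq_hcross]
  exact key

/-- Absence of crossings in the short direction, for all rectangles of aspect ratio at most `K` and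
height at most `K n`. -/
theorem rect_closed (c : ℝ) (hc : 0 < c) (K : ℕ) : ∃ c' : ℝ, 0 < c' ∧ ∀ (n : ℕ) (q : I), 1 ≤ n →
    RSWreg c n q → ∀ a b y z : ℤ, a ≤ b → y < z → b - a ≤ K * (z - y) → z - y ≤ K * n →
      c' ≤ Pr q {ω | ¬ VCross ω a b y z} ∧ c' ≤ Pr q {ω | ¬ HCross ω y z a b} := by
  refine ⟨c ^ (2 * (K * K) + 1), pow_pos hc _, ?_⟩
  intro n q hn hreg a b y z hab hyz h1 h2
  have key : c ^ (2 * (K * K) + 1) ≤ Pr q {ω | ¬ VCross ω a b y z} := by
    obtain ⟨h, hh⟩ : ∃ h : ℕ, (h : ℤ) = z - y := ⟨(z - y).toNat, Int.toNat_of_nonneg (by omega)⟩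
    have hh1 : 1 ≤ h := by omega
    have hK : h ≤ K * n := by
      have : (h : ℤ) ≤ ((K * n : ℕ) : ℤ) := by push_cast; rw [hh]; exact h2
      exact_mod_cast this
    have hK1 : 1 ≤ K := by
      rcases Nat.eq_zero_or_pos K with h0 | h0
      · rw [h0, zero_mul] at hK
        omega
      · exact h0
    set m : ℕ := min h n with hm
    have hm1 : 1 ≤ m := le_min hh1 hn
    have hmh : m ≤ h := min_le_left _ _
    have hmn : m ≤ n := min_le_right _ _
    have hhm : h ≤ K * m := by
      rcases min_choice h n with h3 | h3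
      · rw [hm, h3]; exact Nat.le_mul_of_pos_left _ hK1
      · rw [hm, h3]; exact hK
    have hlen : b - a ≤ ((4 + 3 * (K * K) : ℕ) : ℤ) * m := by
      have e1 : b - a ≤ K * (h : ℤ) := by rw [hh]; exact h1
      have e2 : (h : ℤ) ≤ K * (m : ℤ) := by exact_mod_cast hhm
      have e3 : (K : ℤ) * h ≤ K * (K * m) := mul_le_mul_of_nonneg_left e2 (by positivity)
      have e4 : (0 : ℤ) ≤ (K : ℤ) * K * m := by positivity
      have e5 : (0 : ℤ) ≤ (m : ℤ) := by positivity
      push_cast
      nlinarith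
    have hl := long_closed (q := q) (n := m) hc.le (hreg m hm1 hmn).2 (K * K)
    have ht := Pr_novcross_translate (p := q) (a := 0) (b := (4 + 3 * ((K * K : ℕ) : ℤ)) * m) (c := 0)
      (d := (m : ℤ)) a y
    have e0 : (0 : ℤ) + a = a := zero_add a
    have e0' : (0 : ℤ) + y = y := zero_add y
    rw [e0, e0'] at ht
    refine hl.trans ?_
    rw [← ht]
    refine Pr_mono fun ω hω => ?_
    have hlen' : b ≤ (4 + 3 * ((K * K : ℕ) : ℤ)) * m + a := by
      push_cast at hlen ⊢
      linarith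
    have hz : (m : ℤ) + y ≤ z := by
      have : (m : ℤ) ≤ h := by exact_mod_cast hmh
      linarith
    exact fun hv => hω (VCross.mono hv le_rfl hlen' le_rfl (by omega) hz)
  refine ⟨key, ?_⟩
  rw [← Pr_novcross_eq]
  exact key

end Pool.Agent.H83.SK

end

section

/-!
# RSW regime: probability of open circuits
-/

open MeasureTheory ProbabilityTheory unitInterval

namespace Pool.Agent.H83.SK

open Pool.Agent.H29.Sep

open Pool.Agent.H89.Perc

theorem circ_lower (c : ℝ) (hc : 0 < c) (K : ℕ) : ∃ c' : ℝ, 0 < c' ∧ ∀ (n : ℕ) (q : I), 1 ≤ n →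
    RSWreg c n q → ∀ (v : Vert) (s : ℕ), 1 ≤ s → s ≤ K * n → c' ≤ Pr q (Circ v s) := by
  classical
  obtain ⟨c1, hc1, h⟩ := rect_lower c hc (6 * K + 8)
  refine ⟨c1 * (c1 * (c1 * c1)), by positivity, fun n q hn hq v s hs hsK => ?_⟩
  have hs' : (1 : ℤ) ≤ s := by exact_mod_cast hs
  have hsK' : (s : ℤ) ≤ K * n := by exact_mod_cast hsK
  have hn' : (1 : ℤ) ≤ n := by exact_mod_cast hn
  have hK0 : (0 : ℤ) ≤ K := Int.natCast_nonneg K
  have e1 : (6 * s : ℤ) ≤ ((6 * K + 8 : ℕ) : ℤ) * (2 * s - 1) := by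
    push_cast
    nlinarith
  have e2 : (2 * s - 1 : ℤ) ≤ ((6 * K + 8 : ℕ) : ℤ) * n := by
    push_cast
    nlinarith
  have hT := (h n q hn hq (v.1 - 3 * s) (v.1 + 3 * s) (v.2 + s + 1) (v.2 + 3 * s) (by omega)
    (by omega) (by
      have : v.1 + 3 * (s : ℤ) - (v.1 - 3 * s) = 6 * s := by ring
      have h2 : v.2 + 3 * (s : ℤ) - (v.2 + s + 1) = 2 * s - 1 := by ring
      rw [this, h2]
      exact e1) (by
      have h2 : v.2 + 3 * (s : ℤ) - (v.2 + s + 1) = 2 * s - 1 := by ring
      rw [h2]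
      exact e2)).1
  have hB := (h n q hn hq (v.1 - 3 * s) (v.1 + 3 * s) (v.2 - 3 * s) (v.2 - s - 1) (by omega)
    (by omega) (by
      have : v.1 + 3 * (s : ℤ) - (v.1 - 3 * s) = 6 * s := by ring
      have h2 : v.2 - (s : ℤ) - 1 - (v.2 - 3 * s) = 2 * s - 1 := by ring
      rw [this, h2]
      exact e1) (by
      have h2 : v.2 - (s : ℤ) - 1 - (v.2 - 3 * s) = 2 * s - 1 := by ring
      rw [h2]
      exact e2)).1
  have hR := (h n q hn hq (v.2 - 3 * s) (v.2 + 3 * s) (v.1 + s + 1) (v.1 + 3 * s) (by omega)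
    (by omega) (by
      have : v.2 + 3 * (s : ℤ) - (v.2 - 3 * s) = 6 * s := by ring
      have h2 : v.1 + 3 * (s : ℤ) - (v.1 + s + 1) = 2 * s - 1 := by ring
      rw [this, h2]
      exact e1) (by
      have h2 : v.1 + 3 * (s : ℤ) - (v.1 + s + 1) = 2 * s - 1 := by ring
      rw [h2]
      exact e2)).2
  have hL := (h n q hn hq (v.2 - 3 * s) (v.2 + 3 * s) (v.1 - 3 * s) (v.1 - s - 1) (by omega)
    (by omega) (by
      have : v.2 + 3 * (s : ℤ) - (v.2 - 3 * s) = 6 * s := by ring
      have h2 : v.1 - (s : ℤ) - 1 - (v.1 - 3 * s) = 2 * s - 1 := by ring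
      rw [this, h2]
      exact e1) (by
      have h2 : v.1 - (s : ℤ) - 1 - (v.1 - 3 * s) = 2 * s - 1 := by ring
      rw [h2]
      exact e2)).2
  set AT : Set Config := {ω | HCross ω (v.1 - 3 * s) (v.1 + 3 * s) (v.2 + s + 1) (v.2 + 3 * s)}
    with hAT
  set AB : Set Config := {ω | HCross ω (v.1 - 3 * s) (v.1 + 3 * s) (v.2 - 3 * s) (v.2 - s - 1)}
    with hAB
  set AR : Set Config := {ω | VCross ω (v.1 + s + 1) (v.1 + 3 * s) (v.2 - 3 * s) (v.2 + 3 * s)}
    with hAR
  set AL : Set Config := {ω | VCross ω (v.1 - 3 * s) (v.1 - s - 1) (v.2 - 3 * s) (v.2 + 3 * s)}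
    with hAL
  have hEq : Circ v s = AT ∩ (AB ∩ (AR ∩ AL)) := by
    ext ω
    rfl
  have lT := localOn_hcross (v.1 - 3 * s) (v.1 + 3 * s) (v.2 + s + 1) (v.2 + 3 * s)
  have lB := localOn_hcross (v.1 - 3 * s) (v.1 + 3 * s) (v.2 - 3 * s) (v.2 - s - 1)
  have lR := localOn_vcross (v.1 + s + 1) (v.1 + 3 * s) (v.2 - 3 * s) (v.2 + 3 * s)
  have lL := localOn_vcross (v.1 - 3 * s) (v.1 - s - 1) (v.2 - 3 * s) (v.2 + 3 * s)
  have iT := incr_hcross (v.1 - 3 * s) (v.1 + 3 * s) (v.2 + s + 1) (v.2 + 3 * s)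
  have iB := incr_hcross (v.1 - 3 * s) (v.1 + 3 * s) (v.2 - 3 * s) (v.2 - s - 1)
  have iR := incr_vcross (v.1 + s + 1) (v.1 + 3 * s) (v.2 - 3 * s) (v.2 + 3 * s)
  have iL := incr_vcross (v.1 - 3 * s) (v.1 - s - 1) (v.2 - 3 * s) (v.2 + 3 * s)
  have f1 : Pr q AR * Pr q AL ≤ Pr q (AR ∩ AL) := fkg lR lL iR iL
  have f2 : Pr q AB * Pr q (AR ∩ AL) ≤ Pr q (AB ∩ (AR ∩ AL)) :=
    fkg lB (lR.inter' lL) iB (iR.inter iL)
  have f3 : Pr q AT * Pr q (AB ∩ (AR ∩ AL)) ≤ Pr q (AT ∩ (AB ∩ (AR ∩ AL))) :=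
    fkg lT (lB.inter' (lR.inter' lL)) iT (iB.inter (iR.inter iL))
  rw [hEq]
  have g1 : c1 * c1 ≤ Pr q (AR ∩ AL) := (mul_le_mul hR hL hc1.le Pr_nonneg).trans f1
  have g2 : c1 * (c1 * c1) ≤ Pr q (AB ∩ (AR ∩ AL)) :=
    (mul_le_mul hB g1 (by positivity) Pr_nonneg).trans f2
  exact (mul_le_mul hT g2 (by positivity) Pr_nonneg).trans f3

end Pool.Agent.H83.SK

end

section

/-!
# Level-one inequality for block explorations
-/

set_option autoImplicit false

open MeasureTheory ProbabilityTheory unitInterval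

namespace Pool.Agent.H13.SK

open Pool.Agent.H89.Perc Pool.Agent.H85.Kes
open Pool.Agent.Perc (Ex ind ind_of ind_of_not)

variable {κ : Type*} [DecidableEq κ] {s : Finset Edge} {β : Edge → κ} {R : BRule κ}

/-- The edges of the blocks outside `D`. -/
def fr (s : Finset Edge) (β : Edge → κ) (D : Finset κ) : Finset Edge :=
  s.filter (fun e => β e ∉ D)

theorem mem_fr {D : Finset κ} {e : Edge} : e ∈ fr s β D ↔ e ∈ s ∧ β e ∉ D := by
  rw [fr, Finset.mem_filter]

theorem blk_subset_fr {D : Finset κ} {b : κ} (hb : b ∉ D) : blk s β b ⊆ fr s β D := by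
  intro e he
  rw [mem_blk] at he
  rw [mem_fr]
  exact ⟨he.1, by rw [he.2]; exact hb⟩

theorem disj_blk_fr (D : Finset κ) (b : κ) : Disjoint (blk s β b) (fr s β (insert b D)) := by
  rw [Finset.disjoint_left]
  intro e he he'
  rw [mem_blk] at he
  rw [mem_fr, Finset.mem_insert, not_or] at he'
  exact he'.2.1 he.2

theorem blk_union_fr {D : Finset κ} {b : κ} (hb : b ∉ D) :
    blk s β b ∪ fr s β (insert b D) = fr s β D := by
  ext e
  rw [Finset.mem_union, mem_blk, mem_fr, mem_fr, Finset.mem_insert]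
  constructor
  · rintro (h | h)
    · exact ⟨h.1, by rw [h.2]; exact hb⟩
    · exact ⟨h.1, fun h' => h.2 (Or.inr h')⟩
  · rintro ⟨h1, h2⟩
    by_cases h : β e = b
    · exact Or.inl ⟨h1, h⟩
    · exact Or.inr ⟨h1, fun h' => h'.elim h h2⟩

theorem fr_insert_subset (D : Finset κ) (b : κ) : fr s β (insert b D) ⊆ fr s β D := by
  intro e he
  rw [mem_fr, Finset.mem_insert, not_or] at he
  rw [mem_fr]
  exact ⟨he.1, he.2.2⟩

/-- The revealed blocks when the unrevealed open edges are `S`. -/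
def JJ (s : Finset Edge) (β : Edge → κ) (R : BRule κ) (n : ℕ) (D : Finset κ) (O S : Finset Edge) :
    Finset κ := bFrom s β R (ofS (O ∪ S)) n (D, O)

theorem JJ_step {n : ℕ} {D : Finset κ} {O : Finset Edge} {b : κ} (hNe : R D O = some b)
    (hb : b ∉ D) (hO : ∀ e ∈ O, β e ∈ D) {T S : Finset Edge} (hT : T ⊆ blk s β b)
    (hS : S ⊆ fr s β (insert b D)) :
    JJ s β R (n + 1) D O (T ∪ S) = JJ s β R n (insert b D) (O ∪ T) S := by
  unfold JJ
  rw [bFrom_succ, bStep_some (x := (D, O)) hNe, ← Finset.union_assoc]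
  congr 2
  congr 1
  ext e
  rw [Finset.mem_filter, ofS_eq_true, Finset.mem_union, Finset.mem_union]
  constructor
  · rintro ⟨h1, (h2 | h2) | h2⟩
    · exfalso
      have h3 := hO e h2
      rw [mem_blk] at h1
      rw [h1.2] at h3
      exact hb h3
    · exact h2
    · exact absurd (hS h2) (Finset.disjoint_left.1 (disj_blk_fr D b) h1)
  · intro h
    exact ⟨hT h, Or.inl (Or.inr h)⟩

/-- The sum of the test functions of the revealed blocks. -/
noncomputable def XX (s : Finset Edge) (β : Edge → κ) (R : BRule κ) (T : Finset κ)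
    (g : κ → Finset Edge → ℝ) (n : ℕ) (D : Finset κ) (O S : Finset Edge) : ℝ :=
  ∑ b ∈ T \ D, if b ∈ JJ s β R n D O S then g b S else 0

variable {T : Finset κ} {g : κ → Finset Edge → ℝ}

theorem sdiff_insert_sum {D : Finset κ} {b : κ} (hb : b ∉ D) (h : κ → ℝ) :
    ∑ x ∈ T \ D, h x = (if b ∈ T then h b else 0) + ∑ x ∈ T \ insert b D, h x := by
  by_cases hT : b ∈ T
  · rw [if_pos hT]
    have h1 : T \ D = insert b (T \ insert b D) := by
      ext x
      simp only [Finset.mem_sdiff, Finset.mem_insert, not_or]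
      constructor
      · rintro ⟨h1, h2⟩
        by_cases hx : x = b
        · exact Or.inl hx
        · exact Or.inr ⟨h1, hx, h2⟩
      · rintro (rfl | ⟨h1, -, h2⟩)
        · exact ⟨hT, hb⟩
        · exact ⟨h1, h2⟩
    rw [h1, Finset.sum_insert (by simp)]
  · rw [if_neg hT, zero_add]
    refine Finset.sum_congr ?_ fun _ _ => rfl
    ext x
    simp only [Finset.mem_sdiff, Finset.mem_insert, not_or]
    constructor
    · rintro ⟨h1, h2⟩
      exact ⟨h1, fun hx => hT (hx ▸ h1), h2⟩
    · rintro ⟨h1, -, h2⟩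
      exact ⟨h1, h2⟩

/-- Locality of the test functions. -/
def LocG (s : Finset Edge) (β : Edge → κ) (T : Finset κ) (g : κ → Finset Edge → ℝ) : Prop :=
  ∀ b ∈ T, ∀ S : Finset Edge, g b S = g b (S ∩ blk s β b)

theorem LocG.own (hg : LocG s β T g) {D : Finset κ} {b : κ} (hb : b ∈ T) {T' S : Finset Edge}
    (hT : T' ⊆ blk s β b) (hS : S ⊆ fr s β (insert b D)) : g b (T' ∪ S) = g b T' := by
  rw [hg b hb (T' ∪ S), hg b hb T']
  congr 1
  ext e
  simp only [Finset.mem_inter, Finset.mem_union]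
  constructor
  · rintro ⟨h1 | h1, h2⟩
    · exact ⟨h1, h2⟩
    · exact absurd (hS h1) (Finset.disjoint_left.1 (disj_blk_fr D b) h2)
  · rintro ⟨h1, h2⟩
    exact ⟨Or.inl h1, h2⟩

theorem LocG.other (hg : LocG s β T g) {b x : κ} (hx : x ∈ T) (hxb : x ≠ b)
    {T' S : Finset Edge} (hT : T' ⊆ blk s β b) : g x (T' ∪ S) = g x S := by
  rw [hg x hx (T' ∪ S), hg x hx S]
  congr 1
  ext e
  simp only [Finset.mem_inter, Finset.mem_union]
  constructor
  · rintro ⟨h1 | h1, h2⟩
    · have h3 := hT h1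
      rw [mem_blk] at h2 h3
      exact absurd (h2.2.symm.trans h3.2) hxb
    · exact ⟨h1, h2⟩
  · rintro ⟨h1, h2⟩
    exact ⟨Or.inr h1, h2⟩

theorem XX_step (hg : LocG s β T g) {n : ℕ} {D : Finset κ} {O : Finset Edge} {b : κ}
    (hNe : R D O = some b) (hb : b ∉ D) (hO : ∀ e ∈ O, β e ∈ D) {T' S : Finset Edge}
    (hT : T' ⊆ blk s β b) (hS : S ⊆ fr s β (insert b D)) :
    XX s β R T g (n + 1) D O (T' ∪ S) =
      (if b ∈ T then g b T' else 0) + XX s β R T g n (insert b D) (O ∪ T') S := by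
  unfold XX
  rw [sdiff_insert_sum hb, JJ_step hNe hb hO hT hS]
  have h1 : b ∈ JJ s β R n (insert b D) (O ∪ T') S :=
    subset_bFrom _ _ _ (Finset.mem_insert_self b D)
  congr 1
  · by_cases hbT : b ∈ T
    · rw [if_pos hbT, if_pos hbT, if_pos h1, hg.own hbT hT hS]
    · rw [if_neg hbT, if_neg hbT]
  · refine Finset.sum_congr rfl fun x hx => ?_
    rw [Finset.mem_sdiff, Finset.mem_insert, not_or] at hx
    rw [hg.other hx.1 hx.2.1 hT]

theorem Ex_fr {p : ℝ} {D : Finset κ} {b : κ} (hb : b ∉ D) (h : Finset Edge → ℝ) :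
    Ex p (fr s β D) h =
      Ex p (blk s β b) (fun T' => Ex p (fr s β (insert b D)) (fun S => h (T' ∪ S))) := by
  rw [← Pool.Agent.Perc.Ex_union (disj_blk_fr D b), blk_union_fr hb]

theorem card_step {K D : Finset κ} {b : κ} {n : ℕ} (hbK : b ∈ K) (hbD : b ∉ D)
    (hD : (K \ D).card ≤ n + 1) : (K \ insert b D).card ≤ n := by
  have h1 : K \ insert b D = (K \ D).erase b := by
    ext x
    simp only [Finset.mem_sdiff, Finset.mem_insert, Finset.mem_erase, not_or]
    tauto
  rw [h1, Finset.card_erase_of_mem (Finset.mem_sdiff.2 ⟨hbK, hbD⟩)]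
  omega

theorem O_step {D : Finset κ} {O T' : Finset Edge} {b : κ} (hO : ∀ e ∈ O, β e ∈ D)
    (hT : T' ⊆ blk s β b) : ∀ e ∈ O ∪ T', β e ∈ insert b D := by
  intro e he
  rcases Finset.mem_union.1 he with h | h
  · exact Finset.mem_insert_of_mem (hO e h)
  · have := hT h
    rw [mem_blk] at this
    rw [this.2]
    exact Finset.mem_insert_self _ _

theorem XX_none {n : ℕ} {D : Finset κ} {O S : Finset Edge} (h : R D O = none) :
    XX s β R T g n D O S = 0 := by
  unfold XX
  refine Finset.sum_eq_zero fun b hb => ?_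
  rw [if_neg]
  unfold JJ
  rw [bFrom_none (x := (D, O)) h]
  exact (Finset.mem_sdiff.1 hb).2

/-- Mean value. -/
theorem XX_mean {p : ℝ} {K : Finset κ} (hR : ∀ D O b, R D O = some b → b ∈ K ∧ b ∉ D)
    (hTK : T ⊆ K) (hg : LocG s β T g) (hmean : ∀ b ∈ T, Ex p (blk s β b) (g b) = 0) (n : ℕ) :
    ∀ (D : Finset κ) (O : Finset Edge), (K \ D).card ≤ n → (∀ e ∈ O, β e ∈ D) →
      Ex p (fr s β D) (fun S => XX s β R T g n D O S) = 0 := by
  induction n with
  | zero =>
    intro D O hD _
    have hKD : K \ D = ∅ := Finset.card_eq_zero.1 (Nat.le_zero.1 hD)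
    have hTD : T \ D = ∅ := by
      rw [Finset.sdiff_eq_empty_iff_subset] at hKD ⊢
      exact hTK.trans hKD
    unfold XX
    simp [hTD]
  | succ n ih =>
    intro D O hD hO
    rcases hNe : R D O with _ | b
    · simp [XX_none hNe]
    · obtain ⟨hbK, hbD⟩ := hR D O b hNe
      rw [Ex_fr hbD]
      have h1 : ∀ T', T' ⊆ blk s β b →
          Ex p (fr s β (insert b D)) (fun S => XX s β R T g (n + 1) D O (T' ∪ S)) =
            if b ∈ T then g b T' else 0 := by
        intro T' hT'
        rw [Pool.Agent.Perc.Ex_congr fun S hS => XX_step hg hNe hbD hO hT' hS,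
          Pool.Agent.Perc.Ex_add, Pool.Agent.Perc.Ex_const,
          ih (insert b D) (O ∪ T') (card_step hbK hbD hD) (O_step hO hT'), add_zero]
      rw [Pool.Agent.Perc.Ex_congr h1]
      by_cases hbT : b ∈ T
      · simp only [if_pos hbT]
        exact hmean b hbT
      · simp [hbT]

/-- Second moment. -/
theorem XX_sq {p : ℝ} {K : Finset κ} (hR : ∀ D O b, R D O = some b → b ∈ K ∧ b ∉ D)
    (hTK : T ⊆ K) (hg : LocG s β T g) (hmean : ∀ b ∈ T, Ex p (blk s β b) (g b) = 0) (n : ℕ) :
    ∀ (D : Finset κ) (O : Finset Edge), (K \ D).card ≤ n → (∀ e ∈ O, β e ∈ D) →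
      Ex p (fr s β D) (fun S => XX s β R T g n D O S ^ 2) =
        ∑ b ∈ T \ D, Ex p (blk s β b) (fun S => g b S ^ 2) *
          Ex p (fr s β D) (ind fun S => b ∈ JJ s β R n D O S) := by
  induction n with
  | zero =>
    intro D O hD _
    have hKD : K \ D = ∅ := Finset.card_eq_zero.1 (Nat.le_zero.1 hD)
    have hTD : T \ D = ∅ := by
      rw [Finset.sdiff_eq_empty_iff_subset] at hKD ⊢
      exact hTK.trans hKD
    unfold XX
    simp [hTD]
  | succ n ih =>
    intro D O hD hO
    rcases hNe : R D O with _ | b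
    · simp only [XX_none hNe]
      rw [Finset.sum_eq_zero]
      · simp
      · intro b hb
        have : ∀ S, S ⊆ fr s β D → ind (fun S => b ∈ JJ s β R (n + 1) D O S) S = 0 := by
          intro S _
          apply ind_of_not
          unfold JJ
          rw [bFrom_none (x := (D, O)) hNe]
          exact (Finset.mem_sdiff.1 hb).2
        rw [Pool.Agent.Perc.Ex_congr this]
        simp
    · obtain ⟨hbK, hbD⟩ := hR D O b hNe
      have hc := card_step hbK hbD hD
      rw [Ex_fr hbD]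
      have h1 : ∀ T', T' ⊆ blk s β b →
          Ex p (fr s β (insert b D)) (fun S => XX s β R T g (n + 1) D O (T' ∪ S) ^ 2) =
            (if b ∈ T then g b T' ^ 2 else 0) +
            ∑ x ∈ T \ insert b D, Ex p (blk s β x) (fun S => g x S ^ 2) *
              Ex p (fr s β (insert b D)) (ind fun S => x ∈ JJ s β R n (insert b D) (O ∪ T') S) := by
        intro T' hT'
        rw [← ih (insert b D) (O ∪ T') hc (O_step hO hT')]
        have h2 : ∀ S, S ⊆ fr s β (insert b D) → XX s β R T g (n + 1) D O (T' ∪ S) ^ 2 =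
            (if b ∈ T then g b T' ^ 2 else 0) +
              (2 * (if b ∈ T then g b T' else 0) * XX s β R T g n (insert b D) (O ∪ T') S +
              XX s β R T g n (insert b D) (O ∪ T') S ^ 2) := by
          intro S hS
          rw [XX_step hg hNe hbD hO hT' hS]
          split_ifs <;> ring
        rw [Pool.Agent.Perc.Ex_congr h2, Pool.Agent.Perc.Ex_add, Pool.Agent.Perc.Ex_const,
          Pool.Agent.Perc.Ex_add, Pool.Agent.Perc.Ex_const_mul,
          XX_mean hR hTK hg hmean n (insert b D) (O ∪ T') hc (O_step hO hT'), mul_zero, zero_add]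
      rw [Pool.Agent.Perc.Ex_congr h1, Pool.Agent.Perc.Ex_add, Pool.Agent.Perc.Ex_sum,
        sdiff_insert_sum hbD]
      congr 1
      · by_cases hbT : b ∈ T
        · simp only [if_pos hbT]
          have : ∀ S, S ⊆ fr s β D → ind (fun S => b ∈ JJ s β R (n + 1) D O S) S = 1 := by
            intro S hS
            apply ind_of
            have hS' : S = (S ∩ blk s β b) ∪ (S ∩ fr s β (insert b D)) := by
              rw [← Finset.inter_union_distrib_left, blk_union_fr hbD,
                Finset.inter_eq_left.2 hS]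
            rw [hS', JJ_step hNe hbD hO Finset.inter_subset_right Finset.inter_subset_right]
            exact subset_bFrom _ _ _ (Finset.mem_insert_self b D)
          rw [Pool.Agent.Perc.Ex_congr this, Pool.Agent.Perc.Ex_const, mul_one]
        · simp [hbT]
      · refine Finset.sum_congr rfl fun x hx => ?_
        rw [Pool.Agent.Perc.Ex_const_mul, Ex_fr hbD]
        congr 1
        refine Pool.Agent.Perc.Ex_congr fun T' hT' => ?_
        refine Pool.Agent.Perc.Ex_congr fun S hS => ?_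
        exact Pool.Agent.Perc.ind_congr (by rw [JJ_step hNe hbD hO hT' hS])

/-- The unrevealed blocks do not contribute. -/
theorem XX_proj {p : ℝ} {K : Finset κ} (hK : ∀ e ∈ s, β e ∈ K)
    (hR : ∀ D O b, R D O = some b → b ∈ K ∧ b ∉ D)
    (hTK : T ⊆ K) (hg : LocG s β T g) (hmean : ∀ b ∈ T, Ex p (blk s β b) (g b) = 0) (n : ℕ) :
    ∀ (D : Finset κ) (O : Finset Edge), (K \ D).card ≤ n → (∀ e ∈ O, β e ∈ D) →
      ∀ f : Finset Edge → ℝ,
      (∀ S S', S ⊆ fr s β D → S' ⊆ fr s β D →
        (∀ e ∈ fr s β D, β e ∈ JJ s β R n D O S → (e ∈ S ↔ e ∈ S')) → f S = f S') →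
      Ex p (fr s β D) (fun S => f S * ∑ b ∈ T \ D, g b S) =
        Ex p (fr s β D) (fun S => f S * XX s β R T g n D O S) := by
  induction n with
  | zero =>
    intro D O hD _ f _
    have hKD : K \ D = ∅ := Finset.card_eq_zero.1 (Nat.le_zero.1 hD)
    have hTD : T \ D = ∅ := by
      rw [Finset.sdiff_eq_empty_iff_subset] at hKD ⊢
      exact hTK.trans hKD
    unfold XX
    simp [hTD]
  | succ n ih =>
    intro D O hD hO f hdet
    rcases hNe : R D O with _ | b
    · simp only [XX_none hNe, mul_zero, Pool.Agent.Perc.Ex_const]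
      have hconst : ∀ S, S ⊆ fr s β D → f S = f ∅ := by
        intro S hS
        refine hdet S ∅ hS (Finset.empty_subset _) fun e heF he => ?_
        unfold JJ at he
        rw [bFrom_none (x := (D, O)) hNe] at he
        exact absurd he (mem_fr.1 heF).2
      have h1 : ∀ S, S ⊆ fr s β D → f S * ∑ b ∈ T \ D, g b S = f ∅ * ∑ b ∈ T \ D, g b S := by
        intro S hS
        rw [hconst S hS]
      rw [Pool.Agent.Perc.Ex_congr h1, Pool.Agent.Perc.Ex_const_mul, Pool.Agent.Perc.Ex_sum,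
        Finset.sum_eq_zero, mul_zero]
      intro b hb
      obtain ⟨hbT, hbD⟩ := Finset.mem_sdiff.1 hb
      rw [Pool.Agent.Perc.Ex_restrict (blk_subset_fr hbD) (fun S _ => hg b hbT S)]
      exact hmean b hbT
    · obtain ⟨hbK, hbD⟩ := hR D O b hNe
      have hc := card_step hbK hbD hD
      rw [Ex_fr hbD, Ex_fr hbD]
      refine Pool.Agent.Perc.Ex_congr fun T' hT' => ?_
      have h1 : ∀ S, S ⊆ fr s β (insert b D) → f (T' ∪ S) * ∑ x ∈ T \ D, g x (T' ∪ S) =
          f (T' ∪ S) * (if b ∈ T then g b T' else 0) +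
            f (T' ∪ S) * ∑ x ∈ T \ insert b D, g x S := by
        intro S hS
        rw [sdiff_insert_sum hbD, mul_add]
        congr 2
        · by_cases hbT : b ∈ T
          · rw [if_pos hbT, if_pos hbT, hg.own hbT hT' hS]
          · rw [if_neg hbT, if_neg hbT]
        · refine Finset.sum_congr rfl fun x hx => ?_
          rw [Finset.mem_sdiff, Finset.mem_insert, not_or] at hx
          rw [hg.other hx.1 hx.2.1 hT']
      have h2 : ∀ S, S ⊆ fr s β (insert b D) → f (T' ∪ S) * XX s β R T g (n + 1) D O (T' ∪ S) =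
          f (T' ∪ S) * (if b ∈ T then g b T' else 0) +
            f (T' ∪ S) * XX s β R T g n (insert b D) (O ∪ T') S := by
        intro S hS
        rw [XX_step hg hNe hbD hO hT' hS, mul_add]
      rw [Pool.Agent.Perc.Ex_congr h1, Pool.Agent.Perc.Ex_congr h2, Pool.Agent.Perc.Ex_add,
        Pool.Agent.Perc.Ex_add]
      congr 1
      refine ih (insert b D) (O ∪ T') hc (O_step hO hT') (fun S => f (T' ∪ S)) ?_
      intro S S' hS hS' h
      have hsub : ∀ S, S ⊆ fr s β (insert b D) → T' ∪ S ⊆ fr s β D := fun S hS =>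
        Finset.union_subset (hT'.trans (blk_subset_fr hbD)) (hS.trans (fr_insert_subset D b))
      refine hdet _ _ (hsub S hS) (hsub S' hS') fun e heF he => ?_
      rw [JJ_step hNe hbD hO hT' hS] at he
      rw [Finset.mem_union, Finset.mem_union]
      by_cases heB : e ∈ blk s β b
      · have h1 : e ∉ S := fun h' => Finset.disjoint_left.1 (disj_blk_fr D b) heB (hS h')
        have h2 : e ∉ S' := fun h' => Finset.disjoint_left.1 (disj_blk_fr D b) heB (hS' h')
        tauto
      · have heF' : e ∈ fr s β (insert b D) := by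
          rw [← blk_union_fr hbD, Finset.mem_union] at heF
          exact heF.resolve_left heB
        have := h e heF' he
        tauto

/-- **Level-one inequality** for a function determined by a block exploration. -/
theorem block_l1 {p : ℝ} (hp0 : 0 ≤ p) (hp1 : p ≤ 1) {K : Finset κ} (hK : ∀ e ∈ s, β e ∈ K)
    (hR : ∀ D O b, R D O = some b → b ∈ K ∧ b ∉ D)
    (hTK : T ⊆ K) (hg : LocG s β T g) (hmean : ∀ b ∈ T, Ex p (blk s β b) (g b) = 0)
    {f : Finset Edge → ℝ}
    (hdet : ∀ S S', S ⊆ s → S' ⊆ s →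
      (∀ e ∈ s, β e ∈ revealed s β R (ofS S) K.card → (e ∈ S ↔ e ∈ S')) → f S = f S') :
    (∑ b ∈ T, Ex p s (fun S => f S * g b S)) ^ 2 ≤
      Ex p s (fun S => f S ^ 2) * ∑ b ∈ T, Ex p (blk s β b) (fun S => g b S ^ 2) *
        Ex p s (ind fun S => b ∈ revealed s β R (ofS S) K.card) := by
  have hfr : fr s β ∅ = s := by
    ext e
    rw [mem_fr]
    simp
  have hJ : ∀ S, JJ s β R K.card ∅ ∅ S = revealed s β R (ofS S) K.card := by
    intro S
    unfold JJ revealed
    rw [Finset.empty_union]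
  have h1 := XX_proj (p := p) (R := R) hK hR hTK hg hmean K.card ∅ ∅ (by simp) (by simp) f (by
    intro S S' hS hS' h
    rw [hfr] at hS hS' h
    exact hdet S S' hS hS' fun e he h' => h e he (by rw [hJ]; exact h'))
  have h2 := XX_sq (p := p) (R := R) hR hTK hg hmean K.card ∅ ∅ (by simp) (by simp)
  rw [hfr, Finset.sdiff_empty] at h1 h2
  have h3 : ∑ b ∈ T, Ex p s (fun S => f S * g b S) = Ex p s (fun S => f S * ∑ b ∈ T, g b S) := by
    rw [← Pool.Agent.Perc.Ex_sum]
    exact Pool.Agent.Perc.Ex_congr fun S _ => by rw [Finset.mul_sum]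
  rw [h3, h1]
  refine (Pool.Agent.Perc.Ex_mul_sq_le hp0 hp1 s f _).trans ?_
  rw [h2]
  simp only [hJ]
  exact le_rfl

end Pool.Agent.H13.SK

end

section

/-!
# Level-one inequality for block explorations: events
-/

set_option autoImplicit false

open MeasureTheory ProbabilityTheory unitInterval

namespace Pool.Agent.H13.SK

open Pool.Agent.H89.Perc Pool.Agent.H85.Kes
open Pool.Agent.Perc (Ex ind ind_of ind_of_not)

variable {κ : Type*} [DecidableEq κ] {s : Finset Edge} {β : Edge → κ} {R : BRule κ}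

/-- If the increasing event `O` makes the block `B` effectively open and the decreasing event `C`
makes it effectively closed, then the difference of the conditional probabilities of `A` is at
least the probability that `B` is pivotal. -/
theorem piv_le_diff {A O C : Set Config} {t t' : Finset Edge} (hA : LocalOn s A) (iA : Incr A)
    (hO : LocalOn t O) (iO : Incr O) (hC : LocalOn t' C) (iC : Incr Cᶜ) (B : Finset Edge)
    (h1 : ∀ ω ∈ O, setB B true ω ∈ A → ω ∈ A) (h2 : ∀ ω ∈ C, ω ∈ A → setB B false ω ∈ A) (p : I)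
    (pO : 0 < Pr p O) (pC : 0 < Pr p C) :
    Pr p (BPiv B A) ≤ Pr p (A ∩ O) / Pr p O - Pr p (A ∩ C) / Pr p C := by
  set Ap : Set Config := {ω | setB B true ω ∈ A} with hAp
  set Am : Set Config := {ω | setB B false ω ∈ A} with hAm
  have key : ∀ (b : Bool) (ω ω' : Config), (∀ e ∈ s, ω e = ω' e) →
      ∀ e ∈ s, setB B b ω e = setB B b ω' e := by
    intro b ω ω' h e he
    unfold setB
    split_ifs
    · rfl
    · exact h e he
  have lAp : LocalOn s Ap := fun ω ω' h hω => hA _ _ (key true ω ω' h) hω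
  have lAm : LocalOn s Am := fun ω ω' h hω => hA _ _ (key false ω ω' h) hω
  have keyi : ∀ (b : Bool) (ω ω' : Config), (∀ e, ω e = true → ω' e = true) →
      ∀ e, setB B b ω e = true → setB B b ω' e = true := by
    intro b ω ω' h e he
    unfold setB at he ⊢
    split_ifs at he ⊢ with h'
    · exact he
    · exact h e he
  have iAp : Incr Ap := fun ω ω' h hω => iA _ _ (keyi true ω ω' h) hω
  have iAm : Incr Am := fun ω ω' h hω => iA _ _ (keyi false ω ω' h) hω
  have s1 : Ap ∩ O ⊆ A ∩ O := fun ω hω => ⟨h1 ω hω.2 hω.1, hω.2⟩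
  have s2 : A ∩ C ⊆ Am ∩ C := fun ω hω => ⟨h2 ω hω.2 hω.1, hω.2⟩
  have e1 : Pr p Ap * Pr p O ≤ Pr p (A ∩ O) := (fkg lAp hO iAp iO).trans (Pr_mono s1)
  have e2 : Pr p (A ∩ C) ≤ Pr p Am * Pr p C := (Pr_mono s2).trans (fkg_mixed lAm hC iAm iC)
  have e3 : Pr p (BPiv B A) = Pr p Ap - Pr p Am := by
    have hsub : Am ⊆ Ap := fun ω hω => iA _ _ (setB_mono ω) hω
    have h3 : BPiv B A = Ap \ Am := by
      ext ω
      simp only [BPiv, Set.mem_ofPred_eq, Set.mem_sdiff, hAp, hAm]
    rw [h3]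
    unfold Pr
    rw [measureReal_sdiff hsub lAm.measurableSet]
  rw [e3]
  have e4 : Pr p Ap ≤ Pr p (A ∩ O) / Pr p O := by
    rw [le_div_iff₀ pO]; exact e1
  have e5 : Pr p (A ∩ C) / Pr p C ≤ Pr p Am := by
    rw [div_le_iff₀ pC]; exact e2
  linarith

theorem blk_subset_s (b : κ) : blk s β b ⊆ s := fun _ he => (mem_blk.1 he).1

/-- **Level-one inequality for events**: if around each block of `T` the events `O b` and `C b`,
local on the block, make the smaller block `B b` effectively open and closed, then the sum of the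
influences of the blocks `B b` is bounded by the revealments. -/
theorem block_l1_event {A : Set Config} (hA : LocalOn s A) (iA : Incr A) {K T : Finset κ}
    (hK : ∀ e ∈ s, β e ∈ K) (hR : ∀ D O b, R D O = some b → b ∈ K ∧ b ∉ D) (hTK : T ⊆ K)
    (hdet : ∀ ω ω' : Config, (∀ e ∈ s, β e ∈ revealed s β R ω K.card → ω e = ω' e) →
      ω ∈ A → ω' ∈ A)
    (O C : κ → Set Config) (B : κ → Finset Edge)
    (hO : ∀ b ∈ T, LocalOn (blk s β b) (O b)) (iO : ∀ b ∈ T, Incr (O b))
    (hC : ∀ b ∈ T, LocalOn (blk s β b) (C b)) (iC : ∀ b ∈ T, Incr (C b)ᶜ)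
    (h1 : ∀ b ∈ T, ∀ ω ∈ O b, setB (B b) true ω ∈ A → ω ∈ A)
    (h2 : ∀ b ∈ T, ∀ ω ∈ C b, ω ∈ A → setB (B b) false ω ∈ A)
    (p : I) {c : ℝ} (hc : 0 < c) (pO : ∀ b ∈ T, c ≤ Pr p (O b)) (pC : ∀ b ∈ T, c ≤ Pr p (C b)) :
    (∑ b ∈ T, Pr p (BPiv (B b) A)) ^ 2 ≤
      2 / c * ∑ b ∈ T, Pr p {ω | b ∈ revealed s β R ω K.card} := by
  have hp0 := p.2.1
  have hp1 := p.2.2
  set f : Finset Edge → ℝ := ind (fun S => ofS S ∈ A) with hf
  set g : κ → Finset Edge → ℝ := fun b S =>
    ind (fun S => ofS S ∈ O b) S / Pr p (O b) - ind (fun S => ofS S ∈ C b) S / Pr p (C b) with hg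
  have hloc : ∀ (b : κ) (E : Set Config), LocalOn (blk s β b) E → ∀ S : Finset Edge,
      ind (fun S => ofS S ∈ E) S = ind (fun S => ofS S ∈ E) (S ∩ blk s β b) := by
    intro b E hE S
    apply Pool.Agent.Perc.ind_congr
    have h : ∀ e ∈ blk s β b, ofS S e = ofS (S ∩ blk s β b) e := by
      intro e he
      simp [ofS, he]
    exact ⟨fun h' => hE _ _ h h', fun h' => hE _ _ (fun e he => (h e he).symm) h'⟩
  have hLG : LocG s β T g := by
    intro b hb S
    simp only [hg]
    rw [hloc b (O b) (hO b hb) S, hloc b (C b) (hC b hb) S]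
  have hmean : ∀ b ∈ T, Ex (p : ℝ) (blk s β b) (g b) = 0 := by
    intro b hb
    have hO0 : Pr p (O b) ≠ 0 := (lt_of_lt_of_le hc (pO b hb)).ne'
    have hC0 : Pr p (C b) ≠ 0 := (lt_of_lt_of_le hc (pC b hb)).ne'
    simp only [hg, div_eq_mul_inv]
    rw [Pool.Agent.Perc.Ex_sub, Pool.Agent.Perc.Ex_mul_const, Pool.Agent.Perc.Ex_mul_const,
      ← Pr_eq_Ex (hO b hb), ← Pr_eq_Ex (hC b hb), mul_inv_cancel₀ hO0, mul_inv_cancel₀ hC0,
      sub_self]
  have hdet' : ∀ S S', S ⊆ s → S' ⊆ s →
      (∀ e ∈ s, β e ∈ revealed s β R (ofS S) K.card → (e ∈ S ↔ e ∈ S')) → f S = f S' := by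
    intro S S' _ _ h
    apply Pool.Agent.Perc.ind_congr
    have h3 : ∀ e ∈ s, β e ∈ revealed s β R (ofS S) K.card → ofS S e = ofS S' e := by
      intro e he he'
      simp only [ofS, h e he he']
    refine ⟨fun h' => hdet _ _ h3 h', fun h' => hdet _ _ ?_ h'⟩
    intro e he he'
    have h4 : revealed s β R (ofS S') K.card = revealed s β R (ofS S) K.card := by
      unfold revealed
      exact bFrom_congr K.card (∅, ∅) fun e he h'' => h3 e he h''
    rw [h4] at he'
    exact (h3 e he he').symm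
  have main := block_l1 (T := T) (g := g) hp0 hp1 hK hR hTK hLG hmean hdet'
  -- the coefficients
  have hcoef : ∀ b ∈ T, Pr p (BPiv (B b) A) ≤ Ex (p : ℝ) s (fun S => f S * g b S) := by
    intro b hb
    have pO' := lt_of_lt_of_le hc (pO b hb)
    have pC' := lt_of_lt_of_le hc (pC b hb)
    refine (piv_le_diff hA iA (hO b hb) (iO b hb) (hC b hb) (iC b hb) (B b) (h1 b hb) (h2 b hb) p
      pO' pC').trans (le_of_eq ?_)
    have e1 : ∀ E : Set Config, LocalOn (blk s β b) E →
        Pr p (A ∩ E) = Ex (p : ℝ) s (fun S => f S * ind (fun S => ofS S ∈ E) S) := by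
      intro E hE
      rw [Pr_eq_Ex (hA.inter (hE.mono (blk_subset_s b)))]
      refine Pool.Agent.Perc.Ex_congr fun S _ => ?_
      rw [hf, Pool.Agent.Perc.ind_mul]
      exact Pool.Agent.Perc.ind_congr Iff.rfl
    rw [e1 _ (hO b hb), e1 _ (hC b hb)]
    have e2 : ∀ S, S ⊆ s → f S * g b S = f S * ind (fun S => ofS S ∈ O b) S * (Pr p (O b))⁻¹ -
        f S * ind (fun S => ofS S ∈ C b) S * (Pr p (C b))⁻¹ := by
      intro S _
      simp only [hg]
      ring
    rw [Pool.Agent.Perc.Ex_congr e2, Pool.Agent.Perc.Ex_sub, Pool.Agent.Perc.Ex_mul_const,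
      Pool.Agent.Perc.Ex_mul_const, div_eq_mul_inv, div_eq_mul_inv]
  -- the variances
  have hvar : ∀ b ∈ T, Ex (p : ℝ) (blk s β b) (fun S => g b S ^ 2) ≤ 2 / c := by
    intro b hb
    have pO' := lt_of_lt_of_le hc (pO b hb)
    have pC' := lt_of_lt_of_le hc (pC b hb)
    have e1 : ∀ S, S ⊆ blk s β b → g b S ^ 2 ≤
        ind (fun S => ofS S ∈ O b) S * ((Pr p (O b))⁻¹ * (Pr p (O b))⁻¹) +
        ind (fun S => ofS S ∈ C b) S * ((Pr p (C b))⁻¹ * (Pr p (C b))⁻¹) := by
      intro S _
      simp only [hg]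
      have a1 := Pool.Agent.Perc.ind_nonneg (fun S => ofS S ∈ O b) S
      have a2 := Pool.Agent.Perc.ind_nonneg (fun S => ofS S ∈ C b) S
      have a3 := Pool.Agent.Perc.ind_sq (fun S => ofS S ∈ O b) S
      have a4 := Pool.Agent.Perc.ind_sq (fun S => ofS S ∈ C b) S
      have a5 : 0 ≤ ind (fun S => ofS S ∈ O b) S / Pr p (O b) := by positivity
      have a6 : 0 ≤ ind (fun S => ofS S ∈ C b) S / Pr p (C b) := by positivity
      have a7 : (ind (fun S => ofS S ∈ O b) S / Pr p (O b)) ^ 2 =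
          ind (fun S => ofS S ∈ O b) S * ((Pr p (O b))⁻¹ * (Pr p (O b))⁻¹) := by
        rw [div_pow, a3]
        field_simp
      have a8 : (ind (fun S => ofS S ∈ C b) S / Pr p (C b)) ^ 2 =
          ind (fun S => ofS S ∈ C b) S * ((Pr p (C b))⁻¹ * (Pr p (C b))⁻¹) := by
        rw [div_pow, a4]
        field_simp
      rw [← a7, ← a8]
      nlinarith
    refine (Pool.Agent.Perc.Ex_mono hp0 hp1 e1).trans ?_
    rw [Pool.Agent.Perc.Ex_add, Pool.Agent.Perc.Ex_mul_const, Pool.Agent.Perc.Ex_mul_const,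
      ← Pr_eq_Ex (hO b hb), ← Pr_eq_Ex (hC b hb), ← mul_assoc, ← mul_assoc,
      mul_inv_cancel₀ pO'.ne', mul_inv_cancel₀ pC'.ne', one_mul, one_mul]
    have b1 : (Pr p (O b))⁻¹ ≤ c⁻¹ := inv_anti₀ hc (pO b hb)
    have b2 : (Pr p (C b))⁻¹ ≤ c⁻¹ := inv_anti₀ hc (pC b hb)
    calc (Pr p (O b))⁻¹ + (Pr p (C b))⁻¹ ≤ c⁻¹ + c⁻¹ := add_le_add b1 b2
      _ = 2 / c := by ring
  have hsum0 : 0 ≤ ∑ b ∈ T, Pr p (BPiv (B b) A) := Finset.sum_nonneg fun b _ => Pr_nonneg
  have hle : ∑ b ∈ T, Pr p (BPiv (B b) A) ≤ ∑ b ∈ T, Ex (p : ℝ) s (fun S => f S * g b S) :=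
    Finset.sum_le_sum hcoef
  have hf2 : Ex (p : ℝ) s (fun S => f S ^ 2) ≤ 1 := by
    have : ∀ S, S ⊆ s → f S ^ 2 ≤ 1 := by
      intro S _
      rw [hf, Pool.Agent.Perc.ind_sq]
      exact Pool.Agent.Perc.ind_le_one _ _
    refine (Pool.Agent.Perc.Ex_mono hp0 hp1 this).trans ?_
    rw [Pool.Agent.Perc.Ex_const]
  calc (∑ b ∈ T, Pr p (BPiv (B b) A)) ^ 2
      ≤ (∑ b ∈ T, Ex (p : ℝ) s (fun S => f S * g b S)) ^ 2 := by gcongr
    _ ≤ _ := main
    _ ≤ 1 * ∑ b ∈ T, 2 / c * Pr p {ω | b ∈ revealed s β R ω K.card} := by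
        refine mul_le_mul hf2 ?_ ?_ zero_le_one
        · refine Finset.sum_le_sum fun b hb => ?_
          have h3 : Ex (p : ℝ) s (ind fun S => b ∈ revealed s β R (ofS S) K.card) =
              Pr p {ω | b ∈ revealed s β R ω K.card} :=
            (Pr_eq_Ex (localOn_revealed (s := s) (β := β) (R := R) K.card b) p).symm
          rw [h3]
          exact mul_le_mul_of_nonneg_right (hvar b hb) Pr_nonneg
        · refine Finset.sum_nonneg fun b _ => mul_nonneg ?_ ?_
          · exact Pool.Agent.Perc.Ex_nonneg hp0 hp1 fun S _ => sq_nonneg _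
          · exact Pool.Agent.Perc.Ex_nonneg hp0 hp1 fun S _ => Pool.Agent.Perc.ind_nonneg _ _
    _ = _ := by rw [one_mul, Finset.mul_sum]

end Pool.Agent.H13.SK

end

section

/-!
# Site percolation on the torus: definitions

The sites of the torus of side `N` are the sites of the plane modulo `N`.  `sitT N ω` is the induced
periodic bond configuration.
-/

open MeasureTheory ProbabilityTheory unitInterval

namespace Pool.Agent.H83.SK

open Pool.Agent.H89.Perc Pool.Agent.H61.NC

variable {N : ℕ} {q : I} {A B : Set Config} {s t : Finset Edge}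

/-- The induced bond configuration of the torus. -/
def sitT (N : ℕ) (ω : Config) : Config := sit (per N ω)

/-- Probability for site percolation on the torus. -/
noncomputable def PrT (N : ℕ) (q : I) (A : Set Config) : ℝ :=
  Pool.Agent.H89.Perc.Pr q {ω | sitT N ω ∈ A}

theorem per_sitT (N : ℕ) (ω : Config) : per N (sitT N ω) = sitT N ω := by
  funext ⟨x, y, b⟩
  have hx : ∀ z : ℤ, (z % N + 1) % (N : ℤ) = (z + 1) % N := fun z => by
    rw [Int.emod_add_emod]
  cases b
  · simp only [sitT, per, sit, sv, src, tgt, Bool.false_eq_true, if_false, Int.emod_emod, hx]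
  · simp only [sitT, per, sit, sv, src, tgt, if_true, Int.emod_emod, hx]

/-- The influence of a site on the winding event. -/
noncomputable def sT (q : I) (N : ℕ) : ℝ := pivot q {ω | sitT N ω ∈ Wind N} (ctr N false)

/-- The sites of the block of radius `r` in the middle of the torus. -/
noncomputable def blkS (N r : ℕ) : Finset Edge := by
  classical exact (blk N r).filter (fun e => e.2.2 = false)

/-- The block of radius `r` is pivotal for the winding event (an event of the sites). -/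
def BlockPiv (N r : ℕ) : Set Config :=
  {ω | sitT N (fill (blkS N r) true ω) ∈ Wind N ∧ sitT N (fill (blkS N r) false ω) ∉ Wind N}

end Pool.Agent.H83.SK

end

section

/-!
# Site percolation: interfaces of the separation part

Everything is for densities `q` with `RSWreg c n q`; constants depend only on `c`.
-/

open MeasureTheory ProbabilityTheory unitInterval

namespace Pool.Agent.H83.SK

open Pool.Agent.H89.Perc Pool.Agent.H29.Sep
open Pool.Agent.H59.EX (Src Four)

/-- The four edges at the origin. -/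
def star0 : Finset Edge :=
  {((0, 0, false) : Edge), ((0, 0, true) : Edge), ((-1, 0, false) : Edge), ((0, -1, true) : Edge)}

/-- The site `0` as a source: two of its neighbours (opposite for `b = false`, adjacent for
`b = true`), the four edges at `0` are closed. -/
def s4 (b : Bool) : Src where
  x := (1, 0)
  y := if b then (0, 1) else (-1, 0)
  E0 := star0
  hx := by simp [ball, rect]
  hy := by cases b <;> simp [ball, rect]
  hE := by
    intro e he
    simp only [star0, Finset.mem_insert, Finset.mem_singleton] at he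
    rcases he with rfl | rfl | rfl | rfl <;> simp [ball, rect, src, tgt]

/-- Four-arm probability of the site `0`: with the site `0` closed, two given neighbours of `0` are
joined to distance `r` and not joined to each other (sum over the two kinds of pairs). -/
noncomputable def a4 (q : I) (r : ℕ) : ℝ :=
  Pr q (Four (s4 false) r) + Pr q (Four (s4 true) r)

/-- S1, inner side. -/
def BadIn : Prop :=
  ∀ c : ℝ, 0 < c → ∃ C κ : ℝ, 0 < C ∧ 0 < κ ∧ ∀ (n t ρ r : ℕ) (q : I), 1 ≤ t → t ≤ ρ →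
    2 * ρ ≤ r → r ≤ n → RSWreg c n q →
      Pr q {ω | ∃ z ∈ sphere 0 r, ω ∈ LocTwo (ball 0 r) z t ρ} ≤
        C * ((r : ℝ) / ρ) * ((t : ℝ) / ρ) ^ κ

/-- S1, outer side. -/
def BadOut : Prop :=
  ∀ c : ℝ, 0 < c → ∃ C κ : ℝ, 0 < C ∧ 0 < κ ∧ ∀ (n t ρ r : ℕ) (q : I), 1 ≤ t → t ≤ ρ →
    2 * ρ ≤ r → r ≤ n → RSWreg c n q →
      Pr q {ω | ∃ z ∈ sphere 0 r, ω ∈ LocTwo (ball 0 (r - 1))ᶜ z t ρ} ≤
        C * ((r : ℝ) / ρ) * ((t : ℝ) / ρ) ^ κ

/-- S4: gluing with terminals. -/
def GLT : Prop :=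
  ∀ c ε : ℝ, 0 < c → 0 < ε → ∃ (C : ℝ) (k₀ : ℕ), 0 < C ∧ 1 ≤ k₀ ∧
    ∀ (n k R : ℕ) (q : I) (L K : Set Vert), k₀ ≤ k → 64 * 4 ^ k ≤ R → R ≤ n → RSWreg c n q →
      L ⊆ sphere 0 R → K ⊆ sphere 0 R →
      a4 q (4 ^ k) * Pr q (BT (4 * 4 ^ k) R L K) ≤
        C * a4 q R + ε * (a4 q (4 ^ (k - 1)) * Pr q (BT (16 * 4 ^ k) R L K))

/-- S3: regularity of the four-arm probability. -/
def RegA4 : Prop :=
  ∀ c : ℝ, 0 < c → ∃ C : ℝ, 0 < C ∧ ∀ (n r : ℕ) (q : I), 1 ≤ r → 64 * r ≤ n → RSWreg c n q →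
    a4 q r ≤ C * a4 q (4 * r)

/-- S2 + S3: four arms at scale `N / 64` cost at most a pivotal site of the torus. -/
def SepTorus : Prop :=
  ∀ c : ℝ, 0 < c → ∃ C : ℝ, 0 < C ∧ ∀ (N r : ℕ) (q : I), 1 ≤ r → N ≤ 64 * r →
    4 * r ≤ N → RSWreg c N q → a4 q r ≤ C * sT q N

/-- S5: quasi-multiplicativity for the planar annulus. -/
def QMann : Prop :=
  ∀ c : ℝ, 0 < c → ∃ C : ℝ, 0 < C ∧ ∀ (n r R : ℕ) (q : I), 1 ≤ r → 16 * r ≤ R → 64 * R ≤ n →
    RSWreg c n q → a4 q r * Pr q (A2 (16 * r) R) ≤ C * a4 q R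

/-- Separation and gluing, torus version. -/
def GLTorus : Prop :=
  ∀ c : ℝ, 0 < c → ∃ C : ℝ, 0 < C ∧ ∀ (N r : ℕ) (q : I), 1 ≤ r → 64 * r ≤ N →
    RSWreg c N q → a4 q r * Pool.Agent.H89.Perc.Pr q (BlockPiv N (16 * r)) ≤ C * sT q N

end Pool.Agent.H83.SK

end

section

/-!
# Site percolation: exploration of clusters

`clus (sit w) D X` is the union of the clusters in `D` of the vertices of `X`; `Ucl w D X` is the
set of the sites which are needed to determine it. The sites off `Ucl w D X` are fresh.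
-/

open MeasureTheory ProbabilityTheory unitInterval

namespace Pool.Agent.H83.SK

open Pool.Agent.H26.HP

open Pool.Agent.H89.Perc

variable {ω ω' : Config} {D X S U : Set Vert} {R : ℕ} {q : I}

/-- Neighbours. -/
def Adj (a b : Vert) : Prop := ∃ e : Edge, Joins e a b

/-- Steps in the induced configuration. -/
lemma step_sit {w : Config} {a b : Vert} : Step (sit w) D a b ↔
    a ∈ D ∧ b ∈ D ∧ Adj a b ∧ w (sv a) = true ∧ w (sv b) = true := by
  constructor
  · rintro ⟨h1, h2, e, h3, h4⟩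
    rw [sit_true] at h4
    refine ⟨h1, h2, ⟨e, h3⟩, ?_⟩
    rcases h3 with ⟨rfl, rfl⟩ | ⟨rfl, rfl⟩
    · exact h4
    · exact ⟨h4.2, h4.1⟩
  · rintro ⟨h1, h2, ⟨e, h3⟩, h4, h5⟩
    refine ⟨h1, h2, e, h3, ?_⟩
    rw [sit_true]
    rcases h3 with ⟨rfl, rfl⟩ | ⟨rfl, rfl⟩
    · exact ⟨h4, h5⟩
    · exact ⟨h5, h4⟩

lemma adj_ball {a b : Vert} (h : Adj a b) : b ∈ ball a 1 := by
  obtain ⟨⟨x, y, t⟩, ⟨h1, h2⟩ | ⟨h1, h2⟩⟩ := h <;>
    (subst h1; subst h2; cases t <;> simp only [mem_ball, src, tgt, if_true, if_false,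
      Bool.false_eq_true, Nat.cast_one] <;> omega)

/-- A vertex with an open edge is an open site. -/
lemma conn_sit_open {w : Config} {u v : Vert} (h : Conn (sit w) D u v) (hne : u ≠ v) :
    w (sv u) = true ∧ w (sv v) = true := by
  have h1 : ∀ a b : Vert, Conn (sit w) D a b → a ≠ b → w (sv b) = true := by
    intro a b hab
    refine hab.induction_right (P := fun x => a ≠ x → w (sv x) = true) (fun h => (h rfl).elim) ?_
    intro x y _ hxy _ _
    exact (step_sit.1 hxy).2.2.2.2
  exact ⟨h1 v u h.symm hne.symm, h1 u v h hne⟩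

/-- The sites which determine the clusters of `X`. -/
def Ucl (w : Config) (D X : Set Vert) : Set Vert :=
  {v | v ∈ clus (sit w) D X ∨
    (v ∈ D ∧ ∃ a ∈ clus (sit w) D X, w (sv a) = true ∧ Adj a v)}

lemma clus_subset_Ucl {w : Config} : clus (sit w) D X ⊆ Ucl w D X := fun _ h => Or.inl h

lemma Ucl_subset {w : Config} : Ucl w D X ⊆ D := by
  rintro v (h | h)
  · exact clus_subset h
  · exact h.1

/-- The sites of a set of vertices. -/
noncomputable def siteF (R : ℕ) (U : Set Vert) : Finset Edge := by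
  classical exact ((bF R).filter (fun v => v ∈ U)).image sv

lemma mem_siteF {g : Edge} : g ∈ siteF R U ↔ ∃ v, v ∈ ball 0 R ∧ v ∈ U ∧ sv v = g := by
  classical
  simp only [siteF, Finset.mem_image, Finset.mem_filter, mem_bF, and_assoc]

lemma sv_mem_siteF {v : Vert} (hv : v ∈ ball 0 R) (hU : v ∈ U) : sv v ∈ siteF R U :=
  mem_siteF.2 ⟨v, hv, hU, rfl⟩

/-- The clusters of `X` and the determining sites are prescribed. -/
def FullU (D X S U : Set Vert) : Set Config := {w | clus (sit w) D X = S ∧ Ucl w D X = U}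

lemma localOn_fullU (hD : D ⊆ ball 0 R) : LocalOn (siteF R U) (FullU D X S U) := by
  rintro w w' h ⟨h1, h2⟩
  have hSU : S ⊆ U := by rw [← h1, ← h2]; exact clus_subset_Ucl
  have hUD : U ⊆ D := by rw [← h2]; exact Ucl_subset
  have hw : ∀ v ∈ U, w (sv v) = w' (sv v) := fun v hv => h _ (sv_mem_siteF (hD (hUD hv)) hv)
  have hnb : ∀ a ∈ S, w (sv a) = true → ∀ b ∈ D, Adj a b → b ∈ U := by
    intro a ha hwa b hb hab
    rw [← h2]
    exact Or.inr ⟨hb, a, h1 ▸ ha, hwa, hab⟩
  have h3 : clus (sit w') D X = S := by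
    ext v
    constructor
    · rintro ⟨x, hx, hc⟩
      refine hc.induction_right (P := fun y => y ∈ S) ?_ ?_
      · rw [← h1]; exact ⟨x, hx, Conn.refl hc.mem_left⟩
      · intro a b _ hab ha
        rw [step_sit] at hab
        obtain ⟨k1, k2, k3, k4, k5⟩ := hab
        have k6 : w (sv a) = true := by rw [hw a (hSU ha)]; exact k4
        have k7 : b ∈ U := hnb a ha k6 b k2 k3
        have k8 : w (sv b) = true := by rw [hw b k7]; exact k5
        rw [← h1] at ha ⊢
        exact mem_clus_of_conn ha (step_sit.2 ⟨k1, k2, k3, k6, k8⟩ : Step (sit w) D a b).conn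
    · intro hv
      rw [← h1] at hv
      obtain ⟨x, hx, hc⟩ := hv
      refine ⟨x, hx, ?_⟩
      refine hc.induction_right (P := fun y => Conn (sit w') D x y) (Conn.refl hc.mem_left) ?_
      intro a b ha hab ih
      have haS : a ∈ S := by rw [← h1]; exact ⟨x, hx, ha⟩
      have hbS : b ∈ S := by rw [← h1]; exact ⟨x, hx, ha.tail hab⟩
      rw [step_sit] at hab
      obtain ⟨k1, k2, k3, k4, k5⟩ := hab
      exact ih.tail (step_sit.2 ⟨k1, k2, k3, by rw [← hw a (hSU haS)]; exact k4,
        by rw [← hw b (hSU hbS)]; exact k5⟩)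
  refine ⟨h3, ?_⟩
  rw [← h2]
  ext v
  simp only [Ucl, Set.mem_ofPred_eq, h1, h3]
  constructor
  · rintro (k | ⟨k1, a, k2, k3, k4⟩)
    · exact Or.inl k
    · exact Or.inr ⟨k1, a, k2, by rw [hw a (hSU k2)]; exact k3, k4⟩
  · rintro (k | ⟨k1, a, k2, k3, k4⟩)
    · exact Or.inl k
    · exact Or.inr ⟨k1, a, k2, by rw [← hw a (hSU k2)]; exact k3, k4⟩

lemma siteF_disjoint (D U : Set Vert) : Disjoint (siteF R U) (hull (eIn R (D \ U))) := by
  rw [Finset.disjoint_left]
  intro g h1 h2
  rw [mem_siteF] at h1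
  rw [mem_hull] at h2
  obtain ⟨v, _, hvU, rfl⟩ := h1
  obtain ⟨e, he, h⟩ := h2
  rw [mem_eIn] at he
  rcases h with h | h
  · exact he.2.1.2 (sv_injective h ▸ hvU)
  · exact he.2.2.2 (sv_injective h ▸ hvU)

/-- A path which starts outside of the explored set stays off the determining sites. -/
lemma conn_offU {w : Config} {u v : Vert} (hu : u ∉ clus (sit w) D X) (hne : u ≠ v)
    (h : Conn (sit w) D u v) : Conn (sit w) (D \ Ucl w D X) u v := by
  have hkey : ∀ a : Vert, Conn (sit w) D u a → w (sv a) = true → a ∈ D \ Ucl w D X := by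
    intro a ha hwa
    refine ⟨ha.mem_right, ?_⟩
    rintro (k | ⟨_, b, k1, k2, k3⟩)
    · exact hu (mem_clus_of_conn k ha.symm)
    · have hb := clus_subset k1
      have : Step (sit w) D b a := step_sit.2 ⟨hb, ha.mem_right, k3, k2, hwa⟩
      exact hu (mem_clus_of_conn (mem_clus_of_conn k1 this.conn) ha.symm)
  have hu0 : u ∈ D \ Ucl w D X := hkey u (Conn.refl h.mem_left) (conn_sit_open h hne).1
  refine h.induction_right (P := fun x => Conn (sit w) (D \ Ucl w D X) u x)
    (Conn.refl hu0) ?_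
  intro a b ha hab ih
  have hb := step_sit.1 hab
  exact ih.tail (step_sit.2 ⟨ih.mem_right, hkey b (ha.tail hab) hb.2.2.2.2, hb.2.2⟩)

/-- Probability of a disjoint union of local events, disjoint for site configurations. -/
theorem Pr_biUnion' {ι : Type*} (F : Finset ι) (A : ι → Set Config)
    (t : ι → Finset Edge) (hA : ∀ i ∈ F, LocalOn (t i) (A i))
    (hd : ∀ i ∈ F, ∀ j ∈ F, ∀ w : Config, sit w ∈ A i → sit w ∈ A j → i = j) :
    Pr q (⋃ i ∈ F, A i) = ∑ i ∈ F, Pr q (A i) := by
  unfold Pr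
  have h : {ω | sit ω ∈ ⋃ i ∈ F, A i} = ⋃ i ∈ F, {ω | sit ω ∈ A i} := by
    ext ω
    simp
  rw [h]
  refine measureReal_biUnion_finset (fun i hi j hj hij => ?_)
    (fun i hi => (localOn_sit (hA i hi)).measurableSet)
  rw [Function.onFun, Set.disjoint_left]
  intro ω h1 h2
  exact hij (hd i hi j hj ω h1 h2)

/-- **Exploration.**  Given the cluster `S` of `X` and the determining set `U`, the events `A' S U`
and `G S U` only depend on fresh sites; if `c P(A' S U) ≤ P(G S U)` for all `S`, `U`, then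
`c P(A) ≤ P(B)`. -/
theorem explore (hD : D ⊆ ball 0 R) {A B : Set Config} {A' G : Set Vert → Set Vert → Set Config}
    {c : ℝ} (hc0 : 0 ≤ c)
    (hA : ∀ w, sit w ∈ A → sit w ∈ A' (clus (sit w) D X) (Ucl w D X))
    (lA : ∀ S U, LocalOn (eIn R (D \ U)) (A' S U)) (lG : ∀ S U, LocalOn (eIn R (D \ U)) (G S U))
    (hc : ∀ S U, (∀ v ∈ U, v ∈ S ∨ ∃ a ∈ S, Adj a v) → c * Pr q (A' S U) ≤ Pr q (G S U))
    (hB : ∀ w, sit w ∈ G (clus (sit w) D X) (Ucl w D X) → sit w ∈ B) :
    c * Pr q A ≤ Pr q B := by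
  classical
  set P : Finset (Finset Vert × Finset Vert) := (bF R).powerset ×ˢ (bF R).powerset with hP
  have h1 : Pr q A ≤ ∑ T ∈ P, Pool.Agent.H89.Perc.Pr q
      (FullU D X T.1 T.2 ∩ {w | sit w ∈ A' T.1 T.2}) := by
    refine (Pool.Agent.H89.Perc.Pr_mono ?_).trans (Pool.Agent.H89.Perc.Pr_biUnion_le _ _)
    intro w hw
    obtain ⟨T, hT, hTe⟩ := exists_finset (S := clus (sit w) D X) (clus_subset.trans hD)
    obtain ⟨V, hV, hVe⟩ := exists_finset (S := Ucl w D X) (Ucl_subset.trans hD)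
    simp only [Set.mem_iUnion]
    refine ⟨(T, V), Finset.mem_product.2 ⟨hT, hV⟩, ⟨hTe.symm, hVe.symm⟩, ?_⟩
    show sit w ∈ A' ↑T ↑V
    rw [hTe, hVe]
    exact hA w hw
  have h2 : ∑ T ∈ P, Pool.Agent.H89.Perc.Pr q (FullU D X T.1 T.2 ∩ {w | sit w ∈ G T.1 T.2}) ≤
      Pr q B := by
    have hd : Set.PairwiseDisjoint (↑P) (fun T : Finset Vert × Finset Vert =>
        FullU D X T.1 T.2 ∩ {w | sit w ∈ G T.1 T.2}) := by
      intro T1 _ T2 _ hne
      rw [Function.onFun, Set.disjoint_left]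
      rintro ω ⟨⟨k1, k1'⟩, _⟩ ⟨⟨k2, k2'⟩, _⟩
      apply hne
      have k3 : (↑T1.1 : Set Vert) = ↑T2.1 := by rw [← k1, ← k2]
      have k4 : (↑T1.2 : Set Vert) = ↑T2.2 := by rw [← k1', ← k2']
      exact Prod.ext (by exact_mod_cast k3) (by exact_mod_cast k4)
    have hm : ∀ T ∈ P, MeasurableSet (FullU D X (↑T.1 : Set Vert) ↑T.2 ∩
        {w | sit w ∈ G T.1 T.2}) :=
      fun T _ => ((localOn_fullU hD).inter' (localOn_sit (lG T.1 T.2))).measurableSet
    have := measureReal_biUnion_finset (μ := μ q) hd hm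
    unfold Pool.Agent.H89.Perc.Pr
    rw [← this]
    refine measureReal_mono ?_
    intro w hw
    simp only [Set.mem_iUnion] at hw
    obtain ⟨T, _, ⟨k1, k1'⟩, k2⟩ := hw
    show sit w ∈ B
    apply hB
    rw [k1, k1']
    exact k2
  calc c * Pr q A ≤ c * ∑ T ∈ P, Pool.Agent.H89.Perc.Pr q
        (FullU D X T.1 T.2 ∩ {w | sit w ∈ A' T.1 T.2}) := mul_le_mul_of_nonneg_left h1 hc0
    _ = ∑ T ∈ P, c * Pool.Agent.H89.Perc.Pr q
        (FullU D X T.1 T.2 ∩ {w | sit w ∈ A' T.1 T.2}) := Finset.mul_sum _ _ _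
    _ ≤ ∑ T ∈ P, Pool.Agent.H89.Perc.Pr q (FullU D X T.1 T.2 ∩ {w | sit w ∈ G T.1 T.2}) := by
        refine Finset.sum_le_sum fun T _ => ?_
        by_cases hT : ∀ v ∈ (↑T.2 : Set Vert), v ∈ (↑T.1 : Set Vert) ∨
            ∃ a ∈ (↑T.1 : Set Vert), Adj a v
        · rw [Pool.Agent.H89.Perc.Pr_inter_of_disjoint (localOn_fullU hD)
            (localOn_sit (lA T.1 T.2)) (siteF_disjoint _ _),
            Pool.Agent.H89.Perc.Pr_inter_of_disjoint (localOn_fullU hD)
            (localOn_sit (lG T.1 T.2)) (siteF_disjoint _ _)]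
          have h3 := hc T.1 T.2 hT
          unfold Pr at h3
          calc c * (Pool.Agent.H89.Perc.Pr q (FullU D X T.1 T.2) *
                Pool.Agent.H89.Perc.Pr q {w | sit w ∈ A' T.1 T.2})
              = Pool.Agent.H89.Perc.Pr q (FullU D X T.1 T.2) *
                (c * Pool.Agent.H89.Perc.Pr q {w | sit w ∈ A' T.1 T.2}) := by ring
            _ ≤ _ := mul_le_mul_of_nonneg_left h3 Pool.Agent.H89.Perc.Pr_nonneg
        · have e1 : FullU D X (↑T.1 : Set Vert) ↑T.2 = ∅ := by
            ext w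
            simp only [Set.mem_empty_iff_false, iff_false]
            rintro ⟨k1, k2⟩
            apply hT
            intro v hv
            rw [← k2] at hv
            rw [← k1]
            rcases hv with k | ⟨_, a, k3, _, k4⟩
            · exact Or.inl k
            · exact Or.inr ⟨a, k3, k4⟩
          rw [e1, Set.empty_inter, Set.empty_inter]
          simp [Pool.Agent.H89.Perc.Pr]
    _ ≤ Pr q B := h2

/-- The closed neighbourhood in `D`. -/
def nb (D S : Set Vert) : Set Vert := {v | v ∈ S ∨ (v ∈ D ∧ ∃ a ∈ S, Adj a v)}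

lemma hull_eTouch_disjoint (D S : Set Vert) :
    Disjoint (hull (eTouch R D S)) (hull (eIn R (D \ nb D S))) := by
  refine disj_hull_of (S := nb D S) ?_ ?_
  · intro e he
    rw [mem_eTouch] at he
    obtain ⟨_, ⟨h1, h2⟩, h3 | h3⟩ := he
    · exact ⟨Or.inl h3, Or.inr ⟨h2, src e, h3, e, Or.inl ⟨rfl, rfl⟩⟩⟩
    · exact ⟨Or.inr ⟨h1, tgt e, h3, e, Or.inr ⟨rfl, rfl⟩⟩, Or.inl h3⟩
  · intro e he
    rw [mem_eIn] at he
    exact ⟨he.2.1.2, he.2.2.2⟩

/-- The sites of a nontrivial cluster are open, a path off the cluster stays off the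
neighbourhood. -/
lemma isClus_offU {w : Config} (h : sit w ∈ IsClus D S) {a b : Vert} (ha : a ∈ S) (hb : b ∈ S)
    (hab : a ≠ b) {u v : Vert} (hu : u ∉ S) (hne : u ≠ v) (hc : Conn (sit w) D u v) :
    Conn (sit w) (D \ nb D S) u v := by
  have hop : ∀ x ∈ S, w (sv x) = true := by
    intro x hx
    by_cases hxa : x = a
    · subst hxa
      exact (conn_sit_open (isClus_conn h hx hb) hab).1
    · exact (conn_sit_open (isClus_conn h hx ha) hxa).1
  have hkey : ∀ x : Vert, Conn (sit w) D u x → w (sv x) = true → x ∈ D \ nb D S := by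
    intro x hx hwx
    refine ⟨hx.mem_right, ?_⟩
    rintro (k | ⟨_, y, k1, k3⟩)
    · exact hu (isClus_closed h k hx.symm)
    · have hy := isClus_subset h k1
      have : Step (sit w) D y x := step_sit.2 ⟨hy, hx.mem_right, k3, hop y k1, hwx⟩
      exact hu (isClus_closed h (isClus_closed h k1 this.conn) hx.symm)
  have hu0 : u ∈ D \ nb D S := hkey u (Conn.refl hc.mem_left) (conn_sit_open hc hne).1
  refine hc.induction_right (P := fun x => Conn (sit w) (D \ nb D S) u x) (Conn.refl hu0) ?_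
  intro x y hx hxy ih
  have hb := step_sit.1 hxy
  exact ih.tail (step_sit.2 ⟨ih.mem_right, hkey y (hx.tail hxy) hb.2.2.2.2, hb.2.2⟩)

/-- The expected number of clusters of `D` in the family `F`. -/
noncomputable def EN (q : I) (D : Set Vert) (F : Finset (Finset Vert)) : ℝ :=
  ∑ T ∈ F, Pr q (IsClus D T)

/-- If each cluster of the family is alone with probability at least `c`, then the expected number
of clusters is at most `c⁻¹ P(B)`. -/
theorem EN_le (hD : D ⊆ ball 0 R) {F : Finset (Finset Vert)} {B : Set Config}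
    {G : Set Vert → Set Config} {c : ℝ} (lG : ∀ S, LocalOn (eIn R (D \ nb D S)) (G S))
    (hc : ∀ T ∈ F, c ≤ Pr q (G T))
    (hu : ∀ w, ∀ T ∈ F, ∀ T' ∈ F, sit w ∈ IsClus D T → sit w ∈ G T → sit w ∈ IsClus D T' →
      sit w ∈ G T' → T = T')
    (hB : ∀ w, ∀ T ∈ F, sit w ∈ IsClus D T → sit w ∈ G T → sit w ∈ B) :
    c * EN q D F ≤ Pr q B := by
  classical
  have h2 : ∑ T ∈ F, Pr q (IsClus D T ∩ G T) ≤ Pr q B := by
    have := Pr_biUnion' (q := q) F (fun T : Finset Vert => IsClus D (↑T : Set Vert) ∩ G T)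
      (fun T => eTouch R D ↑T ∪ eIn R (D \ nb D ↑T))
      (fun T _ => (localOn_isClus hD).inter' (lG T))
      (fun T1 hT1 T2 hT2 w h1 h2 => hu w T1 hT1 T2 hT2 h1.1 h1.2 h2.1 h2.2)
    rw [← this]
    unfold Pr
    refine Pool.Agent.H89.Perc.Pr_mono ?_
    intro w hw
    simp only [Set.mem_ofPred_eq, Set.mem_iUnion] at hw
    obtain ⟨T, hT, k1, k2⟩ := hw
    exact hB w T hT k1 k2
  refine le_trans ?_ h2
  rw [EN, Finset.mul_sum]
  refine Finset.sum_le_sum fun T hT => ?_
  rw [Pr_inter_of_disjoint (localOn_isClus hD) (lG T) (hull_eTouch_disjoint _ _), mul_comm]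
  exact mul_le_mul_of_nonneg_left (hc T hT) Pr_nonneg

/-- Upper bound by the expected number of clusters times the conditional probability of the rest. -/
theorem le_EN (hD : D ⊆ ball 0 R) {F : Finset (Finset Vert)} {A : Set Config}
    {G : Set Vert → Set Config} {δ : ℝ} (lG : ∀ S, LocalOn (eIn R (D \ nb D S)) (G S))
    (hδ : ∀ T ∈ F, Pr q (G T) ≤ δ)
    (hA : ∀ w, sit w ∈ A → ∃ T ∈ F, sit w ∈ IsClus D T ∧ sit w ∈ G T) :
    Pr q A ≤ EN q D F * δ := by
  classical
  calc Pr q A ≤ Pr q (⋃ T ∈ F, (IsClus D (↑T : Set Vert) ∩ G T)) := by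
        unfold Pr
        refine Pool.Agent.H89.Perc.Pr_mono fun w hw => ?_
        simp only [Set.mem_ofPred_eq, Set.mem_iUnion]
        obtain ⟨T, hT, h1, h2⟩ := hA w hw
        exact ⟨T, hT, h1, h2⟩
    _ ≤ ∑ T ∈ F, Pr q (IsClus D (↑T : Set Vert) ∩ G T) := Pr_biUnion_le _ _
    _ ≤ ∑ T ∈ F, Pr q (IsClus D (↑T : Set Vert)) * δ := by
        refine Finset.sum_le_sum fun T hT => ?_
        rw [Pr_inter_of_disjoint (localOn_isClus hD) (lG T) (hull_eTouch_disjoint _ _)]
        exact mul_le_mul_of_nonneg_left (hδ T hT) Pr_nonneg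
    _ = EN q D F * δ := by rw [EN, Finset.sum_mul]

end Pool.Agent.H83.SK

end

section

/-!
# Conditional FKG and conditional independence after an exploration
-/

open MeasureTheory ProbabilityTheory unitInterval

namespace Pool.Agent.H83.SK

open Pool.Agent.H89.Perc

variable {p : I}

private theorem ExplB_inter {ι : Type*} [DecidableEq Edge] (F : Finset ι) (A : ι → Set Config)
    (t : ι → Finset Edge) (hA : ∀ i ∈ F, LocalOn (t i) (A i)) :
    LocalOn (F.biUnion t) (⋂ i ∈ F, A i) := by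
  intro ω ω' hω h
  rw [Set.mem_iInter₂] at h ⊢
  intro i hi
  exact hA i hi ω ω' (fun e he => hω e (Finset.mem_biUnion.2 ⟨i, hi, he⟩)) (h i hi)

/-- Finite intersections of decreasing local events: Harris inequality. -/
theorem fkg_decr_many {ι : Type*} (F : Finset ι) (A : ι → Set Config) (t : ι → Finset Edge)
    {c : ℝ} (hc : 0 ≤ c) (hA : ∀ i ∈ F, LocalOn (t i) (A i)) (iA : ∀ i ∈ F, Incr (A i)ᶜ)
    (hP : ∀ i ∈ F, c ≤ Pr p (A i)) : c ^ F.card ≤ Pr p (⋂ i ∈ F, A i) := by
  classical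
  induction F using Finset.induction_on with
  | empty => simp [Pr_univ]
  | insert a F ha ih =>
    rw [Finset.card_insert_of_notMem ha, Finset.set_biInter_insert, pow_succ']
    have hF : ∀ i ∈ F, i ∈ insert a F := fun i hi => Finset.mem_insert_of_mem hi
    have haF : a ∈ insert a F := Finset.mem_insert_self _ _
    have h1 := ih (fun i hi => hA i (hF i hi)) (fun i hi => iA i (hF i hi))
      (fun i hi => hP i (hF i hi))
    have h2 : Incr (⋂ i ∈ F, A i)ᶜ := by
      intro ω ω' hω h h3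
      apply h
      rw [Set.mem_iInter₂] at h3 ⊢
      intro i hi
      by_contra h4
      exact iA i (hF i hi) ω ω' hω h4 (h3 i hi)
    refine le_trans ?_ (fkg_decr (hA a haF) (ExplB_inter F A t (fun i hi => hA i (hF i hi)))
      (iA a haF) h2)
    exact mul_le_mul (hP a haF) h1 (pow_nonneg hc _) Pr_nonneg

/-- Finite intersections of increasing local events: Harris inequality. -/
theorem fkg_many {ι : Type*} (F : Finset ι) (A : ι → Set Config) (t : ι → Finset Edge)
    {c : ℝ} (hc : 0 ≤ c) (hA : ∀ i ∈ F, LocalOn (t i) (A i)) (iA : ∀ i ∈ F, Incr (A i))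
    (hP : ∀ i ∈ F, c ≤ Pr p (A i)) : c ^ F.card ≤ Pr p (⋂ i ∈ F, A i) := by
  classical
  induction F using Finset.induction_on with
  | empty => simp [Pr_univ]
  | insert a F ha ih =>
    rw [Finset.card_insert_of_notMem ha, Finset.set_biInter_insert, pow_succ']
    have hF : ∀ i ∈ F, i ∈ insert a F := fun i hi => Finset.mem_insert_of_mem hi
    have haF : a ∈ insert a F := Finset.mem_insert_self _ _
    have h1 := ih (fun i hi => hA i (hF i hi)) (fun i hi => iA i (hF i hi))
      (fun i hi => hP i (hF i hi))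
    have h2 : Incr (⋂ i ∈ F, A i) := by
      intro ω ω' hω h
      rw [Set.mem_iInter₂] at h ⊢
      intro i hi
      exact iA i (hF i hi) ω ω' hω (h i hi)
    refine le_trans ?_ (fkg (hA a haF) (ExplB_inter F A t (fun i hi => hA i (hF i hi)))
      (iA a haF) h2)
    exact mul_le_mul (hP a haF) h1 (pow_nonneg hc _) Pr_nonneg

end Pool.Agent.H83.SK

end
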