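import Pool.Agent.H31.PT.M06
import Pool.Agent.H31.PT.M07

/-! The parts of this file: H83.Site.Near, H83.Site.Chain, H83.Site.Bdd, H83.Site.Crit, H83.Site.ArmT, H83.SK.P57.Base, H83.SK.P57.Stage2a, H83.SK.P57.Det2. -/

section

/-! # Russo-Seymour-Welsh for probabilities close to one -/

set_option autoImplicit false

open MeasureTheory ProbabilityTheory unitInterval

namespace Pool.Agent.H83.Site

open Pool.Agent.H89.Perc

/-- The event `E` fails with probability at most `q`. -/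
private def NearG (p : I) (r : Bool) (q : ℝ) (E : Set Config) : Prop :=
  (∃ s : Finset Edge, LocalOn s E) ∧ 1 - q ≤ PT p r E

private lemma NearG.inter {p : I} {r : Bool} {q₁ q₂ : ℝ} {E F : Set Config}
    (h1 : NearG p r q₁ E) (h2 : NearG p r q₂ F) : NearG p r (q₁ + q₂) (E ∩ F) := by
  classical
  obtain ⟨⟨s, hs⟩, h1⟩ := h1
  obtain ⟨⟨t, ht⟩, h2⟩ := h2
  have hloc : LocalOn (s ∪ t) (E ∩ F) :=
    (hs.mono Finset.subset_union_left).inter (ht.mono Finset.subset_union_right)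
  refine ⟨⟨s ∪ t, hloc⟩, ?_⟩
  have h3 := PT_compl (p := p) (r := r) hloc
  rw [Set.compl_inter] at h3
  have h4 := PT_union_le (p := p) (r := r) (E := Eᶜ) (F := Fᶜ)
  rw [PT_compl hs, PT_compl ht] at h4
  linarith

private lemma near_localOn_comp {s : Finset Edge} {E : Set Config} (hE : LocalOn s E)
    (φ : TV → TV) : ∃ t : Finset Edge, LocalOn t {η | (fun v => η (φ v)) ∈ E} := by
  classical
  refine ⟨s.image φ, fun ω ω' hω h => hE _ _ (fun e he => hω _ (Finset.mem_image_of_mem _ he)) h⟩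

/-- Horizontal crossings whose end points satisfy a condition. -/
private def NearSt (P : ℤ → ℤ → Prop) (a b l : ℤ) : Set Config :=
  {η | ∃ y y' : ℤ, P y y' ∧ TConn η (TR a b 0 (2 * l)) (a, y, false) (b, y', false)}

private lemma near_localOn_st (P : ℤ → ℤ → Prop) (a b l : ℤ) :
    LocalOn (eRect a b 0 (2 * l)) (NearSt P a b l) := by
  rintro η η' h ⟨y, y', hP, hc⟩
  exact ⟨y, y', hP, localOn_tconn _ _ _ _ _ _ η η' h hc⟩

private lemma near_incr_st (P : ℤ → ℤ → Prop) (a b l : ℤ) : Incr (NearSt P a b l) := by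
  rintro η η' h ⟨y, y', hP, hc⟩
  exact ⟨y, y', hP, incr_tconn _ _ _ η η' h hc⟩

private lemma near_st {p : I} {r : Bool} {P : ℤ → ℤ → Prop} {a b l : ℤ} {δ : ℝ}
    (hP : ∀ y y', P y y' ∨ P (2 * l - y) (2 * l - y'))
    (h : 1 - δ ≤ PT p r {η | HC η a b 0 (2 * l)}) : NearG p r (Real.sqrt δ) (NearSt P a b l) := by
  have hloc := near_localOn_st P a b l
  refine ⟨⟨_, hloc⟩, ?_⟩
  obtain ⟨t, ht⟩ := near_localOn_comp hloc (rfy (2 * l))
  have h1 : PT p r {η | (fun v => η (rfy (2 * l) v)) ∈ NearSt P a b l} =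
      PT p r (NearSt P a b l) := PT_comp hloc (rfy_injective _).injOn fun _ => rfl
  have h2 := PT_sqrt_trick (p := p) (r := r) hloc ht (near_incr_st P a b l)
    (fun ω ω' hω hE => near_incr_st P a b l _ _ (fun e he => hω _ he) hE) h1
  have h3 : 1 - δ ≤ PT p r (NearSt P a b l ∪
      {η | (fun v => η (rfy (2 * l) v)) ∈ NearSt P a b l}) := by
    refine h.trans (PT_mono ?_)
    rintro η ⟨y, y', hc⟩
    rcases hP y y' with h | h
    · exact Or.inl ⟨y, y', h, hc⟩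
    · refine Or.inr ⟨2 * l - y, 2 * l - y', h, ?_⟩
      rw [tconn_rfy]
      simpa [rfy] using hc
  have h4 : Real.sqrt (1 - PT p r (NearSt P a b l ∪
      {η | (fun v => η (rfy (2 * l) v)) ∈ NearSt P a b l})) ≤ Real.sqrt δ :=
    Real.sqrt_le_sqrt (by linarith)
  linarith

private lemma near_lj {p : I} {r : Bool} {l : ℤ} (hl : 1 ≤ l) {δ : ℝ} (hδ : 0 ≤ δ)
    (hδ1 : δ ≤ 1) (h : 1 - δ ≤ PT p r {η | HC η 0 (2 * l) 0 (2 * l)}) :
    NearG p r (δ + Real.sqrt δ) (LJ l 0 (2 * l) (2 * l)) := by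
  refine ⟨⟨_, localOn_LJ (by omega) le_rfl⟩, ?_⟩
  have h1 := expl_prob p r (l := l) (c := 0) (d := 2 * l) (e := 2 * l) (by omega) (by omega) le_rfl
  have h2 : 1 - δ ≤ PT p r {η | HC η 0 l 0 (2 * l)} :=
    h.trans (PT_mono fun η hη => HC.mono hη le_rfl (by omega) (by omega) le_rfl le_rfl)
  rw [PT_VC_eq_HC] at h1
  have h3 : Real.sqrt (1 - PT p r {η | HC η 0 (2 * l) 0 (2 * l)}) ≤ Real.sqrt δ :=
    Real.sqrt_le_sqrt (by linarith)
  have h4 : Real.sqrt δ ≤ 1 := by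
    rw [Real.sqrt_le_left zero_le_one, one_pow]
    exact hδ1
  have h5 := Real.sqrt_nonneg δ
  have h6 : (1 - δ) * (1 - Real.sqrt δ) ≤ PT p r {η | HC η 0 l 0 (2 * l)} *
      (1 - Real.sqrt (1 - PT p r {η | HC η 0 (2 * l) 0 (2 * l)})) :=
    mul_le_mul h2 (by linarith) (by linarith) PT_nonneg
  have h7 : 0 ≤ δ * Real.sqrt δ := mul_nonneg hδ h5
  nlinarith

private lemma near_lj' {p : I} {r : Bool} {l : ℤ} {q : ℝ} {E : Set Config}
    (h : NearG p r q E) : NearG p r q {η | (fun v => η (rfx l v)) ∈ E} := by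
  obtain ⟨⟨s, hs⟩, h⟩ := h
  refine ⟨near_localOn_comp hs _, ?_⟩
  rw [PT_comp hs (rfx_injective _).injOn fun _ => rfl]
  exact h

/-- The deterministic part. -/
private lemma near_det {η : Config} {l : ℤ} (hl : 1 ≤ l)
    (h1 : η ∈ LJ l 0 (2 * l) (2 * l)) (h2 : (fun v => η (rfx l v)) ∈ LJ l 0 (2 * l) (2 * l))
    (h3 : η ∈ NearSt (fun y _ => y ≤ l) 0 l l) (h4 : η ∈ NearSt (fun _ y' => y' ≤ l) 0 l l)
    (h5 : η ∈ NearSt (fun y _ => l ≤ y) 0 (2 * l) l)
    (h6 : η ∈ NearSt (fun _ y' => l ≤ y') (-l) l l) : HC η (-l) (2 * l) 0 (2 * l) := by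
  obtain ⟨y, y', hz⟩ := low_exists (by omega) (by omega) h1.1
  obtain ⟨a0, a1, ha, hca⟩ := h3
  obtain ⟨b0, b1, hb, hcb⟩ := h4
  obtain ⟨c0, c1, hc, hcc⟩ := h5
  obtain ⟨d0, d1, hd, hcd⟩ := h6
  obtain ⟨y2, hy2, hl2⟩ := low_left hz hca
  obtain ⟨y3, hy3, hl3⟩ := low_right hz hcb
  obtain ⟨x, hx⟩ := low_joined le_rfl hz h1.2
  obtain ⟨x', hx'⟩ := low_joined_left le_rfl hz h2.2
  have s1 : TR 0 l 0 (2 * l) ⊆ TR 0 (2 * l) 0 (2 * l) :=
    TR_mono le_rfl (by omega) le_rfl le_rfl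
  have s2 : TR 0 l 0 (2 * l) ⊆ TR (-l) l 0 (2 * l) :=
    TR_mono (by omega) le_rfl le_rfl le_rfl
  have s3 : TR 0 (2 * l) 0 (2 * l) ⊆ TR (-l) (2 * l) 0 (2 * l) :=
    TR_mono (by omega) le_rfl le_rfl le_rfl
  have s4 : TR (-l) l 0 (2 * l) ⊆ TR (-l) (2 * l) 0 (2 * l) :=
    TR_mono le_rfl (by omega) le_rfl le_rfl
  -- right side
  have r1 : TConn η (TR 0 (2 * l) 0 (2 * l)) (0, y2, false) (x, 2 * l, false) :=
    (hl2.mono_set s1).symm.trans hx
  have r2 := glue_left (by omega) r1 hcc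
  have r3 : TConn η (TR 0 (2 * l) 0 (2 * l)) (0, y, false) (2 * l, c1, false) :=
    ((hl2.mono_set s1).trans r2).trans hcc
  -- left side
  have q1 : TConn η (TR (-l) l 0 (2 * l)) (l, y3, false) (x', 2 * l, false) :=
    (hl3.mono_set s2).symm.trans hx'
  have q2 := glue_right (by omega) q1 hcd.symm
  have q3 : TConn η (TR (-l) l 0 (2 * l)) (l, y', false) (-l, d0, false) :=
    ((hl3.mono_set s2).trans q2).trans hcd.symm
  have m1 : TConn η (TR 0 l 0 (2 * l)) (0, y, false) (l, y', false) :=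
    hz.mono le_rfl fun v _ hv => (zet_eq_true.1 hv).1
  exact ⟨d0, c1, (((q3.mono_set s4).symm.trans (m1.mono_set (s2.trans s4)).symm).trans
    (r3.mono_set s3))⟩

private lemma near_three {p : I} {r : Bool} {l : ℤ} (hl : 1 ≤ l) {δ : ℝ} (hδ : 0 ≤ δ)
    (hδ1 : δ ≤ 1) (h : 1 - δ ≤ PT p r {η | HC η 0 (2 * l) 0 (2 * l)}) :
    1 - 8 * Real.sqrt δ ≤ PT p r {η | HC η 0 (3 * l) 0 (2 * l)} := by
  have hs : δ ≤ Real.sqrt δ := Real.le_sqrt_of_sq_le (by nlinarith)
  have e1 := near_lj hl hδ hδ1 h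
  have e2 := near_lj' (l := l) e1
  have hS : 1 - δ ≤ PT p r {η | HC η 0 l 0 (2 * l)} :=
    h.trans (PT_mono fun η hη => HC.mono hη le_rfl (by omega) (by omega) le_rfl le_rfl)
  have hB : 1 - δ ≤ PT p r {η | HC η (-l) l 0 (2 * l)} := by
    have h1 := PT_HC_shf p r 0 (2 * l) 0 (2 * l) (-l) 0
    have e1 : (0 : ℤ) + -l = -l := by ring
    have e2 : 2 * l + -l = l := by ring
    rw [e1, e2, add_zero, add_zero] at h1
    rw [h1]
    exact h
  have e3 := near_st (P := fun y _ => y ≤ l) (fun y y' => by omega) hS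
  have e4 := near_st (P := fun _ y' => y' ≤ l) (fun y y' => by omega) hS
  have e5 := near_st (P := fun y _ => l ≤ y) (fun y y' => by omega) h
  have e6 := near_st (P := fun _ y' => l ≤ y') (fun y y' => by omega) hB
  have e7 := ((((e1.inter e2).inter e3).inter e4).inter e5).inter e6
  have h1 := PT_HC_shf p r 0 (3 * l) 0 (2 * l) (-l) 0
  have f1 : (0 : ℤ) + -l = -l := by ring
  have f2 : 3 * l + -l = 2 * l := by ring
  rw [f1, f2, add_zero, add_zero] at h1
  rw [← h1]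
  refine le_trans ?_ (e7.2.trans (PT_mono ?_))
  · linarith
  · rintro η ⟨⟨⟨⟨⟨h1, h2⟩, h3⟩, h4⟩, h5⟩, h6⟩
    exact near_det hl h1 h2 h3 h4 h5 h6

private lemma near_step {η : Config} {l m : ℤ} (hl : 1 ≤ l) (hm : 0 ≤ m)
    (h1 : HC η 0 (m + 3 * l) 0 (2 * l)) (h2 : HC η (m + l) (m + 4 * l) 0 (2 * l))
    (h3 : VC η (m + l) (m + 3 * l) 0 (2 * l)) : HC η 0 (m + 4 * l) 0 (2 * l) := by
  obtain ⟨y1, y2, h1⟩ := h1
  obtain ⟨z1, z2, h2⟩ := h2
  obtain ⟨x1, x2, h3⟩ := h3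
  obtain ⟨a1, a2, ha, ha1, -⟩ := h1.cross_x (a := m + l) (b := m + 3 * l)
    (by rw [fx_site]; omega) (by rw [fx_site]) (by omega)
  obtain ⟨b1, b2, hb, -, hb2⟩ := h2.cross_x (a := m + l) (b := m + 3 * l)
    (by rw [fx_site]) (by rw [fx_site]; omega) (by omega)
  rw [TR_inter_x (by omega) (by omega)] at ha hb
  have g1 := glue_hv ha h3
  have g2 := glue_hv hb h3
  have s1 : TR 0 (m + 3 * l) 0 (2 * l) ⊆ TR 0 (m + 4 * l) 0 (2 * l) :=
    TR_mono le_rfl (by omega) le_rfl le_rfl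
  have s2 : TR (m + l) (m + 4 * l) 0 (2 * l) ⊆ TR 0 (m + 4 * l) 0 (2 * l) :=
    TR_mono (by omega) le_rfl le_rfl le_rfl
  have s3 : TR (m + l) (m + 3 * l) 0 (2 * l) ⊆ TR 0 (m + 4 * l) 0 (2 * l) :=
    TR_mono (by omega) (by omega) le_rfl le_rfl
  exact ⟨y1, z2, (((ha1.mono_set s1).trans (g1.mono_set s3)).trans (g2.mono_set s3).symm).trans
    ((hb.mono_set s3).trans (hb2.mono_set s2))⟩

theorem near_rsw (p : I) (r : Bool) {l : ℕ} (hl : 1 ≤ l) {δ : ℝ} (hδ : 0 ≤ δ)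
    (h : 1 - δ ≤ PT p r {η | HC η 0 (2 * l) 0 (2 * l)}) :
    1 - 100 * Real.sqrt δ ≤ PT p r {η | HC η 0 (12 * l) 0 (2 * l)} := by
  by_cases hδ1 : 1 < δ
  · have h1 : 1 ≤ Real.sqrt δ := by
      rw [Real.one_le_sqrt]
      exact hδ1.le
    have h2 := PT_nonneg (p := p) (r := r) (E := {η | HC η 0 (12 * l) 0 (2 * l)})
    linarith
  push Not at hδ1
  have hL : (1 : ℤ) ≤ (l : ℤ) := by exact_mod_cast hl
  have hs : δ ≤ Real.sqrt δ := Real.le_sqrt_of_sq_le (by nlinarith)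
  have h3 := near_three hL hδ hδ1 h
  have key : ∀ j : ℕ, 1 - (8 * Real.sqrt δ + j * (9 * Real.sqrt δ)) ≤
      PT p r {η | HC η 0 (j * l + 3 * l) 0 (2 * l)} := by
    intro j
    induction j with
    | zero => simpa using h3
    | succ j ih =>
      have n1 : NearG p r (8 * Real.sqrt δ + j * (9 * Real.sqrt δ))
          {η | HC η 0 (j * l + 3 * l) 0 (2 * l)} := ⟨⟨_, localOn_HC _ _ _ _⟩, ih⟩
      have n2 : NearG p r (8 * Real.sqrt δ)
          {η | HC η (j * l + l) (j * l + 4 * l) 0 (2 * l)} := by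
        refine ⟨⟨_, localOn_HC _ _ _ _⟩, ?_⟩
        have h1 := PT_HC_shf p r 0 (3 * l) 0 (2 * l) (j * l + l) 0
        have f1 : (0 : ℤ) + (j * l + l) = j * l + l := by ring
        have f2 : 3 * (l : ℤ) + (j * l + l) = j * l + 4 * l := by ring
        rw [f1, f2, add_zero, add_zero] at h1
        rw [h1]
        exact h3
      have n3 : NearG p r (Real.sqrt δ)
          {η | VC η (j * l + l) (j * l + 3 * l) 0 (2 * l)} := by
        refine ⟨⟨_, localOn_VC _ _ _ _⟩, ?_⟩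
        have h1 := PT_VC_shf p r 0 (2 * l) 0 (2 * l) (j * l + l) 0
        have f1 : (0 : ℤ) + (j * l + l) = j * l + l := by ring
        have f2 : 2 * (l : ℤ) + (j * l + l) = j * l + 3 * l := by ring
        rw [f1, f2, add_zero, add_zero] at h1
        rw [h1, PT_VC_eq_HC]
        linarith
      have n4 := (n1.inter n2).inter n3
      refine le_trans ?_ (n4.2.trans (PT_mono ?_))
      · push_cast
        linarith
      · rintro η ⟨⟨k1, k2⟩, k3⟩
        have k4 := near_step hL (m := j * l) (by positivity) k1 k2 k3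
        simp only [Set.mem_ofPred_eq]
        have f3 : ((j + 1 : ℕ) : ℤ) * l + 3 * l = j * l + 4 * l := by push_cast; ring
        rw [f3]
        exact k4
  have h4 := key 9
  have f4 : ((9 : ℕ) : ℤ) * l + 3 * l = 12 * l := by push_cast; ring
  rw [f4] at h4
  refine le_trans ?_ h4
  have := Real.sqrt_nonneg δ
  push_cast
  linarith

end Pool.Agent.H83.Site

end

section

/-! # Finite size criterion: connections to infinity, absence of percolation -/

set_option autoImplicit false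

open MeasureTheory ProbabilityTheory unitInterval

namespace Pool.Agent.H83.Site

open Pool.Agent.H89.Perc

/-- One step of the chain, from a horizontal to a vertical crossing. -/
private theorem chain_hv {η : Config} {u : TV} {n : ℤ} (hn : 1 ≤ n)
    (h1 : ∃ y y' : ℤ, TConn η (TR 0 (4 * n) 1 n) (0, y, false) (4 * n, y', false) ∧
      TConn η Set.univ u (0, y, false))
    (h2 : VC η 1 (2 * n) 0 (4 * (2 * n))) :
    ∃ x x' : ℤ, TConn η (TR 1 (2 * n) 0 (4 * (2 * n))) (x, 0, false) (x', 4 * (2 * n), false) ∧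
      TConn η Set.univ u (x, 0, false) := by
  obtain ⟨y, y', hc, hu⟩ := h1
  obtain ⟨x, x', hv⟩ := h2
  refine ⟨x, x', hv, ?_⟩
  obtain ⟨z, z', h3, h4, -⟩ := hc.cross_x (a := 1) (b := 2 * n)
    (by simp only [fx_site]; omega) (by simp only [fx_site]; omega) (by omega)
  rw [TR_inter_x (by omega) (by omega)] at h3
  have h5 : TConn η (TR 1 (2 * n) 0 (4 * (2 * n))) (1, z, false) (2 * n, z', false) :=
    h3.mono_set (TR_mono le_rfl le_rfl (by omega) (by omega))
  have h6 := glue_hv h5 hv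
  exact (hu.trans (h4.mono_set (Set.subset_univ _))).trans (h6.mono_set (Set.subset_univ _))

/-- One step of the chain, from a vertical to a horizontal crossing. -/
private theorem chain_vh {η : Config} {u : TV} {n : ℤ} (hn : 1 ≤ n)
    (h1 : ∃ x x' : ℤ, TConn η (TR 1 n 0 (4 * n)) (x, 0, false) (x', 4 * n, false) ∧
      TConn η Set.univ u (x, 0, false))
    (h2 : HC η 0 (4 * (2 * n)) 1 (2 * n)) :
    ∃ y y' : ℤ, TConn η (TR 0 (4 * (2 * n)) 1 (2 * n)) (0, y, false) (4 * (2 * n), y', false) ∧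
      TConn η Set.univ u (0, y, false) := by
  obtain ⟨x, x', hc, hu⟩ := h1
  obtain ⟨y, y', hv⟩ := h2
  refine ⟨y, y', hv, ?_⟩
  obtain ⟨z, z', h3, h4, -⟩ := hc.cross_y (c := 1) (d := 2 * n)
    (by simp only [fy_site]; omega) (by simp only [fy_site]; omega) (by omega)
  rw [TR_inter_y (by omega) (by omega)] at h3
  have h5 : TConn η (TR 0 (4 * (2 * n)) 1 (2 * n)) (z, 1, false) (z', 2 * n, false) :=
    h3.mono_set (TR_mono (by omega) (by omega) le_rfl le_rfl)
  have h6 := (glue_hv hv h5).symm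
  exact (hu.trans (h4.mono_set (Set.subset_univ _))).trans (h6.mono_set (Set.subset_univ _))

/-- The events of the chain. -/
private def chainE (m k : ℕ) : Set Config :=
  if k % 2 = 0 then {η | HC η 0 (4 * ((2 ^ k * m : ℕ) : ℤ)) 1 ((2 ^ k * m : ℕ) : ℤ)}
  else {η | VC η 1 ((2 ^ k * m : ℕ) : ℤ) 0 (4 * ((2 ^ k * m : ℕ) : ℤ))}

private theorem chain_det {η : Config} {m : ℕ} (hm : 1 ≤ m) (J : ℕ)
    (h : ∀ k ≤ 2 * J, η ∈ chainE m k) :
    ∃ u ∈ TR (0 - ((4 * m : ℕ) : ℤ)) (0 + ((4 * m : ℕ) : ℤ)) (0 - ((4 * m : ℕ) : ℤ))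
        (0 + ((4 * m : ℕ) : ℤ)),
      ∃ y y' : ℤ, TConn η (TR 0 (4 * ((2 ^ (2 * J) * m : ℕ) : ℤ)) 1 ((2 ^ (2 * J) * m : ℕ) : ℤ))
        (0, y, false) (4 * ((2 ^ (2 * J) * m : ℕ) : ℤ), y', false) ∧
        TConn η Set.univ u (0, y, false) := by
  induction J with
  | zero =>
    have h0 := h 0 le_rfl
    rw [chainE, if_pos (by norm_num)] at h0
    obtain ⟨y, y', hc⟩ := h0
    refine ⟨(0, y, false), ?_, y, y', ?_, ?_⟩
    · have := hc.mem_left
      rw [mem_TR_site] at this ⊢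
      simp only [pow_zero, one_mul] at this
      push_cast
      omega
    · simpa using hc
    · exact TConn.refl (Set.mem_univ _) hc.open_left
  | succ J ih =>
    obtain ⟨u, hu, h1⟩ := ih (fun k hk => h k (by omega))
    refine ⟨u, hu, ?_⟩
    have hB := h (2 * J + 1) (by omega)
    have hA := h (2 * (J + 1)) le_rfl
    rw [chainE, if_neg (by omega)] at hB
    rw [chainE, if_pos (by omega)] at hA
    have hn : (1 : ℤ) ≤ ((2 ^ (2 * J) * m : ℕ) : ℤ) := by
      have : 1 ≤ 2 ^ (2 * J) * m := Nat.one_le_iff_ne_zero.2 (by positivity)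
      exact_mod_cast this
    have e1 : ((2 ^ (2 * J + 1) * m : ℕ) : ℤ) = 2 * ((2 ^ (2 * J) * m : ℕ) : ℤ) := by
      push_cast; ring
    have e2 : ((2 ^ (2 * (J + 1)) * m : ℕ) : ℤ) = 2 * (2 * ((2 ^ (2 * J) * m : ℕ) : ℤ)) := by
      push_cast; ring
    rw [e1] at hB
    rw [e2] at hA ⊢
    have h2 := chain_hv hn h1 hB
    exact chain_vh (by omega) h2 hA

private theorem chain_prob {p : I} {r : Bool} {m : ℕ} (hm : 1 ≤ m) (h : qc p r m ≤ 1 / 242)
    (k : ℕ) : PT p r (chainE m k)ᶜ ≤ 1 / 121 * (1 / 2) ^ (2 ^ k) := by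
  have hn : 1 ≤ 2 ^ k * m := Nat.one_le_iff_ne_zero.2 (by positivity)
  have h1 := qc_iter hm h k
  rw [qc_eq p r hn] at h1
  unfold chainE
  split_ifs
  · rw [PT_compl (localOn_HC _ _ _ _)]
    exact h1
  · rw [PT_compl (localOn_VC _ _ _ _), PT_VC_eq_HC]
    exact h1

private theorem sum_sq_le (K : ℕ) :
    ∑ k ∈ Finset.range K, (1 / 121 : ℝ) * (1 / 2) ^ (2 ^ k) ≤ 1 / 2 := by
  have h1 : ∀ k : ℕ, (1 / 2 : ℝ) ^ (2 ^ k) ≤ (1 / 2) ^ k := by
    intro k
    exact pow_le_pow_of_le_one (by norm_num) (by norm_num) (Nat.lt_two_pow_self).le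
  have h2 : ∑ k ∈ Finset.range K, (1 / 2 : ℝ) ^ k ≤ 2 := by
    have := geom_sum_eq (x := (1 / 2 : ℝ)) (by norm_num) K
    rw [this]
    have h3 : (0 : ℝ) ≤ (1 / 2) ^ K := by positivity
    rw [div_le_iff_of_neg (by norm_num)]
    linarith
  rw [← Finset.mul_sum]
  have h3 : ∑ k ∈ Finset.range K, (1 / 2 : ℝ) ^ (2 ^ k) ≤ 2 :=
    (Finset.sum_le_sum fun k _ => h1 k).trans h2
  linarith

/-- A chain of crossings of larger and larger rectangles. -/
theorem fs_chain {p : I} {r : Bool} {m : ℕ} (hm : 1 ≤ m) (h : qc p r m ≤ 1 / 242) {N : ℕ}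
    (hN : 4 * m ≤ N) : 1 / 2 ≤ ab p r (4 * m) N := by
  have hsub : (AB 0 0 (4 * m) N)ᶜ ⊆ ⋃ k ∈ Finset.range (2 * N + 1), (chainE m k)ᶜ := by
    intro η hη
    by_contra hc
    apply hη
    simp only [Set.mem_iUnion, Set.mem_compl_iff, not_exists, not_not, Finset.mem_range] at hc
    obtain ⟨u, hu, y, y', h1, h2⟩ := chain_det (η := η) hm N (fun k hk => hc k (by omega))
    have h3 := h2.trans (h1.mono_set (Set.subset_univ _))
    refine h3.mem_AB hN hu ?_
    right; left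
    simp only [fx_site]
    have h4 : N ≤ 4 * (2 ^ (2 * N) * m) := by
      have h5 : N < 2 ^ (2 * N) := lt_of_lt_of_le Nat.lt_two_pow_self
        (Nat.pow_le_pow_right (by norm_num) (by omega))
      nlinarith
    have h6 : (N : ℤ) ≤ 4 * ((2 ^ (2 * N) * m : ℕ) : ℤ) := by exact_mod_cast h4
    linarith
  have h1 : PT p r (AB 0 0 (4 * m) N)ᶜ ≤ 1 / 2 := by
    refine (PT_mono hsub).trans ((PT_biUnion_le _ _).trans ?_)
    exact (Finset.sum_le_sum fun k _ => chain_prob hm h k).trans (sum_sq_le _)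
  rw [PT_compl (localOn_AB 0 0 (4 * m) N)] at h1
  unfold ab
  linarith

private theorem chain_thT_antitone (r : Bool) :
    Antitone (fun n : ℕ => {ω : Config | full r ω ∈ AB 0 0 0 n}) := by
  intro n n' hn ω hω
  exact AB_mono (x := 0) (y := 0) le_rfl hn (Nat.zero_le _) hω

private theorem chain_thT_set (r : Bool) :
    {ω : Config | full r ω ∈ {η | ∀ n, η ∈ AB 0 0 0 n}} =
      ⋂ n : ℕ, {ω : Config | full r ω ∈ AB 0 0 0 n} := by
  ext ω
  simp

open Filter Topology in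
private theorem chain_tendsto (p : I) (r : Bool) :
    Tendsto (fun n => ab p r 0 n) atTop (𝓝 (thT p r)) := by
  have h : Tendsto (fun n : ℕ => μ p {ω : Config | full r ω ∈ AB 0 0 0 n}) atTop
      (𝓝 (μ p (⋂ n : ℕ, {ω : Config | full r ω ∈ AB 0 0 0 n}))) :=
    tendsto_measure_iInter_atTop
      (fun n => ((localOn_full r (localOn_AB 0 0 0 n)).measurableSet).nullMeasurableSet)
      (chain_thT_antitone r) ⟨0, measure_ne_top _ _⟩
  have h2 := (ENNReal.tendsto_toReal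
    (measure_ne_top (μ p) (⋂ n : ℕ, {ω : Config | full r ω ∈ AB 0 0 0 n}))).comp h
  rw [thT, PT, chain_thT_set]
  exact h2

/-- Continuity of the measure. -/
theorem le_thT {p : I} {r : Bool} {x : ℝ} {n₀ : ℕ} (h : ∀ n, n₀ ≤ n → x ≤ ab p r 0 n) :
    x ≤ thT p r := by
  refine ge_of_tendsto (chain_tendsto p r) ?_
  filter_upwards [Filter.eventually_ge_atTop n₀] with n hn using h n hn

theorem thT_le_ab (p : I) (r : Bool) (n : ℕ) : thT p r ≤ ab p r 0 n :=
  PT_mono fun _ h => h n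

/-- Percolation when the crossing probability of one long rectangle is close to one. -/
theorem fs_plus {p : I} {r : Bool} {m : ℕ} (hm : 1 ≤ m) (h : qc p r m ≤ 1 / 242) :
    0 < thT p r := by
  classical
  set s : ℕ := 4 * m with hs
  set Q : Finset (ℤ × ℤ) := Finset.Icc (-(s : ℤ)) s ×ˢ Finset.Icc (-(s : ℤ)) s with hQ
  have hQpos : (0 : ℝ) < Q.card := by
    have : 0 < Q.card := Finset.card_pos.2 ⟨(0, 0), by
      rw [hQ, Finset.mem_product, Finset.mem_Icc]; simp⟩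
    exact_mod_cast this
  have hsub : ∀ n : ℕ, AB 0 0 s (n + s) ⊆ ⋃ v ∈ Q, AB v.1 v.2 0 n := by
    rintro n η ⟨u, hu, w, hw, hc⟩
    -- a site `v` of the square which is joined to `w`
    have key : ∃ a b : ℤ, -(s : ℤ) ≤ a ∧ a ≤ s ∧ -(s : ℤ) ≤ b ∧ b ≤ s ∧
        TConn η (TR (0 - ((n + s : ℕ) : ℤ)) (0 + ((n + s : ℕ) : ℤ)) (0 - ((n + s : ℕ) : ℤ))
          (0 + ((n + s : ℕ) : ℤ))) (a, b, false) w := by
      obtain ⟨a, b, t⟩ := u
      cases t
      · rw [mem_TR_site] at hu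
        exact ⟨a, b, by omega, by omega, by omega, by omega, hc⟩
      · rw [mem_TR_cen] at hu
        obtain ⟨h1, h2, h3⟩ := hc
        rcases Relation.ReflTransGen.cases_head h3 with h4 | ⟨v, h4, h5⟩
        · exfalso
          have := hw.2.1
          rw [← h4] at this
          simp at this
        · obtain ⟨a', b', t'⟩ := v
          have hadj := h4.2.2.1
          unfold TAdj at hadj
          simp only [Bool.true_eq_false, false_and, false_or, true_and] at hadj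
          obtain ⟨ht, h6, h7⟩ := hadj
          subst ht
          refine ⟨a', b', by omega, by omega, by omega, by omega, h4.2.1, h4.2.2.2.2, h5⟩
    obtain ⟨a, b, ha1, ha2, hb1, hb2, hc'⟩ := key
    simp only [Set.mem_iUnion]
    refine ⟨(a, b), ?_, ?_⟩
    · rw [hQ, Finset.mem_product, Finset.mem_Icc, Finset.mem_Icc]
      exact ⟨⟨ha1, ha2⟩, hb1, hb2⟩
    · refine hc'.mem_AB (Nat.zero_le _) ?_ ?_
      · rw [mem_TR_site]; simp
      · obtain ⟨h1, h2, h3⟩ := hw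
        rw [fx_even h2, fy_even h2]
        push_cast at h3
        simp only
        omega
  have hlow : ∀ n : ℕ, 1 / 2 / (Q.card : ℝ) ≤ ab p r 0 n := by
    intro n
    have h1 : 1 / 2 ≤ ab p r s (n + s) := fs_chain hm h (by omega)
    have h2 : ab p r s (n + s) ≤ ∑ v ∈ Q, ab p r 0 n := by
      refine (PT_mono (hsub n)).trans ((PT_biUnion_le _ _).trans ?_)
      exact Finset.sum_le_sum fun v _ => (PT_AB p r v.1 v.2 0 n).le
    rw [Finset.sum_const, nsmul_eq_mul] at h2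
    rw [div_le_iff₀ hQpos]
    linarith
  have := le_thT (p := p) (r := r) (n₀ := 0) (fun n _ => hlow n)
  refine lt_of_lt_of_le ?_ this
  positivity

/-- The arm to distance `M` crosses one of four rectangles. -/
private theorem chain_arm_sub {M : ℕ} (hM : 1 ≤ M) :
    AB 0 0 0 M ⊆ (({η | VC η (-M) M 1 M} ∪ {η | VC η (-M) M (-M) (-1)}) ∪
      {η | HC η 1 M (-M) M}) ∪ {η | HC η (-M) (-1) (-M) M} := by
  rintro η ⟨u, hu, w, hw, hc⟩
  obtain ⟨h1, h2, h3⟩ := hw
  rw [mem_TR] at hu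
  simp only [Nat.cast_zero, sub_zero, add_zero, mul_zero, zero_sub, zero_add] at hu h3 hc h1
  have hMz : (1 : ℤ) ≤ M := by exact_mod_cast hM
  rcases h3 with h3 | h3 | h3 | h3
  · right
    obtain ⟨y, y', h4, -, -⟩ := hc.symm.cross_x (a := -M) (b := -1)
      (by rw [fx_even h2]; omega) (by omega) (by omega)
    rw [TR_inter_x (by omega) (by omega)] at h4
    exact ⟨y, y', h4⟩
  · left; right
    obtain ⟨y, y', h4, -, -⟩ := hc.cross_x (a := 1) (b := M)
      (by omega) (by rw [fx_even h2]; omega) (by omega)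
    rw [TR_inter_x (by omega) (by omega)] at h4
    exact ⟨y, y', h4⟩
  · left; left; right
    obtain ⟨y, y', h4, -, -⟩ := hc.symm.cross_y (c := -M) (d := -1)
      (by rw [fy_even h2]; omega) (by omega) (by omega)
    rw [TR_inter_y (by omega) (by omega)] at h4
    exact ⟨y, y', h4⟩
  · left; left; left
    obtain ⟨y, y', h4, -, -⟩ := hc.cross_y (c := 1) (d := M)
      (by omega) (by rw [fy_even h2]; omega) (by omega)
    rw [TR_inter_y (by omega) (by omega)] at h4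
    exact ⟨y, y', h4⟩

private theorem chain_arm_le {p : I} {r : Bool} {M : ℕ} (hM : 1 ≤ M) :
    ab p r 0 M ≤ 4 * qc (σ p) (!r) M := by
  have hq : qc (σ p) (!r) M = PT p r {η | VC η 0 (4 * M) 1 M} := by
    unfold qc
    have := PT_neg (p := σ p) (r := !r) (localOn_VC 0 (4 * (M : ℤ)) 1 M)
    rw [σσ, Bool.not_not] at this
    exact this
  have hMz : (1 : ℤ) ≤ M := by exact_mod_cast hM
  have hv : ∀ a c : ℤ, PT p r {η | VC η a (a + 2 * M) c (c + (M - 1))} ≤
      PT p r {η | VC η 0 (4 * M) 1 M} := by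
    intro a c
    have h1 := PT_VC_shf p r 0 (2 * M) 1 M a (c - 1)
    have e1 : (0 : ℤ) + a = a := by ring
    have e2 : 2 * (M : ℤ) + a = a + 2 * M := by ring
    have e3 : 1 + (c - 1) = c := by ring
    have e4 : (M : ℤ) + (c - 1) = c + (M - 1) := by ring
    rw [e1, e2, e3, e4] at h1
    rw [h1]
    exact PT_mono fun η hη => VC.mono hη le_rfl (by omega) le_rfl hMz le_rfl
  have h1 : PT p r {η | VC η (-M) M 1 M} ≤ PT p r {η | VC η 0 (4 * M) 1 M} := by
    have := hv (-M) 1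
    have e1 : -(M : ℤ) + 2 * M = M := by ring
    have e2 : 1 + ((M : ℤ) - 1) = M := by ring
    rwa [e1, e2] at this
  have h2 : PT p r {η | VC η (-M) M (-M) (-1)} ≤ PT p r {η | VC η 0 (4 * M) 1 M} := by
    have := hv (-M) (-M)
    have e1 : -(M : ℤ) + 2 * M = M := by ring
    have e2 : -(M : ℤ) + (M - 1) = -1 := by ring
    rwa [e1, e2] at this
  have h3 : PT p r {η | HC η 1 M (-M) M} ≤ PT p r {η | VC η 0 (4 * M) 1 M} := by
    rw [← PT_VC_eq_HC]; exact h1
  have h4 : PT p r {η | HC η (-M) (-1) (-M) M} ≤ PT p r {η | VC η 0 (4 * M) 1 M} := by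
    rw [← PT_VC_eq_HC]; exact h2
  have h5 : ab p r 0 M ≤ ((PT p r {η | VC η (-M) M 1 M} + PT p r {η | VC η (-M) M (-M) (-1)}) +
      PT p r {η | HC η 1 M (-M) M}) + PT p r {η | HC η (-M) (-1) (-M) M} := by
    refine (PT_mono (chain_arm_sub hM)).trans ?_
    refine PT_union_le.trans (add_le_add ?_ le_rfl)
    refine PT_union_le.trans (add_le_add ?_ le_rfl)
    exact PT_union_le
  rw [hq]
  linarith

open Filter Topology in
/-- No percolation when the crossing probability of one long rectangle for the matching lattice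
is close to one. -/
theorem fs_minus {p : I} {r : Bool} {m : ℕ} (hm : 1 ≤ m) (h : qc (σ p) (!r) m ≤ 1 / 242) :
    thT p r = 0 := by
  have h1 : ∀ k : ℕ, thT p r ≤ (1 / 2 : ℝ) ^ k := by
    intro k
    have hn : 1 ≤ 2 ^ k * m := Nat.one_le_iff_ne_zero.2 (by positivity)
    have h2 := (thT_le_ab p r (2 ^ k * m)).trans (chain_arm_le hn)
    have h3 := qc_iter hm h k
    have h4 : (1 / 2 : ℝ) ^ (2 ^ k) ≤ (1 / 2) ^ k :=
      pow_le_pow_of_le_one (by norm_num) (by norm_num) (Nat.lt_two_pow_self).le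
    have h5 : (0 : ℝ) ≤ (1 / 2 : ℝ) ^ (2 ^ k) := by positivity
    linarith
  have h2 : Tendsto (fun k : ℕ => (1 / 2 : ℝ) ^ k) atTop (𝓝 0) :=
    tendsto_pow_atTop_nhds_zero_of_lt_one (by norm_num) (by norm_num)
  have h3 : thT p r ≤ 0 := ge_of_tendsto h2 (Filter.Eventually.of_forall h1)
  exact le_antisymm h3 PT_nonneg

end Pool.Agent.H83.Site

end

section

/-! # Russo-Seymour-Welsh for probabilities bounded away from zero -/

set_option autoImplicit false

open MeasureTheory ProbabilityTheory unitInterval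

namespace Pool.Agent.H83.Site

open Pool.Agent.H89.Perc

/-- The left end of a crossing of the square `[0, n]²` is joined to the top of
`[0, 2 n] × [0, m]`. -/
private def XV (n m : ℤ) : Set Config :=
  {η | ∃ y y' x : ℤ, TConn η (TR 0 n 0 n) (0, y, false) (n, y', false) ∧
    TConn η (TR 0 (2 * n) 0 m) (0, y, false) (x, m, false)}

/-- The mirror image of `XV n m`. -/
private def XV' (n m : ℤ) : Set Config :=
  {η | ∃ y y' x : ℤ, TConn η (TR 0 n 0 n) (0, y, false) (n, y', false) ∧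
    TConn η (TR 0 (2 * n) (n - m) n) (0, y, false) (x, n - m, false)}

private theorem localOn_XV {n m : ℤ} (hn : 0 ≤ n) (hnm : n ≤ m) :
    LocalOn (eRect 0 (2 * n) 0 m) (XV n m) := by
  rintro η η' h ⟨y, y', x, h1, h2⟩
  refine ⟨y, y', x, h1.congr fun v hv => h v (TR_subset_eRect ?_),
    h2.congr fun v hv => h v (TR_subset_eRect hv)⟩
  exact TR_mono le_rfl (by omega) le_rfl hnm hv

private theorem incr_XV (n m : ℤ) : Incr (XV n m) := by
  rintro η η' h ⟨y, y', x, h1, h2⟩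
  exact ⟨y, y', x, h1.mono le_rfl fun v _ => h v, h2.mono le_rfl fun v _ => h v⟩

private theorem localOn_XV' {n m : ℤ} (hn : 0 ≤ n) (hnm : n ≤ m) :
    LocalOn (eRect 0 (2 * n) (n - m) n) (XV' n m) := by
  rintro η η' h ⟨y, y', x, h1, h2⟩
  refine ⟨y, y', x, h1.congr fun v hv => h v (TR_subset_eRect ?_),
    h2.congr fun v hv => h v (TR_subset_eRect hv)⟩
  exact TR_mono le_rfl (by omega) (by omega) le_rfl hv

private theorem incr_XV' (n m : ℤ) : Incr (XV' n m) := by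
  rintro η η' h ⟨y, y', x, h1, h2⟩
  exact ⟨y, y', x, h1.mono le_rfl fun v _ => h v, h2.mono le_rfl fun v _ => h v⟩

private theorem rfy_site (z x y : ℤ) : rfy z (x, y, false) = (x, z - y, false) := by
  simp [rfy]

private theorem XV'_eq (n m : ℤ) :
    {η : Config | (fun v => η (rfy n v)) ∈ XV n m} = XV' n m := by
  ext η
  constructor
  · rintro ⟨y, y', x, h1, h2⟩
    rw [tconn_rfy, rfy_site, rfy_site] at h1 h2
    refine ⟨n - y, n - y', x, ?_, ?_⟩
    · simpa using h1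
    · simpa using h2
  · rintro ⟨y, y', x, h1, h2⟩
    refine ⟨n - y, n - y', x, ?_, ?_⟩
    · rw [tconn_rfy, rfy_site, rfy_site]
      simpa using h1
    · rw [tconn_rfy, rfy_site, rfy_site]
      simpa using h2

private theorem PT_XV' (p : I) (r : Bool) {n m : ℤ} (hn : 0 ≤ n) (hnm : n ≤ m) :
    PT p r (XV' n m) = PT p r (XV n m) := by
  rw [← XV'_eq, PT_comp (localOn_XV hn hnm) (rfy_injective n).injOn (fun _ => rfl)]

private theorem LJ_subset_XV {n m : ℤ} (hn : 0 ≤ n) (hnm : n ≤ m) : LJ n 0 n m ⊆ XV n m := by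
  rintro η ⟨h1, h2⟩
  obtain ⟨y, y', h⟩ := low_exists hn hn h1
  obtain ⟨x, hx⟩ := low_joined hnm h h2
  exact ⟨y, y', x, h.mono le_rfl fun v _ hv => (zet_eq_true.1 hv).1, hx⟩

private theorem glue_XV {n m : ℤ} (hn : 0 ≤ n) (hnm : n ≤ m) :
    (XV n m ∩ XV' n m) ∩ {η | VC η 0 n 0 n} ⊆ {η | VC η 0 (2 * n) (n - m) m} := by
  rintro η ⟨⟨⟨y, y', x, h1, h2⟩, ⟨z, z', x', h1', h2'⟩⟩, ⟨w, w', h3⟩⟩
  have h4 := glue_hv h1 h3
  have h5 := glue_hv h1' h3
  have h6 := (h5.trans h4.symm).mono_set (TR_mono (a' := 0) (b' := 2 * n) (c' := n - m) (d' := m)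
    le_rfl (by omega) (by omega) hnm)
  have h7 := h2.mono_set (TR_mono (a' := 0) (b' := 2 * n) (c' := n - m) (d' := m)
    le_rfl le_rfl (by omega) le_rfl)
  have h8 := h2'.mono_set (TR_mono (a' := 0) (b' := 2 * n) (c' := n - m) (d' := m)
    le_rfl le_rfl le_rfl hnm)
  exact ⟨x', x, (h8.symm.trans h6).trans h7⟩

private theorem half_le_sqrt {v : ℝ} (h0 : 0 ≤ v) (h1 : v ≤ 1) : v / 2 ≤ 1 - Real.sqrt (1 - v) := by
  have h2 : Real.sqrt (1 - v) ≤ 1 - v / 2 := by
    rw [Real.sqrt_le_left (by linarith)]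
    nlinarith
  linarith

/-- One step of the iteration, from height `m` to height `2 m - n`. -/
private theorem bdd_step (p : I) (r : Bool) {n m : ℤ} (hn : 0 ≤ n) (hnm : n ≤ m) {δ v : ℝ}
    (hδ : 0 ≤ δ) (hv0 : 0 ≤ v) (hH : δ ≤ PT p r {η | HC η 0 n 0 n})
    (hv : v ≤ PT p r {η | VC η 0 (2 * n) 0 m}) :
    (δ * (v / 2)) ^ 2 * δ ≤ PT p r {η | VC η 0 (2 * n) 0 (2 * m - n)} := by
  have h1 : δ * (v / 2) ≤ PT p r (XV n m) := by
    refine le_trans ?_ (PT_mono (LJ_subset_XV hn hnm))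
    refine le_trans ?_ (expl_prob p r hn hn hnm)
    have h2 := half_le_sqrt (v := PT p r {η | VC η 0 (2 * n) 0 m}) PT_nonneg PT_le_one
    have h3 : v / 2 ≤ 1 - Real.sqrt (1 - PT p r {η | VC η 0 (2 * n) 0 m}) := by linarith
    exact mul_le_mul hH h3 (by positivity) PT_nonneg
  have h4 : δ ≤ PT p r {η | VC η 0 n 0 n} := by rwa [PT_VC_eq_HC]
  have h5 := PT_fkg (p := p) (r := r) (localOn_XV hn hnm) (localOn_XV' hn hnm) (incr_XV n m)
    (incr_XV' n m)
  rw [PT_XV' p r hn hnm] at h5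
  have h6 := PT_fkg (p := p) (r := r) ((localOn_XV hn hnm).inter' (localOn_XV' hn hnm))
    (localOn_VC 0 n 0 n) ((incr_XV n m).inter (incr_XV' n m)) (incr_VC 0 n 0 n)
  have h7 := h6.trans (PT_mono (glue_XV hn hnm))
  have h8 : PT p r {η | VC η 0 (2 * n) (n - m) m} =
      PT p r {η | VC η 0 (2 * n) 0 (2 * m - n)} := by
    have := PT_VC_shf p r 0 (2 * n) 0 (2 * m - n) 0 (n - m)
    rw [← this]
    congr 1
    ext η
    simp only [Set.mem_ofPred_eq, zero_add, add_zero]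
    rw [show 2 * m - n + (n - m) = m by ring]
  rw [h8] at h7
  refine le_trans ?_ h7
  have h9 : (δ * (v / 2)) ^ 2 ≤ PT p r (XV n m ∩ XV' n m) := by
    refine le_trans ?_ h5
    rw [sq]
    exact mul_le_mul h1 h1 (by positivity) PT_nonneg
  exact mul_le_mul h9 h4 hδ PT_nonneg

private theorem bdd_iter {δ : ℝ} (hδ : 0 < δ) (j : ℕ) : ∃ c > (0 : ℝ), ∀ (p : I) (r : Bool),
    (∀ k : ℕ, 1 ≤ k → δ ≤ PT p r {η | HC η 0 (2 * k) 0 (2 * k)}) →
    ∀ k : ℕ, 1 ≤ k → c ≤ PT p r {η | VC η 0 (2 * (2 * k)) 0 ((2 ^ j + 1) * (2 * k))} := by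
  induction j with
  | zero =>
    refine ⟨δ, hδ, fun p r h k hk => ?_⟩
    have h1 := h (2 * k) (by omega)
    rw [PT_VC_eq_HC]
    push_cast at h1
    have e : ((2 : ℤ) ^ 0 + 1) * (2 * (k : ℤ)) = 2 * (2 * k) := by ring
    rw [e]
    exact h1
  | succ j ih =>
    obtain ⟨c, hc, hstep⟩ := ih
    refine ⟨(δ * (c / 2)) ^ 2 * δ, by positivity, fun p r h k hk => ?_⟩
    have h1 := hstep p r h k hk
    have h2 : ((2 : ℤ) * k) ≤ (2 ^ j + 1) * (2 * k) := by
      have : (0 : ℤ) < 2 ^ j := by positivity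
      nlinarith
    have h3 := bdd_step p r (n := 2 * k) (m := (2 ^ j + 1) * (2 * k)) (by omega) h2 hδ.le hc.le
      (h k hk) h1
    have e : (2 : ℤ) * ((2 ^ j + 1) * (2 * k)) - 2 * k = (2 ^ (j + 1) + 1) * (2 * k) := by
      ring
    rwa [e] at h3

private theorem localOn_site (v : TV) : LocalOn {v} {η : Config | η v = true} := by
  intro η η' h hA
  have : η v = η' v := h v (by simp)
  simp only [Set.mem_ofPred_eq] at hA ⊢
  rw [← this]
  exact hA

private theorem incr_site (v : TV) : Incr {η : Config | η v = true} := fun _ _ h hA => h v hA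

/-- All sites of a row are open. -/
private theorem row_prob (p : I) (r : Bool) {q : ℝ} (hq : 0 ≤ q)
    (h : ∀ x : ℤ, q ≤ PT p r {η | η (x, 0, false) = true}) (N : ℕ) :
    q ^ (N + 1) ≤ PT p r {η | ∀ i ≤ N, η ((i : ℤ), 0, false) = true} ∧
      ∃ s, LocalOn s {η : Config | ∀ i ≤ N, η ((i : ℤ), 0, false) = true} := by
  classical
  induction N with
  | zero =>
    have e : {η : Config | ∀ i ≤ (0 : ℕ), η ((i : ℤ), 0, false) = true} =
        {η | η (0, 0, false) = true} := by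
      ext η
      simp only [Set.mem_ofPred_eq, Nat.le_zero, forall_eq, Nat.cast_zero]
    rw [e]
    exact ⟨by simpa using h 0, _, localOn_site _⟩
  | succ N ih =>
    obtain ⟨h1, s, h2⟩ := ih
    have e : {η : Config | ∀ i ≤ N + 1, η ((i : ℤ), 0, false) = true} =
        {η : Config | ∀ i ≤ N, η ((i : ℤ), 0, false) = true} ∩
          {η | η (((N + 1 : ℕ) : ℤ), 0, false) = true} := by
      ext η
      simp only [Set.mem_ofPred_eq, Set.mem_inter_iff]
      constructor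
      · exact fun h => ⟨fun i hi => h i (by omega), h (N + 1) le_rfl⟩
      · rintro ⟨h, h'⟩ i hi
        rcases Nat.lt_or_ge N i with hi' | hi'
        · obtain rfl : i = N + 1 := by omega
          exact h'
        · exact h i hi'
    have hi : Incr {η : Config | ∀ i ≤ N, η ((i : ℤ), 0, false) = true} :=
      fun _ _ h hA i hi => h _ (hA i hi)
    rw [e]
    refine ⟨?_, _, h2.inter' (localOn_site _)⟩
    refine le_trans ?_ (PT_fkg h2 (localOn_site _) hi (incr_site _))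
    rw [pow_succ]
    exact mul_le_mul h1 (h _) hq PT_nonneg

private theorem row_subset {m : ℤ} (hm : 0 ≤ m) (N : ℕ) :
    {η : Config | ∀ i ≤ N, η ((i : ℤ), 0, false) = true} ⊆ {η | HC η 0 N 0 m} := by
  intro η h
  refine ⟨0, 0, ?_⟩
  have key : ∀ i : ℕ, i ≤ N → TConn η (TR 0 N 0 m) (0, 0, false) ((i : ℤ), 0, false) := by
    intro i
    induction i with
    | zero =>
      intro _
      exact TConn.refl (mem_TR_site.2 ⟨le_rfl, by omega, le_rfl, hm⟩) (by
        simpa using h 0 (Nat.zero_le _))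
    | succ i ih =>
      intro hi
      refine (ih (by omega)).tail ⟨mem_TR_site.2 ⟨by omega, by omega, le_rfl, hm⟩,
        mem_TR_site.2 ⟨by omega, by omega, le_rfl, hm⟩, ?_, h i (by omega), h (i + 1) hi⟩
      refine Or.inl ⟨rfl, rfl, Or.inr ⟨rfl, Or.inr ?_⟩⟩
      push_cast
      ring
  exact key N le_rfl

private theorem PT_site (p : I) (r : Bool) (x y : ℤ) :
    PT p r {η | η (x, y, false) = true} = PT p r {η | η (0, 0, false) = true} := by
  rw [← PT_comp (p := p) (r := r) (localOn_site (0, 0, false)) (shf_injective x y).injOn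
    (fun _ => rfl)]
  congr 1
  ext η
  simp [shf]

private theorem site_prob (p : I) (r : Bool) {δ : ℝ}
    (h : δ ≤ PT p r {η | HC η 0 2 0 2}) : δ / 3 ≤ PT p r {η | η (0, 0, false) = true} := by
  have h1 : {η : Config | HC η 0 2 0 2} ⊆ ({η | η (0, 0, false) = true} ∪
      {η | η (0, 1, false) = true}) ∪ {η | η (0, 2, false) = true} := by
    rintro η ⟨y, y', hc⟩
    have h2 := mem_TR_site.1 hc.mem_left
    have h3 := hc.open_left
    have h4 : y = 0 ∨ y = 1 ∨ y = 2 := by omega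
    rcases h4 with rfl | rfl | rfl
    · exact Or.inl (Or.inl h3)
    · exact Or.inl (Or.inr h3)
    · exact Or.inr h3
  have h2 := (PT_mono (p := p) (r := r) h1).trans (PT_union_le.trans
    (add_le_add_left PT_union_le _))
  rw [PT_site p r 0 1, PT_site p r 0 2] at h2
  linarith

theorem bdd_rsw {δ : ℝ} (hδ : 0 < δ) (K : ℕ) : ∃ c > (0 : ℝ), ∀ (p : I) (r : Bool),
    (∀ k : ℕ, 1 ≤ k → δ ≤ PT p r {η | HC η 0 (2 * k) 0 (2 * k)}) →
    ∀ m : ℕ, 1 ≤ m → c ≤ PT p r {η | HC η 0 (K * m) 0 m} := by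
  obtain ⟨c, hc, hcP⟩ := bdd_iter hδ (4 * K)
  refine ⟨min c (min (δ / 3) 1 ^ (3 * K + 1)), by positivity, fun p r h m hm => ?_⟩
  by_cases hm4 : 4 ≤ m
  · refine (min_le_left _ _).trans ((hcP p r h (m / 4) (by omega)).trans ?_)
    rw [PT_VC_eq_HC]
    refine PT_mono fun η hη => ?_
    refine HC.mono hη le_rfl (by positivity) ?_ le_rfl (by omega)
    have h1 : 4 * K + 1 ≤ 2 ^ (4 * K) := Nat.lt_two_pow_self
    have h2 : (4 * (K : ℤ) + 1) ≤ 2 ^ (4 * K) := by exact_mod_cast h1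
    have h3 : (m : ℤ) ≤ 7 * ((m / 4 : ℕ) : ℤ) := by omega
    have h4 : (0 : ℤ) ≤ ((m / 4 : ℕ) : ℤ) := by omega
    have h5 : (0 : ℤ) ≤ K := by omega
    calc (K : ℤ) * m ≤ K * (7 * ((m / 4 : ℕ) : ℤ)) := mul_le_mul_of_nonneg_left h3 h5
      _ ≤ (4 * K + 1 + 1) * (2 * ((m / 4 : ℕ) : ℤ)) := by nlinarith
      _ ≤ (2 ^ (4 * K) + 1) * (2 * ((m / 4 : ℕ) : ℤ)) := by
        apply mul_le_mul_of_nonneg_right _ (by omega)
        omega
  · refine (min_le_right _ _).trans ?_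
    have h1 := h 1 le_rfl
    norm_num at h1
    have h2 := site_prob p r h1
    have h3 : ∀ x : ℤ, min (δ / 3) 1 ≤ PT p r {η | η (x, 0, false) = true} := fun x => by
      rw [PT_site p r x 0]
      exact (min_le_left _ _).trans h2
    have h4 := (row_prob p r (q := min (δ / 3) 1) (by positivity) h3 (K * m)).1
    have h5 : min (δ / 3) 1 ^ (3 * K + 1) ≤ min (δ / 3) 1 ^ (K * m + 1) := by
      apply pow_le_pow_of_le_one (by positivity) (min_le_right _ _)
      have : K * m ≤ K * 3 := Nat.mul_le_mul_left K (by omega)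
      omega
    refine h5.trans (h4.trans ?_)
    have h6 := row_subset (m := (m : ℤ)) (by omega) (K * m)
    push_cast at h6
    exact PT_mono h6

end Pool.Agent.H83.Site

end

section

/-! # The critical point -/

set_option autoImplicit false

open MeasureTheory ProbabilityTheory unitInterval

namespace Pool.Agent.H83.Site

open Pool.Agent.H89.Perc

/-- The critical density of site percolation on the square lattice. -/
noncomputable def pc : I := sSup {p : I | thT p false = 0}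

/-- Box crossing property. -/
def BXP (p : I) (r : Bool) : Prop :=
  ∀ K : ℕ, ∃ c > (0 : ℝ), ∀ m : ℕ, 1 ≤ m → c ≤ PT p r {η | HC η 0 (K * m) 0 m}

theorem thT_mono {p q : I} (r : Bool) (h : p ≤ q) : thT p r ≤ thT q r :=
  le_thT (n₀ := 0) fun n _ => (thT_le_ab p r n).trans (ab_mono_param r 0 n h)

theorem thT_pos_of_pc_lt {p : I} (h : pc < p) : 0 < thT p false := by
  have h0 : 0 ≤ thT p false := PT_nonneg
  rcases h0.lt_or_eq with h1 | h1
  · exact h1
  · exact absurd (le_sSup (show p ∈ {p : I | thT p false = 0} from h1.symm)) (not_le.2 h)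

theorem thT_eq_zero_of_lt_pc {p : I} (h : p < pc) : thT p false = 0 := by
  obtain ⟨q, hq, hpq⟩ := lt_sSup_iff.1 h
  have h1 : thT q false = 0 := hq
  refine le_antisymm ?_ PT_nonneg
  rw [← h1]
  exact thT_mono false hpq.le

theorem crit_Pr_zero {s : Finset Edge} {A : Set Config} (hA : LocalOn s A) (h : ofS ∅ ∉ A) :
    Pr 0 A = 0 := by
  have hc : LocalOn s (cyl s ∅) := by
    intro ω ω' hω hE
    rw [mem_cyl] at hE ⊢
    intro e he
    rw [← hω e he]
    exact hE e he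
  have hsub : A ⊆ (cyl s ∅)ᶜ := by
    intro ω hω hcyl
    rw [mem_cyl] at hcyl
    exact h (hA ω (ofS ∅) hcyl hω)
  have h1 : Pr 0 (cyl s ∅) = 1 := by
    rw [Pr_cyl 0 (Finset.empty_subset s)]
    simp
  refine le_antisymm ?_ Pr_nonneg
  refine (Pr_mono hsub).trans ?_
  rw [Pr_compl hc, h1]
  norm_num

theorem crit_qc_zero (r : Bool) {m : ℕ} (hm : 1 ≤ m) : qc 0 r m = 1 := by
  rw [qc_eq 0 r hm]
  have h : PT 0 r {η | HC η 0 (4 * m) 1 m} = 0 := by
    unfold PT
    refine crit_Pr_zero (localOn_full r (localOn_HC 0 (4 * m) 1 m)) ?_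
    rintro ⟨y, y', hc⟩
    have h1 := hc.open_left
    simp [full, ofS] at h1
  rw [h]
  norm_num

theorem crit_qc_continuous (r : Bool) (m : ℕ) : Continuous (fun p : I => qc p r m) :=
  PT_continuous (LocalOn.neg (localOn_VC 0 (4 * m) 1 m)) r

theorem crit_exists_lt {f : I → ℝ} (hf : Continuous f) {x : ℝ} {a : I} (ha : f a < x)
    (h0 : 0 < a) : ∃ b < a, f b < x := by
  have h1 : {p : I | f p < x} ∈ nhds a := (isOpen_lt hf continuous_const).mem_nhds ha
  obtain ⟨l, hl, hs⟩ := exists_Ioc_subset_of_mem_nhds h1 ⟨0, h0⟩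
  obtain ⟨b, hb1, hb2⟩ := exists_between hl
  exact ⟨b, hb2, hs ⟨hb1, hb2.le⟩⟩

theorem crit_exists_gt {f : I → ℝ} (hf : Continuous f) {x : ℝ} {a : I} (ha : f a < x)
    (h0 : a < 1) : ∃ b, a < b ∧ f b < x := by
  have h1 : {p : I | f p < x} ∈ nhds a := (isOpen_lt hf continuous_const).mem_nhds ha
  obtain ⟨l, hl, hs⟩ := exists_Ico_subset_of_mem_nhds h1 ⟨1, h0⟩
  obtain ⟨b, hb1, hb2⟩ := exists_between hl
  exact ⟨b, hb1, hs ⟨hb1.le, hb2⟩⟩

theorem crit_qc {m : ℕ} (hm : 1 ≤ m) : 1 / 242 ≤ qc pc false m ∧ 1 / 242 ≤ qc (σ pc) true m := by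
  constructor
  · by_contra hlt
    rw [not_le] at hlt
    have h0 : 0 < pc := by
      rcases (unitInterval.nonneg' : (0 : I) ≤ pc).lt_or_eq with h | h
      · exact h
      · rw [← h, crit_qc_zero false hm] at hlt
        norm_num at hlt
    obtain ⟨b, hb1, hb2⟩ := crit_exists_lt (crit_qc_continuous false m) hlt h0
    have h1 := fs_plus hm hb2.le
    rw [thT_eq_zero_of_lt_pc hb1] at h1
    exact lt_irrefl _ h1
  · by_contra hlt
    rw [not_le] at hlt
    have h0 : pc < 1 := by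
      rcases (unitInterval.le_one' : pc ≤ (1 : I)).lt_or_eq with h | h
      · exact h
      · rw [h, unitInterval.symm_one, crit_qc_zero true hm] at hlt
        norm_num at hlt
    have hcont : Continuous (fun p : I => qc (σ p) true m) :=
      (crit_qc_continuous true m).comp unitInterval.continuous_symm
    obtain ⟨b, hb1, hb2⟩ := crit_exists_gt hcont hlt h0
    have h1 : thT b false = 0 := fs_minus (p := b) (r := false) hm (by simpa using hb2.le)
    have h2 := thT_pos_of_pc_lt hb1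
    rw [h1] at h2
    exact lt_irrefl _ h2

theorem crit_dual (p : I) (r : Bool) {a b c d : ℤ} (hab : a ≤ b) (hcd : c ≤ d) :
    PT p r {η | HC η a b c d} = 1 - PT (σ p) (!r) {η | HC η c d a b} := by
  have h1 : {η : Config | HC η a b c d} = {η | VC (neg η) a b c d}ᶜ := by
    ext η
    simp only [Set.mem_ofPred_eq, Set.mem_compl_iff]
    constructor
    · intro h
      exact not_hc_and_vc h
    · intro h
      exact (hc_or_vc hab hcd η).resolve_right h
  have h4 : LocalOn (eRect a b c d) {η | VC (neg η) a b c d} :=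
    LocalOn.neg (localOn_VC a b c d)
  rw [h1, PT_compl h4]
  have h2 : PT p r {η | neg η ∈ {η | VC η a b c d}} = PT (σ p) (!r) {η | VC η a b c d} :=
    PT_neg (localOn_VC a b c d)
  have h3 : PT p r {η | VC (neg η) a b c d} = PT (σ p) (!r) {η | VC η a b c d} := h2
  rw [h3, PT_VC_eq_HC]

theorem crit_sq_aux (p : I) (r : Bool) {k : ℕ} (hk : 1 ≤ k)
    (hq : 1 / 242 ≤ qc (σ p) (!r) (2 * k + 1)) :
    (1 / 24300 : ℝ) ^ 2 ≤ PT p r {η | HC η 0 (2 * k) 0 (2 * k)} := by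
  by_contra hlt
  rw [not_le] at hlt
  have h1 := crit_dual p r (a := 0) (b := 2 * k) (c := 0) (d := 2 * k) (by positivity)
    (by positivity)
  have h2 : 1 - (1 / 24300 : ℝ) ^ 2 ≤ PT (σ p) (!r) {η | HC η 0 (2 * k) 0 (2 * k)} := by
    linarith
  have h3 := near_rsw (σ p) (!r) hk (δ := (1 / 24300 : ℝ) ^ 2) (by positivity) h2
  rw [Real.sqrt_sq (by norm_num)] at h3
  rw [qc_eq (σ p) (!r) (by omega)] at hq
  have h4 : PT (σ p) (!r) {η | HC η 0 (12 * k) 0 (2 * k)} ≤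
      PT (σ p) (!r) {η | HC η 0 (4 * ((2 * k + 1 : ℕ) : ℤ)) 1 ((2 * k + 1 : ℕ) : ℤ)} := by
    rw [← PT_HC_shf (σ p) (!r) 0 (12 * k) 0 (2 * k) 0 1]
    refine PT_mono fun η hη => ?_
    have hη' : HC η (0 + 0) (12 * k + 0) (0 + 1) (2 * k + 1) := hη
    exact hη'.mono (by omega) (by positivity) (by push_cast; omega) (by omega)
      (by push_cast; omega)
  linarith

theorem crit_squares : ∃ δ > (0 : ℝ), ∀ k : ℕ, 1 ≤ k →
    δ ≤ PT pc false {η | HC η 0 (2 * k) 0 (2 * k)} ∧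
      δ ≤ PT (σ pc) true {η | HC η 0 (2 * k) 0 (2 * k)} := by
  refine ⟨(1 / 24300 : ℝ) ^ 2, by positivity, fun k hk => ⟨?_, ?_⟩⟩
  · exact crit_sq_aux pc false hk (crit_qc (by omega)).2
  · refine crit_sq_aux (σ pc) true hk ?_
    rw [σσ]
    exact (crit_qc (by omega)).1

theorem bxp_pc : BXP pc false ∧ BXP (σ pc) true := by
  obtain ⟨δ, hδ, h⟩ := crit_squares
  constructor
  · intro K
    obtain ⟨c, hc, hK⟩ := bdd_rsw hδ K
    exact ⟨c, hc, hK pc false fun k hk => (h k hk).1⟩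
  · intro K
    obtain ⟨c, hc, hK⟩ := bdd_rsw hδ K
    exact ⟨c, hc, hK (σ pc) true fun k hk => (h k hk).2⟩

end Pool.Agent.H83.Site

end

section

/-! # Extension of arms, averages -/

set_option autoImplicit false

open MeasureTheory ProbabilityTheory unitInterval

namespace Pool.Agent.H83.Site

open Pool.Agent.H89.Perc

/-! ### Open sites -/

theorem arm_extT {p₀ : I} {r : Bool} (h : BXP p₀ r) : ∃ c > (0 : ℝ), ∀ p : I, p₀ ≤ p →
    ∀ m n : ℕ, 1 ≤ m → m ≤ n → c * Real.sqrt ((m : ℝ) / n) * ab p r 0 m ≤ ab p r 0 n := by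
  obtain ⟨c4, hc4, H4⟩ := h 4
  obtain ⟨c2, hc2, H2⟩ := h 2
  obtain ⟨c', hc', HL⟩ := ab_lower hc2
  have HL' := HL p₀ r H2
  have hc41 : c4 ≤ 1 := (H4 1 le_rfl).trans PT_le_one
  have hc44 : c4 ^ 4 ≤ 1 := pow_le_one₀ hc4.le hc41
  refine ⟨c' * (c4 ^ 4 / 2), by positivity, fun p hp m n hm hmn => ?_⟩
  have hn : 1 ≤ n := hm.trans hmn
  have hn0 : (0 : ℝ) < n := by exact_mod_cast hn
  have hm0 : (0 : ℝ) < m := by exact_mod_cast hm
  have hsq : 0 ≤ Real.sqrt ((m : ℝ) / n) := Real.sqrt_nonneg _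
  by_cases hm1 : m = 1
  · subst hm1
    have h1 := HL' p hp 0 n (by omega) hn
    have h2 : Real.sqrt ((((0 : ℕ) : ℝ) + 1) / n) = Real.sqrt (((1 : ℕ) : ℝ) / n) := by
      norm_num
    rw [h2] at h1
    refine le_trans ?_ h1
    have h3 : ab p r 0 1 ≤ 1 := ab_le_one
    have h4 : 0 ≤ ab p r 0 1 := ab_nonneg
    calc c' * (c4 ^ 4 / 2) * Real.sqrt (((1 : ℕ) : ℝ) / n) * ab p r 0 1
        ≤ c' * (c4 ^ 4 / 2) * Real.sqrt (((1 : ℕ) : ℝ) / n) * 1 :=
          mul_le_mul_of_nonneg_left h3 (by positivity)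
      _ ≤ c' * 1 * Real.sqrt (((1 : ℕ) : ℝ) / n) * 1 := by
          refine mul_le_mul_of_nonneg_right (mul_le_mul_of_nonneg_right
            (mul_le_mul_of_nonneg_left ?_ hc'.le) hsq) zero_le_one
          linarith
      _ = c' * Real.sqrt (((1 : ℕ) : ℝ) / n) := by ring
  · have hm2 : 2 ≤ m := by omega
    set s : ℕ := m / 2 with hs
    have hs1 : 1 ≤ s := by omega
    have h2s : 2 * s ≤ m := by omega
    have hms : m ≤ 2 * (s + 1) := by omega
    have e1 : ab p r 0 m ≤ ab p r 0 (2 * s) := ab_mono le_rfl h2s (by omega)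
    have e2 : c4 ^ 4 ≤ PT p r (CircE s) := circ_prob hc4 H4 hp hs1
    have e3 : c' * Real.sqrt (((s : ℝ) + 1) / n) ≤ ab p r s n := HL' p hp s n (by omega) hn
    have e4 : Real.sqrt ((m : ℝ) / n) / 2 ≤ Real.sqrt (((s : ℝ) + 1) / n) := by
      have h1 : Real.sqrt ((m : ℝ) / n) / 2 = Real.sqrt ((m : ℝ) / n / 4) := by
        rw [Real.sqrt_div (by positivity) (4 : ℝ)]
        congr 1
        rw [show (4 : ℝ) = 2 ^ 2 by norm_num, Real.sqrt_sq (by norm_num)]
      rw [h1]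
      apply Real.sqrt_le_sqrt
      rw [div_div, div_le_div_iff₀ (by positivity) hn0]
      have : (m : ℝ) ≤ 2 * (s + 1) := by exact_mod_cast hms
      nlinarith
    have f1 : ab p r 0 (2 * s) * PT p r (CircE s) ≤ PT p r (AB 0 0 0 (2 * s) ∩ CircE s) :=
      PT_fkg (localOn_AB 0 0 0 (2 * s)) (localOn_CircE s) (incr_AB 0 0 0 (2 * s))
        (incr_CircE s)
    have f2 : PT p r (AB 0 0 0 (2 * s) ∩ CircE s) * ab p r s n ≤
        PT p r ((AB 0 0 0 (2 * s) ∩ CircE s) ∩ AB 0 0 s n) :=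
      PT_fkg ((localOn_AB 0 0 0 (2 * s)).inter' (localOn_CircE s)) (localOn_AB 0 0 s n)
        ((incr_AB 0 0 0 (2 * s)).inter (incr_CircE s)) (incr_AB 0 0 s n)
    have f3 : PT p r ((AB 0 0 0 (2 * s) ∩ CircE s) ∩ AB 0 0 s n) ≤ ab p r 0 n := by
      refine PT_mono ?_
      rintro η ⟨⟨g1, g2⟩, g3⟩
      exact arm_glue hs1 (Nat.zero_le _) (by omega) g2 g1 g3
    have g0 : 0 ≤ ab p r 0 m := ab_nonneg
    have g1 : 0 ≤ ab p r 0 (2 * s) := ab_nonneg
    have g2 : 0 ≤ ab p r s n := ab_nonneg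
    have g3 : 0 ≤ PT p r (AB 0 0 0 (2 * s) ∩ CircE s) := PT_nonneg
    calc c' * (c4 ^ 4 / 2) * Real.sqrt ((m : ℝ) / n) * ab p r 0 m
        = (ab p r 0 m * c4 ^ 4) * (c' * (Real.sqrt ((m : ℝ) / n) / 2)) := by ring
      _ ≤ (ab p r 0 (2 * s) * PT p r (CircE s)) * ab p r s n := by
          refine mul_le_mul (mul_le_mul e1 e2 (by positivity) g1) ?_ (by positivity)
            (mul_nonneg g1 PT_nonneg)
          exact (mul_le_mul_of_nonneg_left e4 hc'.le).trans e3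
      _ ≤ PT p r (AB 0 0 0 (2 * s) ∩ CircE s) * ab p r s n :=
          mul_le_mul_of_nonneg_right f1 g2
      _ ≤ _ := f2.trans f3

theorem arm_one_lowerT {p₀ : I} {r : Bool} (h : BXP p₀ r) : ∃ c > (0 : ℝ), ∀ p : I, p₀ ≤ p →
    c ≤ ab p r 0 1 := by
  obtain ⟨c2, hc2, H2⟩ := h 2
  obtain ⟨c', hc', HL⟩ := ab_lower hc2
  refine ⟨c', hc', fun p hp => ?_⟩
  have h1 := HL p₀ r H2 p hp 0 1 (by omega) le_rfl
  have h2 : Real.sqrt ((((0 : ℕ) : ℝ) + 1) / ((1 : ℕ) : ℝ)) = 1 := by norm_num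
  rwa [h2, mul_one] at h1

end Pool.Agent.H83.Site

end

section

/-!
# Site percolation: probability with some closed sites, exploration
-/

open MeasureTheory ProbabilityTheory unitInterval

namespace Pool.Agent.H83.SK

open Pool.Agent.H57.EX

open Pool.Agent.H89.Perc Pool.Agent.H61.NC Pool.Agent.H29.Sep

variable {q : I} {V0 : Finset Edge}

/-- Probability of an event of the induced configuration when the sites of `V0` are closed. -/
noncomputable def PS (q : I) (V0 : Finset Edge) (A : Set Config) : ℝ :=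
  Pool.Agent.H57.EX.PrE q V0 {w | sit w ∈ A}

theorem PS_nonneg {A : Set Config} : 0 ≤ PS q V0 A := PrE_nonneg

theorem PS_mono {A B : Set Config} (h : A ⊆ B) : PS q V0 A ≤ PS q V0 B :=
  PrE_mono fun _ hω => h hω

theorem PS_union_le {A B : Set Config} : PS q V0 (A ∪ B) ≤ PS q V0 A + PS q V0 B :=
  PrE_union_le (A := {w | sit w ∈ A}) (B := {w | sit w ∈ B})

theorem PS_biUnion_le {ι : Type*} (F : Finset ι) (A : ι → Set Config) :
    PS q V0 (⋃ i ∈ F, A i) ≤ ∑ i ∈ F, PS q V0 (A i) := by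
  unfold PS
  have h : {w | sit w ∈ ⋃ i ∈ F, A i} = ⋃ i ∈ F, {w | sit w ∈ A i} := by
    ext ω
    simp
  rw [h]
  exact PrE_biUnion_le F _

/-- Events which do not look at the closed sites. -/
theorem PS_eq {t : Finset Edge} {A : Set Config} (h : LocalOn t A) (hd : Disjoint (hull t) V0) :
    PS q V0 A = Pr q A :=
  PrE_eq (localOn_sit h) hd

theorem PS_inter {s t : Finset Edge} {A B : Set Config} (hA : LocalOn s A) (hB : LocalOn t B)
    (hd : Disjoint (hull s) (hull t)) : PS q V0 (A ∩ B) = PS q V0 A * PS q V0 B :=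
  PrE_inter (A := {w | sit w ∈ A}) (B := {w | sit w ∈ B}) (localOn_sit hA) (localOn_sit hB) hd

/-- Closing sites makes a decreasing event more likely. -/
theorem le_PS_of_decr {t : Finset Edge} {A : Set Config} (h : LocalOn t A) (iA : Incr Aᶜ) :
    Pr q A ≤ PS q V0 A :=
  le_PrE_of_decr (localOn_sit h) (incr_sit_compl iA)

/-! ### Exploration -/

variable {D D' X S U : Set Vert} {w : Config}

/-- The determining sites: the cluster and the neighbours of its open sites. -/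
lemma mem_Ucl_near {v : Vert} (h : v ∈ Ucl w D X) :
    v ∈ cl (sit w) D X ∨ ∃ a ∈ cl (sit w) D X, v ∈ ball a 1 := by
  rcases h with h | ⟨_, a, h1, _, h2⟩
  · exact Or.inl h
  · exact Or.inr ⟨a, h1, adj_ball h2⟩

/-- An open site among the determining sites is in the cluster or trivial. -/
lemma open_Ucl {v : Vert} (h : v ∈ Ucl w D X) (hv : w (sv v) = true) : v ∈ cl (sit w) D X := by
  rcases h with h | ⟨h0, a, h1, h2, h3⟩
  · exact h
  · exact cl_step h1 (step_sit.2 ⟨cl_sub h1, h0, h3, h2, hv⟩)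

/-- A path off the cluster stays off the determining sites. -/
lemma conn_avoid {a b : Vert} (hab : a ≠ b) (h : Conn (sit w) D' a b)
    (hd : ∀ v ∈ D', v ∉ cl (sit w) D X) : Conn (sit w) (D' \ Ucl w D X) a b := by
  obtain ⟨ha, hb⟩ := conn_sit_open h hab
  have h0 : a ∈ D' \ Ucl w D X := ⟨h.mem_left, fun k => hd a h.mem_left (open_Ucl k ha)⟩
  refine h.induction_right (P := fun x => Conn (sit w) (D' \ Ucl w D X) a x) (Conn.refl h0) ?_
  intro x y _ hxy ih
  have hs := step_sit.1 hxy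
  refine ih.tail (step_sit.2 ⟨ih.mem_right, ⟨hs.2.1, fun k => ?_⟩, hs.2.2⟩)
  exact hd y hs.2.1 (open_Ucl k hs.2.2.2.2)

/-- The same in the domain itself. -/
lemma conn_offU' {a b : Vert} (hab : a ≠ b) (ha : a ∉ cl (sit w) D X)
    (h : Conn (sit w) D a b) : Conn (sit w) (D \ Ucl w D X) a b := by
  have h1 : Conn (sit w) (D \ cl (sit w) D X) a b := Pool.Agent.H29.Sep.conn_off ha h
  exact (conn_avoid hab h1 fun v hv => hv.2).mono_set fun v hv => ⟨hv.1.1, hv.2⟩

/-- Disjointness of sets of sites. -/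
lemma siteF_disj_hull {R : ℕ} {t : Finset Edge} (h : ∀ e ∈ t, src e ∉ U ∧ tgt e ∉ U) :
    Disjoint (siteF R U) (hull t) := by
  rw [Finset.disjoint_left]
  intro g h1 h2
  obtain ⟨v, _, hv, rfl⟩ := mem_siteF.1 h1
  obtain ⟨e, he, h3 | h3⟩ := mem_hull.1 h2
  · exact (h e he).1 (sv_injective h3 ▸ hv)
  · exact (h e he).2 (sv_injective h3 ▸ hv)

end Pool.Agent.H83.SK

end

section

/-!
# Site percolation: sealing of the first cluster
-/

open MeasureTheory ProbabilityTheory unitInterval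

namespace Pool.Agent.H83.SK

open Pool.Agent.H57.EX

open Pool.Agent.H89.Perc Pool.Agent.H61.NC Pool.Agent.H29.Sep

/-- The sealing event for given values: for some values of the determined sites, no ball
containing an exit well inside is joined to distance `3 s`. -/
def SealU (Z : Dat) (s : ℕ) (V : Finset Vert) (G S1 U : Set Vert) : Set Config :=
  {w | ∃ w' : Config, (∀ g ∉ siteF Z.R U, w' g = w g) ∧
    ∀ v ∈ V, (Exits Z.W G S1 ∩ ball v (s - 1)).Nonempty → sit w' ∉ ArmBox v s (3 * s)}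

/-- The sealing event. -/
def SealS (Z : Dat) (s : ℕ) (V : Finset Vert) (G : Set Vert) : Set Config :=
  {w | w ∈ SealU Z s V G (cl (sit w) G {Z.x})
    (Ucl w G {Z.x} ∪ Ucl w G {Z.y} ∪ Ucl w G Z.T)}

private lemma sealU_sub {Z : Dat} {s : ℕ} {V : Finset Vert} {G S1 U : Set Vert} :
    {w | sit w ∈ {ω | ∀ v ∈ V, ω ∉ ArmBox v s (3 * s)}} ⊆ SealU Z s V G S1 U :=
  fun w hω => ⟨w, fun _ _ => rfl, fun v hv _ => hω v hv⟩

private lemma sealU_local {Z : Dat} {s : ℕ} {V : Finset Vert} {G S1 U : Set Vert}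
    [DecidableEq Edge] :
    LocalOn (hull (V.biUnion fun v => eRect (v.1 - (3 * s : ℕ)) (v.1 + (3 * s : ℕ))
      (v.2 - (3 * s : ℕ)) (v.2 + (3 * s : ℕ))) \ siteF Z.R U)
      (SealU Z s V G S1 U) := by
  classical
  intro w w₂ hω hA
  obtain ⟨w', h1, h2⟩ := hA
  refine ⟨fun g => if g ∈ siteF Z.R U then w' g else w₂ g, ?_, ?_⟩
  · intro g hg
    simp only [if_neg hg]
  · intro v hv hne hcon
    refine h2 v hv hne ?_
    refine localOn_sit (localOn_armBox v s (3 * s)) _ _ (fun g hg => ?_) hcon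
    split_ifs with hg'
    · rfl
    · rw [h1 g hg', hω g]
      refine Finset.mem_sdiff.2 ⟨hull_mono (fun e he => ?_) hg, hg'⟩
      exact Finset.mem_biUnion.2 ⟨v, hv, he⟩

theorem noarm_local {s : ℕ} {V : Finset Vert} [DecidableEq Edge] :
    LocalOn (V.biUnion fun v => eRect (v.1 - (3 * s : ℕ)) (v.1 + (3 * s : ℕ))
      (v.2 - (3 * s : ℕ)) (v.2 + (3 * s : ℕ))) {ω | ∀ v ∈ V, ω ∉ ArmBox v s (3 * s)} := by
  intro ω ω' hω hA v hv hcon
  refine hA v hv (localOn_armBox v s (3 * s) _ _ (fun e he => ?_) hcon)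
  exact (hω e (Finset.mem_biUnion.2 ⟨v, hv, he⟩)).symm

theorem noarm_incr {s : ℕ} {V : Finset Vert} :
    Incr {ω | ∀ v ∈ V, ω ∉ ArmBox v s (3 * s)}ᶜ := by
  intro ω ω' hω hA hB
  refine hA fun v hv hcon => hB v hv (incr_armBox v s (3 * s) ω ω' hω hcon)

/-- Sealing, for any condition `P` on the values of the three clusters. -/
theorem stage2a {Z : Dat} {V0 : Finset Edge} {s : ℕ} {V : Finset Vert} {G : Set Vert}
    (hG : G ⊆ Z.W) (P : Set Vert → Set Vert → Set Vert → Prop) {q : I} {c : ℝ} (hc : 0 ≤ c)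
    (hP : c ≤ Pr q {ω | ∀ v ∈ V, ω ∉ ArmBox v s (3 * s)}) :
    c * Pool.Agent.H57.EX.PrE q V0
        {w | P (cl (sit w) G {Z.x}) (cl (sit w) G {Z.y}) (cl (sit w) G Z.T)} ≤
      Pool.Agent.H57.EX.PrE q V0
        ({w | P (cl (sit w) G {Z.x}) (cl (sit w) G {Z.y}) (cl (sit w) G Z.T)} ∩
          SealS Z s V G) := by
  classical
  have hGR : G ⊆ ball 0 Z.R := hG.trans Z.hWR
  let Q : Finset (Finset Vert) := (Pool.Agent.H26.HP.bF Z.R).powerset
  let F : Finset ((Finset Vert × Finset Vert) × (Finset Vert × Finset Vert) ×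
      (Finset Vert × Finset Vert)) :=
    ((Q ×ˢ Q) ×ˢ (Q ×ˢ Q) ×ˢ (Q ×ˢ Q)).filter (fun i => P i.1.1 i.2.1.1 i.2.2.1)
  let X : (Finset Vert × Finset Vert) × (Finset Vert × Finset Vert) ×
      (Finset Vert × Finset Vert) → Set Config :=
    fun i => FullU G {Z.x} i.1.1 i.1.2 ∩ (FullU G {Z.y} i.2.1.1 i.2.1.2 ∩
      FullU G Z.T i.2.2.1 i.2.2.2)
  let tX : (Finset Vert × Finset Vert) × (Finset Vert × Finset Vert) ×
      (Finset Vert × Finset Vert) → Finset Edge :=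
    fun i => siteF Z.R ((i.1.2 : Set Vert) ∪ i.2.1.2 ∪ i.2.2.2)
  let tO : (Finset Vert × Finset Vert) × (Finset Vert × Finset Vert) ×
      (Finset Vert × Finset Vert) → Finset Edge :=
    fun i => hull (V.biUnion fun v => eRect (v.1 - (3 * s : ℕ)) (v.1 + (3 * s : ℕ))
      (v.2 - (3 * s : ℕ)) (v.2 + (3 * s : ℕ))) \ tX i
  let O : (Finset Vert × Finset Vert) × (Finset Vert × Finset Vert) ×
      (Finset Vert × Finset Vert) → Set Config :=
    fun i => SealU Z s V G i.1.1 ((i.1.2 : Set Vert) ∪ i.2.1.2 ∪ i.2.2.2)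
  have hsite : ∀ S S' : Set Vert, S ⊆ S' → siteF Z.R S ⊆ siteF Z.R S' := by
    intro S S' hSS g hg
    rw [mem_siteF] at hg ⊢
    obtain ⟨v, h1, h2, h3⟩ := hg
    exact ⟨v, h1, hSS h2, h3⟩
  have key := Pool.Agent.H57.EX.cond_indepE (q := q) (E := V0) F X O tX tO hc
    (by
      intro i _ j _ hij
      rw [Set.disjoint_left]
      rintro w ⟨⟨h1, h2⟩, ⟨h3, h4⟩, h5, h6⟩ ⟨⟨g1, g2⟩, ⟨g3, g4⟩, g5, g6⟩
      refine hij (Prod.ext (Prod.ext ?_ ?_) (Prod.ext (Prod.ext ?_ ?_) (Prod.ext ?_ ?_)))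
      · exact_mod_cast (h1.symm.trans g1)
      · exact_mod_cast (h2.symm.trans g2)
      · exact_mod_cast (h3.symm.trans g3)
      · exact_mod_cast (h4.symm.trans g4)
      · exact_mod_cast (h5.symm.trans g5)
      · exact_mod_cast (h6.symm.trans g6))
    (by
      intro i _
      refine LocalOn.inter ?_ (LocalOn.inter ?_ ?_)
      · exact (localOn_fullU hGR).mono (hsite _ _ fun v hv => Or.inl (Or.inl hv))
      · exact (localOn_fullU hGR).mono (hsite _ _ fun v hv => Or.inl (Or.inr hv))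
      · exact (localOn_fullU hGR).mono (hsite _ _ fun v hv => Or.inr hv))
    (by
      intro i _
      exact sealU_local)
    (by
      intro i _
      exact Finset.disjoint_sdiff)
    (by
      intro i _
      exact hP.trans ((le_PS_of_decr noarm_local noarm_incr).trans (PrE_mono sealU_sub)))
  refine (mul_le_mul_of_nonneg_left (PrE_mono ?_) hc).trans (key.trans (PrE_mono ?_))
  · intro w hω
    have hfin : ∀ Y : Set Vert, ∃ T1 ∈ Q, ∃ T2 ∈ Q, (T1 : Set Vert) = cl (sit w) G Y ∧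
        (T2 : Set Vert) = Ucl w G Y := by
      intro Y
      obtain ⟨F1, hF1, e1⟩ := Pool.Agent.H26.HP.exists_finset (S := cl (sit w) G Y)
        (R := Z.R) (cl_sub.trans hGR)
      obtain ⟨F2, hF2, e2⟩ := Pool.Agent.H26.HP.exists_finset (S := Ucl w G Y)
        (R := Z.R) (Ucl_subset.trans hGR)
      exact ⟨F1, hF1, F2, hF2, e1, e2⟩
    obtain ⟨F1, hF1, F2, hF2, e1, e2⟩ := hfin {Z.x}
    obtain ⟨F3, hF3, F4, hF4, e3, e4⟩ := hfin {Z.y}
    obtain ⟨F5, hF5, F6, hF6, e5, e6⟩ := hfin Z.T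
    simp only [Set.mem_iUnion]
    refine ⟨((F1, F2), (F3, F4), (F5, F6)), ?_, ⟨e1.symm, e2.symm⟩, ⟨e3.symm, e4.symm⟩,
      ⟨e5.symm, e6.symm⟩⟩
    refine Finset.mem_filter.2 ⟨?_, ?_⟩
    · exact Finset.mem_product.2 ⟨Finset.mem_product.2 ⟨hF1, hF2⟩, Finset.mem_product.2
        ⟨Finset.mem_product.2 ⟨hF3, hF4⟩, Finset.mem_product.2 ⟨hF5, hF6⟩⟩⟩
    · show P F1 F3 F5
      rw [e1, e3, e5]
      exact hω
  · intro w hω
    simp only [Set.mem_iUnion] at hω
    obtain ⟨i, hi, ⟨⟨h1, h2⟩, ⟨h3, h4⟩, h5, h6⟩, h7⟩ := hω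
    have hi' := (Finset.mem_filter.1 hi).2
    have h1' : cl (sit w) G {Z.x} = ↑i.1.1 := h1
    have h3' : cl (sit w) G {Z.y} = ↑i.2.1.1 := h3
    have h5' : cl (sit w) G Z.T = ↑i.2.2.1 := h5
    refine ⟨?_, ?_⟩
    · change P (cl (sit w) G {Z.x}) (cl (sit w) G {Z.y}) (cl (sit w) G Z.T)
      rw [h1', h3', h5']
      exact hi'
    · change w ∈ SealU Z s V G (cl (sit w) G {Z.x})
        (Ucl w G {Z.x} ∪ Ucl w G {Z.y} ∪ Ucl w G Z.T)
      rw [h1', h2, h4, h6]
      exact h7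

end Pool.Agent.H83.SK

end

section

/-!
# Site percolation: the sealed cluster
-/

open MeasureTheory ProbabilityTheory unitInterval

namespace Pool.Agent.H83.SK

open Pool.Agent.H57.EX

open Pool.Agent.H89.Perc Pool.Agent.H61.NC Pool.Agent.H29.Sep

/-- The hypotheses of this file. -/
structure H2S (Z : Dat) (s s' : ℕ) (γ : ℕ → Vert) (n : ℕ) (b b' : Vert) (V : Finset Vert)
    (w : Config) : Prop where
  hs' : 2 ≤ s'
  hss : 40 * s' ≤ s
  hsm : 100 * s ≤ Z.m
  hb : b ∈ sphere 0 (4 * Z.m)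
  hb' : b' ∈ sphere 0 (16 * Z.m)
  hg : ZGood Z.m s γ n b b'
  hV : ∀ u ∈ ball 0 (20 * Z.m), ∃ v ∈ V, u ∈ ball v (s' - 1)
  h1 : sit w ∈ E1 Z s b b' (GG Z s γ n)
  h2 : sit w ∈ NB Z (38 * s') (GG Z s γ n)
  h3 : w ∈ SealS Z s' V (GG Z s γ n)

/-- The three parts of the glued domain. -/
private theorem mem_GG {Z : Dat} {s n : ℕ} {γ : ℕ → Vert} {v : Vert} :
    v ∈ GG Z s γ n ↔ v ∈ Z.B ∨ v ∈ Z.D ∨ v ∈ zone γ n s := by
  unfold GG
  rw [Set.mem_union, Set.mem_union, or_assoc]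

private theorem mem_B {Z : Dat} {v : Vert} : v ∈ Z.B ↔ nrm v ≤ 4 * (Z.m : ℤ) := by
  unfold Dat.B
  rw [mem_ball_zero]
  push_cast
  rfl

private theorem B_sub_W (Z : Dat) : Z.B ⊆ Z.W := by
  intro v hv
  apply Z.hBW
  rw [mem_B] at hv
  rw [mem_ball_zero]
  push_cast
  omega

private theorem GG_sub_W {Z : Dat} {s n : ℕ} {γ : ℕ → Vert} {b b' : Vert}
    (hg : ZGood Z.m s γ n b b') : GG Z s γ n ⊆ Z.W := by
  intro v hv
  rw [mem_GG] at hv
  rcases hv with hv | hv | hv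
  · exact B_sub_W Z hv
  · exact Z.hDW hv
  · apply Z.hBW
    rw [mem_ball_zero]
    have := hg.bdd v hv
    push_cast
    omega

private theorem x_mem_GG (Z : Dat) (s n : ℕ) (γ : ℕ → Vert) : Z.x ∈ GG Z s γ n := by
  rw [mem_GG]
  left
  rw [mem_B]
  have h1 := Z.hx
  rw [mem_ball_zero] at h1
  have h2 := Z.hm
  push_cast at h1
  omega

private theorem y_mem_GG (Z : Dat) (s n : ℕ) (γ : ℕ → Vert) : Z.y ∈ GG Z s γ n := by
  rw [mem_GG]
  left
  rw [mem_B]
  have h1 := Z.hy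
  rw [mem_ball_zero] at h1
  have h2 := Z.hm
  push_cast at h1
  omega

private theorem nrm_sphere {t : ℕ} {v : Vert} (h : v ∈ sphere 0 t) : nrm v = t :=
  mem_sphere_zero.1 h

/-- Places of the exits. -/
theorem exit_cases {Z : Dat} {s s' : ℕ} {γ : ℕ → Vert} {n : ℕ} {b b' : Vert} {V : Finset Vert}
    {w : Config} (h : H2S Z s s' γ n b b' V w) {v : Vert}
    (hv : v ∈ Exits Z.W (GG Z s γ n) (cl (sit w) (GG Z s γ n) {Z.x})) :
    v ∈ ball 0 (20 * Z.m) ∧ (v ∈ zone γ n s ∨ v ∈ sphere 0 (4 * Z.m) ∨ (v ∈ Z.D ∧ v ∈ Z.Bd)) := by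
  obtain ⟨hv1, e, w, he, hwW, hwG⟩ := hv
  have hvG : v ∈ GG Z s γ n := cl_sub hv1
  have hm := Z.hm
  have hwB : w ∉ Z.B := fun hw => hwG (mem_GG.2 (Or.inl hw))
  have hwD : w ∉ Z.D := fun hw => hwG (mem_GG.2 (Or.inr (Or.inl hw)))
  have hw19 : w ∈ ball 0 (19 * Z.m) := by
    by_contra hcon
    exact hwD (Z.hWD w hwW hcon)
  have hvw : v ∈ ball w 1 := joins_ball (joins_symm he)
  have hwv : w ∈ ball v 1 := joins_ball he
  have h1 := nrm_le_of_mem_ball hvw
  have h2 := nrm_le_of_mem_ball hwv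
  rw [mem_ball_zero] at hw19
  push_cast at hw19 h1 h2
  refine ⟨?_, ?_⟩
  · rw [mem_ball_zero]
    push_cast
    omega
  · rw [mem_GG] at hvG
    rcases hvG with hB | hD | hzn
    · right
      left
      rw [mem_B] at hB hwB
      rw [mem_sphere_zero]
      push_cast
      omega
    · right
      right
      exact ⟨hD, Or.inr ⟨hD, e, w, he, hwW, hwD⟩⟩
    · left
      exact hzn

/-- Near the exits there are no vertices of the clusters of `y` and `T`. -/
theorem exit_far {Z : Dat} {s s' : ℕ} {γ : ℕ → Vert} {n : ℕ} {b b' : Vert} {V : Finset Vert}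
    {w : Config} (h : H2S Z s s' γ n b b' V w) {v p : Vert}
    (hv : v ∈ Exits Z.W (GG Z s γ n) (cl (sit w) (GG Z s γ n) {Z.x}))
    (hp : p ∈ ball v (4 * s')) :
    p ∉ cl (sit w) (GG Z s γ n) {Z.y} ∧ p ∉ cl (sit w) (GG Z s γ n) Z.T := by
  obtain ⟨-, hc⟩ := exit_cases h hv
  obtain ⟨-, -, -, hS2, hS3, hd2, hd3, -, -⟩ := h.h1
  obtain ⟨hn1, hn2⟩ := h.h2
  have hs' := h.hs'
  have hss := h.hss
  have hsm := h.hsm
  have hp1 := nrm_le_of_mem_ball hp
  have hp2 := le_nrm_of_mem_ball hp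
  push_cast at hp1 hp2
  have h38 : 4 * s' ≤ 38 * s' := by omega
  have hvS1 : v ∈ cl (sit w) (GG Z s γ n) {Z.x} := hv.1
  rcases hc with hzn | hsp | ⟨hD, hBd⟩
  · constructor
    · intro hpS
      have hpB := hS2 hpS
      rw [mem_B] at hpB
      have hvb := h.hg.inner v hzn (by omega)
      have hpb := ball_mono (show 20 * s + 4 * s' ≤ 38 * s by omega) (ball_trans hvb hp)
      exact Set.disjoint_left.1 hd2 hpS hpb
    · intro hpS
      have hpD := Z.hD p (hS3 hpS)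
      have hvb := h.hg.outer v hzn (by omega)
      have hpb := ball_mono (show 20 * s + 4 * s' ≤ 38 * s by omega) (ball_trans hvb hp)
      exact Set.disjoint_left.1 hd3 hpS hpb
  · have hnv := nrm_sphere hsp
    push_cast at hnv
    constructor
    · intro hpS
      exact hn1 v hsp ⟨v, hvS1, mem_ball_self v _⟩ ⟨p, hpS, ball_mono h38 hp⟩
    · intro hpS
      have hpD := Z.hD p (hS3 hpS)
      have hm := Z.hm
      omega
  · have hnv := Z.hD v hD
    constructor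
    · intro hpS
      have hpB := hS2 hpS
      rw [mem_B] at hpB
      have hm := Z.hm
      omega
    · intro hpS
      exact hn2 v hBd ⟨v, hvS1, mem_ball_self v _⟩ ⟨p, hpS, ball_mono h38 hp⟩

/-- The cluster of `x` in the universe. -/
theorem sealed {Z : Dat} {s s' : ℕ} {γ : ℕ → Vert} {n : ℕ} {b b' : Vert} {V : Finset Vert}
    {w : Config} (h : H2S Z s s' γ n b b' V w) {p : Vert} (hp : p ∈ cl (sit w) Z.W {Z.x}) :
    p ∈ cl (sit w) (GG Z s γ n) {Z.x} ∨
      ∃ v ∈ Exits Z.W (GG Z s γ n) (cl (sit w) (GG Z s γ n) {Z.x}), p ∈ ball v (4 * s') := by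
  by_cases hp1 : p ∈ cl (sit w) (GG Z s γ n) {Z.x}
  · exact Or.inl hp1
  right
  have hxG := x_mem_GG Z s n γ
  have hxS : Z.x ∈ cl (sit w) (GG Z s γ n) {Z.x} := mem_cl_self hxG
  rw [mem_cl_iff] at hp
  obtain ⟨v, hv, x, hx, hvW, hxW, ⟨e, he, heo⟩, hxp⟩ := last_exit hp hxS hp1
  have hvG : v ∈ GG Z s γ n := cl_sub hv
  have hxGn : x ∉ GG Z s γ n := by
    intro hwG
    exact hx (cl_step hv ⟨hvG, hwG, e, he, heo⟩)
  have hvE : v ∈ Exits Z.W (GG Z s γ n) (cl (sit w) (GG Z s γ n) {Z.x}) :=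
    ⟨hv, e, x, he, hxW, hxGn⟩
  refine ⟨v, hvE, ?_⟩
  by_contra hpv
  have hs' := h.hs'
  obtain ⟨hv20, -⟩ := exit_cases h hvE
  obtain ⟨c, hcV, hvc⟩ := h.hV v hv20
  have hpc : p ∉ ball c (3 * s') := by
    intro hpc
    apply hpv
    have h1 := ball_trans (mem_ball_comm.1 hvc) hpc
    exact ball_mono (by omega) h1
  have hxc : x ∈ ball c s' := ball_mono (by omega) (ball_trans hvc (joins_ball he))
  obtain ⟨u, hu, hxu⟩ := reach_sphere hxp (ball_mono (by omega) hxc) (Or.inl hpc)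
  obtain ⟨w', hw', hseal⟩ := h.h3
  refine hseal c hcV ⟨v, hvE, hvc⟩ ⟨x, hxc, u, hu, ?_⟩
  have hkey : ∀ a, a ∈ (Z.W \ cl (sit w) (GG Z s γ n) {Z.x}) ∩ ball c (3 * s') →
      w (sv a) = true → w' (sv a) = true := by
    rintro a ⟨⟨haW, haS⟩, hac⟩ hwa
    rw [hw' (sv a)]
    · exact hwa
    intro hmem
    obtain ⟨a', _, haU, hae⟩ := mem_siteF.1 hmem
    rw [sv_injective hae] at haU
    have hav : a ∈ ball v (4 * s') := by
      have h1 := ball_trans (mem_ball_comm.1 hvc) hac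
      exact ball_mono (by omega) h1
    rcases haU with (haU | haU) | haU
    · exact haS (open_Ucl haU hwa)
    · exact (exit_far h hvE hav).1 (open_Ucl haU hwa)
    · exact (exit_far h hvE hav).2 (open_Ucl haU hwa)
  refine conn_congr hxu (fun a ha => ha.2) ?_
  intro f hf1 hf2 hfo
  rw [sit_true] at hfo ⊢
  exact ⟨hkey _ hf1 hfo.1, hkey _ hf2 hfo.2⟩

/-- Third event: the cluster of `x` in the universe meets `L`, is not next to the zone of the chain
`γ'`, and off this cluster `y` and `T` reach the ends of the chain. -/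
def E2S (Z : Dat) (s : ℕ) (γ' : ℕ → Vert) (n : ℕ) (β β' : Vert) : Set Config :=
  {ω | (cl ω Z.W {Z.x} ∩ Z.L).Nonempty ∧
    (∀ a ∈ cl ω Z.W {Z.x}, ∀ z ∈ zone γ' n s, a ∉ ball z 1) ∧
    (∃ u ∈ ball β s, Conn ω (Z.B \ cl ω Z.W {Z.x}) Z.y u) ∧
    ∃ w ∈ Z.T, ∃ v ∈ ball β' s, Conn ω (Z.D \ cl ω Z.W {Z.x}) w v}

/-- The second landing. -/
theorem det2 {Z : Dat} {s s' : ℕ} {γ : ℕ → Vert} {n : ℕ} {b b' : Vert} {V : Finset Vert}
    {ω : Config} (h : H2S Z s s' γ n b b' V ω) {N N' : Finset Vert} (hN : IsNet N (4 * Z.m) s')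
    (hN' : IsNet N' (16 * Z.m) s') :
    ∃ β ∈ N, ∃ β' ∈ N', β ∉ ball b (30 * s) ∧ β' ∉ ball b' (30 * s) ∧
      ∀ (γ' : ℕ → Vert) (n' : ℕ), ZGood Z.m s' γ' n' β β' →
        (∀ w ∈ zone γ' n' s', ∀ z ∈ zone γ n s, w ∉ ball z (8 * s')) →
        sit ω ∈ E2S Z s' γ' n' β β' := by
  obtain ⟨hL, ⟨u0, hu0S, hu0⟩, ⟨v0, hv0S, hv0⟩, hS2, hS3, hd2, hd3, hd12, hd13⟩ := h.h1
  obtain ⟨hn1, hn2⟩ := h.h2
  have hs' := h.hs'
  have hss := h.hss
  have hsm := h.hsm
  obtain ⟨β, hβ, hu0β⟩ := hN.cov u0 hu0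
  obtain ⟨β', hβ', hv0β⟩ := hN'.cov v0 hv0
  refine ⟨β, hβ, β', hβ', ?_, ?_, ?_⟩
  · intro hcon
    exact Set.disjoint_left.1 hd2 hu0S
      (ball_mono (show 30 * s + s' ≤ 38 * s by omega) (ball_trans hcon hu0β))
  · intro hcon
    exact Set.disjoint_left.1 hd3 hv0S
      (ball_mono (show 30 * s + s' ≤ 38 * s by omega) (ball_trans hcon hv0β))
  intro γ' n' hg' hsep
  have hβs := hN.sub β hβ
  have hβs' : β' ∈ Z.Bd := Or.inl (hN'.sub β' hβ')
  -- the two contradictions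
  have hin : ∀ a ∈ cl (sit ω) (GG Z s γ n) {Z.x}, a ∉ ball β (38 * s') := by
    intro a ha hab
    exact hn1 β hβs ⟨a, ha, hab⟩ ⟨u0, hu0S, ball_mono (by omega) hu0β⟩
  have hout : ∀ a ∈ cl (sit ω) (GG Z s γ n) {Z.x}, a ∉ ball β' (38 * s') := by
    intro a ha hab
    exact hn2 β' hβs' ⟨a, ha, hab⟩ ⟨v0, hv0S, ball_mono (by omega) hv0β⟩
  -- the cluster in the universe misses the clusters of `y` and `T`
  have hmiss2 : ∀ a ∈ cl (sit ω) (GG Z s γ n) {Z.y}, a ∉ cl (sit ω) Z.W {Z.x} := by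
    intro a ha hax
    rcases sealed h hax with h1 | ⟨v, hv, hav⟩
    · exact Set.disjoint_left.1 hd12 h1 ha
    · exact (exit_far h hv hav).1 ha
  have hmiss3 : ∀ a ∈ cl (sit ω) (GG Z s γ n) Z.T, a ∉ cl (sit ω) Z.W {Z.x} := by
    intro a ha hax
    rcases sealed h hax with h1 | ⟨v, hv, hav⟩
    · exact Set.disjoint_left.1 hd13 h1 ha
    · exact (exit_far h hv hav).2 ha
  refine ⟨?_, ?_, ?_, ?_⟩
  · obtain ⟨a, ha, haL⟩ := hL
    exact ⟨a, cl_mono (GG_sub_W h.hg) ha, haL⟩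
  · intro p hp z hz hpz
    have hz1 := nrm_le_of_mem_ball hpz
    have hz2 := le_nrm_of_mem_ball hpz
    push_cast at hz1 hz2
    rcases sealed h hp with hp1 | ⟨v, hv, hpv⟩
    · have hpG : p ∈ GG Z s γ n := cl_sub hp1
      rw [mem_GG] at hpG
      rcases hpG with hB | hD | hzn
      · rw [mem_B] at hB
        have h1 := hg'.inner z hz (by omega)
        exact hin p hp1 (ball_mono (by omega) (ball_trans h1 hpz))
      · have hD' := Z.hD p hD
        have h1 := hg'.outer z hz (by omega)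
        exact hout p hp1 (ball_mono (by omega) (ball_trans h1 hpz))
      · exact hsep z hz p hzn (ball_mono (by omega) (mem_ball_comm.1 hpz))
    · obtain ⟨-, hc⟩ := exit_cases h hv
      have hzv : z ∈ ball v (4 * s' + 1) := ball_trans hpv (mem_ball_comm.1 hpz)
      have hp1 := nrm_le_of_mem_ball hzv
      have hp2 := le_nrm_of_mem_ball hzv
      push_cast at hp1 hp2
      rcases hc with hzn | hsp | ⟨hD, -⟩
      · exact hsep z hz v hzn (ball_mono (by omega) hzv)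
      · have hnv := nrm_sphere hsp
        push_cast at hnv
        have h1 := hg'.inner z hz (by omega)
        have h2 := ball_trans h1 (mem_ball_comm.1 hzv)
        exact hin v hv.1 (ball_mono (by omega) h2)
      · have hD' := Z.hD v hD
        have h1 := hg'.outer z hz (by omega)
        have h2 := ball_trans h1 (mem_ball_comm.1 hzv)
        exact hout v hv.1 (ball_mono (by omega) h2)
  · refine ⟨u0, hu0β, ?_⟩
    have h1 := conn_in_cl (mem_cl_iff.1 hu0S) (mem_cl_self (ω := sit ω) (y_mem_GG Z s n γ))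
    exact h1.mono_set fun a ha => ⟨hS2 ha, hmiss2 a ha⟩
  · obtain ⟨w, hw, hwv⟩ := hv0S
    refine ⟨w, hw, v0, hv0β, ?_⟩
    have hwS : w ∈ cl (sit ω) (GG Z s γ n) Z.T := ⟨w, hw, Conn.refl hwv.mem_left⟩
    have h1 := conn_in_cl hwv hwS
    exact h1.mono_set fun a ha => ⟨hS3 ha, hmiss3 a ha⟩

end Pool.Agent.H83.SK

end
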