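import Pool.Agent.H31.PT.M08
import Pool.Agent.H31.PT.M10
import Pool.Agent.H31.PT.M11

/-! The parts of this file: H13.SK.SigmaSum, H83.Site.FSstrong, H13.SK.Good, H83.SK.P57.Chain, H83.SK.PHP.Reg, H83.SK.PHP.One, H38.SK.N59.Corr, H38.SK.N59.Sym, H38.SK.N59.Bad, H38.SK.N59.St3, H38.SK.N59.St1. -/

section

/-!
# Upper bound for the mean cluster size: summation
-/

set_option autoImplicit false

open MeasureTheory ProbabilityTheory unitInterval

namespace Pool.Agent.H13.SK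

open Pool.Agent.H89.Perc Pool.Agent.H83.Site

/-- The one-arm probability at distance `m` is at least of order `m ^ (-1/2)`. -/
theorem arm_low {p₀ : I} {r : Bool} (h : BXP p₀ r) : ∃ C > (0 : ℝ),
    ∀ m : ℕ, 1 ≤ m → 1 ≤ C * m * ab p₀ r 0 m ^ 2 := by
  obtain ⟨c, hc, H⟩ := arm_extT h
  obtain ⟨c₁, hc₁, H₁⟩ := arm_one_lowerT h
  have h1 := H₁ p₀ le_rfl
  refine ⟨1 / (c * c₁) ^ 2, by positivity, fun m hm => ?_⟩
  have hmp : (1 : ℝ) ≤ m := by exact_mod_cast hm
  have h2 := H p₀ le_rfl 1 m le_rfl hm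
  have h3 : c * Real.sqrt (1 / m) * c₁ ≤ ab p₀ r 0 m := by
    refine le_trans ?_ h2
    have : 0 ≤ c * Real.sqrt (1 / m) := by positivity
    simpa using mul_le_mul_of_nonneg_left h1 this
  have h4 : (c * Real.sqrt (1 / m) * c₁) ^ 2 ≤ ab p₀ r 0 m ^ 2 := by gcongr
  have h5 : (c * Real.sqrt (1 / m) * c₁) ^ 2 = (c * c₁) ^ 2 / m := by
    rw [mul_pow, mul_pow, Real.sq_sqrt (by positivity)]
    ring
  rw [h5] at h4
  rw [div_le_iff₀ (by positivity)] at h4
  rw [div_mul_eq_mul_div, div_mul_eq_mul_div, one_mul, le_div_iff₀ (by positivity), one_mul]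
  linarith

/-- Regularity of the one-arm probability. -/
theorem arm_reg {p₀ : I} {r : Bool} (h : BXP p₀ r) : ∃ C > (0 : ℝ), ∀ p : I, p ≤ p₀ →
    ∀ m s : ℕ, 1 ≤ m → s ≤ m → ab p r 0 s ^ 2 ≤ C * (m / (s + 1)) * ab p₀ r 0 m ^ 2 := by
  obtain ⟨c, hc, H⟩ := arm_extT h
  obtain ⟨C₁, hC₁, H₁⟩ := arm_low h
  refine ⟨2 / c ^ 2 + C₁, by positivity, fun p hp m s hm hs => ?_⟩
  have hmp : (1 : ℝ) ≤ m := by exact_mod_cast hm
  have hpi : 0 ≤ ab p₀ r 0 m := ab_nonneg
  have hm0 : ab p r 0 s ≤ ab p₀ r 0 s := PT_mono_param (localOn_AB _ _ _ _) (incr_AB _ _ _ _) hp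
  have hs0 : 0 ≤ ab p r 0 s := ab_nonneg
  rcases Nat.eq_zero_or_pos s with h0 | h0
  · subst h0
    have h6 : ab p r 0 0 ^ 2 ≤ 1 := by
      have h7 : ab p r 0 0 ≤ 1 := PT_le_one
      nlinarith
    have h8 := H₁ m hm
    have h9 : 0 ≤ 2 / c ^ 2 * m * ab p₀ r 0 m ^ 2 := by positivity
    calc ab p r 0 0 ^ 2 ≤ 1 := h6
      _ ≤ 2 / c ^ 2 * m * ab p₀ r 0 m ^ 2 + C₁ * m * ab p₀ r 0 m ^ 2 := by linarith
      _ = _ := by push_cast; ring
  · have hsp : (1 : ℝ) ≤ s := by exact_mod_cast h0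
    have h2 := H p₀ le_rfl s m h0 hs
    have h3 : (c * Real.sqrt ((s : ℝ) / m) * ab p₀ r 0 s) ^ 2 ≤ ab p₀ r 0 m ^ 2 := by
      have : 0 ≤ ab p₀ r 0 s := ab_nonneg
      gcongr
    have h5 : (c * Real.sqrt ((s : ℝ) / m) * ab p₀ r 0 s) ^ 2 =
        c ^ 2 * (s / m) * ab p₀ r 0 s ^ 2 := by
      rw [mul_pow, mul_pow, Real.sq_sqrt (by positivity)]
    rw [h5] at h3
    have h6 : ab p r 0 s ^ 2 ≤ ab p₀ r 0 s ^ 2 := by gcongr
    have h7 : ab p₀ r 0 s ^ 2 ≤ 1 / c ^ 2 * (m / s) * ab p₀ r 0 m ^ 2 := by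
      calc ab p₀ r 0 s ^ 2 = 1 / c ^ 2 * (m / s) * (c ^ 2 * (s / m) * ab p₀ r 0 s ^ 2) := by
            field_simp
        _ ≤ _ := by gcongr
    have h8 : (m : ℝ) / s ≤ 2 * (m / (s + 1)) := by
      rw [← mul_div_assoc, div_le_div_iff₀ (by positivity) (by positivity)]
      nlinarith
    have h9 : 0 ≤ C₁ * (m / (s + 1)) * ab p₀ r 0 m ^ 2 := by positivity
    calc ab p r 0 s ^ 2 ≤ 1 / c ^ 2 * (m / s) * ab p₀ r 0 m ^ 2 := h6.trans h7
      _ ≤ 1 / c ^ 2 * (2 * (m / (s + 1))) * ab p₀ r 0 m ^ 2 := by gcongr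
      _ ≤ 1 / c ^ 2 * (2 * (m / (s + 1))) * ab p₀ r 0 m ^ 2 +
          C₁ * (m / (s + 1)) * ab p₀ r 0 m ^ 2 := by linarith
      _ = _ := by ring

theorem bx_mono {n m : ℕ} (h : n ≤ m) : bx n ⊆ bx m := by
  intro v hv
  rw [mem_bx] at hv ⊢
  omega

/-- Near points. -/
theorem near_sum {p₀ : I} {r : Bool} (h : BXP p₀ r) : ∃ C > (0 : ℝ), ∀ p : I, p ≤ p₀ →
    ∀ m : ℕ, 1 ≤ m → ∑ v ∈ bx (4 * m), PT p r (C0 v) ≤ C * (m : ℝ) ^ 2 * ab p₀ r 0 m ^ 2 := by
  classical
  obtain ⟨C₀, hC₀, hreg⟩ := arm_reg h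
  obtain ⟨C₁, hC₁, hlow⟩ := arm_low h
  obtain ⟨C, hC⟩ : ∃ C, C = C₀ + C₁ := ⟨_, rfl⟩
  have hCp : 0 < C := by rw [hC]; positivity
  refine ⟨132 * C, by positivity, fun p hp m hm => ?_⟩
  have hmp : (1 : ℝ) ≤ m := by exact_mod_cast hm
  set π := ab p₀ r 0 m with hπ
  have hπ0 : 0 ≤ π := ab_nonneg
  have h1 : ∀ v ∈ bx (4 * m), PT p r (C0 v) ≤ 4 * C * m * π ^ 2 * (1 / ((nrm v : ℝ) + 1)) := by
    intro v hv
    rw [mem_bx] at hv
    set n := nrm v with hn
    set s := min ((n - 1) / 2) m with hs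
    have h2 : PT p r (C0 v) ≤ C * (m / (s + 1)) * π ^ 2 := by
      rcases Nat.eq_zero_or_pos n with h0 | h0
      · have hs0 : s = 0 := by rw [hs, h0]; simp
        rw [hs0]
        have h3 := hlow m hm
        have h4 : PT p r (C0 v) ≤ 1 := PT_le_one
        have h5 : 0 ≤ C₀ * m * π ^ 2 := by positivity
        rw [hC]
        push_cast
        rw [zero_add, div_one]
        nlinarith
      · refine (two_arms p r (by omega)).trans ((hreg p hp m s hm (min_le_right _ _)).trans ?_)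
        gcongr
        linarith
    have h3 : n + 1 ≤ 4 * (s + 1) := by omega
    have h4 : (n : ℝ) + 1 ≤ 4 * ((s : ℝ) + 1) := by exact_mod_cast h3
    have h5 : (m : ℝ) / (s + 1) ≤ 4 * m * (1 / ((n : ℝ) + 1)) := by
      rw [mul_one_div, div_le_div_iff₀ (by positivity) (by positivity)]
      nlinarith
    calc PT p r (C0 v) ≤ C * (m / (s + 1)) * π ^ 2 := h2
      _ ≤ C * (4 * m * (1 / ((n : ℝ) + 1))) * π ^ 2 := by gcongr
      _ = _ := by ring
  refine (Finset.sum_le_sum h1).trans ?_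
  rw [← Finset.mul_sum]
  have h6 := sum_box (4 * m)
  push_cast at h6
  have h7 : 8 * (4 * (m : ℝ)) + 1 ≤ 33 * m := by linarith
  calc 4 * C * m * π ^ 2 * ∑ v ∈ bx (4 * m), 1 / ((nrm v : ℝ) + 1)
      ≤ 4 * C * m * π ^ 2 * (33 * m) := by
        gcongr
        exact h6.trans h7
    _ = 132 * C * m ^ 2 * π ^ 2 := by ring

/-- **Upper bound for the sum of the two-point function.** -/
theorem sum_upper {p₀ : I} {r : Bool} (h : BXP p₀ r) : ∃ C > (0 : ℝ), ∀ p : I, p ≤ p₀ →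
    ∀ m : ℕ, 1 ≤ m → qc (σ p) (!r) m ≤ 1 / 242 → ∀ F : Finset (ℤ × ℤ),
      ∑ v ∈ F, PT p r (C0 v) ≤ C * (m : ℝ) ^ 2 * ab p₀ r 0 m ^ 2 := by
  classical
  obtain ⟨C, hC, hnear⟩ := near_sum h
  obtain ⟨C₁, hC₁, hreg⟩ := arm_reg h
  refine ⟨C + 200 * C₁, by positivity, fun p hp m hm hq F => ?_⟩
  have hmp : (1 : ℝ) ≤ m := by exact_mod_cast hm
  set π := ab p₀ r 0 m with hπ
  have hπ0 : 0 ≤ π := ab_nonneg
  have hP0 : ∀ v, 0 ≤ PT p r (C0 v) := fun v => PT_nonneg
  have ha : ab p r 0 (m - 1) ^ 2 ≤ C₁ * π ^ 2 := by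
    have h1 := hreg p hp m (m - 1) hm (Nat.sub_le _ _)
    have h2 : (((m - 1 : ℕ) : ℝ) + 1) = m := by
      have : m - 1 + 1 = m := by omega
      exact_mod_cast this
    rw [h2, div_self (by positivity), mul_one] at h1
    exact h1
  -- all boxes
  have hall : ∀ K : ℕ, ∑ v ∈ bx (4 * (2 ^ K * m)), PT p r (C0 v) ≤
      (C + 100 * C₁ * (2 - 2 * (1 / 2) ^ K)) * m ^ 2 * π ^ 2 := by
    intro K
    induction K with
    | zero =>
      simp only [pow_zero, one_mul]
      refine (hnear p hp m hm).trans (le_of_eq ?_)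
      ring
    | succ K ih =>
      have hn1 : 1 ≤ 2 ^ K * m := Nat.one_le_iff_ne_zero.2 (by positivity)
      have hsub : bx (4 * (2 ^ K * m)) ⊆ bx (4 * (2 ^ (K + 1) * m)) := by
        apply bx_mono
        rw [pow_succ]
        nlinarith
      rw [← Finset.sum_sdiff hsub]
      have hit := qc_iter hm hq K
      have h1 : ∀ v ∈ bx (4 * (2 ^ (K + 1) * m)) \ bx (4 * (2 ^ K * m)),
          PT p r (C0 v) ≤ (C₁ * π ^ 2) * (4 * (1 / 121 * (1 / 2) ^ (2 ^ K))) := by
        intro v hv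
        rw [Finset.mem_sdiff, mem_bx, mem_bx] at hv
        have h2 := far_le p r (m := m) (n := 2 ^ K * m) hm
          (Nat.le_mul_of_pos_left _ (by positivity)) (v := v) (by omega)
        refine h2.trans ?_
        have h3 : 0 ≤ qc (σ p) (!r) (2 ^ K * m) := PT_nonneg
        gcongr
      have h2 : ∑ v ∈ bx (4 * (2 ^ (K + 1) * m)) \ bx (4 * (2 ^ K * m)), PT p r (C0 v) ≤
          (100 * C₁ * (1 / 2) ^ K) * m ^ 2 * π ^ 2 := by
        refine (Finset.sum_le_card_nsmul _ _ _ h1).trans ?_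
        rw [nsmul_eq_mul]
        have h3 : ((bx (4 * (2 ^ (K + 1) * m)) \ bx (4 * (2 ^ K * m))).card : ℝ) ≤
            289 * 4 ^ K * m ^ 2 := by
          refine (Nat.cast_le.2 (Finset.card_le_card Finset.sdiff_subset)).trans ?_
          rw [card_bx]
          push_cast
          have h5 : (1 : ℝ) ≤ 2 ^ K * m := by
            have : (1 : ℝ) ≤ 2 ^ K := one_le_pow₀ (by norm_num)
            nlinarith
          have h9 : (4 : ℝ) ^ K = ((2 : ℝ) ^ K) ^ 2 := by
            rw [← pow_mul, mul_comm, pow_mul]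
            norm_num
          calc ((2 : ℝ) * (4 * ((2 : ℝ) ^ (K + 1) * (m : ℝ))) + 1) ^ 2
              ≤ (17 * ((2 : ℝ) ^ K * (m : ℝ))) ^ 2 := by
                gcongr
                rw [pow_succ]
                linarith
            _ = 289 * 4 ^ K * (m : ℝ) ^ 2 := by
                rw [h9]
                ring
        have h6 := pow_dbl K
        calc ((bx (4 * (2 ^ (K + 1) * m)) \ bx (4 * (2 ^ K * m))).card : ℝ) *
              ((C₁ * π ^ 2) * (4 * (1 / 121 * (1 / 2) ^ (2 ^ K))))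
            ≤ (289 * 4 ^ K * m ^ 2) * ((C₁ * π ^ 2) * (4 * (1 / 121 * (1 / 2) ^ (2 ^ K)))) := by
              gcongr
          _ = 289 * 4 / 121 * (4 ^ K * (1 / 2) ^ (2 ^ K)) * C₁ * m ^ 2 * π ^ 2 := by ring
          _ ≤ 289 * 4 / 121 * (4 * (1 / 2) ^ K) * C₁ * m ^ 2 * π ^ 2 := by gcongr
          _ = (289 * 16 / 121) * C₁ * (1 / 2) ^ K * m ^ 2 * π ^ 2 := by ring
          _ ≤ 100 * C₁ * (1 / 2) ^ K * m ^ 2 * π ^ 2 := by
              gcongr
              norm_num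
      calc _ ≤ (100 * C₁ * (1 / 2) ^ K) * m ^ 2 * π ^ 2 +
            (C + 100 * C₁ * (2 - 2 * (1 / 2) ^ K)) * m ^ 2 * π ^ 2 := add_le_add h2 ih
        _ = _ := by rw [pow_succ]; ring
  obtain ⟨K, hK⟩ : ∃ K : ℕ, F ⊆ bx (4 * (2 ^ K * m)) := by
    refine ⟨F.sup nrm, fun v hv => ?_⟩
    rw [mem_bx]
    have h1 : nrm v ≤ F.sup nrm := Finset.le_sup hv
    have h2 : F.sup nrm < 2 ^ (F.sup nrm) := Nat.lt_pow_self (by norm_num)
    have h3 : 2 ^ (F.sup nrm) ≤ 2 ^ (F.sup nrm) * m := Nat.le_mul_of_pos_right _ hm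
    omega
  calc ∑ v ∈ F, PT p r (C0 v) ≤ ∑ v ∈ bx (4 * (2 ^ K * m)), PT p r (C0 v) :=
        Finset.sum_le_sum_of_subset_of_nonneg hK fun v _ _ => hP0 v
    _ ≤ (C + 100 * C₁ * (2 - 2 * (1 / 2) ^ K)) * m ^ 2 * π ^ 2 := hall K
    _ ≤ (C + 200 * C₁) * m ^ 2 * π ^ 2 := by
        have h5 : (0 : ℝ) ≤ (1 / 2) ^ K := by positivity
        have h6 : 100 * C₁ * (2 - 2 * (1 / 2) ^ K) ≤ 200 * C₁ := by
          nlinarith [mul_nonneg hC₁.le h5]
        have h7 : (0 : ℝ) ≤ m ^ 2 * π ^ 2 := by positivity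
        nlinarith [mul_nonneg (sub_nonneg.2 h6) h7]

end Pool.Agent.H13.SK

end

section

/-! # Finite size criterion with arms -/

set_option autoImplicit false

open MeasureTheory ProbabilityTheory unitInterval

namespace Pool.Agent.H83.Site

open Pool.Agent.H89.Perc

theorem fs_strong {p₀ : I} {r : Bool} (h : BXP p₀ r) : ∃ ε > (0 : ℝ), ∃ c > (0 : ℝ),
    ∀ p : I, p₀ ≤ p → ∀ m : ℕ, 1 ≤ m →
      1 - ε ≤ PT p r {η | HC η m (25 * m) (-m) (4 * m)} → c * ab p r 0 m ≤ thT p r := by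
  obtain ⟨c₀, hc₀, hB⟩ := h 4
  obtain ⟨c₁, hc₁, hA⟩ := arm_extT h
  refine ⟨1 / 242, by norm_num, c₀ ^ 4 * (1 / 2) * (c₁ * Real.sqrt (1 / 48)), by positivity, ?_⟩
  intro p hp m hm hHC
  set M : ℕ := 5 * m + 1 with hM
  have hM1 : 1 ≤ M := by omega
  -- the failure probability
  have hq : qc p r M ≤ 1 / 242 := by
    rw [qc_eq p r hM1]
    have h1 : PT p r {η | HC η m (25 * m) (-m) (4 * m)} ≤
        PT p r {η | HC η 0 (4 * (M : ℕ)) 1 (M : ℕ)} := by
      rw [← PT_HC_shf p r 0 (4 * (M : ℕ)) 1 (M : ℕ) m (-m - 1)]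
      refine PT_mono fun η hη => ?_
      simp only [Set.mem_ofPred_eq] at hη ⊢
      refine hη.mono (by omega) (by omega) (by rw [hM]; push_cast; omega) (by omega)
        (by rw [hM]; push_cast; omega)
    have h2 : PT p r {η | HC η 0 (4 * (M : ℕ)) 1 (M : ℕ)} = PT p r {η | HC η 0 (4 * M) 1 M} := rfl
    linarith
  -- connection to distance `N`
  refine le_thT (n₀ := 8 * M) ?_
  intro N hN
  have h1 : 1 / 2 ≤ ab p r (4 * M) N := fs_chain hM1 hq (by omega)
  have h2 : c₀ ^ 4 ≤ PT p r (CircE (4 * M)) := circ_prob hc₀ hB hp (by omega)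
  have h3 : c₁ * Real.sqrt ((m : ℝ) / (8 * M : ℕ)) * ab p r 0 m ≤ ab p r 0 (8 * M) :=
    hA p hp m (8 * M) hm (by omega)
  have h4 : Real.sqrt (1 / 48) ≤ Real.sqrt ((m : ℝ) / (8 * M : ℕ)) := by
    apply Real.sqrt_le_sqrt
    have hm0 : (1 : ℝ) ≤ m := by exact_mod_cast hm
    rw [div_le_div_iff₀ (by norm_num) (by positivity)]
    rw [hM]; push_cast; nlinarith
  have hloc1 := localOn_AB 0 0 0 (8 * M)
  have hloc2 := localOn_CircE (4 * M)
  have hloc3 := localOn_AB 0 0 (4 * M) N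
  have h5 : PT p r (AB 0 0 0 (8 * M)) * PT p r (CircE (4 * M)) ≤
      PT p r (AB 0 0 0 (8 * M) ∩ CircE (4 * M)) :=
    PT_fkg hloc1 hloc2 (incr_AB _ _ _ _) (incr_CircE _)
  have hloc12 : LocalOn (eRect (0 - (8 * M : ℕ)) (0 + (8 * M : ℕ)) (0 - (8 * M : ℕ))
      (0 + (8 * M : ℕ)) ∪ eRect (-(2 * (4 * M : ℕ))) (2 * (4 * M : ℕ)) (-(2 * (4 * M : ℕ)))
      (2 * (4 * M : ℕ))) (AB 0 0 0 (8 * M) ∩ CircE (4 * M)) := by
    classical
    exact (hloc1.mono Finset.subset_union_left).inter (hloc2.mono Finset.subset_union_right)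
  have h6 : PT p r (AB 0 0 0 (8 * M) ∩ CircE (4 * M)) * PT p r (AB 0 0 (4 * M) N) ≤
      PT p r ((AB 0 0 0 (8 * M) ∩ CircE (4 * M)) ∩ AB 0 0 (4 * M) N) :=
    PT_fkg hloc12 hloc3 ((incr_AB _ _ _ _).inter (incr_CircE _)) (incr_AB _ _ _ _)
  have h7 : PT p r ((AB 0 0 0 (8 * M) ∩ CircE (4 * M)) ∩ AB 0 0 (4 * M) N) ≤ ab p r 0 N := by
    refine PT_mono ?_
    rintro η ⟨⟨ha, hb⟩, hc⟩
    refine arm_glue (s := 4 * M) (by omega) (by omega) (by omega) hb ?_ hc
    have : 2 * (4 * M) = 8 * M := by ring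
    rw [this]; exact ha
  have hab0 : 0 ≤ ab p r 0 m := ab_nonneg
  have hab1 : 0 ≤ ab p r 0 (8 * M) := ab_nonneg
  have h8 : (c₁ * Real.sqrt (1 / 48)) * ab p r 0 m ≤ PT p r (AB 0 0 0 (8 * M)) := by
    refine le_trans ?_ h3
    gcongr
  have hx0 : 0 ≤ (c₁ * Real.sqrt (1 / 48)) * ab p r 0 m := by positivity
  calc c₀ ^ 4 * (1 / 2) * (c₁ * Real.sqrt (1 / 48)) * ab p r 0 m
      = ((c₁ * Real.sqrt (1 / 48)) * ab p r 0 m) * c₀ ^ 4 * (1 / 2) := by ring
    _ ≤ PT p r (AB 0 0 0 (8 * M)) * PT p r (CircE (4 * M)) * PT p r (AB 0 0 (4 * M) N) := by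
        have h9 : ((c₁ * Real.sqrt (1 / 48)) * ab p r 0 m) * c₀ ^ 4 ≤
            PT p r (AB 0 0 0 (8 * M)) * PT p r (CircE (4 * M)) :=
          mul_le_mul h8 h2 (by positivity) PT_nonneg
        exact mul_le_mul h9 h1 (by norm_num) (mul_nonneg PT_nonneg PT_nonneg)
    _ ≤ PT p r (AB 0 0 0 (8 * M) ∩ CircE (4 * M)) * PT p r (AB 0 0 (4 * M) N) :=
        mul_le_mul_of_nonneg_right h5 PT_nonneg
    _ ≤ _ := h6.trans h7

end Pool.Agent.H83.Site

end

section

/-!
# Good scales of site percolation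

`Good δ p r m`: the square of side `4 m` is crossed with probability at least `1 - δ` by paths of
the colour `r` (`r = false`: open sites of the square lattice, `r = true`: sites of the matching
lattice).
-/

set_option autoImplicit false

open MeasureTheory ProbabilityTheory unitInterval

namespace Pool.Agent.H13.SK

open Pool.Agent.H89.Perc Pool.Agent.H83.Site

/-- The square of side `4 m` is crossed with probability at least `1 - δ`. -/
def Good (δ : ℝ) (p : I) (r : Bool) (m : ℕ) : Prop :=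
  1 - δ ≤ PT p r {η | HC η 0 (4 * m) 0 (4 * m)}

theorem Good.mono {δ δ' : ℝ} (h : δ ≤ δ') {p : I} {r : Bool} {m : ℕ} (hg : Good δ p r m) :
    Good δ' p r m := by
  unfold Good at hg ⊢
  linarith

/-- At a good scale long rectangles are crossed. -/
theorem good_long {δ : ℝ} (hδ : 0 ≤ δ) {p : I} {r : Bool} {m : ℕ} (hm : 1 ≤ m)
    (h : Good δ p r m) : 1 - 100 * Real.sqrt δ ≤ PT p r {η | HC η 0 (24 * m) 0 (4 * m)} := by
  have h1 := near_rsw p r (l := 2 * m) (by omega) hδ (by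
    have e : (2 : ℤ) * ((2 * m : ℕ) : ℤ) = 4 * m := by push_cast; ring
    rw [e]
    exact h)
  have e1 : (12 : ℤ) * ((2 * m : ℕ) : ℤ) = 24 * m := by push_cast; ring
  have e2 : (2 : ℤ) * ((2 * m : ℕ) : ℤ) = 4 * m := by push_cast; ring
  rw [e1, e2] at h1
  exact h1

theorem sqrt_small : 100 * Real.sqrt (1 / 10 ^ 10) = 1 / 1000 := by
  have : (1 : ℝ) / 10 ^ 10 = (1 / 10 ^ 5) ^ 2 := by norm_num
  rw [this, Real.sqrt_sq (by norm_num)]
  norm_num

/-- At a good scale the other colour decays. -/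
theorem good_qc {p : I} {r : Bool} {m : ℕ} (hm : 1 ≤ m) (h : Good (1 / 10 ^ 10) p r m) :
    qc p r (4 * m + 1) ≤ 1 / 242 := by
  have h1 := good_long (by norm_num) hm h
  rw [sqrt_small] at h1
  rw [qc_eq p r (by omega)]
  have h2 : PT p r {η | HC η 0 (24 * m) 0 (4 * m)} ≤
      PT p r {η | HC η 0 (4 * ((4 * m + 1 : ℕ) : ℤ)) 1 ((4 * m + 1 : ℕ) : ℤ)} := by
    rw [← PT_HC_shf p r 0 (24 * m) 0 (4 * m) 0 1]
    refine PT_mono fun η hη => ?_
    simp only [Set.mem_ofPred_eq] at hη ⊢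
    exact hη.mono (by omega) (by omega) (by push_cast; omega) (by omega) (by push_cast; omega)
  linarith

/-- At a good scale the percolation probability is comparable to the one-arm probability. -/
theorem theta_low {p₀ : I} {r : Bool} (h : BXP p₀ r) : ∃ δ > (0 : ℝ), ∃ c > (0 : ℝ),
    ∀ p : I, p₀ ≤ p → ∀ m : ℕ, 1 ≤ m → Good δ p r m → c * ab p r 0 m ≤ thT p r := by
  obtain ⟨ε, hε, c, hc, H⟩ := fs_strong h
  refine ⟨(ε / 100) ^ 2, by positivity, c, hc, fun p hp m hm hg => H p hp m hm ?_⟩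
  have h1 := good_long (by positivity) hm hg
  rw [Real.sqrt_sq (by positivity)] at h1
  have h2 : PT p r {η | HC η 0 (24 * m) 0 (4 * m)} ≤
      PT p r {η | HC η m (25 * m) (-m) (4 * m)} := by
    rw [← PT_HC_shf p r 0 (24 * m) 0 (4 * m) m 0]
    refine PT_mono fun η hη => ?_
    simp only [Set.mem_ofPred_eq] at hη ⊢
    exact hη.mono (by omega) (by omega) (by omega) (by omega) (by omega)
  linarith

end Pool.Agent.H13.SK

end

section

/-!
# Chains of circuits
-/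

open MeasureTheory ProbabilityTheory unitInterval

namespace Pool.Agent.H83.SK

open Pool.Agent.H57.EX

open Pool.Agent.H89.Perc Pool.Agent.H61.NC Pool.Agent.H29.Sep

/-- Probability of a chain of circuits (from `circ_lower` and `fkg_many`). -/
theorem allCirc_lower (c : ℝ) (hc : 0 < c) : ∃ c' : ℝ, 0 < c' ∧ c' ≤ 1 ∧ ∀ (m : ℕ) (q : I),
    1 ≤ m → RSWreg c m q → ∀ (γ : ℕ → Vert) (n s : ℕ), 1 ≤ s → s ≤ m →
      c' ^ (n + 1) ≤ Pr q (AllCirc γ n s) := by
  classical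
  obtain ⟨c1, hc1, H⟩ := circ_lower c hc 1
  refine ⟨min c1 1, lt_min hc1 one_pos, min_le_right _ _, ?_⟩
  intro m q hm hq γ n s hs hsm
  have h1 := fkg_many (p := q) (Finset.range (n + 1)) (fun i => Circ (γ i) s)
    (fun i => eCirc (γ i) s) (c := min c1 1) (le_min hc1.le zero_le_one)
    (fun i _ => localOn_circ _ _) (fun i _ => incr_circ _ _)
    (fun i _ => (min_le_left _ _).trans (H m q hm hq (γ i) s hs (by omega)))
  rw [Finset.card_range] at h1
  have h2 : (⋂ i ∈ Finset.range (n + 1), Circ (γ i) s) = AllCirc γ n s := by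
    ext ω
    rw [Set.mem_iInter₂]
    constructor
    · intro h i hi
      exact h i (Finset.mem_range.mpr (by omega))
    · intro h i hi
      exact h i (by have := Finset.mem_range.mp hi; omega)
  rwa [h2] at h1

/-- Probability of the sealing event (from `noarm_lower` and `fkg_decr_many`). -/
theorem seal_lower (c : ℝ) (hc : 0 < c) : ∃ c' : ℝ, 0 < c' ∧ c' ≤ 1 ∧ ∀ (m : ℕ) (q : I),
    1 ≤ m → RSWreg c m q → ∀ (V : Finset Vert) (s : ℕ), 1 ≤ s → s ≤ m →
      c' ^ V.card ≤ Pr q {ω | ∀ v ∈ V, ω ∉ ArmBox v s (3 * s)} := by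
  classical
  obtain ⟨c1, hc1, H⟩ := noarm_lower c hc 1
  refine ⟨min c1 1, lt_min hc1 one_pos, min_le_right _ _, ?_⟩
  intro m q hm hq V s hs hsm
  have hcompl : ∀ v : Vert, {ω | ¬ ∃ u ∈ ball v s, ∃ u' ∈ sphere v (3 * s),
      Conn ω (ball v (3 * s)) u u'} = (ArmBox v s (3 * s))ᶜ := fun v => rfl
  have h1 := fkg_decr_many (p := q) V (fun v => (ArmBox v s (3 * s))ᶜ)
    (fun v => eRect (v.1 - ((3 * s : ℕ) : ℤ)) (v.1 + ((3 * s : ℕ) : ℤ))
      (v.2 - ((3 * s : ℕ) : ℤ)) (v.2 + ((3 * s : ℕ) : ℤ)))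
    (c := min c1 1) (le_min hc1.le zero_le_one)
    (fun v _ => (localOn_armBox v s (3 * s)).compl)
    (fun v _ => by rw [compl_compl]; exact incr_armBox _ _ _)
    (fun v _ => by
      rw [← hcompl]
      exact (min_le_left _ _).trans (H m q hm hq v s hs (by omega)))
  have h2 : (⋂ v ∈ V, (ArmBox v s (3 * s))ᶜ) = {ω | ∀ v ∈ V, ω ∉ ArmBox v s (3 * s)} := by
    ext ω
    rw [Set.mem_iInter₂]
    rfl
  rwa [h2] at h1

end Pool.Agent.H83.SK

end

section

/-!
# Site percolation, box-crossing regime: blocking, decay, half circuits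
-/

open MeasureTheory ProbabilityTheory unitInterval

namespace Pool.Agent.H83.SK

open Pool.Agent.H26.HP

open Pool.Agent.H89.Perc

variable {ω ω' : Config} {D X S : Set Vert} {R n : ℕ} {q : I} {c : ℝ}

lemma hreg_le_one (h : RSWreg c n q) (hn : 1 ≤ n) : c ≤ 1 :=
  ((h 1 le_rfl hn).1).trans Pr_le_one

/-- The complement has probability at least `c⁴`. -/
theorem hnoCross_reg (hc : 0 < c) (h : RSWreg c n q) {s r : ℕ} (hr : 2 * s ≤ r) (hr1 : 1 ≤ r)
    (hrn : r ≤ n) : c ^ 4 ≤ Pr q (ArmBox 0 s r)ᶜ := by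
  rw [Pr_compl (localOn_armBox 0 s r)]
  linarith [armBox_reg_le hc h hr hr1 hrn]

/-- Polynomial decay of annulus crossings in the box-crossing regime. -/
theorem hdecay (c : ℝ) (hc : 0 < c) : ∃ C κ : ℝ, 0 < C ∧ 0 < κ ∧ κ ≤ 1 ∧
    ∀ (n : ℕ) (q : I), RSWreg c n q → ∀ s r : ℕ, 1 ≤ s → s ≤ r → r ≤ n →
      Pr q (ArmBox 0 s r) ≤ C * ((s : ℝ) / r) ^ κ := by
  obtain ⟨C, a, hC, ha, ha4, h⟩ := armBox_decay0 hc
  exact ⟨C, a, hC, ha, by linarith, fun n q hreg s r hs hsr hrn => h n s r q hreg hs hsr hrn⟩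

theorem hHC_ge (hc : 0 < c) {s : ℕ} (hs : 1 ≤ s) (h : RSWreg c s q) : c ^ 3 ≤ Pr q (HC s) := by
  classical
  have k2 : c ≤ Pr q {ω | HCross ω (-(2 * (s : ℤ))) (2 * s) s (2 * s)} :=
    reg_hcross h hs le_rfl (by omega) (by omega) (by omega)
  have k1 : c ≤ Pr q {ω | VCross ω (-(2 * (s : ℤ))) (-s) 0 (2 * s)} :=
    reg_vcross h hs le_rfl (by omega) (by omega) (by omega)
  have k3 : c ≤ Pr q {ω | VCross ω (s : ℤ) (2 * s) 0 (2 * s)} :=
    reg_vcross h hs le_rfl (by omega) (by omega) (by omega)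
  have h12 := fkg (p := q) (localOn_vcross (-(2 * (s : ℤ))) (-s) 0 (2 * s))
    (localOn_hcross (-(2 * (s : ℤ))) (2 * s) s (2 * s)) (incr_vcross _ _ _ _) (incr_hcross _ _ _ _)
  have h123 := fkg (p := q) ((localOn_vcross (-(2 * (s : ℤ))) (-s) 0 (2 * s)).inter'
    (localOn_hcross (-(2 * (s : ℤ))) (2 * s) s (2 * s))) (localOn_vcross (s : ℤ) (2 * s) 0 (2 * s))
    ((incr_vcross _ _ _ _).inter (incr_hcross _ _ _ _)) (incr_vcross _ _ _ _)
  have h12' := (mul_le_mul k1 k2 hc.le Pr_nonneg).trans h12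
  have h' := (mul_le_mul h12' k3 hc.le Pr_nonneg).trans h123
  have e : c ^ 3 = c * c * c := by ring
  rw [e]
  exact h'

end Pool.Agent.H83.SK

end

section

/-!
# Half plane, one arm with a free side: the exponent is one

`E1 R z`: the cluster of `(z, 0)` in the half ball of radius `R` reaches distance `R` and does not
touch the base to the right of `(z, 0)`.  Its probability is at most `C / R`.
-/

open MeasureTheory ProbabilityTheory unitInterval

namespace Pool.Agent.H83.SK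

open Pool.Agent.H26.HP

open Pool.Agent.H89.Perc

variable {ω ω' : Config} {D X S : Set Vert} {R n : ℕ} {q : I} {c : ℝ}

lemma Pr_E1 (R : ℕ) (z : ℤ) : Pr q (E1 R z) = Pr q (E1 R 0) := by
  rw [← E1_shift R z, Pr_comp (localOn_E1 R) (isAut_shift _)]

/-- The main bound at scale `9 n`. -/
theorem E1_scale (hc : 0 < c) (hn : 1 ≤ n) (hreg : RSWreg c (8 * n) q) :
    (2 * (n : ℝ) + 1) * (c ^ 4 * Pr q (E1 (9 * n) 0)) ≤ 1 := by
  classical
  set D : Set Vert := hb 0 (8 * n) with hD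
  have hDR : D ⊆ ball 0 (8 * n) := hb_subset_ball (by simp)
  -- the events
  set A : ℤ → Set Config := fun z => {ω | (∃ w ∈ sphere 0 (8 * n), Conn ω D (z, 0) w) ∧
    ∀ x : ℤ, z < x → x ≤ n → ¬ Conn ω D (z, 0) (x, 0)} with hA
  set B : ℤ → Set Config := fun z => {ω | (∃ w ∈ sphere 0 (8 * n), Conn ω D (z, 0) w) ∧
    ∀ x : ℤ, z < x → x ≤ n → ¬ ∃ w ∈ sphere 0 (8 * n), Conn ω D (x, 0) w} with hB
  have h0 : ∀ z : ℤ, -(n : ℤ) ≤ z → z ≤ n → c ^ 4 * Pr q (A z) ≤ Pr q (B z) := by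
    intro z hz1 hz2
    set Φ : Set Vert → Prop := fun S => (∃ w ∈ sphere 0 (8 * n), w ∈ S) ∧
      ∀ x : ℤ, z < x → x ≤ n → ((x, 0) : Vert) ∉ S with hΦ
    refine explore (X := {(z, 0)}) (A' := fun S _ => {ω | Φ S})
      (G := fun S U => {ω | Φ S ∧ ∀ x : ℤ, z < x → x ≤ n →
        ¬ ∃ w ∈ sphere 0 (8 * n), Conn ω (D \ U) (x, 0) w}) hDR (by positivity) ?_ ?_ ?_ ?_ ?_
    · rintro ω ⟨⟨w, hw, h1⟩, h2⟩
      refine ⟨⟨w, hw, (z, 0), rfl, h1⟩, ?_⟩
      rintro x h3 h4 ⟨_, rfl, h5⟩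
      exact h2 x h3 h4 h5
    · intro S U ω ω' _ h
      exact h
    · rintro S U ω ω' hω ⟨h1, h2⟩
      refine ⟨h1, fun x h3 h4 => ?_⟩
      rintro ⟨w, hw, h5⟩
      refine h2 x h3 h4 ⟨w, hw, ?_⟩
      exact localOn_conn_in (Set.sdiff_subset.trans hDR) _ _ ω' ω (fun e he => (hω e he).symm) h5
    · intro S U _
      by_cases hS : Φ S
      · have e1 : {ω : Config | Φ S} = Set.univ := by
          ext ω; simp [hS]
        rw [e1, Pr_univ, mul_one]
        refine (hnoCross_reg hc hreg (s := n) (r := 8 * n) (by omega) (by omega) le_rfl).trans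
          (Pr_mono ?_)
        intro ω hω
        refine ⟨hS, fun x h3 h4 => ?_⟩
        rintro ⟨w, hw, h5⟩
        apply hω
        refine ⟨(x, 0), ?_, w, hw, h5.mono_set (Set.sdiff_subset.trans hDR)⟩
        simp only [mem_ball, Prod.fst_zero, Prod.snd_zero]
        omega
      · have e1 : {ω : Config | Φ S} = ∅ := by
          ext ω; simp [hS]
        rw [e1]
        rw [Pr_empty, mul_zero]
        exact Pr_nonneg
    · rintro ω ⟨⟨⟨w, hw, _, rfl, h1⟩, h2⟩, h3⟩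
      refine ⟨⟨w, hw, h1⟩, fun x h4 h5 => ?_⟩
      rintro ⟨w', hw', h6⟩
      refine h3 x h4 h5 ⟨w', hw', conn_offU (h2 x h4 h5) ?_ h6⟩
      rintro rfl
      have k := hw'.2
      simp only [Prod.fst_zero, Prod.snd_zero] at k
      push_cast at k
      omega
  -- disjointness
  have hsum : ∑ z ∈ Finset.Icc (-(n : ℤ)) n, Pr q (B z) ≤ 1 := by
    have hd : Set.PairwiseDisjoint (↑(Finset.Icc (-(n : ℤ)) n)) B := by
      intro z hz z' hz' hne
      rw [Finset.coe_Icc, Set.mem_Icc] at hz hz'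
      rw [Function.onFun, Set.disjoint_left]
      rintro ω ⟨h1, h2⟩ ⟨h3, h4⟩
      rcases lt_or_gt_of_ne hne with h | h
      · exact h2 z' h hz'.2 h3
      · exact h4 z h hz.2 h1
    have hm : ∀ z ∈ Finset.Icc (-(n : ℤ)) n, LocalOn (eIn (8 * n) D) (B z) := by
      intro z _
      have : LocalOn (eIn (8 * n) D) (B z) := by
        rintro ω ω' hω ⟨⟨w, hw, h1⟩, h2⟩
        refine ⟨⟨w, hw, localOn_conn_in hDR _ _ ω ω' hω h1⟩, fun x h3 h4 => ?_⟩
        rintro ⟨w', hw', h6⟩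
        exact h2 x h3 h4 ⟨w', hw', localOn_conn_in hDR _ _ ω' ω (fun e he => (hω e he).symm) h6⟩
      exact this
    rw [← Pr_biUnion (p := q) _ B _ hm fun i hi j hj hij =>
      hd (Finset.mem_coe.2 hi) (Finset.mem_coe.2 hj) hij]
    exact Pr_le_one
  -- comparison
  have hle : ∀ z ∈ Finset.Icc (-(n : ℤ)) n, c ^ 4 * Pr q (E1 (9 * n) 0) ≤ Pr q (B z) := by
    intro z hz
    rw [Finset.mem_Icc] at hz
    refine le_trans ?_ (h0 z hz.1 hz.2)
    refine mul_le_mul_of_nonneg_left ?_ (by positivity)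
    rw [← Pr_E1 (9 * n) z]
    refine Pr_mono ?_
    rintro ω ⟨⟨w, hw, h1⟩, h2⟩
    have habs : |z - 0| + ((8 * n : ℕ) : ℤ) ≤ ((9 * n : ℕ) : ℤ) := by
      push_cast
      rcases abs_cases (z - 0) with ⟨h4, h5⟩ | ⟨h4, h5⟩ <;> rw [h4] <;> omega
    refine ⟨?_, fun x h3 h4 h5 => ?_⟩
    · refine reach_restrict habs ?_ hw h1
      simp only [mem_ball]
      push_cast
      omega
    · exact h2 x h3 (by push_cast; omega) (h5.mono_set (hb_subset_hb habs))
  calc (2 * (n : ℝ) + 1) * (c ^ 4 * Pr q (E1 (9 * n) 0))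
      = ∑ _z ∈ Finset.Icc (-(n : ℤ)) n, c ^ 4 * Pr q (E1 (9 * n) 0) := by
        rw [Finset.sum_const, Int.card_Icc, nsmul_eq_mul]
        congr 1
        have : ((n : ℤ) + 1 - -(n : ℤ)).toNat = 2 * n + 1 := by omega
        rw [this]
        push_cast
        ring
    _ ≤ ∑ z ∈ Finset.Icc (-(n : ℤ)) n, Pr q (B z) := Finset.sum_le_sum hle
    _ ≤ 1 := hsum

/-- **(H1)** The one-arm event with a free side has probability at most `C / R`. -/
theorem E1_le (hc : 0 < c) (hR : 1 ≤ R) (hreg : RSWreg c R q) (z : ℤ) :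
    Pr q (E1 R z) ≤ 9 / (c ^ 4 * R) := by
  rw [Pr_E1]
  have hc1 : c ≤ 1 := hreg_le_one hreg hR
  have hc4 : c ^ 4 ≤ 1 := pow_le_one₀ hc.le hc1
  have hc40 : 0 < c ^ 4 := by positivity
  have hR0 : (0 : ℝ) < R := by exact_mod_cast hR
  rw [le_div_iff₀ (by positivity)]
  by_cases h9 : R < 9
  · have h1 : (R : ℝ) ≤ 9 := by exact_mod_cast h9.le
    calc Pr q (E1 R 0) * (c ^ 4 * R) ≤ 1 * (1 * 9) := by
          refine mul_le_mul Pr_le_one (mul_le_mul hc4 h1 hR0.le zero_le_one) (by positivity)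
            zero_le_one
      _ = 9 := by norm_num
  · set n := R / 9 with hn
    have hn1 : 1 ≤ n := by omega
    have hnR : 9 * n ≤ R := by omega
    have h1 := E1_scale (q := q) hc hn1 (rswreg_mono hreg (by omega))
    have h2 : Pr q (E1 R 0) ≤ Pr q (E1 (9 * n) 0) := Pr_mono (E1_anti hnR 0)
    have h3 : (R : ℝ) ≤ 9 * (2 * (n : ℝ) + 1) := by
      have : R ≤ 9 * (2 * n + 1) := by omega
      exact_mod_cast this
    calc Pr q (E1 R 0) * (c ^ 4 * R) ≤ Pr q (E1 (9 * n) 0) * (c ^ 4 * (9 * (2 * (n : ℝ) + 1))) := by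
          refine mul_le_mul h2 (mul_le_mul_of_nonneg_left h3 hc40.le) (by positivity) Pr_nonneg
      _ = 9 * ((2 * (n : ℝ) + 1) * (c ^ 4 * Pr q (E1 (9 * n) 0))) := by ring
      _ ≤ 9 * 1 := by linarith
      _ = 9 := by norm_num

end Pool.Agent.H83.SK

end

section

/-!
# The corridor lemma for site percolation

`pb π w` is the configuration `g ↦ w (π g)`.  Given a separated four-arm event, increasing events of
the sites of the corridor `C` and arbitrary events `H` of the sites which are neither in `C` nor in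
or adjacent (in the domain) to the two clusters (with filled targets) can be added at the cost of
constant factors.
-/

set_option autoImplicit false

open MeasureTheory ProbabilityTheory unitInterval

namespace Pool.Agent.H38.N59

open Pool.Agent.H89.Perc
open Pool.Agent.H83.SK (sv sit sit_true RSWreg)
open Pool.Agent.H59.EX (LocS inE touch clus closeS Side T Mouth Fence dom pb sat fkg_cond markov_indep)

theorem locS_mono {t t' : Set Edge} {A : Set Config} (h : LocS t A) (ht : t ⊆ t') :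
    LocS t' A := fun _ _ hw => h _ _ fun e he => hw e (ht he)

theorem locS_inter {t : Set Edge} {A B : Set Config} (h : LocS t A) (h' : LocS t B) :
    LocS t (A ∩ B) := fun w w' hw hm => ⟨h w w' hw hm.1, h' w w' hw hm.2⟩

theorem locS_localOn {t : Set Edge} {Λ : Finset Edge} {A : Set Config} (h : LocS t A)
    (ht : t ⊆ ↑Λ) : LocalOn Λ A := fun w w' hw => h w w' fun e he => hw e (by exact_mod_cast ht he)

private theorem locS_pb {π : Edge → Edge} {t : Set Edge} {A : Set Config} (h : LocS t A) :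
    LocS (π '' t) {w | pb π w ∈ A} := fun _ _ hw hm =>
  h _ _ (fun e he => hw (π e) ⟨e, he, rfl⟩) hm

private theorem incr_pb {π : Edge → Edge} {A : Set Config} (h : Incr A) :
    Incr {w | pb π w ∈ A} := fun _ _ hw hm => h _ _ (fun e he => hw (π e) he) hm

theorem vE_finite {S : Set Vert} (hS : S.Finite) : (vE S).Finite := by
  refine (hS.image sv).subset ?_
  rintro ⟨a, b, t⟩ ⟨h1, h2⟩
  refine ⟨(a, b), h2, ?_⟩
  have h3 : t = false := h1
  simp [sv, h3]

private theorem rect_finite (a b c d : ℤ) : (rect a b c d).Finite := by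
  refine Set.Finite.subset ((Set.finite_Icc a b).prod (Set.finite_Icc c d)) ?_
  rintro ⟨x, y⟩ ⟨h1, h2, h3, h4⟩
  exact ⟨⟨h1, h2⟩, ⟨h3, h4⟩⟩

private theorem T_finite (d : Side) (k : ℕ) : (T d k).Finite := by
  cases d <;> exact rect_finite _ _ _ _

theorem dom_finite (d d' : Side) (k : ℕ) : (dom d d' k).Finite :=
  (rect_finite _ _ _ _).union ((T_finite d k).union (T_finite d' k))

private theorem touch_mono {D S S' : Set Vert} (h : S ⊆ S') : touch D S ⊆ touch D S' :=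
  fun _ he => ⟨he.1, he.2.imp (fun x => h x) fun x => h x⟩

theorem rv_mono {D S S' : Set Vert} (h : S ⊆ S') : rv D S ⊆ rv D S' :=
  en_mono (touch_mono h)

/-- A path only looks at the sites determined by the cluster. -/
theorem conn_congr_rv {w w' : Config} {D : Set Vert} {x v : Vert}
    (h : ∀ g ∈ rv D (clus (sit w) D {x}), w g = w' g) (hc : Conn (sit w) D x v) :
    Conn (sit w') D x v := by
  have h1 : v ∈ clus (sit w) D {x} := ⟨x, rfl, hc⟩
  have h2 : clus (sit w') D {x} = clus (sit w) D {x} :=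
    locS_clus D {x} (clus (sit w) D {x}) w w' h rfl
  rw [← h2] at h1
  obtain ⟨y, hy, h3⟩ := h1
  rw [Set.mem_singleton_iff.1 hy] at h3
  exact h3

/-- A fence only looks at the sites of its target and at the sites determined by the cluster. -/
theorem fence_congr_rv {d : Side} {k : ℕ} {w w' : Config} {D : Set Vert} {x : Vert}
    (h1 : ∀ g ∈ vE (T d k), w g = w' g) (h2 : ∀ g ∈ rv D (clus (sit w) D {x}), w g = w' g)
    (h : Fence d k (sit w) D x) : Fence d k (sit w') D x := by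
  cases d <;> obtain ⟨u, v, hu, hv, k1, k2⟩ := h <;>
    exact ⟨u, v, hu, hv, conn_congr h1 k1, conn_congr_rv h2 k2⟩

private theorem fence_mono {d : Side} {k : ℕ} {w w' : Config} {D : Set Vert} {x : Vert}
    (h1 : ∀ g, w g = true → w' g = true) (h : Fence d k (sit w) D x) : Fence d k (sit w') D x :=
  Pool.Agent.H59.EX.fence_mono le_rfl (sit_mono h1) h

/-- The part of `Sep` about the filled configuration. -/
private def SepA (s : Src) (d d' : Side) (k : ℕ) : Set Config :=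
  {w | ¬ Conn (sit (s.ful d d' k w)) (dom d d' k) s.x s.y ∧
    (∀ v ∈ sphere 0 (32 * k), Conn (sit (s.ful d d' k w)) (dom d d' k) s.x v → v ∈ Mouth d k) ∧
    (∀ v ∈ sphere 0 (32 * k), Conn (sit (s.ful d d' k w)) (dom d d' k) s.y v → v ∈ Mouth d' k)}

/-- The increasing part of `Sep`. -/
private def SepG (s : Src) (d d' : Side) (k : ℕ) : Set Config :=
  {w | Fence d k (sit (s.cut w)) (dom d d' k) s.x ∧ Fence d' k (sit (s.cut w)) (dom d d' k) s.y}

private theorem sep_eq (s : Src) (d d' : Side) (k : ℕ) :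
    Sep s d d' k = SepA s d d' k ∩ SepG s d d' k := by
  ext w
  simp only [Sep, SepA, SepG, Set.mem_ofPred_eq, Set.mem_inter_iff]
  tauto

private theorem T_sub_dom (d d' : Side) (k : ℕ) : T d k ⊆ dom d d' k := fun _ h => Or.inr (Or.inl h)

private theorem T_sub_dom' (d d' : Side) (k : ℕ) : T d' k ⊆ dom d d' k :=
  fun _ h => Or.inr (Or.inr h)

private theorem locS_sepA (s : Src) (d d' : Side) (k : ℕ) :
    LocS (vE (dom d d' k) \ vE (T d k ∪ T d' k)) (SepA s d d' k) := by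
  rintro w w' h ⟨h1, h2, h3⟩
  have key : ∀ g ∈ vE (dom d d' k), s.ful d d' k w' g = s.ful d d' k w g := fun g hg =>
    fill_congr fun hne => (cut_congr (h g ⟨hg, hne⟩)).symm
  exact ⟨fun hc => h1 (conn_congr key hc), fun v hv hc => h2 v hv (conn_congr key hc),
    fun v hv hc => h3 v hv (conn_congr key hc)⟩

private theorem locS_sepG (s : Src) (d d' : Side) (k : ℕ) :
    LocS (vE (dom d d' k)) (SepG s d d' k) := by
  rintro w w' h ⟨h1, h2⟩
  have key : ∀ g ∈ vE (dom d d' k), s.cut w g = s.cut w' g := fun g hg => cut_congr (h g hg)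
  exact ⟨fence_congr (fun g hg => key g (vE_mono (T_sub_dom d d' k) hg)) key h1,
    fence_congr (fun g hg => key g (vE_mono (T_sub_dom' d d' k) hg)) key h2⟩

private theorem incr_sepG (s : Src) (d d' : Side) (k : ℕ) : Incr (SepG s d d' k) := by
  rintro w w' h ⟨h1, h2⟩
  exact ⟨fence_mono (cut_incr h) h1, fence_mono (cut_incr h) h2⟩

theorem locS_sep (s : Src) (d d' : Side) (k : ℕ) : LocS (vE (dom d d' k)) (Sep s d d' k) := by
  rw [sep_eq]
  exact locS_inter (locS_mono (locS_sepA s d d' k) Set.sdiff_subset) (locS_sepG s d d' k)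

theorem locS_FX (s : Src) (d d' : Side) (k : ℕ) (S : Set Vert) :
    LocS (rv (dom d d' k) S) {w | FX s d d' k w = S} :=
  fun _ _ h hw => clus_fill_congr (fun g hg _ => h g hg) hw

theorem locS_FY (s : Src) (d d' : Side) (k : ℕ) (S : Set Vert) :
    LocS (rv (dom d d' k) S) {w | FY s d d' k w = S} :=
  fun _ _ h hw => clus_fill_congr (fun g hg _ => h g hg) hw

private theorem clus_cut_sub {s : Src} {w : Config} {Z D X : Set Vert} :
    clus (sit (s.cut w)) D X ⊆ clus (sit (fillS Z (s.cut w))) D X := by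
  rintro v ⟨x, hx, hc⟩
  exact ⟨x, hx, conn_mono le_rfl (fun g hg => le_fillS hg) hc⟩

theorem mem_FX {s : Src} {d d' : Side} {k : ℕ} {w : Config} {v : Vert} :
    v ∈ FX s d d' k w ↔ Conn (sit (s.ful d d' k w)) (dom d d' k) s.x v := by
  simp [FX, clus]

theorem mem_FY {s : Src} {d d' : Side} {k : ℕ} {w : Config} {v : Vert} :
    v ∈ FY s d d' k w ↔ Conn (sit (s.ful d d' k w)) (dom d d' k) s.y v := by
  simp [FY, clus]

/-- Once the two clusters are known, `Sep` is decided by the sites of the clusters, their neighbours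
and the sites of the targets. -/
private theorem locS_sep_val (s : Src) (d d' : Side) (k : ℕ) {C : Set Vert}
    (hCT : T d k ∪ T d' k ⊆ C) (S S' : Set Vert) :
    LocS (rv (dom d d' k) (S ∪ S') ∪ vE C)
      {w | w ∈ Sep s d d' k ∧ FX s d d' k w = S ∧ FY s d d' k w = S'} := by
  rintro w w' h ⟨⟨h1, h2, h3, h4, h5⟩, hX, hY⟩
  have hX' : FX s d d' k w' = S := locS_FX s d d' k S w w'
    (fun e he => h e (Or.inl (rv_mono Set.subset_union_left he))) hX
  have hY' : FY s d d' k w' = S' := locS_FY s d d' k S' w w'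
    (fun e he => h e (Or.inl (rv_mono Set.subset_union_right he))) hY
  have cX : ∀ v, Conn (sit (s.ful d d' k w')) (dom d d' k) s.x v →
      Conn (sit (s.ful d d' k w)) (dom d d' k) s.x v := fun v hv => by
    rw [← mem_FX] at hv ⊢
    rw [hX]
    rw [hX'] at hv
    exact hv
  have cY : ∀ v, Conn (sit (s.ful d d' k w')) (dom d d' k) s.y v →
      Conn (sit (s.ful d d' k w)) (dom d d' k) s.y v := fun v hv => by
    rw [← mem_FY] at hv ⊢
    rw [hY]
    rw [hY'] at hv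
    exact hv
  refine ⟨⟨?_, ?_, fun hc => h3 (cX _ hc), fun v hv hc => h4 v hv (cX _ hc),
    fun v hv hc => h5 v hv (cY _ hc)⟩, hX', hY'⟩
  · refine fence_congr_rv (fun g hg => cut_congr (h g (Or.inr ?_))) (fun g hg => cut_congr
      (h g (Or.inl ?_))) h1
    · exact vE_mono (fun v hv => hCT (Or.inl hv)) hg
    · refine rv_mono (fun v hv => Or.inl ?_) hg
      rw [← hX]
      exact clus_cut_sub hv
  · refine fence_congr_rv (fun g hg => cut_congr (h g (Or.inr ?_))) (fun g hg => cut_congr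
      (h g (Or.inl ?_))) h2
    · exact vE_mono (fun v hv => hCT (Or.inr hv)) hg
    · refine rv_mono (fun v hv => Or.inr ?_) hg
      rw [← hY]
      exact clus_cut_sub hv

theorem corridor_prob {q : I} {π : Edge → Edge} {s : Src} {d d' : Side} {k : ℕ}
    {C : Set Vert} {Np : Set Config} {H : Set Vert → Set Config} {c₁ c₂ : ℝ}
    (hc₂ : 0 ≤ c₂) (hinj : Set.InjOn π (vE (dom d d' k ∪ C)))
    (hCT : T d k ∪ T d' k ⊆ C) (hC : C ∩ dom d d' k ⊆ T d k ∪ T d' k) (hCf : C.Finite)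
    (hN : LocS (vE C) Np) (iN : Incr Np) (hN1 : c₁ ≤ Pr q {w | pb π w ∈ Np})
    (hH : ∀ S, LocS (det π d d' k C S)ᶜ (H S))
    (hHΛ : ∃ Λ : Finset Edge, ∀ S, LocalOn Λ (H S))
    (hH1 : ∀ S, c₂ ≤ Pr q {w | pb π w ∈ H S}) :
    c₁ * c₂ * Pr q (Sep s d d' k) ≤
      Pr q {w | pb π w ∈ Sep s d d' k ∧ pb π w ∈ Np ∧
        pb π w ∈ H (FX s d d' k (pb π w) ∪ FY s d d' k (pb π w))} := by
  classical
  obtain ⟨ΛH, hΛH⟩ := hHΛ
  have hfin : (vE (dom d d' k ∪ C)).Finite := vE_finite ((dom_finite d d' k).union hCf)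
  obtain ⟨Λ, hΛ⟩ : ∃ Λ : Finset Edge, Λ = (hfin.toFinset ∪ ΛH).image π := ⟨_, rfl⟩
  have hsub : ∀ t : Set Edge, t ⊆ vE (dom d d' k ∪ C) → π '' t ⊆ ↑Λ := by
    rintro t ht _ ⟨e, he, rfl⟩
    rw [hΛ, Finset.mem_coe]
    exact Finset.mem_image_of_mem _ (Finset.mem_union_left _ (hfin.mem_toFinset.2 (ht he)))
  have hloc : ∀ {t : Set Edge} {A : Set Config}, LocS t A → t ⊆ vE (dom d d' k ∪ C) →
      LocalOn Λ {w | pb π w ∈ A} := fun h ht => locS_localOn (locS_pb h) (hsub _ ht)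
  have hdomsub : vE (dom d d' k) ⊆ vE (dom d d' k ∪ C) := vE_mono Set.subset_union_left
  have hCsub : vE C ⊆ vE (dom d d' k ∪ C) := vE_mono Set.subset_union_right
  have hrvsub : ∀ S, rv (dom d d' k) S ⊆ vE (dom d d' k ∪ C) := fun S => rv_sub.trans hdomsub
  have hZdom : vE (dom d d' k) \ vE (T d k ∪ T d' k) ⊆ vE (dom d d' k ∪ C) :=
    fun e he => hdomsub he.1
  -- Step A
  have hA : c₁ * Pr q (Sep s d d' k) ≤
      Pr q {w | pb π w ∈ Sep s d d' k ∧ pb π w ∈ Np} := by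
    have hdisj : π '' vE C ⊆ (π '' (vE (dom d d' k) \ vE (T d k ∪ T d' k)))ᶜ := by
      rintro _ ⟨e, he, rfl⟩ ⟨e', he', heq⟩
      have h1 : e' = e := hinj (hdomsub he'.1) (hCsub he) heq
      subst h1
      exact he'.2 ⟨he.1, hC ⟨he.2, he'.1.2⟩⟩
    have h1 := fkg_cond (q := q) (Λ := Λ)
      (t := π '' (vE (dom d d' k) \ vE (T d k ∪ T d' k)))
      (A := {w | pb π w ∈ SepA s d d' k}) (G := {w | pb π w ∈ SepG s d d' k})
      (H := {w | pb π w ∈ Np})
      (hloc (locS_sepA s d d' k) hZdom) (locS_pb (locS_sepA s d d' k))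
      (hloc (locS_sepG s d d' k) hdomsub) (incr_pb (incr_sepG s d d' k))
      (hloc hN hCsub) (locS_mono (locS_pb hN) hdisj) (incr_pb iN)
    have h2 : {w | pb π w ∈ SepA s d d' k} ∩ {w | pb π w ∈ SepG s d d' k} =
        {w | pb π w ∈ Sep s d d' k} := by
      rw [sep_eq]; rfl
    have h3 : Pr q {w | pb π w ∈ Sep s d d' k} = Pr q (Sep s d d' k) := by
      have hl : LocalOn (vE_finite (dom_finite d d' k)).toFinset (Sep s d d' k) :=
        locS_localOn (locS_sep s d d' k) (by simp)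
      refine Pr_comp hl ?_
      intro e he e' he' heq
      rw [Set.Finite.coe_toFinset] at he he'
      exact hinj (hdomsub he) (hdomsub he') heq
    rw [h2, h3] at h1
    calc c₁ * Pr q (Sep s d d' k) ≤ Pr q (Sep s d d' k) * Pr q {w | pb π w ∈ Np} := by
          rw [mul_comm]
          exact mul_le_mul_of_nonneg_left hN1 Pr_nonneg
      _ ≤ _ := h1
      _ ≤ _ := Pr_mono fun w hw => hw
  -- Step B
  have hB := markov_indep (q := q) (Λ := Λ) (c := c₂)
    (fun w => (FX s d d' k (pb π w), FY s d d' k (pb π w))) (fun _ => True)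
    (fun i => π '' (rv (dom d d' k) (i.1 ∪ i.2) ∪ vE C))
    (fun i => {w | pb π w ∈ {η | η ∈ Sep s d d' k ∧ FX s d d' k η = i.1 ∧ FY s d d' k η = i.2} ∩ Np})
    (fun i => {w | pb π w ∈ H (i.1 ∪ i.2)}) ?_ ?_ ?_ ?_ ?_ ?_ ?_ hc₂
  · refine le_trans ?_ (hB.trans (Pr_mono ?_))
    · have e : c₁ * c₂ * Pr q (Sep s d d' k) = c₂ * (c₁ * Pr q (Sep s d d' k)) := by ring
      rw [e]
      refine (mul_le_mul_of_nonneg_left hA hc₂).trans
        (mul_le_mul_of_nonneg_left (Pr_mono ?_) hc₂)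
      intro w hw
      exact ⟨trivial, ⟨hw.1, rfl, rfl⟩, hw.2⟩
    · intro w hw
      exact ⟨hw.2.1.1.1, hw.2.1.2, hw.2.2⟩
  · -- the values are local
    rintro ⟨S, S'⟩
    have h1 : LocS (vE (dom d d' k)) {η | FX s d d' k η = S ∧ FY s d d' k η = S'} :=
      fun w w' h hw => ⟨locS_FX s d d' k S w w' (fun e he => h e (rv_sub he)) hw.1,
        locS_FY s d d' k S' w w' (fun e he => h e (rv_sub he)) hw.2⟩
    have h2 := hloc h1 hdomsub
    have h3 : {w | (FX s d d' k (pb π w), FY s d d' k (pb π w)) = (S, S')} =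
        {w | pb π w ∈ {η | FX s d d' k η = S ∧ FY s d d' k η = S'}} := by
      ext w
      simp only [Set.mem_ofPred_eq, Prod.mk.injEq]
    rw [h3]
    exact h2
  · rintro ⟨S, S'⟩ -
    have h1 : LocS (rv (dom d d' k) (S ∪ S') ∪ vE C)
        {η | FX s d d' k η = S ∧ FY s d d' k η = S'} :=
      fun w w' h hw => ⟨locS_FX s d d' k S w w'
          (fun e he => h e (Or.inl (rv_mono Set.subset_union_left he))) hw.1,
        locS_FY s d d' k S' w w'
          (fun e he => h e (Or.inl (rv_mono Set.subset_union_right he))) hw.2⟩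
    have h2 := locS_pb (π := π) h1
    have h3 : {w | (FX s d d' k (pb π w), FY s d d' k (pb π w)) = (S, S')} =
        {w | pb π w ∈ {η | FX s d d' k η = S ∧ FY s d d' k η = S'}} := by
      ext w
      simp only [Set.mem_ofPred_eq, Prod.mk.injEq]
    rw [h3]
    exact h2
  · rintro ⟨S, S'⟩
    refine hloc (t := rv (dom d d' k) (S ∪ S') ∪ vE C) ?_ ?_
    · exact locS_inter (locS_sep_val s d d' k hCT S S') (locS_mono hN Set.subset_union_right)
    · rintro e (he | he)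
      · exact hrvsub _ he
      · exact hCsub he
  · rintro ⟨S, S'⟩ -
    exact locS_pb (locS_inter (locS_sep_val s d d' k hCT S S')
      (locS_mono hN Set.subset_union_right))
  · rintro ⟨S, S'⟩ w w' h hw
    refine hΛH (S ∪ S') _ _ (fun e he => h (π e) ?_) hw
    rw [hΛ]
    exact Finset.mem_image_of_mem _ (Finset.mem_union_right _ he)
  · rintro ⟨S, S'⟩ - w w' h hw
    refine hH (S ∪ S') _ _ (fun e he => h (π e) ?_) hw
    rintro ⟨e', he', heq⟩
    exact he ⟨e', he', heq.symm⟩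
  · rintro ⟨S, S'⟩ -
    exact hH1 (S ∪ S')

end Pool.Agent.H38.N59

end

section

/-!
# Symmetries of the separated events for sites, sum over sides
-/

set_option autoImplicit false

open MeasureTheory ProbabilityTheory unitInterval

namespace Pool.Agent.H38.N59

open Pool.Agent.H89.Perc
open Pool.Agent.H61.NC hiding RSWreg
open Pool.Agent.H83.SK (sv sit sit_true RSWreg)
open Pool.Agent.H59.EX (LocS inE touch clus closeS Side T Mouth Fence dom Gen OnSide fence_mem)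

private theorem sym_joins (g : Gen) (e : Edge) (a b : Vert) (h : Joins e a b) :
    Joins (g.e e) (g.v a) (g.v b) := by
  cases g
  · exact joins_swap e a b h
  · have := joins_reflX 0 e a b h
    rw [zero_sub, zero_sub] at this
    exact this
  · have := joins_reflY 0 e a b h
    rw [zero_sub, zero_sub] at this
    exact this

private theorem sym_ends (g : Gen) (e : Edge) :
    (src (g.e e) = g.v (src e) ∧ tgt (g.e e) = g.v (tgt e)) ∨
      (src (g.e e) = g.v (tgt e) ∧ tgt (g.e e) = g.v (src e)) := by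
  rcases sym_joins g e _ _ (joins_src_tgt e) with ⟨h1, h2⟩ | ⟨h1, h2⟩
  · exact Or.inl ⟨h1.symm, h2.symm⟩
  · exact Or.inr ⟨h2.symm, h1.symm⟩

/-- The action on the coordinates of the sites. -/
def gp (g : Gen) (e : Edge) : Edge := if e.2.2 = false then sv (g.v (src e)) else e

theorem gp_sv (g : Gen) (a : Vert) : gp g (sv a) = sv (g.v a) := by
  simp [gp, sv, src]

theorem gp_gp (g : Gen) (e : Edge) : gp g (gp g e) = e := by
  by_cases h : e.2.2 = false
  · have h1 : e = sv (src e) := by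
      obtain ⟨x, y, t⟩ := e
      have h4 : t = false := h
      simp [sv, src, h4]
    rw [h1, gp_sv, gp_sv, g.v_v]
  · have h1 : gp g e = e := by simp [gp, h]
    rw [h1, h1]

theorem gp_inj (g : Gen) : Function.Injective (gp g) :=
  Function.LeftInverse.injective (gp_gp g)

/-- The induced configuration of the transformed configuration. -/
theorem gp_sit (g : Gen) (ω : Config) : sit (fun e => ω (gp g e)) = fun e => sit ω (g.e e) := by
  funext e
  unfold sit
  change (ω (gp g (sv (src e))) && ω (gp g (sv (tgt e)))) = _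
  rw [gp_sv, gp_sv]
  rcases sym_ends g e with ⟨h1, h2⟩ | ⟨h1, h2⟩
  · rw [h1, h2]
  · rw [h1, h2, Bool.and_comm]

/-- The image of a source. -/
noncomputable def Src.map (g : Gen) (s : Src) : Src where
  x := g.v s.x
  y := g.v s.y
  V0 := s.V0.image g.v
  hx := (g.mem_ball 2 s.x).2 s.hx
  hy := (g.mem_ball 2 s.y).2 s.hy
  hV := by
    intro v hv
    obtain ⟨f, hf, rfl⟩ := Finset.mem_image.1 hv
    exact (g.mem_ball 2 f).2 (s.hV f hf)

/-- Exchange the two points. -/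
def Src.flip (s : Src) : Src := ⟨s.y, s.x, s.V0, s.hy, s.hx, s.hV⟩

/-- `x` reaches the side `d` of `ball 0 (8 w)`. -/
def Land (d : Side) (s : Src) (w : ℕ) : Set Config :=
  {ω | ∃ u, OnSide d (8 * w) u ∧ Conn (sit (s.cut ω)) (ball 0 (8 * w)) s.x u}

variable {q : I} {s : Src} {d d' : Side} {k r w : ℕ}

/-! ### The action on the constructions -/

private theorem sym_mem_vE (g : Gen) (S : Set Vert) (e : Edge) :
    e ∈ vE S ↔ gp g e ∈ vE {w | g.v w ∈ S} := by
  by_cases h : e.2.2 = false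
  · have h1 : e = sv (src e) := by
      obtain ⟨x, y, t⟩ := e
      have h4 : t = false := h
      simp [sv, src, h4]
    rw [h1, gp_sv, sv_mem_vE, sv_mem_vE, Set.mem_ofPred_eq, g.v_v]
  · have h1 : gp g e = e := by simp [gp, h]
    rw [h1]
    exact ⟨fun h2 => absurd h2.1 h, fun h2 => absurd h2.1 h⟩

private theorem sym_cut (g : Gen) (s : Src) (ω : Config) :
    (s.map g).cut (fun e => ω (gp g e)) = fun e => s.cut ω (gp g e) := by
  funext e
  have h : e ∈ vE ((s.map g).V0 : Set Vert) ↔ gp g e ∈ vE (s.V0 : Set Vert) := by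
    rw [sym_mem_vE g]
    have h2 : {w | g.v w ∈ ((s.map g).V0 : Set Vert)} = (s.V0 : Set Vert) := by
      ext a
      simp only [Set.mem_ofPred_eq, Finset.mem_coe, Src.map, Finset.mem_image]
      constructor
      · rintro ⟨b, hb, h3⟩
        have h4 := congrArg g.v h3
        rw [g.v_v, g.v_v] at h4
        rwa [← h4]
      · intro ha
        exact ⟨a, ha, rfl⟩
    rw [h2]
  rw [Bool.eq_iff_iff]
  unfold Src.cut
  rw [closeS_true, closeS_true, h]

private theorem sym_fill (g : Gen) (S : Set Vert) (η : Config) :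
    fillS S (fun e => η (gp g e)) = fun e => fillS {w | g.v w ∈ S} η (gp g e) := by
  funext e
  rw [Bool.eq_iff_iff, fillS_true, fillS_true, sym_mem_vE g]

private theorem sym_conn (g : Gen) (η : Config) (S : Set Vert) (u v : Vert) :
    Conn (sit (fun e => η (gp g e))) S u v ↔
      Conn (sit η) {w | g.v w ∈ S} (g.v u) (g.v v) := by
  rw [gp_sit]
  exact conn_invol g.e_e g.v_v (sym_joins g) S u v

private theorem sym_conn' (g : Gen) (η : Config) (S : Set Vert) (u v : Vert) :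
    Conn (sit (fun e => η (gp g e))) S (g.v u) (g.v v) ↔ Conn (sit η) {w | g.v w ∈ S} u v := by
  rw [sym_conn, g.v_v, g.v_v]

private theorem sym_T (g : Gen) (d : Side) (k : ℕ) (w : Vert) :
    g.v w ∈ T (g.s d) k ↔ w ∈ T d k := by
  cases g <;> cases d <;> simp only [Gen.v, Gen.s, T, rect, Set.mem_ofPred_eq] <;> omega

private theorem sym_Mouth (g : Gen) (d : Side) (k : ℕ) (w : Vert) :
    g.v w ∈ Mouth (g.s d) k ↔ w ∈ Mouth d k := by
  cases g <;> cases d <;> simp only [Gen.v, Gen.s, Mouth, rect, Set.mem_ofPred_eq] <;> omega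

private theorem sym_sphere (g : Gen) (r : ℕ) (a : Vert) : g.v a ∈ sphere 0 r ↔ a ∈ sphere 0 r := by
  have h := g.mem_ball r a
  unfold sphere
  simp only [Set.mem_ofPred_eq]
  rw [h]
  cases g <;> simp only [Gen.v, Prod.fst_zero, Prod.snd_zero] <;>
    refine and_congr_right fun _ => ?_ <;> omega

private theorem sym_side (g : Gen) (d : Side) (r : ℕ) (a : Vert) :
    OnSide (g.s d) r (g.v a) ↔ OnSide d r a := by
  unfold OnSide
  rw [sym_sphere]
  refine and_congr_right fun _ => ?_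
  cases g <;> cases d <;> simp only [Gen.v, Gen.s] <;> omega

private theorem sym_T' (g : Gen) (d : Side) (k : ℕ) : {w | g.v w ∈ T (g.s d) k} = T d k := by
  ext w
  exact sym_T g d k w

private theorem sym_ball' (g : Gen) (r : ℕ) : {w | g.v w ∈ ball 0 r} = ball 0 r := by
  ext w
  exact g.mem_ball r w

private theorem sym_TT (g : Gen) (d d' : Side) (k : ℕ) :
    {w | g.v w ∈ T (g.s d) k ∪ T (g.s d') k} = T d k ∪ T d' k := by
  ext w
  simp only [Set.mem_ofPred_eq, Set.mem_union, sym_T]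

private theorem sym_dom (g : Gen) (d d' : Side) (k : ℕ) :
    {w | g.v w ∈ dom (g.s d) (g.s d') k} = dom d d' k := by
  ext w
  simp only [dom, Set.mem_ofPred_eq, Set.mem_union, sym_T, g.mem_ball]

/-- The two ends of a crossing of the target. -/
private def sym_E (d : Side) (k : ℕ) (u v : Vert) : Prop :=
  match d with
  | .E => u.2 = -(3 * k) ∧ v.2 = 3 * k
  | .N => u.1 = -(3 * k) ∧ v.1 = 3 * k
  | .W => u.2 = -(3 * k) ∧ v.2 = 3 * k
  | .S => u.1 = -(3 * k) ∧ v.1 = 3 * k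

private theorem sym_fence_iff {d : Side} {k : ℕ} {ω : Config} {D : Set Vert} {x : Vert} :
    Fence d k ω D x ↔ ∃ u v, sym_E d k u v ∧ Conn ω (T d k) u v ∧ Conn ω D x u := by
  cases d
  all_goals
    constructor
    · rintro ⟨u, v, h1, h2, h3, h4⟩
      exact ⟨u, v, ⟨h1, h2⟩, h3, h4⟩
    · rintro ⟨u, v, ⟨h1, h2⟩, h3, h4⟩
      exact ⟨u, v, h1, h2, h3, h4⟩

private theorem sym_E_g (g : Gen) {d : Side} {k : ℕ} {u v : Vert} (h : sym_E d k u v) :
    sym_E (g.s d) k (g.v u) (g.v v) ∨ sym_E (g.s d) k (g.v v) (g.v u) := by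
  cases g <;> cases d <;> simp only [sym_E, Gen.s, Gen.v] at h ⊢ <;> omega

private theorem sym_fence (g : Gen) {d : Side} {k : ℕ} {η : Config} {D : Set Vert} {x : Vert}
    (hT : T (g.s d) k ⊆ D) (h : Fence d k (sit η) {w | g.v w ∈ D} x) :
    Fence (g.s d) k (sit (fun e => η (gp g e))) D (g.v x) := by
  obtain ⟨u, v, h1, h2, h3⟩ := sym_fence_iff.1 h
  have h2' : Conn (sit (fun e => η (gp g e))) (T (g.s d) k) (g.v u) (g.v v) := by
    rw [sym_conn', sym_T']
    exact h2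
  have h3' : Conn (sit (fun e => η (gp g e))) D (g.v x) (g.v u) := (sym_conn' g η D x u).2 h3
  rcases sym_E_g g h1 with h4 | h4
  · exact sym_fence_iff.2 ⟨_, _, h4, h2', h3'⟩
  · exact sym_fence_iff.2 ⟨_, _, h4, h2'.symm, h3'.trans (h2'.mono_set hT)⟩

private theorem sym_map_map (g : Gen) (s : Src) : (s.map g).map g = s := by
  obtain ⟨x, y, V0, hx, hy, hV⟩ := s
  simp only [Src.map, Src.mk.injEq]
  refine ⟨g.v_v x, g.v_v y, ?_⟩
  ext e
  simp only [Finset.mem_image]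
  constructor
  · rintro ⟨f, ⟨f', hf', rfl⟩, rfl⟩
    rw [g.v_v]
    exact hf'
  · intro he
    exact ⟨g.v e, ⟨e, he, rfl⟩, g.v_v e⟩

private theorem sym_ful (g : Gen) (s : Src) (d d' : Side) (k : ℕ) (ω : Config) :
    (s.map g).ful (g.s d) (g.s d') k (fun e => ω (gp g e)) =
      fun e => s.ful d d' k ω (gp g e) := by
  unfold Src.ful
  rw [sym_cut, sym_fill, sym_TT]

private theorem sym_T_dom (d d' : Side) (k : ℕ) : T d k ⊆ dom d d' k := fun _ h =>
  Or.inr (Or.inl h)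

private theorem sym_T_dom' (d d' : Side) (k : ℕ) : T d' k ⊆ dom d d' k := fun _ h =>
  Or.inr (Or.inr h)

private theorem sym_sep (g : Gen) {s : Src} {d d' : Side} {k : ℕ} {ω : Config}
    (h : ω ∈ Sep s d d' k) :
    (fun e => ω (gp g e)) ∈ Sep (s.map g) (g.s d) (g.s d') k := by
  obtain ⟨h1, h2, h3, h4, h5⟩ := h
  have hx : (s.map g).x = g.v s.x := rfl
  have hy : (s.map g).y = g.v s.y := rfl
  refine ⟨?_, ?_, ?_, ?_, ?_⟩
  · rw [sym_cut, hx]
    refine sym_fence g (sym_T_dom _ _ k) ?_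
    rw [sym_dom]
    exact h1
  · rw [sym_cut, hy]
    refine sym_fence g (sym_T_dom' _ _ k) ?_
    rw [sym_dom]
    exact h2
  · rw [sym_ful, hx, hy, sym_conn', sym_dom]
    exact h3
  · intro v hv hc
    rw [sym_ful, hx, sym_conn, sym_dom, g.v_v] at hc
    have h6 := h4 (g.v v) ((sym_sphere g _ v).2 hv) hc
    rw [← sym_Mouth g, g.v_v] at h6
    exact h6
  · intro v hv hc
    rw [sym_ful, hy, sym_conn, sym_dom, g.v_v] at hc
    have h6 := h5 (g.v v) ((sym_sphere g _ v).2 hv) hc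
    rw [← sym_Mouth g, g.v_v] at h6
    exact h6

private theorem sym_four (g : Gen) {s : Src} {r : ℕ} {ω : Config} (h : ω ∈ Four s r) :
    (fun e => ω (gp g e)) ∈ Four (s.map g) r := by
  obtain ⟨⟨u, hu, h1⟩, ⟨u', hu', h2⟩, h3⟩ := h
  have hx : (s.map g).x = g.v s.x := rfl
  have hy : (s.map g).y = g.v s.y := rfl
  refine ⟨⟨g.v u, (sym_sphere g r u).2 hu, ?_⟩, ⟨g.v u', (sym_sphere g r u').2 hu', ?_⟩, ?_⟩
  · rw [sym_cut, hx, sym_conn', sym_ball']
    exact h1
  · rw [sym_cut, hy, sym_conn', sym_ball']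
    exact h2
  · rw [sym_cut, hx, hy, sym_conn', sym_ball']
    exact h3

private theorem sym_land (g : Gen) {s : Src} {d : Side} {w : ℕ} {ω : Config}
    (h : ω ∈ Land d s w) : (fun e => ω (gp g e)) ∈ Land (g.s d) (s.map g) w := by
  obtain ⟨u, hu, h1⟩ := h
  have hx : (s.map g).x = g.v s.x := rfl
  refine ⟨g.v u, (sym_side g d _ u).2 hu, ?_⟩
  rw [sym_cut, hx, sym_conn', sym_ball']
  exact h1

theorem localOn_sep (s : Src) (d d' : Side) (k : ℕ) : ∃ Λ : Finset Edge, LocalOn Λ (Sep s d d' k) :=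
  ⟨(vE_finite (dom_finite d d' k)).toFinset, locS_localOn (locS_sep s d d' k) (by simp)⟩

theorem locS_four (s : Src) (r : ℕ) : LocS (vE (ball 0 r)) (Four s r) := by
  have key : ∀ ω ω' : Config, (∀ e ∈ vE (ball 0 r), ω e = ω' e) →
      ∀ u v, Conn (sit (s.cut ω)) (ball 0 r) u v → Conn (sit (s.cut ω')) (ball 0 r) u v :=
    fun ω ω' h u v hc => conn_congr (fun e he => cut_congr (h e he)) hc
  rintro ω ω' h ⟨⟨u, hu, h1⟩, ⟨u', hu', h2⟩, h3⟩
  exact ⟨⟨u, hu, key _ _ h _ _ h1⟩, ⟨u', hu', key _ _ h _ _ h2⟩,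
    fun h4 => h3 (key _ _ (fun e he => (h e he).symm) _ _ h4)⟩

theorem locS_land (d : Side) (s : Src) (w : ℕ) : LocS (vE (ball 0 (8 * w))) (Land d s w) := by
  rintro ω ω' h ⟨u, hu, h1⟩
  exact ⟨u, hu, conn_congr (fun e he => cut_congr (h e he)) h1⟩

theorem localOn_four (s : Src) (r : ℕ) : ∃ Λ : Finset Edge, LocalOn Λ (Four s r) := by
  obtain ⟨Λ, hΛ⟩ := exists_fin r
  exact ⟨Λ, locS_localOn (locS_four s r) fun e he => Finset.mem_coe.2 (hΛ e he)⟩

theorem sep_map (g : Gen) : Pr q (Sep (s.map g) (g.s d) (g.s d') k) = Pr q (Sep s d d' k) := by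
  have key : ∀ (s : Src) (d d' : Side),
      Pr q (Sep s d d' k) ≤ Pr q (Sep (s.map g) (g.s d) (g.s d') k) := by
    intro s d d'
    obtain ⟨Λ, hΛ⟩ := localOn_sep (s.map g) (g.s d) (g.s d') k
    rw [← Pr_comp hΛ (gp_inj g).injOn]
    exact Pr_mono fun ω hω => sym_sep g hω
  refine le_antisymm ?_ (key s d d')
  have h := key (s.map g) (g.s d) (g.s d')
  rw [sym_map_map, g.s_s, g.s_s] at h
  exact h

theorem four_map (g : Gen) : Pr q (Four (s.map g) r) = Pr q (Four s r) := by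
  have key : ∀ s : Src, Pr q (Four s r) ≤ Pr q (Four (s.map g) r) := by
    intro s
    obtain ⟨Λ, hΛ⟩ := localOn_four (s.map g) r
    rw [← Pr_comp hΛ (gp_inj g).injOn]
    exact Pr_mono fun ω hω => sym_four g hω
  refine le_antisymm ?_ (key s)
  have h := key (s.map g)
  rw [sym_map_map] at h
  exact h

theorem four_land_map (g : Gen) :
    Pr q (Four (s.map g) (8 * w) ∩ Land (g.s d) (s.map g) w) = Pr q (Four s (8 * w) ∩ Land d s w) := by
  have key : ∀ (s : Src) (d : Side), Pr q (Four s (8 * w) ∩ Land d s w) ≤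
      Pr q (Four (s.map g) (8 * w) ∩ Land (g.s d) (s.map g) w) := by
    intro s d
    obtain ⟨Λ, hΛ⟩ := exists_fin (8 * w)
    have hl : LocalOn Λ (Four (s.map g) (8 * w) ∩ Land (g.s d) (s.map g) w) :=
      locS_localOn (locS_inter (locS_four (s.map g) (8 * w)) (locS_land (g.s d) (s.map g) w))
        fun e he => Finset.mem_coe.2 (hΛ e he)
    rw [← Pr_comp hl (gp_inj g).injOn]
    exact Pr_mono fun ω hω => ⟨sym_four g hω.1, sym_land g hω.2⟩
  refine le_antisymm ?_ (key s d)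
  have h := key (s.map g) (g.s d)
  rw [sym_map_map, g.s_s] at h
  exact h

theorem sep_flip : Sep s.flip d' d k = Sep s d d' k := by
  have hdom : dom d' d k = dom d d' k := by
    unfold dom
    rw [Set.union_comm (T d' k)]
  have hcut : ∀ ω, s.flip.cut ω = s.cut ω := fun _ => rfl
  have hful : ∀ ω, s.flip.ful d' d k ω = s.ful d d' k ω := by
    intro ω
    unfold Src.ful
    rw [hcut, Set.union_comm (T d' k)]
  ext ω
  unfold Sep
  simp only [Set.mem_ofPred_eq, hcut, hdom, hful]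
  have h : Conn (sit (s.ful d d' k ω)) (dom d d' k) s.flip.x s.flip.y ↔
      Conn (sit (s.ful d d' k ω)) (dom d d' k) s.x s.y := conn_comm
  rw [h]
  change Fence d' k (sit (s.cut ω)) (dom d d' k) s.y ∧
    Fence d k (sit (s.cut ω)) (dom d d' k) s.x ∧ _ ∧
    (∀ v ∈ sphere 0 (32 * k),
      Conn (sit (s.ful d d' k ω)) (dom d d' k) s.y v → v ∈ Mouth d' k) ∧
    (∀ v ∈ sphere 0 (32 * k),
      Conn (sit (s.ful d d' k ω)) (dom d d' k) s.x v → v ∈ Mouth d k) ↔ _
  tauto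

/-- Horizontal segments. -/
private lemma sym_seg_x {S : Set Vert} (x y : ℤ) (n : ℕ)
    (h : ∀ z : ℤ, x ≤ z → z ≤ x + n → ((z, y) : Vert) ∈ S) :
    Conn allOpen S (x, y) (x + n, y) := by
  induction n with
  | zero => simpa using Conn.refl (h x le_rfl (by simp))
  | succ n ih =>
    have h1 := ih fun z hz hz' => h z hz (by push_cast; omega)
    refine h1.tail ⟨h1.mem_right, h _ (by push_cast; omega) (by push_cast; omega),
      (x + n, y, false), Or.inl ⟨rfl, ?_⟩, rfl⟩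
    simp [tgt, add_assoc]

/-- Vertical segments. -/
private lemma sym_seg_y {S : Set Vert} (x y : ℤ) (n : ℕ)
    (h : ∀ z : ℤ, y ≤ z → z ≤ y + n → ((x, z) : Vert) ∈ S) :
    Conn allOpen S (x, y) (x, y + n) := by
  induction n with
  | zero => simpa using Conn.refl (h y le_rfl (by simp))
  | succ n ih =>
    have h1 := ih fun z hz hz' => h z hz (by push_cast; omega)
    refine h1.tail ⟨h1.mem_right, h _ (by push_cast; omega) (by push_cast; omega),
      (x, y + n, true), Or.inl ⟨rfl, ?_⟩, rfl⟩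
    simp [tgt, add_assoc]

/-- Rectangles are connected. -/
private lemma sym_rect_conn {a b c d : ℤ} {u v : Vert} (hu : u ∈ rect a b c d)
    (hv : v ∈ rect a b c d) : Conn allOpen (rect a b c d) u v := by
  obtain ⟨x, y⟩ := u
  obtain ⟨x', y'⟩ := v
  have hx : ∀ z z' t : ℤ, a ≤ z → z ≤ b → a ≤ z' → z' ≤ b → c ≤ t → t ≤ d → z ≤ z' →
      Conn allOpen (rect a b c d) (z, t) (z', t) := by
    intro z z' t h1 h2 h3 h4 h5 h6 h7
    obtain ⟨n, hn⟩ := Int.eq_ofNat_of_zero_le (sub_nonneg.2 h7)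
    have h8 : z' = z + n := by omega
    subst h8
    exact sym_seg_x z t n fun w hw hw' => ⟨by omega, by omega, h5, h6⟩
  have hy : ∀ z t t' : ℤ, a ≤ z → z ≤ b → c ≤ t → t ≤ d → c ≤ t' → t' ≤ d → t ≤ t' →
      Conn allOpen (rect a b c d) (z, t) (z, t') := by
    intro z t t' h1 h2 h3 h4 h5 h6 h7
    obtain ⟨n, hn⟩ := Int.eq_ofNat_of_zero_le (sub_nonneg.2 h7)
    have h8 : t' = t + n := by omega
    subst h8
    exact sym_seg_y z t n fun w hw hw' => ⟨h1, h2, by change c ≤ w; omega, by change w ≤ d; omega⟩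
  obtain ⟨u1, u2, u3, u4⟩ := hu
  obtain ⟨v1, v2, v3, v4⟩ := hv
  simp only at u1 u2 u3 u4 v1 v2 v3 v4
  have h1 : Conn allOpen (rect a b c d) (x, y) (x', y) := by
    rcases le_total x x' with h | h
    · exact hx x x' y u1 u2 v1 v2 u3 u4 h
    · exact (hx x' x y v1 v2 u1 u2 u3 u4 h).symm
  have h2 : Conn allOpen (rect a b c d) (x', y) (x', y') := by
    rcases le_total y y' with h | h
    · exact hy x' y y' v1 v2 u3 u4 v3 v4 h
    · exact (hy x' y' y v1 v2 v3 v4 u3 u4 h).symm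
  exact h1.trans h2

private lemma sym_T_conn {d : Side} {k : ℕ} {u v : Vert} (hu : u ∈ T d k) (hv : v ∈ T d k) :
    Conn allOpen (T d k) u v := by
  cases d <;> exact sym_rect_conn hu hv

theorem sep_same : Sep s d d k = ∅ := by
  rw [Set.eq_empty_iff_forall_notMem]
  rintro ω ⟨h1, h2, h3, -, -⟩
  obtain ⟨u, hu, hxu⟩ := fence_mem h1
  obtain ⟨u', hu', hyu⟩ := fence_mem h2
  have hle : ∀ e, s.cut ω e = true → s.ful d d k ω e = true :=
    fun e he => le_fillS he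
  have huu : Conn (sit (s.ful d d k ω)) (dom d d k) u u' :=
    conn_fillS (fun a ha => Or.inr ha) ((sym_T_conn hu hu').mono_set fun a ha => Or.inl ha)
  exact h3 ((conn_mono le_rfl hle hxu).trans (huu.trans (conn_mono le_rfl hle hyu).symm))

/-- A separated event is a four-arm event. -/
theorem sep_sub_four (hk : 1 ≤ k) : Sep s d d' k ⊆ Four s (28 * k) := by
  have hball : ∀ a ∈ ball (0 : Vert) 2, a ∈ ball (0 : Vert) (28 * k) := by
    intro a ha
    simp only [mem_ball, Prod.fst_zero, Prod.snd_zero] at ha ⊢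
    push_cast at ha ⊢
    omega
  have hT : ∀ (d : Side), ∀ u ∈ T d k, u ∉ ball (0 : Vert) (28 * k) ∨ u ∈ sphere 0 (28 * k) := by
    intro d u hu
    by_cases h : u ∈ ball (0 : Vert) (28 * k)
    · refine Or.inr ⟨h, ?_⟩
      cases d <;> simp only [T, rect, Set.mem_ofPred_eq] at hu <;>
        simp only [mem_ball, Prod.fst_zero, Prod.snd_zero] at h ⊢ <;> push_cast at h ⊢ <;> omega
    · exact Or.inl h
  rintro ω ⟨h1, h2, h3, -, -⟩
  obtain ⟨u, hu, hxu⟩ := fence_mem h1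
  obtain ⟨u', hu', hyu⟩ := fence_mem h2
  obtain ⟨z, hz, hxz⟩ := hxu.to_sphere (v := 0) (r := 28 * k) (hball _ s.hx) (hT d u hu)
  obtain ⟨z', hz', hyz⟩ := hyu.to_sphere (v := 0) (r := 28 * k) (hball _ s.hy) (hT d' u' hu')
  refine ⟨⟨z, hz, hxz.mono_set Set.inter_subset_right⟩,
    ⟨z', hz', hyz.mono_set Set.inter_subset_right⟩, fun hc => h3 ?_⟩
  refine conn_mono (fun a ha => Or.inl ?_) (fun e he => le_fillS he) hc
  simp only [mem_ball, Prod.fst_zero, Prod.snd_zero] at ha ⊢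
  push_cast at ha ⊢
  omega

theorem four_mono' (h : 2 ≤ r) {r' : ℕ} (hr : r ≤ r') : Four s r' ⊆ Four s r := by
  have hball : ∀ a ∈ ball (0 : Vert) 2, a ∈ ball (0 : Vert) r := by
    intro a ha
    simp only [mem_ball, Prod.fst_zero, Prod.snd_zero] at ha ⊢
    push_cast at ha
    omega
  have hsph : ∀ u ∈ sphere (0 : Vert) r', u ∉ ball (0 : Vert) r ∨ u ∈ sphere 0 r := by
    rintro u ⟨-, hu⟩
    by_cases h : u ∈ ball (0 : Vert) r
    · refine Or.inr ⟨h, ?_⟩
      simp only [mem_ball, Prod.fst_zero, Prod.snd_zero] at h hu ⊢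
      omega
    · exact Or.inl h
  have hsub : ball (0 : Vert) r ⊆ ball 0 r' := by
    intro a ha
    simp only [mem_ball, Prod.fst_zero, Prod.snd_zero] at ha ⊢
    omega
  rintro ω ⟨⟨u, hu, h1⟩, ⟨u', hu', h2⟩, h3⟩
  obtain ⟨z, hz, hxz⟩ := h1.to_sphere (v := 0) (r := r) (hball _ s.hx) (hsph u hu)
  obtain ⟨z', hz', hyz⟩ := h2.to_sphere (v := 0) (r := r) (hball _ s.hy) (hsph u' hu')
  exact ⟨⟨z, hz, hxz.mono_set Set.inter_subset_right⟩,
    ⟨z', hz', hyz.mono_set Set.inter_subset_right⟩, fun hc => h3 (hc.mono_set hsub)⟩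

theorem four_land : Four s (8 * w) ⊆ ⋃ d : Side, Four s (8 * w) ∩ Land d s w := by
  intro ω hω
  obtain ⟨u, hu, h1⟩ := hω.1
  rw [Set.mem_iUnion]
  obtain ⟨d, hd⟩ : ∃ d : Side, OnSide d (8 * w) u := by
    have h2 := hu.2
    simp only [Prod.fst_zero, Prod.snd_zero, zero_sub, zero_add] at h2
    rcases h2 with h | h | h | h
    · exact ⟨.W, hu, h⟩
    · exact ⟨.E, hu, h⟩
    · exact ⟨.S, hu, h⟩
    · exact ⟨.N, hu, h⟩
  exact ⟨d, hω, u, hd, h1⟩

/-- Sum of the separated probabilities. -/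
noncomputable def bS (q : I) (s : Src) (k : ℕ) : ℝ := ∑ d : Side, ∑ d' : Side, Pr q (Sep s d d' k)

end Pool.Agent.H38.N59

end

section

/-!
# Bad events for sites: two clusters close to the same vertex of the sphere
-/

set_option autoImplicit false

open MeasureTheory ProbabilityTheory unitInterval

namespace Pool.Agent.H38.N59

open Pool.Agent.H89.Perc
open Pool.Agent.H61.NC hiding RSWreg
open Pool.Agent.H83.SK (sv sit sit_true RSWreg)
open Pool.Agent.H59.EX (LocS inE touch clus closeS Side T Mouth Fence dom CorrData CorrSep mem_clus_single clus_conn)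
open Pool.Agent.H29.Sep (LocTwo)

variable {s : Src} {w ρ ρ' : ℕ} {v v' : Vert} {d d' : Side} {Z Zy : Set Vert} {Nev Ny : Set Config}
  {q : I}

/-- The balls around a vertex of the sphere are far from the source. -/
private theorem bad_far {r : ℕ} {z : Vert} (hz : z ∈ sphere 0 (8 * w)) (hr : r + 2 < 8 * w)
    {a : Vert} (ha : a ∈ ball z r) : a ∉ ball 0 2 := by
  intro h
  obtain ⟨h1, h2⟩ := hz
  rw [mem_ball] at h1 ha h
  simp only [Prod.fst_zero, Prod.snd_zero, zero_sub, zero_add] at h1 h2 h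
  push_cast at h1 h2 h
  omega

/-- On sets far from the source the configuration is not cut. -/
private theorem bad_uncut {ω : Config} {S : Set Vert} {a b : Vert}
    (hS : ∀ p ∈ S, p ∉ ball 0 2) (h : Conn (sit ω) S a b) : Conn (sit (s.cut ω)) S a b := by
  refine conn_congr (fun g hg => ?_) h
  obtain ⟨h1, h2⟩ := hg
  have h3 : g = sv (src g) := by
    obtain ⟨x, y, t⟩ := g
    have h4 : t = false := h1
    simp [sv, src, h4]
  rw [h3]
  exact (cut_of_not_ball (hS _ h2)).symm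

private theorem cut_sub {ω : Config} {S S' : Set Vert} {a b : Vert} (hS : S ⊆ S')
    (h : Conn (sit (s.cut ω)) S a b) : Conn (sit ω) S' a b :=
  conn_mono hS (fun _ he => cut_le he) h

/-- If `x` lands near `v` and the cluster of `y` comes near `v`, then two distinct clusters cross
a half annulus. -/
theorem bad0 (hρ : 1 ≤ ρ) (hw : 64 * ρ ≤ w) (hv : v ∈ sphere 0 (8 * w)) {ω : Config}
    (hω : ω ∈ Four s (8 * w))
    (hx : ∃ u ∈ sphere 0 (8 * w), u ∈ ball v ρ ∧ Conn (sit (s.cut ω)) (ball 0 (8 * w)) s.x u)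
    (hy : ¬ Disjoint (SY s w ω) (ball v (11 * ρ))) :
    ω ∈ Four s (2 * w) ∧ ∃ z ∈ sphere 0 (8 * w),
      sit ω ∈ LocTwo (ball 0 (8 * w)) z (11 * ρ) (4 * w) := by
  refine ⟨four_mono' (by omega) (by omega) hω, v, hv, ?_⟩
  obtain ⟨u, -, huv, hxu⟩ := hx
  obtain ⟨p, hp, hpv⟩ := Set.not_disjoint_iff.1 hy
  have hyp : Conn (sit (s.cut ω)) (ball 0 (8 * w)) s.y p := mem_clus_single.1 hp
  have hfar : ∀ a ∈ ball v (4 * w), a ∉ ball 0 2 := fun a ha => bad_far hv (by omega) ha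
  have hu11 : u ∈ ball v (11 * ρ) := ball_mono' (by omega) huv
  have hsub : ball v (11 * ρ) ⊆ ball v (4 * w) := ball_mono' (by omega)
  obtain ⟨a, ha, hca⟩ := hxu.symm.to_sphere (v := v) (r := 4 * w) (hsub hu11)
    (Or.inl fun h => hfar _ h s.hx)
  obtain ⟨b, hb, hcb⟩ := hyp.symm.to_sphere (v := v) (r := 4 * w) (hsub hpv)
    (Or.inl fun h => hfar _ h s.hy)
  refine ⟨u, hu11, p, hpv, a, ha, b, hb, cut_sub le_rfl hca, cut_sub le_rfl hcb,
    fun h => hω.2.2 ?_⟩
  have h1 : Conn (sit (s.cut ω)) (ball 0 (8 * w) ∩ ball v (4 * w)) u p :=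
    bad_uncut (fun q hq => hfar q hq.2) h
  exact (hxu.trans (h1.mono_set Set.inter_subset_left)).trans hyp.symm

/-- If the clusters of `x` (after gluing) and of `y` come close to the same vertex, then two
distinct clusters cross a half annulus. -/
theorem bad12 (hK : CorrData w ρ v d Z Nev) (hρ' : 1 ≤ ρ') (h1 : 64 * ρ' ≤ ρ) (h2 : 64 * ρ ≤ w)
    {ω : Config} (hω : ω ∈ Ev0 s w ρ v)
    (hg : ω ∉ Good12 s w ρ' Z) :
    ω ∈ Four s (2 * w) ∧ ∃ z ∈ sphere 0 (8 * w),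
      sit ω ∈ LocTwo (ball 0 (8 * w)) z (12 * ρ') ρ := by
  obtain ⟨⟨u, hu, huv, hxu⟩, ⟨u', hu', hyu'⟩, hxy, hdis⟩ := hω
  refine ⟨four_mono' (by omega) (by omega) ⟨⟨u, hu, hxu⟩, ⟨u', hu', hyu'⟩, hxy⟩, ?_⟩
  simp only [Good12, Set.mem_ofPred_eq, not_forall, not_not] at hg
  obtain ⟨z, hz, ⟨a, ha1, haz⟩, ⟨b, hb1, hbz⟩⟩ := hg
  refine ⟨z, hz, ?_⟩
  have hfar : ∀ p ∈ ball z ρ, p ∉ ball 0 2 := fun p hp => bad_far hz (by omega) hp
  have hsub : ball z (12 * ρ') ⊆ ball z ρ := ball_mono' (by omega)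
  -- the corridor is far from `z`
  have hbv : b ∉ ball v (11 * ρ) := Set.disjoint_left.1 hdis hb1
  have hZ : ∀ p ∈ ball z ρ, p ∉ Z := by
    intro p hp hpZ
    have h3 : z ∈ ball v (5 * ρ) := hK.inter p hpZ z hz.1 (ball_symm' hp)
    apply hbv
    rw [mem_ball] at h3 hbz ⊢
    push_cast at h3 hbz ⊢
    omega
  have hca : Conn (sit (fillS Z (s.cut ω))) (ball 0 (8 * w) ∪ Z) s.x a := mem_clus_single.1 ha1
  have hcb : Conn (sit (s.cut ω)) (ball 0 (8 * w)) s.y b := mem_clus_single.1 hb1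
  obtain ⟨a', ha', haa'⟩ := hca.symm.to_sphere (v := z) (r := ρ) (hsub haz)
    (Or.inl fun h => hfar _ h s.hx)
  obtain ⟨b', hb', hbb'⟩ := hcb.symm.to_sphere (v := z) (r := ρ) (hsub hbz)
    (Or.inl fun h => hfar _ h s.hy)
  have hDa : Conn (sit ω) (ball 0 (8 * w) ∩ ball z ρ) a a' := by
    have h4 : Conn (sit (s.cut ω)) ((ball 0 (8 * w) ∪ Z) ∩ ball z ρ) a a' := by
      refine conn_congr (fun g hg => ?_) haa'
      have h5 : g ∉ vE Z := fun h => hZ _ hg.2.2 h.2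
      simp [fillS, h5]
    refine cut_sub ?_ h4
    rintro p ⟨hp | hp, hp'⟩
    · exact ⟨hp, hp'⟩
    · exact absurd hp (hZ p hp')
  refine ⟨a, haz, b, hbz, a', ha', b', hb', hDa, cut_sub le_rfl hbb', fun h => ?_⟩
  have h6 : Conn (sit (s.cut ω)) (ball 0 (8 * w) ∩ ball z ρ) a b :=
    bad_uncut (fun q hq => hfar q hq.2) h
  have h7 : b ∈ S1 s w Z ω := by
    refine clus_conn ha1 (conn_mono ?_ (fun e he => le_fillS he) h6)
    exact Set.inter_subset_left.trans Set.subset_union_left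
  exact Set.disjoint_left.1 (S1_disj_SY hK (by omega) hdis hxy) h7 hb1

/-- The bad event of the inner boundary. -/
def BadZ (w t ρ : ℕ) : Set Config :=
  {ω | ∃ z ∈ sphere 0 (8 * w), sit ω ∈ LocTwo (ball 0 (8 * w)) z t ρ}

/-- Independence of the inner four-arm event and of the events near the sphere. -/
theorem four_bad_indep {t ρ₁ : ℕ} (hρ₁ : ρ₁ ≤ 4 * w) (hw : 1 ≤ w) :
    Pr q (Four s (2 * w) ∩ BadZ w t ρ₁) = Pr q (Four s (2 * w)) * Pr q (BadZ w t ρ₁) := by
  classical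
  obtain ⟨Λ, hΛ⟩ := exists_fin (8 * w)
  have hsub : ball (0 : Vert) (2 * w) ⊆ ball 0 (8 * w) := ball_mono' (by omega)
  have hbad : LocS (vE (ball 0 (8 * w) \ ball 0 (2 * w))) (BadZ w t ρ₁) := by
    have key : ∀ z ∈ sphere (0 : Vert) (8 * w), ∀ ω ω' : Config,
        (∀ f ∈ vE (ball 0 (8 * w) \ ball 0 (2 * w)), ω f = ω' f) →
        ∀ u v : Vert, Conn (sit ω) (ball 0 (8 * w) ∩ ball z ρ₁) u v →
          Conn (sit ω') (ball 0 (8 * w) ∩ ball z ρ₁) u v := by
      intro z hz ω ω' h u v hc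
      refine conn_congr (fun f hf => h f ⟨hf.1, hf.2.1, fun h0 => ?_⟩) hc
      have hf2 := hf.2.2
      obtain ⟨hz1, hz2⟩ := hz
      simp only [mem_ball, Prod.fst_zero, Prod.snd_zero] at h0 hf2 hz1 hz2
      push_cast at h0 hf2 hz1 hz2
      omega
    rintro ω ω' h ⟨z, hz, u, hu, u', hu', p, hp, p', hp', h1, h2, h3⟩
    exact ⟨z, hz, u, hu, u', hu', p, hp, p', hp', key z hz _ _ h _ _ h1, key z hz _ _ h _ _ h2,
      fun h4 => h3 (key z hz _ _ (fun f hf => (h f hf).symm) _ _ h4)⟩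
  refine Pool.Agent.H59.EX.indep_cond (Λ := Λ) (t := vE (ball 0 (2 * w))) ?_ (locS_four s _) ?_ ?_
  · exact locS_localOn (locS_four s (2 * w)) fun e he => Finset.mem_coe.2 (hΛ e (vE_mono hsub he))
  · exact locS_localOn hbad fun e he => Finset.mem_coe.2 (hΛ e (vE_mono Set.sdiff_subset he))
  · exact locS_mono hbad fun e he h => he.2.2 h.2

end Pool.Agent.H38.N59

end

section

/-!
# Outward separation for sites: stage 3
-/

set_option autoImplicit false

open MeasureTheory ProbabilityTheory unitInterval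

namespace Pool.Agent.H38.N59

open Pool.Agent.H89.Perc
open Pool.Agent.H83.SK (sv sit sit_true RSWreg)
open Pool.Agent.H59.EX (LocS inE touch clus closeS Side T Mouth Fence dom CorrData CorrSep mem_clus_single corr_inter corr_sub160 markov_incr clus_sub)

variable {s : Src} {w ρ ρ' : ℕ} {v v' : Vert} {d d' : Side} {Z Zy : Set Vert} {Nev Ny : Set Config}
  {q : I}

/-- Conditions on the value of the cluster of `x`. -/
private def st3_Good (s : Src) (w ρ' : ℕ) (v' : Vert) (Z : Set Vert) (S : Set Vert) : Prop :=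
  Z ⊆ S ∧ s.y ∉ S ∧ (∀ z ∈ S, z ∈ ball 0 (8 * w) ∨ (∃ a ∈ Z, ball z 1 ⊆ ball a (4 * ρ')) ∨
    ∃ a ∈ S, a ∈ sphere 0 (8 * w) ∧ ball z 1 ⊆ ball a (4 * ρ')) ∧ Disjoint S (ball v' (7 * ρ'))

/-- Stage 3: conditional FKG given the sealed cluster of `x`. -/
theorem stage3 (hK : CorrData w ρ v d Z Nev) (hKy : CorrData w ρ' v' d' Zy Ny)
    (hS : CorrSep w ρ' v' Z Zy) (hρ' : 1 ≤ ρ') {c : ℝ} (hc : 0 ≤ c)
    (hN : c ≤ Pr q {ω | sit ω ∈ Ny}) :
    c * Pr q (Ev3 s w ρ' v' d Z) ≤ Pr q (Ev3 s w ρ' v' d Z ∩ {ω | sit ω ∈ Ny}) := by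
  classical
  -- the finite set of sites
  obtain ⟨Λ, hΛ⟩ := exists_fin (160 * w)
  have hball : ball (0 : Vert) (8 * w) ⊆ ball 0 (160 * w) := ball_mono' (by omega)
  have hZ160 := corr_sub160 hK
  have hZy160 := corr_sub160 hKy
  have hDZ : ball (0 : Vert) (8 * w) ∪ Z ⊆ ball 0 (160 * w) := Set.union_subset hball hZ160
  have hloc : LocS (vE Zy) {ω | sit ω ∈ Ny} := locS_sit_inE hKy.loc
  have hN1 : LocalOn Λ {ω | sit ω ∈ Ny} := fun ω ω' h hω =>
    hloc ω ω' (fun e he => h e (hΛ e (vE_mono hZy160 he))) hω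
  have main := markov_incr (Λ := Λ) (q := q) (c := c) (SH s w Z)
    (st3_Good s w ρ' v' Z)
    (fun S => rv (ball 0 (160 * w)) S ∪ vE S)
    (fun S => {ω | Fence d (4 * w) (sit (s.cut ω)) (S ∩ (ball 0 (8 * w) ∪ Z)) s.x})
    (fun S => {ω | ∃ u ∈ sphere 0 (8 * w), u ∈ ball v' ρ' ∧
      Conn (sit (s.cut ω)) (ball 0 (8 * w) \ S) s.y u}) (fun _ => {ω | sit ω ∈ Ny})
    (by
      intro i ω ω' h hω
      exact clus_fill_congr (fun g hg _ => h g (hΛ g (rv_sub hg))) hω)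
    (by
      rintro i - ω ω' h hω
      exact clus_fill_congr (fun g hg _ => h g (Or.inl hg)) hω)
    (by
      intro S ω ω' h hω
      refine fence_congr (fun g hg => ?_) (fun g hg => ?_) hω
      · exact cut_congr (h g (hΛ g (vE_mono (hK.T_sub.trans hZ160) hg)))
      · exact cut_congr (h g (hΛ g (vE_mono (Set.inter_subset_right.trans hDZ) hg))))
    (by
      rintro S ⟨hZS, -⟩ ω ω' h hω
      refine fence_congr (fun g hg => ?_) (fun g hg => ?_) hω
      · exact cut_congr (h g (Or.inr (vE_mono (hK.T_sub.trans hZS) hg)))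
      · exact cut_congr (h g (Or.inr (vE_mono Set.inter_subset_left hg))))
    (by
      rintro _ ω ω' h ⟨u, h1, h2, h3⟩
      exact ⟨u, h1, h2, conn_congr (fun g hg =>
        cut_congr (h g (hΛ g (vE_mono (Set.sdiff_subset.trans hball) hg)))) h3⟩)
    (by
      rintro _ _ ω ω' h ⟨u, h1, h2, h3⟩
      exact ⟨u, h1, h2, conn_mono le_rfl (cut_incr h) h3⟩)
    (fun _ => hN1)
    (by
      rintro S ⟨-, -, hconf, hd⟩ ω ω' h hω
      refine hloc ω ω' (fun g hg => h g ?_) hω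
      obtain ⟨hg1, hg2⟩ := hg
      have h3 : g = sv (src g) := by
        obtain ⟨x, y, t⟩ := g
        have h4 : t = false := hg1
        simp [sv, src, h4]
      have hfar : ∀ z' ∈ ball (src g) 1, z' ∉ S := fun z' hz' =>
        conf_far hKy hS hρ' hconf hd hg2 hz'
      rw [h3]
      rintro (h5 | h5)
      · obtain ⟨a, e, hj, -, -, h1⟩ := of_mem_rv h5
        rcases h1 with h1 | h1
        · exact hfar a (Pool.Agent.H59.EX.ball_of_joins hj) h1
        · exact hfar _ self_mem_ball h1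
      · exact hfar _ self_mem_ball (sv_mem_vE.1 h5))
    (fun _ _ => incr_sit hKy.incr) (fun _ _ => hN) hc
  have e1 : {ω | st3_Good s w ρ' v' Z (SH s w Z ω) ∧
      ω ∈ {ω' | Fence d (4 * w) (sit (s.cut ω')) (SH s w Z ω ∩ (ball 0 (8 * w) ∪ Z)) s.x} ∧
      ω ∈ {ω' | ∃ u ∈ sphere 0 (8 * w), u ∈ ball v' ρ' ∧
        Conn (sit (s.cut ω')) (ball 0 (8 * w) \ SH s w Z ω) s.y u}} = Ev3 s w ρ' v' d Z := by
    ext ω
    constructor
    · rintro ⟨⟨hZ, hy, hconf, hd⟩, hF, hL⟩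
      exact ⟨⟨hy, hF, hconf⟩, hL, hd⟩
    · rintro ⟨hC, hL, hd⟩
      have hZ := Z_sub_SH_of_conf hK hC
      obtain ⟨hy, hF, hconf⟩ := hC
      exact ⟨⟨hZ, hy, hconf, hd⟩, hF, hL⟩
  have e2 : {ω | st3_Good s w ρ' v' Z (SH s w Z ω) ∧
      ω ∈ {ω' | Fence d (4 * w) (sit (s.cut ω')) (SH s w Z ω ∩ (ball 0 (8 * w) ∪ Z)) s.x} ∧
      ω ∈ {ω' | ∃ u ∈ sphere 0 (8 * w), u ∈ ball v' ρ' ∧
        Conn (sit (s.cut ω')) (ball 0 (8 * w) \ SH s w Z ω) s.y u} ∧ ω ∈ {ω | sit ω ∈ Ny}} =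
      Ev3 s w ρ' v' d Z ∩ {ω | sit ω ∈ Ny} := by
    rw [← e1]
    ext ω
    simp only [Set.mem_inter_iff, Set.mem_ofPred_eq]
    tauto
  rw [e1, e2] at main
  exact main

end Pool.Agent.H38.N59

end

section

/-!
# Outward separation for sites: stage 1
-/

set_option autoImplicit false

open MeasureTheory ProbabilityTheory unitInterval

namespace Pool.Agent.H38.N59

open Pool.Agent.H89.Perc
open Pool.Agent.H83.SK (sv sit sit_true RSWreg)
open Pool.Agent.H59.EX (LocS inE touch clus closeS Side T Mouth Fence dom CorrData CorrSep mem_clus_single corr_inter corr_sub160 markov_incr)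

variable {s : Src} {w ρ ρ' : ℕ} {v v' : Vert} {d d' : Side} {Z Zy : Set Vert} {Nev Ny : Set Config}
  {q : I}

/-- Stage 1: conditional FKG given the cluster of `y`. -/
theorem stage1 (hK : CorrData w ρ v d Z Nev) (hρ : 1 ≤ ρ) {c : ℝ} (hc : 0 ≤ c)
    (hN : c ≤ Pr q {ω | sit ω ∈ Nev}) :
    c * Pr q (Ev0 s w ρ v) ≤ Pr q (Ev0 s w ρ v ∩ {ω | sit ω ∈ Nev}) := by
  classical
  -- the finite set of sites
  obtain ⟨Λ, hΛ⟩ := exists_fin (160 * w)
  have hball : ball (0 : Vert) (8 * w) ⊆ ball 0 (160 * w) := ball_mono' (by omega)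
  have hΛD : ∀ e ∈ vE (ball (0 : Vert) (8 * w)), e ∈ Λ := fun e he => hΛ e (vE_mono hball he)
  have hΛZ : ∀ e ∈ vE Z, e ∈ Λ := fun e he => hΛ e (vE_mono (corr_sub160 hK) he)
  have hloc : LocS (vE Z) {ω | sit ω ∈ Nev} := locS_sit_inE hK.loc
  have hN1 : LocalOn Λ {ω | sit ω ∈ Nev} := fun ω ω' h hω =>
    hloc ω ω' (fun e he => h e (hΛZ e he)) hω
  have main := markov_incr (Λ := Λ) (q := q) (c := c) (SY s w)
    (fun S => s.x ∉ S ∧ (∃ u ∈ sphere 0 (8 * w), u ∈ S) ∧ Disjoint S (ball v (11 * ρ)))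
    (fun S => rv (ball 0 (8 * w)) S) (fun _ => Set.univ)
    (fun _ => {ω | ∃ u ∈ sphere 0 (8 * w), u ∈ ball v ρ ∧
      Conn (sit (s.cut ω)) (ball 0 (8 * w)) s.x u}) (fun _ => {ω | sit ω ∈ Nev})
    (by
      intro i ω ω' h hω
      exact clus_cut_congr (fun g hg => h g (hΛD g (rv_sub hg))) hω)
    (by
      intro i _ ω ω' h hω
      exact clus_cut_congr (fun g hg => h g hg) hω)
    (fun _ ω ω' _ _ => trivial)
    (fun _ _ ω ω' _ _ => trivial)
    (by
      rintro _ ω ω' h ⟨u, h1, h2, h3⟩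
      exact ⟨u, h1, h2, conn_congr (fun g hg => cut_congr (h g (hΛD g hg))) h3⟩)
    (by
      rintro _ _ ω ω' h ⟨u, h1, h2, h3⟩
      exact ⟨u, h1, h2, conn_mono le_rfl (cut_incr h) h3⟩)
    (fun _ => hN1)
    (by
      rintro S ⟨_, _, hd⟩ ω ω' h hω
      refine hloc ω ω' (fun g hg => h g ?_) hω
      intro hS
      have h0 := Set.disjoint_left.1 hd
      obtain ⟨hg1, hg2⟩ := hg
      have h3 : g = sv (src g) := by
        obtain ⟨x, y, t⟩ := g
        have h4 : t = false := hg1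
        simp [sv, src, h4]
      rw [h3] at hS
      obtain ⟨a, e, hj, -, hbD, h1⟩ := of_mem_rv hS
      have h5 : src g ∈ ball v (5 * ρ) := corr_inter hK ⟨hg2, hbD⟩
      have h6 : a ∈ ball (src g) 1 := Pool.Agent.H59.EX.ball_of_joins hj
      rcases h1 with h1 | h1
      · refine h0 h1 ?_
        simp only [mem_ball] at h5 h6 ⊢
        push_cast at h5 h6 ⊢
        omega
      · exact h0 h1 (ball_mono' (by omega) h5))
    (fun _ _ => incr_sit hK.incr) (fun _ _ => hN) hc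
  have e1 : {ω | (s.x ∉ SY s w ω ∧ (∃ u ∈ sphere 0 (8 * w), u ∈ SY s w ω) ∧
      Disjoint (SY s w ω) (ball v (11 * ρ))) ∧ ω ∈ (Set.univ : Set Config) ∧
      ω ∈ {ω | ∃ u ∈ sphere 0 (8 * w), u ∈ ball v ρ ∧
        Conn (sit (s.cut ω)) (ball 0 (8 * w)) s.x u}} = Ev0 s w ρ v := by
    ext ω
    unfold Ev0
    simp only [SY, mem_clus_single, Set.mem_univ, true_and, Set.mem_ofPred_eq]
    rw [conn_comm (u := s.x) (v := s.y)]
    tauto
  have e2 : {ω | (s.x ∉ SY s w ω ∧ (∃ u ∈ sphere 0 (8 * w), u ∈ SY s w ω) ∧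
      Disjoint (SY s w ω) (ball v (11 * ρ))) ∧ ω ∈ (Set.univ : Set Config) ∧
      ω ∈ {ω | ∃ u ∈ sphere 0 (8 * w), u ∈ ball v ρ ∧
        Conn (sit (s.cut ω)) (ball 0 (8 * w)) s.x u} ∧ ω ∈ {ω | sit ω ∈ Nev}} =
      Ev0 s w ρ v ∩ {ω | sit ω ∈ Nev} := by
    rw [← e1]
    ext ω
    simp only [Set.mem_inter_iff, Set.mem_ofPred_eq]
    tauto
  rw [e1, e2] at main
  exact main

end Pool.Agent.H38.N59

end
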