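import Pool.Agent.H31.PT.H57.EX.Core
import Pool.Agent.H31.PT.M12

/-! The parts of this file: H83.SK.P57.Stage1, H83.SK.P57.Stage2b, H83.SK.P57.Core. -/

section

/-!
# Site percolation, first gluing: `x` is glued to `L`
-/

open MeasureTheory ProbabilityTheory unitInterval

namespace Pool.Agent.H83.SK

open Pool.Agent.H57.EX

open Pool.Agent.H89.Perc Pool.Agent.H61.NC Pool.Agent.H29.Sep

theorem disj_BD {Z : Dat} {v : Vert} (hB : v ∈ Z.B) (hD : v ∈ Z.D) : False := by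
  have h1 := mem_ball_zero.1 hB
  have h2 := Z.hD v hD
  have hm := Z.hm
  push_cast at h1
  omega

theorem B_sub_R (Z : Dat) : Z.B ⊆ ball 0 Z.R := fun v hv => by
  refine Z.hWR (Z.hBW ?_)
  exact ball_mono (by omega) hv

theorem mem_allCirc_local {γ : ℕ → Vert} {n s : ℕ} :
    LocalOn (hull (eZone γ n s)) {w : Config | sit w ∈ AllCirc γ n s} :=
  localOn_sit (localOn_allCirc γ n s)

/-- First gluing. -/
theorem stage1 {Z : Dat} {V0 : Finset Edge} (hV0 : ∀ g ∈ V0, src g ∈ ball 0 2)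
    {s n : ℕ} {γ : ℕ → Vert} {b b' : Vert} (hs : 1 ≤ s)
    (hsm : 100 * s ≤ Z.m) (hb : b ∈ sphere 0 (4 * Z.m)) (hb' : b' ∈ sphere 0 (16 * Z.m))
    (hg : ZGood Z.m s γ n b b') {q : I} {c : ℝ} (hc : 0 ≤ c)
    (hP : c ≤ Pr q (AllCirc γ n s)) :
    c * PS q V0 (E0 Z s b b') ≤ PS q V0 (E1 Z s b b' (GG Z s γ n)) := by
  classical
  have hm := Z.hm
  have hBR := B_sub_R Z
  have hDR : Z.D ⊆ ball 0 Z.R := Z.hDW.trans Z.hWR
  have hnb : nrm b = 4 * Z.m := by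
    have := mem_sphere_zero.1 hb
    push_cast at this
    exact this
  have hnb' : nrm b' = 16 * Z.m := by
    have := mem_sphere_zero.1 hb'
    push_cast at this
    exact this
  -- the index set
  let FB : Finset (Finset Vert) := (Pool.Agent.H26.HP.bF Z.R).powerset
  let F : Finset ((Finset Vert × Finset Vert) × (Finset Vert × Finset Vert)) :=
    ((FB ×ˢ FB) ×ˢ (FB ×ˢ FB)).filter (fun i =>
      Z.x ∉ i.1.1 ∧ ((i.1.1 : Set Vert) ∩ sphere 0 (4 * Z.m)).Nonempty ∧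
        ((i.2.1 : Set Vert) ∩ sphere 0 (16 * Z.m)).Nonempty ∧
        Disjoint (i.1.1 : Set Vert) (ball b (38 * s)) ∧
        Disjoint (i.2.1 : Set Vert) (ball b' (38 * s)) ∧
        ((i.1.2 : Set Vert) ⊆ Z.B ∧ (i.2.2 : Set Vert) ⊆ Z.D ∧
          (∀ v ∈ i.1.2, v ∈ i.1.1 ∨ ∃ a ∈ i.1.1, v ∈ ball a 1) ∧
          (∀ v ∈ i.2.2, v ∈ i.2.1 ∨ ∃ a ∈ i.2.1, v ∈ ball a 1)))
  let X : (Finset Vert × Finset Vert) × (Finset Vert × Finset Vert) → Set Config := fun i =>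
    FullU Z.B {Z.y} i.1.1 i.1.2 ∩ FullU Z.D Z.T i.2.1 i.2.2
  let A : (Finset Vert × Finset Vert) × (Finset Vert × Finset Vert) → Set Config := fun i =>
    {w | (∃ u ∈ ball b s, Conn (sit w) (Z.B \ i.1.2) Z.x u) ∧
      ∃ u ∈ Z.L, u ∉ i.2.1 ∧ ∃ a ∈ ball b' s, Conn (sit w) (Z.D \ i.2.2) u a}
  have hF : ∀ i ∈ F, Z.x ∉ i.1.1 ∧ ((i.1.1 : Set Vert) ∩ sphere 0 (4 * Z.m)).Nonempty ∧
        ((i.2.1 : Set Vert) ∩ sphere 0 (16 * Z.m)).Nonempty ∧
        Disjoint (i.1.1 : Set Vert) (ball b (38 * s)) ∧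
        Disjoint (i.2.1 : Set Vert) (ball b' (38 * s)) ∧
        ((i.1.2 : Set Vert) ⊆ Z.B ∧ (i.2.2 : Set Vert) ⊆ Z.D ∧
          (∀ v ∈ i.1.2, v ∈ i.1.1 ∨ ∃ a ∈ i.1.1, v ∈ ball a 1) ∧
          (∀ v ∈ i.2.2, v ∈ i.2.1 ∨ ∃ a ∈ i.2.1, v ∈ ball a 1)) :=
    fun i hi => (Finset.mem_filter.1 hi).2
  have key := Pool.Agent.H57.EX.cond_fkgE (q := q) (E := V0) F X A
    (fun _ => {w | sit w ∈ AllCirc γ n s})
    (fun i => siteF Z.R i.1.2 ∪ siteF Z.R i.2.2)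
    (fun i => hull (off (Pool.Agent.H57.EX.eIn Z.R Z.B) i.1.2) ∪
      hull (off (Pool.Agent.H57.EX.eIn Z.R Z.D) i.2.2))
    (fun _ => hull (eZone γ n s)) hc ?_ ?_ ?_ ?_ ?_ ?_ ?_ ?_ ?_
  · refine le_trans (mul_le_mul_of_nonneg_left (PrE_mono ?_) hc) (key.trans (PrE_mono ?_))
    · rintro w ⟨⟨u, hu, hxu⟩, hxy, ⟨a, haL, haT, a', ha', haw⟩, hy4, hT16, hd, hd'⟩
      obtain ⟨F1, hF1, e1⟩ := Pool.Agent.H26.HP.exists_finset (S := cl (sit w) Z.B {Z.y})
        (R := Z.R) (cl_sub.trans hBR)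
      obtain ⟨F2, hF2, e2⟩ := Pool.Agent.H26.HP.exists_finset (S := Ucl w Z.B {Z.y})
        (R := Z.R) (Ucl_subset.trans hBR)
      obtain ⟨F3, hF3, e3⟩ := Pool.Agent.H26.HP.exists_finset (S := cl (sit w) Z.D Z.T)
        (R := Z.R) (cl_sub.trans hDR)
      obtain ⟨F4, hF4, e4⟩ := Pool.Agent.H26.HP.exists_finset (S := Ucl w Z.D Z.T)
        (R := Z.R) (Ucl_subset.trans hDR)
      have m1 : ∀ v, v ∈ F1 ↔ v ∈ cl (sit w) Z.B {Z.y} := fun v => by
        rw [← e1]; exact Finset.mem_coe.symm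
      have m2 : ∀ v, v ∈ F2 ↔ v ∈ Ucl w Z.B {Z.y} := fun v => by
        rw [← e2]; exact Finset.mem_coe.symm
      have m3 : ∀ v, v ∈ F3 ↔ v ∈ cl (sit w) Z.D Z.T := fun v => by
        rw [← e3]; exact Finset.mem_coe.symm
      have m4 : ∀ v, v ∈ F4 ↔ v ∈ Ucl w Z.D Z.T := fun v => by
        rw [← e4]; exact Finset.mem_coe.symm
      refine Set.mem_biUnion (x := ((F1, F2), (F3, F4))) ?_
        ⟨⟨⟨e1.symm, e2.symm⟩, ⟨e3.symm, e4.symm⟩⟩, ⟨u, hu, ?_⟩, a, haL, ?_, a', ha', ?_⟩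
      · refine Finset.mem_filter.2 ⟨?_, ?_, ?_, ?_, ?_, ?_, ?_, ?_, ?_, ?_⟩
        · exact Finset.mem_product.2 ⟨Finset.mem_product.2 ⟨hF1, hF2⟩,
            Finset.mem_product.2 ⟨hF3, hF4⟩⟩
        · rw [m1]; exact hxy
        · show ((F1 : Set Vert) ∩ _).Nonempty
          rw [e1]; exact hy4
        · show ((F3 : Set Vert) ∩ _).Nonempty
          rw [e3]; exact hT16
        · show Disjoint (F1 : Set Vert) _
          rw [e1]; exact hd
        · show Disjoint (F3 : Set Vert) _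
          rw [e3]; exact hd'
        · show (F2 : Set Vert) ⊆ _
          rw [e2]; exact Ucl_subset
        · show (F4 : Set Vert) ⊆ _
          rw [e4]; exact Ucl_subset
        · intro v hv
          rcases mem_Ucl_near ((m2 v).1 hv) with h | ⟨a, ha, hav⟩
          · exact Or.inl ((m1 v).2 h)
          · exact Or.inr ⟨a, (m1 a).2 ha, hav⟩
        · intro v hv
          rcases mem_Ucl_near ((m4 v).1 hv) with h | ⟨a, ha, hav⟩
          · exact Or.inl ((m3 v).2 h)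
          · exact Or.inr ⟨a, (m3 a).2 ha, hav⟩
      · show Conn (sit w) (Z.B \ (F2 : Set Vert)) Z.x u
        rw [e2]
        refine conn_offU' ?_ hxy hxu
        rintro e
        have h1 := mem_ball_zero.1 Z.hx
        have h2 := le_nrm_of_mem_ball hu
        rw [← e] at h2
        push_cast at h1
        omega
      · show a ∉ F3
        rw [m3]; exact haT
      · show Conn (sit w) (Z.D \ (F4 : Set Vert)) a a'
        rw [e4]
        refine conn_offU' ?_ haT haw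
        rintro e
        have h1 := (Z.hL a haL).2
        have h2 := nrm_le_of_mem_ball ha'
        rw [← e] at h2
        omega
    · intro w hω
      simp only [Set.mem_iUnion] at hω
      obtain ⟨i, hi, ⟨⟨hX1, -⟩, ⟨hX2, -⟩⟩, ⟨⟨u, hu, hxu⟩, a, haL, haT, a', ha', haw⟩, hO⟩ := hω
      obtain ⟨k1, k2, k3, k4, k5, -⟩ := hF i hi
      have hX1' : cl (sit w) Z.B {Z.y} = ↑i.1.1 := hX1
      have hX2' : cl (sit w) Z.D Z.T = ↑i.2.1 := hX2
      refine stage1_det hs hsm hb hb' hg ?_ hO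
      refine ⟨⟨u, hu, hxu.mono_set Set.sdiff_subset⟩, by rw [hX1']; exact k1,
        ⟨a, haL, by rw [hX2']; exact haT, a', ha', haw.mono_set Set.sdiff_subset⟩, ?_, ?_, ?_, ?_⟩
      · rw [hX1']; exact k2
      · rw [hX2']; exact k3
      · rw [hX1']; exact k4
      · rw [hX2']; exact k5
  · -- disjointness of the values
    intro i _ j _ hij
    rw [Set.disjoint_left]
    rintro w ⟨⟨h1, h2⟩, ⟨h3, h4⟩⟩ ⟨⟨h5, h6⟩, ⟨h7, h8⟩⟩
    refine hij (Prod.ext (Prod.ext ?_ ?_) (Prod.ext ?_ ?_))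
    · exact_mod_cast (h1.symm.trans h5)
    · exact_mod_cast (h2.symm.trans h6)
    · exact_mod_cast (h3.symm.trans h7)
    · exact_mod_cast (h4.symm.trans h8)
  · intro i _
    exact LocalOn.inter ((localOn_fullU hBR).mono Finset.subset_union_left)
      ((localOn_fullU hDR).mono Finset.subset_union_right)
  · rintro i - w w' h ⟨⟨u, hu, hxu⟩, a, haL, haT, a', ha', haw⟩
    have l1 := localOn_sit (localOn_conn_off (S := (i.1.2 : Set Vert)) (u := Z.x) (v := u)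
      (s := Pool.Agent.H57.EX.eIn Z.R Z.B) (D := Z.B)
      fun e h1 h2 => (Pool.Agent.H57.EX.mem_eIn hBR).2 ⟨h1, h2⟩)
    have l2 := localOn_sit (localOn_conn_off (S := (i.2.2 : Set Vert)) (u := a) (v := a')
      (s := Pool.Agent.H57.EX.eIn Z.R Z.D) (D := Z.D)
      fun e h1 h2 => (Pool.Agent.H57.EX.mem_eIn hDR).2 ⟨h1, h2⟩)
    exact ⟨⟨u, hu, l1 w w' (fun e he => h e (Finset.mem_union_left _ he)) hxu⟩,
      a, haL, haT, a', ha', l2 w w' (fun e he => h e (Finset.mem_union_right _ he)) haw⟩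
  · intro i _
    exact mem_allCirc_local
  · rintro i - w w' h ⟨⟨u, hu, hxu⟩, a, haL, haT, a', ha', haw⟩
    exact ⟨⟨u, hu, hxu.mono le_rfl (sit_mono h)⟩, a, haL, haT, a', ha',
      haw.mono le_rfl (sit_mono h)⟩
  · intro i _
    exact incr_sit (incr_allCirc γ n s)
  · intro i hi
    obtain ⟨-, -, -, -, -, kB, kD, -, -⟩ := hF i hi
    rw [Finset.disjoint_union_left, Finset.disjoint_union_right, Finset.disjoint_union_right]
    refine ⟨⟨?_, ?_⟩, ?_, ?_⟩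
    · exact siteF_disj_hull fun e he => (mem_off.1 he).2
    · refine siteF_disj_hull fun e he => ?_
      have h3 := (Pool.Agent.H57.EX.mem_eIn hDR).1 (mem_off.1 he).1
      exact ⟨fun h => disj_BD (kB h) h3.1, fun h => disj_BD (kB h) h3.2⟩
    · refine siteF_disj_hull fun e he => ?_
      have h3 := (Pool.Agent.H57.EX.mem_eIn hBR).1 (mem_off.1 he).1
      exact ⟨fun h => disj_BD h3.1 (kD h), fun h => disj_BD h3.2 (kD h)⟩
    · exact siteF_disj_hull fun e he => (mem_off.1 he).2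
  · intro i hi
    obtain ⟨k1, k2, k3, k4, k5, kB, kD, kn1, kn2⟩ := hF i hi
    rw [Finset.disjoint_union_left]
    constructor
    · refine siteF_disj_hull fun e he => ?_
      obtain ⟨h7, h8⟩ := mem_eZone he
      have aux : ∀ v ∈ zone γ n s, v ∉ (i.1.2 : Set Vert) := by
        intro v hz hvi
        have h9 := mem_ball_zero.1 (kB hvi)
        push_cast at h9
        have h10 := hg.inner v hz (by omega)
        rcases kn1 v hvi with h | ⟨a, ha, hav⟩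
        · exact Set.disjoint_left.1 k4 h (ball_mono (by omega) h10)
        · exact Set.disjoint_left.1 k4 ha
            (ball_mono (by omega) (ball_trans h10 (mem_ball_comm.1 hav)))
      exact ⟨aux _ h7, aux _ h8⟩
    · refine siteF_disj_hull fun e he => ?_
      obtain ⟨h7, h8⟩ := mem_eZone he
      have aux : ∀ v ∈ zone γ n s, v ∉ (i.2.2 : Set Vert) := by
        intro v hz hvi
        have h9 := Z.hD v (kD hvi)
        have h10 := hg.outer v hz (by omega)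
        rcases kn2 v hvi with h | ⟨a, ha, hav⟩
        · exact Set.disjoint_left.1 k5 h (ball_mono (by omega) h10)
        · exact Set.disjoint_left.1 k5 ha
            (ball_mono (by omega) (ball_trans h10 (mem_ball_comm.1 hav)))
      exact ⟨aux _ h7, aux _ h8⟩
  · intro i _
    have hd : Disjoint (hull (eZone γ n s)) V0 := by
      rw [Finset.disjoint_left]
      intro g h1 h2
      have h4 := mem_ball_zero.1 (hV0 g h2)
      push_cast at h4
      obtain ⟨e, he, h5⟩ := mem_hull.1 h1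
      obtain ⟨h7, h8⟩ := mem_eZone he
      have h9 := hg.low _ h7
      have h10 := hg.low _ h8
      rcases h5 with rfl | rfl
      · have : src (sv (src e)) = src e := rfl
        rw [this] at h4
        omega
      · have : src (sv (tgt e)) = tgt e := rfl
        rw [this] at h4
        omega
    rw [Pool.Agent.H57.EX.PrE_eq mem_allCirc_local hd]
    exact hP

end Pool.Agent.H83.SK

end

section

/-!
# Site percolation, second gluing: `y` is glued to `T`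
-/

open MeasureTheory ProbabilityTheory unitInterval

namespace Pool.Agent.H83.SK

open Pool.Agent.H57.EX

open Pool.Agent.H89.Perc Pool.Agent.H61.NC Pool.Agent.H29.Sep

private theorem s2b_B_sub_W (Z : Dat) : Z.B ⊆ Z.W := fun v hv => by
  refine Z.hBW ?_
  exact ball_mono (by omega) hv

/-- Deterministic part of the second gluing. -/
private theorem stage2b_det {Z : Dat} {s n : ℕ} {γ : ℕ → Vert} {β β' : Vert} (hs : 1 ≤ s)
    (hsm : 100 * s ≤ Z.m) (hβ : β ∈ sphere 0 (4 * Z.m)) (hβ' : β' ∈ sphere 0 (16 * Z.m))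
    (hg : ZGood Z.m s γ n β β') {ω : Config} {S : Set Vert}
    (hS : Disjoint S (zone γ n s)) (ho : ω ∈ AllCirc γ n s) {u w v : Vert}
    (hu : u ∈ ball β s) (hyu : Conn ω (Z.B \ S) Z.y u) (hw : w ∈ Z.T)
    (hv : v ∈ ball β' s) (hwv : Conn ω (Z.D \ S) w v) :
    Conn ω (GG Z s γ n \ S) Z.y w := by
  have hm := Z.hm
  have hnb : nrm β = 4 * Z.m := by
    have := mem_sphere_zero.1 hβ
    push_cast at this
    exact this
  have hnb' : nrm β' = 16 * Z.m := by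
    have := mem_sphere_zero.1 hβ'
    push_cast at this
    exact this
  have hy2 : nrm Z.y ≤ 2 := by
    have := mem_ball_zero.1 Z.hy
    push_cast at this
    exact this
  have hyb : Z.y ∉ ball β (3 * s) := fun hx => by
    have := le_nrm_of_mem_ball hx
    push_cast at this
    omega
  have hwb : w ∉ ball β' (3 * s) := fun hx => by
    have h1 := nrm_le_of_mem_ball hx
    have h2 := (Z.hT w hw).2
    push_cast at h1
    omega
  refine (chain_glue hs hg.chain ho hyu hyb hu hwv hwb hv).mono_set ?_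
  rintro p ((hp | hp) | hp)
  · exact ⟨Or.inl (Or.inl hp.1), hp.2⟩
  · exact ⟨Or.inl (Or.inr hp.1), hp.2⟩
  · exact ⟨Or.inr hp, fun h => Set.disjoint_left.1 hS h hp⟩

/-- Second gluing. -/
theorem stage2b {Z : Dat} {V0 : Finset Edge} (hV0 : ∀ g ∈ V0, src g ∈ ball 0 2)
    {s n : ℕ} {γ : ℕ → Vert} {β β' : Vert} (hs : 1 ≤ s)
    (hsm : 100 * s ≤ Z.m) (hβ : β ∈ sphere 0 (4 * Z.m)) (hβ' : β' ∈ sphere 0 (16 * Z.m))
    (hg : ZGood Z.m s γ n β β') {q : I} {c : ℝ} (hc : 0 ≤ c)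
    (hP : c ≤ Pr q (AllCirc γ n s)) :
    c * PS q V0 (E2S Z s γ n β β') ≤ PS q V0 (Fin Z s γ n) := by
  classical
  have hm := Z.hm
  have hnb : nrm β = 4 * Z.m := by
    have := mem_sphere_zero.1 hβ
    push_cast at this
    exact this
  have hnb' : nrm β' = 16 * Z.m := by
    have := mem_sphere_zero.1 hβ'
    push_cast at this
    exact this
  let Q : Finset (Finset Vert) := (Pool.Agent.H26.HP.bF Z.R).powerset
  let F : Finset (Finset Vert × Finset Vert) :=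
    (Q ×ˢ Q).filter (fun i => ((i.1 : Set Vert) ∩ Z.L).Nonempty ∧
      (∀ a ∈ i.1, ∀ z ∈ zone γ n s, a ∉ ball z 1) ∧
      (∀ v ∈ i.2, v ∈ i.1 ∨ ∃ a ∈ i.1, v ∈ ball a 1))
  let X : Finset Vert × Finset Vert → Set Config := fun i => FullU Z.W {Z.x} i.1 i.2
  let A : Finset Vert × Finset Vert → Set Config := fun i =>
    {w | (∃ u ∈ ball β s, Conn (sit w) (Z.B \ i.2) Z.y u) ∧
      ∃ a ∈ Z.T, ∃ v ∈ ball β' s, Conn (sit w) (Z.D \ i.2) a v}
  have hF : ∀ i ∈ F, ((i.1 : Set Vert) ∩ Z.L).Nonempty ∧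
      (∀ a ∈ i.1, ∀ z ∈ zone γ n s, a ∉ ball z 1) ∧
      (∀ v ∈ i.2, v ∈ i.1 ∨ ∃ a ∈ i.1, v ∈ ball a 1) :=
    fun S hS => (Finset.mem_filter.1 hS).2
  have hUzone : ∀ i ∈ F, ∀ z ∈ zone γ n s, z ∉ (i.2 : Set Vert) := by
    intro i hi z hz hzi
    obtain ⟨-, k2, k3⟩ := hF i hi
    rcases k3 z hzi with h | ⟨a, ha, haz⟩
    · exact k2 z h z hz (mem_ball_self z _)
    · exact k2 a ha z hz (mem_ball_comm.1 haz)
  have hBR : Z.B ⊆ ball 0 Z.R := (s2b_B_sub_W Z).trans Z.hWR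
  have hDR : Z.D ⊆ ball 0 Z.R := Z.hDW.trans Z.hWR
  have key := Pool.Agent.H57.EX.cond_fkgE (q := q) (E := V0) F X A
    (fun _ => {w | sit w ∈ AllCirc γ n s})
    (fun i => siteF Z.R i.2)
    (fun i => hull (off (Pool.Agent.H57.EX.eIn Z.R Z.B) i.2) ∪
      hull (off (Pool.Agent.H57.EX.eIn Z.R Z.D) i.2))
    (fun _ => hull (eZone γ n s)) hc ?_ ?_ ?_ ?_ ?_ ?_ ?_ ?_ ?_
  · refine le_trans (mul_le_mul_of_nonneg_left (PrE_mono ?_) hc) (key.trans (PrE_mono ?_))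
    · rintro w ⟨hL, hd, ⟨u, hu, hyu⟩, a, ha, v, hv, hav⟩
      obtain ⟨F1, hF1, e1⟩ := Pool.Agent.H26.HP.exists_finset (S := cl (sit w) Z.W {Z.x})
        (R := Z.R) (cl_sub.trans Z.hWR)
      obtain ⟨F2, hF2, e2⟩ := Pool.Agent.H26.HP.exists_finset (S := Ucl w Z.W {Z.x})
        (R := Z.R) (Ucl_subset.trans Z.hWR)
      have m1 : ∀ v, v ∈ F1 ↔ v ∈ cl (sit w) Z.W {Z.x} := fun v => by
        rw [← e1]; exact Finset.mem_coe.symm
      have m2 : ∀ v, v ∈ F2 ↔ v ∈ Ucl w Z.W {Z.x} := fun v => by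
        rw [← e2]; exact Finset.mem_coe.symm
      refine Set.mem_biUnion (x := (F1, F2)) ?_
        ⟨⟨e1.symm, e2.symm⟩, ⟨u, hu, ?_⟩, a, ha, v, hv, ?_⟩
      · refine Finset.mem_filter.2 ⟨Finset.mem_product.2 ⟨hF1, hF2⟩, ?_, ?_, ?_⟩
        · show ((F1 : Set Vert) ∩ _).Nonempty
          rw [e1]; exact hL
        · intro a ha
          exact hd a ((m1 a).1 ha)
        · intro v hv
          rcases mem_Ucl_near ((m2 v).1 hv) with h | ⟨a, ha, hav⟩
          · exact Or.inl ((m1 v).2 h)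
          · exact Or.inr ⟨a, (m1 a).2 ha, hav⟩
      · show Conn (sit w) (Z.B \ (F2 : Set Vert)) Z.y u
        rw [e2]
        refine (conn_avoid (X := {Z.x}) (D := Z.W) ?_ hyu fun v hv => hv.2).mono_set
          fun v hv => ⟨hv.1.1, hv.2⟩
        rintro e
        have h1 := mem_ball_zero.1 Z.hy
        have h2 := le_nrm_of_mem_ball hu
        rw [← e] at h2
        push_cast at h1
        omega
      · show Conn (sit w) (Z.D \ (F2 : Set Vert)) a v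
        rw [e2]
        refine (conn_avoid (X := {Z.x}) (D := Z.W) ?_ hav fun v hv => hv.2).mono_set
          fun v hv => ⟨hv.1.1, hv.2⟩
        rintro e
        have h1 := (Z.hT a ha).2
        have h2 := nrm_le_of_mem_ball hv
        rw [← e] at h2
        omega
    · intro w hω
      simp only [Set.mem_iUnion] at hω
      obtain ⟨i, hi, ⟨hX, hXU⟩, ⟨⟨u, hu, hyu⟩, a, ha, v, hv, hav⟩, hO⟩ := hω
      obtain ⟨k1, k2, k3⟩ := hF i hi
      have hX' : cl (sit w) Z.W {Z.x} = i.1 := hX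
      have hsub : (i.1 : Set Vert) ⊆ i.2 := by
        rw [← hX, ← hXU]
        exact clus_subset_Ucl
      refine ⟨?_, a, ha, ?_⟩
      · rw [hX']; exact k1
      · rw [hX']
        refine (stage2b_det hs hsm hβ hβ' hg (S := (i.2 : Set Vert)) ?_ hO hu hyu ha hv
          hav).mono_set fun x hx => ⟨hx.1, fun k => hx.2 (hsub k)⟩
        rw [Set.disjoint_left]
        exact fun x hx hz => hUzone i hi x hz hx
  · intro i _ j _ hij
    rw [Set.disjoint_left]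
    rintro w ⟨h1, h2⟩ ⟨h3, h4⟩
    refine hij (Prod.ext ?_ ?_)
    · exact_mod_cast (h1.symm.trans h3)
    · exact_mod_cast (h2.symm.trans h4)
  · intro i _
    exact localOn_fullU Z.hWR
  · rintro i - w w' h ⟨⟨u, hu, hyu⟩, a, ha, v, hv, hav⟩
    have l1 := localOn_sit (localOn_conn_off (S := (i.2 : Set Vert)) (u := Z.y) (v := u)
      (s := Pool.Agent.H57.EX.eIn Z.R Z.B) (D := Z.B)
      fun e h1 h2 => (Pool.Agent.H57.EX.mem_eIn hBR).2 ⟨h1, h2⟩)
    have l2 := localOn_sit (localOn_conn_off (S := (i.2 : Set Vert)) (u := a) (v := v)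
      (s := Pool.Agent.H57.EX.eIn Z.R Z.D) (D := Z.D)
      fun e h1 h2 => (Pool.Agent.H57.EX.mem_eIn hDR).2 ⟨h1, h2⟩)
    exact ⟨⟨u, hu, l1 w w' (fun e he => h e (Finset.mem_union_left _ he)) hyu⟩,
      a, ha, v, hv, l2 w w' (fun e he => h e (Finset.mem_union_right _ he)) hav⟩
  · intro i _
    exact mem_allCirc_local
  · rintro i - w w' h ⟨⟨u, hu, hyu⟩, a, ha, v, hv, hav⟩
    exact ⟨⟨u, hu, hyu.mono le_rfl (sit_mono h)⟩, a, ha, v, hv, hav.mono le_rfl (sit_mono h)⟩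
  · intro i _
    exact incr_sit (incr_allCirc γ n s)
  · intro i _
    rw [Finset.disjoint_union_right]
    exact ⟨siteF_disj_hull fun e he => (mem_off.1 he).2,
      siteF_disj_hull fun e he => (mem_off.1 he).2⟩
  · intro i hi
    refine siteF_disj_hull fun e he => ?_
    obtain ⟨h7, h8⟩ := mem_eZone he
    exact ⟨hUzone i hi _ h7, hUzone i hi _ h8⟩
  · intro i _
    have hd : Disjoint (hull (eZone γ n s)) V0 := by
      rw [Finset.disjoint_left]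
      intro g h1 h2
      have h4 := mem_ball_zero.1 (hV0 g h2)
      push_cast at h4
      obtain ⟨e, he, h5⟩ := mem_hull.1 h1
      obtain ⟨h7, h8⟩ := mem_eZone he
      have h9 := hg.low _ h7
      have h10 := hg.low _ h8
      rcases h5 with rfl | rfl
      · have : src (sv (src e)) = src e := rfl
        rw [this] at h4
        omega
      · have : src (sv (tgt e)) = tgt e := rfl
        rw [this] at h4
        omega
    rw [Pool.Agent.H57.EX.PrE_eq mem_allCirc_local hd]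
    exact hP

end Pool.Agent.H83.SK

end

section

/-!
# The core theorem: gluing of four arms for general outer domains
-/

open MeasureTheory ProbabilityTheory unitInterval

namespace Pool.Agent.H83.SK

open Pool.Agent.H57.EX

open Pool.Agent.H89.Perc Pool.Agent.H61.NC Pool.Agent.H29.Sep

/-- One pair of landing points: from `E1` to the final events. -/
theorem core_pair {Z : Dat} {V0 : Finset Edge} (hV0 : ∀ g ∈ V0, src g ∈ ball 0 2)
    {q : I} {s s' n₁ n₂ : ℕ} {γ : ℕ → Vert} {b b' : Vert}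
    {V N N' : Finset Vert} {c₁ c₂ : ℝ} (hs' : 2 ≤ s') (hss : 40 * s' ≤ s) (hsm : 100 * s ≤ Z.m)
    (hb : b ∈ sphere 0 (4 * Z.m)) (hb' : b' ∈ sphere 0 (16 * Z.m)) (hg : ZGood Z.m s γ n₁ b b')
    (hV : ∀ u ∈ ball 0 (20 * Z.m), ∃ v ∈ V, u ∈ ball v (s' - 1)) (hN : IsNet N (4 * Z.m) s')
    (hN' : IsNet N' (16 * Z.m) s') (hc₁ : 0 < c₁) (hc₂ : 0 < c₂)
    (hseal : c₂ ≤ Pr q {ω | ∀ v ∈ V, ω ∉ ArmBox v s' (3 * s')})
    (hcirc : ∀ γ' : ℕ → Vert, c₁ ≤ Pr q (AllCirc γ' n₂ s'))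
    (hgeo : ∀ β ∈ sphere 0 (4 * Z.m), β ∉ ball b (30 * s) →
      ∀ β' ∈ sphere 0 (16 * Z.m), β' ∉ ball b' (30 * s) → ∃ γ' : ℕ → Vert,
        ZGood Z.m s' γ' n₂ β β' ∧
        ∀ w ∈ zone γ' n₂ s', ∀ z ∈ zone γ n₁ s, w ∉ ball z (8 * s')) :
    ∃ F' : Finset (ℕ → Vert), F'.card ≤ N.card * N'.card ∧
      (∀ γ' ∈ F', ∃ β ∈ sphere 0 (4 * Z.m), ∃ β' ∈ sphere 0 (16 * Z.m),
        ZGood Z.m s' γ' n₂ β β') ∧
      PS q V0 (E1 Z s b b' (GG Z s γ n₁)) ≤
        PS q V0 (E1 Z s b b' (GG Z s γ n₁) \ NB Z (38 * s') (GG Z s γ n₁)) +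
          c₂⁻¹ * c₁⁻¹ * (N.card * N'.card * ∑ γ' ∈ F', PS q V0 (Fin Z s' γ' n₂)) := by
  classical
  set G := GG Z s γ n₁ with hG
  have hGW : G ⊆ Z.W := by
    intro v hv
    rcases hv with (hv | hv) | hv
    · exact Z.hBW (ball_mono (by omega) hv)
    · exact Z.hDW hv
    · exact Z.hBW (mem_ball_zero.2 (by have := hg.bdd v hv; push_cast; linarith))
  -- choice of the fine chains
  have hch : ∀ p : Vert × Vert, ∃ γ' : ℕ → Vert,
      (p.1 ∈ sphere 0 (4 * Z.m) ∧ p.1 ∉ ball b (30 * s) ∧ p.2 ∈ sphere 0 (16 * Z.m) ∧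
        p.2 ∉ ball b' (30 * s)) → ZGood Z.m s' γ' n₂ p.1 p.2 ∧
        ∀ w ∈ zone γ' n₂ s', ∀ z ∈ zone γ n₁ s, w ∉ ball z (8 * s') := by
    intro p
    by_cases h : p.1 ∈ sphere 0 (4 * Z.m) ∧ p.1 ∉ ball b (30 * s) ∧ p.2 ∈ sphere 0 (16 * Z.m) ∧
        p.2 ∉ ball b' (30 * s)
    · obtain ⟨γ', h'⟩ := hgeo p.1 h.1 h.2.1 p.2 h.2.2.1 h.2.2.2
      exact ⟨γ', fun _ => h'⟩
    · exact ⟨fun _ => 0, fun h' => absurd h' h⟩
  choose γ' hγ' using hch
  set K : Finset (Vert × Vert) := (N ×ˢ N').filter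
    (fun p => p.1 ∉ ball b (30 * s) ∧ p.2 ∉ ball b' (30 * s)) with hK
  have hKgood : ∀ p ∈ K, p.1 ∈ sphere 0 (4 * Z.m) ∧ p.1 ∉ ball b (30 * s) ∧
      p.2 ∈ sphere 0 (16 * Z.m) ∧ p.2 ∉ ball b' (30 * s) := by
    intro p hp
    rw [hK, Finset.mem_filter, Finset.mem_product] at hp
    exact ⟨hN.sub _ hp.1.1, hp.2.1, hN'.sub _ hp.1.2, hp.2.2⟩
  have hKcard : K.card ≤ N.card * N'.card := by
    rw [← Finset.card_product]
    exact Finset.card_filter_le _ _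
  refine ⟨K.image γ', le_trans Finset.card_image_le hKcard, ?_, ?_⟩
  · intro g hg'
    obtain ⟨p, hp, rfl⟩ := Finset.mem_image.1 hg'
    have h := hKgood p hp
    exact ⟨p.1, h.1, p.2, h.2.2.1, (hγ' p h).1⟩
  -- first splitting
  have h0 : PS q V0 (E1 Z s b b' G) ≤
      PS q V0 (E1 Z s b b' G \ NB Z (38 * s') G) +
        PS q V0 (E1 Z s b b' G ∩ NB Z (38 * s') G) := by
    refine le_trans (PS_mono ?_) PS_union_le
    intro ω hω
    by_cases h : ω ∈ NB Z (38 * s') G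
    · exact Or.inr ⟨hω, h⟩
    · exact Or.inl ⟨hω, h⟩
  -- sealing
  have h1 : c₂ * PS q V0 (E1 Z s b b' G ∩ NB Z (38 * s') G) ≤
      Pool.Agent.H57.EX.PrE q V0 ({w | sit w ∈ E1 Z s b b' G ∩ NB Z (38 * s') G} ∩
        SealS Z s' V G) := by
    have := stage2a (Z := Z) (V0 := V0) (q := q) (s := s') (V := V) hGW
      (fun S1 S2 S3 => P1 Z s b b' S1 S2 S3 ∧ NBp Z (38 * s') S1 S2 S3) hc₂.le hseal
    exact this
  -- landing
  have h2 : Pool.Agent.H57.EX.PrE q V0 ({w | sit w ∈ E1 Z s b b' G ∩ NB Z (38 * s') G} ∩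
        SealS Z s' V G) ≤
      ∑ p ∈ K, PS q V0 (E2S Z s' (γ' p) n₂ p.1 p.2) := by
    refine le_trans (Pool.Agent.H57.EX.PrE_mono ?_)
      (PS_biUnion_le K (fun p => E2S Z s' (γ' p) n₂ p.1 p.2))
    intro ω hω
    obtain ⟨β, hβ, β', hβ', h3, h4, h5⟩ := det2 (Z := Z) (s := s) (s' := s') (γ := γ) (n := n₁)
      (b := b) (b' := b') (V := V) (ω := ω)
      ⟨hs', hss, hsm, hb, hb', hg, hV, hω.1.1, hω.1.2, hω.2⟩ hN hN'
    have hp : (β, β') ∈ K := by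
      rw [hK, Finset.mem_filter, Finset.mem_product]
      exact ⟨⟨hβ, hβ'⟩, h3, h4⟩
    have h := hγ' (β, β') (hKgood _ hp)
    simp only [Set.mem_iUnion]
    exact ⟨(β, β'), hp, h5 _ _ h.1 h.2⟩
  -- second gluing
  have h3 : ∀ p ∈ K, PS q V0 (E2S Z s' (γ' p) n₂ p.1 p.2) ≤
      c₁⁻¹ * ∑ g ∈ K.image γ', PS q V0 (Fin Z s' g n₂) := by
    intro p hp
    have h := hKgood p hp
    have h' := stage2b (Z := Z) hV0 (s := s') (n := n₂) (γ := γ' p) (β := p.1) (β' := p.2) (by omega)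
      (by omega) h.1 h.2.2.1 (hγ' p h).1 hc₁.le (hcirc (γ' p))
    have h'' : PS q V0 (Fin Z s' (γ' p) n₂) ≤
        ∑ g ∈ K.image γ', PS q V0 (Fin Z s' g n₂) :=
      Finset.single_le_sum (f := fun g => PS q V0 (Fin Z s' g n₂))
        (fun g _ => PS_nonneg) (Finset.mem_image_of_mem γ' hp)
    rw [inv_mul_eq_div, le_div_iff₀ hc₁]
    linarith
  have h4 : ∑ p ∈ K, PS q V0 (E2S Z s' (γ' p) n₂ p.1 p.2) ≤
      N.card * N'.card * (c₁⁻¹ * ∑ g ∈ K.image γ', PS q V0 (Fin Z s' g n₂)) := by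
    refine le_trans (Finset.sum_le_sum h3) ?_
    rw [Finset.sum_const, nsmul_eq_mul]
    refine mul_le_mul_of_nonneg_right ?_ ?_
    · exact_mod_cast hKcard
    · exact mul_nonneg (inv_nonneg.2 hc₁.le) (Finset.sum_nonneg fun g _ => PS_nonneg)
  have h5 : PS q V0 (E1 Z s b b' G ∩ NB Z (38 * s') G) ≤
      c₂⁻¹ * ∑ p ∈ K, PS q V0 (E2S Z s' (γ' p) n₂ p.1 p.2) := by
    rw [inv_mul_eq_div, le_div_iff₀ hc₂]
    linarith
  have h6 : c₂⁻¹ * ∑ p ∈ K, PS q V0 (E2S Z s' (γ' p) n₂ p.1 p.2) ≤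
      c₂⁻¹ * (N.card * N'.card * (c₁⁻¹ * ∑ g ∈ K.image γ', PS q V0 (Fin Z s' g n₂))) :=
    mul_le_mul_of_nonneg_left h4 (inv_nonneg.2 hc₂.le)
  calc PS q V0 (E1 Z s b b' G)
      ≤ PS q V0 (E1 Z s b b' G \ NB Z (38 * s') G) +
        c₂⁻¹ * (N.card * N'.card * (c₁⁻¹ * ∑ g ∈ K.image γ', PS q V0 (Fin Z s' g n₂))) := by
        linarith
    _ = _ := by ring

/-- The core theorem. -/
theorem core (hgeo : Geo) : ∃ k₀ : ℕ, 100 ≤ k₀ ∧ ∀ k : ℕ, k₀ ≤ k → ∀ c : ℝ, 0 < c →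
    ∃ (A : ℝ) (n₁ k₁ : ℕ), 0 < A ∧ 80 * k ≤ k₁ ∧ ∀ k' : ℕ, k₁ ≤ k' →
      ∃ (B : ℝ) (n₂ m₀ : ℕ), 0 < B ∧ 2 * k' ≤ m₀ ∧
        ∀ (Z : Dat) (V0 : Finset Edge) (q : I), (∀ g ∈ V0, src g ∈ ball 0 2) → m₀ ≤ Z.m →
          RSWreg c Z.m q →
          ∃ (F : Finset (Vert × Vert)) (γ : Vert × Vert → ℕ → Vert) (F' : Finset (ℕ → Vert)),
            (F.card : ℝ) ≤ A ∧ (F'.card : ℝ) ≤ B ∧
            (∀ p ∈ F, ZGood Z.m (Z.m / k) (γ p) n₁ p.1 p.2) ∧
            (∀ γ' ∈ F', ∃ β ∈ sphere 0 (4 * Z.m), ∃ β' ∈ sphere 0 (16 * Z.m),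
              ZGood Z.m (Z.m / k') γ' n₂ β β') ∧
            PS q V0 (Four Z.x Z.y (4 * Z.m) ∩ Out Z.D Z.L Z.T (16 * Z.m)) ≤
              PS q V0 (Four Z.x Z.y (4 * Z.m) ∩ Out Z.D Z.L Z.T (16 * Z.m) ∩
                (NearIn Z (38 * (Z.m / k)) ∪ NearOut Z (38 * (Z.m / k)))) +
              A * ∑ p ∈ F, PS q V0 (E1 Z (Z.m / k) p.1 p.2 (GG Z (Z.m / k) (γ p) n₁) \
                NB Z (38 * (Z.m / k')) (GG Z (Z.m / k) (γ p) n₁)) +
              B * ∑ γ' ∈ F', PS q V0 (Fin Z (Z.m / k') γ' n₂) := by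
  classical
  obtain ⟨kg, hkg1, hgeo⟩ := hgeo
  refine ⟨max kg 100, le_max_right _ _, fun k hk c hc => ?_⟩
  have hk1 : kg ≤ k := le_trans (le_max_left _ _) hk
  have hk2 : 100 ≤ k := le_trans (le_max_right _ _) hk
  obtain ⟨n₁, kg', hgeo⟩ := hgeo k hk1
  obtain ⟨c₁, hc₁, hc₁1, hcirc⟩ := allCirc_lower c hc
  obtain ⟨c₂, hc₂, hc₂1, hseal⟩ := seal_lower c hc
  set a₁ : ℝ := (c₁ ^ (n₁ + 1))⁻¹ with ha₁
  have ha₁0 : 0 < a₁ := by positivity
  set M : ℕ := (8 * (16 * k + 2)) * (8 * (64 * k + 2)) with hM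
  refine ⟨a₁ + M, n₁, max kg' (80 * k), by positivity, le_max_right _ _, fun k' hk' => ?_⟩
  have hk'1 : kg' ≤ k' := le_trans (le_max_left _ _) hk'
  have hk'2 : 80 * k ≤ k' := le_trans (le_max_right _ _) hk'
  obtain ⟨n₂, mg, hgeo⟩ := hgeo k' hk'1
  set M' : ℕ := (8 * (16 * k' + 2)) * (8 * (64 * k' + 2)) with hM'
  set v : ℕ := (160 * k' + 2) ^ 2 with hv
  set b₁ : ℝ := (c₂ ^ v)⁻¹ * (c₁ ^ (n₂ + 1))⁻¹ with hb₁
  have hb₁0 : 0 < b₁ := by positivity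
  refine ⟨a₁ * M * b₁ * M' + M * M' + 1, n₂, max mg (2 * k'), by positivity, le_max_right _ _,
    fun Z V0 q hV0 hm hq => ?_⟩
  have hm1 : mg ≤ Z.m := le_trans (le_max_left _ _) hm
  have hm2 : 2 * k' ≤ Z.m := le_trans (le_max_right _ _) hm
  set m := Z.m with hmdef
  set s := m / k with hsdef
  set s' := m / k' with hs'def
  obtain ⟨hs1, hs2⟩ := div_facts (m := m) (k := k) (by omega) (by omega)
  obtain ⟨hs'1, hs'2⟩ := div_facts (m := m) (k := k') (by omega) (by omega)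
  rw [← hsdef] at hs1 hs2
  rw [← hs'def] at hs'1 hs'2
  have hsm : 100 * s ≤ m := by
    calc 100 * s ≤ k * s := Nat.mul_le_mul_right s hk2
      _ ≤ m := Nat.mul_div_le m k
  have hss : 40 * s' ≤ s := by
    have h1 : k' * s' ≤ m := Nat.mul_div_le m k'
    have h2 : 80 * k * s' ≤ k' * s' := Nat.mul_le_mul_right s' hk'2
    rw [hsdef, Nat.le_div_iff_mul_le (by omega)]
    nlinarith
  obtain ⟨N, hN, hNc⟩ := exists_net (4 * m) s hs1
  obtain ⟨N', hN', hN'c⟩ := exists_net (16 * m) s hs1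
  obtain ⟨N2, hN2, hN2c⟩ := exists_net (4 * m) s' hs'1
  obtain ⟨N2', hN2', hN2'c⟩ := exists_net (16 * m) s' hs'1
  have hs'3 : 2 ≤ s' := by
    rw [hs'def, Nat.le_div_iff_mul_le (by omega)]
    exact hm2
  obtain ⟨V, hV, hVc⟩ := exists_grid (20 * m) (s' - 1) (by omega)
  have hNc' : N.card ≤ 8 * (16 * k + 2) := by
    have := mul_div_le' (a := 8) hs2 hs1
    rw [show 2 * (4 * m) = 8 * m by ring] at hNc
    omega
  have hN'c' : N'.card ≤ 8 * (64 * k + 2) := by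
    have := mul_div_le' (a := 32) hs2 hs1
    rw [show 2 * (16 * m) = 32 * m by ring] at hN'c
    omega
  have hN2c' : N2.card ≤ 8 * (16 * k' + 2) := by
    have := mul_div_le' (a := 8) hs'2 hs'1
    rw [show 2 * (4 * m) = 8 * m by ring] at hN2c
    omega
  have hN2'c' : N2'.card ≤ 8 * (64 * k' + 2) := by
    have := mul_div_le' (a := 32) hs'2 hs'1
    rw [show 2 * (16 * m) = 32 * m by ring] at hN2'c
    omega
  have hVc' : V.card ≤ v := by
    have hs'4 : m ≤ 2 * (2 * k') * (s' - 1) := by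
      have h1 : 2 * k' * s' ≤ 2 * k' * (2 * (s' - 1)) := Nat.mul_le_mul_left _ (by omega)
      calc m ≤ 2 * k' * s' := hs'2
        _ ≤ 2 * k' * (2 * (s' - 1)) := h1
        _ = _ := by ring
    have := mul_div_le' (a := 40) hs'4 (by omega)
    rw [show 2 * (20 * m) = 40 * m by ring] at hVc
    refine le_trans hVc ?_
    rw [hv]
    exact Nat.pow_le_pow_left (by omega) 2
  have hcardF : (N ×ˢ N').card ≤ M := by
    rw [Finset.card_product]
    exact Nat.mul_le_mul hNc' hN'c'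
  have hcard2 : N2.card * N2'.card ≤ M' := Nat.mul_le_mul hN2c' hN2'c'
  have hm1' : 1 ≤ m := by omega
  have hsm1 : s ≤ m := by omega
  have hs'm1 : s' ≤ m := by omega
  have hsealV : c₂ ^ v ≤ Pr q {ω | ∀ v ∈ V, ω ∉ ArmBox v s' (3 * s')} :=
    le_trans (pow_le_pow_of_le_one hc₂.le hc₂1 hVc') (hseal m q hm1' hq V s' hs'1 hs'm1)
  -- the coarse chains
  have hch : ∀ p : Vert × Vert, ∃ γ : ℕ → Vert,
      (p.1 ∈ sphere 0 (4 * m) ∧ p.2 ∈ sphere 0 (16 * m)) →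
        ZGood m s γ n₁ p.1 p.2 ∧
        ∀ β ∈ sphere 0 (4 * m), β ∉ ball p.1 (30 * s) →
        ∀ β' ∈ sphere 0 (16 * m), β' ∉ ball p.2 (30 * s) → ∃ γ' : ℕ → Vert,
          ZGood m s' γ' n₂ β β' ∧
          ∀ w ∈ zone γ' n₂ s', ∀ z ∈ zone γ n₁ s, w ∉ ball z (8 * s') := by
    intro p
    by_cases h : p.1 ∈ sphere 0 (4 * m) ∧ p.2 ∈ sphere 0 (16 * m)
    · obtain ⟨γ, h'⟩ := hgeo m hm1 p.1 h.1 p.2 h.2
      exact ⟨γ, fun _ => h'⟩
    · exact ⟨fun _ => 0, fun h' => absurd h' h⟩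
  choose γ hγ using hch
  have hFgood : ∀ p ∈ N ×ˢ N', p.1 ∈ sphere 0 (4 * m) ∧ p.2 ∈ sphere 0 (16 * m) := by
    intro p hp
    rw [Finset.mem_product] at hp
    exact ⟨hN.sub _ hp.1, hN'.sub _ hp.2⟩
  -- one pair
  have hpair : ∀ p ∈ N ×ˢ N', ∃ F' : Finset (ℕ → Vert), F'.card ≤ N2.card * N2'.card ∧
      (∀ γ' ∈ F', ∃ β ∈ sphere 0 (4 * m), ∃ β' ∈ sphere 0 (16 * m),
        ZGood m s' γ' n₂ β β') ∧
      PS q V0 (E1 Z s p.1 p.2 (GG Z s (γ p) n₁)) ≤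
        PS q V0 (E1 Z s p.1 p.2 (GG Z s (γ p) n₁) \ NB Z (38 * s') (GG Z s (γ p) n₁)) +
          (c₂ ^ v)⁻¹ * (c₁ ^ (n₂ + 1))⁻¹ *
            (N2.card * N2'.card * ∑ γ' ∈ F', PS q V0 (Fin Z s' γ' n₂)) := by
    intro p hp
    have h := hFgood p hp
    exact core_pair hV0 hs'3 hss hsm h.1 h.2 (hγ p h).1 hV hN2 hN2' (by positivity) (by positivity)
      hsealV (fun γ' => hcirc m q hm1' hq γ' n₂ s' hs'1 hs'm1) (hγ p h).2
  choose! F' hF'1 hF'2 hF'3 using hpair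
  refine ⟨N ×ˢ N', γ, (N ×ˢ N').biUnion F', ?_, ?_, fun p hp => (hγ p (hFgood p hp)).1, ?_, ?_⟩
  · have : ((N ×ˢ N').card : ℝ) ≤ M := by exact_mod_cast hcardF
    linarith
  · have h1 : ((N ×ˢ N').biUnion F').card ≤ M * M' := by
      refine le_trans Finset.card_biUnion_le ?_
      refine le_trans (Finset.sum_le_card_nsmul _ _ M' fun p hp => le_trans (hF'1 p hp) hcard2) ?_
      rw [smul_eq_mul]
      exact Nat.mul_le_mul_right M' hcardF
    have h2 : ((((N ×ˢ N').biUnion F').card : ℕ) : ℝ) ≤ M * M' := by exact_mod_cast h1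
    have h3 : 0 ≤ a₁ * M * b₁ * M' := by positivity
    linarith
  · intro g hg
    obtain ⟨p, hp, hg⟩ := Finset.mem_biUnion.1 hg
    exact hF'2 p hp g hg
  -- the main inequality
  set S : ℝ := ∑ γ' ∈ (N ×ˢ N').biUnion F', PS q V0 (Fin Z s' γ' n₂) with hS
  have hS0 : 0 ≤ S := Finset.sum_nonneg fun _ _ => PS_nonneg
  have hsub : ∀ p ∈ N ×ˢ N', ∑ γ' ∈ F' p, PS q V0 (Fin Z s' γ' n₂) ≤ S := by
    intro p hp
    exact Finset.sum_le_sum_of_subset_of_nonneg (Finset.subset_biUnion_of_mem F' hp)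
      fun _ _ _ => PS_nonneg
  have hE0 : ∀ p ∈ N ×ˢ N', PS q V0 (E0 Z s p.1 p.2) ≤
      a₁ * PS q V0 (E1 Z s p.1 p.2 (GG Z s (γ p) n₁) \ NB Z (38 * s') (GG Z s (γ p) n₁)) +
        a₁ * b₁ * M' * S := by
    intro p hp
    have h := hFgood p hp
    have h1 := stage1 (Z := Z) hV0 (s := s) (n := n₁) (γ := γ p) hs1 hsm h.1 h.2 (hγ p h).1
      (q := q) (c := c₁ ^ (n₁ + 1)) (by positivity) (hcirc m q hm1' hq (γ p) n₁ s hs1 hsm1)
    have h2 : PS q V0 (E0 Z s p.1 p.2) ≤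
        a₁ * PS q V0 (E1 Z s p.1 p.2 (GG Z s (γ p) n₁)) := by
      rw [ha₁, inv_mul_eq_div, le_div_iff₀ (by positivity)]
      linarith
    have h3 : b₁ * (N2.card * N2'.card * ∑ γ' ∈ F' p, PS q V0 (Fin Z s' γ' n₂)) ≤
        b₁ * (M' * S) := by
      refine mul_le_mul_of_nonneg_left ?_ hb₁0.le
      refine mul_le_mul (by exact_mod_cast hcard2) (hsub p hp)
        (Finset.sum_nonneg fun _ _ => PS_nonneg) (by positivity)
    have h4 := hF'3 p hp
    rw [← hb₁] at h4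
    calc PS q V0 (E0 Z s p.1 p.2) ≤ a₁ * PS q V0 (E1 Z s p.1 p.2 (GG Z s (γ p) n₁)) := h2
      _ ≤ a₁ * (PS q V0 (E1 Z s p.1 p.2 (GG Z s (γ p) n₁) \
            NB Z (38 * s') (GG Z s (γ p) n₁)) + b₁ * (M' * S)) :=
          mul_le_mul_of_nonneg_left (by linarith) ha₁0.le
      _ = _ := by ring
  have hD := det1 (Z := Z) (s := s) hN hN'
  have h1 : PS q V0 (Four Z.x Z.y (4 * m) ∩ Out Z.D Z.L Z.T (16 * m)) ≤
      PS q V0 (Four Z.x Z.y (4 * m) ∩ Out Z.D Z.L Z.T (16 * m) ∩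
        (NearIn Z (38 * s) ∪ NearOut Z (38 * s))) +
        ∑ p ∈ N ×ˢ N', PS q V0 (E0 Z s p.1 p.2) := by
    refine le_trans (PS_mono hD) (le_trans PS_union_le ?_)
    refine add_le_add le_rfl ?_
    have h2 : (⋃ b ∈ N, ⋃ b' ∈ N', E0 Z s b b') ⊆ ⋃ p ∈ N ×ˢ N', E0 Z s p.1 p.2 := by
      intro ω hω
      simp only [Set.mem_iUnion] at hω ⊢
      obtain ⟨b, hb, b', hb', h⟩ := hω
      exact ⟨(b, b'), Finset.mem_product.2 ⟨hb, hb'⟩, h⟩
    exact le_trans (PS_mono h2) (PS_biUnion_le _ _)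
  have h2 : ∑ p ∈ N ×ˢ N', PS q V0 (E0 Z s p.1 p.2) ≤
      a₁ * ∑ p ∈ N ×ˢ N', PS q V0 (E1 Z s p.1 p.2 (GG Z s (γ p) n₁) \
        NB Z (38 * s') (GG Z s (γ p) n₁)) + M * (a₁ * b₁ * M' * S) := by
    refine le_trans (Finset.sum_le_sum hE0) ?_
    rw [Finset.sum_add_distrib, Finset.sum_const, nsmul_eq_mul, ← Finset.mul_sum]
    refine add_le_add le_rfl (mul_le_mul_of_nonneg_right (by exact_mod_cast hcardF) ?_)
    positivity
  set S1 : ℝ := ∑ p ∈ N ×ˢ N', PS q V0 (E1 Z s p.1 p.2 (GG Z s (γ p) n₁) \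
        NB Z (38 * s') (GG Z s (γ p) n₁)) with hS1
  have hS10 : 0 ≤ S1 := Finset.sum_nonneg fun _ _ => PS_nonneg
  have h3 : (0 : ℝ) ≤ M * S1 := by positivity
  have h4 : (0 : ℝ) ≤ (M * M' + 1) * S := by positivity
  nlinarith [h1, h2, h3, h4]

end Pool.Agent.H83.SK

end
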