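import Pool.Agent.H31.PT.M09

/-! The parts of this file: H90.AL.Dist, H29.Kap.Defs, H90.AL.Arms, H29.Kap.Integral, H31.AL.Dyadic. -/

section

/-!
# Distances on the torus
-/

open MeasureTheory ProbabilityTheory unitInterval

namespace Pool.Agent.H90.AL

open Pool.Agent.H89.Perc Pool.Agent.H61.NC

/-- Distance of an integer to the multiples of `N`. -/
def dZ (N : ℕ) (t : ℤ) : ℕ := (t.bmod N).natAbs

/-- Distance on the torus. -/
def dT (N : ℕ) (u v : Vert) : ℕ := max (dZ N (u.1 - v.1)) (dZ N (u.2 - v.2))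

lemma dZ_exists (N : ℕ) (t : ℤ) : ∃ k : ℤ, |t - k * N| = dZ N t := by
  refine ⟨t.bdiv N, ?_⟩
  have h := Int.bmod_add_bdiv t N
  unfold dZ
  rw [Int.natCast_natAbs]
  congr 1
  linarith

lemma dZ_le_half {N : ℕ} (hN : 1 ≤ N) (t : ℤ) : 2 * dZ N t ≤ N := by
  have h1 := Int.le_bmod (x := t) (m := N) (by omega)
  have h2 := Int.bmod_le (x := t) (m := N) (by omega)
  unfold dZ
  omega

lemma dZ_min {N : ℕ} (hN : 1 ≤ N) (t k : ℤ) : (dZ N t : ℤ) ≤ |t - k * N| := by
  obtain ⟨k0, hk0⟩ := dZ_exists N t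
  have h1 := dZ_le_half hN t
  obtain ⟨b, hb⟩ : ∃ b, b = t - k0 * N := ⟨_, rfl⟩
  rw [← hb] at hk0
  have e : t - k * N = b + (k0 - k) * N := by rw [hb]; ring
  rw [e]
  rcases lt_trichotomy (k0 - k) 0 with h | h | h
  · have h2 : (k0 - k) * N ≤ -1 * N := mul_le_mul_of_nonneg_right (by omega) (by omega)
    rcases abs_cases b with h3 | h3 <;> rcases abs_cases (b + (k0 - k) * N) with h4 | h4 <;> omega
  · rw [h, zero_mul, add_zero, hk0]
  · have h2 : 1 * N ≤ (k0 - k) * N := mul_le_mul_of_nonneg_right (by omega) (by omega)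
    rcases abs_cases b with h3 | h3 <;> rcases abs_cases (b + (k0 - k) * N) with h4 | h4 <;> omega

lemma dZ_neg {N : ℕ} (hN : 1 ≤ N) (t : ℤ) : dZ N (-t) = dZ N t := by
  have key : ∀ t : ℤ, (dZ N (-t) : ℤ) ≤ dZ N t := by
    intro t
    obtain ⟨k, hk⟩ := dZ_exists N t
    rw [← hk]
    refine (dZ_min hN (-t) (-k)).trans (le_of_eq ?_)
    rw [← abs_neg]
    congr 1
    ring
  have h1 := key t
  have h2 := key (-t)
  rw [neg_neg] at h2
  omega

lemma dZ_add {N : ℕ} (hN : 1 ≤ N) (s t : ℤ) : dZ N (s + t) ≤ dZ N s + dZ N t := by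
  obtain ⟨k, hk⟩ := dZ_exists N s
  obtain ⟨k', hk'⟩ := dZ_exists N t
  have h := dZ_min hN (s + t) (k + k')
  have e : s + t - (k + k') * N = (s - k * N) + (t - k' * N) := by ring
  rw [e] at h
  have h2 := abs_add_le (s - k * N) (t - k' * N)
  omega

lemma dT_self (N : ℕ) (u : Vert) : dT N u u = 0 := by
  unfold dT dZ
  simp

lemma dT_comm {N : ℕ} (hN : 1 ≤ N) (u v : Vert) : dT N u v = dT N v u := by
  unfold dT
  rw [← dZ_neg hN (u.1 - v.1), ← dZ_neg hN (u.2 - v.2), neg_sub, neg_sub]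

lemma dT_tri {N : ℕ} (hN : 1 ≤ N) (u v w : Vert) : dT N u w ≤ dT N u v + dT N v w := by
  unfold dT
  have h1 := dZ_add hN (u.1 - v.1) (v.1 - w.1)
  have h2 := dZ_add hN (u.2 - v.2) (v.2 - w.2)
  rw [sub_add_sub_cancel] at h1 h2
  omega

lemma dT_le_half {N : ℕ} (hN : 1 ≤ N) (u v : Vert) : 2 * dT N u v ≤ N := by
  unfold dT
  have h1 := dZ_le_half hN (u.1 - v.1)
  have h2 := dZ_le_half hN (u.2 - v.2)
  omega

/-- A translate at distance at most `r`. -/
lemma dT_le_of {N : ℕ} (hN : 1 ≤ N) {u v : Vert} {r : ℕ} (a b : ℤ)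
    (h : (u.1 - a * N, u.2 - b * N) ∈ ball v r) : dT N u v ≤ r := by
  rw [mem_ball] at h
  simp only at h
  unfold dT
  have h1 := dZ_min hN (u.1 - v.1) a
  have h2 := dZ_min hN (u.2 - v.2) b
  have h3 : |u.1 - v.1 - a * N| ≤ r := by rw [abs_le]; constructor <;> linarith
  have h4 : |u.2 - v.2 - b * N| ≤ r := by rw [abs_le]; constructor <;> linarith
  omega

lemma exists_of_dT_le {N : ℕ} {u v : Vert} {r : ℕ} (h : dT N u v ≤ r) :
    ∃ a b : ℤ, (u.1 - a * N, u.2 - b * N) ∈ ball v r := by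
  obtain ⟨a, ha⟩ := dZ_exists N (u.1 - v.1)
  obtain ⟨b, hb⟩ := dZ_exists N (u.2 - v.2)
  refine ⟨a, b, ?_⟩
  unfold dT at h
  rw [mem_ball]
  simp only
  have h1 : |u.1 - v.1 - a * N| ≤ r := by omega
  have h2 : |u.2 - v.2 - b * N| ≤ r := by omega
  rw [abs_le] at h1 h2
  constructor
  · linarith
  constructor
  · linarith
  constructor
  · linarith
  · linarith

/-- Far vertices: no translate is in the ball. -/
lemma notMem_of_lt {N : ℕ} (hN : 1 ≤ N) {u v : Vert} {r : ℕ} (h : r < dT N u v) (a b : ℤ) :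
    (u.1 - a * N, u.2 - b * N) ∉ ball v r := fun h' => by
  have := dT_le_of hN a b h'
  omega

/-- If a vertex is close then every translate in a ball of radius less than `N / 2` is close. -/
lemma mem_of_dT_le {N : ℕ} (hN : 1 ≤ N) {u v : Vert} {t R : ℕ} (h : dT N u v ≤ t)
    (hR : t + R < N) (a b : ℤ) (hm : (u.1 - a * N, u.2 - b * N) ∈ ball v R) :
    (u.1 - a * N, u.2 - b * N) ∈ ball v t := by
  obtain ⟨a', b', h'⟩ := exists_of_dT_le h
  rw [mem_ball] at h' hm ⊢
  simp only at h' hm ⊢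
  have key : ∀ c c' : ℤ, ∀ x y : ℤ, y - t ≤ x - c' * N → x - c' * N ≤ y + t →
      y - R ≤ x - c * N → x - c * N ≤ y + R → c = c' := by
    intro c c' x y h1 h2 h3 h4
    by_contra h0
    rcases lt_or_gt_of_ne h0 with h5 | h5
    · have h6 : (c + 1) * N ≤ c' * N := mul_le_mul_of_nonneg_right (by omega) (by omega)
      rw [add_mul, one_mul] at h6
      omega
    · have h6 : (c' + 1) * N ≤ c * N := mul_le_mul_of_nonneg_right (by omega) (by omega)
      rw [add_mul, one_mul] at h6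
      omega
  have e1 := key a a' u.1 v.1 h'.1 h'.2.1 hm.1 hm.2.1
  have e2 := key b b' u.2 v.2 h'.2.2.1 h'.2.2.2 hm.2.2.1 hm.2.2.2
  rw [e1, e2]
  exact h'

lemma mem_tEdges_iff {N : ℕ} {e : Edge} :
    e ∈ tEdges N ↔ (0 ≤ e.1 ∧ e.1 < N) ∧ (0 ≤ e.2.1 ∧ e.2.1 < N) := by
  simp only [tEdges, Finset.mem_product, Finset.mem_Ico, Finset.mem_univ, and_true]

lemma modE_mem {N : ℕ} (hN : 1 ≤ N) (e : Edge) : modE N e ∈ tEdges N := by
  have hN' : (0 : ℤ) < N := by exact_mod_cast hN
  rw [mem_tEdges_iff]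
  exact ⟨⟨Int.emod_nonneg _ hN'.ne', Int.emod_lt_of_pos _ hN'⟩,
    ⟨Int.emod_nonneg _ hN'.ne', Int.emod_lt_of_pos _ hN'⟩⟩

lemma modE_eq {N : ℕ} {e : Edge} (he : e ∈ tEdges N) : modE N e = e := by
  rw [mem_tEdges_iff] at he
  obtain ⟨x, y, t⟩ := e
  simp only at he
  simp only [modE]
  rw [Int.emod_eq_of_lt he.1.1 he.1.2, Int.emod_eq_of_lt he.2.1 he.2.2]

lemma modE_shift {N : ℕ} (e : Edge) :
    ∃ a b : ℤ, e = shiftE (a * N, b * N) (modE N e) := by
  refine ⟨e.1 / N, e.2.1 / N, ?_⟩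
  obtain ⟨x, y, c⟩ := e
  simp only [modE, shiftE]
  rw [Int.emod_add_ediv_mul, Int.emod_add_ediv_mul]

lemma src_modE {N : ℕ} (e : Edge) :
    ∃ a b : ℤ, ((src (modE N e)).1 - a * N, (src (modE N e)).2 - b * N) = src e := by
  obtain ⟨a, b, h⟩ := modE_shift (N := N) e
  refine ⟨-a, -b, ?_⟩
  conv_rhs => rw [h]
  simp only [src, shiftE]
  ext <;> (simp only; ring)

/-- The edges of the torus at distance between `t` and `R` from `c`. -/
noncomputable def SR (N : ℕ) (c : Vert) (t R : ℕ) : Finset Edge :=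
  (tEdges N).filter fun g => t ≤ dT N (src g) c ∧ dT N (src g) c ≤ R

lemma mem_SR {N : ℕ} {c : Vert} {t R : ℕ} {g : Edge} :
    g ∈ SR N c t R ↔ g ∈ tEdges N ∧ t ≤ dT N (src g) c ∧ dT N (src g) c ≤ R := by
  simp only [SR, Finset.mem_filter]

lemma modE_mem_SR {N : ℕ} (hN : 1 ≤ N) {c : Vert} {R : ℕ} {e : Edge} (he : src e ∈ ball c R) :
    modE N e ∈ SR N c 0 R := by
  rw [mem_SR]
  refine ⟨modE_mem hN e, Nat.zero_le _, ?_⟩
  obtain ⟨a, b, h⟩ := src_modE (N := N) e
  exact dT_le_of hN a b (by rw [h]; exact he)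

lemma modE_mem_SR' {N : ℕ} (hN : 1 ≤ N) {c : Vert} {t R : ℕ} (ht : 1 ≤ t) (hR : t + R ≤ N)
    {e : Edge} (he : src e ∈ ball c R) (he' : src e ∉ ball c (t - 1)) :
    modE N e ∈ SR N c t R := by
  rw [mem_SR]
  obtain ⟨a, b, h⟩ := src_modE (N := N) e
  refine ⟨modE_mem hN e, ?_, ?_⟩
  · by_contra hlt
    push Not at hlt
    apply he'
    have := mem_of_dT_le hN (u := src (modE N e)) (v := c) (t := t - 1) (R := R) (by omega)
      (by omega) a b (by rw [h]; exact he)
    rw [h] at this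
    exact this
  · exact dT_le_of hN a b (by rw [h]; exact he)

lemma localOn_A4T' {N : ℕ} (hN : 1 ≤ N) (f : Edge) (r : ℕ) :
    LocalOn (SR N (src f) 0 r) (A4T N f r) := by
  refine (localOn_A4T N f r).mono ?_
  intro g hg
  rw [Finset.mem_image] at hg
  obtain ⟨e, he, rfl⟩ := hg
  exact modE_mem_SR hN (mem_eRect.1 he)

/-- Two crossing clusters of an annulus of the torus. -/
def A2T (N : ℕ) (c : Vert) (t R : ℕ) : Set Config :=
  {ω | (fun g => per N ω (shiftE c g)) ∈ Pool.Agent.H29.Sep.A2 t R}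

lemma A2_congr {t R : ℕ} {ω ω' : Config}
    (h : ∀ e, src e ∈ Pool.Agent.H29.Sep.dom t R → tgt e ∈ Pool.Agent.H29.Sep.dom t R →
      ω e = ω' e) (hω : ω ∈ Pool.Agent.H29.Sep.A2 t R) : ω' ∈ Pool.Agent.H29.Sep.A2 t R := by
  obtain ⟨u, hu, u', hu', v, hv, v', hv', h1, h2, h3⟩ := hω
  refine ⟨u, hu, u', hu', v, hv, v', hv', h1.congr h, h2.congr h, fun h4 => h3 ?_⟩
  exact h4.congr fun e he he' => (h e he he').symm

lemma localOn_A2' (t R : ℕ) : LocalOn (eRect (-(R : ℤ)) R (-(R : ℤ)) R)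
    (Pool.Agent.H29.Sep.A2 t R) := by
  intro ω ω' h hω
  refine A2_congr (fun e he _ => h e (mem_eRect.2 ?_)) hω
  have := he.1
  simpa [ball] using this

lemma localOn_A2T {N : ℕ} (hN : 1 ≤ N) (c : Vert) {t R : ℕ} (ht : 1 ≤ t) (hR : t + R ≤ N) :
    LocalOn (SR N c t R) (A2T N c t R) := by
  intro ω ω' h hω
  refine A2_congr (fun e he _ => ?_) hω
  unfold per
  refine h _ (modE_mem_SR' hN ht hR (e := shiftE c e) ?_ ?_)
  · have := he.1
    simp only [mem_ball, src, shiftE, Prod.fst_zero, Prod.snd_zero] at this ⊢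
    omega
  · intro h'
    apply he.2
    simp only [mem_ball, src, shiftE, Prod.fst_zero, Prod.snd_zero] at h' ⊢
    omega

lemma Pr_A2T (q : I) {N : ℕ} (c : Vert) {t R : ℕ} (hR : 2 * R < N) :
    Pr q (A2T N c t R) = Pr q (Pool.Agent.H29.Sep.A2 t R) := by
  have hinj : Set.InjOn (fun g : Edge => modE N (shiftE c g)) (eRect (-(R : ℤ)) R (-(R : ℤ)) R) := by
    intro e he e' he' hee
    have h1 : shiftE c e ∈ eRect (c.1 - R) (c.1 + R) (c.2 - R) (c.2 + R) := by
      rw [Finset.mem_coe, mem_eRect] at he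
      rw [mem_eRect]
      simp only [src, shiftE, rect, Set.mem_ofPred_eq] at he ⊢
      omega
    have h2 : shiftE c e' ∈ eRect (c.1 - R) (c.1 + R) (c.2 - R) (c.2 + R) := by
      rw [Finset.mem_coe, mem_eRect] at he'
      rw [mem_eRect]
      simp only [src, shiftE, rect, Set.mem_ofPred_eq] at he' ⊢
      omega
    exact shiftE_injective c (modE_injOn (by omega) (by omega) h1 h2 hee)
  rw [← Pr_comp (localOn_A2' t R) hinj]
  rfl

end Pool.Agent.H90.AL

end

section

/-!
# Cluster counts in rectangles: definitions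

Vertices, edges, configurations, `Conn`, `dual`, `rect` are those of `Pool.Agent.H89.Perc`.
-/

set_option autoImplicit false

namespace Pool.Agent.H29.Kap

open Pool.Agent.H89.Perc

/-- The edges with both endpoints in the rectangle `[a, b] × [c, d]`. -/
noncomputable def redges (a b c d : ℤ) : Finset Edge :=
  (Finset.Icc a (b - 1) ×ˢ Finset.Icc c d ×ˢ {false}) ∪
    (Finset.Icc a b ×ˢ Finset.Icc c (d - 1) ×ˢ {true})

/-- The boundary vertices of the rectangle `[a, b] × [c, d]`. -/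
def bd (a b c d : ℤ) : Set Vert :=
  {v | v ∈ rect a b c d ∧ (v.1 = a ∨ v.1 = b ∨ v.2 = c ∨ v.2 = d)}

/-- The clusters of `ω` in the vertex set `S` (only edges with both endpoints in `S` are used). -/
def clusters (ω : Config) (S : Set Vert) : Set (Set Vert) :=
  {C | ∃ v ∈ S, C = {w | Conn ω S v w}}

/-- The number of clusters of `ω` in `S` which do not meet `B` (inner clusters). -/
noncomputable def J (ω : Config) (S B : Set Vert) : ℕ :=
  {C | C ∈ clusters ω S ∧ Disjoint C B}.ncard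

/-- The number of clusters of `ω` in `S`. -/
noncomputable def K (ω : Config) (S : Set Vert) : ℕ := (clusters ω S).ncard

/-- Connection in `S`, where all vertices of `B` are identified. -/
def WConn (ω : Config) (S B : Set Vert) (u v : Vert) : Prop :=
  Conn ω S u v ∨ ((∃ x ∈ B, Conn ω S u x) ∧ ∃ y ∈ B, Conn ω S v y)

/-- An endpoint of `e` is joined to the boundary of the rectangle `[a, b] × [c, d]` by an open path
in the rectangle which does not use `e`. -/
def OArm (ω : Config) (a b c d : ℤ) (e : Edge) : Prop :=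
  ∃ u, (u = src e ∨ u = tgt e) ∧ ∃ w ∈ bd a b c d,
    Conn (Function.update ω e false) (rect a b c d) u w

/-- A face next to `e` is joined to the outside of the rectangle `[a, b] × [c, d]` by a closed dual
path which does not use the dual edge of `e`. (The face with lower left corner `F` is the dual
vertex `F`; the faces next to `e` are `src e` and `lowFace e`; the faces inside the rectangle are
`rect a (b - 1) c (d - 1)`; the outside is the boundary of `rect (a - 1) b (c - 1) d`.) -/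
def CArm (ω : Config) (a b c d : ℤ) (e : Edge) : Prop :=
  ∃ F, (F = src e ∨ F = lowFace e) ∧ ∃ G ∈ bd (a - 1) b (c - 1) d,
    Conn (dual (Function.update ω e true)) (rect (a - 1) b (c - 1) d) F G

/-- The random set `R` of the rectangle `D = [a, b] × [c, d]`: edges of `D` with an open arm and a
closed dual arm to the outside of `D`. -/
def InR (ω : Config) (a b c d : ℤ) (e : Edge) : Prop :=
  e ∈ redges a b c d ∧ OArm ω a b c d e ∧ CArm ω a b c d e

/-- The number of clusters of `[x1, x2] × [c, d]` which touch both vertical sides. -/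
noncomputable def NC (ω : Config) (x1 x2 c d : ℤ) : ℕ :=
  {C | C ∈ clusters ω (rect x1 x2 c d) ∧ (∃ u ∈ C, u.1 = x1) ∧ ∃ v ∈ C, v.1 = x2}.ncard

/-- The configuration with the state of `g` flipped. -/
def flip (ω : Config) (g : Edge) : Config := Function.update ω g (!ω g)

/-- Second difference of the number of clusters for the overlapping rectangles `[x0, x2]` and
`[x1, x3]` (times `[c, d]`). -/
noncomputable def X (ω : Config) (x0 x1 x2 x3 c d : ℤ) : ℤ :=
  (K ω (rect x0 x3 c d) : ℤ) - K ω (rect x0 x2 c d) - K ω (rect x1 x3 c d) + K ω (rect x1 x2 c d)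

/-- Expected number of clusters of bond percolation with density `p` on `[a, b] × [c, d]`. -/
noncomputable def EK (p : ℝ) (a b c d : ℤ) : ℝ :=
  Pool.Agent.Perc.Ex p (redges a b c d)
    (fun S => (K (Pool.Agent.H89.Perc.ofS S) (rect a b c d) : ℝ))

/-- Expected number of inner clusters of bond percolation with density `p` on `[a, b] × [c, d]`. -/
noncomputable def EJ (p : ℝ) (a b c d : ℤ) : ℝ :=
  Pool.Agent.Perc.Ex p (redges a b c d)
    (fun S => (J (Pool.Agent.H89.Perc.ofS S) (rect a b c d) (bd a b c d) : ℝ))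

theorem mem_redges {a b c d : ℤ} {e : Edge} :
    e ∈ redges a b c d ↔ src e ∈ rect a b c d ∧ tgt e ∈ rect a b c d := by
  obtain ⟨x, y, t⟩ := e
  cases t
  · simp only [redges, Finset.mem_union, Finset.mem_product, Finset.mem_Icc, Finset.mem_singleton,
      src, tgt, rect, Set.mem_ofPred_eq, Bool.false_eq_true, if_false, and_true, and_false, or_false]
    omega
  · simp only [redges, Finset.mem_union, Finset.mem_product, Finset.mem_Icc, Finset.mem_singleton,
      src, tgt, rect, Set.mem_ofPred_eq, if_true, Bool.true_eq_false, and_false, and_true, false_or]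
    omega

theorem rect_finite (a b c d : ℤ) : (rect a b c d).Finite := by
  refine ((Finset.Icc a b ×ˢ Finset.Icc c d).finite_toSet).subset ?_
  rintro ⟨x, y⟩ ⟨h1, h2, h3, h4⟩
  simp only [Finset.coe_product, Finset.coe_Icc, Set.mem_prod, Set.mem_Icc]
  exact ⟨⟨h1, h2⟩, h3, h4⟩

theorem clusters_finite (ω : Config) {S : Set Vert} (hS : S.Finite) : (clusters ω S).Finite := by
  have : clusters ω S = (fun v => {w | Conn ω S v w}) '' S := by
    ext C
    constructor
    · rintro ⟨v, hv, rfl⟩; exact ⟨v, hv, rfl⟩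
    · rintro ⟨v, hv, rfl⟩; exact ⟨v, hv, rfl⟩
  rw [this]
  exact hS.image _

theorem K_eq_J (ω : Config) (S : Set Vert) : K ω S = J ω S ∅ := by
  unfold K J
  congr 1
  ext C
  simp

theorem ofS_update (S : Finset Edge) (e : Edge) :
    Function.update (ofS S) e true = ofS (insert e S) ∧
      Function.update (ofS S) e false = ofS (S.erase e) :=
  ⟨update_ofS_true S e, update_ofS_false S e⟩

theorem mem_cluster_iff {ω : Config} {S : Set Vert} {C : Set Vert} (hC : C ∈ clusters ω S)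
    {v : Vert} (hv : v ∈ C) : C = {w | Conn ω S v w} := by
  obtain ⟨u, hu, rfl⟩ := hC
  ext w
  exact ⟨fun h => (Conn.symm hv).trans h, fun h => Conn.trans hv h⟩

theorem cluster_subset {ω : Config} {S : Set Vert} {C : Set Vert} (hC : C ∈ clusters ω S) :
    C ⊆ S := by
  obtain ⟨u, hu, rfl⟩ := hC
  exact fun w hw => Conn.mem_right hw

theorem cluster_nonempty {ω : Config} {S : Set Vert} {C : Set Vert} (hC : C ∈ clusters ω S) :
    C.Nonempty := by
  obtain ⟨u, hu, rfl⟩ := hC
  exact ⟨u, Conn.refl hu⟩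

end Pool.Agent.H29.Kap

end

section

/-!
# Arms of a pivotal edge for the connection event on the torus
-/

open MeasureTheory ProbabilityTheory unitInterval

namespace Pool.Agent.H90.AL

open Pool.Agent.H89.Perc Pool.Agent.H61.NC

/-- Periodic configurations. -/
def IsPer (N : ℕ) (η : Config) : Prop := ∀ (a b : ℤ) (f : Edge), η (shiftE (a * N, b * N) f) = η f

lemma isPer_per (N : ℕ) (ω : Config) : IsPer N (per N ω) := by
  intro a b f
  simp only [per, shiftE]
  rw [Int.add_mul_emod_self_right, Int.add_mul_emod_self_right]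

lemma conn_per {N : ℕ} {η : Config} (hη : IsPer N η) (a b : ℤ) {u v : Vert}
    (h : Conn η Set.univ u v) :
    Conn η Set.univ (u.1 + a * N, u.2 + b * N) (v.1 + a * N, v.2 + b * N) := by
  have h1 := conn_shift (ω := η) (a * N, b * N) Set.univ u v
  have h2 : (fun e => η (shiftE (a * N, b * N) e)) = η := by
    funext e
    exact hη a b e
  rw [h2] at h1
  exact (h1.1 h).mono_set (Set.subset_univ _)

/-- Contraction of the translates of a small cluster. -/
theorem retract {N r : ℕ} (hN : 2 * r + 2 ≤ N) (x p q : Vert)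
    (η0 η1 : Config)
    (hper : ∀ (a b : ℤ) (u v : Vert), Conn η0 Set.univ u v →
      Conn η0 Set.univ (u.1 + a * N, u.2 + b * N) (v.1 + a * N, v.2 + b * N))
    (hstep : ∀ v v' : Vert, Step η1 Set.univ v v' → Step η0 Set.univ v v' ∨ ∃ a b : ℤ,
      (v = (p.1 + a * N, p.2 + b * N) ∧ v' = (q.1 + a * N, q.2 + b * N)) ∨
      (v = (q.1 + a * N, q.2 + b * N) ∧ v' = (p.1 + a * N, p.2 + b * N)))
    (hq : |q.1 - x.1| ≤ 1 ∧ |q.2 - x.2| ≤ 1) (hpq : ¬ Conn η0 Set.univ p q)
    (hC : ∀ v : Vert, Conn η0 Set.univ p v → |v.1 - x.1| ≤ r ∧ |v.2 - x.2| ≤ r)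
    (u v : Vert) (hu : ∀ a b : ℤ, ¬ Conn η0 Set.univ p (u.1 - a * N, u.2 - b * N))
    (hv : ∀ a b : ℤ, ¬ Conn η0 Set.univ p (v.1 - a * N, v.2 - b * N))
    (h : Conn η1 Set.univ u v) : Conn η0 Set.univ u v := by
  classical
  have hN' : (2 * r + 2 : ℤ) ≤ N := by exact_mod_cast hN
  -- membership in the translate of the cluster
  obtain ⟨Cl, hCl⟩ : ∃ Cl : ℤ → ℤ → Vert → Prop, ∀ a b v, Cl a b v ↔
      Conn η0 Set.univ p (v.1 - a * N, v.2 - b * N) := ⟨_, fun _ _ _ => Iff.rfl⟩
  have hmul : ∀ c : ℤ, |c * N| < N → c = 0 := by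
    intro c hc
    by_contra h0
    have h1 : 1 ≤ |c| := Int.one_le_abs h0
    rw [abs_mul, abs_of_nonneg (by omega : (0 : ℤ) ≤ N)] at hc
    nlinarith
  have huniq : ∀ a b a' b' v, Cl a b v → Cl a' b' v → a = a' ∧ b = b' := by
    intro a b a' b' v h1 h2
    have h3 := hC _ ((hCl _ _ _).1 h1)
    have h4 := hC _ ((hCl _ _ _).1 h2)
    simp only at h3 h4
    have h5 : a - a' = 0 := by
      apply hmul
      have e1 : (a - a') * N = (v.1 - a' * N - x.1) - (v.1 - a * N - x.1) := by ring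
      rw [e1]
      have := abs_sub (v.1 - a' * N - x.1) (v.1 - a * N - x.1)
      omega
    have h6 : b - b' = 0 := by
      apply hmul
      have e1 : (b - b') * N = (v.2 - b' * N - x.2) - (v.2 - b * N - x.2) := by ring
      rw [e1]
      have := abs_sub (v.2 - b' * N - x.2) (v.2 - b * N - x.2)
      omega
    exact ⟨by omega, by omega⟩
  have hshift : ∀ a b c d v, Cl a b v → Cl (a + c) (b + d) (v.1 + c * N, v.2 + d * N) := by
    intro a b c d v h1
    rw [hCl] at h1 ⊢
    have e1 : ((v.1 + c * N - (a + c) * N, v.2 + d * N - (b + d) * N) : Vert) =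
        (v.1 - a * N, v.2 - b * N) := by
      ext <;> (simp only; ring)
    simp only at e1 ⊢
    rw [e1]
    exact h1
  have hqC : ∀ a b c d, ¬ Cl a b (q.1 + c * N, q.2 + d * N) := by
    intro a b c d h1
    rw [hCl] at h1
    have h3 := hC _ h1
    simp only at h3
    have h5 : c - a = 0 := by
      apply hmul
      have e1 : (c - a) * N = (q.1 + c * N - a * N - x.1) - (q.1 - x.1) := by ring
      rw [e1]
      have := abs_sub (q.1 + c * N - a * N - x.1) (q.1 - x.1)
      omega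
    have h6 : d - b = 0 := by
      apply hmul
      have e1 : (d - b) * N = (q.2 + d * N - b * N - x.2) - (q.2 - x.2) := by ring
      rw [e1]
      have := abs_sub (q.2 + d * N - b * N - x.2) (q.2 - x.2)
      omega
    have h7 : c = a := by omega
    have h8 : d = b := by omega
    subst h7 h8
    apply hpq
    have e1 : ((q.1 + c * N - c * N, q.2 + d * N - d * N) : Vert) = q := by
      ext <;> (simp only; ring)
    simp only at h1
    rw [e1] at h1
    exact h1
  have hpC : ∀ c d, Cl c d (p.1 + c * N, p.2 + d * N) := by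
    intro c d
    rw [hCl]
    have e1 : ((p.1 + c * N - c * N, p.2 + d * N - d * N) : Vert) = p := by
      ext <;> (simp only; ring)
    simp only
    rw [e1]
    exact Conn.refl (Set.mem_univ _)
  -- closure under steps
  have hclose : ∀ a b v v', Step η0 Set.univ v v' → Cl a b v → Cl a b v' := by
    intro a b v v' h1 h2
    rw [hCl] at h2 ⊢
    have h3 := hper (-a) (-b) v v' h1.conn
    have e1 : ∀ w : Vert, ((w.1 + -a * N, w.2 + -b * N) : Vert) = (w.1 - a * N, w.2 - b * N) := by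
      intro w
      ext <;> (simp only; ring)
    rw [e1, e1] at h3
    exact h2.trans h3
  obtain ⟨g, hg⟩ : ∃ g : Vert → Vert, g = fun v => if h : ∃ c : ℤ × ℤ, Cl c.1 c.2 v then
      (q.1 + h.choose.1 * N, q.2 + h.choose.2 * N) else v := ⟨_, rfl⟩
  have hg1 : ∀ a b v, Cl a b v → g v = (q.1 + a * N, q.2 + b * N) := by
    intro a b v h1
    have h2 : ∃ c : ℤ × ℤ, Cl c.1 c.2 v := ⟨(a, b), h1⟩
    rw [hg]
    simp only
    rw [dif_pos h2]
    obtain ⟨h3, h4⟩ := huniq _ _ _ _ v h2.choose_spec h1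
    rw [h3, h4]
  have hg2 : ∀ v, (∀ a b, ¬ Cl a b v) → g v = v := by
    intro v h1
    have h2 : ¬ ∃ c : ℤ × ℤ, Cl c.1 c.2 v := by
      rintro ⟨c, hc⟩
      exact h1 _ _ hc
    rw [hg]
    simp only
    rw [dif_neg h2]
  have hg3 : ∀ v c d, g (v.1 + c * N, v.2 + d * N) = ((g v).1 + c * N, (g v).2 + d * N) := by
    intro v c d
    by_cases h1 : ∃ c : ℤ × ℤ, Cl c.1 c.2 v
    · obtain ⟨k, hk⟩ := h1
      rw [hg1 _ _ v hk, hg1 _ _ _ (hshift k.1 k.2 c d v hk)]
      ext <;> (simp only; ring)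
    · have h2 : ∀ a b, ¬ Cl a b v := fun a b h => h1 ⟨(a, b), h⟩
      rw [hg2 v h2, hg2]
      intro a b h3
      have h4 := hshift a b (-c) (-d) _ h3
      have e1 : (((v.1 + c * N) + -c * N, (v.2 + d * N) + -d * N) : Vert) = v := by
        ext <;> (simp only; ring)
      simp only at h4
      rw [e1] at h4
      exact h2 _ _ h4
  have hgu : g u = u := hg2 u fun a b hcl => hu a b ((hCl _ _ _).1 hcl)
  have hgv : g v = v := hg2 v fun a b hcl => hv a b ((hCl _ _ _).1 hcl)
  suffices hsuf : Conn η0 Set.univ (g u) (g v) by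
    rw [hgu, hgv] at hsuf
    exact hsuf
  clear hgu hgv hu hv
  refine h.induction_right (P := fun v => Conn η0 Set.univ (g u) (g v))
    (Conn.refl (Set.mem_univ _)) ?_
  intro v v' _ hvv hv
  rcases hstep v v' hvv with h1 | ⟨c, d, h1 | h1⟩
  · by_cases h2 : ∃ c : ℤ × ℤ, Cl c.1 c.2 v
    · obtain ⟨k, hk⟩ := h2
      rw [hg1 _ _ v hk] at hv
      rw [hg1 _ _ v' (hclose _ _ _ _ h1 hk)]
      exact hv
    · have h3 : ∀ a b, ¬ Cl a b v := fun a b h => h2 ⟨(a, b), h⟩
      have h4 : ∀ a b, ¬ Cl a b v' := fun a b h => h3 a b (hclose _ _ _ _ h1.symm h)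
      rw [hg2 v h3] at hv
      rw [hg2 v' h4]
      exact hv.tail h1
  · obtain ⟨h2, h3⟩ := h1
    rw [h2, hg1 _ _ _ (hpC c d)] at hv
    rw [h3, hg2 _ fun a b => hqC a b c d]
    exact hv
  · obtain ⟨h2, h3⟩ := h1
    rw [h2, hg2 _ fun a b => hqC a b c d] at hv
    rw [h3, hg1 _ _ _ (hpC c d)]
    exact hv

lemma tgt_near (f : Edge) : |(tgt f).1 - (src f).1| ≤ 1 ∧ |(tgt f).2 - (src f).2| ≤ 1 := by
  obtain ⟨x, y, c⟩ := f
  cases c
  · simp [src, tgt]
  · simp [src, tgt]

/-- The steps of `η1` are steps of `η0` or join the endpoints of a translate of `f`. -/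
def AddEdge (N : ℕ) (f : Edge) (η0 η1 : Config) : Prop :=
  ∀ v v' : Vert, Step η1 Set.univ v v' → Step η0 Set.univ v v' ∨ ∃ a b : ℤ,
    (v = ((src f).1 + a * N, (src f).2 + b * N) ∧ v' = ((tgt f).1 + a * N, (tgt f).2 + b * N)) ∨
    (v = ((tgt f).1 + a * N, (tgt f).2 + b * N) ∧ v' = ((src f).1 + a * N, (src f).2 + b * N))

/-- Abstract form: the added edge is pivotal for a connection between far vertices. -/
theorem arms_of_added {N r : ℕ} (hr : 1 ≤ r) (hN : 2 * r + 2 ≤ N) {f : Edge} {η0 η1 : Config}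
    (hper : IsPer N η0) (hadd : AddEdge N f η0 η1) {X Y : Vert}
    (hX : ∀ a b : ℤ, (X.1 - a * N, X.2 - b * N) ∉ ball (src f) r)
    (hY : ∀ a b : ℤ, (Y.1 - a * N, Y.2 - b * N) ∉ ball (src f) r)
    (h1 : Conn η1 Set.univ X Y) (h0 : ¬ Conn η0 Set.univ X Y) :
    (∃ u ∈ sphere (src f) r, Conn η0 (ball (src f) r) (src f) u) ∧
    (∃ u ∈ sphere (src f) r, Conn η0 (ball (src f) r) (tgt f) u) ∧
    ¬ Conn η0 Set.univ (src f) (tgt f) := by
  have hN' : (2 * r + 2 : ℤ) ≤ N := by exact_mod_cast hN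
  have hxy : ¬ Conn η0 Set.univ (src f) (tgt f) := by
    intro h
    apply h0
    refine h1.induction_right (P := fun v => Conn η0 Set.univ X v)
      (Conn.refl (Set.mem_univ _)) ?_
    intro v v' _ hvv hv
    rcases hadd v v' hvv with h3 | ⟨c, d, h3 | h3⟩
    · exact hv.tail h3
    · rw [h3.1] at hv
      rw [h3.2]
      exact hv.trans (conn_per hper c d h)
    · rw [h3.1] at hv
      rw [h3.2]
      exact hv.trans (conn_per hper c d h.symm)
  have htb : tgt f ∈ ball (src f) r := by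
    have h3 := abs_le.1 (tgt_near f).1
    have h4 := abs_le.1 (tgt_near f).2
    rw [mem_ball]
    omega
  have hsmall : ∀ p : Vert, p ∈ ball (src f) r →
      (¬ ∃ u ∈ sphere (src f) r, Conn η0 (ball (src f) r) p u) →
      ∀ v : Vert, Conn η0 Set.univ p v → |v.1 - (src f).1| ≤ r ∧ |v.2 - (src f).2| ≤ r := by
    intro p hp hno v hv
    by_contra hcon
    have h3 : v ∉ ball (src f) r := by
      intro h
      apply hcon
      rw [mem_ball] at h
      rw [abs_le, abs_le]
      omega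
    obtain ⟨w, hw, hc⟩ := hv.to_sphere hp (Or.inl h3)
    exact hno ⟨w, hw, hc.mono_set Set.inter_subset_right⟩
  have hball : ∀ v : Vert, |v.1 - (src f).1| ≤ r ∧ |v.2 - (src f).2| ≤ r → v ∈ ball (src f) r := by
    intro v hv
    rw [abs_le, abs_le] at hv
    rw [mem_ball]
    omega
  refine ⟨?_, ?_, hxy⟩
  · by_contra hno
    have hs := hsmall (src f) self_mem_ball hno
    exact h0 (retract hN (src f) (src f) (tgt f) η0 η1 (fun a b u v h => conn_per hper a b h)
      hadd (tgt_near f) hxy hs X Y (fun a b h => hX a b (hball _ (hs _ h)))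
      (fun a b h => hY a b (hball _ (hs _ h))) h1)
  · by_contra hno
    have hs := hsmall (tgt f) htb hno
    exact h0 (retract hN (src f) (tgt f) (src f) η0 η1 (fun a b u v h => conn_per hper a b h)
      (fun v v' h => by
        rcases hadd v v' h with h3 | ⟨c, d, h3 | h3⟩
        · exact Or.inl h3
        · exact Or.inr ⟨c, d, Or.inr h3⟩
        · exact Or.inr ⟨c, d, Or.inl h3⟩)
      (by simp) (fun h => hxy h.symm) hs X Y (fun a b h => hX a b (hball _ (hs _ h)))
      (fun a b h => hY a b (hball _ (hs _ h))) h1)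

/-- The cluster of a vertex reaches the added edge. -/
theorem touch_of_added {N : ℕ} {f : Edge} {η0 η1 : Config} (hadd : AddEdge N f η0 η1)
    {X Y : Vert} (h1 : Conn η1 Set.univ X Y) (h0 : ¬ Conn η0 Set.univ X Y) :
    ∃ a b : ℤ, Conn η0 Set.univ X ((src f).1 + a * N, (src f).2 + b * N) ∨
      Conn η0 Set.univ X ((tgt f).1 + a * N, (tgt f).2 + b * N) := by
  have key : Conn η0 Set.univ X Y ∨ ∃ a b : ℤ,
      Conn η0 Set.univ X ((src f).1 + a * N, (src f).2 + b * N) ∨
      Conn η0 Set.univ X ((tgt f).1 + a * N, (tgt f).2 + b * N) := by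
    refine h1.induction_right (P := fun v => Conn η0 Set.univ X v ∨ ∃ a b : ℤ,
      Conn η0 Set.univ X ((src f).1 + a * N, (src f).2 + b * N) ∨
      Conn η0 Set.univ X ((tgt f).1 + a * N, (tgt f).2 + b * N))
      (Or.inl (Conn.refl (Set.mem_univ _))) ?_
    intro v v' _ hvv hv
    rcases hv with hv | hv
    · rcases hadd v v' hvv with h3 | ⟨c, d, h3 | h3⟩
      · exact Or.inl (hv.tail h3)
      · right
        rw [h3.1] at hv
        exact ⟨c, d, Or.inl hv⟩
      · right
        rw [h3.1] at hv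
        exact ⟨c, d, Or.inr hv⟩
    · exact Or.inr hv
  rcases key with h | h
  · exact absurd h h0
  · exact h

/-! ### Crossing clusters of an annulus -/

/-- A path from `ball c t` to the outside of `ball c R` crosses the annulus. -/
theorem ann_cross {η : Config} {c w w' : Vert} {t R : ℕ} (ht : 1 ≤ t) (hR : t ≤ R)
    (hw : w ∈ ball c t) (hw' : w' ∉ ball c R) (h : Conn η Set.univ w w') :
    ∃ u ∈ sphere c R, ∃ v ∈ sphere c t, Conn η (ball c R \ ball c (t - 1)) u v ∧
      Conn η Set.univ w u := by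
  have hwR : w ∈ ball c R := by
    rw [mem_ball] at hw ⊢
    omega
  obtain ⟨u, hu, hc⟩ := h.to_sphere hwR (Or.inl hw')
  have hc' : Conn η (ball c R) w u := hc.mono_set Set.inter_subset_right
  -- the last visit of the small ball
  have hut : u ∉ ball c (t - 1) := by
    have h1 := hu.2
    intro h2
    rw [mem_ball] at h2
    omega
  have key : Conn η (ball c R \ ball c (t - 1)) w u ∨ ∃ z ∈ ball c (t - 1), Conn η (ball c R) z u := by
    refine hc'.symm.induction_right (P := fun v => Conn η (ball c R \ ball c (t - 1)) v u ∨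
      ∃ z ∈ ball c (t - 1), Conn η (ball c R) z u) (Or.inl (Conn.refl ⟨hu.1, hut⟩)) ?_
    intro a b hua hab ha
    rcases ha with ha | ha
    · by_cases hb : b ∈ ball c (t - 1)
      · right
        exact ⟨b, hb, (hua.tail hab).symm⟩
      · left
        have h1 : Step η (ball c R \ ball c (t - 1)) b a :=
          ⟨⟨hab.2.1, hb⟩, ha.mem_left, hab.symm.2.2⟩
        exact h1.conn.trans ha
    · exact Or.inr ha
  rcases key with h1 | ⟨z, hz, h1⟩
  · refine ⟨u, hu, w, ⟨hw, ?_⟩, h1.symm, hc.mono_set (Set.subset_univ _)⟩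
    have h2 := h1.mem_left.2
    rw [mem_ball] at h2 hw
    omega
  · obtain ⟨v, v', hv, hzv, hvv, hv'u⟩ := h1.exists_last hz hut
    refine ⟨u, hu, v', ⟨?_, ?_⟩, hv'u.symm, hc.mono_set (Set.subset_univ _)⟩
    · have h2 := hvv.fst_le
      have h3 := hvv.snd_le
      rw [mem_ball] at hv ⊢
      omega
    · have h2 := hvv.fst_le
      have h3 := hvv.snd_le
      have h4 := hv'u.mem_left.2
      rw [mem_ball] at hv h4
      omega

/-- Two vertices in different clusters of the torus, both joined inside and outside of an annulus,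
give two crossing clusters. -/
theorem A2_of_cross {N : ℕ} {η : Config} (hper : IsPer N η) {X Y c : Vert} {t R : ℕ}
    (ht : 1 ≤ t) (hR : t ≤ R)
    (hXY : ∀ a b : ℤ, ¬ Conn η Set.univ X (Y.1 + a * N, Y.2 + b * N))
    {a b a' b' : ℤ} {w1 w2 w1' w2' : Vert}
    (hw1 : (w1.1 - a * N, w1.2 - b * N) ∈ ball c t) (hw2 : (w2.1 - a * N, w2.2 - b * N) ∉ ball c R)
    (h1 : Conn η Set.univ X w1) (h2 : Conn η Set.univ X w2)
    (hw1' : (w1'.1 - a' * N, w1'.2 - b' * N) ∈ ball c t)
    (hw2' : (w2'.1 - a' * N, w2'.2 - b' * N) ∉ ball c R)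
    (h1' : Conn η Set.univ Y w1') (h2' : Conn η Set.univ Y w2') :
    (fun g => η (shiftE c g)) ∈ Pool.Agent.H29.Sep.A2 t R := by
  -- translate
  have e : ∀ (a b : ℤ) (w : Vert), ((w.1 + -a * N, w.2 + -b * N) : Vert) =
      (w.1 - a * N, w.2 - b * N) := by
    intro a b w
    ext <;> (simp only; ring)
  have k1 := conn_per hper (-a) (-b) (h1.symm.trans h2)
  have k1' := conn_per hper (-a') (-b') (h1'.symm.trans h2')
  rw [e, e] at k1 k1'
  obtain ⟨u, hu, v, hv, huv, hwu⟩ := ann_cross ht hR hw1 hw2 k1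
  obtain ⟨u', hu', v', hv', huv', hwu'⟩ := ann_cross ht hR hw1' hw2' k1'
  have hdom : {w : Vert | (w.1 - c.1, w.2 - c.2) ∈ Pool.Agent.H29.Sep.dom t R} =
      ball c R \ ball c (t - 1) := by
    ext w
    simp only [Pool.Agent.H29.Sep.dom, Set.mem_ofPred_eq, Set.mem_sdiff, mem_ball, Prod.fst_zero,
      Prod.snd_zero]
    constructor
    · rintro ⟨g1, g2⟩
      refine ⟨by omega, fun g3 => g2 (by omega)⟩
    · rintro ⟨g1, g2⟩
      refine ⟨by omega, fun g3 => g2 (by omega)⟩
  have hsh : ∀ x y : Vert, Conn η (ball c R \ ball c (t - 1)) x y ↔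
      Conn (fun g => η (shiftE c g)) (Pool.Agent.H29.Sep.dom t R) (x.1 - c.1, x.2 - c.2)
        (y.1 - c.1, y.2 - c.2) := by
    intro x y
    rw [conn_shift, hdom]
    simp only [sub_add_cancel]
  have hsp : ∀ (x : Vert) (r : ℕ), x ∈ sphere c r → ((x.1 - c.1, x.2 - c.2) : Vert) ∈ sphere 0 r := by
    rintro x r ⟨g1, g2⟩
    rw [mem_ball] at g1
    refine ⟨?_, ?_⟩
    · simp only [mem_ball, Prod.fst_zero, Prod.snd_zero]
      omega
    · simp only [Prod.fst_zero, Prod.snd_zero]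
      omega
  refine ⟨_, hsp u R hu, _, hsp u' R hu', _, hsp v t hv, _, hsp v' t hv', (hsh u v).1 huv,
    (hsh u' v').1 huv', fun hcon => ?_⟩
  rw [← hsh] at hcon
  -- `X` is joined to a translate of `Y`
  have g1 : Conn η Set.univ (w1.1 - a * N, w1.2 - b * N) (w1'.1 - a' * N, w1'.2 - b' * N) :=
    (hwu.trans (hcon.mono_set (Set.subset_univ _))).trans hwu'.symm
  have g2 := conn_per hper a b g1
  have e2 : ((w1.1 - a * N + a * N, w1.2 - b * N + b * N) : Vert) = w1 := by
    ext <;> (simp only; ring)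
  simp only at g2
  rw [e2] at g2
  have g3 := conn_per hper (a - a') (b - b') h1'
  have e3 : ((w1'.1 - a' * N + a * N, w1'.2 - b' * N + b * N) : Vert) =
      (w1'.1 + (a - a') * N, w1'.2 + (b - b') * N) := by
    ext <;> (simp only; ring)
  rw [e3] at g2
  exact hXY (a - a') (b - b') ((h1.trans g2).trans g3.symm)

end Pool.Agent.H90.AL

end

section

/-! # Expectations of local functions and the number of clusters of the open graph -/

set_option autoImplicit false

open MeasureTheory ProbabilityTheory unitInterval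

namespace Pool.Agent.H29.Kap

open Pool.Agent.H89.Perc Pool.Agent.Perc

/-- The expectation of a local function is a finite sum. -/
theorem integral_eq_Ex {s : Finset Edge} {f : Config → ℝ}
    (hf : ∀ ω ω' : Config, (∀ e ∈ s, ω e = ω' e) → f ω = f ω') (p : I) :
    ∫ ω, f ω ∂(μ p) = Ex (p : ℝ) s (fun S => f (ofS S)) := by
  classical
  have h1 : ∀ ω : Config, f ω = ∑ S ∈ s.powerset, (cyl s S).indicator (fun _ => f (ofS S)) ω := by
    intro ω
    set S0 : Finset Edge := s.filter (fun e => ω e = true) with hS0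
    have hS0s : S0 ∈ s.powerset := Finset.mem_powerset.2 (Finset.filter_subset _ _)
    have hω : ω ∈ cyl s S0 := by
      rw [mem_cyl]
      intro e he
      rw [ofS_apply, hS0]
      simp [he]
    rw [Finset.sum_eq_single_of_mem S0 hS0s]
    · rw [Set.indicator_of_mem hω]
      exact hf _ _ fun e he => mem_cyl.1 hω e he
    · intro S hS hne
      rw [Set.indicator_of_notMem]
      intro hc
      rw [mem_cyl] at hc hω
      apply hne
      ext e
      by_cases he : e ∈ s
      · have := (hc e he).symm.trans (hω e he)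
        rw [ofS_apply, ofS_apply, decide_eq_decide] at this
        exact this
      · exact ⟨fun h => absurd (Finset.mem_powerset.1 hS h) he,
          fun h => absurd (Finset.mem_powerset.1 hS0s h) he⟩
  have h2 : ∫ ω, f ω ∂(μ p) =
      ∫ ω, ∑ S ∈ s.powerset, (cyl s S).indicator (fun _ => f (ofS S)) ω ∂(μ p) :=
    integral_congr_ae (Filter.Eventually.of_forall h1)
  rw [h2, integral_finsetSum]
  · unfold Ex
    refine Finset.sum_congr rfl fun S hS => ?_
    rw [integral_indicator_const _ (measurableSet_cyl s S), smul_eq_mul]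
    have h3 : (μ p).real (cyl s S) = H89.Perc.Pr p (cyl s S) := rfl
    rw [h3, Pr_cyl p (Finset.mem_powerset.1 hS)]
  · intro S _
    exact (integrable_const _).indicator (measurableSet_cyl s S)

/-- The open subgraph of the square lattice (as in the hand-in). -/
def openGraph (ω : Edge → Bool) : SimpleGraph (ℤ × ℤ) :=
  SimpleGraph.fromRel fun u v =>
    (ω (u.1, u.2, false) = true ∧ v = (u.1 + 1, u.2)) ∨
      (ω (u.1, u.2, true) = true ∧ v = (u.1, u.2 + 1))

/-- The box with `n × n` vertices. -/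
def box (n : ℕ) : Set (ℤ × ℤ) := {v | 0 ≤ v.1 ∧ v.1 < n ∧ 0 ≤ v.2 ∧ v.2 < n}

/-- The number of clusters in the box with `n × n` vertices. -/
noncomputable def numClusters (n : ℕ) (ω : Edge → Bool) : ℕ :=
  Nat.card ((openGraph ω).induce (box n)).ConnectedComponent

theorem integral_step_iff (ω : Edge → Bool) (S : Set Vert) (u v : ℤ × ℤ) :
    Step ω S u v ↔ u ∈ S ∧ v ∈ S ∧ (openGraph ω).Adj u v := by
  unfold Step
  refine and_congr_right fun _ => and_congr_right fun _ => ?_
  obtain ⟨a, b⟩ := u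
  obtain ⟨c, d⟩ := v
  simp only [openGraph, SimpleGraph.fromRel_adj, Joins, src, tgt]
  constructor
  · rintro ⟨⟨x, y, t⟩, h, ho⟩
    cases t
    · rcases h with ⟨h1, h2⟩ | ⟨h1, h2⟩
      · simp only [Prod.mk.injEq, Bool.false_eq_true, if_false] at h1 h2
        obtain ⟨rfl, rfl⟩ := h1
        obtain ⟨rfl, rfl⟩ := h2
        exact ⟨by simp, Or.inl (Or.inl ⟨ho, rfl⟩)⟩
      · simp only [Prod.mk.injEq, Bool.false_eq_true, if_false] at h1 h2
        obtain ⟨rfl, rfl⟩ := h1
        obtain ⟨rfl, rfl⟩ := h2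
        exact ⟨by simp, Or.inr (Or.inl ⟨ho, rfl⟩)⟩
    · rcases h with ⟨h1, h2⟩ | ⟨h1, h2⟩
      · simp only [Prod.mk.injEq, if_true] at h1 h2
        obtain ⟨rfl, rfl⟩ := h1
        obtain ⟨rfl, rfl⟩ := h2
        exact ⟨by simp, Or.inl (Or.inr ⟨ho, rfl⟩)⟩
      · simp only [Prod.mk.injEq, if_true] at h1 h2
        obtain ⟨rfl, rfl⟩ := h1
        obtain ⟨rfl, rfl⟩ := h2
        exact ⟨by simp, Or.inr (Or.inr ⟨ho, rfl⟩)⟩
  · rintro ⟨_, (⟨ho, h⟩ | ⟨ho, h⟩) | (⟨ho, h⟩ | ⟨ho, h⟩)⟩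
    · exact ⟨(a, b, false), Or.inl ⟨rfl, h⟩, ho⟩
    · exact ⟨(a, b, true), Or.inl ⟨rfl, h⟩, ho⟩
    · exact ⟨(c, d, false), Or.inr ⟨h, rfl⟩, ho⟩
    · exact ⟨(c, d, true), Or.inr ⟨h, rfl⟩, ho⟩

theorem integral_reachable_iff (ω : Edge → Bool) (S : Set Vert) (u v : S) :
    ((openGraph ω).induce S).Reachable u v ↔ Conn ω S u v := by
  constructor
  · rintro ⟨w⟩
    induction w with
    | nil => exact Conn.refl (Subtype.property _)
    | cons h _ ih =>
      refine Conn.trans (Step.conn ?_) ih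
      rw [integral_step_iff]
      exact ⟨Subtype.property _, Subtype.property _, h⟩
  · intro h
    have key : ∀ x : Vert, Conn ω S u x → ∀ hx : x ∈ S,
        ((openGraph ω).induce S).Reachable u ⟨x, hx⟩ := by
      intro x hc
      refine hc.induction_right (P := fun x => ∀ hx : x ∈ S,
        ((openGraph ω).induce S).Reachable u ⟨x, hx⟩) (fun hx => SimpleGraph.Reachable.refl _) ?_
      intro a b _ hab ih hb
      rw [integral_step_iff] at hab
      refine (ih hab.1).trans ?_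
      exact SimpleGraph.Adj.reachable (u := (⟨a, hab.1⟩ : S)) (v := (⟨b, hb⟩ : S)) hab.2.2
    exact key v h v.2

theorem integral_box_eq (n : ℕ) : box n = rect 0 (n - 1) 0 (n - 1) := by
  ext v
  simp only [box, rect, Set.mem_ofPred_eq]
  omega

theorem numClusters_eq (n : ℕ) (ω : Edge → Bool) :
    numClusters n ω = K ω (rect 0 (n - 1) 0 (n - 1)) := by
  unfold numClusters K
  rw [← integral_box_eq, ← Nat.card_coe_set_eq]
  set S : Set Vert := box n with hS
  let φ : ((openGraph ω).induce S).ConnectedComponent → clusters ω S :=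
    Quot.lift (fun v : S => ⟨{w | Conn ω S v w}, v, v.2, rfl⟩) (by
      intro u v huv
      have huv' : Conn ω S u v := (integral_reachable_iff ω S u v).1 huv
      apply Subtype.ext
      ext w
      exact ⟨fun h => huv'.symm.trans h, fun h => huv'.trans h⟩)
  refine Nat.card_eq_of_bijective φ ⟨?_, ?_⟩
  · intro x y
    refine Quot.induction_on₂ x y fun u v h => ?_
    have h1 : ({w | Conn ω S u w} : Set Vert) = {w | Conn ω S v w} := congrArg Subtype.val h
    have h2 : (v : Vert) ∈ ({w | Conn ω S u w} : Set Vert) := by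
      rw [h1]; exact Conn.refl v.2
    exact Quot.sound ((integral_reachable_iff ω S u v).2 h2)
  · rintro ⟨C, v, hv, rfl⟩
    exact ⟨Quot.mk _ ⟨v, hv⟩, rfl⟩

theorem integral_K_congr {ω ω' : Config} {S : Set Vert}
    (h : ∀ e, src e ∈ S → tgt e ∈ S → ω e = ω' e) : K ω S = K ω' S := by
  have h1 : ∀ u v, Conn ω S u v ↔ Conn ω' S u v := fun u v =>
    ⟨Conn.congr h, Conn.congr fun e h1 h2 => (h e h1 h2).symm⟩
  unfold K clusters
  simp only [h1]

theorem integral_numClusters (n : ℕ) (p : I) :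
    ∫ ω, (numClusters n ω : ℝ) ∂(μ p) = EK p 0 (n - 1) 0 (n - 1) := by
  simp only [numClusters_eq]
  unfold EK
  refine integral_eq_Ex (s := redges 0 (n - 1) 0 (n - 1))
    (f := fun ω => (K ω (rect 0 (n - 1) 0 (n - 1)) : ℝ)) (fun ω ω' h => ?_) p
  have : K ω (rect 0 (n - 1) 0 (n - 1)) = K ω' (rect 0 (n - 1) 0 (n - 1)) :=
    integral_K_congr fun e h1 h2 => h e (mem_redges.2 ⟨h1, h2⟩)
  exact congrArg _ this

end Pool.Agent.H29.Kap

end

section

/-!
# Analysis: differentiability from approximations at all scales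
-/

open Filter Topology

namespace Pool.Agent.H31.AL

/-- First-order Taylor formula with a bound for the second derivative. -/
theorem taylor_one {F F' F'' : ℝ → ℝ} {x₀ r B : ℝ} (hB : 0 ≤ B)
    (hF : ∀ x, |x - x₀| ≤ r → HasDerivAt F (F' x) x)
    (hF' : ∀ x, |x - x₀| ≤ r → HasDerivAt F' (F'' x) x)
    (h : ∀ x, |x - x₀| ≤ r → |F'' x| ≤ B) {x : ℝ} (hx : |x - x₀| ≤ r) :
    |F x - F x₀ - F' x₀ * (x - x₀)| ≤ B * |x - x₀| ^ 2 := by
  have hx0 : |x₀ - x₀| ≤ r := by rw [sub_self, abs_zero]; exact (abs_nonneg _).trans hx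
  have hseg : ∀ z ∈ Metric.closedBall x₀ |x - x₀|, |z - x₀| ≤ r := by
    intro z hz
    rw [Metric.mem_closedBall, Real.dist_eq] at hz
    exact hz.trans hx
  have hx0m : x₀ ∈ Metric.closedBall x₀ |x - x₀| := by
    rw [Metric.mem_closedBall, dist_self]; exact abs_nonneg _
  have hxm : x ∈ Metric.closedBall x₀ |x - x₀| := by
    rw [Metric.mem_closedBall, Real.dist_eq]
  have h1 : ∀ z ∈ Metric.closedBall x₀ |x - x₀|, |F' z - F' x₀| ≤ B * |x - x₀| := by
    intro z hz
    have h2 := (convex_closedBall x₀ |x - x₀|).norm_image_sub_le_of_norm_hasDerivWithin_le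
      (f := F') (f' := F'') (C := B)
      (fun w hw => (hF' w (hseg w hw)).hasDerivWithinAt) (fun w hw => h w (hseg w hw)) hx0m hz
    rw [Real.norm_eq_abs, Real.norm_eq_abs] at h2
    refine h2.trans (mul_le_mul_of_nonneg_left ?_ hB)
    rw [Metric.mem_closedBall, Real.dist_eq] at hz
    exact hz
  have h3 := (convex_closedBall x₀ |x - x₀|).norm_image_sub_le_of_norm_hasDerivWithin_le
      (f := fun z => F z - F' x₀ * (z - x₀)) (f' := fun z => F' z - F' x₀) (C := B * |x - x₀|)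
      (fun w hw => by
        have h4 : HasDerivAt (fun z => F' x₀ * (z - x₀)) (F' x₀) w := by
          have := ((hasDerivAt_id w).sub_const x₀).const_mul (F' x₀)
          simpa using this
        exact ((hF w (hseg w hw)).sub h4).hasDerivWithinAt) (fun w hw => h1 w hw) hx0m hxm
  rw [Real.norm_eq_abs, Real.norm_eq_abs] at h3
  have e1 : F x - F' x₀ * (x - x₀) - (F x₀ - F' x₀ * (x₀ - x₀)) =
      F x - F x₀ - F' x₀ * (x - x₀) := by ring
  rw [e1] at h3
  refine h3.trans (le_of_eq ?_)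
  ring

/-- If at all dyadic scales `2 ^ k` the function `f` is linear up to an error `2 ^ (-u k)` on the
window of width `2 ^ (-w k)`, and `u > w`, then `f` is differentiable at `0` with an error of order
`|t| ^ (u / w)`. -/
theorem dyadic {f : ℝ → ℝ} (hf0 : f 0 = 0) {c C u w : ℝ} {k₀ : ℕ} (hc : 0 < c) (hC : 0 < C)
    (hw : 0 < w) (hwu : w < u) {b : ℕ → ℝ}
    (h : ∀ k, k₀ ≤ k → ∀ t : ℝ, |t| ≤ c * (2 : ℝ) ^ (-(w * k)) →
      |f t - b k * t| ≤ C * (2 : ℝ) ^ (-(u * k))) :
    ∃ β C' δ : ℝ, 0 < C' ∧ 0 < δ ∧ ∀ t : ℝ, |t| ≤ δ → |f t - β * t| ≤ C' * |t| ^ (u / w) := by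
  have h2 : (0 : ℝ) < 2 := by norm_num
  set ρ : ℝ := (2 : ℝ) ^ (-(u - w)) with hρ
  have hρ0 : 0 < ρ := Real.rpow_pos_of_pos h2 _
  have hρ1 : ρ < 1 := Real.rpow_lt_one_of_one_lt_of_neg (by norm_num) (by linarith)
  have hρk : ∀ k : ℕ, ρ ^ k = (2 : ℝ) ^ (-((u - w) * k)) := by
    intro k
    rw [hρ, ← Real.rpow_natCast, ← Real.rpow_mul h2.le]
    congr 1
    ring
  set D : ℝ := 2 * C * 2 ^ w / c with hD
  have h2w : (0 : ℝ) < 2 ^ w := Real.rpow_pos_of_pos h2 _
  have hD0 : 0 < D := by positivity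
  -- the slopes
  have hslope : ∀ n : ℕ, dist (b (k₀ + n)) (b (k₀ + (n + 1))) ≤ D * ρ ^ k₀ * ρ ^ n := by
    intro n
    set k := k₀ + n with hk
    have hk1 : k₀ + (n + 1) = k + 1 := by rw [hk]; ring
    rw [hk1]
    set t : ℝ := c * (2 : ℝ) ^ (-(w * ((k + 1 : ℕ) : ℝ))) with ht
    have ht0 : 0 < t := by
      rw [ht]
      exact mul_pos hc (Real.rpow_pos_of_pos h2 _)
    have e1 := h (k + 1) (by omega) t (by rw [abs_of_pos ht0])
    have e2 := h k (by omega) t (by
      rw [abs_of_pos ht0, ht]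
      refine mul_le_mul_of_nonneg_left ?_ hc.le
      refine Real.rpow_le_rpow_of_exponent_le (by norm_num) ?_
      push_cast
      nlinarith)
    have e3 : (2 : ℝ) ^ (-(u * ((k + 1 : ℕ) : ℝ))) ≤ (2 : ℝ) ^ (-(u * k)) := by
      refine Real.rpow_le_rpow_of_exponent_le (by norm_num) ?_
      push_cast
      nlinarith
    have e4 : |b k - b (k + 1)| * t ≤ 2 * C * (2 : ℝ) ^ (-(u * k)) := by
      have e5 : (b k - b (k + 1)) * t = (f t - b (k + 1) * t) - (f t - b k * t) := by ring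
      rw [← abs_of_pos ht0, ← abs_mul, e5]
      refine (abs_sub _ _).trans ?_
      have e6 : C * (2 : ℝ) ^ (-(u * ((k + 1 : ℕ) : ℝ))) ≤ C * (2 : ℝ) ^ (-(u * k)) :=
        mul_le_mul_of_nonneg_left e3 hC.le
      linarith
    have e7 : ρ ^ k₀ * ρ ^ n = (2 : ℝ) ^ (-((u - w) * k)) := by
      rw [← pow_add, ← hk, hρk]
    rw [Real.dist_eq, mul_assoc, e7]
    have e8 : |b k - b (k + 1)| ≤ 2 * C * (2 : ℝ) ^ (-(u * k)) / t := by
      rw [le_div_iff₀ ht0]
      exact e4
    refine e8.trans (le_of_eq ?_)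
    rw [hD, ht]
    have e9 : (2 : ℝ) ^ (-((u - w) * k)) = (2 : ℝ) ^ (-(u * k)) * 2 ^ (w * k) := by
      rw [← Real.rpow_add h2]
      congr 1
      ring
    have e10 : (2 : ℝ) ^ (-(w * ((k + 1 : ℕ) : ℝ))) = (2 ^ w * 2 ^ (w * k))⁻¹ := by
      rw [← Real.rpow_add h2, ← Real.rpow_neg h2.le]
      congr 1
      push_cast
      ring
    rw [e9, e10]
    have h2k : (0 : ℝ) < 2 ^ (w * (k : ℝ)) := Real.rpow_pos_of_pos h2 _
    field_simp
  have hcauchy := cauchySeq_of_le_geometric ρ (D * ρ ^ k₀) hρ1 hslope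
  obtain ⟨β, hβ⟩ := cauchySeq_tendsto_of_complete hcauchy
  have hdist := dist_le_of_le_geometric_of_tendsto ρ (D * ρ ^ k₀) hρ1 hslope hβ
  set E : ℝ := D / (1 - ρ) with hE
  have h1ρ : 0 < 1 - ρ := by linarith
  have hE0 : 0 < E := by positivity
  have hbβ : ∀ k, k₀ ≤ k → |b k - β| ≤ E * (2 : ℝ) ^ (-((u - w) * k)) := by
    intro k hk
    obtain ⟨n, rfl⟩ := Nat.exists_eq_add_of_le hk
    have := hdist n
    rw [Real.dist_eq] at this
    refine this.trans (le_of_eq ?_)
    rw [hE, ← hρk, pow_add]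
    field_simp
  refine ⟨β, (C + E * c) * (2 : ℝ) ^ u / c ^ (u / w), c * (2 : ℝ) ^ (-(w * k₀)), ?_, ?_, ?_⟩
  · have : (0 : ℝ) < (2 : ℝ) ^ u := Real.rpow_pos_of_pos h2 _
    have : (0 : ℝ) < c ^ (u / w) := Real.rpow_pos_of_pos hc _
    positivity
  · exact mul_pos hc (Real.rpow_pos_of_pos h2 _)
  · intro t ht
    rcases eq_or_ne t 0 with rfl | hne
    · rw [hf0, mul_zero, sub_zero, abs_zero, Real.zero_rpow, mul_zero]
      have : 0 < u / w := div_pos (by linarith) hw
      exact this.ne'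
    have ht0 : 0 < |t| := abs_pos.2 hne
    -- choose the scale
    have hex : ∃ k, k₀ ≤ k ∧ |t| ≤ c * (2 : ℝ) ^ (-(w * k)) ∧
        c * (2 : ℝ) ^ (-(w * ((k + 1 : ℕ) : ℝ))) < |t| := by
      by_contra hcon
      push Not at hcon
      have hall : ∀ n : ℕ, |t| ≤ c * (2 : ℝ) ^ (-(w * ((k₀ + n : ℕ) : ℝ))) := by
        intro n
        induction n with
        | zero => simpa using ht
        | succ n ih => exact hcon (k₀ + n) (by omega) ih
      have hlim : Tendsto (fun n : ℕ => c * (2 : ℝ) ^ (-(w * ((k₀ + n : ℕ) : ℝ)))) atTop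
          (𝓝 (c * 0)) := by
        refine Tendsto.const_mul c ?_
        have hr : (2 : ℝ) ^ (-w) < 1 :=
          Real.rpow_lt_one_of_one_lt_of_neg (by norm_num) (by linarith)
        have h3 := (tendsto_pow_atTop_nhds_zero_of_lt_one
          (Real.rpow_pos_of_pos h2 (-w)).le hr).comp (tendsto_add_atTop_nat k₀)
        refine h3.congr fun n => ?_
        simp only [Function.comp]
        rw [← Real.rpow_natCast, ← Real.rpow_mul h2.le]
        congr 1
        push_cast
        ring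
      rw [mul_zero] at hlim
      have := ge_of_tendsto' hlim hall
      linarith
    obtain ⟨k, hk, hk1, hk2⟩ := hex
    have e1 := h k hk t hk1
    have e2 := hbβ k hk
    have e3 : |f t - β * t| ≤ (C + E * c) * (2 : ℝ) ^ (-(u * k)) := by
      have e4 : f t - β * t = (f t - b k * t) + (b k - β) * t := by ring
      rw [e4]
      refine (abs_add_le _ _).trans ?_
      rw [abs_mul]
      have e5 : |b k - β| * |t| ≤ E * (2 : ℝ) ^ (-((u - w) * k)) * (c * (2 : ℝ) ^ (-(w * k))) :=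
        mul_le_mul e2 hk1 (abs_nonneg _) (by
          have := Real.rpow_pos_of_pos h2 (-((u - w) * k))
          positivity)
      have e6 : E * (2 : ℝ) ^ (-((u - w) * k)) * (c * (2 : ℝ) ^ (-(w * k))) =
          E * c * (2 : ℝ) ^ (-(u * k)) := by
        have : (2 : ℝ) ^ (-(u * k)) = (2 : ℝ) ^ (-((u - w) * k)) * (2 : ℝ) ^ (-(w * k)) := by
          rw [← Real.rpow_add h2]
          congr 1
          ring
        rw [this]
        ring
      rw [e6] at e5
      linarith
    refine e3.trans ?_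
    have e7 : (2 : ℝ) ^ (-(u * k)) ≤ (2 : ℝ) ^ u / c ^ (u / w) * |t| ^ (u / w) := by
      have e8 : (c * (2 : ℝ) ^ (-(w * ((k + 1 : ℕ) : ℝ)))) ^ (u / w) ≤ |t| ^ (u / w) :=
        Real.rpow_le_rpow (mul_pos hc (Real.rpow_pos_of_pos h2 _)).le hk2.le
          (div_pos (by linarith) hw).le
      have e9 : (c * (2 : ℝ) ^ (-(w * ((k + 1 : ℕ) : ℝ)))) ^ (u / w) =
          c ^ (u / w) * (2 : ℝ) ^ (-(u * ((k + 1 : ℕ) : ℝ))) := by
        rw [Real.mul_rpow hc.le (Real.rpow_pos_of_pos h2 _).le, ← Real.rpow_mul h2.le]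
        congr 2
        field_simp
      rw [e9] at e8
      have hcu : (0 : ℝ) < c ^ (u / w) := Real.rpow_pos_of_pos hc _
      rw [div_mul_eq_mul_div, le_div_iff₀ hcu]
      have e10 : (2 : ℝ) ^ (-(u * k)) = 2 ^ u * (2 : ℝ) ^ (-(u * ((k + 1 : ℕ) : ℝ))) := by
        rw [← Real.rpow_add h2]
        congr 1
        push_cast
        ring
      rw [e10]
      have h2u : (0 : ℝ) < (2 : ℝ) ^ u := Real.rpow_pos_of_pos h2 _
      calc 2 ^ u * (2 : ℝ) ^ (-(u * ((k + 1 : ℕ) : ℝ))) * c ^ (u / w)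
          = 2 ^ u * (c ^ (u / w) * (2 : ℝ) ^ (-(u * ((k + 1 : ℕ) : ℝ)))) := by ring
        _ ≤ 2 ^ u * |t| ^ (u / w) := mul_le_mul_of_nonneg_left e8 h2u.le
    calc (C + E * c) * (2 : ℝ) ^ (-(u * k))
        ≤ (C + E * c) * ((2 : ℝ) ^ u / c ^ (u / w) * |t| ^ (u / w)) :=
          mul_le_mul_of_nonneg_left e7 (by positivity)
      _ = _ := by ring

end Pool.Agent.H31.AL

end
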