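import Mathlib

/-! The parts of this file: H89.Perc.Defs, H89.Perc.Path, H89.Perc.Z2, H89.Perc.Cross, H89.Perc.Sep. -/

section

/-!
# Bond percolation on the square lattice: basic definitions

Vertices are `ℤ × ℤ`.  The edge `(x, y, false)` joins `(x, y)` and `(x + 1, y)`, the edge
`(x, y, true)` joins `(x, y)` and `(x, y + 1)`.  A configuration is a function `Edge → Bool`
(`true` means open).  The dual vertex `(x, y)` is the unit square with lower left corner `(x, y)`,
and `dual ω` is the dual configuration, in which a dual edge is open if and only if the primal edge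
which it crosses is closed.
-/

open MeasureTheory ProbabilityTheory unitInterval

namespace Pool.Agent.H89.Perc

/-- Vertices of the square lattice. -/
abbrev Vert := ℤ × ℤ

/-- Edges of the square lattice. -/
abbrev Edge := ℤ × ℤ × Bool

/-- Configurations. -/
abbrev Config := Edge → Bool

/-- First endpoint. -/
def src (e : Edge) : Vert := (e.1, e.2.1)

/-- Second endpoint. -/
def tgt (e : Edge) : Vert := if e.2.2 then (e.1, e.2.1 + 1) else (e.1 + 1, e.2.1)

/-- The edge `e` joins `u` and `v`. -/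
def Joins (e : Edge) (u v : Vert) : Prop := (u = src e ∧ v = tgt e) ∨ (u = tgt e ∧ v = src e)

/-- One step along an open edge inside the vertex set `S`. -/
def Step (ω : Config) (S : Set Vert) (u v : Vert) : Prop :=
  u ∈ S ∧ v ∈ S ∧ ∃ e, Joins e u v ∧ ω e = true

/-- `u` and `v` are joined by an open path inside `S`. -/
def Conn (ω : Config) (S : Set Vert) (u v : Vert) : Prop :=
  u ∈ S ∧ Relation.ReflTransGen (Step ω S) u v

/-- The primal edge crossed by the dual edge `e`. -/
def crossed (e : Edge) : Edge := if e.2.2 then (e.1, e.2.1 + 1, false) else (e.1 + 1, e.2.1, true)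

/-- The dual configuration. -/
def dual (ω : Config) : Config := fun e => !ω (crossed e)

/-- The configuration with all edges open. -/
def allOpen : Config := fun _ => true

/-- The rectangle `[a, b] × [c, d]`. -/
def rect (a b c d : ℤ) : Set Vert := {v | a ≤ v.1 ∧ v.1 ≤ b ∧ c ≤ v.2 ∧ v.2 ≤ d}

/-- Open crossing of `[a, b] × [c, d]` from left to right. -/
def HCross (ω : Config) (a b c d : ℤ) : Prop :=
  ∃ u v : Vert, u.1 = a ∧ v.1 = b ∧ Conn ω (rect a b c d) u v

/-- Open crossing of `[a, b] × [c, d]` from bottom to top. -/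
def VCross (ω : Config) (a b c d : ℤ) : Prop :=
  ∃ u v : Vert, u.2 = c ∧ v.2 = d ∧ Conn ω (rect a b c d) u v

/-- The square `[-r, r]²` around `v`. -/
def ball (v : Vert) (r : ℕ) : Set Vert := rect (v.1 - r) (v.1 + r) (v.2 - r) (v.2 + r)

/-- The boundary of `ball v r`. -/
def sphere (v : Vert) (r : ℕ) : Set Vert :=
  {u | u ∈ ball v r ∧ (u.1 = v.1 - r ∨ u.1 = v.1 + r ∨ u.2 = v.2 - r ∨ u.2 = v.2 + r)}

/-- One-arm event: `v` is joined to `sphere v r` inside `ball v r`. -/
def Arm (v : Vert) (r : ℕ) : Set Config := {ω | ∃ u ∈ sphere v r, Conn ω (ball v r) v u}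

/-- Annulus event: `ball v s` is joined to `sphere v r` inside `ball v r`. -/
def ArmBox (v : Vert) (s r : ℕ) : Set Config :=
  {ω | ∃ w ∈ ball v s, ∃ u ∈ sphere v r, Conn ω (ball v r) w u}

/-- The product measure with density `p` of open edges. -/
noncomputable def μ (p : I) : Measure Config :=
  Measure.infinitePi (fun _ : Edge => bernoulliMeasure true false p)

/-- The probability of `A` at density `p`. -/
noncomputable def Pr (p : I) (A : Set Config) : ℝ := (μ p).real A

/-- The event `A` depends only on the edges of the finite set `s`. -/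
def LocalOn (s : Finset Edge) (A : Set Config) : Prop :=
  ∀ ω ω' : Config, (∀ e ∈ s, ω e = ω' e) → ω ∈ A → ω' ∈ A

/-- Increasing event. -/
def Incr (A : Set Config) : Prop :=
  ∀ ω ω' : Config, (∀ e, ω e = true → ω' e = true) → ω ∈ A → ω' ∈ A

/-- One-arm probability at the origin. -/
noncomputable def arm (p : I) (r : ℕ) : ℝ := Pr p (Arm 0 r)

/-- Percolation probability. -/
noncomputable def theta (p : I) : ℝ := Pr p {ω | {v | Conn ω Set.univ 0 v}.Infinite}

/-- The critical density `1/2` as an element of the unit interval. -/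
noncomputable def half : I := ⟨1 / 2, by norm_num, by norm_num⟩

/-- Influence of the edge `e` on the event `A` (discrete derivative). -/
noncomputable def pivot (p : I) (A : Set Config) (e : Edge) : ℝ :=
  Pr p {ω | Function.update ω e true ∈ A} - Pr p {ω | Function.update ω e false ∈ A}

end Pool.Agent.H89.Perc

end

section

/-!
# Basic lemmas on open paths
-/

open MeasureTheory ProbabilityTheory unitInterval

namespace Pool.Agent.H89.Perc

variable {ω ω' : Config} {S T : Set Vert} {u v w : Vert} {e : Edge}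

lemma Joins.symm (h : Joins e u v) : Joins e v u := by
  rcases h with ⟨h1, h2⟩ | ⟨h1, h2⟩
  · exact Or.inr ⟨h2, h1⟩
  · exact Or.inl ⟨h2, h1⟩

lemma joins_src_tgt (e : Edge) : Joins e (src e) (tgt e) := Or.inl ⟨rfl, rfl⟩

lemma Step.symm (h : Step ω S u v) : Step ω S v u := by
  obtain ⟨h1, h2, e, h3, h4⟩ := h
  exact ⟨h2, h1, e, h3.symm, h4⟩

lemma Step.mono (hST : S ⊆ T) (hω : ∀ e, ω e = true → ω' e = true) (h : Step ω S u v) :
    Step ω' T u v := by
  obtain ⟨h1, h2, e, h3, h4⟩ := h
  exact ⟨hST h1, hST h2, e, h3, hω e h4⟩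

lemma Conn.refl (h : u ∈ S) : Conn ω S u u := ⟨h, Relation.ReflTransGen.refl⟩

lemma Conn.mem_left (h : Conn ω S u v) : u ∈ S := h.1

lemma Conn.mem_right (h : Conn ω S u v) : v ∈ S := by
  obtain ⟨h1, h2⟩ := h
  induction h2 with
  | refl => exact h1
  | tail _ h _ => exact h.2.1

lemma Step.conn (h : Step ω S u v) : Conn ω S u v :=
  ⟨h.1, Relation.ReflTransGen.single h⟩

lemma Conn.trans (h1 : Conn ω S u v) (h2 : Conn ω S v w) : Conn ω S u w :=
  ⟨h1.1, h1.2.trans h2.2⟩

lemma Conn.tail (h1 : Conn ω S u v) (h2 : Step ω S v w) : Conn ω S u w := h1.trans h2.conn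

lemma Conn.symm (h : Conn ω S u v) : Conn ω S v u := by
  refine ⟨h.mem_right, ?_⟩
  have := h.2
  clear h
  induction this with
  | refl => exact Relation.ReflTransGen.refl
  | tail _ h ih => exact (Relation.ReflTransGen.single h.symm).trans ih

lemma conn_comm : Conn ω S u v ↔ Conn ω S v u := ⟨Conn.symm, Conn.symm⟩

lemma Conn.mono (hST : S ⊆ T) (hω : ∀ e, ω e = true → ω' e = true) (h : Conn ω S u v) :
    Conn ω' T u v :=
  ⟨hST h.1, Relation.ReflTransGen.mono (fun _ _ h' => Step.mono hST hω h') _ _ h.2⟩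

lemma Conn.mono_set (hST : S ⊆ T) (h : Conn ω S u v) : Conn ω T u v := h.mono hST fun _ => id

/-- `Conn ω S` only depends on the edges inside `S`. -/
lemma Conn.congr (h : ∀ e, src e ∈ S → tgt e ∈ S → ω e = ω' e) (hc : Conn ω S u v) :
    Conn ω' S u v := by
  refine ⟨hc.1, Relation.ReflTransGen.mono ?_ _ _ hc.2⟩
  rintro a b ⟨ha, hb, e, he, ho⟩
  refine ⟨ha, hb, e, he, ?_⟩
  rcases he with ⟨h1, h2⟩ | ⟨h1, h2⟩
  · rw [← h e (h1 ▸ ha) (h2 ▸ hb)]; exact ho
  · rw [← h e (h2 ▸ hb) (h1 ▸ ha)]; exact ho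

/-- Induction along a path, with all vertices in `S`. -/
lemma Conn.induction_right {P : Vert → Prop} (h : Conn ω S u v) (h0 : P u)
    (hs : ∀ a b, Conn ω S u a → Step ω S a b → P a → P b) : P v := by
  obtain ⟨h1, h2⟩ := h
  induction h2 with
  | refl => exact h0
  | @tail b c hab hbc ih => exact hs b c ⟨h1, hab⟩ hbc ih

/-- First exit from `T`. -/
lemma Conn.exists_exit (h : Conn ω S u v) (hu : u ∈ T) (hv : v ∉ T) :
    ∃ w w', Conn ω (S ∩ T) u w ∧ Step ω S w w' ∧ w' ∉ T ∧ Conn ω S w' v := by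
  obtain ⟨h1, h2⟩ := h
  induction h2 using Relation.ReflTransGen.head_induction_on with
  | refl => exact absurd hu hv
  | @head a c hac hcv ih =>
    by_cases hc : c ∈ T
    · obtain ⟨w, w', h3, h4, h5, h6⟩ := ih hc hac.2.1
      refine ⟨w, w', ?_, h4, h5, h6⟩
      have : Step ω (S ∩ T) a c := ⟨⟨hac.1, hu⟩, ⟨hac.2.1, hc⟩, hac.2.2⟩
      exact this.conn.trans h3
    · exact ⟨a, c, Conn.refl ⟨h1, hu⟩, hac, hc, ⟨hac.2.1, hcv⟩⟩

/-- Last visit of `T`. -/
lemma Conn.exists_last (h : Conn ω S u v) (hu : u ∈ T) (hv : v ∉ T) :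
    ∃ w w', w ∈ T ∧ Conn ω S u w ∧ Step ω S w w' ∧ Conn ω (S \ T) w' v := by
  obtain ⟨w, w', h1, h2, h3, h4⟩ :=
    h.symm.exists_exit (T := Tᶜ) (by simpa using hv) (by simpa using hu)
  refine ⟨w', w, by simpa using h3, h4.symm, h2.symm, ?_⟩
  have := h1.symm
  rwa [← Set.sdiff_eq] at this

/-- First hitting of `T`, when the path does not start in `T`. -/
lemma Conn.exists_hit (h : Conn ω S u v) (hu : u ∉ T) (hv : v ∈ T) :
    ∃ w w', Conn ω (S \ T) u w ∧ Step ω S w w' ∧ w' ∈ T ∧ Conn ω S w' v := by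
  obtain ⟨w, w', h1, h2, h3, h4⟩ :=
    h.exists_exit (T := Tᶜ) (by simpa using hu) (by simpa using hv)
  exact ⟨w, w', by rwa [Set.sdiff_eq], h2, by simpa using h3, h4⟩

lemma Step.fst_le (h : Step ω S u v) : v.1 ≤ u.1 + 1 ∧ u.1 ≤ v.1 + 1 := by
  obtain ⟨_, _, e, he, _⟩ := h
  rcases he with ⟨h1, h2⟩ | ⟨h1, h2⟩ <;>
  · subst h1 h2
    rcases he' : e.2.2 <;> simp [src, tgt, he']
    all_goals try omega

lemma Step.snd_le (h : Step ω S u v) : v.2 ≤ u.2 + 1 ∧ u.2 ≤ v.2 + 1 := by
  obtain ⟨_, _, e, he, _⟩ := h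
  rcases he with ⟨h1, h2⟩ | ⟨h1, h2⟩ <;>
  · subst h1 h2
    rcases he' : e.2.2 <;> simp [src, tgt, he']
    all_goals try omega

/-- A step changes exactly one coordinate by one. -/
lemma Step.cases (h : Step ω S u v) :
    (u.1 = v.1 ∧ (v.2 = u.2 + 1 ∨ u.2 = v.2 + 1)) ∨
      (u.2 = v.2 ∧ (v.1 = u.1 + 1 ∨ u.1 = v.1 + 1)) := by
  obtain ⟨_, _, e, he, _⟩ := h
  rcases he with ⟨h1, h2⟩ | ⟨h1, h2⟩ <;>
  · subst h1 h2
    rcases he' : e.2.2 <;> simp [src, tgt, he']

/-- Extraction of a horizontal crossing of the strip `a ≤ x ≤ b`. -/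
lemma Conn.cross_x {a b : ℤ} (h : Conn ω S u v) (hu : u.1 ≤ a) (hv : b ≤ v.1) (hab : a ≤ b) :
    ∃ u' v' : Vert, u'.1 = a ∧ v'.1 = b ∧ Conn ω (S ∩ {w | a ≤ w.1 ∧ w.1 ≤ b}) u' v' ∧
      Conn ω S u u' ∧ Conn ω S v' v := by
  -- first hitting of `x ≥ b`
  have h1 : ∃ v' : Vert, v'.1 = b ∧ Conn ω (S ∩ {w | w.1 ≤ b}) u v' ∧ Conn ω S v' v := by
    by_cases hub : u.1 = b
    · exact ⟨u, hub, Conn.refl ⟨h.mem_left, by simp [hub]⟩, h⟩
    have hub' : u.1 < b := lt_of_le_of_ne (hu.trans hab) hub
    obtain ⟨w, w', h1, h2, h3, h4⟩ := h.exists_hit (T := {w | b ≤ w.1}) (by simpa using hub')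
      (by simpa using hv)
    have h5 := h1.mem_right.2
    simp only [Set.mem_ofPred_eq, not_le] at h3 h5
    have h6 := h2.fst_le
    have h7 : w'.1 = b := by omega
    refine ⟨w', h7, ?_, h4⟩
    have h8 : Conn ω (S ∩ {w | w.1 ≤ b}) u w :=
      h1.mono_set fun x hx => ⟨hx.1, by have := hx.2; simp only [Set.mem_ofPred_eq, not_le] at this ⊢; omega⟩
    exact h8.tail ⟨h8.mem_right, ⟨h2.2.1, by simp [h7]⟩, h2.2.2⟩
  obtain ⟨v', hv', hc, hv'v⟩ := h1
  -- last visit of `x ≤ a`
  by_cases hab' : a = b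
  · subst hab'
    exact ⟨v', v', hv', hv', Conn.refl ⟨hc.mem_right.1, by simp [hv']⟩,
      hc.mono_set (fun x hx => hx.1), hv'v⟩
  have hlt : a < b := lt_of_le_of_ne hab hab'
  obtain ⟨w, w', h1, h2, h3, h4⟩ := hc.exists_last (T := {w | w.1 ≤ a}) (by simpa using hu)
    (by simp [hv']; omega)
  have h5 := h4.mem_left.2
  simp only [Set.mem_ofPred_eq, not_le] at h1 h5
  have h6 := h3.fst_le
  have h7 : w.1 = a := by omega
  refine ⟨w, v', h7, hv', ?_, h2.mono_set (fun x hx => hx.1), hv'v⟩
  have h8 : Conn ω (S ∩ {w | a ≤ w.1 ∧ w.1 ≤ b}) w' v' :=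
    h4.mono_set fun x hx => ⟨hx.1.1, by
      have := hx.2; have h9 := hx.1.2
      simp only [Set.mem_ofPred_eq, not_le] at this h9 ⊢; omega⟩
  have h9 : Step ω (S ∩ {w | a ≤ w.1 ∧ w.1 ≤ b}) w w' :=
    ⟨⟨h3.1.1, by simp only [Set.mem_ofPred_eq]; omega⟩, h8.mem_left, h3.2.2⟩
  exact h9.conn.trans h8

/-- Extraction of a vertical crossing of the strip `a ≤ y ≤ b`. -/
lemma Conn.cross_y {a b : ℤ} (h : Conn ω S u v) (hu : u.2 ≤ a) (hv : b ≤ v.2) (hab : a ≤ b) :
    ∃ u' v' : Vert, u'.2 = a ∧ v'.2 = b ∧ Conn ω (S ∩ {w | a ≤ w.2 ∧ w.2 ≤ b}) u' v' ∧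
      Conn ω S u u' ∧ Conn ω S v' v := by
  have h1 : ∃ v' : Vert, v'.2 = b ∧ Conn ω (S ∩ {w | w.2 ≤ b}) u v' ∧ Conn ω S v' v := by
    by_cases hub : u.2 = b
    · exact ⟨u, hub, Conn.refl ⟨h.mem_left, by simp [hub]⟩, h⟩
    have hub' : u.2 < b := lt_of_le_of_ne (hu.trans hab) hub
    obtain ⟨w, w', h1, h2, h3, h4⟩ := h.exists_hit (T := {w | b ≤ w.2}) (by simpa using hub')
      (by simpa using hv)
    have h5 := h1.mem_right.2
    simp only [Set.mem_ofPred_eq, not_le] at h3 h5
    have h6 := h2.snd_le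
    have h7 : w'.2 = b := by omega
    refine ⟨w', h7, ?_, h4⟩
    have h8 : Conn ω (S ∩ {w | w.2 ≤ b}) u w :=
      h1.mono_set fun x hx => ⟨hx.1, by have := hx.2; simp only [Set.mem_ofPred_eq, not_le] at this ⊢; omega⟩
    exact h8.tail ⟨h8.mem_right, ⟨h2.2.1, by simp [h7]⟩, h2.2.2⟩
  obtain ⟨v', hv', hc, hv'v⟩ := h1
  by_cases hab' : a = b
  · subst hab'
    exact ⟨v', v', hv', hv', Conn.refl ⟨hc.mem_right.1, by simp [hv']⟩,
      hc.mono_set (fun x hx => hx.1), hv'v⟩
  have hlt : a < b := lt_of_le_of_ne hab hab'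
  obtain ⟨w, w', h1, h2, h3, h4⟩ := hc.exists_last (T := {w | w.2 ≤ a}) (by simpa using hu)
    (by simp [hv']; omega)
  have h5 := h4.mem_left.2
  simp only [Set.mem_ofPred_eq, not_le] at h1 h5
  have h6 := h3.snd_le
  have h7 : w.2 = a := by omega
  refine ⟨w, v', h7, hv', ?_, h2.mono_set (fun x hx => hx.1), hv'v⟩
  have h8 : Conn ω (S ∩ {w | a ≤ w.2 ∧ w.2 ≤ b}) w' v' :=
    h4.mono_set fun x hx => ⟨hx.1.1, by
      have := hx.2; have h9 := hx.1.2
      simp only [Set.mem_ofPred_eq, not_le] at this h9 ⊢; omega⟩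
  have h9 : Step ω (S ∩ {w | a ≤ w.2 ∧ w.2 ≤ b}) w w' :=
    ⟨⟨h3.1.1, by simp only [Set.mem_ofPred_eq]; omega⟩, h8.mem_left, h3.2.2⟩
  exact h9.conn.trans h8

lemma mem_ball {r : ℕ} : u ∈ ball v r ↔
    v.1 - r ≤ u.1 ∧ u.1 ≤ v.1 + r ∧ v.2 - r ≤ u.2 ∧ u.2 ≤ v.2 + r := Iff.rfl

lemma self_mem_ball {r : ℕ} : v ∈ ball v r := by
  simp only [mem_ball]; omega

lemma sphere_subset_ball {r : ℕ} : sphere v r ⊆ ball v r := fun _ h => h.1

/-- A path from `w ∈ ball v r` to a point outside the ball or on its sphere contains a path inside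
the ball to the sphere. -/
lemma Conn.to_sphere {r : ℕ} (h : Conn ω S w u) (hw : w ∈ ball v r)
    (hu : u ∉ ball v r ∨ u ∈ sphere v r) :
    ∃ x ∈ sphere v r, Conn ω (S ∩ ball v r) w x := by
  by_cases hub : u ∈ ball v r
  · -- `u` is on the sphere; look for the first exit, or the whole path is inside
    have hus : u ∈ sphere v r := by
      rcases hu with h | h
      · exact absurd hub h
      · exact h
    by_contra hno
    push Not at hno
    -- all vertices joined to `w` stay inside the ball and off the sphere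
    have key : Conn ω (S ∩ ball v r) w u := by
      refine h.induction_right (P := fun x => Conn ω (S ∩ ball v r) w x)
        (Conn.refl ⟨h.mem_left, hw⟩) ?_
      intro a b hwa hab ha
      refine ha.tail ⟨ha.mem_right, ⟨hab.2.1, ?_⟩, hab.2.2⟩
      have h1 : a ∈ ball v r := ha.mem_right.2
      have h2 : a ∉ sphere v r := fun h => hno a h ha
      have h3 : ¬ (a.1 = v.1 - r ∨ a.1 = v.1 + r ∨ a.2 = v.2 - r ∨ a.2 = v.2 + r) :=
        fun h => h2 ⟨h1, h⟩
      have h4 := hab.fst_le
      have h5 := hab.snd_le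
      simp only [mem_ball] at h1 ⊢
      omega
    exact hno u hus key
  · obtain ⟨x, x', h1, h2, h3, _⟩ := h.exists_exit hw hub
    refine ⟨x, ⟨h1.mem_right.2, ?_⟩, h1⟩
    have h4 := h1.mem_right.2
    have h5 := h2.fst_le
    have h6 := h2.snd_le
    simp only [mem_ball] at h3 h4
    omega

/-- Far connection gives a one-arm event. -/
lemma Conn.mem_arm {r : ℕ} (h : Conn ω S v u)
    (hu : (r : ℤ) ≤ |u.1 - v.1| ∨ (r : ℤ) ≤ |u.2 - v.2|) : ω ∈ Arm v r := by
  obtain ⟨x, hx, hc⟩ := h.to_sphere (v := v) (r := r) self_mem_ball (by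
    by_cases h1 : u ∈ ball v r
    · right
      refine ⟨h1, ?_⟩
      simp only [mem_ball] at h1
      rcases hu with h2 | h2 <;> rcases abs_cases (u.1 - v.1) with h3 | h3 <;>
        rcases abs_cases (u.2 - v.2) with h4 | h4 <;> omega
    · exact Or.inl h1)
  exact ⟨x, hx, hc.mono_set Set.inter_subset_right⟩

end Pool.Agent.H89.Perc

end

section

/-!
# Parity arguments in the plane

Edge functions with values in `ZMod 2`. `fsum c F` is the sum around the face `F` (with lower left
corner `F`), `vsum c V` is the sum over the edges at the vertex `V`. On a rectangle, an edge function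
whose face sums vanish is the coboundary of a vertex function (`integRect`); the consequence
`cut_lemma` is the tool behind the duality statements.
-/

namespace Pool.Agent.H89.Perc

variable {ω ω' : Config} {S T : Set Vert} {u v w : Vert} {e : Edge}

lemma z2_add_self (a : ZMod 2) : a + a = 0 := CharTwo.add_self_eq_zero a

lemma z2_one_of_ne {a : ZMod 2} (h : a ≠ 0) : a = 1 := by
  revert h; revert a; decide

lemma z2_add_eq_one {a b : ZMod 2} : a + b = 1 ↔ a ≠ b := by
  revert a b; decide

lemma z2_add_eq_zero {a b : ZMod 2} : a + b = 0 ↔ a = b := by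
  revert a b; decide

/-- The sum around the face `F`. -/
def fsum (c : Edge → ZMod 2) (F : Vert) : ZMod 2 :=
  c (F.1, F.2, false) + c (F.1 + 1, F.2, true) + c (F.1, F.2 + 1, false) + c (F.1, F.2, true)

/-- The sum over the edges at the vertex `V`. -/
def vsum (c : Edge → ZMod 2) (V : Vert) : ZMod 2 :=
  c (V.1, V.2, false) + c (V.1, V.2, true) + c (V.1 - 1, V.2, false) + c (V.1, V.2 - 1, true)

/-- The dual edge which crosses the edge `e`. -/
def uncross (e : Edge) : Edge := if e.2.2 then (e.1 - 1, e.2.1, false) else (e.1, e.2.1 - 1, true)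

lemma crossed_uncross (e : Edge) : crossed (uncross e) = e := by
  obtain ⟨x, y, b⟩ := e
  cases b <;> simp [crossed, uncross]

lemma uncross_crossed (e : Edge) : uncross (crossed e) = e := by
  obtain ⟨x, y, b⟩ := e
  cases b <;> simp [crossed, uncross]

/-- The face next to `e` which is different from `src e`. -/
def lowFace (e : Edge) : Vert := if e.2.2 then (e.1 - 1, e.2.1) else (e.1, e.2.1 - 1)

lemma src_uncross (e : Edge) : src (uncross e) = lowFace e := by
  obtain ⟨x, y, b⟩ := e
  cases b <;> simp [src, uncross, lowFace]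

lemma tgt_uncross (e : Edge) : tgt (uncross e) = src e := by
  obtain ⟨x, y, b⟩ := e
  cases b <;> simp [src, tgt, uncross]

lemma src_eq_lowFace_crossed (e : Edge) : src e = lowFace (crossed e) := by
  rw [← src_uncross, uncross_crossed]

lemma tgt_eq_src_crossed (e : Edge) : tgt e = src (crossed e) := by
  rw [← tgt_uncross, uncross_crossed]

lemma vsum_crossed (c : Edge → ZMod 2) (F : Vert) : vsum (fun e => c (crossed e)) F = fsum c F := by
  simp only [vsum, fsum, crossed]
  simp
  ring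

/-- A dual step through a closed edge. -/
lemma dual_step (h : ω e = false) (h1 : lowFace e ∈ S) (h2 : src e ∈ S) :
    Step (dual ω) S (lowFace e) (src e) := by
  refine ⟨h1, h2, uncross e, Or.inl ⟨(src_uncross e).symm, (tgt_uncross e).symm⟩, ?_⟩
  simp [dual, crossed_uncross, h]

lemma Step.of_dual (h : Step (dual ω) S u v) :
    u ∈ S ∧ v ∈ S ∧ ∃ e, ω e = false ∧
      ((u = lowFace e ∧ v = src e) ∨ (u = src e ∧ v = lowFace e)) := by
  obtain ⟨h1, h2, e, h3, h4⟩ := h
  refine ⟨h1, h2, crossed e, by simpa [dual] using h4, ?_⟩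
  rw [← src_eq_lowFace_crossed, ← tgt_eq_src_crossed]
  exact h3

/-- A function which does not change along open edges is constant along open paths. -/
lemma Conn.const {α : Type*} {f : Vert → α} (h : Conn ω S u v)
    (hf : ∀ e, src e ∈ S → tgt e ∈ S → ω e = true → f (src e) = f (tgt e)) : f u = f v := by
  refine h.induction_right (P := fun x => f u = f x) rfl ?_
  intro a b _ hs ih
  obtain ⟨h1, h2, e, h3, h4⟩ := hs
  rw [ih]
  rcases h3 with ⟨h5, h6⟩ | ⟨h5, h6⟩
  · subst h5 h6
    exact hf e h1 h2 h4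
  · subst h5 h6
    exact (hf e h2 h1 h4).symm

lemma const_row {α : Type*} {f : Vert → α} {x₁ x₂ y : ℤ} (hx : x₁ ≤ x₂)
    (h : ∀ x, x₁ ≤ x → x < x₂ → f (x, y) = f (x + 1, y)) : f (x₁, y) = f (x₂, y) := by
  have key : ∀ n : ℕ, x₁ + n ≤ x₂ → f (x₁, y) = f (x₁ + n, y) := by
    intro n
    induction n with
    | zero => intro _; simp
    | succ n ih =>
      intro hn
      push_cast at hn
      rw [ih (by omega), h (x₁ + n) (by omega) (by omega)]
      congr 2
      push_cast
      ring
  have := key (x₂ - x₁).toNat (by omega)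
  rw [this]
  congr 2
  omega

lemma const_col {α : Type*} {f : Vert → α} {x y₁ y₂ : ℤ} (hy : y₁ ≤ y₂)
    (h : ∀ y, y₁ ≤ y → y < y₂ → f (x, y) = f (x, y + 1)) : f (x, y₁) = f (x, y₂) := by
  have key : ∀ n : ℕ, y₁ + n ≤ y₂ → f (x, y₁) = f (x, y₁ + n) := by
    intro n
    induction n with
    | zero => intro _; simp
    | succ n ih =>
      intro hn
      push_cast at hn
      rw [ih (by omega), h (y₁ + n) (by omega) (by omega)]
      congr 2
      push_cast
      ring
  have := key (y₂ - y₁).toNat (by omega)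
  rw [this]
  congr 2
  omega

/-- **Integration on a rectangle.** If the face sums of `κ` vanish on the faces of a rectangle, then
`κ` is the coboundary of a vertex function on the rectangle. -/
theorem integRect {a b c d : ℤ} (κ : Edge → ZMod 2)
    (hf : ∀ F ∈ rect a (b - 1) c (d - 1), fsum κ F = 0) :
    ∃ W : Vert → ZMod 2, ∀ e : Edge, src e ∈ rect a b c d → tgt e ∈ rect a b c d →
      κ e = W (src e) + W (tgt e) := by
  set W : Vert → ZMod 2 := fun V => ∑ i ∈ Finset.range (V.1 - a).toNat, κ (a + i, c, false) +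
    ∑ j ∈ Finset.range (V.2 - c).toNat, κ (V.1, c + j, true) with hW
  have hvert : ∀ x y, c ≤ y → W (x, y + 1) = W (x, y) + κ (x, y, true) := by
    intro x y hy
    have e1 : (y + 1 - c).toNat = (y - c).toNat + 1 := by omega
    simp only [hW]
    have e2 : c + ((y - c).toNat : ℤ) = y := by omega
    rw [e1, Finset.sum_range_succ, e2, add_assoc]
  have hhor0 : ∀ x, a ≤ x → W (x + 1, c) = W (x, c) + κ (x, c, false) := by
    intro x hx
    have e1 : (x + 1 - a).toNat = (x - a).toNat + 1 := by omega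
    simp only [hW]
    rw [e1, Finset.sum_range_succ]
    have e2 : a + ((x - a).toNat : ℤ) = x := by omega
    rw [e2]
    simp
  have hhor : ∀ (n : ℕ) (x : ℤ), a ≤ x → x + 1 ≤ b → c + n ≤ d →
      W (x + 1, c + n) = W (x, c + n) + κ (x, c + n, false) := by
    intro n x hx hxb
    induction n with
    | zero => intro _; simpa using hhor0 x hx
    | succ n ih =>
      intro hn
      push_cast at hn
      have e1 : (c + ((n + 1 : ℕ) : ℤ)) = (c + (n : ℤ)) + 1 := by push_cast; ring
      rw [e1, hvert _ _ (by omega), hvert _ _ (by omega), ih (by omega)]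
      have h1 := hf (x, c + n) ⟨hx, by simp only; omega, by simp only; omega, by simp only; omega⟩
      simp only [fsum] at h1
      have h2 := z2_add_self (κ (x, c + n, true))
      have h3 := z2_add_self (κ (x, c + n + 1, false))
      linear_combination h1 - h2 - h3
  refine ⟨W, ?_⟩
  rintro ⟨x, y, t⟩ h1 h2
  cases t
  · simp only [src, tgt, rect, Set.mem_ofPred_eq, Bool.false_eq_true, if_false] at h1 h2 ⊢
    have e1 : c + ((y - c).toNat : ℤ) = y := by omega
    have := hhor (y - c).toNat x (by omega) (by omega) (by omega)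
    rw [e1] at this
    rw [this, ← add_assoc, z2_add_self, zero_add]
  · simp only [src, tgt, rect, Set.mem_ofPred_eq, if_true] at h1 h2 ⊢
    rw [hvert x y (by omega), ← add_assoc, z2_add_self, zero_add]

/-- **Cut lemma.** Let `χ` be a vertex function and let `T` be a set of faces of a rectangle which
is closed under crossing edges along which `χ` changes. Then there is a vertex function `W` on the
rectangle which changes exactly along those edges near `T` along which `χ` changes. -/
theorem cut_lemma {a b c d : ℤ} (χ : Vert → ZMod 2) (T : Set Vert)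
    (hTs : T ⊆ rect a (b - 1) c (d - 1))
    (hT : ∀ e : Edge, src e ∈ rect a (b - 1) c (d - 1) → lowFace e ∈ rect a (b - 1) c (d - 1) →
      χ (src e) ≠ χ (tgt e) → (src e ∈ T ↔ lowFace e ∈ T)) :
    ∃ W : Vert → ZMod 2, ∀ e : Edge, src e ∈ rect a b c d → tgt e ∈ rect a b c d →
      ((src e ∈ T ∨ lowFace e ∈ T) → W (src e) + W (tgt e) = χ (src e) + χ (tgt e)) ∧
      (src e ∉ T → lowFace e ∉ T → W (src e) = W (tgt e)) := by
  classical
  set κ : Edge → ZMod 2 := fun e =>
    if src e ∈ T ∨ lowFace e ∈ T then χ (src e) + χ (tgt e) else 0 with hκ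
  have hout : ∀ e : Edge, ∀ F ∈ rect a (b - 1) c (d - 1), F ∉ T → (F = src e ∨ F = lowFace e) →
      κ e = 0 := by
    intro e F hF hFT hFe
    simp only [hκ]
    split_ifs with h
    · rw [z2_add_eq_zero]
      by_contra hne
      rcases hFe with h1 | h1
      · subst h1
        rcases h with h | h
        · exact hFT h
        · exact hFT ((hT e hF (hTs h) hne).2 h)
      · subst h1
        rcases h with h | h
        · exact hFT ((hT e (hTs h) hF hne).1 h)
        · exact hFT h
    · rfl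
  have hin : ∀ e : Edge, (src e ∈ T ∨ lowFace e ∈ T) → κ e = χ (src e) + χ (tgt e) := by
    intro e h
    simp only [hκ, if_pos h]
  obtain ⟨W, hW⟩ := integRect (a := a) (b := b) (c := c) (d := d) κ (by
    intro F hF
    have s1 : F = src (F.1, F.2, false) := rfl
    have s2 : F = lowFace (F.1 + 1, F.2, true) := by simp [lowFace]
    have s3 : F = lowFace (F.1, F.2 + 1, false) := by simp [lowFace]
    have s4 : F = src (F.1, F.2, true) := rfl
    by_cases hFT : F ∈ T
    · unfold fsum
      rw [hin _ (Or.inl (s1 ▸ hFT)), hin _ (Or.inr (s2 ▸ hFT)), hin _ (Or.inr (s3 ▸ hFT)),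
        hin _ (Or.inl (s4 ▸ hFT))]
      simp only [src, tgt, if_true, Bool.false_eq_true, if_false]
      linear_combination z2_add_self (χ (F.1, F.2)) + z2_add_self (χ (F.1 + 1, F.2)) +
        z2_add_self (χ (F.1, F.2 + 1)) + z2_add_self (χ (F.1 + 1, F.2 + 1))
    · unfold fsum
      rw [hout _ F hF hFT (Or.inl s1), hout _ F hF hFT (Or.inr s2), hout _ F hF hFT (Or.inr s3),
        hout _ F hF hFT (Or.inl s4)]
      simp)
  refine ⟨W, fun e h1 h2 => ⟨fun h => ?_, fun h3 h4 => ?_⟩⟩
  · rw [← hW e h1 h2, hin e h]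
  · have : κ e = 0 := by
      simp only [hκ]
      rw [if_neg (by tauto)]
    rw [← z2_add_eq_zero, ← hW e h1 h2, this]

/-! ### Chains of paths -/

/-- The indicator of an edge. -/
def one (e : Edge) : Edge → ZMod 2 := fun e' => if e' = e then 1 else 0

lemma vsum_add (c c' : Edge → ZMod 2) (F : Vert) :
    vsum (fun e => c e + c' e) F = vsum c F + vsum c' F := by
  unfold vsum
  ring

lemma fsum_add (c c' : Edge → ZMod 2) (F : Vert) :
    fsum (fun e => c e + c' e) F = fsum c F + fsum c' F := by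
  unfold fsum
  ring

lemma vsum_one (e : Edge) (V : Vert) :
    vsum (one e) V = (if V = src e then 1 else 0) + (if V = tgt e then 1 else 0) := by
  obtain ⟨x, y, b⟩ := e
  obtain ⟨a, d⟩ := V
  cases b
  · simp only [vsum, one, src, tgt, Prod.mk.injEq, Bool.false_eq_true, and_false, if_false,
      and_true, Bool.true_eq_false]
    have h1 : (a - 1 = x ∧ d = y) ↔ (a = x + 1 ∧ d = y) := by
      constructor <;> rintro ⟨h, h'⟩ <;> exact ⟨by omega, h'⟩
    simp only [h1]
    ring
  · simp only [vsum, one, src, tgt, Prod.mk.injEq, Bool.false_eq_true, and_false, if_false,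
      and_true, if_true]
    have h1 : (a = x ∧ d - 1 = y) ↔ (a = x ∧ d = y + 1) := by
      constructor <;> rintro ⟨h, h'⟩ <;> exact ⟨h, by omega⟩
    simp only [h1]
    ring

/-- A path gives a chain of edges whose odd vertices are its two endpoints. -/
theorem Conn.chain (h : Conn ω S u v) :
    ∃ z : Edge → ZMod 2, (∀ e, z e ≠ 0 → ω e = true ∧ src e ∈ S ∧ tgt e ∈ S) ∧
      ∀ V, vsum z V = (if V = u then 1 else 0) + (if V = v then 1 else 0) := by
  refine h.induction_right (P := fun x => ∃ z : Edge → ZMod 2,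
    (∀ e, z e ≠ 0 → ω e = true ∧ src e ∈ S ∧ tgt e ∈ S) ∧
      ∀ V, vsum z V = (if V = u then 1 else 0) + (if V = x then 1 else 0)) ?_ ?_
  · refine ⟨fun _ => 0, by simp, fun V => ?_⟩
    rw [z2_add_self]
    simp [vsum]
  · rintro a b _ ⟨h1, h2, e, h3, h4⟩ ⟨z, hz1, hz2⟩
    refine ⟨fun e' => z e' + one e e', ?_, ?_⟩
    · intro e' he'
      by_cases hee : e' = e
      · subst hee
        rcases h3 with ⟨h5, h6⟩ | ⟨h5, h6⟩
        · subst h5 h6; exact ⟨h4, h1, h2⟩
        · subst h5 h6; exact ⟨h4, h2, h1⟩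
      · apply hz1
        intro h0
        apply he'
        simp only [one]
        rw [h0, if_neg hee, add_zero]
    · intro V
      rw [vsum_add, hz2, vsum_one]
      have hz : (if V = a then (1 : ZMod 2) else 0) + (if V = a then 1 else 0) = 0 :=
        z2_add_self _
      rcases h3 with ⟨h5, h6⟩ | ⟨h5, h6⟩
      · rw [← h5, ← h6]; linear_combination hz
      · rw [← h5, ← h6]; linear_combination hz

/-- A dual path gives a chain of closed edges whose odd faces are its two endpoints. -/
theorem Conn.dual_chain (h : Conn (dual ω) S u v) :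
    ∃ D : Edge → ZMod 2, (∀ e, D e ≠ 0 → ω e = false ∧ lowFace e ∈ S ∧ src e ∈ S) ∧
      ∀ F, fsum D F = (if F = u then 1 else 0) + (if F = v then 1 else 0) := by
  obtain ⟨z, hz1, hz2⟩ := h.chain
  refine ⟨fun e => z (uncross e), ?_, ?_⟩
  · intro e he
    obtain ⟨h1, h2, h3⟩ := hz1 _ he
    rw [src_uncross] at h2
    rw [tgt_uncross] at h3
    refine ⟨?_, h2, h3⟩
    simpa [dual, crossed_uncross] using h1
  · intro F
    rw [← vsum_crossed]
    simp only [uncross_crossed]
    exact hz2 F

/-! ### Reflection in the diagonal -/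

/-- The reflected configuration. -/
def sw (ω : Config) : Config := fun e => ω (e.2.1, e.1, !e.2.2)

lemma Step.sw (h : Step ω S u v) : Step (sw ω) {w | (w.2, w.1) ∈ S} (u.2, u.1) (v.2, v.1) := by
  obtain ⟨h1, h2, e, h3, h4⟩ := h
  refine ⟨h1, h2, (e.2.1, e.1, !e.2.2), ?_, ?_⟩
  · obtain ⟨x, y, b⟩ := e
    rcases h3 with ⟨h5, h6⟩ | ⟨h5, h6⟩ <;> subst h5 h6 <;> cases b <;> simp [Joins, src, tgt]
  · simpa [Perc.sw] using h4

lemma Conn.sw (h : Conn ω S u v) : Conn (sw ω) {w | (w.2, w.1) ∈ S} (u.2, u.1) (v.2, v.1) := by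
  refine h.induction_right (P := fun x => Conn (Perc.sw ω) {w | (w.2, w.1) ∈ S} (u.2, u.1)
    (x.2, x.1)) (Conn.refl h.mem_left) ?_
  intro a b _ hs ih
  exact ih.tail hs.sw

lemma sw_dual (ω : Config) : sw (dual ω) = dual (sw ω) := by
  funext ⟨x, y, b⟩
  cases b <;> simp [sw, dual, crossed]

lemma HCross.sw {a b c d : ℤ} (h : HCross ω a b c d) : VCross (sw ω) c d a b := by
  obtain ⟨u, v, h1, h2, h3⟩ := h
  refine ⟨(u.2, u.1), (v.2, v.1), h1, h2, h3.sw.mono_set ?_⟩
  rintro w ⟨k1, k2, k3, k4⟩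
  exact ⟨k3, k4, k1, k2⟩

lemma VCross.sw {a b c d : ℤ} (h : VCross ω a b c d) : HCross (sw ω) c d a b := by
  obtain ⟨u, v, h1, h2, h3⟩ := h
  refine ⟨(u.2, u.1), (v.2, v.1), h1, h2, h3.sw.mono_set ?_⟩
  rintro w ⟨k1, k2, k3, k4⟩
  exact ⟨k3, k4, k1, k2⟩

end Pool.Agent.H89.Perc

end

section

/-!
# Topology, part 1: a left-right path and a bottom-top path of a rectangle meet
-/

namespace Pool.Agent.H89.Perc

/-- An open left-right crossing and a dual bottom-top crossing cannot coexist. -/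
theorem not_hcross_and_dual_vcross {ω : Config} {a b c d : ℤ} (hab : a < b)
    (h : HCross ω a b c d) : ¬ VCross (dual ω) a (b - 1) (c - 1) d := by
  rintro ⟨φ, ψ, hφ, hψ, hd⟩
  obtain ⟨u, v, hu, hv, hc⟩ := h
  obtain ⟨D, hD1, hD2⟩ := hd.dual_chain
  have hφm := hd.mem_left
  have hψm := hd.mem_right
  have hum := hc.mem_left
  have hvm := hc.mem_right
  simp only [rect, Set.mem_ofPred_eq] at hφm hψm hum hvm
  -- close up the dual path by vertical rays
  set D' : Edge → ZMod 2 := fun e => D e +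
    (if e.2.2 = false ∧ e.1 = φ.1 ∧ e.2.1 ≤ φ.2 then 1 else 0) +
    (if e.2.2 = false ∧ e.1 = ψ.1 ∧ ψ.2 < e.2.1 then 1 else 0) with hD'
  have hface : ∀ F, fsum D' F = 0 := by
    rintro ⟨x, y⟩
    have h1 := hD2 (x, y)
    simp only [fsum] at h1
    simp only [fsum, hD', true_and, Bool.true_eq_false, false_and, if_false, add_zero]
    have e1 : ((if x = φ.1 ∧ y ≤ φ.2 then (1 : ZMod 2) else 0) +
        (if x = φ.1 ∧ y + 1 ≤ φ.2 then 1 else 0)) = if (x, y) = φ then 1 else 0 := by
      have h2 : ((x, y) = φ) ↔ (x = φ.1 ∧ y = φ.2) := by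
        rw [Prod.ext_iff]
      simp only [h2]
      by_cases k1 : x = φ.1
      · rcases lt_trichotomy y φ.2 with k2 | k2 | k2
        · rw [if_pos ⟨k1, by omega⟩, if_pos ⟨k1, by omega⟩, if_neg (by omega)]
          exact z2_add_self 1
        · rw [if_pos ⟨k1, by omega⟩, if_neg (by omega), if_pos ⟨k1, k2⟩, add_zero]
        · rw [if_neg (by omega), if_neg (by omega), if_neg (by omega), add_zero]
      · rw [if_neg (by tauto), if_neg (by tauto), if_neg (by tauto), add_zero]
    have e2 : ((if x = ψ.1 ∧ ψ.2 < y then (1 : ZMod 2) else 0) +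
        (if x = ψ.1 ∧ ψ.2 < y + 1 then 1 else 0)) = if (x, y) = ψ then 1 else 0 := by
      have h2 : ((x, y) = ψ) ↔ (x = ψ.1 ∧ y = ψ.2) := by
        rw [Prod.ext_iff]
      simp only [h2]
      by_cases k1 : x = ψ.1
      · rcases lt_trichotomy y ψ.2 with k2 | k2 | k2
        · rw [if_neg (by omega), if_neg (by omega), if_neg (by omega), add_zero]
        · rw [if_neg (by omega), if_pos ⟨k1, by omega⟩, if_pos ⟨k1, k2⟩, zero_add]
        · rw [if_pos ⟨k1, by omega⟩, if_pos ⟨k1, by omega⟩, if_neg (by omega)]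
          exact z2_add_self 1
      · rw [if_neg (by tauto), if_neg (by tauto), if_neg (by tauto), add_zero]
    linear_combination h1 + e1 + e2 + z2_add_self (if (x, y) = φ then (1 : ZMod 2) else 0) +
      z2_add_self (if (x, y) = ψ then (1 : ZMod 2) else 0)
  obtain ⟨W, hW⟩ := integRect (a := a) (b := b) (c := c - 1) (d := d) D' (fun F _ => hface F)
  -- the potential on the four sides
  have hcol : ∀ x, (x = a ∨ x = b) → ∀ y, c - 1 ≤ y → y ≤ d → W (x, c - 1) = W (x, y) := by
    intro x hx y hy1 hy2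
    refine const_col hy1 fun y' h1 h2 => ?_
    have h3 := hW (x, y', true)
    simp only [src, tgt, if_true, rect, Set.mem_ofPred_eq] at h3
    have h4 := h3 ⟨by omega, by omega, by omega, by omega⟩ ⟨by omega, by omega, by omega, by omega⟩
    rw [← z2_add_eq_zero, ← h4]
    have h5 : D (x, y', true) = 0 := by
      by_contra hne
      obtain ⟨_, h6, h7⟩ := hD1 _ hne
      simp only [lowFace, src, rect, Set.mem_ofPred_eq, if_true] at h6 h7
      omega
    simp [hD', h5]
  have hbot : W (a, c - 1) + W (b, c - 1) = 1 := by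
    have hrow : ∀ x, a ≤ x → x < b →
        W (x, c - 1) + W (x + 1, c - 1) = if x = φ.1 then 1 else 0 := by
      intro x h1 h2
      have h3 := hW (x, c - 1, false)
      simp only [src, tgt, Bool.false_eq_true, if_false, rect, Set.mem_ofPred_eq] at h3
      have h4 := h3 ⟨by omega, by omega, by omega, by omega⟩
        ⟨by omega, by omega, by omega, by omega⟩
      rw [← h4]
      have h5 : D (x, c - 1, false) = 0 := by
        by_contra hne
        obtain ⟨_, h6, h7⟩ := hD1 _ hne
        simp only [lowFace, src, rect, Set.mem_ofPred_eq, Bool.false_eq_true, if_false] at h6 h7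
        omega
      have h6 : ¬ (x = ψ.1 ∧ ψ.2 < c - 1) := by omega
      have h7 : (x = φ.1 ∧ c - 1 ≤ φ.2) ↔ x = φ.1 := by
        constructor
        · exact fun h => h.1
        · exact fun h => ⟨h, by omega⟩
      simp only [hD', h5, true_and, h6, if_false, h7]
      simp
    have h1 : W (a, c - 1) = W (φ.1, c - 1) := by
      refine const_row hφm.1 fun x h1 h2 => ?_
      rw [← z2_add_eq_zero, hrow x h1 (by omega), if_neg (by omega)]
    have h2 : W (φ.1 + 1, c - 1) = W (b, c - 1) := by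
      refine const_row (by omega) fun x h1 h2 => ?_
      rw [← z2_add_eq_zero, hrow x (by omega) (by omega), if_neg (by omega)]
    rw [h1, ← h2, hrow φ.1 (by omega) (by omega), if_pos rfl]
  -- the potential is constant along the open crossing
  have hpath : W u = W v := by
    refine hc.const ?_
    intro e h1 h2 h3
    have h4 := hW e ⟨h1.1, h1.2.1, by have := h1.2.2.1; omega, h1.2.2.2⟩
      ⟨h2.1, h2.2.1, by have := h2.2.2.1; omega, h2.2.2.2⟩
    rw [← z2_add_eq_zero, ← h4]
    have h5 : D e = 0 := by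
      by_contra hne
      rw [(hD1 _ hne).1] at h3
      exact absurd h3 (by decide)
    have h6 : ¬ (e.2.2 = false ∧ e.1 = φ.1 ∧ e.2.1 ≤ φ.2) := by
      rintro ⟨_, _, h7⟩
      have := h1.2.2.1
      simp only [src] at this
      omega
    have h7 : ¬ (e.2.2 = false ∧ e.1 = ψ.1 ∧ ψ.2 < e.2.1) := by
      rintro ⟨_, _, h7⟩
      have := h1.2.2.2
      simp only [src] at this
      omega
    simp only [hD', h5, if_neg h6, if_neg h7]
    simp
  have h1 : W (a, c - 1) = W u := by
    rw [hcol a (Or.inl rfl) u.2 (by omega) (by omega), ← hu]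
  have h2 : W (b, c - 1) = W v := by
    rw [hcol b (Or.inr rfl) v.2 (by omega) (by omega), ← hv]
  rw [h1, h2, hpath, z2_add_self] at hbot
  exact absurd hbot (by decide)

/-- An open bottom-top crossing and a dual left-right crossing cannot coexist. -/
theorem not_vcross_and_dual_hcross {ω : Config} {a b c d : ℤ} (hcd : c < d)
    (h : VCross ω a b c d) : ¬ HCross (dual ω) (a - 1) b c (d - 1) := by
  intro h'
  have h1 := h'.sw
  rw [sw_dual] at h1
  exact not_hcross_and_dual_vcross hcd h.sw h1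

/-- A path from the left side to the right side and a path from the bottom side to the top side of
a rectangle (for two arbitrary configurations, so arbitrary paths) have a common vertex. -/
theorem cross {ω ω' : Config} {a b c d : ℤ} {u v u' v' : Vert}
    (h : Conn ω (rect a b c d) u v) (hu : u.1 = a) (hv : v.1 = b)
    (h' : Conn ω' (rect a b c d) u' v') (hu' : u'.2 = c) (hv' : v'.2 = d) :
    ∃ w, Conn ω (rect a b c d) u w ∧ Conn ω' (rect a b c d) u' w := by
  classical
  by_contra hno
  push Not at hno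
  set ω₁ : Config := fun e => decide (¬ Conn ω' (rect a b c d) u' (src e)) with hω₁
  have hvm := h.mem_right
  have hum' := h'.mem_left
  have hab : a ≤ b := hvm.1.trans hvm.2.1
  -- the left-right path
  have h1 : Conn ω₁ (rect a (b + 1) c d) u v := by
    refine h.induction_right (P := fun x => Conn ω₁ (rect a (b + 1) c d) u x) (Conn.refl ?_) ?_
    · exact ⟨h.mem_left.1, h.mem_left.2.1.trans (by omega), h.mem_left.2.2⟩
    · intro x y hx hs ih
      have hy := hx.tail hs
      obtain ⟨k1, k2, e, k3, k4⟩ := hs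
      refine ih.tail ⟨ih.mem_right, ⟨k2.1, k2.2.1.trans (by omega), k2.2.2⟩, e, k3, ?_⟩
      simp only [hω₁, decide_eq_true_eq]
      rcases k3 with ⟨k5, _⟩ | ⟨_, k6⟩
      · rw [← k5]; exact hno _ hx
      · rw [← k6]; exact hno _ hy
  have h2 : HCross ω₁ a (b + 1) c d := by
    refine ⟨u, (v.1 + 1, v.2), hu, by simp [hv], h1.tail ⟨h1.mem_right, ?_, ?_⟩⟩
    · exact ⟨by have := hvm.1; simp only; omega, by have := hvm.2.1; simp only; omega, hvm.2.2⟩
    · refine ⟨(v.1, v.2, false), Or.inl ⟨rfl, rfl⟩, ?_⟩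
      simp only [hω₁, decide_eq_true_eq]
      exact hno _ h
  -- the bottom-top path, seen as a dual path
  have key : ∀ e : Edge, Conn ω' (rect a b c d) u' (src e) → ω₁ e = false := by
    intro e he
    simp [hω₁, he]
  have hsub : rect a b c d ⊆ rect a (b + 1 - 1) (c - 1) d := by
    rintro w ⟨k1, k2, k3, k4⟩
    exact ⟨k1, by omega, by omega, k4⟩
  have h3 : Conn (dual ω₁) (rect a (b + 1 - 1) (c - 1) d) u' v' := by
    refine h'.induction_right (P := fun x => Conn (dual ω₁) (rect a (b + 1 - 1) (c - 1) d) u' x)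
      (Conn.refl (hsub hum')) ?_
    intro x y hx hs ih
    have hy := hx.tail hs
    refine ih.trans ?_
    have hx1 := hsub hx.mem_right
    have hy1 := hsub hy.mem_right
    obtain ⟨_, _, e, k3, _⟩ := hs
    obtain ⟨ex, ey, t⟩ := e
    rcases k3 with ⟨k5, k6⟩ | ⟨k5, k6⟩
    · -- y = tgt e
      subst k5 k6
      cases t
      · have := dual_step (S := rect a (b + 1 - 1) (c - 1) d) (key (ex + 1, ey, true) hy)
          (by simpa [lowFace, src] using hx1) (by simpa [src, tgt] using hy1)
        simpa [lowFace, src, tgt] using this.conn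
      · have := dual_step (S := rect a (b + 1 - 1) (c - 1) d) (key (ex, ey + 1, false) hy)
          (by simpa [lowFace, src] using hx1) (by simpa [src, tgt] using hy1)
        simpa [lowFace, src, tgt] using this.conn
    · subst k5 k6
      cases t
      · have := dual_step (S := rect a (b + 1 - 1) (c - 1) d) (key (ex + 1, ey, true) hx)
          (by simpa [lowFace, src] using hy1) (by simpa [src, tgt] using hx1)
        simpa [lowFace, src, tgt] using this.symm.conn
      · have := dual_step (S := rect a (b + 1 - 1) (c - 1) d) (key (ex, ey + 1, false) hx)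
          (by simpa [lowFace, src] using hy1) (by simpa [src, tgt] using hx1)
        simpa [lowFace, src, tgt] using this.symm.conn
  have h4 : VCross (dual ω₁) a (b + 1 - 1) (c - 1) d := by
    refine ⟨(u'.1, u'.2 - 1), v', by simp [hu'], hv', ?_⟩
    have h5 := dual_step (S := rect a (b + 1 - 1) (c - 1) d) (key (u'.1, u'.2, false)
      (Conn.refl hum')) ?_ (by simpa [src] using hsub hum')
    · exact (by simpa [lowFace, src] using h5.conn : Conn (dual ω₁) (rect a (b + 1 - 1) (c - 1) d)
        (u'.1, u'.2 - 1) u').trans h3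
    · obtain ⟨k1, k2, k3, k4⟩ := hum'
      exact ⟨by simpa [lowFace] using k1, by simpa [lowFace] using k2,
        by simp [lowFace]; omega, by simp [lowFace]; omega⟩
  exact not_hcross_and_dual_vcross (by omega) h2 h4

end Pool.Agent.H89.Perc

end

section

/-!
# Topology, part 2: the boundary between two complementary connected sets is dual-connected
-/

namespace Pool.Agent.H89.Perc

/-- The configuration in which exactly the edges with exactly one endpoint in `K` are closed. -/
noncomputable def cutConfig (K : Set Vert) : Config :=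
  fun e => by classical exact decide (src e ∈ K ↔ tgt e ∈ K)

/-- The two faces (dual vertices) adjacent to an edge. -/
def IsFace (φ : Vert) (e : Edge) : Prop :=
  φ = src e ∨ φ = (if e.2.2 then (e.1 - 1, e.2.1) else (e.1, e.2.1 - 1))

lemma cutConfig_false {K : Set Vert} {e : Edge} :
    cutConfig K e = false ↔ ¬ (src e ∈ K ↔ tgt e ∈ K) := by
  unfold cutConfig
  rw [decide_eq_false_iff_not]

/-- Let `D` be the rectangle `[a, b] × [c, d]` and `K ⊆ D` such that `K` and `D \ K` are connected.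
Then the faces inside `D` adjacent to edges between `K` and `D \ K` are joined to each other by
dual paths inside `D` crossing only edges between `K` and `D \ K`. -/
theorem sep {a b c d : ℤ} {K : Set Vert} (hK : K ⊆ rect a b c d)
    (hKc : ∀ u ∈ K, ∀ v ∈ K, Conn allOpen K u v)
    (hKc' : ∀ u ∈ rect a b c d \ K, ∀ v ∈ rect a b c d \ K, Conn allOpen (rect a b c d \ K) u v)
    {e e' : Edge} (he : src e ∈ rect a b c d ∧ tgt e ∈ rect a b c d)
    (he' : src e' ∈ rect a b c d ∧ tgt e' ∈ rect a b c d)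
    (hcut : cutConfig K e = false) (hcut' : cutConfig K e' = false)
    {φ φ' : Vert} (hφ : IsFace φ e) (hφ' : IsFace φ' e')
    (hφD : φ ∈ rect a (b - 1) c (d - 1)) (hφD' : φ' ∈ rect a (b - 1) c (d - 1)) :
    Conn (dual (cutConfig K)) (rect a (b - 1) c (d - 1)) φ φ' := by
  classical
  set χ : Vert → ZMod 2 := fun v => if v ∈ K then 1 else 0 with hχ
  have hχ1 : ∀ e, cutConfig K e = false ↔ χ (src e) ≠ χ (tgt e) := by
    intro e
    rw [cutConfig_false]
    simp only [hχ]
    by_cases h1 : src e ∈ K <;> by_cases h2 : tgt e ∈ K <;> simp [h1, h2]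
  by_contra hno
  set T : Set Vert := {F | Conn (dual (cutConfig K)) (rect a (b - 1) c (d - 1)) φ F} with hT
  have hTc : ∀ e : Edge, src e ∈ rect a (b - 1) c (d - 1) → lowFace e ∈ rect a (b - 1) c (d - 1) →
      χ (src e) ≠ χ (tgt e) → (src e ∈ T ↔ lowFace e ∈ T) := by
    intro e h1 h2 h3
    have h4 := dual_step ((hχ1 e).2 h3) h2 h1
    exact ⟨fun h => Conn.tail h h4.symm, fun h => Conn.tail h h4⟩
  obtain ⟨W, hW⟩ := cut_lemma (a := a) (b := b) (c := c) (d := d) χ T
    (fun F hF => Conn.mem_right hF) hTc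
  have hWe : ∀ e, src e ∈ rect a b c d → tgt e ∈ rect a b c d → χ (src e) = χ (tgt e) →
      W (src e) = W (tgt e) := by
    intro e h1 h2 h3
    by_cases h4 : src e ∈ T ∨ lowFace e ∈ T
    · have := (hW e h1 h2).1 h4
      rwa [h3, z2_add_self, z2_add_eq_zero] at this
    · push Not at h4
      exact (hW e h1 h2).2 h4.1 h4.2
  have hWK : ∀ u ∈ K, ∀ v ∈ K, W u = W v := by
    intro u hu v hv
    refine (hKc u hu v hv).const fun e h1 h2 _ => hWe e (hK h1) (hK h2) ?_
    simp [hχ, h1, h2]
  have hWK' : ∀ u ∈ rect a b c d \ K, ∀ v ∈ rect a b c d \ K, W u = W v := by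
    intro u hu v hv
    refine (hKc' u hu v hv).const fun e h1 h2 _ => hWe e h1.1 h2.1 ?_
    simp [hχ, h1.2, h2.2]
  -- the edge `e`
  have h1 : W (src e) ≠ W (tgt e) := by
    have hφT : φ ∈ T := Conn.refl hφD
    have h2 : src e ∈ T ∨ lowFace e ∈ T := by
      rcases hφ with h | h
      · exact Or.inl (h ▸ hφT)
      · rw [h] at hφT
        exact Or.inr hφT
    have h3 := (hW e he.1 he.2).1 h2
    intro h4
    rw [h4, z2_add_self] at h3
    exact (hχ1 e).1 hcut (z2_add_eq_zero.1 h3.symm)
  -- the edge `e'`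
  have h2 : W (src e') = W (tgt e') := by
    have hne := (hχ1 e').1 hcut'
    have hφT : φ' ∉ T := hno
    have h3 : src e' ∉ T ∧ lowFace e' ∉ T := by
      rcases hφ' with h | h
      · have h4 : src e' ∉ T := h ▸ hφT
        refine ⟨h4, fun h5 => h4 ((hTc e' (h ▸ hφD') (Conn.mem_right h5) hne).2 h5)⟩
      · have h4 : lowFace e' ∉ T := by
          rw [h] at hφT; exact hφT
        have h6 : lowFace e' ∈ rect a (b - 1) c (d - 1) := by
          rw [h] at hφD'; exact hφD'
        exact ⟨fun h5 => h4 ((hTc e' (Conn.mem_right h5) h6 hne).1 h5), h4⟩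
    exact (hW e' he'.1 he'.2).2 h3.1 h3.2
  have hc1 := cutConfig_false.1 hcut
  have hc2 := cutConfig_false.1 hcut'
  by_cases k1 : src e ∈ K
  · have k2 : tgt e ∉ K := fun h => hc1 (by simp [k1, h])
    by_cases k3 : src e' ∈ K
    · have k4 : tgt e' ∉ K := fun h => hc2 (by simp [k3, h])
      exact h1 ((hWK _ k1 _ k3).trans (h2.trans (hWK' _ ⟨he'.2, k4⟩ _ ⟨he.2, k2⟩)))
    · have k4 : tgt e' ∈ K := by
        by_contra h; exact hc2 (by simp [k3, h])
      exact h1 ((hWK _ k1 _ k4).trans (h2.symm.trans (hWK' _ ⟨he'.1, k3⟩ _ ⟨he.2, k2⟩)))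
  · have k2 : tgt e ∈ K := by
      by_contra h; exact hc1 (by simp [k1, h])
    by_cases k3 : src e' ∈ K
    · have k4 : tgt e' ∉ K := fun h => hc2 (by simp [k3, h])
      exact h1 ((hWK' _ ⟨he.1, k1⟩ _ ⟨he'.2, k4⟩).trans (h2.symm.trans (hWK _ k3 _ k2)))
    · have k4 : tgt e' ∈ K := by
        by_contra h; exact hc2 (by simp [k3, h])
      exact h1 ((hWK' _ ⟨he.1, k1⟩ _ ⟨he'.1, k3⟩).trans (h2.trans (hWK _ k4 _ k2)))

/-- The component of `v` in `D \ C`. -/
def comp (D C : Set Vert) (v : Vert) : Set Vert := {w | Conn allOpen (D \ C) v w}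

/-- If `C` is a connected nonempty subset of a rectangle `D` and `K` is a component of `D \ C`,
then `K` and `D \ K` are connected. -/
theorem comp_connected {D C : Set Vert} {v : Vert} :
    ∀ u ∈ comp D C v, ∀ w ∈ comp D C v, Conn allOpen (comp D C v) u w := by
  have key : ∀ w ∈ comp D C v, Conn allOpen (comp D C v) v w := by
    intro w hw
    refine Conn.induction_right (P := fun x => Conn allOpen (comp D C v) v x) hw
      (Conn.refl (Conn.refl (Conn.mem_left hw))) ?_
    intro a b ha hab ih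
    exact ih.tail ⟨ha, ha.tail hab, hab.2.2⟩
  intro u hu w hw
  exact (key u hu).symm.trans (key w hw)

/-- A straight horizontal path. -/
lemma conn_line_x {S : Set Vert} {x₁ x₂ y : ℤ} (hx : x₁ ≤ x₂)
    (h : ∀ x, x₁ ≤ x → x ≤ x₂ → (x, y) ∈ S) : Conn allOpen S (x₁, y) (x₂, y) := by
  have key : ∀ n : ℕ, x₁ + n ≤ x₂ → Conn allOpen S (x₁, y) (x₁ + n, y) := by
    intro n
    induction n with
    | zero => intro _; simpa using Conn.refl (h x₁ le_rfl hx)
    | succ n ih =>
      intro hn
      push_cast at hn ⊢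
      refine (ih (by omega)).tail ⟨h _ (by omega) (by omega), h _ (by omega) (by omega),
        (x₁ + n, y, false), Or.inl ⟨rfl, ?_⟩, rfl⟩
      simp [tgt, add_assoc]
  have := key (x₂ - x₁).toNat (by omega)
  have e1 : x₁ + ((x₂ - x₁).toNat : ℤ) = x₂ := by omega
  rwa [e1] at this

/-- A straight vertical path. -/
lemma conn_line_y {S : Set Vert} {x y₁ y₂ : ℤ} (hy : y₁ ≤ y₂)
    (h : ∀ y, y₁ ≤ y → y ≤ y₂ → (x, y) ∈ S) : Conn allOpen S (x, y₁) (x, y₂) := by
  have key : ∀ n : ℕ, y₁ + n ≤ y₂ → Conn allOpen S (x, y₁) (x, y₁ + n) := by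
    intro n
    induction n with
    | zero => intro _; simpa using Conn.refl (h y₁ le_rfl hy)
    | succ n ih =>
      intro hn
      push_cast at hn ⊢
      refine (ih (by omega)).tail ⟨h _ (by omega) (by omega), h _ (by omega) (by omega),
        (x, y₁ + n, true), Or.inl ⟨rfl, ?_⟩, rfl⟩
      simp [tgt, add_assoc]
  have := key (y₂ - y₁).toNat (by omega)
  have e1 : y₁ + ((y₂ - y₁).toNat : ℤ) = y₂ := by omega
  rwa [e1] at this

/-- Rectangles are connected. -/
lemma conn_rect {a b c d : ℤ} {u v : Vert} (hu : u ∈ rect a b c d) (hv : v ∈ rect a b c d) :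
    Conn allOpen (rect a b c d) u v := by
  obtain ⟨x, y⟩ := u
  obtain ⟨x', y'⟩ := v
  have h1 : Conn allOpen (rect a b c d) (x, y) (x', y) := by
    rcases le_total x x' with h | h
    · exact conn_line_x h fun z h1 h2 => ⟨hu.1.trans h1, h2.trans hv.2.1, hu.2.2⟩
    · exact (conn_line_x (S := rect a b c d) h
        fun z h1 h2 => ⟨hv.1.trans h1, h2.trans hu.2.1, hu.2.2⟩).symm
  have h2 : Conn allOpen (rect a b c d) (x', y) (x', y') := by
    rcases le_total y y' with h | h
    · exact conn_line_y h fun z h1 h2 => ⟨hv.1, hv.2.1, hu.2.2.1.trans h1, h2.trans hv.2.2.2⟩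
    · exact (conn_line_y (S := rect a b c d) h fun z h1 h2 =>
        ⟨hv.1, hv.2.1, hv.2.2.1.trans h1, h2.trans hu.2.2.2⟩).symm
  exact h1.trans h2

theorem compl_comp_connected {a b c d : ℤ} {C : Set Vert} {v c₀ : Vert}
    (hC : C ⊆ rect a b c d) (hc₀ : c₀ ∈ C)
    (hCc : ∀ u ∈ C, ∀ w ∈ C, Conn allOpen C u w) :
    ∀ u ∈ rect a b c d \ comp (rect a b c d) C v, ∀ w ∈ rect a b c d \ comp (rect a b c d) C v,
      Conn allOpen (rect a b c d \ comp (rect a b c d) C v) u w := by
  set D := rect a b c d with hD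
  set K := comp D C v with hK
  have hCK : C ⊆ D \ K := by
    intro w hw
    refine ⟨hC hw, fun h => ?_⟩
    exact (Conn.mem_right h).2 hw
  have hCC : ∀ u ∈ C, ∀ w ∈ C, Conn allOpen (D \ K) u w :=
    fun u hu w hw => (hCc u hu w hw).mono_set hCK
  -- every vertex of `D \ K` is joined to `c₀` in `D \ K`
  have key : ∀ u ∈ D \ K, Conn allOpen (D \ K) c₀ u := by
    intro u hu
    by_cases huC : u ∈ C
    · exact hCC _ hc₀ _ huC
    have h1 : Conn allOpen D u c₀ := conn_rect hu.1 (hC hc₀)
    obtain ⟨x, x', h2, h3, h4, _⟩ := h1.exists_hit (T := C) huC hc₀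
    -- the path from `u` to `x` avoids `C`, so it stays out of `K`
    have h5 : Conn allOpen (D \ K) u x := by
      refine h2.induction_right (P := fun z => Conn allOpen (D \ K) u z) (Conn.refl hu) ?_
      intro z z' hz hzz' ih
      refine ih.tail ⟨ih.mem_right, ⟨hzz'.2.1.1, fun h => ?_⟩, hzz'.2.2⟩
      refine hu.2 ?_
      exact (Conn.tail h hzz'.symm).trans hz.symm
    have h6 : Conn allOpen (D \ K) u x' := h5.tail ⟨h5.mem_right, hCK h4, h3.2.2⟩
    exact (hCC _ hc₀ _ h4).trans h6.symm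
  intro u hu w hw
  exact (key u hu).symm.trans (key w hw)

/-- An edge of `D` between the component `K` of `D \ C` and `D \ K` joins `C` to `K`. -/
theorem cut_comp {D C : Set Vert} {v : Vert} {e : Edge} (he : src e ∈ D ∧ tgt e ∈ D)
    (hcut : cutConfig (comp D C v) e = false) :
    (src e ∈ C ∧ tgt e ∈ comp D C v) ∨ (tgt e ∈ C ∧ src e ∈ comp D C v) := by
  have h1 := cutConfig_false.1 hcut
  by_cases h2 : src e ∈ comp D C v
  · right
    refine ⟨?_, h2⟩
    by_contra h3
    apply h1
    refine ⟨fun _ => ?_, fun _ => h2⟩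
    exact Conn.tail h2 ⟨Conn.mem_right h2, ⟨he.2, h3⟩, e, joins_src_tgt e, rfl⟩
  · left
    have h3 : tgt e ∈ comp D C v := by
      by_contra h; exact h1 (by simp [h2, h])
    refine ⟨?_, h3⟩
    by_contra h4
    apply h2
    exact Conn.tail h3 ⟨Conn.mem_right h3, ⟨he.1, h4⟩, e, (joins_src_tgt e).symm, rfl⟩

end Pool.Agent.H89.Perc

end
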