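import Pool.Agent.H31.PT.M01
import Pool.Agent.H31.PT.Perc.Abs

/-! The parts of this file: Perc.Bridge, H89.Perc.Prob, H89.Perc.FKG, H89.Perc.Russo, H89.Perc.Symm. -/

section

/-!
# Local events of bond percolation as events of a finite product space
-/

open MeasureTheory ProbabilityTheory unitInterval

namespace Pool.Agent.H89.Perc

open Pool.Agent.Perc (Ex ind ind_of ind_of_not)

instance (p : I) : IsProbabilityMeasure (μ p) := by unfold μ; infer_instance

/-- The configuration whose set of open edges is `S`. -/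
def ofS (S : Finset Edge) : Config := fun e => decide (e ∈ S)

theorem ofS_apply (S : Finset Edge) (e : Edge) : ofS S e = decide (e ∈ S) := rfl

theorem ofS_eq_true {S : Finset Edge} {e : Edge} : ofS S e = true ↔ e ∈ S := by simp [ofS]

theorem ofS_mono {S T : Finset Edge} (h : S ⊆ T) (e : Edge) (he : ofS S e = true) :
    ofS T e = true := ofS_eq_true.2 (h (ofS_eq_true.1 he))

/-- The cylinder of configurations that have exactly the open edges `S` in `s`. -/
def cyl (s S : Finset Edge) : Set Config := Set.pi (s : Set Edge) (fun e => {ofS S e})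

theorem mem_cyl {s S : Finset Edge} {ω : Config} : ω ∈ cyl s S ↔ ∀ e ∈ s, ω e = ofS S e := by
  simp [cyl, Set.mem_pi]

theorem measurableSet_cyl (s S : Finset Edge) : MeasurableSet (cyl s S) :=
  MeasurableSet.pi s.countable_toSet fun _ _ => MeasurableSet.of_discrete

theorem Pr_cyl (p : I) {s S : Finset Edge} (hS : S ⊆ s) :
    Pr p (cyl s S) = (p : ℝ) ^ S.card * (1 - (p : ℝ)) ^ (s \ S).card := by
  unfold Pr cyl μ
  rw [measureReal_def, Measure.infinitePi_pi _ (fun _ _ => MeasurableSet.of_discrete),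
    ENNReal.toReal_prod]
  have h : ∀ e ∈ s, ((bernoulliMeasure true false p) {ofS S e}).toReal
      = if e ∈ S then (p : ℝ) else 1 - (p : ℝ) := by
    intro e _
    by_cases he : e ∈ S
    · have : ofS S e = true := ofS_eq_true.2 he
      rw [this, if_pos he, ← measureReal_def, bernoulliMeasure_real_apply_of_mem_of_notMem p
        MeasurableSet.of_discrete (by simp) (by simp)]
    · have : ofS S e = false := by simp [ofS, he]
      rw [this, if_neg he, ← measureReal_def, bernoulliMeasure_real_apply_of_notMem_of_mem p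
        MeasurableSet.of_discrete (by simp) (by simp)]
  rw [Finset.prod_congr rfl h, Finset.prod_ite, Finset.prod_const, Finset.prod_const]
  congr 3
  · rw [Finset.filter_mem_eq_inter, Finset.inter_eq_right.2 hS]
  · ext x; simp

open Classical in
/-- A local event as a finite union of cylinders. -/
theorem LocalOn.eq_biUnion {s : Finset Edge} {A : Set Config} (hA : LocalOn s A) :
    A = ⋃ S ∈ (s.powerset.filter (fun S => ofS S ∈ A) : Finset (Finset Edge)), cyl s S := by
  classical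
  ext ω
  simp only [Finset.mem_filter, Finset.mem_powerset, Set.mem_iUnion, exists_prop]
  constructor
  · intro h
    refine ⟨s.filter (fun e => ω e = true), ⟨Finset.filter_subset _ _, ?_⟩, ?_⟩
    · refine hA ω _ (fun e he => ?_) h
      rw [ofS_apply]; simp [he]
    · rw [mem_cyl]
      intro e he
      rw [ofS_apply]; simp [he]
  · rintro ⟨S, ⟨_, h1⟩, h2⟩
    rw [mem_cyl] at h2
    exact hA _ _ (fun e he => (h2 e he).symm) h1

/-- Local events are measurable. -/
theorem LocalOn.measurableSet {s : Finset Edge} {A : Set Config} (h : LocalOn s A) :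
    MeasurableSet A := by
  classical
  rw [h.eq_biUnion]
  exact Finset.measurableSet_biUnion _ fun S _ => measurableSet_cyl s S

/-- **Bridge**: the probability of a local event is a finite expectation. -/
theorem Pr_eq_Ex {s : Finset Edge} {A : Set Config} (hA : LocalOn s A) (p : I) :
    Pr p A = Ex (p : ℝ) s (ind (fun S => ofS S ∈ A)) := by
  classical
  have h1 : Pr p A = ∑ S ∈ s.powerset.filter (fun S => ofS S ∈ A), Pr p (cyl s S) := by
    conv_lhs => rw [hA.eq_biUnion]
    unfold Pr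
    refine measureReal_biUnion_finset ?_ (fun S _ => measurableSet_cyl s S)
      (fun _ _ => measure_ne_top _ _)
    intro S hS T hT hne
    rw [Function.onFun, Set.disjoint_left]
    intro ω h1 h2
    rw [mem_cyl] at h1 h2
    apply hne
    simp only [Finset.coe_filter, Finset.mem_powerset, Set.mem_ofPred_eq] at hS hT
    ext e
    by_cases he : e ∈ s
    · have := (h1 e he).symm.trans (h2 e he)
      rw [ofS_apply, ofS_apply, decide_eq_decide] at this
      exact this
    · exact ⟨fun h => absurd (hS.1 h) he, fun h => absurd (hT.1 h) he⟩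
  rw [h1, Finset.sum_filter]
  unfold Ex
  refine Finset.sum_congr rfl fun S hS => ?_
  by_cases h : ofS S ∈ A
  · rw [if_pos h, ind_of (A := fun S => ofS S ∈ A) h, mul_one,
      Pr_cyl p (Finset.mem_powerset.1 hS)]
  · rw [if_neg h, ind_of_not (A := fun S => ofS S ∈ A) h, mul_zero]

end Pool.Agent.H89.Perc

end

section

/-!
# Probability: basic facts about the product measure on configurations
-/

open MeasureTheory ProbabilityTheory unitInterval

namespace Pool.Agent.H89.Perc

open Pool.Agent.Perc (Ex ind ind_of ind_of_not ind_congr)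

variable {s t : Finset Edge} {A B : Set Config} {p q : I}

lemma LocalOn.mono (h : LocalOn s A) (hst : s ⊆ t) : LocalOn t A :=
  fun ω ω' hω hA => h ω ω' (fun e he => hω e (hst he)) hA

lemma LocalOn.compl (h : LocalOn s A) : LocalOn s Aᶜ :=
  fun ω ω' hω hA hA' => hA (h ω' ω (fun e he => (hω e he).symm) hA')

lemma LocalOn.inter (hA : LocalOn s A) (hB : LocalOn s B) : LocalOn s (A ∩ B) :=
  fun ω ω' hω h => ⟨hA ω ω' hω h.1, hB ω ω' hω h.2⟩

lemma LocalOn.union (hA : LocalOn s A) (hB : LocalOn s B) : LocalOn s (A ∪ B) :=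
  fun ω ω' hω h => h.imp (hA ω ω' hω) (hB ω ω' hω)

lemma LocalOn.inter' [DecidableEq Edge] (hA : LocalOn s A) (hB : LocalOn t B) :
    LocalOn (s ∪ t) (A ∩ B) :=
  (hA.mono Finset.subset_union_left).inter (hB.mono Finset.subset_union_right)

lemma Incr.inter (hA : Incr A) (hB : Incr B) : Incr (A ∩ B) :=
  fun ω ω' hω h => ⟨hA ω ω' hω h.1, hB ω ω' hω h.2⟩

lemma Incr.union (hA : Incr A) (hB : Incr B) : Incr (A ∪ B) :=
  fun ω ω' hω h => h.imp (hA ω ω' hω) (hB ω ω' hω)

lemma Pr_nonneg : 0 ≤ Pr p A := measureReal_nonneg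

lemma Pr_le_one : Pr p A ≤ 1 := measureReal_le_one

lemma Pr_mono (h : A ⊆ B) : Pr p A ≤ Pr p B := measureReal_mono h

lemma Pr_union_le : Pr p (A ∪ B) ≤ Pr p A + Pr p B := measureReal_union_le A B

lemma Pr_univ : Pr p Set.univ = 1 := by simp [Pr]

theorem Pr_compl (h : LocalOn s A) : Pr p Aᶜ = 1 - Pr p A :=
  probReal_compl_eq_one_sub h.measurableSet

theorem LocalOn.ind_inter {t : Finset Edge} (h : LocalOn s A) {S : Finset Edge} (hst : s ⊆ t) :
    ind (fun S => ofS S ∈ A) S = ind (fun S => ofS S ∈ A) (S ∩ t) := by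
  refine ind_congr ⟨h _ _ fun e he => ?_, h _ _ fun e he => ?_⟩
  · rw [ofS_apply, ofS_apply, decide_eq_decide, Finset.mem_inter]
    exact ⟨fun x => ⟨x, hst he⟩, fun x => x.1⟩
  · rw [ofS_apply, ofS_apply, decide_eq_decide, Finset.mem_inter]
    exact ⟨fun x => x.1, fun x => ⟨x, hst he⟩⟩

lemma Pr_biUnion_le {ι : Type*} (F : Finset ι) (A : ι → Set Config) :
    Pr p (⋃ i ∈ F, A i) ≤ ∑ i ∈ F, Pr p (A i) := measureReal_biUnion_finset_le F A

/-- Events depending on disjoint sets of edges are independent. -/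
theorem Pr_inter_of_disjoint (hA : LocalOn s A) (hB : LocalOn t B) (hst : Disjoint s t) :
    Pr p (A ∩ B) = Pr p A * Pr p B := by
  rw [Pr_eq_Ex (LocalOn.inter' hA hB), Pr_eq_Ex (hA.mono (Finset.subset_union_left (s₂ := t))),
    Pr_eq_Ex (hB.mono (Finset.subset_union_right (s₁ := s))),
    ← Pool.Agent.Perc.Ex_mul_of_disjoint (Finset.subset_union_left) (Finset.subset_union_right) hst
      (fun S _ => hA.ind_inter Finset.Subset.rfl) (fun S _ => hB.ind_inter Finset.Subset.rfl)]
  refine Pool.Agent.Perc.Ex_congr fun S _ => ?_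
  rw [Pool.Agent.Perc.ind_mul]
  rfl

/-- Relabelling the edges does not change probabilities. -/
theorem Pr_comp (hA : LocalOn s A) {φ : Edge → Edge} (hφ : Set.InjOn φ s) :
    Pr p {ω | (fun e => ω (φ e)) ∈ A} = Pr p A := by
  have hl : LocalOn (s.image φ) {ω | (fun e => ω (φ e)) ∈ A} := by
    intro ω ω' h hA'
    exact hA _ _ (fun e he => h _ (Finset.mem_image_of_mem φ he)) hA'
  rw [Pr_eq_Ex hl, Pr_eq_Ex hA, Pool.Agent.Perc.Ex_image φ hφ]
  refine Pool.Agent.Perc.Ex_congr fun S hS => ind_congr ?_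
  have key : ∀ e ∈ s, ofS (S.image φ) (φ e) = ofS S e := by
    intro e he
    rw [ofS_apply, ofS_apply, decide_eq_decide, Finset.mem_image]
    constructor
    · rintro ⟨x, hx, hxe⟩
      rwa [← hφ (hS hx) he hxe]
    · intro h; exact ⟨e, h, rfl⟩
  exact ⟨hA _ _ key, hA _ _ fun e he => (key e he).symm⟩

/-- Relabelling the edges and exchanging open and closed turns `p` into `1 - p`. -/
theorem Pr_comp_not (hA : LocalOn s A) {φ : Edge → Edge} (hφ : Set.InjOn φ s) :
    Pr p {ω | (fun e => !ω (φ e)) ∈ A} = Pr (σ p) A := by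
  have hl : LocalOn (s.image φ) {ω | (fun e => !ω (φ e)) ∈ A} := by
    intro ω ω' h hA'
    exact hA _ _ (fun e he => by rw [h _ (Finset.mem_image_of_mem φ he)]) hA'
  rw [Pr_eq_Ex hl, Pr_eq_Ex hA, Pool.Agent.Perc.Ex_image φ hφ, Pool.Agent.Perc.Ex_compl]
  rw [show ((σ p : I) : ℝ) = 1 - (p : ℝ) from rfl]
  refine Pool.Agent.Perc.Ex_congr fun S hS => ind_congr ?_
  have key : ∀ e ∈ s, (!ofS ((s \ S).image φ) (φ e)) = ofS S e := by
    intro e he
    have : φ e ∈ (s \ S).image φ ↔ e ∉ S := by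
      rw [Finset.mem_image]
      constructor
      · rintro ⟨x, hx, hxe⟩
        rw [Finset.mem_sdiff] at hx
        rw [← hφ hx.1 he hxe]
        exact hx.2
      · intro h; exact ⟨e, Finset.mem_sdiff.2 ⟨he, h⟩, rfl⟩
    rw [ofS_apply, ofS_apply]
    by_cases h : e ∈ S <;> simp [this, h]
  exact ⟨hA _ _ key, hA _ _ fun e he => (key e he).symm⟩

/-- Duality. -/
theorem crossed_injective : Function.Injective crossed := by
  rintro ⟨x, y, b⟩ ⟨x', y', b'⟩ h
  cases b <;> cases b' <;> simp_all [crossed]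

theorem Pr_dual (hA : LocalOn s A) : Pr p {ω | dual ω ∈ A} = Pr (σ p) A :=
  Pr_comp_not hA (crossed_injective.injOn)

/-- Two-value formula: conditioning on one edge. -/
theorem LocalOn.update (hA : LocalOn s A) (e : Edge) (b : Bool) :
    LocalOn (s.erase e) {ω | Function.update ω e b ∈ A} := by
  intro ω ω' h hA'
  refine hA _ _ (fun x hx => ?_) hA'
  by_cases hxe : x = e
  · subst hxe; simp
  · rw [Function.update_of_ne hxe, Function.update_of_ne hxe]
    exact h x (Finset.mem_erase.2 ⟨hxe, hx⟩)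

theorem update_ofS_true (S : Finset Edge) (e : Edge) :
    Function.update (ofS S) e true = ofS (insert e S) := by
  funext x
  by_cases hxe : x = e
  · subst hxe; simp [ofS]
  · rw [Function.update_of_ne hxe]; simp [ofS, hxe]

theorem update_ofS_false (S : Finset Edge) (e : Edge) :
    Function.update (ofS S) e false = ofS (S.erase e) := by
  funext x
  by_cases hxe : x = e
  · subst hxe; simp [ofS]
  · rw [Function.update_of_ne hxe]; simp [ofS, hxe]

theorem Pr_update_true (hA : LocalOn s A) (e : Edge) :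
    Pr p {ω | Function.update ω e true ∈ A}
      = Ex (p : ℝ) (s.erase e) (fun S => ind (fun S => ofS S ∈ A) (insert e S)) := by
  rw [Pr_eq_Ex (hA.update e true)]
  refine Pool.Agent.Perc.Ex_congr fun S _ => ind_congr ?_
  rw [Set.mem_ofPred_eq, update_ofS_true]

theorem Pr_update_false (hA : LocalOn s A) (e : Edge) :
    Pr p {ω | Function.update ω e false ∈ A}
      = Ex (p : ℝ) (s.erase e) (ind (fun S => ofS S ∈ A)) := by
  rw [Pr_eq_Ex (hA.update e false)]
  refine Pool.Agent.Perc.Ex_congr fun S hS => ind_congr ?_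
  rw [Set.mem_ofPred_eq, update_ofS_false, Finset.erase_eq_of_notMem]
  intro h
  exact Finset.notMem_erase e s (hS h)

theorem Pr_eq_update (hA : LocalOn s A) (e : Edge) :
    Pr p A = p * Pr p {ω | Function.update ω e true ∈ A} +
      (1 - p) * Pr p {ω | Function.update ω e false ∈ A} := by
  have hA' : LocalOn (insert e s) A := hA.mono (Finset.subset_insert e s)
  rw [Pr_update_true hA', Pr_update_false hA', Pr_eq_Ex hA',
    Pool.Agent.Perc.Ex_erase (Finset.mem_insert_self e s)]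

/-- The influence of an edge as a finite expectation of a discrete derivative. -/
theorem pivot_eq_Ex (hA : LocalOn s A) {e : Edge} (he : e ∈ s) :
    pivot p A e = Ex (p : ℝ) s (Pool.Agent.Perc.DD e (ind (fun S => ofS S ∈ A))) := by
  rw [pivot, Pr_update_true hA, Pr_update_false hA, Pool.Agent.Perc.Ex_DD he]

/-- All edges with first endpoint in the rectangle `[a, b] × [c, d]`. -/
noncomputable def eRect (a b c d : ℤ) : Finset Edge := Finset.Icc a b ×ˢ Finset.Icc c d ×ˢ Finset.univ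

lemma mem_eRect {a b c d : ℤ} {e : Edge} :
    e ∈ eRect a b c d ↔ src e ∈ rect a b c d := by
  simp only [eRect, Finset.mem_product, Finset.mem_Icc, Finset.mem_univ, and_true, src, rect,
    Set.mem_ofPred_eq]
  tauto

lemma localOn_conn {a b c d : ℤ} (u v : Vert) :
    LocalOn (eRect a b c d) {ω | Conn ω (rect a b c d) u v} := by
  intro ω ω' h hc
  exact Conn.congr (fun e he _ => h e (mem_eRect.2 he)) hc

lemma incr_conn (S : Set Vert) (u v : Vert) : Incr {ω | Conn ω S u v} :=
  fun _ _ h hc => Conn.mono le_rfl h hc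

theorem LocalOn.dual' (hA : LocalOn s A) : LocalOn (s.image crossed) {ω | dual ω ∈ A} := by
  intro ω ω' h hA'
  refine hA _ _ (fun e he => ?_) hA'
  simp only [dual]
  rw [h _ (Finset.mem_image_of_mem _ he)]

/-- Decreasing in `ω` when increasing in the dual configuration. -/
lemma Incr.dual_compl (hA : Incr A) : Incr {ω | dual ω ∈ A}ᶜ := by
  intro ω ω' h hA' hA''
  refine hA' (hA _ _ (fun e he => ?_) hA'')
  simp only [dual, Bool.not_eq_true'] at he ⊢
  by_contra hc
  rw [Bool.not_eq_false] at hc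
  rw [h _ hc] at he
  exact absurd he (by decide)

theorem localOn_arm (v : Vert) (r : ℕ) :
    LocalOn (eRect (v.1 - r) (v.1 + r) (v.2 - r) (v.2 + r)) (Arm v r) := by
  intro ω ω' h ⟨u, hu, hc⟩
  exact ⟨u, hu, Conn.congr (fun e he _ => h e (mem_eRect.2 he)) hc⟩

theorem incr_arm (v : Vert) (r : ℕ) : Incr (Arm v r) := by
  rintro ω ω' h ⟨u, hu, hc⟩
  exact ⟨u, hu, Conn.mono le_rfl h hc⟩

theorem localOn_armBox (v : Vert) (k r : ℕ) :
    LocalOn (eRect (v.1 - r) (v.1 + r) (v.2 - r) (v.2 + r)) (ArmBox v k r) := by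
  intro ω ω' h ⟨w, hw, u, hu, hc⟩
  exact ⟨w, hw, u, hu, Conn.congr (fun e he _ => h e (mem_eRect.2 he)) hc⟩

theorem incr_armBox (v : Vert) (k r : ℕ) : Incr (ArmBox v k r) := by
  rintro ω ω' h ⟨w, hw, u, hu, hc⟩
  exact ⟨w, hw, u, hu, Conn.mono le_rfl h hc⟩

/-- Translation of vertices, edges. -/
def shiftE (z : Vert) (e : Edge) : Edge := (e.1 + z.1, e.2.1 + z.2, e.2.2)

/-- Image of a path under a map of vertices. -/
theorem Conn.map {ω ω' : Config} {S T : Set Vert} {u v : Vert} (f : Vert → Vert)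
    (hf : ∀ w ∈ S, f w ∈ T)
    (hstep : ∀ e a b, Joins e a b → ω e = true → ∃ e', Joins e' (f a) (f b) ∧ ω' e' = true)
    (h : Conn ω S u v) : Conn ω' T (f u) (f v) := by
  refine ⟨hf u h.1, ?_⟩
  obtain ⟨_, h2⟩ := h
  refine Relation.ReflTransGen.lift f ?_ _ _ h2
  rintro a b ⟨ha, hb, e, he, ho⟩
  exact ⟨hf a ha, hf b hb, hstep e a b he ho⟩

theorem joins_shift (z : Vert) {e : Edge} {a b : Vert} (h : Joins e a b) :
    Joins (shiftE z e) (a.1 + z.1, a.2 + z.2) (b.1 + z.1, b.2 + z.2) := by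
  obtain ⟨x, y, t⟩ := e
  rcases h with ⟨h1, h2⟩ | ⟨h1, h2⟩
  · left
    subst h1 h2
    cases t
    · refine ⟨rfl, ?_⟩
      simp only [tgt, shiftE]
      ext <;> (simp; try ring)
    · refine ⟨rfl, ?_⟩
      simp only [tgt, shiftE]
      ext <;> (simp; try ring)
  · right
    subst h1 h2
    cases t
    · refine ⟨?_, rfl⟩
      simp only [tgt, shiftE]
      ext <;> (simp; try ring)
    · refine ⟨?_, rfl⟩
      simp only [tgt, shiftE]
      ext <;> (simp; try ring)

theorem shiftE_neg (z : Vert) (e : Edge) : shiftE z (shiftE (-z) e) = e := by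
  obtain ⟨x, y, t⟩ := e
  simp [shiftE]

theorem shiftE_injective (z : Vert) : Function.Injective (shiftE z) := by
  rintro ⟨x, y, t⟩ ⟨x', y', t'⟩ h
  simpa [shiftE] using h

theorem conn_shift {ω : Config} (z : Vert) (S : Set Vert) (u v : Vert) :
    Conn (fun e => ω (shiftE z e)) S u v ↔
      Conn ω {w | (w.1 - z.1, w.2 - z.2) ∈ S} (u.1 + z.1, u.2 + z.2) (v.1 + z.1, v.2 + z.2) := by
  constructor
  · intro h
    refine h.map (fun w => (w.1 + z.1, w.2 + z.2)) ?_ ?_
    · intro w hw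
      simpa using hw
    · intro e a b he ho
      exact ⟨shiftE z e, joins_shift z he, ho⟩
  · intro h
    have := h.map (ω' := fun e => ω (shiftE z e)) (T := S) (fun w => (w.1 - z.1, w.2 - z.2))
      (fun w hw => hw) ?_
    · simpa using this
    · intro e a b he ho
      refine ⟨shiftE (-z) e, ?_, ?_⟩
      · have := joins_shift (-z) he
        simpa [sub_eq_add_neg] using this
      · rw [shiftE_neg]; exact ho

theorem arm_shift (v : Vert) (r : ℕ) :
    {ω : Config | (fun e => ω (shiftE v e)) ∈ Arm 0 r} = Arm v r := by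
  ext ω
  simp only [Arm, Set.mem_ofPred_eq]
  have hb : {w : Vert | (w.1 - v.1, w.2 - v.2) ∈ ball 0 r} = ball v r := by
    ext w
    simp only [Set.mem_ofPred_eq, mem_ball, Prod.fst_zero, Prod.snd_zero]
    omega
  constructor
  · rintro ⟨u, hu, hc⟩
    rw [conn_shift, hb] at hc
    refine ⟨(u.1 + v.1, u.2 + v.2), ⟨hc.mem_right, ?_⟩, by simpa using hc⟩
    have := hu.2
    simp only [Prod.fst_zero, Prod.snd_zero] at this ⊢
    omega
  · rintro ⟨u, hu, hc⟩
    refine ⟨(u.1 - v.1, u.2 - v.2), ⟨?_, ?_⟩, ?_⟩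
    · have := hu.1
      simp only [mem_ball, Prod.fst_zero, Prod.snd_zero] at this ⊢
      omega
    · have := hu.2
      simp only [Prod.fst_zero, Prod.snd_zero] at this ⊢
      omega
    · rw [conn_shift, hb]
      simpa using hc

/-- Translation invariance of one-arm probabilities. -/
theorem Pr_arm (v : Vert) (r : ℕ) : Pr p (Arm v r) = arm p r := by
  rw [← arm_shift v r, Pr_comp (localOn_arm 0 r) (shiftE_injective v).injOn, arm]

theorem armBox_shift (v : Vert) (k r : ℕ) :
    {ω : Config | (fun e => ω (shiftE v e)) ∈ ArmBox 0 k r} = ArmBox v k r := by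
  ext ω
  simp only [ArmBox, Set.mem_ofPred_eq]
  have hb : {w : Vert | (w.1 - v.1, w.2 - v.2) ∈ ball 0 r} = ball v r := by
    ext w
    simp only [Set.mem_ofPred_eq, mem_ball, Prod.fst_zero, Prod.snd_zero]
    omega
  constructor
  · rintro ⟨w, hw, u, hu, hc⟩
    rw [conn_shift, hb] at hc
    refine ⟨(w.1 + v.1, w.2 + v.2), ?_, (u.1 + v.1, u.2 + v.2), ⟨hc.mem_right, ?_⟩, hc⟩
    · simp only [mem_ball, Prod.fst_zero, Prod.snd_zero] at hw ⊢
      omega
    · have := hu.2
      simp only [Prod.fst_zero, Prod.snd_zero] at this ⊢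
      omega
  · rintro ⟨w, hw, u, hu, hc⟩
    refine ⟨(w.1 - v.1, w.2 - v.2), ?_, (u.1 - v.1, u.2 - v.2), ⟨?_, ?_⟩, ?_⟩
    · simp only [mem_ball, Prod.fst_zero, Prod.snd_zero] at hw ⊢
      omega
    · have := hu.1
      simp only [mem_ball, Prod.fst_zero, Prod.snd_zero] at this ⊢
      omega
    · have := hu.2
      simp only [Prod.fst_zero, Prod.snd_zero] at this ⊢
      omega
    · rw [conn_shift, hb]
      simpa using hc

theorem Pr_armBox (v : Vert) (k r : ℕ) : Pr p (ArmBox v k r) = Pr p (ArmBox 0 k r) := by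
  rw [← armBox_shift v k r, Pr_comp (localOn_armBox 0 k r) (shiftE_injective v).injOn]

theorem Pr_dual_arm (v : Vert) (r : ℕ) : Pr p {ω | dual ω ∈ Arm v r} = arm (σ p) r := by
  rw [Pr_dual (localOn_arm v r), Pr_arm]

/-- The one-arm probability is nonincreasing in the radius. -/
theorem arm_antitone {r r' : ℕ} (h : r ≤ r') : arm p r' ≤ arm p r := by
  refine Pr_mono ?_
  rintro ω ⟨u, hu, hc⟩
  refine hc.mem_arm ?_
  have h0 : ((0 : Vert).1) = 0 := rfl
  have h1 : ((0 : Vert).2) = 0 := rfl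
  obtain ⟨hb, hs⟩ := hu
  simp only [mem_ball, h0, h1] at hb hs
  rw [h0, h1]
  rcases abs_cases (u.1 - 0) with h3 | h3 <;> rcases abs_cases (u.2 - 0) with h4 | h4 <;> omega

theorem arm_zero : arm p 0 = 1 := by
  have : Arm 0 0 = Set.univ := by
    refine Set.eq_univ_of_forall fun ω => ⟨0, ⟨self_mem_ball, Or.inl (by simp)⟩,
      Conn.refl self_mem_ball⟩
  rw [arm, this, Pr_univ]

lemma arm_nonneg {r : ℕ} : 0 ≤ arm p r := Pr_nonneg

lemma arm_le_one {r : ℕ} : arm p r ≤ 1 := Pr_le_one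

end Pool.Agent.H89.Perc

end

section

/-!
# Harris (FKG) inequality for local events
-/

open MeasureTheory ProbabilityTheory unitInterval

namespace Pool.Agent.H89.Perc

open Pool.Agent.Perc (Ex ind ind_of ind_of_not ind_congr ind_mul ind_le_ind MonoOnF AntiOnF)

variable {s t : Finset Edge} {A B : Set Config} {p q : I}

theorem Incr.monoOnF (iA : Incr A) (s : Finset Edge) :
    MonoOnF s (ind (fun S => ofS S ∈ A)) :=
  fun _ _ hST _ => ind_le_ind (iA _ _ (ofS_mono hST))

theorem Incr.antiOnF (iA : Incr Aᶜ) (s : Finset Edge) :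
    AntiOnF s (ind (fun S => ofS S ∈ A)) := by
  intro S T hST _
  refine ind_le_ind fun h => ?_
  by_contra hc
  exact iA (ofS S) (ofS T) (ofS_mono hST) hc h

theorem Pr_inter_eq_Ex (hA : LocalOn s A) (hB : LocalOn t B) :
    Pr p (A ∩ B) = Ex (p : ℝ) (s ∪ t)
      (fun S => ind (fun S => ofS S ∈ A) S * ind (fun S => ofS S ∈ B) S) := by
  rw [Pr_eq_Ex (LocalOn.inter' hA hB)]
  refine Pool.Agent.Perc.Ex_congr fun S _ => ?_
  rw [ind_mul]
  rfl

/-- Harris inequality for two increasing local events. -/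
theorem fkg (hA : LocalOn s A) (hB : LocalOn t B) (iA : Incr A) (iB : Incr B) :
    Pr p A * Pr p B ≤ Pr p (A ∩ B) := by
  rw [Pr_inter_eq_Ex hA hB, Pr_eq_Ex (hA.mono (Finset.subset_union_left (s₂ := t))),
    Pr_eq_Ex (hB.mono (Finset.subset_union_right (s₁ := s)))]
  exact Pool.Agent.Perc.harris p.2.1 p.2.2 (iA.monoOnF _) (iB.monoOnF _)

/-- Harris inequality for two decreasing local events. -/
theorem fkg_decr (hA : LocalOn s A) (hB : LocalOn t B) (iA : Incr Aᶜ) (iB : Incr Bᶜ) :
    Pr p A * Pr p B ≤ Pr p (A ∩ B) := by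
  rw [Pr_inter_eq_Ex hA hB, Pr_eq_Ex (hA.mono (Finset.subset_union_left (s₂ := t))),
    Pr_eq_Ex (hB.mono (Finset.subset_union_right (s₁ := s)))]
  exact Pool.Agent.Perc.harris_anti p.2.1 p.2.2 (iA.antiOnF _) (iB.antiOnF _)

/-- Harris inequality: an increasing and a decreasing local event are negatively correlated. -/
theorem fkg_mixed (hA : LocalOn s A) (hB : LocalOn t B) (iA : Incr A) (iB : Incr Bᶜ) :
    Pr p (A ∩ B) ≤ Pr p A * Pr p B := by
  rw [Pr_inter_eq_Ex hA hB, Pr_eq_Ex (hA.mono (Finset.subset_union_left (s₂ := t))),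
    Pr_eq_Ex (hB.mono (Finset.subset_union_right (s₁ := s)))]
  exact Pool.Agent.Perc.harris_mono_anti p.2.1 p.2.2 (iA.monoOnF _) (iB.antiOnF _)

/-- The probability of an increasing local event is nondecreasing in the density. -/
theorem Pr_mono_param (hA : LocalOn s A) (iA : Incr A) (hpq : p ≤ q) : Pr p A ≤ Pr q A := by
  rw [Pr_eq_Ex hA, Pr_eq_Ex hA]
  exact Pool.Agent.Perc.Ex_mono_p p.2.1 hpq q.2.2 (iA.monoOnF _)

theorem arm_mono_param (r : ℕ) (hpq : p ≤ q) : arm p r ≤ arm q r :=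
  Pr_mono_param (localOn_arm 0 r) (incr_arm 0 r) hpq

end Pool.Agent.H89.Perc

end

section

/-!
# Russo's formula, integrated form of a sharp threshold inequality
-/

open MeasureTheory ProbabilityTheory unitInterval

namespace Pool.Agent.H89.Perc

open Pool.Agent.Perc (Ex ind)

variable {s : Finset Edge} {A : Set Config}

/-- The polynomial `q ↦ P_q(A)` on the whole real line. -/
noncomputable def PrR (s : Finset Edge) (A : Set Config) (q : ℝ) : ℝ :=
  Ex q s (ind (fun S => ofS S ∈ A))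

theorem Pr_eq_PrR (hA : LocalOn s A) (p : I) : Pr p A = PrR s A (p : ℝ) := Pr_eq_Ex hA p

/-- Russo's formula. -/
theorem hasDerivAt_PrR (hA : LocalOn s A) (q : I) :
    HasDerivAt (PrR s A) (∑ e ∈ s, pivot q A e) (q : ℝ) := by
  have h := Pool.Agent.Perc.hasDerivAt_Ex s (ind (fun S => ofS S ∈ A)) (q : ℝ)
  rw [Finset.sum_congr rfl fun e he => pivot_eq_Ex (p := q) hA he]
  exact h

/-- If the variance of the indicator of an increasing local event is bounded by `δ / 2` times the
sum of its influences (which by Russo's formula is the derivative of the probability) for all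
densities between `p₀` and `p₁`, then the probability passes from `p₀` to `p₁` rapidly from
small to large values. -/
theorem threshold (hA : LocalOn s A) (iA : Incr A) {p₀ p₁ : I} (h0 : 0 < (p₀ : ℝ))
    (h01 : p₀ ≤ p₁) (h1 : (p₁ : ℝ) < 1) {δ : ℝ} (hδ : 0 < δ)
    (hvar : ∀ q : I, p₀ ≤ q → q ≤ p₁ →
      Pr q A * (1 - Pr q A) ≤ δ / 2 * ∑ e ∈ s, pivot q A e) :
    Pr p₀ A * (1 - Pr p₁ A) ≤ Real.exp (-2 * ((p₁ : ℝ) - p₀) / δ) := by
  have h01' : (p₀ : ℝ) ≤ p₁ := h01
  rcases (Pr_nonneg (p := p₀) (A := A)).eq_or_lt with hz | hpos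
  · rw [← hz, zero_mul]; exact (Real.exp_pos _).le
  rcases (Pr_le_one (p := p₁) (A := A)).eq_or_lt with hz | hlt
  · rw [hz, sub_self, mul_zero]; exact (Real.exp_pos _).le
  -- on the interval the probability is in `(0, 1)`
  have hbd : ∀ x ∈ Set.Icc (p₀ : ℝ) p₁, 0 < PrR s A x ∧ PrR s A x < 1 := by
    intro x hx
    have hxI : x ∈ I := ⟨p₀.2.1.trans hx.1, hx.2.trans p₁.2.2⟩
    have e1 := Pr_mono_param (p := p₀) (q := ⟨x, hxI⟩) hA iA hx.1
    have e2 := Pr_mono_param (p := ⟨x, hxI⟩) (q := p₁) hA iA hx.2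
    rw [Pr_eq_PrR hA (⟨x, hxI⟩ : I)] at e1 e2
    exact ⟨hpos.trans_le e1, lt_of_le_of_lt e2 hlt⟩
  -- the logit
  set g : ℝ → ℝ := fun x => Real.log (PrR s A x) - Real.log (1 - PrR s A x) - 2 / δ * x with hg
  have hder : ∀ x ∈ Set.Icc (p₀ : ℝ) p₁, ∃ d, HasDerivAt g d x ∧ 0 ≤ d := by
    intro x hx
    have hxI : x ∈ I := ⟨p₀.2.1.trans hx.1, hx.2.trans p₁.2.2⟩
    obtain ⟨b1, b2⟩ := hbd x hx
    have hd := hasDerivAt_PrR hA ⟨x, hxI⟩
    set D := ∑ e ∈ s, pivot ⟨x, hxI⟩ A e with hD
    have h3 : HasDerivAt (PrR s A) D x := hd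
    have h4 := h3.log b1.ne'
    have h5 := (h3.const_sub 1).log (by linarith : (1 : ℝ) - PrR s A x ≠ 0)
    have h6 := ((hasDerivAt_id x).const_mul (2 / δ))
    refine ⟨_, (h4.sub h5).sub h6, ?_⟩
    have hv := hvar ⟨x, hxI⟩ hx.1 hx.2
    rw [Pr_eq_PrR hA] at hv
    have hv' : PrR s A x * (1 - PrR s A x) ≤ δ / 2 * D := hv
    have hpp : 0 < PrR s A x * (1 - PrR s A x) := mul_pos b1 (by linarith)
    have e1 : D / PrR s A x - -D / (1 - PrR s A x)
        = D / (PrR s A x * (1 - PrR s A x)) := by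
      have : (1 : ℝ) - PrR s A x ≠ 0 := by linarith
      field_simp
      ring
    simp only [mul_one]
    rw [e1, sub_nonneg, le_div_iff₀ hpp]
    calc 2 / δ * (PrR s A x * (1 - PrR s A x)) ≤ 2 / δ * (δ / 2 * D) :=
          mul_le_mul_of_nonneg_left hv' (by positivity)
      _ = D := by field_simp
  have hmono : MonotoneOn g (Set.Icc (p₀ : ℝ) p₁) := by
    refine monotoneOn_of_deriv_nonneg (convex_Icc _ _) ?_ ?_ ?_
    · intro x hx
      obtain ⟨d, hd, _⟩ := hder x hx
      exact hd.continuousAt.continuousWithinAt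
    · intro x hx
      rw [interior_Icc] at hx
      obtain ⟨d, hd, _⟩ := hder x ⟨hx.1.le, hx.2.le⟩
      exact hd.differentiableAt.differentiableWithinAt
    · intro x hx
      rw [interior_Icc] at hx
      obtain ⟨d, hd, h⟩ := hder x ⟨hx.1.le, hx.2.le⟩
      rw [hd.deriv]; exact h
  have key := hmono ⟨le_rfl, h01'⟩ ⟨h01', le_rfl⟩ h01'
  obtain ⟨a1, a2⟩ := hbd p₀ ⟨le_rfl, h01'⟩
  obtain ⟨b1, b2⟩ := hbd p₁ ⟨h01', le_rfl⟩
  rw [Pr_eq_PrR hA, Pr_eq_PrR hA]
  set x := PrR s A p₀ with hx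
  set y := PrR s A p₁ with hy
  have hk : Real.log x - Real.log (1 - x) - 2 / δ * p₀
      ≤ Real.log y - Real.log (1 - y) - 2 / δ * p₁ := key
  have hlx : Real.log (1 - x) ≤ 0 := Real.log_nonpos (by linarith) (by linarith)
  have hly : Real.log y ≤ 0 := Real.log_nonpos b1.le b2.le
  have h7 : Real.log (x * (1 - y)) ≤ -2 * ((p₁ : ℝ) - p₀) / δ := by
    rw [Real.log_mul a1.ne' (by linarith : (1 : ℝ) - y ≠ 0)]
    have : -2 * ((p₁ : ℝ) - p₀) / δ = 2 / δ * p₀ - 2 / δ * p₁ := by ring
    rw [this]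
    linarith
  have h8 : 0 < x * (1 - y) := mul_pos a1 (by linarith)
  calc x * (1 - y) = Real.exp (Real.log (x * (1 - y))) := (Real.exp_log h8).symm
    _ ≤ _ := Real.exp_le_exp.2 h7

end Pool.Agent.H89.Perc

end

section

/-!
# Symmetries of crossing probabilities
-/

open MeasureTheory ProbabilityTheory unitInterval

namespace Pool.Agent.H89.Perc

variable {p : I} {ω : Config} {a b c d : ℤ}

lemma localOn_hcross (a b c d : ℤ) : LocalOn (eRect a b c d) {ω | HCross ω a b c d} := by
  rintro ω ω' h ⟨u, v, hu, hv, hc⟩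
  exact ⟨u, v, hu, hv, Conn.congr (fun e he _ => h e (mem_eRect.2 he)) hc⟩

lemma localOn_vcross (a b c d : ℤ) : LocalOn (eRect a b c d) {ω | VCross ω a b c d} := by
  rintro ω ω' h ⟨u, v, hu, hv, hc⟩
  exact ⟨u, v, hu, hv, Conn.congr (fun e he _ => h e (mem_eRect.2 he)) hc⟩

lemma incr_hcross (a b c d : ℤ) : Incr {ω | HCross ω a b c d} := by
  rintro ω ω' h ⟨u, v, hu, hv, hc⟩
  exact ⟨u, v, hu, hv, Conn.mono le_rfl h hc⟩

lemma incr_vcross (a b c d : ℤ) : Incr {ω | VCross ω a b c d} := by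
  rintro ω ω' h ⟨u, v, hu, hv, hc⟩
  exact ⟨u, v, hu, hv, Conn.mono le_rfl h hc⟩

/-- A crossing of a long rectangle contains a crossing of a shorter and higher one. -/
theorem HCross.mono {a' b' c' d' : ℤ} (h : HCross ω a b c d) (ha : a ≤ a') (hab : a' ≤ b')
    (hb : b' ≤ b) (hc : c' ≤ c) (hd : d ≤ d') : HCross ω a' b' c' d' := by
  obtain ⟨u, v, hu, hv, h⟩ := h
  obtain ⟨u', v', hu', hv', h1, -, -⟩ := h.cross_x (a := a') (b := b') (by omega) (by omega) hab
  refine ⟨u', v', hu', hv', h1.mono_set ?_⟩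
  intro w hw
  simp only [rect, Set.mem_inter_iff, Set.mem_ofPred_eq] at hw ⊢
  omega

theorem VCross.mono {a' b' c' d' : ℤ} (h : VCross ω a b c d) (ha : a' ≤ a)
    (hb : b ≤ b') (hc : c ≤ c') (hcd : c' ≤ d') (hd : d' ≤ d) : VCross ω a' b' c' d' := by
  obtain ⟨u, v, hu, hv, h⟩ := h
  obtain ⟨u', v', hu', hv', h1, -, -⟩ := h.cross_y (a := c') (b := d') (by omega) (by omega) hcd
  refine ⟨u', v', hu', hv', h1.mono_set ?_⟩
  intro w hw
  simp only [rect, Set.mem_inter_iff, Set.mem_ofPred_eq] at hw ⊢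
  omega

theorem hcross_shift (x y : ℤ) : HCross (fun e => ω (shiftE (x, y) e)) a b c d ↔
    HCross ω (a + x) (b + x) (c + y) (d + y) := by
  have hb : {w : Vert | (w.1 - (x, y).1, w.2 - (x, y).2) ∈ rect a b c d}
      = rect (a + x) (b + x) (c + y) (d + y) := by
    ext w
    simp only [Set.mem_ofPred_eq, rect]
    omega
  constructor
  · rintro ⟨u, v, hu, hv, h⟩
    rw [conn_shift, hb] at h
    exact ⟨_, _, by simp [hu], by simp [hv], h⟩
  · rintro ⟨u, v, hu, hv, h⟩
    refine ⟨(u.1 - x, u.2 - y), (v.1 - x, v.2 - y), by simp [hu], by simp [hv], ?_⟩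
    rw [conn_shift, hb]
    simpa using h

theorem vcross_shift (x y : ℤ) : VCross (fun e => ω (shiftE (x, y) e)) a b c d ↔
    VCross ω (a + x) (b + x) (c + y) (d + y) := by
  have hb : {w : Vert | (w.1 - (x, y).1, w.2 - (x, y).2) ∈ rect a b c d}
      = rect (a + x) (b + x) (c + y) (d + y) := by
    ext w
    simp only [Set.mem_ofPred_eq, rect]
    omega
  constructor
  · rintro ⟨u, v, hu, hv, h⟩
    rw [conn_shift, hb] at h
    exact ⟨_, _, by simp [hu], by simp [hv], h⟩
  · rintro ⟨u, v, hu, hv, h⟩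
    refine ⟨(u.1 - x, u.2 - y), (v.1 - x, v.2 - y), by simp [hu], by simp [hv], ?_⟩
    rw [conn_shift, hb]
    simpa using h

theorem Pr_hcross_translate (x y : ℤ) :
    Pr p {ω | HCross ω (a + x) (b + x) (c + y) (d + y)} = Pr p {ω | HCross ω a b c d} := by
  rw [← Pr_comp (localOn_hcross a b c d) (shiftE_injective (x, y)).injOn]
  congr 1
  ext ω
  exact (hcross_shift x y).symm

theorem Pr_vcross_translate (x y : ℤ) :
    Pr p {ω | VCross ω (a + x) (b + x) (c + y) (d + y)} = Pr p {ω | VCross ω a b c d} := by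
  rw [← Pr_comp (localOn_vcross a b c d) (shiftE_injective (x, y)).injOn]
  congr 1
  ext ω
  exact (vcross_shift x y).symm

/-- Paths under an involutive symmetry of the lattice. -/
theorem conn_invol {φ : Edge → Edge} {f : Vert → Vert} (hφ : ∀ e, φ (φ e) = e)
    (hf : ∀ w, f (f w) = w) (hj : ∀ e a b, Joins e a b → Joins (φ e) (f a) (f b))
    (S : Set Vert) (u v : Vert) :
    Conn (fun e => ω (φ e)) S u v ↔ Conn ω {w | f w ∈ S} (f u) (f v) := by
  constructor
  · intro h
    refine h.map f ?_ fun e a b he ho => ⟨φ e, hj e a b he, ho⟩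
    intro w hw
    rw [Set.mem_ofPred_eq, hf]
    exact hw
  · intro h
    have := h.map (ω' := fun e => ω (φ e)) (T := S) f (fun w hw => hw)
      (fun e a b he ho => ⟨φ e, hj e a b he, by rw [hφ]; exact ho⟩)
    rwa [hf, hf] at this

/-- Reflection in the diagonal. -/
def swapE (e : Edge) : Edge := (e.2.1, e.1, !e.2.2)

theorem swapE_swapE (e : Edge) : swapE (swapE e) = e := by
  obtain ⟨x, y, t⟩ := e
  simp [swapE]

theorem joins_swap (e : Edge) (a b : Vert) (h : Joins e a b) :
    Joins (swapE e) (a.2, a.1) (b.2, b.1) := by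
  obtain ⟨x, y, t⟩ := e
  rcases h with ⟨h1, h2⟩ | ⟨h1, h2⟩
  · subst h1 h2
    left
    cases t <;> exact ⟨rfl, rfl⟩
  · subst h1 h2
    right
    cases t <;> exact ⟨rfl, rfl⟩

theorem conn_swap (S : Set Vert) (u v : Vert) :
    Conn (fun e => ω (swapE e)) S u v ↔ Conn ω {w | (w.2, w.1) ∈ S} (u.2, u.1) (v.2, v.1) :=
  conn_invol (f := fun w => (w.2, w.1)) swapE_swapE (fun _ => rfl) joins_swap S u v

/-- Reflection in the diagonal. -/
theorem vcross_swap : VCross (fun e => ω (swapE e)) c d a b ↔ HCross ω a b c d := by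
  have hb : {w : Vert | (w.2, w.1) ∈ rect c d a b} = rect a b c d := by
    ext w
    simp only [Set.mem_ofPred_eq, rect]
    omega
  constructor
  · rintro ⟨u, v, hu, hv, h⟩
    rw [conn_swap, hb] at h
    exact ⟨_, _, hu, hv, h⟩
  · rintro ⟨u, v, hu, hv, h⟩
    refine ⟨(u.2, u.1), (v.2, v.1), hu, hv, ?_⟩
    rw [conn_swap, hb]
    exact h

theorem swapE_injective : Function.Injective swapE :=
  Function.LeftInverse.injective swapE_swapE

/-- Reflection in the diagonal. -/
theorem Pr_vcross_eq_hcross : Pr p {ω | VCross ω c d a b} = Pr p {ω | HCross ω a b c d} := by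
  rw [← Pr_comp (localOn_vcross c d a b) swapE_injective.injOn]
  congr 1
  ext ω
  exact vcross_swap

/-- Reflection `x ↦ z - x`. -/
def reflX (z : ℤ) (e : Edge) : Edge := if e.2.2 then (z - e.1, e.2.1, true) else (z - 1 - e.1, e.2.1, false)

theorem reflX_reflX (z : ℤ) (e : Edge) : reflX z (reflX z e) = e := by
  obtain ⟨x, y, t⟩ := e
  cases t <;> simp [reflX]

theorem reflX_injective (z : ℤ) : Function.Injective (reflX z) :=
  Function.LeftInverse.injective (reflX_reflX z)

theorem joins_reflX (z : ℤ) (e : Edge) (a b : Vert) (h : Joins e a b) :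
    Joins (reflX z e) (z - a.1, a.2) (z - b.1, b.2) := by
  obtain ⟨x, y, t⟩ := e
  rcases h with ⟨h1, h2⟩ | ⟨h1, h2⟩
  · subst h1 h2
    cases t
    · right
      refine ⟨?_, ?_⟩ <;> ext <;> simp [reflX, src, tgt] <;> ring
    · left
      refine ⟨?_, ?_⟩ <;> ext <;> simp [reflX, src, tgt]
  · subst h1 h2
    cases t
    · left
      refine ⟨?_, ?_⟩ <;> ext <;> simp [reflX, src, tgt] <;> ring
    · right
      refine ⟨?_, ?_⟩ <;> ext <;> simp [reflX, src, tgt]

theorem conn_reflX (z : ℤ) (S : Set Vert) (u v : Vert) :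
    Conn (fun e => ω (reflX z e)) S u v ↔
      Conn ω {w | (z - w.1, w.2) ∈ S} (z - u.1, u.2) (z - v.1, v.2) :=
  conn_invol (f := fun w => (z - w.1, w.2)) (reflX_reflX z) (fun _ => by simp) (joins_reflX z) S u v

/-- Reflection `y ↦ z - y`. -/
def reflY (z : ℤ) (e : Edge) : Edge := if e.2.2 then (e.1, z - 1 - e.2.1, true) else (e.1, z - e.2.1, false)

theorem reflY_reflY (z : ℤ) (e : Edge) : reflY z (reflY z e) = e := by
  obtain ⟨x, y, t⟩ := e
  cases t <;> simp [reflY]

theorem reflY_injective (z : ℤ) : Function.Injective (reflY z) :=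
  Function.LeftInverse.injective (reflY_reflY z)

theorem joins_reflY (z : ℤ) (e : Edge) (a b : Vert) (h : Joins e a b) :
    Joins (reflY z e) (a.1, z - a.2) (b.1, z - b.2) := by
  obtain ⟨x, y, t⟩ := e
  rcases h with ⟨h1, h2⟩ | ⟨h1, h2⟩
  · subst h1 h2
    cases t
    · left
      refine ⟨?_, ?_⟩ <;> ext <;> simp [reflY, src, tgt]
    · right
      refine ⟨?_, ?_⟩ <;> ext <;> simp [reflY, src, tgt] <;> ring
  · subst h1 h2
    cases t
    · right
      refine ⟨?_, ?_⟩ <;> ext <;> simp [reflY, src, tgt]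
    · left
      refine ⟨?_, ?_⟩ <;> ext <;> simp [reflY, src, tgt] <;> ring

theorem conn_reflY (z : ℤ) (S : Set Vert) (u v : Vert) :
    Conn (fun e => ω (reflY z e)) S u v ↔
      Conn ω {w | (w.1, z - w.2) ∈ S} (u.1, z - u.2) (v.1, z - v.2) :=
  conn_invol (f := fun w => (w.1, z - w.2)) (reflY_reflY z) (fun _ => by simp) (joins_reflY z) S u v

end Pool.Agent.H89.Perc

end
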