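import Pool.Agent.H31.PT.M06
import Pool.Agent.H31.PT.M07

/-! The parts of this file: H13.SK.SigmaUp, H13.SK.BddLoc, H83.SK.P29.NoArm, H38.SK.N59.Defs, H38.SK.N59.Stage. -/

section

/-!
# Upper bound for the mean cluster size of site percolation at a scale where the other colour is
good
-/

set_option autoImplicit false

open MeasureTheory ProbabilityTheory unitInterval

namespace Pool.Agent.H13.SK

open Pool.Agent.H89.Perc Pool.Agent.H83.Site

/-- The site with coordinates `v`. -/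
def sit0 (v : ℤ × ℤ) : TV := (v.1, v.2, false)

/-- The origin is joined to `v`. -/
def C0 (v : ℤ × ℤ) : Set Config := {η | TConn η Set.univ (0, 0, false) (sit0 v)}

/-- Supremum norm. -/
def nrm (v : ℤ × ℤ) : ℕ := max v.1.natAbs v.2.natAbs

/-- Box of half side `n`. -/
noncomputable def bx (n : ℕ) : Finset (ℤ × ℤ) :=
  Finset.Icc (-(n : ℤ)) n ×ˢ Finset.Icc (-(n : ℤ)) n

theorem mem_bx {n : ℕ} {v : ℤ × ℤ} : v ∈ bx n ↔ nrm v ≤ n := by
  obtain ⟨x, y⟩ := v
  simp only [bx, Finset.mem_product, Finset.mem_Icc, nrm]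
  omega

theorem card_bx (n : ℕ) : (bx n).card = (2 * n + 1) ^ 2 := by
  rw [bx, Finset.card_product, Int.card_Icc, sq]
  have : ((n : ℤ) + 1 - -(n : ℤ)).toNat = 2 * n + 1 := by omega
  rw [this]

/-- Crossing of one of the four rectangles which form the annulus between half sides `n` and
`2 n`. -/
def F4 (n : ℕ) : Set Config :=
  (({η | VC η (-(2 * n)) (2 * n) (n + 1) (2 * n)} ∪
    {η | VC η (-(2 * n)) (2 * n) (-(2 * n)) (-n - 1)}) ∪
    {η | HC η (n + 1) (2 * n) (-(2 * n)) (2 * n)}) ∪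
    {η | HC η (-(2 * n)) (-n - 1) (-(2 * n)) (2 * n)}

theorem F4_of_conn {η : Config} {n : ℕ} (hn : 1 ≤ n) {v : ℤ × ℤ} (hv : 2 * n < nrm v)
    (h : η ∈ C0 v) : η ∈ F4 n := by
  have hc : TConn η Set.univ (0, 0, false) (sit0 v) := h
  have hu : ((0, 0, false) : TV) ∈ TR (-(2 * n)) (2 * n) (-(2 * n)) (2 * n) := by
    rw [mem_TR_site]; omega
  have hv' : sit0 v ∉ TR (-(2 * n)) (2 * n) (-(2 * n)) (2 * n) := by
    unfold sit0
    rw [mem_TR_site]
    unfold nrm at hv
    omega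
  obtain ⟨w, w', h1, h2, h3, -⟩ := hc.exists_exit hu hv'
  rw [Set.univ_inter] at h1
  have hw := h1.mem_right
  rw [mem_TR] at hw h3
  have hn' : (1 : ℤ) ≤ n := by exact_mod_cast hn
  have hw' : fx w = 2 * (2 * n) ∨ fx w = 2 * (-(2 * n)) ∨ fy w = 2 * (2 * n) ∨
      fy w = 2 * (-(2 * n)) := by
    by_contra hcon
    push Not at hcon
    obtain ⟨a1, a2, a3, a4⟩ := hcon
    have b1 := h2.2.2.1.fx_le (a := 2 * n) (by omega)
    have b2 := h2.2.2.1.le_fx (a := -(2 * n)) (by omega)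
    have b3 := h2.2.2.1.fy_le (a := 2 * n) (by omega)
    have b4 := h2.2.2.1.le_fy (a := -(2 * n)) (by omega)
    exact h3 ⟨b2, b1, b4, b3⟩
  rcases hw' with h4 | h4 | h4 | h4
  · left; right
    obtain ⟨y, y', h5, -, -⟩ := h1.cross_x (a := n + 1) (b := 2 * n)
      (by rw [fx_site]; omega) (by omega) (by omega)
    rw [TR_inter_x (by omega) (by omega)] at h5
    exact ⟨y, y', h5⟩
  · right
    obtain ⟨y, y', h5, -, -⟩ := h1.symm.cross_x (a := -(2 * n)) (b := -n - 1)
      (by omega) (by rw [fx_site]; omega) (by omega)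
    rw [TR_inter_x (by omega) (by omega)] at h5
    exact ⟨y, y', h5⟩
  · left; left; left
    obtain ⟨y, y', h5, -, -⟩ := h1.cross_y (c := n + 1) (d := 2 * n)
      (by rw [fy_site]; omega) (by omega) (by omega)
    rw [TR_inter_y (by omega) (by omega)] at h5
    exact ⟨y, y', h5⟩
  · left; left; right
    obtain ⟨y, y', h5, -, -⟩ := h1.symm.cross_y (c := -(2 * n)) (d := -n - 1)
      (by omega) (by rw [fy_site]; omega) (by omega)
    rw [TR_inter_y (by omega) (by omega)] at h5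
    exact ⟨y, y', h5⟩

/-- The coordinates of the annulus. -/
noncomputable def rg (n : ℕ) : Finset Edge :=
  (eRect (-(2 * n)) (2 * n) (-(2 * n)) (2 * n)) \ eRect (-n) n (-n) n

theorem localOn_F4 (n : ℕ) : LocalOn (rg n) (F4 n) := by
  classical
  have key : ∀ (a b c d : ℤ), -(2 * (n : ℤ)) ≤ a → b ≤ 2 * n → -(2 * (n : ℤ)) ≤ c → d ≤ 2 * n →
      (b < -n ∨ (n : ℤ) < a ∨ d < -n ∨ (n : ℤ) < c) → eRect a b c d ⊆ rg n := by
    intro a b c d h1 h2 h3 h4 h5 e he
    rw [rg, Finset.mem_sdiff, mem_eRect, mem_eRect]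
    rw [mem_eRect] at he
    simp only [rect, Set.mem_ofPred_eq, src] at he ⊢
    omega
  intro η η' h hη
  rcases hη with ((hη | hη) | hη) | hη
  · exact Or.inl (Or.inl (Or.inl ((localOn_VC _ _ _ _).mono
      (key _ _ _ _ le_rfl le_rfl (by omega) le_rfl (by omega)) η η' h hη)))
  · exact Or.inl (Or.inl (Or.inr ((localOn_VC _ _ _ _).mono
      (key _ _ _ _ le_rfl le_rfl le_rfl (by omega) (by omega)) η η' h hη)))
  · exact Or.inl (Or.inr ((localOn_HC _ _ _ _).mono
      (key _ _ _ _ (by omega) le_rfl le_rfl le_rfl (by omega)) η η' h hη))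
  · exact Or.inr ((localOn_HC _ _ _ _).mono
      (key _ _ _ _ le_rfl (by omega) le_rfl le_rfl (by omega)) η η' h hη)

theorem PT_F4 {p : I} {r : Bool} {n : ℕ} (hn : 1 ≤ n) : PT p r (F4 n) ≤ 4 * qc (σ p) (!r) n := by
  have hq : qc (σ p) (!r) n = PT p r {η | VC η 0 (4 * n) 1 n} := by
    unfold qc
    have := PT_neg (p := σ p) (r := !r) (localOn_VC 0 (4 * (n : ℤ)) 1 n)
    rw [σσ, Bool.not_not] at this
    exact this
  have h1 : PT p r {η | VC η (-(2 * n)) (2 * n) (n + 1) (2 * n)} =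
      PT p r {η | VC η 0 (4 * n) 1 n} := by
    rw [← PT_VC_shf p r 0 (4 * n) 1 n (-(2 * n)) n]
    congr 1
    ext η
    simp only [Set.mem_ofPred_eq]
    rw [show 0 + -(2 * (n : ℤ)) = -(2 * n) by ring, show 4 * (n : ℤ) + -(2 * n) = 2 * n by ring,
      show 1 + (n : ℤ) = n + 1 by ring, show (n : ℤ) + n = 2 * n by ring]
  have h2 : PT p r {η | VC η (-(2 * n)) (2 * n) (-(2 * n)) (-n - 1)} =
      PT p r {η | VC η 0 (4 * n) 1 n} := by
    rw [← PT_VC_shf p r 0 (4 * n) 1 n (-(2 * n)) (-(2 * n) - 1)]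
    congr 1
    ext η
    simp only [Set.mem_ofPred_eq]
    rw [show 0 + -(2 * (n : ℤ)) = -(2 * n) by ring, show 4 * (n : ℤ) + -(2 * n) = 2 * n by ring,
      show 1 + (-(2 * (n : ℤ)) - 1) = -(2 * n) by ring,
      show (n : ℤ) + (-(2 * n) - 1) = -n - 1 by ring]
  have h3 : PT p r {η | HC η (n + 1) (2 * n) (-(2 * n)) (2 * n)} =
      PT p r {η | VC η 0 (4 * n) 1 n} := by
    rw [← PT_VC_eq_HC]; exact h1
  have h4 : PT p r {η | HC η (-(2 * n)) (-n - 1) (-(2 * n)) (2 * n)} =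
      PT p r {η | VC η 0 (4 * n) 1 n} := by
    rw [← PT_VC_eq_HC]; exact h2
  have e1 := PT_union_le (p := p) (r := r)
    (E := ({η | VC η (-(2 * n)) (2 * n) (n + 1) (2 * n)} ∪
      {η | VC η (-(2 * n)) (2 * n) (-(2 * n)) (-n - 1)}) ∪
      {η : Config | HC η (n + 1) (2 * n) (-(2 * n)) (2 * n)})
    (F := {η | HC η (-(2 * n)) (-n - 1) (-(2 * n)) (2 * n)})
  have e2 := PT_union_le (p := p) (r := r)
    (E := ({η : Config | VC η (-(2 * n)) (2 * n) (n + 1) (2 * n)} ∪
      {η | VC η (-(2 * n)) (2 * n) (-(2 * n)) (-n - 1)}))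
    (F := {η : Config | HC η (n + 1) (2 * n) (-(2 * n)) (2 * n)})
  have e3 := PT_union_le (p := p) (r := r)
    (E := {η : Config | VC η (-(2 * n)) (2 * n) (n + 1) (2 * n)})
    (F := {η : Config | VC η (-(2 * n)) (2 * n) (-(2 * n)) (-n - 1)})
  unfold F4
  rw [hq]
  linarith

/-- A path from the origin to a far point has an arm. -/
theorem arm_of_conn {η : Config} {x y : ℤ} {s : ℕ} {u v : TV} (hu : u = (x, y, false))
    (hv : v ∉ TR (x - s) (x + s) (y - s) (y + s))
    (h : TConn η Set.univ u v) : η ∈ AB x y 0 s := by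
  subst hu
  have hu : ((x, y, false) : TV) ∈ TR (x - s) (x + s) (y - s) (y + s) := by
    rw [mem_TR_site]; omega
  obtain ⟨w, w', h1, h2, h3, -⟩ := h.exists_exit hu hv
  rw [Set.univ_inter] at h1
  have hw := h1.mem_right
  have hw0 := hw
  rw [mem_TR] at hw h3
  have hw' : fx w = 2 * (x + s) ∨ fx w = 2 * (x - s) ∨ fy w = 2 * (y + s) ∨
      fy w = 2 * (y - s) := by
    by_contra hcon
    push Not at hcon
    obtain ⟨a1, a2, a3, a4⟩ := hcon
    have b1 := h2.2.2.1.fx_le (a := x + s) (by omega)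
    have b2 := h2.2.2.1.le_fx (a := x - s) (by omega)
    have b3 := h2.2.2.1.fy_le (a := y + s) (by omega)
    have b4 := h2.2.2.1.le_fy (a := y - s) (by omega)
    exact h3 ⟨b2, b1, b4, b3⟩
  refine ⟨(x, y, false), by rw [mem_TR_site]; simp, w, ⟨hw0, ?_, ?_⟩, h1⟩
  · rcases hw' with h4 | h4 | h4 | h4
    · exact (site_of_fx h4).1
    · exact (site_of_fx h4).1
    · exact (site_of_fy h4).1
    · exact (site_of_fy h4).1
  · rcases hw' with h4 | h4 | h4 | h4
    · exact Or.inr (Or.inl (site_of_fx h4).2)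
    · exact Or.inl (site_of_fx h4).2
    · exact Or.inr (Or.inr (Or.inr (site_of_fy h4).2))
    · exact Or.inr (Or.inr (Or.inl (site_of_fy h4).2))

theorem two_arms (p : I) (r : Bool) {v : ℤ × ℤ} {s : ℕ} (hs : 2 * s < nrm v) :
    PT p r (C0 v) ≤ ab p r 0 s ^ 2 := by
  have hsub : C0 v ⊆ AB 0 0 0 s ∩ AB v.1 v.2 0 s := by
    intro η hη
    have hc : TConn η Set.univ (0, 0, false) (sit0 v) := hη
    refine ⟨arm_of_conn rfl ?_ hc, arm_of_conn rfl ?_ hc.symm⟩
    · unfold sit0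
      rw [mem_TR_site]
      unfold nrm at hs
      omega
    · rw [mem_TR_site]
      unfold nrm at hs
      omega
  have hd : Disjoint (eRect (0 - s) (0 + s) (0 - s) (0 + s))
      (eRect (v.1 - s) (v.1 + s) (v.2 - s) (v.2 + s)) := by
    apply eRect_disjoint_x
    unfold nrm at hs
    omega
  calc PT p r (C0 v) ≤ PT p r (AB 0 0 0 s ∩ AB v.1 v.2 0 s) := PT_mono hsub
    _ = PT p r (AB 0 0 0 s) * PT p r (AB v.1 v.2 0 s) :=
        PT_indep (localOn_AB _ _ _ _) (localOn_AB _ _ _ _) hd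
    _ = ab p r 0 s ^ 2 := by rw [PT_AB, PT_AB, sq]

/-- Far points: three events on disjoint sets of sites. -/
theorem far_le (p : I) (r : Bool) {m n : ℕ} (hm : 1 ≤ m) (hmn : m ≤ n) {v : ℤ × ℤ}
    (hv : 4 * n < nrm v) : PT p r (C0 v) ≤ ab p r 0 (m - 1) ^ 2 * (4 * qc (σ p) (!r) n) := by
  classical
  set s := m - 1 with hs
  have hsub : C0 v ⊆ (AB 0 0 0 s ∩ F4 n) ∩ AB v.1 v.2 0 s := by
    intro η hη
    have hc : TConn η Set.univ (0, 0, false) (sit0 v) := hη
    refine ⟨⟨arm_of_conn rfl ?_ hc, F4_of_conn (by omega) (by omega) hη⟩,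
      arm_of_conn rfl ?_ hc.symm⟩
    · unfold sit0
      rw [mem_TR_site]
      unfold nrm at hv
      omega
    · rw [mem_TR_site]
      unfold nrm at hv
      omega
  have hl1 : LocalOn (eRect (-(n : ℤ)) n (-(n : ℤ)) n) (AB 0 0 0 s) := by
    refine (localOn_AB 0 0 0 s).mono ?_
    intro e he
    rw [mem_eRect] at he ⊢
    simp only [rect, Set.mem_ofPred_eq, src] at he ⊢
    omega
  have hl2 := localOn_F4 n
  have hl12 : LocalOn (eRect (-(2 * n : ℤ)) (2 * n) (-(2 * n)) (2 * n)) (AB 0 0 0 s ∩ F4 n) := by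
    refine (hl1.mono ?_).inter (hl2.mono Finset.sdiff_subset)
    intro e he
    rw [mem_eRect] at he ⊢
    simp only [rect, Set.mem_ofPred_eq, src] at he ⊢
    omega
  have hd1 : Disjoint (eRect (-(n : ℤ)) n (-(n : ℤ)) n) (rg n) := Finset.disjoint_sdiff
  have hd2 : Disjoint (eRect (-(2 * n : ℤ)) (2 * n) (-(2 * n)) (2 * n))
      (eRect (v.1 - s) (v.1 + s) (v.2 - s) (v.2 + s)) := by
    apply eRect_disjoint_x
    unfold nrm at hv
    omega
  have h3 := PT_F4 (p := p) (r := r) (n := n) (by omega)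
  have h4 : 0 ≤ ab p r 0 s := ab_nonneg
  calc PT p r (C0 v) ≤ PT p r ((AB 0 0 0 s ∩ F4 n) ∩ AB v.1 v.2 0 s) := PT_mono hsub
    _ = PT p r (AB 0 0 0 s) * PT p r (F4 n) * PT p r (AB v.1 v.2 0 s) := by
        rw [PT_indep hl12 (localOn_AB _ _ _ _) hd2, PT_indep hl1 hl2 hd1]
    _ = ab p r 0 s ^ 2 * PT p r (F4 n) := by rw [PT_AB, PT_AB]; ring
    _ ≤ _ := by gcongr

/-- Sum of `1 / (|v| + 1)` over a box. -/
theorem sum_box (N : ℕ) : ∑ v ∈ bx N, 1 / ((nrm v : ℝ) + 1) ≤ 8 * N + 1 := by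
  classical
  induction N with
  | zero =>
    have h : bx 0 = {(0, 0)} := by
      ext v
      rw [mem_bx, Finset.mem_singleton]
      obtain ⟨x, y⟩ := v
      simp only [nrm, Prod.mk.injEq]
      omega
    rw [h, Finset.sum_singleton]
    simp [nrm]
  | succ N ih =>
    have hsub : bx N ⊆ bx (N + 1) := by
      intro v hv
      rw [mem_bx] at hv ⊢
      omega
    rw [← Finset.sum_sdiff hsub]
    have h1 : ∑ v ∈ bx (N + 1) \ bx N, 1 / ((nrm v : ℝ) + 1) ≤ 8 := by
      have h2 : ∀ v ∈ bx (N + 1) \ bx N, 1 / ((nrm v : ℝ) + 1) ≤ 1 / ((N : ℝ) + 1) := by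
        intro v hv
        rw [Finset.mem_sdiff, mem_bx, mem_bx] at hv
        have : (N : ℝ) ≤ nrm v := by exact_mod_cast (by omega)
        apply one_div_le_one_div_of_le (by positivity)
        linarith
      refine (Finset.sum_le_card_nsmul _ _ _ h2).trans ?_
      rw [nsmul_eq_mul, Finset.cast_card_sdiff hsub, card_bx, card_bx]
      have : (0 : ℝ) < (N : ℝ) + 1 := by positivity
      rw [mul_one_div, div_le_iff₀ this]
      push_cast
      nlinarith
    push_cast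
    linarith

theorem pow_dbl (k : ℕ) : (4 : ℝ) ^ k * (1 / 2) ^ (2 ^ k) ≤ 4 * (1 / 2) ^ k := by
  have h : 3 * k ≤ 2 + 2 ^ k := by
    induction k with
    | zero => norm_num
    | succ k ih =>
      rcases Nat.lt_or_ge k 2 with h | h
      · interval_cases k <;> norm_num
      · have h3 : 3 ≤ 2 ^ k := by
          calc 3 ≤ 2 ^ 2 := by norm_num
            _ ≤ 2 ^ k := Nat.pow_le_pow_right (by norm_num) h
        rw [pow_succ]
        omega
  have h1 : (8 : ℝ) ^ k ≤ 4 * 2 ^ (2 ^ k) := by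
    have h2 : (2 : ℝ) ^ (3 * k) ≤ 2 ^ (2 + 2 ^ k) := pow_le_pow_right₀ (by norm_num) h
    have h3 : (2 : ℝ) ^ (3 * k) = 8 ^ k := by
      rw [pow_mul]; norm_num
    rw [h3, pow_add] at h2
    linarith
  have h4 : (8 : ℝ) ^ k = 4 ^ k * 2 ^ k := by rw [← mul_pow]; norm_num
  rw [one_div, inv_pow, inv_pow]
  rw [← div_eq_mul_inv, ← div_eq_mul_inv, div_le_div_iff₀ (by positivity) (by positivity)]
  rw [h4] at h1
  linarith

end Pool.Agent.H13.SK

end

section

/-! # Russo-Seymour-Welsh for probabilities bounded away from zero, up to a given scale -/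

set_option autoImplicit false

open MeasureTheory ProbabilityTheory unitInterval

namespace Pool.Agent.H13.SK

open Pool.Agent.H89.Perc Pool.Agent.H83.Site

/-- The left end of a crossing of the square `[0, n]²` is joined to the top of
`[0, 2 n] × [0, m]`. -/
private def XV (n m : ℤ) : Set Config :=
  {η | ∃ y y' x : ℤ, TConn η (TR 0 n 0 n) (0, y, false) (n, y', false) ∧
    TConn η (TR 0 (2 * n) 0 m) (0, y, false) (x, m, false)}

/-- The mirror image of `XV n m`. -/
private def XV' (n m : ℤ) : Set Config :=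
  {η | ∃ y y' x : ℤ, TConn η (TR 0 n 0 n) (0, y, false) (n, y', false) ∧
    TConn η (TR 0 (2 * n) (n - m) n) (0, y, false) (x, n - m, false)}

private theorem localOn_XV {n m : ℤ} (hn : 0 ≤ n) (hnm : n ≤ m) :
    LocalOn (eRect 0 (2 * n) 0 m) (XV n m) := by
  rintro η η' h ⟨y, y', x, h1, h2⟩
  refine ⟨y, y', x, h1.congr fun v hv => h v (TR_subset_eRect ?_),
    h2.congr fun v hv => h v (TR_subset_eRect hv)⟩
  exact TR_mono le_rfl (by omega) le_rfl hnm hv

private theorem incr_XV (n m : ℤ) : Incr (XV n m) := by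
  rintro η η' h ⟨y, y', x, h1, h2⟩
  exact ⟨y, y', x, h1.mono le_rfl fun v _ => h v, h2.mono le_rfl fun v _ => h v⟩

private theorem localOn_XV' {n m : ℤ} (hn : 0 ≤ n) (hnm : n ≤ m) :
    LocalOn (eRect 0 (2 * n) (n - m) n) (XV' n m) := by
  rintro η η' h ⟨y, y', x, h1, h2⟩
  refine ⟨y, y', x, h1.congr fun v hv => h v (TR_subset_eRect ?_),
    h2.congr fun v hv => h v (TR_subset_eRect hv)⟩
  exact TR_mono le_rfl (by omega) (by omega) le_rfl hv

private theorem incr_XV' (n m : ℤ) : Incr (XV' n m) := by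
  rintro η η' h ⟨y, y', x, h1, h2⟩
  exact ⟨y, y', x, h1.mono le_rfl fun v _ => h v, h2.mono le_rfl fun v _ => h v⟩

private theorem rfy_site (z x y : ℤ) : rfy z (x, y, false) = (x, z - y, false) := by
  simp [rfy]

private theorem XV'_eq (n m : ℤ) :
    {η : Config | (fun v => η (rfy n v)) ∈ XV n m} = XV' n m := by
  ext η
  constructor
  · rintro ⟨y, y', x, h1, h2⟩
    rw [tconn_rfy, rfy_site, rfy_site] at h1 h2
    refine ⟨n - y, n - y', x, ?_, ?_⟩
    · simpa using h1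
    · simpa using h2
  · rintro ⟨y, y', x, h1, h2⟩
    refine ⟨n - y, n - y', x, ?_, ?_⟩
    · rw [tconn_rfy, rfy_site, rfy_site]
      simpa using h1
    · rw [tconn_rfy, rfy_site, rfy_site]
      simpa using h2

private theorem PT_XV' (p : I) (r : Bool) {n m : ℤ} (hn : 0 ≤ n) (hnm : n ≤ m) :
    PT p r (XV' n m) = PT p r (XV n m) := by
  rw [← XV'_eq, PT_comp (localOn_XV hn hnm) (rfy_injective n).injOn (fun _ => rfl)]

private theorem LJ_subset_XV {n m : ℤ} (hn : 0 ≤ n) (hnm : n ≤ m) : LJ n 0 n m ⊆ XV n m := by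
  rintro η ⟨h1, h2⟩
  obtain ⟨y, y', h⟩ := low_exists hn hn h1
  obtain ⟨x, hx⟩ := low_joined hnm h h2
  exact ⟨y, y', x, h.mono le_rfl fun v _ hv => (zet_eq_true.1 hv).1, hx⟩

private theorem glue_XV {n m : ℤ} (hn : 0 ≤ n) (hnm : n ≤ m) :
    (XV n m ∩ XV' n m) ∩ {η | VC η 0 n 0 n} ⊆ {η | VC η 0 (2 * n) (n - m) m} := by
  rintro η ⟨⟨⟨y, y', x, h1, h2⟩, ⟨z, z', x', h1', h2'⟩⟩, ⟨w, w', h3⟩⟩
  have h4 := glue_hv h1 h3
  have h5 := glue_hv h1' h3
  have h6 := (h5.trans h4.symm).mono_set (TR_mono (a' := 0) (b' := 2 * n) (c' := n - m) (d' := m)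
    le_rfl (by omega) (by omega) hnm)
  have h7 := h2.mono_set (TR_mono (a' := 0) (b' := 2 * n) (c' := n - m) (d' := m)
    le_rfl le_rfl (by omega) le_rfl)
  have h8 := h2'.mono_set (TR_mono (a' := 0) (b' := 2 * n) (c' := n - m) (d' := m)
    le_rfl le_rfl le_rfl hnm)
  exact ⟨x', x, (h8.symm.trans h6).trans h7⟩

private theorem half_le_sqrt {v : ℝ} (h0 : 0 ≤ v) (h1 : v ≤ 1) : v / 2 ≤ 1 - Real.sqrt (1 - v) := by
  have h2 : Real.sqrt (1 - v) ≤ 1 - v / 2 := by
    rw [Real.sqrt_le_left (by linarith)]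
    nlinarith
  linarith

/-- One step of the iteration, from height `m` to height `2 m - n`. -/
private theorem bdd_step (p : I) (r : Bool) {n m : ℤ} (hn : 0 ≤ n) (hnm : n ≤ m) {δ v : ℝ}
    (hδ : 0 ≤ δ) (hv0 : 0 ≤ v) (hH : δ ≤ PT p r {η | HC η 0 n 0 n})
    (hv : v ≤ PT p r {η | VC η 0 (2 * n) 0 m}) :
    (δ * (v / 2)) ^ 2 * δ ≤ PT p r {η | VC η 0 (2 * n) 0 (2 * m - n)} := by
  have h1 : δ * (v / 2) ≤ PT p r (XV n m) := by
    refine le_trans ?_ (PT_mono (LJ_subset_XV hn hnm))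
    refine le_trans ?_ (expl_prob p r hn hn hnm)
    have h2 := half_le_sqrt (v := PT p r {η | VC η 0 (2 * n) 0 m}) PT_nonneg PT_le_one
    have h3 : v / 2 ≤ 1 - Real.sqrt (1 - PT p r {η | VC η 0 (2 * n) 0 m}) := by linarith
    exact mul_le_mul hH h3 (by positivity) PT_nonneg
  have h4 : δ ≤ PT p r {η | VC η 0 n 0 n} := by rwa [PT_VC_eq_HC]
  have h5 := PT_fkg (p := p) (r := r) (localOn_XV hn hnm) (localOn_XV' hn hnm) (incr_XV n m)
    (incr_XV' n m)
  rw [PT_XV' p r hn hnm] at h5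
  have h6 := PT_fkg (p := p) (r := r) ((localOn_XV hn hnm).inter' (localOn_XV' hn hnm))
    (localOn_VC 0 n 0 n) ((incr_XV n m).inter (incr_XV' n m)) (incr_VC 0 n 0 n)
  have h7 := h6.trans (PT_mono (glue_XV hn hnm))
  have h8 : PT p r {η | VC η 0 (2 * n) (n - m) m} =
      PT p r {η | VC η 0 (2 * n) 0 (2 * m - n)} := by
    have := PT_VC_shf p r 0 (2 * n) 0 (2 * m - n) 0 (n - m)
    rw [← this]
    congr 1
    ext η
    simp only [Set.mem_ofPred_eq, zero_add, add_zero]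
    rw [show 2 * m - n + (n - m) = m by ring]
  rw [h8] at h7
  refine le_trans ?_ h7
  have h9 : (δ * (v / 2)) ^ 2 ≤ PT p r (XV n m ∩ XV' n m) := by
    refine le_trans ?_ h5
    rw [sq]
    exact mul_le_mul h1 h1 (by positivity) PT_nonneg
  exact mul_le_mul h9 h4 hδ PT_nonneg

private theorem bdd_iter {δ : ℝ} (hδ : 0 < δ) (j : ℕ) : ∃ c > (0 : ℝ), ∀ (p : I) (r : Bool)
    (k : ℕ), 1 ≤ k → δ ≤ PT p r {η | HC η 0 (4 * k) 0 (4 * k)} →
      δ ≤ PT p r {η | HC η 0 (4 * (2 * k : ℕ)) 0 (4 * (2 * k : ℕ))} →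
      c ≤ PT p r {η | VC η 0 (2 * (4 * k)) 0 ((2 ^ j + 1) * (4 * k))} := by
  induction j with
  | zero =>
    refine ⟨δ, hδ, fun p r k hk _ h1 => ?_⟩
    rw [PT_VC_eq_HC]
    push_cast at h1
    have e : ((2 : ℤ) ^ 0 + 1) * (4 * (k : ℤ)) = 4 * (2 * k) := by ring
    have e' : (2 : ℤ) * (4 * (k : ℤ)) = 4 * (2 * k) := by ring
    rw [e, e']
    exact h1
  | succ j ih =>
    obtain ⟨c, hc, hstep⟩ := ih
    refine ⟨(δ * (c / 2)) ^ 2 * δ, by positivity, fun p r k hk h h' => ?_⟩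
    have h1 := hstep p r k hk h h'
    have h2 : ((4 : ℤ) * k) ≤ (2 ^ j + 1) * (4 * k) := by
      have : (0 : ℤ) < 2 ^ j := by positivity
      nlinarith
    have h3 := bdd_step p r (n := 4 * k) (m := (2 ^ j + 1) * (4 * k)) (by omega) h2 hδ.le hc.le
      h h1
    have e : (2 : ℤ) * ((2 ^ j + 1) * (4 * k)) - 4 * k = (2 ^ (j + 1) + 1) * (4 * k) := by
      ring
    rwa [e] at h3

private theorem localOn_site (v : TV) : LocalOn {v} {η : Config | η v = true} := by
  intro η η' h hA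
  have : η v = η' v := h v (by simp)
  simp only [Set.mem_ofPred_eq] at hA ⊢
  rw [← this]
  exact hA

private theorem incr_site (v : TV) : Incr {η : Config | η v = true} := fun _ _ h hA => h v hA

/-- All sites of a row are open. -/
private theorem row_prob (p : I) (r : Bool) {q : ℝ} (hq : 0 ≤ q)
    (h : ∀ x : ℤ, q ≤ PT p r {η | η (x, 0, false) = true}) (N : ℕ) :
    q ^ (N + 1) ≤ PT p r {η | ∀ i ≤ N, η ((i : ℤ), 0, false) = true} ∧
      ∃ s, LocalOn s {η : Config | ∀ i ≤ N, η ((i : ℤ), 0, false) = true} := by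
  classical
  induction N with
  | zero =>
    have e : {η : Config | ∀ i ≤ (0 : ℕ), η ((i : ℤ), 0, false) = true} =
        {η | η (0, 0, false) = true} := by
      ext η
      simp only [Set.mem_ofPred_eq, Nat.le_zero, forall_eq, Nat.cast_zero]
    rw [e]
    exact ⟨by simpa using h 0, _, localOn_site _⟩
  | succ N ih =>
    obtain ⟨h1, s, h2⟩ := ih
    have e : {η : Config | ∀ i ≤ N + 1, η ((i : ℤ), 0, false) = true} =
        {η : Config | ∀ i ≤ N, η ((i : ℤ), 0, false) = true} ∩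
          {η | η (((N + 1 : ℕ) : ℤ), 0, false) = true} := by
      ext η
      simp only [Set.mem_ofPred_eq, Set.mem_inter_iff]
      constructor
      · exact fun h => ⟨fun i hi => h i (by omega), h (N + 1) le_rfl⟩
      · rintro ⟨h, h'⟩ i hi
        rcases Nat.lt_or_ge N i with hi' | hi'
        · obtain rfl : i = N + 1 := by omega
          exact h'
        · exact h i hi'
    have hi : Incr {η : Config | ∀ i ≤ N, η ((i : ℤ), 0, false) = true} :=
      fun _ _ h hA i hi => h _ (hA i hi)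
    rw [e]
    refine ⟨?_, _, h2.inter' (localOn_site _)⟩
    refine le_trans ?_ (PT_fkg h2 (localOn_site _) hi (incr_site _))
    rw [pow_succ]
    exact mul_le_mul h1 (h _) hq PT_nonneg

private theorem row_subset {m : ℤ} (hm : 0 ≤ m) (N : ℕ) :
    {η : Config | ∀ i ≤ N, η ((i : ℤ), 0, false) = true} ⊆ {η | HC η 0 N 0 m} := by
  intro η h
  refine ⟨0, 0, ?_⟩
  have key : ∀ i : ℕ, i ≤ N → TConn η (TR 0 N 0 m) (0, 0, false) ((i : ℤ), 0, false) := by
    intro i
    induction i with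
    | zero =>
      intro _
      exact TConn.refl (mem_TR_site.2 ⟨le_rfl, by omega, le_rfl, hm⟩) (by
        simpa using h 0 (Nat.zero_le _))
    | succ i ih =>
      intro hi
      refine (ih (by omega)).tail ⟨mem_TR_site.2 ⟨by omega, by omega, le_rfl, hm⟩,
        mem_TR_site.2 ⟨by omega, by omega, le_rfl, hm⟩, ?_, h i (by omega), h (i + 1) hi⟩
      refine Or.inl ⟨rfl, rfl, Or.inr ⟨rfl, Or.inr ?_⟩⟩
      push_cast
      ring
  exact key N le_rfl

private theorem PT_site (p : I) (r : Bool) (x y : ℤ) :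
    PT p r {η | η (x, y, false) = true} = PT p r {η | η (0, 0, false) = true} := by
  rw [← PT_comp (p := p) (r := r) (localOn_site (0, 0, false)) (shf_injective x y).injOn
    (fun _ => rfl)]
  congr 1
  ext η
  simp [shf]

private theorem site_prob (p : I) (r : Bool) {δ : ℝ}
    (h : δ ≤ PT p r {η | HC η 0 4 0 4}) : δ / 5 ≤ PT p r {η | η (0, 0, false) = true} := by
  have h1 : {η : Config | HC η 0 4 0 4} ⊆ (((({η | η (0, 0, false) = true} ∪
      {η | η (0, 1, false) = true}) ∪ {η | η (0, 2, false) = true}) ∪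
      {η | η (0, 3, false) = true}) ∪ {η | η (0, 4, false) = true}) := by
    rintro η ⟨y, y', hc⟩
    have h2 := mem_TR_site.1 hc.mem_left
    have h3 := hc.open_left
    have h4 : y = 0 ∨ y = 1 ∨ y = 2 ∨ y = 3 ∨ y = 4 := by omega
    rcases h4 with rfl | rfl | rfl | rfl | rfl
    · exact Or.inl (Or.inl (Or.inl (Or.inl h3)))
    · exact Or.inl (Or.inl (Or.inl (Or.inr h3)))
    · exact Or.inl (Or.inl (Or.inr h3))
    · exact Or.inl (Or.inr h3)
    · exact Or.inr h3
  have h2 := h.trans (PT_mono (p := p) (r := r) h1)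
  have e1 := PT_union_le (p := p) (r := r) (E := ((({η : Config | η (0, 0, false) = true} ∪
      {η | η (0, 1, false) = true}) ∪ {η | η (0, 2, false) = true}) ∪
      {η | η (0, 3, false) = true})) (F := {η | η (0, 4, false) = true})
  have e2 := PT_union_le (p := p) (r := r) (E := (({η : Config | η (0, 0, false) = true} ∪
      {η | η (0, 1, false) = true}) ∪ {η | η (0, 2, false) = true}))
      (F := {η | η (0, 3, false) = true})
  have e3 := PT_union_le (p := p) (r := r) (E := ({η : Config | η (0, 0, false) = true} ∪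
      {η | η (0, 1, false) = true})) (F := {η | η (0, 2, false) = true})
  have e4 := PT_union_le (p := p) (r := r) (E := {η : Config | η (0, 0, false) = true})
      (F := {η | η (0, 1, false) = true})
  rw [PT_site p r 0 1] at e4
  rw [PT_site p r 0 2] at e3
  rw [PT_site p r 0 3] at e2
  rw [PT_site p r 0 4] at e1
  linarith

/-- If the squares of side `4 k` are crossed with probability at least `δ` for all `k ≤ n`, then
rectangles of aspect ratio `K` and height up to `4 n` are crossed with probability at least `c`. -/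
theorem bdd_local {δ : ℝ} (hδ : 0 < δ) (K : ℕ) : ∃ c > (0 : ℝ), ∀ (p : I) (r : Bool) (n : ℕ),
    1 ≤ n → (∀ k : ℕ, 1 ≤ k → k ≤ n → δ ≤ PT p r {η | HC η 0 (4 * k) 0 (4 * k)}) →
    ∀ m : ℕ, 1 ≤ m → m ≤ 4 * n → c ≤ PT p r {η | HC η 0 (K * m) 0 m} := by
  obtain ⟨c, hc, hcP⟩ := bdd_iter hδ (4 * K)
  refine ⟨min c (min (δ / 5) 1 ^ (7 * K + 1)), by positivity, fun p r n hn h m hm hmn => ?_⟩
  by_cases hm4 : 8 ≤ m
  · refine (min_le_left _ _).trans ((hcP p r (m / 8) (by omega) (h _ (by omega) (by omega))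
      (h _ (by omega) (by omega))).trans ?_)
    rw [PT_VC_eq_HC]
    refine PT_mono fun η hη => ?_
    refine HC.mono hη le_rfl (by positivity) ?_ le_rfl (by omega)
    have h1 : 4 * K + 1 ≤ 2 ^ (4 * K) := Nat.lt_two_pow_self
    have h2 : (4 * (K : ℤ) + 1) ≤ 2 ^ (4 * K) := by exact_mod_cast h1
    have h3 : (m : ℤ) ≤ 15 * ((m / 8 : ℕ) : ℤ) := by omega
    have h4 : (0 : ℤ) ≤ ((m / 8 : ℕ) : ℤ) := by omega
    have h5 : (0 : ℤ) ≤ K := by omega
    calc (K : ℤ) * m ≤ K * (15 * ((m / 8 : ℕ) : ℤ)) := mul_le_mul_of_nonneg_left h3 h5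
      _ ≤ (4 * K + 1 + 1) * (4 * ((m / 8 : ℕ) : ℤ)) := by nlinarith
      _ ≤ (2 ^ (4 * K) + 1) * (4 * ((m / 8 : ℕ) : ℤ)) := by
        apply mul_le_mul_of_nonneg_right _ (by omega)
        omega
  · refine (min_le_right _ _).trans ?_
    have h1 := h 1 le_rfl hn
    norm_num at h1
    have h2 := site_prob p r h1
    have h3 : ∀ x : ℤ, min (δ / 5) 1 ≤ PT p r {η | η (x, 0, false) = true} := fun x => by
      rw [PT_site p r x 0]
      exact (min_le_left _ _).trans h2
    have h4 := (row_prob p r (q := min (δ / 5) 1) (by positivity) h3 (K * m)).1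
    have h5 : min (δ / 5) 1 ^ (7 * K + 1) ≤ min (δ / 5) 1 ^ (K * m + 1) := by
      apply pow_le_pow_of_le_one (by positivity) (min_le_right _ _)
      have : K * m ≤ K * 7 := Nat.mul_le_mul_left K (by omega)
      omega
    refine h5.trans (h4.trans ?_)
    have h6 := row_subset (m := (m : ℤ)) (by omega) (K * m)
    push_cast at h6
    exact PT_mono h6

/-- The same up to an arbitrary multiple of the scale. -/
theorem bdd_local' {δ : ℝ} (hδ : 0 < δ) (K K' : ℕ) : ∃ c > (0 : ℝ), ∀ (p : I) (r : Bool) (n : ℕ),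
    1 ≤ n → (∀ k : ℕ, 1 ≤ k → k ≤ n → δ ≤ PT p r {η | HC η 0 (4 * k) 0 (4 * k)}) →
    ∀ m : ℕ, 1 ≤ m → m ≤ K' * n → c ≤ PT p r {η | HC η 0 (K * m) 0 m} := by
  obtain ⟨c, hc, H⟩ := bdd_local hδ (K * (K' + 1))
  refine ⟨c, hc, fun p r n hn h m hm hmn => ?_⟩
  refine (H p r n hn h (min m (4 * n)) (by omega) (min_le_right _ _)).trans ?_
  refine PT_mono fun η hη => ?_
  refine HC.mono hη le_rfl (by positivity) ?_ le_rfl (by
    have : min m (4 * n) ≤ m := min_le_left _ _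
    exact_mod_cast this)
  have h1 : m ≤ (K' + 1) * min m (4 * n) := by
    rcases le_total m (4 * n) with h2 | h2
    · rw [min_eq_left h2]
      nlinarith
    · rw [min_eq_right h2]
      nlinarith
  have h2 : K * m ≤ K * (K' + 1) * min m (4 * n) := by
    calc K * m ≤ K * ((K' + 1) * min m (4 * n)) := Nat.mul_le_mul_left K h1
      _ = _ := by ring
  exact_mod_cast h2

end Pool.Agent.H13.SK

end

section

/-!
# Site percolation, RSW regime: annuli which are not crossed, one-arm decay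
-/

open MeasureTheory ProbabilityTheory unitInterval

namespace Pool.Agent.H83.SK

open Pool.Agent.H89.Perc Pool.Agent.H61.NC Pool.Agent.H31.EX

lemma noarm_ext {c : ℝ} (hc : 0 < c) (K : ℕ) : ∃ c' : ℝ, 0 < c' ∧ ∀ (n : ℕ) (q : I), 1 ≤ n →
    RSWreg c n q → RSWreg c' (K * n) q := by
  obtain ⟨c', hc', H⟩ := rect_lower c hc (4 + K)
  obtain ⟨c'', hc'', H'⟩ := rect_closed c hc (4 + K)
  refine ⟨min c' c'', lt_min hc' hc'', fun n q hn h m hm1 hm2 => ?_⟩
  have e1 : ((0 : ℤ)) ≤ 4 * (m : ℤ) := by positivity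
  have e2 : (0 : ℤ) < m := by exact_mod_cast hm1
  have e3 : 4 * (m : ℤ) - 0 ≤ ((4 + K : ℕ) : ℤ) * ((m : ℤ) - 0) := by
    push_cast
    nlinarith [mul_nonneg (Int.natCast_nonneg K) (Int.natCast_nonneg m)]
  have e4 : (m : ℤ) - 0 ≤ ((4 + K : ℕ) : ℤ) * (n : ℤ) := by
    have : (m : ℤ) ≤ (K : ℤ) * n := by exact_mod_cast hm2
    push_cast
    nlinarith [Int.natCast_nonneg n]
  exact ⟨(min_le_left _ _).trans (H n q hn h 0 (4 * m) 0 m e1 e2 e3 e4).1,
    (min_le_right _ _).trans (H' n q hn h 0 (4 * m) 0 m e1 e2 e3 e4).1⟩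

/-- An annulus is not crossed if four rectangles are not crossed in the short direction. -/
lemma noarm_det {ω : Config} {v : Vert} {s r : ℕ} (hsr : s ≤ r)
    (h1 : ¬ HCross ω (v.1 + s) (v.1 + r) (v.2 - r) (v.2 + r))
    (h2 : ¬ HCross ω (v.1 - r) (v.1 - s) (v.2 - r) (v.2 + r))
    (h3 : ¬ VCross ω (v.1 - r) (v.1 + r) (v.2 + s) (v.2 + r))
    (h4 : ¬ VCross ω (v.1 - r) (v.1 + r) (v.2 - r) (v.2 - s)) : ω ∉ ArmBox v s r := by
  rintro ⟨u, hu, w, hw, hc⟩
  obtain ⟨hb, hw⟩ := hw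
  simp only [mem_ball] at hu hb
  have hsr' : (s : ℤ) ≤ r := by exact_mod_cast hsr
  rcases hw with h | h | h | h
  · obtain ⟨x, y, hx, hy, hxy, -, -⟩ := hc.symm.cross_x (a := v.1 - r) (b := v.1 - s)
      (by omega) (by omega) (by omega)
    refine h2 ⟨x, y, hx, hy, hxy.mono_set ?_⟩
    rintro t ⟨ht, ht'⟩
    simp only [mem_ball, rect, Set.mem_ofPred_eq] at ht ht' ⊢
    omega
  · obtain ⟨x, y, hx, hy, hxy, -, -⟩ := hc.cross_x (a := v.1 + s) (b := v.1 + r)
      (by omega) (by omega) (by omega)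
    refine h1 ⟨x, y, hx, hy, hxy.mono_set ?_⟩
    rintro t ⟨ht, ht'⟩
    simp only [mem_ball, rect, Set.mem_ofPred_eq] at ht ht' ⊢
    omega
  · obtain ⟨x, y, hx, hy, hxy, -, -⟩ := hc.symm.cross_y (a := v.2 - r) (b := v.2 - s)
      (by omega) (by omega) (by omega)
    refine h4 ⟨x, y, hx, hy, hxy.mono_set ?_⟩
    rintro t ⟨ht, ht'⟩
    simp only [mem_ball, rect, Set.mem_ofPred_eq] at ht ht' ⊢
    omega
  · obtain ⟨x, y, hx, hy, hxy, -, -⟩ := hc.cross_y (a := v.2 + s) (b := v.2 + r)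
      (by omega) (by omega) (by omega)
    refine h3 ⟨x, y, hx, hy, hxy.mono_set ?_⟩
    rintro t ⟨ht, ht'⟩
    simp only [mem_ball, rect, Set.mem_ofPred_eq] at ht ht' ⊢
    omega

/-- Probability of the four events. -/
lemma noarm_four {c₁ : ℝ} (hc : 0 ≤ c₁) {q : I} {v : Vert} {s r : ℕ}
    (h1 : c₁ ≤ Pr q {ω | ¬ HCross ω (v.1 + s) (v.1 + r) (v.2 - r) (v.2 + r)})
    (h2 : c₁ ≤ Pr q {ω | ¬ HCross ω (v.1 - r) (v.1 - s) (v.2 - r) (v.2 + r)})
    (h3 : c₁ ≤ Pr q {ω | ¬ VCross ω (v.1 - r) (v.1 + r) (v.2 + s) (v.2 + r)})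
    (h4 : c₁ ≤ Pr q {ω | ¬ VCross ω (v.1 - r) (v.1 + r) (v.2 - r) (v.2 - s)}) (hsr : s ≤ r) :
    c₁ ^ 4 ≤ Pr q (ArmBox v s r)ᶜ := by
  have h12 := fkg_decr (p := q) (localOn_nohcross (v.1 + s) (v.1 + r) (v.2 - r) (v.2 + r))
    (localOn_nohcross (v.1 - r) (v.1 - s) (v.2 - r) (v.2 + r)) (decr_nohcross _ _ _ _)
    (decr_nohcross _ _ _ _)
  have h34 := fkg_decr (p := q) (localOn_novcross (v.1 - r) (v.1 + r) (v.2 + s) (v.2 + r))
    (localOn_novcross (v.1 - r) (v.1 + r) (v.2 - r) (v.2 - s)) (decr_novcross _ _ _ _)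
    (decr_novcross _ _ _ _)
  have h1234 := fkg_decr (p := q)
    ((localOn_nohcross (v.1 + s) (v.1 + r) (v.2 - r) (v.2 + r)).inter'
      (localOn_nohcross (v.1 - r) (v.1 - s) (v.2 - r) (v.2 + r)))
    ((localOn_novcross (v.1 - r) (v.1 + r) (v.2 + s) (v.2 + r)).inter'
      (localOn_novcross (v.1 - r) (v.1 + r) (v.2 - r) (v.2 - s)))
    (by
      rw [Set.compl_inter]
      exact Incr.union (decr_nohcross _ _ _ _) (decr_nohcross _ _ _ _))
    (by
      rw [Set.compl_inter]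
      exact Incr.union (decr_novcross _ _ _ _) (decr_novcross _ _ _ _))
  have h12' := (mul_le_mul h1 h2 hc Pr_nonneg).trans h12
  have h34' := (mul_le_mul h3 h4 hc Pr_nonneg).trans h34
  have h' := (mul_le_mul h12' h34' (by positivity) Pr_nonneg).trans h1234
  have e : c₁ ^ 4 = c₁ * c₁ * (c₁ * c₁) := by ring
  rw [e]
  refine h'.trans (Pr_mono ?_)
  rintro ω ⟨⟨w1, w2⟩, ⟨w3, w4⟩⟩
  exact noarm_det hsr w1 w2 w3 w4

/-- The annulus `ball v (3 s)` minus `ball v s` is not crossed with positive probability. -/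
theorem noarm_lower (c : ℝ) (hc : 0 < c) (K : ℕ) : ∃ c' : ℝ, 0 < c' ∧ ∀ (n : ℕ) (q : I), 1 ≤ n →
    RSWreg c n q → ∀ (v : Vert) (s : ℕ), 1 ≤ s → s ≤ K * n →
      c' ≤ Pr q {ω | ¬ ∃ u ∈ ball v s, ∃ u' ∈ sphere v (3 * s), Conn ω (ball v (3 * s)) u u'} := by
  obtain ⟨c1, hc1, H⟩ := rect_closed c hc (3 + 2 * K)
  refine ⟨c1 ^ 4, by positivity, ?_⟩
  intro n q hn hreg v s hs hsK
  have hcompl : {ω : Config | ¬ ∃ u ∈ ball v s, ∃ u' ∈ sphere v (3 * s),
      Conn ω (ball v (3 * s)) u u'} = (ArmBox v s (3 * s))ᶜ := rfl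
  rw [hcompl]
  have hs' : (1 : ℤ) ≤ s := by exact_mod_cast hs
  have hsK' : (s : ℤ) ≤ K * n := by exact_mod_cast hsK
  have hK0 : (0 : ℤ) ≤ K * s := by positivity
  have hn0 : (0 : ℤ) ≤ n := by positivity
  have key : ∀ a b y z : ℤ, b - a = 6 * s → z - y = 2 * s →
      c1 ≤ Pr q {ω | ¬ VCross ω a b y z} ∧ c1 ≤ Pr q {ω | ¬ HCross ω y z a b} := by
    intro a b y z h1 h2
    refine H n q hn hreg a b y z (by omega) (by omega) ?_ ?_
    · rw [h1, h2]
      push_cast
      nlinarith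
    · rw [h2]
      push_cast
      nlinarith
  have e3 : ((3 * s : ℕ) : ℤ) = 3 * s := by push_cast; ring
  refine noarm_four hc1.le ?_ ?_ ?_ ?_ (by omega)
  · exact (key _ _ _ _ (by rw [e3]; ring) (by rw [e3]; ring)).2
  · exact (key _ _ _ _ (by rw [e3]; ring) (by rw [e3]; ring)).2
  · exact (key _ _ _ _ (by rw [e3]; ring) (by rw [e3]; ring)).1
  · exact (key _ _ _ _ (by rw [e3]; ring) (by rw [e3]; ring)).1

/-- Rectangles of all places. -/
lemma reg_closed {c : ℝ} {n : ℕ} {q : I} (h : RSWreg c n q) {m : ℕ} (hm : 1 ≤ m) (hmn : m ≤ n)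
    {x y x' y' : ℤ} (hx : x' - x ≤ 4 * m) (hx0 : x ≤ x') (hy : (m : ℤ) ≤ y' - y) :
    c ≤ Pr q {ω | ¬ VCross ω x x' y y'} ∧ c ≤ Pr q {ω | ¬ HCross ω y y' x x'} := by
  have h0 := (h m hm hmn).2
  have h1 : c ≤ Pr q {ω | ¬ VCross ω 0 (x' - x) 0 (y' - y)} :=
    h0.trans (Pr_mono fun ω h hv => h (VCross.mono hv le_rfl hx le_rfl (by omega) hy))
  have h3 := Pr_novcross_translate (p := q) (a := 0) (b := x' - x) (c := 0) (d := y' - y) x y
  have e1 : (0 : ℤ) + x = x := by ring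
  have e2 : x' - x + x = x' := by ring
  have e3 : (0 : ℤ) + y = y := by ring
  have e4 : y' - y + y = y' := by ring
  rw [e1, e2, e3, e4] at h3
  refine ⟨?_, ?_⟩
  · rw [h3]
    exact h1
  · rw [← Pr_novcross_eq, h3]
    exact h1

lemma reg_hcross {c : ℝ} {n : ℕ} {q : I} (h : RSWreg c n q) {m : ℕ} (hm : 1 ≤ m) (hmn : m ≤ n)
    {x y x' y' : ℤ} (hx : x' - x ≤ 4 * m) (hx0 : x ≤ x') (hy : (m : ℤ) ≤ y' - y) :
    c ≤ Pr q {ω | HCross ω x x' y y'} := by
  have h1 : c ≤ Pr q {ω | HCross ω 0 (x' - x) 0 (y' - y)} :=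
    ((h m hm hmn).1).trans (Pr_mono fun ω h => HCross.mono h le_rfl (by omega) hx le_rfl hy)
  have h3 := Pr_hcross_translate (p := q) (a := 0) (b := x' - x) (c := 0) (d := y' - y) x y
  have e1 : (0 : ℤ) + x = x := by ring
  have e2 : x' - x + x = x' := by ring
  have e3 : (0 : ℤ) + y = y := by ring
  have e4 : y' - y + y = y' := by ring
  rw [e1, e2, e3, e4] at h3
  rw [h3]
  exact h1

lemma reg_vcross {c : ℝ} {n : ℕ} {q : I} (h : RSWreg c n q) {m : ℕ} (hm : 1 ≤ m) (hmn : m ≤ n)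
    {x y x' y' : ℤ} (hx : y' - y ≤ 4 * m) (hx0 : y ≤ y') (hy : (m : ℤ) ≤ x' - x) :
    c ≤ Pr q {ω | VCross ω x x' y y'} := by
  rw [Pr_vcross_eq_hcross]
  exact reg_hcross h hm hmn hx hx0 hy

lemma reg_mono_c {c c' : ℝ} {n : ℕ} {q : I} (h : RSWreg c n q) (hc : c' ≤ c) :
    RSWreg c' n q := fun m h1 h2 => ⟨hc.trans (h m h1 h2).1, hc.trans (h m h1 h2).2⟩

/-- Annulus crossings have probability bounded away from one. -/
theorem armBox_reg_le {c : ℝ} (hc : 0 < c) {n : ℕ} {q : I} (h : RSWreg c n q) {s r : ℕ}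
    (hr : 2 * s ≤ r) (hr1 : 1 ≤ r) (hrn : r ≤ n) : Pr q (ArmBox 0 s r) ≤ 1 - c ^ 4 := by
  obtain ⟨m, hm⟩ : ∃ m : ℕ, m = r - s := ⟨_, rfl⟩
  have hm1 : 1 ≤ m := by omega
  have hmn : m ≤ n := by omega
  have hd : (m : ℤ) = r - s := by omega
  have k : ∀ a b y z : ℤ, b - a = 2 * r → z - y = m →
      c ≤ Pr q {ω | ¬ VCross ω a b y z} ∧ c ≤ Pr q {ω | ¬ HCross ω y z a b} := by
    intro a b y z h1 h2
    exact reg_closed h hm1 hmn (by omega) (by omega) (by omega)
  have h4 := noarm_four (v := 0) (s := s) (r := r) hc.le (q := q)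
    (k _ _ _ _ (by ring) (by rw [hd]; ring)).2 (k _ _ _ _ (by ring) (by rw [hd]; ring)).2
    (k _ _ _ _ (by ring) (by rw [hd]; ring)).1 (k _ _ _ _ (by ring) (by rw [hd]; ring)).1
    (by omega)
  rw [Pr_compl (localOn_armBox 0 s r)] at h4
  linarith

/-- Intersections of the annulus events at scales `s 16 ^ j`. -/
def AnnT (s : ℕ) : ℕ → Set Config
  | 0 => Set.univ
  | n + 1 => AnnT s n ∩ Ann (s * 16 ^ n + 2) (s * 16 ^ (n + 1))

lemma localOn_annT (s n : ℕ) : LocalOn (eBall (s * 16 ^ n)) (AnnT s n) := by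
  classical
  induction n with
  | zero => exact fun _ _ _ _ => Set.mem_univ _
  | succ n ih =>
    have h1 : s * 16 ^ n ≤ s * 16 ^ (n + 1) :=
      Nat.mul_le_mul_left s (Nat.pow_le_pow_right (by norm_num) (Nat.le_succ n))
    exact (ih.mono (eBall_subset h1)).inter ((localOn_ann _ _).mono Finset.sdiff_subset)

lemma armBox_subset_annT {s R : ℕ} (hs : 1 ≤ s) (n : ℕ) (h : s * 16 ^ n ≤ R) :
    ArmBox 0 s R ⊆ AnnT s n := by
  induction n with
  | zero => exact Set.subset_univ _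
  | succ n ih =>
    have h1 : s * 16 ^ n < s * 16 ^ (n + 1) :=
      Nat.mul_lt_mul_of_pos_left (Nat.pow_lt_pow_right (by norm_num) (Nat.lt_succ_self n)) hs
    have h2 : s * 16 ^ (n + 1) = 16 * (s * 16 ^ n) := by ring
    have h3 : 1 ≤ s * 16 ^ n := Nat.one_le_iff_ne_zero.2 (by positivity)
    have h4 : s ≤ s * 16 ^ n := Nat.le_mul_of_pos_right s (by positivity)
    exact Set.subset_inter (ih (h1.le.trans h)) (armBox_subset_ann (by omega) (by omega) h)

/-- The sites of the edges of a ball and of the edges off a larger ball. -/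
lemma disj_eBall [DecidableEq Edge] (s r : ℕ) :
    Disjoint (hull (eBall s)) (hull (eBall r \ eBall (s + 2))) := by
  refine disj_hull_of (S := ball 0 (s + 1)) ?_ ?_
  · intro e he
    rw [mem_eBall] at he
    obtain ⟨x, y, b⟩ := e
    cases b <;> simp only [src, tgt, mem_ball, Prod.fst_zero, Prod.snd_zero, if_true,
      Bool.false_eq_true, if_false] at he ⊢ <;> push_cast <;> omega
  · intro e he
    rw [Finset.mem_sdiff, mem_eBall, mem_eBall] at he
    obtain ⟨-, he⟩ := he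
    obtain ⟨x, y, b⟩ := e
    cases b <;> simp only [src, tgt, mem_ball, Prod.fst_zero, Prod.snd_zero, if_true,
      Bool.false_eq_true, if_false] at he ⊢ <;> push_cast at he ⊢ <;> omega

/-- Decay of annulus crossings in the box-crossing regime. -/
theorem armBox_decay0 {c : ℝ} (hc : 0 < c) : ∃ C a : ℝ, 0 < C ∧ 0 < a ∧ a ≤ 1 / 4 ∧
    ∀ (n s R : ℕ) (q : I), RSWreg c n q → 1 ≤ s → s ≤ R → R ≤ n →
      Pr q (ArmBox 0 s R) ≤ C * ((s : ℝ) / R) ^ a := by
  classical
  set c' := min c 1 with hc'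
  have hc0 : 0 < c' := lt_min hc one_pos
  have hc1 : c' ≤ 1 := min_le_right _ _
  have hc4 : 0 < c' ^ 4 := by positivity
  have hc41 : c' ^ 4 ≤ 1 := pow_le_one₀ hc0.le hc1
  set t : ℝ := 1 - c' ^ 4 / 2 with ht
  have ht0 : 0 < t := by linarith
  have ht1 : t < 1 := by linarith
  have hlog : Real.log t < 0 := Real.log_neg ht0 ht1
  have hlog16 : 0 < Real.log 16 := Real.log_pos (by norm_num)
  set a0 : ℝ := - Real.log t / Real.log 16 with ha0
  have ha0p : 0 < a0 := div_pos (neg_pos.2 hlog) hlog16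
  refine ⟨1 / t, min a0 (1 / 4), by positivity, lt_min ha0p (by norm_num), min_le_right _ _, ?_⟩
  intro n s R q hreg hs hsR hRn
  have hreg' : RSWreg c' n q := reg_mono_c hreg (min_le_left _ _)
  -- the probability of the intersection of the annulus events
  have key : ∀ k : ℕ, s * 16 ^ k ≤ n → Pr q (AnnT s k) ≤ t ^ k := by
    intro k
    induction k with
    | zero => intro _; rw [pow_zero]; exact Pr_le_one
    | succ k ih =>
      intro hk
      have hle : s * 16 ^ k ≤ s * 16 ^ (k + 1) :=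
        Nat.mul_le_mul_left s (Nat.pow_le_pow_right (by norm_num) (Nat.le_succ k))
      have h1 : Pr q (AnnT s (k + 1)) =
          Pr q (AnnT s k) * Pr q (Ann (s * 16 ^ k + 2) (s * 16 ^ (k + 1))) :=
        Pr_inter_of_disjoint (localOn_annT s k) (localOn_ann _ _) (disj_eBall _ _)
      have h2 : Pr q (Ann (s * 16 ^ k + 2) (s * 16 ^ (k + 1))) ≤ t := by
        have h6 : 1 ≤ 16 ^ k := Nat.one_le_pow _ _ (by norm_num)
        have h5 : 1 ≤ s * 16 ^ k := Nat.one_le_iff_ne_zero.2 (by positivity)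
        have h7 : s * 16 ^ (k + 1) = 16 * (s * 16 ^ k) := by ring
        have h3 : 2 * (s * 16 ^ k + 2 + 1) ≤ s * 16 ^ (k + 1) := by omega
        have h4 := armBox_reg_le hc0 hreg' h3 (by omega) hk
        have h5 : Pr q (Ann (s * 16 ^ k + 2) (s * 16 ^ (k + 1))) ≤
            Pr q (ArmBox 0 (s * 16 ^ k + 2 + 1) (s * 16 ^ (k + 1))) :=
          Pr_mono (ann_subset_armBox _ _)
        linarith
      rw [h1, pow_succ]
      exact mul_le_mul (ih (hle.trans hk)) h2 Pr_nonneg (pow_nonneg ht0.le k)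
  set k := Nat.log 16 (R / s) with hk
  have hRs : R / s ≠ 0 := by
    have : 0 < R / s := Nat.div_pos hsR hs
    omega
  have hk1 : s * 16 ^ k ≤ R := by
    have h1 : 16 ^ k ≤ R / s := Nat.pow_log_le_self 16 hRs
    calc s * 16 ^ k ≤ s * (R / s) := Nat.mul_le_mul_left s h1
      _ ≤ R := Nat.mul_div_le R s
  have hk2 : R < s * 16 ^ (k + 1) := by
    have h1 : R / s < 16 ^ (k + 1) := Nat.lt_pow_succ_log_self (by norm_num) (R / s)
    rw [mul_comm]
    exact (Nat.div_lt_iff_lt_mul hs).1 h1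
  have h1 : Pr q (ArmBox 0 s R) ≤ t ^ k :=
    (Pr_mono (armBox_subset_annT hs k hk1)).trans (key k (hk1.trans hRn))
  have hs0 : (0 : ℝ) < s := by exact_mod_cast hs
  have hR0 : (0 : ℝ) < R := by exact_mod_cast (by omega : 0 < R)
  have hx0 : 0 < (s : ℝ) / R := by positivity
  have hx1 : (s : ℝ) / R ≤ 1 := by
    rw [div_le_one hR0]
    exact_mod_cast hsR
  have hx2 : ((16 : ℝ) ^ (k + 1))⁻¹ ≤ (s : ℝ) / R := by
    rw [inv_eq_one_div, div_le_div_iff₀ (by positivity) hR0, one_mul]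
    exact_mod_cast hk2.le
  have h2 : t ^ (k + 1) ≤ ((s : ℝ) / R) ^ a0 := by
    have h3 : (((16 : ℝ) ^ (k + 1))⁻¹) ^ a0 = t ^ (k + 1) := by
      rw [Real.inv_rpow (by positivity), ← Real.rpow_natCast (16 : ℝ) (k + 1),
        ← Real.rpow_mul (by norm_num), mul_comm, Real.rpow_mul (by norm_num), Real.rpow_natCast,
        ← inv_pow]
      congr 1
      rw [Real.rpow_def_of_pos (by norm_num)]
      have : Real.log 16 * a0 = - Real.log t := by
        rw [ha0]; field_simp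
      rw [this, Real.exp_neg, Real.exp_log ht0, inv_inv]
    rw [← h3]
    exact Real.rpow_le_rpow (by positivity) hx2 ha0p.le
  have h3 : ((s : ℝ) / R) ^ a0 ≤ ((s : ℝ) / R) ^ (min a0 (1 / 4)) :=
    Real.rpow_le_rpow_of_exponent_ge hx0 hx1 (min_le_left _ _)
  calc Pr q (ArmBox 0 s R) ≤ t ^ k := h1
    _ = 1 / t * t ^ (k + 1) := by rw [pow_succ]; field_simp
    _ ≤ _ := mul_le_mul_of_nonneg_left (h2.trans h3) (by positivity)

/-- One-arm decay in the regime. -/
theorem armBox_decay (c : ℝ) (hc : 0 < c) (K : ℕ) : ∃ C κ : ℝ, 0 < C ∧ 0 < κ ∧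
    ∀ (n : ℕ) (q : I), 1 ≤ n → RSWreg c n q → ∀ (v : Vert) (s r : ℕ), 1 ≤ s → s ≤ r → r ≤ K * n →
      Pr q (ArmBox v s r) ≤ C * ((s : ℝ) / r) ^ κ := by
  obtain ⟨c', hc', H⟩ := noarm_ext hc K
  obtain ⟨C, κ, hC, hκ, -, H2⟩ := armBox_decay0 hc'
  refine ⟨C, κ, hC, hκ, fun n q hn h v s r hs hsr hr => ?_⟩
  rw [Pr_armBox]
  exact H2 (K * n) s r q (H n q hn h) hs hsr hr

end Pool.Agent.H83.SK

end

section

/-!
# Separated four-arm events for site percolation: definitions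

Everything is at the level of the sites: a configuration `w` gives the states of the sites, stored
at the coordinates `sv v`; `sit w` is the induced bond configuration.  Filling a set `Z` means
opening the sites of `Z`.
-/

set_option autoImplicit false

open MeasureTheory ProbabilityTheory unitInterval

namespace Pool.Agent.H38.N59

open Pool.Agent.H89.Perc
open Pool.Agent.H83.SK (sv sit sit_true)
open Pool.Agent.H59.EX (LocS inE touch clus closeS Side T Mouth Fence dom)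

/-- The coordinates of the sites of `S`. -/
def vE (S : Set Vert) : Set Edge := {g | g.2.2 = false ∧ src g ∈ S}

/-- The coordinates of the end points of the edges of `t`. -/
def en (t : Set Edge) : Set Edge := {g | ∃ e ∈ t, g = sv (src e) ∨ g = sv (tgt e)}

/-- The sites which are determined when the cluster `S` in the domain `D` is known. -/
def rv (D S : Set Vert) : Set Edge := en (touch D S)

/-- Open the sites of `Z`. -/
noncomputable def fillS (Z : Set Vert) (w : Config) : Config := fun e => by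
  classical exact w e || decide (e ∈ vE Z)

/-- A source: two points near the origin and a finite set of closed sites near the origin. -/
structure Src where
  /-- first point -/
  x : Vert
  /-- second point -/
  y : Vert
  /-- closed sites -/
  V0 : Finset Vert
  hx : x ∈ ball 0 2
  hy : y ∈ ball 0 2
  hV : ∀ v ∈ V0, v ∈ ball 0 2

/-- The configuration with the sites of the source closed. -/
noncomputable def Src.cut (s : Src) (w : Config) : Config := closeS (vE (s.V0 : Set Vert)) w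

/-- Four-arm event of a source: both points are joined to the sphere of radius `r` and not to each
other, in `ball 0 r`. -/
def Four (s : Src) (r : ℕ) : Set Config :=
  {w | (∃ u ∈ sphere 0 r, Conn (sit (s.cut w)) (ball 0 r) s.x u) ∧
    (∃ u ∈ sphere 0 r, Conn (sit (s.cut w)) (ball 0 r) s.y u) ∧
    ¬ Conn (sit (s.cut w)) (ball 0 r) s.x s.y}

/-- The configuration with the two target rectangles filled. -/
noncomputable def Src.ful (s : Src) (d d' : Side) (k : ℕ) (w : Config) : Config :=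
  fillS (T d k ∪ T d' k) (s.cut w)

/-- Separated four-arm event. -/
def Sep (s : Src) (d d' : Side) (k : ℕ) : Set Config :=
  {w | Fence d k (sit (s.cut w)) (dom d d' k) s.x ∧ Fence d' k (sit (s.cut w)) (dom d d' k) s.y ∧
    ¬ Conn (sit (s.ful d d' k w)) (dom d d' k) s.x s.y ∧
    (∀ v ∈ sphere 0 (32 * k), Conn (sit (s.ful d d' k w)) (dom d d' k) s.x v → v ∈ Mouth d k) ∧
    (∀ v ∈ sphere 0 (32 * k), Conn (sit (s.ful d d' k w)) (dom d d' k) s.y v → v ∈ Mouth d' k)}

/-- Cluster of the first point with filled targets. -/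
noncomputable def FX (s : Src) (d d' : Side) (k : ℕ) (w : Config) : Set Vert :=
  clus (sit (s.ful d d' k w)) (dom d d' k) {s.x}

/-- Cluster of the second point with filled targets. -/
noncomputable def FY (s : Src) (d d' : Side) (k : ℕ) (w : Config) : Set Vert :=
  clus (sit (s.ful d d' k w)) (dom d d' k) {s.y}

/-- The determined sites. -/
def det (π : Edge → Edge) (d d' : Side) (k : ℕ) (C S : Set Vert) : Set Edge :=
  Pool.Agent.H59.EX.sat π (rv (dom d d' k) S ∪ vE C)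

/-- With the sites of `t` closed, no path leads from `ball g ρ` out of `ball g (3 ρ)`, for all
centres `g ∈ G`. -/
def Seal (G : Finset Vert) (ρ : ℕ) (t : Set Edge) : Set Config :=
  {w | ∀ g ∈ G, ∀ u ∈ ball g ρ, ∀ v, v ∉ ball g (3 * ρ) → ¬ Conn (sit (closeS t w)) Set.univ u v}

/-! ### Elementary facts -/

variable {w w' η : Config} {D X S Z V : Set Vert} {t t' : Set Edge} {a b x : Vert} {e g : Edge}

@[simp] theorem sv_mem_vE : sv a ∈ vE S ↔ a ∈ S := by
  simp [vE, sv, src]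

theorem vE_mono (h : S ⊆ Z) : vE S ⊆ vE Z := fun _ he => ⟨he.1, h he.2⟩

theorem en_mono (h : t ⊆ t') : en t ⊆ en t' := by
  rintro g ⟨e, he, h1⟩
  exact ⟨e, h he, h1⟩

theorem rv_sub : rv D S ⊆ vE D := by
  rintro g ⟨e, he, rfl | rfl⟩
  · exact sv_mem_vE.2 he.1.1
  · exact sv_mem_vE.2 he.1.2

theorem sit_joins (hj : Joins e a b) : sit w e = true ↔ w (sv a) = true ∧ w (sv b) = true := by
  rw [sit_true]
  rcases hj with ⟨h1, h2⟩ | ⟨h1, h2⟩ <;> rw [h1, h2]
  exact and_comm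

theorem fillS_true : fillS Z w g = true ↔ w g = true ∨ g ∈ vE Z := by
  classical
  unfold fillS
  rw [Bool.or_eq_true, decide_eq_true_iff]

theorem fill_sv : fillS Z w (sv a) = true ↔ w (sv a) = true ∨ a ∈ Z := by
  rw [fillS_true, sv_mem_vE]

theorem closeS_true : closeS t w g = true ↔ w g = true ∧ g ∉ t :=
  Pool.Agent.H59.EX.closeS_true

theorem cut_sv {s : Src} : s.cut w (sv a) = true ↔ w (sv a) = true ∧ a ∉ s.V0 := by
  unfold Src.cut
  rw [closeS_true, sv_mem_vE, Finset.mem_coe]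

theorem cut_le {s : Src} (h : s.cut w g = true) : w g = true := by
  unfold Src.cut at h
  exact (closeS_true.1 h).1

theorem fillS_mono (hZ : S ⊆ Z) : fillS S w g = true → fillS Z w g = true := by
  rw [fillS_true, fillS_true]
  rintro (h | h)
  · exact Or.inl h
  · exact Or.inr (vE_mono hZ h)

theorem le_fillS (h : w g = true) : fillS Z w g = true := fillS_true.2 (Or.inl h)

theorem cut_congr {s : Src} (h : w g = w' g) : s.cut w g = s.cut w' g := by
  unfold Src.cut closeS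
  rw [h]

theorem cut_incr {s : Src} (h : ∀ g, w g = true → w' g = true) (g : Edge)
    (hg : s.cut w g = true) : s.cut w' g = true := by
  unfold Src.cut at hg ⊢
  rw [closeS_true] at hg ⊢
  exact ⟨h g hg.1, hg.2⟩

theorem fill_congr (h : g ∉ vE Z → w g = w' g) : fillS Z w g = fillS Z w' g := by
  by_cases hg : g ∈ vE Z
  · simp [fillS, hg]
  · simp [fillS, hg, h hg]

theorem sit_congr (h : ∀ g ∈ en t, w g = w' g) (he : e ∈ t) : sit w e = sit w' e := by
  unfold sit
  rw [h _ ⟨e, he, Or.inl rfl⟩, h _ ⟨e, he, Or.inr rfl⟩]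

theorem sit_congr' (h : ∀ g ∈ vE S, w g = w' g) (h1 : src e ∈ S) (h2 : tgt e ∈ S) :
    sit w e = sit w' e := by
  unfold sit
  rw [h _ (sv_mem_vE.2 h1), h _ (sv_mem_vE.2 h2)]

theorem sit_mono (h : ∀ g, w g = true → w' g = true) (e : Edge) (he : sit w e = true) :
    sit w' e = true := Pool.Agent.H83.SK.sit_mono h e he

/-- Local events of the induced configuration. -/
theorem locS_sit {A : Set Config} (h : LocS t A) : LocS (en t) {w | sit w ∈ A} :=
  fun _ _ hw hA => h _ _ (fun _ he => sit_congr hw he) hA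

theorem locS_sit_inE {A : Set Config} (h : LocS (inE S) A) : LocS (vE S) {w | sit w ∈ A} :=
  fun _ _ hw hA => h _ _ (fun _ he => sit_congr' hw he.1 he.2) hA

theorem incr_sit {A : Set Config} (h : Incr A) : Incr {w | sit w ∈ A} :=
  fun _ _ hw hA => h _ _ (sit_mono hw) hA

theorem conn_congr (h : ∀ g ∈ vE D, w g = w' g) (hc : Conn (sit w) D a b) :
    Conn (sit w') D a b :=
  hc.congr fun _ h1 h2 => sit_congr' h h1 h2

theorem conn_mono {D' : Set Vert} (hD : D ⊆ D') (h : ∀ g, w g = true → w' g = true)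
    (hc : Conn (sit w) D a b) : Conn (sit w') D' a b :=
  hc.mono hD (sit_mono h)

theorem of_mem_rv (h : sv b ∈ rv D S) : ∃ a e, Joins e a b ∧ a ∈ D ∧ b ∈ D ∧ (a ∈ S ∨ b ∈ S) := by
  obtain ⟨e, he, h1 | h1⟩ := h
  · have h2 := Pool.Agent.H83.SK.sv_injective h1
    rw [h2]
    exact ⟨tgt e, e, Or.inr ⟨rfl, rfl⟩, he.1.2, he.1.1, he.2.symm⟩
  · have h2 := Pool.Agent.H83.SK.sv_injective h1
    rw [h2]
    exact ⟨src e, e, Or.inl ⟨rfl, rfl⟩, he.1.1, he.1.2, he.2⟩

/-- The cluster of an open site consists of open sites. -/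
theorem open_of_clus (hx : η (sv x) = true) (h : a ∈ clus (sit η) D {x}) :
    η (sv a) = true := by
  have hc : Conn (sit η) D x a := Pool.Agent.H59.EX.mem_clus_single.1 h
  refine hc.induction_right (P := fun a => η (sv a) = true) hx ?_
  rintro a b _ ⟨-, -, e, hj, ho⟩ _
  exact ((sit_joins hj).1 ho).2

/-- The end points of a path between different vertices are open. -/
theorem open_of_conn (h : Conn (sit η) D a b) (hab : a ≠ b) : η (sv a) = true := by
  obtain ⟨_, h2⟩ := h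
  rcases Relation.ReflTransGen.cases_head h2 with h3 | ⟨c, h3, -⟩
  · exact absurd h3 hab
  · obtain ⟨-, -, e, hj, ho⟩ := h3
    exact ((sit_joins hj).1 ho).1

/-- Open neighbours of the cluster belong to the cluster. -/
theorem clus_adj (ha : a ∈ clus (sit η) D X) (hoa : η (sv a) = true) (hob : η (sv b) = true)
    (hj : Joins e a b) (hb : b ∈ D) : b ∈ clus (sit η) D X :=
  Pool.Agent.H59.EX.clus_step ha ⟨Pool.Agent.H59.EX.clus_sub ha, hb, e, hj,
    (sit_joins hj).2 ⟨hoa, hob⟩⟩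

/-- The value of a cluster is determined by the sites of `rv D S`. -/
theorem locS_clus (D X S : Set Vert) : LocS (rv D S) {w | clus (sit w) D X = S} :=
  locS_sit (Pool.Agent.H59.EX.locS_clus D X S)

/-- The same with the sites of `Z` filled. -/
theorem clus_fill_congr {s : Src} (h : ∀ g ∈ rv D S, g ∉ vE Z → w g = w' g)
    (hw : clus (sit (fillS Z (s.cut w))) D X = S) :
    clus (sit (fillS Z (s.cut w'))) D X = S :=
  locS_clus D X S _ _ (fun g hg => fill_congr fun hZ => cut_congr (h g hg hZ)) hw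

theorem clus_cut_congr {s : Src} (h : ∀ g ∈ rv D S, w g = w' g)
    (hw : clus (sit (s.cut w)) D X = S) : clus (sit (s.cut w')) D X = S :=
  locS_clus D X S _ _ (fun g hg => cut_congr (h g hg)) hw

/-- Filled sets are connected. -/
theorem conn_fillS (hZ : Z ⊆ D) (h : Conn allOpen Z a b) : Conn (sit (fillS Z w)) D a b := by
  refine h.induction_right (P := fun b => Conn (sit (fillS Z w)) D a b)
    (Conn.refl (hZ h.mem_left)) ?_
  rintro a' b' _ ⟨h1, h2, e, he, _⟩ h3
  exact h3.tail ⟨hZ h1, hZ h2, e, he, (sit_joins he).2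
    ⟨fill_sv.2 (Or.inr h1), fill_sv.2 (Or.inr h2)⟩⟩

/-- The configurations `w` and `s.cut w` agree off `ball 0 2`. -/
theorem cut_of_not_ball {s : Src} (h : a ∉ ball 0 2) : s.cut w (sv a) = w (sv a) := by
  refine Bool.eq_iff_iff.2 ?_
  rw [cut_sv]
  exact ⟨fun h1 => h1.1, fun h1 => ⟨h1, fun h2 => h (s.hV a h2)⟩⟩

/-- If `x` is joined to `u` then the sites of the path are in the cluster of `x` in a bigger
configuration. -/
theorem conn_transfer {D S : Set Vert} {x u : Vert}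
    (hS : ∀ a, Conn (sit w) D x a → a ∈ S) (h : ∀ a ∈ S, w (sv a) = w' (sv a))
    (hc : Conn (sit w) D x u) : Conn (sit w') D x u := by
  refine hc.induction_right (P := fun u => Conn (sit w') D x u) (Conn.refl hc.mem_left) ?_
  rintro a b hxa ⟨ha, hb, e, hj, ho⟩ ih
  have h1 := hS a hxa
  have h2 := hS b (hxa.tail ⟨ha, hb, e, hj, ho⟩)
  refine ih.tail ⟨ha, hb, e, hj, ?_⟩
  rw [sit_joins hj] at ho ⊢
  rw [← h a h1, ← h b h2]
  exact ho

theorem fence_congr {d : Side} {k : ℕ} {x : Vert} (hT : ∀ g ∈ vE (T d k), w g = w' g)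
    (hD : ∀ g ∈ vE D, w g = w' g) (h : Fence d k (sit w) D x) : Fence d k (sit w') D x :=
  Pool.Agent.H59.EX.fence_congr (fun _ he => sit_congr' hT he.1 he.2)
    (fun _ he => sit_congr' hD he.1 he.2) h

end Pool.Agent.H38.N59

end

section

/-!
# Outward separation for sites: definitions and elementary facts for the stages

The corridors and their crossing events are those of the bond setting, evaluated at the induced
configuration.
-/

set_option autoImplicit false

open MeasureTheory ProbabilityTheory unitInterval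

namespace Pool.Agent.H38.N59

open Pool.Agent.H89.Perc
open Pool.Agent.H83.SK (sv sit sit_true RSWreg)
open Pool.Agent.H59.EX (LocS inE touch clus closeS Side T Mouth Fence dom CorrData CorrSep clus_sub clus_step clus_conn mem_clus_single conn_in_clus fence_mem corr_inter corr_far corr_sub160 mem_sphere_of_joins)

/-- Cluster of the second point in `ball 0 (8 w)`. -/
def SY (s : Src) (w : ℕ) (ω : Config) : Set Vert := clus (sit (s.cut ω)) (ball 0 (8 * w)) {s.y}

/-- Cluster of the first point in `ball 0 (8 w) ∪ Z`, with `Z` filled. -/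
noncomputable def S1 (s : Src) (w : ℕ) (Z : Set Vert) (ω : Config) : Set Vert :=
  clus (sit (fillS Z (s.cut ω))) (ball 0 (8 * w) ∪ Z) {s.x}

/-- Cluster of the first point in `ball 0 (160 w)`, with `Z` filled. -/
noncomputable def SH (s : Src) (w : ℕ) (Z : Set Vert) (ω : Config) : Set Vert :=
  clus (sit (fillS Z (s.cut ω))) (ball 0 (160 * w)) {s.x}

/-- Stage 0: `x` lands near `v`, the cluster of `y` is far from `v`. -/
def Ev0 (s : Src) (w ρ : ℕ) (v : Vert) : Set Config :=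
  {ω | (∃ u ∈ sphere 0 (8 * w), u ∈ ball v ρ ∧ Conn (sit (s.cut ω)) (ball 0 (8 * w)) s.x u) ∧
    (∃ u ∈ sphere 0 (8 * w), Conn (sit (s.cut ω)) (ball 0 (8 * w)) s.y u) ∧
    ¬ Conn (sit (s.cut ω)) (ball 0 (8 * w)) s.x s.y ∧ Disjoint (SY s w ω) (ball v (11 * ρ))}

/-- The clusters of `x` (after gluing) and of `y` are nowhere both close to the same vertex of the
sphere. -/
def Good12 (s : Src) (w ρ' : ℕ) (Z : Set Vert) : Set Config :=
  {ω | ∀ z ∈ sphere 0 (8 * w), (S1 s w Z ω ∩ ball z (12 * ρ')).Nonempty →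
    ¬ (SY s w ω ∩ ball z (12 * ρ')).Nonempty}

/-- The cluster of `x` is confined, contains a fence, and misses `y`. -/
def Conf (s : Src) (w ρ' : ℕ) (d : Side) (Z : Set Vert) : Set Config :=
  {ω | s.y ∉ SH s w Z ω ∧
    Fence d (4 * w) (sit (s.cut ω)) (SH s w Z ω ∩ (ball 0 (8 * w) ∪ Z)) s.x ∧
    ∀ z ∈ SH s w Z ω, z ∈ ball 0 (8 * w) ∨ (∃ a ∈ Z, ball z 1 ⊆ ball a (4 * ρ')) ∨
      ∃ a ∈ SH s w Z ω, a ∈ sphere 0 (8 * w) ∧ ball z 1 ⊆ ball a (4 * ρ')}

/-- Stage 2 result. -/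
def Ev2 (s : Src) (w ρ ρ' : ℕ) (v : Vert) (d : Side) (Z : Set Vert) : Set Config :=
  {ω | ω ∈ Conf s w ρ' d Z ∧ ∃ u ∈ sphere 0 (8 * w), u ∉ ball v (11 * ρ) ∧
    Conn (sit (s.cut ω)) (ball 0 (8 * w) \ SH s w Z ω) s.y u ∧
    Disjoint (SH s w Z ω) (ball u (8 * ρ'))}

/-- Stage 3: `y` lands near `v'`. -/
def Ev3 (s : Src) (w ρ' : ℕ) (v' : Vert) (d : Side) (Z : Set Vert) : Set Config :=
  {ω | ω ∈ Conf s w ρ' d Z ∧ (∃ u ∈ sphere 0 (8 * w), u ∈ ball v' ρ' ∧
    Conn (sit (s.cut ω)) (ball 0 (8 * w) \ SH s w Z ω) s.y u) ∧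
    Disjoint (SH s w Z ω) (ball v' (7 * ρ'))}

variable {ω : Config} {s : Src} {w ρ ρ' : ℕ} {v v' : Vert} {d d' : Side} {Z Zy : Set Vert}
  {Nev Ny : Set Config} {a b z : Vert}

theorem ball_mono' {z : Vert} {r r' : ℕ} (h : r ≤ r') : ball z r ⊆ ball z r' := by
  intro a ha
  simp only [mem_ball] at ha ⊢
  omega

theorem ball_symm' {a b : Vert} {r : ℕ} (h : a ∈ ball b r) : b ∈ ball a r := by
  simp only [mem_ball] at h ⊢
  omega

/-- A vertex near `a`, with room for its neighbours. -/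
theorem near_sub {r R : ℕ} (h : z ∈ ball a r) (hR : r + 1 ≤ R) : ball z 1 ⊆ ball a R := by
  intro b hb
  simp only [mem_ball] at h hb ⊢
  push_cast at hb
  omega

theorem near_self {r : ℕ} (hr : 1 ≤ r) : ball z 1 ⊆ ball z r := ball_mono' hr

theorem mem_of_near {r : ℕ} (h : ball z 1 ⊆ ball a r) : z ∈ ball a r := h self_mem_ball

theorem corr_cut (hK : CorrData w ρ v d Z Nev) (hρ : 1 ≤ ρ) (hw : 64 * ρ ≤ w)
    (hv : v ∈ sphere 0 (8 * w)) {g : Edge} (hg : g ∈ vE Z) : s.cut ω g = ω g := by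
  obtain ⟨h1, h2⟩ := hg
  have h3 : g = sv (src g) := by
    obtain ⟨x, y, t⟩ := g
    have h4 : t = false := h1
    simp [sv, src, h4]
  rw [h3]
  exact cut_of_not_ball fun h => corr_far hK hρ hw hv h2 (ball_mono' (by omega) h)

/-- The cluster of `y` is closed under steps of the filled configuration in `D ∪ Z`. -/
theorem SY_closed (hK : CorrData w ρ v d Z Nev) (hρ : 1 ≤ ρ)
    (h : Disjoint (SY s w ω) (ball v (11 * ρ))) {a b : Vert} (ha : a ∈ SY s w ω)
    (hs : Step (sit (fillS Z (s.cut ω))) (ball 0 (8 * w) ∪ Z) a b) : b ∈ SY s w ω := by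
  have haD : a ∈ ball 0 (8 * w) := clus_sub ha
  have hfar : a ∉ ball v (5 * ρ) := fun h1 =>
    Set.disjoint_left.1 h ha (ball_mono' (by omega) h1)
  obtain ⟨_, h2, e, he, ho⟩ := hs
  obtain ⟨hoa, hob⟩ := (sit_joins he).1 ho
  rw [fill_sv] at hoa hob
  have haZ : a ∉ Z := fun h1 => hfar (corr_inter hK ⟨h1, haD⟩)
  have hbZ : b ∉ Z := fun h1 =>
    hfar (hK.inter b h1 a haD (ball_mono' hρ (Pool.Agent.H59.EX.ball_of_joins he)))
  exact clus_step ha ⟨haD, h2.resolve_right hbZ, e, he,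
    (sit_joins he).2 ⟨hoa.resolve_right haZ, hob.resolve_right hbZ⟩⟩

/-- F1. -/
theorem S1_disj_SY (hK : CorrData w ρ v d Z Nev) (hρ : 1 ≤ ρ)
    (h : Disjoint (SY s w ω) (ball v (11 * ρ)))
    (hxy : ¬ Conn (sit (s.cut ω)) (ball 0 (8 * w)) s.x s.y) :
    Disjoint (S1 s w Z ω) (SY s w ω) := by
  rw [Set.disjoint_left]
  intro z hz hz'
  have h1 : Conn (sit (fillS Z (s.cut ω))) (ball 0 (8 * w) ∪ Z) z s.x :=
    (mem_clus_single.1 hz).symm
  have h2 : s.x ∈ SY s w ω := h1.induction_right (P := fun b => b ∈ SY s w ω) hz'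
    fun a b _ h3 h4 => SY_closed hK hρ h h4 h3
  exact hxy (mem_clus_single.1 h2).symm

private theorem fact_sub160 (hK : CorrData w ρ v d Z Nev) :
    ball 0 (8 * w) ∪ Z ⊆ ball 0 (160 * w) :=
  Set.union_subset (ball_mono' (by omega)) (corr_sub160 hK)

theorem S1_sub_SH (hK : CorrData w ρ v d Z Nev) : S1 s w Z ω ⊆ SH s w Z ω :=
  Pool.Agent.H59.EX.clus_mono (fact_sub160 hK) fun _ h => h

/-- If the cluster of `x` meets the filled corridor it contains it. -/
theorem Z_sub_SH (hK : CorrData w ρ v d Z Nev) {a : Vert} (ha : a ∈ Z) (ha' : a ∈ SH s w Z ω) :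
    Z ⊆ SH s w Z ω := by
  intro b hb
  exact clus_conn ha' (conn_fillS (corr_sub160 hK) (hK.conn a ha b hb))

theorem Z_sub_S1 (hK : CorrData w ρ v d Z Nev) {a : Vert} (ha : a ∈ Z) (ha' : a ∈ S1 s w Z ω) :
    Z ⊆ S1 s w Z ω := by
  intro b hb
  exact clus_conn ha' (conn_fillS Set.subset_union_right (hK.conn a ha b hb))

theorem Z_sub_SH_of_conf (hK : CorrData w ρ v d Z Nev) (h : ω ∈ Conf s w ρ' d Z) :
    Z ⊆ SH s w Z ω := by
  obtain ⟨_, hF, _⟩ := h
  obtain ⟨u, hu, hc⟩ := fence_mem hF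
  exact Z_sub_SH hK (hK.T_sub hu) hc.mem_right.1

/-- The second corridor and its neighbours miss every confined set. -/
theorem conf_far (hKy : CorrData w ρ' v' d' Zy Ny) (hS : CorrSep w ρ' v' Z Zy)
    (hρ' : 1 ≤ ρ') {S : Set Vert}
    (hconf : ∀ z ∈ S, z ∈ ball 0 (8 * w) ∨ (∃ a ∈ Z, ball z 1 ⊆ ball a (4 * ρ')) ∨
      ∃ a ∈ S, a ∈ sphere 0 (8 * w) ∧ ball z 1 ⊆ ball a (4 * ρ'))
    (hd : Disjoint S (ball v' (7 * ρ'))) {z z' : Vert} (hz : z ∈ Zy) (hz' : z' ∈ ball z 1) :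
    z' ∉ S := by
  rw [Set.disjoint_left] at hd
  intro hS'
  rcases hconf z' hS' with h1 | ⟨a, ha, h1⟩ | ⟨a, ha, ha', h1⟩
  · exact hd hS' (ball_mono' (by omega) (hKy.inter z hz z' h1 (ball_mono' hρ' hz')))
  · exact hS.far a ha z hz (ball_mono' (by omega) (h1 (ball_symm' hz')))
  · exact hd ha (hS.fringe z hz a ha' (h1 (ball_symm' hz')))

/-- The second corridor misses the confined cluster. -/
theorem Zy_disj_SH (hKy : CorrData w ρ' v' d' Zy Ny) (hS : CorrSep w ρ' v' Z Zy)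
    (hρ' : 1 ≤ ρ') (h : ω ∈ Conf s w ρ' d Z) (hd : Disjoint (SH s w Z ω) (ball v' (7 * ρ'))) :
    Disjoint Zy (SH s w Z ω) := by
  rw [Set.disjoint_left]
  intro z hz
  exact conf_far hKy hS hρ' h.2.2 hd hz self_mem_ball

/-- The points of the source are far from the sphere. -/
theorem src_far (h : a ∈ ball 0 2) (hρ : 1 ≤ ρ) (hw : 64 * ρ ≤ w) (hv : v ∈ sphere 0 (8 * w)) :
    a ∉ ball v (3 * ρ) := by
  intro h1
  have h2 := hv.2
  simp only [mem_ball, Prod.fst_zero, Prod.snd_zero] at h h1 h2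
  push_cast at h h1 h2
  omega

theorem src_mem (h : a ∈ ball 0 2) (hw : 1 ≤ w) : a ∈ ball 0 (8 * w) := by
  simp only [mem_ball, Prod.fst_zero, Prod.snd_zero] at h ⊢
  push_cast at h ⊢
  omega

theorem src_ne (h : a ∈ ball 0 2) (hw : 1 ≤ w) {u : Vert} (hu : u ∈ sphere 0 (8 * w)) :
    a ≠ u := by
  rintro rfl
  have h2 := hu.2
  simp only [mem_ball, Prod.fst_zero, Prod.snd_zero] at h h2
  push_cast at h h2
  omega

/-- The point of a fence of the source is open. -/
theorem open_of_fence {η : Config} {D : Set Vert} {k : ℕ} (hk : 1 ≤ k) (h : a ∈ ball 0 2)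
    (hf : Fence d k (sit η) D a) : η (sv a) = true := by
  obtain ⟨u, hu, hc⟩ := fence_mem hf
  refine open_of_conn hc ?_
  rintro rfl
  cases d
  all_goals
    simp only [T, rect, Set.mem_ofPred_eq] at hu
    simp only [mem_ball, Prod.fst_zero, Prod.snd_zero] at h
    push_cast at h
    omega

/-- A finite set which contains all the sites of `ball 0 r`. -/
theorem exists_fin (r : ℕ) : ∃ Λ : Finset Edge, ∀ g ∈ vE (ball 0 r), g ∈ Λ := by
  refine ⟨eRect (-(r : ℤ)) r (-(r : ℤ)) r, fun g hg => ?_⟩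
  rw [mem_eRect]
  have h := hg.2
  unfold ball at h
  simp only [Prod.fst_zero, Prod.snd_zero, zero_sub, zero_add] at h
  exact h

/-- A path only looks at the sites of its cluster. -/
theorem conn_of_sub {D S : Set Vert} {ω' : Config} {x u : Vert}
    (hS : ∀ a, Conn (sit (s.cut ω)) D x a → a ∈ S) (h : ∀ g ∈ vE S, ω g = ω' g)
    (hc : Conn (sit (s.cut ω)) D x u) : Conn (sit (s.cut ω')) D x u :=
  conn_transfer hS (fun _ ha => cut_congr (h _ (sv_mem_vE.2 ha))) hc

end Pool.Agent.H38.N59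

end
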