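import Pool.Agent.H31.PT.H29.Sep.Rect
import Pool.Agent.H31.PT.M06
import Pool.Agent.H31.PT.M09

/-! The parts of this file: H89.Perc.WindExcl, H31.EX.WindReg, H89.Perc.TorusDet, H31.EX.BlockRule, H31.EX.BlockReveal, H31.EX.BlockLow, H61.NC.BlockTwo, H29.Sep.A4Low, H29.Sep.OuterSplit, H59.EX.MoveDef, H59.EX.MoveTurn, H59.EX.MoveStr. -/

section

/-!
# An open horizontal winding path excludes a dual vertical winding path
-/

open MeasureTheory ProbabilityTheory unitInterval

namespace Pool.Agent.H89.Perc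

/-- A configuration is invariant under the translation by `z`. -/
private def WindExclInv (η : Config) (z : Vert) : Prop :=
  ∀ e : Edge, η (e.1 + z.1, e.2.1 + z.2, e.2.2) = η e

private lemma windExcl_inv_neg {η : Config} {z : Vert} (h : WindExclInv η z) :
    WindExclInv η (-z.1, -z.2) := by
  intro e
  have := h (e.1 + -z.1, e.2.1 + -z.2, e.2.2)
  simp only [neg_add_cancel_right] at this
  exact this.symm

private lemma windExcl_dual {η : Config} {z : Vert} (h : WindExclInv η z) :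
    WindExclInv (dual η) z := by
  rintro ⟨x, y, b⟩
  cases b
  · simp only [dual, crossed, Bool.false_eq_true, if_false]
    have := h (x + 1, y, true)
    simp only at this
    rw [← this]
    congr 2
    simp only [Prod.mk.injEq, and_true]
    ring
  · simp only [dual, crossed, if_true]
    have := h (x, y + 1, false)
    simp only at this
    rw [← this]
    congr 2
    simp only [Prod.mk.injEq, and_true, true_and]
    ring

private lemma windExcl_step {η : Config} {z : Vert} (h : WindExclInv η z) {S T : Set Vert}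
    (hST : ∀ v ∈ S, (v.1 + z.1, v.2 + z.2) ∈ T) {u v : Vert} (hs : Step η S u v) :
    Step η T (u.1 + z.1, u.2 + z.2) (v.1 + z.1, v.2 + z.2) := by
  obtain ⟨h1, h2, ⟨x, y, b⟩, h3, h4⟩ := hs
  refine ⟨hST u h1, hST v h2, (x + z.1, y + z.2, b), ?_, ?_⟩
  · cases b
    · simp only [Joins, src, tgt, Bool.false_eq_true, if_false] at h3 ⊢
      rcases h3 with ⟨h5, h6⟩ | ⟨h5, h6⟩ <;> subst h5 h6
      · left; exact ⟨rfl, by ext <;> simp; ring⟩
      · right; exact ⟨by ext <;> simp; ring, rfl⟩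
    · simp only [Joins, src, tgt, if_true] at h3 ⊢
      rcases h3 with ⟨h5, h6⟩ | ⟨h5, h6⟩ <;> subst h5 h6
      · left; exact ⟨rfl, by ext <;> simp; ring⟩
      · right; exact ⟨by ext <;> simp; ring, rfl⟩
  · rw [← h4]
    exact h (x, y, b)

private lemma windExcl_conn {η : Config} {z : Vert} (h : WindExclInv η z) {S T : Set Vert}
    (hST : ∀ v ∈ S, (v.1 + z.1, v.2 + z.2) ∈ T) {u v : Vert} (hc : Conn η S u v) :
    Conn η T (u.1 + z.1, u.2 + z.2) (v.1 + z.1, v.2 + z.2) := by
  refine hc.induction_right (P := fun v => Conn η T (u.1 + z.1, u.2 + z.2) (v.1 + z.1, v.2 + z.2))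
    (Conn.refl (hST u hc.mem_left)) ?_
  intro a b _ hab ha
  exact ha.tail (windExcl_step h hST hab)

/-- Repeating a periodic path `K` times. -/
private lemma windExcl_repeat {η : Config} {z : Vert} (h : WindExclInv η z) {S : Set Vert}
    (hS : ∀ v ∈ S, (v.1 + z.1, v.2 + z.2) ∈ S) {u : Vert}
    (hc : Conn η S u (u.1 + z.1, u.2 + z.2)) (K : ℕ) :
    Conn η S u (u.1 + K * z.1, u.2 + K * z.2) := by
  induction K with
  | zero => simpa using Conn.refl hc.mem_left
  | succ K ih =>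
    have h1 := windExcl_conn h hS ih
    have h2 := hc.trans h1
    convert h2 using 1
    ext <;> simp <;> ring

/-- Repeating a periodic path in both directions. -/
private lemma windExcl_repeat2 {η : Config} {z : Vert} (h : WindExclInv η z) {S : Set Vert}
    (hS : ∀ v ∈ S, (v.1 + z.1, v.2 + z.2) ∈ S) (hS' : ∀ v ∈ S, (v.1 - z.1, v.2 - z.2) ∈ S)
    {u : Vert} (hc : Conn η S u (u.1 + z.1, u.2 + z.2)) (K : ℕ) :
    Conn η S (u.1 - K * z.1, u.2 - K * z.2) (u.1 + K * z.1, u.2 + K * z.2) := by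
  have h1 := windExcl_repeat h hS hc K
  have hneg := windExcl_inv_neg h
  have hSn : ∀ v ∈ S, (v.1 + (-z.1, -z.2).1, v.2 + (-z.1, -z.2).2) ∈ S := by
    intro v hv
    have := hS' v hv
    simpa [sub_eq_add_neg] using this
  have h2 : Conn η S u (u.1 + (-z.1, -z.2).1, u.2 + (-z.1, -z.2).2) := by
    have := windExcl_conn hneg hSn hc.symm
    convert this using 1
    ext <;> simp
  have h3 := windExcl_repeat hneg hSn h2 K
  have h4 := h3.symm.trans h1
  convert h4 using 1
  ext <;> simp <;> ring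

/-- A path is contained in a ball. -/
private lemma windExcl_bounded {η : Config} {S : Set Vert} {u v : Vert} (hc : Conn η S u v) :
    ∃ M : ℕ, Conn η (S ∩ ball 0 M) u v := by
  refine hc.induction_right (P := fun v => ∃ M : ℕ, Conn η (S ∩ ball 0 M) u v) ?_ ?_
  · refine ⟨(|u.1| + |u.2|).toNat, Conn.refl ⟨hc.mem_left, ?_⟩⟩
    rw [mem_ball]
    have h1 := abs_nonneg u.1
    have h2 := abs_nonneg u.2
    have h3 := le_abs_self u.1
    have h4 := neg_abs_le u.1
    have h5 := le_abs_self u.2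
    have h6 := neg_abs_le u.2
    simp only [Prod.fst_zero, Prod.snd_zero]
    omega
  · rintro a b _ hab ⟨M, hM⟩
    refine ⟨M + 1, ?_⟩
    have h1 : Conn η (S ∩ ball 0 (M + 1 : ℕ)) u a := hM.mono_set (by
      rintro x ⟨hx, hx'⟩
      refine ⟨hx, ?_⟩
      rw [mem_ball] at hx' ⊢
      push_cast
      omega)
    refine h1.tail ⟨h1.mem_right, ⟨hab.2.1, ?_⟩, hab.2.2⟩
    have h2 := hM.mem_right.2
    have h3 := hab.fst_le
    have h4 := hab.snd_le
    rw [mem_ball] at h2 ⊢
    push_cast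
    omega

private lemma windExcl_per (N : ℕ) (ω : Config) (i j : ℤ) :
    WindExclInv (per N ω) (i * N, j * N) := by
  intro e
  simp only [per]
  congr 2
  · exact Int.add_mul_emod_self_right _ _ _
  · congr 1
    exact Int.add_mul_emod_self_right _ _ _

private lemma wind_exclusion_pos {N : ℕ} (hN : 1 ≤ N) {ω : Config} {u : Vert} {a b : ℤ}
    (ha : 0 < a) (h : Conn (per N ω) Set.univ u (u.1 + a * N, u.2 + b * N)) (w : Vert) :
    ¬ Conn (dual (per N ω)) Set.univ w (w.1, w.2 + N) := by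
  intro hd
  set η := per N ω with hη
  have hN' : (1 : ℤ) ≤ N := by exact_mod_cast hN
  -- the dual path lies in a vertical strip
  obtain ⟨L, hL⟩ := windExcl_bounded hd
  set A : ℤ := -L with hA
  set B : ℤ := L + 1 with hB
  set S : Set Vert := {v | A ≤ v.1 ∧ v.1 ≤ B - 1} with hS
  have hd1 : Conn (dual η) S w (w.1 + ((0 : ℤ), (N : ℤ)).1, w.2 + ((0 : ℤ), (N : ℤ)).2) := by
    have : Conn (dual η) S w (w.1, w.2 + N) := hL.mono_set (by
      rintro x ⟨_, hx⟩
      rw [mem_ball] at hx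
      simp only [Prod.fst_zero, Prod.snd_zero] at hx
      simp only [hS, Set.mem_ofPred_eq, hA, hB]
      omega)
    simpa using this
  have hinv : WindExclInv (dual η) ((0 : ℤ), (N : ℤ)) := by
    have := windExcl_dual (windExcl_per N ω 0 1)
    simpa using this
  have hdK := windExcl_repeat2 hinv (S := S) (by
    intro v hv
    simpa [hS] using hv) (by
    intro v hv
    simpa [hS] using hv) hd1
  -- the primal path
  have hpK := windExcl_repeat2 (windExcl_per N ω a b) (S := Set.univ) (fun _ _ => trivial)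
    (fun _ _ => trivial) h
  obtain ⟨K, hK1, hK2⟩ : ∃ K : ℕ, u.1 - K * (a * N) ≤ A ∧ B ≤ u.1 + K * (a * N) := by
    refine ⟨(|u.1| + L + 1).toNat, ?_⟩
    have h1 := abs_nonneg u.1
    have h2 := le_abs_self u.1
    have h3 := neg_abs_le u.1
    have h4 : (((|u.1| + L + 1).toNat : ℕ) : ℤ) = |u.1| + L + 1 := by
      apply Int.toNat_of_nonneg
      omega
    rw [h4]
    have h5 : 1 ≤ a * N := by nlinarith
    have h6 : |u.1| + L + 1 ≤ (|u.1| + L + 1) * (a * N) := by nlinarith
    constructor <;> omega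
  obtain ⟨M, hM⟩ := windExcl_bounded (hpK K)
  obtain ⟨u', v', hu', hv', hc, _, _⟩ := hM.cross_x (a := A) (b := B) hK1 hK2 (by omega)
  have hH : HCross η A B (-M) M := by
    refine ⟨u', v', hu', hv', hc.mono_set ?_⟩
    rintro x ⟨⟨_, hx⟩, hx'⟩
    rw [mem_ball] at hx
    simp only [Prod.fst_zero, Prod.snd_zero] at hx
    simp only [Set.mem_ofPred_eq] at hx'
    simp only [rect, Set.mem_ofPred_eq]
    omega
  -- the dual crossing
  obtain ⟨K', hK1', hK2'⟩ : ∃ K' : ℕ, w.2 - K' * (N : ℤ) ≤ -M - 1 ∧ (M : ℤ) ≤ w.2 + K' * N := by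
    refine ⟨(|w.2| + M + 1).toNat, ?_⟩
    have h1 := abs_nonneg w.2
    have h2 := le_abs_self w.2
    have h3 := neg_abs_le w.2
    have h4 : (((|w.2| + M + 1).toNat : ℕ) : ℤ) = |w.2| + M + 1 := by
      apply Int.toNat_of_nonneg
      omega
    rw [h4]
    have h6 : |w.2| + M + 1 ≤ (|w.2| + M + 1) * (N : ℤ) := by nlinarith
    constructor <;> omega
  obtain ⟨u'', v'', hu'', hv'', hc', _, _⟩ := (hdK K').cross_y (a := -M - 1) (b := M)
    (by simpa using hK1') (by simpa using hK2') (by omega)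
  have hV : VCross (dual η) A (B - 1) (-M - 1) M := by
    refine ⟨u'', v'', hu'', hv'', hc'.mono_set ?_⟩
    rintro x ⟨hx, hx'⟩
    simp only [hS, Set.mem_ofPred_eq] at hx hx'
    simp only [rect, Set.mem_ofPred_eq]
    omega
  exact not_hcross_and_dual_vcross (by omega) hH hV

/-- An open horizontal winding path excludes a dual vertical winding path. -/
theorem wind_exclusion {N : ℕ} (hN : 1 ≤ N) {ω : Config} (h : ω ∈ Wind N) (w : Vert) :
    ¬ Conn (dual (per N ω)) Set.univ w (w.1, w.2 + N) := by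
  obtain ⟨u, a, b, ha, hc⟩ := h
  rcases lt_or_gt_of_ne ha with ha | ha
  · refine wind_exclusion_pos hN (u := (u.1 + a * N, u.2 + b * N)) (a := -a) (b := -b) (by omega)
      ?_ w
    have := hc.symm
    convert this using 1
    ext <;> simp
  · exact wind_exclusion_pos hN ha hc w

end Pool.Agent.H89.Perc

end

section

/-!
# The winding event is not degenerate in the box-crossing regime
-/

open MeasureTheory ProbabilityTheory unitInterval

namespace Pool.Agent.H31.EX

open Pool.Agent.H89.Perc Pool.Agent.H61.NC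

/-- Reduction modulo `N`. -/
def modE (N : ℕ) (e : Edge) : Edge := (e.1 % N, e.2.1 % N, e.2.2)

lemma mod_eq {N : ℕ} {x y a b : ℤ} (hab : b - a < N) (hx : a ≤ x ∧ x ≤ b)
    (hy : a ≤ y ∧ y ≤ b) (h : x % N = y % N) : x = y := by
  have hd : (N : ℤ) ∣ x - y := Int.ModEq.dvd (Int.ModEq.symm h)
  have : x - y = 0 := by
    apply Int.eq_zero_of_abs_lt_dvd hd
    rw [abs_lt]
    omega
  omega

lemma modE_injOn {N : ℕ} {a b c d : ℤ} (hab : b - a < N) (hcd : d - c < N) :
    Set.InjOn (modE N) (eRect a b c d : Set Edge) := by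
  rintro ⟨x, y, t⟩ h1 ⟨x', y', t'⟩ h2 h
  rw [Finset.mem_coe, mem_eRect] at h1 h2
  simp only [src, rect, Set.mem_ofPred_eq] at h1 h2
  simp only [modE, Prod.mk.injEq] at h
  obtain ⟨h3, h4, h5⟩ := h
  rw [mod_eq hab ⟨h1.1, h1.2.1⟩ ⟨h2.1, h2.2.1⟩ h3,
    mod_eq hcd ⟨h1.2.2.1, h1.2.2.2⟩ ⟨h2.2.2.1, h2.2.2.2⟩ h4, h5]

lemma modEc_injOn {N : ℕ} {a b c d : ℤ} (hab : b - a < N) (hcd : d - c < N) :
    Set.InjOn (fun e => modE N (crossed e)) (eRect a b c d : Set Edge) := by
  rintro ⟨x, y, t⟩ h1 ⟨x', y', t'⟩ h2 h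
  rw [Finset.mem_coe, mem_eRect] at h1 h2
  simp only [src, rect, Set.mem_ofPred_eq] at h1 h2
  cases t <;> cases t'
  · simp only [modE, crossed, Prod.mk.injEq, Bool.false_eq_true, if_false] at h
    have e1 := mod_eq (a := a + 1) (b := b + 1) (by omega) (by omega) (by omega) h.1
    have e2 := mod_eq hcd ⟨h1.2.2.1, h1.2.2.2⟩ ⟨h2.2.2.1, h2.2.2.2⟩ h.2.1
    simp only [Prod.mk.injEq, and_true]
    omega
  · simp [modE, crossed] at h
  · simp [modE, crossed] at h
  · simp only [modE, crossed, Prod.mk.injEq, if_true] at h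
    have e1 := mod_eq hab ⟨h1.1, h1.2.1⟩ ⟨h2.1, h2.2.1⟩ h.1
    have e2 := mod_eq (a := c + 1) (b := d + 1) (by omega) (by omega) (by omega) h.2.1
    simp only [Prod.mk.injEq, and_true]
    omega

lemma Pr_per {q : I} {N : ℕ} {a b c d : ℤ} (hab : b - a < N) (hcd : d - c < N) {A : Set Config}
    (hA : LocalOn (eRect a b c d) A) : Pr q {ω | per N ω ∈ A} = Pr q A :=
  Pr_comp hA (modE_injOn hab hcd)

lemma Pr_dual_per {q : I} {N : ℕ} {a b c d : ℤ} (hab : b - a < N) (hcd : d - c < N)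
    {A : Set Config} (hA : LocalOn (eRect a b c d) A) :
    Pr q {ω | dual (per N ω) ∈ A} = Pr (σ q) A :=
  Pr_comp_not hA (modEc_injOn hab hcd)

lemma localOn_per {N : ℕ} {s : Finset Edge} {A : Set Config} (hA : LocalOn s A) :
    LocalOn (s.image (modE N)) {ω | per N ω ∈ A} := by
  intro ω ω' h h'
  exact hA _ _ (fun e he => h _ (Finset.mem_image_of_mem _ he)) h'

lemma incr_per {N : ℕ} {A : Set Config} (hA : Incr A) : Incr {ω | per N ω ∈ A} := by
  intro ω ω' h h'
  exact hA _ _ (fun e he => h _ he) h'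

lemma localOn_dual_per {N : ℕ} {s : Finset Edge} {A : Set Config} (hA : LocalOn s A) :
    LocalOn (s.image (fun e => modE N (crossed e))) {ω | dual (per N ω) ∈ A} := by
  intro ω ω' h h'
  refine hA _ _ (fun e he => ?_) h'
  have := h _ (Finset.mem_image_of_mem (fun e => modE N (crossed e)) he)
  change (!ω (modE N (crossed e))) = (!ω' (modE N (crossed e)))
  rw [this]

lemma decr_dual_per {N : ℕ} {A : Set Config} (hA : Incr A) :
    Incr {ω | dual (per N ω) ∈ A}ᶜ := by
  intro ω ω' h hn hA'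
  apply hn
  refine hA _ _ (fun e he => ?_) hA'
  change (!ω' (modE N (crossed e))) = true at he
  change (!ω (modE N (crossed e))) = true
  rw [Bool.not_eq_true'] at he ⊢
  by_contra hc
  rw [Bool.not_eq_false] at hc
  rw [h _ hc] at he
  exact absurd he (by decide)

lemma pow4_le {x a b c d : ℝ} (hx : 0 ≤ x) (ha : x ≤ a) (hb : x ≤ b) (hc : x ≤ c)
    (hd : x ≤ d) : x ^ 4 ≤ (a * b) * (c * d) := by
  have h1 : x * x ≤ a * b := mul_le_mul ha hb hx (hx.trans ha)
  have h2 : x * x ≤ c * d := mul_le_mul hc hd hx (hx.trans hc)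
  calc x ^ 4 = (x * x) * (x * x) := by ring
    _ ≤ (a * b) * (c * d) := mul_le_mul h1 h2 (mul_nonneg hx hx) ((mul_nonneg hx hx).trans h1)

lemma fkg4 {q : I} {s1 s2 s3 s4 : Finset Edge} {A B C D : Set Config}
    (lA : LocalOn s1 A) (lB : LocalOn s2 B) (lC : LocalOn s3 C) (lD : LocalOn s4 D)
    (iA : Incr A) (iB : Incr B) (iC : Incr C) (iD : Incr D) :
    (Pr q A * Pr q B) * (Pr q C * Pr q D) ≤ Pr q ((A ∩ B) ∩ (C ∩ D)) := by
  classical
  have h1 := fkg (p := q) lA lB iA iB
  have h2 := fkg (p := q) lC lD iC iD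
  have h3 := fkg (p := q) (lA.inter' lB) (lC.inter' lD) (iA.inter iB) (iC.inter iD)
  calc (Pr q A * Pr q B) * (Pr q C * Pr q D)
      ≤ Pr q (A ∩ B) * Pr q (C ∩ D) :=
        mul_le_mul h1 h2 (mul_nonneg Pr_nonneg Pr_nonneg) Pr_nonneg
    _ ≤ _ := h3

lemma decr_inter {A B : Set Config} (iA : Incr Aᶜ) (iB : Incr Bᶜ) :
    Incr (A ∩ B)ᶜ := by
  rw [Set.compl_inter]
  exact iA.union iB

lemma fkg4_decr {q : I} {s1 s2 s3 s4 : Finset Edge} {A B C D : Set Config}
    (lA : LocalOn s1 A) (lB : LocalOn s2 B) (lC : LocalOn s3 C) (lD : LocalOn s4 D)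
    (iA : Incr Aᶜ) (iB : Incr Bᶜ) (iC : Incr Cᶜ) (iD : Incr Dᶜ) :
    (Pr q A * Pr q B) * (Pr q C * Pr q D) ≤ Pr q ((A ∩ B) ∩ (C ∩ D)) := by
  classical
  have h1 := fkg_decr (p := q) lA lB iA iB
  have h2 := fkg_decr (p := q) lC lD iC iD
  have h3 := fkg_decr (p := q) (lA.inter' lB) (lC.inter' lD) (decr_inter iA iB)
    (decr_inter iC iD)
  calc (Pr q A * Pr q B) * (Pr q C * Pr q D)
      ≤ Pr q (A ∩ B) * Pr q (C ∩ D) :=
        mul_le_mul h1 h2 (mul_nonneg Pr_nonneg Pr_nonneg) Pr_nonneg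
    _ ≤ _ := h3

/-- Four crossings of a configuration with horizontal period `N` make a horizontal winding. -/
lemma wind_of_crossings {N h m : ℤ} {η : Config} (hper : ∀ e, η (shiftE (N, 0) e) = η e)
    (hm : 0 ≤ m) (hh : 0 ≤ h) (hhN : h ≤ N)
    (h1 : HCross η 0 (h + m) 0 m) (h2 : HCross η h (N + m) 0 m)
    (h3 : VCross η h (h + m) 0 m) (h4 : VCross η 0 m 0 m) :
    ∃ w : Vert, Conn η Set.univ w (w.1 + N, w.2) := by
  obtain ⟨u1, v1, hu1, hv1, c1⟩ := h1
  obtain ⟨u2, v2, hu2, hv2, c2⟩ := h2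
  obtain ⟨a1, b1, ha1, hb1, d1⟩ := h3
  obtain ⟨a2, b2, ha2, hb2, d2⟩ := h4
  have key : ∀ {x x' y y' : ℤ} {u v a b : Vert}, Conn η (rect x x' 0 m) u v → u.1 = x →
      v.1 = x' → x ≤ y → y ≤ y' → y' ≤ x' → Conn η (rect y y' 0 m) a b → a.2 = 0 → b.2 = m →
      Conn η Set.univ a u := by
    intro x x' y y' u v a b huv hu hv hxy hyy hyx hab ha hb
    obtain ⟨u', v', hu', hv', e1, e2, -⟩ := huv.cross_x (a := y) (b := y') (by omega) (by omega) hyy
    have e1' : Conn η (rect y y' 0 m) u' v' := by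
      refine e1.mono_set ?_
      rintro z ⟨⟨_, _, hz3, hz4⟩, hz5, hz6⟩
      exact ⟨hz5, hz6, hz3, hz4⟩
    obtain ⟨w, w1, w2⟩ := cross e1' hu' hv' hab ha hb
    have f1 := w2.mono_set (Set.subset_univ _)
    have f2 := w1.mono_set (Set.subset_univ _)
    have f3 := e2.mono_set (Set.subset_univ _)
    exact (f1.trans f2.symm).trans f3.symm
  -- the translate of the last vertical crossing
  have d2' : Conn η (rect N (N + m) 0 m) (a2.1 + N, a2.2) (b2.1 + N, b2.2) := by
    have : (fun e => η (shiftE (N, 0) e)) = η := funext hper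
    rw [← this, conn_shift] at d2
    have e : {w : Vert | (w.1 - ((N, 0) : Vert).1, w.2 - ((N, 0) : Vert).2) ∈ rect 0 m 0 m} =
        rect N (N + m) 0 m := by
      ext w
      simp only [rect, Set.mem_ofPred_eq]
      omega
    rw [e] at d2
    simpa using d2
  have k1 := key c1 hu1 hv1 le_rfl hm (by omega) d2 ha2 hb2
  have k2 := key c1 hu1 hv1 hh (by omega) (by omega) d1 ha1 hb1
  have k3 := key c2 hu2 hv2 le_rfl (by omega) (by omega) d1 ha1 hb1
  have k4 := key c2 hu2 hv2 hhN (by omega) le_rfl d2' (by simpa using ha2) (by simpa using hb2)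
  exact ⟨a2, ((k1.trans k2.symm).trans k3).trans k4.symm⟩

/-- Four crossings of a configuration with vertical period `N` make a vertical winding. -/
lemma wind_of_crossings' {N h m : ℤ} {η : Config} (hper : ∀ e, η (shiftE (0, N) e) = η e)
    (hm : 0 ≤ m) (hh : 0 ≤ h) (hhN : h ≤ N)
    (h1 : VCross η 0 m 0 (h + m)) (h2 : VCross η 0 m h (N + m))
    (h3 : HCross η 0 m h (h + m)) (h4 : HCross η 0 m 0 m) :
    ∃ w : Vert, Conn η Set.univ w (w.1, w.2 + N) := by
  obtain ⟨u1, v1, hu1, hv1, c1⟩ := h1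
  obtain ⟨u2, v2, hu2, hv2, c2⟩ := h2
  obtain ⟨a1, b1, ha1, hb1, d1⟩ := h3
  obtain ⟨a2, b2, ha2, hb2, d2⟩ := h4
  have key : ∀ {x x' y y' : ℤ} {u v a b : Vert}, Conn η (rect 0 m x x') u v → u.2 = x →
      v.2 = x' → x ≤ y → y ≤ y' → y' ≤ x' → Conn η (rect 0 m y y') a b → a.1 = 0 → b.1 = m →
      Conn η Set.univ a u := by
    intro x x' y y' u v a b huv hu hv hxy hyy hyx hab ha hb
    obtain ⟨u', v', hu', hv', e1, e2, -⟩ := huv.cross_y (a := y) (b := y') (by omega) (by omega) hyy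
    have e1' : Conn η (rect 0 m y y') u' v' := by
      refine e1.mono_set ?_
      rintro z ⟨⟨hz3, hz4, _, _⟩, hz5, hz6⟩
      exact ⟨hz3, hz4, hz5, hz6⟩
    obtain ⟨w, w1, w2⟩ := cross hab ha hb e1' hu' hv'
    have f1 := w1.mono_set (Set.subset_univ _)
    have f2 := w2.mono_set (Set.subset_univ _)
    have f3 := e2.mono_set (Set.subset_univ _)
    exact (f1.trans f2.symm).trans f3.symm
  have d2' : Conn η (rect 0 m N (N + m)) (a2.1, a2.2 + N) (b2.1, b2.2 + N) := by
    have : (fun e => η (shiftE (0, N) e)) = η := funext hper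
    rw [← this, conn_shift] at d2
    have e : {w : Vert | (w.1 - ((0, N) : Vert).1, w.2 - ((0, N) : Vert).2) ∈ rect 0 m 0 m} =
        rect 0 m N (N + m) := by
      ext w
      simp only [rect, Set.mem_ofPred_eq]
      omega
    rw [e] at d2
    simpa using d2
  have k1 := key c1 hu1 hv1 le_rfl hm (by omega) d2 ha2 hb2
  have k2 := key c1 hu1 hv1 hh (by omega) (by omega) d1 ha1 hb1
  have k3 := key c2 hu2 hv2 le_rfl (by omega) (by omega) d1 ha1 hb1
  have k4 := key c2 hu2 hv2 hhN (by omega) le_rfl d2' (by simpa using ha2) (by simpa using hb2)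
  exact ⟨a2, ((k1.trans k2.symm).trans k3).trans k4.symm⟩

lemma per_shift (N : ℕ) (ω : Config) (i j : ℤ) (e : Edge) :
    per N ω (shiftE (i * N, j * N) e) = per N ω e := by
  simp only [per, shiftE]
  congr 2
  · exact Int.add_mul_emod_self_right _ _ _
  · congr 1
    exact Int.add_mul_emod_self_right _ _ _

/-- Winding has probability bounded below in the box-crossing regime. -/
theorem wind_reg_lower {c : ℝ} (hc : 0 < c) {N : ℕ} {q : I} (h : RSWreg c N q) (hN : 4 ≤ N) :
    c ^ 4 ≤ Pr q (Wind N) := by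
  obtain ⟨m, hm⟩ : ∃ m : ℕ, N / 2 = m + 1 := ⟨N / 2 - 1, by omega⟩
  have hm1 : 1 ≤ m := by omega
  have hmN : m ≤ N := by omega
  set k : ℤ := (m : ℤ) + 1 with hk
  have p1 : c ≤ Pr q {ω | per N ω ∈ {ω | HCross ω 0 (k + m) 0 m}} := by
    rw [Pr_per (a := 0) (b := k + m) (c := 0) (d := m) (by omega) (by omega) (localOn_hcross _ _ _ _)]
    exact reg_hcross h hm1 hmN (by omega) (by omega) (by omega)
  have p2 : c ≤ Pr q {ω | per N ω ∈ {ω | HCross ω k (N + m) 0 m}} := by
    rw [Pr_per (a := k) (b := N + m) (c := 0) (d := m) (by omega) (by omega) (localOn_hcross _ _ _ _)]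
    exact reg_hcross h hm1 hmN (by omega) (by omega) (by omega)
  have p3 : c ≤ Pr q {ω | per N ω ∈ {ω | VCross ω k (k + m) 0 m}} := by
    rw [Pr_per (a := k) (b := k + m) (c := 0) (d := m) (by omega) (by omega) (localOn_vcross _ _ _ _)]
    exact reg_vcross h hm1 hmN (by omega) (by omega) (by omega)
  have p4 : c ≤ Pr q {ω | per N ω ∈ {ω | VCross ω 0 m 0 m}} := by
    rw [Pr_per (a := 0) (b := m) (c := 0) (d := m) (by omega) (by omega) (localOn_vcross _ _ _ _)]
    exact reg_vcross h hm1 hmN (by omega) (by omega) (by omega)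
  have key := fkg4 (q := q)
    (localOn_per (N := N) (localOn_hcross 0 (k + m) 0 m))
    (localOn_per (N := N) (localOn_hcross k (N + m) 0 m))
    (localOn_per (N := N) (localOn_vcross k (k + m) 0 m))
    (localOn_per (N := N) (localOn_vcross 0 m 0 m))
    (incr_per (incr_hcross _ _ _ _)) (incr_per (incr_hcross _ _ _ _))
    (incr_per (incr_vcross _ _ _ _)) (incr_per (incr_vcross _ _ _ _))
  refine (pow4_le hc.le p1 p2 p3 p4).trans (key.trans (Pr_mono ?_))
  rintro ω ⟨⟨h1, h2⟩, ⟨h3, h4⟩⟩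
  have hper : ∀ e, per N ω (shiftE ((N : ℤ), 0) e) = per N ω e := by
    intro e
    have := per_shift N ω 1 0 e
    simpa using this
  obtain ⟨w, hw⟩ := wind_of_crossings hper (by omega) (by omega) (by omega) h1 h2 h3 h4
  refine ⟨w, 1, 0, one_ne_zero, ?_⟩
  simpa using hw

/-- Not winding has probability bounded below in the box-crossing regime. -/
theorem wind_reg_upper {c : ℝ} (hc : 0 < c) {N : ℕ} {q : I} (h : RSWreg c N q) (hN : 4 ≤ N) :
    c ^ 4 ≤ 1 - Pr q (Wind N) := by
  obtain ⟨m, hm⟩ : ∃ m : ℕ, N / 2 = m + 1 := ⟨N / 2 - 1, by omega⟩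
  have hm1 : 1 ≤ m := by omega
  have hmN : m ≤ N := by omega
  have h' := reg_symm h
  set k : ℤ := (m : ℤ) + 1 with hk
  have p1 : c ≤ Pr q {ω | dual (per N ω) ∈ {ω | VCross ω 0 m 0 (k + m)}} := by
    rw [Pr_dual_per (a := 0) (b := m) (c := 0) (d := k + m) (by omega) (by omega)
      (localOn_vcross _ _ _ _)]
    exact reg_vcross h' hm1 hmN (by omega) (by omega) (by omega)
  have p2 : c ≤ Pr q {ω | dual (per N ω) ∈ {ω | VCross ω 0 m k (N + m)}} := by
    rw [Pr_dual_per (a := 0) (b := m) (c := k) (d := N + m) (by omega) (by omega)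
      (localOn_vcross _ _ _ _)]
    exact reg_vcross h' hm1 hmN (by omega) (by omega) (by omega)
  have p3 : c ≤ Pr q {ω | dual (per N ω) ∈ {ω | HCross ω 0 m k (k + m)}} := by
    rw [Pr_dual_per (a := 0) (b := m) (c := k) (d := k + m) (by omega) (by omega)
      (localOn_hcross _ _ _ _)]
    exact reg_hcross h' hm1 hmN (by omega) (by omega) (by omega)
  have p4 : c ≤ Pr q {ω | dual (per N ω) ∈ {ω | HCross ω 0 m 0 m}} := by
    rw [Pr_dual_per (a := 0) (b := m) (c := 0) (d := m) (by omega) (by omega)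
      (localOn_hcross _ _ _ _)]
    exact reg_hcross h' hm1 hmN (by omega) (by omega) (by omega)
  have key := fkg4_decr (q := q)
    (localOn_dual_per (N := N) (localOn_vcross 0 m 0 (k + m)))
    (localOn_dual_per (N := N) (localOn_vcross 0 m k (N + m)))
    (localOn_dual_per (N := N) (localOn_hcross 0 m k (k + m)))
    (localOn_dual_per (N := N) (localOn_hcross 0 m 0 m))
    (decr_dual_per (incr_vcross _ _ _ _)) (decr_dual_per (incr_vcross _ _ _ _))
    (decr_dual_per (incr_hcross _ _ _ _)) (decr_dual_per (incr_hcross _ _ _ _))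
  rw [← Pr_compl (localOn_wind (N := N) (by omega))]
  refine (pow4_le hc.le p1 p2 p3 p4).trans (key.trans (Pr_mono ?_))
  rintro ω ⟨⟨h1, h2⟩, ⟨h3, h4⟩⟩ hW
  have hper : ∀ e, dual (per N ω) (shiftE (0, (N : ℤ)) e) = dual (per N ω) e := by
    rintro ⟨x, y, b⟩
    have h5 := per_shift N ω 0 1 (crossed (x, y, b))
    simp only [zero_mul, one_mul] at h5
    simp only [dual]
    rw [← h5]
    congr 2
    cases b <;> simp [shiftE, crossed]
    ring
  obtain ⟨w, hw⟩ := wind_of_crossings' hper (by omega) (by omega) (by omega) h1 h2 h3 h4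
  exact wind_exclusion (by omega) hW w hw

end Pool.Agent.H31.EX

end

section

/-!
# The exploration determines the winding event
-/

open MeasureTheory ProbabilityTheory unitInterval

namespace Pool.Agent.H89.Perc

/-! ### The exploration -/

private lemma expl_succ' (R : Rule) (ω : Config) (n : ℕ) :
    expl R ω (n + 1) = explStep R ω (expl R ω n) := by
  simp only [expl, Function.iterate_succ_apply']

private lemma expl_inv (R : Rule) (ω : Config) (n : ℕ) :
    (∀ e ∈ (expl R ω n).1, ω e = true) ∧ (∀ e ∈ (expl R ω n).2, ω e = false) := by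
  induction n with
  | zero => simp [expl]
  | succ n ih =>
    rw [expl_succ']
    unfold explStep
    cases h : R (expl R ω n).1 (expl R ω n).2 with
    | none => simpa using ih
    | some e =>
      by_cases hω : ω e = true
      · simp only [hω, if_true, Finset.mem_insert]
        exact ⟨fun e' he' => he'.elim (fun h => h ▸ hω) (ih.1 e'), ih.2⟩
      · simp only [if_neg hω, Finset.mem_insert]
        exact ⟨ih.1, fun e' he' => he'.elim (fun h => h ▸ by simpa using hω) (ih.2 e')⟩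

private lemma expl_subset {R : Rule} {s : Finset Edge}
    (hR : ∀ O C e, R O C = some e → e ∈ s ∧ e ∉ O ∧ e ∉ C) (ω : Config) (n : ℕ) :
    queried R ω n ⊆ s := by
  induction n with
  | zero => simp [queried, expl]
  | succ n ih =>
    rw [queried] at ih ⊢
    rw [expl_succ']
    unfold explStep
    cases h : R (expl R ω n).1 (expl R ω n).2 with
    | none => simpa using ih
    | some e =>
      have he := (hR _ _ _ h).1
      by_cases hω : ω e = true
      · simp only [hω, if_true]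
        rw [Finset.insert_union]
        exact Finset.insert_subset he ih
      · simp only [if_neg hω]
        rw [Finset.union_insert]
        exact Finset.insert_subset he ih

private lemma expl_card {R : Rule} {s : Finset Edge}
    (hR : ∀ O C e, R O C = some e → e ∈ s ∧ e ∉ O ∧ e ∉ C) (ω : Config) (n : ℕ) :
    (queried R ω n).card = n ∨ R (expl R ω n).1 (expl R ω n).2 = none := by
  induction n with
  | zero => left; simp [queried, expl]
  | succ n ih =>
    cases h : R (expl R ω n).1 (expl R ω n).2 with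
    | none =>
      right
      have : expl R ω (n + 1) = expl R ω n := by
        rw [expl_succ']; unfold explStep; rw [h]
      rw [this, h]
    | some e =>
      left
      have h1 := ih.resolve_right (by rw [h]; simp)
      obtain ⟨_, he1, he2⟩ := hR _ _ _ h
      have h2 : queried R ω (n + 1) = insert e (queried R ω n) := by
        rw [queried, expl_succ', queried]
        unfold explStep
        simp only [h]
        by_cases hω : ω e = true
        · simp only [hω, if_true]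
          rw [Finset.insert_union]
        · simp only [if_neg hω]
          rw [Finset.union_insert]
      rw [h2, Finset.card_insert_of_notMem, h1]
      rw [queried, Finset.mem_union]
      tauto

private lemma expl_stop {R : Rule} {s : Finset Edge}
    (hR : ∀ O C e, R O C = some e → e ∈ s ∧ e ∉ O ∧ e ∉ C) (ω : Config) :
    R (expl R ω s.card).1 (expl R ω s.card).2 = none := by
  rcases expl_card hR ω s.card with h | h
  · have h1 := Finset.eq_of_subset_of_card_le (expl_subset hR ω s.card) h.ge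
    cases h2 : R (expl R ω s.card).1 (expl R ω s.card).2 with
    | none => rfl
    | some e =>
      exfalso
      obtain ⟨h3, h4, h5⟩ := hR _ _ _ h2
      rw [← h1, queried, Finset.mem_union] at h3
      tauto
  · exact h

/-! ### The boundary of the fundamental square is connected -/

private lemma conn_vert {S : Set Vert} (x y : ℤ) (k : ℕ)
    (h : ∀ j : ℤ, 0 ≤ j → j ≤ k → ((x, y + j) : Vert) ∈ S) :
    Conn allOpen S (x, y) (x, y + k) := by
  induction k with
  | zero => simpa using Conn.refl (ω := allOpen) (by simpa using h 0 le_rfl (by simp))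
  | succ k ih =>
    refine (ih fun j h0 hj => h j h0 (by push_cast; omega)).tail ⟨?_, ?_, (x, y + k, true), ?_, rfl⟩
    · exact h k (by omega) (by push_cast; omega)
    · exact h ((k + 1 : ℕ) : ℤ) (by omega) le_rfl
    · left
      simp only [src, tgt, if_true, true_and]
      push_cast
      ring_nf

private lemma conn_horiz {S : Set Vert} (x y : ℤ) (k : ℕ)
    (h : ∀ j : ℤ, 0 ≤ j → j ≤ k → ((x + j, y) : Vert) ∈ S) :
    Conn allOpen S (x, y) (x + k, y) := by
  induction k with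
  | zero => simpa using Conn.refl (ω := allOpen) (by simpa using h 0 le_rfl (by simp))
  | succ k ih =>
    refine (ih fun j h0 hj => h j h0 (by push_cast; omega)).tail ⟨?_, ?_, (x + k, y, false), ?_, rfl⟩
    · exact h k (by omega) (by push_cast; omega)
    · exact h ((k + 1 : ℕ) : ℤ) (by omega) le_rfl
    · left
      simp only [src, tgt, true_and]
      push_cast
      ring_nf

private lemma conn_bdV {N : ℕ} {u : Vert} (hu : u ∈ bdV N) : Conn allOpen (bdV N) (0, 0) u := by
  obtain ⟨x, y⟩ := u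
  obtain ⟨⟨h1, h2, h3, h4⟩, h5⟩ := hu
  simp only at h1 h2 h3 h4 h5
  have hxl : ∀ z : ℤ, 0 ≤ z → z ≤ N → ((0, z) : Vert) ∈ bdV N := fun z h0 hN =>
    ⟨⟨le_rfl, by simp, h0, hN⟩, Or.inl rfl⟩
  have hyb : ∀ z : ℤ, 0 ≤ z → z ≤ N → ((z, 0) : Vert) ∈ bdV N := fun z h0 hN =>
    ⟨⟨h0, hN, le_rfl, by simp⟩, Or.inr (Or.inr (Or.inl rfl))⟩
  have hxr : ∀ z : ℤ, 0 ≤ z → z ≤ N → ((N, z) : Vert) ∈ bdV N := fun z h0 hN =>
    ⟨⟨by simp, le_rfl, h0, hN⟩, Or.inr (Or.inl rfl)⟩
  have hyt : ∀ z : ℤ, 0 ≤ z → z ≤ N → ((z, N) : Vert) ∈ bdV N := fun z h0 hN =>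
    ⟨⟨h0, hN, by simp, le_rfl⟩, Or.inr (Or.inr (Or.inr rfl))⟩
  rcases h5 with h | h | h | h
  · subst h
    have := conn_vert (S := bdV N) 0 0 y.toNat (fun j h0 hj => by
      rw [zero_add]; exact hxl j h0 (by omega))
    rwa [zero_add, Int.toNat_of_nonneg h3] at this
  · subst h
    have h6 := conn_horiz (S := bdV N) 0 0 N (fun j h0 hj => by
      rw [zero_add]; exact hyb j h0 hj)
    have h7 := conn_vert (S := bdV N) N 0 y.toNat (fun j h0 hj => by
      rw [zero_add]; exact hxr j h0 (by omega))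
    rw [zero_add] at h6
    rw [zero_add, Int.toNat_of_nonneg h3] at h7
    exact h6.trans h7
  · subst h
    have := conn_horiz (S := bdV N) 0 0 x.toNat (fun j h0 hj => by
      rw [zero_add]; exact hyb j h0 (by omega))
    rwa [zero_add, Int.toNat_of_nonneg h1] at this
  · subst h
    have h6 := conn_vert (S := bdV N) 0 0 N (fun j h0 hj => by
      rw [zero_add]; exact hxl j h0 hj)
    have h7 := conn_horiz (S := bdV N) 0 N x.toNat (fun j h0 hj => by
      rw [zero_add]; exact hyt j h0 (by omega))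
    rw [zero_add] at h6
    rw [zero_add, Int.toNat_of_nonneg h1] at h7
    exact h6.trans h7

private lemma mem_tEdges {N : ℕ} {e : Edge} :
    e ∈ tEdges N ↔ 0 ≤ e.1 ∧ e.1 < N ∧ 0 ≤ e.2.1 ∧ e.2.1 < N := by
  simp only [tEdges, Finset.mem_product, Finset.mem_Ico, Finset.mem_univ, and_true]
  tauto

private lemma mem_rect {a b c d : ℤ} {u : Vert} :
    u ∈ rect a b c d ↔ a ≤ u.1 ∧ u.1 ≤ b ∧ c ≤ u.2 ∧ u.2 ≤ d := Iff.rfl

/-- An edge between two boundary vertices has a face which is a boundary face. -/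
private lemma bd_face {N : ℕ} (hN : 2 ≤ N) {e : Edge} (h1 : src e ∈ bdV N) (h2 : tgt e ∈ bdV N) :
    ∃ φ, IsFace φ e ∧ φ ∈ bdF N := by
  obtain ⟨x, y, b⟩ := e
  obtain ⟨h1, h1'⟩ := h1
  obtain ⟨h2, h2'⟩ := h2
  have hN' : (2 : ℤ) ≤ N := by exact_mod_cast hN
  cases b
  · simp only [src, tgt, mem_rect, Bool.false_eq_true, if_false] at h1 h1' h2 h2'
    by_cases hy : y = N
    · refine ⟨(x, y - 1), Or.inr (by simp), ⟨?_, ?_⟩⟩
      · simp only [mem_rect]; omega
      · simp only; omega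
    · refine ⟨(x, y), Or.inl rfl, ⟨?_, ?_⟩⟩
      · simp only [mem_rect]; omega
      · simp only; omega
  · simp only [src, tgt, mem_rect, if_true] at h1 h1' h2 h2'
    by_cases hx : x = N
    · refine ⟨(x - 1, y), Or.inr (by simp), ⟨?_, ?_⟩⟩
      · simp only [mem_rect]; omega
      · simp only; omega
    · refine ⟨(x, y), Or.inl rfl, ⟨?_, ?_⟩⟩
      · simp only [mem_rect]; omega
      · simp only; omega

/-- A dual edge inside the faces of the fundamental square crosses an interior edge. -/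
private lemma crossed_inner {N : ℕ} {d : Edge} {a b : Vert} (hd : Joins d a b)
    (ha : a ∈ rect 0 (N - 1) 0 (N - 1)) (hb : b ∈ rect 0 (N - 1) 0 (N - 1)) :
    crossed d ∈ tEdges N ∧ ¬ IsBd (crossed d) ∧ IsFace a (crossed d) ∧ IsFace b (crossed d) ∧
      src (crossed d) ∈ rect 0 N 0 N ∧ tgt (crossed d) ∈ rect 0 N 0 N := by
  obtain ⟨x, y, c⟩ := d
  cases c
  · have hc : crossed (x, y, false) = (x + 1, y, true) := by simp [crossed]
    rw [hc]
    rcases hd with ⟨h1, h2⟩ | ⟨h1, h2⟩ <;>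
    · simp only [src, tgt, Bool.false_eq_true, if_false] at h1 h2
      subst h1 h2
      simp only [mem_rect] at ha hb
      refine ⟨mem_tEdges.2 ⟨?_, ?_, ?_, ?_⟩, ?_, ?_, ?_, ?_, ?_⟩
      · simp only; omega
      · simp only; omega
      · simp only; omega
      · simp only; omega
      · rintro (⟨h, _⟩ | ⟨_, h⟩)
        · simp at h
        · simp only at h; omega
      · simp [IsFace, src]
      · simp [IsFace, src]
      · simp only [src, mem_rect]; omega
      · simp only [tgt, mem_rect, if_true]; omega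
  · have hc : crossed (x, y, true) = (x, y + 1, false) := by simp [crossed]
    rw [hc]
    rcases hd with ⟨h1, h2⟩ | ⟨h1, h2⟩ <;>
    · simp only [src, tgt, if_true] at h1 h2
      subst h1 h2
      simp only [mem_rect] at ha hb
      refine ⟨mem_tEdges.2 ⟨?_, ?_, ?_, ?_⟩, ?_, ?_, ?_, ?_, ?_⟩
      · simp only; omega
      · simp only; omega
      · simp only; omega
      · simp only; omega
      · rintro (⟨_, h⟩ | ⟨h, _⟩)
        · simp only at h; omega
        · simp at h
      · simp [IsFace, src]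
      · simp [IsFace, src]
      · simp only [src, mem_rect]; omega
      · simp only [tgt, mem_rect, Bool.false_eq_true, if_false]; omega

private lemma cutConfig_eq_false {K : Set Vert} {e : Edge} {w w' : Vert} (he : Joins e w w')
    (hw : w ∉ K) (hw' : w' ∈ K) : cutConfig K e = false := by
  unfold cutConfig
  rw [decide_eq_false_iff_not]
  rcases he with ⟨h1, h2⟩ | ⟨h1, h2⟩ <;> subst h1 h2 <;> tauto

/-- The open interior edges. -/
private noncomputable def intCfg (N : ℕ) (ω : Config) : Config :=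
  fun e => by classical exact decide (e ∈ tEdges N ∧ ¬ IsBd e ∧ ω e = true)

private lemma intCfg_eq_true {N : ℕ} {ω : Config} {e : Edge} :
    intCfg N ω e = true ↔ e ∈ tEdges N ∧ ¬ IsBd e ∧ ω e = true := by
  classical
  unfold intCfg
  simp only [decide_eq_true_eq]

/-- When the exploration has stopped, boundary vertices joined by open interior edges are joined by
queried open edges. -/
private lemma terminal {N : ℕ} (hN : 2 ≤ N) {ω : Config} {O C : Finset Edge}
    (hC : ∀ e ∈ C, ω e = false) (hcand : ∀ e, ¬ Cand N O C e) {u v : Vert} (hu : u ∈ bdV N)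
    (hv : v ∈ bdV N) (h : Conn (intCfg N ω) (rect 0 N 0 N) u v) :
    Conn (fun e => decide (e ∈ O)) (rect 0 N 0 N) u v := by
  by_contra hno
  set D : Set Vert := rect 0 N 0 N with hD
  set C₀ : Set Vert := {w | Conn (fun e => decide (e ∈ O)) D u w} with hC₀
  have hC₀D : C₀ ⊆ D := fun w hw => hw.mem_right
  have huC₀ : u ∈ C₀ := Conn.refl h.mem_left
  -- `C₀` is connected
  have hC₀c0 : ∀ w ∈ C₀, Conn allOpen C₀ u w := by
    intro w hw
    refine (hw : Conn _ D u w).induction_right (P := fun w => Conn allOpen C₀ u w)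
      (Conn.refl huC₀) ?_
    intro a b hua hab ih
    exact ih.tail ⟨ih.mem_right, hua.tail hab, by
      obtain ⟨e, he, _⟩ := hab.2.2
      exact ⟨e, he, rfl⟩⟩
  have hC₀c : ∀ w ∈ C₀, ∀ w' ∈ C₀, Conn allOpen C₀ w w' := fun w hw w' hw' =>
    (hC₀c0 w hw).symm.trans (hC₀c0 w' hw')
  set K : Set Vert := comp D C₀ v with hK
  have hvD : v ∈ D \ C₀ := ⟨h.mem_right, hno⟩
  have hKsub : K ⊆ D \ C₀ := fun w hw => (hw : Conn allOpen (D \ C₀) v w).mem_right
  have hvK : v ∈ K := Conn.refl hvD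
  have huK : u ∉ K := fun hh => (hKsub hh).2 huC₀
  have hreach : C₀ ⊆ reachV N O := fun w hw => ⟨u, hu, hw⟩
  -- a cut edge with a face in `reachF` is queried and closed
  have hkey : ∀ e : Edge, e ∈ tEdges N → src e ∈ D → tgt e ∈ D → cutConfig K e = false →
      (∃ φ, IsFace φ e ∧ φ ∈ reachF N C) → e ∈ C := by
    intro e het hes hte hcut hface
    have hcc := cut_comp (D := D) (C := C₀) (v := v) ⟨hes, hte⟩ hcut
    have hnotO : e ∉ O := by
      intro heO
      rcases hcc with ⟨h1, h2⟩ | ⟨h1, h2⟩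
      · exact (hKsub h2).2 ((h1 : Conn _ D u (src e)).tail
          ⟨hes, hte, e, joins_src_tgt e, by simpa using heO⟩)
      · exact (hKsub h2).2 ((h1 : Conn _ D u (tgt e)).tail
          ⟨hte, hes, e, (joins_src_tgt e).symm, by simpa using heO⟩)
    by_contra hnC
    refine hcand e ⟨het, hnotO, hnC, Or.inr ⟨?_, hface⟩⟩
    rcases hcc with ⟨h1, _⟩ | ⟨h1, _⟩
    · exact Or.inl (hreach h1)
    · exact Or.inr (hreach h1)
  -- a cut edge on the boundary
  obtain ⟨w, w', h1, h2, h3, _⟩ :=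
    ((conn_bdV hu).symm.trans (conn_bdV hv)).exists_hit (T := K) huK hvK
  have hwK : w ∉ K := h1.mem_right.2
  obtain ⟨hwb, hwb', e₀, he₀, -⟩ := h2
  have hcut₀ : cutConfig K e₀ = false := cutConfig_eq_false he₀ hwK h3
  have hb₀ : src e₀ ∈ bdV N ∧ tgt e₀ ∈ bdV N := by
    rcases he₀ with ⟨g1, g2⟩ | ⟨g1, g2⟩ <;> subst g1 g2
    · exact ⟨hwb, hwb'⟩
    · exact ⟨hwb', hwb⟩
  obtain ⟨φ₀, hφ₀, hφ₀b⟩ := bd_face hN hb₀.1 hb₀.2
  have hfaces : ∀ e' φ', src e' ∈ D → tgt e' ∈ D → cutConfig K e' = false → IsFace φ' e' →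
      φ' ∈ rect 0 ((N : ℤ) - 1) 0 (N - 1) → φ' ∈ reachF N C := by
    intro e' φ' hs' ht' hcut' hφ' hφD'
    have hsep := sep (a := 0) (b := N) (c := 0) (d := N) (K := K)
      (fun w hw => (hKsub hw).1)
      (comp_connected (D := D) (C := C₀) (v := v))
      (compl_comp_connected (v := v) hC₀D huC₀ hC₀c)
      ⟨hb₀.1.1, hb₀.2.1⟩ ⟨hs', ht'⟩ hcut₀ hcut' hφ₀ hφ' hφ₀b.1 hφD'
    refine hsep.induction_right (P := fun φ => φ ∈ reachF N C) ⟨φ₀, hφ₀b, Conn.refl hφ₀b.1⟩ ?_
    rintro a b - ⟨ha, hb, d, hd, hdo⟩ ⟨ψ, hψ, hψc⟩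
    obtain ⟨g1, g2, g3, g4, g5, g6⟩ := crossed_inner hd ha hb
    have hcutd : cutConfig K (crossed d) = false := by
      simpa [dual] using hdo
    have hdC := hkey (crossed d) g1 g5 g6 hcutd ⟨a, g3, ⟨ψ, hψ, hψc⟩⟩
    exact ⟨ψ, hψ, hψc.tail ⟨ha, hb, d, hd, by simpa using hdC⟩⟩
  -- conclusion
  obtain ⟨x, x', k1, k2, k3, _⟩ := h.exists_hit (T := K) huK hvK
  have hxK : x ∉ K := k1.mem_right.2
  obtain ⟨hxD, hxD', e, he, heo⟩ := k2
  obtain ⟨m1, m2, m3⟩ := intCfg_eq_true.1 heo
  have hcut : cutConfig K e = false := cutConfig_eq_false he hxK k3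
  have hb : src e ∈ D ∧ tgt e ∈ D := by
    rcases he with ⟨g1, g2⟩ | ⟨g1, g2⟩ <;> subst g1 g2
    · exact ⟨hxD, hxD'⟩
    · exact ⟨hxD', hxD⟩
  have hsf : src e ∈ rect 0 ((N : ℤ) - 1) 0 (N - 1) := by
    have := mem_tEdges.1 m1
    simp only [mem_rect, src]
    omega
  have hf := hfaces e (src e) hb.1 hb.2 hcut (Or.inl rfl) hsf
  have heC := hkey e m1 hb.1 hb.2 hcut ⟨_, Or.inl rfl, hf⟩
  rw [hC e heC] at m3
  exact absurd m3 (by decide)

/-! ### Periodicity -/

private lemma per_shift {N : ℕ} (η : Config) (a b : ℤ) {S : Set Vert} {u v : Vert}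
    (h : Conn (per N η) S u v) :
    Conn (per N η) {w | (w.1 - a * N, w.2 - b * N) ∈ S} (u.1 + a * N, u.2 + b * N)
      (v.1 + a * N, v.2 + b * N) := by
  have h1 := conn_shift (ω := per N η) (a * N, b * N) S u v
  have h2 : (fun e => per N η (shiftE (a * N, b * N) e)) = per N η := by
    funext e
    simp only [per, shiftE]
    rw [Int.add_mul_emod_self_right, Int.add_mul_emod_self_right]
  rw [h2] at h1
  exact h1.1 h

private def OnLine (N : ℕ) (u : Vert) : Prop := (N : ℤ) ∣ u.1 ∨ (N : ℤ) ∣ u.2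

private lemma onLine_shift {N : ℕ} {u : Vert} (a b : ℤ) (h : OnLine N u) :
    OnLine N (u.1 + a * N, u.2 + b * N) := by
  rcases h with h | h
  · exact Or.inl (dvd_add h (Dvd.intro_left _ rfl))
  · exact Or.inr (dvd_add h (Dvd.intro_left _ rfl))

private def sqr (N : ℕ) (i j : ℤ) : Set Vert := rect (i * N) (i * N + N) (j * N) (j * N + N)

private lemma aux_unique {N : ℕ} {i i' x : ℤ} (h1 : i * N ≤ x) (h2 : x ≤ i * N + N)
    (h1' : i' * N ≤ x) (h2' : x ≤ i' * N + N) (hx : ¬ (N : ℤ) ∣ x) : i = i' := by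
  have hN : (0 : ℤ) ≤ N := Int.natCast_nonneg N
  rcases lt_trichotomy i i' with h | h | h
  · exfalso
    have h3 : (i + 1) * N ≤ i' * N := mul_le_mul_of_nonneg_right (by omega) hN
    have h4 : x = i' * N := by linarith
    exact hx (h4 ▸ Dvd.intro_left _ rfl)
  · exact h
  · exfalso
    have h3 : (i' + 1) * N ≤ i * N := mul_le_mul_of_nonneg_right (by omega) hN
    have h4 : x = i * N := by linarith
    exact hx (h4 ▸ Dvd.intro_left _ rfl)

private lemma sqr_unique {N : ℕ} {i j i' j' : ℤ} {a : Vert} (h : a ∈ sqr N i j)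
    (h' : a ∈ sqr N i' j') (ha : ¬ OnLine N a) : i = i' ∧ j = j' := by
  unfold OnLine at ha
  push Not at ha
  obtain ⟨h1, h2, h3, h4⟩ := h
  obtain ⟨h1', h2', h3', h4'⟩ := h'
  exact ⟨aux_unique h1 h2 h1' h2' ha.1, aux_unique h3 h4 h3' h4' ha.2⟩

private lemma edge_sqr {N : ℕ} (hN : 0 < N) (e : Edge) :
    ∃ i j : ℤ, src e ∈ sqr N i j ∧ tgt e ∈ sqr N i j := by
  refine ⟨e.1 / N, e.2.1 / N, ?_⟩
  have hN' : (0 : ℤ) < N := by exact_mod_cast hN
  have h1 := Int.ediv_mul_le e.1 hN'.ne'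
  have h2 := Int.lt_ediv_add_one_mul_self e.1 hN'
  have h3 := Int.ediv_mul_le e.2.1 hN'.ne'
  have h4 := Int.lt_ediv_add_one_mul_self e.2.1 hN'
  rw [add_mul, one_mul] at h2 h4
  constructor
  · exact ⟨h1, h2.le, h3, h4.le⟩
  · unfold tgt sqr
    split_ifs
    · exact ⟨h1, h2.le, by simp only; omega, by simp only; omega⟩
    · exact ⟨by simp only; omega, by simp only; omega, h3, h4.le⟩

/-- Replacement of a path inside a closed square by interior open edges, between vertices on the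
cutting lines. -/
private lemma replace_piece {N : ℕ} (hN : 2 ≤ N) {ω : Config} {O C : Finset Edge}
    (hO : O ⊆ tEdges N) (hC : ∀ e ∈ C, ω e = false) (hcand : ∀ e, ¬ Cand N O C e) {i j : ℤ}
    {z b : Vert} (hz : OnLine N z) (hb : OnLine N b)
    (h : Conn (per N (intCfg N ω)) (sqr N i j) z b) :
    Conn (per N fun e => decide (e ∈ O)) Set.univ z b := by
  have hN' : (0 : ℤ) < N := by exact_mod_cast (by omega : 0 < N)
  -- translate to the fundamental square
  have h1 := per_shift (intCfg N ω) (-i) (-j) h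
  have hset : {w : Vert | (w.1 - -i * N, w.2 - -j * N) ∈ sqr N i j} ⊆ rect 0 N 0 N := by
    rintro w ⟨g1, g2, g3, g4⟩
    simp only at g1 g2 g3 g4
    exact ⟨by linarith, by linarith, by linarith, by linarith⟩
  have h2 := h1.mono_set hset
  have hbd : ∀ w : Vert, w ∈ sqr N i j → OnLine N w → ((w.1 + -i * N, w.2 + -j * N) : Vert) ∈ bdV N := by
    intro w hw hwl
    obtain ⟨g1, g2, g3, g4⟩ := hw
    refine ⟨⟨by simp only; linarith, by simp only; linarith, by simp only; linarith,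
      by simp only; linarith⟩, ?_⟩
    rcases hwl with ⟨c, hc⟩ | ⟨c, hc⟩
    · have e1 : i ≤ c := by
        by_contra hlt
        have : (c + 1) * N ≤ i * N := mul_le_mul_of_nonneg_right (by omega) hN'.le
        nlinarith
      have e2 : c ≤ i + 1 := by
        by_contra hlt
        have : (i + 2) * N ≤ c * N := mul_le_mul_of_nonneg_right (by omega) hN'.le
        nlinarith
      have e3 : c = i ∨ c = i + 1 := by omega
      rcases e3 with e3 | e3
      · left; simp only; rw [hc, e3]; ring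
      · right; left; simp only; rw [hc, e3]; ring
    · have e1 : j ≤ c := by
        by_contra hlt
        have : (c + 1) * N ≤ j * N := mul_le_mul_of_nonneg_right (by omega) hN'.le
        nlinarith
      have e2 : c ≤ j + 1 := by
        by_contra hlt
        have : (j + 2) * N ≤ c * N := mul_le_mul_of_nonneg_right (by omega) hN'.le
        nlinarith
      have e3 : c = j ∨ c = j + 1 := by omega
      rcases e3 with e3 | e3
      · right; right; left; simp only; rw [hc, e3]; ring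
      · right; right; right; simp only; rw [hc, e3]; ring
  have h3 : Conn (intCfg N ω) (rect 0 N 0 N) (z.1 + -i * N, z.2 + -j * N)
      (b.1 + -i * N, b.2 + -j * N) := by
    refine h2.congr fun e he1 he2 => ?_
    obtain ⟨x, y, c⟩ := e
    have key : ∀ e : Edge, e ∈ tEdges N → per N (intCfg N ω) e = intCfg N ω e := by
      rintro ⟨x, y, c⟩ he
      obtain ⟨g1, g2, g3, g4⟩ := mem_tEdges.1 he
      simp only at g1 g2 g3 g4
      simp only [per, Int.emod_eq_of_lt g1 g2, Int.emod_eq_of_lt g3 g4]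
    by_cases ht : ((x, y, c) : Edge) ∈ tEdges N
    · exact key _ ht
    have hf : intCfg N ω (x, y, c) = false := by
      by_contra hh
      rw [Bool.not_eq_false] at hh
      exact ht (intCfg_eq_true.1 hh).1
    rw [hf]
    by_contra hh
    rw [Bool.not_eq_false] at hh
    obtain ⟨-, hnb, -⟩ := intCfg_eq_true.1 hh
    rw [mem_tEdges] at ht
    simp only [src, mem_rect] at he1
    simp only at ht
    apply hnb
    cases c
    · simp only [tgt, Bool.false_eq_true, if_false, mem_rect] at he2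
      have : y = N := by omega
      left
      simp [this]
    · simp only [tgt, if_true, mem_rect] at he2
      have : x = N := by omega
      right
      simp [this]
  have h4 := terminal hN hC hcand (hbd z h.mem_left hz) (hbd b h.mem_right hb) h3
  have h5 : Conn (per N fun e => decide (e ∈ O)) (rect 0 N 0 N) (z.1 + -i * N, z.2 + -j * N)
      (b.1 + -i * N, b.2 + -j * N) := by
    refine h4.mono le_rfl fun e he => ?_
    simp only [decide_eq_true_eq] at he
    obtain ⟨x, y, c⟩ := e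
    obtain ⟨g1, g2, g3, g4⟩ := mem_tEdges.1 (hO he)
    simp only at g1 g2 g3 g4
    simp only [per, Int.emod_eq_of_lt g1 g2, Int.emod_eq_of_lt g3 g4, decide_eq_true_eq]
    exact he
  have h6 := (per_shift _ i j h5).mono_set (Set.subset_univ _)
  have e1 : ∀ w : Vert, ((w.1 + -i * N + i * N, w.2 + -j * N + j * N) : Vert) = w := by
    intro w
    ext <;> simp
  simp only at h6
  rw [e1, e1] at h6
  exact h6

/-- Main replacement lemma. -/
private lemma replace_path {N : ℕ} (hN : 2 ≤ N) {ω : Config} {O C : Finset Edge}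
    (hO : O ⊆ tEdges N) (hC : ∀ e ∈ C, ω e = false) (hcand : ∀ e, ¬ Cand N O C e)
    {u v : Vert} (hu : OnLine N u) (hv : OnLine N v) (h : Conn (per N ω) Set.univ u v) :
    Conn (per N fun e => decide (e ∈ O)) Set.univ u v := by
  have hN' : (0 : ℤ) < N := by exact_mod_cast (by omega : 0 < N)
  have key : (OnLine N v ∧ Conn (per N fun e => decide (e ∈ O)) Set.univ u v) ∨
      (¬ OnLine N v ∧ ∃ (i j : ℤ) (z : Vert), OnLine N z ∧
        Conn (per N fun e => decide (e ∈ O)) Set.univ u z ∧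
        Conn (per N (intCfg N ω)) (sqr N i j) z v) := by
    refine h.induction_right (P := fun v =>
      (OnLine N v ∧ Conn (per N fun e => decide (e ∈ O)) Set.univ u v) ∨
      (¬ OnLine N v ∧ ∃ (i j : ℤ) (z : Vert), OnLine N z ∧
        Conn (per N fun e => decide (e ∈ O)) Set.univ u z ∧
        Conn (per N (intCfg N ω)) (sqr N i j) z v)) (Or.inl ⟨hu, Conn.refl (Set.mem_univ _)⟩) ?_
    rintro a b - ⟨-, -, e, he, heo⟩ hP
    have hmem : ((e.1 % N, e.2.1 % N, e.2.2) : Edge) ∈ tEdges N :=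
      mem_tEdges.2 ⟨Int.emod_nonneg _ hN'.ne', Int.emod_lt_of_pos _ hN',
        Int.emod_nonneg _ hN'.ne', Int.emod_lt_of_pos _ hN'⟩
    by_cases hbd : IsBd (e.1 % N, e.2.1 % N, e.2.2)
    · -- the edge is on a cutting line
      have hline : OnLine N a ∧ OnLine N b := by
        rcases hbd with ⟨g1, g2⟩ | ⟨g1, g2⟩
        · have hd : (N : ℤ) ∣ e.2.1 := Int.dvd_of_emod_eq_zero g2
          simp only at g1
          rcases he with ⟨g3, g4⟩ | ⟨g3, g4⟩ <;> subst g3 g4 <;>
            exact ⟨Or.inr (by simpa [src, tgt, g1] using hd),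
              Or.inr (by simpa [src, tgt, g1] using hd)⟩
        · have hd : (N : ℤ) ∣ e.1 := Int.dvd_of_emod_eq_zero g2
          simp only at g1
          rcases he with ⟨g3, g4⟩ | ⟨g3, g4⟩ <;> subst g3 g4 <;>
            exact ⟨Or.inl (by simpa [src, tgt, g1] using hd),
              Or.inl (by simpa [src, tgt, g1] using hd)⟩
      have heO : ((e.1 % N, e.2.1 % N, e.2.2) : Edge) ∈ O := by
        by_contra hnO
        refine hcand _ ⟨hmem, hnO, fun hC' => ?_, Or.inl hbd⟩
        have := hC _ hC'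
        rw [per] at heo
        rw [this] at heo
        exact absurd heo (by decide)
      rcases hP with ⟨-, hc⟩ | ⟨hn, -⟩
      · exact Or.inl ⟨hline.2, hc.tail ⟨Set.mem_univ _, Set.mem_univ _, e, he, by
          simpa [per] using heO⟩⟩
      · exact absurd hline.1 hn
    · -- the edge is interior
      have hint : per N (intCfg N ω) e = true := intCfg_eq_true.2 ⟨hmem, hbd, heo⟩
      obtain ⟨i, j, hs, ht⟩ := edge_sqr (N := N) (by omega) e
      have hab : a ∈ sqr N i j ∧ b ∈ sqr N i j := by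
        rcases he with ⟨g3, g4⟩ | ⟨g3, g4⟩ <;> subst g3 g4
        · exact ⟨hs, ht⟩
        · exact ⟨ht, hs⟩
      have hz : ∃ z : Vert, OnLine N z ∧
          Conn (per N fun e => decide (e ∈ O)) Set.univ u z ∧
          Conn (per N (intCfg N ω)) (sqr N i j) z b := by
        rcases hP with ⟨hl, hc⟩ | ⟨hn, i', j', z, hz, hc, hc'⟩
        · exact ⟨a, hl, hc, (Step.conn ⟨hab.1, hab.2, e, he, hint⟩)⟩
        · obtain ⟨e1, e2⟩ := sqr_unique hc'.mem_right hab.1 hn
          subst e1 e2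
          exact ⟨z, hz, hc, hc'.tail ⟨hab.1, hab.2, e, he, hint⟩⟩
      obtain ⟨z, hz, hc, hc'⟩ := hz
      by_cases hbl : OnLine N b
      · exact Or.inl ⟨hbl, hc.trans (replace_piece hN hO hC hcand hz hbl hc')⟩
      · exact Or.inr ⟨hbl, i, j, z, hz, hc, hc'⟩
  rcases key with ⟨-, hc⟩ | ⟨hn, -⟩
  · exact hc
  · exact absurd hv hn

/-- The exploration determines the winding event. -/
theorem torus_det {N : ℕ} (hN : 2 ≤ N) (ω ω' : Config)
    (h : ∀ e ∈ queried (torusRule N) ω (tEdges N).card, ω e = ω' e) (hω : ω ∈ Wind N) :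
    ω' ∈ Wind N := by
  have hN' : (0 : ℤ) < N := by exact_mod_cast (by omega : 0 < N)
  obtain ⟨u, a, b, ha, hc⟩ := hω
  have hR : ∀ O C e, torusRule N O C = some e → e ∈ tEdges N ∧ e ∉ O ∧ e ∉ C := by
    intro O C e he
    obtain ⟨h1, h2, h3, _⟩ := torusRule_spec he
    exact ⟨h1, h2, h3⟩
  set O := (expl (torusRule N) ω (tEdges N).card).1 with hOdef
  set C := (expl (torusRule N) ω (tEdges N).card).2 with hCdef
  have hstop := expl_stop hR ω
  have hcand : ∀ e, ¬ Cand N O C e := torusRule_none hstop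
  obtain ⟨hO, hC⟩ := expl_inv (torusRule N) ω (tEdges N).card
  have hOs : O ⊆ tEdges N := fun e he =>
    expl_subset hR ω (tEdges N).card (by rw [queried]; exact Finset.mem_union_left _ he)
  -- a vertex on the cutting lines
  obtain ⟨w, hw, hwl⟩ : ∃ w, Conn (per N ω) Set.univ u w ∧ OnLine N w := by
    by_contra hno
    push Not at hno
    have h0 : (u.1 / N) * N < u.1 ∧ u.1 < (u.1 / N) * N + N := by
      have h1 := Int.ediv_mul_le u.1 hN'.ne'
      have h2 := Int.lt_ediv_add_one_mul_self u.1 hN'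
      rw [add_mul, one_mul] at h2
      refine ⟨lt_of_le_of_ne h1 fun h3 => ?_, h2⟩
      exact hno u (Conn.refl (Set.mem_univ _)) (Or.inl ⟨u.1 / N, by rw [mul_comm]; exact h3.symm⟩)
    have h1 : (u.1 / N) * N < u.1 + a * N ∧ u.1 + a * N < (u.1 / N) * N + N := by
      refine hc.induction_right
        (P := fun w => (u.1 / N) * N < w.1 ∧ w.1 < (u.1 / N) * N + N) h0 ?_
      intro x y hx hxy hP
      have hy := hno y (hx.tail hxy)
      have h5 := hxy.fst_le
      unfold OnLine at hy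
      push Not at hy
      constructor
      · refine lt_of_le_of_ne (by omega) fun h6 => hy.1 ⟨u.1 / N, by rw [mul_comm]; exact h6.symm⟩
      · refine lt_of_le_of_ne (by omega) fun h6 => hy.1 ⟨u.1 / N + 1, ?_⟩
        rw [h6]; ring
    have h2 : a * N < 1 * N := by linarith [h0.1, h1.2]
    have h3 : (-1) * N < a * N := by linarith [h0.2, h1.1]
    have h4 : a < 1 := lt_of_mul_lt_mul_right h2 hN'.le
    have h5 : -1 < a := lt_of_mul_lt_mul_right h3 hN'.le
    omega
  have hc2 : Conn (per N ω) Set.univ w (w.1 + a * N, w.2 + b * N) :=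
    (hw.symm.trans hc).trans ((per_shift ω a b hw).mono_set (Set.subset_univ _))
  have hc3 := replace_path hN hOs hC hcand hwl (onLine_shift a b hwl) hc2
  refine ⟨w, a, b, ha, hc3.mono le_rfl fun e he => ?_⟩
  simp only [per, decide_eq_true_eq] at he ⊢
  rw [← h _ (by rw [queried]; exact Finset.mem_union_left _ he)]
  exact hO _ he

end Pool.Agent.H89.Perc

end

section

/-!
# Block OSSS inequality for an exploration that queries single edges

From an exploration rule for single edges we make a rule for blocks: run the edge exploration on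
the revealed blocks; when it asks for an edge of a block that is not revealed, reveal this block.
-/

open MeasureTheory ProbabilityTheory unitInterval

namespace Pool.Agent.H31.EX

open Pool.Agent.H89.Perc Pool.Agent.H85.Kes

/-- The edge asked for at step `m` of the exploration. -/
def ask (N : Rule) (ω : Config) (m : ℕ) : Option Edge := N (expl N ω m).1 (expl N ω m).2

lemma expl_succ (R : Rule) (ω : Config) (n : ℕ) :
    expl R ω (n + 1) = explStep R ω (expl R ω n) := by
  simp only [expl, Function.iterate_succ_apply']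

lemma expl_congr {N : Rule} {ω ω' : Config} {m : ℕ}
    (h : ∀ m' < m, ∀ e, ask N ω m' = some e → ω e = ω' e) : expl N ω' m = expl N ω m := by
  induction m with
  | zero => rfl
  | succ m ih =>
    rw [expl_succ, expl_succ, ih fun m' hm' => h m' (by omega)]
    rcases hN : ask N ω m with _ | e
    · rw [explStep_none hN, explStep_none hN]
    · have he := h m (by omega) e hN
      rcases ho : ω e with _ | _
      · rw [explStep_some_false hN ho, explStep_some_false hN (he ▸ ho)]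
      · rw [explStep_some_true hN ho, explStep_some_true hN (he ▸ ho)]

lemma ask_congr {N : Rule} {ω ω' : Config} {m : ℕ}
    (h : ∀ m' < m, ∀ e, ask N ω m' = some e → ω e = ω' e) : ask N ω' m = ask N ω m := by
  unfold ask
  rw [expl_congr h]

lemma queried_mono {N : Rule} {ω : Config} {m n : ℕ} (h : m ≤ n) :
    queried N ω m ⊆ queried N ω n := by
  induction n, h using Nat.le_induction with
  | base => exact le_rfl
  | succ n _ ih =>
    refine ih.trans ?_
    unfold queried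
    rw [expl_succ]
    exact Finset.union_subset_union (explStep_subset N ω _).1 (explStep_subset N ω _).2

variable {s : Finset Edge} {N : Rule}

lemma card_queried (hN : ∀ O C e, N O C = some e → e ∈ s ∧ e ∉ O ∧ e ∉ C) (ω : Config) (m : ℕ)
    (h : ask N ω m ≠ none) : queried N ω m ⊆ s ∧ (queried N ω m).card = m ∧
      ∀ m' < m, ask N ω m' ≠ none := by
  induction m with
  | zero => simp [queried, expl]
  | succ m ih =>
    have hne : ask N ω m ≠ none := by
      intro h0
      apply h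
      have : expl N ω (m + 1) = expl N ω m := by rw [expl_succ, explStep_none h0]
      unfold ask
      rw [this]
      exact h0
    obtain ⟨h1, h2, h3⟩ := ih hne
    obtain ⟨e, he⟩ := Option.ne_none_iff_exists'.1 hne
    obtain ⟨e1, e2, e3⟩ := hN _ _ _ he
    have hq : queried N ω (m + 1) = insert e (queried N ω m) := by
      unfold queried
      rw [expl_succ]
      rcases ho : ω e with _ | _
      · rw [explStep_some_false he ho]
        simp only [Finset.union_insert]
      · rw [explStep_some_true he ho]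
        simp only [Finset.insert_union]
    have hnm : e ∉ queried N ω m := by
      unfold queried
      rw [Finset.mem_union]
      tauto
    refine ⟨?_, ?_, ?_⟩
    · rw [hq]
      exact Finset.insert_subset e1 h1
    · rw [hq, Finset.card_insert_of_notMem hnm, h2]
    · intro m' hm'
      rcases Nat.lt_succ_iff_lt_or_eq.1 hm' with h' | h'
      · exact h3 m' h'
      · rw [h']; exact hne

lemma mem_queried_of_ask (hN : ∀ O C e, N O C = some e → e ∈ s ∧ e ∉ O ∧ e ∉ C) {ω : Config}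
    {m : ℕ} {e : Edge} (h : ask N ω m = some e) : e ∈ queried N ω s.card := by
  obtain ⟨e1, e2, e3⟩ := hN _ _ _ h
  obtain ⟨h1, h2, -⟩ := card_queried hN ω m (by rw [h]; simp)
  have hnm : e ∉ queried N ω m := by
    unfold queried
    rw [Finset.mem_union]
    tauto
  have h3 : m < s.card := by
    rw [← h2]
    refine Finset.card_lt_card ⟨h1, fun h4 => hnm (h4 e1)⟩
  refine queried_mono (Nat.succ_le_of_lt h3) ?_
  unfold queried
  rw [expl_succ]
  rcases ho : ω e with _ | _
  · rw [explStep_some_false h ho]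
    simp
  · rw [explStep_some_true h ho]
    simp

lemma exists_ask_of_queried {ω : Config} (n : ℕ) {e : Edge} (he : e ∈ queried N ω n) :
    ∃ m, ask N ω m = some e := by
  induction n with
  | zero => simp [queried, expl] at he
  | succ n ih =>
    by_cases h : e ∈ queried N ω n
    · exact ih h
    refine ⟨n, ?_⟩
    rw [queried, expl_succ] at he
    rw [queried] at h
    rcases h' : ask N ω n with _ | e'
    · rw [explStep_none h'] at he
      exact absurd he h
    · rcases ho : ω e' with _ | _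
      · rw [explStep_some_false h' ho] at he
        simp only [Finset.mem_union, Finset.mem_insert] at he h
        have : e = e' := by tauto
        rw [this]
      · rw [explStep_some_true h' ho] at he
        simp only [Finset.mem_union, Finset.mem_insert] at he h
        have : e = e' := by tauto
        rw [this]

variable {κ : Type*} [DecidableEq κ] {β : Edge → κ}

variable (β N) in
/-- At step `m` the exploration on the configuration `O` asks for an edge of a new block. -/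
def NewAt (D : Finset κ) (O : Finset Edge) (m : ℕ) : Prop :=
  ∃ e, ask N (ofS O) m = some e ∧ β e ∉ D

variable (β N) in
/-- The rule for blocks made from a rule for edges. -/
noncomputable def bRule : BRule κ := fun D O => by
  classical exact if h : ∃ m, NewAt N β D O m then some (β (Nat.find_spec h).choose) else none

lemma bRule_spec {D : Finset κ} {O : Finset Edge} {b : κ} (h : bRule N β D O = some b) :
    ∃ m e, ask N (ofS O) m = some e ∧ β e = b ∧ b ∉ D ∧
      ∀ m' < m, ∀ e', ask N (ofS O) m' = some e' → β e' ∈ D := by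
  classical
  unfold bRule at h
  split_ifs at h with h'
  obtain ⟨h1, h2⟩ := (Nat.find_spec h').choose_spec
  refine ⟨Nat.find h', (Nat.find_spec h').choose, h1, Option.some.inj h, ?_, ?_⟩
  · rw [← Option.some.inj h]
    exact h2
  · intro m' hm' e' he'
    by_contra hc
    exact Nat.find_min h' hm' ⟨e', he', hc⟩

lemma bRule_none {D : Finset κ} {O : Finset Edge} (h : bRule N β D O = none) (m : ℕ) (e : Edge)
    (he : ask N (ofS O) m = some e) : β e ∈ D := by
  classical
  by_contra hc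
  unfold bRule at h
  rw [dif_pos ⟨m, e, he, hc⟩] at h
  exact absurd h (by simp)

variable (s β N) in
/-- State of the block exploration. -/
noncomputable def bSt (ω : Config) (n : ℕ) : Finset κ × Finset Edge :=
  (bStep s β (bRule N β) ω)^[n] (∅, ∅)

lemma bSt_succ (ω : Config) (n : ℕ) :
    bSt s N β ω (n + 1) = bStep s β (bRule N β) ω (bSt s N β ω n) := by
  simp only [bSt, Function.iterate_succ_apply']

lemma mem_bSt (ω : Config) (n : ℕ) (e : Edge) :
    e ∈ (bSt s N β ω n).2 ↔ e ∈ s ∧ β e ∈ (bSt s N β ω n).1 ∧ ω e = true := by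
  induction n with
  | zero => simp [bSt]
  | succ n ih =>
    rw [bSt_succ]
    rcases h : bRule N β (bSt s N β ω n).1 (bSt s N β ω n).2 with _ | b
    · rw [bStep_none h]; exact ih
    · rw [bStep_some h]
      simp only [Finset.mem_union, Finset.mem_filter, mem_blk, Finset.mem_insert, ih]
      tauto

/-- The configuration known to the block exploration agrees with `ω` on the revealed blocks. -/
lemma ofS_bSt {ω : Config} {n : ℕ} {e : Edge} (he : e ∈ s) (hb : β e ∈ (bSt s N β ω n).1) :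
    ofS (bSt s N β ω n).2 e = ω e := by
  rw [ofS_apply]
  rcases ho : ω e with _ | _
  · rw [decide_eq_false_iff_not, mem_bSt]
    rintro ⟨-, -, h⟩
    rw [ho] at h
    exact absurd h (by simp)
  · rw [decide_eq_true_iff, mem_bSt]
    exact ⟨he, hb, ho⟩

lemma bSt_ask (hN : ∀ O C e, N O C = some e → e ∈ s ∧ e ∉ O ∧ e ∉ C) {ω : Config} {n m : ℕ}
    (h : ∀ m' < m, ∀ e', ask N (ofS (bSt s N β ω n).2) m' = some e' → β e' ∈ (bSt s N β ω n).1) :
    ask N ω m = ask N (ofS (bSt s N β ω n).2) m := by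
  refine ask_congr fun m' hm' e' he' => ?_
  exact ofS_bSt (hN _ _ _ he').1 (h m' hm' e' he')

lemma queried_of_revealed (hN : ∀ O C e, N O C = some e → e ∈ s ∧ e ∉ O ∧ e ∉ C) (ω : Config)
    (n : ℕ) (b : κ) (hb : b ∈ (bSt s N β ω n).1) :
    ∃ e ∈ blk s β b, e ∈ queried N ω s.card := by
  induction n with
  | zero => simp [bSt] at hb
  | succ n ih =>
    rw [bSt_succ] at hb
    rcases h : bRule N β (bSt s N β ω n).1 (bSt s N β ω n).2 with _ | b'
    · rw [bStep_none h] at hb
      exact ih hb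
    · rw [bStep_some h] at hb
      rcases Finset.mem_insert.1 hb with rfl | hb
      · obtain ⟨m, e, h1, h2, h3, h4⟩ := bRule_spec h
        have h5 := bSt_ask hN h4
        rw [h1] at h5
        exact ⟨e, mem_blk.2 ⟨(hN _ _ _ h5).1, h2⟩, mem_queried_of_ask hN h5⟩
      · exact ih hb

lemma bRule_mem (hN : ∀ O C e, N O C = some e → e ∈ s ∧ e ∉ O ∧ e ∉ C) {K : Finset κ}
    (hK : ∀ e ∈ s, β e ∈ K) (D : Finset κ) (O : Finset Edge) (b : κ)
    (h : bRule N β D O = some b) : b ∈ K ∧ b ∉ D := by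
  obtain ⟨m, e, h1, h2, h3, h4⟩ := bRule_spec h
  refine ⟨?_, h3⟩
  rw [← h2]
  exact hK e (hN _ _ _ h1).1

lemma bSt_stop (hN : ∀ O C e, N O C = some e → e ∈ s ∧ e ∉ O ∧ e ∉ C) {K : Finset κ}
    (hK : ∀ e ∈ s, β e ∈ K) (ω : Config) (n : ℕ) :
    (bSt s N β ω n).1 ⊆ K ∧ (bRule N β (bSt s N β ω n).1 (bSt s N β ω n).2 = none ∨
      n ≤ (bSt s N β ω n).1.card) := by
  induction n with
  | zero => simp [bSt]
  | succ n ih =>
    obtain ⟨h1, h2⟩ := ih
    rcases h : bRule N β (bSt s N β ω n).1 (bSt s N β ω n).2 with _ | b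
    · rw [bSt_succ, bStep_none h]
      exact ⟨h1, Or.inl h⟩
    · have hb := bRule_mem hN hK _ _ _ h
      rw [bSt_succ, bStep_some h]
      refine ⟨Finset.insert_subset hb.1 h1, Or.inr ?_⟩
      rw [Finset.card_insert_of_notMem hb.2]
      rcases h2 with h2 | h2
      · rw [h] at h2
        exact absurd h2 (by simp)
      · omega

lemma bSt_final (hN : ∀ O C e, N O C = some e → e ∈ s ∧ e ∉ O ∧ e ∉ C) {K : Finset κ}
    (hK : ∀ e ∈ s, β e ∈ K) (ω : Config) :
    bRule N β (bSt s N β ω K.card).1 (bSt s N β ω K.card).2 = none := by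
  obtain ⟨h1, h2⟩ := bSt_stop hN hK ω K.card
  rcases h2 with h2 | h2
  · exact h2
  · have h3 : (bSt s N β ω K.card).1 = K := Finset.eq_of_subset_of_card_le h1 h2
    rcases h : bRule N β (bSt s N β ω K.card).1 (bSt s N β ω K.card).2 with _ | b
    · rfl
    · have hb := bRule_mem hN hK _ _ _ h
      rw [h3] at hb
      exact absurd hb.1 hb.2

/-- **Block OSSS inequality** for an increasing local event determined by an exploration of single
edges: a block counts as revealed when one of its edges is queried. -/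
theorem block_osss_rule {A : Set Config} (hA : LocalOn s A) (iA : Incr A) {K : Finset κ}
    (hK : ∀ e ∈ s, β e ∈ K) (hN : ∀ O C e, N O C = some e → e ∈ s ∧ e ∉ O ∧ e ∉ C)
    (hdet : ∀ ω ω' : Config, (∀ e ∈ queried N ω s.card, ω e = ω' e) → ω ∈ A → ω' ∈ A) (p : I) :
    Pr p A * (1 - Pr p A) ≤
      ∑ b ∈ K, Pr p {ω | ∃ e ∈ blk s β b, e ∈ queried N ω s.card} *
        Pr p (BPiv (blk s β b) A) := by
  have key := block_osss (R := bRule N β) hA iA hK (bRule_mem hN hK)
    (by
      intro ω ω' h hω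
      refine hdet ω ω' (fun e he => ?_) hω
      obtain ⟨m, hm⟩ := exists_ask_of_queried _ he
      have h1 : ∀ m' e', ask N (ofS (bSt s N β ω K.card).2) m' = some e' →
          β e' ∈ (bSt s N β ω K.card).1 := fun m' e' h' => bRule_none (bSt_final hN hK ω) m' e' h'
      have h2 := bSt_ask (m := m) hN (ω := ω) (n := K.card) fun m' _ e' h' => h1 m' e' h'
      rw [h2] at hm
      exact h e (hN _ _ _ hm).1 (h1 m e hm)) p
  refine key.trans (Finset.sum_le_sum fun b _ => ?_)
  refine mul_le_mul_of_nonneg_right ?_ (Pr_nonneg)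
  refine Pr_mono ?_
  intro ω hω
  exact queried_of_revealed hN ω K.card b hω

end Pool.Agent.H31.EX

end

section

/-!
# Blocks of the torus: a revealed block has a primal arm and a dual arm
-/

open MeasureTheory ProbabilityTheory unitInterval

namespace Pool.Agent.H31.EX

open Pool.Agent.H89.Perc

/-- Index of the block of an edge (blocks of side `2 r + 1`). -/
def bIdx (r : ℕ) (e : Edge) : ℤ × ℤ := (e.1 / (2 * r + 1 : ℤ), e.2.1 / (2 * r + 1 : ℤ))

/-- Number of blocks in one direction. -/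
def nB (N r : ℕ) : ℕ := (N + 2 * r) / (2 * r + 1)

/-- The block with index `b`. -/
noncomputable def tBlk (N r : ℕ) (b : ℤ × ℤ) : Finset Edge :=
  Pool.Agent.H85.Kes.blk (tEdges N) (bIdx r) b

lemma mem_tEdges {N : ℕ} {e : Edge} :
    e ∈ tEdges N ↔ (0 ≤ e.1 ∧ e.1 < N) ∧ (0 ≤ e.2.1 ∧ e.2.1 < N) := by
  simp only [tEdges, Finset.mem_product, Finset.mem_Ico, Finset.mem_univ, and_true]

lemma mem_tBlk {N r : ℕ} {b : ℤ × ℤ} {e : Edge} :
    e ∈ tBlk N r b ↔ e ∈ tEdges N ∧ (b.1 * (2 * r + 1) ≤ e.1 ∧ e.1 ≤ b.1 * (2 * r + 1) + 2 * r) ∧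
      (b.2 * (2 * r + 1) ≤ e.2.1 ∧ e.2.1 ≤ b.2 * (2 * r + 1) + 2 * r) := by
  have hw : (0 : ℤ) < 2 * r + 1 := by positivity
  have key : ∀ x i : ℤ, x / (2 * r + 1) = i ↔ (i * (2 * r + 1) ≤ x ∧ x ≤ i * (2 * r + 1) + 2 * r) := by
    intro x i
    constructor
    · rintro rfl
      have h1 := Int.ediv_mul_le x hw.ne'
      have h2 := Int.lt_ediv_add_one_mul_self x hw
      constructor
      · exact h1
      · have h3 : (x / (2 * r + 1) + 1) * (2 * r + 1) =
          x / (2 * r + 1) * (2 * r + 1) + (2 * r + 1) := by ring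
        rw [h3] at h2
        omega
    · rintro ⟨h1, h2⟩
      apply le_antisymm
      · apply Int.lt_add_one_iff.1
        apply Int.ediv_lt_of_lt_mul hw
        have h3 : (i + 1) * (2 * (r : ℤ) + 1) = i * (2 * r + 1) + (2 * r + 1) := by ring
        rw [h3]
        omega
      · exact (Int.le_ediv_iff_mul_le hw).2 h1
  unfold tBlk
  rw [Pool.Agent.H85.Kes.mem_blk]
  unfold bIdx
  rw [Prod.ext_iff]
  simp only [key]

lemma nB_spec {N r : ℕ} (hN : 1 ≤ N) : 1 ≤ nB N r ∧ (((nB N r : ℤ) - 1) * (2 * r + 1) + 1 ≤ N) ∧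
    ((N : ℤ) ≤ nB N r * (2 * r + 1)) := by
  have hw : 0 < 2 * r + 1 := by omega
  have h1 : nB N r * (2 * r + 1) ≤ N + 2 * r := Nat.div_mul_le_self _ _
  have h2 : N + 2 * r < (nB N r + 1) * (2 * r + 1) := by
    have h := Nat.lt_mul_div_succ (N + 2 * r) hw
    unfold nB
    calc N + 2 * r < (2 * r + 1) * ((N + 2 * r) / (2 * r + 1) + 1) := h
      _ = _ := Nat.mul_comm _ _
  have h3 : 1 ≤ nB N r := by
    unfold nB
    rw [Nat.le_div_iff_mul_le hw]
    omega
  refine ⟨h3, ?_, ?_⟩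
  · have : ((nB N r : ℤ)) * (2 * r + 1) ≤ N + 2 * r := by exact_mod_cast h1
    have e : ((nB N r : ℤ) - 1) * (2 * r + 1) = (nB N r : ℤ) * (2 * r + 1) - (2 * r + 1) := by ring
    rw [e]
    omega
  · have : (N : ℤ) + 2 * r < ((nB N r : ℤ) + 1) * (2 * r + 1) := by exact_mod_cast h2
    have e : ((nB N r : ℤ) + 1) * (2 * r + 1) = (nB N r : ℤ) * (2 * r + 1) + (2 * r + 1) := by ring
    rw [e] at this
    omega

/-- All block indices. -/
noncomputable def bAll (N r : ℕ) : Finset (ℤ × ℤ) :=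
  Finset.Ico (0 : ℤ) (nB N r) ×ˢ Finset.Ico (0 : ℤ) (nB N r)

lemma bIdx_mem {N r : ℕ} (hN : 1 ≤ N) {e : Edge} (he : e ∈ tEdges N) : bIdx r e ∈ bAll N r := by
  rw [mem_tEdges] at he
  obtain ⟨-, -, h3⟩ := nB_spec (r := r) hN
  have hw : (0 : ℤ) < 2 * r + 1 := by positivity
  unfold bAll bIdx
  rw [Finset.mem_product, Finset.mem_Ico, Finset.mem_Ico]
  refine ⟨⟨Int.ediv_nonneg he.1.1 hw.le, Int.ediv_lt_of_lt_mul hw (by omega)⟩,
    ⟨Int.ediv_nonneg he.2.1 hw.le, Int.ediv_lt_of_lt_mul hw (by omega)⟩⟩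

lemma expl_inv' (R : Rule) (ω : Config) (n : ℕ) :
    (∀ e ∈ (expl R ω n).1, ω e = true) ∧ (∀ e ∈ (expl R ω n).2, ω e = false) := by
  induction n with
  | zero => simp [expl]
  | succ n ih =>
    rw [expl_succ]
    unfold explStep
    cases h : R (expl R ω n).1 (expl R ω n).2 with
    | none => simpa using ih
    | some e =>
      by_cases hω : ω e = true
      · simp only [hω, if_true, Finset.mem_insert]
        exact ⟨fun e' he' => he'.elim (fun h => h ▸ hω) (ih.1 e'), ih.2⟩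
      · simp only [if_neg hω, Finset.mem_insert]
        exact ⟨ih.1, fun e' he' => he'.elim (fun h => h ▸ by simpa using hω) (ih.2 e')⟩

/-- A revealed block has a primal arm and a dual arm. -/
theorem block_reveal_subset {N r : ℕ} (hN : 1 ≤ N) {b : ℤ × ℤ} {d R : ℕ} (hd : 1 ≤ d)
    (h1 : (d : ℤ) ≤ b.1) (h2 : (d : ℤ) ≤ nB N r - 1 - b.1) (h3 : (d : ℤ) ≤ b.2)
    (h4 : (d : ℤ) ≤ nB N r - 1 - b.2) (hR : R + r = d * (2 * r + 1)) :
    {ω | ∃ e ∈ tBlk N r b, e ∈ queried (torusRule N) ω (tEdges N).card} ⊆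
      ArmBox (b.1 * (2 * r + 1) + r, b.2 * (2 * r + 1) + r) (r + 1) R ∩
      {ω | dual ω ∈ ArmBox (b.1 * (2 * r + 1) + r, b.2 * (2 * r + 1) + r) (r + 1) R} := by
  set w : ℤ := 2 * r + 1 with hw
  have hw0 : 0 < w := by positivity
  have hRw : (R : ℤ) + r = d * w := by rw [hw]; exact_mod_cast hR
  obtain ⟨-, hK, -⟩ := nB_spec (r := r) hN
  rw [← hw] at hK
  have g1 : (d : ℤ) * w ≤ b.1 * w := mul_le_mul_of_nonneg_right h1 hw0.le
  have g3 : (d : ℤ) * w ≤ b.2 * w := mul_le_mul_of_nonneg_right h3 hw0.le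
  have g2 : (d : ℤ) * w ≤ (nB N r - 1) * w - b.1 * w := by
    have := mul_le_mul_of_nonneg_right h2 hw0.le
    linarith [this, sub_mul ((nB N r : ℤ) - 1) b.1 w]
  have g4 : (d : ℤ) * w ≤ (nB N r - 1) * w - b.2 * w := by
    have := mul_le_mul_of_nonneg_right h4 hw0.le
    linarith [this, sub_mul ((nB N r : ℤ) - 1) b.2 w]
  have gd : w ≤ (d : ℤ) * w := by
    have : (1 : ℤ) ≤ d := by exact_mod_cast hd
    nlinarith
  set v1 : ℤ := b.1 * w + r with hv1
  set v2 : ℤ := b.2 * w + r with hv2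
  rintro ω ⟨e, heb, hω⟩
  rw [mem_tBlk] at heb
  obtain ⟨-, he1, he2⟩ := heb
  rw [← hw] at he1 he2
  obtain ⟨m, hm⟩ := exists_ask_of_queried _ hω
  obtain ⟨_, _, _, hc⟩ := torusRule_spec hm
  obtain ⟨hO, hC⟩ := expl_inv' (torusRule N) ω m
  have hnb : ¬ IsBd e := by
    rintro (⟨_, h⟩ | ⟨_, h⟩) <;> omega
  obtain ⟨hV, φ, hφ, hφr⟩ := hc.resolve_left hnb
  constructor
  · have hArm : ∀ u : Vert, u ∈ reachV N (expl (torusRule N) ω m).1 →
        u ∈ ball (v1, v2) (r + 1) → ω ∈ ArmBox (v1, v2) (r + 1) R := by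
      rintro u ⟨x, hx, hc⟩ hu
      have hc' : Conn ω (rect 0 N 0 N) u x :=
        (hc.mono le_rfl fun e' he' => hO e' (by simpa using he')).symm
      have hu' : u ∈ ball (v1, v2) R := by
        simp only [mem_ball] at hu ⊢
        push_cast at hu
        omega
      obtain ⟨y, hy, hcy⟩ := hc'.to_sphere hu' (by
        by_cases h1 : x ∈ ball (v1, v2) R
        · right
          refine ⟨h1, ?_⟩
          simp only [mem_ball] at h1 ⊢
          obtain ⟨_, hx⟩ := hx
          rcases hx with h | h | h | h <;> omega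
        · exact Or.inl h1)
      exact ⟨u, hu, y, hy, hcy.mono_set Set.inter_subset_right⟩
    rcases hV with hV | hV
    · refine hArm _ hV ?_
      simp only [mem_ball, src]
      push_cast
      omega
    · refine hArm _ hV ?_
      simp only [mem_ball, tgt]
      split_ifs <;> simp only <;> push_cast <;> omega
  · have hDual : φ ∈ ball (v1, v2) (r + 1) → dual ω ∈ ArmBox (v1, v2) (r + 1) R := by
      intro hu
      obtain ⟨x, hx, hc⟩ := hφr
      have hc' : Conn (dual ω) (rect 0 (N - 1) 0 (N - 1)) φ x :=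
        (hc.mono le_rfl fun e' he' => by
          simp only [decide_eq_true_eq] at he'
          simp [dual, hC _ he']).symm
      have hu' : φ ∈ ball (v1, v2) R := by
        simp only [mem_ball] at hu ⊢
        push_cast at hu
        omega
      obtain ⟨y, hy, hcy⟩ := hc'.to_sphere hu' (by
        by_cases h1 : x ∈ ball (v1, v2) R
        · right
          refine ⟨h1, ?_⟩
          simp only [mem_ball] at h1 ⊢
          obtain ⟨_, hx⟩ := hx
          rcases hx with h | h | h | h <;> omega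
        · exact Or.inl h1)
      exact ⟨φ, hu, y, hy, hcy.mono_set Set.inter_subset_right⟩
    refine hDual ?_
    rcases hφ with hφ | hφ
    · subst hφ
      simp only [mem_ball, src]
      push_cast
      omega
    · rw [hφ]
      simp only [mem_ball]
      split_ifs <;> simp only <;> push_cast <;> omega

end Pool.Agent.H31.EX

end

section

/-!
# Lower bound for the probability that a block is pivotal for the winding event
-/

open MeasureTheory ProbabilityTheory unitInterval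

namespace Pool.Agent.H31.EX

open Pool.Agent.H89.Perc Pool.Agent.H61.NC
open Pool.Agent.H85.Kes (BPiv setB)

lemma blk_subset_tEdges {N r : ℕ} (h : 4 * r ≤ N) (hr : 1 ≤ r) : blk N r ⊆ tEdges N := by
  intro e he
  rw [blk, mem_eRect] at he
  rw [mem_tEdges]
  simp only [src, rect, Set.mem_ofPred_eq, mid] at he
  omega

lemma fill_eq_setB (s : Finset Edge) (b : Bool) (ω : Config) : fill s b ω = setB s b ω := by
  classical
  funext e
  by_cases h : e ∈ s <;> simp [fill, setB, h]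

lemma blockPiv_eq (N r : ℕ) : BlockPiv N r = BPiv (blk N r) (Wind N) := by
  ext ω
  simp only [BlockPiv, BPiv, fill_eq_setB]

/-- All translates of a block have the same probability of being pivotal. -/
theorem Pr_bpiv_translate {N : ℕ} (hN : 1 ≤ N) (q : I) {B : Finset Edge} (hB : B ⊆ tEdges N)
    (z : Vert) : Pr q (BPiv (B.image (torusSym_tau N z)) (Wind N)) = Pr q (BPiv B (Wind N)) := by
  rw [← Pr_comp (Pool.Agent.H85.Kes.localOn_BPiv (localOn_wind hN) B) (torusSym_tau_injOn N z)]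
  congr 1
  ext ω
  have key : ∀ b : Bool, setB (B.image (torusSym_tau N z)) b ω ∈ Wind N ↔
      setB B b (fun e => ω (torusSym_tau N z e)) ∈ Wind N := by
    intro b
    rw [← torusSym_wind N z (setB (B.image (torusSym_tau N z)) b ω)]
    have key2 : ∀ f ∈ tEdges N, setB (B.image (torusSym_tau N z)) b ω (torusSym_tau N z f) =
        setB B b (fun e => ω (torusSym_tau N z e)) f := by
      intro f hf
      have h1 : torusSym_tau N z f ∈ B.image (torusSym_tau N z) ↔ f ∈ B := by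
        rw [Finset.mem_image]
        constructor
        · rintro ⟨g, hg, hgf⟩
          rwa [← torusSym_tau_injOn N z (hB hg) hf hgf]
        · intro h; exact ⟨f, h, rfl⟩
      unfold setB
      by_cases hfB : f ∈ B
      · rw [if_pos (h1.2 hfB), if_pos hfB]
      · rw [if_neg (fun h => hfB (h1.1 h)), if_neg hfB]
    exact ⟨fun h1 => localOn_wind hN _ _ key2 h1,
      fun h1 => localOn_wind hN _ _ (fun f hf => (key2 f hf).symm) h1⟩
  simp only [BPiv, Set.mem_ofPred_eq, key]

lemma bpiv_mono {B B' : Finset Edge} (h : B ⊆ B') {A : Set Config} (hA : Incr A) :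
    BPiv B A ⊆ BPiv B' A := by
  rintro ω ⟨h1, h2⟩
  refine ⟨hA _ _ (fun e he => ?_) h1, fun h3 => h2 (hA _ _ (fun e he => ?_) h3)⟩
  · unfold setB at he ⊢
    by_cases h4 : e ∈ B'
    · rw [if_pos h4]
    · rw [if_neg h4]
      rwa [if_neg (fun h5 => h4 (h h5))] at he
  · unfold setB at he ⊢
    by_cases h4 : e ∈ B'
    · rw [if_pos h4] at he
      exact absurd he (by decide)
    · rw [if_neg (fun h5 => h4 (h h5))]
      rwa [if_neg h4] at he

/-- The blocks of the tiling have smaller influence than the block in the middle. -/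
theorem Pr_tBlk_le {N r : ℕ} (hr : 1 ≤ r) (h4 : 4 * r ≤ N) (q : I) (b : ℤ × ℤ) :
    Pr q (BPiv (tBlk N r b) (Wind N)) ≤ Pr q (BlockPiv N r) := by
  classical
  have hN : 1 ≤ N := by omega
  set z : Vert := (b.1 * (2 * r + 1) + r - mid N, b.2 * (2 * r + 1) + r - mid N) with hz
  rw [blockPiv_eq, ← Pr_bpiv_translate hN q (blk_subset_tEdges h4 hr) z]
  refine Pr_mono (bpiv_mono ?_ (incr_wind N))
  intro e he
  rw [mem_tBlk, mem_tEdges] at he
  obtain ⟨⟨h1, h2⟩, h3, h5⟩ := he
  rw [Finset.mem_image]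
  refine ⟨(e.1 - z.1, e.2.1 - z.2, e.2.2), ?_, ?_⟩
  · rw [blk, mem_eRect]
    simp only [src, rect, Set.mem_ofPred_eq, hz]
    omega
  · unfold torusSym_tau
    simp only [sub_add_cancel]
    rw [Int.emod_eq_of_lt h1.1 h1.2, Int.emod_eq_of_lt h2.1 h2.2]

/-! ### The sum over the blocks -/

lemma sum_rpow_le {b : ℝ} (hb0 : 0 ≤ b) (hb : b ≤ 1 / 2) (n : ℕ) :
    ∑ d ∈ Finset.range n, ((d : ℝ) + 1) ^ (-b) ≤ 2 * (n : ℝ) ^ (1 - b) := by
  induction n with
  | zero =>
    simp only [Finset.range_zero, Finset.sum_empty, Nat.cast_zero]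
    rw [Real.zero_rpow (by linarith), mul_zero]
  | succ n ih =>
    rw [Finset.sum_range_succ]
    have hn : (0 : ℝ) < (n : ℝ) + 1 := by positivity
    have h1 : (n : ℝ) ^ (1 - b) ≤ ((n : ℝ) + 1) ^ (1 - b) * (1 - (1 - b) / (n + 1)) := by
      have h2 : (n : ℝ) = (n + 1) * (1 + -(1 / ((n : ℝ) + 1))) := by field_simp; ring
      have h3 : (0 : ℝ) ≤ 1 + -(1 / ((n : ℝ) + 1)) := by
        have : 1 / ((n : ℝ) + 1) ≤ 1 := by
          rw [div_le_one hn]; linarith [(Nat.cast_nonneg n : (0 : ℝ) ≤ n)]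
        linarith
      have h4 : (1 + -(1 / ((n : ℝ) + 1))) ^ (1 - b) ≤ 1 + (1 - b) * -(1 / ((n : ℝ) + 1)) :=
        rpow_one_add_le_one_add_mul_self (by linarith) (by linarith) (by linarith)
      calc (n : ℝ) ^ (1 - b) = ((n + 1) * (1 + -(1 / ((n : ℝ) + 1)))) ^ (1 - b) := by rw [← h2]
        _ = ((n : ℝ) + 1) ^ (1 - b) * (1 + -(1 / ((n : ℝ) + 1))) ^ (1 - b) :=
            Real.mul_rpow hn.le h3
        _ ≤ ((n : ℝ) + 1) ^ (1 - b) * (1 + (1 - b) * -(1 / ((n : ℝ) + 1))) :=
            mul_le_mul_of_nonneg_left h4 (by positivity)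
        _ = _ := by ring
    have h5 : ((n : ℝ) + 1) ^ (-b) = ((n : ℝ) + 1) ^ (1 - b) / (n + 1) := by
      rw [show (-b : ℝ) = (1 - b) - 1 by ring, Real.rpow_sub_one hn.ne']
    have h6 : 0 ≤ ((n : ℝ) + 1) ^ (1 - b) / (n + 1) := by positivity
    rw [h5]
    push_cast
    have h7 : ((n : ℝ) + 1) ^ (1 - b) * (1 - (1 - b) / (n + 1)) =
        ((n : ℝ) + 1) ^ (1 - b) - (1 - b) * (((n : ℝ) + 1) ^ (1 - b) / (n + 1)) := by
      field_simp
    rw [h7] at h1
    nlinarith [mul_nonneg (by linarith : (0 : ℝ) ≤ 1 / 2 - b) h6]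

/-- Bound for the sum over the blocks when the summand is controlled by the distance to the
boundary. -/
lemma sum_blocks_le {K : ℕ} {g : ℤ × ℤ → ℝ} {G : ℕ → ℝ} (hG : ∀ d, 0 ≤ G d)
    (h : ∀ b ∈ Finset.Ico (0 : ℤ) K ×ˢ Finset.Ico (0 : ℤ) K, ∀ d : ℕ, (d : ℤ) ≤ b.1 →
      (d : ℤ) ≤ K - 1 - b.1 → (d : ℤ) ≤ b.2 → (d : ℤ) ≤ K - 1 - b.2 → g b ≤ G d) :
    ∑ b ∈ Finset.Ico (0 : ℤ) K ×ˢ Finset.Ico (0 : ℤ) K, g b ≤
      4 * K * ∑ d ∈ Finset.range K, G d := by
  have e0 : ∀ f : ℤ → ℝ, ∑ x ∈ Finset.Ico (0 : ℤ) K, f x = ∑ d ∈ Finset.range K, f d := by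
    intro f
    have : Finset.Ico (0 : ℤ) K = (Finset.range K).map ⟨((↑) : ℕ → ℤ), Nat.cast_injective⟩ := by
      ext x
      simp only [Finset.mem_Ico, Finset.mem_map, Finset.mem_range, Function.Embedding.coeFn_mk]
      constructor
      · rintro ⟨h1, h2⟩
        exact ⟨x.toNat, by omega, by omega⟩
      · rintro ⟨y, hy, rfl⟩
        omega
    rw [this, Finset.sum_map]
    rfl
  have h1 : ∀ b ∈ Finset.Ico (0 : ℤ) K ×ˢ Finset.Ico (0 : ℤ) K, g b ≤
      G b.1.toNat + G (K - 1 - b.1).toNat + (G b.2.toNat + G (K - 1 - b.2).toNat) := by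
    intro b hb
    have hb' := hb
    rw [Finset.mem_product, Finset.mem_Ico, Finset.mem_Ico] at hb'
    have n1 := hG b.1.toNat
    have n2 := hG (K - 1 - b.1).toNat
    have n3 := hG b.2.toNat
    have n4 := hG (K - 1 - b.2).toNat
    rcases le_total b.1 (K - 1 - b.1) with c1 | c1 <;>
    rcases le_total b.2 (K - 1 - b.2) with c2 | c2
    · rcases le_total b.1 b.2 with c3 | c3
      · have := h b hb b.1.toNat (by omega) (by omega) (by omega) (by omega)
        linarith
      · have := h b hb b.2.toNat (by omega) (by omega) (by omega) (by omega)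
        linarith
    · rcases le_total b.1 (K - 1 - b.2) with c3 | c3
      · have := h b hb b.1.toNat (by omega) (by omega) (by omega) (by omega)
        linarith
      · have := h b hb (K - 1 - b.2).toNat (by omega) (by omega) (by omega) (by omega)
        linarith
    · rcases le_total (K - 1 - b.1) b.2 with c3 | c3
      · have := h b hb (K - 1 - b.1).toNat (by omega) (by omega) (by omega) (by omega)
        linarith
      · have := h b hb b.2.toNat (by omega) (by omega) (by omega) (by omega)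
        linarith
    · rcases le_total (K - 1 - b.1) (K - 1 - b.2) with c3 | c3
      · have := h b hb (K - 1 - b.1).toNat (by omega) (by omega) (by omega) (by omega)
        linarith
      · have := h b hb (K - 1 - b.2).toNat (by omega) (by omega) (by omega) (by omega)
        linarith
  refine (Finset.sum_le_sum h1).trans (le_of_eq ?_)
  have e1 : ∑ x ∈ Finset.Ico (0 : ℤ) K, (G x.toNat + G (K - 1 - x).toNat) =
      2 * ∑ d ∈ Finset.range K, G d := by
    rw [e0, Finset.sum_add_distrib]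
    have e2 : ∑ d ∈ Finset.range K, G ((d : ℤ)).toNat = ∑ d ∈ Finset.range K, G d :=
      Finset.sum_congr rfl fun d _ => by rw [Int.toNat_natCast]
    have e3 : ∑ d ∈ Finset.range K, G ((K : ℤ) - 1 - d).toNat = ∑ d ∈ Finset.range K, G d := by
      rw [← Finset.sum_range_reflect]
      refine Finset.sum_congr rfl fun d hd => ?_
      rw [Finset.mem_range] at hd
      congr 1
      omega
    rw [e2, e3]
    ring
  rw [Finset.sum_product]
  simp only [Finset.sum_add_distrib, Finset.sum_const, Int.card_Ico, sub_zero, Int.toNat_natCast,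
    nsmul_eq_mul] at e1 ⊢
  rw [← Finset.mul_sum, ← Finset.mul_sum]
  linear_combination (2 * (K : ℝ)) * e1

/-- The influence of a block of radius `r` on the winding event is at least
`(r / N) ^ (2 - δ)` in the box-crossing regime. -/
theorem blockLow : BlockLow := by
  classical
  intro c hc
  obtain ⟨C, a, hC, ha, ha4, hdec⟩ := armBox_decay hc
  set b : ℝ := 2 * a with hb
  have hb0 : 0 < b := by positivity
  have hb1 : b ≤ 1 / 2 := by linarith
  set C1 : ℝ := 1 + 2 * C ^ 2 with hC1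
  have hC1p : 1 ≤ C1 := by have := sq_nonneg C; linarith
  refine ⟨8 * C1 / c ^ 8, b, by positivity, hb0, ?_⟩
  intro N r q hr h4 hreg
  have hN : 2 ≤ N := by omega
  have hN4 : 4 ≤ N := by omega
  have hN1 : 1 ≤ N := by omega
  have hNn : (1 : ℕ) ≤ N := hN1
  set P : ℝ := Pr q (BlockPiv N r) with hP
  have hP0 : 0 ≤ P := Pr_nonneg
  set K : ℕ := nB N r with hK
  obtain ⟨hK1, hK2, hK3⟩ := nB_spec (r := r) hN1
  rw [← hK] at hK1 hK2 hK3
  have hR : ∀ O C e, torusRule N O C = some e → e ∈ tEdges N ∧ e ∉ O ∧ e ∉ C := by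
    intro O C e he
    obtain ⟨h1, h2, h3, _⟩ := torusRule_spec he
    exact ⟨h1, h2, h3⟩
  have hosss := block_osss_rule (β := bIdx r) (localOn_wind hN1) (incr_wind N)
    (fun e he => bIdx_mem hN1 he) hR (torus_det hN) q
  -- the revealment
  set G : ℕ → ℝ := fun d => C1 * ((d : ℝ) + 1) ^ (-b) with hG
  have hG0 : ∀ d, 0 ≤ G d := fun d => by
    have : (0 : ℝ) ≤ ((d : ℝ) + 1) ^ (-b) := by positivity
    exact mul_nonneg (by linarith) this
  set g : ℤ × ℤ → ℝ := fun x =>
    Pr q {ω | ∃ e ∈ tBlk N r x, e ∈ queried (torusRule N) ω (tEdges N).card} with hg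
  have hgG : ∀ x ∈ Finset.Ico (0 : ℤ) K ×ˢ Finset.Ico (0 : ℤ) K, ∀ d : ℕ, (d : ℤ) ≤ x.1 →
      (d : ℤ) ≤ K - 1 - x.1 → (d : ℤ) ≤ x.2 → (d : ℤ) ≤ K - 1 - x.2 → g x ≤ G d := by
    intro x hx d d1 d2 d3 d4
    rcases Nat.eq_zero_or_pos d with h0 | hd
    · have : g x ≤ 1 := Pr_le_one
      have h5 : G d = C1 := by rw [hG, h0]; simp
      rw [h5]
      linarith
    · obtain ⟨R, hR⟩ : ∃ R : ℕ, R + r = d * (2 * r + 1) :=
        ⟨d * (2 * r + 1) - r, by
          have : r ≤ d * (2 * r + 1) := by nlinarith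
          omega⟩
      have hRN : R ≤ N := by
        have h6 : (d : ℤ) * (2 * r + 1) ≤ (K - 1 - x.1) * (2 * r + 1) :=
          mul_le_mul_of_nonneg_right d2 (by positivity)
        have h7 : 0 ≤ x.1 * (2 * (r : ℤ) + 1) := by
          have : 0 ≤ x.1 := by omega
          positivity
        have h8 : ((R : ℤ)) + r = d * (2 * r + 1) := by exact_mod_cast hR
        have h9 : ((K : ℤ) - 1 - x.1) * (2 * r + 1) = (K - 1) * (2 * r + 1) - x.1 * (2 * r + 1) := by
          ring
        omega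
      have hRr : (r + 1) * d ≤ R := by
        have : (r + 1) * d + r ≤ d * (2 * r + 1) := by nlinarith
        omega
      have hRr1 : r + 1 ≤ R := by nlinarith
      have hsub := block_reveal_subset (N := N) (r := r) hN1 hd d1 d2 d3 d4 hR
      set v : Vert := (x.1 * (2 * r + 1) + r, x.2 * (2 * r + 1) + r) with hv
      have h10 : g x ≤ Pr q (ArmBox v (r + 1) R) * Pr q {ω | dual ω ∈ ArmBox v (r + 1) R} :=
        (Pr_mono hsub).trans (fkg_mixed (localOn_armBox v (r + 1) R)
          (localOn_armBox v (r + 1) R).dual' (incr_armBox v (r + 1) R)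
          (incr_armBox v (r + 1) R).dual_compl)
      rw [Pr_dual (localOn_armBox v (r + 1) R), Pr_armBox (p := q) v, Pr_armBox (p := σ q) v] at h10
      have hR0 : (0 : ℝ) < R := by exact_mod_cast (by omega : 0 < R)
      have hd0 : (0 : ℝ) < d := by exact_mod_cast hd
      have hd1 : (1 : ℝ) ≤ d := by exact_mod_cast hd
      have hfrac : ((r + 1 : ℕ) : ℝ) / R ≤ 1 / d := by
        rw [div_le_div_iff₀ hR0 hd0, one_mul]
        exact_mod_cast hRr
      have hx1 := hdec N (r + 1) R q hreg (by omega) hRr1 hRN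
      have hx2 := hdec N (r + 1) R (σ q) (reg_symm hreg) (by omega) hRr1 hRN
      have hy : C * (((r + 1 : ℕ) : ℝ) / R) ^ a ≤ C * (1 / (d : ℝ)) ^ a :=
        mul_le_mul_of_nonneg_left (Real.rpow_le_rpow (by positivity) hfrac ha.le) hC.le
      have h11 : g x ≤ (C * (1 / (d : ℝ)) ^ a) * (C * (1 / (d : ℝ)) ^ a) :=
        h10.trans (mul_le_mul (hx1.trans hy) (hx2.trans hy) Pr_nonneg (by positivity))
      refine h11.trans ?_
      have h12 : (C * (1 / (d : ℝ)) ^ a) * (C * (1 / (d : ℝ)) ^ a) = C ^ 2 * (1 / (d : ℝ)) ^ b := by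
        have : (1 / (d : ℝ)) ^ b = (1 / (d : ℝ)) ^ a * (1 / (d : ℝ)) ^ a := by
          rw [← Real.rpow_add (by positivity), hb]
          congr 1
          ring
        rw [this]; ring
      rw [h12]
      have h13 : (1 / (d : ℝ)) ^ b ≤ 2 * ((d : ℝ) + 1) ^ (-b) := by
        have h14 : (1 / (d : ℝ)) ≤ 2 / ((d : ℝ) + 1) := by
          rw [div_le_div_iff₀ hd0 (by positivity)]
          linarith
        have h15 : (1 / (d : ℝ)) ^ b ≤ (2 / ((d : ℝ) + 1)) ^ b :=
          Real.rpow_le_rpow (by positivity) h14 hb0.le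
        have h16 : (2 / ((d : ℝ) + 1)) ^ b = 2 ^ b * ((d : ℝ) + 1) ^ (-b) := by
          rw [Real.div_rpow (by norm_num) (by positivity), Real.rpow_neg (by positivity)]
          rfl
        have h17 : (2 : ℝ) ^ b ≤ 2 := by
          calc (2 : ℝ) ^ b ≤ 2 ^ (1 : ℝ) :=
                Real.rpow_le_rpow_of_exponent_le (by norm_num) (by linarith)
            _ = 2 := by norm_num
        rw [h16] at h15
        refine h15.trans (mul_le_mul_of_nonneg_right h17 (by positivity))
      have h18 : (0 : ℝ) ≤ ((d : ℝ) + 1) ^ (-b) := by positivity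
      calc C ^ 2 * (1 / (d : ℝ)) ^ b ≤ C ^ 2 * (2 * ((d : ℝ) + 1) ^ (-b)) :=
            mul_le_mul_of_nonneg_left h13 (by positivity)
        _ = (2 * C ^ 2) * ((d : ℝ) + 1) ^ (-b) := by ring
        _ ≤ C1 * ((d : ℝ) + 1) ^ (-b) := mul_le_mul_of_nonneg_right (by linarith) h18
  have hsum := sum_blocks_le hG0 hgG
  have hsumG : ∑ d ∈ Finset.range K, G d ≤ C1 * (2 * (K : ℝ) ^ (1 - b)) := by
    rw [hG, ← Finset.mul_sum]
    exact mul_le_mul_of_nonneg_left (sum_rpow_le hb0.le hb1 K) (by linarith)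
  have hK0 : (0 : ℝ) < K := by exact_mod_cast hK1
  have hKpow : (K : ℝ) * (K : ℝ) ^ (1 - b) = (K : ℝ) ^ (2 - b) := by
    rw [show (2 - b : ℝ) = 1 + (1 - b) by ring, Real.rpow_add hK0, Real.rpow_one]
  have hfin : Pr q (Wind N) * (1 - Pr q (Wind N)) ≤ 8 * C1 * (K : ℝ) ^ (2 - b) * P := by
    have h20 : Pr q (Wind N) * (1 - Pr q (Wind N)) ≤
        ∑ x ∈ Finset.Ico (0 : ℤ) K ×ˢ Finset.Ico (0 : ℤ) K, g x * P := by
      refine hosss.trans (Finset.sum_le_sum fun x _ => ?_)
      exact mul_le_mul_of_nonneg_left (Pr_tBlk_le hr h4 q x) Pr_nonneg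
    rw [← Finset.sum_mul] at h20
    refine h20.trans (mul_le_mul_of_nonneg_right ?_ hP0)
    refine hsum.trans ?_
    calc 4 * (K : ℝ) * ∑ d ∈ Finset.range K, G d ≤ 4 * K * (C1 * (2 * (K : ℝ) ^ (1 - b))) :=
          mul_le_mul_of_nonneg_left hsumG (by positivity)
      _ = 8 * C1 * ((K : ℝ) * (K : ℝ) ^ (1 - b)) := by ring
      _ = _ := by rw [hKpow]
  have hlow : c ^ 8 ≤ Pr q (Wind N) * (1 - Pr q (Wind N)) := by
    have h21 := wind_reg_lower hc hreg hN4
    have h22 := wind_reg_upper hc hreg hN4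
    calc c ^ 8 = c ^ 4 * c ^ 4 := by ring
      _ ≤ _ := mul_le_mul h21 h22 (by positivity) Pr_nonneg
  have hr0 : (0 : ℝ) < r := by exact_mod_cast hr
  have hNr : (0 : ℝ) < N := by exact_mod_cast hN1
  have hKN : (K : ℝ) ≤ (N : ℝ) / r := by
    rw [le_div_iff₀ hr0]
    have h23 : K * (2 * r + 1) ≤ N + 2 * r := Nat.div_mul_le_self _ _
    have h24 : K * r ≤ N := by
      by_contra hlt
      push Not at hlt
      have : K * (2 * r + 1) = 2 * (K * r) + K := by ring
      nlinarith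
    exact_mod_cast h24
  have hKN' : (K : ℝ) ^ (2 - b) ≤ ((N : ℝ) / r) ^ (2 - b) :=
    Real.rpow_le_rpow hK0.le hKN (by linarith)
  have hinv : ((r : ℝ) / N) ^ (2 - b) * ((N : ℝ) / r) ^ (2 - b) = 1 := by
    rw [← Real.mul_rpow (by positivity) (by positivity)]
    have : (r : ℝ) / N * (N / r) = 1 := by field_simp
    rw [this, Real.one_rpow]
  have hx0 : 0 ≤ ((r : ℝ) / N) ^ (2 - b) := by positivity
  have hall : c ^ 8 ≤ 8 * C1 * ((N : ℝ) / r) ^ (2 - b) * P :=
    hlow.trans (hfin.trans (by gcongr))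
  have hc8 : 0 < c ^ 8 := by positivity
  rw [div_mul_eq_mul_div, le_div_iff₀ hc8]
  calc ((r : ℝ) / N) ^ (2 - b) * c ^ 8
      ≤ ((r : ℝ) / N) ^ (2 - b) * (8 * C1 * ((N : ℝ) / r) ^ (2 - b) * P) :=
        mul_le_mul_of_nonneg_left hall hx0
    _ = 8 * C1 * P * (((r : ℝ) / N) ^ (2 - b) * ((N : ℝ) / r) ^ (2 - b)) := by ring
    _ = 8 * C1 * P := by rw [hinv, mul_one]

end Pool.Agent.H31.EX

end

section

/-!
# A pivotal block of the torus has two distinct crossing clusters around it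
-/

open MeasureTheory ProbabilityTheory unitInterval

namespace Pool.Agent.H61.NC

open Pool.Agent.H89.Perc

/-- The closed annulus `ball v R` minus the interior of `ball v t`. -/
def Ring (v : Vert) (t R : ℕ) : Set Vert := ball v R \ ball v (t - 1)

/-- Two distinct clusters of the annulus touch both its inner and its outer boundary. -/
def Two (v : Vert) (t R : ℕ) : Set Config :=
  {ω | ∃ u u' : Vert, u ∈ sphere v t ∧ u' ∈ sphere v t ∧
    (∃ w ∈ sphere v R, Conn ω (Ring v t R) u w) ∧ (∃ w ∈ sphere v R, Conn ω (Ring v t R) u' w) ∧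
    ¬ Conn ω (Ring v t R) u u'}

private lemma bt_shift {N : ℕ} (η : Config) (a b : ℤ) {u v : Vert}
    (h : Conn (per N η) Set.univ u v) :
    Conn (per N η) Set.univ (u.1 + a * N, u.2 + b * N) (v.1 + a * N, v.2 + b * N) := by
  have h1 := conn_shift (ω := per N η) (a * N, b * N) Set.univ u v
  have h2 : (fun e => per N η (shiftE (a * N, b * N) e)) = per N η := by
    funext e
    simp only [per, shiftE]
    rw [Int.add_mul_emod_self_right, Int.add_mul_emod_self_right]
  rw [h2] at h1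
  have h3 := h1.1 h
  refine h3.mono_set (Set.subset_univ _)

/-- A long path crosses the annulus. -/
private lemma bt_cross {η : Config} {m : Vert} {t R' : ℕ} (ht : 1 ≤ t) (htR : t ≤ R') {v v' : Vert}
    (hv : v ∈ ball m t) (hv' : v' ∉ ball m R') (h : Conn η Set.univ v v') :
    ∃ x ∈ sphere m t, (∃ w ∈ sphere m R', Conn η (Ring m t R') x w) ∧ Conn η Set.univ v x := by
  have htR'' : (t : ℤ) ≤ R' := by exact_mod_cast htR
  have ht1 : ((t - 1 : ℕ) : ℤ) = (t : ℤ) - 1 := by push_cast [Nat.cast_sub ht]; ring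
  have hsub : ball m t ⊆ ball m R' := by
    intro x hx
    rw [mem_ball] at hx ⊢
    omega
  obtain ⟨w, hw, h1⟩ := h.to_sphere (r := R') (hsub hv) (Or.inl hv')
  rcases htR.eq_or_lt with heq | hlt
  · subst heq
    refine ⟨w, hw, ⟨w, hw, Conn.refl ⟨hw.1, fun h3 => ?_⟩⟩, h1.mono_set (Set.subset_univ _)⟩
    have h4 := hw.2
    have h5 := hw.1
    rw [mem_ball] at h3 h5
    rw [ht1] at h3
    omega
  have htR' : (t : ℤ) < R' := by exact_mod_cast hlt
  have hwt : w ∉ ball m t := by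
    intro hh
    rw [mem_ball] at hh
    have h2 := hw
    simp only [sphere, ball, rect, Set.mem_ofPred_eq] at h2
    omega
  obtain ⟨x, x', h2, h3, h4, h5⟩ := h1.exists_last (T := ball m t) hv hwt
  have h6 := h5.mem_left
  have e1 := h4.fst_le
  have e2 := h4.snd_le
  have hx : x ∈ sphere m t := by
    refine ⟨h2, ?_⟩
    have h7 := h6.2
    rw [mem_ball] at h2 h7
    omega
  have hring : ∀ y ∈ sphere m t, y ∈ Ring m t R' := by
    intro y hy
    refine ⟨hsub hy.1, ?_⟩
    have h7 := hy.2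
    have h8 := hy.1
    rw [mem_ball] at h8 ⊢
    rw [ht1]
    omega
  have h8 : Conn η (Ring m t R') x' w := by
    refine h5.mono_set ?_
    rintro y ⟨⟨-, hy1⟩, hy2⟩
    refine ⟨hy1, fun hy3 => hy2 ?_⟩
    rw [mem_ball] at hy3 ⊢
    rw [ht1] at hy3
    omega
  have h9 : Step η (Ring m t R') x x' := ⟨hring x hx, h8.mem_left, h4.2.2⟩
  exact ⟨x, hx, ⟨w, hw, h9.conn.trans h8⟩, h3.mono_set (Set.subset_univ _)⟩

/-- All end points of edges of the block. -/
private def bt_B (N R : ℕ) (a b : ℤ) : Set Vert :=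
  {v | mid N - R + a * N ≤ v.1 ∧ v.1 ≤ mid N + R + 1 + a * N ∧
    mid N - R + b * N ≤ v.2 ∧ v.2 ≤ mid N + R + 1 + b * N}

private lemma bt_B_shift {N R : ℕ} {a b a' b' : ℤ} {v : Vert} (h : v ∈ bt_B N R a b) :
    ((v.1 + a' * N, v.2 + b' * N) : Vert) ∈ bt_B N R (a + a') (b + b') := by
  simp only [bt_B, Set.mem_ofPred_eq] at h ⊢
  have e1 : (a + a') * (N : ℤ) = a * N + a' * N := by ring
  have e2 : (b + b') * (N : ℤ) = b * N + b' * N := by ring
  rw [e1, e2]
  omega

/-- An edge of the filled configuration is an edge of the emptied one, or it is in a block. -/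
private lemma bt_step {N R : ℕ} {ω : Config} {v v' : Vert}
    (h : Step (per N (fill (blk N R) true ω)) Set.univ v v') :
    Step (per N (fill (blk N R) false ω)) Set.univ v v' ∨
      ∃ a b : ℤ, v ∈ bt_B N R a b ∧ v' ∈ bt_B N R a b := by
  obtain ⟨-, -, e, he, hω⟩ := h
  by_cases hb : (e.1 % N, e.2.1 % N, e.2.2) ∈ blk N R
  · right
    refine ⟨e.1 / N, e.2.1 / N, ?_⟩
    rw [blk, mem_eRect] at hb
    simp only [src, rect, Set.mem_ofPred_eq] at hb
    have e1 : e.1 = e.1 % N + e.1 / N * N := (Int.emod_add_ediv_mul e.1 N).symm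
    have e2 : e.2.1 = e.2.1 % N + e.2.1 / N * N := (Int.emod_add_ediv_mul e.2.1 N).symm
    have hs : src e ∈ bt_B N R (e.1 / N) (e.2.1 / N) := by
      simp only [bt_B, src, Set.mem_ofPred_eq]
      omega
    have ht : tgt e ∈ bt_B N R (e.1 / N) (e.2.1 / N) := by
      rcases hd : e.2.2 <;> simp only [bt_B, tgt, hd, Set.mem_ofPred_eq, if_true, Bool.false_eq_true,
        if_false] <;> omega
    rcases he with ⟨h1, h2⟩ | ⟨h1, h2⟩
    · rw [h1, h2]; exact ⟨hs, ht⟩
    · rw [h1, h2]; exact ⟨ht, hs⟩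
  · left
    refine ⟨Set.mem_univ _, Set.mem_univ _, e, he, ?_⟩
    simp only [per, fill, if_neg hb] at hω ⊢
    exact hω

/-- **A pivotal block has two distinct crossing clusters around it.** -/
theorem two_of_blockPiv {N R t R' : ℕ} (hRt : R + 1 ≤ t) (htR : t ≤ R') (hN : R + R' + 2 ≤ N)
    {ω : Config} (h : ω ∈ BlockPiv N R) : per N ω ∈ Two (mid N, mid N) t R' := by
  obtain ⟨⟨u, a, b, ha, hc⟩, hno⟩ := h
  have hNR : (R : ℤ) + R' + 2 ≤ N := by exact_mod_cast hN
  have hRt' : (R : ℤ) + 1 ≤ t := by exact_mod_cast hRt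
  have htR' : (t : ℤ) ≤ R' := by exact_mod_cast htR
  set η0 := per N (fill (blk N R) false ω) with hη0
  set η1 := per N (fill (blk N R) true ω) with hη1
  -- an excursion which winds
  have hexc : ∃ v ∈ bt_B N R 0 0, ∃ a b : ℤ, ∃ v' ∈ bt_B N R a b, a ≠ 0 ∧
      Conn η0 Set.univ v v' := by
    by_contra hnone
    push Not at hnone
    have hnone' : ∀ (a₁ b₁ a₂ b₂ : ℤ) (v v' : Vert), v ∈ bt_B N R a₁ b₁ → v' ∈ bt_B N R a₂ b₂ →
        Conn η0 Set.univ v v' → a₁ = a₂ := by
      intro a₁ b₁ a₂ b₂ v v' h1 h2 h3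
      have h4 := bt_B_shift (a' := -a₁) (b' := -b₁) h1
      have h5 := bt_B_shift (a' := -a₁) (b' := -b₁) h2
      have h6 := bt_shift (fill (blk N R) false ω) (-a₁) (-b₁) h3
      rw [add_neg_cancel, add_neg_cancel] at h4
      by_contra hne
      exact hnone _ h4 _ _ _ h5 (by intro h; apply hne; linarith) h6
    have key : Conn η0 Set.univ u (u.1 + a * N, u.2 + b * N) ∨ ∃ a₁ b₁ b₂ : ℤ,
        ∃ v₁ ∈ bt_B N R a₁ b₁, ∃ v₂ ∈ bt_B N R a₁ b₂, Conn η0 Set.univ u v₁ ∧
          Conn η0 Set.univ v₂ (u.1 + a * N, u.2 + b * N) := by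
      refine hc.induction_right (P := fun w => Conn η0 Set.univ u w ∨ ∃ a₁ b₁ b₂ : ℤ,
        ∃ v₁ ∈ bt_B N R a₁ b₁, ∃ v₂ ∈ bt_B N R a₁ b₂, Conn η0 Set.univ u v₁ ∧
          Conn η0 Set.univ v₂ w) (Or.inl (Conn.refl (Set.mem_univ _))) ?_
      intro w w' _ hs ih
      rcases bt_step hs with h1 | ⟨a₂, b₂, h1, h2⟩
      · rcases ih with ih | ⟨a₁, b₁, b₂, v₁, hv₁, v₂, hv₂, h2, h3⟩
        · exact Or.inl (ih.tail h1)
        · exact Or.inr ⟨a₁, b₁, b₂, v₁, hv₁, v₂, hv₂, h2, h3.tail h1⟩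
      · rcases ih with ih | ⟨a₁, b₁, b₂', v₁, hv₁, v₂, hv₂, h3, h4⟩
        · exact Or.inr ⟨a₂, b₂, b₂, w, h1, w', h2, ih, Conn.refl (Set.mem_univ _)⟩
        · have := hnone' _ _ _ _ _ _ hv₂ h1 h4
          subst this
          exact Or.inr ⟨a₁, b₁, b₂, v₁, hv₁, w', h2, h3, Conn.refl (Set.mem_univ _)⟩
    rcases key with h1 | ⟨a₁, b₁, b₂, v₁, hv₁, v₂, hv₂, h1, h2⟩
    · exact hno ⟨u, a, b, ha, h1⟩
    · have h3 := bt_shift (fill (blk N R) false ω) a b h1
      have h4 := hnone' _ _ _ _ _ _ hv₂ (bt_B_shift (a' := a) (b' := b) hv₁) (h2.trans h3)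
      exact ha (by linarith)
  obtain ⟨v, hv, a', b', v', hv', ha', hvv⟩ := hexc
  -- geometry
  have habs : (N : ℤ) ≤ |a'| * N := by
    have h1 : (1 : ℤ) ≤ |a'| := Int.one_le_abs ha'
    have h2 : (0 : ℤ) ≤ N := by positivity
    nlinarith
  have hball : ∀ w ∈ bt_B N R 0 0, w ∈ ball (mid N, mid N) t := by
    intro w hw
    simp only [bt_B, zero_mul, add_zero, Set.mem_ofPred_eq] at hw
    rw [mem_ball]
    simp only
    omega
  have hfar : ∀ (c : ℤ) (b'' : ℤ), |c| = |a'| → ∀ w ∈ bt_B N R c b'', w ∉ ball (mid N, mid N) R' := by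
    intro c b'' hcc w hw hw'
    simp only [bt_B, Set.mem_ofPred_eq] at hw
    rw [mem_ball] at hw'
    simp only at hw'
    have h1 : |c * (N : ℤ)| = |a'| * N := by
      rw [abs_mul, hcc, abs_of_nonneg (by positivity : (0 : ℤ) ≤ N)]
    rcases abs_cases (c * (N : ℤ)) with h2 | h2 <;> omega
  have hcongr : ∀ e : Edge, src e ∈ Ring (mid N, mid N) t R' →
      per N ω e = η0 e := by
    intro e he
    have ht1 : ((t - 1 : ℕ) : ℤ) = (t : ℤ) - 1 := by
      push_cast [Nat.cast_sub (show 1 ≤ t by omega)]; ring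
    have hb : (e.1 % N, e.2.1 % N, e.2.2) ∉ blk N R := by
      intro hb
      rw [blk, mem_eRect] at hb
      simp only [src, rect, Set.mem_ofPred_eq] at hb
      have e1 : e.1 = e.1 % N + e.1 / N * N := (Int.emod_add_ediv_mul e.1 N).symm
      have e2 : e.2.1 = e.2.1 % N + e.2.1 / N * N := (Int.emod_add_ediv_mul e.2.1 N).symm
      obtain ⟨h1, h2⟩ := he
      simp only [mem_ball, src, ht1] at h1 h2
      have hz : ∀ k : ℤ, |k * (N : ℤ)| < N → k = 0 := by
        intro k hk
        by_contra hk0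
        have h3 : (1 : ℤ) ≤ |k| := Int.one_le_abs hk0
        rw [abs_mul, abs_of_nonneg (by positivity : (0 : ℤ) ≤ N)] at hk
        nlinarith
      have k1 : e.1 / N = 0 := hz _ (abs_lt.2 ⟨by omega, by omega⟩)
      have k2 : e.2.1 / N = 0 := hz _ (abs_lt.2 ⟨by omega, by omega⟩)
      rw [k1, zero_mul] at e1
      rw [k2, zero_mul] at e2
      apply h2
      omega
    simp only [hη0, per, fill, if_neg hb]
  have hcon : ∀ x y : Vert, Conn (per N ω) (Ring (mid N, mid N) t R') x y →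
      Conn η0 Set.univ x y := fun x y hxy =>
    (hxy.congr fun e h1 _ => hcongr e h1).mono_set (Set.subset_univ _)
  have hcon' : ∀ x y : Vert, Conn η0 (Ring (mid N, mid N) t R') x y →
      Conn (per N ω) (Ring (mid N, mid N) t R') x y := fun x y hxy =>
    hxy.congr fun e h1 _ => (hcongr e h1).symm
  -- the second cluster is the first one translated
  have hv'' := bt_B_shift (a' := -a') (b' := -b') hv'
  rw [add_neg_cancel, add_neg_cancel] at hv''
  have hvm := bt_B_shift (a' := -a') (b' := -b') hv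
  have h2 := bt_shift (fill (blk N R) false ω) (-a') (-b') hvv
  obtain ⟨x, hx, ⟨w, hw, hxw⟩, hvx⟩ := bt_cross (by omega) htR (hball v hv)
    (hfar a' b' rfl v' hv') hvv
  obtain ⟨x', hx', ⟨w', hw', hxw'⟩, hvx'⟩ := bt_cross (by omega) htR (hball _ hv'')
    (hfar (0 + -a') (0 + -b') (by rw [zero_add, abs_neg]) _ hvm) h2.symm
  refine ⟨x, x', hx, hx', ⟨w, hw, hcon' _ _ hxw⟩, ⟨w', hw', hcon' _ _ hxw'⟩, fun hxx => ?_⟩
  have h3 := (hvx'.trans (hcon _ _ hxx).symm).trans hvx.symm
  have h4 := h3.trans hvv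
  refine hno ⟨(v'.1 + -a' * N, v'.2 + -b' * N), a', b', ha', ?_⟩
  simp only
  rw [show v'.1 + -a' * (N : ℤ) + a' * N = v'.1 by ring,
    show v'.2 + -b' * (N : ℤ) + b' * N = v'.2 by ring]
  exact h4

end Pool.Agent.H61.NC

end

section

/-!
# Small scales: finite energy
-/

open MeasureTheory ProbabilityTheory unitInterval

namespace Pool.Agent.H29.Sep

open Pool.Agent.H89.Perc Pool.Agent.H61.NC

/-- The probability that one edge is open. -/
theorem a4Low_open (q : I) (e : Edge) : Pr q {ω : Config | ω e = true} = q := by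
  have hloc : LocalOn {e} {ω : Config | ω e = true} := by
    intro ω ω' h hω
    rw [Set.mem_ofPred_eq, ← h e (Finset.mem_singleton_self e)]
    exact hω
  rw [Pr_eq_update hloc e]
  have h1 : {ω : Config | Function.update ω e true ∈ {ω : Config | ω e = true}} = Set.univ := by
    ext ω; simp
  have h2 : {ω : Config | Function.update ω e false ∈ {ω : Config | ω e = true}} = ∅ := by
    ext ω; simp
  rw [h1, h2, Pr_univ]
  simp [Pr]

private theorem a4Low_hcross (q : I) {c : ℝ} (h : c ≤ Pr q {ω | HCross ω 0 (4 * ((1 : ℕ) : ℤ)) 0 ((1 : ℕ) : ℤ)}) :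
    c / 16 ≤ (q : ℝ) := by
  have hsub : {ω : Config | HCross ω 0 (4 * ((1 : ℕ) : ℤ)) 0 ((1 : ℕ) : ℤ)} ⊆
      {ω | ω (0, 0, false) = true} ∪ {ω | ω (0, 1, false) = true} := by
    rintro ω ⟨u, v, hu, hv, hc⟩
    by_contra hno
    simp only [Set.mem_union, Set.mem_ofPred_eq, not_or] at hno
    have hP : v.1 ≤ 0 := by
      refine hc.induction_right (P := fun w => w.1 ≤ 0) (by omega) ?_
      intro a b _ hab ha
      obtain ⟨ha', hb', f, hf, ho⟩ := hab
      obtain ⟨x, y, d⟩ := f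
      simp only [rect, Set.mem_ofPred_eq] at ha' hb'
      rcases d
      · rcases hf with ⟨h3, h4⟩ | ⟨h3, h4⟩
        · subst h3 h4
          simp only [src, tgt, Bool.false_eq_true, if_false] at ha ha' hb' ⊢
          have hx : x = 0 := by omega
          subst hx
          have hy : y = 0 ∨ y = 1 := by omega
          rcases hy with hy | hy
          · subst hy; exact absurd ho hno.1
          · subst hy; exact absurd ho hno.2
        · subst h3 h4
          simp only [src, tgt, Bool.false_eq_true, if_false] at ha ha' hb' ⊢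
          omega
      · rcases hf with ⟨h3, h4⟩ | ⟨h3, h4⟩ <;>
        · subst h3 h4
          simpa [src, tgt] using ha
    rw [hv] at hP
    norm_num at hP
  have h1 := (h.trans (Pr_mono hsub)).trans Pr_union_le
  rw [a4Low_open, a4Low_open] at h1
  have h2 : (0 : ℝ) ≤ q := q.2.1
  linarith

/-- In the regime the density is bounded away from `0` and `1`. -/
theorem rswreg_density {c : ℝ} {n : ℕ} {q : I} (hn : 1 ≤ n) (h : RSWreg c n q) :
    c / 16 ≤ (q : ℝ) ∧ (q : ℝ) ≤ 1 - c / 16 := by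
  obtain ⟨h1, h2⟩ := h 1 le_rfl hn
  have h3 := a4Low_hcross q h1
  have h4 := a4Low_hcross (σ q) h2
  rw [unitInterval.coe_symm_eq] at h4
  exact ⟨h3, by linarith⟩

theorem a4_le_one (q : I) (r : ℕ) : a4 q r ≤ 1 := Pr_le_one

theorem a4_anti {q : I} {r r' : ℕ} (h1 : 1 ≤ r) (h : r ≤ r') : a4 q r' ≤ a4 q r :=
  Pr_mono (A4_anti h1 h)

/-- Finite energy: every configuration on a finite set has probability bounded below. -/
theorem a4Low_cyl (q : I) {t : ℝ} (ht : 0 ≤ t) (h1 : t ≤ (q : ℝ)) (h2 : (q : ℝ) ≤ 1 - t)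
    (b : Config) (s : Finset Edge) :
    t ^ s.card ≤ Pr q {ω | ∀ e ∈ s, ω e = b e} := by
  classical
  induction s using Finset.induction_on with
  | empty =>
    have : {ω : Config | ∀ e ∈ (∅ : Finset Edge), ω e = b e} = Set.univ := by
      ext ω; simp
    rw [this, Pr_univ]
    simp
  | @insert a s ha ih =>
    have hloc : LocalOn (insert a s) {ω : Config | ∀ e ∈ insert a s, ω e = b e} := by
      intro ω ω' h hω e he
      rw [← h e he]
      exact hω e he
    have hne : ∀ e ∈ s, e ≠ a := fun e he hea => ha (hea ▸ he)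
    have hup : ∀ c : Bool, c = b a →
        {ω : Config | Function.update ω a c ∈ {ω : Config | ∀ e ∈ insert a s, ω e = b e}} =
          {ω | ∀ e ∈ s, ω e = b e} := by
      intro c hc
      ext ω
      simp only [Set.mem_ofPred_eq, Finset.mem_insert, forall_eq_or_imp, Function.update_self]
      constructor
      · rintro ⟨-, h⟩ e he
        have := h e he
        rwa [Function.update_of_ne (hne e he)] at this
      · intro h
        refine ⟨hc, fun e he => ?_⟩
        rw [Function.update_of_ne (hne e he)]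
        exact h e he
    rw [Pr_eq_update hloc a, Finset.card_insert_of_notMem ha, pow_succ]
    have hn : ∀ A : Set Config, 0 ≤ Pr q A := fun A => Pr_nonneg
    have hp : (0 : ℝ) ≤ t ^ s.card := by positivity
    have hq0 : (0 : ℝ) ≤ q := ht.trans h1
    have hq1 : (0 : ℝ) ≤ 1 - (q : ℝ) := by linarith
    cases hb : b a
    · rw [hup false hb.symm]
      have h3 := hn {ω | Function.update ω a true ∈ {ω : Config | ∀ e ∈ insert a s, ω e = b e}}
      have h4 : 0 ≤ (q : ℝ) * Pr q {ω | Function.update ω a true ∈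
          {ω : Config | ∀ e ∈ insert a s, ω e = b e}} := mul_nonneg hq0 h3
      have h5 : t * t ^ s.card ≤ (1 - (q : ℝ)) *
          Pr q {ω | ∀ e ∈ s, ω e = b e} :=
        mul_le_mul (by linarith) ih hp hq1
      linarith
    · rw [hup true hb.symm]
      have h3 := hn {ω | Function.update ω a false ∈ {ω : Config | ∀ e ∈ insert a s, ω e = b e}}
      have h4 : 0 ≤ (1 - (q : ℝ)) * Pr q {ω | Function.update ω a false ∈
          {ω : Config | ∀ e ∈ insert a s, ω e = b e}} := mul_nonneg hq1 h3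
      have h5 : t * t ^ s.card ≤ (q : ℝ) *
          Pr q {ω | ∀ e ∈ s, ω e = b e} :=
        mul_le_mul (by linarith) ih hp hq0
      linarith

/-- The explicit configuration: exactly the horizontal edges of the axis are open. -/
theorem a4Low_sub (r : ℕ) (hr : 1 ≤ r) :
    {ω : Config | ∀ e ∈ eRect (-r) r (-r) r, ω e = decide (e.2.1 = 0 ∧ e.2.2 = false)} ⊆
      A4 (0, 0, false) r := by
  intro ω hω
  have hball : ∀ w : Vert, w ∈ ball (src ((0 : ℤ), (0 : ℤ), false)) r ↔ w ∈ rect (-r) r (-r) r := by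
    intro w
    simp only [mem_ball, src, rect, Set.mem_ofPred_eq]
    omega
  have hcl : ∀ f : Edge, f ≠ (0, 0, false) → close (0, 0, false) ω f = ω f := by
    intro f hf
    unfold close
    rw [Function.update_of_ne hf]
  have hcl0 : close (0, 0, false) ω (0, 0, false) = false := by
    unfold close
    rw [Function.update_self]
  have hopen : ∀ x : ℤ, -r ≤ x → x ≤ r → x ≠ 0 → close (0, 0, false) ω (x, 0, false) = true := by
    intro x h1 h2 h3
    rw [hcl _ (by simpa using h3), hω (x, 0, false) (mem_eRect.2 (by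
      simp only [src, rect, Set.mem_ofPred_eq]; omega))]
    simp
  -- the left arm
  have hleft : ∀ k : ℕ, k ≤ r → Conn (close (0, 0, false) ω) (ball (src ((0 : ℤ), (0 : ℤ), false)) r)
      (0, 0) (-(k : ℤ), 0) := by
    intro k
    induction k with
    | zero =>
      intro _
      simpa using Conn.refl ((hball (0, 0)).2 (by simp only [rect, Set.mem_ofPred_eq]; omega))
    | succ k ih =>
      intro hk
      have h1 := ih (by omega)
      refine h1.tail ⟨h1.mem_right, (hball _).2 (by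
        simp only [rect, Set.mem_ofPred_eq]; push_cast; omega), (-(k : ℤ) - 1, 0, false), ?_, ?_⟩
      · right
        constructor
        · simp [tgt]
        · simp only [src, Prod.mk.injEq, and_true]; push_cast; ring
      · exact hopen _ (by omega) (by omega) (by omega)
  have hright : ∀ k : ℕ, k + 1 ≤ r → Conn (close (0, 0, false) ω)
      (ball (src ((0 : ℤ), (0 : ℤ), false)) r) (1, 0) ((k : ℤ) + 1, 0) := by
    intro k
    induction k with
    | zero =>
      intro _
      simpa using Conn.refl ((hball (1, 0)).2 (by simp only [rect, Set.mem_ofPred_eq]; omega))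
    | succ k ih =>
      intro hk
      have h1 := ih (by omega)
      refine h1.tail ⟨h1.mem_right, (hball _).2 (by
        simp only [rect, Set.mem_ofPred_eq]; push_cast; omega), ((k : ℤ) + 1, 0, false), ?_, ?_⟩
      · left
        constructor
        · simp [src]
        · simp [tgt]
      · exact hopen _ (by omega) (by omega) (by omega)
  refine ⟨⟨(-(r : ℤ), 0), ?_, ?_⟩, ⟨((r : ℤ), 0), ?_, ?_⟩, ?_⟩
  · refine ⟨(hball _).2 ?_, Or.inl (by simp [src])⟩
    simp only [rect, Set.mem_ofPred_eq]; omega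
  · exact hleft r le_rfl
  · refine ⟨(hball _).2 ?_, Or.inr (Or.inl (by simp [src]))⟩
    simp only [rect, Set.mem_ofPred_eq]; omega
  · have h1 := hright (r - 1) (by omega)
    have h2 : (((r - 1 : ℕ) : ℤ) + 1) = r := by omega
    rw [h2] at h1
    have h3 : tgt ((0 : ℤ), (0 : ℤ), false) = (1, 0) := by simp [tgt]
    rw [h3]
    exact h1
  · intro hc
    have hP : (tgt ((0 : ℤ), (0 : ℤ), false)).1 ≤ 0 ∧ (tgt ((0 : ℤ), (0 : ℤ), false)).2 = 0 := by
      refine hc.induction_right (P := fun w => w.1 ≤ 0 ∧ w.2 = 0) (by simp [src]) ?_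
      intro a b _ hab hPa
      obtain ⟨ha, hb, f, hf, ho⟩ := hab
      have hfe : f ≠ (0, 0, false) := by
        intro h
        rw [h, hcl0] at ho
        exact absurd ho (by decide)
      rw [hcl _ hfe] at ho
      have hsrc : src f ∈ ball (src ((0 : ℤ), (0 : ℤ), false)) r := by
        rcases hf with ⟨h3, _⟩ | ⟨_, h3⟩
        · rw [← h3]; exact ha
        · rw [← h3]; exact hb
      rw [hω f (mem_eRect.2 ((hball _).1 hsrc))] at ho
      obtain ⟨x, y, d⟩ := f
      simp only [decide_eq_true_eq] at ho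
      obtain ⟨hy, hd⟩ := ho
      subst hy hd
      have hx : x ≠ 0 := by
        intro h
        exact hfe (by rw [h])
      rcases hf with ⟨h3, h4⟩ | ⟨h3, h4⟩
      · subst h3 h4
        simp only [src, tgt, Bool.false_eq_true, if_false] at hPa ⊢
        exact ⟨by omega, trivial⟩
      · subst h3 h4
        simp only [src, tgt, Bool.false_eq_true, if_false] at hPa ⊢
        exact ⟨by omega, trivial⟩
    simp [tgt] at hP

/-- The four-arm probability at bounded scales is bounded below.  (For `r = 0` the event `A4` is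
empty, hence the hypothesis `1 ≤ r`.) -/
theorem a4_low (c : ℝ) (hc : 0 < c) (r : ℕ) (hr : 1 ≤ r) : ∃ c₀ : ℝ, 0 < c₀ ∧ ∀ (n : ℕ) (q : I), 1 ≤ n →
    RSWreg c n q → c₀ ≤ a4 q r := by
  refine ⟨(c / 16) ^ (eRect (-r) r (-r) r).card, by positivity, ?_⟩
  intro n q hn h
  obtain ⟨h1, h2⟩ := rswreg_density hn h
  exact (a4Low_cyl q (by positivity) h1 h2 _ _).trans (Pr_mono (a4Low_sub r hr))

end Pool.Agent.H29.Sep

end

section

/-!
# Outer decomposition of the annulus event into two-terminal events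
-/

open MeasureTheory ProbabilityTheory unitInterval

namespace Pool.Agent.H29.Sep

open Pool.Agent.H89.Perc Pool.Agent.H61.NC

private theorem OuterSplit_ball {v : Vert} {r : ℕ} : v ∈ ball (0 : Vert) r ↔
    -(r : ℤ) ≤ v.1 ∧ v.1 ≤ r ∧ -(r : ℤ) ≤ v.2 ∧ v.2 ≤ r := by
  rw [mem_ball]
  simp

private theorem OuterSplit_sphere {v : Vert} {r : ℕ} : v ∈ sphere (0 : Vert) r ↔
    (-(r : ℤ) ≤ v.1 ∧ v.1 ≤ r ∧ -(r : ℤ) ≤ v.2 ∧ v.2 ≤ r) ∧
      (v.1 = -(r : ℤ) ∨ v.1 = r ∨ v.2 = -(r : ℤ) ∨ v.2 = r) := by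
  rw [← OuterSplit_ball]
  show v ∈ ball 0 r ∧ _ ↔ _
  simp

theorem localOn_A2 {t R : ℕ} :
    LocalOn (eRect (-(R : ℤ)) R (-(R : ℤ)) R) (A2 t R) := by
  have key : ∀ ω ω' : Config, (∀ e ∈ eRect (-(R : ℤ)) R (-(R : ℤ)) R, ω e = ω' e) →
      ∀ u v : Vert, Conn ω (dom t R) u v → Conn ω' (dom t R) u v := by
    intro ω ω' h u v hc
    refine Conn.congr (fun e he _ => h e (mem_eRect.2 ?_)) hc
    exact OuterSplit_ball.1 he.1
  rintro ω ω' h ⟨u, hu, u', hu', v, hv, v', hv', h1, h2, h3⟩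
  exact ⟨u, hu, u', hu', v, hv, v', hv', key ω ω' h _ _ h1, key ω ω' h _ _ h2,
    fun h4 => h3 (key ω' ω (fun e he => (h e he).symm) _ _ h4)⟩

private theorem OuterSplit_restrict {ω : Config} {t t' R R' : ℕ} (h1 : 1 ≤ t) (h2 : t ≤ t')
    (h3 : t' ≤ R') (h4 : R' ≤ R) {u v : Vert} (hu : u ∈ sphere 0 R) (hv : v ∈ sphere 0 t)
    (h : Conn ω (dom t R) u v) :
    ∃ x ∈ sphere 0 R', ∃ y ∈ sphere 0 t', Conn ω (dom t' R') x y ∧ Conn ω (dom t R) u x := by
  have hvb : v ∈ ball 0 R' := by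
    rw [OuterSplit_sphere] at hv
    rw [OuterSplit_ball]
    omega
  have hub : u ∉ ball 0 R' ∨ u ∈ sphere 0 R' := by
    by_cases h5 : u ∈ ball 0 R'
    · right
      rw [OuterSplit_sphere] at hu ⊢
      rw [OuterSplit_ball] at h5
      omega
    · exact Or.inl h5
  obtain ⟨x, hx, hcx⟩ := h.symm.to_sphere (v := 0) (r := R') hvb hub
  have hux : Conn ω (dom t R) u x := h.trans (hcx.mono_set Set.inter_subset_left)
  by_cases htt : t' = t
  · subst htt
    refine ⟨x, hx, v, hv, ?_, hux⟩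
    refine hcx.symm.mono_set ?_
    rintro w ⟨hw1, hw2⟩
    exact ⟨hw2, hw1.2⟩
  · have hvT : v ∈ ball 0 (t' - 1) := by
      rw [OuterSplit_sphere] at hv
      rw [OuterSplit_ball]
      omega
    have hxT : x ∉ ball 0 (t' - 1) := by
      intro h5
      rw [OuterSplit_sphere] at hx
      rw [OuterSplit_ball] at h5
      omega
    obtain ⟨w, w', h5, h6, h7, -⟩ := hcx.symm.exists_hit hxT hvT
    refine ⟨x, hx, w, ?_, ?_, hux⟩
    · have h8 := h5.mem_right
      have h9 := h8.2
      have h10 := h6.fst_le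
      have h11 := h6.snd_le
      rw [OuterSplit_ball] at h7 h9
      rw [OuterSplit_sphere]
      omega
    · refine h5.mono_set ?_
      rintro z ⟨hz1, hz2⟩
      exact ⟨hz1.2, hz2⟩

/-- Two distinct crossing clusters of an annulus restrict to a smaller annulus. -/
theorem A2_mono {t t' R R' : ℕ} (h1 : 1 ≤ t) (h2 : t ≤ t') (h3 : t' ≤ R') (h4 : R' ≤ R) :
    A2 t R ⊆ A2 t' R' := by
  rintro ω ⟨u, hu, u', hu', v, hv, v', hv', h5, h6, h7⟩
  obtain ⟨x, hx, y, hy, hxy, hux⟩ := OuterSplit_restrict h1 h2 h3 h4 hu hv h5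
  obtain ⟨x', hx', y', hy', hxy', hux'⟩ := OuterSplit_restrict h1 h2 h3 h4 hu' hv' h6
  refine ⟨x, hx, x', hx', y, hy, y', hy', hxy, hxy', fun h8 => h7 ?_⟩
  have hsub : dom t' R' ⊆ dom t R := by
    rintro w ⟨hw1, hw2⟩
    refine ⟨?_, fun h9 => hw2 ?_⟩
    · rw [OuterSplit_ball] at hw1 ⊢
      omega
    · rw [OuterSplit_ball] at h9 ⊢
      omega
  exact (hux.trans (h8.mono_set hsub)).trans hux'.symm

theorem BT_subset_A2 {t R : ℕ} {L K : Set Vert} (hL : L ⊆ sphere 0 R) (hK : K ⊆ sphere 0 R) :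
    BT t R L K ⊆ A2 t R := by
  rintro ω ⟨⟨u, hu, v, hv, h1, h2⟩, w, hw, v', hv', h3⟩
  exact ⟨u, hL hu, w, hK hw, v, hv, v', hv', h1, h3, h2 w hw⟩

/-- points of the sphere in distance at most `s` of every point of the sphere -/
private theorem OuterSplit_net (M R s : ℕ) (hs : 1 ≤ s) (hRs : 2 * R ≤ s * (4 * M)) :
    ∃ Z : Finset Vert, Z.card ≤ 4 * (4 * M + 1) ∧ (∀ z ∈ Z, z ∈ sphere 0 R) ∧
      ∀ u ∈ sphere 0 R, ∃ z ∈ Z, u ∈ ball z s := by
  classical
  obtain ⟨y, hy⟩ : ∃ y : ℕ → ℤ, ∀ i, y i = min (-(R : ℤ) + i * s) R := ⟨_, fun _ => rfl⟩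
  have hyb : ∀ i, -(R : ℤ) ≤ y i ∧ y i ≤ R := by
    intro i
    rw [hy]
    refine ⟨le_min ?_ (by omega), min_le_right _ _⟩
    have : (0 : ℤ) ≤ (i : ℤ) * s := by positivity
    omega
  have hnear : ∀ x : ℤ, -(R : ℤ) ≤ x → x ≤ R → ∃ i ∈ Finset.range (4 * M + 1),
      y i ≤ x ∧ x ≤ y i + s := by
    intro x hx1 hx2
    obtain ⟨m, hm⟩ : ∃ m : ℕ, (m : ℤ) = x + R := ⟨(x + R).toNat, by omega⟩
    refine ⟨m / s, ?_, ?_⟩
    · rw [Finset.mem_range, Nat.lt_succ_iff]
      apply Nat.div_le_of_le_mul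
      omega
    · have h1 := Nat.div_add_mod m s
      have h2 := Nat.mod_lt m (show 0 < s by omega)
      have h3 : ((m / s : ℕ) : ℤ) * s + ((m % s : ℕ) : ℤ) = m := by
        rw [mul_comm]
        exact_mod_cast h1
      have h4 : ((m % s : ℕ) : ℤ) < s := by exact_mod_cast h2
      have h5 : (0 : ℤ) ≤ ((m % s : ℕ) : ℤ) := by positivity
      have h6 : y (m / s) = -(R : ℤ) + ((m / s : ℕ) : ℤ) * s := by
        rw [hy]
        apply min_eq_left
        linarith
      rw [h6]
      constructor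
      · linarith
      · linarith
  refine ⟨(((Finset.range (4 * M + 1)).image (fun i => ((R : ℤ), y i)) ∪
    (Finset.range (4 * M + 1)).image (fun i => (-(R : ℤ), y i))) ∪
    (Finset.range (4 * M + 1)).image (fun i => (y i, (R : ℤ)))) ∪
    (Finset.range (4 * M + 1)).image (fun i => (y i, -(R : ℤ))), ?_, ?_, ?_⟩
  · have hc : ∀ f : ℕ → Vert, ((Finset.range (4 * M + 1)).image f).card ≤ 4 * M + 1 := fun f =>
      (Finset.card_image_le).trans (by rw [Finset.card_range])
    refine (Finset.card_union_le _ _).trans ?_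
    have h1 := hc (fun i => (y i, -(R : ℤ)))
    have h2 := hc (fun i => (y i, (R : ℤ)))
    have h3 := hc (fun i => (-(R : ℤ), y i))
    have h4 := hc (fun i => ((R : ℤ), y i))
    have h5 := Finset.card_union_le ((Finset.range (4 * M + 1)).image (fun i => ((R : ℤ), y i)) ∪
      (Finset.range (4 * M + 1)).image (fun i => (-(R : ℤ), y i)))
      ((Finset.range (4 * M + 1)).image (fun i => (y i, (R : ℤ))))
    have h6 := Finset.card_union_le ((Finset.range (4 * M + 1)).image (fun i => ((R : ℤ), y i)))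
      ((Finset.range (4 * M + 1)).image (fun i => (-(R : ℤ), y i)))
    omega
  · intro z hz
    simp only [Finset.mem_union, Finset.mem_image] at hz
    rw [OuterSplit_sphere]
    have hR0 : (0 : ℤ) ≤ R := by positivity
    rcases hz with ((⟨i, -, rfl⟩ | ⟨i, -, rfl⟩) | ⟨i, -, rfl⟩) | ⟨i, -, rfl⟩
    · obtain ⟨h1, h2⟩ := hyb i
      exact ⟨⟨by simp only; omega, by simp only; omega, h1, h2⟩, Or.inr (Or.inl rfl)⟩
    · obtain ⟨h1, h2⟩ := hyb i
      exact ⟨⟨by simp only; omega, by simp only; omega, h1, h2⟩, Or.inl rfl⟩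
    · obtain ⟨h1, h2⟩ := hyb i
      exact ⟨⟨h1, h2, by simp only; omega, by simp only; omega⟩, Or.inr (Or.inr (Or.inr rfl))⟩
    · obtain ⟨h1, h2⟩ := hyb i
      exact ⟨⟨h1, h2, by simp only; omega, by simp only; omega⟩, Or.inr (Or.inr (Or.inl rfl))⟩
  · intro u hu
    rw [OuterSplit_sphere] at hu
    obtain ⟨⟨h1, h2, h3, h4⟩, h5⟩ := hu
    obtain ⟨i, hi, hi1, hi2⟩ := hnear u.1 h1 h2
    obtain ⟨j, hj, hj1, hj2⟩ := hnear u.2 h3 h4
    simp only [Finset.mem_union, Finset.mem_image]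
    rcases h5 with h5 | h5 | h5 | h5
    · refine ⟨(-(R : ℤ), y j), Or.inl (Or.inl (Or.inr ⟨j, hj, rfl⟩)), ?_⟩
      rw [mem_ball]
      simp only
      omega
    · refine ⟨((R : ℤ), y j), Or.inl (Or.inl (Or.inl ⟨j, hj, rfl⟩)), ?_⟩
      rw [mem_ball]
      simp only
      omega
    · refine ⟨(y i, -(R : ℤ)), Or.inr ⟨i, hi, rfl⟩, ?_⟩
      rw [mem_ball]
      simp only
      omega
    · refine ⟨(y i, (R : ℤ)), Or.inl (Or.inr ⟨i, hi, rfl⟩), ?_⟩
      rw [mem_ball]
      simp only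
      omega

/-- the local event in a box of the decomposition -/
private theorem OuterSplit_bad {ω : Config} {t R s : ℕ} (h1 : 1 ≤ t) (h2 : 4 * t ≤ R)
    (hs : s ≤ R / 2) {z u u' v v' v0 : Vert} (hz : z ∈ sphere 0 R)
    (hv : v ∈ sphere 0 t) (hv' : v' ∈ sphere 0 t) (huv : Conn ω (dom t R) u v)
    (huv' : Conn ω (dom t R) u' v') (huu : ¬ Conn ω (dom t R) u u') (hu' : u' ∈ ball z s)
    (hv0 : v0 ∈ ball z s) (huv0 : Conn ω (dom t R) u v0) :
    ω ∈ LocTwo (ball 0 R) z s (R / 2) := by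
  have hR : ((R / 2 : ℕ) : ℤ) * 2 ≤ R := by
    have := Nat.div_mul_le_self R 2
    exact_mod_cast this
  have hsR : (s : ℤ) ≤ ((R / 2 : ℕ) : ℤ) := by exact_mod_cast hs
  have h2' : 4 * (t : ℤ) ≤ R := by exact_mod_cast h2
  have h1' : 1 ≤ (t : ℤ) := by exact_mod_cast h1
  rw [OuterSplit_sphere] at hz
  have hout : ∀ w ∈ sphere (0 : Vert) t, w ∉ ball z (R / 2) := by
    intro w hw hw2
    rw [OuterSplit_sphere] at hw
    rw [mem_ball] at hw2
    omega
  have hin : ∀ w, w ∈ ball z s → w ∈ ball z (R / 2) := by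
    intro w hw
    rw [mem_ball] at hw ⊢
    omega
  obtain ⟨x, hx, hcx⟩ := (huv0.symm.trans huv).to_sphere (v := z) (r := R / 2) (hin _ hv0)
    (Or.inl (hout v hv))
  obtain ⟨x', hx', hcx'⟩ := huv'.to_sphere (v := z) (r := R / 2) (hin _ hu') (Or.inl (hout v' hv'))
  have hsub : dom t R ∩ ball z (R / 2) ⊆ ball 0 R ∩ ball z (R / 2) :=
    fun w hw => ⟨hw.1.1, hw.2⟩
  refine ⟨v0, hv0, u', hu', x, hx, x', hx', hcx.mono_set hsub, hcx'.mono_set hsub, ?_⟩
  intro h3
  apply huu
  refine huv0.trans (h3.mono_set ?_)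
  rintro w ⟨hw1, hw2⟩
  refine ⟨hw1, fun hw3 => ?_⟩
  rw [OuterSplit_ball] at hw3
  rw [mem_ball] at hw2
  omega

/-- Outer decomposition. -/
theorem outer_split (hB : BadIn) : ∀ c ε : ℝ, 0 < c → 0 < ε → ∃ J R₀ : ℕ,
    ∀ (n t R : ℕ) (q : I), 1 ≤ t → 4 * t ≤ R → R₀ ≤ R → R ≤ n → RSWreg c n q →
      ∃ F : Finset (Set Vert), F.card ≤ J ∧ (∀ β ∈ F, β ⊆ sphere 0 R) ∧
        Pr q (A2 t R) ≤ ∑ β ∈ F, ∑ γ ∈ F, Pr q (BT t R β γ) + ε * Pr q (A2 t (R / 4)) := by
  classical
  intro c ε hc hε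
  obtain ⟨C, κ, hC, hκ, hbad⟩ := hB c hc
  -- the choice of the number of boxes
  obtain ⟨δ, hδ⟩ : ∃ δ : ℝ, δ = ε / (3 * C) := ⟨_, rfl⟩
  have hδ0 : 0 < δ := by rw [hδ]; positivity
  obtain ⟨M, hM⟩ := exists_nat_ge (max 2 (3 / δ ^ (1 / κ)))
  have hM2 : (2 : ℝ) ≤ M := (le_max_left _ _).trans hM
  have hM2' : 2 ≤ M := by exact_mod_cast hM2
  have hMpos : (0 : ℝ) < M := by linarith
  have hM3 : (3 / (M : ℝ)) ^ κ ≤ δ := by
    have h1 : 3 / δ ^ (1 / κ) ≤ M := (le_max_right _ _).trans hM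
    have h2 : 0 < δ ^ (1 / κ) := Real.rpow_pos_of_pos hδ0 _
    have h3 : 3 / (M : ℝ) ≤ δ ^ (1 / κ) := by
      rw [div_le_iff₀ hMpos]
      rw [div_le_iff₀ h2] at h1
      linarith
    calc (3 / (M : ℝ)) ^ κ ≤ (δ ^ (1 / κ)) ^ κ :=
          Real.rpow_le_rpow (by positivity) h3 hκ.le
      _ = δ := by
          rw [← Real.rpow_mul hδ0.le, one_div, inv_mul_cancel₀ hκ.ne', Real.rpow_one]
  refine ⟨4 * (4 * M + 1), M, ?_⟩
  intro n t R q h1t h4t hMR hRn hreg
  obtain ⟨s, hs⟩ : ∃ s : ℕ, s = R / M := ⟨_, rfl⟩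
  have hs1 : 1 ≤ s := by
    rw [hs]
    exact (Nat.one_le_div_iff (by omega)).2 hMR
  have hsM : s * M ≤ R := by rw [hs]; exact Nat.div_mul_le_self R M
  have hsM2 : R < (s + 1) * M := by
    rw [hs]
    have := Nat.lt_div_mul_add (a := R) (b := M) (by omega)
    rw [add_mul, one_mul]
    omega
  have hs2 : s ≤ R / 2 := by
    rw [hs]
    exact Nat.div_le_div_left hM2' (by norm_num)
  obtain ⟨Z, hZc, hZs, hZn⟩ := OuterSplit_net M R s hs1 (by nlinarith)
  refine ⟨Z.image (fun z => sphere 0 R ∩ ball z s), (Finset.card_image_le).trans hZc, ?_, ?_⟩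
  · intro β hβ
    obtain ⟨z, -, rfl⟩ := Finset.mem_image.1 hβ
    exact Set.inter_subset_left
  obtain ⟨F, hF⟩ : ∃ F : Finset (Set Vert), F = Z.image (fun z => sphere 0 R ∩ ball z s) :=
    ⟨_, rfl⟩
  rw [← hF]
  obtain ⟨Bd, hBd⟩ : ∃ Bd : Set Config,
      Bd = {ω | ∃ z ∈ sphere 0 R, ω ∈ LocTwo (ball 0 R) z s (R / 2)} := ⟨_, rfl⟩
  have hcover : A2 t R ⊆ (⋃ β ∈ F, ⋃ γ ∈ F, BT t R β γ) ∪ (Bd ∩ A2 t (R / 4)) := by
    intro ω hω
    have hω' := hω
    obtain ⟨u, hu, u', hu', v, hv, v', hv', h5, h6, h7⟩ := hω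
    obtain ⟨z0, hz0, hz0u⟩ := hZn u hu
    obtain ⟨z, hz, hzu⟩ := hZn u' hu'
    by_cases h8 : ∀ w ∈ sphere 0 R ∩ ball z s, ¬ Conn ω (dom t R) u w
    · left
      simp only [Set.mem_iUnion]
      refine ⟨sphere 0 R ∩ ball z0 s, ?_, sphere 0 R ∩ ball z s, ?_, ?_⟩
      · rw [hF]
        exact Finset.mem_image_of_mem _ hz0
      · rw [hF]
        exact Finset.mem_image_of_mem _ hz
      · exact ⟨⟨u, ⟨hu, hz0u⟩, v, hv, h5, h8⟩, u', ⟨hu', hzu⟩, v', hv', h6⟩
    · right
      push Not at h8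
      obtain ⟨v0, ⟨-, hv0⟩, h9⟩ := h8
      refine ⟨?_, ?_⟩
      · rw [hBd]
        exact ⟨z, hZs z hz, OuterSplit_bad h1t h4t hs2 (hZs z hz) hv hv' h5 h6 h7 hzu hv0 h9⟩
      · refine A2_mono h1t le_rfl ?_ (Nat.div_le_self R 4) hω'
        omega
  -- the bad event is independent of the inner event
  obtain ⟨S1, hS1⟩ : ∃ S1 : Finset Edge, S1 = (eRect (-(R : ℤ)) R (-(R : ℤ)) R).filter
      (fun e => src e ∉ ball (0 : Vert) (R / 4)) := ⟨_, rfl⟩
  have hloc : LocalOn S1 Bd := by
    have key : ∀ ω ω' : Config, (∀ e ∈ S1, ω e = ω' e) → ∀ z ∈ sphere (0 : Vert) R,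
        ∀ u v : Vert, Conn ω (ball 0 R ∩ ball z (R / 2)) u v →
          Conn ω' (ball 0 R ∩ ball z (R / 2)) u v := by
      intro ω ω' h z hz u v hc
      refine Conn.congr (fun e he _ => h e ?_) hc
      rw [hS1, Finset.mem_filter]
      refine ⟨mem_eRect.2 (OuterSplit_ball.1 he.1), fun h9 => ?_⟩
      have h10 := he.2
      rw [OuterSplit_sphere] at hz
      rw [OuterSplit_ball] at h9
      rw [mem_ball] at h10
      omega
    rw [hBd]
    rintro ω ω' h ⟨z, hz, u, hu, u', hu', v, hv, v', hv', h5, h6, h7⟩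
    exact ⟨z, hz, u, hu, u', hu', v, hv, v', hv', key ω ω' h z hz _ _ h5, key ω ω' h z hz _ _ h6,
      fun h8 => h7 (key ω' ω (fun e he => (h e he).symm) z hz _ _ h8)⟩
  have hdisj : Disjoint S1 (eRect (-((R / 4 : ℕ) : ℤ)) ((R / 4 : ℕ) : ℤ) (-((R / 4 : ℕ) : ℤ))
      ((R / 4 : ℕ) : ℤ)) := by
    rw [Finset.disjoint_left]
    intro e he he2
    rw [hS1, Finset.mem_filter] at he
    exact he.2 (OuterSplit_ball.2 (mem_eRect.1 he2))
  have hind : Pr q (Bd ∩ A2 t (R / 4)) = Pr q Bd * Pr q (A2 t (R / 4)) :=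
    Pr_inter_of_disjoint hloc localOn_A2 hdisj
  have hR2 : 2 ≤ R := by omega
  have hsmall : Pr q Bd ≤ ε := by
    have h5 := hbad n s (R / 2) R q hs1 hs2 (by omega) hRn hreg
    rw [← hBd] at h5
    refine h5.trans ?_
    have hρ : (R : ℝ) ≤ 3 * ((R / 2 : ℕ) : ℝ) := by
      have : R ≤ 3 * (R / 2) := by omega
      exact_mod_cast this
    have hRpos : (0 : ℝ) < R := by
      have : 0 < R := by omega
      exact_mod_cast this
    have hρpos : (0 : ℝ) < ((R / 2 : ℕ) : ℝ) := by linarith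
    have h6 : (R : ℝ) / ((R / 2 : ℕ) : ℝ) ≤ 3 := by
      rw [div_le_iff₀ hρpos]
      exact hρ
    have h7 : (s : ℝ) / ((R / 2 : ℕ) : ℝ) ≤ 3 / M := by
      rw [div_le_div_iff₀ hρpos hMpos]
      have h8 : (s : ℝ) * M ≤ R := by exact_mod_cast hsM
      linarith
    have h8 : ((s : ℝ) / ((R / 2 : ℕ) : ℝ)) ^ κ ≤ δ :=
      (Real.rpow_le_rpow (by positivity) h7 hκ.le).trans hM3
    calc C * ((R : ℝ) / ((R / 2 : ℕ) : ℝ)) * ((s : ℝ) / ((R / 2 : ℕ) : ℝ)) ^ κ
        ≤ C * 3 * δ := by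
          refine mul_le_mul (mul_le_mul_of_nonneg_left h6 hC.le) h8
            (Real.rpow_nonneg (by positivity) _) (by positivity)
      _ = ε := by
          rw [hδ]
          field_simp
  calc Pr q (A2 t R) ≤ Pr q ((⋃ β ∈ F, ⋃ γ ∈ F, BT t R β γ) ∪ (Bd ∩ A2 t (R / 4))) :=
        Pr_mono hcover
    _ ≤ Pr q (⋃ β ∈ F, ⋃ γ ∈ F, BT t R β γ) + Pr q (Bd ∩ A2 t (R / 4)) := Pr_union_le
    _ ≤ ∑ β ∈ F, ∑ γ ∈ F, Pr q (BT t R β γ) + ε * Pr q (A2 t (R / 4)) := by
        refine add_le_add ?_ ?_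
        · refine (Pr_biUnion_le F _).trans (Finset.sum_le_sum fun β _ => ?_)
          exact Pr_biUnion_le F _
        · rw [hind]
          exact mul_le_mul_of_nonneg_right hsmall Pr_nonneg

end Pool.Agent.H29.Sep

end

section

/-!
# Moves: extension of separated events from scale `k` to scale `4 k`, definitions
-/

open MeasureTheory ProbabilityTheory unitInterval

namespace Pool.Agent.H59.EX

open Pool.Agent.H89.Perc

/-- Corridor from the target `T d k` to the target `T δ (4 k)` with its crossing event. -/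
structure MoveData (k : ℕ) (d δ : Side) (C : Set Vert) (N : Set Config) : Prop where
  T_sub : T d k ⊆ C
  T_sub' : T δ (4 * k) ⊆ C
  inter : C ∩ ball 0 (32 * k) ⊆ T d k
  sub : C ⊆ ball 0 (128 * k) ∪ T δ (4 * k)
  incr : Incr N
  loc : LocS (inE C) N
  hook : ∀ ω ∈ N, ∀ (η : Config) (D : Set Vert) (x : Vert),
    (∀ e ∈ inE C, ω e = true → η e = true) → Fence d k η D x → Fence δ (4 * k) η (D ∪ C) x
  mouth : ∀ z ∈ sphere 0 (128 * k), ∀ a ∈ C, z ∈ ball a k → z ∈ Mouth δ (4 * k)

/-- The two corridors are far apart. -/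
def MoveSep (k : ℕ) (d d' : Side) (C C' : Set Vert) : Prop :=
  ∀ a ∈ C ∪ Mouth d k, ∀ b ∈ C' ∪ Mouth d' k, b ∉ ball a k

/-- Straight corridor. -/
def CM (d : Side) (k : ℕ) : Set Vert :=
  match d with
  | .E => T .E k ∪ rect (32 * k + 1) (144 * k) (-(12 * k)) (12 * k)
  | .N => T .N k ∪ rect (-(12 * k)) (12 * k) (32 * k + 1) (144 * k)
  | .W => T .W k ∪ rect (-(144 * k)) (-(32 * k + 1)) (-(12 * k)) (12 * k)
  | .S => T .S k ∪ rect (-(12 * k)) (12 * k) (-(144 * k)) (-(32 * k + 1))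

/-- Its crossing event. -/
def NM (d : Side) (k : ℕ) : Set Config :=
  match d with
  | .E => {ω | HCross ω (28 * k) (144 * k) (-(3 * k)) (3 * k) ∧
      VCross ω (112 * k) (144 * k) (-(12 * k)) (12 * k)}
  | .N => {ω | VCross ω (-(3 * k)) (3 * k) (28 * k) (144 * k) ∧
      HCross ω (-(12 * k)) (12 * k) (112 * k) (144 * k)}
  | .W => {ω | HCross ω (-(144 * k)) (-(28 * k)) (-(3 * k)) (3 * k) ∧
      VCross ω (-(144 * k)) (-(112 * k)) (-(12 * k)) (12 * k)}
  | .S => {ω | VCross ω (-(3 * k)) (3 * k) (-(144 * k)) (-(28 * k)) ∧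
      HCross ω (-(12 * k)) (12 * k) (-(144 * k)) (-(112 * k))}

/-- Corridor turning from the east to the north. -/
def CT (k : ℕ) : Set Vert :=
  T .E k ∪ rect (32 * k + 1) (66 * k) (-(6 * k)) (6 * k) ∪
    rect (58 * k) (66 * k) (-(6 * k)) (66 * k) ∪ rect (-(12 * k)) (66 * k) (58 * k) (66 * k) ∪
    rect (-(12 * k)) (12 * k) (58 * k) (144 * k)

/-- Its crossing event. -/
def NT (k : ℕ) : Set Config :=
  {ω | HCross ω (28 * k) (64 * k) (-(3 * k)) (3 * k) ∧
    VCross ω (60 * k) (64 * k) (-(3 * k)) (64 * k) ∧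
    HCross ω (-(3 * k)) (64 * k) (60 * k) (64 * k) ∧
    VCross ω (-(3 * k)) (3 * k) (60 * k) (144 * k) ∧
    HCross ω (-(12 * k)) (12 * k) (112 * k) (144 * k)}

end Pool.Agent.H59.EX

end

section

/-!
# The turning corridor of the moves
-/

open MeasureTheory ProbabilityTheory unitInterval

namespace Pool.Agent.H59.EX

open Pool.Agent.H89.Perc
open Pool.Agent.H85.Strict (hv_meet)

theorem mt_locS_h {C : Set Vert} {a b c d : ℤ} (h : rect a b c d ⊆ C) :
    LocS (inE C) {ω | HCross ω a b c d} := by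
  rintro ω ω' hω ⟨u, v, hu, hv, hc⟩
  exact ⟨u, v, hu, hv, Conn.congr (fun e h1 h2 => hω e ⟨h h1, h h2⟩) hc⟩

theorem mt_locS_v {C : Set Vert} {a b c d : ℤ} (h : rect a b c d ⊆ C) :
    LocS (inE C) {ω | VCross ω a b c d} := by
  rintro ω ω' hω ⟨u, v, hu, hv, hc⟩
  exact ⟨u, v, hu, hv, Conn.congr (fun e h1 h2 => hω e ⟨h h1, h h2⟩) hc⟩

theorem mt_incr_h {a b c d : ℤ} : Incr {ω | HCross ω a b c d} := by
  rintro ω ω' hω ⟨u, v, hu, hv, hc⟩
  exact ⟨u, v, hu, hv, Conn.mono le_rfl hω hc⟩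

theorem mt_incr_v {a b c d : ℤ} : Incr {ω | VCross ω a b c d} := by
  rintro ω ω' hω ⟨u, v, hu, hv, hc⟩
  exact ⟨u, v, hu, hv, Conn.mono le_rfl hω hc⟩

/-- Open paths of `ω` inside `C` are open for `η`. -/
theorem mt_lift {C R : Set Vert} {ω η : Config} (h : ∀ e ∈ inE C, ω e = true → η e = true)
    (hR : R ⊆ C) {u v : Vert} (hc : Conn ω R u v) : Conn η R u v := by
  refine hc.induction_right (P := fun w => Conn η R u w) (Conn.refl hc.mem_left) ?_
  rintro a b _ ⟨ha, hb, e, he, ho⟩ ih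
  refine ih.tail ⟨ha, hb, e, he, h e ?_ ho⟩
  rcases he with ⟨h1, h2⟩ | ⟨h1, h2⟩
  · exact ⟨hR (h1 ▸ ha), hR (h2 ▸ hb)⟩
  · exact ⟨hR (h2 ▸ hb), hR (h1 ▸ ha)⟩

theorem move_turn {k : ℕ} (hk : 4 ≤ k) : MoveData k .E .N (CT k) (NT k) := by
  have r1 : rect (28 * k) (64 * k) (-(3 * (k : ℤ))) (3 * k) ⊆ CT k := by
    intro v hv
    simp only [CT, T, rect, Set.mem_union, Set.mem_ofPred_eq] at hv ⊢
    omega
  have r2 : rect (60 * k) (64 * k) (-(3 * (k : ℤ))) (64 * k) ⊆ CT k := by
    intro v hv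
    simp only [CT, T, rect, Set.mem_union, Set.mem_ofPred_eq] at hv ⊢
    omega
  have r3 : rect (-(3 * (k : ℤ))) (64 * k) (60 * k) (64 * k) ⊆ CT k := by
    intro v hv
    simp only [CT, T, rect, Set.mem_union, Set.mem_ofPred_eq] at hv ⊢
    omega
  have r4 : rect (-(3 * (k : ℤ))) (3 * k) (60 * k) (144 * k) ⊆ CT k := by
    intro v hv
    simp only [CT, T, rect, Set.mem_union, Set.mem_ofPred_eq] at hv ⊢
    omega
  have r5 : rect (-(12 * (k : ℤ))) (12 * k) (112 * k) (144 * k) ⊆ CT k := by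
    intro v hv
    simp only [CT, T, rect, Set.mem_union, Set.mem_ofPred_eq] at hv ⊢
    omega
  have rT : T .E k ⊆ CT k := fun v hv => Or.inl (Or.inl (Or.inl (Or.inl hv)))
  refine ⟨rT, ?_, ?_, ?_, ?_, ?_, ?_, ?_⟩
  · intro v hv
    simp only [CT, T, rect, Set.mem_union, Set.mem_ofPred_eq] at hv ⊢
    push_cast at hv
    omega
  · rintro v ⟨h1, h2⟩
    simp only [CT, T, rect, ball, Set.mem_union, Set.mem_ofPred_eq, Prod.fst_zero,
      Prod.snd_zero] at h1 h2 ⊢
    push_cast at h2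
    omega
  · intro v h1
    simp only [CT, T, rect, ball, Set.mem_union, Set.mem_ofPred_eq, Prod.fst_zero,
      Prod.snd_zero] at h1 ⊢
    push_cast
    omega
  · rintro ω ω' h ⟨h1, h2, h3, h4, h5⟩
    exact ⟨mt_incr_h ω ω' h h1, mt_incr_v ω ω' h h2, mt_incr_h ω ω' h h3, mt_incr_v ω ω' h h4,
      mt_incr_h ω ω' h h5⟩
  · rintro ω ω' h ⟨h1, h2, h3, h4, h5⟩
    exact ⟨mt_locS_h r1 ω ω' h h1, mt_locS_v r2 ω ω' h h2, mt_locS_h r3 ω ω' h h3,
      mt_locS_v r4 ω ω' h h4, mt_locS_h r5 ω ω' h h5⟩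
  · rintro ω ⟨⟨p1, q1, hp1, hq1, h1⟩, ⟨p2, q2, hp2, hq2, h2⟩, ⟨p3, q3, hp3, hq3, h3⟩,
      ⟨p4, q4, hp4, hq4, h4⟩, ⟨p5, q5, hp5, hq5, h5⟩⟩ η D x hη ⟨u, v, hu, hv, hf, hxu⟩
    have g1 := mt_lift hη r1 h1
    have g2 := mt_lift hη r2 h2
    have g3 := mt_lift hη r3 h3
    have g4 := mt_lift hη r4 h4
    have g5 := mt_lift hη r5 h5
    obtain ⟨z1, m1, m1'⟩ := hv_meet (a₂ := 28 * k) (b₂ := 36 * k) g1 (by omega) (by omega) hf
      (by omega) (by omega) (by omega) (by omega)
    obtain ⟨z2, m2, m2'⟩ := hv_meet g1 (by omega) (by omega) g2 (by omega) (by omega) (by omega)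
      (by omega)
    obtain ⟨z3, m3, m3'⟩ := hv_meet g3 (by omega) (by omega) g2 (by omega) (by omega) (by omega)
      (by omega)
    obtain ⟨z4, m4, m4'⟩ := hv_meet g3 (by omega) (by omega) g4 (by omega) (by omega) (by omega)
      (by omega)
    obtain ⟨z5, m5, m5'⟩ := hv_meet g5 (by omega) (by omega) g4 (by omega) (by omega) (by omega)
      (by omega)
    have tr : ∀ {R : Set Vert} {a b : Vert}, R ⊆ CT k → Conn η R a b → Conn η (D ∪ CT k) a b :=
      fun hR h => h.mono_set (hR.trans Set.subset_union_right)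
    refine ⟨p5, q5, by rw [hp5]; push_cast; ring, by rw [hq5]; push_cast; ring, ?_, ?_⟩
    · refine g5.mono_set ?_
      intro v hv
      simp only [T, rect, Set.mem_ofPred_eq] at hv ⊢
      push_cast
      omega
    · have c1 : Conn η (D ∪ CT k) x u := hxu.mono_set Set.subset_union_left
      have c2 := c1.trans (tr rT m1')
      have c3 := c2.trans (tr r1 m1).symm
      have c4 := c3.trans (tr r1 m2)
      have c5 := c4.trans (tr r2 m2').symm
      have c6 := c5.trans (tr r2 m3')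
      have c7 := c6.trans (tr r3 m3).symm
      have c8 := c7.trans (tr r3 m4)
      have c9 := c8.trans (tr r4 m4').symm
      have c10 := c9.trans (tr r4 m5')
      exact c10.trans (tr r5 m5).symm
  · intro z hz a ha hza
    simp only [CT, T, rect, sphere, ball, Set.mem_union, Set.mem_ofPred_eq, Prod.fst_zero,
      Prod.snd_zero, Mouth] at hz ha hza ⊢
    push_cast at hz ⊢
    omega

theorem msep_WT {k : ℕ} (hk : 4 ≤ k) : MoveSep k .W .E (CM .W k) (CT k) := by
  intro a ha b hb hab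
  simp only [CM, CT, T, rect, ball, Set.mem_union, Set.mem_ofPred_eq, Mouth] at ha hb hab
  omega

theorem msep_ST {k : ℕ} (hk : 4 ≤ k) : MoveSep k .S .E (CM .S k) (CT k) := by
  intro a ha b hb hab
  simp only [CM, CT, T, rect, ball, Set.mem_union, Set.mem_ofPred_eq, Mouth] at ha hb hab
  omega

end Pool.Agent.H59.EX

end

section

/-!
# The straight corridors of the moves, probabilities
-/

open MeasureTheory ProbabilityTheory unitInterval

namespace Pool.Agent.H59.EX

open Pool.Agent.H89.Perc Pool.Agent.H61.NC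
open Pool.Agent.H85.Strict (hv_meet)

theorem move_str_E {k : ℕ} (hk : 4 ≤ k) : MoveData k .E .E (CM .E k) (NM .E k) := by
  have r1 : rect (28 * k) (144 * k) (-(3 * (k : ℤ))) (3 * k) ⊆ CM .E k := by
    intro v hv
    simp only [CM, T, rect, Set.mem_union, Set.mem_ofPred_eq] at hv ⊢
    omega
  have r2 : rect (112 * k) (144 * k) (-(12 * (k : ℤ))) (12 * k) ⊆ CM .E k := by
    intro v hv
    simp only [CM, T, rect, Set.mem_union, Set.mem_ofPred_eq] at hv ⊢
    omega
  have rT : T .E k ⊆ CM .E k := fun v hv => Or.inl hv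
  refine ⟨rT, ?_, ?_, ?_, ?_, ?_, ?_, ?_⟩
  · intro v hv
    simp only [CM, T, rect, Set.mem_union, Set.mem_ofPred_eq] at hv ⊢
    push_cast at hv
    omega
  · rintro v ⟨h1, h2⟩
    simp only [CM, T, rect, ball, Set.mem_union, Set.mem_ofPred_eq, Prod.fst_zero,
      Prod.snd_zero] at h1 h2 ⊢
    push_cast at h2
    omega
  · intro v h1
    simp only [CM, T, rect, ball, Set.mem_union, Set.mem_ofPred_eq, Prod.fst_zero,
      Prod.snd_zero] at h1 ⊢
    push_cast
    omega
  · rintro ω ω' h ⟨h1, h2⟩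
    exact ⟨mt_incr_h ω ω' h h1, mt_incr_v ω ω' h h2⟩
  · rintro ω ω' h ⟨h1, h2⟩
    exact ⟨mt_locS_h r1 ω ω' h h1, mt_locS_v r2 ω ω' h h2⟩
  · rintro ω ⟨⟨p1, q1, hp1, hq1, h1⟩, ⟨p2, q2, hp2, hq2, h2⟩⟩ η D x hη ⟨u, v, hu, hv, hf, hxu⟩
    have g1 := mt_lift hη r1 h1
    have g2 := mt_lift hη r2 h2
    obtain ⟨z1, m1, m1'⟩ := hv_meet (a₂ := 28 * k) (b₂ := 36 * k) g1 (by omega) (by omega) hf
      (by omega) (by omega) (by omega) (by omega)
    obtain ⟨z2, m2, m2'⟩ := hv_meet g1 (by omega) (by omega) g2 (by omega) (by omega) (by omega)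
      (by omega)
    have tr : ∀ {R : Set Vert} {a b : Vert}, R ⊆ CM .E k → Conn η R a b →
        Conn η (D ∪ CM .E k) a b :=
      fun hR h => h.mono_set (hR.trans Set.subset_union_right)
    refine ⟨p2, q2, by rw [hp2]; push_cast; ring, by rw [hq2]; push_cast; ring, ?_, ?_⟩
    · refine g2.mono_set ?_
      intro v hv
      simp only [T, rect, Set.mem_ofPred_eq] at hv ⊢
      push_cast
      omega
    · have c1 : Conn η (D ∪ CM .E k) x u := hxu.mono_set Set.subset_union_left
      have c2 := c1.trans (tr rT m1')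
      have c3 := c2.trans (tr r1 m1).symm
      have c4 := c3.trans (tr r1 m2)
      exact c4.trans (tr r2 m2').symm
  · intro z hz a ha hza
    simp only [CM, T, rect, sphere, ball, Set.mem_union, Set.mem_ofPred_eq, Prod.fst_zero,
      Prod.snd_zero, Mouth] at hz ha hza ⊢
    push_cast at hz ⊢
    omega

theorem move_str_N {k : ℕ} (hk : 4 ≤ k) : MoveData k .N .N (CM .N k) (NM .N k) := by
  have r1 : rect (-(3 * (k : ℤ))) (3 * k) (28 * k) (144 * k) ⊆ CM .N k := by
    intro v hv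
    simp only [CM, T, rect, Set.mem_union, Set.mem_ofPred_eq] at hv ⊢
    omega
  have r2 : rect (-(12 * (k : ℤ))) (12 * k) (112 * k) (144 * k) ⊆ CM .N k := by
    intro v hv
    simp only [CM, T, rect, Set.mem_union, Set.mem_ofPred_eq] at hv ⊢
    omega
  have rT : T .N k ⊆ CM .N k := fun v hv => Or.inl hv
  refine ⟨rT, ?_, ?_, ?_, ?_, ?_, ?_, ?_⟩
  · intro v hv
    simp only [CM, T, rect, Set.mem_union, Set.mem_ofPred_eq] at hv ⊢
    push_cast at hv
    omega
  · rintro v ⟨h1, h2⟩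
    simp only [CM, T, rect, ball, Set.mem_union, Set.mem_ofPred_eq, Prod.fst_zero,
      Prod.snd_zero] at h1 h2 ⊢
    push_cast at h2
    omega
  · intro v h1
    simp only [CM, T, rect, ball, Set.mem_union, Set.mem_ofPred_eq, Prod.fst_zero,
      Prod.snd_zero] at h1 ⊢
    push_cast
    omega
  · rintro ω ω' h ⟨h1, h2⟩
    exact ⟨mt_incr_v ω ω' h h1, mt_incr_h ω ω' h h2⟩
  · rintro ω ω' h ⟨h1, h2⟩
    exact ⟨mt_locS_v r1 ω ω' h h1, mt_locS_h r2 ω ω' h h2⟩
  · rintro ω ⟨⟨p1, q1, hp1, hq1, h1⟩, ⟨p2, q2, hp2, hq2, h2⟩⟩ η D x hη ⟨u, v, hu, hv, hf, hxu⟩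
    have g1 := mt_lift hη r1 h1
    have g2 := mt_lift hη r2 h2
    obtain ⟨z1, m1', m1⟩ := hv_meet (c₁ := 28 * k) (d₁ := 36 * k) (a₁ := -(3 * (k : ℤ))) (b₁ := 3 * k) hf (by omega) (by omega) g1
      (by omega) (by omega) (by omega) (by omega)
    obtain ⟨z2, m2', m2⟩ := hv_meet g2 (by omega) (by omega) g1 (by omega) (by omega) (by omega)
      (by omega)
    have tr : ∀ {R : Set Vert} {a b : Vert}, R ⊆ CM .N k → Conn η R a b →
        Conn η (D ∪ CM .N k) a b :=
      fun hR h => h.mono_set (hR.trans Set.subset_union_right)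
    refine ⟨p2, q2, by rw [hp2]; push_cast; ring, by rw [hq2]; push_cast; ring, ?_, ?_⟩
    · refine g2.mono_set ?_
      intro v hv
      simp only [T, rect, Set.mem_ofPred_eq] at hv ⊢
      push_cast
      omega
    · have c1 : Conn η (D ∪ CM .N k) x u := hxu.mono_set Set.subset_union_left
      have c2 := c1.trans (tr rT m1')
      have c3 := c2.trans (tr r1 m1).symm
      have c4 := c3.trans (tr r1 m2)
      exact c4.trans (tr r2 m2').symm
  · intro z hz a ha hza
    simp only [CM, T, rect, sphere, ball, Set.mem_union, Set.mem_ofPred_eq, Prod.fst_zero,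
      Prod.snd_zero, Mouth] at hz ha hza ⊢
    push_cast at hz ⊢
    omega

theorem move_str_W {k : ℕ} (hk : 4 ≤ k) : MoveData k .W .W (CM .W k) (NM .W k) := by
  have r1 : rect (-(144 * (k : ℤ))) (-(28 * k)) (-(3 * (k : ℤ))) (3 * k) ⊆ CM .W k := by
    intro v hv
    simp only [CM, T, rect, Set.mem_union, Set.mem_ofPred_eq] at hv ⊢
    omega
  have r2 : rect (-(144 * (k : ℤ))) (-(112 * k)) (-(12 * (k : ℤ))) (12 * k) ⊆ CM .W k := by
    intro v hv
    simp only [CM, T, rect, Set.mem_union, Set.mem_ofPred_eq] at hv ⊢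
    omega
  have rT : T .W k ⊆ CM .W k := fun v hv => Or.inl hv
  refine ⟨rT, ?_, ?_, ?_, ?_, ?_, ?_, ?_⟩
  · intro v hv
    simp only [CM, T, rect, Set.mem_union, Set.mem_ofPred_eq] at hv ⊢
    push_cast at hv
    omega
  · rintro v ⟨h1, h2⟩
    simp only [CM, T, rect, ball, Set.mem_union, Set.mem_ofPred_eq, Prod.fst_zero,
      Prod.snd_zero] at h1 h2 ⊢
    push_cast at h2
    omega
  · intro v h1
    simp only [CM, T, rect, ball, Set.mem_union, Set.mem_ofPred_eq, Prod.fst_zero,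
      Prod.snd_zero] at h1 ⊢
    push_cast
    omega
  · rintro ω ω' h ⟨h1, h2⟩
    exact ⟨mt_incr_h ω ω' h h1, mt_incr_v ω ω' h h2⟩
  · rintro ω ω' h ⟨h1, h2⟩
    exact ⟨mt_locS_h r1 ω ω' h h1, mt_locS_v r2 ω ω' h h2⟩
  · rintro ω ⟨⟨p1, q1, hp1, hq1, h1⟩, ⟨p2, q2, hp2, hq2, h2⟩⟩ η D x hη ⟨u, v, hu, hv, hf, hxu⟩
    have g1 := mt_lift hη r1 h1
    have g2 := mt_lift hη r2 h2
    obtain ⟨z1, m1, m1'⟩ := hv_meet (a₂ := -(36 * k)) (b₂ := -(28 * k)) g1 (by omega) (by omega) hf
      (by omega) (by omega) (by omega) (by omega)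
    obtain ⟨z2, m2, m2'⟩ := hv_meet g1 (by omega) (by omega) g2 (by omega) (by omega) (by omega)
      (by omega)
    have tr : ∀ {R : Set Vert} {a b : Vert}, R ⊆ CM .W k → Conn η R a b →
        Conn η (D ∪ CM .W k) a b :=
      fun hR h => h.mono_set (hR.trans Set.subset_union_right)
    refine ⟨p2, q2, by rw [hp2]; push_cast; ring, by rw [hq2]; push_cast; ring, ?_, ?_⟩
    · refine g2.mono_set ?_
      intro v hv
      simp only [T, rect, Set.mem_ofPred_eq] at hv ⊢
      push_cast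
      omega
    · have c1 : Conn η (D ∪ CM .W k) x u := hxu.mono_set Set.subset_union_left
      have c2 := c1.trans (tr rT m1')
      have c3 := c2.trans (tr r1 m1).symm
      have c4 := c3.trans (tr r1 m2)
      exact c4.trans (tr r2 m2').symm
  · intro z hz a ha hza
    simp only [CM, T, rect, sphere, ball, Set.mem_union, Set.mem_ofPred_eq, Prod.fst_zero,
      Prod.snd_zero, Mouth] at hz ha hza ⊢
    push_cast at hz ⊢
    omega

theorem move_str_S {k : ℕ} (hk : 4 ≤ k) : MoveData k .S .S (CM .S k) (NM .S k) := by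
  have r1 : rect (-(3 * (k : ℤ))) (3 * k) (-(144 * (k : ℤ))) (-(28 * k)) ⊆ CM .S k := by
    intro v hv
    simp only [CM, T, rect, Set.mem_union, Set.mem_ofPred_eq] at hv ⊢
    omega
  have r2 : rect (-(12 * (k : ℤ))) (12 * k) (-(144 * (k : ℤ))) (-(112 * k)) ⊆ CM .S k := by
    intro v hv
    simp only [CM, T, rect, Set.mem_union, Set.mem_ofPred_eq] at hv ⊢
    omega
  have rT : T .S k ⊆ CM .S k := fun v hv => Or.inl hv
  refine ⟨rT, ?_, ?_, ?_, ?_, ?_, ?_, ?_⟩
  · intro v hv
    simp only [CM, T, rect, Set.mem_union, Set.mem_ofPred_eq] at hv ⊢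
    push_cast at hv
    omega
  · rintro v ⟨h1, h2⟩
    simp only [CM, T, rect, ball, Set.mem_union, Set.mem_ofPred_eq, Prod.fst_zero,
      Prod.snd_zero] at h1 h2 ⊢
    push_cast at h2
    omega
  · intro v h1
    simp only [CM, T, rect, ball, Set.mem_union, Set.mem_ofPred_eq, Prod.fst_zero,
      Prod.snd_zero] at h1 ⊢
    push_cast
    omega
  · rintro ω ω' h ⟨h1, h2⟩
    exact ⟨mt_incr_v ω ω' h h1, mt_incr_h ω ω' h h2⟩
  · rintro ω ω' h ⟨h1, h2⟩
    exact ⟨mt_locS_v r1 ω ω' h h1, mt_locS_h r2 ω ω' h h2⟩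
  · rintro ω ⟨⟨p1, q1, hp1, hq1, h1⟩, ⟨p2, q2, hp2, hq2, h2⟩⟩ η D x hη ⟨u, v, hu, hv, hf, hxu⟩
    have g1 := mt_lift hη r1 h1
    have g2 := mt_lift hη r2 h2
    obtain ⟨z1, m1', m1⟩ := hv_meet (c₁ := -(36 * k)) (d₁ := -(28 * k)) (a₁ := -(3 * (k : ℤ))) (b₁ := 3 * k) hf (by omega) (by omega) g1
      (by omega) (by omega) (by omega) (by omega)
    obtain ⟨z2, m2', m2⟩ := hv_meet g2 (by omega) (by omega) g1 (by omega) (by omega) (by omega)
      (by omega)
    have tr : ∀ {R : Set Vert} {a b : Vert}, R ⊆ CM .S k → Conn η R a b →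
        Conn η (D ∪ CM .S k) a b :=
      fun hR h => h.mono_set (hR.trans Set.subset_union_right)
    refine ⟨p2, q2, by rw [hp2]; push_cast; ring, by rw [hq2]; push_cast; ring, ?_, ?_⟩
    · refine g2.mono_set ?_
      intro v hv
      simp only [T, rect, Set.mem_ofPred_eq] at hv ⊢
      push_cast
      omega
    · have c1 : Conn η (D ∪ CM .S k) x u := hxu.mono_set Set.subset_union_left
      have c2 := c1.trans (tr rT m1')
      have c3 := c2.trans (tr r1 m1).symm
      have c4 := c3.trans (tr r1 m2)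
      exact c4.trans (tr r2 m2').symm
  · intro z hz a ha hza
    simp only [CM, T, rect, sphere, ball, Set.mem_union, Set.mem_ofPred_eq, Prod.fst_zero,
      Prod.snd_zero, Mouth] at hz ha hza ⊢
    push_cast at hz ⊢
    omega

theorem move_straight {k : ℕ} (hk : 4 ≤ k) (d : Side) : MoveData k d d (CM d k) (NM d k) := by
  cases d
  · exact move_str_E hk
  · exact move_str_N hk
  · exact move_str_W hk
  · exact move_str_S hk

theorem msep_EW {k : ℕ} (hk : 4 ≤ k) : MoveSep k .E .W (CM .E k) (CM .W k) := by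
  intro a ha b hb hab
  simp only [CM, T, rect, ball, Set.mem_union, Set.mem_ofPred_eq, Mouth] at ha hb hab
  omega

theorem msep_EN {k : ℕ} (hk : 4 ≤ k) : MoveSep k .E .N (CM .E k) (CM .N k) := by
  intro a ha b hb hab
  simp only [CM, T, rect, ball, Set.mem_union, Set.mem_ofPred_eq, Mouth] at ha hb hab
  omega

theorem ms_local_h (a b c d : ℤ) : LocalOn (eRect a b c d) {ω | HCross ω a b c d} := by
  rintro ω ω' hω ⟨u, v, hu, hv, hc⟩
  exact ⟨u, v, hu, hv, Conn.congr (fun e h1 _ => hω e (mem_eRect.2 h1)) hc⟩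

theorem ms_local_v (a b c d : ℤ) : LocalOn (eRect a b c d) {ω | VCross ω a b c d} := by
  rintro ω ω' hω ⟨u, v, hu, hv, hc⟩
  exact ⟨u, v, hu, hv, Conn.congr (fun e h1 _ => hω e (mem_eRect.2 h1)) hc⟩

open scoped Classical in
/-- Harris inequality with a lower bound. -/
theorem ms_and {q : I} {s t : Finset Edge} {A B : Set Config} {x y : ℝ} (hx : 0 ≤ x) (hy : 0 ≤ y)
    (hA : LocalOn s A ∧ Incr A ∧ x ≤ Pr q A) (hB : LocalOn t B ∧ Incr B ∧ y ≤ Pr q B) :
    LocalOn (s ∪ t) (A ∩ B) ∧ Incr (A ∩ B) ∧ x * y ≤ Pr q (A ∩ B) :=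
  ⟨hA.1.inter' hB.1, hA.2.1.inter hB.2.1,
    (mul_le_mul hA.2.2 hB.2.2 hy (hx.trans hA.2.2)).trans (fkg hA.1 hB.1 hA.2.1 hB.2.1)⟩

theorem prob_move (c : ℝ) (hc : 0 < c) (K : ℕ) : ∃ c' : ℝ, 0 < c' ∧ ∀ (d : Side) (k n : ℕ)
    (q : I), 4 ≤ k → k ≤ K * n → RSWreg c n q → c' ≤ Pr q (NM d k) ∧ c' ≤ Pr q (NT k) := by
  classical
  obtain ⟨c₀, hc₀, h⟩ := Pool.Agent.H29.Sep.rect_lower c hc (32 * K + 20)
  refine ⟨min (c₀ * c₀) (c₀ * (c₀ * (c₀ * (c₀ * c₀)))), by positivity, ?_⟩
  intro d k n q hk hkn hreg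
  have hn : 1 ≤ n := by
    rcases Nat.eq_zero_or_pos n with h0 | h0
    · subst h0
      omega
    · exact h0
  have hknZ : (k : ℤ) ≤ K * n := by exact_mod_cast hkn
  have hK0 : (0 : ℤ) ≤ K := by positivity
  have hn0 : (0 : ℤ) ≤ n := by positivity
  have hl : ∀ a b y z : ℤ, a ≤ b → y < z → b - a ≤ 20 * (z - y) → z - y ≤ 32 * k →
      c₀ ≤ Pr q {ω | HCross ω a b y z} ∧ c₀ ≤ Pr q {ω | VCross ω y z a b} := by
    intro a b y z h1 h2 h3 h4
    refine h n q hn hreg a b y z h1 h2 ?_ ?_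
    · push_cast
      nlinarith [mul_nonneg hK0 (show (0 : ℤ) ≤ z - y by omega)]
    · push_cast
      nlinarith [mul_nonneg hK0 hn0]
  have hH : ∀ a b y z : ℤ, a ≤ b → y < z → b - a ≤ 20 * (z - y) → z - y ≤ 32 * k →
      LocalOn (eRect a b y z) {ω | HCross ω a b y z} ∧ Incr {ω | HCross ω a b y z} ∧
        c₀ ≤ Pr q {ω | HCross ω a b y z} :=
    fun a b y z h1 h2 h3 h4 => ⟨ms_local_h _ _ _ _, mt_incr_h, (hl a b y z h1 h2 h3 h4).1⟩
  have hV : ∀ y z a b : ℤ, a ≤ b → y < z → b - a ≤ 20 * (z - y) → z - y ≤ 32 * k →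
      LocalOn (eRect y z a b) {ω | VCross ω y z a b} ∧ Incr {ω | VCross ω y z a b} ∧
        c₀ ≤ Pr q {ω | VCross ω y z a b} :=
    fun y z a b h1 h2 h3 h4 => ⟨ms_local_v _ _ _ _, mt_incr_v, (hl a b y z h1 h2 h3 h4).2⟩
  have p2 : 0 ≤ c₀ * c₀ := by positivity
  have p3 : 0 ≤ c₀ * (c₀ * c₀) := by positivity
  have p4 : 0 ≤ c₀ * (c₀ * (c₀ * c₀)) := by positivity
  constructor
  · refine (min_le_left _ _).trans ?_
    cases d
    · exact (ms_and hc₀.le hc₀.le
        (hH (28 * k) (144 * k) (-(3 * k)) (3 * k) (by omega) (by omega) (by omega) (by omega))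
        (hV (112 * k) (144 * k) (-(12 * k)) (12 * k) (by omega) (by omega) (by omega)
          (by omega))).2.2
    · exact (ms_and hc₀.le hc₀.le
        (hV (-(3 * k)) (3 * k) (28 * k) (144 * k) (by omega) (by omega) (by omega) (by omega))
        (hH (-(12 * k)) (12 * k) (112 * k) (144 * k) (by omega) (by omega) (by omega)
          (by omega))).2.2
    · exact (ms_and hc₀.le hc₀.le
        (hH (-(144 * k)) (-(28 * k)) (-(3 * k)) (3 * k) (by omega) (by omega) (by omega)
          (by omega))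
        (hV (-(144 * k)) (-(112 * k)) (-(12 * k)) (12 * k) (by omega) (by omega) (by omega)
          (by omega))).2.2
    · exact (ms_and hc₀.le hc₀.le
        (hV (-(3 * k)) (3 * k) (-(144 * k)) (-(28 * k)) (by omega) (by omega) (by omega)
          (by omega))
        (hH (-(12 * k)) (12 * k) (-(144 * k)) (-(112 * k)) (by omega) (by omega) (by omega)
          (by omega))).2.2
  · refine (min_le_right _ _).trans ?_
    exact (ms_and hc₀.le p4
      (hH (28 * k) (64 * k) (-(3 * k)) (3 * k) (by omega) (by omega) (by omega) (by omega))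
      (ms_and hc₀.le p3
        (hV (60 * k) (64 * k) (-(3 * k)) (64 * k) (by omega) (by omega) (by omega) (by omega))
        (ms_and hc₀.le p2
          (hH (-(3 * k)) (64 * k) (60 * k) (64 * k) (by omega) (by omega) (by omega) (by omega))
          (ms_and hc₀.le hc₀.le
            (hV (-(3 * k)) (3 * k) (60 * k) (144 * k) (by omega) (by omega) (by omega) (by omega))
            (hH (-(12 * k)) (12 * k) (112 * k) (144 * k) (by omega) (by omega) (by omega)
              (by omega)))))).2.2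

end Pool.Agent.H59.EX

end
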