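import Pool.Agent.H31.PT.M10
import Pool.Agent.H31.PT.M13
import Pool.Agent.H31.PT.M14

/-! The parts of this file: H61.NC.Sum, H59.EX.MoveCore, H59.EX.Moves, H59.EX.Iter0, H26.ST.Closed. -/

section

/-!
# Sums over edges: the second derivative is bounded by the square of the first
-/

open MeasureTheory ProbabilityTheory unitInterval

namespace Pool.Agent.H61.NC

open Pool.Agent.H89.Perc

theorem Sum_card_eRect (m : ℤ) (s : ℕ) :
    (eRect (m - s) (m + s) (m - s) (m + s)).card = 2 * (2 * s + 1) ^ 2 := by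
  unfold eRect
  rw [Finset.card_product, Finset.card_product, Int.card_Icc, Finset.card_univ, Fintype.card_bool]
  have h : (m + (s : ℤ) + 1 - (m - s)).toNat = 2 * s + 1 := by omega
  rw [h]
  ring

/-- Number of edges of the torus at a given distance from the middle. -/
theorem card_dist0 (N t : ℕ) (ht : 1 ≤ t) :
    (((tEdges N).filter fun f => dist0 N f = t).card : ℝ) ≤ 16 * t := by
  classical
  obtain ⟨s, rfl⟩ : ∃ s, t = s + 1 := ⟨t - 1, by omega⟩
  have hsub : ((tEdges N).filter fun f => dist0 N f = s + 1) ⊆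
      eRect (mid N - (s + 1 : ℕ)) (mid N + (s + 1 : ℕ)) (mid N - (s + 1 : ℕ))
        (mid N + (s + 1 : ℕ)) \ eRect (mid N - s) (mid N + s) (mid N - s) (mid N + s) := by
    intro f hf
    rw [Finset.mem_filter] at hf
    have h1 := hf.2
    unfold dist0 at h1
    rw [Finset.mem_sdiff, mem_eRect, mem_eRect]
    unfold src rect
    simp only [Set.mem_ofPred_eq]
    omega
  have hsub2 : eRect (mid N - s) (mid N + s) (mid N - s) (mid N + s) ⊆
      eRect (mid N - (s + 1 : ℕ)) (mid N + (s + 1 : ℕ)) (mid N - (s + 1 : ℕ))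
        (mid N + (s + 1 : ℕ)) := by
    intro f hf
    rw [mem_eRect] at hf ⊢
    unfold src rect at hf ⊢
    simp only [Set.mem_ofPred_eq] at hf ⊢
    omega
  have h1 := Finset.card_le_card hsub
  rw [Finset.card_sdiff_of_subset hsub2, Sum_card_eRect, Sum_card_eRect] at h1
  have h2 : 2 * (2 * (s + 1) + 1) ^ 2 - 2 * (2 * s + 1) ^ 2 = 16 * (s + 1) := by
    have : 2 * (2 * (s + 1) + 1) ^ 2 = 2 * (2 * s + 1) ^ 2 + 16 * (s + 1) := by ring
    omega
  rw [h2] at h1
  exact_mod_cast h1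

/-- The influences at scale `N` are comparable to the four-arm probability at scale `N / 64`. -/
theorem a4_le_sT (hGL : GLTorus) (hBL : BlockLow) : ∀ c : ℝ, 0 < c → ∃ C : ℝ, 0 < C ∧
    ∀ (N : ℕ) (q : I) (d : Bool), 64 ≤ N → RSWreg c N q → a4 q (N / 64) ≤ C * sT q N d := by
  intro c hc
  obtain ⟨C1, hC1, h1⟩ := hGL c hc
  obtain ⟨C2, δ, hC2, hδ, h2⟩ := hBL c hc
  refine ⟨64 * C1 * C2, by positivity, fun N q d hN hR => ?_⟩
  obtain ⟨r, hr⟩ : ∃ r, r = N / 64 := ⟨_, rfl⟩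
  rw [← hr]
  have hr1 : 1 ≤ r := by omega
  have hrN : 64 * r ≤ N := by omega
  have hrN' : N ≤ 128 * r := by omega
  have k1 := h1 N r q d hr1 hrN hR
  have k2 := h2 N (16 * r) q (by omega) (by omega) hR
  have hNpos : (0 : ℝ) < N := by exact_mod_cast (by omega : 0 < N)
  have hx1 : (1 / 8 : ℝ) ≤ ((16 * r : ℕ) : ℝ) / N := by
    rw [le_div_iff₀ hNpos]
    have : (N : ℝ) ≤ 128 * r := by exact_mod_cast hrN'
    push_cast
    linarith
  have hx2 : ((16 * r : ℕ) : ℝ) / N ≤ 1 := by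
    rw [div_le_one hNpos]
    exact_mod_cast (by omega : 16 * r ≤ N)
  have hx0 : 0 < ((16 * r : ℕ) : ℝ) / N := by linarith
  have k3 : (1 / 64 : ℝ) ≤ (((16 * r : ℕ) : ℝ) / N) ^ (2 - δ) := by
    calc (1 / 64 : ℝ) = (1 / 8 : ℝ) ^ 2 := by norm_num
      _ ≤ (((16 * r : ℕ) : ℝ) / N) ^ 2 := by gcongr
      _ = (((16 * r : ℕ) : ℝ) / N) ^ (2 : ℝ) := (Real.rpow_two _).symm
      _ ≤ _ := Real.rpow_le_rpow_of_exponent_ge hx0 hx2 (by linarith)
  have k4 : 1 ≤ 64 * C2 * Pr q (BlockPiv N (16 * r)) := by linarith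
  have ha := a4_nonneg q r
  calc a4 q r = a4 q r * 1 := (mul_one _).symm
    _ ≤ a4 q r * (64 * C2 * Pr q (BlockPiv N (16 * r))) := mul_le_mul_of_nonneg_left k4 ha
    _ = 64 * C2 * (a4 q r * Pr q (BlockPiv N (16 * r))) := by ring
    _ ≤ 64 * C2 * (C1 * sT q N d) := mul_le_mul_of_nonneg_left k1 (by positivity)
    _ = _ := by ring

theorem Sum_rpow (δ : ℝ) (h0 : 0 < δ) (h1 : δ ≤ 1) (n : ℕ) :
    ∑ t ∈ Finset.Icc 1 n, (t : ℝ) ^ (δ - 1) ≤ (n : ℝ) ^ δ / δ := by
  induction n with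
  | zero =>
    rw [Finset.Icc_eq_empty (by omega), Finset.sum_empty]
    positivity
  | succ n ih =>
    rw [Finset.sum_Icc_succ_top (by omega)]
    have hn : (0 : ℝ) < ((n + 1 : ℕ) : ℝ) := by positivity
    have k1 : (n : ℝ) ^ δ ≤ ((n + 1 : ℕ) : ℝ) ^ δ * (1 + δ * (-(1 / ((n + 1 : ℕ) : ℝ)))) := by
      have e : (n : ℝ) = ((n + 1 : ℕ) : ℝ) * (1 + -(1 / ((n + 1 : ℕ) : ℝ))) := by
        field_simp
        push_cast
        ring
      have hs : -1 ≤ -(1 / ((n + 1 : ℕ) : ℝ)) := by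
        rw [neg_le_neg_iff, div_le_one hn]
        push_cast
        linarith [Nat.cast_nonneg (α := ℝ) n]
      conv_lhs => rw [e]
      rw [Real.mul_rpow hn.le (by linarith)]
      exact mul_le_mul_of_nonneg_left (rpow_one_add_le_one_add_mul_self hs h0.le h1)
        (by positivity)
    have k2 : ((n + 1 : ℕ) : ℝ) ^ (δ - 1) = ((n + 1 : ℕ) : ℝ) ^ δ / ((n + 1 : ℕ) : ℝ) := by
      rw [Real.rpow_sub hn, Real.rpow_one]
    have k3 : (n : ℝ) ^ δ + δ * ((n + 1 : ℕ) : ℝ) ^ (δ - 1) ≤ ((n + 1 : ℕ) : ℝ) ^ δ := by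
      rw [k2]
      have e : ((n + 1 : ℕ) : ℝ) ^ δ * (1 + δ * (-(1 / ((n + 1 : ℕ) : ℝ)))) =
        ((n + 1 : ℕ) : ℝ) ^ δ - δ * (((n + 1 : ℕ) : ℝ) ^ δ / ((n + 1 : ℕ) : ℝ)) := by ring
      rw [e] at k1
      linarith
    rw [le_div_iff₀ h0] at ih ⊢
    nlinarith

theorem sum_a4 (hGL : GLTorus) (hBL : BlockLow) : ∀ c : ℝ, 0 < c → ∃ C : ℝ, 0 < C ∧
    ∀ (N : ℕ) (q : I) (d : Bool), 64 ≤ N → RSWreg c N q →
      ∑ t ∈ Finset.Icc 1 N, (t : ℝ) * a4 q t ≤ C * ((N : ℝ) ^ 2 * sT q N d) := by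
  intro c hc
  obtain ⟨C3, hC3, h3⟩ := a4_le_sT hGL hBL c hc
  obtain ⟨C1, hC1, h1⟩ := hGL c hc
  obtain ⟨C2, δ0, hC2, hδ0, h2⟩ := hBL c hc
  obtain ⟨δ, hδ⟩ : ∃ δ, δ = min δ0 1 := ⟨_, rfl⟩
  have hδpos : 0 < δ := by rw [hδ]; exact lt_min hδ0 one_pos
  have hδ1 : δ ≤ 1 := by rw [hδ]; exact min_le_right _ _
  have hδle : δ ≤ δ0 := by rw [hδ]; exact min_le_left _ _
  refine ⟨C1 * C2 / δ + C3, by positivity, fun N q d hN hR => ?_⟩
  have hs := sT_nonneg q N d
  have hNpos : (0 : ℝ) < N := by exact_mod_cast (by omega : 0 < N)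
  have hterm : ∀ t ∈ Finset.Icc 1 N, (t : ℝ) * a4 q t ≤
      C1 * C2 * sT q N d * (N : ℝ) ^ (2 - δ) * (t : ℝ) ^ (δ - 1) + N * (C3 * sT q N d) := by
    intro t ht
    rw [Finset.mem_Icc] at ht
    have htpos : (0 : ℝ) < t := by exact_mod_cast (by omega : 0 < t)
    have ha := a4_nonneg q t
    by_cases h64 : 64 * t ≤ N
    · have k1 := h1 N t q d ht.1 h64 hR
      have k2 := h2 N (16 * t) q (by omega) (by omega) hR
      have hx : (t : ℝ) / N ≤ ((16 * t : ℕ) : ℝ) / N := by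
        apply div_le_div_of_nonneg_right _ hNpos.le
        push_cast
        linarith
      have hx1 : ((16 * t : ℕ) : ℝ) / N ≤ 1 := by
        rw [div_le_one hNpos]
        exact_mod_cast (by omega : 16 * t ≤ N)
      have hx0 : 0 < (t : ℝ) / N := by positivity
      have k3 : ((t : ℝ) / N) ^ (2 - δ) ≤ C2 * Pr q (BlockPiv N (16 * t)) := by
        calc ((t : ℝ) / N) ^ (2 - δ) ≤ (((16 * t : ℕ) : ℝ) / N) ^ (2 - δ) :=
              Real.rpow_le_rpow hx0.le hx (by linarith)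
          _ ≤ (((16 * t : ℕ) : ℝ) / N) ^ (2 - δ0) :=
              Real.rpow_le_rpow_of_exponent_ge (hx0.trans_le hx) hx1 (by linarith)
          _ ≤ _ := k2
      have k4 : a4 q t * ((t : ℝ) / N) ^ (2 - δ) ≤ C1 * C2 * sT q N d := by
        calc a4 q t * ((t : ℝ) / N) ^ (2 - δ) ≤ a4 q t * (C2 * Pr q (BlockPiv N (16 * t))) :=
              mul_le_mul_of_nonneg_left k3 ha
          _ = C2 * (a4 q t * Pr q (BlockPiv N (16 * t))) := by ring
          _ ≤ C2 * (C1 * sT q N d) := mul_le_mul_of_nonneg_left k1 hC2.le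
          _ = _ := by ring
      have hN2 : 0 < (N : ℝ) ^ (2 - δ) := by positivity
      have ht2 : 0 < (t : ℝ) ^ (δ - 1) := by positivity
      have k5 : (t : ℝ) * a4 q t =
          a4 q t * ((t : ℝ) / N) ^ (2 - δ) * (N : ℝ) ^ (2 - δ) * (t : ℝ) ^ (δ - 1) := by
        rw [Real.div_rpow htpos.le hNpos.le]
        have e1 : (t : ℝ) ^ (2 - δ) * (t : ℝ) ^ (δ - 1) = t := by
          rw [← Real.rpow_add htpos]
          have : 2 - δ + (δ - 1) = 1 := by ring
          rw [this, Real.rpow_one]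
        calc (t : ℝ) * a4 q t = a4 q t * ((t : ℝ) ^ (2 - δ) * (t : ℝ) ^ (δ - 1)) := by
              rw [e1]; ring
          _ = _ := by
              field_simp
      rw [k5]
      have k6 : a4 q t * ((t : ℝ) / N) ^ (2 - δ) * (N : ℝ) ^ (2 - δ) * (t : ℝ) ^ (δ - 1) ≤
          C1 * C2 * sT q N d * (N : ℝ) ^ (2 - δ) * (t : ℝ) ^ (δ - 1) := by
        gcongr
      have k7 : 0 ≤ N * (C3 * sT q N d) := by positivity
      linarith
    · have k1 := h3 N q d hN hR
      have k2 := a4_anti q (by omega : 1 ≤ N / 64) (by omega : N / 64 ≤ t)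
      have k3 : (t : ℝ) * a4 q t ≤ N * (C3 * sT q N d) := by
        have ht' : (t : ℝ) ≤ N := by exact_mod_cast ht.2
        exact mul_le_mul ht' (k2.trans k1) ha hNpos.le
      have k4 : 0 ≤ C1 * C2 * sT q N d * (N : ℝ) ^ (2 - δ) * (t : ℝ) ^ (δ - 1) := by positivity
      linarith
  calc ∑ t ∈ Finset.Icc 1 N, (t : ℝ) * a4 q t
      ≤ ∑ t ∈ Finset.Icc 1 N, (C1 * C2 * sT q N d * (N : ℝ) ^ (2 - δ) * (t : ℝ) ^ (δ - 1) +
          N * (C3 * sT q N d)) := Finset.sum_le_sum hterm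
    _ = C1 * C2 * sT q N d * (N : ℝ) ^ (2 - δ) * ∑ t ∈ Finset.Icc 1 N, (t : ℝ) ^ (δ - 1) +
          N * (N * (C3 * sT q N d)) := by
        rw [Finset.sum_add_distrib, ← Finset.mul_sum, Finset.sum_const, Nat.card_Icc,
          Nat.add_sub_cancel, nsmul_eq_mul]
    _ ≤ C1 * C2 * sT q N d * (N : ℝ) ^ (2 - δ) * ((N : ℝ) ^ δ / δ) +
          N * (N * (C3 * sT q N d)) := by
        gcongr
        exact Sum_rpow δ hδpos hδ1 N
    _ = (C1 * C2 / δ + C3) * ((N : ℝ) ^ 2 * sT q N d) := by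
        have e : (N : ℝ) ^ (2 - δ) * (N : ℝ) ^ δ = (N : ℝ) ^ 2 := by
          rw [← Real.rpow_add hNpos, sub_add_cancel, Real.rpow_two]
        calc C1 * C2 * sT q N d * (N : ℝ) ^ (2 - δ) * ((N : ℝ) ^ δ / δ) +
            N * (N * (C3 * sT q N d)) = C1 * C2 * sT q N d * ((N : ℝ) ^ (2 - δ) * (N : ℝ) ^ δ) / δ +
            N * (N * (C3 * sT q N d)) := by ring
          _ = _ := by rw [e]; ring

theorem Sum_card_tEdges (N : ℕ) : ((tEdges N).card : ℝ) = 2 * (N : ℝ) ^ 2 := by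
  unfold tEdges
  rw [Finset.card_product, Finset.card_product, Int.card_Ico, Finset.card_univ, Fintype.card_bool]
  have h : ((N : ℤ) - 0).toNat = N := by omega
  rw [h]
  push_cast
  ring

theorem Sum_card_small (N : ℕ) :
    (((tEdges N).filter fun f => dist0 N f < 8).card : ℝ) ≤ 450 := by
  classical
  have hsub : ((tEdges N).filter fun f => dist0 N f < 8) ⊆
      eRect (mid N - (7 : ℕ)) (mid N + (7 : ℕ)) (mid N - (7 : ℕ)) (mid N + (7 : ℕ)) := by
    intro f hf
    rw [Finset.mem_filter] at hf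
    have h1 := hf.2
    unfold dist0 at h1
    rw [mem_eRect]
    unfold src rect
    simp only [Set.mem_ofPred_eq]
    omega
  have h1 := Finset.card_le_card hsub
  rw [Sum_card_eRect] at h1
  have h2 : 2 * (2 * 7 + 1) ^ 2 = 450 := by norm_num
  rw [h2] at h1
  exact_mod_cast h1

theorem Sum_dist0_le {N : ℕ} {f : Edge} (hf : f ∈ tEdges N) : dist0 N f ≤ N := by
  unfold tEdges at hf
  simp only [Finset.mem_product, Finset.mem_Ico, Finset.mem_univ, and_true] at hf
  unfold dist0 mid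
  omega

/-- Sum over the edges by distance. -/
theorem Sum_by_dist (N : ℕ) (h : ℕ → ℝ) (hh : ∀ t, 0 ≤ h t) :
    ∑ f ∈ (tEdges N).filter (fun f => 8 ≤ dist0 N f), h (dist0 N f) ≤
      ∑ t ∈ Finset.Icc 8 N, 16 * t * h t := by
  classical
  have hmaps : ∀ f ∈ (tEdges N).filter (fun f => 8 ≤ dist0 N f), dist0 N f ∈ Finset.Icc 8 N := by
    intro f hf
    rw [Finset.mem_filter] at hf
    rw [Finset.mem_Icc]
    exact ⟨hf.2, Sum_dist0_le hf.1⟩
  rw [← Finset.sum_fiberwise_of_maps_to hmaps]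
  refine Finset.sum_le_sum fun t ht => ?_
  rw [Finset.mem_Icc] at ht
  have h1 : ∑ f ∈ ((tEdges N).filter (fun f => 8 ≤ dist0 N f)).filter (fun f => dist0 N f = t),
      h (dist0 N f) = (((tEdges N).filter (fun f => 8 ≤ dist0 N f)).filter
        (fun f => dist0 N f = t)).card * h t := by
    rw [← nsmul_eq_mul]
    refine Finset.sum_eq_card_nsmul fun f hf => ?_
    rw [(Finset.mem_filter.1 hf).2]
  rw [h1]
  refine mul_le_mul_of_nonneg_right ?_ (hh t)
  refine le_trans ?_ (card_dist0 N t (by omega))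
  have h2 : ((tEdges N).filter (fun f => 8 ≤ dist0 N f)).filter (fun f => dist0 N f = t) ⊆
      (tEdges N).filter (fun f => dist0 N f = t) :=
    Finset.filter_subset_filter _ (Finset.filter_subset _ _)
  exact_mod_cast Finset.card_le_card h2

theorem Sum_eight (N : ℕ) (h : ℕ → ℝ) (hh : ∀ t, 0 ≤ h t) :
    ∑ t ∈ Finset.Icc 8 N, (t : ℝ) * h (t / 8) ≤ 120 * ∑ r ∈ Finset.Icc 1 N, (r : ℝ) * h r := by
  classical
  have hmaps : ∀ t ∈ Finset.Icc 8 N, t / 8 ∈ Finset.Icc 1 N := by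
    intro t ht
    rw [Finset.mem_Icc] at ht ⊢
    omega
  rw [← Finset.sum_fiberwise_of_maps_to hmaps, Finset.mul_sum]
  refine Finset.sum_le_sum fun r hr => ?_
  rw [Finset.mem_Icc] at hr
  have h1 : ∀ t ∈ (Finset.Icc 8 N).filter (fun t => t / 8 = r), (t : ℝ) * h (t / 8) ≤
      15 * r * h r := by
    intro t ht
    rw [Finset.mem_filter] at ht
    rw [ht.2]
    refine mul_le_mul_of_nonneg_right ?_ (hh r)
    have : t ≤ 15 * r := by omega
    exact_mod_cast this
  have h2 : ((Finset.Icc 8 N).filter (fun t => t / 8 = r)).card ≤ 8 := by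
    have hsub : (Finset.Icc 8 N).filter (fun t => t / 8 = r) ⊆ Finset.Icc (8 * r) (8 * r + 7) := by
      intro t ht
      rw [Finset.mem_filter] at ht
      rw [Finset.mem_Icc]
      omega
    have h3 := Finset.card_le_card hsub
    rw [Nat.card_Icc] at h3
    omega
  calc ∑ t ∈ (Finset.Icc 8 N).filter (fun t => t / 8 = r), (t : ℝ) * h (t / 8)
      ≤ ∑ t ∈ (Finset.Icc 8 N).filter (fun t => t / 8 = r), 15 * r * h r := Finset.sum_le_sum h1
    _ = ((Finset.Icc 8 N).filter (fun t => t / 8 = r)).card * (15 * r * h r) := by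
        rw [Finset.sum_const, nsmul_eq_mul]
    _ ≤ 8 * (15 * r * h r) := by
        refine mul_le_mul_of_nonneg_right (by exact_mod_cast h2) ?_
        have := hh r
        positivity
    _ = _ := by ring

theorem sum_joint_ctr (hGL : GLTorus) (hBL : BlockLow) : ∀ c : ℝ, 0 < c → ∃ C : ℝ, 0 < C ∧
    ∀ (N : ℕ) (q : I) (d : Bool), 64 ≤ N → 1 / 4 ≤ (q : ℝ) → (q : ℝ) ≤ 3 / 4 → RSWreg c N q →
      ∑ f ∈ (tEdges N).erase (ctr N d), Pr q (Joint (Wind N) (ctr N d) f) ≤
        C * ((N : ℝ) ^ 2 * sT q N d ^ 2) := by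
  classical
  intro c hc
  obtain ⟨C3, hC3, h3⟩ := a4_le_sT hGL hBL c hc
  obtain ⟨C4, hC4, h4⟩ := sum_a4 hGL hBL c hc
  obtain ⟨C1, hC1, h1⟩ := hGL c hc
  refine ⟨3600 * 4 ^ 24 * C4 + 1920 * C1 * C4 + 2 * C3 ^ 2, by positivity,
    fun N q d hN hq1 hq2 hR => ?_⟩
  have hs := sT_nonneg q N d
  have hNpos : (0 : ℝ) < N := by exact_mod_cast (by omega : 0 < N)
  have hN1 : 1 ≤ N := by omega
  have hsum := h4 N q d hN hR
  -- lower bound of the influence
  have hlow : 1 ≤ 4 ^ 24 * C4 * ((N : ℝ) ^ 2 * sT q N d) := by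
    have k1 := a4_one q hq1 hq2
    have k2 : a4 q 1 ≤ ∑ t ∈ Finset.Icc 1 N, (t : ℝ) * a4 q t := by
      have k3 := Finset.single_le_sum (f := fun t : ℕ => (t : ℝ) * a4 q t)
        (fun t _ => mul_nonneg (Nat.cast_nonneg t) (a4_nonneg q t))
        (Finset.mem_Icc.2 ⟨le_rfl, hN1⟩ : 1 ∈ Finset.Icc 1 N)
      simpa using k3
    have k4 : (1 / 4 : ℝ) ^ 24 ≤ C4 * ((N : ℝ) ^ 2 * sT q N d) := k1.trans (k2.trans hsum)
    calc (1 : ℝ) = 4 ^ 24 * (1 / 4 : ℝ) ^ 24 := by norm_num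
      _ ≤ 4 ^ 24 * (C4 * ((N : ℝ) ^ 2 * sT q N d)) :=
          mul_le_mul_of_nonneg_left k4 (by norm_num)
      _ = _ := by ring
  -- bound of one term
  have hterm : ∀ f ∈ (tEdges N).erase (ctr N d), Pr q (Joint (Wind N) (ctr N d) f) ≤
      (if dist0 N f < 8 then 8 * sT q N d else 0) +
      (if 8 ≤ dist0 N f then C1 * sT q N d * a4 q (dist0 N f / 8) else 0) +
        C3 ^ 2 * sT q N d ^ 2 := by
    intro f hf
    rw [Finset.mem_erase] at hf
    have ha := a4_nonneg q (dist0 N f / 8)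
    have hC3s : 0 ≤ C3 ^ 2 * sT q N d ^ 2 := by positivity
    by_cases h8 : dist0 N f < 8
    · rw [if_pos h8, if_neg (by omega)]
      have k1 := Pr_Joint_le (localOn_wind hN1) (incr_wind N) (Ne.symm hf.1) q hq1 hq2
      have k2 : pivot q (Wind N) (ctr N d) = sT q N d := rfl
      rw [k2] at k1
      linarith
    · rw [if_neg h8, if_pos (by omega)]
      obtain ⟨r, hr⟩ : ∃ r, r = dist0 N f / 8 := ⟨_, rfl⟩
      rw [← hr] at ha ⊢
      by_cases h64 : 64 * r ≤ N
      · have k1 := Pr_joint_near q (d := d) hf.2 (by omega : 1 ≤ r)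
          (by omega : 2 * r < dist0 N f) (by omega : dist0 N f + r ≤ 16 * r) (by omega)
        have k2 := h1 N r q d (by omega) h64 hR
        have k3 : a4 q r ^ 2 * Pr q (BlockPiv N (16 * r)) ≤ C1 * sT q N d * a4 q r := by
          calc a4 q r ^ 2 * Pr q (BlockPiv N (16 * r))
              = a4 q r * (a4 q r * Pr q (BlockPiv N (16 * r))) := by ring
            _ ≤ a4 q r * (C1 * sT q N d) := mul_le_mul_of_nonneg_left k2 ha
            _ = _ := by ring
        linarith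
      · have k1 := Pr_joint_far q (d := d) hf.2 (by omega : 1 ≤ N / 64)
          (by omega : 2 * (N / 64) < dist0 N f) (by omega)
        have k2 := h3 N q d hN hR
        have k3 := a4_nonneg q (N / 64)
        have k4 : a4 q (N / 64) ^ 2 ≤ (C3 * sT q N d) ^ 2 := pow_le_pow_left₀ k3 k2 2
        have k5 : 0 ≤ C1 * sT q N d * a4 q r := by positivity
        rw [mul_pow] at k4
        linarith
  have hsub : (tEdges N).erase (ctr N d) ⊆ tEdges N := Finset.erase_subset _ _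
  have hg0 : ∀ f ∈ tEdges N, f ∉ (tEdges N).erase (ctr N d) → 0 ≤
      (if dist0 N f < 8 then 8 * sT q N d else 0) +
      (if 8 ≤ dist0 N f then C1 * sT q N d * a4 q (dist0 N f / 8) else 0) +
        C3 ^ 2 * sT q N d ^ 2 := by
    intro f _ _
    have ha := a4_nonneg q (dist0 N f / 8)
    split_ifs <;> positivity
  have p1 : ∑ f ∈ tEdges N, (if dist0 N f < 8 then 8 * sT q N d else 0) ≤
      3600 * sT q N d := by
    rw [← Finset.sum_filter, Finset.sum_const, nsmul_eq_mul]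
    have k := Sum_card_small N
    nlinarith
  have p2 : ∑ f ∈ tEdges N, (if 8 ≤ dist0 N f then C1 * sT q N d * a4 q (dist0 N f / 8) else 0) ≤
      1920 * C1 * C4 * ((N : ℝ) ^ 2 * sT q N d ^ 2) := by
    rw [← Finset.sum_filter, ← Finset.mul_sum]
    have k1 := Sum_by_dist N (fun t => a4 q (t / 8)) (fun t => a4_nonneg q _)
    have k2 := Sum_eight N (fun t => a4 q t) (fun t => a4_nonneg q _)
    have k3 : ∑ t ∈ Finset.Icc 8 N, 16 * (t : ℝ) * a4 q (t / 8) =
        16 * ∑ t ∈ Finset.Icc 8 N, (t : ℝ) * a4 q (t / 8) := by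
      rw [Finset.mul_sum]
      exact Finset.sum_congr rfl fun t _ => by ring
    have k4 : ∑ f ∈ (tEdges N).filter (fun f => 8 ≤ dist0 N f), a4 q (dist0 N f / 8) ≤
        1920 * (C4 * ((N : ℝ) ^ 2 * sT q N d)) := by
      refine k1.trans ?_
      rw [k3]
      linarith
    calc C1 * sT q N d * ∑ f ∈ (tEdges N).filter (fun f => 8 ≤ dist0 N f), a4 q (dist0 N f / 8)
        ≤ C1 * sT q N d * (1920 * (C4 * ((N : ℝ) ^ 2 * sT q N d))) :=
          mul_le_mul_of_nonneg_left k4 (by positivity)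
      _ = _ := by ring
  have p3 : ∑ _f ∈ tEdges N, C3 ^ 2 * sT q N d ^ 2 = 2 * C3 ^ 2 * ((N : ℝ) ^ 2 * sT q N d ^ 2) := by
    rw [Finset.sum_const, nsmul_eq_mul, Sum_card_tEdges]
    ring
  have p4 : 3600 * sT q N d ≤ 3600 * 4 ^ 24 * C4 * ((N : ℝ) ^ 2 * sT q N d ^ 2) := by
    calc 3600 * sT q N d = 3600 * sT q N d * 1 := (mul_one _).symm
      _ ≤ 3600 * sT q N d * (4 ^ 24 * C4 * ((N : ℝ) ^ 2 * sT q N d)) :=
          mul_le_mul_of_nonneg_left hlow (by positivity)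
      _ = _ := by ring
  calc ∑ f ∈ (tEdges N).erase (ctr N d), Pr q (Joint (Wind N) (ctr N d) f)
      ≤ ∑ f ∈ (tEdges N).erase (ctr N d), ((if dist0 N f < 8 then 8 * sT q N d else 0) +
        (if 8 ≤ dist0 N f then C1 * sT q N d * a4 q (dist0 N f / 8) else 0) +
        C3 ^ 2 * sT q N d ^ 2) := Finset.sum_le_sum hterm
    _ ≤ ∑ f ∈ tEdges N, ((if dist0 N f < 8 then 8 * sT q N d else 0) +
        (if 8 ≤ dist0 N f then C1 * sT q N d * a4 q (dist0 N f / 8) else 0) +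
        C3 ^ 2 * sT q N d ^ 2) := Finset.sum_le_sum_of_subset_of_nonneg hsub hg0
    _ = ∑ f ∈ tEdges N, (if dist0 N f < 8 then 8 * sT q N d else 0) +
        ∑ f ∈ tEdges N, (if 8 ≤ dist0 N f then C1 * sT q N d * a4 q (dist0 N f / 8) else 0) +
        ∑ _f ∈ tEdges N, C3 ^ 2 * sT q N d ^ 2 := by
        rw [Finset.sum_add_distrib, Finset.sum_add_distrib]
    _ ≤ 3600 * 4 ^ 24 * C4 * ((N : ℝ) ^ 2 * sT q N d ^ 2) +
        1920 * C1 * C4 * ((N : ℝ) ^ 2 * sT q N d ^ 2) +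
        2 * C3 ^ 2 * ((N : ℝ) ^ 2 * sT q N d ^ 2) := by
        rw [p3]
        linarith
    _ = _ := by ring

end Pool.Agent.H61.NC

end

section

/-!
# Extension of separated events along abstract corridors
-/

open MeasureTheory ProbabilityTheory unitInterval

namespace Pool.Agent.H59.EX

open Pool.Agent.H89.Perc Pool.Agent.H61.NC

/-! ### Rectangles are connected -/

private theorem mc_h {S : Set Vert} {y : ℤ} (x : ℤ) (n : ℕ)
    (h : ∀ z : ℤ, x ≤ z → z ≤ x + n → ((z, y) : Vert) ∈ S) : Conn allOpen S (x, y) (x + n, y) := by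
  induction n with
  | zero =>
    have h0 := h x le_rfl (by simp)
    simpa using (Conn.refl h0 : Conn allOpen S (x, y) (x, y))
  | succ n ih =>
    have h1 := ih fun z hz hz' => h z hz (by push_cast; omega)
    refine h1.tail ⟨h _ (by omega) (by push_cast; omega), h _ (by push_cast; omega) le_rfl,
      (x + n, y, false), Or.inl ⟨rfl, ?_⟩, rfl⟩
    simp [tgt]
    ring

private theorem mc_v {S : Set Vert} {x : ℤ} (y : ℤ) (n : ℕ)
    (h : ∀ z : ℤ, y ≤ z → z ≤ y + n → ((x, z) : Vert) ∈ S) : Conn allOpen S (x, y) (x, y + n) := by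
  induction n with
  | zero =>
    have h0 := h y le_rfl (by simp)
    simpa using (Conn.refl h0 : Conn allOpen S (x, y) (x, y))
  | succ n ih =>
    have h1 := ih fun z hz hz' => h z hz (by push_cast; omega)
    refine h1.tail ⟨h _ (by omega) (by push_cast; omega), h _ (by push_cast; omega) le_rfl,
      (x, y + n, true), Or.inl ⟨rfl, ?_⟩, rfl⟩
    simp [tgt]
    ring

private theorem mc_h' {S : Set Vert} {x x' y : ℤ}
    (h : ∀ z : ℤ, min x x' ≤ z → z ≤ max x x' → ((z, y) : Vert) ∈ S) :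
    Conn allOpen S (x, y) (x', y) := by
  rcases le_total x x' with hx | hx
  · have h1 := mc_h (S := S) (y := y) x (x' - x).toNat fun z hz hz' => h z (by omega) (by omega)
    rwa [Int.toNat_of_nonneg (by omega), add_sub_cancel] at h1
  · have h1 := mc_h (S := S) (y := y) x' (x - x').toNat fun z hz hz' => h z (by omega) (by omega)
    rw [Int.toNat_of_nonneg (by omega), add_sub_cancel] at h1
    exact h1.symm

private theorem mc_v' {S : Set Vert} {x y y' : ℤ}
    (h : ∀ z : ℤ, min y y' ≤ z → z ≤ max y y' → ((x, z) : Vert) ∈ S) :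
    Conn allOpen S (x, y) (x, y') := by
  rcases le_total y y' with hx | hx
  · have h1 := mc_v (S := S) (x := x) y (y' - y).toNat fun z hz hz' => h z (by omega) (by omega)
    rwa [Int.toNat_of_nonneg (by omega), add_sub_cancel] at h1
  · have h1 := mc_v (S := S) (x := x) y' (y - y').toNat fun z hz hz' => h z (by omega) (by omega)
    rw [Int.toNat_of_nonneg (by omega), add_sub_cancel] at h1
    exact h1.symm

private theorem mc_rect {a b c d : ℤ} {u v : Vert} (hu : u ∈ rect a b c d)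
    (hv : v ∈ rect a b c d) : Conn allOpen (rect a b c d) u v := by
  obtain ⟨u1, u2⟩ := u
  obtain ⟨v1, v2⟩ := v
  simp only [rect, Set.mem_ofPred_eq] at hu hv
  have h1 : Conn allOpen (rect a b c d) (u1, u2) (v1, u2) := mc_h' fun z hz hz' => by
    simp only [rect, Set.mem_ofPred_eq]
    omega
  have h2 : Conn allOpen (rect a b c d) (v1, u2) (v1, v2) := mc_v' fun z hz hz' => by
    simp only [rect, Set.mem_ofPred_eq]
    omega
  exact h1.trans h2

private theorem mc_T {d : Side} {k : ℕ} {u v : Vert} (hu : u ∈ T d k) (hv : v ∈ T d k) :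
    Conn allOpen (T d k) u v := by
  cases d <;> exact mc_rect hu hv

/-! ### Elementary geometry -/

private theorem mc_ball_symm {a b : Vert} {r : ℕ} (h : a ∈ ball b r) : b ∈ ball a r := by
  simp only [mem_ball] at h ⊢
  omega

private theorem mc_ball_mono {a : Vert} {r r' : ℕ} (h : r ≤ r') : ball a r ⊆ ball a r' := by
  intro b hb
  simp only [mem_ball] at hb ⊢
  omega

private theorem mc_T_ball {d : Side} {k : ℕ} : T d k ⊆ ball 0 (36 * k) := by
  intro a ha
  cases d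
  all_goals
    simp only [T, rect, Set.mem_ofPred_eq] at ha
    simp only [mem_ball, Prod.fst_zero, Prod.snd_zero, Nat.cast_mul, Nat.cast_ofNat]
    omega

private theorem mc_T_far {d : Side} {k : ℕ} (hk : 1 ≤ k) {a : Vert} (ha : a ∈ T d k) :
    a ∉ ball 0 2 := by
  intro hb
  simp only [mem_ball, Prod.fst_zero, Prod.snd_zero, Nat.cast_ofNat] at hb
  cases d
  all_goals
    simp only [T, rect, Set.mem_ofPred_eq] at ha
    omega

private theorem mc_Mouth_ball {d : Side} {k : ℕ} : Mouth d k ⊆ ball 0 (32 * k) := by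
  intro a ha
  cases d
  all_goals
    simp only [Mouth, rect, Set.mem_ofPred_eq] at ha
    simp only [mem_ball, Prod.fst_zero, Prod.snd_zero, Nat.cast_mul, Nat.cast_ofNat]
    omega

/-- One cluster is confined (abstract form). -/
private theorem mc_conf {k ρ : ℕ} {ω cut : Config} {Dm C C' X Y Mx My : Set Vert}
    {G : Finset Vert} {t : Set Edge}
    (ht : t = touch Dm (X ∪ Y) ∪ inE (C ∪ C')) (hk : 1 ≤ k) (hρk : 4 * ρ ≤ k)
    (hcut : ∀ e, cut e = true → ω e = true)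
    (hX : ∀ a b e, Joins e a b → cut e = true → a ∈ X → b ∈ Dm → b ∈ X)
    (hY : ∀ a b e, Joins e a b → cut e = true → a ∈ Y → b ∈ Dm → b ∈ Y)
    (hXD : X ⊆ Dm) (hYD : Y ⊆ Dm) (hXY : ∀ a ∈ X, a ∉ Y)
    (hCX : ∀ a ∈ C, a ∈ Dm → a ∈ X) (hCY : ∀ a ∈ C', a ∈ Dm → a ∈ Y)
    (hXe : ∀ a b e, Joins e a b → a ∈ X → b ∉ Dm → a ∈ C ∪ Mx)
    (hYe : ∀ a b e, Joins e a b → a ∈ Y → b ∉ Dm → a ∈ C' ∪ My)
    (hsep : ∀ a ∈ C ∪ Mx, ∀ b ∈ C' ∪ My, b ∉ ball a k)
    (hG : ∀ a ∈ C ∪ Mx, ∃ g ∈ G, a ∈ ball g ρ)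
    (hseal : ω ∈ Seal G ρ t) {x z : Vert} (hx : x ∈ X)
    (hc : Conn (fillV (C ∪ C') cut) Set.univ x z) :
    z ∈ X ∪ C ∨ (z ∉ Y ∪ C' ∧ ∃ a ∈ C ∪ Mx, z ∈ ball a (4 * ρ)) := by
  have hadj : ∀ a b e, Joins e a b → a ∈ C ∪ Mx → b ∉ C' ∪ My := by
    intro a b e hj ha hb
    exact hsep a ha b hb (mc_ball_mono hk (ball_of_joins hj.symm))
  refine seal_confine (ω := ω) (W := Set.univ) (S := X ∪ C) (F := Y ∪ C') (Ex := C ∪ Mx) (t := t)
    (G := G) ?_ hseal hG ?_ ?_ ?_ ?_ (Or.inl hx) hc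
  · intro e he ho
    rcases fillV_true.1 ho with h | h
    · exact hcut e h
    · refine absurd ?_ he
      rw [ht]
      exact Or.inr h
  · intro a b e hj ho _ _ ha hb
    rcases fillV_true.1 ho with h | h
    · -- open in `cut`
      have hbX : b ∉ X := fun h' => hb (Or.inl h')
      have hbC : b ∉ C := fun h' => hb (Or.inr h')
      by_cases haX : a ∈ X
      · have hbD : b ∉ Dm := fun h' => hbX (hX a b e hj h haX h')
        have haE := hXe a b e hj haX hbD
        have hbC' := hadj a b e hj haE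
        refine ⟨haE, ?_, ?_⟩
        · rintro (h' | h')
          · exact hbD (hYD h')
          · exact hbC' (Or.inl h')
        · rw [ht]
          rintro (h' | h')
          · exact hbD ((touch_of_joins hj).1 h').1.2
          · rcases ((inE_of_joins hj).1 h').2 with h' | h'
            · exact hbC h'
            · exact hbC' (Or.inl h')
      · have haC : a ∈ C := ha.resolve_left haX
        have haD : a ∉ Dm := fun h' => haX (hCX a haC h')
        have hbC' := hadj a b e hj (Or.inl haC)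
        refine ⟨Or.inl haC, ?_, ?_⟩
        · rintro (h' | h')
          · exact hbC' (hYe b a e hj.symm h' haD)
          · exact hbC' (Or.inl h')
        · rw [ht]
          rintro (h' | h')
          · exact haD ((touch_of_joins hj).1 h').1.1
          · rcases ((inE_of_joins hj).1 h').2 with h' | h'
            · exact hbC h'
            · exact hbC' (Or.inl h')
    · -- a filled edge
      exfalso
      obtain ⟨h1, h2⟩ := (inE_of_joins hj).1 h
      have hbC' : b ∈ C' := h2.resolve_left fun h' => hb (Or.inr h')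
      rcases h1 with h1 | h1
      · exact hadj a b e hj (Or.inl h1) (Or.inl hbC')
      · rcases ha with ha | ha
        · exact hXY a ha (hCY a h1 (hXD ha))
        · exact hadj a b e hj (Or.inl ha) (Or.inl hbC')
  · intro a b e hj ho _ _ ha1 ha2 hb x' hx' hbx
    have hnear : b ∈ ball x' k := mc_ball_mono hρk hbx
    rcases hb with hb | hb
    · rcases fillV_true.1 ho with h | h
      · have haD : a ∉ Dm := fun h' => ha2 (Or.inl (hY b a e hj.symm h hb h'))
        exact hsep x' hx' b (hYe b a e hj.symm hb haD) hnear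
      · rcases ((inE_of_joins hj).1 h).1 with h' | h'
        · exact ha1 (Or.inr h')
        · exact ha2 (Or.inr h')
    · exact hsep x' hx' b (Or.inl hb) hnear
  · intro a b e hj ho _ _ ha1 ha2 hb1 hb2
    rw [ht]
    rintro (h | h)
    · rcases ((touch_of_joins hj).1 h).2 with (h | h) | (h | h)
      · exact ha1 (Or.inl h)
      · exact ha2 (Or.inl h)
      · exact hb1 (Or.inl h)
      · exact hb2 (Or.inl h)
    · rcases ((inE_of_joins hj).1 h).1 with h' | h'
      · exact ha1 (Or.inr h')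
      · exact ha2 (Or.inr h')
  · intro a b e hj ho _ _ ha1 ha2 hb
    have hcute : cut e = true := by
      rcases fillV_true.1 ho with h | h
      · exact h
      · exfalso
        rcases ((inE_of_joins hj).1 h).1 with h' | h'
        · exact ha1 (Or.inr h')
        · exact ha2 (Or.inr h')
    rw [ht]
    rintro (h | h)
    · obtain ⟨haD, hbD⟩ := ((touch_of_joins hj).1 h).1
      have hbY : b ∈ Y := by
        rcases hb with hb | hb
        · exact hb
        · exact hCY b hb hbD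
      exact ha2 (Or.inl (hY b a e hj.symm hcute hbY haD))
    · rcases ((inE_of_joins hj).1 h).1 with h' | h'
      · exact ha1 (Or.inr h')
      · exact ha2 (Or.inr h')

/-- Facts about one side of a separated event and its corridor. -/
private theorem mc_step {s : Src} {d d' : Side} {k : ℕ} {ω : Config} {x₀ : Vert} {a b : Vert}
    {e : Edge} (hj : Joins e a b) (ho : s.cut ω e = true)
    (ha : a ∈ clus (fillV (T d k ∪ T d' k) (s.cut ω)) (dom d d' k) {x₀}) (hb : b ∈ dom d d' k) :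
    b ∈ clus (fillV (T d k ∪ T d' k) (s.cut ω)) (dom d d' k) {x₀} :=
  clus_step ha ⟨clus_sub ha, hb, e, hj, fillV_true.2 (Or.inl ho)⟩

private theorem mc_exit {d d' : Side} {k : ℕ} {a b : Vert} {e : Edge} (hj : Joins e a b)
    (ha : a ∈ dom d d' k) (hb : b ∉ dom d d' k) :
    a ∈ sphere 0 (32 * k) ∨ a ∈ T d k ∨ a ∈ T d' k := by
  rcases ha with ha | ha | ha
  · exact Or.inl (mem_sphere_of_joins hj ha fun h => hb (Or.inl h))
  · exact Or.inr (Or.inl ha)
  · exact Or.inr (Or.inr ha)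

private theorem mc_dom_ball {d d' : Side} {k : ℕ} : dom d d' k ⊆ ball 0 (36 * k) := by
  rintro a (ha | ha | ha)
  · exact mc_ball_mono (by omega) ha
  · exact mc_T_ball ha
  · exact mc_T_ball ha

/-- The corridor keeps away from the source. -/
private theorem mc_corr_cut {s : Src} {d δ : Side} {k : ℕ} {C : Set Vert} {N : Set Config}
    (hk : 1 ≤ k) (hM : MoveData k d δ C N) {ω : Config} {e : Edge} (he : e ∈ inE C) :
    s.cut ω e = ω e := by
  refine cut_of_not_ball (Or.inl fun h => ?_)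
  exact mc_T_far hk (hM.inter ⟨he.1, mc_ball_mono (by omega) h⟩) h

/-- The new fence. -/
private theorem mc_fence {s : Src} {d δ : Side} {k : ℕ} {C D D' : Set Vert} {N : Set Config}
    (hk : 1 ≤ k) (hM : MoveData k d δ C N) {ω : Config} (hN : ω ∈ N) {x : Vert}
    (hf : Fence d k (s.cut ω) D x) (hD : D ∪ C ⊆ D') : Fence δ (4 * k) (s.cut ω) D' x := by
  refine fence_mono hD (fun _ h => h) (hM.hook ω hN (s.cut ω) D x (fun e he ho => ?_) hf)
  rw [mc_corr_cut hk hM he]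
  exact ho

private theorem mc_C_dom' {d δ δ' : Side} {k : ℕ} {C : Set Vert} {N : Set Config}
    (hM : MoveData k d δ C N) : C ⊆ ball 0 (32 * (4 * k)) ∪ (T δ (4 * k) ∪ T δ' (4 * k)) := by
  intro a ha
  rcases hM.sub ha with h | h
  · exact Or.inl (mc_ball_mono (by omega) h)
  · exact Or.inr (Or.inl h)

/-- The new mouth. -/
private theorem mc_mouth {d d₁ d₂ δ : Side} {k ρ : ℕ} {C X : Set Vert} {N : Set Config}
    (hk : 1 ≤ k) (hρk : 4 * ρ ≤ k) (hM : MoveData k d δ C N) (hX : X ⊆ dom d₁ d₂ k) {v : Vert}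
    (hv : v ∈ sphere 0 (32 * (4 * k)))
    (h : v ∈ X ∪ C ∨ ∃ a ∈ C ∪ Mouth d k, v ∈ ball a (4 * ρ)) : v ∈ Mouth δ (4 * k) := by
  have e1 : 32 * (4 * k) = 128 * k := by ring
  rw [e1] at hv
  have hfar : v ∉ ball 0 (36 * k) := by
    intro hb
    have h2 := hv.2
    simp only [mem_ball, Prod.fst_zero, Prod.snd_zero] at hb h2
    push_cast at hb h2
    omega
  rcases h with (h | h) | ⟨a, ha | ha, h⟩
  · exact absurd (mc_dom_ball (hX h)) hfar
  · exact hM.mouth v hv v h self_mem_ball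
  · exact hM.mouth v hv a ha (mc_ball_mono hρk h)
  · refine absurd ?_ hfar
    have h1 := mc_Mouth_ball ha
    simp only [mem_ball, Prod.fst_zero, Prod.snd_zero] at h1 h ⊢
    push_cast at h1 h ⊢
    omega

/-- Deterministic part. -/
theorem move_det {s : Src} {d d' δ δ' : Side} {k ρ : ℕ} {C C' : Set Vert} {N N' : Set Config}
    {G : Finset Vert} (hk : 4 ≤ k) (hρ : 1 ≤ ρ) (hρk : 4 * ρ ≤ k) (hM : MoveData k d δ C N)
    (hM' : MoveData k d' δ' C' N') (hS : MoveSep k d d' C C')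
    (hG : ∀ a ∈ ball 0 (144 * k), ∃ g ∈ G, a ∈ ball g ρ) {ω : Config} (hω : ω ∈ Sep s d d' k)
    (hN : ω ∈ N) (hN' : ω ∈ N')
    (hseal : ω ∈ Seal G ρ (touch (dom d d' k) (FX s d d' k ω ∪ FY s d d' k ω) ∪ inE (C ∪ C'))) :
    ω ∈ Sep s δ δ' (4 * k) := by
  have hk1 : 1 ≤ k := by omega
  obtain ⟨hf, hf', hxy, hm, hm'⟩ := hω
  set Dm : Set Vert := dom d d' k with hDm
  set X : Set Vert := FX s d d' k ω with hXdef
  set Y : Set Vert := FY s d d' k ω with hYdef
  have hXD : X ⊆ Dm := clus_sub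
  have hYD : Y ⊆ Dm := clus_sub
  have hxD : s.x ∈ Dm := by
    obtain ⟨u, _, h⟩ := fence_mem hf
    exact h.mem_left
  have hyD : s.y ∈ Dm := by
    obtain ⟨u, _, h⟩ := fence_mem hf'
    exact h.mem_left
  have hxX : s.x ∈ X := ⟨s.x, rfl, Conn.refl hxD⟩
  have hyY : s.y ∈ Y := ⟨s.y, rfl, Conn.refl hyD⟩
  have hXY : ∀ a ∈ X, a ∉ Y := by
    intro a ha hb
    exact hxy ((mem_clus_single.1 ha).trans (mem_clus_single.1 hb).symm)
  have hTX : T d k ⊆ X := by
    intro a ha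
    obtain ⟨u, hu, hc⟩ := fence_mem hf
    refine clus_conn (a := u) ⟨s.x, rfl, hc.mono subset_rfl fun e he => fillV_true.2 (Or.inl he)⟩ ?_
    have h1 : Conn (fillV (T d k) (s.cut ω)) (dom d d' k) u a :=
      conn_fillV (fun z hz => Or.inr (Or.inl hz)) (mc_T hu ha)
    exact h1.mono subset_rfl fun e he => fillV_mono Set.subset_union_left he
  have hTY : T d' k ⊆ Y := by
    intro a ha
    obtain ⟨u, hu, hc⟩ := fence_mem hf'
    refine clus_conn (a := u) ⟨s.y, rfl, hc.mono subset_rfl fun e he => fillV_true.2 (Or.inl he)⟩ ?_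
    have h1 : Conn (fillV (T d' k) (s.cut ω)) (dom d d' k) u a :=
      conn_fillV (fun z hz => Or.inr (Or.inr hz)) (mc_T hu ha)
    exact h1.mono subset_rfl fun e he => fillV_mono Set.subset_union_right he
  have hdisj : ∀ a ∈ C, a ∉ C' := fun a ha hb => hS a (Or.inl ha) a (Or.inl hb) self_mem_ball
  have hCX : ∀ a ∈ C, a ∈ Dm → a ∈ X := by
    rintro a ha (h | h | h)
    · exact hTX (hM.inter ⟨ha, h⟩)
    · exact hTX h
    · exact absurd (hM'.T_sub h) (hdisj a ha)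
  have hCY : ∀ a ∈ C', a ∈ Dm → a ∈ Y := by
    rintro a ha (h | h | h)
    · exact hTY (hM'.inter ⟨ha, h⟩)
    · exact absurd ha (hdisj a (hM.T_sub h))
    · exact hTY h
  have hXe : ∀ a b e, Joins e a b → a ∈ X → b ∉ Dm → a ∈ C ∪ Mouth d k := by
    intro a b e hj ha hb
    rcases mc_exit hj (hXD ha) hb with h | h | h
    · exact Or.inr (hm a h (mem_clus_single.1 ha))
    · exact Or.inl (hM.T_sub h)
    · exact absurd (hTY h) (hXY a ha)
  have hYe : ∀ a b e, Joins e a b → a ∈ Y → b ∉ Dm → a ∈ C' ∪ Mouth d' k := by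
    intro a b e hj ha hb
    rcases mc_exit hj (hYD ha) hb with h | h | h
    · exact Or.inr (hm' a h (mem_clus_single.1 ha))
    · exact absurd ha (hXY a (hTX h))
    · exact Or.inl (hM'.T_sub h)
  have hC144 : ∀ {dd δδ : Side} {CC : Set Vert} {NN : Set Config}, MoveData k dd δδ CC NN →
      ∀ a ∈ CC ∪ Mouth dd k, a ∈ ball (0 : Vert) (144 * k) := by
    rintro dd δδ CC NN hMM a (ha | ha)
    · rcases hMM.sub ha with h | h
      · exact mc_ball_mono (by omega) h
      · exact mc_ball_mono (by omega) (mc_T_ball h)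
    · exact mc_ball_mono (by omega) (mc_Mouth_ball ha)
  have confX : ∀ z, Conn (fillV (C ∪ C') (s.cut ω)) Set.univ s.x z →
      z ∈ X ∪ C ∨ (z ∉ Y ∪ C' ∧ ∃ a ∈ C ∪ Mouth d k, z ∈ ball a (4 * ρ)) := by
    intro z hz
    exact mc_conf (Dm := Dm) (My := Mouth d' k) rfl hk1 hρk (fun e he => cut_le he)
      (fun a b e hj ho ha hb => mc_step hj ho ha hb) (fun a b e hj ho ha hb => mc_step hj ho ha hb)
      hXD hYD hXY hCX hCY hXe hYe hS (fun a ha => hG a (hC144 hM a ha)) hseal hxX hz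
  have confY : ∀ z, Conn (fillV (C ∪ C') (s.cut ω)) Set.univ s.y z →
      z ∈ Y ∪ C' ∨ (z ∉ X ∪ C ∧ ∃ a ∈ C' ∪ Mouth d' k, z ∈ ball a (4 * ρ)) := by
    intro z hz
    rw [Set.union_comm C C'] at hz
    refine mc_conf (Dm := Dm) (X := Y) (Y := X) (C := C') (C' := C) (Mx := Mouth d' k)
      (My := Mouth d k) (t := touch Dm (X ∪ Y) ∪ inE (C ∪ C')) ?_ hk1 hρk (fun e he => cut_le he)
      (fun a b e hj ho ha hb => mc_step hj ho ha hb) (fun a b e hj ho ha hb => mc_step hj ho ha hb)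
      hYD hXD (fun a ha hb => hXY a hb ha) hCY hCX hYe hXe
      (fun a ha b hb h => hS b hb a ha (mc_ball_symm h))
      (fun a ha => hG a (hC144 hM' a ha)) hseal hyY hz
    rw [Set.union_comm Y X, Set.union_comm C' C]
  -- comparison of the new filled configuration with the filled corridors
  have hle : ∀ e, fillV (T δ (4 * k) ∪ T δ' (4 * k)) (s.cut ω) e = true →
      fillV (C ∪ C') (s.cut ω) e = true := fun e he =>
    fillV_mono (Set.union_subset_union hM.T_sub' hM'.T_sub') he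
  have hD1 : dom d d' k ∪ C ⊆ dom δ δ' (4 * k) := by
    apply Set.union_subset
    · intro a ha
      exact Or.inl (mc_ball_mono (by omega) (mc_dom_ball ha))
    · exact mc_C_dom' hM
  have hD2 : dom d d' k ∪ C' ⊆ dom δ δ' (4 * k) := by
    apply Set.union_subset
    · intro a ha
      exact Or.inl (mc_ball_mono (by omega) (mc_dom_ball ha))
    · intro a ha
      rcases mc_C_dom' (δ' := δ) hM' ha with h | h | h
      · exact Or.inl h
      · exact Or.inr (Or.inr h)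
      · exact Or.inr (Or.inl h)
  refine ⟨mc_fence hk1 hM hN hf hD1, mc_fence hk1 hM' hN' hf' hD2, ?_, ?_, ?_⟩
  · intro hc
    rcases confX s.y (hc.mono (Set.subset_univ _) hle) with (h | h) | ⟨h, -⟩
    · exact hXY s.y h hyY
    · exact hXY s.y (hCX s.y h hyD) hyY
    · exact h (Or.inl hyY)
  · intro v hv hc
    refine mc_mouth hk1 hρk hM hXD hv ?_
    rcases confX v (hc.mono (Set.subset_univ _) hle) with h | ⟨-, h⟩
    · exact Or.inl h
    · exact Or.inr h
  · intro v hv hc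
    refine mc_mouth hk1 hρk hM' hYD hv ?_
    rcases confY v (hc.mono (Set.subset_univ _) hle) with h | ⟨-, h⟩
    · exact Or.inl h
    · exact Or.inr h

theorem move_core (c : ℝ) (hc : 0 < c) (K : ℕ) (c₁ : ℝ) (hc₁ : 0 < c₁) : ∃ C₀ : ℝ, 0 < C₀ ∧
    ∀ (s : Src) (d d' δ δ' : Side) (k n : ℕ) (C C' : Set Vert) (N N' : Set Config) (q : I),
      4 ≤ k → k ≤ K * n → RSWreg c n q → MoveData k d δ C N → MoveData k d' δ' C' N' →
      MoveSep k d d' C C' → c₁ ≤ Pr q N → c₁ ≤ Pr q N' →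
        Pr q (Sep s d d' k) ≤ C₀ * Pr q (Sep s δ δ' (4 * k)) := by
  classical
  obtain ⟨c₂, hc₂, hlow⟩ := seal_lower c hc K ((2 * 1200 + 1) ^ 2)
  refine ⟨(c₁ * c₁ * c₂)⁻¹, inv_pos.2 (by positivity), ?_⟩
  intro s d d' δ δ' k n C C' N N' q hk hkn hR hM hM' hS hN hN'
  have hk1 : 1 ≤ k := by omega
  have hn : 1 ≤ n := by
    rcases Nat.eq_zero_or_pos n with h | h
    · subst h
      omega
    · exact h
  set ρ : ℕ := k / 4 with hρdef
  have hρ : 1 ≤ ρ := by omega
  have hρk : 4 * ρ ≤ k := by omega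
  set G : Finset Vert := grid ρ 1200 with hGdef
  have hG : ∀ a ∈ ball (0 : Vert) (144 * k), ∃ g ∈ G, a ∈ ball g ρ := by
    intro a ha
    exact exists_grid hρ (mc_ball_mono (by omega) ha)
  have hC144 : ∀ {dd δδ : Side} {CC : Set Vert} {NN : Set Config}, MoveData k dd δδ CC NN →
      CC ⊆ ball (0 : Vert) (144 * k) := by
    intro dd δδ CC NN hMM a ha
    rcases hMM.sub ha with h | h
    · exact mc_ball_mono (by omega) h
    · exact mc_ball_mono (by omega) (mc_T_ball h)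
  have hfin : (C ∪ C').Finite := by
    have h1 : (ball (0 : Vert) (144 * k)).Finite := by
      refine Set.Finite.subset ((Set.finite_Icc (-(144 * k : ℤ)) (144 * k)).prod
        (Set.finite_Icc (-(144 * k : ℤ)) (144 * k))) ?_
      rintro ⟨x, y⟩ h
      simp only [mem_ball, Prod.fst_zero, Prod.snd_zero, Nat.cast_mul, Nat.cast_ofNat] at h
      refine ⟨⟨?_, ?_⟩, ⟨?_, ?_⟩⟩ <;> simp only <;> omega
    exact h1.subset (Set.union_subset (hC144 hM) (hC144 hM'))
  -- local events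
  set Λ : Finset Edge := eRect (-(144 * k : ℕ)) (144 * k : ℕ) (-(144 * k : ℕ)) (144 * k : ℕ) with hΛ
  have hΛC : ∀ {dd δδ : Side} {CC : Set Vert} {NN : Set Config}, MoveData k dd δδ CC NN →
      LocalOn Λ NN := by
    intro dd δδ CC NN hMM ω ω' h hω
    refine hMM.loc ω ω' (fun e he => h e ?_) hω
    rw [hΛ, mem_eRect]
    have h1 := hC144 hMM he.1
    unfold ball at h1
    simp only [Prod.fst_zero, Prod.snd_zero, zero_sub, zero_add] at h1
    exact h1
  have hloc : LocS (inE (C ∪ C')) (N ∩ N') := by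
    rintro ω ω' h ⟨h1, h2⟩
    exact ⟨hM.loc ω ω' (fun e he => h e ⟨Or.inl he.1, Or.inl he.2⟩) h1,
      hM'.loc ω ω' (fun e he => h e ⟨Or.inr he.1, Or.inr he.2⟩) h2⟩
  have hP : c₁ * c₁ ≤ Pr q {ω | pb id ω ∈ N ∩ N'} := by
    have h1 := fkg (p := q) (hΛC hM) (hΛC hM') hM.incr hM'.incr
    exact (mul_le_mul hN hN' hc₁.le Pr_nonneg).trans h1
  have hdisj : ∀ a ∈ C, a ∉ C' := fun a ha hb => hS a (Or.inl ha) a (Or.inl hb) self_mem_ball
  have hdet : ∀ S, det id d d' k (C ∪ C') S = touch (dom d d' k) S ∪ inE (C ∪ C') := by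
    intro S
    ext e
    constructor
    · rintro ⟨e', he', h⟩
      have h' : e = e' := h
      rwa [h']
    · intro he
      exact ⟨e, he, rfl⟩
  have main := corridor_prob (q := q) (π := id) (s := s) (d := d) (d' := d') hk1
    (C := C ∪ C') (Np := N ∩ N')
    (H := fun S => Seal G ρ (touch (dom d d' k) S ∪ inE (C ∪ C')))
    (c₁ := c₁ * c₁) (c₂ := c₂) (by positivity) hc₂.le (Set.injOn_id _)
    (Set.union_subset_union hM.T_sub hM'.T_sub)
    (by
      rintro a ⟨ha | ha, h | h | h⟩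
      · exact Or.inl (hM.inter ⟨ha, h⟩)
      · exact Or.inl h
      · exact absurd (hM'.T_sub h) (hdisj a ha)
      · exact Or.inr (hM'.inter ⟨ha, h⟩)
      · exact absurd ha (hdisj a (hM.T_sub h))
      · exact Or.inr h)
    hfin hloc (hM.incr.inter hM'.incr) hP
    (fun S => by
      rw [hdet S]
      exact locS_seal _ _ _)
    (by
      obtain ⟨Λ', h⟩ := localOn_seal G ρ
      exact ⟨Λ', fun S => h _⟩)
    (fun S => hlow n ρ q G _ hn hR hρ (by omega) (card_grid _ _))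
  have h2 : {ω | pb id ω ∈ Sep s d d' k ∧ pb id ω ∈ N ∩ N' ∧
      pb id ω ∈ (fun S => Seal G ρ (touch (dom d d' k) S ∪ inE (C ∪ C')))
        (FX s d d' k (pb id ω) ∪ FY s d d' k (pb id ω))} ⊆ Sep s δ δ' (4 * k) := by
    rintro ω ⟨h1, ⟨h2, h3⟩, h4⟩
    exact move_det hk hρ hρk hM hM' hS hG h1 h2 h3 h4
  have h3 := main.trans (Pr_mono h2)
  have hpos : 0 < c₁ * c₁ * c₂ := by positivity
  rw [inv_mul_eq_div, le_div_iff₀ hpos, mul_comm]
  exact h3

end Pool.Agent.H59.EX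

end

section

/-!
# All moves between pairs of sides
-/

open MeasureTheory ProbabilityTheory unitInterval

namespace Pool.Agent.H59.EX

open Pool.Agent.H89.Perc Pool.Agent.H61.NC

/-- The separated event with sides `d, d'` at scale `k` can be extended to sides `e, e'` at scale
`4 ^ m k`. -/
def OKm (m : ℕ) (d d' e e' : Side) : Prop :=
  ∀ (c : ℝ) (K : ℕ), 0 < c → ∃ C : ℝ, 0 < C ∧ ∀ (s : Src) (k n : ℕ) (q : I), 4 ≤ k → k ≤ K * n →
    RSWreg c n q → Pr q (Sep s d d' k) ≤ C * Pr q (Sep s e e' (4 ^ m * k))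

variable {m m' : ℕ} {d d' e e' f f' : Side}

theorem okm_map (g : Gen) (h : OKm m d d' e e') : OKm m (g.s d) (g.s d') (g.s e) (g.s e') := by
  intro c K hc
  obtain ⟨C, hC, H⟩ := h c K hc
  refine ⟨C, hC, fun s k n q hk hkn hR => ?_⟩
  have h1 := H (s.map g) k n q hk hkn hR
  have h2 : ∀ (a b : Side) (j : ℕ),
      Pr q (Sep (s.map g) a b j) = Pr q (Sep s (g.s a) (g.s b) j) := by
    intro a b j
    have h3 := sep_map (q := q) (s := s) (d := g.s a) (d' := g.s b) (k := j) g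
    rw [Gen.s_s, Gen.s_s] at h3
    exact h3
  rw [h2, h2] at h1
  exact h1

theorem okm_flip (h : OKm m d d' e e') : OKm m d' d e' e := by
  intro c K hc
  obtain ⟨C, hC, H⟩ := h c K hc
  refine ⟨C, hC, fun s k n q hk hkn hR => ?_⟩
  have h1 := H s.flip k n q hk hkn hR
  rw [sep_flip, sep_flip] at h1
  exact h1

theorem okm_trans (h : OKm m d d' e e') (h' : OKm m' e e' f f') : OKm (m + m') d d' f f' := by
  intro c K hc
  obtain ⟨C, hC, H⟩ := h c K hc
  obtain ⟨C', hC', H'⟩ := h' c (4 ^ m * K) hc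
  refine ⟨C * C', mul_pos hC hC', fun s k n q hk hkn hR => ?_⟩
  have h1 := H s k n q hk hkn hR
  have hpos : 1 ≤ 4 ^ m := Nat.one_le_pow _ _ (by norm_num)
  have h2 := H' s (4 ^ m * k) n q (by nlinarith) (by nlinarith) hR
  have h3 : 4 ^ m' * (4 ^ m * k) = 4 ^ (m + m') * k := by
    rw [pow_add]; ring
  rw [h3] at h2
  calc Pr q (Sep s d d' k) ≤ C * Pr q (Sep s e e' (4 ^ m * k)) := h1
    _ ≤ C * (C' * Pr q (Sep s f f' (4 ^ (m + m') * k))) :=
        mul_le_mul_of_nonneg_left h2 hC.le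
    _ = C * C' * Pr q (Sep s f f' (4 ^ (m + m') * k)) := by ring

theorem okm_EW : OKm 1 .E .W .E .W := by
  intro c K hc
  obtain ⟨c', hc', H⟩ := prob_move c hc K
  obtain ⟨C, hC, G⟩ := move_core c hc K c' hc'
  refine ⟨C, hC, fun s k n q hk hkn hR => ?_⟩
  have h1 := G s .E .W .E .W k n _ _ _ _ q hk hkn hR (move_straight hk .E) (move_straight hk .W)
    (msep_EW hk) (H .E k n q hk hkn hR).1 (H .W k n q hk hkn hR).1
  simpa using h1

theorem okm_EN : OKm 1 .E .N .E .N := by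
  intro c K hc
  obtain ⟨c', hc', H⟩ := prob_move c hc K
  obtain ⟨C, hC, G⟩ := move_core c hc K c' hc'
  refine ⟨C, hC, fun s k n q hk hkn hR => ?_⟩
  have h1 := G s .E .N .E .N k n _ _ _ _ q hk hkn hR (move_straight hk .E) (move_straight hk .N)
    (msep_EN hk) (H .E k n q hk hkn hR).1 (H .N k n q hk hkn hR).1
  simpa using h1

theorem okm_WT : OKm 1 .W .E .W .N := by
  intro c K hc
  obtain ⟨c', hc', H⟩ := prob_move c hc K
  obtain ⟨C, hC, G⟩ := move_core c hc K c' hc'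
  refine ⟨C, hC, fun s k n q hk hkn hR => ?_⟩
  have h1 := G s .W .E .W .N k n _ _ _ _ q hk hkn hR (move_straight hk .W) (move_turn hk)
    (msep_WT hk) (H .W k n q hk hkn hR).1 (H .W k n q hk hkn hR).2
  simpa using h1

theorem okm_ST : OKm 1 .S .E .S .N := by
  intro c K hc
  obtain ⟨c', hc', H⟩ := prob_move c hc K
  obtain ⟨C, hC, G⟩ := move_core c hc K c' hc'
  refine ⟨C, hC, fun s k n q hk hkn hR => ?_⟩
  have h1 := G s .S .E .S .N k n _ _ _ _ q hk hkn hR (move_straight hk .S) (move_turn hk)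
    (msep_ST hk) (H .S k n q hk hkn hR).1 (H .S k n q hk hkn hR).2
  simpa using h1

theorem mv_EWEW : OKm 1 .E .W .E .W := okm_EW

theorem mv_ENEN : OKm 1 .E .N .E .N := okm_EN

theorem mv_WEWN : OKm 1 .W .E .W .N := okm_WT

theorem mv_SESN : OKm 1 .S .E .S .N := okm_ST

theorem mv_NSNS : OKm 1 .N .S .N .S := okm_map .sw okm_EW

theorem mv_WEWE : OKm 1 .W .E .W .E := okm_map .rx okm_EW

theorem mv_NENE : OKm 1 .N .E .N .E := okm_map .sw okm_EN

theorem mv_WNWN : OKm 1 .W .N .W .N := okm_map .rx okm_EN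

theorem mv_ESES : OKm 1 .E .S .E .S := okm_map .ry okm_EN

theorem mv_SNSE : OKm 1 .S .N .S .E := okm_map .sw okm_WT

theorem mv_EWEN : OKm 1 .E .W .E .N := okm_map .rx okm_WT

theorem mv_WEWS : OKm 1 .W .E .W .S := okm_map .ry okm_WT

theorem mv_EWNW : OKm 1 .E .W .N .W := okm_flip okm_WT

theorem mv_WNWE : OKm 1 .W .N .W .E := okm_map .sw okm_ST

theorem mv_SWSN : OKm 1 .S .W .S .N := okm_map .rx okm_ST

theorem mv_NENS : OKm 1 .N .E .N .S := okm_map .ry okm_ST

theorem mv_ESNS : OKm 1 .E .S .N .S := okm_flip okm_ST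

theorem mv_SNSN : OKm 1 .S .N .S .N := okm_map .ry (okm_map .sw okm_EW)

theorem mv_NWNW : OKm 1 .N .W .N .W := okm_map .rx (okm_map .sw okm_EN)

theorem mv_SESE : OKm 1 .S .E .S .E := okm_map .ry (okm_map .sw okm_EN)

theorem mv_WSWS : OKm 1 .W .S .W .S := okm_map .ry (okm_map .rx okm_EN)

theorem mv_SNSW : OKm 1 .S .N .S .W := okm_map .rx (okm_map .sw okm_WT)

theorem mv_NSNE : OKm 1 .N .S .N .E := okm_map .ry (okm_map .sw okm_WT)

theorem mv_NSES : OKm 1 .N .S .E .S := okm_flip (okm_map .sw okm_WT)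

theorem mv_EWES : OKm 1 .E .W .E .S := okm_map .ry (okm_map .rx okm_WT)

theorem mv_WENE : OKm 1 .W .E .N .E := okm_flip (okm_map .rx okm_WT)

theorem mv_EWSW : OKm 1 .E .W .S .W := okm_flip (okm_map .ry okm_WT)

theorem mv_ENEW : OKm 1 .E .N .E .W := okm_map .rx (okm_map .sw okm_ST)

theorem mv_WSWE : OKm 1 .W .S .W .E := okm_map .ry (okm_map .sw okm_ST)

theorem mv_NWEW : OKm 1 .N .W .E .W := okm_flip (okm_map .sw okm_ST)

theorem mv_NWNS : OKm 1 .N .W .N .S := okm_map .ry (okm_map .rx okm_ST)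

theorem mv_WSNS : OKm 1 .W .S .N .S := okm_flip (okm_map .rx okm_ST)

theorem mv_ENSN : OKm 1 .E .N .S .N := okm_flip (okm_map .ry okm_ST)

theorem mv_SWSW : OKm 1 .S .W .S .W := okm_map .ry (okm_map .rx (okm_map .sw okm_EN))

theorem mv_NSNW : OKm 1 .N .S .N .W := okm_map .ry (okm_map .rx (okm_map .sw okm_WT))

theorem mv_NSWS : OKm 1 .N .S .W .S := okm_flip (okm_map .rx (okm_map .sw okm_WT))

theorem mv_SNEN : OKm 1 .S .N .E .N := okm_flip (okm_map .ry (okm_map .sw okm_WT))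

theorem mv_WESE : OKm 1 .W .E .S .E := okm_flip (okm_map .ry (okm_map .rx okm_WT))

theorem mv_ESEW : OKm 1 .E .S .E .W := okm_map .ry (okm_map .rx (okm_map .sw okm_ST))

theorem mv_NEWE : OKm 1 .N .E .W .E := okm_flip (okm_map .rx (okm_map .sw okm_ST))

theorem mv_SWEW : OKm 1 .S .W .E .W := okm_flip (okm_map .ry (okm_map .sw okm_ST))

theorem mv_WNSN : OKm 1 .W .N .S .N := okm_flip (okm_map .ry (okm_map .rx okm_ST))

theorem mv_SNWN : OKm 1 .S .N .W .N := okm_flip (okm_map .ry (okm_map .rx (okm_map .sw okm_WT)))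

theorem mv_SEWE : OKm 1 .S .E .W .E := okm_flip (okm_map .ry (okm_map .rx (okm_map .sw okm_ST)))

theorem okm_straight (h : d ≠ d') : OKm 1 d d' d d' := by
  cases d <;> cases d' <;> first | exact absurd rfl h | skip
  · exact mv_ENEN
  · exact mv_EWEW
  · exact mv_ESES
  · exact mv_NENE
  · exact mv_NWNW
  · exact mv_NSNS
  · exact mv_WEWE
  · exact mv_WNWN
  · exact mv_WSWS
  · exact mv_SESE
  · exact mv_SNSN
  · exact mv_SWSW

theorem mw_ENEN : OKm 2 .E .N .E .N :=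
  okm_trans (m := 1) (m' := 1) mv_ENEN mv_ENEN

theorem mw_ENEW : OKm 2 .E .N .E .W :=
  okm_trans (m := 1) (m' := 1) mv_ENEN mv_ENEW

theorem mw_ENSN : OKm 2 .E .N .S .N :=
  okm_trans (m := 1) (m' := 1) mv_ENEN mv_ENSN

theorem mw_ENES : OKm 2 .E .N .E .S :=
  okm_trans (m := 1) (m' := 1) mv_ENEW mv_EWES

theorem mw_ENNW : OKm 2 .E .N .N .W :=
  okm_trans (m := 1) (m' := 1) mv_ENEW mv_EWNW

theorem mw_ENSW : OKm 2 .E .N .S .W :=
  okm_trans (m := 1) (m' := 1) mv_ENEW mv_EWSW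

theorem mw_ENSE : OKm 2 .E .N .S .E :=
  okm_trans (m := 1) (m' := 1) mv_ENSN mv_SNSE

theorem mw_ENWN : OKm 2 .E .N .W .N :=
  okm_trans (m := 1) (m' := 1) mv_ENSN mv_SNWN

theorem mw_ESES : OKm 2 .E .S .E .S :=
  okm_trans (m := 1) (m' := 1) mv_ESES mv_ESES

theorem mw_ESEW : OKm 2 .E .S .E .W :=
  okm_trans (m := 1) (m' := 1) mv_ESES mv_ESEW

theorem mw_ESNS : OKm 2 .E .S .N .S :=
  okm_trans (m := 1) (m' := 1) mv_ESES mv_ESNS

theorem mw_ESEN : OKm 2 .E .S .E .N :=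
  okm_trans (m := 1) (m' := 1) mv_ESEW mv_EWEN

theorem mw_ESSW : OKm 2 .E .S .S .W :=
  okm_trans (m := 1) (m' := 1) mv_ESEW mv_EWSW

theorem mw_ESNE : OKm 2 .E .S .N .E :=
  okm_trans (m := 1) (m' := 1) mv_ESNS mv_NSNE

theorem mw_ESNW : OKm 2 .E .S .N .W :=
  okm_trans (m := 1) (m' := 1) mv_ESNS mv_NSNW

theorem mw_ESWS : OKm 2 .E .S .W .S :=
  okm_trans (m := 1) (m' := 1) mv_ESNS mv_NSWS

theorem mw_EWSN : OKm 2 .E .W .S .N :=
  okm_trans (m := 1) (m' := 1) mv_EWEN mv_ENSN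

theorem mw_EWEN : OKm 2 .E .W .E .N :=
  okm_trans (m := 1) (m' := 1) mv_EWEW mv_EWEN

theorem mw_EWES : OKm 2 .E .W .E .S :=
  okm_trans (m := 1) (m' := 1) mv_EWEW mv_EWES

theorem mw_EWEW : OKm 2 .E .W .E .W :=
  okm_trans (m := 1) (m' := 1) mv_EWEW mv_EWEW

theorem mw_EWNW : OKm 2 .E .W .N .W :=
  okm_trans (m := 1) (m' := 1) mv_EWEW mv_EWNW

theorem mw_EWSW : OKm 2 .E .W .S .W :=
  okm_trans (m := 1) (m' := 1) mv_EWEW mv_EWSW

theorem mw_EWNS : OKm 2 .E .W .N .S :=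
  okm_trans (m := 1) (m' := 1) mv_EWNW mv_NWNS

theorem mw_NENE : OKm 2 .N .E .N .E :=
  okm_trans (m := 1) (m' := 1) mv_NENE mv_NENE

theorem mw_NENS : OKm 2 .N .E .N .S :=
  okm_trans (m := 1) (m' := 1) mv_NENE mv_NENS

theorem mw_NEWE : OKm 2 .N .E .W .E :=
  okm_trans (m := 1) (m' := 1) mv_NENE mv_NEWE

theorem mw_NEES : OKm 2 .N .E .E .S :=
  okm_trans (m := 1) (m' := 1) mv_NENS mv_NSES

theorem mw_NENW : OKm 2 .N .E .N .W :=
  okm_trans (m := 1) (m' := 1) mv_NENS mv_NSNW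

theorem mw_NEWS : OKm 2 .N .E .W .S :=
  okm_trans (m := 1) (m' := 1) mv_NENS mv_NSWS

theorem mw_NESE : OKm 2 .N .E .S .E :=
  okm_trans (m := 1) (m' := 1) mv_NEWE mv_WESE

theorem mw_NEWN : OKm 2 .N .E .W .N :=
  okm_trans (m := 1) (m' := 1) mv_NEWE mv_WEWN

theorem mw_NSEW : OKm 2 .N .S .E .W :=
  okm_trans (m := 1) (m' := 1) mv_NSES mv_ESEW

theorem mw_NSWE : OKm 2 .N .S .W .E :=
  okm_trans (m := 1) (m' := 1) mv_NSNE mv_NEWE

theorem mw_NSES : OKm 2 .N .S .E .S :=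
  okm_trans (m := 1) (m' := 1) mv_NSNS mv_NSES

theorem mw_NSNE : OKm 2 .N .S .N .E :=
  okm_trans (m := 1) (m' := 1) mv_NSNS mv_NSNE

theorem mw_NSNS : OKm 2 .N .S .N .S :=
  okm_trans (m := 1) (m' := 1) mv_NSNS mv_NSNS

theorem mw_NSNW : OKm 2 .N .S .N .W :=
  okm_trans (m := 1) (m' := 1) mv_NSNS mv_NSNW

theorem mw_NSWS : OKm 2 .N .S .W .S :=
  okm_trans (m := 1) (m' := 1) mv_NSNS mv_NSWS

theorem mw_NWEN : OKm 2 .N .W .E .N :=
  okm_trans (m := 1) (m' := 1) mv_NWEW mv_EWEN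

theorem mw_NWES : OKm 2 .N .W .E .S :=
  okm_trans (m := 1) (m' := 1) mv_NWEW mv_EWES

theorem mw_NWSW : OKm 2 .N .W .S .W :=
  okm_trans (m := 1) (m' := 1) mv_NWEW mv_EWSW

theorem mw_NWNE : OKm 2 .N .W .N .E :=
  okm_trans (m := 1) (m' := 1) mv_NWNS mv_NSNE

theorem mw_NWWS : OKm 2 .N .W .W .S :=
  okm_trans (m := 1) (m' := 1) mv_NWNS mv_NSWS

theorem mw_NWEW : OKm 2 .N .W .E .W :=
  okm_trans (m := 1) (m' := 1) mv_NWNW mv_NWEW

theorem mw_NWNS : OKm 2 .N .W .N .S :=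
  okm_trans (m := 1) (m' := 1) mv_NWNW mv_NWNS

theorem mw_NWNW : OKm 2 .N .W .N .W :=
  okm_trans (m := 1) (m' := 1) mv_NWNW mv_NWNW

theorem mw_SEWE : OKm 2 .S .E .W .E :=
  okm_trans (m := 1) (m' := 1) mv_SESE mv_SEWE

theorem mw_SEEN : OKm 2 .S .E .E .N :=
  okm_trans (m := 1) (m' := 1) mv_SESN mv_SNEN

theorem mw_SESE : OKm 2 .S .E .S .E :=
  okm_trans (m := 1) (m' := 1) mv_SESN mv_SNSE

theorem mw_SESN : OKm 2 .S .E .S .N :=
  okm_trans (m := 1) (m' := 1) mv_SESN mv_SNSN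

theorem mw_SESW : OKm 2 .S .E .S .W :=
  okm_trans (m := 1) (m' := 1) mv_SESN mv_SNSW

theorem mw_SEWN : OKm 2 .S .E .W .N :=
  okm_trans (m := 1) (m' := 1) mv_SESN mv_SNWN

theorem mw_SENE : OKm 2 .S .E .N .E :=
  okm_trans (m := 1) (m' := 1) mv_SEWE mv_WENE

theorem mw_SEWS : OKm 2 .S .E .W .S :=
  okm_trans (m := 1) (m' := 1) mv_SEWE mv_WEWS

theorem mw_SNSE : OKm 2 .S .N .S .E :=
  okm_trans (m := 1) (m' := 1) mv_SNSE mv_SESE

theorem mw_SNSN : OKm 2 .S .N .S .N :=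
  okm_trans (m := 1) (m' := 1) mv_SNSE mv_SESN

theorem mw_SNWE : OKm 2 .S .N .W .E :=
  okm_trans (m := 1) (m' := 1) mv_SNSE mv_SEWE

theorem mw_SNEN : OKm 2 .S .N .E .N :=
  okm_trans (m := 1) (m' := 1) mv_SNSN mv_SNEN

theorem mw_SNSW : OKm 2 .S .N .S .W :=
  okm_trans (m := 1) (m' := 1) mv_SNSN mv_SNSW

theorem mw_SNWN : OKm 2 .S .N .W .N :=
  okm_trans (m := 1) (m' := 1) mv_SNSN mv_SNWN

theorem mw_SNEW : OKm 2 .S .N .E .W :=
  okm_trans (m := 1) (m' := 1) mv_SNSW mv_SWEW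

theorem mw_SWES : OKm 2 .S .W .E .S :=
  okm_trans (m := 1) (m' := 1) mv_SWEW mv_EWES

theorem mw_SWNW : OKm 2 .S .W .N .W :=
  okm_trans (m := 1) (m' := 1) mv_SWEW mv_EWNW

theorem mw_SWSE : OKm 2 .S .W .S .E :=
  okm_trans (m := 1) (m' := 1) mv_SWSN mv_SNSE

theorem mw_SWSN : OKm 2 .S .W .S .N :=
  okm_trans (m := 1) (m' := 1) mv_SWSN mv_SNSN

theorem mw_SWSW : OKm 2 .S .W .S .W :=
  okm_trans (m := 1) (m' := 1) mv_SWSN mv_SNSW

theorem mw_SWEW : OKm 2 .S .W .E .W :=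
  okm_trans (m := 1) (m' := 1) mv_SWSW mv_SWEW

theorem mw_WEWS : OKm 2 .W .E .W .S :=
  okm_trans (m := 1) (m' := 1) mv_WEWE mv_WEWS

theorem mw_WESN : OKm 2 .W .E .S .N :=
  okm_trans (m := 1) (m' := 1) mv_WEWN mv_WNSN

theorem mw_WEWE : OKm 2 .W .E .W .E :=
  okm_trans (m := 1) (m' := 1) mv_WEWN mv_WNWE

theorem mw_WEWN : OKm 2 .W .E .W .N :=
  okm_trans (m := 1) (m' := 1) mv_WEWN mv_WNWN

theorem mw_WENS : OKm 2 .W .E .N .S :=
  okm_trans (m := 1) (m' := 1) mv_WEWS mv_WSNS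

theorem mw_WNEN : OKm 2 .W .N .E .N :=
  okm_trans (m := 1) (m' := 1) mv_WNSN mv_SNEN

theorem mw_WNSW : OKm 2 .W .N .S .W :=
  okm_trans (m := 1) (m' := 1) mv_WNSN mv_SNSW

theorem mw_WNNE : OKm 2 .W .N .N .E :=
  okm_trans (m := 1) (m' := 1) mv_WNWE mv_WENE

theorem mw_WNSE : OKm 2 .W .N .S .E :=
  okm_trans (m := 1) (m' := 1) mv_WNWE mv_WESE

theorem mw_WNWS : OKm 2 .W .N .W .S :=
  okm_trans (m := 1) (m' := 1) mv_WNWE mv_WEWS

theorem mw_WNSN : OKm 2 .W .N .S .N :=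
  okm_trans (m := 1) (m' := 1) mv_WNWN mv_WNSN

theorem mw_WNWE : OKm 2 .W .N .W .E :=
  okm_trans (m := 1) (m' := 1) mv_WNWN mv_WNWE

theorem mw_WNWN : OKm 2 .W .N .W .N :=
  okm_trans (m := 1) (m' := 1) mv_WNWN mv_WNWN

theorem mw_WSES : OKm 2 .W .S .E .S :=
  okm_trans (m := 1) (m' := 1) mv_WSNS mv_NSES

theorem mw_WSNW : OKm 2 .W .S .N .W :=
  okm_trans (m := 1) (m' := 1) mv_WSNS mv_NSNW

theorem mw_WSNE : OKm 2 .W .S .N .E :=
  okm_trans (m := 1) (m' := 1) mv_WSWE mv_WENE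

theorem mw_WSSE : OKm 2 .W .S .S .E :=
  okm_trans (m := 1) (m' := 1) mv_WSWE mv_WESE

theorem mw_WSWN : OKm 2 .W .S .W .N :=
  okm_trans (m := 1) (m' := 1) mv_WSWE mv_WEWN

theorem mw_WSNS : OKm 2 .W .S .N .S :=
  okm_trans (m := 1) (m' := 1) mv_WSWS mv_WSNS

theorem mw_WSWE : OKm 2 .W .S .W .E :=
  okm_trans (m := 1) (m' := 1) mv_WSWS mv_WSWE

theorem mw_WSWS : OKm 2 .W .S .W .S :=
  okm_trans (m := 1) (m' := 1) mv_WSWS mv_WSWS

theorem reach_EN (h' : e ≠ e') : OKm 4 .E .N e e' := by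
  cases e <;> cases e' <;> first | exact absurd rfl h' | skip
  · exact okm_trans (m := 2) (m' := 2) mw_ENEN mw_ENEN
  · exact okm_trans (m := 2) (m' := 2) mw_ENEN mw_ENEW
  · exact okm_trans (m := 2) (m' := 2) mw_ENEN mw_ENES
  · exact okm_trans (m := 2) (m' := 2) mw_ENNW mw_NWNE
  · exact okm_trans (m := 2) (m' := 2) mw_ENEN mw_ENNW
  · exact okm_trans (m := 2) (m' := 2) mw_ENEW mw_EWNS
  · exact okm_trans (m := 2) (m' := 2) mw_ENSN mw_SNWE
  · exact okm_trans (m := 2) (m' := 2) mw_ENEN mw_ENWN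
  · exact okm_trans (m := 2) (m' := 2) mw_ENNW mw_NWWS
  · exact okm_trans (m := 2) (m' := 2) mw_ENEN mw_ENSE
  · exact okm_trans (m := 2) (m' := 2) mw_ENEN mw_ENSN
  · exact okm_trans (m := 2) (m' := 2) mw_ENEN mw_ENSW

theorem reach_EW (h' : e ≠ e') : OKm 4 .E .W e e' := by
  cases e <;> cases e' <;> first | exact absurd rfl h' | skip
  · exact okm_trans (m := 2) (m' := 2) mw_EWEW mw_EWEN
  · exact okm_trans (m := 2) (m' := 2) mw_EWEW mw_EWEW
  · exact okm_trans (m := 2) (m' := 2) mw_EWEW mw_EWES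
  · exact okm_trans (m := 2) (m' := 2) mw_EWNW mw_NWNE
  · exact okm_trans (m := 2) (m' := 2) mw_EWEW mw_EWNW
  · exact okm_trans (m := 2) (m' := 2) mw_EWEW mw_EWNS
  · exact okm_trans (m := 2) (m' := 2) mw_EWSN mw_SNWE
  · exact okm_trans (m := 2) (m' := 2) mw_EWEN mw_ENWN
  · exact okm_trans (m := 2) (m' := 2) mw_EWNW mw_NWWS
  · exact okm_trans (m := 2) (m' := 2) mw_EWEN mw_ENSE
  · exact okm_trans (m := 2) (m' := 2) mw_EWEW mw_EWSN
  · exact okm_trans (m := 2) (m' := 2) mw_EWEW mw_EWSW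

theorem reach_ES (h' : e ≠ e') : OKm 4 .E .S e e' := by
  cases e <;> cases e' <;> first | exact absurd rfl h' | skip
  · exact okm_trans (m := 2) (m' := 2) mw_ESES mw_ESEN
  · exact okm_trans (m := 2) (m' := 2) mw_ESES mw_ESEW
  · exact okm_trans (m := 2) (m' := 2) mw_ESES mw_ESES
  · exact okm_trans (m := 2) (m' := 2) mw_ESES mw_ESNE
  · exact okm_trans (m := 2) (m' := 2) mw_ESES mw_ESNW
  · exact okm_trans (m := 2) (m' := 2) mw_ESES mw_ESNS
  · exact okm_trans (m := 2) (m' := 2) mw_ESNS mw_NSWE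
  · exact okm_trans (m := 2) (m' := 2) mw_ESNE mw_NEWN
  · exact okm_trans (m := 2) (m' := 2) mw_ESES mw_ESWS
  · exact okm_trans (m := 2) (m' := 2) mw_ESNE mw_NESE
  · exact okm_trans (m := 2) (m' := 2) mw_ESEW mw_EWSN
  · exact okm_trans (m := 2) (m' := 2) mw_ESES mw_ESSW

theorem reach_NE (h' : e ≠ e') : OKm 4 .N .E e e' := by
  cases e <;> cases e' <;> first | exact absurd rfl h' | skip
  · exact okm_trans (m := 2) (m' := 2) mw_NEES mw_ESEN
  · exact okm_trans (m := 2) (m' := 2) mw_NENS mw_NSEW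
  · exact okm_trans (m := 2) (m' := 2) mw_NENE mw_NEES
  · exact okm_trans (m := 2) (m' := 2) mw_NENE mw_NENE
  · exact okm_trans (m := 2) (m' := 2) mw_NENE mw_NENW
  · exact okm_trans (m := 2) (m' := 2) mw_NENE mw_NENS
  · exact okm_trans (m := 2) (m' := 2) mw_NENE mw_NEWE
  · exact okm_trans (m := 2) (m' := 2) mw_NENE mw_NEWN
  · exact okm_trans (m := 2) (m' := 2) mw_NENE mw_NEWS
  · exact okm_trans (m := 2) (m' := 2) mw_NENE mw_NESE
  · exact okm_trans (m := 2) (m' := 2) mw_NEWE mw_WESN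
  · exact okm_trans (m := 2) (m' := 2) mw_NEES mw_ESSW

theorem reach_NW (h' : e ≠ e') : OKm 4 .N .W e e' := by
  cases e <;> cases e' <;> first | exact absurd rfl h' | skip
  · exact okm_trans (m := 2) (m' := 2) mw_NWNW mw_NWEN
  · exact okm_trans (m := 2) (m' := 2) mw_NWNW mw_NWEW
  · exact okm_trans (m := 2) (m' := 2) mw_NWNW mw_NWES
  · exact okm_trans (m := 2) (m' := 2) mw_NWNW mw_NWNE
  · exact okm_trans (m := 2) (m' := 2) mw_NWNW mw_NWNW
  · exact okm_trans (m := 2) (m' := 2) mw_NWNW mw_NWNS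
  · exact okm_trans (m := 2) (m' := 2) mw_NWNS mw_NSWE
  · exact okm_trans (m := 2) (m' := 2) mw_NWEN mw_ENWN
  · exact okm_trans (m := 2) (m' := 2) mw_NWNW mw_NWWS
  · exact okm_trans (m := 2) (m' := 2) mw_NWEN mw_ENSE
  · exact okm_trans (m := 2) (m' := 2) mw_NWEW mw_EWSN
  · exact okm_trans (m := 2) (m' := 2) mw_NWNW mw_NWSW

theorem reach_NS (h' : e ≠ e') : OKm 4 .N .S e e' := by
  cases e <;> cases e' <;> first | exact absurd rfl h' | skip
  · exact okm_trans (m := 2) (m' := 2) mw_NSES mw_ESEN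
  · exact okm_trans (m := 2) (m' := 2) mw_NSNS mw_NSEW
  · exact okm_trans (m := 2) (m' := 2) mw_NSNS mw_NSES
  · exact okm_trans (m := 2) (m' := 2) mw_NSNS mw_NSNE
  · exact okm_trans (m := 2) (m' := 2) mw_NSNS mw_NSNW
  · exact okm_trans (m := 2) (m' := 2) mw_NSNS mw_NSNS
  · exact okm_trans (m := 2) (m' := 2) mw_NSNS mw_NSWE
  · exact okm_trans (m := 2) (m' := 2) mw_NSNE mw_NEWN
  · exact okm_trans (m := 2) (m' := 2) mw_NSNS mw_NSWS
  · exact okm_trans (m := 2) (m' := 2) mw_NSNE mw_NESE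
  · exact okm_trans (m := 2) (m' := 2) mw_NSWE mw_WESN
  · exact okm_trans (m := 2) (m' := 2) mw_NSES mw_ESSW

theorem reach_WE (h' : e ≠ e') : OKm 4 .W .E e e' := by
  cases e <;> cases e' <;> first | exact absurd rfl h' | skip
  · exact okm_trans (m := 2) (m' := 2) mw_WEWN mw_WNEN
  · exact okm_trans (m := 2) (m' := 2) mw_WESN mw_SNEW
  · exact okm_trans (m := 2) (m' := 2) mw_WEWS mw_WSES
  · exact okm_trans (m := 2) (m' := 2) mw_WEWN mw_WNNE
  · exact okm_trans (m := 2) (m' := 2) mw_WEWS mw_WSNW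
  · exact okm_trans (m := 2) (m' := 2) mw_WEWE mw_WENS
  · exact okm_trans (m := 2) (m' := 2) mw_WEWN mw_WNWE
  · exact okm_trans (m := 2) (m' := 2) mw_WEWN mw_WNWN
  · exact okm_trans (m := 2) (m' := 2) mw_WEWN mw_WNWS
  · exact okm_trans (m := 2) (m' := 2) mw_WEWN mw_WNSE
  · exact okm_trans (m := 2) (m' := 2) mw_WEWN mw_WNSN
  · exact okm_trans (m := 2) (m' := 2) mw_WEWN mw_WNSW

theorem reach_WN (h' : e ≠ e') : OKm 4 .W .N e e' := by
  cases e <;> cases e' <;> first | exact absurd rfl h' | skip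
  · exact okm_trans (m := 2) (m' := 2) mw_WNWN mw_WNEN
  · exact okm_trans (m := 2) (m' := 2) mw_WNSN mw_SNEW
  · exact okm_trans (m := 2) (m' := 2) mw_WNWS mw_WSES
  · exact okm_trans (m := 2) (m' := 2) mw_WNWN mw_WNNE
  · exact okm_trans (m := 2) (m' := 2) mw_WNWS mw_WSNW
  · exact okm_trans (m := 2) (m' := 2) mw_WNWE mw_WENS
  · exact okm_trans (m := 2) (m' := 2) mw_WNWN mw_WNWE
  · exact okm_trans (m := 2) (m' := 2) mw_WNWN mw_WNWN
  · exact okm_trans (m := 2) (m' := 2) mw_WNWN mw_WNWS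
  · exact okm_trans (m := 2) (m' := 2) mw_WNWN mw_WNSE
  · exact okm_trans (m := 2) (m' := 2) mw_WNWN mw_WNSN
  · exact okm_trans (m := 2) (m' := 2) mw_WNWN mw_WNSW

theorem reach_WS (h' : e ≠ e') : OKm 4 .W .S e e' := by
  cases e <;> cases e' <;> first | exact absurd rfl h' | skip
  · exact okm_trans (m := 2) (m' := 2) mw_WSWN mw_WNEN
  · exact okm_trans (m := 2) (m' := 2) mw_WSNS mw_NSEW
  · exact okm_trans (m := 2) (m' := 2) mw_WSWS mw_WSES
  · exact okm_trans (m := 2) (m' := 2) mw_WSWS mw_WSNE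
  · exact okm_trans (m := 2) (m' := 2) mw_WSWS mw_WSNW
  · exact okm_trans (m := 2) (m' := 2) mw_WSWS mw_WSNS
  · exact okm_trans (m := 2) (m' := 2) mw_WSWS mw_WSWE
  · exact okm_trans (m := 2) (m' := 2) mw_WSWS mw_WSWN
  · exact okm_trans (m := 2) (m' := 2) mw_WSWS mw_WSWS
  · exact okm_trans (m := 2) (m' := 2) mw_WSWS mw_WSSE
  · exact okm_trans (m := 2) (m' := 2) mw_WSWE mw_WESN
  · exact okm_trans (m := 2) (m' := 2) mw_WSWN mw_WNSW

theorem reach_SE (h' : e ≠ e') : OKm 4 .S .E e e' := by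
  cases e <;> cases e' <;> first | exact absurd rfl h' | skip
  · exact okm_trans (m := 2) (m' := 2) mw_SESE mw_SEEN
  · exact okm_trans (m := 2) (m' := 2) mw_SESN mw_SNEW
  · exact okm_trans (m := 2) (m' := 2) mw_SESW mw_SWES
  · exact okm_trans (m := 2) (m' := 2) mw_SESE mw_SENE
  · exact okm_trans (m := 2) (m' := 2) mw_SESW mw_SWNW
  · exact okm_trans (m := 2) (m' := 2) mw_SEWE mw_WENS
  · exact okm_trans (m := 2) (m' := 2) mw_SESE mw_SEWE
  · exact okm_trans (m := 2) (m' := 2) mw_SESE mw_SEWN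
  · exact okm_trans (m := 2) (m' := 2) mw_SESE mw_SEWS
  · exact okm_trans (m := 2) (m' := 2) mw_SESE mw_SESE
  · exact okm_trans (m := 2) (m' := 2) mw_SESE mw_SESN
  · exact okm_trans (m := 2) (m' := 2) mw_SESE mw_SESW

theorem reach_SN (h' : e ≠ e') : OKm 4 .S .N e e' := by
  cases e <;> cases e' <;> first | exact absurd rfl h' | skip
  · exact okm_trans (m := 2) (m' := 2) mw_SNSN mw_SNEN
  · exact okm_trans (m := 2) (m' := 2) mw_SNSN mw_SNEW
  · exact okm_trans (m := 2) (m' := 2) mw_SNSW mw_SWES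
  · exact okm_trans (m := 2) (m' := 2) mw_SNSE mw_SENE
  · exact okm_trans (m := 2) (m' := 2) mw_SNSW mw_SWNW
  · exact okm_trans (m := 2) (m' := 2) mw_SNWE mw_WENS
  · exact okm_trans (m := 2) (m' := 2) mw_SNSN mw_SNWE
  · exact okm_trans (m := 2) (m' := 2) mw_SNSN mw_SNWN
  · exact okm_trans (m := 2) (m' := 2) mw_SNSE mw_SEWS
  · exact okm_trans (m := 2) (m' := 2) mw_SNSN mw_SNSE
  · exact okm_trans (m := 2) (m' := 2) mw_SNSN mw_SNSN
  · exact okm_trans (m := 2) (m' := 2) mw_SNSN mw_SNSW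

theorem reach_SW (h' : e ≠ e') : OKm 4 .S .W e e' := by
  cases e <;> cases e' <;> first | exact absurd rfl h' | skip
  · exact okm_trans (m := 2) (m' := 2) mw_SWSE mw_SEEN
  · exact okm_trans (m := 2) (m' := 2) mw_SWSN mw_SNEW
  · exact okm_trans (m := 2) (m' := 2) mw_SWSW mw_SWES
  · exact okm_trans (m := 2) (m' := 2) mw_SWSE mw_SENE
  · exact okm_trans (m := 2) (m' := 2) mw_SWSW mw_SWNW
  · exact okm_trans (m := 2) (m' := 2) mw_SWEW mw_EWNS
  · exact okm_trans (m := 2) (m' := 2) mw_SWSE mw_SEWE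
  · exact okm_trans (m := 2) (m' := 2) mw_SWSE mw_SEWN
  · exact okm_trans (m := 2) (m' := 2) mw_SWSE mw_SEWS
  · exact okm_trans (m := 2) (m' := 2) mw_SWSE mw_SESE
  · exact okm_trans (m := 2) (m' := 2) mw_SWSE mw_SESN
  · exact okm_trans (m := 2) (m' := 2) mw_SWSE mw_SESW

/-- Everything can be reached in four moves. -/
theorem okm_reach (h : d ≠ d') (h' : e ≠ e') : OKm 4 d d' e e' := by
  cases d <;> cases d' <;> first | exact absurd rfl h | skip
  · exact reach_EN h'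
  · exact reach_EW h'
  · exact reach_ES h'
  · exact reach_NE h'
  · exact reach_NW h'
  · exact reach_NS h'
  · exact reach_WE h'
  · exact reach_WN h'
  · exact reach_WS h'
  · exact reach_SE h'
  · exact reach_SN h'
  · exact reach_SW h'

theorem bS_step (c : ℝ) (hc : 0 < c) (K : ℕ) : ∃ C : ℝ, 0 < C ∧ ∀ (s : Src) (k n : ℕ) (q : I),
    4 ≤ k → k ≤ K * n → RSWreg c n q → bS q s k ≤ C * bS q s (4 * k) := by
  have hex : ∀ d d' : Side, ∃ C : ℝ, 0 < C ∧ ∀ (s : Src) (k n : ℕ) (q : I),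
      4 ≤ k → k ≤ K * n → RSWreg c n q → Pr q (Sep s d d' k) ≤ C * Pr q (Sep s d d' (4 * k)) := by
    intro d d'
    by_cases h : d = d'
    · subst h
      refine ⟨1, one_pos, fun s k n q _ _ _ => ?_⟩
      rw [sep_same, sep_same]
      simp
    · obtain ⟨C, hC, H⟩ := okm_straight h c K hc
      refine ⟨C, hC, fun s k n q hk hkn hR => ?_⟩
      simpa using H s k n q hk hkn hR
  choose C hC H using hex
  have hle : ∀ d d' : Side, C d d' ≤ ∑ a : Side, ∑ b : Side, C a b := by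
    intro d d'
    calc C d d' ≤ ∑ b : Side, C d b :=
          Finset.single_le_sum (f := fun b => C d b) (fun b _ => (hC d b).le) (Finset.mem_univ d')
      _ ≤ ∑ a : Side, ∑ b : Side, C a b :=
          Finset.single_le_sum (f := fun a => ∑ b : Side, C a b)
            (fun a _ => Finset.sum_nonneg fun b _ => (hC a b).le) (Finset.mem_univ d)
  refine ⟨∑ a : Side, ∑ b : Side, C a b, lt_of_lt_of_le (hC .E .E) (hle .E .E),
    fun s k n q hk hkn hR => ?_⟩
  unfold bS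
  rw [Finset.mul_sum]
  refine Finset.sum_le_sum fun d _ => ?_
  rw [Finset.mul_sum]
  refine Finset.sum_le_sum fun d' _ => ?_
  refine (H d d' s k n q hk hkn hR).trans ?_
  exact mul_le_mul_of_nonneg_right (hle d d') measureReal_nonneg

theorem bS_reach (c : ℝ) (hc : 0 < c) (K : ℕ) : ∃ C : ℝ, 0 < C ∧ ∀ (s : Src) (k n : ℕ) (q : I)
    (e e' : Side), e ≠ e' → 4 ≤ k → k ≤ K * n → RSWreg c n q →
      bS q s k ≤ C * Pr q (Sep s e e' (256 * k)) := by
  have hex : ∀ d d' e e' : Side, ∃ C : ℝ, 0 < C ∧ (e ≠ e' → ∀ (s : Src) (k n : ℕ) (q : I),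
      4 ≤ k → k ≤ K * n → RSWreg c n q →
        Pr q (Sep s d d' k) ≤ C * Pr q (Sep s e e' (256 * k))) := by
    intro d d' e e'
    by_cases he : e ≠ e'
    · by_cases h : d = d'
      · subst h
        refine ⟨1, one_pos, fun _ s k n q _ _ _ => ?_⟩
        rw [sep_same]
        have h0 : Pr q (∅ : Set Config) = 0 := measureReal_empty
        rw [h0, one_mul]
        exact measureReal_nonneg
      · obtain ⟨C, hC, H⟩ := okm_reach h he c K hc
        refine ⟨C, hC, fun _ s k n q hk hkn hR => ?_⟩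
        have h1 := H s k n q hk hkn hR
        norm_num at h1
        exact h1
    · exact ⟨1, one_pos, fun h => absurd h he⟩
  choose C hC H using hex
  have hp : 0 < ∑ a : Side, ∑ b : Side, ∑ e : Side, ∑ e' : Side, C a b e e' := by
    refine Finset.sum_pos (fun a _ => Finset.sum_pos (fun b _ => Finset.sum_pos (fun e _ =>
      Finset.sum_pos (fun e' _ => hC a b e e') ⟨.E, Finset.mem_univ _⟩)
      ⟨.E, Finset.mem_univ _⟩) ⟨.E, Finset.mem_univ _⟩) ⟨.E, Finset.mem_univ _⟩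
  refine ⟨_, hp, fun s k n q e e' he hk hkn hR => ?_⟩
  unfold bS
  rw [Finset.sum_mul]
  refine Finset.sum_le_sum fun d _ => ?_
  rw [Finset.sum_mul]
  refine Finset.sum_le_sum fun d' _ => ?_
  refine (H d d' e e' he s k n q hk hkn hR).trans ?_
  refine mul_le_mul_of_nonneg_right ?_ measureReal_nonneg
  calc C d d' e e' ≤ ∑ b : Side, C d d' e b :=
        Finset.single_le_sum (f := fun b => C d d' e b) (fun b _ => (hC d d' e b).le)
          (Finset.mem_univ e')
    _ ≤ ∑ a : Side, ∑ b : Side, C d d' a b :=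
        Finset.single_le_sum (f := fun a => ∑ b : Side, C d d' a b)
          (fun a _ => Finset.sum_nonneg fun b _ => (hC d d' a b).le) (Finset.mem_univ e)

end Pool.Agent.H59.EX

end

section

/-!
# Finite energy, explicit separated configurations
-/

open MeasureTheory ProbabilityTheory unitInterval

namespace Pool.Agent.H59.EX

open Pool.Agent.H89.Perc Pool.Agent.H61.NC

/-- In the regime the density is bounded away from `0` and `1`. -/
theorem density_bound (c : ℝ) (hc : 0 < c) : ∃ δ : ℝ, 0 < δ ∧ ∀ (n : ℕ) (q : I), 1 ≤ n →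
    RSWreg c n q → δ ≤ (q : ℝ) ∧ (q : ℝ) ≤ 1 - δ :=
  ⟨c / 16, by positivity, fun _ _ hn h => Pool.Agent.H29.Sep.rswreg_density hn h⟩

/-- Finite energy: a local event which is not empty has positive probability, uniformly. -/
theorem fin_energy {Λ : Finset Edge} {A : Set Config} (hA : LocalOn Λ A) (hne : A.Nonempty)
    {δ : ℝ} (hδ : 0 < δ) {q : I} (h : δ ≤ (q : ℝ) ∧ (q : ℝ) ≤ 1 - δ) : δ ^ Λ.card ≤ Pr q A := by
  obtain ⟨ω₀, hω₀⟩ := hne
  refine (Pool.Agent.H29.Sep.a4Low_cyl q hδ.le h.1 h.2 ω₀ Λ).trans (Pr_mono ?_)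
  intro ω hω
  exact hA ω₀ ω (fun e he => (hω e he).symm) hω₀

/-! ### Explicit configurations -/

/-- A straight open horizontal path. -/
theorem itera_row {ω : Config} {S : Set Vert} (a b : ℤ) (n : ℕ)
    (hS : ∀ i : ℤ, a ≤ i → i ≤ a + n → ((i, b) : Vert) ∈ S)
    (ho : ∀ i : ℤ, a ≤ i → i < a + n → ω (i, b, false) = true) :
    Conn ω S (a, b) (a + n, b) := by
  induction n with
  | zero =>
    have h := Conn.refl (ω := ω) (hS a le_rfl (by simp))
    simpa using h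
  | succ n ih =>
    have h1 := ih (fun i h2 h3 => hS i h2 (by push_cast; omega))
      (fun i h2 h3 => ho i h2 (by push_cast; omega))
    refine h1.tail ⟨h1.mem_right, hS _ (by omega) (by omega), (a + n, b, false), Or.inl ⟨rfl, ?_⟩,
      ho _ (by omega) (by push_cast; omega)⟩
    simp only [tgt, Bool.false_eq_true, if_false, Prod.mk.injEq, and_true]
    push_cast
    ring

/-- A straight open vertical path. -/
theorem itera_col {ω : Config} {S : Set Vert} (a b : ℤ) (n : ℕ)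
    (hS : ∀ i : ℤ, b ≤ i → i ≤ b + n → ((a, i) : Vert) ∈ S)
    (ho : ∀ i : ℤ, b ≤ i → i < b + n → ω (a, i, true) = true) :
    Conn ω S (a, b) (a, b + n) := by
  induction n with
  | zero =>
    have h := Conn.refl (ω := ω) (hS b le_rfl (by simp))
    simpa using h
  | succ n ih =>
    have h1 := ih (fun i h2 h3 => hS i h2 (by push_cast; omega))
      (fun i h2 h3 => ho i h2 (by push_cast; omega))
    refine h1.tail ⟨h1.mem_right, hS _ (by omega) (by omega), (a, b + n, true), Or.inl ⟨rfl, ?_⟩,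
      ho _ (by omega) (by push_cast; omega)⟩
    simp only [tgt, if_true, Prod.mk.injEq, true_and]
    push_cast
    ring

/-- The explicit configuration: two rows and two columns; the right row has height `j`. -/
def expl (j : ℤ) (k : ℕ) : Config := fun e => decide
  ((e.2.2 = false ∧ e.2.1 = 0 ∧ e.1 < 0) ∨ (e.2.2 = false ∧ e.2.1 = j ∧ 1 - |j| ≤ e.1) ∨
    (e.2.2 = true ∧ (e.1 = 32 * k ∨ e.1 = -(32 * k)) ∧ -(3 * (k : ℤ)) ≤ e.2.1 ∧ e.2.1 < 3 * k))

/-- Explicit separated configurations for a source whose first point is the origin and whose second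
point is the left end of the right row. -/
theorem expl_mem {s : Src} {j : ℤ} {k : ℕ} (hk : 1 ≤ k) (hj : |j| ≤ 1) (hx : s.x = 0)
    (hy : s.y = (1 - |j|, j)) (hc : s.cut (expl j k) = expl j k) :
    expl j k ∈ Sep s .W .E k := by
  have hj' : -1 ≤ j ∧ j ≤ 1 := abs_le.1 hj
  have hab : |j| = 0 ∧ j = 0 ∨ |j| = 1 ∧ (j = 1 ∨ j = -1) := by
    rcases (show j = 0 ∨ j = 1 ∨ j = -1 by omega) with h | h | h <;> subst h <;> simp
  set D : Set Vert := dom .W .E k with hD
  have hmemD : ∀ v : Vert, (-(32 * (k : ℤ)) ≤ v.1 ∧ v.1 ≤ 32 * k ∧ -(32 * (k : ℤ)) ≤ v.2 ∧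
      v.2 ≤ 32 * k) → v ∈ D := by
    intro v hv
    refine Or.inl ?_
    simp only [ball, rect, Set.mem_ofPred_eq, Prod.fst_zero, Prod.snd_zero]
    push_cast
    omega
  have hstep : ∀ p p' : Vert, Step (fillV (T .W k ∪ T .E k) (expl j k)) D p p' →
      (((p.2 = 0 ∧ p.1 ≤ 0) ∨ p ∈ T .W k) → ((p'.2 = 0 ∧ p'.1 ≤ 0) ∨ p' ∈ T .W k)) ∧
      (((p.2 = j ∧ 1 - |j| ≤ p.1) ∨ p ∈ T .E k) →
        ((p'.2 = j ∧ 1 - |j| ≤ p'.1) ∨ p' ∈ T .E k)) := by
    rintro ⟨a, b⟩ ⟨a', b'⟩ ⟨-, -, ⟨x, y, dir⟩, hjo, ho⟩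
    simp only [fillV, expl, Bool.or_eq_true, decide_eq_true_eq, inE, Set.mem_ofPred_eq,
      Set.mem_union, T, rect, src] at ho ⊢
    rcases dir with _ | _
    · simp only [Joins, src, tgt, Bool.false_eq_true, if_false, Prod.mk.injEq] at hjo ho
      simp only [true_and, false_and, or_false] at ho
      omega
    · simp only [Joins, src, tgt, if_true, Prod.mk.injEq] at hjo ho
      simp only [Bool.true_eq_false, false_and, true_and, false_or] at ho
      omega
  have hX : ∀ v, Conn (fillV (T .W k ∪ T .E k) (expl j k)) D 0 v →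
      ((v.2 = 0 ∧ v.1 ≤ 0) ∨ v ∈ T .W k) := by
    intro v hv
    refine hv.induction_right (P := fun v => (v.2 = 0 ∧ v.1 ≤ 0) ∨ v ∈ T .W k)
      (Or.inl ⟨rfl, le_rfl⟩) ?_
    intro p p' _ hp h
    exact (hstep p p' hp).1 h
  have hY : ∀ v, Conn (fillV (T .W k ∪ T .E k) (expl j k)) D (1 - |j|, j) v →
      ((v.2 = j ∧ 1 - |j| ≤ v.1) ∨ v ∈ T .E k) := by
    intro v hv
    refine hv.induction_right (P := fun v => (v.2 = j ∧ 1 - |j| ≤ v.1) ∨ v ∈ T .E k)
      (Or.inl ⟨rfl, le_rfl⟩) ?_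
    intro p p' _ hp h
    exact (hstep p p' hp).2 h
  refine ⟨?_, ?_, ?_, ?_, ?_⟩
  · -- west fence
    rw [hc, hx]
    refine ⟨(-(32 * (k : ℤ)), -(3 * (k : ℤ))), (-(32 * (k : ℤ)), 3 * (k : ℤ)), rfl, rfl, ?_, ?_⟩
    · have h := itera_col (ω := expl j k) (S := T .W k) (-(32 * (k : ℤ))) (-(3 * (k : ℤ))) (6 * k)
        (fun i h1 h2 => by
          simp only [T, rect, Set.mem_ofPred_eq]
          push_cast at h2
          omega)
        (fun i h1 h2 => by
          simp only [expl, decide_eq_true_eq]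
          push_cast at h2
          right; right
          exact ⟨trivial, Or.inr trivial, by omega, by omega⟩)
      have he : -(3 * (k : ℤ)) + ((6 * k : ℕ) : ℤ) = 3 * k := by push_cast; ring
      rwa [he] at h
    · have h1 := itera_row (ω := expl j k) (S := D) (-(32 * (k : ℤ))) 0 (32 * k)
        (fun i h1 h2 => hmemD _ (by push_cast at h2; dsimp only; omega))
        (fun i h1 h2 => by
          simp only [expl, decide_eq_true_eq]
          push_cast at h2
          left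
          exact ⟨trivial, trivial, by omega⟩)
      have he : -(32 * (k : ℤ)) + ((32 * k : ℕ) : ℤ) = 0 := by push_cast; ring
      rw [he] at h1
      have h2 := itera_col (ω := expl j k) (S := D) (-(32 * (k : ℤ))) (-(3 * (k : ℤ))) (3 * k)
        (fun i h1 h2 => hmemD _ (by push_cast at h2; dsimp only; omega))
        (fun i h1 h2 => by
          simp only [expl, decide_eq_true_eq]
          push_cast at h2
          right; right
          exact ⟨trivial, Or.inr trivial, by omega, by omega⟩)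
      have he2 : -(3 * (k : ℤ)) + ((3 * k : ℕ) : ℤ) = 0 := by push_cast; ring
      rw [he2] at h2
      exact (h2.trans h1).symm
  · -- east fence
    rw [hc, hy]
    refine ⟨(32 * (k : ℤ), -(3 * (k : ℤ))), (32 * (k : ℤ), 3 * (k : ℤ)), rfl, rfl, ?_, ?_⟩
    · have h := itera_col (ω := expl j k) (S := T .E k) (32 * (k : ℤ)) (-(3 * (k : ℤ))) (6 * k)
        (fun i h1 h2 => by
          simp only [T, rect, Set.mem_ofPred_eq]
          push_cast at h2
          omega)
        (fun i h1 h2 => by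
          simp only [expl, decide_eq_true_eq]
          push_cast at h2
          right; right
          exact ⟨trivial, Or.inl trivial, by omega, by omega⟩)
      have he : -(3 * (k : ℤ)) + ((6 * k : ℕ) : ℤ) = 3 * k := by push_cast; ring
      rwa [he] at h
    · have h1 := itera_row (ω := expl j k) (S := D) (1 - |j|) j (32 * k - 1 + j.natAbs)
        (fun i h1 h2 => hmemD _ (by
          have : ((32 * k - 1 + j.natAbs : ℕ) : ℤ) = 32 * k - 1 + |j| := by
            rw [Nat.cast_add, Int.natCast_natAbs]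
            have : ((32 * k - 1 : ℕ) : ℤ) = 32 * k - 1 := by omega
            rw [this]
          dsimp only
          omega))
        (fun i h1 h2 => by
          simp only [expl, decide_eq_true_eq]
          right; left
          exact ⟨trivial, trivial, h1⟩)
      have he : 1 - |j| + ((32 * k - 1 + j.natAbs : ℕ) : ℤ) = 32 * k := by
        rw [Nat.cast_add, Int.natCast_natAbs]
        have : ((32 * k - 1 : ℕ) : ℤ) = 32 * k - 1 := by omega
        rw [this]
        ring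
      rw [he] at h1
      have h2 := itera_col (ω := expl j k) (S := D) (32 * (k : ℤ)) (-(3 * (k : ℤ)))
        (3 * k + j).toNat
        (fun i h1 h2 => hmemD _ (by
          rw [Int.toNat_of_nonneg (by omega)] at h2
          dsimp only
          omega))
        (fun i h1 h2 => by
          rw [Int.toNat_of_nonneg (by omega)] at h2
          simp only [expl, decide_eq_true_eq]
          right; right
          exact ⟨trivial, Or.inl trivial, by omega, by omega⟩)
      have he2 : -(3 * (k : ℤ)) + ((3 * k + j).toNat : ℤ) = j := by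
        rw [Int.toNat_of_nonneg (by omega)]
        ring
      rw [he2] at h2
      exact h1.trans h2.symm
  · rw [hc, hx, hy]
    intro h
    have := hX _ h
    simp only [T, rect, Set.mem_ofPred_eq] at this
    omega
  · rw [hc, hx]
    intro v hv h
    have := hX v h
    simp only [T, rect, Set.mem_ofPred_eq, sphere, ball, Prod.fst_zero, Prod.snd_zero, Mouth]
      at this hv ⊢
    push_cast at hv
    omega
  · rw [hc, hy]
    intro v hv h
    have := hY v h
    simp only [T, rect, Set.mem_ofPred_eq, sphere, ball, Prod.fst_zero, Prod.snd_zero, Mouth]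
      at this hv ⊢
    push_cast at hv
    omega

theorem sep_sE_nonempty (dir : Bool) {k : ℕ} (hk : 1 ≤ k) : (Sep (sE dir) .W .E k).Nonempty := by
  cases dir
  · refine ⟨expl 0 k, expl_mem hk (by simp) rfl (by simp [sE, tgt]) ?_⟩
    funext e
    simp only [Src.cut, closeS, sE, Finset.coe_singleton, Set.mem_singleton_iff]
    by_cases he : e = (0, 0, false)
    · subst he
      simp [expl]
    · simp [he]
  · refine ⟨expl 1 k, expl_mem hk (by simp) rfl (by simp [sE, tgt]) ?_⟩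
    funext e
    simp only [Src.cut, closeS, sE, Finset.coe_singleton, Set.mem_singleton_iff]
    by_cases he : e = (0, 0, true)
    · subst he
      have h0 : expl 1 k (0, 0, true) = false := by
        simp only [expl, decide_eq_false_iff_not]
        intro h
        rcases h with h | h | h
        · exact absurd h.1 (by decide)
        · exact absurd h.1 (by decide)
        · omega
      simp [h0]
    · simp [he]

end Pool.Agent.H59.EX

end

section

/-!
# With the source edge closed there is no winding path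
-/

open MeasureTheory ProbabilityTheory unitInterval

namespace Pool.Agent.H26.ST

open Pool.Agent.H89.Perc Pool.Agent.H61.NC Pool.Agent.H59.EX

variable {N k : ℕ} {ζ η : Config} {X Y : Set Vert} {a b : Vert} {i j : ℤ × ℤ}

theorem perInv_per (N : ℕ) (ω : Config) : PerInv N (per N ω) := by
  rintro z ⟨x, y, t⟩
  simp only [per, shiftE]
  rw [Int.add_mul_emod_self_right, Int.add_mul_emod_self_right]

theorem in_sh : In N k X Y i (sh N j a) ↔ In N k X Y (i.1 + j.1, i.2 + j.2) a := by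
  have e1 : sh N i (sh N j a) = sh N (i.1 + j.1, i.2 + j.2) a := by
    simp only [sh, Prod.mk.injEq]
    constructor <;> ring
  have e2 : sh N (i.1 + 1, i.2) (sh N j a) = sh N (i.1 + j.1 + 1, i.2 + j.2) a := by
    simp only [sh, Prod.mk.injEq]
    constructor <;> ring
  unfold In
  rw [e1, e2]

theorem in_sh0 : In N k X Y (0, 0) (sh N j a) ↔ In N k X Y j a := by
  rw [in_sh]
  simp

/-- Open determined edges have both endpoints in the same sausage. -/
theorem TD.det (h : TD N k ζ X Y) {e : Edge} (he : Joins e a b) (ho : ζ e = true)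
    (ht : e ∈ Pool.Agent.H59.EX.detE (modE N) .W .E k (EC N k) (X ∪ Y)) :
    ∃ i, In N k X Y i a ∧ In N k X Y i b := by
  obtain ⟨e', he', hm⟩ := ht
  have hz : ∃ z : ℤ × ℤ, e' = shiftE (-(z.1 * N), -(z.2 * N)) e := by
    obtain ⟨x, y, t⟩ := e
    obtain ⟨x', y', t'⟩ := e'
    simp only [modE, Prod.mk.injEq] at hm
    obtain ⟨h1, h2, h3⟩ := hm
    obtain ⟨m1, hm1⟩ : (N : ℤ) ∣ x - x' := Int.ModEq.dvd (Int.ModEq.symm h1)
    obtain ⟨m2, hm2⟩ : (N : ℤ) ∣ y - y' := Int.ModEq.dvd (Int.ModEq.symm h2)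
    refine ⟨(m1, m2), ?_⟩
    simp only [shiftE, Prod.mk.injEq]
    refine ⟨?_, ?_, h3.symm⟩
    · rw [mul_comm] at hm1; omega
    · rw [mul_comm] at hm2; omega
  obtain ⟨z, hz⟩ := hz
  subst hz
  have hj := joins_sh (N := N) z he
  have ho' : ζ (shiftE (-(z.1 * N), -(z.2 * N)) e) = true := by rw [per_sh h.per]; exact ho
  have hX : sh N z a ∈ X → sh N z b ∈ X → ∃ i, In N k X Y i a ∧ In N k X Y i b := by
    intro h1 h2
    refine ⟨(z.1 - 1, z.2), Or.inr (Or.inr ?_), Or.inr (Or.inr ?_)⟩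
    · simpa using h1
    · simpa using h2
  rcases he' with he' | he' | he'
  · rw [touch_of_joins hj] at he'
    obtain ⟨⟨h1, h2⟩, h3⟩ := he'
    rcases h3 with (h3 | h3) | (h3 | h3)
    · exact hX h3 (h.clX _ h3 _ h2 _ hj ho')
    · exact ⟨z, Or.inl h3, Or.inl (h.clY _ h3 _ h2 _ hj ho')⟩
    · exact hX (h.clX _ h3 _ h1 _ hj.symm ho') h3
    · exact ⟨z, Or.inl (h.clY _ h3 _ h1 _ hj.symm ho'), Or.inl h3⟩
  · have h1 := (inE_of_joins hj).1 he'.1
    exact ⟨z, Or.inr (Or.inl h1.1), Or.inr (Or.inl h1.2)⟩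
  · have h1 := (inE_of_joins hj).1 he'
    exact hX (h.TX h1.1) (h.TX h1.2)

/-- The cluster of a sausage does not reach other sausages. -/
theorem TD.confine (h : TD N k ζ X Y) {ρ K : ℕ} (hρ : 1 ≤ ρ) (hρk : 8 * ρ ≤ k) (hK : N ≤ K * ρ)
    (hle : ∀ e, ζ e = true → η e = true)
    (hseal : η ∈ Seal (grid ρ K) ρ (Pool.Agent.H59.EX.detE (modE N) .W .E k (EC N k) (X ∪ Y)))
    {x z : Vert} (hx : In N k X Y (0, 0) x) (hc : Conn ζ Set.univ x z) (hz : In N k X Y j z) :
    j = (0, 0) := by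
  have hk := h.hk
  have hN : (128 * k : ℤ) ≤ N := by exact_mod_cast h.hN
  have hρk' : (8 * ρ : ℤ) ≤ k := by exact_mod_cast hρk
  by_contra hj
  have key := seal_confine (η := ζ) (ω := η) (W := Set.univ) (S := {v | In N k X Y (0, 0) v})
    (F := {v | ∃ j : ℤ × ℤ, j ≠ (0, 0) ∧ In N k X Y j v})
    (Ex := {a | 28 * (k : ℤ) ≤ a.1 ∧ a.1 ≤ N - 28 * k ∧ -(4 * k : ℤ) ≤ a.2 ∧ a.2 ≤ 4 * k})
    (t := Pool.Agent.H59.EX.detE (modE N) .W .E k (EC N k) (X ∪ Y)) (G := grid ρ K) (ρ := ρ)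
    (fun e _ => hle e) hseal ?_ ?_ ?_ ?_ ?_ (x := x) (z := z) hx hc
  · rcases key with h1 | ⟨h1, -⟩
    · exact hj (h.sep hz h1 (Or.inl rfl))
    · exact h1 ⟨j, hj, hz⟩
  · rintro a ⟨h1, h2, h3, h4⟩
    have hK' : (N : ℤ) ≤ ((K * ρ : ℕ) : ℤ) := by exact_mod_cast hK
    refine exists_grid hρ ?_
    rw [mem_ball, Prod.fst_zero, Prod.snd_zero]
    omega
  · intro a b e he ho _ _ ha hb
    refine ⟨h.exit ha hb he ho, ?_, ?_⟩
    · rintro ⟨j', hj', hb'⟩
      exact hj' (h.sep hb' ha (Or.inr ⟨e, he.symm, ho⟩))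
    · intro ht
      obtain ⟨i, hi1, hi2⟩ := h.det he ho ht
      have h1 := h.sep hi1 ha (Or.inl rfl)
      subst h1
      exact hb hi2
  · rintro a b e he ho - - ha ha' ⟨j', hj', hb⟩ x ⟨h1, h2, h3, h4⟩ hbx
    have ha2 : ¬ In N k X Y (0, 0) (sh N j' a) := by
      rw [in_sh0]
      exact fun h5 => ha' ⟨j', hj', h5⟩
    have hb2 : In N k X Y (0, 0) (sh N j' b) := in_sh0.2 hb
    have h5 := h.exit hb2 ha2 (joins_sh j' he.symm) (by rw [per_sh h.per]; exact ho)
    have e1 := mulN N j'.1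
    have e2 := mulN N j'.2
    obtain ⟨j1, j2⟩ := j'
    have hj3 : j1 ≠ 0 ∨ j2 ≠ 0 := by
      by_contra hcon
      push Not at hcon
      exact hj' (by rw [hcon.1, hcon.2])
    simp only [sh] at h5
    rw [mem_ball] at hbx
    push_cast at hbx
    simp only at e1 e2
    omega
  · intro a b e he ho _ _ ha ha' _ _ ht
    obtain ⟨i, hi1, hi2⟩ := h.det he ho ht
    by_cases h0 : i = (0, 0)
    · subst h0
      exact ha hi1
    · exact ha' ⟨i, h0, hi1⟩
  · intro a b e he ho _ _ ha ha' _ ht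
    obtain ⟨i, hi1, hi2⟩ := h.det he ho ht
    by_cases h0 : i = (0, 0)
    · subst h0
      exact ha hi1
    · exact ha' ⟨i, h0, hi1⟩

theorem conn_sh {ζ : Config} (hp : PerInv N ζ) (j : ℤ × ℤ) {S : Set Vert} {T : Set Vert}
    (hST : ∀ v ∈ S, sh N j v ∈ T) {a b : Vert} (h : Conn ζ S a b) :
    Conn ζ T (sh N j a) (sh N j b) := by
  refine h.map (sh N j) hST ?_
  intro e a b he ho
  exact ⟨_, joins_sh j he, by rw [per_sh hp]; exact ho⟩

/-- A winding path avoiding all the sausages crosses the strip. -/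
theorem TD.strip (h : TD N k ζ X Y) {u v : Vert} (hc : Conn ζ {w | ∀ i, ¬ In N k X Y i w} u v)
    (huv : u.1 + 2 * N ≤ v.1) : HCross ζ (40 * k) (50 * k) (3 * k + 1) (N - 3 * k - 1) := by
  have hk := h.hk
  have hN : (128 * k : ℤ) ≤ N := by exact_mod_cast h.hN
  have hN0 : (0 : ℤ) < N := by omega
  -- the horizontal position
  obtain ⟨m, hm⟩ : ∃ m : ℤ, m = (u.1 - 40 * k) / N + 1 := ⟨_, rfl⟩
  have hm1 : u.1 ≤ 40 * k + m * N := by
    have := Int.lt_ediv_add_one_mul_self (u.1 - 40 * k) hN0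
    rw [← hm] at this
    omega
  have hm2 : 40 * k + m * N ≤ u.1 + N := by
    have := Int.ediv_mul_le (u.1 - 40 * k) hN0.ne'
    have e : m * N = (u.1 - 40 * k) / N * N + N := by rw [hm]; ring
    omega
  obtain ⟨u₁, v₁, hu₁, hv₁, hc₁, -, -⟩ := hc.cross_x (a := 40 * k + m * N) (b := 50 * k + m * N)
    hm1 (by omega) (by omega)
  -- the vertical position
  have hC : ∀ (l : ℤ) (w : Vert), (∀ i, ¬ In N k X Y i w) → 40 * k + m * N ≤ w.1 →
      w.1 ≤ 50 * k + m * N → w.2 < l * N - 3 * k ∨ l * N + 3 * k < w.2 := by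
    intro l w hw h1 h2
    by_contra hcon
    push Not at hcon
    refine hw (m, l) (Or.inr (Or.inl ?_))
    rw [mem_Cor]
    simp only [sh]
    omega
  obtain ⟨l, hl⟩ : ∃ l : ℤ, l = u₁.2 / N := ⟨_, rfl⟩
  have hl1 : l * N ≤ u₁.2 := by
    rw [hl]; exact Int.ediv_mul_le _ hN0.ne'
  have hl2 : u₁.2 < (l + 1) * N := by
    rw [hl]; exact Int.lt_ediv_add_one_mul_self _ hN0
  have hl3 : (l + 1) * N = l * N + N := by ring
  have key : Conn ζ ({w | ∀ i, ¬ In N k X Y i w} ∩ {w | 40 * k + m * N ≤ w.1 ∧ w.1 ≤ 50 * k + m * N} ∩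
      {w | l * N + 3 * k + 1 ≤ w.2 ∧ w.2 ≤ l * N + N - 3 * k - 1}) u₁ v₁ := by
    have h0 := hc₁.mem_left
    have a1 := hC l u₁ h0.1 h0.2.1 h0.2.2
    have a2 := hC (l + 1) u₁ h0.1 h0.2.1 h0.2.2
    refine hc₁.induction_right (P := fun w => Conn ζ _ u₁ w) (Conn.refl ⟨h0, ?_, ?_⟩) ?_
    · omega
    · omega
    · intro p q h1 h2 h3
      have hp := h3.mem_right.2
      have hq := h2.2.1
      have hn := h2.snd_le
      have a3 := hC l q hq.1 hq.2.1 hq.2.2
      have a4 := hC (l + 1) q hq.1 hq.2.1 hq.2.2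
      simp only [Set.mem_ofPred_eq] at hp
      refine h3.tail ⟨h3.mem_right, ⟨hq, ?_⟩, h2.2.2⟩
      simp only [Set.mem_ofPred_eq]
      omega
  refine ⟨sh N (m, l) u₁, sh N (m, l) v₁, ?_, ?_, ?_⟩
  · simp only [sh]; omega
  · simp only [sh]; omega
  · refine conn_sh h.per (m, l) ?_ key
    rintro w ⟨⟨-, h1, h2⟩, h3, h4⟩
    simp only [sh, rect, Set.mem_ofPred_eq]
    omega

/-- No winding path. -/
theorem TD.not_wind (h : TD N k ζ X Y) {ρ K : ℕ} (hρ : 1 ≤ ρ) (hρk : 8 * ρ ≤ k) (hK : N ≤ K * ρ)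
    (hle : ∀ e, ζ e = true → η e = true)
    (hH : η ∈ HT N k ρ K (X ∪ Y)) {u : Vert} {p q : ℤ} (hp : p ≠ 0) :
    ¬ Conn ζ Set.univ u (u.1 + p * N, u.2 + q * N) := by
  intro hc
  have hk := h.hk
  have hN : (128 * k : ℤ) ≤ N := by exact_mod_cast h.hN
  have hsh : ∀ w : Vert, sh N (-p, -q) w = (w.1 + p * N, w.2 + q * N) := by
    intro w
    simp only [sh, Prod.mk.injEq]
    constructor <;> ring
  by_cases hU : ∃ w, Conn ζ Set.univ u w ∧ ∃ i, In N k X Y i w
  · obtain ⟨w, hw, i, hi⟩ := hU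
    have h1 : Conn ζ Set.univ (sh N (-p, -q) u) (sh N (-p, -q) w) :=
      conn_sh h.per (-p, -q) (T := Set.univ) (fun _ _ => trivial) hw
    rw [hsh] at h1
    have h2 : Conn ζ Set.univ w (sh N (-p, -q) w) := (hw.symm.trans hc).trans h1
    have h3 := conn_sh h.per i (T := Set.univ) (fun _ _ => trivial) h2
    have h4 : In N k X Y (p, q) (sh N i (sh N (-p, -q) w)) := by
      rw [in_sh, in_sh]
      have e : (p + i.1 + (-p, -q).1, q + i.2 + (-p, -q).2) = i :=
        Prod.ext (by simp only; ring) (by simp only; ring)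
      simp only at e ⊢
      rw [e]
      exact hi
    have h5 := h.confine hρ hρk hK hle hH.1 (in_sh0.2 hi) h3 h4
    rw [Prod.mk.injEq] at h5
    exact hp h5.1
  · push Not at hU
    have h1 : Conn ζ {w | ∀ i, ¬ In N k X Y i w} u (u.1 + p * N, u.2 + q * N) := by
      refine hc.induction_right (P := fun w => Conn ζ {w | ∀ i, ¬ In N k X Y i w} u w)
        (Conn.refl (hU u (Conn.refl trivial))) ?_
      intro w w' hw hs ih
      exact ih.tail ⟨ih.mem_right, hU w' (hw.tail hs), hs.2.2⟩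
    have hinv : ∀ (j : ℤ × ℤ), ∀ v ∈ {w | ∀ i, ¬ In N k X Y i w},
        sh N j v ∈ {w | ∀ i, ¬ In N k X Y i w} := by
      intro j v hv i hi
      rw [in_sh] at hi
      exact hv _ hi
    have h2 := conn_sh h.per (-p, -q) (hinv _) h1
    have h3 := h1.trans (by rw [← hsh u] at h2 ⊢; exact h2)
    have hX : ¬ HCross ζ (40 * k) (50 * k) (3 * k + 1) (N - 3 * k - 1) := by
      rintro ⟨a, b, h4, h5, h6⟩
      exact hH.2 ⟨a, b, h4, h5, h6.mono le_rfl hle⟩
    have e1 := mulN N p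
    rcases lt_or_gt_of_ne hp with h0 | h0
    · refine hX (h.strip h3.symm ?_)
      simp only [sh]
      have e2 : -p * (N : ℤ) = -(p * N) := by ring
      rw [e2]
      omega
    · refine hX (h.strip h3 ?_)
      simp only [sh]
      have e2 : -p * (N : ℤ) = -(p * N) := by ring
      rw [e2]
      omega

theorem zeta_cut {N : ℕ} {d : Bool} {s : Src} (hs : IsSrc s d) {ω : Config} {e : Edge}
    (h : per N (Function.update ω (0, 0, d) false) e = true) : s.cut (per N ω) e = true := by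
  have hne : modE N e ≠ (0, 0, d) := by
    intro h1
    have h2 : per N (Function.update ω (0, 0, d) false) e =
        Function.update ω (0, 0, d) false (modE N e) := rfl
    rw [h2, h1, Function.update_self] at h
    exact absurd h (by simp)
  have h3 : per N ω e = true := by
    have h2 : per N (Function.update ω (0, 0, d) false) e =
        Function.update ω (0, 0, d) false (modE N e) := rfl
    rw [h2, Function.update_of_ne hne] at h
    exact h
  unfold Src.cut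
  rw [closeS_true]
  refine ⟨h3, ?_⟩
  rw [hs.E]
  intro h4
  rw [Finset.coe_singleton, Set.mem_singleton_iff] at h4
  refine hne ?_
  rw [h4]
  simp [modE]

theorem td_of_sep {d : Bool} {s : Src} (hs : IsSrc s d) (hk : 64 ≤ k) (hN : 128 * k ≤ N)
    {ω : Config} (h1 : per N ω ∈ Pool.Agent.H59.EX.Sep s .W .E k) :
    TD N k (per N (Function.update ω (0, 0, d) false)) (FX s .W .E k (per N ω))
      (FY s .W .E k (per N ω)) := by
  obtain ⟨hx, hy, hxy, hmx, hmy⟩ := h1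
  have hfill : ∀ (x : Vert) (Tt : Set Vert), Tt ⊆ T .W k ∪ T .E k →
      (∀ u ∈ Tt, ∀ v ∈ Tt, Conn allOpen Tt u v) →
      (∃ u ∈ Tt, Conn (s.cut (per N ω)) (dom .W .E k) x u) →
      Tt ⊆ clus (fillV (T .W k ∪ T .E k) (s.cut (per N ω))) (dom .W .E k) {x} := by
    rintro x Tt hT hcon ⟨u, hu, hc⟩ v hv
    rw [mem_clus_single]
    refine (hc.mono le_rfl fun e he => ?_).trans (conn_fillV (fun w hw => Or.inr hw)
      ((hcon u hu v hv).mono_set hT))
    rw [fillV_true]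
    exact Or.inl he
  refine ⟨hk, hN, perInv_per _ _, clus_sub, clus_sub, ?_, ?_, ?_, ?_, ?_, ?_, ?_⟩
  · exact hfill s.x _ Set.subset_union_left (fun u hu v hv => conn_rect hu hv) (fence_mem hx)
  · exact hfill s.y _ Set.subset_union_right (fun u hu v hv => conn_rect hu hv) (fence_mem hy)
  · intro v hv hv'
    unfold FX at hv
    unfold FY at hv'
    rw [mem_clus_single] at hv hv'
    exact hxy (hv.trans hv'.symm)
  · intro a ha b hb e he ho
    refine clus_step ha ⟨clus_sub ha, hb, e, he, ?_⟩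
    rw [fillV_true]
    exact Or.inl (zeta_cut hs ho)
  · intro a ha b hb e he ho
    refine clus_step ha ⟨clus_sub ha, hb, e, he, ?_⟩
    rw [fillV_true]
    exact Or.inl (zeta_cut hs ho)
  · intro v hv hv'
    exact hmx v hv' (mem_clus_single.1 hv)
  · intro v hv hv'
    exact hmy v hv' (mem_clus_single.1 hv)

theorem closed_not_wind {N k ρ K : ℕ} {d : Bool} {s : Src} (hs : IsSrc s d) (hk : 64 ≤ k)
    (hN : 128 * k ≤ N) (hρ : 1 ≤ ρ) (hρk : 8 * ρ ≤ k) (hK : N ≤ K * ρ) {ω : Config}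
    (h1 : per N ω ∈ Pool.Agent.H59.EX.Sep s .W .E k)
    (h3 : per N ω ∈ HT N k ρ K (FX s .W .E k (per N ω) ∪ FY s .W .E k (per N ω))) :
    Function.update ω (0, 0, d) false ∉ Wind N := by
  rintro ⟨u, p, q, hp, hc⟩
  exact (td_of_sep hs hk hN h1).not_wind hρ hρk hK (fun e he => cut_le (zeta_cut hs he)) h3 hp hc

end Pool.Agent.H26.ST

end
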