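import Pool.Agent.H31.PT.M08
import Pool.Agent.H31.PT.M10
import Pool.Agent.H31.PT.M11
import Pool.Agent.H31.PT.M13
import Pool.Agent.H31.PT.M14
import Pool.Agent.H31.PT.M16
import Pool.Agent.H31.PT.M17

/-! The parts of this file: H83.Site.PcRange, H92.SN.A4B, H38.SK.Dict, H38.SK.WindT, H38.SK.WindP, H92.SN.TSym, H83.SK.P29.A4Low, H38.SK.N59.Seal, H38.SK.N59.St4, H38.SK.N59.St2, H38.SK.N59.GeoP, H38.SK.N59.GeoAll, H38.SK.N59.MoveStr, H83.SK.PST.Defs. -/

section

/-!
# The critical density is neither zero nor one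
-/

set_option autoImplicit false

open MeasureTheory ProbabilityTheory unitInterval

namespace Pool.Agent.H83.Site

open Pool.Agent.H89.Perc

theorem Pr_open (p : I) (e : Edge) : Pr p {ω : Config | ω e = true} = p := by
  have hl : LocalOn {e} {ω : Config | ω e = true} := by
    intro ω ω' h hω
    simp only [Set.mem_ofPred_eq] at hω ⊢
    rw [← h e (Finset.mem_singleton_self e)]; exact hω
  rw [Pr_eq_update hl e]
  have h1 : {ω : Config | Function.update ω e true ∈ {ω : Config | ω e = true}} = Set.univ := by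
    ext ω; simp
  have h2 : {ω : Config | Function.update ω e false ∈ {ω : Config | ω e = true}} = ∅ := by
    ext ω; simp
  rw [h1, h2]
  simp [Pr]

theorem BXP.pos {p : I} {r : Bool} (h : BXP p r) : (0 : ℝ) < p := by
  obtain ⟨c, hc, h1⟩ := h 1
  have h2 := h1 1 le_rfl
  have h3 : PT p r {η | HC η 0 ((1 : ℕ) * (1 : ℕ)) 0 (1 : ℕ)} ≤
      Pr p {ω : Config | ω (0, 0, false) = true} + Pr p {ω : Config | ω (0, 1, false) = true} := by
    refine le_trans ?_ Pr_union_le
    unfold PT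
    refine Pr_mono ?_
    rintro ω ⟨y, y', hc⟩
    have hm := hc.mem_left
    have ho := hc.open_left
    rw [mem_TR_site] at hm
    have hy : y = 0 ∨ y = 1 := by
      have h1 := hm.2.2.1
      have h2 := hm.2.2.2
      have : ((1 : ℕ) : ℤ) = 1 := rfl
      omega
    simp only [full, Bool.false_eq_true, if_false] at ho
    rcases hy with rfl | rfl
    · exact Or.inl ho
    · exact Or.inr ho
  rw [Pr_open, Pr_open] at h3
  have h4 := h2.trans h3
  linarith

theorem pc_pos : (0 : ℝ) < pc := bxp_pc.1.pos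

theorem pc_lt_one : (pc : ℝ) < 1 := by
  have h := bxp_pc.2.pos
  have : ((σ pc : I) : ℝ) = 1 - pc := rfl
  rw [this] at h
  linarith

end Pool.Agent.H83.Site

end

section

/-!
# Basic properties of the four-arm event of a site, in the plane and on the torus
-/

set_option autoImplicit false

open MeasureTheory ProbabilityTheory unitInterval

namespace Pool.Agent.H92.SN

open Pool.Agent.H89.Perc
open Pool.Agent.H61.NC (modE fill mid)
open Pool.Agent.H83.SK (sv sit)
open Pool.Agent.H90.AL (dT)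

/-- The sites of the square with centre `v` and half side `r`. -/
noncomputable def sBall (v : Vert) (r : ℕ) : Finset Edge :=
  Finset.Icc (v.1 - r) (v.1 + r) ×ˢ Finset.Icc (v.2 - r) (v.2 + r) ×ˢ {false}

theorem mem_tSites {N : ℕ} {e : Edge} :
    e ∈ tSites N ↔ (0 ≤ e.1 ∧ e.1 < N) ∧ (0 ≤ e.2.1 ∧ e.2.1 < N) ∧ e.2.2 = false := by
  simp only [tSites, Finset.mem_product, Finset.mem_Ico, Finset.mem_singleton]

theorem mem_blkS {N r : ℕ} {e : Edge} : e ∈ blkS N r ↔
    (mid N - r ≤ e.1 ∧ e.1 ≤ mid N + r) ∧ (mid N - r ≤ e.2.1 ∧ e.2.1 ≤ mid N + r) ∧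
      e.2.2 = false := by
  simp only [blkS, Finset.mem_product, Finset.mem_Icc, Finset.mem_singleton]

theorem mem_sBall {v : Vert} {r : ℕ} {e : Edge} :
    e ∈ sBall v r ↔ src e ∈ ball v r ∧ e.2.2 = false := by
  simp only [sBall, Finset.mem_product, Finset.mem_Icc, Finset.mem_singleton, mem_ball, src]
  tauto

theorem sv_src {e : Edge} (h : e.2.2 = false) : sv (src e) = e := by
  obtain ⟨x, y, t⟩ := e
  simp only at h
  subst h
  rfl

theorem src_sv (v : Vert) : src (sv v) = v := rfl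

theorem sv_ne {u v : Vert} (h : u ≠ v) : sv u ≠ sv v :=
  fun h' => h (Pool.Agent.H83.SK.sv_injective h')

theorem tSites_sub (N : ℕ) : tSites N ⊆ tEdges N := by
  intro e he
  rw [mem_tSites] at he
  simp only [tEdges, Finset.mem_product, Finset.mem_Ico, Finset.mem_univ, and_true]
  exact ⟨he.1, he.2.1⟩

/-- The induced configuration with the site `v` closed. -/
theorem sit_shut (v : Vert) (w : Config) : sit (shut v w) = closeV v (sit w) := by
  funext e
  simp only [sit, shut, closeV]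
  by_cases h1 : src e = v
  · subst h1
    simp
  · by_cases h2 : tgt e = v
    · subst h2
      simp
    · rw [Function.update_of_ne (sv_ne h1), Function.update_of_ne (sv_ne h2)]
      simp [h1, h2]

theorem closeV_le {v : Vert} {ω : Config} : ∀ e, closeV v ω e = true → ω e = true := by
  intro e he
  simp only [closeV, Bool.and_eq_true] at he
  exact he.1

theorem closeV_congr {v : Vert} {e : Edge} {ω ω' : Config} (h : ω e = ω' e) :
    closeV v ω e = closeV v ω' e := by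
  unfold closeV
  rw [h]

/-- A site configuration determines the induced configuration inside a ball. -/
theorem sit_congr_ball {w w' : Config} {v : Vert} {r : ℕ} (h : ∀ e ∈ sBall v r, w e = w' e)
    {e : Edge} (h1 : src e ∈ ball v r) (h2 : tgt e ∈ ball v r) : sit w e = sit w' e := by
  have k1 : sv (src e) ∈ sBall v r := mem_sBall.2 ⟨by rw [src_sv]; exact h1, rfl⟩
  have k2 : sv (tgt e) ∈ sBall v r := mem_sBall.2 ⟨by rw [src_sv]; exact h2, rfl⟩
  simp only [sit]
  rw [h _ k1, h _ k2]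

private theorem a4B_local {v : Vert} {r : ℕ} {ω ω' : Config}
    (h : ∀ e, src e ∈ ball v r → tgt e ∈ ball v r → ω e = ω' e) (hω : ω ∈ A4 v r) :
    ω' ∈ A4 v r := by
  have key : ∀ x y, Conn (closeV v ω) (ball v r) x y → Conn (closeV v ω') (ball v r) x y :=
    fun x y hc => hc.congr fun e h1 h2 => closeV_congr (h e h1 h2)
  have key' : ∀ x y, Conn (closeV v ω') (ball v r) x y → Conn (closeV v ω) (ball v r) x y :=
    fun x y hc => hc.congr fun e h1 h2 => closeV_congr (h e h1 h2).symm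
  obtain ⟨a, b, ha, hb, ⟨u, hu, h1⟩, ⟨u', hu', h2⟩, h3⟩ := hω
  exact ⟨a, b, ha, hb, ⟨u, hu, key _ _ h1⟩, ⟨u', hu', key _ _ h2⟩, fun h4 => h3 (key' _ _ h4)⟩

theorem localOn_A4 (v : Vert) (r : ℕ) :
    LocalOn (eRect (v.1 - r) (v.1 + r) (v.2 - r) (v.2 + r)) (A4 v r) := by
  intro ω ω' h hω
  exact a4B_local (fun e h1 _ => h e (mem_eRect.2 h1)) hω

theorem localOn_sitA4 (v : Vert) (r : ℕ) : LocalOn (sBall v r) {w | sit w ∈ A4 v r} := by
  intro w w' h hw
  exact a4B_local (fun e h1 h2 => sit_congr_ball h h1 h2) hw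

theorem Nb.cases {v a : Vert} (h : Nb v a) : a = (v.1 + 1, v.2) ∨ a = (v.1, v.2 + 1) ∨
    a = (v.1 - 1, v.2) ∨ a = (v.1, v.2 - 1) := by
  obtain ⟨e, h | h⟩ := h
  · obtain ⟨h1, h2⟩ := h
    subst h1 h2
    obtain ⟨x, y, t⟩ := e
    cases t
    · left; simp [src, tgt]
    · right; left; simp [src, tgt]
  · obtain ⟨h1, h2⟩ := h
    subst h1 h2
    obtain ⟨x, y, t⟩ := e
    cases t
    · right; right; left; simp [src, tgt]
    · right; right; right; simp [src, tgt]

theorem nb_Nb (v : Vert) (i : ℕ) : Nb v (nb v i) := by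
  rcases i with _ | _ | _ | i
  · exact ⟨(v.1, v.2, false), Or.inl ⟨rfl, by simp [tgt, nb]⟩⟩
  · exact ⟨(v.1, v.2, true), Or.inl ⟨rfl, by simp [tgt, nb]⟩⟩
  · exact ⟨(v.1 - 1, v.2, false), Or.inr ⟨by simp [tgt], by simp [src, nb]⟩⟩
  · exact ⟨(v.1, v.2 - 1, true), Or.inr ⟨by simp [tgt], by simp [src, nb]⟩⟩

theorem Nb.exists_nb {v a : Vert} (h : Nb v a) : ∃ i < 4, a = nb v i := by
  rcases h.cases with h | h | h | h
  · exact ⟨0, by norm_num, h⟩
  · exact ⟨1, by norm_num, h⟩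
  · exact ⟨2, by norm_num, h⟩
  · exact ⟨3, by norm_num, h⟩

theorem Nb.mem_ball {v a : Vert} (h : Nb v a) {r : ℕ} (hr : 1 ≤ r) : a ∈ ball v r := by
  rcases h.cases with h | h | h | h <;> subst h <;>
    simp only [Pool.Agent.H89.Perc.mem_ball] <;> omega

theorem Nb.ne {v a : Vert} (h : Nb v a) : a ≠ v := by
  rintro rfl
  rcases h.cases with h | h | h | h
  · have := congrArg Prod.fst h; simp at this
  · have := congrArg Prod.snd h; simp at this
  · have := congrArg Prod.fst h; simp only at this; omega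
  · have := congrArg Prod.snd h; simp only at this; omega

theorem Nb.shift {v a : Vert} (h : Nb v a) (z : Vert) :
    Nb (v.1 + z.1, v.2 + z.2) (a.1 + z.1, a.2 + z.2) := by
  obtain ⟨e, he⟩ := h
  exact ⟨shiftE z e, joins_shift z he⟩

theorem Step.nb {ω : Config} {S : Set Vert} {u v : Vert} (h : Step ω S u v) : Nb u v :=
  ⟨h.2.2.choose, h.2.2.choose_spec.1⟩

theorem A4_anti {v : Vert} {r r' : ℕ} (h1 : 1 ≤ r) (h : r ≤ r') : A4 v r' ⊆ A4 v r := by
  rcases h.eq_or_lt with h0 | h0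
  · subst h0; exact le_rfl
  have hsub : ball v r ⊆ ball v r' := by
    intro w hw
    simp only [Pool.Agent.H89.Perc.mem_ball] at hw ⊢
    omega
  have hout : ∀ u ∈ sphere v r', u ∉ ball v r := by
    rintro u ⟨hu1, hu2⟩ hu3
    simp only [Pool.Agent.H89.Perc.mem_ball] at hu1 hu3
    omega
  rintro ω ⟨a, b, ha, hb, ⟨u, hu, h2⟩, ⟨u', hu', h3⟩, h4⟩
  obtain ⟨x, hx, hcx⟩ := h2.to_sphere (v := v) (r := r) (ha.mem_ball h1) (Or.inl (hout u hu))
  obtain ⟨x', hx', hcx'⟩ := h3.to_sphere (v := v) (r := r) (hb.mem_ball h1)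
    (Or.inl (hout u' hu'))
  exact ⟨a, b, ha, hb, ⟨x, hx, hcx.mono_set Set.inter_subset_right⟩,
    ⟨x', hx', hcx'.mono_set Set.inter_subset_right⟩, fun h5 => h4 (h5.mono_set hsub)⟩

theorem closeV_shift (v z : Vert) (ω : Config) : closeV v (fun f => ω (shiftE z f)) =
    fun f => closeV (v.1 + z.1, v.2 + z.2) ω (shiftE z f) := by
  funext f
  have h1 : ∀ w : Vert, (w.1 + z.1, w.2 + z.2) = (v.1 + z.1, v.2 + z.2) ↔ w = v := by
    intro w
    simp only [Prod.mk.injEq, add_left_inj, Prod.ext_iff]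
  have h2 : src (shiftE z f) = ((src f).1 + z.1, (src f).2 + z.2) := rfl
  have h3 : tgt (shiftE z f) = ((tgt f).1 + z.1, (tgt f).2 + z.2) := by
    obtain ⟨x, y, t⟩ := f
    cases t
    · simp only [tgt, shiftE]
      ext <;> (simp; try ring)
    · simp only [tgt, shiftE]
      ext <;> (simp; try ring)
  simp only [closeV]
  rw [h2, h3]
  simp only [ne_eq, h1]

private theorem a4B_shift (v : Vert) (r : ℕ) :
    {ω : Config | (fun f => ω (shiftE v f)) ∈ A4 0 r} = A4 v r := by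
  have hb : {w : Vert | (w.1 - v.1, w.2 - v.2) ∈ ball (0 : Vert) r} = ball v r := by
    ext w
    simp only [Set.mem_ofPred_eq, Pool.Agent.H89.Perc.mem_ball, Prod.fst_zero, Prod.snd_zero]
    omega
  have key : ∀ (ω : Config) (a b : Vert),
      Conn (closeV 0 (fun f => ω (shiftE v f))) (ball (0 : Vert) r) a b ↔
      Conn (closeV v ω) (ball v r) (a.1 + v.1, a.2 + v.2) (b.1 + v.1, b.2 + v.2) := by
    intro ω a b
    rw [closeV_shift, conn_shift, hb]
    simp
  have hex : ∀ (ω : Config) (a : Vert),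
      (∃ u ∈ sphere (0 : Vert) r, Conn (closeV 0 (fun f => ω (shiftE v f))) (ball 0 r) a u) ↔
      ∃ u ∈ sphere v r, Conn (closeV v ω) (ball v r) (a.1 + v.1, a.2 + v.2) u := by
    intro ω a
    constructor
    · rintro ⟨u, hu, hc⟩
      refine ⟨(u.1 + v.1, u.2 + v.2), ?_, (key ω a u).1 hc⟩
      obtain ⟨hu1, hu2⟩ := hu
      simp only [sphere, Set.mem_ofPred_eq, Pool.Agent.H89.Perc.mem_ball, Prod.fst_zero,
        Prod.snd_zero] at hu1 hu2 ⊢
      omega
    · rintro ⟨u, hu, hc⟩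
      refine ⟨(u.1 - v.1, u.2 - v.2), ?_, (key ω a _).2 (by simpa using hc)⟩
      obtain ⟨hu1, hu2⟩ := hu
      simp only [sphere, Set.mem_ofPred_eq, Pool.Agent.H89.Perc.mem_ball, Prod.fst_zero,
        Prod.snd_zero] at hu1 hu2 ⊢
      omega
  ext ω
  simp only [A4, Set.mem_ofPred_eq]
  constructor
  · rintro ⟨a, b, ha, hb', h1, h2, h3⟩
    refine ⟨(a.1 + v.1, a.2 + v.2), (b.1 + v.1, b.2 + v.2), ?_, ?_, (hex ω a).1 h1,
      (hex ω b).1 h2, fun h => h3 ((key ω a b).2 h)⟩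
    · simpa using ha.shift v
    · simpa using hb'.shift v
  · rintro ⟨a, b, ha, hb', h1, h2, h3⟩
    refine ⟨(a.1 - v.1, a.2 - v.2), (b.1 - v.1, b.2 - v.2), ?_, ?_, (hex ω _).2 (by simpa using h1),
      (hex ω _).2 (by simpa using h2), fun h => h3 (by simpa using (key ω _ _).1 h)⟩
    · have := ha.shift (-v)
      have e0 : (0 : Vert) = (0, 0) := rfl
      rw [e0]
      simpa [sub_eq_add_neg] using this
    · have := hb'.shift (-v)
      have e0 : (0 : Vert) = (0, 0) := rfl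
      rw [e0]
      simpa [sub_eq_add_neg] using this

/-- The four-arm probability does not depend on the site. -/
theorem Pr_A4 (q : I) (v : Vert) (r : ℕ) : Pool.Agent.H83.SK.Pr q (A4 v r) = a4 q r := by
  rw [← a4B_shift v r, Pool.Agent.H83.SK.Pr_comp (localOn_A4 0 r)
    (Pool.Agent.H83.SK.isAut_shift v), a4]

theorem a4_nonneg (q : I) (r : ℕ) : 0 ≤ a4 q r := Pool.Agent.H83.SK.Pr_nonneg

theorem a4_anti (q : I) {r r' : ℕ} (h1 : 1 ≤ r) (h : r ≤ r') : a4 q r' ≤ a4 q r :=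
  Pool.Agent.H83.SK.Pr_mono (A4_anti h1 h)

theorem pow_le_closed (q : I) {m : ℝ} (hm : 0 ≤ m) (h : m ≤ 1 - (q : ℝ)) (s : Finset Edge) :
    m ^ s.card ≤ Pr q {w | ∀ e ∈ s, w e = false} := by
  classical
  induction s using Finset.induction_on with
  | empty =>
    have : {w : Config | ∀ e ∈ (∅ : Finset Edge), w e = false} = Set.univ := by
      ext w; simp
    rw [this, Pr_univ]
    simp
  | @insert a s ha ih =>
    have hloc : LocalOn (insert a s) {w : Config | ∀ e ∈ insert a s, w e = false} := by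
      intro w w' h' hw e he
      rw [← h' e he]
      exact hw e he
    have hne : ∀ e ∈ s, e ≠ a := fun e he hea => ha (hea ▸ he)
    have hup : {w : Config | Function.update w a false ∈
        {w : Config | ∀ e ∈ insert a s, w e = false}} = {w | ∀ e ∈ s, w e = false} := by
      ext w
      simp only [Set.mem_ofPred_eq, Finset.mem_insert, forall_eq_or_imp, Function.update_self,
        true_and]
      constructor
      · intro h' e he
        have := h' e he
        rwa [Function.update_of_ne (hne e he)] at this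
      · intro h' e he
        rw [Function.update_of_ne (hne e he)]
        exact h' e he
    rw [Pr_eq_update hloc a, Finset.card_insert_of_notMem ha, pow_succ, hup]
    have h3 : 0 ≤ Pr q {w | Function.update w a true ∈
        {w : Config | ∀ e ∈ insert a s, w e = false}} := Pr_nonneg
    have h4 : 0 ≤ (q : ℝ) * Pr q {w | Function.update w a true ∈
        {w : Config | ∀ e ∈ insert a s, w e = false}} := mul_nonneg q.2.1 h3
    have h5 : m * m ^ s.card ≤ (1 - (q : ℝ)) * Pr q {w | ∀ e ∈ s, w e = false} :=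
      mul_le_mul h ih (by positivity) (by linarith [q.2.2])
    linarith

/-- All sites of the square of half side `1` are closed. -/
theorem a4_one (q : I) {m : ℝ} (hm : 0 ≤ m) (h : m ≤ 1 - (q : ℝ)) : m ^ 9 ≤ a4 q 1 := by
  have hcard : (sBall 0 1).card = 9 := by
    simp [sBall]
  have hle := pow_le_closed q hm h (sBall 0 1)
  rw [hcard] at hle
  refine hle.trans (Pr_mono ?_)
  intro w hw
  have hno : ∀ x y, ¬ Step (closeV 0 (sit w)) (ball (0 : Vert) 1) x y := by
    rintro x y ⟨h1, h2, e, he, ho⟩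
    have ho' := closeV_le e ho
    have hs : src e ∈ ball (0 : Vert) 1 := by
      rcases he with ⟨h3, _⟩ | ⟨_, h3⟩
      · rw [← h3]; exact h1
      · rw [← h3]; exact h2
    rw [Pool.Agent.H83.SK.sit_true] at ho'
    have := hw (sv (src e)) (mem_sBall.2 ⟨by rw [src_sv]; exact hs, rfl⟩)
    rw [ho'.1] at this
    exact absurd this (by decide)
  have hball : ∀ x : Vert, x ∈ ball (0 : Vert) 1 ↔
      (-1 ≤ x.1 ∧ x.1 ≤ 1 ∧ -1 ≤ x.2 ∧ x.2 ≤ 1) := by
    intro x
    simp only [Pool.Agent.H89.Perc.mem_ball, Prod.fst_zero, Prod.snd_zero, Nat.cast_one, zero_sub,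
      zero_add]
  refine ⟨(1, 0), (0, 1), ⟨(0, 0, false), Or.inl ⟨rfl, by simp [tgt]⟩⟩,
    ⟨(0, 0, true), Or.inl ⟨rfl, by simp [tgt]⟩⟩, ⟨(1, 0), ?_, ?_⟩, ⟨(0, 1), ?_, ?_⟩, ?_⟩
  · exact ⟨(hball _).2 (by norm_num), Or.inr (Or.inl (by simp))⟩
  · exact Conn.refl ((hball _).2 (by norm_num))
  · exact ⟨(hball _).2 (by norm_num), Or.inr (Or.inr (Or.inr (by simp)))⟩
  · exact Conn.refl ((hball _).2 (by norm_num))
  · intro hc
    have : ((0 : ℤ), (1 : ℤ)) = ((1 : ℤ), (0 : ℤ)) :=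
      hc.induction_right (P := fun x => x = ((1 : ℤ), (0 : ℤ))) rfl
        fun a b _ hab _ => absurd hab (hno a b)
    simp at this

theorem localOn_A4T (N : ℕ) (v : Vert) (r : ℕ) :
    LocalOn ((sBall v r).image (modE N)) (A4T N v r) := by
  intro w w' h hw
  refine localOn_sitA4 v r _ _ (fun e he => ?_) hw
  exact h _ (Finset.mem_image_of_mem (modE N) he)

theorem localOn_A4T' {N : ℕ} (hN : 1 ≤ N) (v : Vert) (r : ℕ) :
    LocalOn ((tSites N).filter fun g => dT N (src g) v ≤ r) (A4T N v r) := by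
  refine (localOn_A4T N v r).mono ?_
  intro g hg
  rw [Finset.mem_image] at hg
  obtain ⟨e, he, rfl⟩ := hg
  rw [mem_sBall] at he
  have h1 := Pool.Agent.H90.AL.modE_mem hN e
  rw [Pool.Agent.H90.AL.mem_tEdges_iff] at h1
  rw [Finset.mem_filter, mem_tSites]
  refine ⟨⟨h1.1, h1.2, ?_⟩, ?_⟩
  · exact he.2
  · obtain ⟨a, b, h⟩ := Pool.Agent.H90.AL.src_modE (N := N) e
    exact Pool.Agent.H90.AL.dT_le_of hN a b (by rw [h]; exact he.1)

private theorem a4B_int {N : ℕ} {a b c : ℤ} {r : ℕ} (h : 2 * r < N) (ha1 : c - r ≤ a)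
    (ha2 : a ≤ c + r) (hb1 : c - r ≤ b) (hb2 : b ≤ c + r) (hab : a % N = b % N) : a = b := by
  have h1 : (N : ℤ) ∣ a - b := Int.ModEq.dvd (show b ≡ a [ZMOD N] from hab.symm)
  have h2 : |a - b| < N := by
    rw [abs_lt]
    constructor <;> omega
  have h3 := Int.eq_zero_of_abs_lt_dvd h1 h2
  omega

theorem modE_injOn_sBall {N : ℕ} (v : Vert) {r : ℕ} (h : 2 * r < N) :
    Set.InjOn (modE N) (sBall v r) := by
  intro e he e' he' hee
  rw [Finset.mem_coe, mem_sBall] at he he'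
  simp only [src, Pool.Agent.H89.Perc.mem_ball] at he he'
  simp only [modE, Prod.mk.injEq] at hee
  obtain ⟨x, y, d⟩ := e
  obtain ⟨x', y', d'⟩ := e'
  simp only at he he' hee
  obtain ⟨hx, hy, hd⟩ := hee
  rw [a4B_int h he.1.1 he.1.2.1 he'.1.1 he'.1.2.1 hx,
    a4B_int h he.1.2.2.1 he.1.2.2.2 he'.1.2.2.1 he'.1.2.2.2 hy, hd]

theorem Pr_A4T (q : I) {N : ℕ} (v : Vert) {r : ℕ} (h : 2 * r < N) :
    Pr q (A4T N v r) = a4 q r := by
  rw [← Pr_A4 q v r]
  unfold Pool.Agent.H83.SK.Pr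
  rw [← Pr_comp (localOn_sitA4 v r) (modE_injOn_sBall v h)]
  rfl

/-- The density in the box-crossing regime is bounded away from `0` and `1`. -/
theorem sreg_mem {c : ℝ} (hc : 0 < c) {n : ℕ} (hn : 1 ≤ n) {q : I} (h : SReg c n q) :
    c / 10 ≤ (q : ℝ) ∧ c / 10 ≤ 1 - (q : ℝ) := by
  obtain ⟨h1, h2⟩ := h 1 le_rfl hn
  have k1 : ∀ e : Edge, Pr q {w | w e = true} = q := by
    intro e
    have hloc : LocalOn {e} {w : Config | w e = true} := by
      intro w w' h' hw
      rw [Set.mem_ofPred_eq, ← h' e (Finset.mem_singleton_self e)]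
      exact hw
    rw [Pr_eq_update hloc e]
    have e1 : {w : Config | Function.update w e true ∈ {w : Config | w e = true}} = Set.univ := by
      ext w; simp
    have e2 : {w : Config | Function.update w e false ∈ {w : Config | w e = true}} = ∅ := by
      ext w; simp
    rw [e1, e2, Pr_univ]
    simp [Pool.Agent.H89.Perc.Pr]
  have k2 : ∀ e : Edge, Pr q {w | w e = false} = 1 - q := by
    intro e
    have hloc : LocalOn {e} {w : Config | w e = false} := by
      intro w w' h' hw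
      rw [Set.mem_ofPred_eq, ← h' e (Finset.mem_singleton_self e)]
      exact hw
    rw [Pr_eq_update hloc e]
    have e1 : {w : Config | Function.update w e true ∈ {w : Config | w e = false}} = ∅ := by
      ext w; simp
    have e2 : {w : Config | Function.update w e false ∈ {w : Config | w e = false}} =
        Set.univ := by
      ext w; simp
    rw [e1, e2, Pr_univ]
    simp [Pool.Agent.H89.Perc.Pr]
  constructor
  · have h3 : Pool.Agent.H83.SK.Pr q {ω | HCross ω 0 (4 * (1 : ℕ)) 0 (1 : ℕ)} ≤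
        Pr q ({w | w (0, 0, false) = true} ∪ {w | w (0, 1, false) = true}) := by
      refine Pr_mono ?_
      rintro w ⟨u, v, hu, hv, hc'⟩
      have huv : u ≠ v := by
        rintro rfl
        rw [hu] at hv
        simp at hv
      obtain ⟨w1, w2, -, hst, -, -⟩ := hc'.exists_exit (T := {u}) rfl
        (by simpa using Ne.symm huv)
      have hmem := hc'.mem_left
      obtain ⟨x, x', h4, h5, h6, -⟩ := hc'.exists_exit (T := {u}) rfl (by simpa using Ne.symm huv)
      have hx : x = u := h4.mem_right.2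
      subst hx
      obtain ⟨-, -, e, he, ho⟩ := h5
      rw [Pool.Agent.H83.SK.sit_true] at ho
      have hopen : w (sv x) = true := by
        rcases he with ⟨h7, -⟩ | ⟨h7, -⟩
        · rw [h7]; exact ho.1
        · rw [h7]; exact ho.2
      simp only [rect, Set.mem_ofPred_eq] at hmem
      obtain ⟨a, b⟩ := x
      simp only at hu hmem
      subst hu
      have hb : b = 0 ∨ b = 1 := by
        have := hmem.2.2.1
        have := hmem.2.2.2
        push_cast at this
        omega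
      rcases hb with hb | hb
      · left
        subst hb
        exact hopen
      · right
        subst hb
        exact hopen
    have h4 := Pr_union_le (p := q) (A := {w : Config | w (0, 0, false) = true})
      (B := {w : Config | w (0, 1, false) = true})
    rw [k1, k1] at h4
    have := q.2.1
    linarith
  · have h3 : Pool.Agent.H83.SK.Pr q {ω | ¬ VCross ω 0 (4 * (1 : ℕ)) 0 (1 : ℕ)} ≤
        Pr q ({w | w (0, 0, false) = false} ∪ {w | w (0, 1, false) = false}) := by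
      refine Pr_mono ?_
      intro w hw
      by_contra hno
      simp only [Set.mem_union, Set.mem_ofPred_eq, not_or, Bool.not_eq_false] at hno
      apply hw
      refine ⟨(0, 0), (0, 1), rfl, by simp, Step.conn ⟨?_, ?_, (0, 0, true), Or.inl ⟨rfl, ?_⟩, ?_⟩⟩
      · simp [rect]
      · simp [rect]
      · simp [tgt]
      · rw [Pool.Agent.H83.SK.sit_true]
        exact ⟨hno.1, by simpa [tgt, sv] using hno.2⟩
    have h4 := Pr_union_le (p := q) (A := {w : Config | w (0, 0, false) = false})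
      (B := {w : Config | w (0, 1, false) = false})
    rw [k2, k2] at h4
    have := q.2.2
    linarith

theorem sreg_anti {c : ℝ} {n m : ℕ} {q : I} (h : SReg c n q) (hm : m ≤ n) : SReg c m q :=
  Pool.Agent.H83.SK.rswreg_mono h hm

end Pool.Agent.H92.SN

end

section

/-!
# Dictionary between the centred lattice and the induced bond configuration
-/

set_option autoImplicit false

open MeasureTheory ProbabilityTheory unitInterval

namespace Pool.Agent.H83.SK.Dict

open Pool.Agent.H89.Perc Pool.Agent.H83.Site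

variable {ω : Config} {S : Set Vert} {T : Set TV} {a b c d : ℤ} {p q : I}

theorem sv_mem_TR {v : Vert} : sv v ∈ TR a b c d ↔ v ∈ rect a b c d := by
  obtain ⟨x, y⟩ := v
  simp only [sv, mem_TR_site, rect, Set.mem_ofPred_eq]

theorem full_sv (r : Bool) (ω : Config) (v : Vert) : full r ω (sv v) = ω (sv v) := rfl

/-- The end points of an edge are adjacent in the centred lattice. -/
theorem tadj_of_joins {e : Edge} {u v : Vert} (h : Joins e u v) : TAdj (sv u) (sv v) := by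
  obtain ⟨x, y, t⟩ := e
  left
  refine ⟨rfl, rfl, ?_⟩
  cases t <;> rcases h with ⟨h1, h2⟩ | ⟨h1, h2⟩ <;> subst h1 <;> subst h2 <;>
    simp [sv, src, tgt]

/-- Adjacent sites are joined by an edge. -/
theorem joins_of_tadj {u v : Vert} (h : TAdj (sv u) (sv v)) : ∃ e, Joins e u v := by
  obtain ⟨x, y⟩ := u
  obtain ⟨x', y'⟩ := v
  simp only [TAdj, sv, true_and, Bool.false_eq_true, false_and, and_false, or_false] at h
  rcases h with ⟨h1, h2⟩ | ⟨h1, h2⟩
  · rcases h2 with h2 | h2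
    · exact ⟨(x', y', true), Or.inr ⟨by simp [tgt, h1, h2], rfl⟩⟩
    · exact ⟨(x, y, true), Or.inl ⟨rfl, by simp [tgt, h1, h2]⟩⟩
  · rcases h2 with h2 | h2
    · exact ⟨(x', y', false), Or.inr ⟨by simp [tgt, h1, h2], rfl⟩⟩
    · exact ⟨(x, y, false), Or.inl ⟨rfl, by simp [tgt, h1, h2]⟩⟩

theorem sit_joins {e : Edge} {u v : Vert} (h : Joins e u v) :
    sit ω e = true ↔ ω (sv u) = true ∧ ω (sv v) = true := by
  rw [sit_true]
  rcases h with ⟨h1, h2⟩ | ⟨h1, h2⟩ <;> rw [h1, h2]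
  exact and_comm

/-- A step of the induced configuration is a step of the centred lattice. -/
theorem tstep_of_step (hST : ∀ v ∈ S, sv v ∈ T) {u v : Vert} (h : Step (sit ω) S u v)
    (r : Bool) : TStep (full r ω) T (sv u) (sv v) := by
  obtain ⟨h1, h2, e, he, ho⟩ := h
  have h3 := (sit_joins he).1 ho
  exact ⟨hST _ h1, hST _ h2, tadj_of_joins he, by rw [full_sv]; exact h3.1,
    by rw [full_sv]; exact h3.2⟩

theorem tconn_of_conn (hST : ∀ v ∈ S, sv v ∈ T) {u v : Vert} (h : Conn (sit ω) S u v)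
    (hu : ω (sv u) = true) (r : Bool) : TConn (full r ω) T (sv u) (sv v) := by
  refine h.induction_right (P := fun v => TConn (full r ω) T (sv u) (sv v))
    (TConn.refl (hST _ h.mem_left) (by rw [full_sv]; exact hu)) ?_
  intro a b _ hab ih
  exact ih.tail (tstep_of_step hST hab r)

/-- An open path of the square lattice starting and ending at different vertices starts in an open
site. -/
theorem open_of_conn {u v : Vert} (h : Conn (sit ω) S u v) (huv : u ≠ v) :
    ω (sv u) = true := by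
  obtain ⟨h1, h2⟩ := h
  rcases Relation.ReflTransGen.cases_head h2 with h3 | ⟨w, h3, -⟩
  · exact absurd h3 huv
  · obtain ⟨-, -, e, he, ho⟩ := h3
    exact ((sit_joins he).1 ho).1

/-- Open paths of the centred lattice with closed centres are open paths of sites. -/
theorem conn_of_tconn (hTS : ∀ v, sv v ∈ T → v ∈ S) {u : Vert} {w : TV}
    (h : TConn (full false ω) T (sv u) w) :
    w = sv (w.1, w.2.1) ∧ Conn (sit ω) S u (w.1, w.2.1) := by
  have key : ∀ w : TV, full false ω w = true → w = sv (w.1, w.2.1) := by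
    rintro ⟨x, y, t⟩ hw
    cases t
    · rfl
    · simp [full] at hw
  refine ⟨key w h.open_right, ?_⟩
  refine h.induction_right (P := fun w => Conn (sit ω) S u (w.1, w.2.1))
    (Conn.refl (hTS _ h.mem_left)) ?_
  intro a b _ hab ih
  obtain ⟨h1, h2, h3, h4, h5⟩ := hab
  have ha := key a h4
  have hb := key b h5
  rw [ha] at h1 h4
  rw [hb] at h2 h5
  rw [ha, hb] at h3
  obtain ⟨e, he⟩ := joins_of_tadj h3
  exact ih.tail ⟨hTS _ h1, hTS _ h2, e, he, (sit_joins he).2 ⟨h4, h5⟩⟩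

/-! ### Crossings -/

theorem hcross_iff (hab : a < b) : HCross (sit ω) a b c d ↔ HC (full false ω) a b c d := by
  constructor
  · rintro ⟨u, v, hu, hv, h⟩
    have huv : u ≠ v := by rintro rfl; omega
    have h1 := tconn_of_conn (T := TR a b c d) (fun v hv => sv_mem_TR.2 hv) h
      (open_of_conn h huv) false
    refine ⟨u.2, v.2, ?_⟩
    have e1 : sv u = (a, u.2, false) := by rw [← hu]; rfl
    have e2 : sv v = (b, v.2, false) := by rw [← hv]; rfl
    rwa [e1, e2] at h1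
  · rintro ⟨y, y', h⟩
    have h1 := conn_of_tconn (S := rect a b c d) (u := (a, y)) (fun v hv => sv_mem_TR.1 hv) h
    exact ⟨(a, y), (b, y'), rfl, rfl, h1.2⟩

theorem vcross_iff (hcd : c < d) : VCross (sit ω) a b c d ↔ VC (full false ω) a b c d := by
  constructor
  · rintro ⟨u, v, hu, hv, h⟩
    have huv : u ≠ v := by rintro rfl; omega
    have h1 := tconn_of_conn (T := TR a b c d) (fun v hv => sv_mem_TR.2 hv) h
      (open_of_conn h huv) false
    refine ⟨u.1, v.1, ?_⟩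
    have e1 : sv u = (u.1, c, false) := by rw [← hu]; rfl
    have e2 : sv v = (v.1, d, false) := by rw [← hv]; rfl
    rwa [e1, e2] at h1
  · rintro ⟨x, x', h⟩
    have h1 := conn_of_tconn (S := rect a b c d) (u := (x, c)) (fun v hv => sv_mem_TR.1 hv) h
    exact ⟨(x, c), (x', d), rfl, rfl, h1.2⟩

/-- There is no open vertical crossing if and only if there is a closed horizontal one. -/
theorem not_vc_iff (hab : a ≤ b) (hcd : c ≤ d) (η : Config) :
    ¬ VC η a b c d ↔ HC (neg η) a b c d := by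
  constructor
  · intro h
    rcases hc_or_vc hab hcd (neg η) with h1 | h1
    · exact h1
    · rw [neg_neg'] at h1
      exact absurd h1 h
  · intro h h'
    have := not_hc_and_vc h
    rw [neg_neg'] at this
    exact this h'

theorem not_vcross_iff (hab : a ≤ b) (hcd : c < d) :
    ¬ VCross (sit ω) a b c d ↔ HC (full true (neg ω)) a b c d := by
  rw [vcross_iff hcd, not_vc_iff hab hcd.le, neg_full]
  rfl

/-! ### Probabilities -/

theorem Pr_hcross (hab : a < b) :
    Pr p {ω | HCross ω a b c d} = PT p false {η | HC η a b c d} := by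
  have e : {ω : Config | sit ω ∈ {ω | HCross ω a b c d}} =
      {ω | full false ω ∈ {η | HC η a b c d}} := by
    ext ω
    exact hcross_iff hab
  rw [Pr, PT, e]

/-- The law of the configuration with open and closed exchanged. -/
theorem raw_neg {s : Finset Edge} {E : Set Config} (h : LocalOn s E) (r : Bool) :
    Pool.Agent.H89.Perc.Pr p {ω | full r (neg ω) ∈ E} = PT (σ p) r E := by
  have h1 := PT_neg (p := p) (r := !r) h
  rw [Bool.not_not] at h1
  rw [← h1, PT]
  congr 1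
  ext ω
  simp only [Set.mem_ofPred_eq]
  rw [neg_full, Bool.not_not]

theorem Pr_not_vcross (hab : a ≤ b) (hcd : c < d) :
    Pr p {ω | ¬ VCross ω a b c d} = PT (σ p) true {η | HC η a b c d} := by
  rw [← raw_neg (localOn_HC a b c d) true, Pr]
  congr 1
  ext ω
  exact not_vcross_iff hab hcd

/-! ### The box-crossing regime -/

/-- The box-crossing regime in terms of crossings of the centred lattice. -/
theorem rswreg_iff {c : ℝ} {n : ℕ} : RSWreg c n q ↔ ∀ m : ℕ, 1 ≤ m → m ≤ n →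
    c ≤ PT q false {η | HC η 0 (4 * m) 0 m} ∧ c ≤ PT (σ q) true {η | HC η 0 (4 * m) 0 m} := by
  constructor
  · intro h m hm hn
    have h1 := h m hm hn
    rw [Pr_hcross (by omega), Pr_not_vcross (by omega) (by omega)] at h1
    exact h1
  · intro h m hm hn
    have h1 := h m hm hn
    rw [Pr_hcross (by omega), Pr_not_vcross (by omega) (by omega)]
    exact h1

/-- The box-crossing regime at the critical point. -/
theorem rswreg_pc : ∃ c > (0 : ℝ), ∀ n : ℕ, RSWreg c n pc := by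
  obtain ⟨c1, hc1, h1⟩ := bxp_pc.1 4
  obtain ⟨c2, hc2, h2⟩ := bxp_pc.2 4
  refine ⟨min c1 c2, lt_min hc1 hc2, fun n => rswreg_iff.2 fun m hm _ => ?_⟩
  exact ⟨(min_le_left _ _).trans (h1 m hm), (min_le_right _ _).trans (h2 m hm)⟩

/-! ### Arms -/

end Pool.Agent.H83.SK.Dict

end

section

/-!
# Winding paths of site percolation on the torus
-/

set_option autoImplicit false

open MeasureTheory ProbabilityTheory unitInterval

namespace Pool.Agent.H83.SK.WG

open Pool.Agent.H89.Perc Pool.Agent.H83.Site Pool.Agent.H83.SK.Dict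
open Pool.Agent.H92.SN (WindS tSites)

theorem mem_tSites {N : ℕ} {e : Edge} :
    e ∈ tSites N ↔ e.2.2 = false ∧ 0 ≤ e.1 ∧ e.1 < N ∧ 0 ≤ e.2.1 ∧ e.2.1 < N := by
  simp only [tSites, Finset.mem_product, Finset.mem_Ico, Finset.mem_singleton]
  tauto

theorem sit_per_congr {N : ℕ} (hN : 1 ≤ N) {ω ω' : Config} (h : ∀ e ∈ tSites N, ω e = ω' e) :
    sit (per N ω) = sit (per N ω') := by
  have hN' : (0 : ℤ) < N := by exact_mod_cast hN
  have key : ∀ v : Vert, per N ω (sv v) = per N ω' (sv v) := by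
    intro v
    refine h _ (mem_tSites.2 ⟨rfl, ?_, ?_, ?_, ?_⟩)
    · exact Int.emod_nonneg _ hN'.ne'
    · exact Int.emod_lt_of_pos _ hN'
    · exact Int.emod_nonneg _ hN'.ne'
    · exact Int.emod_lt_of_pos _ hN'
  funext e
  simp only [sit, key]

theorem localOn_windS {N : ℕ} (hN : 1 ≤ N) : LocalOn (tSites N) (WindS N) := by
  intro ω ω' h hω
  simp only [WindS, Set.mem_ofPred_eq] at hω ⊢
  rwa [← sit_per_congr hN h]

theorem incr_windS (N : ℕ) : Incr (WindS N) := by
  rintro ω ω' h ⟨u, a, b, ha, hc⟩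
  refine ⟨u, a, b, ha, hc.mono le_rfl ?_⟩
  exact sit_mono fun e he => h _ he

theorem windS_iff {N : ℕ} (hN : 1 ≤ N) {ω : Config} : ω ∈ WindS N ↔
    ∃ (u : TV) (a b : ℤ), a ≠ 0 ∧ TConn (full false (per N ω)) Set.univ u
      (shf (a * N) (b * N) u) := by
  have hN' : (0 : ℤ) < N := by exact_mod_cast hN
  constructor
  · rintro ⟨u, a, b, ha, hc⟩
    refine ⟨sv u, a, b, ha, ?_⟩
    refine tconn_of_conn (T := Set.univ) (fun _ _ => trivial) hc (open_of_conn hc ?_) false
    intro h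
    have h1 := congrArg Prod.fst h
    simp only at h1
    have h2 : a * N = 0 := by omega
    rcases mul_eq_zero.1 h2 with h3 | h3
    · exact ha h3
    · omega
  · rintro ⟨u, a, b, ha, hc⟩
    have e : u = sv (u.1, u.2.1) := by
      obtain ⟨x, y, t⟩ := u
      cases t
      · rfl
      · have := hc.open_left
        simp [full] at this
    rw [e] at hc
    have h1 := conn_of_tconn (S := Set.univ) (fun _ _ => trivial) hc
    exact ⟨(u.1, u.2.1), a, b, ha, h1.2⟩

/-! ### Periodic configurations -/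

theorem per_shf (N : ℕ) (ω : Config) (i j : ℤ) (v : TV) :
    per N ω (shf (i * N) (j * N) v) = per N ω v := by
  simp only [per, shf]
  congr 2
  · exact Int.add_mul_emod_self_right _ _ _
  · congr 1
    exact Int.add_mul_emod_self_right _ _ _

theorem full_per_shf (r : Bool) (N : ℕ) (ω : Config) (i j : ℤ) (v : TV) :
    full r (per N ω) (shf (i * N) (j * N) v) = full r (per N ω) v := by
  have h := per_shf N ω i j v
  simp only [full]
  rw [h]
  rfl

theorem tconn_shift {η : Config} {x y : ℤ} (hη : ∀ v, η (shf x y v) = η v) {S T : Set TV}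
    (hST : ∀ v ∈ S, shf x y v ∈ T) {u v : TV} (h : TConn η S u v) :
    TConn η T (shf x y u) (shf x y v) := by
  refine h.map (shf x y) hST (fun z _ hz => by rw [hη]; exact hz) ?_
  intro a b _ _ hab
  exact Or.inl (hab.shf x y)

/-- Repeating a periodic path `K` times. -/
theorem tconn_repeat {η : Config} {x y : ℤ} (hη : ∀ v, η (shf x y v) = η v) {S : Set TV}
    (hS : ∀ v ∈ S, shf x y v ∈ S) {u : TV} (hc : TConn η S u (shf x y u)) (K : ℕ) :
    TConn η S u (shf (K * x) (K * y) u) := by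
  induction K with
  | zero =>
    have : shf ((0 : ℕ) * x) ((0 : ℕ) * y) u = u := by
      obtain ⟨a, b, t⟩ := u
      simp [shf]
    rw [this]
    exact TConn.refl hc.mem_left hc.open_left
  | succ K ih =>
    have h1 := tconn_shift hη hS ih
    have h2 := hc.trans h1
    have : shf x y (shf (K * x) (K * y) u) = shf ((K + 1 : ℕ) * x) ((K + 1 : ℕ) * y) u := by
      obtain ⟨a, b, t⟩ := u
      simp only [shf, Prod.mk.injEq]
      refine ⟨?_, ?_, trivial⟩ <;> push_cast <;> ring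
    rwa [this] at h2

theorem shf_neg_eq (η : Config) {x y : ℤ} (hη : ∀ v, η (shf x y v) = η v) (v : TV) :
    η (shf (-x) (-y) v) = η v := by
  have := hη (shf (-x) (-y) v)
  rw [shf_shf] at this
  exact this.symm

/-- Repeating a periodic path in both directions. -/
theorem tconn_repeat2 {η : Config} {x y : ℤ} (hη : ∀ v, η (shf x y v) = η v) {S : Set TV}
    (hS : ∀ v ∈ S, shf x y v ∈ S) (hS' : ∀ v ∈ S, shf (-x) (-y) v ∈ S) {u : TV}
    (hc : TConn η S u (shf x y u)) (K : ℕ) :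
    TConn η S (shf (-(K * x)) (-(K * y)) u) (shf (K * x) (K * y) u) := by
  have h1 := tconn_repeat hη hS hc K
  have h2 : TConn η S u (shf (-x) (-y) u) := by
    have h3 := (tconn_shift (shf_neg_eq η hη) hS' hc).symm
    rwa [shf_shf'] at h3
  have h3 := tconn_repeat (shf_neg_eq η hη) hS' h2 K
  have e1 : (K : ℤ) * -x = -(K * x) := by ring
  have e2 : (K : ℤ) * -y = -(K * y) := by ring
  rw [e1, e2] at h3
  exact h3.symm.trans h1

/-- A path is contained in a square. -/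
theorem tconn_bounded {η : Config} {S : Set TV} {u v : TV} (hc : TConn η S u v) :
    ∃ M : ℕ, TConn η (S ∩ TR (-M) M (-M) M) u v := by
  have key : ∀ v : TV, ∃ M : ℕ, v ∈ TR (-M) M (-M) M := by
    intro v
    refine ⟨(|fx v| + |fy v|).toNat, ?_⟩
    rw [mem_TR]
    have h1 := abs_nonneg (fx v)
    have h2 := abs_nonneg (fy v)
    have h3 := le_abs_self (fx v)
    have h4 := neg_abs_le (fx v)
    have h5 := le_abs_self (fy v)
    have h6 := neg_abs_le (fy v)
    omega
  have mono : ∀ {M M' : ℕ}, M ≤ M' → (TR (-M) M (-M) M : Set TV) ⊆ TR (-M') M' (-M') M' :=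
    fun h => TR_mono (by omega) (by omega) (by omega) (by omega)
  refine hc.induction_right (P := fun v => ∃ M : ℕ, TConn η (S ∩ TR (-M) M (-M) M) u v) ?_ ?_
  · obtain ⟨M, hM⟩ := key u
    exact ⟨M, TConn.refl ⟨hc.mem_left, hM⟩ hc.open_left⟩
  · rintro a b _ hab ⟨M, hM⟩
    obtain ⟨M', hM'⟩ := key b
    refine ⟨max M M', ?_⟩
    have h1 : TConn η (S ∩ TR (-(max M M' : ℕ)) (max M M' : ℕ) (-(max M M' : ℕ))
        (max M M' : ℕ)) u a :=
      hM.mono_set (Set.inter_subset_inter le_rfl (mono (le_max_left _ _)))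
    exact h1.tail ⟨h1.mem_right, ⟨hab.2.1, mono (le_max_right _ _) hM'⟩, hab.2.2⟩

private theorem excl_pos {N : ℕ} (hN : 1 ≤ N) {η : Config}
    (h01 : ∀ v, η (shf 0 N v) = η v) {u : TV} {a b : ℤ}
    (ha : 0 < a) (hab : ∀ v, η (shf (a * N) (b * N) v) = η v)
    (h : TConn η Set.univ u (shf (a * N) (b * N) u)) (w : TV) :
    ¬ TConn (neg η) Set.univ w (shf 0 N w) := by
  intro hd
  have hN' : (1 : ℤ) ≤ N := by exact_mod_cast hN
  obtain ⟨L, hL⟩ := tconn_bounded hd
  set S : Set TV := {v | 2 * (-(L : ℤ)) ≤ fx v ∧ fx v ≤ 2 * L} with hS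
  have hd1 : TConn (neg η) S w (shf 0 N w) := hL.mono_set (by
    rintro x ⟨-, hx⟩
    rw [mem_TR] at hx
    exact ⟨hx.1, hx.2.1⟩)
  have hinv : ∀ v, neg η (shf 0 N v) = neg η v := fun v => by simp only [neg, h01]
  have hdK := tconn_repeat2 hinv (S := S) (by
    intro v hv
    simp only [hS, Set.mem_ofPred_eq, fx_shf] at hv ⊢
    omega) (by
    intro v hv
    simp only [hS, Set.mem_ofPred_eq, fx_shf] at hv ⊢
    omega) hd1
  have hpK := tconn_repeat2 hab (S := Set.univ) (fun _ _ => trivial) (fun _ _ => trivial) h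
  obtain ⟨K, hK1, hK2⟩ : ∃ K : ℕ, fx u - 2 * (K * (a * N)) ≤ 2 * (-(L : ℤ)) ∧
      2 * (L : ℤ) ≤ fx u + 2 * (K * (a * N)) := by
    refine ⟨(|fx u| + L + 1).toNat, ?_⟩
    have h1 := abs_nonneg (fx u)
    have h2 := le_abs_self (fx u)
    have h3 := neg_abs_le (fx u)
    have h4 : (((|fx u| + L + 1).toNat : ℕ) : ℤ) = |fx u| + L + 1 := by
      apply Int.toNat_of_nonneg
      omega
    rw [h4]
    have h5 : 1 ≤ a * N := by nlinarith
    have h6 : |fx u| + L + 1 ≤ (|fx u| + L + 1) * (a * N) := by nlinarith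
    constructor <;> omega
  obtain ⟨M, hM⟩ := tconn_bounded (hpK K)
  obtain ⟨y, y', hc, -, -⟩ := hM.cross_x (a := -(L : ℤ)) (b := L)
    (by rw [fx_shf]; omega) (by rw [fx_shf]; omega) (by omega)
  have hH : HC η (-(L : ℤ)) L (-M) M := by
    refine ⟨y, y', hc.mono_set ?_⟩
    rintro x ⟨⟨-, hx⟩, hx'⟩
    rw [mem_TR] at hx ⊢
    exact ⟨hx'.1, hx'.2, hx.2.2⟩
  obtain ⟨K', hK1', hK2'⟩ : ∃ K' : ℕ, fy w - 2 * (K' * (N : ℤ)) ≤ 2 * (-(M : ℤ)) ∧
      2 * (M : ℤ) ≤ fy w + 2 * (K' * N) := by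
    refine ⟨(|fy w| + M + 1).toNat, ?_⟩
    have h1 := abs_nonneg (fy w)
    have h2 := le_abs_self (fy w)
    have h3 := neg_abs_le (fy w)
    have h4 : (((|fy w| + M + 1).toNat : ℕ) : ℤ) = |fy w| + M + 1 := by
      apply Int.toNat_of_nonneg
      omega
    rw [h4]
    have h6 : |fy w| + M + 1 ≤ (|fy w| + M + 1) * (N : ℤ) := by nlinarith
    constructor <;> omega
  obtain ⟨z, z', hc', -, -⟩ := (hdK K').cross_y (c := -(M : ℤ)) (d := M)
    (by rw [fy_shf]; omega) (by rw [fy_shf]; omega) (by omega)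
  have hV : VC (neg η) (-(L : ℤ)) L (-M) M := by
    refine ⟨z, z', hc'.mono_set ?_⟩
    rintro x ⟨hx, hx'⟩
    rw [mem_TR]
    exact ⟨hx.1, hx.2, hx'⟩
  exact not_hc_and_vc hH hV

/-- An open horizontal winding path excludes a closed vertical winding path. -/
theorem wind_excl {N : ℕ} (hN : 1 ≤ N) {η : Config}
    (hη : ∀ (i j : ℤ) (v : TV), η (shf (i * N) (j * N) v) = η v) {u : TV} {a b : ℤ}
    (ha : a ≠ 0) (h : TConn η Set.univ u (shf (a * N) (b * N) u)) (w : TV) :
    ¬ TConn (neg η) Set.univ w (shf 0 N w) := by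
  have h01 : ∀ v, η (shf 0 N v) = η v := fun v => by simpa using hη 0 1 v
  rcases lt_or_gt_of_ne ha with ha | ha
  · refine excl_pos hN h01 (u := shf (a * N) (b * N) u) (a := -a) (b := -b) (by omega)
      (hη (-a) (-b)) ?_ w
    have h1 := h.symm
    have e : shf (-a * N) (-b * N) (shf (a * N) (b * N) u) = u := by
      have e1 : -a * (N : ℤ) = -(a * N) := by ring
      have e2 : -b * (N : ℤ) = -(b * N) := by ring
      rw [e1, e2, shf_shf']
    rwa [e]
  · exact excl_pos hN h01 ha (hη a b) h w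

/-! ### Winding paths from crossings -/

/-- Four crossings of a configuration with horizontal period `N` make a horizontal winding. -/
theorem wind_of_crossings {N h m : ℤ} {η : Config} (hper : ∀ v, η (shf N 0 v) = η v)
    (hm : 0 ≤ m) (hh : 0 ≤ h) (hhN : h ≤ N) (h1 : HC η 0 (h + m) 0 m)
    (h2 : HC η h (N + m) 0 m) (h3 : VC η h (h + m) 0 m) (h4 : VC η 0 m 0 m) :
    ∃ w : TV, TConn η Set.univ w (shf N 0 w) := by
  obtain ⟨y1, y1', c1⟩ := h1
  obtain ⟨y2, y2', c2⟩ := h2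
  obtain ⟨x1, x1', d1⟩ := h3
  obtain ⟨x2, x2', d2⟩ := h4
  have d2' : TConn η (TR N (N + m) 0 m) (x2 + N, 0, false) (x2' + N, m, false) := by
    have h5 := tconn_shift hper (T := TR N (N + m) 0 m) (by
      intro v hv
      rw [mem_TR] at hv ⊢
      rw [fx_shf, fy_shf]
      omega) d2
    simpa [shf] using h5
  have k1 := (circ_hv (le_refl 0) hm (by omega) le_rfl hm le_rfl c1 d2).mono_set
    (Set.subset_univ _)
  have k2 := (circ_hv hh (by omega) le_rfl le_rfl hm le_rfl c1 d1).mono_set (Set.subset_univ _)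
  have k3 := (circ_hv (le_refl h) (by omega) (by omega) le_rfl hm le_rfl c2 d1).mono_set
    (Set.subset_univ _)
  have k4 := (circ_hv hhN (by omega) le_rfl le_rfl hm le_rfl c2 d2').mono_set
    (Set.subset_univ _)
  refine ⟨(x2, 0, false), ?_⟩
  have e : shf N 0 (x2, 0, false) = (x2 + N, 0, false) := by simp [shf]
  rw [e]
  exact ((k1.symm.trans k2).trans k3.symm).trans k4

theorem VC_swp {η : Config} {a b c d : ℤ} :
    VC (fun v => η (swp v)) a b c d ↔ HC η c d a b := by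
  have h := HC_swp (η := fun v => η (swp v)) (a := c) (b := d) (c := a) (d := b)
  simp only [swp_swp] at h
  exact h.symm

/-- Four crossings of a configuration with vertical period `N` make a vertical winding. -/
theorem wind_of_crossings' {N h m : ℤ} {η : Config} (hper : ∀ v, η (shf 0 N v) = η v)
    (hm : 0 ≤ m) (hh : 0 ≤ h) (hhN : h ≤ N) (h1 : VC η 0 m 0 (h + m))
    (h2 : VC η 0 m h (N + m)) (h3 : HC η 0 m h (h + m)) (h4 : HC η 0 m 0 m) :
    ∃ w : TV, TConn η Set.univ w (shf 0 N w) := by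
  obtain ⟨w, hw⟩ := wind_of_crossings (N := N) (h := h) (m := m) (η := fun v => η (swp v))
    (fun v => by
      have := hper (swp v)
      simpa [shf, swp] using this) hm hh hhN (HC_swp.2 h1) (HC_swp.2 h2)
    (VC_swp.2 h3) (VC_swp.2 h4)
  refine ⟨swp w, ?_⟩
  have h5 := hw.map (η' := η) (T := Set.univ) swp (fun _ _ => trivial) (fun _ _ h => h)
    (fun a b _ _ hab => Or.inl hab.swp)
  have e : swp (shf N 0 w) = shf 0 N (swp w) := by
    obtain ⟨x, y, t⟩ := w
    simp [shf, swp]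
  rwa [e] at h5

end Pool.Agent.H83.SK.WG

end

section

/-!
# The probability of winding for site percolation on the torus
-/

set_option autoImplicit false

open MeasureTheory ProbabilityTheory unitInterval

namespace Pool.Agent.H83.SK.WG

open Pool.Agent.H89.Perc Pool.Agent.H83.Site Pool.Agent.H83.SK.Dict
open Pool.Agent.H92.SN (WindS tSites)

/-- Reduction modulo `N`. -/
def modS (N : ℕ) (v : TV) : TV := (v.1 % N, v.2.1 % N, v.2.2)

theorem mod_eq {N : ℕ} {x y a b : ℤ} (hab : b - a < N) (hx : a ≤ x ∧ x ≤ b)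
    (hy : a ≤ y ∧ y ≤ b) (h : x % N = y % N) : x = y := by
  have hd : (N : ℤ) ∣ x - y := Int.ModEq.dvd (Int.ModEq.symm h)
  have : x - y = 0 := by
    apply Int.eq_zero_of_abs_lt_dvd hd
    rw [abs_lt]
    omega
  omega

theorem modS_injOn {N : ℕ} {a b c d : ℤ} (hab : b - a < N) (hcd : d - c < N) :
    Set.InjOn (modS N) (eRect a b c d : Set Edge) := by
  rintro ⟨x, y, t⟩ h1 ⟨x', y', t'⟩ h2 h
  rw [Finset.mem_coe, mem_eRect] at h1 h2
  simp only [src, rect, Set.mem_ofPred_eq] at h1 h2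
  simp only [modS, Prod.mk.injEq] at h
  obtain ⟨h3, h4, h5⟩ := h
  rw [mod_eq hab ⟨h1.1, h1.2.1⟩ ⟨h2.1, h2.2.1⟩ h3,
    mod_eq hcd ⟨h1.2.2.1, h1.2.2.2⟩ ⟨h2.2.2.1, h2.2.2.2⟩ h4, h5]

variable {q : I} {N : ℕ} {a b c d : ℤ}

/-- Local events which fit into the torus. -/
theorem raw_per (hab : b - a < N) (hcd : d - c < N) {E : Set Config}
    (hE : LocalOn (eRect a b c d) E) :
    Pool.Agent.H89.Perc.Pr q {ω | full false (per N ω) ∈ E} = PT q false E := by
  rw [← PT_comp (p := q) (r := false) hE (φ := modS N) (modS_injOn hab hcd) (fun _ => rfl), PT]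
  rfl

theorem raw_neg_per (hab : b - a < N) (hcd : d - c < N) {E : Set Config}
    (hE : LocalOn (eRect a b c d) E) :
    Pool.Agent.H89.Perc.Pr q {ω | neg (full false (per N ω)) ∈ E} = PT (σ q) true E := by
  have h1 := raw_per (q := q) hab hcd (Pool.Agent.H83.Site.LocalOn.neg hE)
  have h2 := PT_neg (p := q) (r := false) hE
  rw [Bool.not_false] at h2
  rw [← h2, ← h1]
  rfl

theorem local_per {s : Finset Edge} {E : Set Config} (hE : LocalOn s E) :
    LocalOn (s.image (modS N)) {ω | full false (per N ω) ∈ E} := by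
  intro ω ω' h h'
  refine hE _ _ (fun v hv => ?_) h'
  have h1 := h _ (Finset.mem_image_of_mem _ hv)
  have h2 : per N ω v = per N ω' v := h1
  simp only [full]
  rw [h2]

theorem local_neg_per {s : Finset Edge} {E : Set Config} (hE : LocalOn s E) :
    LocalOn (s.image (modS N)) {ω | neg (full false (per N ω)) ∈ E} :=
  local_per (Pool.Agent.H83.Site.LocalOn.neg hE)

theorem incr_per {E : Set Config} (hE : Incr E) : Incr {ω | full false (per N ω) ∈ E} := by
  intro ω ω' h h'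
  exact incr_full false hE _ _ (fun e he => h _ he) h'

theorem decr_neg_per {E : Set Config} (hE : Incr E) :
    Incr {ω | neg (full false (per N ω)) ∈ E}ᶜ :=
  incr_per (Pool.Agent.H83.Site.Incr.neg_compl hE)

theorem pow4_le {x a b c d : ℝ} (hx : 0 ≤ x) (ha : x ≤ a) (hb : x ≤ b) (hc : x ≤ c)
    (hd : x ≤ d) : x ^ 4 ≤ (a * b) * (c * d) := by
  have h1 : x * x ≤ a * b := mul_le_mul ha hb hx (hx.trans ha)
  have h2 : x * x ≤ c * d := mul_le_mul hc hd hx (hx.trans hc)
  calc x ^ 4 = (x * x) * (x * x) := by ring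
    _ ≤ (a * b) * (c * d) := mul_le_mul h1 h2 (mul_nonneg hx hx) ((mul_nonneg hx hx).trans h1)

theorem fkg4 {s1 s2 s3 s4 : Finset Edge} {A B C D : Set Config}
    (lA : LocalOn s1 A) (lB : LocalOn s2 B) (lC : LocalOn s3 C) (lD : LocalOn s4 D)
    (iA : Incr A) (iB : Incr B) (iC : Incr C) (iD : Incr D) :
    (Pool.Agent.H89.Perc.Pr q A * Pool.Agent.H89.Perc.Pr q B) *
      (Pool.Agent.H89.Perc.Pr q C * Pool.Agent.H89.Perc.Pr q D) ≤
      Pool.Agent.H89.Perc.Pr q ((A ∩ B) ∩ (C ∩ D)) := by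
  classical
  have h1 := Pool.Agent.H89.Perc.fkg (p := q) lA lB iA iB
  have h2 := Pool.Agent.H89.Perc.fkg (p := q) lC lD iC iD
  have h3 := Pool.Agent.H89.Perc.fkg (p := q) (lA.inter' lB) (lC.inter' lD) (iA.inter iB)
    (iC.inter iD)
  exact (mul_le_mul h1 h2 (mul_nonneg Pool.Agent.H89.Perc.Pr_nonneg
    Pool.Agent.H89.Perc.Pr_nonneg) Pool.Agent.H89.Perc.Pr_nonneg).trans h3

theorem decr_inter {A B : Set Config} (iA : Incr Aᶜ) (iB : Incr Bᶜ) : Incr (A ∩ B)ᶜ := by
  rw [Set.compl_inter]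
  exact iA.union iB

theorem fkg4_decr {s1 s2 s3 s4 : Finset Edge} {A B C D : Set Config}
    (lA : LocalOn s1 A) (lB : LocalOn s2 B) (lC : LocalOn s3 C) (lD : LocalOn s4 D)
    (iA : Incr Aᶜ) (iB : Incr Bᶜ) (iC : Incr Cᶜ) (iD : Incr Dᶜ) :
    (Pool.Agent.H89.Perc.Pr q A * Pool.Agent.H89.Perc.Pr q B) *
      (Pool.Agent.H89.Perc.Pr q C * Pool.Agent.H89.Perc.Pr q D) ≤
      Pool.Agent.H89.Perc.Pr q ((A ∩ B) ∩ (C ∩ D)) := by
  classical
  have h1 := Pool.Agent.H89.Perc.fkg_decr (p := q) lA lB iA iB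
  have h2 := Pool.Agent.H89.Perc.fkg_decr (p := q) lC lD iC iD
  have h3 := Pool.Agent.H89.Perc.fkg_decr (p := q) (lA.inter' lB) (lC.inter' lD)
    (decr_inter iA iB) (decr_inter iC iD)
  exact (mul_le_mul h1 h2 (mul_nonneg Pool.Agent.H89.Perc.Pr_nonneg
    Pool.Agent.H89.Perc.Pr_nonneg) Pool.Agent.H89.Perc.Pr_nonneg).trans h3

/-- Union bound for four local events. -/
theorem near4 {s2 s3 s4 : Finset Edge} {A B C D : Set Config} {e : ℝ}
    (lB : LocalOn s2 B) (lC : LocalOn s3 C) (lD : LocalOn s4 D)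
    (hA : 1 - e ≤ Pool.Agent.H89.Perc.Pr q A) (hB : 1 - e ≤ Pool.Agent.H89.Perc.Pr q B)
    (hC : 1 - e ≤ Pool.Agent.H89.Perc.Pr q C) (hD : 1 - e ≤ Pool.Agent.H89.Perc.Pr q D) :
    1 - 4 * e ≤ Pool.Agent.H89.Perc.Pr q ((A ∩ B) ∩ (C ∩ D)) := by
  have key : A ⊆ (A ∩ B) ∩ (C ∩ D) ∪ (Bᶜ ∪ (Cᶜ ∪ Dᶜ)) := by
    intro ω hω
    by_cases hb : ω ∈ B
    · by_cases hc : ω ∈ C
      · by_cases hd : ω ∈ D
        · exact Or.inl ⟨⟨hω, hb⟩, hc, hd⟩
        · exact Or.inr (Or.inr (Or.inr hd))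
      · exact Or.inr (Or.inr (Or.inl hc))
    · exact Or.inr (Or.inl hb)
  have h1 := (Pool.Agent.H89.Perc.Pr_mono (p := q) key).trans
    Pool.Agent.H89.Perc.Pr_union_le
  have h2 : Pool.Agent.H89.Perc.Pr q (Bᶜ ∪ (Cᶜ ∪ Dᶜ)) ≤ _ := Pool.Agent.H89.Perc.Pr_union_le
  have h3 : Pool.Agent.H89.Perc.Pr q (Cᶜ ∪ Dᶜ) ≤ _ := Pool.Agent.H89.Perc.Pr_union_le
  rw [Pool.Agent.H89.Perc.Pr_compl lB] at h2
  rw [Pool.Agent.H89.Perc.Pr_compl lC, Pool.Agent.H89.Perc.Pr_compl lD] at h3
  linarith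

/-! ### Crossings at all places -/

theorem tcross {c : ℝ} {r : Bool} {L m : ℤ} (h : c ≤ PT q r {η | HC η 0 L 0 m})
    {x x' y y' : ℤ} (hx : x ≤ x') (hL : x' - x ≤ L) (hy : m ≤ y' - y) :
    c ≤ PT q r {η | HC η x x' y y'} := by
  rw [← PT_HC_shf q r 0 L 0 m x y] at h
  refine h.trans (PT_mono fun η hη => ?_)
  exact HC.mono hη (by omega) hx (by omega) (by omega) (by omega)

theorem tcross' {c : ℝ} {r : Bool} {L m : ℤ} (h : c ≤ PT q r {η | HC η 0 L 0 m})
    {x x' y y' : ℤ} (hy : y ≤ y') (hL : y' - y ≤ L) (hx : m ≤ x' - x) :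
    c ≤ PT q r {η | VC η x x' y y'} := by
  rw [PT_VC_eq_HC]
  exact tcross h hy hL hx

/-! ### The four crossings -/

/-- The four open crossings. -/
def four (N : ℕ) (h m : ℤ) : Set Config :=
  ({ω | full false (per N ω) ∈ {η | HC η 0 (h + m) 0 m}} ∩
    {ω | full false (per N ω) ∈ {η | HC η h (N + m) 0 m}}) ∩
  ({ω | full false (per N ω) ∈ {η | VC η h (h + m) 0 m}} ∩
    {ω | full false (per N ω) ∈ {η | VC η 0 m 0 m}})

/-- The four closed crossings. -/
def four' (N : ℕ) (h m : ℤ) : Set Config :=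
  ({ω | neg (full false (per N ω)) ∈ {η | VC η 0 m 0 (h + m)}} ∩
    {ω | neg (full false (per N ω)) ∈ {η | VC η 0 m h (N + m)}}) ∩
  ({ω | neg (full false (per N ω)) ∈ {η | HC η 0 m h (h + m)}} ∩
    {ω | neg (full false (per N ω)) ∈ {η | HC η 0 m 0 m}})

theorem four_subset {h m : ℤ} (hN : 1 ≤ N) (hm : 0 ≤ m) (hh : 0 ≤ h) (hhN : h ≤ N) :
    four N h m ⊆ WindS N := by
  rintro ω ⟨⟨h1, h2⟩, h3, h4⟩
  have hper : ∀ v, full false (per N ω) (shf N 0 v) = full false (per N ω) v := fun v => by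
    simpa using full_per_shf false N ω 1 0 v
  obtain ⟨w, hw⟩ := wind_of_crossings hper hm hh hhN h1 h2 h3 h4
  exact (windS_iff hN).2 ⟨w, 1, 0, one_ne_zero, by simpa using hw⟩

theorem four_subset' {h m : ℤ} (hN : 1 ≤ N) (hm : 0 ≤ m) (hh : 0 ≤ h) (hhN : h ≤ N) :
    four' N h m ⊆ (WindS N)ᶜ := by
  rintro ω ⟨⟨h1, h2⟩, h3, h4⟩ hω
  have hper0 : ∀ (i j : ℤ) (v : TV), full false (per N ω) (shf (i * N) (j * N) v) =
      full false (per N ω) v := full_per_shf false N ω
  have hper : ∀ v, neg (full false (per N ω)) (shf 0 N v) = neg (full false (per N ω)) v := by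
    intro v
    have := hper0 0 1 v
    simp only [zero_mul, one_mul] at this
    simp only [neg, this]
  obtain ⟨w, hw⟩ := wind_of_crossings' hper hm hh hhN h1 h2 h3 h4
  obtain ⟨u, a, b, ha, hu⟩ := (windS_iff hN).1 hω
  exact wind_excl hN hper0 ha hu w hw

section
variable {e : ℝ} {h m L : ℤ}

theorem four_lower (hN : 1 ≤ N) (he : 0 ≤ e) (hm : 0 ≤ m) (hh : 0 ≤ h) (h1 : h + m < N)
    (h2 : m + (N - h) < N) (hL : h + m ≤ L) (hL' : m + (N - h) ≤ L)
    (H : e ≤ PT q false {η | HC η 0 L 0 m}) :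
    e ^ 4 ≤ Pool.Agent.H89.Perc.Pr q (WindS N) := by
  have p1 : e ≤ Pool.Agent.H89.Perc.Pr q
      {ω | full false (per N ω) ∈ {η | HC η 0 (h + m) 0 m}} := by
    rw [raw_per (a := 0) (b := h + m) (c := 0) (d := m) (by omega) (by omega)
      (localOn_HC _ _ _ _)]
    exact tcross H (by omega) (by omega) (by omega)
  have p2 : e ≤ Pool.Agent.H89.Perc.Pr q
      {ω | full false (per N ω) ∈ {η | HC η h (N + m) 0 m}} := by
    rw [raw_per (a := h) (b := N + m) (c := 0) (d := m) (by omega) (by omega)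
      (localOn_HC _ _ _ _)]
    exact tcross H (by omega) (by omega) (by omega)
  have p3 : e ≤ Pool.Agent.H89.Perc.Pr q
      {ω | full false (per N ω) ∈ {η | VC η h (h + m) 0 m}} := by
    rw [raw_per (a := h) (b := h + m) (c := 0) (d := m) (by omega) (by omega)
      (localOn_VC _ _ _ _)]
    exact tcross' H (by omega) (by omega) (by omega)
  have p4 : e ≤ Pool.Agent.H89.Perc.Pr q
      {ω | full false (per N ω) ∈ {η | VC η 0 m 0 m}} := by
    rw [raw_per (a := 0) (b := m) (c := 0) (d := m) (by omega) (by omega)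
      (localOn_VC _ _ _ _)]
    exact tcross' H (by omega) (by omega) (by omega)
  refine (pow4_le he p1 p2 p3 p4).trans ((fkg4 (local_per (localOn_HC _ _ _ _))
    (local_per (localOn_HC _ _ _ _)) (local_per (localOn_VC _ _ _ _))
    (local_per (localOn_VC _ _ _ _)) (incr_per (incr_HC _ _ _ _)) (incr_per (incr_HC _ _ _ _))
    (incr_per (incr_VC _ _ _ _)) (incr_per (incr_VC _ _ _ _))).trans
    (Pool.Agent.H89.Perc.Pr_mono (four_subset hN hm hh (by omega))))

theorem four_near (hN : 1 ≤ N) (hm : 0 ≤ m) (hh : 0 ≤ h) (h1 : h + m < N)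
    (h2 : m + (N - h) < N) (hL : h + m ≤ L) (hL' : m + (N - h) ≤ L)
    (H : 1 - e ≤ PT q false {η | HC η 0 L 0 m}) :
    1 - 4 * e ≤ Pool.Agent.H89.Perc.Pr q (WindS N) := by
  have p1 : 1 - e ≤ Pool.Agent.H89.Perc.Pr q
      {ω | full false (per N ω) ∈ {η | HC η 0 (h + m) 0 m}} := by
    rw [raw_per (a := 0) (b := h + m) (c := 0) (d := m) (by omega) (by omega)
      (localOn_HC _ _ _ _)]
    exact tcross H (by omega) (by omega) (by omega)
  have p2 : 1 - e ≤ Pool.Agent.H89.Perc.Pr q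
      {ω | full false (per N ω) ∈ {η | HC η h (N + m) 0 m}} := by
    rw [raw_per (a := h) (b := N + m) (c := 0) (d := m) (by omega) (by omega)
      (localOn_HC _ _ _ _)]
    exact tcross H (by omega) (by omega) (by omega)
  have p3 : 1 - e ≤ Pool.Agent.H89.Perc.Pr q
      {ω | full false (per N ω) ∈ {η | VC η h (h + m) 0 m}} := by
    rw [raw_per (a := h) (b := h + m) (c := 0) (d := m) (by omega) (by omega)
      (localOn_VC _ _ _ _)]
    exact tcross' H (by omega) (by omega) (by omega)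
  have p4 : 1 - e ≤ Pool.Agent.H89.Perc.Pr q
      {ω | full false (per N ω) ∈ {η | VC η 0 m 0 m}} := by
    rw [raw_per (a := 0) (b := m) (c := 0) (d := m) (by omega) (by omega)
      (localOn_VC _ _ _ _)]
    exact tcross' H (by omega) (by omega) (by omega)
  exact (near4 (local_per (localOn_HC _ _ _ _)) (local_per (localOn_VC _ _ _ _))
    (local_per (localOn_VC _ _ _ _)) p1 p2 p3 p4).trans
    (Pool.Agent.H89.Perc.Pr_mono (four_subset hN hm hh (by omega)))

theorem four_lower' (hN : 1 ≤ N) (he : 0 ≤ e) (hm : 0 ≤ m) (hh : 0 ≤ h) (h1 : h + m < N)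
    (h2 : m + (N - h) < N) (hL : h + m ≤ L) (hL' : m + (N - h) ≤ L)
    (H : e ≤ PT (σ q) true {η | HC η 0 L 0 m}) :
    e ^ 4 ≤ 1 - Pool.Agent.H89.Perc.Pr q (WindS N) := by
  have p1 : e ≤ Pool.Agent.H89.Perc.Pr q
      {ω | neg (full false (per N ω)) ∈ {η | VC η 0 m 0 (h + m)}} := by
    rw [raw_neg_per (a := 0) (b := m) (c := 0) (d := h + m) (by omega) (by omega)
      (localOn_VC _ _ _ _)]
    exact tcross' H (by omega) (by omega) (by omega)
  have p2 : e ≤ Pool.Agent.H89.Perc.Pr q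
      {ω | neg (full false (per N ω)) ∈ {η | VC η 0 m h (N + m)}} := by
    rw [raw_neg_per (a := 0) (b := m) (c := h) (d := N + m) (by omega) (by omega)
      (localOn_VC _ _ _ _)]
    exact tcross' H (by omega) (by omega) (by omega)
  have p3 : e ≤ Pool.Agent.H89.Perc.Pr q
      {ω | neg (full false (per N ω)) ∈ {η | HC η 0 m h (h + m)}} := by
    rw [raw_neg_per (a := 0) (b := m) (c := h) (d := h + m) (by omega) (by omega)
      (localOn_HC _ _ _ _)]
    exact tcross H (by omega) (by omega) (by omega)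
  have p4 : e ≤ Pool.Agent.H89.Perc.Pr q
      {ω | neg (full false (per N ω)) ∈ {η | HC η 0 m 0 m}} := by
    rw [raw_neg_per (a := 0) (b := m) (c := 0) (d := m) (by omega) (by omega)
      (localOn_HC _ _ _ _)]
    exact tcross H (by omega) (by omega) (by omega)
  rw [← Pool.Agent.H89.Perc.Pr_compl (localOn_windS hN)]
  refine (pow4_le he p1 p2 p3 p4).trans ((fkg4_decr (local_neg_per (localOn_VC _ _ _ _))
    (local_neg_per (localOn_VC _ _ _ _)) (local_neg_per (localOn_HC _ _ _ _))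
    (local_neg_per (localOn_HC _ _ _ _)) (decr_neg_per (incr_VC _ _ _ _))
    (decr_neg_per (incr_VC _ _ _ _)) (decr_neg_per (incr_HC _ _ _ _))
    (decr_neg_per (incr_HC _ _ _ _))).trans
    (Pool.Agent.H89.Perc.Pr_mono (four_subset' hN hm hh (by omega))))

theorem four_near' (hN : 1 ≤ N) (hm : 0 ≤ m) (hh : 0 ≤ h) (h1 : h + m < N)
    (h2 : m + (N - h) < N) (hL : h + m ≤ L) (hL' : m + (N - h) ≤ L)
    (H : 1 - e ≤ PT (σ q) true {η | HC η 0 L 0 m}) :
    Pool.Agent.H89.Perc.Pr q (WindS N) ≤ 4 * e := by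
  have p1 : 1 - e ≤ Pool.Agent.H89.Perc.Pr q
      {ω | neg (full false (per N ω)) ∈ {η | VC η 0 m 0 (h + m)}} := by
    rw [raw_neg_per (a := 0) (b := m) (c := 0) (d := h + m) (by omega) (by omega)
      (localOn_VC _ _ _ _)]
    exact tcross' H (by omega) (by omega) (by omega)
  have p2 : 1 - e ≤ Pool.Agent.H89.Perc.Pr q
      {ω | neg (full false (per N ω)) ∈ {η | VC η 0 m h (N + m)}} := by
    rw [raw_neg_per (a := 0) (b := m) (c := h) (d := N + m) (by omega) (by omega)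
      (localOn_VC _ _ _ _)]
    exact tcross' H (by omega) (by omega) (by omega)
  have p3 : 1 - e ≤ Pool.Agent.H89.Perc.Pr q
      {ω | neg (full false (per N ω)) ∈ {η | HC η 0 m h (h + m)}} := by
    rw [raw_neg_per (a := 0) (b := m) (c := h) (d := h + m) (by omega) (by omega)
      (localOn_HC _ _ _ _)]
    exact tcross H (by omega) (by omega) (by omega)
  have p4 : 1 - e ≤ Pool.Agent.H89.Perc.Pr q
      {ω | neg (full false (per N ω)) ∈ {η | HC η 0 m 0 m}} := by
    rw [raw_neg_per (a := 0) (b := m) (c := 0) (d := m) (by omega) (by omega)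
      (localOn_HC _ _ _ _)]
    exact tcross H (by omega) (by omega) (by omega)
  have h3 := (near4 (local_neg_per (localOn_VC _ _ _ _)) (local_neg_per (localOn_HC _ _ _ _))
    (local_neg_per (localOn_HC _ _ _ _)) p1 p2 p3 p4).trans
    (Pool.Agent.H89.Perc.Pr_mono (four_subset' hN hm hh (by omega)))
  rw [Pool.Agent.H89.Perc.Pr_compl (localOn_windS hN)] at h3
  linarith

end

/-! ### The box-crossing regime -/

/-- Winding has probability bounded below in the box-crossing regime. -/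
theorem wind_reg_lower {c : ℝ} (hc : 0 < c) {N : ℕ} {q : I} (h : RSWreg c N q) (hN : 4 ≤ N) :
    c ^ 4 ≤ Pool.Agent.H89.Perc.Pr q (WindS N) := by
  obtain ⟨m, hm⟩ : ∃ m : ℕ, N / 2 = m + 1 := ⟨N / 2 - 1, by omega⟩
  have H := ((rswreg_iff.1 h) m (by omega) (by omega)).1
  exact four_lower (by omega) hc.le (h := m + 1) (by omega) (by omega) (by omega) (by omega)
    (by omega) (by omega) H

/-- Not winding has probability bounded below in the box-crossing regime. -/
theorem wind_reg_upper {c : ℝ} (hc : 0 < c) {N : ℕ} {q : I} (h : RSWreg c N q) (hN : 4 ≤ N) :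
    c ^ 4 ≤ 1 - Pool.Agent.H89.Perc.Pr q (WindS N) := by
  obtain ⟨m, hm⟩ : ∃ m : ℕ, N / 2 = m + 1 := ⟨N / 2 - 1, by omega⟩
  have H := ((rswreg_iff.1 h) m (by omega) (by omega)).2
  exact four_lower' (by omega) hc.le (h := m + 1) (by omega) (by omega) (by omega) (by omega)
    (by omega) (by omega) H

/-! ### Good scales -/

/-- Winding is likely above a good scale of the open sites. -/
theorem wind_near : ∀ η > (0 : ℝ), ∃ δ > (0 : ℝ), ∀ (p : I) (m N : ℕ), 1 ≤ m → 10 * m ≤ N →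
    N ≤ 40 * m → 1 - δ ≤ PT p false {η | HC η 0 (4 * m) 0 (4 * m)} →
    1 - η ≤ Pool.Agent.H89.Perc.Pr p (WindS N) := by
  intro η hη
  refine ⟨(η / 400) ^ 2, by positivity, fun p m N hm h1 h2 h => ?_⟩
  have h3 := near_rsw p false (l := 2 * m) (by omega) (δ := (η / 400) ^ 2) (by positivity)
    (by push_cast; ring_nf at h ⊢; exact h)
  rw [Real.sqrt_sq (by positivity)] at h3
  obtain ⟨k, hk⟩ : ∃ k : ℕ, k = N / 2 := ⟨_, rfl⟩
  have h4 := four_near (q := p) (N := N) (e := 100 * (η / 400)) (h := k)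
    (m := 2 * ((2 * m : ℕ) : ℤ)) (L := 12 * ((2 * m : ℕ) : ℤ)) (by omega) (by omega) (by omega)
    (by push_cast; omega) (by push_cast; omega) (by push_cast; omega) (by push_cast; omega) h3
  linarith

/-- Winding is unlikely above a good scale of the closed sites. -/
theorem wind_near' : ∀ η > (0 : ℝ), ∃ δ > (0 : ℝ), ∀ (p : I) (m N : ℕ), 1 ≤ m → 10 * m ≤ N →
    N ≤ 40 * m → 1 - δ ≤ PT (σ p) true {η | HC η 0 (4 * m) 0 (4 * m)} →
    Pool.Agent.H89.Perc.Pr p (WindS N) ≤ η := by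
  intro η hη
  refine ⟨(η / 400) ^ 2, by positivity, fun p m N hm h1 h2 h => ?_⟩
  have h3 := near_rsw (σ p) true (l := 2 * m) (by omega) (δ := (η / 400) ^ 2) (by positivity)
    (by push_cast; ring_nf at h ⊢; exact h)
  rw [Real.sqrt_sq (by positivity)] at h3
  obtain ⟨k, hk⟩ : ∃ k : ℕ, k = N / 2 := ⟨_, rfl⟩
  have h4 := four_near' (q := p) (N := N) (e := 100 * (η / 400)) (h := k)
    (m := 2 * ((2 * m : ℕ) : ℤ)) (L := 12 * ((2 * m : ℕ) : ℤ)) (by omega) (by omega) (by omega)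
    (by push_cast; omega) (by push_cast; omega) (by push_cast; omega) (by push_cast; omega) h3
  linarith

/-- The winding probability has increased by a constant above a good scale of the open sites. -/
theorem wind_gap_plus : ∃ δ > (0 : ℝ), ∃ c > (0 : ℝ), ∀ (p : I) (m N : ℕ), 1 ≤ m →
    10 * m ≤ N → N ≤ 40 * m → 1 - δ ≤ PT p false {η | HC η 0 (4 * m) 0 (4 * m)} →
    c ≤ Pool.Agent.H89.Perc.Pr p (WindS N) - Pool.Agent.H89.Perc.Pr pc (WindS N) := by
  obtain ⟨c, hc, hreg⟩ := rswreg_pc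
  obtain ⟨δ, hδ, h1⟩ := wind_near (c ^ 4 / 2) (by positivity)
  refine ⟨δ, hδ, c ^ 4 / 2, by positivity, fun p m N hm h2 h3 h => ?_⟩
  have h4 := h1 p m N hm h2 h3 h
  have h5 := wind_reg_upper hc (hreg N) (by omega)
  linarith

/-- The winding probability has decreased by a constant above a good scale of the closed sites. -/
theorem wind_gap_minus : ∃ δ > (0 : ℝ), ∃ c > (0 : ℝ), ∀ (p : I) (m N : ℕ), 1 ≤ m →
    10 * m ≤ N → N ≤ 40 * m → 1 - δ ≤ PT (σ p) true {η | HC η 0 (4 * m) 0 (4 * m)} →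
    c ≤ Pool.Agent.H89.Perc.Pr pc (WindS N) - Pool.Agent.H89.Perc.Pr p (WindS N) := by
  obtain ⟨c, hc, hreg⟩ := rswreg_pc
  obtain ⟨δ, hδ, h1⟩ := wind_near' (c ^ 4 / 2) (by positivity)
  refine ⟨δ, hδ, c ^ 4 / 2, by positivity, fun p m N hm h2 h3 h => ?_⟩
  have h4 := h1 p m N hm h2 h3 h
  have h5 := wind_reg_lower hc (hreg N) (by omega)
  linarith

end Pool.Agent.H83.SK.WG

end

section

/-!
# The winding event of the torus and its translation invariance
-/

set_option autoImplicit false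

open MeasureTheory ProbabilityTheory unitInterval

namespace Pool.Agent.H92.SN

open Pool.Agent.H89.Perc
open Pool.Agent.H61.NC (fill mid upd Joint PrR' dist0)
open Pool.Agent.H83.SK (sv sit)

/-- The configuration on the torus determines the induced periodic configuration. -/
theorem sit_per_congr {N : ℕ} (hN : 1 ≤ N) {w w' : Config} (h : ∀ e ∈ tSites N, w e = w' e) :
    sit (per N w) = sit (per N w') := by
  have hN' : (0 : ℤ) < N := by exact_mod_cast hN
  have key : ∀ v : Vert, per N w (sv v) = per N w' (sv v) := by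
    intro v
    refine h _ ?_
    rw [mem_tSites]
    exact ⟨⟨Int.emod_nonneg _ hN'.ne', Int.emod_lt_of_pos _ hN'⟩,
      ⟨Int.emod_nonneg _ hN'.ne', Int.emod_lt_of_pos _ hN'⟩, rfl⟩
  funext e
  simp only [sit]
  rw [key, key]

theorem localOn_WindS {N : ℕ} (hN : 1 ≤ N) : LocalOn (tSites N) (WindS N) := by
  rintro w w' h ⟨u, a, b, ha, hc⟩
  exact ⟨u, a, b, ha, sit_per_congr hN h ▸ hc⟩

theorem incr_WindS (N : ℕ) : Incr (WindS N) := by
  rintro w w' h ⟨u, a, b, ha, hc⟩
  exact ⟨u, a, b, ha, hc.mono le_rfl (Pool.Agent.H83.SK.sit_mono fun e he => h _ he)⟩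

theorem cE_mem {N : ℕ} (hN : 1 ≤ N) : cE N ∈ tSites N := by
  rw [mem_tSites]
  simp only [cE, mid, and_true]
  omega

theorem sv_cV (N : ℕ) : sv (cV N) = cE N := rfl

theorem card_tSites (N : ℕ) : ((tSites N).card : ℝ) = (N : ℝ) ^ 2 := by
  unfold tSites
  rw [Finset.card_product, Finset.card_product, Finset.card_singleton, Int.card_Ico]
  simp only [sub_zero, Int.toNat_natCast, mul_one]
  push_cast
  ring

theorem sit_shiftE (z : Vert) (ω : Config) :
    sit (fun f => ω (shiftE z f)) = fun f => sit ω (shiftE z f) := by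
  funext f
  obtain ⟨x, y, t⟩ := f
  cases t
  · simp only [sit, sv, src, tgt, shiftE, Bool.false_eq_true, if_false]
    rw [show x + 1 + z.1 = x + z.1 + 1 by ring]
  · simp only [sit, sv, src, tgt, shiftE, if_true]
    rw [show y + 1 + z.2 = y + z.2 + 1 by ring]

/-- Translations of the torus. -/
theorem windS_tau (N : ℕ) (z : Vert) (w : Config) :
    (fun f => w (torusSym_tau N z f)) ∈ WindS N ↔ w ∈ WindS N := by
  constructor
  · rintro ⟨u, a, b, ha, hc⟩
    rw [torusSym_per, sit_shiftE, conn_shift] at hc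
    refine ⟨(u.1 + z.1, u.2 + z.2), a, b, ha, ?_⟩
    have h := hc.mono_set (Set.subset_univ _)
    convert h using 2
    · simp only; ring
    · simp only; ring
  · rintro ⟨u, a, b, ha, hc⟩
    refine ⟨(u.1 - z.1, u.2 - z.2), a, b, ha, ?_⟩
    rw [torusSym_per, sit_shiftE, conn_shift]
    have h1 : {w : Vert | (w.1 - z.1, w.2 - z.2) ∈ (Set.univ : Set Vert)} = Set.univ := by
      ext w; simp
    rw [h1]
    convert hc using 2
    · simp
    · simp
    · simp only; ring
    · simp only; ring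

theorem tau_injOn (N : ℕ) (z : Vert) : Set.InjOn (torusSym_tau N z) (tSites N) :=
  (torusSym_tau_injOn N z).mono (by
    intro e he
    exact tSites_sub N he)

private theorem tSym_mem_upd {A : Set Config} {e f : Edge} {a b : Bool} {w : Config} :
    w ∈ upd (upd A e a) f b ↔ Function.update (Function.update w f b) e a ∈ A := Iff.rfl

private theorem tSym_upd {N : ℕ} (hN : 1 ≤ N) (z : Vert) {e f : Edge} (he : e ∈ tSites N)
    (hf : f ∈ tSites N) (a b : Bool) (w : Config) :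
    (fun x => w (torusSym_tau N z x)) ∈ upd (upd (WindS N) e a) f b ↔
      w ∈ upd (upd (WindS N) (torusSym_tau N z e) a) (torusSym_tau N z f) b := by
  rw [tSym_mem_upd, tSym_mem_upd, ← windS_tau N z
    (Function.update (Function.update w (torusSym_tau N z f) b) (torusSym_tau N z e) a)]
  have key : ∀ x ∈ tSites N,
      Function.update (Function.update w (torusSym_tau N z f) b) (torusSym_tau N z e) a
        (torusSym_tau N z x) =
      Function.update (Function.update (fun x => w (torusSym_tau N z x)) f b) e a x := by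
    intro x hx
    by_cases hxe : x = e
    · subst hxe
      rw [Function.update_self, Function.update_self]
    · have h2 : torusSym_tau N z x ≠ torusSym_tau N z e := fun h =>
        hxe (tau_injOn N z hx he h)
      rw [Function.update_of_ne h2, Function.update_of_ne hxe]
      by_cases hxf : x = f
      · subst hxf
        rw [Function.update_self, Function.update_self]
      · have h3 : torusSym_tau N z x ≠ torusSym_tau N z f := fun h =>
          hxf (tau_injOn N z hx hf h)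
        rw [Function.update_of_ne h3, Function.update_of_ne hxf]
  exact ⟨fun h1 => localOn_WindS hN _ _ (fun x hx => (key x hx).symm) h1,
    fun h1 => localOn_WindS hN _ _ key h1⟩

theorem localOn_Joint {s : Finset Edge} {A : Set Config} (hA : LocalOn s A) (e f : Edge) :
    LocalOn s (Joint A e f) := by
  have hl : ∀ (A : Set Config), LocalOn s A → ∀ (e : Edge) (b : Bool),
      LocalOn s (upd A e b) := by
    intro A hA e b ω ω' h hω
    refine hA _ _ (fun x hx => ?_) hω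
    by_cases hxe : x = e
    · subst hxe; simp
    · rw [Function.update_of_ne hxe, Function.update_of_ne hxe]
      exact h x hx
  have hl2 : ∀ (a b : Bool), LocalOn s (upd (upd A e a) f b) := fun a b =>
    hl _ (hl _ hA e a) f b
  unfold Joint
  rw [Set.sdiff_eq, Set.sdiff_eq]
  exact ((hl2 _ _).inter ((hl2 _ _).union (hl2 _ _)).compl).union
    (((hl2 _ _).inter (hl2 _ _)).inter (hl2 _ _).compl)

private theorem tSym_joint {N : ℕ} (hN : 1 ≤ N) (q : I) (z : Vert) {e f : Edge}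
    (he : e ∈ tSites N) (hf : f ∈ tSites N) :
    Pr q (Joint (WindS N) (torusSym_tau N z e) (torusSym_tau N z f)) =
      Pr q (Joint (WindS N) e f) := by
  rw [← Pr_comp (localOn_Joint (localOn_WindS hN) e f) (tau_injOn N z)]
  congr 1
  ext ω
  have h := fun a b => tSym_upd hN z he hf a b ω
  unfold Joint
  rw [Set.mem_ofPred_eq]
  simp only [Set.mem_union, Set.mem_sdiff, Set.mem_inter_iff, h]

theorem tau_mem {N : ℕ} (hN : 1 ≤ N) (z : Vert) {e : Edge} (he : e.2.2 = false) :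
    torusSym_tau N z e ∈ tSites N := by
  have hN' : (0 : ℤ) < N := by exact_mod_cast hN
  rw [mem_tSites]
  exact ⟨⟨Int.emod_nonneg _ hN'.ne', Int.emod_lt_of_pos _ hN'⟩,
      ⟨Int.emod_nonneg _ hN'.ne', Int.emod_lt_of_pos _ hN'⟩, he⟩

theorem tau_cE {N : ℕ} {e : Edge} (he : e ∈ tSites N) :
    torusSym_tau N (e.1 - mid N, e.2.1 - mid N) (cE N) = e := by
  rw [mem_tSites] at he
  obtain ⟨x, y, d⟩ := e
  simp only at he
  simp only [torusSym_tau, cE, Prod.mk.injEq]
  refine ⟨?_, ?_, he.2.2.symm⟩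
  · rw [show mid N + (x - mid N) = x by ring, Int.emod_eq_of_lt he.1.1 he.1.2]
  · rw [show mid N + (y - mid N) = y by ring, Int.emod_eq_of_lt he.2.1.1 he.2.1.2]

private theorem tSym_image {N : ℕ} (hN : 1 ≤ N) (z : Vert) :
    (tSites N).image (torusSym_tau N z) = tSites N := by
  refine Finset.eq_of_subset_of_card_le ?_ ?_
  · intro x hx
    obtain ⟨y, hy, rfl⟩ := Finset.mem_image.1 hx
    exact tau_mem hN z (mem_tSites.1 hy).2.2
  · rw [Finset.card_image_of_injOn (tau_injOn N z)]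

private theorem tSym_update {N : ℕ} (hN : 1 ≤ N) (q : I) {e : Edge} (he : e ∈ tSites N)
    (b : Bool) : Pr q {w | Function.update w e b ∈ WindS N} =
      Pr q {w | Function.update w (cE N) b ∈ WindS N} := by
  have hloc : LocalOn (tSites N) {w | Function.update w (cE N) b ∈ WindS N} := by
    intro ω ω' hω h1
    refine localOn_WindS hN _ _ (fun f hf => ?_) h1
    by_cases hfe : f = cE N
    · subst hfe; simp
    · simp only [Function.update_of_ne hfe]; exact hω f hf
  set z : Vert := (e.1 - mid N, e.2.1 - mid N) with hz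
  have hτ : torusSym_tau N z (cE N) = e := tau_cE he
  rw [← Pr_comp hloc (tau_injOn N z)]
  congr 1
  ext ω
  simp only [Set.mem_ofPred_eq]
  rw [← windS_tau N z (Function.update ω e b)]
  have key : ∀ f ∈ tSites N, Function.update ω e b (torusSym_tau N z f) =
      Function.update (fun f => ω (torusSym_tau N z f)) (cE N) b f := by
    intro f hf
    by_cases hfe : f = cE N
    · subst hfe
      rw [hτ]; simp
    · have h2 : torusSym_tau N z f ≠ e := by
        intro h3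
        rw [← hτ] at h3
        exact hfe (tau_injOn N z hf (cE_mem hN) h3)
      rw [Function.update_of_ne h2, Function.update_of_ne hfe]
  exact ⟨fun h1 => localOn_WindS hN _ _ key h1,
    fun h1 => localOn_WindS hN _ _ (fun f hf => (key f hf).symm) h1⟩

theorem pivot_windS {N : ℕ} (hN : 1 ≤ N) (q : I) {e : Edge} (he : e ∈ tSites N) :
    pivot q (WindS N) e = sT q N := by
  unfold sT pivot
  rw [tSym_update hN q he true, tSym_update hN q he false]

theorem sum_pivot {N : ℕ} (hN : 1 ≤ N) (q : I) :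
    ∑ e ∈ tSites N, pivot q (WindS N) e = (N : ℝ) ^ 2 * sT q N := by
  rw [Finset.sum_congr rfl fun e he => pivot_windS hN q he, Finset.sum_const, nsmul_eq_mul,
    card_tSites]

theorem pivot_nonneg_of_incr {A : Set Config} (iA : Incr A) (q : I) (e : Edge) :
    0 ≤ pivot q A e := by
  unfold pivot
  rw [sub_nonneg]
  refine Pr_mono ?_
  intro ω hω
  refine iA _ _ ?_ hω
  intro f hf
  by_cases h : f = e
  · subst h; simp
  · rw [Function.update_of_ne h] at hf ⊢
    exact hf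

theorem sT_nonneg (q : I) (N : ℕ) : 0 ≤ sT q N := pivot_nonneg_of_incr (incr_WindS N) q _

/-- The sum over pairs is a sum over pairs with first site in the middle. -/
theorem sum_joint {N : ℕ} (hN : 1 ≤ N) (q : I) :
    ∑ e ∈ tSites N, ∑ f ∈ (tSites N).erase e, Pr q (Joint (WindS N) e f) =
      (N : ℝ) ^ 2 * ∑ f ∈ (tSites N).erase (cE N), Pr q (Joint (WindS N) (cE N) f) := by
  rw [← card_tSites, ← nsmul_eq_mul, ← Finset.sum_const]
  refine Finset.sum_congr rfl fun e he => ?_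
  set z : Vert := (e.1 - mid N, e.2.1 - mid N) with hz
  have hτ : torusSym_tau N z (cE N) = e := tau_cE he
  symm
  refine Finset.sum_bij (fun f _ => torusSym_tau N z f) ?_ ?_ ?_ ?_
  · intro f hf
    rw [Finset.mem_erase] at hf ⊢
    refine ⟨fun h => hf.1 ?_, tau_mem hN z (mem_tSites.1 hf.2).2.2⟩
    refine tau_injOn N z hf.2 (cE_mem hN) ?_
    rw [h, hτ]
  · intro f hf f' hf' h
    exact tau_injOn N z (Finset.mem_of_mem_erase hf) (Finset.mem_of_mem_erase hf') h
  · intro f hf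
    rw [Finset.mem_erase] at hf
    have h1 : f ∈ (tSites N).image (torusSym_tau N z) := by rw [tSym_image hN z]; exact hf.2
    obtain ⟨g, hg, hgf⟩ := Finset.mem_image.1 h1
    refine ⟨g, Finset.mem_erase.2 ⟨fun h => hf.1 ?_, hg⟩, hgf⟩
    rw [← hgf, h, hτ]
  · intro f hf
    have h1 := tSym_joint hN q z (cE_mem hN) (Finset.mem_of_mem_erase hf)
    rw [hτ] at h1
    exact h1.symm

theorem fill_mem {s : Finset Edge} {b : Bool} {ω : Config} {e : Edge} (h : e ∈ s) :
    fill s b ω e = b := by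
  classical
  unfold fill
  rw [if_pos h]

theorem fill_notMem {s : Finset Edge} {b : Bool} {ω : Config} {e : Edge}
    (h : e ∉ s) : fill s b ω e = ω e := by
  classical
  unfold fill
  rw [if_neg h]

/-- The block event depends only on the sites outside the block. -/
theorem localOn_BlockPiv {N : ℕ} (hN : 1 ≤ N) (R : ℕ) :
    LocalOn (tSites N \ blkS N R) (BlockPiv N R) := by
  intro ω ω' h hω
  have key : ∀ b, ∀ e ∈ tSites N, fill (blkS N R) b ω e = fill (blkS N R) b ω' e := by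
    intro b e he
    by_cases hb : e ∈ blkS N R
    · rw [fill_mem hb, fill_mem hb]
    · rw [fill_notMem hb, fill_notMem hb]
      exact h e (Finset.mem_sdiff.2 ⟨he, hb⟩)
  exact ⟨localOn_WindS hN _ _ (key true) hω.1,
    fun h' => hω.2 (localOn_WindS hN _ _ (fun e he => (key false e he).symm) h')⟩

end Pool.Agent.H92.SN

end

section

/-!
# Site percolation, small scales: finite energy
-/

open MeasureTheory ProbabilityTheory unitInterval

namespace Pool.Agent.H83.SK

open Pool.Agent.H89.Perc Pool.Agent.H29.Sep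
open Pool.Agent.H59.EX (Src Four closeS_true)

/-- The probability that a site is open. -/
theorem site_open (q : I) (e : Edge) :
    Pool.Agent.H89.Perc.Pr q {ω : Config | ω e = true} = q := a4Low_open q e

theorem site_closed (q : I) (e : Edge) :
    Pool.Agent.H89.Perc.Pr q {ω : Config | ω e = false} = 1 - q := by
  have hloc : LocalOn {e} {ω : Config | ω e = true} := by
    intro ω ω' h hω
    rw [Set.mem_ofPred_eq, ← h e (Finset.mem_singleton_self e)]
    exact hω
  have h1 : {ω : Config | ω e = false} = {ω : Config | ω e = true}ᶜ := by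
    ext ω
    simp
  rw [h1, Pool.Agent.H89.Perc.Pr_compl hloc, site_open]

private theorem a4Low_hcross (q : I) {c : ℝ}
    (h : c ≤ Pr q {ω | HCross ω 0 (4 * ((1 : ℕ) : ℤ)) 0 ((1 : ℕ) : ℤ)}) :
    c / 16 ≤ (q : ℝ) := by
  have hsub : {ω : Config | sit ω ∈ {ω | HCross ω 0 (4 * ((1 : ℕ) : ℤ)) 0 ((1 : ℕ) : ℤ)}} ⊆
      {ω | ω (0, 0, false) = true} ∪ {ω | ω (0, 1, false) = true} := by
    rintro ω ⟨u, v, hu, hv, hc⟩
    by_contra hno
    simp only [Set.mem_union, Set.mem_ofPred_eq, not_or] at hno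
    have hu0 := hc.mem_left
    have hP : v = u := by
      refine hc.induction_right (P := fun w => w = u) rfl ?_
      rintro a b _ ⟨ha', hb', f, hf, ho⟩ rfl
      exfalso
      rw [sit_true] at ho
      have ho' : ω (sv a) = true := by
        rcases hf with ⟨h3, h4⟩ | ⟨h3, h4⟩
        · rw [h3]; exact ho.1
        · rw [h3]; exact ho.2
      simp only [rect, Set.mem_ofPred_eq, Nat.cast_one] at hu0
      obtain ⟨x, y⟩ := a
      simp only at hu hu0
      subst hu
      have hy : y = 0 ∨ y = 1 := by omega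
      rcases hy with rfl | rfl
      · exact hno.1 ho'
      · exact hno.2 ho'
    rw [hP, hu] at hv
    norm_num at hv
  have h1 := (h.trans (Pool.Agent.H89.Perc.Pr_mono hsub)).trans Pool.Agent.H89.Perc.Pr_union_le
  rw [site_open, site_open] at h1
  have h2 : (0 : ℝ) ≤ q := q.2.1
  linarith

private theorem a4Low_vcross (q : I) {c : ℝ}
    (h : c ≤ Pr q {ω | ¬ VCross ω 0 (4 * ((1 : ℕ) : ℤ)) 0 ((1 : ℕ) : ℤ)}) :
    (q : ℝ) ≤ 1 - c / 16 := by
  have hsub : {ω : Config | sit ω ∈ {ω | ¬ VCross ω 0 (4 * ((1 : ℕ) : ℤ)) 0 ((1 : ℕ) : ℤ)}} ⊆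
      {ω | ω (0, 0, false) = false} ∪ {ω | ω (0, 1, false) = false} := by
    intro ω hω
    by_contra hno
    simp only [Set.mem_union, Set.mem_ofPred_eq, not_or, Bool.not_eq_false] at hno
    refine hω ⟨(0, 0), (0, 1), rfl, rfl, Step.conn ⟨?_, ?_, (0, 0, true), Or.inl ⟨rfl, rfl⟩, ?_⟩⟩
    · simp [rect]
    · simp [rect]
    · rw [sit_true]
      exact ⟨hno.1, hno.2⟩
  have h1 := (h.trans (Pool.Agent.H89.Perc.Pr_mono hsub)).trans Pool.Agent.H89.Perc.Pr_union_le
  rw [site_closed, site_closed] at h1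
  have h2 : (q : ℝ) ≤ 1 := q.2.2
  linarith

/-- In the regime the density is bounded away from `0` and `1`. -/
theorem rswreg_density {c : ℝ} {n : ℕ} {q : I} (hn : 1 ≤ n) (h : RSWreg c n q) :
    c / 16 ≤ (q : ℝ) ∧ (q : ℝ) ≤ 1 - c / 16 := by
  obtain ⟨h1, h2⟩ := h 1 le_rfl hn
  exact ⟨a4Low_hcross q h1, a4Low_vcross q h2⟩

theorem a4_nn (q : I) (r : ℕ) : 0 ≤ a4 q r := add_nonneg Pr_nonneg Pr_nonneg

theorem a4_le_two (q : I) (r : ℕ) : a4 q r ≤ 2 := by
  have h1 : Pr q (Four (s4 false) r) ≤ 1 := Pr_le_one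
  have h2 : Pr q (Four (s4 true) r) ≤ 1 := Pr_le_one
  unfold a4
  linarith

theorem s4_mem (b : Bool) {r : ℕ} (hr : 1 ≤ r) :
    (s4 b).x ∈ ball (0 : Vert) r ∧ (s4 b).y ∈ ball (0 : Vert) r := by
  have h : (1 : ℤ) ≤ r := by exact_mod_cast hr
  cases b
  · simp only [s4, mem_ball, Prod.fst_zero, Prod.snd_zero, Bool.false_eq_true, if_false]
    omega
  · simp only [s4, mem_ball, Prod.fst_zero, Prod.snd_zero, if_true]
    omega

theorem four_anti (b : Bool) {r r' : ℕ} (h1 : 1 ≤ r) (h : r ≤ r') :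
    Four (s4 b) r' ⊆ Four (s4 b) r := by
  rcases h.eq_or_lt with h0 | h0
  · subst h0; exact le_rfl
  have hsub : ball (0 : Vert) r ⊆ ball 0 r' := by
    intro w hw
    simp only [mem_ball] at hw ⊢
    omega
  have hout : ∀ u ∈ sphere (0 : Vert) r', u ∉ ball (0 : Vert) r := by
    rintro u ⟨hu1, hu2⟩ hu3
    simp only [mem_ball] at hu1 hu3
    omega
  rintro ω ⟨⟨u, hu, h2⟩, ⟨u', hu', h3⟩, h4⟩
  obtain ⟨x, hx, hcx⟩ := h2.to_sphere (v := 0) (r := r) (s4_mem b h1).1 (Or.inl (hout u hu))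
  obtain ⟨x', hx', hcx'⟩ := h3.to_sphere (v := 0) (r := r) (s4_mem b h1).2 (Or.inl (hout u' hu'))
  exact ⟨⟨x, hx, hcx.mono_set Set.inter_subset_right⟩,
    ⟨x', hx', hcx'.mono_set Set.inter_subset_right⟩, fun h5 => h4 (h5.mono_set hsub)⟩

theorem a4_anti {q : I} {r r' : ℕ} (h1 : 1 ≤ r) (h : r ≤ r') : a4 q r' ≤ a4 q r :=
  add_le_add (Pr_mono (four_anti false h1 h)) (Pr_mono (four_anti true h1 h))

/-- The sites of the horizontal axis. -/
private def axis : Config := fun e => decide (e.2.1 = 0)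

private theorem axis_sub (r : ℕ) (hr : 1 ≤ r) {ω : Config}
    (hω : ∀ e ∈ eRect (-r) r (-r) r, ω e = axis e) : sit ω ∈ Four (s4 false) r := by
  have hr' : (1 : ℤ) ≤ r := by exact_mod_cast hr
  have key : ∀ v : Vert, v ∈ ball (0 : Vert) r → (ω (sv v) = true ↔ v.2 = 0) := by
    intro v hv
    have h1 : sv v ∈ eRect (-(r : ℤ)) r (-(r : ℤ)) r := by
      rw [mem_eRect, show src (sv v) = v from rfl]
      simpa [ball] using hv
    rw [hω _ h1]
    simp [axis, sv]
  have hstep : ∀ a b : Vert, Step ((s4 false).cut (sit ω)) (ball 0 r) a b →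
      a.2 = 0 ∧ b.2 = 0 ∧ a ≠ 0 ∧ b ≠ 0 := by
    rintro a b ⟨ha, hb, e, he, ho⟩
    unfold Src.cut at ho
    rw [closeS_true, sit_true] at ho
    obtain ⟨⟨o1, o2⟩, o3⟩ := ho
    have hE : ∀ e' : Edge, src e' = 0 ∨ tgt e' = 0 → e' ∈ ((s4 false).E0 : Set Edge) := by
      rintro ⟨x, y, d⟩ h
      simp only [s4, star0, Finset.coe_insert, Finset.coe_singleton, Set.mem_insert_iff,
        Set.mem_singleton_iff]
      cases d
      · simp only [src, tgt, Bool.false_eq_true, if_false, Prod.ext_iff, Prod.fst_zero,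
          Prod.snd_zero] at h
        rcases h with ⟨h1, h2⟩ | ⟨h1, h2⟩
        · left; rw [h1, h2]
        · right; right; left
          rw [h2, show x = -1 by omega]
      · simp only [src, tgt, if_true, Prod.ext_iff, Prod.fst_zero, Prod.snd_zero] at h
        rcases h with ⟨h1, h2⟩ | ⟨h1, h2⟩
        · right; left; rw [h1, h2]
        · right; right; right
          rw [h1, show y = -1 by omega]
    rcases he with ⟨h1, h2⟩ | ⟨h1, h2⟩
    · rw [← h1] at o1
      rw [← h2] at o2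
      exact ⟨(key a ha).1 o1, (key b hb).1 o2, fun h => o3 (hE e (Or.inl (h1 ▸ h))),
        fun h => o3 (hE e (Or.inr (h2 ▸ h)))⟩
    · rw [← h2] at o1
      rw [← h1] at o2
      exact ⟨(key a ha).1 o2, (key b hb).1 o1, fun h => o3 (hE e (Or.inr (h1 ▸ h))),
        fun h => o3 (hE e (Or.inl (h2 ▸ h)))⟩
  have hline : ∀ (x : ℤ), 1 ≤ x → x < r → ((s4 false).cut (sit ω)) (x, 0, false) = true := by
    intro x hx1 hx2
    unfold Src.cut
    rw [closeS_true, sit_true]
    refine ⟨⟨(key _ ?_).2 rfl, (key _ ?_).2 rfl⟩, ?_⟩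
    · simp only [src, mem_ball, Prod.fst_zero, Prod.snd_zero]; omega
    · simp only [tgt, mem_ball, Prod.fst_zero, Prod.snd_zero, Bool.false_eq_true, if_false]; omega
    · simp only [s4, star0, Finset.coe_insert, Finset.coe_singleton, Set.mem_insert_iff,
        Set.mem_singleton_iff, Prod.mk.injEq]
      omega
  have hline' : ∀ (x : ℤ), x < -1 → -(r : ℤ) ≤ x →
      ((s4 false).cut (sit ω)) (x, 0, false) = true := by
    intro x hx1 hx2
    unfold Src.cut
    rw [closeS_true, sit_true]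
    refine ⟨⟨(key _ ?_).2 rfl, (key _ ?_).2 rfl⟩, ?_⟩
    · simp only [src, mem_ball, Prod.fst_zero, Prod.snd_zero]; omega
    · simp only [tgt, mem_ball, Prod.fst_zero, Prod.snd_zero, Bool.false_eq_true, if_false]; omega
    · simp only [s4, star0, Finset.coe_insert, Finset.coe_singleton, Set.mem_insert_iff,
        Set.mem_singleton_iff, Prod.mk.injEq]
      omega
  refine ⟨⟨((r : ℤ), 0), ?_, ?_⟩, ⟨(-(r : ℤ), 0), ?_, ?_⟩, ?_⟩
  · refine ⟨?_, Or.inr (Or.inl (by simp))⟩
    simp only [mem_ball, Prod.fst_zero, Prod.snd_zero]; omega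
  · have : ∀ n : ℕ, (n : ℤ) + 1 ≤ r →
        Conn ((s4 false).cut (sit ω)) (ball 0 r) (1, 0) ((n : ℤ) + 1, 0) := by
      intro n
      induction n with
      | zero =>
        intro _
        have : (1, 0) ∈ ball (0 : Vert) r := (s4_mem false hr).1
        simpa using Conn.refl this
      | succ n ih =>
        intro hn
        have h1 := ih (by push_cast at hn; omega)
        refine h1.tail ⟨h1.mem_right, ?_, ((n : ℤ) + 1, 0, false), Or.inl ⟨rfl, ?_⟩,
          hline _ (by omega) (by push_cast at hn; omega)⟩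
        · simp only [mem_ball, Prod.fst_zero, Prod.snd_zero]; push_cast at hn ⊢; omega
        · simp only [tgt, Bool.false_eq_true, if_false]
          push_cast
          rfl
    have h2 := this (r - 1) (by omega)
    rw [show (((r - 1 : ℕ) : ℤ) + 1) = r by omega] at h2
    exact h2
  · refine ⟨?_, Or.inl (by simp)⟩
    simp only [mem_ball, Prod.fst_zero, Prod.snd_zero]; omega
  · have : ∀ n : ℕ, (n : ℤ) + 1 ≤ r →
        Conn ((s4 false).cut (sit ω)) (ball 0 r) (-1, 0) (-((n : ℤ) + 1), 0) := by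
      intro n
      induction n with
      | zero =>
        intro _
        have : (-1, 0) ∈ ball (0 : Vert) r := (s4_mem false hr).2
        simpa using Conn.refl this
      | succ n ih =>
        intro hn
        have h1 := ih (by push_cast at hn; omega)
        refine h1.tail ⟨h1.mem_right, ?_, (-((n : ℤ) + 1) - 1, 0, false), Or.inr ⟨?_, ?_⟩,
          hline' _ (by omega) (by push_cast at hn; omega)⟩
        · simp only [mem_ball, Prod.fst_zero, Prod.snd_zero]; push_cast at hn ⊢; omega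
        · simp only [tgt, Bool.false_eq_true, if_false]
          ext <;> simp
        · simp only [src]
          ext
          · push_cast; ring
          · rfl
    have h2 := this (r - 1) (by omega)
    rw [show (((r - 1 : ℕ) : ℤ) + 1) = r by omega] at h2
    exact h2
  · intro hc
    have hx : ∀ v : Vert, Conn ((s4 false).cut (sit ω)) (ball 0 r) (s4 false).x v → 1 ≤ v.1 := by
      intro v hv
      refine hv.induction_right (P := fun v => 1 ≤ v.1) ?_ ?_
      · simp [s4]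
      · intro a b _ hab ha
        obtain ⟨h1, h2, h3, h4⟩ := hstep a b hab
        have h5 := hab.fst_le
        by_contra h6
        apply h4
        ext
        · simp only [Prod.fst_zero]; omega
        · simpa using h2
    have := hx _ hc
    simp [s4] at this

/-- The four-arm probability at bounded scales is bounded below. -/
theorem a4_low (c : ℝ) (hc : 0 < c) (r : ℕ) (hr : 1 ≤ r) : ∃ c₀ : ℝ, 0 < c₀ ∧
    ∀ (n : ℕ) (q : I), 1 ≤ n → RSWreg c n q → c₀ ≤ a4 q r := by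
  refine ⟨(c / 16) ^ (eRect (-r) r (-r) r).card, by positivity, ?_⟩
  intro n q hn h
  obtain ⟨h1, h2⟩ := rswreg_density hn h
  have h3 := a4Low_cyl q (by positivity) h1 h2 axis (eRect (-r) r (-r) r)
  have h4 : Pool.Agent.H89.Perc.Pr q {ω | ∀ e ∈ eRect (-r) r (-r) r, ω e = axis e} ≤
      Pr q (Four (s4 false) r) := Pool.Agent.H89.Perc.Pr_mono fun ω hω => axis_sub r hr hω
  have h5 : 0 ≤ Pr q (Four (s4 true) r) := Pr_nonneg
  unfold a4
  linarith

end Pool.Agent.H83.SK

end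

section

/-!
# Seals for site percolation
-/

set_option autoImplicit false

open MeasureTheory ProbabilityTheory unitInterval

namespace Pool.Agent.H38.N59

open Pool.Agent.H89.Perc
open Pool.Agent.H83.SK (sv sit sit_true RSWreg)
open Pool.Agent.H59.EX (LocS inE touch clus closeS Side T Mouth Fence dom pb grid)

theorem ball_of_joins {e : Edge} {a b : Vert} (hj : Joins e a b) : a ∈ ball b 1 :=
  Pool.Agent.H59.EX.ball_of_joins hj

/-- **Seal lemma.**  `η` is a configuration which is below `w` off `t`; open steps of `η` leave `S`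
only at the vertices of `Ex`, to a site which is neither in `F` nor in `t`, and enter `F` from
elsewhere only far from `Ex`; open sites off `S ∪ F` are not in `t`.  If `w` is sealed near `Ex`,
then the cluster of `S` stays near `S` and off `F`. -/
theorem seal_confine {η w : Config} {W S F Ex : Set Vert} {t : Set Edge} {G : Finset Vert}
    {ρ : ℕ} (hηw : ∀ a : Vert, sv a ∉ t → η (sv a) = true → w (sv a) = true)
    (hseal : w ∈ Seal G ρ t)
    (hG : ∀ a ∈ Ex, ∀ b, b ∈ ball a 1 → ∃ g ∈ G, b ∈ ball g ρ)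
    (h1 : ∀ a b e, Joins e a b → η (sv a) = true → η (sv b) = true → a ∈ W → b ∈ W → a ∈ S →
      b ∉ S → a ∈ Ex ∧ b ∉ F ∧ sv b ∉ t)
    (h2 : ∀ a b e, Joins e a b → η (sv a) = true → η (sv b) = true → a ∈ W → b ∈ W → a ∉ S →
      a ∉ F → b ∈ F → ∀ x ∈ Ex, b ∉ ball x (4 * ρ + 2))
    (h3 : ∀ a b e, Joins e a b → η (sv a) = true → η (sv b) = true → a ∈ W → b ∈ W → a ∉ S →
      a ∉ F → b ∉ S → b ∉ F → sv b ∉ t)
    {x z : Vert} (hx : x ∈ S) (h : Conn (sit η) W x z) :
    z ∈ S ∨ (z ∉ F ∧ ∃ a ∈ Ex, z ∈ ball a (4 * ρ + 1)) := by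
  have key : z ∈ S ∨ (z ∉ S ∧ z ∉ F ∧ closeS t w (sv z) = true ∧ ∃ a ∈ Ex, ∃ b, b ∈ ball a 1 ∧
      Conn (sit (closeS t w)) Set.univ b z) := by
    refine h.induction_right
      (P := fun z => z ∈ S ∨ (z ∉ S ∧ z ∉ F ∧ closeS t w (sv z) = true ∧ ∃ a ∈ Ex, ∃ b,
        b ∈ ball a 1 ∧ Conn (sit (closeS t w)) Set.univ b z)) (Or.inl hx) ?_
    rintro a b _ ⟨haW, hbW, e, hj, ho⟩ ih
    obtain ⟨hoa, hob⟩ := (sit_joins hj).1 ho
    have hopen : sv b ∉ t → closeS t w (sv b) = true := fun hbt =>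
      closeS_true.2 ⟨hηw b hbt hob, hbt⟩
    by_cases hbS : b ∈ S
    · exact Or.inl hbS
    rcases ih with haS | ⟨haS, haF, hca, c, hc, c', hc', hcc⟩
    · obtain ⟨k1, k2, k3⟩ := h1 a b e hj hoa hob haW hbW haS hbS
      exact Or.inr ⟨hbS, k2, hopen k3, a, k1, b, ball_of_joins hj.symm, Conn.refl trivial⟩
    · by_cases hbF : b ∈ F
      · exfalso
        obtain ⟨g, hg, hcg⟩ := hG c hc c' hc'
        have ha : a ∈ ball g (3 * ρ) := by
          by_contra ha
          exact hseal g hg c' hcg a ha hcc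
        refine h2 a b e hj hoa hob haW hbW haS haF hbF c hc ?_
        have hab := ball_of_joins hj.symm
        rw [mem_ball] at ha hcg hc' hab ⊢
        push_cast at ha hc' hab ⊢
        omega
      · have k := hopen (h3 a b e hj hoa hob haW hbW haS haF hbS hbF)
        exact Or.inr ⟨hbS, hbF, k, c, hc, c', hc', hcc.tail ⟨trivial, trivial, e, hj,
          (sit_joins hj).2 ⟨hca, k⟩⟩⟩
  rcases key with h | ⟨-, hF, -, a, ha, b, hb, hbc⟩
  · exact Or.inl h
  · refine Or.inr ⟨hF, a, ha, ?_⟩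
    obtain ⟨g, hg, hag⟩ := hG a ha b hb
    have hz : z ∈ ball g (3 * ρ) := by
      by_contra hz
      exact hseal g hg b hag z hz hbc
    rw [mem_ball] at hz hag hb ⊢
    push_cast at hz hb ⊢
    omega

theorem seal_anti {G : Finset Vert} {ρ : ℕ} {t : Set Edge} {w w' : Config}
    (h : w' ∈ Seal G ρ t) (hω : ∀ e, e ∉ t → w e = true → w' e = true) : w ∈ Seal G ρ t := by
  intro g hg u hu v hv hc
  refine h g hg u hu v hv (conn_mono le_rfl ?_ hc)
  intro e he
  rw [closeS_true] at he ⊢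
  exact ⟨hω e he.2 he.1, he.2⟩

theorem locS_seal (G : Finset Vert) (ρ : ℕ) (t : Set Edge) : LocS tᶜ (Seal G ρ t) := by
  intro ω ω' h hω
  refine seal_anti hω fun e he ho => ?_
  rw [h e he]
  exact ho

theorem seal_decr (G : Finset Vert) (ρ : ℕ) (t : Set Edge) : Incr (Seal G ρ t)ᶜ := by
  intro ω ω' h hω hω'
  exact hω (seal_anti hω' fun e _ he => h e he)

/-- Sites of `ball g r` (as a finite set). -/
noncomputable def bF (g : Vert) (r : ℕ) : Finset Edge := by
  classical exact (eRect (g.1 - r) (g.1 + r) (g.2 - r) (g.2 + r)).filter (fun e => e.2.2 = false)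

theorem mem_bF {g : Vert} {r : ℕ} {e : Edge} : e ∈ bF g r ↔ e ∈ vE (ball g r) := by
  classical
  simp only [bF, Finset.mem_filter, mem_eRect]
  exact and_comm

private theorem localOn_arm' (g : Vert) (k r : ℕ) :
    LocalOn (bF g r) {w | sit w ∈ (ArmBox g k r)ᶜ} := by
  intro w w' h hw hw'
  refine hw ?_
  obtain ⟨p, hp, u, hu, hc⟩ := hw'
  exact ⟨p, hp, u, hu, conn_congr (fun e he => (h e (mem_bF.2 he)).symm) hc⟩

/-- `Seal` is a local event. -/
theorem localOn_seal (G : Finset Vert) (ρ : ℕ) : ∃ Λ : Finset Edge, ∀ t : Set Edge,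
    LocalOn Λ (Seal G ρ t) := by
  classical
  refine ⟨G.biUnion fun g => bF g (3 * ρ + 1), fun t ω ω' h hω g hg u hu v hv hc => ?_⟩
  have hu' : u ∈ ball g (3 * ρ) := by
    rw [mem_ball] at hu ⊢
    push_cast
    omega
  obtain ⟨w, w', h1, h2, h3, -⟩ := hc.exists_exit hu' hv
  have hw : w ∈ ball g (3 * ρ) := h1.mem_right.2
  have hw1 : w ∈ ball g (3 * ρ + 1) := by
    rw [mem_ball] at hw ⊢
    push_cast at hw ⊢
    omega
  have hw' : w' ∈ ball g (3 * ρ + 1) := by
    have k1 := h2.fst_le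
    have k2 := h2.snd_le
    rw [mem_ball] at hw ⊢
    push_cast at hw ⊢
    omega
  have hsub : Set.univ ∩ ball g (3 * ρ) ⊆ ball g (3 * ρ + 1) := by
    rintro z ⟨-, hz⟩
    rw [mem_ball] at hz ⊢
    push_cast at hz ⊢
    omega
  have hc2 : Conn (sit (closeS t ω')) (ball g (3 * ρ + 1)) u w' :=
    (h1.mono_set hsub).tail ⟨hw1, hw', h2.2.2⟩
  have hc3 : Conn (sit (closeS t ω)) (ball g (3 * ρ + 1)) u w' := by
    refine conn_congr (fun e he => ?_) hc2
    have := h e (Finset.mem_biUnion.2 ⟨g, hg, mem_bF.2 he⟩)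
    simp only [closeS, this]
  exact hω g hg u hu w' h3 (hc3.mono_set (Set.subset_univ _))

/-- The intersection of the no-arm events is contained in the seal. -/
private theorem noarm_subset_seal (G : Finset Vert) (ρ : ℕ) (t : Set Edge) {w : Config}
    (h : ∀ g ∈ G, sit w ∈ (ArmBox g ρ (3 * ρ))ᶜ) : w ∈ Seal G ρ t := by
  intro g hg u hu v hv hc
  have hu' : u ∈ ball g (3 * ρ) := by
    rw [mem_ball] at hu ⊢
    push_cast
    omega
  have hc' : Conn (sit w) Set.univ u v := conn_mono le_rfl (fun e he => (closeS_true.1 he).1) hc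
  obtain ⟨x, hx, hcx⟩ := hc'.to_sphere (v := g) (r := 3 * ρ) hu' (Or.inl hv)
  exact h g hg ⟨u, hu, x, hx, hcx.mono_set Set.inter_subset_right⟩

/-- The same for a pulled back configuration, if `π` is injective on the sites of every
`ball g (3 ρ)`. -/
theorem seal_lower_pb (c : ℝ) (hc : 0 < c) (K M : ℕ) : ∃ c' : ℝ, 0 < c' ∧ ∀ (n ρ : ℕ) (q : I)
    (G : Finset Vert) (t : Set Edge) (π : Edge → Edge), 1 ≤ n → RSWreg c n q → 1 ≤ ρ →
      ρ ≤ K * n → G.card ≤ M → (∀ g ∈ G, Set.InjOn π (vE (ball g (3 * ρ)))) →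
      c' ≤ Pr q {ω | pb π ω ∈ Seal G ρ t} := by
  classical
  obtain ⟨c₀, hc₀, h0⟩ := Pool.Agent.H83.SK.noarm_lower c hc K
  refine ⟨(min c₀ 1) ^ M, pow_pos (lt_min hc₀ one_pos) _, ?_⟩
  intro n ρ q G t π hn hr hρ hρK hG hinj
  have hm0 : 0 ≤ min c₀ 1 := (lt_min hc₀ one_pos).le
  have h1 : (min c₀ 1) ^ M ≤ (min c₀ 1) ^ G.card :=
    pow_le_pow_of_le_one hm0 (min_le_right _ _) hG
  have hloc : ∀ g ∈ G, LocalOn ((bF g (3 * ρ)).image π)
      {ω | sit (pb π ω) ∈ (ArmBox g ρ (3 * ρ))ᶜ} := by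
    intro g _ ω ω' h hω
    exact localOn_arm' g ρ (3 * ρ) _ _
      (fun e he => h _ (Finset.mem_image_of_mem π he)) hω
  have hincr : ∀ g ∈ G, Incr ({ω | sit (pb π ω) ∈ (ArmBox g ρ (3 * ρ))ᶜ} : Set Config)ᶜ := by
    intro g _ ω ω' h hω hω'
    have h2 : sit (pb π ω) ∈ ArmBox g ρ (3 * ρ) := by
      by_contra hcon
      exact hω hcon
    exact hω' (incr_armBox g ρ (3 * ρ) _ _ (sit_mono fun e he => h _ he) h2)
  have hP : ∀ g ∈ G, min c₀ 1 ≤ Pr q {ω | sit (pb π ω) ∈ (ArmBox g ρ (3 * ρ))ᶜ} := by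
    intro g hg
    have h2 : Pr q {ω | (fun e => ω (π e)) ∈ {w | sit w ∈ (ArmBox g ρ (3 * ρ))ᶜ}} =
        Pr q {w | sit w ∈ (ArmBox g ρ (3 * ρ))ᶜ} := by
      refine Pr_comp (localOn_arm' g ρ (3 * ρ)) ?_
      intro a ha b hb hab
      exact hinj g hg (mem_bF.1 (Finset.mem_coe.1 ha)) (mem_bF.1 (Finset.mem_coe.1 hb)) hab
    have h3 := h0 n q hn hr g ρ hρ hρK
    refine (min_le_left _ _).trans (h3.trans (le_of_eq ?_))
    exact h2.symm
  have h4 : (min c₀ 1) ^ G.card ≤
      Pr q (⋂ g ∈ G, {ω | sit (pb π ω) ∈ (ArmBox g ρ (3 * ρ))ᶜ}) :=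
    Pool.Agent.H29.Sep.fkg_decr_many (p := q) G
      (fun g => {ω | sit (pb π ω) ∈ (ArmBox g ρ (3 * ρ))ᶜ}) (fun g => (bF g (3 * ρ)).image π)
      hm0 hloc hincr hP
  refine (h1.trans h4).trans (Pr_mono ?_)
  intro ω hω
  simp only [Set.mem_iInter] at hω
  exact noarm_subset_seal G ρ t fun g hg => hω g hg

theorem seal_lower (c : ℝ) (hc : 0 < c) (K M : ℕ) : ∃ c' : ℝ, 0 < c' ∧ ∀ (n ρ : ℕ) (q : I)
    (G : Finset Vert) (t : Set Edge), 1 ≤ n → RSWreg c n q → 1 ≤ ρ → ρ ≤ K * n → G.card ≤ M →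
      c' ≤ Pr q (Seal G ρ t) := by
  obtain ⟨c', hc', h⟩ := seal_lower_pb c hc K M
  refine ⟨c', hc', fun n ρ q G t hn hr hρ hρK hG => ?_⟩
  exact h n ρ q G t id hn hr hρ hρK hG fun g _ => Set.injOn_id _

end Pool.Agent.H38.N59

end

section

/-!
# Outward separation for sites: stage 4
-/

set_option autoImplicit false

open MeasureTheory ProbabilityTheory unitInterval

namespace Pool.Agent.H38.N59

open Pool.Agent.H89.Perc
open Pool.Agent.H61.NC hiding RSWreg
open Pool.Agent.H83.SK (sv sit sit_true RSWreg)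
open Pool.Agent.H59.EX (LocS inE touch clus closeS Side T Mouth Fence dom CorrData CorrSep clus_sub clus_step clus_conn mem_clus mem_clus_single conn_in_clus fence_trans fence_mono corr_inter corr_sub160 mem_sphere_of_joins markov_indep grid exists_grid card_grid)

variable {s : Src} {w ρ ρ' : ℕ} {v v' : Vert} {d d' : Side} {Z Zy : Set Vert} {Nev Ny : Set Config}
  {q : I}

/-- The cluster of `y` in `ball 0 (8 w) ∪ Zy` off the set `H`, with `Zy` filled. -/
private noncomputable def st4_RR (s : Src) (w : ℕ) (Zy : Set Vert) (H : Set Vert) (ω : Config) :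
    Set Vert :=
  clus (sit (fillS Zy (s.cut ω))) ((ball 0 (8 * w) ∪ Zy) \ H) {s.y}

/-- The pair of clusters. -/
private noncomputable def st4_X (s : Src) (w : ℕ) (Z Zy : Set Vert) (ω : Config) :
    Set Vert × Set Vert :=
  (SH s w Z ω, st4_RR s w Zy (SH s w Z ω) ω)

/-- The determined sites. -/
private def st4_t (w : ℕ) (Zy : Set Vert) (i : Set Vert × Set Vert) : Set Edge :=
  (rv (ball 0 (160 * w)) i.1 ∪ vE i.1) ∪ (rv ((ball 0 (8 * w) ∪ Zy) \ i.1) i.2 ∪ vE i.2)

/-- The landing of `y` gives `Zy ⊆ R`. -/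
private theorem st4_Zy_sub (hKy : CorrData w ρ' v' d' Zy Ny) {H : Set Vert} {ω : Config}
    (hd : Disjoint Zy H)
    (h : ∃ u ∈ sphere 0 (8 * w), u ∈ ball v' ρ' ∧
      Conn (sit (s.cut ω)) (ball 0 (8 * w) \ H) s.y u) :
    Zy ⊆ st4_RR s w Zy H ω := by
  obtain ⟨u, _, hu, hc⟩ := h
  have huZ : u ∈ Zy := hKy.ball_sub (ball_mono' (by omega) hu)
  have hsub : Zy ⊆ (ball 0 (8 * w) ∪ Zy) \ H := fun a ha =>
    ⟨Or.inr ha, fun h => Set.disjoint_left.1 hd ha h⟩
  have huR : u ∈ st4_RR s w Zy H ω :=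
    ⟨s.y, rfl, conn_mono (fun a ha => ⟨Or.inl ha.1, ha.2⟩) (fun e he => le_fillS he) hc⟩
  intro b hb
  exact clus_conn huR (conn_fillS hsub (hKy.conn u huZ b hb))

/-- The pair of clusters depends only on the determined sites. -/
private theorem st4_X_congr {i : Set Vert × Set Vert}
    {ω ω' : Config} (h : ∀ e ∈ st4_t w Zy i, ω e = ω' e) (hω : st4_X s w Z Zy ω = i) :
    st4_X s w Z Zy ω' = i := by
  have h1 : SH s w Z ω' = i.1 :=
    clus_fill_congr (fun g hg _ => h g (Or.inl (Or.inl hg))) (congrArg Prod.fst hω)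
  have h0 : SH s w Z ω = i.1 := congrArg Prod.fst hω
  have h2 : st4_RR s w Zy i.1 ω = i.2 := by
    have := congrArg Prod.snd hω
    rw [← h0]
    exact this
  have h3 : st4_RR s w Zy i.1 ω' = i.2 :=
    clus_fill_congr (fun g hg _ => h g (Or.inr (Or.inl hg))) h2
  refine Prod.ext h1 ?_
  change st4_RR s w Zy (SH s w Z ω') ω' = i.2
  rw [h1]
  exact h3

/-- The event depends only on the determined sites. -/
private theorem st4_A_congr (hK : CorrData w ρ v d Z Nev) (hKy : CorrData w ρ' v' d' Zy Ny)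
    (hS : CorrSep w ρ' v' Z Zy) (hρ' : 1 ≤ ρ') {ω ω' : Config}
    (h : ∀ e ∈ st4_t w Zy (st4_X s w Z Zy ω), ω e = ω' e)
    (hω : ω ∈ Ev3 s w ρ' v' d Z ∩ {ω | sit ω ∈ Ny}) :
    st4_X s w Z Zy ω' = st4_X s w Z Zy ω ∧ ω' ∈ Ev3 s w ρ' v' d Z ∩ {ω | sit ω ∈ Ny} := by
  obtain ⟨⟨hC, hL, hdis⟩, hN⟩ := hω
  have hZ : Z ⊆ SH s w Z ω := Z_sub_SH_of_conf hK hC
  have hdZ : Disjoint Zy (SH s w Z ω) := Zy_disj_SH hKy hS hρ' hC hdis
  have hZy : Zy ⊆ st4_RR s w Zy (SH s w Z ω) ω := st4_Zy_sub hKy hdZ hL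
  have hX := st4_X_congr (s := s) (w := w) (Z := Z) (i := st4_X s w Z Zy ω) h rfl
  refine ⟨hX, ?_⟩
  have h1 : SH s w Z ω' = SH s w Z ω := congrArg Prod.fst hX
  obtain ⟨hy, hF, hconf⟩ := hC
  obtain ⟨u, hu, huv, hyu⟩ := hL
  refine ⟨⟨⟨?_, ?_, ?_⟩, ⟨u, hu, huv, ?_⟩, ?_⟩, ?_⟩
  · rw [h1]
    exact hy
  · rw [h1]
    refine fence_congr (fun g hg => ?_) (fun g hg => ?_) hF
    · exact cut_congr (h g (Or.inl (Or.inr (vE_mono (hK.T_sub.trans hZ) hg))))
    · exact cut_congr (h g (Or.inl (Or.inr (vE_mono Set.inter_subset_left hg))))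
  · rw [h1]
    exact hconf
  · rw [h1]
    refine conn_of_sub (S := st4_RR s w Zy (SH s w Z ω) ω) (fun a ha => ?_)
      (fun g hg => h g (Or.inr (Or.inr hg))) hyu
    exact ⟨s.y, rfl, conn_mono (fun a ha => ⟨Or.inl ha.1, ha.2⟩) (fun e he => le_fillS he) ha⟩
  · rw [h1]
    exact hdis
  · exact locS_sit_inE hKy.loc ω ω' (fun g hg => h g (Or.inr (Or.inr (vE_mono hZy hg)))) hN

private theorem st4_dom_sub (hK : CorrData w ρ v d Z Nev) (hKy : CorrData w ρ' v' d' Zy Ny) :
    dom d d' (4 * w) ⊆ ball 0 (160 * w) := by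
  rintro a (h | h | h)
  · exact ball_mono' (by omega) h
  · exact corr_sub160 hK (hK.T_sub h)
  · exact corr_sub160 hKy (hKy.T_sub h)

private theorem st4_corr_dom_left (hK : CorrData w ρ v d Z Nev) :
    ball 0 (8 * w) ∪ Z ⊆ dom d d' (4 * w) := by
  have hb : ball (0 : Vert) (128 * w) ⊆ dom d d' (4 * w) := fun a ha =>
    Or.inl (ball_mono' (by omega) ha)
  rintro a (h | h)
  · exact hb (ball_mono' (by omega) h)
  · rcases hK.sub h with h | h
    · exact hb h
    · exact Or.inr (Or.inl h)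

private theorem st4_corr_dom_right (hKy : CorrData w ρ' v' d' Zy Ny) :
    ball 0 (8 * w) ∪ Zy ⊆ dom d d' (4 * w) := by
  have hb : ball (0 : Vert) (128 * w) ⊆ dom d d' (4 * w) := fun a ha =>
    Or.inl (ball_mono' (by omega) ha)
  rintro a (h | h)
  · exact hb (ball_mono' (by omega) h)
  · rcases hKy.sub h with h | h
    · exact hb h
    · exact Or.inr (Or.inr h)

/-- Deterministic part of stage 4. -/
private theorem st4_det (hK : CorrData w ρ v d Z Nev) (hKy : CorrData w ρ' v' d' Zy Ny)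
    (hS : CorrSep w ρ' v' Z Zy) (hρ' : 4 ≤ ρ') (hρ : 64 * ρ' ≤ ρ)
    (hw : 64 * ρ ≤ w) {K : ℕ} (hwK : w ≤ K * ρ') (hv' : v' ∈ sphere 0 (8 * w)) {ω : Config}
    (h3 : ω ∈ Ev3 s w ρ' v' d Z) (hN : sit ω ∈ Ny)
    (hs : ω ∈ Seal (grid (ρ' - 1) (320 * K)) (ρ' - 1) (st4_t w Zy (st4_X s w Z Zy ω))) :
    ω ∈ Sep s d d' (4 * w) := by
  have hρ'1 : 1 ≤ ρ' := by omega
  have hw1 : 1 ≤ w := by omega
  have hw' : 64 * ρ' ≤ w := by omega
  obtain ⟨hC, hL, hdis⟩ := h3
  have hZ : Z ⊆ SH s w Z ω := Z_sub_SH_of_conf hK hC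
  have hdZ : Disjoint Zy (SH s w Z ω) := Zy_disj_SH hKy hS hρ'1 hC hdis
  have hZy : Zy ⊆ st4_RR s w Zy (SH s w Z ω) ω := st4_Zy_sub hKy hdZ hL
  have hfarH : ∀ {z z' : Vert}, z ∈ Zy → z' ∈ ball z 1 → z' ∉ SH s w Z ω := fun hz hz' =>
    conf_far hKy hS hρ'1 hC.2.2 hdis hz hz'
  obtain ⟨hy, hF, hconf⟩ := hC
  obtain ⟨u, hu, huv, hyu⟩ := hL
  -- the points of the source are open
  have hxo : s.cut ω (sv s.x) = true := open_of_fence (by omega) s.hx hF
  have hyo : s.cut ω (sv s.y) = true := open_of_conn hyu (src_ne s.hy hw1 hu)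
  set H : Set Vert := SH s w Z ω with hH
  set R : Set Vert := st4_RR s w Zy H ω with hR
  have hHo : ∀ a ∈ H, fillS Z (s.cut ω) (sv a) = true := fun a ha =>
    open_of_clus (le_fillS hxo) ha
  have hRo : ∀ a ∈ R, fillS Zy (s.cut ω) (sv a) = true := fun a ha =>
    open_of_clus (le_fillS hyo) ha
  have hRsub : ∀ a ∈ R, a ∈ ball 0 (8 * w) ∪ Zy ∧ a ∉ H := fun a ha => clus_sub ha
  have hHsub : H ⊆ ball 0 (160 * w) := clus_sub
  have hZyH : ∀ a ∈ Zy, a ∉ H := fun a ha h => Set.disjoint_left.1 hdZ ha h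
  have hDW : ball (0 : Vert) (8 * w) ∪ Zy ⊆ ball 0 (160 * w) :=
    (st4_corr_dom_right (d := d) hKy).trans (st4_dom_sub hK hKy)
  have hor : ∀ {a : Vert}, fillS (Z ∪ Zy) (s.cut ω) (sv a) = true →
      s.cut ω (sv a) = true ∨ a ∈ Z ∨ a ∈ Zy := fun h => fill_sv.1 h
  -- `H` is closed
  have hclosed : ∀ {e : Edge} {a b : Vert}, Joins e a b →
      fillS (Z ∪ Zy) (s.cut ω) (sv b) = true → b ∈ ball 0 (160 * w) → a ∈ H → b ∈ H := by
    intro e a b hj hob hb haH
    refine clus_adj haH (hHo a haH) ?_ hj hb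
    rcases hor hob with h | h | h
    · exact le_fillS h
    · exact fill_sv.2 (Or.inr h)
    · exact absurd haH (hfarH h (Pool.Agent.H59.EX.ball_of_joins hj))
  have hxH : s.x ∈ H := ⟨s.x, rfl, Conn.refl (ball_mono' (by omega) (src_mem s.hx hw1))⟩
  have hconnH : ∀ z, Conn (sit (fillS (Z ∪ Zy) (s.cut ω))) (ball 0 (160 * w)) s.x z → z ∈ H := by
    intro z hz
    refine hz.induction_right (P := fun z => z ∈ H) hxH ?_
    rintro a b _ ⟨_, hb, e, hj, ho⟩ ih
    exact hclosed hj ((sit_joins hj).1 ho).2 hb ih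
  -- from the separated event to `W`
  have hTT : T d (4 * w) ∪ T d' (4 * w) ⊆ Z ∪ Zy := by
    rintro a (h | h)
    · exact Or.inl (hK.T_sub h)
    · exact Or.inr (hKy.T_sub h)
  have hlift : ∀ {a b : Vert},
      Conn (sit (s.ful d d' (4 * w) ω)) (dom d d' (4 * w)) a b →
      Conn (sit (fillS (Z ∪ Zy) (s.cut ω))) (ball 0 (160 * w)) a b := by
    intro a b h
    exact conn_mono (st4_dom_sub hK hKy) (fun e he => fillS_mono hTT he) h
  have hyR : s.y ∈ R := ⟨s.y, rfl, Conn.refl ⟨Or.inl (src_mem s.hy hw1), hy⟩⟩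
  -- open sites of `D ∪ Zy` off `H` which are adjacent to `R` belong to `R`
  have hstepR : ∀ {e : Edge} {a b : Vert}, Joins e a b →
      fillS (Z ∪ Zy) (s.cut ω) (sv b) = true → b ∈ ball 0 (8 * w) ∪ Zy → b ∉ H → a ∈ R →
      b ∈ R := by
    intro e a b hj hob hb hbH haR
    refine clus_adj haR (hRo a haR) ?_ hj ⟨hb, hbH⟩
    rcases hor hob with h | h | h
    · exact le_fillS h
    · exact absurd (hZ h) hbH
    · exact fill_sv.2 (Or.inr h)
  -- open sites off the clusters are not determined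
  have free : ∀ b, fillS (Z ∪ Zy) (s.cut ω) (sv b) = true → b ∉ R → b ∉ H →
      sv b ∉ st4_t w Zy (st4_X s w Z Zy ω) := by
    intro b hob hb1 hb2 h
    rcases h with (h | h) | (h | h)
    · obtain ⟨a, e, hj, haD, hbD, h1⟩ := of_mem_rv h
      rcases h1 with h1 | h1
      · exact hb2 (hclosed hj hob hbD h1)
      · exact hb2 h1
    · exact hb2 (sv_mem_vE.1 h)
    · obtain ⟨a, e, hj, haD, hbD, h1⟩ := of_mem_rv h
      rcases h1 with h1 | h1
      · exact hb1 (hstepR hj hob hbD.1 hbD.2 h1)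
      · exact hb1 h1
    · exact hb1 (sv_mem_vE.1 h)
  set Ex : Set Vert := {a | a ∈ R ∧ ∃ b e, Joins e a b ∧ b ∉ ball 0 (8 * w) ∪ Zy} with hEx
  have conf : ∀ z, Conn (sit (fillS (Z ∪ Zy) (s.cut ω))) (ball 0 (160 * w)) s.y z →
      z ∈ R ∨ (z ∉ H ∧ ∃ a ∈ Ex, z ∈ ball a (4 * (ρ' - 1) + 1)) := by
    intro z hz
    refine seal_confine (w := ω) (F := H) (t := st4_t w Zy (st4_X s w Z Zy ω))
      (G := grid (ρ' - 1) (320 * K)) ?_ hs ?_ ?_ ?_ ?_ hyR hz
    · intro a ha ho
      rcases hor ho with h | h | h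
      · exact cut_le h
      · exact absurd (Or.inl (Or.inr (sv_mem_vE.2 (hZ h)))) ha
      · exact absurd (Or.inr (Or.inr (sv_mem_vE.2 (hZy h)))) ha
    · rintro a ⟨ha, -⟩ b hb
      refine exists_grid (by omega) ?_
      have h1 := hDW (hRsub a ha).1
      have hK1 : 1 ≤ K := by
        rcases Nat.eq_zero_or_pos K with h | h
        · subst h
          omega
        · exact h
      have h2 : (160 * w + 1 : ℕ) ≤ 320 * K * (ρ' - 1) := by
        obtain ⟨r, rfl⟩ : ∃ r, ρ' = r + 1 := ⟨ρ' - 1, by omega⟩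
        have h4 : 3 ≤ r := by omega
        have h5 : w ≤ K * (r + 1) := hwK
        have h6 : 3 ≤ K * r := by nlinarith
        rw [Nat.add_sub_cancel]
        have h7 : K * (r + 1) = K * r + K := by ring
        have h8 : 3 * K ≤ K * r := by nlinarith
        have h9 : 320 * K * r = 320 * (K * r) := by ring
        rw [h9]
        omega
      have h3 : ((160 * w + 1 : ℕ) : ℤ) ≤ ((320 * K * (ρ' - 1) : ℕ) : ℤ) := by exact_mod_cast h2
      simp only [mem_ball, Prod.fst_zero, Prod.snd_zero] at h1 hb ⊢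
      push_cast at h1 hb h3
      omega
    · intro a b e hj hoa hob haW hbW ha hb
      have hbH : b ∉ H := fun h => (hRsub a ha).2 (hclosed hj.symm hoa haW h)
      have hb' : b ∉ ball 0 (8 * w) ∪ Zy := fun h => hb (hstepR hj hob h hbH ha)
      exact ⟨⟨ha, b, e, hj, hb'⟩, hbH, free b hob hb hbH⟩
    · intro a b e hj hoa _ haW _ _ ha2 hb
      exact absurd (hclosed hj.symm hoa haW hb) ha2
    · intro a b e hj _ hob _ _ _ _ hb1 hb2
      exact free b hob hb1 hb2
  have h128 : ∀ {z : Vert}, z ∈ sphere 0 (32 * (4 * w)) → z ∈ sphere 0 (128 * w) := by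
    intro z hz
    have e : 32 * (4 * w) = 128 * w := by ring
    rwa [e] at hz
  have hnear : ∀ {z a : Vert}, z ∈ sphere 0 (128 * w) → z ∈ ball a (4 * ρ') →
      a ∉ ball 0 (8 * w) := by
    intro z a hz hza ha
    have hz2 := hz.2
    simp only [mem_ball, Prod.fst_zero, Prod.snd_zero] at hza ha hz2
    push_cast at hza ha hz2
    omega
  have hball : ∀ {z a : Vert}, z ∈ ball a (4 * ρ') → z ∈ ball a w := fun h =>
    ball_mono' (by omega) h
  have hself : ∀ {z : Vert} {r : ℕ}, z ∈ ball z r := self_mem_ball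
  refine ⟨?_, ?_, ?_, ?_, ?_⟩
  · exact fence_mono (fun a ha => st4_corr_dom_left hK ha.2) (fun _ h => h) hF
  · -- the fence of `y`
    obtain ⟨z, hz, hf⟩ := hKy.hook (sit ω) hN (sit (s.cut ω)) (ball 0 (8 * w) \ H) u s.y hyu.symm
      huv (src_far s.hy hρ'1 hw' hv')
    have hcut : ∀ g ∈ vE Zy, ω g = s.cut ω g := fun g hg =>
      (corr_cut hKy hρ'1 hw' hv' hg).symm
    have hf' : Fence d' (4 * w) (sit (s.cut ω)) Zy z :=
      fence_congr (fun g hg => hcut g (vE_mono hKy.T_sub hg)) hcut hf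
    have hsub := st4_corr_dom_right (d := d) hKy
    have hyz : Conn (sit (s.cut ω)) (dom d d' (4 * w)) s.y z :=
      (hyu.trans hz).mono_set fun a ha => hsub (Or.inl ha.1)
    exact fence_trans hyz (fence_mono (fun a ha => hsub (Or.inr ha)) (fun _ h => h) hf')
  · intro h
    exact hy (hconnH _ (hlift h))
  · intro z hz h
    have hz' := h128 hz
    rcases hconf z (hconnH z (hlift h)) with h1 | ⟨a, ha, h1⟩ | ⟨a, _, ha, h1⟩
    · exact absurd h1 (hnear hz' hself)
    · exact hK.mouth z hz' a ha (hball (mem_of_near h1))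
    · exact absurd ha.1 (hnear hz' (mem_of_near h1))
  · intro z hz h
    have hz' := h128 hz
    rcases conf z (hlift h) with h1 | ⟨-, a, ha, h1⟩
    · rcases (hRsub z h1).1 with h2 | h2
      · exact absurd h2 (hnear hz' hself)
      · exact hKy.mouth z hz' z h2 hself
    · have h1' : z ∈ ball a (4 * ρ') := ball_mono' (by omega) h1
      rcases (hRsub a ha.1).1 with h2 | h2
      · exact absurd h2 (hnear hz' h1')
      · exact hKy.mouth z hz' a h2 (hball h1')

/-- Stage 4: seal the cluster of `y`. -/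
theorem stage4 (c : ℝ) (hc : 0 < c) (K : ℕ) : ∃ c' : ℝ, 0 < c' ∧ ∀ (s : Src) (w ρ ρ' : ℕ)
    (v v' : Vert) (d d' : Side) (Z Zy : Set Vert) (Nev Ny : Set Config) (n : ℕ) (q : I),
    CorrData w ρ v d Z Nev → CorrData w ρ' v' d' Zy Ny → CorrSep w ρ' v' Z Zy → 4 ≤ ρ' →
    64 * ρ' ≤ ρ → 64 * ρ ≤ w → w ≤ K * ρ' → v' ∈ sphere 0 (8 * w) →
    w ≤ n → RSWreg c n q →
      c' * Pr q (Ev3 s w ρ' v' d Z ∩ {ω | sit ω ∈ Ny}) ≤ Pr q (Sep s d d' (4 * w)) := by
  classical
  obtain ⟨c', hc', hlow⟩ := seal_lower c hc 1 ((2 * (320 * K) + 1) ^ 2)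
  refine ⟨c', hc', fun s w ρ ρ' v v' d d' Z Zy Nev Ny n q hK hKy hS hρ' hρ hw hwK hv' hn hR =>
    ?_⟩
  have hρ'1 : 1 ≤ ρ' := by omega
  have hw1 : 1 ≤ w := by omega
  -- the finite set of sites
  obtain ⟨Λ1, hΛ1⟩ := exists_fin (160 * w)
  obtain ⟨Λ2, hΛ2⟩ := localOn_seal (grid (ρ' - 1) (320 * K)) (ρ' - 1)
  have hDW : ball (0 : Vert) (8 * w) ∪ Zy ⊆ ball 0 (160 * w) :=
    (st4_corr_dom_right (d := d) hKy).trans (st4_dom_sub hK hKy)
  have hΛ : ∀ e ∈ vE (ball 0 (160 * w)), e ∈ Λ1 ∪ Λ2 := fun e he =>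
    Finset.mem_union_left _ (hΛ1 e he)
  have htΛ : ∀ ω : Config, ∀ e ∈ st4_t w Zy (st4_X s w Z Zy ω), e ∈ Λ1 ∪ Λ2 := by
    rintro ω e ((he | he) | (he | he))
    · exact hΛ e (rv_sub he)
    · exact hΛ e (vE_mono clus_sub he)
    · exact hΛ e (vE_mono (Set.sdiff_subset.trans hDW) (rv_sub he))
    · exact hΛ e (vE_mono (fun a ha => hDW (clus_sub ha).1) he)
  have main := markov_indep (Λ := Λ1 ∪ Λ2) (q := q) (c := c')
    (fun ω => st4_X s w Z Zy ω)
    (fun i => Z ⊆ i.1 ∧ Zy ⊆ i.2) (fun i => st4_t w Zy i)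
    (fun i => {ω | st4_X s w Z Zy ω = i} ∩ (Ev3 s w ρ' v' d Z ∩ {ω | sit ω ∈ Ny}))
    (fun i => Seal (grid (ρ' - 1) (320 * K)) (ρ' - 1) (st4_t w Zy i))
    ?_ ?_ ?_ ?_ ?_ ?_ ?_ hc'.le
  · have e1 : Ev3 s w ρ' v' d Z ∩ {ω | sit ω ∈ Ny} ⊆
        {ω | (Z ⊆ (st4_X s w Z Zy ω).1 ∧ Zy ⊆ (st4_X s w Z Zy ω).2) ∧
          ω ∈ {ω' | st4_X s w Z Zy ω' = st4_X s w Z Zy ω} ∩
            (Ev3 s w ρ' v' d Z ∩ {ω | sit ω ∈ Ny})} := by
      intro ω hω
      have hC := hω.1.1
      exact ⟨⟨Z_sub_SH_of_conf hK hC,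
        st4_Zy_sub hKy (Zy_disj_SH hKy hS hρ'1 hC hω.1.2.2) hω.1.2.1⟩, rfl, hω⟩
    refine le_trans (mul_le_mul_of_nonneg_left (Pr_mono e1) hc'.le) (le_trans main (Pr_mono ?_))
    rintro ω ⟨_, ⟨_, h3, hN⟩, hs⟩
    exact st4_det hK hKy hS hρ' hρ hw hwK hv' h3 hN hs
  · intro i ω ω' h hω
    have hω' : st4_X s w Z Zy ω = i := hω
    subst hω'
    exact st4_X_congr (fun e he => h e (htΛ ω e he)) rfl
  · intro i hi ω ω' h hω
    exact st4_X_congr h hω
  · rintro i ω ω' h ⟨hω, hA⟩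
    obtain ⟨h1, h2⟩ := st4_A_congr (ω' := ω') hK hKy hS hρ'1
      (fun e he => h e (htΛ ω e he)) hA
    exact ⟨h1.trans hω, h2⟩
  · rintro i hi ω ω' h ⟨hω, hA⟩
    obtain ⟨h1, h2⟩ := st4_A_congr (ω' := ω') hK hKy hS hρ'1
      (fun e he => h e (by
        have hω' : st4_X s w Z Zy ω = i := hω
        rw [← hω']
        exact he)) hA
    exact ⟨h1.trans hω, h2⟩
  · intro i ω ω' h
    exact hΛ2 _ ω ω' fun e he => h e (Finset.mem_union_right _ he)
  · intro i _
    exact locS_seal _ _ _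
  · intro i _
    exact hlow n (ρ' - 1) q _ _ (by omega) hR (by omega) (by omega) (card_grid _ _)

end Pool.Agent.H38.N59

end

section

/-!
# Outward separation for sites: stage 2
-/

set_option autoImplicit false

open MeasureTheory ProbabilityTheory unitInterval

namespace Pool.Agent.H38.N59

open Pool.Agent.H89.Perc
open Pool.Agent.H61.NC hiding RSWreg
open Pool.Agent.H83.SK (sv sit sit_true RSWreg)
open Pool.Agent.H59.EX (LocS inE touch clus closeS Side T Mouth Fence dom CorrData CorrSep clus_sub clus_step clus_conn mem_clus mem_clus_single conn_in_clus fence_trans fence_mono corr_inter corr_sub160 mem_sphere_of_joins markov_indep grid exists_grid card_grid)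

variable {s : Src} {w ρ ρ' : ℕ} {v v' : Vert} {d d' : Side} {Z Zy : Set Vert} {Nev Ny : Set Config}
  {q : I}

/-- The landing gives `Z ⊆ S1`. -/
private theorem st2_Z_sub (hK : CorrData w ρ v d Z Nev) {ω : Config}
    (h : ∃ u ∈ sphere 0 (8 * w), u ∈ ball v ρ ∧ Conn (sit (s.cut ω)) (ball 0 (8 * w)) s.x u) :
    Z ⊆ S1 s w Z ω := by
  obtain ⟨u, _, hu, hc⟩ := h
  have huZ : u ∈ Z := hK.ball_sub (ball_mono' (by omega) hu)
  refine Z_sub_S1 hK huZ ?_
  exact ⟨s.x, rfl, conn_mono Set.subset_union_left (fun e he => le_fillS he) hc⟩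

private theorem st2_x_mem_S1 (hw : 1 ≤ w) {ω : Config} : s.x ∈ S1 s w Z ω :=
  ⟨s.x, rfl, Conn.refl (Or.inl (src_mem s.hx hw))⟩

private theorem st2_y_mem_SY (hw : 1 ≤ w) {ω : Config} : s.y ∈ SY s w ω :=
  ⟨s.y, rfl, Conn.refl (src_mem s.hy hw)⟩

/-- The determined sites. -/
private def st2_t (w : ℕ) (Z : Set Vert) (i : Set Vert × Set Vert) : Set Edge :=
  rv (ball 0 (8 * w) ∪ Z) (i.2 ∪ i.1) ∪ vE (i.2 ∪ i.1)

/-- The pair of clusters depends only on the determined sites. -/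
private theorem st2_X_congr {i : Set Vert × Set Vert} {ω ω' : Config}
    (h : ∀ e ∈ st2_t w Z i, ω e = ω' e) (hω : (SY s w ω, S1 s w Z ω) = i) :
    (SY s w ω', S1 s w Z ω') = i := by
  refine Prod.ext ?_ ?_
  · refine clus_cut_congr (fun g hg => h g (Or.inl ?_)) (congrArg Prod.fst hω)
    obtain ⟨e, he, h1⟩ := hg
    exact ⟨e, ⟨⟨Or.inl he.1.1, Or.inl he.1.2⟩, he.2.imp Or.inr Or.inr⟩, h1⟩
  · refine clus_fill_congr (fun g hg _ => h g (Or.inl ?_)) (congrArg Prod.snd hω)
    obtain ⟨e, he, h1⟩ := hg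
    exact ⟨e, ⟨⟨he.1.1, he.1.2⟩, he.2.imp Or.inl Or.inl⟩, h1⟩

/-- The event depends only on the determined sites. -/
private theorem st2_A_congr (hK : CorrData w ρ v d Z Nev) {ω ω' : Config}
    (h : ∀ e ∈ st2_t w Z (SY s w ω, S1 s w Z ω), ω e = ω' e)
    (hω : ω ∈ Ev0 s w ρ v ∩ {ω | sit ω ∈ Nev} ∩ Good12 s w ρ' Z) :
    (SY s w ω', S1 s w Z ω') = (SY s w ω, S1 s w Z ω) ∧
      ω' ∈ Ev0 s w ρ v ∩ {ω | sit ω ∈ Nev} ∩ Good12 s w ρ' Z := by
  have hZ : Z ⊆ S1 s w Z ω := st2_Z_sub hK hω.1.1.1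
  have hX := st2_X_congr (s := s) (w := w) (Z := Z) (i := (SY s w ω, S1 s w Z ω)) h rfl
  refine ⟨hX, ?_⟩
  have hY : SY s w ω' = SY s w ω := congrArg Prod.fst hX
  have h1 : S1 s w Z ω' = S1 s w Z ω := congrArg Prod.snd hX
  obtain ⟨⟨⟨⟨u, hu, huv, hxu⟩, ⟨u', hu', hyu⟩, hxy, hdis⟩, hN⟩, hG⟩ := hω
  refine ⟨⟨⟨⟨u, hu, huv, ?_⟩, ⟨u', hu', ?_⟩, ?_, ?_⟩, ?_⟩, ?_⟩
  · refine conn_of_sub (S := S1 s w Z ω) (fun a ha => ?_)
      (fun g hg => h g (Or.inr (vE_mono Set.subset_union_left hg))) hxu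
    exact ⟨s.x, rfl, conn_mono Set.subset_union_left (fun e he => le_fillS he) ha⟩
  · have h2 : u' ∈ SY s w ω' := by
      rw [hY]
      exact ⟨s.y, rfl, hyu⟩
    exact mem_clus_single.1 h2
  · intro hc
    have h2 : s.x ∈ SY s w ω' := ⟨s.y, rfl, hc.symm⟩
    rw [hY] at h2
    exact hxy (mem_clus_single.1 h2).symm
  · rw [hY]
    exact hdis
  · exact locS_sit_inE hK.loc ω ω'
      (fun g hg => h g (Or.inr (vE_mono (hZ.trans Set.subset_union_left) hg))) hN
  · intro z hz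
    rw [hY, h1]
    exact hG z hz

/-- Deterministic part of stage 2. -/
private theorem st2_det (hK : CorrData w ρ v d Z Nev) (hρ' : 4 ≤ ρ') (hρ : 64 * ρ' ≤ ρ)
    (hw : 64 * ρ ≤ w) {K : ℕ} (hwK : w ≤ K * ρ') (hv : v ∈ sphere 0 (8 * w)) {ω : Config}
    (h0 : ω ∈ Ev0 s w ρ v) (hN : sit ω ∈ Nev) (hG : ω ∈ Good12 s w ρ' Z)
    (hs : ω ∈ Seal (grid (ρ' - 1) (320 * K)) (ρ' - 1) (st2_t w Z (SY s w ω, S1 s w Z ω))) :
    ω ∈ Ev2 s w ρ ρ' v d Z := by
  have hρ1 : 1 ≤ ρ := by omega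
  have hw1 : 1 ≤ w := by omega
  obtain ⟨hx, hy, hxy, hdis⟩ := h0
  have hZS1 : Z ⊆ S1 s w Z ω := st2_Z_sub hK hx
  have F1 := S1_disj_SY hK hρ1 hdis hxy
  have F1' : ∀ a, a ∈ S1 s w Z ω → a ∉ SY s w ω := fun a h1 h2 => Set.disjoint_left.1 F1 h1 h2
  have hS1D : S1 s w Z ω ⊆ ball 0 (8 * w) ∪ Z := clus_sub
  have hSYD : SY s w ω ⊆ ball 0 (8 * w) := clus_sub
  have hD160 : ball (0 : Vert) (8 * w) ∪ Z ⊆ ball 0 (160 * w) :=
    Set.union_subset (ball_mono' (by omega)) (corr_sub160 hK)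
  have hS1H : S1 s w Z ω ⊆ SH s w Z ω := S1_sub_SH hK
  -- the points of the source are open
  have hxo : s.cut ω (sv s.x) = true := by
    obtain ⟨u, hu, -, hc⟩ := hx
    exact open_of_conn hc (src_ne s.hx hw1 hu)
  have hyo : s.cut ω (sv s.y) = true := by
    obtain ⟨u, hu, hc⟩ := hy
    exact open_of_conn hc (src_ne s.hy hw1 hu)
  have hxo' : fillS Z (s.cut ω) (sv s.x) = true := le_fillS hxo
  have hS1o : ∀ a ∈ S1 s w Z ω, fillS Z (s.cut ω) (sv a) = true := fun a ha =>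
    open_of_clus hxo' ha
  have hSYo : ∀ a ∈ SY s w ω, s.cut ω (sv a) = true := fun a ha => open_of_clus hyo ha
  -- off the clusters: a step into `SY`
  have key : ∀ a b e, Joins e a b → fillS Z (s.cut ω) (sv a) = true → a ∉ SY s w ω →
      b ∈ SY s w ω → a ∉ ball 0 (8 * w) ∪ Z := by
    intro a b e hj ho ha hb haD
    exact ha (SY_closed hK hρ1 hdis hb ⟨Or.inl (hSYD hb), haD, e, hj.symm,
      (sit_joins hj.symm).2 ⟨le_fillS (hSYo b hb), ho⟩⟩)
  -- open sites off the clusters are not determined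
  have free : ∀ b, fillS Z (s.cut ω) (sv b) = true → b ∉ S1 s w Z ω → b ∉ SY s w ω →
      sv b ∉ st2_t w Z (SY s w ω, S1 s w Z ω) := by
    intro b hob hb1 hb2 h
    rcases h with h | h
    · obtain ⟨a, e, hj, haD, hbD, h1⟩ := of_mem_rv h
      rcases h1 with (h1 | h1) | (h1 | h1)
      · exact hb1 (clus_adj h1 (hS1o a h1) hob hj hbD)
      · exact key b a e hj.symm hob hb2 h1 hbD
      · exact hb1 h1
      · exact hb2 h1
    · rcases sv_mem_vE.1 h with h | h
      · exact hb1 h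
      · exact hb2 h
  set Ex : Set Vert := {a | a ∈ S1 s w Z ω ∧ ∃ b e, Joins e a b ∧ b ∉ ball 0 (8 * w) ∪ Z} with hEx
  have conf : ∀ z ∈ SH s w Z ω, z ∈ S1 s w Z ω ∨
      (z ∉ SY s w ω ∧ ∃ a ∈ Ex, z ∈ ball a (4 * (ρ' - 1) + 1)) := by
    rintro z ⟨x, hxx, hz⟩
    rw [Set.mem_singleton_iff] at hxx
    subst hxx
    refine seal_confine (w := ω) (F := SY s w ω) (t := st2_t w Z (SY s w ω, S1 s w Z ω))
      (G := grid (ρ' - 1) (320 * K)) ?_ hs ?_ ?_ ?_ ?_ (st2_x_mem_S1 hw1) hz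
    · intro a ha ho
      rcases fill_sv.1 ho with h | h
      · exact cut_le h
      · exact absurd (Or.inr (sv_mem_vE.2 (Or.inl (hZS1 h)))) ha
    · rintro a ⟨ha, -⟩ b hb
      refine exists_grid (by omega) ?_
      have h1 := hD160 (hS1D ha)
      have hK1 : 1 ≤ K := by
        rcases Nat.eq_zero_or_pos K with h | h
        · subst h
          omega
        · exact h
      have h2 : (160 * w + 1 : ℕ) ≤ 320 * K * (ρ' - 1) := by
        obtain ⟨r, rfl⟩ : ∃ r, ρ' = r + 1 := ⟨ρ' - 1, by omega⟩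
        have h4 : 3 ≤ r := by omega
        have h5 : w ≤ K * (r + 1) := hwK
        have h6 : 3 ≤ K * r := by nlinarith
        rw [Nat.add_sub_cancel]
        have h7 : K * (r + 1) = K * r + K := by ring
        have h8 : 3 * K ≤ K * r := by nlinarith
        have h9 : 320 * K * r = 320 * (K * r) := by ring
        rw [h9]
        omega
      have h3 : ((160 * w + 1 : ℕ) : ℤ) ≤ ((320 * K * (ρ' - 1) : ℕ) : ℤ) := by exact_mod_cast h2
      simp only [mem_ball, Prod.fst_zero, Prod.snd_zero] at h1 hb ⊢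
      push_cast at h1 hb h3
      omega
    · intro a b e hj hoa hob _ _ ha hb
      have hb' : b ∉ ball 0 (8 * w) ∪ Z := fun h => hb (clus_adj ha hoa hob hj h)
      exact ⟨⟨ha, b, e, hj, hb'⟩, fun h => hb' (Or.inl (hSYD h)),
        free b hob hb fun h => hb' (Or.inl (hSYD h))⟩
    · intro a b e hj hoa hob _ _ ha1 ha2 hb x' hx' hbx
      have haD := key a b e hj hoa ha2 hb
      have hbs : b ∈ sphere 0 (8 * w) :=
        mem_sphere_of_joins hj.symm (hSYD hb) fun h => haD (Or.inl h)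
      refine hG b hbs ⟨x', hx'.1, ?_⟩ ⟨b, hb, self_mem_ball⟩
      exact ball_symm' (ball_mono' (by omega) hbx)
    · intro a b e hj _ hob _ _ _ _ hb1 hb2
      exact free b hob hb1 hb2
  have hSYH : ∀ a ∈ SY s w ω, a ∉ SH s w Z ω := by
    intro a ha h
    rcases conf a h with h | ⟨h, -⟩
    · exact F1' a h ha
    · exact h ha
  have hZH : Z ⊆ SH s w Z ω := hZS1.trans hS1H
  refine ⟨⟨hSYH _ (st2_y_mem_SY hw1), ?_, ?_⟩, ?_⟩
  · -- the fence
    obtain ⟨u, hu, huv, hxu⟩ := hx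
    obtain ⟨z, hz, hf⟩ := hK.hook (sit ω) hN (sit (s.cut ω)) (ball 0 (8 * w)) u s.x hxu.symm huv
      (src_far s.hx hρ1 hw hv)
    have hcut : ∀ g ∈ vE Z, ω g = s.cut ω g := fun g hg => (corr_cut hK hρ1 hw hv hg).symm
    have hf' : Fence d (4 * w) (sit (s.cut ω)) Z z :=
      fence_congr (fun g hg => hcut g (vE_mono hK.T_sub hg)) hcut hf
    have hxz : Conn (sit (s.cut ω)) (ball 0 (8 * w)) s.x z := hxu.trans hz
    have hxz' : Conn (sit (s.cut ω)) (SH s w Z ω ∩ (ball 0 (8 * w) ∪ Z)) s.x z := by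
      have h1 : Conn (sit (s.cut ω)) (clus (sit (s.cut ω)) (ball 0 (8 * w)) {s.x}) s.x z :=
        conn_in_clus (mem_clus rfl (Conn.refl hxz.mem_left)) hxz
      refine h1.mono_set ?_
      rintro a ⟨x, hxx, hc⟩
      refine ⟨?_, Or.inl hc.mem_right⟩
      exact hS1H ⟨x, hxx, conn_mono Set.subset_union_left (fun e he => le_fillS he) hc⟩
    exact fence_trans hxz' (fence_mono (fun a ha => ⟨hZH ha, Or.inr ha⟩) (fun _ h => h) hf')
  · -- confinement
    intro z hz
    rcases conf z hz with h | ⟨-, a, ha, hza⟩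
    · rcases hS1D h with h | h
      · exact Or.inl h
      · exact Or.inr (Or.inl ⟨z, h, near_self (by omega)⟩)
    · obtain ⟨ha1, b, e, hj, hb⟩ := ha
      rcases hS1D ha1 with h | h
      · exact Or.inr (Or.inr ⟨a, hS1H ha1, mem_sphere_of_joins hj h fun h => hb (Or.inl h),
          near_sub hza (by omega)⟩)
      · exact Or.inr (Or.inl ⟨a, h, near_sub hza (by omega)⟩)
  · -- the cluster of `y`
    obtain ⟨u, hu, hyu⟩ := hy
    have huY : u ∈ SY s w ω := ⟨s.y, rfl, hyu⟩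
    refine ⟨u, hu, fun h => Set.disjoint_left.1 hdis huY h, ?_, ?_⟩
    · have h1 : Conn (sit (s.cut ω)) (SY s w ω) s.y u := conn_in_clus (st2_y_mem_SY hw1) hyu
      exact h1.mono_set fun a ha => ⟨hSYD ha, hSYH a ha⟩
    · refine Set.disjoint_left.2 fun z hz hzu => ?_
      rcases conf z hz with h | ⟨-, a, ha, hza⟩
      · exact hG u hu ⟨z, h, ball_mono' (by omega) hzu⟩ ⟨u, huY, self_mem_ball⟩
      · refine hG u hu ⟨a, ha.1, ?_⟩ ⟨u, huY, self_mem_ball⟩
        simp only [mem_ball] at hzu hza ⊢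
        push_cast at hzu hza ⊢
        omega

/-- Stage 2: seal the cluster of `x`. -/
theorem stage2 (c : ℝ) (hc : 0 < c) (K : ℕ) : ∃ c' : ℝ, 0 < c' ∧ ∀ (s : Src) (w ρ ρ' : ℕ)
    (v : Vert) (d : Side) (Z : Set Vert) (Nev : Set Config) (n : ℕ) (q : I),
    CorrData w ρ v d Z Nev → 4 ≤ ρ' → 64 * ρ' ≤ ρ → 64 * ρ ≤ w → w ≤ K * ρ' →
    v ∈ sphere 0 (8 * w) → w ≤ n → RSWreg c n q →
      c' * Pr q (Ev0 s w ρ v ∩ {ω | sit ω ∈ Nev} ∩ Good12 s w ρ' Z) ≤
        Pr q (Ev2 s w ρ ρ' v d Z) := by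
  classical
  obtain ⟨c', hc', hlow⟩ := seal_lower c hc 1 ((2 * (320 * K) + 1) ^ 2)
  refine ⟨c', hc', fun s w ρ ρ' v d Z Nev n q hK hρ' hρ hw hwK hv hn hR => ?_⟩
  have hρ1 : 1 ≤ ρ := by omega
  have hw1 : 1 ≤ w := by omega
  -- the finite set of sites
  obtain ⟨Λ1, hΛ1⟩ := exists_fin (160 * w)
  obtain ⟨Λ2, hΛ2⟩ := localOn_seal (grid (ρ' - 1) (320 * K)) (ρ' - 1)
  have hD160 : ball (0 : Vert) (8 * w) ∪ Z ⊆ ball 0 (160 * w) :=
    Set.union_subset (ball_mono' (by omega)) (corr_sub160 hK)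
  have hΛ : ∀ e ∈ vE (ball 0 (8 * w) ∪ Z), e ∈ Λ1 ∪ Λ2 := fun e he =>
    Finset.mem_union_left _ (hΛ1 e (vE_mono hD160 he))
  have htΛ : ∀ ω : Config, ∀ e ∈ st2_t w Z (SY s w ω, S1 s w Z ω), e ∈ Λ1 ∪ Λ2 := by
    rintro ω e (he | he)
    · exact hΛ e (rv_sub he)
    · refine hΛ e (vE_mono ?_ he)
      rintro a (ha | ha)
      · exact clus_sub ha
      · exact Or.inl (clus_sub ha)
  have main := markov_indep (Λ := Λ1 ∪ Λ2) (q := q) (c := c')
    (fun ω => (SY s w ω, S1 s w Z ω))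
    (fun i => Z ⊆ i.2) (fun i => st2_t w Z i)
    (fun i => {ω | (SY s w ω, S1 s w Z ω) = i} ∩
      (Ev0 s w ρ v ∩ {ω | sit ω ∈ Nev} ∩ Good12 s w ρ' Z))
    (fun i => Seal (grid (ρ' - 1) (320 * K)) (ρ' - 1) (st2_t w Z i))
    ?_ ?_ ?_ ?_ ?_ ?_ ?_ hc'.le
  · have e1 : Ev0 s w ρ v ∩ {ω | sit ω ∈ Nev} ∩ Good12 s w ρ' Z ⊆
        {ω | Z ⊆ (SY s w ω, S1 s w Z ω).2 ∧
          ω ∈ {ω' | (SY s w ω', S1 s w Z ω') = (SY s w ω, S1 s w Z ω)} ∩
            (Ev0 s w ρ v ∩ {ω | sit ω ∈ Nev} ∩ Good12 s w ρ' Z)} := by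
      intro ω hω
      exact ⟨st2_Z_sub hK hω.1.1.1, rfl, hω⟩
    refine le_trans (mul_le_mul_of_nonneg_left (Pr_mono e1) hc'.le) (le_trans main (Pr_mono ?_))
    rintro ω ⟨_, ⟨_, ⟨⟨h0, hN⟩, hG⟩⟩, hs⟩
    exact st2_det hK hρ' hρ hw hwK hv h0 hN hG hs
  · intro i ω ω' h hω
    have hω' : (SY s w ω, S1 s w Z ω) = i := hω
    subst hω'
    exact st2_X_congr (fun e he => h e (htΛ ω e he)) rfl
  · intro i hi ω ω' h hω
    exact st2_X_congr h hω
  · rintro i ω ω' h ⟨hω, hA⟩
    obtain ⟨h1, h2⟩ := st2_A_congr (ω' := ω') hK (fun e he => h e (htΛ ω e he)) hA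
    exact ⟨h1.trans hω, h2⟩
  · rintro i hi ω ω' h ⟨hω, hA⟩
    obtain ⟨h1, h2⟩ := st2_A_congr (ω' := ω') hK
      (fun e he => h e (by
        have hω' : (SY s w ω, S1 s w Z ω) = i := hω
        rw [← hω']
        exact he)) hA
    exact ⟨h1.trans hω, h2⟩
  · intro i ω ω' h
    exact hΛ2 _ ω ω' fun e he => h e (Finset.mem_union_right _ he)
  · intro i _
    exact locS_seal _ _ _
  · intro i _
    exact hlow n (ρ' - 1) q _ _ (by omega) hR (by omega) (by omega) (card_grid _ _)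

end Pool.Agent.H38.N59

end

section

/-!
# Probability of the crossing events of the corridors
-/

open MeasureTheory ProbabilityTheory unitInterval

namespace Pool.Agent.H83.SK.NG

open Pool.Agent.H59.EX

open Pool.Agent.H89.Perc
open Pool.Agent.H29.Sep (Circ incr_circ localOn_circ)

namespace GeoQ

/-- A local increasing event of probability at least `c`. -/
def Gd (q : I) (c : ℝ) (A : Set Config) : Prop :=
  0 ≤ c ∧ (∃ s : Finset Edge, LocalOn s A) ∧ Incr A ∧ c ≤ Pr q A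

theorem Gd.inter {q : I} {c c' : ℝ} {A B : Set Config} (hA : Gd q c A) (hB : Gd q c' B) :
    Gd q (c * c') (A ∩ B) := by
  classical
  obtain ⟨h0, ⟨s, hs⟩, iA, hp⟩ := hA
  obtain ⟨h0', ⟨t, ht⟩, iB, hp'⟩ := hB
  refine ⟨mul_nonneg h0 h0', ⟨s ∪ t, hs.inter' ht⟩, ?_, ?_⟩
  · exact fun ω ω' hω h => ⟨iA ω ω' hω h.1, iB ω ω' hω h.2⟩
  · exact (mul_le_mul hp hp' h0' (h0.trans hp)).trans (fkg hs ht iA iB)

theorem gd_h {q : I} {c : ℝ} {a b y z : ℤ} (hc : 0 ≤ c) (h : c ≤ Pr q {ω | HCross ω a b y z}) :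
    Gd q c {ω | HCross ω a b y z} :=
  ⟨hc, ⟨_, localOn_hcross a b y z⟩, GeoS.incr_h _ _ _ _, h⟩

theorem gd_v {q : I} {c : ℝ} {a b y z : ℤ} (hc : 0 ≤ c) (h : c ≤ Pr q {ω | VCross ω a b y z}) :
    Gd q c {ω | VCross ω a b y z} :=
  ⟨hc, ⟨_, localOn_vcross a b y z⟩, GeoS.incr_v _ _ _ _, h⟩

theorem gd_c {q : I} {c : ℝ} {v : Vert} {ρ : ℕ} (hc : 0 ≤ c) (h : c ≤ Pr q (Circ v ρ)) :
    Gd q c (Circ v ρ) :=
  ⟨hc, ⟨_, localOn_circ v ρ⟩, incr_circ v ρ, h⟩

end GeoQ

open GeoQ

theorem prob_straight (c : ℝ) (hc : 0 < c) (K : ℕ) : ∃ c' : ℝ, 0 < c' ∧ ∀ (d : Side) (w ρ n : ℕ)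
    (v : Vert) (q : I), 1 ≤ ρ → ρ ≤ w → w ≤ K * ρ → w ≤ n → OnSide d (8 * w) v → RSWreg c n q →
      c' ≤ Pr q (NS d w ρ v) := by
  obtain ⟨c1, hc1, H1⟩ := circ_lower c hc 1
  obtain ⟨c2, hc2, H2⟩ := rect_lower c hc (5 * K + 200)
  refine ⟨c1 * (c2 * (c2 * (c2 * c2))), by positivity, ?_⟩
  intro d w ρ n v q hρ hρw hK hwn hv hreg
  have hn : 1 ≤ n := by omega
  have g1 := gd_c hc1.le (H1 n q hn hreg v ρ hρ (by omega))
  have eK : (w : ℤ) ≤ K * ρ := by exact_mod_cast hK
  have eK0 : (0 : ℤ) ≤ K := Int.natCast_nonneg K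
  have eρ : (1 : ℤ) ≤ ρ := by exact_mod_cast hρ
  have ew : (ρ : ℤ) ≤ w := by exact_mod_cast hρw
  have en : (w : ℤ) ≤ n := by exact_mod_cast hwn
  have p1 : (0 : ℤ) ≤ K * n := by positivity
  have p2 : (0 : ℤ) ≤ K * w := by positivity
  -- thin crossing
  have t1 : ∀ a y : ℤ, c2 ≤ Pr q {ω | HCross ω a (a + 9 * w) y (y + 2 * ρ)} ∧
      c2 ≤ Pr q {ω | VCross ω y (y + 2 * ρ) a (a + 9 * w)} := by
    intro a y
    refine H2 n q hn hreg a (a + 9 * w) y (y + 2 * ρ) (by omega) (by omega) ?_ ?_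
    · push_cast
      nlinarith
    · push_cast
      nlinarith
  have t2 : ∀ a y : ℤ, c2 ≤ Pr q {ω | HCross ω a (a + 24 * w) y (y + w)} ∧
      c2 ≤ Pr q {ω | VCross ω y (y + w) a (a + 24 * w)} := by
    intro a y
    refine H2 n q hn hreg a (a + 24 * w) y (y + w) (by omega) (by omega) ?_ ?_
    · push_cast
      nlinarith
    · push_cast
      nlinarith
  have t3 : ∀ a y : ℤ, c2 ≤ Pr q {ω | HCross ω a (a + 128 * w) y (y + 24 * w)} ∧
      c2 ≤ Pr q {ω | VCross ω y (y + 24 * w) a (a + 128 * w)} := by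
    intro a y
    refine H2 n q hn hreg a (a + 128 * w) y (y + 24 * w) (by omega) (by omega) ?_ ?_
    · push_cast
      nlinarith
    · push_cast
      nlinarith
  have t4 : ∀ a y : ℤ, c2 ≤ Pr q {ω | HCross ω a (a + 24 * w) y (y + 32 * w)} ∧
      c2 ≤ Pr q {ω | VCross ω y (y + 32 * w) a (a + 24 * w)} := by
    intro a y
    refine H2 n q hn hreg a (a + 24 * w) y (y + 32 * w) (by omega) (by omega) ?_ ?_
    · push_cast
      nlinarith
    · push_cast
      nlinarith
  cases d with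
  | E =>
    have g2 := gd_h hc2.le (t1 (8 * w) (v.2 - ρ)).1
    have g3 := gd_v hc2.le (t2 (-(12 * w)) (16 * w)).2
    have g4 := gd_h hc2.le (t3 (16 * w) (-(12 * w))).1
    have g5 := gd_v hc2.le (t4 (-(12 * w)) (112 * w)).2
    rw [show (8 * w + 9 * w : ℤ) = 17 * w by ring, show (v.2 - ρ + 2 * ρ : ℤ) = v.2 + ρ by ring] at g2
    rw [show (-(12 * w) + 24 * w : ℤ) = 12 * w by ring, show (16 * w + w : ℤ) = 17 * w by ring] at g3
    rw [show (-(12 * w) + 24 * w : ℤ) = 12 * w by ring,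
      show (16 * w + 128 * w : ℤ) = 144 * w by ring] at g4
    rw [show (-(12 * w) + 24 * w : ℤ) = 12 * w by ring,
      show (112 * w + 32 * w : ℤ) = 144 * w by ring] at g5
    exact (g1.inter (g2.inter (g3.inter (g4.inter g5)))).2.2.2
  | N =>
    have g2 := gd_v hc2.le (t1 (8 * w) (v.1 - ρ)).2
    have g3 := gd_h hc2.le (t2 (-(12 * w)) (16 * w)).1
    have g4 := gd_v hc2.le (t3 (16 * w) (-(12 * w))).2
    have g5 := gd_h hc2.le (t4 (-(12 * w)) (112 * w)).1
    rw [show (8 * w + 9 * w : ℤ) = 17 * w by ring, show (v.1 - ρ + 2 * ρ : ℤ) = v.1 + ρ by ring] at g2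
    rw [show (-(12 * w) + 24 * w : ℤ) = 12 * w by ring, show (16 * w + w : ℤ) = 17 * w by ring] at g3
    rw [show (-(12 * w) + 24 * w : ℤ) = 12 * w by ring,
      show (16 * w + 128 * w : ℤ) = 144 * w by ring] at g4
    rw [show (-(12 * w) + 24 * w : ℤ) = 12 * w by ring,
      show (112 * w + 32 * w : ℤ) = 144 * w by ring] at g5
    exact (g1.inter (g2.inter (g3.inter (g4.inter g5)))).2.2.2
  | W =>
    have g2 := gd_h hc2.le (t1 (-(17 * w)) (v.2 - ρ)).1
    have g3 := gd_v hc2.le (t2 (-(12 * w)) (-(17 * w))).2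
    have g4 := gd_h hc2.le (t3 (-(144 * w)) (-(12 * w))).1
    have g5 := gd_v hc2.le (t4 (-(12 * w)) (-(144 * w))).2
    rw [show (-(17 * w) + 9 * w : ℤ) = -(8 * w) by ring,
      show (v.2 - ρ + 2 * ρ : ℤ) = v.2 + ρ by ring] at g2
    rw [show (-(12 * w) + 24 * w : ℤ) = 12 * w by ring,
      show (-(17 * w) + w : ℤ) = -(16 * w) by ring] at g3
    rw [show (-(12 * w) + 24 * w : ℤ) = 12 * w by ring,
      show (-(144 * w) + 128 * w : ℤ) = -(16 * w) by ring] at g4
    rw [show (-(12 * w) + 24 * w : ℤ) = 12 * w by ring,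
      show (-(144 * w) + 32 * w : ℤ) = -(112 * w) by ring] at g5
    exact (g1.inter (g2.inter (g3.inter (g4.inter g5)))).2.2.2
  | S =>
    have g2 := gd_v hc2.le (t1 (-(17 * w)) (v.1 - ρ)).2
    have g3 := gd_h hc2.le (t2 (-(12 * w)) (-(17 * w))).1
    have g4 := gd_v hc2.le (t3 (-(144 * w)) (-(12 * w))).2
    have g5 := gd_h hc2.le (t4 (-(12 * w)) (-(144 * w))).1
    rw [show (-(17 * w) + 9 * w : ℤ) = -(8 * w) by ring,
      show (v.1 - ρ + 2 * ρ : ℤ) = v.1 + ρ by ring] at g2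
    rw [show (-(12 * w) + 24 * w : ℤ) = 12 * w by ring,
      show (-(17 * w) + w : ℤ) = -(16 * w) by ring] at g3
    rw [show (-(12 * w) + 24 * w : ℤ) = 12 * w by ring,
      show (-(144 * w) + 128 * w : ℤ) = -(16 * w) by ring] at g4
    rw [show (-(12 * w) + 24 * w : ℤ) = 12 * w by ring,
      show (-(144 * w) + 32 * w : ℤ) = -(112 * w) by ring] at g5
    exact (g1.inter (g2.inter (g3.inter (g4.inter g5)))).2.2.2

theorem prob_turn (c : ℝ) (hc : 0 < c) (K : ℕ) : ∃ c' : ℝ, 0 < c' ∧ ∀ (w ρ n : ℕ)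
    (v : Vert) (q : I), 1 ≤ ρ → ρ ≤ w → w ≤ K * ρ → w ≤ n → OnSide .E (8 * w) v → RSWreg c n q →
      c' ≤ Pr q (NTN w ρ v) ∧ c' ≤ Pr q (NTS w ρ v) := by
  obtain ⟨c1, hc1, H1⟩ := circ_lower c hc 1
  obtain ⟨c2, hc2, H2⟩ := rect_lower c hc (5 * K + 200)
  refine ⟨c1 * (c2 * (c2 * (c2 * (c2 * c2)))), by positivity, ?_⟩
  intro w ρ n v q hρ hρw hK hwn hv hreg
  obtain ⟨⟨hvb, -⟩, hv1⟩ := hv
  simp only [mem_ball, Prod.fst_zero, Prod.snd_zero] at hvb hv1
  have hn : 1 ≤ n := by omega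
  have g1 := gd_c hc1.le (H1 n q hn hreg v ρ hρ (by omega))
  have eK : (w : ℤ) ≤ K * ρ := by exact_mod_cast hK
  have eK0 : (0 : ℤ) ≤ K := Int.natCast_nonneg K
  have eρ : (1 : ℤ) ≤ ρ := by exact_mod_cast hρ
  have ew : (ρ : ℤ) ≤ w := by exact_mod_cast hρw
  have en : (w : ℤ) ≤ n := by exact_mod_cast hwn
  have p1 : (0 : ℤ) ≤ K * n := by positivity
  have p2 : (0 : ℤ) ≤ K * w := by positivity
  have g2 : Gd q c2 {ω | HCross ω (8 * w) (13 * w) (v.2 - ρ) (v.2 + ρ)} := by
    refine gd_h hc2.le (H2 n q hn hreg _ _ _ _ (by omega) (by omega) ?_ ?_).1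
    · push_cast
      nlinarith
    · push_cast
      nlinarith
  have r1 : ∀ a b y : ℤ, a ≤ b → b - a ≤ 132 * w →
      c2 ≤ Pr q {ω | HCross ω a b y (y + w)} ∧ c2 ≤ Pr q {ω | VCross ω y (y + w) a b} := by
    intro a b y hab hb
    refine H2 n q hn hreg a b y (y + w) hab (by omega) ?_ ?_
    · push_cast
      nlinarith
    · push_cast
      nlinarith
  have r2 : ∀ a b y : ℤ, a ≤ b → b - a ≤ 132 * w →
      c2 ≤ Pr q {ω | HCross ω a b y (y + 8 * w)} ∧ c2 ≤ Pr q {ω | VCross ω y (y + 8 * w) a b} := by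
    intro a b y hab hb
    refine H2 n q hn hreg a b y (y + 8 * w) hab (by omega) ?_ ?_
    · push_cast
      nlinarith
    · push_cast
      nlinarith
  have r3 : ∀ a b y : ℤ, a ≤ b → b - a ≤ 132 * w →
      c2 ≤ Pr q {ω | HCross ω a b y (y + 32 * w)} ∧ c2 ≤ Pr q {ω | VCross ω y (y + 32 * w) a b} := by
    intro a b y hab hb
    refine H2 n q hn hreg a b y (y + 32 * w) hab (by omega) ?_ ?_
    · push_cast
      nlinarith
    · push_cast
      nlinarith
  constructor
  · have g3 := gd_v hc2.le (r1 (v.2 - ρ) (13 * w) (12 * w) (by omega) (by omega)).2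
    have g4 := gd_h hc2.le (r1 (-(4 * w)) (13 * w) (12 * w) (by omega) (by omega)).1
    have g5 := gd_v hc2.le (r2 (12 * w) (144 * w) (-(4 * w)) (by omega) (by omega)).2
    have g6 := gd_h hc2.le (r3 (-(12 * w)) (12 * w) (112 * w) (by omega) (by omega)).1
    rw [show (12 * w + w : ℤ) = 13 * w by ring] at g3 g4
    rw [show (-(4 * w) + 8 * w : ℤ) = 4 * w by ring] at g5
    rw [show (112 * w + 32 * w : ℤ) = 144 * w by ring] at g6
    exact (g1.inter (g2.inter (g3.inter (g4.inter (g5.inter g6))))).2.2.2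
  · have g3 := gd_v hc2.le (r1 (-(13 * w)) (v.2 + ρ) (12 * w) (by omega) (by omega)).2
    have g4 := gd_h hc2.le (r1 (-(4 * w)) (13 * w) (-(13 * w)) (by omega) (by omega)).1
    have g5 := gd_v hc2.le (r2 (-(144 * w)) (-(12 * w)) (-(4 * w)) (by omega) (by omega)).2
    have g6 := gd_h hc2.le (r3 (-(12 * w)) (12 * w) (-(144 * w)) (by omega) (by omega)).1
    rw [show (12 * w + w : ℤ) = 13 * w by ring] at g3
    rw [show (-(13 * w) + w : ℤ) = -(12 * w) by ring] at g4
    rw [show (-(4 * w) + 8 * w : ℤ) = 4 * w by ring] at g5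
    rw [show (-(144 * w) + 32 * w : ℤ) = -(112 * w) by ring] at g6
    exact (g1.inter (g2.inter (g3.inter (g4.inter (g5.inter g6))))).2.2.2

end Pool.Agent.H83.SK.NG

end

section

/-!
# Corridors for the second point
-/

open MeasureTheory ProbabilityTheory unitInterval

namespace Pool.Agent.H83.SK.NG

open Pool.Agent.H59.EX

open Pool.Agent.H89.Perc

/-- `x` lands at `v` on the east side, `y` at `v'` anywhere on the sphere, not close to `v`. -/
theorem exists_corr_y (c : ℝ) (hc : 0 < c) (K : ℕ) : ∃ c' : ℝ, 0 < c' ∧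
    ∀ (w ρ ρ' n : ℕ) (v v' : Vert) (q : I), 1 ≤ ρ' → 64 * ρ' ≤ ρ → 64 * ρ ≤ w → w ≤ K * ρ' →
      w ≤ n → OnSide .E (8 * w) v → v' ∈ sphere 0 (8 * w) → v' ∉ ball v (10 * ρ) →
      RSWreg c n q → ∃ (d' : Side) (Zy : Set Vert) (Ny : Set Config), d' ≠ .E ∧
        CorrData w ρ' v' d' Zy Ny ∧ CorrSep w ρ' v' (ZS .E w ρ v) Zy ∧ c' ≤ Pr q Ny := by
  obtain ⟨c₁, hc₁, H₁⟩ := prob_straight c hc K
  obtain ⟨c₂, hc₂, H₂⟩ := prob_turn c hc K
  refine ⟨min c₁ c₂, lt_min hc₁ hc₂, ?_⟩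
  intro w ρ ρ' n v v' q h1 h2 h3 h4 h5 hv hv' hvv hR
  have hw' : 64 * ρ' ≤ w := by omega
  have hρw : ρ' ≤ w := by omega
  obtain ⟨-, hv1⟩ := id hv
  have hv1' : v.1 = ((8 * w : ℕ) : ℤ) := hv1
  obtain ⟨-, hside⟩ := id hv'
  simp only [Prod.fst_zero, Prod.snd_zero, zero_sub, zero_add] at hside
  have straight : ∀ d' : Side, d' ≠ .E → OnSide d' (8 * w) v' →
      CorrSep w ρ' v' (ZS .E w ρ v) (ZS d' w ρ' v') →
      ∃ (d' : Side) (Zy : Set Vert) (Ny : Set Config), d' ≠ .E ∧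
        CorrData w ρ' v' d' Zy Ny ∧ CorrSep w ρ' v' (ZS .E w ρ v) Zy ∧ min c₁ c₂ ≤ Pr q Ny :=
    fun d' hd hO hS => ⟨d', _, _, hd, corr_straight h1 hw' hO, hS,
      (min_le_left _ _).trans (H₁ d' w ρ' n v' q h1 hρw h4 h5 hO hR)⟩
  rcases hside with h | h | h | h
  · exact straight .W (by simp) ⟨hv', h⟩ (sep_EW h1 h2 h3 hv ⟨hv', h⟩)
  · have hO : OnSide .E (8 * w) v' := ⟨hv', h⟩
    have h' : v'.2 < v.2 - 10 * ρ ∨ v.2 + 10 * ρ < v'.2 := by
      by_contra hcon
      push Not at hcon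
      refine hvv ?_
      rw [mem_ball]
      omega
    rcases h' with h' | h'
    · exact ⟨.S, _, _, by simp, corr_turn_S h1 hw' hO, sep_ETS h1 h2 h3 hv hO (by omega),
        (min_le_right _ _).trans (H₂ w ρ' n v' q h1 hρw h4 h5 hO hR).2⟩
    · exact ⟨.N, _, _, by simp, corr_turn_N h1 hw' hO, sep_ETN h1 h2 h3 hv hO h',
        (min_le_right _ _).trans (H₂ w ρ' n v' q h1 hρw h4 h5 hO hR).1⟩
  · exact straight .S (by simp) ⟨hv', h⟩ (sep_ES h1 h2 h3 hv ⟨hv', h⟩ hvv)
  · exact straight .N (by simp) ⟨hv', h⟩ (sep_EN h1 h2 h3 hv ⟨hv', h⟩ hvv)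

end Pool.Agent.H83.SK.NG

end

section

/-!
# The straight corridors of the moves, probabilities
-/

open MeasureTheory ProbabilityTheory unitInterval

namespace Pool.Agent.H83.SK.NG

open Pool.Agent.H59.EX

open Pool.Agent.H89.Perc Pool.Agent.H61.NC
open Pool.Agent.H85.Strict (hv_meet)

open scoped Classical in
/-- Harris inequality with a lower bound. -/
theorem ms_and {q : I} {s t : Finset Edge} {A B : Set Config} {x y : ℝ} (hx : 0 ≤ x) (hy : 0 ≤ y)
    (hA : LocalOn s A ∧ Incr A ∧ x ≤ Pr q A) (hB : LocalOn t B ∧ Incr B ∧ y ≤ Pr q B) :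
    LocalOn (s ∪ t) (A ∩ B) ∧ Incr (A ∩ B) ∧ x * y ≤ Pr q (A ∩ B) :=
  ⟨hA.1.inter' hB.1, hA.2.1.inter hB.2.1,
    (mul_le_mul hA.2.2 hB.2.2 hy (hx.trans hA.2.2)).trans (fkg hA.1 hB.1 hA.2.1 hB.2.1)⟩

theorem prob_move (c : ℝ) (hc : 0 < c) (K : ℕ) : ∃ c' : ℝ, 0 < c' ∧ ∀ (d : Side) (k n : ℕ)
    (q : I), 4 ≤ k → k ≤ K * n → RSWreg c n q → c' ≤ Pr q (NM d k) ∧ c' ≤ Pr q (NT k) := by
  classical
  obtain ⟨c₀, hc₀, h⟩ := Pool.Agent.H83.SK.rect_lower c hc (32 * K + 20)
  refine ⟨min (c₀ * c₀) (c₀ * (c₀ * (c₀ * (c₀ * c₀)))), by positivity, ?_⟩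
  intro d k n q hk hkn hreg
  have hn : 1 ≤ n := by
    rcases Nat.eq_zero_or_pos n with h0 | h0
    · subst h0
      omega
    · exact h0
  have hknZ : (k : ℤ) ≤ K * n := by exact_mod_cast hkn
  have hK0 : (0 : ℤ) ≤ K := by positivity
  have hn0 : (0 : ℤ) ≤ n := by positivity
  have hl : ∀ a b y z : ℤ, a ≤ b → y < z → b - a ≤ 20 * (z - y) → z - y ≤ 32 * k →
      c₀ ≤ Pr q {ω | HCross ω a b y z} ∧ c₀ ≤ Pr q {ω | VCross ω y z a b} := by
    intro a b y z h1 h2 h3 h4
    refine h n q hn hreg a b y z h1 h2 ?_ ?_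
    · push_cast
      nlinarith [mul_nonneg hK0 (show (0 : ℤ) ≤ z - y by omega)]
    · push_cast
      nlinarith [mul_nonneg hK0 hn0]
  have hH : ∀ a b y z : ℤ, a ≤ b → y < z → b - a ≤ 20 * (z - y) → z - y ≤ 32 * k →
      LocalOn (eRect a b y z) {ω | HCross ω a b y z} ∧ Incr {ω | HCross ω a b y z} ∧
        c₀ ≤ Pr q {ω | HCross ω a b y z} :=
    fun a b y z h1 h2 h3 h4 => ⟨ms_local_h _ _ _ _, mt_incr_h, (hl a b y z h1 h2 h3 h4).1⟩
  have hV : ∀ y z a b : ℤ, a ≤ b → y < z → b - a ≤ 20 * (z - y) → z - y ≤ 32 * k →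
      LocalOn (eRect y z a b) {ω | VCross ω y z a b} ∧ Incr {ω | VCross ω y z a b} ∧
        c₀ ≤ Pr q {ω | VCross ω y z a b} :=
    fun y z a b h1 h2 h3 h4 => ⟨ms_local_v _ _ _ _, mt_incr_v, (hl a b y z h1 h2 h3 h4).2⟩
  have p2 : 0 ≤ c₀ * c₀ := by positivity
  have p3 : 0 ≤ c₀ * (c₀ * c₀) := by positivity
  have p4 : 0 ≤ c₀ * (c₀ * (c₀ * c₀)) := by positivity
  constructor
  · refine (min_le_left _ _).trans ?_
    cases d
    · exact (ms_and hc₀.le hc₀.le
        (hH (28 * k) (144 * k) (-(3 * k)) (3 * k) (by omega) (by omega) (by omega) (by omega))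
        (hV (112 * k) (144 * k) (-(12 * k)) (12 * k) (by omega) (by omega) (by omega)
          (by omega))).2.2
    · exact (ms_and hc₀.le hc₀.le
        (hV (-(3 * k)) (3 * k) (28 * k) (144 * k) (by omega) (by omega) (by omega) (by omega))
        (hH (-(12 * k)) (12 * k) (112 * k) (144 * k) (by omega) (by omega) (by omega)
          (by omega))).2.2
    · exact (ms_and hc₀.le hc₀.le
        (hH (-(144 * k)) (-(28 * k)) (-(3 * k)) (3 * k) (by omega) (by omega) (by omega)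
          (by omega))
        (hV (-(144 * k)) (-(112 * k)) (-(12 * k)) (12 * k) (by omega) (by omega) (by omega)
          (by omega))).2.2
    · exact (ms_and hc₀.le hc₀.le
        (hV (-(3 * k)) (3 * k) (-(144 * k)) (-(28 * k)) (by omega) (by omega) (by omega)
          (by omega))
        (hH (-(12 * k)) (12 * k) (-(144 * k)) (-(112 * k)) (by omega) (by omega) (by omega)
          (by omega))).2.2
  · refine (min_le_right _ _).trans ?_
    exact (ms_and hc₀.le p4
      (hH (28 * k) (64 * k) (-(3 * k)) (3 * k) (by omega) (by omega) (by omega) (by omega))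
      (ms_and hc₀.le p3
        (hV (60 * k) (64 * k) (-(3 * k)) (64 * k) (by omega) (by omega) (by omega) (by omega))
        (ms_and hc₀.le p2
          (hH (-(3 * k)) (64 * k) (60 * k) (64 * k) (by omega) (by omega) (by omega) (by omega))
          (ms_and hc₀.le hc₀.le
            (hV (-(3 * k)) (3 * k) (60 * k) (144 * k) (by omega) (by omega) (by omega) (by omega))
            (hH (-(12 * k)) (12 * k) (112 * k) (144 * k) (by omega) (by omega) (by omega)
              (by omega)))))).2.2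

end Pool.Agent.H83.SK.NG

end

section

/-!
# Site percolation on the torus: separated four arms, definitions

The torus of side `N` is `ℤ²` with the periodic configuration `per N ω = pb (modE N) ω` of sites. The
source is the closed site `0` with two of its neighbours; the first neighbour has its mouth in the
west, the second one in the east. The corridor is the horizontal strip `[28 k, N - 28 k] × [-3 k,
3 k]` from the east target to the translate by `(N, 0)` of the west target.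
-/

set_option autoImplicit false

open MeasureTheory ProbabilityTheory unitInterval

namespace Pool.Agent.H83.PST

open Pool.Agent.H89.Perc
open Pool.Agent.H61.NC (modE)
open Pool.Agent.H83.SK (sv sit sit_true RSWreg)
open Pool.Agent.H59.EX (LocS inE touch clus closeS Side T Mouth Fence dom pb grid)
open Pool.Agent.H38.N59 (vE rv fillS Src Sep FX FY det Seal Four)
open Pool.Agent.H26.ST (Cor glu PerInv sh TD Rel1 In)
open Pool.Agent.H92.SN (WindS tSites)

/-- The source `s` consists of the site `0` and two of its neighbours. -/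
structure IsSrc (s : Src) : Prop where
  x : ∃ e, Joins e s.x (0, 0)
  y : ∃ e, Joins e (0, 0) s.y
  V : s.V0 = {0}

/-- The sites of the corridor: those of the strip left of the translated west target, and those of
the west target. -/
def CC (N k : ℕ) : Set Vert := {v | (v ∈ Cor N k ∧ v.1 < N - 36 * k) ∨ v ∈ T .W k}

/-- The corridor is crossed. -/
def NpT (N k : ℕ) : Set Config :=
  {η | HCross (sit (glu N k η)) (28 * k) (N - 28 * k) (-(3 * k)) (3 * k)}

/-- A vertical strip off the corridor is not crossed. -/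
def NoX (N k : ℕ) : Set Config :=
  {η | ¬ HCross (sit η) (40 * k) (50 * k) (3 * k + 1) (N - 3 * k - 1)}

/-- Seals and a closed vertical strip. -/
def HT (N k ρ K : ℕ) (S : Set Vert) : Set Config :=
  Seal (grid ρ K) ρ (det (modE N) .W .E k (CC N k) S) ∩ NoX N k

theorem perInv_sit {N : ℕ} {w : Config} (h : PerInv N w) : PerInv N (sit w) := by
  intro z e
  have h1 : (fun f => w (shiftE (z.1 * N, z.2 * N) f)) = w := by
    funext f
    exact h z f
  have h2 := congrFun (Pool.Agent.H92.SN.sit_shiftE (z.1 * N, z.2 * N) w) e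
  rw [h1] at h2
  exact h2.symm

theorem per_sv_sh {N : ℕ} {w : Config} (h : PerInv N w) (z : ℤ × ℤ) (v : Vert) :
    w (sv (sh N z v)) = w (sv v) := by
  have h1 := Pool.Agent.H26.ST.per_sh h z (sv v)
  have h2 : shiftE (-(z.1 * N), -(z.2 * N)) (sv v) = sv (sh N z v) := by
    simp only [shiftE, sv, sh, Prod.mk.injEq]
    exact ⟨by ring, by ring, trivial⟩
  rw [h2] at h1
  exact h1

end Pool.Agent.H83.PST

end
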