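import Pool.Agent.H31.PT.M12
import Pool.Agent.H31.PT.M15
import Pool.Agent.H31.PT.M18

/-! The parts of this file: H83.SK.P29.BlockAnn, H83.SK.P29.OuterSplit, H83.SK.P29.QM, H38.SK.N59.Iter0, H38.SK.N59.MoveCore, H38.SK.N59.Moves. -/

section

/-!
# A pivotal block of the torus is surrounded by two distinct crossing clusters
-/

open MeasureTheory ProbabilityTheory unitInterval

namespace Pool.Agent.H83.SK

open Pool.Agent.H29.Sep

open Pool.Agent.H89.Perc Pool.Agent.H61.NC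

private lemma blockAnn_sphere {r : ℕ} {u v : Vert} :
    ((u.1 - v.1, u.2 - v.2) : Vert) ∈ sphere 0 r ↔ u ∈ sphere v r := by
  simp only [sphere, ball, rect, Set.mem_ofPred_eq, Prod.fst_zero, Prod.snd_zero]
  omega

private lemma blockAnn_dom {t R : ℕ} {u v : Vert} :
    ((u.1 - v.1, u.2 - v.2) : Vert) ∈ dom t R ↔ u ∈ Pool.Agent.H61.NC.Ring v t R := by
  simp only [dom, Pool.Agent.H61.NC.Ring, ball, rect, Set.mem_sdiff, Set.mem_ofPred_eq,
    Prod.fst_zero, Prod.snd_zero]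
  omega

/-- The annulus events at `v` and at `0`. -/
private lemma blockAnn_shift {ω : Config} {v : Vert} {t R : ℕ} (h : ω ∈ Two v t R) :
    (fun e => ω (shiftE v e)) ∈ A2 t R := by
  obtain ⟨u, u', hu, hu', ⟨w, hw, h1⟩, ⟨w', hw', h2⟩, h3⟩ := h
  have hset : {w : Vert | (w.1 - v.1, w.2 - v.2) ∈ dom t R} = Pool.Agent.H61.NC.Ring v t R := by
    ext w
    exact blockAnn_dom
  have key : ∀ x y : Vert, Conn (fun e => ω (shiftE v e)) (dom t R)
      (x.1 - v.1, x.2 - v.2) (y.1 - v.1, y.2 - v.2) ↔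
      Conn ω (Pool.Agent.H61.NC.Ring v t R) x y := by
    intro x y
    rw [conn_shift v (dom t R), hset]
    simp only [sub_add_cancel, Prod.mk.eta]
  refine ⟨_, blockAnn_sphere.2 hw, _, blockAnn_sphere.2 hw', _, blockAnn_sphere.2 hu, _,
    blockAnn_sphere.2 hu', (key _ _).2 h1.symm, (key _ _).2 h2.symm, ?_⟩
  rw [key]
  exact fun h4 => h3 ((h1.trans h4).trans h2.symm)

private lemma blockAnn_local (t R : ℕ) : LocalOn (eRect (-R) R (-R) R) (A2 t R) := by
  rintro ω ω' h ⟨u, hu, u', hu', v, hv, v', hv', h1, h2, h3⟩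
  have hmem : ∀ e : Edge, src e ∈ dom t R → e ∈ eRect (-(R : ℤ)) R (-R) R := by
    intro e he
    rw [mem_eRect]
    have := he.1
    simp only [ball, rect, Set.mem_ofPred_eq, Prod.fst_zero, Prod.snd_zero] at this ⊢
    omega
  refine ⟨u, hu, u', hu', v, hv, v', hv', h1.congr fun e he _ => h e (hmem e he),
    h2.congr fun e he _ => h e (hmem e he), fun h4 => h3 ?_⟩
  exact h4.congr fun e he _ => (h e (hmem e he)).symm

theorem sitT_shift (N : ℕ) (v : Vert) (ω : Config) :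
    (fun e => sitT N ω (shiftE v e)) = sit (fun e => ω (modE N (shiftE v e))) := by
  funext ⟨x, y, b⟩
  cases b
  · simp only [sitT, per, sit, sv, src, tgt, shiftE, modE, Bool.false_eq_true, if_false]
    rw [show x + v.1 + 1 = x + 1 + v.1 by ring]
  · simp only [sitT, per, sit, sv, src, tgt, shiftE, modE, if_true]
    rw [show y + v.2 + 1 = y + 1 + v.2 by ring]

/-- Local events at an arbitrary place of the torus. -/
theorem PrT_shift_eq {N : ℕ} {q : I} {s : Finset Edge} {A : Set Config} (v : Vert)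
    (hA : LocalOn s A) (hinj : Set.InjOn (fun e => modE N (shiftE v e)) (hull s : Set Edge)) :
    PrT N q {η | (fun e => η (shiftE v e)) ∈ A} = Pr q A := by
  unfold PrT Pr
  have h1 : {ω : Config | sitT N ω ∈ {η : Config | (fun e => η (shiftE v e)) ∈ A}} =
      {ω : Config | (fun e => ω (modE N (shiftE v e))) ∈ {ω | sit ω ∈ A}} := by
    ext ω
    simp only [Set.mem_ofPred_eq]
    rw [sitT_shift]
  rw [h1]
  exact Pool.Agent.H89.Perc.Pr_comp (s := hull s) (localOn_sit hA) hinj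

theorem mem_blkS {N r : ℕ} {e : Edge} : e ∈ blkS N r ↔
    e.2.2 = false ∧ mid N - r ≤ e.1 ∧ e.1 ≤ mid N + r ∧ mid N - r ≤ e.2.1 ∧ e.2.1 ≤ mid N + r := by
  classical
  unfold blkS
  rw [Finset.mem_filter, blk, mem_eRect]
  simp only [src, rect, Set.mem_ofPred_eq]
  tauto

theorem mem_blk {N r : ℕ} {e : Edge} : e ∈ blk N r ↔
    mid N - r ≤ e.1 ∧ e.1 ≤ mid N + r ∧ mid N - r ≤ e.2.1 ∧ e.2.1 ≤ mid N + r := by
  unfold blk
  rw [mem_eRect]
  simp only [src, rect, Set.mem_ofPred_eq]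

/-- If the reduced edge is not in the larger block, the two sites are not in the block. -/
theorem blk_off {N ρ : ℕ} (hN : 2 * ρ + 2 ≤ N) {e : Edge} (he : modE N e ∉ blk N (ρ + 1)) :
    modE N (sv (src e)) ∉ blkS N ρ ∧ modE N (sv (tgt e)) ∉ blkS N ρ := by
  have hN' : (2 * ρ + 2 : ℤ) ≤ N := by exact_mod_cast hN
  have hmid : (ρ : ℤ) + 1 ≤ mid N := by
    unfold mid
    omega
  have hN0 : (0 : ℤ) < N := by omega
  have hdec : ∀ z : ℤ, 1 ≤ (z + 1) % N → z % N = (z + 1) % N - 1 := by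
    intro z hz
    have h1 := Int.emod_lt_of_pos (z + 1) hN0
    have h2 : ((z + 1) - 1) % N = ((z + 1) % N - 1) % N :=
      (Int.emod_sub_emod (z + 1) N 1).symm
    rw [add_sub_cancel_right] at h2
    rw [h2]
    exact Int.emod_eq_of_lt (by omega) (by omega)
  obtain ⟨x, y, b⟩ := e
  rw [mem_blk] at he
  rw [mem_blkS, mem_blkS]
  push_cast at he
  cases b
  · simp only [modE, sv, src, tgt, Bool.false_eq_true, if_false, true_and] at he ⊢
    constructor
    · omega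
    · intro h
      have := hdec x (by omega)
      omega
  · simp only [modE, sv, src, tgt, if_true, true_and] at he ⊢
    constructor
    · omega
    · intro h
      have := hdec y (by omega)
      omega

theorem fill_apply (s : Finset Edge) (b : Bool) (ω : Config) (e : Edge) :
    (e ∈ s → fill s b ω e = b) ∧ (e ∉ s → fill s b ω e = ω e) := by
  classical
  unfold fill
  exact ⟨fun h => if_pos h, fun h => if_neg h⟩

theorem sitT_fill {N ρ : ℕ} (hN : 2 * ρ + 2 ≤ N) {e : Edge} (he : modE N e ∉ blk N (ρ + 1))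
    (b : Bool) (ω : Config) : sitT N (fill (blkS N ρ) b ω) e = sitT N ω e := by
  obtain ⟨h1, h2⟩ := blk_off hN he
  have e1 := (fill_apply (blkS N ρ) b ω (modE N (sv (src e)))).2 h1
  have e2 := (fill_apply (blkS N ρ) b ω (modE N (sv (tgt e)))).2 h2
  show (fill (blkS N ρ) b ω (modE N (sv (src e))) && fill (blkS N ρ) b ω (modE N (sv (tgt e)))) =
    (ω (modE N (sv (src e))) && ω (modE N (sv (tgt e))))
  rw [e1, e2]

theorem per_fill_sitT (N r : ℕ) (b : Bool) (ω : Config) (e : Edge) :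
    (modE N e ∈ blk N r → per N (fill (blk N r) b (sitT N ω)) e = b) ∧
      (modE N e ∉ blk N r → per N (fill (blk N r) b (sitT N ω)) e = sitT N ω e) := by
  constructor
  · intro h
    exact (fill_apply _ _ _ _).1 h
  · intro h
    have h1 : per N (fill (blk N r) b (sitT N ω)) e = sitT N ω (modE N e) :=
      (fill_apply _ _ _ _).2 h
    rw [h1]
    exact congrFun (per_sitT N ω) e

/-- The edges of the blocks: from the sites to the edges. -/
theorem blockPiv_bond {N ρ : ℕ} (hN : 2 * ρ + 2 ≤ N) {ω : Config} (h : ω ∈ BlockPiv N ρ) :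
    sitT N ω ∈ Pool.Agent.H61.NC.BlockPiv N (ρ + 1) := by
  obtain ⟨⟨u, a, b, ha, hc⟩, hno⟩ := h
  refine ⟨⟨u, a, b, ha, hc.mono le_rfl fun e he => ?_⟩, ?_⟩
  · rw [per_sitT] at he
    by_cases h1 : modE N e ∈ blk N (ρ + 1)
    · exact (per_fill_sitT N (ρ + 1) true ω e).1 h1
    · rw [(per_fill_sitT N (ρ + 1) true ω e).2 h1]
      rwa [sitT_fill hN h1] at he
  · rintro ⟨u', a', b', ha', hc'⟩
    refine hno ⟨u', a', b', ha', hc'.mono le_rfl fun e he => ?_⟩
    rw [per_sitT]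
    by_cases h1 : modE N e ∈ blk N (ρ + 1)
    · rw [(per_fill_sitT N (ρ + 1) false ω e).1 h1] at he
      exact absurd he (by simp)
    · rw [(per_fill_sitT N (ρ + 1) false ω e).2 h1] at he
      rwa [sitT_fill hN h1]

theorem modE_inj_box {N R : ℕ} (h3 : 2 * R + 1 ≤ N) :
    Set.InjOn (fun e => modE N (shiftE (mid N, mid N) e))
      {e : Edge | -(R : ℤ) ≤ e.1 ∧ e.1 ≤ R ∧ -(R : ℤ) ≤ e.2.1 ∧ e.2.1 ≤ R} := by
  intro e he e' he' hee
  simp only [Set.mem_ofPred_eq] at he he'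
  simp only [modE, shiftE, Prod.mk.injEq] at hee
  obtain ⟨x, y, d⟩ := e
  obtain ⟨x', y', d'⟩ := e'
  simp only at he he' hee
  obtain ⟨hx, hy, hd⟩ := hee
  have key : ∀ a b : ℤ, -(R : ℤ) ≤ a → a ≤ R → -(R : ℤ) ≤ b → b ≤ R →
      (a + mid N) % N = (b + mid N) % N → a = b := by
    intro a b ha1 ha2 hb1 hb2 hab
    have h5 : (N : ℤ) ∣ (b + mid N) - (a + mid N) :=
      Int.ModEq.dvd (show a + mid N ≡ b + mid N [ZMOD N] from hab)
    have h6 : (b + mid N) - (a + mid N) = b - a := by ring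
    rw [h6] at h5
    have h7 : |b - a| < N := by
      rw [abs_lt]
      constructor <;> omega
    have := Int.eq_zero_of_abs_lt_dvd h5 h7
    omega
  rw [key x x' he.1 he.2.1 he'.1 he'.2.1 hx, key y y' he.2.2.1 he.2.2.2 he'.2.2.1 he'.2.2.2 hy,
    hd]

/-- The sites of the edges in a box. -/
theorem hull_eRect (R : ℕ) : (hull (eRect (-(R : ℤ)) R (-(R : ℤ)) R) : Set Edge) ⊆
    {e : Edge | -((R + 1 : ℕ) : ℤ) ≤ e.1 ∧ e.1 ≤ (R + 1 : ℕ) ∧ -((R + 1 : ℕ) : ℤ) ≤ e.2.1 ∧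
      e.2.1 ≤ (R + 1 : ℕ)} := by
  intro g hg
  rw [Finset.mem_coe, mem_hull] at hg
  obtain ⟨⟨x, y, d⟩, he, hg⟩ := hg
  rw [mem_eRect] at he
  simp only [src, rect, Set.mem_ofPred_eq] at he
  rcases hg with rfl | rfl
  · simp only [sv, src, Set.mem_ofPred_eq]
    push_cast
    omega
  · cases d
    · simp only [sv, tgt, Bool.false_eq_true, if_false, Set.mem_ofPred_eq]
      push_cast
      omega
    · simp only [sv, tgt, if_true, Set.mem_ofPred_eq]
      push_cast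
      omega

theorem blockPiv_le {N ρ R : ℕ} (q : I) (h1 : 1 ≤ ρ) (h2 : ρ + 3 ≤ R) (h3 : 4 * R ≤ N) :
    Pool.Agent.H89.Perc.Pr q (BlockPiv N ρ) ≤ Pr q (A2 (ρ + 3) R) := by
  have hinj : Set.InjOn (fun e => modE N (shiftE (mid N, mid N) e))
      (hull (eRect (-(R : ℤ)) R (-R) R) : Set Edge) :=
    (modE_inj_box (R := R + 1) (by omega)).mono (hull_eRect R)
  rw [← PrT_shift_eq (mid N, mid N) (blockAnn_local (ρ + 3) R) hinj]
  refine Pool.Agent.H89.Perc.Pr_mono fun ω hω => ?_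
  have h4 := blockPiv_bond (by omega) hω
  have h5 := two_of_blockPiv (N := N) (R := ρ + 1) (t := ρ + 3) (R' := R) (by omega) h2
    (by omega) h4
  rw [per_sitT] at h5
  exact blockAnn_shift h5

end Pool.Agent.H83.SK

end

section

/-!
# Outer decomposition of the annulus event into two-terminal events
-/

open MeasureTheory ProbabilityTheory unitInterval

namespace Pool.Agent.H83.SK

open Pool.Agent.H29.Sep

open Pool.Agent.H89.Perc Pool.Agent.H61.NC

private theorem OuterSplit_ball {v : Vert} {r : ℕ} : v ∈ ball (0 : Vert) r ↔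
    -(r : ℤ) ≤ v.1 ∧ v.1 ≤ r ∧ -(r : ℤ) ≤ v.2 ∧ v.2 ≤ r := by
  rw [mem_ball]
  simp

private theorem OuterSplit_sphere {v : Vert} {r : ℕ} : v ∈ sphere (0 : Vert) r ↔
    (-(r : ℤ) ≤ v.1 ∧ v.1 ≤ r ∧ -(r : ℤ) ≤ v.2 ∧ v.2 ≤ r) ∧
      (v.1 = -(r : ℤ) ∨ v.1 = r ∨ v.2 = -(r : ℤ) ∨ v.2 = r) := by
  rw [← OuterSplit_ball]
  show v ∈ ball 0 r ∧ _ ↔ _
  simp

/-- points of the sphere in distance at most `s` of every point of the sphere -/
private theorem OuterSplit_net (M R s : ℕ) (hs : 1 ≤ s) (hRs : 2 * R ≤ s * (4 * M)) :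
    ∃ Z : Finset Vert, Z.card ≤ 4 * (4 * M + 1) ∧ (∀ z ∈ Z, z ∈ sphere 0 R) ∧
      ∀ u ∈ sphere 0 R, ∃ z ∈ Z, u ∈ ball z s := by
  classical
  obtain ⟨y, hy⟩ : ∃ y : ℕ → ℤ, ∀ i, y i = min (-(R : ℤ) + i * s) R := ⟨_, fun _ => rfl⟩
  have hyb : ∀ i, -(R : ℤ) ≤ y i ∧ y i ≤ R := by
    intro i
    rw [hy]
    refine ⟨le_min ?_ (by omega), min_le_right _ _⟩
    have : (0 : ℤ) ≤ (i : ℤ) * s := by positivity
    omega
  have hnear : ∀ x : ℤ, -(R : ℤ) ≤ x → x ≤ R → ∃ i ∈ Finset.range (4 * M + 1),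
      y i ≤ x ∧ x ≤ y i + s := by
    intro x hx1 hx2
    obtain ⟨m, hm⟩ : ∃ m : ℕ, (m : ℤ) = x + R := ⟨(x + R).toNat, by omega⟩
    refine ⟨m / s, ?_, ?_⟩
    · rw [Finset.mem_range, Nat.lt_succ_iff]
      apply Nat.div_le_of_le_mul
      omega
    · have h1 := Nat.div_add_mod m s
      have h2 := Nat.mod_lt m (show 0 < s by omega)
      have h3 : ((m / s : ℕ) : ℤ) * s + ((m % s : ℕ) : ℤ) = m := by
        rw [mul_comm]
        exact_mod_cast h1
      have h4 : ((m % s : ℕ) : ℤ) < s := by exact_mod_cast h2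
      have h5 : (0 : ℤ) ≤ ((m % s : ℕ) : ℤ) := by positivity
      have h6 : y (m / s) = -(R : ℤ) + ((m / s : ℕ) : ℤ) * s := by
        rw [hy]
        apply min_eq_left
        linarith
      rw [h6]
      constructor
      · linarith
      · linarith
  refine ⟨(((Finset.range (4 * M + 1)).image (fun i => ((R : ℤ), y i)) ∪
    (Finset.range (4 * M + 1)).image (fun i => (-(R : ℤ), y i))) ∪
    (Finset.range (4 * M + 1)).image (fun i => (y i, (R : ℤ)))) ∪
    (Finset.range (4 * M + 1)).image (fun i => (y i, -(R : ℤ))), ?_, ?_, ?_⟩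
  · have hc : ∀ f : ℕ → Vert, ((Finset.range (4 * M + 1)).image f).card ≤ 4 * M + 1 := fun f =>
      (Finset.card_image_le).trans (by rw [Finset.card_range])
    refine (Finset.card_union_le _ _).trans ?_
    have h1 := hc (fun i => (y i, -(R : ℤ)))
    have h2 := hc (fun i => (y i, (R : ℤ)))
    have h3 := hc (fun i => (-(R : ℤ), y i))
    have h4 := hc (fun i => ((R : ℤ), y i))
    have h5 := Finset.card_union_le ((Finset.range (4 * M + 1)).image (fun i => ((R : ℤ), y i)) ∪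
      (Finset.range (4 * M + 1)).image (fun i => (-(R : ℤ), y i)))
      ((Finset.range (4 * M + 1)).image (fun i => (y i, (R : ℤ))))
    have h6 := Finset.card_union_le ((Finset.range (4 * M + 1)).image (fun i => ((R : ℤ), y i)))
      ((Finset.range (4 * M + 1)).image (fun i => (-(R : ℤ), y i)))
    omega
  · intro z hz
    simp only [Finset.mem_union, Finset.mem_image] at hz
    rw [OuterSplit_sphere]
    have hR0 : (0 : ℤ) ≤ R := by positivity
    rcases hz with ((⟨i, -, rfl⟩ | ⟨i, -, rfl⟩) | ⟨i, -, rfl⟩) | ⟨i, -, rfl⟩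
    · obtain ⟨h1, h2⟩ := hyb i
      exact ⟨⟨by simp only; omega, by simp only; omega, h1, h2⟩, Or.inr (Or.inl rfl)⟩
    · obtain ⟨h1, h2⟩ := hyb i
      exact ⟨⟨by simp only; omega, by simp only; omega, h1, h2⟩, Or.inl rfl⟩
    · obtain ⟨h1, h2⟩ := hyb i
      exact ⟨⟨h1, h2, by simp only; omega, by simp only; omega⟩, Or.inr (Or.inr (Or.inr rfl))⟩
    · obtain ⟨h1, h2⟩ := hyb i
      exact ⟨⟨h1, h2, by simp only; omega, by simp only; omega⟩, Or.inr (Or.inr (Or.inl rfl))⟩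
  · intro u hu
    rw [OuterSplit_sphere] at hu
    obtain ⟨⟨h1, h2, h3, h4⟩, h5⟩ := hu
    obtain ⟨i, hi, hi1, hi2⟩ := hnear u.1 h1 h2
    obtain ⟨j, hj, hj1, hj2⟩ := hnear u.2 h3 h4
    simp only [Finset.mem_union, Finset.mem_image]
    rcases h5 with h5 | h5 | h5 | h5
    · refine ⟨(-(R : ℤ), y j), Or.inl (Or.inl (Or.inr ⟨j, hj, rfl⟩)), ?_⟩
      rw [mem_ball]
      simp only
      omega
    · refine ⟨((R : ℤ), y j), Or.inl (Or.inl (Or.inl ⟨j, hj, rfl⟩)), ?_⟩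
      rw [mem_ball]
      simp only
      omega
    · refine ⟨(y i, -(R : ℤ)), Or.inr ⟨i, hi, rfl⟩, ?_⟩
      rw [mem_ball]
      simp only
      omega
    · refine ⟨(y i, (R : ℤ)), Or.inl (Or.inr ⟨i, hi, rfl⟩), ?_⟩
      rw [mem_ball]
      simp only
      omega

/-- the local event in a box of the decomposition -/
private theorem OuterSplit_bad {ω : Config} {t R s : ℕ} (h1 : 1 ≤ t) (h2 : 4 * t ≤ R)
    (hs : s ≤ R / 2) {z u u' v v' v0 : Vert} (hz : z ∈ sphere 0 R)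
    (hv : v ∈ sphere 0 t) (hv' : v' ∈ sphere 0 t) (huv : Conn ω (dom t R) u v)
    (huv' : Conn ω (dom t R) u' v') (huu : ¬ Conn ω (dom t R) u u') (hu' : u' ∈ ball z s)
    (hv0 : v0 ∈ ball z s) (huv0 : Conn ω (dom t R) u v0) :
    ω ∈ LocTwo (ball 0 R) z s (R / 2) := by
  have hR : ((R / 2 : ℕ) : ℤ) * 2 ≤ R := by
    have := Nat.div_mul_le_self R 2
    exact_mod_cast this
  have hsR : (s : ℤ) ≤ ((R / 2 : ℕ) : ℤ) := by exact_mod_cast hs
  have h2' : 4 * (t : ℤ) ≤ R := by exact_mod_cast h2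
  have h1' : 1 ≤ (t : ℤ) := by exact_mod_cast h1
  rw [OuterSplit_sphere] at hz
  have hout : ∀ w ∈ sphere (0 : Vert) t, w ∉ ball z (R / 2) := by
    intro w hw hw2
    rw [OuterSplit_sphere] at hw
    rw [mem_ball] at hw2
    omega
  have hin : ∀ w, w ∈ ball z s → w ∈ ball z (R / 2) := by
    intro w hw
    rw [mem_ball] at hw ⊢
    omega
  obtain ⟨x, hx, hcx⟩ := (huv0.symm.trans huv).to_sphere (v := z) (r := R / 2) (hin _ hv0)
    (Or.inl (hout v hv))
  obtain ⟨x', hx', hcx'⟩ := huv'.to_sphere (v := z) (r := R / 2) (hin _ hu') (Or.inl (hout v' hv'))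
  have hsub : dom t R ∩ ball z (R / 2) ⊆ ball 0 R ∩ ball z (R / 2) :=
    fun w hw => ⟨hw.1.1, hw.2⟩
  refine ⟨v0, hv0, u', hu', x, hx, x', hx', hcx.mono_set hsub, hcx'.mono_set hsub, ?_⟩
  intro h3
  apply huu
  refine huv0.trans (h3.mono_set ?_)
  rintro w ⟨hw1, hw2⟩
  refine ⟨hw1, fun hw3 => ?_⟩
  rw [OuterSplit_ball] at hw3
  rw [mem_ball] at hw2
  omega

/-- Outer decomposition. -/
theorem outer_split (hB : BadIn) : ∀ c ε : ℝ, 0 < c → 0 < ε → ∃ J R₀ : ℕ,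
    ∀ (n t R : ℕ) (q : I), 1 ≤ t → 4 * t ≤ R → R₀ ≤ R → R ≤ n → RSWreg c n q →
      ∃ F : Finset (Set Vert), F.card ≤ J ∧ (∀ β ∈ F, β ⊆ sphere 0 R) ∧
        Pr q (A2 t R) ≤ ∑ β ∈ F, ∑ γ ∈ F, Pr q (BT t R β γ) + ε * Pr q (A2 t (R / 4)) := by
  classical
  intro c ε hc hε
  obtain ⟨C, κ, hC, hκ, hbad⟩ := hB c hc
  -- the choice of the number of boxes
  obtain ⟨δ, hδ⟩ : ∃ δ : ℝ, δ = ε / (3 * C) := ⟨_, rfl⟩
  have hδ0 : 0 < δ := by rw [hδ]; positivity
  obtain ⟨M, hM⟩ := exists_nat_ge (max 2 (3 / δ ^ (1 / κ)))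
  have hM2 : (2 : ℝ) ≤ M := (le_max_left _ _).trans hM
  have hM2' : 2 ≤ M := by exact_mod_cast hM2
  have hMpos : (0 : ℝ) < M := by linarith
  have hM3 : (3 / (M : ℝ)) ^ κ ≤ δ := by
    have h1 : 3 / δ ^ (1 / κ) ≤ M := (le_max_right _ _).trans hM
    have h2 : 0 < δ ^ (1 / κ) := Real.rpow_pos_of_pos hδ0 _
    have h3 : 3 / (M : ℝ) ≤ δ ^ (1 / κ) := by
      rw [div_le_iff₀ hMpos]
      rw [div_le_iff₀ h2] at h1
      linarith
    calc (3 / (M : ℝ)) ^ κ ≤ (δ ^ (1 / κ)) ^ κ :=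
          Real.rpow_le_rpow (by positivity) h3 hκ.le
      _ = δ := by
          rw [← Real.rpow_mul hδ0.le, one_div, inv_mul_cancel₀ hκ.ne', Real.rpow_one]
  refine ⟨4 * (4 * M + 1), max M 12, ?_⟩
  intro n t R q h1t h4t hMR' hRn hreg
  have hMR : M ≤ R := (le_max_left _ _).trans hMR'
  have hR12 : 12 ≤ R := (le_max_right _ _).trans hMR'
  obtain ⟨s, hs⟩ : ∃ s : ℕ, s = R / M := ⟨_, rfl⟩
  have hs1 : 1 ≤ s := by
    rw [hs]
    exact (Nat.one_le_div_iff (by omega)).2 hMR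
  have hsM : s * M ≤ R := by rw [hs]; exact Nat.div_mul_le_self R M
  have hsM2 : R < (s + 1) * M := by
    rw [hs]
    have := Nat.lt_div_mul_add (a := R) (b := M) (by omega)
    rw [add_mul, one_mul]
    omega
  have hs2 : s ≤ R / 2 := by
    rw [hs]
    exact Nat.div_le_div_left hM2' (by norm_num)
  obtain ⟨Z, hZc, hZs, hZn⟩ := OuterSplit_net M R s hs1 (by nlinarith)
  refine ⟨Z.image (fun z => sphere 0 R ∩ ball z s), (Finset.card_image_le).trans hZc, ?_, ?_⟩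
  · intro β hβ
    obtain ⟨z, -, rfl⟩ := Finset.mem_image.1 hβ
    exact Set.inter_subset_left
  obtain ⟨F, hF⟩ : ∃ F : Finset (Set Vert), F = Z.image (fun z => sphere 0 R ∩ ball z s) :=
    ⟨_, rfl⟩
  rw [← hF]
  obtain ⟨Bd, hBd⟩ : ∃ Bd : Set Config,
      Bd = {ω | ∃ z ∈ sphere 0 R, ω ∈ LocTwo (ball 0 R) z s (R / 2)} := ⟨_, rfl⟩
  have hcover : A2 t R ⊆ (⋃ β ∈ F, ⋃ γ ∈ F, BT t R β γ) ∪ (Bd ∩ A2 t (R / 4)) := by
    intro ω hω
    have hω' := hω
    obtain ⟨u, hu, u', hu', v, hv, v', hv', h5, h6, h7⟩ := hω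
    obtain ⟨z0, hz0, hz0u⟩ := hZn u hu
    obtain ⟨z, hz, hzu⟩ := hZn u' hu'
    by_cases h8 : ∀ w ∈ sphere 0 R ∩ ball z s, ¬ Conn ω (dom t R) u w
    · left
      simp only [Set.mem_iUnion]
      refine ⟨sphere 0 R ∩ ball z0 s, ?_, sphere 0 R ∩ ball z s, ?_, ?_⟩
      · rw [hF]
        exact Finset.mem_image_of_mem _ hz0
      · rw [hF]
        exact Finset.mem_image_of_mem _ hz
      · exact ⟨⟨u, ⟨hu, hz0u⟩, v, hv, h5, h8⟩, u', ⟨hu', hzu⟩, v', hv', h6⟩
    · right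
      push Not at h8
      obtain ⟨v0, ⟨-, hv0⟩, h9⟩ := h8
      refine ⟨?_, ?_⟩
      · rw [hBd]
        exact ⟨z, hZs z hz, OuterSplit_bad h1t h4t hs2 (hZs z hz) hv hv' h5 h6 h7 hzu hv0 h9⟩
      · refine A2_mono h1t le_rfl ?_ (Nat.div_le_self R 4) hω'
        omega
  -- the bad event is independent of the inner event
  obtain ⟨S1, hS1⟩ : ∃ S1 : Finset Edge, S1 = (eRect (-(R : ℤ)) R (-(R : ℤ)) R).filter
      (fun e => src e ∉ ball (0 : Vert) (R / 4 + 2)) := ⟨_, rfl⟩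
  have hloc : LocalOn S1 Bd := by
    have key : ∀ ω ω' : Config, (∀ e ∈ S1, ω e = ω' e) → ∀ z ∈ sphere (0 : Vert) R,
        ∀ u v : Vert, Conn ω (ball 0 R ∩ ball z (R / 2)) u v →
          Conn ω' (ball 0 R ∩ ball z (R / 2)) u v := by
      intro ω ω' h z hz u v hc
      refine Conn.congr (fun e he _ => h e ?_) hc
      rw [hS1, Finset.mem_filter]
      refine ⟨mem_eRect.2 (OuterSplit_ball.1 he.1), fun h9 => ?_⟩
      have h10 := he.2
      rw [OuterSplit_sphere] at hz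
      rw [OuterSplit_ball] at h9
      rw [mem_ball] at h10
      omega
    rw [hBd]
    rintro ω ω' h ⟨z, hz, u, hu, u', hu', v, hv, v', hv', h5, h6, h7⟩
    exact ⟨z, hz, u, hu, u', hu', v, hv, v', hv', key ω ω' h z hz _ _ h5, key ω ω' h z hz _ _ h6,
      fun h8 => h7 (key ω' ω (fun e he => (h e he).symm) z hz _ _ h8)⟩
  have hdisj : Disjoint (hull S1) (hull (eRect (-((R / 4 : ℕ) : ℤ)) ((R / 4 : ℕ) : ℤ)
      (-((R / 4 : ℕ) : ℤ)) ((R / 4 : ℕ) : ℤ))) := by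
    refine (disj_hull_of (S := ball 0 (R / 4 + 1)) ?_ ?_).symm
    · intro e he
      rw [mem_eRect] at he
      obtain ⟨x, y, b⟩ := e
      cases b <;> simp only [src, tgt, rect, Set.mem_ofPred_eq, OuterSplit_ball, if_true,
        Bool.false_eq_true, if_false] at he ⊢ <;> push_cast <;> omega
    · intro e he
      rw [hS1, Finset.mem_filter] at he
      obtain ⟨-, he⟩ := he
      obtain ⟨x, y, b⟩ := e
      cases b <;> simp only [src, tgt, OuterSplit_ball, if_true,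
        Bool.false_eq_true, if_false] at he ⊢ <;> push_cast at he ⊢ <;> omega
  have hind : Pr q (Bd ∩ A2 t (R / 4)) = Pr q Bd * Pr q (A2 t (R / 4)) :=
    Pr_inter_of_disjoint hloc localOn_A2 hdisj
  have hR2 : 2 ≤ R := by omega
  have hsmall : Pr q Bd ≤ ε := by
    have h5 := hbad n s (R / 2) R q hs1 hs2 (by omega) hRn hreg
    rw [← hBd] at h5
    refine h5.trans ?_
    have hρ : (R : ℝ) ≤ 3 * ((R / 2 : ℕ) : ℝ) := by
      have : R ≤ 3 * (R / 2) := by omega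
      exact_mod_cast this
    have hRpos : (0 : ℝ) < R := by
      have : 0 < R := by omega
      exact_mod_cast this
    have hρpos : (0 : ℝ) < ((R / 2 : ℕ) : ℝ) := by linarith
    have h6 : (R : ℝ) / ((R / 2 : ℕ) : ℝ) ≤ 3 := by
      rw [div_le_iff₀ hρpos]
      exact hρ
    have h7 : (s : ℝ) / ((R / 2 : ℕ) : ℝ) ≤ 3 / M := by
      rw [div_le_div_iff₀ hρpos hMpos]
      have h8 : (s : ℝ) * M ≤ R := by exact_mod_cast hsM
      linarith
    have h8 : ((s : ℝ) / ((R / 2 : ℕ) : ℝ)) ^ κ ≤ δ :=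
      (Real.rpow_le_rpow (by positivity) h7 hκ.le).trans hM3
    calc C * ((R : ℝ) / ((R / 2 : ℕ) : ℝ)) * ((s : ℝ) / ((R / 2 : ℕ) : ℝ)) ^ κ
        ≤ C * 3 * δ := by
          refine mul_le_mul (mul_le_mul_of_nonneg_left h6 hC.le) h8
            (Real.rpow_nonneg (by positivity) _) (by positivity)
      _ = ε := by
          rw [hδ]
          field_simp
  calc Pr q (A2 t R) ≤ Pr q ((⋃ β ∈ F, ⋃ γ ∈ F, BT t R β γ) ∪ (Bd ∩ A2 t (R / 4))) :=
        Pr_mono hcover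
    _ ≤ Pr q (⋃ β ∈ F, ⋃ γ ∈ F, BT t R β γ) + Pr q (Bd ∩ A2 t (R / 4)) := Pr_union_le
    _ ≤ ∑ β ∈ F, ∑ γ ∈ F, Pr q (BT t R β γ) + ε * Pr q (A2 t (R / 4)) := by
        refine add_le_add ?_ ?_
        · refine (Pr_biUnion_le F _).trans (Finset.sum_le_sum fun β _ => ?_)
          exact Pr_biUnion_le F _
        · rw [hind]
          exact mul_le_mul_of_nonneg_right hsmall Pr_nonneg

end Pool.Agent.H83.SK

end

section

/-!
# Quasi-multiplicativity for the planar annulus and the gluing inequality on the torus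
-/

open MeasureTheory ProbabilityTheory unitInterval

namespace Pool.Agent.H83.SK

open Pool.Agent.H29.Sep

open Pool.Agent.H89.Perc Pool.Agent.H61.NC

/-- Iterated regularity. -/
theorem reg_iter {C₁ : ℝ} (hC₁ : 1 ≤ C₁) {n : ℕ} {q : I}
    (H : ∀ r : ℕ, 1 ≤ r → 64 * r ≤ n → a4 q r ≤ C₁ * a4 q (4 * r)) (j : ℕ) :
    ∀ r ρ : ℕ, 1 ≤ r → r ≤ ρ → ρ ≤ 4 ^ j * r → 64 * ρ ≤ n + 64 → a4 q r ≤ C₁ ^ j * a4 q ρ := by
  induction j with
  | zero =>
    intro r ρ h1 h2 h3 _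
    have : r = ρ := by
      have : 4 ^ 0 * r = r := by simp
      omega
    subst this
    simp
  | succ j ih =>
    intro r ρ h1 h2 h3 h4
    rcases h2.eq_or_lt with h | h
    · subst h
      have : (1 : ℝ) ≤ C₁ ^ (j + 1) := one_le_pow₀ hC₁
      nlinarith [a4_nn q r]
    · have h5 : 64 * r ≤ n := by omega
      have h6 := H r h1 h5
      rcases Nat.lt_or_ge (4 * r) ρ with h7 | h7
      · have h8 := ih (4 * r) ρ (by omega) h7.le (by
          have : 4 ^ (j + 1) * r = 4 ^ j * (4 * r) := by ring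
          omega) h4
        calc a4 q r ≤ C₁ * a4 q (4 * r) := h6
          _ ≤ C₁ * (C₁ ^ j * a4 q ρ) := by
              apply mul_le_mul_of_nonneg_left h8 (by linarith)
          _ = C₁ ^ (j + 1) * a4 q ρ := by ring
      · have h8 : a4 q (4 * r) ≤ a4 q ρ := a4_anti (by omega) h7
        have h9 : (1 : ℝ) ≤ C₁ ^ j := one_le_pow₀ hC₁
        calc a4 q r ≤ C₁ * a4 q (4 * r) := h6
          _ ≤ C₁ * a4 q ρ := mul_le_mul_of_nonneg_left h8 (by linarith)
          _ = C₁ * (1 * a4 q ρ) := by ring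
          _ ≤ C₁ * (C₁ ^ j * a4 q ρ) := by
              apply mul_le_mul_of_nonneg_left _ (by linarith)
              exact mul_le_mul_of_nonneg_right h9 (a4_nn q ρ)
          _ = C₁ ^ (j + 1) * a4 q ρ := by ring

/-- One step of the absorption. -/
theorem qm_step {c : ℝ} {C₁ C₂ ε ε₂ : ℝ} {J R₀ k₀ n : ℕ} {q : I}
    (hR : RSWreg c n q) (hε : 0 ≤ ε) (hC₁ : 1 ≤ C₁) (hC₂ : 0 ≤ C₂)
    (H1 : ∀ r : ℕ, 1 ≤ r → 64 * r ≤ n → a4 q r ≤ C₁ * a4 q (4 * r))
    (H2 : ∀ (t R : ℕ), 1 ≤ t → 4 * t ≤ R → R₀ ≤ R → R ≤ n →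
      ∃ F : Finset (Set Vert), F.card ≤ J ∧ (∀ β ∈ F, β ⊆ sphere 0 R) ∧
        Pr q (A2 t R) ≤ ∑ β ∈ F, ∑ γ ∈ F, Pr q (BT t R β γ) + ε₂ * Pr q (A2 t (R / 4)))
    (H3 : ∀ (k R : ℕ) (L K : Set Vert), k₀ ≤ k → 64 * 4 ^ k ≤ R → R ≤ n →
      L ⊆ sphere 0 R → K ⊆ sphere 0 R →
      a4 q (4 ^ k) * Pr q (BT (4 * 4 ^ k) R L K) ≤
        C₂ * a4 q R + ε * (a4 q (4 ^ (k - 1)) * Pr q (BT (16 * 4 ^ k) R L K)))
    {k m : ℕ} (hk : k₀ ≤ k) (hk1 : 1 ≤ k) (hkm : k + 3 ≤ m) (hm : R₀ ≤ 4 ^ m) (hmn : 4 * 4 ^ m ≤ n) :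
    a4 q (4 ^ k) * Pr q (A2 (4 * 4 ^ k) (4 ^ m)) ≤
      (J : ℝ) ^ 2 * C₂ * a4 q (4 ^ m) +
      (J : ℝ) ^ 2 * ε * C₁ ^ 2 * (a4 q (4 ^ (k + 1)) * Pr q (A2 (4 * 4 ^ (k + 1)) (4 ^ m))) +
      ε₂ * (a4 q (4 ^ k) * Pr q (A2 (4 * 4 ^ k) (4 ^ (m - 1)))) := by
  obtain ⟨i, rfl⟩ : ∃ i, m = k + 3 + i := ⟨m - (k + 3), by omega⟩
  obtain ⟨k', rfl⟩ : ∃ k', k = k' + 1 := ⟨k - 1, by omega⟩
  set m := k' + 1 + 3 + i with hmdef
  have e64 : 64 * 4 ^ (k' + 1) ≤ 4 ^ m := by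
    rw [hmdef]
    have : 4 ^ (k' + 1 + 3 + i) = 64 * 4 ^ (k' + 1) * 4 ^ i := by ring
    rw [this]
    exact Nat.le_mul_of_pos_right _ (by positivity)
  have hdiv : 4 ^ m / 4 = 4 ^ (m - 1) := by
    have : m = (m - 1) + 1 := by omega
    conv_lhs => rw [this, pow_succ]
    simp
  obtain ⟨F, hF1, hF2, hF3⟩ := H2 (4 * 4 ^ (k' + 1)) (4 ^ m) (by
    have : 0 < 4 ^ (k' + 1) := by positivity
    omega) (by omega) hm (by omega)
  rw [hdiv] at hF3
  have hA : 0 ≤ a4 q (4 ^ (k' + 1)) := a4_nn _ _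
  have hreg : a4 q (4 ^ k') ≤ C₁ ^ 2 * a4 q (4 ^ (k' + 1 + 1)) := by
    refine reg_iter hC₁ H1 2 (4 ^ k') (4 ^ (k' + 1 + 1)) (Nat.one_le_pow _ _ (by norm_num)) ?_ ?_ ?_
    · exact Nat.pow_le_pow_right (by norm_num) (by omega)
    · rw [pow_succ, pow_succ]; ring_nf; exact le_rfl
    · have h6 : 64 * 4 ^ (k' + 1 + 1) = 4 * (64 * 4 ^ (k' + 1)) := by ring
      omega
  have e16 : 16 * 4 ^ (k' + 1) = 4 * 4 ^ (k' + 1 + 1) := by ring
  have key : ∀ β ∈ F, ∀ γ ∈ F, a4 q (4 ^ (k' + 1)) * Pr q (BT (4 * 4 ^ (k' + 1)) (4 ^ m) β γ) ≤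
      C₂ * a4 q (4 ^ m) + ε * (C₁ ^ 2 *
        (a4 q (4 ^ (k' + 1 + 1)) * Pr q (A2 (4 * 4 ^ (k' + 1 + 1)) (4 ^ m)))) := by
    intro β hβ γ hγ
    refine (H3 (k' + 1) (4 ^ m) β γ hk e64 (by omega) (hF2 β hβ) (hF2 γ hγ)).trans ?_
    rw [Nat.add_sub_cancel, e16]
    have hb : Pr q (BT (4 * 4 ^ (k' + 1 + 1)) (4 ^ m) β γ) ≤
        Pr q (A2 (4 * 4 ^ (k' + 1 + 1)) (4 ^ m)) := Pr_mono (BT_subset_A2 (hF2 β hβ) (hF2 γ hγ))
    have : a4 q (4 ^ k') * Pr q (BT (4 * 4 ^ (k' + 1 + 1)) (4 ^ m) β γ) ≤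
        (C₁ ^ 2 * a4 q (4 ^ (k' + 1 + 1))) * Pr q (A2 (4 * 4 ^ (k' + 1 + 1)) (4 ^ m)) :=
      mul_le_mul hreg hb Pr_nonneg (by have := a4_nn q (4 ^ (k' + 1 + 1)); positivity)
    have := mul_le_mul_of_nonneg_left this hε
    linarith
  set X := a4 q (4 ^ (k' + 1 + 1)) * Pr q (A2 (4 * 4 ^ (k' + 1 + 1)) (4 ^ m)) with hX
  have hX0 : 0 ≤ X := mul_nonneg (a4_nn _ _) Pr_nonneg
  have hB0 : 0 ≤ C₂ * a4 q (4 ^ m) + ε * (C₁ ^ 2 * X) := by
    have := a4_nn q (4 ^ m)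
    positivity
  have hsum : a4 q (4 ^ (k' + 1)) * ∑ β ∈ F, ∑ γ ∈ F, Pr q (BT (4 * 4 ^ (k' + 1)) (4 ^ m) β γ) ≤
      (J : ℝ) ^ 2 * (C₂ * a4 q (4 ^ m) + ε * (C₁ ^ 2 * X)) := by
    rw [Finset.mul_sum]
    calc ∑ β ∈ F, a4 q (4 ^ (k' + 1)) * ∑ γ ∈ F, Pr q (BT (4 * 4 ^ (k' + 1)) (4 ^ m) β γ)
        ≤ ∑ _β ∈ F, ∑ _γ ∈ F, (C₂ * a4 q (4 ^ m) + ε * (C₁ ^ 2 * X)) := by
          refine Finset.sum_le_sum fun β hβ => ?_
          rw [Finset.mul_sum]
          exact Finset.sum_le_sum fun γ hγ => key β hβ γ hγ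
      _ = ((F.card : ℝ) * F.card) * (C₂ * a4 q (4 ^ m) + ε * (C₁ ^ 2 * X)) := by
          rw [Finset.sum_const, Finset.sum_const, nsmul_eq_mul, nsmul_eq_mul]; ring
      _ ≤ ((J : ℝ) * J) * (C₂ * a4 q (4 ^ m) + ε * (C₁ ^ 2 * X)) := by
          apply mul_le_mul_of_nonneg_right _ hB0
          have : (F.card : ℝ) ≤ J := by exact_mod_cast hF1
          exact mul_le_mul this this (Nat.cast_nonneg _) (Nat.cast_nonneg _)
      _ = (J : ℝ) ^ 2 * (C₂ * a4 q (4 ^ m) + ε * (C₁ ^ 2 * X)) := by ring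
  have hfin := mul_le_mul_of_nonneg_left hF3 hA
  rw [mul_add] at hfin
  calc a4 q (4 ^ (k' + 1)) * Pr q (A2 (4 * 4 ^ (k' + 1)) (4 ^ m))
      ≤ a4 q (4 ^ (k' + 1)) * ∑ β ∈ F, ∑ γ ∈ F, Pr q (BT (4 * 4 ^ (k' + 1)) (4 ^ m) β γ) +
          a4 q (4 ^ (k' + 1)) * (ε₂ * Pr q (A2 (4 * 4 ^ (k' + 1)) (4 ^ (m - 1)))) := hfin
    _ ≤ (J : ℝ) ^ 2 * (C₂ * a4 q (4 ^ m) + ε * (C₁ ^ 2 * X)) +
          a4 q (4 ^ (k' + 1)) * (ε₂ * Pr q (A2 (4 * 4 ^ (k' + 1)) (4 ^ (m - 1)))) := by linarith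
    _ = _ := by ring

/-- Quasi-multiplicativity at powers of four. -/
theorem qm_pow (hB : BadIn) (hG : GLT) (hr : RegA4) : ∀ c : ℝ, 0 < c → ∃ (M : ℝ) (k₀ : ℕ),
    1 ≤ M ∧ 1 ≤ k₀ ∧ ∀ (n : ℕ) (q : I), RSWreg c n q → ∀ m k : ℕ, k₀ ≤ k → k ≤ m →
      64 * 4 ^ m ≤ n → a4 q (4 ^ k) * Pr q (A2 (4 * 4 ^ k) (4 ^ m)) ≤ M * a4 q (4 ^ m) := by
  intro c hc
  obtain ⟨C₁', hC₁', H1'⟩ := hr c hc
  set C₁ : ℝ := max C₁' 1 with hC₁def
  have hC₁ : 1 ≤ C₁ := le_max_right _ _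
  have hC₁0 : 0 < C₁ := by linarith
  obtain ⟨J, R₀, H2⟩ := outer_split hB c (1 / (4 * C₁)) hc (by positivity)
  set ε : ℝ := 1 / (2 * ((J : ℝ) + 1) ^ 2 * C₁ ^ 2) with hεdef
  have hε : 0 < ε := by positivity
  obtain ⟨C₂, k₀, hC₂, hk₀, H3⟩ := hG c ε hc hε
  obtain ⟨c₀, hc₀, H4⟩ := a4_low c hc (4 ^ R₀) (Nat.one_le_pow _ _ (by norm_num))
  set M : ℝ := max (max (C₁ ^ 3) (2 / c₀)) (4 * ((J : ℝ) ^ 2 * C₂)) with hMdef
  have hM1 : C₁ ^ 3 ≤ M := (le_max_left _ _).trans (le_max_left _ _)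
  have hM2 : 2 / c₀ ≤ M := (le_max_right _ _).trans (le_max_left _ _)
  have hM3 : 4 * ((J : ℝ) ^ 2 * C₂) ≤ M := le_max_right _ _
  have hM0 : 1 ≤ M := (one_le_pow₀ hC₁).trans hM1
  refine ⟨M, k₀, hM0, hk₀, fun n q hR => ?_⟩
  have H1 : ∀ r : ℕ, 1 ≤ r → 64 * r ≤ n → a4 q r ≤ C₁ * a4 q (4 * r) := fun r h1 h2 =>
    (H1' n r q h1 h2 hR).trans (mul_le_mul_of_nonneg_right (le_max_left _ _) (a4_nn _ _))
  intro m
  induction m with
  | zero => intro k h1 h2; omega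
  | succ m ihm =>
    intro k hk hkm hmn
    -- downward induction in `k`
    obtain ⟨d, hd⟩ : ∃ d, m + 1 = k + d := ⟨m + 1 - k, by omega⟩
    induction d using Nat.strong_induction_on generalizing k with
    | _ d ihd =>
      have hpos : 0 < 4 ^ m := by positivity
      have e4 : 4 ^ (m + 1) = 4 * 4 ^ m := by ring
      have hP1 : Pr q (A2 (4 * 4 ^ k) (4 ^ (m + 1))) ≤ 1 := Pr_le_one
      have htriv : a4 q (4 ^ k) * Pr q (A2 (4 * 4 ^ k) (4 ^ (m + 1))) ≤ a4 q (4 ^ k) := by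
        have := a4_nn q (4 ^ k)
        nlinarith
      rcases Nat.lt_or_ge d 3 with hd3 | hd3
      · -- `k` close to `m + 1`
        have h1 := reg_iter hC₁ H1 2 (4 ^ k) (4 ^ (m + 1)) (Nat.one_le_pow _ _ (by norm_num))
          (Nat.pow_le_pow_right (by norm_num) hkm) (by
            rw [← pow_add]; exact Nat.pow_le_pow_right (by norm_num) (by omega)) (by omega)
        have h2 : C₁ ^ 2 ≤ M := (pow_le_pow_right₀ hC₁ (by norm_num)).trans hM1
        calc _ ≤ a4 q (4 ^ k) := htriv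
          _ ≤ C₁ ^ 2 * a4 q (4 ^ (m + 1)) := h1
          _ ≤ M * a4 q (4 ^ (m + 1)) := mul_le_mul_of_nonneg_right h2 (a4_nn _ _)
      · rcases Nat.lt_or_ge (4 ^ (m + 1)) R₀ with hR0 | hR0
        · -- small `m`
          have h1 : m + 1 ≤ R₀ := by
            have : m + 1 < 4 ^ (m + 1) := Nat.lt_pow_self (by norm_num)
            omega
          have h2 : a4 q (4 ^ R₀) ≤ a4 q (4 ^ (m + 1)) :=
            a4_anti (Nat.one_le_pow _ _ (by norm_num)) (Nat.pow_le_pow_right (by norm_num) h1)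
          have h3 := H4 n q (by omega) hR
          have h4 : c₀ ≤ a4 q (4 ^ (m + 1)) := h3.trans h2
          calc _ ≤ a4 q (4 ^ k) := htriv
            _ ≤ 2 := a4_le_two _ _
            _ = (2 / c₀) * c₀ := by field_simp
            _ ≤ M * a4 q (4 ^ (m + 1)) := by
                apply mul_le_mul hM2 h4 hc₀.le (by linarith)
        · have h1 := qm_step (k := k) (m := m + 1) hR hε.le hC₁ hC₂.le H1
            (fun t R a b c' d' => H2 n t R q a b c' d' hR)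
            (fun k R L K a b c' d' e' => H3 n k R q L K a b c' hR d' e') hk (by omega) (by omega)
            hR0 (by omega)
          rw [Nat.add_sub_cancel] at h1
          have h2 := ihd (d - 1) (by omega) (k + 1) (by omega) (by omega) (by omega)
          have h3 := ihm k hk (by omega) (by omega)
          have h4 := H1 (4 ^ m) (by omega) (by omega)
          rw [← e4] at h4
          have hJ : (J : ℝ) ^ 2 * ε * C₁ ^ 2 ≤ 1 / 2 := by
            rw [hεdef]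
            have hJ1 : (0 : ℝ) ≤ J := Nat.cast_nonneg _
            have : (J : ℝ) ^ 2 * (1 / (2 * ((J : ℝ) + 1) ^ 2 * C₁ ^ 2)) * C₁ ^ 2 =
                (1 / 2) * ((J : ℝ) ^ 2 / ((J : ℝ) + 1) ^ 2) := by
              field_simp
            rw [this]
            have h5 : (J : ℝ) ^ 2 / ((J : ℝ) + 1) ^ 2 ≤ 1 := by
              rw [div_le_one (by positivity)]
              nlinarith
            linarith
          have hX0 : 0 ≤ a4 q (4 ^ (k + 1)) * Pr q (A2 (4 * 4 ^ (k + 1)) (4 ^ (m + 1))) :=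
            mul_nonneg (a4_nn _ _) Pr_nonneg
          have hY0 : 0 ≤ a4 q (4 ^ (m + 1)) := a4_nn _ _
          have h6 : 1 / (4 * C₁) * (a4 q (4 ^ k) * Pr q (A2 (4 * 4 ^ k) (4 ^ m))) ≤
              (M / 4) * a4 q (4 ^ (m + 1)) := by
            calc 1 / (4 * C₁) * (a4 q (4 ^ k) * Pr q (A2 (4 * 4 ^ k) (4 ^ m)))
                ≤ 1 / (4 * C₁) * (M * (C₁ * a4 q (4 ^ (m + 1)))) := by
                  apply mul_le_mul_of_nonneg_left _ (by positivity)
                  exact h3.trans (mul_le_mul_of_nonneg_left h4 (by linarith))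
              _ = (M / 4) * a4 q (4 ^ (m + 1)) := by field_simp
          have h7 : (J : ℝ) ^ 2 * ε * C₁ ^ 2 *
              (a4 q (4 ^ (k + 1)) * Pr q (A2 (4 * 4 ^ (k + 1)) (4 ^ (m + 1)))) ≤
              (M / 2) * a4 q (4 ^ (m + 1)) := by
            calc _ ≤ (1 / 2) * (a4 q (4 ^ (k + 1)) *
                  Pr q (A2 (4 * 4 ^ (k + 1)) (4 ^ (m + 1)))) :=
                  mul_le_mul_of_nonneg_right hJ hX0
              _ ≤ (1 / 2) * (M * a4 q (4 ^ (m + 1))) :=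
                  mul_le_mul_of_nonneg_left h2 (by norm_num)
              _ = (M / 2) * a4 q (4 ^ (m + 1)) := by ring
          have h8 : (J : ℝ) ^ 2 * C₂ * a4 q (4 ^ (m + 1)) ≤ (M / 4) * a4 q (4 ^ (m + 1)) :=
            mul_le_mul_of_nonneg_right (by linarith) hY0
          linarith

/-- Quasi-multiplicativity. -/
theorem qmann (hB : BadIn) (hG : GLT) (hr : RegA4) : QMann := by
  intro c hc
  obtain ⟨M, k₀, hM, hk₀, H⟩ := qm_pow hB hG hr c hc
  obtain ⟨C₁', hC₁', H1'⟩ := hr c hc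
  set C₁ : ℝ := max C₁' 1 with hC₁def
  have hC₁ : 1 ≤ C₁ := le_max_right _ _
  have hC₁0 : 0 < C₁ := by linarith
  obtain ⟨c₀, hc₀, H4⟩ := a4_low c hc (4 ^ (k₀ + 1)) (Nat.one_le_pow _ _ (by norm_num))
  set D : ℝ := max (C₁ ^ 4) (2 / c₀) with hD
  have hD1 : C₁ ^ 4 ≤ D := le_max_left _ _
  have hD2 : 2 / c₀ ≤ D := le_max_right _ _
  have hD0 : 1 ≤ D := (one_le_pow₀ hC₁).trans hD1
  refine ⟨D * (M * C₁), by positivity, fun n r R q h1 h2 h3 hR => ?_⟩
  have H1 : ∀ r : ℕ, 1 ≤ r → 64 * r ≤ n → a4 q r ≤ C₁ * a4 q (4 * r) := fun r h1 h2 =>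
    (H1' n r q h1 h2 hR).trans (mul_le_mul_of_nonneg_right (le_max_left _ _) (a4_nn _ _))
  have hbig : D ≤ D * (M * C₁) := by
    have : 1 ≤ M * C₁ := by nlinarith
    nlinarith
  -- scales
  obtain ⟨m, hm1, hm2⟩ : ∃ m, 4 ^ m ≤ R ∧ R < 4 ^ (m + 1) := by
    refine ⟨Nat.log 4 R, Nat.pow_log_le_self 4 (by omega), Nat.lt_pow_succ_log_self (by norm_num) R⟩
  obtain ⟨a, ha1, ha2⟩ : ∃ a, 4 ^ a ≤ 4 * r ∧ 4 * r < 4 ^ (a + 1) := by
    refine ⟨Nat.log 4 (4 * r), Nat.pow_log_le_self 4 (by omega),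
      Nat.lt_pow_succ_log_self (by norm_num) _⟩
  have e1 : 4 ^ (m + 1) = 4 * 4 ^ m := by ring
  have e2 : 4 ^ (a + 1) = 4 * 4 ^ a := by ring
  have htriv : a4 q r * Pr q (A2 (16 * r) R) ≤ a4 q r := by
    have h4 : Pr q (A2 (16 * r) R) ≤ 1 := Pr_le_one
    have := a4_nn q r
    nlinarith
  set k := max k₀ (a + 1) with hkdef
  have hk0 : k₀ ≤ k := le_max_left _ _
  have hka : a + 1 ≤ k := le_max_right _ _
  have hrk : 4 * r ≤ 4 ^ k := ha2.le.trans (Nat.pow_le_pow_right (by norm_num) hka)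
  rcases Nat.lt_or_ge k m with hkm | hkm
  · -- main case
    have hsub : A2 (16 * r) R ⊆ A2 (4 * 4 ^ k) (4 ^ m) := by
      refine A2_mono (by omega) (by omega) ?_ hm1
      have : 4 ^ (k + 1) ≤ 4 ^ m := Nat.pow_le_pow_right (by norm_num) hkm
      have e3 : 4 ^ (k + 1) = 4 * 4 ^ k := by ring
      omega
    have hmain := H n q hR m k hk0 hkm.le (by omega)
    have hreg : a4 q r ≤ D * a4 q (4 ^ k) := by
      rcases Nat.le_total k₀ (a + 1) with hc1 | hc1
      · have hk : k = a + 1 := max_eq_right hc1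
        have h5 := reg_iter hC₁ H1 4 r (4 ^ k) h1 (by omega) (by rw [hk]; omega) (by
          rw [hk]; omega)
        exact h5.trans (mul_le_mul_of_nonneg_right hD1 (a4_nn _ _))
      · have hk : k = k₀ := max_eq_left hc1
        have h5 := H4 n q (by omega) hR
        have h6 : a4 q (4 ^ (k₀ + 1)) ≤ a4 q (4 ^ k) := by
          rw [hk]
          exact a4_anti (Nat.one_le_pow _ _ (by norm_num))
            (Nat.pow_le_pow_right (by norm_num) (by omega))
        calc a4 q r ≤ 2 := a4_le_two _ _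
          _ = (2 / c₀) * c₀ := by field_simp
          _ ≤ D * a4 q (4 ^ k) := mul_le_mul hD2 (h5.trans h6) hc₀.le (by linarith)
    have hlast : a4 q (4 ^ m) ≤ C₁ * a4 q R := by
      have h5 := H1 (4 ^ m) (Nat.one_le_pow _ _ (by norm_num)) (by omega)
      have h6 : a4 q (4 * 4 ^ m) ≤ a4 q R := a4_anti (by omega) (by omega)
      exact h5.trans (mul_le_mul_of_nonneg_left h6 hC₁0.le)
    calc a4 q r * Pr q (A2 (16 * r) R)
        ≤ (D * a4 q (4 ^ k)) * Pr q (A2 (4 * 4 ^ k) (4 ^ m)) :=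
          mul_le_mul hreg (Pr_mono hsub) Pr_nonneg (mul_nonneg (by linarith) (a4_nn _ _))
      _ = D * (a4 q (4 ^ k) * Pr q (A2 (4 * 4 ^ k) (4 ^ m))) := by ring
      _ ≤ D * (M * (C₁ * a4 q R)) := by
          apply mul_le_mul_of_nonneg_left _ (by linarith)
          exact hmain.trans (mul_le_mul_of_nonneg_left hlast (by linarith))
      _ = D * (M * C₁) * a4 q R := by ring
  · -- `r` comparable with `R`, or `R` bounded
    have hgoal : a4 q r ≤ D * a4 q R := by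
      rcases Nat.le_total k₀ (a + 1) with hc1 | hc1
      · have hk : k = a + 1 := max_eq_right hc1
        rw [hk] at hkm
        have h5 : 4 ^ m ≤ 4 ^ (a + 1) := Nat.pow_le_pow_right (by norm_num) hkm
        have h6 := reg_iter hC₁ H1 4 r R h1 (by omega) (by omega) (by omega)
        exact h6.trans (mul_le_mul_of_nonneg_right hD1 (a4_nn _ _))
      · have hk : k = k₀ := max_eq_left hc1
        rw [hk] at hkm
        have h5 := H4 n q (by omega) hR
        have h6 : a4 q (4 ^ (k₀ + 1)) ≤ a4 q R := by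
          have h7 : 4 ^ (m + 1) ≤ 4 ^ (k₀ + 1) := Nat.pow_le_pow_right (by norm_num) (by omega)
          exact a4_anti (by omega) (by omega)
        calc a4 q r ≤ 2 := a4_le_two _ _
          _ = (2 / c₀) * c₀ := by field_simp
          _ ≤ D * a4 q R := mul_le_mul hD2 (h5.trans h6) hc₀.le (by linarith)
    exact htriv.trans (hgoal.trans (mul_le_mul_of_nonneg_right hbig (a4_nn _ _)))

/-- The gluing inequality on the torus. -/
theorem glTorus (hB : BadIn) (hG : GLT) (hr : RegA4) (hS : SepTorus) : GLTorus := by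
  intro c hc
  obtain ⟨M, hM, H⟩ := qmann hB hG hr c hc
  obtain ⟨C₁', hC₁', H1'⟩ := hr c hc
  set C₁ : ℝ := max C₁' 1 with hC₁def
  have hC₁ : 1 ≤ C₁ := le_max_right _ _
  have hC₁0 : 0 < C₁ := by linarith
  obtain ⟨C₃, hC₃, H3⟩ := hS c hc
  refine ⟨(C₁ ^ 4 + C₁ ^ 2 * M) * C₃, by positivity, fun N r q h1 h2 hR => ?_⟩
  have H1 : ∀ r : ℕ, 1 ≤ r → 64 * r ≤ N → a4 q r ≤ C₁ * a4 q (4 * r) := fun r h1 h2 =>
    (H1' N r q h1 h2 hR).trans (mul_le_mul_of_nonneg_right (le_max_left _ _) (a4_nn _ _))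
  have hP1 : Pool.Agent.H89.Perc.Pr q (BlockPiv N (16 * r)) ≤ 1 :=
    Pool.Agent.H89.Perc.Pr_le_one
  have hP0 : 0 ≤ Pool.Agent.H89.Perc.Pr q (BlockPiv N (16 * r)) :=
    Pool.Agent.H89.Perc.Pr_nonneg
  set R := N / 64 + 1 with hRdef
  have hR1 : N ≤ 64 * R := by omega
  have hR2 : 4 * R ≤ N := by omega
  have h3 := H3 N R q (by omega) hR1 hR2 hR
  have h4 := a4_nn q r
  have hs0 : 0 ≤ sT q N := by
    by_contra h
    push Not at h
    have := a4_nn q R
    nlinarith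
  rcases Nat.lt_or_ge N (4096 * r) with hs | hs
  · have h5 : a4 q r ≤ C₁ ^ 4 * a4 q R := by
      rcases Nat.lt_or_ge r R with h6 | h6
      · exact reg_iter hC₁ H1 4 r R h1 h6.le (by omega) (by omega)
      · have := a4_anti (q := q) (by omega : 1 ≤ R) h6
        have h7 : (1 : ℝ) ≤ C₁ ^ 4 := one_le_pow₀ hC₁
        nlinarith [a4_nn q R]
    calc a4 q r * Pool.Agent.H89.Perc.Pr q (BlockPiv N (16 * r)) ≤ a4 q r := by nlinarith
      _ ≤ C₁ ^ 4 * (C₃ * sT q N) := h5.trans (mul_le_mul_of_nonneg_left h3 (by positivity))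
      _ ≤ (C₁ ^ 4 + C₁ ^ 2 * M) * C₃ * sT q N := by
          have : 0 ≤ C₁ ^ 2 * M * C₃ * sT q N := by positivity
          nlinarith
  · set ρ := N / 64 with hρ
    have h5 := blockPiv_le (N := N) (ρ := 16 * r) (R := ρ) q (by omega) (by omega) (by omega)
    have h6 : A2 (16 * r + 3) ρ ⊆ A2 (16 * (2 * r)) ρ :=
      A2_mono (by omega) (by omega) (by omega) le_rfl
    have h7 := H N (2 * r) ρ q (by omega) (by omega) (by omega) hR
    have h8 : a4 q r ≤ C₁ * a4 q (2 * r) :=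
      (H1 r h1 h2).trans (mul_le_mul_of_nonneg_left (a4_anti (by omega) (by omega)) hC₁0.le)
    have h9 : a4 q ρ ≤ C₁ * a4 q R := by
      rw [hRdef]
      have h10 := reg_iter hC₁ H1 1 ρ (ρ + 1) (by omega) (by omega) (by omega) (by omega)
      rwa [pow_one] at h10
    calc a4 q r * Pool.Agent.H89.Perc.Pr q (BlockPiv N (16 * r))
        ≤ (C₁ * a4 q (2 * r)) * Pr q (A2 (16 * (2 * r)) ρ) :=
          mul_le_mul h8 (h5.trans (Pr_mono h6)) hP0 (mul_nonneg hC₁0.le (a4_nn _ _))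
      _ = C₁ * (a4 q (2 * r) * Pr q (A2 (16 * (2 * r)) ρ)) := by ring
      _ ≤ C₁ * (M * (C₁ * (C₃ * sT q N))) := by
          apply mul_le_mul_of_nonneg_left _ hC₁0.le
          refine h7.trans (mul_le_mul_of_nonneg_left ?_ hM.le)
          exact h9.trans (mul_le_mul_of_nonneg_left h3 hC₁0.le)
      _ ≤ (C₁ ^ 4 + C₁ ^ 2 * M) * C₃ * sT q N := by
          have : 0 ≤ C₁ ^ 4 * C₃ * sT q N := by positivity
          nlinarith

end Pool.Agent.H83.SK

end

section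

/-!
# Finite energy, explicit separated configurations of sites
-/

set_option autoImplicit false

open MeasureTheory ProbabilityTheory unitInterval

namespace Pool.Agent.H38.N59

open Pool.Agent.H89.Perc
open Pool.Agent.H61.NC hiding RSWreg
open Pool.Agent.H83.SK (sv sit sit_true RSWreg)
open Pool.Agent.H59.EX (LocS inE touch clus closeS Side T Mouth Fence dom)

/-- In the regime the density is bounded away from `0` and `1`. -/
theorem density_bound (c : ℝ) (hc : 0 < c) : ∃ δ : ℝ, 0 < δ ∧ ∀ (n : ℕ) (q : I), 1 ≤ n →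
    RSWreg c n q → δ ≤ (q : ℝ) ∧ (q : ℝ) ≤ 1 - δ :=
  ⟨c / 16, by positivity, fun _ _ hn h => Pool.Agent.H83.SK.rswreg_density hn h⟩

/-- The site `0` as a source: two of its neighbours, the site `0` is closed. -/
def s4 (b : Bool) : Src where
  x := (1, 0)
  y := if b then (0, 1) else (-1, 0)
  V0 := {0}
  hx := by simp [ball, rect]
  hy := by cases b <;> simp [ball, rect]
  hV := by
    intro v hv
    rw [Finset.mem_singleton] at hv
    subst hv
    simp [ball, rect]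

/-- Closing the site `0` closes the four edges at `0`. -/
theorem s4_cut (b : Bool) (w : Config) :
    sit ((s4 b).cut w) = (Pool.Agent.H83.SK.s4 b).cut (sit w) := by
  funext e
  rw [Bool.eq_iff_iff]
  unfold Pool.Agent.H59.EX.Src.cut
  rw [Pool.Agent.H59.EX.closeS_true, sit_true, sit_true, cut_sv, cut_sv]
  have h : e ∈ ((Pool.Agent.H83.SK.s4 b).E0 : Set Edge) ↔ src e = 0 ∨ tgt e = 0 := by
    obtain ⟨x, y, t⟩ := e
    cases t <;>
      simp [Pool.Agent.H83.SK.s4, Pool.Agent.H83.SK.star0, src, tgt, Prod.ext_iff] <;> omega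
  rw [h]
  simp only [s4, Finset.mem_singleton]
  tauto

/-- The event of the interface. -/
theorem four_s4 (b : Bool) (r : ℕ) :
    {w | sit w ∈ Pool.Agent.H59.EX.Four (Pool.Agent.H83.SK.s4 b) r} = Four (s4 b) r := by
  ext w
  unfold Pool.Agent.H59.EX.Four Four
  simp only [Set.mem_ofPred_eq, s4_cut]
  exact Iff.rfl

theorem a4_eq (q : I) (r : ℕ) :
    Pool.Agent.H83.SK.a4 q r = Pr q (Four (s4 false) r) + Pr q (Four (s4 true) r) := by
  unfold Pool.Agent.H83.SK.a4 Pool.Agent.H83.SK.Pr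
  rw [four_s4, four_s4]

/-! ### Explicit configurations -/

/-- A straight open horizontal path. -/
theorem itera_row {ω : Config} {S : Set Vert} (a b : ℤ) (n : ℕ)
    (hS : ∀ i : ℤ, a ≤ i → i ≤ a + n → ((i, b) : Vert) ∈ S)
    (ho : ∀ i : ℤ, a ≤ i → i ≤ a + n → ω (i, b, false) = true) :
    Conn (sit ω) S (a, b) (a + n, b) := by
  refine Pool.Agent.H59.EX.itera_row a b n hS fun i h1 h2 => ?_
  rw [sit_true]
  exact ⟨ho i h1 (by omega), ho (i + 1) (by omega) (by omega)⟩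

/-- A straight open vertical path. -/
theorem itera_col {ω : Config} {S : Set Vert} (a b : ℤ) (n : ℕ)
    (hS : ∀ i : ℤ, b ≤ i → i ≤ b + n → ((a, i) : Vert) ∈ S)
    (ho : ∀ i : ℤ, b ≤ i → i ≤ b + n → ω (a, i, false) = true) :
    Conn (sit ω) S (a, b) (a, b + n) := by
  refine Pool.Agent.H59.EX.itera_col a b n hS fun i h1 h2 => ?_
  rw [sit_true]
  exact ⟨ho i h1 (by omega), ho (i + 1) (by omega) (by omega)⟩

/-- The explicit configuration: two rows and two columns; the left row has height `j`. -/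
def expl (j : ℤ) (k : ℕ) : Config := fun e => decide
  (e.2.2 = false ∧ ((e.2.1 = 0 ∧ 1 ≤ e.1) ∨ (e.2.1 = j ∧ e.1 ≤ j - 1) ∨
    ((e.1 = 32 * k ∨ e.1 = -(32 * k)) ∧ -(3 * (k : ℤ)) ≤ e.2.1 ∧ e.2.1 ≤ 3 * k)))

theorem expl_sv {j : ℤ} {k : ℕ} {a : Vert} : expl j k (sv a) = true ↔
    ((a.2 = 0 ∧ 1 ≤ a.1) ∨ (a.2 = j ∧ a.1 ≤ j - 1) ∨
    ((a.1 = 32 * k ∨ a.1 = -(32 * k)) ∧ -(3 * (k : ℤ)) ≤ a.2 ∧ a.2 ≤ 3 * k)) := by
  simp [expl, sv]

/-- Explicit separated configurations. -/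
theorem expl_mem {s : Src} {j : ℤ} {k : ℕ} (hk : 1 ≤ k) (hj : j = 0 ∨ j = 1) (hx : s.x = (1, 0))
    (hy : s.y = (j - 1, j)) (hc : s.cut (expl j k) = expl j k) :
    expl j k ∈ Sep s .E .W k := by
  set D : Set Vert := dom .E .W k with hD
  have hmemD : ∀ v : Vert, (-(32 * (k : ℤ)) ≤ v.1 ∧ v.1 ≤ 32 * k ∧ -(32 * (k : ℤ)) ≤ v.2 ∧
      v.2 ≤ 32 * k) → v ∈ D := by
    intro v hv
    refine Or.inl ?_
    simp only [ball, rect, Set.mem_ofPred_eq, Prod.fst_zero, Prod.snd_zero]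
    push_cast
    omega
  have hadj : ∀ {p p' : Vert} {e : Edge}, Joins e p p' →
      p'.1 ≤ p.1 + 1 ∧ p.1 ≤ p'.1 + 1 ∧ p'.2 ≤ p.2 + 1 ∧ p.2 ≤ p'.2 + 1 ∧
        (p.1 = p'.1 ∨ p.2 = p'.2) := by
    rintro ⟨a, b⟩ ⟨a', b'⟩ ⟨x, y, dir⟩ hjo
    rcases dir with _ | _
    · simp only [Joins, src, tgt, Bool.false_eq_true, if_false, Prod.mk.injEq] at hjo
      dsimp only
      omega
    · simp only [Joins, src, tgt, if_true, Prod.mk.injEq] at hjo
      dsimp only
      omega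
  have hopen : ∀ p : Vert, fillS (T .E k ∪ T .W k) (expl j k) (sv p) = true →
      ((p.2 = 0 ∧ 1 ≤ p.1) ∨ p ∈ T .E k) ∨ ((p.2 = j ∧ p.1 ≤ j - 1) ∨ p ∈ T .W k) := by
    intro p hp
    rw [fill_sv, expl_sv] at hp
    simp only [Set.mem_union, T, rect, Set.mem_ofPred_eq] at hp ⊢
    omega
  have hstep : ∀ p p' : Vert, Step (sit (fillS (T .E k ∪ T .W k) (expl j k))) D p p' →
      (((p.2 = 0 ∧ 1 ≤ p.1) ∨ p ∈ T .E k) → ((p'.2 = 0 ∧ 1 ≤ p'.1) ∨ p' ∈ T .E k)) ∧
      (((p.2 = j ∧ p.1 ≤ j - 1) ∨ p ∈ T .W k) →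
        ((p'.2 = j ∧ p'.1 ≤ j - 1) ∨ p' ∈ T .W k)) := by
    rintro p p' ⟨-, -, e, hjo, ho⟩
    have h1 := hadj hjo
    have h2 := hopen p' ((sit_joins hjo).1 ho).2
    simp only [T, rect, Set.mem_ofPred_eq] at h2 ⊢
    omega
  have hX : ∀ v, Conn (sit (fillS (T .E k ∪ T .W k) (expl j k))) D (1, 0) v →
      ((v.2 = 0 ∧ 1 ≤ v.1) ∨ v ∈ T .E k) := by
    intro v hv
    refine hv.induction_right (P := fun v => (v.2 = 0 ∧ 1 ≤ v.1) ∨ v ∈ T .E k)
      (Or.inl ⟨rfl, le_rfl⟩) ?_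
    intro p p' _ hp h
    exact (hstep p p' hp).1 h
  have hY : ∀ v, Conn (sit (fillS (T .E k ∪ T .W k) (expl j k))) D (j - 1, j) v →
      ((v.2 = j ∧ v.1 ≤ j - 1) ∨ v ∈ T .W k) := by
    intro v hv
    refine hv.induction_right (P := fun v => (v.2 = j ∧ v.1 ≤ j - 1) ∨ v ∈ T .W k)
      (Or.inl ⟨rfl, le_rfl⟩) ?_
    intro p p' _ hp h
    exact (hstep p p' hp).2 h
  have hop : ∀ x y : ℤ, ((y = 0 ∧ 1 ≤ x) ∨ (y = j ∧ x ≤ j - 1) ∨
      ((x = 32 * k ∨ x = -(32 * k)) ∧ -(3 * (k : ℤ)) ≤ y ∧ y ≤ 3 * k)) →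
      expl j k (x, y, false) = true := fun x y h => (expl_sv (a := (x, y))).2 h
  refine ⟨?_, ?_, ?_, ?_, ?_⟩
  · -- east fence
    rw [hc, hx]
    refine ⟨(32 * (k : ℤ), -(3 * (k : ℤ))), (32 * (k : ℤ), 3 * (k : ℤ)), rfl, rfl, ?_, ?_⟩
    · have h := itera_col (ω := expl j k) (S := T .E k) (32 * (k : ℤ)) (-(3 * (k : ℤ))) (6 * k)
        (fun i h1 h2 => by
          simp only [T, rect, Set.mem_ofPred_eq]
          push_cast at h2
          omega)
        (fun i h1 h2 => hop _ _ (by push_cast at h2; omega))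
      have he : -(3 * (k : ℤ)) + ((6 * k : ℕ) : ℤ) = 3 * k := by push_cast; ring
      rwa [he] at h
    · have h1 := itera_row (ω := expl j k) (S := D) 1 0 (32 * k - 1)
        (fun i h1 h2 => hmemD _ (by dsimp only; omega))
        (fun i h1 h2 => hop _ _ (by omega))
      have he : (1 : ℤ) + ((32 * k - 1 : ℕ) : ℤ) = 32 * k := by omega
      rw [he] at h1
      have h2 := itera_col (ω := expl j k) (S := D) (32 * (k : ℤ)) (-(3 * (k : ℤ))) (3 * k)
        (fun i h1 h2 => hmemD _ (by push_cast at h2; dsimp only; omega))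
        (fun i h1 h2 => hop _ _ (by push_cast at h2; omega))
      have he2 : -(3 * (k : ℤ)) + ((3 * k : ℕ) : ℤ) = 0 := by push_cast; ring
      rw [he2] at h2
      exact h1.trans h2.symm
  · -- west fence
    rw [hc, hy]
    refine ⟨(-(32 * (k : ℤ)), -(3 * (k : ℤ))), (-(32 * (k : ℤ)), 3 * (k : ℤ)), rfl, rfl, ?_, ?_⟩
    · have h := itera_col (ω := expl j k) (S := T .W k) (-(32 * (k : ℤ))) (-(3 * (k : ℤ))) (6 * k)
        (fun i h1 h2 => by
          simp only [T, rect, Set.mem_ofPred_eq]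
          push_cast at h2
          omega)
        (fun i h1 h2 => hop _ _ (by push_cast at h2; omega))
      have he : -(3 * (k : ℤ)) + ((6 * k : ℕ) : ℤ) = 3 * k := by push_cast; ring
      rwa [he] at h
    · have h1 := itera_row (ω := expl j k) (S := D) (-(32 * (k : ℤ))) j (32 * k + j - 1).toNat
        (fun i h1 h2 => hmemD _ (by
          rw [Int.toNat_of_nonneg (by omega)] at h2
          dsimp only
          omega))
        (fun i h1 h2 => hop _ _ (by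
          rw [Int.toNat_of_nonneg (by omega)] at h2
          omega))
      have he : -(32 * (k : ℤ)) + ((32 * k + j - 1).toNat : ℤ) = j - 1 := by
        rw [Int.toNat_of_nonneg (by omega)]
        ring
      rw [he] at h1
      have h2 := itera_col (ω := expl j k) (S := D) (-(32 * (k : ℤ))) (-(3 * (k : ℤ)))
        (3 * k + j).toNat
        (fun i h1 h2 => hmemD _ (by
          rw [Int.toNat_of_nonneg (by omega)] at h2
          dsimp only
          omega))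
        (fun i h1 h2 => hop _ _ (by
          rw [Int.toNat_of_nonneg (by omega)] at h2
          omega))
      have he2 : -(3 * (k : ℤ)) + ((3 * k + j).toNat : ℤ) = j := by
        rw [Int.toNat_of_nonneg (by omega)]
        ring
      rw [he2] at h2
      exact (h2.trans h1).symm
  · unfold Src.ful
    rw [hc, hx, hy]
    intro h
    have := hX _ h
    simp only [T, rect, Set.mem_ofPred_eq] at this
    omega
  · unfold Src.ful
    rw [hc, hx]
    intro v hv h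
    have := hX v h
    simp only [T, rect, Set.mem_ofPred_eq, sphere, ball, Prod.fst_zero, Prod.snd_zero, Mouth]
      at this hv ⊢
    push_cast at hv
    omega
  · unfold Src.ful
    rw [hc, hy]
    intro v hv h
    have := hY v h
    simp only [T, rect, Set.mem_ofPred_eq, sphere, ball, Prod.fst_zero, Prod.snd_zero, Mouth]
      at this hv ⊢
    push_cast at hv
    omega

theorem sep_s4_nonempty (b : Bool) {k : ℕ} (hk : 1 ≤ k) : (Sep (s4 b) .E .W k).Nonempty := by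
  have hcut : ∀ j : ℤ, (j = 0 ∨ j = 1) → (s4 b).cut (expl j k) = expl j k := by
    intro j hj
    funext e
    rw [Bool.eq_iff_iff]
    unfold Src.cut
    rw [closeS_true]
    refine ⟨fun h => h.1, fun h => ⟨h, fun h2 => ?_⟩⟩
    have h3 : e = sv 0 := by
      obtain ⟨x, y, t⟩ := e
      have h4 : t = false := h2.1
      have h5 : ((x, y) : Vert) = 0 := by
        have h6 := h2.2
        simp only [s4, Finset.coe_singleton, Set.mem_singleton_iff] at h6
        exact h6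
      rw [← h5, h4]
      rfl
    rw [h3, expl_sv] at h
    simp only [Prod.fst_zero, Prod.snd_zero] at h
    omega
  cases b
  · exact ⟨expl 0 k, expl_mem hk (Or.inl rfl) rfl rfl (hcut 0 (Or.inl rfl))⟩
  · exact ⟨expl 1 k, expl_mem hk (Or.inr rfl) rfl rfl (hcut 1 (Or.inr rfl))⟩

end Pool.Agent.H38.N59

end

section

/-!
# Extension of separated events along abstract corridors, for sites
-/

set_option autoImplicit false

open MeasureTheory ProbabilityTheory unitInterval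

namespace Pool.Agent.H38.N59

open Pool.Agent.H89.Perc
open Pool.Agent.H61.NC hiding RSWreg
open Pool.Agent.H83.SK (sv sit sit_true RSWreg)
open Pool.Agent.H59.EX (LocS inE touch clus closeS Side T Mouth Fence dom CorrData CorrSep clus_sub clus_step clus_conn mem_clus mem_clus_single conn_in_clus fence_trans fence_mono fence_mem mem_sphere_of_joins markov_indep grid exists_grid card_grid pb sat MoveData MoveSep)

/-! ### Rectangles are connected -/

private theorem mc_h {S : Set Vert} {y : ℤ} (x : ℤ) (n : ℕ)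
    (h : ∀ z : ℤ, x ≤ z → z ≤ x + n → ((z, y) : Vert) ∈ S) : Conn allOpen S (x, y) (x + n, y) := by
  induction n with
  | zero =>
    have h0 := h x le_rfl (by simp)
    simpa using (Conn.refl h0 : Conn allOpen S (x, y) (x, y))
  | succ n ih =>
    have h1 := ih fun z hz hz' => h z hz (by push_cast; omega)
    refine h1.tail ⟨h _ (by omega) (by push_cast; omega), h _ (by push_cast; omega) le_rfl,
      (x + n, y, false), Or.inl ⟨rfl, ?_⟩, rfl⟩
    simp [tgt]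
    ring

private theorem mc_v {S : Set Vert} {x : ℤ} (y : ℤ) (n : ℕ)
    (h : ∀ z : ℤ, y ≤ z → z ≤ y + n → ((x, z) : Vert) ∈ S) : Conn allOpen S (x, y) (x, y + n) := by
  induction n with
  | zero =>
    have h0 := h y le_rfl (by simp)
    simpa using (Conn.refl h0 : Conn allOpen S (x, y) (x, y))
  | succ n ih =>
    have h1 := ih fun z hz hz' => h z hz (by push_cast; omega)
    refine h1.tail ⟨h _ (by omega) (by push_cast; omega), h _ (by push_cast; omega) le_rfl,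
      (x, y + n, true), Or.inl ⟨rfl, ?_⟩, rfl⟩
    simp [tgt]
    ring

private theorem mc_h' {S : Set Vert} {x x' y : ℤ}
    (h : ∀ z : ℤ, min x x' ≤ z → z ≤ max x x' → ((z, y) : Vert) ∈ S) :
    Conn allOpen S (x, y) (x', y) := by
  rcases le_total x x' with hx | hx
  · have h1 := mc_h (S := S) (y := y) x (x' - x).toNat fun z hz hz' => h z (by omega) (by omega)
    rwa [Int.toNat_of_nonneg (by omega), add_sub_cancel] at h1
  · have h1 := mc_h (S := S) (y := y) x' (x - x').toNat fun z hz hz' => h z (by omega) (by omega)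
    rw [Int.toNat_of_nonneg (by omega), add_sub_cancel] at h1
    exact h1.symm

private theorem mc_v' {S : Set Vert} {x y y' : ℤ}
    (h : ∀ z : ℤ, min y y' ≤ z → z ≤ max y y' → ((x, z) : Vert) ∈ S) :
    Conn allOpen S (x, y) (x, y') := by
  rcases le_total y y' with hx | hx
  · have h1 := mc_v (S := S) (x := x) y (y' - y).toNat fun z hz hz' => h z (by omega) (by omega)
    rwa [Int.toNat_of_nonneg (by omega), add_sub_cancel] at h1
  · have h1 := mc_v (S := S) (x := x) y' (y - y').toNat fun z hz hz' => h z (by omega) (by omega)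
    rw [Int.toNat_of_nonneg (by omega), add_sub_cancel] at h1
    exact h1.symm

private theorem mc_rect {a b c d : ℤ} {u v : Vert} (hu : u ∈ rect a b c d)
    (hv : v ∈ rect a b c d) : Conn allOpen (rect a b c d) u v := by
  obtain ⟨u1, u2⟩ := u
  obtain ⟨v1, v2⟩ := v
  simp only [rect, Set.mem_ofPred_eq] at hu hv
  have h1 : Conn allOpen (rect a b c d) (u1, u2) (v1, u2) := mc_h' fun z hz hz' => by
    simp only [rect, Set.mem_ofPred_eq]
    omega
  have h2 : Conn allOpen (rect a b c d) (v1, u2) (v1, v2) := mc_v' fun z hz hz' => by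
    simp only [rect, Set.mem_ofPred_eq]
    omega
  exact h1.trans h2

private theorem mc_T {d : Side} {k : ℕ} {u v : Vert} (hu : u ∈ T d k) (hv : v ∈ T d k) :
    Conn allOpen (T d k) u v := by
  cases d <;> exact mc_rect hu hv

/-! ### Elementary geometry -/

private theorem mc_T_ball {d : Side} {k : ℕ} : T d k ⊆ ball 0 (36 * k) := by
  intro a ha
  cases d
  all_goals
    simp only [T, rect, Set.mem_ofPred_eq] at ha
    simp only [mem_ball, Prod.fst_zero, Prod.snd_zero, Nat.cast_mul, Nat.cast_ofNat]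
    omega

private theorem mc_T_far {d : Side} {k : ℕ} (hk : 1 ≤ k) {a : Vert} (ha : a ∈ T d k) :
    a ∉ ball 0 2 := by
  intro hb
  simp only [mem_ball, Prod.fst_zero, Prod.snd_zero, Nat.cast_ofNat] at hb
  cases d
  all_goals
    simp only [T, rect, Set.mem_ofPred_eq] at ha
    omega

private theorem mc_Mouth_ball {d : Side} {k : ℕ} : Mouth d k ⊆ ball 0 (32 * k) := by
  intro a ha
  cases d
  all_goals
    simp only [Mouth, rect, Set.mem_ofPred_eq] at ha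
    simp only [mem_ball, Prod.fst_zero, Prod.snd_zero, Nat.cast_mul, Nat.cast_ofNat]
    omega

/-- One cluster is confined (abstract form).  `η` is the configuration with filled corridors. -/
private theorem mc_conf {k ρ : ℕ} {ω cut : Config} {Dm C C' X Y Mx My : Set Vert}
    {G : Finset Vert} {t : Set Edge}
    (ht : t = rv Dm (X ∪ Y) ∪ vE (C ∪ C')) (hk : 1 ≤ k) (hρk : 4 * ρ + 2 ≤ k)
    (hcut : ∀ e, cut e = true → ω e = true)
    (hX : ∀ a b e, Joins e a b → fillS (C ∪ C') cut (sv b) = true → a ∈ X → b ∈ Dm → b ∈ X)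
    (hY : ∀ a b e, Joins e a b → fillS (C ∪ C') cut (sv b) = true → a ∈ Y → b ∈ Dm → b ∈ Y)
    (hXD : X ⊆ Dm) (hYD : Y ⊆ Dm)
    (hCX : ∀ a ∈ C, a ∈ Dm → a ∈ X)
    (hXe : ∀ a b e, Joins e a b → a ∈ X → b ∉ Dm → a ∈ C ∪ Mx)
    (hYe : ∀ a b e, Joins e a b → a ∈ Y → b ∉ Dm → a ∈ C' ∪ My)
    (hsep : ∀ a ∈ C ∪ Mx, ∀ b ∈ C' ∪ My, b ∉ ball a k)
    (hG : ∀ a ∈ C ∪ Mx, ∀ b, b ∈ ball a 1 → ∃ g ∈ G, b ∈ ball g ρ)
    (hseal : ω ∈ Seal G ρ t) {x z : Vert} (hx : x ∈ X)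
    (hc : Conn (sit (fillS (C ∪ C') cut)) Set.univ x z) :
    z ∈ X ∪ C ∨ (z ∉ Y ∪ C' ∧ ∃ a ∈ C ∪ Mx, z ∈ ball a (4 * ρ + 1)) := by
  have hadj : ∀ a b e, Joins e a b → a ∈ C ∪ Mx → b ∉ C' ∪ My := by
    intro a b e hj ha hb
    exact hsep a ha b hb (ball_mono' hk (Pool.Agent.H59.EX.ball_of_joins hj.symm))
  -- open sites off the clusters and the corridors are not determined
  have free : ∀ b, fillS (C ∪ C') cut (sv b) = true → b ∉ X ∪ C → b ∉ Y ∪ C' → sv b ∉ t := by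
    intro b hob hb1 hb2
    rw [ht]
    rintro (h | h)
    · obtain ⟨a, e, hj, -, hbD, h1⟩ := of_mem_rv h
      rcases h1 with (h1 | h1) | (h1 | h1)
      · exact hb1 (Or.inl (hX a b e hj hob h1 hbD))
      · exact hb2 (Or.inl (hY a b e hj hob h1 hbD))
      · exact hb1 (Or.inl h1)
      · exact hb2 (Or.inl h1)
    · rcases sv_mem_vE.1 h with h | h
      · exact hb1 (Or.inr h)
      · exact hb2 (Or.inr h)
  refine seal_confine (w := ω) (W := Set.univ) (S := X ∪ C) (F := Y ∪ C') (Ex := C ∪ Mx) (t := t)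
    (G := G) ?_ hseal hG ?_ ?_ ?_ (Or.inl hx) hc
  · intro a ha ho
    rcases fill_sv.1 ho with h | h
    · exact hcut _ h
    · refine absurd ?_ ha
      rw [ht]
      exact Or.inr (sv_mem_vE.2 h)
  · intro a b e hj _ hob _ _ ha hb
    have hbX : b ∉ X := fun h' => hb (Or.inl h')
    have hE : a ∈ C ∪ Mx ∧ b ∉ Y ∪ C' := by
      by_cases haX : a ∈ X
      · have hbD : b ∉ Dm := fun h' => hbX (hX a b e hj hob haX h')
        have haE := hXe a b e hj haX hbD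
        have hbC' := hadj a b e hj haE
        refine ⟨haE, ?_⟩
        rintro (h' | h')
        · exact hbD (hYD h')
        · exact hbC' (Or.inl h')
      · have haC : a ∈ C := ha.resolve_left haX
        have haD : a ∉ Dm := fun h' => haX (hCX a haC h')
        have hbC' := hadj a b e hj (Or.inl haC)
        refine ⟨Or.inl haC, ?_⟩
        rintro (h' | h')
        · exact hbC' (hYe b a e hj.symm h' haD)
        · exact hbC' (Or.inl h')
    exact ⟨hE.1, hE.2, free b hob hb hE.2⟩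
  · intro a b e hj hoa _ _ _ ha1 ha2 hb x' hx' hbx
    have hnear : b ∈ ball x' k := ball_mono' hρk hbx
    rcases hb with hb | hb
    · have haD : a ∉ Dm := fun h' => ha2 (Or.inl (hY b a e hj.symm hoa hb h'))
      exact hsep x' hx' b (hYe b a e hj.symm hb haD) hnear
    · exact hsep x' hx' b (Or.inl hb) hnear
  · intro a b e _ _ hob _ _ _ _ hb1 hb2
    exact free b hob hb1 hb2

/-- One side of a separated event: open neighbours of the cluster belong to the cluster. -/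
private theorem mc_step {s : Src} {d d' : Side} {k : ℕ} {ω : Config} {x₀ : Vert} {a b : Vert}
    {e : Edge} {C : Set Vert} (hx : s.cut ω (sv x₀) = true) (hj : Joins e a b)
    (hC : ∀ b ∈ C, b ∈ dom d d' k → b ∈ T d k ∪ T d' k)
    (ho : fillS C (s.cut ω) (sv b) = true)
    (ha : a ∈ clus (sit (s.ful d d' k ω)) (dom d d' k) {x₀}) (hb : b ∈ dom d d' k) :
    b ∈ clus (sit (s.ful d d' k ω)) (dom d d' k) {x₀} := by
  have hoa : s.ful d d' k ω (sv a) = true := open_of_clus (le_fillS hx) ha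
  refine clus_adj ha hoa ?_ hj hb
  rcases fill_sv.1 ho with h | h
  · exact le_fillS h
  · exact fill_sv.2 (Or.inr (hC b h hb))

private theorem mc_exit {d d' : Side} {k : ℕ} {a b : Vert} {e : Edge} (hj : Joins e a b)
    (ha : a ∈ dom d d' k) (hb : b ∉ dom d d' k) :
    a ∈ sphere 0 (32 * k) ∨ a ∈ T d k ∨ a ∈ T d' k := by
  rcases ha with ha | ha | ha
  · exact Or.inl (mem_sphere_of_joins hj ha fun h => hb (Or.inl h))
  · exact Or.inr (Or.inl ha)
  · exact Or.inr (Or.inr ha)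

private theorem mc_dom_ball {d d' : Side} {k : ℕ} : dom d d' k ⊆ ball 0 (36 * k) := by
  rintro a (ha | ha | ha)
  · exact ball_mono' (by omega) ha
  · exact mc_T_ball ha
  · exact mc_T_ball ha

/-- The corridor keeps away from the source. -/
private theorem mc_corr_cut {s : Src} {d δ : Side} {k : ℕ} {C : Set Vert} {N : Set Config}
    (hk : 1 ≤ k) (hM : MoveData k d δ C N) {ω : Config} {a : Vert} (ha : a ∈ C) :
    s.cut ω (sv a) = ω (sv a) :=
  cut_of_not_ball fun h => mc_T_far hk (hM.inter ⟨ha, ball_mono' (by omega) h⟩) h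

/-- The new fence. -/
private theorem mc_fence {s : Src} {d δ : Side} {k : ℕ} {C D D' : Set Vert} {N : Set Config}
    (hk : 1 ≤ k) (hM : MoveData k d δ C N) {ω : Config} (hN : sit ω ∈ N) {x : Vert}
    (hf : Fence d k (sit (s.cut ω)) D x) (hD : D ∪ C ⊆ D') :
    Fence δ (4 * k) (sit (s.cut ω)) D' x := by
  refine fence_mono hD (fun _ h => h)
    (hM.hook (sit ω) hN (sit (s.cut ω)) D x (fun e he ho => ?_) hf)
  rw [sit_true] at ho ⊢
  rw [mc_corr_cut hk hM he.1, mc_corr_cut hk hM he.2]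
  exact ho

private theorem mc_C_dom' {d δ δ' : Side} {k : ℕ} {C : Set Vert} {N : Set Config}
    (hM : MoveData k d δ C N) : C ⊆ ball 0 (32 * (4 * k)) ∪ (T δ (4 * k) ∪ T δ' (4 * k)) := by
  intro a ha
  rcases hM.sub ha with h | h
  · exact Or.inl (ball_mono' (by omega) h)
  · exact Or.inr (Or.inl h)

/-- The new mouth. -/
private theorem mc_mouth {d d₁ d₂ δ : Side} {k ρ : ℕ} {C X : Set Vert} {N : Set Config}
    (hk : 1 ≤ k) (hρk : 4 * ρ + 2 ≤ k) (hM : MoveData k d δ C N) (hX : X ⊆ dom d₁ d₂ k) {v : Vert}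
    (hv : v ∈ sphere 0 (32 * (4 * k)))
    (h : v ∈ X ∪ C ∨ ∃ a ∈ C ∪ Mouth d k, v ∈ ball a (4 * ρ + 1)) : v ∈ Mouth δ (4 * k) := by
  have e1 : 32 * (4 * k) = 128 * k := by ring
  rw [e1] at hv
  have hfar : v ∉ ball 0 (36 * k) := by
    intro hb
    have h2 := hv.2
    simp only [mem_ball, Prod.fst_zero, Prod.snd_zero] at hb h2
    push_cast at hb h2
    omega
  rcases h with (h | h) | ⟨a, ha | ha, h⟩
  · exact absurd (mc_dom_ball (hX h)) hfar
  · exact hM.mouth v hv v h self_mem_ball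
  · exact hM.mouth v hv a ha (ball_mono' (by omega) h)
  · refine absurd ?_ hfar
    have h1 := mc_Mouth_ball ha
    simp only [mem_ball, Prod.fst_zero, Prod.snd_zero] at h1 h ⊢
    push_cast at h1 h ⊢
    omega

/-- Deterministic part. -/
theorem move_det {s : Src} {d d' δ δ' : Side} {k ρ : ℕ} {C C' : Set Vert} {N N' : Set Config}
    {G : Finset Vert} (hk : 4 ≤ k) (hρk : 4 * ρ + 2 ≤ k) (hM : MoveData k d δ C N)
    (hM' : MoveData k d' δ' C' N') (hS : MoveSep k d d' C C')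
    (hG : ∀ a ∈ ball 0 (144 * k + 1), ∃ g ∈ G, a ∈ ball g ρ) {ω : Config}
    (hω : ω ∈ Sep s d d' k) (hN : sit ω ∈ N) (hN' : sit ω ∈ N')
    (hseal : ω ∈ Seal G ρ (rv (dom d d' k) (FX s d d' k ω ∪ FY s d d' k ω) ∪ vE (C ∪ C'))) :
    ω ∈ Sep s δ δ' (4 * k) := by
  have hk1 : 1 ≤ k := by omega
  obtain ⟨hf, hf', hxy, hm, hm'⟩ := hω
  have hxo : s.cut ω (sv s.x) = true := open_of_fence hk1 s.hx hf
  have hyo : s.cut ω (sv s.y) = true := open_of_fence hk1 s.hy hf'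
  set Dm : Set Vert := dom d d' k with hDm
  set X : Set Vert := FX s d d' k ω with hXdef
  set Y : Set Vert := FY s d d' k ω with hYdef
  have hXD : X ⊆ Dm := clus_sub
  have hYD : Y ⊆ Dm := clus_sub
  have hxD : s.x ∈ Dm := by
    obtain ⟨u, _, h⟩ := fence_mem hf
    exact h.mem_left
  have hyD : s.y ∈ Dm := by
    obtain ⟨u, _, h⟩ := fence_mem hf'
    exact h.mem_left
  have hxX : s.x ∈ X := ⟨s.x, rfl, Conn.refl hxD⟩
  have hyY : s.y ∈ Y := ⟨s.y, rfl, Conn.refl hyD⟩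
  have hXY : ∀ a ∈ X, a ∉ Y := by
    intro a ha hb
    exact hxy ((mem_clus_single.1 ha).trans (mem_clus_single.1 hb).symm)
  have hTX : T d k ⊆ X := by
    intro a ha
    obtain ⟨u, hu, hc⟩ := fence_mem hf
    refine clus_conn (a := u) ⟨s.x, rfl, conn_mono subset_rfl (fun e he => le_fillS he) hc⟩ ?_
    have h1 : Conn (sit (fillS (T d k) (s.cut ω))) (dom d d' k) u a :=
      conn_fillS (fun z hz => Or.inr (Or.inl hz)) (mc_T hu ha)
    exact conn_mono subset_rfl (fun e he => fillS_mono Set.subset_union_left he) h1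
  have hTY : T d' k ⊆ Y := by
    intro a ha
    obtain ⟨u, hu, hc⟩ := fence_mem hf'
    refine clus_conn (a := u) ⟨s.y, rfl, conn_mono subset_rfl (fun e he => le_fillS he) hc⟩ ?_
    have h1 : Conn (sit (fillS (T d' k) (s.cut ω))) (dom d d' k) u a :=
      conn_fillS (fun z hz => Or.inr (Or.inr hz)) (mc_T hu ha)
    exact conn_mono subset_rfl (fun e he => fillS_mono Set.subset_union_right he) h1
  have hdisj : ∀ a ∈ C, a ∉ C' := fun a ha hb => hS a (Or.inl ha) a (Or.inl hb) self_mem_ball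
  have hCX : ∀ a ∈ C, a ∈ Dm → a ∈ X := by
    rintro a ha (h | h | h)
    · exact hTX (hM.inter ⟨ha, h⟩)
    · exact hTX h
    · exact absurd (hM'.T_sub h) (hdisj a ha)
  have hCY : ∀ a ∈ C', a ∈ Dm → a ∈ Y := by
    rintro a ha (h | h | h)
    · exact hTY (hM'.inter ⟨ha, h⟩)
    · exact absurd ha (hdisj a (hM.T_sub h))
    · exact hTY h
  have hCT : ∀ a ∈ C ∪ C', a ∈ Dm → a ∈ T d k ∪ T d' k := by
    rintro a (ha | ha) (h | h | h)
    · exact Or.inl (hM.inter ⟨ha, h⟩)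
    · exact Or.inl h
    · exact Or.inr h
    · exact Or.inr (hM'.inter ⟨ha, h⟩)
    · exact Or.inl h
    · exact Or.inr h
  have hXe : ∀ a b e, Joins e a b → a ∈ X → b ∉ Dm → a ∈ C ∪ Mouth d k := by
    intro a b e hj ha hb
    rcases mc_exit hj (hXD ha) hb with h | h | h
    · exact Or.inr (hm a h (mem_clus_single.1 ha))
    · exact Or.inl (hM.T_sub h)
    · exact absurd (hTY h) (hXY a ha)
  have hYe : ∀ a b e, Joins e a b → a ∈ Y → b ∉ Dm → a ∈ C' ∪ Mouth d' k := by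
    intro a b e hj ha hb
    rcases mc_exit hj (hYD ha) hb with h | h | h
    · exact Or.inr (hm' a h (mem_clus_single.1 ha))
    · exact absurd ha (hXY a (hTX h))
    · exact Or.inl (hM'.T_sub h)
  have hC144 : ∀ {dd δδ : Side} {CC : Set Vert} {NN : Set Config}, MoveData k dd δδ CC NN →
      ∀ a ∈ CC ∪ Mouth dd k, a ∈ ball (0 : Vert) (144 * k) := by
    rintro dd δδ CC NN hMM a (ha | ha)
    · rcases hMM.sub ha with h | h
      · exact ball_mono' (by omega) h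
      · exact ball_mono' (by omega) (mc_T_ball h)
    · exact ball_mono' (by omega) (mc_Mouth_ball ha)
  have hG' : ∀ a ∈ ball (0 : Vert) (144 * k), ∀ b, b ∈ ball a 1 → ∃ g ∈ G, b ∈ ball g ρ := by
    intro a ha b hb
    refine hG b ?_
    simp only [mem_ball, Prod.fst_zero, Prod.snd_zero] at ha hb ⊢
    push_cast at ha hb ⊢
    omega
  have hstepX : ∀ a b e, Joins e a b → fillS (C ∪ C') (s.cut ω) (sv b) = true → a ∈ X →
      b ∈ Dm → b ∈ X := fun a b e hj ho ha hb => mc_step hxo hj hCT ho ha hb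
  have hstepY : ∀ a b e, Joins e a b → fillS (C ∪ C') (s.cut ω) (sv b) = true → a ∈ Y →
      b ∈ Dm → b ∈ Y := fun a b e hj ho ha hb => mc_step hyo hj hCT ho ha hb
  have confX : ∀ z, Conn (sit (fillS (C ∪ C') (s.cut ω))) Set.univ s.x z →
      z ∈ X ∪ C ∨ (z ∉ Y ∪ C' ∧ ∃ a ∈ C ∪ Mouth d k, z ∈ ball a (4 * ρ + 1)) := by
    intro z hz
    exact mc_conf (Dm := Dm) (My := Mouth d' k) rfl hk1 hρk (fun e he => cut_le he)
      hstepX hstepY hXD hYD hCX hXe hYe hS (fun a ha => hG' a (hC144 hM a ha)) hseal hxX hz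
  have confY : ∀ z, Conn (sit (fillS (C ∪ C') (s.cut ω))) Set.univ s.y z →
      z ∈ Y ∪ C' ∨ (z ∉ X ∪ C ∧ ∃ a ∈ C' ∪ Mouth d' k, z ∈ ball a (4 * ρ + 1)) := by
    intro z hz
    rw [Set.union_comm C C'] at hz hstepX hstepY
    refine mc_conf (Dm := Dm) (X := Y) (Y := X) (C := C') (C' := C) (Mx := Mouth d' k)
      (My := Mouth d k) (t := rv Dm (X ∪ Y) ∪ vE (C ∪ C')) ?_ hk1 hρk (fun e he => cut_le he)
      hstepY hstepX hYD hXD hCY hYe hXe
      (fun a ha b hb h => hS b hb a ha (ball_symm' h))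
      (fun a ha => hG' a (hC144 hM' a ha)) hseal hyY hz
    rw [Set.union_comm Y X, Set.union_comm C' C]
  -- comparison of the new filled configuration with the filled corridors
  have hle : ∀ e, s.ful δ δ' (4 * k) ω e = true → fillS (C ∪ C') (s.cut ω) e = true :=
    fun e he => fillS_mono (Set.union_subset_union hM.T_sub' hM'.T_sub') he
  have hD1 : dom d d' k ∪ C ⊆ dom δ δ' (4 * k) := by
    apply Set.union_subset
    · intro a ha
      exact Or.inl (ball_mono' (by omega) (mc_dom_ball ha))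
    · exact mc_C_dom' hM
  have hD2 : dom d d' k ∪ C' ⊆ dom δ δ' (4 * k) := by
    apply Set.union_subset
    · intro a ha
      exact Or.inl (ball_mono' (by omega) (mc_dom_ball ha))
    · intro a ha
      rcases mc_C_dom' (δ' := δ) hM' ha with h | h | h
      · exact Or.inl h
      · exact Or.inr (Or.inr h)
      · exact Or.inr (Or.inl h)
  refine ⟨mc_fence hk1 hM hN hf hD1, mc_fence hk1 hM' hN' hf' hD2, ?_, ?_, ?_⟩
  · intro hc
    rcases confX s.y (conn_mono (Set.subset_univ _) hle hc) with (h | h) | ⟨h, -⟩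
    · exact hXY s.y h hyY
    · exact hXY s.y (hCX s.y h hyD) hyY
    · exact h (Or.inl hyY)
  · intro v hv hc
    refine mc_mouth hk1 hρk hM hXD hv ?_
    rcases confX v (conn_mono (Set.subset_univ _) hle hc) with h | ⟨-, h⟩
    · exact Or.inl h
    · exact Or.inr h
  · intro v hv hc
    refine mc_mouth hk1 hρk hM' hYD hv ?_
    rcases confY v (conn_mono (Set.subset_univ _) hle hc) with h | ⟨-, h⟩
    · exact Or.inl h
    · exact Or.inr h

theorem move_core (c : ℝ) (hc : 0 < c) (K : ℕ) (c₁ : ℝ) (hc₁ : 0 < c₁) : ∃ C₀ : ℝ, 0 < C₀ ∧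
    ∀ (s : Src) (d d' δ δ' : Side) (k n : ℕ) (C C' : Set Vert) (N N' : Set Config) (q : I),
      8 ≤ k → k ≤ K * n → RSWreg c n q → MoveData k d δ C N → MoveData k d' δ' C' N' →
      MoveSep k d d' C C' → c₁ ≤ Pr q {ω | sit ω ∈ N} → c₁ ≤ Pr q {ω | sit ω ∈ N'} →
        Pr q (Sep s d d' k) ≤ C₀ * Pr q (Sep s δ δ' (4 * k)) := by
  classical
  obtain ⟨c₂, hc₂, hlow⟩ := seal_lower c hc K ((2 * 2200 + 1) ^ 2)
  refine ⟨(c₁ * c₁ * c₂)⁻¹, inv_pos.2 (by positivity), ?_⟩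
  intro s d d' δ δ' k n C C' N N' q hk hkn hR hM hM' hS hN hN'
  have hk1 : 1 ≤ k := by omega
  have hn : 1 ≤ n := by
    rcases Nat.eq_zero_or_pos n with h | h
    · subst h
      omega
    · exact h
  set ρ : ℕ := k / 8 with hρdef
  have hρ : 1 ≤ ρ := by omega
  have hρk : 4 * ρ + 2 ≤ k := by omega
  set G : Finset Vert := grid ρ 2200 with hGdef
  have hG : ∀ a ∈ ball (0 : Vert) (144 * k + 1), ∃ g ∈ G, a ∈ ball g ρ := by
    intro a ha
    exact exists_grid hρ (ball_mono' (by omega) ha)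
  have hC144 : ∀ {dd δδ : Side} {CC : Set Vert} {NN : Set Config}, MoveData k dd δδ CC NN →
      CC ⊆ ball (0 : Vert) (144 * k) := by
    intro dd δδ CC NN hMM a ha
    rcases hMM.sub ha with h | h
    · exact ball_mono' (by omega) h
    · exact ball_mono' (by omega) (mc_T_ball h)
  have hfin : (C ∪ C').Finite := by
    have h1 : (ball (0 : Vert) (144 * k)).Finite := by
      refine Set.Finite.subset ((Set.finite_Icc (-(144 * k : ℤ)) (144 * k)).prod
        (Set.finite_Icc (-(144 * k : ℤ)) (144 * k))) ?_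
      rintro ⟨x, y⟩ h
      simp only [mem_ball, Prod.fst_zero, Prod.snd_zero, Nat.cast_mul, Nat.cast_ofNat] at h
      refine ⟨⟨?_, ?_⟩, ⟨?_, ?_⟩⟩ <;> simp only <;> omega
    exact h1.subset (Set.union_subset (hC144 hM) (hC144 hM'))
  -- local events
  obtain ⟨Λ, hΛ⟩ := exists_fin (144 * k)
  have hΛC : ∀ {dd δδ : Side} {CC : Set Vert} {NN : Set Config}, MoveData k dd δδ CC NN →
      LocalOn Λ {ω | sit ω ∈ NN} := by
    intro dd δδ CC NN hMM
    exact locS_localOn (locS_sit_inE hMM.loc)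
      fun e he => Finset.mem_coe.2 (hΛ e (vE_mono (hC144 hMM) he))
  have hloc : LocS (vE (C ∪ C')) ({ω | sit ω ∈ N} ∩ {ω | sit ω ∈ N'}) :=
    locS_inter (locS_mono (locS_sit_inE hM.loc) (vE_mono Set.subset_union_left))
      (locS_mono (locS_sit_inE hM'.loc) (vE_mono Set.subset_union_right))
  have hP : c₁ * c₁ ≤ Pr q {ω | pb id ω ∈ {ω | sit ω ∈ N} ∩ {ω | sit ω ∈ N'}} := by
    have h1 := fkg (p := q) (hΛC hM) (hΛC hM') (incr_sit hM.incr) (incr_sit hM'.incr)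
    exact (mul_le_mul hN hN' hc₁.le Pr_nonneg).trans h1
  have hdisj : ∀ a ∈ C, a ∉ C' := fun a ha hb => hS a (Or.inl ha) a (Or.inl hb) self_mem_ball
  have hdet : ∀ S, det id d d' k (C ∪ C') S = rv (dom d d' k) S ∪ vE (C ∪ C') := by
    intro S
    ext e
    constructor
    · rintro ⟨e', he', h⟩
      have h' : e = e' := h
      rwa [h']
    · intro he
      exact ⟨e, he, rfl⟩
  have main := corridor_prob (q := q) (π := id) (s := s) (d := d) (d' := d') (k := k)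
    (C := C ∪ C') (Np := {ω | sit ω ∈ N} ∩ {ω | sit ω ∈ N'})
    (H := fun S => Seal G ρ (rv (dom d d' k) S ∪ vE (C ∪ C')))
    (c₁ := c₁ * c₁) (c₂ := c₂) hc₂.le (Set.injOn_id _)
    (Set.union_subset_union hM.T_sub hM'.T_sub)
    (by
      rintro a ⟨ha | ha, h | h | h⟩
      · exact Or.inl (hM.inter ⟨ha, h⟩)
      · exact Or.inl h
      · exact absurd (hM'.T_sub h) (hdisj a ha)
      · exact Or.inr (hM'.inter ⟨ha, h⟩)
      · exact absurd ha (hdisj a (hM.T_sub h))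
      · exact Or.inr h)
    hfin hloc ((incr_sit hM.incr).inter (incr_sit hM'.incr)) hP
    (fun S => by
      rw [hdet S]
      exact locS_seal _ _ _)
    (by
      obtain ⟨Λ', h⟩ := localOn_seal G ρ
      exact ⟨Λ', fun S => h _⟩)
    (fun S => hlow n ρ q G _ hn hR hρ (by omega) (card_grid _ _))
  have h2 : {ω | pb id ω ∈ Sep s d d' k ∧ pb id ω ∈ {ω | sit ω ∈ N} ∩ {ω | sit ω ∈ N'} ∧
      pb id ω ∈ (fun S => Seal G ρ (rv (dom d d' k) S ∪ vE (C ∪ C')))
        (FX s d d' k (pb id ω) ∪ FY s d d' k (pb id ω))} ⊆ Sep s δ δ' (4 * k) := by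
    rintro ω ⟨h1, ⟨h2, h3⟩, h4⟩
    exact move_det (by omega) hρk hM hM' hS hG h1 h2 h3 h4
  have h3 := main.trans (Pr_mono h2)
  have hpos : 0 < c₁ * c₁ * c₂ := by positivity
  rw [inv_mul_eq_div, le_div_iff₀ hpos, mul_comm]
  exact h3

end Pool.Agent.H38.N59

end

section

/-!
# All moves between pairs of sides, for sites
-/

set_option autoImplicit false

open MeasureTheory ProbabilityTheory unitInterval

namespace Pool.Agent.H38.N59

open Pool.Agent.H89.Perc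
open Pool.Agent.H61.NC hiding RSWreg
open Pool.Agent.H83.SK (sv sit sit_true RSWreg)
open Pool.Agent.H59.EX (Side Gen MoveData MoveSep move_straight move_turn msep_EW msep_EN msep_WT msep_ST)
open Pool.Agent.H83.SK.NG (prob_move)

/-- The separated event with sides `d, d'` at scale `k` can be extended to sides `e, e'` at scale
`4 ^ m k`. -/
def OKm (m : ℕ) (d d' e e' : Side) : Prop :=
  ∀ (c : ℝ) (K : ℕ), 0 < c → ∃ C : ℝ, 0 < C ∧ ∀ (s : Src) (k n : ℕ) (q : I), 8 ≤ k → k ≤ K * n →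
    RSWreg c n q → Pr q (Sep s d d' k) ≤ C * Pr q (Sep s e e' (4 ^ m * k))

variable {m m' : ℕ} {d d' e e' f f' : Side}

private theorem hk4 {k : ℕ} (hk : 8 ≤ k) : 4 ≤ k := by omega

theorem okm_map (g : Gen) (h : OKm m d d' e e') : OKm m (g.s d) (g.s d') (g.s e) (g.s e') := by
  intro c K hc
  obtain ⟨C, hC, H⟩ := h c K hc
  refine ⟨C, hC, fun s k n q hk hkn hR => ?_⟩
  have h1 := H (s.map g) k n q hk hkn hR
  have h2 : ∀ (a b : Side) (j : ℕ),
      Pr q (Sep (s.map g) a b j) = Pr q (Sep s (g.s a) (g.s b) j) := by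
    intro a b j
    have h3 := sep_map (q := q) (s := s) (d := g.s a) (d' := g.s b) (k := j) g
    rw [Gen.s_s, Gen.s_s] at h3
    exact h3
  rw [h2, h2] at h1
  exact h1

theorem okm_flip (h : OKm m d d' e e') : OKm m d' d e' e := by
  intro c K hc
  obtain ⟨C, hC, H⟩ := h c K hc
  refine ⟨C, hC, fun s k n q hk hkn hR => ?_⟩
  have h1 := H s.flip k n q hk hkn hR
  rw [sep_flip, sep_flip] at h1
  exact h1

theorem okm_trans (h : OKm m d d' e e') (h' : OKm m' e e' f f') : OKm (m + m') d d' f f' := by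
  intro c K hc
  obtain ⟨C, hC, H⟩ := h c K hc
  obtain ⟨C', hC', H'⟩ := h' c (4 ^ m * K) hc
  refine ⟨C * C', mul_pos hC hC', fun s k n q hk hkn hR => ?_⟩
  have h1 := H s k n q hk hkn hR
  have hpos : 1 ≤ 4 ^ m := Nat.one_le_pow _ _ (by norm_num)
  have h2 := H' s (4 ^ m * k) n q (by nlinarith) (by nlinarith) hR
  have h3 : 4 ^ m' * (4 ^ m * k) = 4 ^ (m + m') * k := by
    rw [pow_add]; ring
  rw [h3] at h2
  calc Pr q (Sep s d d' k) ≤ C * Pr q (Sep s e e' (4 ^ m * k)) := h1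
    _ ≤ C * (C' * Pr q (Sep s f f' (4 ^ (m + m') * k))) :=
        mul_le_mul_of_nonneg_left h2 hC.le
    _ = C * C' * Pr q (Sep s f f' (4 ^ (m + m') * k)) := by ring

theorem okm_EW : OKm 1 .E .W .E .W := by
  intro c K hc
  obtain ⟨c', hc', H⟩ := prob_move c hc K
  obtain ⟨C, hC, G⟩ := move_core c hc K c' hc'
  refine ⟨C, hC, fun s k n q hk hkn hR => ?_⟩
  have h1 := G s .E .W .E .W k n _ _ _ _ q hk hkn hR (move_straight (hk4 hk) .E) (move_straight (hk4 hk) .W)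
    (msep_EW (hk4 hk)) (H .E k n q (hk4 hk) hkn hR).1 (H .W k n q (hk4 hk) hkn hR).1
  simpa using h1

theorem okm_EN : OKm 1 .E .N .E .N := by
  intro c K hc
  obtain ⟨c', hc', H⟩ := prob_move c hc K
  obtain ⟨C, hC, G⟩ := move_core c hc K c' hc'
  refine ⟨C, hC, fun s k n q hk hkn hR => ?_⟩
  have h1 := G s .E .N .E .N k n _ _ _ _ q hk hkn hR (move_straight (hk4 hk) .E) (move_straight (hk4 hk) .N)
    (msep_EN (hk4 hk)) (H .E k n q (hk4 hk) hkn hR).1 (H .N k n q (hk4 hk) hkn hR).1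
  simpa using h1

theorem okm_WT : OKm 1 .W .E .W .N := by
  intro c K hc
  obtain ⟨c', hc', H⟩ := prob_move c hc K
  obtain ⟨C, hC, G⟩ := move_core c hc K c' hc'
  refine ⟨C, hC, fun s k n q hk hkn hR => ?_⟩
  have h1 := G s .W .E .W .N k n _ _ _ _ q hk hkn hR (move_straight (hk4 hk) .W) (move_turn (hk4 hk))
    (msep_WT (hk4 hk)) (H .W k n q (hk4 hk) hkn hR).1 (H .W k n q (hk4 hk) hkn hR).2
  simpa using h1

theorem okm_ST : OKm 1 .S .E .S .N := by
  intro c K hc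
  obtain ⟨c', hc', H⟩ := prob_move c hc K
  obtain ⟨C, hC, G⟩ := move_core c hc K c' hc'
  refine ⟨C, hC, fun s k n q hk hkn hR => ?_⟩
  have h1 := G s .S .E .S .N k n _ _ _ _ q hk hkn hR (move_straight (hk4 hk) .S) (move_turn (hk4 hk))
    (msep_ST (hk4 hk)) (H .S k n q (hk4 hk) hkn hR).1 (H .S k n q (hk4 hk) hkn hR).2
  simpa using h1

theorem mv_EWEW : OKm 1 .E .W .E .W := okm_EW

theorem mv_ENEN : OKm 1 .E .N .E .N := okm_EN

theorem mv_WEWN : OKm 1 .W .E .W .N := okm_WT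

theorem mv_SESN : OKm 1 .S .E .S .N := okm_ST

theorem mv_NSNS : OKm 1 .N .S .N .S := okm_map .sw okm_EW

theorem mv_WEWE : OKm 1 .W .E .W .E := okm_map .rx okm_EW

theorem mv_NENE : OKm 1 .N .E .N .E := okm_map .sw okm_EN

theorem mv_WNWN : OKm 1 .W .N .W .N := okm_map .rx okm_EN

theorem mv_ESES : OKm 1 .E .S .E .S := okm_map .ry okm_EN

theorem mv_SNSE : OKm 1 .S .N .S .E := okm_map .sw okm_WT

theorem mv_EWEN : OKm 1 .E .W .E .N := okm_map .rx okm_WT

theorem mv_WEWS : OKm 1 .W .E .W .S := okm_map .ry okm_WT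

theorem mv_EWNW : OKm 1 .E .W .N .W := okm_flip okm_WT

theorem mv_WNWE : OKm 1 .W .N .W .E := okm_map .sw okm_ST

theorem mv_SWSN : OKm 1 .S .W .S .N := okm_map .rx okm_ST

theorem mv_NENS : OKm 1 .N .E .N .S := okm_map .ry okm_ST

theorem mv_ESNS : OKm 1 .E .S .N .S := okm_flip okm_ST

theorem mv_SNSN : OKm 1 .S .N .S .N := okm_map .ry (okm_map .sw okm_EW)

theorem mv_NWNW : OKm 1 .N .W .N .W := okm_map .rx (okm_map .sw okm_EN)

theorem mv_SESE : OKm 1 .S .E .S .E := okm_map .ry (okm_map .sw okm_EN)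

theorem mv_WSWS : OKm 1 .W .S .W .S := okm_map .ry (okm_map .rx okm_EN)

theorem mv_SNSW : OKm 1 .S .N .S .W := okm_map .rx (okm_map .sw okm_WT)

theorem mv_NSNE : OKm 1 .N .S .N .E := okm_map .ry (okm_map .sw okm_WT)

theorem mv_NSES : OKm 1 .N .S .E .S := okm_flip (okm_map .sw okm_WT)

theorem mv_EWES : OKm 1 .E .W .E .S := okm_map .ry (okm_map .rx okm_WT)

theorem mv_WENE : OKm 1 .W .E .N .E := okm_flip (okm_map .rx okm_WT)

theorem mv_EWSW : OKm 1 .E .W .S .W := okm_flip (okm_map .ry okm_WT)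

theorem mv_ENEW : OKm 1 .E .N .E .W := okm_map .rx (okm_map .sw okm_ST)

theorem mv_WSWE : OKm 1 .W .S .W .E := okm_map .ry (okm_map .sw okm_ST)

theorem mv_NWEW : OKm 1 .N .W .E .W := okm_flip (okm_map .sw okm_ST)

theorem mv_NWNS : OKm 1 .N .W .N .S := okm_map .ry (okm_map .rx okm_ST)

theorem mv_WSNS : OKm 1 .W .S .N .S := okm_flip (okm_map .rx okm_ST)

theorem mv_ENSN : OKm 1 .E .N .S .N := okm_flip (okm_map .ry okm_ST)

theorem mv_SWSW : OKm 1 .S .W .S .W := okm_map .ry (okm_map .rx (okm_map .sw okm_EN))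

theorem mv_NSNW : OKm 1 .N .S .N .W := okm_map .ry (okm_map .rx (okm_map .sw okm_WT))

theorem mv_NSWS : OKm 1 .N .S .W .S := okm_flip (okm_map .rx (okm_map .sw okm_WT))

theorem mv_SNEN : OKm 1 .S .N .E .N := okm_flip (okm_map .ry (okm_map .sw okm_WT))

theorem mv_WESE : OKm 1 .W .E .S .E := okm_flip (okm_map .ry (okm_map .rx okm_WT))

theorem mv_ESEW : OKm 1 .E .S .E .W := okm_map .ry (okm_map .rx (okm_map .sw okm_ST))

theorem mv_NEWE : OKm 1 .N .E .W .E := okm_flip (okm_map .rx (okm_map .sw okm_ST))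

theorem mv_SWEW : OKm 1 .S .W .E .W := okm_flip (okm_map .ry (okm_map .sw okm_ST))

theorem mv_WNSN : OKm 1 .W .N .S .N := okm_flip (okm_map .ry (okm_map .rx okm_ST))

theorem mv_SNWN : OKm 1 .S .N .W .N := okm_flip (okm_map .ry (okm_map .rx (okm_map .sw okm_WT)))

theorem mv_SEWE : OKm 1 .S .E .W .E := okm_flip (okm_map .ry (okm_map .rx (okm_map .sw okm_ST)))

theorem okm_straight (h : d ≠ d') : OKm 1 d d' d d' := by
  cases d <;> cases d' <;> first | exact absurd rfl h | skip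
  · exact mv_ENEN
  · exact mv_EWEW
  · exact mv_ESES
  · exact mv_NENE
  · exact mv_NWNW
  · exact mv_NSNS
  · exact mv_WEWE
  · exact mv_WNWN
  · exact mv_WSWS
  · exact mv_SESE
  · exact mv_SNSN
  · exact mv_SWSW

theorem mw_ENEN : OKm 2 .E .N .E .N :=
  okm_trans (m := 1) (m' := 1) mv_ENEN mv_ENEN

theorem mw_ENEW : OKm 2 .E .N .E .W :=
  okm_trans (m := 1) (m' := 1) mv_ENEN mv_ENEW

theorem mw_ENSN : OKm 2 .E .N .S .N :=
  okm_trans (m := 1) (m' := 1) mv_ENEN mv_ENSN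

theorem mw_ENES : OKm 2 .E .N .E .S :=
  okm_trans (m := 1) (m' := 1) mv_ENEW mv_EWES

theorem mw_ENNW : OKm 2 .E .N .N .W :=
  okm_trans (m := 1) (m' := 1) mv_ENEW mv_EWNW

theorem mw_ENSW : OKm 2 .E .N .S .W :=
  okm_trans (m := 1) (m' := 1) mv_ENEW mv_EWSW

theorem mw_ENSE : OKm 2 .E .N .S .E :=
  okm_trans (m := 1) (m' := 1) mv_ENSN mv_SNSE

theorem mw_ENWN : OKm 2 .E .N .W .N :=
  okm_trans (m := 1) (m' := 1) mv_ENSN mv_SNWN

theorem mw_ESES : OKm 2 .E .S .E .S :=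
  okm_trans (m := 1) (m' := 1) mv_ESES mv_ESES

theorem mw_ESEW : OKm 2 .E .S .E .W :=
  okm_trans (m := 1) (m' := 1) mv_ESES mv_ESEW

theorem mw_ESNS : OKm 2 .E .S .N .S :=
  okm_trans (m := 1) (m' := 1) mv_ESES mv_ESNS

theorem mw_ESEN : OKm 2 .E .S .E .N :=
  okm_trans (m := 1) (m' := 1) mv_ESEW mv_EWEN

theorem mw_ESSW : OKm 2 .E .S .S .W :=
  okm_trans (m := 1) (m' := 1) mv_ESEW mv_EWSW

theorem mw_ESNE : OKm 2 .E .S .N .E :=
  okm_trans (m := 1) (m' := 1) mv_ESNS mv_NSNE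

theorem mw_ESNW : OKm 2 .E .S .N .W :=
  okm_trans (m := 1) (m' := 1) mv_ESNS mv_NSNW

theorem mw_ESWS : OKm 2 .E .S .W .S :=
  okm_trans (m := 1) (m' := 1) mv_ESNS mv_NSWS

theorem mw_EWSN : OKm 2 .E .W .S .N :=
  okm_trans (m := 1) (m' := 1) mv_EWEN mv_ENSN

theorem mw_EWEN : OKm 2 .E .W .E .N :=
  okm_trans (m := 1) (m' := 1) mv_EWEW mv_EWEN

theorem mw_EWES : OKm 2 .E .W .E .S :=
  okm_trans (m := 1) (m' := 1) mv_EWEW mv_EWES

theorem mw_EWEW : OKm 2 .E .W .E .W :=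
  okm_trans (m := 1) (m' := 1) mv_EWEW mv_EWEW

theorem mw_EWNW : OKm 2 .E .W .N .W :=
  okm_trans (m := 1) (m' := 1) mv_EWEW mv_EWNW

theorem mw_EWSW : OKm 2 .E .W .S .W :=
  okm_trans (m := 1) (m' := 1) mv_EWEW mv_EWSW

theorem mw_EWNS : OKm 2 .E .W .N .S :=
  okm_trans (m := 1) (m' := 1) mv_EWNW mv_NWNS

theorem mw_NENE : OKm 2 .N .E .N .E :=
  okm_trans (m := 1) (m' := 1) mv_NENE mv_NENE

theorem mw_NENS : OKm 2 .N .E .N .S :=
  okm_trans (m := 1) (m' := 1) mv_NENE mv_NENS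

theorem mw_NEWE : OKm 2 .N .E .W .E :=
  okm_trans (m := 1) (m' := 1) mv_NENE mv_NEWE

theorem mw_NEES : OKm 2 .N .E .E .S :=
  okm_trans (m := 1) (m' := 1) mv_NENS mv_NSES

theorem mw_NENW : OKm 2 .N .E .N .W :=
  okm_trans (m := 1) (m' := 1) mv_NENS mv_NSNW

theorem mw_NEWS : OKm 2 .N .E .W .S :=
  okm_trans (m := 1) (m' := 1) mv_NENS mv_NSWS

theorem mw_NESE : OKm 2 .N .E .S .E :=
  okm_trans (m := 1) (m' := 1) mv_NEWE mv_WESE

theorem mw_NEWN : OKm 2 .N .E .W .N :=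
  okm_trans (m := 1) (m' := 1) mv_NEWE mv_WEWN

theorem mw_NSEW : OKm 2 .N .S .E .W :=
  okm_trans (m := 1) (m' := 1) mv_NSES mv_ESEW

theorem mw_NSWE : OKm 2 .N .S .W .E :=
  okm_trans (m := 1) (m' := 1) mv_NSNE mv_NEWE

theorem mw_NSES : OKm 2 .N .S .E .S :=
  okm_trans (m := 1) (m' := 1) mv_NSNS mv_NSES

theorem mw_NSNE : OKm 2 .N .S .N .E :=
  okm_trans (m := 1) (m' := 1) mv_NSNS mv_NSNE

theorem mw_NSNS : OKm 2 .N .S .N .S :=
  okm_trans (m := 1) (m' := 1) mv_NSNS mv_NSNS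

theorem mw_NSNW : OKm 2 .N .S .N .W :=
  okm_trans (m := 1) (m' := 1) mv_NSNS mv_NSNW

theorem mw_NSWS : OKm 2 .N .S .W .S :=
  okm_trans (m := 1) (m' := 1) mv_NSNS mv_NSWS

theorem mw_NWEN : OKm 2 .N .W .E .N :=
  okm_trans (m := 1) (m' := 1) mv_NWEW mv_EWEN

theorem mw_NWES : OKm 2 .N .W .E .S :=
  okm_trans (m := 1) (m' := 1) mv_NWEW mv_EWES

theorem mw_NWSW : OKm 2 .N .W .S .W :=
  okm_trans (m := 1) (m' := 1) mv_NWEW mv_EWSW

theorem mw_NWNE : OKm 2 .N .W .N .E :=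
  okm_trans (m := 1) (m' := 1) mv_NWNS mv_NSNE

theorem mw_NWWS : OKm 2 .N .W .W .S :=
  okm_trans (m := 1) (m' := 1) mv_NWNS mv_NSWS

theorem mw_NWEW : OKm 2 .N .W .E .W :=
  okm_trans (m := 1) (m' := 1) mv_NWNW mv_NWEW

theorem mw_NWNS : OKm 2 .N .W .N .S :=
  okm_trans (m := 1) (m' := 1) mv_NWNW mv_NWNS

theorem mw_NWNW : OKm 2 .N .W .N .W :=
  okm_trans (m := 1) (m' := 1) mv_NWNW mv_NWNW

theorem mw_SEWE : OKm 2 .S .E .W .E :=
  okm_trans (m := 1) (m' := 1) mv_SESE mv_SEWE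

theorem mw_SEEN : OKm 2 .S .E .E .N :=
  okm_trans (m := 1) (m' := 1) mv_SESN mv_SNEN

theorem mw_SESE : OKm 2 .S .E .S .E :=
  okm_trans (m := 1) (m' := 1) mv_SESN mv_SNSE

theorem mw_SESN : OKm 2 .S .E .S .N :=
  okm_trans (m := 1) (m' := 1) mv_SESN mv_SNSN

theorem mw_SESW : OKm 2 .S .E .S .W :=
  okm_trans (m := 1) (m' := 1) mv_SESN mv_SNSW

theorem mw_SEWN : OKm 2 .S .E .W .N :=
  okm_trans (m := 1) (m' := 1) mv_SESN mv_SNWN

theorem mw_SENE : OKm 2 .S .E .N .E :=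
  okm_trans (m := 1) (m' := 1) mv_SEWE mv_WENE

theorem mw_SEWS : OKm 2 .S .E .W .S :=
  okm_trans (m := 1) (m' := 1) mv_SEWE mv_WEWS

theorem mw_SNSE : OKm 2 .S .N .S .E :=
  okm_trans (m := 1) (m' := 1) mv_SNSE mv_SESE

theorem mw_SNSN : OKm 2 .S .N .S .N :=
  okm_trans (m := 1) (m' := 1) mv_SNSE mv_SESN

theorem mw_SNWE : OKm 2 .S .N .W .E :=
  okm_trans (m := 1) (m' := 1) mv_SNSE mv_SEWE

theorem mw_SNEN : OKm 2 .S .N .E .N :=
  okm_trans (m := 1) (m' := 1) mv_SNSN mv_SNEN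

theorem mw_SNSW : OKm 2 .S .N .S .W :=
  okm_trans (m := 1) (m' := 1) mv_SNSN mv_SNSW

theorem mw_SNWN : OKm 2 .S .N .W .N :=
  okm_trans (m := 1) (m' := 1) mv_SNSN mv_SNWN

theorem mw_SNEW : OKm 2 .S .N .E .W :=
  okm_trans (m := 1) (m' := 1) mv_SNSW mv_SWEW

theorem mw_SWES : OKm 2 .S .W .E .S :=
  okm_trans (m := 1) (m' := 1) mv_SWEW mv_EWES

theorem mw_SWNW : OKm 2 .S .W .N .W :=
  okm_trans (m := 1) (m' := 1) mv_SWEW mv_EWNW

theorem mw_SWSE : OKm 2 .S .W .S .E :=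
  okm_trans (m := 1) (m' := 1) mv_SWSN mv_SNSE

theorem mw_SWSN : OKm 2 .S .W .S .N :=
  okm_trans (m := 1) (m' := 1) mv_SWSN mv_SNSN

theorem mw_SWSW : OKm 2 .S .W .S .W :=
  okm_trans (m := 1) (m' := 1) mv_SWSN mv_SNSW

theorem mw_SWEW : OKm 2 .S .W .E .W :=
  okm_trans (m := 1) (m' := 1) mv_SWSW mv_SWEW

theorem mw_WEWS : OKm 2 .W .E .W .S :=
  okm_trans (m := 1) (m' := 1) mv_WEWE mv_WEWS

theorem mw_WESN : OKm 2 .W .E .S .N :=
  okm_trans (m := 1) (m' := 1) mv_WEWN mv_WNSN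

theorem mw_WEWE : OKm 2 .W .E .W .E :=
  okm_trans (m := 1) (m' := 1) mv_WEWN mv_WNWE

theorem mw_WEWN : OKm 2 .W .E .W .N :=
  okm_trans (m := 1) (m' := 1) mv_WEWN mv_WNWN

theorem mw_WENS : OKm 2 .W .E .N .S :=
  okm_trans (m := 1) (m' := 1) mv_WEWS mv_WSNS

theorem mw_WNEN : OKm 2 .W .N .E .N :=
  okm_trans (m := 1) (m' := 1) mv_WNSN mv_SNEN

theorem mw_WNSW : OKm 2 .W .N .S .W :=
  okm_trans (m := 1) (m' := 1) mv_WNSN mv_SNSW

theorem mw_WNNE : OKm 2 .W .N .N .E :=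
  okm_trans (m := 1) (m' := 1) mv_WNWE mv_WENE

theorem mw_WNSE : OKm 2 .W .N .S .E :=
  okm_trans (m := 1) (m' := 1) mv_WNWE mv_WESE

theorem mw_WNWS : OKm 2 .W .N .W .S :=
  okm_trans (m := 1) (m' := 1) mv_WNWE mv_WEWS

theorem mw_WNSN : OKm 2 .W .N .S .N :=
  okm_trans (m := 1) (m' := 1) mv_WNWN mv_WNSN

theorem mw_WNWE : OKm 2 .W .N .W .E :=
  okm_trans (m := 1) (m' := 1) mv_WNWN mv_WNWE

theorem mw_WNWN : OKm 2 .W .N .W .N :=
  okm_trans (m := 1) (m' := 1) mv_WNWN mv_WNWN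

theorem mw_WSES : OKm 2 .W .S .E .S :=
  okm_trans (m := 1) (m' := 1) mv_WSNS mv_NSES

theorem mw_WSNW : OKm 2 .W .S .N .W :=
  okm_trans (m := 1) (m' := 1) mv_WSNS mv_NSNW

theorem mw_WSNE : OKm 2 .W .S .N .E :=
  okm_trans (m := 1) (m' := 1) mv_WSWE mv_WENE

theorem mw_WSSE : OKm 2 .W .S .S .E :=
  okm_trans (m := 1) (m' := 1) mv_WSWE mv_WESE

theorem mw_WSWN : OKm 2 .W .S .W .N :=
  okm_trans (m := 1) (m' := 1) mv_WSWE mv_WEWN

theorem mw_WSNS : OKm 2 .W .S .N .S :=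
  okm_trans (m := 1) (m' := 1) mv_WSWS mv_WSNS

theorem mw_WSWE : OKm 2 .W .S .W .E :=
  okm_trans (m := 1) (m' := 1) mv_WSWS mv_WSWE

theorem mw_WSWS : OKm 2 .W .S .W .S :=
  okm_trans (m := 1) (m' := 1) mv_WSWS mv_WSWS

theorem reach_EN (h' : e ≠ e') : OKm 4 .E .N e e' := by
  cases e <;> cases e' <;> first | exact absurd rfl h' | skip
  · exact okm_trans (m := 2) (m' := 2) mw_ENEN mw_ENEN
  · exact okm_trans (m := 2) (m' := 2) mw_ENEN mw_ENEW
  · exact okm_trans (m := 2) (m' := 2) mw_ENEN mw_ENES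
  · exact okm_trans (m := 2) (m' := 2) mw_ENNW mw_NWNE
  · exact okm_trans (m := 2) (m' := 2) mw_ENEN mw_ENNW
  · exact okm_trans (m := 2) (m' := 2) mw_ENEW mw_EWNS
  · exact okm_trans (m := 2) (m' := 2) mw_ENSN mw_SNWE
  · exact okm_trans (m := 2) (m' := 2) mw_ENEN mw_ENWN
  · exact okm_trans (m := 2) (m' := 2) mw_ENNW mw_NWWS
  · exact okm_trans (m := 2) (m' := 2) mw_ENEN mw_ENSE
  · exact okm_trans (m := 2) (m' := 2) mw_ENEN mw_ENSN
  · exact okm_trans (m := 2) (m' := 2) mw_ENEN mw_ENSW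

theorem reach_EW (h' : e ≠ e') : OKm 4 .E .W e e' := by
  cases e <;> cases e' <;> first | exact absurd rfl h' | skip
  · exact okm_trans (m := 2) (m' := 2) mw_EWEW mw_EWEN
  · exact okm_trans (m := 2) (m' := 2) mw_EWEW mw_EWEW
  · exact okm_trans (m := 2) (m' := 2) mw_EWEW mw_EWES
  · exact okm_trans (m := 2) (m' := 2) mw_EWNW mw_NWNE
  · exact okm_trans (m := 2) (m' := 2) mw_EWEW mw_EWNW
  · exact okm_trans (m := 2) (m' := 2) mw_EWEW mw_EWNS
  · exact okm_trans (m := 2) (m' := 2) mw_EWSN mw_SNWE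
  · exact okm_trans (m := 2) (m' := 2) mw_EWEN mw_ENWN
  · exact okm_trans (m := 2) (m' := 2) mw_EWNW mw_NWWS
  · exact okm_trans (m := 2) (m' := 2) mw_EWEN mw_ENSE
  · exact okm_trans (m := 2) (m' := 2) mw_EWEW mw_EWSN
  · exact okm_trans (m := 2) (m' := 2) mw_EWEW mw_EWSW

theorem reach_ES (h' : e ≠ e') : OKm 4 .E .S e e' := by
  cases e <;> cases e' <;> first | exact absurd rfl h' | skip
  · exact okm_trans (m := 2) (m' := 2) mw_ESES mw_ESEN
  · exact okm_trans (m := 2) (m' := 2) mw_ESES mw_ESEW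
  · exact okm_trans (m := 2) (m' := 2) mw_ESES mw_ESES
  · exact okm_trans (m := 2) (m' := 2) mw_ESES mw_ESNE
  · exact okm_trans (m := 2) (m' := 2) mw_ESES mw_ESNW
  · exact okm_trans (m := 2) (m' := 2) mw_ESES mw_ESNS
  · exact okm_trans (m := 2) (m' := 2) mw_ESNS mw_NSWE
  · exact okm_trans (m := 2) (m' := 2) mw_ESNE mw_NEWN
  · exact okm_trans (m := 2) (m' := 2) mw_ESES mw_ESWS
  · exact okm_trans (m := 2) (m' := 2) mw_ESNE mw_NESE
  · exact okm_trans (m := 2) (m' := 2) mw_ESEW mw_EWSN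
  · exact okm_trans (m := 2) (m' := 2) mw_ESES mw_ESSW

theorem reach_NE (h' : e ≠ e') : OKm 4 .N .E e e' := by
  cases e <;> cases e' <;> first | exact absurd rfl h' | skip
  · exact okm_trans (m := 2) (m' := 2) mw_NEES mw_ESEN
  · exact okm_trans (m := 2) (m' := 2) mw_NENS mw_NSEW
  · exact okm_trans (m := 2) (m' := 2) mw_NENE mw_NEES
  · exact okm_trans (m := 2) (m' := 2) mw_NENE mw_NENE
  · exact okm_trans (m := 2) (m' := 2) mw_NENE mw_NENW
  · exact okm_trans (m := 2) (m' := 2) mw_NENE mw_NENS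
  · exact okm_trans (m := 2) (m' := 2) mw_NENE mw_NEWE
  · exact okm_trans (m := 2) (m' := 2) mw_NENE mw_NEWN
  · exact okm_trans (m := 2) (m' := 2) mw_NENE mw_NEWS
  · exact okm_trans (m := 2) (m' := 2) mw_NENE mw_NESE
  · exact okm_trans (m := 2) (m' := 2) mw_NEWE mw_WESN
  · exact okm_trans (m := 2) (m' := 2) mw_NEES mw_ESSW

theorem reach_NW (h' : e ≠ e') : OKm 4 .N .W e e' := by
  cases e <;> cases e' <;> first | exact absurd rfl h' | skip
  · exact okm_trans (m := 2) (m' := 2) mw_NWNW mw_NWEN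
  · exact okm_trans (m := 2) (m' := 2) mw_NWNW mw_NWEW
  · exact okm_trans (m := 2) (m' := 2) mw_NWNW mw_NWES
  · exact okm_trans (m := 2) (m' := 2) mw_NWNW mw_NWNE
  · exact okm_trans (m := 2) (m' := 2) mw_NWNW mw_NWNW
  · exact okm_trans (m := 2) (m' := 2) mw_NWNW mw_NWNS
  · exact okm_trans (m := 2) (m' := 2) mw_NWNS mw_NSWE
  · exact okm_trans (m := 2) (m' := 2) mw_NWEN mw_ENWN
  · exact okm_trans (m := 2) (m' := 2) mw_NWNW mw_NWWS
  · exact okm_trans (m := 2) (m' := 2) mw_NWEN mw_ENSE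
  · exact okm_trans (m := 2) (m' := 2) mw_NWEW mw_EWSN
  · exact okm_trans (m := 2) (m' := 2) mw_NWNW mw_NWSW

theorem reach_NS (h' : e ≠ e') : OKm 4 .N .S e e' := by
  cases e <;> cases e' <;> first | exact absurd rfl h' | skip
  · exact okm_trans (m := 2) (m' := 2) mw_NSES mw_ESEN
  · exact okm_trans (m := 2) (m' := 2) mw_NSNS mw_NSEW
  · exact okm_trans (m := 2) (m' := 2) mw_NSNS mw_NSES
  · exact okm_trans (m := 2) (m' := 2) mw_NSNS mw_NSNE
  · exact okm_trans (m := 2) (m' := 2) mw_NSNS mw_NSNW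
  · exact okm_trans (m := 2) (m' := 2) mw_NSNS mw_NSNS
  · exact okm_trans (m := 2) (m' := 2) mw_NSNS mw_NSWE
  · exact okm_trans (m := 2) (m' := 2) mw_NSNE mw_NEWN
  · exact okm_trans (m := 2) (m' := 2) mw_NSNS mw_NSWS
  · exact okm_trans (m := 2) (m' := 2) mw_NSNE mw_NESE
  · exact okm_trans (m := 2) (m' := 2) mw_NSWE mw_WESN
  · exact okm_trans (m := 2) (m' := 2) mw_NSES mw_ESSW

theorem reach_WE (h' : e ≠ e') : OKm 4 .W .E e e' := by
  cases e <;> cases e' <;> first | exact absurd rfl h' | skip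
  · exact okm_trans (m := 2) (m' := 2) mw_WEWN mw_WNEN
  · exact okm_trans (m := 2) (m' := 2) mw_WESN mw_SNEW
  · exact okm_trans (m := 2) (m' := 2) mw_WEWS mw_WSES
  · exact okm_trans (m := 2) (m' := 2) mw_WEWN mw_WNNE
  · exact okm_trans (m := 2) (m' := 2) mw_WEWS mw_WSNW
  · exact okm_trans (m := 2) (m' := 2) mw_WEWE mw_WENS
  · exact okm_trans (m := 2) (m' := 2) mw_WEWN mw_WNWE
  · exact okm_trans (m := 2) (m' := 2) mw_WEWN mw_WNWN
  · exact okm_trans (m := 2) (m' := 2) mw_WEWN mw_WNWS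
  · exact okm_trans (m := 2) (m' := 2) mw_WEWN mw_WNSE
  · exact okm_trans (m := 2) (m' := 2) mw_WEWN mw_WNSN
  · exact okm_trans (m := 2) (m' := 2) mw_WEWN mw_WNSW

theorem reach_WN (h' : e ≠ e') : OKm 4 .W .N e e' := by
  cases e <;> cases e' <;> first | exact absurd rfl h' | skip
  · exact okm_trans (m := 2) (m' := 2) mw_WNWN mw_WNEN
  · exact okm_trans (m := 2) (m' := 2) mw_WNSN mw_SNEW
  · exact okm_trans (m := 2) (m' := 2) mw_WNWS mw_WSES
  · exact okm_trans (m := 2) (m' := 2) mw_WNWN mw_WNNE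
  · exact okm_trans (m := 2) (m' := 2) mw_WNWS mw_WSNW
  · exact okm_trans (m := 2) (m' := 2) mw_WNWE mw_WENS
  · exact okm_trans (m := 2) (m' := 2) mw_WNWN mw_WNWE
  · exact okm_trans (m := 2) (m' := 2) mw_WNWN mw_WNWN
  · exact okm_trans (m := 2) (m' := 2) mw_WNWN mw_WNWS
  · exact okm_trans (m := 2) (m' := 2) mw_WNWN mw_WNSE
  · exact okm_trans (m := 2) (m' := 2) mw_WNWN mw_WNSN
  · exact okm_trans (m := 2) (m' := 2) mw_WNWN mw_WNSW

theorem reach_WS (h' : e ≠ e') : OKm 4 .W .S e e' := by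
  cases e <;> cases e' <;> first | exact absurd rfl h' | skip
  · exact okm_trans (m := 2) (m' := 2) mw_WSWN mw_WNEN
  · exact okm_trans (m := 2) (m' := 2) mw_WSNS mw_NSEW
  · exact okm_trans (m := 2) (m' := 2) mw_WSWS mw_WSES
  · exact okm_trans (m := 2) (m' := 2) mw_WSWS mw_WSNE
  · exact okm_trans (m := 2) (m' := 2) mw_WSWS mw_WSNW
  · exact okm_trans (m := 2) (m' := 2) mw_WSWS mw_WSNS
  · exact okm_trans (m := 2) (m' := 2) mw_WSWS mw_WSWE
  · exact okm_trans (m := 2) (m' := 2) mw_WSWS mw_WSWN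
  · exact okm_trans (m := 2) (m' := 2) mw_WSWS mw_WSWS
  · exact okm_trans (m := 2) (m' := 2) mw_WSWS mw_WSSE
  · exact okm_trans (m := 2) (m' := 2) mw_WSWE mw_WESN
  · exact okm_trans (m := 2) (m' := 2) mw_WSWN mw_WNSW

theorem reach_SE (h' : e ≠ e') : OKm 4 .S .E e e' := by
  cases e <;> cases e' <;> first | exact absurd rfl h' | skip
  · exact okm_trans (m := 2) (m' := 2) mw_SESE mw_SEEN
  · exact okm_trans (m := 2) (m' := 2) mw_SESN mw_SNEW
  · exact okm_trans (m := 2) (m' := 2) mw_SESW mw_SWES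
  · exact okm_trans (m := 2) (m' := 2) mw_SESE mw_SENE
  · exact okm_trans (m := 2) (m' := 2) mw_SESW mw_SWNW
  · exact okm_trans (m := 2) (m' := 2) mw_SEWE mw_WENS
  · exact okm_trans (m := 2) (m' := 2) mw_SESE mw_SEWE
  · exact okm_trans (m := 2) (m' := 2) mw_SESE mw_SEWN
  · exact okm_trans (m := 2) (m' := 2) mw_SESE mw_SEWS
  · exact okm_trans (m := 2) (m' := 2) mw_SESE mw_SESE
  · exact okm_trans (m := 2) (m' := 2) mw_SESE mw_SESN
  · exact okm_trans (m := 2) (m' := 2) mw_SESE mw_SESW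

theorem reach_SN (h' : e ≠ e') : OKm 4 .S .N e e' := by
  cases e <;> cases e' <;> first | exact absurd rfl h' | skip
  · exact okm_trans (m := 2) (m' := 2) mw_SNSN mw_SNEN
  · exact okm_trans (m := 2) (m' := 2) mw_SNSN mw_SNEW
  · exact okm_trans (m := 2) (m' := 2) mw_SNSW mw_SWES
  · exact okm_trans (m := 2) (m' := 2) mw_SNSE mw_SENE
  · exact okm_trans (m := 2) (m' := 2) mw_SNSW mw_SWNW
  · exact okm_trans (m := 2) (m' := 2) mw_SNWE mw_WENS
  · exact okm_trans (m := 2) (m' := 2) mw_SNSN mw_SNWE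
  · exact okm_trans (m := 2) (m' := 2) mw_SNSN mw_SNWN
  · exact okm_trans (m := 2) (m' := 2) mw_SNSE mw_SEWS
  · exact okm_trans (m := 2) (m' := 2) mw_SNSN mw_SNSE
  · exact okm_trans (m := 2) (m' := 2) mw_SNSN mw_SNSN
  · exact okm_trans (m := 2) (m' := 2) mw_SNSN mw_SNSW

theorem reach_SW (h' : e ≠ e') : OKm 4 .S .W e e' := by
  cases e <;> cases e' <;> first | exact absurd rfl h' | skip
  · exact okm_trans (m := 2) (m' := 2) mw_SWSE mw_SEEN
  · exact okm_trans (m := 2) (m' := 2) mw_SWSN mw_SNEW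
  · exact okm_trans (m := 2) (m' := 2) mw_SWSW mw_SWES
  · exact okm_trans (m := 2) (m' := 2) mw_SWSE mw_SENE
  · exact okm_trans (m := 2) (m' := 2) mw_SWSW mw_SWNW
  · exact okm_trans (m := 2) (m' := 2) mw_SWEW mw_EWNS
  · exact okm_trans (m := 2) (m' := 2) mw_SWSE mw_SEWE
  · exact okm_trans (m := 2) (m' := 2) mw_SWSE mw_SEWN
  · exact okm_trans (m := 2) (m' := 2) mw_SWSE mw_SEWS
  · exact okm_trans (m := 2) (m' := 2) mw_SWSE mw_SESE
  · exact okm_trans (m := 2) (m' := 2) mw_SWSE mw_SESN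
  · exact okm_trans (m := 2) (m' := 2) mw_SWSE mw_SESW

/-- Everything can be reached in four moves. -/
theorem okm_reach (h : d ≠ d') (h' : e ≠ e') : OKm 4 d d' e e' := by
  cases d <;> cases d' <;> first | exact absurd rfl h | skip
  · exact reach_EN h'
  · exact reach_EW h'
  · exact reach_ES h'
  · exact reach_NE h'
  · exact reach_NW h'
  · exact reach_NS h'
  · exact reach_WE h'
  · exact reach_WN h'
  · exact reach_WS h'
  · exact reach_SE h'
  · exact reach_SN h'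
  · exact reach_SW h'

theorem bS_step (c : ℝ) (hc : 0 < c) (K : ℕ) : ∃ C : ℝ, 0 < C ∧ ∀ (s : Src) (k n : ℕ) (q : I),
    8 ≤ k → k ≤ K * n → RSWreg c n q → bS q s k ≤ C * bS q s (4 * k) := by
  have hex : ∀ d d' : Side, ∃ C : ℝ, 0 < C ∧ ∀ (s : Src) (k n : ℕ) (q : I),
      8 ≤ k → k ≤ K * n → RSWreg c n q → Pr q (Sep s d d' k) ≤ C * Pr q (Sep s d d' (4 * k)) := by
    intro d d'
    by_cases h : d = d'
    · subst h
      refine ⟨1, one_pos, fun s k n q _ _ _ => ?_⟩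
      rw [sep_same, sep_same]
      simp
    · obtain ⟨C, hC, H⟩ := okm_straight h c K hc
      refine ⟨C, hC, fun s k n q hk hkn hR => ?_⟩
      simpa using H s k n q hk hkn hR
  choose C hC H using hex
  have hle : ∀ d d' : Side, C d d' ≤ ∑ a : Side, ∑ b : Side, C a b := by
    intro d d'
    calc C d d' ≤ ∑ b : Side, C d b :=
          Finset.single_le_sum (f := fun b => C d b) (fun b _ => (hC d b).le) (Finset.mem_univ d')
      _ ≤ ∑ a : Side, ∑ b : Side, C a b :=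
          Finset.single_le_sum (f := fun a => ∑ b : Side, C a b)
            (fun a _ => Finset.sum_nonneg fun b _ => (hC a b).le) (Finset.mem_univ d)
  refine ⟨∑ a : Side, ∑ b : Side, C a b, lt_of_lt_of_le (hC .E .E) (hle .E .E),
    fun s k n q hk hkn hR => ?_⟩
  unfold bS
  rw [Finset.mul_sum]
  refine Finset.sum_le_sum fun d _ => ?_
  rw [Finset.mul_sum]
  refine Finset.sum_le_sum fun d' _ => ?_
  refine (H d d' s k n q hk hkn hR).trans ?_
  exact mul_le_mul_of_nonneg_right (hle d d') measureReal_nonneg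

theorem bS_reach (c : ℝ) (hc : 0 < c) (K : ℕ) : ∃ C : ℝ, 0 < C ∧ ∀ (s : Src) (k n : ℕ) (q : I)
    (e e' : Side), e ≠ e' → 8 ≤ k → k ≤ K * n → RSWreg c n q →
      bS q s k ≤ C * Pr q (Sep s e e' (256 * k)) := by
  have hex : ∀ d d' e e' : Side, ∃ C : ℝ, 0 < C ∧ (e ≠ e' → ∀ (s : Src) (k n : ℕ) (q : I),
      8 ≤ k → k ≤ K * n → RSWreg c n q →
        Pr q (Sep s d d' k) ≤ C * Pr q (Sep s e e' (256 * k))) := by
    intro d d' e e'
    by_cases he : e ≠ e'
    · by_cases h : d = d'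
      · subst h
        refine ⟨1, one_pos, fun _ s k n q _ _ _ => ?_⟩
        rw [sep_same]
        have h0 : Pr q (∅ : Set Config) = 0 := measureReal_empty
        rw [h0, one_mul]
        exact measureReal_nonneg
      · obtain ⟨C, hC, H⟩ := okm_reach h he c K hc
        refine ⟨C, hC, fun _ s k n q hk hkn hR => ?_⟩
        have h1 := H s k n q hk hkn hR
        norm_num at h1
        exact h1
    · exact ⟨1, one_pos, fun h => absurd h he⟩
  choose C hC H using hex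
  have hp : 0 < ∑ a : Side, ∑ b : Side, ∑ e : Side, ∑ e' : Side, C a b e e' := by
    refine Finset.sum_pos (fun a _ => Finset.sum_pos (fun b _ => Finset.sum_pos (fun e _ =>
      Finset.sum_pos (fun e' _ => hC a b e e') ⟨.E, Finset.mem_univ _⟩)
      ⟨.E, Finset.mem_univ _⟩) ⟨.E, Finset.mem_univ _⟩) ⟨.E, Finset.mem_univ _⟩
  refine ⟨_, hp, fun s k n q e e' he hk hkn hR => ?_⟩
  unfold bS
  rw [Finset.sum_mul]
  refine Finset.sum_le_sum fun d _ => ?_
  rw [Finset.sum_mul]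
  refine Finset.sum_le_sum fun d' _ => ?_
  refine (H d d' e e' he s k n q hk hkn hR).trans ?_
  refine mul_le_mul_of_nonneg_right ?_ measureReal_nonneg
  calc C d d' e e' ≤ ∑ b : Side, C d d' e b :=
        Finset.single_le_sum (f := fun b => C d d' e b) (fun b _ => (hC d d' e b).le)
          (Finset.mem_univ e')
    _ ≤ ∑ a : Side, ∑ b : Side, C d d' a b :=
        Finset.single_le_sum (f := fun a => ∑ b : Side, C d d' a b)
          (fun a _ => Finset.sum_nonneg fun b _ => (hC d d' a b).le) (Finset.mem_univ e)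

end Pool.Agent.H38.N59

end
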