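import Mathlib

/-! The parts of this file: H13.SK.Compare, H13.SK.FinalAlg, H13.SK.FinalTwo, H13.SK.Dyad, H13.SK.Rem. -/

section

/-!
# Comparison of scales
-/

set_option autoImplicit false

namespace Pool.Agent.H13.SK

/-- The sequence `n ^ 2 a(n)` grows at least like a power. -/
def Grow (c₀ δ₀ : ℝ) (k : ℕ) (a : ℕ → ℝ) : Prop :=
  ∀ m n : ℕ, 1 ≤ m → k * m ≤ n → c₀ * ((m : ℝ) / n) ^ (2 - δ₀) * a m ≤ a n

/-- `m ^ 2 a m` and `n ^ 2 a n` are compared by the ratio of the scales. -/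
theorem grow_sq {c₀ δ₀ : ℝ} {k : ℕ} {a : ℕ → ℝ} (hG : Grow c₀ δ₀ k a) {m n : ℕ} (hm : 1 ≤ m)
    (hn : 1 ≤ n) (hk : k * m ≤ n) :
    c₀ * ((n : ℝ) / m) ^ δ₀ * ((m : ℝ) ^ 2 * a m) ≤ (n : ℝ) ^ 2 * a n := by
  have hm0 : (0 : ℝ) < m := by exact_mod_cast hm
  have hn0 : (0 : ℝ) < n := by exact_mod_cast hn
  have h1 := mul_le_mul_of_nonneg_left (hG m n hm hk) (by positivity : (0 : ℝ) ≤ (n : ℝ) ^ 2)
  refine le_trans (le_of_eq ?_) h1
  have h2 : ((m : ℝ) / n) ^ (2 - δ₀) = ((m : ℝ) / n) ^ 2 * ((n : ℝ) / m) ^ δ₀ := by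
    rw [Real.rpow_sub (by positivity), Real.rpow_two, div_eq_mul_inv, ← Real.inv_rpow (by positivity),
      inv_div]
  rw [h2]
  field_simp

/-- If `h m ^ 2 a m` is bounded below and `h n ^ 2 a n` is bounded above then `n ≤ K m`. -/
theorem scale_cmp {c₀ δ₀ c₁ C₁ : ℝ} (h0 : 0 < c₀) (hδ : 0 < δ₀) (h1 : 0 < c₁) (hC : 0 < C₁)
    (k : ℕ) : ∃ K : ℕ, 1 ≤ K ∧ ∀ (a : ℕ → ℝ), Grow c₀ δ₀ k a → ∀ (x y : ℝ) (m n : ℕ), 1 ≤ m →
      1 ≤ n → 0 < x → x ≤ y → c₁ ≤ x * ((m : ℝ) ^ 2 * a m) → y * ((n : ℝ) ^ 2 * a n) ≤ C₁ →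
      n ≤ K * m := by
  obtain ⟨K, hK⟩ := exists_nat_gt ((C₁ / (c₀ * c₁)) ^ (1 / δ₀))
  refine ⟨max (max K k) 1, le_max_right _ _, fun a hG x y m n hm hn hx hxy h2 h3 => ?_⟩
  have hm0 : (0 : ℝ) < m := by exact_mod_cast hm
  have hn0 : (0 : ℝ) < n := by exact_mod_cast hn
  by_contra hlt
  push Not at hlt
  have hk : k * m ≤ n := by
    refine le_trans ?_ hlt.le
    exact Nat.mul_le_mul_right m ((le_max_right _ _).trans (le_max_left _ _))
  have hKm : K * m ≤ n := by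
    refine le_trans ?_ hlt.le
    exact Nat.mul_le_mul_right m ((le_max_left _ _).trans (le_max_left _ _))
  have h4 := grow_sq hG hm hn hk
  have hmp : 0 < (m : ℝ) ^ 2 * a m := by
    by_contra hcon
    push Not at hcon
    have := mul_nonpos_of_nonneg_of_nonpos hx.le hcon
    linarith
  have hnp : 0 ≤ (n : ℝ) ^ 2 * a n := by
    refine le_trans ?_ h4
    positivity
  have h5 : x * (c₀ * ((n : ℝ) / m) ^ δ₀ * ((m : ℝ) ^ 2 * a m)) ≤ C₁ := by
    calc x * (c₀ * ((n : ℝ) / m) ^ δ₀ * ((m : ℝ) ^ 2 * a m)) ≤ x * ((n : ℝ) ^ 2 * a n) :=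
          mul_le_mul_of_nonneg_left h4 hx.le
      _ ≤ y * ((n : ℝ) ^ 2 * a n) := mul_le_mul_of_nonneg_right hxy hnp
      _ ≤ C₁ := h3
  have h6 : c₀ * ((n : ℝ) / m) ^ δ₀ * c₁ ≤ C₁ := by
    refine le_trans ?_ h5
    calc c₀ * ((n : ℝ) / m) ^ δ₀ * c₁ ≤ c₀ * ((n : ℝ) / m) ^ δ₀ * (x * ((m : ℝ) ^ 2 * a m)) := by
          gcongr
      _ = _ := by ring
  have h7 : ((n : ℝ) / m) ^ δ₀ ≤ C₁ / (c₀ * c₁) := by
    rw [le_div_iff₀ (by positivity)]
    linarith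
  have h8 : (n : ℝ) / m ≤ (C₁ / (c₀ * c₁)) ^ (1 / δ₀) := by
    have h9 := Real.rpow_le_rpow (by positivity) h7 (by positivity : (0 : ℝ) ≤ 1 / δ₀)
    rwa [← Real.rpow_mul (by positivity), mul_one_div_cancel hδ.ne', Real.rpow_one] at h9
  have h9 : (K : ℝ) ≤ (n : ℝ) / m := by
    rw [le_div_iff₀ hm0]
    exact_mod_cast hKm
  linarith

/-- If `y n ^ 2 a n` is small enough compared with the lower bound of `x m ^ 2 a m`, and `x ≤ y`,
then `n ≤ k m`. -/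
theorem scale_small {c₀ δ₀ c₁ : ℝ} (h0 : 0 < c₀) (hδ : 0 < δ₀) (h1 : 0 < c₁) {k : ℕ}
    (hk1 : 1 ≤ k) :
    ∃ c₂ > (0 : ℝ), ∀ (a : ℕ → ℝ), Grow c₀ δ₀ k a → ∀ (x y : ℝ) (m n : ℕ), 1 ≤ m → 1 ≤ n →
      0 < x → x ≤ y → c₁ ≤ x * ((m : ℝ) ^ 2 * a m) → y * ((n : ℝ) ^ 2 * a n) ≤ c₂ →
      n ≤ k * m := by
  refine ⟨c₀ * c₁ / 2, by positivity, fun a hG x y m n hm hn hx hxy h2 h3 => ?_⟩
  have hm0 : (0 : ℝ) < m := by exact_mod_cast hm
  have hn0 : (0 : ℝ) < n := by exact_mod_cast hn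
  by_contra hlt
  push Not at hlt
  have h4 := grow_sq hG hm hn hlt.le
  have hmp : 0 < (m : ℝ) ^ 2 * a m := by
    by_contra hcon
    push Not at hcon
    have := mul_nonpos_of_nonneg_of_nonpos hx.le hcon
    linarith
  have hnp : 0 ≤ (n : ℝ) ^ 2 * a n := by
    refine le_trans ?_ h4
    positivity
  have h5 : m ≤ n := le_trans (Nat.le_mul_of_pos_left m hk1) hlt.le
  have h6 : (1 : ℝ) ≤ ((n : ℝ) / m) ^ δ₀ := by
    apply Real.one_le_rpow _ hδ.le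
    rw [le_div_iff₀ hm0, one_mul]
    exact_mod_cast h5
  have h7 : x * (c₀ * ((m : ℝ) ^ 2 * a m)) ≤ c₀ * c₁ / 2 := by
    calc x * (c₀ * ((m : ℝ) ^ 2 * a m)) ≤ x * (c₀ * ((n : ℝ) / m) ^ δ₀ * ((m : ℝ) ^ 2 * a m)) := by
          gcongr
          exact le_mul_of_one_le_right h0.le h6
      _ ≤ x * ((n : ℝ) ^ 2 * a n) := mul_le_mul_of_nonneg_left h4 hx.le
      _ ≤ y * ((n : ℝ) ^ 2 * a n) := mul_le_mul_of_nonneg_right hxy hnp
      _ ≤ _ := h3
  have h8 : c₀ * c₁ ≤ c₀ * (x * ((m : ℝ) ^ 2 * a m)) := mul_le_mul_of_nonneg_left h2 h0.le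
  have h9 : 0 < c₀ * c₁ := by positivity
  linarith

end Pool.Agent.H13.SK

end

section

/-!
# From the bound of the remainder to the dyadic inequality
-/

set_option autoImplicit false

open Filter Topology

namespace Pool.Agent.H13.SK

/-- Sum over the dyadic scales up to `n`. -/
noncomputable def SumB (a : ℕ → ℝ) (n : ℕ) : ℝ :=
  ∑ j ∈ Finset.range (Nat.log 2 n + 1), ((2 : ℝ) ^ j) ^ 4 * a (2 ^ j) ^ 3

variable {a : ℕ → ℝ} {L : ℝ → ℕ} {c₀ δ₀ cs Cs η : ℝ}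

theorem SumB_mono (ha : ∀ n, 1 ≤ n → 0 < a n) {m n : ℕ} (h : m ≤ n) : SumB a m ≤ SumB a n := by
  unfold SumB
  refine Finset.sum_le_sum_of_subset_of_nonneg ?_ fun j _ _ => ?_
  · refine Finset.range_subset_range.2 ?_
    have := Nat.log_mono_right (b := 2) h
    omega
  · have := ha (2 ^ j) Nat.one_le_two_pow
    positivity

theorem SumB_nonneg (ha : ∀ n, 1 ≤ n → 0 < a n) (n : ℕ) : 0 ≤ SumB a n := by
  unfold SumB
  refine Finset.sum_nonneg fun j _ => ?_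
  have := ha (2 ^ j) Nat.one_le_two_pow
  positivity

/-- A characteristic length with its scale relation. -/
structure Scl (a : ℕ → ℝ) (L : ℝ → ℕ) (c₀ δ₀ cs Cs η : ℝ) : Prop where
  hc₀ : 0 < c₀
  hδ₀ : 0 < δ₀
  hcs : 0 < cs
  hCs : 0 < Cs
  hη : 0 < η
  grow : Grow c₀ δ₀ 1 a
  pos : ∀ n, 1 ≤ n → 0 < a n
  anti : ∀ m n, 1 ≤ m → m ≤ n → a n ≤ a m
  one : ∀ h : ℝ, 0 < h → h < η → 1 ≤ L h
  large : ∀ n : ℕ, ∃ η' > (0 : ℝ), ∀ h : ℝ, 0 < h → h < η' → n ≤ L h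
  scale : ∀ h : ℝ, 0 < h → h < η →
    cs ≤ h * ((L h : ℝ) ^ 2 * a (L h)) ∧ h * ((L h : ℝ) ^ 2 * a (L h)) ≤ Cs

/-- The bound at the scale of the characteristic length. -/
theorem rem_len (S : Scl a L c₀ δ₀ cs Cs η) {Rm : ℝ → ℝ} {cr Cr : ℝ} (hcr : 0 < cr)
    (hCr : 0 < Cr) (n₀ : ℕ) (hR : ∀ n : ℕ, n₀ ≤ n → 1 ≤ n → ∀ x : ℝ, 0 < x →
      x * ((n : ℝ) ^ 2 * a n) ≤ cr →
      Rm x ≤ Cr * (1 / (n : ℝ) ^ 2 + (1 / ((n : ℝ) ^ 2 * a n)) ^ 3 * SumB a n)) :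
    ∃ C > (0 : ℝ), ∃ η' > (0 : ℝ), η' ≤ η ∧ ∀ h : ℝ, 0 < h → h < η' →
      Rm h ≤ C * (1 / (L h : ℝ) ^ 2 + h ^ 3 * SumB a (L h)) := by
  have hc₀ := S.hc₀
  have hδ₀ := S.hδ₀
  have hCs := S.hCs
  obtain ⟨K, hK1, hK⟩ : ∃ K : ℕ, 1 ≤ K ∧ Cs / (c₀ * cr) ≤ (K : ℝ) ^ δ₀ := by
    have h6 : Tendsto (fun r : ℕ => (r : ℝ) ^ δ₀) atTop atTop :=
      (tendsto_rpow_atTop hδ₀).comp tendsto_natCast_atTop_atTop
    obtain ⟨K, h1, h2⟩ := ((h6.eventually_ge_atTop (Cs / (c₀ * cr))).and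
      (eventually_ge_atTop 1)).exists
    exact ⟨K, h2, h1⟩
  obtain ⟨η₁, hη₁, hl⟩ := S.large (K * (n₀ + 2))
  have hcs := S.hcs
  have hKpos : (0 : ℝ) < K := by exact_mod_cast (by omega : 0 < K)
  refine ⟨Cr * (4 * (K : ℝ) ^ 2 + (4 * (K : ℝ) ^ 2 / cs) ^ 3), by positivity, min η η₁,
    lt_min S.hη hη₁, min_le_left _ _, ?_⟩
  intro h hh0 hh
  obtain ⟨Lh, hLh⟩ : ∃ Lh : ℕ, Lh = L h := ⟨_, rfl⟩
  have h1 := hl h hh0 (hh.trans_le (min_le_right _ _))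
  have h2 := (S.scale h hh0 (hh.trans_le (min_le_left _ _))).2
  have h2' := (S.scale h hh0 (hh.trans_le (min_le_left _ _))).1
  rw [← hLh] at h1 h2 h2' ⊢
  set n : ℕ := Lh / K with hn
  have hnn : n₀ + 2 ≤ n := by
    rw [hn, Nat.le_div_iff_mul_le (by omega)]
    rw [Nat.mul_comm]
    exact h1
  have hnK : n * K ≤ Lh := Nat.div_mul_le_self _ _
  have hnK' : Lh < (n + 1) * K := by
    have h := Nat.lt_mul_div_succ Lh (by omega : 0 < K)
    calc Lh < K * (Lh / K + 1) := h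
      _ = _ := Nat.mul_comm _ _
  have hn0 : (0 : ℝ) < n := by exact_mod_cast (by omega : 0 < n)
  have hK0 : (0 : ℝ) < K := by exact_mod_cast (by omega : 0 < K)
  have hnL : n ≤ Lh := le_trans (Nat.le_mul_of_pos_right n (by omega)) hnK
  have hL0 : (0 : ℝ) < Lh := by exact_mod_cast (by omega : 0 < Lh)
  have g1 := grow_sq S.grow (m := n) (n := Lh) (by omega) (by omega) (by omega)
  have g2 : (K : ℝ) ^ δ₀ ≤ ((Lh : ℝ) / n) ^ δ₀ := by
    refine Real.rpow_le_rpow hK0.le ?_ hδ₀.le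
    rw [le_div_iff₀ hn0, mul_comm]
    exact_mod_cast hnK
  have han := S.pos n (by omega)
  have haL := S.pos Lh (by omega)
  have hu : 0 < (n : ℝ) ^ 2 * a n := by positivity
  have g3 : h * ((n : ℝ) ^ 2 * a n) ≤ cr := by
    rw [div_le_iff₀ (by positivity)] at hK
    have hKδ : 0 < (K : ℝ) ^ δ₀ := by positivity
    have g4 : c₀ * (K : ℝ) ^ δ₀ * ((n : ℝ) ^ 2 * a n) ≤ (Lh : ℝ) ^ 2 * a Lh :=
      le_trans (by gcongr) g1
    have g5 : c₀ * (K : ℝ) ^ δ₀ * (h * ((n : ℝ) ^ 2 * a n)) ≤ c₀ * (K : ℝ) ^ δ₀ * cr := by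
      calc c₀ * (K : ℝ) ^ δ₀ * (h * ((n : ℝ) ^ 2 * a n))
          = h * (c₀ * (K : ℝ) ^ δ₀ * ((n : ℝ) ^ 2 * a n)) := by ring
        _ ≤ h * ((Lh : ℝ) ^ 2 * a Lh) := mul_le_mul_of_nonneg_left g4 hh0.le
        _ ≤ Cs := h2
        _ ≤ (K : ℝ) ^ δ₀ * (c₀ * cr) := hK
        _ = _ := by ring
    exact le_of_mul_le_mul_left g5 (by positivity)
  have g6 := hR n (by omega) (by omega) h hh0 g3
  have g7 : SumB a n ≤ SumB a Lh := SumB_mono S.pos hnL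
  have g8 : 1 / (n : ℝ) ^ 2 ≤ 4 * (K : ℝ) ^ 2 * (1 / (Lh : ℝ) ^ 2) := by
    have g9 : (Lh : ℝ) ≤ 2 * K * n := by
      have : Lh ≤ 2 * K * n := by nlinarith
      exact_mod_cast this
    rw [mul_one_div, div_le_div_iff₀ (by positivity) (by positivity), one_mul]
    calc (Lh : ℝ) ^ 2 ≤ (2 * K * n) ^ 2 := by gcongr
      _ = _ := by ring
  have hS0 := SumB_nonneg S.pos Lh
  have g10 : 1 / ((n : ℝ) ^ 2 * a n) ≤ 4 * (K : ℝ) ^ 2 / cs * h := by
    have g11 : (Lh : ℝ) ^ 2 * a Lh ≤ 4 * (K : ℝ) ^ 2 * ((n : ℝ) ^ 2 * a n) := by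
      have g12 : (Lh : ℝ) ≤ 2 * K * n := by
        have : Lh ≤ 2 * K * n := by nlinarith
        exact_mod_cast this
      calc (Lh : ℝ) ^ 2 * a Lh ≤ (2 * K * n) ^ 2 * a n := by
            have := S.anti n Lh (by omega) hnL
            gcongr
        _ = _ := by ring
    rw [div_le_iff₀ hu]
    have g13 : cs ≤ h * (4 * (K : ℝ) ^ 2 * ((n : ℝ) ^ 2 * a n)) :=
      h2'.trans (mul_le_mul_of_nonneg_left g11 hh0.le)
    calc (1 : ℝ) = cs / cs := (div_self hcs.ne').symm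
      _ ≤ h * (4 * (K : ℝ) ^ 2 * ((n : ℝ) ^ 2 * a n)) / cs := by gcongr
      _ = _ := by ring
  have g14 : (1 / ((n : ℝ) ^ 2 * a n)) ^ 3 ≤ (4 * (K : ℝ) ^ 2 / cs) ^ 3 * h ^ 3 := by
    rw [← mul_pow]
    gcongr
  have g15 := SumB_nonneg S.pos n
  have g16 : 0 ≤ h ^ 3 * SumB a Lh := by positivity
  have g17 : 0 ≤ 1 / (Lh : ℝ) ^ 2 := by positivity
  have g18 : 0 ≤ (4 * (K : ℝ) ^ 2 / cs) ^ 3 := by positivity
  calc Rm h ≤ Cr * (1 / (n : ℝ) ^ 2 + (1 / ((n : ℝ) ^ 2 * a n)) ^ 3 * SumB a n) := g6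
    _ ≤ Cr * (4 * (K : ℝ) ^ 2 * (1 / (Lh : ℝ) ^ 2) +
        (4 * (K : ℝ) ^ 2 / cs) ^ 3 * h ^ 3 * SumB a Lh) := by gcongr
    _ = Cr * (4 * (K : ℝ) ^ 2 * (1 / (Lh : ℝ) ^ 2) +
        (4 * (K : ℝ) ^ 2 / cs) ^ 3 * (h ^ 3 * SumB a Lh)) := by ring
    _ ≤ Cr * ((4 * (K : ℝ) ^ 2 + (4 * (K : ℝ) ^ 2 / cs) ^ 3) * (1 / (Lh : ℝ) ^ 2) +
        (4 * (K : ℝ) ^ 2 + (4 * (K : ℝ) ^ 2 / cs) ^ 3) * (h ^ 3 * SumB a Lh)) := by
        have g19 : 0 ≤ 4 * (K : ℝ) ^ 2 := by positivity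
        gcongr <;> linarith
    _ = _ := by ring

/-- The dyadic sum of the four-arm probabilities is bounded by the dyadic sum of a function which
is at least `L ^ (-2)`. -/
theorem sum_dyadic (S : Scl a L c₀ δ₀ cs Cs η) {f : ℝ → ℝ} (hf0 : ∀ t, 0 ≤ f t) {cf : ℝ}
    (hcf : 0 < cf) (hf : ∀ t : ℝ, 0 < t → t < η → cf / (L t : ℝ) ^ 2 ≤ f t) {η' : ℝ}
    (hη' : 0 < η') (hηη : η' ≤ η) :
    ∃ C > (0 : ℝ), ∀ h : ℝ, 0 < h → h < η' → ∀ m : ℕ, η' ≤ 2 ^ m * h →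
      SumB a (L h) ≤ C * (1 + ∑ k ∈ Finset.range m, f (2 ^ k * h) / (2 ^ k * h) ^ 3) := by
  classical
  have hc₀ := S.hc₀
  have hδ₀ := S.hδ₀
  have hCs := S.hCs
  obtain ⟨u, hu⟩ : ∃ u : ℕ → ℝ, u = fun j => ((2 : ℝ) ^ j) ^ 2 * a (2 ^ j) := ⟨_, rfl⟩
  have hupos : ∀ j, 0 < u j := by
    intro j
    rw [hu]
    have := S.pos (2 ^ j) Nat.one_le_two_pow
    positivity
  have hb1 : 1 < (2 : ℝ) ^ δ₀ := Real.one_lt_rpow (by norm_num) hδ₀
  -- growth of `u`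
  have hgrow : ∀ i j : ℕ, i ≤ j → c₀ * ((2 : ℝ) ^ δ₀) ^ (j - i) * u i ≤ u j := by
    intro i j hij
    have h1 := grow_sq S.grow (m := 2 ^ i) (n := 2 ^ j) Nat.one_le_two_pow Nat.one_le_two_pow
      (by rw [one_mul]; exact Nat.pow_le_pow_right (by norm_num) hij)
    have h2 : (((2 ^ j : ℕ) : ℝ) / ((2 ^ i : ℕ) : ℝ)) ^ δ₀ = ((2 : ℝ) ^ δ₀) ^ (j - i) := by
      push_cast
      rw [div_eq_mul_inv, ← pow_sub₀ (2 : ℝ) (by norm_num) hij, ← Real.rpow_natCast, ← Real.rpow_natCast,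
        ← Real.rpow_mul (by norm_num), ← Real.rpow_mul (by norm_num), mul_comm]
    rw [h2] at h1
    rw [hu]
    push_cast at h1 ⊢
    exact h1
  obtain ⟨lam, hlam⟩ : ∃ lam : ℝ, lam = Cs / c₀ + 1 := ⟨_, rfl⟩
  have hlam1 : 1 ≤ lam := by
    have : 0 < Cs / c₀ := by positivity
    linarith
  obtain ⟨K, hK1, hK⟩ := scale_cmp hc₀ hδ₀ one_pos hCs 1
  obtain ⟨J, hJ⟩ : ∃ J : ℕ, 2 / c₀ ≤ ((2 : ℝ) ^ δ₀) ^ J :=
    ((tendsto_pow_atTop_atTop_of_one_lt hb1).eventually_ge_atTop (2 / c₀)).exists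
  obtain ⟨J0, hJ0⟩ : ∃ J0 : ℕ, ∀ j, J0 ≤ j → 2 * lam / (η' * (c₀ * u 0)) < ((2 : ℝ) ^ δ₀) ^ j :=
    eventually_atTop.1 ((tendsto_pow_atTop_atTop_of_one_lt hb1).eventually_gt_atTop _)
  have hsmall : ∀ j, J0 ≤ j → 2 * lam / u j < η' := by
    intro j hj
    have h1 := hJ0 j hj
    have h2 := hgrow 0 j (Nat.zero_le _)
    rw [Nat.sub_zero] at h2
    have h3 := hupos 0
    rw [div_lt_iff₀ (by positivity)] at h1
    rw [div_lt_iff₀ (hupos j)]
    calc 2 * lam < ((2 : ℝ) ^ δ₀) ^ j * (η' * (c₀ * u 0)) := h1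
      _ = η' * (c₀ * ((2 : ℝ) ^ δ₀) ^ j * u 0) := by ring
      _ ≤ η' * u j := mul_le_mul_of_nonneg_left h2 hη'.le
  obtain ⟨D, hD⟩ : ∃ D : ℝ, D = 8 * lam ^ 3 * (K : ℝ) ^ 2 / cf := ⟨_, rfl⟩
  have hK0 : (0 : ℝ) < K := by exact_mod_cast (by omega : 0 < K)
  have hD0 : 0 < D := by rw [hD]; positivity
  obtain ⟨C0, hC0⟩ : ∃ C0 : ℝ, C0 = ∑ j ∈ Finset.range J0, ((2 : ℝ) ^ j) ^ 4 * a (2 ^ j) ^ 3 :=
    ⟨_, rfl⟩
  have hterm : ∀ j : ℕ, 0 < ((2 : ℝ) ^ j) ^ 4 * a (2 ^ j) ^ 3 := by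
    intro j
    have := S.pos (2 ^ j) Nat.one_le_two_pow
    positivity
  have hC00 : 0 ≤ C0 := by
    rw [hC0]
    exact Finset.sum_nonneg fun j _ => (hterm j).le
  refine ⟨C0 + 1 + J * D, by positivity, ?_⟩
  intro h hh0 hh m hm
  have hhη : h < η := hh.trans_le hηη
  obtain ⟨Lh, hLh⟩ : ∃ Lh : ℕ, Lh = L h := ⟨_, rfl⟩
  have hL1 := S.one h hh0 hhη
  have hsc := (S.scale h hh0 hhη).2
  rw [← hLh] at hL1 hsc ⊢
  -- the index
  obtain ⟨κ, hκ⟩ : ∃ κ : ℕ → ℕ, κ = fun j => Nat.log 2 ⌊2 * lam / u j / h⌋₊ := ⟨_, rfl⟩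
  have hX : ∀ j, 2 ^ j ≤ Lh → h ≤ lam / u j := by
    intro j hj
    have h1 := grow_sq S.grow (m := 2 ^ j) (n := Lh) Nat.one_le_two_pow hL1 (by rw [one_mul]; exact hj)
    have h2 : (1 : ℝ) ≤ ((Lh : ℝ) / ((2 ^ j : ℕ) : ℝ)) ^ δ₀ := by
      refine Real.one_le_rpow ?_ hδ₀.le
      rw [one_le_div (by positivity)]
      exact_mod_cast hj
    have h3 : c₀ * u j ≤ (Lh : ℝ) ^ 2 * a Lh := by
      refine le_trans ?_ h1
      have e : c₀ * u j = c₀ * 1 * (((2 ^ j : ℕ) : ℝ) ^ 2 * a (2 ^ j)) := by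
        rw [hu]
        push_cast
        ring
      rw [e]
      have h4 : 0 < ((2 ^ j : ℕ) : ℝ) ^ 2 * a (2 ^ j) := by
        have := S.pos (2 ^ j) Nat.one_le_two_pow
        positivity
      gcongr
    rw [le_div_iff₀ (hupos j), hlam]
    have h5 : c₀ * (h * u j) ≤ Cs := by
      calc c₀ * (h * u j) = h * (c₀ * u j) := by ring
        _ ≤ h * ((Lh : ℝ) ^ 2 * a Lh) := mul_le_mul_of_nonneg_left h3 hh0.le
        _ ≤ Cs := hsc
    have h6 : h * u j ≤ Cs / c₀ := by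
      rw [le_div_iff₀ hc₀]
      linarith
    linarith
  have hs : ∀ j, 2 ^ j ≤ Lh → lam / u j < 2 ^ κ j * h ∧ 2 ^ κ j * h ≤ 2 * lam / u j := by
    intro j hj
    have h1 := hX j hj
    have hx2 : 2 ≤ 2 * lam / u j / h := by
      rw [le_div_iff₀ hh0]
      calc 2 * h ≤ 2 * (lam / u j) := by linarith
        _ = 2 * lam / u j := by ring
    set X : ℝ := 2 * lam / u j / h with hXd
    have hXh : X * h = 2 * lam / u j := by rw [hXd]; field_simp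
    have hfl : 2 ≤ ⌊X⌋₊ := Nat.le_floor (by exact_mod_cast hx2)
    have hκj : κ j = Nat.log 2 ⌊X⌋₊ := by rw [hκ]
    have h2 : (2 ^ κ j : ℕ) ≤ ⌊X⌋₊ := by
      rw [hκj]
      exact Nat.pow_log_le_self 2 (by omega)
    have h3 : ⌊X⌋₊ < 2 ^ (κ j + 1) := by
      rw [hκj]
      exact Nat.lt_pow_succ_log_self (by norm_num) _
    have h4 : (2 : ℝ) ^ κ j ≤ X := by
      have h5 : ((2 ^ κ j : ℕ) : ℝ) ≤ ⌊X⌋₊ := by exact_mod_cast h2
      push_cast at h5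
      exact h5.trans (Nat.floor_le (by linarith))
    have h6 : X < 2 ^ (κ j + 1) := by
      have h7 : ((⌊X⌋₊ + 1 : ℕ) : ℝ) ≤ ((2 ^ (κ j + 1) : ℕ) : ℝ) := by exact_mod_cast h3
      push_cast at h7
      exact (Nat.lt_floor_add_one X).trans_le h7
    constructor
    · have h8 : X * h < 2 ^ (κ j + 1) * h := mul_lt_mul_of_pos_right h6 hh0
      rw [hXh, pow_succ] at h8
      have h9 : 2 * (lam / u j) = 2 * lam / u j := by ring
      nlinarith
    · rw [← hXh]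
      exact mul_le_mul_of_nonneg_right h4 hh0.le
  -- the terms
  have hmain : ∀ j, 2 ^ j ≤ Lh → J0 ≤ j → κ j ∈ Finset.range m ∧
      ((2 : ℝ) ^ j) ^ 4 * a (2 ^ j) ^ 3 ≤ D * (f (2 ^ κ j * h) / (2 ^ κ j * h) ^ 3) := by
    intro j hj hj0
    obtain ⟨h1, h2⟩ := hs j hj
    obtain ⟨s, hsd⟩ : ∃ s : ℝ, s = 2 ^ κ j * h := ⟨_, rfl⟩
    rw [← hsd] at h1 h2 ⊢
    have hs0 : 0 < s := by rw [hsd]; positivity
    have h3 : s < η' := h2.trans_lt (hsmall j hj0)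
    constructor
    · rw [Finset.mem_range]
      by_contra hlt
      push Not at hlt
      have h4 : (2 : ℝ) ^ m ≤ 2 ^ κ j := pow_le_pow_right₀ (by norm_num) hlt
      have h5 : (2 : ℝ) ^ m * h ≤ s := by
        rw [hsd]
        exact mul_le_mul_of_nonneg_right h4 hh0.le
      linarith
    · have hsη : s < η := h3.trans_le hηη
      have hLs := S.one s hs0 hsη
      have h4 : 1 ≤ s * (((2 ^ j : ℕ) : ℝ) ^ 2 * a (2 ^ j)) := by
        have h5 : 1 / u j ≤ s := by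
          refine le_trans ?_ h1.le
          have := hupos j
          gcongr
        rw [div_le_iff₀ (hupos j)] at h5
        rw [hu] at h5
        push_cast at h5 ⊢
        exact h5
      have h6 := hK a S.grow s s (2 ^ j) (L s) Nat.one_le_two_pow hLs hs0 le_rfl h4
        (S.scale s hs0 hsη).2
      have h7 : (L s : ℝ) ≤ K * 2 ^ j := by exact_mod_cast h6
      have hLs0 : (0 : ℝ) < L s := by exact_mod_cast (by omega : 0 < L s)
      have h8 : cf / (K * 2 ^ j : ℝ) ^ 2 ≤ f s := by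
        refine le_trans ?_ (hf s hs0 hsη)
        gcongr
      have h9 : s ^ 3 ≤ (2 * lam / u j) ^ 3 := by gcongr
      have huj := hupos j
      have h10 : cf / (K * 2 ^ j : ℝ) ^ 2 / (2 * lam / u j) ^ 3 ≤ f s / s ^ 3 := by
        have h11 : 0 ≤ f s := hf0 s
        calc cf / (K * 2 ^ j : ℝ) ^ 2 / (2 * lam / u j) ^ 3 ≤ f s / (2 * lam / u j) ^ 3 := by
              gcongr
          _ ≤ f s / s ^ 3 := by gcongr
      have h12 : ((2 : ℝ) ^ j) ^ 4 * a (2 ^ j) ^ 3 =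
          D * (cf / (K * 2 ^ j : ℝ) ^ 2 / (2 * lam / u j) ^ 3) := by
        rw [hD, hu]
        have ha0 := S.pos (2 ^ j) Nat.one_le_two_pow
        field_simp
        ring
      rw [h12]
      exact mul_le_mul_of_nonneg_left h10 hD0.le
  -- fibres
  have hpair : ∀ i j : ℕ, 2 ^ i ≤ Lh → 2 ^ j ≤ Lh → i ≤ j → κ i = κ j → j < i + J := by
    intro i j hi hj hij hκe
    have h1 := (hs i hi).1
    have h2 := (hs j hj).2
    rw [hκe] at h1
    have h3 : lam / u i < 2 * lam / u j := h1.trans_le h2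
    have hui := hupos i
    have huj := hupos j
    rw [div_lt_div_iff₀ hui huj] at h3
    have h4 : u j < 2 * u i := by
      have h5 : 0 < lam := by linarith
      nlinarith
    have h5 := hgrow i j hij
    have h6 : ((2 : ℝ) ^ δ₀) ^ (j - i) < 2 / c₀ := by
      rw [lt_div_iff₀ hc₀]
      by_contra hlt
      push Not at hlt
      have h7 : 2 * u i ≤ ((2 : ℝ) ^ δ₀) ^ (j - i) * c₀ * u i :=
        mul_le_mul_of_nonneg_right hlt hui.le
      nlinarith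
    have h7 := h6.trans_le hJ
    have h8 := (pow_lt_pow_iff_right₀ hb1).1 h7
    omega
  set I : Finset ℕ := Finset.range (Nat.log 2 Lh + 1) with hI
  have hIL : ∀ j ∈ I, 2 ^ j ≤ Lh := by
    intro j hj
    rw [hI, Finset.mem_range] at hj
    exact (Nat.pow_le_pow_right (by norm_num) (by omega)).trans
      (Nat.pow_log_le_self 2 (by omega))
  obtain ⟨g, hg⟩ : ∃ g : ℕ → ℝ, g = fun k => f (2 ^ k * h) / (2 ^ k * h) ^ 3 := ⟨_, rfl⟩
  have hg0 : ∀ k, 0 ≤ g k := by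
    intro k
    rw [hg]
    have := hf0 (2 ^ k * h)
    positivity
  have hsplit : SumB a Lh = ∑ j ∈ I.filter (fun j => j < J0), ((2 : ℝ) ^ j) ^ 4 * a (2 ^ j) ^ 3 +
      ∑ j ∈ I.filter (fun j => ¬ j < J0), ((2 : ℝ) ^ j) ^ 4 * a (2 ^ j) ^ 3 := by
    rw [Finset.sum_filter_add_sum_filter_not]
    rfl
  have hpart1 : ∑ j ∈ I.filter (fun j => j < J0), ((2 : ℝ) ^ j) ^ 4 * a (2 ^ j) ^ 3 ≤ C0 := by
    rw [hC0]
    refine Finset.sum_le_sum_of_subset_of_nonneg ?_ fun j _ _ => (hterm j).le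
    intro j hj
    rw [Finset.mem_filter] at hj
    exact Finset.mem_range.2 hj.2
  have hpart2 : ∑ j ∈ I.filter (fun j => ¬ j < J0), ((2 : ℝ) ^ j) ^ 4 * a (2 ^ j) ^ 3 ≤
      J * D * ∑ k ∈ Finset.range m, g k := by
    have h1 : ∑ j ∈ I.filter (fun j => ¬ j < J0), ((2 : ℝ) ^ j) ^ 4 * a (2 ^ j) ^ 3 ≤
        ∑ j ∈ I.filter (fun j => ¬ j < J0), D * g (κ j) := by
      refine Finset.sum_le_sum fun j hj => ?_
      rw [Finset.mem_filter, not_lt] at hj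
      rw [hg]
      exact (hmain j (hIL j hj.1) hj.2).2
    refine h1.trans ?_
    rw [← Finset.sum_fiberwise_of_maps_to (t := Finset.range m) (g := κ)
      (fun j hj => by
        rw [Finset.mem_filter, not_lt] at hj
        exact (hmain j (hIL j hj.1) hj.2).1), Finset.mul_sum]
    refine Finset.sum_le_sum fun k _ => ?_
    have h2 : ∑ j ∈ (I.filter (fun j => ¬ j < J0)).filter (fun j => κ j = k), D * g (κ j) =
        (((I.filter (fun j => ¬ j < J0)).filter (fun j => κ j = k)).card : ℝ) * (D * g k) := by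
      rw [← nsmul_eq_mul, ← Finset.sum_const]
      refine Finset.sum_congr rfl fun j hj => ?_
      rw [(Finset.mem_filter.1 hj).2]
    rw [h2]
    have h3 : ((I.filter (fun j => ¬ j < J0)).filter (fun j => κ j = k)).card ≤ J := by
      rcases Finset.eq_empty_or_nonempty
        ((I.filter (fun j => ¬ j < J0)).filter (fun j => κ j = k)) with he | hne
      · rw [he]; simp
      · set i := Finset.min' _ hne with hi
        have hi' := Finset.min'_mem _ hne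
        rw [← hi, Finset.mem_filter, Finset.mem_filter] at hi'
        have h4 : (I.filter (fun j => ¬ j < J0)).filter (fun j => κ j = k) ⊆
            Finset.Ico i (i + J) := by
          intro j hj
          have h5 := Finset.min'_le _ j hj
          rw [← hi] at h5
          rw [Finset.mem_filter, Finset.mem_filter] at hj
          rw [Finset.mem_Ico]
          exact ⟨h5, hpair i j (hIL i hi'.1.1) (hIL j hj.1.1) h5 (by rw [hi'.2, hj.2])⟩
        refine (Finset.card_le_card h4).trans ?_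
        rw [Nat.card_Ico]
        omega
    have h5 : (((I.filter (fun j => ¬ j < J0)).filter (fun j => κ j = k)).card : ℝ) ≤ J := by
      exact_mod_cast h3
    have h6 : 0 ≤ D * g k := mul_nonneg hD0.le (hg0 k)
    calc _ ≤ (J : ℝ) * (D * g k) := mul_le_mul_of_nonneg_right h5 h6
      _ = _ := by ring
  have hG0 : 0 ≤ ∑ k ∈ Finset.range m, g k := Finset.sum_nonneg fun k _ => hg0 k
  have hfin : SumB a Lh ≤ C0 + J * D * ∑ k ∈ Finset.range m, g k := by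
    rw [hsplit]
    exact add_le_add hpart1 hpart2
  have hge : (∑ k ∈ Finset.range m, f (2 ^ k * h) / (2 ^ k * h) ^ 3) =
      ∑ k ∈ Finset.range m, g k := by rw [hg]
  rw [hge]
  have hJD : 0 ≤ (J : ℝ) * D := by positivity
  refine hfin.trans ?_
  nlinarith [mul_nonneg hC00 hG0, hJD, hG0, mul_nonneg hJD hG0]

/-- **The dyadic inequality.** -/
theorem rem_dyadic (S : Scl a L c₀ δ₀ cs Cs η) {f : ℝ → ℝ} (hf0 : ∀ t, 0 ≤ f t) {cf : ℝ}
    (hcf : 0 < cf) (hf : ∀ t : ℝ, 0 < t → t < η → cf / (L t : ℝ) ^ 2 ≤ f t)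
    {Rm : ℝ → ℝ} {cr Cr : ℝ} (hcr : 0 < cr)
    (hCr : 0 < Cr) (n₀ : ℕ) (hR : ∀ n : ℕ, n₀ ≤ n → 1 ≤ n → ∀ x : ℝ, 0 < x →
      x * ((n : ℝ) ^ 2 * a n) ≤ cr →
      Rm x ≤ Cr * (1 / (n : ℝ) ^ 2 + (1 / ((n : ℝ) ^ 2 * a n)) ^ 3 * SumB a n)) :
    ∃ η₁ > (0 : ℝ), ∀ η' : ℝ, 0 < η' → η' ≤ η₁ →
      ∃ C > (0 : ℝ), ∀ h : ℝ, 0 < h → h < η' → ∀ m : ℕ, η' ≤ 2 ^ m * h →
      Rm h ≤ C * (h ^ 3 * (1 + ∑ k ∈ Finset.range m, f (2 ^ k * h) / (2 ^ k * h) ^ 3)) := by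
  obtain ⟨C1, hC1, η₁, hη₁, hη₁η, h1⟩ := rem_len S hcr hCr n₀ hR
  refine ⟨η₁, hη₁, fun η' hη' hle => ?_⟩
  obtain ⟨C2, hC2, h2⟩ := sum_dyadic S hf0 hcf hf hη' (hle.trans hη₁η)
  refine ⟨C1 * (1 / cf + C2), by positivity, ?_⟩
  intro h hh0 hh m hm
  have h3 := h1 h hh0 (hh.trans_le hle)
  have h4 := h2 h hh0 hh m hm
  have hhη : h < η := hh.trans_le (hle.trans hη₁η)
  have h5 := hf h hh0 hhη
  have hm0 : 0 < m := by
    by_contra hlt
    have : m = 0 := by omega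
    rw [this, pow_zero, one_mul] at hm
    linarith
  set Sg : ℝ := ∑ k ∈ Finset.range m, f (2 ^ k * h) / (2 ^ k * h) ^ 3 with hSg
  have h6 : f h / h ^ 3 ≤ Sg := by
    have h7 := Finset.single_le_sum (f := fun k : ℕ => f (2 ^ k * h) / (2 ^ k * h) ^ 3)
      (fun k _ => by have := hf0 (2 ^ k * h); positivity) (Finset.mem_range.2 hm0)
    simp only [pow_zero, one_mul] at h7
    exact h7
  have h7 : 1 / (L h : ℝ) ^ 2 ≤ 1 / cf * (h ^ 3 * Sg) := by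
    have h8 : f h ≤ h ^ 3 * Sg := by
      rw [div_le_iff₀ (by positivity)] at h6
      linarith
    have h9 : cf / (L h : ℝ) ^ 2 ≤ h ^ 3 * Sg := h5.trans h8
    calc 1 / (L h : ℝ) ^ 2 = 1 / cf * (cf / (L h : ℝ) ^ 2) := by field_simp
      _ ≤ _ := mul_le_mul_of_nonneg_left h9 (by positivity)
  have hSg0 : 0 ≤ Sg := Finset.sum_nonneg fun k _ => by
    have := hf0 (2 ^ k * h)
    positivity
  calc Rm h ≤ C1 * (1 / (L h : ℝ) ^ 2 + h ^ 3 * SumB a (L h)) := h3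
    _ ≤ C1 * (1 / cf * (h ^ 3 * Sg) + h ^ 3 * (C2 * (1 + Sg))) := by gcongr
    _ = C1 * (h ^ 3 * (1 / cf * Sg + C2 * (1 + Sg))) := by ring
    _ ≤ C1 * (h ^ 3 * (1 / cf * (1 + Sg) + C2 * (1 + Sg))) := by
        gcongr
        linarith
    _ = _ := by ring

end Pool.Agent.H13.SK

end

section

/-!
# Consequences of the dyadic inequality: powers and the integral form
-/

set_option autoImplicit false

open Filter Topology MeasureTheory

namespace Pool.Agent.H13.SK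

/-- The dyadic inequality at all small heights. -/
def Dya (f Rm : ℝ → ℝ) (η₁ : ℝ) : Prop :=
  ∀ η' : ℝ, 0 < η' → η' ≤ η₁ →
    ∃ C > (0 : ℝ), ∀ h : ℝ, 0 < h → h < η' → ∀ m : ℕ, η' ≤ 2 ^ m * h →
    Rm h ≤ C * (h ^ 3 * (1 + ∑ k ∈ Finset.range m, f (2 ^ k * h) / (2 ^ k * h) ^ 3))

/-- The number of dyadic steps. -/
theorem exists_steps {η' h : ℝ} (hh : 0 < h) (hh' : h < η') :
    ∃ m : ℕ, 1 ≤ m ∧ η' ≤ 2 ^ m * h ∧ 2 ^ m * h < 2 * η' ∧ ∀ k : ℕ, k < m → 2 ^ k * h < η' := by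
  classical
  have hex : ∃ m : ℕ, η' ≤ 2 ^ m * h := by
    obtain ⟨m, hm⟩ := ((tendsto_pow_atTop_atTop_of_one_lt
      (one_lt_two : (1 : ℝ) < 2)).eventually_ge_atTop (η' / h)).exists
    rw [div_le_iff₀ hh] at hm
    exact ⟨m, hm⟩
  have h1 := Nat.find_spec hex
  have h2 : ∀ k, k < Nat.find hex → 2 ^ k * h < η' := fun k hk => by
    have := Nat.find_min hex hk
    push Not at this
    exact this
  have h3 : 1 ≤ Nat.find hex := by
    by_contra hlt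
    have h4 : Nat.find hex = 0 := by omega
    rw [h4, pow_zero, one_mul] at h1
    linarith
  refine ⟨Nat.find hex, h3, h1, ?_, h2⟩
  obtain ⟨n, hn⟩ : ∃ n, Nat.find hex = n + 1 := ⟨Nat.find hex - 1, by omega⟩
  have h4 := h2 n (by omega)
  rw [hn, pow_succ]
  nlinarith

/-- Power bounds. -/
theorem pow_of_dya {f Rm : ℝ → ℝ} {η₁ : ℝ} (hη₁ : 0 < η₁) (H : Dya f Rm η₁) {e η₂ Cf : ℝ}
    (hη₂ : 0 < η₂) (hCf : 0 < Cf) (he : e < 3)
    (hf : ∀ t : ℝ, 0 < t → t < η₂ → f t ≤ Cf * t ^ e) :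
    ∃ C > (0 : ℝ), ∃ η' > (0 : ℝ), ∀ h : ℝ, 0 < h → h < η' → Rm h ≤ C * h ^ e := by
  obtain ⟨η', hη'⟩ : ∃ η' : ℝ, η' = min η₁ (min η₂ 1) := ⟨_, rfl⟩
  have hη'0 : 0 < η' := by rw [hη']; exact lt_min hη₁ (lt_min hη₂ one_pos)
  have hle1 : η' ≤ η₁ := by rw [hη']; exact min_le_left _ _
  have hle2 : η' ≤ η₂ := by rw [hη']; exact (min_le_right _ _).trans (min_le_left _ _)
  have hle3 : η' ≤ 1 := by rw [hη']; exact (min_le_right _ _).trans (min_le_right _ _)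
  obtain ⟨C, hC, h1⟩ := H η' hη'0 hle1
  obtain ⟨ρ, hρ⟩ : ∃ ρ : ℝ, ρ = (2 : ℝ) ^ (e - 3) := ⟨_, rfl⟩
  have hρ0 : 0 < ρ := by rw [hρ]; positivity
  have hρ1 : ρ < 1 := by rw [hρ]; exact Real.rpow_lt_one_of_one_lt_of_neg (by norm_num) (by linarith)
  have hρ2 : 0 < 1 - ρ := by linarith
  refine ⟨C * (1 + Cf / (1 - ρ)), by positivity, η', hη'0, fun h hh0 hh => ?_⟩
  obtain ⟨m, hm1, hm2, -, hm3⟩ := exists_steps hh0 hh
  have h2 := h1 h hh0 hh m hm2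
  have h3 : ∑ k ∈ Finset.range m, f (2 ^ k * h) / (2 ^ k * h) ^ 3 ≤
      ∑ k ∈ Finset.range m, Cf * h ^ (e - 3) * ρ ^ k := by
    refine Finset.sum_le_sum fun k hk => ?_
    have hk' := hm3 k (Finset.mem_range.1 hk)
    have ht : 0 < 2 ^ k * h := by positivity
    have h4 := hf _ ht (hk'.trans_le hle2)
    rw [div_le_iff₀ (by positivity)]
    refine h4.trans (le_of_eq ?_)
    have h5 : (2 ^ k * h) ^ e = (2 ^ k * h) ^ (e - 3) * (2 ^ k * h) ^ 3 := by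
      rw [← Real.rpow_natCast (2 ^ k * h) 3, ← Real.rpow_add ht]
      congr 1
      push_cast
      ring
    have h6 : (2 ^ k * h) ^ (e - 3) = ρ ^ k * h ^ (e - 3) := by
      rw [Real.mul_rpow (by positivity) hh0.le, hρ, ← Real.rpow_natCast, ← Real.rpow_natCast,
        ← Real.rpow_mul (by norm_num), ← Real.rpow_mul (by norm_num), mul_comm (k : ℝ)]
    rw [h5, h6]
    ring
  have h4 : ∑ k ∈ Finset.range m, Cf * h ^ (e - 3) * ρ ^ k ≤ Cf * h ^ (e - 3) / (1 - ρ) := by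
    rw [← Finset.mul_sum, div_eq_mul_inv]
    refine mul_le_mul_of_nonneg_left ?_ (by positivity)
    have h5 := Summable.sum_le_tsum (Finset.range m) (fun k _ => (pow_nonneg hρ0.le k))
      (summable_geometric_of_lt_one hρ0.le hρ1)
    rwa [tsum_geometric_of_lt_one hρ0.le hρ1] at h5
  have hh1 : h ≤ 1 := hh.le.trans hle3
  have h5 : h ^ 3 ≤ h ^ e := by
    rw [← Real.rpow_natCast h 3]
    exact Real.rpow_le_rpow_of_exponent_ge hh0 hh1 (by push_cast; linarith)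
  have h6 : h ^ 3 * h ^ (e - 3) = h ^ e := by
    rw [← Real.rpow_natCast h 3, ← Real.rpow_add hh0]
    congr 1
    push_cast
    ring
  calc Rm h ≤ C * (h ^ 3 * (1 + ∑ k ∈ Finset.range m, f (2 ^ k * h) / (2 ^ k * h) ^ 3)) := h2
    _ ≤ C * (h ^ 3 * (1 + Cf * h ^ (e - 3) / (1 - ρ))) := by
        have := h3.trans h4
        gcongr
    _ = C * (h ^ 3 + Cf / (1 - ρ) * (h ^ 3 * h ^ (e - 3))) := by ring
    _ = C * (h ^ 3 + Cf / (1 - ρ) * h ^ e) := by rw [h6]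
    _ ≤ C * (h ^ e + Cf / (1 - ρ) * h ^ e) := by gcongr
    _ = _ := by ring

/-- **The integral form.** -/
theorem int_of_dya {f Rm : ℝ → ℝ} {η₁ : ℝ} (hη₁ : 0 < η₁) (H : Dya f Rm η₁) {η₂ : ℝ}
    (hη₂ : 0 < η₂) (hf0 : ∀ t : ℝ, 0 ≤ f t) (hf : MonotoneOn f (Set.Ioo 0 η₂)) :
    ∃ C > (0 : ℝ), ∃ η > (0 : ℝ), η < η₂ ∧ ∃ δ > (0 : ℝ), δ < η ∧ ∀ h : ℝ, 0 < h → h < δ →
      IntervalIntegrable (fun t => f t / t ^ 4) volume h η ∧
      Rm h ≤ C * (h ^ 3 * (1 + ∫ t in h..η, f t / t ^ 4)) := by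
  obtain ⟨η', hη'⟩ : ∃ η' : ℝ, η' = min η₁ (η₂ / 4) := ⟨_, rfl⟩
  have hη'0 : 0 < η' := by rw [hη']; exact lt_min hη₁ (by positivity)
  have hle1 : η' ≤ η₁ := by rw [hη']; exact min_le_left _ _
  have hle2 : η' ≤ η₂ / 4 := by rw [hη']; exact min_le_right _ _
  obtain ⟨C, hC, h1⟩ := H η' hη'0 hle1
  have hint : ∀ x y : ℝ, 0 < x → x ≤ y → y < η₂ →
      IntervalIntegrable (fun t => f t / t ^ 4) volume x y := by
    intro x y hx hxy hy
    have h2 : IntervalIntegrable f volume x y := by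
      refine MonotoneOn.intervalIntegrable (hf.mono ?_)
      rw [Set.uIcc_of_le hxy]
      intro t ht
      exact ⟨hx.trans_le ht.1, ht.2.trans_lt hy⟩
    have h3 : (fun t => f t / t ^ 4) = fun t => f t * (t ^ 4)⁻¹ := by
      funext t
      rw [div_eq_mul_inv]
    rw [h3]
    refine h2.mul_continuousOn ?_
    rw [Set.uIcc_of_le hxy]
    refine ContinuousOn.inv₀ (by fun_prop) fun t ht => ?_
    have : 0 < t := hx.trans_le ht.1
    positivity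
  refine ⟨16 * C, by positivity, 2 * η', by positivity, by linarith, η', hη'0, by linarith,
    fun h hh0 hh => ⟨hint h (2 * η') hh0 (by linarith) (by linarith), ?_⟩⟩
  obtain ⟨m, hm1, hm2, hm4, hm3⟩ := exists_steps hh0 hh
  have h2 := h1 h hh0 hh m hm2
  have hstep : ∀ k, k < m → f (2 ^ k * h) / (2 ^ k * h) ^ 3 ≤
      16 * ∫ t in (2 ^ k * h)..(2 ^ (k + 1) * h), f t / t ^ 4 := by
    intro k hk
    have hk' := hm3 k hk
    have hx0 : 0 < 2 ^ k * h := by positivity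
    obtain ⟨x, hx⟩ : ∃ x : ℝ, x = 2 ^ k * h := ⟨_, rfl⟩
    have e : 2 ^ (k + 1) * h = 2 * x := by rw [hx, pow_succ]; ring
    rw [e, ← hx]
    rw [← hx] at hk' hx0
    have h3 : ∫ t in x..(2 * x), f x / (2 * x) ^ 4 ≤ ∫ t in x..(2 * x), f t / t ^ 4 := by
      refine intervalIntegral.integral_mono_on (by linarith) intervalIntegrable_const
        (hint x (2 * x) hx0 (by linarith) (by linarith)) fun t ht => ?_
      have ht0 : 0 < t := hx0.trans_le ht.1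
      have h4 : f x ≤ f t := hf ⟨hx0, by linarith⟩ ⟨ht0, by linarith [ht.2]⟩ ht.1
      have h5 : t ^ 4 ≤ (2 * x) ^ 4 := by
        have := ht.2
        gcongr
      have h6 := hf0 x
      have h7 := hf0 t
      calc f x / (2 * x) ^ 4 ≤ f t / (2 * x) ^ 4 := by gcongr
        _ ≤ f t / t ^ 4 := by gcongr
    rw [intervalIntegral.integral_const, smul_eq_mul] at h3
    have h4 : f x / x ^ 3 = 16 * ((2 * x - x) * (f x / (2 * x) ^ 4)) := by
      field_simp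
      ring
    rw [h4]
    linarith
  have h3 : ∑ k ∈ Finset.range m, f (2 ^ k * h) / (2 ^ k * h) ^ 3 ≤
      16 * ∫ t in h..(2 * η'), f t / t ^ 4 := by
    have h4 : ∑ k ∈ Finset.range m, f (2 ^ k * h) / (2 ^ k * h) ^ 3 ≤
        16 * ∑ k ∈ Finset.range m, ∫ t in (2 ^ k * h)..(2 ^ (k + 1) * h), f t / t ^ 4 := by
      rw [Finset.mul_sum]
      exact Finset.sum_le_sum fun k hk => hstep k (Finset.mem_range.1 hk)
    have h5 := intervalIntegral.sum_integral_adjacent_intervals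
      (f := fun t => f t / t ^ 4) (μ := volume) (a := fun k : ℕ => (2 : ℝ) ^ k * h) (n := m)
      (fun k hk => by
        have h6 := hm3 k hk
        refine hint _ _ (by positivity) ?_ ?_
        · rw [pow_succ]
          have : 0 < (2 : ℝ) ^ k * h := by positivity
          nlinarith
        · rw [pow_succ]
          have : (2 : ℝ) ^ k * 2 * h = 2 * (2 ^ k * h) := by ring
          rw [this]
          linarith)
    simp only [pow_zero, one_mul] at h5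
    rw [h5] at h4
    refine h4.trans (mul_le_mul_of_nonneg_left ?_ (by norm_num))
    have hge : h ≤ 2 ^ m * h := by
      have : (1 : ℝ) ≤ 2 ^ m := one_le_pow₀ (by norm_num)
      nlinarith
    rw [← intervalIntegral.integral_add_adjacent_intervals
      (hint h (2 ^ m * h) hh0 hge (by linarith))
      (hint (2 ^ m * h) (2 * η') (by positivity) hm4.le (by linarith))]
    have h6 : 0 ≤ ∫ t in (2 ^ m * h)..(2 * η'), f t / t ^ 4 := by
      refine intervalIntegral.integral_nonneg hm4.le fun t ht => ?_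
      have := hf0 t
      positivity
    linarith
  have h7 : 0 ≤ ∫ t in h..(2 * η'), f t / t ^ 4 := by
    refine intervalIntegral.integral_nonneg (by linarith) fun t ht => ?_
    have := hf0 t
    positivity
  calc Rm h ≤ C * (h ^ 3 * (1 + ∑ k ∈ Finset.range m, f (2 ^ k * h) / (2 ^ k * h) ^ 3)) := h2
    _ ≤ C * (h ^ 3 * (1 + 16 * ∫ t in h..(2 * η'), f t / t ^ 4)) := by gcongr
    _ ≤ C * (h ^ 3 * (16 * (1 + ∫ t in h..(2 * η'), f t / t ^ 4))) := by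
        gcongr
        linarith
    _ = _ := by ring

end Pool.Agent.H13.SK

end

section

/-!
# Linear approximations at all dyadic scales give a derivative
-/

set_option autoImplicit false

open Filter Topology

namespace Pool.Agent.H13.SK

/-- Tail sums of a geometrically decreasing sequence. -/
theorem exists_tail {x : ℕ → ℝ} {A ρ : ℝ} (hx0 : ∀ k, 0 < x k) (hρ0 : 0 < ρ) (hρ1 : ρ < 1)
    (hx : ∀ k i, x (k + i) ≤ A * ρ ^ i * x k) :
    ∃ X : ℕ → ℝ, (∀ k, X k = x k + X (k + 1)) ∧ (∀ k, 0 ≤ X k) ∧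
      ∀ k, X k ≤ A / (1 - ρ) * x k := by
  have hsum : ∀ k, Summable fun i => x (k + i) := by
    intro k
    refine Summable.of_nonneg_of_le (fun i => (hx0 _).le) (fun i => hx k i) ?_
    exact ((summable_geometric_of_lt_one hρ0.le hρ1).mul_left A).mul_right (x k)
  refine ⟨fun k => ∑' i, x (k + i), fun k => ?_, fun k => tsum_nonneg fun i => (hx0 _).le,
    fun k => ?_⟩
  · have h := (hsum k).tsum_eq_zero_add
    simp only [add_zero] at h
    simp only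
    rw [h]
    congr 1
    refine tsum_congr fun i => ?_
    congr 1
    omega
  · have h1 : ∑' i, x (k + i) ≤ ∑' i, A * ρ ^ i * x k :=
      (hsum k).tsum_le_tsum (fun i => hx k i)
        (((summable_geometric_of_lt_one hρ0.le hρ1).mul_left A).mul_right (x k))
    refine h1.trans (le_of_eq ?_)
    rw [tsum_mul_right, tsum_mul_left, tsum_geometric_of_lt_one hρ0.le hρ1]
    ring

/-- A sequence whose increments are bounded by the decrements of a nonnegative sequence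
converges. -/
theorem exists_lim {b Ψ : ℕ → ℝ} (hΨ : ∀ k, 0 ≤ Ψ k) {k₀ : ℕ}
    (h : ∀ k, k₀ ≤ k → |b k - b (k + 1)| ≤ Ψ k - Ψ (k + 1)) :
    ∃ β : ℝ, ∀ k, k₀ ≤ k → |b k - β| ≤ Ψ k := by
  have hstep : ∀ k, k₀ ≤ k → ∀ i, |b k - b (k + i)| ≤ Ψ k - Ψ (k + i) := by
    intro k hk i
    induction i with
    | zero => simp
    | succ i ih =>
      have h1 := h (k + i) (by omega)
      have h2 : b k - b (k + (i + 1)) = (b k - b (k + i)) + (b (k + i) - b (k + i + 1)) := by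
        rw [show k + (i + 1) = k + i + 1 by ring]
        ring
      rw [h2]
      refine (abs_add_le _ _).trans ?_
      rw [show k + (i + 1) = k + i + 1 by ring]
      linarith
  have hanti : Antitone fun i => Ψ (k₀ + i) := by
    refine antitone_nat_of_succ_le fun i => ?_
    have h1 := h (k₀ + i) (by omega)
    have h2 := abs_nonneg (b (k₀ + i) - b (k₀ + i + 1))
    rw [show k₀ + (i + 1) = k₀ + i + 1 by ring]
    linarith
  have hbdd : BddBelow (Set.range fun i => Ψ (k₀ + i)) :=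
    ⟨0, by rintro _ ⟨i, rfl⟩; exact hΨ _⟩
  have hconv := tendsto_atTop_ciInf hanti hbdd
  set ℓ := ⨅ i, Ψ (k₀ + i) with hℓ
  have hle : ∀ i, ℓ ≤ Ψ (k₀ + i) := fun i => ciInf_le hbdd i
  have hcau : CauchySeq fun i => b (k₀ + i) := by
    refine cauchySeq_of_le_tendsto_0 (fun i => 2 * (Ψ (k₀ + i) - ℓ)) ?_ ?_
    · intro n m N hn hm
      rw [Real.dist_eq]
      have h1 := hstep (k₀ + N) (by omega) (n - N)
      have h2 := hstep (k₀ + N) (by omega) (m - N)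
      rw [show k₀ + N + (n - N) = k₀ + n by omega] at h1
      rw [show k₀ + N + (m - N) = k₀ + m by omega] at h2
      have h3 := hle n
      have h4 := hle m
      have h5 : b (k₀ + n) - b (k₀ + m) =
          -(b (k₀ + N) - b (k₀ + n)) + (b (k₀ + N) - b (k₀ + m)) := by ring
      rw [h5]
      refine (abs_add_le _ _).trans ?_
      rw [abs_neg]
      linarith
    · have h1 := (hconv.sub_const ℓ).const_mul 2
      rw [sub_self, mul_zero] at h1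
      exact h1
  obtain ⟨β, hβ⟩ := cauchySeq_tendsto_of_complete hcau
  refine ⟨β, fun k hk => ?_⟩
  have hβ' : Tendsto (fun i => b (k + i)) atTop (𝓝 β) := by
    have h1 := (tendsto_add_atTop_iff_nat (f := fun i => b (k₀ + i)) (k - k₀)).2 hβ
    refine h1.congr fun i => ?_
    congr 1
    omega
  have h1 : Tendsto (fun i => |b k - b (k + i)|) atTop (𝓝 |b k - β|) :=
    (tendsto_const_nhds.sub hβ').abs
  refine le_of_tendsto h1 (Eventually.of_forall fun i => ?_)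
  have h2 := hstep k hk i
  have h3 := hΨ (k + i)
  linarith

/-- The inverse of the width of the window at scale `2 ^ k`. -/
noncomputable def uu (a : ℕ → ℝ) (k : ℕ) : ℝ := ((2 : ℝ) ^ k) ^ 2 * a (2 ^ k)

theorem uu_pos {a : ℕ → ℝ} (hpos : ∀ n, 1 ≤ n → 0 < a n) (k : ℕ) : 0 < uu a k := by
  unfold uu
  have := hpos (2 ^ k) Nat.one_le_two_pow
  positivity

theorem uu_grow {a : ℕ → ℝ} {c₀ δ₀ : ℝ} (hG : Grow c₀ δ₀ 1 a) (k i : ℕ) :
    c₀ * ((2 : ℝ) ^ δ₀) ^ i * uu a k ≤ uu a (k + i) := by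
  have h1 := grow_sq hG (m := 2 ^ k) (n := 2 ^ (k + i)) Nat.one_le_two_pow Nat.one_le_two_pow
    (by rw [one_mul]; exact Nat.pow_le_pow_right (by norm_num) (by omega))
  have h2 : (((2 ^ (k + i) : ℕ) : ℝ) / ((2 ^ k : ℕ) : ℝ)) ^ δ₀ = ((2 : ℝ) ^ δ₀) ^ i := by
    push_cast
    rw [pow_add, mul_div_cancel_left₀ _ (by positivity), ← Real.rpow_natCast, ← Real.rpow_natCast,
      ← Real.rpow_mul (by norm_num), ← Real.rpow_mul (by norm_num), mul_comm]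
  rw [h2] at h1
  unfold uu
  push_cast at h1 ⊢
  exact h1

theorem SumB_two (a : ℕ → ℝ) (k : ℕ) : SumB a (2 ^ (k + 1)) =
    SumB a (2 ^ k) + uu a (k + 1) ^ 2 * a (2 ^ (k + 1)) := by
  unfold SumB uu
  rw [Nat.log_pow (by norm_num), Nat.log_pow (by norm_num), Finset.sum_range_succ]
  ring

/-- **From linear approximations at all dyadic scales to the derivative.** -/
theorem dyadS {a : ℕ → ℝ} {c₀ δ₀ C₁ δ₁ : ℝ} (hc₀ : 0 < c₀) (hδ₀ : 0 < δ₀) (hC₁ : 0 < C₁)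
    (hδ₁ : 0 < δ₁) (hG : Grow c₀ δ₀ 1 a)
    (hU : ∀ m n : ℕ, 1 ≤ m → m ≤ n → a n ≤ C₁ * ((m : ℝ) / n) ^ (1 + δ₁) * a m)
    (hpos : ∀ n, 1 ≤ n → 0 < a n) (hanti : ∀ m n, 1 ≤ m → m ≤ n → a n ≤ a m)
    {f : ℝ → ℝ} {c C : ℝ} (hc : 0 < c) (hC : 0 < C) {k₀ : ℕ} {b : ℕ → ℝ}
    (h : ∀ k, k₀ ≤ k → ∀ t : ℝ, |t| ≤ c * (1 / uu a k) →
      |f t - b k * t| ≤ C * (a (2 ^ k) + t ^ 2 * SumB a (2 ^ k))) :
    (∃ β C' : ℝ, 0 < C' ∧ ∀ k, k₀ ≤ k → ∀ t : ℝ, |t| ≤ c * (1 / uu a k) →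
      |f t - β * t| ≤ C' * (a (2 ^ k) + (1 / uu a k) ^ 2 * SumB a (2 ^ k))) ∧
    Tendsto (fun k => (a (2 ^ k) + (1 / uu a k) ^ 2 * SumB a (2 ^ k)) * uu a k) atTop (𝓝 0) := by
  have hu : ∀ k, 0 < uu a k := uu_pos hpos
  have ha : ∀ k, 0 < a (2 ^ k) := fun k => hpos _ Nat.one_le_two_pow
  have hS : ∀ k, 0 ≤ SumB a (2 ^ k) := fun k => SumB_nonneg hpos _
  -- the windows
  have hb1 : 1 < (2 : ℝ) ^ δ₀ := Real.one_lt_rpow (by norm_num) hδ₀
  obtain ⟨w, hw⟩ : ∃ w : ℕ → ℝ, w = fun k => 1 / uu a k := ⟨_, rfl⟩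
  have hw0 : ∀ k, 0 < w k := fun k => by rw [hw]; have := hu k; positivity
  have hwdec : ∀ k i, w (k + i) ≤ 1 / c₀ * (((2 : ℝ) ^ δ₀)⁻¹) ^ i * w k := by
    intro k i
    rw [hw]
    have h1 := uu_grow hG k i
    have h2 := hu k
    have h3 := hu (k + i)
    have h4 : 0 < ((2 : ℝ) ^ δ₀) ^ i := by positivity
    simp only
    rw [inv_pow, div_le_iff₀ h3]
    calc (1 : ℝ) = 1 / c₀ * (((2 : ℝ) ^ δ₀) ^ i)⁻¹ * (1 / uu a k) *
          (c₀ * ((2 : ℝ) ^ δ₀) ^ i * uu a k) := by field_simp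
      _ ≤ _ := by gcongr
  obtain ⟨W, hW1, hW0, hW2⟩ := exists_tail hw0 (inv_pos.2 (by linarith)) (inv_lt_one_of_one_lt₀ hb1)
    hwdec
  -- the products `a u`
  obtain ⟨v, hv⟩ : ∃ v : ℕ → ℝ, v = fun k => a (2 ^ k) * uu a k := ⟨_, rfl⟩
  have hv0 : ∀ k, 0 < v k := fun k => by rw [hv]; exact mul_pos (ha k) (hu k)
  have hb2 : 1 < (4 : ℝ) ^ δ₁ := Real.one_lt_rpow (by norm_num) hδ₁
  have hvdec : ∀ k i, v (k + i) ≤ C₁ ^ 2 * (((4 : ℝ) ^ δ₁)⁻¹) ^ i * v k := by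
    intro k i
    rw [hv]
    have h1 := hU (2 ^ k) (2 ^ (k + i)) Nat.one_le_two_pow
      (Nat.pow_le_pow_right (by norm_num) (by omega))
    have h2 : (((2 ^ k : ℕ) : ℝ) / ((2 ^ (k + i) : ℕ) : ℝ)) ^ (1 + δ₁) =
        ((2 : ℝ) ^ i * ((2 : ℝ) ^ δ₁) ^ i)⁻¹ := by
      have h3 : (((2 ^ k : ℕ) : ℝ) / ((2 ^ (k + i) : ℕ) : ℝ)) = ((2 : ℝ) ^ i)⁻¹ := by
        push_cast
        rw [pow_add]
        field_simp
      rw [h3, Real.inv_rpow (by positivity)]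
      congr 1
      rw [← Real.rpow_natCast, ← Real.rpow_natCast, ← Real.rpow_mul (by norm_num),
        ← Real.rpow_mul (by norm_num), ← Real.rpow_add (by norm_num)]
      congr 1
      ring
    rw [h2] at h1
    have h4 : ((4 : ℝ) ^ δ₁) ^ i = (((2 : ℝ) ^ δ₁) ^ i) ^ 2 := by
      rw [← pow_mul, mul_comm i 2, pow_mul, ← Real.rpow_natCast ((2 : ℝ) ^ δ₁) 2,
        ← Real.rpow_mul (by norm_num)]
      congr 1
      rw [show (4 : ℝ) = 2 ^ (2 : ℝ) by norm_num, ← Real.rpow_mul (by norm_num)]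
      congr 1
      push_cast
      ring
    have ha1 := ha k
    have ha2 := ha (k + i)
    simp only [uu]
    rw [inv_pow, h4]
    have h5 : (0 : ℝ) < (2 : ℝ) ^ i := by positivity
    have h6 : (0 : ℝ) < ((2 : ℝ) ^ δ₁) ^ i := by positivity
    calc a (2 ^ (k + i)) * (((2 : ℝ) ^ (k + i)) ^ 2 * a (2 ^ (k + i)))
        = ((2 : ℝ) ^ (k + i)) ^ 2 * a (2 ^ (k + i)) ^ 2 := by ring
      _ ≤ ((2 : ℝ) ^ (k + i)) ^ 2 * (C₁ * ((2 : ℝ) ^ i * ((2 : ℝ) ^ δ₁) ^ i)⁻¹ * a (2 ^ k)) ^ 2 := by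
          gcongr
      _ = C₁ ^ 2 * ((((2 : ℝ) ^ δ₁) ^ i) ^ 2)⁻¹ * (a (2 ^ k) * (((2 : ℝ) ^ k) ^ 2 * a (2 ^ k))) := by
          rw [pow_add]
          field_simp
  obtain ⟨V, hV1, hV0, hV2⟩ := exists_tail hv0 (inv_pos.2 (by linarith)) (inv_lt_one_of_one_lt₀ hb2)
    hvdec
  obtain ⟨A, hA⟩ : ∃ A : ℝ, A = 1 / c₀ / (1 - ((2 : ℝ) ^ δ₀)⁻¹) := ⟨_, rfl⟩
  obtain ⟨B, hB⟩ : ∃ B : ℝ, B = C₁ ^ 2 / (1 - ((4 : ℝ) ^ δ₁)⁻¹) := ⟨_, rfl⟩
  rw [← hA] at hW2
  rw [← hB] at hV2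
  have hA0 : 0 < A := by
    have : 0 < 1 - ((2 : ℝ) ^ δ₀)⁻¹ := sub_pos.2 (inv_lt_one_of_one_lt₀ hb1)
    rw [hA]
    positivity
  have hB0 : 0 < B := by
    have : 0 < 1 - ((4 : ℝ) ^ δ₁)⁻¹ := sub_pos.2 (inv_lt_one_of_one_lt₀ hb2)
    rw [hB]
    positivity
  -- the potential
  obtain ⟨E, hE⟩ : ∃ E : ℕ → ℝ, E = fun k => v k + w k * SumB a (2 ^ k) := ⟨_, rfl⟩
  obtain ⟨Ψ, hΨ⟩ : ∃ Ψ : ℕ → ℝ, Ψ = fun k => W k * SumB a (2 ^ k) + A * V (k + 1) + V k :=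
    ⟨_, rfl⟩
  have hΨ0 : ∀ k, 0 ≤ Ψ k := by
    intro k
    rw [hΨ]
    have h1 := hW0 k
    have h2 := hV0 k
    have h3 := hV0 (k + 1)
    have h4 := hS k
    positivity
  have hstep : ∀ k, E k ≤ Ψ k - Ψ (k + 1) := by
    intro k
    rw [hE, hΨ]
    simp only
    have h1 := hW1 k
    have h2 := hV1 k
    have h3 := hV1 (k + 1)
    have h4 := hW2 (k + 1)
    rw [SumB_two, h1, h2]
    have h5 : w (k + 1) * (uu a (k + 1) ^ 2 * a (2 ^ (k + 1))) = v (k + 1) := by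
      have := hu (k + 1)
      rw [hw, hv]
      field_simp
    have h6 : 0 ≤ uu a (k + 1) ^ 2 * a (2 ^ (k + 1)) := by
      have := ha (k + 1)
      positivity
    have h7 : W (k + 1) * (uu a (k + 1) ^ 2 * a (2 ^ (k + 1))) ≤ A * v (k + 1) := by
      calc W (k + 1) * (uu a (k + 1) ^ 2 * a (2 ^ (k + 1)))
          ≤ A * w (k + 1) * (uu a (k + 1) ^ 2 * a (2 ^ (k + 1))) :=
            mul_le_mul_of_nonneg_right h4 h6
        _ = A * v (k + 1) := by rw [mul_assoc, h5]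
    have h8 : A * V (k + 1) = A * v (k + 1) + A * V (k + 2) := by
      rw [h3]
      ring
    have e1 : k + 1 + 1 = k + 2 := rfl
    rw [e1, h8]
    nlinarith
  have hΨE : ∀ k, Ψ k ≤ (A + A * B + B) * E k := by
    intro k
    rw [hE, hΨ]
    simp only
    have h1 := hW2 k
    have h2 := hV2 k
    have h3 : V (k + 1) ≤ B * v k := by
      have h4 := hV1 k
      have h5 := hv0 k
      linarith
    have h4 := hS k
    have h5 := (hw0 k).le
    have h6 := (hv0 k).le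
    have h7 : W k * SumB a (2 ^ k) ≤ A * w k * SumB a (2 ^ k) := mul_le_mul_of_nonneg_right h1 h4
    have h8 : A * V (k + 1) ≤ A * (B * v k) := mul_le_mul_of_nonneg_left h3 hA0.le
    have h9 : 0 ≤ w k * SumB a (2 ^ k) := mul_nonneg h5 h4
    nlinarith [mul_nonneg hA0.le h6, mul_nonneg hB0.le h9, mul_nonneg (mul_nonneg hA0.le hB0.le) h9]
  -- the increments
  obtain ⟨D, hD⟩ : ∃ D : ℝ, D = max 1 (1 / c₀) := ⟨_, rfl⟩
  have hD1 : 1 ≤ D := by rw [hD]; exact le_max_left _ _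
  have hDw : ∀ k, w (k + 1) ≤ D * w k := by
    intro k
    have h1 := hwdec k 1
    rw [pow_one] at h1
    have h2 : ((2 : ℝ) ^ δ₀)⁻¹ ≤ 1 := (inv_lt_one_of_one_lt₀ hb1).le
    have h3 := hw0 k
    have h4 : 1 / c₀ ≤ D := by rw [hD]; exact le_max_right _ _
    have h5 : 1 / c₀ * ((2 : ℝ) ^ δ₀)⁻¹ ≤ D := by
      calc 1 / c₀ * ((2 : ℝ) ^ δ₀)⁻¹ ≤ 1 / c₀ * 1 := by gcongr
        _ ≤ D := by rw [mul_one]; exact h4
    exact h1.trans (mul_le_mul_of_nonneg_right h5 h3.le)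
  have hdbl : ∀ k, a (2 ^ k) ≤ 4 / c₀ * a (2 ^ (k + 1)) := by
    intro k
    have h1 := uu_grow hG k 1
    rw [pow_one] at h1
    unfold uu at h1
    have h2 : 0 < a (2 ^ k) := ha k
    have h3 : c₀ * 1 * (((2 : ℝ) ^ k) ^ 2 * a (2 ^ k)) ≤ ((2 : ℝ) ^ (k + 1)) ^ 2 * a (2 ^ (k + 1)) := by
      refine le_trans ?_ h1
      gcongr
    have h4 : (0 : ℝ) < ((2 : ℝ) ^ k) ^ 2 := by positivity
    rw [pow_succ (2 : ℝ) k, mul_pow] at h3
    have h5 : ((2 : ℝ) ^ k) ^ 2 * (c₀ * a (2 ^ k)) ≤ ((2 : ℝ) ^ k) ^ 2 * (4 * a (2 ^ (k + 1))) := by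
      nlinarith
    have h6 := le_of_mul_le_mul_left h5 h4
    rw [div_mul_eq_mul_div, le_div_iff₀ hc₀]
    linarith
  obtain ⟨F, hF⟩ : ∃ F : ℝ, F = 2 * C * (D / c * (4 / c₀) + c) := ⟨_, rfl⟩
  have hF0 : 0 < F := by rw [hF]; positivity
  have hinc : ∀ k, k₀ ≤ k → |b k - b (k + 1)| ≤ F * E (k + 1) := by
    intro k hk
    obtain ⟨t, ht⟩ : ∃ t : ℝ, t = c * w (k + 1) / D := ⟨_, rfl⟩
    have hD0 : 0 < D := by linarith
    have hwk := hw0 (k + 1)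
    have ht0 : 0 < t := by rw [ht]; positivity
    have ht1 : |t| ≤ c * (1 / uu a (k + 1)) := by
      rw [abs_of_pos ht0, ht, div_le_iff₀ hD0]
      have h1 : c * (1 / uu a (k + 1)) = c * w (k + 1) := by rw [hw]
      rw [h1]
      exact le_mul_of_one_le_right (by positivity) hD1
    have ht2 : |t| ≤ c * (1 / uu a k) := by
      rw [abs_of_pos ht0, ht, div_le_iff₀ hD0]
      have h1 : c * (1 / uu a k) = c * w k := by rw [hw]
      rw [h1]
      calc c * w (k + 1) ≤ c * (D * w k) := mul_le_mul_of_nonneg_left (hDw k) hc.le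
        _ = c * w k * D := by ring
    have h1 := h k hk t ht2
    have h2 := h (k + 1) (by omega) t ht1
    have hSm : SumB a (2 ^ k) ≤ SumB a (2 ^ (k + 1)) :=
      SumB_mono hpos (Nat.pow_le_pow_right (by norm_num) (by omega))
    have ham : a (2 ^ (k + 1)) ≤ a (2 ^ k) :=
      hanti _ _ Nat.one_le_two_pow (Nat.pow_le_pow_right (by norm_num) (by omega))
    have h3 : |b k - b (k + 1)| * t ≤ 2 * C * (a (2 ^ k) + t ^ 2 * SumB a (2 ^ (k + 1))) := by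
      have h4 : |b k - b (k + 1)| * t = |(f t - b (k + 1) * t) - (f t - b k * t)| := by
        rw [← abs_of_pos ht0, ← abs_mul, abs_of_pos ht0]
        congr 1
        ring
      rw [h4]
      refine (abs_sub _ _).trans ((add_le_add h2 h1).trans ?_)
      have h5 : t ^ 2 * SumB a (2 ^ k) ≤ t ^ 2 * SumB a (2 ^ (k + 1)) := by gcongr
      nlinarith
    have h4 : |b k - b (k + 1)| ≤ 2 * C * (a (2 ^ k) / t + t * SumB a (2 ^ (k + 1))) := by
      have h5 : 2 * C * (a (2 ^ k) + t ^ 2 * SumB a (2 ^ (k + 1))) =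
          2 * C * (a (2 ^ k) / t + t * SumB a (2 ^ (k + 1))) * t := by
        field_simp
      rw [h5] at h3
      exact le_of_mul_le_mul_right h3 ht0
    refine h4.trans ?_
    have h5 : a (2 ^ k) / t ≤ D / c * (4 / c₀) * v (k + 1) := by
      have hak := ha (k + 1)
      have huk := hu (k + 1)
      have h6 : a (2 ^ k) / t = D / c * (a (2 ^ k) * uu a (k + 1)) := by
        rw [ht, hw]
        field_simp
      rw [h6, hv]
      calc D / c * (a (2 ^ k) * uu a (k + 1)) ≤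
            D / c * (4 / c₀ * a (2 ^ (k + 1)) * uu a (k + 1)) := by
            have := hdbl k
            gcongr
        _ = _ := by ring
    have h6 : t ≤ c * w (k + 1) := by
      rw [ht, div_le_iff₀ hD0]
      exact le_mul_of_one_le_right (by positivity) hD1
    have h7 : t * SumB a (2 ^ (k + 1)) ≤ c * (w (k + 1) * SumB a (2 ^ (k + 1))) := by
      rw [← mul_assoc]
      exact mul_le_mul_of_nonneg_right h6 (hS _)
    rw [hF, hE]
    have h8 : 0 ≤ v (k + 1) := (hv0 _).le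
    have h9 : 0 ≤ w (k + 1) * SumB a (2 ^ (k + 1)) := mul_nonneg (hw0 _).le (hS _)
    have h10 : 0 ≤ D / c * (4 / c₀) := by positivity
    calc 2 * C * (a (2 ^ k) / t + t * SumB a (2 ^ (k + 1)))
        ≤ 2 * C * (D / c * (4 / c₀) * v (k + 1) + c * (w (k + 1) * SumB a (2 ^ (k + 1)))) := by
          gcongr
      _ ≤ 2 * C * ((D / c * (4 / c₀) + c) * (v (k + 1) + w (k + 1) * SumB a (2 ^ (k + 1)))) := by
          gcongr
          nlinarith
      _ = _ := by ring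
  -- the limit
  obtain ⟨β, hβ⟩ := exists_lim (b := b) (Ψ := fun k => F * Ψ (k + 1)) (k₀ := k₀)
    (fun k => mul_nonneg hF0.le (hΨ0 _)) (fun k hk => by
      have h1 := hinc k hk
      have h2 := hstep (k + 1)
      calc |b k - b (k + 1)| ≤ F * E (k + 1) := h1
        _ ≤ F * (Ψ (k + 1) - Ψ (k + 1 + 1)) := mul_le_mul_of_nonneg_left h2 hF0.le
        _ = _ := by ring)
  obtain ⟨M, hM⟩ : ∃ M : ℝ, M = F * (A + A * B + B) := ⟨_, rfl⟩
  have hM0 : 0 < M := by rw [hM]; positivity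
  have hE0 : ∀ k, 0 ≤ E k := by
    intro k
    rw [hE]
    exact add_nonneg (hv0 k).le (mul_nonneg (hw0 k).le (hS k))
  have hβ' : ∀ k, k₀ ≤ k → |b k - β| ≤ M * E k := by
    intro k hk
    have h1 := hβ k hk
    have h2 := hstep k
    have h3 := hE0 k
    have h4 := hΨE k
    calc |b k - β| ≤ F * Ψ (k + 1) := h1
      _ ≤ F * Ψ k := mul_le_mul_of_nonneg_left (by linarith) hF0.le
      _ ≤ F * ((A + A * B + B) * E k) := mul_le_mul_of_nonneg_left h4 hF0.le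
      _ = M * E k := by rw [hM]; ring
  have hEw : ∀ k, E k * w k = a (2 ^ k) + w k ^ 2 * SumB a (2 ^ k) := by
    intro k
    rw [hE]
    simp only
    have h7 : v k * w k = a (2 ^ k) := by
      have := hu k
      rw [hv, hw]
      field_simp
    rw [add_mul, h7]
    ring
  refine ⟨⟨β, C * (1 + c ^ 2) + M * c, by positivity, fun k hk t ht => ?_⟩, ?_⟩
  swap
  · have hanti : Antitone Ψ := by
      refine antitone_nat_of_succ_le fun k => ?_
      have h1 := hstep k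
      have h2 := hE0 k
      linarith
    have hconv := tendsto_atTop_ciInf hanti ⟨0, by rintro _ ⟨i, rfl⟩; exact hΨ0 _⟩
    have h1 : Tendsto (fun k => Ψ k - Ψ (k + 1)) atTop (𝓝 0) := by
      have h2 := hconv.sub ((tendsto_add_atTop_iff_nat 1).2 hconv)
      rwa [sub_self] at h2
    have h3 : Tendsto E atTop (𝓝 0) :=
      squeeze_zero hE0 hstep h1
    refine h3.congr fun k => ?_
    have h4 := hEw k
    have h5 := hu k
    have h6 : w k = 1 / uu a k := by rw [hw]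
    rw [← h6, ← h4, mul_assoc, h6, one_div_mul_cancel h5.ne', mul_one]
  have h1 := h k hk t ht
  have h2 := hβ' k hk
  have h3 : f t - β * t = (f t - b k * t) + (b k - β) * t := by ring
  have hwk : 1 / uu a k = w k := by rw [hw]
  rw [hwk] at ht ⊢
  have h4 : t ^ 2 ≤ c ^ 2 * w k ^ 2 := by
    rw [← mul_pow, ← sq_abs t]
    gcongr
  have h5 : |b k - β| * |t| ≤ M * E k * (c * w k) :=
    mul_le_mul h2 ht (abs_nonneg _) (mul_nonneg hM0.le (hE0 k))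
  have h6 := hEw k
  have h8 := (ha k).le
  have h9 : 0 ≤ w k ^ 2 * SumB a (2 ^ k) := mul_nonneg (by positivity) (hS k)
  rw [h3]
  refine (abs_add_le _ _).trans ?_
  rw [abs_mul]
  calc |f t - b k * t| + |b k - β| * |t|
      ≤ C * (a (2 ^ k) + t ^ 2 * SumB a (2 ^ k)) + M * E k * (c * w k) := add_le_add h1 h5
    _ ≤ C * (a (2 ^ k) + c ^ 2 * w k ^ 2 * SumB a (2 ^ k)) + M * E k * (c * w k) := by
        have := hS k
        gcongr
    _ = C * (a (2 ^ k) + c ^ 2 * (w k ^ 2 * SumB a (2 ^ k))) + M * c * (E k * w k) := by ring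
    _ ≤ C * ((1 + c ^ 2) * (a (2 ^ k) + w k ^ 2 * SumB a (2 ^ k))) +
        M * c * (a (2 ^ k) + w k ^ 2 * SumB a (2 ^ k)) := by
        rw [h6]
        have h10 : 0 ≤ c ^ 2 := by positivity
        gcongr
        nlinarith [mul_nonneg h10 h8]
    _ = _ := by ring

end Pool.Agent.H13.SK

end

section

/-!
# The second order remainder of the cluster density
-/

set_option autoImplicit false

open Filter Topology

namespace Pool.Agent.H13.SK

/-- Remainder of the second order Taylor expansion. -/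
noncomputable def Rm2 (κ : ℝ → ℝ) (x₀ p : ℝ) : ℝ :=
  κ p - κ x₀ - deriv κ x₀ * (p - x₀) - 1 / 2 * deriv (deriv κ) x₀ * (p - x₀) ^ 2

/-- **The remainder of `κ` from the dyadic approximations of `τ`**, where `κ' = 1 - 4 x + τ`. -/
theorem rem_of_win {a : ℕ → ℝ} {c₀ δ₀ C₁ δ₁ : ℝ} (hc₀ : 0 < c₀) (hδ₀ : 0 < δ₀) (hC₁ : 0 < C₁)
    (hδ₁ : 0 < δ₁) (hG : Grow c₀ δ₀ 1 a)
    (hU : ∀ m n : ℕ, 1 ≤ m → m ≤ n → a n ≤ C₁ * ((m : ℝ) / n) ^ (1 + δ₁) * a m)
    (hpos : ∀ n, 1 ≤ n → 0 < a n) (hanti : ∀ m n, 1 ≤ m → m ≤ n → a n ≤ a m)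
    {κ τ : ℝ → ℝ} {x₀ η : ℝ} (hη : 0 < η)
    (hκ : ∀ x : ℝ, |x - x₀| < η → HasDerivAt κ (1 - 4 * x + τ x) x)
    {c C : ℝ} (hc : 0 < c) (hC : 0 < C) {k₀ : ℕ} {b : ℕ → ℝ}
    (h : ∀ k, k₀ ≤ k → ∀ t : ℝ, |t| ≤ c * (1 / uu a k) →
      |τ (x₀ + t) - τ x₀ - b k * t| ≤ C * (a (2 ^ k) + t ^ 2 * SumB a (2 ^ k))) :
    (∀ᶠ x in 𝓝 x₀, DifferentiableAt ℝ κ x) ∧ DifferentiableAt ℝ (deriv κ) x₀ ∧
    ∃ cr > (0 : ℝ), ∃ Cr > (0 : ℝ), ∃ n₀ : ℕ, ∀ n : ℕ, n₀ ≤ n → 1 ≤ n → ∀ x : ℝ, 0 < x →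
      x * ((n : ℝ) ^ 2 * a n) ≤ cr →
      max |Rm2 κ x₀ (x₀ + x)| |Rm2 κ x₀ (x₀ - x)| ≤
        Cr * (1 / (n : ℝ) ^ 2 + (1 / ((n : ℝ) ^ 2 * a n)) ^ 3 * SumB a n) := by
  obtain ⟨⟨β, C', hC', hβ⟩, hlim⟩ := dyadS hc₀ hδ₀ hC₁ hδ₁ hG hU hpos hanti
    (f := fun t => τ (x₀ + t) - τ x₀) hc hC h
  have hu : ∀ k, 0 < uu a k := uu_pos hpos
  have ha : ∀ k, 0 < a (2 ^ k) := fun k => hpos _ Nat.one_le_two_pow
  have hu4 : ∀ k, uu a (k + 1) ≤ 4 * uu a k := by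
    intro k
    unfold uu
    have h1 : a (2 ^ (k + 1)) ≤ a (2 ^ k) :=
      hanti _ _ Nat.one_le_two_pow (Nat.pow_le_pow_right (by norm_num) (by omega))
    calc ((2 : ℝ) ^ (k + 1)) ^ 2 * a (2 ^ (k + 1)) ≤ ((2 : ℝ) ^ (k + 1)) ^ 2 * a (2 ^ k) := by
          gcongr
      _ = _ := by ring
  -- `u` tends to infinity
  have hb1 : 1 < (2 : ℝ) ^ δ₀ := Real.one_lt_rpow (by norm_num) hδ₀
  have hutop : Tendsto (uu a) atTop atTop := by
    have h1 : Tendsto (fun k : ℕ => c₀ * uu a 0 * ((2 : ℝ) ^ δ₀) ^ k) atTop atTop :=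
      (tendsto_pow_atTop_atTop_of_one_lt hb1).const_mul_atTop (mul_pos hc₀ (hu 0))
    refine tendsto_atTop_mono (fun k => ?_) h1
    have h2 := uu_grow hG 0 k
    rw [Nat.zero_add] at h2
    calc c₀ * uu a 0 * ((2 : ℝ) ^ δ₀) ^ k = c₀ * ((2 : ℝ) ^ δ₀) ^ k * uu a 0 := by ring
      _ ≤ _ := h2
  have hder : ∀ x : ℝ, |x - x₀| < η → deriv κ x = 1 - 4 * x + τ x := fun x hx =>
    (hκ x hx).deriv
  have hd0 : deriv κ x₀ = 1 - 4 * x₀ + τ x₀ := hder x₀ (by simpa using hη)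
  -- second derivative
  have hdd : HasDerivAt (deriv κ) (β - 4) x₀ := by
    rw [hasDerivAt_iff_isLittleO, Asymptotics.isLittleO_iff]
    intro ε hε
    obtain ⟨M, hM⟩ : ∃ M : ℝ, M = C' * (4 / c) := ⟨_, rfl⟩
    have hM0 : 0 < M := by rw [hM]; positivity
    obtain ⟨k₁, hk₁⟩ := eventually_atTop.1 (hlim (Iio_mem_nhds (by positivity : 0 < ε / M)))
    obtain ⟨K, hK⟩ : ∃ K : ℕ, K = max k₀ k₁ := ⟨_, rfl⟩
    have hr : 0 < min η (c * (1 / uu a K)) := lt_min hη (by have := hu K; positivity)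
    filter_upwards [Metric.ball_mem_nhds x₀ hr] with x hx
    rw [Metric.mem_ball, Real.dist_eq] at hx
    have hxη := hx.trans_le (min_le_left _ _)
    have hxc := hx.trans_le (min_le_right _ _)
    rw [hder x hxη, hd0, smul_eq_mul, Real.norm_eq_abs, Real.norm_eq_abs]
    obtain ⟨t, ht⟩ : ∃ t : ℝ, t = x - x₀ := ⟨_, rfl⟩
    have hxt : x = x₀ + t := by rw [ht]; ring
    rw [← ht] at hxc ⊢
    rw [hxt]
    have e1 : 1 - 4 * (x₀ + t) + τ (x₀ + t) - (1 - 4 * x₀ + τ x₀) - t * (β - 4) =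
        τ (x₀ + t) - τ x₀ - β * t := by ring
    rw [e1]
    rcases eq_or_ne t 0 with h0 | h0
    · rw [h0]
      simp
    have ht0 : 0 < |t| := abs_pos.2 h0
    -- the last scale with `t` in the window
    classical
    have hex : ∃ k : ℕ, K ≤ k ∧ c * (1 / uu a k) < |t| := by
      obtain ⟨k, hk1, hk2⟩ := ((hutop.eventually_gt_atTop (c / |t|)).and
        (eventually_ge_atTop K)).exists
      refine ⟨k, hk2, ?_⟩
      have := hu k
      rw [mul_one_div, div_lt_iff₀ this]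
      rw [div_lt_iff₀ ht0] at hk1
      linarith
    have hspec := Nat.find_spec hex
    have hne : Nat.find hex ≠ K := by
      intro he
      rw [he] at hspec
      linarith [hspec.2]
    obtain ⟨k, hk⟩ : ∃ k, Nat.find hex = k + 1 := ⟨Nat.find hex - 1, by omega⟩
    have hmin := Nat.find_min hex (m := k) (by omega)
    rw [hk] at hspec
    have hKk : K ≤ k := by omega
    have hkt : |t| ≤ c * (1 / uu a k) := by
      by_contra hlt
      push Not at hlt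
      exact hmin ⟨hKk, hlt⟩
    have h1 := hβ k (by omega) t hkt
    have h2 : (a (2 ^ k) + (1 / uu a k) ^ 2 * SumB a (2 ^ k)) * uu a k < ε / M :=
      hk₁ k (by omega)
    have h3 : 1 ≤ 4 / c * (|t| * uu a k) := by
      have h4 := hspec.2
      have h5 := hu4 k
      have h6 := hu k
      have h7 := hu (k + 1)
      rw [mul_one_div, div_lt_iff₀ h7] at h4
      have h8 : c ≤ 4 * (|t| * uu a k) := by nlinarith
      calc (1 : ℝ) = c / c := (div_self hc.ne').symm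
        _ ≤ 4 * (|t| * uu a k) / c := by gcongr
        _ = _ := by ring
    have hX : 0 ≤ a (2 ^ k) + (1 / uu a k) ^ 2 * SumB a (2 ^ k) := by
      have h4 := (ha k).le
      have h5 := SumB_nonneg hpos (2 ^ k)
      positivity
    refine h1.trans ?_
    have h4 : a (2 ^ k) + (1 / uu a k) ^ 2 * SumB a (2 ^ k) ≤
        4 / c * |t| * ((a (2 ^ k) + (1 / uu a k) ^ 2 * SumB a (2 ^ k)) * uu a k) := by
      calc a (2 ^ k) + (1 / uu a k) ^ 2 * SumB a (2 ^ k)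
          ≤ (a (2 ^ k) + (1 / uu a k) ^ 2 * SumB a (2 ^ k)) * (4 / c * (|t| * uu a k)) :=
            le_mul_of_one_le_right hX h3
        _ = _ := by ring
    calc C' * (a (2 ^ k) + (1 / uu a k) ^ 2 * SumB a (2 ^ k))
        ≤ C' * (4 / c * |t| * (ε / M)) := by
          refine mul_le_mul_of_nonneg_left (h4.trans ?_) hC'.le
          exact mul_le_mul_of_nonneg_left h2.le (by positivity)
      _ = ε * |t| := by
          rw [hM]
          field_simp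
  have hdd' : deriv (deriv κ) x₀ = β - 4 := hdd.deriv
  refine ⟨?_, hdd.differentiableAt, ?_⟩
  · filter_upwards [Metric.ball_mem_nhds x₀ hη] with x hx
    rw [Metric.mem_ball, Real.dist_eq] at hx
    exact (hκ x hx).differentiableAt
  -- the remainder
  have hrem : ∀ k, k₀ ≤ k → c * (1 / uu a k) < η → ∀ x : ℝ, |x - x₀| ≤ c * (1 / uu a k) →
      |Rm2 κ x₀ x| ≤ C' * (a (2 ^ k) + (1 / uu a k) ^ 2 * SumB a (2 ^ k)) * (c * (1 / uu a k)) := by
    intro k hk hkη x hx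
    have hX : 0 ≤ a (2 ^ k) + (1 / uu a k) ^ 2 * SumB a (2 ^ k) := by
      have h4 := (ha k).le
      have h5 := SumB_nonneg hpos (2 ^ k)
      have h6 := hu k
      positivity
    have hx0m : x₀ ∈ Metric.closedBall x₀ |x - x₀| := by
      rw [Metric.mem_closedBall, dist_self]; exact abs_nonneg _
    have hxm : x ∈ Metric.closedBall x₀ |x - x₀| := by
      rw [Metric.mem_closedBall, Real.dist_eq]
    have h3 := (convex_closedBall x₀ |x - x₀|).norm_image_sub_le_of_norm_hasDerivWithin_le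
      (f := Rm2 κ x₀) (f' := fun z => τ z - τ x₀ - β * (z - x₀))
      (C := C' * (a (2 ^ k) + (1 / uu a k) ^ 2 * SumB a (2 ^ k)))
      (fun z hz => by
        rw [Metric.mem_closedBall, Real.dist_eq] at hz
        have h4 := hκ z ((hz.trans hx).trans_lt hkη)
        have h5 : HasDerivAt (fun z : ℝ => z - x₀) 1 z := (hasDerivAt_id z).sub_const _
        have h6 := ((h4.sub_const (κ x₀)).sub (h5.const_mul (deriv κ x₀))).sub
          ((h5.pow 2).const_mul (1 / 2 * deriv (deriv κ) x₀))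
        refine HasDerivAt.hasDerivWithinAt (h6.congr_deriv ?_)
        rw [hd0, hdd']
        simp only [Nat.cast_ofNat, Nat.add_one_sub_one, pow_one]
        ring)
      (fun z hz => by
        rw [Metric.mem_closedBall, Real.dist_eq] at hz
        have h4 := hβ k hk (z - x₀) (hz.trans hx)
        rw [add_sub_cancel] at h4
        rw [Real.norm_eq_abs]
        exact h4) hx0m hxm
    rw [Real.norm_eq_abs, Real.norm_eq_abs] at h3
    have hR0 : Rm2 κ x₀ x₀ = 0 := by unfold Rm2; simp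
    rw [hR0, sub_zero] at h3
    exact h3.trans (mul_le_mul_of_nonneg_left hx (mul_nonneg hC'.le hX))
  obtain ⟨k₂, hk₂⟩ := eventually_atTop.1 (hutop.eventually_gt_atTop (c / η))
  refine ⟨c * c₀ / 4, by positivity, C' * c * 64, by positivity, 2 ^ (max k₀ k₂), ?_⟩
  intro n hn hn1 x hx0 hx
  obtain ⟨k, hk⟩ : ∃ k, k = Nat.log 2 n := ⟨_, rfl⟩
  have hk1 : 2 ^ k ≤ n := by rw [hk]; exact Nat.pow_log_le_self 2 (by omega)
  have hk2 : n < 2 ^ (k + 1) := by rw [hk]; exact Nat.lt_pow_succ_log_self (by norm_num) _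
  have hkk : max k₀ k₂ ≤ k := by
    rw [hk]
    exact Nat.le_log_of_pow_le (by norm_num) hn
  have hu0 := hu k
  have han := hpos n hn1
  have hn0 : (0 : ℝ) < n := by exact_mod_cast hn1
  have hk1' : (2 : ℝ) ^ k ≤ n := by exact_mod_cast hk1
  have hk2' : (n : ℝ) ≤ 2 * (2 : ℝ) ^ k := by
    have h1 : n ≤ 2 * 2 ^ k := by rw [pow_succ] at hk2; omega
    exact_mod_cast h1
  have hup : uu a k ≤ 4 / c₀ * ((n : ℝ) ^ 2 * a n) := by
    have h1 := uu_grow hG k 1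
    rw [pow_one] at h1
    have h2 : a (2 ^ (k + 1)) ≤ a n := hanti n _ hn1 hk2.le
    have h3 : uu a (k + 1) ≤ 4 * ((n : ℝ) ^ 2 * a n) := by
      unfold uu
      calc ((2 : ℝ) ^ (k + 1)) ^ 2 * a (2 ^ (k + 1)) = 4 * (((2 : ℝ) ^ k) ^ 2 * a (2 ^ (k + 1))) := by
            ring
        _ ≤ 4 * ((n : ℝ) ^ 2 * a n) := by
            have := (ha (k + 1)).le
            gcongr
    have h4 : c₀ * uu a k ≤ 4 * ((n : ℝ) ^ 2 * a n) := by
      refine le_trans ?_ h3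
      refine le_trans ?_ h1
      have h5 : 0 < c₀ * uu a k := by positivity
      nlinarith
    rw [div_mul_eq_mul_div, le_div_iff₀ hc₀]
    linarith
  have hlow : (n : ℝ) ^ 2 * a n ≤ 4 * uu a k := by
    unfold uu
    have h1 : a n ≤ a (2 ^ k) := hanti _ _ Nat.one_le_two_pow hk1
    calc (n : ℝ) ^ 2 * a n ≤ (2 * (2 : ℝ) ^ k) ^ 2 * a (2 ^ k) := by gcongr
      _ = _ := by ring
  have hwin : x ≤ c * (1 / uu a k) := by
    rw [mul_one_div, le_div_iff₀ hu0]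
    calc x * uu a k ≤ x * (4 / c₀ * ((n : ℝ) ^ 2 * a n)) := by gcongr
      _ = 4 / c₀ * (x * ((n : ℝ) ^ 2 * a n)) := by ring
      _ ≤ 4 / c₀ * (c * c₀ / 4) := by gcongr
      _ = c := by field_simp
  have hkη : c * (1 / uu a k) < η := by
    have h1 := hk₂ k (by omega)
    rw [mul_one_div, div_lt_iff₀ hu0]
    rw [div_lt_iff₀ hη] at h1
    linarith
  have hb : ∀ y : ℝ, |y - x₀| ≤ c * (1 / uu a k) → |Rm2 κ x₀ y| ≤
      C' * c * 64 * (1 / (n : ℝ) ^ 2 + (1 / ((n : ℝ) ^ 2 * a n)) ^ 3 * SumB a n) := by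
    intro y hy
    refine (hrem k (by omega) hkη y hy).trans ?_
    have h1 : a (2 ^ k) * (1 / uu a k) ≤ 4 * (1 / (n : ℝ) ^ 2) := by
      have h2 : a (2 ^ k) * (1 / uu a k) = 1 / ((2 : ℝ) ^ k) ^ 2 := by
        unfold uu
        have := ha k
        field_simp
      rw [h2, mul_one_div, div_le_div_iff₀ (by positivity) (by positivity), one_mul]
      calc (n : ℝ) ^ 2 ≤ (2 * (2 : ℝ) ^ k) ^ 2 := by gcongr
        _ = _ := by ring
    have h2 : 1 / uu a k ≤ 4 * (1 / ((n : ℝ) ^ 2 * a n)) := by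
      rw [mul_one_div, div_le_div_iff₀ hu0 (by positivity), one_mul]
      exact hlow
    have h3 : SumB a (2 ^ k) ≤ SumB a n := SumB_mono hpos hk1
    have h4 := SumB_nonneg hpos (2 ^ k)
    have h5 : (1 / uu a k) ^ 3 * SumB a (2 ^ k) ≤
        64 * ((1 / ((n : ℝ) ^ 2 * a n)) ^ 3 * SumB a n) := by
      calc (1 / uu a k) ^ 3 * SumB a (2 ^ k)
          ≤ (4 * (1 / ((n : ℝ) ^ 2 * a n))) ^ 3 * SumB a n := by gcongr
        _ = _ := by ring
    have h6 : 0 ≤ 1 / (n : ℝ) ^ 2 := by positivity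
    calc C' * (a (2 ^ k) + (1 / uu a k) ^ 2 * SumB a (2 ^ k)) * (c * (1 / uu a k))
        = C' * c * (a (2 ^ k) * (1 / uu a k) + (1 / uu a k) ^ 3 * SumB a (2 ^ k)) := by ring
      _ ≤ C' * c * (4 * (1 / (n : ℝ) ^ 2) + 64 * ((1 / ((n : ℝ) ^ 2 * a n)) ^ 3 * SumB a n)) := by
          gcongr
      _ ≤ C' * c * (64 * (1 / (n : ℝ) ^ 2) +
          64 * ((1 / ((n : ℝ) ^ 2 * a n)) ^ 3 * SumB a n)) := by
          gcongr
          norm_num
      _ = _ := by ring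
  refine max_le (hb _ ?_) (hb _ ?_)
  · rw [add_sub_cancel_left, abs_of_pos hx0]
    exact hwin
  · rw [show x₀ - x - x₀ = -x by ring, abs_neg, abs_of_pos hx0]
    exact hwin

end Pool.Agent.H13.SK

end
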