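import Pool.Agent.H31.PT.M12
import Pool.Agent.H31.PT.M15
import Pool.Agent.H31.PT.M18
import Pool.Agent.H31.PT.M24

/-! The parts of this file: H13.SK.SigmaTr, H13.SK.SigmaMono, H13.SK.Regime, H13.SK.LenOne, H92.SN.Tau, H92.SN.KCnt, H13.SK.TBlock, H13.SK.TTwo, H92.SN.Ret, H92.SN.Det, H92.SN.Pair, H92.SN.Sum, H92.SN.Main, H92.SN.Fin, H92.SN.Unif, H92.SN.Piv, H83.SK.PST.Prob, H83.SK.PST.Piv, H38.SK.Conv. -/

section

/-!
# The mean cluster size as a sum of the two-point function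
-/

set_option autoImplicit false

open MeasureTheory ProbabilityTheory unitInterval
open scoped ENNReal

namespace Pool.Agent.H13.SK

open Pool.Agent.H89.Perc Pool.Agent.H83.Site

theorem tconn_box {η : Config} {v : TV} (h : TConn η Set.univ (0, 0, false) v) :
    ∃ R : ℕ, TConn η (TR (-R) R (-R) R) (0, 0, false) v := by
  refine h.induction_right
    (P := fun v => ∃ R : ℕ, TConn η (TR (-R) R (-R) R) (0, 0, false) v)
    ⟨0, TConn.refl (by rw [mem_TR_site]; simp) h.open_left⟩ ?_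
  rintro a b - hab ⟨R, hR⟩
  have h1 : TConn η (TR (-(R + 1 : ℕ)) (R + 1 : ℕ) (-(R + 1 : ℕ)) (R + 1 : ℕ)) (0, 0, false) a :=
    hR.mono_set (TR_mono (by push_cast; omega) (by push_cast; omega) (by push_cast; omega)
      (by push_cast; omega))
  have ha := hR.mem_right
  rw [mem_TR] at ha
  have h2 := hab.2.2.1.fx_le (a := R + 1) (by omega)
  have h3 := hab.2.2.1.le_fx (a := -(R + 1)) (by omega)
  have h4 := hab.2.2.1.fy_le (a := R + 1) (by omega)
  have h5 := hab.2.2.1.le_fy (a := -(R + 1)) (by omega)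
  refine ⟨R + 1, h1.tail ⟨h1.mem_right, ?_, hab.2.2⟩⟩
  rw [mem_TR]
  push_cast
  omega

theorem meas_C0 (r : Bool) (v : ℤ × ℤ) : MeasurableSet {ω : Config | full r ω ∈ C0 v} := by
  have h : {ω : Config | full r ω ∈ C0 v} = ⋃ R : ℕ,
      {ω | full r ω ∈ {η | TConn η (TR (-R) R (-R) R) (0, 0, false) (sit0 v)}} := by
    ext ω
    simp only [Set.mem_ofPred_eq, Set.mem_iUnion]
    constructor
    · intro h
      exact tconn_box h
    · rintro ⟨R, hR⟩
      exact hR.mono_set (Set.subset_univ _)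
  rw [h]
  exact MeasurableSet.iUnion fun R =>
    (localOn_full r (localOn_tconn _ _ _ _ (0, 0, false) (sit0 v))).measurableSet

/-- The mean cluster size is bounded by bounds for the finite sums of the two-point function. -/
theorem sigma_le_of (p : I) (r : Bool) (G : (ℤ × ℤ → Bool) → SimpleGraph (ℤ × ℤ))
    (hG : ∀ ω u v, (G ω).Adj u v ↔ ω u = true ∧ ω v = true ∧ SA r u v) {B : ℝ}
    (hB : ∀ F : Finset (ℤ × ℤ), ∑ v ∈ F, PT p r (C0 v) ≤ B) :
    ∫⁻ ω, (({v | ω (0, 0) = true ∧ (G ω).Reachable (0, 0) v}.encard : ℕ∞) : ℝ≥0∞)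
        ∂(Measure.infinitePi (fun _ : ℤ × ℤ => bernoulliMeasure true false p)) ≤
      ENNReal.ofReal B := by
  classical
  set ν := Measure.infinitePi (fun _ : ℤ × ℤ => bernoulliMeasure true false p) with hν
  have hext : Measurable extS := by
    refine measurable_pi_lambda _ fun v => ?_
    exact measurable_pi_apply (v.1, v.2.1)
  have hres : Measurable resS := by
    refine measurable_pi_lambda _ fun v => ?_
    exact measurable_pi_apply (v.1, v.2, false)
  set T : ℤ × ℤ → Set (ℤ × ℤ → Bool) := fun v => {w | full r (extS w) ∈ C0 v} with hT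
  have hmeas : ∀ v, MeasurableSet (T v) := fun v => hext (meas_C0 r v)
  have hiff : ∀ (w : ℤ × ℤ → Bool) (v : ℤ × ℤ),
      (w (0, 0) = true ∧ (G w).Reachable (0, 0) v) ↔ w ∈ T v := by
    intro w v
    constructor
    · rintro ⟨h1, h2⟩
      exact tconn_of_reachable (hG w) h1 h2
    · intro h
      have h0 : TConn (full r (extS w)) Set.univ (0, 0, false) (v.1, v.2, false) := h
      have h1 := h0.open_left
      have h2 := h0.open_right
      rw [full_site] at h1 h2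
      exact ⟨h1, reachable_of_tconn (u := (0, 0)) (hG w) h0 v (by simp [crn]) h2⟩
  have h1 : ∀ w : ℤ × ℤ → Bool,
      (({v | w (0, 0) = true ∧ (G w).Reachable (0, 0) v}.encard : ℕ∞) : ℝ≥0∞) =
      ∑' v : ℤ × ℤ, Set.indicator (T v) (fun _ => (1 : ℝ≥0∞)) w := by
    intro w
    rw [← ENNReal.tsum_set_one,
      tsum_subtype {v | w (0, 0) = true ∧ (G w).Reachable (0, 0) v} (fun _ => (1 : ℝ≥0∞))]
    refine tsum_congr fun v => ?_
    by_cases h : w ∈ T v
    · rw [Set.indicator_of_mem (show v ∈ {v | w (0, 0) = true ∧ (G w).Reachable (0, 0) v} from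
        (hiff w v).2 h), Set.indicator_of_mem h]
    · rw [Set.indicator_of_notMem (show v ∉ {v | w (0, 0) = true ∧ (G w).Reachable (0, 0) v} from
        fun h' => h ((hiff w v).1 h')), Set.indicator_of_notMem h]
  simp_rw [h1]
  rw [lintegral_tsum fun v => (measurable_const.indicator (hmeas v)).aemeasurable]
  have h2 : ∀ v : ℤ × ℤ, ∫⁻ w, Set.indicator (T v) (fun _ => (1 : ℝ≥0∞)) w ∂ν =
      ENNReal.ofReal (PT p r (C0 v)) := by
    intro v
    rw [lintegral_indicator (hmeas v), lintegral_const, Measure.restrict_apply_univ, one_mul,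
      hν, ← map_resS, Measure.map_apply hres (hmeas v)]
    unfold PT Pr
    rw [ofReal_measureReal]
    congr 1
    ext ω
    simp only [hT, Set.mem_preimage, Set.mem_ofPred_eq, full_extS_resS]
  simp_rw [h2]
  rw [ENNReal.tsum_eq_iSup_sum]
  refine iSup_le fun F => ?_
  rw [← ENNReal.ofReal_sum_of_nonneg fun v _ => PT_nonneg]
  exact ENNReal.ofReal_le_ofReal (hB F)

/-- Upper bound for the sums of the two-point function at a good scale of the other colour. -/
theorem sum_good {p₀ : I} {r : Bool} (h : BXP p₀ r) :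
    ∃ δ > (0 : ℝ), ∃ C > (0 : ℝ), ∀ p : I, p ≤ p₀ → ∀ m : ℕ, 1 ≤ m → Good δ (σ p) (!r) m →
      ∀ F : Finset (ℤ × ℤ), ∑ v ∈ F, PT p r (C0 v) ≤ C * (m : ℝ) ^ 2 * ab p₀ r 0 m ^ 2 := by
  obtain ⟨C, hC, H⟩ := sum_upper h
  refine ⟨1 / 10 ^ 10, by positivity, 25 * C, by positivity, fun p hp m hm hg F => ?_⟩
  refine (H p hp (4 * m + 1) (by omega) (good_qc hm hg) F).trans ?_
  have h1 : ab p₀ r 0 (4 * m + 1) ≤ ab p₀ r 0 m := ab_mono le_rfl (by omega) (by omega)
  have h2 : 0 ≤ ab p₀ r 0 (4 * m + 1) := ab_nonneg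
  have h3 : (((4 * m + 1 : ℕ) : ℝ)) ≤ 5 * m := by
    have : (1 : ℝ) ≤ m := by exact_mod_cast hm
    push_cast
    linarith
  calc C * (((4 * m + 1 : ℕ) : ℝ)) ^ 2 * ab p₀ r 0 (4 * m + 1) ^ 2
      ≤ C * (5 * m) ^ 2 * ab p₀ r 0 m ^ 2 := by gcongr
    _ = _ := by ring

end Pool.Agent.H13.SK

end

section

/-!
# The mean cluster size is nondecreasing in the density
-/

set_option autoImplicit false

open MeasureTheory ProbabilityTheory unitInterval
open scoped ENNReal

namespace Pool.Agent.H13.SK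

open Pool.Agent.H89.Perc Pool.Agent.H83.Site

/-- The mean cluster size as the sum of the two-point function. -/
theorem sigma_eq_tsum (p : I) (r : Bool) (G : (ℤ × ℤ → Bool) → SimpleGraph (ℤ × ℤ))
    (hG : ∀ ω u v, (G ω).Adj u v ↔ ω u = true ∧ ω v = true ∧ SA r u v) :
    ∫⁻ ω, (({v | ω (0, 0) = true ∧ (G ω).Reachable (0, 0) v}.encard : ℕ∞) : ℝ≥0∞)
        ∂(Measure.infinitePi (fun _ : ℤ × ℤ => bernoulliMeasure true false p)) =
      ∑' v : ℤ × ℤ, ENNReal.ofReal (PT p r (C0 v)) := by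
  classical
  set ν := Measure.infinitePi (fun _ : ℤ × ℤ => bernoulliMeasure true false p) with hν
  have hext : Measurable extS := by
    refine measurable_pi_lambda _ fun v => ?_
    exact measurable_pi_apply (v.1, v.2.1)
  have hres : Measurable resS := by
    refine measurable_pi_lambda _ fun v => ?_
    exact measurable_pi_apply (v.1, v.2, false)
  set T : ℤ × ℤ → Set (ℤ × ℤ → Bool) := fun v => {w | full r (extS w) ∈ C0 v} with hT
  have hmeas : ∀ v, MeasurableSet (T v) := fun v => hext (meas_C0 r v)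
  have hiff : ∀ (w : ℤ × ℤ → Bool) (v : ℤ × ℤ),
      (w (0, 0) = true ∧ (G w).Reachable (0, 0) v) ↔ w ∈ T v := by
    intro w v
    constructor
    · rintro ⟨h1, h2⟩
      exact tconn_of_reachable (hG w) h1 h2
    · intro h
      have h0 : TConn (full r (extS w)) Set.univ (0, 0, false) (v.1, v.2, false) := h
      have h1 := h0.open_left
      have h2 := h0.open_right
      rw [full_site] at h1 h2
      exact ⟨h1, reachable_of_tconn (u := (0, 0)) (hG w) h0 v (by simp [crn]) h2⟩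
  have h1 : ∀ w : ℤ × ℤ → Bool,
      (({v | w (0, 0) = true ∧ (G w).Reachable (0, 0) v}.encard : ℕ∞) : ℝ≥0∞) =
      ∑' v : ℤ × ℤ, Set.indicator (T v) (fun _ => (1 : ℝ≥0∞)) w := by
    intro w
    rw [← ENNReal.tsum_set_one,
      tsum_subtype {v | w (0, 0) = true ∧ (G w).Reachable (0, 0) v} (fun _ => (1 : ℝ≥0∞))]
    refine tsum_congr fun v => ?_
    by_cases h : w ∈ T v
    · rw [Set.indicator_of_mem (show v ∈ {v | w (0, 0) = true ∧ (G w).Reachable (0, 0) v} from
        (hiff w v).2 h), Set.indicator_of_mem h]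
    · rw [Set.indicator_of_notMem (show v ∉ {v | w (0, 0) = true ∧ (G w).Reachable (0, 0) v} from
        fun h' => h ((hiff w v).1 h')), Set.indicator_of_notMem h]
  simp_rw [h1]
  rw [lintegral_tsum fun v => (measurable_const.indicator (hmeas v)).aemeasurable]
  refine tsum_congr fun v => ?_
  rw [lintegral_indicator (hmeas v), lintegral_const, Measure.restrict_apply_univ, one_mul,
    hν, ← map_resS, Measure.map_apply hres (hmeas v)]
  unfold PT Pr
  rw [ofReal_measureReal]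
  congr 1
  ext ω
  simp only [hT, Set.mem_preimage, Set.mem_ofPred_eq, full_extS_resS]

/-- The two-point function is nondecreasing in the density. -/
theorem PT_C0_mono {p q : I} (h : p ≤ q) (r : Bool) (v : ℤ × ℤ) :
    PT p r (C0 v) ≤ PT q r (C0 v) := by
  have hU : {ω : Config | full r ω ∈ C0 v} = ⋃ R : ℕ,
      {ω | full r ω ∈ {η | TConn η (TR (-R) R (-R) R) (0, 0, false) (sit0 v)}} := by
    ext ω
    simp only [Set.mem_ofPred_eq, Set.mem_iUnion]
    constructor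
    · intro h
      exact tconn_box h
    · rintro ⟨R, hR⟩
      exact hR.mono_set (Set.subset_univ _)
  have hmono : Monotone fun R : ℕ =>
      {ω : Config | full r ω ∈ {η | TConn η (TR (-R) R (-R) R) (0, 0, false) (sit0 v)}} := by
    intro R R' hRR ω hω
    simp only [Set.mem_ofPred_eq] at hω ⊢
    exact hω.mono_set (TR_mono (by omega) (by omega) (by omega) (by omega))
  have hle : μ p {ω : Config | full r ω ∈ C0 v} ≤ μ q {ω : Config | full r ω ∈ C0 v} := by
    rw [hU, hmono.measure_iUnion, hmono.measure_iUnion]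
    refine iSup_mono fun R => ?_
    have h1 := PT_mono_param (r := r) (localOn_tconn (-R) R (-R) R (0, 0, false) (sit0 v))
      (fun η η' hη hc => TConn.mono subset_rfl (fun x _ hx => hη x hx) hc) h
    unfold PT Pr at h1
    rw [measureReal_def, measureReal_def, ENNReal.toReal_le_toReal (measure_ne_top _ _)
      (measure_ne_top _ _)] at h1
    exact h1
  unfold PT Pr
  rw [measureReal_def, measureReal_def]
  exact ENNReal.toReal_mono (measure_ne_top _ _) hle

/-- The mean cluster size is nondecreasing in the density. -/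
theorem sigma_mono {p q : I} (h : p ≤ q) (r : Bool) (G : (ℤ × ℤ → Bool) → SimpleGraph (ℤ × ℤ))
    (hG : ∀ ω u v, (G ω).Adj u v ↔ ω u = true ∧ ω v = true ∧ SA r u v) :
    ∫⁻ ω, (({v | ω (0, 0) = true ∧ (G ω).Reachable (0, 0) v}.encard : ℕ∞) : ℝ≥0∞)
        ∂(Measure.infinitePi (fun _ : ℤ × ℤ => bernoulliMeasure true false p)) ≤
      ∫⁻ ω, (({v | ω (0, 0) = true ∧ (G ω).Reachable (0, 0) v}.encard : ℕ∞) : ℝ≥0∞)
        ∂(Measure.infinitePi (fun _ : ℤ × ℤ => bernoulliMeasure true false q)) := by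
  rw [sigma_eq_tsum p r G hG, sigma_eq_tsum q r G hG]
  exact ENNReal.tsum_le_tsum fun v => ENNReal.ofReal_le_ofReal (PT_C0_mono h r v)

/-- The probability that one site is open. -/
theorem Pr_open (q : I) (e : Edge) : Pr q {ω : Config | ω e = true} = q := by
  have hloc : LocalOn {e} {ω : Config | ω e = true} := by
    intro ω ω' h hω
    rw [Set.mem_ofPred_eq, ← h e (Finset.mem_singleton_self e)]
    exact hω
  rw [Pr_eq_update hloc e]
  have h1 : {ω : Config | Function.update ω e true ∈ {ω : Config | ω e = true}} = Set.univ := by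
    ext ω; simp
  have h2 : {ω : Config | Function.update ω e false ∈ {ω : Config | ω e = true}} = ∅ := by
    ext ω; simp
  rw [h1, h2, Pr_univ]
  simp [Pr]

theorem PT_C0_zero (p : I) (r : Bool) : PT p r (C0 (0, 0)) = p := by
  have h : {ω : Config | full r ω ∈ C0 (0, 0)} = {ω : Config | ω (0, 0, false) = true} := by
    ext ω
    simp only [Set.mem_ofPred_eq, C0, sit0]
    constructor
    · intro h
      have := h.open_left
      rwa [full_site] at this
    · intro h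
      refine TConn.refl (Set.mem_univ _) ?_
      rw [full_site]
      exact h
  unfold PT
  rw [h]
  exact Pr_open p _

/-- The mean cluster size is at least the density. -/
theorem le_sigma (p : I) (r : Bool) (G : (ℤ × ℤ → Bool) → SimpleGraph (ℤ × ℤ))
    (hG : ∀ ω u v, (G ω).Adj u v ↔ ω u = true ∧ ω v = true ∧ SA r u v) :
    ENNReal.ofReal p ≤
    ∫⁻ ω, (({v | ω (0, 0) = true ∧ (G ω).Reachable (0, 0) v}.encard : ℕ∞) : ℝ≥0∞)
        ∂(Measure.infinitePi (fun _ : ℤ × ℤ => bernoulliMeasure true false p)) := by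
  rw [sigma_eq_tsum p r G hG]
  refine le_trans ?_ (ENNReal.le_tsum (0, 0))
  rw [PT_C0_zero]

end Pool.Agent.H13.SK

end

section

/-!
# The box-crossing regime of site percolation and the characteristic length
-/

set_option autoImplicit false

open MeasureTheory ProbabilityTheory unitInterval Filter Topology

namespace Pool.Agent.H13.SK

open Pool.Agent.H89.Perc Pool.Agent.H83.Site

/-- Box-crossing regime for both colours: rectangles of aspect ratio `K` and height at most `n` are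
crossed by open paths and by closed paths of the matching lattice with probability at least
`c`. -/
def RegT (K : ℕ) (c : ℝ) (n : ℕ) (q : I) : Prop :=
  ∀ m : ℕ, 1 ≤ m → m ≤ n → c ≤ PT q false {η | HC η 0 (K * m) 0 m} ∧
    c ≤ PT (σ q) true {η | HC η 0 (K * m) 0 m}

theorem RegT.anti {K : ℕ} {c : ℝ} {n n' : ℕ} {q : I} (h : RegT K c n q) (hn : n' ≤ n) :
    RegT K c n' q := fun m hm hmn => h m hm (hmn.trans hn)

theorem RegT.mono_c {K : ℕ} {c c' : ℝ} {n : ℕ} {q : I} (h : RegT K c n q) (hc : c' ≤ c) :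
    RegT K c' n q := fun m hm hmn => ⟨hc.trans (h m hm hmn).1, hc.trans (h m hm hmn).2⟩

theorem RegT.mono_K {K K' : ℕ} {c : ℝ} {n : ℕ} {q : I} (h : RegT K c n q) (hK : K' ≤ K) :
    RegT K' c n q := by
  intro m hm hmn
  have h1 : ∀ (p : I) (r : Bool), PT p r {η | HC η 0 (K * m) 0 m} ≤
      PT p r {η | HC η 0 (K' * m) 0 m} := by
    intro p r
    refine PT_mono fun η hη => ?_
    refine HC.mono hη le_rfl (by positivity) ?_ le_rfl le_rfl
    exact_mod_cast Nat.mul_le_mul_right m hK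
  exact ⟨(h m hm hmn).1.trans (h1 _ _), (h m hm hmn).2.trans (h1 _ _)⟩

theorem sigma_anti {p q : I} (h : p ≤ q) : σ q ≤ σ p := by
  have h' : (p : ℝ) ≤ q := h
  change (1 - (q : ℝ)) ≤ 1 - (p : ℝ)
  linarith

/-- At a bad scale the square is crossed by the other colour. -/
theorem bad_dual {δ : ℝ} {p : I} {r : Bool} {m : ℕ} (h : ¬ Good δ p r m) :
    δ ≤ PT (σ p) (!r) {η | HC η 0 (4 * m) 0 (4 * m)} := by
  unfold Good at h
  have h1 := crit_dual p r (a := 0) (b := 4 * (m : ℤ)) (c := 0) (d := 4 * (m : ℤ)) (by omega)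
    (by omega)
  push Not at h
  rw [h1] at h
  linarith

/-- Below the first good scale of the colour `r` long rectangles are crossed by the other
colour. -/
theorem cross_of_bad : ∀ δ > (0 : ℝ), ∀ K K' : ℕ, ∃ c > (0 : ℝ), ∀ (p q : I) (r : Bool) (n : ℕ),
    2 ≤ n → (∀ m : ℕ, 1 ≤ m → m < n → ¬ Good δ p r m) → q ≤ p →
      ∀ m : ℕ, 1 ≤ m → m ≤ K' * n → c ≤ PT (σ q) (!r) {η | HC η 0 (K * m) 0 m} := by
  intro δ hδ K K'
  obtain ⟨c, hc, H⟩ := bdd_local' hδ K (2 * K')
  refine ⟨c, hc, fun p q r n hn hb hqp m hm hmn => ?_⟩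
  have h1 := H (σ p) (!r) (n - 1) (by omega) (fun k hk hkn => bad_dual (hb k hk (by omega))) m hm (by
    obtain ⟨k, rfl⟩ : ∃ k, n = k + 2 := ⟨n - 2, by omega⟩
    have : k + 2 - 1 = k + 1 := by omega
    rw [this]
    nlinarith)
  exact h1.trans (PT_mono_param (localOn_HC _ _ _ _) (incr_HC _ _ _ _) (sigma_anti hqp))

/-- The regime above the critical density. -/
theorem reg_plus : ∀ δ > (0 : ℝ), ∀ K K' : ℕ, ∃ c > (0 : ℝ), ∀ (p : I) (n : ℕ), 2 ≤ n →
    (∀ m : ℕ, 1 ≤ m → m < n → ¬ Good δ p false m) →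
      ∀ q : I, pc ≤ q → q ≤ p → RegT K c (K' * n) q := by
  intro δ hδ K K'
  obtain ⟨c, hc, H⟩ := cross_of_bad δ hδ K K'
  obtain ⟨c', hc', H'⟩ := bxp_pc.1 K
  refine ⟨min c c', lt_min hc hc', fun p n hn hb q hq hqp m hm hmn => ⟨?_, ?_⟩⟩
  · exact (min_le_right _ _).trans ((H' m hm).trans
      (PT_mono_param (localOn_HC _ _ _ _) (incr_HC _ _ _ _) hq))
  · exact (min_le_left _ _).trans (H p q false n hn hb hqp m hm hmn)

/-- The regime below the critical density. -/
theorem reg_minus : ∀ δ > (0 : ℝ), ∀ K K' : ℕ, ∃ c > (0 : ℝ), ∀ (p : I) (n : ℕ), 2 ≤ n →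
    (∀ m : ℕ, 1 ≤ m → m < n → ¬ Good δ (σ p) true m) →
      ∀ q : I, p ≤ q → q ≤ pc → RegT K c (K' * n) q := by
  intro δ hδ K K'
  obtain ⟨c, hc, H⟩ := cross_of_bad δ hδ K K'
  obtain ⟨c', hc', H'⟩ := bxp_pc.2 K
  refine ⟨min c c', lt_min hc hc', fun p n hn hb q hpq hq m hm hmn => ⟨?_, ?_⟩⟩
  · have h1 := H (σ p) (σ q) true n hn hb (sigma_anti hpq) m hm hmn
    rw [σσ] at h1
    exact (min_le_left _ _).trans h1
  · exact (min_le_right _ _).trans ((H' m hm).trans
      (PT_mono_param (localOn_HC _ _ _ _) (incr_HC _ _ _ _) (sigma_anti hq)))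

/-- No scale is good at the critical density. -/
theorem exists_bad_pc : ∃ δ > (0 : ℝ), ∀ m : ℕ, 1 ≤ m →
    ¬ Good δ pc false m ∧ ¬ Good δ (σ pc) true m := by
  obtain ⟨c, hc, H⟩ := bxp_pc.1 1
  obtain ⟨c', hc', H'⟩ := bxp_pc.2 1
  refine ⟨min c c' / 2, by positivity, fun m hm => ?_⟩
  have h1 := H (4 * m) (by omega)
  have h2 := H' (4 * m) (by omega)
  have e : ((1 : ℕ) : ℤ) * ((4 * m : ℕ) : ℤ) = 4 * m := by push_cast; ring
  have e' : ((4 * m : ℕ) : ℤ) = 4 * m := by push_cast; ring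
  rw [e, e'] at h1 h2
  have h3 := crit_dual pc false (a := 0) (b := 4 * (m : ℤ)) (c := 0) (d := 4 * (m : ℤ)) (by omega)
    (by omega)
  have h4 : 0 < min c c' := lt_min hc hc'
  have h5 := min_le_left c c'
  have h6 := min_le_right c c'
  constructor
  · intro hg
    unfold Good at hg
    simp only [Bool.not_false] at h3
    linarith
  · intro hg
    unfold Good at hg
    simp only [Bool.not_false] at h3
    linarith

/-- Continuity: small scales stay bad near a density where they are bad. -/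
theorem bad_near {δ : ℝ} {p₀ : I} {r : Bool} (hbad : ∀ m : ℕ, 1 ≤ m → ¬ Good δ p₀ r m) (m₀ : ℕ) :
    ∀ᶠ p : I in 𝓝 p₀, ∀ m : ℕ, 1 ≤ m → m < m₀ → ¬ Good δ p r m := by
  induction m₀ with
  | zero => exact Eventually.of_forall fun p m _ hm => absurd hm (by omega)
  | succ k ih =>
    by_cases hk : 1 ≤ k
    · have h1 : PT p₀ r {η | HC η 0 (4 * k) 0 (4 * k)} < 1 - δ := by
        have := hbad k hk
        unfold Good at this
        linarith
      have h2 := (PT_continuous (localOn_HC 0 (4 * (k : ℤ)) 0 (4 * (k : ℤ))) r).continuousAt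
        (x := p₀)
      have h3 := h2.eventually_lt_const h1
      filter_upwards [ih, h3] with p hp1 hp2 m hm hmk
      rcases Nat.lt_succ_iff_lt_or_eq.1 hmk with h | h
      · exact hp1 m hm h
      · subst h
        unfold Good
        linarith
    · filter_upwards [ih] with p hp m hm hmk
      exact hp m hm (by omega)

/-- The characteristic length of the colour `r`. -/
noncomputable def Len (δ : ℝ) (p : I) (r : Bool) : ℕ := sInf {m : ℕ | 1 ≤ m ∧ Good δ p r m}

theorem Len_spec {δ : ℝ} {p : I} {r : Bool} (h : ∃ m : ℕ, 1 ≤ m ∧ Good δ p r m) :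
    1 ≤ Len δ p r ∧ Good δ p r (Len δ p r) := Nat.sInf_mem h

theorem not_good_of_lt {δ : ℝ} {p : I} {r : Bool} {m : ℕ} (hm : 1 ≤ m) (h : m < Len δ p r) :
    ¬ Good δ p r m := fun hg => Nat.notMem_of_lt_sInf h ⟨hm, hg⟩

theorem le_Len {δ : ℝ} {p : I} {r : Bool} {m₀ : ℕ} (h : ∃ m : ℕ, 1 ≤ m ∧ Good δ p r m)
    (hb : ∀ m : ℕ, 1 ≤ m → m < m₀ → ¬ Good δ p r m) : m₀ ≤ Len δ p r := by
  by_contra hlt
  push Not at hlt
  exact hb _ (Len_spec h).1 hlt (Len_spec h).2

end Pool.Agent.H13.SK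

end

section

/-!
# The characteristic lengths on the two sides of the critical density

`NC a4 Wp Reg` collects the results of near-critical percolation on the torus which are used:
`a4` is the four-arm probability, `Wp` the winding probability and `Reg` the box-crossing regime.
-/

set_option autoImplicit false

open MeasureTheory ProbabilityTheory unitInterval Filter Topology

namespace Pool.Agent.H13.SK

open Pool.Agent.H89.Perc Pool.Agent.H83.Site

/-- Interface. -/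
structure NC (a4 : I → ℕ → ℝ) (Wp : I → ℕ → ℝ) (Reg : ℝ → ℕ → I → Prop) : Prop where
  dict : ∀ c > (0 : ℝ), ∃ c' > (0 : ℝ), ∀ (n : ℕ) (q : I), RegT 8 c n q → Reg c' n q
  up : ∀ c > (0 : ℝ), ∃ C > (0 : ℝ), ∀ (N : ℕ) (q₀ q₁ q : I), 64 ≤ N → q₀ ≤ q → q ≤ q₁ →
    (∀ q' : I, q₀ ≤ q' → q' ≤ q₁ → Reg c N q') →
      ((q₁ : ℝ) - q₀) * ((N : ℝ) ^ 2 * a4 q (N / 64)) ≤ C
  lo : ∀ c > (0 : ℝ), ∃ C > (0 : ℝ), ∀ (N r : ℕ) (q₀ q₁ q : I), 64 ≤ N → 1 ≤ r →
    2 * r + 2 ≤ N → q₀ ≤ q → q ≤ q₁ → (∀ q' : I, q₀ ≤ q' → q' ≤ q₁ → Reg c N q') →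
      Wp q₁ N - Wp q₀ N ≤ C * (((q₁ : ℝ) - q₀) * ((N : ℝ) ^ 2 * a4 q r))
  low : ∀ c > (0 : ℝ), ∃ C > (0 : ℝ), ∃ δ₀ > (0 : ℝ), δ₀ ≤ 1 ∧ ∀ (m n : ℕ) (q : I), 1 ≤ m →
    m ≤ n → Reg c (64 * n) q → a4 q m ≤ C * ((n : ℝ) / m) ^ (2 - δ₀) * a4 q n
  high : ∀ c > (0 : ℝ), ∃ C > (0 : ℝ), ∃ δ₀ > (0 : ℝ), δ₀ ≤ 1 ∧ ∀ (m n : ℕ) (q : I), 1 ≤ m →
    m ≤ n → Reg c (64 * n) q → a4 q n ≤ C * ((m : ℝ) / n) ^ (1 + δ₀) * a4 q m
  nonneg : ∀ (q : I) (r : ℕ), 0 ≤ a4 q r
  anti : ∀ (q : I) (r r' : ℕ), 1 ≤ r → r ≤ r' → a4 q r' ≤ a4 q r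
  pos : 0 < a4 pc 1
  gap : ∃ δ > (0 : ℝ), ∃ c > (0 : ℝ),
    (∀ p : I, pc ≤ p → ∀ m : ℕ, 1 ≤ m → Good δ p false m →
      c ≤ Wp p (14 * m) - Wp pc (14 * m)) ∧
    (∀ p : I, p ≤ pc → ∀ m : ℕ, 1 ≤ m → Good δ (σ p) true m →
      c ≤ Wp pc (14 * m) - Wp p (14 * m))

variable {a4 : I → ℕ → ℝ} {Wp : I → ℕ → ℝ} {Reg : ℝ → ℕ → I → Prop}

/-- The critical density is in the regime at all scales. -/
theorem NC.reg_pc (H : NC a4 Wp Reg) : ∃ c > (0 : ℝ), ∀ n : ℕ, Reg c n pc := by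
  obtain ⟨c, hc, h1⟩ := bxp_pc.1 8
  obtain ⟨c', hc', h2⟩ := bxp_pc.2 8
  obtain ⟨c'', hc'', h3⟩ := H.dict (min c c') (lt_min hc hc')
  exact ⟨c'', hc'', fun n => h3 n pc fun m hm _ =>
    ⟨(min_le_left _ _).trans (h1 m hm), (min_le_right _ _).trans (h2 m hm)⟩⟩

/-- Growth of `n ^ 2 a4(n)` at the critical density. -/
theorem NC.growth1 (H : NC a4 Wp Reg) :
    ∃ c₀ > (0 : ℝ), ∃ δ₀ > (0 : ℝ), δ₀ ≤ 1 ∧ Grow c₀ δ₀ 1 (a4 pc) := by
  obtain ⟨c, hc, hreg⟩ := H.reg_pc
  obtain ⟨C, hC, δ₀, hδ₀, hδ₁, hg⟩ := H.low c hc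
  refine ⟨1 / C, by positivity, δ₀, hδ₀, hδ₁, fun m n hm hmn => ?_⟩
  have hm0 : (0 : ℝ) < m := by exact_mod_cast (by omega : 0 < m)
  have hn0 : (0 : ℝ) < n := by exact_mod_cast (by omega : 0 < n)
  have h1 := hg m n pc hm (by omega) (hreg _)
  have h2 : ((m : ℝ) / n) ^ (2 - δ₀) * ((n : ℝ) / m) ^ (2 - δ₀) = 1 := by
    rw [← Real.mul_rpow (by positivity) (by positivity)]
    have : (m : ℝ) / n * (n / m) = 1 := by field_simp
    rw [this, Real.one_rpow]
  have h3 : 0 ≤ 1 / C * ((m : ℝ) / n) ^ (2 - δ₀) := by positivity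
  calc 1 / C * ((m : ℝ) / n) ^ (2 - δ₀) * a4 pc m
      ≤ 1 / C * ((m : ℝ) / n) ^ (2 - δ₀) * (C * ((n : ℝ) / m) ^ (2 - δ₀) * a4 pc n) :=
        mul_le_mul_of_nonneg_left h1 h3
    _ = (1 / C * C) * (((m : ℝ) / n) ^ (2 - δ₀) * ((n : ℝ) / m) ^ (2 - δ₀)) * a4 pc n := by ring
    _ = a4 pc n := by rw [h2, one_div_mul_cancel hC.ne', one_mul, one_mul]

/-- Growth of `n ^ 2 a4(n)` at the critical density. -/
theorem NC.growth (H : NC a4 Wp Reg) : ∃ c₀ > (0 : ℝ), ∃ δ₀ > (0 : ℝ), Grow c₀ δ₀ 64 (a4 pc) := by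
  obtain ⟨c₀, hc₀, δ₀, hδ₀, -, hG⟩ := H.growth1
  exact ⟨c₀, hc₀, δ₀, hδ₀, fun m n hm hmn => hG m n hm (by omega)⟩

/-- `n ^ 2 a4(n)` is unbounded. -/
theorem NC.unbounded (H : NC a4 Wp Reg) (B : ℝ) :
    ∃ n : ℕ, 1 ≤ n ∧ B < (n : ℝ) ^ 2 * a4 pc n := by
  obtain ⟨c₀, hc₀, δ₀, hδ₀, hG⟩ := H.growth
  have h6 : Tendsto (fun r : ℕ => (r : ℝ) ^ δ₀) atTop atTop :=
    (tendsto_rpow_atTop hδ₀).comp tendsto_natCast_atTop_atTop
  obtain ⟨r, hr1, hr2⟩ := ((h6.eventually_gt_atTop (B / (c₀ * a4 pc 1))).and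
    (eventually_ge_atTop 64)).exists
  have hp := H.pos
  refine ⟨r, by omega, ?_⟩
  have h1 := grow_sq hG (m := 1) (n := r) le_rfl (by omega) (by omega)
  rw [div_lt_iff₀ (by positivity)] at hr1
  refine lt_of_lt_of_le hr1 (le_trans (le_of_eq ?_) h1)
  push_cast
  rw [div_one]
  ring

/-- Above the critical density there are good scales. -/
theorem NC.exists_good_plus (H : NC a4 Wp Reg) {δ : ℝ} (hδ : 0 < δ) {p : I} (hp : pc < p) :
    ∃ m : ℕ, 1 ≤ m ∧ Good δ p false m := by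
  by_contra hno
  push Not at hno
  obtain ⟨c, hc, hr⟩ := reg_plus δ hδ 8 64
  obtain ⟨c', hc', hd⟩ := H.dict c hc
  obtain ⟨C, hC, hC'⟩ := H.up c' hc'
  have hx : 0 < (p : ℝ) - pc := sub_pos.2 hp
  obtain ⟨n, hn, hB⟩ := H.unbounded (C / ((p : ℝ) - pc))
  have h1 := hC' (64 * n) pc p pc (by omega) le_rfl hp.le fun q h2 h3 =>
    hd _ q ((hr p (n + 2) (by omega) (fun m hm _ => hno m hm) q h2 h3).anti (by omega))
  rw [Nat.mul_div_cancel_left n (by norm_num)] at h1
  rw [div_lt_iff₀ hx] at hB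
  have h2 : 0 ≤ (n : ℝ) ^ 2 * a4 pc n := mul_nonneg (by positivity) (H.nonneg _ _)
  push_cast at h1
  nlinarith

/-- Below the critical density the closed colour has good scales. -/
theorem NC.exists_good_minus (H : NC a4 Wp Reg) {δ : ℝ} (hδ : 0 < δ) {p : I} (hp : p < pc) :
    ∃ m : ℕ, 1 ≤ m ∧ Good δ (σ p) true m := by
  by_contra hno
  push Not at hno
  obtain ⟨c, hc, hr⟩ := reg_minus δ hδ 8 64
  obtain ⟨c', hc', hd⟩ := H.dict c hc
  obtain ⟨C, hC, hC'⟩ := H.up c' hc'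
  have hx : 0 < (pc : ℝ) - p := sub_pos.2 hp
  obtain ⟨n, hn, hB⟩ := H.unbounded (C / ((pc : ℝ) - p))
  have h1 := hC' (64 * n) p pc pc (by omega) hp.le le_rfl fun q h2 h3 =>
    hd _ q ((hr p (n + 2) (by omega) (fun m hm _ => hno m hm) q h2 h3).anti (by omega))
  rw [Nat.mul_div_cancel_left n (by norm_num)] at h1
  rw [div_lt_iff₀ hx] at hB
  have h2 : 0 ≤ (n : ℝ) ^ 2 * a4 pc n := mul_nonneg (by positivity) (H.nonneg _ _)
  push_cast at h1
  nlinarith

/-- The scale relation above the critical density. -/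
theorem NC.scale_plus (H : NC a4 Wp Reg) : ∃ δ₁ > (0 : ℝ), ∀ δ : ℝ, 0 < δ → δ ≤ δ₁ →
    ∃ c > (0 : ℝ), ∃ C > (0 : ℝ), ∀ p : I, pc < p → 5 ≤ Len δ p false →
      c ≤ ((p : ℝ) - pc) * ((Len δ p false : ℝ) ^ 2 * a4 pc (Len δ p false)) ∧
      ((p : ℝ) - pc) * ((Len δ p false : ℝ) ^ 2 * a4 pc (Len δ p false)) ≤ C := by
  obtain ⟨δ₁, hδ₁, cg, hcg, hgap, -⟩ := H.gap
  refine ⟨δ₁, hδ₁, fun δ hδ hδ' => ?_⟩
  obtain ⟨c, hc, hr⟩ := reg_plus δ hδ 8 64
  obtain ⟨c', hc', hd⟩ := H.dict c hc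
  obtain ⟨C, hC, hup⟩ := H.up c' hc'
  obtain ⟨C', hC', hlo⟩ := H.lo c' hc'
  refine ⟨cg / (196 * C'), by positivity, C, hC, fun p hp hL => ?_⟩
  have hex := H.exists_good_plus hδ hp
  have hsp := Len_spec hex
  obtain ⟨L, hLe⟩ : ∃ L : ℕ, L = Len δ p false := ⟨_, rfl⟩
  have hbad : ∀ m : ℕ, 1 ≤ m → m < L → ¬ Good δ p false m := fun m hm h =>
    not_good_of_lt hm (by rw [← hLe]; exact h)
  rw [← hLe] at hL hsp ⊢
  have hx : 0 < (p : ℝ) - pc := sub_pos.2 hp
  have hreg : ∀ q : I, pc ≤ q → q ≤ p → RegT 8 c (64 * L) q := hr p L (by omega) hbad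
  constructor
  · have h1 := hlo (14 * L) (6 * L) pc p pc (by omega) (by omega) (by omega) le_rfl hp.le
      fun q h2 h3 => hd _ q ((hreg q h2 h3).anti (by omega))
    have h2 := hgap p hp.le L hsp.1 (hsp.2.mono hδ')
    have h3 := H.anti pc L (6 * L) hsp.1 (by omega)
    rw [div_le_iff₀ (by positivity)]
    calc cg ≤ C' * (((p : ℝ) - pc) * ((14 * L : ℕ) ^ 2 * a4 pc (6 * L))) := h2.trans h1
      _ ≤ C' * (((p : ℝ) - pc) * ((14 * L : ℕ) ^ 2 * a4 pc L)) := by gcongr
      _ = _ := by push_cast; ring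
  · have h1 := hup (64 * L) pc p pc (by omega) le_rfl hp.le fun q h2 h3 => hd _ q (hreg q h2 h3)
    rw [Nat.mul_div_cancel_left L (by norm_num)] at h1
    have h2 : 0 ≤ (L : ℝ) ^ 2 * a4 pc L := mul_nonneg (by positivity) (H.nonneg _ _)
    push_cast at h1
    nlinarith [mul_nonneg hx.le h2]

/-- The scale relation below the critical density. -/
theorem NC.scale_minus (H : NC a4 Wp Reg) : ∃ δ₁ > (0 : ℝ), ∀ δ : ℝ, 0 < δ → δ ≤ δ₁ →
    ∃ c > (0 : ℝ), ∃ C > (0 : ℝ), ∀ p : I, p < pc → 5 ≤ Len δ (σ p) true →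
      c ≤ ((pc : ℝ) - p) * ((Len δ (σ p) true : ℝ) ^ 2 * a4 pc (Len δ (σ p) true)) ∧
      ((pc : ℝ) - p) * ((Len δ (σ p) true : ℝ) ^ 2 * a4 pc (Len δ (σ p) true)) ≤ C := by
  obtain ⟨δ₁, hδ₁, cg, hcg, -, hgap⟩ := H.gap
  refine ⟨δ₁, hδ₁, fun δ hδ hδ' => ?_⟩
  obtain ⟨c, hc, hr⟩ := reg_minus δ hδ 8 64
  obtain ⟨c', hc', hd⟩ := H.dict c hc
  obtain ⟨C, hC, hup⟩ := H.up c' hc'
  obtain ⟨C', hC', hlo⟩ := H.lo c' hc'
  refine ⟨cg / (196 * C'), by positivity, C, hC, fun p hp hL => ?_⟩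
  have hex := H.exists_good_minus hδ hp
  have hsp := Len_spec hex
  obtain ⟨L, hLe⟩ : ∃ L : ℕ, L = Len δ (σ p) true := ⟨_, rfl⟩
  have hbad : ∀ m : ℕ, 1 ≤ m → m < L → ¬ Good δ (σ p) true m := fun m hm h =>
    not_good_of_lt hm (by rw [← hLe]; exact h)
  rw [← hLe] at hL hsp ⊢
  have hx : 0 < (pc : ℝ) - p := sub_pos.2 hp
  have hreg : ∀ q : I, p ≤ q → q ≤ pc → RegT 8 c (64 * L) q := hr p L (by omega) hbad
  constructor
  · have h1 := hlo (14 * L) (6 * L) p pc pc (by omega) (by omega) (by omega) hp.le le_rfl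
      fun q h2 h3 => hd _ q ((hreg q h2 h3).anti (by omega))
    have h2 := hgap p hp.le L hsp.1 (hsp.2.mono hδ')
    have h3 := H.anti pc L (6 * L) hsp.1 (by omega)
    rw [div_le_iff₀ (by positivity)]
    calc cg ≤ C' * (((pc : ℝ) - p) * ((14 * L : ℕ) ^ 2 * a4 pc (6 * L))) := h2.trans h1
      _ ≤ C' * (((pc : ℝ) - p) * ((14 * L : ℕ) ^ 2 * a4 pc L)) := by gcongr
      _ = _ := by push_cast; ring
  · have h1 := hup (64 * L) p pc pc (by omega) hp.le le_rfl fun q h2 h3 => hd _ q (hreg q h2 h3)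
    rw [Nat.mul_div_cancel_left L (by norm_num)] at h1
    have h2 : 0 ≤ (L : ℝ) ^ 2 * a4 pc L := mul_nonneg (by positivity) (H.nonneg _ _)
    push_cast at h1
    nlinarith [mul_nonneg hx.le h2]

end Pool.Agent.H13.SK

end

section

/-!
# The connection of the neighbours of a site
-/

set_option autoImplicit false

open MeasureTheory ProbabilityTheory unitInterval Filter Topology

namespace Pool.Agent.H92.SN

open Pool.Agent.H89.Perc
open Pool.Agent.H61.NC (modE PrR' hasDerivAt_PrR_eq)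
open Pool.Agent.H83.SK (sv sit)

theorem Dn_mono {S T : Set Vert} (h : S ⊆ T) (v : Vert) (i : ℕ) : Dn S v i ⊆ Dn T v i := by
  rintro ω ⟨j, hj, hc⟩
  exact ⟨j, hj, hc.mono_set h⟩

theorem Dn_congr {S : Set Vert} {v : Vert} {i : ℕ} {ω ω' : Config}
    (h : ∀ e, src e ∈ S → tgt e ∈ S → ω e = ω' e) (hω : ω ∈ Dn S v i) : ω' ∈ Dn S v i := by
  obtain ⟨j, hj, hc⟩ := hω
  exact ⟨j, hj, hc.congr fun e h1 h2 => closeV_congr (h e h1 h2)⟩

theorem localOn_Dn_ball (v : Vert) (r i : ℕ) :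
    LocalOn (eRect (v.1 - r) (v.1 + r) (v.2 - r) (v.2 + r)) (Dn (ball v r) v i) := by
  intro ω ω' h hω
  exact Dn_congr (fun e h1 _ => h e (mem_eRect.2 h1)) hω

theorem localOn_sitDn (v : Vert) (r i : ℕ) :
    LocalOn (sBall v r) {w | sit w ∈ Dn (ball v r) v i} := by
  intro w w' h hw
  exact Dn_congr (fun e h1 h2 => sit_congr_ball h h1 h2) hw

theorem nb_shift (v z : Vert) (i : ℕ) : nb (v.1 + z.1, v.2 + z.2) i =
    ((nb v i).1 + z.1, (nb v i).2 + z.2) := by
  rcases i with _ | _ | _ | i <;> simp only [nb] <;> ext <;> (simp only; try ring)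

private theorem tau_shift (v : Vert) (r i : ℕ) :
    {ω : Config | (fun f => ω (shiftE v f)) ∈ Dn (ball 0 r) 0 i} = Dn (ball v r) v i := by
  have hb : {w : Vert | (w.1 - v.1, w.2 - v.2) ∈ ball (0 : Vert) r} = ball v r := by
    ext w
    simp only [Set.mem_ofPred_eq, mem_ball, Prod.fst_zero, Prod.snd_zero]
    omega
  have hv : ((0 : Vert).1 + v.1, (0 : Vert).2 + v.2) = v := by simp
  have hn : ∀ j, ((nb (0 : Vert) j).1 + v.1, (nb (0 : Vert) j).2 + v.2) = nb v j := by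
    intro j
    rw [← nb_shift, hv]
  ext ω
  simp only [Dn, Set.mem_ofPred_eq]
  constructor
  · rintro ⟨j, hj, hc⟩
    rw [closeV_shift, conn_shift, hb, hv, hn, hn] at hc
    exact ⟨j, hj, hc⟩
  · rintro ⟨j, hj, hc⟩
    refine ⟨j, hj, ?_⟩
    rw [closeV_shift, conn_shift, hb, hv, hn, hn]
    exact hc

/-- The finite volume version of the summands of `tau`. -/
noncomputable def tl (i m : ℕ) (q : I) : ℝ := Pool.Agent.H83.SK.Pr q (Dn (ball 0 m) 0 i)

theorem Pr_Dn_ball (q : I) (v : Vert) (m i : ℕ) :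
    Pool.Agent.H83.SK.Pr q (Dn (ball v m) v i) = tl i m q := by
  rw [← tau_shift v m i, Pool.Agent.H83.SK.Pr_comp (localOn_Dn_ball 0 m i)
    (Pool.Agent.H83.SK.isAut_shift v), tl]

theorem conn_ball_of_univ {ω : Config} {u v : Vert} (z : Vert) (h : Conn ω Set.univ u v) :
    ∃ m : ℕ, Conn ω (ball z m) u v := by
  refine h.induction_right (P := fun w => ∃ m : ℕ, Conn ω (ball z m) u w) ?_ ?_
  · refine ⟨(u.1 - z.1).natAbs + (u.2 - z.2).natAbs, Conn.refl ?_⟩
    rw [mem_ball]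
    omega
  · rintro a b _ hs ⟨m, hm⟩
    have hb : ball z m ⊆ ball z (m + 1) := by
      intro w hw
      rw [mem_ball] at hw ⊢
      omega
    have ha := hm.mem_right
    have h1 := hs.fst_le
    have h2 := hs.symm.fst_le
    have h3 := hs.snd_le
    obtain ⟨-, -, f, hf, ho⟩ := hs
    refine ⟨m + 1, (hm.mono_set hb).tail ⟨hb ha, ?_, f, hf, ho⟩⟩
    rw [mem_ball] at ha ⊢
    omega

theorem ball_mono (v : Vert) {r r' : ℕ} (h : r ≤ r') : ball v r ⊆ ball v r' := by
  intro w hw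
  rw [mem_ball] at hw ⊢
  omega

theorem Dn_univ_eq (v : Vert) (i : ℕ) : Dn Set.univ v i = ⋃ m : ℕ, Dn (ball v m) v i := by
  ext ω
  rw [Set.mem_iUnion]
  constructor
  · rintro ⟨j, hj, hc⟩
    obtain ⟨m, hm⟩ := conn_ball_of_univ v hc
    exact ⟨m, j, hj, hm⟩
  · rintro ⟨m, hm⟩
    exact Dn_mono (Set.subset_univ _) v i hm

theorem Dn_univ_tendsto (q : I) (v : Vert) (i : ℕ) :
    Tendsto (fun m => tl i m q) atTop (𝓝 (Pool.Agent.H83.SK.Pr q (Dn Set.univ v i))) := by
  have hm : Monotone (fun m : ℕ => {w : Config | sit w ∈ Dn (ball v m) v i}) := by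
    intro a b hab w hw
    exact Dn_mono (ball_mono v hab) v i hw
  have h := tendsto_measure_iUnion_atTop (μ := μ q) hm
  have he : (⋃ m : ℕ, {w : Config | sit w ∈ Dn (ball v m) v i}) =
      {w | sit w ∈ Dn Set.univ v i} := by
    rw [Dn_univ_eq]
    ext w
    simp only [Set.mem_iUnion, Set.mem_ofPred_eq]
  rw [he] at h
  have h2 := (ENNReal.tendsto_toReal (measure_ne_top (μ q) {w | sit w ∈ Dn Set.univ v i})).comp h
  refine h2.congr fun m => ?_
  rw [← Pr_Dn_ball q v m i]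
  rfl

theorem Pr_Dn_univ (q : I) (v : Vert) (i : ℕ) : Pool.Agent.H83.SK.Pr q (Dn Set.univ v i) =
    Pool.Agent.H83.SK.Pr q (Dn Set.univ 0 i) :=
  tendsto_nhds_unique (Dn_univ_tendsto q v i) (Dn_univ_tendsto q 0 i)

theorem tl_le (i m : ℕ) (q : I) : tl i m q ≤ Pool.Agent.H83.SK.Pr q (Dn Set.univ 0 i) :=
  Pool.Agent.H83.SK.Pr_mono (Dn_mono (Set.subset_univ _) _ _)

theorem tau_nonneg (q : I) : 0 ≤ tau q :=
  Finset.sum_nonneg fun _ _ => Pool.Agent.H83.SK.Pr_nonneg

theorem tau_le_three (q : I) : tau q ≤ 3 := by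
  have : tau q ≤ ∑ i ∈ Finset.Icc 1 3, (1 : ℝ) :=
    Finset.sum_le_sum fun _ _ => Pool.Agent.H83.SK.Pr_le_one
  simpa using this

/-- A connection between two vertices of a ball which is not realised inside the ball. -/
lemma reach_sphere {ω : Config} {z : Vert} {r : ℕ} {u v : Vert} (h : Conn ω Set.univ u v)
    (hu : u ∈ ball z r) (hn : ¬ Conn ω (ball z r) u v) :
    ∃ x ∈ sphere z r, Conn ω (ball z r) u x := by
  obtain ⟨w, w', h1, h2, h3, -⟩ := h.exists_exit (T := {w | Conn ω (ball z r) u w})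
    (Conn.refl hu) hn
  have h4 : Conn ω (ball z r) u w := h1.mem_right.2
  have h5 : w' ∉ ball z r := by
    intro h6
    apply h3
    obtain ⟨-, -, g, g1, g2⟩ := h2
    exact h4.tail ⟨h4.mem_right, h6, g, g1, g2⟩
  have h6 : Conn ω Set.univ u w' := (h1.mono_set (Set.subset_univ _)).tail h2
  obtain ⟨x, hx, hc⟩ := h6.to_sphere hu (Or.inl h5)
  exact ⟨x, hx, hc.mono_set Set.inter_subset_right⟩

theorem Dn_sub (v : Vert) {r : ℕ} (hr : 1 ≤ r) (i : ℕ) :
    Dn Set.univ v i ⊆ Dn (ball v r) v i ∪ A4 v r := by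
  rintro ω ⟨j, hj, hc⟩
  by_cases h0 : Conn (closeV v ω) (ball v r) (nb v j) (nb v i)
  · exact Or.inl ⟨j, hj, h0⟩
  · exact Or.inr ⟨nb v j, nb v i, nb_Nb v j, nb_Nb v i,
      reach_sphere hc ((nb_Nb v j).mem_ball hr) h0,
      reach_sphere hc.symm ((nb_Nb v i).mem_ball hr) fun h => h0 h.symm, h0⟩

/-- Comparison with the finite volume. -/
theorem tl_near (q : I) {r : ℕ} (hr : 1 ≤ r) (i : ℕ) :
    Pool.Agent.H83.SK.Pr q (Dn Set.univ 0 i) ≤ tl i r q + a4 q r := by
  rw [← Pr_A4 q 0 r]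
  exact (Pool.Agent.H83.SK.Pr_mono (Dn_sub 0 hr i)).trans Pool.Agent.H83.SK.Pr_union_le

theorem tl_continuous (i m : ℕ) : Continuous (tl i m) := by
  have hloc := localOn_sitDn 0 m i
  have h1 : tl i m = fun q : I => PrR (sBall 0 m) {w | sit w ∈ Dn (ball 0 m) 0 i} (q : ℝ) := by
    funext q
    rw [← Pr_eq_PrR hloc]
    rfl
  rw [h1]
  rw [continuous_iff_continuousAt]
  intro q
  exact (hasDerivAt_PrR_eq hloc q).continuousAt.comp continuous_subtype_val.continuousAt

/-- Continuity of `tau` from the uniform decay of the four-arm probability. -/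
theorem tau_continuous (hU : ∀ ε : ℝ, 0 < ε → ∃ r : ℕ, 1 ≤ r ∧ ∀ q : I, a4 q r ≤ ε) :
    Continuous tau := by
  refine continuous_finsetSum _ fun i _ => ?_
  refine continuous_of_uniform_approx_of_continuous (fun u hu => ?_)
  obtain ⟨ε, hε, hεu⟩ := Metric.mem_uniformity_dist.1 hu
  obtain ⟨r, hr, h⟩ := hU (ε / 2) (half_pos hε)
  refine ⟨tl i r, tl_continuous i r, fun q => hεu ?_⟩
  have h1 := tl_near q hr i
  have h2 := tl_le i r q
  have h3 := h q
  rw [Real.dist_eq, abs_lt]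
  constructor <;> linarith

end Pool.Agent.H92.SN

end

section

/-!
# The number of open clusters
-/

set_option autoImplicit false

open MeasureTheory ProbabilityTheory unitInterval

namespace Pool.Agent.H92.SN

open Pool.Agent.H89.Perc
open Pool.Agent.H83.SK (sv sit)

/-- The open clusters of the site configuration `w` in the set `S`. -/
def oClus (w : Config) (S : Set Vert) : Set (Set Vert) :=
  {C | ∃ v ∈ S, w (sv v) = true ∧ C = {u | Conn (sit w) S v u}}

/-- The number of open clusters of the site configuration `w` in the set `S`. -/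
noncomputable def KO (w : Config) (S : Set Vert) : ℕ := (oClus w S).ncard

private theorem kc_left {w : Config} {S : Set Vert} {a b : Vert} (h : Conn (sit w) S a b)
    (hab : a ≠ b) : w (sv a) = true := by
  obtain ⟨x, x', h4, h5, -, -⟩ := h.exists_exit (T := {a}) rfl (by simpa using Ne.symm hab)
  have hx : x = a := h4.mem_right.2
  subst hx
  obtain ⟨-, -, e, he, ho⟩ := h5
  rw [Pool.Agent.H83.SK.sit_true] at ho
  rcases he with ⟨h7, -⟩ | ⟨h7, -⟩
  · rw [h7]; exact ho.1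
  · rw [h7]; exact ho.2

private theorem kc_right {w : Config} {S : Set Vert} {a b : Vert} (h : Conn (sit w) S a b)
    (hab : a ≠ b) : w (sv b) = true := kc_left h.symm (Ne.symm hab)

private theorem kc_nb_ne (v : Vert) {i j : ℕ} (hi : i < 4) (hj : j < i) : nb v j ≠ nb v i := by
  obtain ⟨x, y⟩ := v
  have hcases : (j = 0 ∧ i = 1) ∨ (j = 0 ∧ i = 2) ∨ (j = 1 ∧ i = 2) ∨ (j = 0 ∧ i = 3) ∨
      (j = 1 ∧ i = 3) ∨ (j = 2 ∧ i = 3) := by omega
  rcases hcases with ⟨rfl, rfl⟩ | ⟨rfl, rfl⟩ | ⟨rfl, rfl⟩ | ⟨rfl, rfl⟩ | ⟨rfl, rfl⟩ | ⟨rfl, rfl⟩ <;>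
    simp only [nb, ne_eq, Prod.mk.injEq] <;> omega

private theorem kc_nb_ne_v (v : Vert) (i : ℕ) : nb v i ≠ v := (nb_Nb v i).ne

private theorem kc_joins {e : Edge} {a b : Vert} (h : Joins e a b) {v : Vert} (ha : a ≠ v)
    (hb : b ≠ v) : src e ≠ v ∧ tgt e ≠ v := by
  rcases h with ⟨h5, h6⟩ | ⟨h5, h6⟩
  · subst h5 h6; exact ⟨ha, hb⟩
  · subst h5 h6; exact ⟨hb, ha⟩

open Classical in
private theorem kc_card {α : Type*} (P : ℕ → Prop) (f : ℕ → α) (n : ℕ) :
    ((((Finset.range n).filter P).image f).card : ℤ) =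
      ∑ i ∈ Finset.range n, if P i ∧ ¬ ∃ j < i, P j ∧ f j = f i then (1 : ℤ) else 0 := by
  induction n with
  | zero => simp
  | succ n ih =>
    rw [Finset.sum_range_succ, ← ih, Finset.range_add_one, Finset.filter_insert]
    by_cases hP : P n
    · rw [if_pos hP, Finset.image_insert]
      by_cases hE : ∃ j < n, P j ∧ f j = f n
      · rw [if_neg (fun h => h.2 hE), Finset.insert_eq_of_mem]
        · simp
        · obtain ⟨j, hj, hPj, hf⟩ := hE
          exact Finset.mem_image.2 ⟨j, by simp [hj, hPj], hf⟩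
      · rw [if_pos ⟨hP, hE⟩, Finset.card_insert_of_notMem]
        · push_cast
          ring
        · intro hmem
          obtain ⟨j, hj, hf⟩ := Finset.mem_image.1 hmem
          rw [Finset.mem_filter, Finset.mem_range] at hj
          exact hE ⟨j, hj.1, hj.2, hf⟩
    · rw [if_neg hP, if_neg (fun h => hP h.1)]
      simp

open Classical in
/-- The change of the number of open clusters when the site `v` is opened. -/
theorem KO_update {S : Set Vert} (hS : S.Finite) {v : Vert} (hv : v ∈ S) (w : Config) :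
    (KO (Function.update w (sv v) true) S : ℤ) - KO (Function.update w (sv v) false) S =
      1 - (∑ i ∈ Finset.range 4, if nb v i ∈ S ∧ w (sv (nb v i)) = true then (1 : ℤ) else 0) +
        ∑ i ∈ Finset.Icc 1 3, if sit w ∈ Dn S v i then (1 : ℤ) else 0 := by
  have hs0 : sit (Function.update w (sv v) false) = closeV v (sit w) := sit_shut v w
  set w1 := Function.update w (sv v) true with hw1
  set w0 := Function.update w (sv v) false with hw0
  have hv1 : w1 (sv v) = true := by rw [hw1]; simp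
  have hv0 : w0 (sv v) = false := by rw [hw0]; simp
  have hu1 : ∀ u, u ≠ v → w1 (sv u) = w (sv u) := fun u hu => by
    rw [hw1, Function.update_of_ne (sv_ne hu)]
  have hu0 : ∀ u, u ≠ v → w0 (sv u) = w (sv u) := fun u hu => by
    rw [hw0, Function.update_of_ne (sv_ne hu)]
  have hle : ∀ e, w0 e = true → w1 e = true := by
    intro e he
    by_cases h : e = sv v
    · subst h; exact hv1
    · rw [hw0, Function.update_of_ne h] at he
      rw [hw1, Function.update_of_ne h]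
      exact he
  have hmono : ∀ {a b : Vert}, Conn (sit w0) S a b → Conn (sit w1) S a b := fun h =>
    h.mono subset_rfl (Pool.Agent.H83.SK.sit_mono hle)
  have hedge : ∀ e : Edge, src e ≠ v → tgt e ≠ v → sit w1 e = sit w0 e := by
    intro e h1 h2
    simp only [sit]
    rw [hu1 _ h1, hu1 _ h2, hu0 _ h1, hu0 _ h2]
  -- `v` is isolated in `w0`
  have hiso : ∀ {a : Vert}, Conn (sit w0) S a v → a = v := by
    intro a h
    by_contra hne
    have := kc_right h hne
    rw [hv0] at this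
    exact Bool.false_ne_true this
  -- the connection to `v` in `w1`
  have hnbv : ∀ i, nb v i ∈ S → w (sv (nb v i)) = true → Conn (sit w1) S (nb v i) v := by
    intro i hi ho
    obtain ⟨e, he⟩ := nb_Nb v i
    have h3 : w1 (sv (nb v i)) = true := by rw [hu1 _ (kc_nb_ne_v v i)]; exact ho
    refine (Step.conn ⟨hv, hi, e, he, ?_⟩ : Conn (sit w1) S v (nb v i)).symm
    rw [Pool.Agent.H83.SK.sit_true]
    rcases he with ⟨h1, h2⟩ | ⟨h1, h2⟩
    · rw [← h1, ← h2]; exact ⟨hv1, h3⟩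
    · rw [← h1, ← h2]; exact ⟨h3, hv1⟩
  have hto : ∀ u, u ≠ v → Conn (sit w1) S u v →
      ∃ i, i < 4 ∧ nb v i ∈ S ∧ w (sv (nb v i)) = true ∧ Conn (sit w0) S u (nb v i) := by
    intro u hu h
    obtain ⟨x, y, h1, h2, h3, -⟩ := h.exists_hit (T := {v}) hu rfl
    have hy : y = v := h3
    subst hy
    have hxS : x ∈ S ∧ x ≠ y := h1.mem_right
    have hopen : w (sv x) = true := by
      rw [← hu1 x hxS.2]
      exact kc_left h2.conn hxS.2
    have hnb : Nb y x := by
      obtain ⟨-, -, e, he, -⟩ := h2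
      exact ⟨e, by rcases he with he | he; exacts [Or.inr ⟨he.2, he.1⟩, Or.inl ⟨he.2, he.1⟩]⟩
    obtain ⟨i, hi, rfl⟩ := hnb.exists_nb
    refine ⟨i, hi, hxS.1, hopen, ?_⟩
    have h4 : Conn (sit w0) (S \ {y}) u (nb y i) :=
      h1.congr fun e he1 he2 => hedge e he1.2 he2.2
    exact h4.mono_set Set.sdiff_subset
  have hfar : ∀ u x, ¬ Conn (sit w1) S u v → Conn (sit w1) S u x → Conn (sit w0) S u x := by
    intro u x hn h
    have h' : Conn (sit w1) S u x ∧ Conn (sit w0) S u x := by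
      refine h.induction_right (P := fun z => Conn (sit w1) S u z ∧ Conn (sit w0) S u z)
        ⟨Conn.refl h.mem_left, Conn.refl h.mem_left⟩ ?_
      rintro a b _ hab ⟨h1, h2⟩
      have hb : Conn (sit w1) S u b := h1.tail hab
      refine ⟨hb, h2.tail ?_⟩
      have ha' : a ≠ v := fun h => hn (h ▸ h1)
      have hb' : b ≠ v := fun h => hn (h ▸ hb)
      obtain ⟨h3, h4, e, he, ho⟩ := hab
      obtain ⟨h5, h6⟩ := kc_joins he ha' hb'
      exact ⟨h3, h4, e, he, by rw [← hedge e h5 h6]; exact ho⟩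
    exact h'.2
  -- clusters
  set cl : Vert → Set Vert := fun u => {x | Conn (sit w0) S u x} with hcl
  have hcl_eq : ∀ {a b : Vert}, Conn (sit w0) S a b → cl a = cl b := by
    intro a b h
    ext x
    exact ⟨fun h' => h.symm.trans h', fun h' => h.trans h'⟩
  have hcl_conn : ∀ {a b : Vert}, b ∈ S → cl a = cl b → Conn (sit w0) S a b := by
    intro a b hb h
    have : b ∈ cl b := Conn.refl hb
    rw [← h] at this
    exact this
  obtain ⟨P, hP⟩ : ∃ P : ℕ → Prop, ∀ i, P i ↔ (nb v i ∈ S ∧ w (sv (nb v i)) = true) :=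
    ⟨fun i => nb v i ∈ S ∧ w (sv (nb v i)) = true, fun _ => Iff.rfl⟩
  set M : Finset (Set Vert) := ((Finset.range 4).filter P).image (fun i => cl (nb v i)) with hM
  set A : Set (Set Vert) := {C | ∃ u ∈ S, u ≠ v ∧ w (sv u) = true ∧ ¬ Conn (sit w1) S u v ∧
    C = cl u} with hA
  have hAfin : A.Finite := by
    refine (hS.image cl).subset ?_
    rintro C ⟨u, hu, -, -, -, rfl⟩
    exact ⟨u, hu, rfl⟩
  have h0 : oClus w0 S = A ∪ (M : Set (Set Vert)) := by
    ext C
    constructor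
    · rintro ⟨u, hu, ho, rfl⟩
      have huv : u ≠ v := by
        rintro rfl
        rw [hv0] at ho
        exact Bool.false_ne_true ho
      rw [hu0 u huv] at ho
      by_cases hc : Conn (sit w1) S u v
      · right
        obtain ⟨i, hi, h1, h2, h3⟩ := hto u huv hc
        rw [hM, Finset.mem_coe, Finset.mem_image]
        refine ⟨i, ?_, (hcl_eq h3).symm⟩
        rw [Finset.mem_filter, Finset.mem_range]
        exact ⟨hi, (hP i).2 ⟨h1, h2⟩⟩
      · left
        exact ⟨u, hu, huv, ho, hc, rfl⟩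
    · rintro (⟨u, hu, huv, ho, -, rfl⟩ | hC)
      · exact ⟨u, hu, by rw [hu0 u huv]; exact ho, rfl⟩
      · rw [hM, Finset.mem_coe, Finset.mem_image] at hC
        obtain ⟨i, hi, rfl⟩ := hC
        rw [Finset.mem_filter, hP] at hi
        exact ⟨nb v i, hi.2.1, by rw [hu0 _ (kc_nb_ne_v v i)]; exact hi.2.2, rfl⟩
  have hdisj : Disjoint A (M : Set (Set Vert)) := by
    rw [Set.disjoint_left]
    rintro C ⟨u, hu, huv, ho, hn, rfl⟩ hC
    rw [hM, Finset.mem_coe, Finset.mem_image] at hC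
    obtain ⟨i, hi, h1⟩ := hC
    rw [Finset.mem_filter, hP] at hi
    exact hn ((hmono (hcl_conn hi.2.1 h1.symm)).trans (hnbv i hi.2.1 hi.2.2))
  have h1 : oClus w1 S = insert {x | Conn (sit w1) S v x} A := by
    ext C
    rw [Set.mem_insert_iff]
    constructor
    · rintro ⟨u, hu, ho, rfl⟩
      by_cases hc : Conn (sit w1) S u v
      · left
        ext x
        exact ⟨fun h => hc.symm.trans h, fun h => hc.trans h⟩
      · right
        have huv : u ≠ v := fun h => hc (h ▸ Conn.refl hu)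
        rw [hu1 u huv] at ho
        refine ⟨u, hu, huv, ho, hc, ?_⟩
        ext x
        exact ⟨fun h => hfar u x hc h, fun h => hmono h⟩
    · rintro (rfl | ⟨u, hu, huv, ho, hc, rfl⟩)
      · exact ⟨v, hv, hv1, rfl⟩
      · refine ⟨u, hu, by rw [hu1 u huv]; exact ho, ?_⟩
        ext x
        exact ⟨fun h => hmono h, fun h => hfar u x hc h⟩
  have hnot : {x | Conn (sit w1) S v x} ∉ A := by
    rintro ⟨u, hu, huv, ho, hc, h⟩
    have : v ∈ {x | Conn (sit w1) S v x} := Conn.refl hv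
    rw [h] at this
    exact huv (hiso this)
  have hK1 : KO w1 S = A.ncard + 1 := by
    unfold KO
    rw [h1, Set.ncard_insert_of_notMem hnot hAfin]
  have hK0 : KO w0 S = A.ncard + M.card := by
    unfold KO
    rw [h0, Set.ncard_union_eq hdisj hAfin M.finite_toSet, Set.ncard_coe_finset]
  have hMc : (M.card : ℤ) = ∑ i ∈ Finset.range 4,
      if P i ∧ ¬ ∃ j < i, P j ∧ cl (nb v j) = cl (nb v i) then (1 : ℤ) else 0 := by
    have hc := kc_card P (fun i => cl (nb v i)) 4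
    rw [hM]
    exact hc
  have hkey : ∀ i ∈ Finset.range 4,
      (if P i ∧ ¬ ∃ j < i, P j ∧ cl (nb v j) = cl (nb v i) then (1 : ℤ) else 0) =
      (if P i then (1 : ℤ) else 0) - if sit w ∈ Dn S v i then (1 : ℤ) else 0 := by
    intro i hi
    have hi4 : i < 4 := Finset.mem_range.1 hi
    by_cases hD : sit w ∈ Dn S v i
    · obtain ⟨j, hj, hc⟩ := hD
      rw [← hs0] at hc
      have hne := kc_nb_ne v hi4 hj
      have hPj : P j := (hP j).2 ⟨hc.mem_left, by
        rw [← hu0 _ (kc_nb_ne_v v j)]; exact kc_left hc hne⟩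
      have hPi : P i := (hP i).2 ⟨hc.mem_right, by
        rw [← hu0 _ (kc_nb_ne_v v i)]; exact kc_right hc hne⟩
      rw [if_neg (fun h => h.2 ⟨j, hj, hPj, hcl_eq hc⟩), if_pos hPi,
        if_pos (show sit w ∈ Dn S v i from ⟨j, hj, by rw [← hs0]; exact hc⟩)]
      ring
    · rw [if_neg hD, sub_zero]
      by_cases hPi : P i
      · rw [if_pos hPi, if_pos]
        refine ⟨hPi, ?_⟩
        rintro ⟨j, hj, hPj, h⟩
        exact hD ⟨j, hj, by rw [← hs0]; exact hcl_conn ((hP i).1 hPi).1 h⟩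
      · rw [if_neg hPi, if_neg (fun h => hPi h.1)]
  have hD0 : ¬ sit w ∈ Dn S v 0 := by
    rintro ⟨j, hj, -⟩
    omega
  have hIcc : ∑ i ∈ Finset.Icc 1 3, (if sit w ∈ Dn S v i then (1 : ℤ) else 0) =
      ∑ i ∈ Finset.range 4, if sit w ∈ Dn S v i then (1 : ℤ) else 0 := by
    have : Finset.Icc 1 3 = ({1, 2, 3} : Finset ℕ) := by decide
    rw [this]
    simp only [Finset.sum_range_succ, Finset.sum_range_zero, if_neg hD0]
    rw [Finset.sum_insert (by decide), Finset.sum_insert (by decide), Finset.sum_singleton]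
    ring
  have hP4 : ∑ i ∈ Finset.range 4, (if P i then (1 : ℤ) else 0) =
      ∑ i ∈ Finset.range 4, if nb v i ∈ S ∧ w (sv (nb v i)) = true then (1 : ℤ) else 0 := by
    refine Finset.sum_congr rfl fun i _ => ?_
    by_cases h : P i
    · rw [if_pos h, if_pos ((hP i).1 h)]
    · rw [if_neg h, if_neg fun h' => h ((hP i).2 h')]
  rw [Finset.sum_congr rfl hkey, Finset.sum_sub_distrib, hP4] at hMc
  rw [hK1, hK0, hIcc]
  push_cast
  rw [hMc]
  ring

end Pool.Agent.H92.SN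

end

section

/-!
# Exploration of the clusters of the cutting lines of the torus, block by block (sites)
-/

open MeasureTheory ProbabilityTheory unitInterval

namespace Pool.Agent.H13.SK

open Pool.Agent.H89.Perc Pool.Agent.H85.Kes
open Pool.Agent.H83.SK (sit sv sit_true)
open Pool.Agent.H92.SN (tSites WindS)
open Pool.Agent.H83.SK.WG (mem_tSites localOn_windS incr_windS)

section state

variable {κ : Type*} [DecidableEq κ]

/-- State of a block exploration. -/
def bState (s : Finset Edge) (β : Edge → κ) (R : BRule κ) (ω : Config) (n : ℕ) :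
    Finset κ × Finset Edge := (bStep s β R ω)^[n] (∅, ∅)

variable {s : Finset Edge} {β : Edge → κ} {R : BRule κ}

theorem bState_succ (ω : Config) (n : ℕ) :
    bState s β R ω (n + 1) = bStep s β R ω (bState s β R ω n) := by
  simp only [bState, Function.iterate_succ_apply']

theorem revealed_eq (ω : Config) (n : ℕ) : revealed s β R ω n = (bState s β R ω n).1 := rfl

theorem mem_bState (ω : Config) (n : ℕ) (e : Edge) :
    e ∈ (bState s β R ω n).2 ↔ e ∈ s ∧ β e ∈ (bState s β R ω n).1 ∧ ω e = true := by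
  induction n with
  | zero => simp [bState]
  | succ n ih =>
    rw [bState_succ]
    rcases h : R (bState s β R ω n).1 (bState s β R ω n).2 with _ | b
    · rw [bStep_none h]; exact ih
    · rw [bStep_some h]
      simp only [Finset.mem_union, Finset.mem_filter, mem_blk, Finset.mem_insert, ih]
      tauto

theorem bState_stop {K : Finset κ} (hR : ∀ D O b, R D O = some b → b ∈ K ∧ b ∉ D) (ω : Config)
    (n : ℕ) : (bState s β R ω n).1 ⊆ K ∧ (R (bState s β R ω n).1 (bState s β R ω n).2 = none ∨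
      n ≤ (bState s β R ω n).1.card) := by
  induction n with
  | zero => simp [bState]
  | succ n ih =>
    obtain ⟨h1, h2⟩ := ih
    rcases h : R (bState s β R ω n).1 (bState s β R ω n).2 with _ | b
    · rw [bState_succ, bStep_none h]
      exact ⟨h1, Or.inl h⟩
    · have hb := hR _ _ _ h
      rw [bState_succ, bStep_some h]
      refine ⟨Finset.insert_subset hb.1 h1, Or.inr ?_⟩
      rw [Finset.card_insert_of_notMem hb.2]
      rcases h2 with h2 | h2
      · rw [h] at h2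
        exact absurd h2 (by simp)
      · omega

theorem bState_final {K : Finset κ} (hR : ∀ D O b, R D O = some b → b ∈ K ∧ b ∉ D)
    (ω : Config) :
    R (bState s β R ω K.card).1 (bState s β R ω K.card).2 = none := by
  obtain ⟨h1, h2⟩ := bState_stop hR ω K.card
  rcases h2 with h2 | h2
  · exact h2
  · have h3 : (bState s β R ω K.card).1 = K := Finset.eq_of_subset_of_card_le h1 h2
    rcases h : R (bState s β R ω K.card).1 (bState s β R ω K.card).2 with _ | b
    · rfl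
    · have hb := hR _ _ _ h
      rw [h3] at hb
      exact absurd hb.1 hb.2

theorem exists_step_of_revealed (ω : Config) (n : ℕ) {b : κ} (hb : b ∈ revealed s β R ω n) :
    ∃ m, R (bState s β R ω m).1 (bState s β R ω m).2 = some b := by
  induction n with
  | zero => simp [revealed, bFrom] at hb
  | succ n ih =>
    rw [revealed_eq, bState_succ] at hb
    rcases h : R (bState s β R ω n).1 (bState s β R ω n).2 with _ | b'
    · rw [bStep_none h] at hb
      exact ih hb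
    · rw [bStep_some h] at hb
      rcases Finset.mem_insert.1 hb with rfl | hb
      · exact ⟨n, h⟩
      · exact ih hb

end state

/-! ### The clusters of the cutting lines -/

/-- The vertex lies on a cutting line. -/
def OnL (N : ℕ) (u : Vert) : Prop := (N : ℤ) ∣ u.1 ∨ (N : ℤ) ∣ u.2

/-- The vertices joined to the cutting lines. -/
def Rch (N : ℕ) (ω : Config) : Set Vert :=
  {v | ∃ u, OnL N u ∧ Conn (sit (per N ω)) Set.univ u v}

/-- The site is in a cluster of the cutting lines or next to one. -/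
def Want (N : ℕ) (ω : Config) (e : Edge) : Prop :=
  e ∈ tSites N ∧ ∃ a ∈ Rch N ω, a = src e ∨ ∃ f, Joins f a (src e)

theorem sit_joins {ω : Config} {e : Edge} {u v : Vert} (h : Joins e u v) :
    sit ω e = true ↔ ω (sv u) = true ∧ ω (sv v) = true :=
  Pool.Agent.H83.SK.Dict.sit_joins h

theorem sit_per_conn_shift {N : ℕ} {ω : Config} (a b : ℤ) {u v : Vert}
    (h : Conn (sit (per N ω)) Set.univ u v) :
    Conn (sit (per N ω)) Set.univ (u.1 + a * N, u.2 + b * N) (v.1 + a * N, v.2 + b * N) := by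
  refine h.map (fun w => (w.1 + a * N, w.2 + b * N)) (fun _ _ => Set.mem_univ _) ?_
  intro e x y hj ho
  refine ⟨shiftE (a * N, b * N) e, joins_shift (a * N, b * N) hj, ?_⟩
  rw [sit_joins hj] at ho
  rw [sit_joins (joins_shift (a * N, b * N) hj)]
  simp only [per, sv, Int.add_mul_emod_self_right] at ho ⊢
  exact ho

theorem rch_shift {N : ℕ} {ω : Config} (a b : ℤ) {v : Vert} (h : v ∈ Rch N ω) :
    ((v.1 + a * N, v.2 + b * N) : Vert) ∈ Rch N ω := by
  obtain ⟨u, hu, hc⟩ := h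
  refine ⟨_, ?_, sit_per_conn_shift a b hc⟩
  rcases hu with hu | hu
  · exact Or.inl (dvd_add hu (Dvd.intro_left a rfl))
  · exact Or.inr (dvd_add hu (Dvd.intro_left b rfl))

theorem rch_mono {N : ℕ} {ω ω' : Config} (h : ∀ e, ω e = true → ω' e = true) :
    Rch N ω ⊆ Rch N ω' := by
  rintro v ⟨u, hu, hc⟩
  exact ⟨u, hu, hc.mono le_rfl (Pool.Agent.H83.SK.sit_mono fun e he => h _ he)⟩

theorem emod_eq (N : ℕ) (x : ℤ) : x % N = x + -(x / N) * N := by
  have := Int.emod_add_ediv_mul x N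
  linarith

/-- A site which is reached, or next to a reached one, is wanted (after translation). -/
theorem want_of_near {N : ℕ} (hN : 1 ≤ N) {ω : Config} {y v : Vert} (hy : y ∈ Rch N ω)
    (h : y = v ∨ ∃ f, Joins f y v) : Want N ω (v.1 % N, v.2 % N, false) := by
  have hN0 : (0 : ℤ) < N := by exact_mod_cast hN
  refine ⟨?_, (y.1 + -(v.1 / N) * N, y.2 + -(v.2 / N) * N), rch_shift _ _ hy, ?_⟩
  · rw [mem_tSites]
    exact ⟨rfl, Int.emod_nonneg _ hN0.ne', Int.emod_lt_of_pos _ hN0,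
      Int.emod_nonneg _ hN0.ne', Int.emod_lt_of_pos _ hN0⟩
  · have hs : src ((v.1 % N, v.2 % N, false) : Edge) =
        ((v.1 + -(v.1 / N) * N, v.2 + -(v.2 / N) * N) : Vert) := by
      simp only [src, emod_eq]
    rw [hs]
    rcases h with h | ⟨f, hf⟩
    · left
      rw [h]
    · right
      exact ⟨_, joins_shift (-(v.1 / N) * N, -(v.2 / N) * N) hf⟩

/-- A path whose first coordinate increases by the period hits a cutting line. -/
theorem hit_line {N : ℕ} (hN : 1 ≤ N) {η : Config} {u v : Vert} (h : Conn η Set.univ u v)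
    (hd : u.1 + N ≤ v.1) :
    ∃ x : Vert, (N : ℤ) ∣ x.1 ∧ Conn η Set.univ u x ∧ Conn η Set.univ x v := by
  have hN0 : (0 : ℤ) < N := by exact_mod_cast hN
  have h1 := Int.emod_add_ediv_mul u.1 N
  have h2 := Int.emod_nonneg u.1 hN0.ne'
  have h3 := Int.emod_lt_of_pos u.1 hN0
  obtain ⟨w, w', h4, h5, h6, h7⟩ := h.exists_exit (T := {x : Vert | x.1 < (u.1 / N + 1) * N})
    (by simp only [Set.mem_ofPred_eq]; linarith) (by simp only [Set.mem_ofPred_eq]; linarith)
  have h8 := h4.mem_right.2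
  simp only [Set.mem_ofPred_eq, not_lt] at h6 h8
  have h9 := h5.fst_le
  refine ⟨w', ?_, (h4.mono_set Set.inter_subset_left).tail h5, h7⟩
  have : w'.1 = (u.1 / N + 1) * N := by omega
  rw [this]
  exact Dvd.intro_left _ rfl

/-- A winding path can be rotated so that it starts on a cutting line. -/
theorem wind_from_line {N : ℕ} (hN : 1 ≤ N) {ω : Config} (h : ω ∈ WindS N) :
    ∃ (x : Vert) (a b : ℤ), a ≠ 0 ∧ OnL N x ∧
      Conn (sit (per N ω)) Set.univ x (x.1 + a * N, x.2 + b * N) := by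
  obtain ⟨u, a, b, ha, hc⟩ := h
  have hN0 : (0 : ℤ) < N := by exact_mod_cast hN
  have key : ∃ x : Vert, (N : ℤ) ∣ x.1 ∧ Conn (sit (per N ω)) Set.univ u x ∧
      Conn (sit (per N ω)) Set.univ x (u.1 + a * N, u.2 + b * N) := by
    rcases lt_or_gt_of_ne ha with h1 | h1
    · obtain ⟨x, h2, h3, h4⟩ := hit_line hN hc.symm (by simp only; nlinarith)
      exact ⟨x, h2, h4.symm, h3.symm⟩
    · exact hit_line hN hc (by simp only; nlinarith)
  obtain ⟨x, h1, h2, h3⟩ := key
  exact ⟨x, a, b, ha, Or.inl h1, h3.trans (sit_per_conn_shift a b h2)⟩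

/-- If `ω₀` knows all open sites of `ω` it wants, then it knows the winding. -/
theorem wind_of_wanted {N : ℕ} (hN : 1 ≤ N) {ω ω₀ : Config}
    (hcl : ∀ e, Want N ω₀ e → ω e = true → ω₀ e = true) (h : ω ∈ WindS N) : ω₀ ∈ WindS N := by
  obtain ⟨x, a, b, ha, hx, hc⟩ := wind_from_line hN h
  refine ⟨x, a, b, ha, ?_⟩
  refine hc.induction_right (P := fun y => Conn (sit (per N ω₀)) Set.univ x y)
    (Conn.refl (Set.mem_univ _)) ?_
  rintro y y' - ⟨-, -, e, he, ho⟩ ih
  have hy : y ∈ Rch N ω₀ := ⟨x, hx, ih⟩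
  rw [sit_joins he] at ho
  refine ih.tail ⟨Set.mem_univ _, Set.mem_univ _, e, he, ?_⟩
  rw [sit_joins he]
  exact ⟨hcl _ (want_of_near hN hy (Or.inl rfl)) ho.1, hcl _ (want_of_near hN hy (Or.inr ⟨e, he⟩)) ho.2⟩

/-! ### The rule -/

section rule

variable {κ : Type*} [DecidableEq κ]

/-- The exploration of the clusters of the cutting lines, block by block. -/
noncomputable def tRule (N : ℕ) (β : Edge → κ) : BRule κ := fun D O => by
  classical exact if h : ∃ e, Want N (ofS O) e ∧ β e ∉ D then some (β h.choose) else none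

variable {N : ℕ} {β : Edge → κ}

theorem tRule_some {D : Finset κ} {O : Finset Edge} {b : κ} (h : tRule N β D O = some b) :
    ∃ e, Want N (ofS O) e ∧ β e = b ∧ b ∉ D := by
  classical
  unfold tRule at h
  split_ifs at h with h'
  have h1 := h'.choose_spec
  have h2 := Option.some.inj h
  exact ⟨h'.choose, h1.1, h2, h2 ▸ h1.2⟩

theorem tRule_none {D : Finset κ} {O : Finset Edge} (h : tRule N β D O = none) {e : Edge}
    (he : Want N (ofS O) e) : β e ∈ D := by
  classical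
  by_contra hc
  unfold tRule at h
  rw [dif_pos ⟨e, he, hc⟩] at h
  exact absurd h (by simp)

theorem tRule_mem {K : Finset κ} (hK : ∀ e ∈ tSites N, β e ∈ K) (D : Finset κ) (O : Finset Edge)
    (b : κ) (h : tRule N β D O = some b) : b ∈ K ∧ b ∉ D := by
  obtain ⟨e, he, h1, h2⟩ := tRule_some h
  exact ⟨h1 ▸ hK e he.1, h2⟩

/-- The revealed blocks determine the winding. -/
theorem tRule_det (hN : 1 ≤ N) {K : Finset κ} (hK : ∀ e ∈ tSites N, β e ∈ K) (ω ω' : Config)
    (h : ∀ e ∈ tSites N, β e ∈ revealed (tSites N) β (tRule N β) ω K.card → ω e = ω' e)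
    (hω : ω ∈ WindS N) : ω' ∈ WindS N := by
  have hfin := bState_final (s := tSites N) (β := β) (tRule_mem hK) ω
  have h1 : ofS (bState (tSites N) β (tRule N β) ω K.card).2 ∈ WindS N := by
    refine wind_of_wanted hN (fun e he ho => ?_) hω
    rw [ofS_apply, decide_eq_true_iff, mem_bState]
    exact ⟨he.1, tRule_none hfin he, ho⟩
  refine incr_windS N _ _ (fun e he => ?_) h1
  rw [ofS_apply, decide_eq_true_iff, mem_bState] at he
  rw [← h e he.1 he.2.1]
  exact he.2.2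

/-- A revealed block has an open arm. -/
theorem tRule_arm {b : κ} {z : Vert} {ρ R : ℕ}
    (hblk : ∀ e ∈ blk (tSites N) β b, src e ∈ ball z ρ) (hρ : ρ + 1 ≤ R)
    (hR1 : (R : ℤ) < z.1 ∧ z.1 + R < N) (hR2 : (R : ℤ) < z.2 ∧ z.2 + R < N) (n : ℕ) :
    {ω | b ∈ revealed (tSites N) β (tRule N β) ω n} ⊆ {ω | sit ω ∈ ArmBox z (ρ + 1) R} := by
  intro ω hω
  obtain ⟨m, hm⟩ := exists_step_of_revealed ω n hω
  obtain ⟨e, ⟨he, a, ha, hae⟩, hb, -⟩ := tRule_some hm
  have hsrc := hblk e (mem_blk.2 ⟨he, hb⟩)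
  have ha' : a ∈ Rch N ω := by
    refine rch_mono (fun f hf => ?_) ha
    rw [ofS_apply, decide_eq_true_iff, mem_bState] at hf
    exact hf.2.2
  obtain ⟨u, hu, hc⟩ := ha'
  have hab : a ∈ ball z (ρ + 1) := by
    rcases hae with h1 | ⟨f, hf⟩
    · rw [h1]
      rw [mem_ball] at hsrc ⊢
      push_cast
      omega
    · have h2 : Step (fun _ => true) Set.univ a (src e) :=
        ⟨Set.mem_univ _, Set.mem_univ _, f, hf, rfl⟩
      have h3 := h2.fst_le
      have h4 := h2.snd_le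
      rw [mem_ball] at hsrc ⊢
      push_cast
      omega
  have haR : a ∈ ball z R := by
    have : ((ρ + 1 : ℕ) : ℤ) ≤ R := by exact_mod_cast hρ
    rw [mem_ball] at hab ⊢
    omega
  have huR : u ∉ ball z R := by
    intro h
    rw [mem_ball] at h
    rcases hu with ⟨k, hk⟩ | ⟨k, hk⟩
    · rcases lt_trichotomy k 0 with h1 | h1 | h1
      · have : (N : ℤ) * k ≤ 0 := by nlinarith
        omega
      · rw [h1, mul_zero] at hk
        omega
      · have : (N : ℤ) ≤ N * k := by nlinarith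
        omega
    · rcases lt_trichotomy k 0 with h1 | h1 | h1
      · have : (N : ℤ) * k ≤ 0 := by nlinarith
        omega
      · rw [h1, mul_zero] at hk
        omega
      · have : (N : ℤ) ≤ N * k := by nlinarith
        omega
  obtain ⟨y, hy, hcy⟩ := hc.symm.to_sphere haR (Or.inl huR)
  refine ⟨a, hab, y, hy, ?_⟩
  refine Conn.mono_set Set.inter_subset_right (Conn.congr (fun f h1 h2 => ?_) hcy)
  have key : ∀ v ∈ ball z R, per N ω (sv v) = ω (sv v) := by
    intro v hv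
    rw [mem_ball] at hv
    simp only [per, sv]
    rw [Int.emod_eq_of_lt (by omega) (by omega), Int.emod_eq_of_lt (by omega) (by omega)]
  simp only [sit]
  rw [key _ h1.2, key _ h2.2]

end rule

end Pool.Agent.H13.SK

end

section

/-!
# Pivotal blocks of the torus (sites): translations, two distinct crossing clusters
-/

open MeasureTheory ProbabilityTheory unitInterval

namespace Pool.Agent.H13.SK

open Pool.Agent.H89.Perc Pool.Agent.H85.Kes
open Pool.Agent.H83.SK (sit sv)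
open Pool.Agent.H92.SN (tSites WindS blkS BlockPiv)
open Pool.Agent.H83.SK.WG (mem_tSites localOn_windS incr_windS)
open Pool.Agent.H61.NC (Two Ring mid)

/-! ### Translations -/

theorem sit_shiftE (η : Config) (z : Vert) :
    sit (fun f => η (shiftE z f)) = fun f => sit η (shiftE z f) := by
  funext ⟨x, y, t⟩
  cases t
  · simp only [sit, shiftE, sv, src, tgt]
    simp only [Bool.false_eq_true, if_false]
    rw [add_right_comm]
  · simp only [sit, shiftE, sv, src, tgt]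
    simp only [if_true]
    rw [add_right_comm y 1]

theorem windS_tau (N : ℕ) (z : Vert) (ω : Config) :
    (fun f => ω (torusSym_tau N z f)) ∈ WindS N ↔ ω ∈ WindS N := by
  have h0 : sit (per N (fun f => ω (torusSym_tau N z f))) =
      fun f => sit (per N ω) (shiftE z f) := by
    rw [torusSym_per, sit_shiftE]
  unfold Pool.Agent.H92.SN.WindS
  simp only [Set.mem_ofPred_eq, h0, conn_shift]
  constructor
  · rintro ⟨u, a, b, ha, h⟩
    refine ⟨(u.1 + z.1, u.2 + z.2), a, b, ha, ?_⟩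
    rw [show u.1 + a * (N : ℤ) + z.1 = u.1 + z.1 + a * N by ring,
      show u.2 + b * (N : ℤ) + z.2 = u.2 + z.2 + b * N by ring] at h
    exact h.mono_set (Set.subset_univ _)
  · rintro ⟨u, a, b, ha, h⟩
    refine ⟨(u.1 - z.1, u.2 - z.2), a, b, ha, ?_⟩
    simp only
    rw [show u.1 - z.1 + a * (N : ℤ) + z.1 = u.1 + a * N by ring,
      show u.2 - z.2 + b * (N : ℤ) + z.2 = u.2 + b * N by ring,
      show u.1 - z.1 + z.1 = u.1 by ring, show u.2 - z.2 + z.2 = u.2 by ring]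
    refine h.mono_set fun w _ => Set.mem_univ _

theorem tSites_subset (N : ℕ) : tSites N ⊆ tEdges N := by
  intro e he
  rw [mem_tSites] at he
  rw [Pool.Agent.H31.EX.mem_tEdges]
  exact ⟨he.2.1 |> fun h => ⟨h, he.2.2.1⟩, he.2.2.2⟩

/-- All translates of a block have the same probability of being pivotal. -/
theorem Pr_bpiv_tau {N : ℕ} (hN : 1 ≤ N) (q : I) {B : Finset Edge} (hB : B ⊆ tSites N)
    (z : Vert) : Pr q (BPiv (B.image (torusSym_tau N z)) (WindS N)) = Pr q (BPiv B (WindS N)) := by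
  rw [← Pr_comp (localOn_BPiv (localOn_windS hN) B)
    ((torusSym_tau_injOn N z).mono (by exact_mod_cast tSites_subset N))]
  congr 1
  ext ω
  have key : ∀ b : Bool, setB (B.image (torusSym_tau N z)) b ω ∈ WindS N ↔
      setB B b (fun e => ω (torusSym_tau N z e)) ∈ WindS N := by
    intro b
    rw [← windS_tau N z (setB (B.image (torusSym_tau N z)) b ω)]
    have key2 : ∀ f ∈ tSites N, setB (B.image (torusSym_tau N z)) b ω (torusSym_tau N z f) =
        setB B b (fun e => ω (torusSym_tau N z e)) f := by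
      intro f hf
      have h1 : torusSym_tau N z f ∈ B.image (torusSym_tau N z) ↔ f ∈ B := by
        rw [Finset.mem_image]
        constructor
        · rintro ⟨g, hg, hgf⟩
          rwa [← torusSym_tau_injOn N z (tSites_subset N (hB hg)) (tSites_subset N hf) hgf]
        · intro h; exact ⟨f, h, rfl⟩
      unfold setB
      by_cases hfB : f ∈ B
      · rw [if_pos (h1.2 hfB), if_pos hfB]
      · rw [if_neg (fun h => hfB (h1.1 h)), if_neg hfB]
    exact ⟨fun h1 => localOn_windS hN _ _ key2 h1,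
      fun h1 => localOn_windS hN _ _ (fun f hf => (key2 f hf).symm) h1⟩
  simp only [BPiv, Set.mem_ofPred_eq, key]

/-- The block of radius `r` around `z`. -/
noncomputable def zB (z : Vert) (r : ℕ) : Finset Edge :=
  Finset.Icc (z.1 - r) (z.1 + r) ×ˢ Finset.Icc (z.2 - r) (z.2 + r) ×ˢ {false}

theorem mem_zB {z : Vert} {r : ℕ} {e : Edge} : e ∈ zB z r ↔
    e.2.2 = false ∧ (z.1 - r ≤ e.1 ∧ e.1 ≤ z.1 + r) ∧ (z.2 - r ≤ e.2.1 ∧ e.2.1 ≤ z.2 + r) := by
  simp only [zB, Finset.mem_product, Finset.mem_Icc, Finset.mem_singleton]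
  tauto

theorem zB_mid (N r : ℕ) : zB (mid N, mid N) r = blkS N r := by
  unfold zB blkS
  rfl

theorem blockPiv_eq (N r : ℕ) : BlockPiv N r = BPiv (blkS N r) (WindS N) := by
  ext ω
  simp only [Pool.Agent.H92.SN.BlockPiv, BPiv, Pool.Agent.H31.EX.fill_eq_setB]

theorem zB_subset {N r : ℕ} {z : Vert} (h1 : (r : ℤ) ≤ z.1 ∧ z.1 + r < N)
    (h2 : (r : ℤ) ≤ z.2 ∧ z.2 + r < N) : zB z r ⊆ tSites N := by
  intro e he
  rw [mem_zB] at he
  rw [mem_tSites]
  obtain ⟨h3, h4, h5⟩ := he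
  refine ⟨h3, ?_⟩
  omega

theorem blkS_subset {N r : ℕ} (hr : 1 ≤ r) (h : 4 * r ≤ N) : blkS N r ⊆ tSites N := by
  rw [← zB_mid]
  refine zB_subset ?_ ?_ <;> simp only [mid] <;> omega

/-- The block of radius `r` around `z` is pivotal with the same probability as the one in the
middle. -/
theorem Pr_bpiv_zB {N r : ℕ} (hr : 1 ≤ r) (h : 4 * r ≤ N) (q : I) {z : Vert}
    (h1 : (r : ℤ) ≤ z.1 ∧ z.1 + r < N) (h2 : (r : ℤ) ≤ z.2 ∧ z.2 + r < N) :
    Pr q (BPiv (zB z r) (WindS N)) = Pr q (BlockPiv N r) := by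
  classical
  rw [blockPiv_eq, ← Pr_bpiv_tau (by omega) q (blkS_subset hr h) (z.1 - mid N, z.2 - mid N)]
  congr 2
  ext e
  rw [← zB_mid, Finset.mem_image, mem_zB]
  constructor
  · rintro ⟨h3, h4, h5⟩
    refine ⟨(e.1 - (z.1 - mid N), e.2.1 - (z.2 - mid N), e.2.2), ?_, ?_⟩
    · rw [mem_zB]
      simp only
      exact ⟨h3, by omega, by omega⟩
    · simp only [torusSym_tau, sub_add_cancel]
      rw [Int.emod_eq_of_lt (by omega) (by omega), Int.emod_eq_of_lt (by omega) (by omega)]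
  · rintro ⟨f, hf, rfl⟩
    rw [mem_zB] at hf
    obtain ⟨h3, h4, h5⟩ := hf
    simp only at h4 h5
    simp only [torusSym_tau]
    rw [Int.emod_eq_of_lt (by omega) (by omega), Int.emod_eq_of_lt (by omega) (by omega)]
    exact ⟨h3, by omega, by omega⟩

/-! ### A pivotal block has two distinct crossing clusters around it -/

/-- A long path crosses the annulus. -/
theorem ring_cross {η : Config} {m : Vert} {t R' : ℕ} (ht : 1 ≤ t) (htR : t ≤ R') {v v' : Vert}
    (hv : v ∈ ball m t) (hv' : v' ∉ ball m R') (h : Conn η Set.univ v v') :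
    ∃ x ∈ sphere m t, (∃ w ∈ sphere m R', Conn η (Ring m t R') x w) ∧ Conn η Set.univ v x := by
  have htR'' : (t : ℤ) ≤ R' := by exact_mod_cast htR
  have ht1 : ((t - 1 : ℕ) : ℤ) = (t : ℤ) - 1 := by push_cast [Nat.cast_sub ht]; ring
  have hsub : ball m t ⊆ ball m R' := by
    intro x hx
    rw [mem_ball] at hx ⊢
    omega
  obtain ⟨w, hw, h1⟩ := h.to_sphere (r := R') (hsub hv) (Or.inl hv')
  rcases htR.eq_or_lt with heq | hlt
  · subst heq
    refine ⟨w, hw, ⟨w, hw, Conn.refl ⟨hw.1, fun h3 => ?_⟩⟩, h1.mono_set (Set.subset_univ _)⟩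
    have h4 := hw.2
    have h5 := hw.1
    rw [mem_ball] at h3 h5
    rw [ht1] at h3
    omega
  have htR' : (t : ℤ) < R' := by exact_mod_cast hlt
  have hwt : w ∉ ball m t := by
    intro hh
    rw [mem_ball] at hh
    have h2 := hw
    simp only [sphere, ball, rect, Set.mem_ofPred_eq] at h2
    omega
  obtain ⟨x, x', h2, h3, h4, h5⟩ := h1.exists_last (T := ball m t) hv hwt
  have h6 := h5.mem_left
  have e1 := h4.fst_le
  have e2 := h4.snd_le
  have hx : x ∈ sphere m t := by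
    refine ⟨h2, ?_⟩
    have h7 := h6.2
    rw [mem_ball] at h2 h7
    omega
  have hring : ∀ y ∈ sphere m t, y ∈ Ring m t R' := by
    intro y hy
    refine ⟨hsub hy.1, ?_⟩
    have h7 := hy.2
    have h8 := hy.1
    rw [mem_ball] at h8 ⊢
    rw [ht1]
    omega
  have h8 : Conn η (Ring m t R') x' w := by
    refine h5.mono_set ?_
    rintro y ⟨⟨-, hy1⟩, hy2⟩
    refine ⟨hy1, fun hy3 => hy2 ?_⟩
    rw [mem_ball] at hy3 ⊢
    rw [ht1] at hy3
    omega
  have h9 : Step η (Ring m t R') x x' := ⟨hring x hx, h8.mem_left, h4.2.2⟩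
  exact ⟨x, hx, ⟨w, hw, h9.conn.trans h8⟩, h3.mono_set (Set.subset_univ _)⟩

/-- The vertices of the copy `(a, b)` of the block and their neighbours. -/
def tB (N : ℕ) (z : Vert) (R : ℕ) (a b : ℤ) : Set Vert :=
  {v | z.1 - R - 1 + a * N ≤ v.1 ∧ v.1 ≤ z.1 + R + 1 + a * N ∧
    z.2 - R - 1 + b * N ≤ v.2 ∧ v.2 ≤ z.2 + R + 1 + b * N}

theorem tB_shift {N R : ℕ} {z : Vert} {a b a' b' : ℤ} {v : Vert} (h : v ∈ tB N z R a b) :
    ((v.1 + a' * N, v.2 + b' * N) : Vert) ∈ tB N z R (a + a') (b + b') := by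
  simp only [tB, Set.mem_ofPred_eq] at h ⊢
  have e1 : (a + a') * (N : ℤ) = a * N + a' * N := by ring
  have e2 : (b + b') * (N : ℤ) = b * N + b' * N := by ring
  rw [e1, e2]
  omega

/-- A site of the block, seen in the periodic extension. -/
theorem tB_of_mem {N R : ℕ} {z : Vert} {v : Vert}
    (h : ((v.1 % N, v.2 % N, false) : Edge) ∈ zB z R) :
    z.1 - R + v.1 / N * N ≤ v.1 ∧ v.1 ≤ z.1 + R + v.1 / N * N ∧
    z.2 - R + v.2 / N * N ≤ v.2 ∧ v.2 ≤ z.2 + R + v.2 / N * N := by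
  rw [mem_zB] at h
  have e1 : v.1 % N + v.1 / N * N = v.1 := Int.emod_add_ediv_mul v.1 N
  have e2 : v.2 % N + v.2 / N * N = v.2 := Int.emod_add_ediv_mul v.2 N
  simp only at h
  omega

/-- A step of the filled configuration is a step of the emptied one, or it is near a block. -/
theorem tB_step {N R : ℕ} {z : Vert} {ω : Config} {v v' : Vert}
    (h : Step (sit (per N (setB (zB z R) true ω))) Set.univ v v') :
    Step (sit (per N (setB (zB z R) false ω))) Set.univ v v' ∨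
      ∃ a b : ℤ, v ∈ tB N z R a b ∧ v' ∈ tB N z R a b := by
  have e1 := h.fst_le
  have e2 := h.snd_le
  obtain ⟨-, -, e, he, hω⟩ := h
  by_cases hb : ((v.1 % N, v.2 % N, false) : Edge) ∈ zB z R
  · right
    have h1 := tB_of_mem hb
    refine ⟨v.1 / N, v.2 / N, ?_, ?_⟩ <;> simp only [tB, Set.mem_ofPred_eq] <;> omega
  by_cases hb' : ((v'.1 % N, v'.2 % N, false) : Edge) ∈ zB z R
  · right
    have h1 := tB_of_mem hb'
    refine ⟨v'.1 / N, v'.2 / N, ?_, ?_⟩ <;> simp only [tB, Set.mem_ofPred_eq] <;> omega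
  · left
    refine ⟨Set.mem_univ _, Set.mem_univ _, e, he, ?_⟩
    rw [sit_joins he] at hω ⊢
    simp only [per, sv, setB, if_neg hb, if_neg hb'] at hω ⊢
    exact hω

/-- **A pivotal block has two distinct crossing clusters around it.** -/
theorem two_of_bpiv {N R t R' : ℕ} {z : Vert} (hRt : R + 1 ≤ t) (htR : t ≤ R')
    (hN : R + R' + 2 ≤ N) {ω : Config} (h : ω ∈ BPiv (zB z R) (WindS N)) :
    sit (per N ω) ∈ Two z t R' := by
  obtain ⟨⟨u, a, b, ha, hc⟩, hno⟩ := h
  have hNR : (R : ℤ) + R' + 2 ≤ N := by exact_mod_cast hN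
  have hRt' : (R : ℤ) + 1 ≤ t := by exact_mod_cast hRt
  have htR' : (t : ℤ) ≤ R' := by exact_mod_cast htR
  set η0 := sit (per N (setB (zB z R) false ω)) with hη0
  set η1 := sit (per N (setB (zB z R) true ω)) with hη1
  -- an excursion which winds
  have hexc : ∃ v ∈ tB N z R 0 0, ∃ a b : ℤ, ∃ v' ∈ tB N z R a b, a ≠ 0 ∧
      Conn η0 Set.univ v v' := by
    by_contra hnone
    push Not at hnone
    have hnone' : ∀ (a₁ b₁ a₂ b₂ : ℤ) (v v' : Vert), v ∈ tB N z R a₁ b₁ → v' ∈ tB N z R a₂ b₂ →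
        Conn η0 Set.univ v v' → a₁ = a₂ := by
      intro a₁ b₁ a₂ b₂ v v' h1 h2 h3
      have h4 := tB_shift (a' := -a₁) (b' := -b₁) h1
      have h5 := tB_shift (a' := -a₁) (b' := -b₁) h2
      have h6 := sit_per_conn_shift (-a₁) (-b₁) h3
      rw [add_neg_cancel, add_neg_cancel] at h4
      by_contra hne
      exact hnone _ h4 _ _ _ h5 (by intro h; apply hne; linarith) h6
    have key : Conn η0 Set.univ u (u.1 + a * N, u.2 + b * N) ∨ ∃ a₁ b₁ b₂ : ℤ,
        ∃ v₁ ∈ tB N z R a₁ b₁, ∃ v₂ ∈ tB N z R a₁ b₂, Conn η0 Set.univ u v₁ ∧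
          Conn η0 Set.univ v₂ (u.1 + a * N, u.2 + b * N) := by
      refine hc.induction_right (P := fun w => Conn η0 Set.univ u w ∨ ∃ a₁ b₁ b₂ : ℤ,
        ∃ v₁ ∈ tB N z R a₁ b₁, ∃ v₂ ∈ tB N z R a₁ b₂, Conn η0 Set.univ u v₁ ∧
          Conn η0 Set.univ v₂ w) (Or.inl (Conn.refl (Set.mem_univ _))) ?_
      intro w w' _ hs ih
      rcases tB_step hs with h1 | ⟨a₂, b₂, h1, h2⟩
      · rcases ih with ih | ⟨a₁, b₁, b₂, v₁, hv₁, v₂, hv₂, h2, h3⟩
        · exact Or.inl (ih.tail h1)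
        · exact Or.inr ⟨a₁, b₁, b₂, v₁, hv₁, v₂, hv₂, h2, h3.tail h1⟩
      · rcases ih with ih | ⟨a₁, b₁, b₂', v₁, hv₁, v₂, hv₂, h3, h4⟩
        · exact Or.inr ⟨a₂, b₂, b₂, w, h1, w', h2, ih, Conn.refl (Set.mem_univ _)⟩
        · have := hnone' _ _ _ _ _ _ hv₂ h1 h4
          subst this
          exact Or.inr ⟨a₁, b₁, b₂, v₁, hv₁, w', h2, h3, Conn.refl (Set.mem_univ _)⟩
    rcases key with h1 | ⟨a₁, b₁, b₂, v₁, hv₁, v₂, hv₂, h1, h2⟩
    · exact hno ⟨u, a, b, ha, h1⟩
    · have h3 := sit_per_conn_shift a b h1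
      have h4 := hnone' _ _ _ _ _ _ hv₂ (tB_shift (a' := a) (b' := b) hv₁) (h2.trans h3)
      exact ha (by linarith)
  obtain ⟨v, hv, a', b', v', hv', ha', hvv⟩ := hexc
  -- geometry
  have habs : (N : ℤ) ≤ |a'| * N := by
    have h1 : (1 : ℤ) ≤ |a'| := Int.one_le_abs ha'
    have h2 : (0 : ℤ) ≤ N := by positivity
    nlinarith
  have hball : ∀ w ∈ tB N z R 0 0, w ∈ ball z t := by
    intro w hw
    simp only [tB, zero_mul, add_zero, Set.mem_ofPred_eq] at hw
    rw [mem_ball]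
    omega
  have hfar : ∀ (c : ℤ) (b'' : ℤ), |c| = |a'| → ∀ w ∈ tB N z R c b'', w ∉ ball z R' := by
    intro c b'' hcc w hw hw'
    simp only [tB, Set.mem_ofPred_eq] at hw
    rw [mem_ball] at hw'
    have h1 : |c * (N : ℤ)| = |a'| * N := by
      rw [abs_mul, hcc, abs_of_nonneg (by positivity : (0 : ℤ) ≤ N)]
    rcases abs_cases (c * (N : ℤ)) with h2 | h2 <;> omega
  have hcongr : ∀ v : Vert, v ∈ Ring z t R' →
      per N ω (sv v) = per N (setB (zB z R) false ω) (sv v) := by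
    intro v he
    have ht1 : ((t - 1 : ℕ) : ℤ) = (t : ℤ) - 1 := by
      push_cast [Nat.cast_sub (show 1 ≤ t by omega)]; ring
    have hb : ((v.1 % N, v.2 % N, false) : Edge) ∉ zB z R := by
      intro hb
      have h3 := tB_of_mem hb
      obtain ⟨h1, h2⟩ := he
      simp only [mem_ball, ht1] at h1 h2
      have hz : ∀ k : ℤ, |k * (N : ℤ)| < N → k = 0 := by
        intro k hk
        by_contra hk0
        have h3 : (1 : ℤ) ≤ |k| := Int.one_le_abs hk0
        rw [abs_mul, abs_of_nonneg (by positivity : (0 : ℤ) ≤ N)] at hk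
        nlinarith
      have k1 : v.1 / N = 0 := hz _ (abs_lt.2 ⟨by omega, by omega⟩)
      have k2 : v.2 / N = 0 := hz _ (abs_lt.2 ⟨by omega, by omega⟩)
      rw [k1, k2] at h3
      apply h2
      omega
    simp only [per, sv, setB, if_neg hb]
  have hcon : ∀ x y : Vert, Conn (sit (per N ω)) (Ring z t R') x y →
      Conn η0 Set.univ x y := fun x y hxy =>
    (hxy.congr fun e h1 h2 => by
      rw [hη0]
      simp only [sit]
      rw [hcongr _ h1, hcongr _ h2]).mono_set (Set.subset_univ _)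
  have hcon' : ∀ x y : Vert, Conn η0 (Ring z t R') x y →
      Conn (sit (per N ω)) (Ring z t R') x y := fun x y hxy =>
    hxy.congr fun e h1 h2 => by
      rw [hη0]
      simp only [sit]
      rw [hcongr _ h1, hcongr _ h2]
  -- the second cluster is the first one translated
  have hv'' := tB_shift (a' := -a') (b' := -b') hv'
  rw [add_neg_cancel, add_neg_cancel] at hv''
  have hvm := tB_shift (a' := -a') (b' := -b') hv
  have h2 := sit_per_conn_shift (-a') (-b') hvv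
  obtain ⟨x, hx, ⟨w, hw, hxw⟩, hvx⟩ := ring_cross (by omega) htR (hball v hv)
    (hfar a' b' rfl v' hv') hvv
  obtain ⟨x', hx', ⟨w', hw', hxw'⟩, hvx'⟩ := ring_cross (by omega) htR (hball _ hv'')
    (hfar (0 + -a') (0 + -b') (by rw [zero_add, abs_neg]) _ hvm) h2.symm
  refine ⟨x, x', hx, hx', ⟨w, hw, hcon' _ _ hxw⟩, ⟨w', hw', hcon' _ _ hxw'⟩, fun hxx => ?_⟩
  have h3 := (hvx'.trans (hcon _ _ hxx).symm).trans hvx.symm
  have h4 := h3.trans hvv
  refine hno ⟨(v'.1 + -a' * N, v'.2 + -b' * N), a', b', ha', ?_⟩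
  simp only
  rw [show v'.1 + -a' * (N : ℤ) + a' * N = v'.1 by ring,
    show v'.2 + -b' * (N : ℤ) + b' * N = v'.2 by ring]
  exact h4

end Pool.Agent.H13.SK

end

section

/-!
# Opening a closed site of a periodic configuration
-/

set_option autoImplicit false

open MeasureTheory ProbabilityTheory unitInterval

namespace Pool.Agent.H92.SN

open Pool.Agent.H89.Perc
open Pool.Agent.H61.NC (modE)
open Pool.Agent.H83.SK (sv sit)
open Pool.Agent.H90.AL (IsPer)

/-- `v` is isolated in the periodic configuration `η0`; the steps of the periodic configuration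
`η1` are steps of `η0`, or start or end at a translate of `v`. -/
structure AddSite (N : ℕ) (v : Vert) (η0 η1 : Config) : Prop where
  per0 : IsPer N η0
  per1 : IsPer N η1
  iso : ∀ x, ¬ Step η0 Set.univ v x
  mono : ∀ e, η0 e = true → η1 e = true
  step : ∀ x y, Step η1 Set.univ x y → Step η0 Set.univ x y ∨
    ∃ a b : ℤ, x = (v.1 + a * N, v.2 + b * N) ∨ y = (v.1 + a * N, v.2 + b * N)

/-- All neighbours of `v` which reach the sphere are joined in the ball. -/
def NoFour (v : Vert) (r : ℕ) (η0 η1 : Config) : Prop :=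
  ∀ p q, Step η1 Set.univ v p → Step η1 Set.univ v q →
    (∃ u ∈ sphere v r, Conn η0 (ball v r) p u) → (∃ u ∈ sphere v r, Conn η0 (ball v r) q u) →
    Conn η0 (ball v r) p q

theorem step_per {N : ℕ} {η : Config} (hη : IsPer N η) (a b : ℤ) {u v : Vert}
    (h : Step η Set.univ u v) :
    Step η Set.univ (u.1 + a * N, u.2 + b * N) (v.1 + a * N, v.2 + b * N) := by
  obtain ⟨-, -, e, he, ho⟩ := h
  exact ⟨Set.mem_univ _, Set.mem_univ _, shiftE (a * N, b * N) e, joins_shift (a * N, b * N) he,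
    by rw [hη a b e]; exact ho⟩

theorem step_per' {N : ℕ} {η : Config} (hη : IsPer N η) (a b : ℤ) {u v : Vert}
    (h : Step η Set.univ (u.1 + a * N, u.2 + b * N) v) :
    Step η Set.univ u (v.1 - a * N, v.2 - b * N) := by
  have h1 := step_per hη (-a) (-b) h
  have e1 : ((u.1 + a * N + -a * N, u.2 + b * N + -b * N) : Vert) = u := by
    ext <;> (simp only; ring)
  have e2 : ((v.1 + -a * N, v.2 + -b * N) : Vert) = (v.1 - a * N, v.2 - b * N) := by
    ext <;> (simp only; ring)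
  simp only at h1
  rw [e1, e2] at h1
  exact h1

theorem conn_iso {η : Config} {x y : Vert} (h : ∀ z, ¬ Step η Set.univ x z)
    (hc : Conn η Set.univ x y) : y = x := by
  refine hc.induction_right (P := fun z => z = x) rfl ?_
  intro a b _ hab ha
  subst ha
  exact absurd hab (h b)

theorem AddSite.iso' {N : ℕ} {v : Vert} {η0 η1 : Config} (h : AddSite N v η0 η1) (a b : ℤ)
    (z : Vert) : ¬ Step η0 Set.univ (v.1 + a * N, v.2 + b * N) z := fun h1 =>
  h.iso _ (step_per' h.per0 a b h1)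

/-- Neighbours of `v`, shifted. -/
theorem AddSite.nb_out {N r : ℕ} {v : Vert} {η0 η1 : Config} (h : AddSite N v η0 η1) (hr : 1 ≤ r)
    (hN : 2 * r + 2 ≤ N) {p : Vert} (hp : Step η1 Set.univ v p) {a b a' b' : ℤ}
    (hne : (a, b) ≠ (a', b')) :
    (p.1 + a * N, p.2 + b * N) ∉ ball (v.1 + a' * N, v.2 + b' * N) r := by
  intro hm
  have h1 := (Step.nb hp).mem_ball (r := 1) le_rfl
  rw [mem_ball] at hm h1
  simp only at hm
  push_cast at h1
  apply hne
  have hN' : (2 * r + 2 : ℤ) ≤ N := by exact_mod_cast hN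
  have key : ∀ c c' x y : ℤ, y - 1 ≤ x → x ≤ y + 1 → y + c' * N - r ≤ x + c * N →
      x + c * N ≤ y + c' * N + r → c = c' := by
    intro c c' x y h1 h2 h3 h4
    by_contra h0
    rcases lt_or_gt_of_ne h0 with h5 | h5
    · have h6 : (c + 1) * N ≤ c' * N := mul_le_mul_of_nonneg_right (by omega) (by omega)
      rw [add_mul, one_mul] at h6
      omega
    · have h6 : (c' + 1) * N ≤ c * N := mul_le_mul_of_nonneg_right (by omega) (by omega)
      rw [add_mul, one_mul] at h6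
      omega
  rw [Prod.mk.injEq]
  exact ⟨key a a' p.1 v.1 h1.1 h1.2.1 hm.1 hm.2.1,
    key b b' p.2 v.2 h1.2.2.1 h1.2.2.2 hm.2.2.1 hm.2.2.2⟩

/-- A neighbour of `v` which is joined to the outside of the ball reaches the sphere. -/
theorem reach_of_conn {N r : ℕ} {v : Vert} {η0 : Config} (hper : IsPer N η0)
    {p : Vert} (hp : p ∈ ball v r) (a b : ℤ) {Y : Vert}
    (hY : Y ∉ ball (v.1 + a * N, v.2 + b * N) r)
    (hc : Conn η0 Set.univ (p.1 + a * N, p.2 + b * N) Y) :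
    ∃ u ∈ sphere v r, Conn η0 (ball v r) p u := by
  have h1 := Pool.Agent.H90.AL.conn_per hper (-a) (-b) hc
  have e1 : ((p.1 + a * N + -a * N, p.2 + b * N + -b * N) : Vert) = p := by
    ext <;> (simp only; ring)
  simp only at h1
  rw [e1] at h1
  obtain ⟨x, hx, hcx⟩ := h1.to_sphere (v := v) (r := r) hp (Or.inl (by
    intro hm
    apply hY
    rw [mem_ball] at hm ⊢
    simp only at hm ⊢
    have e3 : -a * (N : ℤ) = -(a * N) := by ring
    have e4 : -b * (N : ℤ) = -(b * N) := by ring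
    rw [e3, e4] at hm
    omega))
  exact ⟨x, hx, hcx.mono_set Set.inter_subset_right⟩

/-- One step of a path of `η1` which is not at a translate of `v`. -/
theorem AddSite.step' {N : ℕ} {v : Vert} {η0 η1 : Config} (h : AddSite N v η0 η1) {x y : Vert}
    (hx : ∀ a b : ℤ, x ≠ (v.1 + a * N, v.2 + b * N)) (hs : Step η1 Set.univ x y) :
    Step η0 Set.univ x y ∨ ∃ (a b : ℤ) (q : Vert), y = (v.1 + a * N, v.2 + b * N) ∧
      Step η1 Set.univ v q ∧ x = (q.1 + a * N, q.2 + b * N) := by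
  rcases h.step x y hs with h1 | ⟨a, b, h1 | h1⟩
  · exact Or.inl h1
  · exact absurd h1 (hx a b)
  · refine Or.inr ⟨a, b, (x.1 - a * N, x.2 - b * N), h1, ?_, ?_⟩
    · rw [h1] at hs
      exact step_per' h.per1 a b hs.symm
    · ext <;> (simp only; ring)

/-- A vertex joined in `η0` to a vertex off the translates is off the translates. -/
theorem AddSite.off {N : ℕ} {v : Vert} {η0 η1 : Config} (h : AddSite N v η0 η1) {x y : Vert}
    (hx : ∀ a b : ℤ, x ≠ (v.1 + a * N, v.2 + b * N)) (hc : Conn η0 Set.univ x y) (a b : ℤ) :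
    y ≠ (v.1 + a * N, v.2 + b * N) := by
  intro hy
  rw [hy] at hc
  exact hx a b (conn_iso (h.iso' a b) hc.symm)

theorem AddSite.nb_off {N : ℕ} {v : Vert} {η0 η1 : Config} (h : AddSite N v η0 η1) (hN : 4 ≤ N)
    {p : Vert} (hp : Step η1 Set.univ v p) (c d a b : ℤ) :
    ((p.1 + c * N, p.2 + d * N) : Vert) ≠ (v.1 + a * N, v.2 + b * N) := by
  by_cases hcd : (c, d) = (a, b)
  · obtain ⟨rfl, rfl⟩ := Prod.mk.inj hcd
    intro h1
    rw [Prod.mk.injEq] at h1
    exact (Step.nb hp).ne (Prod.ext (by linarith [h1.1]) (by linarith [h1.2]))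
  · intro h1
    refine h.nb_out (r := 1) le_rfl (by omega) hp hcd ?_
    rw [h1]
    exact self_mem_ball

/-- Without four arms a winding path can avoid the translates of `v`. -/
theorem wind_of_noFour {N r : ℕ} {v : Vert} {η0 η1 : Config} (hr : 1 ≤ r) (hN : 2 * r + 2 ≤ N)
    (h : AddSite N v η0 η1) (h4 : NoFour v r η0 η1) {u : Vert} {a b : ℤ} (hab : a ≠ 0 ∨ b ≠ 0)
    (hc : Conn η1 Set.univ u (u.1 + a * N, u.2 + b * N)) :
    ∃ u' : Vert, Conn η0 Set.univ u' (u'.1 + a * N, u'.2 + b * N) := by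
  by_cases hT : ∃ c d : ℤ, Conn η1 Set.univ u (v.1 + c * N, v.2 + d * N)
  · obtain ⟨c, d, hcd⟩ := hT
    -- rotate the path
    have hrot : Conn η1 Set.univ (v.1 + c * N, v.2 + d * N)
        (v.1 + (c + a) * N, v.2 + (d + b) * N) := by
      have h1 := Pool.Agent.H90.AL.conn_per h.per1 a b hcd
      have h2 := (hcd.symm.trans hc).trans h1
      have e1 : ((v.1 + c * N + a * N, v.2 + d * N + b * N) : Vert) =
          (v.1 + (c + a) * N, v.2 + (d + b) * N) := by
        ext <;> (simp only; ring)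
      simp only at h2
      rw [e1] at h2
      exact h2
    obtain ⟨R, hR⟩ : ∃ R : Vert → Prop, ∀ p, R p ↔ (Step η1 Set.univ v p ∧
      ∃ u ∈ sphere v r, Conn η0 (ball v r) p u) := ⟨_, fun _ => Iff.rfl⟩
    obtain ⟨B, hB⟩ : ∃ B : ℤ → ℤ → Prop, ∀ k l, B k l ↔ ((k = c ∧ l = d) ∨ ∃ p q, R p ∧ R q ∧
      Conn η0 Set.univ (p.1 + c * N, p.2 + d * N) (q.1 + k * N, q.2 + l * N)) :=
        ⟨_, fun _ _ => Iff.rfl⟩
    have key : ∃ k l, B k l ∧ (((v.1 + (c + a) * N, v.2 + (d + b) * N) : Vert) =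
        (v.1 + k * N, v.2 + l * N) ∨ ∃ p, Step η1 Set.univ v p ∧
        Conn η0 Set.univ (p.1 + k * N, p.2 + l * N) (v.1 + (c + a) * N, v.2 + (d + b) * N)) := by
      refine hrot.induction_right (P := fun Y => ∃ k l, B k l ∧ (Y = (v.1 + k * N, v.2 + l * N) ∨
        ∃ p, Step η1 Set.univ v p ∧ Conn η0 Set.univ (p.1 + k * N, p.2 + l * N) Y)) ?_ ?_
      · exact ⟨c, d, (hB c d).2 (Or.inl ⟨rfl, rfl⟩), Or.inl rfl⟩
      · rintro Y Y' - hs ⟨k, l, hkl, h1⟩
        rcases h1 with h1 | ⟨p, hp, h1⟩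
        · subst h1
          refine ⟨k, l, hkl, Or.inr ⟨(Y'.1 - k * N, Y'.2 - l * N), step_per' h.per1 k l hs, ?_⟩⟩
          have e1 : ((Y'.1 - k * N + k * N, Y'.2 - l * N + l * N) : Vert) = Y' := by
            ext <;> (simp only; ring)
          simp only
          rw [e1]
          exact Conn.refl (Set.mem_univ _)
        · have hoff := h.off (h.nb_off (by omega) hp k l) h1
          rcases h.step' hoff hs with h2 | ⟨k', l', q, hY', hq, hY⟩
          · exact ⟨k, l, hkl, Or.inr ⟨p, hp, h1.tail h2⟩⟩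
          · by_cases hkk : (k, l) = (k', l')
            · obtain ⟨rfl, rfl⟩ := Prod.mk.inj hkk
              exact ⟨k, l, hkl, Or.inl hY'⟩
            · refine ⟨k', l', ?_, Or.inl hY'⟩
              rw [hY] at h1
              have hp' : R p := (hR p).2 ⟨hp, reach_of_conn h.per0
                ((Step.nb hp).mem_ball hr) k l (h.nb_out hr hN hq (Ne.symm hkk)) h1⟩
              have hq' : R q := (hR q).2 ⟨hq, reach_of_conn h.per0
                ((Step.nb hq).mem_ball hr) k' l' (h.nb_out hr hN hp hkk) h1.symm⟩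
              rw [hB] at hkl ⊢
              right
              rcases hkl with ⟨rfl, rfl⟩ | ⟨p0, q0, hp0, hq0, h3⟩
              · exact ⟨p, q, hp', hq', h1⟩
              · refine ⟨p0, q, hp0, hq', h3.trans (Conn.trans ?_ h1)⟩
                rw [hR] at hq0 hp'
                exact Pool.Agent.H90.AL.conn_per h.per0 k l
                  ((h4 q0 p hq0.1 hp'.1 hq0.2 hp'.2).mono_set (Set.subset_univ _))
    obtain ⟨k, l, hkl, h1⟩ := key
    have hN0 : (0 : ℤ) < N := by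
      have : (2 * r + 2 : ℤ) ≤ N := by exact_mod_cast hN
      omega
    have hk : k = c + a ∧ l = d + b := by
      rcases h1 with h1 | ⟨p, hp, h1⟩
      · rw [Prod.mk.injEq] at h1
        constructor
        · have := add_left_cancel h1.1
          exact (mul_right_cancel₀ hN0.ne' this).symm
        · have := add_left_cancel h1.2
          exact (mul_right_cancel₀ hN0.ne' this).symm
      · exact absurd rfl (h.off (h.nb_off (by omega) hp k l) h1 (c + a) (d + b))
    obtain ⟨rfl, rfl⟩ := hk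
    rw [hB] at hkl
    rcases hkl with ⟨h2, h3⟩ | ⟨p, q, hp, hq, h2⟩
    · exfalso
      rcases hab with h5 | h5 <;> omega
    · rw [hR] at hp hq
      refine ⟨(p.1 + c * N, p.2 + d * N), ?_⟩
      have h3 := Pool.Agent.H90.AL.conn_per h.per0 (c + a) (d + b)
        ((h4 q p hq.1 hp.1 hq.2 hp.2).mono_set (Set.subset_univ _))
      have h5 := h2.trans h3
      have e1 : ((p.1 + (c + a) * N, p.2 + (d + b) * N) : Vert) =
          (p.1 + c * N + a * N, p.2 + d * N + b * N) := by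
        ext <;> (simp only; ring)
      rw [e1] at h5
      exact h5
  · push Not at hT
    refine ⟨u, ?_⟩
    refine hc.induction_right (P := fun Y => Conn η0 Set.univ u Y) (Conn.refl (Set.mem_univ _)) ?_
    intro x y hux hs hx
    rcases h.step x y hs with h1 | ⟨a', b', h1 | h1⟩
    · exact hx.tail h1
    · rw [h1] at hux
      exact absurd hux (hT a' b')
    · have := hux.tail hs
      rw [h1] at this
      exact absurd this (hT a' b')

/-- Without four arms a path between far vertices can avoid the translates of `v`. -/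
theorem conn_of_noFour {N r : ℕ} {v : Vert} {η0 η1 : Config} (hr : 1 ≤ r) (hN : 2 * r + 2 ≤ N)
    (h : AddSite N v η0 η1) (h4 : NoFour v r η0 η1) {X Y : Vert}
    (hX : ∀ a b : ℤ, (X.1 - a * N, X.2 - b * N) ∉ ball v r)
    (hY : ∀ a b : ℤ, (Y.1 - a * N, Y.2 - b * N) ∉ ball v r)
    (hc : Conn η1 Set.univ X Y) : Conn η0 Set.univ X Y := by
  have hconv : ∀ {Z : Vert}, (∀ a b : ℤ, (Z.1 - a * N, Z.2 - b * N) ∉ ball v r) → ∀ a b : ℤ,
      Z ∉ ball (v.1 + a * N, v.2 + b * N) r := by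
    intro Z hZ a b hm
    apply hZ a b
    rw [mem_ball] at hm ⊢
    simp only at hm ⊢
    omega
  have hX' := hconv hX
  have hY' := hconv hY
  have hXoff : ∀ a b : ℤ, X ≠ (v.1 + a * N, v.2 + b * N) := fun a b h1 => hX' a b (by
    rw [h1]; exact self_mem_ball)
  obtain ⟨R, hR⟩ : ∃ R : Vert → Prop, ∀ p, R p ↔ (Step η1 Set.univ v p ∧
    ∃ u ∈ sphere v r, Conn η0 (ball v r) p u) := ⟨_, fun _ => Iff.rfl⟩
  have key : Conn η0 Set.univ X Y ∨ ∃ k l q, R q ∧
      Conn η0 Set.univ X (q.1 + k * N, q.2 + l * N) ∧ (Y = (v.1 + k * N, v.2 + l * N) ∨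
        ∃ p, Step η1 Set.univ v p ∧ Conn η0 Set.univ (p.1 + k * N, p.2 + l * N) Y) := by
    refine hc.induction_right (P := fun Z => Conn η0 Set.univ X Z ∨ ∃ k l q, R q ∧
      Conn η0 Set.univ X (q.1 + k * N, q.2 + l * N) ∧ (Z = (v.1 + k * N, v.2 + l * N) ∨
        ∃ p, Step η1 Set.univ v p ∧ Conn η0 Set.univ (p.1 + k * N, p.2 + l * N) Z))
      (Or.inl (Conn.refl (Set.mem_univ _))) ?_
    rintro Z Z' - hs (h1 | ⟨k, l, q, hq, hXq, h1 | ⟨p, hp, h1⟩⟩)
    · rcases h.step' (h.off hXoff h1) hs with h2 | ⟨k, l, q, hZ', hq, hZ⟩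
      · exact Or.inl (h1.tail h2)
      · right
        rw [hZ] at h1
        exact ⟨k, l, q, (hR q).2 ⟨hq, reach_of_conn h.per0 ((Step.nb hq).mem_ball hr) k l
          (hX' k l) h1.symm⟩, h1, Or.inl hZ'⟩
    · right
      subst h1
      refine ⟨k, l, q, hq, hXq, Or.inr ⟨(Z'.1 - k * N, Z'.2 - l * N),
        step_per' h.per1 k l hs, ?_⟩⟩
      have e1 : ((Z'.1 - k * N + k * N, Z'.2 - l * N + l * N) : Vert) = Z' := by
        ext <;> (simp only; ring)
      simp only
      rw [e1]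
      exact Conn.refl (Set.mem_univ _)
    · right
      have hoff := h.off (h.nb_off (by omega) hp k l) h1
      rcases h.step' hoff hs with h2 | ⟨k', l', q', hZ', hq', hZ⟩
      · exact ⟨k, l, q, hq, hXq, Or.inr ⟨p, hp, h1.tail h2⟩⟩
      · by_cases hkk : (k, l) = (k', l')
        · obtain ⟨rfl, rfl⟩ := Prod.mk.inj hkk
          exact ⟨k, l, q, hq, hXq, Or.inl hZ'⟩
        · rw [hZ] at h1
          have hpR : R p := (hR p).2 ⟨hp, reach_of_conn h.per0
            ((Step.nb hp).mem_ball hr) k l (h.nb_out hr hN hq' (Ne.symm hkk)) h1⟩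
          have hqR : R q' := (hR q').2 ⟨hq', reach_of_conn h.per0
            ((Step.nb hq').mem_ball hr) k' l' (h.nb_out hr hN hp hkk) h1.symm⟩
          refine ⟨k', l', q', hqR, hXq.trans (Conn.trans ?_ h1), Or.inl hZ'⟩
          rw [hR] at hq hpR
          exact Pool.Agent.H90.AL.conn_per h.per0 k l
            ((h4 q p hq.1 hpR.1 hq.2 hpR.2).mono_set (Set.subset_univ _))
  rcases key with h1 | ⟨k, l, q, hq, hXq, h1 | ⟨p, hp, h1⟩⟩
  · exact h1
  · exact absurd (h1 ▸ self_mem_ball) (hY' k l)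
  · have hpR : R p := (hR p).2 ⟨hp, reach_of_conn h.per0
      ((Step.nb hp).mem_ball hr) k l (hY' k l) h1⟩
    rw [hR] at hq hpR
    exact (hXq.trans (Pool.Agent.H90.AL.conn_per h.per0 k l
      ((h4 q p hq.1 hpR.1 hq.2 hpR.2).mono_set (Set.subset_univ _)))).trans h1

/-- If opening `v` joins `X` to `Y`, then the cluster of `X` contains a translate of a neighbour
of `v`. -/
theorem touch_of_addSite {N : ℕ} {v : Vert} {η0 η1 : Config} (h : AddSite N v η0 η1) {X Y : Vert}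
    (hX : ∀ a b : ℤ, X ≠ (v.1 + a * N, v.2 + b * N)) (h1 : Conn η1 Set.univ X Y)
    (h0 : ¬ Conn η0 Set.univ X Y) :
    ∃ (p : Vert) (a b : ℤ), Nb v p ∧ Conn η0 Set.univ X (p.1 + a * N, p.2 + b * N) := by
  have key : Conn η0 Set.univ X Y ∨ ∃ (p : Vert) (a b : ℤ), Nb v p ∧
      Conn η0 Set.univ X (p.1 + a * N, p.2 + b * N) := by
    refine h1.induction_right (P := fun Z => Conn η0 Set.univ X Z ∨ ∃ (p : Vert) (a b : ℤ),
      Nb v p ∧ Conn η0 Set.univ X (p.1 + a * N, p.2 + b * N))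
      (Or.inl (Conn.refl (Set.mem_univ _))) ?_
    rintro Z Z' - hs (h2 | h2)
    · rcases h.step' (h.off hX h2) hs with h3 | ⟨k, l, q, hZ', hq, hZ⟩
      · exact Or.inl (h2.tail h3)
      · right
        rw [hZ] at h2
        exact ⟨q, k, l, Step.nb hq, h2⟩
    · exact Or.inr h2
  rcases key with h2 | h2
  · exact absurd h2 h0
  · exact h2

theorem isPer_sit {N : ℕ} {η : Config} (h : IsPer N η) : IsPer N (sit η) := by
  intro a b f
  have h1 := sit_shiftE (a * N, b * N) η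
  have h2 : (fun f => η (shiftE (a * N, b * N) f)) = η := by
    funext e
    exact h a b e
  rw [h2] at h1
  exact (congrFun h1 f).symm

theorem per_sv {N : ℕ} (w : Config) (u : Vert) :
    per N w (sv u) = w (modE N (sv u)) := rfl

/-- The sites which are translates of a site of the torus. -/
theorem modE_eq_iff {N : ℕ} {v : Vert} (hv : sv v ∈ tSites N) (u : Vert) :
    modE N (sv u) = sv v ↔ ∃ a b : ℤ, u = (v.1 + a * N, v.2 + b * N) := by
  rw [mem_tSites] at hv
  constructor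
  · intro h
    simp only [modE, sv, Prod.mk.injEq, and_true] at h
    refine ⟨u.1 / N, u.2 / N, ?_⟩
    rw [← h.1, ← h.2]
    ext
    · simp only
      rw [Int.emod_add_ediv_mul]
    · simp only
      rw [Int.emod_add_ediv_mul]
  · rintro ⟨a, b, rfl⟩
    simp only [modE, sv, Prod.mk.injEq, and_true]
    simp only [sv] at hv
    rw [Int.add_mul_emod_self_right, Int.add_mul_emod_self_right,
      Int.emod_eq_of_lt hv.1.1 hv.1.2, Int.emod_eq_of_lt hv.2.1.1 hv.2.1.2]
    exact ⟨rfl, rfl⟩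

/-- The configurations on the torus. -/
theorem addSite_sit {N : ℕ} {v : Vert} (hv : sv v ∈ tSites N) (w : Config) :
    AddSite N v (sit (per N (Function.update w (sv v) false)))
      (sit (per N (Function.update w (sv v) true))) := by
  have hmono : ∀ e, Function.update w (sv v) false e = true →
      Function.update w (sv v) true e = true := by
    intro e he
    by_cases h : e = sv v
    · subst h; simp
    · rw [Function.update_of_ne h] at he ⊢
      exact he
  have hvv : modE N (sv v) = sv v := (modE_eq_iff hv v).2 ⟨0, 0, by simp⟩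
  refine ⟨isPer_sit (Pool.Agent.H90.AL.isPer_per N _), isPer_sit (Pool.Agent.H90.AL.isPer_per N _),
    ?_, ?_, ?_⟩
  · rintro x ⟨-, -, e, he, ho⟩
    rw [Pool.Agent.H83.SK.sit_true, per_sv, per_sv] at ho
    rcases he with ⟨h1, -⟩ | ⟨h1, -⟩
    · rw [← h1, hvv, Function.update_self] at ho
      exact absurd ho.1 (by decide)
    · rw [← h1, hvv, Function.update_self] at ho
      exact absurd ho.2 (by decide)
  · exact Pool.Agent.H83.SK.sit_mono fun e he => hmono _ he
  · rintro x y ⟨-, -, e, he, ho⟩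
    by_cases h : sit (per N (Function.update w (sv v) false)) e = true
    · exact Or.inl ⟨Set.mem_univ _, Set.mem_univ _, e, he, h⟩
    · right
      rw [Pool.Agent.H83.SK.sit_true, per_sv, per_sv] at h ho
      have h2 : modE N (sv (src e)) = sv v ∨ modE N (sv (tgt e)) = sv v := by
        by_contra hno
        push Not at hno
        apply h
        rw [Function.update_of_ne hno.1, Function.update_of_ne hno.2] at ho ⊢
        exact ho
      rw [modE_eq_iff hv, modE_eq_iff hv] at h2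
      rcases h2 with ⟨a, b, h2⟩ | ⟨a, b, h2⟩ <;> refine ⟨a, b, ?_⟩ <;> rw [← h2] <;>
        rcases he with ⟨h3, h4⟩ | ⟨h3, h4⟩
      · exact Or.inl h3
      · exact Or.inr h4
      · exact Or.inr h4
      · exact Or.inl h3

/-- In the ball the torus configuration with the translates of `v` closed is the configuration
with `v` closed. -/
theorem sit_per_ball {N r : ℕ} (hN : 2 * r < N) {v : Vert} (hv : sv v ∈ tSites N) (w : Config)
    {e : Edge} (h1 : src e ∈ ball v r) (h2 : tgt e ∈ ball v r) :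
    sit (per N (Function.update w (sv v) false)) e = closeV v (sit (per N w)) e := by
  have key : ∀ u : Vert, u ∈ ball v r →
      per N (Function.update w (sv v) false) (sv u) = Function.update (per N w) (sv v) false (sv u) := by
    intro u hu
    by_cases huv : u = v
    · subst huv
      rw [per_sv, (modE_eq_iff hv u).2 ⟨0, 0, by simp⟩, Function.update_self, Function.update_self]
    · rw [Function.update_of_ne (sv_ne huv), per_sv, per_sv, Function.update_of_ne]
      intro h3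
      rw [modE_eq_iff hv] at h3
      obtain ⟨a, b, rfl⟩ := h3
      apply huv
      rw [mem_ball] at hu
      simp only at hu
      have hN' : (2 * r : ℤ) < N := by exact_mod_cast hN
      have key : ∀ c x : ℤ, x - r ≤ x + c * N → x + c * N ≤ x + r → c = 0 := by
        intro c x h1 h2
        by_contra h0
        rcases lt_or_gt_of_ne h0 with h5 | h5
        · have h6 : c * N ≤ -1 * N := mul_le_mul_of_nonneg_right (by omega) (by omega)
          omega
        · have h6 : 1 * N ≤ c * N := mul_le_mul_of_nonneg_right (by omega) (by omega)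
          omega
      rw [key a v.1 hu.1 hu.2.1, key b v.2 hu.2.2.1 hu.2.2.2]
      simp
  rw [← sit_shut]
  unfold shut
  simp only [sit]
  rw [key _ h1, key _ h2]

end Pool.Agent.H92.SN

end

section

/-!
# A pivotal site for the winding event has four arms
-/

set_option autoImplicit false

open MeasureTheory ProbabilityTheory unitInterval

namespace Pool.Agent.H92.SN

open Pool.Agent.H89.Perc
open Pool.Agent.H83.SK (sv sit)

/-- If there are no four arms then all neighbours which reach the sphere are joined. -/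
theorem noFour_of_notMem {N : ℕ} {v : Vert} (hv : sv v ∈ tSites N) {r : ℕ} (hN : 2 * r < N)
    {w : Config} (h : w ∉ A4T N v r) :
    NoFour v r (sit (per N (Function.update w (sv v) false)))
      (sit (per N (Function.update w (sv v) true))) := by
  have key : ∀ x y, Conn (sit (per N (Function.update w (sv v) false))) (ball v r) x y ↔
      Conn (closeV v (sit (per N w))) (ball v r) x y := by
    intro x y
    exact ⟨fun h => h.congr fun e h1 h2 => sit_per_ball hN hv w h1 h2,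
      fun h => h.congr fun e h1 h2 => (sit_per_ball hN hv w h1 h2).symm⟩
  rintro p q hp hq ⟨u, hu, h1⟩ ⟨u', hu', h2⟩
  by_contra h3
  apply h
  rw [key] at h1 h2 h3
  exact ⟨p, q, Step.nb hp, Step.nb hq, ⟨u, hu, h1⟩, ⟨u', hu', h2⟩, h3⟩

theorem A4T_of_pivot {N : ℕ} {v : Vert} (hv : sv v ∈ tSites N) {r : ℕ} (hr : 1 ≤ r)
    (hN : 2 * r + 2 ≤ N) {w : Config} (h1 : Function.update w (sv v) true ∈ WindS N)
    (h2 : Function.update w (sv v) false ∉ WindS N) : w ∈ A4T N v r := by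
  by_contra h
  obtain ⟨u, a, b, ha, hc⟩ := h1
  obtain ⟨u', hc'⟩ := wind_of_noFour hr hN (addSite_sit hv w)
    (noFour_of_notMem hv (by omega) h) (Or.inl ha) hc
  exact h2 ⟨u', a, b, ha, hc'⟩

end Pool.Agent.H92.SN

end

section

/-!
# Pairs of sites of the torus
-/

set_option autoImplicit false

open MeasureTheory ProbabilityTheory unitInterval

namespace Pool.Agent.H92.SN

open Pool.Agent.H89.Perc
open Pool.Agent.H61.NC (fill mid upd Joint PrR' dist0 Joint_piv localOn_upd modE)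
open Pool.Agent.H83.SK (sv sit)

/-- Comparison with the influence of one site (finite energy). -/
theorem Pr_Joint_le {s : Finset Edge} {A : Set Config} (hA : LocalOn s A) (iA : Incr A)
    {e f : Edge} (hef : e ≠ f) (q : I) {m : ℝ} (hm : 0 < m) (h1 : m ≤ (q : ℝ))
    (h2 : m ≤ 1 - (q : ℝ)) : Pr q (Joint A e f) ≤ 1 / m * pivot q A e := by
  have upd_mono : ∀ (A : Set Config), Incr A → ∀ e, upd A e false ⊆ upd A e true := by
    intro A iA e ω hω
    refine iA _ _ (fun x hx => ?_) hω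
    by_cases hxe : x = e
    · subst hxe; simp
    · rw [Function.update_of_ne hxe] at hx ⊢; exact hx
  have upd_sub : ∀ {A B : Set Config}, A ⊆ B → ∀ (f : Edge) (b : Bool),
      upd A f b ⊆ upd B f b := fun h f b _ hω => h hω
  set TT := upd (upd A e true) f true with hTT
  set TF := upd (upd A e true) f false with hTF
  set FT := upd (upd A e false) f true with hFT
  set FF := upd (upd A e false) f false with hFF
  have lFT : MeasurableSet FT := (localOn_upd (localOn_upd hA e false) f true).measurableSet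
  have lFF : MeasurableSet FF := (localOn_upd (localOn_upd hA e false) f false).measurableSet
  have s2 : FT ⊆ TT := upd_sub (upd_mono A iA e) f true
  have s3 : FF ⊆ TF := upd_sub (upd_mono A iA e) f false
  have e2 : Pr q (TT \ FT) = Pr q TT - Pr q FT := measureReal_sdiff s2 lFT
  have e3 : Pr q (TF \ FF) = Pr q TF - Pr q FF := measureReal_sdiff s3 lFF
  have p1 : 0 ≤ Pr q (TT \ FT) := Pr_nonneg
  have p2 : 0 ≤ Pr q (TF \ FF) := Pr_nonneg
  have e4 : Pr q (Joint A e f) ≤ Pr q (TT \ FT) + Pr q (TF \ FF) := by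
    refine (Pr_mono ?_).trans Pr_union_le
    rintro ω (⟨a1, a2⟩ | ⟨⟨a1, a2⟩, a3⟩)
    · left
      rw [Set.mem_union, not_or] at a2
      exact ⟨a1, a2.2⟩
    · right
      exact ⟨a1, a3⟩
  have f1 : Pr q (upd A e true) = q * Pr q TT + (1 - q) * Pr q TF :=
    Pr_eq_update (localOn_upd hA e true) f
  have f2 : Pr q (upd A e false) = q * Pr q FT + (1 - q) * Pr q FF :=
    Pr_eq_update (localOn_upd hA e false) f
  have f0 : pivot q A e = Pr q (upd A e true) - Pr q (upd A e false) := rfl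
  have f3 : pivot q A e = q * Pr q (TT \ FT) + (1 - q) * Pr q (TF \ FF) := by
    rw [f0, f1, f2, e2, e3]
    ring
  have f4 : m * Pr q (Joint A e f) ≤ pivot q A e := by
    rw [f3]
    nlinarith [mul_nonneg (sub_nonneg.2 h1) p1, mul_nonneg (sub_nonneg.2 h2) p2,
      mul_le_mul_of_nonneg_left e4 hm.le]
  rw [one_div, ← div_eq_inv_mul, le_div_iff₀ hm]
  linarith

/-- The sites on which the four-arm event of `f` depends. -/
private noncomputable def PairS (N : ℕ) (f : Edge) (r : ℕ) : Finset Edge :=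
  (sBall (src f) r).image (modE N)

private lemma Pair_modE {N : ℕ} {e : Edge} (he : e ∈ tSites N) : modE N e = e := by
  rw [mem_tSites] at he
  obtain ⟨x, y, t⟩ := e
  simp only at he
  simp only [modE]
  rw [Int.emod_eq_of_lt he.1.1 he.1.2, Int.emod_eq_of_lt he.2.1.1 he.2.1.2]

private lemma Pair_self {N : ℕ} {f : Edge} (hf : f ∈ tSites N) (r : ℕ) : f ∈ PairS N f r := by
  unfold PairS
  rw [Finset.mem_image]
  refine ⟨f, ?_, Pair_modE hf⟩
  rw [mem_sBall]
  exact ⟨self_mem_ball, (mem_tSites.1 hf).2.2⟩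

private lemma Pair_one_dim {N ρ : ℕ} {x u v : ℤ} (hx0 : 0 ≤ x) (hxN : x < N)
    (hu : (N : ℤ) / 2 - ρ ≤ u ∧ u ≤ (N : ℤ) / 2 + ρ) (hv : x - ρ ≤ v ∧ v ≤ x + ρ)
    (h : u % (N : ℤ) = v % N) : (x - (N : ℤ) / 2).natAbs ≤ 2 * ρ := by
  have h1 : (N : ℤ) ∣ v - u := by
    have h2 : u ≡ v [ZMOD N] := h
    exact h2.dvd
  obtain ⟨k, hk⟩ := h1
  rcases lt_trichotomy k 0 with h3 | h3 | h3
  · have h4 : (N : ℤ) * k ≤ -N := by nlinarith [Int.natCast_nonneg N]
    omega
  · subst h3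
    rw [mul_zero] at hk
    omega
  · have h4 : (N : ℤ) ≤ N * k := by nlinarith [Int.natCast_nonneg N]
    omega

private lemma Pair_disj {N ρ : ℕ} {f : Edge} (hf : f ∈ tSites N)
    (h2 : 2 * ρ < dist0 N f) : Disjoint (PairS N (cE N) ρ) (PairS N f ρ) := by
  rw [Finset.disjoint_left]
  intro x hx hx'
  unfold PairS at hx hx'
  rw [Finset.mem_image] at hx hx'
  obtain ⟨e1, he1, hx1⟩ := hx
  obtain ⟨e2, he2, hx2⟩ := hx'
  rw [mem_sBall, Pool.Agent.H89.Perc.mem_ball] at he1 he2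
  rw [mem_tSites] at hf
  have h3 : modE N e1 = modE N e2 := hx1.trans hx2.symm
  simp only [modE, Prod.mk.injEq] at h3
  simp only [cE, mid, src] at he1 he2
  unfold dist0 at h2
  simp only [mid] at h2
  have g1 := Pair_one_dim hf.1.1 hf.1.2 ⟨he1.1.1, he1.1.2.1⟩ ⟨he2.1.1, he2.1.2.1⟩ h3.1
  have g2 := Pair_one_dim hf.2.1.1 hf.2.1.2 ⟨he1.1.2.2.1, he1.1.2.2.2⟩
    ⟨he2.1.2.2.1, he2.1.2.2.2⟩ h3.2.1
  rcases lt_max_iff.1 h2 with h | h
  · omega
  · omega

private lemma Pair_sub {N ρ R : ℕ} {f : Edge} (h3 : dist0 N f + ρ ≤ R) (h4 : 2 * R + 2 ≤ N) :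
    PairS N f ρ ⊆ blkS N R := by
  intro x hx
  unfold PairS at hx
  rw [Finset.mem_image] at hx
  obtain ⟨e, he, hx1⟩ := hx
  rw [mem_sBall, Pool.Agent.H89.Perc.mem_ball] at he
  simp only [src] at he
  unfold dist0 mid at h3
  have h5 : (f.1 - (N : ℤ) / 2).natAbs + ρ ≤ R := by
    have := le_max_left (f.1 - (N : ℤ) / 2).natAbs (f.2.1 - (N : ℤ) / 2).natAbs
    omega
  have h6 : (f.2.1 - (N : ℤ) / 2).natAbs + ρ ≤ R := by
    have := le_max_right (f.1 - (N : ℤ) / 2).natAbs (f.2.1 - (N : ℤ) / 2).natAbs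
    omega
  have h7 : e ∈ tSites N := by
    rw [mem_tSites]
    exact ⟨by omega, by omega, he.2⟩
  rw [Pair_modE h7] at hx1
  rw [← hx1]
  unfold mid at *
  rw [mem_blkS]
  unfold mid
  exact ⟨by omega, by omega, he.2⟩

private lemma Pair_dist_ctr (N : ℕ) : dist0 N (cE N) = 0 := by
  simp [dist0, cE]

private lemma Pair_ne {N ρ : ℕ} {f : Edge} (h2 : 2 * ρ < dist0 N f) : cE N ≠ f := by
  rintro rfl
  rw [Pair_dist_ctr] at h2
  omega

private lemma Pair_localS (N : ℕ) (f : Edge) (r : ℕ) :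
    LocalOn (PairS N f r) (A4T N (src f) r) := localOn_A4T N (src f) r

theorem A4T_of_pivot' {N : ℕ} {f : Edge} (hf : f ∈ tSites N) {r : ℕ} (hr : 1 ≤ r)
    (hN : 2 * r + 2 ≤ N) {w : Config} (h1 : Function.update w f true ∈ WindS N)
    (h2 : Function.update w f false ∉ WindS N) : w ∈ A4T N (src f) r := by
  have hs : sv (src f) = f := sv_src (mem_tSites.1 hf).2.2
  refine A4T_of_pivot (by rw [hs]; exact hf) hr hN ?_ ?_
  · rw [hs]; exact h1
  · rw [hs]; exact h2

/-- On the joint event both sites have four arms. -/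
private lemma Pair_joint_sub {N ρ : ℕ} {f : Edge} (hf : f ∈ tSites N)
    (h1 : 1 ≤ ρ) (h2 : 2 * ρ < dist0 N f) (h3 : 2 * ρ + 2 ≤ N) :
    Joint (WindS N) (cE N) f ⊆ A4T N (src (cE N)) ρ ∩ A4T N (src f) ρ := by
  intro ω hω
  have hc : cE N ∈ tSites N := cE_mem (by omega)
  have hdis := Pair_disj hf h2
  obtain ⟨⟨b, hb1, hb2⟩, ⟨b', hb1', hb2'⟩⟩ := Joint_piv (incr_WindS N) (Pair_ne h2) hω
  constructor
  · have g := A4T_of_pivot' hc h1 h3 hb1 hb2
    refine Pair_localS N (cE N) ρ _ _ (fun e he => ?_) g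
    rw [Function.update_of_ne]
    rintro rfl
    exact Finset.disjoint_left.1 hdis he (Pair_self hf ρ)
  · have g := A4T_of_pivot' hf h1 h3 hb1' hb2'
    refine Pair_localS N f ρ _ _ (fun e he => ?_) g
    rw [Function.update_of_ne]
    rintro rfl
    exact Finset.disjoint_left.1 hdis (Pair_self hc ρ) he

theorem BlockPiv_of_fill {N R : ℕ} {w w1 w0 : Config} (h1 : w1 ∈ WindS N) (h0 : w0 ∉ WindS N)
    (k1 : ∀ x, x ∉ blkS N R → w1 x = w x) (k0 : ∀ x, x ∉ blkS N R → w0 x = w x) :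
    w ∈ BlockPiv N R := by
  constructor
  · refine incr_WindS N _ _ (fun x hx => ?_) h1
    by_cases hxb : x ∈ blkS N R
    · exact fill_mem hxb
    · rw [fill_notMem hxb, ← k1 x hxb]
      exact hx
  · intro h
    refine h0 (incr_WindS N _ _ (fun x hx => ?_) h)
    by_cases hxb : x ∈ blkS N R
    · rw [fill_mem hxb] at hx
      exact absurd hx (by decide)
    · rw [fill_notMem hxb] at hx
      rwa [k0 x hxb]

/-- On the joint event a block which contains both sites is pivotal. -/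
private lemma Pair_joint_blk {N R : ℕ} {e f : Edge} (hef : e ≠ f) (he : e ∈ blkS N R)
    (hf : f ∈ blkS N R) : Joint (WindS N) e f ⊆ BlockPiv N R := by
  intro ω hω
  obtain ⟨⟨b, hb1, hb2⟩, -⟩ := Joint_piv (incr_WindS N) hef hω
  have key : ∀ c : Bool, ∀ x, x ∉ blkS N R →
      Function.update (Function.update ω f b) e c x = ω x := by
    intro c x hx
    have n1 : x ≠ e := by
      rintro rfl
      exact hx he
    have n2 : x ≠ f := by
      rintro rfl
      exact hx hf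
    rw [Function.update_of_ne n1, Function.update_of_ne n2]
  exact BlockPiv_of_fill hb1 hb2 (key true) (key false)

private lemma Pair_prob (q : I) {N ρ : ℕ} {f : Edge} (hf : f ∈ tSites N)
    (h2 : 2 * ρ < dist0 N f) (h3 : 2 * ρ + 2 ≤ N) :
    Pr q (A4T N (src (cE N)) ρ ∩ A4T N (src f) ρ) = a4 q ρ ^ 2 := by
  rw [Pr_inter_of_disjoint (Pair_localS N _ ρ) (Pair_localS N _ ρ) (Pair_disj hf h2),
    Pr_A4T q _ (by omega), Pr_A4T q _ (by omega), sq]

theorem Pr_joint_near (q : I) {N ρ R : ℕ} {f : Edge} (hf : f ∈ tSites N)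
    (h1 : 1 ≤ ρ) (h2 : 2 * ρ < dist0 N f) (h3 : dist0 N f + ρ ≤ R) (h4 : 2 * R + 2 ≤ N) :
    Pr q (Joint (WindS N) (cE N) f) ≤ a4 q ρ ^ 2 * Pr q (BlockPiv N R) := by
  have hρ : 2 * ρ + 2 ≤ N := by omega
  have s1 : PairS N f ρ ⊆ blkS N R := Pair_sub h3 h4
  have s2 : PairS N (cE N) ρ ⊆ blkS N R := Pair_sub (by rw [Pair_dist_ctr]; omega) h4
  have hc : cE N ∈ tSites N := cE_mem (by omega)
  have hsub : Joint (WindS N) (cE N) f ⊆
      (A4T N (src (cE N)) ρ ∩ A4T N (src f) ρ) ∩ BlockPiv N R :=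
    Set.subset_inter (Pair_joint_sub hf h1 h2 hρ)
      (Pair_joint_blk (Pair_ne h2) (s2 (Pair_self hc ρ)) (s1 (Pair_self hf ρ)))
  refine (Pr_mono hsub).trans ?_
  rw [Pr_inter_of_disjoint (LocalOn.inter' (Pair_localS N (cE N) ρ) (Pair_localS N f ρ))
    (localOn_BlockPiv (by omega) R) ?_, Pair_prob q hf h2 hρ]
  rw [Finset.disjoint_left]
  intro x hx hx'
  rw [Finset.mem_sdiff] at hx'
  rcases Finset.mem_union.1 hx with h | h
  · exact hx'.2 (s2 h)
  · exact hx'.2 (s1 h)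

theorem Pr_joint_far (q : I) {N ρ : ℕ} {f : Edge} (hf : f ∈ tSites N)
    (h1 : 1 ≤ ρ) (h2 : 2 * ρ < dist0 N f) (h3 : 2 * ρ + 2 ≤ N) :
    Pr q (Joint (WindS N) (cE N) f) ≤ a4 q ρ ^ 2 :=
  (Pr_mono (Pair_joint_sub hf h1 h2 h3)).trans (Pair_prob q hf h2 h3).le

theorem pivot_eq_sdiff {s : Finset Edge} {A : Set Config} (hA : LocalOn s A) (iA : Incr A)
    (q : I) (e : Edge) : pivot q A e = Pr q {w | Function.update w e true ∈ A ∧
      Function.update w e false ∉ A} := by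
  have lF : MeasurableSet (upd A e false) := (localOn_upd hA e false).measurableSet
  have s3 : upd A e false ⊆ upd A e true := by
    intro ω hω
    refine iA _ _ (fun x hx => ?_) hω
    by_cases hxe : x = e
    · subst hxe; simp
    · rw [Function.update_of_ne hxe] at hx ⊢; exact hx
  have e2 : Pr q (upd A e true \ upd A e false) = Pr q (upd A e true) - Pr q (upd A e false) :=
    measureReal_sdiff s3 lF
  exact e2.symm

/-- The influence of a site is bounded by the four-arm probability. -/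
theorem pivot_le_a4 (q : I) {N r : ℕ} {e : Edge} (he : e ∈ tSites N) (hr : 1 ≤ r)
    (hN : 2 * r + 2 ≤ N) : pivot q (WindS N) e ≤ a4 q r := by
  rw [← Pr_A4T q (src e) (show 2 * r < N by omega),
    pivot_eq_sdiff (localOn_WindS (by omega)) (incr_WindS N)]
  exact Pr_mono fun w hw => A4T_of_pivot' he hr hN hw.1 hw.2

/-- The influence of the middle site is bounded by the four-arm probability times the influence of
the block. -/
theorem sT_le_block (q : I) {N r : ℕ} (hr : 1 ≤ r) (hN : 2 * r + 2 ≤ N) :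
    sT q N ≤ a4 q r * Pr q (BlockPiv N r) := by
  have hc : cE N ∈ tSites N := cE_mem (by omega)
  have s2 : PairS N (cE N) r ⊆ blkS N r := Pair_sub (by rw [Pair_dist_ctr]; omega) hN
  have hce : cE N ∈ blkS N r := s2 (Pair_self hc r)
  unfold sT
  rw [pivot_eq_sdiff (localOn_WindS (by omega)) (incr_WindS N),
    ← Pr_A4T q (src (cE N)) (show 2 * r < N by omega),
    ← Pr_inter_of_disjoint (Pair_localS N (cE N) r) (localOn_BlockPiv (by omega) r) ?_]
  · refine Pr_mono fun w hw => ⟨A4T_of_pivot' hc hr hN hw.1 hw.2, ?_⟩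
    have key : ∀ c : Bool, ∀ x, x ∉ blkS N r → Function.update w (cE N) c x = w x := by
      intro c x hx
      rw [Function.update_of_ne]
      rintro rfl
      exact hx hce
    exact BlockPiv_of_fill hw.1 hw.2 (key true) (key false)
  · rw [Finset.disjoint_left]
    intro x hx hx'
    rw [Finset.mem_sdiff] at hx'
    exact hx'.2 (s2 hx)

end Pool.Agent.H92.SN

end

section

/-!
# The sum over pairs of sites
-/

set_option autoImplicit false

open MeasureTheory ProbabilityTheory unitInterval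

namespace Pool.Agent.H92.SN

open Pool.Agent.H89.Perc
open Pool.Agent.H61.NC (fill mid upd Joint PrR' dist0 Sum_rpow Sum_eight)
open Pool.Agent.H83.SK (sv sit)

theorem Sum_card_sBall (v : Vert) (s : ℕ) : (sBall v s).card = (2 * s + 1) ^ 2 := by
  unfold sBall
  rw [Finset.card_product, Finset.card_product, Int.card_Icc, Int.card_Icc,
    Finset.card_singleton]
  have h : (v.1 + (s : ℤ) + 1 - (v.1 - s)).toNat = 2 * s + 1 := by omega
  have h' : (v.2 + (s : ℤ) + 1 - (v.2 - s)).toNat = 2 * s + 1 := by omega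
  rw [h, h']
  ring

/-- Number of sites of the torus at a given distance from the middle. -/
theorem card_dist0 (N t : ℕ) (ht : 1 ≤ t) :
    (((tSites N).filter fun f => dist0 N f = t).card : ℝ) ≤ 8 * t := by
  classical
  obtain ⟨s, rfl⟩ : ∃ s, t = s + 1 := ⟨t - 1, by omega⟩
  have hsub : ((tSites N).filter fun f => dist0 N f = s + 1) ⊆
      sBall (cV N) (s + 1) \ sBall (cV N) s := by
    intro f hf
    rw [Finset.mem_filter] at hf
    have h1 := hf.2
    have h2 := (mem_tSites.1 hf.1).2.2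
    unfold dist0 at h1
    rw [Finset.mem_sdiff, mem_sBall, mem_sBall, Pool.Agent.H89.Perc.mem_ball,
      Pool.Agent.H89.Perc.mem_ball]
    simp only [cV, src, h2, and_true]
    push_cast
    omega
  have hsub2 : sBall (cV N) s ⊆ sBall (cV N) (s + 1) := by
    intro f hf
    rw [mem_sBall, Pool.Agent.H89.Perc.mem_ball] at hf ⊢
    refine ⟨?_, hf.2⟩
    have := hf.1
    push_cast
    omega
  have h1 := Finset.card_le_card hsub
  rw [Finset.card_sdiff_of_subset hsub2, Sum_card_sBall, Sum_card_sBall] at h1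
  have h2 : (2 * (s + 1) + 1) ^ 2 - (2 * s + 1) ^ 2 = 8 * (s + 1) := by
    have : (2 * (s + 1) + 1) ^ 2 = (2 * s + 1) ^ 2 + 8 * (s + 1) := by ring
    omega
  rw [h2] at h1
  exact_mod_cast h1

/-- The influences at scale `N` are comparable to the four-arm probability at scale `N / 64`. -/
theorem a4_le_sT (hGL : GLTorus) (hBL : BlockLow) : ∀ c : ℝ, 0 < c → ∃ C : ℝ, 0 < C ∧
    ∀ (N : ℕ) (q : I), 64 ≤ N → SReg c N q → a4 q (N / 64) ≤ C * sT q N := by
  intro c hc
  obtain ⟨C1, hC1, h1⟩ := hGL c hc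
  obtain ⟨C2, δ, hC2, hδ, h2⟩ := hBL c hc
  refine ⟨64 * C1 * C2, by positivity, fun N q hN hR => ?_⟩
  obtain ⟨r, hr⟩ : ∃ r, r = N / 64 := ⟨_, rfl⟩
  rw [← hr]
  have hr1 : 1 ≤ r := by omega
  have hrN : 64 * r ≤ N := by omega
  have hrN' : N ≤ 128 * r := by omega
  have k1 := h1 N r q hr1 hrN hR
  have k2 := h2 N (16 * r) q (by omega) (by omega) hR
  have hNpos : (0 : ℝ) < N := by exact_mod_cast (by omega : 0 < N)
  have hx1 : (1 / 8 : ℝ) ≤ ((16 * r : ℕ) : ℝ) / N := by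
    rw [le_div_iff₀ hNpos]
    have : (N : ℝ) ≤ 128 * r := by exact_mod_cast hrN'
    push_cast
    linarith
  have hx2 : ((16 * r : ℕ) : ℝ) / N ≤ 1 := by
    rw [div_le_one hNpos]
    exact_mod_cast (by omega : 16 * r ≤ N)
  have hx0 : 0 < ((16 * r : ℕ) : ℝ) / N := by linarith
  have k3 : (1 / 64 : ℝ) ≤ (((16 * r : ℕ) : ℝ) / N) ^ (2 - δ) := by
    calc (1 / 64 : ℝ) = (1 / 8 : ℝ) ^ 2 := by norm_num
      _ ≤ (((16 * r : ℕ) : ℝ) / N) ^ 2 := by gcongr
      _ = (((16 * r : ℕ) : ℝ) / N) ^ (2 : ℝ) := (Real.rpow_two _).symm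
      _ ≤ _ := Real.rpow_le_rpow_of_exponent_ge hx0 hx2 (by linarith)
  have k4 : 1 ≤ 64 * C2 * Pr q (BlockPiv N (16 * r)) := by linarith
  have ha := a4_nonneg q r
  calc a4 q r = a4 q r * 1 := (mul_one _).symm
    _ ≤ a4 q r * (64 * C2 * Pr q (BlockPiv N (16 * r))) := mul_le_mul_of_nonneg_left k4 ha
    _ = 64 * C2 * (a4 q r * Pr q (BlockPiv N (16 * r))) := by ring
    _ ≤ 64 * C2 * (C1 * sT q N) := mul_le_mul_of_nonneg_left k1 (by positivity)
    _ = _ := by ring

theorem sum_a4 (hGL : GLTorus) (hBL : BlockLow) : ∀ c : ℝ, 0 < c → ∃ C : ℝ, 0 < C ∧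
    ∀ (N : ℕ) (q : I), 64 ≤ N → SReg c N q →
      ∑ t ∈ Finset.Icc 1 N, (t : ℝ) * a4 q t ≤ C * ((N : ℝ) ^ 2 * sT q N) := by
  intro c hc
  obtain ⟨C3, hC3, h3⟩ := a4_le_sT hGL hBL c hc
  obtain ⟨C1, hC1, h1⟩ := hGL c hc
  obtain ⟨C2, δ0, hC2, hδ0, h2⟩ := hBL c hc
  obtain ⟨δ, hδ⟩ : ∃ δ, δ = min δ0 1 := ⟨_, rfl⟩
  have hδpos : 0 < δ := by rw [hδ]; exact lt_min hδ0 one_pos
  have hδ1 : δ ≤ 1 := by rw [hδ]; exact min_le_right _ _
  have hδle : δ ≤ δ0 := by rw [hδ]; exact min_le_left _ _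
  refine ⟨C1 * C2 / δ + C3, by positivity, fun N q hN hR => ?_⟩
  have hs := sT_nonneg q N
  have hNpos : (0 : ℝ) < N := by exact_mod_cast (by omega : 0 < N)
  have hterm : ∀ t ∈ Finset.Icc 1 N, (t : ℝ) * a4 q t ≤
      C1 * C2 * sT q N * (N : ℝ) ^ (2 - δ) * (t : ℝ) ^ (δ - 1) + N * (C3 * sT q N) := by
    intro t ht
    rw [Finset.mem_Icc] at ht
    have htpos : (0 : ℝ) < t := by exact_mod_cast (by omega : 0 < t)
    have ha := a4_nonneg q t
    by_cases h64 : 64 * t ≤ N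
    · have k1 := h1 N t q ht.1 h64 hR
      have k2 := h2 N (16 * t) q (by omega) (by omega) hR
      have hx : (t : ℝ) / N ≤ ((16 * t : ℕ) : ℝ) / N := by
        apply div_le_div_of_nonneg_right _ hNpos.le
        push_cast
        linarith
      have hx1 : ((16 * t : ℕ) : ℝ) / N ≤ 1 := by
        rw [div_le_one hNpos]
        exact_mod_cast (by omega : 16 * t ≤ N)
      have hx0 : 0 < (t : ℝ) / N := by positivity
      have k3 : ((t : ℝ) / N) ^ (2 - δ) ≤ C2 * Pr q (BlockPiv N (16 * t)) := by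
        calc ((t : ℝ) / N) ^ (2 - δ) ≤ (((16 * t : ℕ) : ℝ) / N) ^ (2 - δ) :=
              Real.rpow_le_rpow hx0.le hx (by linarith)
          _ ≤ (((16 * t : ℕ) : ℝ) / N) ^ (2 - δ0) :=
              Real.rpow_le_rpow_of_exponent_ge (hx0.trans_le hx) hx1 (by linarith)
          _ ≤ _ := k2
      have k4 : a4 q t * ((t : ℝ) / N) ^ (2 - δ) ≤ C1 * C2 * sT q N := by
        calc a4 q t * ((t : ℝ) / N) ^ (2 - δ) ≤ a4 q t * (C2 * Pr q (BlockPiv N (16 * t))) :=
              mul_le_mul_of_nonneg_left k3 ha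
          _ = C2 * (a4 q t * Pr q (BlockPiv N (16 * t))) := by ring
          _ ≤ C2 * (C1 * sT q N) := mul_le_mul_of_nonneg_left k1 hC2.le
          _ = _ := by ring
      have hN2 : 0 < (N : ℝ) ^ (2 - δ) := by positivity
      have ht2 : 0 < (t : ℝ) ^ (δ - 1) := by positivity
      have k5 : (t : ℝ) * a4 q t =
          a4 q t * ((t : ℝ) / N) ^ (2 - δ) * (N : ℝ) ^ (2 - δ) * (t : ℝ) ^ (δ - 1) := by
        rw [Real.div_rpow htpos.le hNpos.le]
        have e1 : (t : ℝ) ^ (2 - δ) * (t : ℝ) ^ (δ - 1) = t := by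
          rw [← Real.rpow_add htpos]
          have : 2 - δ + (δ - 1) = 1 := by ring
          rw [this, Real.rpow_one]
        calc (t : ℝ) * a4 q t = a4 q t * ((t : ℝ) ^ (2 - δ) * (t : ℝ) ^ (δ - 1)) := by
              rw [e1]; ring
          _ = _ := by
              field_simp
      rw [k5]
      have k6 : a4 q t * ((t : ℝ) / N) ^ (2 - δ) * (N : ℝ) ^ (2 - δ) * (t : ℝ) ^ (δ - 1) ≤
          C1 * C2 * sT q N * (N : ℝ) ^ (2 - δ) * (t : ℝ) ^ (δ - 1) := by
        gcongr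
      have k7 : 0 ≤ N * (C3 * sT q N) := by positivity
      linarith
    · have k1 := h3 N q hN hR
      have k2 := a4_anti q (by omega : 1 ≤ N / 64) (by omega : N / 64 ≤ t)
      have k3 : (t : ℝ) * a4 q t ≤ N * (C3 * sT q N) := by
        have ht' : (t : ℝ) ≤ N := by exact_mod_cast ht.2
        exact mul_le_mul ht' (k2.trans k1) ha hNpos.le
      have k4 : 0 ≤ C1 * C2 * sT q N * (N : ℝ) ^ (2 - δ) * (t : ℝ) ^ (δ - 1) := by positivity
      linarith
  calc ∑ t ∈ Finset.Icc 1 N, (t : ℝ) * a4 q t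
      ≤ ∑ t ∈ Finset.Icc 1 N, (C1 * C2 * sT q N * (N : ℝ) ^ (2 - δ) * (t : ℝ) ^ (δ - 1) +
          N * (C3 * sT q N)) := Finset.sum_le_sum hterm
    _ = C1 * C2 * sT q N * (N : ℝ) ^ (2 - δ) * ∑ t ∈ Finset.Icc 1 N, (t : ℝ) ^ (δ - 1) +
          N * (N * (C3 * sT q N)) := by
        rw [Finset.sum_add_distrib, ← Finset.mul_sum, Finset.sum_const, Nat.card_Icc,
          Nat.add_sub_cancel, nsmul_eq_mul]
    _ ≤ C1 * C2 * sT q N * (N : ℝ) ^ (2 - δ) * ((N : ℝ) ^ δ / δ) +
          N * (N * (C3 * sT q N)) := by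
        gcongr
        exact Sum_rpow δ hδpos hδ1 N
    _ = (C1 * C2 / δ + C3) * ((N : ℝ) ^ 2 * sT q N) := by
        have e : (N : ℝ) ^ (2 - δ) * (N : ℝ) ^ δ = (N : ℝ) ^ 2 := by
          rw [← Real.rpow_add hNpos, sub_add_cancel, Real.rpow_two]
        calc C1 * C2 * sT q N * (N : ℝ) ^ (2 - δ) * ((N : ℝ) ^ δ / δ) +
            N * (N * (C3 * sT q N)) = C1 * C2 * sT q N * ((N : ℝ) ^ (2 - δ) * (N : ℝ) ^ δ) / δ +
            N * (N * (C3 * sT q N)) := by ring
          _ = _ := by rw [e]; ring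

theorem Sum_card_small (N : ℕ) :
    (((tSites N).filter fun f => dist0 N f < 8).card : ℝ) ≤ 225 := by
  classical
  have hsub : ((tSites N).filter fun f => dist0 N f < 8) ⊆ sBall (cV N) 7 := by
    intro f hf
    rw [Finset.mem_filter] at hf
    have h1 := hf.2
    have h2 := (mem_tSites.1 hf.1).2.2
    unfold dist0 at h1
    rw [mem_sBall, Pool.Agent.H89.Perc.mem_ball]
    simp only [cV, src, h2, and_true]
    push_cast
    omega
  have h1 := Finset.card_le_card hsub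
  rw [Sum_card_sBall] at h1
  have h2 : (2 * 7 + 1) ^ 2 = 225 := by norm_num
  rw [h2] at h1
  exact_mod_cast h1

theorem Sum_dist0_le {N : ℕ} {f : Edge} (hf : f ∈ tSites N) : dist0 N f ≤ N := by
  rw [mem_tSites] at hf
  unfold dist0 mid
  omega

/-- Sum over the edges by distance. -/
theorem Sum_by_dist (N : ℕ) (h : ℕ → ℝ) (hh : ∀ t, 0 ≤ h t) :
    ∑ f ∈ (tSites N).filter (fun f => 8 ≤ dist0 N f), h (dist0 N f) ≤
      ∑ t ∈ Finset.Icc 8 N, 8 * t * h t := by
  classical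
  have hmaps : ∀ f ∈ (tSites N).filter (fun f => 8 ≤ dist0 N f), dist0 N f ∈ Finset.Icc 8 N := by
    intro f hf
    rw [Finset.mem_filter] at hf
    rw [Finset.mem_Icc]
    exact ⟨hf.2, Sum_dist0_le hf.1⟩
  rw [← Finset.sum_fiberwise_of_maps_to hmaps]
  refine Finset.sum_le_sum fun t ht => ?_
  rw [Finset.mem_Icc] at ht
  have h1 : ∑ f ∈ ((tSites N).filter (fun f => 8 ≤ dist0 N f)).filter (fun f => dist0 N f = t),
      h (dist0 N f) = (((tSites N).filter (fun f => 8 ≤ dist0 N f)).filter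
        (fun f => dist0 N f = t)).card * h t := by
    rw [← nsmul_eq_mul]
    refine Finset.sum_eq_card_nsmul fun f hf => ?_
    rw [(Finset.mem_filter.1 hf).2]
  rw [h1]
  refine mul_le_mul_of_nonneg_right ?_ (hh t)
  refine le_trans ?_ (card_dist0 N t (by omega))
  have h2 : ((tSites N).filter (fun f => 8 ≤ dist0 N f)).filter (fun f => dist0 N f = t) ⊆
      (tSites N).filter (fun f => dist0 N f = t) :=
    Finset.filter_subset_filter _ (Finset.filter_subset _ _)
  exact_mod_cast Finset.card_le_card h2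

theorem sum_joint_ctr (hGL : GLTorus) (hBL : BlockLow) : ∀ c : ℝ, 0 < c → ∃ C : ℝ, 0 < C ∧
    ∀ (N : ℕ) (q : I), 64 ≤ N → SReg c N q →
      ∑ f ∈ (tSites N).erase (cE N), Pr q (Joint (WindS N) (cE N) f) ≤
        C * ((N : ℝ) ^ 2 * sT q N ^ 2) := by
  classical
  intro c hc
  obtain ⟨C3, hC3, h3⟩ := a4_le_sT hGL hBL c hc
  obtain ⟨C4, hC4, h4⟩ := sum_a4 hGL hBL c hc
  obtain ⟨C1, hC1, h1⟩ := hGL c hc
  obtain ⟨m, hmdef⟩ : ∃ m : ℝ, m = c / 10 := ⟨_, rfl⟩
  have hm : 0 < m := by rw [hmdef]; positivity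
  refine ⟨225 * (1 / m) * ((1 / m) ^ 9 * C4) + 960 * C1 * C4 + C3 ^ 2, by positivity,
    fun N q hN hR => ?_⟩
  obtain ⟨hq1, hq2⟩ := sreg_mem hc (by omega) hR
  rw [← hmdef] at hq1 hq2
  have hs := sT_nonneg q N
  have hNpos : (0 : ℝ) < N := by exact_mod_cast (by omega : 0 < N)
  have hN1 : 1 ≤ N := by omega
  have hsum := h4 N q hN hR
  -- lower bound of the influence
  have hlow : 1 ≤ (1 / m) ^ 9 * C4 * ((N : ℝ) ^ 2 * sT q N) := by
    have k1 := a4_one q hm.le hq2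
    have k2 : a4 q 1 ≤ ∑ t ∈ Finset.Icc 1 N, (t : ℝ) * a4 q t := by
      have k3 := Finset.single_le_sum (f := fun t : ℕ => (t : ℝ) * a4 q t)
        (fun t _ => mul_nonneg (Nat.cast_nonneg t) (a4_nonneg q t))
        (Finset.mem_Icc.2 ⟨le_rfl, hN1⟩ : 1 ∈ Finset.Icc 1 N)
      simpa using k3
    have k4 : m ^ 9 ≤ C4 * ((N : ℝ) ^ 2 * sT q N) := k1.trans (k2.trans hsum)
    calc (1 : ℝ) = (1 / m) ^ 9 * m ^ 9 := by rw [← mul_pow, one_div_mul_cancel hm.ne', one_pow]
      _ ≤ (1 / m) ^ 9 * (C4 * ((N : ℝ) ^ 2 * sT q N)) :=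
          mul_le_mul_of_nonneg_left k4 (by positivity)
      _ = _ := by ring
  -- bound of one term
  have hterm : ∀ f ∈ (tSites N).erase (cE N), Pr q (Joint (WindS N) (cE N) f) ≤
      (if dist0 N f < 8 then 1 / m * sT q N else 0) +
      (if 8 ≤ dist0 N f then C1 * sT q N * a4 q (dist0 N f / 8) else 0) +
        C3 ^ 2 * sT q N ^ 2 := by
    intro f hf
    rw [Finset.mem_erase] at hf
    have ha := a4_nonneg q (dist0 N f / 8)
    have hC3s : 0 ≤ C3 ^ 2 * sT q N ^ 2 := by positivity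
    by_cases h8 : dist0 N f < 8
    · rw [if_pos h8, if_neg (by omega)]
      have k1 := Pr_Joint_le (localOn_WindS hN1) (incr_WindS N) (Ne.symm hf.1) q hm hq1 hq2
      have k2 : pivot q (WindS N) (cE N) = sT q N := rfl
      rw [k2] at k1
      linarith
    · rw [if_neg h8, if_pos (by omega)]
      obtain ⟨r, hr⟩ : ∃ r, r = dist0 N f / 8 := ⟨_, rfl⟩
      rw [← hr] at ha ⊢
      by_cases h64 : 64 * r ≤ N
      · have k1 := Pr_joint_near q hf.2 (by omega : 1 ≤ r)
          (by omega : 2 * r < dist0 N f) (by omega : dist0 N f + r ≤ 16 * r) (by omega)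
        have k2 := h1 N r q (by omega) h64 hR
        have k3 : a4 q r ^ 2 * Pr q (BlockPiv N (16 * r)) ≤ C1 * sT q N * a4 q r := by
          calc a4 q r ^ 2 * Pr q (BlockPiv N (16 * r))
              = a4 q r * (a4 q r * Pr q (BlockPiv N (16 * r))) := by ring
            _ ≤ a4 q r * (C1 * sT q N) := mul_le_mul_of_nonneg_left k2 ha
            _ = _ := by ring
        linarith
      · have k1 := Pr_joint_far q hf.2 (by omega : 1 ≤ N / 64)
          (by omega : 2 * (N / 64) < dist0 N f) (by omega)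
        have k2 := h3 N q hN hR
        have k3 := a4_nonneg q (N / 64)
        have k4 : a4 q (N / 64) ^ 2 ≤ (C3 * sT q N) ^ 2 := pow_le_pow_left₀ k3 k2 2
        have k5 : 0 ≤ C1 * sT q N * a4 q r := by positivity
        rw [mul_pow] at k4
        linarith
  have hsub : (tSites N).erase (cE N) ⊆ tSites N := Finset.erase_subset _ _
  have hg0 : ∀ f ∈ tSites N, f ∉ (tSites N).erase (cE N) → 0 ≤
      (if dist0 N f < 8 then 1 / m * sT q N else 0) +
      (if 8 ≤ dist0 N f then C1 * sT q N * a4 q (dist0 N f / 8) else 0) +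
        C3 ^ 2 * sT q N ^ 2 := by
    intro f _ _
    have ha := a4_nonneg q (dist0 N f / 8)
    split_ifs <;> positivity
  have p1 : ∑ f ∈ tSites N, (if dist0 N f < 8 then 1 / m * sT q N else 0) ≤
      225 * (1 / m * sT q N) := by
    rw [← Finset.sum_filter, Finset.sum_const, nsmul_eq_mul]
    exact mul_le_mul_of_nonneg_right (Sum_card_small N) (by positivity)
  have p2 : ∑ f ∈ tSites N, (if 8 ≤ dist0 N f then C1 * sT q N * a4 q (dist0 N f / 8) else 0) ≤
      960 * C1 * C4 * ((N : ℝ) ^ 2 * sT q N ^ 2) := by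
    rw [← Finset.sum_filter, ← Finset.mul_sum]
    have k1 := Sum_by_dist N (fun t => a4 q (t / 8)) (fun t => a4_nonneg q _)
    have k2 := Sum_eight N (fun t => a4 q t) (fun t => a4_nonneg q _)
    have k3 : ∑ t ∈ Finset.Icc 8 N, 8 * (t : ℝ) * a4 q (t / 8) =
        8 * ∑ t ∈ Finset.Icc 8 N, (t : ℝ) * a4 q (t / 8) := by
      rw [Finset.mul_sum]
      exact Finset.sum_congr rfl fun t _ => by ring
    have k4 : ∑ f ∈ (tSites N).filter (fun f => 8 ≤ dist0 N f), a4 q (dist0 N f / 8) ≤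
        960 * (C4 * ((N : ℝ) ^ 2 * sT q N)) := by
      refine k1.trans ?_
      rw [k3]
      linarith
    calc C1 * sT q N * ∑ f ∈ (tSites N).filter (fun f => 8 ≤ dist0 N f), a4 q (dist0 N f / 8)
        ≤ C1 * sT q N * (960 * (C4 * ((N : ℝ) ^ 2 * sT q N))) :=
          mul_le_mul_of_nonneg_left k4 (by positivity)
      _ = _ := by ring
  have p3 : ∑ _f ∈ tSites N, C3 ^ 2 * sT q N ^ 2 = C3 ^ 2 * ((N : ℝ) ^ 2 * sT q N ^ 2) := by
    rw [Finset.sum_const, nsmul_eq_mul, card_tSites]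
    ring
  have p4 : 225 * (1 / m * sT q N) ≤
      225 * (1 / m) * ((1 / m) ^ 9 * C4) * ((N : ℝ) ^ 2 * sT q N ^ 2) := by
    calc 225 * (1 / m * sT q N) = 225 * (1 / m * sT q N) * 1 := (mul_one _).symm
      _ ≤ 225 * (1 / m * sT q N) * ((1 / m) ^ 9 * C4 * ((N : ℝ) ^ 2 * sT q N)) :=
          mul_le_mul_of_nonneg_left hlow (by positivity)
      _ = _ := by ring
  calc ∑ f ∈ (tSites N).erase (cE N), Pr q (Joint (WindS N) (cE N) f)
      ≤ ∑ f ∈ (tSites N).erase (cE N), ((if dist0 N f < 8 then 1 / m * sT q N else 0) +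
        (if 8 ≤ dist0 N f then C1 * sT q N * a4 q (dist0 N f / 8) else 0) +
        C3 ^ 2 * sT q N ^ 2) := Finset.sum_le_sum hterm
    _ ≤ ∑ f ∈ tSites N, ((if dist0 N f < 8 then 1 / m * sT q N else 0) +
        (if 8 ≤ dist0 N f then C1 * sT q N * a4 q (dist0 N f / 8) else 0) +
        C3 ^ 2 * sT q N ^ 2) := Finset.sum_le_sum_of_subset_of_nonneg hsub hg0
    _ = ∑ f ∈ tSites N, (if dist0 N f < 8 then 1 / m * sT q N else 0) +
        ∑ f ∈ tSites N, (if 8 ≤ dist0 N f then C1 * sT q N * a4 q (dist0 N f / 8) else 0) +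
        ∑ _f ∈ tSites N, C3 ^ 2 * sT q N ^ 2 := by
        rw [Finset.sum_add_distrib, Finset.sum_add_distrib]
    _ ≤ 225 * (1 / m) * ((1 / m) ^ 9 * C4) * ((N : ℝ) ^ 2 * sT q N ^ 2) +
        960 * C1 * C4 * ((N : ℝ) ^ 2 * sT q N ^ 2) +
        C3 ^ 2 * ((N : ℝ) ^ 2 * sT q N ^ 2) := by
        rw [p3]
        linarith
    _ = _ := by ring

end Pool.Agent.H92.SN

end

section

/-!
# Near-critical stability of the influences
-/

set_option autoImplicit false

open MeasureTheory ProbabilityTheory unitInterval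

namespace Pool.Agent.H92.SN

open Pool.Agent.H89.Perc
open Pool.Agent.H61.NC (fill mid upd Joint PrR' dist0 PrR'_eq hasDerivAt_PrR_eq hasDerivAt_PrR' abs_second_le stability)
open Pool.Agent.H83.SK (sv sit)

theorem FT'_eq {N : ℕ} (hN : 1 ≤ N) (q : I) : FT' N q = (N : ℝ) ^ 2 * sT q N := by
  unfold FT'
  rw [PrR'_eq (localOn_WindS hN), sum_pivot hN]

theorem one_le_sum_a4 (hGL : GLTorus) (hBL : BlockLow) : ∀ c : ℝ, 0 < c → ∃ C : ℝ, 0 < C ∧
    ∀ (N : ℕ) (q : I), 64 ≤ N → SReg c N q → 1 ≤ C * ((N : ℝ) ^ 2 * sT q N) := by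
  intro c hc
  obtain ⟨C, hC, H⟩ := sum_a4 hGL hBL c hc
  refine ⟨C / (c / 10) ^ 9, by positivity, fun N q hN hR => ?_⟩
  have h3 := H N q hN hR
  have h4 : (1 : ℝ) * a4 q 1 ≤ ∑ t ∈ Finset.Icc 1 N, (t : ℝ) * a4 q t := by
    have := Finset.single_le_sum (f := fun t : ℕ => (t : ℝ) * a4 q t)
      (fun t _ => mul_nonneg (Nat.cast_nonneg t) (a4_nonneg q t))
      (Finset.mem_Icc.2 ⟨le_rfl, by omega⟩ : 1 ∈ Finset.Icc 1 N)
    simpa using this
  have h5 := a4_one q (m := c / 10) (by positivity) (sreg_mem hc (by omega) hR).2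
  have hm : 0 < (c / 10) ^ 9 := by positivity
  rw [div_mul_eq_mul_div, le_div_iff₀ hm]
  linarith

theorem sT_pos (hGL : GLTorus) (hBL : BlockLow) {c : ℝ} (hc : 0 < c) {N : ℕ} {q : I}
    (hN : 64 ≤ N) (hR : SReg c N q) : 0 < sT q N := by
  obtain ⟨C, hC, H⟩ := one_le_sum_a4 hGL hBL c hc
  have h3 := H N q hN hR
  by_contra h
  push Not at h
  have h0 : (N : ℝ) ^ 2 * sT q N ≤ 0 := mul_nonpos_of_nonneg_of_nonpos (by positivity) h
  have := mul_nonpos_of_nonneg_of_nonpos hC.le h0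
  linarith

theorem FT'_pos (hGL : GLTorus) (hBL : BlockLow) {c : ℝ} (hc : 0 < c) {N : ℕ} {q : I}
    (hN : 64 ≤ N) (hR : SReg c N q) : 0 < FT' N q := by
  rw [FT'_eq (by omega)]
  have h1 := sT_pos hGL hBL hc hN hR
  have h2 : (0 : ℝ) < N := by exact_mod_cast (by omega : 0 < N)
  positivity

theorem second_le (hGL : GLTorus) (hBL : BlockLow) : ∀ c : ℝ, 0 < c → ∃ C : ℝ, 0 < C ∧
    ∀ (N : ℕ) (q : I), 64 ≤ N → SReg c N q →
      ∑ e ∈ tSites N, ∑ f ∈ (tSites N).erase e, Pr q (Joint (WindS N) e f) ≤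
        C * FT' N q ^ 2 := by
  intro c hc
  obtain ⟨C, hC, H⟩ := sum_joint_ctr hGL hBL c hc
  refine ⟨C, hC, fun N q hN hR => ?_⟩
  have hN1 : 1 ≤ N := by omega
  rw [sum_joint hN1, FT'_eq hN1]
  have ha := H N q hN hR
  have hN2 : (0 : ℝ) ≤ (N : ℝ) ^ 2 := by positivity
  calc (N : ℝ) ^ 2 * ∑ f ∈ (tSites N).erase (cE N), Pr q (Joint (WindS N) (cE N) f)
      ≤ (N : ℝ) ^ 2 * (C * ((N : ℝ) ^ 2 * sT q N ^ 2)) := mul_le_mul_of_nonneg_left ha hN2
    _ = C * ((N : ℝ) ^ 2 * sT q N) ^ 2 := by ring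

theorem near_critical (hGL : GLTorus) (hBL : BlockLow) : ∀ c : ℝ, 0 < c → ∃ K : ℝ, 0 < K ∧
    ∀ (N : ℕ) (q₀ q₁ : I), 64 ≤ N → q₀ ≤ q₁ → (∀ q : I, q₀ ≤ q → q ≤ q₁ → SReg c N q) →
      FT' N q₁ ≤ K * FT' N q₀ ∧ FT' N q₀ ≤ K * FT' N q₁ := by
  intro c hc
  obtain ⟨C, hC, H⟩ := second_le hGL hBL c hc
  refine ⟨Real.exp C, Real.exp_pos _, fun N q₀ q₁ hN h01 hR => ?_⟩
  have hN1 : 1 ≤ N := by omega
  have hloc := localOn_WindS hN1
  have hmem : ∀ x ∈ Set.Icc (q₀ : ℝ) q₁, ∃ q : I, (q : ℝ) = x ∧ q₀ ≤ q ∧ q ≤ q₁ := by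
    intro x hx
    exact ⟨⟨x, q₀.2.1.trans hx.1, hx.2.trans q₁.2.2⟩, rfl, hx.1, hx.2⟩
  have key := stability (F := PrR (tSites N) (WindS N)) (F' := PrR' (tSites N) (WindS N))
    (F'' := fun x => if hx : x ∈ I then
      ∑ e ∈ tSites N, ∑ f ∈ tSites N, (pivot ⟨x, hx⟩ (upd (WindS N) e true) f -
        pivot ⟨x, hx⟩ (upd (WindS N) e false) f) else 0)
    (a := q₀) (b := q₁) (K := C) h01 hC.le ?_ ?_ ?_ ?_ ?_
  · exact key
  · intro x hx
    obtain ⟨q, rfl, hq0, hq1⟩ := hmem x hx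
    exact hasDerivAt_PrR_eq hloc q
  · intro x hx
    obtain ⟨q, rfl, hq0, hq1⟩ := hmem x hx
    have := hasDerivAt_PrR' hloc q
    simp only [Subtype.coe_prop, dite_true, Subtype.coe_eta]
    exact this
  · intro x hx
    obtain ⟨q, rfl, hq0, hq1⟩ := hmem x hx
    exact FT'_pos hGL hBL hc hN (hR q hq0 hq1)
  · intro x hx
    obtain ⟨q, rfl, hq0, hq1⟩ := hmem x hx
    simp only [Subtype.coe_prop, dite_true, Subtype.coe_eta]
    refine (abs_second_le hloc (incr_WindS N) q).trans ?_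
    exact H N q hN (hR q hq0 hq1)
  · intro x hx
    obtain ⟨q, rfl, hq0, hq1⟩ := hmem x hx
    rw [← Pr_eq_PrR hloc]
    exact ⟨Pr_nonneg, Pr_le_one⟩

theorem FT'_le {N r : ℕ} (q : I) (hr : 1 ≤ r) (h : 2 * r + 2 ≤ N) :
    FT' N q ≤ (N : ℝ) ^ 2 * a4 q r := by
  rw [FT'_eq (by omega)]
  exact mul_le_mul_of_nonneg_left (pivot_le_a4 q (cE_mem (by omega)) hr h) (by positivity)

theorem le_FT' (hGL : GLTorus) (hBL : BlockLow) : ∀ c : ℝ, 0 < c → ∃ C : ℝ, 0 < C ∧
    ∀ (N : ℕ) (q : I), 64 ≤ N → SReg c N q → (N : ℝ) ^ 2 * a4 q (N / 64) ≤ C * FT' N q := by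
  intro c hc
  obtain ⟨C, hC, H⟩ := a4_le_sT hGL hBL c hc
  refine ⟨C, hC, fun N q hN hR => ?_⟩
  rw [FT'_eq (by omega)]
  calc (N : ℝ) ^ 2 * a4 q (N / 64) ≤ (N : ℝ) ^ 2 * (C * sT q N) :=
        mul_le_mul_of_nonneg_left (H N q hN hR) (by positivity)
    _ = _ := by ring

theorem window (hGL : GLTorus) (hBL : BlockLow) : ∀ c : ℝ, 0 < c → ∃ K : ℝ, 0 < K ∧
    ∀ (N : ℕ) (q₀ q₁ : I), 64 ≤ N → q₀ ≤ q₁ → (∀ q : I, q₀ ≤ q → q ≤ q₁ → SReg c N q) →
      ((q₁ : ℝ) - q₀) * FT' N q₀ ≤ K * (Pr q₁ (WindS N) - Pr q₀ (WindS N)) ∧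
      Pr q₁ (WindS N) - Pr q₀ (WindS N) ≤ K * (((q₁ : ℝ) - q₀) * FT' N q₀) := by
  intro c hc
  obtain ⟨K, hK, H⟩ := near_critical hGL hBL c hc
  refine ⟨K, hK, fun N q₀ q₁ hN h01 hR => ?_⟩
  have hN1 : 1 ≤ N := by omega
  have hloc := localOn_WindS hN1
  have h01' : (q₀ : ℝ) ≤ q₁ := h01
  have hder : ∀ q : I, q₀ ≤ q → q ≤ q₁ →
      HasDerivAt (PrR (tSites N) (WindS N)) (FT' N q) (q : ℝ) := by
    intro q _ _
    exact hasDerivAt_PrR_eq hloc q
  have hst : ∀ q : I, q₀ ≤ q → q ≤ q₁ → FT' N q ≤ K * FT' N q₀ ∧ FT' N q₀ ≤ K * FT' N q := by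
    intro q hq0 hq1
    exact H N q₀ q hN hq0 fun q' h2 h3 => hR q' h2 (h3.trans hq1)
  rw [Pr_eq_PrR hloc, Pr_eq_PrR hloc]
  have hmem : ∀ x ∈ Set.Icc (q₀ : ℝ) q₁, ∃ q : I, (q : ℝ) = x ∧ q₀ ≤ q ∧ q ≤ q₁ := by
    intro x hx
    exact ⟨⟨x, q₀.2.1.trans hx.1, hx.2.trans q₁.2.2⟩, rfl, hx.1, hx.2⟩
  have hcont : ContinuousOn (PrR (tSites N) (WindS N)) (Set.Icc (q₀ : ℝ) q₁) := by
    intro x hx
    obtain ⟨q, rfl, hq0, hq1⟩ := hmem x hx
    exact (hder q hq0 hq1).continuousAt.continuousWithinAt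
  constructor
  · have h2 := Convex.mul_sub_le_image_sub_of_le_deriv (convex_Icc (q₀ : ℝ) q₁)
      (f := PrR (tSites N) (WindS N)) hcont ?_ (C := FT' N q₀ / K) ?_ (q₀ : ℝ) ⟨le_rfl, h01'⟩
      (q₁ : ℝ) ⟨h01', le_rfl⟩ h01'
    · calc ((q₁ : ℝ) - q₀) * FT' N q₀ = K * (FT' N q₀ / K * ((q₁ : ℝ) - q₀)) := by
            field_simp
        _ ≤ _ := mul_le_mul_of_nonneg_left h2 hK.le
    · intro x hx
      rw [interior_Icc] at hx
      obtain ⟨q, rfl, hq0, hq1⟩ := hmem x ⟨hx.1.le, hx.2.le⟩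
      exact (hder q hq0 hq1).differentiableAt.differentiableWithinAt
    · intro x hx
      rw [interior_Icc] at hx
      obtain ⟨q, rfl, hq0, hq1⟩ := hmem x ⟨hx.1.le, hx.2.le⟩
      rw [(hder q hq0 hq1).deriv, div_le_iff₀ hK]
      linarith [(hst q hq0 hq1).2]
  · have h2 := Convex.image_sub_le_mul_sub_of_deriv_le (convex_Icc (q₀ : ℝ) q₁)
      (f := PrR (tSites N) (WindS N)) hcont ?_ (C := K * FT' N q₀) ?_ (q₀ : ℝ) ⟨le_rfl, h01'⟩
      (q₁ : ℝ) ⟨h01', le_rfl⟩ h01'
    · refine h2.trans (le_of_eq (by ring))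
    · intro x hx
      rw [interior_Icc] at hx
      obtain ⟨q, rfl, hq0, hq1⟩ := hmem x ⟨hx.1.le, hx.2.le⟩
      exact (hder q hq0 hq1).differentiableAt.differentiableWithinAt
    · intro x hx
      rw [interior_Icc] at hx
      obtain ⟨q, rfl, hq0, hq1⟩ := hmem x ⟨hx.1.le, hx.2.le⟩
      rw [(hder q hq0 hq1).deriv]
      exact (hst q hq0 hq1).1

end Pool.Agent.H92.SN

end

section

/-!
# Scaling relations for the four-arm probability
-/

set_option autoImplicit false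

open MeasureTheory ProbabilityTheory unitInterval

namespace Pool.Agent.H92.SN

open Pool.Agent.H89.Perc
open Pool.Agent.H61.NC (fill mid upd Joint PrR' dist0)
open Pool.Agent.H83.SK (sv sit)

/-- Scale relation, upper bound, at all densities of the interval. -/
theorem scale_upper' (hGL : GLTorus) (hBL : BlockLow) : ∀ c : ℝ, 0 < c → ∃ C : ℝ, 0 < C ∧
    ∀ (N : ℕ) (q₀ q₁ q : I), 64 ≤ N → q₀ ≤ q → q ≤ q₁ →
      (∀ q : I, q₀ ≤ q → q ≤ q₁ → SReg c N q) →
      ((q₁ : ℝ) - q₀) * ((N : ℝ) ^ 2 * a4 q (N / 64)) ≤ C := by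
  intro c hc
  obtain ⟨C, hC, H⟩ := le_FT' hGL hBL c hc
  obtain ⟨K, hK, HK⟩ := window hGL hBL c hc
  obtain ⟨L, hL, HL⟩ := near_critical hGL hBL c hc
  refine ⟨C * L * K, by positivity, fun N q₀ q₁ q hN h0 h1 hR => ?_⟩
  have h2 := H N q hN (hR q h0 h1)
  have h3 := (HK N q₀ q₁ hN (h0.trans h1) hR).1
  have h6 := (HL N q₀ q hN h0 fun q' h7 h8 => hR q' h7 (h8.trans h1)).1
  have h4 : Pr q₁ (WindS N) - Pr q₀ (WindS N) ≤ 1 := by
    have ha : Pr q₁ (WindS N) ≤ 1 := Pr_le_one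
    have hb : 0 ≤ Pr q₀ (WindS N) := Pr_nonneg
    linarith
  have h5 : (0 : ℝ) ≤ (q₁ : ℝ) - q₀ := sub_nonneg.2 (h0.trans h1)
  calc ((q₁ : ℝ) - q₀) * ((N : ℝ) ^ 2 * a4 q (N / 64))
      ≤ ((q₁ : ℝ) - q₀) * (C * (L * FT' N q₀)) :=
        mul_le_mul_of_nonneg_left (h2.trans (mul_le_mul_of_nonneg_left h6 hC.le)) h5
    _ = C * L * (((q₁ : ℝ) - q₀) * FT' N q₀) := by ring
    _ ≤ C * L * (K * (Pr q₁ (WindS N) - Pr q₀ (WindS N))) :=
        mul_le_mul_of_nonneg_left h3 (by positivity)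
    _ ≤ C * L * (K * 1) := by gcongr
    _ = C * L * K := by ring

/-- Scale relation, lower bound, at all densities of the interval. -/
theorem scale_lower' (hGL : GLTorus) (hBL : BlockLow) : ∀ c : ℝ, 0 < c → ∃ C : ℝ, 0 < C ∧
    ∀ (N r : ℕ) (q₀ q₁ q : I), 64 ≤ N → 1 ≤ r → 2 * r + 2 ≤ N → q₀ ≤ q → q ≤ q₁ →
      (∀ q : I, q₀ ≤ q → q ≤ q₁ → SReg c N q) →
      Pr q₁ (WindS N) - Pr q₀ (WindS N) ≤ C * (((q₁ : ℝ) - q₀) * ((N : ℝ) ^ 2 * a4 q r)) := by
  intro c hc
  obtain ⟨K, hK, HK⟩ := window hGL hBL c hc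
  obtain ⟨L, hL, HL⟩ := near_critical hGL hBL c hc
  refine ⟨K * L, by positivity, fun N r q₀ q₁ q hN hr hrN h0 h1 hR => ?_⟩
  have h2 := FT'_le (N := N) (r := r) q hr hrN
  have h3 := (HK N q₀ q₁ hN (h0.trans h1) hR).2
  have h6 := (HL N q₀ q hN h0 fun q' h7 h8 => hR q' h7 (h8.trans h1)).2
  have h5 : (0 : ℝ) ≤ (q₁ : ℝ) - q₀ := sub_nonneg.2 (h0.trans h1)
  calc Pr q₁ (WindS N) - Pr q₀ (WindS N) ≤ K * (((q₁ : ℝ) - q₀) * FT' N q₀) := h3
    _ ≤ K * (((q₁ : ℝ) - q₀) * (L * ((N : ℝ) ^ 2 * a4 q r))) := by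
        have h7 : FT' N q₀ ≤ L * ((N : ℝ) ^ 2 * a4 q r) :=
          h6.trans (mul_le_mul_of_nonneg_left h2 hL.le)
        gcongr
    _ = _ := by ring

/-- Growth of the four-arm probability, on one torus. -/
theorem a4_grow (hGL : GLTorus) (hBL : BlockLow) : ∀ c : ℝ, 0 < c → ∃ C δ : ℝ, 0 < C ∧ 0 < δ ∧
    δ ≤ 1 ∧ ∀ (r N : ℕ) (q : I), 1 ≤ r → 64 * r ≤ N → SReg c N q →
      ((r : ℝ) / N) ^ (2 - δ) * a4 q r ≤ C * a4 q (N / 2 - 1) := by
  intro c hc
  obtain ⟨C1, hC1, h1⟩ := hGL c hc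
  obtain ⟨C2, δ0, hC2, hδ0, h2⟩ := hBL c hc
  obtain ⟨δ, hδ⟩ : ∃ δ, δ = min δ0 1 := ⟨_, rfl⟩
  have hδpos : 0 < δ := by rw [hδ]; exact lt_min hδ0 one_pos
  have hδ1 : δ ≤ 1 := by rw [hδ]; exact min_le_right _ _
  have hδle : δ ≤ δ0 := by rw [hδ]; exact min_le_left _ _
  refine ⟨C1 * C2, δ, by positivity, hδpos, hδ1, fun r N q hr hrN hR => ?_⟩
  have hNpos : (0 : ℝ) < N := by exact_mod_cast (by omega : 0 < N)
  have hrpos : (0 : ℝ) < r := by exact_mod_cast hr
  have k1 := h1 N r q hr hrN hR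
  have k2 := h2 N (16 * r) q (by omega) (by omega) hR
  have ha := a4_nonneg q r
  have hx : (r : ℝ) / N ≤ ((16 * r : ℕ) : ℝ) / N := by
    apply div_le_div_of_nonneg_right _ hNpos.le
    push_cast
    linarith
  have hx1 : ((16 * r : ℕ) : ℝ) / N ≤ 1 := by
    rw [div_le_one hNpos]
    exact_mod_cast (by omega : 16 * r ≤ N)
  have hx0 : 0 < (r : ℝ) / N := by positivity
  have k3 : ((r : ℝ) / N) ^ (2 - δ) ≤ C2 * Pr q (BlockPiv N (16 * r)) := by
    calc ((r : ℝ) / N) ^ (2 - δ) ≤ (((16 * r : ℕ) : ℝ) / N) ^ (2 - δ) :=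
          Real.rpow_le_rpow hx0.le hx (by linarith)
      _ ≤ (((16 * r : ℕ) : ℝ) / N) ^ (2 - δ0) :=
          Real.rpow_le_rpow_of_exponent_ge (hx0.trans_le hx) hx1 (by linarith)
      _ ≤ _ := k2
  have k4 : sT q N ≤ a4 q (N / 2 - 1) :=
    pivot_le_a4 q (cE_mem (by omega)) (by omega) (by omega)
  calc ((r : ℝ) / N) ^ (2 - δ) * a4 q r ≤ C2 * Pr q (BlockPiv N (16 * r)) * a4 q r :=
        mul_le_mul_of_nonneg_right k3 ha
    _ = C2 * (a4 q r * Pr q (BlockPiv N (16 * r))) := by ring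
    _ ≤ C2 * (C1 * a4 q (N / 2 - 1)) :=
        mul_le_mul_of_nonneg_left (k1.trans (mul_le_mul_of_nonneg_left k4 hC1.le)) hC2.le
    _ = _ := by ring

/-- Lower regularity of the four-arm probability. -/
theorem a4_low (hGL : GLTorus) (hBL : BlockLow) : ∀ c : ℝ, 0 < c → ∃ C δ : ℝ, 0 < C ∧ 0 < δ ∧
    δ ≤ 1 ∧ ∀ (m n : ℕ) (q : I), 1 ≤ m → m ≤ n → SReg c (64 * n) q →
      a4 q m ≤ C * ((n : ℝ) / m) ^ (2 - δ) * a4 q n := by
  intro c hc
  obtain ⟨C, δ, hC, hδ, hδ1, H⟩ := a4_grow hGL hBL c hc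
  refine ⟨C * 64 ^ 2, δ, by positivity, hδ, hδ1, fun m n q hm hmn hR => ?_⟩
  have h1 := H m (64 * n) q hm (by omega) hR
  have h2 := a4_anti q (show 1 ≤ n by omega) (show n ≤ 64 * n / 2 - 1 by omega)
  have hmpos : (0 : ℝ) < m := by exact_mod_cast hm
  have hnpos : (0 : ℝ) < n := by exact_mod_cast (by omega : 0 < n)
  have ha := a4_nonneg q m
  have hb := a4_nonneg q n
  have e1 : ((m : ℝ) / ((64 * n : ℕ) : ℝ)) ^ (2 - δ) =
      (((n : ℝ) / m) ^ (2 - δ))⁻¹ * (64 ^ (2 - δ))⁻¹ := by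
    rw [← Real.inv_rpow (by positivity), ← Real.inv_rpow (by norm_num),
      ← Real.mul_rpow (by positivity) (by norm_num)]
    congr 1
    push_cast
    field_simp
  rw [e1] at h1
  have hp : (0 : ℝ) < ((n : ℝ) / m) ^ (2 - δ) := by positivity
  have h64 : (64 : ℝ) ^ (2 - δ) ≤ 64 ^ 2 := by
    rw [← Real.rpow_two]
    exact Real.rpow_le_rpow_of_exponent_le (by norm_num) (by linarith)
  have h640 : (0 : ℝ) < (64 : ℝ) ^ (2 - δ) := by positivity
  calc a4 q m = ((n : ℝ) / m) ^ (2 - δ) * 64 ^ (2 - δ) *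
        ((((n : ℝ) / m) ^ (2 - δ))⁻¹ * (64 ^ (2 - δ))⁻¹ * a4 q m) := by
        field_simp
    _ ≤ ((n : ℝ) / m) ^ (2 - δ) * 64 ^ (2 - δ) * (C * a4 q (64 * n / 2 - 1)) :=
        mul_le_mul_of_nonneg_left h1 (by positivity)
    _ ≤ ((n : ℝ) / m) ^ (2 - δ) * 64 ^ (2 - δ) * (C * a4 q n) := by gcongr
    _ ≤ ((n : ℝ) / m) ^ (2 - δ) * 64 ^ 2 * (C * a4 q n) := by gcongr
    _ = _ := by ring

/-- Upper regularity of the four-arm probability. -/
theorem a4_up (hGL : GLTorus) (hBL : BlockLow) (hBU : BlockUp) : ∀ c : ℝ, 0 < c →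
    ∃ C δ : ℝ, 0 < C ∧ 0 < δ ∧ δ ≤ 1 ∧ ∀ (m n : ℕ) (q : I), 1 ≤ m → m ≤ n →
      SReg c (64 * n) q → a4 q n ≤ C * ((m : ℝ) / n) ^ (1 + δ) * a4 q m := by
  intro c hc
  obtain ⟨C3, hC3, h3⟩ := a4_le_sT hGL hBL c hc
  obtain ⟨C2, δ0, hC2, hδ0, h2⟩ := hBU c hc
  obtain ⟨δ, hδ⟩ : ∃ δ, δ = min δ0 1 := ⟨_, rfl⟩
  have hδpos : 0 < δ := by rw [hδ]; exact lt_min hδ0 one_pos
  have hδ1 : δ ≤ 1 := by rw [hδ]; exact min_le_right _ _
  have hδle : δ ≤ δ0 := by rw [hδ]; exact min_le_left _ _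
  refine ⟨C3 * C2, δ, by positivity, hδpos, hδ1, fun m n q hm hmn hR => ?_⟩
  have hmpos : (0 : ℝ) < m := by exact_mod_cast hm
  have hnpos : (0 : ℝ) < n := by exact_mod_cast (by omega : 0 < n)
  have k1 := h3 (64 * n) q (by omega) hR
  have e64 : 64 * n / 64 = n := by omega
  rw [e64] at k1
  have k2 := sT_le_block q (N := 64 * n) (r := m) hm (by omega)
  have k3 := h2 (64 * n) m q hm (by omega) hR
  have ha := a4_nonneg q m
  have k4 : ((m : ℝ) / ((64 * n : ℕ) : ℝ)) ^ (1 + δ0) ≤ ((m : ℝ) / n) ^ (1 + δ) := by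
    have hx0 : 0 < (m : ℝ) / ((64 * n : ℕ) : ℝ) := by
      push_cast
      positivity
    have hx : (m : ℝ) / ((64 * n : ℕ) : ℝ) ≤ (m : ℝ) / n := by
      apply div_le_div_of_nonneg_left hmpos.le hnpos
      push_cast
      linarith
    have hx1 : (m : ℝ) / n ≤ 1 := by
      rw [div_le_one hnpos]
      exact_mod_cast hmn
    calc ((m : ℝ) / ((64 * n : ℕ) : ℝ)) ^ (1 + δ0) ≤ ((m : ℝ) / ((64 * n : ℕ) : ℝ)) ^ (1 + δ) :=
          Real.rpow_le_rpow_of_exponent_ge hx0 (hx.trans hx1) (by linarith)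
      _ ≤ _ := Real.rpow_le_rpow hx0.le hx (by linarith)
  calc a4 q n ≤ C3 * sT q (64 * n) := k1
    _ ≤ C3 * (a4 q m * Pr q (BlockPiv (64 * n) m)) := mul_le_mul_of_nonneg_left k2 hC3.le
    _ ≤ C3 * (a4 q m * (C2 * ((m : ℝ) / ((64 * n : ℕ) : ℝ)) ^ (1 + δ0))) := by gcongr
    _ ≤ C3 * (a4 q m * (C2 * ((m : ℝ) / n) ^ (1 + δ))) := by gcongr
    _ = _ := by ring

/-- Stability of the four-arm probability in the window. -/
theorem a4_near (hGL : GLTorus) (hBL : BlockLow) : ∀ c : ℝ, 0 < c → ∃ C : ℝ, 0 < C ∧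
    ∀ (n : ℕ) (q₀ q₁ : I), q₀ ≤ q₁ → (∀ q : I, q₀ ≤ q → q ≤ q₁ → SReg c (64 * n) q) →
      ∀ t : ℕ, 1 ≤ t → t ≤ n → a4 q₁ t ≤ C * a4 q₀ t ∧ a4 q₀ t ≤ C * a4 q₁ t := by
  intro c hc
  obtain ⟨C, hC, H⟩ := a4_le_sT hGL hBL c hc
  obtain ⟨K, hK, HK⟩ := near_critical hGL hBL c hc
  refine ⟨C * K, by positivity, fun n q₀ q₁ h01 hR t ht htn => ?_⟩
  have hR' : ∀ q : I, q₀ ≤ q → q ≤ q₁ → SReg c (64 * t) q := fun q h1 h2 =>
    sreg_anti (hR q h1 h2) (by omega)
  have e64 : 64 * t / 64 = t := by omega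
  obtain ⟨k1, k2⟩ := HK (64 * t) q₀ q₁ (by omega) h01 hR'
  rw [FT'_eq (by omega), FT'_eq (by omega)] at k1 k2
  have hpos : (0 : ℝ) < ((64 * t : ℕ) : ℝ) ^ 2 := by
    have : (0 : ℝ) < ((64 * t : ℕ) : ℝ) := by exact_mod_cast (by omega : 0 < 64 * t)
    positivity
  have k1' : sT q₁ (64 * t) ≤ K * sT q₀ (64 * t) := by
    refine le_of_mul_le_mul_left ?_ hpos
    calc _ ≤ _ := k1
      _ = _ := by ring
  have k2' : sT q₀ (64 * t) ≤ K * sT q₁ (64 * t) := by
    refine le_of_mul_le_mul_left ?_ hpos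
    calc _ ≤ _ := k2
      _ = _ := by ring
  have key : ∀ q : I, sT q (64 * t) ≤ a4 q t := fun q =>
    pivot_le_a4 q (cE_mem (by omega)) ht (by omega)
  have a1 := H (64 * t) q₁ (by omega) (hR' q₁ h01 le_rfl)
  have a0 := H (64 * t) q₀ (by omega) (hR' q₀ le_rfl h01)
  rw [e64] at a1 a0
  constructor
  · calc a4 q₁ t ≤ C * (K * a4 q₀ t) :=
        a1.trans (mul_le_mul_of_nonneg_left (k1'.trans (mul_le_mul_of_nonneg_left (key q₀) hK.le))
          hC.le)
      _ = _ := by ring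
  · calc a4 q₀ t ≤ C * (K * a4 q₁ t) :=
        a0.trans (mul_le_mul_of_nonneg_left (k2'.trans (mul_le_mul_of_nonneg_left (key q₁) hK.le))
          hC.le)
      _ = _ := by ring

/-- Sums of four-arm probabilities. -/
theorem sum_a4_le (hGL : GLTorus) (hBL : BlockLow) : ∀ c : ℝ, 0 < c → ∃ C : ℝ, 0 < C ∧
    ∀ (n : ℕ) (q : I), 1 ≤ n → SReg c (64 * n) q →
      ∑ t ∈ Finset.Icc 1 n, (t : ℝ) * a4 q t ≤ C * ((n : ℝ) ^ 2 * a4 q n) := by
  intro c hc
  obtain ⟨C, hC, H⟩ := sum_a4 hGL hBL c hc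
  refine ⟨C * 64 ^ 2, by positivity, fun n q hn hR => ?_⟩
  have h1 := H (64 * n) q (by omega) hR
  have h2 : sT q (64 * n) ≤ a4 q n := pivot_le_a4 q (cE_mem (by omega)) hn (by omega)
  have h3 : ∑ t ∈ Finset.Icc 1 n, (t : ℝ) * a4 q t ≤
      ∑ t ∈ Finset.Icc 1 (64 * n), (t : ℝ) * a4 q t :=
    Finset.sum_le_sum_of_subset_of_nonneg (Finset.Icc_subset_Icc le_rfl (by omega))
      fun t _ _ => mul_nonneg (Nat.cast_nonneg t) (a4_nonneg q t)
  calc ∑ t ∈ Finset.Icc 1 n, (t : ℝ) * a4 q t ≤ C * (((64 * n : ℕ) : ℝ) ^ 2 * sT q (64 * n)) :=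
        h3.trans h1
    _ ≤ C * (((64 * n : ℕ) : ℝ) ^ 2 * a4 q n) := by gcongr
    _ = _ := by push_cast; ring

theorem a4_one_pos {q : I} (hq : (q : ℝ) < 1) : 0 < a4 q 1 :=
  lt_of_lt_of_le (pow_pos (sub_pos.2 hq) 9) (a4_one q (sub_pos.2 hq).le le_rfl)

end Pool.Agent.H92.SN

end

section

/-!
# Uniform decay of the four-arm probability
-/

set_option autoImplicit false

open MeasureTheory ProbabilityTheory unitInterval Filter Topology

namespace Pool.Agent.H92.SN

open Pool.Agent.H89.Perc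
open Pool.Agent.H29.Sep (Circ eCirc mem_eCirc localOn_circ incr_circ circ_ring ann)
open Pool.Agent.H83.SK (sv sit)

/-- An open ring joins the arms. -/
theorem notMem_A4_of_circ {ω : Config} {s r : ℕ} (hs : 1 ≤ s) (hr : 3 * s ≤ r)
    (h : ω ∈ Circ 0 s) : ω ∉ A4 0 r := by
  rintro ⟨a, b, ha, hb, ⟨u, hu, h1⟩, ⟨u', hu', h2⟩, h3⟩
  obtain ⟨g1, g2, g3⟩ := circ_ring hs h
  have hout : ∀ u ∈ sphere (0 : Vert) r, u ∈ sphere 0 (3 * s) ∨ u ∉ ball (0 : Vert) (3 * s) := by
    rintro u ⟨hu1, hu2⟩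
    by_cases hm : u ∈ ball (0 : Vert) (3 * s)
    · left
      refine ⟨hm, ?_⟩
      rw [mem_ball] at hm
      push_cast at hm ⊢
      have : (3 * s : ℤ) ≤ r := by exact_mod_cast hr
      omega
    · exact Or.inr hm
  obtain ⟨w, hw, c1⟩ := g3 _ _ _ _ h1 (ha.mem_ball hs) (hout u hu)
  obtain ⟨w', hw', c2⟩ := g3 _ _ _ _ h2 (hb.mem_ball hs) (hout u' hu')
  have h0 : ∀ x ∈ ann (0 : Vert) s (3 * s), x ≠ 0 := by
    rintro x ⟨-, hx⟩ rfl
    exact hx self_mem_ball
  have c3 : Conn (closeV 0 ω) (ann 0 s (3 * s)) w w' := by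
    refine (g2 w hw w' hw').congr fun e k1 k2 => ?_
    simp only [closeV, h0 _ k1, h0 _ k2, ne_eq, not_false_eq_true, and_self, decide_true,
      Bool.and_true]
  have c4 : Conn (closeV 0 ω) (ball 0 r) w w' := c3.mono_set fun x hx => ball_mono 0 hr hx.1
  exact h3 ((c1.trans c4).trans c2.symm)

theorem a4_le_circ (q : I) {k r : ℕ} (hr : 3 * 4 ^ k ≤ r) {c : ℝ} (hc1 : c ≤ 1)
    (h : ∀ m, m ≤ k → c ≤ Pool.Agent.H83.SK.Pr q (Circ 0 (4 ^ m))) :
    a4 q r ≤ (1 - c) ^ (k + 1) := by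
  classical
  -- the events
  have hloc : ∀ k : ℕ, LocalOn ((Finset.range (k + 1)).biUnion fun m => eCirc 0 (4 ^ m))
      {ω | ∀ m, m ≤ k → ω ∉ Circ 0 (4 ^ m)} := by
    intro k ω ω' hω h1 m hm h2
    refine h1 m hm (localOn_circ 0 (4 ^ m) _ _ (fun e he => ?_) h2)
    exact (hω e (Finset.mem_biUnion.2 ⟨m, Finset.mem_range.2 (by omega), he⟩)).symm
  have key : ∀ k : ℕ, (∀ m, m ≤ k → c ≤ Pool.Agent.H83.SK.Pr q (Circ 0 (4 ^ m))) →
      Pool.Agent.H83.SK.Pr q {ω | ∀ m, m ≤ k → ω ∉ Circ 0 (4 ^ m)} ≤ (1 - c) ^ (k + 1) := by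
    intro k
    induction k with
    | zero =>
      intro h
      have e : {ω : Config | ∀ m, m ≤ 0 → ω ∉ Circ 0 (4 ^ m)} = (Circ 0 (4 ^ 0))ᶜ := by
        ext ω
        simp only [Set.mem_ofPred_eq, Set.mem_compl_iff]
        exact ⟨fun h => h 0 le_rfl, fun h m hm => by
          have : m = 0 := by omega
          subst this
          exact h⟩
      rw [e, Pool.Agent.H83.SK.Pr_compl (localOn_circ 0 (4 ^ 0)), zero_add, pow_one]
      linarith [h 0 le_rfl]
    | succ k ih =>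
      intro h
      have e : {ω : Config | ∀ m, m ≤ k + 1 → ω ∉ Circ 0 (4 ^ m)} =
          {ω | ∀ m, m ≤ k → ω ∉ Circ 0 (4 ^ m)} ∩ (Circ 0 (4 ^ (k + 1)))ᶜ := by
        ext ω
        simp only [Set.mem_ofPred_eq, Set.mem_inter_iff, Set.mem_compl_iff]
        constructor
        · intro h
          exact ⟨fun m hm => h m (by omega), h (k + 1) le_rfl⟩
        · rintro ⟨h1, h2⟩ m hm
          rcases Nat.lt_or_ge m (k + 1) with h3 | h3
          · exact h1 m (by omega)
          · have : m = k + 1 := by omega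
            subst this
            exact h2
      rw [e, Pool.Agent.H83.SK.Pr_inter_of_disjoint (hloc k) (localOn_circ 0 (4 ^ (k + 1))).compl,
        Pool.Agent.H83.SK.Pr_compl (localOn_circ 0 (4 ^ (k + 1))), pow_succ (1 - c)]
      · refine mul_le_mul (ih fun m hm => h m (by omega)) ?_ ?_ (pow_nonneg (by linarith) _)
        · linarith [h (k + 1) le_rfl]
        · have : Pool.Agent.H83.SK.Pr q (Circ 0 (4 ^ (k + 1))) ≤ 1 := Pool.Agent.H83.SK.Pr_le_one
          linarith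
      · refine Pool.Agent.H83.SK.disj_hull_of (S := ball 0 (4 ^ (k + 1))) ?_ ?_
        · intro e he
          obtain ⟨m, hm, hem⟩ := Finset.mem_biUnion.1 he
          rw [mem_eCirc] at hem
          have hm' : 3 * 4 ^ m ≤ 4 ^ (k + 1) := by
            have h1 : 4 ^ m ≤ 4 ^ k := Nat.pow_le_pow_right (by norm_num)
              (by have := Finset.mem_range.1 hm; omega)
            rw [pow_succ]
            omega
          exact ⟨ball_mono 0 hm' hem.1.1, ball_mono 0 hm' hem.2.1⟩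
        · intro e he
          rw [mem_eCirc] at he
          exact ⟨he.1.2, he.2.2⟩
  refine le_trans ?_ (key k h)
  refine Pool.Agent.H83.SK.Pr_mono ?_
  intro ω hω m hm hcirc
  have h4 : 1 ≤ 4 ^ m := Nat.one_le_pow _ _ (by norm_num)
  have h5 : 4 ^ m ≤ 4 ^ k := Nat.pow_le_pow_right (by norm_num) hm
  exact notMem_A4_of_circ h4 (by omega) hcirc hω

theorem A4_sub_armBox (r : ℕ) : A4 0 r ⊆ ArmBox 0 1 r := by
  rintro ω ⟨a, -, ha, -, ⟨u, hu, h1⟩, -, -⟩
  exact ⟨a, ha.mem_ball le_rfl, u, hu, h1.mono le_rfl closeV_le⟩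

theorem a4_unif {pc : I} (hpc : ∃ c : ℝ, 0 < c ∧ ∀ n, SReg c n pc) :
    ∀ ε : ℝ, 0 < ε → ∃ r : ℕ, 1 ≤ r ∧ ∀ q : I, a4 q r ≤ ε := by
  obtain ⟨c, hc, hreg⟩ := hpc
  intro ε hε
  obtain ⟨c₁, hc₁, hcirc⟩ := Pool.Agent.H83.SK.circ_lower c hc 1
  obtain ⟨C, κ, hC, hκ, harm⟩ := Pool.Agent.H83.SK.armBox_decay c hc 1
  have hcirc' : ∀ m : ℕ, c₁ ≤ Pool.Agent.H83.SK.Pr pc (Circ 0 (4 ^ m)) := fun m =>
    hcirc (4 ^ m) pc (Nat.one_le_pow _ _ (by norm_num)) (hreg _) 0 (4 ^ m)
      (Nat.one_le_pow _ _ (by norm_num)) (by omega)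
  have hc1 : c₁ ≤ 1 := (hcirc' 0).trans Pool.Agent.H83.SK.Pr_le_one
  -- the choice of the scales
  have h1 : Tendsto (fun k : ℕ => (1 - c₁) ^ (k + 1)) atTop (𝓝 0) :=
    (tendsto_pow_atTop_nhds_zero_of_lt_one (by linarith) (by linarith)).comp
      (tendsto_add_atTop_nat 1)
  obtain ⟨k, hk⟩ := (h1.eventually (gt_mem_nhds hε)).exists
  have h2 : Tendsto (fun r : ℕ => C * ((1 : ℝ) / r) ^ κ) atTop (𝓝 0) := by
    have h3 : Tendsto (fun r : ℕ => (1 : ℝ) / r) atTop (𝓝 0) := tendsto_one_div_atTop_nhds_zero_nat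
    have h4 := (h3.rpow_const (Or.inr hκ.le)).const_mul C
    rw [Real.zero_rpow hκ.ne', mul_zero] at h4
    exact h4
  obtain ⟨r, hr1, hr2⟩ := ((h2.eventually (gt_mem_nhds hε)).and
    (eventually_ge_atTop (3 * 4 ^ k))).exists
  have h4k : 1 ≤ 4 ^ k := Nat.one_le_pow _ _ (by norm_num)
  refine ⟨r, by omega, fun q => ?_⟩
  rcases le_total q pc with hq | hq
  · have h5 : a4 q r ≤ Pool.Agent.H83.SK.Pr q (ArmBox 0 1 r) :=
      Pool.Agent.H83.SK.Pr_mono (A4_sub_armBox r)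
    have h6 : Pool.Agent.H83.SK.Pr q (ArmBox 0 1 r) ≤ Pool.Agent.H83.SK.Pr pc (ArmBox 0 1 r) :=
      Pool.Agent.H83.SK.Pr_mono_param (localOn_armBox 0 1 r) (incr_armBox 0 1 r) hq
    have h7 := harm r pc (by omega) (hreg r) 0 1 r le_rfl (by omega) (by omega)
    rw [Nat.cast_one] at h7
    exact (h5.trans (h6.trans h7)).trans hr1.le
  · refine (a4_le_circ q hr2 hc1 fun m _ => ?_).trans hk.le
    exact (hcirc' m).trans
      (Pool.Agent.H83.SK.Pr_mono_param (localOn_circ 0 (4 ^ m)) (incr_circ 0 (4 ^ m)) hq)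

end Pool.Agent.H92.SN

end

section

/-!
# Pivotal sites of the connection event on the torus
-/

set_option autoImplicit false

open MeasureTheory ProbabilityTheory unitInterval

namespace Pool.Agent.H92.SN

open Pool.Agent.H89.Perc
open Pool.Agent.H61.NC (modE mid)
open Pool.Agent.H83.SK (sv sit)
open Pool.Agent.H90.AL (IsPer dT dT_self dT_comm dT_tri dT_le_half dT_le_of exists_of_dT_le notMem_of_lt modE_mem modE_eq mem_tEdges_iff src_modE conn_per isPer_per A2_of_cross A2_congr modE_mem_SR' mem_SR)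

/-! ### Events of annuli -/

/-- The sites of the torus at distance between `t` and `R` from `c`. -/
noncomputable def SRS (N : ℕ) (c : Vert) (t R : ℕ) : Finset Edge :=
  (tSites N).filter fun g => t ≤ dT N (src g) c ∧ dT N (src g) c ≤ R

lemma mem_SRS {N : ℕ} {c : Vert} {t R : ℕ} {g : Edge} :
    g ∈ SRS N c t R ↔ g ∈ tSites N ∧ t ≤ dT N (src g) c ∧ dT N (src g) c ≤ R := by
  simp only [SRS, Finset.mem_filter]

lemma localOn_A4S {N : ℕ} (hN : 1 ≤ N) (v : Vert) (r : ℕ) :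
    LocalOn (SRS N v 0 r) (A4T N v r) := by
  refine (localOn_A4T' hN v r).mono ?_
  intro g hg
  rw [Finset.mem_filter] at hg
  exact mem_SRS.2 ⟨hg.1, Nat.zero_le _, hg.2⟩

/-- Two crossing clusters of an annulus of the torus. -/
def A2S (N : ℕ) (c : Vert) (t R : ℕ) : Set Config :=
  {w | (fun g => sit (per N w) (shiftE c g)) ∈ Pool.Agent.H29.Sep.A2 t R}

lemma modE_sv_SRS' {N : ℕ} (hN : 1 ≤ N) {c u : Vert} {t R : ℕ} (ht : 1 ≤ t) (hR : t + R ≤ N)
    (h1 : u ∈ ball c R) (h2 : u ∉ ball c (t - 1)) : modE N (sv u) ∈ SRS N c t R := by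
  have h3 := modE_mem_SR' hN ht hR (e := sv u) h1 h2
  rw [mem_SR, mem_tEdges_iff] at h3
  rw [mem_SRS, mem_tSites]
  exact ⟨⟨h3.1.1, h3.1.2, rfl⟩, h3.2⟩

lemma dom_shift {c u : Vert} {t R : ℕ} (h : u ∈ Pool.Agent.H29.Sep.dom t R) :
    (u.1 + c.1, u.2 + c.2) ∈ ball c R ∧ (u.1 + c.1, u.2 + c.2) ∉ ball c (t - 1) := by
  constructor
  · have := h.1
    simp only [mem_ball, Prod.fst_zero, Prod.snd_zero] at this ⊢
    omega
  · intro h'
    apply h.2
    simp only [mem_ball, Prod.fst_zero, Prod.snd_zero] at h' ⊢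
    omega

lemma src_shiftE (c : Vert) (g : Edge) : src (shiftE c g) = ((src g).1 + c.1, (src g).2 + c.2) :=
  rfl

lemma tgt_shiftE (c : Vert) (g : Edge) :
    tgt (shiftE c g) = ((tgt g).1 + c.1, (tgt g).2 + c.2) := by
  obtain ⟨x, y, t⟩ := g
  cases t
  · simp only [tgt, shiftE]
    ext <;> (simp; try ring)
  · simp only [tgt, shiftE]
    ext <;> (simp; try ring)

lemma localOn_A2S {N : ℕ} (hN : 1 ≤ N) (c : Vert) {t R : ℕ} (ht : 1 ≤ t) (hR : t + R ≤ N) :
    LocalOn (SRS N c t R) (A2S N c t R) := by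
  intro w w' h hw
  refine A2_congr (fun e h1 h2 => ?_) hw
  obtain ⟨k1, k2⟩ := dom_shift (c := c) h1
  obtain ⟨k3, k4⟩ := dom_shift (c := c) h2
  simp only [sit]
  rw [per_sv, per_sv, per_sv, per_sv, src_shiftE, tgt_shiftE,
    h _ (modE_sv_SRS' hN ht hR k1 k2), h _ (modE_sv_SRS' hN ht hR k3 k4)]

lemma localOn_sitA2 (t R : ℕ) :
    LocalOn (sBall 0 R) {w | sit w ∈ Pool.Agent.H29.Sep.A2 t R} := by
  intro w w' h hw
  exact A2_congr (fun e h1 h2 => sit_congr_ball h h1.1 h2.1) hw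

lemma Pr_A2S (q : I) {N : ℕ} (c : Vert) {t R : ℕ} (hR : 2 * R < N) :
    Pr q (A2S N c t R) = Pool.Agent.H83.SK.Pr q (Pool.Agent.H29.Sep.A2 t R) := by
  have hinj : Set.InjOn (fun g : Edge => modE N (shiftE c g)) (sBall 0 R) := by
    intro e he e' he' hee
    have key : ∀ e, e ∈ sBall 0 R → shiftE c e ∈ sBall c R := by
      intro e he
      rw [mem_sBall, mem_ball] at he ⊢
      simp only [Prod.fst_zero, Prod.snd_zero] at he
      refine ⟨?_, he.2⟩
      rw [src_shiftE]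
      simp only
      omega
    exact shiftE_injective c (modE_injOn_sBall c hR (key e he) (key e' he') hee)
  unfold Pool.Agent.H83.SK.Pr
  rw [← Pr_comp (localOn_sitA2 t R) hinj]
  congr 1
  ext w
  simp only [A2S, Set.mem_ofPred_eq]
  rw [← sit_shiftE]
  exact Iff.rfl

/-! ### Pivotal sites -/

/-- The periodic configuration with the middle site closed. -/
def cfgS (N : ℕ) (w : Config) : Config := sit (per N (shut (cV N) w))

lemma isPer_cfgS (N : ℕ) (w : Config) : IsPer N (cfgS N w) := isPer_sit (isPer_per N _)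

/-- The site `x` is pivotal. -/
def PivS (N i : ℕ) (x : Vert) (w : Config) : Prop :=
  Function.update w (sv x) true ∈ DT N i ∧ Function.update w (sv x) false ∉ DT N i

lemma PivS.ne {N i : ℕ} {x : Vert} {w : Config} (h : PivS N i x w) : x ≠ cV N := by
  rintro rfl
  apply h.2
  have h1 := h.1
  unfold DT shut at h1 ⊢
  simp only [Set.mem_ofPred_eq, Function.update_idem] at h1 ⊢
  exact h1

lemma cfgS_update {N : ℕ} {x : Vert} (hx : x ≠ cV N) (w : Config) (b : Bool) :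
    cfgS N (Function.update w (sv x) b) =
      sit (per N (Function.update (shut (cV N) w) (sv x) b)) := by
  unfold cfgS shut
  rw [Function.update_comm (sv_ne hx.symm)]

lemma PivS.add {N i : ℕ} {x : Vert} (hx : sv x ∈ tSites N) {w : Config} (h : PivS N i x w) :
    AddSite N x (cfgS N (Function.update w (sv x) false))
      (cfgS N (Function.update w (sv x) true)) := by
  rw [cfgS_update h.ne, cfgS_update h.ne]
  exact addSite_sit hx _

lemma PivS.conn {N i : ℕ} {x : Vert} {w : Config} (h : PivS N i x w) :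
    ∃ j < i, (∃ a b : ℤ, Conn (cfgS N (Function.update w (sv x) true)) Set.univ (nb (cV N) j)
      ((nb (cV N) i).1 + a * N, (nb (cV N) i).2 + b * N)) ∧
    ∀ a b : ℤ, ¬ Conn (cfgS N (Function.update w (sv x) false)) Set.univ (nb (cV N) j)
      ((nb (cV N) i).1 + a * N, (nb (cV N) i).2 + b * N) := by
  obtain ⟨j, hj, a, b, hc⟩ := h.1
  exact ⟨j, hj, ⟨a, b, hc⟩, fun a b hc' => h.2 ⟨j, hj, a, b, hc'⟩⟩

lemma dT_nb {N : ℕ} (hN : 1 ≤ N) {u v : Vert} (h : Nb v u) : dT N u v ≤ 1 := by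
  refine dT_le_of hN 0 0 ?_
  simpa using h.mem_ball (r := 1) le_rfl

lemma dT_shift {N : ℕ} (hN : 1 ≤ N) (u v : Vert) (a b : ℤ) :
    dT N (u.1 + a * N, u.2 + b * N) v = dT N u v := by
  apply le_antisymm
  · obtain ⟨k, l, h⟩ := exists_of_dT_le (N := N) (u := u) (v := v) le_rfl
    refine dT_le_of hN (k + a) (l + b) ?_
    have e : (((u.1 + a * N) - (k + a) * N, (u.2 + b * N) - (l + b) * N) : Vert) =
        (u.1 - k * N, u.2 - l * N) := by
      ext <;> (simp only; ring)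
    simp only
    rw [e]
    exact h
  · obtain ⟨k, l, h⟩ := exists_of_dT_le (N := N)
      (u := (u.1 + a * N, u.2 + b * N)) (v := v) le_rfl
    refine dT_le_of hN (k - a) (l - b) ?_
    have e : (((u.1 + a * N) - k * N, (u.2 + b * N) - l * N) : Vert) =
        (u.1 - (k - a) * N, u.2 - (l - b) * N) := by
      ext <;> (simp only; ring)
    simp only at h
    rw [e] at h
    exact h

lemma ne_of_dT {N : ℕ} (hN : 1 ≤ N) {u x : Vert} (h : 0 < dT N u x) (a b : ℤ) :
    u ≠ (x.1 + a * N, x.2 + b * N) := by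
  rintro rfl
  rw [dT_shift hN, dT_self] at h
  omega

/-- The neighbours of the middle site are joined to neighbours of the pivotal site. -/
lemma PivS.touch {N i : ℕ} (hN : 1 ≤ N) {x : Vert} (hx : sv x ∈ tSites N) {w : Config}
    (h : PivS N i x w) (hd : 1 < dT N x (cV N)) :
    ∃ j < i, (∀ a b : ℤ, ¬ Conn (cfgS N (Function.update w (sv x) false)) Set.univ
        (nb (cV N) j) ((nb (cV N) i).1 + a * N, (nb (cV N) i).2 + b * N)) ∧
      (∃ (p : Vert) (a b : ℤ), Nb x p ∧ Conn (cfgS N (Function.update w (sv x) false)) Set.univ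
        (nb (cV N) j) (p.1 + a * N, p.2 + b * N)) ∧
      ∃ (p : Vert) (a b : ℤ), Nb x p ∧ Conn (cfgS N (Function.update w (sv x) false)) Set.univ
        (nb (cV N) i) (p.1 + a * N, p.2 + b * N) := by
  obtain ⟨j, hj, ⟨a, b, h1⟩, h0⟩ := h.conn
  have hfar : ∀ k, 0 < dT N (nb (cV N) k) x := by
    intro k
    have h2 := dT_nb hN (nb_Nb (cV N) k)
    have h3 := dT_tri hN x (nb (cV N) k) (cV N)
    rw [dT_comm hN x (nb (cV N) k)] at h3
    omega
  refine ⟨j, hj, h0, ?_, ?_⟩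
  · exact touch_of_addSite (h.add hx) (fun a b => ne_of_dT hN (hfar j) a b) h1 (h0 a b)
  · have hY : ∀ a' b' : ℤ, (((nb (cV N) i).1 + a * N, (nb (cV N) i).2 + b * N) : Vert) ≠
        (x.1 + a' * N, x.2 + b' * N) := by
      intro a' b'
      refine ne_of_dT hN ?_ a' b'
      rw [dT_shift hN]
      exact hfar i
    obtain ⟨p, a', b', hp, h2⟩ := touch_of_addSite (h.add hx) hY h1.symm
      (fun hc => h0 a b hc.symm)
    refine ⟨p, a' - a, b' - b, hp, ?_⟩
    have h3 := conn_per (isPer_cfgS N _) (-a) (-b) h2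
    have e1 : ((((nb (cV N) i).1 + a * N) + -a * N, ((nb (cV N) i).2 + b * N) + -b * N) : Vert) =
        nb (cV N) i := by
      ext <;> (simp only; ring)
    have e2 : (((p.1 + a' * N) + -a * N, (p.2 + b' * N) + -b * N) : Vert) =
        (p.1 + (a' - a) * N, p.2 + (b' - b) * N) := by
      ext <;> (simp only; ring)
    simp only at h3
    rw [e1, e2] at h3
    exact h3

/-- Changing a site far from `v`. -/
lemma a4S_update {N : ℕ} (hN : 1 ≤ N) {v x : Vert} {r : ℕ} {b : Bool} {w : Config}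
    (h : r < dT N x v) : Function.update w (sv x) b ∈ A4T N v r ↔ w ∈ A4T N v r := by
  have key : ∀ e ∈ SRS N v 0 r, Function.update w (sv x) b e = w e := by
    intro e he
    rw [Function.update_of_ne]
    rintro rfl
    rw [mem_SRS, src_sv] at he
    omega
  exact ⟨localOn_A4S hN v r _ _ key, localOn_A4S hN v r _ _ fun e he => (key e he).symm⟩

/-- Four arms of the pivotal site. -/
theorem PivS.a4_self {N i : ℕ} {x : Vert} (hx : sv x ∈ tSites N) {w : Config}
    (h : PivS N i x w) {r : ℕ} (hr : 1 ≤ r) (hN : 2 * r + 2 ≤ N)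
    (hd : r + 1 < dT N (cV N) x) : w ∈ A4T N x r := by
  have hN1 : 1 ≤ N := by omega
  obtain ⟨j, hj, ⟨a, b, h1⟩, h0⟩ := h.conn
  by_contra hcon
  have h2 : shut (cV N) w ∉ A4T N x r := by
    intro h3
    exact hcon ((a4S_update hN1 (by omega)).1 h3)
  have h3 := noFour_of_notMem hx (by omega) h2
  rw [← cfgS_update h.ne, ← cfgS_update h.ne] at h3
  have hfar : ∀ k, r < dT N (nb (cV N) k) x := by
    intro k
    have h2 := dT_nb hN1 (nb_Nb (cV N) k)
    have h3 := dT_tri hN1 (cV N) (nb (cV N) k) x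
    rw [dT_comm hN1 (cV N) (nb (cV N) k)] at h3
    omega
  refine h0 a b (conn_of_noFour hr hN (h.add hx) h3 ?_ ?_ h1)
  · exact fun a b => notMem_of_lt hN1 (hfar j) a b
  · intro a' b'
    refine notMem_of_lt hN1 ?_ a' b'
    rw [dT_shift hN1]
    exact hfar i

/-- Four arms of the middle site. -/
theorem PivS.a4_ctr {N i : ℕ} {x : Vert} (hx : sv x ∈ tSites N) {w : Config}
    (h : PivS N i x w) {r : ℕ} (hr : 1 ≤ r) (hN : 2 * r + 2 ≤ N)
    (hd : r + 1 < dT N x (cV N)) : w ∈ A4T N (cV N) r := by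
  have hN1 : 1 ≤ N := by omega
  have hcm : sv (cV N) ∈ tSites N := by rw [sv_cV]; exact cE_mem hN1
  obtain ⟨j, hj, h0, ⟨p, a, b, hp, t1⟩, ⟨p', a', b', hp', t2⟩⟩ := h.touch hN1 hx (by omega)
  -- the configuration in the ball
  have hball : ∀ g : Edge, src g ∈ ball (cV N) r → tgt g ∈ ball (cV N) r →
      cfgS N (Function.update w (sv x) false) g = closeV (cV N) (sit (per N w)) g := by
    intro g h1 h2
    unfold cfgS shut
    rw [sit_per_ball (by omega) hcm _ h1 h2]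
    refine closeV_congr ?_
    have key : ∀ u : Vert, u ∈ ball (cV N) r →
        per N (Function.update w (sv x) false) (sv u) = per N w (sv u) := by
      intro u hu
      rw [per_sv, per_sv, Function.update_of_ne]
      intro h3
      rw [modE_eq_iff hx] at h3
      obtain ⟨k, l, rfl⟩ := h3
      have h4 : dT N (x.1 + k * N, x.2 + l * N) (cV N) ≤ r :=
        dT_le_of hN1 0 0 (by simpa using hu)
      rw [dT_shift hN1] at h4
      omega
    simp only [sit]
    rw [key _ h1, key _ h2]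
  have harm : ∀ (k : ℕ) (p : Vert) (a b : ℤ), Nb x p →
      Conn (cfgS N (Function.update w (sv x) false)) Set.univ (nb (cV N) k)
        (p.1 + a * N, p.2 + b * N) →
      ∃ u ∈ sphere (cV N) r, Conn (closeV (cV N) (sit (per N w))) (ball (cV N) r)
        (nb (cV N) k) u := by
    intro k p a b hp t
    have hout : (p.1 + a * N, p.2 + b * N) ∉ ball (cV N) r := by
      intro h3
      have h4 : dT N (p.1 + a * N, p.2 + b * N) (cV N) ≤ r :=
        dT_le_of hN1 0 0 (by simpa using h3)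
      rw [dT_shift hN1] at h4
      have h5 := dT_nb hN1 hp
      have h6 := dT_tri hN1 x p (cV N)
      rw [dT_comm hN1 x p] at h6
      omega
    obtain ⟨u, hu, hc⟩ := t.to_sphere ((nb_Nb (cV N) k).mem_ball hr) (Or.inl hout)
    exact ⟨u, hu, (hc.mono_set Set.inter_subset_right).congr hball⟩
  refine ⟨nb (cV N) j, nb (cV N) i, nb_Nb _ j, nb_Nb _ i, harm j p a b hp t1,
    harm i p' a' b' hp' t2, fun hcon => h0 0 0 ?_⟩
  simp only [zero_mul, add_zero]
  exact (hcon.congr fun g g1 g2 => (hball g g1 g2).symm).mono_set (Set.subset_univ _)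

/-- Two crossing clusters of an annulus which separates `x` from the middle site. -/
theorem PivS.a2 {N i : ℕ} {x : Vert} (hx : sv x ∈ tSites N) {w : Config} (h : PivS N i x w)
    {c : Vert} {t R : ℕ} (ht : 1 ≤ t) (htR : t ≤ R) (hR : 2 * R < N)
    (hd : (dT N x c + 1 ≤ t ∧ R + 1 < dT N (cV N) c) ∨
      (dT N (cV N) c + 1 ≤ t ∧ R + 1 < dT N x c)) : w ∈ A2S N c t R := by
  have hN1 : 1 ≤ N := by omega
  have hcm : sv (cV N) ∈ tSites N := by rw [sv_cV]; exact cE_mem hN1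
  have hxc : 1 < dT N x (cV N) := by
    have h1 := dT_tri hN1 (cV N) x c
    have h2 := dT_tri hN1 x (cV N) c
    rw [dT_comm hN1 (cV N) x] at h1
    omega
  obtain ⟨j, hj, h0, ⟨p, a, b, hp, t1⟩, ⟨p', a', b', hp', t2⟩⟩ := h.touch hN1 hx hxc
  have hper := isPer_cfgS N (Function.update w (sv x) false)
  -- translates of vertices near `c`
  have hnear : ∀ u : Vert, dT N u c ≤ t → ∃ k l : ℤ, (u.1 - k * N, u.2 - l * N) ∈ ball c t :=
    fun u hu => exists_of_dT_le hu
  have hd1 : ∀ {y q : Vert}, Nb y q → dT N q c ≤ dT N y c + 1 := by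
    intro y q hq
    have h1 := dT_nb hN1 hq
    have h2 := dT_tri hN1 q y c
    omega
  have hd2 : ∀ {y q : Vert}, Nb y q → dT N y c ≤ dT N q c + 1 := by
    intro y q hq
    have h1 := dT_nb hN1 hq
    have h2 := dT_tri hN1 y q c
    rw [dT_comm hN1 y q] at h2
    omega
  -- the configuration in the annulus
  have hcf : ∀ g : Edge, src g ∈ Pool.Agent.H29.Sep.dom t R → tgt g ∈ Pool.Agent.H29.Sep.dom t R →
      cfgS N (Function.update w (sv x) false) (shiftE c g) = sit (per N w) (shiftE c g) := by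
    intro g h1 h2
    have key : ∀ u : Vert, u ∈ ball c R → u ∉ ball c (t - 1) →
        per N (shut (cV N) (Function.update w (sv x) false)) (sv u) = per N w (sv u) := by
      intro u hu hu'
      have h3 := modE_sv_SRS' hN1 ht (by omega) hu hu'
      rw [mem_SRS] at h3
      unfold shut
      rw [per_sv, per_sv, Function.update_of_ne, Function.update_of_ne]
      · intro h4
        rw [h4, src_sv] at h3
        rcases hd with hd | hd <;> omega
      · intro h4
        rw [h4, src_sv] at h3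
        rcases hd with hd | hd <;> omega
    obtain ⟨k1, k2⟩ := dom_shift (c := c) h1
    obtain ⟨k3, k4⟩ := dom_shift (c := c) h2
    unfold cfgS
    simp only [sit]
    rw [src_shiftE, tgt_shiftE, key _ k1 k2, key _ k3 k4]
  refine A2_congr hcf ?_
  have hsh : ∀ (u : Vert) (a b k l : ℤ), ((u.1 + a * N - (k + a) * N, u.2 + b * N - (l + b) * N) : Vert) =
      (u.1 - k * N, u.2 - l * N) := by
    intro u a b k l
    ext <;> (simp only; ring)
  rcases hd with ⟨hd3, hd4⟩ | ⟨hd3, hd4⟩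
  · -- `x` inside
    obtain ⟨k, l, hk⟩ := hnear p (by have := hd1 hp; omega)
    obtain ⟨k', l', hk'⟩ := hnear p' (by have := hd1 hp'; omega)
    have hX : R < dT N (nb (cV N) j) c := by have := hd2 (nb_Nb (cV N) j); omega
    have hY : R < dT N (nb (cV N) i) c := by have := hd2 (nb_Nb (cV N) i); omega
    refine A2_of_cross hper ht htR h0 (a := k + a) (b := l + b) (a' := k' + a') (b' := l' + b')
      ?_ (notMem_of_lt hN1 hX _ _) t1 (Conn.refl (Set.mem_univ _)) ?_
      (notMem_of_lt hN1 hY _ _) t2 (Conn.refl (Set.mem_univ _))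
    · simp only
      rw [hsh]
      exact hk
    · simp only
      rw [hsh]
      exact hk'
  · -- the middle site inside
    obtain ⟨k, l, hk⟩ := hnear (nb (cV N) j) (by have := hd1 (nb_Nb (cV N) j); omega)
    obtain ⟨k', l', hk'⟩ := hnear (nb (cV N) i) (by have := hd1 (nb_Nb (cV N) i); omega)
    have hX : R < dT N p c := by have := hd2 hp; omega
    have hY : R < dT N p' c := by have := hd2 hp'; omega
    refine A2_of_cross hper ht htR h0 hk
      (notMem_of_lt hN1 (by rw [dT_shift hN1]; exact hX) _ _) (Conn.refl (Set.mem_univ _)) t1 hk'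
      (notMem_of_lt hN1 (by rw [dT_shift hN1]; exact hY) _ _) (Conn.refl (Set.mem_univ _)) t2

end Pool.Agent.H92.SN

end

section

/-!
# Probabilities of the corridor event and of the seals; locality
-/

set_option autoImplicit false

open MeasureTheory ProbabilityTheory unitInterval

namespace Pool.Agent.H83.PST

open Pool.Agent.H89.Perc
open Pool.Agent.H61.NC (modE)
open Pool.Agent.H83.SK (sv sit sit_true RSWreg)
open Pool.Agent.H59.EX (LocS inE touch clus closeS Side T Mouth Fence dom pb grid)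
open Pool.Agent.H38.N59 (vE rv fillS Src Sep FX FY det Seal Four vE_mono sv_mem_vE)
open Pool.Agent.H26.ST (Cor glu PerInv sh TD Rel1 In glu_per)
open Pool.Agent.H92.SN (WindS tSites)

private lemma mod_eq' {N : ℕ} {x y : ℤ} (h1 : x - y < N) (h2 : y - x < N)
    (h : x % N = y % N) : x = y := by
  have hd : (N : ℤ) ∣ x - y := Int.ModEq.dvd (Int.ModEq.symm h)
  have : x - y = 0 := by
    apply Int.eq_zero_of_abs_lt_dvd hd
    rw [abs_lt]
    omega
  omega

private lemma hcross_congr {w w' : Config} {a b c d : ℤ}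
    (h : ∀ g ∈ vE (rect a b c d), w g = true → w' g = true) (hc : HCross (sit w) a b c d) :
    HCross (sit w') a b c d := by
  obtain ⟨u, v, hu, hv, hc⟩ := hc
  refine ⟨u, v, hu, hv, hc.1, Relation.ReflTransGen.mono ?_ _ _ hc.2⟩
  rintro x y ⟨hx, hy, e, hj, ho⟩
  rw [Pool.Agent.H38.N59.sit_joins hj] at ho
  exact ⟨hx, hy, e, hj, (Pool.Agent.H38.N59.sit_joins hj).2
    ⟨h _ (sv_mem_vE.2 hx) ho.1, h _ (sv_mem_vE.2 hy) ho.2⟩⟩

private lemma mem_dom {k : ℕ} {v : Vert} (h : v ∈ dom .W .E k) :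
    -(36 * (k : ℤ)) ≤ v.1 ∧ v.1 ≤ 36 * k ∧ -(32 * (k : ℤ)) ≤ v.2 ∧ v.2 ≤ 32 * k ∧
      (32 * (k : ℤ) < |v.1| → -(3 * (k : ℤ)) ≤ v.2 ∧ v.2 ≤ 3 * k) := by
  simp only [dom, T, ball, rect, Set.mem_union, Set.mem_ofPred_eq, Prod.fst_zero,
    Prod.snd_zero] at h
  push_cast at h
  rcases abs_cases v.1 with h1 | h1 <;> omega

private lemma CC_bounds {N k : ℕ} (hk : 64 ≤ k) (hN : 128 * k ≤ N) {v : Vert} (he : v ∈ CC N k) :
    -(36 * (k : ℤ)) ≤ v.1 ∧ v.1 < N - 36 * k ∧ -(3 * (k : ℤ)) ≤ v.2 ∧ v.2 ≤ 3 * k := by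
  have hN' : 128 * (k : ℤ) ≤ N := by exact_mod_cast hN
  rcases he with ⟨h1, h2⟩ | h1
  · simp only [Cor, rect, Set.mem_ofPred_eq] at h1
    omega
  · simp only [T, rect, Set.mem_ofPred_eq] at h1
    omega

theorem injOn_modE {N k : ℕ} (hk : 64 ≤ k) (hN : 128 * k ≤ N) :
    Set.InjOn (modE N) (vE (dom .W .E k ∪ CC N k)) := by
  have hN' : 128 * (k : ℤ) ≤ N := by exact_mod_cast hN
  have hk' : 64 ≤ (k : ℤ) := by exact_mod_cast hk
  have key : ∀ v ∈ dom .W .E k ∪ CC N k, -(36 * (k : ℤ)) ≤ v.1 ∧ v.1 < N - 36 * k ∧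
      -(32 * (k : ℤ)) ≤ v.2 ∧ v.2 ≤ 32 * k := by
    rintro v (he | he)
    · have := mem_dom he
      omega
    · have := CC_bounds hk hN he
      omega
  rintro ⟨x, y, t⟩ h1 ⟨x', y', t'⟩ h2 h
  have k1 := key _ h1.2
  have k2 := key _ h2.2
  simp only [src] at k1 k2
  simp only [modE, Prod.mk.injEq] at h
  obtain ⟨h3, h4, h5⟩ := h
  rw [mod_eq' (by omega) (by omega) h3, mod_eq' (by omega) (by omega) h4, h5]

theorem CC_inter {N k : ℕ} (hk : 64 ≤ k) (hN : 128 * k ≤ N) :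
    CC N k ∩ dom .W .E k ⊆ T .W k ∪ T .E k := by
  have hN' : 128 * (k : ℤ) ≤ N := by exact_mod_cast hN
  rintro v ⟨⟨h1, -⟩ | h1, h2⟩
  · have h3 := mem_dom h2
    right
    simp only [Cor, rect, Set.mem_ofPred_eq] at h1
    simp only [T, rect, Set.mem_ofPred_eq]
    omega
  · exact Or.inl h1

theorem T_sub_CC {N k : ℕ} (hk : 64 ≤ k) (hN : 128 * k ≤ N) : T .W k ∪ T .E k ⊆ CC N k := by
  have hN' : 128 * (k : ℤ) ≤ N := by exact_mod_cast hN
  have hk' : 64 ≤ (k : ℤ) := by exact_mod_cast hk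
  rintro v (h | h)
  · exact Or.inr h
  · simp only [T, rect, Set.mem_ofPred_eq] at h
    left
    simp only [Cor, rect, Set.mem_ofPred_eq]
    omega

private theorem rect_finite (a b c d : ℤ) : (rect a b c d).Finite := by
  refine Set.Finite.subset ((Set.finite_Icc a b).prod (Set.finite_Icc c d)) ?_
  rintro ⟨x, y⟩ ⟨h1, h2, h3, h4⟩
  exact ⟨⟨h1, h2⟩, ⟨h3, h4⟩⟩

theorem CC_finite (N k : ℕ) : (CC N k).Finite := by
  refine ((rect_finite (28 * k) (N - 28 * k) (-(3 * k)) (3 * k)).union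
    (rect_finite (-(36 * k)) (-(28 * k)) (-(3 * k)) (3 * k))).subset ?_
  rintro e (h | h)
  · exact Or.inl h.1
  · exact Or.inr h

private lemma glu_congr {N k : ℕ} (hN : 128 * k ≤ N) {η η' : Config}
    (h : ∀ e ∈ vE (CC N k), η e = η' e) :
    ∀ e ∈ vE (rect (28 * k) (N - 28 * k) (-(3 * k)) (3 * k)), glu N k η e = glu N k η' e := by
  have hN' : 128 * (k : ℤ) ≤ N := by exact_mod_cast hN
  rintro ⟨x, y, t⟩ he
  unfold glu
  by_cases hx : x < N - 36 * k
  · simp only [hx, if_true]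
    exact h _ ⟨he.1, Or.inl ⟨he.2, hx⟩⟩
  · simp only [hx, if_false]
    refine h _ ⟨he.1, Or.inr ?_⟩
    have h2 := he.2
    simp only [src, rect, Set.mem_ofPred_eq] at h2
    simp only [src, T, rect, Set.mem_ofPred_eq]
    omega

theorem locS_NpT {N k : ℕ} (hN : 128 * k ≤ N) : LocS (vE (CC N k)) (NpT N k) := by
  intro η η' h hη
  refine hcross_congr (fun e he ho => ?_) hη
  rw [← glu_congr hN h e he]
  exact ho

theorem incr_NpT (N k : ℕ) : Incr (NpT N k) := by
  intro η η' h hη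
  refine hcross_congr (fun e _ ho => ?_) hη
  unfold glu at ho ⊢
  split_ifs at ho ⊢
  · exact h _ ho
  · exact h _ ho

private lemma locS_NoX (N k : ℕ) :
    LocS (vE (rect (40 * k) (50 * k) (3 * k + 1) (N - 3 * k - 1))) (NoX N k) := by
  intro η η' h hη hη'
  refine hη (hcross_congr (fun e he ho => ?_) hη')
  rw [h e he]
  exact ho

/-- `NoX` does not see the corridor nor the clusters. -/
theorem locS_HT {N k ρ K : ℕ} (hk : 64 ≤ k) (hN : 128 * k ≤ N) (S : Set Vert) :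
    LocS (det (modE N) .W .E k (CC N k) S)ᶜ (HT N k ρ K S) := by
  have hN' : 128 * (k : ℤ) ≤ N := by exact_mod_cast hN
  have hk' : 64 ≤ (k : ℤ) := by exact_mod_cast hk
  intro η η' h hη
  refine ⟨Pool.Agent.H38.N59.locS_seal _ _ _ η η' h hη.1,
    locS_NoX N k η η' (fun e he => h e ?_) hη.2⟩
  rintro ⟨e', he', heq⟩
  have h0 := he.2
  obtain ⟨x, y, t⟩ := e
  obtain ⟨x', y', t'⟩ := e'
  simp only [modE, Prod.mk.injEq] at heq
  obtain ⟨h3, h4, h5⟩ := heq
  simp only [src, rect, Set.mem_ofPred_eq] at h0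
  rcases he' with he' | he'
  · have h6 := mem_dom (Pool.Agent.H38.N59.rv_sub he').2
    simp only [src] at h6
    have := mod_eq' (by omega) (by omega) h3
    omega
  · have h6 := CC_bounds hk hN he'.2
    simp only [src] at h6
    have := mod_eq' (by omega) (by omega) h4
    omega

/-- The sites of a rectangle. -/
noncomputable def sR (a b c d : ℤ) : Finset Edge := by
  classical exact (eRect a b c d).filter (fun e => e.2.2 = false)

theorem mem_sR {a b c d : ℤ} {e : Edge} : e ∈ sR a b c d ↔ e ∈ vE (rect a b c d) := by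
  classical
  simp only [sR, Finset.mem_filter, mem_eRect]
  exact and_comm

private lemma localOn_NoX (N k : ℕ) :
    LocalOn (sR (40 * k) (50 * k) (3 * k + 1) (N - 3 * k - 1)) (NoX N k) := by
  intro η η' h hη
  exact locS_NoX N k η η' (fun e he => h e (mem_sR.2 he)) hη

theorem localOn_HT (N k ρ K : ℕ) : ∃ Λ : Finset Edge, ∀ S, LocalOn Λ (HT N k ρ K S) := by
  classical
  obtain ⟨Λ, hΛ⟩ := Pool.Agent.H38.N59.localOn_seal (grid ρ K) ρ
  refine ⟨Λ ∪ sR (40 * k) (50 * k) (3 * k + 1) (N - 3 * k - 1), fun S η η' h hη => ?_⟩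
  exact ⟨hΛ _ η η' (fun e he => h e (Finset.mem_union_left _ he)) hη.1,
    localOn_NoX N k η η' (fun e he => h e (Finset.mem_union_right _ he)) hη.2⟩

theorem modE_injOn_vE {N : ℕ} {a b c d : ℤ} (hab : b - a < N) (hcd : d - c < N) :
    Set.InjOn (modE N) (vE (rect a b c d)) := by
  rintro ⟨x, y, t⟩ h1 ⟨x', y', t'⟩ h2 h
  have k1 := h1.2
  have k2 := h2.2
  simp only [src, rect, Set.mem_ofPred_eq] at k1 k2
  simp only [modE, Prod.mk.injEq] at h
  obtain ⟨h3, h4, h5⟩ := h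
  rw [mod_eq' (by omega) (by omega) h3, mod_eq' (by omega) (by omega) h4, h5]

/-- Probabilities of local events of the sites of a rectangle on the torus. -/
theorem Pr_pb {N : ℕ} {q : I} {a b c d : ℤ} {A : Set Config} (hA : LocalOn (sR a b c d) A)
    (hab : b - a < N) (hcd : d - c < N) : Pr q {ω | pb (modE N) ω ∈ A} = Pr q A := by
  refine Pr_comp hA ?_
  intro e he e' he' h
  exact modE_injOn_vE hab hcd (mem_sR.1 (Finset.mem_coe.1 he)) (mem_sR.1 (Finset.mem_coe.1 he')) h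

private lemma localOn_cross (a b c d : ℤ) : LocalOn (sR a b c d) {w | HCross (sit w) a b c d} := by
  intro w w' h hw
  refine hcross_congr (fun g hg ho => ?_) hw
  rw [← h g (mem_sR.2 hg)]
  exact ho

theorem NpT_lower (c : ℝ) (hc : 0 < c) (K₁ : ℕ) : ∃ c' : ℝ, 0 < c' ∧ ∀ (N k : ℕ) (q : I),
    64 ≤ k → 128 * k ≤ N → N ≤ K₁ * k → RSWreg c N q →
      c' ≤ Pr q {ω | pb (modE N) ω ∈ NpT N k} := by
  obtain ⟨c', hc', H⟩ := Pool.Agent.H83.SK.rect_lower c hc K₁
  refine ⟨c', hc', fun N k q hk hN hK hR => ?_⟩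
  have hN' : 128 * (k : ℤ) ≤ N := by exact_mod_cast hN
  have hk' : 64 ≤ (k : ℤ) := by exact_mod_cast hk
  have hK' : (N : ℤ) ≤ K₁ * k := by exact_mod_cast hK
  have hK1 : (1 : ℤ) ≤ K₁ := by
    rcases Nat.eq_zero_or_pos K₁ with h | h
    · rw [h] at hK
      omega
    · exact_mod_cast h
  have h1 : c' ≤ Pr q {w | HCross (sit w) (28 * k) (N - 28 * k) (-(3 * k)) (3 * k)} :=
    (H N q (by omega) hR (28 * k) (N - 28 * k) (-(3 * k)) (3 * k) (by omega) (by omega)
    (by nlinarith) (by nlinarith)).1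
  refine h1.trans ?_
  rw [← Pr_pb (N := N) (localOn_cross (28 * (k : ℤ)) (N - 28 * k) (-(3 * k)) (3 * k))
    (by omega) (by omega)]
  refine Pr_mono fun ω hω => ?_
  show HCross (sit (glu N k (per N ω))) _ _ _ _
  rw [glu_per]
  exact hω

private lemma incr_NoX_compl (N k : ℕ) : Incr ({ω | pb (modE N) ω ∈ NoX N k} : Set Config)ᶜ := by
  intro ω ω' h hω hω'
  have h1 : HCross (sit (pb (modE N) ω)) (40 * k) (50 * k) (3 * k + 1) (N - 3 * k - 1) := by
    by_contra hcon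
    exact hω hcon
  exact hω' (hcross_congr (fun e _ ho => h _ ho) h1)

private lemma incr_Seal_compl (N ρ : ℕ) (G : Finset Vert) (t : Set Edge) :
    Incr ({ω | pb (modE N) ω ∈ Seal G ρ t} : Set Config)ᶜ := by
  intro ω ω' h hω hω'
  exact Pool.Agent.H38.N59.seal_decr G ρ t _ _ (fun e he => h (modE N e) he) hω hω'

theorem HT_lower (c : ℝ) (hc : 0 < c) (K₁ K : ℕ) : ∃ c' : ℝ, 0 < c' ∧ ∀ (N k ρ : ℕ) (q : I)
    (S : Set Vert), 64 ≤ k → 128 * k ≤ N → N ≤ K₁ * k → 1 ≤ ρ → 8 * ρ ≤ k → RSWreg c N q →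
      c' ≤ Pr q {ω | pb (modE N) ω ∈ HT N k ρ K S} := by
  classical
  obtain ⟨c₁, hc₁, H1⟩ := Pool.Agent.H83.SK.rect_closed c hc K₁
  obtain ⟨c₂, hc₂, H2⟩ := Pool.Agent.H38.N59.seal_lower_pb c hc 1 ((2 * K + 1) ^ 2)
  refine ⟨c₂ * c₁, by positivity, fun N k ρ q S hk hN hK hρ hρk hR => ?_⟩
  have hN' : 128 * (k : ℤ) ≤ N := by exact_mod_cast hN
  have hk' : 64 ≤ (k : ℤ) := by exact_mod_cast hk
  have hK' : (N : ℤ) ≤ K₁ * k := by exact_mod_cast hK
  have hρk' : 8 * (ρ : ℤ) ≤ k := by exact_mod_cast hρk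
  have hK1 : (1 : ℤ) ≤ K₁ := by
    rcases Nat.eq_zero_or_pos K₁ with h | h
    · rw [h] at hK
      omega
    · exact_mod_cast h
  have hseal := H2 N ρ q (grid ρ K) (det (modE N) .W .E k (CC N k) S) (modE N) (by omega) hR hρ
    (by omega) (Pool.Agent.H59.EX.card_grid ρ K) (by
      intro g _
      exact modE_injOn_vE (N := N) (a := g.1 - (3 * ρ : ℕ)) (b := g.1 + (3 * ρ : ℕ))
        (c := g.2 - (3 * ρ : ℕ)) (d := g.2 + (3 * ρ : ℕ)) (by push_cast; omega)
        (by push_cast; omega))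
  have hnox : c₁ ≤ Pr q {ω | pb (modE N) ω ∈ NoX N k} := by
    have h1 : c₁ ≤ Pr q {w | ¬ HCross (sit w) (40 * k) (50 * k) (3 * k + 1) (N - 3 * k - 1)} :=
      (H1 N q (by omega) hR (3 * k + 1) (N - 3 * k - 1) (40 * k) (50 * k) (by omega) (by omega)
        (by nlinarith) (by nlinarith)).2
    rw [Pr_pb (N := N) (localOn_NoX N k) (by omega) (by omega)]
    exact h1
  obtain ⟨Λ, hΛ⟩ := Pool.Agent.H38.N59.localOn_seal (grid ρ K) ρ
  have hl1 : LocalOn (Λ.image (modE N)) {ω | pb (modE N) ω ∈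
      Seal (grid ρ K) ρ (det (modE N) .W .E k (CC N k) S)} := by
    intro ω ω' h hω
    exact hΛ _ _ _ (fun e he => h _ (Finset.mem_image_of_mem _ he)) hω
  have hl2 : LocalOn ((sR (40 * k) (50 * k) (3 * k + 1) (N - 3 * k - 1)).image (modE N))
      {ω | pb (modE N) ω ∈ NoX N k} := by
    intro ω ω' h hω
    exact localOn_NoX N k _ _ (fun e he => h _ (Finset.mem_image_of_mem _ he)) hω
  have hfkg := fkg_decr (p := q) hl1 hl2 (incr_Seal_compl N ρ _ _) (incr_NoX_compl N k)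
  refine ((mul_le_mul hseal hnox hc₁.le Pr_nonneg).trans hfkg).trans (Pr_mono ?_)
  intro ω hω
  exact ⟨hω.1, hω.2⟩

end Pool.Agent.H83.PST

end

section

/-!
# Lower bounds for the influence of a site of the torus; small tori
-/

set_option autoImplicit false

open MeasureTheory ProbabilityTheory unitInterval

namespace Pool.Agent.H83.PST

open Pool.Agent.H89.Perc
open Pool.Agent.H61.NC (modE ctr mid)
open Pool.Agent.H83.SK (sv sit sit_true RSWreg sT sitT)
open Pool.Agent.H92.SN (WindS tSites mem_tSites localOn_WindS incr_WindS pivot_windS cE)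

theorem windS_eq (N : ℕ) : {ω | sitT N ω ∈ Wind N} = WindS N := by
  ext ω
  constructor
  · rintro ⟨u, a, b, ha, hc⟩
    rw [Pool.Agent.H83.SK.per_sitT] at hc
    exact ⟨u, a, b, ha, hc⟩
  · rintro ⟨u, a, b, ha, hc⟩
    refine ⟨u, a, b, ha, ?_⟩
    rw [Pool.Agent.H83.SK.per_sitT]
    exact hc

theorem sT_eq (q : I) (N : ℕ) : sT q N = Pool.Agent.H92.SN.sT q N := by
  unfold Pool.Agent.H83.SK.sT
  rw [windS_eq]
  rfl

theorem sT_nonneg (q : I) (N : ℕ) : 0 ≤ sT q N := by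
  rw [sT_eq]
  exact Pool.Agent.H92.SN.sT_nonneg q N

theorem zero_mem {N : ℕ} (hN : 1 ≤ N) : sv 0 ∈ tSites N := by
  rw [mem_tSites]
  simp only [sv, Prod.fst_zero, Prod.snd_zero, and_true]
  omega

theorem sT_pivot {N : ℕ} (hN : 1 ≤ N) (q : I) : sT q N = pivot q (WindS N) (sv 0) := by
  rw [sT_eq]
  exact (pivot_windS hN q (zero_mem hN)).symm

theorem le_sT {N : ℕ} (hN : 1 ≤ N) {q : I} {E : Set Config}
    (hE : ∀ ω ∈ E, Function.update ω (sv 0) true ∈ WindS N ∧
      Function.update ω (sv 0) false ∉ WindS N) : Pr q E ≤ sT q N := by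
  rw [sT_pivot hN]
  have hl : ∀ b : Bool, LocalOn (tSites N) {ω | Function.update ω (sv 0) b ∈ WindS N} := by
    intro b ω ω' hω h2
    refine localOn_WindS hN _ _ (fun f hf => ?_) h2
    by_cases hfe : f = sv 0
    · subst hfe; simp
    · simp only [Function.update_of_ne hfe]; exact hω f hf
  have hsub : {ω | Function.update ω (sv 0) false ∈ WindS N} ⊆
      {ω | Function.update ω (sv 0) true ∈ WindS N} := by
    intro ω hω
    refine incr_WindS N _ _ ?_ hω
    intro e he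
    by_cases h : e = sv 0
    · subst h; simp
    · rw [Function.update_of_ne h] at he ⊢
      exact he
  have h2 : Pr q ({ω | Function.update ω (sv 0) true ∈ WindS N} \
      {ω | Function.update ω (sv 0) false ∈ WindS N}) = pivot q (WindS N) (sv 0) :=
    measureReal_sdiff hsub (hl false).measurableSet
  rw [← h2]
  exact Pr_mono fun ω hω => ⟨(hE ω hω).1, (hE ω hω).2⟩

/-! ### Small tori -/

/-- The explicit configuration of the sites: a row without the site `0`. -/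
private def smB : Config := fun e => decide (e.2.1 = 0 ∧ e.1 ≠ 0)

private theorem div_eq {N x : ℤ} (hN : 0 < N) (h : (x + 1) % N ≠ 0) : x / N = (x + 1) / N := by
  have h1 := Int.emod_add_mul_ediv (x + 1) N
  have h2 := Int.emod_nonneg (x + 1) hN.ne'
  have h3 := Int.emod_lt_of_pos (x + 1) hN
  exact ((Int.ediv_emod_unique (r := (x + 1) % N - 1) hN).2
    ⟨by linarith, by omega, by omega⟩).1

private theorem smB_step {N : ℕ} (hN : 1 ≤ N) {e : Edge} (he : sit (per N smB) e = true) :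
    (src e).1 / (N : ℤ) = (tgt e).1 / (N : ℤ) := by
  have hN0 : (0 : ℤ) < N := by omega
  rw [sit_true] at he
  obtain ⟨x, y, t⟩ := e
  cases t
  · have h2 := he.2
    simp only [sv, tgt, per, smB, Bool.false_eq_true, if_false, decide_eq_true_eq] at h2
    simp only [src, tgt, Bool.false_eq_true, if_false]
    exact div_eq hN0 h2.2
  · simp only [src, tgt, if_true]

private theorem smB_not {N : ℕ} (hN : 1 ≤ N) : smB ∉ WindS N := by
  rintro ⟨u, a, b, ha, hc⟩
  have hN' : (N : ℤ) ≠ 0 := by omega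
  have key : ∀ v, Conn (sit (per N smB)) Set.univ u v → u.1 / (N : ℤ) = v.1 / (N : ℤ) := by
    intro v hv
    refine hv.induction_right (P := fun v => u.1 / (N : ℤ) = v.1 / (N : ℤ)) rfl ?_
    rintro x y _ ⟨-, -, e, hj, ho⟩ ih
    rw [ih]
    have := smB_step hN ho
    rcases hj with ⟨h1, h2⟩ | ⟨h1, h2⟩
    · rw [h1, h2]
      exact this
    · rw [h1, h2]
      exact this.symm
  have h1 := key _ hc
  simp only [Int.add_mul_ediv_right _ _ hN'] at h1
  omega

private theorem smB_wind {N : ℕ} (hN : 1 ≤ N) : Function.update smB (sv 0) true ∈ WindS N := by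
  obtain ⟨ω, hω⟩ : ∃ ω : Config, ω = Function.update smB (sv 0) true := ⟨_, rfl⟩
  rw [← hω]
  have hN0 : (0 : ℤ) < N := by omega
  have hopen : ∀ j : ℕ, per N ω (sv ((j : ℤ), (0 : ℤ))) = true := by
    intro j
    have h1 : per N ω (sv ((j : ℤ), (0 : ℤ))) = ω ((j : ℤ) % N, 0, false) := by
      simp [per, sv]
    rw [h1, hω, Function.update_apply]
    split_ifs with h
    · rfl
    · simp only [smB, decide_eq_true_eq, true_and]
      intro h2
      refine h ?_
      rw [h2]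
      rfl
  have key : ∀ j : ℕ, Conn (sit (per N ω)) Set.univ ((0 : ℤ), (0 : ℤ)) ((j : ℤ), (0 : ℤ)) := by
    intro j
    induction j with
    | zero => exact Conn.refl trivial
    | succ j ih =>
      refine ih.tail ⟨trivial, trivial, ((j : ℤ), 0, false), Or.inl ⟨rfl, ?_⟩, ?_⟩
      · simp [tgt]
      · rw [sit_true]
        refine ⟨hopen j, ?_⟩
        have := hopen (j + 1)
        push_cast at this
        simpa [tgt] using this
  refine ⟨(0, 0), 1, 0, one_ne_zero, ?_⟩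
  have e1 : ((((0 : ℤ), (0 : ℤ)) : Vert).1 + 1 * (N : ℤ), (((0 : ℤ), (0 : ℤ)) : Vert).2 +
      0 * (N : ℤ)) = ((N : ℤ), (0 : ℤ)) := by
    simp
  rw [e1]
  exact key N

private theorem smB_closed : Function.update smB (sv 0) false = smB := by
  refine Function.update_eq_self_iff.2 ?_
  simp [smB, sv]

private theorem pivot_ge {N : ℕ} (hN : 1 ≤ N) (q : I) {t : ℝ} (ht : 0 ≤ t)
    (h1 : t ≤ (q : ℝ)) (h2 : (q : ℝ) ≤ 1 - t) :
    t ^ (tSites N).card ≤ pivot q (WindS N) (sv 0) := by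
  have hloc : LocalOn (tSites N) {ω : Config | ∀ e ∈ tSites N, ω e = smB e} := by
    intro ω ω' h hω e he
    rw [← h e he]
    exact hω e he
  have hE := Pool.Agent.H29.Sep.a4Low_cyl q ht h1 h2 smB (tSites N)
  have hup : ∀ (ω : Config) (b : Bool), (∀ e ∈ tSites N, ω e = smB e) → ∀ e ∈ tSites N,
      Function.update ω (sv 0) b e = Function.update smB (sv 0) b e := by
    intro ω b h e he
    rw [Function.update_apply, Function.update_apply]
    split_ifs
    · rfl
    · exact h e he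
  have hW := localOn_WindS (N := N) hN
  have hsub1 : {ω : Config | Function.update ω (sv 0) false ∈ WindS N} ∪
      {ω : Config | ∀ e ∈ tSites N, ω e = smB e} ⊆
      {ω | Function.update ω (sv 0) true ∈ WindS N} := by
    rintro ω (h | h)
    · refine incr_WindS N _ _ (fun e he => ?_) h
      rw [Function.update_apply] at he ⊢
      split_ifs at he ⊢
      exact he
    · exact hW _ _ (fun e he => (hup ω true h e he).symm) (smB_wind hN)
  have hdisj : Disjoint {ω : Config | Function.update ω (sv 0) false ∈ WindS N}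
      {ω : Config | ∀ e ∈ tSites N, ω e = smB e} := by
    rw [Set.disjoint_left]
    intro ω h h'
    have := hW _ _ (fun e he => hup ω false h' e he) h
    rw [smB_closed] at this
    exact smB_not hN this
  have h3 : Pr q ({ω : Config | Function.update ω (sv 0) false ∈ WindS N} ∪
      {ω : Config | ∀ e ∈ tSites N, ω e = smB e}) =
      Pr q {ω : Config | Function.update ω (sv 0) false ∈ WindS N} +
        Pr q {ω : Config | ∀ e ∈ tSites N, ω e = smB e} :=
    measureReal_union hdisj hloc.measurableSet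
  have h4 := Pr_mono (p := q) hsub1
  rw [h3] at h4
  unfold pivot
  linarith

/-- Small tori: finite energy. -/
theorem sT_small (c : ℝ) (hc : 0 < c) (N₀ : ℕ) : ∃ c' : ℝ, 0 < c' ∧ ∀ (N : ℕ) (q : I),
    1 ≤ N → N ≤ N₀ → RSWreg c N q → c' ≤ sT q N := by
  refine ⟨(min (c / 16) 1) ^ (N₀ * N₀), by positivity, ?_⟩
  intro N q hN hN0 hreg
  obtain ⟨h1, h2⟩ := Pool.Agent.H83.SK.rswreg_density hN hreg
  set t : ℝ := min (c / 16) 1 with ht
  have ht0 : 0 < t := by positivity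
  have ht1 : t ≤ 1 := min_le_right _ _
  have ht2 : t ≤ c / 16 := min_le_left _ _
  have hcard : (tSites N).card ≤ N₀ * N₀ := by
    have : (tSites N).card = N * N := by
      simp [tSites]
    rw [this]
    exact Nat.mul_le_mul hN0 hN0
  have h3 := pivot_ge hN q ht0.le (ht2.trans h1) (by linarith)
  have h4 : t ^ (N₀ * N₀) ≤ t ^ (tSites N).card := pow_le_pow_of_le_one ht0.le ht1 hcard
  rw [sT_pivot hN]
  exact h4.trans h3

end Pool.Agent.H83.PST

end

section

/-!
# The two forms of the four-arm probability of a site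

`SK.a4` sums over two kinds of pairs of neighbours of the origin, `SN.a4` is the probability of the
union over all pairs.
-/

set_option autoImplicit false

open MeasureTheory ProbabilityTheory unitInterval

namespace Pool.Agent.H38.SKConv

open Pool.Agent.H89.Perc
open Pool.Agent.H59.EX (Gen closeS Four)
open Pool.Agent.H83.SK (s4 star0 IsAut isAut_swap isAut_reflX isAut_reflY sitT blkS)
open Pool.Agent.H92.SN (closeV A4 Nb WindS)
open Pool.Agent.H61.NC (fill blk mid)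

variable {q : I} {r : ℕ}

theorem mem_star0 (e : Edge) : e ∈ star0 ↔ src e = 0 ∨ tgt e = 0 := by
  obtain ⟨x, y, t⟩ := e
  cases t
  · simp only [star0, Finset.mem_insert, Finset.mem_singleton, Prod.mk.injEq, src, tgt,
      Bool.false_eq_true, if_false, and_false, and_true, or_false, false_or]
    constructor
    · rintro (⟨rfl, rfl⟩ | ⟨rfl, rfl⟩)
      · left; rfl
      · right; rfl
    · rintro (h | h)
      · have h1 := congrArg Prod.fst h
        have h2 := congrArg Prod.snd h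
        simp only [Prod.fst_zero, Prod.snd_zero] at h1 h2
        left; exact ⟨h1, h2⟩
      · have h1 := congrArg Prod.fst h
        have h2 := congrArg Prod.snd h
        simp only [Prod.fst_zero, Prod.snd_zero] at h1 h2
        right; exact ⟨by omega, h2⟩
  · simp only [star0, Finset.mem_insert, Finset.mem_singleton, Prod.mk.injEq, src, tgt,
      if_true, and_false, and_true, false_or, reduceCtorEq]
    constructor
    · rintro (⟨rfl, rfl⟩ | ⟨rfl, rfl⟩)
      · left; rfl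
      · right; rfl
    · rintro (h | h)
      · have h1 := congrArg Prod.fst h
        have h2 := congrArg Prod.snd h
        simp only [Prod.fst_zero, Prod.snd_zero] at h1 h2
        left; exact ⟨h1, h2⟩
      · have h1 := congrArg Prod.fst h
        have h2 := congrArg Prod.snd h
        simp only [Prod.fst_zero, Prod.snd_zero] at h1 h2
        right; exact ⟨h1, by omega⟩

theorem cut_eq (b : Bool) (ω : Config) : (s4 b).cut ω = closeV 0 ω := by
  funext e
  have h := mem_star0 e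
  have h0 : (s4 b).E0 = star0 := rfl
  rw [Bool.eq_iff_iff]
  unfold Pool.Agent.H59.EX.Src.cut closeS closeV
  rw [h0]
  simp only [Finset.mem_coe, Bool.and_eq_true, decide_eq_true_eq]
  rw [h, not_or]

/-- Two given neighbours of the origin are joined to distance `r` and not to each other. -/
def F (a b : Vert) (r : ℕ) : Set Config :=
  {ω | (∃ u ∈ sphere 0 r, Conn (closeV 0 ω) (ball 0 r) a u) ∧
    (∃ u ∈ sphere 0 r, Conn (closeV 0 ω) (ball 0 r) b u) ∧ ¬ Conn (closeV 0 ω) (ball 0 r) a b}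

theorem four_eq (b : Bool) : Four (s4 b) r = F (1, 0) (if b then (0, 1) else (-1, 0)) r := by
  ext ω
  unfold Four F
  rw [Set.mem_ofPred_eq, Set.mem_ofPred_eq, cut_eq]
  rfl

theorem F_comm (a b : Vert) : F a b r = F b a r := by
  ext ω
  constructor
  · rintro ⟨h1, h2, h3⟩
    exact ⟨h2, h1, fun h => h3 h.symm⟩
  · rintro ⟨h1, h2, h3⟩
    exact ⟨h2, h1, fun h => h3 h.symm⟩

private theorem conv_joins (g : Gen) (e : Edge) (a b : Vert) (h : Joins e a b) :
    Joins (g.e e) (g.v a) (g.v b) := by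
  cases g
  · exact joins_swap e a b h
  · have := joins_reflX 0 e a b h
    rw [zero_sub, zero_sub] at this
    exact this
  · have := joins_reflY 0 e a b h
    rw [zero_sub, zero_sub] at this
    exact this

private theorem conv_ends (g : Gen) (e : Edge) :
    (src (g.e e) = g.v (src e) ∧ tgt (g.e e) = g.v (tgt e)) ∨
      (src (g.e e) = g.v (tgt e) ∧ tgt (g.e e) = g.v (src e)) := by
  rcases conv_joins g e _ _ (joins_src_tgt e) with ⟨h1, h2⟩ | ⟨h1, h2⟩
  · exact Or.inl ⟨h1.symm, h2.symm⟩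
  · exact Or.inr ⟨h2.symm, h1.symm⟩

private theorem conv_aut (g : Gen) : IsAut g.e := by
  cases g
  · exact isAut_swap
  · exact isAut_reflX 0
  · exact isAut_reflY 0

private theorem v_zero (g : Gen) (a : Vert) : g.v a = 0 ↔ a = 0 := by
  have h0 : g.v 0 = 0 := by cases g <;> simp [Gen.v]
  constructor
  · intro h
    have := congrArg g.v h
    rwa [g.v_v, h0] at this
  · rintro rfl
    exact h0

private theorem closeV_comp (g : Gen) (ω : Config) :
    closeV 0 (fun e => ω (g.e e)) = fun e => closeV 0 ω (g.e e) := by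
  funext e
  rw [Bool.eq_iff_iff]
  unfold closeV
  simp only [Bool.and_eq_true, decide_eq_true_eq, ne_eq]
  rcases conv_ends g e with ⟨h1, h2⟩ | ⟨h1, h2⟩
  · rw [h1, h2, v_zero, v_zero]
  · rw [h1, h2, v_zero, v_zero]
    tauto

private theorem conv_sphere (g : Gen) (r : ℕ) (a : Vert) : g.v a ∈ sphere 0 r ↔ a ∈ sphere 0 r := by
  have h := g.mem_ball r a
  unfold sphere
  simp only [Set.mem_ofPred_eq]
  rw [h]
  cases g <;> simp only [Gen.v, Prod.fst_zero, Prod.snd_zero] <;>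
    constructor <;> rintro ⟨h1, h2⟩ <;> refine ⟨h1, ?_⟩ <;>
    rcases abs_cases (a.1 - 0) with h3 | h3 <;> rcases abs_cases (a.2 - 0) with h4 | h4 <;>
    (try rcases abs_cases (-a.1 - 0) with h5 | h5) <;>
    (try rcases abs_cases (-a.2 - 0) with h6 | h6) <;> omega

private theorem conv_conn (g : Gen) (ω : Config) (u v : Vert) :
    Conn (closeV 0 (fun e => ω (g.e e))) (ball 0 r) u v ↔
      Conn (closeV 0 ω) (ball 0 r) (g.v u) (g.v v) := by
  rw [closeV_comp]
  have h := conn_invol (ω := closeV 0 ω) g.e_e g.v_v (conv_joins g) (ball 0 r) u v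
  have h2 : {w | g.v w ∈ ball 0 r} = ball 0 r := by
    ext w
    exact g.mem_ball r w
  rw [h2] at h
  exact h

private theorem F_comp (g : Gen) (a b : Vert) :
    {ω : Config | (fun e => ω (g.e e)) ∈ F a b r} = F (g.v a) (g.v b) r := by
  ext ω
  simp only [F, Set.mem_ofPred_eq, conv_conn]
  have key : ∀ c : Vert, (∃ u ∈ sphere 0 r, Conn (closeV 0 ω) (ball 0 r) (g.v c) (g.v u)) ↔
      ∃ u ∈ sphere 0 r, Conn (closeV 0 ω) (ball 0 r) (g.v c) u := by
    intro c
    constructor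
    · rintro ⟨u, hu, h⟩
      exact ⟨g.v u, (conv_sphere g r u).2 hu, h⟩
    · rintro ⟨u, hu, h⟩
      refine ⟨g.v u, (conv_sphere g r u).2 hu, ?_⟩
      rwa [g.v_v]
  rw [key, key]

theorem localOn_F (a b : Vert) (r : ℕ) :
    LocalOn (eRect (-(r : ℤ)) r (-(r : ℤ)) r) (F a b r) := by
  have key : ∀ ω ω' : Config, (∀ e ∈ eRect (-(r : ℤ)) r (-(r : ℤ)) r, ω e = ω' e) → ∀ x y,
      Conn (closeV 0 ω) (ball 0 r) x y → Conn (closeV 0 ω') (ball 0 r) x y := by
    intro ω ω' h x y hc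
    refine hc.congr fun e h1 _ => ?_
    unfold closeV
    rw [h e]
    rw [mem_eRect]
    rw [Pool.Agent.H89.Perc.mem_ball] at h1
    simp only [Prod.fst_zero, Prod.snd_zero] at h1
    simp only [rect, Set.mem_ofPred_eq]
    omega
  rintro ω ω' h ⟨⟨u, hu, h1⟩, ⟨u', hu', h2⟩, h3⟩
  exact ⟨⟨u, hu, key _ _ h _ _ h1⟩, ⟨u', hu', key _ _ h _ _ h2⟩,
    fun h4 => h3 (key _ _ (fun e he => (h e he).symm) _ _ h4)⟩

theorem Pr_F_map (g : Gen) (a b : Vert) :
    Pool.Agent.H83.SK.Pr q (F (g.v a) (g.v b) r) = Pool.Agent.H83.SK.Pr q (F a b r) := by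
  rw [← F_comp, Pool.Agent.H83.SK.Pr_comp (localOn_F a b r) (conv_aut g)]

private theorem pr_WE : Pool.Agent.H83.SK.Pr q (F (0, 1) (0, -1) r) =
    Pool.Agent.H83.SK.Pr q (F (1, 0) (-1, 0) r) := Pr_F_map .sw (1, 0) (-1, 0)

private theorem pr_WN : Pool.Agent.H83.SK.Pr q (F (-1, 0) (0, 1) r) =
    Pool.Agent.H83.SK.Pr q (F (1, 0) (0, 1) r) := by
  have h := Pr_F_map (q := q) (r := r) .rx (1, 0) (0, 1)
  simpa [Gen.v] using h

private theorem pr_ES : Pool.Agent.H83.SK.Pr q (F (1, 0) (0, -1) r) =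
    Pool.Agent.H83.SK.Pr q (F (1, 0) (0, 1) r) := by
  have h := Pr_F_map (q := q) (r := r) .ry (1, 0) (0, 1)
  simpa [Gen.v] using h

private theorem pr_WS : Pool.Agent.H83.SK.Pr q (F (-1, 0) (0, -1) r) =
    Pool.Agent.H83.SK.Pr q (F (1, 0) (0, 1) r) := by
  have h := Pr_F_map (q := q) (r := r) .ry (-1, 0) (0, 1)
  rw [pr_WN] at h
  simpa [Gen.v] using h

theorem a4_le_two (q : I) (r : ℕ) :
    Pool.Agent.H83.SK.a4 q r ≤ 2 * Pool.Agent.H92.SN.a4 q r := by
  have key : ∀ b : Bool, Pool.Agent.H83.SK.Pr q (Four (s4 b) r) ≤ Pool.Agent.H92.SN.a4 q r := by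
    intro b
    refine Pool.Agent.H83.SK.Pr_mono ?_
    rw [four_eq]
    rintro ω ⟨h1, h2, h3⟩
    have n1 : Nb 0 (1, 0) := ⟨(0, 0, false), Or.inl ⟨rfl, rfl⟩⟩
    have n2 : Nb 0 (if b then (0, 1) else (-1, 0)) := by
      cases b
      · exact ⟨(-1, 0, false), Or.inr ⟨rfl, rfl⟩⟩
      · exact ⟨(0, 0, true), Or.inl ⟨rfl, rfl⟩⟩
    exact ⟨_, _, n1, n2, h1, h2, h3⟩
  have h1 := key false
  have h2 := key true
  unfold Pool.Agent.H83.SK.a4
  linarith

theorem a4_le_four (q : I) (r : ℕ) :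
    Pool.Agent.H92.SN.a4 q r ≤ 4 * Pool.Agent.H83.SK.a4 q r := by
  have hsub : A4 0 r ⊆ (F (1, 0) (-1, 0) r ∪ F (0, 1) (0, -1) r) ∪
      ((F (1, 0) (0, 1) r ∪ F (-1, 0) (0, 1) r) ∪ (F (1, 0) (0, -1) r ∪ F (-1, 0) (0, -1) r)) := by
    rintro ω ⟨a, b, ha, hb, h1, h2, h3⟩
    have hm : ω ∈ F a b r := ⟨h1, h2, h3⟩
    have hm' : ω ∈ F b a r := by rw [F_comm]; exact hm
    have hne : a ≠ b := by
      rintro rfl
      obtain ⟨u, _, hu⟩ := h1
      exact h3 (Conn.refl hu.mem_left)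
    have hz : ∀ c : Vert, Nb 0 c → c = (1, 0) ∨ c = (0, 1) ∨ c = (-1, 0) ∨ c = (0, -1) := by
      intro c hc
      rcases hc.cases with h | h | h | h
      · left; rw [h]; rfl
      · right; left; rw [h]; rfl
      · right; right; left; rw [h]; rfl
      · right; right; right; rw [h]; rfl
    simp only [Set.mem_union]
    rcases hz a ha with rfl | rfl | rfl | rfl <;> rcases hz b hb with rfl | rfl | rfl | rfl <;>
      first | exact absurd rfl hne | tauto
  have h1 : Pool.Agent.H92.SN.a4 q r ≤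
      (Pool.Agent.H83.SK.Pr q (F (1, 0) (-1, 0) r) + Pool.Agent.H83.SK.Pr q (F (0, 1) (0, -1) r)) +
      ((Pool.Agent.H83.SK.Pr q (F (1, 0) (0, 1) r) + Pool.Agent.H83.SK.Pr q (F (-1, 0) (0, 1) r)) +
      (Pool.Agent.H83.SK.Pr q (F (1, 0) (0, -1) r) +
        Pool.Agent.H83.SK.Pr q (F (-1, 0) (0, -1) r))) := by
    refine (Pool.Agent.H83.SK.Pr_mono hsub).trans ?_
    refine Pool.Agent.H83.SK.Pr_union_le.trans (add_le_add Pool.Agent.H83.SK.Pr_union_le ?_)
    exact Pool.Agent.H83.SK.Pr_union_le.trans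
      (add_le_add Pool.Agent.H83.SK.Pr_union_le Pool.Agent.H83.SK.Pr_union_le)
  rw [pr_WE, pr_WN, pr_ES, pr_WS] at h1
  have h2 : Pool.Agent.H83.SK.a4 q r = Pool.Agent.H83.SK.Pr q (F (1, 0) (-1, 0) r) +
      Pool.Agent.H83.SK.Pr q (F (1, 0) (0, 1) r) := by
    unfold Pool.Agent.H83.SK.a4
    rw [four_eq, four_eq]
    rfl
  have h3 : 0 ≤ Pool.Agent.H83.SK.Pr q (F (1, 0) (-1, 0) r) := Pool.Agent.H83.SK.Pr_nonneg
  rw [h2]
  linarith

theorem blkS_eq (N r : ℕ) : blkS N r = Pool.Agent.H92.SN.blkS N r := by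
  ext ⟨x, y, t⟩
  unfold blkS Pool.Agent.H92.SN.blkS blk eRect
  simp only [Finset.mem_filter, Finset.mem_product, Finset.mem_Icc, Finset.mem_univ, and_true,
    Finset.mem_singleton]
  tauto

theorem blockPiv_eq (N r : ℕ) : Pool.Agent.H83.SK.BlockPiv N r = Pool.Agent.H92.SN.BlockPiv N r := by
  ext w
  have h : ∀ w' : Config, sitT N w' ∈ Wind N ↔ w' ∈ WindS N := by
    intro w'
    rw [← Pool.Agent.H83.PST.windS_eq]
    rfl
  unfold Pool.Agent.H83.SK.BlockPiv Pool.Agent.H92.SN.BlockPiv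
  simp only [Set.mem_ofPred_eq]
  rw [h, h, blkS_eq]

theorem glTorus_conv (h : Pool.Agent.H83.SK.GLTorus) : Pool.Agent.H92.SN.GLTorus := by
  intro c hc
  obtain ⟨C, hC, h1⟩ := h c hc
  refine ⟨4 * C, by positivity, fun N r q hr hN hq => ?_⟩
  have h2 := h1 N r q hr hN hq
  rw [blockPiv_eq, Pool.Agent.H83.PST.sT_eq] at h2
  have h3 := a4_le_four q r
  have h4 : 0 ≤ Pool.Agent.H89.Perc.Pr q (Pool.Agent.H92.SN.BlockPiv N (16 * r)) :=
    Pool.Agent.H89.Perc.Pr_nonneg
  have h5 := mul_le_mul_of_nonneg_right h3 h4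
  have h6 : 4 * Pool.Agent.H83.SK.a4 q r *
      Pool.Agent.H89.Perc.Pr q (Pool.Agent.H92.SN.BlockPiv N (16 * r)) =
      4 * (Pool.Agent.H83.SK.a4 q r *
        Pool.Agent.H89.Perc.Pr q (Pool.Agent.H92.SN.BlockPiv N (16 * r))) := by ring
  rw [h6] at h5
  refine h5.trans ?_
  linarith

theorem qmann_conv (h : Pool.Agent.H83.SK.QMann) : Pool.Agent.H92.SN.QMann := by
  intro c hc
  obtain ⟨C, hC, h1⟩ := h c hc
  refine ⟨8 * C, by positivity, fun n r R q hr hR hn hq => ?_⟩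
  have h2 := h1 n r R q hr hR hn hq
  have h3 := a4_le_four q r
  have h4 : 0 ≤ Pool.Agent.H83.SK.Pr q (Pool.Agent.H29.Sep.A2 (16 * r) R) :=
    Pool.Agent.H83.SK.Pr_nonneg
  have h5 := mul_le_mul_of_nonneg_right h3 h4
  have h7 := a4_le_two q R
  have h8 := mul_le_mul_of_nonneg_left h7 hC.le
  have h6 : 4 * Pool.Agent.H83.SK.a4 q r * Pool.Agent.H83.SK.Pr q (Pool.Agent.H29.Sep.A2 (16 * r) R)
      = 4 * (Pool.Agent.H83.SK.a4 q r *
        Pool.Agent.H83.SK.Pr q (Pool.Agent.H29.Sep.A2 (16 * r) R)) := by ring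
  rw [h6] at h5
  refine h5.trans ?_
  linarith

end Pool.Agent.H38.SKConv

end
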