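import Pool.Agent.H31.PT.M25

/-! The parts of this file: H13.SK.BlockUpS, H13.SK.BlockLowS, H38.SK.Gap, H13.SK.Inst, H83.SK.PST.Closed, H83.SK.PST.Open, H83.SK.PST.Ext. -/

section

/-!
# Upper bound for the probability that a block is pivotal (sites, level-one inequality)
-/

open MeasureTheory ProbabilityTheory unitInterval

namespace Pool.Agent.H13.SK

open Pool.Agent.H89.Perc Pool.Agent.H85.Kes
open Pool.Agent.H83.SK (sit sv sit_mono)
open Pool.Agent.H92.SN (tSites WindS blkS BlockPiv SReg)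
open Pool.Agent.H83.SK.WG (mem_tSites localOn_windS incr_windS)
open Pool.Agent.H61.NC (Two Ring mid)
open Pool.Agent.H29.Sep (Circ circ_ring IsRing ann ring)
open Pool.Agent.H31.EX (bIdx bAll nB nB_spec bIdx_mem)

/-! ### Circuits and cuts around a block -/

theorem per_eq_on {N ρ : ℕ} {z : Vert} (h1 : (ρ : ℤ) ≤ z.1 ∧ z.1 + ρ < N)
    (h2 : (ρ : ℤ) ≤ z.2 ∧ z.2 + ρ < N) (ω : Config) {v : Vert} (hv : v ∈ ball z ρ) :
    per N ω (sv v) = ω (sv v) := by
  rw [mem_ball] at hv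
  simp only [per, sv]
  rw [Int.emod_eq_of_lt (by omega) (by omega), Int.emod_eq_of_lt (by omega) (by omega)]

theorem conn_per {N ρ : ℕ} {z : Vert} (h1 : (ρ : ℤ) ≤ z.1 ∧ z.1 + ρ < N)
    (h2 : (ρ : ℤ) ≤ z.2 ∧ z.2 + ρ < N) {ω : Config} {S : Set Vert} (hS : S ⊆ ball z ρ)
    {u v : Vert} : Conn (sit (per N ω)) S u v ↔ Conn (sit ω) S u v := by
  constructor
  · intro h
    refine h.congr fun e a b => ?_
    simp only [sit]
    rw [per_eq_on h1 h2 ω (hS a), per_eq_on h1 h2 ω (hS b)]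
  · intro h
    refine h.congr fun e a b => ?_
    simp only [sit]
    rw [per_eq_on h1 h2 ω (hS a), per_eq_on h1 h2 ω (hS b)]

theorem setB_false_le {B : Finset Edge} (ω : Config) (e : Edge) (h : setB B false ω e = true) :
    ω e = true := by
  unfold setB at h
  split_ifs at h with h1
  exact h

theorem setB_true_ge {B : Finset Edge} (ω : Config) (e : Edge) (h : ω e = true) :
    setB B true ω e = true := by
  unfold setB
  split_ifs with h1
  · rfl
  · exact h

theorem ann_subset_ring {z : Vert} {s : ℕ} (hs : 1 ≤ s) : ann z s (3 * s) ⊆ Ring z s (3 * s) := by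
  rintro v ⟨h1, h2⟩
  refine ⟨h1, fun h3 => h2 ?_⟩
  have ht1 : ((s - 1 : ℕ) : ℤ) = (s : ℤ) - 1 := by push_cast [Nat.cast_sub hs]; ring
  rw [mem_ball] at h3 ⊢
  rw [ht1] at h3
  omega

/-- An open circuit makes the block effectively open. -/
theorem open_circ {N r s : ℕ} {z : Vert} (hs : r + 1 ≤ s) (hN : r + 3 * s + 2 ≤ N)
    (h1 : 3 * (s : ℤ) ≤ z.1 ∧ z.1 + 3 * s < N) (h2 : 3 * (s : ℤ) ≤ z.2 ∧ z.2 + 3 * s < N)
    {ω : Config} (h : sit ω ∈ Circ z s) (ht : setB (zB z r) true ω ∈ WindS N) : ω ∈ WindS N := by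
  by_contra hne
  have hp : ω ∈ BPiv (zB z r) (WindS N) :=
    ⟨ht, fun h3 => hne (incr_windS N _ _ (setB_false_le ω) h3)⟩
  have hb1 : ((3 * s : ℕ) : ℤ) ≤ z.1 ∧ z.1 + (3 * s : ℕ) < N := by push_cast; exact h1
  have hb2 : ((3 * s : ℕ) : ℤ) ≤ z.2 ∧ z.2 + (3 * s : ℕ) < N := by push_cast; exact h2
  obtain ⟨u, u', hu, hu', ⟨w, hw, hc⟩, ⟨w', hw', hc'⟩, hno⟩ :=
    two_of_bpiv (t := s) (R' := 3 * s) hs (by omega) hN hp
  obtain ⟨-, hC, hmeet⟩ := circ_ring (by omega) h
  obtain ⟨a, ha, hua⟩ := hmeet _ _ _ _ hc (sphere_subset_ball hu) (Or.inl hw)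
  obtain ⟨a', ha', hua'⟩ := hmeet _ _ _ _ hc' (sphere_subset_ball hu') (Or.inl hw')
  have h3 := (hC a ha a' ha').mono_set (ann_subset_ring (z := z) (s := s) (by omega))
  have h4 := (conn_per hb1 hb2 (S := Ring z s (3 * s)) (fun x hx => hx.1)).2 h3
  exact hno ((hua.trans h4).trans hua'.symm)

/-- Absence of arms makes the block effectively closed. -/
theorem closed_circ {N r s : ℕ} {z : Vert} (hs : r + 1 ≤ s) (hN : r + 3 * s + 2 ≤ N)
    (h1 : 3 * (s : ℤ) ≤ z.1 ∧ z.1 + 3 * s < N) (h2 : 3 * (s : ℤ) ≤ z.2 ∧ z.2 + 3 * s < N)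
    {ω : Config} (h : sit ω ∉ ArmBox z s (3 * s)) (ht : ω ∈ WindS N) :
    setB (zB z r) false ω ∈ WindS N := by
  by_contra hne
  have hp : ω ∈ BPiv (zB z r) (WindS N) :=
    ⟨incr_windS N _ _ (setB_true_ge ω) ht, hne⟩
  have hb1 : ((3 * s : ℕ) : ℤ) ≤ z.1 ∧ z.1 + (3 * s : ℕ) < N := by push_cast; exact h1
  have hb2 : ((3 * s : ℕ) : ℤ) ≤ z.2 ∧ z.2 + (3 * s : ℕ) < N := by push_cast; exact h2
  obtain ⟨u, u', hu, hu', ⟨w, hw, hc⟩, -, -⟩ :=
    two_of_bpiv (t := s) (R' := 3 * s) hs (by omega) hN hp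
  apply h
  refine ⟨u, sphere_subset_ball hu, w, hw, ?_⟩
  exact (conn_per hb1 hb2 subset_rfl).1 (hc.mono_set fun x hx => hx.1)

/-! ### Locality -/

/-- Events depending on the edges inside a ball are local on its sites. -/
theorem localOn_sit_ball {A : Set Config} {z : Vert} {ρ : ℕ}
    (hA : ∀ η η' : Config, (∀ e, src e ∈ ball z ρ → tgt e ∈ ball z ρ → η e = η' e) →
      η ∈ A → η' ∈ A) : LocalOn (zB z ρ) {ω | sit ω ∈ A} := by
  intro ω ω' h hω
  refine hA _ _ (fun e h1 h2 => ?_) hω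
  have key : ∀ v ∈ ball z ρ, ω (sv v) = ω' (sv v) := by
    intro v hv
    refine h _ ?_
    rw [mem_ball] at hv
    rw [mem_zB]
    simp only [sv]
    exact ⟨trivial, by omega, by omega⟩
  simp only [sit]
  rw [key _ h1, key _ h2]

theorem localOn_circS (z : Vert) (s : ℕ) : LocalOn (zB z (3 * s)) {ω | sit ω ∈ Circ z s} := by
  refine localOn_sit_ball fun η η' h hη => ?_
  refine Pool.Agent.H29.Sep.localOn_circ z s _ _ (fun e he => ?_) hη
  rw [Pool.Agent.H29.Sep.mem_eCirc] at he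
  exact h e he.1.1 he.2.1

theorem localOn_noarmS (z : Vert) (s : ℕ) :
    LocalOn (zB z (3 * s)) {ω | sit ω ∉ ArmBox z s (3 * s)} := by
  refine localOn_sit_ball (A := (ArmBox z s (3 * s))ᶜ) fun η η' h hη hη' => hη ?_
  obtain ⟨w, hw, u, hu, hc⟩ := hη'
  exact ⟨w, hw, u, hu, hc.congr fun e h1 h2 => (h e h1 h2).symm⟩

/-! ### Blocks -/

/-- Centre of a block. -/
def bCtr (ρ : ℕ) (b : ℤ × ℤ) : Vert := (b.1 * (2 * ρ + 1) + ρ, b.2 * (2 * ρ + 1) + ρ)

theorem ediv_iff {ρ : ℕ} (x i : ℤ) :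
    x / (2 * ρ + 1) = i ↔ (i * (2 * ρ + 1) ≤ x ∧ x ≤ i * (2 * ρ + 1) + 2 * ρ) := by
  have hw : (0 : ℤ) < 2 * ρ + 1 := by positivity
  constructor
  · rintro rfl
    have h1 := Int.ediv_mul_le x hw.ne'
    have h2 := Int.lt_ediv_add_one_mul_self x hw
    have h3 : (x / (2 * ρ + 1) + 1) * (2 * (ρ : ℤ) + 1) =
        x / (2 * ρ + 1) * (2 * ρ + 1) + (2 * ρ + 1) := by ring
    rw [h3] at h2
    exact ⟨h1, by omega⟩
  · rintro ⟨h1, h2⟩
    apply le_antisymm
    · apply Int.lt_add_one_iff.1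
      apply Int.ediv_lt_of_lt_mul hw
      have h3 : (i + 1) * (2 * (ρ : ℤ) + 1) = i * (2 * ρ + 1) + (2 * ρ + 1) := by ring
      rw [h3]
      omega
    · exact (Int.le_ediv_iff_mul_le hw).2 h1

theorem mem_blkT {N ρ : ℕ} {b : ℤ × ℤ} {e : Edge} :
    e ∈ blk (tSites N) (bIdx ρ) b ↔ e ∈ tSites N ∧ src e ∈ ball (bCtr ρ b) ρ := by
  rw [mem_blk]
  unfold bIdx
  rw [Prod.ext_iff]
  simp only [ediv_iff, mem_ball, src, bCtr]
  constructor
  · rintro ⟨h1, h2, h3⟩
    exact ⟨h1, by omega⟩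
  · rintro ⟨h1, h2⟩
    exact ⟨h1, by omega⟩

theorem zB_subset_blk {N ρ : ℕ} {b : ℤ × ℤ} (h1 : (ρ : ℤ) ≤ (bCtr ρ b).1 ∧ (bCtr ρ b).1 + ρ < N)
    (h2 : (ρ : ℤ) ≤ (bCtr ρ b).2 ∧ (bCtr ρ b).2 + ρ < N) :
    zB (bCtr ρ b) ρ ⊆ blk (tSites N) (bIdx ρ) b := by
  intro e he
  rw [mem_blkT]
  refine ⟨zB_subset h1 h2 he, ?_⟩
  rw [mem_zB] at he
  rw [mem_ball]
  simp only [src]
  omega

/-- Upper bound for the influence of a block, for large tori. -/
theorem blockUp_large {c : ℝ} (hc : 0 < c) : ∃ C κ : ℝ, 0 < C ∧ 0 < κ ∧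
    ∀ (N r M : ℕ) (q : I), 1 ≤ r → 1 ≤ M → 8 * M * (6 * r + 7) ≤ N → SReg c N q →
      Pr q (BlockPiv N r) ^ 2 ≤ C * (1 / (M : ℝ)) ^ (2 + κ) := by
  classical
  obtain ⟨c1, hc1, H1⟩ := Pool.Agent.H83.SK.circ_lower c hc 1
  obtain ⟨c2, hc2, H2⟩ := Pool.Agent.H83.SK.noarm_lower c hc 1
  obtain ⟨C, κ, hC, hκ, H3⟩ := Pool.Agent.H83.SK.armBox_decay c hc 1
  set c' := min c1 c2 with hc'
  have hc'0 : 0 < c' := lt_min hc1 hc2
  refine ⟨2 / c' * C, κ, by positivity, hκ, ?_⟩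
  intro N r M q hr hM hN hreg
  set s : ℕ := r + 1 with hs
  set ρ : ℕ := 3 * s with hρ
  have hk : 2 * ρ + 1 = 6 * r + 7 := by omega
  set k : ℕ := 2 * ρ + 1 with hkdef
  rw [← hk] at hN
  have hMk : k ≤ M * k := Nat.le_mul_of_pos_left k hM
  have hN8 : 8 * (M * k) ≤ N := by
    calc 8 * (M * k) = 8 * M * k := by ring
      _ ≤ N := hN
  have hN1 : 1 ≤ N := by omega
  have hkz : (2 * (ρ : ℤ) + 1) = k := by rw [hkdef]; push_cast; ring
  set P : ℝ := Pr q (BlockPiv N r) with hP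
  have hP0 : 0 ≤ P := Pr_nonneg
  have hP1 : P ≤ 1 := Pr_le_one
  -- the blocks in the middle
  set T : Finset (ℤ × ℤ) := Finset.Ico (2 * M : ℤ) (6 * M) ×ˢ Finset.Ico (2 * M : ℤ) (6 * M)
    with hT
  have hTcard : (T.card : ℝ) = 16 * (M : ℝ) ^ 2 := by
    rw [hT, Finset.card_product, Int.card_Ico]
    have : ((6 * M - 2 * M : ℤ)).toNat = 4 * M := by omega
    rw [this]
    push_cast
    ring
  have hctr : ∀ x : ℤ, 2 * (M : ℤ) ≤ x → x < 6 * M →
      2 * ((M * k : ℕ) : ℤ) ≤ x * (2 * ρ + 1) ∧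
        x * (2 * ρ + 1) + (M * k : ℕ) + (2 * ρ + 1) ≤ N := by
    intro x hx1 hx2
    rw [hkz]
    have hN8' : 8 * ((M * k : ℕ) : ℤ) ≤ N := by exact_mod_cast hN8
    have hk0 : (0 : ℤ) ≤ k := by positivity
    have e1 : 2 * (M : ℤ) * k ≤ x * k := mul_le_mul_of_nonneg_right hx1 hk0
    have e2 : x * k ≤ (6 * M - 1) * k := mul_le_mul_of_nonneg_right (by omega) hk0
    have hMk0 : (0 : ℤ) ≤ M * k := by positivity
    push_cast at hN8' ⊢
    constructor
    · linarith
    · nlinarith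
  have hmemT : ∀ b ∈ T, (2 * (M : ℤ) ≤ b.1 ∧ b.1 < 6 * M) ∧ (2 * (M : ℤ) ≤ b.2 ∧ b.2 < 6 * M) := by
    intro b hb
    rw [hT, Finset.mem_product, Finset.mem_Ico, Finset.mem_Ico] at hb
    exact hb
  have hMk' : (2 * (ρ : ℤ) + 1) ≤ (M * k : ℕ) := by rw [hkz]; exact_mod_cast hMk
  have hpos : ∀ b ∈ T, ((M * k : ℕ) : ℤ) < (bCtr ρ b).1 ∧ (bCtr ρ b).1 + (M * k : ℕ) < N ∧
      ((M * k : ℕ) : ℤ) < (bCtr ρ b).2 ∧ (bCtr ρ b).2 + (M * k : ℕ) < N := by
    intro b hb
    obtain ⟨⟨a1, a2⟩, ⟨a3, a4⟩⟩ := hmemT b hb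
    have b1 := hctr b.1 a1 a2
    have b2 := hctr b.2 a3 a4
    simp only [bCtr]
    omega
  have hsR : r + 3 * s + 2 ≤ N := by omega
  have hρz : ((3 * s : ℕ) : ℤ) = 3 * (s : ℤ) := by push_cast; ring
  have hK : ∀ e ∈ tSites N, bIdx ρ e ∈ bAll N ρ := fun e he => bIdx_mem hN1 (tSites_subset N he)
  have hTK : T ⊆ bAll N ρ := by
    intro b hb
    obtain ⟨⟨a1, a2⟩, ⟨a3, a4⟩⟩ := hmemT b hb
    obtain ⟨-, -, h3⟩ := nB_spec (r := ρ) hN1
    rw [hkz] at h3
    have h4 : (6 * M : ℤ) ≤ nB N ρ := by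
      by_contra hlt
      push Not at hlt
      have h5 : (nB N ρ : ℤ) * k ≤ (6 * M) * k :=
        mul_le_mul_of_nonneg_right hlt.le (by positivity)
      have hN8' : 8 * ((M : ℤ) * k) ≤ N := by exact_mod_cast hN8
      have h6 : (0 : ℤ) < M * k := by
        have : 0 < M * k := by omega
        exact_mod_cast this
      nlinarith
    unfold bAll
    rw [Finset.mem_product, Finset.mem_Ico, Finset.mem_Ico]
    omega
  have hmain := block_l1_event (s := tSites N) (β := bIdx ρ) (R := tRule N (bIdx ρ))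
    (localOn_windS hN1) (incr_windS N) hK (tRule_mem hK) hTK
    (tRule_det hN1 hK)
    (fun b => {ω | sit ω ∈ Circ (bCtr ρ b) s}) (fun b => {ω | sit ω ∉ ArmBox (bCtr ρ b) s (3 * s)})
    (fun b => zB (bCtr ρ b) r)
    (fun b hb => by
      obtain ⟨p1, p2, p3, p4⟩ := hpos b hb
      exact (localOn_circS _ s).mono (zB_subset_blk (by omega) (by omega)))
    (fun b _ => Pool.Agent.H83.SK.incr_sit (Pool.Agent.H29.Sep.incr_circ _ s))
    (fun b hb => by
      obtain ⟨p1, p2, p3, p4⟩ := hpos b hb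
      exact (localOn_noarmS _ s).mono (zB_subset_blk (by omega) (by omega)))
    (fun b _ => by
      have h := Pool.Agent.H83.SK.incr_sit (incr_armBox (bCtr ρ b) s (3 * s))
      have h2 : {ω : Config | sit ω ∉ ArmBox (bCtr ρ b) s (3 * s)}ᶜ =
          {ω | sit ω ∈ ArmBox (bCtr ρ b) s (3 * s)} := by
        ext ω
        simp
      rw [h2]
      exact h)
    (fun b hb ω hω => by
      obtain ⟨p1, p2, p3, p4⟩ := hpos b hb
      exact open_circ (le_refl s) hsR (by omega) (by omega) hω)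
    (fun b hb ω hω => by
      obtain ⟨p1, p2, p3, p4⟩ := hpos b hb
      exact closed_circ (le_refl s) hsR (by omega) (by omega) hω)
    q hc'0
    (fun b _ => (min_le_left c1 c2).trans (H1 N q hN1 hreg (bCtr ρ b) s (by omega) (by omega)))
    (fun b _ => (min_le_right c1 c2).trans (H2 N q hN1 hreg (bCtr ρ b) s (by omega) (by omega)))
  have hleft : ∑ b ∈ T, Pr q (BPiv (zB (bCtr ρ b) r) (WindS N)) = T.card * P := by
    rw [Finset.sum_congr rfl fun b hb => Pr_bpiv_zB hr (by omega) q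
      (by obtain ⟨p1, p2, p3, p4⟩ := hpos b hb; omega)
      (by obtain ⟨p1, p2, p3, p4⟩ := hpos b hb; omega), Finset.sum_const, nsmul_eq_mul]
  have hM0 : (0 : ℝ) < M := by exact_mod_cast hM
  have hrev : ∀ b ∈ T, Pr q {ω | b ∈ revealed (tSites N) (bIdx ρ) (tRule N (bIdx ρ)) ω
      (bAll N ρ).card} ≤ C * (1 / (M : ℝ)) ^ κ := by
    intro b hb
    obtain ⟨p1, p2, p3, p4⟩ := hpos b hb
    have h1 : ρ + 1 ≤ M * k := by omega
    have h2 := tRule_arm (N := N) (β := bIdx ρ) (b := b) (z := bCtr ρ b) (ρ := ρ) (R := M * k)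
      (fun e he => (mem_blkT.1 he).2) h1 ⟨p1, p2⟩ ⟨p3, p4⟩ (bAll N ρ).card
    refine (Pr_mono h2).trans ((H3 N q hN1 hreg (bCtr ρ b) (ρ + 1) (M * k) (by omega) h1
      (by omega)).trans ?_)
    refine mul_le_mul_of_nonneg_left (Real.rpow_le_rpow (by positivity) ?_ hκ.le) hC.le
    have hk0 : (0 : ℝ) < k := by
      have : 0 < k := by omega
      exact_mod_cast this
    rw [div_le_div_iff₀ (by positivity) hM0]
    have h5 : (((ρ + 1 : ℕ) : ℝ)) ≤ k := by exact_mod_cast (by omega : ρ + 1 ≤ k)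
    push_cast at h5 ⊢
    nlinarith
  rw [hleft] at hmain
  have hsum : ∑ b ∈ T, Pr q {ω | b ∈ revealed (tSites N) (bIdx ρ) (tRule N (bIdx ρ)) ω
      (bAll N ρ).card} ≤ T.card * (C * (1 / (M : ℝ)) ^ κ) := by
    refine (Finset.sum_le_sum hrev).trans ?_
    rw [Finset.sum_const, nsmul_eq_mul]
  have hTpos : (0 : ℝ) < T.card := by rw [hTcard]; positivity
  have hsq : (T.card * P) ^ 2 ≤ 2 / c' * (T.card * (C * (1 / (M : ℝ)) ^ κ)) :=
    hmain.trans (mul_le_mul_of_nonneg_left hsum (by positivity))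
  have h7 : (T.card : ℝ) * P ^ 2 ≤ 2 / c' * (C * (1 / (M : ℝ)) ^ κ) := by
    have h8 : (T.card : ℝ) * ((T.card : ℝ) * P ^ 2) ≤
        T.card * (2 / c' * (C * (1 / (M : ℝ)) ^ κ)) := by
      calc (T.card : ℝ) * ((T.card : ℝ) * P ^ 2) = (T.card * P) ^ 2 := by ring
        _ ≤ _ := hsq
        _ = _ := by ring
    exact le_of_mul_le_mul_left h8 hTpos
  have h9 : (M : ℝ) ^ 2 * P ^ 2 ≤ 2 / c' * (C * (1 / (M : ℝ)) ^ κ) := by
    refine le_trans ?_ h7
    rw [hTcard]
    have : 0 ≤ (M : ℝ) ^ 2 * P ^ 2 := by positivity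
    linarith
  have h10 : (1 / (M : ℝ)) ^ (2 + κ) = (1 / (M : ℝ)) ^ κ / (M : ℝ) ^ 2 := by
    rw [Real.rpow_add (by positivity), Real.rpow_two]
    field_simp
  rw [h10, ← mul_div_assoc, le_div_iff₀ (by positivity)]
  calc P ^ 2 * (M : ℝ) ^ 2 = (M : ℝ) ^ 2 * P ^ 2 := by ring
    _ ≤ _ := h9
    _ = _ := by ring

/-- **Level-one bound**: the probability that a block of radius `r` is pivotal for the winding of
the torus of side `N` is at most `C (r / N) ^ (1 + δ)`. -/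
theorem blockUp : Pool.Agent.H92.SN.BlockUp := by
  intro c hc
  obtain ⟨C, κ, hC, hκ, H⟩ := blockUp_large hc
  refine ⟨(1 + C) * 208 ^ (1 + κ / 2), κ / 2, by positivity, by positivity, ?_⟩
  intro N r q hr h4 hreg
  have hr0 : (0 : ℝ) < r := by exact_mod_cast hr
  have hN0 : (0 : ℝ) < N := by exact_mod_cast (by omega : 0 < N)
  set P : ℝ := Pr q (BlockPiv N r) with hP
  have hP0 : 0 ≤ P := Pr_nonneg
  have hP1 : P ≤ 1 := Pr_le_one
  set x : ℝ := 208 * ((r : ℝ) / N) with hx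
  have hx0 : 0 < x := by positivity
  have hgoal : P ≤ (1 + C) * x ^ (1 + κ / 2) := by
    rcases lt_or_ge N (16 * (6 * r + 7)) with hlt | hge
    · have h1 : 1 ≤ x := by
        rw [hx, ← mul_div_assoc, one_le_div hN0]
        have : N ≤ 208 * r := by omega
        exact_mod_cast this
      have h2 : 1 ≤ x ^ (1 + κ / 2) := Real.one_le_rpow h1 (by positivity)
      nlinarith
    · set k : ℕ := 6 * r + 7 with hk
      set M : ℕ := N / (8 * k) with hM
      have hk0 : 0 < 8 * k := by omega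
      have h1 : M * (8 * k) ≤ N := Nat.div_mul_le_self _ _
      have h2 : N < (M + 1) * (8 * k) := by
        have h := Nat.lt_mul_div_succ N hk0
        calc N < 8 * k * (N / (8 * k) + 1) := h
          _ = _ := Nat.mul_comm _ _
      have hM2 : 2 ≤ M := by
        rw [hM, Nat.le_div_iff_mul_le hk0]
        omega
      have h3 := H N r M q hr (by omega) (by calc 8 * M * k = M * (8 * k) := by ring
                                                _ ≤ N := h1) hreg
      have hM0 : (0 : ℝ) < M := by exact_mod_cast (by omega : 0 < M)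
      have h5 : 1 / (M : ℝ) ≤ x := by
        have h6 : N ≤ M * (208 * r) := by
          have h7 : (M + 1) * (8 * k) ≤ M * (16 * k) := by nlinarith
          have h8 : M * (16 * k) ≤ M * (208 * r) := Nat.mul_le_mul_left _ (by omega)
          omega
        have h6' : (N : ℝ) ≤ M * (208 * r) := by exact_mod_cast h6
        rw [hx, div_le_iff₀ hM0]
        have h9 : 208 * ((r : ℝ) / N) * M = M * (208 * r) / N := by ring
        rw [h9, le_div_iff₀ hN0]
        linarith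
      have h6 : (1 / (M : ℝ)) ^ (2 + κ) ≤ x ^ (2 + κ) :=
        Real.rpow_le_rpow (by positivity) h5 (by positivity)
      have h7 : x ^ (2 + κ) = (x ^ (1 + κ / 2)) ^ 2 := by
        rw [← Real.rpow_natCast, ← Real.rpow_mul hx0.le]
        congr 1
        push_cast
        ring
      have h8 : P ^ 2 ≤ ((1 + C) * x ^ (1 + κ / 2)) ^ 2 := by
        have h9 : P ^ 2 ≤ C * (x ^ (1 + κ / 2)) ^ 2 := by
          rw [← h7]
          exact h3.trans (mul_le_mul_of_nonneg_left h6 hC.le)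
        have h10 : 0 ≤ (x ^ (1 + κ / 2)) ^ 2 := by positivity
        rw [mul_pow]
        nlinarith
      exact le_of_sq_le_sq h8 (by positivity)
  rw [hx, Real.mul_rpow (by norm_num) (by positivity)] at hgoal
  calc P ≤ _ := hgoal
    _ = _ := by ring

end Pool.Agent.H13.SK

end

section

/-!
# Lower bound for the probability that a block is pivotal (sites, block OSSS)
-/

open MeasureTheory ProbabilityTheory unitInterval

namespace Pool.Agent.H13.SK

open Pool.Agent.H89.Perc Pool.Agent.H85.Kes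
open Pool.Agent.H83.SK (sit sv sit_mono)
open Pool.Agent.H92.SN (tSites WindS blkS BlockPiv SReg)
open Pool.Agent.H83.SK.WG (mem_tSites localOn_windS incr_windS)
open Pool.Agent.H61.NC (Two Ring mid)
open Pool.Agent.H31.EX (bIdx bAll nB nB_spec bIdx_mem sum_rpow_le sum_blocks_le)

/-- The blocks of the tiling have smaller influence than the block in the middle. -/
theorem Pr_blkT_le {N r : ℕ} (hr : 1 ≤ r) (h4 : 4 * r ≤ N) (q : I) (b : ℤ × ℤ) :
    Pr q (BPiv (blk (tSites N) (bIdx r) b) (WindS N)) ≤ Pr q (BlockPiv N r) := by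
  classical
  have hN : 1 ≤ N := by omega
  set z : Vert := (b.1 * (2 * r + 1) + r - mid N, b.2 * (2 * r + 1) + r - mid N) with hz
  rw [blockPiv_eq, ← Pr_bpiv_tau hN q (blkS_subset hr h4) z]
  refine Pr_mono (Pool.Agent.H31.EX.bpiv_mono ?_ (incr_windS N))
  intro e he
  rw [mem_blkT, mem_tSites] at he
  obtain ⟨⟨h0, h1, h2, h3, h5⟩, h6⟩ := he
  rw [mem_ball] at h6
  simp only [src, bCtr] at h6
  rw [Finset.mem_image]
  refine ⟨(e.1 - z.1, e.2.1 - z.2, e.2.2), ?_, ?_⟩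
  · rw [← zB_mid, mem_zB]
    simp only [hz]
    exact ⟨h0, by omega, by omega⟩
  · unfold torusSym_tau
    simp only [sub_add_cancel]
    rw [Int.emod_eq_of_lt h1 h2, Int.emod_eq_of_lt h3 h5]

/-- The influence of a block of radius `r` on the winding event is at least
`(r / N) ^ (2 - δ)` in the box-crossing regime. -/
theorem blockLow : Pool.Agent.H92.SN.BlockLow := by
  classical
  intro c hc
  obtain ⟨C, a, hC, ha, ha4, hdec⟩ := Pool.Agent.H83.SK.armBox_decay0 hc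
  set b : ℝ := a with hb
  have hb0 : 0 < b := ha
  have hb1 : b ≤ 1 / 2 := by linarith
  set C1 : ℝ := 1 + 2 * C with hC1
  have hC1p : 1 ≤ C1 := by linarith
  refine ⟨8 * C1 / c ^ 8, b, by positivity, hb0, ?_⟩
  intro N r q hr h4 hreg
  have hN4 : 4 ≤ N := by omega
  have hN1 : 1 ≤ N := by omega
  set P : ℝ := Pr q (BlockPiv N r) with hP
  have hP0 : 0 ≤ P := Pr_nonneg
  set K : ℕ := nB N r with hK
  obtain ⟨hK1, hK2, hK3⟩ := nB_spec (r := r) hN1
  rw [← hK] at hK1 hK2 hK3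
  have hKm : ∀ e ∈ tSites N, bIdx r e ∈ bAll N r := fun e he => bIdx_mem hN1 (tSites_subset N he)
  have hosss := block_osss (s := tSites N) (β := bIdx r) (R := tRule N (bIdx r))
    (localOn_windS hN1) (incr_windS N) hKm (tRule_mem hKm) (tRule_det hN1 hKm) q
  -- the revealment
  set G : ℕ → ℝ := fun d => C1 * ((d : ℝ) + 1) ^ (-b) with hG
  have hG0 : ∀ d, 0 ≤ G d := fun d => by
    have : (0 : ℝ) ≤ ((d : ℝ) + 1) ^ (-b) := by positivity
    exact mul_nonneg (by linarith) this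
  set g : ℤ × ℤ → ℝ := fun x =>
    Pr q {ω | x ∈ revealed (tSites N) (bIdx r) (tRule N (bIdx r)) ω (bAll N r).card} with hg
  have hgG : ∀ x ∈ Finset.Ico (0 : ℤ) K ×ˢ Finset.Ico (0 : ℤ) K, ∀ d : ℕ, (d : ℤ) ≤ x.1 →
      (d : ℤ) ≤ K - 1 - x.1 → (d : ℤ) ≤ x.2 → (d : ℤ) ≤ K - 1 - x.2 → g x ≤ G d := by
    intro x hx d d1 d2 d3 d4
    rcases Nat.eq_zero_or_pos d with h0 | hd
    · have : g x ≤ 1 := Pr_le_one
      have h5 : G d = C1 := by rw [hG, h0]; simp
      rw [h5]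
      linarith
    · obtain ⟨R, hR⟩ : ∃ R : ℕ, R + r = d * (2 * r + 1) :=
        ⟨d * (2 * r + 1) - r, by
          have : r ≤ d * (2 * r + 1) := by nlinarith
          omega⟩
      have hRr : (r + 1) * d ≤ R := by
        have : (r + 1) * d + r ≤ d * (2 * r + 1) := by nlinarith
        omega
      have hRr1 : r + 1 ≤ R := by nlinarith
      have hRw : (R : ℤ) + r = d * (2 * r + 1) := by exact_mod_cast hR
      have hw0 : (0 : ℤ) < 2 * r + 1 := by positivity
      have g1 : (d : ℤ) * (2 * r + 1) ≤ x.1 * (2 * r + 1) :=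
        mul_le_mul_of_nonneg_right d1 hw0.le
      have g3 : (d : ℤ) * (2 * r + 1) ≤ x.2 * (2 * r + 1) :=
        mul_le_mul_of_nonneg_right d3 hw0.le
      have g2 : (d : ℤ) * (2 * r + 1) ≤ (K - 1) * (2 * r + 1) - x.1 * (2 * r + 1) := by
        have := mul_le_mul_of_nonneg_right d2 hw0.le
        linarith [this, sub_mul ((K : ℤ) - 1) x.1 (2 * (r : ℤ) + 1)]
      have g4 : (d : ℤ) * (2 * r + 1) ≤ (K - 1) * (2 * r + 1) - x.2 * (2 * r + 1) := by
        have := mul_le_mul_of_nonneg_right d4 hw0.le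
        linarith [this, sub_mul ((K : ℤ) - 1) x.2 (2 * (r : ℤ) + 1)]
      have hr1 : (1 : ℤ) ≤ r := by exact_mod_cast hr
      have q1 : (R : ℤ) < (bCtr r x).1 := by simp only [bCtr]; omega
      have q2 : (bCtr r x).1 + R < N := by simp only [bCtr]; omega
      have q3 : (R : ℤ) < (bCtr r x).2 := by simp only [bCtr]; omega
      have q4 : (bCtr r x).2 + R < N := by simp only [bCtr]; omega
      have hRN : R ≤ N := by omega
      have hsub := tRule_arm (N := N) (β := bIdx r) (b := x) (z := bCtr r x) (ρ := r) (R := R)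
        (fun e he => (mem_blkT.1 he).2) hRr1 ⟨q1, q2⟩ ⟨q3, q4⟩ (bAll N r).card
      have h10 : g x ≤ Pool.Agent.H83.SK.Pr q (ArmBox (bCtr r x) (r + 1) R) := Pr_mono hsub
      rw [Pool.Agent.H83.SK.Pr_armBox (p := q)] at h10
      have hR0 : (0 : ℝ) < R := by exact_mod_cast (by omega : 0 < R)
      have hd0 : (0 : ℝ) < d := by exact_mod_cast hd
      have hd1 : (1 : ℝ) ≤ d := by exact_mod_cast hd
      have hfrac : ((r + 1 : ℕ) : ℝ) / R ≤ 1 / d := by
        rw [div_le_div_iff₀ hR0 hd0, one_mul]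
        exact_mod_cast hRr
      have hx1 := hdec N (r + 1) R q hreg (by omega) hRr1 hRN
      have hy : C * (((r + 1 : ℕ) : ℝ) / R) ^ a ≤ C * (1 / (d : ℝ)) ^ a :=
        mul_le_mul_of_nonneg_left (Real.rpow_le_rpow (by positivity) hfrac ha.le) hC.le
      have h11 : g x ≤ C * (1 / (d : ℝ)) ^ b := h10.trans (hx1.trans hy)
      refine h11.trans ?_
      have h13 : (1 / (d : ℝ)) ^ b ≤ 2 * ((d : ℝ) + 1) ^ (-b) := by
        have h14 : (1 / (d : ℝ)) ≤ 2 / ((d : ℝ) + 1) := by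
          rw [div_le_div_iff₀ hd0 (by positivity)]
          linarith
        have h15 : (1 / (d : ℝ)) ^ b ≤ (2 / ((d : ℝ) + 1)) ^ b :=
          Real.rpow_le_rpow (by positivity) h14 hb0.le
        have h16 : (2 / ((d : ℝ) + 1)) ^ b = 2 ^ b * ((d : ℝ) + 1) ^ (-b) := by
          rw [Real.div_rpow (by norm_num) (by positivity), Real.rpow_neg (by positivity)]
          rfl
        have h17 : (2 : ℝ) ^ b ≤ 2 := by
          calc (2 : ℝ) ^ b ≤ 2 ^ (1 : ℝ) :=
                Real.rpow_le_rpow_of_exponent_le (by norm_num) (by linarith)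
            _ = 2 := by norm_num
        rw [h16] at h15
        refine h15.trans (mul_le_mul_of_nonneg_right h17 (by positivity))
      have h18 : (0 : ℝ) ≤ ((d : ℝ) + 1) ^ (-b) := by positivity
      calc C * (1 / (d : ℝ)) ^ b ≤ C * (2 * ((d : ℝ) + 1) ^ (-b)) :=
            mul_le_mul_of_nonneg_left h13 hC.le
        _ = (2 * C) * ((d : ℝ) + 1) ^ (-b) := by ring
        _ ≤ C1 * ((d : ℝ) + 1) ^ (-b) := mul_le_mul_of_nonneg_right (by linarith) h18
  have hsum := sum_blocks_le hG0 hgG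
  have hsumG : ∑ d ∈ Finset.range K, G d ≤ C1 * (2 * (K : ℝ) ^ (1 - b)) := by
    rw [hG, ← Finset.mul_sum]
    exact mul_le_mul_of_nonneg_left (sum_rpow_le hb0.le hb1 K) (by linarith)
  have hK0 : (0 : ℝ) < K := by exact_mod_cast hK1
  have hKpow : (K : ℝ) * (K : ℝ) ^ (1 - b) = (K : ℝ) ^ (2 - b) := by
    rw [show (2 - b : ℝ) = 1 + (1 - b) by ring, Real.rpow_add hK0, Real.rpow_one]
  have hfin : Pr q (WindS N) * (1 - Pr q (WindS N)) ≤ 8 * C1 * (K : ℝ) ^ (2 - b) * P := by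
    have h20 : Pr q (WindS N) * (1 - Pr q (WindS N)) ≤
        ∑ x ∈ Finset.Ico (0 : ℤ) K ×ˢ Finset.Ico (0 : ℤ) K, g x * P := by
      refine hosss.trans (Finset.sum_le_sum fun x _ => ?_)
      exact mul_le_mul_of_nonneg_left (Pr_blkT_le hr h4 q x) Pr_nonneg
    rw [← Finset.sum_mul] at h20
    refine h20.trans (mul_le_mul_of_nonneg_right ?_ hP0)
    refine hsum.trans ?_
    calc 4 * (K : ℝ) * ∑ d ∈ Finset.range K, G d ≤ 4 * K * (C1 * (2 * (K : ℝ) ^ (1 - b))) :=
          mul_le_mul_of_nonneg_left hsumG (by positivity)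
      _ = 8 * C1 * ((K : ℝ) * (K : ℝ) ^ (1 - b)) := by ring
      _ = _ := by rw [hKpow]
  have hlow : c ^ 8 ≤ Pr q (WindS N) * (1 - Pr q (WindS N)) := by
    have h21 := Pool.Agent.H83.SK.WG.wind_reg_lower hc hreg hN4
    have h22 := Pool.Agent.H83.SK.WG.wind_reg_upper hc hreg hN4
    calc c ^ 8 = c ^ 4 * c ^ 4 := by ring
      _ ≤ _ := mul_le_mul h21 h22 (by positivity) Pr_nonneg
  have hr0 : (0 : ℝ) < r := by exact_mod_cast hr
  have hNr : (0 : ℝ) < N := by exact_mod_cast hN1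
  have hKN : (K : ℝ) ≤ (N : ℝ) / r := by
    rw [le_div_iff₀ hr0]
    have h23 : K * (2 * r + 1) ≤ N + 2 * r := Nat.div_mul_le_self _ _
    have h24 : K * r ≤ N := by
      by_contra hlt
      push Not at hlt
      have : K * (2 * r + 1) = 2 * (K * r) + K := by ring
      nlinarith
    exact_mod_cast h24
  have hKN' : (K : ℝ) ^ (2 - b) ≤ ((N : ℝ) / r) ^ (2 - b) :=
    Real.rpow_le_rpow hK0.le hKN (by linarith)
  have hinv : ((r : ℝ) / N) ^ (2 - b) * ((N : ℝ) / r) ^ (2 - b) = 1 := by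
    rw [← Real.mul_rpow (by positivity) (by positivity)]
    have : (r : ℝ) / N * (N / r) = 1 := by field_simp
    rw [this, Real.one_rpow]
  have hx0 : 0 ≤ ((r : ℝ) / N) ^ (2 - b) := by positivity
  have hall : c ^ 8 ≤ 8 * C1 * ((N : ℝ) / r) ^ (2 - b) * P :=
    hlow.trans (hfin.trans (by gcongr))
  have hc8 : 0 < c ^ 8 := by positivity
  rw [div_mul_eq_mul_div, le_div_iff₀ hc8]
  calc ((r : ℝ) / N) ^ (2 - b) * c ^ 8
      ≤ ((r : ℝ) / N) ^ (2 - b) * (8 * C1 * ((N : ℝ) / r) ^ (2 - b) * P) :=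
        mul_le_mul_of_nonneg_left hall hx0
    _ = 8 * C1 * P * (((r : ℝ) / N) ^ (2 - b) * ((N : ℝ) / r) ^ (2 - b)) := by ring
    _ = 8 * C1 * P := by rw [hinv, mul_one]

end Pool.Agent.H13.SK

end

section

/-!
# The winding probability changes by a constant above the characteristic length
-/

set_option autoImplicit false

open MeasureTheory ProbabilityTheory unitInterval

namespace Pool.Agent.H83.SK.WG

open Pool.Agent.H89.Perc Pool.Agent.H83.Site Pool.Agent.H83.SK.Dict Pool.Agent.H13.SK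
open Pool.Agent.H92.SN (WindS tSites)

/-- The regime of the centred lattice is the regime of the induced bond configuration. -/
theorem rswreg_of_regT {c : ℝ} {n : ℕ} {q : I} (h : RegT 4 c n q) : RSWreg c n q :=
  rswreg_iff.2 fun m h1 h2 => by
    have := h m h1 h2
    push_cast at this
    exact this

/-- The winding probability has increased by a constant above a good scale of the open sites. -/
theorem gap_plus : ∃ δ > (0 : ℝ), ∃ c > (0 : ℝ), ∀ (p : I) (m : ℕ), 1 ≤ m →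
    Good δ p false m →
    c ≤ Pool.Agent.H89.Perc.Pr p (WindS (14 * m)) -
      Pool.Agent.H89.Perc.Pr pc (WindS (14 * m)) := by
  obtain ⟨δ, hδ, c, hc, h⟩ := wind_gap_plus
  exact ⟨δ, hδ, c, hc, fun p m hm hg => h p m (14 * m) hm (by omega) (by omega) hg⟩

/-- The winding probability has decreased by a constant above a good scale of the closed sites. -/
theorem gap_minus : ∃ δ > (0 : ℝ), ∃ c > (0 : ℝ), ∀ (p : I) (m : ℕ), 1 ≤ m →
    Good δ (σ p) true m →
    c ≤ Pool.Agent.H89.Perc.Pr pc (WindS (14 * m)) -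
      Pool.Agent.H89.Perc.Pr p (WindS (14 * m)) := by
  obtain ⟨δ, hδ, c, hc, h⟩ := wind_gap_minus
  exact ⟨δ, hδ, c, hc, fun p m hm hg => h p m (14 * m) hm (by omega) (by omega) hg⟩

end Pool.Agent.H83.SK.WG

end

section

/-!
# The near-critical facts of site percolation on the square lattice, from gluing on the torus
-/

set_option autoImplicit false

open MeasureTheory ProbabilityTheory unitInterval

namespace Pool.Agent.H13.SK

open Pool.Agent.H89.Perc Pool.Agent.H83.Site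
open Pool.Agent.H92.SN (SReg WindS GLTorus)

/-- The near-critical interface holds. -/
theorem nc_holds (hGL : GLTorus) :
    NC Pool.Agent.H92.SN.a4 (fun q N => Pool.Agent.H89.Perc.Pr q (WindS N)) SReg where
  dict := fun c hc => ⟨c, hc, fun _ _ h =>
    Pool.Agent.H83.SK.WG.rswreg_of_regT (h.mono_K (by norm_num))⟩
  up := fun c hc => by
    obtain ⟨C, hC, h⟩ := Pool.Agent.H92.SN.scale_upper' hGL blockLow c hc
    exact ⟨C, hC, h⟩
  lo := fun c hc => by
    obtain ⟨C, hC, h⟩ := Pool.Agent.H92.SN.scale_lower' hGL blockLow c hc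
    exact ⟨C, hC, h⟩
  low := fun c hc => by
    obtain ⟨C, δ, hC, hδ, hδ1, h⟩ := Pool.Agent.H92.SN.a4_low hGL blockLow c hc
    exact ⟨C, hC, δ, hδ, hδ1, h⟩
  high := fun c hc => by
    obtain ⟨C, δ, hC, hδ, hδ1, h⟩ := Pool.Agent.H92.SN.a4_up hGL blockLow blockUp c hc
    exact ⟨C, hC, δ, hδ, hδ1, h⟩
  nonneg := Pool.Agent.H92.SN.a4_nonneg
  anti := fun q _ _ h1 h => Pool.Agent.H92.SN.a4_anti q h1 h
  pos := Pool.Agent.H92.SN.a4_one_pos pc_lt_one
  gap := by
    obtain ⟨δ₁, hδ₁, c₁, hc₁, h1⟩ := Pool.Agent.H83.SK.WG.gap_plus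
    obtain ⟨δ₂, hδ₂, c₂, hc₂, h2⟩ := Pool.Agent.H83.SK.WG.gap_minus
    refine ⟨min δ₁ δ₂, lt_min hδ₁ hδ₂, min c₁ c₂, lt_min hc₁ hc₂, ?_, ?_⟩
    · intro p _ m hm hg
      exact (min_le_left _ _).trans (h1 p m hm (hg.mono (min_le_left _ _)))
    · intro p _ m hm hg
      exact (min_le_right _ _).trans (h2 p m hm (hg.mono (min_le_right _ _)))

end Pool.Agent.H13.SK

end

section

/-!
# With the source closed there is no winding path
-/

set_option autoImplicit false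

open MeasureTheory ProbabilityTheory unitInterval

namespace Pool.Agent.H83.PST

open Pool.Agent.H89.Perc
open Pool.Agent.H61.NC (modE)
open Pool.Agent.H83.SK (sv sit sit_true RSWreg)
open Pool.Agent.H59.EX (LocS inE touch clus closeS Side T Mouth Fence dom pb grid)
open Pool.Agent.H38.N59 (vE rv fillS Src Sep FX FY det Seal Four sv_mem_vE sit_joins)
open Pool.Agent.H26.ST (Cor glu PerInv sh TD Rel1 In joins_sh mulN mem_Cor in_sh in_sh0 conn_sh perInv_per)
open Pool.Agent.H92.SN (WindS tSites)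

variable {N k : ℕ} {w η : Config} {X Y : Set Vert} {a b : Vert} {i j : ℤ × ℤ}

/-- The data of the deterministic argument. -/
structure TS (N k : ℕ) (w : Config) (X Y : Set Vert) : Prop where
  td : TD N k (sit w) X Y
  pw : PerInv N w
  cX : ∀ a ∈ X, ∀ b ∈ dom .W .E k, ∀ e, Joins e a b → w (sv b) = true → b ∈ X
  cY : ∀ a ∈ Y, ∀ b ∈ dom .W .E k, ∀ e, Joins e a b → w (sv b) = true → b ∈ Y

/-- Open determined sites belong to a sausage. -/
theorem TS.det (h : TS N k w X Y) (hb : w (sv b) = true)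
    (ht : sv b ∈ Pool.Agent.H38.N59.det (modE N) .W .E k (CC N k) (X ∪ Y)) :
    ∃ i, In N k X Y i b := by
  obtain ⟨e', he', hm⟩ := ht
  have hz : ∃ z : ℤ × ℤ, e' = sv (sh N z b) := by
    obtain ⟨x, y⟩ := b
    obtain ⟨x', y', t'⟩ := e'
    simp only [sv, modE, Prod.mk.injEq] at hm
    obtain ⟨h1, h2, h3⟩ := hm
    obtain ⟨m1, hm1⟩ : (N : ℤ) ∣ x - x' := Int.ModEq.dvd (Int.ModEq.symm h1)
    obtain ⟨m2, hm2⟩ : (N : ℤ) ∣ y - y' := Int.ModEq.dvd (Int.ModEq.symm h2)
    refine ⟨(m1, m2), ?_⟩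
    simp only [sv, sh, Prod.mk.injEq]
    refine ⟨?_, ?_, h3.symm⟩
    · rw [mul_comm] at hm1; omega
    · rw [mul_comm] at hm2; omega
  obtain ⟨z, rfl⟩ := hz
  have hb' : w (sv (sh N z b)) = true := by rw [per_sv_sh h.pw]; exact hb
  have hX : sh N z b ∈ X → ∃ i, In N k X Y i b := by
    intro h1
    refine ⟨(z.1 - 1, z.2), Or.inr (Or.inr ?_)⟩
    simpa using h1
  have hY : sh N z b ∈ Y → ∃ i, In N k X Y i b := fun h1 => ⟨z, Or.inl h1⟩
  rcases he' with he' | he'
  · obtain ⟨a', e, hj, ha', hbD, hS⟩ := Pool.Agent.H38.N59.of_mem_rv he'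
    rcases hS with (hS | hS) | (hS | hS)
    · exact hX (h.cX a' hS _ hbD e hj hb')
    · exact hY (h.cY a' hS _ hbD e hj hb')
    · exact hX hS
    · exact hY hS
  · rw [sv_mem_vE] at he'
    rcases he' with he' | he'
    · exact ⟨z, Or.inr (Or.inl he'.1)⟩
    · exact hX (h.td.TX he')

/-- The cluster of a sausage does not reach other sausages. -/
theorem TS.confine (h : TS N k w X Y) {ρ K : ℕ} (hρ : 1 ≤ ρ) (hρk : 8 * ρ ≤ k) (hK : N ≤ K * ρ)
    (hle : ∀ e, w e = true → η e = true)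
    (hseal : η ∈ Seal (grid ρ K) ρ (Pool.Agent.H38.N59.det (modE N) .W .E k (CC N k) (X ∪ Y)))
    {x z : Vert} (hx : In N k X Y (0, 0) x) (hc : Conn (sit w) Set.univ x z)
    (hz : In N k X Y j z) : j = (0, 0) := by
  have hk := h.td.hk
  have hN : (128 * k : ℤ) ≤ N := by exact_mod_cast h.td.hN
  have hρk' : (8 * ρ : ℤ) ≤ k := by exact_mod_cast hρk
  by_contra hj
  have key := Pool.Agent.H38.N59.seal_confine (η := w) (w := η) (W := Set.univ)
    (S := {v | In N k X Y (0, 0) v})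
    (F := {v | ∃ j : ℤ × ℤ, j ≠ (0, 0) ∧ In N k X Y j v})
    (Ex := {a | 28 * (k : ℤ) ≤ a.1 ∧ a.1 ≤ N - 28 * k ∧ -(4 * k : ℤ) ≤ a.2 ∧ a.2 ≤ 4 * k})
    (t := Pool.Agent.H38.N59.det (modE N) .W .E k (CC N k) (X ∪ Y)) (G := grid ρ K) (ρ := ρ)
    (fun e _ => hle _) hseal ?_ ?_ ?_ ?_ (x := x) (z := z) hx hc
  · rcases key with h1 | ⟨h1, -⟩
    · exact hj (h.td.sep hz h1 (Or.inl rfl))
    · exact h1 ⟨j, hj, hz⟩
  · rintro a ⟨h1, h2, h3, h4⟩ b hab
    have hK' : (N : ℤ) ≤ ((K * ρ : ℕ) : ℤ) := by exact_mod_cast hK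
    refine Pool.Agent.H59.EX.exists_grid hρ ?_
    rw [mem_ball] at hab
    rw [mem_ball, Prod.fst_zero, Prod.snd_zero]
    push_cast at hab
    omega
  · intro a b e he ho ho' _ _ ha hb
    have hoe : sit w e = true := (sit_joins he).2 ⟨ho, ho'⟩
    refine ⟨h.td.exit ha hb he hoe, ?_, ?_⟩
    · rintro ⟨j', hj', hb'⟩
      exact hj' (h.td.sep hb' ha (Or.inr ⟨e, he.symm, hoe⟩))
    · intro ht
      obtain ⟨i, hi⟩ := h.det ho' ht
      have h1 := h.td.sep ha hi (Or.inr ⟨e, he, hoe⟩)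
      subst h1
      exact hb hi
  · rintro a b e he ho ho' - - ha ha' ⟨j', hj', hb⟩ x ⟨h1, h2, h3, h4⟩ hbx
    have hoe : sit w e = true := (sit_joins he).2 ⟨ho, ho'⟩
    have ha2 : ¬ In N k X Y (0, 0) (sh N j' a) := by
      rw [in_sh0]
      exact fun h5 => ha' ⟨j', hj', h5⟩
    have hb2 : In N k X Y (0, 0) (sh N j' b) := in_sh0.2 hb
    have h5 := h.td.exit hb2 ha2 (joins_sh j' he.symm)
      (by rw [Pool.Agent.H26.ST.per_sh h.td.per]; exact hoe)
    have e1 := mulN N j'.1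
    have e2 := mulN N j'.2
    obtain ⟨j1, j2⟩ := j'
    have hj3 : j1 ≠ 0 ∨ j2 ≠ 0 := by
      by_contra hcon
      push Not at hcon
      exact hj' (by rw [hcon.1, hcon.2])
    simp only [sh] at h5
    rw [mem_ball] at hbx
    push_cast at hbx
    simp only at e1 e2
    omega
  · intro a b e he ho ho' _ _ ha ha' hb hb' ht
    obtain ⟨i, hi⟩ := h.det ho' ht
    by_cases h0 : i = (0, 0)
    · subst h0
      exact hb hi
    · exact hb' ⟨i, h0, hi⟩

/-- No winding path. -/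
theorem TS.not_wind (h : TS N k w X Y) {ρ K : ℕ} (hρ : 1 ≤ ρ) (hρk : 8 * ρ ≤ k) (hK : N ≤ K * ρ)
    (hle : ∀ e, w e = true → η e = true)
    (hH : η ∈ HT N k ρ K (X ∪ Y)) {u : Vert} {p q : ℤ} (hp : p ≠ 0) :
    ¬ Conn (sit w) Set.univ u (u.1 + p * N, u.2 + q * N) := by
  intro hc
  have hk := h.td.hk
  have hN : (128 * k : ℤ) ≤ N := by exact_mod_cast h.td.hN
  have hsh : ∀ w : Vert, sh N (-p, -q) w = (w.1 + p * N, w.2 + q * N) := by
    intro w
    simp only [sh, Prod.mk.injEq]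
    constructor <;> ring
  by_cases hU : ∃ v, Conn (sit w) Set.univ u v ∧ ∃ i, In N k X Y i v
  · obtain ⟨v, hv, i, hi⟩ := hU
    have h1 : Conn (sit w) Set.univ (sh N (-p, -q) u) (sh N (-p, -q) v) :=
      conn_sh h.td.per (-p, -q) (T := Set.univ) (fun _ _ => trivial) hv
    rw [hsh] at h1
    have h2 : Conn (sit w) Set.univ v (sh N (-p, -q) v) := (hv.symm.trans hc).trans h1
    have h3 := conn_sh h.td.per i (T := Set.univ) (fun _ _ => trivial) h2
    have h4 : In N k X Y (p, q) (sh N i (sh N (-p, -q) v)) := by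
      rw [in_sh, in_sh]
      have e : (p + i.1 + (-p, -q).1, q + i.2 + (-p, -q).2) = i :=
        Prod.ext (by simp only; ring) (by simp only; ring)
      simp only at e ⊢
      rw [e]
      exact hi
    have h5 := h.confine hρ hρk hK hle hH.1 (in_sh0.2 hi) h3 h4
    rw [Prod.mk.injEq] at h5
    exact hp h5.1
  · push Not at hU
    have h1 : Conn (sit w) {v | ∀ i, ¬ In N k X Y i v} u (u.1 + p * N, u.2 + q * N) := by
      refine hc.induction_right (P := fun v => Conn (sit w) {v | ∀ i, ¬ In N k X Y i v} u v)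
        (Conn.refl (hU u (Conn.refl trivial))) ?_
      intro v v' hv hs ih
      exact ih.tail ⟨ih.mem_right, hU v' (hv.tail hs), hs.2.2⟩
    have hinv : ∀ (j : ℤ × ℤ), ∀ v ∈ {v | ∀ i, ¬ In N k X Y i v},
        sh N j v ∈ {v | ∀ i, ¬ In N k X Y i v} := by
      intro j v hv i hi
      rw [in_sh] at hi
      exact hv _ hi
    have h2 := conn_sh h.td.per (-p, -q) (hinv _) h1
    have h3 := h1.trans (by rw [← hsh u] at h2 ⊢; exact h2)
    have hX : ¬ HCross (sit w) (40 * k) (50 * k) (3 * k + 1) (N - 3 * k - 1) := by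
      rintro ⟨a, b, h4, h5, h6⟩
      exact hH.2 ⟨a, b, h4, h5, h6.mono le_rfl (Pool.Agent.H83.SK.sit_mono hle)⟩
    have e1 := mulN N p
    rcases lt_or_gt_of_ne hp with h0 | h0
    · refine hX (h.td.strip h3.symm ?_)
      simp only [sh]
      have e2 : -p * (N : ℤ) = -(p * N) := by ring
      rw [e2]
      omega
    · refine hX (h.td.strip h3 ?_)
      simp only [sh]
      have e2 : -p * (N : ℤ) = -(p * N) := by ring
      rw [e2]
      omega

/-- With the site `0` closed. -/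
theorem zeta_cut {N : ℕ} {s : Src} (hs : IsSrc s) {ω : Config} {v : Vert}
    (h : per N (Function.update ω (sv 0) false) (sv v) = true) :
    s.cut (per N ω) (sv v) = true := by
  have h2 : per N (Function.update ω (sv 0) false) (sv v) =
      Function.update ω (sv 0) false (modE N (sv v)) := rfl
  have hne : modE N (sv v) ≠ sv 0 := by
    intro h1
    rw [h2, h1, Function.update_self] at h
    exact absurd h (by simp)
  have h3 : per N ω (sv v) = true := by
    rw [h2, Function.update_of_ne hne] at h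
    exact h
  rw [Pool.Agent.H38.N59.cut_sv]
  refine ⟨h3, ?_⟩
  rw [hs.V]
  intro h4
  rw [Finset.mem_singleton] at h4
  refine hne ?_
  rw [h4]
  simp [modE, sv]

/-- A point of a mouth is not near the origin. -/
theorem open_x {d : Side} {k : ℕ} (hk : 1 ≤ k) {w : Config} {D : Set Vert} {x : Vert}
    (hx : x ∈ ball 0 2) (h : Fence d k (sit w) D x) : w (sv x) = true := by
  rw [mem_ball, Prod.fst_zero, Prod.snd_zero] at hx
  push_cast at hx
  obtain ⟨u, hu, hc⟩ := Pool.Agent.H59.EX.fence_mem h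
  refine Pool.Agent.H38.N59.open_of_conn hc ?_
  rintro rfl
  cases d <;> simp only [T, rect, Set.mem_ofPred_eq] at hu <;> omega

theorem ts_of_sep {s : Src} (hs : IsSrc s) (hk : 64 ≤ k) (hN : 128 * k ≤ N)
    {ω : Config} (h1 : per N ω ∈ Sep s .W .E k) :
    TS N k (per N (Function.update ω (sv 0) false)) (FX s .W .E k (per N ω))
      (FY s .W .E k (per N ω)) := by
  obtain ⟨hx, hy, hxy, hmx, hmy⟩ := h1
  have hox : s.ful .W .E k (per N ω) (sv s.x) = true :=
    Pool.Agent.H38.N59.le_fillS (open_x (by omega) s.hx hx)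
  have hoy : s.ful .W .E k (per N ω) (sv s.y) = true :=
    Pool.Agent.H38.N59.le_fillS (open_x (by omega) s.hy hy)
  have hcX : ∀ a ∈ FX s .W .E k (per N ω), ∀ b ∈ dom .W .E k, ∀ e, Joins e a b →
      per N (Function.update ω (sv 0) false) (sv b) = true → b ∈ FX s .W .E k (per N ω) := by
    intro a ha b hb e he ho
    exact Pool.Agent.H38.N59.clus_adj ha (Pool.Agent.H38.N59.open_of_clus hox ha)
      (Pool.Agent.H38.N59.le_fillS (zeta_cut hs ho)) he hb
  have hcY : ∀ a ∈ FY s .W .E k (per N ω), ∀ b ∈ dom .W .E k, ∀ e, Joins e a b →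
      per N (Function.update ω (sv 0) false) (sv b) = true → b ∈ FY s .W .E k (per N ω) := by
    intro a ha b hb e he ho
    exact Pool.Agent.H38.N59.clus_adj ha (Pool.Agent.H38.N59.open_of_clus hoy ha)
      (Pool.Agent.H38.N59.le_fillS (zeta_cut hs ho)) he hb
  have hfill : ∀ (x : Vert) (Tt : Set Vert), Tt ⊆ T .W k ∪ T .E k →
      (∀ u ∈ Tt, ∀ v ∈ Tt, Conn allOpen Tt u v) →
      (∃ u ∈ Tt, Conn (sit (s.cut (per N ω))) (dom .W .E k) x u) →
      Tt ⊆ clus (sit (s.ful .W .E k (per N ω))) (dom .W .E k) {x} := by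
    rintro x Tt hT hcon ⟨u, hu, hc⟩ v hv
    rw [Pool.Agent.H59.EX.mem_clus_single]
    refine (Pool.Agent.H38.N59.conn_mono le_rfl (fun e he => Pool.Agent.H38.N59.le_fillS he)
      hc).trans ?_
    exact Pool.Agent.H38.N59.conn_fillS (fun w hw => Or.inr hw) ((hcon u hu v hv).mono_set hT)
  refine ⟨⟨hk, hN, perInv_sit (perInv_per _ _), Pool.Agent.H59.EX.clus_sub,
    Pool.Agent.H59.EX.clus_sub, ?_, ?_, ?_, ?_, ?_, ?_, ?_⟩, perInv_per _ _, hcX, hcY⟩
  · exact hfill s.x _ Set.subset_union_left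
      (fun u hu v hv => conn_rect hu hv) (Pool.Agent.H59.EX.fence_mem hx)
  · exact hfill s.y _ Set.subset_union_right
      (fun u hu v hv => conn_rect hu hv) (Pool.Agent.H59.EX.fence_mem hy)
  · intro v hv hv'
    rw [Pool.Agent.H38.N59.mem_FX] at hv
    rw [Pool.Agent.H38.N59.mem_FY] at hv'
    exact hxy (hv.trans hv'.symm)
  · intro a ha b hb e he ho
    exact hcX a ha b hb e he ((sit_joins he).1 ho).2
  · intro a ha b hb e he ho
    exact hcY a ha b hb e he ((sit_joins he).1 ho).2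
  · intro v hv hv'
    exact hmx v hv' (Pool.Agent.H38.N59.mem_FX.1 hv)
  · intro v hv hv'
    exact hmy v hv' (Pool.Agent.H38.N59.mem_FY.1 hv)

theorem closed_not_wind {ρ K : ℕ} {s : Src} (hs : IsSrc s) (hk : 64 ≤ k)
    (hN : 128 * k ≤ N) (hρ : 1 ≤ ρ) (hρk : 8 * ρ ≤ k) (hK : N ≤ K * ρ) {ω : Config}
    (h1 : per N ω ∈ Sep s .W .E k)
    (h3 : per N ω ∈ HT N k ρ K (FX s .W .E k (per N ω) ∪ FY s .W .E k (per N ω))) :
    Function.update ω (sv 0) false ∉ WindS N := by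
  rintro ⟨u, p, q, hp, hc⟩
  refine (ts_of_sep hs hk hN h1).not_wind hρ hρk hK (fun e he => ?_) h3 hp hc
  have h2 : per N (Function.update ω (sv 0) false) e =
      Function.update ω (sv 0) false (modE N e) := rfl
  rw [h2, Function.update_apply] at he
  split_ifs at he
  exact he

end Pool.Agent.H83.PST

end

section

/-!
# With the source open there is a winding path
-/

set_option autoImplicit false

open MeasureTheory ProbabilityTheory unitInterval

namespace Pool.Agent.H83.PST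

open Pool.Agent.H89.Perc
open Pool.Agent.H61.NC (modE)
open Pool.Agent.H83.SK (sv sit sit_true RSWreg)
open Pool.Agent.H59.EX (LocS inE touch clus closeS Side T Mouth Fence dom pb grid)
open Pool.Agent.H38.N59 (vE rv fillS Src Sep FX FY det Seal Four)
open Pool.Agent.H26.ST (Cor glu PerInv sh TD Rel1 In)
open Pool.Agent.H92.SN (WindS tSites)

private theorem conn_x {N : ℕ} {ζ : Config} (hp : PerInv N ζ) {S S' : Set Vert}
    (hS : ∀ w ∈ S, ((w.1 + N, w.2) : Vert) ∈ S') {u v : Vert} (h : Conn ζ S u v) :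
    Conn ζ S' (u.1 + N, u.2) (v.1 + N, v.2) := by
  refine h.map (fun w => (w.1 + N, w.2)) hS ?_
  intro e a b hj ho
  refine ⟨shiftE ((N : ℤ), 0) e, ?_, ?_⟩
  · have := joins_shift ((N : ℤ), 0) hj
    simpa using this
  · have := hp (1, 0) e
    rw [one_mul, zero_mul] at this
    rw [this]
    exact ho

/-- The path `x - 0 - y - T E - corridor - T W + (N, 0) - x + (N, 0)`. -/
theorem open_wind {N k : ℕ} {s : Src} (hs : IsSrc s) (hk : 64 ≤ k)
    (hN : 128 * k ≤ N) {ω : Config} (h1 : per N ω ∈ Sep s .W .E k)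
    (h2 : per N ω ∈ NpT N k) : Function.update ω (sv 0) true ∈ WindS N := by
  obtain ⟨ω', hω'⟩ : ∃ ω' : Config, ω' = Function.update ω (sv 0) true := ⟨_, rfl⟩
  rw [← hω']
  have hk' : (64 : ℤ) ≤ k := by exact_mod_cast hk
  have hN' : 128 * (k : ℤ) ≤ N := by exact_mod_cast hN
  have hle0 : ∀ e, ω e = true → ω' e = true := by
    intro e he
    rw [hω', Function.update_apply]
    split_ifs
    · rfl
    · exact he
  have hle : ∀ e, per N ω e = true → per N ω' e = true := fun e he => hle0 _ he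
  have hcut0 : ∀ e, s.cut (per N ω) e = true → per N ω' e = true := fun e he =>
    hle e (Pool.Agent.H38.N59.cut_le he)
  have hcut := Pool.Agent.H83.SK.sit_mono hcut0
  have hsle := Pool.Agent.H83.SK.sit_mono hle
  have hper : PerInv N (sit (per N ω')) := perInv_sit (Pool.Agent.H26.ST.perInv_per N ω')
  obtain ⟨⟨uW, vW, pW, qW, cW, dW⟩, ⟨uE, vE, pE, qE, cE, dE⟩, -⟩ := h1
  obtain ⟨u, v, p, q, c⟩ :
    HCross (sit (glu N k (per N ω))) (28 * k) (N - 28 * k) (-(3 * k)) (3 * k) := h2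
  rw [Pool.Agent.H26.ST.glu_per] at c
  have c1 := c.mono le_rfl hsle
  have cE1 : Conn (sit (per N ω')) (rect (28 * k) (36 * k) (-(3 * k)) (3 * k)) uE vE :=
    Conn.mono le_rfl hcut cE
  have cW1 : Conn (sit (per N ω')) (rect (-(36 * k)) (-(28 * k)) (-(3 * k)) (3 * k)) uW vW :=
    Conn.mono le_rfl hcut cW
  have cW2 := conn_x hper (S' := rect (N - 36 * k) (N - 28 * k) (-(3 * k)) (3 * k)) (fun w hw => by
    simp only [rect, Set.mem_ofPred_eq] at hw ⊢
    omega) cW1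
  obtain ⟨z1, a1, b1⟩ := Pool.Agent.H85.Strict.hv_meet c1 (by omega) (by omega) cE1 (by omega)
    (by omega) (by omega) (by omega)
  obtain ⟨z2, a2, b2⟩ := Pool.Agent.H85.Strict.hv_meet c1 (by omega) (by omega) cW2
    (by simp only; omega) (by simp only; omega) (by omega) (by omega)
  have sub : ∀ S : Set Vert, S ⊆ Set.univ := fun S => Set.subset_univ S
  have huW := cW1.mem_left
  have huE := cE1.mem_left
  simp only [rect, Set.mem_ofPred_eq] at huW huE
  have hx2 := s.hx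
  have hy2 := s.hy
  simp only [mem_ball, Prod.fst_zero, Prod.snd_zero, Nat.cast_ofNat] at hx2 hy2
  have hox : per N ω' (sv s.x) = true := by
    refine hcut0 _ (Pool.Agent.H38.N59.open_of_conn dW ?_)
    intro h
    rw [h] at hx2
    omega
  have hoy : per N ω' (sv s.y) = true := by
    refine hcut0 _ (Pool.Agent.H38.N59.open_of_conn dE ?_)
    intro h
    rw [h] at hy2
    omega
  have ho0 : per N ω' (sv (0, 0)) = true := by
    simp only [per, sv, Int.zero_emod]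
    rw [hω']
    exact Function.update_self (f := ω) (sv 0) true
  -- the source
  have hxy : Conn (sit (per N ω')) Set.univ s.x s.y := by
    obtain ⟨e, he⟩ := hs.x
    obtain ⟨e', he'⟩ := hs.y
    have t1 : Step (sit (per N ω')) Set.univ s.x (0, 0) := ⟨trivial, trivial, e, he,
      (Pool.Agent.H38.N59.sit_joins he).2 ⟨hox, ho0⟩⟩
    have t2 : Step (sit (per N ω')) Set.univ (0, 0) s.y := ⟨trivial, trivial, e', he',
      (Pool.Agent.H38.N59.sit_joins he').2 ⟨ho0, hoy⟩⟩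
    exact t1.conn.trans t2.conn
  have k1 : Conn (sit (per N ω')) Set.univ s.y uE := Conn.mono (sub _) hcut dE
  have k2 : Conn (sit (per N ω')) Set.univ uE (uW.1 + N, uW.2) :=
    (((b1.mono_set (sub _)).trans (a1.mono_set (sub _)).symm).trans
      (a2.mono_set (sub _))).trans (b2.mono_set (sub _)).symm
  have k3 : Conn (sit (per N ω')) Set.univ s.x uW := Conn.mono (sub _) hcut dW
  have k4 := conn_x hper (S' := Set.univ) (fun _ _ => trivial) k3
  refine ⟨s.x, 1, 0, one_ne_zero, ?_⟩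
  have e1 : ((s.x.1 + 1 * (N : ℤ), s.x.2 + 0 * (N : ℤ)) : Vert) = (s.x.1 + N, s.x.2) := by
    rw [one_mul, zero_mul, add_zero]
  rw [e1]
  exact ((hxy.trans k1).trans k2).trans k4.symm

end Pool.Agent.H83.PST

end

section

/-!
# A separated four-arm event costs at most a pivotal site of the torus
-/

set_option autoImplicit false

open MeasureTheory ProbabilityTheory unitInterval

namespace Pool.Agent.H83.PST

open Pool.Agent.H89.Perc
open Pool.Agent.H61.NC (modE)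
open Pool.Agent.H83.SK (sv sit sit_true RSWreg sT)
open Pool.Agent.H59.EX (pb)
open Pool.Agent.H38.N59 (Src Sep FX FY det Seal)

/-- `K₁` is any constant. -/
theorem torus_ext (c : ℝ) (hc : 0 < c) (K₁ : ℕ) : ∃ C : ℝ, 0 < C ∧ ∀ (N k : ℕ) (q : I)
    (s : Src), IsSrc s → 64 ≤ k → 128 * k ≤ N → N ≤ K₁ * k → RSWreg c N q →
      Pr q (Sep s .W .E k) ≤ C * sT q N := by
  obtain ⟨c₁, hc₁, H1⟩ := NpT_lower c hc K₁
  obtain ⟨c₂, hc₂, H2⟩ := HT_lower c hc K₁ (16 * K₁)
  refine ⟨1 / (c₁ * c₂), by positivity, ?_⟩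
  intro N k q s hs hk hN hN₁ hreg
  obtain ⟨ρ, hρ⟩ : ∃ ρ : ℕ, ρ = k / 8 := ⟨_, rfl⟩
  have hρ1 : 1 ≤ ρ := by omega
  have hρk : 8 * ρ ≤ k := by omega
  have hkρ : k ≤ 16 * ρ := by omega
  have hK : N ≤ 16 * K₁ * ρ := by
    calc N ≤ K₁ * k := hN₁
      _ ≤ K₁ * (16 * ρ) := Nat.mul_le_mul_left _ hkρ
      _ = 16 * K₁ * ρ := by ring
  have key := Pool.Agent.H38.N59.corridor_prob (q := q) (π := modE N) (s := s) (d := .W)
    (d' := .E) (k := k)
    (C := CC N k) (Np := NpT N k) (H := HT N k ρ (16 * K₁)) (c₁ := c₁) (c₂ := c₂) hc₂.le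
    (injOn_modE hk hN) (T_sub_CC hk hN) (CC_inter hk hN) (CC_finite N k)
    (locS_NpT hN) (incr_NpT N k) (H1 N k q hk hN hN₁ hreg) (locS_HT hk hN)
    (localOn_HT N k ρ (16 * K₁)) (fun S => H2 N k ρ q S hk hN hN₁ hρ1 hρk hreg)
  have h3 : Pr q {ω | pb (modE N) ω ∈ Sep s .W .E k ∧ pb (modE N) ω ∈ NpT N k ∧
      pb (modE N) ω ∈ HT N k ρ (16 * K₁) (FX s .W .E k (pb (modE N) ω) ∪
        FY s .W .E k (pb (modE N) ω))} ≤ sT q N := by
    refine le_sT (by omega) ?_
    rintro ω ⟨h4, h5, h6⟩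
    exact ⟨open_wind hs hk hN h4 h5, closed_not_wind hs hk hN hρ1 hρk hK h4 h6⟩
  have h7 := key.trans h3
  rw [div_mul_eq_mul_div, one_mul, le_div_iff₀ (by positivity)]
  calc Pr q (Sep s .W .E k) * (c₁ * c₂) = c₁ * c₂ * Pr q (Sep s .W .E k) := by ring
    _ ≤ _ := h7

end Pool.Agent.H83.PST

end
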