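import Pool.Agent.H31.PT.H83.SK.P57.Main
import Pool.Agent.H31.PT.M21
import Pool.Agent.H31.PT.M26

/-! The parts of this file: H83.SK.PST.Final, H83.SK.PST.Holds, H38.SK.Bridge. -/

section

/-!
# `SepTorus` for site percolation
-/

set_option autoImplicit false

open MeasureTheory ProbabilityTheory unitInterval

namespace Pool.Agent.H83.PST

open Pool.Agent.H89.Perc
open Pool.Agent.H61.NC (modE)
open Pool.Agent.H83.SK (sv sit sit_true RSWreg sT BadIn SepTorus a4)
open Pool.Agent.H59.EX (pb Side)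
open Pool.Agent.H38.N59 (Src Sep Four s4)

theorem isSrc_s4 (b : Bool) : IsSrc (s4 b) := by
  refine ⟨⟨(0, 0, false), Or.inr ⟨rfl, rfl⟩⟩, ?_, rfl⟩
  cases b
  · exact ⟨(-1, 0, false), Or.inr ⟨rfl, rfl⟩⟩
  · exact ⟨(0, 0, true), Or.inl ⟨rfl, rfl⟩⟩

/-- **Four arms at scale `N / 64` cost at most a pivotal site of the torus.** -/
theorem sepTorus (hB : BadIn) : SepTorus := by
  intro c hc
  obtain ⟨C₁, hC₁, H1⟩ := torus_ext c hc 512
  obtain ⟨C₂, r₂, hC₂, H2⟩ := Pool.Agent.H38.N59.four_le_sep hB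
    (fun k hk => Pool.Agent.H38.N59.sep_s4_nonempty false hk) c hc
  obtain ⟨C₃, r₃, hC₃, H3⟩ := Pool.Agent.H38.N59.four_le_sep hB
    (fun k hk => Pool.Agent.H38.N59.sep_s4_nonempty true hk) c hc
  obtain ⟨c₄, hc₄, H4⟩ := sT_small c hc (16384 * (r₂ + r₃ + 1))
  refine ⟨(C₂ + C₃) * C₁ + 2 / c₄, by positivity, ?_⟩
  intro N r q hr h1 h2 hreg
  have hs0 : 0 ≤ sT q N := sT_nonneg q N
  rcases Nat.lt_or_ge (16384 * (r₂ + r₃ + 1)) N with hN | hN
  · obtain ⟨r', hr'⟩ : ∃ r' : ℕ, r' = N / 16384 := ⟨_, rfl⟩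
    have e1 : r₂ + r₃ + 1 ≤ r' := by omega
    have e2 : r' ≤ r := by omega
    have e3 : a4 q r ≤ a4 q r' := Pool.Agent.H83.SK.a4_anti (by omega) e2
    have key : a4 q r' ≤ (C₂ + C₃) * C₁ * sT q N := by
      rw [Pool.Agent.H38.N59.a4_eq]
      obtain ⟨k, hk1, hk2, hk3⟩ := H2 N r' q .W .E (by decide) (by omega) (by omega) hreg
      obtain ⟨k', hk1', hk2', hk3'⟩ := H3 N r' q .W .E (by decide) (by omega) (by omega) hreg
      have h4 := H1 N k q (s4 false) (isSrc_s4 false) (by omega) (by omega) (by omega) hreg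
      have h5 := H1 N k' q (s4 true) (isSrc_s4 true) (by omega) (by omega) (by omega) hreg
      have h6 := hk3.trans (mul_le_mul_of_nonneg_left h4 hC₂.le)
      have h7 := hk3'.trans (mul_le_mul_of_nonneg_left h5 hC₃.le)
      calc _ ≤ C₂ * (C₁ * sT q N) + C₃ * (C₁ * sT q N) := add_le_add h6 h7
        _ = _ := by ring
    refine (e3.trans key).trans (mul_le_mul_of_nonneg_right ?_ hs0)
    have : 0 ≤ 2 / c₄ := by positivity
    linarith
  · have h5 := H4 N q (by omega) hN hreg
    have h6 : a4 q r ≤ 2 := Pool.Agent.H83.SK.a4_le_two q r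
    have h7 : (2 : ℝ) ≤ 2 / c₄ * sT q N := by
      rw [div_mul_eq_mul_div, le_div_iff₀ hc₄]
      linarith
    have h8 : 0 ≤ (C₂ + C₃) * C₁ * sT q N := by positivity
    calc a4 q r ≤ 2 := h6
      _ ≤ 2 / c₄ * sT q N := h7
      _ ≤ ((C₂ + C₃) * C₁ + 2 / c₄) * sT q N := by rw [add_mul]; linarith

end Pool.Agent.H83.PST

end

section

/-!
# Site percolation: quasi-multiplicativity and gluing on the torus
-/

set_option autoImplicit false

open MeasureTheory ProbabilityTheory unitInterval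

namespace Pool.Agent.H83.SK

theorem glt_holds : GLT := glt badIn badOut

theorem sepTorus_holds : SepTorus := Pool.Agent.H83.PST.sepTorus badIn

theorem regA4_holds : RegA4 := Pool.Agent.H38.N59.regA4 badIn

theorem qMann_holds : QMann := qmann badIn glt_holds regA4_holds

theorem glTorus_holds : GLTorus := glTorus badIn glt_holds regA4_holds sepTorus_holds

end Pool.Agent.H83.SK

end

section

/-!
# Gluing on the torus and quasi-multiplicativity in the second form
-/

set_option autoImplicit false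

namespace Pool.Agent.H38.SKConv

theorem glTorusN : Pool.Agent.H92.SN.GLTorus := glTorus_conv Pool.Agent.H83.SK.glTorus_holds

theorem qMannN : Pool.Agent.H92.SN.QMann := qmann_conv Pool.Agent.H83.SK.qMann_holds

end Pool.Agent.H38.SKConv

end
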