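import Pool.Agent.H31.PT.H90.AL.Sums
import Pool.Agent.H31.PT.M26
import Pool.Agent.H31.PT.M29

/-! The parts of this file: H13.SK.FinalThree, H13.SK.KExp, H13.SK.KLim, H13.SK.Comb, H13.SK.KTransfer, H92.SN.Est, H92.SN.Second, H92.SN.Win, H92.SN.WinPc. -/

section

/-!
# The remainder of the cluster density in terms of `θ` and `σ`
-/

set_option autoImplicit false

open MeasureTheory ProbabilityTheory unitInterval Filter Topology
open scoped ENNReal

namespace Pool.Agent.H13.SK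

open Pool.Agent.H89.Perc Pool.Agent.H83.Site

variable {a4 : I → ℕ → ℝ} {Wp : I → ℕ → ℝ} {Reg : ℝ → ℕ → I → Prop}

/-- The mean cluster size. -/
noncomputable def mcs (G : (ℤ × ℤ → Bool) → SimpleGraph (ℤ × ℤ)) (p : I) : ℝ≥0∞ :=
  ∫⁻ ω, (({v | ω (0, 0) = true ∧ (G ω).Reachable (0, 0) v}.encard : ℕ∞) : ℝ≥0∞)
    ∂(Measure.infinitePi (fun _ : ℤ × ℤ => bernoulliMeasure true false p))

/-- `θ(pc + t) ^ 2 / σ(pc - t)`. -/
noncomputable def fR (G : (ℤ × ℤ → Bool) → SimpleGraph (ℤ × ℤ)) (t : ℝ) : ℝ :=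
  thT (pI (pc + t)) false ^ 2 / (mcs G (pI (pc - t))).toReal

theorem fR_nonneg (G : (ℤ × ℤ → Bool) → SimpleGraph (ℤ × ℤ)) (t : ℝ) : 0 ≤ fR G t := by
  unfold fR
  positivity

theorem pI_mono {x y : ℝ} (h : x ≤ y) : pI x ≤ pI y := Set.monotone_projIcc _ h

/-- Data of the characteristic length. -/
theorem exists_scl (H : NC a4 Wp Reg) : ∃ (L : ℝ → ℕ) (c₀ δ₀ cs Cs η : ℝ),
    LenFacts a4 L ∧ Scl (a4 pc) L c₀ δ₀ cs Cs η := by
  obtain ⟨L, F⟩ := len_facts H
  obtain ⟨c₀, hc₀, δ₀, hδ₀, -, hG⟩ := H.growth1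
  obtain ⟨cs, hcs, Cs, hCs, ηs, hηs, hscale⟩ := F.scale
  obtain ⟨ηl, hηl, hlarge⟩ := F.large 1
  refine ⟨L, c₀, δ₀, cs, Cs, min ηs ηl, F, ?_⟩
  exact
    { hc₀ := hc₀
      hδ₀ := hδ₀
      hcs := hcs
      hCs := hCs
      hη := lt_min hηs hηl
      grow := hG
      pos := H.pos_pc
      anti := fun m n hm hmn => H.anti pc m n hm hmn
      one := fun h h0 h1 => hlarge h h0 (h1.trans_le (min_le_right _ _))
      large := F.large
      scale := fun h h0 h1 => hscale h h0 (h1.trans_le (min_le_left _ _)) }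

/-- The function `θ² / σ` is at least `L ^ (-2)`. -/
theorem fR_lower {L : ℝ → ℕ} (F : LenFacts a4 L) (G : (ℤ × ℤ → Bool) → SimpleGraph (ℤ × ℤ))
    (hG : ∀ ω u v, (G ω).Adj u v ↔ ω u = true ∧ ω v = true ∧ SA false u v) :
    ∃ cf > (0 : ℝ), ∃ η > (0 : ℝ), (∀ t : ℝ, 0 < t → t < η → cf / (L t : ℝ) ^ 2 ≤ fR G t) ∧
      (∀ t : ℝ, 0 < t → t < η → 0 < (mcs G (pI (pc - t))).toReal ∧
        mcs G (pI (pc - t)) ≠ ⊤) ∧ MonotoneOn (fR G) (Set.Ioo 0 η) := by
  obtain ⟨ct, hct, ηt, hηt, hth⟩ := F.theta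
  obtain ⟨C, hC, ησ, hησ, hsg⟩ := F.sigma
  obtain ⟨ηl, hηl, hlarge⟩ := F.large 1
  obtain ⟨ηa, hηa, habs⟩ := abs_small
  have hpc := pc_pos
  set η : ℝ := min (min ηt ησ) (min (min ηl ηa) pc) with hη
  have hη0 : 0 < η := lt_min (lt_min hηt hησ) (lt_min (lt_min hηl hηa) hpc)
  have hle1 : η ≤ ηt := (min_le_left _ _).trans (min_le_left _ _)
  have hle2 : η ≤ ησ := (min_le_left _ _).trans (min_le_right _ _)
  have hle3 : η ≤ ηl := (min_le_right _ _).trans ((min_le_left _ _).trans (min_le_left _ _))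
  have hle4 : η ≤ ηa := (min_le_right _ _).trans ((min_le_left _ _).trans (min_le_right _ _))
  have hle5 : η ≤ pc := (min_le_right _ _).trans (min_le_right _ _)
  have hval1 : ∀ t : ℝ, 0 < t → t < η → ((pI (pc + t) : I) : ℝ) = pc + t := by
    intro t h0 h1
    have := habs t h0 (h1.trans_le hle4)
    exact pI_val (by linarith [pc.2.1]) this.2
  have hval2 : ∀ t : ℝ, 0 < t → t < η → ((pI (pc - t) : I) : ℝ) = pc - t := by
    intro t h0 h1
    have := habs t h0 (h1.trans_le hle4)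
    exact pI_val this.1 (by linarith [pc.2.2])
  have hup : ∀ t : ℝ, 0 < t → t < η → mcs G (pI (pc - t)) ≤
      ENNReal.ofReal (C * (L t : ℝ) ^ 2 * ab pc false 0 (L t) ^ 2) := by
    intro t h0 h1
    exact sigma_le_of (pI (pc - t)) false G hG
      (hsg t h0 (h1.trans_le hle2) (pI (pc - t)) (hval2 t h0 h1))
  have hlo : ∀ t : ℝ, 0 < t → t < η → ENNReal.ofReal (pc - t) ≤ mcs G (pI (pc - t)) := by
    intro t h0 h1
    have h2 := le_sigma (pI (pc - t)) false G hG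
    rw [hval2 t h0 h1] at h2
    exact h2
  have hfin : ∀ t : ℝ, 0 < t → t < η → 0 < (mcs G (pI (pc - t))).toReal ∧
        mcs G (pI (pc - t)) ≠ ⊤ := by
    intro t h0 h1
    have h2 : mcs G (pI (pc - t)) ≠ ⊤ := ne_top_of_le_ne_top ENNReal.ofReal_ne_top (hup t h0 h1)
    refine ⟨ENNReal.toReal_pos ?_ h2, h2⟩
    have h3 := hlo t h0 h1
    have h4 : 0 < ENNReal.ofReal (pc - t) := ENNReal.ofReal_pos.2 (by linarith)
    exact (h4.trans_le h3).ne'
  refine ⟨ct ^ 2 / C, by positivity, η, hη0, ?_, hfin, ?_⟩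
  · intro t h0 h1
    obtain ⟨h2, h3⟩ := hfin t h0 h1
    have h4 := hth t h0 (h1.trans_le hle1) (pI (pc + t)) (hval1 t h0 h1)
    have hL : (0 : ℝ) < L t := by
      have := hlarge t h0 (h1.trans_le hle3)
      exact_mod_cast (by omega : 0 < L t)
    have h5 : (mcs G (pI (pc - t))).toReal ≤ C * (L t : ℝ) ^ 2 * ab pc false 0 (L t) ^ 2 := by
      have h6 := ENNReal.toReal_mono ENNReal.ofReal_ne_top (hup t h0 h1)
      rwa [ENNReal.toReal_ofReal (by positivity)] at h6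
    have hπ : 0 ≤ ab pc false 0 (L t) := ab_nonneg
    unfold fR
    rw [div_div, div_le_div_iff₀ (by positivity) h2]
    calc ct ^ 2 * (mcs G (pI (pc - t))).toReal
        ≤ ct ^ 2 * (C * (L t : ℝ) ^ 2 * ab pc false 0 (L t) ^ 2) := by gcongr
      _ = (ct * ab pc false 0 (L t)) ^ 2 * (C * (L t : ℝ) ^ 2) := by ring
      _ ≤ thT (pI (pc + t)) false ^ 2 * (C * (L t : ℝ) ^ 2) := by gcongr
  · rintro s ⟨hs0, hs1⟩ t ⟨ht0, ht1⟩ hst
    obtain ⟨h2, h3⟩ := hfin s hs0 hs1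
    obtain ⟨h4, h5⟩ := hfin t ht0 ht1
    have h6 : thT (pI (pc + s)) false ≤ thT (pI (pc + t)) false :=
      thT_mono false (pI_mono (by linarith))
    have h7 : (mcs G (pI (pc - t))).toReal ≤ (mcs G (pI (pc - s))).toReal :=
      ENNReal.toReal_mono h3 (sigma_mono (pI_mono (by linarith)) false G hG)
    have h8 : 0 ≤ thT (pI (pc + s)) false := measureReal_nonneg
    unfold fR
    gcongr

/-- The bound of the remainder by the four-arm probabilities. -/
def RemB (a : ℕ → ℝ) (Rm : ℝ → ℝ) : Prop :=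
  ∃ cr > (0 : ℝ), ∃ Cr > (0 : ℝ), ∃ n₀ : ℕ, ∀ n : ℕ, n₀ ≤ n → 1 ≤ n → ∀ x : ℝ, 0 < x →
    x * ((n : ℝ) ^ 2 * a n) ≤ cr →
    Rm x ≤ Cr * (1 / (n : ℝ) ^ 2 + (1 / ((n : ℝ) ^ 2 * a n)) ^ 3 * SumB a n)

theorem Scl.shrink {a : ℕ → ℝ} {L : ℝ → ℕ} {c₀ δ₀ cs Cs η η' : ℝ} (S : Scl a L c₀ δ₀ cs Cs η)
    (h0 : 0 < η') (h : η' ≤ η) : Scl a L c₀ δ₀ cs Cs η' :=
  { S with
    hη := h0
    one := fun t h1 h2 => S.one t h1 (h2.trans_le h)
    scale := fun t h1 h2 => S.scale t h1 (h2.trans_le h) }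

/-- The remainder is smaller than the square by a power. -/
theorem rem_power (H : NC a4 Wp Reg) {Rm : ℝ → ℝ} (hR : RemB (a4 pc) Rm) :
    ∃ e : ℝ, 2 < e ∧ e < 3 ∧ ∃ C > (0 : ℝ), ∃ η > (0 : ℝ), ∀ h : ℝ, 0 < h → h < η →
      Rm h ≤ C * h ^ e := by
  obtain ⟨L, c₀, δ₀, cs, Cs, η, F, S⟩ := exists_scl H
  obtain ⟨cr, hcr, Cr, hCr, n₀, hR⟩ := hR
  obtain ⟨C, hC, δ, hδ, hδ1, hup⟩ := H.sq_up
  have hcs := S.hcs
  obtain ⟨b, hb⟩ : ∃ b : ℝ, b = 2 / (1 - δ) := ⟨_, rfl⟩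
  have hδ2 : 0 < 1 - δ := by linarith
  have hb2 : 2 < b := by
    rw [hb, lt_div_iff₀ hδ2]
    linarith
  obtain ⟨e, he⟩ : ∃ e : ℝ, e = min b (5 / 2) := ⟨_, rfl⟩
  have he1 : 2 < e := by rw [he]; exact lt_min hb2 (by norm_num)
  have he2 : e < 3 := by rw [he]; exact (min_le_right _ _).trans_lt (by norm_num)
  have he3 : e ≤ b := by rw [he]; exact min_le_left _ _
  obtain ⟨K, hK⟩ : ∃ K : ℝ, K = (C / cs) ^ b := ⟨_, rfl⟩
  have hK0 : 0 < K := by rw [hK]; positivity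
  have S' := S.shrink (lt_min S.hη one_pos) (min_le_left η 1)
  obtain ⟨η₁, hη₁, hD⟩ := rem_dyadic S' (f := fun t => |t| ^ e) (fun t => by positivity)
    (cf := 1 / K) (by positivity) (fun t h0 h1 => by
      have h2 : t < η := h1.trans_le (min_le_left _ _)
      have h3 : t < 1 := h1.trans_le (min_le_right _ _)
      have h4 := (S.scale t h0 h2).1
      have h5 := S.one t h0 h2
      have hL : (0 : ℝ) < L t := by exact_mod_cast (by omega : 0 < L t)
      have h6 := hup (L t) h5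
      have h7 : cs ≤ t * (C * (L t : ℝ) ^ (1 - δ)) :=
        h4.trans (mul_le_mul_of_nonneg_left h6 h0.le)
      have h8 : ((L t : ℝ) ^ (1 - δ))⁻¹ ≤ C / cs * t := by
        have hpos : 0 < (L t : ℝ) ^ (1 - δ) := by positivity
        rw [inv_le_iff_one_le_mul₀ hpos]
        calc (1 : ℝ) = cs / cs := (div_self hcs.ne').symm
          _ ≤ t * (C * (L t : ℝ) ^ (1 - δ)) / cs := by gcongr
          _ = C / cs * t * (L t : ℝ) ^ (1 - δ) := by ring
      have h9 : (((L t : ℝ) ^ (1 - δ))⁻¹) ^ b = 1 / (L t : ℝ) ^ 2 := by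
        rw [Real.inv_rpow (by positivity), ← Real.rpow_mul hL.le, hb,
          mul_div_cancel₀ _ hδ2.ne', Real.rpow_two, one_div]
      have h10 : 1 / (L t : ℝ) ^ 2 ≤ K * t ^ b := by
        rw [← h9, hK, ← Real.mul_rpow (by positivity) h0.le]
        exact Real.rpow_le_rpow (by positivity) h8 (by linarith)
      have h11 : t ^ b ≤ t ^ e := Real.rpow_le_rpow_of_exponent_ge h0 h3.le he3
      simp only [abs_of_pos h0]
      calc 1 / K / (L t : ℝ) ^ 2 = 1 / K * (1 / (L t : ℝ) ^ 2) := by ring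
        _ ≤ 1 / K * (K * t ^ b) := by gcongr
        _ = t ^ b := by field_simp
        _ ≤ t ^ e := h11) hcr hCr n₀ hR
  have hD' : Dya (fun t => |t| ^ e) Rm η₁ := hD
  obtain ⟨C', hC', η', hη', h⟩ := pow_of_dya hη₁ hD' (e := e) (η₂ := 1) (Cf := 1) one_pos one_pos
    he2 (fun t h0 _ => by simp only [abs_of_pos h0, one_mul, le_refl])
  exact ⟨e, he1, he2, C', hC', η', hη', h⟩

/-- **The integral inequality and its power form.** -/
theorem rem_theta_sigma (H : NC a4 Wp Reg) (G : (ℤ × ℤ → Bool) → SimpleGraph (ℤ × ℤ))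
    (hG : ∀ ω u v, (G ω).Adj u v ↔ ω u = true ∧ ω v = true ∧ SA false u v) {Rm : ℝ → ℝ}
    (hR : RemB (a4 pc) Rm) {η₀ : ℝ} (hη₀ : 0 < η₀) :
    (∃ C > (0 : ℝ), ∃ η > (0 : ℝ), η < η₀ ∧ ∃ δ > (0 : ℝ), δ < η ∧ ∀ h : ℝ, 0 < h → h < δ →
      IntervalIntegrable (fun t => fR G t / t ^ 4) volume h η ∧
      Rm h ≤ C * (h ^ 3 * (1 + ∫ t in h..η, fR G t / t ^ 4))) ∧
    ∀ e η₂ Cf : ℝ, 0 < η₂ → 0 < Cf → e < 3 →
      (∀ t : ℝ, 0 < t → t < η₂ → fR G t ≤ Cf * t ^ e) →
      ∃ C > (0 : ℝ), ∃ η' > (0 : ℝ), ∀ h : ℝ, 0 < h → h < η' → Rm h ≤ C * h ^ e := by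
  obtain ⟨L, c₀, δ₀, cs, Cs, η, F, S⟩ := exists_scl H
  obtain ⟨cr, hcr, Cr, hCr, n₀, hR⟩ := hR
  obtain ⟨cf, hcf, ηf, hηf, hf, -, hmono⟩ := fR_lower F G hG
  have S' := S.shrink (lt_min S.hη hηf) (min_le_left η ηf)
  obtain ⟨η₁, hη₁, hD⟩ := rem_dyadic S' (fR_nonneg G) hcf
    (fun t h0 h1 => hf t h0 (h1.trans_le (min_le_right _ _))) hcr hCr n₀ hR
  constructor
  · obtain ⟨C, hC, η', hη', hlt, δ, hδ, hδη, h⟩ := int_of_dya hη₁ hD
      (η₂ := min ηf η₀) (lt_min hηf hη₀) (fR_nonneg G)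
      (hmono.mono fun t ht => ⟨ht.1, ht.2.trans_le (min_le_left _ _)⟩)
    exact ⟨C, hC, η', hη', hlt.trans_le (min_le_right _ _), δ, hδ, hδη, h⟩
  · intro e η₂ Cf hη₂ hCf he hfe
    exact pow_of_dya hη₁ hD hη₂ hCf he hfe

end Pool.Agent.H13.SK

end

section

/-!
# The expected number of open clusters in a box and its derivative
-/

set_option autoImplicit false

open MeasureTheory ProbabilityTheory unitInterval Filter Topology

namespace Pool.Agent.H13.SK

open Pool.Agent.H89.Perc Pool.Agent.H92.SN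
open Pool.Agent.H83.SK (sv sit)

/-- The vertices of the box. -/
def bV (n : ℕ) : Set Vert := {v | 0 ≤ v.1 ∧ v.1 < n ∧ 0 ≤ v.2 ∧ v.2 < n}

/-- The expected number of open clusters in the box. -/
noncomputable def EKO (n : ℕ) (p : ℝ) : ℝ :=
  Pool.Agent.Perc.Ex p (tSites n) (fun S => (KO (ofS S) (bV n) : ℝ))

theorem bV_finite (n : ℕ) : (bV n).Finite := by
  refine ((Finset.Icc (0 : ℤ) n ×ˢ Finset.Icc (0 : ℤ) n).finite_toSet).subset ?_
  rintro ⟨x, y⟩ ⟨h1, h2, h3, h4⟩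
  simp only [Finset.coe_product, Finset.coe_Icc, Set.mem_prod, Set.mem_Icc]
  exact ⟨⟨h1, h2.le⟩, h3, h4.le⟩

theorem sv_mem_tSites {n : ℕ} {v : Vert} : sv v ∈ tSites n ↔ v ∈ bV n := by
  simp only [tSites, Finset.mem_product, Finset.mem_Ico, Finset.mem_singleton, sv, bV,
    Set.mem_ofPred_eq, and_true]
  tauto

theorem eq_sv_of_mem {n : ℕ} {e : Edge} (h : e ∈ tSites n) : e = sv (src e) := by
  simp only [tSites, Finset.mem_product, Finset.mem_singleton] at h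
  obtain ⟨x, y, t⟩ := e
  have ht : t = false := h.2.2
  subst ht
  rfl

theorem src_mem_bV {n : ℕ} {e : Edge} (h : e ∈ tSites n) : src e ∈ bV n := by
  rw [← sv_mem_tSites, ← eq_sv_of_mem h]
  exact h

open Classical in
/-- The number of neighbours of `v` in the box. -/
noncomputable def nbc (n : ℕ) (v : Vert) : ℝ :=
  ∑ i ∈ Finset.range 4, if nb v i ∈ bV n then (1 : ℝ) else 0

/-- The expected change of the number of clusters when `v` is opened. -/
noncomputable def dS (n : ℕ) (q : I) (v : Vert) : ℝ :=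
  1 - q * nbc n v + ∑ i ∈ Finset.Icc 1 3, Pool.Agent.H83.SK.Pr q (Dn (bV n) v i)

theorem localOn_sitDn_box (n : ℕ) (v : Vert) (i : ℕ) :
    LocalOn (tSites n) {w | sit w ∈ Dn (bV n) v i} := by
  intro w w' h hw
  refine Dn_congr (fun e h1 h2 => ?_) hw
  simp only [sit]
  rw [h _ (sv_mem_tSites.2 h1), h _ (sv_mem_tSites.2 h2)]

theorem localOn_open {n : ℕ} {v : Vert} (hv : v ∈ bV n) :
    LocalOn (tSites n) {w : Config | w (sv v) = true} := by
  intro w w' h hw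
  rw [Set.mem_ofPred_eq] at hw ⊢
  rw [← h _ (sv_mem_tSites.2 hv)]
  exact hw

open Classical in
theorem EKO_hasDerivAt (n : ℕ) (q : I) :
    HasDerivAt (EKO n) (∑ e ∈ tSites n, dS n q (src e)) q := by
  unfold EKO
  refine (Pool.Agent.Perc.hasDerivAt_Ex (tSites n) _ (q : ℝ)).congr_deriv ?_
  refine Finset.sum_congr rfl fun e he => ?_
  obtain ⟨v, hv⟩ : ∃ v, v = src e := ⟨_, rfl⟩
  have hev : e = sv v := by rw [hv]; exact eq_sv_of_mem he
  have hvb : v ∈ bV n := by rw [hv]; exact src_mem_bV he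
  rw [← hv]
  have key : ∀ S, S ⊆ tSites n →
      Pool.Agent.Perc.DD e (fun S => (KO (ofS S) (bV n) : ℝ)) S =
        (1 - ∑ i ∈ Finset.range 4, (if nb v i ∈ bV n then (1 : ℝ) else 0) *
          Pool.Agent.Perc.ind (fun S => ofS S ∈ {w : Config | w (sv (nb v i)) = true}) S) +
        ∑ i ∈ Finset.Icc 1 3,
          Pool.Agent.Perc.ind (fun S => ofS S ∈ {w : Config | sit w ∈ Dn (bV n) v i}) S := by
    intro S _
    have hk := KO_update (bV_finite n) hvb (ofS S)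
    obtain ⟨u1, u2⟩ := Pool.Agent.H29.Kap.ofS_update S e
    unfold Pool.Agent.Perc.DD
    beta_reduce
    rw [← u1, ← u2, hev]
    have hk' := congrArg (fun z : ℤ => (z : ℝ)) hk
    push_cast at hk'
    rw [hk']
    congr 1
    · congr 1
      refine Finset.sum_congr rfl fun i _ => ?_
      by_cases h1 : nb v i ∈ bV n
      · by_cases h2 : ofS S (sv (nb v i)) = true
        · rw [if_pos ⟨h1, h2⟩, if_pos h1, Pool.Agent.Perc.ind_of
            (A := fun S => ofS S ∈ {w : Config | w (sv (nb v i)) = true}) h2, one_mul]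
        · rw [if_neg (fun h => h2 h.2), Pool.Agent.Perc.ind_of_not
            (A := fun S => ofS S ∈ {w : Config | w (sv (nb v i)) = true}) h2, mul_zero]
      · rw [if_neg (fun h => h1 h.1), if_neg h1, zero_mul]
  rw [Pool.Agent.Perc.Ex_congr key, Pool.Agent.Perc.Ex_add, Pool.Agent.Perc.Ex_sub,
    Pool.Agent.Perc.Ex_const, Pool.Agent.Perc.Ex_sum, Pool.Agent.Perc.Ex_sum]
  unfold dS nbc
  rw [Finset.mul_sum]
  congr 1
  · congr 1
    refine Finset.sum_congr rfl fun i _ => ?_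
    rw [Pool.Agent.Perc.Ex_const_mul, mul_comm]
    by_cases h1 : nb v i ∈ bV n
    · rw [← Pr_eq_Ex (localOn_open h1), Pr_open]
    · rw [if_neg h1, mul_zero, mul_zero]
  · refine Finset.sum_congr rfl fun i _ => ?_
    rw [← Pr_eq_Ex (localOn_sitDn_box n v i)]
    rfl

theorem nbc_nonneg (n : ℕ) (v : Vert) : 0 ≤ nbc n v := by
  unfold nbc
  refine Finset.sum_nonneg fun i _ => ?_
  split_ifs <;> norm_num

theorem nbc_le (n : ℕ) (v : Vert) : nbc n v ≤ 4 := by
  unfold nbc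
  have : ∑ i ∈ Finset.range 4, (1 : ℝ) = 4 := by simp
  rw [← this]
  refine Finset.sum_le_sum fun i _ => ?_
  split_ifs <;> norm_num

theorem abs_dS_le (n : ℕ) (q : I) (v : Vert) : |dS n q v| ≤ 4 := by
  have h1 := nbc_nonneg n v
  have h2 := nbc_le n v
  have h3 : 0 ≤ ∑ i ∈ Finset.Icc 1 3, Pool.Agent.H83.SK.Pr q (Dn (bV n) v i) :=
    Finset.sum_nonneg fun _ _ => Pool.Agent.H83.SK.Pr_nonneg
  have h4 : ∑ i ∈ Finset.Icc 1 3, Pool.Agent.H83.SK.Pr q (Dn (bV n) v i) ≤ 3 := by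
    have : ∑ i ∈ Finset.Icc 1 3, Pool.Agent.H83.SK.Pr q (Dn (bV n) v i) ≤
        ∑ i ∈ Finset.Icc 1 3, (1 : ℝ) :=
      Finset.sum_le_sum fun _ _ => Pool.Agent.H83.SK.Pr_le_one
    simpa using this
  have h5 := q.2.1
  have h6 := q.2.2
  have h7 : (q : ℝ) * nbc n v ≤ 1 * 4 := mul_le_mul h6 h2 h1 zero_le_one
  have h8 : 0 ≤ (q : ℝ) * nbc n v := mul_nonneg h5 h1
  rw [abs_le]
  unfold dS
  constructor <;> linarith

theorem card_tSites (n : ℕ) : ((tSites n).card : ℝ) = (n : ℝ) ^ 2 := by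
  unfold tSites
  rw [Finset.card_product, Finset.card_product, Int.card_Ico, Finset.card_singleton]
  have : ((n : ℤ) - 0).toNat = n := by omega
  rw [this]
  push_cast
  ring

theorem EKO_zero (n : ℕ) : EKO n 0 = 0 := by
  unfold EKO
  unfold Pool.Agent.Perc.Ex
  refine Finset.sum_eq_zero fun S hS => ?_
  rcases S.eq_empty_or_nonempty with rfl | hne
  · have h0 : KO (ofS ∅) (bV n) = 0 := by
      unfold KO oClus
      have : {C : Set Vert | ∃ v ∈ bV n, ofS ∅ (sv v) = true ∧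
          C = {u | Conn (sit (ofS ∅)) (bV n) v u}} = ∅ := by
        ext C
        simp only [Set.mem_ofPred_eq, Set.mem_empty_iff_false, iff_false]
        rintro ⟨v, -, h, -⟩
        rw [ofS_eq_true] at h
        exact Finset.notMem_empty _ h
      rw [this, Set.ncard_empty]
    beta_reduce
    rw [h0]
    simp
  · have : S.card ≠ 0 := fun h => hne.ne_empty (Finset.card_eq_zero.1 h)
    rw [zero_pow this]
    simp

end Pool.Agent.H13.SK

end

section

/-!
# The cluster density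
-/

set_option autoImplicit false

open MeasureTheory ProbabilityTheory unitInterval Filter Topology

namespace Pool.Agent.H13.SK

open Pool.Agent.H89.Perc Pool.Agent.H92.SN
open Pool.Agent.H83.SK (sv sit)

/-- The derivative of the expected number of clusters. -/
noncomputable def DN (n : ℕ) (q : I) : ℝ := ∑ e ∈ tSites n, dS n q (src e)

theorem abs_DN_le (n : ℕ) (q : I) : |DN n q| ≤ 4 * (n : ℝ) ^ 2 := by
  unfold DN
  refine (Finset.abs_sum_le_sum_abs _ _).trans ?_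
  refine (Finset.sum_le_sum fun e _ => abs_dS_le n q (src e)).trans ?_
  rw [Finset.sum_const, nsmul_eq_mul, card_tSites]
  linarith

theorem nb_mem_ball (v : Vert) {m : ℕ} (hm : 1 ≤ m) (i : ℕ) : nb v i ∈ ball v m :=
  (nb_Nb v i).mem_ball hm

theorem nbc_interior {n m : ℕ} (hm : 1 ≤ m) {v : Vert} (h : ball v m ⊆ bV n) : nbc n v = 4 := by
  classical
  unfold nbc
  have h1 : ∀ i : ℕ, i ∈ Finset.range 4 → nb v i ∈ bV n := fun i _ => h (nb_mem_ball v hm i)
  rw [Finset.sum_congr rfl fun i hi => if_pos (h1 i hi)]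
  simp

/-- The error of the approximation in the ball of radius `m`. -/
noncomputable def errS (m : ℕ) (q : I) : ℝ :=
  ∑ i ∈ Finset.Icc 1 3, (Pool.Agent.H83.SK.Pr q (Dn Set.univ 0 i) - tl i m q)

theorem errS_nonneg (m : ℕ) (q : I) : 0 ≤ errS m q :=
  Finset.sum_nonneg fun i _ => sub_nonneg.2 (tl_le i m q)

theorem errS_tendsto (q : I) : Tendsto (fun m => errS m q) atTop (𝓝 0) := by
  have h : Tendsto (fun m => ∑ i ∈ Finset.Icc 1 3,
      (Pool.Agent.H83.SK.Pr q (Dn Set.univ 0 i) - tl i m q)) atTop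
      (𝓝 (∑ i ∈ Finset.Icc 1 3, (Pool.Agent.H83.SK.Pr q (Dn Set.univ 0 i) -
        Pool.Agent.H83.SK.Pr q (Dn Set.univ 0 i)))) :=
    tendsto_finsetSum _ fun i _ => (Dn_univ_tendsto q 0 i).const_sub _
  simp only [sub_self, Finset.sum_const_zero] at h
  exact h

theorem dS_interior {n m : ℕ} (hm : 1 ≤ m) {v : Vert} (h : ball v m ⊆ bV n) (q : I) :
    |dS n q v - (1 - 4 * q + tau q)| ≤ errS m q := by
  have h1 : dS n q v - (1 - 4 * q + tau q) = -∑ i ∈ Finset.Icc 1 3,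
      (Pool.Agent.H83.SK.Pr q (Dn Set.univ 0 i) - Pool.Agent.H83.SK.Pr q (Dn (bV n) v i)) := by
    unfold dS tau
    rw [nbc_interior hm h, Finset.sum_sub_distrib]
    ring
  have h2 : ∀ i, tl i m q ≤ Pool.Agent.H83.SK.Pr q (Dn (bV n) v i) := fun i => by
    rw [← Pr_Dn_ball q v m i]
    exact Pool.Agent.H83.SK.Pr_mono (Dn_mono h v i)
  have h3 : ∀ i, Pool.Agent.H83.SK.Pr q (Dn (bV n) v i) ≤
      Pool.Agent.H83.SK.Pr q (Dn Set.univ 0 i) := fun i => by
    rw [← Pr_Dn_univ q v i]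
    exact Pool.Agent.H83.SK.Pr_mono (Dn_mono (Set.subset_univ _) v i)
  rw [h1, abs_neg, abs_of_nonneg (Finset.sum_nonneg fun i _ => sub_nonneg.2 (h3 i))]
  unfold errS
  exact Finset.sum_le_sum fun i _ => by linarith [h2 i]

theorem abs_tgt_le (q : I) : |1 - 4 * (q : ℝ) + tau q| ≤ 4 := by
  have h1 := tau_nonneg q
  have h2 := tau_le_three q
  have h3 := q.2.1
  have h4 := q.2.2
  rw [abs_le]
  constructor <;> linarith

theorem DN_near {n m : ℕ} (hm : 1 ≤ m) (hn : 2 * m ≤ n) (q : I) :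
    |DN n q - (n : ℝ) ^ 2 * (1 - 4 * q + tau q)| ≤ (n : ℝ) ^ 2 * errS m q + 32 * m * n := by
  classical
  obtain ⟨t, ht⟩ : ∃ t : ℝ, t = 1 - 4 * q + tau q := ⟨_, rfl⟩
  rw [← ht]
  have habs : |t| ≤ 4 := by rw [ht]; exact abs_tgt_le q
  set F : Finset Edge := Finset.Ico (m : ℤ) (n - m) ×ˢ Finset.Ico (m : ℤ) (n - m) ×ˢ {false} with hF
  have hsub : F ⊆ tSites n := by
    intro e he
    simp only [hF, tSites, Finset.mem_product, Finset.mem_Ico, Finset.mem_singleton] at he ⊢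
    exact ⟨by omega, by omega, he.2.2⟩
  have hcard : (F.card : ℝ) = ((n : ℝ) - 2 * m) ^ 2 := by
    rw [hF, Finset.card_product, Finset.card_product, Int.card_Ico, Finset.card_singleton]
    have e1 : ((n : ℤ) - m - m).toNat = n - 2 * m := by omega
    rw [e1]
    push_cast [Nat.cast_sub hn]
    ring
  have hint : ∀ e ∈ F, |dS n q (src e) - t| ≤ errS m q := by
    intro e he
    rw [ht]
    refine dS_interior hm ?_ q
    intro w hw
    rw [mem_ball] at hw
    simp only [hF, Finset.mem_product, Finset.mem_Ico, Finset.mem_singleton] at he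
    simp only [bV, Set.mem_ofPred_eq]
    simp only [src] at hw
    omega
  have h1 : DN n q - (n : ℝ) ^ 2 * t = ∑ e ∈ tSites n, (dS n q (src e) - t) := by
    rw [Finset.sum_sub_distrib, Finset.sum_const, nsmul_eq_mul, card_tSites]
    rfl
  rw [h1, ← Finset.sum_sdiff hsub]
  have h2 : |∑ e ∈ tSites n \ F, (dS n q (src e) - t)| ≤ 32 * m * n := by
    refine (Finset.abs_sum_le_sum_abs _ _).trans ?_
    have h3 : ∑ e ∈ tSites n \ F, |dS n q (src e) - t| ≤ ∑ e ∈ tSites n \ F, (8 : ℝ) := by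
      refine Finset.sum_le_sum fun e _ => ?_
      have h4 := abs_dS_le n q (src e)
      calc |dS n q (src e) - t| ≤ |dS n q (src e)| + |t| := abs_sub _ _
        _ ≤ 8 := by linarith
    refine h3.trans ?_
    rw [Finset.sum_const, nsmul_eq_mul]
    have h5 : ((tSites n \ F).card : ℝ) = (n : ℝ) ^ 2 - ((n : ℝ) - 2 * m) ^ 2 := by
      rw [Finset.card_sdiff_of_subset hsub, Nat.cast_sub (Finset.card_le_card hsub), card_tSites,
        hcard]
    rw [h5]
    have h6 : 0 ≤ (m : ℝ) ^ 2 := sq_nonneg _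
    nlinarith
  have h3 : |∑ e ∈ F, (dS n q (src e) - t)| ≤ (n : ℝ) ^ 2 * errS m q := by
    refine (Finset.abs_sum_le_sum_abs _ _).trans ((Finset.sum_le_sum hint).trans ?_)
    rw [Finset.sum_const, nsmul_eq_mul, hcard]
    refine mul_le_mul_of_nonneg_right ?_ (errS_nonneg m q)
    have h4 : (2 * m : ℝ) ≤ n := by exact_mod_cast hn
    have h5 : (0 : ℝ) ≤ m := Nat.cast_nonneg m
    nlinarith
  calc |∑ e ∈ tSites n \ F, (dS n q (src e) - t) + ∑ e ∈ F, (dS n q (src e) - t)| ≤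
      |∑ e ∈ tSites n \ F, (dS n q (src e) - t)| + |∑ e ∈ F, (dS n q (src e) - t)| :=
        abs_add_le _ _
    _ ≤ _ := by linarith

theorem DN_tendsto (q : I) :
    Tendsto (fun n : ℕ => DN n q / (n : ℝ) ^ 2) atTop (𝓝 (1 - 4 * q + tau q)) := by
  rw [Metric.tendsto_atTop]
  intro ε hε
  obtain ⟨m, hm1, hm2⟩ := (((errS_tendsto q).eventually (gt_mem_nhds (half_pos hε))).and
    (eventually_ge_atTop 1)).exists
  have hlim : Tendsto (fun n : ℕ => 32 * (m : ℝ) * (1 / (n : ℝ))) atTop (𝓝 (32 * m * 0)) :=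
    tendsto_one_div_atTop_nhds_zero_nat.const_mul _
  rw [mul_zero] at hlim
  obtain ⟨n₀, hn₀⟩ := eventually_atTop.1 ((hlim.eventually (gt_mem_nhds (half_pos hε))).and
    (eventually_ge_atTop (2 * m)))
  refine ⟨n₀, fun n hn => ?_⟩
  obtain ⟨h1, h2⟩ := hn₀ n hn
  have hn0 : (0 : ℝ) < n := by
    have : 0 < n := by omega
    exact_mod_cast this
  have h3 := DN_near hm2 h2 q
  rw [Real.dist_eq]
  have h4 : DN n q / (n : ℝ) ^ 2 - (1 - 4 * q + tau q) =
      (DN n q - (n : ℝ) ^ 2 * (1 - 4 * q + tau q)) / (n : ℝ) ^ 2 := by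
    field_simp
  rw [h4, abs_div, abs_of_pos (by positivity : (0 : ℝ) < (n : ℝ) ^ 2), div_lt_iff₀ (by positivity)]
  refine h3.trans_lt ?_
  have h5 : 32 * (m : ℝ) * n = 32 * (m : ℝ) * (1 / (n : ℝ)) * (n : ℝ) ^ 2 := by
    field_simp
  rw [h5]
  have h6 : (0 : ℝ) < (n : ℝ) ^ 2 := by positivity
  nlinarith

/-- The cluster density. -/
noncomputable def kapS (p : ℝ) : ℝ := ∫ x in (0 : ℝ)..p, (1 - 4 * x + tauR x)

theorem EKO_eq_integral (n : ℕ) (p : I) :
    ∃ g : ℝ → ℝ, Continuous g ∧ (∀ q : I, g q = DN n q) ∧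
      EKO n p = ∫ x in (0 : ℝ)..p, g x := by
  obtain ⟨g, hg⟩ : ∃ g : ℝ → ℝ, g = fun x => ∑ e ∈ tSites n, Pool.Agent.Perc.Ex x (tSites n)
    (Pool.Agent.Perc.DD e (fun S => (KO (ofS S) (bV n) : ℝ))) := ⟨_, rfl⟩
  have hd : ∀ x : ℝ, HasDerivAt (EKO n) (g x) x := fun x => by
    rw [hg]
    exact Pool.Agent.Perc.hasDerivAt_Ex (tSites n) _ x
  have hc : Continuous g := by
    rw [hg]
    exact continuous_finsetSum _ fun e _ => Pool.Agent.Perc.continuous_Ex _ _
  refine ⟨g, hc, fun q => (hd q).unique (EKO_hasDerivAt n q), ?_⟩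
  rw [intervalIntegral.integral_eq_sub_of_hasDerivAt (fun x _ => hd x)
    (hc.intervalIntegrable _ _), EKO_zero, sub_zero]

/-- The cluster density is the limit of the expected number of clusters per site. -/
theorem EKO_tendsto (p : I) :
    Tendsto (fun n : ℕ => EKO n p / (n : ℝ) ^ 2) atTop (𝓝 (kapS p)) := by
  choose g hc hg hi using fun n => EKO_eq_integral n p
  have h1 : ∀ n : ℕ, EKO n p / (n : ℝ) ^ 2 = ∫ x in (0 : ℝ)..p, g n x / (n : ℝ) ^ 2 := by
    intro n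
    rw [hi n, intervalIntegral.integral_div]
  simp only [h1]
  unfold kapS
  refine intervalIntegral.tendsto_integral_filter_of_dominated_convergence (fun _ => (4 : ℝ))
    ?_ ?_ ?_ ?_
  · exact Eventually.of_forall fun n => ((hc n).div_const _).aestronglyMeasurable
  · refine Eventually.of_forall fun n => Eventually.of_forall fun x hx => ?_
    rw [Set.uIoc_of_le p.2.1] at hx
    have hx' : x ∈ I := ⟨hx.1.le, hx.2.trans p.2.2⟩
    have h2 := hg n ⟨x, hx'⟩
    have h3 := abs_DN_le n ⟨x, hx'⟩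
    simp only at h2
    rw [h2, Real.norm_eq_abs, abs_div, abs_of_nonneg (by positivity : (0 : ℝ) ≤ (n : ℝ) ^ 2)]
    exact div_le_of_le_mul₀ (by positivity) (by norm_num) h3
  · exact _root_.intervalIntegrable_const
  · refine Eventually.of_forall fun x hx => ?_
    rw [Set.uIoc_of_le p.2.1] at hx
    have hx' : x ∈ I := ⟨hx.1.le, hx.2.trans p.2.2⟩
    have h2 : ∀ n, g n x = DN n ⟨x, hx'⟩ := fun n => hg n ⟨x, hx'⟩
    simp only [h2]
    have h3 : tauR x = tau ⟨x, hx'⟩ := by unfold tauR; rw [dif_pos hx']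
    rw [h3]
    exact DN_tendsto ⟨x, hx'⟩

/-! ### The derivative -/

theorem tauR_eq (q : I) : tauR q = tau q := by
  unfold tauR
  rw [dif_pos q.2]

theorem tauR_continuousOn (h : Continuous tau) : ContinuousOn tauR (Set.Icc 0 1) := by
  rw [continuousOn_iff_continuous_domRestrict]
  have : (Set.Icc (0 : ℝ) 1).domRestrict tauR = tau := by
    funext q
    exact tauR_eq q
  rw [this]
  exact h

theorem kapS_hasDerivAt (h : Continuous tau) {x : ℝ} (h0 : 0 < x) (h1 : x < 1) :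
    HasDerivAt kapS (1 - 4 * x + tauR x) x := by
  have hcon : ContinuousOn (fun x : ℝ => 1 - 4 * x + tauR x) (Set.Icc 0 1) :=
    (Continuous.continuousOn (by fun_prop)).add (tauR_continuousOn h)
  have hco : ∀ y ∈ Set.Ioo (0 : ℝ) 1, ContinuousAt (fun x : ℝ => 1 - 4 * x + tauR x) y :=
    fun y hy => hcon.continuousAt (Icc_mem_nhds hy.1 hy.2)
  unfold kapS
  refine intervalIntegral.integral_hasDerivAt_right ?_ ?_ (hco x ⟨h0, h1⟩)
  · refine ContinuousOn.intervalIntegrable ?_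
    rw [Set.uIcc_of_le h0.le]
    exact hcon.mono (Set.Icc_subset_Icc_right h1.le)
  · exact ContinuousAt.stronglyMeasurableAtFilter isOpen_Ioo hco x ⟨h0, h1⟩

end Pool.Agent.H13.SK

end

section

/-!
# The remainder of the cluster density at the critical density
-/

set_option autoImplicit false

open MeasureTheory ProbabilityTheory unitInterval Filter Topology

namespace Pool.Agent.H13.SK

open Pool.Agent.H83.Site (pc pc_pos pc_lt_one)
open Pool.Agent.H92.SN (tauR GLTorus)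

/-- The dyadic approximations of `τ` in the window. -/
def WinS : Prop :=
  ∃ c > (0 : ℝ), ∃ C > (0 : ℝ), ∃ k₀ : ℕ, ∃ b : ℕ → ℝ, ∀ k, k₀ ≤ k → ∀ t : ℝ,
    |t| ≤ c * (1 / uu (Pool.Agent.H92.SN.a4 pc) k) →
      |tauR (pc + t) - tauR pc - b k * t| ≤
        C * (Pool.Agent.H92.SN.a4 pc (2 ^ k) + t ^ 2 * SumB (Pool.Agent.H92.SN.a4 pc) (2 ^ k))

/-- The bound of the remainder only depends on the values near zero. -/
theorem RemB.congr {a : ℕ → ℝ} {Rm Rm' : ℝ → ℝ} {c₀ δ₀ : ℝ} (hc₀ : 0 < c₀) (hδ₀ : 0 < δ₀)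
    (hG : Grow c₀ δ₀ 1 a) (hpos : ∀ n, 1 ≤ n → 0 < a n) (h : RemB a Rm) {η : ℝ} (hη : 0 < η)
    (he : ∀ x : ℝ, 0 < x → x < η → Rm' x = Rm x) : RemB a Rm' := by
  obtain ⟨cr, hcr, Cr, hCr, n₀, hb⟩ := h
  have hlim : Tendsto (fun n : ℕ => c₀ * (n : ℝ) ^ δ₀ * a 1) atTop atTop := by
    have h1 : Tendsto (fun n : ℕ => (n : ℝ) ^ δ₀) atTop atTop :=
      (tendsto_rpow_atTop hδ₀).comp tendsto_natCast_atTop_atTop
    exact (h1.const_mul_atTop hc₀).atTop_mul_const (hpos 1 le_rfl)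
  obtain ⟨n₁, hn₁⟩ := eventually_atTop.1 (hlim.eventually_gt_atTop (cr / η))
  refine ⟨cr, hcr, Cr, hCr, max n₀ n₁, fun n hn h1 x hx hxn => ?_⟩
  have h2 := hn₁ n ((le_max_right _ _).trans hn)
  have h3 : c₀ * (n : ℝ) ^ δ₀ * a 1 ≤ (n : ℝ) ^ 2 * a n := by
    have := grow_sq hG le_rfl h1 (by omega : 1 * 1 ≤ n)
    simpa using this
  have h4 : x < η := by
    have h5 : cr / η < (n : ℝ) ^ 2 * a n := h2.trans_le h3
    rw [div_lt_iff₀ hη] at h5
    by_contra hcon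
    push Not at hcon
    have h6 : 0 < (n : ℝ) ^ 2 * a n := (div_pos hcr hη).trans (h2.trans_le h3)
    nlinarith
  rw [he x hx h4]
  exact hb n ((le_max_left _ _).trans hn) h1 x hx hxn

/-- Continuity of `τ`. -/
theorem tau_cont (hGL : GLTorus) : Continuous Pool.Agent.H92.SN.tau := by
  obtain ⟨c, hc, h⟩ := (nc_holds hGL).reg_pc
  exact Pool.Agent.H92.SN.tau_continuous (Pool.Agent.H92.SN.a4_unif ⟨c, hc, h⟩)

/-- The cluster density is differentiable on `(0, 1)`, twice differentiable at the critical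
density, and the remainder is bounded by the four-arm probabilities. -/
theorem comb (hGL : GLTorus) (hW : WinS) :
    (∀ᶠ x in 𝓝 (pc : ℝ), DifferentiableAt ℝ kapS x) ∧ DifferentiableAt ℝ (deriv kapS) pc ∧
    RemB (Pool.Agent.H92.SN.a4 pc)
      (fun x => max |Rm2 kapS pc (pc + x)| |Rm2 kapS pc (pc - x)|) := by
  have H := nc_holds hGL
  have hp0 := pc_pos
  have hp1 := pc_lt_one
  obtain ⟨c₀, hc₀, δ₀, hδ₀, -, hG⟩ := H.growth1
  obtain ⟨cp, hcp, hreg⟩ := H.reg_pc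
  obtain ⟨C₁, hC₁, δ₁, hδ₁, -, hU⟩ := H.high cp hcp
  obtain ⟨c, hc, C, hC, k₀, b, hw⟩ := hW
  have hη : 0 < min (pc : ℝ) (1 - pc) := lt_min hp0 (by linarith)
  refine rem_of_win (a := Pool.Agent.H92.SN.a4 pc) (x₀ := pc) hc₀ hδ₀ hC₁ hδ₁ hG
    (fun m n hm hmn => hU m n pc hm hmn (hreg _)) (fun n hn => H.pos_pc n hn)
    (fun m n hm hmn => H.anti pc m n hm hmn) hη (fun x hx => ?_) hc hC hw
  rw [abs_lt] at hx
  have h1 := min_le_left (pc : ℝ) (1 - pc)
  have h2 := min_le_right (pc : ℝ) (1 - pc)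
  exact kapS_hasDerivAt (tau_cont hGL) (by linarith) (by linarith)

end Pool.Agent.H13.SK

end

section

/-!
# The number of clusters of the graph of open sites
-/

set_option autoImplicit false

open MeasureTheory ProbabilityTheory unitInterval Filter Topology

namespace Pool.Agent.H13.SK

open Pool.Agent.H89.Perc Pool.Agent.H92.SN
open Pool.Agent.H83.SK (sv sit)
open Pool.Agent.H83.Site (SA extS resS map_resS)

/-- A local function is measurable. -/
theorem measurable_of_local {s : Finset Edge} {f : Config → ℝ}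
    (hf : ∀ ω ω' : Config, (∀ e ∈ s, ω e = ω' e) → f ω = f ω') : Measurable f := by
  classical
  have h1 : f = fun ω => ∑ S ∈ s.powerset, (cyl s S).indicator (fun _ => f (ofS S)) ω := by
    funext ω
    set S0 : Finset Edge := s.filter (fun e => ω e = true) with hS0
    have hS0s : S0 ∈ s.powerset := Finset.mem_powerset.2 (Finset.filter_subset _ _)
    have hω : ω ∈ cyl s S0 := by
      rw [mem_cyl]
      intro e he
      rw [ofS_apply, hS0]
      simp [he]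
    rw [Finset.sum_eq_single_of_mem S0 hS0s]
    · rw [Set.indicator_of_mem hω]
      exact hf _ _ fun e he => mem_cyl.1 hω e he
    · intro S hS hne
      rw [Set.indicator_of_notMem]
      intro hc
      rw [mem_cyl] at hc hω
      apply hne
      ext e
      by_cases he : e ∈ s
      · have := (hc e he).symm.trans (hω e he)
        rw [ofS_apply, ofS_apply, decide_eq_decide] at this
        exact this
      · exact ⟨fun h => absurd (Finset.mem_powerset.1 hS h) he,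
          fun h => absurd (Finset.mem_powerset.1 hS0s h) he⟩
  rw [h1]
  exact Finset.measurable_sum _ fun S _ => measurable_const.indicator (measurableSet_cyl s S)

theorem conn_sit_congr {w w' : Config} {S : Set Vert} (h : ∀ v ∈ S, w (sv v) = w' (sv v))
    (u v : Vert) : Conn (sit w) S u v ↔ Conn (sit w') S u v := by
  have key : ∀ e, src e ∈ S → tgt e ∈ S → sit w e = sit w' e := by
    intro e h1 h2
    simp only [sit]
    rw [h _ h1, h _ h2]
  exact ⟨Conn.congr key, Conn.congr fun e h1 h2 => (key e h1 h2).symm⟩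

theorem KO_congr {w w' : Config} {S : Set Vert} (h : ∀ v ∈ S, w (sv v) = w' (sv v)) :
    KO w S = KO w' S := by
  unfold KO oClus
  congr 1
  ext C
  simp only [Set.mem_ofPred_eq]
  constructor
  · rintro ⟨v, hv, ho, rfl⟩
    refine ⟨v, hv, by rw [← h v hv]; exact ho, ?_⟩
    ext u
    exact conn_sit_congr h v u
  · rintro ⟨v, hv, ho, rfl⟩
    refine ⟨v, hv, by rw [h v hv]; exact ho, ?_⟩
    ext u
    exact (conn_sit_congr h v u).symm

theorem KO_local (n : ℕ) (w w' : Config) (h : ∀ e ∈ tSites n, w e = w' e) :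
    (KO w (bV n) : ℝ) = KO w' (bV n) := by
  have := KO_congr (w := w) (w' := w') (S := bV n) fun v hv => h _ (sv_mem_tSites.2 hv)
  rw [this]

theorem joins_of_SA {u v : Vert} (h : SA false u v) : ∃ e, Joins e u v := by
  obtain ⟨a, b⟩ := u
  obtain ⟨c, d⟩ := v
  obtain ⟨h1, h2, h3, h4⟩ := h
  simp only [abs_le, Bool.false_eq_true, false_or] at h2 h3 h4
  have hne : a ≠ c ∨ b ≠ d := by
    by_contra hcon
    push Not at hcon
    exact h1 (by rw [hcon.1, hcon.2])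
  have hcases : (c = a + 1 ∧ b = d) ∨ (c = a - 1 ∧ b = d) ∨ (a = c ∧ d = b + 1) ∨
      (a = c ∧ d = b - 1) := by omega
  rcases hcases with ⟨rfl, rfl⟩ | ⟨rfl, rfl⟩ | ⟨rfl, rfl⟩ | ⟨rfl, rfl⟩
  · exact ⟨(a, b, false), Or.inl ⟨rfl, by simp [tgt]⟩⟩
  · exact ⟨(a - 1, b, false), Or.inr ⟨by simp [tgt], rfl⟩⟩
  · exact ⟨(a, b, true), Or.inl ⟨rfl, by simp [tgt]⟩⟩
  · exact ⟨(a, b - 1, true), Or.inr ⟨by simp [tgt], rfl⟩⟩

theorem SA_of_joins {e : Edge} {u v : Vert} (h : Joins e u v) : SA false u v := by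
  obtain ⟨x, y, t⟩ := e
  rcases h with ⟨h1, h2⟩ | ⟨h1, h2⟩
  · subst h1 h2
    cases t
    · refine ⟨?_, ?_, ?_, ?_⟩ <;> simp [src, tgt]
    · refine ⟨?_, ?_, ?_, ?_⟩ <;> simp [src, tgt]
  · subst h1 h2
    cases t
    · refine ⟨?_, ?_, ?_, ?_⟩ <;> simp [src, tgt]
    · refine ⟨?_, ?_, ?_, ?_⟩ <;> simp [src, tgt]

section graph

variable {G : (ℤ × ℤ → Bool) → SimpleGraph (ℤ × ℤ)}

theorem extS_sv (ω : ℤ × ℤ → Bool) (v : Vert) : extS ω (sv v) = ω v := rfl

theorem step_ext_iff (hG : ∀ ω u v, (G ω).Adj u v ↔ ω u = true ∧ ω v = true ∧ SA false u v)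
    (ω : ℤ × ℤ → Bool) (S : Set Vert) (u v : ℤ × ℤ) :
    Step (sit (extS ω)) S u v ↔ u ∈ S ∧ v ∈ S ∧ (G ω).Adj u v := by
  unfold Step
  refine and_congr_right fun _ => and_congr_right fun _ => ?_
  rw [hG]
  constructor
  · rintro ⟨e, he, ho⟩
    rw [Pool.Agent.H83.SK.sit_true, extS_sv, extS_sv] at ho
    refine ⟨?_, ?_, SA_of_joins he⟩
    · rcases he with ⟨h1, -⟩ | ⟨h1, -⟩
      · rw [h1]; exact ho.1
      · rw [h1]; exact ho.2
    · rcases he with ⟨-, h1⟩ | ⟨-, h1⟩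
      · rw [h1]; exact ho.2
      · rw [h1]; exact ho.1
  · rintro ⟨h1, h2, h3⟩
    obtain ⟨e, he⟩ := joins_of_SA h3
    refine ⟨e, he, ?_⟩
    rw [Pool.Agent.H83.SK.sit_true, extS_sv, extS_sv]
    rcases he with ⟨h4, h5⟩ | ⟨h4, h5⟩
    · rw [← h4, ← h5]; exact ⟨h1, h2⟩
    · rw [← h4, ← h5]; exact ⟨h2, h1⟩

theorem reach_iff (hG : ∀ ω u v, (G ω).Adj u v ↔ ω u = true ∧ ω v = true ∧ SA false u v)
    (ω : ℤ × ℤ → Bool) (S : Set Vert) (u v : {v : ℤ × ℤ | v ∈ S ∧ ω v = true}) :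
    ((G ω).induce {v | v ∈ S ∧ ω v = true}).Reachable u v ↔
      Conn (sit (extS ω)) S (u : ℤ × ℤ) (v : ℤ × ℤ) := by
  constructor
  · rintro ⟨w⟩
    have key : ∀ x y : {v : ℤ × ℤ | v ∈ S ∧ ω v = true},
        ((G ω).induce {v | v ∈ S ∧ ω v = true}).Walk x y →
        Conn (sit (extS ω)) S (x : ℤ × ℤ) (y : ℤ × ℤ) := by
      intro x y w
      induction w with
      | @nil x => exact Conn.refl x.2.1
      | @cons x y z h _ ih =>
        refine Conn.trans (Step.conn ?_) ih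
        rw [step_ext_iff hG]
        exact ⟨x.2.1, y.2.1, h⟩
    exact key u v w
  · intro h
    have key : ∀ x : Vert, Conn (sit (extS ω)) S (u : ℤ × ℤ) x → ∀ hx : x ∈ S ∧ ω x = true,
        ((G ω).induce {v | v ∈ S ∧ ω v = true}).Reachable u ⟨x, hx⟩ := by
      intro x hc
      refine hc.induction_right (P := fun x => ∀ hx : x ∈ S ∧ ω x = true,
        ((G ω).induce {v | v ∈ S ∧ ω v = true}).Reachable u ⟨x, hx⟩)
        (fun hx => SimpleGraph.Reachable.refl _) ?_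
      intro a b _ hab ih hb
      rw [step_ext_iff hG] at hab
      have ha : a ∈ S ∧ ω a = true := ⟨hab.1, ((hG ω a b).1 hab.2.2).1⟩
      refine (ih ha).trans ?_
      exact SimpleGraph.Adj.reachable
        (u := (⟨a, ha⟩ : {v : ℤ × ℤ | v ∈ S ∧ ω v = true}))
        (v := (⟨b, hb⟩ : {v : ℤ × ℤ | v ∈ S ∧ ω v = true})) hab.2.2
    exact key v h v.2

theorem card_comp_eq (hG : ∀ ω u v, (G ω).Adj u v ↔ ω u = true ∧ ω v = true ∧ SA false u v)
    (ω : ℤ × ℤ → Bool) (S : Set Vert) :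
    Nat.card ((G ω).induce {v | v ∈ S ∧ ω v = true}).ConnectedComponent = KO (extS ω) S := by
  unfold KO
  rw [← Nat.card_coe_set_eq]
  let φ : ((G ω).induce {v | v ∈ S ∧ ω v = true}).ConnectedComponent → oClus (extS ω) S :=
    Quot.lift (fun v : {v : ℤ × ℤ | v ∈ S ∧ ω v = true} =>
      ⟨{u | Conn (sit (extS ω)) S (v : ℤ × ℤ) u}, v, v.2.1, v.2.2, rfl⟩) (by
      intro u v huv
      have huv' : Conn (sit (extS ω)) S (u : ℤ × ℤ) (v : ℤ × ℤ) := (reach_iff hG ω S u v).1 huv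
      apply Subtype.ext
      ext w
      exact ⟨fun h => huv'.symm.trans h, fun h => huv'.trans h⟩)
  refine Nat.card_eq_of_bijective φ ⟨?_, ?_⟩
  · intro x y
    refine Quot.induction_on₂ x y fun u v h => ?_
    have h1 : ({w | Conn (sit (extS ω)) S (u : ℤ × ℤ) w} : Set Vert) =
        {w | Conn (sit (extS ω)) S (v : ℤ × ℤ) w} := congrArg Subtype.val h
    have h2 : (v : Vert) ∈ ({w | Conn (sit (extS ω)) S (u : ℤ × ℤ) w} : Set Vert) := by
      rw [h1]; exact Conn.refl v.2.1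
    exact Quot.sound ((reach_iff hG ω S u v).2 h2)
  · rintro ⟨C, v, hv, ho, rfl⟩
    exact ⟨Quot.mk _ ⟨v, hv, ho⟩, rfl⟩

/-- The expected number of clusters of the graph of open sites in the box. -/
theorem meanClusters_eq
    (hG : ∀ ω u v, (G ω).Adj u v ↔ ω u = true ∧ ω v = true ∧ SA false u v) (n : ℕ) (p : I) :
    ∫ ω, (Nat.card ((G ω).induce {v | v ∈ bV n ∧ ω v = true}).ConnectedComponent : ℝ)
        ∂(Measure.infinitePi fun _ : ℤ × ℤ => bernoulliMeasure true false p) = EKO n p := by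
  simp only [card_comp_eq hG]
  have hres : Measurable resS := by
    refine measurable_pi_lambda _ fun v => ?_
    exact measurable_pi_apply (v.1, v.2, false)
  have hext : Measurable extS := by
    refine measurable_pi_lambda _ fun v => ?_
    exact measurable_pi_apply (v.1, v.2.1)
  have hm : Measurable fun ω : ℤ × ℤ → Bool => (KO (extS ω) (bV n) : ℝ) :=
    (measurable_of_local (s := tSites n) (f := fun w => (KO w (bV n) : ℝ))
      fun w w' h => KO_local n w w' h).comp hext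
  rw [← map_resS, integral_map hres.aemeasurable hm.aestronglyMeasurable]
  have h1 : ∀ w : Config, (KO (extS (resS w)) (bV n) : ℝ) = KO w (bV n) := fun w => by
    have := KO_congr (w := extS (resS w)) (w' := w) (S := bV n) fun v _ => rfl
    rw [this]
  simp only [h1]
  exact Pool.Agent.H29.Kap.integral_eq_Ex (s := tSites n) (f := fun w => (KO w (bV n) : ℝ))
    (fun w w' h => KO_local n w w' h) p

end graph

end Pool.Agent.H13.SK

end

section

/-!
# Joint influences of two sites on the connection event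
-/

set_option autoImplicit false

open MeasureTheory ProbabilityTheory unitInterval

namespace Pool.Agent.H92.SN

open Pool.Agent.H89.Perc
open Pool.Agent.H61.NC (modE mid Joint Joint_piv)
open Pool.Agent.H83.SK (sv sit)
open Pool.Agent.H90.AL (dT dT_self dT_comm dT_tri dT_le_half)
open Pool.Agent.H29.Sep (A2)

variable {N i : ℕ} {J : Set Config} {u v w : Vert}

/-- The event `J` implies arms of `u`, `v`, `w`, where `u` and `v` are the closest sites. -/
structure RoleS (N : ℕ) (J : Set Config) (u v w : Vert) : Prop where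
  near : ∀ r : ℕ, 1 ≤ r → 2 * r + 2 ≤ N → r + 1 < dT N u v → r + 1 < dT N u w →
    r + 1 < dT N v w → J ⊆ A4T N u r ∩ A4T N v r
  far : ∀ r : ℕ, 1 ≤ r → 2 * r + 2 ≤ N → r + 1 < dT N u w → r + 1 < dT N v w → J ⊆ A4T N w r
  ann : ∀ t R : ℕ, 1 ≤ t → t ≤ R → 2 * R < N → dT N u v + 1 ≤ t →
    R + 1 < dT N u w → J ⊆ A2S N u t R

lemma a2S_update (hN : 1 ≤ N) {x c : Vert} {t R : ℕ} {b : Bool} {w : Config} (ht : 1 ≤ t)
    (hR : t + R ≤ N) (h : dT N x c < t ∨ R < dT N x c)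
    (h' : Function.update w (sv x) b ∈ A2S N c t R) : w ∈ A2S N c t R := by
  refine localOn_A2S hN c ht hR _ _ (fun e he => ?_) h'
  rw [Function.update_of_ne]
  rintro rfl
  rw [mem_SRS, src_sv] at he
  omega

lemma joint_pivS {x y : Vert} (hi : Incr (DT N i)) (hxy : x ≠ y) {w : Config}
    (h : w ∈ Joint (DT N i) (sv x) (sv y)) :
    (∃ b, PivS N i x (Function.update w (sv y) b)) ∧
      ∃ b, PivS N i y (Function.update w (sv x) b) := by
  obtain ⟨⟨b, h1, h2⟩, ⟨b', h3, h4⟩⟩ := Joint_piv hi (sv_ne hxy) h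
  exact ⟨⟨b, h1, h2⟩, ⟨b', h3, h4⟩⟩

/-- The two sites are close, the middle site is far. -/
theorem roleS_one (hN : 1 ≤ N) {x y : Vert} (hx : sv x ∈ tSites N) (hy : sv y ∈ tSites N)
    (hxy : x ≠ y) (hi : Incr (DT N i)) :
    RoleS N (Joint (DT N i) (sv x) (sv y)) x y (cV N) where
  near r hr hrN h1 h2 h3 := by
    intro ω hω
    obtain ⟨⟨b, hb⟩, ⟨b', hb'⟩⟩ := joint_pivS hi hxy hω
    refine ⟨(a4S_update hN (x := y) (b := b) ?_).1 (hb.a4_self hx hr hrN ?_),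
      (a4S_update hN (x := x) (b := b') ?_).1 (hb'.a4_self hy hr hrN ?_)⟩
    · rw [dT_comm hN]; omega
    · rw [dT_comm hN]; omega
    · omega
    · rw [dT_comm hN]; omega
  far r hr hrN h1 h2 := by
    intro ω hω
    obtain ⟨⟨b, hb⟩, -⟩ := joint_pivS hi hxy hω
    exact (a4S_update hN (x := y) (b := b) (by omega)).1 (hb.a4_ctr hx hr hrN (by omega))
  ann t R ht htR hR h1 h2 := by
    intro ω hω
    obtain ⟨⟨b, hb⟩, -⟩ := joint_pivS hi hxy hω
    refine a2S_update hN (x := y) (b := b) ht (by omega) (Or.inl ?_)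
      (hb.a2 hx ht htR hR (Or.inl ?_))
    · rw [dT_comm hN]; omega
    · rw [dT_self, dT_comm hN (cV N)]
      omega

/-- The site `x` is close to the middle site, the site `y` is far. -/
theorem roleS_two (hN : 1 ≤ N) {x y : Vert} (hx : sv x ∈ tSites N) (hy : sv y ∈ tSites N)
    (hxy : x ≠ y) (hi : Incr (DT N i)) :
    RoleS N (Joint (DT N i) (sv x) (sv y)) (cV N) x y where
  near r hr hrN h1 h2 h3 := by
    intro ω hω
    obtain ⟨⟨b, hb⟩, -⟩ := joint_pivS hi hxy hω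
    refine ⟨(a4S_update hN (x := y) (b := b) ?_).1 (hb.a4_ctr hx hr hrN ?_),
      (a4S_update hN (x := y) (b := b) ?_).1 (hb.a4_self hx hr hrN ?_)⟩
    · rw [dT_comm hN]; omega
    · rw [dT_comm hN]; omega
    · rw [dT_comm hN]; omega
    · omega
  far r hr hrN h1 h2 := by
    intro ω hω
    obtain ⟨-, ⟨b, hb⟩⟩ := joint_pivS hi hxy hω
    exact (a4S_update hN (x := x) (b := b) (by omega)).1 (hb.a4_self hy hr hrN (by omega))
  ann t R ht htR hR h1 h2 := by
    intro ω hω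
    obtain ⟨-, ⟨b, hb⟩⟩ := joint_pivS hi hxy hω
    refine a2S_update hN (x := x) (b := b) ht (by omega) (Or.inl ?_)
      (hb.a2 hy ht htR hR (Or.inr ?_))
    · rw [dT_comm hN]; omega
    · rw [dT_self, dT_comm hN y]
      omega

/-- The site `y` is close to the middle site, the site `x` is far. -/
theorem roleS_three (hN : 1 ≤ N) {x y : Vert} (hx : sv x ∈ tSites N) (hy : sv y ∈ tSites N)
    (hxy : x ≠ y) (hi : Incr (DT N i)) :
    RoleS N (Joint (DT N i) (sv x) (sv y)) (cV N) y x where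
  near r hr hrN h1 h2 h3 := by
    intro ω hω
    obtain ⟨-, ⟨b, hb⟩⟩ := joint_pivS hi hxy hω
    refine ⟨(a4S_update hN (x := x) (b := b) ?_).1 (hb.a4_ctr hy hr hrN ?_),
      (a4S_update hN (x := x) (b := b) ?_).1 (hb.a4_self hy hr hrN ?_)⟩
    · rw [dT_comm hN]; omega
    · rw [dT_comm hN]; omega
    · rw [dT_comm hN]; omega
    · omega
  far r hr hrN h1 h2 := by
    intro ω hω
    obtain ⟨⟨b, hb⟩, -⟩ := joint_pivS hi hxy hω
    exact (a4S_update hN (x := y) (b := b) (by omega)).1 (hb.a4_self hx hr hrN (by omega))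
  ann t R ht htR hR h1 h2 := by
    intro ω hω
    obtain ⟨⟨b, hb⟩, -⟩ := joint_pivS hi hxy hω
    refine a2S_update hN (x := y) (b := b) ht (by omega) (Or.inl ?_)
      (hb.a2 hx ht htR hR (Or.inr ?_))
    · rw [dT_comm hN]; omega
    · rw [dT_self, dT_comm hN x]
      omega

/-! ### Probabilities -/

lemma disj_SRS (hN : 1 ≤ N) {c c' : Vert} {t R t' R' : ℕ}
    (h : R + R' < dT N c c' ∨ dT N c c' + R' < t) : Disjoint (SRS N c t R) (SRS N c' t' R') := by
  rw [Finset.disjoint_left]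
  intro g hg hg'
  rw [mem_SRS] at hg hg'
  have h1 := dT_tri hN c (src g) c'
  have h2 := dT_tri hN (src g) c' c
  rw [dT_comm hN c (src g)] at h1
  rw [dT_comm hN c' c] at h2
  rcases h with h | h <;> omega

theorem Pr_roleS_A (q : I) (hJ : RoleS N J u v w) {r t R r' : ℕ} (hN : 1 ≤ N) (h1 : 1 ≤ r)
    (h2 : 2 * r < dT N u v) (h3 : dT N u v + r < t) (h4 : t ≤ R) (h5 : 1 ≤ r')
    (h6 : R + r' + 1 < dT N u w) (h7 : r + r' + 1 < dT N v w) :
    Pr q J ≤ a4 q r * a4 q r * (Pool.Agent.H83.SK.Pr q (A2 t R) * a4 q r') := by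
  classical
  have b1 := dT_le_half hN u w
  have b2 := dT_le_half hN u v
  have hsub : J ⊆ (A4T N u r ∩ A4T N v r) ∩ (A2S N u t R ∩ A4T N w r') := by
    intro ω hω
    exact ⟨hJ.near r h1 (by omega) (by omega) (by omega) (by omega) hω,
      hJ.ann t R (by omega) h4 (by omega) (by omega) (by omega) hω,
      hJ.far r' h5 (by omega) (by omega) (by omega) hω⟩
  refine (Pr_mono hsub).trans (le_of_eq ?_)
  rw [Pr_inter_of_disjoint ((localOn_A4S hN u r).inter' (localOn_A4S hN v r))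
      ((localOn_A2S hN u (by omega : 1 ≤ t) (by omega : t + R ≤ N)).inter'
        (localOn_A4S hN w r')) ?_,
    Pr_inter_of_disjoint (localOn_A4S hN u r) (localOn_A4S hN v r)
      (disj_SRS hN (Or.inl (by omega))),
    Pr_inter_of_disjoint (localOn_A2S hN u (by omega : 1 ≤ t) (by omega : t + R ≤ N))
      (localOn_A4S hN w r') (disj_SRS hN (Or.inl (by omega))),
    Pr_A4T q u (by omega), Pr_A4T q v (by omega), Pr_A4T q w (by omega),
    Pr_A2S q _ (by omega)]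
  rw [Finset.disjoint_union_left, Finset.disjoint_union_right, Finset.disjoint_union_right]
  refine ⟨⟨?_, disj_SRS hN (Or.inl (by omega))⟩, ⟨?_, disj_SRS hN (Or.inl (by omega))⟩⟩
  · exact (disj_SRS hN (Or.inr (by rw [dT_self]; omega))).symm
  · exact (disj_SRS hN (Or.inr (by omega))).symm

theorem Pr_roleS_B (q : I) (hJ : RoleS N J u v w) {r r' : ℕ} (hN : 1 ≤ N) (h1 : 1 ≤ r)
    (h2 : 2 * r < dT N u v) (h5 : 1 ≤ r') (h6 : r + r' + 1 < dT N u w)
    (h7 : r + r' + 1 < dT N v w) : Pr q J ≤ a4 q r * a4 q r * a4 q r' := by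
  classical
  have b1 := dT_le_half hN u w
  have b2 := dT_le_half hN u v
  have hsub : J ⊆ (A4T N u r ∩ A4T N v r) ∩ A4T N w r' := by
    intro ω hω
    exact ⟨hJ.near r h1 (by omega) (by omega) (by omega) (by omega) hω,
      hJ.far r' h5 (by omega) (by omega) (by omega) hω⟩
  refine (Pr_mono hsub).trans (le_of_eq ?_)
  rw [Pr_inter_of_disjoint ((localOn_A4S hN u r).inter' (localOn_A4S hN v r))
      (localOn_A4S hN w r') ?_,
    Pr_inter_of_disjoint (localOn_A4S hN u r) (localOn_A4S hN v r)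
      (disj_SRS hN (Or.inl (by omega))),
    Pr_A4T q u (by omega), Pr_A4T q v (by omega), Pr_A4T q w (by omega)]
  rw [Finset.disjoint_union_left]
  exact ⟨disj_SRS hN (Or.inl (by omega)), disj_SRS hN (Or.inl (by omega))⟩

theorem Pr_roleS_C (q : I) (hJ : RoleS N J u v w) {t R r' : ℕ} (hN : 1 ≤ N)
    (h3 : dT N u v < t) (h4 : t ≤ R) (h5 : 1 ≤ r') (h6 : R + r' + 1 < dT N u w)
    (h7 : r' + 1 < dT N v w) :
    Pr q J ≤ Pool.Agent.H83.SK.Pr q (A2 t R) * a4 q r' := by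
  classical
  have b1 := dT_le_half hN u w
  have hsub : J ⊆ A2S N u t R ∩ A4T N w r' := by
    intro ω hω
    exact ⟨hJ.ann t R (by omega) h4 (by omega) (by omega) (by omega) hω,
      hJ.far r' h5 (by omega) (by omega) (by omega) hω⟩
  refine (Pr_mono hsub).trans (le_of_eq ?_)
  rw [Pr_inter_of_disjoint (localOn_A2S hN u (by omega : 1 ≤ t) (by omega : t + R ≤ N))
      (localOn_A4S hN w r') (disj_SRS hN (Or.inl (by omega))), Pr_A4T q w (by omega),
    Pr_A2S q _ (by omega)]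

/-- Comparison of the four-arm probabilities at comparable distances. -/
theorem a4_cmp (hGL : GLTorus) (hBL : BlockLow) : ∀ c : ℝ, 0 < c → ∀ K : ℕ, 1 ≤ K →
    ∃ C : ℝ, 0 < C ∧ ∀ (m n : ℕ) (q : I), 1 ≤ m → 1 ≤ n → n ≤ K * m → SReg c (64 * n) q →
      a4 q m ≤ C * a4 q n := by
  intro c hc K hK
  obtain ⟨C, δ, hC, hδ, hδ1, H⟩ := a4_low hGL hBL c hc
  have hK0 : (1 : ℝ) ≤ K := by exact_mod_cast hK
  refine ⟨max (C * (K : ℝ) ^ 2) 1, lt_max_of_lt_right one_pos, fun m n q hm hn hnm hR => ?_⟩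
  have ha := a4_nonneg q n
  rcases Nat.lt_or_ge n m with h | h
  · calc a4 q m ≤ a4 q n := a4_anti q hn h.le
      _ = 1 * a4 q n := (one_mul _).symm
      _ ≤ _ := mul_le_mul_of_nonneg_right (le_max_right _ _) ha
  · have h1 := H m n q hm h hR
    have hm0 : (0 : ℝ) < m := by exact_mod_cast hm
    have h2 : (n : ℝ) / m ≤ K := by
      rw [div_le_iff₀ hm0]
      exact_mod_cast hnm
    have h3 : ((n : ℝ) / m) ^ (2 - δ) ≤ (K : ℝ) ^ 2 := by
      calc ((n : ℝ) / m) ^ (2 - δ) ≤ (K : ℝ) ^ (2 - δ) :=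
            Real.rpow_le_rpow (by positivity) h2 (by linarith)
        _ ≤ (K : ℝ) ^ (2 : ℝ) := Real.rpow_le_rpow_of_exponent_le hK0 (by linarith)
        _ = (K : ℝ) ^ 2 := Real.rpow_two _
    calc a4 q m ≤ C * ((n : ℝ) / m) ^ (2 - δ) * a4 q n := h1
      _ ≤ C * (K : ℝ) ^ 2 * a4 q n := by gcongr
      _ ≤ _ := mul_le_mul_of_nonneg_right (le_max_left _ _) ha

/-- The basic estimate. -/
theorem estimateS (hGL : GLTorus) (hBL : BlockLow) (hQM : QMann) : ∀ c : ℝ, 0 < c →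
    ∃ C : ℝ, 0 < C ∧ ∀ (N : ℕ) (q : I) (J : Set Config) (u v w : Vert) (d₁ d₂ : ℕ), 1 ≤ N →
      SReg c (128 * N) q → RoleS N J u v w → dT N u v = d₁ → d₁ ≤ d₂ → d₂ ≤ dT N u w →
      d₂ ≤ dT N v w →
      Pr q J ≤ C * (a4 q (d₁ + 1) * (a4 q (d₂ + 1) * a4 q (d₂ + 1))) := by
  intro c hc
  obtain ⟨C₁, hC₁, hQ⟩ := hQM c hc
  obtain ⟨K8, p8, hK8⟩ := a4_cmp hGL hBL c hc 8 (by norm_num)
  obtain ⟨K64, p64, hK64⟩ := a4_cmp hGL hBL c hc 64 (by norm_num)
  obtain ⟨m, hm⟩ : ∃ m : ℝ, m = (1 / (c / 10) ^ 9) := ⟨_, rfl⟩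
  have pm : 0 < m := by rw [hm]; positivity
  refine ⟨K8 * (C₁ * K8) * K8 + K8 * K64 * K8 + m * (m * (K64 * C₁)) * (K8 * K8) +
      m * K8 * (m * K64 * (m * K64)), by positivity, ?_⟩
  intro N q J u v w d₁ d₂ hN hR hJ e1 e2 e3 e4
  have b1 := dT_le_half hN u w
  have b2 := dT_le_half hN u v
  obtain ⟨g, hg⟩ : ∃ g : ℕ → ℝ, g = fun r => a4 q r := ⟨_, rfl⟩
  have hg0 : ∀ r, 0 ≤ g r := fun r => by rw [hg]; exact a4_nonneg q r
  have hgr : ∀ r, a4 q r = g r := fun r => by rw [hg]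
  obtain ⟨X, hX⟩ : ∃ X : ℝ, X = g (d₁ + 1) := ⟨_, rfl⟩
  obtain ⟨Y, hY⟩ : ∃ Y : ℝ, Y = g (d₂ + 1) := ⟨_, rfl⟩
  have hX0 : 0 ≤ X := by rw [hX]; exact hg0 _
  have hY0 : 0 ≤ Y := by rw [hY]; exact hg0 _
  rw [hgr, hgr, ← hX, ← hY]
  have hd1N : d₁ + 1 ≤ 2 * N := by omega
  have hd2N : d₂ + 1 ≤ 2 * N := by omega
  have z1 : 0 ≤ K8 * (C₁ * K8) * K8 * (X * (Y * Y)) := by positivity
  have z2 : 0 ≤ K8 * K64 * K8 * (X * (Y * Y)) := by positivity
  have z3 : 0 ≤ m * (m * (K64 * C₁)) * (K8 * K8) * (X * (Y * Y)) := by positivity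
  have z4 : 0 ≤ m * K8 * (m * K64 * (m * K64)) * (X * (Y * Y)) := by positivity
  rw [add_mul, add_mul, add_mul]
  -- comparisons
  have c8 : ∀ r n : ℕ, 1 ≤ r → 1 ≤ n → n ≤ 8 * r → n ≤ 2 * N → g r ≤ K8 * g n := by
    intro r n h1 h2 h3 h4
    rw [← hgr, ← hgr]
    exact hK8 r n q h1 h2 h3 (sreg_anti hR (by omega))
  have c64 : ∀ r n : ℕ, 1 ≤ r → 1 ≤ n → n ≤ 64 * r → n ≤ 2 * N → g r ≤ K64 * g n := by
    intro r n h1 h2 h3 h4
    rw [← hgr, ← hgr]
    exact hK64 r n q h1 h2 h3 (sreg_anti hR (by omega))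
  have hone : 1 ≤ m * g 1 := by
    have h1 := a4_one q (m := c / 10) (by positivity) (sreg_mem hc (by omega) hR).2
    rw [hgr] at h1
    rw [hm, div_mul_eq_mul_div, one_mul, one_le_div (by positivity)]
    exact h1
  by_cases hd1 : 8 ≤ d₁
  · by_cases hcase : 16 * (d₁ / 4) ≤ d₂ / 2
    · -- annulus
      have h1 := Pr_roleS_A q hJ (r := d₁ / 4) (t := 16 * (d₁ / 4)) (R := d₂ / 2)
        (r' := d₂ / 4) hN (by omega) (by omega) (by omega) hcase (by omega) (by omega) (by omega)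
      have h2 := hQ (128 * N) (d₁ / 4) (d₂ / 2) q (by omega) hcase (by omega) hR
      have h3 := c8 (d₁ / 4) (d₁ + 1) (by omega) (by omega) (by omega) (by omega)
      have h4 := c8 (d₂ / 4) (d₂ + 1) (by omega) (by omega) (by omega) (by omega)
      have h5 := c8 (d₂ / 2) (d₂ + 1) (by omega) (by omega) (by omega) (by omega)
      rw [hgr, hgr] at h1
      rw [hgr, hgr] at h2
      rw [← hX] at h3
      rw [← hY] at h4 h5
      have hA20 : 0 ≤ Pool.Agent.H83.SK.Pr q (A2 (16 * (d₁ / 4)) (d₂ / 2)) :=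
        Pool.Agent.H83.SK.Pr_nonneg
      have h6 : g (d₁ / 4) * g (d₁ / 4) *
          (Pool.Agent.H83.SK.Pr q (A2 (16 * (d₁ / 4)) (d₂ / 2)) * g (d₂ / 4)) ≤
          K8 * (C₁ * K8) * K8 * (X * (Y * Y)) := by
        calc g (d₁ / 4) * g (d₁ / 4) *
            (Pool.Agent.H83.SK.Pr q (A2 (16 * (d₁ / 4)) (d₂ / 2)) * g (d₂ / 4))
            = g (d₁ / 4) * (g (d₁ / 4) *
              Pool.Agent.H83.SK.Pr q (A2 (16 * (d₁ / 4)) (d₂ / 2))) * g (d₂ / 4) := by
              ring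
          _ ≤ (K8 * X) * (C₁ * (K8 * Y)) * (K8 * Y) := by
              refine mul_le_mul (mul_le_mul h3 (h2.trans ?_) (mul_nonneg (hg0 _) hA20)
                (by positivity)) h4 (hg0 _) (by positivity)
              exact mul_le_mul_of_nonneg_left h5 hC₁.le
          _ = _ := by ring
      linarith
    · -- comparable distances
      have h1 := Pr_roleS_B q hJ (r := d₁ / 4) (r' := d₂ / 4) hN (by omega) (by omega)
        (by omega) (by omega) (by omega)
      have h3 := c8 (d₁ / 4) (d₁ + 1) (by omega) (by omega) (by omega) (by omega)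
      have h3' := c64 (d₁ / 4) (d₂ + 1) (by omega) (by omega) (by omega) (by omega)
      have h4 := c8 (d₂ / 4) (d₂ + 1) (by omega) (by omega) (by omega) (by omega)
      rw [hgr, hgr] at h1
      rw [← hX] at h3
      rw [← hY] at h3' h4
      have h6 : g (d₁ / 4) * g (d₁ / 4) * g (d₂ / 4) ≤ K8 * K64 * K8 * (X * (Y * Y)) := by
        calc g (d₁ / 4) * g (d₁ / 4) * g (d₂ / 4) ≤ (K8 * X) * (K64 * Y) * (K8 * Y) :=
              mul_le_mul (mul_le_mul h3 h3' (hg0 _) (by positivity)) h4 (hg0 _) (by positivity)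
          _ = _ := by ring
      linarith
  · push Not at hd1
    have hXone : 1 ≤ m * K8 * X := by
      have h1 := c8 1 (d₁ + 1) le_rfl (by omega) (by omega) hd1N
      rw [← hX] at h1
      calc (1 : ℝ) ≤ m * g 1 := hone
        _ ≤ m * (K8 * X) := mul_le_mul_of_nonneg_left h1 pm.le
        _ = _ := by ring
    by_cases hd2 : 63 ≤ d₂
    · have h1 := Pr_roleS_C q hJ (t := 16) (R := d₂ / 2) (r' := d₂ / 4) hN (by omega) (by omega)
        (by omega) (by omega) (by omega)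
      have h2 := hQ (128 * N) 1 (d₂ / 2) q le_rfl (by omega) (by omega) hR
      have h4 := c8 (d₂ / 4) (d₂ + 1) (by omega) (by omega) (by omega) (by omega)
      have h5 := c64 (d₂ / 2) (d₂ + 1) (by omega) (by omega) (by omega) (by omega)
      rw [hgr] at h1
      rw [mul_one, hgr (d₂ / 2), hgr 1] at h2
      rw [← hY] at h4 h5
      have hA20 : 0 ≤ Pool.Agent.H83.SK.Pr q (A2 16 (d₂ / 2)) := Pool.Agent.H83.SK.Pr_nonneg
      have h8 : Pool.Agent.H83.SK.Pr q (A2 16 (d₂ / 2)) ≤ m * (C₁ * (K64 * Y)) := by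
        calc Pool.Agent.H83.SK.Pr q (A2 16 (d₂ / 2))
            = 1 * Pool.Agent.H83.SK.Pr q (A2 16 (d₂ / 2)) := (one_mul _).symm
          _ ≤ m * g 1 * Pool.Agent.H83.SK.Pr q (A2 16 (d₂ / 2)) :=
              mul_le_mul_of_nonneg_right hone hA20
          _ = m * (g 1 * Pool.Agent.H83.SK.Pr q (A2 16 (d₂ / 2))) := by ring
          _ ≤ m * (C₁ * (K64 * Y)) :=
              mul_le_mul_of_nonneg_left (h2.trans (mul_le_mul_of_nonneg_left h5 hC₁.le)) pm.le
      have h6 : Pool.Agent.H83.SK.Pr q (A2 16 (d₂ / 2)) * g (d₂ / 4) ≤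
          m * (m * (K64 * C₁)) * (K8 * K8) * (X * (Y * Y)) := by
        calc Pool.Agent.H83.SK.Pr q (A2 16 (d₂ / 2)) * g (d₂ / 4) ≤
              (m * (C₁ * (K64 * Y))) * (K8 * Y) :=
              mul_le_mul h8 h4 (hg0 _) (by positivity)
          _ = m * (K64 * C₁) * K8 * (Y * Y) * 1 := by ring
          _ ≤ m * (K64 * C₁) * K8 * (Y * Y) * (m * K8 * X) :=
              mul_le_mul_of_nonneg_left hXone (by positivity)
          _ = _ := by ring
      linarith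
    · push Not at hd2
      have hYone : 1 ≤ m * K64 * Y := by
        have h1 := c64 1 (d₂ + 1) le_rfl (by omega) (by omega) hd2N
        rw [← hY] at h1
        calc (1 : ℝ) ≤ m * g 1 := hone
          _ ≤ m * (K64 * Y) := mul_le_mul_of_nonneg_left h1 pm.le
          _ = _ := by ring
      have h1 : Pr q J ≤ 1 := Pr_le_one
      have h2 : (1 : ℝ) ≤ m * K8 * (m * K64 * (m * K64)) * (X * (Y * Y)) := by
        calc (1 : ℝ) = 1 * (1 * 1) := by ring
          _ ≤ (m * K8 * X) * ((m * K64 * Y) * (m * K64 * Y)) :=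
              mul_le_mul hXone (mul_le_mul hYone hYone zero_le_one (by positivity)) (by norm_num)
                (by positivity)
          _ = _ := by ring
      linarith

end Pool.Agent.H92.SN

end

section

/-!
# Second derivative of the connection probability on the torus
-/

set_option autoImplicit false

open MeasureTheory ProbabilityTheory unitInterval

namespace Pool.Agent.H92.SN

open Pool.Agent.H89.Perc
open Pool.Agent.H61.NC (modE mid Joint Joint_piv)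
open Pool.Agent.H83.SK (sv sit)
open Pool.Agent.H90.AL (dT dT_self dT_comm dT_tri dT_le_half sum_by_dT isPer_per conn_per)

theorem localOn_DT {N : ℕ} (hN : 1 ≤ N) (i : ℕ) : LocalOn (tSites N) (DT N i) := by
  intro w w' h hw
  have e : sit (per N (shut (cV N) w)) = sit (per N (shut (cV N) w')) := by
    refine sit_per_congr hN fun e he => ?_
    unfold shut
    by_cases h1 : e = sv (cV N)
    · subst h1
      rw [Function.update_self, Function.update_self]
    · rw [Function.update_of_ne h1, Function.update_of_ne h1]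
      exact h e he
  obtain ⟨j, hj, a, b, hc⟩ := hw
  exact ⟨j, hj, a, b, e ▸ hc⟩

theorem incr_DT (N i : ℕ) : Incr (DT N i) := by
  rintro w w' h ⟨j, hj, a, b, hc⟩
  refine ⟨j, hj, a, b, hc.mono le_rfl (Pool.Agent.H83.SK.sit_mono fun e he => ?_)⟩
  rw [per] at he ⊢
  unfold shut at he ⊢
  by_cases h1 : (e.1 % (N : ℤ), e.2.1 % (N : ℤ), e.2.2) = sv (cV N)
  · rw [h1, Function.update_self] at he
    exact absurd he (by decide)
  · rw [Function.update_of_ne h1] at he ⊢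
    exact h _ he

theorem cfgS_ball {N r : ℕ} (hr : 2 * r < N) (w : Config) {g : Edge}
    (h1 : src g ∈ ball (cV N) r) (h2 : tgt g ∈ ball (cV N) r) :
    cfgS N w g = closeV (cV N) (sit (per N w)) g :=
  sit_per_ball hr (by rw [sv_cV]; exact cE_mem (by omega)) w h1 h2

theorem B0T_sub {N r : ℕ} (i : ℕ) (hr : 2 * r < N) :
    {w | sit (per N w) ∈ Dn (ball (cV N) r) (cV N) i} ⊆ DT N i := by
  rintro w ⟨j, hj, hc⟩
  refine ⟨j, hj, 0, 0, ?_⟩
  simp only [zero_mul, add_zero]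
  exact (hc.congr fun g h1 h2 => (cfgS_ball hr w h1 h2).symm).mono_set (Set.subset_univ _)

theorem DT_sub {N r : ℕ} (i : ℕ) (hr : 1 ≤ r) (hN : 2 * r + 2 ≤ N) :
    DT N i ⊆ {w | sit (per N w) ∈ Dn (ball (cV N) r) (cV N) i} ∪ A4T N (cV N) r := by
  rintro w ⟨j, hj, a, b, hc⟩
  have hcf : ∀ g : Edge, src g ∈ ball (cV N) r → tgt g ∈ ball (cV N) r →
      cfgS N w g = closeV (cV N) (sit (per N w)) g := fun g h1 h2 =>
    cfgS_ball (by omega) w h1 h2
  change Conn (cfgS N w) _ _ _ at hc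
  by_cases h0 : Conn (cfgS N w) (ball (cV N) r) (nb (cV N) j) (nb (cV N) i)
  · exact Or.inl ⟨j, hj, h0.congr hcf⟩
  right
  have hp := isPer_cfgS N w
  have mj := (nb_Nb (cV N) j).mem_ball (r := 1) le_rfl
  have mi := (nb_Nb (cV N) i).mem_ball (r := 1) le_rfl
  have e1 : ((((nb (cV N) i).1 + a * N) + -a * N, ((nb (cV N) i).2 + b * N) + -b * N) : Vert) =
      nb (cV N) i := by
    ext <;> (simp only; ring)
  have hc2 := conn_per hp (-a) (-b) hc
  simp only at hc2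
  rw [e1] at hc2
  have hout : a ≠ 0 ∨ b ≠ 0 → ((nb (cV N) i).1 + a * N, (nb (cV N) i).2 + b * N) ∉
      ball (cV N) r ∧ ((nb (cV N) j).1 + -a * N, (nb (cV N) j).2 + -b * N) ∉
      ball (cV N) r := by
    intro hab
    have key : ∀ x : ℤ, x ≠ 0 → x * N ≤ -N ∨ N ≤ x * N := by
      intro x hx
      rcases lt_or_gt_of_ne hx with h | h
      · left
        have : x * N ≤ -1 * N := mul_le_mul_of_nonneg_right (by omega) (by omega)
        omega
      · right
        have : 1 * N ≤ x * N := mul_le_mul_of_nonneg_right (by omega) (by omega)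
        omega
    rw [mem_ball] at mj mi
    push_cast at mj mi
    simp only [mem_ball, neg_mul]
    rcases hab with h | h
    · have := key _ h
      constructor <;> omega
    · have := key _ h
      constructor <;> omega
  have conv : ∀ p : Vert, (∃ x ∈ sphere (cV N) r,
      Conn (cfgS N w) (ball (cV N) r) p x) → ∃ x ∈ sphere (cV N) r,
      Conn (closeV (cV N) (sit (per N w))) (ball (cV N) r) p x := by
    rintro p ⟨x, hx, hc⟩
    exact ⟨x, hx, hc.congr hcf⟩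
  refine ⟨nb (cV N) j, nb (cV N) i, nb_Nb _ _, nb_Nb _ _, conv _ ?_, conv _ ?_, fun h =>
    h0 (h.congr fun g h1 h2 => (hcf g h1 h2).symm)⟩
  · by_cases hab : a ≠ 0 ∨ b ≠ 0
    · obtain ⟨x, hx, hcx⟩ := hc.to_sphere ((nb_Nb (cV N) j).mem_ball hr) (Or.inl (hout hab).1)
      exact ⟨x, hx, hcx.mono_set Set.inter_subset_right⟩
    · push Not at hab
      rw [hab.1, hab.2] at hc
      simp only [zero_mul, add_zero] at hc
      exact reach_sphere hc ((nb_Nb (cV N) j).mem_ball hr) h0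
  · by_cases hab : a ≠ 0 ∨ b ≠ 0
    · obtain ⟨x, hx, hcx⟩ := hc2.symm.to_sphere ((nb_Nb (cV N) i).mem_ball hr)
        (Or.inl (hout hab).2)
      exact ⟨x, hx, hcx.mono_set Set.inter_subset_right⟩
    · push Not at hab
      rw [hab.1, hab.2] at hc
      simp only [zero_mul, add_zero] at hc
      exact reach_sphere hc.symm ((nb_Nb (cV N) i).mem_ball hr) fun h => h0 h.symm

theorem Pr_B0T (q : I) {N r : ℕ} (i : ℕ) (hr : 2 * r < N) :
    Pr q {w | sit (per N w) ∈ Dn (ball (cV N) r) (cV N) i} = tl i r q := by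
  rw [← Pr_Dn_ball q (cV N) r i]
  unfold Pool.Agent.H83.SK.Pr
  rw [← Pr_comp (localOn_sitDn (cV N) r i) (modE_injOn_sBall (cV N) hr)]
  rfl

/-- Comparison with the plane. -/
theorem DT_near (q : I) {N r : ℕ} (i : ℕ) (hr : 1 ≤ r) (hN : 2 * r + 2 ≤ N) :
    |Pr q (DT N i) - Pool.Agent.H83.SK.Pr q (Dn Set.univ 0 i)| ≤ a4 q r := by
  have h1 : tl i r q ≤ Pr q (DT N i) := by
    rw [← Pr_B0T q (N := N) i (by omega)]
    exact Pr_mono (B0T_sub i (by omega))
  have h2 : Pr q (DT N i) ≤ tl i r q + a4 q r := by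
    rw [← Pr_B0T q (N := N) i (by omega), ← Pr_A4T q (cV N) (show 2 * r < N by omega)]
    exact (Pr_mono (DT_sub i hr hN)).trans Pr_union_le
  have h3 := tl_le i r q
  have h4 := tl_near q hr i
  rw [abs_le]
  constructor <;> linarith

theorem tauT_near (q : I) {N r : ℕ} (hr : 1 ≤ r) (hN : 2 * r + 2 ≤ N) :
    |tauT N q - tau q| ≤ 3 * a4 q r := by
  unfold tauT tau
  rw [← Finset.sum_sub_distrib]
  refine (Finset.abs_sum_le_sum_abs _ _).trans ?_
  refine (Finset.sum_le_sum fun i _ => DT_near q i hr hN).trans (le_of_eq ?_)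
  rw [Finset.sum_const, Nat.card_Icc]
  simp

/-! ### The double sum -/

/-- The weight of a pair of distances. -/
noncomputable def GS (a : ℕ → ℝ) (x y : ℕ) : ℝ :=
  if x ≤ y then a (x + 1) * (a (y + 1) * a (y + 1)) else 0

lemma GS_nonneg {a : ℕ → ℝ} (ha : ∀ t, 0 ≤ a t) (x y : ℕ) : 0 ≤ GS a x y := by
  unfold GS
  split_ifs
  · exact mul_nonneg (ha _) (mul_nonneg (ha _) (ha _))
  · exact le_rfl

theorem sum_by_dTS {N : ℕ} (hN : 1 ≤ N) (c : Vert) (h : ℕ → ℝ) (hh : ∀ t, 0 ≤ h t) :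
    ∑ f ∈ tSites N, h (dT N (src f) c) ≤ ∑ t ∈ Finset.range (N + 1), 16 * ((t : ℝ) + 1) * h t :=
  (Finset.sum_le_sum_of_subset_of_nonneg (tSites_sub N) fun _ _ _ => hh _).trans
    (sum_by_dT hN c h hh)

theorem sum_GS {a : ℕ → ℝ} (ha : ∀ t, 0 ≤ a t) {N : ℕ} {C : ℝ}
    (h : ∀ n, 1 ≤ n → n ≤ N + 1 → ∑ t ∈ Finset.Icc 1 n, (t : ℝ) * a t ≤ C * ((n : ℝ) ^ 2 * a n)) :
    ∑ y ∈ Finset.range (N + 1), 16 * ((y : ℝ) + 1) *
      ∑ x ∈ Finset.range (N + 1), 16 * ((x : ℝ) + 1) * GS a x y ≤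
      256 * C * ∑ t ∈ Finset.Icc 1 (N + 1), (t : ℝ) ^ 3 * a t ^ 3 := by
  have inner : ∀ y ∈ Finset.range (N + 1), 16 * ((y : ℝ) + 1) *
      ∑ x ∈ Finset.range (N + 1), 16 * ((x : ℝ) + 1) * GS a x y ≤
      256 * C * (((y + 1 : ℕ) : ℝ) ^ 3 * a (y + 1) ^ 3) := by
    intro y hy
    have hy1 : y < N + 1 := Finset.mem_range.1 hy
    have e1 : ∑ x ∈ Finset.range (N + 1), 16 * ((x : ℝ) + 1) * GS a x y =
        ∑ x ∈ Finset.range (y + 1), 16 * ((x : ℝ) + 1) * GS a x y := by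
      symm
      refine Finset.sum_subset (Finset.range_subset_range.2 (by omega)) fun x _ hx => ?_
      rw [Finset.mem_range, not_lt] at hx
      unfold GS
      rw [if_neg (by omega), mul_zero]
    have e2 : ∑ x ∈ Finset.range (y + 1), 16 * ((x : ℝ) + 1) * GS a x y =
        16 * (a (y + 1) * a (y + 1)) * ∑ t ∈ Finset.Icc 1 (y + 1), (t : ℝ) * a t := by
      have e3 : Finset.Icc 1 (y + 1) = Finset.Ico (0 + 1) (y + 1 + 1) := by
        ext x
        simp only [Finset.mem_Icc, Finset.mem_Ico]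
        omega
      rw [e3, ← Finset.sum_Ico_add' (fun t : ℕ => (t : ℝ) * a t) 0 (y + 1) 1,
        ← Finset.range_eq_Ico, Finset.mul_sum]
      refine Finset.sum_congr rfl fun x hx => ?_
      rw [Finset.mem_range] at hx
      unfold GS
      rw [if_pos (by omega)]
      push_cast
      ring
    rw [e1, e2]
    have h3 := h (y + 1) (by omega) (by omega)
    have h4 : 0 ≤ a (y + 1) * a (y + 1) := mul_nonneg (ha _) (ha _)
    calc 16 * ((y : ℝ) + 1) * (16 * (a (y + 1) * a (y + 1)) *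
          ∑ t ∈ Finset.Icc 1 (y + 1), (t : ℝ) * a t) ≤
        16 * ((y : ℝ) + 1) * (16 * (a (y + 1) * a (y + 1)) *
          (C * (((y + 1 : ℕ) : ℝ) ^ 2 * a (y + 1)))) := by gcongr
      _ = _ := by push_cast; ring
  refine (Finset.sum_le_sum inner).trans (le_of_eq ?_)
  rw [← Finset.mul_sum]
  congr 1
  have e3 : Finset.Icc 1 (N + 1) = Finset.Ico (0 + 1) (N + 1 + 1) := by
    ext x
    simp only [Finset.mem_Icc, Finset.mem_Ico]
    omega
  rw [e3, ← Finset.sum_Ico_add' (fun t : ℕ => (t : ℝ) ^ 3 * a t ^ 3) 0 (N + 1) 1,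
    ← Finset.range_eq_Ico]

/-- The sum of the joint influences. -/
theorem second_DT (hGL : GLTorus) (hBL : BlockLow) (hQM : QMann) : ∀ c : ℝ, 0 < c →
    ∃ C : ℝ, 0 < C ∧ ∀ (N i : ℕ) (q : I), 1 ≤ N → SReg c (128 * N) q →
      ∑ f ∈ tSites N, ∑ g ∈ (tSites N).erase f, Pr q (Joint (DT N i) f g) ≤
        C * ∑ t ∈ Finset.Icc 1 (N + 1), (t : ℝ) ^ 3 * a4 q t ^ 3 := by
  classical
  intro c hc
  obtain ⟨C, hC, hest⟩ := estimateS hGL hBL hQM c hc
  obtain ⟨K, hK, hcmp⟩ := a4_cmp hGL hBL c hc 2 (by norm_num)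
  obtain ⟨M, hM, hsum⟩ := sum_a4_le hGL hBL c hc
  refine ⟨C * K ^ 2 * (3 * (256 * M)), by positivity, ?_⟩
  intro N i q hN hR
  obtain ⟨a, ha⟩ : ∃ a : ℕ → ℝ, a = fun t => a4 q t := ⟨_, rfl⟩
  have ha0 : ∀ t, 0 ≤ a t := fun t => by rw [ha]; exact a4_nonneg q t
  have har : ∀ t, a4 q t = a t := fun t => by rw [ha]
  obtain ⟨e, he⟩ : ∃ e : Vert, e = cV N := ⟨_, rfl⟩
  have hi := incr_DT N i
  have hreg : ∀ n, n ≤ N + 1 → SReg c (64 * n) q := fun n hn => sreg_anti hR (by omega)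
  -- the bound by the two smallest distances
  have hbd : ∀ (p : ℝ) (d₁ d₂ y : ℕ), d₁ ≤ y → y ≤ 2 * d₂ → y ≤ N →
      p ≤ C * (a4 q (d₁ + 1) * (a4 q (d₂ + 1) * a4 q (d₂ + 1))) →
      p ≤ C * K ^ 2 * GS a d₁ y := by
    intro p d₁ d₂ y h1 h2 h3 h
    have h4 := hcmp (d₂ + 1) (y + 1) q (by omega) (by omega) (by omega) (hreg _ (by omega))
    rw [har, har] at h4
    rw [har, har] at h
    have h5 : a (d₂ + 1) * a (d₂ + 1) ≤ (K * a (y + 1)) * (K * a (y + 1)) :=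
      mul_le_mul h4 h4 (ha0 _) (mul_nonneg hK.le (ha0 _))
    unfold GS
    rw [if_pos h1]
    calc p ≤ C * (a (d₁ + 1) * (a (d₂ + 1) * a (d₂ + 1))) := h
      _ ≤ C * (a (d₁ + 1) * ((K * a (y + 1)) * (K * a (y + 1)))) :=
          mul_le_mul_of_nonneg_left (mul_le_mul_of_nonneg_left h5 (ha0 _)) hC.le
      _ = _ := by ring
  have hCK : 0 ≤ C * K ^ 2 := by positivity
  -- termwise
  have hterm : ∀ f ∈ tSites N, ∀ g ∈ (tSites N).erase f, Pr q (Joint (DT N i) f g) ≤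
      C * K ^ 2 * (GS a (dT N (src f) e) (dT N (src g) e) +
        GS a (dT N (src g) e) (dT N (src f) e) +
        GS a (dT N (src g) (src f)) (dT N (src f) e)) := by
    intro f hf g hg
    have hgm : g ∈ tSites N := Finset.mem_of_mem_erase hg
    have hf2 := (mem_tSites.1 hf).2.2
    have hg2 := (mem_tSites.1 hgm).2.2
    have sf : sv (src f) = f := sv_src hf2
    have sg : sv (src g) = g := sv_src hg2
    have hfg : src f ≠ src g := by
      intro h
      apply Finset.ne_of_mem_erase hg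
      rw [← sf, ← sg, h]
    have hxf : sv (src f) ∈ tSites N := by rw [sf]; exact hf
    have hxg : sv (src g) ∈ tSites N := by rw [sg]; exact hgm
    have r1 := roleS_one hN hxf hxg hfg hi
    have r2 := roleS_two hN hxf hxg hfg hi
    have r3 := roleS_three hN hxf hxg hfg hi
    rw [sf, sg, ← he] at r1 r2 r3
    obtain ⟨x, hx⟩ : ∃ x, x = dT N (src f) e := ⟨_, rfl⟩
    obtain ⟨y, hy⟩ : ∃ y, y = dT N (src g) e := ⟨_, rfl⟩
    obtain ⟨z, hz⟩ : ∃ z, z = dT N (src g) (src f) := ⟨_, rfl⟩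
    have t1 := dT_tri hN (src f) (src g) e
    have t2 := dT_tri hN (src g) (src f) e
    have t3 := dT_tri hN (src g) e (src f)
    have c1 := dT_comm hN (src f) (src g)
    have c2 := dT_comm hN e (src f)
    have c3 := dT_comm hN e (src g)
    have l1 := dT_le_half hN (src f) e
    have l2 := dT_le_half hN (src g) e
    have g1 := GS_nonneg ha0 x y
    have g2 := GS_nonneg ha0 y x
    have g3 := GS_nonneg ha0 z x
    rw [← hx, ← hy, ← hz]
    rw [mul_add, mul_add]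
    have k1 := mul_nonneg hCK g1
    have k2 := mul_nonneg hCK g2
    have k3 := mul_nonneg hCK g3
    have hcase : (x ≤ y ∧ x ≤ z) ∨ (y ≤ x ∧ y ≤ z) ∨ (z ≤ x ∧ z ≤ y) := by omega
    rcases hcase with ⟨m1, m2⟩ | ⟨m1, m2⟩ | ⟨m1, m2⟩
    · have h1 := hest N q _ e (src f) (src g) x (min y z) hN hR r2 (by omega) (by omega)
        (by omega) (by omega)
      have h2 := hbd _ x (min y z) y m1 (by omega) (by omega) h1
      linarith
    · have h1 := hest N q _ e (src g) (src f) y (min x z) hN hR r3 (by omega) (by omega)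
        (by omega) (by omega)
      have h2 := hbd _ y (min x z) x m1 (by omega) (by omega) h1
      linarith
    · have h1 := hest N q _ (src f) (src g) e z (min x y) hN hR r1 (by omega) (by omega)
        (by omega) (by omega)
      have h2 := hbd _ z (min x y) x m1 (by omega) (by omega) h1
      linarith
  -- the three sums
  obtain ⟨T, hT⟩ : ∃ T : ℝ, T = ∑ t ∈ Finset.Icc 1 (N + 1), (t : ℝ) ^ 3 * a t ^ 3 := ⟨_, rfl⟩
  have hG := sum_GS ha0 (N := N) (C := M) (fun n h1 h2 => by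
    rw [ha]
    exact hsum n q h1 (hreg n h2))
  rw [← hT] at hG
  have hin : ∀ (c' : Vert) (y : ℕ), ∑ g ∈ tSites N, GS a (dT N (src g) c') y ≤
      ∑ x ∈ Finset.range (N + 1), 16 * ((x : ℝ) + 1) * GS a x y :=
    fun c' y => sum_by_dTS hN c' (fun x => GS a x y) fun x => GS_nonneg ha0 x y
  have hout : ∑ f ∈ tSites N, ∑ x ∈ Finset.range (N + 1), 16 * ((x : ℝ) + 1) *
      GS a x (dT N (src f) e) ≤ 256 * M * T := by
    refine le_trans (sum_by_dTS hN e
      (fun y => ∑ x ∈ Finset.range (N + 1), 16 * ((x : ℝ) + 1) * GS a x y) fun y => ?_) hG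
    exact Finset.sum_nonneg fun x _ => mul_nonneg (by positivity) (GS_nonneg ha0 x y)
  have s1 : ∑ f ∈ tSites N, ∑ g ∈ tSites N,
      GS a (dT N (src f) e) (dT N (src g) e) ≤ 256 * M * T := by
    rw [Finset.sum_comm]
    exact (Finset.sum_le_sum fun g _ => hin e _).trans hout
  have s2 : ∑ f ∈ tSites N, ∑ g ∈ tSites N,
      GS a (dT N (src g) e) (dT N (src f) e) ≤ 256 * M * T :=
    (Finset.sum_le_sum fun f _ => hin e _).trans hout
  have s3 : ∑ f ∈ tSites N, ∑ g ∈ tSites N,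
      GS a (dT N (src g) (src f)) (dT N (src f) e) ≤ 256 * M * T :=
    (Finset.sum_le_sum fun f _ => hin (src f) _).trans hout
  have hT' : ∑ t ∈ Finset.Icc 1 (N + 1), (t : ℝ) ^ 3 * a4 q t ^ 3 = T := by
    rw [hT, ha]
  rw [hT']
  calc ∑ f ∈ tSites N, ∑ g ∈ (tSites N).erase f, Pr q (Joint (DT N i) f g)
      ≤ ∑ f ∈ tSites N, ∑ g ∈ tSites N,
        C * K ^ 2 * (GS a (dT N (src f) e) (dT N (src g) e) +
          GS a (dT N (src g) e) (dT N (src f) e) +
          GS a (dT N (src g) (src f)) (dT N (src f) e)) := by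
        refine Finset.sum_le_sum fun f hf => ?_
        refine (Finset.sum_le_sum fun g hg => hterm f hf g hg).trans ?_
        refine Finset.sum_le_sum_of_subset_of_nonneg (Finset.erase_subset _ _) fun g _ _ => ?_
        have g1 := GS_nonneg ha0 (dT N (src f) e) (dT N (src g) e)
        have g2 := GS_nonneg ha0 (dT N (src g) e) (dT N (src f) e)
        have g3 := GS_nonneg ha0 (dT N (src g) (src f)) (dT N (src f) e)
        exact mul_nonneg hCK (by linarith)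
    _ = C * K ^ 2 * (∑ f ∈ tSites N, ∑ g ∈ tSites N, GS a (dT N (src f) e) (dT N (src g) e) +
        ∑ f ∈ tSites N, ∑ g ∈ tSites N, GS a (dT N (src g) e) (dT N (src f) e) +
        ∑ f ∈ tSites N, ∑ g ∈ tSites N, GS a (dT N (src g) (src f)) (dT N (src f) e)) := by
        rw [← Finset.sum_add_distrib, ← Finset.sum_add_distrib, Finset.mul_sum]
        refine Finset.sum_congr rfl fun f _ => ?_
        rw [← Finset.sum_add_distrib, ← Finset.sum_add_distrib, Finset.mul_sum]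
    _ ≤ C * K ^ 2 * (3 * (256 * M)) * T := by
        rw [mul_assoc (C * K ^ 2)]
        refine mul_le_mul_of_nonneg_left ?_ hCK
        linarith

end Pool.Agent.H92.SN

end

section

/-!
# Linear approximation of `tau` in the window of scale `2 ^ k`
-/

set_option autoImplicit false

open MeasureTheory ProbabilityTheory unitInterval Filter Topology

namespace Pool.Agent.H92.SN

open Pool.Agent.H89.Perc
open Pool.Agent.H61.NC (fill mid upd Joint PrR' dist0 PrR'_eq hasDerivAt_PrR_eq hasDerivAt_PrR' abs_second_le)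
open Pool.Agent.H83.SK (sv sit)
open Pool.Agent.H13.SK (SumB uu SumB_nonneg)

/-- Comparison with the dyadic sum. -/
theorem sum_Ico_two_pow {a : ℕ → ℝ} (h0 : ∀ t, 0 ≤ a t)
    (hanti : ∀ m n, 1 ≤ m → m ≤ n → a n ≤ a m) (m : ℕ) :
    ∑ t ∈ Finset.Ico (1 : ℕ) (2 ^ m), (t : ℝ) ^ 3 * a t ^ 3 ≤
      8 * ∑ j ∈ Finset.range m, ((2 : ℝ) ^ j) ^ 4 * a (2 ^ j) ^ 3 := by
  induction m with
  | zero => simp
  | succ m ih =>
    have h1 : 2 ^ m ≤ 2 ^ (m + 1) := Nat.pow_le_pow_right (by norm_num) (by omega)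
    rw [← Finset.sum_Ico_consecutive _ (Nat.one_le_two_pow : 1 ≤ 2 ^ m) h1,
      Finset.sum_range_succ, mul_add]
    refine add_le_add ih ?_
    have h2 : ∀ t ∈ Finset.Ico ((2 : ℕ) ^ m) (2 ^ (m + 1)), (t : ℝ) ^ 3 * a t ^ 3 ≤
        ((2 : ℝ) ^ (m + 1)) ^ 3 * a (2 ^ m) ^ 3 := by
      intro t ht
      rw [Finset.mem_Ico] at ht
      have h3 : (t : ℝ) ≤ (2 : ℝ) ^ (m + 1) := by exact_mod_cast ht.2.le
      have h4 : a t ≤ a (2 ^ m) := hanti _ _ Nat.one_le_two_pow ht.1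
      have h5 := h0 t
      gcongr
    refine (Finset.sum_le_sum h2).trans (le_of_eq ?_)
    rw [Finset.sum_const, Nat.card_Ico, nsmul_eq_mul]
    have h6 : ((2 ^ (m + 1) - 2 ^ m : ℕ) : ℝ) = (2 : ℝ) ^ m := by
      have : 2 ^ (m + 1) - 2 ^ m = 2 ^ m := by rw [pow_succ]; omega
      rw [this]
      push_cast
      ring
    rw [h6]
    ring

theorem sum_Icc_le_SumB {a : ℕ → ℝ} (h0 : ∀ t, 0 ≤ a t)
    (hanti : ∀ m n, 1 ≤ m → m ≤ n → a n ≤ a m) (k : ℕ) :
    ∑ t ∈ Finset.Icc (1 : ℕ) (4 * 2 ^ k + 1), (t : ℝ) ^ 3 * a t ^ 3 ≤ 2184 * SumB a (2 ^ k) := by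
  have hk : 1 ≤ 2 ^ k := Nat.one_le_two_pow
  have h1 : Finset.Icc 1 (4 * 2 ^ k + 1) ⊆ Finset.Ico 1 (2 ^ (k + 3)) := by
    intro t ht
    rw [Finset.mem_Icc] at ht
    rw [Finset.mem_Ico, pow_add]
    omega
  refine (Finset.sum_le_sum_of_subset_of_nonneg h1 fun t _ _ =>
    mul_nonneg (by positivity) (pow_nonneg (h0 t) 3)).trans ?_
  refine (sum_Ico_two_pow h0 hanti (k + 3)).trans ?_
  unfold SumB
  rw [Nat.log_pow (by norm_num), Finset.sum_range_succ, Finset.sum_range_succ]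
  obtain ⟨S, hS⟩ : ∃ S, S = ∑ j ∈ Finset.range (k + 1), ((2 : ℝ) ^ j) ^ 4 * a (2 ^ j) ^ 3 :=
    ⟨_, rfl⟩
  rw [← hS]
  have h2 : ((2 : ℝ) ^ k) ^ 4 * a (2 ^ k) ^ 3 ≤ S := by
    rw [hS]
    exact Finset.single_le_sum (f := fun j : ℕ => ((2 : ℝ) ^ j) ^ 4 * a (2 ^ j) ^ 3)
      (fun j _ => mul_nonneg (by positivity) (pow_nonneg (h0 _) 3))
      (Finset.mem_range.2 (by omega))
  have h3 : a (2 ^ (k + 1)) ≤ a (2 ^ k) :=
    hanti _ _ hk (Nat.pow_le_pow_right (by norm_num) (by omega))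
  have h4 : a (2 ^ (k + 2)) ≤ a (2 ^ k) :=
    hanti _ _ hk (Nat.pow_le_pow_right (by norm_num) (by omega))
  have h5 := h0 (2 ^ (k + 1))
  have h6 := h0 (2 ^ (k + 2))
  have h7 := h0 (2 ^ k)
  have h8 : ((2 : ℝ) ^ (k + 1)) ^ 4 * a (2 ^ (k + 1)) ^ 3 ≤ 16 * S := by
    calc ((2 : ℝ) ^ (k + 1)) ^ 4 * a (2 ^ (k + 1)) ^ 3
        ≤ ((2 : ℝ) ^ (k + 1)) ^ 4 * a (2 ^ k) ^ 3 := by gcongr
      _ = 16 * (((2 : ℝ) ^ k) ^ 4 * a (2 ^ k) ^ 3) := by ring
      _ ≤ 16 * S := by linarith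
  have h9 : ((2 : ℝ) ^ (k + 2)) ^ 4 * a (2 ^ (k + 2)) ^ 3 ≤ 256 * S := by
    calc ((2 : ℝ) ^ (k + 2)) ^ 4 * a (2 ^ (k + 2)) ^ 3
        ≤ ((2 : ℝ) ^ (k + 2)) ^ 4 * a (2 ^ k) ^ 3 := by gcongr
      _ = 256 * (((2 : ℝ) ^ k) ^ 4 * a (2 ^ k) ^ 3) := by ring
      _ ≤ 256 * S := by linarith
  linarith

/-- Linear approximation of one term on the torus. -/
theorem taylor_DT {N i : ℕ} (hN : 1 ≤ N) {p : I} {r B : ℝ} (hr0 : 0 ≤ (p : ℝ) - r)
    (hr1 : (p : ℝ) + r ≤ 1)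
    (hB : ∀ q : I, |(q : ℝ) - p| ≤ r →
      ∑ f ∈ tSites N, ∑ g ∈ (tSites N).erase f, Pr q (Joint (DT N i) f g) ≤ B)
    {q : I} (hq : |(q : ℝ) - p| ≤ r) :
    |Pr q (DT N i) - Pr p (DT N i) - PrR' (tSites N) (DT N i) p * ((q : ℝ) - p)| ≤
      B * |(q : ℝ) - p| ^ 2 := by
  classical
  have hloc := localOn_DT hN i
  have hmem : ∀ x : ℝ, |x - p| ≤ r → ∃ q : I, (q : ℝ) = x := by
    intro x hx
    rw [abs_le] at hx
    exact ⟨⟨x, by linarith, by linarith⟩, rfl⟩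
  have hB0 : 0 ≤ B := le_trans (Finset.sum_nonneg fun _ _ => Finset.sum_nonneg fun _ _ => Pr_nonneg)
    (hB q hq)
  have key := Pool.Agent.H31.AL.taylor_one (F := PrR (tSites N) (DT N i))
    (F' := PrR' (tSites N) (DT N i))
    (F'' := fun x => if hx : x ∈ I then
      ∑ e ∈ tSites N, ∑ f ∈ tSites N, (pivot ⟨x, hx⟩ (upd (DT N i) e true) f -
        pivot ⟨x, hx⟩ (upd (DT N i) e false) f) else 0)
    (x₀ := (p : ℝ)) (r := r) (B := B) hB0 ?_ ?_ ?_ hq
  · rw [Pr_eq_PrR hloc, Pr_eq_PrR hloc]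
    exact key
  · intro x hx
    obtain ⟨q, rfl⟩ := hmem x hx
    exact hasDerivAt_PrR_eq hloc q
  · intro x hx
    obtain ⟨q, rfl⟩ := hmem x hx
    have := hasDerivAt_PrR' hloc q
    simp only [Subtype.coe_prop, dite_true, Subtype.coe_eta]
    exact this
  · intro x hx
    obtain ⟨q, rfl⟩ := hmem x hx
    simp only [Subtype.coe_prop, dite_true, Subtype.coe_eta]
    exact (abs_second_le hloc (incr_DT N i) q).trans (hB q hx)

/-- **The linear approximation of `tau` in the window of scale `2 ^ k`.** -/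
theorem window_tau (hGL : GLTorus) (hBL : BlockLow) (hQM : QMann) {p : I} (hp0 : 0 < (p : ℝ))
    (hp1 : (p : ℝ) < 1)
    (hreg : ∃ c > (0 : ℝ), ∃ c' > (0 : ℝ), ∀ (n : ℕ) (q : I), 1 ≤ n →
      |(q : ℝ) - p| * ((n : ℝ) ^ 2 * a4 p n) ≤ c' → SReg c (512 * n) q)
    (hu : Tendsto (fun k => uu (a4 p) k) atTop atTop) (hpos : ∀ n, 1 ≤ n → 0 < a4 p n) :
    ∃ c > (0 : ℝ), ∃ C > (0 : ℝ), ∃ (k₀ : ℕ) (b : ℕ → ℝ), ∀ k, k₀ ≤ k → ∀ t : ℝ,
      |t| ≤ c * (1 / uu (a4 p) k) →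
        |(tauR (p + t) - tauR p) - b k * t| ≤
          C * (a4 p (2 ^ k) + t ^ 2 * SumB (a4 p) (2 ^ k)) := by
  obtain ⟨c, hc, c', hc', hR⟩ := hreg
  obtain ⟨C₂, hC₂, h2⟩ := second_DT hGL hBL hQM c hc
  obtain ⟨C₃, hC₃, h3⟩ := a4_near hGL hBL c hc
  have hm : 0 < min (p : ℝ) (1 - p) := lt_min hp0 (by linarith)
  obtain ⟨k₀, hk₀⟩ := (hu.eventually_ge_atTop (c' / min (p : ℝ) (1 - p))).exists_forall_of_atTop
  refine ⟨c', hc', 3 * (C₃ + 1) + 3 * (C₂ * (C₃ ^ 3 * 2184)), by positivity, k₀,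
    fun k => ∑ i ∈ Finset.Icc 1 3, PrR' (tSites (4 * 2 ^ k)) (DT (4 * 2 ^ k) i) p,
    fun k hk t ht => ?_⟩
  have hk1 : 1 ≤ 2 ^ k := Nat.one_le_two_pow
  obtain ⟨N, hN⟩ : ∃ N, N = 4 * 2 ^ k := ⟨_, rfl⟩
  have hN1 : 1 ≤ N := by omega
  have huk : 0 < uu (a4 p) k := Pool.Agent.H13.SK.uu_pos hpos k
  have hb : c' * (1 / uu (a4 p) k) ≤ min (p : ℝ) (1 - p) := by
    have h4 := hk₀ k hk
    rw [div_le_iff₀ hm] at h4
    rw [mul_one_div, div_le_iff₀ huk, mul_comm]
    exact h4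
  have ht0 : |t| ≤ p := ht.trans (hb.trans (min_le_left _ _))
  have ht1 : |t| ≤ 1 - p := ht.trans (hb.trans (min_le_right _ _))
  have hreg : ∀ q : I, |(q : ℝ) - p| ≤ |t| → SReg c (512 * 2 ^ k) q := by
    intro q hq
    refine hR (2 ^ k) q hk1 ?_
    have h5 : |(q : ℝ) - p| ≤ c' * (1 / uu (a4 p) k) := hq.trans ht
    rw [mul_one_div, le_div_iff₀ huk] at h5
    unfold uu at h5
    push_cast
    exact h5
  have hcmp : ∀ q : I, |(q : ℝ) - p| ≤ |t| → ∀ s : ℕ, 1 ≤ s → s ≤ 8 * 2 ^ k →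
      a4 q s ≤ C₃ * a4 p s := by
    intro q hq s hs1 hs2
    rcases le_total p q with hpq | hpq
    · refine (h3 (8 * 2 ^ k) p q hpq (fun q' h6 h7 => ?_) s hs1 hs2).1
      have h8 : |(q' : ℝ) - p| ≤ |t| := by
        refine le_trans ?_ hq
        have h6' : (p : ℝ) ≤ q' := h6
        have h7' : (q' : ℝ) ≤ q := h7
        rw [abs_of_nonneg (by linarith), abs_of_nonneg (by linarith)]
        linarith
      have h9 := hreg q' h8
      rw [show 64 * (8 * 2 ^ k) = 512 * 2 ^ k by ring]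
      exact h9
    · refine (h3 (8 * 2 ^ k) q p hpq (fun q' h6 h7 => ?_) s hs1 hs2).2
      have h8 : |(q' : ℝ) - p| ≤ |t| := by
        refine le_trans ?_ hq
        have h6' : (q : ℝ) ≤ q' := h6
        have h7' : (q' : ℝ) ≤ p := h7
        rw [abs_of_nonpos (by linarith), abs_of_nonpos (by linarith)]
        linarith
      have h9 := hreg q' h8
      rw [show 64 * (8 * 2 ^ k) = 512 * 2 ^ k by ring]
      exact h9
  have hanti : ∀ m n, 1 ≤ m → m ≤ n → a4 p n ≤ a4 p m := fun m n h6 h7 => a4_anti p h6 h7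
  obtain ⟨S, hS⟩ : ∃ S, S = SumB (a4 p) (2 ^ k) := ⟨_, rfl⟩
  have hS0 : 0 ≤ S := by rw [hS]; exact SumB_nonneg hpos _
  have hsec : ∀ (i : ℕ) (q : I), |(q : ℝ) - p| ≤ |t| →
      ∑ f ∈ tSites N, ∑ g ∈ (tSites N).erase f, Pr q (Joint (DT N i) f g) ≤
        C₂ * (C₃ ^ 3 * 2184) * S := by
    intro i q hq
    have h4 := h2 N i q hN1 (by
      have h9 := hreg q hq
      rw [show 128 * N = 512 * 2 ^ k by rw [hN]; ring]
      exact h9)
    refine h4.trans ?_
    rw [mul_assoc]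
    refine mul_le_mul_of_nonneg_left ?_ hC₂.le
    calc ∑ s ∈ Finset.Icc 1 (N + 1), (s : ℝ) ^ 3 * a4 q s ^ 3
        ≤ ∑ s ∈ Finset.Icc 1 (N + 1), C₃ ^ 3 * ((s : ℝ) ^ 3 * a4 p s ^ 3) := by
          refine Finset.sum_le_sum fun s hs => ?_
          rw [Finset.mem_Icc] at hs
          have h5 := hcmp q hq s hs.1 (by omega)
          have h6 := a4_nonneg q s
          calc (s : ℝ) ^ 3 * a4 q s ^ 3 ≤ (s : ℝ) ^ 3 * (C₃ * a4 p s) ^ 3 := by gcongr
            _ = _ := by ring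
      _ = C₃ ^ 3 * ∑ s ∈ Finset.Icc 1 (N + 1), (s : ℝ) ^ 3 * a4 p s ^ 3 := by
          rw [Finset.mul_sum]
      _ ≤ C₃ ^ 3 * (2184 * S) := by
          refine mul_le_mul_of_nonneg_left ?_ (by positivity)
          rw [hN, hS]
          exact sum_Icc_le_SumB (fun t => a4_nonneg p t) hanti k
      _ = C₃ ^ 3 * 2184 * S := by ring
  -- the point
  have hmem : (p : ℝ) + t ∈ I := by
    have h4 := abs_le.1 ht0
    have h5 := abs_le.1 ht1
    exact ⟨by linarith, by linarith⟩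
  obtain ⟨q, hq⟩ : ∃ q : I, q = ⟨(p : ℝ) + t, hmem⟩ := ⟨_, rfl⟩
  have hqt : (q : ℝ) - p = t := by rw [hq]; simp
  have hqt' : |(q : ℝ) - p| ≤ |t| := by rw [hqt]
  have e1 : tauR ((p : ℝ) + t) = tau q := by
    unfold tauR
    rw [dif_pos hmem, hq]
  have e2 : tauR (p : ℝ) = tau p := by
    unfold tauR
    rw [dif_pos p.2]
  have hT : ∀ i, |Pr q (DT N i) - Pr p (DT N i) - PrR' (tSites N) (DT N i) p * t| ≤
      C₂ * (C₃ ^ 3 * 2184) * S * t ^ 2 := by
    intro i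
    have h4 := taylor_DT (i := i) hN1 (r := |t|) (by linarith) (by linarith) (hsec i) hqt'
    rw [hqt, sq_abs] at h4
    exact h4
  have hTT : |tauT N q - tauT N p -
      (∑ i ∈ Finset.Icc 1 3, PrR' (tSites N) (DT N i) p) * t| ≤
      3 * (C₂ * (C₃ ^ 3 * 2184) * S * t ^ 2) := by
    unfold tauT
    rw [Finset.sum_mul, ← Finset.sum_sub_distrib, ← Finset.sum_sub_distrib]
    refine (Finset.abs_sum_le_sum_abs _ _).trans ?_
    refine (Finset.sum_le_sum fun i _ => hT i).trans (le_of_eq ?_)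
    rw [Finset.sum_const, Nat.card_Icc]
    simp
  have h6 := tauT_near q (N := N) (r := 2 ^ k) hk1 (by omega)
  have h7 := tauT_near p (N := N) (r := 2 ^ k) hk1 (by omega)
  have h8 := hcmp q hqt' (2 ^ k) hk1 (by omega)
  have h9 := a4_nonneg p (2 ^ k)
  have e3 : tauR ((p : ℝ) + t) - tauR p -
      (∑ i ∈ Finset.Icc 1 3, PrR' (tSites N) (DT N i) p) * t =
      (tauT N q - tauT N p - (∑ i ∈ Finset.Icc 1 3, PrR' (tSites N) (DT N i) p) * t) +
        (-(tauT N q - tau q) + (tauT N p - tau p)) := by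
    rw [e1, e2]
    ring
  beta_reduce
  rw [← hN, e3, ← hS]
  refine (abs_add_le _ _).trans ?_
  have h10 := abs_add_le (-(tauT N q - tau q)) (tauT N p - tau p)
  rw [abs_neg] at h10
  have h11 : 0 ≤ C₂ * (C₃ ^ 3 * 2184) * a4 p (2 ^ k) := by positivity
  have h12 : 0 ≤ (C₃ + 1) * (t ^ 2 * S) := by positivity
  calc |tauT N q - tauT N p - (∑ i ∈ Finset.Icc 1 3, PrR' (tSites N) (DT N i) p) * t| +
        |-(tauT N q - tau q) + (tauT N p - tau p)|
      ≤ 3 * (C₂ * (C₃ ^ 3 * 2184) * S * t ^ 2) + (3 * (C₃ * a4 p (2 ^ k)) + 3 * a4 p (2 ^ k)) := by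
        linarith
    _ ≤ (3 * (C₃ + 1) + 3 * (C₂ * (C₃ ^ 3 * 2184))) * (a4 p (2 ^ k) + t ^ 2 * S) := by
        nlinarith

end Pool.Agent.H92.SN

end

section

/-!
# The window at the critical density
-/

set_option autoImplicit false

open MeasureTheory ProbabilityTheory unitInterval Filter Topology

namespace Pool.Agent.H92.SN

open Pool.Agent.H83.Site (pc pc_pos pc_lt_one)
open Pool.Agent.H13.SK (SumB uu uu_grow nc_holds window_reg' blockLow)

/-- The windows at the critical density shrink. -/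
theorem uu_tendsto (hGL : GLTorus) : Tendsto (fun k => uu (a4 pc) k) atTop atTop := by
  have H := nc_holds hGL
  obtain ⟨c₀, hc₀, δ₀, hδ₀, -, hG⟩ := H.growth1
  have h0 : 0 < uu (a4 pc) 0 := Pool.Agent.H13.SK.uu_pos H.pos_pc 0
  have h1 : Tendsto (fun i : ℕ => c₀ * ((2 : ℝ) ^ δ₀) ^ i * uu (a4 pc) 0) atTop atTop :=
    ((tendsto_pow_atTop_atTop_of_one_lt
      (Real.one_lt_rpow (by norm_num) hδ₀)).const_mul_atTop hc₀).atTop_mul_const h0
  refine tendsto_atTop_mono (fun i => ?_) h1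
  have h2 := uu_grow hG 0 i
  rwa [zero_add] at h2

/-- **The linear approximation of `tau` in the windows at the critical density.** -/
theorem window_tau_pc (hGL : GLTorus) (hQM : QMann) :
    ∃ c > (0 : ℝ), ∃ C > (0 : ℝ), ∃ (k₀ : ℕ) (b : ℕ → ℝ), ∀ k, k₀ ≤ k → ∀ t : ℝ,
      |t| ≤ c * (1 / uu (a4 pc) k) →
        |(tauR (pc + t) - tauR pc) - b k * t| ≤
          C * (a4 pc (2 ^ k) + t ^ 2 * SumB (a4 pc) (2 ^ k)) :=
  window_tau hGL blockLow hQM pc_pos pc_lt_one (window_reg' (nc_holds hGL) 512) (uu_tendsto hGL)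
    (nc_holds hGL).pos_pc

end Pool.Agent.H92.SN

end
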