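import Pool.Agent.H31.PT.M01

/-! The parts of this file: H85.Gamma.Window, H31.EX.PowerLaw, H56.EX.Pat, H56.EX.TL, H56.EX.Ins, H89.Link.Defs, H89.Link.Row, H56.EX.Defs, H89.Link.Potential, H12.QKZ.DivDiff, H12.QKZ.Support, H12.QKZ.Weights, H12.QKZ.Trig, H12.QKZ.RMat, H12.QKZ.Doeblin, H12.QKZ.Scatter, H12.QKZ.Dens, H96.EX.SSum, H34.Hom.Dvd, H34.Hom.Ext, H34.Hom.Lim, H34.Hom.Three, H34.Hom.Moments, H34.Hom.Wz, H34.Hom.Wz2, H34.Hom.Chu, H34.Hom.Alt, H34.Hom.SumId, H56.EX.Exch. -/

section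

/-!
# Stability of the one-arm probability below the critical point
-/

open MeasureTheory ProbabilityTheory unitInterval Filter Topology

namespace Pool.Agent.H85.Gamma

open Pool.Agent.H89.Perc

theorem half_coe : ((half : I) : ℝ) = 1 / 2 := rfl

end Pool.Agent.H85.Gamma

end

section

/-!
# Power laws with `o(1)` in the exponent

`PL F a` means `F h = h ^ (a + o(1))` as `h ↓ 0`, `PN f a` means `f n = n ^ (-a + o(1))` as
`n → ∞`.
-/

namespace Pool.Agent.H31.EX

/-- `F h = h ^ (a + o(1))` as `h ↓ 0`. -/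
def PL (F : ℝ → ℝ) (a : ℝ) : Prop :=
  ∀ ε > (0 : ℝ), ∃ δ > (0 : ℝ), ∀ h : ℝ, 0 < h → h < δ → h ^ (a + ε) ≤ F h ∧ F h ≤ h ^ (a - ε)

/-- `f n = n ^ (-a + o(1))` as `n → ∞`. -/
def PN (f : ℕ → ℝ) (a : ℝ) : Prop :=
  ∀ ε > (0 : ℝ), ∃ n₀ : ℕ, ∀ n : ℕ, n₀ ≤ n → (n : ℝ) ^ (-a - ε) ≤ f n ∧ f n ≤ (n : ℝ) ^ (-a + ε)

/-- A positive power of a small number is smaller than a constant. -/
lemma exists_rpow_le {ε c : ℝ} (hε : 0 < ε) (hc : 0 < c) :
    ∃ δ > (0 : ℝ), δ ≤ 1 ∧ ∀ h : ℝ, 0 < h → h < δ → h ^ ε ≤ c := by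
  refine ⟨min 1 (c ^ (1 / ε)), lt_min one_pos (by positivity), min_le_left _ _, fun h h0 h1 => ?_⟩
  have h2 : h ≤ c ^ (1 / ε) := (h1.le).trans (min_le_right _ _)
  calc h ^ ε ≤ (c ^ (1 / ε)) ^ ε := Real.rpow_le_rpow h0.le h2 hε.le
    _ = c := by
      rw [← Real.rpow_mul hc.le, one_div_mul_cancel hε.ne', Real.rpow_one]

/-- A function between two multiples of a power law satisfies the same power law. -/
lemma PL.of_between {F G : ℝ → ℝ} {a c C δ₀ : ℝ} (hF : PL F a) (hc : 0 < c) (hC : 0 < C)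
    (hδ₀ : 0 < δ₀) (h : ∀ x : ℝ, 0 < x → x < δ₀ → c * F x ≤ G x ∧ G x ≤ C * F x) : PL G a := by
  intro ε hε
  obtain ⟨δ₁, hδ₁, hF1⟩ := hF (ε / 2) (by positivity)
  obtain ⟨δ₂, hδ₂, -, h2⟩ := exists_rpow_le (ε := ε / 2) (c := c) (by positivity) hc
  obtain ⟨δ₃, hδ₃, -, h3⟩ := exists_rpow_le (ε := ε / 2) (c := C⁻¹) (by positivity) (by positivity)
  refine ⟨min (min δ₀ δ₁) (min δ₂ δ₃), lt_min (lt_min hδ₀ hδ₁) (lt_min hδ₂ hδ₃), fun x x0 x1 => ?_⟩
  have y0 : x < δ₀ := x1.trans_le ((min_le_left _ _).trans (min_le_left _ _))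
  have y1 : x < δ₁ := x1.trans_le ((min_le_left _ _).trans (min_le_right _ _))
  have y2 : x < δ₂ := x1.trans_le ((min_le_right _ _).trans (min_le_left _ _))
  have y3 : x < δ₃ := x1.trans_le ((min_le_right _ _).trans (min_le_right _ _))
  obtain ⟨g1, g2⟩ := h x x0 y0
  obtain ⟨f1, f2⟩ := hF1 x x0 y1
  have z2 := h2 x x0 y2
  have z3 := h3 x x0 y3
  have p1 : 0 < x ^ (a + ε / 2) := by positivity
  have p2 : 0 < x ^ (a - ε) := by positivity
  constructor
  · calc x ^ (a + ε) = x ^ (ε / 2) * x ^ (a + ε / 2) := by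
          rw [← Real.rpow_add x0]; congr 1; ring
      _ ≤ c * x ^ (a + ε / 2) := mul_le_mul_of_nonneg_right z2 p1.le
      _ ≤ c * F x := mul_le_mul_of_nonneg_left f1 hc.le
      _ ≤ G x := g1
  · have e : x ^ (a - ε / 2) = x ^ (ε / 2) * x ^ (a - ε) := by
      rw [← Real.rpow_add x0]; congr 1; ring
    calc G x ≤ C * F x := g2
      _ ≤ C * x ^ (a - ε / 2) := mul_le_mul_of_nonneg_left f2 hC.le
      _ = C * (x ^ (ε / 2) * x ^ (a - ε)) := by rw [e]
      _ ≤ C * (C⁻¹ * x ^ (a - ε)) :=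
          mul_le_mul_of_nonneg_left (mul_le_mul_of_nonneg_right z3 p2.le) hC.le
      _ = x ^ (a - ε) := by rw [← mul_assoc, mul_inv_cancel₀ hC.ne', one_mul]

/-- Products of power laws. -/
lemma PL.mul {F G : ℝ → ℝ} {a b : ℝ} (hF : PL F a) (hG : PL G b) :
    PL (fun x => F x * G x) (a + b) := by
  intro ε hε
  obtain ⟨δ₁, hδ₁, hF1⟩ := hF (ε / 2) (by positivity)
  obtain ⟨δ₂, hδ₂, hG1⟩ := hG (ε / 2) (by positivity)
  refine ⟨min δ₁ δ₂, lt_min hδ₁ hδ₂, fun x x0 x1 => ?_⟩
  obtain ⟨f1, f2⟩ := hF1 x x0 (x1.trans_le (min_le_left _ _))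
  obtain ⟨g1, g2⟩ := hG1 x x0 (x1.trans_le (min_le_right _ _))
  have p1 : 0 < x ^ (a + ε / 2) := by positivity
  have p2 : 0 < x ^ (b + ε / 2) := by positivity
  constructor
  · calc x ^ (a + b + ε) = x ^ (a + ε / 2) * x ^ (b + ε / 2) := by
          rw [← Real.rpow_add x0]; congr 1; ring
      _ ≤ F x * G x := mul_le_mul f1 g1 p2.le (p1.le.trans f1)
  · calc F x * G x ≤ x ^ (a - ε / 2) * x ^ (b - ε / 2) :=
          mul_le_mul f2 g2 (p2.le.trans g1) (by positivity)
      _ = x ^ (a + b - ε) := by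
          rw [← Real.rpow_add x0]; congr 1; ring

lemma PL.pow_two {F : ℝ → ℝ} {a : ℝ} (hF : PL F a) : PL (fun x => F x ^ 2) (2 * a) := by
  have := hF.mul hF
  intro ε hε
  obtain ⟨δ, hδ, h⟩ := this ε hε
  refine ⟨δ, hδ, fun x x0 x1 => ?_⟩
  have h1 := h x x0 x1
  simp only [_root_.pow_two, two_mul] at h1 ⊢
  exact h1

/-- Composition of a power law in `n` with a length which diverges like a power. -/
lemma PL.comp {f : ℕ → ℝ} {L : ℝ → ℕ} {a b : ℝ} (ha : 0 < a) (hb : 0 < b) (hf : PN f a)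
    (hL : PL (fun x => (L x : ℝ)) (-b)) : PL (fun x => f (L x)) (a * b) := by
  intro ε hε
  -- choice of the small parameter
  set t : ℝ := min (min (a / 2) (b / 2)) (min 1 (ε / (a + b + 2))) with ht
  have ht0 : 0 < t := by
    refine lt_min (lt_min (by positivity) (by positivity)) (lt_min one_pos (by positivity))
  have hta : t ≤ a / 2 := (min_le_left _ _).trans (min_le_left _ _)
  have htb : t ≤ b / 2 := (min_le_left _ _).trans (min_le_right _ _)
  have ht1 : t ≤ 1 := (min_le_right _ _).trans (min_le_left _ _)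
  have hte : t ≤ ε / (a + b + 2) := (min_le_right _ _).trans (min_le_right _ _)
  have hte' : t * (a + b + 2) ≤ ε := by rwa [le_div_iff₀ (by positivity)] at hte
  obtain ⟨n₀, hn₀⟩ := hf t ht0
  obtain ⟨δ₁, hδ₁, hL1⟩ := hL t ht0
  have hbt : 0 < b - t := by linarith
  have hat : 0 < a - t := by linarith
  obtain ⟨δ₂, hδ₂, hδ₂1, h2⟩ := exists_rpow_le (ε := b - t) (c := ((n₀ : ℝ) + 1)⁻¹) hbt
    (by positivity)
  refine ⟨min δ₁ δ₂, lt_min hδ₁ hδ₂, fun x x0 x1 => ?_⟩
  have x2 : x < δ₂ := x1.trans_le (min_le_right _ _)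
  have x3 : x ≤ 1 := x2.le.trans hδ₂1
  obtain ⟨l1, l2⟩ := hL1 x x0 (x1.trans_le (min_le_left _ _))
  have k1 := h2 x x0 x2
  -- `L x` is large
  have hinv : x ^ (-b + t) = (x ^ (b - t))⁻¹ := by
    rw [← Real.rpow_neg x0.le]; congr 1; ring
  have hbig : (n₀ : ℝ) + 1 ≤ L x := by
    refine le_trans ?_ l1
    rw [hinv, le_inv_comm₀ (by positivity) (by positivity)]
    exact k1
  have hLn : n₀ ≤ L x := by
    have : (n₀ : ℝ) ≤ L x := by linarith
    exact_mod_cast this
  have hLpos : (0 : ℝ) < L x := by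
    have : (0 : ℝ) ≤ n₀ := Nat.cast_nonneg _
    linarith
  obtain ⟨f1, f2⟩ := hn₀ (L x) hLn
  have q1 : 0 < x ^ (-b + t) := by positivity
  constructor
  · refine le_trans ?_ f1
    have e1 : (L x : ℝ) ^ (-a - t) = ((L x : ℝ) ^ (a + t))⁻¹ := by
      rw [← Real.rpow_neg hLpos.le]; congr 1; ring
    have e2 : ((L x : ℝ)) ^ (a + t) ≤ (x ^ (-b - t)) ^ (a + t) :=
      Real.rpow_le_rpow hLpos.le l2 (by linarith)
    have e3 : (x ^ (-b - t)) ^ (a + t) = (x ^ ((b + t) * (a + t)))⁻¹ := by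
      rw [← Real.rpow_mul x0.le, ← Real.rpow_neg x0.le]; congr 1; ring
    rw [e1, le_inv_comm₀ (by positivity) (by positivity)]
    refine e2.trans (le_of_eq e3 |>.trans ?_)
    rw [inv_le_inv₀ (by positivity) (by positivity)]
    refine Real.rpow_le_rpow_of_exponent_ge x0 x3 ?_
    nlinarith
  · refine f2.trans ?_
    have e1 : (L x : ℝ) ^ (-a + t) = ((L x : ℝ) ^ (a - t))⁻¹ := by
      rw [← Real.rpow_neg hLpos.le]; congr 1; ring
    have e2 : (x ^ (-b + t)) ^ (a - t) ≤ (L x : ℝ) ^ (a - t) :=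
      Real.rpow_le_rpow q1.le l1 hat.le
    have e3 : (x ^ (-b + t)) ^ (a - t) = (x ^ ((b - t) * (a - t)))⁻¹ := by
      rw [← Real.rpow_mul x0.le, ← Real.rpow_neg x0.le]; congr 1; ring
    rw [e1, inv_le_comm₀ (by positivity) (by positivity)]
    refine le_trans ?_ e2
    rw [e3, inv_le_inv₀ (by positivity) (by positivity)]
    refine Real.rpow_le_rpow_of_exponent_ge x0 x3 ?_
    nlinarith

/-- The length is determined by `h L ^ (s + o(1)) ≍ 1`. -/
lemma PL.of_window {L : ℝ → ℕ} {s : ℝ} (hs : 0 < s)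
    (hup : ∀ ε > (0 : ℝ), ∃ C > (0 : ℝ), ∃ δ > (0 : ℝ), ∀ x : ℝ, 0 < x → x < δ →
      x * (L x : ℝ) ^ (s - ε) ≤ C)
    (hlow : ∀ ε > (0 : ℝ), ∃ c > (0 : ℝ), ∃ δ > (0 : ℝ), ∀ x : ℝ, 0 < x → x < δ →
      c ≤ x * (L x : ℝ) ^ (s + ε)) : PL (fun x => (L x : ℝ)) (-(1 / s)) := by
  intro ε hε
  -- lower bound
  have low : ∃ δ > (0 : ℝ), ∀ x : ℝ, 0 < x → x < δ → x ^ (-(1 / s) + ε) ≤ (L x : ℝ) := by
    -- exponent `t` with `1 / (s + t) ≥ 1 / s - ε / 2`
    set t : ℝ := ε * s ^ 2 / 2 with ht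
    have ht0 : 0 < t := by positivity
    obtain ⟨c, hc, δ₁, hδ₁, h1⟩ := hlow t ht0
    have hst : 0 < s + t := by positivity
    set u : ℝ := (1 / s - ε) * (s + t) with hu
    have hu1 : u < 1 := by
      have e : u = 1 + (t / s - ε * s - ε * t) := by rw [hu]; field_simp; ring
      have e2 : t / s = ε * s / 2 := by rw [ht]; field_simp
      rw [e, e2]
      have : 0 < ε * s := by positivity
      have : 0 < ε * t := by positivity
      linarith
    obtain ⟨δ₂, hδ₂, hδ₂1, h2⟩ := exists_rpow_le (ε := 1 - u) (c := c) (by linarith) hc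
    refine ⟨min δ₁ δ₂, lt_min hδ₁ hδ₂, fun x x0 x1 => ?_⟩
    have k1 := h1 x x0 (x1.trans_le (min_le_left _ _))
    have k2 := h2 x x0 (x1.trans_le (min_le_right _ _))
    have hLpow : x ^ (-u) ≤ (L x : ℝ) ^ (s + t) := by
      have e : x ^ (1 - u) = x * x ^ (-u) := by
        rw [show (1 - u : ℝ) = 1 + -u by ring, Real.rpow_add x0, Real.rpow_one]
      rw [e] at k2
      exact le_of_mul_le_mul_left (k2.trans k1) x0
    have hL0 : (0 : ℝ) ≤ L x := Nat.cast_nonneg _
    have e2 : x ^ (-(1 / s) + ε) = (x ^ (-u)) ^ (1 / (s + t)) := by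
      rw [← Real.rpow_mul x0.le]
      congr 1
      rw [hu]
      field_simp
      ring
    have e3 : ((L x : ℝ) ^ (s + t)) ^ (1 / (s + t)) = L x := by
      rw [← Real.rpow_mul hL0, mul_one_div_cancel hst.ne', Real.rpow_one]
    rw [e2, ← e3]
    exact Real.rpow_le_rpow (by positivity) hLpow (by positivity)
  have up : ∃ δ > (0 : ℝ), ∀ x : ℝ, 0 < x → x < δ → (L x : ℝ) ≤ x ^ (-(1 / s) - ε) := by
    set t : ℝ := min (s / 2) (ε * s ^ 2 / (2 * (1 + ε * s))) with ht
    have ht0 : 0 < t := lt_min (by positivity) (by positivity)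
    have hts : t ≤ s / 2 := min_le_left _ _
    have hte : t ≤ ε * s ^ 2 / (2 * (1 + ε * s)) := min_le_right _ _
    obtain ⟨C, hC, δ₁, hδ₁, h1⟩ := hup t ht0
    have hst : 0 < s - t := by linarith
    set u : ℝ := (1 / s + ε) * (s - t) with hu
    have hu1 : 1 < u := by
      have e : u = 1 + ε * s - t * ((1 + ε * s) / s) := by rw [hu]; field_simp
      have e2 : t * ((1 + ε * s) / s) ≤ ε * s / 2 := by
        calc t * ((1 + ε * s) / s) ≤ (ε * s ^ 2 / (2 * (1 + ε * s))) * ((1 + ε * s) / s) :=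
              mul_le_mul_of_nonneg_right hte (by positivity)
          _ = ε * s / 2 := by field_simp
      rw [e]
      have : 0 < ε * s := by positivity
      linarith
    obtain ⟨δ₂, hδ₂, hδ₂1, h2⟩ := exists_rpow_le (ε := u - 1) (c := C⁻¹) (by linarith)
      (by positivity)
    refine ⟨min δ₁ δ₂, lt_min hδ₁ hδ₂, fun x x0 x1 => ?_⟩
    have k1 := h1 x x0 (x1.trans_le (min_le_left _ _))
    have k2 := h2 x x0 (x1.trans_le (min_le_right _ _))
    have hLpow : (L x : ℝ) ^ (s - t) ≤ x ^ (-u) := by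
      have e : x ^ (u - 1) * x ^ (-u) = x⁻¹ := by
        rw [← Real.rpow_add x0, show u - 1 + -u = (-1 : ℝ) by ring, Real.rpow_neg_one]
      have k3 : (L x : ℝ) ^ (s - t) ≤ C * x⁻¹ := by
        rw [← div_eq_mul_inv, le_div_iff₀ x0, mul_comm]
        exact k1
      refine k3.trans ?_
      rw [← e]
      calc C * (x ^ (u - 1) * x ^ (-u)) ≤ C * (C⁻¹ * x ^ (-u)) :=
            mul_le_mul_of_nonneg_left (mul_le_mul_of_nonneg_right k2 (by positivity)) hC.le
        _ = x ^ (-u) := by rw [← mul_assoc, mul_inv_cancel₀ hC.ne', one_mul]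
    have hL0 : (0 : ℝ) ≤ L x := Nat.cast_nonneg _
    have e2 : x ^ (-(1 / s) - ε) = (x ^ (-u)) ^ (1 / (s - t)) := by
      rw [← Real.rpow_mul x0.le]
      congr 1
      rw [hu]
      field_simp
      ring
    have e3 : ((L x : ℝ) ^ (s - t)) ^ (1 / (s - t)) = L x := by
      rw [← Real.rpow_mul hL0, mul_one_div_cancel hst.ne', Real.rpow_one]
    rw [e2, ← e3]
    exact Real.rpow_le_rpow (by positivity) hLpow (by positivity)
  obtain ⟨δ₁, hδ₁, h1⟩ := low
  obtain ⟨δ₂, hδ₂, h2⟩ := up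
  exact ⟨min δ₁ δ₂, lt_min hδ₁ hδ₂, fun x x0 x1 =>
    ⟨h1 x x0 (x1.trans_le (min_le_left _ _)), h2 x x0 (x1.trans_le (min_le_right _ _))⟩⟩

end Pool.Agent.H31.EX

end

section

/-! Link patterns on the half infinite cylinder (punctured disc), as involutions on the universal cover,
and the periodic Temperley-Lieb moves `e_i` (contractible and noncontractible loops are dropped). -/

namespace H56.EX

/-- Link patterns of the half infinite cylinder with `L` boundary points, on the universal cover `ℤ`. -/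
@[ext] structure Pat (L : ℕ) where
  m : ℤ → ℤ
  inv : ∀ x, m (m x) = x
  per : ∀ x, m (x + L) = m x + L
  ne : ∀ x, m x ≠ x
  short : ∀ x, |m x - x| < L
  nc : ∀ x y, x < y → y < m x → x < m y ∧ m y < m x

/-- The raw Temperley-Lieb move. -/
def tl (L : ℕ) (i : ℤ) (m : ℤ → ℤ) (x : ℤ) : ℤ :=
  if (L : ℤ) ∣ x - i then x + 1
  else if (L : ℤ) ∣ x - (i + 1) then x - 1
  else if (L : ℤ) ∣ m x - i then m (m x + 1)
  else if (L : ℤ) ∣ m x - (i + 1) then m (m x - 1)
  else m x

lemma dvd_cases {L : ℕ} {t : ℤ} (h : (L : ℤ) ∣ t) : t = 0 ∨ (L : ℤ) ≤ t ∨ t ≤ -(L : ℤ) := by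
  obtain ⟨a, rfl⟩ := h
  rcases lt_trichotomy a 0 with ha | ha | ha
  · right; right
    have : (0 : ℤ) ≤ L := Int.natCast_nonneg L
    nlinarith
  · left; simp [ha]
  · right; left
    have : (0 : ℤ) ≤ L := Int.natCast_nonneg L
    nlinarith

namespace Pat

variable {L : ℕ} (P : Pat L)

lemma per_mul (x a : ℤ) : P.m (x + L * a) = P.m x + L * a := by
  induction a using Int.induction_on with
  | zero => simp
  | succ a ih =>
    have := P.per (x + L * a)
    rw [show x + (L : ℤ) * (a + 1) = x + L * a + L by ring, this, ih]; ring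
  | pred a ih =>
    have := P.per (x + L * (-a - 1))
    rw [show x + (L : ℤ) * (-a - 1) + L = x + L * (-a) by ring, ih] at this
    linarith

lemma per_dvd {x y : ℤ} (h : (L : ℤ) ∣ y - x) : P.m y = P.m x + (y - x) := by
  obtain ⟨a, ha⟩ := h
  have : y = x + L * a := by linarith
  rw [this, P.per_mul]; ring

lemma inj {x y : ℤ} (h : P.m x = P.m y) : x = y := by
  rw [← P.inv x, h, P.inv]

lemma short' (x : ℤ) : P.m x - x < L ∧ x - P.m x < L := by
  have := P.short x; rw [abs_lt] at this; constructor <;> linarith [this.1, this.2]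

/-- `m x` is never congruent to `x`. -/
lemma not_dvd_self (x : ℤ) : ¬ (L : ℤ) ∣ P.m x - x := by
  intro h
  have h1 := P.short' x
  rcases dvd_cases h with h | h | h
  · exact P.ne x (by linarith)
  · linarith [h1.1]
  · linarith [h1.2]

lemma two_le (P : Pat L) : 2 ≤ L := by
  have h := P.short' 0
  have h2 := P.ne 0
  rcases lt_trichotomy (P.m 0) 0 with h3 | h3 | h3
  · have : (1 : ℤ) < L := by linarith [h.2]
    omega
  · exact absurd h3 h2
  · have : (1 : ℤ) < L := by linarith [h.1]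
    omega

end Pat

section closure

variable {L : ℕ} (P : Pat L) (i : ℤ)

lemma not_both (h2 : 2 ≤ L) {x i : ℤ} (h : (L : ℤ) ∣ x - i) : ¬ (L : ℤ) ∣ x - (i + 1) := by
  intro h'
  have : (L : ℤ) ∣ 1 := by
    have := dvd_sub h h'
    have e : x - i - (x - (i + 1)) = 1 := by ring
    rwa [e] at this
  have := Int.le_of_dvd (by norm_num) this
  omega

lemma tl_of_dvd {m : ℤ → ℤ} {x : ℤ} (h : (L : ℤ) ∣ x - i) : tl L i m x = x + 1 := by
  simp [tl, h]

lemma tl_of_dvd_succ (h2 : 2 ≤ L) {m : ℤ → ℤ} {x : ℤ} (h : (L : ℤ) ∣ x - (i + 1)) :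
    tl L i m x = x - 1 := by
  have h' : ¬ (L : ℤ) ∣ x - i := fun h' => not_both h2 h' h
  simp [tl, h, h']

lemma tl_of_m {m : ℤ → ℤ} {x : ℤ} (h1 : ¬ (L : ℤ) ∣ x - i) (h2 : ¬ (L : ℤ) ∣ x - (i + 1))
    (h : (L : ℤ) ∣ m x - i) : tl L i m x = m (m x + 1) := by
  simp [tl, h, h1, h2]

lemma tl_of_m_succ (hL : 2 ≤ L) {m : ℤ → ℤ} {x : ℤ} (h1 : ¬ (L : ℤ) ∣ x - i)
    (h2 : ¬ (L : ℤ) ∣ x - (i + 1)) (h : (L : ℤ) ∣ m x - (i + 1)) : tl L i m x = m (m x - 1) := by
  have h' : ¬ (L : ℤ) ∣ m x - i := fun h' => not_both hL h' h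
  simp [tl, h, h1, h2, h']

lemma tl_of_else {m : ℤ → ℤ} {x : ℤ} (h1 : ¬ (L : ℤ) ∣ x - i)
    (h2 : ¬ (L : ℤ) ∣ x - (i + 1)) (h3 : ¬ (L : ℤ) ∣ m x - i) (h4 : ¬ (L : ℤ) ∣ m x - (i + 1)) :
    tl L i m x = m x := by
  simp [tl, h1, h2, h3, h4]

/-- the five cases for the value of `tl` -/
lemma tl_cases (hL : 2 ≤ L) (m : ℤ → ℤ) (x : ℤ) :
    ((L : ℤ) ∣ x - i ∧ tl L i m x = x + 1) ∨
    ((L : ℤ) ∣ x - (i + 1) ∧ tl L i m x = x - 1) ∨
    (¬ (L : ℤ) ∣ x - i ∧ ¬ (L : ℤ) ∣ x - (i + 1) ∧ (L : ℤ) ∣ m x - i ∧ tl L i m x = m (m x + 1)) ∨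
    (¬ (L : ℤ) ∣ x - i ∧ ¬ (L : ℤ) ∣ x - (i + 1) ∧ (L : ℤ) ∣ m x - (i + 1) ∧
      tl L i m x = m (m x - 1)) ∨
    (¬ (L : ℤ) ∣ x - i ∧ ¬ (L : ℤ) ∣ x - (i + 1) ∧ ¬ (L : ℤ) ∣ m x - i ∧
      ¬ (L : ℤ) ∣ m x - (i + 1) ∧ tl L i m x = m x) := by
  by_cases h1 : (L : ℤ) ∣ x - i
  · left; exact ⟨h1, tl_of_dvd i h1⟩
  by_cases h2 : (L : ℤ) ∣ x - (i + 1)
  · right; left; exact ⟨h2, tl_of_dvd_succ i hL h2⟩
  by_cases h3 : (L : ℤ) ∣ m x - i
  · right; right; left; exact ⟨h1, h2, h3, tl_of_m i h1 h2 h3⟩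
  by_cases h4 : (L : ℤ) ∣ m x - (i + 1)
  · right; right; right; left; exact ⟨h1, h2, h4, tl_of_m_succ i hL h1 h2 h4⟩
  · right; right; right; right; exact ⟨h1, h2, h3, h4, tl_of_else i h1 h2 h3 h4⟩

lemma dvd_shift {x y i : ℤ} (h : (L : ℤ) ∣ y - x) : (L : ℤ) ∣ y - i ↔ (L : ℤ) ∣ x - i := by
  constructor
  · intro h'
    have := dvd_sub h' h
    have e : y - i - (y - x) = x - i := by ring
    rwa [e] at this
  · intro h'
    have := dvd_add h' h
    have e : x - i + (y - x) = y - i := by ring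
    rwa [e] at this

/-- z congruent to i: then m (z+1) not congruent to i, i+1 unless m z congruent to i+1 -/
lemma aux_succ {z : ℤ} (hz : (L : ℤ) ∣ z - i) (h : ¬ (L : ℤ) ∣ P.m z - (i + 1)) :
    ¬ (L : ℤ) ∣ P.m (z + 1) - i ∧ ¬ (L : ℤ) ∣ P.m (z + 1) - (i + 1) := by
  constructor
  · intro h'
    apply h
    -- m (z+1) = z + aL
    have h1 : (L : ℤ) ∣ P.m (z + 1) - z := by
      have := dvd_sub h' hz
      have e : P.m (z + 1) - i - (z - i) = P.m (z + 1) - z := by ring
      rwa [e] at this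
    have h2 := P.per_dvd h1
    rw [P.inv] at h2
    -- z + 1 = m z + (m (z+1) - z)
    have h3 : (L : ℤ) ∣ P.m z - (z + 1) := by
      have e : P.m z - (z + 1) = -(P.m (z + 1) - z) := by linarith
      rw [e]; exact (dvd_neg).2 h1
    have := dvd_add h3 hz
    have e : P.m z - (z + 1) + (z - i) = P.m z - (i + 1) := by ring
    rwa [e] at this
  · intro h'
    apply P.not_dvd_self (z + 1)
    have := dvd_sub h' hz
    have e : P.m (z + 1) - (i + 1) - (z - i) = P.m (z + 1) - (z + 1) := by ring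
    rwa [e] at this

lemma aux_self {z : ℤ} (hz : (L : ℤ) ∣ z - i) :
    ¬ (L : ℤ) ∣ P.m z - i := by
  intro h'
  apply P.not_dvd_self z
  have := dvd_sub h' hz
  have e : P.m z - i - (z - i) = P.m z - z := by ring
  rwa [e] at this

lemma tl_inv (x : ℤ) : tl L i P.m (tl L i P.m x) = x := by
  have hL := P.two_le
  rcases tl_cases i hL P.m x with ⟨h, e⟩ | ⟨h, e⟩ | ⟨h1, h2, h3, e⟩ | ⟨h1, h2, h3, e⟩ |
    ⟨h1, h2, h3, h4, e⟩
  · rw [e, tl_of_dvd_succ i hL]; ring
    have : x + 1 - (i + 1) = x - i := by ring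
    rwa [this]
  · rw [e, tl_of_dvd i]; ring
    have : x - 1 - i = x - (i + 1) := by ring
    rwa [this]
  · rw [e]
    have hz : ¬ (L : ℤ) ∣ P.m (P.m x) - (i + 1) := by rw [P.inv]; exact h2
    obtain ⟨a1, a2⟩ := aux_succ P i h3 hz
    rw [tl_of_m_succ i hL a1 a2, P.inv]
    · rw [show P.m x + 1 - 1 = P.m x by ring, P.inv]
    · rw [P.inv]
      have : P.m x + 1 - (i + 1) = P.m x - i := by ring
      rwa [this]
  · rw [e]
    have hz : (L : ℤ) ∣ (P.m x - 1) - i := by
      have : P.m x - 1 - i = P.m x - (i + 1) := by ring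
      rwa [this]
    have hz2 : ¬ (L : ℤ) ∣ P.m (P.m x - 1) - (i + 1) := by
      intro h'
      -- m (m x - 1) = m x + aL  => m x - 1 = x + aL
      have h5 : (L : ℤ) ∣ P.m (P.m x - 1) - P.m x := by
        have := dvd_sub h' h3
        have e : P.m (P.m x - 1) - (i + 1) - (P.m x - (i + 1)) = P.m (P.m x - 1) - P.m x := by ring
        rwa [e] at this
      have h6 := P.per_dvd h5
      rw [P.inv, P.inv] at h6
      apply h1
      have h7 : (L : ℤ) ∣ x - (P.m x - 1) := by
        have e : x - (P.m x - 1) = -(P.m (P.m x - 1) - P.m x) := by linarith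
        rw [e]; exact (dvd_neg).2 h5
      have := dvd_add h7 hz
      have e : x - (P.m x - 1) + (P.m x - 1 - i) = x - i := by ring
      rwa [e] at this
    have a1 := aux_self P i hz
    rw [tl_of_m i a1 hz2, P.inv]
    · rw [show P.m x - 1 + 1 = P.m x by ring, P.inv]
    · rw [P.inv]; exact hz
  · rw [e, tl_of_else i h3 h4 (by rw [P.inv]; exact h1) (by rw [P.inv]; exact h2), P.inv]

lemma tl_per (x : ℤ) : tl L i P.m (x + L) = tl L i P.m x + L := by
  have hL := P.two_le
  have hd : (L : ℤ) ∣ (x + L) - x := by simp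
  have hm : P.m (x + L) = P.m x + L := P.per x
  have hd' : (L : ℤ) ∣ P.m (x + L) - P.m x := by rw [hm]; simp
  rcases tl_cases i hL P.m x with ⟨h, e⟩ | ⟨h, e⟩ | ⟨h1, h2, h3, e⟩ | ⟨h1, h2, h3, e⟩ |
    ⟨h1, h2, h3, h4, e⟩
  · rw [e, tl_of_dvd i ((dvd_shift hd).2 h)]; ring
  · rw [e, tl_of_dvd_succ i hL ((dvd_shift hd).2 h)]; ring
  · rw [e, tl_of_m i (by rw [dvd_shift hd]; exact h1) (by rw [dvd_shift hd]; exact h2)
      ((dvd_shift hd').2 h3), hm, show P.m x + L + 1 = P.m x + 1 + L by ring, P.per]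
  · rw [e, tl_of_m_succ i hL (by rw [dvd_shift hd]; exact h1) (by rw [dvd_shift hd]; exact h2)
      ((dvd_shift hd').2 h3), hm, show P.m x + L - 1 = P.m x - 1 + L by ring, P.per]
  · rw [e, tl_of_else i (by rw [dvd_shift hd]; exact h1) (by rw [dvd_shift hd]; exact h2)
      (by rw [dvd_shift hd']; exact h3) (by rw [dvd_shift hd']; exact h4), hm]

lemma tl_ne (x : ℤ) : tl L i P.m x ≠ x := by
  have hL := P.two_le
  rcases tl_cases i hL P.m x with ⟨h, e⟩ | ⟨h, e⟩ | ⟨h1, h2, h3, e⟩ | ⟨h1, h2, h3, e⟩ |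
    ⟨h1, h2, h3, h4, e⟩
  · rw [e]; omega
  · rw [e]; omega
  · rw [e]; intro h
    have := P.inv x
    have h5 := P.inj (h.trans this.symm)
    omega
  · rw [e]; intro h
    have := P.inv x
    have h5 := P.inj (h.trans this.symm)
    omega
  · rw [e]; exact P.ne x

/-- distance of the two partners -/
lemma partner_close {z : ℤ} (h : ¬ (L : ℤ) ∣ P.m z - (z + 1)) :
    P.m (z + 1) - P.m z < L ∧ P.m z - P.m (z + 1) < L := by
  have s1 := P.short' z
  have s2 := P.short' (z + 1)
  have n1 := P.ne z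
  have n2 := P.ne (z + 1)
  have hne1 : P.m z ≠ z + 1 := fun h' => h (by rw [h']; simp)
  have hne2 : P.m (z + 1) ≠ z := by
    intro h'
    apply hne1
    have h3 := P.inv (z + 1)
    rwa [h'] at h3
  have hneL : P.m z + L ≠ z + 1 := by
    intro h'
    apply h
    have e : P.m z - (z + 1) = -(L : ℤ) := by linarith
    rw [e]; simp
  rcases lt_or_gt_of_ne n1 with hj | hj
  · -- m z < z
    rcases lt_or_gt_of_ne n2 with hk | hk
    · -- m (z+1) < z+1, so < z
      have hk' : P.m (z + 1) < z := by omega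
      have := P.nc (P.m (z + 1)) z hk' (by rw [P.inv]; omega)
      rw [P.inv] at this
      constructor
      · linarith [this.1]
      · omega
    · -- m z < z < z+1 < m (z+1)
      constructor
      · by_contra hc
        rw [not_lt] at hc
        have hper : P.m (P.m z + L) = z + L := by rw [P.per, P.inv]
        have hneq : P.m z + L ≠ P.m (z + 1) := by
          intro h'
          have h2 := congrArg P.m h'
          rw [hper, P.inv] at h2
          have := P.two_le
          omega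
        have h3 : z + 1 < P.m z + L := by omega
        have h4 : P.m z + L < P.m (z + 1) := by omega
        have := P.nc (z + 1) (P.m z + L) h3 h4
        rw [hper] at this
        omega
      · omega
  · -- m z > z, so > z + 1
    have hz : z + 1 < P.m z := by omega
    have := P.nc z (z + 1) (by omega) hz
    constructor
    · omega
    · omega

lemma tl_short (x : ℤ) : |tl L i P.m x - x| < L := by
  have hL := P.two_le
  rw [abs_lt]
  rcases tl_cases i hL P.m x with ⟨h, e⟩ | ⟨h, e⟩ | ⟨h1, h2, h3, e⟩ | ⟨h1, h2, h3, e⟩ |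
    ⟨h1, h2, h3, h4, e⟩
  · rw [e]; constructor <;> omega
  · rw [e]; constructor <;> omega
  · rw [e]
    have hz : ¬ (L : ℤ) ∣ P.m (P.m x) - (P.m x + 1) := by
      rw [P.inv]
      intro h'
      apply h2
      have := dvd_add h' h3
      have e : x - (P.m x + 1) + (P.m x - i) = x - (i + 1) := by ring
      rwa [e] at this
    have := partner_close P hz
    rw [P.inv] at this
    constructor <;> linarith [this.1, this.2]
  · rw [e]
    have hz : ¬ (L : ℤ) ∣ P.m (P.m x - 1) - (P.m x - 1 + 1) := by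
      intro h'
      rw [show P.m x - 1 + 1 = P.m x by ring] at h'
      have h6 := P.per_dvd h'
      rw [P.inv, P.inv] at h6
      apply h1
      have h7 : (L : ℤ) ∣ x - (P.m x - 1) := by
        have e : x - (P.m x - 1) = -(P.m (P.m x - 1) - P.m x) := by linarith
        rw [e]; exact (dvd_neg).2 h'
      have := dvd_add h7 h3
      have e : x - (P.m x - 1) + (P.m x - (i + 1)) = x - i := by ring
      rwa [e] at this
    have := partner_close P hz
    rw [show P.m x - 1 + 1 = P.m x by ring, P.inv] at this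
    constructor <;> linarith [this.1, this.2]
  · rw [e]; have := P.short x; rwa [abs_lt] at this

/-- Key step: the new arc joining the partners of `z` and `z+1`: everything strictly below it. -/
lemma new_arc {z y : ℤ} (hz : (L : ℤ) ∣ z - i) (h : ¬ (L : ℤ) ∣ P.m z - (z + 1))
    (hyi : ¬ (L : ℤ) ∣ y - i) (hyi' : ¬ (L : ℤ) ∣ y - (i + 1))
    (hy : (P.m z < y ∧ y < P.m (z + 1)) ∨ (P.m (z + 1) < y ∧ y < P.m z)) :
    ¬ (L : ℤ) ∣ P.m y - i ∧ ¬ (L : ℤ) ∣ P.m y - (i + 1) ∧
    ((P.m z < P.m y ∧ P.m y < P.m (z + 1)) ∨ (P.m (z + 1) < P.m y ∧ P.m y < P.m z)) := by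
  have hL := P.two_le
  have hc := partner_close P h
  have s1 := P.short' z
  have s2 := P.short' (z + 1)
  have n1 := P.ne z
  have n2 := P.ne (z + 1)
  have i1 := P.inv z
  have i2 := P.inv (z + 1)
  have iy := P.inv y
  have hne1 : P.m z ≠ z + 1 := fun h' => h (by rw [h']; simp)
  have hne2 : P.m (z + 1) ≠ z := by
    intro h'
    apply hne1
    have h3 := P.inv (z + 1)
    rwa [h'] at h3
  have hyz : y ≠ z := by rintro rfl; exact hyi hz
  have hyz1 : y ≠ z + 1 := by
    rintro rfl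
    apply hyi'
    have e : z + 1 - (i + 1) = z - i := by ring
    rwa [e]
  -- m y is congruent to i or i+1 only if y is a translate of m z or m (z+1)
  have key1 : (L : ℤ) ∣ P.m y - i → (L : ℤ) ∣ P.m y - z ∧ P.m y - z = y - P.m z := by
    intro h'
    have h1 : (L : ℤ) ∣ P.m y - z := by
      have := dvd_sub h' hz
      have e : P.m y - i - (z - i) = P.m y - z := by ring
      rwa [e] at this
    refine ⟨h1, ?_⟩
    have h2 := P.per_dvd h1
    rw [iy] at h2
    linarith
  have key2 : (L : ℤ) ∣ P.m y - (i + 1) →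
      (L : ℤ) ∣ P.m y - (z + 1) ∧ P.m y - (z + 1) = y - P.m (z + 1) := by
    intro h'
    have h1 : (L : ℤ) ∣ P.m y - (z + 1) := by
      have := dvd_sub h' hz
      have e : P.m y - (i + 1) - (z - i) = P.m y - (z + 1) := by ring
      rwa [e] at this
    refine ⟨h1, ?_⟩
    have h2 := P.per_dvd h1
    rw [iy] at h2
    linarith
  have hmain : (P.m z < P.m y ∧ P.m y < P.m (z + 1)) ∨ (P.m (z + 1) < P.m y ∧ P.m y < P.m z) := by
    rcases hy with ⟨hy1, hy2⟩ | ⟨hy1, hy2⟩
    · left
      -- m z < y < m (z+1)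
      rcases lt_or_gt_of_ne n1 with hj | hj
      · rcases lt_or_gt_of_ne n2 with hk | hk
        · -- both left: m (z+1) < z and then m z inside: contradiction with m z < m (z+1)
          have hk' : P.m (z + 1) < z := by omega
          have := P.nc (P.m (z + 1)) z hk' (by rw [i2]; omega)
          omega
        · rcases lt_trichotomy y z with h3 | h3 | h3
          · have := P.nc (P.m z) y hy1 (by rw [i1]; exact h3)
            rw [i1] at this
            omega
          · exact absurd h3 hyz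
          · have := P.nc (z + 1) y (by omega) hy2
            omega
      · -- m z > z + 1: m (z+1) in between
        have hzz : z + 1 < P.m z := by omega
        have := P.nc z (z + 1) (by omega) hzz
        omega
    · right
      rcases lt_or_gt_of_ne n1 with hj | hj
      · rcases lt_or_gt_of_ne n2 with hk | hk
        · -- m (z+1) < m z < z
          have hk' : P.m (z + 1) < z := by omega
          have h3 := P.nc (P.m (z + 1)) z hk' (by rw [i2]; omega)
          rw [i2] at h3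
          have h4 := P.nc (P.m (z + 1)) y hy1 (by rw [i2]; omega)
          rw [i2] at h4
          refine ⟨h4.1, ?_⟩
          by_contra hcon
          have hne : P.m y ≠ P.m z := fun h' => hyz (P.inj h')
          have hne' : P.m y ≠ z := by
            intro h'
            have := iy
            rw [h'] at this
            omega
          have h5 : P.m z < P.m y := by omega
          have h6 : P.m y < z := by omega
          have h7 := P.nc (P.m z) (P.m y) h5 (by rw [i1]; exact h6)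
          rw [iy] at h7
          omega
        · omega
      · have hzz : z + 1 < P.m z := by omega
        have h3 := P.nc z (z + 1) (by omega) hzz
        have h4 := P.nc z y (by omega) hy2
        refine ⟨?_, h4.2⟩
        by_contra hcon
        have hne : P.m y ≠ P.m (z + 1) := fun h' => hyz1 (P.inj h')
        have hne' : P.m y ≠ z + 1 := by
          intro h'
          have := iy
          rw [h'] at this
          omega
        have h5 : z + 1 < P.m y := by omega
        have h6 : P.m y < P.m (z + 1) := by omega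
        have h7 := P.nc (z + 1) (P.m y) h5 h6
        rw [iy] at h7
        omega
  refine ⟨?_, ?_, hmain⟩
  · intro h'
    obtain ⟨h1, h2⟩ := key1 h'
    rcases dvd_cases h1 with h3 | h3 | h3
    · have : P.m y = z := by linarith
      have h4 : y = P.m z := by linarith
      omega
    · omega
    · omega
  · intro h'
    obtain ⟨h1, h2⟩ := key2 h'
    rcases dvd_cases h1 with h3 | h3 | h3
    · have h4 : y = P.m (z + 1) := by linarith
      omega
    · omega
    · omega

lemma tl_nc (x y : ℤ) (hxy : x < y) (hyx : y < tl L i P.m x) :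
    x < tl L i P.m y ∧ tl L i P.m y < tl L i P.m x := by
  have hL := P.two_le
  have iy := P.inv y
  have ix := P.inv x
  rcases tl_cases i hL P.m x with ⟨h, e⟩ | ⟨h, e⟩ | ⟨h1, h2, h3, e⟩ | ⟨h1, h2, h3, e⟩ |
    ⟨h1, h2, h3, h4, e⟩
  · rw [e] at hyx; omega
  · rw [e] at hyx; omega
  · -- m x = z, z ≡ i, new arc from x = m z to m (z + 1)
    set z := P.m x with hzdef
    have hz : ¬ (L : ℤ) ∣ P.m z - (z + 1) := by
      rw [ix]
      intro h'
      apply h2
      have := dvd_add h' h3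
      have e : x - (z + 1) + (z - i) = x - (i + 1) := by ring
      rwa [e] at this
    rw [e] at hyx ⊢
    obtain ⟨a1, a2⟩ := aux_succ P i h3 (by rw [ix]; exact h2)
    rcases tl_cases i hL P.m y with ⟨g, f⟩ | ⟨g, f⟩ | ⟨g1, g2, g3, f⟩ | ⟨g1, g2, g3, f⟩ |
      ⟨g1, g2, g3, g4, f⟩
    · rw [f]
      have : P.m (z + 1) ≠ y + 1 := by
        intro h'
        apply a2
        rw [h']
        have e : y + 1 - (i + 1) = y - i := by ring
        rwa [e]
      omega
    · rw [f]
      have : x ≠ y - 1 := by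
        intro h'
        apply h1
        rw [h']
        have e : y - 1 - i = y - (i + 1) := by ring
        rwa [e]
      omega
    · have := new_arc P i h3 hz g1 g2 (Or.inl ⟨by rw [ix]; exact hxy, hyx⟩)
      exact absurd g3 this.1
    · have := new_arc P i h3 hz g1 g2 (Or.inl ⟨by rw [ix]; exact hxy, hyx⟩)
      exact absurd g3 this.2.1
    · rw [f]
      have := (new_arc P i h3 hz g1 g2 (Or.inl ⟨by rw [ix]; exact hxy, hyx⟩)).2.2
      rw [ix] at this
      omega
  · -- m x = z + 1, z ≡ i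
    obtain ⟨z, hzz⟩ : ∃ z, P.m x = z + 1 := ⟨P.m x - 1, by ring⟩
    have hzi : (L : ℤ) ∣ z - i := by
      rw [hzz] at h3
      have e : z + 1 - (i + 1) = z - i := by ring
      rwa [e] at h3
    rw [hzz] at e ix
    rw [show z + 1 - 1 = z by ring] at e
    have hz : ¬ (L : ℤ) ∣ P.m z - (z + 1) := by
      intro h'
      have h6 := P.per_dvd h'
      rw [P.inv, ix] at h6
      apply h1
      have h7 : (L : ℤ) ∣ x - z := by
        have e : x - z = -(P.m z - (z + 1)) := by linarith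
        rw [e]; exact (dvd_neg).2 h'
      have := dvd_add h7 hzi
      have e : x - z + (z - i) = x - i := by ring
      rwa [e] at this
    have hz' : ¬ (L : ℤ) ∣ P.m z - (i + 1) := by
      intro h'
      apply hz
      have := dvd_sub h' hzi
      have e : P.m z - (i + 1) - (z - i) = P.m z - (z + 1) := by ring
      rwa [e] at this
    have a2 := hz'
    rw [e] at hyx ⊢
    rcases tl_cases i hL P.m y with ⟨g, f⟩ | ⟨g, f⟩ | ⟨g1, g2, g3, f⟩ | ⟨g1, g2, g3, f⟩ |
      ⟨g1, g2, g3, g4, f⟩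
    · rw [f]
      have : P.m z ≠ y + 1 := by
        intro h'
        apply a2
        rw [h']
        have e : y + 1 - (i + 1) = y - i := by ring
        rwa [e]
      omega
    · rw [f]
      have : x ≠ y - 1 := by
        intro h'
        apply h1
        rw [h']
        have e : y - 1 - i = y - (i + 1) := by ring
        rwa [e]
      omega
    · have := new_arc P i hzi hz g1 g2 (Or.inr ⟨by rw [ix]; exact hxy, hyx⟩)
      exact absurd g3 this.1
    · have := new_arc P i hzi hz g1 g2 (Or.inr ⟨by rw [ix]; exact hxy, hyx⟩)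
      exact absurd g3 this.2.1
    · rw [f]
      have := (new_arc P i hzi hz g1 g2 (Or.inr ⟨by rw [ix]; exact hxy, hyx⟩)).2.2
      rw [ix] at this
      omega
  · rw [e] at hyx ⊢
    have hnc := P.nc x y hxy hyx
    rcases tl_cases i hL P.m y with ⟨g, f⟩ | ⟨g, f⟩ | ⟨g1, g2, g3, f⟩ | ⟨g1, g2, g3, f⟩ |
      ⟨g1, g2, g3, g4, f⟩
    · rw [f]
      have : P.m x ≠ y + 1 := by
        intro h'
        apply h4
        rw [h']
        have e : y + 1 - (i + 1) = y - i := by ring
        rwa [e]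
      omega
    · rw [f]
      have : x ≠ y - 1 := by
        intro h'
        apply h1
        rw [h']
        have e : y - 1 - i = y - (i + 1) := by ring
        rwa [e]
      omega
    · rw [f]
      -- m y ≡ i
      have hne : P.m x ≠ P.m y + 1 := by
        intro h'
        apply h4
        rw [h']
        have e : P.m y + 1 - (i + 1) = P.m y - i := by ring
        rwa [e]
      exact P.nc x (P.m y + 1) (by omega) (by omega)
    · rw [f]
      have hne : x ≠ P.m y - 1 := by
        intro h'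
        apply h1
        rw [h']
        have e : P.m y - 1 - i = P.m y - (i + 1) := by ring
        rwa [e]
      exact P.nc x (P.m y - 1) (by omega) (by omega)
    · rw [f]; exact hnc

/-- The Temperley-Lieb move `e_i` on link patterns. -/
def E (i : ℤ) (P : Pat L) : Pat L where
  m := tl L i P.m
  inv := tl_inv P i
  per := tl_per P i
  ne := tl_ne P i
  short := tl_short P i
  nc := tl_nc P i

/-- rotation: the strand at position `x` moves to `x + 1` -/
def rot (P : Pat L) : Pat L where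
  m := fun x => P.m (x - 1) + 1
  inv := fun x => by simp [P.inv]
  per := fun x => by
    show P.m (x + L - 1) + 1 = P.m (x - 1) + 1 + L
    rw [show x + (L : ℤ) - 1 = x - 1 + L by ring, P.per]; ring
  ne := fun x h => P.ne (x - 1) (by linarith)
  short := fun x => by
    have := P.short (x - 1)
    have e : P.m (x - 1) + 1 - x = P.m (x - 1) - (x - 1) := by ring
    show |P.m (x - 1) + 1 - x| < L
    rwa [e]
  nc := fun x y h1 h2 => by
    have := P.nc (x - 1) (y - 1) (by linarith) (by linarith)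
    exact ⟨by linarith [this.1], by linarith [this.2]⟩

@[simp] lemma E_m (i : ℤ) (P : Pat L) (x : ℤ) : (E i P).m x = tl L i P.m x := rfl
@[simp] lemma rot_m (P : Pat L) (x : ℤ) : (rot P).m x = P.m (x - 1) + 1 := rfl

end closure

end H56.EX

end

section

/-! Temperley-Lieb relations for the moves `E i` on link patterns. -/

namespace H56.EX

variable {L : ℕ}

lemma Pat.eq_of_dvd {P Q : Pat L} {x y : ℤ} (h : (L : ℤ) ∣ y - x) (hx : P.m x = Q.m x) :
    P.m y = Q.m y := by
  rw [P.per_dvd h, Q.per_dvd h, hx]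

/-- congruence of two positions -/
abbrev Cg (L : ℕ) (x y : ℤ) : Prop := (L : ℤ) ∣ x - y

lemma Cg.symm' {x y : ℤ} (h : Cg L x y) : Cg L y x := by
  unfold Cg at *
  have e : y - x = -(x - y) := by ring
  rw [e]; exact (dvd_neg).2 h

lemma Cg.trans' {x y z : ℤ} (h : Cg L x y) (h' : Cg L y z) : Cg L x z := by
  unfold Cg at *
  have := dvd_add h h'
  have e : x - y + (y - z) = x - z := by ring
  rwa [e] at this

lemma Cg.refl' (x : ℤ) : Cg L x x := by unfold Cg; simp

lemma Cg.add {x y : ℤ} (c : ℤ) (h : Cg L x y) : Cg L (x + c) (y + c) := by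
  unfold Cg at *
  have e : x + c - (y + c) = x - y := by ring
  rwa [e]

lemma Cg.sub {x y : ℤ} (c : ℤ) (h : Cg L x y) : Cg L (x - c) (y - c) := by
  unfold Cg at *
  have e : x - c - (y - c) = x - y := by ring
  rwa [e]

lemma Cg.m {x y : ℤ} (P : Pat L) (h : Cg L x y) : Cg L (P.m x) (P.m y) := by
  unfold Cg at *
  rw [P.per_dvd h]
  have e : P.m y + (x - y) - P.m y = x - y := by ring
  rwa [e]

lemma Cg.m' {x y : ℤ} (P : Pat L) (h : Cg L (P.m x) (P.m y)) : Cg L x y := by
  have := Cg.m P h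
  rwa [P.inv, P.inv] at this

lemma not_Cg_succ (hL : 2 ≤ L) (x : ℤ) : ¬ Cg L x (x + 1) := by
  unfold Cg
  intro h
  have e : x - (x + 1) = -1 := by ring
  rw [e] at h
  have := Int.le_of_dvd (by norm_num) ((dvd_neg).1 h)
  omega

namespace E

variable (P : Pat L) (i : ℤ)

lemma of_i {x : ℤ} (h : Cg L x i) : (E i P).m x = x + 1 := tl_of_dvd i h

lemma of_succ {x : ℤ} (h : Cg L x (i + 1)) : (E i P).m x = x - 1 :=
  tl_of_dvd_succ i P.two_le h

lemma self : (E i P).m i = i + 1 := of_i P i (Cg.refl' i)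
lemma succ : (E i P).m (i + 1) = i := by rw [of_succ P i (Cg.refl' _)]; ring

lemma of_m {x : ℤ} (h1 : ¬ Cg L x i) (h2 : ¬ Cg L x (i + 1)) (h : Cg L (P.m x) i) :
    (E i P).m x = P.m (P.m x + 1) := tl_of_m i h1 h2 h

lemma of_m_succ {x : ℤ} (h1 : ¬ Cg L x i) (h2 : ¬ Cg L x (i + 1)) (h : Cg L (P.m x) (i + 1)) :
    (E i P).m x = P.m (P.m x - 1) := tl_of_m_succ i P.two_le h1 h2 h

lemma other {x : ℤ} (h1 : ¬ Cg L x i) (h2 : ¬ Cg L x (i + 1)) (h3 : ¬ Cg L (P.m x) i)
    (h4 : ¬ Cg L (P.m x) (i + 1)) : (E i P).m x = P.m x := tl_of_else i h1 h2 h3 h4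

lemma mem_not {x : ℤ} (h1 : ¬ Cg L x i) (h2 : ¬ Cg L x (i + 1)) :
    ¬ Cg L ((E i P).m x) i ∧ ¬ Cg L ((E i P).m x) (i + 1) := by
  constructor
  · intro h
    have := of_i P i h
    rw [(E i P).inv] at this
    apply h2
    rw [this]
    exact Cg.add 1 h
  · intro h
    have := of_succ P i h
    rw [(E i P).inv] at this
    apply h1
    rw [this]
    have := Cg.sub 1 h
    rwa [show i + 1 - 1 = i by ring] at this

/-- `e_i` does nothing to a pattern with a small arc at `i`. -/
lemma eq_self (h : P.m i = i + 1) : E i P = P := by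
  apply Pat.ext
  funext x
  by_cases h1 : Cg L x i
  · exact Pat.eq_of_dvd h1 (by rw [self, h])
  by_cases h2 : Cg L x (i + 1)
  · refine Pat.eq_of_dvd h2 ?_
    rw [succ]
    have := P.inv i
    rw [h] at this
    exact this.symm
  have hi : P.m (i + 1) = i := by
    have := P.inv i
    rwa [h] at this
  have h3 : ¬ Cg L (P.m x) i := by
    intro h'
    apply h2
    have := Cg.m P h'
    rwa [P.inv, h] at this
  have h4 : ¬ Cg L (P.m x) (i + 1) := by
    intro h'
    apply h1
    have := Cg.m P h'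
    rwa [P.inv, hi] at this
  exact other P i h1 h2 h3 h4

lemma idem : E i (E i P) = E i P := eq_self _ _ (self P i)

end E

lemma E_congr {i j : ℤ} (h : Cg L i j) (P : Pat L) : E i P = E j P := by
  apply Pat.ext
  funext x
  have e1 : ∀ y : ℤ, ((L : ℤ) ∣ y - i ↔ (L : ℤ) ∣ y - j) := fun y =>
    ⟨fun h' => Cg.trans' (L := L) h' h, fun h' => Cg.trans' (L := L) h' (Cg.symm' h)⟩
  have e2 : ∀ y : ℤ, ((L : ℤ) ∣ y - (i + 1) ↔ (L : ℤ) ∣ y - (j + 1)) := fun y =>
    ⟨fun h' => Cg.trans' (L := L) h' (Cg.add 1 h),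
      fun h' => Cg.trans' (L := L) h' (Cg.symm' (Cg.add 1 h))⟩
  show tl L i P.m x = tl L j P.m x
  unfold tl
  simp only [e1, e2]

lemma rot_E (i : ℤ) (P : Pat L) : rot (E i P) = E (i + 1) (rot P) := by
  apply Pat.ext
  funext x
  show tl L i P.m (x - 1) + 1 = tl L (i + 1) (fun x => P.m (x - 1) + 1) x
  unfold tl
  have e1 : x - (i + 1) = x - 1 - i := by ring
  have e2 : x - (i + 1 + 1) = x - 1 - (i + 1) := by ring
  have e3 : P.m (x - 1) + 1 - (i + 1) = P.m (x - 1) - i := by ring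
  have e4 : P.m (x - 1) + 1 - (i + 1 + 1) = P.m (x - 1) - (i + 1) := by ring
  simp only [e1, e2, e3, e4]
  split_ifs <;> simp

/-- far commutation -/
lemma E_comm {i j : ℤ} (P : Pat L) (h1 : ¬ Cg L i j) (h2 : ¬ Cg L i (j + 1))
    (h3 : ¬ Cg L (i + 1) j) : E i (E j P) = E j (E i P) := by
  have hL := P.two_le
  have h4 : ¬ Cg L (i + 1) (j + 1) := by
    intro h
    apply h1
    have := Cg.sub 1 h
    simpa using this
  -- one half
  have key : ∀ (i j : ℤ), ¬ Cg L i j → ¬ Cg L i (j + 1) → ¬ Cg L (i + 1) j →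
      ¬ Cg L (i + 1) (j + 1) → ∀ x, ¬ Cg L x i → ¬ Cg L x (i + 1) → ¬ Cg L x j →
      ¬ Cg L x (j + 1) → (Cg L (P.m x) i ∨ Cg L (P.m x) (i + 1)) →
      (E i (E j P)).m x = (E j (E i P)).m x := by
    intro i j h1 h2 h3 h4 x x1 x2 x3 x4 hx
    rcases hx with hx | hx
    · have y3 : ¬ Cg L (P.m x) j := fun h => h1 (Cg.trans' (Cg.symm' hx) h)
      have y4 : ¬ Cg L (P.m x) (j + 1) := fun h => h2 (Cg.trans' (Cg.symm' hx) h)
      have ej : (E j P).m x = P.m x := E.other P j x3 x4 y3 y4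
      have ei : (E i P).m x = P.m (P.m x + 1) := E.of_m P i x1 x2 hx
      have hx' : Cg L (P.m x + 1) (i + 1) := Cg.add 1 hx
      have z3 : ¬ Cg L (P.m x + 1) j := fun h => h3 (Cg.trans' (Cg.symm' hx') h)
      have z4 : ¬ Cg L (P.m x + 1) (j + 1) := fun h => h4 (Cg.trans' (Cg.symm' hx') h)
      have L1 : (E i (E j P)).m x = (E j P).m (P.m x + 1) := by
        rw [E.of_m (E j P) i x1 x2 (by rw [ej]; exact hx), ej]
      rw [L1]
      obtain ⟨w1, w2⟩ := E.mem_not P i x1 x2
      rw [ei] at w1 w2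
      by_cases c1 : Cg L (P.m (P.m x + 1)) j
      · rw [E.of_m P j z3 z4 c1, E.of_m (E i P) j x3 x4 (by rw [ei]; exact c1), ei]
        set w := P.m (P.m x + 1) with hw
        have c1' : Cg L (w + 1) (j + 1) := Cg.add 1 c1
        have v1 : ¬ Cg L (w + 1) i := fun h => h2 (Cg.trans' (Cg.symm' h) c1')
        have v2 : ¬ Cg L (w + 1) (i + 1) := fun h => h4 (Cg.trans' (Cg.symm' h) c1')
        symm
        apply E.other P i v1 v2
        · intro h
          -- P.m (w+1) ≡ i ≡ P.m x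
          have := Cg.m' P (Cg.trans' h (Cg.symm' hx))
          exact x4 (Cg.trans' (Cg.symm' this) c1')
        · intro h
          have h5 : Cg L (P.m (w + 1)) (P.m w) := by
            rw [hw, P.inv]; exact Cg.trans' h (Cg.symm' hx')
          exact not_Cg_succ hL w (Cg.symm' (Cg.m' P h5))
      by_cases c2 : Cg L (P.m (P.m x + 1)) (j + 1)
      · rw [E.of_m_succ P j z3 z4 c2, E.of_m_succ (E i P) j x3 x4 (by rw [ei]; exact c2), ei]
        set w := P.m (P.m x + 1) with hw
        have c1' : Cg L (w - 1) j := by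
          have := Cg.sub 1 c2
          simpa using this
        have v1 : ¬ Cg L (w - 1) i := fun h => h1 (Cg.trans' (Cg.symm' h) c1')
        have v2 : ¬ Cg L (w - 1) (i + 1) := fun h => h3 (Cg.trans' (Cg.symm' h) c1')
        symm
        apply E.other P i v1 v2
        · intro h
          have := Cg.m' P (Cg.trans' h (Cg.symm' hx))
          exact x3 (Cg.trans' (Cg.symm' this) c1')
        · intro h
          have h5 : Cg L (P.m (w - 1)) (P.m w) := by
            rw [hw, P.inv]; exact Cg.trans' h (Cg.symm' hx')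
          have h6 := Cg.m' P h5
          apply not_Cg_succ hL (w - 1)
          rwa [show w - 1 + 1 = w by ring]
      · rw [E.other P j z3 z4 c1 c2, E.other (E i P) j x3 x4 (by rw [ei]; exact c1)
          (by rw [ei]; exact c2), ei]
    · have y3 : ¬ Cg L (P.m x) j := fun h => h3 (Cg.trans' (Cg.symm' hx) h)
      have y4 : ¬ Cg L (P.m x) (j + 1) := fun h => h4 (Cg.trans' (Cg.symm' hx) h)
      have ej : (E j P).m x = P.m x := E.other P j x3 x4 y3 y4
      have ei : (E i P).m x = P.m (P.m x - 1) := E.of_m_succ P i x1 x2 hx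
      have hx' : Cg L (P.m x - 1) i := by
        have := Cg.sub 1 hx
        simpa using this
      have z3 : ¬ Cg L (P.m x - 1) j := fun h => h1 (Cg.trans' (Cg.symm' hx') h)
      have z4 : ¬ Cg L (P.m x - 1) (j + 1) := fun h => h2 (Cg.trans' (Cg.symm' hx') h)
      have L1 : (E i (E j P)).m x = (E j P).m (P.m x - 1) := by
        rw [E.of_m_succ (E j P) i x1 x2 (by rw [ej]; exact hx), ej]
      rw [L1]
      obtain ⟨w1, w2⟩ := E.mem_not P i x1 x2
      rw [ei] at w1 w2
      by_cases c1 : Cg L (P.m (P.m x - 1)) j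
      · rw [E.of_m P j z3 z4 c1, E.of_m (E i P) j x3 x4 (by rw [ei]; exact c1), ei]
        set w := P.m (P.m x - 1) with hw
        have c1' : Cg L (w + 1) (j + 1) := Cg.add 1 c1
        have v1 : ¬ Cg L (w + 1) i := fun h => h2 (Cg.trans' (Cg.symm' h) c1')
        have v2 : ¬ Cg L (w + 1) (i + 1) := fun h => h4 (Cg.trans' (Cg.symm' h) c1')
        symm
        apply E.other P i v1 v2
        · intro h
          have h5 : Cg L (P.m (w + 1)) (P.m w) := by
            rw [hw, P.inv]; exact Cg.trans' h (Cg.symm' hx')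
          exact not_Cg_succ hL w (Cg.symm' (Cg.m' P h5))
        · intro h
          have := Cg.m' P (Cg.trans' h (Cg.symm' hx))
          exact x4 (Cg.trans' (Cg.symm' this) c1')
      by_cases c2 : Cg L (P.m (P.m x - 1)) (j + 1)
      · rw [E.of_m_succ P j z3 z4 c2, E.of_m_succ (E i P) j x3 x4 (by rw [ei]; exact c2), ei]
        set w := P.m (P.m x - 1) with hw
        have c1' : Cg L (w - 1) j := by
          have := Cg.sub 1 c2
          simpa using this
        have v1 : ¬ Cg L (w - 1) i := fun h => h1 (Cg.trans' (Cg.symm' h) c1')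
        have v2 : ¬ Cg L (w - 1) (i + 1) := fun h => h3 (Cg.trans' (Cg.symm' h) c1')
        symm
        apply E.other P i v1 v2
        · intro h
          have h5 : Cg L (P.m (w - 1)) (P.m w) := by
            rw [hw, P.inv]; exact Cg.trans' h (Cg.symm' hx')
          have h6 := Cg.m' P h5
          apply not_Cg_succ hL (w - 1)
          rwa [show w - 1 + 1 = w by ring]
        · intro h
          have := Cg.m' P (Cg.trans' h (Cg.symm' hx))
          exact x3 (Cg.trans' (Cg.symm' this) c1')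
      · rw [E.other P j z3 z4 c1 c2, E.other (E i P) j x3 x4 (by rw [ei]; exact c1)
          (by rw [ei]; exact c2), ei]
  have h2' : ¬ Cg L j (i + 1) := fun h => h3 (Cg.symm' h)
  have h3' : ¬ Cg L (j + 1) i := fun h => h2 (Cg.symm' h)
  have h1' : ¬ Cg L j i := fun h => h1 (Cg.symm' h)
  have h4' : ¬ Cg L (j + 1) (i + 1) := fun h => h4 (Cg.symm' h)
  apply Pat.ext
  funext x
  by_cases x1 : Cg L x i
  · refine Pat.eq_of_dvd x1 ?_
    rw [E.self, E.other (E i P) j h1 h2 (by rw [E.self]; exact h3) (by rw [E.self]; exact h4),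
      E.self]
  by_cases x2 : Cg L x (i + 1)
  · refine Pat.eq_of_dvd x2 ?_
    rw [E.succ, E.other (E i P) j h3 h4 (by rw [E.succ]; exact h1) (by rw [E.succ]; exact h2),
      E.succ]
  by_cases x3 : Cg L x j
  · refine Pat.eq_of_dvd x3 ?_
    rw [E.self, E.other (E j P) i h1' h2' (by rw [E.self]; exact h3') (by rw [E.self]; exact h4'),
      E.self]
  by_cases x4 : Cg L x (j + 1)
  · refine Pat.eq_of_dvd x4 ?_
    rw [E.succ, E.other (E j P) i h3' h4' (by rw [E.succ]; exact h1') (by rw [E.succ]; exact h2'),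
      E.succ]
  by_cases y1 : Cg L (P.m x) i
  · exact key i j h1 h2 h3 h4 x x1 x2 x3 x4 (Or.inl y1)
  by_cases y2 : Cg L (P.m x) (i + 1)
  · exact key i j h1 h2 h3 h4 x x1 x2 x3 x4 (Or.inr y2)
  by_cases y3 : Cg L (P.m x) j
  · exact (key j i h1' h2' h3' h4' x x3 x4 x1 x2 (Or.inl y3)).symm
  by_cases y4 : Cg L (P.m x) (j + 1)
  · exact (key j i h1' h2' h3' h4' x x3 x4 x1 x2 (Or.inr y4)).symm
  have ej : (E j P).m x = P.m x := E.other P j x3 x4 y3 y4
  have ei : (E i P).m x = P.m x := E.other P i x1 x2 y1 y2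
  rw [E.other (E j P) i x1 x2 (by rw [ej]; exact y1) (by rw [ej]; exact y2), ej,
    E.other (E i P) j x3 x4 (by rw [ei]; exact y3) (by rw [ei]; exact y4), ei]

/-- `e_i e_{i+1} e_i = e_i` -/
lemma E_braid (i : ℤ) (P : Pat L) (hL : 3 ≤ L) : E i (E (i + 1) (E i P)) = E i P := by
  set Q := E i P with hQ
  have hQi : Q.m i = i + 1 := E.self P i
  have hQi1 : Q.m (i + 1) = i := E.succ P i
  have n1 : ¬ Cg L i (i + 1) := not_Cg_succ (by omega) i
  have n2 : ¬ Cg L (i + 1) (i + 1 + 1) := not_Cg_succ (by omega) (i + 1)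
  have n3 : ¬ Cg L i (i + 1 + 1) := by
    unfold Cg
    intro h
    have e : i - (i + 1 + 1) = -2 := by ring
    rw [e] at h
    have := Int.le_of_dvd (by norm_num) ((dvd_neg).1 h)
    omega
  have n1' : ¬ Cg L (i + 1) i := fun h => n1 (Cg.symm' h)
  have n2' : ¬ Cg L (i + 1 + 1) (i + 1) := fun h => n2 (Cg.symm' h)
  have n3' : ¬ Cg L (i + 1 + 1) i := fun h => n3 (Cg.symm' h)
  set R := E (i + 1) Q with hR
  have hRi : R.m i = Q.m (i + 1 + 1) := by
    have := E.of_m Q (i + 1) n1 n3 (by rw [hQi]; exact Cg.refl' _)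
    rw [hQi] at this
    exact this
  apply Pat.ext
  funext x
  by_cases x1 : Cg L x i
  · exact Pat.eq_of_dvd x1 (by rw [E.self, hQi])
  by_cases x2 : Cg L x (i + 1)
  · exact Pat.eq_of_dvd x2 (by rw [E.succ, hQi1])
  by_cases x3 : Cg L x (i + 1 + 1)
  · refine Pat.eq_of_dvd x3 ?_
    have r1 : R.m (i + 1 + 1) = i + 1 := E.succ Q (i + 1)
    rw [E.of_m_succ R i n3' n2' (by rw [r1]; exact Cg.refl' _), r1, show i + 1 - 1 = i by ring, hRi]
  -- Q.m x is not congruent to i, i+1
  have y1 : ¬ Cg L (Q.m x) i := by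
    intro h
    have := Cg.m Q h
    rw [Q.inv, hQi] at this
    exact x2 this
  have y2 : ¬ Cg L (Q.m x) (i + 1) := by
    intro h
    have := Cg.m Q h
    rw [Q.inv, hQi1] at this
    exact x1 this
  by_cases y3 : Cg L (Q.m x) (i + 1 + 1)
  · -- R.m x = Q.m (Q.m x - 1) ≡ i
    have r1 : R.m x = Q.m (Q.m x - 1) := E.of_m_succ Q (i + 1) x2 x3 y3
    have c1 : Cg L (Q.m x - 1) (i + 1) := by
      have := Cg.sub 1 y3
      simpa using this
    have r2 : Q.m (Q.m x - 1) = Q.m x - 1 - 1 := by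
      have := Q.per_dvd c1
      rw [hQi1] at this
      rw [this]; ring
    rw [r2] at r1
    have c2 : Cg L (R.m x) i := by
      rw [r1]
      have := Cg.sub 1 c1
      simpa using this
    rw [E.of_m R i x1 x2 c2, r1]
    have c3 : Cg L (Q.m x - 1) (i + 1) := c1
    rw [show Q.m x - 1 - 1 + 1 = Q.m x - 1 by ring]
    rw [E.of_i Q (i + 1) c3]; ring
  · have r1 : R.m x = Q.m x := E.other Q (i + 1) x2 x3 y2 y3
    rw [E.other R i x1 x2 (by rw [r1]; exact y1) (by rw [r1]; exact y2), r1]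

/-- `e_{i+1} e_i e_{i+1} = e_{i+1}` -/
lemma E_braid' (i : ℤ) (P : Pat L) (hL : 3 ≤ L) :
    E (i + 1) (E i (E (i + 1) P)) = E (i + 1) P := by
  set Q := E (i + 1) P with hQ
  have hQi : Q.m (i + 1) = i + 1 + 1 := E.self P (i + 1)
  have hQi1 : Q.m (i + 1 + 1) = i + 1 := E.succ P (i + 1)
  have n1 : ¬ Cg L i (i + 1) := not_Cg_succ (by omega) i
  have n2 : ¬ Cg L (i + 1) (i + 1 + 1) := not_Cg_succ (by omega) (i + 1)
  have n3 : ¬ Cg L i (i + 1 + 1) := by
    unfold Cg
    intro h
    have e : i - (i + 1 + 1) = -2 := by ring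
    rw [e] at h
    have := Int.le_of_dvd (by norm_num) ((dvd_neg).1 h)
    omega
  have n1' : ¬ Cg L (i + 1) i := fun h => n1 (Cg.symm' h)
  have n2' : ¬ Cg L (i + 1 + 1) (i + 1) := fun h => n2 (Cg.symm' h)
  have n3' : ¬ Cg L (i + 1 + 1) i := fun h => n3 (Cg.symm' h)
  set R := E i Q with hR
  have hRi : R.m (i + 1 + 1) = Q.m i := by
    have := E.of_m_succ Q i n3' n2' (by rw [hQi1]; exact Cg.refl' _)
    rw [hQi1, show i + 1 - 1 = i by ring] at this
    exact this
  apply Pat.ext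
  funext x
  by_cases x1 : Cg L x (i + 1)
  · exact Pat.eq_of_dvd x1 (by rw [E.self, hQi])
  by_cases x2 : Cg L x (i + 1 + 1)
  · exact Pat.eq_of_dvd x2 (by rw [E.succ, hQi1])
  by_cases x3 : Cg L x i
  · refine Pat.eq_of_dvd x3 ?_
    have r1 : R.m i = i + 1 := E.self Q i
    rw [E.of_m R (i + 1) n1 n3 (by rw [r1]; exact Cg.refl' _), r1, hRi]
  have y1 : ¬ Cg L (Q.m x) (i + 1) := by
    intro h
    have := Cg.m Q h
    rw [Q.inv, hQi] at this
    exact x2 this
  have y2 : ¬ Cg L (Q.m x) (i + 1 + 1) := by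
    intro h
    have := Cg.m Q h
    rw [Q.inv, hQi1] at this
    exact x1 this
  by_cases y3 : Cg L (Q.m x) i
  · have r1 : R.m x = Q.m (Q.m x + 1) := E.of_m Q i x3 x1 y3
    have c1 : Cg L (Q.m x + 1) (i + 1) := Cg.add 1 y3
    have r2 : Q.m (Q.m x + 1) = Q.m x + 1 + 1 := by
      have := Q.per_dvd c1
      rw [hQi] at this
      rw [this]; ring
    rw [r2] at r1
    have c2 : Cg L (R.m x) (i + 1 + 1) := by
      rw [r1]; exact Cg.add 1 c1
    rw [E.of_m_succ R (i + 1) x1 x2 c2, r1]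
    rw [show Q.m x + 1 + 1 - 1 = Q.m x + 1 by ring]
    rw [E.of_succ Q i c1]; ring
  · have r1 : R.m x = Q.m x := E.other Q i x3 x1 y3 y1
    rw [E.other R (i + 1) x1 x2 (by rw [r1]; exact y1) (by rw [r1]; exact y2), r1]

/-! ### Finiteness -/

lemma Pat.ext_Ico {P Q : Pat L} (h : ∀ x : ℤ, 0 ≤ x → x < L → P.m x = Q.m x) : P = Q := by
  have hL := P.two_le
  apply Pat.ext
  funext x
  have h1 : (L : ℤ) ∣ x - x % L := Int.dvd_self_sub_emod
  have hpos : (0 : ℤ) < L := by omega
  exact Pat.eq_of_dvd h1 (h _ (Int.emod_nonneg _ (by omega)) (Int.emod_lt_of_pos _ hpos))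

instance : Finite (Pat L) := by
  classical
  let f : Pat L → (Fin L → Set.Ioo (-(L : ℤ)) (2 * L)) := fun P k =>
    ⟨P.m k, by
      have h1 := P.short' (k : ℤ)
      have h2 := k.isLt
      constructor
      · have : (0 : ℤ) ≤ (k : ℕ) := Int.natCast_nonneg _
        linarith [h1.2]
      · have : ((k : ℕ) : ℤ) < L := by exact_mod_cast h2
        linarith [h1.1]⟩
  have : Finite (Set.Ioo (-(L : ℤ)) (2 * L)) := (Set.finite_Ioo _ _).to_subtype
  apply Finite.of_injective f
  intro P Q hPQ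
  apply Pat.ext_Ico
  intro x hx0 hxL
  have hx : x = ((⟨x.toNat, by omega⟩ : Fin L) : ℕ) := by simp [hx0]
  have := congrFun hPQ ⟨x.toNat, by omega⟩
  have h2 := congrArg Subtype.val this
  simp only [f] at h2
  rw [hx]
  exact h2

noncomputable instance : Fintype (Pat L) := Fintype.ofFinite _

noncomputable instance : DecidableEq (Pat L) := Classical.decEq _

end H56.EX

end

section

/-! Insertion of a small arc at positions `i, i+1`: `ins i : Pat L → Pat (L+2)`. -/

namespace H56.EX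

variable {L : ℕ}

/-- position of the old strand `y` after inserting two strands at positions `i, i+1` -/
def phi (L : ℕ) (i y : ℤ) : ℤ := y + 2 * ((y - i) / (L : ℤ) + 1)

/-- inverse of `phi` -/
def psi (L : ℕ) (i x : ℤ) : ℤ := x - 2 * ((x - i) / ((L : ℤ) + 2) + 1)

lemma phi_form (hL : 1 ≤ L) (i a s : ℤ) (h0 : 0 ≤ s) (h1 : s < L) :
    phi L i (i + s + L * a) = i + s + 2 + (L + 2) * a := by
  unfold phi
  have e : (i + s + L * a - i) / (L : ℤ) = a := by
    rw [show i + s + (L : ℤ) * a - i = s + a * L by ring, Int.add_mul_ediv_right _ _ (by omega),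
      Int.ediv_eq_zero_of_lt h0 h1]
    ring
  rw [e]; ring

lemma psi_form (i a r : ℤ) (h0 : 0 ≤ r) (h1 : r < L + 2) :
    psi L i (i + r + (L + 2) * a) = i + r - 2 + L * a := by
  unfold psi
  have e : (i + r + (L + 2) * a - i) / ((L : ℤ) + 2) = a := by
    rw [show i + r + ((L : ℤ) + 2) * a - i = r + a * (L + 2) by ring,
      Int.add_mul_ediv_right _ _ (by omega), Int.ediv_eq_zero_of_lt h0 h1]
    ring
  rw [e]; ring

lemma exists_form {N : ℤ} (hN : 0 < N) (i x : ℤ) : ∃ a r, 0 ≤ r ∧ r < N ∧ x = i + r + N * a := by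
  refine ⟨(x - i) / N, (x - i) % N, Int.emod_nonneg _ (by omega), Int.emod_lt_of_pos _ hN, ?_⟩
  have := Int.emod_add_mul_ediv (x - i) N
  linarith

lemma psi_phi (hL : 1 ≤ L) (i y : ℤ) : psi L i (phi L i y) = y := by
  obtain ⟨a, s, h0, h1, rfl⟩ := exists_form (N := (L : ℤ)) (by omega) i y
  rw [phi_form hL i a s h0 h1, show i + s + 2 + ((L : ℤ) + 2) * a = i + (s + 2) + (L + 2) * a by ring,
    psi_form i a (s + 2) (by omega) (by omega)]
  ring

lemma phi_psi (hL : 1 ≤ L) {i x : ℤ} (h1 : ¬ Cg (L + 2) x i) (h2 : ¬ Cg (L + 2) x (i + 1)) :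
    phi L i (psi L i x) = x := by
  obtain ⟨a, r, g0, g1, rfl⟩ := exists_form (N := ((L : ℤ) + 2)) (by omega) i x
  have hr0 : r ≠ 0 := by
    rintro rfl
    apply h1
    unfold Cg
    push_cast
    have e : i + 0 + ((L : ℤ) + 2) * a - i = (L + 2) * a := by ring
    rw [e]; exact Dvd.intro _ rfl
  have hr1 : r ≠ 1 := by
    rintro rfl
    apply h2
    unfold Cg
    push_cast
    have e : i + 1 + ((L : ℤ) + 2) * a - (i + 1) = (L + 2) * a := by ring
    rw [e]; exact Dvd.intro _ rfl
  rw [psi_form i a r g0 g1, show i + r - 2 + (L : ℤ) * a = i + (r - 2) + L * a by ring,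
    phi_form hL i a (r - 2) (by omega) (by omega)]
  ring

lemma phi_not (hL : 1 ≤ L) (i y : ℤ) :
    ¬ Cg (L + 2) (phi L i y) i ∧ ¬ Cg (L + 2) (phi L i y) (i + 1) := by
  obtain ⟨a, s, h0, h1, rfl⟩ := exists_form (N := (L : ℤ)) (by omega) i y
  rw [phi_form hL i a s h0 h1]
  constructor
  · intro h
    unfold Cg at h
    have h' : ((L + 2 : ℕ) : ℤ) ∣ s + 2 := by
      have h3 : ((L + 2 : ℕ) : ℤ) ∣ ((L + 2 : ℕ) : ℤ) * a := Dvd.intro _ rfl
      have := dvd_sub h h3
      push_cast at this ⊢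
      have e : i + s + 2 + ((L : ℤ) + 2) * a - i - (L + 2) * a = s + 2 := by ring
      rwa [e] at this
    have := Int.le_of_dvd (by omega) h'
    push_cast at this
    omega
  · intro h
    unfold Cg at h
    have h' : ((L + 2 : ℕ) : ℤ) ∣ s + 1 := by
      have h3 : ((L + 2 : ℕ) : ℤ) ∣ ((L + 2 : ℕ) : ℤ) * a := Dvd.intro _ rfl
      have := dvd_sub h h3
      push_cast at this ⊢
      have e : i + s + 2 + ((L : ℤ) + 2) * a - (i + 1) - (L + 2) * a = s + 1 := by ring
      rwa [e] at this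
    have := Int.le_of_dvd (by omega) h'
    push_cast at this
    omega

lemma phi_add_L (hL : 1 ≤ L) (i y : ℤ) : phi L i (y + L) = phi L i y + (L + 2) := by
  unfold phi
  have : (y + L - i) / (L : ℤ) = (y - i) / L + 1 := by
    rw [show y + (L : ℤ) - i = (y - i) + 1 * L by ring, Int.add_mul_ediv_right _ _ (by omega)]
  rw [this]; ring

lemma phi_mono (hL : 1 ≤ L) {i x y : ℤ} (h : x < y) : phi L i x < phi L i y := by
  unfold phi
  have : (x - i) / (L : ℤ) ≤ (y - i) / L := Int.ediv_le_ediv (by omega) (by omega)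
  omega

lemma phi_lt_iff (hL : 1 ≤ L) {i x y : ℤ} : phi L i x < phi L i y ↔ x < y := by
  constructor
  · intro h
    by_contra hc
    rcases eq_or_lt_of_le (not_lt.1 hc) with h1 | h1
    · rw [h1] at h; exact lt_irrefl _ h
    · exact absurd (phi_mono hL (i := i) h1) (by omega)
  · exact phi_mono hL

lemma phi_inj (hL : 1 ≤ L) {i x y : ℤ} (h : phi L i x = phi L i y) : x = y := by
  rw [← psi_phi hL i x, h, psi_phi hL]

/-- raw insertion -/
def insm (L : ℕ) (i : ℤ) (m : ℤ → ℤ) (x : ℤ) : ℤ :=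
  if Cg (L + 2) x i then x + 1
  else if Cg (L + 2) x (i + 1) then x - 1
  else phi L i (m (psi L i x))

lemma insm_i {m : ℤ → ℤ} {i x : ℤ} (h : Cg (L + 2) x i) : insm L i m x = x + 1 := by
  simp only [insm, if_pos h]

lemma insm_succ {m : ℤ → ℤ} {i x : ℤ} (h : Cg (L + 2) x (i + 1)) : insm L i m x = x - 1 := by
  have h' : ¬ Cg (L + 2) x i := fun h' =>
    not_Cg_succ (L := L + 2) (by omega) i (Cg.trans' (Cg.symm' h') h)
  simp only [insm, if_neg h', if_pos h]

lemma insm_phi (hL : 1 ≤ L) (m : ℤ → ℤ) (i y : ℤ) : insm L i m (phi L i y) = phi L i (m y) := by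
  have := phi_not hL i y
  simp only [insm, if_neg this.1, if_neg this.2, psi_phi hL]

/-- every position is `≡ i`, `≡ i+1` or in the image of `phi` -/
lemma pos_cases (hL : 1 ≤ L) (i x : ℤ) :
    Cg (L + 2) x i ∨ Cg (L + 2) x (i + 1) ∨ ∃ y, x = phi L i y := by
  by_cases h1 : Cg (L + 2) x i
  · exact Or.inl h1
  by_cases h2 : Cg (L + 2) x (i + 1)
  · exact Or.inr (Or.inl h2)
  · exact Or.inr (Or.inr ⟨psi L i x, (phi_psi hL h1 h2).symm⟩)

/-- insertion of a small arc at positions `i, i+1` -/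
def ins (i : ℤ) (P : Pat L) : Pat (L + 2) where
  m := insm L i P.m
  inv := fun x => by
    have hL : 1 ≤ L := le_trans (by norm_num) P.two_le
    rcases pos_cases hL i x with h | h | ⟨y, rfl⟩
    · rw [insm_i h, insm_succ (Cg.add 1 h)]; ring
    · rw [insm_succ h, insm_i]
      · ring
      · have := Cg.sub 1 h
        simpa using this
    · rw [insm_phi hL, insm_phi hL, P.inv]
  per := fun x => by
    have hL : 1 ≤ L := le_trans (by norm_num) P.two_le
    have hd : Cg (L + 2) (x + ((L + 2 : ℕ) : ℤ)) x := by unfold Cg; simp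
    rcases pos_cases hL i x with h | h | ⟨y, rfl⟩
    · rw [insm_i h, insm_i (Cg.trans' hd h)]; ring
    · rw [insm_succ h, insm_succ (Cg.trans' hd h)]; ring
    · have e : phi L i y + ((L + 2 : ℕ) : ℤ) = phi L i (y + L) := by
        rw [phi_add_L hL]; push_cast; ring
      rw [e, insm_phi hL, insm_phi hL, P.per, phi_add_L hL]; push_cast; ring
  ne := fun x => by
    have hL : 1 ≤ L := le_trans (by norm_num) P.two_le
    rcases pos_cases hL i x with h | h | ⟨y, rfl⟩
    · rw [insm_i h]; omega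
    · rw [insm_succ h]; omega
    · rw [insm_phi hL]
      intro h
      exact P.ne y (phi_inj hL h)
  short := fun x => by
    have hL : 1 ≤ L := le_trans (by norm_num) P.two_le
    rw [abs_lt]
    rcases pos_cases hL i x with h | h | ⟨y, rfl⟩
    · rw [insm_i h]; push_cast; constructor <;> omega
    · rw [insm_succ h]; push_cast; constructor <;> omega
    · rw [insm_phi hL]
      have h1 := P.short' y
      have h2 : phi L i (P.m y) < phi L i (y + L) := phi_mono hL (by linarith [h1.1])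
      have h3 : phi L i y < phi L i (P.m y + L) := phi_mono hL (by linarith [h1.2])
      rw [phi_add_L hL] at h2 h3
      push_cast
      constructor <;> linarith
  nc := fun x y hxy hyx => by
    have hL : 1 ≤ L := le_trans (by norm_num) P.two_le
    rcases pos_cases hL i x with h | h | ⟨u, rfl⟩
    · rw [insm_i h] at hyx; omega
    · rw [insm_succ h] at hyx; omega
    · rw [insm_phi hL] at hyx ⊢
      rcases pos_cases hL i y with h | h | ⟨v, rfl⟩
      · rw [insm_i h]
        have : phi L i (P.m u) ≠ y + 1 := by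
          intro h'
          apply (phi_not hL i (P.m u)).2
          rw [h']; exact Cg.add 1 h
        omega
      · rw [insm_succ h]
        have : phi L i u ≠ y - 1 := by
          intro h'
          apply (phi_not hL i u).1
          rw [h']
          have := Cg.sub 1 h
          simpa using this
        omega
      · rw [insm_phi hL]
        have := P.nc u v ((phi_lt_iff hL).1 hxy) ((phi_lt_iff hL).1 hyx)
        exact ⟨phi_mono hL this.1, phi_mono hL this.2⟩

lemma ins_i (i : ℤ) (P : Pat L) {x : ℤ} (h : Cg (L + 2) x i) : (ins i P).m x = x + 1 := insm_i h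
lemma ins_succ (i : ℤ) (P : Pat L) {x : ℤ} (h : Cg (L + 2) x (i + 1)) :
    (ins i P).m x = x - 1 := insm_succ h
lemma ins_phi (i : ℤ) (P : Pat L) (y : ℤ) : (ins i P).m (phi L i y) = phi L i (P.m y) :=
  insm_phi (le_trans (by norm_num) P.two_le) P.m i y
lemma ins_self (i : ℤ) (P : Pat L) : (ins i P).m i = i + 1 := ins_i i P (Cg.refl' i)

lemma ins_injective (i : ℤ) : Function.Injective (ins (L := L) i) := by
  intro P Q h
  have hL : 1 ≤ L := le_trans (by norm_num) P.two_le
  apply Pat.ext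
  funext y
  have h1 : (ins i P).m (phi L i y) = (ins i Q).m (phi L i y) := by rw [h]
  rw [ins_phi, ins_phi] at h1
  exact phi_inj hL h1

/-- a pattern with a small arc at `i` comes from a unique smaller pattern -/
lemma exists_ins (hL : 2 ≤ L) (i : ℤ) (P : Pat (L + 2)) (h : P.m i = i + 1) :
    ∃ Q : Pat L, P = ins i Q := by
  have hL1 : 1 ≤ L := by omega
  have hsucc : P.m (i + 1) = i := by
    have := P.inv i
    rwa [h] at this
  have hni : ∀ y, ¬ Cg (L + 2) (P.m (phi L i y)) i ∧ ¬ Cg (L + 2) (P.m (phi L i y)) (i + 1) := by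
    intro y
    have hn := phi_not hL1 i y
    constructor
    · intro h'
      apply hn.2
      have := Cg.m P h'
      rwa [P.inv, h] at this
    · intro h'
      apply hn.1
      have := Cg.m P h'
      rwa [P.inv, hsucc] at this
  have hpp : ∀ y, phi L i (psi L i (P.m (phi L i y))) = P.m (phi L i y) := fun y =>
    phi_psi hL1 (hni y).1 (hni y).2
  refine ⟨{
    m := fun y => psi L i (P.m (phi L i y))
    inv := fun y => by
      show psi L i (P.m (phi L i (psi L i (P.m (phi L i y))))) = y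
      rw [hpp, P.inv, psi_phi hL1]
    per := fun y => by
      apply phi_inj hL1 (i := i)
      show phi L i (psi L i (P.m (phi L i (y + L)))) = phi L i (psi L i (P.m (phi L i y)) + L)
      rw [hpp, phi_add_L hL1, phi_add_L hL1, hpp]
      have := P.per (phi L i y)
      push_cast at this
      exact this
    ne := fun y h' => by
      have h2 : phi L i (psi L i (P.m (phi L i y))) = phi L i y := by rw [h']
      rw [hpp] at h2
      exact P.ne _ h2
    short := fun y => by
      have h1 := P.short' (phi L i y)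
      push_cast at h1
      rw [abs_lt]
      constructor
      · have h2 : phi L i y < phi L i (psi L i (P.m (phi L i y)) + L) := by
          rw [phi_add_L hL1, hpp]; linarith [h1.2]
        have := (phi_lt_iff hL1).1 h2
        linarith
      · have h2 : phi L i (psi L i (P.m (phi L i y))) < phi L i (y + L) := by
          rw [phi_add_L hL1, hpp]; linarith [h1.1]
        have := (phi_lt_iff hL1).1 h2
        linarith
    nc := fun x y h1 h2 => by
      have g1 : phi L i x < phi L i y := phi_mono hL1 h1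
      have g2 : phi L i y < P.m (phi L i x) := by
        rw [← hpp x]; exact phi_mono hL1 h2
      have := P.nc _ _ g1 g2
      constructor
      · apply (phi_lt_iff hL1 (i := i)).1
        rw [hpp]; exact this.1
      · apply (phi_lt_iff hL1 (i := i)).1
        rw [hpp, hpp]; exact this.2 }, ?_⟩
  apply Pat.ext
  funext x
  rcases pos_cases hL1 i x with h' | h' | ⟨y, rfl⟩
  · rw [ins_i _ _ h']
    have h2 : P.m x = P.m i + (x - i) := P.per_dvd h'
    rw [h2, h]; ring
  · rw [ins_succ _ _ h']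
    have h2 : P.m x = P.m (i + 1) + (x - (i + 1)) := P.per_dvd h'
    rw [h2, hsucc]; ring
  · rw [ins_phi]
    exact (hpp y).symm

end H56.EX

end

section

/-!
# LINK: critical bond percolation on a cylinder and loops (definitions)

Medial lattice: the vertex `(c, r)` (column `c`, row `r`) lies on the edge `medge c r` of the square
lattice.  Faces of the medial lattice: `(c, r)` = the unit square between the columns `c`, `c + 1`
and between the rows `r - 1`, `r` (level `r`).  It is a primal vertex if `c + r` is odd, namely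
`((c + r + 1) / 2, (r - c - 1) / 2)`, and a dual vertex (a face of the square lattice, named by its
lower left corner) if `c + r` is even, namely `((c + r) / 2, (r - c - 2) / 2)`.
The primal vertex `(x, y)` lies at level `x + y`, the edge `e` lies in the row `e.1 + e.2.1`.
The seam is level `0`; the strand of the seam in column `c` lies between the primal vertex `pv c` and
the dual vertex `dv c`.  The period is `c → c + L`, `L = 2 n`, i.e. `(x, y) → (x + n, y - n)`.

At the vertex `(c, r)` the strands connect bottom - right and top - left if `tB ω c r = true`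
(type B), and bottom - left and top - right if `tB ω c r = false` (type A).
-/

set_option autoImplicit false

open MeasureTheory ProbabilityTheory Filter Topology

namespace Pool.Agent.H89.Link

open H56.EX
open Pool.Agent.H89.Perc (Vert Edge Config Pr half src tgt lowFace ball sphere)

variable {L : ℕ} {T : Type*}

/-! ### The row map -/

open Classical in
/-- Remove the positions `i, i + 1` (mod `L + 2`) and join their partners (`Q0` is a dummy). -/
noncomputable def cap (i : ℤ) (P : Pat (L + 2)) (Q0 : Pat L) : Pat L :=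
  if h : ∃ Q : Pat L, E i P = ins i Q then h.choose else Q0

/-- The horizontal line of the row, coming from the left, passes the columns `0, …, k - 1`. -/
def wires (t : ℤ → Bool) : ℕ → Pat (L + 2) → Pat (L + 2)
  | 0, P => P
  | k + 1, P => if t k = true then E ((k : ℤ) + 1) (wires t k P) else wires t k P

/-- The pattern below a row of vertices of types `t` if the pattern above is `P`. -/
noncomputable def row (t : ℤ → Bool) (P : Pat L) : Pat L :=
  rot (cap (-1) (wires t L (ins 0 P)) P)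

/-- Consistent colours in one row: `top c`, `bot c` are the colours of the vertical edges above and
below the vertex `c`, `hor c` is the colour of the horizontal edge from `c` to `c + 1`. -/
def RowCol (t : ℤ → Bool) (top hor bot : ℤ → T) : Prop :=
  ∀ c : ℤ, (t c = true → bot c = hor c ∧ top c = hor (c - 1)) ∧
    (t c = false → bot c = hor (c - 1) ∧ top c = hor c)

/-- `h` rows `r, …, r + h - 1` above level `r`, with the pattern `s` at the top. -/
noncomputable def halfP (s : Pat L) (t : ℤ → ℤ → Bool) : ℕ → ℤ → Pat L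
  | 0, _ => s
  | h + 1, r => row (fun c => t c r) (halfP s t h (r + 1))

/-- The pattern of the small arcs around the primal vertices of an even level. -/
def IsStar (s : Pat L) : Prop := ∀ x : ℤ, s.m x = if x % 2 = 0 then x - 1 else x + 1

/-! ### Percolation -/

/-- The edge of the square lattice at the medial vertex `(c, r)`. -/
def medge (c r : ℤ) : Edge :=
  if (c + r) % 2 = 0 then ((c + r) / 2, (r - c) / 2, false)
  else ((c + r + 1) / 2, (r - c - 1) / 2, true)

/-- Type of the medial vertex `(c, r)` (`true` = bottom - right and top - left). -/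
def tB (ω : Config) (c r : ℤ) : Bool :=
  if (c + r) % 2 = 0 then ω (medge c r) else !ω (medge c r)

/-- The configuration with period `(n, -n)` which agrees with `ω` on the strip `0 ≤ x < n`. -/
def per (n : ℕ) (ω : Config) : Config := fun e =>
  ω (e.1 % n, e.2.1 + (e.1 - e.1 % n), e.2.2)

/-- Pattern of the rows `0, …, h - 1` above the seam. -/
noncomputable def up (s : Pat L) (n h : ℕ) (ω : Config) : Pat L :=
  halfP s (fun c r => tB (per n ω) c r) h 0

/-- Pattern of the rows `-1, …, -h` below the seam (reflected upwards). -/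
noncomputable def dn (s : Pat L) (n h : ℕ) (ω : Config) : Pat L :=
  halfP s (fun c r => !tB (per n ω) c (-1 - r)) h 0

/-- The primal vertex next to column `c` of the seam. -/
def pv (c : ℤ) : Vert := ((c + 1) / 2, -((c + 1) / 2))

/-- The dual vertex (lower left corner of the face) next to column `c` of the seam. -/
def dv (c : ℤ) : Vert := (c / 2, -(c / 2) - 1)

/-- No loop surrounds the primal vertex `0` (between the columns `-1` and `0`). -/
def NoSurr (P Q : Pat L) : Prop :=
  ∀ X : Finset ℤ, (∀ x ∈ X, P.m x ∈ X) → (∀ x ∈ X, Q.m x ∈ X) →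
    Even (X.filter fun c => 0 ≤ c).card

/-- The vertices `x`, `y` on the two sides of the face `q = (0, -1)` between the columns `0`, `1`. -/
def xx : Vert := (0, 0)
/-- see `xx` -/
def yy : Vert := (1, -1)

/-- `x` and `y` are joined to distance `k`, but not to each other. -/
def FourD (k : ℕ) : Set Config :=
  {ω | (∃ u ∈ sphere 0 k, Perc.Conn ω (ball 0 k) xx u) ∧
    (∃ u ∈ sphere 0 k, Perc.Conn ω (ball 0 k) yy u) ∧ ¬ Perc.Conn ω (ball 0 k) xx yy}

/-- The strip of levels smaller than `H` in absolute value. -/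
def strip (H : ℕ) : Set Vert := {v | -(H : ℤ) < v.1 + v.2 ∧ v.1 + v.2 < H}

/-- `y` is joined to the next copy of `x` in a strip, but not to `x`, and the cluster of `y` is
contained in a window of width less than two periods. -/
def Fc (n H : ℕ) : Set Config :=
  {ω | Perc.Conn ω (strip H) yy (n, -n) ∧ ¬ Perc.Conn ω Set.univ xx yy ∧
    ∀ v, Perc.Conn ω Set.univ yy v → -(n : ℤ) < v.1 - v.2 ∧ v.1 - v.2 < 3 * n}

/-! ### The stationary vector -/

/-- periodic extension of a row of bits -/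
def bits (t : Fin L → Bool) (c : ℤ) : Bool :=
  if h : (c % (L : ℤ)).toNat < L then t ⟨(c % (L : ℤ)).toNat, h⟩ else false

open Classical in
/-- push forward of `v` under the row map with the bits `t` -/
noncomputable def pushRow (t : Fin L → Bool) (v : Pat L → ℂ) (Q : Pat L) : ℂ :=
  ∑ P : Pat L, if row (bits t) P = Q then v P else 0

/-- `v` is stationary for the random row map with fair bits. -/
def Stat (v : Pat L → ℂ) : Prop :=
  ∀ Q : Pat L, ∑ t : Fin L → Bool, pushRow t v Q = 2 ^ L * v Q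

open Classical in
/-- The law of the pattern below `h` rows with fair bits, with the pattern `s` at the top. -/
noncomputable def law (s : Pat L) : ℕ → Pat L → ℝ
  | 0, Q => if Q = s then 1 else 0
  | h + 1, Q => (1 / 2) ^ L * ∑ t : Fin L → Bool, ∑ P : Pat L,
      if row (bits t) P = Q then law s h P else 0

end Pool.Agent.H89.Link

end

section

/-!
# LINK module `Row`: colours are transported by the row map

Proof of `row_inv`.  All facts hold on the universal covers; colours are NOT assumed periodic.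
1. (`cap_spec`) for `2 ≤ L`: `E i P` has a small arc at `i` (`E.self`), so `exists_ins` gives
   `E i P = ins i (cap i P Q0)`.
2. (`E_inv`) if `f (P.m x) = f x` for all `x`, `g x = f x` for `x` not congruent to `i`, `i + 1`
   (mod `L`), and for every `y` congruent to `i`: `f y = f (y + 1)` and `g y = g (y + 1)`, then
   `g ((E i P).m x) = g x` (cases of `tl`, `H56.EX.tl_cases` or `E.of_i`, `E.of_succ`, `E.of_m`,
   `E.of_m_succ`, `E.other`, `E.mem_not`).
3. (`ins_inv`) if `f (phi L i y) = g y`, `g (P.m y) = g y` and `f y = f (y + 1)` for `y` congruent to `i`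
   mod `L + 2`, then `f ((ins i P).m x) = f x`; conversely if `f ((ins i P).m x) = f x` for all `x` then
   `f (phi L i (P.m y)) = f (phi L i y)`.
4. Colour of position `X = (L + 2) j + s`, `0 ≤ s < L + 2`, when the wire has passed the columns
   `0, …, k - 1`:  `s = 0`: `hor (j L - 1)`;  `1 ≤ s ≤ k`: `bot (j L + s - 1)`;  `s = k + 1`:
   `hor (j L + k - 1)`;  `k + 2 ≤ s ≤ L + 1`: `top (j L + s - 2)`.
   Step `k → k + 1` changes only the positions `s = k + 1, k + 2`: from `hor (j L + k - 1), top (j L + k)` to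
   `bot (j L + k), hor (j L + k)`; if `t k = true` use `E_inv` with `i = k + 1`, if `t k = false` nothing
   changes.  (`t (j L + k) = t k` by periodicity.)
5. At the end (`k = L`) the positions `(L+2) j - 1` and `(L+2) j` both have colour `hor (j L - 1)`; use
   `E_inv` with `i = -1`, then `cap_spec` and the second part of 3; the position `(L+2) j + c + 1`
   (`0 ≤ c < L`) is `phi L (-1) (j L + c - 1)`; finally `rot` shifts by one.
-/

set_option autoImplicit false

namespace Pool.Agent.H89.Link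

open H56.EX

variable {L : ℕ} {T : Type*}

theorem cap_spec (hL : 2 ≤ L) (i : ℤ) (P : Pat (L + 2)) (Q0 : Pat L) :
    E i P = ins i (cap i P Q0) := by
  have h : ∃ Q : Pat L, E i P = ins i Q := exists_ins hL i (E i P) (E.self P i)
  unfold cap
  rw [dif_pos h]
  exact h.choose_spec

/-- Colours and the move `E i`. -/
lemma E_inv {N : ℕ} {i : ℤ} {P : Pat N} {f g : ℤ → T} (hf : ∀ x, f (P.m x) = f x)
    (hfi : ∀ y, Cg N y i → f y = f (y + 1)) (hgi : ∀ y, Cg N y i → g y = g (y + 1))
    (hg : ∀ x, ¬ Cg N x i → ¬ Cg N x (i + 1) → g x = f x) (x : ℤ) :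
    g ((E i P).m x) = g x := by
  by_cases h1 : Cg N x i
  · rw [E.of_i P i h1]; exact (hgi x h1).symm
  by_cases h2 : Cg N x (i + 1)
  · rw [E.of_succ P i h2]
    have h3 : Cg N (x - 1) i := by
      have := Cg.sub 1 h2
      rwa [show i + 1 - 1 = i by ring] at this
    have := hgi (x - 1) h3
    rwa [show x - 1 + 1 = x by ring] at this
  obtain ⟨m1, m2⟩ := E.mem_not P i h1 h2
  rw [hg x h1 h2, hg _ m1 m2]
  by_cases h3 : Cg N (P.m x) i
  · rw [E.of_m P i h1 h2 h3, hf, ← hfi _ h3, hf]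
  by_cases h4 : Cg N (P.m x) (i + 1)
  · rw [E.of_m_succ P i h1 h2 h4, hf]
    have h5 : Cg N (P.m x - 1) i := by
      have := Cg.sub 1 h4
      rwa [show i + 1 - 1 = i by ring] at this
    rw [hfi _ h5, show P.m x - 1 + 1 = P.m x by ring, hf]
  · rw [E.other P i h1 h2 h3 h4, hf]

/-- Colours and the insertion of a small arc. -/
lemma ins_inv {i : ℤ} {P : Pat L} {f g : ℤ → T} (hfg : ∀ y, f (phi L i y) = g y)
    (hg : ∀ y, g (P.m y) = g y) (hfi : ∀ y, Cg (L + 2) y i → f y = f (y + 1)) (x : ℤ) :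
    f ((ins i P).m x) = f x := by
  have hL : 1 ≤ L := le_trans (by norm_num) P.two_le
  rcases pos_cases hL i x with h | h | ⟨y, rfl⟩
  · rw [ins_i i P h]; exact (hfi x h).symm
  · rw [ins_succ i P h]
    have h3 : Cg (L + 2) (x - 1) i := by
      have := Cg.sub 1 h
      rwa [show i + 1 - 1 = i by ring] at this
    have := hfi (x - 1) h3
    rwa [show x - 1 + 1 = x by ring] at this
  · rw [ins_phi, hfg, hfg, hg]

/-- Colour of the position `(L + 2) j + s` when the wire has passed the columns `0, …, k - 1`. -/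
def wcol (L : ℕ) (top hor bot : ℤ → T) (k : ℕ) (x : ℤ) : T :=
  if x % ((L : ℤ) + 2) = 0 then hor (x / ((L : ℤ) + 2) * L - 1)
  else if x % ((L : ℤ) + 2) ≤ k then bot (x / ((L : ℤ) + 2) * L + x % ((L : ℤ) + 2) - 1)
  else if x % ((L : ℤ) + 2) = k + 1 then hor (x / ((L : ℤ) + 2) * L + k - 1)
  else top (x / ((L : ℤ) + 2) * L + x % ((L : ℤ) + 2) - 2)

lemma wcol_form (top hor bot : ℤ → T) (k : ℕ) (j s : ℤ) (h0 : 0 ≤ s) (h1 : s < L + 2) :
    wcol L top hor bot k (s + (L + 2) * j) =
      if s = 0 then hor (j * L - 1)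
      else if s ≤ k then bot (j * L + s - 1)
      else if s = k + 1 then hor (j * L + k - 1)
      else top (j * L + s - 2) := by
  have e1 : (s + ((L : ℤ) + 2) * j) % ((L : ℤ) + 2) = s := by
    rw [show s + ((L : ℤ) + 2) * j = s + j * ((L : ℤ) + 2) by ring, Int.add_mul_emod_self_right]
    exact Int.emod_eq_of_lt h0 h1
  have e2 : (s + ((L : ℤ) + 2) * j) / ((L : ℤ) + 2) = j := by
    rw [show s + ((L : ℤ) + 2) * j = s + j * ((L : ℤ) + 2) by ring,
      Int.add_mul_ediv_right _ _ (by omega), Int.ediv_eq_zero_of_lt h0 h1]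
    ring
  unfold wcol
  rw [e1, e2]

lemma exists_pos_form (L : ℕ) (x : ℤ) :
    ∃ j s : ℤ, 0 ≤ s ∧ s < (L : ℤ) + 2 ∧ x = s + ((L : ℤ) + 2) * j := by
  obtain ⟨a, r, h0, h1, h2⟩ := exists_form (N := ((L : ℤ) + 2)) (by omega) 0 x
  exact ⟨a, r, h0, h1, by rw [h2]; ring⟩

lemma Cg_form {L : ℕ} {j s i : ℤ} : Cg (L + 2) (s + ((L : ℤ) + 2) * j) i ↔ Cg (L + 2) s i := by
  unfold Cg
  push_cast
  rw [show s + ((L : ℤ) + 2) * j - i = (s - i) + ((L : ℤ) + 2) * j by ring]
  exact (Int.dvd_add_left (Dvd.intro _ rfl))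

lemma Cg_small {L : ℕ} {s i : ℤ} (h0 : 0 ≤ s) (h1 : s < (L : ℤ) + 2) (h2 : 0 ≤ i)
    (h3 : i < (L : ℤ) + 2) (h : Cg (L + 2) s i) : s = i := by
  unfold Cg at h
  push_cast at h
  have h5 : s % ((L : ℤ) + 2) = i % ((L : ℤ) + 2) := Int.emod_eq_emod_iff_emod_sub_eq_zero.2
    (Int.emod_eq_zero_of_dvd h)
  rwa [Int.emod_eq_of_lt h0 h1, Int.emod_eq_of_lt h2 h3] at h5

lemma per_mul' {t : ℤ → Bool} (ht : ∀ c, t (c + L) = t c) (c j : ℤ) : t (j * L + c) = t c := by
  induction j using Int.induction_on with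
  | zero => simp
  | succ a ih => rw [show ((a : ℤ) + 1) * L + c = (a : ℤ) * L + c + L by ring, ht, ih]
  | pred a ih =>
    have := ht ((-(a : ℤ) - 1) * L + c)
    rw [show (-(a : ℤ) - 1) * L + c + L = -(a : ℤ) * L + c by ring, ih] at this
    exact this.symm

/-- The colours of the positions while the wire passes. -/
lemma wires_inv {t : ℤ → Bool} (ht : ∀ c, t (c + L) = t c) (P : Pat L) {top hor bot : ℤ → T}
    (h : RowCol t top hor bot) (hP : ∀ x, top (P.m x) = top x) (k : ℕ) (hk : k ≤ L) (x : ℤ) :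
    wcol L top hor bot k ((wires t k (ins 0 P)).m x) = wcol L top hor bot k x := by
  have hL : 2 ≤ L := P.two_le
  induction k generalizing x with
  | zero =>
    refine ins_inv (g := top) ?_ hP ?_ x
    · intro y
      obtain ⟨a, r, h0, h1, rfl⟩ := exists_form (N := (L : ℤ)) (by omega) 0 y
      rw [phi_form (by omega) 0 a r h0 h1,
        show 0 + r + 2 + ((L : ℤ) + 2) * a = (r + 2) + ((L : ℤ) + 2) * a by ring,
        wcol_form top hor bot 0 a (r + 2) (by omega) (by omega), if_neg (by omega),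
        if_neg (by push_cast; omega), if_neg (by push_cast; omega)]
      congr 1
      ring
    · intro y hy
      obtain ⟨j, s, h0, h1, rfl⟩ := exists_pos_form L y
      rw [Cg_form] at hy
      obtain rfl : s = 0 := Cg_small h0 h1 le_rfl (by omega) hy
      rw [show 0 + ((L : ℤ) + 2) * j + 1 = 1 + ((L : ℤ) + 2) * j by ring,
        wcol_form top hor bot 0 j 0 le_rfl (by omega),
        wcol_form top hor bot 0 j 1 (by norm_num) (by omega), if_pos rfl, if_neg (by norm_num),
        if_neg (by push_cast; norm_num), if_pos (by norm_num)]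
      congr 1
      push_cast
      ring
  | succ k ih =>
    have ih' := ih (by omega)
    have hstep : ∀ j s : ℤ, 0 ≤ s → s < (L : ℤ) + 2 → s ≠ (k : ℤ) + 1 → s ≠ (k : ℤ) + 2 →
        wcol L top hor bot (k + 1) (s + ((L : ℤ) + 2) * j) =
          wcol L top hor bot k (s + ((L : ℤ) + 2) * j) := by
      intro j s h0 h1 h2 h3
      rw [wcol_form _ _ _ _ _ _ h0 h1, wcol_form _ _ _ _ _ _ h0 h1]
      by_cases c0 : s = 0
      · rw [if_pos c0, if_pos c0]
      rw [if_neg c0, if_neg c0]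
      by_cases c1 : s ≤ (k : ℤ)
      · rw [if_pos c1, if_pos (by push_cast; omega)]
      · rw [if_neg c1, if_neg (by push_cast; omega), if_neg (by omega),
          if_neg (by push_cast; omega)]
    have v1 : ∀ j : ℤ, wcol L top hor bot k (((k : ℤ) + 1) + ((L : ℤ) + 2) * j) =
        hor (j * L + k - 1) := by
      intro j
      rw [wcol_form _ _ _ _ _ _ (by omega) (by omega), if_neg (by omega), if_neg (by omega),
        if_pos rfl]
    have v2 : ∀ j : ℤ, wcol L top hor bot k (((k : ℤ) + 2) + ((L : ℤ) + 2) * j) =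
        top (j * L + k) := by
      intro j
      rw [wcol_form _ _ _ _ _ _ (by omega) (by omega), if_neg (by omega), if_neg (by omega),
        if_neg (by omega)]
      congr 1
      ring
    have w1 : ∀ j : ℤ, wcol L top hor bot (k + 1) (((k : ℤ) + 1) + ((L : ℤ) + 2) * j) =
        bot (j * L + k) := by
      intro j
      rw [wcol_form _ _ _ _ _ _ (by omega) (by omega), if_neg (by omega),
        if_pos (by push_cast; omega)]
      congr 1
      ring
    have w2 : ∀ j : ℤ, wcol L top hor bot (k + 1) (((k : ℤ) + 2) + ((L : ℤ) + 2) * j) =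
        hor (j * L + k) := by
      intro j
      rw [wcol_form _ _ _ _ _ _ (by omega) (by omega), if_neg (by omega),
        if_neg (by push_cast; omega), if_pos (by push_cast; ring)]
      congr 1
      push_cast
      ring
    by_cases htk : t k = true
    · have e : wires t (k + 1) (ins 0 P) = E ((k : ℤ) + 1) (wires t k (ins 0 P)) := by
        rw [wires, if_pos htk]
      rw [e]
      have hr : ∀ j : ℤ, bot (j * L + k) = hor (j * L + k) ∧
          top (j * L + k) = hor (j * L + k - 1) := fun j =>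
        (h (j * L + k)).1 (by rw [per_mul' ht]; exact htk)
      refine E_inv (f := wcol L top hor bot k) ih' ?_ ?_ ?_ x
      · intro y hy
        obtain ⟨j, s, h0, h1, rfl⟩ := exists_pos_form L y
        rw [Cg_form] at hy
        obtain rfl : s = (k : ℤ) + 1 := Cg_small h0 h1 (by omega) (by omega) hy
        rw [show (k : ℤ) + 1 + ((L : ℤ) + 2) * j + 1 = ((k : ℤ) + 2) + ((L : ℤ) + 2) * j by ring,
          v1, v2, (hr j).2]
      · intro y hy
        obtain ⟨j, s, h0, h1, rfl⟩ := exists_pos_form L y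
        rw [Cg_form] at hy
        obtain rfl : s = (k : ℤ) + 1 := Cg_small h0 h1 (by omega) (by omega) hy
        rw [show (k : ℤ) + 1 + ((L : ℤ) + 2) * j + 1 = ((k : ℤ) + 2) + ((L : ℤ) + 2) * j by ring,
          w1, w2, (hr j).1]
      · intro y hy1 hy2
        obtain ⟨j, s, h0, h1, rfl⟩ := exists_pos_form L y
        rw [Cg_form] at hy1 hy2
        refine hstep j s h0 h1 ?_ ?_
        · rintro rfl
          exact hy1 (Cg.refl' _)
        · rintro rfl
          apply hy2
          rw [show (k : ℤ) + 1 + 1 = (k : ℤ) + 2 by ring]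
          exact Cg.refl' _
    · have htk' : t k = false := by simpa using htk
      have e : wires t (k + 1) (ins 0 P) = wires t k (ins 0 P) := by
        rw [wires, if_neg htk]
      rw [e]
      have hr : ∀ j : ℤ, bot (j * L + k) = hor (j * L + k - 1) ∧
          top (j * L + k) = hor (j * L + k) := fun j =>
        (h (j * L + k)).2 (by rw [per_mul' ht]; exact htk')
      have heq : wcol L top hor bot (k + 1) = wcol L top hor bot k := by
        funext y
        obtain ⟨j, s, h0, h1, rfl⟩ := exists_pos_form L y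
        by_cases c1 : s = (k : ℤ) + 1
        · rw [c1, v1, w1, (hr j).1]
        by_cases c2 : s = (k : ℤ) + 2
        · rw [c2, v2, w2, (hr j).2]
        exact hstep j s h0 h1 c1 c2
      rw [heq]
      exact ih' x

/-- **Colours are transported by the row map.** -/
theorem row_inv {t : ℤ → Bool} (ht : ∀ c, t (c + L) = t c) (P : Pat L) {top hor bot : ℤ → T}
    (h : RowCol t top hor bot) (hP : ∀ x, top (P.m x) = top x) (x : ℤ) :
    bot ((row t P).m x) = bot x := by
  have hL : 2 ≤ L := P.two_le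
  set W := wires t L (ins 0 P) with hW
  set C := cap (-1) W P with hC
  set f := wcol L top hor bot L with hf
  have hwi : ∀ y, f (W.m y) = f y := wires_inv ht P h hP L le_rfl
  -- values
  have v0 : ∀ j : ℤ, f (0 + ((L : ℤ) + 2) * j) = hor (j * L - 1) := by
    intro j
    rw [hf, wcol_form _ _ _ _ _ _ le_rfl (by omega), if_pos rfl]
  have v1 : ∀ j : ℤ, f (((L : ℤ) + 1) + ((L : ℤ) + 2) * j) = hor (j * L + L - 1) := by
    intro j
    rw [hf, wcol_form _ _ _ _ _ _ (by omega) (by omega), if_neg (by omega), if_neg (by omega),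
      if_pos rfl]
  have hfi : ∀ y, Cg (L + 2) y (-1) → f y = f (y + 1) := by
    intro y hy
    obtain ⟨j, s, h0, h1, rfl⟩ := exists_pos_form L y
    rw [Cg_form] at hy
    have hs : s = (L : ℤ) + 1 := by
      refine Cg_small h0 h1 (by omega) (by omega) ?_
      refine Cg.trans' hy ?_
      unfold Cg
      push_cast
      exact ⟨-1, by ring⟩
    rw [hs, show (L : ℤ) + 1 + ((L : ℤ) + 2) * j + 1 = 0 + ((L : ℤ) + 2) * (j + 1) by ring, v0, v1]
    congr 1
    ring
  have hE : ∀ y, f ((E (-1) W).m y) = f y :=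
    E_inv hwi hfi hfi (fun _ _ _ => rfl)
  have hcs : E (-1) W = ins (-1) C := cap_spec hL (-1) W P
  rw [hcs] at hE
  have hphi : ∀ y : ℤ, f (phi L (-1) y) = bot (y + 1) := by
    intro y
    obtain ⟨a, r, h0, h1, rfl⟩ := exists_form (N := (L : ℤ)) (by omega) (-1) y
    rw [phi_form (by omega) (-1) a r h0 h1,
      show -1 + r + 2 + ((L : ℤ) + 2) * a = (r + 1) + ((L : ℤ) + 2) * a by ring, hf,
      wcol_form _ _ _ _ _ _ (by omega) (by omega), if_neg (by omega), if_pos (by omega)]
    congr 1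
    ring
  have hCm : ∀ y : ℤ, bot (C.m y + 1) = bot (y + 1) := by
    intro y
    have := hE (phi L (-1) y)
    rw [ins_phi, hphi, hphi] at this
    exact this
  have hrow : (row t P).m x = C.m (x - 1) + 1 := rfl
  rw [hrow, hCm, show x - 1 + 1 = x by ring]

end Pool.Agent.H89.Link

end

section

/-! Common definitions of the EXACT project, loop part:
the cube root of unity `q`, operators `eop i`, the list of properties `PsiProps` of the
polynomial qKZ solution, the leg relation of a pair of patterns and the leg sums. -/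

namespace H56.EX

open scoped BigOperators

variable {L : ℕ}

/-- `q = e^{2πi/3}` -/
noncomputable def q : ℂ := ⟨-1 / 2, Real.sqrt 3 / 2⟩

lemma q_sq : q ^ 2 + q + 1 = 0 := by
  have h : Real.sqrt 3 * Real.sqrt 3 = 3 := Real.mul_self_sqrt (by norm_num)
  apply Complex.ext
  · simp [q, pow_two]; nlinarith
  · simp [q, pow_two]; ring

lemma q_cube : q ^ 3 = 1 := by
  have h := q_sq
  have : q ^ 3 - 1 = (q - 1) * (q ^ 2 + q + 1) := by ring
  rw [h, mul_zero] at this
  linear_combination this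

lemma q_ne_zero : q ≠ 0 := by
  intro h
  have := q_cube
  rw [h] at this
  norm_num at this

lemma q_inv : q⁻¹ = q ^ 2 := by
  have h := q_cube
  have h0 := q_ne_zero
  field_simp
  rw [← h]

lemma q_ne_one : q ≠ 1 := by
  intro h
  have := q_sq
  rw [h] at this
  norm_num at this

/-- the Temperley-Lieb generator `e_i` on vectors -/
noncomputable def eop (i : ℤ) (v : Pat L → ℂ) (P : Pat L) : ℂ :=
  ∑ P' : Pat L, if E i P' = P then v P' else 0

/-- replace the parameter of strand `i` (and its translates) by `t` -/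
def upd (L : ℕ) (ζ : ℤ → ℂ) (i : ℤ) (t : ℂ) : ℤ → ℂ :=
  fun x => if Cg L x i then t else ζ x

/-- exchange the parameters of the strands `i` and `i+1` (and translates) -/
def swp (L : ℕ) (i : ℤ) (ζ : ℤ → ℂ) : ℤ → ℂ :=
  fun x => if Cg L x i then ζ (x + 1) else if Cg L x (i + 1) then ζ (x - 1) else ζ x

/-- `L`-periodic families of spectral parameters -/
def Per (L : ℕ) (ζ : ℤ → ℂ) : Prop := ∀ x, ζ (x + L) = ζ x

/-- base pattern condition: all arcs nested around the gap between strand `-1` and strand `0`. -/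
def IsBase (P : Pat L) : Prop := ∀ x : ℤ, -(L : ℤ) ≤ 2 * x → 2 * x < L → P.m x = -1 - x

/-- Properties of the polynomial qKZ solution used by the leg formulas.  `Ψ L P ζ` is the component
at the pattern `P`, with parameters `ζ` (an `L`-periodic function on the universal cover). -/
structure PsiProps (Ψ : ∀ L : ℕ, Pat L → (ℤ → ℂ) → ℂ) : Prop where
  /-- only the parameters in one period matter -/
  congr : ∀ (L : ℕ) (P : Pat L) (ζ ζ' : ℤ → ℂ), (∀ x : ℤ, 0 ≤ x → x < L → ζ x = ζ' x) →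
    Ψ L P ζ = Ψ L P ζ'
  /-- jointly polynomial in the parameters of one period -/
  mv : ∀ (L : ℕ) (P : Pat L), ∃ p : MvPolynomial (Fin L) ℂ, ∀ ζ : ℤ → ℂ,
    Ψ L P ζ = MvPolynomial.eval (fun k : Fin L => ζ ((k : ℕ) : ℤ)) p
  /-- polynomial of degree `≤ L-1` in each parameter -/
  poly : ∀ (L : ℕ) (P : Pat L) (ζ : ℤ → ℂ), Per L ζ → ∀ i : ℤ,
    ∃ p : Polynomial ℂ, p.natDegree ≤ L - 1 ∧ ∀ t, Ψ L P (upd L ζ i t) = p.eval t
  /-- exchange relation -/
  exch : ∀ (L : ℕ) (P : Pat L) (ζ : ℤ → ℂ), Per L ζ → ∀ i : ℤ,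
    (q * ζ (i + 1) - q⁻¹ * ζ i) * Ψ L P (swp L i ζ) =
      (q * ζ i - q⁻¹ * ζ (i + 1)) * Ψ L P ζ +
        (ζ i - ζ (i + 1)) * eop i (fun P' => Ψ L P' ζ) P
  /-- rotation covariance -/
  rot : ∀ (L : ℕ) (P : Pat L) (ζ : ℤ → ℂ), Per L ζ →
    Ψ L (rot P) (fun x => ζ (x - 1)) = Ψ L P ζ
  /-- at `ζ i = q² ζ (i+1)` only patterns with a small arc at `i` survive -/
  arc_zero : ∀ (L : ℕ) (P : Pat L) (ζ : ℤ → ℂ), Per L ζ → ∀ i : ℤ, ζ i = q ^ 2 * ζ (i + 1) →
    P.m i ≠ i + 1 → Ψ L P ζ = 0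
  /-- arc recursion -/
  arc : ∀ (L : ℕ) (P : Pat L) (ζ : ℤ → ℂ), Per (L + 2) ζ → ∀ i : ℤ,
    ζ i = q ^ 2 * ζ (i + 1) →
    Ψ (L + 2) (ins i P) ζ =
      (-q * ζ (i + 1) * (∏ s ∈ Finset.range L, (ζ (i + 2 + s) - q * ζ (i + 1)) ^ 2) / 3 ^ L) *
        Ψ L P (fun x => ζ (phi L i x))
  /-- base component -/
  base : ∀ (L : ℕ) (P : Pat L) (ζ : ℤ → ℂ), IsBase P →
    Ψ L P ζ = ∏ j ∈ Finset.range L, ∏ i ∈ Finset.range j,
      (q * ζ j - q⁻¹ * ζ i) / (q - q⁻¹)

/-! ### The leg relation

`Pt : Pat Lt` top pattern, `Pb : Pat Lb` bottom pattern, `kt, kb` = number of strands in the hole at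
the top / bottom, `M` = number of glued strands; in all uses `Lt = kt + M`, `Lb = kb + M`.
Top hole ends: positions `0..kt-1`; glued top positions `kt..kt+M-1` (mod `Lt`); same at the bottom.
Vertices of the composite graph: `inl x` top boundary points, `inr y` bottom boundary points
(on the universal covers). -/

section leg

variable {Lt Lb : ℕ}

inductive Step (kt kb M : ℕ) (Pt : Pat Lt) (Pb : Pat Lb) : ℤ ⊕ ℤ → ℤ ⊕ ℤ → Prop
  | top (x : ℤ) : Step kt kb M Pt Pb (Sum.inl x) (Sum.inl (Pt.m x))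
  | bot (y : ℤ) : Step kt kb M Pt Pb (Sum.inr y) (Sum.inr (Pb.m y))
  | glue (a : ℤ) (j : ℕ) (hj : j < M) : Step kt kb M Pt Pb
      (Sum.inl (kt + j + Lt * a)) (Sum.inr (kb + j + Lb * a))

/-- connectivity in the composite graph -/
def Conn (kt kb M : ℕ) (Pt : Pat Lt) (Pb : Pat Lb) : ℤ ⊕ ℤ → ℤ ⊕ ℤ → Prop :=
  Relation.EqvGen (Step kt kb M Pt Pb)

/-- position of the hole end `u` on sheet `a` -/
def hpos (Lt Lb kt kb : ℕ) (u : Fin kt ⊕ Fin kb) (a : ℤ) : ℤ ⊕ ℤ :=
  match u with
  | Sum.inl s => Sum.inl ((s : ℕ) + Lt * a)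
  | Sum.inr s => Sum.inr ((s : ℕ) + Lb * a)

/-- Leg class: every path between two hole ends goes round the cylinder an odd number of times. -/
def Leg (kt kb M : ℕ) (Pt : Pat Lt) (Pb : Pat Lb) : Prop :=
  ∀ (u v : Fin kt ⊕ Fin kb) (a b : ℤ),
    Conn kt kb M Pt Pb (hpos Lt Lb kt kb u a) (hpos Lt Lb kt kb v b) →
    (u = v ∧ a = b) ∨ Odd (b - a)

open Classical in
/-- leg sum of two vectors -/
noncomputable def legSum (kt kb M : ℕ) (v : Pat Lt → ℂ) (w : Pat Lb → ℂ) : ℂ :=
  ∑ Pt, ∑ Pb, if Leg kt kb M Pt Pb then v Pt * w Pb else 0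

end leg

/-- periodic extension of a sequence of parameters -/
def par (L : ℕ) (s : ℕ → ℂ) : ℤ → ℂ := fun x => s (x % (L : ℤ)).toNat

/-- prepend a parameter -/
def scons (a : ℂ) (s : ℕ → ℂ) : ℕ → ℂ
  | 0 => a
  | n + 1 => s n

/-- The (2,2) leg function: top legs `a0,a1`, bottom legs `b0,b1`, `M` glued strands `z`. -/
noncomputable def F22 (Ψ : ∀ L : ℕ, Pat L → (ℤ → ℂ) → ℂ) (M : ℕ) (a0 a1 b0 b1 : ℂ)
    (z : ℕ → ℂ) : ℂ :=
  legSum 2 2 M (fun P : Pat (M + 2) => Ψ (M + 2) P (par (M + 2) (scons a0 (scons a1 z))))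
    (fun P : Pat (M + 2) => Ψ (M + 2) P
      (par (M + 2) (scons b0⁻¹ (scons b1⁻¹ (fun n => (z n)⁻¹)))))

/-- The (1,3) leg function. -/
noncomputable def F13 (Ψ : ∀ L : ℕ, Pat L → (ℤ → ℂ) → ℂ) (M : ℕ) (a b0 b1 b2 : ℂ)
    (z : ℕ → ℂ) : ℂ :=
  legSum 1 3 M (fun P : Pat (M + 1) => Ψ (M + 1) P (par (M + 1) (scons a z)))
    (fun P : Pat (M + 3) => Ψ (M + 3) P
      (par (M + 3) (scons b0⁻¹ (scons b1⁻¹ (scons b2⁻¹ (fun n => (z n)⁻¹))))))

/-- pair weight -/
noncomputable def fpair (ε ε' z w : ℂ) : ℂ :=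
  if ε = ε' then z ^ 2 + z * w + w ^ 2
  else if ε = q then (w - q * z) ^ 3 / (w - z) else (z - q * w) ^ 3 / (z - w)

end H56.EX

end

section

/-!
# LINK module `Potential`: parity potentials

`A : Edge → ZMod 2` supported in rows of absolute value `< H` (the row of `e` is `e.1 + e.2.1`).
Ray potential of the face with lower left corner `(a, b)`: the sum of `A` over the horizontal edges above,
  `pot A H (a, b) = ∑_{j = b + 1}^{H - a - 1} A (a, j, false)`   (all other terms vanish).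
* `pot_hor`: `pot (a, b - 1) + pot (a, b) = A (a, b, false)` (trivial), for all `(a, b)`;
* `pot_ver`: `pot (a - 1, b) + pot (a, b) = A (a, b, true) + ∑_{j > b} vsum A (a, j)` where the sum runs over the
  vertices `(a, j)` with `b < j` (finitely many non zero terms): telescoping of the vertical edges.
So if all vertices have even degree (`vsum A V = 0`) then `pot` is a potential on the whole plane; if the only
vertex with odd degree is `0`, then it is a potential except across the edges `(0, b, true)`, `b < 0`.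
A finite or periodic sum of open paths gives such an `A`: `pathSum` of a list of vertices.
-/

set_option autoImplicit false

namespace Pool.Agent.H89.Link

open Pool.Agent.H89.Perc (Vert Edge Config src tgt lowFace vsum)

/-- The ray potential. -/
noncomputable def pot (A : Edge → ZMod 2) (H : ℕ) (f : Vert) : ZMod 2 :=
  ∑ j ∈ Finset.Ioo f.2 ((H : ℤ) - f.1), A (f.1, j, false)

variable {A : Edge → ZMod 2} {H : ℕ}

/-- the potential vanishes at the levels `≥ H` -/
theorem pot_top (A : Edge → ZMod 2) (H : ℕ) {f : Vert} (hf : (H : ℤ) ≤ f.1 + f.2 + 1) :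
    pot A H f = 0 := by
  unfold pot
  apply Finset.sum_eq_zero
  intro j hj
  rw [Finset.mem_Ioo] at hj
  omega

/-- The upper end of the ray does not matter. -/
private lemma Potential_ext (hA : ∀ e : Edge, ¬ (-(H : ℤ) < e.1 + e.2.1 ∧ e.1 + e.2.1 + 1 < H) →
    A e = 0) (a b K : ℤ) (hK : (H : ℤ) - a ≤ K) :
    pot A H (a, b) = ∑ j ∈ Finset.Ioo b K, A (a, j, false) := by
  unfold pot
  refine Finset.sum_subset ?_ ?_
  · intro j hj
    rw [Finset.mem_Ioo] at hj ⊢
    simp only at hj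
    omega
  · intro j hj hj'
    rw [Finset.mem_Ioo] at hj hj'
    simp only at hj'
    apply hA
    simp only
    omega

private lemma Potential_succ (f : ℤ → ZMod 2) (b K : ℤ) (h : b < K) :
    ∑ j ∈ Finset.Ioo b (K + 1), f j = ∑ j ∈ Finset.Ioo b K, f j + f K := by
  have h1 : Finset.Ioo b (K + 1) = insert K (Finset.Ioo b K) := by
    ext j
    rw [Finset.mem_insert, Finset.mem_Ioo, Finset.mem_Ioo]
    omega
  rw [h1, Finset.sum_insert (by simp), add_comm]

private lemma Potential_tele (g : ℤ → ZMod 2) (b : ℤ) (m : ℕ) :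
    ∑ j ∈ Finset.Ioo b (b + 1 + m), (g j + g (j - 1)) = g b + g (b + m) := by
  induction m with
  | zero =>
    have h1 : Finset.Ioo b (b + 1 + (0 : ℕ)) = ∅ := by
      ext j
      simp only [Finset.mem_Ioo, Finset.notMem_empty, iff_false]
      omega
    rw [h1, Finset.sum_empty]
    simp [CharTwo.add_self_eq_zero]
  | succ m ih =>
    have h1 : b + 1 + ((m + 1 : ℕ) : ℤ) = (b + 1 + m) + 1 := by push_cast; ring
    rw [h1, Potential_succ _ _ _ (by omega), ih]
    have h2 : b + 1 + (m : ℤ) - 1 = b + m := by ring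
    have h3 : b + ((m + 1 : ℕ) : ℤ) = b + 1 + m := by push_cast; ring
    rw [h2, h3]
    have h4 := CharTwo.add_self_eq_zero (g (b + m))
    linear_combination h4

/-- Vertical edges. -/
private lemma Potential_ver (hA : ∀ e : Edge,
    ¬ (-(H : ℤ) < e.1 + e.2.1 ∧ e.1 + e.2.1 + 1 < H) → A e = 0) (a b K : ℤ)
    (hK : (H : ℤ) - a + 1 ≤ K) (hb : b < K) :
    pot A H (a - 1, b) + pot A H (a, b) =
      A (a, b, true) + ∑ j ∈ Finset.Ioo b K, vsum A (a, j) := by
  rw [Potential_ext hA (a - 1) b K (by omega), Potential_ext hA a b K (by omega)]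
  obtain ⟨m, hm⟩ : ∃ m : ℕ, K = b + 1 + m := ⟨(K - b - 1).toNat, by omega⟩
  have h1 := Potential_tele (fun j => A (a, j, true)) b m
  rw [← hm] at h1
  have h2 : A (a, b + m, true) = 0 := by
    apply hA
    simp only
    omega
  simp only [h2, add_zero] at h1
  rw [← h1, ← Finset.sum_add_distrib, ← Finset.sum_add_distrib]
  refine Finset.sum_congr rfl fun j _ => ?_
  unfold vsum
  simp only
  have h3 := CharTwo.add_self_eq_zero (A (a, j, true))
  have h4 := CharTwo.add_self_eq_zero (A (a, j - 1, true))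
  linear_combination -h3 - h4

private lemma Potential_hor (hA : ∀ e : Edge,
    ¬ (-(H : ℤ) < e.1 + e.2.1 ∧ e.1 + e.2.1 + 1 < H) → A e = 0) (a b : ℤ) :
    pot A H (a, b - 1) + pot A H (a, b) = A (a, b, false) := by
  obtain ⟨K, hK1, hK2⟩ : ∃ K : ℤ, (H : ℤ) - a ≤ K ∧ b < K :=
    ⟨max ((H : ℤ) - a) (b + 1), le_max_left _ _, lt_of_lt_of_le (by omega) (le_max_right _ _)⟩
  rw [Potential_ext hA a (b - 1) K hK1, Potential_ext hA a b K hK1]
  have h1 : Finset.Ioo (b - 1) K = insert b (Finset.Ioo b K) := by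
    ext j
    rw [Finset.mem_insert, Finset.mem_Ioo, Finset.mem_Ioo]
    omega
  rw [h1, Finset.sum_insert (by simp), add_assoc, CharTwo.add_self_eq_zero, add_zero]

/-- Potential when all degrees are even. -/
theorem pot_even (hA : ∀ e : Edge, ¬ (-(H : ℤ) < e.1 + e.2.1 ∧ e.1 + e.2.1 + 1 < H) → A e = 0)
    (hv : ∀ V, vsum A V = 0) (e : Edge) : pot A H (lowFace e) + pot A H (src e) = A e := by
  obtain ⟨a, b, t⟩ := e
  cases t
  · exact Potential_hor hA a b
  · have h1 := Potential_ver hA a b (max ((H : ℤ) - a + 1) (b + 1)) (le_max_left _ _)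
      (lt_of_lt_of_le (by omega) (le_max_right _ _))
    rw [Finset.sum_eq_zero (fun j _ => hv _), add_zero] at h1
    exact h1

/-- Potential when `0` is the only vertex of odd degree. -/
theorem pot_odd (hA : ∀ e : Edge, ¬ (-(H : ℤ) < e.1 + e.2.1 ∧ e.1 + e.2.1 + 1 < H) → A e = 0)
    (hv : ∀ V, V ≠ 0 → vsum A V = 0) (h0 : vsum A 0 = 1) (e : Edge) :
    pot A H (lowFace e) + pot A H (src e) =
      A e + if e.2.2 = true ∧ e.1 = 0 ∧ e.2.1 < 0 then 1 else 0 := by
  obtain ⟨a, b, t⟩ := e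
  cases t
  · simp only [Bool.false_eq_true, false_and, if_false, add_zero]
    exact Potential_hor hA a b
  · obtain ⟨K, hK1, hK2, hK3⟩ : ∃ K : ℤ, (H : ℤ) - a + 1 ≤ K ∧ b < K ∧ 0 < K :=
      ⟨max ((H : ℤ) - a + 1) (max (b + 1) 1), le_max_left _ _,
        lt_of_lt_of_le (by omega) ((le_max_left _ _).trans (le_max_right _ _)),
        lt_of_lt_of_le (by omega) ((le_max_right _ _).trans (le_max_right _ _))⟩
    have h1 := Potential_ver hA a b K hK1 hK2
    have h2 : ∑ j ∈ Finset.Ioo b K, vsum A (a, j) = if a = 0 ∧ b < 0 then 1 else 0 := by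
      split_ifs with h
      · obtain ⟨ha, hb⟩ := h
        subst ha
        rw [Finset.sum_eq_single_of_mem (0 : ℤ) (Finset.mem_Ioo.2 ⟨hb, hK3⟩)]
        · exact h0
        · intro j _ hj
          apply hv
          intro h
          exact hj (congrArg Prod.snd h)
      · apply Finset.sum_eq_zero
        intro j hj
        apply hv
        intro h'
        rw [Finset.mem_Ioo] at hj
        have e1 : a = 0 := congrArg Prod.fst h'
        have e2 : j = 0 := congrArg Prod.snd h'
        exact h ⟨e1, by omega⟩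
    rw [h2] at h1
    simp only [true_and]
    exact h1

private lemma Potential_vsum_add (c c' : Edge → ZMod 2) (V : Vert) :
    vsum (fun e => c e + c' e) V = vsum c V + vsum c' V := by
  unfold vsum
  ring

open Classical in
private lemma Potential_vsum_single (e : Edge) (V : Vert) :
    vsum (fun e' => if e' = e then (1 : ZMod 2) else 0) V =
      (if V = src e then 1 else 0) + (if V = tgt e then 1 else 0) := by
  obtain ⟨x, y, t⟩ := e
  obtain ⟨a, b⟩ := V
  cases t
  · have h1 : ((a, b) : Vert) = tgt (x, y, false) ↔ a - 1 = x ∧ b = y := by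
      simp only [tgt, Bool.false_eq_true, if_false, Prod.mk.injEq]
      omega
    simp only [vsum, src, h1, Prod.mk.injEq, and_true, Bool.true_eq_false, and_false, if_false,
      add_zero]
  · have h1 : ((a, b) : Vert) = tgt (x, y, true) ↔ a = x ∧ b - 1 = y := by
      simp only [tgt, if_true, Prod.mk.injEq]
      omega
    simp only [vsum, src, h1, Prod.mk.injEq, and_true, Bool.false_eq_true, and_false, if_false,
      add_zero, zero_add]

/-- An open path gives an edge function with values in `ZMod 2`, supported on open edges between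
vertices of `S`, with odd degree exactly at the two end points (if they are different). -/
theorem exists_pathSum {ω : Config} {S : Set Vert} {u v : Vert} (h : Perc.Conn ω S u v) :
    ∃ c : Edge → ZMod 2, (∀ e, c e ≠ 0 → ω e = true ∧ src e ∈ S ∧ tgt e ∈ S) ∧
      {e | c e ≠ 0}.Finite ∧
      ∀ V, vsum c V = (if V = u then 1 else 0) + (if V = v then 1 else 0) := by
  classical
  refine h.induction_right (P := fun v => ∃ c : Edge → ZMod 2,
    (∀ e, c e ≠ 0 → ω e = true ∧ src e ∈ S ∧ tgt e ∈ S) ∧ {e | c e ≠ 0}.Finite ∧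
      ∀ V, vsum c V = (if V = u then 1 else 0) + (if V = v then 1 else 0)) ?_ ?_
  · refine ⟨fun _ => 0, fun e he => absurd rfl he, by simp, fun V => ?_⟩
    rw [CharTwo.add_self_eq_zero]
    simp [vsum]
  · rintro a b - ⟨ha, hb, e, he, heo⟩ ⟨c, hc1, hc2, hc3⟩
    refine ⟨fun e' => c e' + if e' = e then 1 else 0, ?_, ?_, ?_⟩
    · intro e' he'
      by_cases h1 : e' = e
      · rw [h1]
        rcases he with ⟨g1, g2⟩ | ⟨g1, g2⟩
        · exact ⟨heo, g1 ▸ ha, g2 ▸ hb⟩
        · exact ⟨heo, g2 ▸ hb, g1 ▸ ha⟩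
      · apply hc1
        simpa [h1] using he'
    · refine (hc2.union (Set.finite_singleton e)).subset ?_
      intro e' he'
      by_cases h1 : e' = e
      · exact Or.inr h1
      · left
        simpa [h1] using he'
    · intro V
      rw [Potential_vsum_add, hc3, Potential_vsum_single]
      rcases he with ⟨g1, g2⟩ | ⟨g1, g2⟩
      · rw [g1, g2]
        have h2 := CharTwo.add_self_eq_zero (if V = src e then (1 : ZMod 2) else 0)
        linear_combination h2
      · rw [g1, g2]
        have h2 := CharTwo.add_self_eq_zero (if V = tgt e then (1 : ZMod 2) else 0)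
        linear_combination h2

/-- For a finite set of edges only finitely many translates of an edge meet it. -/
private lemma Potential_fin {ι : Type*} (φ : ι → ℤ) (hφ : Function.Injective φ) (n : ℕ)
    (hn : 1 ≤ n) {c : Edge → ZMod 2} (hc : {e | c e ≠ 0}.Finite) (x y : ℤ) (t : Bool) :
    (Function.support fun k : ι => c (x + n * φ k, y - n * φ k, t)).Finite := by
  refine Set.Finite.preimage (f := fun k : ι => ((x + n * φ k, y - n * φ k, t) : Edge)) ?_ hc
  intro k _ k' _ h
  have h1 := congrArg Prod.fst h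
  simp only at h1
  have h2 : (n : ℤ) * φ k = n * φ k' := by linarith
  exact hφ (mul_left_cancel₀ (by exact_mod_cast (by omega : n ≠ 0)) h2)

private lemma Potential_vsum_finsum {ι : Type*} (φ : ι → ℤ) (hφ : Function.Injective φ) (n : ℕ)
    (hn : 1 ≤ n) {c : Edge → ZMod 2} (hc : {e | c e ≠ 0}.Finite) (V : Vert) :
    vsum (fun e => ∑ᶠ k : ι, c (e.1 + n * φ k, e.2.1 - n * φ k, e.2.2)) V =
      ∑ᶠ k : ι, vsum c (V.1 + n * φ k, V.2 - n * φ k) := by
  have f1 := Potential_fin φ hφ n hn hc V.1 V.2 false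
  have f2 := Potential_fin φ hφ n hn hc V.1 V.2 true
  have f3 := Potential_fin φ hφ n hn hc (V.1 - 1) V.2 false
  have f4 := Potential_fin φ hφ n hn hc V.1 (V.2 - 1) true
  have e3 : ∀ k, V.1 + (n : ℤ) * φ k - 1 = V.1 - 1 + n * φ k := fun k => by ring
  have e4 : ∀ k, V.2 - (n : ℤ) * φ k - 1 = V.2 - 1 - n * φ k := fun k => by ring
  unfold vsum
  simp only [e3, e4]
  have g1 := (f1.union f2).subset (Function.support_add _ _)
  have g2 := (g1.union f3).subset (Function.support_add _ _)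
  rw [finsum_add_distrib g2 f4, finsum_add_distrib g1 f3, finsum_add_distrib f1 f2]

/-- Sum of the translates of a path from `0` to `(n, -n)` by `(n k, - n k)`, `k ≥ 0`. -/
theorem exists_halfSum (n : ℕ) (hn : 1 ≤ n) {c : Edge → ZMod 2} (hc : {e | c e ≠ 0}.Finite)
    (hv : ∀ V : Vert, vsum c V = (if V = 0 then 1 else 0) + (if V = ((n : ℤ), -(n : ℤ)) then 1 else 0)) :
    ∃ C : Edge → ZMod 2, (∀ e, C e ≠ 0 → ∃ k : ℤ, c (e.1 + n * k, e.2.1 - n * k, e.2.2) ≠ 0) ∧
      (∃ B : ℤ, ∀ e, C e ≠ 0 → B ≤ e.1) ∧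
      (∀ V : Vert, V ≠ 0 → vsum C V = 0) ∧ vsum C 0 = 1 := by
  have hn0 : (0 : ℤ) < n := by exact_mod_cast hn
  have hφ : Function.Injective fun k : ℕ => -(k : ℤ) := by
    intro k k' h
    simp only at h
    omega
  obtain ⟨f, hf⟩ : ∃ f : Vert → ℕ → ZMod 2, ∀ V k, f V k =
      if V = ((n : ℤ) * k, -((n : ℤ) * k)) then 1 else 0 := ⟨_, fun _ _ => rfl⟩
  -- the degrees
  have hdeg : ∀ V : Vert, vsum (fun e => ∑ᶠ k : ℕ, c (e.1 + n * -(k : ℤ), e.2.1 - n * -(k : ℤ),
      e.2.2)) V = f V 0 := by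
    intro V
    have h1 := Potential_vsum_finsum (fun k : ℕ => -(k : ℤ)) hφ n hn hc V
    rw [h1]
    have h2 : ∀ k : ℕ, vsum c (V.1 + n * -(k : ℤ), V.2 - n * -(k : ℤ)) = f V k + f V (k + 1) := by
      intro k
      rw [hv, hf, hf]
      congr 1
      · have : ((V.1 + n * -(k : ℤ), V.2 - n * -(k : ℤ)) : Vert) = 0 ↔
            V = ((n : ℤ) * k, -((n : ℤ) * k)) := by
          obtain ⟨x, y⟩ := V
          simp only [Prod.mk_eq_zero, Prod.mk.injEq]
          constructor
          · rintro ⟨h3, h4⟩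
            constructor <;> linarith
          · rintro ⟨h3, h4⟩
            constructor <;> linarith
        simp only [this]
      · have : ((V.1 + n * -(k : ℤ), V.2 - n * -(k : ℤ)) : Vert) = ((n : ℤ), -(n : ℤ)) ↔
            V = ((n : ℤ) * ((k + 1 : ℕ) : ℤ), -((n : ℤ) * ((k + 1 : ℕ) : ℤ))) := by
          obtain ⟨x, y⟩ := V
          simp only [Prod.mk.injEq]
          push_cast
          constructor
          · rintro ⟨h3, h4⟩
            constructor <;> linarith
          · rintro ⟨h3, h4⟩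
            constructor <;> linarith
        simp only [this]
    simp only [h2]
    -- `f V k = 0` for large `k`
    have h3 : ∀ k : ℕ, V.1.natAbs < k → f V k = 0 := by
      intro k hk
      rw [hf, if_neg]
      intro h
      have h4 : V.1 = (n : ℤ) * k := by rw [h]
      have h5 : (k : ℤ) ≤ n * k := by nlinarith
      omega
    rw [finsum_eq_sum_of_support_subset (s := Finset.range (V.1.natAbs + 1))]
    · have h4 : ∀ m : ℕ, ∑ k ∈ Finset.range m, (f V k + f V (k + 1)) = f V 0 + f V m := by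
        intro m
        induction m with
        | zero => simp [CharTwo.add_self_eq_zero]
        | succ m ih =>
          rw [Finset.sum_range_succ, ih]
          have h5 := CharTwo.add_self_eq_zero (f V m)
          linear_combination h5
      rw [h4, h3 (V.1.natAbs + 1) (by omega), add_zero]
    · intro k hk
      rw [Finset.coe_range, Set.mem_Iio]
      by_contra h4
      rw [Function.mem_support] at hk
      apply hk
      rw [h3 k (by omega), h3 (k + 1) (by omega), add_zero]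
  refine ⟨fun e => ∑ᶠ k : ℕ, c (e.1 + n * -(k : ℤ), e.2.1 - n * -(k : ℤ), e.2.2), ?_, ?_, ?_, ?_⟩
  · intro e he
    by_contra hno
    push Not at hno
    exact he (by simp only [hno]; exact finsum_zero)
  · obtain ⟨B, hB⟩ := (hc.image fun e => e.1).bddBelow
    refine ⟨B, fun e he => ?_⟩
    have h1 : ∃ k : ℕ, c (e.1 + n * -(k : ℤ), e.2.1 - n * -(k : ℤ), e.2.2) ≠ 0 := by
      by_contra hno
      push Not at hno
      exact he (by simp only [hno]; exact finsum_zero)
    obtain ⟨k, hk⟩ := h1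
    have h2 : B ≤ e.1 + n * -(k : ℤ) := hB ⟨_, hk, rfl⟩
    have h3 : 0 ≤ (n : ℤ) * k := by positivity
    linarith
  · intro V hV
    rw [hdeg, hf, if_neg]
    intro h
    apply hV
    rw [h]
    simp
  · rw [hdeg, hf, if_pos]
    simp only [Nat.cast_zero, mul_zero, neg_zero]
    rfl

end Pool.Agent.H89.Link

end

section

/-!
# Divided differences

For a polynomial `P` and two different variables `a, b` there is a polynomial `Q` with
`(X a - X b) Q = (q X b - q² X a) P(swap a b) - (q X a - q² X b) P`  (`q² + q + 1 = 0`), and the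
exponents of `Q` lie between exponents of `P`.
-/

namespace Pool.Agent.H12.QKZ

open MvPolynomial

set_option linter.unusedSectionVars false
set_option linter.unusedSimpArgs false

variable {σ K : Type*} [DecidableEq σ] [Field K]

/-- `e'` arises from `e` by moving weight between the variables `a` and `b` without leaving the
interval spanned by `e a` and `e b`. -/
def Between (a b : σ) (e e' : σ →₀ ℕ) : Prop :=
  (∀ c, c ≠ a → c ≠ b → e' c = e c) ∧ e' a + e' b = e a + e b ∧
    min (e a) (e b) ≤ e' a ∧ e' a ≤ max (e a) (e b)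

/-- The right-hand side of the divided difference equation. -/
noncomputable def ddNum (q : K) (a b : σ) (P : MvPolynomial σ K) : MvPolynomial σ K :=
  (C q * X b - C (q ^ 2) * X a) * rename (Equiv.swap a b) P
    - (C q * X a - C (q ^ 2) * X b) * P

theorem ddNum_add (q : K) (a b : σ) (P P' : MvPolynomial σ K) :
    ddNum q a b (P + P') = ddNum q a b P + ddNum q a b P' := by
  simp only [ddNum, map_add]; ring

/-- The property that `Q` is a divided difference of `P` with exponents between those of `P`. -/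
def IsDD (q : K) (a b : σ) (P Q : MvPolynomial σ K) : Prop :=
  (X a - X b) * Q = ddNum q a b P ∧ ∀ e' ∈ Q.support, ∃ e ∈ P.support, Between a b e e'

/-- Remove the variables `a` and `b` from an exponent. -/
noncomputable def rest (a b : σ) (e : σ →₀ ℕ) : σ →₀ ℕ :=
  e - Finsupp.single a (e a) - Finsupp.single b (e b)

theorem rest_left {a b : σ} (e : σ →₀ ℕ) : rest a b e a = 0 := by
  simp [rest]

theorem rest_right {a b : σ} (hab : a ≠ b) (e : σ →₀ ℕ) : rest a b e b = 0 := by
  simp [rest, Finsupp.single_apply, hab]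

theorem rest_of_ne {a b c : σ} (hca : c ≠ a) (hcb : c ≠ b) (e : σ →₀ ℕ) : rest a b e c = e c := by
  simp [rest, Finsupp.single_apply, Ne.symm hca, Ne.symm hcb]

theorem rest_add {a b : σ} (hab : a ≠ b) (e : σ →₀ ℕ) :
    rest a b e + Finsupp.single a (e a) + Finsupp.single b (e b) = e := by
  ext d
  by_cases hda : d = a
  · subst hda; simp [rest_left, Finsupp.single_apply, hab.symm]
  · by_cases hdb : d = b
    · subst hdb; simp [rest_right hab, Finsupp.single_apply, hab]
    · simp [rest_of_ne hda hdb, Finsupp.single_apply, Ne.symm hda, Ne.symm hdb]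

/-- Split a monomial. -/
theorem monomial_split {a b : σ} (hab : a ≠ b) (e : σ →₀ ℕ) (c : K) :
    monomial e c = monomial (rest a b e) c * X a ^ (e a) * X b ^ (e b) := by
  rw [X_pow_eq_monomial, X_pow_eq_monomial, monomial_mul, monomial_mul, mul_one, mul_one,
    rest_add hab]

theorem rename_rest {a b : σ} (hab : a ≠ b) (e : σ →₀ ℕ) (c : K) :
    rename (Equiv.swap a b) (monomial (rest a b e) c) = monomial (rest a b e) c := by
  rw [rename_monomial]
  have : Finsupp.mapDomain (⇑(Equiv.swap a b)) (rest a b e) = rest a b e := by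
    ext d
    have h1 : (Finsupp.mapDomain (⇑(Equiv.swap a b)) (rest a b e)) d
        = (rest a b e) (Equiv.swap a b d) := by
      conv_lhs => rw [show d = Equiv.swap a b (Equiv.swap a b d) by simp]
      exact Finsupp.mapDomain_apply (Equiv.swap a b).injective _ _
    rw [h1]
    by_cases hda : d = a
    · subst hda; rw [Equiv.swap_apply_left, rest_left, rest_right hab]
    · by_cases hdb : d = b
      · subst hdb; rw [Equiv.swap_apply_right, rest_left, rest_right hab]
      · rw [Equiv.swap_apply_of_ne_of_ne hda hdb]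
  rw [this]

theorem rename_split {a b : σ} (hab : a ≠ b) (e : σ →₀ ℕ) (c : K) :
    rename (Equiv.swap a b) (monomial e c)
      = monomial (rest a b e) c * X b ^ (e a) * X a ^ (e b) := by
  rw [monomial_split hab e c, map_mul, map_mul, map_pow, map_pow, rename_X, rename_X,
    Equiv.swap_apply_left, Equiv.swap_apply_right, rename_rest hab]

/-- All exponents of `Q` are between `e`. -/
def InT (a b : σ) (e : σ →₀ ℕ) (Q : MvPolynomial σ K) : Prop :=
  ∀ e', coeff e' Q ≠ 0 → Between a b e e'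

theorem InT.add {a b : σ} {e : σ →₀ ℕ} {Q Q' : MvPolynomial σ K} (h : InT a b e Q)
    (h' : InT a b e Q') : InT a b e (Q + Q') := by
  intro e' he'
  rw [coeff_add] at he'
  by_cases h0 : coeff e' Q = 0
  · rw [h0, zero_add] at he'; exact h' e' he'
  · exact h e' h0

theorem InT.zero (a b : σ) (e : σ →₀ ℕ) : InT a b e (0 : MvPolynomial σ K) := by
  intro e' he'; simp at he'

theorem InT.smulC {a b : σ} {e : σ →₀ ℕ} {Q : MvPolynomial σ K} (h : InT a b e Q) (x : K) :
    InT a b e (C x * Q) := by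
  intro e' he'
  rw [coeff_C_mul] at he'
  exact h e' (right_ne_zero_of_mul he')

theorem InT.sum {a b : σ} {e : σ →₀ ℕ} {ι : Type*} {s : Finset ι} {Q : ι → MvPolynomial σ K}
    (h : ∀ i ∈ s, InT a b e (Q i)) : InT a b e (∑ i ∈ s, Q i) := by
  classical
  induction s using Finset.induction_on with
  | empty => simpa using InT.zero a b e
  | insert i s hi ih =>
    rw [Finset.sum_insert hi]
    exact (h i (Finset.mem_insert_self _ _)).add
      (ih fun j hj => h j (Finset.mem_insert_of_mem hj))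

theorem InT.mono {a b : σ} (hab : a ≠ b) (e : σ →₀ ℕ) (c : K) (α β : ℕ)
    (h1 : α + β = e a + e b) (h2 : min (e a) (e b) ≤ α) (h3 : α ≤ max (e a) (e b)) :
    InT a b e (monomial (rest a b e) c * X a ^ α * X b ^ β) := by
  intro e' he'
  rw [X_pow_eq_monomial, X_pow_eq_monomial, monomial_mul, monomial_mul, mul_one, mul_one,
    coeff_monomial] at he'
  split_ifs at he' with hh
  · subst hh
    have ha : (rest a b e + Finsupp.single a α + Finsupp.single b β) a = α := by
      simp [rest_left, Finsupp.single_apply, hab.symm]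
    have hb : (rest a b e + Finsupp.single a α + Finsupp.single b β) b = β := by
      simp [rest_right hab, Finsupp.single_apply, hab]
    refine ⟨fun d hda hdb => ?_, ?_, ?_, ?_⟩
    · simp [rest_of_ne hda hdb, Finsupp.single_apply, Ne.symm hda, Ne.symm hdb]
    · rw [ha, hb, h1]
    · rw [ha]; exact h2
    · rw [ha]; exact h3
  · exact absurd rfl he'

/-- The geometric part of the divided difference. -/
theorem InT.lin {a b : σ} (hab : a ≠ b) (e : σ →₀ ℕ) (c q : K) (l k : ℕ)
    (hl : l = min (e a) (e b)) (hk : l + k = max (e a) (e b)) :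
    InT a b e ((C q * X b - C (q ^ 2) * X a) *
      (monomial (rest a b e) c * (X a * X b) ^ l *
        ∑ i ∈ Finset.range k, X a ^ i * X b ^ (k - 1 - i))) := by
  have hsum : min (e a) (e b) + max (e a) (e b) = e a + e b := min_add_max _ _
  have h : (C q * X b - C (q ^ 2) * X a) *
      (monomial (rest a b e) c * (X a * X b) ^ l *
        ∑ i ∈ Finset.range k, X a ^ i * X b ^ (k - 1 - i))
      = ∑ i ∈ Finset.range k, (C q * (monomial (rest a b e) c * X a ^ (l + i) *
            X b ^ (l + (k - 1 - i) + 1))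
          + C (-q ^ 2) * (monomial (rest a b e) c * X a ^ (l + i + 1) *
            X b ^ (l + (k - 1 - i)))) := by
    rw [Finset.mul_sum, Finset.mul_sum]
    refine Finset.sum_congr rfl fun i _ => ?_
    rw [map_neg]
    ring
  rw [h]
  refine InT.sum fun i hi => ?_
  rw [Finset.mem_range] at hi
  refine (InT.smulC (InT.mono hab e c _ _ ?_ ?_ ?_) _).add
    (InT.smulC (InT.mono hab e c _ _ ?_ ?_ ?_) _) <;> omega

theorem exists_dd_monomial {q : K} (hq : q ^ 2 + q + 1 = 0) {a b : σ} (hab : a ≠ b)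
    (e : σ →₀ ℕ) (c : K) : ∃ Q : MvPolynomial σ K,
      (X a - X b) * Q = ddNum q a b (monomial e c) ∧ InT a b e Q := by
  have hq' : (C q : MvPolynomial σ K) + C (q ^ 2) = -1 := by
    rw [← map_add, ← map_one C, ← map_neg]
    congr 1; linear_combination hq
  rcases le_total (e b) (e a) with h | h
  · obtain ⟨k, hk⟩ := Nat.exists_eq_add_of_le h
    refine ⟨monomial (rest a b e) c * X a ^ (e a) * X b ^ (e b) +
      C (-1) * ((C q * X b - C (q ^ 2) * X a) *
        (monomial (rest a b e) c * (X a * X b) ^ (e b) *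
        ∑ i ∈ Finset.range k, X a ^ i * X b ^ (k - 1 - i))), ?_, ?_⟩
    · unfold ddNum
      rw [rename_split hab, monomial_split hab e c]
      have hg := Commute.geom_sum₂_mul (Commute.all (X a : MvPolynomial σ K) (X b)) k
      rw [map_neg, map_one, hk]
      linear_combination
        (-(C q * X b - C (q ^ 2) * X a) * monomial (rest a b e) c * (X a * X b) ^ (e b)) * hg
        + monomial (rest a b e) c * (X a * X b) ^ (e b) * X a ^ k * (X a - X b) * hq'
    · refine (InT.mono hab e c _ _ rfl (min_le_left _ _) (le_max_left _ _)).add (InT.smulC ?_ _)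
      exact InT.lin hab e c q _ _ (by rw [min_eq_right h]) (by rw [max_eq_left h, hk])
  · obtain ⟨k, hk⟩ := Nat.exists_eq_add_of_le h
    refine ⟨monomial (rest a b e) c * X a ^ (e a) * X b ^ (e b) +
      (C q * X b - C (q ^ 2) * X a) *
        (monomial (rest a b e) c * (X a * X b) ^ (e a) *
        ∑ i ∈ Finset.range k, X a ^ i * X b ^ (k - 1 - i)), ?_, ?_⟩
    · unfold ddNum
      rw [rename_split hab, monomial_split hab e c]
      have hg := Commute.geom_sum₂_mul (Commute.all (X a : MvPolynomial σ K) (X b)) k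
      rw [hk]
      linear_combination
        ((C q * X b - C (q ^ 2) * X a) * monomial (rest a b e) c * (X a * X b) ^ (e a)) * hg
        + monomial (rest a b e) c * (X a * X b) ^ (e a) * X b ^ k * (X a - X b) * hq'
    · refine (InT.mono hab e c _ _ rfl (min_le_left _ _) (le_max_left _ _)).add ?_
      exact InT.lin hab e c q _ _ (by rw [min_eq_left h]) (by rw [max_eq_right h, hk])

/-- Divided differences of polynomials exist. -/
theorem exists_dd {q : K} (hq : q ^ 2 + q + 1 = 0) {a b : σ} (hab : a ≠ b)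
    (P : MvPolynomial σ K) : ∃ Q, IsDD q a b P Q := by
  classical
  choose F hF1 hF2 using fun (e : σ →₀ ℕ) (c : K) => exists_dd_monomial hq hab e c
  refine ⟨∑ e ∈ P.support, F e (coeff e P), ?_, ?_⟩
  · conv_rhs => rw [P.as_sum]
    rw [Finset.mul_sum]
    have hlin : ∀ s : Finset (σ →₀ ℕ), ddNum q a b (∑ e ∈ s, monomial e (coeff e P))
        = ∑ e ∈ s, ddNum q a b (monomial e (coeff e P)) := by
      intro s
      induction s using Finset.induction_on with
      | empty => simp [ddNum]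
      | insert i s hi ih => rw [Finset.sum_insert hi, Finset.sum_insert hi, ddNum_add, ih]
    rw [hlin]
    exact Finset.sum_congr rfl fun e _ => hF1 e _
  · intro e' he'
    rw [mem_support_iff, coeff_sum] at he'
    obtain ⟨e, he, hne⟩ := Finset.exists_ne_zero_of_sum_ne_zero he'
    exact ⟨e, he, hF2 e _ e' hne⟩

end Pool.Agent.H12.QKZ

end

section

/-!
# Joint degree and joint order
-/

namespace Pool.Agent.H12.QKZ

open MvPolynomial

set_option linter.unusedSectionVars false
set_option linter.unusedSimpArgs false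

variable {σ K : Type*} [DecidableEq σ] [Field K]

/-- All exponents of `P` have joint degree in `S` between `lo` and `up`. -/
def Bd (S : Finset σ) (lo up : ℕ) (P : MvPolynomial σ K) : Prop :=
  ∀ e, coeff e P ≠ 0 → lo ≤ ∑ c ∈ S, e c ∧ ∑ c ∈ S, e c ≤ up

/-- For every set `S` of variables the joint degree of `P` in `S` is between `lo |S|` and
`up |S|`. -/
def JointBd (lo up : ℕ → ℕ) (P : MvPolynomial σ K) : Prop :=
  ∀ S : Finset σ, Bd S (lo S.card) (up S.card) P

theorem Bd.add {S : Finset σ} {lo up : ℕ} {P Q : MvPolynomial σ K} (h : Bd S lo up P)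
    (h' : Bd S lo up Q) : Bd S lo up (P + Q) := by
  intro e he
  rw [coeff_add] at he
  by_cases h0 : coeff e P = 0
  · rw [h0, zero_add] at he; exact h' e he
  · exact h e h0

theorem Bd.zero (S : Finset σ) (lo up : ℕ) : Bd S lo up (0 : MvPolynomial σ K) := by
  intro e he; simp at he

theorem Bd.neg {S : Finset σ} {lo up : ℕ} {P : MvPolynomial σ K} (h : Bd S lo up P) :
    Bd S lo up (-P) := by
  intro e he
  rw [coeff_neg, neg_ne_zero] at he
  exact h e he

theorem Bd.sub {S : Finset σ} {lo up : ℕ} {P Q : MvPolynomial σ K} (h : Bd S lo up P)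
    (h' : Bd S lo up Q) : Bd S lo up (P - Q) := by
  rw [sub_eq_add_neg]; exact h.add h'.neg

theorem Bd.mul {S : Finset σ} {lo up lo' up' : ℕ} {P Q : MvPolynomial σ K} (h : Bd S lo up P)
    (h' : Bd S lo' up' Q) : Bd S (lo + lo') (up + up') (P * Q) := by
  intro e he
  rw [coeff_mul] at he
  obtain ⟨⟨e1, e2⟩, hmem, hne⟩ := Finset.exists_ne_zero_of_sum_ne_zero he
  rw [Finset.HasAntidiagonal.mem_antidiagonal] at hmem
  simp only at hmem hne
  obtain ⟨a1, a2⟩ := h e1 (left_ne_zero_of_mul hne)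
  obtain ⟨b1, b2⟩ := h' e2 (right_ne_zero_of_mul hne)
  have : ∑ c ∈ S, e c = ∑ c ∈ S, e1 c + ∑ c ∈ S, e2 c := by
    rw [← Finset.sum_add_distrib]
    refine Finset.sum_congr rfl fun c _ => ?_
    rw [← hmem]; rfl
  omega

theorem Bd.one (S : Finset σ) : Bd S 0 0 (1 : MvPolynomial σ K) := by
  intro e he
  rw [coeff_one] at he
  split_ifs at he with h
  · subst h; simp
  · exact absurd rfl he

theorem Bd.prod {S : Finset σ} {ι : Type*} (s : Finset ι) (lo up : ι → ℕ)
    (P : ι → MvPolynomial σ K) (h : ∀ i ∈ s, Bd S (lo i) (up i) (P i)) :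
    Bd S (∑ i ∈ s, lo i) (∑ i ∈ s, up i) (∏ i ∈ s, P i) := by
  classical
  induction s using Finset.induction_on with
  | empty => simpa using Bd.one S
  | insert i s hi ih =>
    rw [Finset.sum_insert hi, Finset.sum_insert hi, Finset.prod_insert hi]
    exact (h i (Finset.mem_insert_self _ _)).mul
      (ih fun j hj => h j (Finset.mem_insert_of_mem hj))

theorem Bd.C_mul {S : Finset σ} {lo up : ℕ} {P : MvPolynomial σ K} (h : Bd S lo up P) (x : K) :
    Bd S lo up (C x * P) := by
  intro e he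
  rw [coeff_C_mul] at he
  exact h e (right_ne_zero_of_mul he)

theorem Bd.var (S : Finset σ) (a : σ) :
    Bd S (if a ∈ S then 1 else 0) (if a ∈ S then 1 else 0) (X a : MvPolynomial σ K) := by
  intro e he
  rw [coeff_X] at he
  split_ifs at he with h
  · subst h
    have : ∑ c ∈ S, (Finsupp.single a 1 : σ →₀ ℕ) c = if a ∈ S then 1 else 0 := by
      simp [Finsupp.single_apply]
    rw [this]; simp
  · exact absurd rfl he

theorem Bd.mono {S : Finset σ} {lo up lo' up' : ℕ} {P : MvPolynomial σ K} (h : Bd S lo up P)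
    (h1 : lo' ≤ lo) (h2 : up ≤ up') : Bd S lo' up' P :=
  fun e he => ⟨h1.trans (h e he).1, (h e he).2.trans h2⟩

/-- A linear form in two variables. -/
theorem Bd.lin (S : Finset σ) (a b : σ) (x y : K) :
    Bd S (if a ∈ S ∧ b ∈ S then 1 else 0) (if a ∈ S ∨ b ∈ S then 1 else 0)
      (C x * X b - C y * X a) := by
  refine Bd.sub ?_ ?_
  · refine (Bd.C_mul (Bd.var S b) x).mono ?_ ?_ <;> split_ifs <;> simp_all
  · refine (Bd.C_mul (Bd.var S a) y).mono ?_ ?_ <;> split_ifs <;> simp_all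

theorem JointBd.sub {lo up : ℕ → ℕ} {P Q : MvPolynomial σ K} (h : JointBd lo up P)
    (h' : JointBd lo up Q) : JointBd lo up (P - Q) := fun S => (h S).sub (h' S)

theorem JointBd.add {lo up : ℕ → ℕ} {P Q : MvPolynomial σ K} (h : JointBd lo up P)
    (h' : JointBd lo up Q) : JointBd lo up (P + Q) := fun S => (h S).add (h' S)

theorem JointBd.zero (lo up : ℕ → ℕ) : JointBd lo up (0 : MvPolynomial σ K) :=
  fun S => Bd.zero S _ _

theorem JointBd.sum {lo up : ℕ → ℕ} {ι : Type*} (s : Finset ι) (P : ι → MvPolynomial σ K)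
    (h : ∀ i ∈ s, JointBd lo up (P i)) : JointBd lo up (∑ i ∈ s, P i) := by
  classical
  induction s using Finset.induction_on with
  | empty => simpa using JointBd.zero lo up
  | insert i s hi ih =>
    rw [Finset.sum_insert hi]
    exact (h i (Finset.mem_insert_self _ _)).add
      (ih fun j hj => h j (Finset.mem_insert_of_mem hj))

/-- Divided differences preserve joint bounds. -/
theorem JointBd.dd {lo up : ℕ → ℕ} {q : K} {a b : σ} (hab : a ≠ b) {P Q : MvPolynomial σ K}
    (h : JointBd lo up P) (hQ : IsDD q a b P Q) : JointBd lo up Q := by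
  intro S e' he'
  obtain ⟨e, he, h1, h2, h3, h4⟩ := hQ.2 e' (mem_support_iff.2 he')
  rw [mem_support_iff] at he
  by_cases ha : a ∈ S <;> by_cases hb : b ∈ S
  · have key : ∀ f : σ →₀ ℕ, ∑ c ∈ S, f c = f a + (f b + ∑ c ∈ (S.erase a).erase b, f c) := by
      intro f
      rw [← Finset.add_sum_erase S _ ha,
        ← Finset.add_sum_erase (S.erase a) _ (Finset.mem_erase.2 ⟨hab.symm, hb⟩)]
    have hr : ∑ c ∈ (S.erase a).erase b, e' c = ∑ c ∈ (S.erase a).erase b, e c := by
      refine Finset.sum_congr rfl fun c hc => ?_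
      simp only [Finset.mem_erase] at hc
      exact h1 c hc.2.1 hc.1
    have h0 := h S e he
    rw [key e'] ; rw [key e] at h0
    omega
  · have key : ∀ f : σ →₀ ℕ, ∑ c ∈ S, f c = f a + ∑ c ∈ S.erase a, f c := by
      intro f; rw [← Finset.add_sum_erase S _ ha]
    have hr : ∑ c ∈ S.erase a, e' c = ∑ c ∈ S.erase a, e c := by
      refine Finset.sum_congr rfl fun c hc => ?_
      simp only [Finset.mem_erase] at hc
      exact h1 c hc.1 (fun hcb => hb (hcb ▸ hc.2))
    have h0 := h S e he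
    have hb' : b ∉ S.erase a := fun hh => hb (Finset.mem_of_mem_erase hh)
    have h0' := h (insert b (S.erase a)) e he
    have hcard : (insert b (S.erase a)).card = S.card := by
      rw [Finset.card_insert_of_notMem hb', Finset.card_erase_of_mem ha]
      have : 0 < S.card := Finset.card_pos.2 ⟨a, ha⟩
      omega
    rw [hcard, Finset.sum_insert hb'] at h0'
    rw [key e']; rw [key e] at h0
    omega
  · have key : ∀ f : σ →₀ ℕ, ∑ c ∈ S, f c = f b + ∑ c ∈ S.erase b, f c := by
      intro f; rw [← Finset.add_sum_erase S _ hb]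
    have hr : ∑ c ∈ S.erase b, e' c = ∑ c ∈ S.erase b, e c := by
      refine Finset.sum_congr rfl fun c hc => ?_
      simp only [Finset.mem_erase] at hc
      exact h1 c (fun hca => ha (hca ▸ hc.2)) hc.1
    have h0 := h S e he
    have ha' : a ∉ S.erase b := fun hh => ha (Finset.mem_of_mem_erase hh)
    have h0' := h (insert a (S.erase b)) e he
    have hcard : (insert a (S.erase b)).card = S.card := by
      rw [Finset.card_insert_of_notMem ha', Finset.card_erase_of_mem hb]
      have : 0 < S.card := Finset.card_pos.2 ⟨b, hb⟩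
      omega
    rw [hcard, Finset.sum_insert ha'] at h0'
    rw [key e']; rw [key e] at h0
    omega
  · have hr : ∑ c ∈ S, e' c = ∑ c ∈ S, e c := by
      refine Finset.sum_congr rfl fun c hc => ?_
      exact h1 c (fun hca => ha (hca ▸ hc)) (fun hcb => hb (hcb ▸ hc))
    have h0 := h S e he
    omega

/-- Renaming by a permutation preserves joint bounds. -/
theorem JointBd.rename {lo up : ℕ → ℕ} (f : Equiv.Perm σ) {P : MvPolynomial σ K}
    (h : JointBd lo up P) : JointBd lo up (MvPolynomial.rename f P) := by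
  intro S e he
  have hcoeff : coeff e (MvPolynomial.rename f P)
      = coeff (e.mapDomain f.symm) P := by
    conv_lhs => rw [show e = (e.mapDomain f.symm).mapDomain f by
      rw [← Finsupp.mapDomain_comp]; simp]
    exact coeff_rename_mapDomain f f.injective _ _
  rw [hcoeff] at he
  have h0 := h (S.map f.symm.toEmbedding) _ he
  rw [Finset.card_map, Finset.sum_map] at h0
  have : ∀ c, (e.mapDomain f.symm) (f.symm.toEmbedding c) = e c := fun c =>
    Finsupp.mapDomain_apply f.symm.injective _ _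
  simpa only [this] using h0

end Pool.Agent.H12.QKZ

end

section

/-!
# The weights of the R-matrix

`bw q z w = (z - w) / (q w - q² z)` with `q² + q + 1 = 0` (so `q² = q⁻¹`), and its value on the unit
circle, where it is real.
-/

namespace Pool.Agent.H12.QKZ

section field

variable {K : Type*} [Field K]

/-- Weight of `e` in the R-matrix. -/
def bw (q z w : K) : K := (z - w) / (q * w - q ^ 2 * z)

theorem q_cube {q : K} (hq : q ^ 2 + q + 1 = 0) : q ^ 3 = 1 := by
  linear_combination (q - 1) * hq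

theorem q_ne_zero {q : K} (hq : q ^ 2 + q + 1 = 0) : q ≠ 0 := by
  rintro rfl; simp at hq

theorem bw_unitary {q : K} (hq : q ^ 2 + q + 1 = 0) {z w : K} (h1 : q * w - q ^ 2 * z ≠ 0)
    (h2 : q * z - q ^ 2 * w ≠ 0) : bw q z w + bw q w z = bw q z w * bw q w z := by
  unfold bw
  rw [div_add_div _ _ h1 h2, div_mul_div_comm]
  congr 1
  linear_combination ((z - w) ^ 2) * hq

theorem bw_ybe {q : K} (hq : q ^ 2 + q + 1 = 0) {x y z : K} (h1 : q * y - q ^ 2 * x ≠ 0)
    (h2 : q * z - q ^ 2 * x ≠ 0) (h3 : q * z - q ^ 2 * y ≠ 0) :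
    bw q x z * (1 - bw q x y * bw q y z) = bw q x y + bw q y z - bw q x y * bw q y z := by
  unfold bw
  obtain ⟨A, hA⟩ : ∃ A, A = q * y - q ^ 2 * x := ⟨_, rfl⟩
  obtain ⟨B, hB⟩ : ∃ B, B = q * z - q ^ 2 * x := ⟨_, rfl⟩
  obtain ⟨C, hC⟩ : ∃ C, C = q * z - q ^ 2 * y := ⟨_, rfl⟩
  rw [← hA] at h1 ⊢
  rw [← hB] at h2 ⊢
  rw [← hC] at h3 ⊢
  have key : (x - z) * (A * C - (x - y) * (y - z))
      = (x - y) * B * C + (y - z) * A * B - (x - y) * (y - z) * B := by
    subst hA hB hC
    linear_combination (q * x * y * z - q * x * y ^ 2 + q * x ^ 2 * y - q * x ^ 2 * z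
      - q ^ 2 * x * y * z + q ^ 2 * x * y ^ 2 - q ^ 2 * x ^ 2 * y + q ^ 2 * x ^ 2 * z
      + x * y ^ 2 - x * z ^ 2 - x ^ 2 * y + x ^ 2 * z + y * z ^ 2 - y ^ 2 * z) * hq
  have e1 : (x - z) / B * (1 - (x - y) / A * ((y - z) / C))
      = (x - z) * (A * C - (x - y) * (y - z)) / (A * B * C) := by
    field_simp
  have e2 : (x - y) / A + (y - z) / C - (x - y) / A * ((y - z) / C)
      = ((x - y) * B * C + (y - z) * A * B - (x - y) * (y - z) * B) / (A * B * C) := by
    field_simp
  rw [e1, e2, key]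

end field

end Pool.Agent.H12.QKZ

end

section

/-!
# The weights on the unit circle
-/

namespace Pool.Agent.H12.QKZ

open Complex

/-- The cube root of unity `e^{2πi/3}`. -/
noncomputable def qc : ℂ := Complex.exp ((2 * Real.pi / 3 : ℝ) * I)

theorem qc_cos_sin : qc = (-1 / 2 : ℝ) + (Real.sqrt 3 / 2 : ℝ) * I := by
  unfold qc
  rw [Complex.exp_mul_I, ← Complex.ofReal_cos, ← Complex.ofReal_sin]
  have h1 : Real.cos (2 * Real.pi / 3) = -1 / 2 := by
    rw [show 2 * Real.pi / 3 = Real.pi - Real.pi / 3 by ring, Real.cos_pi_sub,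
      Real.cos_pi_div_three]
    ring
  have h2 : Real.sin (2 * Real.pi / 3) = Real.sqrt 3 / 2 := by
    rw [show 2 * Real.pi / 3 = Real.pi - Real.pi / 3 by ring, Real.sin_pi_sub,
      Real.sin_pi_div_three]
  rw [h1, h2]

theorem qc_eq : qc ^ 2 + qc + 1 = 0 := by
  have hne : qc ≠ 1 := by
    rw [qc_cos_sin]
    intro h
    have := congrArg Complex.re h
    simp at this
    norm_num at this
  have h3 : qc ^ 3 = 1 := by
    unfold qc
    rw [← Complex.exp_nat_mul]
    rw [show ((3 : ℕ) : ℂ) * (((2 * Real.pi / 3 : ℝ) : ℂ) * I) = 2 * Real.pi * I by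
      push_cast; ring]
    exact Complex.exp_two_pi_mul_I
  have : (qc - 1) * (qc ^ 2 + qc + 1) = 0 := by linear_combination h3
  rcases mul_eq_zero.1 this with h | h
  · exact absurd (sub_eq_zero.1 h) hne
  · exact h

/-- Real form of the weight. -/
noncomputable def br (δ : ℝ) : ℝ := Real.sin (δ / 2) / Real.sin (2 * Real.pi / 3 - δ / 2)

/-- Points of the unit circle. -/
noncomputable def zc (t : ℝ) : ℂ := Complex.exp ((t : ℂ) * I)

theorem zc_sub (t s : ℝ) : zc t - zc s
    = Complex.exp (((t + s) / 2 : ℝ) * I) * (2 * I) * (Real.sin ((t - s) / 2) : ℝ) := by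
  have h1 : zc t = Complex.exp (((t + s) / 2 : ℝ) * I) * Complex.exp (((t - s) / 2 : ℝ) * I) := by
    rw [← Complex.exp_add]; unfold zc; congr 1; push_cast; ring
  have h2 : zc s = Complex.exp (((t + s) / 2 : ℝ) * I) * Complex.exp (-((t - s) / 2 : ℝ) * I) := by
    rw [← Complex.exp_add]; unfold zc; congr 1; push_cast; ring
  rw [h1, h2, ← mul_sub, mul_assoc]
  congr 1
  rw [Complex.ofReal_sin, Complex.sin]
  have : I * I = -1 := Complex.I_mul_I
  linear_combination
    (Complex.exp (((t - s) / 2 : ℝ) * I) - Complex.exp (-((t - s) / 2 : ℝ) * I)) * this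

theorem den_eq (t s : ℝ) : qc * zc s - qc ^ 2 * zc t
    = Complex.exp (((t + s) / 2 : ℝ) * I) * (2 * I) *
      (Real.sin (2 * Real.pi / 3 - (t - s) / 2) : ℝ) := by
  have h1 : qc * zc s = zc (2 * Real.pi / 3 + s) := by
    unfold qc zc; rw [← Complex.exp_add]; congr 1; push_cast; ring
  have h2 : qc ^ 2 * zc t = zc (t - 2 * Real.pi / 3) := by
    unfold qc zc
    rw [← Complex.exp_nat_mul, ← Complex.exp_add]
    have : Complex.exp (((2 : ℕ) : ℂ) * (((2 * Real.pi / 3 : ℝ) : ℂ) * I) + (t : ℂ) * I)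
        = Complex.exp (((t - 2 * Real.pi / 3 : ℝ) : ℂ) * I + 2 * Real.pi * I) := by
      congr 1; push_cast; ring
    rw [this, Complex.exp_add, Complex.exp_two_pi_mul_I, mul_one]
  rw [h1, h2, zc_sub]
  congr 3
  · congr 2; push_cast; ring
  · congr 1; ring_nf

theorem sin_den_pos {δ : ℝ} (h1 : -(2 * Real.pi / 3) < δ) (h2 : δ < 4 * Real.pi / 3) :
    0 < Real.sin (2 * Real.pi / 3 - δ / 2) := by
  apply Real.sin_pos_of_pos_of_lt_pi <;> linarith [Real.pi_pos]

theorem den_ne_zero {t s : ℝ} (h1 : -(2 * Real.pi / 3) < t - s) (h2 : t - s < 4 * Real.pi / 3) :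
    qc * zc s - qc ^ 2 * zc t ≠ 0 := by
  rw [den_eq]
  refine mul_ne_zero (mul_ne_zero (Complex.exp_ne_zero _) ?_) ?_
  · simp
  · exact_mod_cast (sin_den_pos h1 h2).ne'

theorem bw_zc {t s : ℝ} : bw qc (zc t) (zc s) = (br (t - s) : ℝ) := by
  unfold bw br
  rw [den_eq, zc_sub, mul_div_mul_left]
  · push_cast; rfl
  · refine mul_ne_zero (Complex.exp_ne_zero _) ?_
    simp

theorem br_unitary {δ : ℝ} (h1 : -(2 * Real.pi / 3) < δ) (h2 : δ < 2 * Real.pi / 3) :
    br δ + br (-δ) = br δ * br (-δ) := by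
  have h := bw_unitary (K := ℂ) qc_eq (z := zc δ) (w := zc 0)
    (den_ne_zero (by simpa using h1) (by simpa using by linarith [Real.pi_pos]))
    (den_ne_zero (t := 0) (s := δ) (by linarith) (by linarith))
  rw [bw_zc, bw_zc, sub_zero, zero_sub] at h
  exact_mod_cast h

theorem br_ybe {x y z : ℝ} (h1 : |x - y| < 2 * Real.pi / 3) (h2 : |x - z| < 2 * Real.pi / 3)
    (h3 : |y - z| < 2 * Real.pi / 3) :
    br (x - z) * (1 - br (x - y) * br (y - z))
      = br (x - y) + br (y - z) - br (x - y) * br (y - z) := by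
  have hh : ∀ {a b : ℝ}, |a - b| < 2 * Real.pi / 3 → qc * zc b - qc ^ 2 * zc a ≠ 0 := by
    intro a b hab
    rw [abs_lt] at hab
    exact den_ne_zero hab.1 (by linarith [hab.2, Real.pi_pos])
  have h := bw_ybe (K := ℂ) qc_eq (hh h1) (hh h2) (hh h3)
  rw [bw_zc, bw_zc, bw_zc] at h
  exact_mod_cast h

theorem br_pos {δ : ℝ} (h1 : 0 < δ) (h2 : δ < 2 * Real.pi / 3) : 0 < br δ := by
  apply div_pos
  · apply Real.sin_pos_of_pos_of_lt_pi <;> linarith [Real.pi_pos]
  · exact sin_den_pos (by linarith) (by linarith)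

theorem br_lt_one {δ : ℝ} (h1 : 0 < δ) (h2 : δ < 2 * Real.pi / 3) : br δ < 1 := by
  unfold br
  rw [div_lt_one (sin_den_pos (by linarith) (by linarith))]
  rcases le_or_gt (2 * Real.pi / 3 - δ / 2) (Real.pi / 2) with h | h
  · apply Real.sin_lt_sin_of_lt_of_le_pi_div_two <;> linarith [Real.pi_pos]
  · rw [← Real.sin_pi_sub (2 * Real.pi / 3 - δ / 2)]
    apply Real.sin_lt_sin_of_lt_of_le_pi_div_two <;> linarith [Real.pi_pos]

end Pool.Agent.H12.QKZ

end

section

/-!
# The R-matrix of the dense O(1) loop model: algebra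

`Rm u e = (1 - u) • 1 + u • e` in an algebra, with `e * e = e`; unitarity and the Yang-Baxter equation.
-/

namespace Pool.Agent.H12.QKZ

section algebra

variable {K A : Type*} [CommRing K] [Ring A] [Algebra K A]

/-- The R-matrix with weight `u` of the turning `e` and weight `1 - u` of the identity. -/
def Rm (u : K) (e : A) : A := (1 - u) • (1 : A) + u • e

theorem Rm_zero (e : A) : Rm (0 : K) e = 1 := by simp [Rm]

theorem Rm_mul (u v : K) {e : A} (he : e * e = e) : Rm u e * Rm v e = Rm (u + v - u * v) e := by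
  simp only [Rm, mul_add, add_mul, smul_mul_smul_comm, one_mul, mul_one, he]
  module

theorem Rm_unitary {u v : K} (h : u + v = u * v) {e : A} (he : e * e = e) :
    Rm u e * Rm v e = 1 := by
  rw [Rm_mul u v he, h, sub_self, Rm_zero]

theorem Rm_comm {u v : K} {e f : A} (h : e * f = f * e) : Rm u e * Rm v f = Rm v f * Rm u e := by
  simp only [Rm, mul_add, add_mul, smul_mul_smul_comm, one_mul, mul_one, h]
  module

/-- Yang-Baxter equation. -/
theorem Rm_ybe {u v w : K} (h : v * (1 - u * w) = u + w - u * w) {e f : A}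
    (he : e * e = e) (hf : f * f = f) (hef : e * f * e = e) (hfe : f * e * f = f) :
    Rm u e * Rm v f * Rm w e = Rm w f * Rm v e * Rm u f := by
  have h1 : Rm u e * Rm v f * Rm w e
      = ((1 - u) * (1 - v) * (1 - w)) • (1 : A)
        + (u * (1 - v) * (1 - w) + (1 - u) * (1 - v) * w + u * (1 - v) * w + u * v * w) • e
        + ((1 - u) * v * (1 - w)) • f + (u * v * (1 - w)) • (e * f)
        + ((1 - u) * v * w) • (f * e) := by
    simp only [Rm, mul_add, add_mul, smul_mul_smul_comm, one_mul, mul_one, he, hef]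
    module
  have h2 : Rm w f * Rm v e * Rm u f
      = ((1 - u) * (1 - v) * (1 - w)) • (1 : A)
        + (w * (1 - v) * (1 - u) + (1 - w) * (1 - v) * u + w * (1 - v) * u + w * v * u) • f
        + ((1 - w) * v * (1 - u)) • e + (w * v * (1 - u)) • (f * e)
        + ((1 - w) * v * u) • (e * f) := by
    simp only [Rm, mul_add, add_mul, smul_mul_smul_comm, one_mul, mul_one, hf, hfe]
    module
  have c1 : u * (1 - v) * (1 - w) + (1 - u) * (1 - v) * w + u * (1 - v) * w + u * v * w
      = (1 - w) * v * (1 - u) := by linear_combination -h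
  have c2 : w * (1 - v) * (1 - u) + (1 - w) * (1 - v) * u + w * (1 - v) * u + w * v * u
      = (1 - u) * v * (1 - w) := by linear_combination -h
  rw [h1, h2, c1, c2]
  have c3 : u * v * (1 - w) = (1 - w) * v * u := by ring
  have c4 : (1 - u) * v * w = w * v * (1 - u) := by ring
  rw [c3, c4]
  module

end algebra

end Pool.Agent.H12.QKZ

end

section

/-!
# Fixed vectors of a stochastic matrix with a common reachable state

`P` is a real square matrix with nonnegative entries and column sums `1`, and some power of `P` has a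
strictly positive row.  Then `P` has exactly one fixed vector whose coordinates sum to `1`.
-/

namespace Pool.Agent.H12.QKZ

open Matrix Finset

variable {S : Type*} [Fintype S] [DecidableEq S]

/-- Column-stochastic matrices. -/
def ColStoch (P : Matrix S S ℝ) : Prop := (∀ i j, 0 ≤ P i j) ∧ ∀ j, ∑ i, P i j = 1

theorem ColStoch.one : ColStoch (1 : Matrix S S ℝ) := by
  refine ⟨fun i j => ?_, fun j => ?_⟩
  · rw [Matrix.one_apply]; split_ifs <;> norm_num
  · simp [Matrix.one_apply]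

theorem ColStoch.mul {P Q : Matrix S S ℝ} (hP : ColStoch P) (hQ : ColStoch Q) :
    ColStoch (P * Q) := by
  refine ⟨fun i j => ?_, fun j => ?_⟩
  · rw [Matrix.mul_apply]
    exact Finset.sum_nonneg fun k _ => mul_nonneg (hP.1 i k) (hQ.1 k j)
  · simp only [Matrix.mul_apply]
    rw [Finset.sum_comm]
    simp_rw [← Finset.sum_mul, hP.2, one_mul]
    exact hQ.2 j

theorem ColStoch.pow {P : Matrix S S ℝ} (hP : ColStoch P) (k : ℕ) : ColStoch (P ^ k) := by
  induction k with
  | zero => rw [pow_zero]; exact ColStoch.one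
  | succ k ih => rw [pow_succ]; exact ih.mul hP

theorem ColStoch.sum_mulVec {P : Matrix S S ℝ} (hP : ColStoch P) (v : S → ℝ) :
    ∑ i, (P *ᵥ v) i = ∑ j, v j := by
  simp only [Matrix.mulVec, dotProduct]
  rw [Finset.sum_comm]
  simp_rw [← Finset.sum_mul, hP.2, one_mul]

theorem pow_mulVec_fixed {P : Matrix S S ℝ} {v : S → ℝ} (h : P *ᵥ v = v) (k : ℕ) :
    (P ^ k) *ᵥ v = v := by
  induction k with
  | zero => rw [pow_zero, Matrix.one_mulVec]
  | succ k ih => rw [pow_succ, ← Matrix.mulVec_mulVec, h, ih]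

/-- A fixed vector with coordinate sum `0` vanishes. -/
theorem fixed_sum_zero {P : Matrix S S ℝ} (hP : ColStoch P) {k : ℕ} {s : S}
    (hpos : ∀ j, 0 < (P ^ k) s j) {v : S → ℝ} (hv : P *ᵥ v = v) (hs : ∑ i, v i = 0) : v = 0 := by
  classical
  by_contra hne
  set Q := P ^ k with hQ
  have hQs : ColStoch Q := hP.pow k
  have hQv : Q *ᵥ v = v := pow_mulVec_fixed hv k
  have hS : (Finset.univ : Finset S).Nonempty := ⟨s, Finset.mem_univ _⟩
  obtain ⟨j0, -, hj0⟩ := Finset.exists_min_image (Finset.univ : Finset S) (fun j => Q s j) hS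
  set c := Q s j0 with hc
  have hc0 : 0 < c := hpos j0
  -- `w i = ∑_j (Q i j - [i = s] c) v j`
  have hkey : ∀ i, |v i| ≤ ∑ j, (Q i j - if i = s then c else 0) * |v j| := by
    intro i
    have h1 : v i = ∑ j, (Q i j - if i = s then c else 0) * v j := by
      have : ∑ j, (Q i j - if i = s then c else 0) * v j
          = ∑ j, Q i j * v j - (if i = s then c else 0) * ∑ j, v j := by
        rw [Finset.mul_sum, ← Finset.sum_sub_distrib]
        exact Finset.sum_congr rfl fun j _ => by ring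
      rw [this, hs, mul_zero, sub_zero]
      conv_lhs => rw [← hQv]
      rfl
    calc |v i| = |∑ j, (Q i j - if i = s then c else 0) * v j| := by rw [← h1]
      _ ≤ ∑ j, |(Q i j - if i = s then c else 0) * v j| := Finset.abs_sum_le_sum_abs _ _
      _ = ∑ j, (Q i j - if i = s then c else 0) * |v j| := by
          refine Finset.sum_congr rfl fun j _ => ?_
          rw [abs_mul, abs_of_nonneg]
          by_cases his : i = s
          · rw [if_pos his, his]; linarith [hj0 j (Finset.mem_univ _)]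
          · rw [if_neg his, sub_zero]; exact hQs.1 i j
  have hsum : ∑ i, |v i| ≤ (1 - c) * ∑ j, |v j| := by
    calc ∑ i, |v i| ≤ ∑ i, ∑ j, (Q i j - if i = s then c else 0) * |v j| :=
          Finset.sum_le_sum fun i _ => hkey i
      _ = ∑ j, (∑ i, (Q i j - if i = s then c else 0)) * |v j| := by
          rw [Finset.sum_comm]; simp_rw [Finset.sum_mul]
      _ = ∑ j, (1 - c) * |v j| := by
          refine Finset.sum_congr rfl fun j _ => ?_
          rw [Finset.sum_sub_distrib, hQs.2, Finset.sum_ite_eq' Finset.univ s]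
          simp
      _ = (1 - c) * ∑ j, |v j| := by rw [Finset.mul_sum]
  have hpos' : 0 < ∑ j, |v j| := by
    obtain ⟨j, hj⟩ := Function.ne_iff.1 hne
    exact Finset.sum_pos' (fun j _ => abs_nonneg _) ⟨j, Finset.mem_univ _, abs_pos.2 hj⟩
  nlinarith

/-- Existence and uniqueness of the normalised fixed vector. -/
theorem exists_unique_fixed {P : Matrix S S ℝ} (hP : ColStoch P) {k : ℕ} {s : S}
    (hpos : ∀ j, 0 < (P ^ k) s j) : ∃! v : S → ℝ, P *ᵥ v = v ∧ ∑ i, v i = 1 := by
  classical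
  have hdet : (P - 1).det = 0 := by
    rw [← Matrix.exists_vecMul_eq_zero_iff]
    refine ⟨fun _ => 1, ?_, ?_⟩
    · intro h; exact one_ne_zero (congrFun h s)
    · funext j
      rw [Matrix.vecMul_sub, Matrix.vecMul_one]
      simp only [Pi.sub_apply, Matrix.vecMul, dotProduct, one_mul, Pi.zero_apply]
      rw [hP.2]; ring
  obtain ⟨v, hv0, hv⟩ := Matrix.exists_mulVec_eq_zero_iff.2 hdet
  have hfix : P *ᵥ v = v := by
    rw [Matrix.sub_mulVec, Matrix.one_mulVec, sub_eq_zero] at hv; exact hv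
  have hsum : ∑ i, v i ≠ 0 := fun h => hv0 (fixed_sum_zero hP hpos hfix h)
  refine ⟨fun i => (∑ i, v i)⁻¹ * v i, ⟨?_, ?_⟩, ?_⟩
  · have : (fun i => (∑ i, v i)⁻¹ * v i) = (∑ i, v i)⁻¹ • v := by
      funext i; simp
    rw [this, Matrix.mulVec_smul, hfix]
  · rw [← Finset.mul_sum, inv_mul_cancel₀ hsum]
  · rintro w ⟨hw, hw1⟩
    have h0 : (w - fun i => (∑ i, v i)⁻¹ * v i) = 0 := by
      apply fixed_sum_zero hP hpos
      · have : (fun i => (∑ i, v i)⁻¹ * v i) = (∑ i, v i)⁻¹ • v := by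
          funext i; simp
        rw [Matrix.mulVec_sub, this, Matrix.mulVec_smul, hfix, hw]
      · simp only [Pi.sub_apply]
        rw [Finset.sum_sub_distrib, hw1, ← Finset.mul_sum, inv_mul_cancel₀ hsum, sub_self]
    exact sub_eq_zero.1 h0

end Pool.Agent.H12.QKZ

end

section

/-!
# The scattering matrix of the line with the largest angle
-/

namespace Pool.Agent.H12.QKZ

open H56.EX Matrix

set_option linter.unusedSectionVars false

section mapMat

variable {S : Type*} [Fintype S] [DecidableEq S]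

/-- The matrix of a map. -/
def mapMat (f : S → S) : Matrix S S ℝ := fun a b => if f b = a then 1 else 0

theorem mapMat_mul (f g : S → S) : mapMat f * mapMat g = mapMat (f ∘ g) := by
  ext a b
  rw [Matrix.mul_apply, Finset.sum_eq_single (g b)]
  · simp [mapMat]
  · intro c _ hc
    simp [mapMat, Ne.symm hc]
  · intro h; exact absurd (Finset.mem_univ _) h

theorem mapMat_congr {f g : S → S} (h : ∀ x, f x = g x) : mapMat f = mapMat g := by
  rw [show f = g from funext h]

theorem mapMat_colStoch (f : S → S) : ColStoch (mapMat f) := by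
  refine ⟨fun a b => ?_, fun b => ?_⟩
  · unfold mapMat; split_ifs <;> norm_num
  · simp [mapMat]

theorem mapMat_mulVec (f : S → S) (v : S → ℝ) (a : S) :
    (mapMat f *ᵥ v) a = ∑ b, if f b = a then v b else 0 := by
  simp [Matrix.mulVec, dotProduct, mapMat]

theorem Rm_colStoch {u : ℝ} (h0 : 0 ≤ u) (h1 : u ≤ 1) {A : Matrix S S ℝ} (hA : ColStoch A) :
    ColStoch (Rm u A) := by
  refine ⟨fun a b => ?_, fun b => ?_⟩
  · have h2 := hA.1 a b
    have h3 := (ColStoch.one (S := S)).1 a b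
    simp only [Rm, Matrix.add_apply, Matrix.smul_apply, smul_eq_mul]
    exact add_nonneg (mul_nonneg (by linarith) h3) (mul_nonneg h0 h2)
  · simp only [Rm, Matrix.add_apply, Matrix.smul_apply, smul_eq_mul]
    rw [Finset.sum_add_distrib, ← Finset.mul_sum, ← Finset.mul_sum, hA.2,
      (ColStoch.one (S := S)).2]
    ring

/-- `A` has positive entries at `(f P, P)`. -/
def PosAt (A : Matrix S S ℝ) (f : S → S) : Prop := ∀ P, 0 < A (f P) P

theorem PosAt.mul {A B : Matrix S S ℝ} {f g : S → S} (hA : PosAt A f) (hB : PosAt B g)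
    (hA' : ∀ i j, 0 ≤ A i j) (hB' : ∀ i j, 0 ≤ B i j) : PosAt (A * B) (f ∘ g) := by
  intro P
  rw [Matrix.mul_apply]
  exact Finset.sum_pos' (fun c _ => mul_nonneg (hA' _ _) (hB' _ _))
    ⟨g P, Finset.mem_univ _, mul_pos (hA _) (hB _)⟩

theorem PosAt.mapMat (f : S → S) : PosAt (mapMat f) f := by
  intro P; simp [Pool.Agent.H12.QKZ.mapMat]

theorem PosAt.one : PosAt (1 : Matrix S S ℝ) id := by
  intro P
  show 0 < (1 : Matrix S S ℝ) P P
  rw [Matrix.one_apply_eq]; norm_num

theorem PosAt.Rm_map {u : ℝ} (h0 : 0 < u) (h1 : u ≤ 1) (f : S → S) :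
    PosAt (Rm u (Pool.Agent.H12.QKZ.mapMat f)) f := by
  intro P
  simp only [Rm, Matrix.add_apply, Matrix.smul_apply, smul_eq_mul]
  have h3 := (ColStoch.one (S := S)).1 (f P) P
  have h4 : Pool.Agent.H12.QKZ.mapMat f (f P) P = 1 := by simp [Pool.Agent.H12.QKZ.mapMat]
  rw [h4]
  have : 0 ≤ (1 - u) * (1 : Matrix S S ℝ) (f P) P := mul_nonneg (by linarith) h3
  linarith

theorem PosAt.Rm_id {u : ℝ} (h0 : 0 ≤ u) (h1 : u < 1) (f : S → S) :
    PosAt (Rm u (Pool.Agent.H12.QKZ.mapMat f)) id := by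
  intro P
  simp only [Rm, Matrix.add_apply, Matrix.smul_apply, smul_eq_mul, id]
  have h3 := (mapMat_colStoch f).1 P P
  rw [Matrix.one_apply_eq]
  have : 0 ≤ u * Pool.Agent.H12.QKZ.mapMat f P P := mul_nonneg h0 h3
  linarith

end mapMat

variable {L : ℕ}

/-- Matrix of `e_i`. -/
noncomputable def EM (i : ℤ) : Matrix (Pat L) (Pat L) ℝ := mapMat (E i)

/-- Matrix of the rotation. -/
noncomputable def RotM : Matrix (Pat L) (Pat L) ℝ := mapMat rot

theorem EM_sq (i : ℤ) : (EM i : Matrix (Pat L) (Pat L) ℝ) * EM i = EM i := by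
  unfold EM
  rw [mapMat_mul]
  exact mapMat_congr fun P => E.idem P i

theorem EM_braid (hL : 3 ≤ L) (i : ℤ) :
    (EM i : Matrix (Pat L) (Pat L) ℝ) * EM (i + 1) * EM i = EM i := by
  unfold EM
  rw [mapMat_mul, mapMat_mul]
  exact mapMat_congr fun P => E_braid i P hL

theorem EM_braid' (hL : 3 ≤ L) (i : ℤ) :
    (EM (i + 1) : Matrix (Pat L) (Pat L) ℝ) * EM i * EM (i + 1) = EM (i + 1) := by
  unfold EM
  rw [mapMat_mul, mapMat_mul]
  exact mapMat_congr fun P => E_braid' i P hL

theorem EM_comm {i j : ℤ} (h1 : ¬ Cg L i j) (h2 : ¬ Cg L i (j + 1)) (h3 : ¬ Cg L (i + 1) j) :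
    (EM i : Matrix (Pat L) (Pat L) ℝ) * EM j = EM j * EM i := by
  unfold EM
  rw [mapMat_mul, mapMat_mul]
  exact mapMat_congr fun P => E_comm P h1 h2 h3

theorem EM_congr {i j : ℤ} (h : Cg L i j) : (EM i : Matrix (Pat L) (Pat L) ℝ) = EM j :=
  mapMat_congr fun P => E_congr h P

theorem RotM_EM (i : ℤ) : (RotM : Matrix (Pat L) (Pat L) ℝ) * EM i = EM (i + 1) * RotM := by
  unfold EM RotM
  rw [mapMat_mul, mapMat_mul]
  exact mapMat_congr fun P => rot_E i P

/-- The R-matrix at position `i` with angle difference `δ`. -/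
noncomputable def RR (i : ℤ) (δ : ℝ) : Matrix (Pat L) (Pat L) ℝ := Rm (br δ) (EM i)

theorem RR_congr {i j : ℤ} (h : Cg L i j) (δ : ℝ) :
    (RR i δ : Matrix (Pat L) (Pat L) ℝ) = RR j δ := by
  unfold RR; rw [EM_congr h]

theorem RotM_RR (i : ℤ) (δ : ℝ) :
    (RotM : Matrix (Pat L) (Pat L) ℝ) * RR i δ = RR (i + 1) δ * RotM := by
  unfold RR Rm
  rw [mul_add, add_mul, Matrix.mul_smul, Matrix.mul_smul, Matrix.smul_mul, Matrix.smul_mul,
    RotM_EM, mul_one, one_mul]

theorem RR_comm {i j : ℤ} (h1 : ¬ Cg L i j) (h2 : ¬ Cg L i (j + 1)) (h3 : ¬ Cg L (i + 1) j)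
    (δ ε : ℝ) : (RR i δ : Matrix (Pat L) (Pat L) ℝ) * RR j ε = RR j ε * RR i δ :=
  Rm_comm (EM_comm h1 h2 h3)

theorem RR_inv (i : ℤ) {δ : ℝ} (h : |δ| < 2 * Real.pi / 3) :
    (RR i δ : Matrix (Pat L) (Pat L) ℝ) * RR i (-δ) = 1 := by
  rw [abs_lt] at h
  exact Rm_unitary (br_unitary h.1 h.2) (EM_sq i)

theorem RR_ybe (hL : 3 ≤ L) (i : ℤ) {x y z : ℝ} (h1 : |x - y| < 2 * Real.pi / 3)
    (h2 : |x - z| < 2 * Real.pi / 3) (h3 : |y - z| < 2 * Real.pi / 3) :
    (RR i (y - z) : Matrix (Pat L) (Pat L) ℝ) * RR (i + 1) (x - z) * RR i (x - y)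
      = RR (i + 1) (x - y) * RR i (x - z) * RR (i + 1) (y - z) := by
  have h := br_ybe h1 h2 h3
  refine Rm_ybe ?_ (EM_sq i) (EM_sq (i + 1)) (EM_braid hL i) (EM_braid' hL i)
  linear_combination h

/-- Carry line `m` over the next `k` lines. -/
noncomputable def W (θ : ℤ → ℝ) (m : ℤ) : ℕ → Matrix (Pat L) (Pat L) ℝ
  | 0 => 1
  | k + 1 => RR (m + k) (θ m - θ (m + 1 + k)) * W θ m k

/-- The scattering matrix of line `m`. -/
noncomputable def Sc (θ : ℤ → ℝ) (m : ℤ) : Matrix (Pat L) (Pat L) ℝ := RotM * W θ m (L - 1)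

/-- Admissible angles with maximum at `m`. -/
structure Adm (L : ℕ) (θ : ℤ → ℝ) (m : ℤ) : Prop where
  per : ∀ x, θ (x + L) = θ x
  pos : ∀ x, 0 < θ x
  lt : ∀ x, θ x < Real.pi / 3
  inj : ∀ x y, ¬ Cg L x y → θ x ≠ θ y
  max : ∀ x, ¬ Cg L x m → θ x < θ m

theorem per_dvd_fun {α : Type*} {θ : ℤ → α} (h : ∀ x, θ (x + L) = θ x) {x y : ℤ}
    (hxy : Cg L x y) : θ x = θ y := by
  obtain ⟨t, ht⟩ := hxy
  have key : ∀ t : ℤ, ∀ y, θ (y + L * t) = θ y := by
    intro t
    induction t using Int.induction_on with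
    | zero => intro y; simp
    | succ a ih =>
      intro y
      rw [show y + (L : ℤ) * (a + 1) = y + L * a + L by ring, h, ih]
    | pred a ih =>
      intro y
      rw [← h (y + L * (-a - 1)), show y + (L : ℤ) * (-a - 1) + L = y + L * (-a) by ring, ih]
  rw [show x = y + L * t by linarith]
  exact key t y

theorem Adm.congr {θ : ℤ → ℝ} {m : ℤ} (h : Adm L θ m) {x y : ℤ} (hxy : Cg L x y) :
    θ x = θ y := per_dvd_fun h.per hxy

theorem Adm.abs_lt {θ : ℤ → ℝ} {m : ℤ} (h : Adm L θ m) (x y : ℤ) :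
    |θ x - θ y| < 2 * Real.pi / 3 := by
  rw [_root_.abs_lt]
  have h1 := h.pos x
  have h2 := h.lt x
  have h3 := h.pos y
  have h4 := h.lt y
  constructor <;> linarith [Real.pi_pos]

/-- Exchange of two neighbouring angles. -/
def sw (L : ℕ) (i : ℤ) (θ : ℤ → ℝ) : ℤ → ℝ :=
  fun x => if Cg L x i then θ (x + 1) else if Cg L x (i + 1) then θ (x - 1) else θ x

theorem not_cg_of_lt {x y : ℤ} (h1 : 0 < x - y) (h2 : x - y < L) : ¬ Cg L x y := by
  intro h
  have := Int.le_of_dvd h1 h
  omega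

theorem sw_of_i {θ : ℤ → ℝ} {i x : ℤ} (h : Cg L x i) : sw L i θ x = θ (x + 1) := by
  simp only [sw, if_pos h]

theorem sw_of_succ (hL : 2 ≤ L) {θ : ℤ → ℝ} {i x : ℤ} (h : Cg L x (i + 1)) :
    sw L i θ x = θ (x - 1) := by
  have h' : ¬ Cg L x i := fun h' => not_Cg_succ hL i (Cg.trans' (Cg.symm' h') h)
  simp only [sw, if_neg h', if_pos h]

theorem sw_other {θ : ℤ → ℝ} {i x : ℤ} (h : ¬ Cg L x i) (h' : ¬ Cg L x (i + 1)) :
    sw L i θ x = θ x := by
  simp only [sw, if_neg h, if_neg h']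

theorem W_swap_max (hL : 2 ≤ L) (θ : ℤ → ℝ) (m : ℤ) : ∀ k : ℕ, k + 2 ≤ L →
    (W θ m (k + 1) : Matrix (Pat L) (Pat L) ℝ)
      = W (sw L m θ) (m + 1) k * RR m (θ m - θ (m + 1)) := by
  intro k
  induction k with
  | zero =>
    intro _
    simp only [W, Nat.cast_zero, add_zero, mul_one, one_mul]
  | succ k ih =>
    intro hk
    have h1 : sw L m θ (m + 1) = θ m := by
      rw [sw_of_succ hL (Cg.refl' _)]; congr 1; ring
    have h2 : sw L m θ (m + 1 + 1 + k) = θ (m + 1 + (k + 1 : ℕ)) := by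
      rw [sw_other]
      · congr 1; push_cast; ring
      · apply not_cg_of_lt <;> omega
      · apply not_cg_of_lt <;> omega
    rw [W, ih (by omega)]
    conv_rhs => rw [W]
    rw [h1, h2, ← mul_assoc]
    congr 3
    push_cast; ring

/-- Conjugation of the scattering matrix when the maximal line is moved one step. -/
theorem Sc_swap_max (hL : 2 ≤ L) {θ : ℤ → ℝ} (hper : ∀ x, θ (x + L) = θ x) (m : ℤ) :
    RR m (θ m - θ (m + 1)) * (Sc θ m : Matrix (Pat L) (Pat L) ℝ)
      = Sc (sw L m θ) (m + 1) * RR m (θ m - θ (m + 1)) := by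
  obtain ⟨k, hk⟩ : ∃ k, L = k + 2 := ⟨L - 2, by omega⟩
  unfold Sc
  have e1 : L - 1 = k + 1 := by omega
  rw [e1, W_swap_max hL θ m k (by omega)]
  conv_rhs => rw [W]
  have h1 : sw L m θ (m + 1) = θ m := by
    rw [sw_of_succ hL (Cg.refl' _)]; congr 1; ring
  have h2 : sw L m θ (m + 1 + 1 + k) = θ (m + 1) := by
    have hc : Cg L (m + 1 + 1 + k) m := by
      unfold Cg; rw [hk]; push_cast
      rw [show m + 1 + 1 + (k : ℤ) - m = k + 2 by ring]
    rw [sw_of_i hc]
    apply per_dvd_fun hper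
    exact Cg.add 1 hc
  have h3 : (RotM : Matrix (Pat L) (Pat L) ℝ) * RR (m + 1 + k) (θ m - θ (m + 1))
      = RR m (θ m - θ (m + 1)) * RotM := by
    rw [RotM_RR, RR_congr (i := m + 1 + k + 1) (j := m)]
    unfold Cg; rw [hk]; push_cast
    rw [show m + 1 + (k : ℤ) + 1 - m = k + 2 by ring]
  rw [h1, h2]
  rw [← mul_assoc RotM (RR (m + 1 + k) _), h3]
  simp only [mul_assoc]

/-- `R` at a position far from the carried segment commutes with `W`. -/
theorem RR_comm_W (θ : ℤ → ℝ) (m i : ℤ) (δ : ℝ) : ∀ k : ℕ, (m + k < i) → (i + 1 < m + L) →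
    (RR i δ : Matrix (Pat L) (Pat L) ℝ) * W θ m k = W θ m k * RR i δ := by
  intro k
  induction k with
  | zero => intro _ _; simp [W]
  | succ k ih =>
    intro h1 h2
    push_cast at h1
    rw [W, ← mul_assoc, RR_comm, mul_assoc, ih (by omega) h2, ← mul_assoc]
    · apply not_cg_of_lt <;> omega
    · apply not_cg_of_lt <;> omega
    · apply not_cg_of_lt <;> omega

theorem W_sw_low (θ : ℤ → ℝ) (m i : ℤ) : ∀ k : ℕ, (m + k < i) → (i + 1 < m + L) →
    (W (sw L i θ) m k : Matrix (Pat L) (Pat L) ℝ) = W θ m k := by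
  intro k
  induction k with
  | zero => intro _ _; rfl
  | succ k ih =>
    intro h1 h2
    push_cast at h1
    rw [W, W, ih (by omega) h2]
    have e1 : sw L i θ m = θ m := by
      apply sw_other
      · intro h; exact not_cg_of_lt (by omega) (by omega) (Cg.symm' h)
      · intro h; exact not_cg_of_lt (by omega) (by omega) (Cg.symm' h)
    have e2 : sw L i θ (m + 1 + k) = θ (m + 1 + k) := by
      apply sw_other
      · intro h; exact not_cg_of_lt (by omega) (by omega) (Cg.symm' h)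
      · intro h; exact not_cg_of_lt (by omega) (by omega) (Cg.symm' h)
    rw [e1, e2]

theorem W_sw_mid (hL : 3 ≤ L) {θ : ℤ → ℝ} {m₀ : ℤ} (hθ : Adm L θ m₀) (m : ℤ) (j : ℕ) :
    ∀ d : ℕ, j + d + 3 ≤ L →
    RR (m + j) (θ (m + 1 + j) - θ (m + 1 + j + 1)) *
        (W θ m (j + 2 + d) : Matrix (Pat L) (Pat L) ℝ)
      = W (sw L (m + 1 + j) θ) m (j + 2 + d) *
        RR (m + 1 + j) (θ (m + 1 + j) - θ (m + 1 + j + 1)) := by
  intro d
  have em : j + d + 3 ≤ L → sw L (m + 1 + j) θ m = θ m := by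
    intro h
    apply sw_other
    · intro h; exact not_cg_of_lt (by omega) (by omega) (Cg.symm' h)
    · intro h; exact not_cg_of_lt (by omega) (by omega) (Cg.symm' h)
  induction d with
  | zero =>
    intro hk
    have em' := em hk
    simp only [add_zero]
    have e1 : sw L (m + 1 + j) θ (m + 1 + j) = θ (m + 1 + j + 1) := sw_of_i (Cg.refl' _)
    have e2 : sw L (m + 1 + j) θ (m + 1 + j + 1) = θ (m + 1 + j) := by
      rw [sw_of_succ (by omega) (Cg.refl' _)]; congr 1; ring
    have hw : ∀ η : ℤ → ℝ, (W η m (j + 2) : Matrix (Pat L) (Pat L) ℝ)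
        = RR (m + j + 1) (η m - η (m + 1 + j + 1)) *
          (RR (m + j) (η m - η (m + 1 + j)) * W η m j) := by
      intro η
      rw [W, W]
      push_cast
      rw [show m + ((j : ℤ) + 1) = m + j + 1 by ring,
        show m + 1 + ((j : ℤ) + 1) = m + 1 + j + 1 by ring]
    rw [hw, hw, em', e1, e2, W_sw_low θ m (m + 1 + j) j (by omega) (by omega)]
    have hy := RR_ybe (L := L) hL (m + j) (hθ.abs_lt m (m + 1 + j))
      (hθ.abs_lt m (m + 1 + j + 1)) (hθ.abs_lt (m + 1 + j) (m + 1 + j + 1))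
    rw [← mul_assoc, ← mul_assoc, hy]
    rw [show m + (j : ℤ) + 1 = m + 1 + j by ring] at *
    simp only [mul_assoc]
    rw [RR_comm_W θ m (m + 1 + j) _ j (by omega) (by omega)]
  | succ d ih =>
    intro hk
    have em' := em hk
    rw [show j + 2 + (d + 1) = (j + 2 + d) + 1 by ring, W, W, em']
    have e3 : sw L (m + 1 + j) θ (m + 1 + (j + 2 + d : ℕ)) = θ (m + 1 + (j + 2 + d : ℕ)) := by
      apply sw_other <;> apply not_cg_of_lt <;> push_cast <;> omega
    rw [e3, ← mul_assoc, RR_comm, mul_assoc, ih (fun _ => em') (by omega), ← mul_assoc]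
    · intro h; exact not_cg_of_lt (by push_cast; omega) (by push_cast; omega) (Cg.symm' h)
    · intro h; exact not_cg_of_lt (by push_cast; omega) (by push_cast; omega) (Cg.symm' h)
    · intro h; exact not_cg_of_lt (by push_cast; omega) (by push_cast; omega) (Cg.symm' h)

/-- A Yang-Baxter move through the maximal line. -/
theorem Sc_swap_other {θ : ℤ → ℝ} {m₀ : ℤ} (hθ : Adm L θ m₀) (m i : ℤ) (h1 : m < i)
    (h2 : i + 1 < m + L) :
    RR i (θ i - θ (i + 1)) * (Sc θ m : Matrix (Pat L) (Pat L) ℝ)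
      = Sc (sw L i θ) m * RR i (θ i - θ (i + 1)) := by
  obtain ⟨j, hj⟩ : ∃ j : ℕ, i = m + 1 + j := ⟨(i - m - 1).toNat, by omega⟩
  obtain ⟨d, hd⟩ : ∃ d : ℕ, L = j + d + 3 := ⟨L - j - 3, by omega⟩
  have hL : 3 ≤ L := by omega
  subst hj
  have key := W_sw_mid hL hθ m j d (by omega)
  have e : L - 1 = j + 2 + d := by omega
  unfold Sc
  rw [e]
  have h3 : (RR (m + 1 + j) (θ (m + 1 + j) - θ (m + 1 + j + 1)) : Matrix (Pat L) (Pat L) ℝ)
      * RotM = RotM * RR (m + j) (θ (m + 1 + j) - θ (m + 1 + j + 1)) := by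
    rw [RotM_RR, show m + (j : ℤ) + 1 = m + 1 + j by ring]
  rw [← mul_assoc, h3, mul_assoc, key, mul_assoc]

theorem W_rot (θ : ℤ → ℝ) (m : ℤ) : ∀ k : ℕ,
    (RotM : Matrix (Pat L) (Pat L) ℝ) * W θ m k = W (fun x => θ (x - 1)) (m + 1) k * RotM := by
  intro k
  induction k with
  | zero => simp [W]
  | succ k ih =>
    rw [W, W, ← mul_assoc, RotM_RR, mul_assoc, ih, ← mul_assoc]
    simp only [add_sub_cancel_right]
    rw [show m + 1 + 1 + (k : ℤ) - 1 = m + 1 + k by ring,
      show m + (k : ℤ) + 1 = m + 1 + k by ring]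

theorem Sc_rot (θ : ℤ → ℝ) (m : ℤ) :
    (RotM : Matrix (Pat L) (Pat L) ℝ) * Sc θ m = Sc (fun x => θ (x - 1)) (m + 1) * RotM := by
  unfold Sc
  rw [mul_assoc, ← W_rot]

end Pool.Agent.H12.QKZ

end

section

/-!
# Zariski density of the admissible points
-/

namespace Pool.Agent.H12.QKZ

open H56.EX

theorem zc_injOn {s t : ℝ} (hs : 0 < s) (hs' : s < Real.pi / 3) (ht : 0 < t)
    (ht' : t < Real.pi / 3) (h : zc s = zc t) : s = t := by
  have h1 : zc s - zc t = 0 := sub_eq_zero.2 h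
  rw [zc_sub] at h1
  have h2 : (Complex.exp (((s + t) / 2 : ℝ) * Complex.I) * (2 * Complex.I)) ≠ 0 := by
    refine mul_ne_zero (Complex.exp_ne_zero _) ?_
    simp
  have h3 : Real.sin ((s - t) / 2) = 0 := by
    have := (mul_eq_zero.1 h1).resolve_left h2
    exact_mod_cast this
  have hpi := Real.pi_pos
  have h4 := (Real.sin_eq_zero_iff_of_lt_of_lt (x := (s - t) / 2) (by linarith) (by linarith)).1 h3
  linarith

/-- A polynomial vanishing at all points of the unit circle with pairwise distinct angles in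
`(0, π/3)` is zero. -/
theorem dens {L : ℕ} (p : MvPolynomial (Fin L) ℂ)
    (h : ∀ t : Fin L → ℝ, (∀ k, 0 < t k ∧ t k < Real.pi / 3) → Function.Injective t →
      MvPolynomial.eval (fun k => zc (t k)) p = 0) : p = 0 := by
  classical
  set V : MvPolynomial (Fin L) ℂ := ∏ a, ∏ b,
    (if a = b then 1 else (MvPolynomial.X a - MvPolynomial.X b)) with hV
  have hV0 : V ≠ 0 := by
    rw [hV, Finset.prod_ne_zero_iff]
    intro a _
    rw [Finset.prod_ne_zero_iff]
    intro b _
    split_ifs with hab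
    · exact one_ne_zero
    · rw [sub_ne_zero]
      intro h'
      exact hab (MvPolynomial.X_injective h')
  have hpV : p * V = 0 := by
    apply MvPolynomial.funext_set (fun _ : Fin L => zc '' Set.Ioo 0 (Real.pi / 3))
    · intro _
      apply Set.Infinite.image
      · intro s hs t ht hst
        exact zc_injOn hs.1 hs.2 ht.1 ht.2 hst
      · exact Set.Ioo_infinite (by positivity)
    · intro x hx
      choose t ht using fun k => hx k (Set.mem_univ k)
      have hx' : x = fun k => zc (t k) := funext fun k => (ht k).2.symm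
      rw [map_mul, map_zero]
      by_cases hinj : Function.Injective t
      · rw [hx', h t (fun k => (ht k).1) hinj, zero_mul]
      · have : ∃ a b, t a = t b ∧ a ≠ b := by
          by_contra hc
          push Not at hc
          exact hinj fun a b hab => hc a b hab
        obtain ⟨a, b, hab, hne⟩ := this
        have hv : MvPolynomial.eval x V = 0 := by
          rw [hV, map_prod]
          apply Finset.prod_eq_zero (Finset.mem_univ a)
          rw [map_prod]
          apply Finset.prod_eq_zero (Finset.mem_univ b)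
          rw [if_neg hne, map_sub, MvPolynomial.eval_X, MvPolynomial.eval_X, hx']
          simp only [hab, sub_self]
        rw [hv, mul_zero]
  exact (mul_eq_zero.1 hpV).resolve_right hV0

/-- Periodic extension of a finite sequence of angles. -/
noncomputable def ext (L : ℕ) (hL : 0 < L) (t : Fin L → ℝ) : ℤ → ℝ :=
  fun x => t ⟨(x % (L : ℤ)).toNat, by
    have h1 := Int.emod_lt_of_pos x (show (0 : ℤ) < L by omega)
    have h2 := Int.emod_nonneg x (show (L : ℤ) ≠ 0 by omega)
    omega⟩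

theorem ext_fin {L : ℕ} (hL : 0 < L) (t : Fin L → ℝ) (k : Fin L) : ext L hL t (k : ℕ) = t k := by
  unfold ext
  congr 1
  apply Fin.ext
  simp only
  rw [Int.emod_eq_of_lt (by omega) (by have := k.isLt; omega)]
  simp

theorem ext_adm {L : ℕ} (hL : 0 < L) (t : Fin L → ℝ) (h1 : ∀ k, 0 < t k ∧ t k < Real.pi / 3)
    (h2 : Function.Injective t) : ∃ m, Adm L (ext L hL t) m := by
  have hpos : (0 : ℤ) < L := by omega
  have : Nonempty (Fin L) := ⟨⟨0, hL⟩⟩
  obtain ⟨k, -, hk⟩ := Finset.exists_max_image (Finset.univ : Finset (Fin L)) t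
    Finset.univ_nonempty
  have hinj : ∀ x y : ℤ, ¬ Cg L x y → ext L hL t x ≠ ext L hL t y := by
    intro x y hxy h
    apply hxy
    have h3 := h2 h
    have h4 := congrArg Fin.val h3
    simp only at h4
    have e1 := Int.emod_nonneg x hpos.ne'
    have e2 := Int.emod_nonneg y hpos.ne'
    have h5 : x % (L : ℤ) = y % L := by omega
    exact Int.dvd_of_emod_eq_zero (Int.emod_eq_emod_iff_emod_sub_eq_zero.1 h5)
  refine ⟨(k : ℕ), ?_, fun x => (h1 _).1, fun x => (h1 _).2, hinj, ?_⟩
  · intro x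
    unfold ext
    congr 1
    apply Fin.ext
    simp
  · intro x hx
    rw [ext_fin hL]
    have := hinj x (k : ℕ) hx
    rw [ext_fin hL] at this
    exact lt_of_le_of_ne (hk _ (Finset.mem_univ _)) this

/-- Two polynomials which agree at all admissible points are equal. -/
theorem dens_adm {L : ℕ} (hL : 0 < L) (p p' : MvPolynomial (Fin L) ℂ)
    (h : ∀ θ : ℤ → ℝ, (∃ m, Adm L θ m) →
      MvPolynomial.eval (fun k : Fin L => zc (θ (k : ℕ))) p
        = MvPolynomial.eval (fun k : Fin L => zc (θ (k : ℕ))) p') : p = p' := by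
  rw [← sub_eq_zero]
  apply dens
  intro t ht hinj
  have := h (ext L hL t) (ext_adm hL t ht hinj)
  simp only [ext_fin] at this
  rw [map_sub, this, sub_self]

end Pool.Agent.H12.QKZ

end

section

/-!
# The explicit sum `S_M(c; z)` of the leg functions: recursion and uniqueness

`q` is a primitive cube root of unity in a field `K`.  For a finite set `s` of indices, spectral
parameters `z : ι → K` (pairwise distinct), and a list `c` of leg parameters, `SG` is
`∑_{A ⊆ s} ∏_{j ∈ A} (u ∏_i (c_i - q z_j)) ∏_{j ∈ s \ A} (v ∏_i (c_i - q² z_j)) ∏_{j ∈ A, k ∈ s \ A} g (z_j, z_k)`.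
-/

set_option autoImplicit false

namespace Pool.Agent.H96.EX

open Finset Polynomial

variable {K ι : Type*} [Field K] [DecidableEq ι]

/-- `(w - q z)² / ((w - z) (w - q² z))` -/
noncomputable def gg (q z w : K) : K := (w - q * z) ^ 2 / ((w - z) * (w - q ^ 2 * z))

/-- the product of `c_i - x` over the legs -/
def lg (c : List K) (x : K) : K := (c.map fun a => a - x).prod

/-- the explicit sum -/
noncomputable def SG (q u v : K) (s : Finset ι) (c : List K) (z : ι → K) : K :=
  ∑ A ∈ s.powerset, (∏ j ∈ A, u * lg c (q * z j)) * (∏ j ∈ s \ A, v * lg c (q ^ 2 * z j)) *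
    ∏ j ∈ A, ∏ k ∈ s \ A, gg q (z j) (z k)

@[simp] lemma lg_nil (x : K) : lg [] x = 1 := by simp [lg]
@[simp] lemma lg_cons (a : K) (c : List K) (x : K) : lg (a :: c) x = (a - x) * lg c x := by
  simp [lg]

lemma lg_perm {c c' : List K} (h : c.Perm c') (x : K) : lg c x = lg c' x := by
  unfold lg; exact (h.map _).prod_eq

lemma SG_perm {q u v : K} {s : Finset ι} {c c' : List K} (h : c.Perm c') (z : ι → K) :
    SG q u v s c z = SG q u v s c' z := by
  unfold SG
  simp only [lg_perm h]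

lemma SG_empty (q u v : K) (c : List K) (z : ι → K) : SG q u v ∅ c z = 1 := by
  simp [SG]

/-- splitting the sum according to whether `a ∈ A` -/
lemma SG_split (q u v : K) {s : Finset ι} {a : ι} (ha : a ∈ s) (c : List K) (z : ι → K) :
    SG q u v s c z =
      (∑ A ∈ (s.erase a).powerset, (u * lg c (q * z a)) * (∏ j ∈ A, u * lg c (q * z j)) *
        (∏ j ∈ s.erase a \ A, v * lg c (q ^ 2 * z j)) *
        ((∏ k ∈ s.erase a \ A, gg q (z a) (z k)) *
          ∏ j ∈ A, ∏ k ∈ s.erase a \ A, gg q (z j) (z k))) +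
      (∑ A ∈ (s.erase a).powerset, (∏ j ∈ A, u * lg c (q * z j)) *
        ((v * lg c (q ^ 2 * z a)) * ∏ j ∈ s.erase a \ A, v * lg c (q ^ 2 * z j)) *
        ((∏ j ∈ A, gg q (z j) (z a)) *
          ∏ j ∈ A, ∏ k ∈ s.erase a \ A, gg q (z j) (z k))) := by
  unfold SG
  have hs : s = insert a (s.erase a) := (insert_erase ha).symm
  conv_lhs => rw [hs]
  have hna : a ∉ s.erase a := notMem_erase a s
  rw [Finset.sum_powerset_insert hna, add_comm]
  congr 1
  · apply Finset.sum_congr rfl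
    intro A hA
    rw [mem_powerset] at hA
    have hA' : a ∉ A := fun h => hna (hA h)
    have h1 : insert a (s.erase a) \ insert a A = s.erase a \ A := by
      ext x
      simp only [mem_sdiff, mem_insert, not_or]
      constructor
      · rintro ⟨h | h, h', h''⟩
        · exact absurd h h'
        · exact ⟨h, h''⟩
      · rintro ⟨h, h'⟩
        exact ⟨Or.inr h, fun e => hna (e ▸ h), h'⟩
    rw [h1, Finset.prod_insert hA', Finset.prod_insert hA']
  · apply Finset.sum_congr rfl
    intro A hA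
    rw [mem_powerset] at hA
    have hA' : a ∉ A := fun h => hna (hA h)
    have h1 : insert a (s.erase a) \ A = insert a (s.erase a \ A) := by
      rw [insert_sdiff_of_notMem _ hA']
    have hna' : a ∉ s.erase a \ A := fun h => hna (mem_sdiff.1 h).1
    rw [h1, Finset.prod_insert hna']
    have h3 : (∏ j ∈ A, ∏ k ∈ insert a (s.erase a \ A), gg q (z j) (z k)) =
        (∏ j ∈ A, gg q (z j) (z a)) * ∏ j ∈ A, ∏ k ∈ s.erase a \ A, gg q (z j) (z k) := by
      rw [← Finset.prod_mul_distrib]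
      apply Finset.prod_congr rfl
      intro j _
      rw [Finset.prod_insert hna']
    rw [h3]

/-- recursion at `c_1 = q² z_a`: the leg is replaced by the strand `z_a` -/
theorem SG_rec1 {q u v : K} (hq : q ^ 2 + q + 1 = 0) {s : Finset ι} {a : ι} (ha : a ∈ s)
    (c : List K) (z : ι → K) (hz : ∀ j ∈ s.erase a, z j ≠ z a ∧ z j ≠ q ^ 2 * z a) :
    SG q u v s ((q ^ 2 * z a) :: c) z =
      u * ((q ^ 2 - q) * z a) * lg c (q * z a) *
        (∏ j ∈ s.erase a, (z j - q * z a) / (z j - q ^ 2 * z a)) *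
        SG q u v (s.erase a) (z a :: c) z := by
  have q3 : q ^ 3 = 1 := by linear_combination (q - 1) * hq
  rw [SG_split q u v ha]
  have h2 : (∑ A ∈ (s.erase a).powerset, (∏ j ∈ A, u * lg (q ^ 2 * z a :: c) (q * z j)) *
        ((v * lg (q ^ 2 * z a :: c) (q ^ 2 * z a)) *
          ∏ j ∈ s.erase a \ A, v * lg (q ^ 2 * z a :: c) (q ^ 2 * z j)) *
        ((∏ j ∈ A, gg q (z j) (z a)) *
          ∏ j ∈ A, ∏ k ∈ s.erase a \ A, gg q (z j) (z k))) = 0 := by
    apply Finset.sum_eq_zero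
    intro A _
    simp
  rw [h2, add_zero]
  unfold SG
  rw [Finset.mul_sum]
  apply Finset.sum_congr rfl
  intro A hA
  rw [mem_powerset] at hA
  have hsplit : (∏ j ∈ s.erase a, (z j - q * z a) / (z j - q ^ 2 * z a)) =
      (∏ j ∈ A, (z j - q * z a) / (z j - q ^ 2 * z a)) *
      ∏ j ∈ s.erase a \ A, (z j - q * z a) / (z j - q ^ 2 * z a) := by
    rw [← Finset.prod_sdiff hA (f := fun j => (z j - q * z a) / (z j - q ^ 2 * z a)), mul_comm]
  rw [hsplit]
  have e1 : (∏ j ∈ A, u * lg (q ^ 2 * z a :: c) (q * z j)) =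
      (∏ j ∈ A, (z j - q * z a) / (z j - q ^ 2 * z a)) *
        ∏ j ∈ A, u * lg (z a :: c) (q * z j) := by
    rw [← Finset.prod_mul_distrib]
    apply Finset.prod_congr rfl
    intro j hj
    have hne : z j - q ^ 2 * z a ≠ 0 := sub_ne_zero.2 (hz j (hA hj)).2
    rw [lg_cons, lg_cons, div_mul_eq_mul_div, eq_div_iff hne]
    linear_combination (u * lg c (q * z j) * z a * (z j - q * z a)) * q3
  have e2 : (∏ j ∈ s.erase a \ A, v * lg (q ^ 2 * z a :: c) (q ^ 2 * z j)) *
      (∏ k ∈ s.erase a \ A, gg q (z a) (z k)) =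
      (∏ j ∈ s.erase a \ A, (z j - q * z a) / (z j - q ^ 2 * z a)) *
        ∏ j ∈ s.erase a \ A, v * lg (z a :: c) (q ^ 2 * z j) := by
    rw [← Finset.prod_mul_distrib, ← Finset.prod_mul_distrib]
    apply Finset.prod_congr rfl
    intro j hj
    have hj' := (mem_sdiff.1 hj).1
    have hne : z j - q ^ 2 * z a ≠ 0 := sub_ne_zero.2 (hz j hj').2
    have hne1 : z j - z a ≠ 0 := sub_ne_zero.2 (hz j hj').1
    rw [lg_cons, lg_cons, gg, mul_div_assoc', div_mul_eq_mul_div, div_eq_div_iff (mul_ne_zero hne1 hne) hne]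
    linear_combination (v * lg c (q ^ 2 * z j) * (z j - q ^ 2 * z a) * (z j - z a) *
      (z j - q * z a) * z a) * q3
  rw [e1, lg_cons]
  calc _ = (u * ((q ^ 2 * z a - q * z a) * lg c (q * z a))) *
        ((∏ j ∈ A, (z j - q * z a) / (z j - q ^ 2 * z a)) *
        ∏ j ∈ A, u * lg (z a :: c) (q * z j)) *
        ((∏ j ∈ s.erase a \ A, v * lg (q ^ 2 * z a :: c) (q ^ 2 * z j)) *
        (∏ k ∈ s.erase a \ A, gg q (z a) (z k))) *
          ∏ j ∈ A, ∏ k ∈ s.erase a \ A, gg q (z j) (z k) := by ring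
    _ = _ := by rw [e2]; ring

/-- recursion at `c_1 = q z_a`: the leg is replaced by the strand `z_a` -/
theorem SG_rec2 {q u v : K} (hq : q ^ 2 + q + 1 = 0) {s : Finset ι} {a : ι} (ha : a ∈ s)
    (c : List K) (z : ι → K) (hz : ∀ j ∈ s.erase a, z j ≠ z a ∧ z j ≠ q * z a) :
    SG q u v s ((q * z a) :: c) z =
      v * ((q - q ^ 2) * z a) * lg c (q ^ 2 * z a) *
        (∏ j ∈ s.erase a, (z j - q ^ 2 * z a) / (z j - q * z a)) *
        SG q u v (s.erase a) (z a :: c) z := by
  have q3 : q ^ 3 = 1 := by linear_combination (q - 1) * hq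
  rw [SG_split q u v ha]
  have h2 : (∑ A ∈ (s.erase a).powerset, (u * lg (q * z a :: c) (q * z a)) *
        (∏ j ∈ A, u * lg (q * z a :: c) (q * z j)) *
        (∏ j ∈ s.erase a \ A, v * lg (q * z a :: c) (q ^ 2 * z j)) *
        ((∏ k ∈ s.erase a \ A, gg q (z a) (z k)) *
          ∏ j ∈ A, ∏ k ∈ s.erase a \ A, gg q (z j) (z k))) = 0 := by
    apply Finset.sum_eq_zero
    intro A _
    simp
  rw [h2, zero_add]
  unfold SG
  rw [Finset.mul_sum]
  apply Finset.sum_congr rfl
  intro A hA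
  rw [mem_powerset] at hA
  have hsplit : (∏ j ∈ s.erase a, (z j - q ^ 2 * z a) / (z j - q * z a)) =
      (∏ j ∈ A, (z j - q ^ 2 * z a) / (z j - q * z a)) *
      ∏ j ∈ s.erase a \ A, (z j - q ^ 2 * z a) / (z j - q * z a) := by
    rw [← Finset.prod_sdiff hA (f := fun j => (z j - q ^ 2 * z a) / (z j - q * z a)), mul_comm]
  rw [hsplit]
  have e1 : (∏ j ∈ s.erase a \ A, v * lg (q * z a :: c) (q ^ 2 * z j)) =
      (∏ j ∈ s.erase a \ A, (z j - q ^ 2 * z a) / (z j - q * z a)) *
        ∏ j ∈ s.erase a \ A, v * lg (z a :: c) (q ^ 2 * z j) := by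
    rw [← Finset.prod_mul_distrib]
    apply Finset.prod_congr rfl
    intro j hj
    have hj' := (mem_sdiff.1 hj).1
    have hne : z j - q * z a ≠ 0 := sub_ne_zero.2 (hz j hj').2
    rw [lg_cons, lg_cons, div_mul_eq_mul_div, eq_div_iff hne]
    linear_combination (v * lg c (q ^ 2 * z j) * z a * z j * (1 - q)) * q3
  have e2 : (∏ j ∈ A, u * lg (q * z a :: c) (q * z j)) *
      (∏ j ∈ A, gg q (z j) (z a)) =
      (∏ j ∈ A, (z j - q ^ 2 * z a) / (z j - q * z a)) *
        ∏ j ∈ A, u * lg (z a :: c) (q * z j) := by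
    rw [← Finset.prod_mul_distrib, ← Finset.prod_mul_distrib]
    apply Finset.prod_congr rfl
    intro j hj
    have hj' := hA hj
    have hne : z j - q * z a ≠ 0 := sub_ne_zero.2 (hz j hj').2
    have hne1 : z a - z j ≠ 0 := sub_ne_zero.2 (hz j hj').1.symm
    have hne2 : z a - q ^ 2 * z j ≠ 0 := by
      intro h
      apply hne
      linear_combination (-q) * h - z j * q3
    rw [lg_cons, lg_cons, gg, mul_div_assoc', div_mul_eq_mul_div,
      div_eq_div_iff (mul_ne_zero hne1 hne2) hne]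
    linear_combination (u * lg c (q * z j) * z j * z a * (q * (1 - q) * z j ^ 2 +
      (1 - q) * z a ^ 2 + (q ^ 2 - 1) * z j * z a)) * q3
  rw [e1, lg_cons]
  calc _ = (v * ((q * z a - q ^ 2 * z a) * lg c (q ^ 2 * z a))) *
        ((∏ j ∈ A, u * lg (q * z a :: c) (q * z j)) * (∏ j ∈ A, gg q (z j) (z a))) *
        ((∏ j ∈ s.erase a \ A, (z j - q ^ 2 * z a) / (z j - q * z a)) *
        ∏ j ∈ s.erase a \ A, v * lg (z a :: c) (q ^ 2 * z j)) *
          ∏ j ∈ A, ∏ k ∈ s.erase a \ A, gg q (z j) (z k) := by ring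
    _ = _ := by rw [e2]; ring

/-- `SG` as a polynomial in the first leg parameter -/
noncomputable def SGpoly (q u v : K) (s : Finset ι) (c : List K) (z : ι → K) : K[X] :=
  ∑ A ∈ s.powerset, (∏ j ∈ A, C (u * lg c (q * z j)) * (X - C (q * z j))) *
    (∏ j ∈ s \ A, C (v * lg c (q ^ 2 * z j)) * (X - C (q ^ 2 * z j))) *
    C (∏ j ∈ A, ∏ k ∈ s \ A, gg q (z j) (z k))

lemma SGpoly_eval (q u v : K) (s : Finset ι) (c : List K) (z : ι → K) (x : K) :
    (SGpoly q u v s c z).eval x = SG q u v s (x :: c) z := by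
  unfold SGpoly SG
  rw [eval_finsetSum]
  apply Finset.sum_congr rfl
  intro A _
  simp only [eval_mul, eval_C, eval_prod, eval_sub, eval_X, lg_cons]
  congr 2
  · apply Finset.prod_congr rfl; intro j _; ring
  · apply Finset.prod_congr rfl; intro j _; ring

lemma SGpoly_natDegree (q u v : K) (s : Finset ι) (c : List K) (z : ι → K) :
    (SGpoly q u v s c z).natDegree ≤ s.card := by
  unfold SGpoly
  apply natDegree_sum_le_of_forall_le
  intro A hA
  rw [mem_powerset] at hA
  have hb : ∀ (T : Finset ι) (f g : ι → K),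
      (∏ j ∈ T, C (f j) * (X - C (g j))).natDegree ≤ T.card := by
    intro T f g
    refine (natDegree_prod_le _ _).trans ?_
    rw [Finset.card_eq_sum_ones]
    apply Finset.sum_le_sum
    intro j _
    refine (natDegree_C_mul_le _ _).trans ?_
    exact natDegree_X_sub_C_le _
  refine (natDegree_mul_le).trans ?_
  rw [natDegree_C, add_zero]
  refine (natDegree_mul_le).trans ?_
  have h1 := hb A (fun j => u * lg c (q * z j)) (fun j => q * z j)
  have h2 := hb (s \ A) (fun j => v * lg c (q ^ 2 * z j)) (fun j => q ^ 2 * z j)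
  have h3 : A.card + (s \ A).card = s.card := by
    rw [Finset.card_sdiff_of_subset hA]
    have := Finset.card_le_card hA
    omega
  simp only at h1 h2
  omega

end Pool.Agent.H96.EX

end

section

/-!
# Divisibility of antisymmetric polynomials by a Vandermonde product
-/

namespace Pool.Agent.H34.Hom

open MvPolynomial

variable {σ : Type*}

lemma dvd_of_vanish [DecidableEq σ] (P : MvPolynomial σ ℂ) (a b : σ)
    (hP : ∀ z : σ → ℂ, z a = z b → eval z P = 0) : (X a - X b : MvPolynomial σ ℂ) ∣ P := by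
  set φ : MvPolynomial σ ℂ →ₐ[ℂ] MvPolynomial σ ℂ := aeval (fun i => if i = a then X b else X i) with hφ
  have h0 : φ P = 0 := by
    apply MvPolynomial.funext
    intro z
    rw [map_zero, hφ]
    have h1 : eval z (aeval (fun i => if i = a then X b else (X i : MvPolynomial σ ℂ)) P) =
        eval (fun i => if i = a then z b else z i) P := by
      have h1' : ((aeval z : MvPolynomial σ ℂ →ₐ[ℂ] ℂ).comp
          (aeval (fun i => if i = a then X b else (X i : MvPolynomial σ ℂ)))) =
          aeval (fun i => if i = a then z b else z i) := by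
        apply MvPolynomial.algHom_ext
        intro i
        rw [AlgHom.comp_apply, aeval_X, aeval_X]
        by_cases hi : i = a
        · rw [if_pos hi, if_pos hi, aeval_X]
        · rw [if_neg hi, if_neg hi, aeval_X]
      have h1'' := DFunLike.congr_fun h1' P
      exact h1''
    rw [h1]
    apply hP
    by_cases hb : b = a <;> simp [hb]
  set I : Ideal (MvPolynomial σ ℂ) := Ideal.span {X a - X b} with hI
  have h2 : ((Ideal.Quotient.mkₐ ℂ I).comp φ) = Ideal.Quotient.mkₐ ℂ I := by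
    apply MvPolynomial.algHom_ext
    intro i
    rw [AlgHom.comp_apply, hφ, aeval_X]
    by_cases hi : i = a
    · rw [if_pos hi, hi]
      rw [Ideal.Quotient.mkₐ_eq_mk, Ideal.Quotient.eq]
      rw [hI, Ideal.mem_span_singleton]
      exact ⟨-1, by ring⟩
    · rw [if_neg hi]
  have h3 : Ideal.Quotient.mkₐ ℂ I P = 0 := by
    rw [← h2, AlgHom.comp_apply, h0, map_zero]
  rw [Ideal.Quotient.mkₐ_eq_mk, Ideal.Quotient.eq_zero_iff_mem, hI, Ideal.mem_span_singleton] at h3
  exact h3

lemma irreducible_X_sub_X [DecidableEq σ] (a b : σ) (hab : a ≠ b) :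
    Irreducible (X a - X b : MvPolynomial σ ℂ) := by
  have h := irreducible_sumSMulX (n := σ) (R := ℂ) (Finsupp.single a 1 - Finsupp.single b 1) ?_ ?_
  · have e : sumSMulX (Finsupp.single a (1:ℂ) - Finsupp.single b 1) = (X a - X b : MvPolynomial σ ℂ) := by
      simp [sumSMulX, map_sub, Finsupp.linearCombination_single]
    rwa [e] at h
  · refine ⟨a, ?_⟩
    rw [Finsupp.mem_support_iff]
    simp [hab]
  · intro r hr
    have := hr a
    simp [hab] at this
    exact isUnit_iff_ne_zero.2 this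

lemma not_dvd_X_sub_X [DecidableEq σ] (a b c d : σ) (hcd : c ≠ d)
    (h : ¬((c = a ∧ d = b) ∨ (c = b ∧ d = a))) :
    ¬ (X a - X b : MvPolynomial σ ℂ) ∣ (X c - X d) := by
  rintro ⟨Q, hQ⟩
  have key : ∀ z : σ → ℂ, z a = z b → z c = z d := by
    intro z hz
    have h1 := congrArg (eval z) hQ
    simp only [map_sub, map_mul, eval_X] at h1
    rw [hz, sub_self, zero_mul, sub_eq_zero] at h1
    exact h1
  by_cases hc : c = a ∨ c = b
  · have hd1 : d ≠ a := by
      rintro rfl
      rcases hc with rfl | rfl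
      · exact hcd rfl
      · exact h (Or.inr ⟨rfl, rfl⟩)
    have hd2 : d ≠ b := by
      rintro rfl
      rcases hc with rfl | rfl
      · exact h (Or.inl ⟨rfl, rfl⟩)
      · exact hcd rfl
    have := key (fun i => if i = d then 1 else 0) (by simp [hd1.symm, hd2.symm])
    simp [hcd] at this
  · push Not at hc
    have := key (fun i => if i = c then 1 else 0) (by simp [hc.1.symm, hc.2.symm])
    simp [hcd.symm] at this

lemma prod_dvd_of_vanish [DecidableEq σ] (P : MvPolynomial σ ℂ) (T : Finset (σ × σ))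
    (h1 : ∀ x ∈ T, x.1 ≠ x.2) (h2 : ∀ x ∈ T, (x.2, x.1) ∉ T)
    (hP : ∀ x ∈ T, ∀ z : σ → ℂ, z x.1 = z x.2 → eval z P = 0) :
    (∏ x ∈ T, (X x.1 - X x.2 : MvPolynomial σ ℂ)) ∣ P := by
  apply Finset.prod_dvd_of_isRelPrime
  · intro x hx y hy hxy
    rw [Function.onFun]
    rw [(irreducible_X_sub_X x.1 x.2 (h1 x hx)).isRelPrime_iff_not_dvd]
    apply not_dvd_X_sub_X _ _ _ _ (h1 y hy)
    rintro (⟨e1, e2⟩ | ⟨e1, e2⟩)
    · exact hxy (Prod.ext e1.symm e2.symm)
    · apply h2 x hx
      have : (x.2, x.1) = y := Prod.ext e1.symm e2.symm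
      rw [this]; exact hy
  · intro x hx
    exact dvd_of_vanish P _ _ (hP x hx)

end Pool.Agent.H34.Hom

end

section

/-!
# `∏_{j<k} (z_j² + z_j z_k + z_k²) · SG` is a polynomial
-/

namespace Pool.Agent.H34.Hom

open Finset MvPolynomial Pool.Agent.H96.EX

/-- pairwise distinct cubes -/
def Gen (M : ℕ) (z : ℕ → ℂ) : Prop := ∀ j < M, ∀ k < M, j ≠ k → z j ^ 3 ≠ z k ^ 3

/-- product over pairs `j < k < M` -/
def pp {R : Type*} [CommMonoid R] (M : ℕ) (F : ℕ → ℕ → R) : R :=
  ∏ k ∈ range M, ∏ j ∈ range k, F j k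

lemma pp_mul {R : Type*} [CommMonoid R] (M : ℕ) (F G : ℕ → ℕ → R) :
    pp M (fun j k => F j k * G j k) = pp M F * pp M G := by
  unfold pp
  simp only [prod_mul_distrib]

lemma pp_congr {R : Type*} [CommMonoid R] (M : ℕ) (F G : ℕ → ℕ → R)
    (h : ∀ j k, j < k → k < M → F j k = G j k) : pp M F = pp M G := by
  unfold pp
  apply prod_congr rfl
  intro k hk
  apply prod_congr rfl
  intro j hj
  exact h j k (mem_range.1 hj) (mem_range.1 hk)

lemma pp_symm {R : Type*} [CommMonoid R] (M : ℕ) (G : ℕ → ℕ → R) :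
    pp M (fun j k => G j k * G k j) * ∏ j ∈ range M, G j j =
      ∏ j ∈ range M, ∏ k ∈ range M, G j k := by
  unfold pp
  induction M with
  | zero => simp
  | succ M ih =>
    rw [prod_range_succ, prod_range_succ, prod_range_succ (fun j => ∏ k ∈ range (M + 1), G j k)]
    simp only [prod_range_succ (fun k => G _ k)]
    rw [prod_mul_distrib (f := fun x => ∏ k ∈ range M, G x k), ← ih, prod_mul_distrib (s := range M)]
    simp only []
    ac_rfl

lemma pp_ne_zero {R : Type*} [CommRing R] [IsDomain R] (M : ℕ) (F : ℕ → ℕ → R)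
    (h : ∀ j k, j < k → k < M → F j k ≠ 0) : pp M F ≠ 0 := by
  unfold pp
  rw [prod_ne_zero_iff]
  intro k hk
  rw [prod_ne_zero_iff]
  intro j hj
  exact h j k (mem_range.1 hj) (mem_range.1 hk)

/-- the product of `z_j² + z_j z_k + z_k²` over pairs -/
noncomputable def PM (M : ℕ) (z : ℕ → ℂ) : ℂ := pp M fun j k => z j ^ 2 + z j * z k + z k ^ 2

noncomputable def VM (M : ℕ) (z : ℕ → ℂ) : ℂ := pp M fun j k => z k - z j

noncomputable def V3 (M : ℕ) (z : ℕ → ℂ) : ℂ := pp M fun j k => z k ^ 3 - z j ^ 3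

lemma V3_eq (M : ℕ) (z : ℕ → ℂ) : V3 M z = VM M z * PM M z := by
  unfold V3 VM PM
  rw [← pp_mul]
  apply pp_congr
  intro j k _ _
  ring

lemma V3_ne_zero {M : ℕ} {z : ℕ → ℂ} (hz : Gen M z) : V3 M z ≠ 0 := by
  apply pp_ne_zero
  intro j k hjk hk
  exact sub_ne_zero.2 (hz k hk j (by omega) (by omega))

lemma gen_of_V3_ne_zero {M : ℕ} {z : ℕ → ℂ} (h : V3 M z ≠ 0) : Gen M z := by
  have key : ∀ j k, j < k → k < M → z k ^ 3 - z j ^ 3 ≠ 0 := by
    intro j k hjk hk h0
    apply h
    unfold V3 pp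
    apply prod_eq_zero (mem_range.2 hk)
    exact prod_eq_zero (mem_range.2 hjk) h0
  intro j hj k hk hjk
  rcases Nat.lt_or_gt_of_ne hjk with h1 | h1
  · intro e; exact key j k h1 hk (by rw [e]; ring)
  · intro e; exact key k j h1 hj (by rw [e]; ring)

lemma V3_det (M : ℕ) (z : ℕ → ℂ) :
    V3 M z = (Matrix.vandermonde (fun i : Fin M => z i ^ 3)).det := by
  rw [Matrix.det_vandermonde]
  rw [Finset.prod_comm' (t' := Finset.univ) (s' := fun j => Finset.Iio j)
    (by intro i j; simp)]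
  unfold V3 pp
  rw [Finset.prod_range]
  apply prod_congr rfl
  intro k _
  have h := Fin.map_valEmbedding_Iio k
  rw [← Nat.Iio_eq_range, ← h, prod_map]
  rfl

lemma V3_swap {M : ℕ} (z : ℕ → ℂ) {a b : ℕ} (ha : a < M) (hb : b < M) (hab : a ≠ b) :
    V3 M (z ∘ Equiv.swap a b) = - V3 M z := by
  rw [V3_det, V3_det]
  set τ : Equiv.Perm (Fin M) := Equiv.swap ⟨a, ha⟩ ⟨b, hb⟩ with hτ
  have h1 : (Matrix.vandermonde (fun i : Fin M => (z ∘ Equiv.swap a b) i ^ 3)) =
      (Matrix.vandermonde (fun i : Fin M => z i ^ 3)).submatrix τ id := by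
    ext i j
    simp only [Matrix.vandermonde_apply, Matrix.submatrix_apply, Function.comp, id]
    congr 3
    rw [hτ]
    rcases eq_or_ne (i : ℕ) a with h | h
    · have : i = ⟨a, ha⟩ := Fin.ext h
      rw [this]; simp
    · rcases eq_or_ne (i : ℕ) b with h' | h'
      · have : i = ⟨b, hb⟩ := Fin.ext h'
        rw [this]; simp
      · rw [Equiv.swap_apply_of_ne_of_ne h h', Equiv.swap_apply_of_ne_of_ne]
        · intro e; exact h (congrArg Fin.val e)
        · intro e; exact h' (congrArg Fin.val e)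
  rw [h1, Matrix.det_permute, hτ, Equiv.Perm.sign_swap]
  · simp
  · intro e; exact hab (congrArg Fin.val e)

lemma SG_comp_perm (q u v : ℂ) {s : Finset ℕ} (c : List ℂ) (z : ℕ → ℂ) (τ : Equiv.Perm ℕ)
    (hs : s.map τ.toEmbedding = s) : SG q u v s c (z ∘ τ) = SG q u v s c z := by
  unfold SG
  refine Finset.sum_bij (fun A _ => A.map τ.toEmbedding) ?_ ?_ ?_ ?_
  · intro A hA
    rw [mem_powerset] at hA ⊢
    rw [← hs]
    exact Finset.map_subset_map.2 hA
  · intro A _ B _ h
    exact Finset.map_injective _ h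
  · intro B hB
    rw [mem_powerset] at hB
    refine ⟨B.map τ.symm.toEmbedding, ?_, ?_⟩
    · rw [mem_powerset]
      intro x hx
      rw [Finset.mem_map] at hx
      obtain ⟨y, hy, rfl⟩ := hx
      have := hB hy
      rw [← hs, Finset.mem_map] at this
      obtain ⟨x', hx', hxy⟩ := this
      have : τ.symm.toEmbedding y = x' := by
        rw [← hxy]; simp
      rw [this]; exact hx'
    · ext x
      simp
  · intro A hA
    have h1 : s \ A.map τ.toEmbedding = (s \ A).map τ.toEmbedding := by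
      rw [Finset.map_sdiff, hs]
    rw [h1]
    simp only [prod_map, Equiv.toEmbedding_apply, Function.comp_apply]

lemma map_swap_range {M a b : ℕ} (ha : a < M) (hb : b < M) :
    (range M).map (Equiv.swap a b).toEmbedding = range M := by
  apply Finset.eq_of_subset_of_card_le
  · intro x hx
    rw [Finset.mem_map] at hx
    obtain ⟨y, hy, rfl⟩ := hx
    rw [mem_range] at hy ⊢
    simp only [Equiv.toEmbedding_apply]
    rcases eq_or_ne y a with rfl | h
    · rw [Equiv.swap_apply_left]; exact hb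
    · rcases eq_or_ne y b with rfl | h'
      · rw [Equiv.swap_apply_right]; exact ha
      · rw [Equiv.swap_apply_of_ne_of_ne h h']; exact hy
  · rw [Finset.card_map]

section poly

variable {κ : Type*}

/-- variable `z_j` -/
noncomputable def Z (j : ℕ) : MvPolynomial (κ ⊕ ℕ) ℂ := X (Sum.inr j)

noncomputable def Cv (a : κ) : MvPolynomial (κ ⊕ ℕ) ℂ := X (Sum.inl a)

/-- evaluation point -/
def pt (y : κ → ℂ) (z : ℕ → ℂ) : κ ⊕ ℕ → ℂ := Sum.elim y z

@[simp] lemma eval_Z (y : κ → ℂ) (z : ℕ → ℂ) (j : ℕ) : eval (pt y z) (Z j) = z j := by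
  simp [Z, pt]

@[simp] lemma eval_Cv (y : κ → ℂ) (z : ℕ → ℂ) (a : κ) : eval (pt y z) (Cv a) = y a := by
  simp [Cv, pt]

/-- pair factor -/
noncomputable def hA (q : ℂ) (A : Finset ℕ) (j k : ℕ) : MvPolynomial (κ ⊕ ℕ) ℂ :=
  if j ∈ A then
    if k ∈ A then Z k ^ 3 - Z j ^ 3 else (Z k - C q * Z j) ^ 3
  else
    if k ∈ A then - (Z j - C q * Z k) ^ 3 else Z k ^ 3 - Z j ^ 3

noncomputable def Npoly (q u v : ℂ) (M : ℕ) (l : List κ) : MvPolynomial (κ ⊕ ℕ) ℂ :=
  ∑ A ∈ (range M).powerset,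
    (∏ j ∈ A, C u * (l.map fun a => Cv a - C q * Z j).prod) *
    (∏ j ∈ range M \ A, C v * (l.map fun a => Cv a - C (q ^ 2) * Z j).prod) *
    pp M (hA q A)

lemma eval_list_prod (y : κ → ℂ) (z : ℕ → ℂ) (l : List κ) (w : ℂ) (j : ℕ) :
    eval (pt y z) ((l.map fun a => Cv a - C w * Z j).prod) = lg (l.map y) (w * z j) := by
  induction l with
  | nil => simp
  | cons a l ih => simp [ih]

lemma eval_pp (y : κ → ℂ) (z : ℕ → ℂ) (M : ℕ) (F : ℕ → ℕ → MvPolynomial (κ ⊕ ℕ) ℂ) :
    eval (pt y z) (pp M F) = pp M (fun j k => eval (pt y z) (F j k)) := by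
  unfold pp
  simp only [map_prod]

lemma prod_prod_ite (M : ℕ) (A : Finset ℕ) (hA : A ⊆ range M) (F : ℕ → ℕ → ℂ) :
    ∏ j ∈ range M, ∏ k ∈ range M, (if j ∈ A ∧ k ∉ A then F j k else 1) =
      ∏ j ∈ A, ∏ k ∈ range M \ A, F j k := by
  rw [← prod_subset hA]
  · apply prod_congr rfl
    intro j hj
    rw [← prod_subset (s₁ := range M \ A) (s₂ := range M) sdiff_subset]
    · apply prod_congr rfl
      intro k hk
      rw [if_pos ⟨hj, (mem_sdiff.1 hk).2⟩]
    · intro k hk hk'
      rw [if_neg]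
      rintro ⟨_, h⟩
      exact hk' (mem_sdiff.2 ⟨hk, h⟩)
  · intro j _ hj
    apply prod_eq_one
    intro k _
    rw [if_neg]
    rintro ⟨h, _⟩
    exact hj h

theorem eval_Npoly (q u v : ℂ) (hq : q ^ 2 + q + 1 = 0) (M : ℕ) (l : List κ) (y : κ → ℂ)
    (z : ℕ → ℂ) (hz : Gen M z) :
    eval (pt y z) (Npoly q u v M l) = V3 M z * SG q u v (range M) (l.map y) z := by
  have q3 : q ^ 3 = 1 := by linear_combination (q - 1) * hq
  unfold Npoly SG
  rw [map_sum, mul_sum]
  apply sum_congr rfl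
  intro A hAM
  rw [mem_powerset] at hAM
  rw [map_mul, map_mul, map_prod, map_prod, eval_pp]
  simp only [map_mul, eval_C, eval_list_prod]
  have h1 : pp M (fun j k => eval (pt y z) (hA q A j k)) =
      V3 M z * ∏ j ∈ A, ∏ k ∈ range M \ A, gg q (z j) (z k) := by
    rw [← prod_prod_ite M A hAM]
    have h2 := pp_symm M (fun j k => if j ∈ A ∧ k ∉ A then gg q (z j) (z k) else 1)
    have h3 : ∏ j ∈ range M, (if j ∈ A ∧ j ∉ A then gg q (z j) (z j) else 1) = 1 := by
      apply prod_eq_one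
      intro j _
      rw [if_neg]
      rintro ⟨h, h'⟩; exact h' h
    rw [h3, mul_one] at h2
    rw [← h2]
    unfold V3
    rw [← pp_mul]
    apply pp_congr
    intro j k hjk hk
    have hne : z k ^ 3 ≠ z j ^ 3 := hz k hk j (by omega) (by omega)
    have hfac : z k ^ 3 - z j ^ 3 = (z k - z j) * (z k - q * z j) * (z k - q ^ 2 * z j) := by
      linear_combination (z k ^ 2 * z j - q * z k * z j ^ 2) * hq + z j ^ 3 * q3
    have hp : (z k - z j) * (z k - q * z j) * (z k - q ^ 2 * z j) ≠ 0 := by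
      rw [← hfac]; exact sub_ne_zero.2 hne
    have hp1 : z k - z j ≠ 0 := fun h => hp (by rw [h]; ring)
    have hp2 : z k - q * z j ≠ 0 := fun h => hp (by rw [h]; ring)
    have hp3 : z k - q ^ 2 * z j ≠ 0 := fun h => hp (by rw [h]; ring)
    unfold hA
    by_cases hj : j ∈ A <;> by_cases hk' : k ∈ A
    · simp [hj, hk']
    · simp only [hj, hk', if_true, if_false, not_false_eq_true, and_self, not_true_eq_false,
        and_false, false_and, mul_one, map_pow, map_sub, map_mul, eval_Z, eval_C]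
      rw [hfac, gg]
      field_simp
    · simp only [hj, hk', if_true, if_false, not_false_eq_true, and_self, not_true_eq_false,
        and_false, false_and, one_mul, map_neg, map_pow, map_sub, map_mul, eval_Z, eval_C]
      have hp4 : z j - z k ≠ 0 := fun h => hp1 (by linear_combination -h)
      have hp5 : z j - q ^ 2 * z k ≠ 0 := fun h => hp2 (by linear_combination (-q) * h - z k * q3)
      have hfac' : z k ^ 3 - z j ^ 3 = -((z j - z k) * (z j - q * z k) * (z j - q ^ 2 * z k)) := by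
        linear_combination -(z j ^ 2 * z k - q * z j * z k ^ 2) * hq - z k ^ 3 * q3
      rw [gg, hfac']
      field_simp
    · simp [hj, hk']
  rw [h1]
  ring

lemma V3poly_exists (M : ℕ) : ∃ P : MvPolynomial (κ ⊕ ℕ) ℂ, P ≠ 0 ∧
    ∀ (y : κ → ℂ) (z : ℕ → ℂ), eval (pt y z) P = V3 M z := by
  refine ⟨pp M (fun j k => Z k ^ 3 - Z j ^ 3), ?_, ?_⟩
  · intro h
    have h1 : eval (pt (fun _ : κ => (0 : ℂ)) (fun n => (n : ℂ))) (pp M (fun j k => Z k ^ 3 - Z j ^ 3)) = 0 := by
      rw [h, map_zero]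
    rw [eval_pp] at h1
    revert h1
    apply pp_ne_zero
    intro j k hjk _
    simp only [map_sub, map_pow, eval_Z]
    rw [sub_ne_zero]
    have : (k ^ 3 : ℕ) ≠ j ^ 3 := by
      intro e
      exact (Nat.pow_lt_pow_left hjk (by norm_num : (3 : ℕ) ≠ 0)).ne e.symm
    exact_mod_cast this
  · intro y z
    rw [eval_pp]
    unfold V3
    simp

lemma VMpoly (M : ℕ) (y : κ → ℂ) (z : ℕ → ℂ) :
    eval (pt y z) (pp M (fun j k => Z k - Z j)) = VM M z := by
  rw [eval_pp]
  unfold VM
  simp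

/-- polynomials agreeing at generic points are equal -/
lemma eq_of_gen (M : ℕ) (P Q : MvPolynomial (κ ⊕ ℕ) ℂ)
    (h : ∀ (y : κ → ℂ) (z : ℕ → ℂ), Gen M z → eval (pt y z) P = eval (pt y z) Q) : P = Q := by
  obtain ⟨V, hV0, hV⟩ := V3poly_exists (κ := κ) M
  have h1 : (P - Q) * V = 0 := by
    apply MvPolynomial.funext
    intro w
    have hw : w = pt (fun a => w (Sum.inl a)) (fun j => w (Sum.inr j)) := by
      funext x; cases x <;> rfl
    rw [hw, map_mul, map_zero, map_sub]
    rcases eq_or_ne (V3 M (fun j => w (Sum.inr j))) 0 with h0 | h0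
    · rw [hV, h0, mul_zero]
    · rw [h _ _ (gen_of_V3_ne_zero h0), sub_self, zero_mul]
  rcases mul_eq_zero.1 h1 with h2 | h2
  · exact sub_eq_zero.1 h2
  · exact absurd h2 hV0

theorem Npoly_vanish (q u v : ℂ) (hq : q ^ 2 + q + 1 = 0) (M : ℕ) (l : List κ) (a b : ℕ)
    (ha : a < M) (hb : b < M) (hab : a ≠ b) (w : κ ⊕ ℕ → ℂ)
    (hw : w (Sum.inr a) = w (Sum.inr b)) : eval w (Npoly q u v M l) = 0 := by
  set σ : Equiv.Perm ℕ := Equiv.swap a b with hσ
  have h1 : rename (Sum.map id σ) (Npoly q u v M l) = - Npoly q u v M l := by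
    apply eq_of_gen M
    intro y z hz
    rw [eval_rename]
    have e1 : pt y z ∘ Sum.map id σ = pt y (z ∘ σ) := by
      funext x; cases x <;> rfl
    have hz' : Gen M (z ∘ σ) := by
      apply gen_of_V3_ne_zero
      rw [hσ, V3_swap z ha hb hab]
      exact neg_ne_zero.2 (V3_ne_zero hz)
    rw [e1, eval_Npoly q u v hq M l y _ hz', map_neg, eval_Npoly q u v hq M l y _ hz,
      hσ, V3_swap z ha hb hab, SG_comp_perm _ _ _ _ _ _ (map_swap_range ha hb)]
    ring
  have h2 := congrArg (eval w) h1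
  rw [eval_rename, map_neg] at h2
  have e2 : w ∘ Sum.map id σ = w := by
    funext x
    cases x with
    | inl x => rfl
    | inr x =>
      simp only [Function.comp_apply, Sum.map_inr]
      rcases eq_or_ne x a with h | h
      · rw [h, hσ, Equiv.swap_apply_left]; exact hw.symm
      · rcases eq_or_ne x b with h' | h'
        · rw [h', hσ, Equiv.swap_apply_right]; exact hw
        · rw [hσ, Equiv.swap_apply_of_ne_of_ne h h']
  rw [e2] at h2
  have h3 : (2 : ℂ) * eval w (Npoly q u v M l) = 0 := by linear_combination h2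
  rcases mul_eq_zero.1 h3 with h4 | h4
  · norm_num at h4
  · exact h4

/-- **Polynomiality**: `PM · SG` is a polynomial in the legs and the strands. -/
theorem SG_ext [DecidableEq κ] (q u v : ℂ) (hq : q ^ 2 + q + 1 = 0) (M : ℕ) (l : List κ) :
    ∃ P : MvPolynomial (κ ⊕ ℕ) ℂ, ∀ (y : κ → ℂ) (z : ℕ → ℂ), Gen M z →
      eval (pt y z) P = PM M z * SG q u v (range M) (l.map y) z := by
  classical
  set T : Finset ((κ ⊕ ℕ) × (κ ⊕ ℕ)) :=
    ((range M ×ˢ range M).filter (fun x => x.1 < x.2)).image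
      (fun x => ((Sum.inr x.2 : κ ⊕ ℕ), (Sum.inr x.1 : κ ⊕ ℕ))) with hT
  have hmem : ∀ x ∈ T, ∃ j k : ℕ, j < k ∧ k < M ∧ x = (Sum.inr k, Sum.inr j) := by
    intro x hx
    rw [hT, mem_image] at hx
    obtain ⟨⟨j, k⟩, hjk, rfl⟩ := hx
    rw [mem_filter, mem_product, mem_range, mem_range] at hjk
    exact ⟨j, k, hjk.2, hjk.1.2, rfl⟩
  have hdvd := prod_dvd_of_vanish (Npoly q u v M l) T
    (by
      intro x hx
      obtain ⟨j, k, hjk, _, rfl⟩ := hmem x hx
      intro e
      have := Sum.inr.inj e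
      omega)
    (by
      intro x hx hx'
      obtain ⟨j, k, hjk, _, rfl⟩ := hmem x hx
      obtain ⟨j', k', hjk', _, e⟩ := hmem _ hx'
      have e1 := Sum.inr.inj (Prod.ext_iff.1 e).1
      have e2 := Sum.inr.inj (Prod.ext_iff.1 e).2
      omega)
    (by
      intro x hx w hw
      obtain ⟨j, k, hjk, hk, rfl⟩ := hmem x hx
      exact Npoly_vanish q u v hq M l k j hk (by omega) (by omega) w hw)
  have hprod : (∏ x ∈ T, (X x.1 - X x.2 : MvPolynomial (κ ⊕ ℕ) ℂ)) = pp M (fun j k => Z k - Z j) := by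
    rw [hT, prod_image, prod_filter, prod_product]
    · unfold pp
      rw [prod_comm]
      apply prod_congr rfl
      intro k hk
      rw [← prod_filter]
      apply prod_congr
      · ext j
        rw [mem_filter, mem_range, mem_range]
        rw [mem_range] at hk
        omega
      · intro j _; rfl
    · intro x _ y _ hxy
      have e1 := Sum.inr.inj (Prod.ext_iff.1 hxy).1
      have e2 := Sum.inr.inj (Prod.ext_iff.1 hxy).2
      exact Prod.ext e2 e1
  rw [hprod] at hdvd
  obtain ⟨P, hP⟩ := hdvd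
  refine ⟨P, ?_⟩
  intro y z hz
  have h1 := eval_Npoly q u v hq M l y z hz
  rw [hP, map_mul, VMpoly, V3_eq] at h1
  have h2 : VM M z ≠ 0 := by
    intro h
    apply V3_ne_zero hz
    rw [V3_eq, h, zero_mul]
  apply mul_left_cancel₀ h2
  rw [h1]; ring

end poly

end Pool.Agent.H34.Hom

end

section

/-!
# Homogeneous limits of the leg sums, and coefficientwise limits of polynomials
-/

namespace Pool.Agent.H34.Hom

open Finset Polynomial Pool.Agent.H96.EX Filter Topology

/-- the path of parameters towards the homogeneous point -/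
noncomputable def zt (t : ℝ) (j : ℕ) : ℂ := 1 + (j : ℂ) * (t : ℂ)

lemma zt_eq (t : ℝ) (j : ℕ) : zt t j = ((1 + j * t : ℝ) : ℂ) := by
  unfold zt; push_cast; ring

lemma gen_zt (M : ℕ) {t : ℝ} (ht : 0 < t) : Gen M (zt t) := by
  intro j _ k _ hjk h
  rw [zt_eq, zt_eq] at h
  have h1 : (1 + (j : ℝ) * t) ^ 3 = (1 + (k : ℝ) * t) ^ 3 := by exact_mod_cast h
  have h2 : (1 + (j : ℝ) * t) = (1 + (k : ℝ) * t) := by
    have hodd : Odd 3 := by decide
    exact (Odd.strictMono_pow hodd).injective h1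
  have h3 : ((j : ℝ) - k) * t = 0 := by linear_combination h2
  rcases mul_eq_zero.1 h3 with h4 | h4
  · apply hjk
    have : (j : ℝ) = k := by linarith
    exact_mod_cast this
  · exact ht.ne' h4

lemma zt_ne_zero {t : ℝ} (ht : 0 < t) (j : ℕ) : zt t j ≠ 0 := by
  rw [zt_eq]
  have : (0 : ℝ) < 1 + j * t := by positivity
  exact_mod_cast this.ne'

lemma tendsto_zt (j : ℕ) : Tendsto (fun t : ℝ => zt t j) (𝓝[>] 0) (𝓝 1) := by
  have h : Continuous (fun t : ℝ => zt t j) := by unfold zt; fun_prop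
  have h2 := (h.tendsto 0).mono_left (nhdsWithin_le_nhds (s := Set.Ioi 0))
  simpa [zt] using h2

/-- leg sum times the pair product -/
noncomputable def SS (q u v : ℂ) (M : ℕ) (c : List ℂ) (z : ℕ → ℂ) : ℂ :=
  PM M z * SG q u v (range M) c z

theorem exists_HV {q : ℂ} (u v : ℂ) (hq : q ^ 2 + q + 1 = 0) (M : ℕ) (c : List ℂ) :
    ∃ x : ℂ, Tendsto (fun t : ℝ => SS q u v M c (zt t)) (𝓝[>] 0) (𝓝 x) := by
  classical
  obtain ⟨P, hP⟩ := SG_ext (κ := ℂ) q u v hq M c
  refine ⟨MvPolynomial.eval (pt id (fun _ => 1)) P, ?_⟩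
  have h1 : Tendsto (fun t : ℝ => MvPolynomial.eval (pt id (zt t)) P) (𝓝[>] 0)
      (𝓝 (MvPolynomial.eval (pt id (fun _ => 1)) P)) := by
    apply (MvPolynomial.continuous_eval P).continuousAt.tendsto.comp
    rw [tendsto_pi_nhds]
    intro x
    cases x with
    | inl x => exact tendsto_const_nhds
    | inr x => exact tendsto_zt x
  refine h1.congr' ?_
  filter_upwards [self_mem_nhdsWithin] with t ht
  rw [hP id (zt t) (gen_zt M ht), List.map_id]
  rfl

/-- homogeneous value of the leg sum -/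
noncomputable def HV (q u v : ℂ) (M : ℕ) (c : List ℂ) : ℂ :=
  limUnder (𝓝[>] (0 : ℝ)) (fun t : ℝ => SS q u v M c (zt t))

theorem tendsto_HV {q : ℂ} (u v : ℂ) (hq : q ^ 2 + q + 1 = 0) (M : ℕ) (c : List ℂ) :
    Tendsto (fun t : ℝ => SS q u v M c (zt t)) (𝓝[>] 0) (𝓝 (HV q u v M c)) := by
  obtain ⟨x, hx⟩ := exists_HV u v hq M c
  have := hx.limUnder_eq
  unfold HV
  rw [this]; exact hx

/-- joint limit: legs and strands tend to the homogeneous point along any generic path -/
theorem tendsto_HV' {κ : Type*} {q : ℂ} (u v : ℂ) (hq : q ^ 2 + q + 1 = 0) (M : ℕ) (l : List κ)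
    {F : Filter ℝ} (y : ℝ → κ → ℂ) (y0 : κ → ℂ) (hy : ∀ a, Tendsto (fun t => y t a) F (𝓝 (y0 a)))
    (z : ℝ → ℕ → ℂ) (hz : ∀ j, Tendsto (fun t => z t j) F (𝓝 1)) (hg : ∀ᶠ t in F, Gen M (z t)) :
    Tendsto (fun t : ℝ => SS q u v M (l.map (y t)) (z t)) F (𝓝 (HV q u v M (l.map y0))) := by
  classical
  obtain ⟨P, hP⟩ := SG_ext (κ := κ) q u v hq M l
  have h1 : Tendsto (fun t : ℝ => MvPolynomial.eval (pt (y t) (z t)) P) F
      (𝓝 (MvPolynomial.eval (pt y0 (fun _ => 1)) P)) := by
    apply (MvPolynomial.continuous_eval P).continuousAt.tendsto.comp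
    rw [tendsto_pi_nhds]
    intro x
    cases x with
    | inl x => exact hy x
    | inr x => exact hz x
  have h2 : Tendsto (fun t : ℝ => MvPolynomial.eval (pt y0 (zt t)) P) (𝓝[>] 0)
      (𝓝 (MvPolynomial.eval (pt y0 (fun _ => 1)) P)) := by
    apply (MvPolynomial.continuous_eval P).continuousAt.tendsto.comp
    rw [tendsto_pi_nhds]
    intro x
    cases x with
    | inl x => exact tendsto_const_nhds
    | inr x => exact tendsto_zt x
  have h3 : MvPolynomial.eval (pt y0 (fun _ => 1)) P = HV q u v M (l.map y0) := by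
    refine tendsto_nhds_unique h2 ?_
    refine (tendsto_HV u v hq M (l.map y0)).congr' ?_
    filter_upwards [self_mem_nhdsWithin] with t ht
    rw [hP y0 (zt t) (gen_zt M ht)]
    rfl
  rw [← h3]
  refine h1.congr' ?_
  filter_upwards [hg] with t ht
  rw [hP (y t) (z t) ht]
  rfl

/-! ### coefficientwise limits -/

/-- coefficientwise convergence -/
def CT (F : Filter ℝ) (p : ℝ → ℂ[X]) (P : ℂ[X]) : Prop :=
  ∀ k, Tendsto (fun t => (p t).coeff k) F (𝓝 (P.coeff k))

lemma CT.add {F : Filter ℝ} {p r : ℝ → ℂ[X]} {P R : ℂ[X]} (h1 : CT F p P) (h2 : CT F r R) :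
    CT F (fun t => p t + r t) (P + R) := by
  intro k
  simp only [coeff_add]
  exact (h1 k).add (h2 k)

lemma CT.sub {F : Filter ℝ} {p r : ℝ → ℂ[X]} {P R : ℂ[X]} (h1 : CT F p P) (h2 : CT F r R) :
    CT F (fun t => p t - r t) (P - R) := by
  intro k
  simp only [coeff_sub]
  exact (h1 k).sub (h2 k)

lemma CT.mul {F : Filter ℝ} {p r : ℝ → ℂ[X]} {P R : ℂ[X]} (h1 : CT F p P) (h2 : CT F r R) :
    CT F (fun t => p t * r t) (P * R) := by
  intro k
  simp only [coeff_mul]
  apply tendsto_finsetSum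
  intro x _
  exact (h1 x.1).mul (h2 x.2)

lemma CT.const (F : Filter ℝ) (P : ℂ[X]) : CT F (fun _ => P) P := fun _ => tendsto_const_nhds

lemma CT.C {F : Filter ℝ} {f : ℝ → ℂ} {x : ℂ} (h : Tendsto f F (𝓝 x)) :
    CT F (fun t => Polynomial.C (f t)) (Polynomial.C x) := by
  intro k
  simp only [coeff_C]
  split_ifs
  · exact h
  · exact tendsto_const_nhds

lemma CT.pow {F : Filter ℝ} {p : ℝ → ℂ[X]} {P : ℂ[X]} (h1 : CT F p P) (n : ℕ) :
    CT F (fun t => p t ^ n) (P ^ n) := by
  induction n with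
  | zero => simpa using CT.const F 1
  | succ n ih =>
    simp only [pow_succ]
    exact ih.mul h1

lemma CT.prod {F : Filter ℝ} {ι : Type*} (s : Finset ι) {p : ι → ℝ → ℂ[X]} {P : ι → ℂ[X]}
    (h : ∀ i ∈ s, CT F (p i) (P i)) : CT F (fun t => ∏ i ∈ s, p i t) (∏ i ∈ s, P i) := by
  classical
  induction s using Finset.induction_on with
  | empty => simpa using CT.const F 1
  | insert a s ha ih =>
    simp only [prod_insert ha]
    exact (h a (mem_insert_self a s)).mul (ih fun i hi => h i (mem_insert_of_mem hi))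

lemma CT.unique {F : Filter ℝ} [F.NeBot] {p : ℝ → ℂ[X]} {P R : ℂ[X]} (h1 : CT F p P)
    (h2 : CT F p R) : P = R := by
  ext k
  exact tendsto_nhds_unique (h1 k) (h2 k)

lemma CT.congr' {F : Filter ℝ} {p r : ℝ → ℂ[X]} {P : ℂ[X]} (h1 : CT F p P)
    (h : ∀ᶠ t in F, p t = r t) : CT F r P := by
  intro k
  refine (h1 k).congr' ?_
  filter_upwards [h] with t ht
  rw [ht]

/-- pointwise convergence with bounded degree gives coefficientwise convergence -/
theorem CT_of_pointwise {F : Filter ℝ} [F.NeBot] (p : ℝ → ℂ[X]) (M : ℕ)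
    (hdeg : ∀ t, (p t).natDegree ≤ M) (f : ℂ → ℂ)
    (h : ∀ x, Tendsto (fun t => (p t).eval x) F (𝓝 (f x))) :
    ∃ P : ℂ[X], P.natDegree ≤ M ∧ (∀ x, P.eval x = f x) ∧ CT F p P := by
  set v : ℕ → ℂ := fun i => (i : ℂ) with hv
  have hinj : Set.InjOn v (range (M + 1) : Finset ℕ) := by
    intro a _ b _ hab
    have hab' : (a : ℂ) = (b : ℂ) := hab
    exact_mod_cast hab'
  have hp : ∀ t, p t = ∑ i ∈ range (M + 1), Polynomial.C ((p t).eval (v i)) * Lagrange.basis (range (M + 1)) v i := by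
    intro t
    have h1 := Lagrange.eq_interpolate (s := range (M + 1)) (f := p t) hinj (by
      rw [card_range]
      exact lt_of_le_of_lt degree_le_natDegree (by exact_mod_cast Nat.lt_succ_of_le (hdeg t)))
    rw [Lagrange.interpolate_apply] at h1
    exact h1
  set P : ℂ[X] := ∑ i ∈ range (M + 1), Polynomial.C (f (v i)) * Lagrange.basis (range (M + 1)) v i with hP
  have hCT : CT F p P := by
    intro k
    have h2 : ∀ t, (p t).coeff k = ∑ i ∈ range (M + 1), (p t).eval (v i) * (Lagrange.basis (range (M + 1)) v i).coeff k := by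
      intro t
      conv_lhs => rw [hp t]
      rw [finsetSum_coeff]
      simp only [coeff_C_mul]
    simp only [h2]
    rw [hP, finsetSum_coeff]
    simp only [coeff_C_mul]
    apply tendsto_finsetSum
    intro i _
    exact (h _).mul_const _
  refine ⟨P, ?_, ?_, hCT⟩
  · rw [natDegree_le_iff_coeff_eq_zero]
    intro N hN
    have h3 : ∀ t, (p t).coeff N = 0 := fun t => coeff_eq_zero_of_natDegree_lt (lt_of_le_of_lt (hdeg t) hN)
    have h4 := hCT N
    simp only [h3] at h4
    exact (tendsto_nhds_unique h4 tendsto_const_nhds)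
  · intro x
    have h5 : ∀ t, (p t).eval x = ∑ i ∈ range (M + 1), (p t).eval (v i) * (Lagrange.basis (range (M + 1)) v i).eval x := by
      intro t
      conv_lhs => rw [hp t]
      rw [eval_finsetSum]
      simp only [eval_mul, eval_C]
    have h6 : Tendsto (fun t => (p t).eval x) F (𝓝 (P.eval x)) := by
      simp only [h5]
      rw [hP, eval_finsetSum]
      simp only [eval_mul, eval_C]
      apply tendsto_finsetSum
      intro i _
      exact (h _).mul_const _
    exact tendsto_nhds_unique h6 (h x)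

/-- the first leg as a polynomial variable -/
noncomputable def Sp (q u v : ℂ) (M : ℕ) (c : List ℂ) (z : ℕ → ℂ) : ℂ[X] :=
  C (PM M z) * SGpoly q u v (range M) c z

lemma Sp_eval (q u v : ℂ) (M : ℕ) (c : List ℂ) (z : ℕ → ℂ) (x : ℂ) :
    (Sp q u v M c z).eval x = SS q u v M (x :: c) z := by
  unfold Sp SS
  rw [eval_mul, eval_C, SGpoly_eval]

lemma Sp_natDegree (q u v : ℂ) (M : ℕ) (c : List ℂ) (z : ℕ → ℂ) :
    (Sp q u v M c z).natDegree ≤ M := by
  unfold Sp
  refine (natDegree_C_mul_le _ _).trans ?_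
  have := SGpoly_natDegree q u v (range M) c z
  rwa [card_range] at this

theorem exists_HP {q : ℂ} (u v : ℂ) (hq : q ^ 2 + q + 1 = 0) (M : ℕ) (c : List ℂ) :
    ∃ P : ℂ[X], P.natDegree ≤ M ∧ (∀ x, P.eval x = HV q u v M (x :: c)) ∧
      CT (𝓝[>] (0 : ℝ)) (fun t => Sp q u v M c (zt t)) P := by
  apply CT_of_pointwise _ M (fun t => Sp_natDegree q u v M c (zt t))
  intro x
  simp only [Sp_eval]
  exact tendsto_HV u v hq M (x :: c)

end Pool.Agent.H34.Hom

end

section

/-!
# The three-term relation and the exponents modulo 3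
-/

namespace Pool.Agent.H34.Hom

open Finset Polynomial Pool.Agent.H96.EX Filter Topology

/-- the part of `f` with exponents `≡ r` mod 3 -/
noncomputable def sec (r : ℕ) (f : ℂ[X]) : ℂ[X] :=
  ∑ k ∈ range (f.natDegree + 1), monomial k (f.coeff (3 * k + r))

lemma coeff_sec (r : ℕ) (f : ℂ[X]) (k : ℕ) : (sec r f).coeff k = f.coeff (3 * k + r) := by
  unfold sec
  rw [finsetSum_coeff]
  simp only [coeff_monomial]
  rw [Finset.sum_ite_eq' (range (f.natDegree + 1)) k (fun k => f.coeff (3 * k + r))]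
  split_ifs with h
  · rfl
  · rw [mem_range, not_lt] at h
    rw [coeff_eq_zero_of_natDegree_lt]
    omega

lemma sec_decomp (f : ℂ[X]) :
    f = expand ℂ 3 (sec 0 f) + X * expand ℂ 3 (sec 1 f) + X ^ 2 * expand ℂ 3 (sec 2 f) := by
  ext n
  have h3 : (0 : ℕ) < 3 := by norm_num
  simp only [coeff_add, pow_two, mul_assoc]
  rcases n with _ | _ | n
  · simp [coeff_expand h3, coeff_sec, mul_coeff_zero]
  · rw [coeff_X_mul, coeff_X_mul, mul_coeff_zero, coeff_expand h3, coeff_expand h3]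
    simp [coeff_sec]
  · rw [coeff_X_mul, coeff_X_mul, coeff_X_mul, coeff_expand h3, coeff_expand h3, coeff_expand h3,
      coeff_sec, coeff_sec, coeff_sec]
    obtain ⟨k, hk⟩ : ∃ k, n = 3 * k ∨ n = 3 * k + 1 ∨ n = 3 * k + 2 := ⟨n / 3, by omega⟩
    rcases hk with rfl | rfl | rfl
    · rw [if_neg (by omega), if_neg (by omega), if_pos (by omega), Nat.mul_div_cancel_left k h3]
      simp
    · rw [if_pos (by omega), if_neg (by omega), if_neg (by omega)]
      have : (3 * k + 1 + 1 + 1) / 3 = k + 1 := by omega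
      rw [this]
      simp; congr 1
    · rw [if_neg (by omega), if_pos (by omega), if_neg (by omega)]
      have : (3 * k + 2 + 1) / 3 = k + 1 := by omega
      rw [this]
      simp; congr 1

lemma eval_decomp (f : ℂ[X]) (x : ℂ) :
    f.eval x = (sec 0 f).eval (x ^ 3) + x * (sec 1 f).eval (x ^ 3) + x ^ 2 * (sec 2 f).eval (x ^ 3) := by
  conv_lhs => rw [sec_decomp f]
  simp only [eval_add, eval_mul, eval_X, eval_pow, expand_eval]

/-- vanishing of the `0` part -/
lemma sec0_eval_eq_zero {q : ℂ} (hq : q ^ 2 + q + 1 = 0) (f : ℂ[X]) (x : ℂ)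
    (h0 : f.eval x = 0) (h1 : f.eval (q ^ 2 * x) + f.eval (q * x) = 0) :
    (sec 0 f).eval (x ^ 3) = 0 := by
  have q3 : q ^ 3 = 1 := by linear_combination (q - 1) * hq
  have e1 : (q * x) ^ 3 = x ^ 3 := by rw [mul_pow, q3, one_mul]
  have e2 : (q ^ 2 * x) ^ 3 = x ^ 3 := by
    rw [mul_pow]; have : (q ^ 2) ^ 3 = 1 := by rw [← pow_mul, mul_comm, pow_mul, q3, one_pow]
    rw [this, one_mul]
  rw [eval_decomp f x] at h0
  rw [eval_decomp f (q ^ 2 * x), eval_decomp f (q * x), e1, e2] at h1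
  have h3 : (3 : ℂ) * (sec 0 f).eval (x ^ 3) = 0 := by
    linear_combination h0 + h1 + (-(x * (sec 1 f).eval (x ^ 3)) -
      (x ^ 2 * (sec 2 f).eval (x ^ 3)) * (q ^ 2 - q + 1)) * hq
  rcases mul_eq_zero.1 h3 with h | h
  · norm_num at h
  · exact h

/-- vanishing of the `2` part -/
lemma sec2_eval_eq_zero {q : ℂ} (hq : q ^ 2 + q + 1 = 0) (f : ℂ[X]) (x : ℂ) (hx : x ≠ 0)
    (h0 : f.eval x = 0) (h1 : f.eval (q ^ 2 * x) + q ^ 2 * f.eval (q * x) = 0) :
    (sec 2 f).eval (x ^ 3) = 0 := by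
  have q3 : q ^ 3 = 1 := by linear_combination (q - 1) * hq
  have e1 : (q * x) ^ 3 = x ^ 3 := by rw [mul_pow, q3, one_mul]
  have e2 : (q ^ 2 * x) ^ 3 = x ^ 3 := by
    rw [mul_pow]; have : (q ^ 2) ^ 3 = 1 := by rw [← pow_mul, mul_comm, pow_mul, q3, one_pow]
    rw [this, one_mul]
  rw [eval_decomp f x] at h0
  rw [eval_decomp f (q ^ 2 * x), eval_decomp f (q * x), e1, e2] at h1
  -- multiply the second relation by q² : q² f(q² x) + q f(q x) + f(x) = 3 x² sec 2
  have h3 : (3 : ℂ) * (x ^ 2 * (sec 2 f).eval (x ^ 3)) = 0 := by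
    have q4 : q ^ 4 = q := by linear_combination q * q3
    have q6 : q ^ 6 = 1 := by linear_combination (q ^ 3 + 1) * q3
    linear_combination h0 + q ^ 2 * h1 +
      (-((sec 0 f).eval (x ^ 3))) * (hq + q * q3) +
      (-(x * (sec 1 f).eval (x ^ 3))) * (hq + (q + q ^ 2) * q3) +
      (-(x ^ 2 * (sec 2 f).eval (x ^ 3))) * ((q ^ 3 + 1) * q3 + (q ^ 3 + 1) * q3)
  rcases mul_eq_zero.1 h3 with h | h
  · norm_num at h
  · rcases mul_eq_zero.1 h with h' | h'
    · exact absurd h' (pow_ne_zero 2 hx)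
    · exact h'

/-! ### three-term relation for the leg sums -/

/-- product over the other strands -/
lemma lg_neg (c : List ℂ) (x : ℂ) : lg c x = (-1) ^ c.length * (c.map fun a => x - a).prod := by
  induction c with
  | nil => simp
  | cons a c ih =>
    rw [lg_cons, ih, List.length_cons, List.map_cons, List.prod_cons, pow_succ]
    ring

lemma gen_facts {q : ℂ} (hq : q ^ 2 + q + 1 = 0) {M : ℕ} {z : ℕ → ℂ} (hz : Gen M z) {a : ℕ} (ha : a < M)
    {j : ℕ} (hj : j ∈ (range M).erase a) :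
    z j ≠ z a ∧ z j ≠ q * z a ∧ z j ≠ q ^ 2 * z a := by
  have q3 : q ^ 3 = 1 := by linear_combination (q - 1) * hq
  have hja := ne_of_mem_erase hj
  have hjM := mem_range.1 (mem_of_mem_erase hj)
  have h := hz j hjM a ha hja
  refine ⟨fun e => h (by rw [e]), fun e => h ?_, fun e => h ?_⟩
  · rw [e, mul_pow, q3, one_mul]
  · rw [e, mul_pow, ← pow_mul, mul_comm 2 3, pow_mul, q3, one_pow, one_mul]

/-- common factor of the two recursions -/
noncomputable def Wf (q u v : ℂ) (M : ℕ) (a : ℕ) (c : List ℂ) (z : ℕ → ℂ) : ℂ :=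
  PM M z / (∏ j ∈ (range M).erase a, (z j ^ 2 + z j * z a + z a ^ 2)) * z a *
    SG q u v ((range M).erase a) (z a :: c) z

lemma SS_rec1 {q : ℂ} (u v : ℂ) (hq : q ^ 2 + q + 1 = 0) {M : ℕ} {z : ℕ → ℂ} (hz : Gen M z) {a : ℕ}
    (ha : a < M) (c : List ℂ) :
    SS q u v M ((q ^ 2 * z a) :: c) z = u * (q ^ 2 - q) * lg c (q * z a) *
      (∏ j ∈ (range M).erase a, (z j - q * z a) ^ 2) * Wf q u v M a c z := by
  have q3 : q ^ 3 = 1 := by linear_combination (q - 1) * hq
  unfold SS Wf
  rw [SG_rec1 hq (mem_range.2 ha) c z (fun j hj => ⟨(gen_facts hq hz ha hj).1, (gen_facts hq hz ha hj).2.2⟩)]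
  have h1 : (∏ j ∈ (range M).erase a, (z j ^ 2 + z j * z a + z a ^ 2)) =
      (∏ j ∈ (range M).erase a, (z j - q * z a)) * ∏ j ∈ (range M).erase a, (z j - q ^ 2 * z a) := by
    rw [← prod_mul_distrib]
    apply prod_congr rfl
    intro j _
    linear_combination (z j * z a) * hq - z a ^ 2 * q3
  have h2 : ∏ j ∈ (range M).erase a, (z j - q * z a) ≠ 0 :=
    prod_ne_zero_iff.2 fun j hj => sub_ne_zero.2 (gen_facts hq hz ha hj).2.1
  have h3 : ∏ j ∈ (range M).erase a, (z j - q ^ 2 * z a) ≠ 0 :=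
    prod_ne_zero_iff.2 fun j hj => sub_ne_zero.2 (gen_facts hq hz ha hj).2.2
  rw [h1, prod_div_distrib, prod_pow]
  field_simp

lemma SS_rec2 {q : ℂ} (u v : ℂ) (hq : q ^ 2 + q + 1 = 0) {M : ℕ} {z : ℕ → ℂ} (hz : Gen M z) {a : ℕ}
    (ha : a < M) (c : List ℂ) :
    SS q u v M ((q * z a) :: c) z = v * (q - q ^ 2) * lg c (q ^ 2 * z a) *
      (∏ j ∈ (range M).erase a, (z j - q ^ 2 * z a) ^ 2) * Wf q u v M a c z := by
  have q3 : q ^ 3 = 1 := by linear_combination (q - 1) * hq
  unfold SS Wf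
  rw [SG_rec2 hq (mem_range.2 ha) c z (fun j hj => ⟨(gen_facts hq hz ha hj).1, (gen_facts hq hz ha hj).2.1⟩)]
  have h1 : (∏ j ∈ (range M).erase a, (z j ^ 2 + z j * z a + z a ^ 2)) =
      (∏ j ∈ (range M).erase a, (z j - q * z a)) * ∏ j ∈ (range M).erase a, (z j - q ^ 2 * z a) := by
    rw [← prod_mul_distrib]
    apply prod_congr rfl
    intro j _
    linear_combination (z j * z a) * hq - z a ^ 2 * q3
  have h2 : ∏ j ∈ (range M).erase a, (z j - q * z a) ≠ 0 :=
    prod_ne_zero_iff.2 fun j hj => sub_ne_zero.2 (gen_facts hq hz ha hj).2.1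
  have h3 : ∏ j ∈ (range M).erase a, (z j - q ^ 2 * z a) ≠ 0 :=
    prod_ne_zero_iff.2 fun j hj => sub_ne_zero.2 (gen_facts hq hz ha hj).2.2
  rw [h1, prod_div_distrib, prod_pow]
  field_simp

/-- the polynomial `Φ` -/
noncomputable def Phi (q u v : ℂ) (M : ℕ) (c : List ℂ) (z : ℕ → ℂ) : ℂ[X] :=
  Sp q u v M c z * (c.map fun a => X - C a).prod * ∏ j ∈ range M, (X - C (z j)) ^ 2

lemma eval_list (c : List ℂ) (x : ℂ) :
    ((c.map fun a => (X - C a : ℂ[X])).prod).eval x = (c.map fun a => x - a).prod := by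
  induction c with
  | nil => simp
  | cons a c ih => simp [ih]

lemma Phi_eval (q u v : ℂ) (M : ℕ) (c : List ℂ) (z : ℕ → ℂ) (x : ℂ) :
    (Phi q u v M c z).eval x = SS q u v M (x :: c) z * (c.map fun a => x - a).prod *
      ∏ j ∈ range M, (x - z j) ^ 2 := by
  unfold Phi
  rw [eval_mul, eval_mul, Sp_eval, eval_list, eval_prod]
  simp

lemma Phi_root (q u v : ℂ) {M : ℕ} (c : List ℂ) (z : ℕ → ℂ) {a : ℕ} (ha : a < M) :
    (Phi q u v M c z).eval (z a) = 0 := by
  rw [Phi_eval, prod_eq_zero (mem_range.2 ha) (by simp), mul_zero]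

lemma Phi_three {q : ℂ} (u v : ℂ) (hq : q ^ 2 + q + 1 = 0) {M : ℕ} {z : ℕ → ℂ} (hz : Gen M z) {a : ℕ}
    (ha : a < M) (c : List ℂ) :
    v * (Phi q u v M c z).eval (q ^ 2 * z a) + u * q * (Phi q u v M c z).eval (q * z a) = 0 := by
  have q3 : q ^ 3 = 1 := by linear_combination (q - 1) * hq
  rw [Phi_eval, Phi_eval, SS_rec1 u v hq hz ha, SS_rec2 u v hq hz ha, lg_neg, lg_neg]
  rw [← mul_prod_erase (range M) (fun j => (q ^ 2 * z a - z j) ^ 2) (mem_range.2 ha),
    ← mul_prod_erase (range M) (fun j => (q * z a - z j) ^ 2) (mem_range.2 ha)]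
  have e1 : ∏ j ∈ (range M).erase a, (q ^ 2 * z a - z j) ^ 2 =
      ∏ j ∈ (range M).erase a, (z j - q ^ 2 * z a) ^ 2 :=
    prod_congr rfl fun j _ => by ring
  have e2 : ∏ j ∈ (range M).erase a, (q * z a - z j) ^ 2 =
      ∏ j ∈ (range M).erase a, (z j - q * z a) ^ 2 :=
    prod_congr rfl fun j _ => by ring
  rw [e1, e2]
  have e3 : (q ^ 2 - q) * (q ^ 2 * z a - z a) ^ 2 + q * (q - q ^ 2) * (q * z a - z a) ^ 2 = 0 := by
    have : (q ^ 2 - q) * (q ^ 2 * z a - z a) ^ 2 + q * (q - q ^ 2) * (q * z a - z a) ^ 2 =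
      z a ^ 2 * q * (q - 1) ^ 3 * (q ^ 2 + q + 1) := by ring
    rw [this, hq]; ring
  set A := (c.map fun a_1 => q * z a - a_1).prod
  set B := (c.map fun a_1 => q ^ 2 * z a - a_1).prod
  set D := ∏ j ∈ (range M).erase a, (z j - q * z a) ^ 2
  set E := ∏ j ∈ (range M).erase a, (z j - q ^ 2 * z a) ^ 2
  set W := Wf q u v M a c z
  linear_combination (u * v * (-1) ^ c.length * A * B * D * E * W) * e3

end Pool.Agent.H34.Hom

end

section

/-!
# Moments of the coefficients of a polynomial with a high order zero at `1`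
-/

namespace Pool.Agent.H34.Hom

open Finset Polynomial

variable {K : Type*} [Field K]

/-- `∑_e coeff_e(φ) f(e)` -/
noncomputable def mom (φ : K[X]) (f : K → K) : K := φ.sum fun e a => a * f e

lemma mom_eq_range (φ : K[X]) (f : K → K) (n : ℕ) (hn : φ.natDegree < n) :
    mom φ f = ∑ e ∈ range n, φ.coeff e * f e := by
  unfold mom
  exact φ.sum_over_range' (fun e => by simp) n hn

lemma mom_add (φ ψ : K[X]) (f : K → K) : mom (φ + ψ) f = mom φ f + mom ψ f := by
  unfold mom
  rw [Polynomial.sum_add_index]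
  · intro i; simp
  · intro a b₁ b₂; ring

lemma mom_smul (c : K) (φ : K[X]) (f : K → K) : mom (C c * φ) f = c * mom φ f := by
  have h1 := mom_eq_range φ f (φ.natDegree + 1) (by omega)
  have h2 := mom_eq_range (C c * φ) f (φ.natDegree + 1)
    (lt_of_le_of_lt (natDegree_C_mul_le c φ) (by omega))
  rw [h1, h2, mul_sum]
  apply sum_congr rfl
  intro e _
  rw [coeff_C_mul]; ring

lemma mom_neg (φ : K[X]) (f : K → K) : mom (-φ) f = - mom φ f := by
  have := mom_smul (-1) φ f
  simpa using this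

lemma mom_sub (φ ψ : K[X]) (f : K → K) : mom (φ - ψ) f = mom φ f - mom ψ f := by
  rw [sub_eq_add_neg, mom_add, mom_neg, sub_eq_add_neg]

lemma mom_C (c : K) (f : K → K) : mom (C c) f = c * f 0 := by
  rw [mom_eq_range _ _ 1 (by rw [natDegree_C]; omega)]
  simp

lemma mom_X_mul (φ : K[X]) (f : K → K) : mom (X * φ) f = mom φ (fun x => f (x + 1)) := by
  have h1 := mom_eq_range φ (fun x => f (x + 1)) (φ.natDegree + 1) (by omega)
  have h2 := mom_eq_range (X * φ) f (φ.natDegree + 2)
    (lt_of_le_of_lt (natDegree_mul_le (p := X) (q := φ)) (by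
      have := natDegree_X_le (R := K); omega))
  rw [h1, h2, sum_range_succ']
  simp [coeff_X_mul]

lemma mom_X_sub_one_mul (φ : K[X]) (f : K → K) :
    mom ((X - 1) * φ) f = mom φ (fwdDiff 1 f) := by
  have h : (X - 1) * φ = X * φ - φ := by ring
  rw [h, mom_sub, mom_X_mul]
  rw [mom_eq_range φ _ (φ.natDegree + 1) (by omega), mom_eq_range φ f (φ.natDegree + 1) (by omega),
    mom_eq_range φ _ (φ.natDegree + 1) (by omega), ← sum_sub_distrib]
  apply sum_congr rfl
  intro e _
  unfold fwdDiff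
  ring

lemma mom_X_sub_one_pow (N : ℕ) (φ : K[X]) (f : K → K) :
    mom ((X - 1) ^ N * φ) f = mom φ ((fwdDiff 1)^[N] f) := by
  induction N generalizing f with
  | zero => simp
  | succ N ih =>
    rw [pow_succ', mul_assoc, mom_X_sub_one_mul, ih]
    rfl

lemma mom_const (φ : K[X]) (c : K) : mom φ (fun _ => c) = φ.eval 1 * c := by
  rw [mom_eq_range φ _ (φ.natDegree + 1) (by omega), ← sum_mul, eval_eq_sum_range]
  simp

/-- the first nonvanishing moment -/
theorem mom_eq_factorial (N : ℕ) (φ P : K[X]) (hP : P.natDegree = N) :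
    mom ((X - 1) ^ N * φ) (fun x => P.eval x) = φ.eval 1 * (P.leadingCoeff * (N.factorial : K)) := by
  subst hP
  rw [mom_X_sub_one_pow]
  have := Polynomial.fwdDiff_iter_degree_eq_factorial P
  rw [this]
  have h2 : (P.leadingCoeff • ((P.natDegree.factorial : K → K))) = fun _ : K => P.leadingCoeff * (P.natDegree.factorial : K) := by
    funext x; simp
  rw [h2, mom_const]

end Pool.Agent.H34.Hom

end

section

/-!
# A very-well-poised alternating sum (WZ proof)

`gN N i = ∏_{m<N} (3i-3m-1)(3i-3m-2)` and `A0 M = ∑_i (-1)^(M-i) C(M,i) gN (M+1) i`.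
For even `M`: `A0 (M+2) * (m+2) = 36 (m+1)(2m+1)(2m+3)(3m+4)(3m+5) A0 M`, `M = 2m`.
-/

namespace Pool.Agent.H34.Hom

open Finset

/-- `∏_{m<N} (3i-3m-1)(3i-3m-2)` -/
def gN (N : ℕ) (i : ℤ) : ℤ := ∏ m ∈ range N, (3 * i - 3 * m - 1) * (3 * i - 3 * m - 2)

/-- the alternating sum of the four-leg evaluation -/
def A0 (M : ℕ) : ℤ := ∑ i ∈ range (M + 1), (-1) ^ (M - i) * (M.choose i : ℤ) * gN (M + 1) i

/-- the very-well-poised sum -/
def Wsum (N : ℕ) : ℤ := ∑ i ∈ range (N + 1), (-1) ^ i * (N.choose i : ℤ) * (2 * i - N) * gN N i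

lemma gN_succ (N : ℕ) (i : ℤ) : gN (N + 1) i = gN N i * ((3 * i - 3 * N - 1) * (3 * i - 3 * N - 2)) := by
  unfold gN; rw [prod_range_succ]

lemma gN_shift (N : ℕ) (i : ℤ) : gN (N + 1) (i + 1) = gN N i * ((3 * i + 2) * (3 * i + 1)) := by
  unfold gN
  rw [prod_range_succ']
  congr 1
  · apply prod_congr rfl
    intro m _
    push_cast
    ring
  · push_cast; ring

/-- the WZ certificate polynomial times `N+3` -/
def Qz (N i : ℤ) : ℤ :=
  (-210 * N - 461 * N ^ 2 - 376 * N ^ 3 - 135 * N ^ 4 - 18 * N ^ 5) +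
  (318 + 925 * N + 941 * N ^ 2 + 405 * N ^ 3 + 63 * N ^ 4) * i +
  (-234 - 477 * N - 306 * N ^ 2 - 63 * N ^ 3) * i ^ 2 +
  (36 + 54 * N + 18 * N ^ 2) * i ^ 3

/-- term of the sum -/
def Fz (N : ℕ) (i : ℕ) : ℤ := (-1) ^ i * (N.choose i : ℤ) * (2 * i - N) * gN N i

def Gz (N : ℕ) (i : ℕ) : ℤ := (-1) ^ i * ((N + 2).choose i : ℤ) * i * gN (N + 1) i * Qz N i

lemma choose_rel1 (N i : ℕ) : ((N + 2).choose (i + 1) : ℤ) * (i + 1) = ((N + 2).choose i : ℤ) * (N + 2 - i) := by
  rcases le_or_gt i (N + 2) with h | h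
  · have := Nat.choose_succ_right_eq (N + 2) i
    have h2 : ((N + 2 - i : ℕ) : ℤ) = N + 2 - i := by push_cast [Nat.cast_sub h]; ring
    rw [← h2]
    exact_mod_cast this
  · rw [Nat.choose_eq_zero_of_lt h, Nat.choose_eq_zero_of_lt (by omega)]; simp

lemma choose_rel2 (N i : ℕ) : ((N : ℤ) + 2) * (N + 1) * (N.choose i : ℤ) =
    ((N + 2).choose i : ℤ) * (N + 2 - i) * (N + 1 - i) := by
  have key : ∀ n k : ℕ, ((n : ℤ) + 1) * (n.choose k : ℤ) = ((n + 1).choose k : ℤ) * (n + 1 - k) := by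
    intro n k
    rcases le_or_gt k n with h | h
    · have := Nat.choose_mul_succ_eq n k
      have h2 : ((n + 1 - k : ℕ) : ℤ) = n + 1 - k := by
        rw [Nat.cast_sub (by omega)]; push_cast; ring
      rw [← h2, mul_comm]
      exact_mod_cast this
    · rcases Nat.lt_or_ge (n + 1) k with h' | h'
      · rw [Nat.choose_eq_zero_of_lt h, Nat.choose_eq_zero_of_lt h']; simp
      · have : k = n + 1 := by omega
        subst this
        rw [Nat.choose_eq_zero_of_lt h]; simp
  have h1 := key N i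
  have h2 := key (N + 1) i
  push_cast at h2
  linear_combination (N + 2 : ℤ) * h1 + (N + 1 - i : ℤ) * h2

lemma wz_step (N : ℕ) (hN : 1 ≤ N) (i : ℕ) :
    ((N : ℤ) + 1) * (N + 2) * (N + 3) * Fz (N + 2) i -
      ((N : ℤ) + 1) * (N + 2) * (9 * (N + 1) * (N + 2) ^ 2 * (3 * N + 5) * (3 * N + 7)) * Fz N i =
    Gz N (i + 1) - Gz N i := by
  obtain ⟨K, rfl⟩ : ∃ K, N = K + 1 := ⟨N - 1, by omega⟩
  have e1 := choose_rel1 (K + 1) i
  have e2 := choose_rel2 (K + 1) i
  have g1 : gN (K + 1 + 2) i = gN K i * ((3 * i - 3 * K - 1) * (3 * i - 3 * K - 2)) *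
      ((3 * i - 3 * (K + 1) - 1) * (3 * i - 3 * (K + 1) - 2)) *
      ((3 * i - 3 * (K + 2) - 1) * (3 * i - 3 * (K + 2) - 2)) := by
    rw [gN_succ, gN_succ, gN_succ]; push_cast; ring
  have g2 : gN (K + 1) i = gN K i * ((3 * i - 3 * K - 1) * (3 * i - 3 * K - 2)) := gN_succ K i
  have g3 : gN (K + 1 + 1) i = gN K i * ((3 * i - 3 * K - 1) * (3 * i - 3 * K - 2)) *
      ((3 * i - 3 * (K + 1) - 1) * (3 * i - 3 * (K + 1) - 2)) := by
    rw [gN_succ, gN_succ]; push_cast; ring
  have g4 : gN (K + 1 + 1) ((i : ℤ) + 1) = gN K i * ((3 * i - 3 * K - 1) * (3 * i - 3 * K - 2)) *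
      ((3 * i + 2) * (3 * i + 1)) := by
    rw [gN_shift, gN_succ]
  unfold Fz Gz
  push_cast at e1 e2 ⊢
  rw [g1, g2, g3, g4, pow_succ (-1 : ℤ) i]
  unfold Qz
  generalize ((K + 1 + 2).choose i : ℤ) = X at *
  generalize ((K + 1 + 2).choose (i + 1) : ℤ) = X' at *
  generalize ((K + 1).choose i : ℤ) = Y at *
  generalize gN K (i : ℤ) = G at *
  generalize ((-1 : ℤ)) ^ i = s
  generalize (K : ℤ) = k at *
  generalize (i : ℤ) = x at *
  linear_combination (-(9 * (k + 1 + 1) * (k + 1 + 2) ^ 2 * (3 * (k + 1) + 5) * (3 * (k + 1) + 7)) * s *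
    (2 * x - (k + 1)) * (G * ((3 * x - 3 * k - 1) * (3 * x - 3 * k - 2)))) * e2 +
    (s * (G * ((3 * x - 3 * k - 1) * (3 * x - 3 * k - 2)) * ((3 * x + 2) * (3 * x + 1))) *
      ((-210 * (k + 1) - 461 * (k + 1) ^ 2 - 376 * (k + 1) ^ 3 - 135 * (k + 1) ^ 4 - 18 * (k + 1) ^ 5) +
  (318 + 925 * (k + 1) + 941 * (k + 1) ^ 2 + 405 * (k + 1) ^ 3 + 63 * (k + 1) ^ 4) * (x + 1) +
  (-234 - 477 * (k + 1) - 306 * (k + 1) ^ 2 - 63 * (k + 1) ^ 3) * (x + 1) ^ 2 +
  (36 + 54 * (k + 1) + 18 * (k + 1) ^ 2) * (x + 1) ^ 3)) * e1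

lemma Wsum_rec (N : ℕ) (hN : 1 ≤ N) :
    ((N : ℤ) + 3) * Wsum (N + 2) =
      9 * (N + 1) * (N + 2) ^ 2 * (3 * N + 5) * (3 * N + 7) * Wsum N := by
  have h1 : Wsum (N + 2) = ∑ i ∈ range (N + 3), Fz (N + 2) i := by
    unfold Wsum Fz; push_cast; rfl
  have h2 : Wsum N = ∑ i ∈ range (N + 3), Fz N i := by
    rw [sum_range_succ, sum_range_succ]
    unfold Wsum Fz
    rw [Nat.choose_eq_zero_of_lt (by omega : N < N + 2), Nat.choose_eq_zero_of_lt (by omega : N < N + 1)]
    simp
  have h3 : ∑ i ∈ range (N + 3), (Gz N (i + 1) - Gz N i) = 0 := by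
    rw [sum_range_sub]
    unfold Gz
    rw [Nat.choose_eq_zero_of_lt (by omega : N + 2 < N + 3)]
    simp
  have h4 : ∑ i ∈ range (N + 3), (((N : ℤ) + 1) * (N + 2) * (N + 3) * Fz (N + 2) i -
      ((N : ℤ) + 1) * (N + 2) * (9 * (N + 1) * (N + 2) ^ 2 * (3 * N + 5) * (3 * N + 7)) * Fz N i) = 0 := by
    rw [← h3]
    exact sum_congr rfl fun i _ => wz_step N hN i
  rw [sum_sub_distrib, ← mul_sum, ← mul_sum, ← h1, ← h2] at h4
  have h5 : ((N : ℤ) + 1) * (N + 2) ≠ 0 := by positivity
  apply mul_left_cancel₀ h5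
  linear_combination h4

lemma gN_reflect (N i : ℕ) (hi : i ≤ N) : gN N ((N - i : ℕ) : ℤ) = gN N i := by
  unfold gN
  rw [← prod_range_reflect]
  apply prod_congr rfl
  intro m hm
  rw [mem_range] at hm
  have h1 : ((N - 1 - m : ℕ) : ℤ) = N - 1 - m := by omega
  rw [h1, Nat.cast_sub hi]
  ring

lemma sum_choose_gN (N : ℕ) (hN : Odd N) :
    ∑ i ∈ range (N + 1), (-1) ^ i * (N.choose i : ℤ) * gN N i = 0 := by
  have h : ∑ i ∈ range (N + 1), (-1) ^ i * (N.choose i : ℤ) * gN N i =
      - ∑ i ∈ range (N + 1), (-1) ^ i * (N.choose i : ℤ) * gN N i := by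
    conv_lhs => rw [← sum_range_reflect]
    rw [← sum_neg_distrib]
    apply sum_congr rfl
    intro i hi
    rw [mem_range] at hi
    have h1 : N + 1 - 1 - i = N - i := by omega
    rw [h1, Nat.choose_symm (by omega), gN_reflect N i (by omega)]
    have h2 : (-1 : ℤ) ^ (N - i) * (-1) ^ i = -1 := by
      rw [← pow_add, Nat.sub_add_cancel (by omega)]
      exact hN.neg_one_pow
    have h3 : (-1 : ℤ) ^ i * (-1) ^ i = 1 := by rw [← pow_add]; exact (Even.add_self i).neg_one_pow
    have h4 : (-1 : ℤ) ^ (N - i) = - (-1) ^ i := by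
      linear_combination (-1 : ℤ) ^ i * h2 - (-1 : ℤ) ^ (N - i) * h3
    rw [h4]; ring
  linarith

lemma Wsum_eq (M : ℕ) (hM : Even M) : Wsum (M + 1) = -2 * (M + 1) * A0 M := by
  have h0 := sum_choose_gN (M + 1) hM.add_one
  have h1 : ((M : ℤ) + 1) * A0 M = ∑ i ∈ range (M + 1 + 1),
      (-1) ^ i * ((M + 1).choose i : ℤ) * (M + 1 - i) * gN (M + 1) i := by
    rw [sum_range_succ]
    unfold A0
    rw [mul_sum]
    have hlast : (-1 : ℤ) ^ (M + 1) * ((M + 1).choose (M + 1) : ℤ) * (M + 1 - ((M + 1 : ℕ) : ℤ)) *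
        gN (M + 1) ((M + 1 : ℕ) : ℤ) = 0 := by push_cast; ring
    rw [hlast, add_zero]
    apply sum_congr rfl
    intro i hi
    rw [mem_range] at hi
    have h2 : (-1 : ℤ) ^ (M - i) = (-1) ^ i := by
      have h3 : (-1 : ℤ) ^ (M - i) * (-1) ^ i = 1 := by
        rw [← pow_add, Nat.sub_add_cancel (by omega)]; exact hM.neg_one_pow
      have h4 : (-1 : ℤ) ^ i * (-1) ^ i = 1 := by
        rw [← pow_add]; exact (Even.add_self i).neg_one_pow
      linear_combination (-1 : ℤ) ^ i * h3 - (-1 : ℤ) ^ (M - i) * h4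
    have h3 : ((M : ℤ) + 1) * (M.choose i : ℤ) = ((M + 1).choose i : ℤ) * (M + 1 - i) := by
      have := Nat.choose_mul_succ_eq M i
      have h5 : ((M + 1 - i : ℕ) : ℤ) = M + 1 - i := by
        rw [Nat.cast_sub (by omega)]; push_cast; ring
      rw [← h5, mul_comm]
      exact_mod_cast this
    rw [h2]
    linear_combination (-1 : ℤ) ^ i * gN (M + 1) i * h3
  have h2 : ∑ i ∈ range (M + 1 + 1),
      (-1) ^ i * ((M + 1).choose i : ℤ) * (M + 1 - i) * gN (M + 1) i =
      ((M : ℤ) + 1) * ∑ i ∈ range (M + 1 + 1), (-1) ^ i * ((M + 1).choose i : ℤ) * gN (M + 1) i -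
      ∑ i ∈ range (M + 1 + 1), (-1) ^ i * ((M + 1).choose i : ℤ) * i * gN (M + 1) i := by
    rw [mul_sum, ← sum_sub_distrib]
    apply sum_congr rfl
    intro i _
    ring
  have h3 : Wsum (M + 1) =
      2 * ∑ i ∈ range (M + 1 + 1), (-1) ^ i * ((M + 1).choose i : ℤ) * i * gN (M + 1) i -
      ((M : ℤ) + 1) * ∑ i ∈ range (M + 1 + 1), (-1) ^ i * ((M + 1).choose i : ℤ) * gN (M + 1) i := by
    unfold Wsum
    rw [mul_sum, mul_sum, ← sum_sub_distrib]
    apply sum_congr rfl
    intro i _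
    push_cast
    ring
  rw [h3, h0]
  rw [h2, h0] at h1
  linear_combination 2 * h1

/-- the recursion of `A0` at even arguments -/
theorem A0_rec (m : ℕ) : ((m : ℤ) + 2) * A0 (2 * m + 2) =
    36 * (m + 1) * (2 * m + 1) * (2 * m + 3) * (3 * m + 4) * (3 * m + 5) * A0 (2 * m) := by
  have h1 := Wsum_rec (2 * m + 1) (by omega)
  rw [Wsum_eq (2 * m) (even_two_mul m), Wsum_eq (2 * m + 2) (by simp [parity_simps])] at h1
  push_cast at h1
  have h2 : (-4 : ℤ) * (2 * m + 3) ≠ 0 := by
    have : (0 : ℤ) ≤ m := by positivity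
    intro h; linarith
  apply mul_left_cancel₀ h2
  linear_combination h1

theorem A0_zero : A0 0 = 2 := by
  simp [A0, gN]

theorem A0_pos (m : ℕ) : 0 < A0 (2 * m) := by
  induction m with
  | zero => rw [mul_zero, A0_zero]; norm_num
  | succ m ih =>
    have h := A0_rec m
    have h2 : 0 < ((m : ℤ) + 2) * A0 (2 * m + 2) := by rw [h]; positivity
    have h3 : (0 : ℤ) < m + 2 := by positivity
    exact pos_of_mul_pos_right h2 h3.le

end Pool.Agent.H34.Hom

end

section

/-! Symmetry consequences for the sums with an extra factor `i`. -/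

namespace Pool.Agent.H34.Hom

open Finset

lemma neg_one_pow_sub {M i : ℕ} (hM : Even M) (hi : i ≤ M) : (-1 : ℤ) ^ (M - i) = (-1) ^ i := by
  have h3 : (-1 : ℤ) ^ (M - i) * (-1) ^ i = 1 := by
    rw [← pow_add, Nat.sub_add_cancel hi]; exact hM.neg_one_pow
  have h4 : (-1 : ℤ) ^ i * (-1) ^ i = 1 := by
    rw [← pow_add]; exact (Even.add_self i).neg_one_pow
  linear_combination (-1 : ℤ) ^ i * h3 - (-1 : ℤ) ^ (M - i) * h4

lemma A1_shift_eq (M : ℕ) (hM : Even M) :
    ∑ i ∈ range (M + 1), (-1) ^ (M - i) * (M.choose i : ℤ) * (i + 1) * gN (M + 1) (i + 1) =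
      (M + 1) * A0 M - ∑ i ∈ range (M + 1), (-1) ^ (M - i) * (M.choose i : ℤ) * i * gN (M + 1) i := by
  unfold A0
  rw [mul_sum, ← sum_sub_distrib, ← sum_range_reflect]
  apply sum_congr rfl
  intro i hi
  rw [mem_range] at hi
  have h1 : M + 1 - 1 - i = M - i := by omega
  rw [h1]
  have h2 : M - (M - i) = i := by omega
  rw [h2, Nat.choose_symm (by omega), neg_one_pow_sub hM (by omega)]
  have h3 := gN_reflect (M + 1) i (by omega)
  have h4 : ((M + 1 - i : ℕ) : ℤ) = ((M - i : ℕ) : ℤ) + 1 := by omega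
  rw [h4] at h3
  rw [h3]
  have h5 : ((M - i : ℕ) : ℤ) = M - i := by omega
  rw [h5]
  ring

lemma A1_zero (M : ℕ) (hM : Even M) :
    ∑ i ∈ range (M + 1), (-1) ^ (M - i) * (M.choose i : ℤ) * i * gN (M + 1) i = 0 := by
  rcases M with _ | M
  · simp
  set S := ∑ i ∈ range (M + 1 + 1), (-1) ^ (M + 1 - i) * ((M + 1).choose i : ℤ) * i * gN (M + 1 + 1) i with hS
  -- drop i = 0 and use i * C(M+1,i) = (M+1) C(M,i-1)
  have h1 : S = ∑ i ∈ range (M + 1), (-1) ^ (M - i) * ((M + 1 : ℤ) * (M.choose i : ℤ)) * gN (M + 1 + 1) (i + 1) := by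
    rw [hS, sum_range_succ']
    simp only [Nat.cast_zero, mul_zero, zero_mul, add_zero]
    apply sum_congr rfl
    intro i hi
    have h2 : M + 1 - (i + 1) = M - i := by omega
    have h3 : (((M + 1).choose (i + 1) : ℕ) : ℤ) * (i + 1) = (M + 1) * (M.choose i : ℤ) := by
      have := Nat.add_one_mul_choose_eq M i
      exact_mod_cast this.symm
    rw [h2, ← h3]
    push_cast
    ring
  have h2 : S = - S := by
    conv_lhs => rw [h1, ← sum_range_reflect]
    rw [h1, ← sum_neg_distrib]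
    apply sum_congr rfl
    intro i hi
    rw [mem_range] at hi
    have e1 : M + 1 - 1 - i = M - i := by omega
    rw [e1]
    have e2 : M - (M - i) = i := by omega
    rw [e2, Nat.choose_symm (by omega)]
    have e3 := gN_reflect (M + 1 + 1) (i + 1) (by omega)
    have e4 : ((M + 1 + 1 - (i + 1) : ℕ) : ℤ) = ((M - i : ℕ) : ℤ) + 1 := by omega
    rw [e4] at e3
    rw [e3]
    have e5 : (-1 : ℤ) ^ (M - i) = - (-1) ^ i := by
      have e6 : (-1 : ℤ) ^ (M - i) * (-1) ^ i = -1 := by
        rw [← pow_add, Nat.sub_add_cancel (by omega)]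
        have : Odd M := by
          rcases Nat.even_or_odd M with h | h
          · exfalso; exact (Nat.not_even_iff_odd.2 h.add_one) hM
          · exact h
        exact this.neg_one_pow
      have e7 : (-1 : ℤ) ^ i * (-1) ^ i = 1 := by
        rw [← pow_add]; exact (Even.add_self i).neg_one_pow
      linear_combination (-1 : ℤ) ^ i * e6 - (-1 : ℤ) ^ (M - i) * e7
    rw [e5]
    push_cast
    ring
  linarith

lemma A1_shift (M : ℕ) (hM : Even M) :
    ∑ i ∈ range (M + 1), (-1) ^ (M - i) * (M.choose i : ℤ) * (i + 1) * gN (M + 1) (i + 1) =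
      (M + 1) * A0 M := by
  rw [A1_shift_eq M hM, A1_zero M hM, sub_zero]

end Pool.Agent.H34.Hom

end

section

/-!
# A Chu-Vandermonde sum (WZ proof)

`∑_k (-1)^k C(M,k) / ∏_{m≤M} (3(k-m)-1)` in closed form.
-/

namespace Pool.Agent.H34.Hom

open Finset

/-- `∏_{m ≤ M} (3(k-m)-1)` -/
def Dd (M : ℕ) (k : ℤ) : ℤ := ∏ m ∈ range (M + 1), (3 * (k - m) - 1)

lemma Dd_ne_zero (M : ℕ) (k : ℤ) : Dd M k ≠ 0 := by
  unfold Dd
  rw [prod_ne_zero_iff]
  intro m _ h
  omega

lemma Dd_succ (M : ℕ) (k : ℤ) : Dd (M + 1) k = Dd M k * (3 * (k - (M + 1)) - 1) := by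
  unfold Dd; rw [prod_range_succ]; push_cast; ring

lemma Dd_succ' (M : ℕ) (k : ℤ) : Dd (M + 1) (k + 1) = Dd M k * (3 * k + 2) := by
  unfold Dd
  rw [prod_range_succ']
  congr 1
  · apply prod_congr rfl
    intro m _; push_cast; ring
  · push_cast; ring

lemma Dd_shift (M : ℕ) (k : ℤ) : Dd M (k + 1) * (3 * (k - M) - 1) = Dd M k * (3 * k + 2) := by
  rw [← Dd_succ', Dd_succ]; ring

variable (K : Type*) [Field K] [CharZero K]

/-- the summand -/
noncomputable def Tt (M k : ℕ) : K := (-1) ^ k * (M.choose k : K) / (Dd M k : K)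

noncomputable def Hsum (M : ℕ) : K := ∑ k ∈ range (M + 1), Tt K M k

lemma three_ne (a : ℤ) (b : ℤ) (hb : b % 3 ≠ 0) : ((3 * a + b : ℤ) : K) ≠ 0 := by
  rw [Int.cast_ne_zero]; omega

lemma Tt_step (M k : ℕ) :
    ((3 * M + 2) * (3 * M + 4) : K) * Tt K (M + 1) (k + 1) =
      -(6 * (2 * M + 1) + (-(9 * M + 10) + 6 * (k + 2))) * Tt K M (k + 1) +
        (-(9 * M + 10) + 6 * (k + 1)) * Tt K M k := by
  have hc1 : ((M + 1).choose (k + 1) : K) * (k + 1) = (M + 1) * (M.choose k : K) := by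
    have := Nat.add_one_mul_choose_eq M k
    exact_mod_cast this.symm
  have hc2 : (M.choose (k + 1) : K) * (k + 1) = (M.choose k : K) * (M - k) := by
    rcases le_or_gt k M with h | h
    · have := Nat.choose_succ_right_eq M k
      have h2 : ((M - k : ℕ) : K) = M - k := by push_cast [Nat.cast_sub h]; ring
      rw [← h2]
      exact_mod_cast this
    · rw [Nat.choose_eq_zero_of_lt h, Nat.choose_eq_zero_of_lt (by omega)]; simp
  have hk : (k : K) + 1 ≠ 0 := by exact_mod_cast Nat.succ_ne_zero k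
  have d0 : (Dd M k : K) ≠ 0 := Int.cast_ne_zero.2 (Dd_ne_zero M k)
  have e3 : ((3 * (k : ℤ) + 2 : ℤ) : K) ≠ 0 := three_ne K k 2 (by norm_num)
  have e4 : ((3 * ((k : ℤ) - M) + (-1) : ℤ) : K) ≠ 0 := three_ne K _ (-1) (by norm_num)
  have d1 : (Dd (M + 1) ((k + 1 : ℕ) : ℤ) : K) = (Dd M k : K) * (3 * k + 2) := by
    have := Dd_succ' M k
    push_cast
    rw [this]; push_cast; ring
  have d2 : (Dd M ((k + 1 : ℕ) : ℤ) : K) = (Dd M k : K) * (3 * k + 2) / (3 * (k - M) - 1) := by
    have := Dd_shift M k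
    push_cast at e4 ⊢
    rw [eq_div_iff (by intro h; apply e4; rw [← h]; ring)]
    have h2 : ((Dd M ((k : ℤ) + 1) * (3 * ((k : ℤ) - M) - 1) : ℤ) : K) = ((Dd M k * (3 * k + 2) : ℤ) : K) := by
      rw [this]
    push_cast at h2
    exact h2
  have e3' : (3 * (k : K) + 2) ≠ 0 := by push_cast at e3; exact e3
  have e4' : (3 * ((k : K) - M) - 1) ≠ 0 := by
    push_cast at e4; intro h; apply e4; rw [← h]; ring
  have hC1 : ((M + 1).choose (k + 1) : K) = (M + 1) * (M.choose k : K) / (k + 1) := by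
    rw [eq_div_iff hk, hc1]
  have hC2 : (M.choose (k + 1) : K) = (M.choose k : K) * (M - k) / (k + 1) := by
    rw [eq_div_iff hk, hc2]
  unfold Tt
  rw [d1, d2, hC1, hC2, pow_succ]
  field_simp
  ring

lemma Tt_step0 (M : ℕ) :
    ((3 * M + 2) * (3 * M + 4) : K) * Tt K (M + 1) 0 =
      -(6 * (2 * M + 1) + (-(9 * M + 10) + 6 * (0 + 1))) * Tt K M 0 := by
  have d0 : (Dd M 0 : K) ≠ 0 := Int.cast_ne_zero.2 (Dd_ne_zero M 0)
  have d1 : (Dd (M + 1) 0 : K) = (Dd M 0 : K) * (-(3 * M + 4)) := by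
    rw [Dd_succ]; push_cast; ring
  have e1 : (3 * (M : K) + 4) ≠ 0 := by
    have : ((3 * M + 4 : ℕ) : K) ≠ 0 := Nat.cast_ne_zero.2 (by omega)
    push_cast at this; exact this
  unfold Tt
  push_cast
  rw [d1]
  simp only [pow_zero, Nat.choose_zero_right, Nat.cast_one, mul_one]
  field_simp
  ring

lemma Tt_last (M : ℕ) : Tt K M (M + 1) = 0 := by
  unfold Tt
  rw [Nat.choose_eq_zero_of_lt (by omega)]
  simp

theorem Hsum_rec (M : ℕ) :
    ((3 * M + 2) * (3 * M + 4) : K) * Hsum K (M + 1) = -(6 * (2 * M + 1)) * Hsum K M := by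
  unfold Hsum
  rw [sum_range_succ', mul_add, Tt_step0, mul_sum]
  have h1 : ∑ i ∈ range (M + 1), ((3 * M + 2) * (3 * M + 4) : K) * Tt K (M + 1) (i + 1) =
      ∑ i ∈ range (M + 1), (-(6 * (2 * M + 1) + (-(9 * M + 10) + 6 * (((i + 1 : ℕ) : K) + 1))) * Tt K M (i + 1)) +
        ∑ i ∈ range (M + 1), (-(9 * M + 10) + 6 * (i + 1)) * Tt K M i := by
    rw [← sum_add_distrib]
    apply sum_congr rfl
    intro i _
    rw [Tt_step]
    push_cast
    ring
  rw [h1]
  have h2 : ∑ i ∈ range (M + 1), (-(6 * (2 * M + 1) + (-(9 * M + 10) + 6 * (((i + 1 : ℕ) : K) + 1))) * Tt K M (i + 1)) +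
      -(6 * (2 * M + 1) + (-(9 * M + 10) + 6 * (((0 : ℕ) : K) + 1))) * Tt K M 0 =
      ∑ i ∈ range (M + 1), (-(6 * (2 * M + 1) + (-(9 * M + 10) + 6 * ((i : K) + 1))) * Tt K M i) := by
    rw [← sum_range_succ' (fun i : ℕ => (-(6 * (2 * M + 1) + (-(9 * M + 10) + 6 * ((i : K) + 1))) * Tt K M i)),
      sum_range_succ, Tt_last, mul_zero, add_zero]
  rw [add_right_comm]
  have h3 : -(6 * (2 * (M : K) + 1) + (-(9 * M + 10) + 6 * (0 + 1))) * Tt K M 0 =
    -(6 * (2 * M + 1) + (-(9 * M + 10) + 6 * (((0 : ℕ) : K) + 1))) * Tt K M 0 := by push_cast; ring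
  rw [h3, h2, ← sum_add_distrib, mul_sum]
  apply sum_congr rfl
  intro i _
  ring

theorem Hsum_zero : Hsum K 0 = -1 := by
  simp [Hsum, Tt, Dd]

/-- closed form -/
theorem Hsum_eq (M : ℕ) :
    Hsum K M = (-1) ^ (M + 1) * 9 ^ M * ((2 * M).factorial : K) / ((3 * M + 1).factorial : K) := by
  induction M with
  | zero => rw [Hsum_zero]; simp
  | succ M ih =>
    have h := Hsum_rec K M
    rw [ih] at h
    have e1 : (3 * (M : K) + 4) ≠ 0 := by
      have : ((3 * M + 4 : ℕ) : K) ≠ 0 := Nat.cast_ne_zero.2 (by omega)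
      push_cast at this; exact this
    have e2 : (3 * (M : K) + 2) ≠ 0 := by
      have : ((3 * M + 2 : ℕ) : K) ≠ 0 := Nat.cast_ne_zero.2 (by omega)
      push_cast at this; exact this
    have e3 : (3 * (M : K) + 3) ≠ 0 := by
      have : ((3 * M + 3 : ℕ) : K) ≠ 0 := Nat.cast_ne_zero.2 (by omega)
      push_cast at this; exact this
    have f1 : ((3 * (M + 1) + 1).factorial : K) = (3 * M + 4) * (3 * M + 3) * (3 * M + 2) * ((3 * M + 1).factorial : K) := by
      have : 3 * (M + 1) + 1 = (3 * M + 1) + 1 + 1 + 1 := by ring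
      rw [this, Nat.factorial_succ, Nat.factorial_succ, Nat.factorial_succ]
      push_cast; ring
    have f2 : ((2 * (M + 1)).factorial : K) = (2 * M + 2) * (2 * M + 1) * ((2 * M).factorial : K) := by
      have : 2 * (M + 1) = (2 * M) + 1 + 1 := by ring
      rw [this, Nat.factorial_succ, Nat.factorial_succ]
      push_cast; ring
    have f4 : ((3 * M + 1).factorial : K) ≠ 0 := Nat.cast_ne_zero.2 (Nat.factorial_ne_zero _)
    have h5 : Hsum K (M + 1) = -(6 * (2 * M + 1)) * ((-1) ^ (M + 1) * 9 ^ M * ((2 * M).factorial : K) /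
      ((3 * M + 1).factorial : K)) / ((3 * M + 2) * (3 * M + 4)) := by
      rw [eq_div_iff (mul_ne_zero e2 e1), mul_comm, h]
    rw [h5, f1, f2]
    field_simp
    ring

end Pool.Agent.H34.Hom

end

section

/-!
# Alternants, and the factorised sum rule

`alt e N z = det (z_i ^ e_j)`.  With `ex a = (0, a, 3, 3+a, 6, 6+a, …)` the product
`alt (ex 1) · alt (ex 2)` satisfies the recursion of the sum of the qKZ solution times the square
of the Vandermonde determinant.
-/

set_option autoImplicit false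

namespace Pool.Agent.H34.Hom

open Finset Polynomial

/-- exponents `0, a, 3, 3+a, 6, …` -/
def ex (a : ℕ) : ℕ → ℕ
  | 0 => 0
  | 1 => a
  | k + 2 => ex a k + 3

lemma ex_two_mul (a k : ℕ) : ex a (2 * k) = 3 * k := by
  induction k with
  | zero => rfl
  | succ k ih =>
    have : ex a (2 * (k + 1)) = ex a (2 * k) + 3 := rfl
    rw [this, ih]; ring

lemma ex_two_mul_add (a k : ℕ) : ex a (2 * k + 1) = 3 * k + a := by
  induction k with
  | zero => simp [ex]
  | succ k ih =>
    have : ex a (2 * (k + 1) + 1) = ex a (2 * k + 1) + 3 := rfl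
    rw [this, ih]; ring

section ring

variable {R : Type*} [CommRing R]

/-- alternant -/
def alt (e : ℕ → ℕ) (N : ℕ) (z : ℕ → R) : R :=
  Matrix.det (Matrix.of fun i j : Fin N => z i ^ e j)

lemma alt_congr (e : ℕ → ℕ) (N : ℕ) {z z' : ℕ → R} (h : ∀ i, i < N → z i = z' i) :
    alt e N z = alt e N z' := by
  unfold alt
  congr 2
  funext i j
  rw [h i i.2]

lemma alt_swap (e : ℕ → ℕ) {N : ℕ} (z : ℕ → R) {a b : ℕ} (ha : a < N) (hb : b < N) (hab : a ≠ b) :
    alt e N (z ∘ Equiv.swap a b) = - alt e N z := by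
  unfold alt
  set τ : Equiv.Perm (Fin N) := Equiv.swap ⟨a, ha⟩ ⟨b, hb⟩ with hτ
  have h1 : (Matrix.of fun i j : Fin N => (z ∘ Equiv.swap a b) i ^ e j) =
      (Matrix.of fun i j : Fin N => z i ^ e j).submatrix τ id := by
    ext i j
    simp only [Matrix.of_apply, Matrix.submatrix_apply, Function.comp, id]
    congr 2
    rw [hτ]
    rcases eq_or_ne (i : ℕ) a with h | h
    · have : i = ⟨a, ha⟩ := Fin.ext h
      rw [this]; simp
    · rcases eq_or_ne (i : ℕ) b with h' | h'
      · have : i = ⟨b, hb⟩ := Fin.ext h'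
        rw [this]; simp
      · rw [Equiv.swap_apply_of_ne_of_ne h h', Equiv.swap_apply_of_ne_of_ne]
        · intro e; exact h (congrArg Fin.val e)
        · intro e; exact h' (congrArg Fin.val e)
  rw [h1, Matrix.det_permute, hτ, Equiv.Perm.sign_swap]
  · simp
  · intro e; exact hab (congrArg Fin.val e)

lemma alt_eq_zero (e : ℕ → ℕ) {N : ℕ} (z : ℕ → R) {a b : ℕ} (ha : a < N) (hb : b < N)
    (hab : a ≠ b) (h : z a = z b) : alt e N z = 0 := by
  unfold alt
  apply Matrix.det_zero_of_row_eq (i := (⟨a, ha⟩ : Fin N)) (j := ⟨b, hb⟩)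
  · intro h; exact hab (congrArg Fin.val h)
  · funext j
    simp [h]

/-- Vandermonde -/
lemma alt_id (N : ℕ) (z : ℕ → R) :
    alt id N z = (Matrix.vandermonde (fun i : Fin N => z i)).det := by
  unfold alt
  congr 1

lemma alt_id_succ (N : ℕ) (z : ℕ → R) :
    alt id (N + 1) z = (∏ j : Fin N, (z (j + 1) - z 0)) * alt id N (fun k => z (k + 1)) := by
  rw [alt_id, alt_id, Matrix.det_vandermonde, Matrix.det_vandermonde, Fin.prod_univ_succ,
    Fin.prod_Ioi_zero]
  congr 1
  apply Finset.prod_congr rfl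
  intro i _
  rw [Fin.prod_Ioi_succ]
  rfl

/-- block recursion of the alternants `ex a` -/
lemma alt_ex_rec (a N : ℕ) (z : ℕ → R) (w : R) (h0 : z 0 ^ 3 = w ^ 3) (h1 : z 1 = w) :
    alt (ex a) (2 + N) z = (w ^ a - z 0 ^ a) * (∏ i : Fin N, (z (2 + i) ^ 3 - w ^ 3)) *
      alt (ex a) N (fun k => z (2 + k)) := by
  classical
  set A : Matrix (Fin (2 + N)) (Fin (2 + N)) R := Matrix.of fun i j => z i ^ ex a j with hA
  set T : Matrix (Fin (2 + N)) (Fin (2 + N)) R := Matrix.of fun j k =>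
    if j = k then 1 else if (k : ℕ) = j + 2 then - w ^ 3 else 0 with hT
  have hTdet : T.det = 1 := by
    rw [Matrix.det_of_isUpperTriangular]
    · simp [hT]
    · intro j k hjk
      simp only [id] at hjk
      simp only [hT, Matrix.of_apply]
      have h1 : j ≠ k := fun h => by rw [h] at hjk; exact lt_irrefl _ hjk
      have h2 : ¬ ((k : ℕ) = j + 2) := by
        have : (k : ℕ) < j := hjk
        omega
      rw [if_neg h1, if_neg h2]
  have hdet : A.det = (A * T).det := by rw [Matrix.det_mul, hTdet, mul_one]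
  have hAT : ∀ i k, (A * T) i k = z i ^ ex a k - (if 2 ≤ (k : ℕ) then w ^ 3 * z i ^ ex a (k - 2) else 0) := by
    intro i k
    rw [Matrix.mul_apply]
    by_cases hk : 2 ≤ (k : ℕ)
    · set k' : Fin (2 + N) := ⟨k - 2, by have := k.2; omega⟩ with hk'
      have hne : k ≠ k' := by
        intro h
        have := congrArg Fin.val h
        simp [hk'] at this
        omega
      rw [← Finset.sum_subset (Finset.subset_univ {k, k'})]
      · rw [Finset.sum_pair hne]
        simp only [hA, hT, Matrix.of_apply, if_pos hk]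
        have hkk : (k : ℕ) = (k' : ℕ) + 2 := by
          show (k : ℕ) = (k : ℕ) - 2 + 2
          omega
        have hkv : (k' : ℕ) = k - 2 := rfl
        rw [if_neg (Ne.symm hne), if_pos hkk, if_pos trivial, hkv]
        ring
      · intro x _ hx
        simp only [mem_insert, mem_singleton, not_or] at hx
        simp only [hT, Matrix.of_apply]
        rw [if_neg hx.1, if_neg, mul_zero]
        intro h
        apply hx.2
        apply Fin.ext
        simp [hk']
        omega
    · rw [Finset.sum_eq_single k]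
      · simp [hA, hT, hk]
      · intro x _ hx
        simp only [hT, Matrix.of_apply]
        rw [if_neg hx, if_neg (by omega), mul_zero]
      · simp
  -- block form
  have hblock : (A * T).submatrix (finSumFinEquiv (m := 2) (n := N)) finSumFinEquiv =
      Matrix.fromBlocks (Matrix.of fun i j : Fin 2 => z i ^ ex a j) 0
        (Matrix.of fun (i : Fin N) (j : Fin 2) => z (2 + i) ^ ex a j)
        (Matrix.of fun i j : Fin N => (z (2 + i) ^ 3 - w ^ 3) * z (2 + i) ^ ex a j) := by
    ext i j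
    rw [Matrix.submatrix_apply, hAT]
    rcases i with i | i <;> rcases j with j | j
    · have hj : ¬ 2 ≤ ((finSumFinEquiv (m := 2) (n := N) (Sum.inl j) : Fin (2 + N)) : ℕ) := by
        have := j.2
        simp
        omega
      rw [if_neg hj]
      simp
    · have hj : 2 ≤ ((finSumFinEquiv (m := 2) (n := N) (Sum.inr j) : Fin (2 + N)) : ℕ) := by
        simp
      rw [if_pos hj]
      simp only [finSumFinEquiv_apply_left, finSumFinEquiv_apply_right, Matrix.fromBlocks_apply₁₂,
        Matrix.zero_apply, Fin.val_castAdd, Fin.val_natAdd]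
      have e1 : ex a (2 + (j : ℕ)) = ex a j + 3 := by rw [add_comm]; rfl
      have e2 : 2 + (j : ℕ) - 2 = j := by omega
      have e3 : z (i : ℕ) ^ 3 = w ^ 3 := by
        fin_cases i
        · exact h0
        · simp [h1]
      rw [e1, e2, pow_add, e3]
      ring
    · have hj : ¬ 2 ≤ ((finSumFinEquiv (m := 2) (n := N) (Sum.inl j) : Fin (2 + N)) : ℕ) := by
        have := j.2
        simp
        omega
      rw [if_neg hj]
      simp
    · have hj : 2 ≤ ((finSumFinEquiv (m := 2) (n := N) (Sum.inr j) : Fin (2 + N)) : ℕ) := by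
        simp
      rw [if_pos hj]
      simp only [finSumFinEquiv_apply_right, Matrix.fromBlocks_apply₂₂,
        Matrix.of_apply, Fin.val_natAdd]
      have e1 : ex a (2 + (j : ℕ)) = ex a j + 3 := by rw [add_comm]; rfl
      have e2 : 2 + (j : ℕ) - 2 = j := by omega
      rw [e1, e2, pow_add]
      ring
  have hd2 : (Matrix.of fun i j : Fin 2 => z i ^ ex a j).det = w ^ a - z 0 ^ a := by
    rw [Matrix.det_fin_two]
    simp [ex, h1]
  unfold alt
  rw [hdet, ← Matrix.det_submatrix_equiv_self (finSumFinEquiv (m := 2) (n := N)), hblock,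
    Matrix.det_fromBlocks_zero₁₂, hd2, Matrix.det_mul_column, mul_assoc]
  rfl

end ring

section poly

/-- polynomiality in the first variable -/
lemma alt_poly (e : ℕ → ℕ) (n D : ℕ) (hD : ∀ j, j ≤ n → e j ≤ D) (z : ℕ → ℂ) :
    ∃ p : ℂ[X], p.natDegree ≤ D ∧ ∀ t, p.eval t = alt e (n + 1) (Function.update z 0 t) := by
  set A : Matrix (Fin (n + 1)) (Fin (n + 1)) ℂ[X] :=
    Matrix.of fun i j => (if i = 0 then X else C (z i)) ^ e j with hA
  refine ⟨A.det, ?_, fun t => ?_⟩
  · rw [Matrix.det_succ_row_zero]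
    apply Polynomial.natDegree_sum_le_of_forall_le
    intro j _
    have h1 : (A.submatrix Fin.succ j.succAbove) =
        (C : ℂ →+* ℂ[X]).mapMatrix (Matrix.of fun (i k : Fin n) => z (i.succ) ^ e (j.succAbove k)) := by
      ext1 i k
      simp only [hA, Matrix.submatrix_apply, Matrix.of_apply, RingHom.mapMatrix_apply,
        Matrix.map_apply]
      rw [if_neg (Fin.succ_ne_zero i), map_pow]
    rw [h1, ← RingHom.map_det]
    refine (natDegree_mul_C_le _ _).trans ?_
    have h2 : ((-1 : ℂ[X]) ^ (j : ℕ)) = C ((-1) ^ (j : ℕ)) := by simp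
    rw [h2]
    refine (natDegree_C_mul_le _ _).trans ?_
    simp only [hA, Matrix.of_apply, if_true]
    rw [natDegree_X_pow]
    exact hD j (by have := j.2; omega)
  · unfold alt
    rw [← Polynomial.coe_evalRingHom, RingHom.map_det]
    congr 1
    ext1 i j
    simp only [hA, RingHom.mapMatrix_apply, Matrix.map_apply, Matrix.of_apply, map_pow]
    congr 1
    by_cases hi : i = 0
    · rw [if_pos hi, hi]; simp
    · rw [if_neg hi]
      have : (i : ℕ) ≠ 0 := fun h => hi (Fin.ext h)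
      rw [Function.update_of_ne this]
      simp

end poly

end Pool.Agent.H34.Hom

end

section

/-!
# The sum rule: `Z_{2n} · Δ² · 3^{n(n-1)} = alt (ex 1) · alt (ex 2)`
-/

set_option autoImplicit false

namespace Pool.Agent.H34.Hom

open Finset Polynomial

/-- properties of the sum of the components -/
structure SR (q : ℂ) (Z : ℕ → (ℕ → ℂ) → ℂ) : Prop where
  swap : ∀ (L : ℕ) (z : ℕ → ℂ) (i : ℕ), i + 1 < L → Z L (z ∘ Equiv.swap i (i + 1)) = Z L z
  poly : ∀ L : ℕ, 0 < L → ∀ z : ℕ → ℂ, ∃ p : ℂ[X], p.natDegree ≤ L - 1 ∧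
    ∀ t, Z L (Function.update z 0 t) = p.eval t
  recu : ∀ L : ℕ, 2 ≤ L → ∀ z : ℕ → ℂ, z 0 = q ^ 2 * z 1 → Z (L + 2) z =
    (-q * z 1 * (∏ s ∈ range L, (z (s + 2) - q * z 1) ^ 2) / 3 ^ L) * Z L (fun n => z (n + 2))
  two : ∀ z : ℕ → ℂ, Z 2 z = z 0 + z 1

variable {q : ℂ} {Z : ℕ → (ℕ → ℂ) → ℂ}

lemma SR.swap' (h : SR q Z) {L : ℕ} (z : ℕ → ℂ) {a b : ℕ} (hab : a < b) (hb : b < L) :
    Z L (z ∘ Equiv.swap a b) = Z L z := by
  induction b generalizing z with
  | zero => omega
  | succ b ih =>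
    rcases Nat.lt_succ_iff_lt_or_eq.1 hab with h1 | h1
    · have e : (Equiv.swap a (b + 1) : Equiv.Perm ℕ) =
          Equiv.swap b (b + 1) * Equiv.swap a b * Equiv.swap b (b + 1) := by
        rw [Equiv.swap_mul_swap_mul_swap (by omega) (by omega), Equiv.swap_comm]
      have e2 : z ∘ Equiv.swap a (b + 1) =
          ((z ∘ Equiv.swap b (b + 1)) ∘ Equiv.swap a b) ∘ Equiv.swap b (b + 1) := by
        rw [e]; rfl
      rw [e2, h.swap _ _ _ hb, ih _ h1 (by omega), h.swap _ _ _ hb]
    · subst h1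
      exact h.swap _ _ _ hb

lemma SR.swap'' (h : SR q Z) {L : ℕ} (z : ℕ → ℂ) {a b : ℕ} (ha : a < L) (hb : b < L) :
    Z L (z ∘ Equiv.swap a b) = Z L z := by
  rcases lt_trichotomy a b with h1 | h1 | h1
  · exact h.swap' z h1 hb
  · subst h1; simp
  · rw [Equiv.swap_comm]; exact h.swap' z h1 ha

/-- the factorised identity -/
def Idn (Z : ℕ → (ℕ → ℂ) → ℂ) (N : ℕ) (c : ℂ) (z : ℕ → ℂ) : Prop :=
  Z N z * alt id N z ^ 2 * c = alt (ex 1) N z * alt (ex 2) N z

lemma Idn_swap (h : SR q Z) {N : ℕ} (c : ℂ) (z : ℕ → ℂ) {a b : ℕ} (ha : a < N) (hb : b < N) :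
    Idn Z N c (z ∘ Equiv.swap a b) ↔ Idn Z N c z := by
  rcases eq_or_ne a b with h1 | h1
  · subst h1; simp
  · unfold Idn
    rw [h.swap'' z ha hb, alt_swap id z ha hb h1, alt_swap (ex 1) z ha hb h1,
      alt_swap (ex 2) z ha hb h1]
    simp only [even_two, Even.neg_pow, neg_mul_neg]

/-- distinct cubes, nonzero, outside the index `i0` -/
def TG (N i0 : ℕ) (z : ℕ → ℂ) : Prop :=
  (∀ a < N, a ≠ i0 → z a ≠ 0) ∧ ∀ a < N, ∀ b < N, a ≠ b → a ≠ i0 → b ≠ i0 → z a ^ 3 ≠ z b ^ 3

lemma swap_lt' {N x y a : ℕ} (hx : x < N) (hy : y < N) (ha : a < N) : Equiv.swap x y a < N := by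
  rcases eq_or_ne a x with h | h
  · rw [h, Equiv.swap_apply_left]; exact hy
  · rcases eq_or_ne a y with h' | h'
    · rw [h', Equiv.swap_apply_right]; exact hx
    · rw [Equiv.swap_apply_of_ne_of_ne h h']; exact ha

lemma TG.swap {N i0 : ℕ} {z : ℕ → ℂ} (h : TG N i0 z) {x y : ℕ} (hx : x < N) (hy : y < N) :
    TG N (Equiv.swap x y i0) (z ∘ Equiv.swap x y) := by
  have key : ∀ a, a ≠ Equiv.swap x y i0 → Equiv.swap x y a ≠ i0 := by
    intro a ha h1
    apply ha
    rw [← h1]; simp
  refine ⟨fun a ha h0 => h.1 _ (swap_lt' hx hy ha) (key a h0), fun a ha b hb hab h0 h1 => ?_⟩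
  exact h.2 _ (swap_lt' hx hy ha) _ (swap_lt' hx hy hb) (fun e => hab (Equiv.injective _ e))
    (key a h0) (key b h1)

lemma node (hq : q ^ 2 + q + 1 = 0) (h : SR q Z) (n : ℕ) (z : ℕ → ℂ) (h0 : z 0 = q ^ 2 * z 1)
    (ih : Idn Z (2 * n + 2) (3 ^ ((n + 1) * n)) (fun k => z (k + 2))) :
    Idn Z (2 * n + 4) (3 ^ ((n + 2) * (n + 1))) z := by
  have q3 : q ^ 3 = 1 := by linear_combination (q - 1) * hq
  have hw : z 0 ^ 3 = z 1 ^ 3 := by rw [h0]; linear_combination (z 1 ^ 3) * (q ^ 3 + 1) * q3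
  have e1 : alt (ex 1) (2 * n + 4) z = (z 1 ^ 1 - z 0 ^ 1) *
      (∏ i : Fin (2 * n + 2), (z (i + 2) ^ 3 - z 1 ^ 3)) * alt (ex 1) (2 * n + 2) (fun k => z (k + 2)) := by
    have := alt_ex_rec 1 (2 * n + 2) z (z 1) hw rfl
    rw [show 2 * n + 4 = 2 + (2 * n + 2) by ring, this]
    simp only [add_comm 2]
  have e2 : alt (ex 2) (2 * n + 4) z = (z 1 ^ 2 - z 0 ^ 2) *
      (∏ i : Fin (2 * n + 2), (z (i + 2) ^ 3 - z 1 ^ 3)) * alt (ex 2) (2 * n + 2) (fun k => z (k + 2)) := by
    have := alt_ex_rec 2 (2 * n + 2) z (z 1) hw rfl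
    rw [show 2 * n + 4 = 2 + (2 * n + 2) by ring, this]
    simp only [add_comm 2]
  have e3 : alt id (2 * n + 4) z = ((z 1 - z 0) * ∏ i : Fin (2 * n + 2), (z (i + 2) - z 0)) *
      ((∏ i : Fin (2 * n + 2), (z (i + 2) - z 1)) * alt id (2 * n + 2) (fun k => z (k + 2))) := by
    rw [show 2 * n + 4 = (2 * n + 3) + 1 by ring, alt_id_succ,
      show 2 * n + 3 = (2 * n + 2) + 1 by ring, alt_id_succ, Fin.prod_univ_succ]
    rfl
  have e4 := h.recu (2 * n + 2) (by omega) z h0
  rw [Finset.prod_range] at e4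
  unfold Idn at ih ⊢
  rw [show 2 * n + 4 = (2 * n + 2) + 2 by ring] at e1 e2 e3 ⊢
  rw [e1, e2, e3, e4]
  have e5 : (3 : ℂ) ^ ((n + 2) * (n + 1)) = 3 ^ (2 * n + 2) * 3 ^ ((n + 1) * n) := by
    rw [← pow_add]; congr 1; ring
  rw [e5]
  have e6 : (∏ i : Fin (2 * n + 2), (z (i + 2) ^ 3 - z 1 ^ 3)) ^ 2 =
      (∏ i : Fin (2 * n + 2), (z (i + 2) - q * z 1) ^ 2) *
      (∏ i : Fin (2 * n + 2), (z (i + 2) - z 0)) ^ 2 *
      (∏ i : Fin (2 * n + 2), (z (i + 2) - z 1)) ^ 2 := by
    rw [← Finset.prod_pow, ← Finset.prod_pow, ← Finset.prod_pow, ← Finset.prod_mul_distrib,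
      ← Finset.prod_mul_distrib]
    apply Finset.prod_congr rfl
    intro i _
    rw [← mul_pow, ← mul_pow]
    congr 1
    rw [h0]
    have hq2 : q ^ 2 = -1 - q := by linear_combination hq
    generalize z (↑i + 2) = x
    have : (x - q * z 1) * (x - q ^ 2 * z 1) * (x - z 1) = x ^ 3 - z 1 ^ 3 := by
      linear_combination (x * z 1 ^ 2 - x ^ 2 * z 1 ) * hq +
        (x * z 1 ^ 2 - z 1 ^ 3) * q3
    rw [← this]
  generalize (∏ i : Fin (2 * n + 2), (z (i + 2) ^ 3 - z 1 ^ 3)) = P at *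
  generalize (∏ i : Fin (2 * n + 2), (z (i + 2) - q * z 1) ^ 2) = P1 at *
  generalize (∏ i : Fin (2 * n + 2), (z (i + 2) - z 0)) = P2 at *
  generalize (∏ i : Fin (2 * n + 2), (z (i + 2) - z 1)) = P3 at *
  generalize Z (2 * n + 2) (fun k => z (k + 2)) = Z' at *
  generalize alt id (2 * n + 2) (fun k => z (k + 2)) = V at *
  generalize alt (ex 1) (2 * n + 2) (fun k => z (k + 2)) = A at *
  generalize alt (ex 2) (2 * n + 2) (fun k => z (k + 2)) = B at *
  have h3 : (3 : ℂ) ^ (2 * n + 2) ≠ 0 := pow_ne_zero _ (by norm_num)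
  generalize (3 : ℂ) ^ (2 * n + 2) = K at *
  generalize (3 : ℂ) ^ ((n + 1) * n) = K' at *
  have e7 : -q * z 1 * P1 / K * Z' * ((z 1 - z 0) * P2 * (P3 * V)) ^ 2 * (K * K') =
      (-q * z 1 * (z 1 - z 0) ^ 2) * (P1 * P2 ^ 2 * P3 ^ 2) * (Z' * V ^ 2 * K') := by
    field_simp
  rw [e7, ih, ← e6, h0]
  linear_combination (-(P ^ 2 * A * B * z 1 ^ 3) * (q ^ 2 - 1) ^ 2) * hq

lemma dvd_prod_roots {m : ℕ} (f : Fin m → ℂ) (hf : Function.Injective f) (p : ℂ[X])
    (hp : ∀ j, p.eval (f j) = 0) : (∏ j : Fin m, (X - C (f j))) ∣ p := by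
  apply Finset.prod_dvd_of_coprime
  · intro a _ b _ hab
    exact pairwise_coprime_X_sub_C hf hab
  · intro j _
    exact dvd_iff_isRoot.2 (hp j)

lemma prod_monic {m : ℕ} (f : Fin m → ℂ) : (∏ j : Fin m, (X - C (f j))).Monic :=
  monic_prod_of_monic _ _ fun j _ => monic_X_sub_C (f j)

lemma prod_natDegree {m : ℕ} (f : Fin m → ℂ) : (∏ j : Fin m, (X - C (f j))).natDegree = m := by
  rw [natDegree_prod_of_monic _ _ fun j _ => monic_X_sub_C (f j)]
  simp

lemma quot_degree {m D : ℕ} (f : Fin m → ℂ) (p b : ℂ[X]) (hp : p.natDegree ≤ m + D)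
    (h : p = (∏ j : Fin m, (X - C (f j))) * b) : b.natDegree ≤ D := by
  by_cases hb : b = 0
  · rw [hb]; simp
  · rw [h, (prod_monic f).natDegree_mul' hb, prod_natDegree] at hp
    omega

lemma ex_mono (a : ℕ) (ha : a ≤ 3) : ∀ j k, j ≤ k → ex a j ≤ ex a k := by
  have h : ∀ j, ex a j ≤ ex a (j + 1) := by
    intro j
    rcases Nat.even_or_odd' j with ⟨k, rfl | rfl⟩
    · rw [ex_two_mul, ex_two_mul_add]; omega
    · rw [ex_two_mul_add, show 2 * k + 1 + 1 = 2 * (k + 1) by ring, ex_two_mul]; omega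
  exact fun j k hjk => monotone_nat_of_le_succ h hjk

/-- the induction step -/
lemma stepI (hq : q ^ 2 + q + 1 = 0) (h : SR q Z) (n : ℕ)
    (ih : ∀ z, TG (2 * n + 2) (2 * n + 2) z → Idn Z (2 * n + 2) (3 ^ ((n + 1) * n)) z)
    (z : ℕ → ℂ) (hz : TG (2 * n + 4) 0 z) (t : ℂ) :
    Idn Z (2 * n + 4) (3 ^ ((n + 2) * (n + 1))) (Function.update z 0 t) := by
  have q3 : q ^ 3 = 1 := by linear_combination (q - 1) * hq
  have hqne : q ≠ 0 := by
    intro h0; rw [h0] at hq; norm_num at hq
  have hq1 : q ≠ 1 := by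
    intro h0; rw [h0] at hq; norm_num at hq
  -- nodes
  have nd1 : ∀ z : ℕ → ℂ, TG (2 * n + 4) 0 z → z 0 = q ^ 2 * z 1 →
      Idn Z (2 * n + 4) (3 ^ ((n + 2) * (n + 1))) z := by
    intro z hz h0
    apply node hq h n z h0
    apply ih
    refine ⟨fun a ha _ => hz.1 _ (by omega) (by omega), fun a ha b hb hab _ _ =>
      hz.2 _ (by omega) _ (by omega) (by omega) (by omega) (by omega)⟩
  have nd2 : ∀ (z : ℕ → ℂ), TG (2 * n + 4) 0 z → ∀ j, 1 ≤ j → j < 2 * n + 4 → z 0 = q ^ 2 * z j →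
      Idn Z (2 * n + 4) (3 ^ ((n + 2) * (n + 1))) z := by
    intro z hz j hj1 hj h0
    rw [← Idn_swap h _ z (a := 1) (b := j) (by omega) hj]
    have hz' := hz.swap (x := 1) (y := j) (by omega) hj
    have e0 : Equiv.swap 1 j 0 = 0 := Equiv.swap_apply_of_ne_of_ne (by omega) (by omega)
    rw [e0] at hz'
    apply nd1 _ hz'
    simp only [Function.comp_apply, e0, Equiv.swap_apply_left]
    exact h0
  have nd3 : ∀ (z : ℕ → ℂ), TG (2 * n + 4) 0 z → ∀ j, 1 ≤ j → j < 2 * n + 4 → z 0 = q * z j →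
      Idn Z (2 * n + 4) (3 ^ ((n + 2) * (n + 1))) z := by
    intro z hz j hj1 hj h0
    rw [← Idn_swap h _ z (a := 0) (b := j) (by omega) hj]
    have hc : z 0 ^ 3 = z j ^ 3 := by rw [h0]; linear_combination z j ^ 3 * q3
    have hzj : TG (2 * n + 4) j z := by
      refine ⟨fun a ha h1 => ?_, fun a ha b hb hab h1 h2 => ?_⟩
      · rcases eq_or_ne a 0 with h3 | h3
        · rw [h3, h0]; exact mul_ne_zero hqne (hz.1 j hj (by omega))
        · exact hz.1 a ha h3
      · rcases eq_or_ne a 0 with h3 | h3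
        · rw [h3, hc]
          exact hz.2 j hj b hb (Ne.symm h2) (by omega) (by omega)
        · rcases eq_or_ne b 0 with h4 | h4
          · rw [h4, hc]
            exact hz.2 a ha j hj h1 h3 (by omega)
          · exact hz.2 a ha b hb hab h3 h4
    have hz' := hzj.swap (x := 0) (y := j) (by omega) hj
    rw [Equiv.swap_apply_right] at hz'
    apply nd2 _ hz' j hj1 hj
    simp only [Function.comp_apply, Equiv.swap_apply_left, Equiv.swap_apply_right]
    rw [h0]
    linear_combination (-(z j)) * q3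
  -- polynomials
  obtain ⟨pZ, hpZ, heZ⟩ := h.poly (2 * n + 4) (by omega) z
  obtain ⟨p1, hp1, he1⟩ := alt_poly (ex 1) (2 * n + 3) (3 * (n + 1) + 1)
    (fun j hj => by
      rw [← ex_two_mul_add]
      exact ex_mono 1 (by omega) _ _ (by omega)) z
  obtain ⟨p2, hp2, he2⟩ := alt_poly (ex 2) (2 * n + 3) (3 * (n + 1) + 2)
    (fun j hj => by
      rw [← ex_two_mul_add]
      exact ex_mono 2 (by omega) _ _ (by omega)) z
  set f : Fin (2 * n + 3) → ℂ := fun j => z (j + 1) with hf
  have hfinj : Function.Injective f := by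
    intro a b hab
    by_contra hne
    have hne' : (a : ℕ) ≠ b := fun e => hne (Fin.ext e)
    exact hz.2 (a + 1) (by omega) (b + 1) (by omega) (by omega) (by omega) (by omega)
      (by rw [show z (a + 1) = z (b + 1) from hab])
  have hroot : ∀ (e : ℕ → ℕ) (j : Fin (2 * n + 3)),
      alt e (2 * n + 3 + 1) (Function.update z 0 (f j)) = 0 := by
    intro e j
    apply alt_eq_zero e _ (a := 0) (b := j + 1) (by omega) (by omega) (by omega)
    rw [Function.update_self, Function.update_of_ne (by omega)]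
  obtain ⟨b1, hb1⟩ := dvd_prod_roots f hfinj p1 (fun j => by rw [he1]; exact hroot _ j)
  obtain ⟨b2, hb2⟩ := dvd_prod_roots f hfinj p2 (fun j => by rw [he2]; exact hroot _ j)
  have hd1 : b1.natDegree ≤ n + 1 := quot_degree f p1 b1 (by omega) hb1
  have hd2 : b2.natDegree ≤ n + 2 := quot_degree f p2 b2 (by omega) hb2
  set Q : ℂ[X] := ∏ j : Fin (2 * n + 3), (X - C (f j)) with hQ
  set κ : ℂ := alt id (2 * n + 3) (fun k => z (k + 1)) with hκ
  have hV : ∀ t, alt id (2 * n + 4) (Function.update z 0 t) ^ 2 = Q.eval t ^ 2 * κ ^ 2 := by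
    intro t
    rw [show 2 * n + 4 = (2 * n + 3) + 1 by ring, alt_id_succ, mul_pow]
    have hk : alt id (2 * n + 3) (fun k => Function.update z 0 t (k + 1)) = κ := by
      apply alt_congr
      intro i _
      rw [Function.update_of_ne (by omega)]
    rw [hk]
    congr 1
    rw [hQ, eval_prod, ← Finset.prod_pow, ← Finset.prod_pow]
    apply Finset.prod_congr rfl
    intro j _
    rw [Function.update_self, Function.update_of_ne (by omega)]
    simp only [eval_sub, eval_X, eval_C, hf]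
    ring
  set D : ℂ[X] := pZ * C (κ ^ 2 * 3 ^ ((n + 2) * (n + 1))) - b1 * b2 with hD
  have hDdeg : D.natDegree ≤ 2 * n + 3 := by
    rw [hD]
    refine (natDegree_sub_le _ _).trans (max_le ?_ ?_)
    · exact (natDegree_mul_C_le _ _).trans (by omega)
    · exact natDegree_mul_le.trans (by omega)
  have hId : ∀ t, Idn Z (2 * n + 4) (3 ^ ((n + 2) * (n + 1))) (Function.update z 0 t) ↔
      Q.eval t ^ 2 * D.eval t = 0 := by
    intro t
    unfold Idn
    rw [heZ, hV t]
    have e1 : alt (ex 1) (2 * n + 4) (Function.update z 0 t) = Q.eval t * b1.eval t := by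
      rw [← eval_mul, ← hb1, he1]
    have e2 : alt (ex 2) (2 * n + 4) (Function.update z 0 t) = Q.eval t * b2.eval t := by
      rw [← eval_mul, ← hb2, he2]
    rw [e1, e2, hD]
    simp only [eval_sub, eval_mul, eval_C]
    constructor
    · intro h; linear_combination h
    · intro h; linear_combination h
  have hupd : ∀ t, TG (2 * n + 4) 0 (Function.update z 0 t) := by
    intro t
    refine ⟨fun a ha h1 => ?_, fun a ha b hb hab h1 h2 => ?_⟩
    · rw [Function.update_of_ne h1]; exact hz.1 a ha h1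
    · rw [Function.update_of_ne h1, Function.update_of_ne h2]; exact hz.2 a ha b hb hab h1 h2
  have hQne : ∀ (j : Fin (2 * n + 3)) (x : ℂ), x ^ 3 = f j ^ 3 → x ≠ f j → Q.eval x ≠ 0 := by
    intro j x hx hne
    rw [hQ, eval_prod, Finset.prod_ne_zero_iff]
    intro k _
    simp only [eval_sub, eval_X, eval_C]
    rw [sub_ne_zero]
    intro hxk
    rcases eq_or_ne k j with h1 | h1
    · rw [h1] at hxk; exact hne hxk
    · have : (k : ℕ) ≠ j := fun e => h1 (Fin.ext e)
      apply hz.2 (k + 1) (by omega) (j + 1) (by omega) (by omega) (by omega) (by omega)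
      show f k ^ 3 = f j ^ 3
      rw [← hxk, hx]
  have hf0 : ∀ j, f j ≠ 0 := fun j => hz.1 _ (by omega) (by omega)
  have hz1 : ∀ j : Fin (2 * n + 3), D.eval (q * f j) = 0 := by
    intro j
    have hI : Idn Z (2 * n + 4) (3 ^ ((n + 2) * (n + 1))) (Function.update z 0 (q * f j)) := by
      apply nd3 _ (hupd _) (j + 1) (by omega) (by omega)
      rw [Function.update_self, Function.update_of_ne (by omega)]
    rw [hId] at hI
    rcases mul_eq_zero.1 hI with h1 | h1
    · exfalso
      refine hQne j (q * f j) (by linear_combination (f j ^ 3) * q3) ?_ (pow_eq_zero_iff (two_ne_zero) |>.1 h1)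
      intro h2
      have : (q - 1) * f j = 0 := by linear_combination h2
      rcases mul_eq_zero.1 this with h3 | h3
      · exact hq1 (sub_eq_zero.1 h3)
      · exact hf0 j h3
    · exact h1
  have hz2 : ∀ j : Fin (2 * n + 3), D.eval (q ^ 2 * f j) = 0 := by
    intro j
    have hI : Idn Z (2 * n + 4) (3 ^ ((n + 2) * (n + 1))) (Function.update z 0 (q ^ 2 * f j)) := by
      apply nd2 _ (hupd _) (j + 1) (by omega) (by omega)
      rw [Function.update_self, Function.update_of_ne (by omega)]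
    rw [hId] at hI
    rcases mul_eq_zero.1 hI with h1 | h1
    · exfalso
      refine hQne j (q ^ 2 * f j) (by linear_combination (f j ^ 3) * (q ^ 3 + 1) * q3) ?_ (pow_eq_zero_iff (two_ne_zero) |>.1 h1)
      intro h2
      have : (q - 1) * f j = 0 := by linear_combination (-q) * h2 + (f j) * q3
      rcases mul_eq_zero.1 this with h3 | h3
      · exact hq1 (sub_eq_zero.1 h3)
      · exact hf0 j h3
    · exact h1
  have hD0 : D = 0 := by
    apply eq_zero_of_natDegree_lt_card_of_eval_eq_zero D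
      (f := Sum.elim (fun j : Fin (2 * n + 3) => q * f j) (fun j : Fin (2 * n + 3) => q ^ 2 * f j))
    · apply Function.Injective.sumElim
      · intro a b hab
        exact hfinj (mul_left_cancel₀ hqne hab)
      · intro a b hab
        exact hfinj (mul_left_cancel₀ (pow_ne_zero 2 hqne) hab)
      · intro a b hab
        have h1 : f a = q * f b := by
          apply mul_left_cancel₀ hqne
          linear_combination hab
        rcases eq_or_ne a b with h2 | h2
        · rw [h2] at h1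
          have : (q - 1) * f b = 0 := by linear_combination -h1
          rcases mul_eq_zero.1 this with h3 | h3
          · exact hq1 (sub_eq_zero.1 h3)
          · exact hf0 b h3
        · have h3 : (a : ℕ) ≠ b := fun e => h2 (Fin.ext e)
          apply hz.2 (a + 1) (by omega) (b + 1) (by omega) (by omega) (by omega) (by omega)
          show f a ^ 3 = f b ^ 3
          rw [h1]
          linear_combination (f b ^ 3) * q3
    · rintro (j | j)
      · exact hz1 j
      · exact hz2 j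
    · simp only [Fintype.card_sum, Fintype.card_fin]
      omega
  rw [hId, hD0]
  simp

/-- **The factorised sum rule.** -/
theorem sum_id (hq : q ^ 2 + q + 1 = 0) (h : SR q Z) (n : ℕ) :
    ∀ z, TG (2 * n + 2) (2 * n + 2) z → Idn Z (2 * n + 2) (3 ^ ((n + 1) * n)) z := by
  induction n with
  | zero =>
    intro z _
    unfold Idn
    have e1 : ∀ e : ℕ → ℕ, e 0 = 0 → alt e 2 z = z 1 ^ e 1 - z 0 ^ e 1 := by
      intro e he
      unfold alt
      rw [Matrix.det_fin_two]
      simp [he]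
    show Z 2 z * alt id 2 z ^ 2 * 3 ^ ((0 + 1) * 0) = alt (ex 1) 2 z * alt (ex 2) 2 z
    rw [h.two, e1 id rfl, e1 (ex 1) rfl, e1 (ex 2) rfl]
    simp only [ex, id]
    ring
  | succ n ih =>
    intro z hz
    have h1 := stepI hq h n ih z
      ⟨fun a ha h0 => hz.1 a (by omega) (by omega), fun a ha b hb hab h1 h2 =>
        hz.2 a (by omega) b (by omega) hab (by omega) (by omega)⟩ (z 0)
    rw [Function.update_eq_self] at h1
    exact h1

end Pool.Agent.H34.Hom

end

section

/-! Exchange relations of leg sums. -/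

namespace H56.EX

open scoped BigOperators Classical

variable {Lt Lb : ℕ}

/-- indicator of the leg class -/
noncomputable def chi (kt kb M : ℕ) (Pt : Pat Lt) (Pb : Pat Lb) : ℂ :=
  if Leg kt kb M Pt Pb then 1 else 0

lemma legSum_eq (kt kb M : ℕ) (v : Pat Lt → ℂ) (w : Pat Lb → ℂ) :
    legSum kt kb M v w = ∑ Pt, ∑ Pb, chi kt kb M Pt Pb * (v Pt * w Pb) := by
  unfold legSum chi
  refine Finset.sum_congr rfl fun Pt _ => Finset.sum_congr rfl fun Pb _ => ?_
  by_cases h : Leg kt kb M Pt Pb <;> simp [h]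

lemma legSum_eop_left (kt kb M : ℕ) (i : ℤ) (v : Pat Lt → ℂ) (w : Pat Lb → ℂ) :
    legSum kt kb M (eop i v) w = ∑ Pt, ∑ Pb, chi kt kb M (E i Pt) Pb * (v Pt * w Pb) := by
  rw [legSum_eq]
  have h1 : ∀ Pt : Pat Lt, ∑ Pb : Pat Lb, chi kt kb M Pt Pb * (eop i v Pt * w Pb) =
      ∑ P' : Pat Lt, ∑ Pb : Pat Lb,
        (if E i P' = Pt then chi kt kb M Pt Pb * (v P' * w Pb) else 0) := by
    intro Pt
    rw [Finset.sum_comm]
    refine Finset.sum_congr rfl fun Pb _ => ?_
    unfold eop
    rw [Finset.sum_mul, Finset.mul_sum]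
    refine Finset.sum_congr rfl fun P' _ => ?_
    by_cases h : E i P' = Pt <;> simp [h]
  rw [Finset.sum_congr rfl (fun Pt _ => h1 Pt), Finset.sum_comm]
  refine Finset.sum_congr rfl fun P' _ => ?_
  rw [Finset.sum_comm]
  refine Finset.sum_congr rfl fun Pb _ => ?_
  rw [Finset.sum_ite_eq Finset.univ (E i P')]
  simp

lemma legSum_swap' (kt kb M : ℕ) (i : ℤ) (v : Pat Lt → ℂ) (w : Pat Lb → ℂ) :
    legSum kt kb M v (eop i w) = ∑ Pt, ∑ Pb, chi kt kb M Pt (E i Pb) * (v Pt * w Pb) := by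
  rw [legSum_eq]
  refine Finset.sum_congr rfl fun Pt _ => ?_
  have h1 : ∀ Pb : Pat Lb, chi kt kb M Pt Pb * (v Pt * eop i w Pb) =
      ∑ P' : Pat Lb, (if E i P' = Pb then chi kt kb M Pt Pb * (v Pt * w P') else 0) := by
    intro Pb
    unfold eop
    rw [Finset.mul_sum, Finset.mul_sum]
    refine Finset.sum_congr rfl fun P' _ => ?_
    by_cases h : E i P' = Pb <;> simp [h]
  rw [Finset.sum_congr rfl (fun Pb _ => h1 Pb), Finset.sum_comm]
  refine Finset.sum_congr rfl fun P' _ => ?_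
  rw [Finset.sum_ite_eq Finset.univ (E i P')]
  simp

section linear

variable (kt kb M : ℕ)

lemma legSum_add_left (v v' : Pat Lt → ℂ) (w : Pat Lb → ℂ) :
    legSum kt kb M (fun P => v P + v' P) w = legSum kt kb M v w + legSum kt kb M v' w := by
  simp only [legSum_eq, ← Finset.sum_add_distrib]
  refine Finset.sum_congr rfl fun _ _ => Finset.sum_congr rfl fun _ _ => by ring

lemma legSum_smul_left (c : ℂ) (v : Pat Lt → ℂ) (w : Pat Lb → ℂ) :
    legSum kt kb M (fun P => c * v P) w = c * legSum kt kb M v w := by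
  simp only [legSum_eq, Finset.mul_sum]
  refine Finset.sum_congr rfl fun _ _ => Finset.sum_congr rfl fun _ _ => by ring

lemma legSum_add_right (v : Pat Lt → ℂ) (w w' : Pat Lb → ℂ) :
    legSum kt kb M v (fun P => w P + w' P) = legSum kt kb M v w + legSum kt kb M v w' := by
  simp only [legSum_eq, ← Finset.sum_add_distrib]
  refine Finset.sum_congr rfl fun _ _ => Finset.sum_congr rfl fun _ _ => by ring

lemma legSum_smul_right (c : ℂ) (v : Pat Lt → ℂ) (w : Pat Lb → ℂ) :
    legSum kt kb M v (fun P => c * w P) = c * legSum kt kb M v w := by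
  simp only [legSum_eq, Finset.mul_sum]
  refine Finset.sum_congr rfl fun _ _ => Finset.sum_congr rfl fun _ _ => by ring

end linear

/-! ### top-bottom symmetry -/

lemma connSwap {kt kb M : ℕ} {Pt : Pat Lt} {Pb : Pat Lb} {u v : ℤ ⊕ ℤ}
    (h : Conn kt kb M Pt Pb u v) : Conn kb kt M Pb Pt u.swap v.swap := by
  induction h with
  | rel x y h =>
    cases h with
    | top x => exact Relation.EqvGen.rel _ _ (Step.bot x)
    | bot y => exact Relation.EqvGen.rel _ _ (Step.top y)
    | glue a j hj => exact Relation.EqvGen.symm _ _ (Relation.EqvGen.rel _ _ (Step.glue a j hj))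
  | refl x => exact Relation.EqvGen.refl _
  | symm x y _ ih => exact Relation.EqvGen.symm _ _ ih
  | trans x y z _ _ ih1 ih2 => exact Relation.EqvGen.trans _ _ _ ih1 ih2

lemma hpos_swap {kt kb : ℕ} (u : Fin kt ⊕ Fin kb) (a : ℤ) :
    (hpos Lt Lb kt kb u a).swap = hpos Lb Lt kb kt u.swap a := by
  cases u <;> rfl

lemma legSwap_imp {kt kb M : ℕ} {Pt : Pat Lt} {Pb : Pat Lb} (h : Leg kt kb M Pt Pb) :
    Leg kb kt M Pb Pt := by
  intro u v a b hc
  have h1 := connSwap hc
  rw [hpos_swap, hpos_swap] at h1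
  rcases h u.swap v.swap a b h1 with ⟨h2, h3⟩ | h2
  · left
    exact ⟨by rw [← Sum.swap_swap u, h2, Sum.swap_swap], h3⟩
  · exact Or.inr h2

/-- LT5 -/
theorem legSwap {kt kb M : ℕ} {Pt : Pat Lt} {Pb : Pat Lb} :
    Leg kt kb M Pt Pb ↔ Leg kb kt M Pb Pt := ⟨legSwap_imp, legSwap_imp⟩

lemma chi_swap (kt kb M : ℕ) (Pt : Pat Lt) (Pb : Pat Lb) :
    chi kt kb M Pt Pb = chi kb kt M Pb Pt := by
  unfold chi
  simp only [legSwap (kt := kt) (kb := kb)]

lemma legSum_swap (kt kb M : ℕ) (v : Pat Lt → ℂ) (w : Pat Lb → ℂ) :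
    legSum kt kb M v w = legSum kb kt M w v := by
  rw [legSum_eq, legSum_eq, Finset.sum_comm]
  refine Finset.sum_congr rfl fun _ _ => Finset.sum_congr rfl fun _ _ => ?_
  rw [chi_swap]; ring

/-! ### hole ends (LT2) -/

/-- LT2: a small arc between consecutive hole ends of the top excludes the leg class -/
theorem not_leg_top {kt kb M : ℕ} {Pt : Pat Lt} {Pb : Pat Lb} (s : ℕ) (hs : s + 1 < kt)
    (h : Pt.m s = s + 1) : ¬ Leg kt kb M Pt Pb := by
  intro hl
  have hc : Conn kt kb M Pt Pb (hpos Lt Lb kt kb (Sum.inl ⟨s, by omega⟩) 0)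
      (hpos Lt Lb kt kb (Sum.inl ⟨s + 1, hs⟩) 0) := by
    have := Relation.EqvGen.rel _ _ (Step.top (kt := kt) (kb := kb) (M := M) (Pt := Pt) (Pb := Pb) s)
    rw [h] at this
    simpa [hpos, Conn] using this
  rcases hl _ _ _ _ hc with ⟨h1, _⟩ | h1
  · simp at h1
  · simp at h1

lemma legSum_eop_hole (kt kb M : ℕ) (s : ℕ) (hs : s + 1 < kt) (v : Pat Lt → ℂ) (w : Pat Lb → ℂ) :
    legSum kt kb M (eop s v) w = 0 := by
  rw [legSum_eop_left]
  apply Finset.sum_eq_zero
  intro Pt _
  apply Finset.sum_eq_zero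
  intro Pb _
  have : ¬ Leg kt kb M (E s Pt) Pb := not_leg_top s hs (by simpa using E.self Pt (s : ℤ))
  simp [chi, this]

section psi

variable {Ψ : ∀ L : ℕ, Pat L → (ℤ → ℂ) → ℂ} (hΨ : PsiProps Ψ)

include hΨ

/-- exchange of two neighbouring hole ends at the top: a scalar -/
theorem exch_hole_top (kt kb M : ℕ) (s : ℕ) (hs : s + 1 < kt) (ζ : ℤ → ℂ) (hζ : Per Lt ζ)
    (w : Pat Lb → ℂ) :
    (q * ζ (s + 1) - q⁻¹ * ζ s) * legSum kt kb M (fun P => Ψ Lt P (swp Lt s ζ)) w =
      (q * ζ s - q⁻¹ * ζ (s + 1)) * legSum kt kb M (fun P => Ψ Lt P ζ) w := by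
  rw [← legSum_smul_left]
  have h1 : (fun P : Pat Lt => (q * ζ (s + 1) - q⁻¹ * ζ s) * Ψ Lt P (swp Lt s ζ)) =
      fun P => (q * ζ s - q⁻¹ * ζ (s + 1)) * Ψ Lt P ζ +
        (ζ s - ζ (s + 1)) * eop s (fun P' => Ψ Lt P' ζ) P := by
    funext P
    exact hΨ.exch Lt P ζ hζ s
  rw [h1, legSum_add_left, legSum_smul_left, legSum_smul_left, legSum_eop_hole _ _ _ s hs]
  ring

theorem exch_hole_bot (kt kb M : ℕ) (s : ℕ) (hs : s + 1 < kb) (ζ : ℤ → ℂ) (hζ : Per Lb ζ)
    (v : Pat Lt → ℂ) :
    (q * ζ (s + 1) - q⁻¹ * ζ s) * legSum kt kb M v (fun P => Ψ Lb P (swp Lb s ζ)) =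
      (q * ζ s - q⁻¹ * ζ (s + 1)) * legSum kt kb M v (fun P => Ψ Lb P ζ) := by
  rw [legSum_swap, legSum_swap kt kb M]
  exact exch_hole_top hΨ kb kt M s hs ζ hζ v

/-- simultaneous exchange of two neighbouring glued strands (uses LT1 as hypothesis `hadj`). -/
theorem exch_glued (kt kb M : ℕ) (j : ℕ)
    (hadj : ∀ (Pt : Pat Lt) (Pb : Pat Lb),
      Leg kt kb M (E (kt + j) Pt) Pb ↔ Leg kt kb M Pt (E (kb + j) Pb))
    (ζ ξ : ℤ → ℂ) (hζ : Per Lt ζ) (hξ : Per Lb ξ)
    (h0 : ζ (kt + j) ≠ 0) (h1 : ζ (kt + j + 1) ≠ 0)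
    (e0 : ξ (kb + j) = (ζ (kt + j))⁻¹) (e1 : ξ (kb + j + 1) = (ζ (kt + j + 1))⁻¹)
    (g0 : q * ζ (kt + j + 1) - q⁻¹ * ζ (kt + j) ≠ 0)
    (g1 : q * ζ (kt + j) - q⁻¹ * ζ (kt + j + 1) ≠ 0) :
    legSum kt kb M (fun P => Ψ Lt P (swp Lt (kt + j) ζ)) (fun P => Ψ Lb P (swp Lb (kb + j) ξ)) =
      legSum kt kb M (fun P => Ψ Lt P ζ) (fun P => Ψ Lb P ξ) := by
  set i : ℤ := kt + j with hi
  set i' : ℤ := kb + j with hi'
  set x := ζ i with hx
  set y := ζ (i + 1) with hy
  set v : Pat Lt → ℂ := fun P => Ψ Lt P ζ with hv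
  set w : Pat Lb → ℂ := fun P => Ψ Lb P ξ with hw
  have ht : ∀ P : Pat Lt, (q * y - q⁻¹ * x) * Ψ Lt P (swp Lt i ζ) =
      (q * x - q⁻¹ * y) * v P + (x - y) * eop i v P := fun P => hΨ.exch Lt P ζ hζ i
  have hb : ∀ P : Pat Lb, (q * x - q⁻¹ * y) * Ψ Lb P (swp Lb i' ξ) =
      (q * y - q⁻¹ * x) * w P + (-(x - y)) * eop i' w P := by
    intro P
    have := hΨ.exch Lb P ξ hξ i'
    rw [e0, e1] at this
    have hq := q_ne_zero
    field_simp at this ⊢
    linear_combination this
  have hmain : ((q * y - q⁻¹ * x) * (q * x - q⁻¹ * y)) *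
      legSum kt kb M (fun P => Ψ Lt P (swp Lt i ζ)) (fun P => Ψ Lb P (swp Lb i' ξ)) =
      ((q * y - q⁻¹ * x) * (q * x - q⁻¹ * y)) * legSum kt kb M v w := by
    have adj1 : ∀ (v : Pat Lt → ℂ) (w : Pat Lb → ℂ),
        legSum kt kb M (eop i v) w = legSum kt kb M v (eop i' w) := by
      intro v w
      rw [legSum_eop_left, legSum_swap']
      refine Finset.sum_congr rfl fun _ _ => Finset.sum_congr rfl fun _ _ => ?_
      unfold chi
      simp only [hadj]
    have idem : ∀ w : Pat Lb → ℂ, legSum kt kb M v (eop i' (eop i' w)) =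
        legSum kt kb M v (eop i' w) := by
      intro w
      have : eop i' (eop i' w) = eop i' w := by
        funext P
        unfold eop
        have h2 : ∀ P' : Pat Lb, (if E i' P' = P then (∑ P'' : Pat Lb,
            if E i' P'' = P' then w P'' else 0) else 0) =
            ∑ P'' : Pat Lb, if E i' P'' = P' then (if E i' P' = P then w P'' else 0) else 0 := by
          intro P'
          by_cases h : E i' P' = P <;> simp [h]
        rw [Finset.sum_congr rfl (fun P' _ => h2 P'), Finset.sum_comm]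
        refine Finset.sum_congr rfl fun P'' _ => ?_
        rw [Finset.sum_ite_eq Finset.univ (E i' P'')]
        simp [E.idem]
      rw [this]
    rw [mul_assoc, ← legSum_smul_right, ← legSum_smul_left]
    rw [show (fun P => (q * y - q⁻¹ * x) * Ψ Lt P (swp Lt i ζ)) =
      fun P => (q * x - q⁻¹ * y) * v P + (x - y) * eop i v P from funext ht,
      show (fun P => (q * x - q⁻¹ * y) * Ψ Lb P (swp Lb i' ξ)) =
      fun P => (q * y - q⁻¹ * x) * w P + (-(x - y)) * eop i' w P from funext hb]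
    simp only [legSum_add_left, legSum_add_right, legSum_smul_left, legSum_smul_right, adj1, idem]
    have hq2 : q⁻¹ = -1 - q := by
      rw [q_inv]; linear_combination q_sq
    rw [hq2]
    ring
  exact mul_left_cancel₀ (mul_ne_zero g0 g1) hmain

end psi

end H56.EX

end
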