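import Pool.Agent.H31.PT.M03
import Pool.Agent.H31.PT.M04
import Pool.Agent.H31.PT.M05
import Pool.Agent.H31.PT.M31

/-! The parts of this file: H89.Perc.ArmBoxLower, H83.EX.SqrtTrick, H83.EX.Glue2, H83.EX.Double, H83.EX.DualSmall, H83.EX.StrongRSW, H57.LF.FS2, H57.LF.FS3, H57.LF.FS1, H89.Perc.ThetaLimit, H89.Perc.Surround, H57.LF.FS4, H85.Gamma.KIArm, H85.Gamma.Second, H85.Gamma.Main, H83.EX.WindDet, H89.Link.PerProb, H89.Link.Half, H89.Link.Face, H47.EX.Confine, H47.EX.SrcD, H89.Link.Four, H89.Link.Star, H89.Link.Law, H89.Link.One, H89.Link.Final, H14.EX.Top, H12.QKZ.Iface, H14.EX.Arc, H12.QKZ.PhiBase, H12.QKZ.Area, H12.QKZ.Comb, H56.EX.Rec, H56.EX.Param, H96.EX.LT1, H14.EX.LT4, H56.EX.Sym, H7.EX.LT3. -/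

section

/-!
# Lower bound for annulus crossing probabilities
-/

open MeasureTheory ProbabilityTheory unitInterval

namespace Pool.Agent.H89.Perc

namespace ArmBoxLower

lemma line_h (S : Set Vert) (y x : ℤ) (n : ℕ) (h : ∀ i : ℕ, i ≤ n → ((x + i, y) : Vert) ∈ S) :
    Conn allOpen S (x, y) (x + n, y) := by
  induction n with
  | zero => simpa using Conn.refl (by simpa using h 0 le_rfl)
  | succ n ih =>
    have h1 := ih (fun i hi => h i (by omega))
    refine h1.tail ⟨h1.mem_right, ?_, ((x + n, y, false) : Edge), Or.inl ⟨rfl, ?_⟩, rfl⟩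
    · have := h (n + 1) le_rfl
      exact_mod_cast this
    · simp [tgt]; ring

lemma line_v (S : Set Vert) (x y : ℤ) (n : ℕ) (h : ∀ i : ℕ, i ≤ n → ((x, y + i) : Vert) ∈ S) :
    Conn allOpen S (x, y) (x, y + n) := by
  induction n with
  | zero => simpa using Conn.refl (by simpa using h 0 le_rfl)
  | succ n ih =>
    have h1 := ih (fun i hi => h i (by omega))
    refine h1.tail ⟨h1.mem_right, ?_, ((x, y + n, true) : Edge), Or.inl ⟨rfl, ?_⟩, rfl⟩
    · have := h (n + 1) le_rfl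
      exact_mod_cast this
    · simp [tgt]; ring

lemma line_h' (S : Set Vert) (y x x' : ℤ) (hxx : x ≤ x')
    (h : ∀ t : ℤ, x ≤ t → t ≤ x' → ((t, y) : Vert) ∈ S) : Conn allOpen S (x, y) (x', y) := by
  obtain ⟨n, hn⟩ := Int.eq_ofNat_of_zero_le (sub_nonneg.2 hxx)
  have h1 : x' = x + n := by omega
  rw [h1]
  exact line_h S y x n (fun i hi => h _ (by omega) (by omega))

lemma line_v' (S : Set Vert) (x y y' : ℤ) (hyy : y ≤ y')
    (h : ∀ t : ℤ, y ≤ t → t ≤ y' → ((x, t) : Vert) ∈ S) : Conn allOpen S (x, y) (x, y') := by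
  obtain ⟨n, hn⟩ := Int.eq_ofNat_of_zero_le (sub_nonneg.2 hyy)
  have h1 : y' = y + n := by omega
  rw [h1]
  exact line_v S x y n (fun i hi => h _ (by omega) (by omega))

/-- the upper arc of the box `[-W, W] × [-3W, 3W]` -/
def arc (W : ℤ) : Set Vert :=
  {v | (v.2 = 3 * W ∧ -W ≤ v.1 ∧ v.1 ≤ W) ∨ (0 ≤ v.2 ∧ v.2 ≤ 3 * W ∧ (v.1 = -W ∨ v.1 = W))}

lemma arc_conn {W : ℤ} (hW : 0 ≤ W) {a : Vert} (ha : a ∈ arc W) :
    Conn allOpen (arc W) a (-W, 3 * W) := by
  obtain ⟨a1, a2⟩ := a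
  simp only [arc, Set.mem_ofPred_eq] at ha
  have htop : ∀ x : ℤ, -W ≤ x → x ≤ W → Conn allOpen (arc W) (x, 3 * W) (-W, 3 * W) := by
    intro x h1 h2
    refine (line_h' (arc W) (3 * W) (-W) x h1 (fun t h3 h4 => ?_)).symm
    simp only [arc, Set.mem_ofPred_eq]
    left; exact ⟨trivial, h3, by omega⟩
  rcases ha with ⟨h1, h2, h3⟩ | ⟨h1, h2, h3⟩
  · subst h1
    exact htop a1 h2 h3
  · have hv : Conn allOpen (arc W) (a1, a2) (a1, 3 * W) := by
      refine line_v' (arc W) a1 a2 (3 * W) h2 (fun t h4 h5 => ?_)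
      simp only [arc, Set.mem_ofPred_eq]
      right; exact ⟨by omega, h5, h3⟩
    refine hv.trans (htop a1 (by omega) (by omega))

/-- the vertices joined to the upper arc inside the box -/
def up (ω : Config) (W : ℤ) : Set Vert :=
  {v | ∃ a ∈ arc W, Conn ω (rect (-W) W (-3 * W) (3 * W)) v a}

lemma arc_subset {W : ℤ} (hW : 0 ≤ W) : arc W ⊆ rect (-W) W (-3 * W) (3 * W) := by
  rintro ⟨a1, a2⟩ ha
  simp only [arc, Set.mem_ofPred_eq] at ha
  simp only [rect, Set.mem_ofPred_eq]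
  omega

lemma up_subset {ω : Config} {W : ℤ} : up ω W ⊆ rect (-W) W (-3 * W) (3 * W) := by
  rintro v ⟨a, _, h⟩
  exact h.mem_left

lemma up_conn {ω : Config} {W : ℤ} (hW : 0 ≤ W) {v : Vert} (hv : v ∈ up ω W) :
    Conn allOpen (up ω W) v (-W, 3 * W) := by
  obtain ⟨a, ha, h⟩ := hv
  have h1 : Conn allOpen (up ω W) a v := by
    have h2 := h.symm
    refine h2.induction_right (P := fun x => Conn allOpen (up ω W) a x) ?_ ?_
    · exact Conn.refl ⟨a, ha, Conn.refl h2.mem_left⟩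
    · intro x y hx hxy hP
      refine hP.tail ⟨hP.mem_right, ⟨a, ha, (hx.tail hxy).symm⟩, ?_⟩
      obtain ⟨_, _, e, he, _⟩ := hxy
      exact ⟨e, he, rfl⟩
  refine h1.symm.trans ((arc_conn hW ha).mono_set ?_)
  intro b hb
  exact ⟨b, hb, Conn.refl (arc_subset hW hb)⟩

/-- crossed edge of a dual edge between two faces inside a rectangle -/
lemma crossed_mem {a b c d : ℤ} {e : Edge} {φ ψ : Vert} (hj : Joins e φ ψ)
    (h1 : φ ∈ rect a (b - 1) c (d - 1)) (h2 : ψ ∈ rect a (b - 1) c (d - 1)) :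
    src (crossed e) ∈ rect a b c d ∧ tgt (crossed e) ∈ rect a b c d := by
  obtain ⟨x, y, o⟩ := e
  have h3 : src (x, y, o) ∈ rect a (b - 1) c (d - 1) ∧ tgt (x, y, o) ∈ rect a (b - 1) c (d - 1) := by
    rcases hj with ⟨h3, h4⟩ | ⟨h3, h4⟩
    · exact ⟨h3 ▸ h1, h4 ▸ h2⟩
    · exact ⟨h4 ▸ h2, h3 ▸ h1⟩
  cases o <;> simp only [src, tgt, crossed, rect, Set.mem_ofPred_eq, if_true, if_false,
    Bool.false_eq_true] at h3 ⊢ <;> omega

theorem two_arms {ω : Config} {W : ℤ} (hW : 4 ≤ W) (h1 : HCross ω (-W) W 0 (2 * W))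
    (h2 : HCross (dual ω) (-W - 1) W (-2 * W - 3) (-2)) :
    ∃ h : ℤ, -2 * W - 2 ≤ h ∧ h ≤ 2 * W ∧
      (∃ a : Vert, (a.1 = -W ∨ a.1 = W ∨ a.2 = 3 * W) ∧
        Conn ω (rect (-W) W (-3 * W) (3 * W)) (0, h) a) ∧
      (∃ φ : Vert, φ.1 = -W ∧
        Conn (dual ω) (rect (-W) (W - 1) (-3 * W) (3 * W - 1)) (0, h - 1) φ) := by
  set B := rect (-W) W (-3 * W) (3 * W) with hB
  set C := up ω W with hC
  -- the cluster does not come below the dual crossing
  have hlow : ∀ v ∈ C, -2 * W - 2 ≤ v.2 := by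
    rintro v ⟨a, ha, hc⟩
    by_contra hlt
    push Not at hlt
    have ha2 : 0 ≤ a.2 := by
      simp only [arc, Set.mem_ofPred_eq] at ha
      omega
    obtain ⟨u', v', h3, h4, h5, _, _⟩ := hc.cross_y (a := -2 * W - 3) (b := -1) (by omega)
      (by omega) (by omega)
    have h6 : VCross ω (-W) W (-2 * W - 3) (-1) := by
      refine ⟨u', v', h3, h4, h5.mono_set ?_⟩
      rintro x ⟨hx1, hx2⟩
      simp only [rect, Set.mem_ofPred_eq] at hx1 hx2 ⊢
      omega
    have h7 := not_vcross_and_dual_hcross (by omega) h6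
    exact h7 h2
  -- the open crossing meets column 0
  obtain ⟨h0, h0a, h0b, h0c⟩ : ∃ h0 : ℤ, 0 ≤ h0 ∧ h0 ≤ 2 * W ∧ ((0, h0) : Vert) ∈ C := by
    obtain ⟨u, v, hu, hv, hc⟩ := h1
    obtain ⟨u', _, h3, _, _, h5, _⟩ := hc.cross_x (a := 0) (b := 0) (by omega) (by omega) le_rfl
    have h6 := h5.mem_right
    have h7 := h5.mem_left
    obtain ⟨x, y⟩ := u'
    simp only at h3
    subst h3
    simp only [rect, Set.mem_ofPred_eq] at h6 h7
    refine ⟨y, by omega, by omega, u, ?_, (h5.symm.mono_set ?_)⟩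
    · simp only [arc, Set.mem_ofPred_eq]
      right; exact ⟨by omega, by omega, Or.inl hu⟩
    · intro x hx
      simp only [hB, rect, Set.mem_ofPred_eq] at hx ⊢
      omega
  -- first visit of the cluster on the column, from below
  have hex : ∃ k : ℕ, ((0, -3 * W + k) : Vert) ∈ C := by
    refine ⟨(h0 + 3 * W).toNat, ?_⟩
    rw [Int.toNat_of_nonneg (by omega)]
    have : -3 * W + (h0 + 3 * W) = h0 := by ring
    rwa [this]
  classical
  obtain ⟨k, hk, hkmin⟩ : ∃ k : ℕ, ((0, -3 * W + k) : Vert) ∈ C ∧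
      ∀ j : ℕ, j < k → ((0, -3 * W + j) : Vert) ∉ C :=
    ⟨Nat.find hex, Nat.find_spec hex, fun j hj => Nat.find_min hex hj⟩
  have hk1 := hlow _ hk
  simp only at hk1
  have hk2 : -3 * W + (k : ℤ) ≤ h0 := by
    by_contra hlt
    push Not at hlt
    refine hkmin (h0 + 3 * W).toNat (by omega) ?_
    rw [Int.toNat_of_nonneg (by omega)]
    have : -3 * W + (h0 + 3 * W) = h0 := by ring
    rwa [this]
  have hkpos : 1 ≤ k := by omega
  set h : ℤ := -3 * W + k with hh
  set K := comp B C (0, -3 * W) with hK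
  have hKC : ∀ w ∈ K, w ∈ B ∧ w ∉ C := fun w hw => (Conn.mem_right hw)
  -- the column below `h` is in `K`
  have hcol : ((0, h - 1) : Vert) ∈ K := by
    refine line_v' (B \ C) 0 (-3 * W) (h - 1) (by omega) (fun t h3 h4 => ⟨?_, ?_⟩)
    · simp only [hB, rect, Set.mem_ofPred_eq]
      omega
    · have := hkmin (t + 3 * W).toNat (by omega)
      rw [Int.toNat_of_nonneg (by omega)] at this
      have h5 : -3 * W + (t + 3 * W) = t := by ring
      rwa [h5] at this
  -- the lower left corner is in `K`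
  have hcorner : ((-W, -3 * W) : Vert) ∈ K := by
    refine (line_h' (B \ C) (-3 * W) (-W) 0 (by omega) (fun t h3 h4 => ⟨?_, ?_⟩)).symm
    · simp only [hB, rect, Set.mem_ofPred_eq]
      omega
    · intro hc
      have := hlow _ hc
      simp only at this
      omega
  -- a cut edge on the left side
  obtain ⟨y, hy1, hy2, hy3, hy4⟩ : ∃ y : ℤ, -3 * W ≤ y ∧ y ≤ -1 ∧ ((-W, y) : Vert) ∈ K ∧
      ((-W, y + 1) : Vert) ∉ K := by
    have hex' : ∃ j : ℕ, ((-W, -3 * W + j) : Vert) ∉ K := by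
      refine ⟨(3 * W).toNat, fun hmem => ?_⟩
      rw [Int.toNat_of_nonneg (by omega)] at hmem
      refine (hKC _ hmem).2 ⟨(-W, -3 * W + 3 * W), ?_, Conn.refl ?_⟩
      · simp only [arc, Set.mem_ofPred_eq]
        right; exact ⟨by omega, by omega, Or.inl trivial⟩
      · simp only [rect, Set.mem_ofPred_eq]; omega
    obtain ⟨j, hj, hjmin⟩ : ∃ j : ℕ, ((-W, -3 * W + j) : Vert) ∉ K ∧
        ∀ i : ℕ, i < j → ((-W, -3 * W + i) : Vert) ∈ K :=
      ⟨Nat.find hex', Nat.find_spec hex', fun i hi => by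
        have := Nat.find_min hex' hi
        rwa [not_not] at this⟩
    have hj0 : j ≠ 0 := by
      rintro rfl
      apply hj
      simpa using hcorner
    have hjle : j ≤ (3 * W).toNat := by
      by_contra hlt
      push Not at hlt
      have hmem := hjmin _ hlt
      rw [Int.toNat_of_nonneg (by omega)] at hmem
      refine (hKC _ hmem).2 ⟨(-W, -3 * W + 3 * W), ?_, Conn.refl ?_⟩
      · simp only [arc, Set.mem_ofPred_eq]
        right; exact ⟨by omega, by omega, Or.inl trivial⟩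
      · simp only [rect, Set.mem_ofPred_eq]; omega
    have h3 := hjmin (j - 1) (by omega)
    refine ⟨-3 * W + j - 1, by omega, by omega, ?_, ?_⟩
    · have h4 : -3 * W + ((j - 1 : ℕ) : ℤ) = -3 * W + j - 1 := by omega
      rwa [h4] at h3
    · have h4 : -3 * W + (j : ℤ) - 1 + 1 = -3 * W + j := by omega
      rwa [h4]
  have hhC : ((0, h) : Vert) ∉ K := fun hmem => (hKC _ hmem).2 hk
  refine ⟨h, by omega, by omega, ?_, ?_⟩
  · obtain ⟨a, ha, hc⟩ := hk
    refine ⟨a, ?_, hc⟩
    simp only [arc, Set.mem_ofPred_eq] at ha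
    omega
  · refine ⟨(-W, y), rfl, ?_⟩
    have hcl : ∀ u ∈ C, ∀ w ∈ C, Conn allOpen C u w := fun u hu w hw =>
      (up_conn (by omega) hu).trans (up_conn (by omega) hw).symm
    have hsep := sep (K := K) (a := -W) (b := W) (c := -3 * W) (d := 3 * W)
      (fun w hw => (hKC w hw).1) comp_connected (compl_comp_connected up_subset hk hcl)
      (e := (0, h - 1, true)) (e' := (-W, y, true))
      (by
        simp only [src, tgt, rect, Set.mem_ofPred_eq, if_true]
        omega)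
      (by
        simp only [src, tgt, rect, Set.mem_ofPred_eq, if_true]
        omega)
      (by
        simp only [cutConfig, src, tgt, if_true, decide_eq_false_iff_not]
        intro hiff
        apply hhC
        have := hiff.1 hcol
        rwa [sub_add_cancel] at this)
      (by
        simp only [cutConfig, src, tgt, if_true, decide_eq_false_iff_not]
        intro hiff
        exact hy4 (hiff.1 hy3))
      (φ := (0, h - 1)) (φ' := (-W, y)) (Or.inl rfl) (Or.inl rfl)
      (by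
        simp only [rect, Set.mem_ofPred_eq]
        omega)
      (by
        simp only [rect, Set.mem_ofPred_eq]
        omega)
    refine ⟨hsep.1, Relation.ReflTransGen.mono ?_ _ _ hsep.2⟩
    rintro α β ⟨hα, hβ, e, hj, ho⟩
    refine ⟨hα, hβ, e, hj, ?_⟩
    have hin := crossed_mem hj hα hβ
    simp only [dual, Bool.not_eq_true'] at ho ⊢
    have hcut := cut_comp (D := B) (C := C) (v := (0, -3 * W)) hin ho
    by_contra hopen
    rw [Bool.not_eq_false] at hopen
    rcases hcut with ⟨h3, h4⟩ | ⟨h3, h4⟩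
    · refine (hKC _ h4).2 ?_
      obtain ⟨a, ha, hc⟩ := h3
      exact ⟨a, ha, Conn.trans (Step.conn ⟨hin.2, hin.1, _, (joins_src_tgt _).symm, hopen⟩) hc⟩
    · refine (hKC _ h4).2 ?_
      obtain ⟨a, ha, hc⟩ := h3
      exact ⟨a, ha, Conn.trans (Step.conn ⟨hin.1, hin.2, _, joins_src_tgt _, hopen⟩) hc⟩

lemma sigma_half : σ half = half := by
  apply Subtype.ext
  simp only [half, unitInterval.coe_symm_eq]
  norm_num

end ArmBoxLower

open ArmBoxLower in
/-- The annulus crossing probability at `1 / 2` decays at most like the square root of the ratio of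
the radii. -/
theorem armBox_lower : ∃ c > (0 : ℝ), ∀ s R : ℕ, 1 ≤ R → s ≤ R →
    c * Real.sqrt ((s + 1) / R) ≤ Pr half (ArmBox 0 s R) := by
  refine ⟨1 / 10, by norm_num, fun s R hR hs => ?_⟩
  set W : ℤ := 2 * R + 2 with hW
  set P := Pr half (ArmBox 0 s R) with hP
  -- the two crossings
  set E1 : Set Config := {ω | HCross ω (-W) W 0 (2 * W)} with hE1
  set F2 : Set Config := {η | HCross η (-W - 1) W (-2 * W - 3) (-2)} with hF2
  set E2 : Set Config := {ω | dual ω ∈ F2} with hE2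
  have hl1 : LocalOn (eRect (-W) W 0 (2 * W)) E1 := localOn_hcross _ _ _ _
  have hlF : LocalOn (eRect (-W - 1) W (-2 * W - 3) (-2)) F2 := localOn_hcross _ _ _ _
  have hl2 : LocalOn ((eRect (-W - 1) W (-2 * W - 3) (-2)).image crossed) E2 := hlF.dual'
  have hdis : Disjoint (eRect (-W) W 0 (2 * W)) ((eRect (-W - 1) W (-2 * W - 3) (-2)).image crossed) := by
    rw [Finset.disjoint_left]
    intro e he he'
    rw [Finset.mem_image] at he'
    obtain ⟨e', he', rfl⟩ := he'
    rw [mem_eRect] at he he'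
    obtain ⟨x, y, o⟩ := e'
    cases o <;> simp only [src, crossed, rect, Set.mem_ofPred_eq, if_true, if_false,
      Bool.false_eq_true] at he he' <;> omega
  have hp1 : 1 / 2 ≤ Pr half E1 := by
    have h1 := Pr_hcross_translate (p := half) (a := 0) (b := ((4 * R + 4 : ℕ) : ℤ)) (c := 0)
      (d := ((4 * R + 4 : ℕ) : ℤ)) (-W) 0
    have h2 := half_le_hcross (4 * R + 4)
    rw [← h1] at h2
    have e1 : (0 : ℤ) + -W = -W := by ring
    have e2 : ((4 * R + 4 : ℕ) : ℤ) + -W = W := by rw [hW]; push_cast; ring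
    have e3 : (0 : ℤ) + 0 = 0 := rfl
    have e4 : ((4 * R + 4 : ℕ) : ℤ) + 0 = 2 * W := by rw [hW]; push_cast; ring
    rw [e1, e2, e3, e4] at h2
    exact h2
  have hp2 : 1 / 2 ≤ Pr half E2 := by
    have h0 : Pr half E2 = Pr half F2 := by
      rw [hE2, Pr_dual hlF, sigma_half]
    rw [h0]
    have h1 := Pr_hcross_translate (p := half) (a := 0) (b := ((4 * R + 5 : ℕ) : ℤ)) (c := 0)
      (d := ((4 * R + 5 : ℕ) : ℤ)) (-W - 1) (-2 * W - 3)
    have h2 := half_le_hcross (4 * R + 5)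
    rw [← h1] at h2
    have e1 : (0 : ℤ) + (-W - 1) = -W - 1 := by ring
    have e2 : ((4 * R + 5 : ℕ) : ℤ) + (-W - 1) = W := by rw [hW]; push_cast; ring
    have e3 : (0 : ℤ) + (-2 * W - 3) = -2 * W - 3 := by ring
    have e4 : ((4 * R + 5 : ℕ) : ℤ) + (-2 * W - 3) = -2 := by rw [hW]; push_cast; ring
    rw [e1, e2, e3, e4] at h2
    exact h2
  have hp12 : 1 / 4 ≤ Pr half (E1 ∩ E2) := by
    rw [Pr_inter_of_disjoint hl1 hl2 hdis]
    nlinarith
  -- the blocks
  set m : ℤ := 2 * s + 1 with hm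
  set N : ℤ := (2 * W + 2 + s) / m with hN
  have hmpos : 0 < m := by omega
  let Ev : ℤ → Set Config := fun i =>
    ArmBox (0, m * i) s R ∩ {ω | dual ω ∈ ArmBox (0, m * i - 1) s R}
  have hsub : E1 ∩ E2 ⊆ ⋃ i ∈ Finset.Icc (-N) N, Ev i := by
    rintro ω ⟨hω1, hω2⟩
    obtain ⟨h, hh1, hh2, ⟨a, ha, hca⟩, ⟨φ, hφ, hcφ⟩⟩ := two_arms (by omega) hω1 hω2
    -- the index of the block
    set i : ℤ := (h + s) / m with hi
    have hi1 : m * i ≤ h + s := Int.mul_ediv_self_le hmpos.ne'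
    have hi2 : h + s < m * i + m := by
      have := Int.lt_mul_ediv_self_add (x := h + s) hmpos
      exact this
    have hiN : i ∈ Finset.Icc (-N) N := by
      rw [Finset.mem_Icc]
      constructor
      · rw [hi, Int.le_ediv_iff_mul_le hmpos]
        have h3 : 2 * W + 2 + s < m * N + m := Int.lt_mul_ediv_self_add hmpos
        have h4 : -N * m = -(m * N) := by ring
        rw [h4]
        have h5 : m * N ≤ 2 * W + 2 + s := Int.mul_ediv_self_le hmpos.ne'
        omega
      · rw [hi, hN]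
        exact Int.ediv_le_ediv hmpos (by omega)
    refine Set.mem_biUnion hiN ⟨?_, ?_⟩
    · obtain ⟨x, hx, hcx⟩ := hca.to_sphere (v := ((0, m * i) : Vert)) (r := R)
        (by simp only [mem_ball]; omega)
        (by left; simp only [mem_ball]; omega)
      refine ⟨(0, h), ?_, x, hx, hcx.mono_set Set.inter_subset_right⟩
      simp only [mem_ball]; omega
    · obtain ⟨x, hx, hcx⟩ := hcφ.to_sphere (v := ((0, m * i - 1) : Vert)) (r := R)
        (by simp only [mem_ball]; omega)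
        (by left; simp only [mem_ball]; omega)
      refine ⟨(0, h - 1), ?_, x, hx, hcx.mono_set Set.inter_subset_right⟩
      simp only [mem_ball]; omega
  have hEv : ∀ i, Pr half (Ev i) ≤ P ^ 2 := by
    intro i
    have h1 := fkg_mixed (p := half) (localOn_armBox (0, m * i) s R)
      (localOn_armBox (0, m * i - 1) s R).dual' (incr_armBox (0, m * i) s R)
      (incr_armBox (0, m * i - 1) s R).dual_compl
    have h2 : Pr half {ω | dual ω ∈ ArmBox (0, m * i - 1) s R} = P := by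
      rw [Pr_dual (localOn_armBox (0, m * i - 1) s R), sigma_half, Pr_armBox]
    rw [h2, Pr_armBox] at h1
    rw [sq]
    exact h1
  have hfin : 1 / 4 ≤ (2 * (N : ℝ) + 1) * P ^ 2 := by
    have hN0 : 0 ≤ N := Int.ediv_nonneg (by omega) hmpos.le
    calc 1 / 4 ≤ Pr half (E1 ∩ E2) := hp12
      _ ≤ Pr half (⋃ i ∈ Finset.Icc (-N) N, Ev i) := Pr_mono hsub
      _ ≤ ∑ i ∈ Finset.Icc (-N) N, Pr half (Ev i) := Pr_biUnion_le _ _
      _ ≤ ∑ _i ∈ Finset.Icc (-N) N, P ^ 2 := Finset.sum_le_sum (fun i _ => hEv i)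
      _ = (2 * (N : ℝ) + 1) * P ^ 2 := by
        rw [Finset.sum_const, Int.card_Icc, nsmul_eq_mul]
        congr 1
        have : ((N + 1 - -N).toNat : ℤ) = 2 * N + 1 := by
          rw [Int.toNat_of_nonneg (by omega)]; ring
        exact_mod_cast this
  have hP0 : 0 ≤ P := Pr_nonneg
  have hR' : (1 : ℝ) ≤ R := by exact_mod_cast hR
  have hs' : (s : ℝ) ≤ R := by exact_mod_cast hs
  have hs0 : (0 : ℝ) ≤ s := Nat.cast_nonneg s
  have hNb : (2 * (N : ℝ) + 1) * (s + 1) ≤ 24 * R := by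
    have h5 : m * N ≤ 2 * W + 2 + s := Int.mul_ediv_self_le hmpos.ne'
    have h6 : ((m : ℝ)) * N ≤ 2 * W + 2 + s := by exact_mod_cast h5
    have hN0 : 0 ≤ N := Int.ediv_nonneg (by omega) hmpos.le
    have hN0' : (0 : ℝ) ≤ N := by exact_mod_cast hN0
    have h7 : (m : ℝ) = 2 * s + 1 := by rw [hm]; push_cast; ring
    have h8 : (W : ℝ) = 2 * R + 2 := by rw [hW]; push_cast; ring
    rw [h7, h8] at h6
    nlinarith
  have hkey : (s + 1) / (R : ℝ) ≤ (10 * P) ^ 2 := by
    rw [div_le_iff₀ (by linarith)]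
    nlinarith [mul_nonneg (sq_nonneg P) hs0, mul_le_mul_of_nonneg_right hNb (sq_nonneg P)]
  have h9 : Real.sqrt ((s + 1) / R) ≤ 10 * P := Real.sqrt_le_iff.2 ⟨by linarith, hkey⟩
  linarith

end Pool.Agent.H89.Perc

end

section

/-! # The square-root trick -/

open MeasureTheory ProbabilityTheory unitInterval

namespace Pool.Agent.H83.EX

open Pool.Agent.H89.Perc

theorem Sqrt_aux {p : I} {ι : Type*} (A : ι → Set Config)
    (s : ι → Finset Edge) : ∀ F : Finset ι, (∀ i ∈ F, LocalOn (s i) (A i)) →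
    (∀ i ∈ F, Incr (A i)) → (∃ t : Finset Edge, LocalOn t (⋂ i ∈ F, (A i)ᶜ)) ∧
      Incr (⋂ i ∈ F, (A i)ᶜ)ᶜ ∧ ∏ i ∈ F, (1 - Pr p (A i)) ≤ Pr p (⋂ i ∈ F, (A i)ᶜ) := by
  classical
  intro F
  induction F using Finset.induction_on with
  | empty =>
    intro _ _
    refine ⟨⟨∅, ?_⟩, ?_, ?_⟩
    · intro ω ω' _ _
      simp
    · intro ω ω' _ h
      simp at h
    · simp only [Finset.notMem_empty, Set.iInter_of_empty, Set.iInter_univ, Finset.prod_empty]
      rw [Pr_univ]
  | insert i F hi ih =>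
    intro hA iA
    obtain ⟨⟨t, ht⟩, hinc, hle⟩ := ih (fun j hj => hA j (Finset.mem_insert_of_mem hj))
      (fun j hj => iA j (Finset.mem_insert_of_mem hj))
    have hAi := hA i (Finset.mem_insert_self i F)
    have iAi := iA i (Finset.mem_insert_self i F)
    have hset : (⋂ j ∈ insert i F, (A j)ᶜ) = (A i)ᶜ ∩ ⋂ j ∈ F, (A j)ᶜ := by
      ext ω
      simp only [Set.mem_iInter, Set.mem_inter_iff, Finset.mem_insert, forall_eq_or_imp]
    have hAc : LocalOn (s i) (A i)ᶜ := hAi.compl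
    rw [hset]
    refine ⟨⟨s i ∪ t, (hAc.mono Finset.subset_union_left).inter (ht.mono Finset.subset_union_right)⟩,
      ?_, ?_⟩
    · rw [Set.compl_inter, compl_compl]
      intro ω ω' h hω
      rcases hω with hω | hω
      · exact Or.inl (iAi ω ω' h hω)
      · exact Or.inr (hinc ω ω' h hω)
    · rw [Finset.prod_insert hi]
      have h1 : 1 - Pr p (A i) = Pr p (A i)ᶜ := (Pr_compl hAi).symm
      rw [h1]
      calc Pr p (A i)ᶜ * ∏ j ∈ F, (1 - Pr p (A j)) ≤ Pr p (A i)ᶜ * Pr p (⋂ j ∈ F, (A j)ᶜ) :=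
            mul_le_mul_of_nonneg_left hle Pr_nonneg
        _ ≤ _ := fkg_decr hAc ht (by rw [compl_compl]; exact iAi) hinc

theorem sqrt_trick {p : I} {ι : Type*} (F : Finset ι) (hF : F.Nonempty) (A : ι → Set Config)
    (s : ι → Finset Edge) (hA : ∀ i ∈ F, LocalOn (s i) (A i)) (iA : ∀ i ∈ F, Incr (A i))
    {B : Set Config} (hB : B ⊆ ⋃ i ∈ F, A i) {δ : ℝ} (hδ : 0 ≤ δ) (h : 1 - δ ≤ Pr p B) :
    ∃ i ∈ F, 1 - δ ^ ((1 : ℝ) / F.card) ≤ Pr p (A i) := by
  obtain ⟨⟨t, ht⟩, -, hle⟩ := Sqrt_aux (p := p) A s F hA iA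
  have h1 : Pr p (⋂ i ∈ F, (A i)ᶜ) ≤ δ := by
    have h2 : B ⊆ (⋂ i ∈ F, (A i)ᶜ)ᶜ := by
      intro ω hω
      obtain ⟨i, hi, hωi⟩ := Set.mem_iUnion₂.1 (hB hω)
      intro hcon
      exact Set.mem_iInter₂.1 hcon i hi hωi
    have h3 := Pr_mono (p := p) h2
    rw [Pr_compl ht] at h3
    linarith
  have h2 := hle.trans h1
  by_contra hcon
  push Not at hcon
  have hx0 : 0 ≤ δ ^ ((1 : ℝ) / F.card) := Real.rpow_nonneg hδ _
  have hxc : (δ ^ ((1 : ℝ) / F.card)) ^ F.card = δ := by
    rw [one_div]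
    exact Real.rpow_inv_natCast_pow hδ (Finset.card_pos.2 hF).ne'
  have hf : ∀ i ∈ F, δ ^ ((1 : ℝ) / F.card) < 1 - Pr p (A i) := by
    intro i hi
    have := hcon i hi
    linarith
  have h3 : (δ ^ ((1 : ℝ) / F.card)) ^ F.card < ∏ i ∈ F, (1 - Pr p (A i)) := by
    rcases hx0.eq_or_lt with h0 | h0
    · rw [← h0, zero_pow (Finset.card_pos.2 hF).ne']
      exact Finset.prod_pos fun i hi => by
        have := hf i hi
        linarith
    · rw [← Finset.prod_const]
      exact Finset.prod_lt_prod_of_nonempty (fun i _ => h0) hf hF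
  rw [hxc] at h3
  linarith

end Pool.Agent.H83.EX

end

section

/-! # Two paths across an annulus without dual crossing are connected -/

open MeasureTheory ProbabilityTheory unitInterval

namespace Pool.Agent.H83.EX

open Pool.Agent.H89.Perc

variable {ω : Config}

/-- Horizontal segments. -/
private lemma glue2_seg_x {S : Set Vert} (x y : ℤ) (n : ℕ)
    (h : ∀ z : ℤ, x ≤ z → z ≤ x + n → ((z, y) : Vert) ∈ S) :
    Conn allOpen S (x, y) (x + n, y) := by
  induction n with
  | zero => simpa using Conn.refl (h x le_rfl (by simp))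
  | succ n ih =>
    have h1 := ih fun z hz hz' => h z hz (by push_cast; omega)
    refine h1.tail ⟨h1.mem_right, h _ (by push_cast; omega) (by push_cast; omega),
      (x + n, y, false), Or.inl ⟨rfl, ?_⟩, rfl⟩
    simp [tgt, add_assoc]

/-- Vertical segments. -/
private lemma glue2_seg_y {S : Set Vert} (x y : ℤ) (n : ℕ)
    (h : ∀ z : ℤ, y ≤ z → z ≤ y + n → ((x, z) : Vert) ∈ S) :
    Conn allOpen S (x, y) (x, y + n) := by
  induction n with
  | zero => simpa using Conn.refl (h y le_rfl (by simp))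
  | succ n ih =>
    have h1 := ih fun z hz hz' => h z hz (by push_cast; omega)
    refine h1.tail ⟨h1.mem_right, h _ (by push_cast; omega) (by push_cast; omega),
      (x, y + n, true), Or.inl ⟨rfl, ?_⟩, rfl⟩
    simp [tgt, add_assoc]

private lemma glue2_seg_x' {S : Set Vert} (x x' y : ℤ) (hx : x ≤ x')
    (h : ∀ z : ℤ, x ≤ z → z ≤ x' → ((z, y) : Vert) ∈ S) :
    Conn allOpen S (x, y) (x', y) := by
  obtain ⟨n, hn⟩ := Int.eq_ofNat_of_zero_le (sub_nonneg.2 hx)
  have h1 : x' = x + n := by omega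
  subst h1
  exact glue2_seg_x x y n h

private lemma glue2_seg_y' {S : Set Vert} (x y y' : ℤ) (hy : y ≤ y')
    (h : ∀ z : ℤ, y ≤ z → z ≤ y' → ((x, z) : Vert) ∈ S) :
    Conn allOpen S (x, y) (x, y') := by
  obtain ⟨n, hn⟩ := Int.eq_ofNat_of_zero_le (sub_nonneg.2 hy)
  have h1 : y' = y + n := by omega
  subst h1
  exact glue2_seg_y x y n h

/-- Squares are connected. -/
private lemma glue2_ball {s : ℕ} {w : Vert} (hw : w ∈ ball 0 s) : Conn allOpen (ball 0 s) 0 w := by
  obtain ⟨x, y⟩ := w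
  simp only [mem_ball, Prod.fst_zero, Prod.snd_zero] at hw
  have h1 : Conn allOpen (ball 0 s) (0, 0) (x, 0) := by
    rcases le_total 0 x with h | h
    · exact glue2_seg_x' _ _ _ h fun z h1 h2 => by
        simp only [mem_ball, Prod.fst_zero, Prod.snd_zero]; omega
    · exact (glue2_seg_x' _ _ _ h fun z h1 h2 => by
        simp only [mem_ball, Prod.fst_zero, Prod.snd_zero]; omega).symm
  have h2 : Conn allOpen (ball 0 s) (x, 0) (x, y) := by
    rcases le_total 0 y with h | h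
    · exact glue2_seg_y' _ _ _ h fun z h1 h2 => by
        simp only [mem_ball, Prod.fst_zero, Prod.snd_zero]; omega
    · exact (glue2_seg_y' _ _ _ h fun z h1 h2 => by
        simp only [mem_ball, Prod.fst_zero, Prod.snd_zero]; omega).symm
  exact h1.trans h2

/-- Boundaries of squares are connected. -/
private lemma glue2_sphere {r : ℕ} {w : Vert} (hw : w ∈ sphere 0 r) :
    Conn allOpen (sphere 0 r) (r, r) w := by
  obtain ⟨x, y⟩ := w
  simp only [sphere, mem_ball, Prod.fst_zero, Prod.snd_zero, Set.mem_ofPred_eq] at hw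
  have top : ∀ x : ℤ, -r ≤ x → x ≤ r → Conn allOpen (sphere 0 r) (r, r) (x, r) := by
    intro x h1 h2
    exact (glue2_seg_x' _ _ _ h2 fun z h3 h4 => by
      simp only [sphere, mem_ball, Prod.fst_zero, Prod.snd_zero, Set.mem_ofPred_eq]; omega).symm
  have right : ∀ y : ℤ, -r ≤ y → y ≤ r → Conn allOpen (sphere 0 r) (r, r) (r, y) := by
    intro x h1 h2
    exact (glue2_seg_y' _ _ _ h2 fun z h3 h4 => by
      simp only [sphere, mem_ball, Prod.fst_zero, Prod.snd_zero, Set.mem_ofPred_eq]; omega).symm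
  obtain ⟨h1, h2 | h2 | h2 | h2⟩ := hw
  · have h3 : x = -r := by omega
    subst h3
    exact (top (-r) (by omega) (by omega)).trans
      (glue2_seg_y' _ _ _ (by omega) fun z h3 h4 => by
        simp only [sphere, mem_ball, Prod.fst_zero, Prod.snd_zero, Set.mem_ofPred_eq]; omega).symm
  · have h3 : x = r := by omega
    subst h3
    exact right y (by omega) (by omega)
  · have h3 : y = -r := by omega
    subst h3
    exact (right (-r) (by omega) (by omega)).trans
      (glue2_seg_x' _ _ _ (by omega) fun z h3 h4 => by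
        simp only [sphere, mem_ball, Prod.fst_zero, Prod.snd_zero, Set.mem_ofPred_eq]; omega).symm
  · have h3 : y = r := by omega
    subst h3
    exact top x (by omega) (by omega)

/-- A step out of a set `K` is along a cut edge. -/
private lemma glue2_cut {K S : Set Vert} {ω : Config} {u v : Vert} (h : Step ω S u v)
    (hu : u ∉ K) (hv : v ∈ K) :
    ∃ e, Joins e u v ∧ cutConfig K e = false ∧ src e ∈ S ∧ tgt e ∈ S := by
  obtain ⟨h1, h2, e, h3, h4⟩ := h
  refine ⟨e, h3, ?_, ?_⟩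
  · rcases h3 with ⟨h5, h6⟩ | ⟨h5, h6⟩
    · subst h5 h6; simp [cutConfig, hu, hv]
    · subst h5 h6; simp [cutConfig, hu, hv]
  · rcases h3 with ⟨h5, h6⟩ | ⟨h5, h6⟩
    · subst h5 h6; exact ⟨h1, h2⟩
    · subst h5 h6; exact ⟨h2, h1⟩

/-- A boundary face next to an edge of the sphere. -/
private lemma glue2_face {r : ℕ} (hr : 1 ≤ r) {e : Edge} (h1 : src e ∈ sphere 0 r)
    (h2 : tgt e ∈ sphere 0 r) :
    ∃ φ : Vert, IsFace φ e ∧ φ ∈ rect (-r) (r - 1) (-r) (r - 1) ∧
      (φ.1 = -r ∨ φ.1 = r - 1 ∨ φ.2 = -r ∨ φ.2 = r - 1) := by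
  obtain ⟨x, y, b⟩ := e
  cases b
  · simp only [sphere, mem_ball, Prod.fst_zero, Prod.snd_zero, Set.mem_ofPred_eq, src, tgt,
      Bool.false_eq_true, if_false] at h1 h2
    by_cases h : y = r
    · refine ⟨(x, y - 1), Or.inr (by simp), ?_, ?_⟩
      · simp only [rect, Set.mem_ofPred_eq]; omega
      · right; right; right; show y - 1 = r - 1; omega
    · refine ⟨(x, y), Or.inl rfl, ?_, ?_⟩
      · simp only [rect, Set.mem_ofPred_eq]; omega
      · simp only; omega
  · simp only [sphere, mem_ball, Prod.fst_zero, Prod.snd_zero, Set.mem_ofPred_eq, src, tgt,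
      if_true] at h1 h2
    by_cases h : x = r
    · refine ⟨(x - 1, y), Or.inr (by simp), ?_, ?_⟩
      · simp only [rect, Set.mem_ofPred_eq]; omega
      · right; left; show x - 1 = r - 1; omega
    · refine ⟨(x, y), Or.inl rfl, ?_, ?_⟩
      · simp only [rect, Set.mem_ofPred_eq]; omega
      · simp only; omega

/-- Locality of the dual annulus event. -/
private theorem glue2_localOn_dArm {s r : ℕ} :
    LocalOn (eRect (-r) (r - 1) (-r) (r - 1)) (DArm s r) := by
  rintro ω ω' h ⟨φ, φ', h1, h2, h3, hc⟩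
  exact ⟨φ, φ', h1, h2, h3, Conn.congr (fun e he _ => h e (mem_eRect.2 he)) hc⟩

theorem glue2 {ω : Config} {s r : ℕ} (hs : s < r) {w₁ w₂ x₁ x₂ : Vert} (hw₁ : w₁ ∈ ball 0 s)
    (hw₂ : w₂ ∈ ball 0 s) (hx₁ : x₁ ∈ sphere 0 r) (hx₂ : x₂ ∈ sphere 0 r)
    (h₁ : Conn ω (ball 0 r) w₁ x₁) (h₂ : Conn ω (ball 0 r) w₂ x₂) (h : dual ω ∉ DArm s r) :
    Conn ω (ball 0 r) w₁ w₂ := by
  by_contra hw0
  have hwr : w₂ ∈ ball 0 r := h₂.mem_left
  -- the open cluster of the origin in the ball
  set C : Set Vert := {z | Conn ω (ball 0 r) w₁ z} with hCdef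
  have hCsub : C ⊆ rect (-r) r (-r) r := by
    intro z hz
    have := Conn.mem_right hz
    simp only [mem_ball, Prod.fst_zero, Prod.snd_zero] at this
    simp only [rect, Set.mem_ofPred_eq]; omega
  have hball : ball 0 r = rect (-r) r (-r) r := by
    ext z
    simp only [mem_ball, Prod.fst_zero, Prod.snd_zero, rect, Set.mem_ofPred_eq]
    omega
  have h0C : w₁ ∈ C := Conn.refl h₁.mem_left
  have hC0 : ∀ z ∈ C, Conn allOpen C w₁ z := by
    intro z hz
    refine Conn.induction_right (P := fun z => Conn allOpen C w₁ z) hz (Conn.refl h0C) ?_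
    intro a b ha hab h
    exact h.tail ⟨ha, ha.tail hab, by obtain ⟨_, _, e, he, _⟩ := hab; exact ⟨e, he, rfl⟩⟩
  have hCc : ∀ u ∈ C, ∀ w ∈ C, Conn allOpen C u w := fun u hu w hw =>
    (hC0 u hu).symm.trans (hC0 w hw)
  set D : Set Vert := rect (-(r : ℤ)) r (-r) r with hD
  set K : Set Vert := comp D C w₂ with hKdef
  have hwK : w₂ ∈ K := Conn.refl ⟨hball ▸ hwr, hw0⟩
  have hxK : x₂ ∈ K := by
    refine Conn.induction_right (P := fun z => z ∈ K) h₂ hwK ?_
    intro a b ha hab h'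
    refine Conn.tail (v := a) h' ⟨Conn.mem_right h', ⟨hball ▸ hab.2.1, ?_⟩, ?_⟩
    · intro hb
      exact hw0 ((Conn.tail hb hab.symm).trans ha.symm)
    · obtain ⟨_, _, e, he, _⟩ := hab
      exact ⟨e, he, rfl⟩
  have hKC : ∀ z ∈ K, z ∈ D ∧ z ∉ C := fun z hz => Conn.mem_right hz
  have h0K : w₁ ∉ K := fun h => (hKC _ h).2 h0C
  have hyK : x₁ ∉ K := fun h => (hKC _ h).2 h₁
  -- first cut edge
  obtain ⟨a, b, h4, h5, h6, -⟩ := ((glue2_ball hw₁).symm.trans (glue2_ball hw₂)).exists_hit (T := K) h0K hwK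
  obtain ⟨e, -, he2, he3, he4⟩ := glue2_cut h5 h4.mem_right.2 h6
  -- second cut edge
  have hys : Conn allOpen (sphere 0 r) x₁ x₂ := (glue2_sphere hx₁).symm.trans (glue2_sphere hx₂)
  obtain ⟨a', b', h4', h5', h6', -⟩ := hys.exists_hit (T := K) hyK hxK
  obtain ⟨e', -, he2', he3', he4'⟩ := glue2_cut h5' h4'.mem_right.2 h6'
  obtain ⟨φ', hφ', hφD', hφb'⟩ := glue2_face (by omega) he3' he4'
  have hse : ∀ z ∈ ball 0 s, z ∈ D := by
    intro z hz
    simp only [mem_ball, Prod.fst_zero, Prod.snd_zero] at hz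
    simp only [hD, rect, Set.mem_ofPred_eq]
    omega
  have hsphere : ∀ z ∈ sphere 0 r, z ∈ D := fun z hz => hball ▸ hz.1
  have hsep := sep (a := -r) (b := r) (c := -r) (d := r) (K := K) (fun z hz => (hKC z hz).1)
    (comp_connected (D := D) (C := C) (v := w₂))
    (compl_comp_connected (c₀ := w₁) hCsub h0C hCc)
    (e := e) (e' := e') ⟨hse _ he3, hse _ he4⟩ ⟨hsphere _ he3', hsphere _ he4'⟩ he2 he2'
    (φ := src e) (φ' := φ') (Or.inl rfl) hφ'
    (by
      simp only [mem_ball, Prod.fst_zero, Prod.snd_zero] at he3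
      simp only [rect, Set.mem_ofPred_eq]
      omega) hφD'
  refine h ⟨src e, φ', ?_, hφD', hφb', ?_⟩
  · simp only [mem_ball, Prod.fst_zero, Prod.snd_zero] at he3
    simp only [rect, Set.mem_ofPred_eq]
    omega
  · -- cut edges are closed
    refine ⟨hsep.1, Relation.ReflTransGen.mono ?_ _ _ hsep.2⟩
    rintro p q ⟨hp, hq, f, hf, ho⟩
    refine ⟨hp, hq, f, hf, ?_⟩
    have hcr : src (crossed f) ∈ D ∧ tgt (crossed f) ∈ D := by
      have key : ∀ p q : Vert, p ∈ rect (-(r : ℤ)) (r - 1) (-r) (r - 1) →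
          q ∈ rect (-(r : ℤ)) (r - 1) (-r) (r - 1) → p = src f → q = tgt f →
          src (crossed f) ∈ D ∧ tgt (crossed f) ∈ D := by
        rintro p q hp hq rfl rfl
        obtain ⟨x, y, b⟩ := f
        cases b
        · simp only [rect, src, tgt, Bool.false_eq_true, if_false, Set.mem_ofPred_eq] at hp hq
          simp only [hD, rect, crossed, src, tgt, Bool.false_eq_true, if_false, if_true,
            Set.mem_ofPred_eq]
          omega
        · simp only [rect, src, tgt, if_true, Set.mem_ofPred_eq] at hp hq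
          simp only [hD, rect, crossed, src, tgt, Bool.false_eq_true, if_false, if_true,
            Set.mem_ofPred_eq]
          omega
      rcases hf with ⟨hf1, hf2⟩ | ⟨hf1, hf2⟩
      · exact key p q hp hq hf1 hf2
      · exact key q p hq hp hf2 hf1
    have hcut : cutConfig K (crossed f) = false := by
      simpa [dual] using ho
    simp only [dual, Bool.not_eq_true']
    by_contra hopen
    have hopen' : ω (crossed f) = true := by simpa using hopen
    have hcD := hcr
    rw [← hball] at hcD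
    rcases cut_comp hcr hcut with ⟨g1, g2⟩ | ⟨g1, g2⟩
    · exact (hKC _ g2).2 (Conn.tail g1 ⟨hcD.1, hcD.2, _, joins_src_tgt _, hopen'⟩)
    · exact (hKC _ g2).2 (Conn.tail g1 ⟨hcD.2, hcD.1, _, (joins_src_tgt _).symm, hopen'⟩)

/-- The same around an arbitrary centre. -/
theorem glue2_shift {ω : Config} {s r : ℕ} (hs : s < r) (z : Vert) {w₁ w₂ x₁ x₂ : Vert}
    (hw₁ : w₁ ∈ ball z s) (hw₂ : w₂ ∈ ball z s) (hx₁ : x₁ ∈ sphere z r) (hx₂ : x₂ ∈ sphere z r)
    (h₁ : Conn ω (ball z r) w₁ x₁) (h₂ : Conn ω (ball z r) w₂ x₂)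
    (h : dual (fun e => ω (shiftE z e)) ∉ DArm s r) : Conn ω (ball z r) w₁ w₂ := by
  have hb : ∀ k : ℕ, {w : Vert | (w.1 - z.1, w.2 - z.2) ∈ ball 0 k} = ball z k := by
    intro k
    ext w
    simp only [mem_ball, Prod.fst_zero, Prod.snd_zero, Set.mem_ofPred_eq]
    omega
  have key : ∀ u v : Vert, Conn (fun e => ω (shiftE z e)) (ball 0 r) (u.1 - z.1, u.2 - z.2)
      (v.1 - z.1, v.2 - z.2) ↔ Conn ω (ball z r) u v := by
    intro u v
    rw [conn_shift, hb]
    simp only [sub_add_cancel]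
  rw [← key] at h₁ h₂ ⊢
  refine glue2 hs ?_ ?_ ?_ ?_ h₁ h₂ h
  · simp only [mem_ball, Prod.fst_zero, Prod.snd_zero] at hw₁ ⊢
    omega
  · simp only [mem_ball, Prod.fst_zero, Prod.snd_zero] at hw₂ ⊢
    omega
  · simp only [sphere, mem_ball, Prod.fst_zero, Prod.snd_zero, Set.mem_ofPred_eq] at hx₁ ⊢
    omega
  · simp only [sphere, mem_ball, Prod.fst_zero, Prod.snd_zero, Set.mem_ofPred_eq] at hx₂ ⊢
    omega

theorem Pr_dArm_shift (p : I) (z : Vert) (s r : ℕ) :
    Pr p {ω | dual (fun e => ω (shiftE z e)) ∈ DArm s r} = Pr p {ω | dual ω ∈ DArm s r} := by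
  have h : LocalOn ((eRect (-r) (r - 1) (-r) (r - 1)).image crossed) {ω | dual ω ∈ DArm s r} :=
    glue2_localOn_dArm.dual'
  exact Pr_comp h (shiftE_injective z).injOn

end Pool.Agent.H83.EX

end

section

/-! # Doubling the length of a rectangle -/

open MeasureTheory ProbabilityTheory unitInterval

namespace Pool.Agent.H83.EX

open Pool.Agent.H89.Perc

/-- Crossing from the left side to a segment of the right side. -/
private def dblA (w : ℕ) (c d : ℤ) (s j : ℕ) : Set Config :=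
  {ω | ∃ u v : Vert, u.1 = 0 ∧ v.1 = w ∧ c + j * (2 * s + 1) ≤ v.2 ∧
    v.2 ≤ c + j * (2 * s + 1) + 2 * s ∧ Conn ω (rect 0 w c d) u v}

private lemma dblA_local (w : ℕ) (c d : ℤ) (s j : ℕ) :
    LocalOn (eRect 0 w c d) (dblA w c d s j) := by
  rintro ω ω' h ⟨u, v, h1, h2, h3, h4, h5⟩
  exact ⟨u, v, h1, h2, h3, h4, Conn.congr (fun e he _ => h e (mem_eRect.2 he)) h5⟩

private lemma dblA_incr (w : ℕ) (c d : ℤ) (s j : ℕ) : Incr (dblA w c d s j) := by
  rintro ω ω' h ⟨u, v, h1, h2, h3, h4, h5⟩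
  exact ⟨u, v, h1, h2, h3, h4, h5.mono le_rfl h⟩

private lemma dbl_cover {w : ℕ} {c d : ℤ} {s k : ℕ} (hc : d - c < k * (2 * s + 1)) :
    {ω : Config | HCross ω 0 w c d} ⊆ ⋃ j ∈ Finset.range k, dblA w c d s j := by
  rintro ω ⟨u, v, hu, hv, h⟩
  have hv2 := h.mem_right
  simp only [rect, Set.mem_ofPred_eq] at hv2
  obtain ⟨-, -, h3, h4⟩ := hv2
  have hpos : (0 : ℤ) < 2 * s + 1 := by positivity
  have hq0 : 0 ≤ (v.2 - c) / (2 * s + 1) := Int.ediv_nonneg (by omega) hpos.le
  have hq1 : (v.2 - c) / (2 * s + 1) < k := by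
    rw [Int.ediv_lt_iff_lt_mul hpos]
    linarith
  obtain ⟨j, hj⟩ := Int.eq_ofNat_of_zero_le hq0
  have hdm := Int.emod_add_mul_ediv (v.2 - c) (2 * s + 1)
  have hm0 := Int.emod_nonneg (v.2 - c) hpos.ne'
  have hm1 := Int.emod_lt_of_pos (v.2 - c) hpos
  rw [hj] at hdm hq1
  simp only [Set.mem_iUnion]
  refine ⟨j, Finset.mem_range.2 (by exact_mod_cast hq1), u, v, hu, hv, ?_, ?_, h⟩
  · have : (2 * (s : ℤ) + 1) * (j : ℤ) = (j : ℤ) * (2 * s + 1) := by ring
    linarith
  · have : (2 * (s : ℤ) + 1) * (j : ℤ) = (j : ℤ) * (2 * s + 1) := by ring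
    linarith

theorem double_cross {p : I} {w : ℕ} {c d : ℤ} {s r k : ℕ} (hs : s < r) (hrw : r ≤ w)
    (hcd : c ≤ d) (hk : 1 ≤ k) (hc : d - c < k * (2 * s + 1)) {δ : ℝ} (hδ : 0 ≤ δ)
    (h : 1 - δ ≤ Pr p {ω | HCross ω 0 w c d}) :
    1 - 2 * δ ^ ((1 : ℝ) / k) - Pr p {ω | dual ω ∈ DArm s r} ≤
      Pr p {ω | HCross ω 0 (2 * w) (c - r) (d + r)} := by
  obtain ⟨j, -, hj⟩ := sqrt_trick (p := p) (Finset.range k)
    (Finset.nonempty_range_iff.2 (by omega)) (fun j => dblA w c d s j) (fun _ => eRect 0 w c d)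
    (fun j _ => dblA_local w c d s j) (fun j _ => dblA_incr w c d s j) (dbl_cover hc) hδ h
  rw [Finset.card_range] at hj
  set A := dblA w c d s j with hA
  have hAl : LocalOn (eRect 0 w c d) A := dblA_local w c d s j
  set z : Vert := ((w : ℤ), min (c + j * (2 * s + 1) + s) d) with hz
  have hz1 : z.1 = w := rfl
  have hj0 : (0 : ℤ) ≤ (j : ℤ) * (2 * s + 1) := by positivity
  have hz2 : c ≤ z.2 ∧ z.2 ≤ d ∧ z.2 ≤ c + j * (2 * s + 1) + s ∧
      (z.2 = c + j * (2 * s + 1) + s ∨ z.2 = d) := by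
    have h1 : z.2 = min (c + j * (2 * s + 1) + s) d := rfl
    rw [h1]
    refine ⟨le_min (by omega) hcd, min_le_right _ _, min_le_left _ _, min_choice _ _⟩
  obtain ⟨hz3, hz4, hz5, hz6⟩ := hz2
  set B : Set Config := {ω | (fun e => ω (reflX (2 * w) e)) ∈ Aᶜ} with hB
  have hPB : Pr p B = Pr p Aᶜ := Pr_comp hAl.compl (reflX_injective (2 * w)).injOn
  have hPA : Pr p Aᶜ = 1 - Pr p A := Pr_compl hAl
  set C : Set Config := {ω | dual (fun e => ω (shiftE z e)) ∈ DArm s r} with hC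
  have hPC : Pr p C = Pr p {ω | dual ω ∈ DArm s r} := Pr_dArm_shift p z s r
  have hcov : (Set.univ : Set Config) ⊆
      (({ω | HCross ω 0 (2 * w) (c - r) (d + r)} ∪ Aᶜ) ∪ B) ∪ C := by
    intro ω _
    by_contra hno
    simp only [Set.mem_union, not_or] at hno
    obtain ⟨⟨⟨n1, n2⟩, n3⟩, n4⟩ := hno
    have m2 : ω ∈ A := not_not.1 n2
    have m3 : (fun e => ω (reflX (2 * w) e)) ∈ A := not_not.1 n3
    have m4 : dual (fun e => ω (shiftE z e)) ∉ DArm s r := n4
    obtain ⟨u, v, hu, hv, hv1, hv2, hcon⟩ := m2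
    obtain ⟨u', v', hu', hv', hv1', hv2', hcon'⟩ := m3
    rw [conn_reflX] at hcon'
    have hvr := hcon.mem_right
    have hvr' := hcon'.mem_right
    have hur := hcon.mem_left
    have hur' := hcon'.mem_left
    simp only [rect, Set.mem_ofPred_eq] at hvr hvr' hur hur'
    have hvb : v ∈ ball z s := by
      rw [mem_ball]
      omega
    have hvb' : ((2 * (w : ℤ) - v'.1, v'.2) : Vert) ∈ ball z s := by
      rw [mem_ball]
      dsimp only
      omega
    have hsr : ball z s ⊆ ball z r := by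
      intro x hx
      rw [mem_ball] at hx ⊢
      omega
    obtain ⟨x₁, hx₁, hx₁c⟩ := hcon.symm.to_sphere (hsr hvb) (by
      by_cases hub : u ∈ ball z r
      · right
        refine ⟨hub, Or.inl ?_⟩
        rw [mem_ball] at hub
        omega
      · exact Or.inl hub)
    obtain ⟨x₂, hx₂, hx₂c⟩ := hcon'.symm.to_sphere (hsr hvb') (by
      by_cases hub : ((2 * (w : ℤ) - u'.1, u'.2) : Vert) ∈ ball z r
      · right
        refine ⟨hub, Or.inr (Or.inl ?_)⟩
        rw [mem_ball] at hub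
        dsimp only at hub ⊢
        omega
      · exact Or.inl hub)
    have hg := glue2_shift hs z hvb hvb' hx₁ hx₂ (hx₁c.mono_set Set.inter_subset_right)
      (hx₂c.mono_set Set.inter_subset_right) m4
    refine n1 ⟨u, (2 * (w : ℤ) - u'.1, u'.2), hu, by dsimp only; omega, ?_⟩
    refine (hcon.mono_set ?_).trans ((hg.mono_set ?_).trans (hcon'.symm.mono_set ?_))
    · intro x hx
      simp only [rect, Set.mem_ofPred_eq] at hx ⊢
      omega
    · intro x hx
      rw [mem_ball] at hx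
      simp only [rect, Set.mem_ofPred_eq]
      omega
    · intro x hx
      simp only [rect, Set.mem_ofPred_eq] at hx ⊢
      omega
  have h1 : (1 : ℝ) ≤ Pr p ((({ω | HCross ω 0 (2 * w) (c - r) (d + r)} ∪ Aᶜ) ∪ B) ∪ C) := by
    rw [← Pr_univ (p := p)]
    exact Pr_mono hcov
  have h2 : Pr p ((({ω | HCross ω 0 (2 * w) (c - r) (d + r)} ∪ Aᶜ) ∪ B) ∪ C) ≤
      Pr p {ω | HCross ω 0 (2 * w) (c - r) (d + r)} + Pr p Aᶜ + Pr p B + Pr p C :=
    Pr_union_le.trans (by
      gcongr
      exact Pr_union_le.trans (by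
        gcongr
        exact Pr_union_le))
  have hj' : 1 - δ ^ ((1 : ℝ) / k) ≤ Pr p A := hj
  rw [hPB, hPA, hPC] at h2
  linarith

end Pool.Agent.H83.EX

end

section

/-! # Annulus crossings of thick annuli are unlikely -/

open MeasureTheory ProbabilityTheory unitInterval

namespace Pool.Agent.H83.EX

open Pool.Agent.H89.Perc

private theorem ds_armBox_subset_ann {s a r R : ℕ} (hsa : s ≤ a) (hs : a < r) (hr : r ≤ R) :
    ArmBox 0 s R ⊆ Ann a r := by
  rintro ω ⟨v, hv, u, hu, hc⟩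
  have hva : v ∈ ball 0 a := ball_subset_ball hsa hv
  have hvr : v ∈ ball 0 r := ball_subset_ball (hsa.trans hs.le) hv
  -- path to the sphere of radius `r`
  have h1 : ∃ x ∈ sphere 0 r, Conn ω (ball 0 R ∩ ball 0 r) v x := by
    refine hc.to_sphere hvr ?_
    obtain ⟨hb, h⟩ := hu
    by_cases h2 : u ∈ ball 0 r
    · refine Or.inr ⟨h2, ?_⟩
      simp only [mem_ball, Prod.fst_zero, Prod.snd_zero] at hb h h2 ⊢
      omega
    · exact Or.inl h2
  obtain ⟨x, hx, hc'⟩ := h1
  have hxs : x ∉ ball 0 a := by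
    intro hxs
    obtain ⟨_, h⟩ := hx
    simp only [mem_ball, Prod.fst_zero, Prod.snd_zero] at hxs h
    omega
  obtain ⟨w, w', hw, _, hst, hl⟩ := hc'.exists_last (T := ball 0 a) hva hxs
  refine ⟨w', ?_, x, hx, hl.mono_set ?_⟩
  · have h2 := hst.fst_le
    have h3 := hst.snd_le
    simp only [mem_ball, Prod.fst_zero, Prod.snd_zero] at hw ⊢
    push_cast
    omega
  · exact fun y hy => ⟨hy.1.2, hy.2⟩

/-- Intersections of the annulus events at scales `16 ^ j * s`. -/
private def dsInter (s : ℕ) : ℕ → Set Config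
  | 0 => Set.univ
  | n + 1 => dsInter s n ∩ Ann (16 ^ n * s) (16 ^ (n + 1) * s)

private lemma ds_localOn (s n : ℕ) : LocalOn (eBall (16 ^ n * s)) (dsInter s n) := by
  classical
  induction n with
  | zero => exact fun _ _ _ _ => Set.mem_univ _
  | succ n ih =>
    have h1 : (16 : ℕ) ^ n * s ≤ 16 ^ (n + 1) * s :=
      Nat.mul_le_mul_right s (Nat.pow_le_pow_right (by norm_num) (Nat.le_succ n))
    exact (ih.mono (eBall_subset h1)).inter ((localOn_ann _ _).mono Finset.sdiff_subset)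

private lemma ds_subset {s R : ℕ} (hs : 1 ≤ s) (n : ℕ) (h : 16 ^ n * s ≤ R) :
    ArmBox 0 s R ⊆ dsInter s n := by
  induction n with
  | zero => exact Set.subset_univ _
  | succ n ih =>
    have h0 : (16 : ℕ) ^ n < 16 ^ (n + 1) :=
      Nat.pow_lt_pow_right (by norm_num) (Nat.lt_succ_self n)
    have h1 : (16 : ℕ) ^ n * s < 16 ^ (n + 1) * s := Nat.mul_lt_mul_of_pos_right h0 hs
    have h2 : s ≤ 16 ^ n * s := Nat.le_mul_of_pos_left s (Nat.pow_pos (by norm_num))
    exact Set.subset_inter (ih (h1.le.trans h)) (ds_armBox_subset_ann h2 h1 h)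

theorem armBox_small : ∀ η > (0 : ℝ), ∃ K : ℕ, 1 ≤ K ∧ ∀ s r : ℕ, 1 ≤ s → K * s ≤ r →
    Pr half (ArmBox 0 s r) ≤ η := by
  classical
  intro η hη
  obtain ⟨c, hc, h⟩ := armBox_le
  have hc1 : c ≤ 1 := by
    have h1 := h 1 8 le_rfl (by norm_num)
    have h2 : 0 ≤ Pr half (ArmBox 0 1 8) := Pr_nonneg
    linarith
  set q : ℝ := 1 - c / 2 with hq
  have hq0 : 0 < q := by linarith
  have hq1 : q < 1 := by linarith
  obtain ⟨n, hn⟩ := exists_pow_lt_of_lt_one hη hq1
  refine ⟨16 ^ n, Nat.one_le_pow _ _ (by norm_num), fun s r hs hr => ?_⟩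
  have key : ∀ n : ℕ, Pr half (dsInter s n) ≤ q ^ n := by
    intro n
    induction n with
    | zero => rw [pow_zero]; exact Pr_le_one
    | succ n ih =>
      have h1 : Pr half (dsInter s (n + 1)) =
          Pr half (dsInter s n) * Pr half (Ann (16 ^ n * s) (16 ^ (n + 1) * s)) :=
        Pr_inter_of_disjoint (ds_localOn s n) (localOn_ann _ _) Finset.disjoint_sdiff
      have h2 : Pr half (Ann (16 ^ n * s) (16 ^ (n + 1) * s)) ≤ q := by
        have h3 : 4 * (16 ^ n * s + 1 + 1) ≤ 16 ^ (n + 1) * s := by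
          have h5 : 1 ≤ 16 ^ n * s := Nat.mul_pos (Nat.pow_pos (by norm_num)) hs
          have h6 : 16 ^ (n + 1) * s = 16 * (16 ^ n * s) := by rw [pow_succ]; ring
          rw [h6]
          omega
        have h4 := h (16 ^ n * s + 1) (16 ^ (n + 1) * s) (by omega) h3
        have h5 : Pr half (Ann (16 ^ n * s) (16 ^ (n + 1) * s)) ≤
            Pr half (ArmBox 0 (16 ^ n * s + 1) (16 ^ (n + 1) * s)) :=
          Pr_mono (ann_subset_armBox _ _)
        linarith
      rw [h1, pow_succ]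
      exact mul_le_mul ih h2 Pr_nonneg (pow_nonneg hq0.le n)
  exact ((Pr_mono (ds_subset hs n hr)).trans (key n)).trans hn.le

private theorem ds_DArm_subset {s r : ℕ} (hr : 1 ≤ r) (hsr : s + 2 ≤ r) :
    DArm s r ⊆ ArmBox 0 (s + 1) (r - 1) := by
  rintro ω ⟨φ, φ', h1, h2, h3, hc⟩
  simp only [rect, Set.mem_ofPred_eq] at h1 h2
  have hφ : φ ∈ ball 0 (s + 1) := by
    simp only [mem_ball, Prod.fst_zero, Prod.snd_zero]
    push_cast
    omega
  have hφr : φ ∈ ball 0 (r - 1) := ball_subset_ball (by omega) hφ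
  obtain ⟨x, hx, hcx⟩ := hc.to_sphere (v := 0) (r := r - 1) hφr (by
    by_cases h : φ' ∈ ball 0 (r - 1)
    · right
      refine ⟨h, ?_⟩
      simp only [mem_ball, Prod.fst_zero, Prod.snd_zero] at h ⊢
      push_cast [Nat.cast_sub hr] at h ⊢
      omega
    · exact Or.inl h)
  exact ⟨φ, hφ, x, hx, hcx.mono_set Set.inter_subset_right⟩

theorem dArm_small : ∀ η > (0 : ℝ), ∃ K : ℕ, 1 ≤ K ∧ ∀ s r : ℕ, 1 ≤ s → K * s ≤ r →
    ∀ p : I, half ≤ p → Pr p {ω | dual ω ∈ DArm s r} ≤ η := by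
  intro η hη
  obtain ⟨K, hK, hsmall⟩ := armBox_small η hη
  refine ⟨2 * K + 1, by omega, fun s r hs hr p hp => ?_⟩
  have h1 : 2 * (K * s) + s ≤ r := by
    calc 2 * (K * s) + s = (2 * K + 1) * s := by ring
      _ ≤ r := hr
  have h2 : K ≤ K * s := Nat.le_mul_of_pos_right K hs
  have h3 : s ≤ K * s := Nat.le_mul_of_pos_left s hK
  have hr1 : 1 ≤ r := by omega
  have h4 : K * (s + 1) ≤ r - 1 := by
    rw [Nat.mul_add, Nat.mul_one]
    omega
  rw [Pr_dual (decay_localOn_DArm s r)]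
  have hσ : σ p ≤ half := by
    have h5 : ((half : I) : ℝ) ≤ p := hp
    have h6 : ((half : I) : ℝ) = 1 / 2 := by norm_num [half]
    rw [← Subtype.coe_le_coe, unitInterval.coe_symm_eq]
    linarith
  calc Pr (σ p) (DArm s r) ≤ Pr (σ p) (ArmBox 0 (s + 1) (r - 1)) :=
        Pr_mono (ds_DArm_subset hr1 (by omega))
    _ ≤ Pr half (ArmBox 0 (s + 1) (r - 1)) :=
        Pr_mono_param (localOn_armBox 0 (s + 1) (r - 1)) (incr_armBox 0 (s + 1) (r - 1)) hσ
    _ ≤ η := hsmall (s + 1) (r - 1) (by omega) h4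

end Pool.Agent.H83.EX

end

section

/-! # If the squares are crossed with probability close to one, so are the long rectangles -/

open MeasureTheory ProbabilityTheory unitInterval

namespace Pool.Agent.H83.EX

open Pool.Agent.H89.Perc

/-- One doubling step. -/
private theorem Strong_step : ∀ η > (0 : ℝ), ∃ δ > (0 : ℝ), ∃ K : ℕ, 1 ≤ K ∧ ∀ p : I, half ≤ p →
    ∀ (m w r : ℕ) (c d : ℤ), r = m / 4 → K ≤ r → r ≤ w → c ≤ d → d - c ≤ 5 * m →
    1 - δ ≤ Pr p {ω | HCross ω 0 w c d} →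
    1 - η ≤ Pr p {ω | HCross ω 0 (2 * w) (c - r) (d + r)} := by
  intro η hη
  obtain ⟨K0, hK0, H⟩ := dArm_small (η / 2) (by positivity)
  refine ⟨(η / 4) ^ (80 * max K0 2), by positivity, max K0 2, by omega, ?_⟩
  intro p hp m w r c d hr hKr hrw hcd hdc h
  obtain ⟨K, hK⟩ : ∃ K, K = max K0 2 := ⟨_, rfl⟩
  rw [← hK] at hKr h
  have hK2 : 2 ≤ K := by omega
  have hKK : K0 ≤ K := by omega
  obtain ⟨s, hs⟩ : ∃ s, s = r / K := ⟨_, rfl⟩
  have hs1 : 1 ≤ s := by
    rw [hs]
    exact (Nat.one_le_div_iff (by omega)).2 hKr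
  have hKs : K * s ≤ r := by
    rw [hs]
    exact Nat.mul_div_le r K
  have hK0s : K0 * s ≤ r := le_trans (Nat.mul_le_mul_right s hKK) hKs
  have h2s : 2 * s ≤ K * s := Nat.mul_le_mul_right s hK2
  have hsr : s < r := by omega
  have hrs : r < K * (s + 1) := by
    rw [hs]
    have := Nat.lt_mul_div_succ r (show 0 < K by omega)
    exact this
  have hrs2 : r < 2 * (K * s) := by
    have h1 : K * (s + 1) ≤ K * (2 * s) := Nat.mul_le_mul_left K (by omega)
    have h2 : K * (2 * s) = 2 * (K * s) := by ring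
    omega
  have hm : m < 8 * (2 * (K * s)) := by omega
  have hlen : d - c < ((80 * K : ℕ) : ℤ) * (2 * (s : ℤ) + 1) := by
    have h1 : ((80 * K : ℕ) : ℤ) * (2 * (s : ℤ) + 1) = 160 * ((K : ℤ) * s) + 80 * K := by
      push_cast
      ring
    have h2 : (m : ℤ) < 8 * (2 * ((K : ℤ) * s)) := by exact_mod_cast hm
    rw [h1]
    omega
  have h1 := double_cross (p := p) hsr hrw hcd (show 1 ≤ 80 * K by omega) hlen
    (by positivity : (0 : ℝ) ≤ (η / 4) ^ (80 * K)) h
  have h2 := H s r hs1 hK0s p hp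
  have h3 : ((η / 4) ^ (80 * K)) ^ ((1 : ℝ) / ((80 * K : ℕ) : ℝ)) = η / 4 := by
    rw [one_div]
    exact Real.pow_rpow_inv_natCast (by positivity) (by omega)
  rw [h3] at h1
  linarith

/-- All scales above a constant. -/
private theorem Strong_large : ∀ η > (0 : ℝ), ∃ δ > (0 : ℝ), ∃ m0 : ℕ, ∀ p : I, half ≤ p →
    ∀ m : ℕ, m0 ≤ m → 1 - δ ≤ Pr p {ω | HCross ω 0 (4 * m) 0 (4 * m)} →
    1 - η ≤ Pr p {ω | HCross ω 0 (16 * m) 0 (5 * m)} := by
  intro η hη
  obtain ⟨δ2, hδ2, K2, hK2, H2⟩ := Strong_step η hη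
  obtain ⟨δ1, hδ1, K1, hK1, H1⟩ := Strong_step δ2 hδ2
  refine ⟨δ1, hδ1, 4 * (K1 + K2), ?_⟩
  intro p hp m hm h
  obtain ⟨r, hr⟩ : ∃ r, r = m / 4 := ⟨_, rfl⟩
  have h1 := H1 p hp m (4 * m) r 0 (4 * m) hr (by omega) (by omega) (by omega) (by omega)
    (by push_cast; exact h)
  have h2 := H2 p hp m (8 * m) r (0 - r) (4 * m + r) hr (by omega) (by omega) (by omega) (by omega)
    (by
      have e1 : ((8 * m : ℕ) : ℤ) = 2 * ((4 * m : ℕ) : ℤ) := by push_cast; ring
      rw [e1]
      exact h1)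
  have h3 := Pr_hcross_translate (p := p) (a := 0) (b := 2 * ((8 * m : ℕ) : ℤ))
    (c := (0 - r) - r) (d := (4 * m + r) + r) 0 (2 * r)
  rw [← h3] at h2
  refine h2.trans (Pr_mono fun ω hω => ?_)
  refine HCross.mono hω (by omega) (by omega) (by push_cast; omega) (by omega) (by omega)

private theorem Strong_localOn (e : Edge) : LocalOn {e} {ω : Config | ω e = true} := by
  intro ω ω' h hA
  have : ω e = ω' e := h e (by simp)
  simp only [Set.mem_ofPred_eq] at hA ⊢
  rw [← this]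
  exact hA

private theorem Strong_incr (e : Edge) : Incr {ω : Config | ω e = true} := fun _ _ h hA => h e hA

private theorem Strong_edge {p : I} (e e' : Edge) :
    Pr p {ω | ω e = true} = Pr p {ω | ω e' = true} := by
  have h := Pr_comp (p := p) (Strong_localOn e) (φ := fun _ => e')
    (by simp)
  rw [← h]
  rfl

/-- A crossing of a square uses an open edge of the first column. -/
private theorem Strong_first {m : ℕ} (hm : 1 ≤ m) :
    {ω | HCross ω 0 (4 * m) 0 (4 * m)} ⊆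
      ⋃ j ∈ Finset.range (4 * m + 1), {ω : Config | ω (0, (j : ℤ), false) = true} := by
  rintro ω ⟨u, v, hu, hv, hc⟩
  obtain ⟨a, b, ha, hb, h, -⟩ := Conn.exists_exit hc (T := {z : Vert | z.1 ≤ 0})
    (by simp only [Set.mem_ofPred_eq]; omega) (by simp only [Set.mem_ofPred_eq]; omega)
  have h1 : a.1 ≤ 0 := ha.mem_right.2
  obtain ⟨ha1, -, ha3, ha4⟩ := hb.1
  simp only [Set.mem_ofPred_eq, not_le] at h
  obtain ⟨-, -, e, he, ho⟩ := hb
  have h0 : a.1 = 0 := le_antisymm h1 ha1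
  have hee : e = (0, a.2, false) := by
    obtain ⟨x, y, t⟩ := e
    rcases he with ⟨e1, e2⟩ | ⟨e1, e2⟩
    · subst e1 e2
      cases t
      · simp only [src] at h0 ⊢
        rw [h0]
      · simp only [src, tgt] at h0 h
        simp at h
        omega
    · subst e1 e2
      cases t
      · simp only [src, tgt] at h0 h
        simp at h0
        omega
      · simp only [src, tgt] at h0 h
        simp at h0
        omega
  obtain ⟨j, hj⟩ := Int.eq_ofNat_of_zero_le ha3
  simp only [Set.mem_iUnion]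
  refine ⟨j, Finset.mem_range.2 (by omega), ?_⟩
  rw [Set.mem_ofPred_eq, ← hj, ← hee]
  exact ho

/-- An open row. -/
private theorem Strong_row {m : ℕ} {ω : Config}
    (h : ∀ i ∈ Finset.range (16 * m), ω ((i : ℤ), 0, false) = true) :
    HCross ω 0 (16 * m) 0 (5 * m) := by
  have key : ∀ i : ℕ, i ≤ 16 * m → Conn ω (rect 0 (16 * m) 0 (5 * m)) (0, 0) ((i : ℤ), 0) := by
    intro i
    induction i with
    | zero =>
      intro _
      refine Conn.refl ⟨le_rfl, ?_, le_rfl, ?_⟩ <;> simp only <;> omega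
    | succ i ih =>
      intro hi
      have h1 := ih (by omega)
      refine h1.tail ⟨h1.mem_right, ⟨?_, ?_, ?_, ?_⟩, ((i : ℤ), 0, false), Or.inl ⟨rfl, ?_⟩,
        h i (Finset.mem_range.2 (by omega))⟩
      · simp only; omega
      · simp only; omega
      · simp only; omega
      · simp only; omega
      · simp [tgt]
  refine ⟨(0, 0), (((16 * m : ℕ) : ℤ), 0), rfl, ?_, key _ le_rfl⟩
  push_cast
  rfl

/-- All scales below a constant. -/
private theorem Strong_small : ∀ η > (0 : ℝ), ∀ m0 : ℕ, ∃ δ > (0 : ℝ), ∀ p : I,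
    ∀ m : ℕ, 1 ≤ m → m ≤ m0 → 1 - δ ≤ Pr p {ω | HCross ω 0 (4 * m) 0 (4 * m)} →
    1 - η ≤ Pr p {ω | HCross ω 0 (16 * m) 0 (5 * m)} := by
  intro η hη m0
  obtain ⟨ε, hε⟩ : ∃ ε : ℝ, ε = min 1 (η / (16 * m0 + 1)) := ⟨_, rfl⟩
  have hε0 : 0 < ε := by
    rw [hε]
    exact lt_min one_pos (by positivity)
  have hε1 : ε ≤ 1 := by rw [hε]; exact min_le_left _ _
  have hεη : ε * (16 * m0 + 1) ≤ η := by
    rw [← le_div_iff₀ (by positivity), hε]
    exact min_le_right _ _
  refine ⟨ε ^ (4 * m0 + 1), by positivity, ?_⟩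
  intro p m hm hmm h
  have hne : (Finset.range (4 * m + 1)).Nonempty := Finset.nonempty_range_iff.2 (by omega)
  obtain ⟨j, hj, h1⟩ := sqrt_trick (p := p) (Finset.range (4 * m + 1)) hne
    (fun j : ℕ => {ω : Config | ω (0, (j : ℤ), false) = true})
    (fun j : ℕ => {((0 : ℤ), (j : ℤ), false)}) (fun j _ => Strong_localOn _)
    (fun j _ => Strong_incr _) (Strong_first hm)
    (by positivity : (0 : ℝ) ≤ ε ^ (4 * m0 + 1)) h
  rw [Finset.card_range] at h1
  have h2 : (ε ^ (4 * m0 + 1)) ^ ((1 : ℝ) / ((4 * m + 1 : ℕ) : ℝ)) ≤ ε := by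
    have h3 : ε ^ (4 * m0 + 1) ≤ ε ^ (4 * m + 1) :=
      pow_le_pow_of_le_one hε0.le hε1 (by omega)
    have h4 : (ε ^ (4 * m + 1)) ^ ((1 : ℝ) / ((4 * m + 1 : ℕ) : ℝ)) = ε := by
      rw [one_div]
      exact Real.pow_rpow_inv_natCast hε0.le (by omega)
    calc (ε ^ (4 * m0 + 1)) ^ ((1 : ℝ) / ((4 * m + 1 : ℕ) : ℝ))
        ≤ (ε ^ (4 * m + 1)) ^ ((1 : ℝ) / ((4 * m + 1 : ℕ) : ℝ)) :=
          Real.rpow_le_rpow (by positivity) h3 (by positivity)
      _ = ε := h4
  have h5 : ∀ e : Edge, 1 - ε ≤ Pr p {ω : Config | ω e = true} := by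
    intro e
    rw [Strong_edge e (0, (j : ℤ), false)]
    linarith
  have h6 : ({ω | HCross ω 0 (16 * m) 0 (5 * m)} : Set Config)ᶜ ⊆
      ⋃ i ∈ Finset.range (16 * m), ({ω : Config | ω ((i : ℤ), 0, false) = true} : Set Config)ᶜ := by
    intro ω hω
    by_contra hcon
    apply hω
    refine Strong_row fun i hi => ?_
    by_contra hne
    apply hcon
    simp only [Set.mem_iUnion]
    exact ⟨i, hi, hne⟩
  have h7 := (Pr_mono (p := p) h6).trans (Pr_biUnion_le _ _)
  rw [Pr_compl (localOn_hcross _ _ _ _)] at h7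
  have h8 : ∑ i ∈ Finset.range (16 * m),
      Pr p ({ω : Config | ω ((i : ℤ), 0, false) = true} : Set Config)ᶜ ≤
      ∑ _i ∈ Finset.range (16 * m), ε := by
    refine Finset.sum_le_sum fun i _ => ?_
    rw [Pr_compl (Strong_localOn _)]
    linarith [h5 ((i : ℤ), 0, false)]
  rw [Finset.sum_const, Finset.card_range, nsmul_eq_mul] at h8
  have h9 : ((16 * m : ℕ) : ℝ) * ε ≤ ε * (16 * m0 + 1) := by
    have : ((16 * m : ℕ) : ℝ) ≤ 16 * m0 + 1 := by
      push_cast
      have : (m : ℝ) ≤ m0 := by exact_mod_cast hmm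
      linarith
    nlinarith
  linarith

theorem strong_rsw : ∀ η > (0 : ℝ), ∃ δ > (0 : ℝ), ∀ p : I, half ≤ p → ∀ m : ℕ, 1 ≤ m →
    1 - δ ≤ Pr p {ω | HCross ω 0 (4 * m) 0 (4 * m)} →
    1 - η ≤ Pr p {ω | HCross ω 0 (16 * m) 0 (5 * m)} := by
  intro η hη
  obtain ⟨δ1, hδ1, m0, H1⟩ := Strong_large η hη
  obtain ⟨δ2, hδ2, H2⟩ := Strong_small η hη m0
  refine ⟨min δ1 δ2, lt_min hδ1 hδ2, ?_⟩
  intro p hp m hm h
  rcases le_total m0 m with h1 | h1
  · exact H1 p hp m h1 (by linarith [min_le_left δ1 δ2])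
  · exact H2 p m hm h1 (by linarith [min_le_right δ1 δ2])

end Pool.Agent.H83.EX

end

section

open MeasureTheory ProbabilityTheory unitInterval

namespace Pool.Agent.H57.LF

open Pool.Agent.H89.Perc

private lemma fs2_div {L : ℕ} (hL : 1 ≤ L) (x : ℤ) (K : ℤ) (h1 : -(K * L) ≤ x) (h2 : x ≤ K * L) :
    ∃ i : ℤ, -K ≤ i ∧ i ≤ K ∧ i * L ≤ x ∧ x < i * L + L := by
  have hL' : (0 : ℤ) < L := by exact_mod_cast hL
  refine ⟨x / L, ?_, ?_, ?_, ?_⟩
  · rw [Int.le_ediv_iff_mul_le hL']
    linarith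
  · have : x / L < K + 1 := by
      rw [Int.ediv_lt_iff_lt_mul hL']
      nlinarith
    omega
  · exact Int.ediv_mul_le x hL'.ne'
  · have := Int.lt_ediv_add_one_mul_self x hL'
    linarith

private lemma fs2_far {L : ℕ} (hL : 1 ≤ L) {x y i j : ℤ} (h1 : i * L ≤ x) (h2 : x < i * L + L)
    (h3 : j * L ≤ y) (h4 : y < j * L + L) (h : x + 18 * L ≤ y ∨ y + 18 * L ≤ x) :
    i + 15 ≤ j ∨ j + 15 ≤ i := by
  have hL' : (0 : ℤ) < L := by exact_mod_cast hL
  rcases h with h | h
  · left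
    by_contra hc
    push Not at hc
    have : (j + 1) * L ≤ (i + 15) * L := mul_le_mul_of_nonneg_right (by omega) hL'.le
    nlinarith
  · right
    by_contra hc
    push Not at hc
    have : (i + 1) * L ≤ (j + 15) * L := mul_le_mul_of_nonneg_right (by omega) hL'.le
    nlinarith

private lemma fs2_sep {L : ℕ} (hL : 1 ≤ L) {i j : ℤ} (h : i + 15 ≤ j ∨ j + 15 ≤ i) {x : ℤ}
    (h1 : i * L - (7 * L : ℕ) ≤ x) (h2 : x ≤ i * L + (7 * L : ℕ)) (h3 : j * L - (7 * L : ℕ) ≤ x)
    (h4 : x ≤ j * L + (7 * L : ℕ)) : False := by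
  have hL' : (0 : ℤ) < L := by exact_mod_cast hL
  push_cast at h1 h2 h3 h4
  rcases h with h | h
  · have : (i + 15) * L ≤ j * L := mul_le_mul_of_nonneg_right h hL'.le
    nlinarith
  · have : (j + 15) * L ≤ i * L := mul_le_mul_of_nonneg_right h hL'.le
    nlinarith

theorem fs_step {q : I} {L : ℕ} (hL : 1 ≤ L) :
    Pr q (ArmBox 0 (3 * L) (21 * L)) ≤ 10 ^ 8 * Pr q (ArmBox 0 L (7 * L)) ^ 2 := by
  classical
  have hL' : (0 : ℤ) < L := by exact_mod_cast hL
  set F : Finset ((ℤ × ℤ) × (ℤ × ℤ)) :=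
    ((Finset.Icc (-3) 3 ×ˢ Finset.Icc (-3) 3) ×ˢ (Finset.Icc (-21) 21 ×ˢ Finset.Icc (-21) 21)).filter
      (fun x => (x.1.1 + 15 ≤ x.2.1 ∨ x.2.1 + 15 ≤ x.1.1) ∨
        (x.1.2 + 15 ≤ x.2.2 ∨ x.2.2 + 15 ≤ x.1.2)) with hF
  set E : (ℤ × ℤ) × (ℤ × ℤ) → Set Config := fun x =>
    ArmBox (x.1.1 * L, x.1.2 * L) L (7 * L) ∩ ArmBox (x.2.1 * L, x.2.2 * L) L (7 * L) with hE
  have hsub : ArmBox 0 (3 * L) (21 * L) ⊆ ⋃ x ∈ F, E x := by
    rintro ω ⟨w, hw, u, hu, hc⟩
    obtain ⟨w1, w2⟩ := w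
    obtain ⟨u1, u2⟩ := u
    obtain ⟨hub, hus⟩ := hu
    simp only [mem_ball, Prod.fst_zero, Prod.snd_zero] at hw hub hus
    push_cast at hw hub hus
    obtain ⟨i, hi1, hi2, hi3, hi4⟩ := fs2_div hL w1 3 (by omega) (by omega)
    obtain ⟨j, hj1, hj2, hj3, hj4⟩ := fs2_div hL w2 3 (by omega) (by omega)
    obtain ⟨i', hi1', hi2', hi3', hi4'⟩ := fs2_div hL u1 21 (by omega) (by omega)
    obtain ⟨j', hj1', hj2', hj3', hj4'⟩ := fs2_div hL u2 21 (by omega) (by omega)
    have hfar : (w1 + 18 * L ≤ u1 ∨ u1 + 18 * L ≤ w1) ∨ (w2 + 18 * L ≤ u2 ∨ u2 + 18 * L ≤ w2) := by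
      omega
    simp only [Set.mem_iUnion]
    refine ⟨((i, j), (i', j')), ?_, ?_, ?_⟩
    · rw [hF]
      simp only [Finset.mem_filter, Finset.mem_product, Finset.mem_Icc]
      refine ⟨⟨⟨⟨hi1, hi2⟩, hj1, hj2⟩, ⟨hi1', hi2'⟩, hj1', hj2'⟩, ?_⟩
      rcases hfar with h | h
      · exact Or.inl (fs2_far hL hi3 hi4 hi3' hi4' h)
      · exact Or.inr (fs2_far hL hj3 hj4 hj3' hj4' h)
    · obtain ⟨x, hx, hcx⟩ := hc.to_sphere (v := (i * L, j * L)) (r := 7 * L)
        (by
          simp only [mem_ball]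
          push_cast
          omega)
        (by
          left
          simp only [mem_ball]
          push_cast
          omega)
      refine ⟨(w1, w2), ?_, x, hx, hcx.mono_set Set.inter_subset_right⟩
      simp only [mem_ball]
      omega
    · obtain ⟨x, hx, hcx⟩ := hc.symm.to_sphere (v := (i' * L, j' * L)) (r := 7 * L)
        (by
          simp only [mem_ball]
          push_cast
          omega)
        (by
          left
          simp only [mem_ball]
          push_cast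
          omega)
      refine ⟨(u1, u2), ?_, x, hx, hcx.mono_set Set.inter_subset_right⟩
      simp only [mem_ball]
      omega
  have hE' : ∀ x ∈ F, Pr q (E x) = Pr q (ArmBox 0 L (7 * L)) ^ 2 := by
    intro x hx
    rw [hF, Finset.mem_filter] at hx
    have hx' := hx.2
    rw [hE]
    simp only
    rw [Pr_inter_of_disjoint (localOn_armBox _ _ _) (localOn_armBox _ _ _) ?_,
      Pr_armBox, Pr_armBox (x.2.1 * L, x.2.2 * L), sq]
    rw [Finset.disjoint_left]
    intro e h1 h2
    rw [mem_eRect] at h1 h2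
    simp only [rect, Set.mem_ofPred_eq] at h1 h2
    rcases hx' with h | h
    · exact fs2_sep hL h h1.1 h1.2.1 h2.1 h2.2.1
    · exact fs2_sep hL h h1.2.2.1 h1.2.2.2 h2.2.2.1 h2.2.2.2
  have hcard : (F.card : ℝ) ≤ 10 ^ 8 := by
    have h1 : F.card ≤ ((Finset.Icc (-3 : ℤ) 3 ×ˢ Finset.Icc (-3 : ℤ) 3) ×ˢ
        (Finset.Icc (-21 : ℤ) 21 ×ˢ Finset.Icc (-21 : ℤ) 21)).card := Finset.card_filter_le _ _
    have h2 : ((Finset.Icc (-3 : ℤ) 3 ×ˢ Finset.Icc (-3 : ℤ) 3) ×ˢ
        (Finset.Icc (-21 : ℤ) 21 ×ˢ Finset.Icc (-21 : ℤ) 21)).card = 90601 := by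
      simp only [Finset.card_product, Int.card_Icc]
      rfl
    rw [h2] at h1
    have h3 : (F.card : ℝ) ≤ 90601 := by exact_mod_cast h1
    linarith
  calc Pr q (ArmBox 0 (3 * L) (21 * L)) ≤ Pr q (⋃ x ∈ F, E x) := Pr_mono hsub
    _ ≤ ∑ x ∈ F, Pr q (E x) := Pr_biUnion_le _ _
    _ = F.card * Pr q (ArmBox 0 L (7 * L)) ^ 2 := by
        rw [Finset.sum_congr rfl hE', Finset.sum_const, nsmul_eq_mul]
    _ ≤ 10 ^ 8 * Pr q (ArmBox 0 L (7 * L)) ^ 2 := by gcongr

end Pool.Agent.H57.LF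

end

section

open MeasureTheory ProbabilityTheory unitInterval

namespace Pool.Agent.H57.LF

open Pool.Agent.H89.Perc

private lemma fs3_mono {v : Vert} {s s' r r' : ℕ} (hs : s ≤ s') (hr : r' ≤ r) (hsr : s' ≤ r') :
    ArmBox v s r ⊆ ArmBox v s' r' := by
  rintro ω ⟨w, hw, u, hu, hc⟩
  have hws : w ∈ ball v s' := by
    simp only [mem_ball] at hw ⊢; omega
  have hwr : w ∈ ball v r' := by
    simp only [mem_ball] at hws ⊢; omega
  obtain ⟨x, hx, hcx⟩ := hc.to_sphere (v := v) (r := r') hwr (by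
    rcases Nat.lt_or_ge r' r with h | h
    · left
      intro hub
      have h1 := hu.2
      simp only [mem_ball] at hub
      omega
    · have : r = r' := le_antisymm h hr
      subst this
      exact Or.inr hu)
  exact ⟨w, hws, x, hx, hcx.mono_set Set.inter_subset_right⟩

private lemma fs3_iter {q : I} {L : ℕ} (hL : 1 ≤ L)
    (h0 : Pr q (ArmBox 0 L (7 * L)) ≤ 1 / (9 * 10 ^ 8)) (k : ℕ) :
    10 ^ 8 * Pr q (ArmBox 0 (3 ^ k * L) (7 * (3 ^ k * L))) ≤ (1 / 9) ^ (k + 1) := by
  induction k with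
  | zero =>
    simp only [pow_zero, one_mul, zero_add, pow_one]
    have : (1 : ℝ) / (9 * 10 ^ 8) = 1 / 10 ^ 8 * (1 / 9) := by norm_num
    rw [this] at h0
    have h1 : (10 : ℝ) ^ 8 * (1 / 10 ^ 8 * (1 / 9)) = 1 / 9 := by norm_num
    calc _ ≤ (10 : ℝ) ^ 8 * (1 / 10 ^ 8 * (1 / 9)) := by gcongr
      _ = 1 / 9 := h1
  | succ k ih =>
    have h1 := fs_step (q := q) (L := 3 ^ k * L) (Nat.mul_pos (by positivity) hL)
    have e1 : 3 * (3 ^ k * L) = 3 ^ (k + 1) * L := by ring
    have e2 : 21 * (3 ^ k * L) = 7 * (3 ^ (k + 1) * L) := by ring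
    rw [e1, e2] at h1
    set a := Pr q (ArmBox 0 (3 ^ k * L) (7 * (3 ^ k * L))) with ha
    have ha0 : 0 ≤ a := Pr_nonneg
    calc 10 ^ 8 * Pr q (ArmBox 0 (3 ^ (k + 1) * L) (7 * (3 ^ (k + 1) * L)))
        ≤ 10 ^ 8 * (10 ^ 8 * a ^ 2) := by gcongr
      _ = (10 ^ 8 * a) ^ 2 := by ring
      _ ≤ ((1 / 9) ^ (k + 1)) ^ 2 := by gcongr
      _ = (1 / 9) ^ (2 * (k + 1)) := by rw [← pow_mul, mul_comm]
      _ ≤ (1 / 9) ^ (k + 1 + 1) := pow_le_pow_of_le_one (by norm_num) (by norm_num) (by omega)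

private lemma fs3_term {q : I} {L : ℕ} (hL : 1 ≤ L)
    (h0 : Pr q (ArmBox 0 L (7 * L)) ≤ 1 / (9 * 10 ^ 8)) (i : ℕ) :
    10 ^ 8 * Pr q (ArmBox 0 L (max (i * L) (8 * L) - L)) ≤ 81 / ((i : ℝ) + 1) ^ 2 := by
  have hr : max (i * L) (8 * L) - L = (max i 8 - 1) * L := by
    rw [← max_mul_of_nonneg _ _ (Nat.zero_le L), Nat.sub_mul, one_mul]
  set M := max i 8 - 1 with hM
  have hM7 : 7 ≤ M := by
    have := le_max_right i 8
    omega
  obtain ⟨k, hk1, hk2⟩ : ∃ k, 7 * 3 ^ k ≤ M ∧ M < 7 * 3 ^ (k + 1) := by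
    have hn : M / 7 ≠ 0 := by omega
    refine ⟨Nat.log 3 (M / 7), ?_, ?_⟩
    · have := Nat.pow_log_le_self 3 hn
      omega
    · have := Nat.lt_pow_succ_log_self (b := 3) (by norm_num) (M / 7)
      rw [Nat.succ_eq_add_one] at this
      omega
  have h1 : Pr q (ArmBox 0 L (M * L)) ≤ Pr q (ArmBox 0 (3 ^ k * L) (7 * (3 ^ k * L))) := by
    apply Pr_mono
    apply fs3_mono
    · exact Nat.le_mul_of_pos_left _ (by positivity)
    · rw [← mul_assoc]
      exact Nat.mul_le_mul_right _ hk1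
    · omega
  have h2 := fs3_iter hL h0 k
  rw [hr]
  have h3 : ((i : ℝ) + 1) * 7 ≤ 9 * M := by
    have : (i + 1) * 7 ≤ 9 * M := by
      rcases le_total i 8 with h | h
      · omega
      · have : max i 8 = i := max_eq_left h
        omega
    exact_mod_cast this
  have h4 : (M : ℝ) ≤ 7 * 3 ^ (k + 1) := by exact_mod_cast hk2.le
  have h5 : ((i : ℝ) + 1) ≤ 9 * 3 ^ (k + 1) := by linarith
  have h6 : (0 : ℝ) < (i : ℝ) + 1 := by positivity
  have h7 : ((1 : ℝ) / 9) ^ (k + 1) ≤ 81 / ((i : ℝ) + 1) ^ 2 := by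
    rw [le_div_iff₀ (by positivity)]
    calc ((1 : ℝ) / 9) ^ (k + 1) * ((i : ℝ) + 1) ^ 2
        ≤ (1 / 9) ^ (k + 1) * (9 * 3 ^ (k + 1)) ^ 2 := by gcongr
      _ = 81 * ((1 / 9) ^ (k + 1) * (3 ^ 2) ^ (k + 1)) := by
          rw [mul_pow, ← pow_mul, mul_comm (k + 1) 2, pow_mul]
          ring
      _ = 81 := by
          rw [← mul_pow]
          norm_num
  calc 10 ^ 8 * Pr q (ArmBox 0 L (M * L))
      ≤ 10 ^ 8 * Pr q (ArmBox 0 (3 ^ k * L) (7 * (3 ^ k * L))) := by gcongr
    _ ≤ (1 / 9) ^ (k + 1) := h2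
    _ ≤ _ := h7

private lemma fs3_series (M : ℕ) :
    ∑ i ∈ Finset.range M, (81 : ℝ) / ((i : ℝ) + 1) ^ 2 ≤ 162 * (1 - 1 / ((M : ℝ) + 1)) := by
  induction M with
  | zero => simp
  | succ M ih =>
    rw [Finset.sum_range_succ]
    have h1 : (0 : ℝ) < (M : ℝ) + 1 := by positivity
    have h2 : (81 : ℝ) / ((M : ℝ) + 1) ^ 2 ≤ 162 * (1 / ((M : ℝ) + 1) - 1 / ((M : ℝ) + 1 + 1)) := by
      rw [div_sub_div _ _ (by positivity) (by positivity), mul_div_assoc',
        div_le_div_iff₀ (by positivity) (by positivity)]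
      have h3 : (0 : ℝ) ≤ M := Nat.cast_nonneg _
      nlinarith [mul_nonneg h3 h3, mul_nonneg (mul_nonneg h3 h3) h3]
    push_cast
    linarith

theorem fs_sum : ∃ ε > (0 : ℝ), ∃ K : ℕ, 2 ≤ K ∧ ∀ q : I, ∀ L : ℕ, 1 ≤ L →
    Pr q (ArmBox 0 L (7 * L)) ≤ ε → ∀ M : ℕ,
    ∑ i ∈ Finset.range M, Pr q (ArmBox 0 L (max (i * L) (K * L) - L)) ≤ 1 / 2 := by
  refine ⟨1 / (9 * 10 ^ 8), by positivity, 8, by norm_num, fun q L hL h0 M => ?_⟩
  have h1 : 10 ^ 8 * ∑ i ∈ Finset.range M, Pr q (ArmBox 0 L (max (i * L) (8 * L) - L)) ≤ 162 := by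
    rw [Finset.mul_sum]
    refine (Finset.sum_le_sum fun i _ => fs3_term hL h0 i).trans ?_
    refine (fs3_series M).trans ?_
    have : (0 : ℝ) ≤ 1 / ((M : ℝ) + 1) := by positivity
    linarith
  linarith

end Pool.Agent.H57.LF

end

section

open MeasureTheory ProbabilityTheory unitInterval

namespace Pool.Agent.H57.LF

open Pool.Agent.H89.Perc

/-- a path across a horizontal strip inside a rectangle gives a vertical crossing -/
private theorem fs1_vert {ω : Config} {a b c d : ℤ} {u v : Vert}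
    (h : Conn ω (rect a b c d) u v) {a' b' c' d' : ℤ} (hu : u.2 ≤ c') (hv : d' ≤ v.2)
    (hcd : c' ≤ d') (ha : a' ≤ a) (hb : b ≤ b') : VCross ω a' b' c' d' := by
  obtain ⟨u', v', h1, h2, h3, -, -⟩ := h.cross_y hu hv hcd
  refine ⟨u', v', h1, h2, h3.mono_set ?_⟩
  intro w hw
  simp only [rect, Set.mem_inter_iff, Set.mem_ofPred_eq] at hw ⊢
  omega

private theorem fs1_hor {ω : Config} {a b c d : ℤ} {u v : Vert}
    (h : Conn ω (rect a b c d) u v) {a' b' c' d' : ℤ} (hu : u.1 ≤ a') (hv : b' ≤ v.1)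
    (hab : a' ≤ b') (hc : c' ≤ c) (hd : d ≤ d') : HCross ω a' b' c' d' := by
  obtain ⟨u', v', h1, h2, h3, -, -⟩ := h.cross_x hu hv hab
  refine ⟨u', v', h1, h2, h3.mono_set ?_⟩
  intro w hw
  simp only [rect, Set.mem_inter_iff, Set.mem_ofPred_eq] at hw ⊢
  omega

private theorem fs1_cover {m : ℕ} (hm : 1 ≤ m) :
    ArmBox 0 m (7 * m) ⊆
      ({ω | VCross ω (-(7 * m : ℤ)) (8 * m - 1) m (6 * m + 1)} ∪
        {ω | VCross ω (-(7 * m : ℤ)) (8 * m - 1) (-(6 * m : ℤ) - 1) (-(m : ℤ))}) ∪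
      ({ω | HCross ω m (6 * m + 1) (-(7 * m : ℤ)) (8 * m - 1)} ∪
        {ω | HCross ω (-(6 * m : ℤ) - 1) (-(m : ℤ)) (-(7 * m : ℤ)) (8 * m - 1)}) := by
  rintro ω ⟨w, hw, u, hu, hc⟩
  simp only [ball, rect, sphere, Set.mem_ofPred_eq, Prod.fst_zero, Prod.snd_zero] at hw hu
  push_cast at hw hu
  have hc' : Conn ω (rect (-(7 * m : ℤ)) (7 * m) (-(7 * m : ℤ)) (7 * m)) w u := by
    have : ball 0 (7 * m) = rect (-(7 * m : ℤ)) (7 * m) (-(7 * m : ℤ)) (7 * m) := by
      simp only [ball, Prod.fst_zero, Prod.snd_zero]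
      push_cast
      ring_nf
    rwa [this] at hc
  obtain ⟨hw1, hw2, hw3, hw4⟩ := hw
  obtain ⟨-, h | h | h | h⟩ := hu
  · -- left
    right; right
    exact fs1_hor hc'.symm (by omega) (by omega) (by omega) (by omega) (by omega)
  · -- right
    right; left
    exact fs1_hor hc' (by omega) (by omega) (by omega) (by omega) (by omega)
  · -- bottom
    left; right
    exact fs1_vert hc'.symm (by omega) (by omega) (by omega) (by omega) (by omega)
  · -- top
    left; left
    exact fs1_vert hc' (by omega) (by omega) (by omega) (by omega) (by omega)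

theorem fs_annulus {p : I} {m : ℕ} (hm : 1 ≤ m) :
    Pr (σ p) (ArmBox 0 m (7 * m)) ≤
      4 * (1 - Pr p {ω | HCross ω m (16 * m) (-m) (4 * m)}) := by
  set b : ℝ := Pr (σ p) {ω | VCross ω m (16 * m - 1) (-(m : ℤ) - 1) (4 * m)} with hb
  have hb1 : b ≤ 1 - Pr p {ω | HCross ω m (16 * m) (-m) (4 * m)} := by
    rw [hb, ← Pr_dual (localOn_vcross _ _ _ _), ← Pr_compl (localOn_hcross _ _ _ _)]
    refine Pr_mono ?_
    intro ω hω hω'
    exact not_hcross_and_dual_vcross (by omega) hω' hω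
  have e1 : Pr (σ p) {ω | VCross ω (-(7 * m : ℤ)) (8 * m - 1) m (6 * m + 1)} = b := by
    have := Pr_vcross_translate (p := σ p) (a := m) (b := 16 * m - 1) (c := -(m : ℤ) - 1)
      (d := 4 * m) (-(8 * m : ℤ)) (2 * m + 1)
    rw [hb, ← this]
    congr 2
    funext ω
    congr 1 <;> ring
  have e2 : Pr (σ p) {ω | VCross ω (-(7 * m : ℤ)) (8 * m - 1) (-(6 * m : ℤ) - 1) (-(m : ℤ))}
      = b := by
    have := Pr_vcross_translate (p := σ p) (a := m) (b := 16 * m - 1) (c := -(m : ℤ) - 1)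
      (d := 4 * m) (-(8 * m : ℤ)) (-(5 * m : ℤ))
    rw [hb, ← this]
    congr 2
    funext ω
    congr 1 <;> ring
  have e3 : Pr (σ p) {ω | HCross ω m (6 * m + 1) (-(7 * m : ℤ)) (8 * m - 1)} = b := by
    rw [← Pr_vcross_eq_hcross, e1]
  have e4 : Pr (σ p) {ω | HCross ω (-(6 * m : ℤ) - 1) (-(m : ℤ)) (-(7 * m : ℤ)) (8 * m - 1)}
      = b := by
    rw [← Pr_vcross_eq_hcross, e2]
  calc Pr (σ p) (ArmBox 0 m (7 * m)) ≤ _ := Pr_mono (fs1_cover hm)
    _ ≤ _ := Pr_union_le
    _ ≤ (b + b) + (b + b) := by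
        refine add_le_add (Pr_union_le.trans ?_) (Pr_union_le.trans ?_)
        · rw [e1, e2]
        · rw [e3, e4]
    _ = 4 * b := by ring
    _ ≤ _ := by linarith

end Pool.Agent.H57.LF

end

section

/-!
# The percolation probability is the limit of the one-arm probabilities
-/

open MeasureTheory ProbabilityTheory unitInterval Filter Topology

namespace Pool.Agent.H89.Perc

private lemma thetaLimit_ball_finite (r : ℕ) : (ball 0 r).Finite := by
  refine Set.Finite.subset
    ((Set.finite_Icc (-(r : ℤ)) r).prod (Set.finite_Icc (-(r : ℤ)) r)) ?_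
  intro u hu
  simp only [mem_ball, Prod.fst_zero, Prod.snd_zero] at hu
  simp only [Set.mem_prod, Set.mem_Icc]
  omega

private lemma thetaLimit_not_mem_ball {r : ℕ} {u : Vert} (hu : u ∉ ball 0 r) :
    (r : ℤ) ≤ |u.1 - (0 : Vert).1| ∨ (r : ℤ) ≤ |u.2 - (0 : Vert).2| := by
  simp only [mem_ball, Prod.fst_zero, Prod.snd_zero] at hu ⊢
  rcases abs_cases (u.1 - 0) with h3 | h3 <;> rcases abs_cases (u.2 - 0) with h4 | h4 <;> omega

private lemma thetaLimit_antitone : Antitone (fun r : ℕ => Arm 0 r) := by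
  intro r r' h
  rintro ω ⟨u, hu, hc⟩
  refine hc.mem_arm ?_
  obtain ⟨hb, hs⟩ := hu
  simp only [mem_ball, Prod.fst_zero, Prod.snd_zero] at hb hs ⊢
  rcases abs_cases (u.1 - 0) with h3 | h3 <;> rcases abs_cases (u.2 - 0) with h4 | h4 <;> omega

private lemma thetaLimit_set :
    {ω : Config | {v | Conn ω Set.univ 0 v}.Infinite} = ⋂ r : ℕ, Arm 0 r := by
  ext ω
  simp only [Set.mem_ofPred_eq, Set.mem_iInter]
  constructor
  · intro h r
    obtain ⟨v, hv, hvb⟩ := h.exists_notMem_finite (thetaLimit_ball_finite r)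
    have hv' : Conn ω Set.univ 0 v := hv
    exact hv'.mem_arm (thetaLimit_not_mem_ball hvb)
  · intro h hfin
    -- a bound for the absolute values of the coordinates of a finite cluster
    obtain ⟨M, hM⟩ : ∃ M : ℕ, ∀ v ∈ {v | Conn ω Set.univ 0 v}, (v.1.natAbs ≤ M ∧ v.2.natAbs ≤ M) := by
      obtain ⟨M, hM⟩ := (hfin.image (fun v : Vert => max v.1.natAbs v.2.natAbs)).bddAbove
      refine ⟨M, fun v hv => ?_⟩
      have := hM (Set.mem_image_of_mem _ hv)
      exact ⟨(le_max_left _ _).trans this, (le_max_right _ _).trans this⟩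
    obtain ⟨u, hu, hc⟩ := h (M + 1)
    have h1 := hM u (hc.mono_set (Set.subset_univ _))
    obtain ⟨_, hs⟩ := hu
    simp only [Prod.fst_zero, Prod.snd_zero] at hs
    omega

theorem tendsto_arm (p : I) : Tendsto (fun r => arm p r) atTop (𝓝 (theta p)) := by
  have h : Tendsto (fun r : ℕ => μ p (Arm 0 r)) atTop (𝓝 (μ p (⋂ r : ℕ, Arm 0 r))) :=
    tendsto_measure_iInter_atTop
      (fun r => ((localOn_arm 0 r).measurableSet).nullMeasurableSet) thetaLimit_antitone
      ⟨0, measure_ne_top _ _⟩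
  have h2 := (ENNReal.tendsto_toReal (measure_ne_top (μ p) (⋂ r : ℕ, Arm 0 r))).comp h
  rw [theta, thetaLimit_set]
  exact h2

end Pool.Agent.H89.Perc

end

section

/-!
# Finite clusters are surrounded by dual paths
-/

open MeasureTheory ProbabilityTheory unitInterval

namespace Pool.Agent.H89.Perc

/-- Last index with a property. -/
private lemma surround_last (P : ℤ → Prop) {a b : ℤ} (hab : a ≤ b) (ha : P a) (hb : ¬ P b) :
    ∃ j, a ≤ j ∧ j < b ∧ P j ∧ ¬ P (j + 1) := by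
  by_contra hno
  push Not at hno
  have key : ∀ j, a ≤ j → j ≤ b → P j := by
    intro j hj
    induction j, hj using Int.leInduction with
    | base => exact fun _ => ha
    | succ k hk ih => exact fun hkb => hno k hk (by omega) (ih (by omega))
  exact hb (key b hab le_rfl)

/-- First index with a property, going down. -/
private lemma surround_last_down (P : ℤ → Prop) {a b : ℤ} (hab : b ≤ a) (ha : P a) (hb : ¬ P b) :
    ∃ j, b < j ∧ j ≤ a ∧ P j ∧ ¬ P (j - 1) := by
  obtain ⟨j, h1, h2, h3, h4⟩ := surround_last (fun t => P (-t)) (a := -a) (b := -b) (by omega)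
    (by simpa using ha) (by simpa using hb)
  refine ⟨-j, by omega, by omega, h3, ?_⟩
  have : -(j + 1) = -j - 1 := by ring
  rw [← this]
  exact h4

private lemma surround_mono_on {ω ω' : Config} {S : Set Vert} {u v : Vert}
    (h : ∀ e, src e ∈ S → tgt e ∈ S → ω e = true → ω' e = true) (hc : Conn ω S u v) :
    Conn ω' S u v := by
  refine ⟨hc.1, Relation.ReflTransGen.mono ?_ _ _ hc.2⟩
  rintro a b ⟨ha, hb, e, he, ho⟩
  refine ⟨ha, hb, e, he, ?_⟩
  rcases he with ⟨h1, h2⟩ | ⟨h1, h2⟩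
  · exact h e (h1 ▸ ha) (h2 ▸ hb) ho
  · exact h e (h2 ▸ hb) (h1 ▸ ha) ho

private lemma surround_vert {S : Set Vert} {x y₁ y₂ : ℤ} (hy : y₁ ≤ y₂)
    (hS : ∀ y, y₁ ≤ y → y ≤ y₂ → ((x, y) : Vert) ∈ S) :
    Conn allOpen S (x, y₁) (x, y₂) := by
  induction y₂, hy using Int.leInduction with
  | base => exact Conn.refl (hS y₁ le_rfl le_rfl)
  | succ k hk ih =>
    have h1 := ih fun y hy1 hy2 => hS y hy1 (by omega)
    refine h1.tail ⟨h1.mem_right, hS _ (by omega) le_rfl, (x, k, true), ?_, rfl⟩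
    left
    simp [src, tgt]

private lemma surround_horiz {S : Set Vert} {x₁ x₂ y : ℤ} (hx : x₁ ≤ x₂)
    (hS : ∀ x, x₁ ≤ x → x ≤ x₂ → ((x, y) : Vert) ∈ S) :
    Conn allOpen S (x₁, y) (x₂, y) := by
  induction x₂, hx using Int.leInduction with
  | base => exact Conn.refl (hS x₁ le_rfl le_rfl)
  | succ k hk ih =>
    have h1 := ih fun x hx1 hx2 => hS x hx1 (by omega)
    refine h1.tail ⟨h1.mem_right, hS _ (by omega) le_rfl, (k, y, false), ?_, rfl⟩
    left
    simp [src, tgt]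

/-- The boundary of a square is connected. -/
private lemma surround_sphere {S : Set Vert} {M : ℕ}
    (hS : ∀ w ∈ sphere 0 M, w ∈ S) (w : Vert) (hw : w ∈ sphere 0 M) :
    Conn allOpen S ((M : ℤ), 0) w := by
  have hmem : ∀ x y : ℤ, -(M : ℤ) ≤ x → x ≤ M → -(M : ℤ) ≤ y → y ≤ M →
      (x = -(M : ℤ) ∨ x = M ∨ y = -(M : ℤ) ∨ y = M) → ((x, y) : Vert) ∈ S := by
    intro x y h1 h2 h3 h4 h5
    refine hS _ ⟨?_, ?_⟩
    · simp only [mem_ball, Prod.fst_zero, Prod.snd_zero]
      omega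
    · simp only [Prod.fst_zero, Prod.snd_zero]
      omega
  have hM : (0 : ℤ) ≤ M := by positivity
  -- corners
  have hru : Conn allOpen S ((M : ℤ), 0) (M, M) :=
    surround_vert hM fun y h1 h2 => hmem _ _ (by omega) (by omega) (by omega) (by omega) (by omega)
  have hrd : Conn allOpen S ((M : ℤ), 0) (M, -M) :=
    (surround_vert (by omega) fun y h1 h2 =>
      hmem _ _ (by omega) (by omega) (by omega) (by omega) (by omega)).symm
  have hlu : Conn allOpen S ((M : ℤ), 0) (-M, M) :=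
    hru.trans (surround_horiz (by omega) fun y h1 h2 =>
      hmem _ _ (by omega) (by omega) (by omega) (by omega) (by omega)).symm
  obtain ⟨x, y⟩ := w
  obtain ⟨hb, hs⟩ := hw
  simp only [mem_ball, Prod.fst_zero, Prod.snd_zero] at hb hs
  rcases hs with h | h | h | h
  · -- left side
    have hx : x = -(M : ℤ) := by omega
    subst hx
    exact hlu.trans (surround_vert (by omega) fun t h1 h2 =>
      hmem _ _ (by omega) (by omega) (by omega) (by omega) (by omega)).symm
  · have hx : x = (M : ℤ) := by omega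
    subst hx
    exact hru.trans (surround_vert (by omega) fun t h1 h2 =>
      hmem _ _ (by omega) (by omega) (by omega) (by omega) (by omega)).symm
  · have hy : y = -(M : ℤ) := by omega
    subst hy
    exact hrd.trans (surround_horiz (by omega) fun t h1 h2 =>
      hmem _ _ (by omega) (by omega) (by omega) (by omega) (by omega)).symm
  · have hy : y = (M : ℤ) := by omega
    subst hy
    exact hru.trans (surround_horiz (by omega) fun t h1 h2 =>
      hmem _ _ (by omega) (by omega) (by omega) (by omega) (by omega)).symm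

/-- A cluster which reaches distance `2 R` but not distance `M` is surrounded by a dual path. -/
theorem surround {ω : Config} {R M : ℕ} (hR : 1 ≤ R) (hM : 2 * R < M) (h1 : ω ∈ Arm 0 (2 * R))
    (h2 : ω ∉ Arm 0 M) : ∃ j : ℕ, j < M ∧ dual ω ∈ Arm ((j : ℤ), 0) (max j R) := by
  have hball : ball 0 M = rect (-(M : ℤ)) M (-(M : ℤ)) M := by
    simp [ball]
  obtain ⟨u, hu, hcu⟩ := h1
  set D : Set Vert := rect (-(M : ℤ)) M (-(M : ℤ)) M with hD
  have hub : -(2 * R : ℤ) ≤ u.1 ∧ u.1 ≤ 2 * R ∧ -(2 * R : ℤ) ≤ u.2 ∧ u.2 ≤ 2 * R := by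
    have := hu.1
    simp only [mem_ball, Prod.fst_zero, Prod.snd_zero] at this
    push_cast at this
    omega
  have hus : u.1 = -(2 * R : ℤ) ∨ u.1 = 2 * R ∨ u.2 = -(2 * R : ℤ) ∨ u.2 = 2 * R := by
    have := hu.2
    simp only [Prod.fst_zero, Prod.snd_zero] at this
    push_cast at this
    omega
  have h0D : (0 : Vert) ∈ D := by
    refine ⟨?_, ?_, ?_, ?_⟩ <;> simp
  -- the cluster
  set C : Set Vert := {w | Conn ω D 0 w} with hC
  have hCD : C ⊆ D := fun w hw => hw.mem_right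
  have h0C : (0 : Vert) ∈ C := Conn.refl h0D
  have huC : u ∈ C := by
    refine hcu.mono_set ?_
    intro w hw
    simp only [mem_ball, Prod.fst_zero, Prod.snd_zero] at hw
    push_cast at hw
    simp only [hD, rect, Set.mem_ofPred_eq]
    omega
  have hCconn : ∀ a ∈ C, ∀ b ∈ C, Conn allOpen C a b := by
    have h0 : ∀ a ∈ C, Conn allOpen C 0 a := by
      intro a ha
      refine Conn.induction_right (P := fun x => Conn allOpen C 0 x) ha (Conn.refl h0C) ?_
      intro x y hx hxy hc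
      obtain ⟨_, hy, e, he, _⟩ := id hxy
      exact hc.tail ⟨hc.mem_right, hx.tail hxy, e, he, rfl⟩
    intro a ha b hb
    exact (h0 a ha).symm.trans (h0 b hb)
  have hsC : ∀ w ∈ sphere 0 M, w ∈ D \ C := by
    intro w hw
    refine ⟨?_, fun hwC => h2 ⟨w, hw, ?_⟩⟩
    · rw [← hball]; exact hw.1
    · rw [hball]; exact hwC
  set K : Set Vert := comp D C ((M : ℤ), 0) with hK
  have hsK : ∀ w ∈ sphere 0 M, w ∈ K := fun w hw => surround_sphere hsC w hw
  have hKD : K ⊆ D := fun w hw => (Conn.mem_right hw).1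
  have hKC : ∀ w ∈ K, w ∉ C := fun w hw => (Conn.mem_right hw).2
  have hKc : ∀ a ∈ K, ∀ b ∈ K, Conn allOpen K a b := comp_connected
  have hKc' : ∀ a ∈ D \ K, ∀ b ∈ D \ K, Conn allOpen (D \ K) a b :=
    compl_comp_connected hCD h0C hCconn
  -- cut edges are closed
  have hclosed : ∀ e : Edge, src e ∈ D → tgt e ∈ D → cutConfig K e = false → ω e = false := by
    intro e hs ht hcut
    by_contra ho
    rw [Bool.not_eq_false] at ho
    rcases cut_comp ⟨hs, ht⟩ hcut with ⟨h3, h4⟩ | ⟨h3, h4⟩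
    · exact hKC _ h4 (Conn.tail h3 ⟨hs, ht, e, joins_src_tgt e, ho⟩)
    · exact hKC _ h4 (Conn.tail h3 ⟨ht, hs, e, (joins_src_tgt e).symm, ho⟩)
  have hcutiff : ∀ e : Edge, (src e ∈ K ↔ tgt e ∉ K) → cutConfig K e = false := by
    intro e he
    simp only [cutConfig, decide_eq_false_iff_not]
    tauto
  -- dual paths
  have hsep : ∀ e e' : Edge, src e ∈ D → tgt e ∈ D → src e' ∈ D → tgt e' ∈ D →
      (src e ∈ K ↔ tgt e ∉ K) → (src e' ∈ K ↔ tgt e' ∉ K) → ∀ φ φ' : Vert, IsFace φ e →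
      IsFace φ' e' → φ ∈ rect (-(M : ℤ)) (M - 1) (-(M : ℤ)) (M - 1) →
      φ' ∈ rect (-(M : ℤ)) (M - 1) (-(M : ℤ)) (M - 1) →
      Conn (dual ω) (rect (-(M : ℤ)) (M - 1) (-(M : ℤ)) (M - 1)) φ φ' := by
    intro e e' h3 h4 h5 h6 h7 h8 φ φ' h9 h10 h11 h12
    have h13 := sep (K := K) hKD hKc hKc' ⟨h3, h4⟩ ⟨h5, h6⟩ (hcutiff e h7) (hcutiff e' h8)
      h9 h10 h11 h12
    refine surround_mono_on ?_ h13
    intro f hf1 hf2 hf3
    simp only [dual, Bool.not_eq_true'] at hf3 ⊢
    obtain ⟨x, y, b⟩ := f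
    cases b
    · simp only [src, tgt, rect, Set.mem_ofPred_eq, Bool.false_eq_true, if_false] at hf1 hf2
      refine hclosed _ ?_ ?_ hf3
      · simp only [crossed, src, hD, rect, Set.mem_ofPred_eq, Bool.false_eq_true, if_false]
        omega
      · simp only [crossed, tgt, hD, rect, Set.mem_ofPred_eq, Bool.false_eq_true, if_false,
          if_true]
        omega
    · simp only [src, tgt, rect, Set.mem_ofPred_eq, if_true] at hf1 hf2
      refine hclosed _ ?_ ?_ hf3
      · simp only [crossed, src, hD, rect, Set.mem_ofPred_eq, if_true]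
        omega
      · simp only [crossed, tgt, hD, rect, Set.mem_ofPred_eq, if_true, Bool.false_eq_true,
          if_false]
        omega
  have hsph : ∀ x y : ℤ, -(M : ℤ) ≤ x → x ≤ M → -(M : ℤ) ≤ y → y ≤ M →
      (x = -(M : ℤ) ∨ x = M ∨ y = -(M : ℤ) ∨ y = M) → ((x, y) : Vert) ∈ K := by
    intro x y h3 h4 h5 h6 h7
    refine hsK _ ⟨?_, ?_⟩
    · simp only [mem_ball, Prod.fst_zero, Prod.snd_zero]
      omega
    · simp only [Prod.fst_zero, Prod.snd_zero]
      omega
  have h0K : ((0 : ℤ), (0 : ℤ)) ∉ K := fun h => hKC _ h h0C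
  have huK : (u.1, u.2) ∉ K := fun h => hKC _ h huC
  -- the cut edge on the positive axis
  obtain ⟨j, hj0, hjM, hjK, hjK'⟩ := surround_last (fun t => ((t, 0) : Vert) ∉ K)
    (a := 0) (b := M) (by omega) h0K (by
      simp only [not_not]
      exact hsph _ _ (by omega) le_rfl (by omega) (by omega) (by omega))
  simp only [not_not] at hjK'
  obtain ⟨n, rfl⟩ := Int.eq_ofNat_of_zero_le hj0
  refine ⟨n, by omega, ?_⟩
  have main : ∀ (e' : Edge) (φ' : Vert), src e' ∈ D → tgt e' ∈ D → (src e' ∈ K ↔ tgt e' ∉ K) →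
      IsFace φ' e' → φ' ∈ rect (-(M : ℤ)) (M - 1) (-(M : ℤ)) (M - 1) →
      (((max n R : ℕ) : ℤ) ≤ |φ'.1 - n| ∨ ((max n R : ℕ) : ℤ) ≤ |φ'.2 - 0|) →
      dual ω ∈ Arm ((n : ℤ), 0) (max n R) := by
    intro e' φ' h3 h4 h5 h6 h7 h8
    refine Conn.mem_arm (hsep ((n : ℤ), 0, false) e' ?_ ?_ h3 h4 ?_ h5 ((n : ℤ), 0) φ'
      (Or.inl rfl) h6 ?_ h7) h8
    · simp only [src, hD, rect, Set.mem_ofPred_eq]
      omega
    · simp only [tgt, hD, rect, Set.mem_ofPred_eq, Bool.false_eq_true, if_false]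
      omega
    · simp only [src, tgt, Bool.false_eq_true, if_false]
      exact iff_of_false hjK (not_not.mpr hjK')
    · simp only [rect, Set.mem_ofPred_eq]
      omega
  by_cases hnR : R ≤ n
  · -- use the negative axis
    obtain ⟨i, hi1, hi2, hi3, hi4⟩ := surround_last_down (fun t => ((t, 0) : Vert) ∉ K)
      (a := 0) (b := -(M : ℤ)) (by omega) h0K (by
        simp only [not_not]
        exact hsph _ _ le_rfl (by omega) (by omega) (by omega) (by omega))
    simp only [not_not] at hi4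
    refine main (i - 1, 0, false) (i - 1, 0) ?_ ?_ ?_ (Or.inl rfl) ?_ ?_
    · simp only [src, hD, rect, Set.mem_ofPred_eq]
      omega
    · simp only [tgt, hD, rect, Set.mem_ofPred_eq, Bool.false_eq_true, if_false]
      omega
    · simp only [src, tgt, Bool.false_eq_true, if_false, sub_add_cancel]
      exact iff_of_true hi4 hi3
    · simp only [rect, Set.mem_ofPred_eq]
      omega
    · left
      rw [max_eq_left hnR]
      rw [abs_of_nonpos (by simp only; omega)]
      simp only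
      omega
  · have hnR' : n < R := by omega
    rw [max_eq_right hnR'.le] at main ⊢
    rcases hus with h | h | h | h
    · -- go left
      obtain ⟨i, hi1, hi2, hi3, hi4⟩ := surround_last_down (fun t => ((t, u.2) : Vert) ∉ K)
        (a := u.1) (b := -(M : ℤ)) (by omega) huK (by
          simp only [not_not]
          exact hsph _ _ le_rfl (by omega) (by omega) (by omega) (by omega))
      simp only [not_not] at hi4
      refine main (i - 1, u.2, false) (i - 1, u.2) ?_ ?_ ?_ (Or.inl rfl) ?_ ?_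
      · simp only [src, hD, rect, Set.mem_ofPred_eq]
        omega
      · simp only [tgt, hD, rect, Set.mem_ofPred_eq, Bool.false_eq_true, if_false]
        omega
      · simp only [src, tgt, Bool.false_eq_true, if_false, sub_add_cancel]
        exact iff_of_true hi4 hi3
      · simp only [rect, Set.mem_ofPred_eq]
        omega
      · left
        rw [abs_of_nonpos (by simp only; omega)]
        simp only
        omega
    · -- go right
      obtain ⟨i, hi1, hi2, hi3, hi4⟩ := surround_last (fun t => ((t, u.2) : Vert) ∉ K)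
        (a := u.1) (b := (M : ℤ)) (by omega) huK (by
          simp only [not_not]
          exact hsph _ _ (by omega) le_rfl (by omega) (by omega) (by omega))
      simp only [not_not] at hi4
      refine main (i, u.2, false) (i, u.2) ?_ ?_ ?_ (Or.inl rfl) ?_ ?_
      · simp only [src, hD, rect, Set.mem_ofPred_eq]
        omega
      · simp only [tgt, hD, rect, Set.mem_ofPred_eq, Bool.false_eq_true, if_false]
        omega
      · simp only [src, tgt, Bool.false_eq_true, if_false]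
        exact iff_of_false hi3 (not_not.mpr hi4)
      · simp only [rect, Set.mem_ofPred_eq]
        omega
      · left
        rw [abs_of_nonneg (by simp only; omega)]
        simp only
        omega
    · -- go down
      obtain ⟨i, hi1, hi2, hi3, hi4⟩ := surround_last_down (fun t => ((u.1, t) : Vert) ∉ K)
        (a := u.2) (b := -(M : ℤ)) (by omega) huK (by
          simp only [not_not]
          exact hsph _ _ (by omega) (by omega) le_rfl (by omega) (by omega))
      simp only [not_not] at hi4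
      refine main (u.1, i - 1, true) (u.1, i - 1) ?_ ?_ ?_ (Or.inl rfl) ?_ ?_
      · simp only [src, hD, rect, Set.mem_ofPred_eq]
        omega
      · simp only [tgt, hD, rect, Set.mem_ofPred_eq, if_true]
        omega
      · simp only [src, tgt, if_true, sub_add_cancel]
        exact iff_of_true hi4 hi3
      · simp only [rect, Set.mem_ofPred_eq]
        omega
      · right
        rw [abs_of_nonpos (by simp only; omega)]
        simp only
        omega
    · -- go up
      obtain ⟨i, hi1, hi2, hi3, hi4⟩ := surround_last (fun t => ((u.1, t) : Vert) ∉ K)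
        (a := u.2) (b := (M : ℤ)) (by omega) huK (by
          simp only [not_not]
          exact hsph _ _ (by omega) (by omega) (by omega) le_rfl (by omega))
      simp only [not_not] at hi4
      refine main (u.1, i, true) (u.1, i) ?_ ?_ ?_ (Or.inl rfl) ?_ ?_
      · simp only [src, hD, rect, Set.mem_ofPred_eq]
        omega
      · simp only [tgt, hD, rect, Set.mem_ofPred_eq, if_true]
        omega
      · simp only [src, tgt, if_true]
        exact iff_of_false hi3 (not_not.mpr hi4)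
      · simp only [rect, Set.mem_ofPred_eq]
        omega
      · right
        rw [abs_of_nonneg (by simp only; omega)]
        simp only
        omega

theorem arm_sub_le {p : I} {R M : ℕ} (hR : 1 ≤ R) (hM : 2 * R < M) :
    arm p (2 * R) ≤ arm p M + ∑ j ∈ Finset.range M, arm (σ p) (max j R) := by
  have hsub : Arm 0 (2 * R) ⊆ Arm 0 M ∪
      ⋃ j ∈ Finset.range M, {ω | dual ω ∈ Arm (((j : ℕ) : ℤ), 0) (max j R)} := by
    intro ω hω
    by_cases h : ω ∈ Arm 0 M
    · exact Or.inl h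
    · right
      obtain ⟨j, hj, hj'⟩ := surround hR hM hω h
      simp only [Set.mem_iUnion]
      exact ⟨j, Finset.mem_range.2 hj, hj'⟩
  calc arm p (2 * R) ≤ _ := Pr_mono hsub
    _ ≤ _ := Pr_union_le
    _ ≤ arm p M + ∑ j ∈ Finset.range M, Pr p {ω | dual ω ∈ Arm (((j : ℕ) : ℤ), 0) (max j R)} := by
        gcongr
        · exact le_rfl
        · exact Pr_biUnion_le _ _
    _ = _ := by
        simp_rw [Pr_dual_arm]

end Pool.Agent.H89.Perc

end

section

open MeasureTheory ProbabilityTheory unitInterval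

namespace Pool.Agent.H57.LF

open Pool.Agent.H89.Perc

open Classical in
/-- The configuration with all edges inside the ball of radius `r` opened. -/
private noncomputable def fs4Open (ω : Config) (r : ℕ) : Config :=
  fun e => if src e ∈ ball 0 r ∧ tgt e ∈ ball 0 r then true else ω e

private lemma fs4Open_le (ω : Config) (r : ℕ) (e : Edge) (h : ω e = true) :
    fs4Open ω r e = true := by
  unfold fs4Open
  split_ifs
  · rfl
  · exact h

private lemma fs4_path (ω : Config) (r : ℕ) :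
    ∀ n : ℕ, n ≤ r → Conn (fs4Open ω r) (ball 0 r) 0 ((n : ℤ), 0) := by
  intro n
  induction n with
  | zero => exact fun _ => Conn.refl self_mem_ball
  | succ n ih =>
    intro h
    have h1 := ih (by omega)
    have hb : (((n : ℤ) + 1, 0) : Vert) ∈ ball 0 r := by
      simp only [mem_ball, Prod.fst_zero, Prod.snd_zero]
      omega
    have e1 : (((n + 1 : ℕ) : ℤ), (0 : ℤ)) = (((n : ℤ) + 1, 0) : Vert) := by push_cast; rfl
    rw [e1]
    refine h1.tail ⟨h1.mem_right, hb, ((n : ℤ), 0, false), Or.inl ⟨rfl, ?_⟩, ?_⟩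
    · simp [tgt]
    · unfold fs4Open
      rw [if_pos]
      refine ⟨h1.mem_right, ?_⟩
      simpa [tgt] using hb

private lemma fs4_back {ω : Config} {r M : ℕ} (hM : r < M) (h : fs4Open ω r ∈ Arm 0 M) :
    ω ∈ ArmBox 0 r M := by
  obtain ⟨u, hu, hc⟩ := h
  have hu' : u ∉ ball 0 r := by
    have h1 := hu.2
    simp only [mem_ball, Prod.fst_zero, Prod.snd_zero] at h1 ⊢
    omega
  obtain ⟨w, w', h1, h2, h3, h4⟩ := hc.exists_last (T := ball 0 r) self_mem_ball hu'
  refine ⟨w, h1, u, hu, ?_⟩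
  have hw' := h4.mem_left.2
  have h5 : Conn ω (ball 0 M \ ball 0 r) w' u := by
    refine h4.congr ?_
    intro e he _
    unfold fs4Open
    rw [if_neg]
    rintro ⟨h6, -⟩
    exact he.2 h6
  refine Conn.trans ?_ (h5.mono_set Set.sdiff_subset)
  refine Step.conn ⟨h3.1, h3.2.1, ?_⟩
  obtain ⟨-, -, e, he, ho⟩ := h3
  refine ⟨e, he, ?_⟩
  unfold fs4Open at ho
  rw [if_neg] at ho
  · exact ho
  · rintro ⟨h6, h7⟩
    rcases he with ⟨h8, h9⟩ | ⟨h8, h9⟩
    · exact hw' (h9 ▸ h7)
    · exact hw' (h9 ▸ h6)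

private lemma fs4_arm {ω : Config} {j R L : ℕ} (hL : 1 ≤ L) (hLR : L ≤ R)
    (h : ω ∈ Arm ((j : ℤ), 0) (max j R)) :
    ω ∈ ArmBox (((j / L * L : ℕ) : ℤ), 0) L (max (j / L * L) R - L) := by
  have hj1 : j / L * L ≤ j := Nat.div_mul_le_self j L
  have hj2 : j < j / L * L + L := Nat.lt_div_mul_add hL
  set k := j / L * L with hk
  set r := max k R - L with hr
  have hrL : (r : ℤ) = max (k : ℤ) R - L := by
    rw [hr]
    push_cast [Nat.cast_sub (hLR.trans (le_max_right k R))]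
    rfl
  by_cases hrl : r ≤ L
  · refine ⟨((k : ℤ) + r, 0), ?_, ((k : ℤ) + r, 0), ⟨?_, Or.inr (Or.inl rfl)⟩, Conn.refl ?_⟩
    · simp only [mem_ball]; omega
    · simp only [mem_ball]; omega
    · simp only [mem_ball]; omega
  · push Not at hrl
    obtain ⟨u, hu, hc⟩ := h
    obtain ⟨hub, hus⟩ := hu
    obtain ⟨x, hx, hcx⟩ := hc.to_sphere (v := ((k : ℤ), 0)) (r := r)
      (by simp only [mem_ball]; omega)
      (by
        by_cases hub' : u ∈ ball ((k : ℤ), 0) r
        · right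
          refine ⟨hub', ?_⟩
          simp only [mem_ball] at hub hub'
          simp only at hus ⊢
          push_cast at hub hus
          omega
        · exact Or.inl hub')
    refine ⟨((j : ℤ), 0), ?_, x, hx, hcx.mono_set Set.inter_subset_right⟩
    simp only [mem_ball]; omega

theorem armBox_ge {p : I} {R M L : ℕ} (hL : 1 ≤ L) (hLR : L ≤ R) (hM : 2 * R < M) :
    1 - Pr p (ArmBox 0 (2 * R) M) ≤
      ∑ i ∈ Finset.range M, Pr (σ p) (ArmBox 0 L (max (i * L) R - L)) := by
  have hsub : (ArmBox 0 (2 * R) M)ᶜ ⊆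
      ⋃ i ∈ Finset.range M, {ω | dual ω ∈ ArmBox (((i * L : ℕ) : ℤ), 0) L (max (i * L) R - L)} := by
    intro ω hω
    have h1 : fs4Open ω (2 * R) ∈ Arm 0 (2 * R) := by
      refine ⟨(((2 * R : ℕ) : ℤ), 0), ⟨?_, Or.inr (Or.inl (by simp))⟩, fs4_path ω (2 * R) _ le_rfl⟩
      simp only [mem_ball, Prod.fst_zero, Prod.snd_zero]
      omega
    have h2 : fs4Open ω (2 * R) ∉ Arm 0 M := fun h => hω (fs4_back hM h)
    obtain ⟨j, hj, hj'⟩ := surround (hL.trans hLR) hM h1 h2
    simp only [Set.mem_iUnion]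
    refine ⟨j / L, Finset.mem_range.2 (lt_of_le_of_lt (Nat.div_le_self j L) hj), ?_⟩
    refine fs4_arm hL hLR (incr_arm _ _ _ _ (fun e he => ?_) hj')
    simp only [dual, Bool.not_eq_true'] at he ⊢
    by_contra hc
    rw [Bool.not_eq_false] at hc
    rw [fs4Open_le ω (2 * R) _ hc] at he
    exact absurd he (by decide)
  rw [← Pr_compl (localOn_armBox 0 (2 * R) M)]
  calc Pr p (ArmBox 0 (2 * R) M)ᶜ ≤ _ := Pr_mono hsub
    _ ≤ ∑ i ∈ Finset.range M,
        Pr p {ω | dual ω ∈ ArmBox (((i * L : ℕ) : ℤ), 0) L (max (i * L) R - L)} :=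
      Pr_biUnion_le _ _
    _ = _ := by
      refine Finset.sum_congr rfl fun i _ => ?_
      rw [Pr_dual (localOn_armBox _ _ _), Pr_armBox]

end Pool.Agent.H57.LF

end

section

/-!
# The key inequality for the one-arm event
-/

open MeasureTheory ProbabilityTheory unitInterval

namespace Pool.Agent.H85.Gamma

open Pool.Agent.H89.Perc
open Pool.Agent.Perc (Ex ind ind_of ind_of_not ind_congr)

/-- The edges on which the one-arm event depends. -/
noncomputable def eB (m : ℕ) : Finset Edge := eRect (-m) m (-m) m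

theorem mem_eB {m : ℕ} {e : Edge} : e ∈ eB m ↔ src e ∈ ball 0 m := by
  unfold eB
  rw [mem_eRect]
  simp [ball]

end Pool.Agent.H85.Gamma

end

section

/-!
# Lower bound for the susceptibility by a second moment argument
-/

open MeasureTheory ProbabilityTheory unitInterval Filter Topology
open scoped ENNReal

namespace Pool.Agent.H85.Gamma

open Pool.Agent.H89.Perc
open Pool.Agent.Perc (Ex ind ind_of ind_of_not ind_congr ind_nonneg ind_le_one)

/-- `x` is joined to the boundary of the box of radius `r` inside that box. -/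
def ToSph (r : ℕ) (x : Vert) : Set Config := {ω | ∃ u ∈ sphere 0 r, Conn ω (ball 0 r) x u}

theorem localOn_ToSph (r : ℕ) (x : Vert) : LocalOn (eB r) (ToSph r x) := by
  rintro ω ω' h ⟨u, hu, hc⟩
  exact ⟨u, hu, Conn.congr (fun e he _ => h e (mem_eB.2 he)) hc⟩

theorem incr_ToSph (r : ℕ) (x : Vert) : Incr (ToSph r x) := by
  rintro ω ω' h ⟨u, hu, hc⟩
  exact ⟨u, hu, hc.mono le_rfl h⟩

theorem localOn_connB (r : ℕ) (x y : Vert) : LocalOn (eB r) {ω | Conn ω (ball 0 r) x y} := by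
  intro ω ω' h hc
  exact Conn.congr (fun e he _ => h e (mem_eB.2 he)) hc

/-- The open edges inside the cluster of `x`. -/
noncomputable def clE (r : ℕ) (S : Finset Edge) (x : Vert) : Finset Edge := by
  classical exact S.filter (fun e => Conn (ofS S) (ball 0 r) x (src e) ∧
    Conn (ofS S) (ball 0 r) x (tgt e))

theorem mem_clE {r : ℕ} {S : Finset Edge} {x : Vert} {e : Edge} :
    e ∈ clE r S x ↔ e ∈ S ∧ Conn (ofS S) (ball 0 r) x (src e) ∧
      Conn (ofS S) (ball 0 r) x (tgt e) := by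
  classical
  unfold clE
  rw [Finset.mem_filter]

theorem conn_clE {r : ℕ} {S : Finset Edge} {x u : Vert} (h : Conn (ofS S) (ball 0 r) x u) :
    Conn (ofS (clE r S x)) (ball 0 r) x u := by
  refine h.induction_right (P := fun z => Conn (ofS (clE r S x)) (ball 0 r) x z)
    (Conn.refl h.mem_left) ?_
  rintro a b hxa hab ih
  have hxb : Conn (ofS S) (ball 0 r) x b := hxa.tail hab
  obtain ⟨ha, hb, e, hJ, ho⟩ := hab
  refine ih.tail ⟨ha, hb, e, hJ, ?_⟩
  rw [ofS_eq_true] at ho ⊢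
  rw [mem_clE]
  rcases hJ with ⟨h1, h2⟩ | ⟨h1, h2⟩
  · subst h1 h2; exact ⟨ho, hxa, hxb⟩
  · subst h1 h2; exact ⟨ho, hxb, hxa⟩

/-- Two vertices joined to the boundary by different clusters: BK inequality. -/
theorem bk_pair (p : I) (r : ℕ) (x y : Vert) :
    Pr p ((ToSph r x ∩ ToSph r y) ∩ {ω | Conn ω (ball 0 r) x y}ᶜ)
      ≤ Pr p (ToSph r x) * Pr p (ToSph r y) := by
  have hup : ∀ z, Pool.Agent.Perc.UpOn (eB r) (fun S => ofS S ∈ ToSph r z) :=
    fun z S T hST _ h => incr_ToSph r z _ _ (ofS_mono hST) h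
  have key := Pool.Agent.Perc.bk (p := (p : ℝ)) (F := eB r) p.2.1 p.2.2 (hup x) (hup y)
  rw [Pr_eq_Ex (((localOn_ToSph r x).inter (localOn_ToSph r y)).inter (localOn_connB r x y).compl),
    Pr_eq_Ex (localOn_ToSph r x), Pr_eq_Ex (localOn_ToSph r y)]
  refine le_trans ?_ key
  unfold Pool.Agent.Perc.Pr
  refine Pool.Agent.Perc.Ex_mono p.2.1 p.2.2 fun S _ => Pool.Agent.Perc.ind_le_ind ?_
  rintro ⟨⟨⟨u, hu, h1⟩, ⟨v, hv, h2⟩⟩, h3⟩
  refine ⟨clE r S x, clE r S y, ?_, ?_, ?_, ⟨u, hu, conn_clE h1⟩, ⟨v, hv, conn_clE h2⟩⟩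
  · intro e he; exact (mem_clE.1 he).1
  · intro e he; exact (mem_clE.1 he).1
  · rw [Finset.disjoint_left]
    intro e he he'
    exact h3 ((mem_clE.1 he).2.1.trans (mem_clE.1 he').2.1.symm)

/-- The box of radius `n` as a finite set. -/
noncomputable def bx (n : ℕ) : Finset Vert := Finset.Icc (-(n : ℤ)) n ×ˢ Finset.Icc (-(n : ℤ)) n

theorem mem_bx {n : ℕ} {x : Vert} : x ∈ bx n ↔ x ∈ ball 0 n := by
  unfold bx
  rw [Finset.mem_product, Finset.mem_Icc, Finset.mem_Icc, mem_ball]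
  simp only [Prod.fst_zero, Prod.snd_zero]
  omega

theorem card_bx (n : ℕ) : ((bx n).card : ℝ) = (2 * n + 1) ^ 2 := by
  unfold bx
  rw [Finset.card_product, Int.card_Icc]
  have : ((n : ℤ) + 1 - -(n : ℤ)).toNat = 2 * n + 1 := by omega
  rw [this]
  push_cast
  ring

/-- Second moment lower bound for the number of connected pairs. -/
theorem pairs_lower (p : I) (n r : ℕ) :
    (1 - Pr p (ArmBox 0 n r)) * (∑ x ∈ bx n, Pr p (ToSph r x)) ^ 2
      ≤ ∑ x ∈ bx n, ∑ y ∈ bx n, Pr p {ω | Conn ω (ball 0 r) x y} := by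
  set A : Vert → Finset Edge → ℝ := fun x => ind (fun S => ofS S ∈ ToSph r x) with hA
  set M := ∑ x ∈ bx n, Pr p (ToSph r x) with hM
  set X : Finset Edge → ℝ := fun S => ∑ x ∈ bx n, A x S with hX
  have hPrA : ∀ x, Pr p (ToSph r x) = Ex (p : ℝ) (eB r) (A x) := fun x =>
    Pr_eq_Ex (localOn_ToSph r x) p
  have hEX : Ex (p : ℝ) (eB r) X = M := by
    rw [hX, Pool.Agent.Perc.Ex_sum, hM]
    exact Finset.sum_congr rfl fun x _ => (hPrA x).symm
  have hEX2 : Ex (p : ℝ) (eB r) (fun S => X S ^ 2)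
      = ∑ x ∈ bx n, ∑ y ∈ bx n, Pr p (ToSph r x ∩ ToSph r y) := by
    have : Ex (p : ℝ) (eB r) (fun S => X S ^ 2)
        = Ex (p : ℝ) (eB r) (fun S => ∑ x ∈ bx n, ∑ y ∈ bx n, A x S * A y S) := by
      refine Pool.Agent.Perc.Ex_congr fun S _ => ?_
      simp only [hX]
      rw [pow_two, Finset.sum_mul_sum]
    rw [this, Pool.Agent.Perc.Ex_sum]
    refine Finset.sum_congr rfl fun x _ => ?_
    rw [Pool.Agent.Perc.Ex_sum]
    refine Finset.sum_congr rfl fun y _ => ?_
    rw [Pr_eq_Ex ((localOn_ToSph r x).inter (localOn_ToSph r y))]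
    refine Pool.Agent.Perc.Ex_congr fun S _ => ?_
    simp only [hA]
    rw [Pool.Agent.Perc.ind_mul]
    rfl
  -- variance bound
  have hvar : (1 - Pr p (ArmBox 0 n r)) * M ^ 2 ≤ Ex (p : ℝ) (eB r) (fun S => X S ^ 2) - M ^ 2 := by
    have hl : LocalOn (eB r) (ArmBox 0 n r) := by
      have := localOn_armBox 0 n r
      simpa [eB] using this
    have h1 : Pr p (ArmBox 0 n r)ᶜ = 1 - Pr p (ArmBox 0 n r) := Pr_compl hl
    rw [← h1, Pr_eq_Ex hl.compl]
    have h2 : Ex (p : ℝ) (eB r) (fun S => (X S - M) ^ 2)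
        = Ex (p : ℝ) (eB r) (fun S => X S ^ 2) - M ^ 2 := by
      have e1 : Ex (p : ℝ) (eB r) (fun S => (X S - M) ^ 2)
          = Ex (p : ℝ) (eB r) (fun S => (X S ^ 2 - (2 * M) * X S) + M ^ 2) :=
        Pool.Agent.Perc.Ex_congr fun S _ => by ring
      rw [e1, Pool.Agent.Perc.Ex_add, Pool.Agent.Perc.Ex_sub, Pool.Agent.Perc.Ex_const_mul, hEX,
        Pool.Agent.Perc.Ex_const]
      ring
    rw [← h2, ← Pool.Agent.Perc.Ex_mul_const]
    refine Pool.Agent.Perc.Ex_mono p.2.1 p.2.2 fun S _ => ?_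
    by_cases hS : ofS S ∈ (ArmBox 0 n r)ᶜ
    · have hX0 : X S = 0 := by
        simp only [hX]
        refine Finset.sum_eq_zero fun x hx => ?_
        refine ind_of_not (A := fun S => ofS S ∈ ToSph r x) ?_
        rintro ⟨u, hu, hc⟩
        exact hS ⟨x, mem_bx.1 hx, u, hu, hc⟩
      rw [hX0, ind_of (A := fun S => ofS S ∈ (ArmBox 0 n r)ᶜ) hS]
      apply le_of_eq
      ring
    · rw [ind_of_not (A := fun S => ofS S ∈ (ArmBox 0 n r)ᶜ) hS, zero_mul]
      positivity
  refine hvar.trans ?_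
  rw [hEX2, hM, pow_two, Finset.sum_mul_sum, ← Finset.sum_sub_distrib]
  refine Finset.sum_le_sum fun x _ => ?_
  rw [← Finset.sum_sub_distrib]
  refine Finset.sum_le_sum fun y _ => ?_
  have h1 := bk_pair p r x y
  have h2 : Pr p (ToSph r x ∩ ToSph r y) ≤ Pr p {ω | Conn ω (ball 0 r) x y}
      + Pr p ((ToSph r x ∩ ToSph r y) ∩ {ω | Conn ω (ball 0 r) x y}ᶜ) := by
    refine (Pr_mono ?_).trans Pr_union_le
    intro ω hω
    by_cases h : ω ∈ {ω | Conn ω (ball 0 r) x y}
    · exact Or.inl h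
    · exact Or.inr ⟨hω, h⟩
  linarith

theorem Pr_connB_le (p : I) {n r : ℕ} {x : Vert} (hx : x ∈ ball 0 n) (y : Vert) :
    Pr p {ω | Conn ω (ball 0 r) x y}
      ≤ Pr p {ω | Conn ω (ball 0 (r + n)) 0 (y.1 - x.1, y.2 - x.2)} := by
  rw [← Pr_comp (localOn_connB (r + n) 0 (y.1 - x.1, y.2 - x.2)) (shiftE_injective x).injOn]
  refine Pr_mono ?_
  intro ω hω
  show Conn (fun e => ω (shiftE x e)) (ball 0 (r + n)) 0 (y.1 - x.1, y.2 - x.2)
  rw [conn_shift]
  have hω' : Conn ω (ball 0 r) x y := hω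
  have e1 : ((0 : Vert).1 + x.1, (0 : Vert).2 + x.2) = x := by simp
  have e2 : ((y.1 - x.1, y.2 - x.2) : Vert).1 + x.1 = y.1 := by simp
  have e3 : ((y.1 - x.1, y.2 - x.2) : Vert).2 + x.2 = y.2 := by simp
  rw [e1, e2, e3]
  refine hω'.mono_set ?_
  intro w hw
  simp only [mem_ball, Prod.fst_zero, Prod.snd_zero, Set.mem_ofPred_eq] at hw hx ⊢
  push_cast
  omega

theorem arm_le_ToSph (p : I) {n r : ℕ} {x : Vert} (hx : x ∈ ball 0 n) (hnr : n ≤ r) :
    arm p (r + n) ≤ Pr p (ToSph r x) := by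
  rw [← Pr_arm x (r + n)]
  refine Pr_mono ?_
  rintro ω ⟨u, hu, hc⟩
  have hxr : x ∈ ball 0 r := by
    simp only [mem_ball, Prod.fst_zero, Prod.snd_zero] at hx ⊢
    omega
  have hu' : u ∉ ball 0 r ∨ u ∈ sphere 0 r := by
    by_cases h : u ∈ ball 0 r
    · right
      refine ⟨h, ?_⟩
      have h2 := hu.2
      simp only [mem_ball, Prod.fst_zero, Prod.snd_zero] at hx h ⊢
      push_cast at h2
      omega
    · exact Or.inl h
  obtain ⟨v, hv, hc'⟩ := hc.to_sphere hxr hu'
  exact ⟨v, hv, hc'.mono_set Set.inter_subset_right⟩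

/-- Lower bound for a truncated susceptibility. -/
theorem trunc_lower : ∃ c : ℝ, 0 < c ∧ ∀ n : ℕ, 1 ≤ n → ∀ q : I, (q : ℝ) ≤ 1 / 2 →
    c * (n : ℝ) ^ 2 * arm q (5 * n + 4) ^ 2
      ≤ ∑ z ∈ bx (2 * n), Pr q {ω | Conn ω (ball 0 (5 * n + 4)) 0 z} := by
  obtain ⟨c, hc, hbox⟩ := armBox_le
  refine ⟨4 * c, by positivity, ?_⟩
  intro n hn q hq
  set r := 4 * (n + 1) with hr
  have hrn : r + n = 5 * n + 4 := by omega
  rw [← hrn]
  set T := ∑ z ∈ bx (2 * n), Pr q {ω | Conn ω (ball 0 (r + n)) 0 z} with hT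
  have hl : LocalOn (eRect ((0 : Vert).1 - r) ((0 : Vert).1 + r) ((0 : Vert).2 - r)
      ((0 : Vert).2 + r)) (ArmBox 0 n r) := localOn_armBox 0 n r
  have h1 : Pr q (ArmBox 0 n r) ≤ 1 - c := by
    refine (Pr_mono_param hl (incr_armBox 0 n r) ?_).trans (hbox n r hn le_rfl)
    show ((q : I) : ℝ) ≤ ((half : I) : ℝ)
    rw [half_coe]
    exact hq
  have h2 := pairs_lower q n r
  have h3 : ∑ x ∈ bx n, ∑ y ∈ bx n, Pr q {ω | Conn ω (ball 0 r) x y} ≤ (bx n).card * T := by
    rw [← nsmul_eq_mul]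
    refine Finset.sum_le_card_nsmul _ _ _ fun x hx => ?_
    have hx' := mem_bx.1 hx
    calc ∑ y ∈ bx n, Pr q {ω | Conn ω (ball 0 r) x y}
        ≤ ∑ y ∈ bx n, Pr q {ω | Conn ω (ball 0 (r + n)) 0 (y.1 - x.1, y.2 - x.2)} :=
          Finset.sum_le_sum fun y _ => Pr_connB_le q hx' y
      _ = ∑ z ∈ (bx n).image (fun y : Vert => ((y.1 - x.1, y.2 - x.2) : Vert)),
            Pr q {ω | Conn ω (ball 0 (r + n)) 0 z} := by
          rw [Finset.sum_image]
          intro a _ b _ hab
          simp only [Prod.mk.injEq, sub_left_inj] at hab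
          exact Prod.ext hab.1 hab.2
      _ ≤ T := by
          refine Finset.sum_le_sum_of_subset_of_nonneg ?_ fun _ _ _ => Pr_nonneg
          intro z hz
          obtain ⟨y, hy, rfl⟩ := Finset.mem_image.1 hz
          rw [mem_bx] at hy ⊢
          simp only [mem_ball, Prod.fst_zero, Prod.snd_zero] at hy hx' ⊢
          push_cast
          omega
  have h4 : ((bx n).card : ℝ) * arm q (r + n) ≤ ∑ x ∈ bx n, Pr q (ToSph r x) := by
    rw [← nsmul_eq_mul]
    exact Finset.card_nsmul_le_sum _ _ _ fun x hx => arm_le_ToSph q (mem_bx.1 hx) (by omega)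
  have ha := arm_nonneg (p := q) (r := r + n)
  have hcard : (4 : ℝ) * n ^ 2 ≤ (bx n).card := by
    rw [card_bx]
    have : (0 : ℝ) ≤ n := by positivity
    nlinarith
  have hcp : (0 : ℝ) < (bx n).card := by
    rw [card_bx]; positivity
  have h5 : c * (((bx n).card : ℝ) * arm q (r + n)) ^ 2 ≤ (bx n).card * T := by
    calc c * (((bx n).card : ℝ) * arm q (r + n)) ^ 2
        ≤ (1 - Pr q (ArmBox 0 n r)) * (∑ x ∈ bx n, Pr q (ToSph r x)) ^ 2 := by
          refine mul_le_mul (by linarith) (by gcongr) (by positivity) (by linarith)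
      _ ≤ _ := h2.trans h3
  have h6 : c * ((bx n).card : ℝ) * arm q (r + n) ^ 2 ≤ T := by
    have : ((bx n).card : ℝ) * (c * ((bx n).card : ℝ) * arm q (r + n) ^ 2) ≤ (bx n).card * T := by
      calc _ = c * (((bx n).card : ℝ) * arm q (r + n)) ^ 2 := by ring
        _ ≤ _ := h5
    exact le_of_mul_le_mul_left this hcp
  calc 4 * c * (n : ℝ) ^ 2 * arm q (r + n) ^ 2 = c * (4 * n ^ 2) * arm q (r + n) ^ 2 := by ring
    _ ≤ c * ((bx n).card : ℝ) * arm q (r + n) ^ 2 := by gcongr
    _ ≤ T := h6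

end Pool.Agent.H85.Gamma

end

section

/-!
# The mean cluster size of bond percolation on the square lattice is at least `c (1/2 - p)^{-2}`
-/

open MeasureTheory ProbabilityTheory unitInterval Filter Topology
open scoped ENNReal

namespace Pool.Agent.H85.Gamma

open Pool.Agent.H89.Perc

/-- The mean cluster size: the expected number of vertices in the open cluster of the origin. -/
noncomputable def sigma (p : I) : ℝ≥0∞ :=
  ∫⁻ ω, (({v : Vert | Conn ω Set.univ 0 v}.encard : ℕ∞) : ℝ≥0∞) ∂(μ p)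

theorem trunc_le_sigma (p : I) (F : Finset Vert) (r : ℕ) :
    ENNReal.ofReal (∑ z ∈ F, Pr p {ω | Conn ω (ball 0 r) 0 z}) ≤ sigma p := by
  classical
  have hmeas : ∀ z : Vert, MeasurableSet {ω : Config | Conn ω (ball 0 r) 0 z} := fun z =>
    (localOn_connB r 0 z).measurableSet
  rw [ENNReal.ofReal_sum_of_nonneg fun z _ => Pr_nonneg]
  have h1 : ∀ z ∈ F, ENNReal.ofReal (Pr p {ω | Conn ω (ball 0 r) 0 z})
      = ∫⁻ ω, Set.indicator {ω : Config | Conn ω (ball 0 r) 0 z} (fun _ => (1 : ℝ≥0∞)) ω ∂(μ p) := by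
    intro z _
    rw [lintegral_indicator (hmeas z), lintegral_const, Measure.restrict_apply_univ, one_mul]
    unfold Pr
    rw [ofReal_measureReal]
  rw [Finset.sum_congr rfl h1, ← lintegral_finsetSum F fun z _ =>
    (measurable_const.indicator (hmeas z))]
  unfold sigma
  refine lintegral_mono fun ω => ?_
  have h2 : ∑ z ∈ F, Set.indicator {ω : Config | Conn ω (ball 0 r) 0 z} (fun _ => (1 : ℝ≥0∞)) ω
      = ((F.filter (fun z => Conn ω (ball 0 r) 0 z)).card : ℝ≥0∞) := by
    rw [Finset.card_filter]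
    push_cast
    refine Finset.sum_congr rfl fun z _ => ?_
    by_cases h : Conn ω (ball 0 r) 0 z
    · rw [Set.indicator_of_mem (show ω ∈ {ω : Config | Conn ω (ball 0 r) 0 z} from h), if_pos h]
    · rw [Set.indicator_of_notMem (show ω ∉ {ω : Config | Conn ω (ball 0 r) 0 z} from h), if_neg h]
  rw [h2]
  have h3 : ((F.filter (fun z => Conn ω (ball 0 r) 0 z)).card : ℕ∞)
      ≤ {v : Vert | Conn ω Set.univ 0 v}.encard := by
    rw [← Set.encard_coe_eq_coe_finsetCard]
    refine Set.encard_le_encard ?_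
    intro z hz
    rw [Finset.mem_coe, Finset.mem_filter] at hz
    exact hz.2.mono_set (Set.subset_univ _)
  rw [← ENat.toENNReal_coe]
  exact ENat.toENNReal_le.2 h3

end Pool.Agent.H85.Gamma

end

section

/-! # A winding path from crossings of rectangles -/

open MeasureTheory ProbabilityTheory unitInterval

namespace Pool.Agent.H83.EX

open Pool.Agent.H89.Perc

/-- A path across a vertical strip meets every vertical crossing of the strip. -/
private lemma windDet_meet {η : Config} {A B a b c d : ℤ} {u v u' v' : Vert}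
    (h : Conn η (rect A B c d) u v) (hu : u.1 ≤ a) (hv : b ≤ v.1) (hab : a ≤ b)
    (h' : Conn η (rect a b c d) u' v') (hu' : u'.2 = c) (hv' : v'.2 = d) :
    Conn η Set.univ u u' := by
  obtain ⟨p, q, hp, hq, h1, h2, -⟩ := h.cross_x hu hv hab
  have h3 : Conn η (rect a b c d) p q := by
    refine h1.mono_set ?_
    intro w hw
    simp only [rect, Set.mem_inter_iff, Set.mem_ofPred_eq] at hw ⊢
    omega
  obtain ⟨w, h4, h5⟩ := cross h3 hp hq h' hu' hv'
  exact ((h2.mono_set (Set.subset_univ _)).trans (h4.mono_set (Set.subset_univ _))).trans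
    (h5.mono_set (Set.subset_univ _)).symm

theorem wind_det {m : ℕ} (hm : 1 ≤ m) {η : Config} (hη : ∀ e, η (shiftE (14 * m, 0) e) = η e)
    (h1 : HCross η 0 (12 * m) 0 (5 * m)) (h2 : HCross η (7 * m) (19 * m) 0 (5 * m))
    (v1 : VCross η (7 * m) (12 * m) 0 (5 * m)) (v2 : VCross η (14 * m) (19 * m) 0 (5 * m)) :
    ∃ u : Vert, Conn η Set.univ u (u.1 + 14 * m, u.2) := by
  obtain ⟨u, v, hu, hv, h⟩ := h1
  obtain ⟨u2, v2', hu2, hv2, h2⟩ := h2
  obtain ⟨a1, b1, ha1, hb1, k1⟩ := v1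
  obtain ⟨a2, b2, ha2, hb2, k2⟩ := v2
  have hm' : (1 : ℤ) ≤ m := by exact_mod_cast hm
  -- `u ~ a1`
  have e1 : Conn η Set.univ u a1 :=
    windDet_meet h (by omega) (by omega) (by omega) k1 ha1 hb1
  -- `u2 ~ a1`, `u2 ~ a2`
  have e2 : Conn η Set.univ u2 a1 :=
    windDet_meet h2 (by omega) (by omega) (by omega) k1 ha1 hb1
  have e3 : Conn η Set.univ u2 a2 :=
    windDet_meet h2 (by omega) (by omega) (by omega) k2 ha2 hb2
  -- the translate of the first crossing
  have e4 : Conn η (rect (14 * m) (26 * m) 0 (5 * m)) (u.1 + 14 * m, u.2) (v.1 + 14 * m, v.2) := by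
    have h3 : Conn (fun e => η (shiftE (14 * m, 0) e)) (rect 0 (12 * m) 0 (5 * m)) u v := by
      have : (fun e => η (shiftE (14 * m, 0) e)) = η := funext hη
      rw [this]
      exact h
    rw [conn_shift] at h3
    have h4 : (u.1 + ((14 * m, 0) : Vert).1, u.2 + ((14 * m, 0) : Vert).2) =
        (u.1 + 14 * m, u.2) := by simp
    have h5 : (v.1 + ((14 * m, 0) : Vert).1, v.2 + ((14 * m, 0) : Vert).2) =
        (v.1 + 14 * m, v.2) := by simp
    rw [h4, h5] at h3
    refine h3.mono_set ?_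
    intro w hw
    simp only [rect, Set.mem_ofPred_eq] at hw ⊢
    omega
  have e5 : Conn η Set.univ (u.1 + 14 * m, u.2) a2 :=
    windDet_meet e4 (by simp only; omega) (by simp only; omega) (by omega) k2 ha2 hb2
  exact ⟨u, ((e1.trans e2.symm).trans e3).trans e5.symm⟩

/-- Reduction modulo `N`. -/
private def windDet_red (N : ℕ) (e : Edge) : Edge := (e.1 % N, e.2.1 % N, e.2.2)

private lemma windDet_mod {N : ℕ} {x y a b : ℤ} (hab : b - a < N) (hx : a ≤ x ∧ x ≤ b)
    (hy : a ≤ y ∧ y ≤ b) (h : x % N = y % N) : x = y := by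
  have hd : (N : ℤ) ∣ x - y := Int.ModEq.dvd (Int.ModEq.symm h)
  have : x - y = 0 := by
    apply Int.eq_zero_of_abs_lt_dvd hd
    rw [abs_lt]
    omega
  omega

private lemma windDet_injOn {N : ℕ} {a b c d : ℤ} (hab : b - a < N) (hcd : d - c < N) :
    Set.InjOn (windDet_red N) (eRect a b c d : Set Edge) := by
  rintro ⟨x, y, t⟩ h1 ⟨x', y', t'⟩ h2 h
  rw [Finset.mem_coe, mem_eRect] at h1 h2
  simp only [src, rect, Set.mem_ofPred_eq] at h1 h2
  simp only [windDet_red, Prod.mk.injEq] at h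
  obtain ⟨h3, h4, h5⟩ := h
  rw [windDet_mod hab ⟨h1.1, h1.2.1⟩ ⟨h2.1, h2.2.1⟩ h3,
    windDet_mod hcd ⟨h1.2.2.1, h1.2.2.2⟩ ⟨h2.2.2.1, h2.2.2.2⟩ h4, h5]

private lemma windDetc_injOn {N : ℕ} {a b c d : ℤ} (hab : b - a < N) (hcd : d - c < N) :
    Set.InjOn (fun e => windDet_red N (crossed e)) (eRect a b c d : Set Edge) := by
  rintro ⟨x, y, t⟩ h1 ⟨x', y', t'⟩ h2 h
  rw [Finset.mem_coe, mem_eRect] at h1 h2
  simp only [src, rect, Set.mem_ofPred_eq] at h1 h2
  cases t <;> cases t'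
  · simp only [windDet_red, crossed, Prod.mk.injEq, Bool.false_eq_true, if_false] at h
    have e1 := windDet_mod (a := a + 1) (b := b + 1) (by omega) (by omega) (by omega) h.1
    have e2 := windDet_mod hcd ⟨h1.2.2.1, h1.2.2.2⟩ ⟨h2.2.2.1, h2.2.2.2⟩ h.2.1
    simp only [Prod.mk.injEq, and_true]
    omega
  · simp [windDet_red, crossed] at h
  · simp [windDet_red, crossed] at h
  · simp only [windDet_red, crossed, Prod.mk.injEq, if_true] at h
    have e1 := windDet_mod hab ⟨h1.1, h1.2.1⟩ ⟨h2.1, h2.2.1⟩ h.1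
    have e2 := windDet_mod (a := c + 1) (b := d + 1) (by omega) (by omega) (by omega) h.2.1
    simp only [Prod.mk.injEq, and_true]
    omega

/-- Periodic configurations and rectangles which fit into the torus. -/
theorem Pr_per_hcross (q : I) {N : ℕ} {a b c d : ℤ} (hab : b - a < N) (hcd : d - c < N) :
    Pr q {ω | HCross (per N ω) a b c d} = Pr q {ω | HCross ω a b c d} :=
  Pr_comp (localOn_hcross a b c d) (windDet_injOn hab hcd)

theorem Pr_per_vcross (q : I) {N : ℕ} {a b c d : ℤ} (hab : b - a < N) (hcd : d - c < N) :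
    Pr q {ω | VCross (per N ω) a b c d} = Pr q {ω | VCross ω a b c d} :=
  Pr_comp (localOn_vcross a b c d) (windDet_injOn hab hcd)

theorem Pr_per_dual_hcross (q : I) {N : ℕ} {a b c d : ℤ} (hab : b - a < N) (hcd : d - c < N) :
    Pr q {ω | HCross (dual (per N ω)) a b c d} = Pr (σ q) {ω | HCross ω a b c d} :=
  Pr_comp_not (localOn_hcross a b c d) (windDetc_injOn hab hcd)

theorem Pr_per_dual_vcross (q : I) {N : ℕ} {a b c d : ℤ} (hab : b - a < N) (hcd : d - c < N) :
    Pr q {ω | VCross (dual (per N ω)) a b c d} = Pr (σ q) {ω | VCross ω a b c d} :=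
  Pr_comp_not (localOn_vcross a b c d) (windDetc_injOn hab hcd)

end Pool.Agent.H83.EX

end

section

/-!
# LINK module `PerProb`: local events have the same probability in the plane and on the cylinder

`per n ω e = ω (base n e)` with `base n e = (e.1 % n, e.2.1 + (e.1 - e.1 % n), e.2.2)`.  If `base n` is injective on
the finite set `S` and `A` depends only on `S`, then `{ω | per n ω ∈ A}` is the image of `A` under the
relabelling, and has the same probability (the law of `(ω (base n e))_{e ∈ S}` is the product law).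
`base n` is injective on the edges with `|e.1| ≤ k` if `2 k < n`.
-/

set_option autoImplicit false

open MeasureTheory ProbabilityTheory unitInterval

namespace Pool.Agent.H89.Link

open Pool.Agent.H89.Perc (Vert Edge Config Pr half)

/-- The representative of the edge `e` in the strip `0 ≤ x < n`. -/
def base (n : ℕ) (e : Edge) : Edge := (e.1 % n, e.2.1 + (e.1 - e.1 % n), e.2.2)

theorem per_eq (n : ℕ) (ω : Config) (e : Edge) : per n ω e = ω (base n e) := rfl

theorem base_injOn {n k : ℕ} (hk : 2 * k < n) :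
    Set.InjOn (base n) {e : Edge | -(k : ℤ) ≤ e.1 ∧ e.1 ≤ k} := by
  rintro ⟨x, y, b⟩ ⟨h1, h2⟩ ⟨x', y', b'⟩ ⟨h1', h2'⟩ h
  simp only [base, Prod.mk.injEq] at h
  simp only at h1 h2 h1' h2'
  obtain ⟨e1, e2, e3⟩ := h
  have hd : (n : ℤ) ∣ x - x' := Int.ModEq.dvd (Eq.symm e1)
  have hlt : |x - x'| < (n : ℤ) := by
    rw [abs_lt]
    constructor <;> omega
  have h0 : x - x' = 0 := Int.eq_zero_of_abs_lt_dvd hd hlt
  have hx : x = x' := by omega
  subst hx
  have hy : y = y' := by omega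
  subst hy
  subst e3
  rfl

theorem pr_per (p : I) {n : ℕ} {S : Finset Edge} (hS : Set.InjOn (base n) S) {A : Set Config}
    (hA : Perc.LocalOn S A) : Pr p {ω | per n ω ∈ A} = Pr p A :=
  Perc.Pr_comp hA hS

/-- `base n` is injective on the edges of a box. -/
theorem perProb_injOn {n k : ℕ} (hk : 2 * k < n) :
    Set.InjOn (base n) (Perc.eRect (-(k : ℤ)) k (-(k : ℤ)) k : Finset Edge) := by
  refine (base_injOn hk).mono ?_
  intro e he
  have he' := Perc.mem_eRect.1 (Finset.mem_coe.1 he)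
  exact ⟨he'.1, he'.2.1⟩

theorem perProb_ball (k : ℕ) : Perc.ball 0 k = Perc.rect (-(k : ℤ)) k (-(k : ℤ)) k := by
  simp [Perc.ball]

theorem pr_per_arm (p : I) {n k : ℕ} (hk : 2 * k < n) :
    Pr p {ω | per n ω ∈ Perc.Arm 0 k} = Perc.arm p k := by
  have h := Perc.localOn_arm 0 k
  simp only [Prod.fst_zero, Prod.snd_zero, zero_sub, zero_add] at h
  exact pr_per p (perProb_injOn hk) h

theorem perProb_localOn (k : ℕ) :
    Perc.LocalOn (Perc.eRect (-(k : ℤ)) k (-(k : ℤ)) k) (FourD k) := by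
  intro ω ω' h hA
  have hc : ∀ (u v : Vert), Perc.Conn ω (Perc.ball 0 k) u v → Perc.Conn ω' (Perc.ball 0 k) u v := by
    intro u v huv
    rw [perProb_ball] at huv ⊢
    exact Perc.localOn_conn u v ω ω' h huv
  have hc' : ∀ (u v : Vert), Perc.Conn ω' (Perc.ball 0 k) u v → Perc.Conn ω (Perc.ball 0 k) u v := by
    intro u v huv
    rw [perProb_ball] at huv ⊢
    exact Perc.localOn_conn u v ω' ω (fun e he => (h e he).symm) huv
  obtain ⟨⟨u, hu, h1⟩, ⟨v, hv, h2⟩, h3⟩ := hA
  exact ⟨⟨u, hu, hc _ _ h1⟩, ⟨v, hv, hc _ _ h2⟩, fun h4 => h3 (hc' _ _ h4)⟩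

theorem pr_per_fourD (p : I) {n k : ℕ} (hk : 2 * k < n) :
    Pr p {ω | per n ω ∈ FourD k} = Pr p (FourD k) :=
  pr_per p (perProb_injOn hk) (perProb_localOn k)

end Pool.Agent.H89.Link

end

section

/-!
# LINK module `Half`: colours are transported through a half cylinder

`halfP_inv`: induction on `h` with `row_inv` (the upper part has rows `r + 1, …, r + h`).
`halfP_congr`: induction on `h`; `row t P` only uses `t 0, …, t (L - 1)` (`wires_congr`).
-/

set_option autoImplicit false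

namespace Pool.Agent.H89.Link

open H56.EX

variable {L : ℕ} {T : Type*}

theorem wires_congr {t t' : ℤ → Bool} {k : ℕ} (h : ∀ c : ℤ, 0 ≤ c → c < k → t c = t' c)
    (P : Pat (L + 2)) : wires t k P = wires t' k P := by
  induction k with
  | zero => rfl
  | succ k ih =>
    have ih' := ih (fun c h1 h2 => h c h1 (by push_cast; omega))
    have hk := h k (by positivity) (by push_cast; omega)
    simp only [wires]
    rw [ih', hk]

theorem row_congr {t t' : ℤ → Bool} (h : ∀ c : ℤ, 0 ≤ c → c < L → t c = t' c) (P : Pat L) :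
    row t P = row t' P := by
  unfold row
  rw [wires_congr h]

/-- **Colours are transported through a half cylinder.** -/
theorem halfP_inv {s : Pat L} {t : ℤ → ℤ → Bool} (ht : ∀ c r, t (c + L) r = t c r)
    {V H : ℤ → ℤ → T} (h : ℕ) (r : ℤ)
    (hV : ∀ r', r ≤ r' → r' < r + h →
      RowCol (fun c => t c r') (fun c => V c (r' + 1)) (fun c => H c r') (fun c => V c r'))
    (hs : ∀ x, V (s.m x) (r + h) = V x (r + h)) (x : ℤ) :
    V ((halfP s t h r).m x) r = V x r := by
  induction h generalizing r x with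
  | zero => simpa [halfP] using hs x
  | succ h ih =>
    simp only [halfP]
    have ih' := ih (r + 1) (fun r' h1 h2 => hV r' (by omega) (by push_cast; omega))
      (fun y => by
        have e : r + 1 + (h : ℤ) = r + ((h + 1 : ℕ) : ℤ) := by push_cast; ring
        rw [e]; exact hs y)
    exact row_inv (fun c => ht c r) _ (hV r le_rfl (by push_cast; omega)) ih' x

end Pool.Agent.H89.Link

end

section

/-!
# LINK module `Face`: colourings of primal or dual vertices give invariants of the patterns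

`F : Vert → T` constant along the open edges of the rows `0, …, h - 1` (of `per n ω`) gives a colour of
the medial edges: the colour of the adjacent primal vertex.  In medial coordinates the face `(c, r)`
(between the columns `c, c + 1`, at level `r`) is primal iff `c + r` is odd and is then the vertex
`((c + r + 1) / 2, (r - c - 1) / 2)`.  Put (primal colouring)
  `K c r = F ((c + r + 1) / 2, (r - c - 1) / 2)`,
  `V c r = if (c + r) % 2 = 1 then K c r else K (c - 1) r`   (vertical edge in column `c` at level `r`),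
  `H c r = if (c + r) % 2 = 1 then K c r else K c (r + 1)`   (horizontal edge from `(c, r)` to `(c + 1, r)`).
Then `RowCol (tB (per n ω) · r) (V · (r + 1)) (H · r) (V · r)`:
* `c + r` even: `medge c r = (a, b, false)`, `a = (c + r) / 2`, `b = (r - c) / 2`; South-West face
  `(c - 1, r)` = `src`, North-East face `(c, r + 1)` = `tgt`; `V c r = K (c-1) r`, `V c (r+1) = K c (r+1)`,
  `H c r = K c (r+1)`, `H (c-1) r = K (c-1) r`; `tB = true` iff the edge is open.
* `c + r` odd: `medge c r = (a, b, true)`, `a = (c + r + 1) / 2`, `b = (r - c - 1) / 2`; South-East face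
  `(c, r)` = `src`, North-West face `(c - 1, r + 1)` = `tgt`; `V c r = K c r = H c r`,
  `V c (r+1) = K (c-1) (r+1) = H (c-1) r`; `tB = false` iff the edge is open.
At the top level `h` (even) the star joins `c` odd with `c + 1`, both are next to the primal face `(c, h)`.
The dual colouring is the same with parities exchanged: `K c r = G ((c + r) / 2, (r - c - 2) / 2)` for
`c + r` even, `V c r = if (c + r) % 2 = 0 then K c r else K (c - 1) r`, `H c r = if (c + r) % 2 = 0 then K c r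
else K c (r + 1)`; at the top all dual faces have the same colour `a`.
`V c 0` is `F (pv c)` resp. `G (dv c)`.
`tB (per n ω) (c + 2 n) r = tB (per n ω) c r` (`tB_per`).
For `dn` use the reflected colouring `V' c r = V c (-r)`, `H' c r = H c (-1 - r)`; the types are flipped:
at the vertex `(c, -1 - r)`, top and bottom are exchanged (`top' = V c (-r-1)` is the edge below it).
-/

set_option autoImplicit false

namespace Pool.Agent.H89.Link

open H56.EX
open Pool.Agent.H89.Perc (Vert Edge Config src tgt lowFace)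

variable {L n : ℕ} {T : Type*}

theorem per_shift (n : ℕ) (ω : Config) (e : Edge) (k : ℤ) :
    per n ω (e.1 + n * k, e.2.1 - n * k, e.2.2) = per n ω e := by
  unfold per
  simp only [Int.add_mul_emod_self_left]
  congr 2
  congr 1
  ring

theorem tB_per (hL : L = 2 * n) (ω : Config) (c r : ℤ) :
    tB (per n ω) (c + L) r = tB (per n ω) c r := by
  have hL' : (L : ℤ) = 2 * n := by rw [hL]; push_cast; ring
  have h1 : (c + L + r) % 2 = (c + r) % 2 := by rw [hL']; omega
  have h2 : per n ω (medge (c + L) r) = per n ω (medge c r) := by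
    rw [← per_shift n ω (medge c r) 1]
    congr 1
    unfold medge
    rw [h1]
    split_ifs with h
    · refine Prod.ext ?_ (Prod.ext ?_ rfl)
      · simp only; rw [hL']; omega
      · simp only; rw [hL']; omega
    · refine Prod.ext ?_ (Prod.ext ?_ rfl)
      · simp only; rw [hL']; omega
      · simp only; rw [hL']; omega
  unfold tB
  rw [h1, h2]

/-- Colour of the vertical medial edge, from a colouring of primal vertices. -/
private def faceV (F : Vert → T) (c r : ℤ) : T := F ((c + r + 1) / 2, (r - c) / 2)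

/-- Colour of the horizontal medial edge, from a colouring of primal vertices. -/
private def faceH (F : Vert → T) (c r : ℤ) : T := F ((c + r + 2) / 2, (r - c) / 2)

/-- Colour of the vertical medial edge, from a colouring of dual vertices. -/
private def faceV' (G : Vert → T) (c r : ℤ) : T := G ((c + r) / 2, (r - c - 1) / 2)

/-- Colour of the horizontal medial edge, from a colouring of dual vertices. -/
private def faceH' (G : Vert → T) (c r : ℤ) : T := G ((c + r + 1) / 2, (r - c - 1) / 2)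

private theorem face_congr (F : Vert → T) {a b a' b' : ℤ} (h1 : a = a') (h2 : b = b') :
    F (a, b) = F (a', b') := by rw [h1, h2]

private theorem medge_sum (c r : ℤ) : (medge c r).1 + (medge c r).2.1 = r := by
  unfold medge
  split_ifs with h
  · simp only; omega
  · simp only; omega

private theorem face_primal (η : Config) (F : Vert → T) (c r : ℤ)
    (hF : η (medge c r) = true → F (src (medge c r)) = F (tgt (medge c r))) :
    (tB η c r = true → faceV F c r = faceH F c r ∧ faceV F c (r + 1) = faceH F (c - 1) r) ∧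
      (tB η c r = false → faceV F c r = faceH F (c - 1) r ∧ faceV F c (r + 1) = faceH F c r) := by
  by_cases h : (c + r) % 2 = 0
  · have hm : medge c r = ((c + r) / 2, (r - c) / 2, false) := by
      unfold medge; rw [if_pos h]
    have ht : tB η c r = η (medge c r) := by unfold tB; rw [if_pos h]
    have hs : F (src (medge c r)) = F ((c + r) / 2, (r - c) / 2) := by rw [hm]; rfl
    have hg : F (tgt (medge c r)) = F ((c + r) / 2 + 1, (r - c) / 2) := by rw [hm]; rfl
    have v1 : faceV F c r = F ((c + r) / 2, (r - c) / 2) := face_congr F (by omega) (by omega)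
    have v2 : faceV F c (r + 1) = F ((c + r) / 2 + 1, (r - c) / 2) :=
      face_congr F (by omega) (by omega)
    have v3 : faceH F c r = F ((c + r) / 2 + 1, (r - c) / 2) := face_congr F (by omega) (by omega)
    have v4 : faceH F (c - 1) r = F ((c + r) / 2, (r - c) / 2) := face_congr F (by omega) (by omega)
    rw [ht, v1, v2, v3, v4, ← hs, ← hg]
    exact ⟨fun ho => ⟨hF ho, (hF ho).symm⟩, fun _ => ⟨rfl, rfl⟩⟩
  · have hm : medge c r = ((c + r + 1) / 2, (r - c - 1) / 2, true) := by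
      unfold medge; rw [if_neg h]
    have ht : tB η c r = !η (medge c r) := by unfold tB; rw [if_neg h]
    have hs : F (src (medge c r)) = F ((c + r + 1) / 2, (r - c - 1) / 2) := by rw [hm]; rfl
    have hg : F (tgt (medge c r)) = F ((c + r + 1) / 2, (r - c - 1) / 2 + 1) := by rw [hm]; rfl
    have v1 : faceV F c r = F ((c + r + 1) / 2, (r - c - 1) / 2) :=
      face_congr F (by omega) (by omega)
    have v2 : faceV F c (r + 1) = F ((c + r + 1) / 2, (r - c - 1) / 2 + 1) :=
      face_congr F (by omega) (by omega)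
    have v3 : faceH F c r = F ((c + r + 1) / 2, (r - c - 1) / 2) :=
      face_congr F (by omega) (by omega)
    have v4 : faceH F (c - 1) r = F ((c + r + 1) / 2, (r - c - 1) / 2 + 1) :=
      face_congr F (by omega) (by omega)
    rw [ht, v1, v2, v3, v4, ← hs, ← hg]
    refine ⟨fun _ => ⟨rfl, rfl⟩, fun ho => ?_⟩
    have ho' : η (medge c r) = true := by
      cases hη : η (medge c r)
      · rw [hη] at ho; exact absurd ho (by decide)
      · rfl
    exact ⟨hF ho', (hF ho').symm⟩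

private theorem face_dual (η : Config) (G : Vert → T) (c r : ℤ)
    (hG : η (medge c r) = false → G (lowFace (medge c r)) = G (src (medge c r))) :
    (tB η c r = true → faceV' G c r = faceH' G c r ∧ faceV' G c (r + 1) = faceH' G (c - 1) r) ∧
      (tB η c r = false → faceV' G c r = faceH' G (c - 1) r ∧
        faceV' G c (r + 1) = faceH' G c r) := by
  by_cases h : (c + r) % 2 = 0
  · have hm : medge c r = ((c + r) / 2, (r - c) / 2, false) := by
      unfold medge; rw [if_pos h]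
    have ht : tB η c r = η (medge c r) := by unfold tB; rw [if_pos h]
    have hs : G (src (medge c r)) = G ((c + r) / 2, (r - c) / 2) := by rw [hm]; rfl
    have hg : G (lowFace (medge c r)) = G ((c + r) / 2, (r - c) / 2 - 1) := by rw [hm]; rfl
    have v1 : faceV' G c r = G ((c + r) / 2, (r - c) / 2 - 1) :=
      face_congr G (by omega) (by omega)
    have v2 : faceV' G c (r + 1) = G ((c + r) / 2, (r - c) / 2) :=
      face_congr G (by omega) (by omega)
    have v3 : faceH' G c r = G ((c + r) / 2, (r - c) / 2 - 1) :=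
      face_congr G (by omega) (by omega)
    have v4 : faceH' G (c - 1) r = G ((c + r) / 2, (r - c) / 2) :=
      face_congr G (by omega) (by omega)
    rw [ht, v1, v2, v3, v4, ← hs, ← hg]
    exact ⟨fun _ => ⟨rfl, rfl⟩, fun ho => ⟨hG ho, (hG ho).symm⟩⟩
  · have hm : medge c r = ((c + r + 1) / 2, (r - c - 1) / 2, true) := by
      unfold medge; rw [if_neg h]
    have ht : tB η c r = !η (medge c r) := by unfold tB; rw [if_neg h]
    have hs : G (src (medge c r)) = G ((c + r + 1) / 2, (r - c - 1) / 2) := by rw [hm]; rfl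
    have hg : G (lowFace (medge c r)) = G ((c + r + 1) / 2 - 1, (r - c - 1) / 2) := by
      rw [hm]; rfl
    have v1 : faceV' G c r = G ((c + r + 1) / 2 - 1, (r - c - 1) / 2) :=
      face_congr G (by omega) (by omega)
    have v2 : faceV' G c (r + 1) = G ((c + r + 1) / 2, (r - c - 1) / 2) :=
      face_congr G (by omega) (by omega)
    have v3 : faceH' G c r = G ((c + r + 1) / 2, (r - c - 1) / 2) :=
      face_congr G (by omega) (by omega)
    have v4 : faceH' G (c - 1) r = G ((c + r + 1) / 2 - 1, (r - c - 1) / 2) :=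
      face_congr G (by omega) (by omega)
    rw [ht, v1, v2, v3, v4, ← hs, ← hg]
    refine ⟨fun ho => ?_, fun _ => ⟨rfl, rfl⟩⟩
    have ho' : η (medge c r) = false := by
      cases hη : η (medge c r)
      · rfl
      · rw [hη] at ho; exact absurd ho (by decide)
    exact ⟨hG ho', (hG ho').symm⟩

private theorem face_star {s : Pat L} (hs : IsStar s) (F : Vert → T) {k : ℤ} (hk : k % 2 = 0)
    (x : ℤ) : faceV F (s.m x) k = faceV F x k := by
  rw [hs x]
  split_ifs with h
  · exact face_congr F (by omega) (by omega)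
  · exact face_congr F (by omega) (by omega)

private theorem faceV_zero (F : Vert → T) (c : ℤ) : faceV F c 0 = F (pv c) :=
  face_congr F (by omega) (by omega)

private theorem faceV'_zero (G : Vert → T) (c : ℤ) : faceV' G c 0 = G (dv c) :=
  face_congr G (by omega) (by omega)

theorem up_primal (hL : L = 2 * n) {s : Pat L} (hs : IsStar s) {h : ℕ} (he : Even h) (ω : Config)
    {F : Vert → T} (hF : ∀ e : Edge, 0 ≤ e.1 + e.2.1 → e.1 + e.2.1 < h → per n ω e = true →
      F (src e) = F (tgt e)) (x : ℤ) : F (pv ((up s n h ω).m x)) = F (pv x) := by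
  have hk : (0 + (h : ℤ)) % 2 = 0 := by
    obtain ⟨m, hm⟩ := he
    rw [hm]; push_cast; omega
  have key := halfP_inv (s := s) (t := fun c r => tB (per n ω) c r) (tB_per hL ω)
    (V := faceV F) (H := faceH F) h 0 ?_ (fun y => face_star hs F hk y) x
  · rw [faceV_zero, faceV_zero] at key
    exact key
  · intro r' h0 h1 c
    exact face_primal (per n ω) F c r' (hF _ (by rw [medge_sum]; exact h0)
      (by rw [medge_sum]; linarith))

theorem dn_primal (hL : L = 2 * n) {s : Pat L} (hs : IsStar s) {h : ℕ} (he : Even h) (ω : Config)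
    {F : Vert → T} (hF : ∀ e : Edge, -(h : ℤ) ≤ e.1 + e.2.1 → e.1 + e.2.1 < 0 → per n ω e = true →
      F (src e) = F (tgt e)) (x : ℤ) : F (pv ((dn s n h ω).m x)) = F (pv x) := by
  have hk : (-(0 + (h : ℤ))) % 2 = 0 := by
    obtain ⟨m, hm⟩ := he
    rw [hm]; push_cast; omega
  have key := halfP_inv (s := s) (t := fun c r => !tB (per n ω) c (-1 - r))
    (fun c r => by simp only [tB_per hL ω])
    (V := fun c r => faceV F c (-r)) (H := fun c r => faceH F c (-1 - r)) h 0 ?_
    (fun y => face_star hs F hk y) x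
  · simp only [neg_zero] at key
    rw [faceV_zero, faceV_zero] at key
    exact key
  · intro r' h0 h1 c
    have hp := face_primal (per n ω) F c (-1 - r') (hF _ (by rw [medge_sum]; linarith)
      (by rw [medge_sum]; linarith))
    have e1 : -1 - r' + 1 = -r' := by ring
    have e2 : -(r' + 1) = -1 - r' := by ring
    rw [e1] at hp
    simp only [e2]
    refine ⟨fun ht => ?_, fun ht => ?_⟩
    · have ht' : tB (per n ω) c (-1 - r') = false := by simpa using ht
      exact ⟨(hp.2 ht').2, (hp.2 ht').1⟩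
    · have ht' : tB (per n ω) c (-1 - r') = true := by simpa using ht
      exact ⟨(hp.1 ht').2, (hp.1 ht').1⟩

theorem up_dual (hL : L = 2 * n) {s : Pat L} (hs : IsStar s) {h : ℕ} (he : Even h) (ω : Config)
    {G : Vert → T} (hG : ∀ e : Edge, 0 ≤ e.1 + e.2.1 → e.1 + e.2.1 < h → per n ω e = false →
      G (lowFace e) = G (src e)) (a : T) (ha : ∀ f : Vert, f.1 + f.2 + 1 = h → G f = a) (x : ℤ) :
    G (dv ((up s n h ω).m x)) = G (dv x) := by
  have hv : ∀ y : ℤ, faceV' G y (0 + (h : ℤ)) = a := by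
    intro y
    refine ha _ ?_
    simp only
    omega
  have key := halfP_inv (s := s) (t := fun c r => tB (per n ω) c r) (tB_per hL ω)
    (V := faceV' G) (H := faceH' G) h 0 ?_ (fun y => by rw [hv, hv]) x
  · rw [faceV'_zero, faceV'_zero] at key
    exact key
  · intro r' h0 h1 c
    exact face_dual (per n ω) G c r' (hG _ (by rw [medge_sum]; exact h0)
      (by rw [medge_sum]; linarith))

theorem dn_dual (hL : L = 2 * n) {s : Pat L} (hs : IsStar s) {h : ℕ} (he : Even h) (ω : Config)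
    {G : Vert → T} (hG : ∀ e : Edge, -(h : ℤ) ≤ e.1 + e.2.1 → e.1 + e.2.1 < 0 → per n ω e = false →
      G (lowFace e) = G (src e)) (a : T) (ha : ∀ f : Vert, f.1 + f.2 + 1 = -(h : ℤ) → G f = a) (x : ℤ) :
    G (dv ((dn s n h ω).m x)) = G (dv x) := by
  have hv : ∀ y : ℤ, faceV' G y (-(0 + (h : ℤ))) = a := by
    intro y
    refine ha _ ?_
    simp only
    omega
  have key := halfP_inv (s := s) (t := fun c r => !tB (per n ω) c (-1 - r))
    (fun c r => by simp only [tB_per hL ω])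
    (V := fun c r => faceV' G c (-r)) (H := fun c r => faceH' G c (-1 - r)) h 0 ?_
    (fun y => by simp only [hv]) x
  · simp only [neg_zero] at key
    rw [faceV'_zero, faceV'_zero] at key
    exact key
  · intro r' h0 h1 c
    have hp := face_dual (per n ω) G c (-1 - r') (hG _ (by rw [medge_sum]; linarith)
      (by rw [medge_sum]; linarith))
    have e1 : -1 - r' + 1 = -r' := by ring
    have e2 : -(r' + 1) = -1 - r' := by ring
    rw [e1] at hp
    simp only [e2]
    refine ⟨fun ht => ?_, fun ht => ?_⟩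
    · have ht' : tB (per n ω) c (-1 - r') = false := by simpa using ht
      exact ⟨(hp.2 ht').2, (hp.2 ht').1⟩
    · have ht' : tB (per n ω) c (-1 - r') = true := by simpa using ht
      exact ⟨(hp.1 ht').2, (hp.1 ht').1⟩

end Pool.Agent.H89.Link

end

section

/-!
# Periodic configurations: confinement of two clusters by seals

`Γ` is a group of periods.  `F₁`, `F₂` are clusters in a domain `D`, `X₁`, `X₂` corridors attached to
them, `M₁`, `M₂` the mouths through which they leave `D`.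
-/

set_option autoImplicit false

open MeasureTheory ProbabilityTheory unitInterval

namespace Pool.Agent.H47.EX

open Pool.Agent.H89.Perc Pool.Agent.H59.EX

/-- All translates of `S` by periods. -/
def pset (Γ : AddSubgroup (ℤ × ℤ)) (S : Set Vert) : Set Vert := {v | ∃ z ∈ Γ, v + z ∈ S}

/-- All translates of the edge set `t` by periods. -/
def pedge (Γ : AddSubgroup (ℤ × ℤ)) (t : Set Edge) : Set Edge := {e | ∃ z ∈ Γ, shiftE z e ∈ t}

variable {Γ : AddSubgroup (ℤ × ℤ)}

theorem src_shiftE (z : Vert) (e : Edge) : src (shiftE z e) = src e + z := rfl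

theorem tgt_shiftE (z : Vert) (e : Edge) : tgt (shiftE z e) = tgt e + z := by
  obtain ⟨a, b, t⟩ := e
  cases t
  · simp only [tgt, shiftE, Bool.false_eq_true, if_false]
    ext <;> simp <;> ring
  · simp only [tgt, shiftE, if_true]
    ext <;> simp
    ring

theorem joins_shiftE {e : Edge} {a b : Vert} (z : Vert) (h : Joins e a b) :
    Joins (shiftE z e) (a + z) (b + z) := joins_shift z h

theorem shiftE_shiftE (z w : Vert) (e : Edge) : shiftE z (shiftE w e) = shiftE (w + z) e := by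
  obtain ⟨a, b, t⟩ := e
  simp only [shiftE, Prod.fst_add, Prod.snd_add, add_assoc]

theorem shiftE_zero (e : Edge) : shiftE 0 e = e := by
  obtain ⟨a, b, t⟩ := e
  simp [shiftE]

theorem pset_sub (S : Set Vert) : S ⊆ pset Γ S := fun v hv => ⟨0, Γ.zero_mem, by simpa using hv⟩

theorem pset_mono {S T : Set Vert} (h : S ⊆ T) : pset Γ S ⊆ pset Γ T :=
  fun _ ⟨z, hz, hv⟩ => ⟨z, hz, h hv⟩

theorem pset_add {S : Set Vert} {v z : Vert} (hz : z ∈ Γ) : v + z ∈ pset Γ S ↔ v ∈ pset Γ S := by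
  constructor
  · rintro ⟨w, hw, h⟩
    exact ⟨z + w, Γ.add_mem hz hw, by rwa [← add_assoc]⟩
  · rintro ⟨w, hw, h⟩
    refine ⟨-z + w, Γ.add_mem (Γ.neg_mem hz) hw, ?_⟩
    rwa [add_assoc, add_neg_cancel_left]

theorem pedge_add {t : Set Edge} {e : Edge} {z : Vert} (hz : z ∈ Γ) :
    shiftE z e ∈ pedge Γ t ↔ e ∈ pedge Γ t := by
  constructor
  · rintro ⟨w, hw, h⟩
    rw [shiftE_shiftE] at h
    exact ⟨z + w, Γ.add_mem hz hw, h⟩
  · rintro ⟨w, hw, h⟩
    refine ⟨-z + w, Γ.add_mem (Γ.neg_mem hz) hw, ?_⟩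
    rwa [shiftE_shiftE, add_neg_cancel_left]

/-- Adjacent vertices. -/
theorem ball_one_of_joins {e : Edge} {a b : Vert} (h : Joins e a b) : b ∈ ball a 1 := by
  obtain ⟨x, y, t⟩ := e
  rcases h with ⟨h1, h2⟩ | ⟨h1, h2⟩ <;> subst h1 h2 <;> cases t <;>
    simp [mem_ball, src, tgt] <;> omega

theorem ball_comm {a b : Vert} {r : ℕ} : b ∈ ball a r ↔ a ∈ ball b r := by
  rw [mem_ball, mem_ball]
  omega

theorem ball_mono {a b : Vert} {r s : ℕ} (h : r ≤ s) (hb : b ∈ ball a r) : b ∈ ball a s := by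
  rw [mem_ball] at hb ⊢
  omega

theorem ball_add {a b z : Vert} {r : ℕ} : b + z ∈ ball (a + z) r ↔ b ∈ ball a r := by
  rw [mem_ball, mem_ball, Prod.fst_add, Prod.snd_add, Prod.fst_add, Prod.snd_add]
  omega

/-- The data of the two clusters. -/
structure TwoData (Γ : AddSubgroup (ℤ × ℤ)) (D F₁ F₂ X₁ X₂ M₁ M₂ C : Set Vert) (η : Config)
    (ρ : ℕ) : Prop where
  per : ∀ z ∈ Γ, ∀ e, η (shiftE z e) = η e
  s1 : F₁ ⊆ D
  s2 : F₂ ⊆ D
  disj : ∀ a ∈ F₁, a ∉ F₂
  cl1 : ∀ a ∈ F₁, ∀ b, Step η D a b → b ∈ F₁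
  cl2 : ∀ a ∈ F₂, ∀ b, Step η D a b → b ∈ F₂
  x1 : ∀ a ∈ X₁, a ∈ D → a ∈ F₁
  x2 : ∀ a ∈ X₂, a ∈ D → a ∈ F₂
  m1 : ∀ a ∈ F₁, a ∉ X₁ → ∀ b, b ∉ D → b ∈ ball a 1 → a ∈ M₁
  m2 : ∀ a ∈ F₂, a ∉ X₂ → ∀ b, b ∉ D → b ∈ ball a 1 → a ∈ M₂
  far : ∀ a ∈ M₁ ∪ X₁, ∀ b, ∀ z ∈ Γ, b + z ∈ M₂ ∪ X₂ → b ∉ ball a (4 * ρ)
  one : ∀ a ∈ D ∪ (X₁ ∪ X₂), ∀ b, ∀ z ∈ Γ, b + z ∈ D → b ∈ ball a 1 → z = 0
  cC : C ⊆ pset Γ X₁ ∪ pset Γ X₂

variable {D F₁ F₂ X₁ X₂ M₁ M₂ C : Set Vert} {η : Config} {ρ : ℕ}

/-- Exchange the roles of the two clusters. -/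
theorem TwoData.symm (h : TwoData Γ D F₁ F₂ X₁ X₂ M₁ M₂ C η ρ) :
    TwoData Γ D F₂ F₁ X₂ X₁ M₂ M₁ C η ρ where
  per := h.per
  s1 := h.s2
  s2 := h.s1
  disj := fun a h2 h1 => h.disj a h1 h2
  cl1 := h.cl2
  cl2 := h.cl1
  x1 := h.x2
  x2 := h.x1
  m1 := h.m2
  m2 := h.m1
  far := by
    intro a ha b z hz hb hab
    have e : a = a + z + -z := by abel
    refine h.far (b + z) hb (a + z) (-z) (Γ.neg_mem hz) ?_ ?_
    · rwa [← e]
    · rw [ball_add, ball_comm]
      exact hab
  one := by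
    intro a ha b z hz hb hab
    refine h.one a ?_ b z hz hb hab
    rcases ha with ha | ha | ha
    · exact Or.inl ha
    · exact Or.inr (Or.inr ha)
    · exact Or.inr (Or.inl ha)
  cC := by
    intro v hv
    exact (h.cC hv).symm

/-- The determined edges. -/
def tset (D F₁ F₂ C : Set Vert) : Set Edge := touch D (F₁ ∪ F₂) ∪ inE C

theorem tset_symm : tset D F₁ F₂ C = tset D F₂ F₁ C := by
  unfold tset
  rw [Set.union_comm F₁ F₂]

theorem joins_inE {S : Set Vert} {e : Edge} {a b : Vert} (hj : Joins e a b) (he : e ∈ inE S) :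
    a ∈ S ∧ b ∈ S := by
  rcases hj with ⟨h1, h2⟩ | ⟨h1, h2⟩
  · subst h1 h2
    exact he
  · subst h1 h2
    exact ⟨he.2, he.1⟩

theorem joins_touch {S T : Set Vert} {e : Edge} {a b : Vert} (hj : Joins e a b)
    (he : e ∈ touch S T) : a ∈ S ∧ b ∈ S ∧ (a ∈ T ∨ b ∈ T) := by
  rcases hj with ⟨h1, h2⟩ | ⟨h1, h2⟩
  · subst h1 h2
    exact ⟨he.1.1, he.1.2, he.2⟩
  · subst h1 h2
    exact ⟨he.1.2, he.1.1, he.2.symm⟩

private theorem exit_core (h : TwoData Γ D F₁ F₂ X₁ X₂ M₁ M₂ C η ρ) (hρ : 1 ≤ ρ) {a b : Vert}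
    {e : Edge} (hj : Joins e a b) (ho : η e = true) (ha : a ∈ F₁ ∪ X₁)
    (hb : b ∉ pset Γ (F₁ ∪ X₁)) :
    a ∈ M₁ ∪ X₁ ∧ b ∉ pset Γ (F₂ ∪ X₂) ∧ e ∉ pedge Γ (tset D F₁ F₂ C) := by
  have hab : b ∈ ball a 1 := ball_one_of_joins hj
  have hab4 : b ∈ ball a (4 * ρ) := ball_mono (by omega) hab
  have hbF : b ∉ F₁ ∪ X₁ := fun h' => hb (pset_sub _ h')
  have kA : ¬ (a ∈ D ∧ b ∈ D) := by
    rintro ⟨haD, hbD⟩
    have haF : a ∈ F₁ := by
      rcases ha with ha | ha
      · exact ha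
      · exact h.x1 a ha haD
    exact hbF (Or.inl (h.cl1 a haF b ⟨haD, hbD, e, hj, ho⟩))
  have kB : a ∈ M₁ ∪ X₁ := by
    by_cases hx : a ∈ X₁
    · exact Or.inr hx
    · rcases ha with ha | ha
      · exact Or.inl (h.m1 a ha hx b (fun hbD => kA ⟨h.s1 ha, hbD⟩) hab)
      · exact absurd ha hx
  have kC : b ∉ pset Γ (F₂ ∪ X₂) := by
    rintro ⟨z, hz, hbz | hbz⟩
    · have hz0 : z = 0 := h.one a (by
        rcases ha with ha | ha
        · exact Or.inl (h.s1 ha)
        · exact Or.inr (Or.inl ha)) b z hz (h.s2 hbz) hab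
      rw [hz0, add_zero] at hbz
      by_cases hx : b ∈ X₂
      · exact h.far a kB b 0 Γ.zero_mem (by rw [add_zero]; exact Or.inr hx) hab4
      · have hm := h.m2 b hbz hx a (fun haD => kA ⟨haD, h.s2 hbz⟩) (ball_comm.1 hab)
        exact h.far a kB b 0 Γ.zero_mem (by rw [add_zero]; exact Or.inl hm) hab4
    · exact h.far a kB b z hz (Or.inr hbz) hab4
  refine ⟨kB, kC, ?_⟩
  rintro ⟨z, hz, ht | ht⟩
  · obtain ⟨h1, h2, -⟩ := joins_touch (joins_shiftE z hj) ht
    have hz0 : z = 0 := h.one a (by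
        rcases ha with ha | ha
        · exact Or.inl (h.s1 ha)
        · exact Or.inr (Or.inl ha)) b z hz h2 hab
    rw [hz0, add_zero] at h1 h2
    exact kA ⟨h1, h2⟩
  · obtain ⟨-, h2⟩ := joins_inE (joins_shiftE z hj) ht
    rcases h.cC h2 with h3 | h3
    · exact hb (pset_mono Set.subset_union_right ((pset_add hz).1 h3))
    · exact kC (pset_mono Set.subset_union_right ((pset_add hz).1 h3))

theorem TwoData.exit (h : TwoData Γ D F₁ F₂ X₁ X₂ M₁ M₂ C η ρ) (hρ : 1 ≤ ρ) {a b : Vert}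
    {e : Edge} (hj : Joins e a b) (ho : η e = true) (ha : a ∈ pset Γ (F₁ ∪ X₁))
    (hb : b ∉ pset Γ (F₁ ∪ X₁)) :
    a ∈ pset Γ (M₁ ∪ X₁) ∧ b ∉ pset Γ (F₂ ∪ X₂) ∧ e ∉ pedge Γ (tset D F₁ F₂ C) := by
  obtain ⟨z, hz, ha⟩ := ha
  obtain ⟨k1, k2, k3⟩ := exit_core h hρ (joins_shiftE z hj) (by rw [h.per z hz]; exact ho) ha
    (fun h' => hb ((pset_add hz).1 h'))
  exact ⟨⟨z, hz, k1⟩, fun h' => k2 ((pset_add hz).2 h'), fun h' => k3 ((pedge_add hz).2 h')⟩

theorem TwoData.sdisj (h : TwoData Γ D F₁ F₂ X₁ X₂ M₁ M₂ C η ρ) {a : Vert}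
    (h1 : a ∈ pset Γ (F₁ ∪ X₁)) : a ∉ pset Γ (F₂ ∪ X₂) := by
  have core : ∀ a ∈ F₁ ∪ X₁, a ∉ pset Γ (F₂ ∪ X₂) := by
    rintro a ha ⟨z, hz, hb⟩
    have haa : a ∈ ball a (4 * ρ) := self_mem_ball
    rcases hb with hb | hb
    · have hz0 : z = 0 := h.one a (by
        rcases ha with ha | ha
        · exact Or.inl (h.s1 ha)
        · exact Or.inr (Or.inl ha)) a z hz (h.s2 hb) self_mem_ball
      rw [hz0, add_zero] at hb
      rcases ha with ha | ha
      · exact h.disj a ha hb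
      · exact h.disj a (h.x1 a ha (h.s2 hb)) hb
    · rcases ha with ha | ha
      · have hz0 : -z = 0 := h.one (a + z) (Or.inr (Or.inr hb)) (a + z) (-z) (Γ.neg_mem hz)
          (by rw [add_neg_cancel_right]; exact h.s1 ha) self_mem_ball
        rw [neg_eq_zero.1 hz0, add_zero] at hb
        exact h.disj a ha (h.x2 a hb (h.s1 ha))
      · exact h.far a (Or.inr ha) a z hz (Or.inr hb) haa
  obtain ⟨z, hz, h1⟩ := h1
  intro h2
  exact core _ h1 ((pset_add hz).2 h2)

/-- Translates of paths in a periodic configuration. -/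
theorem conn_closeS_add {t : Set Edge} (hper : ∀ z ∈ Γ, ∀ e, η (shiftE z e) = η e) {u v z : Vert}
    (hz : z ∈ Γ) (h : Conn (closeS (pedge Γ t) η) Set.univ u v) :
    Conn (closeS (pedge Γ t) η) Set.univ (u + z) (v + z) := by
  refine h.map (fun w => w + z) (fun _ _ => trivial) ?_
  intro e a b hj ho
  refine ⟨shiftE z e, joins_shiftE z hj, ?_⟩
  simp only [closeS, Bool.and_eq_true, decide_eq_true_eq] at ho ⊢
  rw [hper z hz, pedge_add hz]
  exact ho

/-- **Two sealed clusters are disjoint.** -/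
theorem TwoData.not_conn (h : TwoData Γ D F₁ F₂ X₁ X₂ M₁ M₂ C η ρ) (hρ : 1 ≤ ρ)
    (hs : ∀ a ∈ M₁ ∪ X₁, ∀ v, Conn (closeS (pedge Γ (tset D F₁ F₂ C)) η) Set.univ a v →
      v ∈ ball a (4 * ρ)) {x y : Vert} (hx : x ∈ pset Γ (F₁ ∪ X₁)) (hy : y ∈ pset Γ (F₂ ∪ X₂)) :
    ¬ Conn η Set.univ x y := by
  intro hc
  set t := pedge Γ (tset D F₁ F₂ C) with ht
  have hs' : ∀ a ∈ pset Γ (M₁ ∪ X₁), ∀ v, Conn (closeS t η) Set.univ a v →
      v ∈ ball a (4 * ρ) := by
    rintro a ⟨z, hz, ha⟩ v hv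
    have := hs _ ha _ (conn_closeS_add h.per hz hv)
    rwa [ball_add] at this
  have key : y ∈ pset Γ (F₁ ∪ X₁) ∨ (y ∉ pset Γ (F₁ ∪ X₁) ∧ y ∉ pset Γ (F₂ ∪ X₂) ∧
      ∃ a ∈ pset Γ (M₁ ∪ X₁), Conn (closeS t η) Set.univ a y) := by
    refine hc.induction_right (P := fun y => y ∈ pset Γ (F₁ ∪ X₁) ∨
      (y ∉ pset Γ (F₁ ∪ X₁) ∧ y ∉ pset Γ (F₂ ∪ X₂) ∧
        ∃ a ∈ pset Γ (M₁ ∪ X₁), Conn (closeS t η) Set.univ a y)) (Or.inl hx) ?_
    rintro a b _ ⟨-, -, e, hj, ho⟩ ih
    have hopen : e ∉ t → (closeS t η) e = true := by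
      intro het
      simp only [closeS, Bool.and_eq_true, decide_eq_true_eq]
      exact ⟨ho, het⟩
    by_cases hbS : b ∈ pset Γ (F₁ ∪ X₁)
    · exact Or.inl hbS
    refine Or.inr ⟨hbS, ?_⟩
    rcases ih with haS | ⟨haS, haF, c, hc, hcc⟩
    · obtain ⟨k1, k2, k3⟩ := h.exit hρ hj ho haS hbS
      exact ⟨k2, a, k1, Step.conn ⟨trivial, trivial, e, hj, hopen k3⟩⟩
    · by_cases hbF : b ∈ pset Γ (F₂ ∪ X₂)
      · exfalso
        obtain ⟨k1, -, k3⟩ := h.symm.exit hρ hj.symm ho hbF haF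
        rw [tset_symm] at k3
        have hcb := hs' c hc b (hcc.tail ⟨trivial, trivial, e, hj, hopen k3⟩)
        obtain ⟨z, hz, hc'⟩ := hc
        obtain ⟨w, hw, hb'⟩ := k1
        refine h.far _ hc' (b + z) (-z + w) (Γ.add_mem (Γ.neg_mem hz) hw) ?_ ?_
        · rw [add_assoc, add_neg_cancel_left]
          exact hb'
        · rw [ball_add]
          exact hcb
      · refine ⟨hbF, c, hc, hcc.tail ⟨trivial, trivial, e, hj, hopen ?_⟩⟩
        rintro ⟨z, hz, ht' | ht'⟩
        · obtain ⟨-, -, h3 | h3⟩ := joins_touch (joins_shiftE z hj) ht'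
          · rcases h3 with h3 | h3
            · exact haS ⟨z, hz, Or.inl h3⟩
            · exact haF ⟨z, hz, Or.inl h3⟩
          · rcases h3 with h3 | h3
            · exact hbS ⟨z, hz, Or.inl h3⟩
            · exact hbF ⟨z, hz, Or.inl h3⟩
        · obtain ⟨h3, -⟩ := joins_inE (joins_shiftE z hj) ht'
          rcases h.cC h3 with h4 | h4
          · exact haS (pset_mono Set.subset_union_right ((pset_add hz).1 h4))
          · exact haF (pset_mono Set.subset_union_right ((pset_add hz).1 h4))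
  rcases key with h1 | ⟨-, h2, -⟩
  · exact h.sdisj h1 hy
  · exact h2 hy

end Pool.Agent.H47.EX

end

section

/-!
# The diagonal source
-/

set_option autoImplicit false

namespace Pool.Agent.H47.EX

open Pool.Agent.H89.Perc Pool.Agent.H59.EX

/-- The two opposite corners `(0, 0)`, `(1, -1)` of a face; no edge is closed. -/
def srcD : Src where
  x := Pool.Agent.H89.Link.xx
  y := Pool.Agent.H89.Link.yy
  E0 := ∅
  hx := by
    simp only [Pool.Agent.H89.Link.xx, ball, rect, Set.mem_ofPred_eq]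
    norm_num
  hy := by
    simp only [Pool.Agent.H89.Link.yy, ball, rect, Set.mem_ofPred_eq]
    norm_num
  hE := by
    intro e he
    simp at he

theorem cut_srcD (ω : Config) : srcD.cut ω = ω := by
  funext e
  simp [Src.cut, closeS, srcD]

end Pool.Agent.H47.EX

end

section

/-!
# LINK module `Four`: the four-leg event implies four arms

Composite graph `H56.EX.Conn 2 2 (L - 2) P Q` on `ℤ ⊕ ℤ` with `P = up s n h ω`, `Q = dn s n h ω`: `inl x ~ inl (P.m x)`,
`inr y ~ inr (Q.m y)`, `inl c ~ inr c` for the columns `c` with `c % L ≥ 2`.  Home columns: `c % L ∈ {0, 1}`.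
(A) If `Leg 2 2 (L - 2) P Q` then no two different ones of the four nodes `inl 0, inl 1, inr 0, inr 1` are connected
(`a = b = 0` in `Leg`, `Odd 0` is false).
(B) Let `Z` be a finite set of nodes closed under the steps and containing one of the four home nodes `ℓ`, all of
whose nodes have a position in `(-L + 1, L)`, so the only home positions in `Z` are `0` and `1`.  The connected
component `O` of `ℓ` is contained in `Z`, finite, closed under the fixed point free involution
`α : inl x ↦ inl (P.m x), inr y ↦ inr (Q.m y)`, so `|O|` is even; `O` without its home nodes is closed under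
`β : inl c ↔ inr c`, so it has an even number of elements.  So `O` contains an even number of home nodes, hence
another home node; this contradicts (A).
(i) Suppose `x = (0, 0)` is not joined to `sphere 0 k` in `ball 0 k`.  `C` = vertices joined to `x` in `ball 0 k`,
its indicator is constant along open edges; `Z` = nodes whose position `c` has `pv c ∈ C` is closed under the steps
(`up_primal`, `dn_primal`), finite, contains `inl 0`; positions are in `[-2 k - 1, 2 k]` and `2 k + 2 < L`. (B).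
(ii) Suppose `y = (1, -1)` is not joined to `sphere 0 k` in `ball 0 k`: the same with `inl 1` (`pv 1 = y`).
(iii) Suppose `x` and `y` are joined in `ball 0 k`.  `exists_pathSum` gives `c` with odd degrees exactly at `x`, `y`;
add the two edges `(0, 0, false)` and `(1, -1, true)` (the path `x, (1, 0), y`): `A`, all degrees even, finite,
in the strip `H = 2 k + 2`.  `G' = pot A H`.  `Gu = G'` except `Gu q = G' q + 1` for `q = (0, -1)`, `Gd = G'`.
Then `Gu (lowFace e) = Gu (src e)` for closed `e` in rows `≥ 0`: the edges of rows `≥ 0` with `q` as one of their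
faces are exactly `(0, 0, false)` and `(1, -1, true)`.  The edges of rows `< 0` at `q` are `(0, -1, false)`,
`(0, -1, true)`.  `Gu = 0` at level `h`, `Gd` = constant at level `-h` (`2 k + 2 ≤ h`); the constant is `0` because
`G'` has finite support in every level (or: `G' (a, b) = 0` for large `a`).  So the sets of nodes
`Z_ε = {inl c | Gu (dv c) = ε} ∪ {inr c | Gd (dv c) = ε}` are closed under the steps (for `c` not home,
`dv c ≠ q`, so `Gu = Gd`); `dv 0 = dv 1 = q`.  `Gu q ≠ Gd q`, so one of them is `1`: `Z_1` is finite, with positions in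
`[-2 k, 2 k + 1]` (on the seam `pot A H (a, -a-1) ≠ 0` needs `|a| ≤ k`), and contains exactly the home nodes
`inl 0, inl 1` or exactly `inr 0, inr 1`.  (B) gives a contradiction (the other home node in the component is
different from `ℓ`, and any two different home nodes contradict (A)).
-/

set_option autoImplicit false

namespace Pool.Agent.H89.Link

open H56.EX
open Pool.Agent.H89.Perc (Vert Edge Config src tgt lowFace vsum)

variable {L n : ℕ}

/-! ### Finite invariant sets of nodes -/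

private lemma Four_home {c : ℤ} (h1 : -(L : ℤ) + 1 < c) (h2 : c < L) (h3 : ¬ 2 ≤ c % L)
    (hL : 2 ≤ L) : c = 0 ∨ c = 1 := by
  have hL' : (0 : ℤ) < L := by omega
  have h4 := Int.emod_nonneg c hL'.ne'
  have h5 := Int.mul_ediv_add_emod c L
  have h6 : c / L = 0 := by
    by_contra hne
    rcases lt_or_gt_of_ne hne with h7 | h7
    · have : (L : ℤ) * (c / L) ≤ L * (-1) := mul_le_mul_of_nonneg_left (by omega) hL'.le
      omega
    · have : (L : ℤ) * 1 ≤ L * (c / L) := mul_le_mul_of_nonneg_left (by omega) hL'.le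
      omega
  rw [h6, mul_zero] at h5
  omega

/-- position of a node -/
private def Four_pos : ℤ ⊕ ℤ → ℤ := Sum.elim id id

private def Four_alpha (P Q : Pat L) : ℤ ⊕ ℤ → ℤ ⊕ ℤ :=
  Sum.elim (fun x => Sum.inl (P.m x)) (fun y => Sum.inr (Q.m y))

private def Four_beta : ℤ ⊕ ℤ → ℤ ⊕ ℤ := Sum.elim Sum.inr Sum.inl

private lemma Four_leg {P Q : Pat L} (hleg : Leg 2 2 (L - 2) P Q) {ℓ ℓ' : ℤ ⊕ ℤ}
    (h : ℓ = Sum.inl 0 ∨ ℓ = Sum.inl 1 ∨ ℓ = Sum.inr 0 ∨ ℓ = Sum.inr 1)
    (h' : ℓ' = Sum.inl 0 ∨ ℓ' = Sum.inl 1 ∨ ℓ' = Sum.inr 0 ∨ ℓ' = Sum.inr 1)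
    (hc : H56.EX.Conn 2 2 (L - 2) P Q ℓ ℓ') : ℓ = ℓ' := by
  have key : ∀ {ν : ℤ ⊕ ℤ}, (ν = Sum.inl 0 ∨ ν = Sum.inl 1 ∨ ν = Sum.inr 0 ∨ ν = Sum.inr 1) →
      ∃ u : Fin 2 ⊕ Fin 2, hpos L L 2 2 u 0 = ν := by
    rintro ν (rfl | rfl | rfl | rfl)
    · exact ⟨Sum.inl 0, by simp [hpos]⟩
    · exact ⟨Sum.inl 1, by simp [hpos]⟩
    · exact ⟨Sum.inr 0, by simp [hpos]⟩
    · exact ⟨Sum.inr 1, by simp [hpos]⟩
  obtain ⟨u, hu⟩ := key h
  obtain ⟨v, hv⟩ := key h'
  rw [← hu, ← hv] at hc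
  rcases hleg u v 0 0 hc with ⟨h1, -⟩ | h1
  · rw [← hu, ← hv, h1]
  · simp at h1

private lemma Four_closed (hL : 2 ≤ L) {P Q : Pat L} (Z : Finset (ℤ ⊕ ℤ))
    (hP : ∀ x, Sum.inl x ∈ Z → Sum.inl (P.m x) ∈ Z)
    (hQ : ∀ x, Sum.inr x ∈ Z → Sum.inr (Q.m x) ∈ Z)
    (hg : ∀ c : ℤ, 2 ≤ c % L → (Sum.inl c ∈ Z ↔ Sum.inr c ∈ Z)) {ν μ : ℤ ⊕ ℤ}
    (h : H56.EX.Conn 2 2 (L - 2) P Q ν μ) : ν ∈ Z ↔ μ ∈ Z := by
  induction h with
  | rel ν μ h =>
    cases h with
    | top x =>
      constructor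
      · exact hP x
      · intro h
        have := hP _ h
        rwa [P.inv] at this
    | bot y =>
      constructor
      · exact hQ y
      · intro h
        have := hQ _ h
        rwa [Q.inv] at this
    | glue a j hj =>
      apply hg
      have e : (((2 : ℕ) : ℤ) + (j : ℤ) + L * a) % L = 2 + j := by
        rw [Int.add_mul_emod_self_left, Int.emod_eq_of_lt (by positivity) (by push_cast; omega)]
        push_cast
        ring
      rw [e]
      omega
  | refl ν => exact Iff.rfl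
  | symm ν μ _ ih => exact ih.symm
  | trans ν μ ξ _ _ ih1 ih2 => exact ih1.trans ih2

private lemma Four_no_finite (hL : 2 ≤ L) {P Q : Pat L} (hleg : Leg 2 2 (L - 2) P Q)
    (Z : Finset (ℤ ⊕ ℤ)) (hP : ∀ x, Sum.inl x ∈ Z → Sum.inl (P.m x) ∈ Z)
    (hQ : ∀ x, Sum.inr x ∈ Z → Sum.inr (Q.m x) ∈ Z)
    (hg : ∀ c : ℤ, 2 ≤ c % L → (Sum.inl c ∈ Z ↔ Sum.inr c ∈ Z))
    (hpos : ∀ c : ℤ, (Sum.inl c ∈ Z ∨ Sum.inr c ∈ Z) → -(L : ℤ) + 1 < c ∧ c < L)
    (ℓ : ℤ ⊕ ℤ) (hℓ : ℓ ∈ Z)
    (hh : ℓ = Sum.inl 0 ∨ ℓ = Sum.inl 1 ∨ ℓ = Sum.inr 0 ∨ ℓ = Sum.inr 1) : False := by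
  classical
  obtain ⟨O, hO⟩ : ∃ O : Finset (ℤ ⊕ ℤ), O = Z.filter (fun ν => H56.EX.Conn 2 2 (L - 2) P Q ℓ ν) :=
    ⟨_, rfl⟩
  have memO : ∀ ν, ν ∈ O ↔ H56.EX.Conn 2 2 (L - 2) P Q ℓ ν := by
    intro ν
    rw [hO, Finset.mem_filter]
    exact ⟨fun h => h.2, fun h => ⟨(Four_closed hL Z hP hQ hg h).1 hℓ, h⟩⟩
  have hOZ : ∀ ν, ν ∈ O → ν ∈ Z := fun ν h => by
    rw [hO, Finset.mem_filter] at h
    exact h.1
  have h1 : ∑ ν ∈ O, (1 : ZMod 2) = 0 := by
    apply Finset.sum_involution (fun ν _ => Four_alpha P Q ν)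
    · intro ν _
      exact CharTwo.add_self_eq_zero 1
    · intro ν _ _
      rcases ν with x | y
      · intro h
        exact P.ne x (Sum.inl.inj h)
      · intro h
        exact Q.ne y (Sum.inr.inj h)
    · intro ν hν
      rw [memO] at hν ⊢
      rcases ν with x | y
      · exact Relation.EqvGen.trans _ _ _ hν (Relation.EqvGen.rel _ _ (H56.EX.Step.top x))
      · exact Relation.EqvGen.trans _ _ _ hν (Relation.EqvGen.rel _ _ (H56.EX.Step.bot y))
    · intro ν _
      rcases ν with x | y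
      · show Sum.inl (P.m (P.m x)) = Sum.inl x
        rw [P.inv]
      · show Sum.inr (Q.m (Q.m y)) = Sum.inr y
        rw [Q.inv]
  have hglue : ∀ c : ℤ, 2 ≤ c % L → H56.EX.Conn 2 2 (L - 2) P Q (Sum.inl c) (Sum.inr c) := by
    intro c hc
    have hlt := Int.emod_lt_of_pos c (show (0 : ℤ) < L by omega)
    have h2 := H56.EX.Step.glue (kt := 2) (kb := 2) (M := L - 2) (Pt := P) (Pb := Q) (c / L)
      (c % L - 2).toNat (by omega)
    have e : ((2 : ℕ) : ℤ) + ((c % L - 2).toNat : ℤ) + L * (c / L) = c := by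
      have h5 := Int.mul_ediv_add_emod c L
      have : (((c % L - 2).toNat : ℕ) : ℤ) = c % L - 2 := Int.toNat_of_nonneg (by omega)
      rw [this]
      push_cast
      linarith
    rw [e] at h2
    exact Relation.EqvGen.rel _ _ h2
  have h2 : ∑ ν ∈ O.filter (fun ν => 2 ≤ Four_pos ν % L), (1 : ZMod 2) = 0 := by
    apply Finset.sum_involution (fun ν _ => Four_beta ν)
    · intro ν _
      exact CharTwo.add_self_eq_zero 1
    · intro ν _ _
      rcases ν with x | y
      · intro h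
        exact absurd h (by simp [Four_beta])
      · intro h
        exact absurd h (by simp [Four_beta])
    · intro ν hν
      rw [Finset.mem_filter, memO] at hν ⊢
      rcases ν with x | y
      · refine ⟨Relation.EqvGen.trans _ _ _ hν.1 (hglue x hν.2), hν.2⟩
      · refine ⟨Relation.EqvGen.trans _ _ _ hν.1 (Relation.EqvGen.symm _ _ (hglue y hν.2)), hν.2⟩
    · intro ν _
      rcases ν with x | y <;> rfl
  have h3 : ∑ ν ∈ O.filter (fun ν => ¬ 2 ≤ Four_pos ν % L), (1 : ZMod 2) = 0 := by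
    have h4 := Finset.sum_filter_add_sum_filter_not O (fun ν => 2 ≤ Four_pos ν % (L : ℤ))
      (fun _ => (1 : ZMod 2))
    rw [h1, h2, zero_add] at h4
    exact h4
  have hhome : ¬ 2 ≤ Four_pos ℓ % (L : ℤ) := by
    have h01 : Four_pos ℓ = 0 ∨ Four_pos ℓ = 1 := by
      rcases hh with rfl | rfl | rfl | rfl
      · exact Or.inl rfl
      · exact Or.inr rfl
      · exact Or.inl rfl
      · exact Or.inr rfl
    rcases h01 with h | h
    · rw [h]; simp
    · rw [h, Int.emod_eq_of_lt (by norm_num) (by omega)]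
      norm_num
  have hmem : ℓ ∈ O.filter (fun ν => ¬ 2 ≤ Four_pos ν % (L : ℤ)) := by
    rw [Finset.mem_filter, memO]
    exact ⟨Relation.EqvGen.refl _, hhome⟩
  have hall : ∀ ν ∈ O.filter (fun ν => ¬ 2 ≤ Four_pos ν % (L : ℤ)), ν = ℓ := by
    intro ν hν
    rw [Finset.mem_filter] at hν
    obtain ⟨hν1, hν2⟩ := hν
    have h01 : ν = Sum.inl 0 ∨ ν = Sum.inl 1 ∨ ν = Sum.inr 0 ∨ ν = Sum.inr 1 := by
      have hZ := hOZ ν hν1
      rcases ν with c | c
      · obtain ⟨h5, h6⟩ := hpos c (Or.inl hZ)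
        rcases Four_home h5 h6 hν2 hL with rfl | rfl
        · exact Or.inl rfl
        · exact Or.inr (Or.inl rfl)
      · obtain ⟨h5, h6⟩ := hpos c (Or.inr hZ)
        rcases Four_home h5 h6 hν2 hL with rfl | rfl
        · exact Or.inr (Or.inr (Or.inl rfl))
        · exact Or.inr (Or.inr (Or.inr rfl))
    exact (Four_leg hleg hh h01 ((memO ν).1 hν1)).symm
  have heq : O.filter (fun ν => ¬ 2 ≤ Four_pos ν % (L : ℤ)) = {ℓ} :=
    Finset.eq_singleton_iff_unique_mem.2 ⟨hmem, hall⟩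
  rw [heq, Finset.sum_singleton] at h3
  exact one_ne_zero h3

/-! ### The primal arms -/

private lemma Four_mem_ball {k : ℕ} {v : Vert} : v ∈ Perc.ball 0 k ↔
    -(k : ℤ) ≤ v.1 ∧ v.1 ≤ k ∧ -(k : ℤ) ≤ v.2 ∧ v.2 ≤ k := by
  show (0 : ℤ) - k ≤ v.1 ∧ v.1 ≤ 0 + k ∧ (0 : ℤ) - k ≤ v.2 ∧ v.2 ≤ 0 + k ↔ _
  simp

private lemma Four_arm (hL : L = 2 * n) {s : Pat L} (hs : IsStar s) {h k : ℕ} (he : Even h)
    (hk : k + 2 < n) (ω : Config)
    (hleg : Leg 2 2 (L - 2) (up s n h ω) (dn s n h ω)) (v : Vert) (hv : v ∈ Perc.ball 0 k)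
    (c0 : ℤ) (hc0 : c0 = 0 ∨ c0 = 1) (hpv : pv c0 = v) :
    ∃ u ∈ Perc.sphere 0 k, Perc.Conn (per n ω) (Perc.ball 0 k) v u := by
  classical
  by_contra hcon
  push Not at hcon
  -- the indicator of the cluster
  have hstep : ∀ a b : Vert, ∀ e : Edge, Perc.Joins e a b → per n ω e = true →
      Perc.Conn (per n ω) (Perc.ball 0 k) v a → Perc.Conn (per n ω) (Perc.ball 0 k) v b := by
    intro a b e hj ho ha
    have h1 := ha.mem_right
    have h2 : a ∉ Perc.sphere 0 k := fun h => hcon a h ha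
    have h3 : Perc.Step (per n ω) Set.univ a b := ⟨trivial, trivial, e, hj, ho⟩
    have h4 := h3.cases
    have h5 : b ∈ Perc.ball 0 k := by
      rw [Four_mem_ball] at h1 ⊢
      have h6 : ¬ (a.1 = -(k : ℤ) ∨ a.1 = k ∨ a.2 = -(k : ℤ) ∨ a.2 = k) := by
        intro h6
        apply h2
        refine ⟨Four_mem_ball.2 h1, ?_⟩
        show a.1 = 0 - (k : ℤ) ∨ a.1 = 0 + (k : ℤ) ∨ a.2 = 0 - (k : ℤ) ∨ a.2 = 0 + (k : ℤ)
        omega
      omega
    exact ha.tail ⟨h1, h5, e, hj, ho⟩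
  have hF : ∀ e : Edge, per n ω e = true →
      (Perc.Conn (per n ω) (Perc.ball 0 k) v (src e)) =
        (Perc.Conn (per n ω) (Perc.ball 0 k) v (tgt e)) := by
    intro e ho
    apply propext
    exact ⟨hstep _ _ e (Perc.joins_src_tgt e) ho, hstep _ _ e (Perc.joins_src_tgt e).symm ho⟩
  have hup := up_primal (F := fun a => Perc.Conn (per n ω) (Perc.ball 0 k) v a) hL hs he ω
    (fun e _ _ ho => hF e ho)
  have hdn := dn_primal (F := fun a => Perc.Conn (per n ω) (Perc.ball 0 k) v a) hL hs he ω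
    (fun e _ _ ho => hF e ho)
  obtain ⟨Z, hZ⟩ : ∃ Z : Finset (ℤ ⊕ ℤ), ∀ ν, ν ∈ Z ↔
      Perc.Conn (per n ω) (Perc.ball 0 k) v (pv (Four_pos ν)) := by
    obtain ⟨S, hS⟩ : ∃ S : Finset ℤ, S = (Finset.Icc (-(2 * k : ℤ) - 1) (2 * k)).filter
        (fun c => Perc.Conn (per n ω) (Perc.ball 0 k) v (pv c)) := ⟨_, rfl⟩
    have memS : ∀ c, c ∈ S ↔ Perc.Conn (per n ω) (Perc.ball 0 k) v (pv c) := by
      intro c
      rw [hS, Finset.mem_filter, Finset.mem_Icc]
      constructor
      · exact fun h => h.2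
      · intro h
        refine ⟨?_, h⟩
        have h1 := Four_mem_ball.1 h.mem_right
        simp only [pv] at h1
        omega
    refine ⟨S.image Sum.inl ∪ S.image Sum.inr, ?_⟩
    intro ν
    rcases ν with c | c
    · rw [show Four_pos (Sum.inl c) = c from rfl, ← memS]
      simp
    · rw [show Four_pos (Sum.inr c) = c from rfl, ← memS]
      simp
  have hn3 : 3 ≤ n := by omega
  apply Four_no_finite (by omega) hleg Z _ _ _ _ (Sum.inl c0)
  · rw [hZ]
    show Perc.Conn (per n ω) (Perc.ball 0 k) v (pv c0)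
    rw [hpv]
    exact Perc.Conn.refl hv
  · rcases hc0 with rfl | rfl
    · exact Or.inl rfl
    · exact Or.inr (Or.inl rfl)
  · intro x hx
    rw [hZ] at hx ⊢
    show Perc.Conn (per n ω) (Perc.ball 0 k) v (pv ((up s n h ω).m x))
    rw [hup x]
    exact hx
  · intro x hx
    rw [hZ] at hx ⊢
    show Perc.Conn (per n ω) (Perc.ball 0 k) v (pv ((dn s n h ω).m x))
    rw [hdn x]
    exact hx
  · intro c _
    rw [hZ, hZ]
    rfl
  · intro c hc
    have h1 : Perc.Conn (per n ω) (Perc.ball 0 k) v (pv c) := by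
      rcases hc with h | h
      · exact (hZ _).1 h
      · exact (hZ _).1 h
    have h2 := Four_mem_ball.1 h1.mem_right
    simp only [pv] at h2
    omega

/-! ### The two arms are not connected -/

private lemma Four_pot_zero {A : Edge → ZMod 2} {k : ℕ}
    (hA : ∀ e : Edge, A e ≠ 0 → src e ∈ Perc.ball 0 k ∧ tgt e ∈ Perc.ball 0 k)
    (hv : ∀ V, vsum A V = 0) {f : Vert} (hf : f.1 < -(k : ℤ) ∨ (k : ℤ) < f.1 ∨ f.2 < -(k : ℤ)) :
    pot A (2 * k + 2) f = 0 := by
  have hA1 : ∀ e : Edge, (e.1 < -(k : ℤ) ∨ (k : ℤ) < e.1 ∨ e.2.1 < -(k : ℤ)) → A e = 0 := by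
    intro e he
    by_contra hne
    have h1 := (hA e hne).1
    rw [Four_mem_ball] at h1
    simp only [src] at h1
    omega
  have hA2 : ∀ e : Edge, ¬ (-((2 * k + 2 : ℕ) : ℤ) < e.1 + e.2.1 ∧
      e.1 + e.2.1 + 1 < ((2 * k + 2 : ℕ) : ℤ)) → A e = 0 := by
    intro e he
    by_contra hne
    obtain ⟨h1, h2⟩ := hA e hne
    rw [Four_mem_ball] at h1 h2
    simp only [src, tgt] at h1 h2
    apply he
    push_cast
    split_ifs at h2 <;> simp only at h2 <;> omega
  have hside : ∀ f : Vert, (f.1 < -(k : ℤ) ∨ (k : ℤ) < f.1) → pot A (2 * k + 2) f = 0 := by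
    intro f hf
    unfold pot
    apply Finset.sum_eq_zero
    intro j _
    apply hA1
    rcases hf with h | h
    · exact Or.inl h
    · exact Or.inr (Or.inl h)
  rcases hf with h | h | h
  · exact hside f (Or.inl h)
  · exact hside f (Or.inr h)
  · obtain ⟨a, b⟩ := f
    simp only at h
    have key : ∀ m : ℕ, pot A (2 * k + 2) ((k : ℤ) + 1 - m, b) = 0 := by
      intro m
      induction m with
      | zero =>
        apply hside
        right
        simp
      | succ m ih =>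
        have h1 := pot_even hA2 hv ((k : ℤ) + 1 - m, b, true)
        have h2 : lowFace ((k : ℤ) + 1 - m, b, true) = ((k : ℤ) + 1 - ((m + 1 : ℕ) : ℤ), b) := by
          simp only [lowFace, if_true]
          rw [Prod.mk.injEq]
          refine ⟨?_, rfl⟩
          push_cast
          ring
        have h3 : src ((k : ℤ) + 1 - m, b, true) = ((k : ℤ) + 1 - m, b) := rfl
        rw [h2, h3, ih, add_zero] at h1
        rw [h1]
        exact hA1 _ (Or.inr (Or.inr h))
    by_cases ha : (k : ℤ) < a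
    · exact hside _ (Or.inr ha)
    · have h1 := key ((k : ℤ) + 1 - a).toNat
      rw [Int.toNat_of_nonneg (by omega)] at h1
      rw [show (k : ℤ) + 1 - ((k : ℤ) + 1 - a) = a by ring] at h1
      exact h1

private lemma Four_dv {c : ℤ} (h : dv c = (0, -1)) : c = 0 ∨ c = 1 := by
  simp only [dv, Prod.mk.injEq] at h
  omega

private lemma Four_sep (hL : L = 2 * n) {s : Pat L} (hs : IsStar s) {h k : ℕ} (he : Even h)
    (hk1 : 1 ≤ k) (hk : k + 2 < n) (hh : 2 * k + 2 ≤ h) (ω : Config)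
    (hleg : Leg 2 2 (L - 2) (up s n h ω) (dn s n h ω)) :
    ¬ Perc.Conn (per n ω) (Perc.ball 0 k) xx yy := by
  classical
  intro hconn
  obtain ⟨c, hc, -, hcv⟩ := exists_pathSum hconn
  obtain ⟨A, hAdef⟩ : ∃ A : Edge → ZMod 2, A = fun e =>
      (fun e => c e + Perc.one (0, 0, false) e) e + Perc.one (1, -1, true) e := ⟨_, rfl⟩
  have hAe : ∀ e, A e = c e + Perc.one (0, 0, false) e + Perc.one (1, -1, true) e := by
    intro e
    rw [hAdef]
  have hA : ∀ e : Edge, A e ≠ 0 → src e ∈ Perc.ball 0 k ∧ tgt e ∈ Perc.ball 0 k := by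
    intro e hne
    by_cases h1 : c e = 0
    · by_cases h2 : e = (0, 0, false)
      · subst h2
        rw [Four_mem_ball, Four_mem_ball]
        simp only [src, tgt]
        simp
        omega
      · by_cases h3 : e = (1, -1, true)
        · subst h3
          rw [Four_mem_ball, Four_mem_ball]
          simp only [src, tgt]
          simp
          omega
        · exfalso
          apply hne
          rw [hAe, h1]
          simp [Perc.one, h2, h3]
    · exact (hc e h1).2
  have hv : ∀ V, vsum A V = 0 := by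
    intro V
    rw [hAdef, Perc.vsum_add, Perc.vsum_add, hcv, Perc.vsum_one, Perc.vsum_one]
    have e1 : src ((0, 0, false) : Edge) = xx := rfl
    have e2 : tgt ((0, 0, false) : Edge) = (1, 0) := rfl
    have e3 : src ((1, -1, true) : Edge) = yy := rfl
    have e4 : tgt ((1, -1, true) : Edge) = (1, 0) := rfl
    rw [e1, e2, e3, e4]
    generalize (if V = xx then (1 : ZMod 2) else 0) = a1
    generalize (if V = yy then (1 : ZMod 2) else 0) = a2
    generalize (if V = ((1, 0) : Vert) then (1 : ZMod 2) else 0) = a3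
    revert a1 a2 a3
    decide
  have hA2 : ∀ e : Edge, ¬ (-((2 * k + 2 : ℕ) : ℤ) < e.1 + e.2.1 ∧
      e.1 + e.2.1 + 1 < ((2 * k + 2 : ℕ) : ℤ)) → A e = 0 := by
    intro e he
    by_contra hne
    obtain ⟨h1, h2⟩ := hA e hne
    rw [Four_mem_ball] at h1 h2
    simp only [src, tgt] at h1 h2
    apply he
    push_cast
    split_ifs at h2 <;> simp only at h2 <;> omega
  obtain ⟨G, hGdef⟩ : ∃ G : Vert → ZMod 2, G = pot A (2 * k + 2) := ⟨_, rfl⟩
  have hG0 : ∀ f : Vert, (f.1 < -(k : ℤ) ∨ (k : ℤ) < f.1 ∨ f.2 < -(k : ℤ)) → G f = 0 := by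
    intro f hf
    rw [hGdef]
    exact Four_pot_zero hA hv hf
  have hGe : ∀ e : Edge, G (lowFace e) + G (src e) = A e := by
    intro e
    rw [hGdef]
    exact pot_even hA2 hv e
  obtain ⟨Gu, hGu⟩ : ∃ Gu : Vert → ZMod 2, ∀ f, Gu f = G f + if f = (0, -1) then 1 else 0 :=
    ⟨fun f => G f + if f = (0, -1) then 1 else 0, fun _ => rfl⟩
  have hclosed : ∀ e : Edge, per n ω e = false →
      G (lowFace e) + G (src e) = Perc.one (0, 0, false) e + Perc.one (1, -1, true) e := by
    intro e ho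
    have h1 : c e = 0 := by
      by_contra h1
      rw [(hc e h1).1] at ho
      cases ho
    rw [hGe, hAe, h1, zero_add]
  have hup := up_dual (G := Gu) hL hs he ω (by
    intro e hr _ ho
    have h1 := hclosed e ho
    rw [← Perc.z2_add_eq_zero, hGu, hGu]
    obtain ⟨a, b, bb⟩ := e
    simp only at hr
    have h2 : src (a, b, bb) ≠ (0, -1) := by
      intro h2
      simp only [src, Prod.mk.injEq] at h2
      omega
    have h3 : lowFace (a, b, bb) = (0, -1) ↔ ((a, b, bb) = ((0, 0, false) : Edge) ∨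
        (a, b, bb) = ((1, -1, true) : Edge)) := by
      cases bb <;> simp [lowFace, Prod.mk.injEq] <;> omega
    have h4 : ¬ ((a, b, bb) = ((0, 0, false) : Edge) ∧ (a, b, bb) = ((1, -1, true) : Edge)) := by
      rintro ⟨h5, h6⟩
      rw [h5] at h6
      simp at h6
    rw [if_neg h2, add_zero]
    have h5 : G (lowFace (a, b, bb)) + (if lowFace (a, b, bb) = (0, -1) then 1 else 0) +
        G (src (a, b, bb)) = (G (lowFace (a, b, bb)) + G (src (a, b, bb))) +
        (if lowFace (a, b, bb) = (0, -1) then 1 else 0) := by ring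
    rw [h5, h1]
    simp only [Perc.one]
    by_cases h6 : (a, b, bb) = ((0, 0, false) : Edge)
    · have h7 : ¬ (a, b, bb) = ((1, -1, true) : Edge) := fun h => h4 ⟨h6, h⟩
      rw [if_pos h6, if_neg h7, if_pos (h3.2 (Or.inl h6))]
      decide
    · by_cases h7 : (a, b, bb) = ((1, -1, true) : Edge)
      · rw [if_neg h6, if_pos h7, if_pos (h3.2 (Or.inr h7))]
        decide
      · rw [if_neg h6, if_neg h7, if_neg (fun h => by
          rcases h3.1 h with h | h
          · exact h6 h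
          · exact h7 h)]
        decide) 0 (by
    intro f hf
    rw [hGu, if_neg (by rintro rfl; simp at hf; omega), add_zero, hGdef]
    apply pot_top
    push_cast
    omega)
  have hdn := dn_dual (G := G) hL hs he ω (by
    intro e _ hr ho
    have h1 := hclosed e ho
    rw [← Perc.z2_add_eq_zero, h1]
    have h2 : e ≠ (0, 0, false) := by
      rintro rfl
      simp at hr
    have h3 : e ≠ (1, -1, true) := by
      rintro rfl
      simp at hr
    simp [Perc.one, h2, h3]) 0 (by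
    intro f hf
    apply hG0
    omega)
  obtain ⟨Z, hZ1, hZ2⟩ : ∃ Z : Finset (ℤ ⊕ ℤ), (∀ c, Sum.inl c ∈ Z ↔ Gu (dv c) = 1) ∧
      (∀ c, Sum.inr c ∈ Z ↔ G (dv c) = 1) := by
    have hrange : ∀ c : ℤ, G (dv c) = 1 → c ∈ Finset.Icc (-(2 * k : ℤ)) (2 * k + 1) := by
      intro c hc
      rw [Finset.mem_Icc]
      by_contra hcon
      have h1 : G (dv c) = 0 := by
        apply hG0
        simp only [dv]
        omega
      rw [h1] at hc
      exact zero_ne_one hc
    refine ⟨((Finset.Icc (-(2 * k : ℤ)) (2 * k + 1)).filter (fun c => Gu (dv c) = 1)).image Sum.inl ∪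
      ((Finset.Icc (-(2 * k : ℤ)) (2 * k + 1)).filter (fun c => G (dv c) = 1)).image Sum.inr, ?_, ?_⟩
    · intro c
      simp only [Finset.mem_union, Finset.mem_image, Finset.mem_filter, Sum.inl.injEq,
        exists_eq_right, reduceCtorEq, and_false, exists_false, or_false]
      constructor
      · exact fun h => h.2
      · intro hc
        refine ⟨?_, hc⟩
        by_cases h1 : dv c = (0, -1)
        · rw [Finset.mem_Icc]
          rcases Four_dv h1 with rfl | rfl <;> constructor <;> omega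
        · rw [hGu, if_neg h1, add_zero] at hc
          exact hrange c hc
    · intro c
      simp only [Finset.mem_union, Finset.mem_image, Finset.mem_filter, Sum.inr.injEq,
        exists_eq_right, reduceCtorEq, and_false, exists_false, false_or]
      constructor
      · exact fun h => h.2
      · intro hc
        exact ⟨hrange c hc, hc⟩
  have hq : Gu (0, -1) = 1 ∨ G (0, -1) = 1 := by
    rw [hGu, if_pos rfl]
    generalize G (0, -1) = a
    revert a
    decide
  have hdv0 : dv 0 = (0, -1) := by simp [dv]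
  have main : ∀ ℓ : ℤ ⊕ ℤ, ℓ ∈ Z →
      (ℓ = Sum.inl 0 ∨ ℓ = Sum.inl 1 ∨ ℓ = Sum.inr 0 ∨ ℓ = Sum.inr 1) → False := by
    intro ℓ hℓ hhome
    apply Four_no_finite (by omega) hleg Z _ _ _ _ ℓ hℓ hhome
    · intro x hx
      rw [hZ1] at hx ⊢
      rw [hup x]
      exact hx
    · intro x hx
      rw [hZ2] at hx ⊢
      rw [hdn x]
      exact hx
    · intro c hc2
      rw [hZ1, hZ2, hGu]
      have h1 : dv c ≠ (0, -1) := by
        intro h1
        rcases Four_dv h1 with rfl | rfl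
        · simp at hc2
        · rw [Int.emod_eq_of_lt (by norm_num) (by omega)] at hc2
          norm_num at hc2
      rw [if_neg h1, add_zero]
    · intro c hcc
      have hrange : -(2 * k : ℤ) ≤ c ∧ c ≤ 2 * k + 1 := by
        by_contra hcon
        have h1 : G (dv c) = 0 := by
          apply hG0
          simp only [dv]
          omega
        rcases hcc with h2 | h2
        · rw [hZ1, hGu, h1] at h2
          by_cases h3 : dv c = (0, -1)
          · rcases Four_dv h3 with rfl | rfl <;> omega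
          · rw [if_neg h3] at h2
            simp at h2
        · rw [hZ2, h1] at h2
          exact zero_ne_one h2
      omega
  rcases hq with h1 | h1
  · refine main (Sum.inl 0) ?_ (Or.inl rfl)
    rw [hZ1, hdv0]
    exact h1
  · refine main (Sum.inr 0) ?_ (Or.inr (Or.inr (Or.inl rfl)))
    rw [hZ2, hdv0]
    exact h1

theorem fourD_of_leg (hL : L = 2 * n) {s : Pat L} (hs : IsStar s) {h k : ℕ} (he : Even h)
    (hk1 : 1 ≤ k) (hk : k + 2 < n) (hh : 2 * k + 2 ≤ h) (ω : Config)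
    (hleg : Leg 2 2 (L - 2) (up s n h ω) (dn s n h ω)) : per n ω ∈ FourD k := by
  refine ⟨?_, ?_, Four_sep hL hs he hk1 hk hh ω hleg⟩
  · refine Four_arm hL hs he hk ω hleg xx ?_ 0 (Or.inl rfl) ?_
    · rw [Four_mem_ball]
      simp [xx]
    · simp [pv, xx]
  · refine Four_arm hL hs he hk ω hleg yy ?_ 1 (Or.inr rfl) ?_
    · rw [Four_mem_ball]
      simp only [yy]
      omega
    · simp [pv, yy]

end Pool.Agent.H89.Link

end

section

/-!
# LINK module `Star`: the pattern of small arcs, reset by an alternating row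

`exists_star`: write down the involution `x ↦ if x % 2 = 0 then x - 1 else x + 1`.
`row_alt`: apply `row_inv` with `T = ℤ`, `bot c = (c + 1) / 2`, `hor c = if c % 2 = 1 then (c + 1) / 2 else C`
and `top = C` constant (`C` any constant, e.g. `C = 0` and colours in `Option ℤ`): so
`bot ((row t P).m x) = bot x`, hence `(row t P).m x ∈ {x, x + 1}` for odd `x` and `∈ {x - 1, x}` for even `x`,
and `(row t P).m x ≠ x` (`Pat.ne`).  Conclude with `Pat.ext`.
-/

set_option autoImplicit false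

namespace Pool.Agent.H89.Link

open H56.EX

variable {L : ℕ}

theorem exists_star {n : ℕ} (hL : L = 2 * n) (hn : 1 ≤ n) : ∃ s : Pat L, IsStar s := by
  refine ⟨⟨fun x => if x % 2 = 0 then x - 1 else x + 1, ?_, ?_, ?_, ?_, ?_⟩, fun x => rfl⟩
  · intro x
    split_ifs <;> omega
  · intro x
    subst hL
    push_cast
    split_ifs <;> omega
  · intro x
    split_ifs <;> omega
  · intro x
    subst hL
    push_cast
    rw [abs_lt]
    split_ifs <;> constructor <;> omega
  · intro x y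
    split_ifs <;> intro h1 h2 <;> exfalso <;> omega

/-- A row with alternating types resets every pattern. -/
theorem row_alt {n : ℕ} (hL : L = 2 * n) {s : Pat L} (hs : IsStar s) (P : Pat L) {t : ℤ → Bool}
    (ht : ∀ c, t c = decide (c % 2 = 1)) : row t P = s := by
  have hper : ∀ c, t (c + L) = t c := by
    intro c
    rw [ht, ht]
    subst hL
    push_cast
    congr 1
    apply propext
    constructor <;> intro h <;> omega
  have hcol : RowCol t (fun _ => (none : Option ℤ))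
      (fun c => if c % 2 = 1 then some ((c + 1) / 2) else none) (fun c => some ((c + 1) / 2)) := by
    intro c
    constructor
    · intro h
      rw [ht] at h
      have h1 : c % 2 = 1 := by simpa using h
      have h2 : ¬ (c - 1) % 2 = 1 := by omega
      simp [h1, h2]
    · intro h
      rw [ht] at h
      have h1 : ¬ c % 2 = 1 := by simpa using h
      have h2 : (c - 1) % 2 = 1 := by omega
      have h3 : (c - 1 + 1) / 2 = (c + 1) / 2 := by omega
      simp only [h1, h2, h3, if_true, if_false]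
      simp
  apply Pat.ext
  funext x
  have h := row_inv hper P hcol (fun _ => rfl) x
  have hne := (row t P).ne x
  simp only [Option.some.injEq] at h
  rw [hs x]
  split_ifs <;> omega

end Pool.Agent.H89.Link

end

section

/-!
# LINK module `Law`: the law of the two patterns, and its limit

`pr_up_dn`: for `L = 2 n`, the bits `tB (per n ω) c r`, `0 ≤ c < L`, `-h ≤ r < h`, are the values of `ω`
(or their negations) at pairwise different edges: `per n ω (medge c r) = ω (medge' c r)` with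
`medge' c r = (e.1 % n, e.2.1 + (e.1 - e.1 % n), e.2.2)`, `e = medge c r`; the map `(c, r) ↦ medge' c r` is
injective on `0 ≤ c < 2 n` (`e.1 + e.2.1 = r` and the orientation and `e.1 - e.2.1` determine `c` modulo `2 n`).
So they are independent fair bits (`Pr half`, product measure), and the same holds for the reflected and
flipped bits of the lower half.  Then induction over the rows (the row next to the seam is applied last;
peel it off).  A convenient formulation: the probability of a set of bit arrays is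
(number of arrays) / 2 ^ (2 h L); see `Pool.Agent.H89.Perc.Prob` for cylinder probabilities.
`law_tendsto`: the kernel `K P Q = 2 ^ (-L) #{t | row (bits t) P = Q}` satisfies `K P s ≥ 2 ^ (-L)` for all `P`
by `row_alt`.  For a signed/complex vector `w` with sum zero, `‖K w‖₁ ≤ (1 - 2 ^ (-L)) ‖w‖₁`.  Apply it to
`w = law s h - v / ∑ v` (`law s h` has sum one, is the `h`-th iterate, and `v` is fixed by `Stat v`).
-/

set_option autoImplicit false

open MeasureTheory ProbabilityTheory Filter Topology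

namespace Pool.Agent.H89.Link

open H56.EX
open Pool.Agent.H89.Perc (Vert Edge Config Pr half)

variable {L n : ℕ}

/-! ### Fair bits -/

open Pool.Agent.H89.Perc (LocalOn ofS ofS_apply Pr_eq_Ex)
open Pool.Agent.Perc (Ex ind ind_of ind_of_not ind_congr)

open Classical in
/-- Finitely many different edges, some of them flipped, are independent fair bits. -/
private theorem law_bits {ι : Type*} [Fintype ι] [DecidableEq ι] (φ : ι → Edge)
    (hφ : Function.Injective φ) (sg : ι → Bool) (B : Set (ι → Bool)) :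
    Pr half {ω | (fun i => xor (ω (φ i)) (sg i)) ∈ B} =
      (1 / 2) ^ Fintype.card ι * ∑ b : ι → Bool, if b ∈ B then 1 else 0 := by
  set s : Finset Edge := Finset.univ.image φ with hs
  have hloc : LocalOn s {ω | (fun i => xor (ω (φ i)) (sg i)) ∈ B} := by
    intro ω ω' h hB
    have : (fun i => xor (ω' (φ i)) (sg i)) = (fun i => xor (ω (φ i)) (sg i)) := by
      funext i
      rw [h (φ i) (Finset.mem_image_of_mem _ (Finset.mem_univ i))]
    show (fun i => xor (ω' (φ i)) (sg i)) ∈ B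
    rw [this]
    exact hB
  rw [Pr_eq_Ex hloc]
  have hcard : s.card = Fintype.card ι := by
    rw [hs, Finset.card_image_of_injective _ hφ, Finset.card_univ]
  unfold Ex
  have hhalf : ((half : unitInterval) : ℝ) = 1 / 2 := rfl
  have hterm : ∀ S ∈ s.powerset, ((half : unitInterval) : ℝ) ^ S.card *
      (1 - ((half : unitInterval) : ℝ)) ^ (s \ S).card *
      ind (fun S => ofS S ∈ {ω : Config | (fun i => xor (ω (φ i)) (sg i)) ∈ B}) S =
      (1 / 2) ^ Fintype.card ι *
        (if (fun i => xor (decide (φ i ∈ S)) (sg i)) ∈ B then 1 else 0) := by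
    intro S hS
    rw [hhalf, show (1 : ℝ) - 1 / 2 = 1 / 2 by norm_num, ← pow_add,
      Finset.card_sdiff_of_subset (Finset.mem_powerset.1 hS),
      Nat.add_sub_cancel' (Finset.card_le_card (Finset.mem_powerset.1 hS)), hcard]
    by_cases h : (fun i => xor (decide (φ i ∈ S)) (sg i)) ∈ B
    · rw [if_pos h, ind_of]
      exact h
    · rw [if_neg h, ind_of_not]
      exact h
  rw [Finset.sum_congr rfl hterm, ← Finset.mul_sum]
  congr 1
  refine Finset.sum_bij' (fun S _ => fun i => xor (decide (φ i ∈ S)) (sg i))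
    (fun b _ => (Finset.univ.filter (fun i => xor (b i) (sg i) = true)).image φ)
    ?_ ?_ ?_ ?_ ?_
  · intro S _
    exact Finset.mem_univ _
  · intro b _
    rw [Finset.mem_powerset, hs]
    exact Finset.image_subset_image (Finset.subset_univ _)
  · intro S hS
    ext e
    rw [Finset.mem_image]
    constructor
    · rintro ⟨i, hi, rfl⟩
      have := (Finset.mem_filter.1 hi).2
      simpa using this
    · intro he
      obtain ⟨i, _, hi⟩ := Finset.mem_image.1 (Finset.mem_powerset.1 hS he)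
      refine ⟨i, Finset.mem_filter.2 ⟨Finset.mem_univ _, ?_⟩, hi⟩
      show xor (xor (decide (φ i ∈ S)) (sg i)) (sg i) = true
      rw [hi]
      simp [he]
  · intro b _
    funext i
    have : φ i ∈ (Finset.univ.filter (fun i => xor (b i) (sg i) = true)).image φ ↔
        xor (b i) (sg i) = true := by
      rw [Finset.mem_image]
      constructor
      · rintro ⟨j, hj, hji⟩
        rw [← hφ hji]
        exact (Finset.mem_filter.1 hj).2
      · intro h
        exact ⟨i, Finset.mem_filter.2 ⟨Finset.mem_univ _, h⟩, rfl⟩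
    simp only [this]
    cases b i <;> cases sg i <;> rfl
  · intro S _
    rfl

/-! ### Patterns of arrays of bits -/

/-- The pattern below the rows `b 0` (lowest), `b 1`, … -/
private noncomputable def law_hp (s : Pat L) : (h : ℕ) → (Fin h → Fin L → Bool) → Pat L
  | 0, _ => s
  | h + 1, b => row (bits (b 0)) (law_hp s h (fun i => b i.succ))

private theorem law_bits_apply {t : ℤ → Bool} {c : ℤ} (h0 : 0 ≤ c) (h1 : c < L) :
    bits (fun x : Fin L => t ((x : ℕ) : ℤ)) c = t c := by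
  have hc : c % (L : ℤ) = c := Int.emod_eq_of_lt h0 h1
  unfold bits
  have h2 : (c % (L : ℤ)).toNat < L := by rw [hc]; omega
  rw [dif_pos h2]
  show t (((c % (L : ℤ)).toNat : ℕ) : ℤ) = t c
  rw [hc, Int.toNat_of_nonneg h0]

private theorem law_halfP (s : Pat L) (t : ℤ → ℤ → Bool) (h : ℕ) (r : ℤ) :
    halfP s t h r = law_hp s h (fun i c => t ((c : ℕ) : ℤ) (r + ((i : ℕ) : ℤ))) := by
  induction h generalizing r with
  | zero => rfl
  | succ h ih =>
    show row (fun c => t c r) (halfP s t h (r + 1)) = row _ _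
    rw [ih (r + 1)]
    have h1 : (fun (i : Fin h) (c : Fin L) => t ((c : ℕ) : ℤ) (r + 1 + ((i : ℕ) : ℤ))) =
        (fun (i : Fin h) (c : Fin L) => t ((c : ℕ) : ℤ) (r + ((i.succ : ℕ) : ℤ))) := by
      funext i c
      congr 1
      rw [Fin.val_succ]
      push_cast
      ring
    rw [h1]
    apply row_congr
    intro c hc0 hc1
    have h2 := law_bits_apply (t := fun c => t c (r + (((0 : Fin (h + 1)) : ℕ) : ℤ))) hc0 hc1
    rw [h2]
    simp

open Classical in
private theorem law_eq_sum (s : Pat L) (h : ℕ) (Q : Pat L) :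
    law s h Q = (1 / 2) ^ (h * L) *
      ∑ b : Fin h → Fin L → Bool, if law_hp s h b = Q then (1 : ℝ) else 0 := by
  induction h generalizing Q with
  | zero =>
    have h0 : ∀ b : Fin 0 → Fin L → Bool, law_hp s 0 b = s := fun _ => rfl
    show (if Q = s then (1 : ℝ) else 0) = _
    rw [zero_mul, pow_zero, one_mul, Fintype.sum_unique, h0]
    by_cases hQ : Q = s
    · rw [if_pos hQ, if_pos hQ.symm]
    · rw [if_neg hQ, if_neg (Ne.symm hQ)]
  | succ h ih =>
    show (1 / 2) ^ L * ∑ t : Fin L → Bool, ∑ P : Pat L,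
      (if row (bits t) P = Q then law s h P else 0) = _
    have h1 : (∑ b : Fin (h + 1) → Fin L → Bool, if law_hp s (h + 1) b = Q then (1 : ℝ) else 0) =
        ∑ t : Fin L → Bool, ∑ b : Fin h → Fin L → Bool,
          if row (bits t) (law_hp s h b) = Q then (1 : ℝ) else 0 := by
      rw [← Fintype.sum_prod_type' (f := fun (t : Fin L → Bool) (b : Fin h → Fin L → Bool) =>
        if row (bits t) (law_hp s h b) = Q then (1 : ℝ) else 0)]
      symm
      refine Fintype.sum_equiv (Fin.consEquiv (fun _ => Fin L → Bool)) _ _ ?_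
      rintro ⟨t, b⟩
      rfl
    rw [h1, Nat.succ_mul, pow_add, mul_comm ((1 / 2 : ℝ) ^ (h * L)), mul_assoc]
    congr 1
    rw [Finset.mul_sum]
    apply Finset.sum_congr rfl
    intro t _
    have h2 : ∀ b : Fin h → Fin L → Bool,
        (if row (bits t) (law_hp s h b) = Q then (1 : ℝ) else 0) =
        ∑ P : Pat L, if row (bits t) P = Q then (if law_hp s h b = P then (1 : ℝ) else 0)
          else 0 := by
      intro b
      rw [Finset.sum_eq_single (law_hp s h b)]
      · simp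
      · intro P _ hP
        have h4 : ¬ law_hp s h b = P := Ne.symm hP
        simp only [if_neg h4, ite_self]
      · intro hcon
        exact absurd (Finset.mem_univ _) hcon
    rw [Finset.sum_congr rfl (fun b _ => h2 b), Finset.sum_comm, Finset.mul_sum]
    apply Finset.sum_congr rfl
    intro P _
    by_cases h3 : row (bits t) P = Q
    · simp only [if_pos h3]
      exact ih P
    · simp only [if_neg h3]
      simp

/-! ### The edges -/

/-- representative of the edge `medge c r` in the fundamental strip -/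
private def law_me (n : ℕ) (c r : ℤ) : Edge :=
  ((medge c r).1 % n, (medge c r).2.1 + ((medge c r).1 - (medge c r).1 % n), (medge c r).2.2)

private theorem law_per_me (n : ℕ) (ω : Config) (c r : ℤ) :
    per n ω (medge c r) = ω (law_me n c r) := rfl

private theorem law_tB (n : ℕ) (ω : Config) (c r : ℤ) :
    tB (per n ω) c r = xor (ω (law_me n c r)) (decide ((c + r) % 2 ≠ 0)) := by
  unfold tB
  rw [law_per_me]
  by_cases h : (c + r) % 2 = 0
  · rw [if_pos h]
    simp [h]
  · rw [if_neg h]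
    simp [h]

private theorem law_me_inj {n : ℕ} {c r c' r' : ℤ} (h0 : 0 ≤ c) (h1 : c < 2 * n)
    (h0' : 0 ≤ c') (h1' : c' < 2 * n) (h : law_me n c r = law_me n c' r') : c = c' ∧ r = r' := by
  unfold law_me at h
  simp only [Prod.mk.injEq] at h
  obtain ⟨e1, e2, e3⟩ := h
  have hr : r = r' := by
    have a1 : (medge c r).1 + (medge c r).2.1 = r := by
      unfold medge
      split_ifs with h2
      · show (c + r) / 2 + (r - c) / 2 = r
        omega
      · show (c + r + 1) / 2 + (r - c - 1) / 2 = r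
        omega
    have a2 : (medge c' r').1 + (medge c' r').2.1 = r' := by
      unfold medge
      split_ifs with h2
      · show (c' + r') / 2 + (r' - c') / 2 = r'
        omega
      · show (c' + r' + 1) / 2 + (r' - c' - 1) / 2 = r'
        omega
    omega
  subst hr
  refine ⟨?_, rfl⟩
  have hmod : (n : ℤ) ∣ (medge c r).1 - (medge c' r).1 := Int.ModEq.dvd e1.symm
  obtain ⟨k, hk⟩ := hmod
  have hdiff : c - c' = 2 * ((medge c r).1 - (medge c' r).1) := by
    unfold medge at e3 ⊢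
    by_cases h2 : (c + r) % 2 = 0
    · by_cases h3 : (c' + r) % 2 = 0
      · rw [if_pos h2, if_pos h3]
        show c - c' = 2 * ((c + r) / 2 - (c' + r) / 2)
        omega
      · rw [if_pos h2, if_neg h3] at e3
        exact absurd e3 (by simp)
    · by_cases h3 : (c' + r) % 2 = 0
      · rw [if_neg h2, if_pos h3] at e3
        exact absurd e3 (by simp)
      · rw [if_neg h2, if_neg h3]
        show c - c' = 2 * ((c + r + 1) / 2 - (c' + r + 1) / 2)
        omega
  rw [hk] at hdiff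
  have hk0 : k = 0 := by
    by_contra hk0
    rcases lt_or_gt_of_ne hk0 with hk1 | hk1
    · have : (n : ℤ) * k ≤ -n := by nlinarith
      omega
    · have : (n : ℤ) * k ≥ n := by nlinarith
      omega
  rw [hk0] at hdiff
  omega

open Classical in
theorem pr_up_dn (hL : L = 2 * n) (hn : 1 ≤ n) (s : Pat L) (h : ℕ) (A : Set (Pat L × Pat L)) :
    Pr half {ω | (up s n h ω, dn s n h ω) ∈ A} =
      ∑ P : Pat L, ∑ Q : Pat L, if (P, Q) ∈ A then law s h P * law s h Q else 0 := by
  have _ := hn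
  -- the index set and the edges
  let ι := (Fin h × Fin L) ⊕ (Fin h × Fin L)
  let rw' : ι → ℤ := Sum.elim (fun x => ((x.1 : ℕ) : ℤ)) (fun x => -1 - ((x.1 : ℕ) : ℤ))
  let cl : ι → ℤ := Sum.elim (fun x => ((x.2 : ℕ) : ℤ)) (fun x => ((x.2 : ℕ) : ℤ))
  let φ : ι → Edge := fun i => law_me n (cl i) (rw' i)
  let sg : ι → Bool := Sum.elim
    (fun x => decide ((((x.2 : ℕ) : ℤ) + ((x.1 : ℕ) : ℤ)) % 2 ≠ 0))
    (fun x => !decide ((((x.2 : ℕ) : ℤ) + (-1 - ((x.1 : ℕ) : ℤ))) % 2 ≠ 0))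
  have hcl : ∀ i : ι, 0 ≤ cl i ∧ cl i < 2 * n := by
    rintro (⟨x, y⟩ | ⟨x, y⟩)
    · have := y.2
      show 0 ≤ ((y : ℕ) : ℤ) ∧ ((y : ℕ) : ℤ) < 2 * n
      omega
    · have := y.2
      show 0 ≤ ((y : ℕ) : ℤ) ∧ ((y : ℕ) : ℤ) < 2 * n
      omega
  have hφ : Function.Injective φ := by
    intro i j hij
    obtain ⟨hc, hr⟩ := law_me_inj (hcl i).1 (hcl i).2 (hcl j).1 (hcl j).2 hij
    rcases i with ⟨x, y⟩ | ⟨x, y⟩ <;> rcases j with ⟨x', y'⟩ | ⟨x', y'⟩
    · have h1 : ((y : ℕ) : ℤ) = ((y' : ℕ) : ℤ) := hc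
      have h2 : ((x : ℕ) : ℤ) = ((x' : ℕ) : ℤ) := hr
      have h3 : y = y' := Fin.ext (by omega)
      have h4 : x = x' := Fin.ext (by omega)
      rw [h3, h4]
    · have h2 : ((x : ℕ) : ℤ) = -1 - ((x' : ℕ) : ℤ) := hr
      omega
    · have h2 : -1 - ((x : ℕ) : ℤ) = ((x' : ℕ) : ℤ) := hr
      omega
    · have h1 : ((y : ℕ) : ℤ) = ((y' : ℕ) : ℤ) := hc
      have h2 : -1 - ((x : ℕ) : ℤ) = -1 - ((x' : ℕ) : ℤ) := hr
      have h3 : y = y' := Fin.ext (by omega)
      have h4 : x = x' := Fin.ext (by omega)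
      rw [h3, h4]
  let B : Set (ι → Bool) := {b | (law_hp s h (fun i c => b (Sum.inl (i, c))),
    law_hp s h (fun i c => b (Sum.inr (i, c)))) ∈ A}
  have hset : {ω : Config | (up s n h ω, dn s n h ω) ∈ A} =
      {ω | (fun i => xor (ω (φ i)) (sg i)) ∈ B} := by
    ext ω
    have h1 : up s n h ω = law_hp s h
        (fun i c => xor (ω (φ (Sum.inl (i, c)))) (sg (Sum.inl (i, c)))) := by
      unfold up
      rw [law_halfP]
      congr 1
      funext i c
      rw [law_tB]
      show xor (ω (law_me n ((c : ℕ) : ℤ) (0 + ((i : ℕ) : ℤ))))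
        (decide ((((c : ℕ) : ℤ) + (0 + ((i : ℕ) : ℤ))) % 2 ≠ 0)) =
        xor (ω (law_me n ((c : ℕ) : ℤ) ((i : ℕ) : ℤ)))
          (decide ((((c : ℕ) : ℤ) + ((i : ℕ) : ℤ)) % 2 ≠ 0))
      rw [zero_add]
    have h2 : dn s n h ω = law_hp s h
        (fun i c => xor (ω (φ (Sum.inr (i, c)))) (sg (Sum.inr (i, c)))) := by
      unfold dn
      rw [law_halfP]
      congr 1
      funext i c
      rw [law_tB]
      show (!xor (ω (law_me n ((c : ℕ) : ℤ) (-1 - (0 + ((i : ℕ) : ℤ)))))
        (decide ((((c : ℕ) : ℤ) + (-1 - (0 + ((i : ℕ) : ℤ)))) % 2 ≠ 0))) =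
        xor (ω (law_me n ((c : ℕ) : ℤ) (-1 - ((i : ℕ) : ℤ))))
          (!decide ((((c : ℕ) : ℤ) + (-1 - ((i : ℕ) : ℤ))) % 2 ≠ 0))
      rw [zero_add]
      generalize ω (law_me n ((c : ℕ) : ℤ) (-1 - ((i : ℕ) : ℤ))) = a
      generalize decide ((((c : ℕ) : ℤ) + (-1 - ((i : ℕ) : ℤ))) % 2 ≠ 0) = b
      cases a <;> cases b <;> rfl
    show (up s n h ω, dn s n h ω) ∈ A ↔ _
    rw [h1, h2]
    exact Iff.rfl
  rw [hset, law_bits φ hφ sg B]
  have hcard : Fintype.card ι = h * L + h * L := by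
    show Fintype.card ((Fin h × Fin L) ⊕ (Fin h × Fin L)) = _
    rw [Fintype.card_sum, Fintype.card_prod, Fintype.card_fin, Fintype.card_fin]
  rw [hcard]
  -- arrays
  have hsum : (∑ b : ι → Bool, if b ∈ B then (1 : ℝ) else 0) =
      ∑ b : Fin h → Fin L → Bool, ∑ b' : Fin h → Fin L → Bool,
        if (law_hp s h b, law_hp s h b') ∈ A then (1 : ℝ) else 0 := by
    rw [← Fintype.sum_prod_type' (f := fun (b b' : Fin h → Fin L → Bool) =>
      if (law_hp s h b, law_hp s h b') ∈ A then (1 : ℝ) else 0)]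
    refine Fintype.sum_equiv ((Equiv.sumArrowEquivProdArrow _ _ _).trans
      (Equiv.prodCongr (Equiv.curry _ _ _) (Equiv.curry _ _ _))) _ _ ?_
    intro b
    rfl
  rw [hsum]
  have hexp : ∀ P Q : Pat L, (if (P, Q) ∈ A then law s h P * law s h Q else 0) =
      (1 / 2) ^ (h * L + h * L) * ∑ b : Fin h → Fin L → Bool, ∑ b' : Fin h → Fin L → Bool,
        if law_hp s h b = P then (if law_hp s h b' = Q then (if (P, Q) ∈ A then (1 : ℝ) else 0)
          else 0) else 0 := by
    intro P Q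
    rw [law_eq_sum s h P, law_eq_sum s h Q, pow_add]
    by_cases hPQ : (P, Q) ∈ A
    · simp only [if_pos hPQ]
      have h5 : (∑ b : Fin h → Fin L → Bool, ∑ b' : Fin h → Fin L → Bool,
          if law_hp s h b = P then (if law_hp s h b' = Q then (1 : ℝ) else 0) else 0) =
          (∑ b : Fin h → Fin L → Bool, if law_hp s h b = P then (1 : ℝ) else 0) *
          ∑ b' : Fin h → Fin L → Bool, if law_hp s h b' = Q then (1 : ℝ) else 0 := by
        rw [Finset.sum_mul]
        apply Finset.sum_congr rfl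
        intro b _
        by_cases hb : law_hp s h b = P
        · simp only [if_pos hb, one_mul]
        · simp only [if_neg hb, zero_mul, Finset.sum_const_zero]
      rw [h5]
      ring
    · simp only [if_neg hPQ, ite_self, Finset.sum_const_zero, mul_zero]
  rw [Finset.sum_congr rfl (fun P _ => Finset.sum_congr rfl (fun Q _ => hexp P Q))]
  simp only [← Finset.mul_sum]
  congr 1
  let f : Pat L → Pat L → (Fin h → Fin L → Bool) → (Fin h → Fin L → Bool) → ℝ :=
    fun P Q b b' => if law_hp s h b = P then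
      (if law_hp s h b' = Q then (if (P, Q) ∈ A then (1 : ℝ) else 0) else 0) else 0
  symm
  calc ∑ P : Pat L, ∑ Q : Pat L, ∑ b : Fin h → Fin L → Bool, ∑ b' : Fin h → Fin L → Bool,
        f P Q b b'
      = ∑ P : Pat L, ∑ b : Fin h → Fin L → Bool, ∑ Q : Pat L, ∑ b' : Fin h → Fin L → Bool,
        f P Q b b' := Finset.sum_congr rfl (fun P _ => Finset.sum_comm)
    _ = ∑ b : Fin h → Fin L → Bool, ∑ P : Pat L, ∑ Q : Pat L, ∑ b' : Fin h → Fin L → Bool,
        f P Q b b' := Finset.sum_comm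
    _ = ∑ b : Fin h → Fin L → Bool, ∑ P : Pat L, ∑ b' : Fin h → Fin L → Bool, ∑ Q : Pat L,
        f P Q b b' :=
        Finset.sum_congr rfl (fun b _ => Finset.sum_congr rfl (fun P _ => Finset.sum_comm))
    _ = ∑ b : Fin h → Fin L → Bool, ∑ b' : Fin h → Fin L → Bool, ∑ P : Pat L, ∑ Q : Pat L,
        f P Q b b' := Finset.sum_congr rfl (fun b _ => Finset.sum_comm)
    _ = ∑ b : Fin h → Fin L → Bool, ∑ b' : Fin h → Fin L → Bool,
        if (law_hp s h b, law_hp s h b') ∈ A then (1 : ℝ) else 0 := by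
        apply Finset.sum_congr rfl
        intro b _
        apply Finset.sum_congr rfl
        intro b' _
        rw [Finset.sum_eq_single (law_hp s h b), Finset.sum_eq_single (law_hp s h b')]
        · simp [f]
        · intro Q _ hQ
          have h7 : ¬ law_hp s h b' = Q := Ne.symm hQ
          simp only [f, if_neg h7, ite_self]
        · intro hcon
          exact absurd (Finset.mem_univ _) hcon
        · intro P _ hP
          have h7 : ¬ law_hp s h b = P := Ne.symm hP
          simp only [f, if_neg h7, Finset.sum_const_zero]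
        · intro hcon
          exact absurd (Finset.mem_univ _) hcon

/-! ### Convergence -/

open Classical in
/-- transition probabilities -/
private noncomputable def law_K (P Q : Pat L) : ℝ :=
  (1 / 2) ^ L * ∑ t : Fin L → Bool, if row (bits t) P = Q then (1 : ℝ) else 0

private theorem law_K_nonneg (P Q : Pat L) : 0 ≤ law_K P Q := by
  unfold law_K
  apply mul_nonneg (by positivity)
  apply Finset.sum_nonneg
  intro t _
  split_ifs <;> norm_num

private theorem law_K_sum (P : Pat L) : ∑ Q : Pat L, law_K P Q = 1 := by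
  classical
  unfold law_K
  rw [← Finset.mul_sum, Finset.sum_comm]
  have h1 : ∀ t : Fin L → Bool, (∑ Q : Pat L, if row (bits t) P = Q then (1 : ℝ) else 0) = 1 := by
    intro t
    rw [Finset.sum_eq_single (row (bits t) P)]
    · simp
    · intro Q _ hQ
      rw [if_neg (fun e => hQ e.symm)]
    · intro hcon
      exact absurd (Finset.mem_univ _) hcon
  rw [Finset.sum_congr rfl (fun t _ => h1 t)]
  simp only [Finset.sum_const, Finset.card_univ, Fintype.card_fun, Fintype.card_bool,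
    Fintype.card_fin, nsmul_eq_mul, mul_one]
  push_cast
  rw [← mul_pow]
  norm_num

private theorem law_K_law (s : Pat L) (h : ℕ) (Q : Pat L) :
    law s (h + 1) Q = ∑ P : Pat L, law_K P Q * law s h P := by
  classical
  show (1 / 2) ^ L * ∑ t : Fin L → Bool, ∑ P : Pat L,
      (if row (bits t) P = Q then law s h P else 0) = _
  unfold law_K
  rw [Finset.sum_comm, Finset.mul_sum]
  apply Finset.sum_congr rfl
  intro P _
  rw [mul_assoc, Finset.sum_mul]
  congr 1
  apply Finset.sum_congr rfl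
  intro t _
  split_ifs <;> simp

private theorem law_K_stat {v : Pat L → ℂ} (hv : Stat v) (Q : Pat L) :
    ∑ P : Pat L, (law_K P Q : ℂ) * v P = v Q := by
  classical
  have h1 := hv Q
  unfold pushRow at h1
  rw [Finset.sum_comm] at h1
  have h2 : ∑ P : Pat L, (law_K P Q : ℂ) * v P = (1 / 2) ^ L * ∑ P : Pat L,
      ∑ t : Fin L → Bool, if row (bits t) P = Q then v P else 0 := by
    rw [Finset.mul_sum]
    apply Finset.sum_congr rfl
    intro P _
    unfold law_K
    push_cast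
    rw [mul_assoc, Finset.sum_mul]
    congr 1
    apply Finset.sum_congr rfl
    intro t _
    split_ifs <;> simp
  rw [h2, h1, ← mul_assoc, ← mul_pow]
  norm_num

private theorem law_sum_one (s : Pat L) (h : ℕ) : ∑ Q : Pat L, law s h Q = 1 := by
  classical
  induction h with
  | zero =>
    show (∑ Q : Pat L, if Q = s then (1 : ℝ) else 0) = 1
    rw [Finset.sum_eq_single s]
    · simp
    · intro Q _ hQ
      rw [if_neg hQ]
    · intro hcon
      exact absurd (Finset.mem_univ _) hcon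
  | succ h ih =>
    rw [Finset.sum_congr rfl (fun Q _ => law_K_law s h Q), Finset.sum_comm]
    have : ∀ P : Pat L, ∑ Q : Pat L, law_K P Q * law s h P = law s h P := by
      intro P
      rw [← Finset.sum_mul, law_K_sum, one_mul]
    rw [Finset.sum_congr rfl (fun P _ => this P), ih]

private theorem law_K_star (hL : L = 2 * n) (hn : 1 ≤ n) {s : Pat L} (hs : IsStar s)
    (P : Pat L) : (1 / 2) ^ L ≤ law_K P s := by
  classical
  unfold law_K
  have h1 : (1 : ℝ) ≤ ∑ t : Fin L → Bool, if row (bits t) P = s then (1 : ℝ) else 0 := by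
    let t0 : Fin L → Bool := fun c => decide ((((c : ℕ) : ℤ)) % 2 = 1)
    have hbits : ∀ c : ℤ, bits t0 c = decide (c % 2 = 1) := by
      intro c
      have hLpos : (0 : ℤ) < L := by omega
      have h2 : 0 ≤ c % (L : ℤ) := Int.emod_nonneg _ (by omega)
      have h3 : c % (L : ℤ) < L := Int.emod_lt_of_pos _ hLpos
      unfold bits
      rw [dif_pos (by omega)]
      show decide ((((c % (L : ℤ)).toNat : ℕ) : ℤ) % 2 = 1) = decide (c % 2 = 1)
      rw [Int.toNat_of_nonneg h2]
      have h4 : c % (L : ℤ) % 2 = c % 2 := by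
        apply Int.emod_emod_of_dvd
        exact ⟨n, by rw [hL]; push_cast; ring⟩
      rw [h4]
    have h5 : row (bits t0) P = s := row_alt hL hs P hbits
    have h6 := Finset.single_le_sum
      (f := fun t : Fin L → Bool => if row (bits t) P = s then (1 : ℝ) else 0)
      (fun t _ => by split_ifs <;> norm_num) (Finset.mem_univ t0)
    simp only [h5, if_true] at h6
    exact h6
  calc (1 / 2 : ℝ) ^ L = (1 / 2) ^ L * 1 := (mul_one _).symm
    _ ≤ _ := mul_le_mul_of_nonneg_left h1 (by positivity)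

theorem law_tendsto (hL : L = 2 * n) (hn : 1 ≤ n) {s : Pat L} (hs : IsStar s) {v : Pat L → ℂ}
    (hv : Stat v) (hS : ∑ P, v P ≠ 0) (Q : Pat L) :
    Tendsto (fun h : ℕ => (law s h Q : ℂ)) atTop (𝓝 (v Q / ∑ P, v P)) := by
  classical
  set S := ∑ P, v P with hSdef
  set ε : ℝ := (1 / 2) ^ L with hε
  have hε0 : 0 < ε := by positivity
  have hε1 : ε ≤ 1 := pow_le_one₀ (by norm_num) (by norm_num)
  let w : ℕ → Pat L → ℂ := fun h Q => (law s h Q : ℂ) - v Q / S
  have hw0 : ∀ h, ∑ Q, w h Q = 0 := by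
    intro h
    show ∑ Q, ((law s h Q : ℂ) - v Q / S) = 0
    rw [Finset.sum_sub_distrib, ← Finset.sum_div, ← hSdef, div_self hS]
    have := law_sum_one s h
    have h2 : ∑ Q : Pat L, (law s h Q : ℂ) = 1 := by
      exact_mod_cast this
    rw [h2, sub_self]
  have hrec : ∀ h Q, w (h + 1) Q = ∑ P, ((law_K P Q - if Q = s then ε else 0 : ℝ) : ℂ) * w h P := by
    intro h Q
    have h1 : ∑ P, ((law_K P Q - if Q = s then ε else 0 : ℝ) : ℂ) * w h P =
        ∑ P, (law_K P Q : ℂ) * w h P - ((if Q = s then ε else 0 : ℝ) : ℂ) * ∑ P, w h P := by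
      rw [Finset.mul_sum, ← Finset.sum_sub_distrib]
      apply Finset.sum_congr rfl
      intro P _
      push_cast
      ring
    rw [h1, hw0, mul_zero, sub_zero]
    show (law s (h + 1) Q : ℂ) - v Q / S = ∑ P, (law_K P Q : ℂ) * ((law s h P : ℂ) - v P / S)
    have h2 : ∑ P, (law_K P Q : ℂ) * ((law s h P : ℂ) - v P / S) =
        ∑ P, (law_K P Q : ℂ) * (law s h P : ℂ) - (∑ P, (law_K P Q : ℂ) * v P) / S := by
      rw [Finset.sum_div, ← Finset.sum_sub_distrib]
      apply Finset.sum_congr rfl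
      intro P _
      ring
    rw [h2, law_K_stat hv Q, law_K_law]
    push_cast
    rfl
  have hcoef : ∀ P Q : Pat L, 0 ≤ law_K P Q - if Q = s then ε else 0 := by
    intro P Q
    by_cases hQ : Q = s
    · rw [if_pos hQ, hQ]
      exact sub_nonneg.2 (law_K_star hL hn hs P)
    · rw [if_neg hQ, sub_zero]
      exact law_K_nonneg P Q
  have hcoefsum : ∀ P : Pat L, ∑ Q : Pat L, (law_K P Q - if Q = s then ε else 0) = 1 - ε := by
    intro P
    rw [Finset.sum_sub_distrib, law_K_sum, Finset.sum_ite_eq' Finset.univ s (fun _ => ε)]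
    simp
  have hcontr : ∀ h, ∑ Q, ‖w (h + 1) Q‖ ≤ (1 - ε) * ∑ P, ‖w h P‖ := by
    intro h
    calc ∑ Q, ‖w (h + 1) Q‖
        ≤ ∑ Q, ∑ P, (law_K P Q - if Q = s then ε else 0) * ‖w h P‖ := by
          apply Finset.sum_le_sum
          intro Q _
          rw [hrec h Q]
          refine (norm_sum_le _ _).trans ?_
          apply Finset.sum_le_sum
          intro P _
          rw [norm_mul, Complex.norm_real, Real.norm_eq_abs, abs_of_nonneg (hcoef P Q)]
      _ = ∑ P, (1 - ε) * ‖w h P‖ := by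
          rw [Finset.sum_comm]
          apply Finset.sum_congr rfl
          intro P _
          rw [← Finset.sum_mul, hcoefsum]
      _ = (1 - ε) * ∑ P, ‖w h P‖ := by rw [Finset.mul_sum]
  have hbound : ∀ h, ∑ Q, ‖w h Q‖ ≤ (1 - ε) ^ h * ∑ Q, ‖w 0 Q‖ := by
    intro h
    induction h with
    | zero => simp
    | succ h ih =>
      calc ∑ Q, ‖w (h + 1) Q‖ ≤ (1 - ε) * ∑ P, ‖w h P‖ := hcontr h
        _ ≤ (1 - ε) * ((1 - ε) ^ h * ∑ Q, ‖w 0 Q‖) :=
          mul_le_mul_of_nonneg_left ih (by linarith)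
        _ = (1 - ε) ^ (h + 1) * ∑ Q, ‖w 0 Q‖ := by ring
  have hlim : Tendsto (fun h : ℕ => (1 - ε) ^ h * ∑ Q, ‖w 0 Q‖) atTop (𝓝 0) := by
    have h1 : Tendsto (fun h : ℕ => (1 - ε) ^ h) atTop (𝓝 0) :=
      tendsto_pow_atTop_nhds_zero_of_lt_one (by linarith) (by linarith)
    simpa using h1.mul_const (∑ Q, ‖w 0 Q‖)
  rw [tendsto_iff_norm_sub_tendsto_zero]
  refine squeeze_zero (fun h => norm_nonneg _) (fun h => ?_) hlim
  refine le_trans ?_ (hbound h)
  exact Finset.single_le_sum (f := fun Q => ‖w h Q‖) (fun _ _ => norm_nonneg _)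
    (Finset.mem_univ Q)

end Pool.Agent.H89.Link

end

section

/-!
# LINK module `One`: one arm

`arm_of_noSurr`.  Suppose `per n ω ∉ Arm 0 k`.  Let `C` be the set of vertices joined to `0` inside
`ball 0 k`; it is finite, contains `0` and no point of `sphere 0 k`, hence its indicator `F` is constant along
all open edges of `per n ω` (a neighbour of a point of the ball which is not on the sphere is in the ball).
By `up_primal`, `dn_primal` the finite set `X = {c | pv c ∈ C}` is invariant under both involutions.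
`pv c = (j, -j)` with `j = (c + 1) / 2`: the columns `2 j - 1, 2 j`.  So
`#{c ∈ X | 0 ≤ c} = 1 + 2 #{j ≥ 1 | (j, -j) ∈ C}` is odd, which contradicts `NoSurr`.

`noSurr_of_path`.  `exists_pathSum` and `exists_halfSum` give `A : Edge → ZMod 2` supported on open edges of
`per n ω` in the strip, with `0` the only vertex of odd degree; `G = pot A H`.  By `pot_odd`
`Gu f = G f` satisfies `Gu (lowFace e) = Gu (src e)` for all closed edges `e` in rows `≥ 0` (there
`e.1 = 0 ∧ e.2.1 < 0` is impossible), and `Gd f = G f + (if 0 ≤ f.1 then 1 else 0)` satisfies the same for closed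
edges in rows `< 0` (check: only `e = (0, b, true)` has `lowFace e`, `src e` on different sides of `f.1 = 0`, and
in the rows `< 0` it has `b < 0`).  Top level `h ≥ H`: `Gu = 0` (`pot_top`).  Bottom level `-h ≤ -H`: `Gd` is
constant: for `f.1 + f.2 + 1 = -h` moving from `(a, b)` to `(a + 1, b - 1)` crosses edges of rows `< -H` (or
`≤ -H`), where `A = 0`, so `Gd` does not change; (equivalently `Gd (a, b) = Gd (a+1, b-1)` for all `a`, then
integer induction).  Hence `up_dual`, `dn_dual`: with `hu c = Gu (dv c)`, `hd c = Gd (dv c)`: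
`hu ((up ..).m c) = hu c`, `hd ((dn ..).m c) = hd c`, and `hu c + hd c = if 0 ≤ c then 1 else 0`
(`(dv c).1 = c / 2 ≥ 0 ↔ c ≥ 0`).  For an invariant finite set `X`: `∑_{c ∈ X} hu c = 0` in `ZMod 2` (a fixed point
free involution of `X` preserves `hu`; `Finset.sum_involution`), same for `hd`; so `#{c ∈ X | 0 ≤ c}` is even.
-/

set_option autoImplicit false

namespace Pool.Agent.H89.Link

open H56.EX
open Pool.Agent.H89.Perc (Vert Edge Config src tgt lowFace vsum)

variable {L n : ℕ}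

/-- a sum in `ZMod 2` which is invariant under a fixed point free involution vanishes -/
lemma sum_invol_zero {X : Finset ℤ} (P : Pat L) (hX : ∀ x ∈ X, P.m x ∈ X) (f : ℤ → ZMod 2)
    (hf : ∀ x, f (P.m x) = f x) : ∑ x ∈ X, f x = 0 := by
  apply Finset.sum_involution (fun x _ => P.m x)
  · intro a _
    rw [hf]
    exact Perc.z2_add_self _
  · intro a _ _
    exact P.ne a
  · intro a ha
    exact hX a ha
  · intro a _
    exact P.inv a

lemma even_card_of_invol {X : Finset ℤ} (g : ℤ → ℤ) (hm : ∀ x ∈ X, g x ∈ X)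
    (hi : ∀ x ∈ X, g (g x) = x) (hn : ∀ x ∈ X, g x ≠ x) : Even X.card := by
  rw [← ZMod.natCast_eq_zero_iff_even, Finset.card_eq_sum_ones]
  push_cast
  apply Finset.sum_involution (fun x _ => g x)
  · intro a _
    exact Perc.z2_add_self _
  · intro a ha _
    exact hn a ha
  · intro a ha
    exact hm a ha
  · intro a ha
    exact hi a ha

/-- The cluster of `v` inside a ball is a cluster of the whole configuration if it does not reach the
sphere. -/
lemma conn_ball_step {η : Config} {k : ℕ} {v : Vert} (hno : ∀ u ∈ Perc.sphere 0 k,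
    ¬ Perc.Conn η (Perc.ball 0 k) v u) {a b : Vert} (ha : Perc.Conn η (Perc.ball 0 k) v a)
    {e : Edge} (he : Perc.Joins e a b) (ho : η e = true) : Perc.Conn η (Perc.ball 0 k) v b := by
  have hab : Perc.Step η Set.univ a b := ⟨trivial, trivial, e, he, ho⟩
  have h1 : a ∈ Perc.ball 0 k := ha.mem_right
  have h2 : a ∉ Perc.sphere 0 k := fun h => hno a h ha
  have h3 : ¬ (a.1 = (0 : Vert).1 - k ∨ a.1 = (0 : Vert).1 + k ∨ a.2 = (0 : Vert).2 - k ∨
      a.2 = (0 : Vert).2 + k) := fun h => h2 ⟨h1, h⟩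
  have h4 := hab.fst_le
  have h5 := hab.snd_le
  have hb : b ∈ Perc.ball 0 k := by
    simp only [Perc.mem_ball] at h1 ⊢
    omega
  exact ha.tail ⟨h1, hb, e, he, ho⟩

theorem arm_of_noSurr (hL : L = 2 * n) {s : Pat L} (hs : IsStar s) {h : ℕ} (he : Even h)
    (ω : Config) (hN : NoSurr (up s n h ω) (dn s n h ω)) (k : ℕ) : per n ω ∈ Perc.Arm 0 k := by
  classical
  by_contra harm
  set η := per n ω with hη
  have hno : ∀ u ∈ Perc.sphere 0 k, ¬ Perc.Conn η (Perc.ball 0 k) 0 u := by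
    intro u hu hc
    exact harm ⟨u, hu, hc⟩
  set F : Vert → Prop := fun v => Perc.Conn η (Perc.ball 0 k) 0 v with hF
  have hconst : ∀ e : Edge, η e = true → F (src e) = F (tgt e) := by
    intro e ho
    apply propext
    constructor
    · intro h1
      exact conn_ball_step hno h1 (Perc.joins_src_tgt e) ho
    · intro h1
      exact conn_ball_step hno h1 (Perc.joins_src_tgt e).symm ho
  have hup : ∀ x, F (pv ((up s n h ω).m x)) = F (pv x) :=
    up_primal hL hs he ω (fun e _ _ ho => hconst e ho)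
  have hdn : ∀ x, F (pv ((dn s n h ω).m x)) = F (pv x) :=
    dn_primal hL hs he ω (fun e _ _ ho => hconst e ho)
  set X : Finset ℤ := (Finset.Icc (-2 * (k : ℤ) - 1) (2 * k)).filter (fun c => F (pv c)) with hX
  have hmem : ∀ c, c ∈ X ↔ F (pv c) := by
    intro c
    rw [hX, Finset.mem_filter]
    constructor
    · exact fun h => h.2
    · intro h
      refine ⟨?_, h⟩
      have h1 : pv c ∈ Perc.ball 0 k := Perc.Conn.mem_right h
      simp only [Perc.mem_ball, pv] at h1
      have h2 : (0 : Vert).1 = 0 := rfl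
      have h3 : (0 : Vert).2 = 0 := rfl
      rw [h2, h3] at h1
      rw [Finset.mem_Icc]
      omega
  have hEven := hN X (fun x hx => by rw [hmem] at hx ⊢; rw [hup]; exact hx)
    (fun x hx => by rw [hmem] at hx ⊢; rw [hdn]; exact hx)
  have h0 : (0 : ℤ) ∈ X := by
    rw [hmem]
    have : pv 0 = (0 : Vert) := by simp [pv]
    rw [this]
    exact Perc.Conn.refl Perc.self_mem_ball
  have h0' : (0 : ℤ) ∈ X.filter (fun c => 0 ≤ c) := by
    rw [Finset.mem_filter]; exact ⟨h0, le_refl _⟩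
  have hY : Even ((X.filter (fun c => 0 ≤ c)).erase 0).card := by
    apply even_card_of_invol (fun c => if c % 2 = 0 then c - 1 else c + 1)
    · intro c hc
      rw [Finset.mem_erase, Finset.mem_filter, hmem] at hc ⊢
      obtain ⟨h1, h2, h3⟩ := hc
      have hpv : pv (if c % 2 = 0 then c - 1 else c + 1) = pv c := by
        unfold pv
        have : ((if c % 2 = 0 then c - 1 else c + 1) + 1) / 2 = (c + 1) / 2 := by
          split_ifs <;> omega
        rw [this]
      refine ⟨?_, ?_, ?_⟩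
      · split_ifs <;> omega
      · rw [hpv]; exact h2
      · split_ifs <;> omega
    · intro c _
      show (if (if c % 2 = 0 then c - 1 else c + 1) % 2 = 0 then _ else _) = c
      split_ifs <;> omega
    · intro c _
      show (if c % 2 = 0 then c - 1 else c + 1) ≠ c
      split_ifs <;> omega
  have h1 : ((X.filter (fun c => 0 ≤ c)).erase 0).card + 1 = (X.filter (fun c => 0 ≤ c)).card :=
    Finset.card_erase_add_one h0'
  rw [← h1] at hEven
  rcases hY with ⟨a, ha⟩
  rcases hEven with ⟨b, hb⟩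
  omega

lemma level_shift (n : ℕ) (e : Edge) (k : ℤ) :
    (e.1 + n * k) + (e.2.1 - n * k) = e.1 + e.2.1 := by ring

lemma mem_strip_src {H : ℕ} {e : Edge} (h1 : src e ∈ strip H) (h2 : tgt e ∈ strip H) :
    -(H : ℤ) < e.1 + e.2.1 ∧ e.1 + e.2.1 + 1 < H := by
  simp only [strip, Set.mem_ofPred_eq, src] at h1
  simp only [strip, Set.mem_ofPred_eq, tgt] at h2
  split_ifs at h2 with h
  · simp only at h2
    omega
  · simp only at h2
    omega

theorem noSurr_of_path (hL : L = 2 * n) (hn : 1 ≤ n) {s : Pat L} (hs : IsStar s) {h H : ℕ}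
    (he : Even h) (hH : H ≤ h) (ω : Config)
    (hp : Perc.Conn (per n ω) (strip H) 0 ((n : ℤ), -(n : ℤ))) :
    NoSurr (up s n h ω) (dn s n h ω) := by
  classical
  set η := per n ω with hη
  obtain ⟨c, hc1, hc2, hc3⟩ := exists_pathSum hp
  obtain ⟨A, hA1, ⟨B, hB⟩, hA2, hA3⟩ := exists_halfSum n hn hc2 hc3
  -- support of `A`
  have hAo : ∀ e, A e ≠ 0 → η e = true ∧ -(H : ℤ) < e.1 + e.2.1 ∧ e.1 + e.2.1 + 1 < H := by
    intro e hAe
    obtain ⟨k, hk⟩ := hA1 e hAe
    obtain ⟨h1, h2, h3⟩ := hc1 _ hk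
    have h4 := mem_strip_src h2 h3
    simp only at h4
    rw [level_shift] at h4
    refine ⟨?_, h4⟩
    rw [hη, ← per_shift n ω e k]
    exact h1
  have hAclosed : ∀ e, η e = false → A e = 0 := by
    intro e h1
    by_contra h2
    rw [(hAo e h2).1] at h1
    exact absurd h1 (by decide)
  have hAs : ∀ e : Edge, ¬ (-(H : ℤ) < e.1 + e.2.1 ∧ e.1 + e.2.1 + 1 < H) → A e = 0 := by
    intro e h1
    by_contra h2
    exact h1 (hAo e h2).2
  have hpot := pot_odd hAs hA2 hA3
  set G := pot A H with hG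
  set Gd : Vert → ZMod 2 := fun f => G f + if 0 ≤ f.1 then 1 else 0 with hGd
  have hu : ∀ e : Edge, 0 ≤ e.1 + e.2.1 → A e = 0 → G (lowFace e) = G (src e) := by
    intro e h1 h2
    have h3 := hpot e
    rw [h2, if_neg (by omega), add_zero] at h3
    exact Perc.z2_add_eq_zero.1 h3
  have hGd' : ∀ a b : ℤ, Gd (a, b) = G (a, b) + if 0 ≤ a then 1 else 0 := fun a b => rfl
  have hd : ∀ e : Edge, e.1 + e.2.1 < 0 → A e = 0 → Gd (lowFace e) = Gd (src e) := by
    intro e h1 h2
    have h3 := hpot e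
    rw [h2, zero_add] at h3
    obtain ⟨a, b, t⟩ := e
    simp only at h1
    rcases t with _ | _
    · have h4 : G (a, b - 1) + G (a, b) = 0 := by
        rw [if_neg (by simp)] at h3
        exact h3
      show Gd (a, b - 1) = Gd (a, b)
      rw [hGd', hGd', Perc.z2_add_eq_zero.1 h4]
    · show Gd (a - 1, b) = Gd (a, b)
      rw [hGd', hGd']
      by_cases ha : a = 0
      · have hb : b < 0 := by omega
        have h5 : G (a - 1, b) + G (a, b) = 1 := by
          rw [if_pos ⟨rfl, ha, hb⟩] at h3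
          exact h3
        have h4 : G (a - 1, b) = 1 + G (a, b) := by
          have h6 : G (a - 1, b) + G (a, b) + G (a, b) = 1 + G (a, b) := by rw [h5]
          rwa [add_assoc, Perc.z2_add_self, add_zero] at h6
        rw [if_neg (by omega), if_pos (by omega), add_zero, h4, add_comm]
      · have h5 : G (a - 1, b) + G (a, b) = 0 := by
          rw [if_neg (by rintro ⟨_, h6, _⟩; exact ha h6)] at h3
          exact h3
        rw [Perc.z2_add_eq_zero.1 h5]
        by_cases ha' : 0 ≤ a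
        · rw [if_pos ha', if_pos (by omega)]
        · rw [if_neg ha', if_neg (by omega)]
  have hup := up_dual hL hs he ω (G := G)
    (fun e h1 _ h2 => hu e h1 (hAclosed e h2)) 0
    (fun f hf => pot_top A H (by omega))
  have hbot : ∀ f : Vert, f.1 + f.2 + 1 = -(h : ℤ) → Gd f = Gd (0, -(h : ℤ) - 1) := by
    have hstep : ∀ a : ℤ, Gd (a + 1, -(h : ℤ) - 1 - (a + 1)) = Gd (a, -(h : ℤ) - 1 - a) := by
      intro a
      have e1 := hd (a, -(h : ℤ) - 1 - a, false) (by simp only; omega) (hAs _ (by simp only; omega))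
      have e2 := hd (a + 1, -(h : ℤ) - 1 - a - 1, true) (by simp only; omega)
        (hAs _ (by simp only; omega))
      simp only [lowFace, src, Bool.false_eq_true, if_false, if_true] at e1 e2
      rw [show a + 1 - 1 = a by ring] at e2
      rw [show -(h : ℤ) - 1 - (a + 1) = -(h : ℤ) - 1 - a - 1 by ring, ← e2, e1]
    have hall : ∀ a : ℤ, Gd (a, -(h : ℤ) - 1 - a) = Gd (0, -(h : ℤ) - 1) := by
      intro a
      induction a using Int.induction_on with
      | zero => simp
      | succ a ih => rw [hstep]; exact ih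
      | pred a ih =>
        have := hstep (-a - 1)
        rw [show (-(a : ℤ) - 1 + 1) = -a by ring] at this
        rw [← this]; exact ih
    intro f hf
    have h1 : f = (f.1, -(h : ℤ) - 1 - f.1) := by
      apply Prod.ext
      · rfl
      · simp only; omega
    rw [h1]
    exact hall f.1
  have hdn := dn_dual hL hs he ω (G := Gd)
    (fun e _ h1 h2 => hd e h1 (hAclosed e h2)) (Gd (0, -(h : ℤ) - 1)) hbot
  intro X hX1 hX2
  have s1 := sum_invol_zero (up s n h ω) hX1 (fun c => G (dv c)) hup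
  have s2 := sum_invol_zero (dn s n h ω) hX2 (fun c => Gd (dv c)) hdn
  have s3 : ∑ x ∈ X, (if 0 ≤ x then (1 : ZMod 2) else 0) = 0 := by
    have e1 : ∀ x : ℤ, (if 0 ≤ x then (1 : ZMod 2) else 0) = G (dv x) + Gd (dv x) := by
      intro x
      rw [hGd]
      simp only
      rw [← add_assoc, Perc.z2_add_self, zero_add]
      have h3 : (dv x).1 = x / 2 := rfl
      rw [h3]
      by_cases hx : 0 ≤ x
      · rw [if_pos hx, if_pos (by omega)]
      · rw [if_neg hx, if_neg (by omega)]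
    rw [Finset.sum_congr rfl (fun x _ => e1 x), Finset.sum_add_distrib]
    rw [show (∑ x ∈ X, G (dv x)) = 0 from s1, show (∑ x ∈ X, Gd (dv x)) = 0 from s2, add_zero]
  rw [← ZMod.natCast_eq_zero_iff_even, Finset.card_eq_sum_ones]
  push_cast
  rw [Finset.sum_filter]
  exact s3

end Pool.Agent.H89.Link

end

section

/-!
# LINK module `Final`

Let `h → ∞` through even numbers in `pr_up_dn` with `A` = the event in question, use `law_tendsto`.
-/

set_option autoImplicit false

open MeasureTheory ProbabilityTheory Filter Topology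

namespace Pool.Agent.H89.Link

open H56.EX
open Pool.Agent.H89.Perc (Vert Edge Config Pr half)

variable {L n : ℕ}

open Classical in
theorem pr_tendsto (hL : L = 2 * n) (hn : 1 ≤ n) {s : Pat L} (hs : IsStar s) {v : Pat L → ℂ}
    (hv : Stat v) (hS : ∑ P, v P ≠ 0) (A : Set (Pat L × Pat L)) :
    Tendsto (fun h : ℕ => ((Pr half {ω | (up s n (2 * h) ω, dn s n (2 * h) ω) ∈ A} : ℝ) : ℂ)) atTop
      (𝓝 ((∑ P : Pat L, ∑ Q : Pat L, if (P, Q) ∈ A then v P * v Q else 0) / (∑ P, v P) ^ 2)) := by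
  have h2 : Tendsto (fun h : ℕ => 2 * h) atTop atTop :=
    tendsto_atTop_mono (fun h => by simp only [id]; omega) tendsto_id
  have hlaw : ∀ Q : Pat L, Tendsto (fun h : ℕ => (law s (2 * h) Q : ℂ)) atTop
      (𝓝 (v Q / ∑ P, v P)) := fun Q => (law_tendsto hL hn hs hv hS Q).comp h2
  have hlim : (∑ P : Pat L, ∑ Q : Pat L, if (P, Q) ∈ A then v P * v Q else 0) / (∑ P, v P) ^ 2 =
      ∑ P : Pat L, ∑ Q : Pat L, if (P, Q) ∈ A then (v P / ∑ P, v P) * (v Q / ∑ P, v P) else 0 := by
    rw [Finset.sum_div]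
    refine Finset.sum_congr rfl fun P _ => ?_
    rw [Finset.sum_div]
    refine Finset.sum_congr rfl fun Q _ => ?_
    split_ifs
    · field_simp
    · simp
  rw [hlim]
  have heq : (fun h : ℕ => ((Pr half {ω | (up s n (2 * h) ω, dn s n (2 * h) ω) ∈ A} : ℝ) : ℂ)) =
      fun h : ℕ => ∑ P : Pat L, ∑ Q : Pat L,
        if (P, Q) ∈ A then (law s (2 * h) P : ℂ) * (law s (2 * h) Q : ℂ) else 0 := by
    funext h
    rw [pr_up_dn hL hn s (2 * h) A]
    push_cast
    refine Finset.sum_congr rfl fun P _ => Finset.sum_congr rfl fun Q _ => ?_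
    split_ifs <;> simp
  rw [heq]
  refine tendsto_finsetSum _ fun P _ => tendsto_finsetSum _ fun Q _ => ?_
  split_ifs
  · exact (hlaw P).mul (hlaw Q)
  · exact tendsto_const_nhds

/-- The limit of real numbers in `ℂ` is real. -/
private lemma real_limit {a : ℕ → ℝ} {z : ℂ} (h : Tendsto (fun n => (a n : ℂ)) atTop (𝓝 z)) :
    ∃ g : ℝ, (g : ℂ) = z ∧ Tendsto a atTop (𝓝 g) := by
  have h1 : Tendsto a atTop (𝓝 z.re) := by
    have := (Complex.continuous_re.tendsto z).comp h
    simpa [Function.comp_def] using this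
  have h2 : Tendsto (fun n => (a n : ℂ)) atTop (𝓝 (z.re : ℂ)) :=
    (Complex.continuous_ofReal.tendsto z.re).comp h1
  exact ⟨z.re, tendsto_nhds_unique h2 h, h1⟩

private lemma pr_mono {A B : Set Config} (h : A ⊆ B) : Pr half A ≤ Pr half B :=
  measureReal_mono h

open Classical in
/-- **One arm.** -/
theorem link_one (hL : L = 2 * n) (hn : 1 ≤ n) {v : Pat L → ℂ} (hv : Stat v) (hS : ∑ P, v P ≠ 0) :
    ∃ g : ℝ, (g : ℂ) = (∑ P : Pat L, ∑ Q : Pat L, if NoSurr P Q then v P * v Q else 0) /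
        (∑ P, v P) ^ 2 ∧
      (∀ k : ℕ, 2 * k < n → g ≤ Perc.arm half k) ∧
      ∀ H : ℕ, Pr half {ω | Perc.Conn (per n ω) (strip H) 0 ((n : ℤ), -(n : ℤ))} ≤ g := by
  obtain ⟨s, hs⟩ := exists_star hL hn
  have hT := pr_tendsto hL hn hs hv hS {PQ : Pat L × Pat L | NoSurr PQ.1 PQ.2}
  obtain ⟨g, hg, ht⟩ := real_limit hT
  refine ⟨g, ?_, ?_, ?_⟩
  · rw [hg]
    rfl
  · intro k hk
    refine le_of_tendsto' ht fun h => ?_
    rw [← pr_per_arm half hk]
    refine pr_mono fun ω hω => ?_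
    exact arm_of_noSurr hL hs (even_two_mul h) ω hω k
  · intro H
    refine ge_of_tendsto ht ?_
    filter_upwards [eventually_ge_atTop H] with h hh
    refine pr_mono fun ω hω => ?_
    exact noSurr_of_path hL hn hs (even_two_mul h) (by omega) ω hω

end Pool.Agent.H89.Link

end

section

/-! Topological lemmas on insertions of small arcs (EXACT project). -/

namespace Pool.Agent.H14.EX

open H56.EX

variable {L : ℕ}

lemma Cg_def {x y : ℤ} : Cg L x y ↔ ∃ a : ℤ, x = y + L * a := by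
  constructor
  · rintro ⟨a, ha⟩; exact ⟨a, by linarith⟩
  · rintro ⟨a, ha⟩; exact ⟨a, by rw [ha]; ring⟩

/-- congruent numbers at distance less than the modulus are equal -/
lemma Cg_eq {N : ℕ} {x y : ℤ} (h : Cg N x y) (h1 : x - y < N) (h2 : y - x < N) : x = y := by
  rcases dvd_cases h with h | h | h <;> omega

lemma phi_succ_of_not (hL : 1 ≤ L) {i y : ℤ} (h : ¬ Cg L y i) : phi L (i + 1) y = phi L i y := by
  obtain ⟨a, s, h0, h1, rfl⟩ := exists_form (N := (L : ℤ)) (by omega) i y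
  have hs : s ≠ 0 := by
    rintro rfl
    exact h ⟨a, by ring⟩
  rw [phi_form hL i a s h0 h1]
  have := phi_form hL (i + 1) a (s - 1) (by omega) (by omega)
  rw [show i + 1 + (s - 1) + (L : ℤ) * a = i + s + L * a by ring] at this
  rw [this]
  ring

lemma phi_succ_of (hL : 1 ≤ L) {i y : ℤ} (h : Cg L y i) : phi L (i + 1) y = phi L i y - 2 := by
  obtain ⟨a, rfl⟩ := Cg_def.1 h
  have e1 := phi_form hL i a 0 le_rfl (by omega)
  have e2 := phi_form hL (i + 1) (a - 1) (L - 1) (by omega) (by omega)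
  rw [show i + 0 + (L : ℤ) * a = i + L * a by ring] at e1
  rw [show i + 1 + ((L : ℤ) - 1) + L * (a - 1) = i + L * a by ring] at e2
  rw [e1, e2]
  ring

lemma phi_shift (i y : ℤ) : phi L (i + 1) (y + 1) = phi L i y + 1 := by
  unfold phi
  rw [show y + 1 - (i + 1) = y - i by ring]
  ring

/-- the position `phi L i y` for `y ≡ i` is `≡ i + 2` -/
lemma phi_Cg (hL : 1 ≤ L) {i y : ℤ} (h : Cg L y i) : Cg (L + 2) (phi L i y) (i + 2) := by
  obtain ⟨a, rfl⟩ := Cg_def.1 h
  have e1 := phi_form hL i a 0 le_rfl (by omega)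
  rw [show i + 0 + (L : ℤ) * a = i + L * a by ring] at e1
  rw [e1]
  exact ⟨a, by push_cast; ring⟩

/-- `e_{i+1}` moves a small arc at `i` to `i+1`. -/
lemma E_succ_ins (i : ℤ) (P : Pat L) : E (i + 1) (ins i P) = ins (i + 1) P := by
  have hL2 := P.two_le
  have hL : 1 ≤ L := le_trans (by norm_num) hL2
  apply Pat.ext
  funext x
  rcases pos_cases hL (i + 1) x with h | h | ⟨y, rfl⟩
  · rw [E.of_i _ _ h, ins_i _ _ h]
  · rw [E.of_succ _ _ h, ins_succ _ _ h]
  · rw [ins_phi]
    obtain ⟨n1, n2⟩ := phi_not hL (i + 1) y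
    by_cases hy : Cg L y i
    · -- the position is `≡ i`
      have e := phi_succ_of hL hy
      have c0 : Cg (L + 2) (phi L (i + 1) y) i := by
        rw [e]
        have := Cg.sub 2 (phi_Cg hL hy)
        rwa [show i + 2 - 2 = i by ring] at this
      have hmy : ¬ Cg L (P.m y) i := by
        intro h
        exact P.not_dvd_self y (Cg.trans' h (Cg.symm' hy))
      have e1 : (ins i P).m (phi L (i + 1) y) = phi L (i + 1) y + 1 := ins_i _ _ c0
      rw [E.of_m _ _ n1 n2 (by rw [e1]; exact Cg.add 1 c0), e1, e,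
        show phi L i y - 2 + 1 + 1 = phi L i y by ring, ins_phi, phi_succ_of_not hL hmy]
    · have e := phi_succ_of_not hL hy
      by_cases hmy : Cg L (P.m y) i
      · have e1 : (ins i P).m (phi L (i + 1) y) = phi L i (P.m y) := by rw [e, ins_phi]
        have c2 : Cg (L + 2) (phi L i (P.m y)) (i + 1 + 1) := by
          have := phi_Cg hL hmy
          rwa [show i + 2 = i + 1 + 1 by ring] at this
        rw [E.of_m_succ _ _ n1 n2 (by rw [e1]; exact c2), e1]
        have c1 : Cg (L + 2) (phi L i (P.m y) - 1) (i + 1) := by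
          have := Cg.sub 1 c2
          rwa [show i + 1 + 1 - 1 = i + 1 by ring] at this
        rw [ins_succ _ _ c1, phi_succ_of hL hmy]
        ring
      · have e1 : (ins i P).m (phi L (i + 1) y) = phi L (i + 1) (P.m y) := by
          rw [e, ins_phi, phi_succ_of_not hL hmy]
        obtain ⟨m1, m2⟩ := phi_not hL (i + 1) (P.m y)
        rw [E.other _ _ n1 n2 (by rw [e1]; exact m1) (by rw [e1]; exact m2), e1]

/-- rotation of an insertion -/
lemma rot_ins (i : ℤ) (P : Pat L) : rot (ins i P) = ins (i + 1) (rot P) := by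
  have hL : 1 ≤ L := le_trans (by norm_num) P.two_le
  apply Pat.ext
  funext x
  rw [rot_m]
  rcases pos_cases hL i (x - 1) with h | h | ⟨y, hy⟩
  · rw [ins_i _ _ h]
    have h' := Cg.add 1 h
    rw [show x - 1 + 1 = x by ring] at h'
    rw [ins_i _ _ h']
    ring
  · rw [ins_succ _ _ h]
    have h' := Cg.add 1 h
    rw [show x - 1 + 1 = x by ring] at h'
    rw [ins_succ _ _ h']
    ring
  · rw [hy, ins_phi]
    have e : x = phi L (i + 1) (y + 1) := by rw [phi_shift, ← hy]; ring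
    rw [e, ins_phi, rot_m, show y + 1 - 1 = y by ring, phi_shift]

/-- positions `j`, `j+1` are not moved by an insertion at `j+2` -/
lemma phi_far (hL2 : 2 ≤ L) (j a : ℤ) :
    phi L (j + 2) (j + L * a) = j + (L + 2) * a ∧
    phi L (j + 2) (j + 1 + L * a) = j + 1 + (L + 2) * a := by
  have hL : 1 ≤ L := by omega
  have e1 := phi_form hL (j + 2) (a - 1) (L - 2) (by omega) (by omega)
  have e2 := phi_form hL (j + 2) (a - 1) (L - 1) (by omega) (by omega)
  rw [show j + 2 + ((L : ℤ) - 2) + L * (a - 1) = j + L * a by ring] at e1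
  rw [show j + 2 + ((L : ℤ) - 1) + L * (a - 1) = j + 1 + L * a by ring] at e2
  rw [e1, e2]
  constructor <;> ring

lemma phi_far_Cg (hL2 : 2 ≤ L) (j y : ℤ) :
    (Cg (L + 2) (phi L (j + 2) y) j ↔ Cg L y j) ∧
    (Cg (L + 2) (phi L (j + 2) y) (j + 1) ↔ Cg L y (j + 1)) := by
  have hL : 1 ≤ L := by omega
  refine ⟨⟨?_, ?_⟩, ⟨?_, ?_⟩⟩
  · intro h
    obtain ⟨a, ha⟩ := Cg_def.1 h
    have e : phi L (j + 2) y = phi L (j + 2) (j + L * a) := by
      rw [(phi_far hL2 j a).1, ha]; push_cast; ring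
    rw [phi_inj hL e]
    exact ⟨a, by ring⟩
  · intro h
    obtain ⟨a, rfl⟩ := Cg_def.1 h
    rw [(phi_far hL2 j a).1]
    exact ⟨a, by push_cast; ring⟩
  · intro h
    obtain ⟨a, ha⟩ := Cg_def.1 h
    have e : phi L (j + 2) y = phi L (j + 2) (j + 1 + L * a) := by
      rw [(phi_far hL2 j a).2, ha]; push_cast; ring
    rw [phi_inj hL e]
    exact ⟨a, by ring⟩
  · intro h
    obtain ⟨a, rfl⟩ := Cg_def.1 h
    rw [(phi_far hL2 j a).2]
    exact ⟨a, by push_cast; ring⟩

lemma phi_far_add (hL2 : 2 ≤ L) {j y : ℤ} (h : Cg L y j) :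
    phi L (j + 2) (y + 1) = phi L (j + 2) y + 1 := by
  obtain ⟨a, rfl⟩ := Cg_def.1 h
  rw [(phi_far hL2 j a).1, show j + (L : ℤ) * a + 1 = j + 1 + L * a by ring,
    (phi_far hL2 j a).2]
  ring

lemma phi_far_sub (hL2 : 2 ≤ L) {j y : ℤ} (h : Cg L y (j + 1)) :
    phi L (j + 2) (y - 1) = phi L (j + 2) y - 1 := by
  have h' : Cg L (y - 1) j := by
    have := Cg.sub 1 h
    rwa [show j + 1 - 1 = j by ring] at this
  have := phi_far_add hL2 h'
  rw [show y - 1 + 1 = y by ring] at this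
  rw [this]
  ring

/-- `e_j` commutes with the insertion at `j + 2` -/
lemma E_ins_far (j : ℤ) (P : Pat L) : E j (ins (j + 2) P) = ins (j + 2) (E j P) := by
  have hL2 := P.two_le
  have hL : 1 ≤ L := by omega
  apply Pat.ext
  funext x
  rcases pos_cases hL (j + 2) x with h | h | ⟨y, rfl⟩
  · have n1 : ¬ Cg (L + 2) x j := by
      intro h'
      have h2 : Cg (L + 2) (j + 2) j := Cg.trans' (Cg.symm' h) h'
      have := Cg_eq h2 (by push_cast; omega) (by push_cast; omega)
      omega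
    have n2 : ¬ Cg (L + 2) x (j + 1) := by
      intro h'
      have h2 : Cg (L + 2) (j + 2) (j + 1) := Cg.trans' (Cg.symm' h) h'
      have := Cg_eq h2 (by push_cast; omega) (by push_cast; omega)
      omega
    have e1 : (ins (j + 2) P).m x = x + 1 := ins_i _ _ h
    have hx1 := Cg.add 1 h
    have m1 : ¬ Cg (L + 2) (x + 1) j := by
      intro h'
      have h2 : Cg (L + 2) (j + 2 + 1) j := Cg.trans' (Cg.symm' hx1) h'
      have := Cg_eq h2 (by push_cast; omega) (by push_cast; omega)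
      omega
    have m2 : ¬ Cg (L + 2) (x + 1) (j + 1) := by
      intro h'
      have h2 : Cg (L + 2) (j + 2 + 1) (j + 1) := Cg.trans' (Cg.symm' hx1) h'
      have := Cg_eq h2 (by push_cast; omega) (by push_cast; omega)
      omega
    rw [E.other _ _ n1 n2 (by rw [e1]; exact m1) (by rw [e1]; exact m2), e1, ins_i _ _ h]
  · have n1 : ¬ Cg (L + 2) x j := by
      intro h'
      have h2 : Cg (L + 2) (j + 2 + 1) j := Cg.trans' (Cg.symm' h) h'
      have := Cg_eq h2 (by push_cast; omega) (by push_cast; omega)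
      omega
    have n2 : ¬ Cg (L + 2) x (j + 1) := by
      intro h'
      have h2 : Cg (L + 2) (j + 2 + 1) (j + 1) := Cg.trans' (Cg.symm' h) h'
      have := Cg_eq h2 (by push_cast; omega) (by push_cast; omega)
      omega
    have e1 : (ins (j + 2) P).m x = x - 1 := ins_succ _ _ h
    have hx1 := Cg.sub 1 h
    rw [show j + 2 + 1 - 1 = j + 2 by ring] at hx1
    have m1 : ¬ Cg (L + 2) (x - 1) j := by
      intro h'
      have h2 : Cg (L + 2) (j + 2) j := Cg.trans' (Cg.symm' hx1) h'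
      have := Cg_eq h2 (by push_cast; omega) (by push_cast; omega)
      omega
    have m2 : ¬ Cg (L + 2) (x - 1) (j + 1) := by
      intro h'
      have h2 : Cg (L + 2) (j + 2) (j + 1) := Cg.trans' (Cg.symm' hx1) h'
      have := Cg_eq h2 (by push_cast; omega) (by push_cast; omega)
      omega
    rw [E.other _ _ n1 n2 (by rw [e1]; exact m1) (by rw [e1]; exact m2), e1, ins_succ _ _ h]
  · rw [ins_phi]
    obtain ⟨c1, c2⟩ := phi_far_Cg hL2 j y
    obtain ⟨d1, d2⟩ := phi_far_Cg hL2 j (P.m y)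
    have e1 : (ins (j + 2) P).m (phi L (j + 2) y) = phi L (j + 2) (P.m y) := ins_phi _ _ _
    by_cases hy1 : Cg L y j
    · rw [E.of_i _ _ (c1.2 hy1), E.of_i _ _ hy1, phi_far_add hL2 hy1]
    by_cases hy2 : Cg L y (j + 1)
    · rw [E.of_succ _ _ (c2.2 hy2), E.of_succ _ _ hy2, phi_far_sub hL2 hy2]
    have n1 : ¬ Cg (L + 2) (phi L (j + 2) y) j := fun h => hy1 (c1.1 h)
    have n2 : ¬ Cg (L + 2) (phi L (j + 2) y) (j + 1) := fun h => hy2 (c2.1 h)
    by_cases hm1 : Cg L (P.m y) j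
    · rw [E.of_m _ _ n1 n2 (by rw [e1]; exact d1.2 hm1), E.of_m _ _ hy1 hy2 hm1, e1,
        ← phi_far_add hL2 hm1, ins_phi]
    by_cases hm2 : Cg L (P.m y) (j + 1)
    · rw [E.of_m_succ _ _ n1 n2 (by rw [e1]; exact d2.2 hm2), E.of_m_succ _ _ hy1 hy2 hm2, e1,
        ← phi_far_sub hL2 hm2, ins_phi]
    rw [E.other _ _ n1 n2 (by rw [e1]; exact fun h => hm1 (d1.1 h))
      (by rw [e1]; exact fun h => hm2 (d2.1 h)), E.other _ _ hy1 hy2 hm1 hm2, e1]

lemma rot_injective : Function.Injective (rot (L := L)) := by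
  intro P Q h
  apply Pat.ext
  funext x
  have h1 : (rot P).m (x + 1) = (rot Q).m (x + 1) := by rw [h]
  rw [rot_m, rot_m, show x + 1 - 1 = x by ring] at h1
  linarith

lemma rot_surjective : Function.Surjective (rot (L := L)) :=
  (Finite.injective_iff_surjective).1 rot_injective

/-- The base pattern of size `L+2`. -/
lemma base_ins (P : Pat L) (h : IsBase P) : ∃ B : Pat (L + 2), IsBase B ∧ ins 0 P = rot B := by
  have hL2 := P.two_le
  have hL : 1 ≤ L := by omega
  obtain ⟨B, hB⟩ := rot_surjective (ins 0 P)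
  refine ⟨B, ?_, hB.symm⟩
  intro x h1 h2
  push_cast at h1 h2
  have e : B.m x = (ins 0 P).m (x + 1) - 1 := by
    rw [← hB, rot_m, show x + 1 - 1 = x by ring]; ring
  rw [e]
  have pos : ∀ s : ℤ, 0 ≤ s → s < L → phi L 0 s = s + 2 := by
    intro s hs0 hs1
    have := phi_form hL 0 0 s hs0 hs1
    rw [show (0 : ℤ) + s + L * 0 = s by ring] at this
    rw [this]; ring
  have neg : ∀ s : ℤ, -(L : ℤ) ≤ s → s < 0 → phi L 0 s = s := by
    intro s hs0 hs1
    have := phi_form hL 0 (-1) (s + L) (by omega) (by omega)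
    rw [show (0 : ℤ) + (s + L) + L * (-1) = s by ring] at this
    rw [this]; ring
  rcases lt_trichotomy x (-1) with hx | hx | hx
  · -- `x + 1 < 0`
    have e1 : x + 1 = phi L 0 (x + 1) := (neg (x + 1) (by omega) (by omega)).symm
    have e2 : (ins 0 P).m (x + 1) = phi L 0 (P.m (x + 1)) := by
      conv_lhs => rw [e1]
      exact ins_phi _ _ _
    rw [e2, h (x + 1) (by omega) (by omega), pos _ (by omega) (by omega)]
    ring
  · subst hx
    have c : Cg (L + 2) (-1 + 1) 0 := Cg.refl' _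
    rw [ins_i _ _ c]
    ring
  · rcases eq_or_lt_of_le (show 0 ≤ x by omega) with hx0 | hx0
    · subst hx0
      have c : Cg (L + 2) (0 + 1) (0 + 1) := Cg.refl' _
      rw [ins_succ _ _ c]
      ring
    · have e1 : x + 1 = phi L 0 (x - 1) := by
        rw [pos (x - 1) (by omega) (by omega)]; ring
      have e2 : (ins 0 P).m (x + 1) = phi L 0 (P.m (x - 1)) := by
        rw [e1]
        exact ins_phi _ _ _
      rw [e2, h (x - 1) (by omega) (by omega), neg _ (by omega) (by omega)]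
      ring

end Pool.Agent.H14.EX

end

section

/-!
# Interface for the construction of the polynomial qKZ solution

`PsiPre Ψ` collects the properties of `Ψ` which are obtained directly from the construction; the arc
recursion (`arc_zero`, `arc` of `PsiProps`) is derived from `PsiPre` and the triangularity lemma.
-/

namespace Pool.Agent.H12.QKZ

open H56.EX

/-- The properties of the qKZ solution obtained directly from the construction. -/
structure PsiPre (Ψ : ∀ L : ℕ, Pat L → (ℤ → ℂ) → ℂ) : Prop where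
  congr : ∀ (L : ℕ) (P : Pat L) (ζ ζ' : ℤ → ℂ), (∀ x : ℤ, 0 ≤ x → x < L → ζ x = ζ' x) →
    Ψ L P ζ = Ψ L P ζ'
  mv : ∀ (L : ℕ) (P : Pat L), ∃ p : MvPolynomial (Fin L) ℂ, ∀ ζ : ℤ → ℂ,
    Ψ L P ζ = MvPolynomial.eval (fun k : Fin L => ζ ((k : ℕ) : ℤ)) p
  exch : ∀ (L : ℕ) (P : Pat L) (ζ : ℤ → ℂ), Per L ζ → ∀ i : ℤ,
    (q * ζ (i + 1) - q⁻¹ * ζ i) * Ψ L P (swp L i ζ) =
      (q * ζ i - q⁻¹ * ζ (i + 1)) * Ψ L P ζ +
        (ζ i - ζ (i + 1)) * eop i (fun P' => Ψ L P' ζ) P
  rot : ∀ (L : ℕ) (P : Pat L) (ζ : ℤ → ℂ), Per L ζ →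
    Ψ L (rot P) (fun x => ζ (x - 1)) = Ψ L P ζ
  base : ∀ (L : ℕ) (P : Pat L) (ζ : ℤ → ℂ), IsBase P →
    Ψ L P ζ = ∏ j ∈ Finset.range L, ∏ i ∈ Finset.range j,
      (q * ζ j - q⁻¹ * ζ i) / (q - q⁻¹)

/-- The statement of the triangularity lemma: a family satisfying the exchange relations and
rotation covariance on a set `O` of (states of) parameters with neighbouring parameters different,
and whose base component vanishes on `O`, vanishes on `O`. -/
def Triangular : Prop :=
  ∀ (L : ℕ) (Ω : Type) (O : Set Ω) (s : ℤ → Ω → Ω) (r : Ω → Ω) (z : Ω → ℤ → ℂ)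
    (D : Pat L → Ω → ℂ),
    (∀ i, ∀ ω ∈ O, s i ω ∈ O) →
    (∀ ω ∈ O, ∃ ω' ∈ O, r ω' = ω) →
    (∀ ω ∈ O, ∀ i, z ω i ≠ z ω (i + 1)) →
    (∀ (P : Pat L), ∀ ω ∈ O, ∀ i : ℤ,
      (q * z ω (i + 1) - q⁻¹ * z ω i) * D P (s i ω) =
        (q * z ω i - q⁻¹ * z ω (i + 1)) * D P ω +
          (z ω i - z ω (i + 1)) * eop i (fun P' => D P' ω) P) →
    (∀ (P : Pat L), ∀ ω ∈ O, D (rot P) (r ω) = D P ω) →
    (∀ (P : Pat L), IsBase P → ∀ ω ∈ O, D P ω = 0) →
    ∀ (P : Pat L), ∀ ω ∈ O, D P ω = 0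

end Pool.Agent.H12.QKZ

end

section

/-! Arc recursion of the polynomial qKZ solution (EXACT project): `arc_zero_of`, `arc_of`. -/

namespace Pool.Agent.H14.EX

open H56.EX Pool.Agent.H12.QKZ

variable {L : ℕ}

/-! ### Push-forwards -/

/-- push-forward of a vector along a map of patterns -/
noncomputable def pf {L M : ℕ} (f : Pat L → Pat M) (v : Pat L → ℂ) (Q : Pat M) : ℂ :=
  ∑ P : Pat L, if f P = Q then v P else 0

lemma eop_eq_pf (i : ℤ) (v : Pat L → ℂ) : eop i v = pf (E i) v := rfl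

lemma pf_comp {L M N : ℕ} (f : Pat M → Pat N) (g : Pat L → Pat M) (v : Pat L → ℂ) :
    pf f (pf g v) = pf (fun P => f (g P)) v := by
  funext Q
  unfold pf
  have h1 : ∀ P' : Pat M, (if f P' = Q then ∑ P : Pat L, (if g P = P' then v P else 0) else 0) =
      ∑ P : Pat L, (if g P = P' then (if f (g P) = Q then v P else 0) else 0) := by
    intro P'
    split_ifs with h
    · apply Finset.sum_congr rfl
      intro P _
      by_cases h2 : g P = P'
      · rw [if_pos h2, if_pos h2, h2, if_pos h]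
      · rw [if_neg h2, if_neg h2]
    · symm
      apply Finset.sum_eq_zero
      intro P _
      by_cases h2 : g P = P'
      · rw [if_pos h2, h2, if_neg h]
      · rw [if_neg h2]
  simp only [h1]
  rw [Finset.sum_comm]
  apply Finset.sum_congr rfl
  intro P _
  rw [Finset.sum_ite_eq]
  simp

/-- push-forward of a vector supported on the range of an injective map -/
lemma sum_ins (i : ℤ) (g : Pat (L + 2) → ℂ) (hL : 2 ≤ L)
    (h : ∀ P, P.m i ≠ i + 1 → g P = 0) : ∑ P : Pat (L + 2), g P = ∑ P : Pat L, g (ins i P) := by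
  symm
  apply Fintype.sum_of_injective (ins i) (ins_injective i)
  · intro P hP
    apply h
    intro h2
    obtain ⟨Q, hQ⟩ := exists_ins hL i P h2
    exact hP ⟨Q, hQ.symm⟩
  · intro P; rfl

/-! ### `arc_zero` -/

/-- no pattern is mapped by `E i` to a pattern without small arc at `i` -/
lemma eop_zero (i : ℤ) (v : Pat L → ℂ) {P : Pat L} (h : P.m i ≠ i + 1) : eop i v P = 0 := by
  unfold eop
  apply Finset.sum_eq_zero
  intro P' _
  rw [if_neg]
  intro h2
  apply h
  rw [← h2, E.self]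

variable {Ψ : ∀ L : ℕ, Pat L → (ℤ → ℂ) → ℂ}

lemma q4 : q ^ 4 = q := by
  have := _root_.H56.EX.q_cube
  calc q ^ 4 = q ^ 3 * q := by ring
    _ = q := by rw [this, one_mul]

/-- continuity of a component along a curve of parameters -/
lemma Psi_continuous (h : PsiPre Ψ) (P : Pat L) (γ : ℂ → ℤ → ℂ)
    (hγ : ∀ x : ℤ, Continuous fun t => γ t x) : Continuous fun t => Ψ L P (γ t) := by
  obtain ⟨p, hp⟩ := h.mv L P
  have e : (fun t => Ψ L P (γ t)) =
      fun t => MvPolynomial.eval (fun k : Fin L => γ t ((k : ℕ) : ℤ)) p := by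
    funext t
    exact hp _
  rw [e]
  exact (MvPolynomial.continuous_eval p).comp (continuous_pi fun k => hγ _)

lemma not_Cg_self_succ (hL : 2 ≤ L) {x i : ℤ} (h : Cg L x i) : ¬ Cg L x (i + 1) := fun h' =>
  not_Cg_succ hL i (Cg.trans' (Cg.symm' h) h')

theorem arc_zero_of (h : PsiPre Ψ) : ∀ (L : ℕ) (P : Pat L) (ζ : ℤ → ℂ), Per L ζ → ∀ i : ℤ,
    ζ i = q ^ 2 * ζ (i + 1) → P.m i ≠ i + 1 → Ψ L P ζ = 0 := by
  intro L P ζ hper i hi hP
  have hL2 := P.two_le
  -- nonzero case
  have key : ∀ ζ : ℤ → ℂ, Per L ζ → ζ i = q ^ 2 * ζ (i + 1) → ζ (i + 1) ≠ 0 → Ψ L P ζ = 0 := by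
    intro ζ hper hi h0
    have hex := h.exch L P ζ hper i
    rw [eop_zero i _ hP, mul_zero, add_zero, hi, q_inv] at hex
    have e1 : q * ζ (i + 1) - q ^ 2 * (q ^ 2 * ζ (i + 1)) = 0 := by
      linear_combination (- ζ (i + 1)) * q4
    have e2 : q * (q ^ 2 * ζ (i + 1)) - q ^ 2 * ζ (i + 1) = (1 - q ^ 2) * ζ (i + 1) := by
      linear_combination (ζ (i + 1)) * _root_.H56.EX.q_cube
    rw [e1, e2, zero_mul] at hex
    have h1 : (1 - q ^ 2) ≠ 0 := by
      intro h1
      have h2 : q ^ 2 = 1 := by linear_combination -h1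
      have h3 := _root_.H56.EX.q_cube
      have h4 : q = 1 := by
        calc q = q ^ 2 * q := by rw [h2, one_mul]
          _ = q ^ 3 := by ring
          _ = 1 := h3
      exact q_ne_one h4
    rcases mul_eq_zero.1 hex.symm with h2 | h2
    · exact absurd h2 (mul_ne_zero h1 h0)
    · exact h2
  by_cases h0 : ζ (i + 1) = 0
  · -- the curve `t ↦ (q² t, t)`
    let γ : ℂ → ℤ → ℂ := fun t => upd L (upd L ζ i (q ^ 2 * t)) (i + 1) t
    have hγ : ∀ x : ℤ, Continuous fun t => γ t x := by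
      intro x
      simp only [γ, upd]
      split_ifs
      · exact continuous_id
      · fun_prop
      · exact continuous_const
    have c1 : Cg L (i + 1) (i + 1) := Cg.refl' _
    have c2 : Cg L i i := Cg.refl' _
    have c3 : ¬ Cg L i (i + 1) := not_Cg_succ hL2 i
    have hγ1 : ∀ t, γ t (i + 1) = t := by
      intro t; simp only [γ, upd, if_pos c1]
    have hγ0 : ∀ t, γ t i = q ^ 2 * t := by
      intro t; simp only [γ, upd, if_neg c3, if_pos c2]
    have hγper : ∀ t, Per L (γ t) := by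
      intro t x
      have e1 : Cg L (x + L) (i + 1) ↔ Cg L x (i + 1) := by
        have hx : Cg L (x + L) x := ⟨1, by ring⟩
        exact ⟨fun h => Cg.trans' (Cg.symm' hx) h, fun h => Cg.trans' hx h⟩
      have e2 : Cg L (x + L) i ↔ Cg L x i := by
        have hx : Cg L (x + L) x := ⟨1, by ring⟩
        exact ⟨fun h => Cg.trans' (Cg.symm' hx) h, fun h => Cg.trans' hx h⟩
      simp only [γ, upd, e1, e2, hper x]
    have hc := Psi_continuous h P γ hγ
    have hz : ∀ t : ℂ, t ≠ 0 → Ψ L P (γ t) = 0 := by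
      intro t ht
      exact key (γ t) (hγper t) (by rw [hγ0, hγ1]) (by rw [hγ1]; exact ht)
    have hall : (fun t => Ψ L P (γ t)) = fun _ => (0 : ℂ) := by
      apply Continuous.ext_on (s := ({0}ᶜ : Set ℂ)) (dense_compl_singleton 0) hc continuous_const
      intro t ht
      exact hz t ht
    have h00 : Ψ L P (γ 0) = 0 := congrFun hall 0
    have e : γ 0 = ζ := by
      funext x
      simp only [γ, upd]
      split_ifs with h1 h2
      · obtain ⟨a, rfl⟩ := Cg_def.1 h1
        have : ζ (i + 1 + L * a) = ζ (i + 1) := by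
          clear h1
          induction a using Int.induction_on with
          | zero => simp
          | succ a ih =>
            rw [show i + 1 + (L : ℤ) * (a + 1) = i + 1 + L * a + L by ring, hper, ih]
          | pred a ih =>
            have := hper (i + 1 + (L : ℤ) * (-a - 1))
            rw [show i + 1 + (L : ℤ) * (-a - 1) + L = i + 1 + L * -a by ring, ih] at this
            exact this.symm
        rw [this, h0]
      · obtain ⟨a, rfl⟩ := Cg_def.1 h2
        have : ζ (i + L * a) = ζ i := by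
          clear h2 h1
          induction a using Int.induction_on with
          | zero => simp
          | succ a ih =>
            rw [show i + (L : ℤ) * (a + 1) = i + L * a + L by ring, hper, ih]
          | pred a ih =>
            have := hper (i + (L : ℤ) * (-a - 1))
            rw [show i + (L : ℤ) * (-a - 1) + L = i + L * -a by ring, ih] at this
            exact this.symm
        rw [this, hi, h0]
      · rfl
    rw [e] at h00
    exact h00
  · exact key ζ hper hi h0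

/-- periodicity by multiples of the period -/
lemma Per_mul {ξ : ℤ → ℂ} (h : Per L ξ) (x a : ℤ) : ξ (x + L * a) = ξ x := by
  induction a using Int.induction_on with
  | zero => simp
  | succ a ih => rw [show x + (L : ℤ) * (a + 1) = x + L * a + L by ring, h, ih]
  | pred a ih =>
    have := h (x + (L : ℤ) * (-a - 1))
    rw [show x + (L : ℤ) * (-a - 1) + L = x + L * -a by ring, ih] at this
    exact this.symm

lemma Per_Cg {ξ : ℤ → ℂ} (h : Per L ξ) {x y : ℤ} (hxy : Cg L x y) : ξ x = ξ y := by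
  obtain ⟨a, rfl⟩ := Cg_def.1 hxy
  exact Per_mul h y a

/-! ### Insertion of the parameters `q² w, w` -/

/-- the parameters `ξ` with `q² w, w` inserted at `i, i+1` -/
noncomputable def insp (L : ℕ) (i : ℤ) (w : ℂ) (ξ : ℤ → ℂ) : ℤ → ℂ :=
  fun x => if Cg (L + 2) x i then q ^ 2 * w else if Cg (L + 2) x (i + 1) then w else ξ (psi L i x)

lemma insp_i {i x : ℤ} {w : ℂ} {ξ : ℤ → ℂ} (h : Cg (L + 2) x i) :
    insp L i w ξ x = q ^ 2 * w := by
  simp only [insp, if_pos h]

lemma insp_succ {i x : ℤ} {w : ℂ} {ξ : ℤ → ℂ} (h : Cg (L + 2) x (i + 1)) :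
    insp L i w ξ x = w := by
  have h' : ¬ Cg (L + 2) x i := fun h' => not_Cg_self_succ (by omega) h' h
  simp only [insp, if_neg h', if_pos h]

lemma insp_phi (hL : 1 ≤ L) (i y : ℤ) (w : ℂ) (ξ : ℤ → ℂ) :
    insp L i w ξ (phi L i y) = ξ y := by
  have := phi_not hL i y
  simp only [insp, if_neg this.1, if_neg this.2, psi_phi hL]

lemma insp_Per (hL : 1 ≤ L) {ξ : ℤ → ℂ} (h : Per L ξ) (i : ℤ) (w : ℂ) :
    Per (L + 2) (insp L i w ξ) := by
  intro x
  have hd : Cg (L + 2) (x + ((L + 2 : ℕ) : ℤ)) x := ⟨1, by ring⟩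
  rcases pos_cases hL i x with hx | hx | ⟨y, rfl⟩
  · rw [insp_i hx, insp_i (Cg.trans' hd hx)]
  · rw [insp_succ hx, insp_succ (Cg.trans' hd hx)]
  · have e : phi L i y + ((L + 2 : ℕ) : ℤ) = phi L i (y + L) := by
      rw [phi_add_L hL]; push_cast; ring
    rw [e, insp_phi hL, insp_phi hL, h]

/-- every periodic family with `ζ_i = q² ζ_{i+1}` is an insertion -/
lemma eq_insp (hL : 1 ≤ L) {ζ : ℤ → ℂ} (h : Per (L + 2) ζ) (i : ℤ)
    (hi : ζ i = q ^ 2 * ζ (i + 1)) :
    ζ = insp L i (ζ (i + 1)) (fun y => ζ (phi L i y)) := by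
  funext x
  rcases pos_cases hL i x with hx | hx | ⟨y, rfl⟩
  · rw [insp_i hx, Per_Cg h hx, hi]
  · rw [insp_succ hx, Per_Cg h hx]
  · rw [insp_phi hL]

lemma phi_Per (hL : 1 ≤ L) {ζ : ℤ → ℂ} (h : Per (L + 2) ζ) (i : ℤ) :
    Per L (fun y => ζ (phi L i y)) := by
  intro y
  show ζ (phi L i (y + L)) = ζ (phi L i y)
  rw [phi_add_L hL]
  have := h (phi L i y)
  push_cast at this
  exact this

lemma swp_i {N : ℕ} {i x : ℤ} {ζ : ℤ → ℂ} (h : Cg N x i) : swp N i ζ x = ζ (x + 1) := by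
  simp only [swp, if_pos h]

lemma swp_succ {N : ℕ} (hN : 2 ≤ N) {i x : ℤ} {ζ : ℤ → ℂ} (h : Cg N x (i + 1)) :
    swp N i ζ x = ζ (x - 1) := by
  have h' : ¬ Cg N x i := fun h' => not_Cg_self_succ hN h' h
  simp only [swp, if_neg h', if_pos h]

lemma swp_other {N : ℕ} {i x : ℤ} {ζ : ℤ → ℂ} (h : ¬ Cg N x i) (h' : ¬ Cg N x (i + 1)) :
    swp N i ζ x = ζ x := by
  simp only [swp, if_neg h, if_neg h']

/-- moving the inserted pair by one step -/
lemma insp_move (hL : 2 ≤ L) (i : ℤ) (w : ℂ) (ξ : ℤ → ℂ) :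
    swp (L + 2) i (swp (L + 2) (i + 1) (insp L i w ξ)) = insp L (i + 1) w ξ := by
  have hL1 : 1 ≤ L := by omega
  have far : ∀ {x c d : ℤ}, Cg (L + 2) x c → c ≠ d → c - d < L + 2 → d - c < L + 2 →
      ¬ Cg (L + 2) x d := by
    intro x c d h1 h2 h3 h4 h5
    exact h2 (Cg_eq (Cg.trans' (Cg.symm' h1) h5) (by push_cast; omega) (by push_cast; omega))
  funext x
  rcases pos_cases hL1 (i + 1) x with hx | hx | ⟨y, rfl⟩
  · -- `x ≡ i + 1`
    have hx' : Cg (L + 2) (x - 1) i := by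
      have := Cg.sub 1 hx
      rwa [show i + 1 - 1 = i by ring] at this
    rw [swp_succ (by omega) hx, swp_other (far hx' (by omega) (by omega) (by omega))
      (far hx' (by omega) (by omega) (by omega)), insp_i hx', insp_i hx]
  · -- `x ≡ i + 2`
    have hx' : Cg (L + 2) (x - 1) (i + 1) := by
      have := Cg.sub 1 hx
      rwa [show i + 1 + 1 - 1 = i + 1 by ring] at this
    rw [swp_other (far hx (by omega) (by omega) (by omega))
      (far hx (by omega) (by omega) (by omega)), swp_succ (by omega) hx, insp_succ hx',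
      insp_succ hx]
  · rw [insp_phi hL1]
    obtain ⟨n1, n2⟩ := phi_not hL1 (i + 1) y
    by_cases hy : Cg L y i
    · have e := phi_succ_of hL1 hy
      have c2 := phi_Cg hL1 hy
      have c0 : Cg (L + 2) (phi L (i + 1) y) i := by
        rw [e]
        have := Cg.sub 2 c2
        rwa [show i + 2 - 2 = i by ring] at this
      rw [swp_i c0, swp_i (Cg.add 1 c0), e, show phi L i y - 2 + 1 + 1 = phi L i y by ring,
        insp_phi hL1]
    · have e := phi_succ_of_not hL1 hy
      have n0 : ¬ Cg (L + 2) (phi L (i + 1) y) i := by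
        rw [e]; exact (phi_not hL1 i y).1
      rw [swp_other n0 n1, swp_other n1 n2, e, insp_phi hL1]

/-- exchange of parameters away from the inserted pair -/
lemma insp_swp (hL : 2 ≤ L) (j : ℤ) (w : ℂ) (ξ : ℤ → ℂ) :
    swp (L + 2) j (insp L (j + 2) w ξ) = insp L (j + 2) w (swp L j ξ) := by
  have hL1 : 1 ≤ L := by omega
  have far : ∀ {x c d : ℤ}, Cg (L + 2) x c → c ≠ d → c - d < L + 2 → d - c < L + 2 →
      ¬ Cg (L + 2) x d := by
    intro x c d h1 h2 h3 h4 h5
    exact h2 (Cg_eq (Cg.trans' (Cg.symm' h1) h5) (by push_cast; omega) (by push_cast; omega))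
  funext x
  rcases pos_cases hL1 (j + 2) x with hx | hx | ⟨y, rfl⟩
  · rw [swp_other (far hx (by omega) (by omega) (by omega))
      (far hx (by omega) (by omega) (by omega)), insp_i hx, insp_i hx]
  · rw [swp_other (far hx (by omega) (by omega) (by omega))
      (far hx (by omega) (by omega) (by omega)), insp_succ hx, insp_succ hx]
  · rw [insp_phi hL1]
    obtain ⟨c1, c2⟩ := phi_far_Cg hL j y
    by_cases hy1 : Cg L y j
    · rw [swp_i (c1.2 hy1), swp_i hy1, ← phi_far_add hL hy1, insp_phi hL1]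
    by_cases hy2 : Cg L y (j + 1)
    · rw [swp_succ (by omega) (c2.2 hy2), swp_succ hL hy2, ← phi_far_sub hL hy2, insp_phi hL1]
    rw [swp_other (fun h => hy1 (c1.1 h)) (fun h => hy2 (c2.1 h)), swp_other hy1 hy2,
      insp_phi hL1]

/-- rotation of the inserted parameters -/
lemma insp_rot (hL : 1 ≤ L) (i : ℤ) (w : ℂ) (ξ : ℤ → ℂ) :
    (fun x => insp L i w ξ (x - 1)) = insp L (i + 1) w (fun x => ξ (x - 1)) := by
  funext x
  rcases pos_cases hL i (x - 1) with h | h | ⟨y, hy⟩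
  · have h' := Cg.add 1 h
    rw [show x - 1 + 1 = x by ring] at h'
    rw [insp_i h, insp_i h']
  · have h' := Cg.add 1 h
    rw [show x - 1 + 1 = x by ring] at h'
    rw [insp_succ h, insp_succ h']
  · have e : x = phi L (i + 1) (y + 1) := by rw [phi_shift, ← hy]; ring
    rw [hy, insp_phi hL, e, insp_phi hL, show y + 1 - 1 = y by ring]

lemma insp_apply_j (hL : 2 ≤ L) (j : ℤ) (w : ℂ) (ξ : ℤ → ℂ) :
    insp L (j + 2) w ξ j = ξ j ∧ insp L (j + 2) w ξ (j + 1) = ξ (j + 1) := by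
  have hL1 : 1 ≤ L := by omega
  have e := phi_far hL j 0
  simp only [mul_zero, add_zero] at e
  have h1 := insp_phi hL1 (j + 2) j w ξ
  have h2 := insp_phi hL1 (j + 2) (j + 1) w ξ
  rw [e.1] at h1
  rw [e.2] at h2
  exact ⟨h1, h2⟩

/-! ### The inserted vector -/

/-- `e_i` fixes the solution at `ζ_i = q² ζ_{i+1}` -/
lemma eop_fix (h : PsiPre Ψ) {N : ℕ} {ζ : ℤ → ℂ} (hper : Per N ζ) {i : ℤ}
    (hi : ζ i = q ^ 2 * ζ (i + 1)) : eop i (fun P => Ψ N P ζ) = fun P => Ψ N P ζ := by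
  funext Q
  unfold eop
  have e : ∀ P' : Pat N, (if E i P' = Q then Ψ N P' ζ else 0) =
      (if P' = Q then Ψ N P' ζ else 0) := by
    intro P'
    by_cases hP : P'.m i = i + 1
    · rw [E.eq_self P' i hP]
    · rw [arc_zero_of h N P' ζ hper i hi hP]
      simp
  simp only [e, Finset.sum_ite_eq', Finset.mem_univ, if_true]

/-- step (1): the inserted pair can be moved -/
lemma move_vec (h : PsiPre Ψ) (hL : 2 ≤ L) {ξ : ℤ → ℂ} (hper : Per L ξ) (i : ℤ) {w : ℂ}
    (hw : ξ i ≠ w) (hqw : ξ i ≠ q * w) (Q : Pat (L + 2)) :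
    Ψ (L + 2) Q (insp L (i + 1) w ξ) =
      eop (i + 1) (fun P => Ψ (L + 2) P (insp L i w ξ)) Q := by
  have hL1 : 1 ≤ L := by omega
  set ζ := insp L i w ξ with hζ
  set b := ξ i with hb
  have hζper : Per (L + 2) ζ := insp_Per hL1 hper i w
  have z0 : ζ i = q ^ 2 * w := insp_i (Cg.refl' _)
  have z1 : ζ (i + 1) = w := insp_succ (Cg.refl' _)
  have z2 : ζ (i + 1 + 1) = b := by
    have e := phi_form hL1 i 0 0 le_rfl (by omega)
    rw [show i + 0 + (L : ℤ) * 0 = i by ring, show i + 0 + 2 + ((L : ℤ) + 2) * 0 = i + 1 + 1 by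
      ring] at e
    rw [← e, hζ, insp_phi hL1]
  set v : Pat (L + 2) → ℂ := fun P => Ψ (L + 2) P ζ with hv
  set ζ' := swp (L + 2) (i + 1) ζ with hζ'
  have far : ∀ {x c d : ℤ}, Cg (L + 2) x c → c ≠ d → c - d < L + 2 → d - c < L + 2 →
      ¬ Cg (L + 2) x d := by
    intro x c d h1 h2 h3 h4 h5
    exact h2 (Cg_eq (Cg.trans' (Cg.symm' h1) h5) (by push_cast; omega) (by push_cast; omega))
  have y0 : ζ' i = q ^ 2 * w := by
    rw [hζ', swp_other (far (Cg.refl' i) (by omega) (by omega) (by omega))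
      (far (Cg.refl' i) (by omega) (by omega) (by omega)), z0]
  have y1 : ζ' (i + 1) = b := by rw [hζ', swp_i (Cg.refl' _), z2]
  have hζ'per : Per (L + 2) ζ' := by
    intro x
    have hd : Cg (L + 2) (x + ((L + 2 : ℕ) : ℤ)) x := ⟨1, by ring⟩
    by_cases h1 : Cg (L + 2) x (i + 1)
    · rw [hζ', swp_i h1, swp_i (Cg.trans' hd h1),
        show x + ((L + 2 : ℕ) : ℤ) + 1 = x + 1 + ((L + 2 : ℕ) : ℤ) by ring, hζper]
    by_cases h2 : Cg (L + 2) x (i + 1 + 1)
    · rw [hζ', swp_succ (by omega) h2, swp_succ (by omega) (Cg.trans' hd h2),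
        show x + ((L + 2 : ℕ) : ℤ) - 1 = x - 1 + ((L + 2 : ℕ) : ℤ) by ring, hζper]
    · rw [hζ', swp_other h1 h2, swp_other (fun h => h1 (Cg.trans' (Cg.symm' hd) h))
        (fun h => h2 (Cg.trans' (Cg.symm' hd) h)), hζper]
  have hmove : swp (L + 2) i ζ' = insp L (i + 1) w ξ := insp_move hL i w ξ
  -- exchange relations
  have ex1 : ∀ P, (q * b - q⁻¹ * w) * Ψ (L + 2) P ζ' =
      (q * w - q⁻¹ * b) * v P + (w - b) * eop (i + 1) v P := by
    intro P
    have := h.exch (L + 2) P ζ hζper (i + 1)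
    rw [z1, z2] at this
    exact this
  have ex2 := h.exch (L + 2) Q ζ' hζ'per i
  rw [y0, y1, hmove] at ex2
  have hfix : eop i v = v := eop_fix h hζper (by rw [z0, z1])
  -- `e_i e_{i+1} v = v`
  have htl : eop i (eop (i + 1) v) = v := by
    have e1 : eop i (eop (i + 1) (eop i v)) = eop i v := by
      rw [eop_eq_pf i v, eop_eq_pf (i + 1), eop_eq_pf i, pf_comp, pf_comp]
      congr 1
      funext P
      exact E_braid i P (by omega)
    rw [hfix] at e1
    exact e1
  -- `A e_i u = B v + (w - b) v`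
  have ex3 : (q * b - q⁻¹ * w) * eop i (fun P => Ψ (L + 2) P ζ') Q =
      (q * w - q⁻¹ * b) * v Q + (w - b) * v Q := by
    have e1 : (q * b - q⁻¹ * w) * eop i (fun P => Ψ (L + 2) P ζ') Q =
        (q * w - q⁻¹ * b) * eop i v Q + (w - b) * eop i (eop (i + 1) v) Q := by
      unfold eop
      rw [Finset.mul_sum, Finset.mul_sum, Finset.mul_sum, ← Finset.sum_add_distrib]
      apply Finset.sum_congr rfl
      intro P _
      have := ex1 P
      unfold eop at this
      split_ifs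
      · exact this
      · ring
    rw [e1, hfix, htl]
  have hA : (q * b - q⁻¹ * w) ≠ 0 := by
    intro h0
    apply hqw
    rw [q_inv] at h0
    have h1 : q ^ 2 * (q * b - q ^ 2 * w) = 0 := by rw [h0, mul_zero]
    linear_combination h1 - b * _root_.H56.EX.q_cube + w * q4
  have hC : (q * b - q⁻¹ * (q ^ 2 * w)) ≠ 0 := by
    intro h0
    apply hw
    rw [q_inv] at h0
    have h1 : q ^ 2 * (q * b - q ^ 2 * (q ^ 2 * w)) = 0 := by rw [h0, mul_zero]
    linear_combination h1 - b * _root_.H56.EX.q_cube + (w * (q ^ 3 + 1)) * _root_.H56.EX.q_cube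
  have ex4 := ex1 Q
  apply mul_left_cancel₀ (mul_ne_zero hA hC)
  have goal : (q * b - q⁻¹ * w) * ((q * b - q⁻¹ * (q ^ 2 * w)) *
      Ψ (L + 2) Q (insp L (i + 1) w ξ)) = (q * b - q⁻¹ * w) * (q * b - q⁻¹ * (q ^ 2 * w)) *
      eop (i + 1) v Q := by
    rw [ex2]
    have e1 : (q * b - q⁻¹ * w) * ((q * (q ^ 2 * w) - q⁻¹ * b) * Ψ (L + 2) Q ζ' +
        (q ^ 2 * w - b) * eop i (fun P' => Ψ (L + 2) P' ζ') Q) =
        (q * (q ^ 2 * w) - q⁻¹ * b) * ((q * b - q⁻¹ * w) * Ψ (L + 2) Q ζ') +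
        (q ^ 2 * w - b) * ((q * b - q⁻¹ * w) * eop i (fun P' => Ψ (L + 2) P' ζ') Q) := by ring
    rw [e1, ex3, ex4, q_inv]
    linear_combination (-(b * w * v Q) + b ^ 2 * v Q - q * b ^ 2 * v Q + q ^ 2 * w ^ 2 * v Q -
      q ^ 2 * b * w * eop (i + 1) v Q + q ^ 2 * b ^ 2 * v Q + q ^ 3 * w ^ 2 * eop (i + 1) v Q +
      q ^ 3 * b * w * eop (i + 1) v Q - q ^ 3 * b * w * v Q -
      q ^ 4 * w ^ 2 * eop (i + 1) v Q) * q_sq
  rw [← goal]
  ring

/-- the components of the inserted vector -/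
noncomputable def Th (Ψ : ∀ L : ℕ, Pat L → (ℤ → ℂ) → ℂ) (i : ℤ) (w : ℂ) (P : Pat L)
    (ξ : ℤ → ℂ) : ℂ := Ψ (L + 2) (ins i P) (insp L i w ξ)

lemma ins_inj_iff (i : ℤ) (P Q : Pat L) : ins i P = ins i Q ↔ P = Q :=
  ⟨fun h => ins_injective i h, fun h => by rw [h]⟩

/-- step (1) for the components -/
lemma Th_succ (h : PsiPre Ψ) (hL : 2 ≤ L) {ξ : ℤ → ℂ} (hper : Per L ξ) (i : ℤ) {w : ℂ}
    (hw : ξ i ≠ w) (hqw : ξ i ≠ q * w) (P : Pat L) : Th Ψ (i + 1) w P ξ = Th Ψ i w P ξ := by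
  have hL1 : 1 ≤ L := by omega
  unfold Th
  rw [move_vec h hL hper i hw hqw]
  have hζper : Per (L + 2) (insp L i w ξ) := insp_Per hL1 hper i w
  have z0 : insp L i w ξ i = q ^ 2 * insp L i w ξ (i + 1) := by
    rw [insp_i (Cg.refl' _), insp_succ (Cg.refl' _)]
  unfold eop
  rw [sum_ins i _ hL]
  · simp only [E_succ_ins, ins_inj_iff, Finset.sum_ite_eq', Finset.mem_univ, if_true]
  · intro P' hP'
    show (if E (i + 1) P' = ins (i + 1) P then Ψ (L + 2) P' (insp L i w ξ) else 0) = 0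
    rw [arc_zero_of h _ P' _ hζper i z0 hP']
    simp

/-- step (1), all positions -/
lemma Th_indep (h : PsiPre Ψ) (hL : 2 ≤ L) {ξ : ℤ → ℂ} (hper : Per L ξ) {w : ℂ}
    (hw : ∀ x, ξ x ≠ w ∧ ξ x ≠ q * w) (P : Pat L) (i : ℤ) : Th Ψ i w P ξ = Th Ψ 0 w P ξ := by
  induction i using Int.induction_on with
  | zero => rfl
  | succ a ih => rw [Th_succ h hL hper _ (hw _).1 (hw _).2, ih]
  | pred a ih =>
    have := Th_succ h hL hper (-(a : ℤ) - 1) (hw _).1 (hw _).2 P
    rw [show -(a : ℤ) - 1 + 1 = -a by ring, ih] at this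
    exact this.symm

/-- step (2): exchange relation for the inserted vector -/
lemma Th_exch (h : PsiPre Ψ) (hL : 2 ≤ L) {ξ : ℤ → ℂ} (hper : Per L ξ) (j : ℤ) (w : ℂ)
    (P : Pat L) :
    (q * ξ (j + 1) - q⁻¹ * ξ j) * Th Ψ (j + 2) w P (swp L j ξ) =
      (q * ξ j - q⁻¹ * ξ (j + 1)) * Th Ψ (j + 2) w P ξ +
        (ξ j - ξ (j + 1)) * eop j (fun P' => Th Ψ (j + 2) w P' ξ) P := by
  have hL1 : 1 ≤ L := by omega
  have hζper : Per (L + 2) (insp L (j + 2) w ξ) := insp_Per hL1 hper _ w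
  have hex := h.exch (L + 2) (ins (j + 2) P) _ hζper j
  rw [(insp_apply_j hL j w ξ).1, (insp_apply_j hL j w ξ).2, insp_swp hL] at hex
  have z0 : insp L (j + 2) w ξ (j + 2) = q ^ 2 * insp L (j + 2) w ξ (j + 2 + 1) := by
    rw [insp_i (Cg.refl' _), insp_succ (Cg.refl' _)]
  have e : eop j (fun P' => Ψ (L + 2) P' (insp L (j + 2) w ξ)) (ins (j + 2) P) =
      eop j (fun P' => Th Ψ (j + 2) w P' ξ) P := by
    unfold eop
    rw [sum_ins (j + 2) _ hL]
    · simp only [E_ins_far, ins_inj_iff]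
      rfl
    · intro P' hP'
      show (if E j P' = ins (j + 2) P then Ψ (L + 2) P' (insp L (j + 2) w ξ) else 0) = 0
      rw [arc_zero_of h _ P' _ hζper (j + 2) z0 hP']
      simp
  rw [e] at hex
  exact hex

/-- step (3): rotation -/
lemma Th_rot (h : PsiPre Ψ) (hL : 1 ≤ L) {ξ : ℤ → ℂ} (hper : Per L ξ) (i : ℤ) (w : ℂ)
    (P : Pat L) : Th Ψ (i + 1) w (rot P) (fun x => ξ (x - 1)) = Th Ψ i w P ξ := by
  unfold Th
  rw [← rot_ins, ← insp_rot hL]
  exact h.rot (L + 2) (ins i P) _ (insp_Per hL hper i w)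

/-- one factor of the base component -/
lemma base_factor (x w : ℂ) : (q * x - q⁻¹ * w) / (q - q⁻¹) * ((q * (q ^ 2 * w) - q⁻¹ * x) /
    (q - q⁻¹)) = (x - q * w) ^ 2 / 3 := by
  have h3 : (q - q⁻¹) * (q - q⁻¹) = -3 := by
    rw [q_inv]
    linear_combination (q ^ 2 - 3 * q + 3) * q_sq
  have h0 : (q - q⁻¹) ≠ 0 := by
    intro h0
    rw [h0] at h3
    norm_num at h3
  rw [div_mul_div_comm, h3, q_inv]
  rw [div_eq_div_iff (by norm_num) (by norm_num)]
  linear_combination (3 * x ^ 2 - 6 * q * x * w - 3 * q * x ^ 2 + 3 * q ^ 2 * w ^ 2 +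
    6 * q ^ 2 * x * w - 3 * q ^ 3 * w ^ 2) * q_sq

lemma base_factor0 (w : ℂ) : (q * (q ^ 2 * w) - q⁻¹ * w) / (q - q⁻¹) = -q * w := by
  have h3 : (q - q⁻¹) * (q - q⁻¹) = -3 := by
    rw [q_inv]
    linear_combination (q ^ 2 - 3 * q + 3) * q_sq
  have h0 : (q - q⁻¹) ≠ 0 := by
    intro h0
    rw [h0] at h3
    norm_num at h3
  rw [div_eq_iff h0, q_inv]
  ring

/-- step (4): the base component -/
lemma Th_base (h : PsiPre Ψ) {ξ : ℤ → ℂ} (hper : Per L ξ) (w : ℂ)
    (P : Pat L) (hP : IsBase P) : Th Ψ 0 w P ξ =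
      (-q * w * (∏ s ∈ Finset.range L, (ξ s - q * w) ^ 2) / 3 ^ L) * Ψ L P ξ := by
  have hL2 := P.two_le
  have hL1 : 1 ≤ L := by omega
  obtain ⟨B, hB, hBe⟩ := base_ins P hP
  unfold Th
  rw [hBe]
  set ζ' : ℤ → ℂ := fun x => insp L 0 w ξ (x + 1) with hζ'
  have hζper : Per (L + 2) (insp L 0 w ξ) := insp_Per hL1 hper 0 w
  have hζ'per : Per (L + 2) ζ' := by
    intro x
    simp only [hζ']
    rw [show x + ((L + 2 : ℕ) : ℤ) + 1 = x + 1 + ((L + 2 : ℕ) : ℤ) by ring, hζper]
  have e1 : insp L 0 w ξ = fun x => ζ' (x - 1) := by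
    funext x
    simp only [hζ']
    rw [show x - 1 + 1 = x by ring]
  rw [e1, h.rot (L + 2) B ζ' hζ'per, h.base (L + 2) B ζ' hB, h.base L P ξ hP]
  -- values of `ζ'`
  have v0 : ζ' ((0 : ℕ) : ℤ) = w := by
    simp only [hζ']
    exact insp_succ ⟨0, by simp⟩
  have v1 : ∀ s : ℕ, s < L → ζ' ((s + 1 : ℕ) : ℤ) = ξ s := by
    intro s hs
    simp only [hζ']
    have := phi_form hL1 0 0 s (by omega) (by omega)
    rw [show (0 : ℤ) + s + L * 0 = s by ring] at this
    have e : (((s + 1 : ℕ) : ℤ) + 1) = phi L 0 s := by rw [this]; push_cast; ring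
    rw [e, insp_phi hL1]
  have v2 : ζ' ((L + 1 : ℕ) : ℤ) = q ^ 2 * w := by
    simp only [hζ']
    apply insp_i
    exact ⟨1, by push_cast; ring⟩
  -- the products
  rw [Finset.prod_range_succ]
  have p1 : ∏ i ∈ Finset.range (L + 1), (q * ζ' ((L + 1 : ℕ) : ℤ) - q⁻¹ * ζ' (i : ℤ)) /
      (q - q⁻¹) = (∏ s ∈ Finset.range L, (q * (q ^ 2 * w) - q⁻¹ * ξ s) / (q - q⁻¹)) *
        (-q * w) := by
    rw [Finset.prod_range_succ', v0, v2, base_factor0]
    congr 1
    apply Finset.prod_congr rfl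
    intro s hs
    rw [v1 s (Finset.mem_range.1 hs)]
  have p2 : ∏ j ∈ Finset.range (L + 1), ∏ i ∈ Finset.range j,
      (q * ζ' (j : ℤ) - q⁻¹ * ζ' (i : ℤ)) / (q - q⁻¹) =
      (∏ s ∈ Finset.range L, (q * ξ s - q⁻¹ * w) / (q - q⁻¹)) *
        ∏ j ∈ Finset.range L, ∏ i ∈ Finset.range j, (q * ξ j - q⁻¹ * ξ i) / (q - q⁻¹) := by
    rw [Finset.prod_range_succ', Finset.range_zero, Finset.prod_empty, mul_one,
      ← Finset.prod_mul_distrib]
    apply Finset.prod_congr rfl
    intro s hs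
    rw [Finset.mem_range] at hs
    rw [Finset.prod_range_succ', v0, v1 s hs, mul_comm]
    congr 1
    apply Finset.prod_congr rfl
    intro t ht
    rw [Finset.mem_range] at ht
    rw [v1 t (by omega)]
  rw [p1, p2]
  have p3 : (∏ s ∈ Finset.range L, (ξ s - q * w) ^ 2) / 3 ^ L =
      (∏ s ∈ Finset.range L, (q * ξ s - q⁻¹ * w) / (q - q⁻¹)) *
      (∏ s ∈ Finset.range L, (q * (q ^ 2 * w) - q⁻¹ * ξ s) / (q - q⁻¹)) := by
    rw [← Finset.prod_mul_distrib]
    have : ∀ s ∈ Finset.range L, (q * ξ (s : ℤ) - q⁻¹ * w) / (q - q⁻¹) *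
        ((q * (q ^ 2 * w) - q⁻¹ * ξ s) / (q - q⁻¹)) = (ξ s - q * w) ^ 2 / 3 :=
      fun s _ => base_factor _ _
    rw [Finset.prod_congr rfl this, Finset.prod_div_distrib, Finset.prod_const, Finset.card_range]
  rw [mul_div_assoc, p3]
  ring

/-! ### Products over a period -/

lemma prod_period {ψ : ℤ → ℂ} (h : Per L ψ) (i : ℤ) :
    ∏ s ∈ Finset.range L, ψ (i + s) = ∏ s ∈ Finset.range L, ψ s := by
  have step : ∀ i : ℤ, ∏ s ∈ Finset.range L, ψ (i + 1 + s) = ∏ s ∈ Finset.range L, ψ (i + s) := by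
    intro i
    have e1 : ∏ s ∈ Finset.range (L + 1), ψ (i + s) =
        (∏ s ∈ Finset.range L, ψ (i + 1 + s)) * ψ i := by
      rw [Finset.prod_range_succ']
      congr 1
      · apply Finset.prod_congr rfl
        intro s _
        congr 1
        push_cast
        ring
      · simp
    have e2 : ∏ s ∈ Finset.range (L + 1), ψ (i + s) =
        (∏ s ∈ Finset.range L, ψ (i + s)) * ψ i := by
      rw [Finset.prod_range_succ, h]
    rcases Nat.eq_zero_or_pos L with hL | hL
    · subst hL; simp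
    · by_cases h0 : ψ i = 0
      · have a1 : ∏ s ∈ Finset.range L, ψ (i + s) = 0 := by
          apply Finset.prod_eq_zero (Finset.mem_range.2 hL)
          simpa using h0
        have a2 : ∏ s ∈ Finset.range L, ψ (i + 1 + s) = 0 := by
          apply Finset.prod_eq_zero (Finset.mem_range.2 (show L - 1 < L by omega))
          have : i + 1 + ((L - 1 : ℕ) : ℤ) = i + L := by
            have : ((L - 1 : ℕ) : ℤ) = (L : ℤ) - 1 := by omega
            rw [this]; ring
          rw [this, h, h0]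
        rw [a1, a2]
      · apply mul_right_cancel₀ h0
        rw [← e1, ← e2]
  induction i using Int.induction_on with
  | zero => simp
  | succ a ih => rw [step, ih]
  | pred a ih =>
    have := step (-(a : ℤ) - 1)
    rw [show -(a : ℤ) - 1 + 1 = -a by ring, ih] at this
    exact this.symm

lemma prod_swp (hL : 2 ≤ L) {ξ : ℤ → ℂ} (h : Per L ξ) (j : ℤ) (f : ℂ → ℂ)
    (hs : Per L (swp L j ξ)) :
    ∏ s ∈ Finset.range L, f (swp L j ξ s) = ∏ s ∈ Finset.range L, f (ξ s) := by
  have e1 := prod_period (L := L) (ψ := fun x => f (swp L j ξ x)) (fun x => by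
    show f (swp L j ξ (x + L)) = f (swp L j ξ x)
    rw [hs x]) j
  have e2 := prod_period (L := L) (ψ := fun x => f (ξ x)) (fun x => by
    show f (ξ (x + L)) = f (ξ x)
    rw [h x]) j
  rw [← e1, ← e2]
  obtain ⟨m, rfl⟩ : ∃ m, L = m + 2 := ⟨L - 2, by omega⟩
  rw [Finset.prod_range_succ', Finset.prod_range_succ', Finset.prod_range_succ',
    Finset.prod_range_succ']
  have c0 : swp (m + 2) j ξ (j + ((0 : ℕ) : ℤ)) = ξ (j + ((0 + 1 : ℕ) : ℤ)) := by
    rw [swp_i ⟨0, by push_cast; ring⟩]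
    congr 1
    push_cast
    ring
  have c1 : swp (m + 2) j ξ (j + ((0 + 1 : ℕ) : ℤ)) = ξ (j + ((0 : ℕ) : ℤ)) := by
    rw [swp_succ (by omega) ⟨0, by push_cast; ring⟩]
    congr 1
    push_cast
    ring
  have c2 : ∀ s ∈ Finset.range m, f (swp (m + 2) j ξ (j + ((s + 1 + 1 : ℕ) : ℤ))) =
      f (ξ (j + ((s + 1 + 1 : ℕ) : ℤ))) := by
    intro s hs
    rw [Finset.mem_range] at hs
    rw [swp_other]
    · intro h1
      have := Cg_eq h1 (by push_cast; omega) (by push_cast; omega)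
      push_cast at this
      omega
    · intro h1
      have := Cg_eq h1 (by push_cast; omega) (by push_cast; omega)
      push_cast at this
      omega
  rw [c0, c1, Finset.prod_congr rfl c2]
  ring

/-! ### Generic parameters -/

/-- generic parameters with respect to `w` -/
def gen (L : ℕ) (w : ℂ) : Set (ℤ → ℂ) :=
  {ξ | Per L ξ ∧ (∀ x y, ξ x = ξ y → Cg L x y) ∧ ∀ x, ξ x ≠ w ∧ ξ x ≠ q * w}

/-- the exchange of positions -/
noncomputable def sw (L : ℕ) (i x : ℤ) : ℤ :=
  if Cg L x i then x + 1 else if Cg L x (i + 1) then x - 1 else x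

lemma swp_eq (i : ℤ) (ξ : ℤ → ℂ) (x : ℤ) : swp L i ξ x = ξ (sw L i x) := by
  unfold swp sw
  split_ifs <;> rfl

lemma sw_Cg {i x y : ℤ} (h : Cg L x y) : sw L i y - sw L i x = y - x := by
  have e1 : Cg L x i ↔ Cg L y i :=
    ⟨fun h' => Cg.trans' (Cg.symm' h) h', fun h' => Cg.trans' h h'⟩
  have e2 : Cg L x (i + 1) ↔ Cg L y (i + 1) :=
    ⟨fun h' => Cg.trans' (Cg.symm' h) h', fun h' => Cg.trans' h h'⟩
  unfold sw
  simp only [e1, e2]
  split_ifs <;> ring

lemma sw_sw (hL : 2 ≤ L) (i x : ℤ) : sw L i (sw L i x) = x := by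
  by_cases h1 : Cg L x i
  · have e : sw L i x = x + 1 := by simp only [sw, if_pos h1]
    have h2 := Cg.add 1 h1
    have h3 : ¬ Cg L (x + 1) i := fun h => not_Cg_self_succ hL h h2
    rw [e]
    simp only [sw, if_neg h3, if_pos h2]
    ring
  by_cases h2 : Cg L x (i + 1)
  · have e : sw L i x = x - 1 := by simp only [sw, if_neg h1, if_pos h2]
    have h3 : Cg L (x - 1) i := by
      have := Cg.sub 1 h2
      rwa [show i + 1 - 1 = i by ring] at this
    rw [e]
    simp only [sw, if_pos h3]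
    ring
  · have e : sw L i x = x := by simp only [sw, if_neg h1, if_neg h2]
    rw [e, e]

lemma Per_swp {ξ : ℤ → ℂ} (h : Per L ξ) (i : ℤ) : Per L (swp L i ξ) := by
  intro x
  rw [swp_eq, swp_eq]
  have hx : Cg L x (x + L) := ⟨-1, by ring⟩
  have := sw_Cg (i := i) hx
  have e : sw L i (x + L) = sw L i x + L := by linarith
  rw [e, h]

lemma gen_swp (hL : 2 ≤ L) {w : ℂ} (i : ℤ) {ξ : ℤ → ℂ} (h : ξ ∈ gen L w) :
    swp L i ξ ∈ gen L w := by
  obtain ⟨h1, h2, h3⟩ := h
  refine ⟨Per_swp h1 i, ?_, ?_⟩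
  · intro x y hxy
    rw [swp_eq, swp_eq] at hxy
    have hc := h2 _ _ hxy
    have e := sw_Cg (i := i) hc
    rw [sw_sw hL, sw_sw hL] at e
    unfold Cg at hc ⊢
    have e2 : x - y = sw L i x - sw L i y := by linarith
    rw [e2]; exact hc
  · intro x
    rw [swp_eq]
    exact h3 _

/-- the factor of the arc recursion -/
noncomputable def gfac (L : ℕ) (w : ℂ) (ξ : ℤ → ℂ) : ℂ :=
  -q * w * (∏ s ∈ Finset.range L, (ξ s - q * w) ^ 2) / 3 ^ L

lemma gfac_swp (hL : 2 ≤ L) {ξ : ℤ → ℂ} (h : Per L ξ) (w : ℂ) (i : ℤ) :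
    gfac L w (swp L i ξ) = gfac L w ξ := by
  unfold gfac
  rw [prod_swp hL h i (fun x => (x - q * w) ^ 2) (Per_swp h i)]

lemma gfac_rot {ξ : ℤ → ℂ} (h : Per L ξ) (w : ℂ) :
    gfac L w (fun x => ξ (x - 1)) = gfac L w ξ := by
  unfold gfac
  have e1 := prod_period (L := L) (ψ := fun x => (ξ x - q * w) ^ 2) (fun x => by
    show (ξ (x + L) - q * w) ^ 2 = (ξ x - q * w) ^ 2
    rw [h x]) (-1)
  have e2 : ∏ s ∈ Finset.range L, (ξ ((s : ℤ) - 1) - q * w) ^ 2 =
      ∏ s ∈ Finset.range L, (fun x => (ξ x - q * w) ^ 2) (-1 + (s : ℤ)) := by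
    apply Finset.prod_congr rfl
    intro s _
    show (ξ ((s : ℤ) - 1) - q * w) ^ 2 = (ξ (-1 + (s : ℤ)) - q * w) ^ 2
    rw [show (s : ℤ) - 1 = -1 + s by ring]
  simp only
  rw [e2, e1]

/-- the arc recursion at generic parameters -/
lemma arc_gen (hT : Triangular) (h : PsiPre Ψ) (hL : 2 ≤ L) (w : ℂ) (P : Pat L) {ξ : ℤ → ℂ}
    (hξ : ξ ∈ gen L w) : Th Ψ 0 w P ξ = gfac L w ξ * Ψ L P ξ := by
  have hL1 : 1 ≤ L := by omega
  have key := hT L (ℤ → ℂ) (gen L w) (fun i ξ => swp L i ξ) (fun ξ x => ξ (x - 1)) (fun ξ => ξ)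
    (fun P ξ => Th Ψ 0 w P ξ - gfac L w ξ * Ψ L P ξ)
    (fun i ξ hξ => gen_swp hL i hξ)
    (by
      intro ξ hξ
      obtain ⟨h1, h2, h3⟩ := hξ
      refine ⟨fun x => ξ (x + 1), ⟨?_, ?_, fun x => h3 _⟩, ?_⟩
      · intro x
        show ξ (x + L + 1) = ξ (x + 1)
        rw [show x + (L : ℤ) + 1 = x + 1 + L by ring, h1]
      · intro x y hxy
        have := Cg.sub 1 (h2 _ _ hxy)
        rwa [show x + 1 - 1 = x by ring, show y + 1 - 1 = y by ring] at this
      · funext x
        show ξ (x - 1 + 1) = ξ x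
        rw [show x - 1 + 1 = x by ring])
    (by
      intro ξ hξ i hi
      exact not_Cg_succ hL i (hξ.2.1 _ _ hi))
    (by
      intro P ξ hξ j
      have hper := hξ.1
      have hξ' := gen_swp hL j hξ
      have e1 := Th_exch h hL hper j w P
      rw [Th_indep h hL hξ'.1 hξ'.2.2 P (j + 2), Th_indep h hL hper hξ.2.2 P (j + 2)] at e1
      have e2 : eop j (fun P' => Th Ψ (j + 2) w P' ξ) P = eop j (fun P' => Th Ψ 0 w P' ξ) P := by
        congr 1
        funext P'
        exact Th_indep h hL hper hξ.2.2 P' (j + 2)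
      rw [e2] at e1
      have e3 := h.exch L P ξ hper j
      have e4 : eop j (fun P' => Th Ψ 0 w P' ξ - gfac L w ξ * Ψ L P' ξ) P =
          eop j (fun P' => Th Ψ 0 w P' ξ) P - gfac L w ξ * eop j (fun P' => Ψ L P' ξ) P := by
        unfold eop
        rw [Finset.mul_sum, ← Finset.sum_sub_distrib]
        apply Finset.sum_congr rfl
        intro P' _
        split_ifs <;> ring
      rw [e4, gfac_swp hL hper]
      linear_combination e1 - gfac L w ξ * e3)
    (by
      intro P ξ hξ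
      have hper := hξ.1
      have hrotgen : (fun x => ξ (x - 1)) ∈ gen L w := by
        refine ⟨?_, ?_, fun x => hξ.2.2 _⟩
        · intro x
          show ξ (x + L - 1) = ξ (x - 1)
          rw [show x + (L : ℤ) - 1 = x - 1 + L by ring, hper]
        · intro x y hxy
          have := Cg.add 1 (hξ.2.1 _ _ hxy)
          rwa [show x - 1 + 1 = x by ring, show y - 1 + 1 = y by ring] at this
      have e1 := Th_rot h hL1 hper 0 w P
      rw [Th_indep h hL hrotgen.1 hrotgen.2.2 (rot P) (0 + 1)] at e1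
      rw [e1, gfac_rot hper, h.rot L P ξ hper])
    (by
      intro P hP ξ hξ
      have := Th_base h hξ.1 w P hP
      rw [this]
      unfold gfac
      ring)
    P ξ hξ
  exact sub_eq_zero.1 key

/-- the direction of perturbation -/
noncomputable def cdir (L : ℕ) (x : ℤ) : ℂ := ((x % (L : ℤ) : ℤ) : ℂ) + 1

lemma cdir_Per : Per L (cdir L) := by
  intro x
  unfold cdir
  rw [Int.add_emod_right]

lemma cdir_ne (hL : 1 ≤ L) (x : ℤ) : cdir L x ≠ 0 := by
  unfold cdir
  have h := Int.emod_nonneg x (show (L : ℤ) ≠ 0 by omega)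
  intro h0
  have h1 : ((x % (L : ℤ) + 1 : ℤ) : ℂ) = 0 := by push_cast; exact h0
  have h2 : x % (L : ℤ) + 1 = 0 := by exact_mod_cast h1
  omega

lemma cdir_inj {x y : ℤ} (h : cdir L x = cdir L y) : Cg L x y := by
  unfold cdir at h
  have h1 : ((x % (L : ℤ) : ℤ) : ℂ) = ((y % (L : ℤ) : ℤ) : ℂ) := by linear_combination h
  have h2 : x % (L : ℤ) = y % (L : ℤ) := by exact_mod_cast h1
  exact Int.ModEq.dvd (show y ≡ x [ZMOD (L : ℤ)] from h2.symm)

/-- the curve of parameters through `ξ` is generic off a finite set -/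
lemma curve_gen (hL : 1 ≤ L) {ξ : ℤ → ℂ} (h : Per L ξ) (w : ℂ) : ∃ B : Set ℂ, B.Finite ∧
    ∀ t : ℂ, t ∉ B → (fun x => ξ x + t * cdir L x) ∈ gen L w := by
  classical
  refine ⟨((fun p : ℕ × ℕ => (ξ p.1 - ξ p.2) / (cdir L p.2 - cdir L p.1)) ''
      ((Finset.range L ×ˢ Finset.range L : Finset (ℕ × ℕ)) : Set (ℕ × ℕ))) ∪
    ((fun n : ℕ => (w - ξ n) / cdir L n) '' ((Finset.range L : Finset ℕ) : Set ℕ)) ∪
    ((fun n : ℕ => (q * w - ξ n) / cdir L n) '' ((Finset.range L : Finset ℕ) : Set ℕ)),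
    ((Finset.finite_toSet _).image _ |>.union ((Finset.finite_toSet _).image _)).union
      ((Finset.finite_toSet _).image _), ?_⟩
  intro t ht
  simp only [Set.mem_union, not_or] at ht
  obtain ⟨⟨ht1, ht2⟩, ht3⟩ := ht
  have hper : Per L (fun x => ξ x + t * cdir L x) := by
    intro x
    show ξ (x + L) + t * cdir L (x + L) = ξ x + t * cdir L x
    rw [h, cdir_Per]
  -- reduction to one period
  have red : ∀ x : ℤ, ∃ n : ℕ, n < L ∧ Cg L x n := by
    intro x
    refine ⟨(x % (L : ℤ)).toNat, ?_, ?_⟩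
    · have h1 := Int.emod_lt_of_pos x (show (0 : ℤ) < L by omega)
      have h2 := Int.emod_nonneg x (show (L : ℤ) ≠ 0 by omega)
      omega
    · have h2 := Int.emod_nonneg x (show (L : ℤ) ≠ 0 by omega)
      rw [Int.toNat_of_nonneg h2]
      exact ⟨x / L, by have := Int.emod_add_mul_ediv x L; linarith⟩
  refine ⟨hper, ?_, ?_⟩
  · intro x y hxy
    obtain ⟨n, hn, hxn⟩ := red x
    obtain ⟨m, hm, hym⟩ := red y
    have e1 := Per_Cg hper hxn
    have e2 := Per_Cg hper hym
    by_cases hnm : Cg L (n : ℤ) m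
    · exact Cg.trans' hxn (Cg.trans' hnm (Cg.symm' hym))
    · exfalso
      apply ht1
      refine ⟨(n, m), by simp [hn, hm], ?_⟩
      have hne : cdir L m - cdir L n ≠ 0 := by
        intro h0
        exact hnm (Cg.symm' (cdir_inj (sub_eq_zero.1 h0)))
      have e3 : ξ n + t * cdir L n = ξ m + t * cdir L m := by
        rw [← e1, ← e2]; exact hxy
      show (ξ n - ξ m) / (cdir L m - cdir L n) = t
      rw [div_eq_iff hne]
      linear_combination e3
  · intro x
    obtain ⟨n, hn, hxn⟩ := red x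
    have e1 := Per_Cg hper hxn
    show ξ x + t * cdir L x ≠ w ∧ ξ x + t * cdir L x ≠ q * w
    rw [e1]
    constructor
    · intro h0
      apply ht2
      refine ⟨n, by simp [hn], ?_⟩
      show (w - ξ n) / cdir L n = t
      rw [div_eq_iff (cdir_ne hL _)]
      linear_combination -h0
    · intro h0
      apply ht3
      refine ⟨n, by simp [hn], ?_⟩
      show (q * w - ξ n) / cdir L n = t
      rw [div_eq_iff (cdir_ne hL _)]
      linear_combination -h0

/-- the arc recursion for the inserted parameters -/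
lemma arc_insp (hT : Triangular) (h : PsiPre Ψ) (i : ℤ) (w : ℂ) (P : Pat L) {ξ : ℤ → ℂ}
    (hper : Per L ξ) : Th Ψ i w P ξ = gfac L w ξ * Ψ L P ξ := by
  have hL := P.two_le
  have hL1 : 1 ≤ L := by omega
  obtain ⟨B, hB, hgen⟩ := curve_gen hL1 hper w
  have hγ : ∀ x : ℤ, Continuous fun t : ℂ => ξ x + t * cdir L x := by
    intro x; fun_prop
  have c1 : Continuous fun t : ℂ => Th Ψ i w P (fun x => ξ x + t * cdir L x) := by
    unfold Th
    apply Psi_continuous h (ins i P) (fun t => insp L i w (fun x => ξ x + t * cdir L x))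
    intro x
    simp only [insp]
    split_ifs
    · exact continuous_const
    · exact continuous_const
    · exact hγ _
  have c2 : Continuous fun t : ℂ => gfac L w (fun x => ξ x + t * cdir L x) *
      Ψ L P (fun x => ξ x + t * cdir L x) := by
    apply Continuous.mul
    · unfold gfac
      apply Continuous.div_const
      apply Continuous.mul continuous_const
      apply continuous_finsetProd
      intro s _
      fun_prop
    · exact Psi_continuous h P (fun t => fun x => ξ x + t * cdir L x) hγ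
  have hdense : Dense (Set.univ \ B) := dense_univ.sdiff_finite hB
  have heq : (fun t : ℂ => Th Ψ i w P (fun x => ξ x + t * cdir L x)) =
      fun t : ℂ => gfac L w (fun x => ξ x + t * cdir L x) *
        Ψ L P (fun x => ξ x + t * cdir L x) := by
    apply Continuous.ext_on hdense c1 c2
    intro t ht
    have hg := hgen t ht.2
    simp only
    rw [Th_indep h hL hg.1 hg.2.2 P i, arc_gen hT h hL w P hg]
  have h0 := congrFun heq 0
  simpa using h0

theorem arc_of (hT : Triangular) (h : PsiPre Ψ) : ∀ (L : ℕ) (P : Pat L) (ζ : ℤ → ℂ),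
    Per (L + 2) ζ → ∀ i : ℤ, ζ i = q ^ 2 * ζ (i + 1) →
    Ψ (L + 2) (ins i P) ζ =
      (-q * ζ (i + 1) * (∏ s ∈ Finset.range L, (ζ (i + 2 + s) - q * ζ (i + 1)) ^ 2) / 3 ^ L) *
        Ψ L P (fun x => ζ (phi L i x)) := by
  intro L P ζ hζ i hi
  have hL := P.two_le
  have hL1 : 1 ≤ L := by omega
  have hper := phi_Per hL1 hζ i
  have key := arc_insp hT h i (ζ (i + 1)) P hper
  unfold Th at key
  rw [← eq_insp hL1 hζ i hi] at key
  rw [key]
  congr 1
  unfold gfac
  congr 2
  have e := prod_period (L := L) (ψ := fun x => (ζ (phi L i x) - q * ζ (i + 1)) ^ 2) (fun x => by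
    show (ζ (phi L i (x + L)) - q * ζ (i + 1)) ^ 2 = (ζ (phi L i x) - q * ζ (i + 1)) ^ 2
    have := hper x
    simp only at this
    rw [this]) i
  rw [← e]
  apply Finset.prod_congr rfl
  intro s hs
  rw [Finset.mem_range] at hs
  have e2 := phi_form hL1 i 0 s (by omega) (by omega)
  rw [show i + (s : ℤ) + L * 0 = i + s by ring] at e2
  show (ζ (phi L i (i + s)) - q * ζ (i + 1)) ^ 2 = _
  rw [e2, show i + (s : ℤ) + 2 + (L + 2) * 0 = i + 2 + s by ring]

end Pool.Agent.H14.EX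

end

section

/-!
# The base component
-/

namespace Pool.Agent.H12.QKZ

open H56.EX MvPolynomial

/-- Product formula of the base component, as a function of a sequence. -/
noncomputable def gp (n : ℕ) (s : ℕ → ℂ) : ℂ :=
  ∏ j ∈ Finset.range n, ∏ i ∈ Finset.range j, (q * s j - q⁻¹ * s i) / (q - q⁻¹)

theorem prod_range_swap {n k : ℕ} (hk : k + 2 ≤ n) (f : ℕ → ℂ) :
    ∏ i ∈ Finset.range n, f (Equiv.swap k (k + 1) i) = ∏ i ∈ Finset.range n, f i := by
  refine Finset.prod_equiv (Equiv.swap k (k + 1)) ?_ (fun _ _ => rfl)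
  intro i
  simp only [Finset.mem_range]
  by_cases h1 : i = k
  · subst h1; rw [Equiv.swap_apply_left]; omega
  · by_cases h2 : i = k + 1
    · subst h2; rw [Equiv.swap_apply_right]; omega
    · rw [Equiv.swap_apply_of_ne_of_ne h1 h2]

theorem gp_swap (s : ℕ → ℂ) (k : ℕ) : ∀ n : ℕ, k + 2 ≤ n →
    (q * s (k + 1) - q⁻¹ * s k) * gp n (fun i => s (Equiv.swap k (k + 1) i))
      = (q * s k - q⁻¹ * s (k + 1)) * gp n s := by
  intro n hn
  induction n, hn using Nat.le_induction with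
  | base =>
    unfold gp
    rw [Finset.prod_range_succ, Finset.prod_range_succ, Finset.prod_range_succ,
      Finset.prod_range_succ]
    have h1 : ∀ j ∈ Finset.range k, ∏ i ∈ Finset.range j,
        (q * s (Equiv.swap k (k + 1) j) - q⁻¹ * s (Equiv.swap k (k + 1) i)) / (q - q⁻¹)
        = ∏ i ∈ Finset.range j, (q * s j - q⁻¹ * s i) / (q - q⁻¹) := by
      intro j hj
      rw [Finset.mem_range] at hj
      rw [Equiv.swap_apply_of_ne_of_ne (by omega) (by omega)]
      refine Finset.prod_congr rfl fun i hi => ?_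
      rw [Finset.mem_range] at hi
      rw [Equiv.swap_apply_of_ne_of_ne (by omega) (by omega)]
    have h2 : ∀ t : ℂ, ∏ i ∈ Finset.range k,
        (q * t - q⁻¹ * s (Equiv.swap k (k + 1) i)) / (q - q⁻¹)
        = ∏ i ∈ Finset.range k, (q * t - q⁻¹ * s i) / (q - q⁻¹) := by
      intro t
      refine Finset.prod_congr rfl fun i hi => ?_
      rw [Finset.mem_range] at hi
      rw [Equiv.swap_apply_of_ne_of_ne (by omega) (by omega)]
    rw [Finset.prod_congr rfl h1, Finset.prod_range_succ, Finset.prod_range_succ, h2, h2]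
    simp only [Equiv.swap_apply_left, Equiv.swap_apply_right]
    ring
  | succ n hn ih =>
    unfold gp at ih ⊢
    rw [Finset.prod_range_succ, Finset.prod_range_succ, ← mul_assoc, ih]
    have h1 : ∏ i ∈ Finset.range n,
        (q * s (Equiv.swap k (k + 1) n) - q⁻¹ * s (Equiv.swap k (k + 1) i)) / (q - q⁻¹)
        = ∏ i ∈ Finset.range n, (q * s n - q⁻¹ * s i) / (q - q⁻¹) := by
      rw [Equiv.swap_apply_of_ne_of_ne (by omega : n ≠ k) (by omega : n ≠ k + 1)]
      exact prod_range_swap hn (fun i => (q * s n - q⁻¹ * s i) / (q - q⁻¹))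
    rw [h1]; ring

/-- The base component as a polynomial. -/
noncomputable def PhiP (L : ℕ) : MvPolynomial (Fin L) ℂ :=
  ∏ j : Fin L, ∏ i : Fin L,
    if i < j then C ((q - q⁻¹)⁻¹) * (C q * X j - C q⁻¹ * X i) else 1

theorem eval_PhiP (L : ℕ) (s : ℕ → ℂ) :
    eval (fun k : Fin L => s k) (PhiP L) = gp L s := by
  unfold PhiP gp
  rw [map_prod, Finset.prod_range (n := L)]
  refine Finset.prod_congr rfl fun j _ => ?_
  rw [map_prod, Finset.prod_range (n := (j : ℕ))]
  have h1 : ∀ i : Fin L, eval (fun k : Fin L => s k)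
      (if i < j then C ((q - q⁻¹)⁻¹) * (C q * X j - C q⁻¹ * X i) else (1 : MvPolynomial (Fin L) ℂ))
      = if i < j then (q * s j - q⁻¹ * s i) / (q - q⁻¹) else 1 := by
    intro i
    split_ifs
    · simp only [map_mul, map_sub, eval_C, eval_X]; ring
    · simp
  rw [Finset.prod_congr rfl fun i _ => h1 i, ← Finset.prod_filter]
  symm
  refine Finset.prod_bij (fun (i : Fin (j : ℕ)) _ => (⟨i, i.isLt.trans j.isLt⟩ : Fin L)) ?_ ?_ ?_ ?_
  · intro i _
    rw [Finset.mem_filter]
    exact ⟨Finset.mem_univ _, i.isLt⟩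
  · intro a _ b _ hab
    exact Fin.ext (by simpa using hab)
  · intro b hb
    rw [Finset.mem_filter] at hb
    exact ⟨⟨b, hb.2⟩, Finset.mem_univ _, rfl⟩
  · intro i _; rfl

theorem card_pairs {L : ℕ} (S : Finset (Fin L)) :
    ∑ j : Fin L, ∑ i : Fin L, (if i < j ∧ i ∈ S ∧ j ∈ S then 1 else 0) = S.card.choose 2 := by
  induction S using Finset.induction_on_max with
  | empty => simp
  | insert a S ha ih =>
    have hnot : a ∉ S := fun h => lt_irrefl _ (ha a h)
    rw [Finset.card_insert_of_notMem hnot, Nat.choose_succ_succ' S.card 1, Nat.choose_one_right,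
      ← ih]
    have h1 : ∀ j i : Fin L, (if i < j ∧ i ∈ insert a S ∧ j ∈ insert a S then 1 else 0)
        = (if j = a ∧ i ∈ S then 1 else 0) + (if i < j ∧ i ∈ S ∧ j ∈ S then 1 else 0) := by
      intro j i
      by_cases hj : j = a
      · subst hj
        by_cases hi : i ∈ S
        · have h2 := ha i hi
          simp [hi, h2, hnot]
        · by_cases hij : i = j
          · subst hij; simp [hnot]
          · simp [hi, hij, hnot]
      · by_cases hi : i = a
        · subst hi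
          have h3 : ¬ (i < j ∧ j ∈ S) := fun h => lt_asymm h.1 (ha j h.2)
          simp only [Finset.mem_insert, hj, hnot, false_or, false_and, and_false, if_false,
            true_or, true_and]
          rw [if_neg h3]
        · simp [hi, hj]
    simp_rw [h1, Finset.sum_add_distrib]
    congr 1
    rw [Finset.sum_eq_single a]
    · simp
    · intro j _ hj; simp [hj]
    · intro h; exact absurd (Finset.mem_univ _) h

/-- Lower and upper joint degree. -/
def loF (k : ℕ) : ℕ := k.choose 2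

/-- Upper joint degree in `k` variables. -/
def upF (L k : ℕ) : ℕ := L.choose 2 - (L - k).choose 2

theorem PhiP_bd (L : ℕ) : JointBd loF (upF L) (PhiP L) := by
  intro S
  unfold PhiP
  have h : Bd S (∑ j : Fin L, ∑ i : Fin L, (if i < j ∧ i ∈ S ∧ j ∈ S then 1 else 0))
      (∑ j : Fin L, ∑ i : Fin L, (if i < j ∧ (i ∈ S ∨ j ∈ S) then 1 else 0))
      (∏ j : Fin L, ∏ i : Fin L,
        if i < j then C ((q - q⁻¹)⁻¹) * (C q * X j - C q⁻¹ * X i)
        else (1 : MvPolynomial (Fin L) ℂ)) := by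
    refine Bd.prod _ _ _ _ fun j _ => Bd.prod _ _ _ _ fun i _ => ?_
    by_cases hij : i < j
    · simp only [hij, if_true, true_and]
      exact Bd.C_mul (Bd.lin S i j q q⁻¹) _
    · simp only [hij, if_false, false_and]
      exact Bd.one S
  refine h.mono ?_ ?_
  · rw [card_pairs]; exact le_refl _
  · have h1 : (∑ j : Fin L, ∑ i : Fin L, (if i < j ∧ (i ∈ S ∨ j ∈ S) then 1 else 0))
        + (∑ j : Fin L, ∑ i : Fin L, (if i < j ∧ i ∈ Sᶜ ∧ j ∈ Sᶜ then 1 else 0))
        = ∑ j : Fin L, ∑ i : Fin L,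
          (if i < j ∧ i ∈ (Finset.univ : Finset (Fin L)) ∧ j ∈ (Finset.univ : Finset (Fin L))
            then 1 else 0) := by
      rw [← Finset.sum_add_distrib]
      refine Finset.sum_congr rfl fun j _ => ?_
      rw [← Finset.sum_add_distrib]
      refine Finset.sum_congr rfl fun i _ => ?_
      by_cases hij : i < j <;> by_cases hi : i ∈ S <;> by_cases hj : j ∈ S <;>
        simp [hij, hi, hj]
    rw [card_pairs, card_pairs, Finset.card_compl, Finset.card_univ, Fintype.card_fin] at h1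
    unfold upF
    omega

end Pool.Agent.H12.QKZ

end

section

/-!
# The total length of the arcs of a link pattern
-/

namespace Pool.Agent.H12.QKZ

open H56.EX

variable {L : ℕ}

/-- Twice the total length of the arcs. -/
noncomputable def area (P : Pat L) : ℤ := ∑ x ∈ Finset.Ico (0 : ℤ) L, |P.m x - x|

theorem area_le (P : Pat L) : area P ≤ L * L := by
  unfold area
  calc ∑ x ∈ Finset.Ico (0 : ℤ) L, |P.m x - x| ≤ ∑ x ∈ Finset.Ico (0 : ℤ) L, (L : ℤ) :=
        Finset.sum_le_sum fun x _ => (P.short x).le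
    _ = L * L := by simp

theorem sum_class (hL : 1 ≤ L) (c v : ℤ) :
    ∑ x ∈ Finset.Ico (0 : ℤ) L, (if Cg L x c then v else 0) = v := by
  have hpos : (0 : ℤ) < L := by omega
  rw [Finset.sum_eq_single (c % (L : ℤ))]
  · rw [if_pos]
    unfold Cg
    rw [show c % (L : ℤ) - c = -(c - c % L) by ring, dvd_neg]
    exact Int.dvd_self_sub_emod
  · intro x hx hne
    rw [if_neg]
    intro hc
    apply hne
    rw [Finset.mem_Ico] at hx
    have h1 : x % (L : ℤ) = c % L :=
      Int.emod_eq_emod_iff_emod_sub_eq_zero.2 (Int.emod_eq_zero_of_dvd hc)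
    rw [← h1, Int.emod_eq_of_lt hx.1 hx.2]
  · intro hx
    exfalso
    apply hx
    rw [Finset.mem_Ico]
    exact ⟨Int.emod_nonneg _ hpos.ne', Int.emod_lt_of_pos _ hpos⟩

theorem not_cg_m_self (P : Pat L) (x : ℤ) : ¬ Cg L (P.m x) x := P.not_dvd_self x

/-- Change of the area under `e_i`. -/
theorem area_E (P : Pat L) (i : ℤ) (h : ¬ Cg L (P.m i) (i + 1)) :
    area (E i P) + 2 * |P.m i - i| + 2 * |P.m (i + 1) - (i + 1)|
      = area P + 2 + 2 * |P.m (i + 1) - P.m i| := by
  have hL2 := P.two_le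
  have hL : 1 ≤ L := by omega
  set a := P.m i with ha
  set b := P.m (i + 1) with hb
  have hPa : P.m a = i := P.inv i
  have hPb : P.m b = i + 1 := P.inv (i + 1)
  have n1 : ¬ Cg L i (i + 1) := not_Cg_succ hL2 i
  have n1' : ¬ Cg L (i + 1) i := fun h => n1 (Cg.symm' h)
  have n2 : ¬ Cg L a i := not_cg_m_self P i
  have n3 : ¬ Cg L b (i + 1) := not_cg_m_self P (i + 1)
  have n4 : ¬ Cg L b i := by
    intro h'
    apply h
    have := Cg.m P h'
    rw [hPb, ← ha] at this
    exact Cg.symm' this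
  have n5 : ¬ Cg L a b := fun h' => n1 (Cg.m' P h')
  have n5' : ¬ Cg L b a := fun h' => n5 (Cg.symm' h')
  have key : ∀ x : ℤ, |(E i P).m x - x| = |P.m x - x|
      + (if Cg L x i then 1 - |a - i| else 0)
      + (if Cg L x (i + 1) then 1 - |b - (i + 1)| else 0)
      + (if Cg L x a then |b - a| - |a - i| else 0)
      + (if Cg L x b then |b - a| - |b - (i + 1)| else 0) := by
    intro x
    by_cases c1 : Cg L x i
    · have e1 : ¬ Cg L x (i + 1) := fun h' => n1 (Cg.trans' (Cg.symm' c1) h')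
      have e2 : ¬ Cg L x a := fun h' => n2 (Cg.trans' (Cg.symm' h') c1)
      have e3 : ¬ Cg L x b := fun h' => n4 (Cg.trans' (Cg.symm' h') c1)
      rw [if_pos c1, if_neg e1, if_neg e2, if_neg e3, E.of_i P i c1]
      have hm : P.m x = a + (x - i) := P.per_dvd c1
      rw [hm, show x + 1 - x = 1 by ring, show a + (x - i) - x = a - i by ring]
      simp
    by_cases c2 : Cg L x (i + 1)
    · have e2 : ¬ Cg L x a := fun h' => h (Cg.trans' (Cg.symm' h') c2)
      have e3 : ¬ Cg L x b := fun h' => n3 (Cg.trans' (Cg.symm' h') c2)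
      rw [if_neg c1, if_pos c2, if_neg e2, if_neg e3, E.of_succ P i c2]
      have hm : P.m x = b + (x - (i + 1)) := P.per_dvd c2
      rw [hm, show x - 1 - x = -1 by ring, show b + (x - (i + 1)) - x = b - (i + 1) by ring]
      simp
    by_cases c3 : Cg L x a
    · have e3 : ¬ Cg L x b := fun h' => n5 (Cg.trans' (Cg.symm' c3) h')
      rw [if_neg c1, if_neg c2, if_pos c3, if_neg e3]
      have hm : P.m x = i + (x - a) := by rw [P.per_dvd c3, hPa]
      have hc : Cg L (P.m x) i := by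
        rw [hm]; unfold Cg; unfold Cg at c3
        rwa [show i + (x - a) - i = x - a by ring]
      rw [E.of_m P i c1 c2 hc, hm]
      have hm2 : P.m (i + (x - a) + 1) = b + (x - a) := by
        have : Cg L (i + (x - a) + 1) (i + 1) := by
          unfold Cg; unfold Cg at c3
          rwa [show i + (x - a) + 1 - (i + 1) = x - a by ring]
        rw [P.per_dvd this, ← hb]; ring
      rw [hm2, show b + (x - a) - x = b - a by ring, show i + (x - a) - x = -(a - i) by ring,
        abs_neg]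
      ring
    by_cases c4 : Cg L x b
    · rw [if_neg c1, if_neg c2, if_neg c3, if_pos c4]
      have hm : P.m x = i + 1 + (x - b) := by rw [P.per_dvd c4, hPb]
      have hc : Cg L (P.m x) (i + 1) := by
        rw [hm]; unfold Cg; unfold Cg at c4
        rwa [show i + 1 + (x - b) - (i + 1) = x - b by ring]
      rw [E.of_m_succ P i c1 c2 hc, hm]
      have hm2 : P.m (i + 1 + (x - b) - 1) = a + (x - b) := by
        have : Cg L (i + 1 + (x - b) - 1) i := by
          unfold Cg; unfold Cg at c4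
          rwa [show i + 1 + (x - b) - 1 - i = x - b by ring]
        rw [P.per_dvd this, ← ha]; ring
      rw [hm2, show a + (x - b) - x = -(b - a) by ring, abs_neg,
        show i + 1 + (x - b) - x = -(b - (i + 1)) by ring, abs_neg]
      ring
    · rw [if_neg c1, if_neg c2, if_neg c3, if_neg c4]
      have e1 : ¬ Cg L (P.m x) i := by
        intro h'
        apply c3
        apply Cg.m' P
        rw [hPa]; exact h'
      have e2 : ¬ Cg L (P.m x) (i + 1) := by
        intro h'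
        apply c4
        apply Cg.m' P
        rw [hPb]; exact h'
      rw [E.other P i c1 c2 e1 e2]
      ring
  have hsum : area (E i P) = area P + (1 - |a - i|) + (1 - |b - (i + 1)|)
      + (|b - a| - |a - i|) + (|b - a| - |b - (i + 1)|) := by
    unfold area
    rw [Finset.sum_congr rfl fun x _ => key x]
    simp only [Finset.sum_add_distrib, sum_class hL]
  rw [hsum]; ring

end Pool.Agent.H12.QKZ

end

section

/-!
# Good positions of a link pattern and the fibres of `e_i`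
-/

namespace Pool.Agent.H12.QKZ

open H56.EX

variable {L : ℕ}

/-- `i` is a good position of `P`: strands `i` and `i+1` are connected to the left and to the right,
respectively, and not with each other. -/
def Good (P : Pat L) (i : ℤ) : Prop :=
  P.m i < i ∧ i + 1 < P.m (i + 1) ∧ ¬ Cg L (P.m i) (i + 1)

theorem cg_iff_eq_zero {L : ℕ} {x y : ℤ} (h1 : x - y < L) (h2 : -(L : ℤ) < x - y) :
    Cg L x y ↔ x = y := by
  constructor
  · intro h
    rcases dvd_cases h with h | h | h <;> omega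
  · rintro rfl; exact Cg.refl' x

theorem _root_.H56.EX.Pat.partner_close' (P : Pat L) {i : ℤ} (h : ¬ Cg L (P.m i) (i + 1)) :
    P.m (i + 1) - P.m i < L ∧ P.m i - P.m (i + 1) < L := partner_close P h

theorem exists_adj (P : Pat L) {y : ℤ} (hy : P.m y < y) :
    ∀ k : ℕ, y + k < P.m (y + k) → ∃ i, P.m i < i ∧ i + 1 < P.m (i + 1) := by
  intro k
  induction k with
  | zero => intro h; simp only [Nat.cast_zero, add_zero] at h; omega
  | succ k ih =>
    intro h
    rcases lt_or_gt_of_ne (P.ne (y + k)) with h1 | h1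
    · refine ⟨y + k, h1, ?_⟩
      have e : y + ((k + 1 : ℕ) : ℤ) = y + k + 1 := by push_cast; ring
      rw [e] at h; exact h
    · exact ih h1

theorem exists_adj' (P : Pat L) : ∃ i, P.m i < i ∧ i + 1 < P.m (i + 1) := by
  -- an opener
  obtain ⟨x, hx⟩ : ∃ x, x < P.m x := by
    rcases lt_or_gt_of_ne (P.ne 0) with h | h
    · exact ⟨P.m 0, by rw [P.inv]; exact h⟩
    · exact ⟨0, h⟩
  have hs := P.short' x
  have hy : P.m (P.m x) < P.m x := by rw [P.inv]; exact hx
  obtain ⟨k, hk⟩ : ∃ k : ℕ, P.m x + k = x + L := ⟨(x + L - P.m x).toNat, by omega⟩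
  apply exists_adj P hy k
  rw [hk, P.per]; omega

/-- Without good positions a pattern is a rotation of the base pattern. -/
theorem nested (P : Pat L) (h : ∀ i, ¬ Good P i) {i : ℤ} (hi1 : P.m i < i)
    (hi2 : i + 1 < P.m (i + 1)) : ∀ k : ℕ, 2 * k < L → P.m (i + 1 + k) = i + L - k := by
  have hL := P.two_le
  have hcg : Cg L (P.m i) (i + 1) := by
    by_contra hc
    exact h i ⟨hi1, hi2, hc⟩
  have s1 := P.short' i
  have hmi : P.m i = i + 1 - L := by
    have := dvd_cases hcg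
    omega
  have hmi1 : P.m (i + 1) = i + L := by
    have h1 := P.per (P.m i)
    rw [P.inv, hmi, show i + 1 - (L : ℤ) + L = i + 1 by ring] at h1
    exact h1
  intro k
  induction k using Nat.strong_induction_on with
  | _ k ih =>
    intro hk
    rcases Nat.eq_zero_or_pos k with h0 | hpos
    · subst h0; simpa using hmi1
    obtain ⟨k', rfl⟩ : ∃ k', k = k' + 1 := ⟨k - 1, by omega⟩
    have hx' := ih k' (by omega) (by omega)
    obtain ⟨x, hx⟩ : ∃ x : ℤ, x = i + 1 + ((k' + 1 : ℕ) : ℤ) := ⟨_, rfl⟩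
    obtain ⟨Y, hY⟩ : ∃ Y : ℤ, Y = i + L - ((k' + 1 : ℕ) : ℤ) := ⟨_, rfl⟩
    rw [← hx, ← hY]
    have hk2 : 2 * ((k' + 1 : ℕ) : ℤ) < L := by exact_mod_cast hk
    push_cast at hx hY hk2
    have hx1 : P.m (x - 1) = Y + 1 := by
      rw [hx, hY, show i + 1 + ((k' : ℤ) + 1) - 1 = i + 1 + k' by ring, hx']; ring
    have n1 := P.nc (x - 1) x (by omega) (by omega)
    have n2 := P.ne x
    by_contra hne
    have hlt : P.m x < Y := by omega
    obtain ⟨y, hy⟩ : ∃ y, y = P.m x := ⟨_, rfl⟩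
    rw [← hy] at hlt n1 n2
    have hmy : P.m y = x := by rw [hy, P.inv]
    have n3 := P.nc (x - 1) (y + 1) (by omega) (by omega)
    have n4 := P.ne (y + 1)
    have n5 : P.m (y + 1) ≠ x := by
      intro h'
      have := congrArg P.m h'
      rw [P.inv, ← hy] at this
      omega
    have n6 : P.m (y + 1) ≠ y := by
      intro h'
      have := congrArg P.m h'
      rw [P.inv, hmy] at this
      omega
    rcases lt_or_gt_of_ne n4 with h4 | h4
    · have := P.nc x (P.m (y + 1)) (by omega) (by omega)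
      rw [P.inv] at this
      omega
    · apply h y
      refine ⟨by omega, h4, ?_⟩
      rw [hmy]
      intro hc
      have := (cg_iff_eq_zero (by omega) (by omega)).1 hc
      omega

theorem rot_iter_m (B : Pat L) (k : ℕ) (x : ℤ) : (rot^[k] B).m x = B.m (x - k) + k := by
  induction k generalizing x with
  | zero => simp
  | succ k ih =>
    rw [Function.iterate_succ', Function.comp_apply, rot_m, ih]
    push_cast
    rw [show x - 1 - (k : ℤ) = x - (k + 1) by ring]; ring

theorem good_or_base (P : Pat L) :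
    (∃ (k : ℕ) (B : Pat L), IsBase B ∧ P = rot^[k] B) ∨ ∃ i, Good P i := by
  by_cases h : ∃ i, Good P i
  · exact Or.inr h
  left
  push Not at h
  have hL := P.two_le
  obtain ⟨i, hi1, hi2⟩ := exists_adj' P
  have hn := nested P h hi1 hi2
  obtain ⟨n, hn2⟩ : ∃ n, L = 2 * n := by
    rcases Nat.even_or_odd' L with ⟨n, hn' | hn'⟩
    · exact ⟨n, hn'⟩
    · exfalso
      have := hn n (by omega)
      apply P.ne (i + 1 + n)
      rw [this, hn']; push_cast; ring
  obtain ⟨c, hc⟩ : ∃ c : ℤ, c = i + 1 + n := ⟨_, rfl⟩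
  have hbase : ∀ x : ℤ, -(L : ℤ) ≤ 2 * x → 2 * x < L → P.m (x + c) - c = -1 - x := by
    have hneg : ∀ x : ℤ, -(L : ℤ) ≤ 2 * x → x < 0 → P.m (x + c) - c = -1 - x := by
      intro x h1 h2
      obtain ⟨k, hk⟩ : ∃ k : ℕ, (k : ℤ) = n + x := ⟨(n + x).toNat, by omega⟩
      have := hn k (by omega)
      rw [hk] at this
      rw [show x + c = i + 1 + (n + x) by rw [hc]; ring, this, hc]
      subst hn2; push_cast; ring
    intro x h1 h2
    rcases lt_or_ge x 0 with h3 | h3
    · exact hneg x h1 h3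
    · have := hneg (-1 - x) (by omega) (by omega)
      have h4 : P.m (-1 - x + c) = x + c := by linarith
      have h5 := P.inv (-1 - x + c)
      rw [h4] at h5
      linarith
  -- the base pattern
  let B : Pat L :=
    { m := fun x => P.m (x + c) - c
      inv := fun x => by
        show P.m (P.m (x + c) - c + c) - c = x
        rw [sub_add_cancel, P.inv]; ring
      per := fun x => by
        show P.m (x + L + c) - c = P.m (x + c) - c + L
        rw [show x + (L : ℤ) + c = x + c + L by ring, P.per]; ring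
      ne := fun x h' => P.ne (x + c) (by linarith)
      short := fun x => by
        have := P.short (x + c)
        show |P.m (x + c) - c - x| < L
        rwa [show P.m (x + c) - c - x = P.m (x + c) - (x + c) by ring]
      nc := fun x y h1 h2 => by
        have := P.nc (x + c) (y + c) (by linarith) (by linarith)
        exact ⟨by linarith [this.1], by linarith [this.2]⟩ }
  refine ⟨(c % L).toNat, B, fun x h1 h2 => hbase x h1 h2, ?_⟩
  apply Pat.ext
  funext x
  rw [rot_iter_m]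
  have hpos : (0 : ℤ) < L := by omega
  have hk : (((c % L).toNat : ℕ) : ℤ) = c % L := Int.toNat_of_nonneg (Int.emod_nonneg _ hpos.ne')
  rw [hk]
  show P.m x = P.m (x - c % L + c) - c + c % L
  have hd : Cg L (x - c % L + c) x := by
    unfold Cg
    rw [show x - c % L + c - x = c - c % L by ring]
    exact Int.dvd_self_sub_emod
  rw [P.per_dvd hd]; ring

theorem area_lt_of_good {P : Pat L} {i : ℤ} (h : Good P i) : area P < area (E i P) := by
  have := area_E P i h.2.2
  rw [abs_of_neg (by linarith [h.1] : P.m i - i < 0),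
    abs_of_pos (by linarith [h.2.1] : 0 < P.m (i + 1) - (i + 1)),
    abs_of_pos (by linarith [h.1, h.2.1] : 0 < P.m (i + 1) - P.m i)] at this
  linarith

/-- The fibre of `e_i` over `e_i P` for a good position. -/
theorem fibre_of_good {P P' : Pat L} {i : ℤ} (h : Good P i) (hE : E i P' = E i P) :
    P' = P ∨ area P < area P' := by
  have hL := P.two_le
  have hA := area_lt_of_good h
  obtain ⟨h1, h2, h3⟩ := h
  by_cases c0 : P'.m i = i + 1
  · right
    have := E.eq_self P' i c0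
    rw [← this, hE]; exact hA
  obtain ⟨a, ha⟩ : ∃ a, a = P.m i := ⟨_, rfl⟩
  obtain ⟨b, hb⟩ : ∃ b, b = P.m (i + 1) := ⟨_, rfl⟩
  obtain ⟨a', ha'⟩ : ∃ a', a' = P'.m i := ⟨_, rfl⟩
  obtain ⟨b', hb'⟩ : ∃ b', b' = P'.m (i + 1) := ⟨_, rfl⟩
  have hPa : P.m a = i := by rw [ha, P.inv]
  have hPb : P.m b = i + 1 := by rw [hb, P.inv]
  have hPa' : P'.m a' = i := by rw [ha', P'.inv]
  have hPb' : P'.m b' = i + 1 := by rw [hb', P'.inv]
  have n1 : ¬ Cg L i (i + 1) := not_Cg_succ hL i
  have n1' : ¬ Cg L (i + 1) i := fun h => n1 (Cg.symm' h)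
  have sa := P.short' i
  have sb := P.short' (i + 1)
  have sa' := P'.short' i
  have sb' := P'.short' (i + 1)
  rw [← ha] at h1 h3 sa
  rw [← hb] at h2 sb
  rw [← ha'] at sa' c0
  rw [← hb'] at sb'
  have na : ¬ Cg L a i := by rw [ha]; exact not_cg_m_self P i
  have nb1 : ¬ Cg L b (i + 1) := by rw [hb]; exact not_cg_m_self P (i + 1)
  have nb : ¬ Cg L b i := by
    intro h'
    apply h3
    have := Cg.m P h'
    rw [hPb, ← ha] at this
    exact Cg.symm' this
  -- values of `Q = E i P`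
  have hQa : (E i P).m a = b := by
    rw [E.of_m P i na h3 (by rw [hPa]; exact Cg.refl' _), hPa, hb]
  have hcl := P.partner_close' (by rw [← ha]; exact h3)
  rw [← ha, ← hb] at hcl
  by_cases c1 : Cg L a' (i + 1)
  · -- matched around
    exfalso
    have e1 : a' = i + 1 - L := by
      have := dvd_cases c1
      omega
    have e2 : P'.m (i + 1 - L) = i := by rw [← e1]; exact hPa'
    have e3 : a ≠ i + 1 - L := by
      rintro rfl
      apply h3
      unfold Cg
      rw [show i + 1 - (L : ℤ) - (i + 1) = -L by ring, dvd_neg]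
    have e4 := P'.nc (i + 1 - L) a (by omega) (by omega)
    have e5 : ¬ Cg L (P'.m a) i := by
      intro h'
      have := Cg.m P' h'
      rw [P'.inv, ← ha'] at this
      exact h3 (Cg.trans' this c1)
    have e6 : ¬ Cg L (P'.m a) (i + 1) := by
      intro h'
      have h7 := Cg.m P' h'
      rw [P'.inv, ← hb'] at h7
      have h8 : Cg L b' i := by
        have := Cg.m P' (Cg.symm' c1)
        rw [hPa', ← hb'] at this
        exact this
      exact na (Cg.trans' h7 h8)
    have e7 : (E i P').m a = P'.m a := E.other P' i na h3 e5 e6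
    rw [hE, hQa] at e7
    omega
  have na' : ¬ Cg L a' i := by rw [ha']; exact not_cg_m_self P' i
  have nb1' : ¬ Cg L b' (i + 1) := by rw [hb']; exact not_cg_m_self P' (i + 1)
  have nb' : ¬ Cg L b' i := by
    intro h'
    apply c1
    have := Cg.m P' h'
    rw [hPb', ← ha'] at this
    exact Cg.symm' this
  have hQa' : (E i P').m a' = b' := by
    rw [E.of_m P' i na' c1 (by rw [hPa']; exact Cg.refl' _), hPa', hb']
  have hcl' := P'.partner_close' (by rw [← ha']; exact c1)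
  rw [← ha', ← hb'] at hcl'
  have hAE := area_E P' i (by rw [← ha']; exact c1)
  rw [← ha', ← hb', hE] at hAE
  have nea : a' ≠ i := by rw [ha']; exact P'.ne i
  have neb : b' ≠ i + 1 := by rw [hb']; exact P'.ne (i + 1)
  have neb' : b' ≠ i := by
    intro h'
    apply c0
    rw [← hPb', h', ← ha']
  rcases lt_or_gt_of_ne nea with g1 | g1
  · rcases lt_or_gt_of_ne neb with g2 | g2
    · -- closer at `i + 1` covering `i`
      right
      have hb'i : b' < i := by omega
      have := P'.nc b' i hb'i (by rw [hPb']; omega)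
      rw [← ha', hPb'] at this
      rw [abs_of_neg (by omega : a' - i < 0), abs_of_neg (by omega : b' - (i + 1) < 0),
        abs_of_neg (by omega : b' - a' < 0)] at hAE
      omega
    · -- the interesting case
      left
      have haa : a' = a := by
        rcases lt_trichotomy a' a with g | g | g
        · exfalso
          have e4 := P'.nc a' a g (by rw [hPa']; exact h1)
          rw [hPa'] at e4
          have e5 : ¬ Cg L (P'.m a) i := by
            intro h'
            have := Cg.m P' h'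
            rw [P'.inv, ← ha'] at this
            have := (cg_iff_eq_zero (by omega) (by omega)).1 this
            omega
          have e6 : ¬ Cg L (P'.m a) (i + 1) := by
            intro h'
            have := Cg.m P' h'
            rw [P'.inv, ← hb'] at this
            have := (cg_iff_eq_zero (by omega) (by omega)).1 this
            omega
          have e7 : (E i P').m a = P'.m a := E.other P' i na h3 e5 e6
          rw [hE, hQa] at e7
          omega
        · exact g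
        · exfalso
          have e4 := P.nc a a' g (by rw [hPa]; exact g1)
          rw [hPa] at e4
          have e5 : ¬ Cg L (P.m a') i := by
            intro h'
            have := Cg.m P h'
            rw [P.inv, ← ha] at this
            have := (cg_iff_eq_zero (by omega) (by omega)).1 this
            omega
          have e6 : ¬ Cg L (P.m a') (i + 1) := by
            intro h'
            have := Cg.m P h'
            rw [P.inv, ← hb] at this
            have := (cg_iff_eq_zero (by omega) (by omega)).1 this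
            omega
          have e7 : (E i P).m a' = P.m a' := E.other P i na' c1 e5 e6
          rw [← hE, hQa'] at e7
          omega
      subst haa
      have hbb : b' = b := by
        rw [hE, hQa] at hQa'
        exact hQa'.symm
      subst hbb
      apply Pat.ext
      funext x
      by_cases x1 : Cg L x i
      · exact Pat.eq_of_dvd x1 (by rw [← ha, ← ha'])
      by_cases x2 : Cg L x (i + 1)
      · exact Pat.eq_of_dvd x2 (by rw [← hb, ← hb'])
      by_cases x3 : Cg L x a'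
      · exact Pat.eq_of_dvd x3 (by rw [hPa, hPa'])
      by_cases x4 : Cg L x b'
      · exact Pat.eq_of_dvd x4 (by rw [hPb, hPb'])
      have y1 : ¬ Cg L (P.m x) i := fun h' => x3 (Cg.m' P (by rw [hPa]; exact h'))
      have y2 : ¬ Cg L (P.m x) (i + 1) := fun h' => x4 (Cg.m' P (by rw [hPb]; exact h'))
      have y3 : ¬ Cg L (P'.m x) i := fun h' => x3 (Cg.m' P' (by rw [hPa']; exact h'))
      have y4 : ¬ Cg L (P'.m x) (i + 1) := fun h' => x4 (Cg.m' P' (by rw [hPb']; exact h'))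
      rw [← E.other P i x1 x2 y1 y2, ← E.other P' i x1 x2 y3 y4, hE]
  · -- opener at `i`
    right
    have := P'.nc i (i + 1) (by omega) (by rw [← ha']; omega)
    rw [← ha', ← hb'] at this
    rw [abs_of_pos (by omega : 0 < a' - i), abs_of_pos (by omega : 0 < b' - (i + 1)),
      abs_of_neg (by omega : b' - a' < 0)] at hAE
    omega

end Pool.Agent.H12.QKZ

end

section

/-! Arc recursion of the leg sums. -/

namespace H56.EX

open scoped BigOperators Classical

variable {Lt Lb L : ℕ}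

/-- inverse rotation -/
def unrot (P : Pat L) : Pat L where
  m := fun x => P.m (x + 1) - 1
  inv := fun x => by simp [P.inv]
  per := fun x => by
    show P.m (x + L + 1) - 1 = P.m (x + 1) - 1 + L
    rw [show x + (L : ℤ) + 1 = x + 1 + L by ring, P.per]; ring
  ne := fun x h => P.ne (x + 1) (by linarith)
  short := fun x => by
    have := P.short (x + 1)
    have e : P.m (x + 1) - 1 - x = P.m (x + 1) - (x + 1) := by ring
    show |P.m (x + 1) - 1 - x| < L
    rwa [e]
  nc := fun x y h1 h2 => by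
    have := P.nc (x + 1) (y + 1) (by linarith) (by linarith)
    exact ⟨by linarith [this.1], by linarith [this.2]⟩

/-- rotation as a bijection -/
def rotEquiv (L : ℕ) : Pat L ≃ Pat L where
  toFun := rot
  invFun := unrot
  left_inv := fun P => by
    apply Pat.ext; funext x
    show P.m (x + 1 - 1) + 1 - 1 = P.m x
    rw [show x + 1 - 1 = x by ring]; ring
  right_inv := fun P => by
    apply Pat.ext; funext x
    show P.m (x - 1 + 1) - 1 + 1 = P.m x
    rw [show x - 1 + 1 = x by ring]; ring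

/-- the scalar of the arc recursion -/
noncomputable def gfac (L : ℕ) (i : ℤ) (ζ : ℤ → ℂ) : ℂ :=
  -q * ζ (i + 1) * (∏ s ∈ Finset.range L, (ζ (i + 2 + s) - q * ζ (i + 1)) ^ 2) / 3 ^ L

/-- a sum over `Pat (L+2)` of a function supported on patterns with a small arc at `i`. -/
lemma sum_arc (hL : 2 ≤ L) (i : ℤ) (f : Pat (L + 2) → ℂ) (hf : ∀ P, P.m i ≠ i + 1 → f P = 0) :
    ∑ P, f P = ∑ Q : Pat L, f (ins i Q) := by
  rw [← Finset.sum_image (s := Finset.univ) (g := ins (L := L) i)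
    (fun a _ b _ h => ins_injective i h)]
  symm
  apply Finset.sum_subset (Finset.subset_univ _)
  intro P _ hP
  apply hf
  intro h
  obtain ⟨Q, hQ⟩ := exists_ins hL i P h
  exact hP (Finset.mem_image.2 ⟨Q, Finset.mem_univ _, hQ.symm⟩)

section psi

variable {Ψ : ∀ L : ℕ, Pat L → (ℤ → ℂ) → ℂ} (hΨ : PsiProps Ψ)

include hΨ

/-- right recursion: the last top leg becomes a bottom leg -/
theorem rec_right (kt kb M : ℕ)
    (LT3 : ∀ (Pt : Pat Lt) (Pb : Pat Lb),
      Leg (kt + 1) kb (M + 1) (ins kt Pt) Pb ↔ Leg kt (kb + 1) M Pt Pb)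
    (hL : 2 ≤ Lt) (ζ : ℤ → ℂ) (hζ : Per (Lt + 2) ζ) (h : ζ kt = q ^ 2 * ζ (kt + 1))
    (w : Pat Lb → ℂ) :
    legSum (kt + 1) kb (M + 1) (fun P : Pat (Lt + 2) => Ψ (Lt + 2) P ζ) w =
      gfac Lt kt ζ * legSum kt (kb + 1) M
        (fun P : Pat Lt => Ψ Lt P (fun x => ζ (phi Lt kt x))) w := by
  rw [legSum_eq, legSum_eq, sum_arc hL kt]
  · rw [Finset.mul_sum]
    refine Finset.sum_congr rfl fun Q _ => ?_
    rw [Finset.mul_sum]
    refine Finset.sum_congr rfl fun Pb _ => ?_
    rw [hΨ.arc Lt Q ζ hζ kt h]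
    have : chi (kt + 1) kb (M + 1) (ins (kt : ℤ) Q) Pb = chi kt (kb + 1) M Q Pb := by
      unfold chi; simp only [LT3]
    rw [this]
    unfold gfac
    ring
  · intro P hP
    apply Finset.sum_eq_zero
    intro Pb _
    rw [hΨ.arc_zero (Lt + 2) P ζ hζ kt h hP]
    ring

/-- left recursion: the first top leg becomes a bottom leg (bottom rotated) -/
theorem rec_left (kt kb M : ℕ)
    (LT4 : ∀ (Pt : Pat Lt) (Pb : Pat Lb),
      Leg (kt + 1) kb (M + 1) (ins (-1) Pt) Pb ↔ Leg kt (kb + 1) M (rot Pt) (rot Pb))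
    (hL : 2 ≤ Lt) (ζ ξ : ℤ → ℂ) (hζ : Per (Lt + 2) ζ) (hξ : Per Lb ξ)
    (h : ζ (-1) = q ^ 2 * ζ 0) :
    legSum (kt + 1) kb (M + 1) (fun P : Pat (Lt + 2) => Ψ (Lt + 2) P ζ)
        (fun P : Pat Lb => Ψ Lb P ξ) =
      gfac Lt (-1) ζ * legSum kt (kb + 1) M
        (fun P : Pat Lt => Ψ Lt P (fun x => ζ (phi Lt (-1) (x - 1))))
        (fun P : Pat Lb => Ψ Lb P (fun x => ξ (x - 1))) := by
  have hper : Per Lt (fun x => ζ (phi Lt (-1) x)) := by
    intro x
    show ζ (phi Lt (-1) (x + Lt)) = ζ (phi Lt (-1) x)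
    rw [phi_add_L (by omega)]
    have := hζ (phi Lt (-1) x)
    push_cast at this
    exact this
  have h' : ζ (-1) = q ^ 2 * ζ (-1 + 1) := by simpa using h
  rw [legSum_eq, legSum_eq, sum_arc hL (-1)]
  · have hR : (∑ Pt : Pat Lt, ∑ Pb : Pat Lb, chi kt (kb + 1) M Pt Pb *
        (Ψ Lt Pt (fun x => ζ (phi Lt (-1) (x - 1))) * Ψ Lb Pb (fun x => ξ (x - 1)))) =
        ∑ Q : Pat Lt, ∑ Pb : Pat Lb, chi kt (kb + 1) M ((rotEquiv Lt) Q) ((rotEquiv Lb) Pb) *
        (Ψ Lt ((rotEquiv Lt) Q) (fun x => ζ (phi Lt (-1) (x - 1))) *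
          Ψ Lb ((rotEquiv Lb) Pb) (fun x => ξ (x - 1))) := by
      rw [← Equiv.sum_comp (rotEquiv Lt)]
      refine Finset.sum_congr rfl fun Q _ => ?_
      rw [← Equiv.sum_comp (rotEquiv Lb)]
    rw [hR, Finset.mul_sum]
    refine Finset.sum_congr rfl fun Q _ => ?_
    rw [Finset.mul_sum]
    refine Finset.sum_congr rfl fun Pb _ => ?_
    rw [hΨ.arc Lt Q ζ hζ (-1) h']
    have e1 : chi (kt + 1) kb (M + 1) (ins (-1) Q) Pb =
        chi kt (kb + 1) M ((rotEquiv Lt) Q) ((rotEquiv Lb) Pb) := by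
      unfold chi; simp only [LT4]; rfl
    have e2 : Ψ Lt ((rotEquiv Lt) Q) (fun x => ζ (phi Lt (-1) (x - 1))) =
        Ψ Lt Q (fun x => ζ (phi Lt (-1) x)) :=
      hΨ.rot Lt Q (fun x => ζ (phi Lt (-1) x)) hper
    have e3 : Ψ Lb ((rotEquiv Lb) Pb) (fun x => ξ (x - 1)) = Ψ Lb Pb ξ := hΨ.rot Lb Pb ξ hξ
    rw [e1, e2, e3]
    unfold gfac
    ring
  · intro P hP
    apply Finset.sum_eq_zero
    intro Pb _
    rw [hΨ.arc_zero (Lt + 2) P ζ hζ (-1) h' hP]
    ring

end psi

/-! ### parameters -/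

lemma per_par (L : ℕ) (s : ℕ → ℂ) : Per L (par L s) := by
  intro x
  unfold par
  rw [Int.add_emod_right]

lemma par_nat {L : ℕ} (s : ℕ → ℂ) {n : ℕ} (h : n < L) : par L s n = s n := by
  unfold par
  rw [Int.emod_eq_of_lt (by omega) (by exact_mod_cast h)]
  simp

lemma par_of {L : ℕ} (s : ℕ → ℂ) {x : ℤ} {n : ℕ} (h : n < L) (hx : Cg L x n) :
    par L s x = s n := by
  rw [← par_nat s h]
  unfold par
  congr 2
  exact (Int.modEq_iff_dvd.2 hx : (n : ℤ) ≡ x [ZMOD L]).symm

end H56.EX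

end

section

/-! Manipulation of the parameter sequences; exchange, recursion and polynomiality of `F22`, `F13`. -/

namespace H56.EX

open scoped BigOperators Classical

lemma par_eq_emod (L : ℕ) (hL : 0 < L) (s : ℕ → ℂ) (x : ℤ) :
    ∃ n : ℕ, n < L ∧ Cg L x n ∧ par L s x = s n := by
  have h0 : 0 ≤ x % (L : ℤ) := Int.emod_nonneg _ (by omega)
  have h1 : x % (L : ℤ) < L := Int.emod_lt_of_pos _ (by omega)
  refine ⟨(x % (L : ℤ)).toNat, by omega, ?_, rfl⟩
  unfold Cg
  rw [Int.toNat_of_nonneg h0]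
  exact Int.dvd_self_sub_emod

lemma swp_par {L : ℕ} (s : ℕ → ℂ) {n : ℕ} (hn : n + 1 < L) :
    swp L n (par L s) = par L (s ∘ Equiv.swap n (n + 1)) := by
  funext x
  unfold swp
  by_cases h1 : Cg L x n
  · rw [if_pos h1, par_of (s ∘ Equiv.swap n (n + 1)) (by omega) h1,
      par_of s hn (n := n + 1) (by push_cast; exact Cg.add 1 h1)]
    simp
  rw [if_neg h1]
  by_cases h2 : Cg L x (n + 1)
  · rw [if_pos h2, par_of (s ∘ Equiv.swap n (n + 1)) hn (n := n + 1) (by push_cast; exact h2),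
      par_of s (n := n) (by omega) (by have := Cg.sub 1 h2; simpa using this)]
    simp
  rw [if_neg h2]
  obtain ⟨m, hm, hc, he⟩ := par_eq_emod L (by omega) s x
  rw [he, par_of _ hm hc]
  have hm1 : m ≠ n := by rintro rfl; exact h1 hc
  have hm2 : m ≠ n + 1 := by
    rintro rfl
    apply h2
    push_cast at hc
    exact hc
  simp [Equiv.swap_apply_of_ne_of_ne hm1 hm2]

lemma upd_par {L : ℕ} (s : ℕ → ℂ) {n : ℕ} (hn : n < L) (t : ℂ) :
    upd L (par L s) n t = par L (Function.update s n t) := by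
  funext x
  unfold upd
  by_cases h1 : Cg L x n
  · rw [if_pos h1, par_of _ hn h1]; simp
  rw [if_neg h1]
  obtain ⟨m, hm, hc, he⟩ := par_eq_emod L (by omega) s x
  rw [he, par_of _ hm hc]
  have hm1 : m ≠ n := by rintro rfl; exact h1 hc
  simp [hm1]

/-- removing two strands at `k, k+1` -/
lemma phi_par {L : ℕ} (hL : 1 ≤ L) (s : ℕ → ℂ) (k : ℕ) (hk : k ≤ L) :
    (fun x => par (L + 2) s (phi L k x)) = par L (fun n => if n < k then s n else s (n + 2)) := by
  funext x
  obtain ⟨m, hm, hc, he⟩ := par_eq_emod L (by omega) (fun n => if n < k then s n else s (n + 2)) x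
  rw [he]
  obtain ⟨a, ha⟩ := hc
  have hx : x = m + L * a := by linarith
  by_cases h : m < k
  · simp only [h, if_true]
    apply par_of s (by omega)
    have e : x = k + ((m : ℤ) - k + L) + L * (a - 1) := by rw [hx]; ring
    rw [e, phi_form hL _ _ _ (by omega) (by omega)]
    unfold Cg
    push_cast
    refine ⟨a, by ring⟩
  · simp only [h, if_false]
    apply par_of s (by omega)
    have e : x = k + ((m : ℤ) - k) + L * a := by rw [hx]; ring
    rw [e, phi_form hL _ _ _ (by omega) (by omega)]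
    unfold Cg
    push_cast
    refine ⟨a, by ring⟩

/-- removing the strands `-1, 0` and rotating -/
lemma phi_par_left {L : ℕ} (hL : 1 ≤ L) (s : ℕ → ℂ) :
    (fun x => par (L + 2) s (phi L (-1) (x - 1))) = par L (fun n => s (n + 1)) := by
  funext x
  obtain ⟨m, hm, hc, he⟩ := par_eq_emod L (by omega) (fun n => s (n + 1)) x
  rw [he]
  obtain ⟨a, ha⟩ := hc
  have hx : x = m + L * a := by linarith
  apply par_of s (by omega)
  have e : x - 1 = -1 + (m : ℤ) + L * a := by rw [hx]; ring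
  rw [e, phi_form hL _ _ _ (by omega) (by omega)]
  unfold Cg
  push_cast
  refine ⟨a, by ring⟩

/-- rotating the parameters -/
lemma rot_par {L : ℕ} (hL : 1 ≤ L) (s : ℕ → ℂ) :
    (fun x => par L s (x - 1)) = par L (scons (s (L - 1)) s) := by
  funext x
  obtain ⟨m, hm, hc, he⟩ := par_eq_emod L (by omega) (scons (s (L - 1)) s) x
  rw [he]
  rcases m with _ | m
  · show par L s (x - 1) = s (L - 1)
    apply par_of s (by omega)
    unfold Cg at hc ⊢
    obtain ⟨a, ha⟩ := hc
    refine ⟨a - 1, ?_⟩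
    have : ((L - 1 : ℕ) : ℤ) = L - 1 := by omega
    rw [this]
    push_cast at ha
    linear_combination ha
  · show par L s (x - 1) = s m
    apply par_of s (by omega)
    have := Cg.sub 1 hc
    simpa using this

lemma scons_swap01 (a0 a1 : ℂ) (z : ℕ → ℂ) :
    (scons a0 (scons a1 z)) ∘ Equiv.swap 0 1 = scons a1 (scons a0 z) := by
  funext n
  rcases n with _ | _ | n
  · simp [scons]
  · simp [scons]
  · have : Equiv.swap 0 1 (n + 2) = n + 2 := Equiv.swap_apply_of_ne_of_ne (by omega) (by omega)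
    simp [this, scons]

lemma scons_swap_succ (a : ℂ) (z : ℕ → ℂ) (n : ℕ) :
    (scons a z) ∘ Equiv.swap (n + 1) (n + 2) = scons a (z ∘ Equiv.swap n (n + 1)) := by
  funext m
  rcases m with _ | m
  · have : Equiv.swap (n + 1) (n + 2) 0 = 0 := Equiv.swap_apply_of_ne_of_ne (by omega) (by omega)
    simp [this, scons]
  · by_cases h1 : m = n
    · subst h1; simp [scons]
    by_cases h2 : m = n + 1
    · subst h2; simp [scons]
    have e1 : Equiv.swap (n + 1) (n + 2) (m + 1) = m + 1 :=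
      Equiv.swap_apply_of_ne_of_ne (by omega) (by omega)
    have e2 : Equiv.swap n (n + 1) m = m := Equiv.swap_apply_of_ne_of_ne h1 h2
    simp [e1, e2, scons]

section psi

variable {Ψ : ∀ L : ℕ, Pat L → (ℤ → ℂ) → ℂ} (hΨ : PsiProps Ψ)

include hΨ

theorem F22_swap_a (M : ℕ) (a0 a1 b0 b1 : ℂ) (z : ℕ → ℂ) :
    (q * a1 - q⁻¹ * a0) * F22 Ψ M a1 a0 b0 b1 z = (q * a0 - q⁻¹ * a1) * F22 Ψ M a0 a1 b0 b1 z := by
  have h := exch_hole_top hΨ 2 2 M 0 (by omega) (par (M + 2) (scons a0 (scons a1 z)))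
    (per_par _ _) (fun P : Pat (M + 2) => Ψ (M + 2) P
      (par (M + 2) (scons b0⁻¹ (scons b1⁻¹ (fun n => (z n)⁻¹)))))
  rw [swp_par _ (by omega), scons_swap01] at h
  have e0 : par (M + 2) (scons a0 (scons a1 z)) ((0 : ℕ) : ℤ) = a0 := par_nat _ (by omega)
  have e1 : par (M + 2) (scons a0 (scons a1 z)) (((0 : ℕ) : ℤ) + 1) = a1 := by
    have : (((0 : ℕ) : ℤ) + 1) = ((1 : ℕ) : ℤ) := by norm_num
    rw [this]; exact par_nat _ (by omega)
  rw [e0, e1] at h
  exact h

theorem F13_swap_b01 (M : ℕ) (a b0 b1 b2 : ℂ) (z : ℕ → ℂ) :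
    (q * b1⁻¹ - q⁻¹ * b0⁻¹) * F13 Ψ M a b1 b0 b2 z =
      (q * b0⁻¹ - q⁻¹ * b1⁻¹) * F13 Ψ M a b0 b1 b2 z := by
  have h := exch_hole_bot hΨ 1 3 M 0 (by omega)
    (par (M + 3) (scons b0⁻¹ (scons b1⁻¹ (scons b2⁻¹ (fun n => (z n)⁻¹)))))
    (per_par _ _) (fun P : Pat (M + 1) => Ψ (M + 1) P (par (M + 1) (scons a z)))
  rw [swp_par _ (by omega), scons_swap01] at h
  have e0 : par (M + 3) (scons b0⁻¹ (scons b1⁻¹ (scons b2⁻¹ (fun n => (z n)⁻¹))))
      ((0 : ℕ) : ℤ) = b0⁻¹ := par_nat _ (by omega)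
  have e1 : par (M + 3) (scons b0⁻¹ (scons b1⁻¹ (scons b2⁻¹ (fun n => (z n)⁻¹))))
      (((0 : ℕ) : ℤ) + 1) = b1⁻¹ := by
    have : (((0 : ℕ) : ℤ) + 1) = ((1 : ℕ) : ℤ) := by norm_num
    rw [this]; exact par_nat _ (by omega)
  rw [e0, e1] at h
  exact h

theorem F13_swap_b12 (M : ℕ) (a b0 b1 b2 : ℂ) (z : ℕ → ℂ) :
    (q * b2⁻¹ - q⁻¹ * b1⁻¹) * F13 Ψ M a b0 b2 b1 z =
      (q * b1⁻¹ - q⁻¹ * b2⁻¹) * F13 Ψ M a b0 b1 b2 z := by
  have h := exch_hole_bot hΨ 1 3 M 1 (by omega)
    (par (M + 3) (scons b0⁻¹ (scons b1⁻¹ (scons b2⁻¹ (fun n => (z n)⁻¹)))))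
    (per_par _ _) (fun P : Pat (M + 1) => Ψ (M + 1) P (par (M + 1) (scons a z)))
  rw [swp_par _ (by omega), scons_swap_succ b0⁻¹ _ 0, scons_swap01] at h
  have e0 : par (M + 3) (scons b0⁻¹ (scons b1⁻¹ (scons b2⁻¹ (fun n => (z n)⁻¹))))
      ((1 : ℕ) : ℤ) = b1⁻¹ := par_nat _ (by omega)
  have e1 : par (M + 3) (scons b0⁻¹ (scons b1⁻¹ (scons b2⁻¹ (fun n => (z n)⁻¹))))
      (((1 : ℕ) : ℤ) + 1) = b2⁻¹ := by
    have : (((1 : ℕ) : ℤ) + 1) = ((2 : ℕ) : ℤ) := by norm_num
    rw [this]; exact par_nat _ (by omega)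
  rw [e0, e1] at h
  exact h

/-- polynomiality in the last top leg -/
theorem F22_poly (M : ℕ) (a0 b0 b1 : ℂ) (z : ℕ → ℂ) :
    ∃ p : Polynomial ℂ, p.natDegree ≤ M + 1 ∧ ∀ t, F22 Ψ M a0 t b0 b1 z = p.eval t := by
  have h : ∀ P : Pat (M + 2), ∃ p : Polynomial ℂ, p.natDegree ≤ M + 1 ∧
      ∀ t, Ψ (M + 2) P (par (M + 2) (scons a0 (scons t z))) = p.eval t := by
    intro P
    obtain ⟨p, hp, he⟩ := hΨ.poly (M + 2) P (par (M + 2) (scons a0 (scons 0 z))) (per_par _ _) 1
    refine ⟨p, hp, fun t => ?_⟩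
    rw [← he t]
    have : upd (M + 2) (par (M + 2) (scons a0 (scons 0 z))) ((1 : ℕ) : ℤ) t =
        par (M + 2) (scons a0 (scons t z)) := by
      rw [upd_par _ (by omega)]
      congr 1
      funext n
      rcases n with _ | _ | n <;> simp [scons, Function.update]
    rw [← this]; rfl
  choose p hp he using h
  refine ⟨∑ Pt, ∑ Pb, Polynomial.C (chi 2 2 M Pt Pb * Ψ (M + 2) Pb
    (par (M + 2) (scons b0⁻¹ (scons b1⁻¹ (fun n => (z n)⁻¹))))) * p Pt, ?_, ?_⟩
  · apply Polynomial.natDegree_sum_le_of_forall_le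
    intro Pt _
    apply Polynomial.natDegree_sum_le_of_forall_le
    intro Pb _
    exact (Polynomial.natDegree_C_mul_le _ _).trans (hp Pt)
  · intro t
    unfold F22
    rw [legSum_eq, Polynomial.eval_finsetSum]
    refine Finset.sum_congr rfl fun Pt _ => ?_
    rw [Polynomial.eval_finsetSum]
    refine Finset.sum_congr rfl fun Pb _ => ?_
    rw [Polynomial.eval_mul, Polynomial.eval_C, ← he Pt t]
    ring

/-- polynomiality in the inverse of the last bottom leg -/
theorem F13_poly (M : ℕ) (a b0 b1 : ℂ) (z : ℕ → ℂ) :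
    ∃ p : Polynomial ℂ, p.natDegree ≤ M + 2 ∧ ∀ t, F13 Ψ M a b0 b1 t⁻¹ z = p.eval t := by
  have h : ∀ P : Pat (M + 3), ∃ p : Polynomial ℂ, p.natDegree ≤ M + 2 ∧
      ∀ t, Ψ (M + 3) P (par (M + 3) (scons b0⁻¹ (scons b1⁻¹ (scons t (fun n => (z n)⁻¹))))) =
        p.eval t := by
    intro P
    obtain ⟨p, hp, he⟩ := hΨ.poly (M + 3) P
      (par (M + 3) (scons b0⁻¹ (scons b1⁻¹ (scons 0 (fun n => (z n)⁻¹))))) (per_par _ _) 2
    refine ⟨p, hp, fun t => ?_⟩
    rw [← he t]
    have : upd (M + 3) (par (M + 3) (scons b0⁻¹ (scons b1⁻¹ (scons 0 (fun n => (z n)⁻¹)))))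
        ((2 : ℕ) : ℤ) t =
        par (M + 3) (scons b0⁻¹ (scons b1⁻¹ (scons t (fun n => (z n)⁻¹)))) := by
      rw [upd_par _ (by omega)]
      congr 1
      funext n
      rcases n with _ | _ | _ | n <;> simp [scons, Function.update]
    rw [← this]; rfl
  choose p hp he using h
  refine ⟨∑ Pt, ∑ Pb, Polynomial.C (chi 1 3 M Pt Pb * Ψ (M + 1) Pt
    (par (M + 1) (scons a z))) * p Pb, ?_, ?_⟩
  · apply Polynomial.natDegree_sum_le_of_forall_le
    intro Pt _
    apply Polynomial.natDegree_sum_le_of_forall_le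
    intro Pb _
    exact (Polynomial.natDegree_C_mul_le _ _).trans (hp Pb)
  · intro t
    unfold F13
    rw [inv_inv, legSum_eq, Polynomial.eval_finsetSum]
    refine Finset.sum_congr rfl fun Pt _ => ?_
    rw [Polynomial.eval_finsetSum]
    refine Finset.sum_congr rfl fun Pb _ => ?_
    rw [Polynomial.eval_mul, Polynomial.eval_C, ← he Pb t]
    ring

end psi

end H56.EX

end

section

/-!
# LT1: the Temperley–Lieb generator can be moved from the top pattern to the bottom pattern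
at glued strands, without changing the leg class.
-/

namespace H56.EX

open Relation

variable {Lt Lb : ℕ}

lemma eqvGen_map {α β : Type*} {r : α → α → Prop} {s : β → β → Prop} (f : α → β)
    (h : ∀ x y, r x y → EqvGen s (f x) (f y)) {x y : α} (hxy : EqvGen r x y) :
    EqvGen s (f x) (f y) := by
  induction hxy with
  | rel x y hxy => exact h x y hxy
  | refl x => exact EqvGen.refl _
  | symm x y _ ih => exact EqvGen.symm _ _ ih
  | trans x y z _ _ ih1 ih2 => exact EqvGen.trans _ _ _ ih1 ih2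

lemma step_swap {kt kb M : ℕ} {Pt : Pat Lt} {Pb : Pat Lb} {x y : ℤ ⊕ ℤ}
    (h : Step kt kb M Pt Pb x y) : EqvGen (Step kb kt M Pb Pt) x.swap y.swap := by
  cases h with
  | top x => exact EqvGen.rel _ _ (Step.bot x)
  | bot y => exact EqvGen.rel _ _ (Step.top y)
  | glue a j hj => exact EqvGen.symm _ _ (EqvGen.rel _ _ (Step.glue a j hj))

lemma conn_swap {kt kb M : ℕ} {Pt : Pat Lt} {Pb : Pat Lb} {x y : ℤ ⊕ ℤ}
    (h : Conn kt kb M Pt Pb x y) : Conn kb kt M Pb Pt x.swap y.swap :=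
  eqvGen_map Sum.swap (fun _ _ h => step_swap h) h

lemma leg_swap_of {kt kb M : ℕ} {Pt : Pat Lt} {Pb : Pat Lb} (h : Leg kt kb M Pt Pb) :
    Leg kb kt M Pb Pt := by
  intro u v a b hc
  have h1 := conn_swap hc
  have e : ∀ (w : Fin kb ⊕ Fin kt) (c : ℤ), (hpos Lb Lt kb kt w c).swap =
      hpos Lt Lb kt kb w.swap c := by
    intro w c
    rcases w with w | w <;> rfl
  rw [e, e] at h1
  rcases h _ _ _ _ h1 with ⟨h2, h3⟩ | h2
  · left
    refine ⟨?_, h3⟩
    have := congrArg Sum.swap h2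
    rwa [Sum.swap_swap, Sum.swap_swap] at this
  · right; exact h2

section vmap

variable (kt kb : ℕ) (Pb : Pat Lb) (j : ℕ)

open Classical in
/-- images of the four special vertices -/
noncomputable def gv (y : ℤ) : ℤ ⊕ ℤ :=
  if Cg Lb (Pb.m (kb + j)) (kb + j + 1) then Sum.inl 0 else Sum.inr (Pb.m y)

open Classical in
/-- vertex map -/
noncomputable def vmap (Lt : ℕ) : ℤ ⊕ ℤ → ℤ ⊕ ℤ
  | Sum.inl x =>
    if Cg Lt x (kt + j) then gv kb Pb j (kb + j + Lb * ((x - (kt + j)) / Lt))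
    else if Cg Lt x (kt + j + 1) then gv kb Pb j (kb + j + 1 + Lb * ((x - (kt + j + 1)) / Lt))
    else Sum.inl x
  | Sum.inr y =>
    if Cg Lb y (kb + j) ∨ Cg Lb y (kb + j + 1) then gv kb Pb j y else Sum.inr y

lemma vmap_top0 (hL : 2 ≤ Lt) (a : ℤ) :
    vmap kt kb Pb j Lt (Sum.inl (kt + j + Lt * a)) = gv kb Pb j (kb + j + Lb * a) := by
  have h : Cg Lt ((kt : ℤ) + j + Lt * a) (kt + j) := by
    unfold Cg; rw [show (kt : ℤ) + j + Lt * a - (kt + j) = Lt * a by ring]; exact dvd_mul_right _ _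
  have h2 : ((kt : ℤ) + j + Lt * a - (kt + j)) / Lt = a := by
    rw [show (kt : ℤ) + j + Lt * a - (kt + j) = Lt * a by ring]
    exact Int.mul_ediv_cancel_left _ (by omega)
  simp only [vmap, if_pos h, h2]

lemma vmap_top1 (hL : 2 ≤ Lt) (a : ℤ) :
    vmap kt kb Pb j Lt (Sum.inl (kt + j + 1 + Lt * a)) = gv kb Pb j (kb + j + 1 + Lb * a) := by
  have h : Cg Lt ((kt : ℤ) + j + 1 + Lt * a) (kt + j + 1) := by
    unfold Cg
    rw [show (kt : ℤ) + j + 1 + Lt * a - (kt + j + 1) = Lt * a by ring]; exact dvd_mul_right _ _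
  have h1 : ¬ Cg Lt ((kt : ℤ) + j + 1 + Lt * a) (kt + j) := by
    intro h'
    exact not_Cg_succ hL (kt + j : ℤ) (Cg.trans' (Cg.symm' h') h)
  have h2 : ((kt : ℤ) + j + 1 + Lt * a - (kt + j + 1)) / Lt = a := by
    rw [show (kt : ℤ) + j + 1 + Lt * a - (kt + j + 1) = Lt * a by ring]
    exact Int.mul_ediv_cancel_left _ (by omega)
  simp only [vmap, if_pos h, if_neg h1, h2]

lemma vmap_top {x : ℤ} (h0 : ¬ Cg Lt x (kt + j)) (h1 : ¬ Cg Lt x (kt + j + 1)) :
    vmap kt kb Pb j Lt (Sum.inl x) = Sum.inl x := by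
  simp only [vmap, if_neg h0, if_neg h1]

lemma vmap_bot_g {y : ℤ} (h : Cg Lb y (kb + j) ∨ Cg Lb y (kb + j + 1)) :
    vmap kt kb Pb j Lt (Sum.inr y) = gv kb Pb j y := by
  simp only [vmap, if_pos h]

lemma vmap_bot {y : ℤ} (h0 : ¬ Cg Lb y (kb + j)) (h1 : ¬ Cg Lb y (kb + j + 1)) :
    vmap kt kb Pb j Lt (Sum.inr y) = Sum.inr y := by
  have h : ¬ (Cg Lb y (kb + j) ∨ Cg Lb y (kb + j + 1)) := by
    rintro (h | h)
    · exact h0 h
    · exact h1 h
  simp only [vmap, if_neg h]

end vmap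

lemma exists_mul_of_Cg {L : ℕ} {x y : ℤ} (h : Cg L x y) : ∃ a, x = y + L * a := by
  obtain ⟨a, ha⟩ := h
  exact ⟨a, by linarith⟩

lemma Cg_add_mul {L : ℕ} (y a : ℤ) : Cg L (y + L * a) y := by
  unfold Cg
  rw [show y + L * a - y = L * a by ring]
  exact dvd_mul_right _ _

/-- the images of two neighbouring special vertices are connected -/
lemma gv_conn (kt kb M : ℕ) (Pt : Pat Lt) (Pb : Pat Lb) (j : ℕ) (a : ℤ) :
    Conn kt kb M Pt (E (kb + j) Pb) (gv kb Pb j (kb + j + Lb * a))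
      (gv kb Pb j (kb + j + 1 + Lb * a)) := by
  by_cases hd : Cg Lb (Pb.m (kb + j)) (kb + j + 1)
  · simp only [gv, if_pos hd]
    exact EqvGen.refl _
  · simp only [gv, if_neg hd]
    have hL := Pb.two_le
    have h0 : Cg Lb ((kb : ℤ) + j + Lb * a) (kb + j) := Cg_add_mul _ _
    have e1 : ¬ Cg Lb (Pb.m (kb + j + Lb * a)) (kb + j) := by
      intro h
      exact Pb.not_dvd_self (kb + j + Lb * a) (Cg.trans' h (Cg.symm' h0))
    have e2 : ¬ Cg Lb (Pb.m (kb + j + Lb * a)) (kb + j + 1) := by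
      intro h
      exact hd (Cg.trans' (Cg.m Pb (Cg.symm' h0)) h)
    have e3 : (E (kb + j) Pb).m (Pb.m (kb + j + Lb * a)) = Pb.m (kb + j + 1 + Lb * a) := by
      rw [E.of_m Pb (kb + j) e1 e2 (by rw [Pb.inv]; exact h0), Pb.inv]
      congr 1; ring
    rw [← e3]
    exact EqvGen.rel _ _ (Step.bot _)

lemma step_map (kt kb M : ℕ) (hLt : Lt = kt + M) (hLb : Lb = kb + M) (Pt : Pat Lt) (Pb : Pat Lb)
    (j : ℕ) (hj : j + 1 < M) {x y : ℤ ⊕ ℤ} (h : Step kt kb M (E (kt + j) Pt) Pb x y) :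
    Conn kt kb M Pt (E (kb + j) Pb) (vmap kt kb Pb j Lt x) (vmap kt kb Pb j Lt y) := by
  have hLt2 := Pt.two_le
  have hLb2 := Pb.two_le
  have hrel : ∀ {u v : ℤ ⊕ ℤ}, Step kt kb M Pt (E (kb + j) Pb) u v →
      Conn kt kb M Pt (E (kb + j) Pb) u v := fun h => EqvGen.rel _ _ h
  have htr : ∀ {u v w : ℤ ⊕ ℤ}, Conn kt kb M Pt (E (kb + j) Pb) u v →
      Conn kt kb M Pt (E (kb + j) Pb) v w → Conn kt kb M Pt (E (kb + j) Pb) u w :=
    fun h h' => EqvGen.trans _ _ _ h h'
  have hsy : ∀ {u v : ℤ ⊕ ℤ}, Conn kt kb M Pt (E (kb + j) Pb) u v →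
      Conn kt kb M Pt (E (kb + j) Pb) v u := fun h => EqvGen.symm _ _ h
  have hrf : ∀ (u : ℤ ⊕ ℤ), Conn kt kb M Pt (E (kb + j) Pb) u u := fun u => EqvGen.refl u
  -- the two glued strands `j`, `j+1` on sheet `a` and the small arc at the bottom
  have hmid : ∀ a : ℤ, Conn kt kb M Pt (E (kb + j) Pb) (Sum.inl (kt + j + Lt * a))
      (Sum.inl (kt + j + 1 + Lt * a)) := by
    intro a
    have g1 := hrel (Step.glue (Pt := Pt) (Pb := E (kb + j) Pb) (kt := kt) (kb := kb) a j
      (by omega))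
    have g2 := hrel (Step.glue (Pt := Pt) (Pb := E (kb + j) Pb) (kt := kt) (kb := kb) a (j + 1)
      (by omega))
    have g3 := hrel (Step.bot (kt := kt) (kb := kb) (M := M) (Pt := Pt) (Pb := E (kb + j) Pb)
      (kb + j + Lb * a))
    rw [E.of_i Pb (kb + j) (Cg_add_mul _ _)] at g3
    push_cast at g2
    rw [show (kt : ℤ) + (j + 1) + Lt * a = kt + j + 1 + Lt * a by ring,
      show (kb : ℤ) + (j + 1) + Lb * a = kb + j + Lb * a + 1 by ring] at g2
    exact htr g1 (htr g3 (hsy g2))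
  cases h with
  | top x =>
    rcases tl_cases ((kt : ℤ) + j) hLt2 Pt.m x with ⟨h, e⟩ | ⟨h, e⟩ | ⟨h1, h2, h3, e⟩ |
      ⟨h1, h2, h3, e⟩ | ⟨h1, h2, h3, h4, e⟩
    · -- x ≡ i
      have e' : (E (kt + j) Pt).m x = x + 1 := e
      rw [e']
      obtain ⟨a, ha⟩ := exists_mul_of_Cg h
      have hx1 : x + 1 = kt + j + 1 + Lt * a := by rw [ha]; ring
      rw [hx1, ha, vmap_top0 kt kb Pb j hLt2 a, vmap_top1 kt kb Pb j hLt2 a]
      exact gv_conn kt kb M Pt Pb j a
    · have e' : (E (kt + j) Pt).m x = x - 1 := e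
      rw [e']
      obtain ⟨a, ha⟩ := exists_mul_of_Cg h
      have hx1 : x - 1 = kt + j + Lt * a := by rw [ha]; ring
      rw [hx1, ha, vmap_top0 kt kb Pb j hLt2 a, vmap_top1 kt kb Pb j hLt2 a]
      exact hsy (gv_conn kt kb M Pt Pb j a)
    · have e' : (E (kt + j) Pt).m x = Pt.m (Pt.m x + 1) := e
      have hn := E.mem_not Pt (kt + j) h1 h2
      rw [e'] at hn
      rw [e', vmap_top kt kb Pb j h1 h2, vmap_top kt kb Pb j hn.1 hn.2]
      obtain ⟨a, ha⟩ := exists_mul_of_Cg h3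
      have g1 := hrel (Step.top (kt := kt) (kb := kb) (M := M) (Pt := Pt) (Pb := E (kb + j) Pb) x)
      have g3 := hrel (Step.top (kt := kt) (kb := kb) (M := M) (Pt := Pt) (Pb := E (kb + j) Pb)
        (Pt.m x + 1))
      have g2 := hmid a
      rw [← ha] at g2
      have e3 : (kt : ℤ) + j + 1 + Lt * a = Pt.m x + 1 := by rw [ha]; ring
      rw [e3] at g2
      exact htr g1 (htr g2 g3)
    · have e' : (E (kt + j) Pt).m x = Pt.m (Pt.m x - 1) := e
      have hn := E.mem_not Pt (kt + j) h1 h2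
      rw [e'] at hn
      rw [e', vmap_top kt kb Pb j h1 h2, vmap_top kt kb Pb j hn.1 hn.2]
      obtain ⟨a, ha⟩ := exists_mul_of_Cg h3
      have g1 := hrel (Step.top (kt := kt) (kb := kb) (M := M) (Pt := Pt) (Pb := E (kb + j) Pb) x)
      have g3 := hrel (Step.top (kt := kt) (kb := kb) (M := M) (Pt := Pt) (Pb := E (kb + j) Pb)
        (Pt.m x - 1))
      have g2 := hsy (hmid a)
      rw [← ha] at g2
      have e3 : (kt : ℤ) + j + Lt * a = Pt.m x - 1 := by rw [ha]; ring
      rw [e3] at g2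
      exact htr g1 (htr g2 g3)
    · have e' : (E (kt + j) Pt).m x = Pt.m x := e
      rw [e', vmap_top kt kb Pb j h1 h2, vmap_top kt kb Pb j h3 h4]
      exact hrel (Step.top _)
  | bot y =>
    by_cases hd : Cg Lb (Pb.m (kb + j)) (kb + j + 1)
    · -- degenerate case
      have hd' : Cg Lb (Pb.m (kb + j + 1)) (kb + j) := by
        have := Cg.m Pb hd
        rw [Pb.inv] at this
        exact Cg.symm' this
      by_cases hy0 : Cg Lb y (kb + j)
      · have hy1 : Cg Lb (Pb.m y) (kb + j + 1) := Cg.trans' (Cg.m Pb hy0) hd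
        rw [vmap_bot_g kt kb Pb j (Or.inl hy0), vmap_bot_g kt kb Pb j (Or.inr hy1)]
        simp only [gv, if_pos hd]
        exact hrf _
      by_cases hy1 : Cg Lb y (kb + j + 1)
      · have hy2 : Cg Lb (Pb.m y) (kb + j) := Cg.trans' (Cg.m Pb hy1) hd'
        rw [vmap_bot_g kt kb Pb j (Or.inr hy1), vmap_bot_g kt kb Pb j (Or.inl hy2)]
        simp only [gv, if_pos hd]
        exact hrf _
      have n0 : ¬ Cg Lb (Pb.m y) (kb + j) := by
        intro h
        apply hy1
        have := Cg.m Pb h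
        rw [Pb.inv] at this
        exact Cg.trans' this hd
      have n1 : ¬ Cg Lb (Pb.m y) (kb + j + 1) := by
        intro h
        apply hy0
        have := Cg.m Pb h
        rw [Pb.inv] at this
        exact Cg.trans' this hd'
      rw [vmap_bot kt kb Pb j hy0 hy1, vmap_bot kt kb Pb j n0 n1,
        ← E.other Pb (kb + j) hy0 hy1 n0 n1]
      exact hrel (Step.bot _)
    · have hn0 : ∀ y : ℤ, Cg Lb y (kb + j) →
          ¬ Cg Lb (Pb.m y) (kb + j) ∧ ¬ Cg Lb (Pb.m y) (kb + j + 1) := by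
        intro y hy
        constructor
        · intro h
          exact Pb.not_dvd_self y (Cg.trans' h (Cg.symm' hy))
        · intro h
          exact hd (Cg.trans' (Cg.m Pb (Cg.symm' hy)) h)
      have hn1 : ∀ y : ℤ, Cg Lb y (kb + j + 1) →
          ¬ Cg Lb (Pb.m y) (kb + j) ∧ ¬ Cg Lb (Pb.m y) (kb + j + 1) := by
        intro y hy
        constructor
        · intro h
          apply hd
          have h1 := Cg.m Pb h
          rw [Pb.inv] at h1
          exact Cg.trans' (Cg.symm' h1) hy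
        · intro h
          exact Pb.not_dvd_self y (Cg.trans' h (Cg.symm' hy))
      by_cases hy : Cg Lb y (kb + j) ∨ Cg Lb y (kb + j + 1)
      · have hn : ¬ Cg Lb (Pb.m y) (kb + j) ∧ ¬ Cg Lb (Pb.m y) (kb + j + 1) := by
          rcases hy with hy | hy
          · exact hn0 y hy
          · exact hn1 y hy
        rw [vmap_bot_g kt kb Pb j hy, vmap_bot kt kb Pb j hn.1 hn.2]
        simp only [gv, if_neg hd]
        exact hrf _
      · by_cases hm : Cg Lb (Pb.m y) (kb + j) ∨ Cg Lb (Pb.m y) (kb + j + 1)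
        · rw [vmap_bot_g kt kb Pb j hm, vmap_bot kt kb Pb j (fun h => hy (Or.inl h))
            (fun h => hy (Or.inr h))]
          simp only [gv, if_neg hd, Pb.inv]
          exact hrf _
        · rw [vmap_bot kt kb Pb j (fun h => hy (Or.inl h)) (fun h => hy (Or.inr h)),
            vmap_bot kt kb Pb j (fun h => hm (Or.inl h)) (fun h => hm (Or.inr h)),
            ← E.other Pb (kb + j) (fun h => hy (Or.inl h)) (fun h => hy (Or.inr h))
              (fun h => hm (Or.inl h)) (fun h => hm (Or.inr h))]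
          exact hrel (Step.bot _)
  | glue a j' hj' =>
    rcases eq_or_ne j' j with rfl | h0
    · rw [vmap_top0 kt kb Pb j' hLt2 a, vmap_bot_g kt kb Pb j' (Or.inl (Cg_add_mul _ _))]
      exact hrf _
    rcases eq_or_ne j' (j + 1) with rfl | h1
    · push_cast
      rw [show (kt : ℤ) + (j + 1) + Lt * a = kt + j + 1 + Lt * a by ring,
        show (kb : ℤ) + (j + 1) + Lb * a = kb + j + 1 + Lb * a by ring,
        vmap_top1 kt kb Pb j hLt2 a, vmap_bot_g kt kb Pb j (Or.inr (Cg_add_mul _ _))]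
      exact hrf _
    · have key : ∀ (L k : ℕ) (_ : L = k + M) (c : ℕ) (_ : c < M) (_ : j' ≠ c),
          ¬ Cg L ((k : ℤ) + j' + L * a) (k + c) := by
        intro L k hL c hc hne h
        have h' : Cg L ((k : ℤ) + j') (k + c) :=
          Cg.trans' (Cg.symm' (Cg_add_mul _ a)) h
        unfold Cg at h'
        rcases dvd_cases h' with h2 | h2 | h2 <;> omega
      have t0 := key Lt kt hLt j (by omega) h0
      have t1 := key Lt kt hLt (j + 1) hj h1
      have b0 := key Lb kb hLb j (by omega) h0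
      have b1 := key Lb kb hLb (j + 1) hj h1
      push_cast at t1 b1
      rw [← add_assoc] at t1 b1
      rw [vmap_top kt kb Pb j t0 t1, vmap_bot kt kb Pb j b0 b1]
      exact hrel (Step.glue a j' hj')

lemma leg_adj_aux (kt kb M : ℕ) (hLt : Lt = kt + M) (hLb : Lb = kb + M) (Pt : Pat Lt)
    (Pb : Pat Lb) (j : ℕ) (hj : j + 1 < M) (h : Leg kt kb M Pt (E (kb + j) Pb)) :
    Leg kt kb M (E (kt + j) Pt) Pb := by
  have hfix : ∀ (u : Fin kt ⊕ Fin kb) (a : ℤ),
      vmap kt kb Pb j Lt (hpos Lt Lb kt kb u a) = hpos Lt Lb kt kb u a := by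
    intro u a
    have key : ∀ (L k : ℕ) (_ : L = k + M) (c : ℕ) (_ : c < M) (s : Fin k),
        ¬ Cg L (((s : ℕ) : ℤ) + L * a) (k + c) := by
      intro L k hL c hc s h
      have h' : Cg L ((s : ℕ) : ℤ) (k + c) :=
        Cg.trans' (Cg.symm' (Cg_add_mul _ a)) h
      unfold Cg at h'
      have hs := s.isLt
      rcases dvd_cases h' with h2 | h2 | h2 <;> omega
    rcases u with s | s
    · have t0 := key Lt kt hLt j (by omega) s
      have t1 := key Lt kt hLt (j + 1) hj s
      push_cast at t1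
      rw [← add_assoc] at t1
      exact vmap_top kt kb Pb j t0 t1
    · have t0 := key Lb kb hLb j (by omega) s
      have t1 := key Lb kb hLb (j + 1) hj s
      push_cast at t1
      rw [← add_assoc] at t1
      exact vmap_bot kt kb Pb j t0 t1
  intro u v a b hc
  apply h u v a b
  have h1 : Conn kt kb M Pt (E (kb + j) Pb) (vmap kt kb Pb j Lt (hpos Lt Lb kt kb u a))
      (vmap kt kb Pb j Lt (hpos Lt Lb kt kb v b)) :=
    eqvGen_map (vmap kt kb Pb j Lt)
      (fun x y hxy => step_map kt kb M hLt hLb Pt Pb j hj hxy) hc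
  rwa [hfix, hfix] at h1

/-- LT1: `e_i` can be moved from the top pattern to the bottom pattern at glued strands. -/
theorem leg_adj (kt kb M : ℕ) (hLt : Lt = kt + M) (hLb : Lb = kb + M) (Pt : Pat Lt) (Pb : Pat Lb)
    (j : ℕ) (hj : j + 1 < M) :
    Leg kt kb M (E (kt + j) Pt) Pb ↔ Leg kt kb M Pt (E (kb + j) Pb) := by
  constructor
  · intro h
    exact leg_swap_of (leg_adj_aux kb kt M hLb hLt Pb Pt j hj (leg_swap_of h))
  · exact leg_adj_aux kt kb M hLt hLb Pt Pb j hj

end H56.EX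

end

section

/-! Topology lemma LT4 of the EXACT project: a small arc between the last glued strand
(position `-1`) and the first hole end (position `0`) of the top pattern. -/

namespace H56.EX

variable {Lt Lb : ℕ}

lemma LT4_conn_map {kt kb M kt' kb' M' Lt Lb Lt' Lb' : ℕ} {Pt : Pat Lt} {Pb : Pat Lb}
    {Pt' : Pat Lt'} {Pb' : Pat Lb'} (f : ℤ ⊕ ℤ → ℤ ⊕ ℤ)
    (h : ∀ p r, Step kt kb M Pt Pb p r → Conn kt' kb' M' Pt' Pb' (f p) (f r)) {p r : ℤ ⊕ ℤ}
    (hc : Conn kt kb M Pt Pb p r) : Conn kt' kb' M' Pt' Pb' (f p) (f r) := by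
  unfold Conn at hc ⊢
  induction hc with
  | rel _ _ h1 => exact h _ _ h1
  | refl _ => exact Relation.EqvGen.refl _
  | symm _ _ _ ih => exact Relation.EqvGen.symm _ _ ih
  | trans _ _ _ _ _ ih1 ih2 => exact Relation.EqvGen.trans _ _ _ ih1 ih2

/-- new positions to old positions -/
def LT4_down (Lt : ℕ) : ℤ ⊕ ℤ → ℤ ⊕ ℤ
  | Sum.inl x => Sum.inl (phi Lt (-1) (x - 1))
  | Sum.inr y => Sum.inr (y - 1)

/-- old positions to new positions -/
def LT4_up (Lt Lb : ℕ) : ℤ ⊕ ℤ → ℤ ⊕ ℤ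
  | Sum.inl x => if Cg (Lt + 2) x (-1) ∨ Cg (Lt + 2) x (-1 + 1) then
      Sum.inr (Lb * ((x + 1) / ((Lt : ℤ) + 2))) else Sum.inl (psi Lt (-1) x + 1)
  | Sum.inr y => Sum.inr (y + 1)

lemma LT4_up_phi (hL : 1 ≤ Lt) (y : ℤ) :
    LT4_up Lt Lb (Sum.inl (phi Lt (-1) y)) = Sum.inl (y + 1) := by
  have h := phi_not hL (-1) y
  have h2 : ¬ (Cg (Lt + 2) (phi Lt (-1) y) (-1) ∨ Cg (Lt + 2) (phi Lt (-1) y) (-1 + 1)) := by
    rintro (h3 | h3)
    · exact h.1 h3
    · exact h.2 h3
  simp only [LT4_up, if_neg h2, psi_phi hL]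

lemma LT4_up_neg (a : ℤ) :
    LT4_up Lt Lb (Sum.inl (-1 + ((Lt + 2 : ℕ) : ℤ) * a)) = Sum.inr (Lb * a) := by
  have h : Cg (Lt + 2) (-1 + ((Lt + 2 : ℕ) : ℤ) * a) (-1) := by
    unfold Cg
    exact ⟨a, by ring⟩
  simp only [LT4_up, if_pos (Or.inl h : Cg (Lt + 2) (-1 + ((Lt + 2 : ℕ) : ℤ) * a) (-1) ∨ _)]
  congr 2
  push_cast
  rw [show -1 + ((Lt : ℤ) + 2) * a + 1 = ((Lt : ℤ) + 2) * a by ring]
  exact Int.mul_ediv_cancel_left _ (by omega)

lemma LT4_up_zero (a : ℤ) :
    LT4_up Lt Lb (Sum.inl (((Lt + 2 : ℕ) : ℤ) * a)) = Sum.inr (Lb * a) := by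
  have h : Cg (Lt + 2) (((Lt + 2 : ℕ) : ℤ) * a) (-1 + 1) := by
    unfold Cg
    exact ⟨a, by ring⟩
  simp only [LT4_up, if_pos (Or.inr h : _ ∨ Cg (Lt + 2) (((Lt + 2 : ℕ) : ℤ) * a) (-1 + 1))]
  congr 2
  push_cast
  rw [show ((Lt : ℤ) + 2) * a + 1 = 1 + a * ((Lt : ℤ) + 2) by ring,
    Int.add_mul_ediv_right _ _ (by omega), Int.ediv_eq_zero_of_lt (by norm_num) (by omega)]
  ring

/-- new glue positions are images of old ones -/
lemma LT4_phi_glue (s : ℕ) (hs : s < Lt) (a : ℤ) :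
    phi Lt (-1) ((s : ℤ) + Lt * a - 1) = s + 1 + ((Lt + 2 : ℕ) : ℤ) * a := by
  have h := phi_form (L := Lt) (by omega) (-1) a s (by omega) (by exact_mod_cast hs)
  have e : -1 + (s : ℤ) + Lt * a = (s : ℤ) + Lt * a - 1 := by ring
  rw [e] at h
  rw [h]
  push_cast
  ring

section

variable (kt kb M : ℕ) (hLt : Lt = kt + M) (hLb : Lb = kb + 1 + M) (Pt : Pat Lt) (Pb : Pat Lb)

include hLt in
lemma LT4_down_step (p r : ℤ ⊕ ℤ) (h : Step kt (kb + 1) M (rot Pt) (rot Pb) p r) :
    Conn (kt + 1) kb (M + 1) (ins (-1) Pt) Pb (LT4_down Lt p) (LT4_down Lt r) := by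
  unfold Conn
  cases h with
  | top x =>
    have h := Step.top (kt := kt + 1) (kb := kb) (M := M + 1) (Pt := ins (-1) Pt) (Pb := Pb)
      (phi Lt (-1) (x - 1))
    rw [ins_phi] at h
    have e : LT4_down Lt (Sum.inl ((rot Pt).m x)) = Sum.inl (phi Lt (-1) (Pt.m (x - 1))) := by
      simp [LT4_down]
    rw [e]
    exact Relation.EqvGen.rel _ _ h
  | bot y =>
    have h := Step.bot (kt := kt + 1) (kb := kb) (M := M + 1) (Pt := ins (-1) Pt) (Pb := Pb)
      (y - 1)
    have e : LT4_down Lt (Sum.inr ((rot Pb).m y)) = Sum.inr (Pb.m (y - 1)) := by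
      simp [LT4_down]
    rw [e]
    exact Relation.EqvGen.rel _ _ h
  | glue a j hj =>
    have h := Step.glue (kt := kt + 1) (kb := kb) (M := M + 1) (Pt := ins (-1) Pt) (Pb := Pb)
      a j (by omega)
    have e1 : LT4_down Lt (Sum.inl ((kt : ℤ) + j + Lt * a)) =
        Sum.inl (((kt + 1 : ℕ) : ℤ) + j + ((Lt + 2 : ℕ) : ℤ) * a) := by
      have := LT4_phi_glue (Lt := Lt) (kt + j) (by omega) a
      simp only [LT4_down]
      congr 1
      push_cast at this ⊢
      rw [this]
      ring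
    have e2 : LT4_down Lt (Sum.inr (((kb + 1 : ℕ) : ℤ) + j + Lb * a)) =
        Sum.inr ((kb : ℤ) + j + Lb * a) := by
      simp only [LT4_down]
      congr 1
      push_cast
      ring
    rw [e1, e2]
    exact Relation.EqvGen.rel _ _ h

include hLt hLb in
lemma LT4_up_step (p r : ℤ ⊕ ℤ) (h : Step (kt + 1) kb (M + 1) (ins (-1) Pt) Pb p r) :
    Conn kt (kb + 1) M (rot Pt) (rot Pb) (LT4_up Lt Lb p) (LT4_up Lt Lb r) := by
  have hL : 1 ≤ Lt := le_trans (by norm_num) Pt.two_le
  unfold Conn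
  cases h with
  | top x =>
    rcases pos_cases hL (-1) x with h | h | ⟨y, rfl⟩
    · -- `x = -1 + (Lt+2) a`
      rw [ins_i _ _ h]
      obtain ⟨a, ha⟩ := h
      have e : x = -1 + ((Lt + 2 : ℕ) : ℤ) * a := by linarith
      have e2 : x + 1 = ((Lt + 2 : ℕ) : ℤ) * a := by linarith
      rw [e2, LT4_up_zero, e, LT4_up_neg]
      exact Relation.EqvGen.refl _
    · rw [ins_succ _ _ h]
      obtain ⟨a, ha⟩ := h
      have e : x = ((Lt + 2 : ℕ) : ℤ) * a := by linarith
      have e2 : x - 1 = -1 + ((Lt + 2 : ℕ) : ℤ) * a := by linarith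
      rw [e2, LT4_up_neg, e, LT4_up_zero]
      exact Relation.EqvGen.refl _
    · rw [ins_phi, LT4_up_phi hL, LT4_up_phi hL]
      have h := Step.top (kt := kt) (kb := kb + 1) (M := M) (Pt := rot Pt) (Pb := rot Pb) (y + 1)
      rw [rot_m, show y + 1 - 1 = y by ring] at h
      exact Relation.EqvGen.rel _ _ h
  | bot y =>
    have h := Step.bot (kt := kt) (kb := kb + 1) (M := M) (Pt := rot Pt) (Pb := rot Pb) (y + 1)
    rw [rot_m, show y + 1 - 1 = y by ring] at h
    exact Relation.EqvGen.rel _ _ h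
  | glue a j hj =>
    rcases Nat.lt_or_ge j M with hjM | hjM
    · have h := Step.glue (kt := kt) (kb := kb + 1) (M := M) (Pt := rot Pt) (Pb := rot Pb) a j hjM
      have e1 : ((kt + 1 : ℕ) : ℤ) + j + ((Lt + 2 : ℕ) : ℤ) * a =
          phi Lt (-1) ((kt : ℤ) + j + Lt * a - 1) := by
        have := LT4_phi_glue (Lt := Lt) (kt + j) (by omega) a
        push_cast at this ⊢
        rw [this]
        ring
      rw [e1, LT4_up_phi hL, show (kt : ℤ) + j + Lt * a - 1 + 1 = kt + j + Lt * a by ring]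
      have e2 : LT4_up Lt Lb (Sum.inr ((kb : ℤ) + j + Lb * a)) =
          Sum.inr (((kb + 1 : ℕ) : ℤ) + j + Lb * a) := by
        simp only [LT4_up]
        congr 1
        push_cast
        ring
      rw [e2]
      exact Relation.EqvGen.rel _ _ h
    · have hjM' : j = M := by omega
      subst hjM'
      have e1 : ((kt + 1 : ℕ) : ℤ) + j + ((Lt + 2 : ℕ) : ℤ) * a =
          -1 + ((Lt + 2 : ℕ) : ℤ) * (a + 1) := by
        rw [hLt]; push_cast; ring
      rw [e1, LT4_up_neg]
      have e2 : LT4_up Lt Lb (Sum.inr ((kb : ℤ) + j + Lb * a)) = Sum.inr (Lb * (a + 1)) := by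
        simp only [LT4_up]
        congr 1
        rw [hLb]; push_cast; ring
      rw [e2]
      exact Relation.EqvGen.refl _

/-- correspondence of the hole ends -/
def LT4_sig : Fin (kt + 1) ⊕ Fin kb → Fin kt ⊕ Fin (kb + 1)
  | Sum.inl s => Fin.cases (Sum.inr 0) (fun s' => Sum.inl s') s
  | Sum.inr s => Sum.inr s.succ

/-- inverse correspondence of the hole ends -/
def LT4_tau : Fin kt ⊕ Fin (kb + 1) → Fin (kt + 1) ⊕ Fin kb
  | Sum.inl s => Sum.inl s.succ
  | Sum.inr s => Fin.cases (Sum.inl 0) (fun s' => Sum.inr s') s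

lemma LT4_tau_sig (u : Fin (kt + 1) ⊕ Fin kb) : LT4_tau kt kb (LT4_sig kt kb u) = u := by
  rcases u with s | s
  · refine Fin.cases ?_ (fun s' => ?_) s
    · simp [LT4_sig, LT4_tau]
    · simp [LT4_sig, LT4_tau]
  · simp [LT4_sig, LT4_tau]

lemma LT4_sig_tau (u : Fin kt ⊕ Fin (kb + 1)) : LT4_sig kt kb (LT4_tau kt kb u) = u := by
  rcases u with s | s
  · simp [LT4_sig, LT4_tau]
  · refine Fin.cases ?_ (fun s' => ?_) s
    · simp [LT4_sig, LT4_tau]
    · simp [LT4_sig, LT4_tau]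

include hLt Pt in
lemma LT4_up_hpos (u : Fin (kt + 1) ⊕ Fin kb) (a : ℤ) :
    LT4_up Lt Lb (hpos (Lt + 2) Lb (kt + 1) kb u a) = hpos Lt Lb kt (kb + 1) (LT4_sig kt kb u) a := by
  have hL : 1 ≤ Lt := le_trans (by norm_num) Pt.two_le
  rcases u with s | s
  · refine Fin.cases ?_ (fun s' => ?_) s
    · have h := LT4_up_zero (Lt := Lt) (Lb := Lb) a
      simp only [LT4_sig, hpos, Fin.cases_zero, Fin.val_zero, Nat.cast_zero, zero_add]
      exact h
    · have hs' := s'.2
      have e1 := LT4_phi_glue (Lt := Lt) (s' : ℕ) (by omega) a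
      simp only [LT4_sig, hpos, Fin.cases_succ, Fin.val_succ]
      have e2 : (((s' : ℕ) + 1 : ℕ) : ℤ) + ((Lt + 2 : ℕ) : ℤ) * a =
          phi Lt (-1) (((s' : ℕ) : ℤ) + Lt * a - 1) := by
        rw [e1]; push_cast; ring
      rw [e2, LT4_up_phi hL]
      congr 1
      ring
  · simp only [LT4_sig, hpos, LT4_up, Fin.val_succ]
    congr 1
    push_cast
    ring

include hLt hLb Pt in
lemma LT4_down_hpos (u : Fin kt ⊕ Fin (kb + 1)) (a : ℤ) :
    Conn (kt + 1) kb (M + 1) (ins (-1) Pt) Pb (LT4_down Lt (hpos Lt Lb kt (kb + 1) u a))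
      (hpos (Lt + 2) Lb (kt + 1) kb (LT4_tau kt kb u) a) := by
  have hL : 1 ≤ Lt := le_trans (by norm_num) Pt.two_le
  unfold Conn
  rcases u with s | s
  · have hs := s.2
    have e1 := LT4_phi_glue (Lt := Lt) (s : ℕ) (by omega) a
    simp only [LT4_tau, hpos, LT4_down, Fin.val_succ]
    rw [e1]
    have e2 : (((s : ℕ) : ℤ) + 1 + ((Lt + 2 : ℕ) : ℤ) * a) =
        (((s : ℕ) + 1 : ℕ) : ℤ) + ((Lt + 2 : ℕ) : ℤ) * a := by push_cast; ring
    rw [e2]
    exact Relation.EqvGen.refl _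
  · refine Fin.cases ?_ (fun s' => ?_) s
    · -- bottom `-1 + Lb a`, top `-1 + (Lt+2) a`, top `(Lt+2) a`
      simp only [LT4_tau, hpos, LT4_down, Fin.cases_zero, Fin.val_zero, Nat.cast_zero, zero_add]
      have h1 := Step.glue (kt := kt + 1) (kb := kb) (M := M + 1) (Pt := ins (-1) Pt) (Pb := Pb)
        (a - 1) M (by omega)
      have h2 := Step.top (kt := kt + 1) (kb := kb) (M := M + 1) (Pt := ins (-1) Pt) (Pb := Pb)
        (-1 + ((Lt + 2 : ℕ) : ℤ) * a)
      have hc : Cg (Lt + 2) (-1 + ((Lt + 2 : ℕ) : ℤ) * a) (-1) := ⟨a, by ring⟩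
      rw [ins_i _ _ hc, show -1 + ((Lt + 2 : ℕ) : ℤ) * a + 1 = ((Lt + 2 : ℕ) : ℤ) * a by ring] at h2
      have e1 : ((kt + 1 : ℕ) : ℤ) + (M : ℕ) + ((Lt + 2 : ℕ) : ℤ) * (a - 1) =
          -1 + ((Lt + 2 : ℕ) : ℤ) * a := by rw [hLt]; push_cast; ring
      have e2 : (kb : ℤ) + (M : ℕ) + Lb * (a - 1) = Lb * a - 1 := by rw [hLb]; push_cast; ring
      rw [e1, e2] at h1
      exact Relation.EqvGen.trans _ _ _ (Relation.EqvGen.symm _ _ (Relation.EqvGen.rel _ _ h1))
        (Relation.EqvGen.rel _ _ h2)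
    · simp only [LT4_tau, hpos, LT4_down, Fin.cases_succ, Fin.val_succ]
      have e : (((s' : ℕ) + 1 : ℕ) : ℤ) + (Lb : ℤ) * a - 1 = ((s' : ℕ) : ℤ) + Lb * a := by
        push_cast; ring
      rw [e]
      exact Relation.EqvGen.refl _

end

/-- LT4: small arc between the last glued strand (position -1) and the first hole end
(position 0) of the top. -/
theorem leg_ins_left (kt kb M : ℕ) (hLt : Lt = kt + M) (hLb : Lb = kb + 1 + M)
    (Pt : Pat Lt) (Pb : Pat Lb) :
    Leg (kt + 1) kb (M + 1) (ins (-1) Pt) Pb ↔ Leg kt (kb + 1) M (rot Pt) (rot Pb) := by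
  constructor
  · intro h u v a b hc
    have h1 := LT4_conn_map (LT4_down Lt) (LT4_down_step kt kb M hLt Pt Pb) hc
    have h2 := LT4_down_hpos kt kb M hLt hLb Pt Pb u a
    have h3 := LT4_down_hpos kt kb M hLt hLb Pt Pb v b
    have h4 := h _ _ a b (Relation.EqvGen.trans _ _ _ (Relation.EqvGen.symm _ _ h2)
      (Relation.EqvGen.trans _ _ _ h1 h3))
    rcases h4 with ⟨h5, h6⟩ | h5
    · left
      refine ⟨?_, h6⟩
      rw [← LT4_sig_tau kt kb u, ← LT4_sig_tau kt kb v, h5]
    · exact Or.inr h5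
  · intro h u v a b hc
    have h1 := LT4_conn_map (LT4_up Lt Lb) (LT4_up_step kt kb M hLt hLb Pt Pb) hc
    rw [LT4_up_hpos kt kb M hLt Pt, LT4_up_hpos kt kb M hLt Pt] at h1
    rcases h _ _ a b h1 with ⟨h5, h6⟩ | h5
    · left
      refine ⟨?_, h6⟩
      rw [← LT4_tau_sig kt kb u, ← LT4_tau_sig kt kb v, h5]
    · exact Or.inr h5

end H56.EX

end

section

/-! Symmetry of `F22`, `F13` in the glued strands. -/

namespace H56.EX

open scoped BigOperators Classical

/-- The topological lemmas on leg classes, used as hypotheses. -/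
structure LegTop : Prop where
  adj : ∀ {Lt Lb : ℕ} (kt kb M : ℕ), Lt = kt + M → Lb = kb + M → ∀ (Pt : Pat Lt) (Pb : Pat Lb)
    (j : ℕ), j + 1 < M → (Leg kt kb M (E (kt + j) Pt) Pb ↔ Leg kt kb M Pt (E (kb + j) Pb))
  right : ∀ {Lt Lb : ℕ} (kt kb M : ℕ), Lt = kt + M → Lb = kb + 1 + M → ∀ (Pt : Pat Lt)
    (Pb : Pat Lb), Leg (kt + 1) kb (M + 1) (ins kt Pt) Pb ↔ Leg kt (kb + 1) M Pt Pb
  left : ∀ {Lt Lb : ℕ} (kt kb M : ℕ), Lt = kt + M → Lb = kb + 1 + M → ∀ (Pt : Pat Lt)
    (Pb : Pat Lb), Leg (kt + 1) kb (M + 1) (ins (-1) Pt) Pb ↔ Leg kt (kb + 1) M (rot Pt) (rot Pb)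

/-- genericity of two parameters -/
def Cub (x y : ℂ) : Prop := x ^ 3 ≠ y ^ 3

lemma Cub.symm {x y : ℂ} (h : Cub x y) : Cub y x := fun h' => h h'.symm

lemma Cub.ne1 {x y : ℂ} (h : Cub x y) : x ≠ y := fun e => h (by rw [e])

lemma Cub.neq {x y : ℂ} (h : Cub x y) : x ≠ q * y := fun e => h (by
  rw [e, mul_pow, q_cube, one_mul])

lemma Cub.neq2 {x y : ℂ} (h : Cub x y) : x ≠ q ^ 2 * y := fun e => h (by
  rw [e, mul_pow, ← pow_mul, mul_comm 2 3, pow_mul, q_cube, one_pow, one_mul])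

lemma Cub.g {x y : ℂ} (h : Cub x y) : q * x - q⁻¹ * y ≠ 0 := by
  intro e
  apply h.neq
  have hq := q_cube
  rw [q_inv] at e
  have : q * (x - q * y) = 0 := by linear_combination e
  rcases mul_eq_zero.1 this with h1 | h1
  · exact absurd h1 q_ne_zero
  · exact sub_eq_zero.1 h1

lemma Cub.qmul {x y : ℂ} (h : Cub x y) : Cub (q * x) y := by
  intro e
  apply h
  rw [← e, mul_pow, q_cube, one_mul]

lemma Cub.q2mul {x y : ℂ} (h : Cub x y) : Cub (q ^ 2 * x) y := by
  intro e
  apply h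
  rw [← e, mul_pow, ← pow_mul, mul_comm 2 3, pow_mul, q_cube, one_pow, one_mul]

section psi

variable {Ψ : ∀ L : ℕ, Pat L → (ℤ → ℂ) → ℂ} (hΨ : PsiProps Ψ) (hT : LegTop)

include hΨ hT

theorem F22_swap_z (M : ℕ) (a0 a1 b0 b1 : ℂ) (z : ℕ → ℂ) (j : ℕ) (hj : j + 1 < M)
    (h0 : z j ≠ 0) (h1 : z (j + 1) ≠ 0) (hc : Cub (z j) (z (j + 1))) :
    F22 Ψ M a0 a1 b0 b1 (z ∘ Equiv.swap j (j + 1)) = F22 Ψ M a0 a1 b0 b1 z := by
  have et0 : par (M + 2) (scons a0 (scons a1 z)) (((2 : ℕ) : ℤ) + (j : ℤ)) = z j := by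
    have : ((2 : ℕ) : ℤ) + (j : ℤ) = ((j + 2 : ℕ) : ℤ) := by push_cast; ring
    rw [this, par_nat _ (by omega)]; rfl
  have et1 : par (M + 2) (scons a0 (scons a1 z)) (((2 : ℕ) : ℤ) + (j : ℤ) + 1) = z (j + 1) := by
    have : ((2 : ℕ) : ℤ) + (j : ℤ) + 1 = ((j + 1 + 2 : ℕ) : ℤ) := by push_cast; ring
    rw [this, par_nat _ (by omega)]; rfl
  have eb0 : par (M + 2) (scons b0⁻¹ (scons b1⁻¹ (fun n => (z n)⁻¹))) (((2 : ℕ) : ℤ) + (j : ℤ)) =
      (z j)⁻¹ := by
    have : ((2 : ℕ) : ℤ) + (j : ℤ) = ((j + 2 : ℕ) : ℤ) := by push_cast; ring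
    rw [this, par_nat _ (by omega)]; rfl
  have eb1 : par (M + 2) (scons b0⁻¹ (scons b1⁻¹ (fun n => (z n)⁻¹)))
      (((2 : ℕ) : ℤ) + (j : ℤ) + 1) = (z (j + 1))⁻¹ := by
    have : ((2 : ℕ) : ℤ) + (j : ℤ) + 1 = ((j + 1 + 2 : ℕ) : ℤ) := by push_cast; ring
    rw [this, par_nat _ (by omega)]; rfl
  have h := exch_glued hΨ 2 2 M j (fun Pt Pb => hT.adj 2 2 M (by omega) (by omega) Pt Pb j hj)
    (par (M + 2) (scons a0 (scons a1 z)))
    (par (M + 2) (scons b0⁻¹ (scons b1⁻¹ (fun n => (z n)⁻¹)))) (per_par _ _) (per_par _ _)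
    (by rw [et0]; exact h0) (by rw [et1]; exact h1) (by rw [eb0, et0]) (by rw [eb1, et1])
    (by rw [et0, et1]; exact hc.symm.g) (by rw [et0, et1]; exact hc.g)
  have e2 : ((2 : ℕ) : ℤ) + (j : ℤ) = ((j + 1 + 1 : ℕ) : ℤ) := by push_cast; ring
  rw [e2, swp_par _ (by omega), swp_par _ (by omega), scons_swap_succ, scons_swap_succ,
    scons_swap_succ, scons_swap_succ] at h
  exact h

theorem F13_swap_z (M : ℕ) (a b0 b1 b2 : ℂ) (z : ℕ → ℂ) (j : ℕ) (hj : j + 1 < M)
    (h0 : z j ≠ 0) (h1 : z (j + 1) ≠ 0) (hc : Cub (z j) (z (j + 1))) :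
    F13 Ψ M a b0 b1 b2 (z ∘ Equiv.swap j (j + 1)) = F13 Ψ M a b0 b1 b2 z := by
  have et0 : par (M + 1) (scons a z) (((1 : ℕ) : ℤ) + (j : ℤ)) = z j := by
    have : ((1 : ℕ) : ℤ) + (j : ℤ) = ((j + 1 : ℕ) : ℤ) := by push_cast; ring
    rw [this, par_nat _ (by omega)]; rfl
  have et1 : par (M + 1) (scons a z) (((1 : ℕ) : ℤ) + (j : ℤ) + 1) = z (j + 1) := by
    have : ((1 : ℕ) : ℤ) + (j : ℤ) + 1 = ((j + 1 + 1 : ℕ) : ℤ) := by push_cast; ring
    rw [this, par_nat _ (by omega)]; rfl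
  have eb0 : par (M + 3) (scons b0⁻¹ (scons b1⁻¹ (scons b2⁻¹ (fun n => (z n)⁻¹))))
      (((3 : ℕ) : ℤ) + (j : ℤ)) = (z j)⁻¹ := by
    have : ((3 : ℕ) : ℤ) + (j : ℤ) = ((j + 3 : ℕ) : ℤ) := by push_cast; ring
    rw [this, par_nat _ (by omega)]; rfl
  have eb1 : par (M + 3) (scons b0⁻¹ (scons b1⁻¹ (scons b2⁻¹ (fun n => (z n)⁻¹))))
      (((3 : ℕ) : ℤ) + (j : ℤ) + 1) = (z (j + 1))⁻¹ := by
    have : ((3 : ℕ) : ℤ) + (j : ℤ) + 1 = ((j + 1 + 3 : ℕ) : ℤ) := by push_cast; ring
    rw [this, par_nat _ (by omega)]; rfl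
  have h := exch_glued hΨ 1 3 M j (fun Pt Pb => hT.adj 1 3 M (by omega) (by omega) Pt Pb j hj)
    (par (M + 1) (scons a z))
    (par (M + 3) (scons b0⁻¹ (scons b1⁻¹ (scons b2⁻¹ (fun n => (z n)⁻¹))))) (per_par _ _)
    (per_par _ _)
    (by rw [et0]; exact h0) (by rw [et1]; exact h1) (by rw [eb0, et0]) (by rw [eb1, et1])
    (by rw [et0, et1]; exact hc.symm.g) (by rw [et0, et1]; exact hc.g)
  have e1 : ((1 : ℕ) : ℤ) + (j : ℤ) = ((j + 1 : ℕ) : ℤ) := by push_cast; ring
  have e3 : ((3 : ℕ) : ℤ) + (j : ℤ) = ((j + 1 + 1 + 1 : ℕ) : ℤ) := by push_cast; ring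
  rw [e1, e3, swp_par _ (by omega), swp_par _ (by omega), scons_swap_succ, scons_swap_succ,
    scons_swap_succ, scons_swap_succ] at h
  exact h

end psi

/-! ### moving a parameter to the front -/

/-- move `z j` to the front -/
def mvf (j : ℕ) (z : ℕ → ℂ) : ℕ → ℂ :=
  fun n => if n = 0 then z j else if n ≤ j then z (n - 1) else z n

lemma mvf_zero (z : ℕ → ℂ) : mvf 0 z = z := by
  funext n
  unfold mvf
  by_cases h : n = 0
  · subst h; simp
  · rw [if_neg h, if_neg (by omega)]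

lemma mvf_succ (j : ℕ) (z : ℕ → ℂ) : mvf (j + 1) z = mvf j (z ∘ Equiv.swap j (j + 1)) := by
  funext n
  unfold mvf
  by_cases h : n = 0
  · simp [h]
  rw [if_neg h, if_neg h]
  by_cases h1 : n ≤ j
  · rw [if_pos (by omega), if_pos h1, Function.comp_apply,
      Equiv.swap_apply_of_ne_of_ne (by omega) (by omega)]
  rw [if_neg h1]
  by_cases h2 : n = j + 1
  · subst h2; simp
  · rw [if_neg (by omega), Function.comp_apply,
      Equiv.swap_apply_of_ne_of_ne (by omega) (by omega)]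

/-- generic family -/
def Gen (M : ℕ) (z : ℕ → ℂ) : Prop :=
  (∀ j, j < M → z j ≠ 0) ∧ ∀ j k, j < M → k < M → j ≠ k → Cub (z j) (z k)

lemma Gen.swap {M : ℕ} {z : ℕ → ℂ} (h : Gen M z) (j : ℕ) (hj : j + 1 < M) :
    Gen M (z ∘ Equiv.swap j (j + 1)) := by
  have hb : ∀ k, k < M → Equiv.swap j (j + 1) k < M := by
    intro k hk
    by_cases h1 : k = j
    · subst h1; simp; omega
    by_cases h2 : k = j + 1
    · subst h2; simp; omega
    rw [Equiv.swap_apply_of_ne_of_ne h1 h2]; exact hk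
  refine ⟨fun k hk => h.1 _ (hb k hk), fun k l hk hl hkl => h.2 _ _ (hb k hk) (hb l hl) ?_⟩
  intro e
  exact hkl ((Equiv.swap j (j + 1)).injective e)

lemma inv_mvf {M : ℕ} (f : (ℕ → ℂ) → ℂ)
    (hf : ∀ z, Gen M z → ∀ j, j + 1 < M → f (z ∘ Equiv.swap j (j + 1)) = f z) :
    ∀ j, j < M → ∀ z, Gen M z → f (mvf j z) = f z := by
  intro j
  induction j with
  | zero => intro _ z _; rw [mvf_zero]
  | succ j ih =>
    intro hj z hz
    rw [mvf_succ, ih (by omega) _ (hz.swap j hj), hf z hz j hj]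

section psi

variable {Ψ : ∀ L : ℕ, Pat L → (ℤ → ℂ) → ℂ} (hΨ : PsiProps Ψ) (hT : LegTop)

include hΨ hT

theorem F22_mvf (M : ℕ) (a0 a1 b0 b1 : ℂ) (z : ℕ → ℂ) (hz : Gen M z) (j : ℕ) (hj : j < M) :
    F22 Ψ M a0 a1 b0 b1 (mvf j z) = F22 Ψ M a0 a1 b0 b1 z :=
  inv_mvf (F22 Ψ M a0 a1 b0 b1) (fun z hz j hj => F22_swap_z hΨ hT M a0 a1 b0 b1 z j hj
    (hz.1 _ (by omega)) (hz.1 _ hj) (hz.2 _ _ (by omega) hj (by omega))) j hj z hz

theorem F13_mvf (M : ℕ) (a b0 b1 b2 : ℂ) (z : ℕ → ℂ) (hz : Gen M z) (j : ℕ) (hj : j < M) :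
    F13 Ψ M a b0 b1 b2 (mvf j z) = F13 Ψ M a b0 b1 b2 z :=
  inv_mvf (F13 Ψ M a b0 b1 b2) (fun z hz j hj => F13_swap_z hΨ hT M a b0 b1 b2 z j hj
    (hz.1 _ (by omega)) (hz.1 _ hj) (hz.2 _ _ (by omega) hj (by omega))) j hj z hz

end psi

end H56.EX

end

section

/-! Topology lemma LT3: a small arc between the last hole end of the top pattern and the first
glued strand turns the hole end into a hole end of the bottom pattern. -/

namespace H56.EX

namespace LT3

lemma eqvGen_map {α β : Type*} {r : α → α → Prop} {s : β → β → Prop} (f : α → β)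
    (h : ∀ a b, r a b → Relation.EqvGen s (f a) (f b)) {a b : α} (hab : Relation.EqvGen r a b) :
    Relation.EqvGen s (f a) (f b) := by
  induction hab with
  | rel a b hab => exact h a b hab
  | refl a => exact Relation.EqvGen.refl _
  | symm a b _ ih => exact Relation.EqvGen.symm _ _ ih
  | trans a b c _ _ ih1 ih2 => exact Relation.EqvGen.trans _ _ _ ih1 ih2

variable {Lt Lb : ℕ}

/-- new graph to old graph -/
def f (Lt kt : ℕ) : ℤ ⊕ ℤ → ℤ ⊕ ℤ
  | Sum.inl y => Sum.inl (phi Lt kt y)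
  | Sum.inr y => Sum.inr y

open Classical in
/-- old graph to new graph -/
noncomputable def g (Lt Lb kt kb : ℕ) : ℤ ⊕ ℤ → ℤ ⊕ ℤ
  | Sum.inl x =>
      if Cg (Lt + 2) x kt then Sum.inr (kb + Lb * ((x - kt) / ((Lt : ℤ) + 2)))
      else if Cg (Lt + 2) x (kt + 1) then Sum.inr (kb + Lb * ((x - (kt + 1)) / ((Lt : ℤ) + 2)))
      else Sum.inl (psi Lt kt x)
  | Sum.inr y => Sum.inr y

lemma g_phi (hL : 1 ≤ Lt) (kt kb : ℕ) (y : ℤ) :
    g Lt Lb kt kb (Sum.inl (phi Lt kt y)) = Sum.inl y := by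
  have h := phi_not hL (kt : ℤ) y
  simp only [g, if_neg h.1, if_neg h.2, psi_phi hL]

lemma g_zero (kt kb : ℕ) (a : ℤ) :
    g Lt Lb kt kb (Sum.inl (kt + (Lt + 2) * a)) = Sum.inr (kb + Lb * a) := by
  have h : Cg (Lt + 2) ((kt : ℤ) + (Lt + 2) * a) kt := by
    unfold Cg
    refine ⟨a, ?_⟩
    push_cast; ring
  have e : ((kt : ℤ) + (Lt + 2) * a - kt) / ((Lt : ℤ) + 2) = a := by
    rw [show (kt : ℤ) + (Lt + 2) * a - kt = (Lt + 2) * a by ring]
    exact Int.mul_ediv_cancel_left _ (by omega)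
  simp only [g, if_pos h, e]

lemma g_one (kt kb : ℕ) (a : ℤ) :
    g Lt Lb kt kb (Sum.inl (kt + 1 + (Lt + 2) * a)) = Sum.inr (kb + Lb * a) := by
  have h1 : Cg (Lt + 2) ((kt : ℤ) + 1 + (Lt + 2) * a) (kt + 1) := by
    unfold Cg
    refine ⟨a, ?_⟩
    push_cast; ring
  have h0 : ¬ Cg (Lt + 2) ((kt : ℤ) + 1 + (Lt + 2) * a) kt := fun h =>
    not_Cg_succ (L := Lt + 2) (by omega) (kt : ℤ) (Cg.trans' (Cg.symm' h) h1)
  have e : ((kt : ℤ) + 1 + (Lt + 2) * a - (kt + 1)) / ((Lt : ℤ) + 2) = a := by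
    rw [show (kt : ℤ) + 1 + (Lt + 2) * a - (kt + 1) = (Lt + 2) * a by ring]
    exact Int.mul_ediv_cancel_left _ (by omega)
  simp only [g, if_neg h0, if_pos h1, e]

lemma cases (hL : 1 ≤ Lt) (kt : ℕ) (x : ℤ) :
    (∃ a : ℤ, x = kt + (Lt + 2) * a) ∨ (∃ a : ℤ, x = kt + 1 + (Lt + 2) * a) ∨
      ∃ y, x = phi Lt kt y := by
  rcases pos_cases hL (kt : ℤ) x with h | h | h
  · left
    obtain ⟨a, ha⟩ := h
    refine ⟨a, ?_⟩
    push_cast at ha
    linarith
  · right; left
    obtain ⟨a, ha⟩ := h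
    refine ⟨a, ?_⟩
    push_cast at ha
    linarith
  · exact Or.inr (Or.inr h)

/-- value of `phi` at a glued position -/
lemma phi_glue (kt M : ℕ) (hLt : Lt = kt + M) (a : ℤ) (j : ℕ) (hj : j < M) :
    phi Lt kt (kt + j + Lt * a) = kt + 1 + (j + 1) + (Lt + 2) * a := by
  have := phi_form (L := Lt) (by omega) (kt : ℤ) a j (by omega) (by omega)
  rw [this]; ring

/-- value of `phi` at a hole position -/
lemma phi_hole (kt M : ℕ) (hLt : Lt = kt + M) (a : ℤ) (s : ℕ) (hs : s < kt) :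
    phi Lt kt (s + Lt * a) = s + (Lt + 2) * a := by
  have := phi_form (L := Lt) (by omega) (kt : ℤ) (a - 1) (Lt + s - kt) (by omega) (by omega)
  rw [show (kt : ℤ) + (Lt + s - kt) + Lt * (a - 1) = s + Lt * a by ring] at this
  rw [this]; ring

lemma step_new_old (kt kb M : ℕ) (hLt : Lt = kt + M) (Pt : Pat Lt) (Pb : Pat Lb) (u v : ℤ ⊕ ℤ)
    (h : Step kt (kb + 1) M Pt Pb u v) :
    Conn (kt + 1) kb (M + 1) (ins kt Pt) Pb (f Lt kt u) (f Lt kt v) := by
  cases h with
  | top x =>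
    show Conn _ _ _ _ _ (Sum.inl (phi Lt kt x)) (Sum.inl (phi Lt kt (Pt.m x)))
    rw [← ins_phi]
    exact Relation.EqvGen.rel _ _ (Step.top _)
  | bot y => exact Relation.EqvGen.rel _ _ (Step.bot _)
  | glue a j hj =>
    show Conn _ _ _ _ _ (Sum.inl (phi Lt kt (kt + j + Lt * a)))
      (Sum.inr (((kb + 1 : ℕ) : ℤ) + j + Lb * a))
    rw [phi_glue kt M hLt a j hj]
    have := Step.glue (kt := kt + 1) (kb := kb) (M := M + 1) (Pt := ins kt Pt) (Pb := Pb) a (j + 1)
      (by omega)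
    push_cast at this ⊢
    have e : (kb : ℤ) + 1 + j + Lb * a = kb + (j + 1) + Lb * a := by ring
    rw [e]
    exact Relation.EqvGen.rel _ _ this

lemma step_old_new (kt kb M : ℕ) (hLt : Lt = kt + M) (Pt : Pat Lt) (Pb : Pat Lb) (u v : ℤ ⊕ ℤ)
    (h : Step (kt + 1) kb (M + 1) (ins kt Pt) Pb u v) :
    Conn kt (kb + 1) M Pt Pb (g Lt Lb kt kb u) (g Lt Lb kt kb v) := by
  have hL : 1 ≤ Lt := le_trans (by norm_num) Pt.two_le
  cases h with
  | top x =>
    rcases cases hL kt x with ⟨a, rfl⟩ | ⟨a, rfl⟩ | ⟨y, rfl⟩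
    · have h : Cg (Lt + 2) ((kt : ℤ) + (Lt + 2) * a) kt := by
        unfold Cg
        refine ⟨a, ?_⟩
        push_cast; ring
      rw [ins_i _ _ h, show (kt : ℤ) + (Lt + 2) * a + 1 = kt + 1 + (Lt + 2) * a by ring, g_zero,
        g_one]
      exact Relation.EqvGen.refl _
    · have h : Cg (Lt + 2) ((kt : ℤ) + 1 + (Lt + 2) * a) (kt + 1) := by
        unfold Cg
        refine ⟨a, ?_⟩
        push_cast; ring
      rw [ins_succ _ _ h, show (kt : ℤ) + 1 + (Lt + 2) * a - 1 = kt + (Lt + 2) * a by ring, g_zero,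
        g_one]
      exact Relation.EqvGen.refl _
    · rw [ins_phi, g_phi hL, g_phi hL]
      exact Relation.EqvGen.rel _ _ (Step.top _)
  | bot y => exact Relation.EqvGen.rel _ _ (Step.bot _)
  | glue a j hj =>
    rcases j with _ | j
    · have e1 : (((kt + 1 : ℕ) : ℤ) + ((0 : ℕ) : ℤ) + ((Lt + 2 : ℕ) : ℤ) * a) =
          kt + 1 + (Lt + 2) * a := by push_cast; ring
      have e2 : ((kb : ℤ) + ((0 : ℕ) : ℤ) + (Lb : ℤ) * a) = kb + Lb * a := by push_cast; ring
      rw [e1, e2, g_one]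
      exact Relation.EqvGen.refl _
    · have hj' : j < M := by omega
      have e1 : (((kt + 1 : ℕ) : ℤ) + ((j + 1 : ℕ) : ℤ) + ((Lt + 2 : ℕ) : ℤ) * a) =
          phi Lt kt (kt + j + Lt * a) := by
        rw [phi_glue kt M hLt a j hj']; push_cast; ring
      have e2 : ((kb : ℤ) + ((j + 1 : ℕ) : ℤ) + (Lb : ℤ) * a) =
          ((kb + 1 : ℕ) : ℤ) + j + Lb * a := by push_cast; ring
      rw [e1, e2, g_phi hL]
      exact Relation.EqvGen.rel _ _ (Step.glue a j hj')

/-- correspondence of the hole ends -/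
def sig (kt kb : ℕ) : Fin (kt + 1) ⊕ Fin kb → Fin kt ⊕ Fin (kb + 1)
  | Sum.inl s => if h : (s : ℕ) < kt then Sum.inl ⟨s, h⟩ else Sum.inr ⟨kb, by omega⟩
  | Sum.inr s => Sum.inr ⟨s, by omega⟩

lemma sig_inj (kt kb : ℕ) : Function.Injective (sig kt kb) := by
  rintro (s | s) (t | t) h
  · by_cases h1 : (s : ℕ) < kt <;> by_cases h2 : (t : ℕ) < kt
    · simp only [sig, dif_pos h1, dif_pos h2, Sum.inl.injEq, Fin.mk.injEq] at h
      rw [Sum.inl.injEq, Fin.ext_iff]; exact h
    · simp [sig, dif_pos h1, dif_neg h2] at h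
    · simp [sig, dif_neg h1, dif_pos h2] at h
    · rw [Sum.inl.injEq, Fin.ext_iff]; omega
  · by_cases h1 : (s : ℕ) < kt
    · simp [sig, dif_pos h1] at h
    · simp only [sig, dif_neg h1, Sum.inr.injEq, Fin.mk.injEq] at h; omega
  · by_cases h1 : (t : ℕ) < kt
    · simp [sig, dif_pos h1] at h
    · simp only [sig, dif_neg h1, Sum.inr.injEq, Fin.mk.injEq] at h; omega
  · simp only [sig, Sum.inr.injEq, Fin.mk.injEq] at h
    rw [Sum.inr.injEq, Fin.ext_iff]; exact h

lemma sig_surj (kt kb : ℕ) : Function.Surjective (sig kt kb) := by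
  rintro (s | s)
  · refine ⟨Sum.inl ⟨s, by omega⟩, ?_⟩
    simp [sig]
  · by_cases h : (s : ℕ) < kb
    · exact ⟨Sum.inr ⟨s, h⟩, by simp [sig]⟩
    · refine ⟨Sum.inl ⟨kt, by omega⟩, ?_⟩
      simp only [sig, lt_irrefl, dif_neg, not_false_eq_true, Sum.inr.injEq, Fin.ext_iff]
      omega

lemma g_hpos (kt kb M : ℕ) (hLt : Lt = kt + M) (hL : 1 ≤ Lt) (u : Fin (kt + 1) ⊕ Fin kb) (a : ℤ) :
    g Lt Lb kt kb (hpos (Lt + 2) Lb (kt + 1) kb u a) = hpos Lt Lb kt (kb + 1) (sig kt kb u) a := by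
  rcases u with s | s
  · by_cases h : (s : ℕ) < kt
    · simp only [sig, dif_pos h, hpos]
      have e : (((s : ℕ) : ℤ) + ((Lt + 2 : ℕ) : ℤ) * a) = phi Lt kt (((s : ℕ) : ℤ) + Lt * a) := by
        rw [phi_hole kt M hLt a s h]; push_cast; ring
      rw [e, g_phi hL]
    · have hs : (s : ℕ) = kt := by omega
      simp only [sig, dif_neg h, hpos]
      have e : (((s : ℕ) : ℤ) + ((Lt + 2 : ℕ) : ℤ) * a) = kt + (Lt + 2) * a := by
        rw [hs]; push_cast; ring
      rw [e, g_zero]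
  · rfl

lemma f_hpos (kt kb M : ℕ) (hLt : Lt = kt + M) (Pt : Pat Lt) (Pb : Pat Lb)
    (u : Fin (kt + 1) ⊕ Fin kb) (a : ℤ) :
    Conn (kt + 1) kb (M + 1) (ins kt Pt) Pb (f Lt kt (hpos Lt Lb kt (kb + 1) (sig kt kb u) a))
      (hpos (Lt + 2) Lb (kt + 1) kb u a) := by
  rcases u with s | s
  · by_cases h : (s : ℕ) < kt
    · simp only [sig, dif_pos h, hpos, f]
      have e : (((s : ℕ) : ℤ) + ((Lt + 2 : ℕ) : ℤ) * a) = phi Lt kt (((s : ℕ) : ℤ) + Lt * a) := by
        rw [phi_hole kt M hLt a s h]; push_cast; ring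
      rw [e]
      exact Relation.EqvGen.refl _
    · have hs : (s : ℕ) = kt := by omega
      simp only [sig, dif_neg h, hpos, f]
      have e : (((s : ℕ) : ℤ) + ((Lt + 2 : ℕ) : ℤ) * a) = kt + (Lt + 2) * a := by
        rw [hs]; push_cast; ring
      rw [e]
      have hc : Cg (Lt + 2) ((kt : ℤ) + 1 + (Lt + 2) * a) (kt + 1) := by
        unfold Cg
        refine ⟨a, ?_⟩
        push_cast; ring
      have h1 := Step.top (kt := kt + 1) (kb := kb) (M := M + 1) (Pt := ins kt Pt) (Pb := Pb)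
        ((kt : ℤ) + 1 + (Lt + 2) * a)
      rw [ins_succ _ _ hc, show (kt : ℤ) + 1 + (Lt + 2) * a - 1 = kt + (Lt + 2) * a by ring] at h1
      have h2 := Step.glue (kt := kt + 1) (kb := kb) (M := M + 1) (Pt := ins kt Pt) (Pb := Pb) a 0
        (by omega)
      have e1 : (((kt + 1 : ℕ) : ℤ) + ((0 : ℕ) : ℤ) + ((Lt + 2 : ℕ) : ℤ) * a) =
          kt + 1 + (Lt + 2) * a := by push_cast; ring
      have e2 : ((kb : ℤ) + ((0 : ℕ) : ℤ) + (Lb : ℤ) * a) = kb + Lb * a := by push_cast; ring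
      rw [e1, e2] at h2
      exact Relation.EqvGen.trans _ _ _
        (Relation.EqvGen.symm _ _ (Relation.EqvGen.rel _ _ h2)) (Relation.EqvGen.rel _ _ h1)
  · exact Relation.EqvGen.refl _

end LT3

variable {Lt Lb : ℕ}

/-- LT3: small arc between the last hole end of the top and the first glued strand. -/
theorem leg_ins_right (kt kb M : ℕ) (hLt : Lt = kt + M) (hLb : Lb = kb + 1 + M)
    (Pt : Pat Lt) (Pb : Pat Lb) :
    Leg (kt + 1) kb (M + 1) (ins kt Pt) Pb ↔ Leg kt (kb + 1) M Pt Pb := by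
  have hL : 1 ≤ Lt := le_trans (by norm_num) Pt.two_le
  constructor
  · intro H u' v' a b h
    obtain ⟨u, rfl⟩ := LT3.sig_surj kt kb u'
    obtain ⟨v, rfl⟩ := LT3.sig_surj kt kb v'
    have h1 := LT3.eqvGen_map (LT3.f Lt kt) (LT3.step_new_old kt kb M hLt Pt Pb) h
    have h2 := LT3.f_hpos kt kb M hLt Pt Pb u a
    have h3 := LT3.f_hpos kt kb M hLt Pt Pb v b
    have h4 := Relation.EqvGen.trans _ _ _ (Relation.EqvGen.symm _ _ h2)
      (Relation.EqvGen.trans _ _ _ h1 h3)
    rcases H u v a b h4 with ⟨h5, h6⟩ | h5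
    · left; exact ⟨by rw [h5], h6⟩
    · right; exact h5
  · intro H u v a b h
    have h1 := LT3.eqvGen_map (LT3.g Lt Lb kt kb) (LT3.step_old_new kt kb M hLt Pt Pb) h
    rw [LT3.g_hpos kt kb M hLt hL, LT3.g_hpos kt kb M hLt hL] at h1
    rcases H _ _ a b h1 with ⟨h5, h6⟩ | h5
    · left; exact ⟨LT3.sig_inj kt kb h5, h6⟩
    · right; exact h5

end H56.EX

end
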