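import Pool.Agent.H31.PT.M31

/-! The parts of this file: H34.Hom.Struct, H34.Hom.Eval4, H34.Hom.Eval2, H34.Hom.Vals, H34.Hom.Asym, H34.Hom.SumVal. -/

section

/-!
# Structure of the homogeneous limit polynomials
-/

namespace Pool.Agent.H34.Hom

open Finset Polynomial Pool.Agent.H96.EX Filter Topology

lemma listprod_natDegree (c : List ℂ) :
    ((c.map fun a => (X - C a : ℂ[X])).prod).natDegree ≤ c.length := by
  induction c with
  | nil => simp
  | cons a c ih =>
    rw [List.map_cons, List.prod_cons, List.length_cons]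
    refine natDegree_mul_le.trans ?_
    rw [natDegree_X_sub_C]
    omega

lemma sqprod_natDegree (M : ℕ) (z : ℕ → ℂ) :
    (∏ j ∈ range M, (X - C (z j) : ℂ[X]) ^ 2).natDegree ≤ 2 * M := by
  refine (natDegree_prod_le _ _).trans ?_
  have : ∑ j ∈ range M, ((X - C (z j) : ℂ[X]) ^ 2).natDegree ≤ ∑ j ∈ range M, 2 := by
    apply sum_le_sum
    intro j _
    refine natDegree_pow_le.trans ?_
    rw [natDegree_X_sub_C]
  refine this.trans ?_
  simp; omega

lemma Phi_natDegree (q u v : ℂ) (M : ℕ) (c : List ℂ) (z : ℕ → ℂ) :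
    (Phi q u v M c z).natDegree ≤ 3 * M + c.length := by
  unfold Phi
  refine natDegree_mul_le.trans ?_
  have h1 := sqprod_natDegree M z
  have h2 : (Sp q u v M c z * (c.map fun a => X - C a).prod).natDegree ≤ M + c.length := by
    refine natDegree_mul_le.trans ?_
    have := Sp_natDegree q u v M c z
    have := listprod_natDegree c
    omega
  omega

/-- the cubes of the parameters as a finset -/
noncomputable def cub (M : ℕ) (z : ℕ → ℂ) : Finset ℂ := (range M).image fun j => z j ^ 3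

lemma card_cub {M : ℕ} {z : ℕ → ℂ} (hz : Gen M z) : (cub M z).card = M := by
  unfold cub
  rw [card_image_of_injOn, card_range]
  intro a ha b hb hab
  by_contra hne
  exact hz a (mem_range.1 ha) b (mem_range.1 hb) hne hab

/-- `l = 1`: no exponents `≡ 2` -/
theorem sec2_Phi {q : ℂ} (hq : q ^ 2 + q + 1 = 0) (M : ℕ) (c : List ℂ) (hc : c.length ≤ 1)
    (z : ℕ → ℂ) (hz : Gen M z) (hz0 : ∀ j, z j ≠ 0) :
    sec 2 (Phi q (q ^ 2) q M c z) = 0 := by
  have q3 : q ^ 3 = 1 := by linear_combination (q - 1) * hq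
  have q0 : q ≠ 0 := by rintro rfl; norm_num at hq
  apply Polynomial.eq_zero_of_degree_lt_of_eval_finset_eq_zero (cub M z)
  · rw [card_cub hz, degree_lt_iff_coeff_zero]
    intro k hk
    rw [coeff_sec, coeff_eq_zero_of_natDegree_lt]
    have := Phi_natDegree q (q ^ 2) q M c z
    omega
  · intro x hx
    unfold cub at hx
    rw [mem_image] at hx
    obtain ⟨a, ha, rfl⟩ := hx
    rw [mem_range] at ha
    apply sec2_eval_eq_zero hq _ _ (hz0 a) (Phi_root _ _ _ _ _ ha)
    have := Phi_three (q ^ 2) q hq hz ha c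
    apply mul_left_cancel₀ q0
    rw [mul_zero, ← this]
    ring

/-- `l = 2`: the part with exponents `≡ 0` -/
theorem sec0_Phi {q : ℂ} (hq : q ^ 2 + q + 1 = 0) (M : ℕ) (c : List ℂ) (hc : c.length ≤ 3)
    (z : ℕ → ℂ) (hz : Gen M z) (hz0 : ∀ j, z j ≠ 0) :
    sec 0 (Phi q q (q ^ 2) M c z) =
      (C ((Phi q q (q ^ 2) M c z).coeff 0 / ∏ j ∈ range M, (-(z j) ^ 3)) +
        C ((Phi q q (q ^ 2) M c z).coeff (3 * M + 3)) * X) * ∏ j ∈ range M, (X - C (z j ^ 3)) := by
  classical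
  have q3 : q ^ 3 = 1 := by linear_combination (q - 1) * hq
  have q0 : q ≠ 0 := by rintro rfl; norm_num at hq
  set φ := Phi q q (q ^ 2) M c z with hφ
  have hφd : φ.natDegree ≤ 3 * M + 3 := (Phi_natDegree q q (q ^ 2) M c z).trans (by omega)
  set P := ∏ j ∈ range M, (X - C (z j ^ 3)) with hP
  have hPd : P.natDegree = M := by
    rw [hP, natDegree_prod_of_monic _ _ (fun _ _ => monic_X_sub_C _),
      sum_congr rfl (fun j _ => natDegree_X_sub_C (z j ^ 3))]
    simp
  have hPm : P.Monic := monic_prod_of_monic _ _ fun _ _ => monic_X_sub_C _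
  set α := φ.coeff 0 / ∏ j ∈ range M, (-(z j) ^ 3) with hα
  set β := φ.coeff (3 * M + 3) with hβ
  have hne : ∏ j ∈ range M, (-(z j) ^ 3) ≠ 0 := by
    rw [prod_ne_zero_iff]
    intro j _
    exact neg_ne_zero.2 (pow_ne_zero 3 (hz0 j))
  rw [← sub_eq_zero]
  apply Polynomial.eq_zero_of_degree_lt_of_eval_finset_eq_zero (insert 0 (cub M z))
  · rw [card_insert_of_notMem, card_cub hz, degree_lt_iff_coeff_zero]
    · intro k hk
      rw [coeff_sub, coeff_sec]
      have e1 : ((C α + C β * X) * P).coeff k = α * P.coeff k + β * (P.coeff (k - 1)) := by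
        obtain ⟨k', rfl⟩ : ∃ k', k = k' + 1 := ⟨k - 1, by omega⟩
        rw [add_mul, coeff_add, coeff_C_mul, mul_assoc, coeff_C_mul, coeff_X_mul]
        simp
      rw [e1]
      rcases eq_or_lt_of_le hk with h | h
      · subst h
        have e2 : P.coeff (M + 1) = 0 := coeff_eq_zero_of_natDegree_lt (by omega)
        have e3 : P.coeff (M + 1 - 1) = 1 := by
          rw [Nat.add_sub_cancel]
          have := hPm
          rw [Monic, leadingCoeff, hPd] at this
          exact this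
        rw [e2, e3, hβ]
        have : 3 * (M + 1) + 0 = 3 * M + 3 := by ring
        rw [this]
        ring
      · rw [coeff_eq_zero_of_natDegree_lt (by omega), coeff_eq_zero_of_natDegree_lt (p := P) (by omega),
          coeff_eq_zero_of_natDegree_lt (p := P) (by omega)]
        ring
    · unfold cub
      rw [mem_image]
      rintro ⟨j, _, hj⟩
      exact pow_ne_zero 3 (hz0 j) hj
  · intro x hx
    rw [mem_insert] at hx
    rcases hx with rfl | hx
    · rw [eval_sub, ← coeff_zero_eq_eval_zero, coeff_sec]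
      simp only [eval_mul, eval_add, eval_C, eval_X, mul_zero, add_zero, hP, eval_prod, eval_sub,
        zero_sub]
      rw [hα]
      field_simp
      ring
    · unfold cub at hx
      rw [mem_image] at hx
      obtain ⟨a, ha, rfl⟩ := hx
      rw [mem_range] at ha
      have e1 : (sec 0 φ).eval (z a ^ 3) = 0 := by
        apply sec0_eval_eq_zero hq _ _ (Phi_root _ _ _ _ _ ha)
        have := Phi_three q (q ^ 2) hq hz ha c
        apply mul_left_cancel₀ (pow_ne_zero 2 q0)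
        rw [mul_zero, ← this]
        ring
      rw [eval_sub, e1, eval_mul, hP, eval_prod, prod_eq_zero (mem_range.2 ha) (by simp)]
      ring

/-! ### limits -/

lemma CT_sec {F : Filter ℝ} {p : ℝ → ℂ[X]} {P : ℂ[X]} (r : ℕ) (h : CT F p P) :
    CT F (fun t => sec r (p t)) (sec r P) := by
  intro k
  simp only [coeff_sec]
  exact h _

lemma CT_Phi {q : ℂ} (u v : ℂ) (M : ℕ) (c : List ℂ) {A : ℂ[X]}
    (hA : CT (𝓝[>] (0 : ℝ)) (fun t => Sp q u v M c (zt t)) A) :
    CT (𝓝[>] (0 : ℝ)) (fun t => Phi q u v M c (zt t))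
      (A * (c.map fun a => X - C a).prod * (X - 1) ^ (2 * M)) := by
  have h1 : (∏ j ∈ range M, (X - C (1 : ℂ)) ^ 2) = (X - 1 : ℂ[X]) ^ (2 * M) := by
    rw [prod_const, card_range, ← pow_mul, map_one]
  rw [← h1]
  unfold Phi
  refine (hA.mul (CT.const _ _)).mul (CT.prod _ ?_)
  intro j _
  exact ((CT.const _ _).sub (CT.C (tendsto_zt j))).pow 2

theorem struct1 {q : ℂ} (hq : q ^ 2 + q + 1 = 0) (M : ℕ) (c : List ℂ) (hc : c.length ≤ 1) {A : ℂ[X]}
    (hA : CT (𝓝[>] (0 : ℝ)) (fun t => Sp q (q ^ 2) q M c (zt t)) A) :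
    sec 2 (A * (c.map fun a => X - C a).prod * (X - 1) ^ (2 * M)) = 0 := by
  have h1 := CT_sec 2 (CT_Phi (q := q) (q ^ 2) q M c hA)
  have h2 : CT (𝓝[>] (0 : ℝ)) (fun t => sec 2 (Phi q (q ^ 2) q M c (zt t))) 0 := by
    refine (CT.const _ 0).congr' ?_
    filter_upwards [self_mem_nhdsWithin] with t ht
    exact (sec2_Phi hq M c hc (zt t) (gen_zt M ht) (zt_ne_zero ht)).symm
  exact h1.unique h2

theorem struct2 {q : ℂ} (hq : q ^ 2 + q + 1 = 0) (M : ℕ) (c : List ℂ) (hc : c.length ≤ 3) {A : ℂ[X]}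
    (hA : CT (𝓝[>] (0 : ℝ)) (fun t => Sp q q (q ^ 2) M c (zt t)) A) :
    sec 0 (A * (c.map fun a => X - C a).prod * (X - 1) ^ (2 * M)) =
      (C ((A * (c.map fun a => X - C a).prod * (X - 1) ^ (2 * M)).coeff 0 * (-1) ^ M) +
        C ((A * (c.map fun a => X - C a).prod * (X - 1) ^ (2 * M)).coeff (3 * M + 3)) * X) *
        (X - 1) ^ M := by
  have h0 := CT_Phi (q := q) q (q ^ 2) M c hA
  have h1 := CT_sec 0 h0
  set φ := A * (c.map fun a => X - C a).prod * (X - 1) ^ (2 * M) with hφ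
  have h2 : CT (𝓝[>] (0 : ℝ)) (fun t => sec 0 (Phi q q (q ^ 2) M c (zt t)))
      ((C (φ.coeff 0 * (-1) ^ M) + C (φ.coeff (3 * M + 3)) * X) * (X - 1) ^ M) := by
    have e1 : (∏ j ∈ range M, (X - C ((1 : ℂ) ^ 3))) = (X - 1 : ℂ[X]) ^ M := by
      rw [prod_const, card_range, one_pow, map_one]
    rw [← e1]
    have h3 : Tendsto (fun t : ℝ => (Phi q q (q ^ 2) M c (zt t)).coeff 0 / ∏ j ∈ range M, (-(zt t j) ^ 3))
        (𝓝[>] 0) (𝓝 (φ.coeff 0 * (-1) ^ M)) := by
      have e2 : φ.coeff 0 * (-1) ^ M = φ.coeff 0 / ∏ j ∈ range M, (-(1 : ℂ) ^ 3) := by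
        rw [one_pow, prod_const, card_range]
        have : ((-1 : ℂ) ^ M) * (-1) ^ M = 1 := by
          rw [← pow_add]; exact (Even.add_self _).neg_one_pow
        rw [eq_div_iff (pow_ne_zero _ (by norm_num)), mul_assoc, this, mul_one]
      rw [e2]
      apply (h0 0).div
      · apply tendsto_finsetProd
        intro j _
        exact ((tendsto_zt j).pow 3).neg
      · rw [one_pow, prod_const]
        exact pow_ne_zero _ (by norm_num)
    have h4 := ((CT.C h3).add ((CT.C (h0 (3 * M + 3))).mul (CT.const _ X))).mul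
      (CT.prod (range M) (p := fun j t => X - C (zt t j ^ 3)) (P := fun _ => X - C ((1 : ℂ) ^ 3))
        (fun j _ => (CT.const _ X).sub (CT.C ((tendsto_zt j).pow 3))))
    refine h4.congr' ?_
    filter_upwards [self_mem_nhdsWithin] with t ht
    exact (sec0_Phi hq M c hc (zt t) (gen_zt M ht) (zt_ne_zero ht)).symm
  exact h1.unique h2

/-! ### top coefficient, value at zero, recursion at `q²` -/

lemma SGpoly_coeff (q u v : ℂ) (M : ℕ) (c : List ℂ) (z : ℕ → ℂ) :
    (SGpoly q u v (range M) c z).coeff M = SG q u v (range M) c z := by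
  unfold SGpoly SG
  rw [finsetSum_coeff]
  apply sum_congr rfl
  intro A hA
  rw [mem_powerset] at hA
  have hb : ∀ (T : Finset ℕ) (f g : ℕ → ℂ),
      (∏ j ∈ T, C (f j) * (X - C (g j))).natDegree ≤ T.card := by
    intro T f g
    refine (natDegree_prod_le _ _).trans ?_
    rw [Finset.card_eq_sum_ones]
    apply Finset.sum_le_sum
    intro j _
    refine (natDegree_C_mul_le _ _).trans ?_
    exact natDegree_X_sub_C_le _
  have hb2 : ∀ (T : Finset ℕ) (f g : ℕ → ℂ),
      (∏ j ∈ T, C (f j) * (X - C (g j))).coeff T.card = ∏ j ∈ T, f j := by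
    intro T f g
    have := coeff_prod_of_natDegree_le T (fun j => C (f j) * (X - C (g j))) 1 (fun j _ =>
      (natDegree_C_mul_le _ _).trans (natDegree_X_sub_C_le _))
    rw [mul_one] at this
    rw [this]
    apply prod_congr rfl
    intro j _
    rw [coeff_C_mul]
    simp
  rw [mul_comm _ (C _), coeff_C_mul]
  have hcard : M = A.card + (range M \ A).card := by
    rw [Finset.card_sdiff_of_subset hA, card_range]
    have := Finset.card_le_card hA
    rw [card_range] at this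
    omega
  have key := coeff_mul_add_eq_of_natDegree_le (hb A (fun j => u * lg c (q * z j)) (fun j => q * z j))
    (hb (range M \ A) (fun j => v * lg c (q ^ 2 * z j)) (fun j => q ^ 2 * z j))
  rw [← hcard, hb2, hb2] at key
  rw [key]
  ring

lemma Sp_coeff (q u v : ℂ) (M : ℕ) (c : List ℂ) (z : ℕ → ℂ) :
    (Sp q u v M c z).coeff M = SS q u v M c z := by
  unfold Sp SS
  rw [coeff_C_mul, SGpoly_coeff]

lemma top_HV {q : ℂ} (u v : ℂ) (hq : q ^ 2 + q + 1 = 0) (M : ℕ) (c : List ℂ) {A : ℂ[X]}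
    (hA : CT (𝓝[>] (0 : ℝ)) (fun t => Sp q u v M c (zt t)) A) : A.coeff M = HV q u v M c := by
  have h1 := hA M
  simp only [Sp_coeff] at h1
  exact tendsto_nhds_unique h1 (tendsto_HV u v hq M c)

lemma SG_zero_leg (q u v : ℂ) (M : ℕ) (c : List ℂ) (z : ℕ → ℂ) :
    SG q u v (range M) (0 :: c) z =
      (∏ j ∈ range M, (-(z j))) * SG q (u * q) (v * q ^ 2) (range M) c z := by
  unfold SG
  rw [mul_sum]
  apply sum_congr rfl
  intro A hA
  rw [mem_powerset] at hA
  have e : (∏ j ∈ range M, (-(z j))) = (∏ j ∈ A, (-(z j))) * ∏ j ∈ range M \ A, (-(z j)) := by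
    rw [← Finset.prod_sdiff hA, mul_comm]
  rw [e]
  have e1 : (∏ j ∈ A, u * lg (0 :: c) (q * z j)) = (∏ j ∈ A, (-(z j))) * ∏ j ∈ A, (u * q * lg c (q * z j)) := by
    rw [← prod_mul_distrib]
    apply prod_congr rfl
    intro j _
    rw [lg_cons]; ring
  have e2 : (∏ j ∈ range M \ A, v * lg (0 :: c) (q ^ 2 * z j)) =
      (∏ j ∈ range M \ A, (-(z j))) * ∏ j ∈ range M \ A, (v * q ^ 2 * lg c (q ^ 2 * z j)) := by
    rw [← prod_mul_distrib]
    apply prod_congr rfl
    intro j _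
    rw [lg_cons]; ring
  rw [e1, e2]
  ring

lemma HV_zero_leg {q : ℂ} (u v : ℂ) (hq : q ^ 2 + q + 1 = 0) (M : ℕ) (c : List ℂ) :
    HV q u v M (0 :: c) = (-1) ^ M * HV q (u * q) (v * q ^ 2) M c := by
  have h1 := tendsto_HV u v hq M (0 :: c)
  have h2 := tendsto_HV (u * q) (v * q ^ 2) hq M c
  have h3 : Tendsto (fun t : ℝ => ∏ j ∈ range M, (-(zt t j))) (𝓝[>] 0) (𝓝 ((-1) ^ M)) := by
    have e : ((-1 : ℂ) ^ M) = ∏ j ∈ range M, (-(1 : ℂ)) := by simp
    rw [e]
    apply tendsto_finsetProd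
    intro j _
    exact (tendsto_zt j).neg
  refine tendsto_nhds_unique h1 ((h3.mul h2).congr ?_)
  intro t
  unfold SS
  rw [SG_zero_leg]
  ring

lemma Wf_last {q : ℂ} (u v : ℂ) (hq : q ^ 2 + q + 1 = 0) {M : ℕ} {z : ℕ → ℂ} (hz : Gen (M + 1) z)
    (c : List ℂ) : Wf q u v (M + 1) M c z = z M * SS q u v M (z M :: c) z := by
  unfold Wf SS
  have e : (range (M + 1)).erase M = range M := by
    rw [range_add_one, erase_insert (by simp)]
  rw [e]
  have e2 : PM (M + 1) z = PM M z * ∏ j ∈ range M, (z j ^ 2 + z j * z M + z M ^ 2) := by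
    unfold PM pp
    rw [prod_range_succ]
  have e3 : ∏ j ∈ range M, (z j ^ 2 + z j * z M + z M ^ 2) ≠ 0 := by
    rw [prod_ne_zero_iff]
    intro j hj h
    rw [mem_range] at hj
    apply hz j (by omega) M (by omega) (by omega)
    linear_combination (z j - z M) * h
  rw [e2, mul_div_assoc, div_self e3, mul_one]
  ring

/-- recursion of the homogeneous values -/
theorem HV_rec {q : ℂ} (u v : ℂ) (hq : q ^ 2 + q + 1 = 0) (M : ℕ) (c : List ℂ) :
    HV q u v (M + 1) (q ^ 2 :: c) =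
      u * (q ^ 2 - q) * lg c q * (1 - q) ^ (2 * M) * HV q u v M (1 :: c) := by
  have h1 : Tendsto (fun t : ℝ => SS q u v (M + 1) ((q ^ 2 * zt t M) :: c) (zt t)) (𝓝[>] 0)
      (𝓝 (HV q u v (M + 1) (q ^ 2 :: c))) := by
    have := tendsto_HV' (κ := Option (Fin c.length)) u v hq (M + 1)
      (none :: (List.finRange c.length).map some)
      (fun t o => o.elim (q ^ 2 * zt t M) (fun i => c.get i))
      (fun o => o.elim (q ^ 2) (fun i => c.get i))
      (F := 𝓝[>] (0 : ℝ)) (by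
        intro a
        cases a with
        | none =>
          have := (tendsto_zt M).const_mul (q ^ 2)
          simpa using this
        | some i => exact tendsto_const_nhds) zt tendsto_zt (by
        filter_upwards [self_mem_nhdsWithin] with t ht
        exact gen_zt _ ht)
    simpa [List.map_map, Function.comp_def] using this
  have h2 : Tendsto (fun t : ℝ => SS q u v M (zt t M :: c) (zt t)) (𝓝[>] 0)
      (𝓝 (HV q u v M (1 :: c))) := by
    have := tendsto_HV' (κ := Option (Fin c.length)) u v hq M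
      (none :: (List.finRange c.length).map some)
      (fun t o => o.elim (zt t M) (fun i => c.get i))
      (fun o => o.elim 1 (fun i => c.get i))
      (F := 𝓝[>] (0 : ℝ)) (by
        intro a
        cases a with
        | none =>
          have := (tendsto_zt M)
          simpa using this
        | some i => exact tendsto_const_nhds) zt tendsto_zt (by
        filter_upwards [self_mem_nhdsWithin] with t ht
        exact gen_zt _ ht)
    simpa [List.map_map, Function.comp_def] using this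
  have h3 : Tendsto (fun t : ℝ => lg c (q * zt t M)) (𝓝[>] 0) (𝓝 (lg c q)) := by
    have hc : Continuous (fun x : ℂ => lg c x) := by
      clear h1 h2
      induction c with
      | nil => simpa using continuous_const
      | cons a c ih =>
        simp only [lg_cons]
        fun_prop
    have e := (tendsto_zt M).const_mul q
    rw [mul_one] at e
    exact (hc.tendsto q).comp e
  have h4 : Tendsto (fun t : ℝ => ∏ j ∈ range M, (zt t j - q * zt t M) ^ 2) (𝓝[>] 0)
      (𝓝 ((1 - q) ^ (2 * M))) := by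
    have e : ((1 - q) ^ (2 * M)) = ∏ j ∈ range M, ((1 : ℂ) - q * 1) ^ 2 := by
      rw [prod_const, card_range, ← pow_mul, mul_one]
    rw [e]
    apply tendsto_finsetProd
    intro j _
    exact ((tendsto_zt j).sub ((tendsto_zt M).const_mul q)).pow 2
  have h5 := ((h3.const_mul (u * (q ^ 2 - q))).mul h4).mul ((tendsto_zt M).mul h2)
  have h6 : u * (q ^ 2 - q) * lg c q * (1 - q) ^ (2 * M) * (1 * HV q u v M (1 :: c)) =
    u * (q ^ 2 - q) * lg c q * (1 - q) ^ (2 * M) * HV q u v M (1 :: c) := by ring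
  rw [h6] at h5
  refine tendsto_nhds_unique h1 (h5.congr' ?_)
  filter_upwards [self_mem_nhdsWithin] with t ht
  rw [SS_rec1 u v hq (gen_zt (M + 1) ht) (Nat.lt_succ_self M), Wf_last u v hq (gen_zt (M + 1) ht)]
  have e : (range (M + 1)).erase M = range M := by
    rw [range_add_one, erase_insert (by simp)]
  rw [e]

end Pool.Agent.H34.Hom

end

section

/-!
# Evaluation of the four-leg and three-leg polynomials at `1`
-/

namespace Pool.Agent.H34.Hom

open Finset Polynomial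

lemma mom_expand (R : ℂ[X]) (f : ℂ → ℂ) : mom (expand ℂ 3 R) f = mom R (fun x => f (3 * x)) := by
  have h1 := mom_eq_range R (fun x => f (3 * x)) (R.natDegree + 1) (by omega)
  have h2 := mom_eq_range (expand ℂ 3 R) f (3 * (R.natDegree + 1)) (by
    rw [natDegree_expand]; omega)
  rw [h1, h2]
  have h3 : ∀ n : ℕ, ∑ e ∈ range (3 * n), (expand ℂ 3 R).coeff e * f e =
      ∑ k ∈ range n, R.coeff k * f (3 * k) := by
    intro n
    induction n with
    | zero => simp
    | succ n ih =>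
      have e1 : 3 * (n + 1) = 3 * n + 1 + 1 + 1 := by ring
      rw [e1, sum_range_succ, sum_range_succ, sum_range_succ, sum_range_succ, ih]
      rw [coeff_expand (by norm_num), coeff_expand (by norm_num), coeff_expand (by norm_num),
        if_pos (by omega), if_neg (by omega), if_neg (by omega), Nat.mul_div_cancel_left n (by norm_num)]
      push_cast
      ring
  exact h3 _

lemma mom_zero_of (R : ℂ[X]) (f : ℂ → ℂ) (M : ℕ) (hR : ∀ k, M < k → R.coeff k = 0)
    (hf : ∀ k : ℕ, k ≤ M → f k = 0) : mom R f = 0 := by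
  rw [mom_eq_range R f (R.natDegree + 1) (by omega)]
  apply sum_eq_zero
  intro k _
  rcases le_or_gt k M with h | h
  · rw [hf k h, mul_zero]
  · rw [hR k h, zero_mul]

/-- the moments of `f` reduce to those of the part with exponents divisible by 3 -/
lemma mom_reduce (φ : ℂ[X]) (M : ℕ) (hdeg : φ.natDegree ≤ 3 * M + 3) (f : ℂ → ℂ)
    (h1 : ∀ k : ℕ, k ≤ M → f (3 * k + 1) = 0) (h2 : ∀ k : ℕ, k ≤ M → f (3 * k + 2) = 0) :
    mom φ f = mom (sec 0 φ) (fun x => f (3 * x)) := by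
  conv_lhs => rw [sec_decomp φ]
  have e : X ^ 2 * expand ℂ 3 (sec 2 φ) = X * (X * expand ℂ 3 (sec 2 φ)) := by ring
  rw [e, mom_add, mom_add, mom_expand, mom_X_mul, mom_expand, mom_X_mul, mom_X_mul, mom_expand]
  rw [mom_zero_of (sec 1 φ) _ M, mom_zero_of (sec 2 φ) _ M, add_zero, add_zero]
  · intro k hk
    rw [coeff_sec, coeff_eq_zero_of_natDegree_lt (by omega)]
  · intro k hk
    have := h2 k hk
    have e2 : (3 : ℂ) * (k : ℂ) + 1 + 1 = 3 * k + 2 := by ring
    rw [e2]; exact this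
  · intro k hk
    rw [coeff_sec, coeff_eq_zero_of_natDegree_lt (by omega)]
  · intro k hk
    exact h1 k hk

/-- `∏_{m ≤ M} (X - (3m+1)) (X - (3m+2))` -/
noncomputable def gpoly (M : ℕ) : ℂ[X] :=
  ∏ m ∈ range (M + 1), ((X - C ((3 * m + 1 : ℕ) : ℂ)) * (X - C ((3 * m + 2 : ℕ) : ℂ)))

lemma gpoly_monic (M : ℕ) : (gpoly M).Monic := by
  unfold gpoly
  apply monic_prod_of_monic
  intro m _
  exact (monic_X_sub_C _).mul (monic_X_sub_C _)

lemma gpoly_natDegree (M : ℕ) : (gpoly M).natDegree = 2 * M + 2 := by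
  unfold gpoly
  rw [natDegree_prod_of_monic]
  · have : ∀ m ∈ range (M + 1), ((X - C ((3 * m + 1 : ℕ) : ℂ)) * (X - C ((3 * m + 2 : ℕ) : ℂ))).natDegree = 2 := by
      intro m _
      rw [(monic_X_sub_C _).natDegree_mul (monic_X_sub_C _), natDegree_X_sub_C, natDegree_X_sub_C]
    rw [sum_congr rfl this, sum_const, card_range]
    simp; ring
  · intro m _
    exact (monic_X_sub_C _).mul (monic_X_sub_C _)

lemma gpoly_eval (M : ℕ) (i : ℤ) : (gpoly M).eval (3 * (i : ℂ)) = ((gN (M + 1) i : ℤ) : ℂ) := by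
  unfold gpoly gN
  rw [eval_prod, Int.cast_prod]
  apply prod_congr rfl
  intro m _
  simp only [eval_mul, eval_sub, eval_X, eval_C]
  push_cast
  ring

lemma gpoly_root1 (M k : ℕ) (hk : k ≤ M) : (gpoly M).eval (3 * (k : ℂ) + 1) = 0 := by
  unfold gpoly
  rw [eval_prod]
  apply prod_eq_zero (mem_range.2 (Nat.lt_succ_of_le hk))
  simp

lemma gpoly_root2 (M k : ℕ) (hk : k ≤ M) : (gpoly M).eval (3 * (k : ℂ) + 2) = 0 := by
  unfold gpoly
  rw [eval_prod]
  apply prod_eq_zero (mem_range.2 (Nat.lt_succ_of_le hk))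
  simp

/-- moments of `(α + β X)(X-1)^M` -/
lemma mom_lin (M : ℕ) (α β : ℂ) (f : ℂ → ℂ) :
    mom ((C α + C β * X) * (X - 1) ^ M) f =
      α * (∑ k ∈ range (M + 1), (((-1) ^ (M - k) * (M.choose k : ℤ) : ℤ) : ℂ) * f k) +
      β * (∑ k ∈ range (M + 1), (((-1) ^ (M - k) * (M.choose k : ℤ) : ℤ) : ℂ) * f (k + 1)) := by
  have e : (C α + C β * X) * (X - 1) ^ M = C α * ((X - 1) ^ M * 1) + C β * (X * ((X - 1) ^ M * 1)) := by ring
  rw [e, mom_add, mom_smul, mom_smul, mom_X_mul, mom_X_sub_one_pow, mom_X_sub_one_pow]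
  have h1 : ∀ g : ℂ → ℂ, mom (1 : ℂ[X]) g = g 0 := by
    intro g
    have := mom_C (K := ℂ) 1 g
    simpa using this
  rw [h1, h1, fwdDiff_iter_eq_sum_shift, fwdDiff_iter_eq_sum_shift]
  congr 2
  · apply sum_congr rfl
    intro k _
    simp
  · apply sum_congr rfl
    intro k _
    simp

theorem eval_three_leg (A : ℂ[X]) (M : ℕ) (hdeg : A.natDegree ≤ M) (α : ℂ)
    (h : sec 0 (A * (X - 1) ^ (2 * M + 2)) = C α * (X - 1) ^ M) :
    A.eval 1 * ((2 * M + 2).factorial : ℂ) = α * (A0 M : ℂ) := by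
  have hd : ((X - 1 : ℂ[X]) ^ (2 * M + 2)).natDegree ≤ 2 * M + 2 := by
    refine natDegree_pow_le.trans ?_
    have : (X - 1 : ℂ[X]).natDegree ≤ 1 := natDegree_X_sub_C_le (1 : ℂ)
    nlinarith
  have h1 := mom_eq_factorial (2 * M + 2) A (gpoly M) (gpoly_natDegree M)
  rw [gpoly_monic, one_mul] at h1
  rw [← h1, mul_comm ((X - 1) ^ _) A, mom_reduce _ M]
  · rw [h]
    have := mom_lin M α 0 (fun x => (gpoly M).eval (3 * x))
    simp only [map_zero, zero_mul, add_zero] at this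
    rw [this]
    congr 1
    unfold A0
    rw [Int.cast_sum]
    apply sum_congr rfl
    intro k _
    have e := gpoly_eval M k
    push_cast at e ⊢
    rw [e]
  · refine natDegree_mul_le.trans ?_
    omega
  · intro k hk; exact gpoly_root1 M k hk
  · intro k hk; exact gpoly_root2 M k hk

theorem eval_four_leg (A : ℂ[X]) (M : ℕ) (hM : Even M) (hdeg : A.natDegree ≤ M) (α β : ℂ)
    (h : sec 0 (A * (X - 1) ^ (2 * M + 3)) = (C α + C β * X) * (X - 1) ^ M) :
    A.eval 1 * ((2 * M + 3).factorial : ℂ) = (3 * M + 3) * β * (A0 M : ℂ) := by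
  have hd : ((X - 1 : ℂ[X]) ^ (2 * M + 3)).natDegree ≤ 2 * M + 3 := by
    refine natDegree_pow_le.trans ?_
    have : (X - 1 : ℂ[X]).natDegree ≤ 1 := natDegree_X_sub_C_le (1 : ℂ)
    nlinarith
  have hXg : (X * gpoly M).natDegree = 2 * M + 3 := by
    rw [monic_X.natDegree_mul (gpoly_monic M), natDegree_X, gpoly_natDegree]; ring
  have h1 := mom_eq_factorial (2 * M + 3) A (X * gpoly M) hXg
  rw [monic_X.mul (gpoly_monic M), one_mul] at h1
  rw [← h1, mul_comm ((X - 1) ^ _) A, mom_reduce _ M]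
  · rw [h, mom_lin M α β]
    have s1 : (∑ k ∈ range (M + 1), (((-1) ^ (M - k) * (M.choose k : ℤ) : ℤ) : ℂ) *
        (X * gpoly M).eval (3 * (k : ℂ))) = 0 := by
      have := A1_zero M hM
      have h2 := congrArg (fun x : ℤ => (3 : ℂ) * (x : ℂ)) this
      simp only [Int.cast_zero, mul_zero] at h2
      rw [← h2, Int.cast_sum, mul_sum]
      apply sum_congr rfl
      intro k _
      have e := gpoly_eval M k
      push_cast at e
      rw [eval_mul, eval_X, e]
      push_cast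
      ring
    have s2 : (∑ k ∈ range (M + 1), (((-1) ^ (M - k) * (M.choose k : ℤ) : ℤ) : ℂ) *
        (X * gpoly M).eval (3 * ((k : ℂ) + 1))) = (3 * M + 3) * (A0 M : ℂ) := by
      have := A1_shift M hM
      have h2 := congrArg (fun x : ℤ => (3 : ℂ) * (x : ℂ)) this
      have h3 : (3 * (M : ℂ) + 3) * (A0 M : ℂ) = 3 * (((M + 1) * A0 M : ℤ) : ℂ) := by push_cast; ring
      rw [h3, ← h2, Int.cast_sum, mul_sum]
      apply sum_congr rfl
      intro k _
      have e := gpoly_eval M (k + 1)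
      push_cast at e
      rw [eval_mul, eval_X, e]
      push_cast
      ring
    rw [s1, s2]
    ring
  · refine natDegree_mul_le.trans ?_
    omega
  · intro k hk
    rw [eval_mul, gpoly_root1 M k hk, mul_zero]
  · intro k hk
    rw [eval_mul, gpoly_root2 M k hk, mul_zero]

end Pool.Agent.H34.Hom

end

section

/-!
# Evaluation of the two-leg, one-leg and zero-leg polynomials
-/

namespace Pool.Agent.H34.Hom

open Finset Polynomial

/-- `∏_{m ≤ M, m ≠ k} (k - m) = (-1)^(M-k) k! (M-k)!` -/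
lemma prod_erase_sub (k M : ℕ) (hk : k ≤ M) :
    ∏ m ∈ (range (M + 1)).erase k, ((k : ℂ) - m) =
      (-1) ^ (M - k) * (k.factorial : ℂ) * ((M - k).factorial : ℂ) := by
  induction M, hk using Nat.le_induction with
  | base =>
    rw [range_add_one, erase_insert (by simp)]
    simp only [tsub_self, pow_zero, Nat.factorial_zero, Nat.cast_one, one_mul, mul_one]
    rw [← prod_range_reflect]
    have : ∀ j ∈ range k, ((k : ℂ) - ((k - 1 - j : ℕ) : ℂ)) = ((j + 1 : ℕ) : ℂ) := by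
      intro j hj
      rw [mem_range] at hj
      have : (k : ℂ) = ((k - 1 - j : ℕ) : ℂ) + ((j + 1 : ℕ) : ℂ) := by
        rw [← Nat.cast_add]; congr 1; omega
      rw [this]; ring
    rw [prod_congr rfl this, ← Nat.cast_prod, prod_range_add_one_eq_factorial]
  | succ M hM ih =>
    have e : (range (M + 1 + 1)).erase k = insert (M + 1) ((range (M + 1)).erase k) := by
      rw [range_add_one (n := M + 1), erase_insert_of_ne (by omega)]
    rw [e, prod_insert (by simp), ih]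
    have e2 : M + 1 - k = (M - k) + 1 := by omega
    rw [e2, Nat.factorial_succ, pow_succ]
    have e3 : ((M - k : ℕ) : ℂ) = M - k := by rw [Nat.cast_sub hM]
    push_cast
    rw [e3]
    ring

/-- the test polynomial for the exponent `3k` -/
noncomputable def tpoly (M k : ℕ) : ℂ[X] :=
  (∏ m ∈ (range (M + 1)).erase k, (X - C ((3 * m : ℕ) : ℂ))) *
    ∏ m ∈ range (M + 1), (X - C ((3 * m + 1 : ℕ) : ℂ))

lemma tpoly_monic (M k : ℕ) : (tpoly M k).Monic :=
  (monic_prod_of_monic _ _ fun _ _ => monic_X_sub_C _).mul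
    (monic_prod_of_monic _ _ fun _ _ => monic_X_sub_C _)

lemma tpoly_natDegree (M k : ℕ) (hk : k ≤ M) : (tpoly M k).natDegree = 2 * M + 1 := by
  unfold tpoly
  rw [(monic_prod_of_monic _ _ fun m _ => monic_X_sub_C _).natDegree_mul
    (monic_prod_of_monic _ _ fun m _ => monic_X_sub_C _)]
  rw [natDegree_prod_of_monic _ _ (fun m _ => monic_X_sub_C _),
    natDegree_prod_of_monic _ _ (fun m _ => monic_X_sub_C _)]
  simp only [natDegree_X_sub_C, sum_const, smul_eq_mul, mul_one, card_range]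
  rw [card_erase_of_mem (mem_range.2 (Nat.lt_succ_of_le hk)), card_range]
  omega

lemma tpoly_eval_self (M k : ℕ) (hk : k ≤ M) : (tpoly M k).eval (3 * (k : ℂ)) =
    3 ^ M * ((-1) ^ (M - k) * (k.factorial : ℂ) * ((M - k).factorial : ℂ)) * (Dd M k : ℂ) := by
  unfold tpoly
  rw [eval_mul, eval_prod, eval_prod, ← prod_erase_sub k M hk]
  have h1 : ∏ j ∈ (range (M + 1)).erase k, eval (3 * (k : ℂ)) (X - C ((3 * j : ℕ) : ℂ)) =
      3 ^ M * ∏ m ∈ (range (M + 1)).erase k, ((k : ℂ) - m) := by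
    have h2 : (3 : ℂ) ^ M = ∏ m ∈ (range (M + 1)).erase k, (3 : ℂ) := by
      rw [prod_const, card_erase_of_mem (mem_range.2 (Nat.lt_succ_of_le hk)), card_range]
      simp
    rw [h2, ← prod_mul_distrib]
    apply prod_congr rfl
    intro j _
    simp only [eval_sub, eval_X, eval_C]
    push_cast
    ring
  have h3 : ∏ j ∈ range (M + 1), eval (3 * (k : ℂ)) (X - C ((3 * j + 1 : ℕ) : ℂ)) = (Dd M k : ℂ) := by
    unfold Dd
    rw [Int.cast_prod]
    apply prod_congr rfl
    intro j _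
    simp only [eval_sub, eval_X, eval_C]
    push_cast
    ring
  rw [h1, h3]

lemma mom_single (φ P : ℂ[X]) (e0 : ℕ) (h : ∀ e : ℕ, e ≠ e0 → φ.coeff e = 0 ∨ P.eval (e : ℂ) = 0) :
    mom φ (fun x => P.eval x) = φ.coeff e0 * P.eval (e0 : ℂ) := by
  rw [mom_eq_range φ _ (φ.natDegree + e0 + 1) (by omega)]
  rw [Finset.sum_eq_single e0]
  · intro e _ he
    rcases h e he with h1 | h1
    · rw [h1, zero_mul]
    · simp only [h1, mul_zero]
  · intro h'
    exfalso; apply h'; rw [mem_range]; omega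

/-- a coefficient of the two-leg polynomial -/
lemma coeff_two_leg (A : ℂ[X]) (M : ℕ) (hdeg : A.natDegree ≤ M)
    (h : sec 2 (A * (X - 1) ^ (2 * M + 1)) = 0) (k : ℕ) (hk : k ≤ M) :
    (A * (X - 1) ^ (2 * M + 1)).coeff (3 * k) * (3 ^ M * ((-1) ^ (M - k) * (k.factorial : ℂ) *
      ((M - k).factorial : ℂ)) * (Dd M k : ℂ)) = A.eval 1 * ((2 * M + 1).factorial : ℂ) := by
  have hd : ((X - 1 : ℂ[X]) ^ (2 * M + 1)).natDegree ≤ 2 * M + 1 := by
    refine natDegree_pow_le.trans ?_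
    have : (X - 1 : ℂ[X]).natDegree ≤ 1 := natDegree_X_sub_C_le (1 : ℂ)
    nlinarith
  have hdeg2 : (A * (X - 1) ^ (2 * M + 1)).natDegree ≤ 3 * M + 1 := by
    refine natDegree_mul_le.trans ?_
    omega
  have h1 := mom_eq_factorial (2 * M + 1) A (tpoly M k) (tpoly_natDegree M k hk)
  rw [tpoly_monic, one_mul, mul_comm ((X - 1) ^ _) A] at h1
  rw [← h1, mom_single _ _ (3 * k)]
  · have := tpoly_eval_self M k hk
    push_cast
    rw [this]
  · intro e he
    obtain ⟨m, hm⟩ : ∃ m, e = 3 * m ∨ e = 3 * m + 1 ∨ e = 3 * m + 2 := ⟨e / 3, by omega⟩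
    rcases hm with rfl | rfl | rfl
    · rcases le_or_gt m M with hmM | hmM
      · right
        unfold tpoly
        rw [eval_mul, eval_prod]
        rw [prod_eq_zero (i := m) (mem_erase.2 ⟨by omega, mem_range.2 (Nat.lt_succ_of_le hmM)⟩)]
        · rw [zero_mul]
        · simp
      · left
        exact coeff_eq_zero_of_natDegree_lt (by omega)
    · rcases le_or_gt m M with hmM | hmM
      · right
        unfold tpoly
        rw [eval_mul, eval_prod, eval_prod]
        rw [prod_eq_zero (s := range (M + 1)) (i := m) (mem_range.2 (Nat.lt_succ_of_le hmM))]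
        · rw [mul_zero]
        · simp
      · left
        exact coeff_eq_zero_of_natDegree_lt (by omega)
    · left
      rw [← coeff_sec, h, coeff_zero]

/-- the value of the two-leg polynomial at `q²` -/
theorem eval_two_leg {q : ℂ} (hq : q ^ 2 + q + 1 = 0) (A : ℂ[X]) (M : ℕ) (hdeg : A.natDegree ≤ M)
    (h : sec 2 (A * (X - 1) ^ (2 * M + 1)) = 0) :
    A.eval (q ^ 2) * (q ^ 2 - 1) ^ (2 * M + 1) * ((M.factorial : ℂ) * ((3 * M + 1).factorial : ℂ)) =
      (q ^ 2 - 1) * (A.eval 1 * ((2 * M + 1).factorial : ℂ) * ((2 * M).factorial : ℂ) * 3 ^ M) := by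
  have q3 : q ^ 3 = 1 := by linear_combination (q - 1) * hq
  set φ := A * (X - 1) ^ (2 * M + 1) with hφ
  have hφdeg : φ.natDegree ≤ 3 * M + 1 := by
    refine natDegree_mul_le.trans ?_
    have hd : ((X - 1 : ℂ[X]) ^ (2 * M + 1)).natDegree ≤ 2 * M + 1 := by
      refine natDegree_pow_le.trans ?_
      have : (X - 1 : ℂ[X]).natDegree ≤ 1 := natDegree_X_sub_C_le (1 : ℂ)
      nlinarith
    omega
  have h0 : φ.eval 1 = 0 := by simp [hφ]
  have h1 : φ.eval (q ^ 2) = A.eval (q ^ 2) * (q ^ 2 - 1) ^ (2 * M + 1) := by simp [hφ]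
  have q6 : (q ^ 2) ^ 3 = 1 := by rw [← pow_mul, mul_comm, pow_mul, q3, one_pow]
  rw [eval_decomp φ 1, h] at h0
  rw [eval_decomp φ (q ^ 2), h, q6] at h1
  simp only [one_pow, one_mul, eval_zero, mul_zero, add_zero] at h0 h1
  -- sum of the coefficients
  have hs : (sec 0 φ).eval 1 = ∑ k ∈ range (M + 1), φ.coeff (3 * k) := by
    rw [eval_eq_sum_range' (n := M + 1)]
    · apply sum_congr rfl
      intro k _
      rw [coeff_sec, one_pow, mul_one, add_zero]
    · rw [Nat.lt_succ_iff, natDegree_le_iff_coeff_eq_zero]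
      intro N hN
      rw [coeff_sec, coeff_eq_zero_of_natDegree_lt (by omega)]
  have hk : ∀ k ∈ range (M + 1), φ.coeff (3 * k) =
      A.eval 1 * ((2 * M + 1).factorial : ℂ) * (-1) ^ M / (3 ^ M * (M.factorial : ℂ)) * Tt ℂ M k := by
    intro k hk
    rw [mem_range, Nat.lt_succ_iff] at hk
    have := coeff_two_leg A M hdeg h k hk
    have d0 : (Dd M k : ℂ) ≠ 0 := Int.cast_ne_zero.2 (Dd_ne_zero M k)
    have f1 : (k.factorial : ℂ) ≠ 0 := Nat.cast_ne_zero.2 (Nat.factorial_ne_zero _)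
    have f2 : ((M - k).factorial : ℂ) ≠ 0 := Nat.cast_ne_zero.2 (Nat.factorial_ne_zero _)
    have f3 : (M.factorial : ℂ) ≠ 0 := Nat.cast_ne_zero.2 (Nat.factorial_ne_zero _)
    have hc : (M.choose k : ℂ) * ((k.factorial : ℂ) * ((M - k).factorial : ℂ)) = (M.factorial : ℂ) := by
      have := Nat.choose_mul_factorial_mul_factorial hk
      rw [← mul_assoc]
      exact_mod_cast this
    have hsg : ((-1 : ℂ) ^ (M - k)) * (-1) ^ (M - k) = 1 := by
      rw [← pow_add]; exact (Even.add_self _).neg_one_pow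
    have hsg2 : ((-1 : ℂ) ^ M) * (-1) ^ k = (-1) ^ (M - k) := by
      rw [← pow_add]
      have : M + k = (M - k) + (k + k) := by omega
      rw [this, pow_add]
      have : ((-1 : ℂ) ^ (k + k)) = 1 := (Even.add_self _).neg_one_pow
      rw [this, mul_one]
    have hfac : (3 ^ M * (M.factorial : ℂ)) ≠ 0 := mul_ne_zero (pow_ne_zero _ (by norm_num)) f3
    unfold Tt
    rw [div_mul_div_comm, eq_div_iff (mul_ne_zero hfac d0)]
    rw [← hφ] at this
    generalize (Dd M (k : ℤ) : ℂ) = D at *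
    generalize (M.choose k : ℂ) = Cc at *
    generalize (k.factorial : ℂ) = K1 at *
    generalize ((M - k).factorial : ℂ) = K2 at *
    generalize (M.factorial : ℂ) = K3 at *
    generalize φ.coeff (3 * k) = cc at *
    generalize ((2 * M + 1).factorial : ℂ) = K4 at *
    generalize (-1 : ℂ) ^ (M - k) = s at *
    linear_combination (s * Cc) * this - cc * 3 ^ M * D * hc - cc * 3 ^ M * D * (Cc * K1 * K2) * hsg -
      (eval 1 A * K4 * Cc) * hsg2
  rw [hs, sum_congr rfl hk, ← mul_sum] at h0 h1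
  have hH := Hsum_eq ℂ M
  unfold Hsum at hH
  rw [hH] at h0 h1
  rw [← h1]
  have f3 : (M.factorial : ℂ) ≠ 0 := Nat.cast_ne_zero.2 (Nat.factorial_ne_zero _)
  have f4 : ((3 * M + 1).factorial : ℂ) ≠ 0 := Nat.cast_ne_zero.2 (Nat.factorial_ne_zero _)
  have e1 : eval 1 (sec 1 φ) = -(eval 1 A * ((2 * M + 1).factorial : ℂ) * (-1) ^ M / (3 ^ M * (M.factorial : ℂ)) *
      ((-1) ^ (M + 1) * 9 ^ M * ((2 * M).factorial : ℂ) / ((3 * M + 1).factorial : ℂ))) := by
    linear_combination h0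
  rw [e1]
  have e9 : (9 : ℂ) ^ M = 3 ^ M * 3 ^ M := by rw [← mul_pow]; norm_num
  have hsg : ((-1 : ℂ) ^ M) * (-1) ^ M = 1 := by
    rw [← pow_add]; exact (Even.add_self _).neg_one_pow
  rw [e9, pow_succ]
  field_simp
  linear_combination (-1 + q ^ 2) * (eval 1 A * ((2 * M + 1).factorial : ℂ) * ((2 * M).factorial : ℂ)) * hsg

/-- the top coefficient of the two-leg polynomial -/
theorem top_two_leg (A : ℂ[X]) (M : ℕ) (hdeg : A.natDegree ≤ M)
    (h : sec 2 (A * (X - 1) ^ (2 * M + 1)) = 0) :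
    A.coeff M * ((∏ m ∈ range (M + 1), (3 * (m : ℂ) + 1)) * (3 ^ M * (M.factorial : ℂ))) =
      A.eval 1 * ((2 * M + 1).factorial : ℂ) := by
  set φ := A * (X - 1) ^ (2 * M + 1) with hφ
  have hd : ((X - 1 : ℂ[X]) ^ (2 * M + 1)).natDegree ≤ 2 * M + 1 := by
    refine natDegree_pow_le.trans ?_
    have : (X - 1 : ℂ[X]).natDegree ≤ 1 := natDegree_X_sub_C_le (1 : ℂ)
    nlinarith
  have hφdeg : φ.natDegree ≤ 3 * M + 1 := by
    refine natDegree_mul_le.trans ?_
    omega
  have hmon : ((X - 1 : ℂ[X]) ^ (2 * M + 1)).coeff (2 * M + 1) = 1 := by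
    have := (monic_X_sub_C (1 : ℂ)).pow (2 * M + 1)
    have h2 : ((X - C (1 : ℂ)) ^ (2 * M + 1)).natDegree = 2 * M + 1 := by
      rw [(monic_X_sub_C (1 : ℂ)).natDegree_pow, natDegree_X_sub_C, mul_one]
    rw [Monic, leadingCoeff, h2] at this
    exact this
  have htop : φ.coeff (3 * M + 1) = A.coeff M := by
    have : 3 * M + 1 = M + (2 * M + 1) := by ring
    rw [this, hφ, coeff_mul_add_eq_of_natDegree_le hdeg hd, hmon, mul_one]
  -- test polynomial
  set P : ℂ[X] := (∏ m ∈ range (M + 1), (X - C ((3 * m : ℕ) : ℂ))) *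
    ∏ m ∈ range M, (X - C ((3 * m + 1 : ℕ) : ℂ)) with hP
  have hPm : P.Monic := (monic_prod_of_monic _ _ fun _ _ => monic_X_sub_C _).mul
    (monic_prod_of_monic _ _ fun _ _ => monic_X_sub_C _)
  have hPd : P.natDegree = 2 * M + 1 := by
    rw [hP, (monic_prod_of_monic _ _ fun _ _ => monic_X_sub_C _).natDegree_mul
      (monic_prod_of_monic _ _ fun _ _ => monic_X_sub_C _)]
    rw [natDegree_prod_of_monic _ _ (fun _ _ => monic_X_sub_C _),
      natDegree_prod_of_monic _ _ (fun _ _ => monic_X_sub_C _)]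
    simp only [natDegree_X_sub_C, sum_const, smul_eq_mul, mul_one, card_range]
    ring
  have h1 := mom_eq_factorial (2 * M + 1) A P hPd
  rw [hPm, one_mul, mul_comm ((X - 1) ^ _) A, ← hφ, mom_single _ _ (3 * M + 1)] at h1
  · rw [htop] at h1
    rw [← h1]
    congr 1
    rw [hP, eval_mul, eval_prod, eval_prod]
    have e1 : ∏ j ∈ range (M + 1), eval ((3 * M + 1 : ℕ) : ℂ) (X - C ((3 * j : ℕ) : ℂ)) =
        ∏ m ∈ range (M + 1), (3 * (m : ℂ) + 1) := by
      rw [← prod_range_reflect]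
      apply prod_congr rfl
      intro j hj
      rw [mem_range] at hj
      rw [show M + 1 - 1 - j = M - j by omega]
      have : ((M - j : ℕ) : ℂ) = M - j := by
        rw [Nat.cast_sub (by omega)]
      simp only [eval_sub, eval_X, eval_C]
      push_cast
      rw [this]
      ring
    have e2 : ∏ j ∈ range M, eval ((3 * M + 1 : ℕ) : ℂ) (X - C ((3 * j + 1 : ℕ) : ℂ)) =
        3 ^ M * (M.factorial : ℂ) := by
      have h3 : (3 : ℂ) ^ M = ∏ m ∈ range M, (3 : ℂ) := by simp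
      rw [← prod_range_add_one_eq_factorial, Nat.cast_prod, h3, ← prod_range_reflect,
        ← prod_mul_distrib]
      apply prod_congr rfl
      intro j hj
      rw [mem_range] at hj
      have : ((M - 1 - j : ℕ) : ℂ) = M - 1 - j := by
        rw [Nat.cast_sub (by omega), Nat.cast_sub (by omega)]; simp
      simp only [eval_sub, eval_X, eval_C]
      push_cast
      rw [this]
      ring
    rw [e1, e2]
  · intro e he
    obtain ⟨m, hm⟩ : ∃ m, e = 3 * m ∨ e = 3 * m + 1 ∨ e = 3 * m + 2 := ⟨e / 3, by omega⟩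
    rcases hm with rfl | rfl | rfl
    · rcases le_or_gt m M with hmM | hmM
      · right
        rw [hP, eval_mul, eval_prod]
        rw [prod_eq_zero (i := m) (mem_range.2 (Nat.lt_succ_of_le hmM))]
        · rw [zero_mul]
        · simp
      · left
        exact coeff_eq_zero_of_natDegree_lt (by omega)
    · rcases lt_or_ge m M with hmM | hmM
      · right
        rw [hP, eval_mul, eval_prod, eval_prod]
        rw [prod_eq_zero (s := range M) (i := m) (mem_range.2 hmM)]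
        · rw [mul_zero]
        · simp
      · left
        exact coeff_eq_zero_of_natDegree_lt (by omega)
    · left
      rw [← coeff_sec, h, coeff_zero]

/-- the top coefficient of the one-leg polynomial -/
theorem top_one_leg (A : ℂ[X]) (M : ℕ) (hdeg : A.natDegree ≤ M)
    (h : sec 2 (A * (X - 1) ^ (2 * M)) = 0) :
    A.coeff M * ((∏ m ∈ range M, (3 * (m : ℂ) + 2)) * (3 ^ M * (M.factorial : ℂ))) =
      A.eval 1 * ((2 * M).factorial : ℂ) := by
  set φ := A * (X - 1) ^ (2 * M) with hφ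
  have hd : ((X - 1 : ℂ[X]) ^ (2 * M)).natDegree ≤ 2 * M := by
    refine natDegree_pow_le.trans ?_
    have : (X - 1 : ℂ[X]).natDegree ≤ 1 := natDegree_X_sub_C_le (1 : ℂ)
    nlinarith
  have hφdeg : φ.natDegree ≤ 3 * M := by
    refine natDegree_mul_le.trans ?_
    omega
  have hmon : ((X - 1 : ℂ[X]) ^ (2 * M)).coeff (2 * M) = 1 := by
    have := (monic_X_sub_C (1 : ℂ)).pow (2 * M)
    have h2 : ((X - C (1 : ℂ)) ^ (2 * M)).natDegree = 2 * M := by
      rw [(monic_X_sub_C (1 : ℂ)).natDegree_pow, natDegree_X_sub_C, mul_one]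
    rw [Monic, leadingCoeff, h2] at this
    exact this
  have htop : φ.coeff (3 * M) = A.coeff M := by
    have : 3 * M = M + (2 * M) := by ring
    rw [this, hφ, coeff_mul_add_eq_of_natDegree_le hdeg hd, hmon, mul_one]
  set P : ℂ[X] := (∏ m ∈ range M, (X - C ((3 * m : ℕ) : ℂ))) *
    ∏ m ∈ range M, (X - C ((3 * m + 1 : ℕ) : ℂ)) with hP
  have hPm : P.Monic := (monic_prod_of_monic _ _ fun _ _ => monic_X_sub_C _).mul
    (monic_prod_of_monic _ _ fun _ _ => monic_X_sub_C _)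
  have hPd : P.natDegree = 2 * M := by
    rw [hP, (monic_prod_of_monic _ _ fun _ _ => monic_X_sub_C _).natDegree_mul
      (monic_prod_of_monic _ _ fun _ _ => monic_X_sub_C _)]
    rw [natDegree_prod_of_monic _ _ (fun _ _ => monic_X_sub_C _),
      natDegree_prod_of_monic _ _ (fun _ _ => monic_X_sub_C _)]
    simp only [natDegree_X_sub_C, sum_const, smul_eq_mul, mul_one, card_range]
    ring
  have h1 := mom_eq_factorial (2 * M) A P hPd
  rw [hPm, one_mul, mul_comm ((X - 1) ^ _) A, ← hφ, mom_single _ _ (3 * M)] at h1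
  · rw [htop] at h1
    rw [← h1]
    congr 1
    rw [hP, eval_mul, eval_prod, eval_prod, mul_comm]
    have e1 : ∏ j ∈ range M, eval ((3 * M : ℕ) : ℂ) (X - C ((3 * j + 1 : ℕ) : ℂ)) =
        ∏ m ∈ range M, (3 * (m : ℂ) + 2) := by
      rw [← prod_range_reflect]
      apply prod_congr rfl
      intro j hj
      rw [mem_range] at hj
      have : ((M - 1 - j : ℕ) : ℂ) = M - 1 - j := by
        rw [Nat.cast_sub (by omega), Nat.cast_sub (by omega)]; simp
      simp only [eval_sub, eval_X, eval_C]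
      push_cast
      rw [this]
      ring
    have e2 : ∏ j ∈ range M, eval ((3 * M : ℕ) : ℂ) (X - C ((3 * j : ℕ) : ℂ)) =
        3 ^ M * (M.factorial : ℂ) := by
      have h3 : (3 : ℂ) ^ M = ∏ m ∈ range M, (3 : ℂ) := by simp
      rw [← prod_range_add_one_eq_factorial, Nat.cast_prod, h3, ← prod_range_reflect,
        ← prod_mul_distrib]
      apply prod_congr rfl
      intro j hj
      rw [mem_range] at hj
      have : ((M - 1 - j : ℕ) : ℂ) = M - 1 - j := by
        rw [Nat.cast_sub (by omega), Nat.cast_sub (by omega)]; simp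
      simp only [eval_sub, eval_X, eval_C]
      push_cast
      rw [this]
      ring
    rw [e1, e2]
  · intro e he
    obtain ⟨m, hm⟩ : ∃ m, e = 3 * m ∨ e = 3 * m + 1 ∨ e = 3 * m + 2 := ⟨e / 3, by omega⟩
    rcases hm with rfl | rfl | rfl
    · rcases lt_or_ge m M with hmM | hmM
      · right
        rw [hP, eval_mul, eval_prod]
        rw [prod_eq_zero (i := m) (mem_range.2 hmM)]
        · rw [zero_mul]
        · simp
      · left
        exact coeff_eq_zero_of_natDegree_lt (by omega)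
    · rcases lt_or_ge m M with hmM | hmM
      · right
        have hz : ∏ j ∈ range M, eval ((3 * m + 1 : ℕ) : ℂ) (X - C ((3 * j + 1 : ℕ) : ℂ)) = 0 :=
          prod_eq_zero (mem_range.2 hmM) (by simp)
        rw [hP, eval_mul, eval_prod, eval_prod, hz, mul_zero]
      · left
        exact coeff_eq_zero_of_natDegree_lt (by omega)
    · left
      rw [← coeff_sec, h, coeff_zero]

end Pool.Agent.H34.Hom

end

section

/-!
# The homogeneous values as products
-/

namespace Pool.Agent.H34.Hom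

open Finset Polynomial Pool.Agent.H96.EX Filter Topology

/-- number of alternating sign matrices (product formula, as a real number) -/
noncomputable def asm : ℕ → ℝ
  | 0 => 1
  | n + 1 => asm n * (((3 * n + 1).factorial : ℝ) * (n.factorial : ℝ) /
      (((2 * n).factorial : ℝ) * ((2 * n + 1).factorial : ℝ)))

lemma asm_pos (n : ℕ) : 0 < asm n := by
  induction n with
  | zero => simp [asm]
  | succ n ih => unfold asm; positivity

section

variable {q : ℂ} (hq : q ^ 2 + q + 1 = 0)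
include hq

lemma two_leg_rec (M : ℕ) :
    HV q (q ^ 2) q (M + 1) [1, 1] * (((2 * M + 3).factorial : ℂ) * ((2 * M + 2).factorial : ℂ)) =
      -(3 ^ (M + 1) * ((M + 1).factorial : ℂ) * ((3 * M + 4).factorial : ℂ)) * HV q (q ^ 2) q M [1, 1] := by
  have q3 : q ^ 3 = 1 := by linear_combination (q - 1) * hq
  obtain ⟨A, hdeg, hev, hCT⟩ := exists_HP (q := q) (q ^ 2) q hq (M + 1) [1]
  have h1 := struct1 hq (M + 1) [1] (by simp) hCT
  have e1 : A * (([1] : List ℂ).map fun a => X - C a).prod * (X - 1) ^ (2 * (M + 1)) =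
      A * (X - 1) ^ (2 * (M + 1) + 1) := by
    simp only [List.map_cons, List.map_nil, List.prod_cons, List.prod_nil, mul_one, map_one]
    ring
  rw [e1] at h1
  have h2 := eval_two_leg hq A (M + 1) hdeg h1
  rw [hev, hev, HV_rec (q ^ 2) q hq M [1]] at h2
  simp only [lg_cons, lg_nil, mul_one] at h2
  have hq1 : q ^ 2 - 1 ≠ 0 := by
    intro h
    have h3 : (3 : ℂ) = 0 := by linear_combination (2 - q) * hq + (q - 1) * h + (q^2 - 1 - q^2+1) * h
    norm_num at h3
  have key : q ^ 2 * (q ^ 2 - q) * (1 - q) * (1 - q) ^ (2 * M) * (q ^ 2 - 1) ^ (2 * (M + 1) + 1) =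
      -(3 ^ (2 * M + 2)) * (q ^ 2 - 1) := by
    have e2 : (1 - q) * (q ^ 2 - 1) = -3 := by linear_combination (2 - q) * hq
    have e3 : (1 - q) ^ (2 * M) * (q ^ 2 - 1) ^ (2 * M) = 3 ^ (2 * M) := by
      rw [← mul_pow, e2, pow_mul, pow_mul]; norm_num
    have e4 : 2 * (M + 1) + 1 = 2 * M + 3 := by ring
    rw [e4, pow_add (q ^ 2 - 1) (2 * M) 3]
    have e5 : q ^ 2 * (q ^ 2 - q) * (1 - q) * (q ^ 2 - 1) ^ 3 = - (3 ^ 2) * (q ^ 2 - 1) := by
      have e6 : q ^ 2 * (q ^ 2 - q) = q - 1 := by linear_combination (q - 1) * q3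
      rw [e6]
      linear_combination ((q - 1) * (q ^ 2 - 1) ^ 2 + 3 * (q ^ 2 - 1) * 0) * e2 + (3 * (q^2 - 1)) * e2 * 1 + 0 * hq
    calc _ = (q ^ 2 * (q ^ 2 - q) * (1 - q) * (q ^ 2 - 1) ^ 3) * ((1 - q) ^ (2 * M) * (q ^ 2 - 1) ^ (2 * M)) := by ring
      _ = _ := by rw [e3, e5]; ring
  have f1 : 2 * (M + 1) + 1 = 2 * M + 3 := by ring
  have f2 : 2 * (M + 1) = 2 * M + 2 := by ring
  have f3 : 3 * (M + 1) + 1 = 3 * M + 4 := by ring
  rw [f3] at h2
  have h3 : -(3 ^ (2 * M + 2)) * (q ^ 2 - 1) * HV q (q ^ 2) q M [1, 1] *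
      (((M + 1).factorial : ℂ) * ((3 * M + 4).factorial : ℂ)) =
      (q ^ 2 - 1) * (HV q (q ^ 2) q (M + 1) [1, 1] * ((2 * (M + 1) + 1).factorial : ℂ) *
        ((2 * (M + 1)).factorial : ℂ) * 3 ^ (M + 1)) := by
    rw [← h2, ← key]; ring
  rw [f1, f2] at h3
  have h30 : (3 : ℂ) ^ (M + 1) ≠ 0 := pow_ne_zero _ (by norm_num)
  apply mul_left_cancel₀ (mul_ne_zero hq1 h30)
  have e7 : (3 : ℂ) ^ (2 * M + 2) = 3 ^ (M + 1) * 3 ^ (M + 1) := by rw [← pow_add]; congr 1; ring
  rw [e7] at h3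
  linear_combination -h3

lemma HV_nil_zero (u v : ℂ) (c : List ℂ) : HV q u v 0 c = 1 := by
  have h1 := tendsto_HV u v hq 0 c
  have h2 : ∀ t : ℝ, SS q u v 0 c (zt t) = 1 := by
    intro t
    unfold SS PM pp SG
    simp
  simp only [h2] at h1
  exact tendsto_nhds_unique h1 tendsto_const_nhds

/-- the two-leg value is `(-1)^M 3^(M(M+1)/2) A(M+1)` -/
theorem two_leg_value (M : ℕ) :
    HV q (q ^ 2) q M [1, 1] = (-1) ^ M * 3 ^ (M * (M + 1) / 2) * ((asm (M + 1) : ℝ) : ℂ) := by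
  induction M with
  | zero =>
    rw [HV_nil_zero hq]
    simp [asm]
  | succ M ih =>
    have h := two_leg_rec hq M
    rw [ih] at h
    have f1 : ((2 * M + 3).factorial : ℂ) ≠ 0 := Nat.cast_ne_zero.2 (Nat.factorial_ne_zero _)
    have f2 : ((2 * M + 2).factorial : ℂ) ≠ 0 := Nat.cast_ne_zero.2 (Nat.factorial_ne_zero _)
    apply mul_right_cancel₀ (mul_ne_zero f1 f2)
    rw [h]
    have e1 : (M + 1) * (M + 1 + 1) / 2 = M * (M + 1) / 2 + (M + 1) := by
      have : (M + 1) * (M + 1 + 1) = M * (M + 1) + 2 * (M + 1) := by ring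
      rw [this, Nat.add_mul_div_left _ _ (by norm_num)]
    have e2 : asm (M + 1 + 1) = asm (M + 1) * (((3 * (M + 1) + 1).factorial : ℝ) * ((M + 1).factorial : ℝ) /
      (((2 * (M + 1)).factorial : ℝ) * ((2 * (M + 1) + 1).factorial : ℝ))) := rfl
    have g1 : 2 * (M + 1) + 1 = 2 * M + 3 := by ring
    have g2 : 2 * (M + 1) = 2 * M + 2 := by ring
    have g3 : 3 * (M + 1) + 1 = 3 * M + 4 := by ring
    rw [e1, e2, g1, g2, g3]
    push_cast
    field_simp
    rw [pow_succ (-1 : ℂ) M, pow_add (3 : ℂ) (M * (M + 1) / 2) (M + 1), pow_succ (3 : ℂ) M]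
    ring

omit hq in
lemma prod_fact (M : ℕ) : (∏ m ∈ range (M + 1), (3 * (m : ℂ) + 1)) * (∏ m ∈ range M, (3 * (m : ℂ) + 2)) *
    (3 ^ M * (M.factorial : ℂ)) = ((3 * M + 1).factorial : ℂ) := by
  induction M with
  | zero => simp
  | succ M ih =>
    rw [prod_range_succ, prod_range_succ (fun m => (3 * (m : ℂ) + 2)), Nat.factorial_succ]
    have : 3 * (M + 1) + 1 = (3 * M + 1) + 1 + 1 + 1 := by ring
    rw [this, Nat.factorial_succ, Nat.factorial_succ, Nat.factorial_succ]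
    push_cast
    rw [← ih]
    ring

/-- the zero-leg value is `(-1)^M 3^(M(M-1)/2) A(M)` -/
theorem zero_leg_value (M : ℕ) :
    HV q (q ^ 2) q M [] = (-1) ^ M * 3 ^ (M * (M - 1) / 2) * ((asm M : ℝ) : ℂ) := by
  -- one leg
  obtain ⟨A, hdeg, hev, hCT⟩ := exists_HP (q := q) (q ^ 2) q hq M [1]
  have h1 := struct1 hq M [1] (by simp) hCT
  have e1 : A * (([1] : List ℂ).map fun a => X - C a).prod * (X - 1) ^ (2 * M) =
      A * (X - 1) ^ (2 * M + 1) := by
    simp only [List.map_cons, List.map_nil, List.prod_cons, List.prod_nil, mul_one, map_one]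
    ring
  rw [e1] at h1
  have h2 := top_two_leg A M hdeg h1
  rw [top_HV (q ^ 2) q hq M [1] hCT, hev] at h2
  obtain ⟨B, hdeg', hev', hCT'⟩ := exists_HP (q := q) (q ^ 2) q hq M []
  have h1' := struct1 hq M [] (by simp) hCT'
  have e1' : B * (([] : List ℂ).map fun a => X - C a).prod * (X - 1) ^ (2 * M) =
      B * (X - 1) ^ (2 * M) := by simp
  rw [e1'] at h1'
  have h2' := top_one_leg B M hdeg' h1'
  rw [top_HV (q ^ 2) q hq M [] hCT', hev'] at h2'
  have hp := prod_fact M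
  have f1 : ((2 * M).factorial : ℂ) ≠ 0 := Nat.cast_ne_zero.2 (Nat.factorial_ne_zero _)
  have f2 : ((2 * M + 1).factorial : ℂ) ≠ 0 := Nat.cast_ne_zero.2 (Nat.factorial_ne_zero _)
  have f3 : ((3 * M + 1).factorial : ℂ) ≠ 0 := Nat.cast_ne_zero.2 (Nat.factorial_ne_zero _)
  have f4 : (M.factorial : ℂ) ≠ 0 := Nat.cast_ne_zero.2 (Nat.factorial_ne_zero _)
  have f5 : (3 : ℂ) ^ M ≠ 0 := pow_ne_zero _ (by norm_num)
  have h3 : HV q (q ^ 2) q M [] * (((3 * M + 1).factorial : ℂ) * (3 ^ M * (M.factorial : ℂ))) =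
      HV q (q ^ 2) q M [1, 1] * (((2 * M + 1).factorial : ℂ) * ((2 * M).factorial : ℂ)) := by
    rw [← hp]
    linear_combination ((∏ m ∈ range (M + 1), (3 * (m : ℂ) + 1)) * (3 ^ M * (M.factorial : ℂ))) * h2' +
      ((2 * M).factorial : ℂ) * h2
  apply mul_right_cancel₀ (mul_ne_zero f3 (mul_ne_zero f5 f4))
  rw [h3, two_leg_value hq M]
  have e2 : M * (M + 1) / 2 = M * (M - 1) / 2 + M := by
    rcases M with _ | M
    · rfl
    · have : (M + 1) * (M + 1 + 1) = (M + 1) * (M + 1 - 1) + 2 * (M + 1) := by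
        rw [Nat.add_sub_cancel]; ring
      rw [this, Nat.add_mul_div_left _ _ (by norm_num)]
  have e3 : asm (M + 1) = asm M * (((3 * M + 1).factorial : ℝ) * (M.factorial : ℝ) /
      (((2 * M).factorial : ℝ) * ((2 * M + 1).factorial : ℝ))) := rfl
  rw [e2, e3, pow_add]
  push_cast
  field_simp

/-- the four-leg value in terms of the two-leg value -/
theorem four_leg_value (M : ℕ) (hM : Even M) :
    HV q q (q ^ 2) M [1, 1, 1, 1] * (((2 * M + 3).factorial : ℂ) * ((2 * M + 2).factorial : ℂ)) =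
      (3 * M + 3) * (A0 M : ℂ) ^ 2 * HV q (q ^ 2) q M [1, 1] := by
  have q3 : q ^ 3 = 1 := by linear_combination (q - 1) * hq
  -- three legs
  obtain ⟨A, hdeg, hev, hCT⟩ := exists_HP (q := q) q (q ^ 2) hq M [1, 1]
  have h1 := struct2 hq M [1, 1] (by simp) hCT
  have e1 : A * (([1, 1] : List ℂ).map fun a => X - C a).prod * (X - 1) ^ (2 * M) =
      A * (X - 1) ^ (2 * M + 2) := by
    simp only [List.map_cons, List.map_nil, List.prod_cons, List.prod_nil, mul_one, map_one]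
    ring
  rw [e1] at h1
  have hd : ∀ n : ℕ, ((X - 1 : ℂ[X]) ^ n).natDegree ≤ n := by
    intro n
    refine natDegree_pow_le.trans ?_
    have : (X - 1 : ℂ[X]).natDegree ≤ 1 := natDegree_X_sub_C_le (1 : ℂ)
    nlinarith
  have c1 : (A * (X - 1) ^ (2 * M + 2)).coeff (3 * M + 3) = 0 := by
    apply coeff_eq_zero_of_natDegree_lt
    have := natDegree_mul_le (p := A) (q := (X - 1) ^ (2 * M + 2))
    have := hd (2 * M + 2)
    omega
  have c0 : (A * (X - 1) ^ (2 * M + 2)).coeff 0 = (-1) ^ M * HV q (q ^ 2) q M [1, 1] := by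
    rw [mul_coeff_zero, coeff_zero_eq_eval_zero, coeff_zero_eq_eval_zero, hev,
      HV_zero_leg q (q ^ 2) hq M [1, 1]]
    have e2 : q * q = q ^ 2 := by ring
    have e3 : q ^ 2 * q ^ 2 = q := by linear_combination q * q3
    rw [e2, e3]
    simp only [eval_pow, eval_sub, eval_X, eval_one, zero_sub]
    have e4 : (-1 : ℂ) ^ (2 * M + 2) = 1 := by
      have : 2 * M + 2 = 2 * (M + 1) := by ring
      rw [this, pow_mul]; norm_num
    rw [e4, mul_one]
  rw [c1, c0] at h1
  have hsg : ((-1 : ℂ) ^ M) = 1 := hM.neg_one_pow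
  rw [hsg] at h1
  simp only [one_mul, mul_one, map_zero, zero_mul, add_zero] at h1
  have h2 := eval_three_leg A M hdeg _ h1
  rw [hev] at h2
  -- four legs
  obtain ⟨B, hdeg', hev', hCT'⟩ := exists_HP (q := q) q (q ^ 2) hq M [1, 1, 1]
  have h1' := struct2 hq M [1, 1, 1] (by simp) hCT'
  have e1' : B * (([1, 1, 1] : List ℂ).map fun a => X - C a).prod * (X - 1) ^ (2 * M) =
      B * (X - 1) ^ (2 * M + 3) := by
    simp only [List.map_cons, List.map_nil, List.prod_cons, List.prod_nil, mul_one, map_one]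
    ring
  rw [e1'] at h1'
  have h2' := eval_four_leg B M hM hdeg' _ _ h1'
  have hmon : ((X - 1 : ℂ[X]) ^ (2 * M + 3)).coeff (2 * M + 3) = 1 := by
    have := (monic_X_sub_C (1 : ℂ)).pow (2 * M + 3)
    have h2 : ((X - C (1 : ℂ)) ^ (2 * M + 3)).natDegree = 2 * M + 3 := by
      rw [(monic_X_sub_C (1 : ℂ)).natDegree_pow, natDegree_X_sub_C, mul_one]
    rw [Monic, leadingCoeff, h2] at this
    exact this
  have c3 : (B * (X - 1) ^ (2 * M + 3)).coeff (3 * M + 3) = HV q q (q ^ 2) M [1, 1, 1] := by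
    have : 3 * M + 3 = M + (2 * M + 3) := by ring
    rw [this, coeff_mul_add_eq_of_natDegree_le hdeg' (hd _), hmon, mul_one,
      top_HV q (q ^ 2) hq M [1, 1, 1] hCT']
  rw [c3, hev'] at h2'
  linear_combination ((2 * M + 2).factorial : ℂ) * h2' + ((3 * M + 3) * (A0 M : ℂ)) * h2

end

end Pool.Agent.H34.Hom

end

section

/-!
# Asymptotics of the product formulas
-/

namespace Pool.Agent.H34.Hom

open Finset Filter Topology Stirling

/-- ratio `A(k+1)/A(k)` -/
noncomputable def ra (k : ℕ) : ℝ := ((3 * k + 1).factorial : ℝ) * (k.factorial : ℝ) /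
      (((2 * k).factorial : ℝ) * ((2 * k + 1).factorial : ℝ))

lemma asm_succ (k : ℕ) : asm (k + 1) = asm k * ra k := rfl

lemma ra_pos (k : ℕ) : 0 < ra k := by unfold ra; positivity

/-- normalised squared ratio -/
noncomputable def mu (k : ℕ) : ℝ := ra k ^ 2 * (16 / 27) ^ (2 * k + 1)

lemma mu_pos (k : ℕ) : 0 < mu k := by
  unfold mu; have := ra_pos k; positivity

lemma fact_eq (n : ℕ) (hn : n ≠ 0) :
    (n.factorial : ℝ) = stirlingSeq n * (√(2 * n : ℝ) * (n / Real.exp 1) ^ n) := by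
  unfold stirlingSeq
  have : (√(2 * n : ℝ) * (n / Real.exp 1) ^ n) ≠ 0 := by
    have hn' : (0 : ℝ) < n := by exact_mod_cast Nat.pos_of_ne_zero hn
    positivity
  field_simp

lemma mu_eq (k : ℕ) (hk : k ≠ 0) : mu k = (4 / 9) * ((3 * k + 1) / (2 * k + 1) : ℝ) ^ 2 *
    (stirlingSeq (3 * k) * stirlingSeq k / stirlingSeq (2 * k) ^ 2) ^ 2 := by
  have hk' : (0 : ℝ) < k := by exact_mod_cast Nat.pos_of_ne_zero hk
  have h3 := fact_eq (3 * k) (by omega)
  have h2 := fact_eq (2 * k) (by omega)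
  have h1 := fact_eq k hk
  have e1 : ((3 * k + 1).factorial : ℝ) = (3 * k + 1) * ((3 * k).factorial : ℝ) := by
    rw [Nat.factorial_succ]; push_cast; ring
  have e2 : ((2 * k + 1).factorial : ℝ) = (2 * k + 1) * ((2 * k).factorial : ℝ) := by
    rw [Nat.factorial_succ]; push_cast; ring
  have s2 : 0 < stirlingSeq (2 * k) := by
    obtain ⟨m, hm⟩ : ∃ m, 2 * k = m + 1 := ⟨2 * k - 1, by omega⟩
    rw [hm]; exact stirlingSeq'_pos m
  unfold mu ra
  rw [e1, e2, h3, h2, h1]
  push_cast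
  have q3 : √(2 * (3 * (k : ℝ))) ^ 2 = 6 * k := by rw [Real.sq_sqrt (by positivity)]; ring
  have q2 : √(2 * (2 * (k : ℝ))) ^ 2 = 4 * k := by rw [Real.sq_sqrt (by positivity)]; ring
  have q1 : √(2 * (k : ℝ)) ^ 2 = 2 * k := by rw [Real.sq_sqrt (by positivity)]
  have hx : (0 : ℝ) < (k / Real.exp 1) ^ k := by positivity
  have p3 : (3 * (k : ℝ) / Real.exp 1) ^ (3 * k) = 27 ^ k * ((k / Real.exp 1) ^ k) ^ 3 := by
    rw [mul_div_assoc, mul_pow, pow_mul, pow_mul' (k / Real.exp 1) 3 k]; norm_num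
  have p2 : (2 * (k : ℝ) / Real.exp 1) ^ (2 * k) = 4 ^ k * ((k / Real.exp 1) ^ k) ^ 2 := by
    rw [mul_div_assoc, mul_pow, pow_mul, pow_mul' (k / Real.exp 1) 2 k]; norm_num
  rw [p3, p2]
  have e27 : ((16 : ℝ) / 27) ^ (2 * k + 1) = 16 / 27 * ((4 ^ k) ^ 4 / (27 ^ k) ^ 2) := by
    rw [pow_succ, pow_mul', div_pow]
    have : (16 : ℝ) ^ k = (4 ^ k) ^ 2 := by rw [← pow_mul, mul_comm k 2, pow_mul]; norm_num
    rw [this]
    ring
  rw [e27]
  generalize (k / Real.exp 1 : ℝ) ^ k = x at *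
  generalize stirlingSeq (3 * k) = S3 at *
  generalize stirlingSeq (2 * k) = S2 at *
  generalize stirlingSeq k = S1 at *
  generalize √(2 * (3 * (k : ℝ))) = a3 at *
  generalize √(2 * (2 * (k : ℝ))) = a2 at *
  generalize √(2 * (k : ℝ)) = a1 at *
  have ha2 : a2 ≠ 0 := by
    intro h; rw [h] at q2; norm_num at q2; exact hk q2
  have hk1 : (2 * (k : ℝ) + 1) ≠ 0 := by positivity
  have h4 : (4 : ℝ) ^ k ≠ 0 := by positivity
  have h27 : (27 : ℝ) ^ k ≠ 0 := by positivity
  generalize (4 : ℝ) ^ k = f at *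
  generalize (27 : ℝ) ^ k = g at *
  have ha24 : a2 ^ 4 = 16 * k ^ 2 := by
    have : a2 ^ 4 = (a2 ^ 2) ^ 2 := by ring
    rw [this, q2]; ring
  field_simp
  rw [ha24, q3, q1]
  ring

theorem tendsto_mu : Tendsto mu atTop (𝓝 1) := by
  have h0 := tendsto_stirlingSeq_sqrt_pi
  have h3 : Tendsto (fun k : ℕ => stirlingSeq (3 * k)) atTop (𝓝 √Real.pi) :=
    h0.comp (tendsto_atTop_mono (fun k => by simp only [id]; omega) tendsto_id)
  have h2 : Tendsto (fun k : ℕ => stirlingSeq (2 * k)) atTop (𝓝 √Real.pi) :=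
    h0.comp (tendsto_atTop_mono (fun k => by simp only [id]; omega) tendsto_id)
  have hpi : √Real.pi ≠ 0 := by positivity
  have h4 : Tendsto (fun k : ℕ => ((3 * k + 1) / (2 * k + 1) : ℝ)) atTop (𝓝 (3 / 2)) := by
    have e : ∀ᶠ k : ℕ in atTop, ((3 + 1 / (k : ℝ)) / (2 + 1 / (k : ℝ))) = ((3 * k + 1) / (2 * k + 1) : ℝ) := by
      filter_upwards [eventually_gt_atTop 0] with k hk
      have : (0 : ℝ) < k := by exact_mod_cast hk
      field_simp
    have h5 : Tendsto (fun k : ℕ => 1 / (k : ℝ)) atTop (𝓝 0) := tendsto_one_div_atTop_nhds_zero_nat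
    have h6 := (h5.const_add 3).div (h5.const_add 2) (by norm_num)
    simp only [add_zero] at h6
    exact h6.congr' e
  have h7 := ((h4.pow 2).const_mul (4 / 9)).mul (((h3.mul h0).div (h2.pow 2) (pow_ne_zero 2 hpi)).pow 2)
  have e1 : (4 / 9 : ℝ) * (3 / 2) ^ 2 * (√Real.pi * √Real.pi / √Real.pi ^ 2) ^ 2 = 1 := by
    field_simp
    norm_num
  rw [e1] at h7
  refine h7.congr' ?_
  filter_upwards [eventually_gt_atTop 0] with k hk
  rw [mu_eq k hk.ne']
  rfl

lemma mu_succ (k : ℕ) : mu (k + 1) = mu k * (1 + 5 / (9 * (2 * k + 1) * (2 * k + 3)) : ℝ) ^ 2 := by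
  unfold mu ra
  have e1 : ((3 * (k + 1) + 1).factorial : ℝ) = (3 * k + 4) * (3 * k + 3) * (3 * k + 2) * ((3 * k + 1).factorial : ℝ) := by
    have : 3 * (k + 1) + 1 = (3 * k + 1) + 1 + 1 + 1 := by ring
    rw [this, Nat.factorial_succ, Nat.factorial_succ, Nat.factorial_succ]; push_cast; ring
  have e2 : ((2 * (k + 1)).factorial : ℝ) = (2 * k + 2) * (2 * k + 1) * ((2 * k).factorial : ℝ) := by
    have : 2 * (k + 1) = (2 * k) + 1 + 1 := by ring
    rw [this, Nat.factorial_succ, Nat.factorial_succ]; push_cast; ring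
  have e3 : ((2 * (k + 1) + 1).factorial : ℝ) = (2 * k + 3) * (2 * k + 2) * ((2 * k + 1).factorial : ℝ) := by
    have : 2 * (k + 1) + 1 = (2 * k + 1) + 1 + 1 := by ring
    rw [this, Nat.factorial_succ, Nat.factorial_succ]; push_cast; ring
  have e4 : ((k + 1).factorial : ℝ) = (k + 1) * (k.factorial : ℝ) := by
    rw [Nat.factorial_succ]; push_cast; ring
  have e5 : ((16 : ℝ) / 27) ^ (2 * (k + 1) + 1) = (16 / 27) ^ (2 * k + 1) * (16 / 27) ^ 2 := by
    rw [← pow_add]; congr 1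
  rw [e1, e2, e3, e4, e5]
  field_simp
  ring

/-- `log μ` plus its leading term -/
noncomputable def Ee (k : ℕ) : ℝ := Real.log (mu k) + 5 / (9 * (2 * k + 1))

lemma Ee_diff (k : ℕ) (hk : 1 ≤ k) : |Ee (k + 1) - Ee k| ≤ 1 / (k : ℝ) ^ 2 - 1 / ((k : ℝ) + 1) ^ 2 := by
  have hk' : (1 : ℝ) ≤ k := by exact_mod_cast hk
  set x : ℝ := 5 / (9 * (2 * k + 1) * (2 * k + 3)) with hx
  have hx0 : 0 ≤ x := by positivity
  have e1 : Ee (k + 1) - Ee k = 2 * (Real.log (1 + x) - x) := by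
    unfold Ee
    rw [mu_succ, Real.log_mul (mu_pos k).ne' (by positivity), Real.log_pow]
    rw [← hx]
    have : (5 : ℝ) / (9 * (2 * ((k + 1 : ℕ) : ℝ) + 1)) - 5 / (9 * (2 * k + 1)) = -2 * x := by
      rw [hx]; push_cast; field_simp; ring
    push_cast at this ⊢
    linear_combination this
  have h1 : Real.log (1 + x) ≤ x := by
    have := Real.log_le_sub_one_of_pos (show 0 < 1 + x by positivity)
    linarith
  have h2 := Real.le_log_one_add_of_nonneg hx0
  have h3 : x - x ^ 2 / 2 ≤ 2 * x / (x + 2) := by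
    rw [le_div_iff₀ (by positivity)]
    nlinarith [pow_nonneg hx0 3]
  rw [e1, abs_le]
  have h4 : x ^ 2 ≤ 1 / (k : ℝ) ^ 2 - 1 / ((k : ℝ) + 1) ^ 2 := by
    have h5 : 1 / (k : ℝ) ^ 2 - 1 / ((k : ℝ) + 1) ^ 2 = (2 * k + 1) / (k ^ 2 * (k + 1) ^ 2) := by
      field_simp; ring
    rw [h5, hx, div_pow, div_le_div_iff₀ (by positivity) (by positivity)]
    have h6 : (k : ℝ) ^ 2 * (k + 1) ^ 2 ≤ ((2 * k + 1) * (2 * k + 3)) ^ 2 := by
      have : (k : ℝ) * (k + 1) ≤ (2 * k + 1) * (2 * k + 3) := by nlinarith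
      calc (k : ℝ) ^ 2 * (k + 1) ^ 2 = (k * (k + 1)) ^ 2 := by ring
        _ ≤ _ := by gcongr
    nlinarith [sq_nonneg ((2 * (k : ℝ) + 1) * (2 * k + 3))]
  constructor <;> nlinarith

lemma tendsto_Ee : Tendsto Ee atTop (𝓝 0) := by
  unfold Ee
  have h1 : Tendsto (fun k => Real.log (mu k)) atTop (𝓝 0) := by
    have := (Real.continuousAt_log (one_ne_zero)).tendsto.comp tendsto_mu
    rw [Real.log_one] at this
    exact this
  have h2 : Tendsto (fun k : ℕ => (5 : ℝ) / (9 * (2 * k + 1))) atTop (𝓝 0) := by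
    apply Tendsto.div_atTop tendsto_const_nhds
    apply Tendsto.const_mul_atTop (by norm_num)
    apply tendsto_atTop_add_const_right
    exact Tendsto.const_mul_atTop (by norm_num) tendsto_natCast_atTop_atTop
  have := h1.add h2
  simpa using this

lemma tail_bound (E : ℕ → ℝ) (h : ∀ k, 1 ≤ k → |E (k + 1) - E k| ≤ 1 / (k : ℝ) ^ 2 - 1 / ((k : ℝ) + 1) ^ 2)
    (h0 : Tendsto E atTop (𝓝 0)) (k : ℕ) (hk : 1 ≤ k) : |E k| ≤ 1 / (k : ℝ) ^ 2 := by
  have key : ∀ n : ℕ, |E (k + n) - E k| ≤ 1 / (k : ℝ) ^ 2 - 1 / ((k : ℝ) + n) ^ 2 := by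
    intro n
    induction n with
    | zero => simp
    | succ n ih =>
      have h1 := h (k + n) (by omega)
      have h2 : E (k + (n + 1)) - E k = (E (k + n + 1) - E (k + n)) + (E (k + n) - E k) := by
        rw [← add_assoc]; ring
      rw [h2]
      refine (abs_add_le _ _).trans ?_
      push_cast at h1 ⊢
      have : (k : ℝ) + (n + 1) = k + n + 1 := by ring
      rw [this]
      linarith
  have h3 : ∀ n : ℕ, |E (k + n) - E k| ≤ 1 / (k : ℝ) ^ 2 := by
    intro n
    refine (key n).trans ?_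
    have : 0 ≤ 1 / ((k : ℝ) + n) ^ 2 := by positivity
    linarith
  have h4 : Tendsto (fun n => |E (k + n) - E k|) atTop (𝓝 |0 - E k|) := by
    apply Tendsto.abs
    apply Tendsto.sub_const
    have := h0.comp (tendsto_add_atTop_nat k)
    refine this.congr ?_
    intro n
    simp [add_comm]
  have h5 := le_of_tendsto' h4 h3
  simpa using h5

lemma Ee_bound (k : ℕ) (hk : 1 ≤ k) : |Ee k| ≤ 1 / (k : ℝ) ^ 2 :=
  tail_bound Ee Ee_diff tendsto_Ee k hk

/-- power law from the ratio asymptotics -/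
theorem power_law (u : ℕ → ℝ) (hu : ∀ n, 1 ≤ n → 0 < u n) (a K : ℝ)
    (h : ∀ n : ℕ, 1 ≤ n → |Real.log (u (n + 1) / u n) + a / n| ≤ K / (n : ℝ) ^ 2) :
    ∃ c C : ℝ, 0 < c ∧ 0 < C ∧ ∀ n : ℕ, 1 ≤ n → c * (n : ℝ) ^ (-a) ≤ u n ∧ u n ≤ C * (n : ℝ) ^ (-a) := by
  set K' : ℝ := |K| + |a| with hK'
  have hK'0 : 0 ≤ K' := by positivity
  set d : ℕ → ℝ := fun n => Real.log (u n) + a * Real.log n with hd
  have h1 : ∀ n : ℕ, 1 ≤ n → |d (n + 1) - d n| ≤ K' / (n : ℝ) ^ 2 := by
    intro n hn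
    have hn' : (0 : ℝ) < n := by exact_mod_cast hn
    have e1 : d (n + 1) - d n = (Real.log (u (n + 1) / u n) + a / n) +
        a * (Real.log (1 + 1 / n) - 1 / n) := by
      rw [hd]
      simp only
      have : (1 + 1 / (n : ℝ)) = ((n + 1 : ℕ) : ℝ) / n := by push_cast; field_simp
      rw [this, Real.log_div (hu _ (by omega)).ne' (hu n hn).ne', Real.log_div (by positivity) hn'.ne']
      ring
    have h2 : |Real.log (1 + 1 / (n : ℝ)) - 1 / n| ≤ 1 / (n : ℝ) ^ 2 := by
      set y : ℝ := 1 / (n : ℝ) with hy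
      have hy0 : 0 ≤ y := by positivity
      have h3 : Real.log (1 + y) ≤ y := by
        have := Real.log_le_sub_one_of_pos (show 0 < 1 + y by positivity)
        linarith
      have h4 := Real.le_log_one_add_of_nonneg hy0
      have h5 : y - y ^ 2 ≤ 2 * y / (y + 2) := by
        rw [le_div_iff₀ (by positivity)]
        nlinarith [pow_nonneg hy0 3, sq_nonneg y]
      have h6 : 1 / (n : ℝ) ^ 2 = y ^ 2 := by rw [hy]; field_simp
      rw [h6, abs_le]
      constructor <;> nlinarith [sq_nonneg y]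
    rw [e1]
    refine (abs_add_le _ _).trans ?_
    rw [abs_mul]
    have h7 : K / (n : ℝ) ^ 2 ≤ |K| / (n : ℝ) ^ 2 := by gcongr; exact le_abs_self K
    have h8 : |a| * |Real.log (1 + 1 / (n : ℝ)) - 1 / n| ≤ |a| * (1 / (n : ℝ) ^ 2) := by gcongr
    have h9 : K' / (n : ℝ) ^ 2 = |K| / (n : ℝ) ^ 2 + |a| * (1 / (n : ℝ) ^ 2) := by rw [hK']; ring
    rw [h9]
    have := h n hn
    linarith
  have h2 : ∀ n : ℕ, 1 ≤ n → |d n - d 1| ≤ 2 * K' * (1 - 1 / n) := by
    intro n hn
    induction n, hn using Nat.le_induction with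
    | base => simp
    | succ n hn ih =>
      have hn' : (1 : ℝ) ≤ n := by exact_mod_cast hn
      have e : d (n + 1) - d 1 = (d (n + 1) - d n) + (d n - d 1) := by ring
      rw [e]
      refine (abs_add_le _ _).trans ?_
      have h3 := h1 n hn
      have h4 : K' / (n : ℝ) ^ 2 ≤ 2 * K' * (1 / n - 1 / (n + 1)) := by
        have h5 : 1 / (n : ℝ) - 1 / (n + 1) = 1 / (n * (n + 1)) := by field_simp; ring
        rw [h5, mul_one_div, div_le_div_iff₀ (by positivity) (by positivity)]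
        nlinarith [mul_nonneg hK'0 (sub_nonneg.2 hn'), mul_nonneg (mul_nonneg hK'0 (show (0:ℝ) ≤ n by linarith)) (sub_nonneg.2 hn')]
      push_cast
      linarith
  have h3 : ∀ n : ℕ, 1 ≤ n → |d n - d 1| ≤ 2 * K' := by
    intro n hn
    refine (h2 n hn).trans ?_
    have : 0 ≤ 1 / (n : ℝ) := by positivity
    nlinarith
  refine ⟨Real.exp (d 1 - 2 * K'), Real.exp (d 1 + 2 * K'), Real.exp_pos _, Real.exp_pos _, ?_⟩
  intro n hn
  have hn' : (0 : ℝ) < n := by exact_mod_cast hn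
  have h4 := abs_le.1 (h3 n hn)
  have e1 : u n = Real.exp (d n) * (n : ℝ) ^ (-a) := by
    rw [Real.rpow_def_of_pos hn', ← Real.exp_add, hd]
    simp only
    have : Real.log (u n) + a * Real.log n + Real.log n * -a = Real.log (u n) := by ring
    rw [this, Real.exp_log (hu n hn)]
  rw [e1]
  have hp : 0 < (n : ℝ) ^ (-a) := Real.rpow_pos_of_pos hn' _
  constructor
  · apply mul_le_mul_of_nonneg_right _ hp.le
    exact Real.exp_le_exp.2 (by linarith)
  · apply mul_le_mul_of_nonneg_right _ hp.le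
    exact Real.exp_le_exp.2 (by linarith)

/-- `A_HT(2n)` -/
noncomputable def aht (n : ℕ) : ℝ := asm n ^ 2 * ∏ k ∈ range n, ((3 * k + 2) / (3 * k + 1) : ℝ)

lemma aht_pos (n : ℕ) : 0 < aht n := by
  unfold aht
  have := asm_pos n
  have h2 : 0 < ∏ k ∈ range n, ((3 * k + 2) / (3 * k + 1) : ℝ) := by
    apply prod_pos
    intro k _
    positivity
  positivity

/-- two-leg probability -/
noncomputable def p2 (n : ℕ) : ℝ := asm (2 * n) / aht n ^ 2

lemma p2_pos (n : ℕ) : 0 < p2 n := by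
  unfold p2; have := asm_pos (2 * n); have := aht_pos n; positivity

lemma p2_succ (n : ℕ) : p2 (n + 1) / p2 n =
    ra (2 * n) * ra (2 * n + 1) / ra n ^ 4 * ((3 * n + 1) / (3 * n + 2) : ℝ) ^ 2 := by
  have h1 : asm (2 * (n + 1)) = asm (2 * n) * ra (2 * n) * ra (2 * n + 1) := by
    have : 2 * (n + 1) = (2 * n + 1) + 1 := by ring
    rw [this, asm_succ, asm_succ]
  have h2 : aht (n + 1) = aht n * (ra n ^ 2 * ((3 * n + 2) / (3 * n + 1) : ℝ)) := by
    unfold aht
    rw [asm_succ, prod_range_succ]; ring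
  unfold p2
  rw [h1, h2]
  have := (asm_pos (2 * n)).ne'
  have := (aht_pos n).ne'
  have := (ra_pos n).ne'
  field_simp

lemma log_p2_succ (n : ℕ) : Real.log (p2 (n + 1) / p2 n) =
    (Real.log (mu (2 * n)) + Real.log (mu (2 * n + 1)) - 4 * Real.log (mu n)) / 2 -
      2 * Real.log (1 + 1 / (3 * n + 1)) := by
  have h1 : ∀ k, Real.log (mu k) = 2 * Real.log (ra k) + (2 * k + 1) * Real.log (16 / 27) := by
    intro k
    unfold mu
    rw [Real.log_mul (pow_ne_zero 2 (ra_pos k).ne') (by positivity), Real.log_pow, Real.log_pow]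
    push_cast; ring
  have e1 : (1 + 1 / (3 * (n : ℝ) + 1)) = (3 * n + 2) / (3 * n + 1) := by
    field_simp; ring
  rw [p2_succ, h1, h1, h1, e1]
  have r1 := (ra_pos (2 * n)).ne'
  have r2 := (ra_pos (2 * n + 1)).ne'
  have r3 := (ra_pos n).ne'
  have l2 : Real.log ((3 * (n : ℝ) + 2) / (3 * n + 1)) = Real.log (3 * n + 2) - Real.log (3 * n + 1) :=
    Real.log_div (by positivity) (by positivity)
  have l3 : Real.log ((3 * (n : ℝ) + 1) / (3 * n + 2)) = Real.log (3 * n + 1) - Real.log (3 * n + 2) :=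
    Real.log_div (by positivity) (by positivity)
  rw [Real.log_mul (by positivity) (by positivity), Real.log_div (by positivity) (by positivity),
    Real.log_mul r1 r2, Real.log_pow, Real.log_pow, l2, l3]
  push_cast
  ring

lemma p2_log_bound (n : ℕ) (hn : 1 ≤ n) :
    |Real.log (p2 (n + 1) / p2 n) + (1 / 4) / n| ≤ 10 / (n : ℝ) ^ 2 := by
  have hn' : (1 : ℝ) ≤ n := by exact_mod_cast hn
  have b1 := abs_le.1 (Ee_bound (2 * n) (by omega))
  have b2 := abs_le.1 (Ee_bound (2 * n + 1) (by omega))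
  have b3 := abs_le.1 (Ee_bound n hn)
  unfold Ee at b1 b2 b3
  push_cast at b1 b2 b3
  rw [log_p2_succ]
  have y0 : (0 : ℝ) ≤ 1 / (3 * n + 1) := by positivity
  have l1 := Real.le_log_one_add_of_nonneg y0
  have l2 : Real.log (1 + 1 / (3 * (n : ℝ) + 1)) ≤ 1 / (3 * n + 1) := by
    have := Real.log_le_sub_one_of_pos (show 0 < 1 + 1 / (3 * (n : ℝ) + 1) by positivity)
    linarith
  have l3 : 2 * (1 / (3 * (n : ℝ) + 1)) / (1 / (3 * n + 1) + 2) = 2 / 3 * (1 / (2 * n + 1)) := by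
    field_simp; ring
  rw [l3] at l1
  have s1 : 1 / (2 * (n : ℝ)) ^ 2 ≤ (1 / 4) * (1 / (n : ℝ) ^ 2) := by
    rw [mul_pow, mul_one_div, div_le_div_iff₀ (by positivity) (by positivity)]; nlinarith
  have s2 : 1 / (2 * (n : ℝ) + 1) ^ 2 ≤ (1 / 4) * (1 / (n : ℝ) ^ 2) := by
    rw [mul_one_div, div_le_div_iff₀ (by positivity) (by positivity)]; nlinarith
  have u1 : (5 : ℝ) / (9 * (2 * (2 * (n : ℝ)) + 1)) = 5 / 9 * (1 / (4 * n + 1)) := by field_simp; ring
  have u2 : (5 : ℝ) / (9 * (2 * (2 * (n : ℝ) + 1) + 1)) = 5 / 9 * (1 / (4 * n + 3)) := by field_simp; ring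
  have u3 : (5 : ℝ) / (9 * (2 * (n : ℝ) + 1)) = 5 / 9 * (1 / (2 * n + 1)) := by field_simp
  have u4 : (1 / 4 : ℝ) / n = 1 / 4 * (1 / n) := by ring
  have u5 : 10 / (n : ℝ) ^ 2 = 10 * (1 / (n : ℝ) ^ 2) := by ring
  rw [u1] at b1
  rw [u2] at b2
  rw [u3] at b3
  rw [u4, u5]
  have a1 : 1 / (4 * (n : ℝ) + 1) ≤ 1 / 4 * (1 / n) := by
    rw [mul_one_div, div_le_div_iff₀ (by positivity) (by positivity)]; linarith
  have a2 : 1 / (4 * (n : ℝ) + 3) ≤ 1 / 4 * (1 / n) := by
    rw [mul_one_div, div_le_div_iff₀ (by positivity) (by positivity)]; linarith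
  have a3 : 1 / (2 * (n : ℝ) + 1) ≤ 1 / 2 * (1 / n) := by
    rw [mul_one_div, div_le_div_iff₀ (by positivity) (by positivity)]; linarith
  have a4 : 1 / (3 * (n : ℝ) + 1) ≤ 1 / 3 * (1 / n) := by
    rw [mul_one_div, div_le_div_iff₀ (by positivity) (by positivity)]; linarith
  have c1 : 1 / 4 * (1 / (n : ℝ)) - 1 / 16 * (1 / (n : ℝ) ^ 2) ≤ 1 / (4 * (n : ℝ) + 1) := by
    rw [le_div_iff₀ (by positivity)]
    have : (1 / 4 * (1 / (n : ℝ)) - 1 / 16 * (1 / (n : ℝ) ^ 2)) * (4 * (n : ℝ) + 1) = 1 - 1 / 16 * (1 / (n : ℝ) ^ 2) := by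
      field_simp; ring
    rw [this]
    have : 0 ≤ 1 / (n : ℝ) ^ 2 := by positivity
    linarith
  have c2 : 1 / 4 * (1 / (n : ℝ)) - 3 / 16 * (1 / (n : ℝ) ^ 2) ≤ 1 / (4 * (n : ℝ) + 3) := by
    rw [le_div_iff₀ (by positivity)]
    have : (1 / 4 * (1 / (n : ℝ)) - 3 / 16 * (1 / (n : ℝ) ^ 2)) * (4 * (n : ℝ) + 3) = 1 - 9 / 16 * (1 / (n : ℝ) ^ 2) := by
      field_simp; ring
    rw [this]
    have : 0 ≤ 1 / (n : ℝ) ^ 2 := by positivity
    linarith
  have c3 : 1 / 2 * (1 / (n : ℝ)) - 1 / 4 * (1 / (n : ℝ) ^ 2) ≤ 1 / (2 * (n : ℝ) + 1) := by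
    rw [le_div_iff₀ (by positivity)]
    have : (1 / 2 * (1 / (n : ℝ)) - 1 / 4 * (1 / (n : ℝ) ^ 2)) * (2 * (n : ℝ) + 1) = 1 - 1 / 4 * (1 / (n : ℝ) ^ 2) := by
      field_simp; ring
    rw [this]
    have : 0 ≤ 1 / (n : ℝ) ^ 2 := by positivity
    linarith
  have e1 : 0 ≤ 1 / (n : ℝ) ^ 2 := by positivity
  rw [abs_le]
  constructor <;> linarith

/-- **the two-leg (1/4) law**: `A(2n)/A_HT(2n)² ≍ n^{-1/4}` -/
theorem p2_power_law : ∃ c C : ℝ, 0 < c ∧ 0 < C ∧ ∀ n : ℕ, 1 ≤ n →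
    c * (n : ℝ) ^ (-(1 / 4 : ℝ)) ≤ asm (2 * n) / aht n ^ 2 ∧
      asm (2 * n) / aht n ^ 2 ≤ C * (n : ℝ) ^ (-(1 / 4 : ℝ)) :=
  power_law p2 (fun n _ => p2_pos n) (1 / 4) 10 p2_log_bound

/-! ### the four-leg law -/

/-- the four-leg number `P4(2m+2)`, `M = 2m` glued strands -/
noncomputable def f4 (m : ℕ) : ℝ :=
  (6 * m + 3) * (A0 (2 * m) : ℝ) ^ 2 * asm (2 * m + 1) /
    (9 ^ m * (((4 * m + 3).factorial : ℝ) * ((4 * m + 2).factorial : ℝ)))

lemma f4_pos (m : ℕ) : 0 < f4 m := by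
  unfold f4
  have := asm_pos (2 * m + 1)
  have h : (0 : ℝ) < (A0 (2 * m) : ℝ) := by exact_mod_cast A0_pos m
  positivity

/-- the ratio `P4/A` -/
noncomputable def rr (m : ℕ) : ℝ :=
  (6 * m + 3) * (A0 (2 * m) : ℝ) ^ 2 / (9 ^ m * (((2 * m + 1).factorial : ℝ) * ((6 * m + 4).factorial : ℝ)))

lemma rr_pos (m : ℕ) : 0 < rr m := by
  unfold rr
  have h : (0 : ℝ) < (A0 (2 * m) : ℝ) := by exact_mod_cast A0_pos m
  positivity

lemma f4_eq (m : ℕ) : f4 m = rr m * asm (2 * m + 2) := by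
  have e : asm (2 * m + 2) = asm (2 * m + 1) * ra (2 * m + 1) := asm_succ (2 * m + 1)
  rw [e]
  unfold f4 rr ra
  have g1 : 3 * (2 * m + 1) + 1 = 6 * m + 4 := by ring
  have g2 : 2 * (2 * m + 1) = 4 * m + 2 := by ring
  have g3 : 4 * m + 2 + 1 = 4 * m + 3 := by ring
  rw [g1, g2, g3]
  field_simp

lemma A0_rec_real (m : ℕ) : ((m : ℝ) + 2) * (A0 (2 * (m + 1)) : ℝ) =
    36 * (m + 1) * (2 * m + 1) * (2 * m + 3) * (3 * m + 4) * (3 * m + 5) * (A0 (2 * m) : ℝ) := by
  have := A0_rec m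
  have h2 : 2 * (m + 1) = 2 * m + 2 := by ring
  rw [h2]
  exact_mod_cast this

lemma rr_succ (m : ℕ) : rr (m + 1) = rr m *
    ((2 * m + 1) * (2 * m + 3) * (3 * m + 4) * (3 * m + 5) / ((m + 2) ^ 2 * (6 * m + 5) * (6 * m + 7)) : ℝ) := by
  have hA : (A0 (2 * (m + 1)) : ℝ) = 36 * (m + 1) * (2 * m + 1) * (2 * m + 3) * (3 * m + 4) * (3 * m + 5) *
      (A0 (2 * m) : ℝ) / (m + 2) := by
    rw [eq_div_iff (by positivity), ← A0_rec_real m]; ring
  unfold rr
  rw [hA]
  have e1 : ((2 * (m + 1) + 1).factorial : ℝ) = (2 * m + 3) * (2 * m + 2) * ((2 * m + 1).factorial : ℝ) := by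
    have : 2 * (m + 1) + 1 = (2 * m + 1) + 1 + 1 := by ring
    rw [this, Nat.factorial_succ, Nat.factorial_succ]; push_cast; ring
  have e2 : ((6 * (m + 1) + 4).factorial : ℝ) = (6 * m + 10) * (6 * m + 9) * (6 * m + 8) * (6 * m + 7) *
      (6 * m + 6) * (6 * m + 5) * ((6 * m + 4).factorial : ℝ) := by
    have : 6 * (m + 1) + 4 = (6 * m + 4) + 1 + 1 + 1 + 1 + 1 + 1 := by ring
    rw [this, Nat.factorial_succ, Nat.factorial_succ, Nat.factorial_succ, Nat.factorial_succ,
      Nat.factorial_succ, Nat.factorial_succ]; push_cast; ring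
  rw [e1, e2, pow_succ]
  push_cast
  field_simp
  ring

/-- four-leg probability on the cylinder of circumference `2n`, `n = m+1` -/
noncomputable def p4 (n : ℕ) : ℝ := f4 (n - 1) / aht n ^ 2

lemma p4_pos (n : ℕ) : 0 < p4 n := by
  unfold p4
  have := f4_pos (n - 1)
  have := aht_pos n
  positivity

lemma p4_eq (n : ℕ) (hn : 1 ≤ n) : p4 n = rr (n - 1) * p2 n := by
  obtain ⟨m, rfl⟩ : ∃ m, n = m + 1 := ⟨n - 1, by omega⟩
  unfold p4 p2
  rw [Nat.add_sub_cancel, f4_eq]
  have : 2 * (m + 1) = 2 * m + 2 := by ring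
  rw [this]; ring

lemma rr_log_bound (m : ℕ) : |Real.log (rr (m + 1) / rr m) + 1 / ((m : ℝ) + 1)| ≤ 4 / ((m : ℝ) + 1) ^ 2 := by
  rw [rr_succ, mul_div_cancel_left₀ _ (rr_pos m).ne']
  set n : ℝ := (m : ℝ) + 1 with hn
  have hn1 : 1 ≤ n := by rw [hn]; have : (0 : ℝ) ≤ m := by positivity
                         linarith
  have e : ((2 * m + 1) * (2 * m + 3) * (3 * m + 4) * (3 * m + 5) / ((m + 2) ^ 2 * (6 * m + 5) * (6 * m + 7)) : ℝ) =
      (2 * n - 1) * (2 * n + 1) * (3 * n + 1) * (3 * n + 2) / ((n + 1) ^ 2 * (6 * n - 1) * (6 * n + 1)) := by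
    rw [hn]; congr 1 <;> ring
  rw [e]
  have d1 : 0 < (n + 1) ^ 2 * (6 * n - 1) * (6 * n + 1) := by
    have : 0 < 6 * n - 1 := by linarith
    positivity
  have d2 : 0 < (2 * n - 1) * (2 * n + 1) * (3 * n + 1) * (3 * n + 2) := by
    have : 0 < 2 * n - 1 := by linarith
    positivity
  set N := (2 * n - 1) * (2 * n + 1) * (3 * n + 1) * (3 * n + 2) with hN
  set D := (n + 1) ^ 2 * (6 * n - 1) * (6 * n + 1) with hD
  have up := Real.log_le_sub_one_of_pos (show 0 < N / D by positivity)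
  have lo := Real.one_sub_inv_le_log_of_pos (show 0 < N / D by positivity)
  rw [abs_le]
  constructor
  · have h1 : -(4 / n ^ 2) ≤ 1 - (N / D)⁻¹ + 1 / n := by
      rw [inv_div]
      have : 1 - D / N + 1 / n + 4 / n ^ 2 = ((N - D) * n ^ 2 + N * n + 4 * N) / (N * n ^ 2) := by
        field_simp
      have h2 : 0 ≤ ((N - D) * n ^ 2 + N * n + 4 * N) / (N * n ^ 2) := by
        apply div_nonneg _ (by positivity)
        rw [hN, hD]
        nlinarith [pow_pos (show 0 < n by linarith) 2, pow_pos (show 0 < n by linarith) 3, pow_pos (show 0 < n by linarith) 4, pow_pos (show 0 < n by linarith) 5]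
      linarith
    linarith
  · have h1 : N / D - 1 + 1 / n ≤ 4 / n ^ 2 := by
      have : 4 / n ^ 2 - (N / D - 1 + 1 / n) = (4 * D - (N - D) * n ^ 2 - D * n) / (D * n ^ 2) := by
        field_simp; ring
      have h2 : 0 ≤ (4 * D - (N - D) * n ^ 2 - D * n) / (D * n ^ 2) := by
        apply div_nonneg _ (by positivity)
        rw [hN, hD]
        nlinarith [pow_pos (show 0 < n by linarith) 2, pow_pos (show 0 < n by linarith) 3, pow_pos (show 0 < n by linarith) 4, pow_pos (show 0 < n by linarith) 5]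
      linarith
    linarith

/-- **the four-leg (5/4) law** -/
theorem p4_power_law : ∃ c C : ℝ, 0 < c ∧ 0 < C ∧ ∀ n : ℕ, 1 ≤ n →
    c * (n : ℝ) ^ (-(5 / 4 : ℝ)) ≤ f4 (n - 1) / aht n ^ 2 ∧
      f4 (n - 1) / aht n ^ 2 ≤ C * (n : ℝ) ^ (-(5 / 4 : ℝ)) := by
  apply power_law p4 (fun n _ => p4_pos n) (5 / 4) 14
  intro n hn
  have hn' : (1 : ℝ) ≤ n := by exact_mod_cast hn
  have h1 := p2_log_bound n hn
  have h2 := rr_log_bound (n - 1)
  have e1 : ((n - 1 : ℕ) : ℝ) + 1 = n := by rw [Nat.cast_sub hn]; push_cast; ring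
  have e2 : n - 1 + 1 = n := by omega
  rw [e1, e2] at h2
  rw [p4_eq n hn, p4_eq (n + 1) (by omega), Nat.add_sub_cancel]
  have r1 := rr_pos n
  have r2 := rr_pos (n - 1)
  have r3 := p2_pos n
  have r4 := p2_pos (n + 1)
  have e3 : rr n * p2 (n + 1) / (rr (n - 1) * p2 n) = (rr n / rr (n - 1)) * (p2 (n + 1) / p2 n) := by
    field_simp
  rw [e3, Real.log_mul (by positivity) (by positivity)]
  have e4 : Real.log (rr n / rr (n - 1)) + Real.log (p2 (n + 1) / p2 n) + 5 / 4 / (n : ℝ) =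
      (Real.log (rr n / rr (n - 1)) + 1 / n) + (Real.log (p2 (n + 1) / p2 n) + 1 / 4 / n) := by
    ring
  rw [e4]
  refine (abs_add_le _ _).trans ?_
  have e5 : 14 / (n : ℝ) ^ 2 = 4 / (n : ℝ) ^ 2 + 10 / (n : ℝ) ^ 2 := by ring
  rw [e5]
  exact add_le_add h2 h1

end Pool.Agent.H34.Hom

end

section

/-!
# The value of the sum rule at the homogeneous point: `A_HT(2n)`
-/

set_option autoImplicit false

namespace Pool.Agent.H34.Hom

open Finset Polynomial

lemma pp_fin {R : Type*} [CommMonoid R] (N : ℕ) (F : ℕ → ℕ → R) :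
    ∏ i : Fin N, ∏ j ∈ Ioi i, F i j = pp N F := by
  rw [Finset.prod_comm' (t' := Finset.univ) (s' := fun j => Finset.Iio j)
    (by intro i j; simp)]
  unfold pp
  rw [Finset.prod_range]
  apply prod_congr rfl
  intro k _
  have h := Fin.map_valEmbedding_Iio k
  rw [← Nat.Iio_eq_range, ← h, prod_map]
  rfl

lemma alt_geo (e : ℕ → ℕ) (N : ℕ) (r : ℂ) :
    alt e N (fun j => r ^ j) = pp N (fun i j => r ^ e j - r ^ e i) := by
  have h : alt e N (fun j => r ^ j) =
      (Matrix.vandermonde (fun j : Fin N => r ^ e j)).det := by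
    rw [← Matrix.det_transpose]
    unfold alt
    congr 1
    ext i j
    simp only [Matrix.of_apply, Matrix.transpose_apply, Matrix.vandermonde_apply]
    rw [← pow_mul, ← pow_mul, mul_comm]
  rw [h, Matrix.det_vandermonde, pp_fin N (fun i j => r ^ e j - r ^ e i)]

lemma pow_sub_pow' (r : ℂ) {a b : ℕ} (h : a ≤ b) :
    r ^ b - r ^ a = (r - 1) * (r ^ a * ∑ k ∈ range (b - a), r ^ k) := by
  have h1 := mul_geom_sum r (b - a)
  have h2 : r ^ b = r ^ a * r ^ (b - a) := by rw [← pow_add]; congr 1; omega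
  rw [h2]
  linear_combination (-(r ^ a)) * h1

/-- the regularised alternant -/
noncomputable def ralt (e : ℕ → ℕ) (N : ℕ) (r : ℂ) : ℂ :=
  pp N (fun i j => r ^ e i * ∑ k ∈ range (e j - e i), r ^ k)

lemma alt_ralt (e : ℕ → ℕ) (he : ∀ i j, i ≤ j → e i ≤ e j) (N : ℕ) (r : ℂ) :
    alt e N (fun j => r ^ j) = pp N (fun _ _ => r - 1) * ralt e N r := by
  rw [alt_geo, ralt, ← pp_mul]
  apply pp_congr
  intro i j hij _
  exact pow_sub_pow' r (he i j hij.le)

lemma ralt_cont (e : ℕ → ℕ) (N : ℕ) : Continuous (ralt e N) := by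
  unfold ralt pp
  fun_prop

/-- product of the differences of the exponents -/
noncomputable def PD (e : ℕ → ℕ) (N : ℕ) : ℝ := pp N (fun i j => ((e j : ℝ) - e i))

lemma ralt_one (e : ℕ → ℕ) (he : ∀ i j, i ≤ j → e i ≤ e j) (N : ℕ) :
    ralt e N 1 = ((PD e N : ℝ) : ℂ) := by
  unfold ralt PD pp
  push_cast
  apply Finset.prod_congr rfl
  intro j _
  apply Finset.prod_congr rfl
  intro i hi
  have hij : e i ≤ e j := he i j (mem_range.1 hi).le
  simp only [one_pow, sum_const, card_range, nsmul_eq_mul, mul_one, one_mul]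
  push_cast [Nat.cast_sub hij]
  ring

variable {q : ℂ} {Z : ℕ → (ℕ → ℂ) → ℂ}

theorem value_aux (hq : q ^ 2 + q + 1 = 0) (h : SR q Z) (n : ℕ)
    (hc : Continuous (fun r : ℂ => Z (2 * n + 2) (fun j => r ^ j))) :
    Z (2 * n + 2) (fun _ => 1) * ((PD id (2 * n + 2) : ℝ) : ℂ) ^ 2 * 3 ^ ((n + 1) * n) =
      ((PD (ex 1) (2 * n + 2) : ℝ) : ℂ) * ((PD (ex 2) (2 * n + 2) : ℝ) : ℂ) := by
  have hid : ∀ i j : ℕ, i ≤ j → (id i : ℕ) ≤ id j := fun i j hij => hij
  have h1 : ∀ᶠ r : ℝ in nhdsWithin 1 (Set.Ioi 1),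
      Z (2 * n + 2) (fun j => (r : ℂ) ^ j) * ralt id (2 * n + 2) r ^ 2 * 3 ^ ((n + 1) * n) =
        ralt (ex 1) (2 * n + 2) r * ralt (ex 2) (2 * n + 2) r := by
    filter_upwards [self_mem_nhdsWithin] with r hr
    have hr : (1 : ℝ) < r := hr
    have hr0 : (r : ℂ) ≠ 0 := by
      have : r ≠ 0 := by linarith
      exact_mod_cast this
    have hr1 : (r : ℂ) - 1 ≠ 0 := by
      have : r - 1 ≠ 0 := by linarith
      exact_mod_cast this
    have hTG : TG (2 * n + 2) (2 * n + 2) (fun j => (r : ℂ) ^ j) := by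
      refine ⟨fun a _ _ => pow_ne_zero _ hr0, fun a _ b _ hab _ _ h1 => hab ?_⟩
      have h1' : ((r : ℂ) ^ a) ^ 3 = ((r : ℂ) ^ b) ^ 3 := h1
      have h2 : (r ^ a) ^ 3 = (r ^ b) ^ 3 := by exact_mod_cast h1'
      rw [← pow_mul, ← pow_mul] at h2
      have h3 := (pow_right_injective₀ (by linarith : (0 : ℝ) < r) hr.ne') h2
      omega
    have h2 := sum_id hq h n _ hTG
    unfold Idn at h2
    rw [alt_ralt id hid, alt_ralt (ex 1) (ex_mono 1 (by omega)), alt_ralt (ex 2) (ex_mono 2 (by omega))] at h2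
    have h3 : pp (2 * n + 2) (fun _ _ => (r : ℂ) - 1) ≠ 0 := by
      apply pp_ne_zero
      intro _ _ _ _
      exact hr1
    apply mul_left_cancel₀ (pow_ne_zero 2 h3)
    linear_combination h2
  have c1 : Continuous (fun r : ℝ => Z (2 * n + 2) (fun j => (r : ℂ) ^ j) *
      ralt id (2 * n + 2) r ^ 2 * 3 ^ ((n + 1) * n)) :=
    ((hc.comp Complex.continuous_ofReal).mul
      (((ralt_cont id _).comp Complex.continuous_ofReal).pow 2)).mul continuous_const
  have c2 : Continuous (fun r : ℝ => ralt (ex 1) (2 * n + 2) r * ralt (ex 2) (2 * n + 2) r) :=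
    ((ralt_cont (ex 1) _).comp Complex.continuous_ofReal).mul
      ((ralt_cont (ex 2) _).comp Complex.continuous_ofReal)
  have l1 := (c1.tendsto 1).mono_left (nhdsWithin_le_nhds (s := Set.Ioi 1))
  have l2 := (c2.tendsto 1).mono_left (nhdsWithin_le_nhds (s := Set.Ioi 1))
  have l3 := tendsto_nhds_unique (l1.congr' h1) l2
  simp only [Complex.ofReal_one, one_pow] at l3
  rw [ralt_one id hid, ralt_one (ex 1) (ex_mono 1 (by omega)),
    ralt_one (ex 2) (ex_mono 2 (by omega))] at l3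
  exact l3

/-! ### the products -/

lemma prod_range_two_mul (F : ℕ → ℝ) (n : ℕ) :
    ∏ i ∈ range (2 * n), F i = ∏ k ∈ range n, F (2 * k) * F (2 * k + 1) := by
  induction n with
  | zero => simp
  | succ n ih =>
    rw [show 2 * (n + 1) = 2 * n + 1 + 1 by ring, prod_range_succ, prod_range_succ, ih,
      prod_range_succ]
    ring

lemma PD_succ_succ (e : ℕ → ℕ) (n : ℕ) : PD e (2 * n + 2) = PD e (2 * n) *
    ((∏ i ∈ range (2 * n), (((e (2 * n) : ℝ)) - e i)) *
      ∏ i ∈ range (2 * n + 1), (((e (2 * n + 1) : ℝ)) - e i)) := by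
  unfold PD pp
  rw [show 2 * n + 2 = 2 * n + 1 + 1 by ring, prod_range_succ, prod_range_succ]
  ring

lemma PD_id_succ (n : ℕ) : PD id (2 * n + 2) = PD id (2 * n) *
    (((2 * n).factorial : ℝ) * ((2 * n + 1).factorial : ℝ)) := by
  have h : ∀ m : ℕ, ∏ i ∈ range m, (((id m : ℕ) : ℝ) - (id i : ℕ)) = (m.factorial : ℝ) := by
    intro m
    rw [← Finset.prod_range_reflect, ← Finset.prod_range_add_one_eq_factorial]
    push_cast
    apply Finset.prod_congr rfl
    intro i hi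
    have hi := mem_range.1 hi
    simp only [id]
    have : m - 1 - i + (i + 1) = m := by omega
    have h2 : ((m - 1 - i : ℕ) : ℝ) + (i + 1) = m := by exact_mod_cast this
    linarith
  rw [PD_succ_succ, h, h]

lemma PD_ex_succ (a n : ℕ) : PD (ex a) (2 * n + 2) = PD (ex a) (2 * n) *
    (a * ∏ j ∈ range n, ((3 * (j + 1)) ^ 2 * (3 * (j + 1) - a) * (3 * (j + 1) + a) : ℝ)) := by
  rw [PD_succ_succ, prod_range_succ, prod_range_two_mul, prod_range_two_mul]
  simp only [ex_two_mul, ex_two_mul_add]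
  congr 1
  have h1 : ∏ k ∈ range n, ((((3 * n : ℕ) : ℝ) - ((3 * k : ℕ) : ℝ)) *
      (((3 * n : ℕ) : ℝ) - ((3 * k + a : ℕ) : ℝ))) =
      ∏ j ∈ range n, ((3 * (j + 1)) * (3 * (j + 1) - a) : ℝ) := by
    rw [← Finset.prod_range_reflect]
    apply Finset.prod_congr rfl
    intro i hi
    have hi := mem_range.1 hi
    have : n - 1 - i + (i + 1) = n := by omega
    have h2 : ((n - 1 - i : ℕ) : ℝ) = n - (i + 1) := by
      have : ((n - 1 - i : ℕ) : ℝ) + (i + 1) = n := by exact_mod_cast this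
      linarith
    push_cast
    rw [h2]
    ring
  have h3 : ∏ k ∈ range n, ((((3 * n + a : ℕ) : ℝ) - ((3 * k : ℕ) : ℝ)) *
      (((3 * n + a : ℕ) : ℝ) - ((3 * k + a : ℕ) : ℝ))) =
      ∏ j ∈ range n, ((3 * (j + 1)) * (3 * (j + 1) + a) : ℝ) := by
    rw [← Finset.prod_range_reflect]
    apply Finset.prod_congr rfl
    intro i hi
    have hi := mem_range.1 hi
    have : n - 1 - i + (i + 1) = n := by omega
    have h2 : ((n - 1 - i : ℕ) : ℝ) = n - (i + 1) := by
      have : ((n - 1 - i : ℕ) : ℝ) + (i + 1) = n := by exact_mod_cast this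
      linarith
    push_cast
    rw [h2]
    ring
  rw [h1, h3, ← mul_assoc, ← Finset.prod_mul_distrib, mul_comm]
  congr 1
  · push_cast; ring
  · apply Finset.prod_congr rfl
    intro j _
    ring

lemma P1_eq (n : ℕ) : (((1 : ℕ) : ℝ) * ∏ j ∈ range n,
    ((3 * (j + 1)) ^ 2 * (3 * (j + 1) - (1 : ℕ)) * (3 * (j + 1) + (1 : ℕ)) : ℝ)) =
      3 ^ n * n.factorial * (3 * n + 1).factorial := by
  induction n with
  | zero => simp
  | succ n ih =>
    rw [prod_range_succ, ← mul_assoc, ih, show 3 * (n + 1) + 1 = 3 * n + 1 + 1 + 1 + 1 by ring]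
    simp only [Nat.factorial_succ]
    push_cast
    ring

lemma P2_eq (n : ℕ) : (((2 : ℕ) : ℝ) * ∏ j ∈ range n,
    ((3 * (j + 1)) ^ 2 * (3 * (j + 1) - (2 : ℕ)) * (3 * (j + 1) + (2 : ℕ)) : ℝ)) =
      3 ^ n * n.factorial * ((3 * n).factorial * (3 * n + 2)) := by
  induction n with
  | zero => simp
  | succ n ih =>
    rw [prod_range_succ, ← mul_assoc, ih, show 3 * (n + 1) = 3 * n + 1 + 1 + 1 by ring]
    simp only [Nat.factorial_succ]
    push_cast
    ring

lemma aht_succ (n : ℕ) : aht (n + 1) = aht n * (ra n ^ 2 * ((3 * n + 2) / (3 * n + 1))) := by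
  unfold aht
  rw [asm_succ, prod_range_succ]
  ring

theorem PD_aht (n : ℕ) : PD (ex 1) (2 * n) * PD (ex 2) (2 * n) =
    3 ^ (n * (n - 1)) * aht n * PD id (2 * n) ^ 2 := by
  induction n with
  | zero => simp [PD, pp, aht, asm]
  | succ n ih =>
    rw [show 2 * (n + 1) = 2 * n + 2 by ring, PD_ex_succ, PD_ex_succ, PD_id_succ, P1_eq, P2_eq]
    have e1 : (3 : ℝ) ^ ((n + 1) * (n + 1 - 1)) = 3 ^ (n * (n - 1)) * (3 ^ n) ^ 2 := by
      rw [← pow_mul, ← pow_add]
      congr 1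
      rcases n with _ | n
      · rfl
      · simp only [Nat.add_sub_cancel]
        ring
    rw [e1, aht_succ]
    have e2 : ra n * (((2 * n).factorial : ℝ) * ((2 * n + 1).factorial : ℝ)) =
        ((3 * n + 1).factorial : ℝ) * n.factorial := by
      unfold ra
      field_simp
    have e3 : ((3 * n + 1).factorial : ℝ) = (3 * n + 1) * (3 * n).factorial := by
      rw [Nat.factorial_succ]; push_cast; ring
    have h31 : (3 * (n : ℝ) + 1) ≠ 0 := by positivity
    have e4 : (((3 * n + 1).factorial : ℝ) * n.factorial) ^ 2 * ((3 * n + 2) / (3 * n + 1)) =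
        n.factorial * ((3 * n + 1).factorial : ℝ) * (n.factorial * (((3 * n).factorial : ℝ) * (3 * n + 2))) := by
      rw [e3]
      field_simp
    calc _ = (PD (ex 1) (2 * n) * PD (ex 2) (2 * n)) * (3 ^ n) ^ 2 *
          (n.factorial * ((3 * n + 1).factorial : ℝ) * (n.factorial * (((3 * n).factorial : ℝ) * (3 * n + 2)))) := by ring
      _ = _ := by
        rw [ih, ← e4, ← e2]
        ring

lemma PD_id_pos (n : ℕ) : 0 < PD id n := by
  unfold PD pp
  apply Finset.prod_pos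
  intro j _
  apply Finset.prod_pos
  intro i hi
  have : (i : ℝ) < j := by exact_mod_cast mem_range.1 hi
  simp only [id]
  linarith

/-- **The sum rule at the homogeneous point.** -/
theorem sum_value (hq : q ^ 2 + q + 1 = 0) (h : SR q Z) (n : ℕ)
    (hc : Continuous (fun r : ℂ => Z (2 * n + 2) (fun j => r ^ j))) :
    Z (2 * n + 2) (fun _ => 1) = ((aht (n + 1) : ℝ) : ℂ) := by
  have h1 := value_aux hq h n hc
  have h2 := PD_aht (n + 1)
  rw [show 2 * (n + 1) = 2 * n + 2 by ring, Nat.add_sub_cancel] at h2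
  have h3 := PD_id_pos (2 * n + 2)
  have h4 : (((PD id (2 * n + 2) : ℝ) : ℂ) ^ 2 * 3 ^ ((n + 1) * n)) ≠ 0 := by
    apply mul_ne_zero
    · apply pow_ne_zero
      exact_mod_cast h3.ne'
    · exact pow_ne_zero _ (by norm_num)
  apply mul_right_cancel₀ h4
  rw [← mul_assoc, h1]
  have h5 : ((PD (ex 1) (2 * n + 2) * PD (ex 2) (2 * n + 2) : ℝ) : ℂ) =
    ((3 ^ ((n + 1) * n) * aht (n + 1) * PD id (2 * n + 2) ^ 2 : ℝ) : ℂ) := by rw [h2]
  push_cast at h5
  rw [h5]
  ring

end Pool.Agent.H34.Hom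

end
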