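import Pool.Agent.H31.PT.M10
import Pool.Agent.H31.PT.M32

/-! The parts of this file: H89.Perc.ArmExt, H85.Gamma.Bounds, H57.LF.Final, H83.EX.SigmaUpper, H83.EX.Scale, H90.NC.ArmDet, H90.NC.ArmExt, H90.NC.ArmGlue, H83.EX.WeakRSW, H12.QKZ.Tri, H12.QKZ.Num, H12.QKZ.Lam, H12.QKZ.Exist, H12.QKZ.Main, H56.EX.Base, H96.EX.SMa, H96.EX.SMb, H96.EX.SM, H96.EX.STM, H89.Link.Diag. -/

section

/-!
# Regularity of the one-arm probability
-/

open MeasureTheory ProbabilityTheory unitInterval

namespace Pool.Agent.H89.Perc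

private lemma armExt_box_zero (R : ℕ) : ArmBox 0 0 R ⊆ Arm 0 R := by
  rintro ω ⟨w, hw, u, hu, hc⟩
  have hw0 : w = 0 := by
    have h0 : ((0 : Vert).1) = 0 := rfl
    have h1 : ((0 : Vert).2) = 0 := rfl
    simp only [mem_ball, h0, h1] at hw
    ext
    · rw [h0]; omega
    · rw [h1]; omega
  subst hw0
  exact ⟨u, hu, hc⟩

/-- Regularity of the one-arm probability for `p ≥ 1 / 2`. -/
theorem arm_ext : ∃ c > (0 : ℝ), ∀ p : I, half ≤ p → ∀ k R : ℕ, 1 ≤ k → k ≤ R →
    c * Real.sqrt (k / R) * arm p k ≤ arm p R := by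
  classical
  obtain ⟨c1, hc1, H1⟩ := circuit
  obtain ⟨c2, hc2, H2⟩ := armBox_lower
  refine ⟨min c1 1 * c2 / 4, by positivity, ?_⟩
  intro p hp k R hk hkR
  have hm0 : 0 < min c1 1 := lt_min hc1 one_pos
  have hR : (0 : ℝ) < R := by
    have : 0 < R := by omega
    exact_mod_cast this
  have hk0 : (0 : ℝ) < k := by exact_mod_cast hk
  -- the annulus crossing probability, for every `s` with `k ≤ 16 (s + 1)`
  have hbox : ∀ s : ℕ, s ≤ R → k ≤ 16 * (s + 1) →
      c2 / 4 * Real.sqrt (k / R) ≤ Pr p (ArmBox 0 s R) := by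
    intro s hs hks
    have h1 := H2 s R (by omega) hs
    have h2 : Pr half (ArmBox 0 s R) ≤ Pr p (ArmBox 0 s R) :=
      Pr_mono_param (localOn_armBox 0 s R) (incr_armBox 0 s R) hp
    have h3 : Real.sqrt (k / R) ≤ 4 * Real.sqrt ((s + 1) / R) := by
      rw [show (4 : ℝ) = Real.sqrt 16 by
        rw [show (16 : ℝ) = 4 ^ 2 by norm_num, Real.sqrt_sq (by norm_num)]]
      rw [← Real.sqrt_mul (by norm_num)]
      apply Real.sqrt_le_sqrt
      rw [← mul_div_assoc]
      apply div_le_div_of_nonneg_right _ hR.le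
      exact_mod_cast hks
    calc c2 / 4 * Real.sqrt (k / R) ≤ c2 / 4 * (4 * Real.sqrt ((s + 1) / R)) :=
          mul_le_mul_of_nonneg_left h3 (by positivity)
      _ = c2 * Real.sqrt ((s + 1) / R) := by ring
      _ ≤ _ := h1.trans h2
  have ha0 : 0 ≤ arm p k := arm_nonneg
  have ha1 : arm p k ≤ 1 := arm_le_one
  have hs0 : 0 ≤ Real.sqrt (k / R) := Real.sqrt_nonneg _
  by_cases hk16 : k < 16
  · -- small radius
    have h1 := hbox 0 (Nat.zero_le _) (by omega)
    have h2 : Pr p (ArmBox 0 0 R) ≤ arm p R := Pr_mono (armExt_box_zero R)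
    calc min c1 1 * c2 / 4 * Real.sqrt (k / R) * arm p k
        = (c2 / 4 * Real.sqrt (k / R)) * (min c1 1 * arm p k) := by ring
      _ ≤ (c2 / 4 * Real.sqrt (k / R)) * 1 := by
          apply mul_le_mul_of_nonneg_left _ (by positivity)
          calc min c1 1 * arm p k ≤ 1 * 1 :=
                mul_le_mul (min_le_right _ _) ha1 ha0 zero_le_one
            _ = 1 := one_mul 1
      _ ≤ arm p R := by rw [mul_one]; exact h1.trans h2
  · -- large radius
    push Not at hk16
    have hs1 : 1 ≤ k / 8 := by omega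
    have h1 := H1 (k / 8) k hs1 (by omega) p hp
    have h2 := hbox (k / 8) (by omega) (by omega)
    have f1 : Pr p (Arm 0 k) * Pr p (ArmBox 0 (k / 8) R) ≤
        Pr p (Arm 0 k ∩ ArmBox 0 (k / 8) R) :=
      fkg (localOn_arm 0 k) (localOn_armBox 0 (k / 8) R) (incr_arm 0 k) (incr_armBox 0 (k / 8) R)
    have f2 : Pr p (Arm 0 k ∩ ArmBox 0 (k / 8) R) * Pr p {ω | dual ω ∉ DArm (k / 8) k} ≤
        Pr p ((Arm 0 k ∩ ArmBox 0 (k / 8) R) ∩ {ω | dual ω ∉ DArm (k / 8) k}) :=
      fkg ((localOn_arm 0 k).inter' (localOn_armBox 0 (k / 8) R)) (localOn_dual_DArm (k / 8) k)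
        ((incr_arm 0 k).inter (incr_armBox 0 (k / 8) R)) (incr_dual_DArm (k / 8) k)
    have f3 : Pr p ((Arm 0 k ∩ ArmBox 0 (k / 8) R) ∩ {ω | dual ω ∉ DArm (k / 8) k}) ≤
        arm p R := by
      refine Pr_mono ?_
      rintro ω ⟨⟨g1, g2⟩, g3⟩
      exact glue (by omega) hkR g1 g2 g3
    have g1 : arm p k * (c2 / 4 * Real.sqrt (k / R)) ≤ Pr p (Arm 0 k ∩ ArmBox 0 (k / 8) R) :=
      (mul_le_mul_of_nonneg_left h2 ha0).trans f1
    calc min c1 1 * c2 / 4 * Real.sqrt (k / R) * arm p k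
        = (arm p k * (c2 / 4 * Real.sqrt (k / R))) * min c1 1 := by ring
      _ ≤ Pr p (Arm 0 k ∩ ArmBox 0 (k / 8) R) * Pr p {ω | dual ω ∉ DArm (k / 8) k} :=
          mul_le_mul g1 ((min_le_left _ _).trans h1) hm0.le Pr_nonneg
      _ ≤ _ := f2.trans f3

end Pool.Agent.H89.Perc

end

section

/-!
# Bounds for the arms of an edge and for the derivative of the one-arm probability
-/

open MeasureTheory ProbabilityTheory unitInterval

namespace Pool.Agent.H85.Gamma

open Pool.Agent.H89.Perc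

/-- Supremum norm. -/
def nrm (u : Vert) : ℕ := max u.1.natAbs u.2.natAbs

/-- A connection between `0` and `u` forces two arms in disjoint boxes. -/
theorem Pr_conn_le (p : I) (S : Set Vert) (u : Vert) (s : ℕ) (h : 2 * s < nrm u) :
    Pr p {ω | Conn ω S 0 u} ≤ arm p s ^ 2 := by
  classical
  have hsub : {ω : Config | Conn ω S 0 u} ⊆ Arm 0 s ∩ Arm u s := by
    intro ω hc
    have hc' : Conn ω S 0 u := hc
    unfold nrm at h
    refine ⟨hc'.mem_arm ?_, hc'.symm.mem_arm ?_⟩
    · simp only [Prod.fst_zero, Prod.snd_zero, sub_zero, ← Int.natCast_natAbs]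
      omega
    · simp only [Prod.fst_zero, Prod.snd_zero, zero_sub, abs_neg, ← Int.natCast_natAbs]
      omega
  have hdis : Disjoint (eRect ((0 : Vert).1 - s) ((0 : Vert).1 + s) ((0 : Vert).2 - s)
      ((0 : Vert).2 + s)) (eRect (u.1 - s) (u.1 + s) (u.2 - s) (u.2 + s)) := by
    rw [Finset.disjoint_left]
    intro e h1 h2
    rw [mem_eRect] at h1 h2
    simp only [rect, Set.mem_ofPred_eq, Prod.fst_zero, Prod.snd_zero] at h1 h2
    unfold nrm at h
    omega
  calc Pr p {ω | Conn ω S 0 u} ≤ Pr p (Arm 0 s ∩ Arm u s) := Pr_mono hsub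
    _ = Pr p (Arm 0 s) * Pr p (Arm u s) :=
        Pr_inter_of_disjoint (localOn_arm 0 s) (localOn_arm u s) hdis
    _ = arm p s ^ 2 := by rw [Pr_arm u s, Pr_arm 0 s]; ring

theorem Pr_conn_le' (p : I) (S : Set Vert) (u : Vert) (s : ℕ) (h : 2 * s < nrm u ∨ s = 0) :
    Pr p {ω | Conn ω S 0 u} ≤ arm p s ^ 2 := by
  rcases h with h | h
  · exact Pr_conn_le p S u s h
  · subst h
    rw [arm_zero, one_pow]
    exact Pr_le_one

theorem arm_half_pos (k : ℕ) : 0 < arm half k := by
  obtain ⟨c, hc, h⟩ := armBox_lower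
  rcases Nat.eq_zero_or_pos k with hk | hk
  · subst hk; rw [arm_zero]; norm_num
  · have h1 := h 0 k hk (Nat.zero_le k)
    have h2 : Pr half (ArmBox 0 0 k) ≤ arm half k := by
      refine Pr_mono ?_
      rintro ω ⟨w, hw, u, hu, hc⟩
      have hw0 : w = 0 := by
        simp only [mem_ball, Prod.fst_zero, Prod.snd_zero, Nat.cast_zero] at hw
        ext
        · simp only [Prod.fst_zero]; omega
        · simp only [Prod.snd_zero]; omega
      subst hw0
      exact ⟨u, hu, hc⟩
    have h3 : 0 < c * Real.sqrt (((0 : ℕ) + 1) / k) := by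
      have : (0 : ℝ) < k := by exact_mod_cast hk
      positivity
    linarith

/-- Regularity of the critical one-arm probability, including radius zero. -/
theorem arm_reg : ∃ C : ℝ, 1 ≤ C ∧ ∀ k R : ℕ, 1 ≤ R → k ≤ R →
    arm half k ≤ C * Real.sqrt (R / (k + 1)) * arm half R := by
  obtain ⟨c, hc, h⟩ := arm_ext
  set a1 := arm half 1 with ha1
  have ha1p : 0 < a1 := arm_half_pos 1
  have ha1le : a1 ≤ 1 := arm_le_one
  set c' := min c 1 with hc'
  have hc'p : 0 < c' := lt_min hc one_pos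
  have hc'1 : c' ≤ 1 := min_le_right _ _
  have hC1 : 1 ≤ 2 / (c' * a1) := by
    rw [le_div_iff₀ (by positivity)]
    nlinarith [mul_le_mul hc'1 ha1le ha1p.le zero_le_one]
  refine ⟨2 / (c' * a1), hC1, ?_⟩
  intro k R hR hkR
  have hRp : (0 : ℝ) < R := by exact_mod_cast hR
  -- bound in terms of `max k 1`
  have key : ∀ j : ℕ, 1 ≤ j → j ≤ R → arm half j ≤ (1 / c') * Real.sqrt (R / j) * arm half R := by
    intro j hj hjR
    have hjp : (0 : ℝ) < j := by exact_mod_cast hj
    have h1 := h half le_rfl j R hj hjR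
    have h2 : c' * Real.sqrt (j / R) * arm half j ≤ arm half R := by
      refine le_trans ?_ h1
      gcongr
      · exact arm_nonneg
      · exact min_le_left _ _
    have h3 : Real.sqrt (j / R) * Real.sqrt (R / j) = 1 := by
      rw [← Real.sqrt_mul (by positivity)]
      rw [show (j : ℝ) / R * (R / j) = 1 by field_simp, Real.sqrt_one]
    have h4 : 0 ≤ Real.sqrt (R / j) / c' := by positivity
    have h5 := mul_le_mul_of_nonneg_left h2 h4
    calc arm half j = (Real.sqrt (j / R) * Real.sqrt (R / j)) * arm half j := by rw [h3, one_mul]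
      _ = Real.sqrt (R / j) / c' * (c' * Real.sqrt (j / R) * arm half j) := by
          field_simp
      _ ≤ Real.sqrt (R / j) / c' * arm half R := h5
      _ = _ := by ring
  rcases Nat.eq_zero_or_pos k with hk | hk
  · subst hk
    have h1 := key 1 le_rfl hR
    rw [arm_zero]
    have h2 : 1 ≤ (1 / (c' * a1)) * Real.sqrt (R / 1) * arm half R := by
      have : 1 = a1 / a1 := by field_simp
      rw [this]
      rw [div_le_iff₀ ha1p]
      calc a1 ≤ 1 / c' * Real.sqrt (R / (1 : ℕ)) * arm half R := h1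
        _ = _ := by
          push_cast
          field_simp
    have h3 : (0 : ℝ) ≤ 1 / (c' * a1) * Real.sqrt (R / 1) * arm half R := by
      have := arm_nonneg (p := half) (r := R)
      positivity
    calc (1 : ℝ) ≤ 2 * (1 / (c' * a1) * Real.sqrt (R / 1) * arm half R) := by linarith
      _ = _ := by push_cast; ring_nf
  · have h1 := key k hk hkR
    have hkp : (0 : ℝ) < k := by exact_mod_cast hk
    have hk1 : (1 : ℝ) ≤ k := by exact_mod_cast hk
    refine h1.trans ?_
    refine mul_le_mul_of_nonneg_right ?_ arm_nonneg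
    have h2 : Real.sqrt (R / k) ≤ 2 * Real.sqrt (R / (k + 1)) := by
      rw [show (2 : ℝ) = Real.sqrt 4 by
        rw [show (4 : ℝ) = 2 ^ 2 by norm_num, Real.sqrt_sq (by norm_num)],
        ← Real.sqrt_mul (by norm_num)]
      apply Real.sqrt_le_sqrt
      rw [div_le_iff₀ hkp]
      have : 4 * ((R : ℝ) / (k + 1)) * k = R * (4 * k / (k + 1)) := by ring
      rw [this]
      have : 1 ≤ 4 * (k : ℝ) / (k + 1) := by
        rw [le_div_iff₀ (by positivity)]; linarith
      nlinarith
    calc 1 / c' * Real.sqrt (R / k) ≤ 1 / c' * (2 * Real.sqrt (R / (k + 1))) := by gcongr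
      _ = 2 / (c' * 1) * Real.sqrt (R / (k + 1)) := by ring
      _ ≤ 2 / (c' * a1) * Real.sqrt (R / (k + 1)) := by
          gcongr

end Pool.Agent.H85.Gamma

end

section

/-!
# The lower bound `θ(p) ≥ c √(p - 1/2)`
-/

open MeasureTheory ProbabilityTheory unitInterval Filter Topology

namespace Pool.Agent.H57.LF

open Pool.Agent.H89.Perc

/-- Finite-size criterion. -/
theorem fs : ∃ ε > (0 : ℝ), ∃ c > (0 : ℝ), ∀ p : I, half ≤ p → ∀ m : ℕ, 1 ≤ m →
    1 - ε ≤ Pr p {ω | HCross ω m (16 * m) (-m) (4 * m)} → c * arm p m ≤ theta p := by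
  classical
  obtain ⟨ε, hε, K, hK, hsum⟩ := fs_sum
  obtain ⟨c1, hc1, H1⟩ := circuit
  obtain ⟨c2, hc2, H2⟩ := arm_ext
  refine ⟨ε / 4, by positivity, c2 * Real.sqrt (1 / (8 * K + 4)) * (1 / 2) * c1, by positivity,
    fun p hp m hm hF => ?_⟩
  have hm0 : (0 : ℝ) < m := by exact_mod_cast hm
  have h1 := fs_annulus (p := p) hm
  have h2 : Pr (σ p) (ArmBox 0 m (7 * m)) ≤ ε := by linarith
  have h3 := hsum (σ p) m hm h2
  have hKm : m ≤ K * m := Nat.le_mul_of_pos_left m (by omega)
  set s : ℕ := 2 * (K * m) with hs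
  set r : ℕ := 4 * (s + 1) with hr
  have h4 : ∀ M : ℕ, s < M → 1 / 2 ≤ Pr p (ArmBox 0 s M) := by
    intro M hM
    have h5 := armBox_ge (p := p) hm hKm (M := M) hM
    have h6 := h3 M
    linarith
  have hs1 : 1 ≤ s := by rw [hs]; omega
  have h5 := H1 s r hs1 (by omega) p hp
  have h6 : c2 * Real.sqrt (1 / (8 * K + 4)) * arm p m ≤ arm p r := by
    have h7 := H2 p hp m r hm (by omega)
    refine le_trans ?_ h7
    refine mul_le_mul_of_nonneg_right ?_ arm_nonneg
    refine mul_le_mul_of_nonneg_left ?_ hc2.le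
    apply Real.sqrt_le_sqrt
    have hr0 : (0 : ℝ) < r := by
      have : 0 < r := by omega
      exact_mod_cast this
    rw [div_le_div_iff₀ (by positivity) hr0, one_mul]
    have : (r : ℝ) = 8 * (K * m) + 4 := by rw [hr, hs]; push_cast; ring
    rw [this]
    have hm1 : (1 : ℝ) ≤ m := by exact_mod_cast hm
    nlinarith
  refine ge_of_tendsto (tendsto_arm p) ?_
  filter_upwards [eventually_ge_atTop r] with M hM
  have f1 : Pr p (Arm 0 r) * Pr p (ArmBox 0 s M) ≤ Pr p (Arm 0 r ∩ ArmBox 0 s M) :=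
    fkg (localOn_arm 0 r) (localOn_armBox 0 s M) (incr_arm 0 r) (incr_armBox 0 s M)
  have f2 : Pr p (Arm 0 r ∩ ArmBox 0 s M) * Pr p {ω | dual ω ∉ DArm s r} ≤
      Pr p ((Arm 0 r ∩ ArmBox 0 s M) ∩ {ω | dual ω ∉ DArm s r}) :=
    fkg ((localOn_arm 0 r).inter' (localOn_armBox 0 s M)) (localOn_dual_DArm s r)
      ((incr_arm 0 r).inter (incr_armBox 0 s M)) (incr_dual_DArm s r)
  have f3 : Pr p ((Arm 0 r ∩ ArmBox 0 s M) ∩ {ω | dual ω ∉ DArm s r}) ≤ arm p M := by
    refine Pr_mono ?_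
    rintro ω ⟨⟨g1, g2⟩, g3⟩
    exact glue (by omega) hM g1 g2 g3
  have g0 : 0 ≤ arm p r := arm_nonneg
  have g1 : arm p r * (1 / 2) ≤ Pr p (Arm 0 r ∩ ArmBox 0 s M) :=
    (mul_le_mul_of_nonneg_left (h4 M (by omega)) g0).trans f1
  calc c2 * Real.sqrt (1 / (8 * K + 4)) * (1 / 2) * c1 * arm p m
      = (c2 * Real.sqrt (1 / (8 * K + 4)) * arm p m) * (1 / 2) * c1 := by ring
    _ ≤ arm p r * (1 / 2) * c1 := by
        refine mul_le_mul_of_nonneg_right (mul_le_mul_of_nonneg_right h6 (by norm_num)) hc1.le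
    _ ≤ Pr p (Arm 0 r ∩ ArmBox 0 s M) * Pr p {ω | dual ω ∉ DArm s r} :=
        mul_le_mul g1 h5 hc1.le Pr_nonneg
    _ ≤ _ := f2.trans f3

end Pool.Agent.H57.LF

end

section

/-! # Upper bound for the mean cluster size -/

open MeasureTheory ProbabilityTheory unitInterval
open scoped ENNReal

namespace Pool.Agent.H83.EX

open Pool.Agent.H89.Perc

private lemma su_conn_ball {ω : Config} {v : Vert} (h : Conn ω Set.univ 0 v) :
    ∃ R : ℕ, Conn ω (ball 0 R) 0 v := by
  refine h.induction_right (P := fun v => ∃ R : ℕ, Conn ω (ball 0 R) 0 v)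
    ⟨0, Conn.refl self_mem_ball⟩ ?_
  rintro a b - hab ⟨R, hR⟩
  have h1 : Conn ω (ball 0 (R + 1)) 0 a := hR.mono_set (ball_subset_ball (Nat.le_succ R))
  have ha : a ∈ ball 0 R := hR.mem_right
  have h2 := hab.fst_le
  have h3 := hab.snd_le
  have hb : b ∈ ball 0 (R + 1) := by
    simp only [mem_ball, Prod.fst_zero, Prod.snd_zero] at ha ⊢
    push_cast
    omega
  exact ⟨R + 1, h1.tail ⟨h1.mem_right, hb, hab.2.2⟩⟩

private lemma su_meas (v : Vert) : MeasurableSet {ω : Config | Conn ω Set.univ 0 v} := by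
  have h : {ω : Config | Conn ω Set.univ 0 v} = ⋃ R : ℕ, {ω | Conn ω (ball 0 R) 0 v} := by
    ext ω
    simp only [Set.mem_ofPred_eq, Set.mem_iUnion]
    exact ⟨su_conn_ball, fun ⟨R, hR⟩ => hR.mono_set (Set.subset_univ _)⟩
  rw [h]
  exact MeasurableSet.iUnion fun R => (Pool.Agent.H85.Gamma.localOn_connB R 0 v).measurableSet

private lemma su_sigma (q : I) : Pool.Agent.H85.Gamma.sigma q =
    ∑' v : Vert, ENNReal.ofReal (Pr q {ω | Conn ω Set.univ 0 v}) := by
  classical
  unfold Pool.Agent.H85.Gamma.sigma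
  have h1 : ∀ ω : Config, (({v : Vert | Conn ω Set.univ 0 v}.encard : ℕ∞) : ℝ≥0∞) =
      ∑' v : Vert, Set.indicator {ω : Config | Conn ω Set.univ 0 v} (fun _ => (1 : ℝ≥0∞)) ω := by
    intro ω
    rw [← ENNReal.tsum_set_one, tsum_subtype {v : Vert | Conn ω Set.univ 0 v} (fun _ => (1 : ℝ≥0∞))]
    refine tsum_congr fun v => ?_
    by_cases h : Conn ω Set.univ 0 v
    · rw [Set.indicator_of_mem (show v ∈ {v : Vert | Conn ω Set.univ 0 v} from h),
        Set.indicator_of_mem (show ω ∈ {ω : Config | Conn ω Set.univ 0 v} from h)]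
    · rw [Set.indicator_of_notMem (show v ∉ {v : Vert | Conn ω Set.univ 0 v} from h),
        Set.indicator_of_notMem (show ω ∉ {ω : Config | Conn ω Set.univ 0 v} from h)]
  simp_rw [h1]
  rw [lintegral_tsum fun v => (measurable_const.indicator (su_meas v)).aemeasurable]
  refine tsum_congr fun v => ?_
  rw [lintegral_indicator (su_meas v), lintegral_const, Measure.restrict_apply_univ, one_mul]
  unfold Pr
  rw [ofReal_measureReal]

/-- The iteration for the annulus crossings. -/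
private lemma su_iter {q : I} {L : ℕ} (hL : 1 ≤ L)
    (h0 : Pr q (ArmBox 0 L (7 * L)) ≤ 1 / (81 * 10 ^ 8)) (k : ℕ) :
    10 ^ 8 * Pr q (ArmBox 0 (3 ^ k * L) (7 * (3 ^ k * L))) ≤ (1 / 81) ^ (k + 1) := by
  induction k with
  | zero =>
    simp only [pow_zero, one_mul, zero_add, pow_one]
    have : (1 : ℝ) / (81 * 10 ^ 8) = 1 / 10 ^ 8 * (1 / 81) := by norm_num
    rw [this] at h0
    have h1 : (10 : ℝ) ^ 8 * (1 / 10 ^ 8 * (1 / 81)) = 1 / 81 := by norm_num
    calc _ ≤ (10 : ℝ) ^ 8 * (1 / 10 ^ 8 * (1 / 81)) := by gcongr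
      _ = 1 / 81 := h1
  | succ k ih =>
    have h1 := Pool.Agent.H57.LF.fs_step (q := q) (L := 3 ^ k * L) (Nat.mul_pos (by positivity) hL)
    have e1 : 3 * (3 ^ k * L) = 3 ^ (k + 1) * L := by ring
    have e2 : 21 * (3 ^ k * L) = 7 * (3 ^ (k + 1) * L) := by ring
    rw [e1, e2] at h1
    set a := Pr q (ArmBox 0 (3 ^ k * L) (7 * (3 ^ k * L))) with ha
    have ha0 : 0 ≤ a := Pr_nonneg
    calc 10 ^ 8 * Pr q (ArmBox 0 (3 ^ (k + 1) * L) (7 * (3 ^ (k + 1) * L)))
        ≤ 10 ^ 8 * (10 ^ 8 * a ^ 2) := by gcongr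
      _ = (10 ^ 8 * a) ^ 2 := by ring
      _ ≤ ((1 / 81) ^ (k + 1)) ^ 2 := by gcongr
      _ = (1 / 81) ^ (2 * (k + 1)) := by rw [← pow_mul, mul_comm]
      _ ≤ (1 / 81) ^ (k + 1 + 1) := pow_le_pow_of_le_one (by norm_num) (by norm_num) (by omega)

/-- Far points: three events on disjoint sets of edges. -/
private lemma su_far {q : I} {m L : ℕ} (hm : 1 ≤ m) (hL : m ≤ L) {v : Vert}
    (hv : v ∉ ball 0 (8 * L)) :
    Pr q {ω | Conn ω Set.univ 0 v} ≤ arm q (m - 1) ^ 2 * Pr q (ArmBox 0 L (7 * L)) := by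
  classical
  set s := m - 1 with hs
  have hL1 : L - 1 + 1 = L := by omega
  have hv' : v ∉ ball 0 (8 * L) := hv
  simp only [mem_ball, Prod.fst_zero, Prod.snd_zero] at hv'
  push_cast at hv'
  have hsub : {ω : Config | Conn ω Set.univ 0 v} ⊆
      (Arm 0 s ∩ Ann (L - 1) (7 * L)) ∩ Arm v s := by
    intro ω hω
    have hc : Conn ω Set.univ 0 v := hω
    refine ⟨⟨hc.mem_arm ?_, ?_⟩, hc.symm.mem_arm ?_⟩
    · simp only [Prod.fst_zero, Prod.snd_zero, sub_zero]
      rcases abs_cases v.1 with h3 | h3 <;> rcases abs_cases v.2 with h4 | h4 <;> omega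
    · refine arm_subset_ann (R := 7 * L) (by omega) le_rfl (hc.mem_arm ?_)
      simp only [Prod.fst_zero, Prod.snd_zero, sub_zero]
      push_cast
      rcases abs_cases v.1 with h3 | h3 <;> rcases abs_cases v.2 with h4 | h4 <;> omega
    · simp only [Prod.fst_zero, Prod.snd_zero, zero_sub, abs_neg]
      rcases abs_cases v.1 with h3 | h3 <;> rcases abs_cases v.2 with h4 | h4 <;> omega
  have hl1 : LocalOn (eBall (L - 1)) (Arm 0 s) := by
    intro ω ω' h hω
    obtain ⟨u, hu, hc⟩ := hω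
    refine ⟨u, hu, Conn.congr (fun e he _ => h e ?_) hc⟩
    rw [mem_eBall]
    exact ball_subset_ball (by omega) he
  have hl2 : LocalOn (eBall (7 * L) \ eBall (L - 1)) (Ann (L - 1) (7 * L)) := localOn_ann _ _
  have hl12 : LocalOn (eBall (7 * L)) (Arm 0 s ∩ Ann (L - 1) (7 * L)) :=
    (hl1.mono (eBall_subset (by omega))).inter (hl2.mono Finset.sdiff_subset)
  have hdis : Disjoint (eBall (7 * L)) (eRect (v.1 - s) (v.1 + s) (v.2 - s) (v.2 + s)) := by
    rw [Finset.disjoint_left]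
    intro e h1 h2
    rw [mem_eBall] at h1
    rw [mem_eRect] at h2
    simp only [mem_ball, rect, Set.mem_ofPred_eq, Prod.fst_zero, Prod.snd_zero] at h1 h2
    push_cast at h1
    omega
  have h3 : Pr q (Ann (L - 1) (7 * L)) ≤ Pr q (ArmBox 0 L (7 * L)) := by
    refine Pr_mono ?_
    have := ann_subset_armBox (L - 1) (7 * L)
    rwa [hL1] at this
  calc Pr q {ω | Conn ω Set.univ 0 v}
      ≤ Pr q ((Arm 0 s ∩ Ann (L - 1) (7 * L)) ∩ Arm v s) := Pr_mono hsub
    _ = Pr q (Arm 0 s ∩ Ann (L - 1) (7 * L)) * Pr q (Arm v s) :=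
        Pr_inter_of_disjoint hl12 (localOn_arm v s) hdis
    _ = Pr q (Arm 0 s) * Pr q (Ann (L - 1) (7 * L)) * Pr q (Arm v s) := by
        rw [Pr_inter_of_disjoint hl1 hl2 Finset.disjoint_sdiff]
    _ = arm q s ^ 2 * Pr q (Ann (L - 1) (7 * L)) := by
        rw [Pr_arm v s, Pr_arm 0 s]; ring
    _ ≤ arm q s ^ 2 * Pr q (ArmBox 0 L (7 * L)) := by gcongr

private lemma su_nrm {N : ℕ} {v : Vert} :
    v ∈ Pool.Agent.H85.Gamma.bx N ↔ Pool.Agent.H85.Gamma.nrm v ≤ N := by
  rw [Pool.Agent.H85.Gamma.mem_bx]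
  unfold Pool.Agent.H85.Gamma.nrm
  simp only [mem_ball, Prod.fst_zero, Prod.snd_zero]
  omega

/-- Sum of `1 / (|v| + 1)` over a box. -/
private lemma su_box (N : ℕ) :
    ∑ v ∈ Pool.Agent.H85.Gamma.bx N, 1 / ((Pool.Agent.H85.Gamma.nrm v : ℝ) + 1) ≤ 8 * N + 1 := by
  classical
  induction N with
  | zero =>
    have h : Pool.Agent.H85.Gamma.bx 0 = {0} := by
      ext v
      rw [su_nrm, Finset.mem_singleton]
      unfold Pool.Agent.H85.Gamma.nrm
      constructor
      · intro h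
        ext
        · simp only [Prod.fst_zero]; omega
        · simp only [Prod.snd_zero]; omega
      · rintro rfl
        simp
    rw [h, Finset.sum_singleton]
    simp [Pool.Agent.H85.Gamma.nrm]
  | succ N ih =>
    have hsub : Pool.Agent.H85.Gamma.bx N ⊆ Pool.Agent.H85.Gamma.bx (N + 1) := by
      intro v hv
      rw [su_nrm] at hv ⊢
      omega
    rw [← Finset.sum_sdiff hsub]
    have h1 : ∑ v ∈ Pool.Agent.H85.Gamma.bx (N + 1) \ Pool.Agent.H85.Gamma.bx N,
        1 / ((Pool.Agent.H85.Gamma.nrm v : ℝ) + 1) ≤ 8 := by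
      have h2 : ∀ v ∈ Pool.Agent.H85.Gamma.bx (N + 1) \ Pool.Agent.H85.Gamma.bx N,
          1 / ((Pool.Agent.H85.Gamma.nrm v : ℝ) + 1) ≤ 1 / ((N : ℝ) + 1) := by
        intro v hv
        rw [Finset.mem_sdiff, su_nrm, su_nrm] at hv
        have : (N : ℝ) ≤ Pool.Agent.H85.Gamma.nrm v := by exact_mod_cast (by omega)
        apply one_div_le_one_div_of_le (by positivity)
        linarith
      refine (Finset.sum_le_card_nsmul _ _ _ h2).trans ?_
      rw [nsmul_eq_mul, Finset.cast_card_sdiff hsub, Pool.Agent.H85.Gamma.card_bx,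
        Pool.Agent.H85.Gamma.card_bx]
      have : (0 : ℝ) < (N : ℝ) + 1 := by positivity
      rw [mul_one_div, div_le_iff₀ this]
      push_cast
      nlinarith
    push_cast
    linarith

theorem sigma_upper : ∃ ε > (0 : ℝ), ∃ C > (0 : ℝ), ∀ q : I, q ≤ half → ∀ m : ℕ, 1 ≤ m →
    Pr q (ArmBox 0 m (7 * m)) ≤ ε →
    Pool.Agent.H85.Gamma.sigma q ≤ ENNReal.ofReal (C * (m : ℝ) ^ 2 * arm half m ^ 2) := by
  classical
  obtain ⟨C, hC, hreg⟩ := Pool.Agent.H85.Gamma.arm_reg
  refine ⟨1 / (81 * 10 ^ 8), by positivity, 1000 * C ^ 2, by positivity, fun q hq m hm h0 => ?_⟩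
  have hmp : (1 : ℝ) ≤ m := by exact_mod_cast hm
  set π := arm half m with hπ
  have hπ0 : 0 ≤ π := arm_nonneg
  -- bound for the square of the arm
  have hsq : ∀ s : ℕ, s ≤ m → arm q s ^ 2 ≤ C ^ 2 * (m / (s + 1)) * π ^ 2 := by
    intro s hs
    have h1 : arm q s ≤ C * Real.sqrt (m / (s + 1)) * π :=
      (arm_mono_param s hq).trans (hreg s m hm hs)
    calc arm q s ^ 2 ≤ (C * Real.sqrt (m / (s + 1)) * π) ^ 2 := by
          gcongr
          exact arm_nonneg
      _ = C ^ 2 * Real.sqrt (m / (s + 1)) ^ 2 * π ^ 2 := by ring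
      _ = _ := by rw [Real.sq_sqrt (by positivity)]
  set P : Vert → ℝ := fun v => Pr q {ω | Conn ω Set.univ 0 v} with hP
  have hP0 : ∀ v, 0 ≤ P v := fun v => Pr_nonneg
  -- near points
  have hnear : ∑ v ∈ Pool.Agent.H85.Gamma.bx (8 * m), P v ≤ 520 * C ^ 2 * m ^ 2 * π ^ 2 := by
    have h1 : ∀ v ∈ Pool.Agent.H85.Gamma.bx (8 * m),
        P v ≤ 8 * C ^ 2 * m * π ^ 2 * (1 / ((Pool.Agent.H85.Gamma.nrm v : ℝ) + 1)) := by
      intro v hv
      rw [su_nrm] at hv
      set n := Pool.Agent.H85.Gamma.nrm v with hn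
      set s := min (n / 2 - 1) m with hs
      have h2 : P v ≤ arm q s ^ 2 :=
        Pool.Agent.H85.Gamma.Pr_conn_le' q Set.univ v s (by omega)
      have h3 : n + 1 ≤ 8 * (s + 1) := by omega
      have h4 : (n : ℝ) + 1 ≤ 8 * ((s : ℝ) + 1) := by exact_mod_cast h3
      have h5 : (m : ℝ) / (s + 1) ≤ 8 * m * (1 / ((n : ℝ) + 1)) := by
        rw [mul_one_div, div_le_div_iff₀ (by positivity) (by positivity)]
        nlinarith
      calc P v ≤ arm q s ^ 2 := h2
        _ ≤ C ^ 2 * (m / (s + 1)) * π ^ 2 := hsq s (min_le_right _ _)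
        _ ≤ C ^ 2 * (8 * m * (1 / ((n : ℝ) + 1))) * π ^ 2 := by gcongr
        _ = _ := by ring
    refine (Finset.sum_le_sum h1).trans ?_
    rw [← Finset.mul_sum]
    have h6 := su_box (8 * m)
    push_cast at h6
    have h7 : 8 * (8 * (m : ℝ)) + 1 ≤ 65 * m := by linarith
    calc 8 * C ^ 2 * m * π ^ 2 * ∑ v ∈ Pool.Agent.H85.Gamma.bx (8 * m),
          1 / ((Pool.Agent.H85.Gamma.nrm v : ℝ) + 1)
        ≤ 8 * C ^ 2 * m * π ^ 2 * (65 * m) := by
          gcongr
          exact h6.trans h7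
      _ = _ := by ring
  -- all boxes
  have hall : ∀ K : ℕ, ∑ v ∈ Pool.Agent.H85.Gamma.bx (8 * (3 ^ K * m)), P v ≤
      (521 - (1 / 9) ^ K) * C ^ 2 * m ^ 2 * π ^ 2 := by
    intro K
    induction K with
    | zero =>
      simp only [pow_zero, one_mul]
      refine hnear.trans (le_of_eq ?_)
      ring
    | succ K ih =>
      have hsub : Pool.Agent.H85.Gamma.bx (8 * (3 ^ K * m)) ⊆
          Pool.Agent.H85.Gamma.bx (8 * (3 ^ (K + 1) * m)) := by
        intro v hv
        rw [su_nrm] at hv ⊢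
        refine hv.trans ?_
        gcongr
        · norm_num
        · omega
      rw [← Finset.sum_sdiff hsub]
      set a := Pr q (ArmBox 0 (3 ^ K * m) (7 * (3 ^ K * m))) with ha
      have hit : 10 ^ 8 * a ≤ (1 / 81) ^ (K + 1) := su_iter hm h0 K
      have ha0 : 0 ≤ a := Pr_nonneg
      have h1 : ∀ v ∈ Pool.Agent.H85.Gamma.bx (8 * (3 ^ (K + 1) * m)) \
          Pool.Agent.H85.Gamma.bx (8 * (3 ^ K * m)), P v ≤ C ^ 2 * π ^ 2 * a := by
        intro v hv
        rw [Finset.mem_sdiff, Pool.Agent.H85.Gamma.mem_bx, Pool.Agent.H85.Gamma.mem_bx] at hv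
        have h2 : P v ≤ arm q (m - 1) ^ 2 * a :=
          su_far hm (Nat.le_mul_of_pos_left _ (by positivity)) hv.2
        have h3 := hsq (m - 1) (Nat.sub_le _ _)
        have h4 : (m : ℝ) / (((m - 1 : ℕ) : ℝ) + 1) = 1 := by
          have : ((m - 1 : ℕ) : ℝ) + 1 = m := by
            have : m - 1 + 1 = m := by omega
            exact_mod_cast this
          rw [this, div_self (by positivity)]
        rw [h4, mul_one] at h3
        refine h2.trans ?_
        gcongr
      have h2 : ∑ v ∈ Pool.Agent.H85.Gamma.bx (8 * (3 ^ (K + 1) * m)) \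
          Pool.Agent.H85.Gamma.bx (8 * (3 ^ K * m)), P v ≤
          (8 / 9 * (1 / 9) ^ K) * C ^ 2 * m ^ 2 * π ^ 2 := by
        refine (Finset.sum_le_card_nsmul _ _ _ h1).trans ?_
        rw [nsmul_eq_mul]
        have h3 : ((Pool.Agent.H85.Gamma.bx (8 * (3 ^ (K + 1) * m)) \
          Pool.Agent.H85.Gamma.bx (8 * (3 ^ K * m))).card : ℝ) ≤ 10 ^ 7 * 9 ^ (K + 1) * m ^ 2 := by
          refine (Nat.cast_le.2 (Finset.card_le_card Finset.sdiff_subset)).trans ?_
          rw [Pool.Agent.H85.Gamma.card_bx]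
          push_cast
          have h5 : (1 : ℝ) ≤ 3 ^ (K + 1) * m := by
            have : (1 : ℝ) ≤ 3 ^ (K + 1) := one_le_pow₀ (by norm_num)
            nlinarith
          have h9 : (9 : ℝ) ^ (K + 1) = ((3 : ℝ) ^ (K + 1)) ^ 2 := by
            rw [← pow_mul, mul_comm, pow_mul]
            norm_num
          calc ((2 : ℝ) * (8 * ((3 : ℝ) ^ (K + 1) * (m : ℝ))) + 1) ^ 2
              ≤ (17 * ((3 : ℝ) ^ (K + 1) * (m : ℝ))) ^ 2 := by
                gcongr
                linarith
            _ = 289 * 9 ^ (K + 1) * (m : ℝ) ^ 2 := by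
                rw [h9]
                ring
            _ ≤ 10 ^ 7 * 9 ^ (K + 1) * (m : ℝ) ^ 2 := by
                gcongr
                norm_num
        have h6 : (9 : ℝ) ^ (K + 1) * (1 / 81) ^ (K + 1) = (1 / 9) ^ (K + 1) := by
          rw [← mul_pow]
          norm_num
        calc ((Pool.Agent.H85.Gamma.bx (8 * (3 ^ (K + 1) * m)) \
              Pool.Agent.H85.Gamma.bx (8 * (3 ^ K * m))).card : ℝ) * (C ^ 2 * π ^ 2 * a)
            ≤ (10 ^ 7 * 9 ^ (K + 1) * m ^ 2) * (C ^ 2 * π ^ 2 * a) := by gcongr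
          _ = 1 / 10 * 9 ^ (K + 1) * (10 ^ 8 * a) * C ^ 2 * m ^ 2 * π ^ 2 := by ring
          _ ≤ 1 / 10 * 9 ^ (K + 1) * (1 / 81) ^ (K + 1) * C ^ 2 * m ^ 2 * π ^ 2 := by gcongr
          _ = 1 / 10 * (9 ^ (K + 1) * (1 / 81) ^ (K + 1)) * C ^ 2 * m ^ 2 * π ^ 2 := by ring
          _ = 1 / 10 * (1 / 9) ^ (K + 1) * C ^ 2 * m ^ 2 * π ^ 2 := by rw [h6]
          _ ≤ (8 / 9 * (1 / 9) ^ K) * C ^ 2 * m ^ 2 * π ^ 2 := by
              gcongr ?_ * _ * _ * _
              rw [pow_succ]
              have : (0 : ℝ) ≤ (1 / 9) ^ K := by positivity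
              nlinarith
      calc _ ≤ (8 / 9 * (1 / 9) ^ K) * C ^ 2 * m ^ 2 * π ^ 2 +
            (521 - (1 / 9) ^ K) * C ^ 2 * m ^ 2 * π ^ 2 := add_le_add h2 ih
        _ = _ := by rw [pow_succ]; ring
  rw [su_sigma, ENNReal.tsum_eq_iSup_sum]
  refine iSup_le fun F => ?_
  rw [← ENNReal.ofReal_sum_of_nonneg fun v _ => Pr_nonneg]
  apply ENNReal.ofReal_le_ofReal
  -- `F` is contained in a box
  obtain ⟨K, hK⟩ : ∃ K : ℕ, F ⊆ Pool.Agent.H85.Gamma.bx (8 * (3 ^ K * m)) := by
    refine ⟨F.sup Pool.Agent.H85.Gamma.nrm, fun v hv => ?_⟩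
    rw [su_nrm]
    have h1 : Pool.Agent.H85.Gamma.nrm v ≤ F.sup Pool.Agent.H85.Gamma.nrm := Finset.le_sup hv
    have h2 : F.sup Pool.Agent.H85.Gamma.nrm < 3 ^ (F.sup Pool.Agent.H85.Gamma.nrm) :=
      Nat.lt_pow_self (by norm_num)
    have h3 : 3 ^ (F.sup Pool.Agent.H85.Gamma.nrm) ≤
      3 ^ (F.sup Pool.Agent.H85.Gamma.nrm) * m := Nat.le_mul_of_pos_right _ hm
    omega
  calc ∑ v ∈ F, P v ≤ ∑ v ∈ Pool.Agent.H85.Gamma.bx (8 * (3 ^ K * m)), P v :=
        Finset.sum_le_sum_of_subset_of_nonneg hK fun v _ _ => hP0 v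
    _ ≤ (521 - (1 / 9) ^ K) * C ^ 2 * m ^ 2 * π ^ 2 := hall K
    _ ≤ 1000 * C ^ 2 * m ^ 2 * π ^ 2 := by
        gcongr
        have : (0 : ℝ) ≤ (1 / 9) ^ K := by positivity
        linarith

end Pool.Agent.H83.EX

end

section

/-! # Good scales: percolation probability and mean cluster size -/

open MeasureTheory ProbabilityTheory unitInterval
open scoped ENNReal

namespace Pool.Agent.H83.EX

open Pool.Agent.H89.Perc

/-- The square of side `4 m` is crossed with probability at least `1 - δ`. -/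
def Good (δ : ℝ) (p : I) (m : ℕ) : Prop := 1 - δ ≤ Pr p {ω | HCross ω 0 (4 * m) 0 (4 * m)}

/-- At a good scale the percolation probability is comparable to the one-arm probability and the
mean cluster size at the dual density is bounded. -/
theorem good_scale : ∃ δ > (0 : ℝ), ∃ c > (0 : ℝ), ∃ C > (0 : ℝ), ∀ p : I, half ≤ p → ∀ m : ℕ,
    1 ≤ m → Good δ p m → c * arm p m ≤ theta p ∧
      Pool.Agent.H85.Gamma.sigma (σ p) ≤ ENNReal.ofReal (C * (m : ℝ) ^ 2 * arm half m ^ 2) := by
  obtain ⟨ε₁, hε₁, c, hc, H1⟩ := Pool.Agent.H57.LF.fs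
  obtain ⟨ε₂, hε₂, C, hC, H2⟩ := sigma_upper
  obtain ⟨δ, hδ, H3⟩ := strong_rsw (min ε₁ (ε₂ / 4)) (lt_min hε₁ (by positivity))
  refine ⟨δ, hδ, c, hc, C, hC, fun p hp m hm h => ?_⟩
  have h1 := H3 p hp m hm h
  have h2 : Pr p {ω | HCross ω 0 (16 * m) 0 (5 * m)} ≤
      Pr p {ω | HCross ω m (16 * m) (-m) (4 * m)} := by
    have e := Pr_hcross_translate (p := p) (a := (0 : ℤ)) (b := 16 * (m : ℤ)) (c := 0)
      (d := 5 * (m : ℤ)) 0 (-(m : ℤ))
    rw [← e]
    refine Pr_mono ?_
    intro ω h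
    simp only [Set.mem_ofPred_eq] at h ⊢
    have hm' : (1 : ℤ) ≤ m := by exact_mod_cast hm
    exact HCross.mono h (by omega) (by omega) (by omega) (by omega) (by omega)
  have h3 := h1.trans h2
  refine ⟨H1 p hp m hm (le_trans (by linarith [min_le_left ε₁ (ε₂ / 4)]) h3), ?_⟩
  have h4 := Pool.Agent.H57.LF.fs_annulus (p := p) hm
  refine H2 (σ p) ?_ m hm (by linarith [min_le_right ε₁ (ε₂ / 4)])
  have h5 : (1 / 2 : ℝ) ≤ p := hp
  change (1 : ℝ) - p ≤ 1 / 2
  linarith

end Pool.Agent.H83.EX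

end

section

/-!
# A pivotal edge for the event `W0`
-/

open MeasureTheory ProbabilityTheory unitInterval

namespace Pool.Agent.H61.NC

open Pool.Agent.H89.Perc

private lemma armDet_per_shift {N : ℕ} (η : Config) (a b : ℤ) {u v : Vert}
    (h : Conn (per N η) Set.univ u v) :
    Conn (per N η) Set.univ (u.1 + a * N, u.2 + b * N) (v.1 + a * N, v.2 + b * N) := by
  have h1 := conn_shift (ω := per N η) (a * N, b * N) Set.univ u v
  have h2 : (fun e => per N η (shiftE (a * N, b * N) e)) = per N η := by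
    funext e
    simp only [per, shiftE]
    rw [Int.add_mul_emod_self_right, Int.add_mul_emod_self_right]
  rw [h2] at h1
  exact (h1.1 h).mono_set (Set.subset_univ _)

/-- Contraction of the translates of a small cluster. -/
private lemma armDet_core {N r : ℕ} (hN : 2 * r + 2 ≤ N) (x p q : Vert)
    (η0 η1 : Config)
    (hper : ∀ (a b : ℤ) (u v : Vert), Conn η0 Set.univ u v →
      Conn η0 Set.univ (u.1 + a * N, u.2 + b * N) (v.1 + a * N, v.2 + b * N))
    (hstep : ∀ v v' : Vert, Step η1 Set.univ v v' → Step η0 Set.univ v v' ∨ ∃ a b : ℤ,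
      (v = (p.1 + a * N, p.2 + b * N) ∧ v' = (q.1 + a * N, q.2 + b * N)) ∨
      (v = (q.1 + a * N, q.2 + b * N) ∧ v' = (p.1 + a * N, p.2 + b * N)))
    (hq : |q.1 - x.1| ≤ 1 ∧ |q.2 - x.2| ≤ 1) (hpq : ¬ Conn η0 Set.univ p q)
    (hC : ∀ v : Vert, Conn η0 Set.univ p v → |v.1 - x.1| ≤ r ∧ |v.2 - x.2| ≤ r)
    (u : Vert) (hu : ∀ a b : ℤ, ¬ Conn η0 Set.univ p (u.1 - a * N, u.2 - b * N))
    (a b : ℤ) (h : Conn η1 Set.univ u (u.1 + a * N, u.2 + b * N)) :
    Conn η0 Set.univ u (u.1 + a * N, u.2 + b * N) := by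
  classical
  have hN' : (2 * r + 2 : ℤ) ≤ N := by exact_mod_cast hN
  -- membership in the translate of the cluster
  obtain ⟨Cl, hCl⟩ : ∃ Cl : ℤ → ℤ → Vert → Prop, ∀ a b v, Cl a b v ↔
      Conn η0 Set.univ p (v.1 - a * N, v.2 - b * N) := ⟨_, fun _ _ _ => Iff.rfl⟩
  have hmul : ∀ c : ℤ, |c * N| < N → c = 0 := by
    intro c hc
    by_contra h0
    have h1 : 1 ≤ |c| := Int.one_le_abs h0
    rw [abs_mul, abs_of_nonneg (by omega : (0 : ℤ) ≤ N)] at hc
    nlinarith
  have huniq : ∀ a b a' b' v, Cl a b v → Cl a' b' v → a = a' ∧ b = b' := by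
    intro a b a' b' v h1 h2
    have h3 := hC _ ((hCl _ _ _).1 h1)
    have h4 := hC _ ((hCl _ _ _).1 h2)
    simp only at h3 h4
    have h5 : a - a' = 0 := by
      apply hmul
      have e1 : (a - a') * N = (v.1 - a' * N - x.1) - (v.1 - a * N - x.1) := by ring
      rw [e1]
      have := abs_sub (v.1 - a' * N - x.1) (v.1 - a * N - x.1)
      omega
    have h6 : b - b' = 0 := by
      apply hmul
      have e1 : (b - b') * N = (v.2 - b' * N - x.2) - (v.2 - b * N - x.2) := by ring
      rw [e1]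
      have := abs_sub (v.2 - b' * N - x.2) (v.2 - b * N - x.2)
      omega
    exact ⟨by omega, by omega⟩
  have hshift : ∀ a b c d v, Cl a b v → Cl (a + c) (b + d) (v.1 + c * N, v.2 + d * N) := by
    intro a b c d v h1
    rw [hCl] at h1 ⊢
    have e1 : ((v.1 + c * N - (a + c) * N, v.2 + d * N - (b + d) * N) : Vert) =
        (v.1 - a * N, v.2 - b * N) := by
      ext <;> (simp only; ring)
    simp only at e1 ⊢
    rw [e1]
    exact h1
  have hqC : ∀ a b c d, ¬ Cl a b (q.1 + c * N, q.2 + d * N) := by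
    intro a b c d h1
    rw [hCl] at h1
    have h3 := hC _ h1
    simp only at h3
    have h5 : c - a = 0 := by
      apply hmul
      have e1 : (c - a) * N = (q.1 + c * N - a * N - x.1) - (q.1 - x.1) := by ring
      rw [e1]
      have := abs_sub (q.1 + c * N - a * N - x.1) (q.1 - x.1)
      omega
    have h6 : d - b = 0 := by
      apply hmul
      have e1 : (d - b) * N = (q.2 + d * N - b * N - x.2) - (q.2 - x.2) := by ring
      rw [e1]
      have := abs_sub (q.2 + d * N - b * N - x.2) (q.2 - x.2)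
      omega
    have h7 : c = a := by omega
    have h8 : d = b := by omega
    subst h7 h8
    apply hpq
    have e1 : ((q.1 + c * N - c * N, q.2 + d * N - d * N) : Vert) = q := by
      ext <;> (simp only; ring)
    simp only at h1
    rw [e1] at h1
    exact h1
  have hpC : ∀ c d, Cl c d (p.1 + c * N, p.2 + d * N) := by
    intro c d
    rw [hCl]
    have e1 : ((p.1 + c * N - c * N, p.2 + d * N - d * N) : Vert) = p := by
      ext <;> (simp only; ring)
    simp only
    rw [e1]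
    exact Conn.refl (Set.mem_univ _)
  -- closure under steps
  have hclose : ∀ a b v v', Step η0 Set.univ v v' → Cl a b v → Cl a b v' := by
    intro a b v v' h1 h2
    rw [hCl] at h2 ⊢
    have h3 := hper (-a) (-b) v v' h1.conn
    have e1 : ∀ w : Vert, ((w.1 + -a * N, w.2 + -b * N) : Vert) = (w.1 - a * N, w.2 - b * N) := by
      intro w
      ext <;> (simp only; ring)
    rw [e1, e1] at h3
    exact h2.trans h3
  obtain ⟨g, hg⟩ : ∃ g : Vert → Vert, g = fun v => if h : ∃ c : ℤ × ℤ, Cl c.1 c.2 v then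
      (q.1 + h.choose.1 * N, q.2 + h.choose.2 * N) else v := ⟨_, rfl⟩
  have hg1 : ∀ a b v, Cl a b v → g v = (q.1 + a * N, q.2 + b * N) := by
    intro a b v h1
    have h2 : ∃ c : ℤ × ℤ, Cl c.1 c.2 v := ⟨(a, b), h1⟩
    rw [hg]
    simp only
    rw [dif_pos h2]
    obtain ⟨h3, h4⟩ := huniq _ _ _ _ v h2.choose_spec h1
    rw [h3, h4]
  have hg2 : ∀ v, (∀ a b, ¬ Cl a b v) → g v = v := by
    intro v h1
    have h2 : ¬ ∃ c : ℤ × ℤ, Cl c.1 c.2 v := by
      rintro ⟨c, hc⟩
      exact h1 _ _ hc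
    rw [hg]
    simp only
    rw [dif_neg h2]
  have hg3 : ∀ v c d, g (v.1 + c * N, v.2 + d * N) = ((g v).1 + c * N, (g v).2 + d * N) := by
    intro v c d
    by_cases h1 : ∃ c : ℤ × ℤ, Cl c.1 c.2 v
    · obtain ⟨k, hk⟩ := h1
      rw [hg1 _ _ v hk, hg1 _ _ _ (hshift k.1 k.2 c d v hk)]
      ext <;> (simp only; ring)
    · have h2 : ∀ a b, ¬ Cl a b v := fun a b h => h1 ⟨(a, b), h⟩
      rw [hg2 v h2, hg2]
      intro a b h3
      have h4 := hshift a b (-c) (-d) _ h3
      have e1 : (((v.1 + c * N) + -c * N, (v.2 + d * N) + -d * N) : Vert) = v := by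
        ext <;> (simp only; ring)
      simp only at h4
      rw [e1] at h4
      exact h2 _ _ h4
  have hgu : g u = u := hg2 u fun a b hcl => hu a b ((hCl _ _ _).1 hcl)
  suffices hsuf : Conn η0 Set.univ (g u) (g (u.1 + a * N, u.2 + b * N)) by
    rw [hg3, hgu] at hsuf
    exact hsuf
  refine h.induction_right (P := fun v => Conn η0 Set.univ (g u) (g v))
    (Conn.refl (Set.mem_univ _)) ?_
  intro v v' _ hvv hv
  rcases hstep v v' hvv with h1 | ⟨c, d, h1 | h1⟩
  · by_cases h2 : ∃ c : ℤ × ℤ, Cl c.1 c.2 v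
    · obtain ⟨k, hk⟩ := h2
      rw [hg1 _ _ v hk] at hv
      rw [hg1 _ _ v' (hclose _ _ _ _ h1 hk)]
      exact hv
    · have h3 : ∀ a b, ¬ Cl a b v := fun a b h => h2 ⟨(a, b), h⟩
      have h4 : ∀ a b, ¬ Cl a b v' := fun a b h => h3 a b (hclose _ _ _ _ h1.symm h)
      rw [hg2 v h3] at hv
      rw [hg2 v' h4]
      exact hv.tail h1
  · obtain ⟨h2, h3⟩ := h1
    rw [h2, hg1 _ _ _ (hpC c d)] at hv
    rw [h3, hg2 _ fun a b => hqC a b c d]
    exact hv
  · obtain ⟨h2, h3⟩ := h1
    rw [h2, hg2 _ fun a b => hqC a b c d] at hv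
    rw [h3, hg1 _ _ _ (hpC c d)]
    exact hv

/-- Translates of the middle vertex are far from the edge. -/
private lemma armDet_far {N : ℕ} {e : Edge} (he : e ∈ tEdges N) {r : ℕ} (hN : 2 * r + 2 ≤ N)
    (hd : r < dist0 N e) (a b : ℤ) :
    ¬ (|(m0 N).1 - a * N - e.1| ≤ r ∧ |(m0 N).2 - b * N - e.2.1| ≤ r) := by
  have hte : 0 ≤ e.1 ∧ e.1 < N ∧ 0 ≤ e.2.1 ∧ e.2.1 < N := by
    simp only [tEdges, Finset.mem_product, Finset.mem_Ico, Finset.mem_univ, and_true] at he
    tauto
  have hN' : (2 * r + 2 : ℤ) ≤ N := by exact_mod_cast hN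
  have key : ∀ a x : ℤ, 0 ≤ x → x < N → |(m0 N).1 - a * N - x| ≤ r → a = 0 := by
    intro a x hx1 hx2 hx
    by_contra h0
    rw [abs_le] at hx
    simp only [m0, mid] at hx
    rcases lt_or_gt_of_ne h0 with h1 | h1
    · have : a * N ≤ -1 * N := mul_le_mul_of_nonneg_right (by omega) (by omega)
      omega
    · have : 1 * N ≤ a * N := mul_le_mul_of_nonneg_right (by omega) (by omega)
      omega
  rintro ⟨h1, h2⟩
  have ha := key a e.1 hte.1 hte.2.1 h1
  have hb := key b e.2.1 hte.2.2.1 hte.2.2.2 h2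
  subst ha hb
  rw [abs_le] at h1 h2
  simp only [m0] at h1 h2
  unfold dist0 at hd
  omega

/-- If the edge `e` is pivotal for `W0` and is at distance more than `r` from the middle vertex then
the four-arm event of `e` occurs. -/
theorem A4T_of_pivot_W0 {N : ℕ} {e : Edge} (he : e ∈ tEdges N) {r : ℕ} (hr : 1 ≤ r)
    (hN : 2 * r + 2 ≤ N) (hd : r < dist0 N e) {ω : Config}
    (h1 : Function.update ω e true ∈ W0 N)
    (h2 : Function.update ω e false ∉ W0 N) : ω ∈ A4T N e r := by
  have hN' : (2 * r + 2 : ℤ) ≤ N := by exact_mod_cast hN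
  have hte : 0 ≤ e.1 ∧ e.1 < N ∧ 0 ≤ e.2.1 ∧ e.2.1 < N := by
    simp only [tEdges, Finset.mem_product, Finset.mem_Ico, Finset.mem_univ, and_true] at he
    tauto
  have hmod : modE N e = e := by
    obtain ⟨x, y, c⟩ := e
    simp only [modE]
    simp only at hte
    rw [Int.emod_eq_of_lt hte.1 hte.2.1, Int.emod_eq_of_lt hte.2.2.1 hte.2.2.2]
  obtain ⟨η0, hη0⟩ : ∃ η0, η0 = per N (Function.update ω e false) := ⟨_, rfl⟩
  obtain ⟨η1, hη1⟩ : ∃ η1, η1 = per N (Function.update ω e true) := ⟨_, rfl⟩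
  -- edges which are translates of `e`
  have htr : ∀ f : Edge, modE N f = e → ∃ a b : ℤ, f = shiftE (a * N, b * N) e := by
    intro f hf
    refine ⟨f.1 / N, f.2.1 / N, ?_⟩
    rw [← hf]
    obtain ⟨x, y, c⟩ := f
    simp only [modE, shiftE]
    rw [Int.emod_add_ediv_mul, Int.emod_add_ediv_mul]
  have hη0f : ∀ f : Edge, η0 f = if modE N f = e then false else per N ω f := by
    intro f
    rw [hη0]
    unfold per
    rw [Function.update_apply]
    rfl
  have hη1f : ∀ f : Edge, η1 f = if modE N f = e then true else per N ω f := by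
    intro f
    rw [hη1]
    unfold per
    rw [Function.update_apply]
    rfl
  have hper : ∀ (a b : ℤ) (u v : Vert), Conn η0 Set.univ u v →
      Conn η0 Set.univ (u.1 + a * N, u.2 + b * N) (v.1 + a * N, v.2 + b * N) := by
    intro a b u v h
    rw [hη0] at h ⊢
    exact armDet_per_shift _ a b h
  have hstep : ∀ v v' : Vert, Step η1 Set.univ v v' → Step η0 Set.univ v v' ∨ ∃ a b : ℤ,
      (v = ((src e).1 + a * N, (src e).2 + b * N) ∧ v' = ((tgt e).1 + a * N, (tgt e).2 + b * N)) ∨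
      (v = ((tgt e).1 + a * N, (tgt e).2 + b * N) ∧
        v' = ((src e).1 + a * N, (src e).2 + b * N)) := by
    rintro v v' ⟨-, -, f, hf, hfo⟩
    by_cases hfe : modE N f = e
    · right
      obtain ⟨a, b, hab⟩ := htr f hfe
      refine ⟨a, b, ?_⟩
      have h3 := joins_shift (a * N, b * N) (joins_src_tgt e)
      rw [← hab] at h3
      rcases hf with ⟨g1, g2⟩ | ⟨g1, g2⟩ <;> rcases h3 with ⟨g3, g4⟩ | ⟨g3, g4⟩
      · left
        exact ⟨g1.trans g3.symm, g2.trans g4.symm⟩
      · right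
        exact ⟨g1.trans g4.symm, g2.trans g3.symm⟩
      · right
        exact ⟨g1.trans g4.symm, g2.trans g3.symm⟩
      · left
        exact ⟨g1.trans g3.symm, g2.trans g4.symm⟩
    · left
      refine ⟨Set.mem_univ _, Set.mem_univ _, f, hf, ?_⟩
      rw [hη1f, if_neg hfe] at hfo
      rw [hη0f, if_neg hfe]
      exact hfo
  -- the configurations agree inside the ball
  have hball : ∀ f : Edge, src f ∈ ball (src e) r → tgt f ∈ ball (src e) r →
      close e (per N ω) f = η0 f := by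
    intro f hf _
    rw [hη0f]
    unfold close
    by_cases hfe : f = e
    · rw [hfe, Function.update_self, hmod, if_pos rfl]
    · rw [Function.update_of_ne hfe]
      have h3 : modE N f ≠ e := by
        intro h
        obtain ⟨a, b, hab⟩ := htr f h
        apply hfe
        rw [hab] at hf ⊢
        obtain ⟨x, y, c⟩ := e
        simp only [mem_ball, src, shiftE] at hf ⊢
        have ha : a = 0 := by
          by_contra h0
          rcases lt_or_gt_of_ne h0 with h0 | h0
          · have : a * N ≤ -1 * N := mul_le_mul_of_nonneg_right (by omega) (by omega)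
            omega
          · have : 1 * N ≤ a * N := mul_le_mul_of_nonneg_right (by omega) (by omega)
            omega
        have hb : b = 0 := by
          by_contra h0
          rcases lt_or_gt_of_ne h0 with h0 | h0
          · have : b * N ≤ -1 * N := mul_le_mul_of_nonneg_right (by omega) (by omega)
            omega
          · have : 1 * N ≤ b * N := mul_le_mul_of_nonneg_right (by omega) (by omega)
            omega
        rw [ha, hb]
        simp
      rw [if_neg h3]
  obtain ⟨a, b, ha, hu⟩ := h1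
  rw [← hη1] at hu
  have hnot : ¬ Conn η0 Set.univ (m0 N) ((m0 N).1 + a * N, (m0 N).2 + b * N) := by
    intro h
    rw [hη0] at h
    exact h2 ⟨a, b, ha, h⟩
  have hfar : ∀ a b : ℤ, ¬ (|(m0 N).1 - a * N - (src e).1| ≤ r ∧
      |(m0 N).2 - b * N - (src e).2| ≤ r) := by
    intro a b hab
    exact armDet_far he hN hd a b (by simpa [src] using hab)
  -- the two ends are not joined
  have hxy : ¬ Conn η0 Set.univ (src e) (tgt e) := by
    intro h
    apply hnot
    refine hu.induction_right (P := fun v => Conn η0 Set.univ (m0 N) v)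
      (Conn.refl (Set.mem_univ _)) ?_
    intro v v' _ hvv hv
    rcases hstep v v' hvv with h3 | ⟨c, d, h3 | h3⟩
    · exact hv.tail h3
    · rw [h3.1] at hv
      rw [h3.2]
      exact hv.trans (hper c d _ _ h)
    · rw [h3.1] at hv
      rw [h3.2]
      exact hv.trans (hper c d _ _ h.symm)
  have htgt : |(tgt e).1 - (src e).1| ≤ 1 ∧ |(tgt e).2 - (src e).2| ≤ 1 := by
    obtain ⟨x, y, c⟩ := e
    cases c
    · simp [src, tgt]
    · simp [src, tgt]
  have htb : tgt e ∈ ball (src e) r := by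
    have h3 := abs_le.1 htgt.1
    have h4 := abs_le.1 htgt.2
    rw [mem_ball]
    omega
  -- a point of the ball with no arm has a small cluster
  have hsmall : ∀ p : Vert, p ∈ ball (src e) r →
      (¬ ∃ u ∈ sphere (src e) r, Conn (close e (per N ω)) (ball (src e) r) p u) →
      ∀ v : Vert, Conn η0 Set.univ p v → |v.1 - (src e).1| ≤ r ∧ |v.2 - (src e).2| ≤ r := by
    intro p hp hno v hv
    by_contra hcon
    have h3 : v ∉ ball (src e) r := by
      intro h
      apply hcon
      rw [mem_ball] at h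
      rw [abs_le, abs_le]
      omega
    obtain ⟨w, hw, hc⟩ := hv.to_sphere hp (Or.inl h3)
    apply hno
    refine ⟨w, hw, ?_⟩
    have h4 := hc.mono_set (T := ball (src e) r) Set.inter_subset_right
    exact h4.congr fun f hf1 hf2 => (hball f hf1 hf2).symm
  refine ⟨?_, ?_, ?_⟩
  · by_contra hno
    have hs := hsmall (src e) self_mem_ball hno
    exact hnot (armDet_core hN (src e) (src e) (tgt e) η0 η1 hper hstep htgt hxy hs
      (m0 N) (fun a b h => hfar a b (hs _ h)) a b hu)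
  · by_contra hno
    have hs := hsmall (tgt e) htb hno
    exact hnot (armDet_core hN (src e) (tgt e) (src e) η0 η1 hper
      (fun v v' h => by
        rcases hstep v v' h with h3 | ⟨c, d, h3 | h3⟩
        · exact Or.inl h3
        · exact Or.inr ⟨c, d, Or.inr h3⟩
        · exact Or.inr ⟨c, d, Or.inl h3⟩)
      (by simp) (fun h => hxy h.symm) hs
      (m0 N) (fun a b h => hfar a b (hs _ h)) a b hu)
  · intro h
    exact hxy ((h.congr hball).mono_set (Set.subset_univ _))

/-- The cluster of the middle vertex reaches distance `r`. -/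
theorem ArmT_of_pivot_W0 {N : ℕ} {e : Edge} (he : e ∈ tEdges N) {r : ℕ}
    (hN : 2 * r + 2 ≤ N) (hd : r < dist0 N e) {ω : Config}
    (h1 : Function.update ω e true ∈ W0 N) : ω ∈ ArmT N r := by
  have hN' : (2 * r + 2 : ℤ) ≤ N := by exact_mod_cast hN
  obtain ⟨a, b, ha, hu⟩ := h1
  have h2 : per N (Function.update ω e true) ∈ Arm (m0 N) r := by
    refine hu.mem_arm (Or.inl ?_)
    have h3 : 1 ≤ |a| := Int.one_le_abs ha
    have h4 : (m0 N).1 + a * N - (m0 N).1 = a * N := by ring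
    simp only
    rw [h4, abs_mul, abs_of_nonneg (by omega : (0 : ℤ) ≤ N)]
    nlinarith
  obtain ⟨u, hu1, hu2⟩ := h2
  refine ⟨u, hu1, hu2.congr ?_⟩
  intro f hf1 _
  unfold per
  have h3 : (f.1 % N, f.2.1 % N, f.2.2) ≠ e := by
    intro h
    have h4 : e.1 = f.1 % N := by rw [← h]
    have h5 : e.2.1 = f.2.1 % N := by rw [← h]
    have h6 := Int.emod_add_ediv_mul f.1 N
    have h7 := Int.emod_add_ediv_mul f.2.1 N
    rw [← h4] at h6
    rw [← h5] at h7
    refine armDet_far he hN hd (f.1 / N) (f.2.1 / N) ?_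
    rw [mem_ball] at hf1
    simp only [src] at hf1
    obtain ⟨p, hp⟩ : ∃ p, p = f.1 / N * N := ⟨_, rfl⟩
    obtain ⟨p', hp'⟩ : ∃ p', p' = f.2.1 / N * N := ⟨_, rfl⟩
    rw [← hp] at h6
    rw [← hp'] at h7
    rw [← hp, ← hp', abs_le, abs_le]
    omega
  rw [Function.update_of_ne h3]

theorem mem_blk_iff {N R : ℕ} {f : Edge} : f ∈ blk N R ↔ dist0 N f ≤ R := by
  unfold blk dist0
  rw [mem_eRect]
  simp only [src, rect, Set.mem_ofPred_eq]
  omega

theorem OutArm_of_pivot_W0 {N R : ℕ} {e : Edge} (he : dist0 N e ≤ R) {ω : Config}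
    (h1 : Function.update ω e true ∈ W0 N) : ω ∈ OutArm N R := by
  classical
  refine incr_W0 N _ _ (fun f hf => ?_) h1
  unfold fill
  by_cases h2 : f ∈ blk N R
  · simp only [h2, if_true]
  · simp only [h2, if_false]
    rwa [Function.update_of_ne] at hf
    rintro rfl
    exact h2 (mem_blk_iff.2 he)

/-- The influence of an edge is bounded by the probability of any event which contains the
pivotality of the edge. -/
theorem pivot_le_of {q : I} {s : Finset Edge} {A E : Set Config} (hA : LocalOn s A) (iA : Incr A)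
    (e : Edge) (h : ∀ ω, Function.update ω e true ∈ A → Function.update ω e false ∉ A → ω ∈ E) :
    pivot q A e ≤ Pr q E := by
  have l1 : MeasurableSet {ω : Config | Function.update ω e false ∈ A} :=
    (hA.update e false).measurableSet
  have hsub : {ω : Config | Function.update ω e false ∈ A} ⊆
      {ω : Config | Function.update ω e true ∈ A} := by
    intro ω hω
    refine iA _ _ (fun x hx => ?_) hω
    by_cases hxe : x = e
    · subst hxe; simp
    · rw [Function.update_of_ne hxe] at hx ⊢; exact hx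
  have e1 : Pr q ({ω : Config | Function.update ω e true ∈ A} \
      {ω : Config | Function.update ω e false ∈ A}) = pivot q A e :=
    measureReal_sdiff hsub l1
  rw [← e1]
  exact Pr_mono fun ω hω => h ω hω.1 hω.2

theorem dist0_le_half {N : ℕ} {f : Edge} (hf : f ∈ tEdges N) : 2 * dist0 N f ≤ N := by
  simp only [tEdges, Finset.mem_product, Finset.mem_Ico, Finset.mem_univ, and_true] at hf
  unfold dist0 mid
  omega

private lemma armDet_localArm (N r : ℕ) :
    LocalOn ((eRect ((m0 N).1 - r) ((m0 N).1 + r) ((m0 N).2 - r) ((m0 N).2 + r)).image (modE N))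
      (ArmT N r) := by
  intro ω ω' h hω
  refine localOn_arm (m0 N) r _ _ (fun e he => ?_) hω
  exact h _ (Finset.mem_image_of_mem (modE N) he)

private lemma armDet_modE {N R : ℕ} (hR : 2 * R + 2 ≤ N) {f : Edge} (hf : dist0 N f ≤ R) :
    modE N f = f := by
  obtain ⟨x, y, d⟩ := f
  unfold dist0 mid at hf
  simp only [modE]
  simp only at hf
  rw [Int.emod_eq_of_lt (by omega) (by omega), Int.emod_eq_of_lt (by omega) (by omega)]

private lemma armDet_disj {N ρ ρ' : ℕ} {f : Edge} (hf : f ∈ tEdges N) (h2 : ρ + ρ' < dist0 N f) :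
    Disjoint ((eRect (f.1 - ρ) (f.1 + ρ) (f.2.1 - ρ) (f.2.1 + ρ)).image (modE N))
      ((eRect ((m0 N).1 - ρ') ((m0 N).1 + ρ') ((m0 N).2 - ρ') ((m0 N).2 + ρ')).image
        (modE N)) := by
  rw [Finset.disjoint_left]
  intro g hg hg'
  rw [Finset.mem_image] at hg hg'
  obtain ⟨e, he, heg⟩ := hg
  obtain ⟨e', he', heg'⟩ := hg'
  have hd := dist0_le_half hf
  rw [mem_eRect] at he he'
  simp only [src, rect, Set.mem_ofPred_eq] at he he'
  rw [← heg'] at heg
  simp only [modE, Prod.mk.injEq] at heg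
  obtain ⟨k1, k2, -⟩ := heg
  have hte : 0 ≤ f.1 ∧ f.1 < N ∧ 0 ≤ f.2.1 ∧ f.2.1 < N := by
    simp only [tEdges, Finset.mem_product, Finset.mem_Ico, Finset.mem_univ, and_true] at hf
    tauto
  have key : ∀ x x' y : ℤ, x % N = x' % N → 0 ≤ y → y < N → y - ρ ≤ x → x ≤ y + ρ →
      (m0 N).1 - ρ' ≤ x' → x' ≤ (m0 N).1 + ρ' → x = x' := by
    intro x x' y h1 h3 h4 h5 h6 h7 h8
    have h9 : (N : ℤ) ∣ x - x' := Int.ModEq.dvd (show x' ≡ x [ZMOD N] from h1.symm)
    have h10 : |x - x'| < N := by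
      rw [abs_lt]
      simp only [m0, mid] at h7 h8
      constructor <;> omega
    have h11 := Int.eq_zero_of_abs_lt_dvd h9 h10
    omega
  have e1 := key e.1 e'.1 f.1 k1 hte.1 hte.2.1 he.1 he.2.1 he'.1 he'.2.1
  have e2 := key e.2.1 e'.2.1 f.2.1 k2 hte.2.2.1 hte.2.2.2 he.2.2.1 he.2.2.2 he'.2.2.1 he'.2.2.2
  simp only [m0] at he'
  unfold dist0 at h2
  omega

/-- Influence of an edge which is close to the middle, compared with the size of the torus. -/
theorem pivot_W0_near (q : I) {N ρ ρ' R : ℕ} {f : Edge} (hf : f ∈ tEdges N) (h1 : 1 ≤ ρ)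
    (h2 : ρ + ρ' < dist0 N f) (h3 : dist0 N f + ρ ≤ R) (h4 : 2 * R + 2 ≤ N) :
    pivot q (W0 N) f ≤ a4 q ρ * (arm q ρ' * Pr q (OutArm N R)) := by
  classical
  have hN : 1 ≤ N := by omega
  have hle : pivot q (W0 N) f ≤ Pr q (A4T N f ρ ∩ (ArmT N ρ' ∩ OutArm N R)) := by
    refine pivot_le_of (localOn_W0 hN) (incr_W0 N) f fun ω g1 g2 => ⟨?_, ?_, ?_⟩
    · exact A4T_of_pivot_W0 hf h1 (by omega) (by omega) g1 g2
    · exact ArmT_of_pivot_W0 hf (by omega) (by omega) g1
    · exact OutArm_of_pivot_W0 (by omega) g1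
  have hd1 : Disjoint ((eRect ((m0 N).1 - ρ') ((m0 N).1 + ρ') ((m0 N).2 - ρ')
      ((m0 N).2 + ρ')).image (modE N)) (tEdges N \ blk N R) := by
    rw [Finset.disjoint_left]
    intro g hg hg'
    rw [Finset.mem_image] at hg
    obtain ⟨e, he, heg⟩ := hg
    have h5 : dist0 N e ≤ R := by
      rw [mem_eRect] at he
      simp only [src, rect, Set.mem_ofPred_eq, m0] at he
      unfold dist0
      omega
    rw [armDet_modE h4 h5] at heg
    rw [← heg] at hg'
    exact (Finset.mem_sdiff.1 hg').2 (mem_blk_iff.2 h5)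
  have hd2 : Disjoint ((eRect (f.1 - ρ) (f.1 + ρ) (f.2.1 - ρ) (f.2.1 + ρ)).image (modE N))
      (((eRect ((m0 N).1 - ρ') ((m0 N).1 + ρ') ((m0 N).2 - ρ') ((m0 N).2 + ρ')).image
        (modE N)) ∪ (tEdges N \ blk N R)) := by
    rw [Finset.disjoint_union_right]
    refine ⟨armDet_disj hf h2, ?_⟩
    rw [Finset.disjoint_left]
    intro g hg hg'
    rw [Finset.mem_image] at hg
    obtain ⟨e, he, heg⟩ := hg
    have h5 : dist0 N e ≤ R := by
      rw [mem_eRect] at he
      simp only [src, rect, Set.mem_ofPred_eq] at he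
      unfold dist0 at h3 ⊢
      omega
    rw [armDet_modE h4 h5] at heg
    rw [← heg] at hg'
    exact (Finset.mem_sdiff.1 hg').2 (mem_blk_iff.2 h5)
  refine hle.trans (le_of_eq ?_)
  rw [Pr_inter_of_disjoint (localOn_A4T N f ρ)
    ((armDet_localArm N ρ').inter' (localOn_OutArm hN R)) hd2,
    Pr_inter_of_disjoint (armDet_localArm N ρ') (localOn_OutArm hN R) hd1,
    Pr_A4T q hf (by omega), Pr_ArmT (by omega)]

theorem pivot_W0_far (q : I) {N ρ ρ' : ℕ} {f : Edge} (hf : f ∈ tEdges N) (h1 : 1 ≤ ρ)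
    (h2 : ρ + ρ' < dist0 N f) : pivot q (W0 N) f ≤ a4 q ρ * arm q ρ' := by
  classical
  have hd := dist0_le_half hf
  have hN : 1 ≤ N := by omega
  have hle : pivot q (W0 N) f ≤ Pr q (A4T N f ρ ∩ ArmT N ρ') := by
    refine pivot_le_of (localOn_W0 hN) (incr_W0 N) f fun ω g1 g2 => ⟨?_, ?_⟩
    · exact A4T_of_pivot_W0 hf h1 (by omega) (by omega) g1 g2
    · exact ArmT_of_pivot_W0 hf (by omega) (by omega) g1
  refine hle.trans (le_of_eq ?_)
  rw [Pr_inter_of_disjoint (localOn_A4T N f ρ) (armDet_localArm N ρ') (armDet_disj hf h2),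
    Pr_A4T q hf (by omega), Pr_ArmT (by omega)]

/-- Finite energy bound for the influence. -/
theorem pivot_W0_small {q : I} {N : ℕ} (hN : 1 ≤ N) (h1 : 1 / 4 ≤ (q : ℝ)) (f : Edge) :
    pivot q (W0 N) f ≤ 4 * Pr q (W0 N) := by
  have h2 := Pr_eq_update (p := q) (localOn_W0 hN) f
  have h3 : 0 ≤ Pr q {ω | Function.update ω f true ∈ W0 N} := Pr_nonneg
  have h4 : 0 ≤ Pr q {ω | Function.update ω f false ∈ W0 N} := Pr_nonneg
  have h5 : 0 ≤ 1 - (q : ℝ) := by linarith [q.2.2]
  unfold pivot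
  nlinarith [mul_nonneg h5 h4, mul_nonneg (sub_nonneg.2 h1) h3]

end Pool.Agent.H61.NC

end

section

/-!
# Extension of one-arm events in the box-crossing regime
-/

open MeasureTheory ProbabilityTheory unitInterval

namespace Pool.Agent.H61.NC

open Pool.Agent.H89.Perc Pool.Agent.H85.Strict

variable {q : I}

/-! ### Finite energy -/

/-- The first `n` edges of the positive axis are open. -/
def lineE (n : ℕ) : Set Config := {ω | ∀ i : ℕ, i < n → ω ((i : ℤ), 0, false) = true}

theorem incr_lineE (n : ℕ) : Incr (lineE n) := fun _ _ h hω i hi => h _ (hω i hi)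

theorem localOn_lineE (n : ℕ) : LocalOn (eRect 0 n 0 0) (lineE n) := by
  intro ω ω' h hω i hi
  rw [← h _ (mem_eRect.2 ?_)]
  · exact hω i hi
  · simp only [src, rect, Set.mem_ofPred_eq]
    omega

theorem Pr_open_ge (e : Edge) : (q : ℝ) ≤ Pr q {ω | ω e = true} := by
  classical
  have hloc : LocalOn {e} {ω : Config | ω e = true} := by
    intro ω ω' h hA
    have : ω e = ω' e := h e (by simp)
    simp only [Set.mem_ofPred_eq] at hA ⊢
    rw [← this]
    exact hA
  rw [Pr_eq_update hloc e]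
  have h1 : {ω : Config | Function.update ω e true ∈ {ω : Config | ω e = true}} = Set.univ := by
    ext ω
    simp
  rw [h1, Pr_univ]
  have h3 : 0 ≤ Pr q {ω : Config | Function.update ω e false ∈ {ω : Config | ω e = true}} :=
    Pr_nonneg
  have h4 : 0 ≤ 1 - (q : ℝ) := by linarith [q.2.2]
  nlinarith [mul_nonneg h4 h3]

theorem Pr_lineE (n : ℕ) : (q : ℝ) ^ n ≤ Pr q (lineE n) := by
  classical
  induction n with
  | zero =>
    have : lineE 0 = Set.univ := by
      ext ω
      simp [lineE]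
    rw [this, Pr_univ, pow_zero]
  | succ n ih =>
    have hloc : LocalOn {((n : ℤ), 0, false)} {ω : Config | ω ((n : ℤ), 0, false) = true} := by
      intro ω ω' h hA
      have : ω ((n : ℤ), 0, false) = ω' ((n : ℤ), 0, false) := h _ (by simp)
      simp only [Set.mem_ofPred_eq] at hA ⊢
      rw [← this]
      exact hA
    have h1 := fkg_step (localOn_lineE n) hloc (incr_lineE n)
      (fun ω ω' h hω => h _ hω) q.2.1 ih (Pr_open_ge _)
    rw [pow_succ]
    refine h1.trans (Pr_mono ?_)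
    rintro ω ⟨h2, h3⟩ i hi
    rcases Nat.lt_succ_iff_lt_or_eq.1 hi with h4 | h4
    · exact h2 i h4
    · subst h4
      exact h3

theorem lineE_arm (n : ℕ) : lineE n ⊆ Arm 0 n := by
  intro ω hω
  have key : ∀ j : ℕ, j ≤ n → Conn ω Set.univ 0 ((j : ℤ), 0) := by
    intro j
    induction j with
    | zero => exact fun _ => Conn.refl (Set.mem_univ _)
    | succ j ih =>
      intro hj
      refine (ih (by omega)).tail ⟨Set.mem_univ _, Set.mem_univ _, ((j : ℤ), 0, false), ?_,
        hω j (by omega)⟩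
      left
      simp [src, tgt]
  refine (key n le_rfl).mem_arm (Or.inl ?_)
  simp

/-- Finite energy bound for the one-arm probability. -/
theorem arm_ge_pow (h : 1 / 4 ≤ (q : ℝ)) {n k : ℕ} (hn : n ≤ k) : (1 / 4 : ℝ) ^ k ≤ arm q n := by
  calc (1 / 4 : ℝ) ^ k ≤ (1 / 4 : ℝ) ^ n :=
        pow_le_pow_of_le_one (by norm_num) (by norm_num) hn
    _ ≤ (q : ℝ) ^ n := pow_le_pow_left₀ (by norm_num) h n
    _ ≤ Pr q (lineE n) := Pr_lineE n
    _ ≤ arm q n := Pr_mono (lineE_arm n)

/-! ### One step of the extension -/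

theorem arm_step_det {ω : Config} {m : ℕ} (h1 : ω ∈ Arm 0 (2 * m)) (h2 : CircE ω 0 m (2 * m))
    (h3 : HCross ω 0 (4 * m) 0 m) : ω ∈ Arm 0 (4 * m) := by
  obtain ⟨k, -, j1, j2, -⟩ := circ_join (by omega) h2
  obtain ⟨u, hu, hc⟩ := h1
  obtain ⟨x, y, hx, hy, hxy⟩ := h3
  have g1 := j1 0 u self_mem_ball (Or.inr hu) (hc.mono_set (Set.subset_univ _))
  have g2 := j2 x y (by simp only [Prod.fst_zero]; omega)
    (by simp only [Prod.fst_zero]; push_cast; omega) (hxy.mono_set (by
      intro w hw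
      simp only [rect, Set.mem_ofPred_eq] at hw
      simp only [Set.mem_ofPred_eq, Prod.snd_zero]
      push_cast
      omega))
  have g3 : Conn ω Set.univ 0 y :=
    (g1.symm.trans g2).trans (hxy.mono_set (Set.subset_univ _))
  refine g3.mem_arm (Or.inl ?_)
  rw [hy]
  simp only [Prod.fst_zero, sub_zero]
  push_cast
  exact le_abs_self _

theorem arm_step {c : ℝ} (hc : 0 ≤ c) {N m : ℕ} (hR : RSWreg c N q) (h1 : 1 ≤ m) (h2 : m ≤ N) :
    arm q (2 * m) * c ^ 5 ≤ arm q (4 * m) := by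
  classical
  have k1 := reg_hcross hR h1 h2 (x := (0 : Vert).1 - (2 * m : ℕ))
    (y := (0 : Vert).1 + (2 * m : ℕ)) (z := (0 : Vert).2 + m) (t := (0 : Vert).2 + (2 * m : ℕ))
    (by omega) (by omega) (by omega)
  have k2 := reg_hcross hR h1 h2 (x := (0 : Vert).1 - (2 * m : ℕ))
    (y := (0 : Vert).1 + (2 * m : ℕ)) (z := (0 : Vert).2 - (2 * m : ℕ)) (t := (0 : Vert).2 - m)
    (by omega) (by omega) (by omega)
  have k3 := reg_vcross hR h1 h2 (x := (0 : Vert).1 + m) (y := (0 : Vert).1 + (2 * m : ℕ))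
    (z := (0 : Vert).2 - (2 * m : ℕ)) (t := (0 : Vert).2 + (2 * m : ℕ))
    (by omega) (by omega) (by omega)
  have k4 := reg_vcross hR h1 h2 (x := (0 : Vert).1 - (2 * m : ℕ)) (y := (0 : Vert).1 - m)
    (z := (0 : Vert).2 - (2 * m : ℕ)) (t := (0 : Vert).2 + (2 * m : ℕ))
    (by omega) (by omega) (by omega)
  have k5 := (hR m h1 h2).1
  have l0 : arm q (2 * m) ≤ Pr q (Arm 0 (2 * m)) := le_rfl
  have l1 := fkg_step (localOn_arm 0 (2 * m)) (localOn_hcross _ _ _ _) (incr_arm _ _)
    (incr_hcross _ _ _ _) hc l0 k1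
  have l2 := fkg_step ((localOn_arm 0 (2 * m)).inter' (localOn_hcross _ _ _ _))
    (localOn_hcross _ _ _ _) ((incr_arm _ _).inter (incr_hcross _ _ _ _))
    (incr_hcross _ _ _ _) hc l1 k2
  have l3 := fkg_step (((localOn_arm 0 (2 * m)).inter' (localOn_hcross _ _ _ _)).inter'
    (localOn_hcross _ _ _ _)) (localOn_vcross _ _ _ _)
    (((incr_arm _ _).inter (incr_hcross _ _ _ _)).inter (incr_hcross _ _ _ _))
    (incr_vcross _ _ _ _) hc l2 k3
  have l4 := fkg_step ((((localOn_arm 0 (2 * m)).inter' (localOn_hcross _ _ _ _)).inter'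
    (localOn_hcross _ _ _ _)).inter' (localOn_vcross _ _ _ _)) (localOn_vcross _ _ _ _)
    ((((incr_arm _ _).inter (incr_hcross _ _ _ _)).inter (incr_hcross _ _ _ _)).inter
      (incr_vcross _ _ _ _)) (incr_vcross _ _ _ _) hc l3 k4
  have l5 := fkg_step (((((localOn_arm 0 (2 * m)).inter' (localOn_hcross _ _ _ _)).inter'
    (localOn_hcross _ _ _ _)).inter' (localOn_vcross _ _ _ _)).inter' (localOn_vcross _ _ _ _))
    (localOn_hcross _ _ _ _)
    (((((incr_arm _ _).inter (incr_hcross _ _ _ _)).inter (incr_hcross _ _ _ _)).inter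
      (incr_vcross _ _ _ _)).inter (incr_vcross _ _ _ _)) (incr_hcross _ _ _ _) hc l4 k5
  have e : arm q (2 * m) * c ^ 5 = arm q (2 * m) * c * c * c * c * c := by ring
  rw [e]
  refine l5.trans (Pr_mono ?_)
  rintro ω ⟨⟨⟨⟨⟨h0, h1⟩, h2⟩, h3⟩, h4⟩, h5⟩
  exact arm_step_det h0 ⟨⟨h1, h2⟩, h3, h4⟩ h5

theorem reg_le_one {c : ℝ} {N : ℕ} (hR : RSWreg c N q) (hN : 1 ≤ N) : c ≤ 1 :=
  (hR 1 le_rfl hN).1.trans Pr_le_one

/-- Iteration of the step. -/
theorem arm_iter {c : ℝ} (hc : 0 < c) {N : ℕ} (hN : 1 ≤ N) (hR : RSWreg c N q) (j : ℕ) :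
    ∀ r R : ℕ, 4 ≤ r → 2 ^ j * R ≤ 3 ^ j * r → R ≤ N → arm q r * c ^ (5 * j) ≤ arm q R := by
  have hc1 := reg_le_one hR hN
  have hpow : ∀ k : ℕ, c ^ k ≤ 1 := fun k => pow_le_one₀ hc.le hc1
  have htriv : ∀ r R k : ℕ, R ≤ r → arm q r * c ^ k ≤ arm q R := by
    intro r R k h
    calc arm q r * c ^ k ≤ arm q r * 1 := mul_le_mul_of_nonneg_left (hpow k) arm_nonneg
      _ = arm q r := mul_one _
      _ ≤ arm q R := arm_antitone h
  induction j with
  | zero =>
    intro r R _ h _
    simp only [pow_zero, one_mul] at h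
    exact htriv r R _ h
  | succ j ih =>
    intro r R hr h hRN
    by_cases hrR : R ≤ r
    · exact htriv r R _ hrR
    push Not at hrR
    have h1 : 2 ^ j * R ≤ 3 ^ j * (4 * (r / 2)) := by
      have h2 : 3 * r ≤ 2 * (4 * (r / 2)) := by omega
      have h3 : 3 ^ j * (3 * r) ≤ 3 ^ j * (2 * (4 * (r / 2))) := Nat.mul_le_mul_left _ h2
      have h4 : 2 * (2 ^ j * R) ≤ 2 * (3 ^ j * (4 * (r / 2))) := by
        calc 2 * (2 ^ j * R) = 2 ^ (j + 1) * R := by ring
          _ ≤ 3 ^ (j + 1) * r := h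
          _ = 3 ^ j * (3 * r) := by ring
          _ ≤ 3 ^ j * (2 * (4 * (r / 2))) := h3
          _ = 2 * (3 ^ j * (4 * (r / 2))) := by ring
      omega
    have h2 := ih (4 * (r / 2)) R (by omega) h1 hRN
    have h3 := arm_step hc.le hR (by omega : 1 ≤ r / 2) (by omega)
    have h4 : arm q r ≤ arm q (2 * (r / 2)) := arm_antitone (by omega)
    have h5 : 0 ≤ c ^ 5 := by positivity
    have h6 : 0 ≤ c ^ (5 * j) := by positivity
    calc arm q r * c ^ (5 * (j + 1)) = (arm q r * c ^ 5) * c ^ (5 * j) := by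
          rw [mul_add, pow_add, mul_one]; ring
      _ ≤ (arm q (2 * (r / 2)) * c ^ 5) * c ^ (5 * j) := by gcongr
      _ ≤ arm q (4 * (r / 2)) * c ^ (5 * j) := by gcongr
      _ ≤ arm q R := h2

/-- Extendability of one arm in the box-crossing regime. -/
theorem arm_ext_reg : ∀ c : ℝ, 0 < c → ∀ k : ℕ, ∃ C : ℝ, 0 < C ∧ ∀ (N : ℕ) (q : I) (r R : ℕ),
    RSWreg c N q → 1 / 4 ≤ (q : ℝ) → 1 ≤ r → R ≤ k * r → R ≤ N → arm q r ≤ C * arm q R := by
  intro c hc k
  obtain ⟨j, hj⟩ : ∃ j : ℕ, (k : ℝ) < (3 / 2 : ℝ) ^ j := pow_unbounded_of_one_lt _ (by norm_num)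
  refine ⟨c⁻¹ ^ (5 * j) + 4 ^ (4 * k), by positivity, ?_⟩
  intro N q r R hR hq hr hRk hRN
  have ha : 0 ≤ arm q R := arm_nonneg
  have hci : 0 ≤ c⁻¹ ^ (5 * j) := by positivity
  by_cases hN : N = 0
  · have hR0 : R = 0 := by omega
    rw [hR0, arm_zero, mul_one]
    have h1 : (1 : ℝ) ≤ 4 ^ (4 * k) := one_le_pow₀ (by norm_num)
    linarith [arm_le_one (p := q) (r := r)]
  by_cases hr4 : r < 4
  · have h1 : R ≤ 4 * k := by nlinarith
    have h2 := arm_ge_pow hq h1
    have h3 : 1 ≤ 4 ^ (4 * k) * arm q R := by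
      calc (1 : ℝ) = 4 ^ (4 * k) * (1 / 4 : ℝ) ^ (4 * k) := by
            rw [← mul_pow]; norm_num
        _ ≤ _ := mul_le_mul_of_nonneg_left h2 (by positivity)
    have h4 := arm_le_one (p := q) (r := r)
    have h5 := mul_nonneg hci ha
    rw [add_mul]
    linarith
  · push Not at hr4
    have h1 : 2 ^ j * R ≤ 3 ^ j * r := by
      have h2 : (R : ℝ) ≤ (3 / 2 : ℝ) ^ j * r := by
        calc (R : ℝ) ≤ k * r := by exact_mod_cast hRk
          _ ≤ _ := mul_le_mul_of_nonneg_right hj.le (Nat.cast_nonneg r)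
      have h3 : (2 : ℝ) ^ j * R ≤ 3 ^ j * r := by
        calc (2 : ℝ) ^ j * R ≤ 2 ^ j * ((3 / 2 : ℝ) ^ j * r) :=
              mul_le_mul_of_nonneg_left h2 (by positivity)
          _ = (2 * (3 / 2)) ^ j * r := by rw [mul_pow]; ring
          _ = 3 ^ j * r := by norm_num
      exact_mod_cast h3
    have h2 := arm_iter hc (by omega : 1 ≤ N) hR j r R hr4 h1 hRN
    have h3 : arm q r ≤ c⁻¹ ^ (5 * j) * arm q R := by
      rw [inv_pow, ← div_eq_inv_mul, le_div_iff₀ (by positivity)]
      exact h2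
    have h4 : 0 ≤ 4 ^ (4 * k) * arm q R := by positivity
    rw [add_mul]
    linarith

end Pool.Agent.H61.NC

end

section

/-!
# Gluing of the arm of the middle vertex and the outer event
-/

open MeasureTheory ProbabilityTheory unitInterval

namespace Pool.Agent.H61.NC

open Pool.Agent.H89.Perc

variable {q : I}

private lemma armGlue_shift {N : ℕ} (ω : Config) (a b : ℤ) {u v : Vert}
    (h : Conn (per N ω) Set.univ u v) :
    Conn (per N ω) Set.univ (u.1 + a * N, u.2 + b * N) (v.1 + a * N, v.2 + b * N) := by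
  have h1 := conn_shift (ω := per N ω) (a * N, b * N) Set.univ u v
  have h2 : (fun e => per N ω (shiftE (a * N, b * N) e)) = per N ω := by
    funext e
    simp only [per, shiftE]
    rw [Int.add_mul_emod_self_right, Int.add_mul_emod_self_right]
  rw [h2] at h1
  exact (h1.1 h).mono_set (Set.subset_univ _)

/-- A path which leaves the neighbourhood of a translate of the middle vertex is joined to this
translate. -/
private lemma armGlue_join {N m : ℕ} {ω : Config} (hA : ω ∈ ArmT N (2 * m))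
    (hC : CircE (per N ω) (m0 N) m (2 * m)) (a b : ℤ) {w u : Vert}
    (hw : w ∈ ball ((m0 N).1 + a * N, (m0 N).2 + b * N) m)
    (hu : u ∉ ball ((m0 N).1 + a * N, (m0 N).2 + b * N) (2 * m))
    (h : Conn (per N ω) Set.univ w u) :
    Conn (per N ω) Set.univ ((m0 N).1 + a * N, (m0 N).2 + b * N) w := by
  obtain ⟨k, -, j1, -, -⟩ := circ_join (by omega) hC
  obtain ⟨x, hx, hc⟩ := hA
  have g1 := j1 (m0 N) x self_mem_ball (Or.inr hx) (hc.mono_set (Set.subset_univ _))
  have h1 := armGlue_shift ω (-a) (-b) h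
  have g2 := j1 _ _ (by
    rw [mem_ball] at hw ⊢
    simp only at hw ⊢
    rw [neg_mul, neg_mul]
    omega) (Or.inl (by
    rw [mem_ball] at hu ⊢
    simp only at hu ⊢
    rw [neg_mul, neg_mul]
    omega)) h1
  have g3 := armGlue_shift ω a b (g1.symm.trans g2)
  have e1 : ((w.1 + -a * N + a * N, w.2 + -b * N + b * N) : Vert) = w := by
    ext <;> (simp only; ring)
  simp only at g3
  rw [e1] at g3
  exact g3

/-- Two different translates of the neighbourhood of the middle vertex are far from each other. -/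
private lemma armGlue_far {N m : ℕ} (hN : 4 * m < N) {z : Vert} {a b a' b' : ℤ} {v : Vert}
    (hne : ¬ (a = a' ∧ b = b')) (hv : v ∈ ball (z.1 + a' * N, z.2 + b' * N) m) :
    v ∉ ball (z.1 + a * N, z.2 + b * N) (2 * m) := by
  intro hv'
  rw [mem_ball] at hv hv'
  simp only at hv hv'
  push_cast at hv'
  have key : ∀ c c' x y : ℤ, y + c' * N - m ≤ x → x ≤ y + c' * N + m →
      y + c * N - 2 * m ≤ x → x ≤ y + c * N + 2 * m → c = c' := by
    intro c c' x y h1 h2 h3 h4
    by_contra h0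
    rcases lt_or_gt_of_ne h0 with h | h
    · have h5 : (c + 1) * N ≤ c' * N := mul_le_mul_of_nonneg_right (by omega) (by omega)
      rw [add_mul, one_mul] at h5
      omega
    · have h5 : (c' + 1) * N ≤ c * N := mul_le_mul_of_nonneg_right (by omega) (by omega)
      rw [add_mul, one_mul] at h5
      omega
  exact hne ⟨key a a' v.1 z.1 hv.1 hv.2.1 hv'.1 hv'.2.1,
    key b b' v.2 z.2 hv.2.2.1 hv.2.2.2 hv'.2.2.1 hv'.2.2.2⟩

theorem armGlue_det {N m R : ℕ} (hN : 4 * m < N) (hR : R + 1 ≤ m) {ω : Config}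
    (hA : ω ∈ ArmT N (2 * m)) (hC : CircE (per N ω) (m0 N) m (2 * m)) (hO : ω ∈ OutArm N R) :
    ω ∈ W0 N := by
  classical
  obtain ⟨a', b', ha', h⟩ := hO
  have hmain : ∃ a b : ℤ, Conn (per N ω) Set.univ (m0 N) ((m0 N).1 + a * N, (m0 N).2 + b * N) ∧
      ∃ w ∈ ball ((m0 N).1 + a * N, (m0 N).2 + b * N) m,
        Conn (per N ω) Set.univ w ((m0 N).1 + a' * N, (m0 N).2 + b' * N) := by
    refine h.induction_right (P := fun v => ∃ a b : ℤ,
      Conn (per N ω) Set.univ (m0 N) ((m0 N).1 + a * N, (m0 N).2 + b * N) ∧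
      ∃ w ∈ ball ((m0 N).1 + a * N, (m0 N).2 + b * N) m, Conn (per N ω) Set.univ w v) ?_ ?_
    · refine ⟨0, 0, ?_, m0 N, ?_, Conn.refl (Set.mem_univ _)⟩
      · simp only [zero_mul, add_zero]
        exact Conn.refl (Set.mem_univ _)
      · simp only [zero_mul, add_zero]
        exact self_mem_ball
    · rintro v v' _ ⟨-, -, f, hf, hfo⟩ ⟨a, b, h1, w, hw, h2⟩
      by_cases hfω : per N ω f = true
      · exact ⟨a, b, h1, w, hw, h2.tail ⟨Set.mem_univ _, Set.mem_univ _, f, hf, hfω⟩⟩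
      · -- the edge is a translate of an edge of the block
        have hfb : (f.1 % N, f.2.1 % N, f.2.2) ∈ blk N R := by
          by_contra hno
          apply hfω
          unfold per at hfo ⊢
          unfold fill at hfo
          simpa only [hno, if_false] using hfo
        obtain ⟨c, hc⟩ : ∃ c, c = f.1 / N := ⟨_, rfl⟩
        obtain ⟨d, hd⟩ : ∃ d, d = f.2.1 / N := ⟨_, rfl⟩
        have e1 := Int.emod_add_ediv_mul f.1 N
        have e2 := Int.emod_add_ediv_mul f.2.1 N
        rw [← hc] at e1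
        rw [← hd] at e2
        unfold blk at hfb
        rw [mem_eRect] at hfb
        simp only [src, rect, Set.mem_ofPred_eq] at hfb
        have hsrc : src f ∈ ball ((m0 N).1 + c * N, (m0 N).2 + d * N) m := by
          rw [mem_ball]
          simp only [src, m0]
          omega
        have htgt : tgt f ∈ ball ((m0 N).1 + c * N, (m0 N).2 + d * N) m := by
          rw [mem_ball]
          obtain ⟨x, y, g⟩ := f
          cases g
          · simp only [tgt, m0, Bool.false_eq_true, if_false] at e1 e2 hfb ⊢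
            omega
          · simp only [tgt, m0, if_true] at e1 e2 hfb ⊢
            omega
        have hv : v ∈ ball ((m0 N).1 + c * N, (m0 N).2 + d * N) m ∧
            v' ∈ ball ((m0 N).1 + c * N, (m0 N).2 + d * N) m := by
          rcases hf with ⟨g1, g2⟩ | ⟨g1, g2⟩
          · rw [g1, g2]; exact ⟨hsrc, htgt⟩
          · rw [g1, g2]; exact ⟨htgt, hsrc⟩
        by_cases hcd : a = c ∧ b = d
        · obtain ⟨rfl, rfl⟩ := hcd
          exact ⟨a, b, h1, v', hv.2, Conn.refl (Set.mem_univ _)⟩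
        · have hcd' : ¬ (c = a ∧ d = b) := fun hh => hcd ⟨hh.1.symm, hh.2.symm⟩
          have k1 := armGlue_join hA hC a b hw (armGlue_far hN hcd hv.1) h2
          have k2 := armGlue_join hA hC c d hv.1 (armGlue_far hN hcd' hw) h2.symm
          exact ⟨c, d, ((h1.trans k1).trans h2).trans k2.symm, v', hv.2,
            Conn.refl (Set.mem_univ _)⟩
  obtain ⟨a, b, h1, w, hw, h2⟩ := hmain
  by_cases hab : a = a' ∧ b = b'
  · obtain ⟨rfl, rfl⟩ := hab
    exact ⟨a, b, ha', h1⟩
  · have k1 := armGlue_join hA hC a b hw (armGlue_far hN hab self_mem_ball) h2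
    exact ⟨a', b', ha', (h1.trans k1).trans h2⟩

/-- Gluing. -/
theorem armGlue {c : ℝ} (hc : 0 ≤ c) {N m R : ℕ} (hReg : RSWreg c N q) (h1 : 4 * m < N)
    (hR : R + 1 ≤ m) : arm q (2 * m) * Pr q (OutArm N R) * c ^ 4 ≤ Pr q (W0 N) := by
  classical
  have hN : 1 ≤ N := by omega
  have k1 : arm q (2 * m) ≤ Pr q (ArmT N (2 * m)) := le_of_eq (Pr_ArmT (by omega)).symm
  have k2 := fkg_step (localOn_ArmT hN (2 * m)) ((localOn_OutArm hN R).mono Finset.sdiff_subset)
    (incr_ArmT N (2 * m)) (incr_OutArm N R) Pr_nonneg k1 le_rfl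
  have k3 := circT hc hReg (by omega : 1 ≤ m) h1
    ((localOn_ArmT hN (2 * m)).inter ((localOn_OutArm hN R).mono Finset.sdiff_subset))
    ((incr_ArmT N (2 * m)).inter (incr_OutArm N R)) k2
  refine k3.trans (Pr_mono ?_)
  rintro ω ⟨⟨g1, g2⟩, g3⟩
  exact armGlue_det h1 hR g1 g3 g2

/-- Lower bound for the probability of `W0`. -/
theorem W0_lower_det {N m : ℕ} (hN : 4 * m < N) {ω : Config}
    (hA : ω ∈ ArmT N (2 * m)) (hC : CircE (per N ω) (m0 N) m (2 * m))
    (hH : ω ∈ HT N ((m0 N).1 + m) ((m0 N).1 + N - m) ((m0 N).2) ((m0 N).2 + 2 * m)) :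
    ω ∈ W0 N := by
  obtain ⟨k, -, j1, j2, j3⟩ := circ_join (by omega) hC
  obtain ⟨x, hx, hc⟩ := hA
  have g1 := j1 (m0 N) x self_mem_ball (Or.inr hx) (hc.mono_set (Set.subset_univ _))
  obtain ⟨u, v, hu, hv, huv⟩ := hH
  -- the right side of the circuit
  have g2 : Conn (per N ω) Set.univ k u := by
    refine j2 u v (by omega) ?_ (huv.mono_set ?_)
    · push_cast
      omega
    · intro w hw
      simp only [rect, Set.mem_ofPred_eq] at hw ⊢
      push_cast
      omega
  -- the left side of the translated circuit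
  have g3 : Conn (per N ω) Set.univ k (u.1 + -1 * N, u.2 + 0 * N) := by
    have h1 : Conn (per N ω) {w | (m0 N).2 - (2 * m : ℕ) ≤ w.2 ∧ w.2 ≤ (m0 N).2 + (2 * m : ℕ)}
        (u.1 + -1 * N, u.2 + 0 * N) (v.1 + -1 * N, v.2 + 0 * N) := by
      have h2 := conn_shift (ω := per N ω) (-1 * N, 0 * N)
        (rect ((m0 N).1 + m) ((m0 N).1 + N - m) ((m0 N).2) ((m0 N).2 + 2 * m)) u v
      have h3 : (fun e => per N ω (shiftE (-1 * N, 0 * N) e)) = per N ω := by
        funext e
        simp only [per, shiftE]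
        rw [Int.add_mul_emod_self_right, Int.add_mul_emod_self_right]
      rw [h3] at h2
      refine (h2.1 huv).mono_set ?_
      intro w hw
      simp only [rect, Set.mem_ofPred_eq] at hw ⊢
      push_cast
      omega
    refine j3 _ _ ?_ ?_ h1
    · simp only
      push_cast
      omega
    · simp only
      omega
  have g4 := armGlue_shift ω 1 0 (g1.symm.trans g3)
  have e1 : ((u.1 + -1 * N + 1 * N, u.2 + 0 * N + 0 * N) : Vert) = u := by
    ext <;> (simp only; ring)
  simp only at g4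
  rw [e1] at g4
  exact ⟨1, 0, one_ne_zero, (g1.symm.trans g2).trans g4.symm⟩

theorem W0_lower {c : ℝ} (hc : 0 ≤ c) {N m : ℕ} (hReg : RSWreg c N q) (h0 : 2 ≤ m)
    (h1 : 4 * m < N) (h2 : N ≤ 8 * m) : arm q (2 * m) * c ^ 5 ≤ Pr q (W0 N) := by
  classical
  have hN : 1 ≤ N := by omega
  have k1 : arm q (2 * m) ≤ Pr q (ArmT N (2 * m)) := le_of_eq (Pr_ArmT (by omega)).symm
  have k2 := reg_HT hReg (by omega : 1 ≤ 2 * m) (by omega) (x := (m0 N).1 + m)
    (y := (m0 N).1 + N - m) (z := (m0 N).2) (t := (m0 N).2 + 2 * m) (by omega)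
    (by push_cast; omega) (by push_cast; omega) (by omega) (by omega)
  have k3 := fkg_step (localOn_ArmT hN (2 * m)) (localOn_HT hN _ _ _ _)
    (incr_ArmT N (2 * m)) (incr_HT N _ _ _ _) hc k1 k2
  have k4 := circT hc hReg (by omega : 1 ≤ m) h1
    ((localOn_ArmT hN (2 * m)).inter (localOn_HT hN _ _ _ _))
    ((incr_ArmT N (2 * m)).inter (incr_HT N _ _ _ _)) k3
  have e : arm q (2 * m) * c ^ 5 = arm q (2 * m) * c * c ^ 4 := by ring
  rw [e]
  refine k4.trans (Pr_mono ?_)
  rintro ω ⟨⟨g1, g2⟩, g3⟩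
  exact W0_lower_det h1 g1 g3 g2

/-- Upper bound for the probability of `W0`. -/
theorem W0_upper {N r : ℕ} (h : 2 * r < N) : Pr q (W0 N) ≤ arm q r := by
  rw [← Pr_ArmT h]
  refine Pr_mono ?_
  rintro ω ⟨a, b, ha, hu⟩
  refine hu.mem_arm (Or.inl ?_)
  have h3 : 1 ≤ |a| := Int.one_le_abs ha
  have h4 : (m0 N).1 + a * N - (m0 N).1 = a * N := by ring
  simp only
  rw [h4, abs_mul, abs_of_nonneg (by omega : (0 : ℤ) ≤ N)]
  have h5 : (2 * r : ℤ) < N := by exact_mod_cast h
  nlinarith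

end Pool.Agent.H61.NC

end

section

/-! # Box crossing property at general densities -/

open MeasureTheory ProbabilityTheory unitInterval

namespace Pool.Agent.H83.EX

open Pool.Agent.H89.Perc

lemma wr_localOn_edge (e : Edge) : LocalOn {e} {ω : Config | ω e = true} := by
  intro ω ω' h hA
  have : ω e = ω' e := h e (by simp)
  simp only [Set.mem_ofPred_eq] at hA ⊢
  rw [← this]
  exact hA

lemma wr_incr_edge (e : Edge) : Incr {ω : Config | ω e = true} := fun _ _ h hA => h e hA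

lemma wr_edge (q : I) (e : Edge) : Pr q {ω : Config | ω e = true} = q := by
  classical
  rw [Pr_eq_update (wr_localOn_edge e) e]
  have h1 : {ω : Config | Function.update ω e true ∈ {ω : Config | ω e = true}} = Set.univ := by
    ext ω
    simp
  have h2 : {ω : Config | Function.update ω e false ∈ {ω : Config | ω e = true}} = ∅ := by
    ext ω
    simp
  rw [h1, h2, Pr_univ]
  simp [Pr]

/-- The first `k` horizontal edges of the axis are open. -/
def wr_row (k : ℕ) : Set Config := {ω | ∀ i : ℕ, i < k → ω ((i : ℤ), 0, false) = true}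

lemma wr_row_local (k : ℕ) : LocalOn ((Finset.range k).image fun i : ℕ => (((i : ℤ), 0, false) : Edge))
    (wr_row k) := by
  intro ω ω' h hA i hi
  rw [← h _ (Finset.mem_image.2 ⟨i, Finset.mem_range.2 hi, rfl⟩)]
  exact hA i hi

lemma wr_row_incr (k : ℕ) : Incr (wr_row k) := fun _ _ h hA i hi => h _ (hA i hi)

lemma wr_row_Pr (q : I) (k : ℕ) : (q : ℝ) ^ k ≤ Pr q (wr_row k) := by
  classical
  induction k with
  | zero =>
    have : wr_row 0 = Set.univ := by
      ext ω
      simp [wr_row]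
    rw [this, Pr_univ, pow_zero]
  | succ k ih =>
    have h1 := fkg (p := q) (wr_row_local k) (wr_localOn_edge ((k : ℤ), 0, false)) (wr_row_incr k)
      (wr_incr_edge _)
    rw [wr_edge] at h1
    have h2 : wr_row k ∩ {ω : Config | ω ((k : ℤ), 0, false) = true} ⊆ wr_row (k + 1) := by
      rintro ω ⟨h3, h4⟩ i hi
      rcases Nat.lt_succ_iff_lt_or_eq.1 hi with h5 | h5
      · exact h3 i h5
      · subst h5
        exact h4
    calc (q : ℝ) ^ (k + 1) = (q : ℝ) ^ k * q := pow_succ _ _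
      _ ≤ Pr q (wr_row k) * q := mul_le_mul_of_nonneg_right ih q.2.1
      _ ≤ _ := h1.trans (Pr_mono h2)

lemma wr_row_cross {k : ℕ} {ω : Config} (h : ω ∈ wr_row k) {d : ℤ} (hd : 0 ≤ d) :
    HCross ω 0 k 0 d := by
  have key : ∀ i : ℕ, i ≤ k → Conn ω (rect 0 k 0 d) (0, 0) ((i : ℤ), 0) := by
    intro i
    induction i with
    | zero =>
      intro _
      exact ⟨⟨le_rfl, by simp, le_rfl, hd⟩, Relation.ReflTransGen.refl⟩
    | succ i ih =>
      intro hi
      refine (ih (by omega)).tail ⟨⟨by simp, by simp only; omega, le_rfl, hd⟩,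
        ⟨by simp only; omega, by simp only; omega, le_rfl, hd⟩, ((i : ℤ), 0, false), Or.inl ⟨rfl, ?_⟩,
        h i (by omega)⟩
      simp [tgt]
  exact ⟨(0, 0), ((k : ℤ), 0), rfl, rfl, key k le_rfl⟩

lemma wr_row_bound (q : I) {k m : ℕ} (hk : k ≤ m) {d : ℤ} (hd : 0 ≤ d) :
    (q : ℝ) ^ m ≤ Pr q {ω | HCross ω 0 k 0 d} := by
  have h1 : (q : ℝ) ^ m ≤ (q : ℝ) ^ k := pow_le_pow_of_le_one q.2.1 q.2.2 hk
  exact h1.trans ((wr_row_Pr q k).trans (Pr_mono fun ω hω => wr_row_cross hω hd))

/-- A crossing of the `4 × 4` square uses an edge of the first column. -/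
lemma wr_square {ω : Config} (h : HCross ω 0 4 0 4) :
    ∃ y ∈ Finset.range 5, ω (0, (y : ℤ), false) = true := by
  by_contra hno
  push Not at hno
  obtain ⟨u, v, hu, hv, hS, hc⟩ := h
  have key : ∀ w, Relation.ReflTransGen (Step ω (rect 0 4 0 4)) u w → w.1 = 0 := by
    intro w hw
    induction hw with
    | refl => exact hu
    | tail _ hst ih =>
      rename_i b c _
      obtain ⟨hb, hc', e, hj, he⟩ := hst
      obtain ⟨x, y, t⟩ := e
      cases t
      · -- horizontal
        rcases hj with ⟨rfl, rfl⟩ | ⟨rfl, rfl⟩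
        · simp only [src] at ih hb hc'
          exfalso
          obtain ⟨-, -, h3, h4⟩ := hb
          simp only at h3 h4 ih
          obtain ⟨y', rfl⟩ : ∃ y' : ℕ, y = y' := ⟨y.toNat, by omega⟩
          subst ih
          exact hno y' (by rw [Finset.mem_range]; omega) he
        · simp only [src, tgt] at ih hb hc' ⊢
          obtain ⟨h1, -, -, -⟩ := hc'
          simp only at h1
          simp at ih
          omega
      · rcases hj with ⟨rfl, rfl⟩ | ⟨rfl, rfl⟩
        · simpa [src, tgt] using ih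
        · simpa [src, tgt] using ih
  have := key v hc
  omega

lemma wr_density {q : I} {δ : ℝ} (h : δ ≤ Pr q {ω | HCross ω 0 4 0 4}) : δ / 5 ≤ q := by
  have h1 : {ω : Config | HCross ω 0 4 0 4} ⊆ ⋃ y ∈ Finset.range 5, {ω : Config | ω (0, ((y : ℕ) : ℤ), false) = true} := by
    intro ω hω
    obtain ⟨y, hy, hy'⟩ := wr_square hω
    exact Set.mem_iUnion₂.2 ⟨y, hy, hy'⟩
  have h2 := (Pr_mono (p := q) h1).trans (Pr_biUnion_le _ _)
  simp only [wr_edge, Finset.sum_const, Finset.card_range, nsmul_eq_mul] at h2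
  push_cast at h2
  linarith

/-- One step of the iteration. -/
lemma wr_step {q : I} {δ : ℝ} (hδ : 0 ≤ δ) {m n : ℕ} (hn : 1 ≤ n) (hmn : n ≤ m)
    (hsq : δ ≤ Pr q {ω | HCross ω 0 n 0 n}) {x : ℝ} (hx : 0 ≤ x)
    (h : x ≤ Pr q {ω | HCross ω 0 m 0 (2 * n)}) :
    δ ^ 3 * x ^ 2 / 4 ≤ Pr q {ω | HCross ω 0 (2 * m - n) 0 (2 * n)} := by
  have h1 := rsw_key (p := q) hn hmn
  have h2 := rsw_glue (p := q) hn hmn
  have h3 : Pr q {ω | HCross ω (n - m) m 0 (2 * n)} =
      Pr q {ω | HCross ω 0 (2 * m - n) 0 (2 * n)} := by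
    have := Pr_hcross_translate (p := q) (a := 0) (b := 2 * (m : ℤ) - n) (c := 0)
      (d := 2 * (n : ℤ)) ((n : ℤ) - m) 0
    rw [← this]
    congr 1
    ext ω
    simp only [zero_add, add_zero, Set.mem_ofPred_eq]
    rw [show 2 * (m : ℤ) - n + (n - m) = m by ring]
  rw [h3] at h2
  have h5 : δ ≤ Pr q {ω | VCross ω 0 n 0 n} := by
    rw [Pr_vcross_eq_hcross]
    exact hsq
  have h6 : δ * x / 2 ≤ Pr q (XEvent m n) := by
    refine le_trans ?_ h1
    have h7 : 0 ≤ Pr q {ω | VCross ω 0 n 0 n} := Pr_nonneg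
    have := mul_le_mul h5 h hx h7
    linarith
  have h9 : (δ * x / 2) ^ 2 ≤ Pr q (XEvent m n) ^ 2 := pow_le_pow_left₀ (by positivity) h6 2
  calc δ ^ 3 * x ^ 2 / 4 = (δ * x / 2) ^ 2 * δ := by ring
    _ ≤ Pr q (XEvent m n) ^ 2 * Pr q {ω | HCross ω 0 n 0 n} :=
        mul_le_mul h9 hsq hδ (by positivity)
    _ ≤ _ := h2

/-- The constants of the iteration. -/
noncomputable def wr_beta (δ : ℝ) : ℕ → ℝ
  | 0 => δ
  | i + 1 => δ ^ 3 * wr_beta δ i ^ 2 / 4

lemma wr_beta_pos {δ : ℝ} (hδ : 0 < δ) (i : ℕ) : 0 < wr_beta δ i := by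
  induction i with
  | zero => exact hδ
  | succ i ih =>
    rw [wr_beta]
    positivity

lemma wr_iter {q : I} {δ : ℝ} (hδ : 0 < δ) {n : ℕ} (hn : 1 ≤ n)
    (hsq : δ ≤ Pr q {ω | HCross ω 0 n 0 n}) (hsq2 : δ ≤ Pr q {ω | HCross ω 0 (2 * n) 0 (2 * n)}) (i : ℕ) :
    wr_beta δ i ≤ Pr q {ω | HCross ω 0 (((2 ^ i + 1) * n : ℕ) : ℤ) 0 (2 * n)} := by
  induction i with
  | zero =>
    have e : (((2 ^ 0 + 1) * n : ℕ) : ℤ) = 2 * n := by push_cast; ring
    rw [e]
    exact hsq2
  | succ i ih =>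
    have h1 := wr_step hδ.le hn (Nat.le_mul_of_pos_left n (by positivity)) hsq
      (wr_beta_pos hδ i).le ih
    have e : 2 * (((2 ^ i + 1) * n : ℕ) : ℤ) - n = (((2 ^ (i + 1) + 1) * n : ℕ) : ℤ) := by
      push_cast
      ring
    rw [e] at h1
    exact h1

theorem weak_rsw : ∀ δ > (0 : ℝ), ∀ K : ℕ, ∃ c > (0 : ℝ), ∀ q : I, ∀ M : ℕ, 1 ≤ M →
    (∀ m : ℕ, 1 ≤ m → m ≤ M → δ ≤ Pr q {ω | HCross ω 0 (4 * m) 0 (4 * m)}) →
    ∀ n : ℕ, 1 ≤ n → n ≤ K * M → c ≤ Pr q {ω | HCross ω 0 (4 * n) 0 n} := by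
  intro δ hδ K
  refine ⟨min (wr_beta δ (3 * K + 16)) ((δ / 5) ^ (4 * (8 + K))),
    lt_min (wr_beta_pos hδ _) (by positivity), ?_⟩
  intro q M hM hsq n hn hnM
  by_cases hcase : 8 ≤ n ∧ 2 ≤ M
  · obtain ⟨hn8, hM2⟩ := hcase
    refine (min_le_left _ _).trans ?_
    set j : ℕ := min (n / 8) (M / 2) with hj
    have hj1 : 1 ≤ j := by
      rw [hj]
      exact le_min (by omega) (by omega)
    have hjn : j ≤ n / 8 := min_le_left _ _
    have hjM : j ≤ M / 2 := min_le_right _ _
    have h1 : δ ≤ Pr q {ω | HCross ω 0 ((4 * j : ℕ) : ℤ) 0 ((4 * j : ℕ) : ℤ)} := by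
      have := hsq j hj1 (by omega)
      push_cast
      exact this
    have h2 : δ ≤ Pr q {ω | HCross ω 0 (2 * ((4 * j : ℕ) : ℤ)) 0 (2 * ((4 * j : ℕ) : ℤ))} := by
      have := hsq (2 * j) (by omega) (by omega)
      have e : (4 : ℤ) * ((2 * j : ℕ) : ℤ) = 2 * ((4 * j : ℕ) : ℤ) := by push_cast; ring
      rw [e] at this
      exact this
    refine (wr_iter hδ (n := 4 * j) (by omega) h1 h2 (3 * K + 16)).trans (Pr_mono ?_)
    intro ω hω
    have hpow : 3 * K + 16 ≤ 2 ^ (3 * K + 16) := Nat.lt_two_pow_self.le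
    have hnj : n ≤ (3 * K + 16) * j := by
      rcases le_total (n / 8) (M / 2) with h | h
      · have : j = n / 8 := by rw [hj]; exact min_eq_left h
        have h3 : n ≤ 16 * j := by omega
        exact h3.trans (Nat.mul_le_mul_right j (by omega))
      · have : j = M / 2 := by rw [hj]; exact min_eq_right h
        have h3 : M ≤ 3 * j := by omega
        have h4 : n ≤ 3 * K * j := by
          calc n ≤ K * M := hnM
            _ ≤ K * (3 * j) := Nat.mul_le_mul_left K h3
            _ = 3 * K * j := by ring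
        exact h4.trans (Nat.mul_le_mul_right j (by omega))
    have hw : 4 * n ≤ (2 ^ (3 * K + 16) + 1) * (4 * j) := by
      calc 4 * n ≤ 4 * ((3 * K + 16) * j) := Nat.mul_le_mul_left 4 hnj
        _ = (3 * K + 16) * (4 * j) := by ring
        _ ≤ (2 ^ (3 * K + 16) + 1) * (4 * j) := Nat.mul_le_mul_right _ (by omega)
    refine HCross.mono hω le_rfl (by positivity) (by exact_mod_cast hw) le_rfl ?_
    push_cast
    omega
  · refine (min_le_right _ _).trans ?_
    have hq : δ / 5 ≤ q := by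
      apply wr_density
      have := hsq 1 le_rfl hM
      simpa using this
    have hnK : n ≤ 8 + K := by
      by_contra hcon
      push Not at hcon
      have hM1 : M = 1 := by
        by_contra hM1
        exact hcase ⟨by omega, by omega⟩
      rw [hM1, mul_one] at hnM
      omega
    have h1 : (δ / 5) ^ (4 * (8 + K)) ≤ (q : ℝ) ^ (4 * (8 + K)) := pow_le_pow_left₀ (by positivity) hq _
    refine h1.trans ?_
    have h2 := wr_row_bound q (k := 4 * n) (m := 4 * (8 + K)) (by omega) (d := n) (by positivity)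
    push_cast at h2
    exact h2

theorem rswreg_of_bad : ∀ δ > (0 : ℝ), ∀ K : ℕ, ∃ c > (0 : ℝ), ∀ p : I, half ≤ p → ∀ M : ℕ,
    1 ≤ M → (∀ m : ℕ, 1 ≤ m → m ≤ M → Pr p {ω | HCross ω 0 (4 * m) 0 (4 * m)} < 1 - δ) →
    ∀ q : I, σ p ≤ q → q ≤ p → Pool.Agent.H61.NC.RSWreg c (K * M) q := by
  intro δ hδ K
  obtain ⟨c, hc, hw⟩ := weak_rsw δ hδ K
  refine ⟨c, hc, fun p _ M hM hbad q hq1 hq2 => ?_⟩
  have hsq : ∀ m : ℕ, 1 ≤ m → m ≤ M → δ ≤ Pr (σ p) {ω | HCross ω 0 (4 * m) 0 (4 * m)} := by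
    intro m hm hmM
    have h1 : (Set.univ : Set Config) ⊆ {ω | HCross ω 0 (4 * (m : ℤ)) 0 (4 * m)} ∪
        {ω | dual ω ∈ {η | VCross η 0 (4 * (m : ℤ) - 1) (0 - 1) (4 * m)}} := by
      intro ω _
      rcases hcross_or_dual_vcross (ω := ω) (a := 0) (b := 4 * (m : ℤ)) (c := 0) (d := 4 * m)
        (by omega) (by omega) with h | h
      · exact Or.inl h
      · exact Or.inr h
    have h2 : (1 : ℝ) ≤ Pr p {ω | HCross ω 0 (4 * (m : ℤ)) 0 (4 * m)} +
        Pr p {ω | dual ω ∈ {η | VCross η 0 (4 * (m : ℤ) - 1) (0 - 1) (4 * m)}} := by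
      rw [← Pr_univ (p := p)]
      exact (Pr_mono h1).trans Pr_union_le
    rw [Pr_dual (localOn_vcross 0 (4 * (m : ℤ) - 1) (0 - 1) (4 * m))] at h2
    have h3 := hbad m hm hmM
    have h4 : Pr (σ p) {η | VCross η 0 (4 * (m : ℤ) - 1) (0 - 1) (4 * m)} ≤
        Pr (σ p) {ω | HCross ω 0 (4 * m) 0 (4 * m)} := by
      rw [← Pr_vcross_eq_hcross]
      apply Pr_mono
      intro ω h
      exact VCross.mono h le_rfl (by omega) (by omega) (by omega) le_rfl
    linarith
  intro m hm hmKM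
  have h1 := hw (σ p) M hM hsq m hm hmKM
  refine ⟨h1.trans (Pr_mono_param (localOn_hcross _ _ _ _) (incr_hcross _ _ _ _) hq1),
    h1.trans (Pr_mono_param (localOn_hcross _ _ _ _) (incr_hcross _ _ _ _) ?_)⟩
  rw [← Subtype.coe_le_coe]
  simp only [unitInterval.coe_symm_eq]
  have : (q : ℝ) ≤ p := hq2
  linarith

end Pool.Agent.H83.EX

end

section

/-!
# Triangularity
-/

namespace Pool.Agent.H12.QKZ

open H56.EX

/-- Induction principle: to prove a property of all patterns it suffices to treat the rotations of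
the base pattern and to descend through good positions. -/
theorem pat_induction {L : ℕ} {motive : Pat L → Prop}
    (hbase : ∀ (k : ℕ) (B : Pat L), IsBase B → motive (rot^[k] B))
    (hstep : ∀ (P : Pat L) (i : ℤ), Good P i → motive (E i P) →
      (∀ P' : Pat L, E i P' = E i P → P' ≠ P → motive P') → motive P) :
    ∀ P, motive P := by
  have key : ∀ (N : ℕ) (P : Pat L), ((L : ℤ) * L - area P).toNat = N → motive P := by
    intro N
    induction N using Nat.strong_induction_on with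
    | _ N ih =>
      intro P hP
      rcases good_or_base P with ⟨k, B, hB, rfl⟩ | ⟨i, hi⟩
      · exact hbase k B hB
      · have hdesc : ∀ P' : Pat L, area P < area P' → motive P' := by
          intro P' hlt
          have h1 := area_le P'
          exact ih _ (by omega) P' rfl
        refine hstep P i hi (hdesc _ (area_lt_of_good hi)) ?_
        intro P' hE hne
        rcases fibre_of_good hi hE with h | h
        · exact absurd h hne
        · exact hdesc P' h
  exact fun P => key _ P rfl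

theorem triangular : Triangular := by
  intro L Ω O s r z D hs hr hz exch hrot hbase
  have hz' : ∀ (P : Pat L), ∀ ω ∈ O, D P ω = 0 := by
    apply pat_induction
    · intro k B hB
      induction k with
      | zero => exact hbase B hB
      | succ k ih =>
        intro ω hω
        obtain ⟨ω', hω', rfl⟩ := hr ω hω
        rw [Function.iterate_succ', Function.comp_apply, hrot _ ω' hω']
        exact ih ω' hω'
    · intro P i hi hQ hother ω hω
      have h1 := exch (E i P) ω hω i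
      rw [hQ _ (hs i ω hω), hQ ω hω, mul_zero, mul_zero, zero_add] at h1
      have h2 : eop i (fun P' => D P' ω) (E i P) = 0 := by
        rcases mul_eq_zero.1 h1.symm with h | h
        · exact absurd (sub_eq_zero.1 h) (hz ω hω i)
        · exact h
      unfold eop at h2
      rw [Finset.sum_eq_single P] at h2
      · rwa [if_pos rfl] at h2
      · intro P' _ hne
        split_ifs with hE
        · exact hother P' hE hne ω hω
        · rfl
      · intro h; exact absurd (Finset.mem_univ _) h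
  exact hz'

end Pool.Agent.H12.QKZ

end

section

/-!
# The normalised fixed vector for admissible angles
-/

namespace Pool.Agent.H12.QKZ

open H56.EX Matrix

set_option linter.unusedSectionVars false

variable {L : ℕ}

theorem even_of_pat (P : Pat L) : Even L := by
  have key : ∀ _ : Pat L, Even L := by
    apply pat_induction (motive := fun _ => Even L)
    · intro k B hB
      rcases Nat.even_or_odd' L with ⟨n, hn | hn⟩
      · exact ⟨n, by omega⟩
      · exfalso
        have h1 := hB n (by omega) (by omega)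
        apply B.not_dvd_self n
        rw [h1, hn]
        refine ⟨-1, ?_⟩
        push_cast; ring
    · intro _ _ _ h _; exact h
  exact key P

/-- The exchange of the classes of `i` and `i+1`. -/
def tau (L : ℕ) (i x : ℤ) : ℤ := if Cg L x i then x + 1 else if Cg L x (i + 1) then x - 1 else x

theorem tau_of_i {i x : ℤ} (h : Cg L x i) : tau L i x = x + 1 := by simp only [tau, if_pos h]

theorem tau_of_succ (hL : 2 ≤ L) {i x : ℤ} (h : Cg L x (i + 1)) : tau L i x = x - 1 := by
  have h' : ¬ Cg L x i := fun h' => not_Cg_succ hL i (Cg.trans' (Cg.symm' h') h)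
  simp only [tau, if_neg h', if_pos h]

theorem tau_other {i x : ℤ} (h : ¬ Cg L x i) (h' : ¬ Cg L x (i + 1)) : tau L i x = x := by
  simp only [tau, if_neg h, if_neg h']

theorem sw_eq_tau (i : ℤ) (θ : ℤ → ℝ) : sw L i θ = fun x => θ (tau L i x) := by
  funext x
  simp only [sw, tau]
  split_ifs <;> rfl

theorem tau_tau (hL : 2 ≤ L) (i x : ℤ) : tau L i (tau L i x) = x := by
  by_cases h1 : Cg L x i
  · rw [tau_of_i h1, tau_of_succ hL (Cg.add 1 h1)]; ring
  by_cases h2 : Cg L x (i + 1)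
  · have h3 : Cg L (x - 1) i := by
      have := Cg.sub 1 h2
      rwa [add_sub_cancel_right] at this
    rw [tau_of_succ hL h2, tau_of_i h3]; ring
  · rw [tau_other h1 h2, tau_other h1 h2]

theorem tau_cg (hL : 2 ≤ L) (i : ℤ) {x y : ℤ} (h : Cg L x y) : Cg L (tau L i x) (tau L i y) := by
  by_cases h1 : Cg L x i
  · rw [tau_of_i h1, tau_of_i (Cg.trans' (Cg.symm' h) h1)]; exact Cg.add 1 h
  by_cases h2 : Cg L x (i + 1)
  · rw [tau_of_succ hL h2, tau_of_succ hL (Cg.trans' (Cg.symm' h) h2)]; exact Cg.sub 1 h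
  · rw [tau_other h1 h2, tau_other (fun h' => h1 (Cg.trans' h h'))
      (fun h' => h2 (Cg.trans' h h'))]
    exact h

theorem tau_cg' (hL : 2 ≤ L) (i : ℤ) {x y : ℤ} (h : Cg L (tau L i x) (tau L i y)) : Cg L x y := by
  have := tau_cg hL i h
  rwa [tau_tau hL, tau_tau hL] at this

theorem tau_add (hL : 2 ≤ L) (i x : ℤ) : tau L i (x + L) = tau L i x + L := by
  have hc : Cg L (x + L) x := by unfold Cg; simp
  by_cases h1 : Cg L x i
  · rw [tau_of_i h1, tau_of_i (Cg.trans' hc h1)]; ring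
  by_cases h2 : Cg L x (i + 1)
  · rw [tau_of_succ hL h2, tau_of_succ hL (Cg.trans' hc h2)]; ring
  · rw [tau_other h1 h2, tau_other (fun h' => h1 (Cg.trans' (Cg.symm' hc) h'))
      (fun h' => h2 (Cg.trans' (Cg.symm' hc) h'))]

theorem sw_sw (hL : 2 ≤ L) (i : ℤ) (θ : ℤ → ℝ) : sw L i (sw L i θ) = θ := by
  rw [sw_eq_tau, sw_eq_tau]
  funext x
  simp only [tau_tau hL]

theorem Adm.sw {θ : ℤ → ℝ} {m : ℤ} (hL : 2 ≤ L) (h : Adm L θ m) (i : ℤ) :
    Adm L (Pool.Agent.H12.QKZ.sw L i θ) (tau L i m) := by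
  rw [sw_eq_tau]
  exact {
    per := fun x => by rw [tau_add hL, h.per]
    pos := fun x => h.pos _
    lt := fun x => h.lt _
    inj := fun x y hxy => h.inj _ _ fun hc => hxy (tau_cg' hL i hc)
    max := fun x hx => by
      rw [tau_tau hL]
      apply h.max
      intro hc
      apply hx
      apply tau_cg' hL i
      rw [tau_tau hL]; exact hc }

theorem Adm.rot {θ : ℤ → ℝ} {m : ℤ} (h : Adm L θ m) :
    Adm L (fun x => θ (x - 1)) (m + 1) where
  per := fun x => by rw [show x + (L : ℤ) - 1 = x - 1 + L by ring, h.per]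
  pos := fun x => h.pos _
  lt := fun x => h.lt _
  inj := fun x y hxy => h.inj _ _ fun hc => hxy (by
    have := Cg.add 1 hc
    simpa using this)
  max := fun x hx => by
    rw [add_sub_cancel_right]
    apply h.max
    intro hc
    apply hx
    have := Cg.add 1 hc
    simpa using this

theorem W_congr {θ : ℤ → ℝ} (hper : ∀ x, θ (x + L) = θ x) {m m' : ℤ} (h : Cg L m m') :
    ∀ k : ℕ, (W θ m k : Matrix (Pat L) (Pat L) ℝ) = W θ m' k := by
  intro k
  induction k with
  | zero => rfl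
  | succ k ih =>
    rw [W, W, ih, RR_congr (Cg.add k h), per_dvd_fun hper h,
      per_dvd_fun hper (show Cg L (m + 1 + k) (m' + 1 + k) from Cg.add k (Cg.add 1 h))]

theorem Sc_congr {θ : ℤ → ℝ} (hper : ∀ x, θ (x + L) = θ x) {m m' : ℤ} (h : Cg L m m') :
    (Sc θ m : Matrix (Pat L) (Pat L) ℝ) = Sc θ m' := by
  unfold Sc; rw [W_congr hper h]

/-- The path of patterns used for the positivity. -/
noncomputable def gk (m : ℤ) : ℕ → Pat L → Pat L
  | 0 => id
  | k + 1 => if Even k then E (m + k) ∘ gk m k else gk m k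

theorem RR_stoch {θ : ℤ → ℝ} {m : ℤ} (h : Adm L θ m) (i x : ℤ) (hx : ¬ Cg L x m) :
    ColStoch (RR i (θ m - θ x) : Matrix (Pat L) (Pat L) ℝ) := by
  have h1 : 0 < θ m - θ x := sub_pos.2 (h.max x hx)
  have h2 : θ m - θ x < 2 * Real.pi / 3 := lt_of_abs_lt (h.abs_lt m x)
  exact Rm_colStoch (br_pos h1 h2).le (br_lt_one h1 h2).le (mapMat_colStoch _)

theorem W_stoch {θ : ℤ → ℝ} {m : ℤ} (h : Adm L θ m) : ∀ k : ℕ, k + 1 ≤ L →
    ColStoch (W θ m k : Matrix (Pat L) (Pat L) ℝ) := by
  intro k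
  induction k with
  | zero => intro _; exact ColStoch.one
  | succ k ih =>
    intro hk
    rw [W]
    exact (RR_stoch h _ _ (not_cg_of_lt (by omega) (by omega))).mul (ih (by omega))

theorem Sc_stoch {θ : ℤ → ℝ} {m : ℤ} (hL : 2 ≤ L) (h : Adm L θ m) :
    ColStoch (Sc θ m : Matrix (Pat L) (Pat L) ℝ) := by
  unfold Sc
  exact (mapMat_colStoch _).mul (W_stoch h _ (by omega))

theorem W_pos {θ : ℤ → ℝ} {m : ℤ} (h : Adm L θ m) : ∀ k : ℕ, k + 1 ≤ L →
    PosAt (W θ m k : Matrix (Pat L) (Pat L) ℝ) (gk m k) := by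
  intro k
  induction k with
  | zero => intro _; exact PosAt.one
  | succ k ih =>
    intro hk
    have hn : ¬ Cg L (m + 1 + k) m := not_cg_of_lt (by omega) (by omega)
    have h1 : 0 < θ m - θ (m + 1 + k) := sub_pos.2 (h.max _ hn)
    have h2 : θ m - θ (m + 1 + k) < 2 * Real.pi / 3 := lt_of_abs_lt (h.abs_lt _ _)
    have hs := RR_stoch h (m + k) (m + 1 + k) hn
    rw [W, gk]
    split_ifs with he
    · exact PosAt.mul (PosAt.Rm_map (br_pos h1 h2) (br_lt_one h1 h2).le _) (ih (by omega)) hs.1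
        (W_stoch h k (by omega)).1
    · have := PosAt.mul (f := id) (PosAt.Rm_id (br_pos h1 h2).le (br_lt_one h1 h2) (E (m + k)))
        (ih (by omega)) hs.1 (W_stoch h k (by omega)).1
      exact this

theorem gk_arc (m : ℤ) (P : Pat L) : ∀ k : ℕ, k + 1 ≤ L → ∀ l : ℕ, Even l → l < k →
    (gk m k P).m (m + l) = m + l + 1 := by
  intro k
  induction k with
  | zero => intro _ l _ hl; omega
  | succ k ih =>
    intro hk l hl hlk
    rw [gk]
    split_ifs with he
    · rw [Function.comp_apply]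
      rcases Nat.lt_or_ge l k with h | h
      · have h0 := ih (by omega) l hl h
        have hlk2 : l + 2 ≤ k := by
          rcases hl with ⟨a, ha⟩
          rcases he with ⟨b, hb⟩
          omega
        rw [E.other]
        · exact h0
        · intro hc; exact not_cg_of_lt (by omega) (by omega) (Cg.symm' hc)
        · intro hc; exact not_cg_of_lt (by omega) (by omega) (Cg.symm' hc)
        · rw [h0]; intro hc; exact not_cg_of_lt (by omega) (by omega) (Cg.symm' hc)
        · rw [h0]; intro hc; exact not_cg_of_lt (by omega) (by omega) (Cg.symm' hc)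
      · have : l = k := by omega
        subst this
        exact E.self _ _
    · rcases Nat.lt_or_ge l k with h | h
      · exact ih (by omega) l hl h
      · have : l = k := by omega
        subst this
        exact absurd hl he

theorem gk_const (hL : 2 ≤ L) (he : Even L) (m : ℤ) (P P' : Pat L) :
    gk m (L - 1) P = gk m (L - 1) P' := by
  have h1 := gk_arc m P (L - 1) (by omega)
  have h2 := gk_arc m P' (L - 1) (by omega)
  apply Pat.ext
  funext x
  have hpos : (0 : ℤ) < L := by omega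
  obtain ⟨r, hr⟩ : ∃ r : ℕ, (r : ℤ) = (x - m) % L :=
    ⟨((x - m) % L).toNat, Int.toNat_of_nonneg (Int.emod_nonneg _ hpos.ne')⟩
  have hrL : r < L := by
    have := Int.emod_lt_of_pos (x - m) hpos
    omega
  have hx : Cg L x (m + r) := by
    unfold Cg
    rw [hr, show x - (m + (x - m) % L) = (x - m) - (x - m) % L by ring]
    exact Int.dvd_self_sub_emod
  refine Pat.eq_of_dvd hx ?_
  rcases Nat.even_or_odd r with hre | hro
  · have : r < L - 1 := by
      rcases he with ⟨a, ha⟩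
      rcases hre with ⟨b, hb⟩
      omega
    rw [h1 r hre this, h2 r hre this]
  · obtain ⟨s, hs⟩ : ∃ s, r = s + 1 := ⟨r - 1, by rcases hro with ⟨b, hb⟩; omega⟩
    have hse : Even s := by
      rcases hro with ⟨b, hb⟩
      exact ⟨b, by omega⟩
    have g1 := congrArg (gk m (L - 1) P).m (h1 s hse (by omega))
    have g2 := congrArg (gk m (L - 1) P').m (h2 s hse (by omega))
    rw [Pat.inv] at g1 g2
    rw [hs]
    push_cast
    rw [← add_assoc, ← g1, ← g2]

/-- Existence and uniqueness of the normalised fixed vector. -/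
theorem Sc_fixed {θ : ℤ → ℝ} {m : ℤ} (P₀ : Pat L) (h : Adm L θ m) :
    ∃! v : Pat L → ℝ, Sc θ m *ᵥ v = v ∧ ∑ P, v P = 1 := by
  have hL := P₀.two_le
  have hE := even_of_pat P₀
  have hpos : PosAt (Sc θ m : Matrix (Pat L) (Pat L) ℝ) (H56.EX.rot ∘ gk m (L - 1)) := by
    unfold Sc
    exact PosAt.mul (PosAt.mapMat _) (W_pos h _ (by omega)) (mapMat_colStoch _).1
      (W_stoch h _ (by omega)).1
  apply exists_unique_fixed (Sc_stoch hL h) (k := 1) (s := H56.EX.rot (gk m (L - 1) P₀))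
  intro P
  rw [pow_one]
  have := hpos P
  rwa [Function.comp_apply, gk_const hL hE m P P₀] at this

open Classical in
/-- The normalised fixed vector (for admissible angles). -/
noncomputable def psiR (L : ℕ) (θ : ℤ → ℝ) : Pat L → ℝ :=
  if h : ∃ v : Pat L → ℝ, ∃ m, Adm L θ m ∧ Sc θ m *ᵥ v = v ∧ ∑ P, v P = 1 then h.choose else 0

theorem Adm.max_unique {θ : ℤ → ℝ} {m m' : ℤ} (h : Adm L θ m) (h' : Adm L θ m') : Cg L m m' := by
  by_contra hc
  have h1 := h'.max m hc
  have h2 := h.max m' (fun h => hc (Cg.symm' h))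
  linarith

theorem psiR_spec {θ : ℤ → ℝ} {m : ℤ} (P₀ : Pat L) (h : Adm L θ m) :
    Sc θ m *ᵥ psiR L θ = psiR L θ ∧ ∑ P, psiR L θ P = 1 := by
  have hex : ∃ v : Pat L → ℝ, ∃ m, Adm L θ m ∧ Sc θ m *ᵥ v = v ∧ ∑ P, v P = 1 := by
    obtain ⟨v, hv, -⟩ := Sc_fixed P₀ h
    exact ⟨v, m, h, hv⟩
  unfold psiR
  rw [dif_pos hex]
  obtain ⟨m', h', h1, h2⟩ := hex.choose_spec
  refine ⟨?_, h2⟩
  rw [Sc_congr h.per (h.max_unique h')]
  exact h1

theorem psiR_unique {θ : ℤ → ℝ} {m : ℤ} (P₀ : Pat L) (h : Adm L θ m) {v : Pat L → ℝ}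
    (h1 : Sc θ m *ᵥ v = v) (h2 : ∑ P, v P = 1) : v = psiR L θ :=
  (Sc_fixed P₀ h).unique ⟨h1, h2⟩ (psiR_spec P₀ h)

/-- Sum of the coordinates is preserved by `R`. -/
theorem RR_sum (i : ℤ) (δ : ℝ) (v : Pat L → ℝ) : ∑ P, (RR i δ *ᵥ v) P = ∑ P, v P := by
  unfold RR Rm
  simp only [Matrix.add_mulVec, Matrix.smul_mulVec, Matrix.one_mulVec, Pi.add_apply,
    Pi.smul_apply, smul_eq_mul]
  rw [Finset.sum_add_distrib, ← Finset.mul_sum, ← Finset.mul_sum]
  have := (mapMat_colStoch (E i : Pat L → Pat L)).sum_mulVec v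
  unfold EM
  rw [this]; ring

theorem psiR_rot {θ : ℤ → ℝ} {m : ℤ} (P₀ : Pat L) (h : Adm L θ m) :
    RotM *ᵥ psiR L θ = psiR L (fun x => θ (x - 1)) := by
  apply psiR_unique P₀ h.rot
  · rw [Matrix.mulVec_mulVec, ← Sc_rot, ← Matrix.mulVec_mulVec, (psiR_spec P₀ h).1]
  · have := (mapMat_colStoch (H56.EX.rot : Pat L → Pat L)).sum_mulVec (psiR L θ)
    unfold RotM
    rw [this, (psiR_spec P₀ h).2]

theorem psiR_exch_max {θ : ℤ → ℝ} {m : ℤ} (P₀ : Pat L) (h : Adm L θ m) :
    RR m (θ m - θ (m + 1)) *ᵥ psiR L θ = psiR L (sw L m θ) := by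
  have hL := P₀.two_le
  have h' := h.sw hL m
  rw [tau_of_i (Cg.refl' m)] at h'
  apply psiR_unique P₀ h'
  · rw [Matrix.mulVec_mulVec, ← Sc_swap_max hL h.per, ← Matrix.mulVec_mulVec,
      (psiR_spec P₀ h).1]
  · rw [RR_sum, (psiR_spec P₀ h).2]

/-- The exchange relation for the normalised vector. -/
theorem psiR_exch {θ : ℤ → ℝ} {m : ℤ} (P₀ : Pat L) (h : Adm L θ m) (i : ℤ) :
    RR i (θ i - θ (i + 1)) *ᵥ psiR L θ = psiR L (sw L i θ) := by
  have hL := P₀.two_le
  have hpos : (0 : ℤ) < L := by omega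
  -- reduce to `m ≤ i < m + L`
  obtain ⟨j, hj⟩ : ∃ j, j = m + (i - m) % L := ⟨_, rfl⟩
  have hj0 := Int.emod_nonneg (i - m) hpos.ne'
  have hj1 := Int.emod_lt_of_pos (i - m) hpos
  have hc : Cg L i j := by
    unfold Cg
    rw [hj, show i - (m + (i - m) % L) = (i - m) - (i - m) % L by ring]
    exact Int.dvd_self_sub_emod
  have hsw : sw L i θ = sw L j θ := by
    funext x
    unfold sw
    have e1 : Cg L x i ↔ Cg L x j := ⟨fun h' => Cg.trans' h' hc,
      fun h' => Cg.trans' h' (Cg.symm' hc)⟩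
    have e2 : Cg L x (i + 1) ↔ Cg L x (j + 1) := ⟨fun h' => Cg.trans' h' (Cg.add 1 hc),
      fun h' => Cg.trans' h' (Cg.symm' (Cg.add 1 hc))⟩
    simp only [e1, e2]
  rw [hsw, RR_congr hc, h.congr hc, h.congr (Cg.add 1 hc)]
  rcases lt_or_ge m j with h1 | h1
  · rcases lt_or_ge (j + 1) (m + L) with h2 | h2
    · have h' := h.sw hL j
      rw [tau_other (fun hc => not_cg_of_lt (by omega) (by omega) (Cg.symm' hc))
        (fun hc => not_cg_of_lt (by omega) (by omega) (Cg.symm' hc))] at h'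
      apply psiR_unique P₀ h'
      · rw [Matrix.mulVec_mulVec, ← Sc_swap_other h m j h1 h2, ← Matrix.mulVec_mulVec,
          (psiR_spec P₀ h).1]
      · rw [RR_sum, (psiR_spec P₀ h).2]
    · -- the maximal line is at `j + 1`
      have hj2 : j + 1 = m + L := by omega
      have hcm : Cg L m (j + 1) := by rw [hj2]; unfold Cg; simp
      have h' := h.sw hL j
      rw [tau_of_succ hL hcm] at h'
      have hcj : Cg L (m - 1) j := by
        have := Cg.sub 1 hcm
        rwa [add_sub_cancel_right] at this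
      have h'' : Adm L (sw L j θ) j := by
        refine ⟨h'.per, h'.pos, h'.lt, h'.inj, fun x hx => ?_⟩
        rw [← h'.congr hcj]
        exact h'.max x fun hx' => hx (Cg.trans' hx' hcj)
      have key := psiR_exch_max P₀ h''
      rw [sw_sw hL, sw_of_i (Cg.refl' j), sw_of_succ hL (Cg.refl' (j + 1)),
        add_sub_cancel_right] at key
      rw [← key, Matrix.mulVec_mulVec]
      have := RR_inv (L := L) j (h.abs_lt j (j + 1))
      rw [neg_sub] at this
      rw [this, Matrix.one_mulVec]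
  · have : j = m := by omega
    rw [this]
    exact psiR_exch_max P₀ h

end Pool.Agent.H12.QKZ

end

section

/-!
# Normalisation by the base component
-/

namespace Pool.Agent.H12.QKZ

open H56.EX Matrix

variable {L : ℕ}

theorem qc_q : qc = q := by
  rw [qc_cos_sin]
  apply Complex.ext
  · simp [q]
  · simp [q]

/-- Admissible angles. -/
def Oset (L : ℕ) (θ : ℤ → ℝ) : Prop := ∃ m, Adm L θ m

theorem Oset.per {θ : ℤ → ℝ} (h : Oset L θ) (x : ℤ) : θ (x + L) = θ x := by
  obtain ⟨m, hm⟩ := h; exact hm.per x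

theorem Oset.sw {θ : ℤ → ℝ} (hL : 2 ≤ L) (h : Oset L θ) (i : ℤ) :
    Oset L (Pool.Agent.H12.QKZ.sw L i θ) := by
  obtain ⟨m, hm⟩ := h; exact ⟨_, hm.sw hL i⟩

theorem Oset.rot {θ : ℤ → ℝ} (h : Oset L θ) : Oset L (fun x => θ (x - 1)) := by
  obtain ⟨m, hm⟩ := h; exact ⟨_, hm.rot⟩

theorem Oset.rot' {θ : ℤ → ℝ} (h : Oset L θ) : Oset L (fun x => θ (x + 1)) := by
  obtain ⟨m, hm⟩ := h
  refine ⟨m - 1, ?_⟩
  exact {
    per := fun x => by
      show θ (x + L + 1) = θ (x + 1)
      rw [show x + (L : ℤ) + 1 = x + 1 + L by ring, hm.per]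
    pos := fun x => hm.pos _
    lt := fun x => hm.lt _
    inj := fun x y hxy => hm.inj _ _ fun hc => hxy (by
      have := Cg.sub 1 hc
      simpa using this)
    max := fun x hx => by
      show θ (x + 1) < θ (m - 1 + 1)
      rw [sub_add_cancel]
      apply hm.max
      intro hc
      apply hx
      have := Cg.sub 1 hc
      simpa using this }

theorem Oset.den {θ : ℤ → ℝ} (h : Oset L θ) (x y : ℤ) :
    q * zc (θ x) - q⁻¹ * zc (θ y) ≠ 0 := by
  obtain ⟨m, hm⟩ := h
  have h1 := hm.abs_lt y x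
  rw [abs_lt] at h1
  rw [q_inv, ← qc_q]
  exact den_ne_zero h1.1 (by linarith [h1.2, Real.pi_pos])

theorem Oset.zne {θ : ℤ → ℝ} (hL : 2 ≤ L) (h : Oset L θ) (i : ℤ) :
    zc (θ i) ≠ zc (θ (i + 1)) := by
  obtain ⟨m, hm⟩ := h
  intro hz
  exact hm.inj i (i + 1) (not_Cg_succ hL i)
    (zc_injOn (hm.pos _) (hm.lt _) (hm.pos _) (hm.lt _) hz)

theorem psiC_exch (P₀ : Pat L) {θ : ℤ → ℝ} (h : Oset L θ) (i : ℤ) (P : Pat L) :
    (q * zc (θ (i + 1)) - q⁻¹ * zc (θ i)) * (psiR L (sw L i θ) P : ℂ)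
      = (q * zc (θ i) - q⁻¹ * zc (θ (i + 1))) * (psiR L θ P : ℂ)
        + (zc (θ i) - zc (θ (i + 1))) * eop i (fun P' => (psiR L θ P' : ℂ)) P := by
  have hden := h.den (i + 1) i
  obtain ⟨m, hm⟩ := h
  have h1 := congrFun (psiR_exch P₀ hm i) P
  have h2 : (EM i *ᵥ psiR L θ) P = ∑ P', if E i P' = P then psiR L θ P' else 0 := by
    unfold EM; rw [mapMat_mulVec]
  unfold RR Rm at h1
  simp only [Matrix.add_mulVec, Matrix.smul_mulVec, Matrix.one_mulVec, Pi.add_apply,
    Pi.smul_apply, smul_eq_mul] at h1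
  rw [h2] at h1
  have h3 : ((∑ P', if E i P' = P then psiR L θ P' else 0 : ℝ) : ℂ)
      = eop i (fun P' => (psiR L θ P' : ℂ)) P := by
    unfold eop
    push_cast
    refine Finset.sum_congr rfl fun P' _ => ?_
    split_ifs <;> simp
  have hb : ((br (θ i - θ (i + 1)) : ℝ) : ℂ)
      = (zc (θ i) - zc (θ (i + 1))) / (q * zc (θ (i + 1)) - q⁻¹ * zc (θ i)) := by
    rw [← bw_zc, bw, qc_q, q_inv]
  have hbd : ((br (θ i - θ (i + 1)) : ℝ) : ℂ) * (q * zc (θ (i + 1)) - q⁻¹ * zc (θ i))
      = zc (θ i) - zc (θ (i + 1)) := by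
    rw [hb, div_mul_cancel₀ _ hden]
  have h4 : ((psiR L (sw L i θ) P : ℝ) : ℂ) = (1 - ((br (θ i - θ (i + 1)) : ℝ) : ℂ)) * psiR L θ P
      + ((br (θ i - θ (i + 1)) : ℝ) : ℂ) * eop i (fun P' => (psiR L θ P' : ℂ)) P := by
    rw [← h3, ← h1]; push_cast; ring
  rw [h4]
  have hq := q_sq
  have hqi := q_inv
  linear_combination (eop i (fun P' => (psiR L θ P' : ℂ)) P - psiR L θ P) * hbd
    + ((zc (θ (i + 1)) - zc (θ i)) * psiR L θ P) * hq
    + ((zc (θ (i + 1)) - zc (θ i)) * psiR L θ P) * hqi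

/-! ### Base patterns -/

theorem base_window (hE : Even L) (hL : 2 ≤ L) (i : ℤ) :
    ∃ x : ℤ, Cg L i x ∧ -(L : ℤ) ≤ 2 * x ∧ 2 * x < L := by
  obtain ⟨n, hn⟩ := hE
  have hpos : (0 : ℤ) < L := by omega
  refine ⟨(i + n) % L - n, ?_, ?_, ?_⟩
  · unfold Cg
    rw [show i - ((i + n) % (L : ℤ) - n) = (i + n) - (i + n) % L by ring]
    exact Int.dvd_self_sub_emod
  · have := Int.emod_nonneg (i + n) hpos.ne'
    omega
  · have := Int.emod_lt_of_pos (i + n) hpos
    omega

theorem base_arc {B : Pat L} (hB : IsBase B) {i : ℤ} (h : B.m i = i + 1) : Cg L (i + 1) 0 := by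
  obtain ⟨x, hx, h1, h2⟩ := base_window (even_of_pat B) B.two_le i
  have h3 : B.m i = B.m x + (i - x) := B.per_dvd hx
  rw [hB x h1 h2, h] at h3
  have : x = -1 := by linarith
  subst this
  unfold Cg at hx ⊢
  rwa [show i - -1 = i + 1 - 0 by ring] at hx

theorem base_unique {B B' : Pat L} (hB : IsBase B) (hB' : IsBase B') : B = B' := by
  apply Pat.ext
  funext i
  obtain ⟨x, hx, h1, h2⟩ := base_window (even_of_pat B) B.two_le i
  exact Pat.eq_of_dvd hx (by rw [hB x h1 h2, hB' x h1 h2])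

theorem eop_base {B : Pat L} (hB : IsBase B) {i : ℤ} (hi : ¬ Cg L (i + 1) 0) (v : Pat L → ℂ) :
    eop i v B = 0 := by
  unfold eop
  apply Finset.sum_eq_zero
  intro P' _
  rw [if_neg]
  intro h
  apply hi
  apply base_arc hB
  rw [← h, E.self]

/-! ### Closure under rotations -/

theorem emod_of_cg {x : ℤ} {k : ℕ} (hk : k < L) (h : Cg L x k) : x % (L : ℤ) = k := by
  have h1 := Int.emod_eq_emod_iff_emod_sub_eq_zero.2 (Int.emod_eq_zero_of_dvd h)
  rw [h1, Int.emod_eq_of_lt (by omega) (by omega)]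

theorem cg_emod (x : ℤ) : Cg L x (x % (L : ℤ)) := Int.dvd_self_sub_emod

/-- Intermediate steps of the left rotation. -/
def Tk (L : ℕ) (θ : ℤ → ℝ) (k : ℕ) : ℤ → ℝ := fun x =>
  if x % (L : ℤ) < k then θ (x + 1) else if x % (L : ℤ) = k then θ (x - k) else θ x

theorem Tk_succ (hL : 2 ≤ L) (θ : ℤ → ℝ) (k : ℕ) (hk : k + 1 < L) :
    Tk L θ (k + 1) = sw L k (Tk L θ k) := by
  funext x
  by_cases h1 : Cg L x k
  · rw [sw_of_i h1]
    have e1 := emod_of_cg (by omega) h1
    have e2 : (x + 1) % (L : ℤ) = (k + 1 : ℕ) :=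
      emod_of_cg hk (by push_cast; exact Cg.add 1 h1)
    unfold Tk
    rw [if_pos (by rw [e1]; push_cast; omega), if_neg (by rw [e2]; push_cast; omega),
      if_neg (by rw [e2]; push_cast; omega)]
  by_cases h2 : Cg L x (k + 1)
  · rw [sw_of_succ hL h2]
    have e1 : x % (L : ℤ) = (k + 1 : ℕ) := emod_of_cg hk (by push_cast; exact h2)
    have e2 : (x - 1) % (L : ℤ) = k := emod_of_cg (by omega) (by
      have := Cg.sub 1 h2
      rwa [add_sub_cancel_right] at this)
    unfold Tk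
    rw [if_neg (by rw [e1]; omega), if_pos e1, if_neg (by rw [e2]; omega), if_pos e2]
    congr 1; push_cast; ring
  · rw [sw_other h1 h2]
    have e1 : x % (L : ℤ) ≠ k := by
      intro h; apply h1; rw [← h]; exact cg_emod x
    have e2 : x % (L : ℤ) ≠ (k + 1 : ℕ) := by
      intro h; apply h2
      have := cg_emod (L := L) x
      rw [h] at this; push_cast at this; exact this
    unfold Tk
    by_cases h3 : x % (L : ℤ) < k
    · rw [if_pos (by push_cast; omega), if_pos h3]
    · rw [if_neg (by push_cast at e2 ⊢; omega), if_neg e2, if_neg h3, if_neg e1]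

theorem closure_left (hL : 2 ≤ L) (C : (ℤ → ℝ) → Prop)
    (hC : ∀ θ : ℤ → ℝ, Oset L θ → ∀ i : ℤ, ¬ Cg L (i + 1) 0 → C θ → C (sw L i θ)) {θ : ℤ → ℝ}
    (hθ : Oset L θ) (h : C θ) : C (fun x => θ (x + 1)) := by
  have hpos : (0 : ℤ) < L := by omega
  have key : ∀ k : ℕ, k < L → Oset L (Tk L θ k) ∧ C (Tk L θ k) := by
    intro k
    induction k with
    | zero =>
      intro _
      have : Tk L θ 0 = θ := by
        funext x
        unfold Tk
        have := Int.emod_nonneg x hpos.ne'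
        rw [if_neg (by push_cast; omega)]
        split_ifs
        · simp
        · rfl
      rw [this]; exact ⟨hθ, h⟩
    | succ k ih =>
      intro hk
      obtain ⟨h1, h2⟩ := ih (by omega)
      rw [Tk_succ hL θ k hk]
      refine ⟨h1.sw hL _, hC _ h1 _ ?_ h2⟩
      apply not_cg_of_lt <;> omega
  have h1 := (key (L - 1) (by omega)).2
  have h2 : Tk L θ (L - 1) = fun x => θ (x + 1) := by
    funext x
    unfold Tk
    have e1 := Int.emod_lt_of_pos x hpos
    split_ifs with g1 g2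
    · rfl
    · have e2 : ((L - 1 : ℕ) : ℤ) = L - 1 := by push_cast [Nat.cast_sub (show 1 ≤ L by omega)]; ring
      rw [e2, ← hθ.per (x - (L - 1))]
      congr 1; ring
    · exfalso
      have e2 : ((L - 1 : ℕ) : ℤ) = L - 1 := by push_cast [Nat.cast_sub (show 1 ≤ L by omega)]; ring
      rw [e2] at g1 g2
      omega
  rwa [h2] at h1

theorem Oset.shift {θ : ℤ → ℝ} (hθ : Oset L θ) (k : ℕ) : Oset L (fun x => θ (x + k)) := by
  induction k with
  | zero => simpa using hθ
  | succ k ih =>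
    have := ih.rot'
    have e : (fun x : ℤ => θ (x + 1 + k)) = fun x : ℤ => θ (x + ((k + 1 : ℕ) : ℤ)) := by
      funext x; congr 1; push_cast; ring
    rw [← e]; exact this

theorem closure_shift (hL : 2 ≤ L) (C : (ℤ → ℝ) → Prop)
    (hC : ∀ θ : ℤ → ℝ, Oset L θ → ∀ i : ℤ, ¬ Cg L (i + 1) 0 → C θ → C (sw L i θ)) {θ : ℤ → ℝ}
    (hθ : Oset L θ) (h : C θ) (k : ℕ) : C (fun x => θ (x + k)) := by
  induction k with
  | zero => simpa using h
  | succ k ih =>
    have h2 := closure_left hL C hC (hθ.shift k) ih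
    have e : (fun x : ℤ => θ (x + 1 + k)) = fun x : ℤ => θ (x + ((k + 1 : ℕ) : ℤ)) := by
      funext x; congr 1; push_cast; ring
    rw [← e]; exact h2

theorem closure_right (hL : 2 ≤ L) (C : (ℤ → ℝ) → Prop)
    (hC : ∀ θ : ℤ → ℝ, Oset L θ → ∀ i : ℤ, ¬ Cg L (i + 1) 0 → C θ → C (sw L i θ)) {θ : ℤ → ℝ}
    (hθ : Oset L θ) (h : C θ) : C (fun x => θ (x - 1)) := by
  have h1 := closure_shift hL C hC hθ h (L - 1)
  have e : (fun x : ℤ => θ (x + ((L - 1 : ℕ) : ℤ))) = fun x : ℤ => θ (x - 1) := by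
    funext x
    rw [← hθ.per (x - 1)]
    congr 1
    push_cast [Nat.cast_sub (show 1 ≤ L by omega)]; ring
  rwa [e] at h1

theorem closure_sw (hL : 2 ≤ L) (C : (ℤ → ℝ) → Prop)
    (hC : ∀ θ : ℤ → ℝ, Oset L θ → ∀ i : ℤ, ¬ Cg L (i + 1) 0 → C θ → C (sw L i θ)) {θ : ℤ → ℝ}
    (hθ : Oset L θ) (h : C θ) (i : ℤ) : C (sw L i θ) := by
  by_cases hi : Cg L (i + 1) 0
  · have h1 := closure_right hL C hC hθ h
    have hn : ¬ Cg L (i + 1 + 1) 0 := by
      intro h'
      have := Cg.trans' h' (Cg.symm' hi)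
      exact not_Cg_succ hL (i + 1) (Cg.symm' this)
    have h2 := hC _ hθ.rot (i + 1) hn h1
    have h3 := closure_left hL C hC (hθ.rot.sw hL (i + 1)) h2
    have e : (fun x : ℤ => sw L (i + 1) (fun x => θ (x - 1)) (x + 1)) = sw L i θ := by
      funext x
      unfold sw
      have e1 : Cg L (x + 1) (i + 1) ↔ Cg L x i := by
        unfold Cg; rw [show x + 1 - (i + 1) = x - i by ring]
      have e2 : Cg L (x + 1) (i + 1 + 1) ↔ Cg L x (i + 1) := by
        unfold Cg; rw [show x + 1 - (i + 1 + 1) = x - (i + 1) by ring]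
      simp only [e1, e2, add_sub_cancel_right]
    rwa [e] at h3
  · exact hC θ hθ i hi h

/-! ### The base component does not vanish -/

theorem psiR_base_ne {B : Pat L} (hB : IsBase B) {θ : ℤ → ℝ} (hθ : Oset L θ) :
    psiR L θ B ≠ 0 := by
  intro h0
  have hL := B.two_le
  set C : (ℤ → ℝ) → Prop := fun θ => psiR L θ B = 0 with hCdef
  have hC : ∀ θ : ℤ → ℝ, Oset L θ → ∀ i : ℤ, ¬ Cg L (i + 1) 0 → C θ → C (sw L i θ) := by
    intro θ hθ i hi hc
    have h1 := psiC_exch B hθ i B
    rw [eop_base hB hi, show psiR L θ B = 0 from hc] at h1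
    simp only [Complex.ofReal_zero, mul_zero, add_zero] at h1
    have h2 := (mul_eq_zero.1 h1).resolve_left (hθ.den (i + 1) i)
    exact_mod_cast h2
  have htri := triangular L (ℤ → ℝ) {θ | Oset L θ ∧ C θ} (fun i θ => sw L i θ)
    (fun θ x => θ (x - 1)) (fun θ x => zc (θ x)) (fun P θ => (psiR L θ P : ℂ))
    (fun i θ h => ⟨h.1.sw hL i, closure_sw hL C hC h.1 h.2 i⟩)
    (fun θ h => ⟨fun x => θ (x + 1), ⟨h.1.rot', closure_left hL C hC h.1 h.2⟩, by
      funext x; simp⟩)
    (fun θ h i => h.1.zne hL i)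
    (fun P θ h i => psiC_exch B h.1 i P)
    (fun P θ h => by
      obtain ⟨m, hm⟩ := h.1
      have h1 := congrFun (psiR_rot B hm) (rot P)
      rw [← h1]
      unfold RotM
      rw [mapMat_mulVec, Finset.sum_eq_single P]
      · rw [if_pos rfl]
      · intro P' _ hne
        rw [if_neg]
        intro h'
        apply hne
        apply Pat.ext
        funext x
        have := congrArg (fun R : Pat L => R.m (x + 1)) h'
        simp only [rot_m, add_sub_cancel_right, add_left_inj] at this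
        exact this
      · intro h; exact absurd (Finset.mem_univ _) h)
    (fun B' hB' θ h => by
      rw [base_unique hB' hB]
      have := h.2
      simp only [hCdef] at this
      rw [this]; simp)
  obtain ⟨m, hm⟩ := hθ
  have hsum := (psiR_spec B hm).2
  have : ∀ P, psiR L θ P = 0 := by
    intro P
    have := htri P θ ⟨⟨m, hm⟩, h0⟩
    exact_mod_cast this
  simp [this] at hsum

end Pool.Agent.H12.QKZ

end

section

/-!
# The renormalised vector and its polynomiality
-/

namespace Pool.Agent.H12.QKZ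

open H56.EX Matrix MvPolynomial

variable {L : ℕ}

theorem gp_congr {n : ℕ} {s s' : ℕ → ℂ} (h : ∀ i < n, s i = s' i) : gp n s = gp n s' := by
  unfold gp
  refine Finset.prod_congr rfl fun j hj => Finset.prod_congr rfl fun i hi => ?_
  rw [Finset.mem_range] at hi hj
  rw [h j hj, h i (hi.trans hj)]

/-- The normalising factor. -/
noncomputable def lam (B : Pat L) (θ : ℤ → ℝ) : ℂ :=
  gp L (fun k => zc (θ (k : ℕ))) / (psiR L θ B : ℂ)

theorem sw_congr {i j : ℤ} (hc : Cg L i j) (θ : ℤ → ℝ) : sw L i θ = sw L j θ := by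
  funext x
  unfold sw
  have e1 : Cg L x i ↔ Cg L x j := ⟨fun h' => Cg.trans' h' hc,
    fun h' => Cg.trans' h' (Cg.symm' hc)⟩
  have e2 : Cg L x (i + 1) ↔ Cg L x (j + 1) := ⟨fun h' => Cg.trans' h' (Cg.add 1 hc),
    fun h' => Cg.trans' h' (Cg.symm' (Cg.add 1 hc))⟩
  simp only [e1, e2]

theorem sw_nat {θ : ℤ → ℝ} (hL : 2 ≤ L) {k : ℕ} (hk : k + 1 < L) {i : ℕ} (hi : i < L) :
    sw L k θ i = θ (Equiv.swap k (k + 1) i : ℕ) := by
  by_cases h1 : i = k
  · subst h1
    rw [sw_of_i (Cg.refl' _), Equiv.swap_apply_left]; push_cast; rfl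
  by_cases h2 : i = k + 1
  · subst h2
    rw [sw_of_succ hL (by push_cast; exact Cg.refl' _), Equiv.swap_apply_right]
    congr 1; push_cast; ring
  · rw [Equiv.swap_apply_of_ne_of_ne h1 h2, sw_other]
    · intro h
      have := (cg_iff_eq_zero (by omega) (by omega)).1 h
      omega
    · intro h
      have := (cg_iff_eq_zero (by omega) (by omega)).1 h
      omega

theorem lam_sw_aux {B : Pat L} (hB : IsBase B) {θ : ℤ → ℝ} (hθ : Oset L θ) (i : ℤ)
    (hi : ¬ Cg L (i + 1) 0) : lam B (sw L i θ) = lam B θ := by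
  have hL := B.two_le
  have hpos : (0 : ℤ) < L := by omega
  obtain ⟨k, hk⟩ : ∃ k : ℕ, (k : ℤ) = i % L :=
    ⟨(i % L).toNat, Int.toNat_of_nonneg (Int.emod_nonneg _ hpos.ne')⟩
  have hc : Cg L i k := by rw [hk]; exact cg_emod i
  have hkL : k < L := by
    have := Int.emod_lt_of_pos i hpos
    omega
  have hk1 : k + 1 < L := by
    by_contra hcon
    apply hi
    have h1 : Cg L (i + 1) (k + 1) := Cg.add 1 hc
    refine Cg.trans' h1 ?_
    have : (k : ℤ) + 1 = L := by omega
    rw [this]; unfold Cg; simp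
  have hi' : ¬ Cg L ((k : ℤ) + 1) 0 := fun h => hi (Cg.trans' (Cg.add 1 hc) h)
  rw [sw_congr hc]
  have h1 : gp L (fun j => zc (sw L k θ (j : ℕ)))
      = gp L (fun j => (fun j : ℕ => zc (θ (j : ℕ))) (Equiv.swap k (k + 1) j)) := by
    apply gp_congr
    intro j hj
    simp only
    rw [sw_nat hL hk1 hj]
  have h2 := gp_swap (fun j : ℕ => zc (θ (j : ℕ))) k L (by omega)
  rw [← h1] at h2
  have h3 := psiC_exch B hθ k B
  rw [eop_base hB hi', mul_zero, add_zero] at h3
  have n1 := psiR_base_ne hB hθ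
  have n2 := psiR_base_ne hB (hθ.sw hL k)
  have n1' : (psiR L θ B : ℂ) ≠ 0 := by exact_mod_cast n1
  have n2' : (psiR L (sw L k θ) B : ℂ) ≠ 0 := by exact_mod_cast n2
  have d1 := hθ.den (k + 1) k
  have d2 := hθ.den k (k + 1)
  unfold lam
  rw [div_eq_div_iff n2' n1']
  push_cast at h2
  apply mul_left_cancel₀ d1
  linear_combination (psiR L θ B : ℂ) * h2 - gp L (fun j : ℕ => zc (θ (j : ℕ))) * h3

theorem lam_closed {B : Pat L} (hB : IsBase B) (c : ℂ) : ∀ θ : ℤ → ℝ, Oset L θ → ∀ i : ℤ,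
    ¬ Cg L (i + 1) 0 → (fun θ => lam B θ = c) θ → (fun θ => lam B θ = c) (sw L i θ) := by
  intro θ hθ i hi h
  show lam B (sw L i θ) = c
  rw [lam_sw_aux hB hθ i hi]; exact h

theorem lam_sw {B : Pat L} (hB : IsBase B) {θ : ℤ → ℝ} (hθ : Oset L θ) (i : ℤ) :
    lam B (sw L i θ) = lam B θ :=
  closure_sw B.two_le _ (lam_closed hB (lam B θ)) hθ rfl i

theorem lam_rot {B : Pat L} (hB : IsBase B) {θ : ℤ → ℝ} (hθ : Oset L θ) :
    lam B (fun x => θ (x - 1)) = lam B θ :=
  closure_right B.two_le _ (lam_closed hB (lam B θ)) hθ rfl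

/-- The renormalised vector at admissible angles. -/
noncomputable def PsiN (B : Pat L) (P : Pat L) (θ : ℤ → ℝ) : ℂ := lam B θ * psiR L θ P

theorem PsiN_exch {B : Pat L} (hB : IsBase B) {θ : ℤ → ℝ} (h : Oset L θ) (i : ℤ) (P : Pat L) :
    (q * zc (θ (i + 1)) - q⁻¹ * zc (θ i)) * PsiN B P (sw L i θ)
      = (q * zc (θ i) - q⁻¹ * zc (θ (i + 1))) * PsiN B P θ
        + (zc (θ i) - zc (θ (i + 1))) * eop i (fun P' => PsiN B P' θ) P := by
  have h1 := psiC_exch B h i P
  have h2 : eop i (fun P' => PsiN B P' θ) P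
      = lam B θ * eop i (fun P' => (psiR L θ P' : ℂ)) P := by
    unfold eop PsiN
    rw [Finset.mul_sum]
    refine Finset.sum_congr rfl fun P' _ => ?_
    split_ifs <;> simp
  rw [h2]
  unfold PsiN
  rw [lam_sw hB h]
  linear_combination lam B θ * h1

theorem rot_inj {P P' : Pat L} (h : rot P = rot P') : P = P' := by
  apply Pat.ext
  funext x
  have := congrArg (fun R : Pat L => R.m (x + 1)) h
  simp only [rot_m, add_sub_cancel_right, add_left_inj] at this
  exact this

theorem psiR_rot' {θ : ℤ → ℝ} (P : Pat L) (h : Oset L θ) :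
    psiR L (fun x => θ (x - 1)) (rot P) = psiR L θ P := by
  obtain ⟨m, hm⟩ := h
  have h1 := congrFun (psiR_rot P hm) (rot P)
  rw [← h1]
  unfold RotM
  rw [mapMat_mulVec, Finset.sum_eq_single P]
  · rw [if_pos rfl]
  · intro P' _ hne
    rw [if_neg]
    intro h'
    exact hne (rot_inj h')
  · intro h; exact absurd (Finset.mem_univ _) h

theorem PsiN_rot {B : Pat L} (hB : IsBase B) {θ : ℤ → ℝ} (h : Oset L θ) (P : Pat L) :
    PsiN B (rot P) (fun x => θ (x - 1)) = PsiN B P θ := by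
  unfold PsiN
  rw [lam_rot hB h, psiR_rot' P h]

theorem PsiN_base {B : Pat L} (hB : IsBase B) {θ : ℤ → ℝ} (h : Oset L θ) :
    PsiN B B θ = gp L (fun k => zc (θ (k : ℕ))) := by
  unfold PsiN lam
  have n1 := psiR_base_ne hB h
  have n1' : (psiR L θ B : ℂ) ≠ 0 := by exact_mod_cast n1
  rw [div_mul_cancel₀ _ n1']

theorem PsiN_rot_iter {B : Pat L} (hB : IsBase B) {θ : ℤ → ℝ} (h : Oset L θ) (P : Pat L) (k : ℕ) :
    PsiN B (rot^[k] P) θ = PsiN B P (fun x => θ (x + k)) := by
  induction k with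
  | zero => simp
  | succ k ih =>
    rw [Function.iterate_succ', Function.comp_apply]
    have h1 := PsiN_rot hB (h.rot') (rot^[k] P)
    simp only [sub_add_cancel] at h1
    rw [h1]
    -- now shift: `PsiN (rot^[k] P) (θ (· + 1))`
    clear h1 ih
    induction k generalizing θ with
    | zero => simp
    | succ k ih2 =>
      rw [Function.iterate_succ', Function.comp_apply]
      have h2 := PsiN_rot hB (h.rot'.rot') (rot^[k] P)
      have e : (fun x : ℤ => θ (x + 1)) = fun x : ℤ => θ (x - 1 + 1 + 1) := by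
        funext x; congr 1; ring
      rw [e, h2]
      have h3 := ih2 h.rot'
      rw [h3]
      congr 1
      funext x; congr 1; push_cast; ring

/-- Cyclic shift of `Fin L`. -/
def cyc (L : ℕ) (k : ℕ) (i : Fin L) : Fin L :=
  ⟨(i + k) % L, Nat.mod_lt _ (Nat.pos_of_ne_zero (by rintro rfl; exact i.elim0))⟩

theorem cyc_injective (L k : ℕ) : Function.Injective (cyc L k) := by
  intro a b h
  have h1 := congrArg Fin.val h
  simp only [cyc] at h1
  have h2 : (a : ℕ) ≡ b [MOD L] := Nat.ModEq.add_right_cancel' k h1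
  exact Fin.ext (Nat.ModEq.eq_of_lt_of_lt h2 a.isLt b.isLt)

/-- Cyclic shift as a permutation. -/
noncomputable def cycE (L k : ℕ) : Equiv.Perm (Fin L) :=
  Equiv.ofBijective (cyc L k) ((Fintype.bijective_iff_injective_and_card _).2
    ⟨cyc_injective L k, rfl⟩)

theorem eval_cyc {α : Type*} {f : ℤ → α} (hf : ∀ x, f (x + L) = f x) (k : ℕ) (i : Fin L) :
    f ((cycE L k i : Fin L) : ℕ) = f ((i : ℕ) + k) := by
  apply per_dvd_fun hf
  show Cg L (((i + k) % L : ℕ) : ℤ) ((i : ℕ) + k)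
  unfold Cg
  push_cast
  rw [show ((i : ℤ) + k) % L - (i + k) = -((i + k) - (i + k) % L) by ring, dvd_neg]
  exact Int.dvd_self_sub_emod

/-- Index of a position. -/
def idx (hL : 0 < L) (i : ℤ) : Fin L :=
  ⟨(i % (L : ℤ)).toNat, by
    have h1 := Int.emod_lt_of_pos i (show (0 : ℤ) < L by omega)
    have h2 := Int.emod_nonneg i (show (L : ℤ) ≠ 0 by omega)
    omega⟩

theorem idx_cast (hL : 0 < L) (i : ℤ) : ((idx hL i : Fin L) : ℤ) = i % L := by
  unfold idx
  exact Int.toNat_of_nonneg (Int.emod_nonneg _ (by omega))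

theorem idx_cg (hL : 0 < L) (i : ℤ) : Cg L i ((idx hL i : Fin L) : ℕ) := by
  have := idx_cast hL i
  rw [this]; exact cg_emod i

theorem idx_ne (hL : 0 < L) (hL2 : 2 ≤ L) (i : ℤ) : idx hL i ≠ idx hL (i + 1) := by
  intro h
  have h1 := idx_cg hL i
  have h2 := idx_cg hL (i + 1)
  rw [h] at h1
  exact not_Cg_succ hL2 i (Cg.trans' h1 (Cg.symm' h2))

theorem idx_iff (hL : 0 < L) (i : ℤ) (k : Fin L) : k = idx hL i ↔ Cg L (k : ℕ) i := by
  constructor
  · rintro rfl; exact Cg.symm' (idx_cg hL i)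
  · intro h
    have h1 := Cg.trans' h (idx_cg hL i)
    have h2 := k.isLt
    have h3 := (idx hL i).isLt
    have := (cg_iff_eq_zero (by omega) (by omega)).1 h1
    exact Fin.ext (by exact_mod_cast this)

/-- Evaluation of a swapped polynomial. -/
theorem eval_swap {α : Type*} {f : ℤ → α} (hf : ∀ x, f (x + L) = f x) (hL : 0 < L)
    (i : ℤ) (k : Fin L) :
    f ((Equiv.swap (idx hL i) (idx hL (i + 1)) k : Fin L) : ℕ)
      = (if Cg L (k : ℕ) i then f ((k : ℕ) + 1) else if Cg L (k : ℕ) (i + 1) then f ((k : ℕ) - 1)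
          else f (k : ℕ)) := by
  by_cases h1 : Cg L (k : ℕ) i
  · rw [if_pos h1, (idx_iff hL i k).2 h1, Equiv.swap_apply_left]
    apply per_dvd_fun hf
    exact Cg.trans' (Cg.symm' (idx_cg hL (i + 1))) (Cg.add 1 (idx_cg hL i))
  by_cases h2 : Cg L (k : ℕ) (i + 1)
  · rw [if_neg h1, if_pos h2, (idx_iff hL (i + 1) k).2 h2, Equiv.swap_apply_right]
    apply per_dvd_fun hf
    have h3 := Cg.sub 1 (idx_cg hL (i + 1))
    rw [add_sub_cancel_right] at h3
    exact Cg.trans' (Cg.symm' (idx_cg hL i)) h3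
  · rw [if_neg h1, if_neg h2, Equiv.swap_apply_of_ne_of_ne]
    · exact fun h => h1 ((idx_iff hL i k).1 h)
    · exact fun h => h2 ((idx_iff hL (i + 1) k).1 h)

/-- Polynomiality of all components. -/
theorem exists_poly {B : Pat L} (hB : IsBase B) (P : Pat L) :
    ∃ p : MvPolynomial (Fin L) ℂ, JointBd loF (upF L) p ∧
      ∀ θ : ℤ → ℝ, Oset L θ → PsiN B P θ = eval (fun k : Fin L => zc (θ (k : ℕ))) p := by
  classical
  have hL2 := B.two_le
  have hL : 0 < L := by omega
  revert P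
  apply pat_induction
  · intro k B' hB'
    rw [base_unique hB' hB]
    refine ⟨rename (cycE L k) (PhiP L), (PhiP_bd L).rename _, fun θ hθ => ?_⟩
    rw [PsiN_rot_iter hB hθ, PsiN_base hB (hθ.shift k), ← eval_PhiP, eval_rename]
    have e2 : (fun i : Fin L => zc (θ (((i : ℕ) : ℤ) + k)))
        = (fun i : Fin L => zc (θ ((i : ℕ) : ℤ))) ∘ (cycE L k) := by
      funext i
      simp only [Function.comp_apply]
      exact (eval_cyc (f := fun x => zc (θ x)) (fun x => by rw [hθ.per]) k i).symm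
    exact congrArg (fun g => eval g (PhiP L)) e2
  · intro P i hi hQ hother
    obtain ⟨pQ, hpQ, hpQ'⟩ := hQ
    obtain ⟨Q, hQ⟩ := exists_dd q_sq (idx_ne hL hL2 i) pQ
    choose! f hf1 hf2 using hother
    refine ⟨Q - ∑ P' : Pat L, (if E i P' = E i P ∧ P' ≠ P then f P' else 0), ?_, ?_⟩
    · refine (hpQ.dd (idx_ne hL hL2 i) hQ).sub (JointBd.sum _ _ fun P' _ => ?_)
      split_ifs with h
      · exact hf1 P' h.1 h.2
      · exact JointBd.zero _ _
    · intro θ hθ
      have h1 := PsiN_exch hB hθ i (E i P)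
      rw [hpQ' _ (hθ.sw hL2 i), hpQ' _ hθ] at h1
      have h2 := congrArg (eval (fun k : Fin L => zc (θ (k : ℕ)))) hQ.1
      unfold ddNum at h2
      simp only [map_mul, map_sub, eval_X, eval_C, eval_rename] at h2
      have e1 : zc (θ ((idx hL i : Fin L) : ℕ)) = zc (θ i) := by
        rw [per_dvd_fun hθ.per (idx_cg hL i)]
      have e2 : zc (θ ((idx hL (i + 1) : Fin L) : ℕ)) = zc (θ (i + 1)) := by
        rw [per_dvd_fun hθ.per (idx_cg hL (i + 1))]
      have e3 : (fun k : Fin L => zc (θ (k : ℕ))) ∘ (Equiv.swap (idx hL i) (idx hL (i + 1)))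
          = fun k : Fin L => zc (sw L i θ (k : ℕ)) := by
        funext k
        simp only [Function.comp_apply]
        rw [eval_swap (f := fun x => zc (θ x)) (fun x => by rw [hθ.per]) hL]
        unfold sw
        split_ifs <;> rfl
      rw [e1, e2, e3] at h2
      have hz := sub_ne_zero.2 (hθ.zne hL2 i)
      have h3 : eop i (fun P' => PsiN B P' θ) (E i P)
          = eval (fun k : Fin L => zc (θ (k : ℕ))) Q := by
        apply mul_left_cancel₀ hz
        rw [h2, ← q_inv]
        linear_combination -h1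
      have h4 : eop i (fun P' => PsiN B P' θ) (E i P) = PsiN B P θ
          + ∑ P' : Pat L, (if E i P' = E i P ∧ P' ≠ P then PsiN B P' θ else 0) := by
        unfold eop
        rw [← Finset.add_sum_erase Finset.univ _ (Finset.mem_univ P), if_pos rfl]
        congr 1
        rw [← Finset.add_sum_erase Finset.univ (fun P' : Pat L =>
          (if E i P' = E i P ∧ P' ≠ P then PsiN B P' θ else 0)) (Finset.mem_univ P)]
        rw [if_neg (by simp), zero_add]
        refine Finset.sum_congr rfl fun P' hP' => ?_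
        rw [Finset.mem_erase] at hP'
        by_cases hE : E i P' = E i P
        · rw [if_pos hE, if_pos ⟨hE, hP'.1⟩]
        · rw [if_neg hE, if_neg (fun h => hE h.1)]
      rw [map_sub, ← h3, h4, map_sum]
      have h5 : ∀ P' : Pat L, eval (fun k : Fin L => zc (θ (k : ℕ)))
          (if E i P' = E i P ∧ P' ≠ P then f P' else 0)
          = if E i P' = E i P ∧ P' ≠ P then PsiN B P' θ else 0 := by
        intro P'
        split_ifs with h
        · rw [hf2 P' h.1 h.2 θ hθ]
        · simp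
      rw [Finset.sum_congr rfl fun P' _ => h5 P']
      ring

end Pool.Agent.H12.QKZ

end

section

/-!
# The polynomial qKZ solution
-/

namespace Pool.Agent.H12.QKZ

open H56.EX Matrix MvPolynomial

variable {L : ℕ}

theorem exists_base (P : Pat L) : ∃ B : Pat L, IsBase B := by
  revert P
  apply pat_induction (motive := fun _ => ∃ B : Pat L, IsBase B)
  · intro _ B hB; exact ⟨B, hB⟩
  · intro _ _ _ h _; exact h

open Classical in
/-- The components as polynomials. -/
noncomputable def PsiPoly (P : Pat L) : MvPolynomial (Fin L) ℂ :=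
  if h : ∃ B : Pat L, IsBase B then (exists_poly h.choose_spec P).choose else 0

/-- The qKZ solution. -/
noncomputable def Psi (L : ℕ) (P : Pat L) (ζ : ℤ → ℂ) : ℂ :=
  eval (fun k : Fin L => ζ ((k : ℕ) : ℤ)) (PsiPoly P)

theorem PsiPoly_bd (P : Pat L) : JointBd loF (upF L) (PsiPoly P) := by
  unfold PsiPoly
  rw [dif_pos (exists_base P)]
  exact (exists_poly (exists_base P).choose_spec P).choose_spec.1

theorem PsiPoly_num {B : Pat L} (hB : IsBase B) (P : Pat L) {θ : ℤ → ℝ} (hθ : Oset L θ) :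
    eval (fun k : Fin L => zc (θ (k : ℕ))) (PsiPoly P) = PsiN B P θ := by
  have h := (exists_poly (exists_base P).choose_spec P).choose_spec.2 θ hθ
  unfold PsiPoly
  rw [dif_pos (exists_base P), ← h, base_unique (exists_base P).choose_spec hB]

theorem zc_swap {θ : ℤ → ℝ} (hθ : Oset L θ) (hL : 0 < L) (i : ℤ) :
    (fun k : Fin L => zc (θ (k : ℕ))) ∘ (Equiv.swap (idx hL i) (idx hL (i + 1)))
      = fun k : Fin L => zc (sw L i θ (k : ℕ)) := by
  funext k
  simp only [Function.comp_apply]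
  rw [eval_swap (f := fun x => zc (θ x)) (fun x => by rw [hθ.per]) hL]
  unfold sw
  split_ifs <;> rfl

/-- Exchange relation for the polynomials. -/
theorem PsiPoly_exch (hL : 0 < L) (P : Pat L) (i : ℤ) :
    (C q * X (idx hL (i + 1)) - C q⁻¹ * X (idx hL i)) *
        rename (Equiv.swap (idx hL i) (idx hL (i + 1))) (PsiPoly P)
      = (C q * X (idx hL i) - C q⁻¹ * X (idx hL (i + 1))) * PsiPoly P
        + (X (idx hL i) - X (idx hL (i + 1))) *
          ∑ P' : Pat L, (if E i P' = P then PsiPoly P' else 0) := by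
  obtain ⟨B, hB⟩ := exists_base P
  apply dens_adm hL
  intro θ hθ
  have hθ' : Oset L θ := hθ
  have e1 : zc (θ ((idx hL i : Fin L) : ℕ)) = zc (θ i) := by
    rw [per_dvd_fun hθ'.per (idx_cg hL i)]
  have e2 : zc (θ ((idx hL (i + 1) : Fin L) : ℕ)) = zc (θ (i + 1)) := by
    rw [per_dvd_fun hθ'.per (idx_cg hL (i + 1))]
  simp only [map_mul, map_sub, map_add, map_sum, eval_X, eval_C, eval_rename]
  rw [zc_swap hθ' hL, PsiPoly_num hB P (hθ'.sw P.two_le i), PsiPoly_num hB P hθ', e1, e2,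
    PsiN_exch hB hθ' i P]
  congr 2
  unfold eop
  refine Finset.sum_congr rfl fun P' _ => ?_
  split_ifs
  · rw [PsiPoly_num hB P' hθ']
  · simp

theorem PsiPoly_rot (P : Pat L) :
    rename (cycE L (L - 1)) (PsiPoly (rot P)) = PsiPoly P := by
  obtain ⟨B, hB⟩ := exists_base P
  have hL2 := P.two_le
  apply dens_adm (by omega)
  intro θ hθ
  have hθ' : Oset L θ := hθ
  rw [eval_rename, PsiPoly_num hB P hθ']
  have e : (fun k : Fin L => zc (θ (k : ℕ))) ∘ (cycE L (L - 1))
      = fun k : Fin L => zc ((fun x => θ (x - 1)) (k : ℕ)) := by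
    funext k
    simp only [Function.comp_apply]
    rw [eval_cyc (f := fun x => zc (θ x)) (fun x => by rw [hθ'.per]) (L - 1) k]
    congr 1
    rw [← hθ'.per ((k : ℕ) - 1)]
    congr 1
    push_cast [Nat.cast_sub (show 1 ≤ L by omega)]; ring
  have h1 := PsiPoly_num hB (rot P) hθ'.rot
  rw [PsiN_rot hB hθ' P] at h1
  rw [e]
  exact h1

theorem PsiPoly_base {B : Pat L} (hB : IsBase B) : PsiPoly B = PhiP L := by
  have hL2 := B.two_le
  apply dens_adm (by omega)
  intro θ hθ
  have hθ' : Oset L θ := hθ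
  rw [PsiPoly_num hB B hθ', PsiN_base hB hθ', ← eval_PhiP]

/-- A polynomial in one variable obtained by specialising all others. -/
theorem natDegree_spec {n : ℕ} (a : Fin n) (c : Fin n → ℂ) (p : MvPolynomial (Fin n) ℂ) (d : ℕ)
    (h : ∀ e, coeff e p ≠ 0 → e a ≤ d) :
    ∃ P : Polynomial ℂ, P.natDegree ≤ d ∧
      ∀ t, eval (fun k => if k = a then t else c k) p = P.eval t := by
  refine ⟨∑ e ∈ p.support, Polynomial.C (coeff e p) *
    ∏ k, (if k = a then Polynomial.X else Polynomial.C (c k)) ^ (e k), ?_, ?_⟩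
  · apply Polynomial.natDegree_sum_le_of_forall_le
    intro e he
    rw [mem_support_iff] at he
    refine (Polynomial.natDegree_C_mul_le _ _).trans ?_
    refine (Polynomial.natDegree_prod_le _ _).trans ?_
    refine le_trans (Finset.sum_le_sum (g := fun k => if k = a then e k else 0) fun k _ => ?_) ?_
    · split_ifs with hk
      · refine (Polynomial.natDegree_pow_le).trans ?_
        simp
      · refine (Polynomial.natDegree_pow_le).trans ?_
        simp
    · simp only [Finset.sum_ite_eq', Finset.mem_univ, if_true]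
      exact h e he
  · intro t
    rw [eval_eq, Polynomial.eval_finsetSum]
    refine Finset.sum_congr rfl fun e _ => ?_
    rw [Polynomial.eval_mul, Polynomial.eval_C, Polynomial.eval_prod]
    congr 1
    have h1 : ∀ k, Polynomial.eval t ((if k = a then Polynomial.X else Polynomial.C (c k)) ^ (e k))
        = (if k = a then t else c k) ^ (e k) := by
      intro k
      rw [Polynomial.eval_pow]
      split_ifs <;> simp
    rw [Finset.prod_congr rfl fun k _ => h1 k]
    rw [Finset.prod_subset (Finset.subset_univ e.support)]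
    intro k _ hk
    rw [Finsupp.mem_support_iff, not_not] at hk
    rw [hk, pow_zero]

theorem upF_one {L : ℕ} (hL : 1 ≤ L) : upF L 1 = L - 1 := by
  obtain ⟨n, rfl⟩ : ∃ n, L = n + 1 := ⟨L - 1, by omega⟩
  unfold upF
  rw [Nat.add_sub_cancel, Nat.choose_succ_succ' n 1, Nat.choose_one_right,
    show (1 + 1 : ℕ) = 2 from rfl]
  omega

theorem psiPre : PsiPre Psi where
  congr := fun L P ζ ζ' h => by
    unfold Psi
    congr 1
    have : (fun k : Fin L => ζ ((k : ℕ) : ℤ)) = fun k : Fin L => ζ' ((k : ℕ) : ℤ) := by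
      funext k
      exact h _ (by omega) (by have := k.isLt; omega)
    rw [this]
  mv := fun L P => ⟨PsiPoly P, fun ζ => rfl⟩
  exch := fun L P ζ hper i => by
    have hL2 := P.two_le
    have hL : 0 < L := by omega
    have h1 := congrArg (eval (fun k : Fin L => ζ ((k : ℕ) : ℤ))) (PsiPoly_exch hL P i)
    simp only [map_mul, map_sub, map_add, map_sum, eval_X, eval_C, eval_rename] at h1
    have e1 : ζ ((idx hL i : Fin L) : ℕ) = ζ i := (per_dvd_fun hper (idx_cg hL i)).symm
    have e2 : ζ ((idx hL (i + 1) : Fin L) : ℕ) = ζ (i + 1) :=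
      (per_dvd_fun hper (idx_cg hL (i + 1))).symm
    have e3 : (fun k : Fin L => ζ ((k : ℕ) : ℤ)) ∘ (Equiv.swap (idx hL i) (idx hL (i + 1)))
        = fun k : Fin L => swp L i ζ ((k : ℕ) : ℤ) := by
      funext k
      simp only [Function.comp_apply]
      rw [eval_swap hper hL]
      unfold swp
      split_ifs <;> rfl
    rw [e1, e2, e3] at h1
    unfold Psi
    rw [h1]
    congr 2
    unfold eop
    refine Finset.sum_congr rfl fun P' _ => ?_
    split_ifs <;> simp
  rot := fun L P ζ hper => by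
    have hL2 := P.two_le
    have h1 := congrArg (eval (fun k : Fin L => ζ ((k : ℕ) : ℤ))) (PsiPoly_rot P)
    rw [eval_rename] at h1
    have e : (fun k : Fin L => ζ ((k : ℕ) : ℤ)) ∘ (cycE L (L - 1))
        = fun k : Fin L => (fun x => ζ (x - 1)) ((k : ℕ) : ℤ) := by
      funext k
      simp only [Function.comp_apply]
      rw [eval_cyc hper (L - 1) k, ← hper ((k : ℕ) - 1)]
      congr 1
      push_cast [Nat.cast_sub (show 1 ≤ L by omega)]; ring
    rw [e] at h1
    exact h1
  base := fun L P ζ hP => by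
    unfold Psi
    rw [PsiPoly_base hP]
    exact eval_PhiP L (fun k => ζ k)

/-- The polynomial qKZ solution has all properties used by the leg formulas. -/
theorem psiProps : PsiProps Psi where
  congr := psiPre.congr
  mv := psiPre.mv
  poly := fun L P ζ _ i => by
    have hL2 := P.two_le
    have hL : 0 < L := by omega
    have hb := PsiPoly_bd P
    obtain ⟨p, hp1, hp2⟩ := natDegree_spec (idx hL i) (fun k => ζ ((k : ℕ) : ℤ)) (PsiPoly P)
      (L - 1) (fun e he => by
        have := (hb {idx hL i} e he).2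
        rw [Finset.sum_singleton, Finset.card_singleton, upF_one (by omega)] at this
        exact this)
    refine ⟨p, hp1, fun t => ?_⟩
    rw [← hp2]
    unfold Psi
    have : (fun k : Fin L => upd L ζ i t ((k : ℕ) : ℤ))
        = fun k : Fin L => if k = idx hL i then t else ζ ((k : ℕ) : ℤ) := by
      funext k
      unfold upd
      by_cases h : Cg L ((k : ℕ) : ℤ) i
      · rw [if_pos h, if_pos ((idx_iff hL i k).2 h)]
      · rw [if_neg h, if_neg (fun h' => h ((idx_iff hL i k).1 h'))]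
    rw [this]
  exch := psiPre.exch
  rot := psiPre.rot
  arc_zero := Pool.Agent.H14.EX.arc_zero_of psiPre
  arc := Pool.Agent.H14.EX.arc_of triangular psiPre
  base := psiPre.base

end Pool.Agent.H12.QKZ

end

section

/-! The base case of the leg formula: `F22` with no glued strand. -/

namespace H56.EX

open scoped BigOperators Classical

/-- The base pattern on two strands. -/
def base2 : Pat 2 where
  m := fun x => if x % 2 = 0 then x - 1 else x + 1
  inv := fun x => by
    by_cases h : x % 2 = 0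
    · have h' : (x - 1) % 2 ≠ 0 := by omega
      simp only [h, if_true, h', if_false]; ring
    · have h' : (x + 1) % 2 = 0 := by omega
      simp only [h, if_false, h', if_true]; ring
  per := fun x => by
    by_cases h : x % 2 = 0
    · have h' : (x + (2 : ℕ)) % 2 = 0 := by push_cast; omega
      simp only [h, if_true, h']; push_cast; ring
    · have h' : (x + (2 : ℕ)) % 2 ≠ 0 := by push_cast; omega
      simp only [h, if_false, h']; push_cast; ring
  ne := fun x => by
    by_cases h : x % 2 = 0 <;> simp [h]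
  short := fun x => by
    by_cases h : x % 2 = 0 <;> simp [h]
  nc := fun x y h1 h2 => by
    by_cases h : x % 2 = 0
    · simp only [h, if_true] at h2; omega
    · simp only [h, if_false] at h2; omega

lemma eq_base2 (P : Pat 2) (h : P.m 0 ≠ 1) : P = base2 := by
  have h0 := P.short' 0
  have h1 := P.ne 0
  have h2 : P.m 0 = -1 := by
    have a1 := h0.1
    have a2 := h0.2
    push_cast at a1 a2
    omega
  have h3 : P.m 1 = 2 := by
    have := P.inv 0
    rw [h2] at this
    have h4 := P.per (-1)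
    rw [this] at h4
    simpa using h4
  apply Pat.ext_Ico
  intro x hx0 hx2
  have : x = 0 ∨ x = 1 := by push_cast at hx2; omega
  rcases this with rfl | rfl
  · rw [h2]; rfl
  · rw [h3]; rfl

lemma isBase_base2 : IsBase base2 := by
  intro x h1 h2
  push_cast at h1 h2
  have : x = 0 ∨ x = -1 := by omega
  rcases this with rfl | rfl <;> rfl

/-- sheet label of a vertex -/
def lab2 : ℤ ⊕ ℤ → ℤ × Bool
  | Sum.inl x => ((x + 1) / 2, false)
  | Sum.inr x => ((x + 1) / 2, true)

lemma base2_half (x : ℤ) : (base2.m x + 1) / 2 = (x + 1) / 2 := by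
  show ((if x % 2 = 0 then x - 1 else x + 1) + 1) / 2 = (x + 1) / 2
  by_cases h : x % 2 = 0
  · rw [if_pos h]; omega
  · rw [if_neg h]; omega

lemma conn_lab2 {u v : ℤ ⊕ ℤ} (h : Conn 2 2 0 base2 base2 u v) : lab2 u = lab2 v := by
  induction h with
  | rel x y h =>
    cases h with
    | top x => simp [lab2, base2_half]
    | bot y => simp [lab2, base2_half]
    | glue a j hj => exact absurd hj (Nat.not_lt_zero _)
  | refl x => rfl
  | symm x y _ ih => exact ih.symm
  | trans x y z _ _ ih1 ih2 => exact ih1.trans ih2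

lemma leg_base2 : Leg 2 2 0 base2 base2 := by
  intro u v a b h
  have hl := conn_lab2 h
  rcases u with s | s <;> rcases v with t | t
  · simp only [hpos, lab2, Prod.mk.injEq, and_true] at hl
    have hs := s.2
    have ht := t.2
    by_cases hst : (s : ℕ) = t
    · left
      refine ⟨by rw [Fin.ext hst], ?_⟩
      rw [hst] at hl
      omega
    · right
      have : b - a = 1 ∨ b - a = -1 := by omega
      rcases this with h | h <;> rw [h] <;> decide
  · simp [hpos, lab2] at hl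
  · simp [hpos, lab2] at hl
  · simp only [hpos, lab2, Prod.mk.injEq, and_true] at hl
    have hs := s.2
    have ht := t.2
    by_cases hst : (s : ℕ) = t
    · left
      refine ⟨by rw [Fin.ext hst], ?_⟩
      rw [hst] at hl
      omega
    · right
      have : b - a = 1 ∨ b - a = -1 := by omega
      rcases this with h | h <;> rw [h] <;> decide

lemma not_leg2_top {Pt Pb : Pat 2} (h : Pt ≠ base2) : ¬ Leg 2 2 0 Pt Pb := by
  have h3 : Pt.m 0 = 1 := by
    by_contra h'
    exact h (eq_base2 Pt h')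
  exact not_leg_top (kt := 2) (kb := 2) (M := 0) 0 (by norm_num) (by simpa using h3)

lemma chi_base2 (Pt Pb : Pat 2) :
    chi 2 2 0 Pt Pb = if Pt = base2 ∧ Pb = base2 then 1 else 0 := by
  unfold chi
  by_cases h1 : Pt = base2
  · by_cases h2 : Pb = base2
    · rw [h1, h2, if_pos leg_base2, if_pos ⟨rfl, rfl⟩]
    · have h3 : ¬ Leg 2 2 0 Pt Pb := fun h => not_leg2_top h2 (legSwap.1 h)
      rw [if_neg h3, if_neg (fun h => h2 h.2)]
  · have h3 : ¬ Leg 2 2 0 Pt Pb := not_leg2_top h1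
    rw [if_neg h3, if_neg (fun h => h1 h.1)]

section psi

variable {Ψ : ∀ L : ℕ, Pat L → (ℤ → ℂ) → ℂ} (hΨ : PsiProps Ψ)

include hΨ

lemma psi_base2 (s : ℕ → ℂ) : Ψ 2 base2 (par 2 s) = (q * s 1 - q⁻¹ * s 0) / (q - q⁻¹) := by
  rw [hΨ.base 2 base2 _ isBase_base2]
  have e0 : par 2 s ((0 : ℕ) : ℤ) = s 0 := par_nat _ (by norm_num)
  have e1 : par 2 s ((1 : ℕ) : ℤ) = s 1 := par_nat _ (by norm_num)
  rw [Finset.prod_range_succ, Finset.prod_range_succ, Finset.prod_range_zero,
    Finset.prod_range_zero, Finset.prod_range_one, e0, e1]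
  ring

theorem F22_zero (a0 a1 b0 b1 : ℂ) (z : ℕ → ℂ) (h0 : b0 ≠ 0) (h1 : b1 ≠ 0) :
    F22 Ψ 0 a0 a1 b0 b1 z =
      -(1 / 3) * (q * a1 - q⁻¹ * a0) * (q * b0 - q⁻¹ * b1) / (b0 * b1) := by
  unfold F22
  rw [legSum_eq]
  have hsum : (∑ Pt : Pat (0 + 2), ∑ Pb : Pat (0 + 2), chi 2 2 0 Pt Pb *
      (Ψ (0 + 2) Pt (par (0 + 2) (scons a0 (scons a1 z))) *
        Ψ (0 + 2) Pb (par (0 + 2) (scons b0⁻¹ (scons b1⁻¹ (fun n => (z n)⁻¹)))))) =
      Ψ 2 base2 (par 2 (scons a0 (scons a1 z))) *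
        Ψ 2 base2 (par 2 (scons b0⁻¹ (scons b1⁻¹ (fun n => (z n)⁻¹)))) := by
    rw [Finset.sum_eq_single (base2 : Pat (0 + 2))]
    · rw [Finset.sum_eq_single (base2 : Pat (0 + 2))]
      · rw [chi_base2, if_pos ⟨rfl, rfl⟩, one_mul]
      · intro Pb _ hb
        rw [chi_base2, if_neg (fun h => hb h.2), zero_mul]
      · intro h; exact absurd (Finset.mem_univ _) h
    · intro Pt _ ht
      apply Finset.sum_eq_zero
      intro Pb _
      rw [chi_base2, if_neg (fun h => ht h.1), zero_mul]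
    · intro h; exact absurd (Finset.mem_univ _) h
  rw [hsum, psi_base2 hΨ, psi_base2 hΨ]
  have hq2 : q⁻¹ = -1 - q := by
    rw [q_inv]; linear_combination q_sq
  have hd : (q - q⁻¹) ^ 2 = -3 := by
    rw [hq2]; linear_combination 4 * q_sq
  have hd0 : q - q⁻¹ ≠ 0 := by
    intro h
    rw [h] at hd
    norm_num at hd
  show (q * a1 - q⁻¹ * a0) / (q - q⁻¹) * ((q * b1⁻¹ - q⁻¹ * b0⁻¹) / (q - q⁻¹)) = _
  have e : (q * b1⁻¹ - q⁻¹ * b0⁻¹) = (q * b0 - q⁻¹ * b1) / (b0 * b1) := by
    have hq0 := q_ne_zero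
    field_simp
  rw [e, div_mul_div_comm, ← pow_two, hd]
  ring

end psi

end H56.EX

end

section

/-!
# The explicit sum in the form of the leg functions, for any number of legs

`SGen k M u v c z` is the sum over `ε ∈ {q, q²}^M`; `SM M = SGen 4 M q (q²)`.
Recursions, symmetry in `c` and `z`, degree in each `c l`.
-/

set_option autoImplicit false

namespace Pool.Agent.H96.EX

open Finset H56.EX

/-- the two values of `ε` -/
noncomputable def ev (b : Bool) : ℂ := if b then H56.EX.q else H56.EX.q ^ 2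

/-- the explicit sum for `k` legs, with weights `u` (for `ε = q`) and `v` (for `ε = q²`) -/
noncomputable def SGen (k M : ℕ) (u v : ℂ) (c : Fin k → ℂ) (z : ℕ → ℂ) : ℂ :=
  ∑ ε : Fin M → Bool,
    (∏ j : Fin M, (if ε j then u else v) * ∏ l : Fin k, (c l - ev (ε j) * z j)) *
    ∏ j : Fin M, ∏ k : Fin M, if j < k then
      fpair (ev (ε j)) (ev (ε k)) (z j) (z k) else 1

/-- the product of the symmetric pair factors -/
noncomputable def prz (M : ℕ) (z : ℕ → ℂ) : ℂ :=
  ∏ j : Fin M, ∏ k : Fin M, if j < k then (z j) ^ 2 + z j * z k + (z k) ^ 2 else 1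

lemma q_ne_q_sq : H56.EX.q ≠ H56.EX.q ^ 2 := by
  intro h
  apply H56.EX.q_ne_one
  have h0 := H56.EX.q_ne_zero
  have : H56.EX.q * (H56.EX.q - 1) = 0 := by linear_combination -h
  rcases mul_eq_zero.1 this with h1 | h1
  · exact absurd h1 h0
  · linear_combination h1

lemma fpair_same (b : Bool) (z w : ℂ) : fpair (ev b) (ev b) z w = z ^ 2 + z * w + w ^ 2 := by
  simp [fpair]

lemma fpair_tf (z w : ℂ) : fpair (ev true) (ev false) z w =
    (w - H56.EX.q * z) ^ 3 / (w - z) := by
  have h : ev true ≠ ev false := q_ne_q_sq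
  simp only [fpair, if_neg h]
  simp [ev]

lemma fpair_ft (z w : ℂ) : fpair (ev false) (ev true) z w =
    (z - H56.EX.q * w) ^ 3 / (z - w) := by
  have h : ev false ≠ ev true := q_ne_q_sq.symm
  simp only [fpair, if_neg h]
  rw [if_neg]
  simp only [ev]
  exact fun h' => q_ne_q_sq h'.symm

lemma fpair_symm (b b' : Bool) (z w : ℂ) :
    fpair (ev b) (ev b') z w = fpair (ev b') (ev b) w z := by
  rcases b with _ | _ <;> rcases b' with _ | _
  · rw [fpair_same, fpair_same]; ring
  · rw [fpair_ft, fpair_tf]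
  · rw [fpair_ft, fpair_tf]
  · rw [fpair_same, fpair_same]; ring

lemma factor_sq (z w : ℂ) : z ^ 2 + z * w + w ^ 2 =
    (w - H56.EX.q * z) * (w - H56.EX.q ^ 2 * z) := by
  linear_combination (z * w) * H56.EX.q_sq - z ^ 2 * H56.EX.q_cube

lemma cube_factor (z w : ℂ) : w ^ 3 - z ^ 3 =
    (w - z) * ((w - H56.EX.q * z) * (w - H56.EX.q ^ 2 * z)) := by
  rw [← factor_sq]; ring

lemma ne_of_cube {z w : ℂ} (h : z ^ 3 ≠ w ^ 3) :
    w - z ≠ 0 ∧ w - H56.EX.q * z ≠ 0 ∧ w - H56.EX.q ^ 2 * z ≠ 0 := by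
  have h1 : (w - z) * ((w - H56.EX.q * z) * (w - H56.EX.q ^ 2 * z)) ≠ 0 := by
    rw [← cube_factor]
    exact sub_ne_zero.2 h.symm
  exact ⟨left_ne_zero_of_mul h1, left_ne_zero_of_mul (right_ne_zero_of_mul h1),
    right_ne_zero_of_mul (right_ne_zero_of_mul h1)⟩

lemma fpair_gg_tf {z w : ℂ} (h : z ^ 3 ≠ w ^ 3) : fpair (ev true) (ev false) z w =
    gg H56.EX.q z w * (z ^ 2 + z * w + w ^ 2) := by
  obtain ⟨h1, h2, h3⟩ := ne_of_cube h
  rw [fpair_tf, gg, factor_sq]
  field_simp

lemma fpair_gg_ft {z w : ℂ} (h : z ^ 3 ≠ w ^ 3) : fpair (ev false) (ev true) z w =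
    gg H56.EX.q w z * (z ^ 2 + z * w + w ^ 2) := by
  rw [fpair_symm, fpair_gg_tf h.symm]; ring

lemma prod_pairs {M : ℕ} (H : Fin M → Fin M → ℂ) (h1 : ∀ j, H j j = 1) :
    ∏ j, ∏ k, H j k = ∏ j, ∏ k, if j < k then H j k * H k j else 1 := by
  have e1 : (∏ j : Fin M, ∏ k : Fin M, if j < k then H k j else 1) =
      ∏ j : Fin M, ∏ k : Fin M, if k < j then H j k else 1 := by
    rw [Finset.prod_comm]
  have e2 : (∏ j : Fin M, ∏ k : Fin M, if j < k then H j k * H k j else 1) =
      (∏ j : Fin M, ∏ k : Fin M, if j < k then H j k else 1) *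
      ∏ j : Fin M, ∏ k : Fin M, if j < k then H k j else 1 := by
    rw [← Finset.prod_mul_distrib]
    apply Finset.prod_congr rfl
    intro j _
    rw [← Finset.prod_mul_distrib]
    apply Finset.prod_congr rfl
    intro k _
    split_ifs <;> simp
  rw [e2, e1, ← Finset.prod_mul_distrib]
  apply Finset.prod_congr rfl
  intro j _
  rw [← Finset.prod_mul_distrib]
  apply Finset.prod_congr rfl
  intro k _
  rcases lt_trichotomy j k with h | h | h
  · simp [h, not_lt.2 h.le]
  · simp [h, h1]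
  · simp [h, not_lt.2 h.le]

/-- subsets as boolean functions -/
def boolEquiv (M : ℕ) : (Fin M → Bool) ≃ Finset (Fin M) where
  toFun ε := univ.filter fun j => ε j = true
  invFun A := fun j => decide (j ∈ A)
  left_inv ε := by funext j; simp
  right_inv A := by ext j; simp

lemma lg_ofFn {k : ℕ} (c : Fin k → ℂ) (x : ℂ) : lg (List.ofFn c) x = ∏ l, (c l - x) := by
  unfold lg
  rw [List.map_ofFn, List.prod_ofFn]
  rfl

/-- `SGen` is `SG` times the symmetric product, for parameters with distinct cubes. -/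
theorem SGen_eq_SG {k M : ℕ} (u v : ℂ) (c : Fin k → ℂ) (z : ℕ → ℂ)
    (hz : ∀ i j : Fin M, i ≠ j → (z i) ^ 3 ≠ (z j) ^ 3) :
    SGen k M u v c z = prz M z *
      SG H56.EX.q u v univ (List.ofFn c) (fun j : Fin M => z j) := by
  unfold SGen SG
  rw [Finset.powerset_univ, Finset.mul_sum]
  apply Fintype.sum_equiv (boolEquiv M)
  intro ε
  have hA : univ \ (boolEquiv M ε) = univ.filter fun j => ¬ (ε j = true) := by
    ext j; simp [boolEquiv]
  have hA' : (boolEquiv M ε) = univ.filter fun j => ε j = true := rfl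
  rw [hA, hA']
  have e1 : (∏ j : Fin M, (if ε j = true then u else v) *
      ∏ l : Fin k, (c l - ev (ε j) * z j)) =
      (∏ j ∈ univ.filter (fun j => ε j = true), u * lg (List.ofFn c) (H56.EX.q * z j)) *
      ∏ j ∈ univ.filter (fun j => ¬ (ε j = true)), v * lg (List.ofFn c) (H56.EX.q ^ 2 * z j) := by
    rw [← Finset.prod_filter_mul_prod_filter_not univ (fun j => ε j = true)]
    congr 1
    · apply Finset.prod_congr rfl
      intro j hj
      rw [mem_filter] at hj
      rw [lg_ofFn, if_pos hj.2, hj.2]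
      simp [ev]
    · apply Finset.prod_congr rfl
      intro j hj
      rw [mem_filter] at hj
      have : ε j = false := by simpa using hj.2
      rw [lg_ofFn, if_neg hj.2, this]
      simp [ev]
  have e2 : (∏ j ∈ univ.filter (fun j => ε j = true), ∏ k ∈ univ.filter (fun j => ¬ (ε j = true)),
      gg H56.EX.q (z j) (z k)) =
      ∏ j : Fin M, ∏ k : Fin M, if j < k then
        (if ε j = true ∧ ¬ (ε k = true) then gg H56.EX.q (z j) (z k) else 1) *
        (if ε k = true ∧ ¬ (ε j = true) then gg H56.EX.q (z k) (z j) else 1) else 1 := by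
    rw [← prod_pairs (fun j k => if ε j = true ∧ ¬ (ε k = true) then
      gg H56.EX.q (z j) (z k) else 1)]
    · rw [Finset.prod_filter]
      apply Finset.prod_congr rfl
      intro j _
      rw [Finset.prod_filter]
      by_cases hj : ε j = true
      · simp [hj]
      · simp [hj]
    · intro j
      simp
  rw [e1, e2]
  have e3 : (∏ j : Fin M, ∏ k : Fin M, if j < k then
      fpair (ev (ε j)) (ev (ε k)) (z j) (z k) else 1) = prz M z *
      ∏ j : Fin M, ∏ k : Fin M, if j < k then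
        (if ε j = true ∧ ¬ (ε k = true) then gg H56.EX.q (z j) (z k) else 1) *
        (if ε k = true ∧ ¬ (ε j = true) then gg H56.EX.q (z k) (z j) else 1) else 1 := by
    unfold prz
    rw [← Finset.prod_mul_distrib]
    apply Finset.prod_congr rfl
    intro j _
    rw [← Finset.prod_mul_distrib]
    apply Finset.prod_congr rfl
    intro k _
    by_cases hjk : j < k
    · rw [if_pos hjk, if_pos hjk, if_pos hjk]
      have hc := hz j k hjk.ne
      rcases hj : ε j with _ | _ <;> rcases hk : ε k with _ | _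
      · rw [fpair_same]; simp
      · rw [fpair_gg_ft hc]; simp; ring
      · rw [fpair_gg_tf hc]; simp; ring
      · rw [fpair_same]; simp
    · simp [hjk]
  rw [e3]
  ring

/-- reindexing -/
lemma SG_map {K ι ι' : Type*} [Field K] [DecidableEq ι] [DecidableEq ι'] (e : ι ↪ ι')
    (q u v : K) (s : Finset ι) (c : List K) (z : ι' → K) :
    SG q u v (s.map e) c z = SG q u v s c (fun i => z (e i)) := by
  unfold SG
  symm
  apply Finset.sum_bij (fun A _ => A.map e)
  · intro A hA
    rw [mem_powerset] at hA ⊢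
    exact Finset.map_subset_map.2 hA
  · intro A _ B _ h
    exact Finset.map_injective e h
  · intro B hB
    rw [mem_powerset] at hB
    refine ⟨s.filter (fun i => e i ∈ B), by simp, ?_⟩
    ext x
    rw [mem_map]
    constructor
    · rintro ⟨a, ha, rfl⟩
      exact (mem_filter.1 ha).2
    · intro hx
      obtain ⟨a, ha, rfl⟩ := mem_map.1 (hB hx)
      exact ⟨a, mem_filter.2 ⟨ha, hx⟩, rfl⟩
  · intro A _
    rw [← Finset.map_sdiff, Finset.prod_map, Finset.prod_map, Finset.prod_map]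
    congr 1
    apply Finset.prod_congr rfl
    intro j _
    rw [Finset.prod_map]

end Pool.Agent.H96.EX

end

section

/-!
# The polynomial `S` extending the explicit sum `SGen` to all values of the parameters

* `SPoly k M u v : MvPolynomial (Fin k ⊕ Fin M) ℂ`, `S k M u v c z` = its value;
* `S_eq_SGen` : `S = SGen` for pairwise distinct `z`;
* `S_continuous`, `S_symm_c`, `S_symm_z`, `S_poly` (degree `≤ M` in each leg), `S_rec1`, `S_rec2`
  (recursions, for ALL values), `S_zero`.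
-/

set_option autoImplicit false

namespace Pool.Agent.H96.EX

open Finset H56.EX

lemma prod_lt_eq {M : ℕ} (H : Fin M → Fin M → ℂ) :
    (∏ j, ∏ k, if j < k then H j k else 1) =
      ∏ p ∈ (univ : Finset (Fin M × Fin M)).filter (fun p => p.1 < p.2), H p.1 p.2 := by
  rw [Finset.prod_filter, ← Finset.univ_product_univ, Finset.prod_product]

lemma prod_lt_perm {M : ℕ} (G : Fin M → Fin M → ℂ) (hG : ∀ j k, G j k = G k j)
    (σ : Equiv.Perm (Fin M)) :
    (∏ j, ∏ k, if j < k then G (σ j) (σ k) else 1) = ∏ j, ∏ k, if j < k then G j k else 1 := by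
  rw [prod_lt_eq (fun j k => G (σ j) (σ k)), prod_lt_eq]
  refine Finset.prod_bij' (fun p _ => if σ p.1 < σ p.2 then (σ p.1, σ p.2) else (σ p.2, σ p.1))
    (fun p _ => if σ.symm p.1 < σ.symm p.2 then (σ.symm p.1, σ.symm p.2)
      else (σ.symm p.2, σ.symm p.1)) ?_ ?_ ?_ ?_ ?_
  · rintro ⟨a, b⟩ h
    simp only [mem_filter, mem_univ, true_and] at h ⊢
    split_ifs with h1
    · exact h1
    · exact lt_of_le_of_ne (not_lt.1 h1) (fun h2 => h.ne' (σ.injective h2))
  · rintro ⟨a, b⟩ h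
    simp only [mem_filter, mem_univ, true_and] at h ⊢
    split_ifs with h1
    · exact h1
    · exact lt_of_le_of_ne (not_lt.1 h1) (fun h2 => h.ne' (σ.symm.injective h2))
  · rintro ⟨a, b⟩ h
    simp only [mem_filter, mem_univ, true_and] at h
    by_cases h1 : σ a < σ b
    · simp [h1, h]
    · simp [h1, not_lt.2 h.le]
  · rintro ⟨a, b⟩ h
    simp only [mem_filter, mem_univ, true_and] at h
    by_cases h1 : σ.symm a < σ.symm b
    · simp [h1, h]
    · simp [h1, not_lt.2 h.le]
  · rintro ⟨a, b⟩ h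
    by_cases h1 : σ a < σ b
    · simp [h1]
    · simp only [h1, if_false]
      exact hG _ _

lemma SGen_symm_z {k M : ℕ} (u v : ℂ) (c : Fin k → ℂ) {z z' : ℕ → ℂ} (σ : Equiv.Perm (Fin M))
    (h : ∀ j : Fin M, z' j = z (σ j)) : SGen k M u v c z' = SGen k M u v c z := by
  unfold SGen
  apply Fintype.sum_equiv (Equiv.arrowCongr σ (Equiv.refl Bool))
  intro ε
  set ε' := (Equiv.arrowCongr σ (Equiv.refl Bool)) ε with hε'
  have he : ∀ j, ε' (σ j) = ε j := by
    intro j; simp [hε', Equiv.arrowCongr]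
  congr 1
  · rw [← Equiv.prod_comp σ (fun j => (if ε' j = true then u else v) *
      ∏ l : Fin k, (c l - ev (ε' j) * z j))]
    apply Finset.prod_congr rfl
    intro j _
    rw [he, h]
  · rw [← prod_lt_perm (fun j k => fpair (ev (ε' j)) (ev (ε' k)) (z j) (z k))
      (fun j k => fpair_symm _ _ _ _) σ]
    apply Finset.prod_congr rfl
    intro j _
    apply Finset.prod_congr rfl
    intro k _
    rw [he, he, h, h]

/-! ### Vandermonde product -/

/-- Vandermonde product -/
noncomputable def dz (M : ℕ) (z : ℕ → ℂ) : ℂ :=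
  ∏ j : Fin M, ∏ k : Fin M, if j < k then z k - z j else 1

lemma dz_eq_det (M : ℕ) (z : ℕ → ℂ) :
    dz M z = (Matrix.vandermonde (fun j : Fin M => z j)).det := by
  rw [Matrix.det_vandermonde]
  unfold dz
  apply Finset.prod_congr rfl
  intro j _
  rw [← Finset.prod_filter]
  apply Finset.prod_congr
  · ext k; simp
  · intro k _; rfl

lemma dz_perm {M : ℕ} {z z' : ℕ → ℂ} (σ : Equiv.Perm (Fin M))
    (h : ∀ j : Fin M, z' j = z (σ j)) : dz M z' = (Equiv.Perm.sign σ : ℤ) * dz M z := by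
  rw [dz_eq_det, dz_eq_det, ← Matrix.det_permute]
  congr 1
  ext i j
  simp [Matrix.vandermonde_apply, h]

lemma dz_ne_zero {M : ℕ} {z : ℕ → ℂ} (h : ∀ i j : Fin M, i ≠ j → z i ≠ z j) : dz M z ≠ 0 := by
  unfold dz
  rw [Finset.prod_ne_zero_iff]
  intro j _
  rw [Finset.prod_ne_zero_iff]
  intro k _
  split_ifs with hjk
  · exact sub_ne_zero.2 (h _ _ hjk.ne')
  · exact one_ne_zero

/-! ### numerators -/

/-- numerator of the pair factor, in any commutative ring -/
def fnum {R : Type*} [CommRing R] (q0 : R) (b b' : Bool) (Z W : R) : R :=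
  if b = b' then W ^ 3 - Z ^ 3 else if b = true then (W - q0 * Z) ^ 3 else -(Z - q0 * W) ^ 3

lemma map_fnum {R R' : Type*} [CommRing R] [CommRing R'] (f : R →+* R') (q0 : R) (b b' : Bool)
    (Z W : R) : f (fnum q0 b b' Z W) = fnum (f q0) b b' (f Z) (f W) := by
  unfold fnum
  split_ifs <;> simp

lemma fnum_eq {b b' : Bool} {z w : ℂ} (h : z ≠ w) :
    fnum H56.EX.q b b' z w = (w - z) * fpair (ev b) (ev b') z w := by
  have h1 : w - z ≠ 0 := sub_ne_zero.2 h.symm
  have h2 : z - w ≠ 0 := sub_ne_zero.2 h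
  rcases b with _ | _ <;> rcases b' with _ | _
  · rw [fpair_same]; simp only [fnum, if_true]; ring
  · rw [fpair_ft]; simp only [fnum]
    simp only [Bool.false_eq_true, if_false]
    field_simp
    ring
  · rw [fpair_tf]; simp only [fnum]
    simp only [Bool.true_eq_false, if_false, if_true]
    field_simp
  · rw [fpair_same]; simp only [fnum, if_true]; ring

open MvPolynomial in
/-- numerator polynomial -/
noncomputable def NPoly (k M : ℕ) (u v : ℂ) : MvPolynomial (Fin k ⊕ Fin M) ℂ :=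
  ∑ ε : Fin M → Bool,
    (∏ j : Fin M, C (if ε j then u else v) *
      ∏ l : Fin k, (X (Sum.inl l) - C (ev (ε j)) * X (Sum.inr j))) *
    ∏ j : Fin M, ∏ k : Fin M, if j < k then
      fnum (C H56.EX.q) (ε j) (ε k) (X (Sum.inr j)) (X (Sum.inr k)) else 1

/-- point of evaluation -/
def pt {k M : ℕ} (c : Fin k → ℂ) (z : ℕ → ℂ) : Fin k ⊕ Fin M → ℂ :=
  Sum.elim c (fun j : Fin M => z j)

open MvPolynomial in
lemma NPoly_eval {k M : ℕ} (u v : ℂ) (c : Fin k → ℂ) (z : ℕ → ℂ) :
    eval (pt c z) (NPoly k M u v) = ∑ ε : Fin M → Bool,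
    (∏ j : Fin M, (if ε j then u else v) * ∏ l : Fin k, (c l - ev (ε j) * z j)) *
    ∏ j : Fin M, ∏ k : Fin M, if j < k then
      fnum H56.EX.q (ε j) (ε k) (z j) (z k) else 1 := by
  unfold NPoly
  rw [map_sum]
  apply Finset.sum_congr rfl
  intro ε _
  rw [map_mul, map_prod, map_prod]
  congr 1
  · apply Finset.prod_congr rfl
    intro j _
    simp [pt]
  · apply Finset.prod_congr rfl
    intro j _
    rw [map_prod]
    apply Finset.prod_congr rfl
    intro k _
    split_ifs with h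
    · rw [map_fnum]
      simp [pt]
    · simp

open MvPolynomial in
lemma NPoly_eq {k M : ℕ} (u v : ℂ) (c : Fin k → ℂ) (z : ℕ → ℂ)
    (hz : ∀ i j : Fin M, i ≠ j → z i ≠ z j) :
    eval (pt c z) (NPoly k M u v) = dz M z * SGen k M u v c z := by
  rw [NPoly_eval]
  unfold SGen dz
  rw [Finset.mul_sum]
  apply Finset.sum_congr rfl
  intro ε _
  have e : (∏ j : Fin M, ∏ k : Fin M, if j < k then
      fnum H56.EX.q (ε j) (ε k) (z j) (z k) else 1) =
      (∏ j : Fin M, ∏ k : Fin M, if j < k then z k - z j else 1) *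
      ∏ j : Fin M, ∏ k : Fin M, if j < k then
        fpair (ev (ε j)) (ev (ε k)) (z j) (z k) else 1 := by
    rw [← Finset.prod_mul_distrib]
    apply Finset.prod_congr rfl
    intro j _
    rw [← Finset.prod_mul_distrib]
    apply Finset.prod_congr rfl
    intro k _
    split_ifs with h
    · exact fnum_eq (hz j k h.ne)
    · ring
  rw [e]
  ring

/-! ### continuity along a line -/

lemma cubes_finite {M : ℕ} (z : ℕ → ℂ) :
    {t : ℂ | ¬ ∀ i j : Fin M, i ≠ j →
      (z i + t * ((i : ℕ) + 1)) ^ 3 ≠ (z j + t * ((j : ℕ) + 1)) ^ 3}.Finite := by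
  have key : ∀ i j : Fin M, i ≠ j →
      {t : ℂ | (z i + t * ((i : ℕ) + 1)) ^ 3 = (z j + t * ((j : ℕ) + 1)) ^ 3}.Finite := by
    intro i j hij
    set p : Polynomial ℂ := (Polynomial.C (z i) + Polynomial.X * Polynomial.C ((i : ℕ) + 1 : ℂ)) ^ 3 -
      (Polynomial.C (z j) + Polynomial.X * Polynomial.C ((j : ℕ) + 1 : ℂ)) ^ 3 with hp
    have hcoef : p.coeff 3 = ((i : ℕ) + 1 : ℂ) ^ 3 - ((j : ℕ) + 1 : ℂ) ^ 3 := by
      have hexp : ∀ a b : ℂ, (Polynomial.C a + Polynomial.X * Polynomial.C b) ^ 3 =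
          Polynomial.C (b ^ 3) * Polynomial.X ^ 3 + Polynomial.C (3 * a * b ^ 2) *
            Polynomial.X ^ 2 + Polynomial.C (3 * a ^ 2 * b) * Polynomial.X ^ 1 +
            Polynomial.C (a ^ 3) * Polynomial.X ^ 0 := by
        intro a b
        simp only [map_mul, map_pow]
        have : (Polynomial.C (3 : ℂ)) = 3 := rfl
        rw [this]
        ring
      have hc3 : ∀ a b : ℂ, ((Polynomial.C a + Polynomial.X * Polynomial.C b) ^ 3).coeff 3 =
          b ^ 3 := by
        intro a b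
        rw [hexp]
        simp only [Polynomial.coeff_add, Polynomial.coeff_C_mul, Polynomial.coeff_X_pow]
        norm_num
      rw [hp, Polynomial.coeff_sub, hc3, hc3]
    have hp0 : p ≠ 0 := by
      intro h0
      rw [h0, Polynomial.coeff_zero] at hcoef
      have h1 : (((i : ℕ) + 1) ^ 3 : ℕ) = (((j : ℕ) + 1) ^ 3 : ℕ) := by
        have : (((((i : ℕ) + 1) ^ 3 : ℕ)) : ℂ) = (((((j : ℕ) + 1) ^ 3 : ℕ)) : ℂ) := by
          push_cast
          linear_combination -hcoef
        exact_mod_cast this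
      have h2 := Nat.pow_left_injective (n := 3) (by norm_num) h1
      apply hij
      ext
      simpa using h2
    refine (Polynomial.finite_setOfPred_isRoot hp0).subset ?_
    intro t ht
    rw [Set.mem_ofPred_eq] at ht ⊢
    rw [Polynomial.IsRoot.def, hp]
    simp only [Polynomial.eval_sub, Polynomial.eval_pow, Polynomial.eval_add, Polynomial.eval_mul,
      Polynomial.eval_C, Polynomial.eval_X]
    rw [ht]; ring
  have hsub : {t : ℂ | ¬ ∀ i j : Fin M, i ≠ j →
      (z i + t * ((i : ℕ) + 1)) ^ 3 ≠ (z j + t * ((j : ℕ) + 1)) ^ 3} ⊆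
      ⋃ i : Fin M, ⋃ j : Fin M, ⋃ (_ : i ≠ j),
        {t : ℂ | (z i + t * ((i : ℕ) + 1)) ^ 3 = (z j + t * ((j : ℕ) + 1)) ^ 3} := by
    intro t ht
    rw [Set.mem_ofPred_eq] at ht
    push Not at ht
    obtain ⟨i, j, hij, h⟩ := ht
    simp only [Set.mem_iUnion]
    exact ⟨i, j, hij, h⟩
  refine Set.Finite.subset ?_ hsub
  apply Set.finite_iUnion
  intro i
  apply Set.finite_iUnion
  intro j
  apply Set.finite_iUnion
  intro hij
  exact key i j hij

/-- the perturbed sequence -/
noncomputable def zt (z : ℕ → ℂ) (t : ℂ) : ℕ → ℂ := fun n => z n + t * ((n : ℂ) + 1)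

lemma zt_zero (z : ℕ → ℂ) : zt z 0 = z := by
  funext n; simp [zt]

lemma zt_cont (z : ℕ → ℂ) : Continuous (zt z) := by
  unfold zt
  apply continuous_pi
  intro n
  fun_prop

/-- two continuous functions of `t` which agree whenever the perturbed sequence has distinct
cubes agree at `0` -/
lemma line_ext {M : ℕ} (z : ℕ → ℂ) {F G : ℂ → ℂ} (hF : Continuous F) (hG : Continuous G)
    (h : ∀ t, (∀ i j : Fin M, i ≠ j → (zt z t i) ^ 3 ≠ (zt z t j) ^ 3) → F t = G t) :
    F 0 = G 0 := by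
  have hfin := cubes_finite (M := M) z
  have hd : Dense ({t : ℂ | ¬ ∀ i j : Fin M, i ≠ j →
      (z i + t * ((i : ℕ) + 1)) ^ 3 ≠ (z j + t * ((j : ℕ) + 1)) ^ 3}ᶜ) :=
    hfin.countable.dense_compl ℂ
  have := Continuous.ext_on hd hF hG (by
    intro t ht
    apply h
    simp only [Set.mem_compl_iff, Set.mem_ofPred_eq, not_not] at ht
    exact ht)
  rw [this]

lemma ne_of_cubes {M : ℕ} {z : ℕ → ℂ} (h : ∀ i j : Fin M, i ≠ j → (z i) ^ 3 ≠ (z j) ^ 3) :
    ∀ i j : Fin M, i ≠ j → z i ≠ z j := by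
  intro i j hij h'
  exact h i j hij (by rw [h'])

open MvPolynomial in
lemma eval_pt_cont {k M : ℕ} {X' : Type*} [TopologicalSpace X'] (P : MvPolynomial (Fin k ⊕ Fin M) ℂ)
    {c : X' → Fin k → ℂ} {z : X' → ℕ → ℂ} (hc : Continuous c) (hz : Continuous z) :
    Continuous (fun t => eval (pt (c t) (z t)) P) := by
  apply (MvPolynomial.continuous_eval P).comp
  apply continuous_pi
  rintro (l | j)
  · exact (continuous_apply l).comp hc
  · exact (continuous_apply (j : ℕ)).comp hz

/-- extension of a finite sequence -/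
noncomputable def ext0 {M : ℕ} (z : Fin M → ℂ) : ℕ → ℂ := fun n => if h : n < M then z ⟨n, h⟩ else 0

@[simp] lemma ext0_apply {M : ℕ} (z : Fin M → ℂ) (j : Fin M) : ext0 z j = z j := by
  simp [ext0]

lemma ext0_cont {M : ℕ} {X' : Type*} [TopologicalSpace X'] {z : X' → Fin M → ℂ}
    (hz : Continuous z) : Continuous (fun t => ext0 (z t)) := by
  apply continuous_pi
  intro n
  unfold ext0
  by_cases h : n < M
  · simp only [h, dif_pos]
    exact (continuous_apply _).comp hz
  · simp only [h, dif_neg, not_false_iff]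
    exact continuous_const

open MvPolynomial in
lemma NPoly_swap {k M : ℕ} (u v : ℂ) (c : Fin k → ℂ) (z : ℕ → ℂ) {a b : Fin M} (hab : a ≠ b) :
    eval (pt c (ext0 (fun j : Fin M => z (Equiv.swap a b j)))) (NPoly k M u v) =
      -eval (pt c z) (NPoly k M u v) := by
  have hF : Continuous (fun t : ℂ => eval (pt c (ext0 (fun j : Fin M =>
      zt z t (Equiv.swap a b j)))) (NPoly k M u v)) := by
    apply eval_pt_cont _ continuous_const
    apply ext0_cont
    apply continuous_pi
    intro j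
    exact (continuous_apply _).comp (zt_cont z)
  have hG : Continuous (fun t : ℂ => -eval (pt c (zt z t)) (NPoly k M u v)) :=
    (eval_pt_cont _ continuous_const (zt_cont z)).neg
  have := line_ext (M := M) z hF hG (by
    intro t ht
    have h1 := ne_of_cubes ht
    have h2 : ∀ i j : Fin M, i ≠ j → ext0 (fun j : Fin M => zt z t (Equiv.swap a b j)) i ≠
        ext0 (fun j : Fin M => zt z t (Equiv.swap a b j)) j := by
      intro i j hij
      rw [ext0_apply, ext0_apply]
      exact h1 _ _ (fun h => hij ((Equiv.swap a b).injective h))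
    rw [NPoly_eq u v c _ h1, NPoly_eq u v c _ h2,
      SGen_symm_z u v c (z := zt z t) (Equiv.swap a b) (fun j => ext0_apply _ j),
      dz_perm (z := zt z t) (Equiv.swap a b) (fun j => ext0_apply _ j),
      Equiv.Perm.sign_swap hab]
    push_cast
    ring)
  simp only [zt_zero] at this
  exact this

open MvPolynomial in
lemma NPoly_zero {k M : ℕ} (u v : ℂ) (x : Fin k ⊕ Fin M → ℂ) {a b : Fin M} (hab : a ≠ b)
    (h : x (Sum.inr a) = x (Sum.inr b)) : eval x (NPoly k M u v) = 0 := by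
  have h1 := NPoly_swap (k := k) u v (fun l => x (Sum.inl l)) (ext0 (fun j : Fin M => x (Sum.inr j)))
    hab
  have e1 : pt (k := k) (M := M) (fun l => x (Sum.inl l)) (ext0 (fun j : Fin M => x (Sum.inr j))) =
      x := by
    funext s
    rcases s with l | j
    · rfl
    · simp [pt]
  have e2 : pt (k := k) (M := M) (fun l => x (Sum.inl l)) (ext0 (fun j : Fin M =>
      ext0 (fun j : Fin M => x (Sum.inr j)) (Equiv.swap a b j))) = x := by
    funext s
    rcases s with l | j
    · rfl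
    · have : pt (k := k) (M := M) (fun l => x (Sum.inl l)) (ext0 (fun j : Fin M =>
          ext0 (fun j : Fin M => x (Sum.inr j)) (Equiv.swap a b j))) (Sum.inr j) =
          x (Sum.inr (Equiv.swap a b j)) := by
        simp [pt]
      rw [this]
      rcases eq_or_ne j a with rfl | hja
      · rw [Equiv.swap_apply_left, h]
      rcases eq_or_ne j b with rfl | hjb
      · rw [Equiv.swap_apply_right, h]
      · rw [Equiv.swap_apply_of_ne_of_ne hja hjb]
  rw [e1, e2] at h1
  have h2 : (2 : ℂ) * eval x (NPoly k M u v) = 0 := by linear_combination h1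
  rcases mul_eq_zero.1 h2 with h3 | h3
  · norm_num at h3
  · exact h3

/-! ### divisibility -/

section dvd

open MvPolynomial

variable {σ : Type*} [DecidableEq σ]

/-- substitution `X j ↦ X i` -/
noncomputable def sb (i j : σ) : MvPolynomial σ ℂ →ₐ[ℂ] MvPolynomial σ ℂ :=
  aeval (fun s => if s = j then X i else X s)

lemma dvd_of_sb (i j : σ) (P : MvPolynomial σ ℂ) (h : sb i j P = 0) :
    (X j - X i : MvPolynomial σ ℂ) ∣ P := by
  rw [← Ideal.mem_span_singleton, ← Ideal.Quotient.eq_zero_iff_mem]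
  have key : (Ideal.Quotient.mkₐ ℂ (Ideal.span {(X j - X i : MvPolynomial σ ℂ)})).comp (sb i j) =
      Ideal.Quotient.mkₐ ℂ (Ideal.span {(X j - X i : MvPolynomial σ ℂ)}) := by
    apply MvPolynomial.algHom_ext
    intro s
    simp only [AlgHom.comp_apply, sb, aeval_X]
    by_cases hs : s = j
    · subst hs
      rw [if_pos rfl]
      symm
      rw [Ideal.Quotient.mkₐ_eq_mk, Ideal.Quotient.eq]
      exact Ideal.mem_span_singleton_self _
    · rw [if_neg hs]
  have h2 := congrArg (fun f => f P) key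
  simp only [AlgHom.comp_apply, h, map_zero] at h2
  rw [Ideal.Quotient.mkₐ_eq_mk] at h2
  exact h2.symm

lemma sb_ne {i j a b : σ} (hab : a ≠ b) (h1 : ¬ (a = i ∧ b = j)) (h2 : ¬ (a = j ∧ b = i)) :
    sb i j (X b - X a : MvPolynomial σ ℂ) ≠ 0 := by
  unfold sb
  simp only [map_sub, aeval_X]
  intro h
  rw [sub_eq_zero] at h
  split_ifs at h with hb ha ha
  · exact hab (ha.trans hb.symm)
  · exact h1 ⟨(X_injective h).symm, hb⟩
  · exact h2 ⟨ha, X_injective h⟩
  · exact hab (X_injective h).symm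

end dvd

open MvPolynomial in
lemma prod_dvd {k M : ℕ} (N : MvPolynomial (Fin k ⊕ Fin M) ℂ) (T : Finset (Fin M × Fin M))
    (hT : ∀ p ∈ T, p.1 < p.2)
    (hN : ∀ p ∈ T, sb (Sum.inr p.1) (Sum.inr p.2) N = 0) :
    (∏ p ∈ T, (X (Sum.inr p.2) - X (Sum.inr p.1) : MvPolynomial (Fin k ⊕ Fin M) ℂ)) ∣ N := by
  induction T using Finset.induction_on with
  | empty => simp
  | insert p T hp ih =>
    obtain ⟨N', hN'⟩ := ih (fun p hp => hT p (mem_insert_of_mem hp))
      (fun p hp => hN p (mem_insert_of_mem hp))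
    have h1 := hN p (mem_insert_self _ _)
    rw [hN', map_mul, map_prod] at h1
    have h2 : ∏ x ∈ T, sb (Sum.inr p.1) (Sum.inr p.2)
        (X (Sum.inr x.2) - X (Sum.inr x.1) : MvPolynomial (Fin k ⊕ Fin M) ℂ) ≠ 0 := by
      rw [Finset.prod_ne_zero_iff]
      intro x hx
      have hx1 := hT x (mem_insert_of_mem hx)
      have hp1 := hT p (mem_insert_self _ _)
      apply sb_ne
      · exact fun h => hx1.ne (Sum.inr_injective h)
      · rintro ⟨h3, h4⟩
        apply hp
        have : x = p := Prod.ext (Sum.inr_injective h3) (Sum.inr_injective h4)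
        rwa [← this]
      · rintro ⟨h3, h4⟩
        have h5 : x.1 = p.2 := Sum.inr_injective h3
        have h6 : x.2 = p.1 := Sum.inr_injective h4
        rw [h5, h6] at hx1
        exact absurd hp1 (not_lt.2 hx1.le)
    have h3 := (mul_eq_zero.1 h1).resolve_left h2
    obtain ⟨N'', hN''⟩ := dvd_of_sb _ _ _ h3
    rw [Finset.prod_insert hp, hN', hN'']
    exact ⟨N'', by ring⟩

open MvPolynomial in
/-- Vandermonde polynomial -/
noncomputable def DPoly (k M : ℕ) : MvPolynomial (Fin k ⊕ Fin M) ℂ :=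
  ∏ p ∈ (univ : Finset (Fin M × Fin M)).filter (fun p => p.1 < p.2),
    (X (Sum.inr p.2) - X (Sum.inr p.1))

open MvPolynomial in
lemma DPoly_eval {k M : ℕ} (c : Fin k → ℂ) (z : ℕ → ℂ) :
    eval (pt c z) (DPoly k M) = dz M z := by
  unfold DPoly dz
  rw [prod_lt_eq, map_prod]
  apply Finset.prod_congr rfl
  intro p _
  simp [pt]

open MvPolynomial in
lemma exists_SPoly (k M : ℕ) (u v : ℂ) : ∃ P, NPoly k M u v = DPoly k M * P := by
  have := prod_dvd (k := k) (NPoly k M u v)
    ((univ : Finset (Fin M × Fin M)).filter (fun p => p.1 < p.2))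
    (fun p hp => (mem_filter.1 hp).2) (by
      intro p hp
      have hp' := (mem_filter.1 hp).2
      apply MvPolynomial.funext
      intro x
      rw [map_zero]
      have e : eval x (sb (Sum.inr p.1) (Sum.inr p.2) (NPoly k M u v)) =
          eval (fun s => if s = Sum.inr p.2 then x (Sum.inr p.1) else x s) (NPoly k M u v) := by
        unfold sb
        have h1 : ∀ Q : MvPolynomial (Fin k ⊕ Fin M) ℂ,
            eval x ((aeval (fun s => if s = Sum.inr p.2 then
              (X (Sum.inr p.1) : MvPolynomial (Fin k ⊕ Fin M) ℂ) else X s)) Q) =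
            eval (fun s => if s = Sum.inr p.2 then x (Sum.inr p.1) else x s) Q := by
          intro Q
          rw [← MvPolynomial.bind₁, ← MvPolynomial.coe_aeval_eq_eval, ← MvPolynomial.coe_aeval_eq_eval]
          simp only [RingHom.coe_coe]
          rw [MvPolynomial.aeval_bind₁]
          congr 2
          funext s
          split_ifs <;> simp
        exact h1 _
      rw [e]
      apply NPoly_zero u v _ (a := p.1) (b := p.2) hp'.ne
      have : (Sum.inr p.1 : Fin k ⊕ Fin M) ≠ Sum.inr p.2 := fun h => hp'.ne (Sum.inr_injective h)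
      simp [this])
  exact this

/-- The polynomial `S`. -/
noncomputable def SPoly (k M : ℕ) (u v : ℂ) : MvPolynomial (Fin k ⊕ Fin M) ℂ :=
  Classical.choose (exists_SPoly k M u v)

lemma SPoly_spec (k M : ℕ) (u v : ℂ) : NPoly k M u v = DPoly k M * SPoly k M u v :=
  Classical.choose_spec (exists_SPoly k M u v)

/-- The value of the polynomial `S` at legs `c` and strands `z`. -/
noncomputable def S (k M : ℕ) (u v : ℂ) (c : Fin k → ℂ) (z : ℕ → ℂ) : ℂ :=
  MvPolynomial.eval (pt c z) (SPoly k M u v)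

/-- for pairwise distinct strand parameters `S` is the explicit sum -/
theorem S_eq_SGen {k M : ℕ} (u v : ℂ) (c : Fin k → ℂ) (z : ℕ → ℂ)
    (hz : ∀ i j : Fin M, i ≠ j → z i ≠ z j) : S k M u v c z = SGen k M u v c z := by
  have h1 := NPoly_eq u v c z hz
  rw [SPoly_spec, map_mul, DPoly_eval] at h1
  exact mul_left_cancel₀ (dz_ne_zero hz) h1

theorem S_continuous {k M : ℕ} (u v : ℂ) {X' : Type*} [TopologicalSpace X']
    {c : X' → Fin k → ℂ} {z : X' → ℕ → ℂ} (hc : Continuous c) (hz : Continuous z) :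
    Continuous (fun t => S k M u v (c t) (z t)) := eval_pt_cont _ hc hz

/-! ### degree in a leg parameter -/

end Pool.Agent.H96.EX

end

section

/-!
# Interface for `H56.EX.SM`

`SM_S` : `SM M c z = S 4 M q (q²) c z` for pairwise distinct `z`;
`SM_zero`, `SM_symm_c`, `SM_symm_z`, `SM_poly`, `SM_rec1`, `SM_rec2`, `SM_unique`.
For all values of the parameters (also coinciding strands) use `S 4 M q (q²)` of `SMb.lean`.
-/

set_option autoImplicit false

namespace Pool.Agent.H96.EX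

open Finset H56.EX

/-- four legs: the polynomial `S` for `SM` -/
noncomputable def S4 (M : ℕ) (c : Fin 4 → ℂ) (z : ℕ → ℂ) : ℂ :=
  S 4 M H56.EX.q (H56.EX.q ^ 2) c z

end Pool.Agent.H96.EX

end

section

/-!
# Bridge: `S` and the sum `SG` over `range M` with a list of legs (helper56's `TM`)
-/

set_option autoImplicit false

namespace Pool.Agent.H96.EX

open Finset H56.EX

lemma range_eq_map (M : ℕ) : range M = (univ : Finset (Fin M)).map Fin.valEmbedding := by
  ext n
  simp only [mem_range, mem_map, mem_univ, true_and, Fin.valEmbedding_apply]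
  exact ⟨fun h => ⟨⟨n, h⟩, rfl⟩, fun ⟨i, hi⟩ => hi ▸ i.isLt⟩

lemma prz_range (M : ℕ) (z : ℕ → ℂ) :
    prz M z = ∏ j ∈ range M, ∏ k ∈ range M, if j < k then
      (z j) ^ 2 + z j * z k + (z k) ^ 2 else 1 := by
  unfold prz
  rw [range_eq_map, Finset.prod_map]
  apply Finset.prod_congr rfl
  intro j _
  rw [Finset.prod_map]
  apply Finset.prod_congr rfl
  intro k _
  simp only [Fin.valEmbedding_apply, Fin.val_fin_lt]

/-- the same, as a product over pairs `j < k < M` -/
lemma prz_range' (M : ℕ) (z : ℕ → ℂ) :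
    prz M z = ∏ k ∈ range M, ∏ j ∈ range k, ((z j) ^ 2 + z j * z k + (z k) ^ 2) := by
  rw [prz_range, Finset.prod_comm]
  apply Finset.prod_congr rfl
  intro k hk
  rw [← Finset.prod_filter]
  apply Finset.prod_congr
  · ext j
    simp only [mem_filter, mem_range] at hk ⊢
    omega
  · intros; rfl

/-- four legs -/
theorem S4_eq_SG_range {M : ℕ} (a b c d : ℂ) (z : ℕ → ℂ)
    (hz : ∀ i j : Fin M, i ≠ j → (z i) ^ 3 ≠ (z j) ^ 3) :
    S4 M ![a, b, c, d] z =
      prz M z * SG H56.EX.q H56.EX.q (H56.EX.q ^ 2) (range M) [a, b, c, d] z := by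
  rw [S4, S_eq_SGen _ _ _ _ (ne_of_cubes hz), SGen_eq_SG _ _ _ _ hz, range_eq_map, SG_map]
  rfl

end Pool.Agent.H96.EX

end

section

/-!
# LINK module `Diag`: four arms at a diagonal pair of vertices and four arms of an edge

`x = (0, 0)`, `y = (1, -1)`, `z = (1, 0)`, `w = (0, -1)`: the corners of the face `q = (0, -1)`;
`e = (0, 0, false)` joins `x, z`; `g = (1, -1, true)` joins `y, z`; `f = (0, -1, true)` joins `w, x`.
Clusters `C(v)` are taken in `ball 0 k` (all four points are in it for `k ≥ 1`).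

`fourD_le_a4`.  Let `ω ∈ FourD k`.
* `z ∈ C(y)`: `e` is closed, `ω ∈ A4 e k`.
* `z ∈ C(x)`: `g` is closed; restricted to `ball (1, -1) (k - 1) ⊆ ball 0 k` this is `A4 g (k - 1)` (`src g = y`; the
  path from `z` goes through `x` to the sphere; cut it at `sphere y (k-1)`).
* otherwise: `Function.update ω g true ∈ A4 e k` (now `z ∈ C(y)`, `x` is not joined to it).
  `Pr p {ω | update ω g true ∈ A} ≤ Pr p A / p` (independence of the edge `g`).
Then `Pr_A4` and `a4_anti`.

`a4_le_fourD`.  Let `ω ∈ A4 e k`, `ω₀ = close e ω` (the clusters are now those of `ω₀`).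
* `y ∈ C(z)`: `ω₀ ∈ FourD k`.
* `y ∉ C(z)`, `y ∉ C(x)`: `update ω₀ g true ∈ FourD k`.
* `y ∈ C(x)`, `w ∈ C(x)`: the reflection `(a, b) ↦ (1 - a, b)` of `ω₀` is in `FourD (k - 1)`
  (`z ↦ x`, `w ↦ y`; `ball (1, 0) (k - 1) ⊆ ball 0 k`).
* `y ∈ C(x)`, `w ∉ C(x)`, `w ∉ C(z)`: the same for `update ω₀ f true`.
* `y ∈ C(x)`, `w ∈ C(z)`: impossible (planarity).  Let `c` be a path sum (`exists_pathSum` of `Link/Potential.lean`) of an
  open path from `x` to `y` in `ball 0 k`, `A = c + 1_e + 1_g` (all degrees even, finite support), `G = pot A H`,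
  `G (lowFace e') + G (src e') = A e'` (`pot_even`).  `A` has no edge at any vertex of `C(z)` except `z` (its edges join
  vertices of `C(x)`, or are `e`, `g`).  So around every vertex `v ∈ C(z)`, `v ≠ z`, the four faces have the same colour
  `G`, and neighbours in `C(z) \ {z}` share a face, so this colour is constant along an open path from `w` to the last
  vertex `v` before `z`; around `w` it is `G q` (`q = (0, -1)` is a face at `w`).  `v ∈ {(2, 0), (1, 1)}` (`v ≠ x, y`), and the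
  face `(1, 0)` contains both; so `G (1, 0) = G q`.  But from `q` to the face `(0, 0)` one crosses `e` (`A e = 1`,
  because `c e = 0`), and from `(0, 0)` to `(1, 0)` one crosses `(1, 0, true)` (`A = 0`, it joins `z` and `(1, 1)`, not
  in `C(x)`; if it is closed also `c = 0`).  So `G (1, 0) = G q + 1`, contradiction.
  (Take the path from `w` to `z` with `z` only at the end: `Conn` in `ball 0 k \ {z}` to a neighbour of `z`.)
-/

set_option autoImplicit false

open MeasureTheory ProbabilityTheory unitInterval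

namespace Pool.Agent.H89.Link

open Pool.Agent.H89.Perc (Vert Edge Config Pr half)
open Pool.Agent.H61.NC (a4)
open Pool.Agent.H89.Perc (src tgt lowFace ball sphere)

private abbrev dz : Vert := (1, 0)
private abbrev dw : Vert := (0, -1)
private abbrev dE : Edge := (0, 0, false)
private abbrev dG : Edge := (1, -1, true)
private abbrev dF : Edge := (0, -1, true)

/-! ### Clusters -/

/-- A path stays in the cluster of its first vertex. -/
private lemma diag_inside {ω : Config} {S : Set Vert} {u v : Vert} (h : Perc.Conn ω S u v) :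
    Perc.Conn ω {t | Perc.Conn ω S u t} u v := by
  refine h.induction_right (P := fun t => Perc.Conn ω {t | Perc.Conn ω S u t} u t) ?_ ?_
  · exact Perc.Conn.refl (Perc.Conn.refl h.mem_left)
  · intro a b ha hs ih
    exact ih.tail ⟨ha, ha.tail hs, hs.2.2⟩

/-- Opening an edge which has no end point in the cluster of `u` does not change this cluster. -/
private lemma diag_update {ω : Config} {S : Set Vert} {u v : Vert} {e : Edge}
    (h1 : ¬ Perc.Conn ω S u (src e)) (h2 : ¬ Perc.Conn ω S u (tgt e))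
    (h : Perc.Conn (Function.update ω e true) S u v) : Perc.Conn ω S u v := by
  refine h.induction_right (P := fun t => Perc.Conn ω S u t) (Perc.Conn.refl h.mem_left) ?_
  rintro a b - ⟨ha, hb, e', he', ho⟩ ih
  by_cases hee : e' = e
  · subst hee
    rcases he' with ⟨h3, _⟩ | ⟨h3, _⟩
    · exact absurd (h3 ▸ ih) h1
    · exact absurd (h3 ▸ ih) h2
  · rw [Function.update_of_ne hee] at ho
    exact ih.tail ⟨ha, hb, e', he', ho⟩

private lemma diag_mono {ω : Config} {S : Set Vert} {u v : Vert} (e : Edge)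
    (h : Perc.Conn ω S u v) : Perc.Conn (Function.update ω e true) S u v := by
  refine h.mono le_rfl fun e' he' => ?_
  by_cases hee : e' = e
  · subst hee; simp
  · rw [Function.update_of_ne hee]; exact he'

private lemma diag_step (ω : Config) {S : Set Vert} {e : Edge} (h1 : src e ∈ S) (h2 : tgt e ∈ S) :
    Perc.Conn (Function.update ω e true) S (src e) (tgt e) :=
  Perc.Step.conn ⟨h1, h2, e, Or.inl ⟨rfl, rfl⟩, by simp⟩

private lemma diag_open {ω : Config} {S : Set Vert} {e : Edge} (h1 : src e ∈ S) (h2 : tgt e ∈ S)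
    (h : ω e = true) : Perc.Conn ω S (src e) (tgt e) :=
  Perc.Step.conn ⟨h1, h2, e, Or.inl ⟨rfl, rfl⟩, h⟩

private lemma diag_close_eq {ω : Config} {e : Edge} (h : ω e = false) :
    Pool.Agent.H61.NC.close e ω = ω := by
  unfold Pool.Agent.H61.NC.close
  rw [← h, Function.update_eq_self]

/-! ### Probabilities -/

private lemma diag_pr_true (p : I) (h1 : 1 / 4 ≤ (p : ℝ)) {s : Finset Edge} {A : Set Config}
    (hA : Perc.LocalOn s A) (e : Edge) :
    Pr p {ω | Function.update ω e true ∈ A} ≤ 4 * Pr p A := by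
  have h := Perc.Pr_eq_update (p := p) hA e
  have h2 : 0 ≤ Pr p {ω | Function.update ω e true ∈ A} := Perc.Pr_nonneg
  have h3 : 0 ≤ Pr p {ω | Function.update ω e false ∈ A} := Perc.Pr_nonneg
  have h4 : (p : ℝ) ≤ 1 := p.2.2
  have h5 : 0 ≤ (1 - (p : ℝ)) * Pr p {ω | Function.update ω e false ∈ A} :=
    mul_nonneg (by linarith) h3
  have h6 : (1 / 4 : ℝ) * Pr p {ω | Function.update ω e true ∈ A} ≤
      (p : ℝ) * Pr p {ω | Function.update ω e true ∈ A} := mul_le_mul_of_nonneg_right h1 h2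
  linarith

private lemma diag_pr_false (p : I) (h1 : (p : ℝ) ≤ 3 / 4) {s : Finset Edge} {A : Set Config}
    (hA : Perc.LocalOn s A) (e : Edge) :
    Pr p {ω | Function.update ω e false ∈ A} ≤ 4 * Pr p A := by
  have h := Perc.Pr_eq_update (p := p) hA e
  have h2 : 0 ≤ Pr p {ω | Function.update ω e true ∈ A} := Perc.Pr_nonneg
  have h3 : 0 ≤ Pr p {ω | Function.update ω e false ∈ A} := Perc.Pr_nonneg
  have h5 : 0 ≤ (p : ℝ) * Pr p {ω | Function.update ω e true ∈ A} :=
    mul_nonneg p.2.1 h2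
  have h6 : (1 / 4 : ℝ) * Pr p {ω | Function.update ω e false ∈ A} ≤
      (1 - (p : ℝ)) * Pr p {ω | Function.update ω e false ∈ A} :=
    mul_le_mul_of_nonneg_right (by linarith) h3
  linarith

/-! ### The first inequality -/

private lemma diag_sub1 {k : ℕ} (hk : 2 ≤ k) :
    FourD k ⊆ (Pool.Agent.H61.NC.A4 dE k ∪ Pool.Agent.H61.NC.A4 dG (k - 1)) ∪
      {ω | Function.update ω dG true ∈ Pool.Agent.H61.NC.A4 dE k} := by
  rintro ω ⟨⟨u, hu, hxu⟩, ⟨u', hu', hyu⟩, hxy⟩
  have hx : xx ∈ ball 0 k := hxu.mem_left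
  have hy : yy ∈ ball 0 k := hyu.mem_left
  have hz : dz ∈ ball 0 k := by
    simp only [Perc.mem_ball, Prod.fst_zero, Prod.snd_zero]; omega
  by_cases h1 : Perc.Conn ω (ball 0 k) yy dz
  · left; left
    have hcl : ω dE = false := by
      by_contra h
      rw [Bool.not_eq_false] at h
      exact hxy ((diag_open (e := dE) (S := ball 0 k) hx hz h).trans h1.symm)
    refine ⟨⟨u, hu, ?_⟩, ⟨u', hu', ?_⟩, ?_⟩
    · rw [diag_close_eq hcl]; exact hxu
    · rw [diag_close_eq hcl]; exact h1.symm.trans hyu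
    · rw [diag_close_eq hcl]
      intro h
      exact hxy (h.trans h1.symm)
  by_cases h2 : Perc.Conn ω (ball 0 k) xx dz
  · left; right
    have hcl : ω dG = false := by
      by_contra h
      rw [Bool.not_eq_false] at h
      exact h1 (diag_open (e := dG) (S := ball 0 k) hy hz h)
    have hsub : ball (src dG) (k - 1) ⊆ ball 0 k := by
      intro t ht
      simp only [Perc.mem_ball, src, Prod.fst_zero, Prod.snd_zero] at ht ⊢
      omega
    have hout : ∀ t ∈ sphere 0 k, t ∉ ball (src dG) (k - 1) ∨ t ∈ sphere (src dG) (k - 1) := by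
      rintro t ⟨ht1, ht2⟩
      by_cases ht3 : t ∈ ball (src dG) (k - 1)
      · right
        refine ⟨ht3, ?_⟩
        simp only [Perc.mem_ball, src, Prod.fst_zero, Prod.snd_zero] at ht1 ht2 ht3 ⊢
        omega
      · exact Or.inl ht3
    have hz' : dz ∈ ball (src dG) (k - 1) := by
      simp only [Perc.mem_ball, src]; omega
    obtain ⟨a, ha, hca⟩ := hyu.to_sphere (v := src dG) (r := k - 1) Perc.self_mem_ball (hout _ hu')
    obtain ⟨b, hb, hcb⟩ := (h2.symm.trans hxu).to_sphere (v := src dG) (r := k - 1) hz'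
      (hout _ hu)
    refine ⟨⟨a, ha, ?_⟩, ⟨b, hb, ?_⟩, ?_⟩
    · rw [diag_close_eq hcl]; exact hca.mono_set Set.inter_subset_right
    · rw [diag_close_eq hcl]; exact hcb.mono_set Set.inter_subset_right
    · rw [diag_close_eq hcl]
      intro h
      exact h1 (h.mono_set hsub)
  right
  have hcl0 : ω dE = false := by
    by_contra h
    rw [Bool.not_eq_false] at h
    exact h2 (diag_open (e := dE) (S := ball 0 k) hx hz h)
  have hcl : Function.update ω dG true dE = false := by
    rw [Function.update_of_ne (by decide)]; exact hcl0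
  refine ⟨⟨u, hu, ?_⟩, ⟨u', hu', ?_⟩, ?_⟩
  · rw [diag_close_eq hcl]; exact diag_mono _ hxu
  · rw [diag_close_eq hcl]
    exact (diag_step ω (e := dG) (S := ball 0 k) hy hz).symm.trans (diag_mono _ hyu)
  · rw [diag_close_eq hcl]
    intro h
    exact h2 (diag_update (e := dG) hxy h2 h)

theorem fourD_le_a4 (p : I) (h1 : 1 / 4 ≤ (p : ℝ)) {k : ℕ} (hk : 2 ≤ k) :
    Pr p (FourD k) ≤ 6 * a4 p (k - 1) := by
  have h2 := Perc.Pr_mono (p := p) (diag_sub1 hk)
  have h3 := Perc.Pr_union_le (p := p) (A := Pool.Agent.H61.NC.A4 dE k ∪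
    Pool.Agent.H61.NC.A4 dG (k - 1))
    (B := {ω | Function.update ω dG true ∈ Pool.Agent.H61.NC.A4 dE k})
  have h4 := Perc.Pr_union_le (p := p) (A := Pool.Agent.H61.NC.A4 dE k)
    (B := Pool.Agent.H61.NC.A4 dG (k - 1))
  have h5 := diag_pr_true p h1 (Pool.Agent.H61.NC.localOn_A4 dE k) dG
  rw [Pool.Agent.H61.NC.Pr_A4] at h4 h5
  rw [Pool.Agent.H61.NC.Pr_A4] at h4
  have h6 := Pool.Agent.H61.NC.a4_anti p (r := k - 1) (r' := k) (by omega) (by omega)
  linarith

/-! ### The second inequality -/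

/-- Planarity. -/
private lemma diag_planar {k : ℕ} {ω : Config} (he : ω dE = false)
    (hxy : Perc.Conn ω (ball 0 k) xx yy) (hzw : Perc.Conn ω (ball 0 k) dw dz)
    (hxz : ¬ Perc.Conn ω (ball 0 k) xx dz) : False := by
  obtain ⟨c, hc1, -, hc3⟩ := exists_pathSum (diag_inside hxy)
  set A : Edge → ZMod 2 := fun e' => (c e' + Perc.one dE e') + Perc.one dG e' with hA
  have hA0 : ∀ e', c e' = 0 → e' ≠ dE → e' ≠ dG → A e' = 0 := by
    intro e' h1 h2 h3
    simp only [hA, h1, Perc.one, h2, h3, if_false, add_zero]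
  have hsup : ∀ e' : Edge, ¬ (-((2 * k + 2 : ℕ) : ℤ) < e'.1 + e'.2.1 ∧
      e'.1 + e'.2.1 + 1 < ((2 * k + 2 : ℕ) : ℤ)) → A e' = 0 := by
    intro e' h
    apply hA0
    · by_contra hce
      have h1 := (hc1 e' hce).2.1.mem_right
      simp only [Perc.mem_ball, src, Prod.fst_zero, Prod.snd_zero] at h1
      omega
    · rintro rfl
      simp only at h
      omega
    · rintro rfl
      simp only at h
      omega
  have hv : ∀ V, Perc.vsum A V = 0 := by
    intro V
    have h1 := Perc.vsum_add (fun e' => c e' + Perc.one dE e') (Perc.one dG) V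
    have h2 := Perc.vsum_add c (Perc.one dE) V
    rw [hA, h1, h2, hc3, Perc.vsum_one, Perc.vsum_one]
    have s1 : src dE = xx := rfl
    have s2 : tgt dE = dz := rfl
    have s3 : src dG = yy := rfl
    have s4 : tgt dG = dz := rfl
    rw [s1, s2, s3, s4]
    have t1 := CharTwo.add_self_eq_zero (if V = xx then (1 : ZMod 2) else 0)
    have t2 := CharTwo.add_self_eq_zero (if V = yy then (1 : ZMod 2) else 0)
    have t3 := CharTwo.add_self_eq_zero (if V = dz then (1 : ZMod 2) else 0)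
    linear_combination t1 + t2 + t3
  have hG := pot_even (A := A) (H := 2 * k + 2) hsup hv
  set G := pot A (2 * k + 2) with hGdef
  -- the clusters of `x` and `z` are disjoint
  have hdis : ∀ v, Perc.Conn ω (ball 0 k) dw v → ¬ Perc.Conn ω (ball 0 k) xx v :=
    fun v h1 h2 => hxz (h2.trans (h1.symm.trans hzw))
  -- no edge of `A` at the vertices of `C(z) \ {z}`
  have hvert : ∀ v, Perc.Conn ω (ball 0 k) dw v → v ≠ dz → ∀ e', (src e' = v ∨ tgt e' = v) →
      A e' = 0 := by
    intro v h1 h2 e' h3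
    have hx := hdis v h1
    apply hA0
    · by_contra hce
      obtain ⟨-, g1, g2⟩ := hc1 e' hce
      rcases h3 with h3 | h3
      · exact hx (h3 ▸ g1)
      · exact hx (h3 ▸ g2)
    · rintro rfl
      rcases h3 with h3 | h3
      · exact hx (h3 ▸ Perc.Conn.refl hxy.mem_left)
      · exact h2 h3.symm
    · rintro rfl
      rcases h3 with h3 | h3
      · exact hx (h3 ▸ hxy)
      · exact h2 h3.symm
  -- the four faces at a vertex of `C(z) \ {z}`
  have hface : ∀ a b : ℤ, Perc.Conn ω (ball 0 k) dw (a, b) → (a, b) ≠ dz →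
      G (a, b) = G (a - 1, b) ∧ G (a, b) = G (a, b - 1) ∧ G (a, b) = G (a - 1, b - 1) := by
    intro a b h1 h2
    have g1 := hG (a, b, true)
    rw [hvert (a, b) h1 h2 (a, b, true) (Or.inl rfl)] at g1
    have g2 := hG (a, b, false)
    rw [hvert (a, b) h1 h2 (a, b, false) (Or.inl rfl)] at g2
    have g3 := hG (a - 1, b, false)
    rw [hvert (a, b) h1 h2 (a - 1, b, false) (Or.inr (by simp [tgt]))] at g3
    rw [Perc.z2_add_eq_zero] at g1 g2 g3
    simp only [lowFace, src, if_true, Bool.false_eq_true, if_false] at g1 g2 g3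
    exact ⟨g1.symm, g2.symm, by rw [g3]; exact g1.symm⟩
  -- the path from `w` to `z`
  have hw : dw ∈ ({dz} : Set Vert)ᶜ := by
    simp only [Set.mem_compl_iff, Set.mem_singleton_iff]; decide
  obtain ⟨v, v', hv1, hv2, hv3, -⟩ := hzw.exists_hit (T := {dz}) hw rfl
  rw [Set.mem_singleton_iff] at hv3
  subst hv3
  have hGc : G dw = G v := by
    have hin : Perc.Conn ω {t | Perc.Conn ω (ball 0 k \ {dz}) dw t} dw v := diag_inside hv1
    refine Perc.Conn.const (f := G) hin ?_
    intro e' g1 g2 _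
    have k1 : Perc.Conn ω (ball 0 k) dw (src e') := Perc.Conn.mono_set Set.sdiff_subset g1
    have k2 : Perc.Conn ω (ball 0 k) dw (tgt e') := Perc.Conn.mono_set Set.sdiff_subset g2
    have k3 : tgt e' ≠ dz := fun h => g2.mem_right.2 h
    obtain ⟨a, b, t⟩ := e'
    cases t
    · have := (hface (a + 1) b k2 k3).1
      rw [add_sub_cancel_right] at this
      exact this.symm
    · have := (hface a (b + 1) k2 k3).2.1
      rw [add_sub_cancel_right] at this
      exact this.symm
  have hvz : Perc.Conn ω (ball 0 k) dw v := hv1.mono_set Set.sdiff_subset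
  have hvne : v ≠ dz := fun h => hv1.mem_right.2 h
  have hvx : v ≠ xx := by
    rintro rfl
    exact hdis _ hvz (Perc.Conn.refl hxy.mem_left)
  have hvy : v ≠ yy := by
    rintro rfl
    exact hdis _ hvz hxy
  have hv10 : G v = G (1, 0) := by
    obtain ⟨a, b⟩ := v
    have h1 := hv2.cases
    have h2 := hface a b hvz hvne
    have h3 : (a = 2 ∧ b = 0) ∨ (a = 1 ∧ b = 1) := by
      simp only [ne_eq, Prod.mk.injEq, xx, yy] at h1 hvx hvy
      omega
    rcases h3 with ⟨rfl, rfl⟩ | ⟨rfl, rfl⟩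
    · exact h2.1
    · exact h2.2.1
  have he1 : c dE = 0 := by
    by_contra h
    have := (hc1 _ h).1
    rw [he] at this
    exact Bool.false_ne_true this
  have hl1 := hG dE
  have hA1 : A dE = 1 := by
    simp [hA, he1, Perc.one]
  rw [hA1, Perc.z2_add_eq_one] at hl1
  have hl2 := hG (1, 0, true)
  have hA2 : A (1, 0, true) = 0 := by
    apply hA0
    · by_contra hce
      exact hxz (hc1 _ hce).2.1
    · decide
    · decide
  rw [hA2, Perc.z2_add_eq_zero] at hl2
  simp only [lowFace, src, if_true, Bool.false_eq_true, if_false] at hl1 hl2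
  norm_num at hl1 hl2
  apply hl1
  rw [hl2, ← hv10]
  exact hGc

private lemma diag_fourD_anti {k : ℕ} (hk : 2 ≤ k) : FourD k ⊆ FourD (k - 1) := by
  rintro ω ⟨⟨u, hu, h1⟩, ⟨u', hu', h2⟩, h3⟩
  have hsub : ball 0 (k - 1) ⊆ ball 0 k := by
    intro t ht
    simp only [Perc.mem_ball, Prod.fst_zero, Prod.snd_zero] at ht ⊢
    omega
  have hout : ∀ t ∈ sphere 0 k, t ∉ ball 0 (k - 1) := by
    rintro t ⟨ht1, ht2⟩ ht3
    simp only [Perc.mem_ball, Prod.fst_zero, Prod.snd_zero] at ht1 ht2 ht3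
    omega
  obtain ⟨x, hx, hcx⟩ := h1.to_sphere (v := 0) (r := k - 1)
    (by simp only [Perc.mem_ball, xx, Prod.fst_zero, Prod.snd_zero]; omega) (Or.inl (hout u hu))
  obtain ⟨x', hx', hcx'⟩ := h2.to_sphere (v := 0) (r := k - 1)
    (by simp only [Perc.mem_ball, yy, Prod.fst_zero, Prod.snd_zero]; omega) (Or.inl (hout u' hu'))
  exact ⟨⟨x, hx, hcx.mono_set Set.inter_subset_right⟩,
    ⟨x', hx', hcx'.mono_set Set.inter_subset_right⟩, fun h5 => h3 (h5.mono_set hsub)⟩

/-- The reflected configuration. -/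
private lemma diag_refl {k : ℕ} (hk : 2 ≤ k) {ω : Config} {u u' : Vert} (hu : u ∈ sphere 0 k)
    (hu' : u' ∈ sphere 0 k) (h1 : Perc.Conn ω (ball 0 k) dz u) (h2 : Perc.Conn ω (ball 0 k) dw u')
    (h3 : ¬ Perc.Conn ω (ball 0 k) dz dw) :
    (fun e => ω (Perc.reflX 1 e)) ∈ FourD (k - 1) := by
  have hb : {w : Vert | (1 - w.1, w.2) ∈ ball 0 (k - 1)} = ball dz (k - 1) := by
    ext w
    simp only [Set.mem_ofPred_eq, Perc.mem_ball, Prod.fst_zero, Prod.snd_zero]
    omega
  have hsub : ball dz (k - 1) ⊆ ball 0 k := by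
    intro t ht
    simp only [Perc.mem_ball, Prod.fst_zero, Prod.snd_zero] at ht ⊢
    omega
  have hout : ∀ t ∈ sphere 0 k, t ∉ ball dz (k - 1) ∨ t ∈ sphere dz (k - 1) := by
    rintro t ⟨ht1, ht2⟩
    by_cases ht3 : t ∈ ball dz (k - 1)
    · right
      refine ⟨ht3, ?_⟩
      simp only [Perc.mem_ball, Prod.fst_zero, Prod.snd_zero] at ht1 ht2 ht3 ⊢
      omega
    · exact Or.inl ht3
  have key : ∀ a b : Vert, Perc.Conn (fun e => ω (Perc.reflX 1 e)) (ball 0 (k - 1)) a b ↔
      Perc.Conn ω (ball dz (k - 1)) (1 - a.1, a.2) (1 - b.1, b.2) := by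
    intro a b
    rw [Perc.conn_reflX, hb]
  have ex : ∀ a : Vert, (∃ t ∈ sphere dz (k - 1), Perc.Conn ω (ball dz (k - 1)) (1 - a.1, a.2) t) →
      ∃ t ∈ sphere 0 (k - 1), Perc.Conn (fun e => ω (Perc.reflX 1 e)) (ball 0 (k - 1)) a t := by
    rintro a ⟨t, ht, hc⟩
    refine ⟨(1 - t.1, t.2), ?_, ?_⟩
    · obtain ⟨ht1, ht2⟩ := ht
      simp only [sphere, Set.mem_ofPred_eq, Perc.mem_ball, Prod.fst_zero, Prod.snd_zero]
        at ht1 ht2 ⊢
      omega
    · rw [key]
      simpa using hc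
  have hw' : dw ∈ ball dz (k - 1) := by
    simp only [Perc.mem_ball]; omega
  obtain ⟨a, ha, hca⟩ := h1.to_sphere (v := dz) (r := k - 1) Perc.self_mem_ball (hout _ hu)
  obtain ⟨b, hb', hcb⟩ := h2.to_sphere (v := dz) (r := k - 1) hw' (hout _ hu')
  refine ⟨ex xx ⟨a, ha, ?_⟩, ex yy ⟨b, hb', ?_⟩, ?_⟩
  · exact hca.mono_set Set.inter_subset_right
  · exact hcb.mono_set Set.inter_subset_right
  · rw [key]
    intro h
    exact h3 (h.mono_set hsub)

private lemma diag_sub2 {k : ℕ} (hk : 2 ≤ k) :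
    Pool.Agent.H61.NC.A4 dE k ⊆
      ({ω | Function.update ω dE false ∈ FourD k} ∪
        {ω | Function.update ω dE false ∈ {ω | Function.update ω dG true ∈ FourD k}}) ∪
      ({ω | Function.update ω dE false ∈
          {ω : Config | (fun e => ω (Perc.reflX 1 e)) ∈ FourD (k - 1)}} ∪
        {ω | Function.update ω dE false ∈ {ω | Function.update ω dF true ∈
          {ω : Config | (fun e => ω (Perc.reflX 1 e)) ∈ FourD (k - 1)}}}) := by
  rintro ω ⟨⟨u, hu, hxu⟩, ⟨u', hu', hzu⟩, hxz⟩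
  set ω₀ : Config := Function.update ω dE false with hω₀
  have e1 : Pool.Agent.H61.NC.close dE ω = ω₀ := rfl
  have s1 : src dE = xx := rfl
  have s2 : tgt dE = dz := rfl
  have s0 : (xx : Vert) = 0 := rfl
  rw [s1, s0] at hu hu'
  rw [e1, s1] at hxu hzu hxz
  rw [s2] at hzu hxz
  rw [show ball xx k = ball 0 k from rfl] at hxu hzu hxz
  have he : ω₀ dE = false := by simp [hω₀]
  have hx : xx ∈ ball 0 k := hxu.mem_left
  have hz : dz ∈ ball 0 k := hzu.mem_left
  have hy : yy ∈ ball 0 k := by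
    simp only [Perc.mem_ball, yy, Prod.fst_zero, Prod.snd_zero]; omega
  have hw : dw ∈ ball 0 k := by
    simp only [Perc.mem_ball, Prod.fst_zero, Prod.snd_zero]; omega
  by_cases h1 : Perc.Conn ω₀ (ball 0 k) dz yy
  · left; left
    exact ⟨⟨u, hu, hxu⟩, ⟨u', hu', h1.symm.trans hzu⟩, fun h => hxz (h.trans h1.symm)⟩
  by_cases h2 : Perc.Conn ω₀ (ball 0 k) xx yy
  · by_cases h3 : Perc.Conn ω₀ (ball 0 k) xx dw
    · right; left
      exact diag_refl hk hu' hu hzu (h3.symm.trans hxu) fun h => hxz (h3.trans h.symm)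
    by_cases h4 : Perc.Conn ω₀ (ball 0 k) dw dz
    · exact (diag_planar he h2 h4 hxz).elim
    right; right
    have hwx : Perc.Conn (Function.update ω₀ dF true) (ball 0 k) dw xx :=
      diag_step ω₀ (e := dF) (S := ball 0 k) hw hx
    refine diag_refl hk hu' hu (diag_mono _ hzu) (hwx.trans (diag_mono _ hxu)) ?_
    intro h
    exact h4 (diag_update (e := dF) (fun h => h4 h.symm) (fun h => hxz h.symm) h).symm
  · left; right
    have hyz : Perc.Conn (Function.update ω₀ dG true) (ball 0 k) yy dz :=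
      diag_step ω₀ (e := dG) (S := ball 0 k) hy hz
    exact ⟨⟨u, hu, diag_mono _ hxu⟩, ⟨u', hu', hyz.trans (diag_mono _ hzu)⟩,
      fun h => h2 (diag_update (e := dG) h2 hxz h)⟩

theorem a4_le_fourD (p : I) (h1 : 1 / 4 ≤ (p : ℝ)) (h2 : (p : ℝ) ≤ 3 / 4) {k : ℕ} (hk : 2 ≤ k) :
    a4 p k ≤ 100 * Pr p (FourD (k - 1)) := by
  classical
  have hloc : Perc.LocalOn (Perc.eRect (-(k : ℤ)) k (-(k : ℤ)) k) (FourD k) := perProb_localOn k
  have hloc' := perProb_localOn (k - 1)
  set B : Set Config := {ω : Config | (fun e => ω (Perc.reflX 1 e)) ∈ FourD (k - 1)} with hB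
  have hR : Pr p B = Pr p (FourD (k - 1)) := Perc.Pr_comp hloc' (Perc.reflX_injective 1).injOn
  obtain ⟨s, hs⟩ : ∃ s : Finset Edge, Perc.LocalOn s B := by
    refine ⟨(Perc.eRect (-((k - 1 : ℕ) : ℤ)) (k - 1 : ℕ) (-((k - 1 : ℕ) : ℤ))
      (k - 1 : ℕ)).image (Perc.reflX 1), ?_⟩
    intro ω ω' h hA'
    exact hloc' _ _ (fun e he => h _ (Finset.mem_image_of_mem _ he)) hA'
  have k1 := diag_pr_false p h2 hloc dE
  have k2 := diag_pr_false p h2 (hloc.update dG true) dE
  have k3 := diag_pr_false p h2 hs dE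
  have k4 := diag_pr_false p h2 (hs.update dF true) dE
  have k5 := diag_pr_true p h1 hloc dG
  have k6 := diag_pr_true p h1 hs dF
  have k7 : Pr p (FourD k) ≤ Pr p (FourD (k - 1)) := Perc.Pr_mono (diag_fourD_anti hk)
  have k8 := Perc.Pr_mono (p := p) (diag_sub2 hk)
  rw [Pool.Agent.H61.NC.Pr_A4] at k8
  have k9 := Perc.Pr_union_le (p := p)
    (A := {ω | Function.update ω dE false ∈ FourD k} ∪
        {ω | Function.update ω dE false ∈ {ω | Function.update ω dG true ∈ FourD k}})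
    (B := {ω | Function.update ω dE false ∈ B} ∪
        {ω | Function.update ω dE false ∈ {ω | Function.update ω dF true ∈ B}})
  have k10 := Perc.Pr_union_le (p := p)
    (A := {ω | Function.update ω dE false ∈ FourD k})
    (B := {ω | Function.update ω dE false ∈ {ω | Function.update ω dG true ∈ FourD k}})
  have k11 := Perc.Pr_union_le (p := p)
    (A := {ω | Function.update ω dE false ∈ B})
    (B := {ω | Function.update ω dE false ∈ {ω | Function.update ω dF true ∈ B}})
  have k12 : 0 ≤ Pr p (FourD (k - 1)) := Perc.Pr_nonneg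
  rw [hR] at k3 k6
  linarith

end Pool.Agent.H89.Link

end
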