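import Pool.Agent.H31.PT.M10
import Pool.Agent.H31.PT.M13
import Pool.Agent.H31.PT.M32

/-! The parts of this file: H83.EX.WindNear, H31.EX.Scaling, H47.EX.CylGeo, H47.EX.SepD, H89.Link.Fc, H89.Link.Fc2, H89.Link.CylArm, H56.EX.TMx, H56.EX.Alg, H26.ST.Piv. -/

section

/-! # The winding probability above the characteristic length -/

open MeasureTheory ProbabilityTheory unitInterval

namespace Pool.Agent.H83.EX

open Pool.Agent.H89.Perc

private lemma wn_local_comp {s : Finset Edge} {A : Set Config} (hA : LocalOn s A)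
    (φ : Edge → Edge) : LocalOn (s.image φ) {ω | (fun e => ω (φ e)) ∈ A} := by
  intro ω ω' h hA'
  exact hA _ _ (fun e he => h _ (Finset.mem_image_of_mem φ he)) hA'

private lemma wn_local_comp_not {s : Finset Edge} {A : Set Config} (hA : LocalOn s A)
    (φ : Edge → Edge) : LocalOn (s.image φ) {ω | (fun e => !ω (φ e)) ∈ A} := by
  intro ω ω' h hA'
  exact hA _ _ (fun e he => by rw [h _ (Finset.mem_image_of_mem φ he)]) hA'

private lemma wn_decr_comp_not {A : Set Config} (hA : Incr A) (φ : Edge → Edge) :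
    Incr {ω | (fun e => !ω (φ e)) ∈ A}ᶜ := by
  intro ω ω' h h1 h2
  apply h1
  refine hA _ _ (fun e he => ?_) h2
  rw [Bool.not_eq_true'] at he ⊢
  by_contra hc
  rw [Bool.not_eq_false] at hc
  rw [h _ hc] at he
  exact absurd he (by decide)

private lemma wn_inter {p : I} {t : Finset Edge} {A B : Set Config} (hB : LocalOn t B) :
    Pr p A + Pr p B - 1 ≤ Pr p (A ∩ B) := by
  have h1 : A ⊆ (A ∩ B) ∪ Bᶜ := by
    intro ω h
    by_cases hb : ω ∈ B
    · exact Or.inl ⟨h, hb⟩
    · exact Or.inr hb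
  have h2 := (Pr_mono (p := p) h1).trans Pr_union_le
  rw [Pr_compl hB] at h2
  linarith

private lemma wn_per_shift (m : ℕ) (ω : Config) (e : Edge) :
    per (14 * m) ω (shiftE (14 * m, 0) e) = per (14 * m) ω e := by
  simp only [per, shiftE]
  have h1 : (e.1 + 14 * (m : ℤ)) % ((14 * m : ℕ) : ℤ) = e.1 % ((14 * m : ℕ) : ℤ) := by
    push_cast
    exact Int.add_emod_right _ _
  rw [h1, add_zero]

private lemma wn_dual_shift (m : ℕ) (ω : Config) (x y : ℤ) (b : Bool) :
    dual (per (14 * m) ω) (x, y + 14 * m, b) = dual (per (14 * m) ω) (x, y, b) := by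
  cases b
  · simp only [dual, crossed, per, Bool.false_eq_true, if_false]
    have h1 : (y + 14 * (m : ℤ)) % ((14 * m : ℕ) : ℤ) = y % ((14 * m : ℕ) : ℤ) := by
      push_cast
      exact Int.add_emod_right _ _
    rw [h1]
  · simp only [dual, crossed, per, if_true]
    have h1 : (y + 14 * (m : ℤ) + 1) % ((14 * m : ℕ) : ℤ) = (y + 1) % ((14 * m : ℕ) : ℤ) := by
      rw [show y + 14 * (m : ℤ) + 1 = y + 1 + 14 * (m : ℤ) by ring]
      push_cast
      exact Int.add_emod_right _ _
    rw [h1]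

theorem wind_near : ∀ η > (0 : ℝ), ∃ δ > (0 : ℝ), ∀ p : I, half ≤ p → ∀ m : ℕ, 1 ≤ m →
    1 - δ ≤ Pr p {ω | HCross ω 0 (4 * m) 0 (4 * m)} → 1 - η ≤ Pr p (Wind (14 * m)) := by
  intro η hη
  obtain ⟨δ, hδ, H⟩ := strong_rsw (η / 4) (by positivity)
  refine ⟨δ, hδ, fun p hp m hm h => ?_⟩
  have h0 := H p hp m hm h
  have hm' : (1 : ℤ) ≤ m := by exact_mod_cast hm
  have hN : ((14 * m : ℕ) : ℤ) = 14 * m := by push_cast; ring
  have q1 : 1 - η / 4 ≤ Pr p {ω | HCross ω 0 (12 * m) 0 (5 * m)} :=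
    h0.trans (Pr_mono fun ω h => HCross.mono h le_rfl (by omega) (by omega) le_rfl le_rfl)
  have q2 : 1 - η / 4 ≤ Pr p {ω | HCross ω 0 (5 * m) 0 (5 * m)} :=
    h0.trans (Pr_mono fun ω h => HCross.mono h le_rfl (by omega) (by omega) le_rfl le_rfl)
  have p1 : 1 - η / 4 ≤ Pr p {ω | HCross (per (14 * m) ω) 0 (12 * m) 0 (5 * m)} := by
    rw [Pr_per_hcross p (by omega) (by omega)]
    exact q1
  have p2 : 1 - η / 4 ≤ Pr p {ω | HCross (per (14 * m) ω) (7 * m) (19 * m) 0 (5 * m)} := by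
    rw [Pr_per_hcross p (by omega) (by omega)]
    have := Pr_hcross_translate (p := p) (a := 0) (b := 12 * (m : ℤ)) (c := 0)
      (d := 5 * (m : ℤ)) (7 * m) 0
    rw [show (0 : ℤ) + 7 * m = 7 * m by ring, show 12 * (m : ℤ) + 7 * m = 19 * m by ring,
      add_zero, add_zero] at this
    rw [this]
    exact q1
  have p3 : 1 - η / 4 ≤ Pr p {ω | VCross (per (14 * m) ω) (7 * m) (12 * m) 0 (5 * m)} := by
    rw [Pr_per_vcross p (by omega) (by omega), Pr_vcross_eq_hcross]
    have := Pr_hcross_translate (p := p) (a := 0) (b := 5 * (m : ℤ)) (c := 0)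
      (d := 5 * (m : ℤ)) 0 (7 * m)
    rw [show (0 : ℤ) + 7 * m = 7 * m by ring, show 5 * (m : ℤ) + 7 * m = 12 * m by ring,
      add_zero, add_zero] at this
    rw [this]
    exact q2
  have p4 : 1 - η / 4 ≤ Pr p {ω | VCross (per (14 * m) ω) (14 * m) (19 * m) 0 (5 * m)} := by
    rw [Pr_per_vcross p (by omega) (by omega), Pr_vcross_eq_hcross]
    have := Pr_hcross_translate (p := p) (a := 0) (b := 5 * (m : ℤ)) (c := 0)
      (d := 5 * (m : ℤ)) 0 (14 * m)
    rw [show (0 : ℤ) + 14 * m = 14 * m by ring, show 5 * (m : ℤ) + 14 * m = 19 * m by ring,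
      add_zero, add_zero] at this
    rw [this]
    exact q2
  have l2 : LocalOn _ {ω | HCross (per (14 * m) ω) (7 * m) (19 * m) 0 (5 * m)} :=
    wn_local_comp (localOn_hcross (7 * (m : ℤ)) (19 * m) 0 (5 * m))
      (fun e => (e.1 % ((14 * m : ℕ) : ℤ), e.2.1 % ((14 * m : ℕ) : ℤ), e.2.2))
  have l3 : LocalOn _ {ω | VCross (per (14 * m) ω) (7 * m) (12 * m) 0 (5 * m)} :=
    wn_local_comp (localOn_vcross (7 * (m : ℤ)) (12 * m) 0 (5 * m))
      (fun e => (e.1 % ((14 * m : ℕ) : ℤ), e.2.1 % ((14 * m : ℕ) : ℤ), e.2.2))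
  have l4 : LocalOn _ {ω | VCross (per (14 * m) ω) (14 * m) (19 * m) 0 (5 * m)} :=
    wn_local_comp (localOn_vcross (14 * (m : ℤ)) (19 * m) 0 (5 * m))
      (fun e => (e.1 % ((14 * m : ℕ) : ℤ), e.2.1 % ((14 * m : ℕ) : ℤ), e.2.2))
  have i2 := wn_inter (p := p) (A := {ω | HCross (per (14 * m) ω) 0 (12 * m) 0 (5 * m)}) l2
  have i3 := wn_inter (p := p) (A := {ω | HCross (per (14 * m) ω) 0 (12 * m) 0 (5 * m)} ∩
    {ω | HCross (per (14 * m) ω) (7 * m) (19 * m) 0 (5 * m)}) l3
  have i4 := wn_inter (p := p) (A := ({ω | HCross (per (14 * m) ω) 0 (12 * m) 0 (5 * m)} ∩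
    {ω | HCross (per (14 * m) ω) (7 * m) (19 * m) 0 (5 * m)}) ∩
    {ω | VCross (per (14 * m) ω) (7 * m) (12 * m) 0 (5 * m)}) l4
  have hsub : (({ω | HCross (per (14 * m) ω) 0 (12 * m) 0 (5 * m)} ∩
    {ω | HCross (per (14 * m) ω) (7 * m) (19 * m) 0 (5 * m)}) ∩
    {ω | VCross (per (14 * m) ω) (7 * m) (12 * m) 0 (5 * m)}) ∩
    {ω | VCross (per (14 * m) ω) (14 * m) (19 * m) 0 (5 * m)} ⊆ Wind (14 * m) := by
    rintro ω ⟨⟨⟨k1, k2⟩, k3⟩, k4⟩
    obtain ⟨u, hu⟩ := wind_det hm (η := per (14 * m) ω) (wn_per_shift m ω) k1 k2 k3 k4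
    refine ⟨u, 1, 0, one_ne_zero, ?_⟩
    rw [one_mul, zero_mul, add_zero, hN]
    exact hu
  have := Pr_mono (p := p) hsub
  linarith

private lemma wn_hcross_half {c : ℝ} (H : ∀ m : ℕ, 1 ≤ m →
    c ≤ Pr half {ω | HCross ω 0 (4 * m) 0 m}) {m : ℕ} (hm : 1 ≤ m) (x y a : ℤ) (ha : 0 ≤ a)
    (ha' : a ≤ 20 * m) : c ≤ Pr half {ω | HCross ω x (a + x) y (5 * m + y)} := by
  have h1 := H (5 * m) (by omega)
  have h2 := Pr_hcross_translate (p := half) (a := 0) (b := a) (c := 0) (d := 5 * (m : ℤ)) x y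
  rw [zero_add, zero_add] at h2
  rw [h2]
  refine h1.trans (Pr_mono fun ω h => HCross.mono h le_rfl ha ?_ le_rfl ?_)
  · push_cast; omega
  · push_cast; omega

private lemma wn_decr_inter {A B : Set Config} (iA : Incr Aᶜ) (iB : Incr Bᶜ) :
    Incr (A ∩ B)ᶜ := by
  rw [Set.compl_inter]
  exact iA.union iB

private lemma wn_fkg4_decr {q : I} {s1 s2 s3 s4 : Finset Edge} {A B C D : Set Config}
    (lA : LocalOn s1 A) (lB : LocalOn s2 B) (lC : LocalOn s3 C) (lD : LocalOn s4 D)
    (iA : Incr Aᶜ) (iB : Incr Bᶜ) (iC : Incr Cᶜ) (iD : Incr Dᶜ) :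
    (Pr q A * Pr q B) * (Pr q C * Pr q D) ≤ Pr q ((A ∩ B) ∩ (C ∩ D)) := by
  classical
  have h1 := fkg_decr (p := q) lA lB iA iB
  have h2 := fkg_decr (p := q) lC lD iC iD
  have h3 := fkg_decr (p := q) (lA.inter' lB) (lC.inter' lD) (wn_decr_inter iA iB)
    (wn_decr_inter iC iD)
  calc (Pr q A * Pr q B) * (Pr q C * Pr q D)
      ≤ Pr q (A ∩ B) * Pr q (C ∩ D) :=
        mul_le_mul h1 h2 (mul_nonneg Pr_nonneg Pr_nonneg) Pr_nonneg
    _ ≤ _ := h3

private lemma wn_pow4 {x a b c d : ℝ} (hx : 0 ≤ x) (ha : x ≤ a) (hb : x ≤ b) (hc : x ≤ c)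
    (hd : x ≤ d) : x ^ 4 ≤ (a * b) * (c * d) := by
  have h1 : x * x ≤ a * b := mul_le_mul ha hb hx (hx.trans ha)
  have h2 : x * x ≤ c * d := mul_le_mul hc hd hx (hx.trans hc)
  calc x ^ 4 = (x * x) * (x * x) := by ring
    _ ≤ (a * b) * (c * d) := mul_le_mul h1 h2 (mul_nonneg hx hx) ((mul_nonneg hx hx).trans h1)

theorem wind_half : ∃ c > (0 : ℝ), ∀ m : ℕ, 1 ≤ m → Pr half (Wind (14 * m)) ≤ 1 - c := by
  obtain ⟨c, hc, H⟩ := rsw
  refine ⟨c ^ 4, by positivity, fun m hm => ?_⟩
  have hm' : (1 : ℤ) ≤ m := by exact_mod_cast hm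
  have hN : ((14 * m : ℕ) : ℤ) = 14 * m := by push_cast; ring
  set φ : Edge → Edge := fun e =>
    ((crossed e).1 % ((14 * m : ℕ) : ℤ), (crossed e).2.1 % ((14 * m : ℕ) : ℤ), (crossed e).2.2)
    with hφ
  have p1 : c ≤ Pr half {ω | VCross (dual (per (14 * m) ω)) 0 (5 * m) 0 (12 * m)} := by
    rw [Pr_per_dual_vcross half (by omega) (by omega), rsw_symm_half, Pr_vcross_eq_hcross]
    have := wn_hcross_half H hm 0 0 (12 * m) (by omega) (by omega)
    simpa using this
  have p2 : c ≤ Pr half {ω | VCross (dual (per (14 * m) ω)) 0 (5 * m) (7 * m) (19 * m)} := by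
    rw [Pr_per_dual_vcross half (by omega) (by omega), rsw_symm_half, Pr_vcross_eq_hcross]
    have := wn_hcross_half H hm (7 * m) 0 (12 * m) (by omega) (by omega)
    rw [show 12 * (m : ℤ) + 7 * m = 19 * m by ring, add_zero] at this
    exact this
  have p3 : c ≤ Pr half {ω | HCross (dual (per (14 * m) ω)) 0 (5 * m) (7 * m) (12 * m)} := by
    rw [Pr_per_dual_hcross half (by omega) (by omega), rsw_symm_half]
    have := wn_hcross_half H hm 0 (7 * m) (5 * m) (by omega) (by omega)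
    rw [show 5 * (m : ℤ) + 7 * m = 12 * m by ring, add_zero] at this
    exact this
  have p4 : c ≤ Pr half {ω | HCross (dual (per (14 * m) ω)) 0 (5 * m) (14 * m) (19 * m)} := by
    rw [Pr_per_dual_hcross half (by omega) (by omega), rsw_symm_half]
    have := wn_hcross_half H hm 0 (14 * m) (5 * m) (by omega) (by omega)
    rw [show 5 * (m : ℤ) + 14 * m = 19 * m by ring, add_zero] at this
    exact this
  have key := wn_fkg4_decr (q := half)
    (wn_local_comp_not (localOn_vcross 0 (5 * (m : ℤ)) 0 (12 * m)) φ)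
    (wn_local_comp_not (localOn_vcross 0 (5 * (m : ℤ)) (7 * m) (19 * m)) φ)
    (wn_local_comp_not (localOn_hcross 0 (5 * (m : ℤ)) (7 * m) (12 * m)) φ)
    (wn_local_comp_not (localOn_hcross 0 (5 * (m : ℤ)) (14 * m) (19 * m)) φ)
    (wn_decr_comp_not (incr_vcross 0 (5 * (m : ℤ)) 0 (12 * m)) φ)
    (wn_decr_comp_not (incr_vcross 0 (5 * (m : ℤ)) (7 * m) (19 * m)) φ)
    (wn_decr_comp_not (incr_hcross 0 (5 * (m : ℤ)) (7 * m) (12 * m)) φ)
    (wn_decr_comp_not (incr_hcross 0 (5 * (m : ℤ)) (14 * m) (19 * m)) φ)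
  have key2 := (wn_pow4 hc.le p1 p2 p3 p4).trans key
  have h5 : Pr half (Wind (14 * m))ᶜ = 1 - Pr half (Wind (14 * m)) :=
    Pr_compl (localOn_wind (N := 14 * m) (by omega))
  have h6 : c ^ 4 ≤ Pr half (Wind (14 * m))ᶜ := by
    refine key2.trans (Pr_mono ?_)
    rintro ω ⟨⟨k1, k2⟩, ⟨k3, k4⟩⟩ hW
    have k1' : VCross (dual (per (14 * m) ω)) 0 (5 * m) 0 (12 * m) := k1
    have k2' : VCross (dual (per (14 * m) ω)) 0 (5 * m) (7 * m) (19 * m) := k2
    have k3' : HCross (dual (per (14 * m) ω)) 0 (5 * m) (7 * m) (12 * m) := k3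
    have k4' : HCross (dual (per (14 * m) ω)) 0 (5 * m) (14 * m) (19 * m) := k4
    set η : Config := dual (per (14 * m) ω) with hη
    set ζ : Config := fun e => η (swapE e) with hζ
    have hsw : ∀ e, η e = (fun f => ζ (swapE f)) e := by
      intro e
      simp only [hζ, swapE_swapE]
    have hsw' : η = fun f => ζ (swapE f) := funext hsw
    have r1 : HCross ζ 0 (12 * m) 0 (5 * m) := by
      rw [← vcross_swap, ← hsw']
      exact k1'
    have r2 : HCross ζ (7 * m) (19 * m) 0 (5 * m) := by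
      rw [← vcross_swap, ← hsw']
      exact k2'
    have r3 : VCross ζ (7 * m) (12 * m) 0 (5 * m) := by
      rw [hζ, vcross_swap]
      exact k3'
    have r4 : VCross ζ (14 * m) (19 * m) 0 (5 * m) := by
      rw [hζ, vcross_swap]
      exact k4'
    have hinv : ∀ e, ζ (shiftE (14 * m, 0) e) = ζ e := by
      rintro ⟨x, y, b⟩
      simp only [hζ, hη, swapE, shiftE, add_zero]
      exact wn_dual_shift m ω y x (!b)
    obtain ⟨u, hu⟩ := wind_det hm (η := ζ) hinv r1 r2 r3 r4
    rw [hζ, conn_swap] at hu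
    refine wind_exclusion (N := 14 * m) (by omega) hW (u.2, u.1) ?_
    rw [hN]
    exact hu.mono_set (Set.subset_univ _)
  linarith

/-- The winding probability has increased by a constant at a good scale. -/
theorem wind_gap : ∃ δ > (0 : ℝ), ∃ c > (0 : ℝ), ∀ p : I, half ≤ p → ∀ m : ℕ, 1 ≤ m →
    1 - δ ≤ Pr p {ω | HCross ω 0 (4 * m) 0 (4 * m)} →
    c ≤ Pr p (Wind (14 * m)) - Pr half (Wind (14 * m)) := by
  obtain ⟨c, hc, h1⟩ := wind_half
  obtain ⟨δ, hδ, h2⟩ := wind_near (c / 2) (by positivity)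
  refine ⟨δ, hδ, c / 2, by positivity, fun p hp m hm h => ?_⟩
  have h3 := h1 m hm
  have h4 := h2 p hp m hm h
  linarith

end Pool.Agent.H83.EX

end

section

/-!
# Exponents of bond percolation on the square lattice from the scaling relations

`L p` is a characteristic length.  From `(p - 1/2) (L p) ^ (s + o(1)) ≍ 1`,
`θ(p) ≍ π₁(L p)`, `σ(1 - p) ≍ (L p)² π₁(L p)²` and `π₁(n) = n ^ (-a + o(1))` we obtain
`β = a / s` and `γ = (2 - 2 a) / s`.
-/

open MeasureTheory ProbabilityTheory unitInterval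
open scoped ENNReal

namespace Pool.Agent.H31.EX

open Pool.Agent.H89.Perc

/-- `θ(p) = (p - 1/2) ^ (β₀ + o(1))` as `p ↓ 1/2`. -/
def HasBeta (β₀ : ℝ) : Prop :=
  ∀ ε > (0 : ℝ), ∃ δ > (0 : ℝ), ∀ p : I, (1 / 2 : ℝ) < p → (p : ℝ) < 1 / 2 + δ →
    ((p : ℝ) - 1 / 2) ^ (β₀ + ε) ≤ theta p ∧ theta p ≤ ((p : ℝ) - 1 / 2) ^ (β₀ - ε)

/-- `σ(p) = (1/2 - p) ^ (-γ₀ + o(1))` as `p ↑ 1/2`. -/
def HasGamma (γ₀ : ℝ) : Prop :=
  ∀ ε > (0 : ℝ), ∃ δ > (0 : ℝ), ∀ p : I, (p : ℝ) < 1 / 2 → 1 / 2 - δ < (p : ℝ) →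
    ENNReal.ofReal ((1 / 2 - (p : ℝ)) ^ (-γ₀ + ε)) ≤ Pool.Agent.H85.Gamma.sigma p ∧
      Pool.Agent.H85.Gamma.sigma p ≤ ENNReal.ofReal ((1 / 2 - (p : ℝ)) ^ (-γ₀ - ε))

/-- The density `1/2 + h` (or a default value). -/
noncomputable def pOf (h : ℝ) : I := Set.projIcc 0 1 zero_le_one (1 / 2 + h)

lemma pOf_val {h : ℝ} (h0 : 0 < h) (h1 : h < 1 / 2) : (pOf h : ℝ) = 1 / 2 + h := by
  unfold pOf
  rw [Set.projIcc_of_mem zero_le_one ⟨by linarith, by linarith⟩]

lemma pOf_sub {p : I} (hp : (1 / 2 : ℝ) < p) (hp1 : (p : ℝ) < 1) : pOf ((p : ℝ) - 1 / 2) = p := by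
  apply Subtype.ext
  rw [pOf_val (by linarith) (by linarith)]
  ring

/-- Transfer of a bound valid for all densities slightly above `1/2`. -/
lemma transfer {P : I → ℝ → Prop} {δ : ℝ} (hδ : 0 < δ)
    (h : ∀ p : I, (1 / 2 : ℝ) < p → (p : ℝ) < 1 / 2 + δ → P p ((p : ℝ) - 1 / 2)) :
    ∃ δ' > (0 : ℝ), ∀ x : ℝ, 0 < x → x < δ' → P (pOf x) x := by
  refine ⟨min δ (1 / 2), lt_min hδ (by norm_num), fun x x0 x1 => ?_⟩
  have h1 : x < δ := x1.trans_le (min_le_left _ _)
  have h2 : x < 1 / 2 := x1.trans_le (min_le_right _ _)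
  have h3 := pOf_val x0 h2
  have h4 := h (pOf x) (by rw [h3]; linarith) (by rw [h3]; linarith)
  rw [h3, add_sub_cancel_left] at h4
  exact h4

/-- The characteristic length is `(p - 1/2) ^ (-1/s + o(1))`. -/
theorem length_exponent {L : I → ℕ} {s : ℝ} (hs : 0 < s)
    (hup : ∀ ε > (0 : ℝ), ∃ C > (0 : ℝ), ∃ δ > (0 : ℝ), ∀ p : I, (1 / 2 : ℝ) < p →
      (p : ℝ) < 1 / 2 + δ → ((p : ℝ) - 1 / 2) * (L p : ℝ) ^ (s - ε) ≤ C)
    (hlow : ∀ ε > (0 : ℝ), ∃ c > (0 : ℝ), ∃ δ > (0 : ℝ), ∀ p : I, (1 / 2 : ℝ) < p →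
      (p : ℝ) < 1 / 2 + δ → c ≤ ((p : ℝ) - 1 / 2) * (L p : ℝ) ^ (s + ε)) :
    PL (fun x => (L (pOf x) : ℝ)) (-(1 / s)) := by
  refine PL.of_window (L := fun x => L (pOf x)) hs ?_ ?_
  · intro ε hε
    obtain ⟨C, hC, δ, hδ, h⟩ := hup ε hε
    obtain ⟨δ', hδ', h'⟩ := transfer (P := fun p x => x * (L p : ℝ) ^ (s - ε) ≤ C) hδ h
    exact ⟨C, hC, δ', hδ', h'⟩
  · intro ε hε
    obtain ⟨C, hC, δ, hδ, h⟩ := hlow ε hε
    obtain ⟨δ', hδ', h'⟩ := transfer (P := fun p x => C ≤ x * (L p : ℝ) ^ (s + ε)) hδ h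
    exact ⟨C, hC, δ', hδ', h'⟩

/-- `β = a / s`. -/
theorem beta_of_scaling {L : I → ℕ} {a s : ℝ} (ha : 0 < a) (hs : 0 < s)
    (hπ : PN (arm half) a) (hL : PL (fun x => (L (pOf x) : ℝ)) (-(1 / s)))
    (hθ : ∃ c > (0 : ℝ), ∃ C > (0 : ℝ), ∃ δ > (0 : ℝ), ∀ p : I, (1 / 2 : ℝ) < p →
      (p : ℝ) < 1 / 2 + δ → c * arm half (L p) ≤ theta p ∧ theta p ≤ C * arm half (L p)) :
    HasBeta (a / s) := by
  obtain ⟨c, hc, C, hC, δ, hδ, h⟩ := hθ
  obtain ⟨δ', hδ', h'⟩ := transfer
    (P := fun p _ => c * arm half (L p) ≤ theta p ∧ theta p ≤ C * arm half (L p)) hδ h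
  have h1 : PL (fun x => arm half (L (pOf x))) (a * (1 / s)) :=
    PL.comp (L := fun x => L (pOf x)) ha (by positivity) hπ hL
  have h2 : PL (fun x => theta (pOf x)) (a * (1 / s)) := h1.of_between hc hC hδ' h'
  intro ε hε
  obtain ⟨δ₁, hδ₁, h3⟩ := h2 ε hε
  refine ⟨min δ₁ (1 / 2), lt_min hδ₁ (by norm_num), fun p hp hp1 => ?_⟩
  have hp2 : (p : ℝ) - 1 / 2 < δ₁ := by
    have := min_le_left δ₁ (1 / 2 : ℝ)
    linarith
  have hp3 : (p : ℝ) < 1 := by
    have := min_le_right δ₁ (1 / 2 : ℝ)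
    linarith
  have h4 := h3 ((p : ℝ) - 1 / 2) (by linarith) hp2
  simp only [pOf_sub hp hp3] at h4
  rw [mul_one_div] at h4
  exact h4

/-- `γ = (2 - 2 a) / s`. -/
theorem gamma_of_scaling {L : I → ℕ} {a s : ℝ} (ha : 0 < a) (hs : 0 < s)
    (hπ : PN (arm half) a) (hL : PL (fun x => (L (pOf x) : ℝ)) (-(1 / s)))
    (hσ : ∃ c > (0 : ℝ), ∃ C > (0 : ℝ), ∃ δ > (0 : ℝ), ∀ p : I, (1 / 2 : ℝ) < p →
      (p : ℝ) < 1 / 2 + δ →
      ENNReal.ofReal (c * ((L p : ℝ) ^ 2 * arm half (L p) ^ 2)) ≤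
        Pool.Agent.H85.Gamma.sigma (σ p) ∧
      Pool.Agent.H85.Gamma.sigma (σ p) ≤
        ENNReal.ofReal (C * ((L p : ℝ) ^ 2 * arm half (L p) ^ 2))) :
    HasGamma ((2 - 2 * a) / s) := by
  obtain ⟨c, hc, C, hC, δ, hδ, h⟩ := hσ
  have h1 : PL (fun x => arm half (L (pOf x))) (a * (1 / s)) :=
    PL.comp (L := fun x => L (pOf x)) ha (by positivity) hπ hL
  have h2 : PL (fun x => (L (pOf x) : ℝ) ^ 2 * arm half (L (pOf x)) ^ 2)
      (-((2 - 2 * a) / s)) := by
    have h3 := hL.pow_two.mul h1.pow_two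
    have e : 2 * -(1 / s) + 2 * (a * (1 / s)) = -((2 - 2 * a) / s) := by field_simp; ring
    rw [e] at h3
    exact h3
  have hlow : PL (fun x => c * ((L (pOf x) : ℝ) ^ 2 * arm half (L (pOf x)) ^ 2))
      (-((2 - 2 * a) / s)) :=
    h2.of_between hc hc one_pos fun x _ _ => ⟨le_rfl, le_rfl⟩
  have hupp : PL (fun x => C * ((L (pOf x) : ℝ) ^ 2 * arm half (L (pOf x)) ^ 2))
      (-((2 - 2 * a) / s)) :=
    h2.of_between hC hC one_pos fun x _ _ => ⟨le_rfl, le_rfl⟩
  intro ε hε
  obtain ⟨δ₁, hδ₁, h3⟩ := hlow ε hε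
  obtain ⟨δ₂, hδ₂, h4⟩ := hupp ε hε
  refine ⟨min (min δ₁ δ₂) (min δ (1 / 2)),
    lt_min (lt_min hδ₁ hδ₂) (lt_min hδ (by norm_num)), fun p hp hp1 => ?_⟩
  have m1 : (1 / 2 : ℝ) - p < min (min δ₁ δ₂) (min δ (1 / 2)) := by linarith
  have m2 : (1 / 2 : ℝ) - p < δ₁ := m1.trans_le ((min_le_left _ _).trans (min_le_left _ _))
  have m3 : (1 / 2 : ℝ) - p < δ₂ := m1.trans_le ((min_le_left _ _).trans (min_le_right _ _))
  have m4 : (1 / 2 : ℝ) - p < δ := m1.trans_le ((min_le_right _ _).trans (min_le_left _ _))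
  have m5 : (1 / 2 : ℝ) - p < 1 / 2 := m1.trans_le ((min_le_right _ _).trans (min_le_right _ _))
  have hsp : ((σ p : I) : ℝ) = 1 - p := unitInterval.coe_symm_eq p
  have hq : pOf ((1 / 2 : ℝ) - p) = σ p := by
    have e : (1 / 2 : ℝ) - p = ((σ p : I) : ℝ) - 1 / 2 := by rw [hsp]; ring
    rw [e]
    exact pOf_sub (by rw [hsp]; linarith) (by rw [hsp]; linarith)
  have h5 := h (σ p) (by rw [hsp]; linarith) (by rw [hsp]; linarith)
  rw [unitInterval.symm_symm] at h5
  have h6 := (h3 ((1 / 2 : ℝ) - p) (by linarith) m2).1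
  have h7 := (h4 ((1 / 2 : ℝ) - p) (by linarith) m3).2
  simp only [hq] at h6 h7
  exact ⟨(ENNReal.ofReal_le_ofReal h6).trans h5.1, h5.2.trans (ENNReal.ofReal_le_ofReal h7)⟩

end Pool.Agent.H31.EX

end

section

/-!
# Geometry of the corridors on the cylinder

`n ≥ 256 k`.  The corridor of `x` goes from the east mouth of the box around `0` to the right and then
down to the east mouth of the copy of the box at `(n, -n)`; the corridor of `y` is its image under
`v ↦ -v`.
-/

set_option autoImplicit false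

open MeasureTheory ProbabilityTheory unitInterval

namespace Pool.Agent.H47.EX

open Pool.Agent.H89.Perc hiding per
open Pool.Agent.H59.EX
open Pool.Agent.H89.Link (per base per_eq)

/-! ### Periods -/

/-- The periods of the cylinder. -/
def gam (n : ℕ) : AddSubgroup (ℤ × ℤ) := AddSubgroup.zmultiples ((n : ℤ), -(n : ℤ))

theorem mem_gam {n : ℕ} {z : Vert} : z ∈ gam n ↔ ∃ j : ℤ, z = ((n : ℤ) * j, -((n : ℤ) * j)) := by
  unfold gam
  rw [AddSubgroup.mem_zmultiples_iff]
  constructor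
  · rintro ⟨j, rfl⟩
    exact ⟨j, by ext <;> simp [mul_comm]⟩
  · rintro ⟨j, rfl⟩
    exact ⟨j, by ext <;> simp [mul_comm]⟩

/-- Small periods. -/
theorem gam_cases {n : ℕ} {z : Vert} (hz : z ∈ gam n) : z.2 = -z.1 ∧
    (z = 0 ∨ z.1 = n ∨ z.1 = -n ∨ z.1 = 2 * n ∨ z.1 = -(2 * n) ∨ 3 * n ≤ z.1 ∨ z.1 ≤ -(3 * n)) := by
  obtain ⟨j, rfl⟩ := mem_gam.1 hz
  refine ⟨rfl, ?_⟩
  have hn : (0 : ℤ) ≤ n := Int.natCast_nonneg n
  rcases lt_or_ge j 3 with h3 | h3
  · rcases lt_or_ge (-3) j with h4 | h4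
    · have : j = -2 ∨ j = -1 ∨ j = 0 ∨ j = 1 ∨ j = 2 := by omega
      rcases this with h | h | h | h | h <;> subst h
      · right; right; right; right; left
        simp only; ring
      · right; right; left
        simp only; ring
      · left; simp
      · right; left
        simp
      · right; right; right; left
        simp only; ring
    · right; right; right; right; right; right
      simp only
      nlinarith
  · right; right; right; right; right; left
    simp only
    nlinarith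

theorem per_gam (n : ℕ) (ω : Config) : ∀ z ∈ gam n, ∀ e, per n ω (shiftE z e) = per n ω e := by
  intro z hz e
  obtain ⟨j, rfl⟩ := mem_gam.1 hz
  exact Pool.Agent.H89.Link.per_shift n ω e j

theorem base_shift (n : ℕ) {z : Vert} (hz : z ∈ gam n) (e : Edge) :
    base n (shiftE z e) = base n e := by
  obtain ⟨j, rfl⟩ := mem_gam.1 hz
  obtain ⟨a, b, t⟩ := e
  simp only [base, shiftE, Int.add_mul_emod_self_left, Prod.mk.injEq, and_true, true_and]
  ring

theorem base_eq_iff {n : ℕ} {e e' : Edge} :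
    base n e = base n e' ↔ ∃ z ∈ gam n, e' = shiftE z e := by
  constructor
  · intro h
    obtain ⟨a, b, t⟩ := e
    obtain ⟨a', b', t'⟩ := e'
    simp only [base, Prod.mk.injEq] at h
    obtain ⟨h1, h2, h3⟩ := h
    obtain ⟨j, hj⟩ := (Int.ModEq.dvd h1 : (n : ℤ) ∣ a' - a)
    refine ⟨((n : ℤ) * j, -((n : ℤ) * j)), mem_gam.2 ⟨j, rfl⟩, ?_⟩
    simp only [shiftE, Prod.mk.injEq]
    refine ⟨by omega, by omega, h3.symm⟩
  · rintro ⟨z, hz, rfl⟩
    rw [base_shift n hz]

theorem det_eq (n : ℕ) (d d' : Side) (k : ℕ) (C S : Set Vert) :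
    det (base n) d d' k C S = pedge (gam n) (touch (dom d d' k) S ∪ inE C) := by
  ext e
  constructor
  · rintro ⟨e', he', h⟩
    obtain ⟨z, hz, rfl⟩ := base_eq_iff.1 h
    exact ⟨z, hz, he'⟩
  · rintro ⟨z, hz, he⟩
    exact ⟨_, he, (base_shift n hz e).symm⟩

/-! ### The window -/

/-- A window of one period. -/
def Win (n : ℕ) : Set Vert := {v | -(n : ℤ) ≤ v.1 - v.2 ∧ v.1 - v.2 ≤ n}

theorem base_injOn_win (n : ℕ) (hn : 1 ≤ n) : Set.InjOn (base n) (inE (Win n)) := by
  intro e he e' he' h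
  obtain ⟨z, hz, rfl⟩ := base_eq_iff.1 h
  obtain ⟨h2, hc⟩ := gam_cases hz
  have hn' : (1 : ℤ) ≤ n := by exact_mod_cast hn
  rcases hc with h0 | hc
  · rw [h0, shiftE_zero]
  · exfalso
    simp only [inE, Win, Set.mem_ofPred_eq, src_shiftE, tgt_shiftE, Prod.fst_add,
      Prod.snd_add] at he he'
    obtain ⟨a, b, t⟩ := e
    cases t
    · simp only [src, tgt, Bool.false_eq_true, if_false] at he he'
      omega
    · simp only [src, tgt, if_true] at he he'
      omega

/-- Every edge has a translate in the window. -/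
theorem exists_win (n : ℕ) (hn : 1 ≤ n) (e : Edge) : ∃ z ∈ gam n, shiftE z e ∈ inE (Win n) := by
  obtain ⟨a, b, t⟩ := e
  have hn' : (1 : ℤ) ≤ n := by exact_mod_cast hn
  -- the smaller value of `v.1 - v.2`
  have key : ∀ s : ℤ, ∃ j : ℤ, -(n : ℤ) ≤ s + 2 * (n * j) ∧ s + 2 * (n * j) + 1 ≤ n := by
    intro s
    refine ⟨-((s + n) / (2 * n)), ?_⟩
    have h1 := Int.mul_ediv_self_le (x := s + n) (k := 2 * n) (by omega)
    have h2 := Int.lt_mul_ediv_self_add (x := s + n) (k := 2 * n) (by omega)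
    have e1 : 2 * ((n : ℤ) * -((s + n) / (2 * n))) = -(2 * n * ((s + n) / (2 * n))) := by ring
    rw [e1]
    omega
  cases t
  · obtain ⟨j, h1, h2⟩ := key (a - b)
    refine ⟨((n : ℤ) * j, -((n : ℤ) * j)), mem_gam.2 ⟨j, rfl⟩, ?_⟩
    simp only [inE, Win, Set.mem_ofPred_eq, shiftE, src, tgt, Bool.false_eq_true, if_false]
    generalize (n : ℤ) * j = m at *
    omega
  · obtain ⟨j, h1, h2⟩ := key (a - b - 1)
    refine ⟨((n : ℤ) * j, -((n : ℤ) * j)), mem_gam.2 ⟨j, rfl⟩, ?_⟩
    simp only [inE, Win, Set.mem_ofPred_eq, shiftE, src, tgt, if_true]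
    generalize (n : ℤ) * j = m at *
    omega

/-! ### The corridors -/

/-- horizontal part of the corridor of `x` -/
def RX1 (n k : ℕ) : Set Vert := rect (28 * k) (n + 67 * k) (-(3 * k)) (3 * k)
/-- vertical part of the corridor of `x` -/
def RX2 (n k : ℕ) : Set Vert := rect (n + 61 * k) (n + 67 * k) (-(n + 3 * k)) (3 * k)
/-- horizontal part of the corridor of `y` -/
def RY1 (n k : ℕ) : Set Vert := rect (-(n + 67 * k)) (-(28 * k)) (-(3 * k)) (3 * k)
/-- vertical part of the corridor of `y` -/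
def RY2 (n k : ℕ) : Set Vert := rect (-(n + 67 * k)) (-(n + 61 * k)) (-(3 * k)) (n + 3 * k)

/-- corridor of `x` -/
def XX (n k : ℕ) : Set Vert := RX1 n k ∪ RX2 n k
/-- corridor of `y` -/
def YY (n k : ℕ) : Set Vert := RY1 n k ∪ RY2 n k

/-- The corridors in the window. -/
def CC (n k : ℕ) : Set Vert := pset (gam n) (XX n k ∪ YY n k) ∩ Win n

variable {n k : ℕ}

theorem mem_dom {v : Vert} : v ∈ dom .E .W k ↔
    (-(32 * k : ℤ) ≤ v.1 ∧ v.1 ≤ 32 * k ∧ -(32 * k : ℤ) ≤ v.2 ∧ v.2 ≤ 32 * k) ∨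
    ((28 * k : ℤ) ≤ v.1 ∧ v.1 ≤ 36 * k ∧ -(3 * k : ℤ) ≤ v.2 ∧ v.2 ≤ 3 * k) ∨
    (-(36 * k : ℤ) ≤ v.1 ∧ v.1 ≤ -(28 * k) ∧ -(3 * k : ℤ) ≤ v.2 ∧ v.2 ≤ 3 * k) := by
  simp only [dom, T, Set.mem_union, rect, Set.mem_ofPred_eq]
  rw [mem_ball]
  simp only [Prod.fst_zero, Prod.snd_zero, zero_sub, zero_add]
  push_cast
  rfl

theorem mem_TE {v : Vert} : v ∈ T .E k ↔
    ((28 * k : ℤ) ≤ v.1 ∧ v.1 ≤ 36 * k ∧ -(3 * k : ℤ) ≤ v.2 ∧ v.2 ≤ 3 * k) := Iff.rfl

theorem mem_TW {v : Vert} : v ∈ T .W k ↔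
    (-(36 * k : ℤ) ≤ v.1 ∧ v.1 ≤ -(28 * k) ∧ -(3 * k : ℤ) ≤ v.2 ∧ v.2 ≤ 3 * k) := Iff.rfl

theorem mem_ME {v : Vert} : v ∈ Mouth .E k ↔
    ((32 * k : ℤ) ≤ v.1 ∧ v.1 ≤ 32 * k ∧ -(4 * k : ℤ) ≤ v.2 ∧ v.2 ≤ 4 * k) := Iff.rfl

theorem mem_MW {v : Vert} : v ∈ Mouth .W k ↔
    (-(32 * k : ℤ) ≤ v.1 ∧ v.1 ≤ -(32 * k) ∧ -(4 * k : ℤ) ≤ v.2 ∧ v.2 ≤ 4 * k) := Iff.rfl

theorem mem_XX {v : Vert} : v ∈ XX n k ↔
    ((28 * k : ℤ) ≤ v.1 ∧ v.1 ≤ n + 67 * k ∧ -(3 * k : ℤ) ≤ v.2 ∧ v.2 ≤ 3 * k) ∨
    ((n + 61 * k : ℤ) ≤ v.1 ∧ v.1 ≤ n + 67 * k ∧ -(n + 3 * k : ℤ) ≤ v.2 ∧ v.2 ≤ 3 * k) := Iff.rfl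

theorem mem_YY {v : Vert} : v ∈ YY n k ↔
    (-(n + 67 * k : ℤ) ≤ v.1 ∧ v.1 ≤ -(28 * k) ∧ -(3 * k : ℤ) ≤ v.2 ∧ v.2 ≤ 3 * k) ∨
    (-(n + 67 * k : ℤ) ≤ v.1 ∧ v.1 ≤ -(n + 61 * k) ∧ -(3 * k : ℤ) ≤ v.2 ∧ v.2 ≤ n + 3 * k) := Iff.rfl

/-- The two corridors (with the mouths) are far from each other, on all sheets. -/
theorem far_XY (hk : 1 ≤ k) (hn : 256 * k ≤ n) {a b z : Vert} (ha : a ∈ Mouth .E k ∪ XX n k)
    (hz : z ∈ gam n) (hb : b + z ∈ Mouth .W k ∪ YY n k) : b ∉ ball a (4 * k) := by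
  intro hab
  obtain ⟨h2, hc⟩ := gam_cases hz
  rw [mem_ball] at hab
  push_cast at hab
  rw [Set.mem_union, mem_ME, mem_XX] at ha
  rw [Set.mem_union, mem_MW, mem_YY, Prod.fst_add, Prod.snd_add, h2] at hb
  have hk' : (1 : ℤ) ≤ k := by exact_mod_cast hk
  have hn' : 256 * (k : ℤ) ≤ n := by exact_mod_cast hn
  have hc' : z.1 = 0 ∨ z.1 = n ∨ z.1 = -n ∨ z.1 = 2 * n ∨ z.1 = -(2 * n) ∨ 3 * n ≤ z.1 ∨
      z.1 ≤ -(3 * n) := by
    rcases hc with h | h
    · left; rw [h]; rfl
    · right; exact h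
  clear hc hz
  generalize z.1 = m at *
  obtain ⟨a1, a2⟩ := a
  obtain ⟨b1, b2⟩ := b
  simp only at *
  generalize (k : ℤ) = K at *
  generalize (n : ℤ) = N at *
  rcases ha with ha | ha | ha <;> rcases hb with hb | hb | hb <;> omega

/-- The box meets only one sheet. -/
theorem one_sheet (hk : 1 ≤ k) (hn : 256 * k ≤ n) {a b z : Vert}
    (ha : a ∈ dom .E .W k ∪ (XX n k ∪ YY n k)) (hz : z ∈ gam n) (hb : b + z ∈ dom .E .W k)
    (hab : b ∈ ball a 1) : z = 0 := by
  obtain ⟨h2, hc⟩ := gam_cases hz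
  rw [mem_ball] at hab
  push_cast at hab
  rw [Set.mem_union, Set.mem_union, mem_dom, mem_XX, mem_YY] at ha
  rw [mem_dom, Prod.fst_add, Prod.snd_add, h2] at hb
  have hk' : (1 : ℤ) ≤ k := by exact_mod_cast hk
  have hn' : 256 * (k : ℤ) ≤ n := by exact_mod_cast hn
  rcases hc with h | hc
  · exact h
  · exfalso
    clear hz h2
    generalize z.1 = m at *
    obtain ⟨a1, a2⟩ := a
    obtain ⟨b1, b2⟩ := b
    simp only at *
    generalize (k : ℤ) = K at *
    generalize (n : ℤ) = N at *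
    have hb' : -(36 * K) ≤ b1 + m ∧ b1 + m ≤ 36 * K ∧ -(32 * K) ≤ b2 + -m ∧ b2 + -m ≤ 32 * K := by
      omega
    clear hb
    rcases ha with ha | ha | ha
    · have ha' : -(36 * K) ≤ a1 ∧ a1 ≤ 36 * K := by omega
      clear ha
      omega
    · rcases ha with ha | ha <;> omega
    · rcases ha with ha | ha <;> omega

theorem XX_dom (hk : 1 ≤ k) (hn : 256 * k ≤ n) {a : Vert} (ha : a ∈ XX n k)
    (hd : a ∈ dom .E .W k) : a ∈ T .E k := by
  rw [mem_XX] at ha
  rw [mem_dom] at hd
  rw [mem_TE]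
  have hk' : (1 : ℤ) ≤ k := by exact_mod_cast hk
  have hn' : 256 * (k : ℤ) ≤ n := by exact_mod_cast hn
  omega

theorem YY_dom (hk : 1 ≤ k) (hn : 256 * k ≤ n) {a : Vert} (ha : a ∈ YY n k)
    (hd : a ∈ dom .E .W k) : a ∈ T .W k := by
  rw [mem_YY] at ha
  rw [mem_dom] at hd
  rw [mem_TW]
  have hk' : (1 : ℤ) ≤ k := by exact_mod_cast hk
  have hn' : 256 * (k : ℤ) ≤ n := by exact_mod_cast hn
  omega

theorem TE_XX (hk : 1 ≤ k) (hn : 256 * k ≤ n) : T .E k ⊆ XX n k := by
  intro a ha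
  rw [mem_TE] at ha
  rw [mem_XX]
  have hk' : (1 : ℤ) ≤ k := by exact_mod_cast hk
  have hn' : 256 * (k : ℤ) ≤ n := by exact_mod_cast hn
  omega

theorem TW_YY (hk : 1 ≤ k) (hn : 256 * k ≤ n) : T .W k ⊆ YY n k := by
  intro a ha
  rw [mem_TW] at ha
  rw [mem_YY]
  have hk' : (1 : ℤ) ≤ k := by exact_mod_cast hk
  have hn' : 256 * (k : ℤ) ≤ n := by exact_mod_cast hn
  omega

theorem dom_win (hk : 1 ≤ k) (hn : 256 * k ≤ n) : dom .E .W k ⊆ Win n := by
  intro a ha
  rw [mem_dom] at ha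
  simp only [Win, Set.mem_ofPred_eq]
  have hk' : (1 : ℤ) ≤ k := by exact_mod_cast hk
  have hn' : 256 * (k : ℤ) ≤ n := by exact_mod_cast hn
  omega

theorem CC_sub : CC n k ⊆ pset (gam n) (XX n k) ∪ pset (gam n) (YY n k) := by
  rintro v ⟨⟨z, hz, h | h⟩, -⟩
  · exact Or.inl ⟨z, hz, h⟩
  · exact Or.inr ⟨z, hz, h⟩

theorem T_CC (hk : 1 ≤ k) (hn : 256 * k ≤ n) : T .E k ∪ T .W k ⊆ CC n k := by
  intro a ha
  refine ⟨pset_sub _ ?_, dom_win hk hn (Or.inr ha)⟩
  rcases ha with ha | ha
  · exact Or.inl (TE_XX hk hn ha)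
  · exact Or.inr (TW_YY hk hn ha)

theorem CC_dom (hk : 1 ≤ k) (hn : 256 * k ≤ n) :
    CC n k ∩ dom .E .W k ⊆ T .E k ∪ T .W k := by
  rintro a ⟨⟨⟨z, hz, h⟩, -⟩, hd⟩
  have hz0 : -z = 0 := one_sheet hk hn (a := a + z) (b := a + z) (z := -z) (Or.inr h)
    ((gam n).neg_mem hz) (by rw [add_neg_cancel_right]; exact hd) self_mem_ball
  rw [neg_eq_zero.1 hz0, add_zero] at h
  rcases h with h | h
  · exact Or.inl (XX_dom hk hn h hd)
  · exact Or.inr (YY_dom hk hn h hd)

theorem CC_finite (hk : 1 ≤ k) (hn : 256 * k ≤ n) : (CC n k).Finite := by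
  have hk' : (1 : ℤ) ≤ k := by exact_mod_cast hk
  have hn' : 256 * (k : ℤ) ≤ n := by exact_mod_cast hn
  refine Set.Finite.subset (Set.finite_Icc ((-(2 * n : ℤ), -(2 * n : ℤ)) : ℤ × ℤ)
    ((2 * n : ℤ), (2 * n : ℤ))) ?_
  rintro v ⟨⟨z, hz, h⟩, hw⟩
  obtain ⟨h2, -⟩ := gam_cases hz
  simp only [Win, Set.mem_ofPred_eq] at hw
  rw [Set.mem_union, mem_XX, mem_YY, Prod.fst_add, Prod.snd_add, h2] at h
  rw [Set.mem_Icc, Prod.le_def, Prod.le_def]
  simp only
  omega

theorem inj_CC (hk : 1 ≤ k) (hn : 256 * k ≤ n) :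
    Set.InjOn (base n) (inE (dom .E .W k ∪ CC n k)) := by
  refine (base_injOn_win n (by omega)).mono ?_
  rintro e ⟨h1, h2⟩
  have key : dom .E .W k ∪ CC n k ⊆ Win n := by
    rintro v (hv | hv)
    · exact dom_win hk hn hv
    · exact hv.2
  exact ⟨key h1, key h2⟩

/-- Every edge of the corridors is a translate of an edge of `CC`. -/
theorem exists_CC (hn : 1 ≤ n) {e : Edge} (he : e ∈ inE (pset (gam n) (XX n k ∪ YY n k))) :
    ∃ e' ∈ inE (CC n k), base n e' = base n e := by
  obtain ⟨z, hz, h⟩ := exists_win n hn e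
  refine ⟨shiftE z e, ⟨⟨?_, h.1⟩, ⟨?_, h.2⟩⟩, base_shift n hz e⟩
  · rw [src_shiftE, pset_add hz]
    exact he.1
  · rw [tgt_shiftE, pset_add hz]
    exact he.2

end Pool.Agent.H47.EX

end

section

/-!
# The separated event of the diagonal source is not empty
-/

set_option autoImplicit false

open MeasureTheory ProbabilityTheory unitInterval

namespace Pool.Agent.H47.EX

open Pool.Agent.H89.Perc
open Pool.Agent.H59.EX
open Pool.Agent.H89.Link (xx yy)

variable {k : ℕ}

private def AX (k : ℕ) : Set Vert := {v | v.2 = 0 ∧ -(36 * k : ℤ) ≤ v.1 ∧ v.1 ≤ 0} ∪ T .W k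

private def AY (k : ℕ) : Set Vert := {v | v.2 = -1 ∧ 1 ≤ v.1 ∧ v.1 ≤ (36 * k : ℤ)} ∪ T .E k

private noncomputable def et (k : ℕ) : Config := fun e => by
  classical exact decide (e ∈ inE (AX k) ∨ e ∈ inE (AY k))

private theorem et_true {e : Edge} : et k e = true ↔ e ∈ inE (AX k) ∨ e ∈ inE (AY k) := by
  simp [et]

private theorem mem_dom' {v : Vert} : v ∈ dom .W .E k ↔
    (-(32 * k : ℤ) ≤ v.1 ∧ v.1 ≤ 32 * k ∧ -(32 * k : ℤ) ≤ v.2 ∧ v.2 ≤ 32 * k) ∨
    (-(36 * k : ℤ) ≤ v.1 ∧ v.1 ≤ -(28 * k) ∧ -(3 * k : ℤ) ≤ v.2 ∧ v.2 ≤ 3 * k) ∨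
    ((28 * k : ℤ) ≤ v.1 ∧ v.1 ≤ 36 * k ∧ -(3 * k : ℤ) ≤ v.2 ∧ v.2 ≤ 3 * k) := by
  simp only [dom, T, Set.mem_union, rect, Set.mem_ofPred_eq]
  rw [mem_ball]
  simp only [Prod.fst_zero, Prod.snd_zero, zero_sub, zero_add]
  push_cast
  rfl

private theorem mem_AX {v : Vert} : v ∈ AX k ↔
    (v.2 = 0 ∧ -(36 * k : ℤ) ≤ v.1 ∧ v.1 ≤ 0) ∨
    (-(36 * k : ℤ) ≤ v.1 ∧ v.1 ≤ -(28 * k) ∧ -(3 * k : ℤ) ≤ v.2 ∧ v.2 ≤ 3 * k) := Iff.rfl

private theorem mem_AY {v : Vert} : v ∈ AY k ↔
    (v.2 = -1 ∧ 1 ≤ v.1 ∧ v.1 ≤ (36 * k : ℤ)) ∨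
    ((28 * k : ℤ) ≤ v.1 ∧ v.1 ≤ 36 * k ∧ -(3 * k : ℤ) ≤ v.2 ∧ v.2 ≤ 3 * k) := Iff.rfl

private theorem A_disj (hk : 1 ≤ k) {v : Vert} (h1 : v ∈ AX k) (h2 : v ∈ AY k) : False := by
  rw [mem_AX] at h1
  rw [mem_AY] at h2
  have hk' : (1 : ℤ) ≤ k := by exact_mod_cast hk
  omega

private theorem fill_et (hk : 1 ≤ k) {e : Edge}
    (h : fillV (T .W k ∪ T .E k) (srcD.cut (et k)) e = true) :
    e ∈ inE (AX k) ∨ e ∈ inE (AY k) := by
  rw [cut_srcD] at h
  rcases fillV_true.1 h with h | ⟨h1, h2⟩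
  · exact et_true.1 h
  · have hadj : tgt e ∈ ball (src e) 1 := ball_one_of_joins (joins_src_tgt e)
    rw [mem_ball] at hadj
    have hk' : (1 : ℤ) ≤ k := by exact_mod_cast hk
    rcases h1 with h1 | h1 <;> rcases h2 with h2 | h2
    · exact Or.inl ⟨Or.inr h1, Or.inr h2⟩
    · exfalso
      rw [mem_TW] at h1
      rw [mem_TE] at h2
      omega
    · exfalso
      rw [mem_TE] at h1
      rw [mem_TW] at h2
      omega
    · exact Or.inr ⟨Or.inr h1, Or.inr h2⟩

private theorem in_AX (hk : 1 ≤ k) {v : Vert}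
    (h : Conn (fillV (T .W k ∪ T .E k) (srcD.cut (et k))) (dom .W .E k) xx v) : v ∈ AX k := by
  refine h.induction_right (P := fun v => v ∈ AX k) (Or.inl ⟨rfl, ?_, le_rfl⟩) ?_
  · simp only [xx]
    omega
  · rintro a b _ ⟨-, -, e, hj, ho⟩ ih
    rcases fill_et hk ho with h1 | h1
    · exact (joins_inE hj h1).2
    · exact (A_disj hk ih (joins_inE hj h1).1).elim

private theorem in_AY (hk : 1 ≤ k) {v : Vert}
    (h : Conn (fillV (T .W k ∪ T .E k) (srcD.cut (et k))) (dom .W .E k) yy v) : v ∈ AY k := by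
  have hk' : (1 : ℤ) ≤ k := by exact_mod_cast hk
  refine h.induction_right (P := fun v => v ∈ AY k) (Or.inl ⟨rfl, le_rfl, ?_⟩) ?_
  · simp only [yy]
    omega
  · rintro a b _ ⟨-, -, e, hj, ho⟩ ih
    rcases fill_et hk ho with h1 | h1
    · exact (A_disj hk (joins_inE hj h1).1 ih).elim
    · exact (joins_inE hj h1).2

private theorem conn_et {S S' : Set Vert} (hS : S ⊆ AX k ∨ S ⊆ AY k) (hS' : S ⊆ S') {u v : Vert}
    (h : Conn allOpen S u v) : Conn (srcD.cut (et k)) S' u v := by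
  rw [cut_srcD]
  refine (h.congr (ω' := et k) fun e h1 h2 => ?_).mono_set hS'
  symm
  refine et_true.2 ?_
  rcases hS with hS | hS
  · exact Or.inl ⟨hS h1, hS h2⟩
  · exact Or.inr ⟨hS h1, hS h2⟩

/-- The separated event of the diagonal source is not empty. -/
theorem sep_srcD_nonempty {k : ℕ} (hk : 1 ≤ k) : (Sep srcD .W .E k).Nonempty := by
  have hk' : (1 : ℤ) ≤ k := by exact_mod_cast hk
  have hAX : AX k ⊆ dom .W .E k := by
    intro v hv
    rw [mem_AX] at hv
    rw [mem_dom']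
    omega
  have hAY : AY k ⊆ dom .W .E k := by
    intro v hv
    rw [mem_AY] at hv
    rw [mem_dom']
    omega
  refine ⟨et k, ?_, ?_, ?_, ?_, ?_⟩
  · refine ⟨(-(30 * k : ℤ), -(3 * k : ℤ)), (-(30 * k : ℤ), (3 * k : ℤ)), rfl, rfl, ?_, ?_⟩
    · refine conn_et (S := T .W k) (Or.inl fun _ h => Or.inr h) subset_rfl
        (ArmBoxLower.line_v' _ _ _ _ (by omega) fun t h1 h2 => ?_)
      rw [mem_TW]
      simp only
      omega
    · refine conn_et (S := AX k) (Or.inl subset_rfl) hAX ?_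
      have h1 : Conn allOpen (AX k) (-(30 * k : ℤ), 0) (0, 0) :=
        ArmBoxLower.line_h' _ _ _ _ (by omega) fun t h1 h2 => Or.inl (by
          simp only [Set.mem_ofPred_eq, true_and]
          omega)
      have h2 : Conn allOpen (AX k) (-(30 * k : ℤ), -(3 * k : ℤ)) (-(30 * k : ℤ), 0) :=
        ArmBoxLower.line_v' _ _ _ _ (by omega) fun t h1 h2 => Or.inr (by
          rw [mem_TW]
          simp only
          omega)
      exact (h2.trans h1).symm
  · refine ⟨((30 * k : ℤ), -(3 * k : ℤ)), ((30 * k : ℤ), (3 * k : ℤ)), rfl, rfl, ?_, ?_⟩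
    · refine conn_et (S := T .E k) (Or.inr fun _ h => Or.inr h) subset_rfl
        (ArmBoxLower.line_v' _ _ _ _ (by omega) fun t h1 h2 => ?_)
      rw [mem_TE]
      simp only
      omega
    · refine conn_et (S := AY k) (Or.inr subset_rfl) hAY ?_
      have h1 : Conn allOpen (AY k) (1, -1) ((30 * k : ℤ), -1) :=
        ArmBoxLower.line_h' _ _ _ _ (by omega) fun t h1 h2 => Or.inl (by
          simp only [Set.mem_ofPred_eq, true_and]
          omega)
      have h2 : Conn allOpen (AY k) ((30 * k : ℤ), -(3 * k : ℤ)) ((30 * k : ℤ), -1) :=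
        ArmBoxLower.line_v' _ _ _ _ (by omega) fun t h1 h2 => Or.inr (by
          rw [mem_TE]
          simp only
          omega)
      exact h1.trans h2.symm
  · intro h
    have h1 := in_AX hk h
    rw [mem_AX] at h1
    simp only [srcD, yy] at h1
    omega
  · intro v hv h
    have h1 := in_AX hk h
    obtain ⟨h2, h3⟩ := hv
    rw [mem_AX] at h1
    rw [mem_ball] at h2
    simp only [Prod.fst_zero, Prod.snd_zero, zero_sub, zero_add] at h2 h3
    rw [mem_MW]
    push_cast at h2 h3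
    omega
  · intro v hv h
    have h1 := in_AY hk h
    obtain ⟨h2, h3⟩ := hv
    rw [mem_AY] at h1
    rw [mem_ball] at h2
    simp only [Prod.fst_zero, Prod.snd_zero, zero_sub, zero_add] at h2 h3
    rw [mem_ME]
    push_cast at h2 h3
    omega

end Pool.Agent.H47.EX

end

section

/-!
# LINK module `Fc`: the event `Fc` implies the four-leg event

`η = per n ω`, `Conn η univ` is an equivalence relation; it is invariant under the translation by `(n, -n)`.
Clusters `C_k` = cluster of `y + k (n, -n)`; `y` is joined to `(n, -n) = x + (n, -n)`, so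
`C_k` = cluster of `x + (k+1) (n, -n)`.
(1) `C_i ≠ C_j` for `i ≠ j`: by translation take `i = 0`; `j = -1`: `C_{-1}` = cluster of `x` (not joined to `y`);
`j = 1`: by translation; `|j| ≥ 2`: `y + j (n, -n)` has `v.1 - v.2 = 2 + 2 n j`, which is not in `(-n, 3n)`.
(2) Primal colours: `F v` = cluster of `v` (type `Set Vert`, `F v = {u | Conn η univ v u}`), constant along open edges,
so `F (pv c)` is invariant under the steps of the composite graph (for `inl c` and `inr c`).
The home columns are `c = L a` (`pv c = x + a (n, -n)`) and `c = L a + 1` (`pv c = y + a (n, -n)`).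
(3) Dual colours: path sum `c` of the path from `y` to `(n, -n)` in the strip, plus the edges `(0, 0, false)` and
`(1, -1, true)` shifted by `(n, -n)`, (so that it becomes a path sum from `y` to `y + (n, -n)`), periodised by
`exists_perSum`: `A`, all degrees even, supported in the strip `H` (`H ≥ 2` because `n ≥ 2`), and open edges
except the gates `(0, 0, false) + k (n, -n)`, `(1, -1, true) + k (n, -n)`.  `G' = pot A H` (periodic).
`Gu f = G' f + 1` if `f = q + k (n, -n)` for some `k` (`q = (0, -1)`), else `G' f`; `Gd = G'`.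
For closed `e` in rows `≥ 0`: `Gu (lowFace e) = Gu (src e)` (the edges of rows `≥ 0` around `q` are the gates); for
closed `e` in rows `< 0`: `Gd (lowFace e) = Gd (src e)`.  `Gu = 0` on level `h ≥ H`, `Gd` constant on level `-h`.
So `inl c ↦ Gu (dv c)`, `inr c ↦ Gd (dv c)` is invariant under the steps (for `c` not home `dv c` is not a translate of
`q`); all `inl` home nodes have colour `G' q + 1` and all `inr` home nodes have colour `G' q`.
(4) `Leg`: if `hpos u a` and `hpos v b` are connected then `u`, `v` are both `inl` or both `inr` by (3), and by (1), (2)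
`a - 1 = b - 1` (`u = v` = strand 0), `a = b` (`u = v` = strand 1), or `a - 1 = b`, or `a = b - 1`.
-/

set_option autoImplicit false

namespace Pool.Agent.H89.Link

open H56.EX
open Pool.Agent.H89.Perc (Vert Edge Config src tgt lowFace vsum)

variable {L n : ℕ}

/-- translation of a vertex by `k` periods -/
def sh (n : ℕ) (k : ℤ) (v : Vert) : Vert := (v.1 + n * k, v.2 - n * k)

/-- translation of an edge by `k` periods -/
def she (n : ℕ) (k : ℤ) (e : Edge) : Edge := (e.1 + n * k, e.2.1 - n * k, e.2.2)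

lemma src_she (n : ℕ) (k : ℤ) (e : Edge) : src (she n k e) = sh n k (src e) := rfl

lemma tgt_she (n : ℕ) (k : ℤ) (e : Edge) : tgt (she n k e) = sh n k (tgt e) := by
  obtain ⟨a, b, t⟩ := e
  rcases t with _ | _
  · simp only [tgt, she, sh, Bool.false_eq_true, if_false]
    ext <;> simp only <;> ring
  · simp only [tgt, she, sh, if_true]
    ext <;> simp only
    ring

lemma conn_sh (n : ℕ) (ω : Config) (k : ℤ) {u v : Vert}
    (h : Perc.Conn (per n ω) Set.univ u v) :
    Perc.Conn (per n ω) Set.univ (sh n k u) (sh n k v) := by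
  refine h.induction_right (P := fun x => Perc.Conn (per n ω) Set.univ (sh n k u) (sh n k x))
    (Perc.Conn.refl trivial) ?_
  rintro a b _ ⟨_, _, e, he, ho⟩ ih
  refine ih.tail ⟨trivial, trivial, she n k e, ?_, ?_⟩
  · rcases he with ⟨h1, h2⟩ | ⟨h1, h2⟩
    · left; rw [src_she, tgt_she, ← h1, ← h2]; exact ⟨rfl, rfl⟩
    · right; rw [src_she, tgt_she, ← h1, ← h2]; exact ⟨rfl, rfl⟩
  · have := per_shift n ω e k
    rw [show she n k e = (e.1 + n * k, e.2.1 - n * k, e.2.2) from rfl, this]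
    exact ho

lemma sh_sh (n : ℕ) (k l : ℤ) (v : Vert) : sh n k (sh n l v) = sh n (k + l) v := by
  unfold sh
  ext <;> simp only <;> ring

lemma sh_zero (n : ℕ) (v : Vert) : sh n 0 v = v := by
  unfold sh
  simp

/-- periodised sum -/
noncomputable def perS (n : ℕ) (c : Edge → ZMod 2) : Edge → ZMod 2 :=
  fun e => ∑ᶠ k : ℤ, c (she n k e)

lemma she_inj {n : ℕ} (hn : 1 ≤ n) (e : Edge) : Function.Injective (fun k : ℤ => she n k e) := by
  intro k l h
  have h1 := congrArg Prod.fst h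
  simp only [she] at h1
  have h2 : (n : ℤ) * k = n * l := by linarith
  exact mul_left_cancel₀ (by omega) h2

lemma sh_inj {n : ℕ} (hn : 1 ≤ n) (v : Vert) : Function.Injective (fun k : ℤ => sh n k v) := by
  intro k l h
  have h1 := congrArg Prod.fst h
  simp only [sh] at h1
  have h2 : (n : ℤ) * k = n * l := by linarith
  exact mul_left_cancel₀ (by omega) h2

lemma perS_fin {n : ℕ} (hn : 1 ≤ n) {c : Edge → ZMod 2} (hc : {e | c e ≠ 0}.Finite) (e : Edge) :
    Function.HasFiniteSupport (fun k : ℤ => c (she n k e)) := by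
  have h := Set.Finite.preimage (f := fun k : ℤ => she n k e) (s := {e | c e ≠ 0})
    ((she_inj hn e).injOn) hc
  exact h

lemma perS_per (n : ℕ) (c : Edge → ZMod 2) (k0 : ℤ) (e : Edge) :
    perS n c (she n k0 e) = perS n c e := by
  unfold perS
  rw [← finsum_comp_equiv (Equiv.addLeft k0) (f := fun k => c (she n k e))]
  congr 1
  funext k
  congr 1
  simp only [Equiv.coe_addLeft, she]
  ext <;> simp only <;> ring

lemma perS_vsum {n : ℕ} (hn : 1 ≤ n) {c : Edge → ZMod 2} (hc : {e | c e ≠ 0}.Finite) (V : Vert) :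
    vsum (perS n c) V = ∑ᶠ k : ℤ, vsum c (sh n k V) := by
  have e1 : ∀ k : ℤ, vsum c (sh n k V) = c (she n k (V.1, V.2, false)) +
      c (she n k (V.1, V.2, true)) + c (she n k (V.1 - 1, V.2, false)) +
      c (she n k (V.1, V.2 - 1, true)) := by
    intro k
    unfold vsum sh she
    simp only
    rw [show V.1 + n * k - 1 = V.1 - 1 + n * k by ring,
      show V.2 - n * k - 1 = V.2 - 1 - n * k by ring]
  have f1 := perS_fin hn hc (V.1, V.2, false)
  have f2 := perS_fin hn hc (V.1, V.2, true)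
  have f3 := perS_fin hn hc (V.1 - 1, V.2, false)
  have f4 := perS_fin hn hc (V.1, V.2 - 1, true)
  have f12 : Function.HasFiniteSupport (fun k : ℤ => c (she n k (V.1, V.2, false)) +
      c (she n k (V.1, V.2, true))) := f1.add f2
  have f123 : Function.HasFiniteSupport (fun k : ℤ => c (she n k (V.1, V.2, false)) +
      c (she n k (V.1, V.2, true)) + c (she n k (V.1 - 1, V.2, false))) := f12.add f3
  rw [finsum_congr e1, finsum_add_distrib f123 f4, finsum_add_distrib f12 f3,
    finsum_add_distrib f1 f2]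
  rfl

open Classical in
lemma finsum_ind_v {n : ℕ} (hn : 1 ≤ n) (V w : Vert) :
    (∑ᶠ k : ℤ, (if sh n k V = w then (1 : ZMod 2) else 0)) =
      if ∃ k : ℤ, sh n k V = w then 1 else 0 := by
  by_cases h : ∃ k : ℤ, sh n k V = w
  · obtain ⟨k, hk⟩ := h
    rw [if_pos ⟨k, hk⟩, finsum_eq_single _ k]
    · rw [if_pos hk]
    · intro l hl
      rw [if_neg]
      intro h2
      exact hl (sh_inj hn V (h2.trans hk.symm))
  · rw [if_neg h]
    rw [show (fun k : ℤ => if sh n k V = w then (1 : ZMod 2) else 0) = fun _ => 0 from ?_]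
    · exact finsum_zero
    · funext k
      rw [if_neg]
      exact fun h2 => h ⟨k, h2⟩

open Classical in
lemma finsum_ind_e {n : ℕ} (hn : 1 ≤ n) (e g : Edge) :
    (∑ᶠ k : ℤ, (if she n k e = g then (1 : ZMod 2) else 0)) =
      if ∃ k : ℤ, she n k e = g then 1 else 0 := by
  by_cases h : ∃ k : ℤ, she n k e = g
  · obtain ⟨k, hk⟩ := h
    rw [if_pos ⟨k, hk⟩, finsum_eq_single _ k]
    · rw [if_pos hk]
    · intro l hl
      rw [if_neg]
      intro h2
      exact hl (she_inj hn e (h2.trans hk.symm))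
  · rw [if_neg h]
    rw [show (fun k : ℤ => if she n k e = g then (1 : ZMod 2) else 0) = fun _ => 0 from ?_]
    · exact finsum_zero
    · funext k
      rw [if_neg]
      exact fun h2 => h ⟨k, h2⟩

lemma pot_sh {n : ℕ} {A : Edge → ZMod 2} (hA : ∀ (e : Edge) (k : ℤ), A (she n k e) = A e) (H : ℕ)
    (f : Vert) (k : ℤ) : pot A H (sh n k f) = pot A H f := by
  unfold pot sh
  simp only
  symm
  apply Finset.sum_bij' (fun j _ => j - n * k) (fun j _ => j + n * k)
  · intro j hj
    rw [Finset.mem_Ioo] at hj ⊢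
    constructor <;> linarith [hj.1, hj.2]
  · intro j hj
    rw [Finset.mem_Ioo] at hj ⊢
    constructor <;> linarith [hj.1, hj.2]
  · intro j _; ring
  · intro j _; ring
  · intro j _
    rw [← hA (f.1, j, false) k]
    rfl

lemma bot_const {G : Vert → ZMod 2} (h : ℕ)
    (hstep : ∀ e : Edge, e.1 + e.2.1 = -(h : ℤ) - 1 → G (lowFace e) = G (src e)) :
    ∀ f : Vert, f.1 + f.2 + 1 = -(h : ℤ) → G f = G (0, -(h : ℤ) - 1) := by
  have hstep' : ∀ a : ℤ, G (a + 1, -(h : ℤ) - 1 - (a + 1)) = G (a, -(h : ℤ) - 1 - a) := by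
    intro a
    have e1 : G (a, -(h : ℤ) - 1 - a - 1) = G (a, -(h : ℤ) - 1 - a) :=
      hstep (a, -(h : ℤ) - 1 - a, false) (by simp only; ring)
    have e2 : G (a + 1 - 1, -(h : ℤ) - 1 - a - 1) = G (a + 1, -(h : ℤ) - 1 - a - 1) :=
      hstep (a + 1, -(h : ℤ) - 1 - a - 1, true) (by simp only; ring)
    rw [show a + 1 - 1 = a by ring] at e2
    rw [show -(h : ℤ) - 1 - (a + 1) = -(h : ℤ) - 1 - a - 1 by ring, ← e2, e1]
  have hall : ∀ a : ℤ, G (a, -(h : ℤ) - 1 - a) = G (0, -(h : ℤ) - 1) := by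
    intro a
    induction a using Int.induction_on with
    | zero => simp
    | succ a ih => rw [hstep']; exact ih
    | pred a ih =>
      have := hstep' (-a - 1)
      rw [show (-(a : ℤ) - 1 + 1) = -a by ring] at this
      rw [← this]; exact ih
  intro f hf
  have h1 : f = (f.1, -(h : ℤ) - 1 - f.1) := by
    apply Prod.ext
    · rfl
    · simp only; omega
  rw [h1]
  exact hall f.1

lemma comp_const {α : Type*} {kt kb M : ℕ} {P Q : Pat L} {f : ℤ ⊕ ℤ → α}
    (hf : ∀ x y, Step kt kb M P Q x y → f x = f y) {x y : ℤ ⊕ ℤ} (h : Conn kt kb M P Q x y) :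
    f x = f y := by
  induction h with
  | rel x y h => exact hf x y h
  | refl x => rfl
  | symm x y _ ih => exact ih.symm
  | trans x y z _ _ ih1 ih2 => exact ih1.trans ih2

theorem leg_of_fc (hL : L = 2 * n) (hn : 2 ≤ n) {s : Pat L} (hs : IsStar s) {h H : ℕ}
    (he : Even h) (hH : H ≤ h) (ω : Config) (hf : per n ω ∈ Fc n H) :
    Leg 2 2 (L - 2) (up s n h ω) (dn s n h ω) := by
  classical
  have hn1 : 1 ≤ n := by omega
  set η := per n ω with hη
  obtain ⟨hf1, hf2, hf3⟩ := hf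
  -- `H ≥ 2`
  have hH2 : 2 ≤ H := by
    by_contra hlt
    have hc : ∀ v, Perc.Conn η (strip H) yy v → v = yy := by
      intro v hv
      refine hv.induction_right (P := fun x => x = yy) rfl ?_
      intro a b _ hab _
      obtain ⟨ha1, hb1, e, he1, _⟩ := hab
      exfalso
      have h12 : src e ∈ strip H ∧ tgt e ∈ strip H := by
        rcases he1 with ⟨h1, h2⟩ | ⟨h1, h2⟩
        · rw [← h1, ← h2]; exact ⟨ha1, hb1⟩
        · rw [← h1, ← h2]; exact ⟨hb1, ha1⟩
      have h3 : -(H : ℤ) < e.1 + e.2.1 := by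
        have := h12.1
        simp only [strip, Set.mem_ofPred_eq, src] at this
        exact this.1
      have h4 : e.1 + e.2.1 + 1 < H := by
        have := h12.2
        simp only [strip, Set.mem_ofPred_eq, tgt] at this
        split_ifs at this <;> simp only at this <;> omega
      omega
    have := hc _ hf1
    have h1 := congrArg Prod.fst this
    simp only [yy] at h1
    omega
  -- (1) the clusters of the translates of `y` are different
  have hkey : ∀ i j : ℤ, Perc.Conn η Set.univ (sh n i yy) (sh n j yy) → i = j := by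
    have hd : ∀ d : ℤ, Perc.Conn η Set.univ yy (sh n d yy) → d = 0 := by
      intro d hd
      have h1 := hf3 _ hd
      simp only [sh, yy] at h1
      have h2 : -(n : ℤ) < 2 + 2 * (n * d) := by linarith [h1.1]
      have h3 : 2 + 2 * ((n : ℤ) * d) < 3 * n := by linarith [h1.2]
      have hd1 : -1 < d := by
        by_contra hlt
        have : (n : ℤ) * d ≤ n * (-1) := mul_le_mul_of_nonneg_left (by omega) (by omega)
        omega
      have hd2 : d < 2 := by
        by_contra hlt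
        have : (n : ℤ) * 2 ≤ n * d := mul_le_mul_of_nonneg_left (by omega) (by omega)
        omega
      rcases (show d = 0 ∨ d = 1 by omega) with h4 | h4
      · exact h4
      · exfalso
        subst h4
        -- `y ~ x + (n, -n)` and `y ~ y + (n, -n)`
        have h5 : Perc.Conn η Set.univ yy ((n : ℤ), -(n : ℤ)) := hf1.mono_set (Set.subset_univ _)
        have h6 : Perc.Conn η Set.univ ((n : ℤ), -(n : ℤ)) (sh n 1 yy) := h5.symm.trans hd
        have h7 := conn_sh n ω (-1) h6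
        apply hf2
        rw [sh_sh] at h7
        have e1 : sh n (-1) ((n : ℤ), -(n : ℤ)) = xx := by
          simp only [sh, xx]
          ext <;> simp only <;> ring
        rw [e1, show ((-1 : ℤ) + 1) = 0 by ring, sh_zero] at h7
        exact h7
    intro i j hij
    have h1 := conn_sh n ω (-i) hij
    rw [sh_sh, sh_sh, show -i + i = 0 by ring, sh_zero] at h1
    have := hd _ h1
    omega
  have hxy : ∀ a : ℤ, Perc.Conn η Set.univ (sh n (a - 1) yy) ((n : ℤ) * a, -((n : ℤ) * a)) := by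
    intro a
    have h5 : Perc.Conn η Set.univ yy ((n : ℤ), -(n : ℤ)) := hf1.mono_set (Set.subset_univ _)
    have h6 := conn_sh n ω (a - 1) h5
    have e1 : sh n (a - 1) ((n : ℤ), -(n : ℤ)) = ((n : ℤ) * a, -((n : ℤ) * a)) := by
      simp only [sh]
      ext <;> simp only <;> ring
    rw [e1] at h6
    exact h6
  -- (2) primal colours
  set F : Vert → Set Vert := fun v => {u | Perc.Conn η Set.univ v u} with hF
  have hFc : ∀ e : Edge, η e = true → F (src e) = F (tgt e) := by
    intro e ho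
    have hst : Perc.Conn η Set.univ (src e) (tgt e) :=
      Perc.Step.conn ⟨trivial, trivial, e, Perc.joins_src_tgt e, ho⟩
    ext u
    exact ⟨fun h1 => hst.symm.trans h1, fun h1 => hst.trans h1⟩
  have hupP := up_primal hL hs he ω (F := F) (fun e _ _ ho => hFc e ho)
  have hdnP := dn_primal hL hs he ω (F := F) (fun e _ _ ho => hFc e ho)
  have hFeq : ∀ v w, F v = F w → Perc.Conn η Set.univ v w := by
    intro v w hvw
    have : w ∈ F w := Perc.Conn.refl trivial
    rw [← hvw] at this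
    exact this
  -- (3) dual colours
  obtain ⟨c, hc1, hc2, hc3⟩ := exists_pathSum hf1
  set g1 : Edge := ((n : ℤ), -(n : ℤ), false) with hg1
  set g2 : Edge := ((n : ℤ) + 1, -(n : ℤ) - 1, true) with hg2
  set c' : Edge → ZMod 2 := fun e => (c e + Perc.one g1 e) + Perc.one g2 e with hc'
  have hc'fin : {e | c' e ≠ 0}.Finite := by
    apply (hc2.union (Set.toFinite {g1, g2})).subset
    intro e he1
    rw [Set.mem_ofPred_eq] at he1
    by_contra h2
    rw [Set.mem_union, not_or] at h2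
    obtain ⟨h3, h4⟩ := h2
    rw [Set.mem_insert_iff, Set.mem_singleton_iff, not_or] at h4
    rw [Set.mem_ofPred_eq, not_not] at h3
    apply he1
    rw [hc']
    simp only [Perc.one, h3, if_neg h4.1, if_neg h4.2, add_zero]
  have hc'v : ∀ V, vsum c' V = (if V = yy then 1 else 0) +
      (if V = ((n : ℤ) + 1, -(n : ℤ) - 1) then 1 else 0) := by
    intro V
    rw [hc', Perc.vsum_add, Perc.vsum_add, hc3, Perc.vsum_one, Perc.vsum_one]
    have e1 : src g1 = ((n : ℤ), -(n : ℤ)) := rfl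
    have e2 : tgt g1 = ((n : ℤ) + 1, -(n : ℤ)) := rfl
    have e3 : src g2 = ((n : ℤ) + 1, -(n : ℤ) - 1) := rfl
    have e4 : tgt g2 = ((n : ℤ) + 1, -(n : ℤ)) := by
      show ((n : ℤ) + 1, -(n : ℤ) - 1 + 1) = _
      rw [sub_add_cancel]
    rw [e1, e2, e3, e4]
    have z1 := Perc.z2_add_self (if V = ((n : ℤ), -(n : ℤ)) then (1 : ZMod 2) else 0)
    have z2 := Perc.z2_add_self (if V = ((n : ℤ) + 1, -(n : ℤ)) then (1 : ZMod 2) else 0)
    linear_combination z1 + z2
  set C := perS n c' with hC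
  have hCper : ∀ (e : Edge) (k : ℤ), C (she n k e) = C e := fun e k => perS_per n c' k e
  have hCv : ∀ V, vsum C V = 0 := by
    intro V
    rw [hC, perS_vsum hn1 hc'fin, finsum_congr (fun k => hc'v (sh n k V))]
    have hfs : ∀ w : Vert, Function.HasFiniteSupport (fun k : ℤ => if sh n k V = w then (1 : ZMod 2) else 0) := by
      intro w
      have : (Function.support (fun k : ℤ => if sh n k V = w then (1 : ZMod 2) else 0)) ⊆
          (fun k : ℤ => sh n k V) ⁻¹' {w} := by
        intro k hk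
        rw [Function.mem_support] at hk
        by_contra h2
        apply hk
        rw [if_neg]
        exact h2
      exact (Set.Finite.preimage ((sh_inj hn1 V).injOn) (Set.finite_singleton w)).subset this
    rw [finsum_add_distrib (hfs _) (hfs _), finsum_ind_v hn1, finsum_ind_v hn1]
    have hiff : (∃ k : ℤ, sh n k V = yy) ↔ ∃ k : ℤ, sh n k V = ((n : ℤ) + 1, -(n : ℤ) - 1) := by
      constructor
      · rintro ⟨k, hk⟩
        refine ⟨1 + k, ?_⟩
        rw [← sh_sh, hk]
        simp only [sh, yy]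
        ext <;> simp only <;> ring
      · rintro ⟨k, hk⟩
        refine ⟨-1 + k, ?_⟩
        rw [← sh_sh, hk]
        simp only [sh, yy]
        ext <;> simp only <;> ring
    simp only [hiff]
    exact Perc.z2_add_self _
  have hfse : ∀ (e g : Edge), Function.HasFiniteSupport
      (fun k : ℤ => if she n k e = g then (1 : ZMod 2) else 0) := by
    intro e g
    have : (Function.support (fun k : ℤ => if she n k e = g then (1 : ZMod 2) else 0)) ⊆
        (fun k : ℤ => she n k e) ⁻¹' {g} := by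
      intro k hk
      rw [Function.mem_support] at hk
      by_contra h2
      apply hk
      rw [if_neg]
      exact h2
    exact (Set.Finite.preimage ((she_inj hn1 e).injOn) (Set.finite_singleton g)).subset this
  -- value of `C` at an edge all of whose translates are outside the support of `c`
  have hCval : ∀ e : Edge, (∀ k : ℤ, c (she n k e) = 0) →
      C e = (if ∃ k : ℤ, she n k e = g1 then 1 else 0) +
        (if ∃ k : ℤ, she n k e = g2 then 1 else 0) := by
    intro e h0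
    have e1 : ∀ k : ℤ, c' (she n k e) = (if she n k e = g1 then 1 else 0) +
        (if she n k e = g2 then 1 else 0) := by
      intro k
      rw [hc']
      simp only [Perc.one, h0, zero_add]
    rw [hC]
    unfold perS
    rw [finsum_congr e1, finsum_add_distrib (hfse _ _) (hfse _ _), finsum_ind_e hn1,
      finsum_ind_e hn1]
  have hclosed0 : ∀ e : Edge, η e = false → ∀ k : ℤ, c (she n k e) = 0 := by
    intro e h1 k
    by_contra h2
    have h3 := (hc1 _ h2).1
    rw [hη, show she n k e = (e.1 + n * k, e.2.1 - n * k, e.2.2) from rfl, per_shift, ← hη,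
      h1] at h3
    exact absurd h3 (by decide)
  have hlev : ∀ (e : Edge) (k : ℤ), (she n k e).1 + (she n k e).2.1 = e.1 + e.2.1 := by
    intro e k
    simp only [she]; ring
  have hrow1 : ∀ e : Edge, (∃ k : ℤ, she n k e = g1) → e.1 + e.2.1 = 0 := by
    rintro e ⟨k, hk⟩
    rw [← hlev e k, hk, hg1]; ring
  have hrow2 : ∀ e : Edge, (∃ k : ℤ, she n k e = g2) → e.1 + e.2.1 = 0 := by
    rintro e ⟨k, hk⟩
    rw [← hlev e k, hk, hg2]; ring
  have hCs : ∀ e : Edge, ¬ (-(H : ℤ) < e.1 + e.2.1 ∧ e.1 + e.2.1 + 1 < H) → C e = 0 := by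
    intro e h1
    rw [hCval e, if_neg, if_neg, add_zero]
    · intro h2; have := hrow2 e h2; omega
    · intro h2; have := hrow1 e h2; omega
    · intro k
      by_contra h2
      obtain ⟨_, h4, h5⟩ := hc1 _ h2
      apply h1
      have h6 : -(H : ℤ) < (she n k e).1 + (she n k e).2.1 := by
        simp only [strip, Set.mem_ofPred_eq, src] at h4
        exact h4.1
      have h7 : (she n k e).1 + (she n k e).2.1 + 1 < H := by
        simp only [strip, Set.mem_ofPred_eq, tgt] at h5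
        split_ifs at h5 <;> simp only at h5 <;> omega
      rw [hlev] at h6 h7
      exact ⟨h6, h7⟩
  have hpot := pot_even hCs hCv
  set G := pot C H with hG
  set isQ : Vert → Prop := fun f => ∃ k : ℤ, f = ((n : ℤ) * k, -((n : ℤ) * k) - 1) with hisQ
  set Gu : Vert → ZMod 2 := fun f => G f + if isQ f then 1 else 0 with hGu
  have hu : ∀ e : Edge, 0 ≤ e.1 + e.2.1 → η e = false → Gu (lowFace e) = Gu (src e) := by
    intro e h1 h2
    have h3 := hpot e
    rw [hCval e (hclosed0 e h2)] at h3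
    have hsrc : ¬ isQ (src e) := by
      rintro ⟨k, hk⟩
      have h4 := congrArg Prod.fst hk
      have h5 := congrArg Prod.snd hk
      simp only [src] at h4 h5
      omega
    have hlow : isQ (lowFace e) ↔ ((∃ k : ℤ, she n k e = g1) ∨ ∃ k : ℤ, she n k e = g2) := by
      obtain ⟨a, b, t⟩ := e
      rcases t with _ | _
      · constructor
        · rintro ⟨k, hk⟩
          left
          refine ⟨1 - k, ?_⟩
          have h4 : a = n * k := congrArg Prod.fst hk
          have h5 : b - 1 = -((n : ℤ) * k) - 1 := congrArg Prod.snd hk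
          simp only [she, hg1]
          ext
          · simp only; rw [h4]; ring
          · simp only; rw [show b = -((n : ℤ) * k) by linarith]; ring
          · rfl
        · rintro (⟨k, hk⟩ | ⟨k, hk⟩)
          · refine ⟨1 - k, ?_⟩
            have h4 : a + n * k = n := congrArg Prod.fst hk
            have h5 : b - n * k = -(n : ℤ) := congrArg (fun x : Edge => x.2.1) hk
            show ((a, b - 1) : Vert) = _
            ext
            · simp only; linear_combination h4
            · simp only; linear_combination h5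
          · have h4 : false = true := congrArg (fun x : Edge => x.2.2) hk
            exact absurd h4 (by decide)
      · constructor
        · rintro ⟨k, hk⟩
          right
          refine ⟨1 - k, ?_⟩
          have h4 : a - 1 = n * k := congrArg Prod.fst hk
          have h5 : b = -((n : ℤ) * k) - 1 := congrArg Prod.snd hk
          simp only [she, hg2]
          ext
          · simp only; rw [show a = n * k + 1 by linarith]; ring
          · simp only; rw [h5]; ring
          · rfl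
        · rintro (⟨k, hk⟩ | ⟨k, hk⟩)
          · have h4 : true = false := congrArg (fun x : Edge => x.2.2) hk
            exact absurd h4 (by decide)
          · refine ⟨1 - k, ?_⟩
            have h4 : a + n * k = n + 1 := congrArg Prod.fst hk
            have h5 : b - n * k = -(n : ℤ) - 1 := congrArg (fun x : Edge => x.2.1) hk
            show ((a - 1, b) : Vert) = _
            ext
            · simp only; linear_combination h4
            · simp only; linear_combination h5
    have hexcl : ¬ ((∃ k : ℤ, she n k e = g1) ∧ ∃ k : ℤ, she n k e = g2) := by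
      rintro ⟨⟨k, hk⟩, ⟨l, hl⟩⟩
      have h4 : e.2.2 = false := congrArg (fun x : Edge => x.2.2) hk
      have h5 : e.2.2 = true := congrArg (fun x : Edge => x.2.2) hl
      rw [h4] at h5
      exact absurd h5 (by decide)
    rw [hGu]
    simp only
    rw [if_neg hsrc, add_zero]
    by_cases hq : isQ (lowFace e)
    · rw [if_pos hq]
      have h6 : G (lowFace e) + G (src e) = 1 := by
        rw [h3]
        rcases hlow.1 hq with h7 | h7
        · rw [if_pos h7, if_neg (fun h8 => hexcl ⟨h7, h8⟩), add_zero]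
        · rw [if_pos h7, if_neg (fun h8 => hexcl ⟨h8, h7⟩), zero_add]
      have z1 := Perc.z2_add_self (1 : ZMod 2)
      have z2 := Perc.z2_add_self (G (src e))
      linear_combination h6 + z1 - z2
    · rw [if_neg hq, add_zero]
      have h7 : ¬ ((∃ k : ℤ, she n k e = g1) ∨ ∃ k : ℤ, she n k e = g2) := fun h8 => hq (hlow.2 h8)
      rw [not_or] at h7
      rw [if_neg h7.1, if_neg h7.2, add_zero] at h3
      exact Perc.z2_add_eq_zero.1 h3
  have hd : ∀ e : Edge, e.1 + e.2.1 < 0 → η e = false → G (lowFace e) = G (src e) := by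
    intro e h1 h2
    have h3 := hpot e
    rw [hCval e (hclosed0 e h2), if_neg, if_neg, add_zero] at h3
    · exact Perc.z2_add_eq_zero.1 h3
    · intro h4; have := hrow2 e h4; omega
    · intro h4; have := hrow1 e h4; omega
  have hupD := up_dual hL hs he ω (G := Gu) (fun e h1 _ h2 => hu e h1 h2) 0 (by
    intro f hf4
    rw [hGu]
    simp only
    rw [hG, pot_top C H (by omega), if_neg, add_zero]
    rintro ⟨k, hk⟩
    have h4 := congrArg Prod.fst hk
    have h5 := congrArg Prod.snd hk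
    simp only at h4 h5
    omega)
  have hdnD := dn_dual hL hs he ω (G := G) (fun e _ h1 h2 => hd e h1 h2) (G (0, -(h : ℤ) - 1))
    (bot_const h (by
      intro e h1
      have h3 := hpot e
      rw [hCs e (by omega)] at h3
      exact Perc.z2_add_eq_zero.1 h3))
  -- colours of the nodes of the composite graph
  set col : ℤ ⊕ ℤ → ZMod 2 := Sum.elim (fun x => Gu (dv x)) (fun y => G (dv y)) with hcol
  set prim : ℤ ⊕ ℤ → Set Vert := Sum.elim (fun x => F (pv x)) (fun y => F (pv y)) with hprim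
  have hcolS : ∀ x y, Step 2 2 (L - 2) (up s n h ω) (dn s n h ω) x y → col x = col y := by
    intro x y hxy1
    cases hxy1 with
    | top x => exact (hupD x).symm
    | bot y => exact (hdnD y).symm
    | glue a j hj =>
      show Gu (dv _) = G (dv _)
      rw [hGu]
      simp only
      rw [if_neg, add_zero]
      rintro ⟨k, hk⟩
      have h4 : (((2 : ℕ) : ℤ) + j + L * a) / 2 = n * k := congrArg Prod.fst hk
      have h5 : (((2 : ℕ) : ℤ) + j + L * a) / 2 = 1 + (j : ℤ) / 2 + n * a := by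
        subst hL
        have : ((2 : ℕ) : ℤ) + j + ((2 * n : ℕ) : ℤ) * a = (j : ℤ) + (1 + n * a) * 2 := by
          push_cast; ring
        rw [this, Int.add_mul_ediv_right _ _ (by norm_num)]
        ring
      have h6 : 1 + (j : ℤ) / 2 = n * (k - a) := by linarith
      have h7 : (0 : ℤ) < 1 + (j : ℤ) / 2 := by omega
      have h8 : 1 + (j : ℤ) / 2 < n := by omega
      have h9 : 0 < k - a := by
        by_contra hlt
        have : (n : ℤ) * (k - a) ≤ n * 0 := mul_le_mul_of_nonneg_left (by omega) (by omega)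
        omega
      have h10 : (n : ℤ) * 1 ≤ n * (k - a) := mul_le_mul_of_nonneg_left (by omega) (by omega)
      omega
  have hprimS : ∀ x y, Step 2 2 (L - 2) (up s n h ω) (dn s n h ω) x y → prim x = prim y := by
    intro x y hxy1
    cases hxy1 with
    | top x => exact (hupP x).symm
    | bot y => exact (hdnP y).symm
    | glue a j hj => rfl
  -- home nodes
  have hdvh : ∀ (t : Fin 2) (a : ℤ), dv ((t : ℕ) + L * a) = sh n a (0, -1) := by
    intro t a
    have ht := t.isLt
    have h1 : (((t : ℕ) : ℤ) + L * a) / 2 = n * a := by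
      subst hL
      have : ((t : ℕ) : ℤ) + ((2 * n : ℕ) : ℤ) * a = ((t : ℕ) : ℤ) + (n * a) * 2 := by
        push_cast; ring
      rw [this, Int.add_mul_ediv_right _ _ (by norm_num)]
      omega
    unfold dv sh
    rw [h1]
    ext <;> simp only <;> ring
  have hcolt : ∀ (t : Fin 2) (a : ℤ), col (Sum.inl ((t : ℕ) + L * a)) = G (0, -1) + 1 := by
    intro t a
    show Gu (dv _) = _
    rw [hdvh, hGu]
    simp only
    rw [hG, pot_sh hCper, if_pos]
    refine ⟨a, ?_⟩
    simp only [sh]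
    ext <;> simp only <;> ring
  have hcolb : ∀ (t : Fin 2) (a : ℤ), col (Sum.inr ((t : ℕ) + L * a)) = G (0, -1) := by
    intro t a
    show G (dv _) = _
    rw [hdvh, hG, pot_sh hCper]
  have hpv0 : ∀ a : ℤ, pv (((0 : Fin 2) : ℕ) + L * a) = ((n : ℤ) * a, -((n : ℤ) * a)) := by
    intro a
    have h1 : ((((0 : Fin 2) : ℕ) : ℤ) + L * a + 1) / 2 = n * a := by
      subst hL
      have : (((0 : Fin 2) : ℕ) : ℤ) + ((2 * n : ℕ) : ℤ) * a + 1 = 1 + (n * a) * 2 := by
        push_cast; simp; ring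
      rw [this, Int.add_mul_ediv_right _ _ (by norm_num)]
      norm_num
    unfold pv
    rw [h1]
  have hpv1 : ∀ a : ℤ, pv (((1 : Fin 2) : ℕ) + L * a) = sh n a yy := by
    intro a
    have h1 : ((((1 : Fin 2) : ℕ) : ℤ) + L * a + 1) / 2 = 1 + n * a := by
      subst hL
      have : (((1 : Fin 2) : ℕ) : ℤ) + ((2 * n : ℕ) : ℤ) * a + 1 = 0 + (1 + n * a) * 2 := by
        push_cast; simp; ring
      rw [this, Int.add_mul_ediv_right _ _ (by norm_num)]
      norm_num
    unfold pv sh yy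
    rw [h1]
    ext <;> simp only
    ring
  -- index of the cluster of a home node
  have hidx : ∀ (t : Fin 2) (a : ℤ), Perc.Conn η Set.univ
      (sh n (if t = 0 then a - 1 else a) yy) (pv ((t : ℕ) + L * a)) := by
    intro t a
    rcases (by fin_cases t <;> simp : t = 0 ∨ t = 1) with rfl | rfl
    · rw [if_pos rfl]
      have := hxy a
      rw [← hpv0 a] at this
      exact this
    · rw [if_neg (by decide), hpv1 a]
      exact Perc.Conn.refl trivial
  have hfinal : ∀ (t t' : Fin 2) (a b : ℤ), F (pv ((t : ℕ) + L * a)) = F (pv ((t' : ℕ) + L * b)) →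
      (t = t' ∧ a = b) ∨ Odd (b - a) := by
    intro t t' a b hFF
    have h1 := ((hidx t a).trans (hFeq _ _ hFF)).trans (hidx t' b).symm
    have h2 := hkey _ _ h1
    rcases (by fin_cases t <;> simp : t = 0 ∨ t = 1) with rfl | rfl <;>
    rcases (by fin_cases t' <;> simp : t' = 0 ∨ t' = 1) with rfl | rfl
    · left
      rw [if_pos rfl, if_pos rfl] at h2
      exact ⟨rfl, by linarith⟩
    · right
      rw [if_pos rfl, if_neg (by decide)] at h2
      exact ⟨-1, by linarith⟩
    · right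
      rw [if_neg (by decide), if_pos rfl] at h2
      exact ⟨0, by linarith⟩
    · left
      rw [if_neg (by decide), if_neg (by decide)] at h2
      exact ⟨rfl, h2⟩
  intro u v a b hconn
  have hcc := comp_const hcolS hconn
  have hpp := comp_const hprimS hconn
  rcases u with t | t <;> rcases v with t' | t'
  · rcases hfinal t t' a b hpp with ⟨h1, h2⟩ | h1
    · left; exact ⟨by rw [h1], h2⟩
    · right; exact h1
  · exfalso
    have h1 : G (0, -1) + 1 = G (0, -1) := by
      rw [← hcolt t a, ← hcolb t' b]; exact hcc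
    have h2 : (1 : ZMod 2) = 0 := by linear_combination h1
    exact absurd h2 (by decide)
  · exfalso
    have h1 : G (0, -1) = G (0, -1) + 1 := by
      rw [← hcolt t' b, ← hcolb t a]; exact hcc
    have h2 : (1 : ZMod 2) = 0 := by linear_combination -h1
    exact absurd h2 (by decide)
  · rcases hfinal t t' a b hpp with ⟨h1, h2⟩ | h1
    · left; exact ⟨by rw [h1], h2⟩
    · right; exact h1

end Pool.Agent.H89.Link

end

section

/-!
# LINK module `Fc2`: two disjoint winding clusters at the pair `x`, `y` imply the four-leg event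

`Fc2 n H`: `x` is joined to `x + (n, -n)` and `y` to `y + (n, -n)` in the strip, and `x` is not joined
to `y`.  `leg_of_wind`: `per n ω ∈ Fc2 n H` implies `Leg 2 2 (L - 2) (up s n h ω) (dn s n h ω)`.
-/

set_option autoImplicit false

open MeasureTheory ProbabilityTheory Filter Topology

namespace Pool.Agent.H89.Link

open H56.EX
open Pool.Agent.H89.Perc (Vert Edge Config Pr half src tgt lowFace vsum)

variable {L n : ℕ}

/-- Two different winding clusters at `x` and `y`. -/
def Fc2 (n H : ℕ) : Set Config :=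
  {ω | Perc.Conn ω (strip H) xx (n, -n) ∧ Perc.Conn ω (strip H) yy (n + 1, -n - 1) ∧
    ¬ Perc.Conn ω Set.univ xx yy}

/-- sum of the translates of `c` by `k ≥ 0` periods -/
noncomputable def halfS (n : ℕ) (c : Edge → ZMod 2) : Edge → ZMod 2 :=
  fun e => ∑ᶠ k : ℕ, c (she n (-(k : ℤ)) e)

lemma she_neg_inj {n : ℕ} (hn : 1 ≤ n) (e : Edge) :
    Function.Injective (fun k : ℕ => she n (-(k : ℤ)) e) := by
  intro k l h
  have h1 := she_inj hn e h
  omega

lemma sh_neg_inj {n : ℕ} (hn : 1 ≤ n) (v : Vert) :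
    Function.Injective (fun k : ℕ => sh n (-(k : ℤ)) v) := by
  intro k l h
  have h1 := sh_inj hn v h
  omega

lemma halfS_fin {n : ℕ} (hn : 1 ≤ n) {c : Edge → ZMod 2} (hc : {e | c e ≠ 0}.Finite) (e : Edge) :
    Function.HasFiniteSupport (fun k : ℕ => c (she n (-(k : ℤ)) e)) := by
  have h := Set.Finite.preimage (f := fun k : ℕ => she n (-(k : ℤ)) e) (s := {e | c e ≠ 0})
    ((she_neg_inj hn e).injOn) hc
  exact h

lemma halfS_vsum {n : ℕ} (hn : 1 ≤ n) {c : Edge → ZMod 2} (hc : {e | c e ≠ 0}.Finite) (V : Vert) :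
    vsum (halfS n c) V = ∑ᶠ k : ℕ, vsum c (sh n (-(k : ℤ)) V) := by
  have e1 : ∀ k : ℕ, vsum c (sh n (-(k : ℤ)) V) = c (she n (-(k : ℤ)) (V.1, V.2, false)) +
      c (she n (-(k : ℤ)) (V.1, V.2, true)) + c (she n (-(k : ℤ)) (V.1 - 1, V.2, false)) +
      c (she n (-(k : ℤ)) (V.1, V.2 - 1, true)) := by
    intro k
    unfold vsum sh she
    simp only
    rw [show V.1 + n * (-(k : ℤ)) - 1 = V.1 - 1 + n * (-(k : ℤ)) by ring,
      show V.2 - n * (-(k : ℤ)) - 1 = V.2 - 1 - n * (-(k : ℤ)) by ring]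
  have f1 := halfS_fin hn hc (V.1, V.2, false)
  have f2 := halfS_fin hn hc (V.1, V.2, true)
  have f3 := halfS_fin hn hc (V.1 - 1, V.2, false)
  have f4 := halfS_fin hn hc (V.1, V.2 - 1, true)
  have f12 : Function.HasFiniteSupport (fun k : ℕ => c (she n (-(k : ℤ)) (V.1, V.2, false)) +
      c (she n (-(k : ℤ)) (V.1, V.2, true))) := f1.add f2
  have f123 : Function.HasFiniteSupport (fun k : ℕ => c (she n (-(k : ℤ)) (V.1, V.2, false)) +
      c (she n (-(k : ℤ)) (V.1, V.2, true)) + c (she n (-(k : ℤ)) (V.1 - 1, V.2, false))) :=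
    f12.add f3
  rw [finsum_congr e1, finsum_add_distrib f123 f4, finsum_add_distrib f12 f3,
    finsum_add_distrib f1 f2]
  rfl

open Classical in
lemma finsum_ind_half {n : ℕ} (hn : 1 ≤ n) (V w : Vert) :
    (∑ᶠ k : ℕ, (if sh n (-(k : ℤ)) V = w then (1 : ZMod 2) else 0)) =
      if ∃ k : ℕ, sh n (-(k : ℤ)) V = w then 1 else 0 := by
  by_cases h : ∃ k : ℕ, sh n (-(k : ℤ)) V = w
  · obtain ⟨k, hk⟩ := h
    rw [if_pos ⟨k, hk⟩, finsum_eq_single _ k]
    · rw [if_pos hk]
    · intro l hl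
      rw [if_neg]
      intro h2
      exact hl (sh_neg_inj hn V (h2.trans hk.symm))
  · rw [if_neg h]
    rw [show (fun k : ℕ => if sh n (-(k : ℤ)) V = w then (1 : ZMod 2) else 0) = fun _ => 0 from ?_]
    · exact finsum_zero
    · funext k
      rw [if_neg]
      exact fun h2 => h ⟨k, h2⟩

lemma hfs_half {n : ℕ} (hn : 1 ≤ n) (V w : Vert) : Function.HasFiniteSupport
    (fun k : ℕ => if sh n (-(k : ℤ)) V = w then (1 : ZMod 2) else 0) := by
  have : (Function.support (fun k : ℕ => if sh n (-(k : ℤ)) V = w then (1 : ZMod 2) else 0)) ⊆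
      (fun k : ℕ => sh n (-(k : ℤ)) V) ⁻¹' {w} := by
    intro k hk
    rw [Function.mem_support] at hk
    by_contra h2
    apply hk
    rw [if_neg]
    exact h2
  exact (Set.Finite.preimage ((sh_neg_inj hn V).injOn) (Set.finite_singleton w)).subset this

lemma hfs_per {n : ℕ} (hn : 1 ≤ n) (V w : Vert) : Function.HasFiniteSupport
    (fun k : ℤ => if sh n k V = w then (1 : ZMod 2) else 0) := by
  have : (Function.support (fun k : ℤ => if sh n k V = w then (1 : ZMod 2) else 0)) ⊆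
      (fun k : ℤ => sh n k V) ⁻¹' {w} := by
    intro k hk
    rw [Function.mem_support] at hk
    by_contra h2
    apply hk
    rw [if_neg]
    exact h2
  exact (Set.Finite.preimage ((sh_inj hn V).injOn) (Set.finite_singleton w)).subset this

/-- the half sum of a path from `u` to `u + (n, -n)` has odd degree at `u` only -/
lemma halfS_vsum_path {n : ℕ} (hn : 1 ≤ n) {c : Edge → ZMod 2} (hc : {e | c e ≠ 0}.Finite)
    {u : Vert} (hv : ∀ V : Vert, vsum c V = (if V = u then 1 else 0) +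
      (if V = sh n 1 u then 1 else 0)) (V : Vert) :
    vsum (halfS n c) V = if V = u then 1 else 0 := by
  classical
  rw [halfS_vsum hn hc, finsum_congr (fun k : ℕ => hv (sh n (-(k : ℤ)) V)),
    finsum_add_distrib (hfs_half hn _ _) (hfs_half hn _ _), finsum_ind_half hn, finsum_ind_half hn]
  have key : ∀ (k : ℤ) (w : Vert), sh n (-k) V = w ↔ V = sh n k w := by
    intro k w
    constructor
    · rintro rfl
      rw [sh_sh, show k + -k = 0 by ring, sh_zero]
    · rintro rfl
      rw [sh_sh, show -k + k = 0 by ring, sh_zero]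
  by_cases h : ∃ k : ℕ, sh n (-(k : ℤ)) V = u
  · obtain ⟨k, hk⟩ := h
    rw [if_pos ⟨k, hk⟩]
    have hk' := (key k u).1 hk
    rcases Nat.eq_zero_or_pos k with h0 | hpos
    · subst h0
      rw [Nat.cast_zero, sh_zero] at hk'
      rw [if_pos hk', if_neg, add_zero]
      rintro ⟨l, hl⟩
      have hl' := (key l _).1 hl
      rw [sh_sh, hk'] at hl'
      have h3 : (fun k : ℤ => sh n k u) 0 = (fun k : ℤ => sh n k u) ((l : ℤ) + 1) := by
        simp only [sh_zero]; exact hl'
      have h4 := sh_inj hn u h3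
      omega
    · rw [if_pos, if_neg, Perc.z2_add_self]
      · intro h5
        rw [h5] at hk'
        have h3 : (fun k : ℤ => sh n k u) 0 = (fun k : ℤ => sh n k u) (k : ℤ) := by
          simp only [sh_zero]; exact hk'
        have h4 := sh_inj hn u h3
        omega
      · refine ⟨k - 1, ?_⟩
        rw [key, hk', sh_sh]
        congr 1
        omega
  · rw [if_neg h, if_neg, if_neg, add_zero]
    · intro h5
      exact h ⟨0, by rw [key, Nat.cast_zero, sh_zero]; exact h5⟩
    · rintro ⟨l, hl⟩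
      apply h
      refine ⟨l + 1, ?_⟩
      rw [key] at hl ⊢
      rw [hl, sh_sh]
      push_cast
      rfl

/-- the periodic sum of a path from `u` to `u + (n, -n)` has even degrees -/
lemma perS_vsum_path {n : ℕ} (hn : 1 ≤ n) {c : Edge → ZMod 2} (hc : {e | c e ≠ 0}.Finite)
    {u : Vert} (hv : ∀ V : Vert, vsum c V = (if V = u then 1 else 0) +
      (if V = sh n 1 u then 1 else 0)) (V : Vert) : vsum (perS n c) V = 0 := by
  classical
  rw [perS_vsum hn hc, finsum_congr (fun k => hv (sh n k V)),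
    finsum_add_distrib (hfs_per hn _ _) (hfs_per hn _ _), finsum_ind_v hn, finsum_ind_v hn]
  have hiff : (∃ k : ℤ, sh n k V = u) ↔ ∃ k : ℤ, sh n k V = sh n 1 u := by
    constructor
    · rintro ⟨k, hk⟩
      exact ⟨1 + k, by rw [← sh_sh, hk]⟩
    · rintro ⟨k, hk⟩
      exact ⟨-1 + k, by rw [← sh_sh, hk, sh_sh, show (-1 : ℤ) + 1 = 0 by ring, sh_zero]⟩
  simp only [hiff]
  exact Perc.z2_add_self _

lemma halfS_eq_zero {n : ℕ} {c : Edge → ZMod 2} {e : Edge}
    (h : ∀ k : ℕ, c (she n (-(k : ℤ)) e) = 0) : halfS n c e = 0 := by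
  unfold halfS
  rw [finsum_congr h]
  exact finsum_zero

lemma perS_eq_zero {n : ℕ} {c : Edge → ZMod 2} {e : Edge}
    (h : ∀ k : ℤ, c (she n k e) = 0) : perS n c e = 0 := by
  unfold perS
  rw [finsum_congr h]
  exact finsum_zero

lemma halfS_left {n : ℕ} {c : Edge → ZMod 2} {lo : ℤ} (hlo : ∀ e, c e ≠ 0 → lo ≤ e.1)
    {e : Edge} (he : e.1 < lo) : halfS n c e = 0 := by
  apply halfS_eq_zero
  intro k
  by_contra h
  have h1 := hlo _ h
  simp only [she] at h1
  have h2 : (0 : ℤ) ≤ (n : ℤ) * k := by positivity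
  have h3 : (n : ℤ) * (-(k : ℤ)) = -((n : ℤ) * k) := by ring
  rw [h3] at h1
  linarith

lemma halfS_right {n : ℕ} {c : Edge → ZMod 2} {hi : ℤ}
    (hhi : ∀ e, c e ≠ 0 → e.1 ≤ hi) {e : Edge} (he : hi < e.1) : halfS n c e = perS n c e := by
  unfold halfS perS
  have e1 : (∑ᶠ k : ℤ, c (she n k e)) = ∑ᶠ k : ℤ, c (she n (-k) e) := by
    rw [← finsum_comp_equiv (Equiv.neg ℤ) (f := fun k => c (she n k e))]
    rfl
  rw [e1]
  symm
  have hz : ∀ k : ℤ, k < 0 → c (she n (-k) e) = 0 := by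
    intro k hk
    by_contra h
    have h1 := hhi _ h
    simp only [she] at h1
    have h2 : (0 : ℤ) ≤ (n : ℤ) * (-k) := mul_nonneg (by omega) (by omega)
    linarith
  rw [← finsum_mem_univ, ← finsum_mem_inter_support]
  have hset : (Set.univ ∩ Function.support fun k : ℤ => c (she n (-k) e)) =
      (Set.range (fun k : ℕ => (k : ℤ)) ∩ Function.support fun k : ℤ => c (she n (-k) e)) := by
    ext k
    simp only [Set.mem_inter_iff, Set.mem_univ, true_and, Set.mem_range, Function.mem_support]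
    constructor
    · intro h
      refine ⟨?_, h⟩
      have : 0 ≤ k := by
        by_contra hk
        exact h (hz k (by omega))
      exact ⟨k.toNat, by omega⟩
    · exact fun h => h.2
  rw [hset, finsum_mem_inter_support, finsum_mem_range]
  intro k l h
  simpa using h

/-- supports of the sums in the strip -/
lemma halfS_strip {n : ℕ} {c : Edge → ZMod 2} {H : ℕ}
    (hs : ∀ e, c e ≠ 0 → -(H : ℤ) < e.1 + e.2.1 ∧ e.1 + e.2.1 + 1 < H) (e : Edge)
    (he : ¬ (-(H : ℤ) < e.1 + e.2.1 ∧ e.1 + e.2.1 + 1 < H)) : halfS n c e = 0 := by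
  apply halfS_eq_zero
  intro k
  by_contra h
  have h1 := hs _ h
  have h2 : (she n (-(k : ℤ)) e).1 + (she n (-(k : ℤ)) e).2.1 = e.1 + e.2.1 := by
    simp only [she]; ring
  rw [h2] at h1
  exact he h1

lemma perS_strip {n : ℕ} {c : Edge → ZMod 2} {H : ℕ}
    (hs : ∀ e, c e ≠ 0 → -(H : ℤ) < e.1 + e.2.1 ∧ e.1 + e.2.1 + 1 < H) (e : Edge)
    (he : ¬ (-(H : ℤ) < e.1 + e.2.1 ∧ e.1 + e.2.1 + 1 < H)) : perS n c e = 0 := by
  apply perS_eq_zero
  intro k
  by_contra h
  have h1 := hs _ h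
  have h2 : (she n k e).1 + (she n k e).2.1 = e.1 + e.2.1 := by
    simp only [she]; ring
  rw [h2] at h1
  exact he h1

lemma pot_congr {A B : Edge → ZMod 2} {H : ℕ} {f : Vert}
    (h : ∀ j, A (f.1, j, false) = B (f.1, j, false)) : pot A H f = pot B H f := by
  unfold pot
  exact Finset.sum_congr rfl (fun j _ => h j)

lemma pot_zero {A : Edge → ZMod 2} {H : ℕ} {f : Vert}
    (h : ∀ j, A (f.1, j, false) = 0) : pot A H f = 0 := by
  unfold pot
  exact Finset.sum_eq_zero (fun j _ => h j)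

lemma pot_add {A B : Edge → ZMod 2} {H : ℕ} (f : Vert) :
    pot (fun e => A e + B e) H f = pot A H f + pot B H f := by
  unfold pot
  exact Finset.sum_add_distrib

/-- the potential of the periodic sum of a path from `0` to `(n, -n)` is `1` at the bottom -/
lemma bottom_one0 {n : ℕ} (hn : 1 ≤ n) {c : Edge → ZMod 2} (hc : {e | c e ≠ 0}.Finite) {H : ℕ}
    (hs : ∀ e, c e ≠ 0 → -(H : ℤ) < e.1 + e.2.1 ∧ e.1 + e.2.1 + 1 < H)
    (hv : ∀ V : Vert, vsum c V = (if V = 0 then 1 else 0) +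
      (if V = sh n 1 0 then 1 else 0)) (f : Vert) (hf : f.1 + f.2 + 1 = -(H : ℤ)) :
    pot (perS n c) H f = 1 := by
  obtain ⟨hi, hhi⟩ := (hc.image Prod.fst).bddAbove
  obtain ⟨lo, hlo⟩ := (hc.image Prod.fst).bddBelow
  have hhi' : ∀ e, c e ≠ 0 → e.1 ≤ hi := fun e he => hhi ⟨e, he, rfl⟩
  have hlo' : ∀ e, c e ≠ 0 → lo ≤ e.1 := fun e he => hlo ⟨e, he, rfl⟩
  have hpo := pot_odd (A := halfS n c) (H := H) (halfS_strip hs)
    (fun V hV => by rw [halfS_vsum_path hn hc hv, if_neg hV])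
    (by rw [halfS_vsum_path hn hc hv, if_pos rfl])
  set G := pot (halfS n c) H with hG
  have hA0 : ∀ e : Edge, e.1 + e.2.1 = -(H : ℤ) - 1 → halfS n c e = 0 := by
    intro e he
    exact halfS_strip hs e (by omega)
  have hstep : ∀ a : ℤ, G (a + 1, -(H : ℤ) - 1 - (a + 1)) = G (a, -(H : ℤ) - 1 - a) +
      if a + 1 = 0 then 1 else 0 := by
    intro a
    have e1 := hpo (a, -(H : ℤ) - 1 - a, false)
    rw [hA0 _ (by simp only; ring), zero_add, if_neg (by simp)] at e1
    have e1' : G (a, -(H : ℤ) - 1 - a - 1) + G (a, -(H : ℤ) - 1 - a) = 0 := e1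
    have e2 := hpo (a + 1, -(H : ℤ) - 1 - a - 1, true)
    rw [hA0 _ (by simp only; ring), zero_add] at e2
    have e2' : G (a + 1 - 1, -(H : ℤ) - 1 - a - 1) + G (a + 1, -(H : ℤ) - 1 - a - 1) =
        if a + 1 = 0 then 1 else 0 := by
      rw [show (if a + 1 = 0 then (1 : ZMod 2) else 0) =
        if (a + 1, -(H : ℤ) - 1 - a - 1, true).2.2 = true ∧
          (a + 1, -(H : ℤ) - 1 - a - 1, true).1 = 0 ∧
          (a + 1, -(H : ℤ) - 1 - a - 1, true).2.1 < 0 then 1 else 0 from ?_]
      · exact e2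
      · by_cases ha : a + 1 = 0
        · rw [if_pos ha, if_pos ⟨rfl, ha, by simp only; omega⟩]
        · rw [if_neg ha, if_neg (by rintro ⟨_, h2, _⟩; exact ha h2)]
    rw [show a + 1 - 1 = a by ring] at e2'
    rw [show -(H : ℤ) - 1 - (a + 1) = -(H : ℤ) - 1 - a - 1 by ring]
    have z1 := Perc.z2_add_self (G (a, -(H : ℤ) - 1 - a - 1))
    have z2 := Perc.z2_add_self (G (a, -(H : ℤ) - 1 - a))
    linear_combination e2' + e1' - z1 - z2
  -- value 0 on the left
  have hleft : ∀ a : ℤ, a < lo → G (a, -(H : ℤ) - 1 - a) = 0 := by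
    intro a ha
    rw [hG]
    exact pot_zero (fun j => halfS_left hlo' ha)
  have hneg : ∀ k : ℕ, ∀ a : ℤ, a < 0 → a < lo + k → G (a, -(H : ℤ) - 1 - a) = 0 := by
    intro k
    induction k with
    | zero => intro a _ h2; exact hleft a (by simpa using h2)
    | succ k ih =>
      intro a h1 h2
      have h3 := hstep (a - 1)
      rw [show a - 1 + 1 = a by ring, if_neg h1.ne, add_zero] at h3
      rw [h3]
      exact ih (a - 1) (by omega) (by push_cast at h2; omega)
  have hneg' : ∀ a : ℤ, a < 0 → G (a, -(H : ℤ) - 1 - a) = 0 := by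
    intro a ha
    exact hneg (a - lo + 1).toNat a ha (by omega)
  have hpos : ∀ k : ℕ, G ((k : ℤ), -(H : ℤ) - 1 - k) = 1 := by
    intro k
    induction k with
    | zero =>
      have h3 := hstep (-1)
      rw [show (-1 : ℤ) + 1 = 0 by ring, if_pos rfl, hneg' (-1) (by norm_num), zero_add] at h3
      exact h3
    | succ k ih =>
      have h3 := hstep k
      rw [if_neg (by omega), add_zero, ih] at h3
      push_cast
      exact h3
  -- compare with the periodic sum on a column far to the right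
  set N : ℕ := (max hi 0).toNat + 1 with hN
  have hNhi : hi < (N : ℤ) := by
    have := le_max_left hi 0
    have := le_max_right hi 0
    omega
  have h1 : pot (perS n c) H ((N : ℤ), -(H : ℤ) - 1 - N) = 1 := by
    rw [← hpos N, hG]
    exact pot_congr (fun j => (halfS_right hhi' hNhi).symm)
  have hpe := pot_even (A := perS n c) (H := H) (perS_strip hs) (perS_vsum_path hn hc hv)
  have hb := bot_const (G := pot (perS n c) H) H (by
    intro e he
    have h3 := hpe e
    rw [perS_strip hs e (by omega)] at h3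
    exact Perc.z2_add_eq_zero.1 h3)
  rw [hb f hf, ← hb ((N : ℤ), -(H : ℤ) - 1 - N) (by simp only; ring)]
  exact h1

/-- the same for a path from `(m, -m)` to `(m + n, -m - n)` -/
lemma bottom_one {n : ℕ} (hn : 1 ≤ n) {c : Edge → ZMod 2} (hc : {e | c e ≠ 0}.Finite) {H : ℕ}
    (hs : ∀ e, c e ≠ 0 → -(H : ℤ) < e.1 + e.2.1 ∧ e.1 + e.2.1 + 1 < H) (m : ℤ)
    (hv : ∀ V : Vert, vsum c V = (if V = (m, -m) then 1 else 0) +
      (if V = sh n 1 (m, -m) then 1 else 0)) (f : Vert) (hf : f.1 + f.2 + 1 = -(H : ℤ)) :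
    pot (perS n c) H f = 1 := by
  set T : Edge → Edge := fun e => (e.1 + m, e.2.1 - m, e.2.2) with hT
  have hTi : Function.Injective T := by
    rintro ⟨a, b, t⟩ ⟨a', b', t'⟩ h
    simp only [hT, Prod.mk.injEq] at h
    obtain ⟨h1, h2, h3⟩ := h
    ext
    · simp only; linarith
    · simp only; linarith
    · simp only; rw [h3]
  have hc0 : {e | c (T e) ≠ 0}.Finite := Set.Finite.preimage (f := T) (hTi.injOn) hc
  have hs0 : ∀ e, c (T e) ≠ 0 → -(H : ℤ) < e.1 + e.2.1 ∧ e.1 + e.2.1 + 1 < H := by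
    intro e he
    have h1 := hs _ he
    simp only [hT] at h1
    rw [show e.1 + m + (e.2.1 - m) = e.1 + e.2.1 by ring] at h1
    exact h1
  have hv0 : ∀ V : Vert, vsum (fun e => c (T e)) V = (if V = 0 then 1 else 0) +
      (if V = sh n 1 0 then 1 else 0) := by
    intro V
    have e1 : vsum (fun e => c (T e)) V = vsum c (V.1 + m, V.2 - m) := by
      unfold vsum
      simp only [hT]
      rw [show V.1 + m - 1 = V.1 - 1 + m by ring, show V.2 - m - 1 = V.2 - 1 - m by ring]
    rw [e1, hv]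
    have h1 : ((V.1 + m, V.2 - m) : Vert) = (m, -m) ↔ V = 0 := by
      constructor
      · intro h
        have h2 := congrArg Prod.fst h
        have h3 := congrArg Prod.snd h
        simp only at h2 h3
        ext
        · show V.1 = 0; linarith
        · show V.2 = 0; linarith
      · rintro rfl
        ext
        · show (0 : ℤ) + m = m; ring
        · show (0 : ℤ) - m = -m; ring
    have h2 : ((V.1 + m, V.2 - m) : Vert) = sh n 1 (m, -m) ↔ V = sh n 1 0 := by
      unfold sh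
      constructor
      · intro h
        have h2 := congrArg Prod.fst h
        have h3 := congrArg Prod.snd h
        simp only at h2 h3
        ext
        · show V.1 = 0 + n * 1; linarith
        · show V.2 = 0 - n * 1; linarith
      · rintro rfl
        ext
        · show (0 : ℤ) + n * 1 + m = m + n * 1; ring
        · show (0 : ℤ) - n * 1 - m = -m - n * 1; ring
    simp only [h1, h2]
  have h1 := bottom_one0 hn hc0 hs0 hv0 (f.1 - m, f.2 + m) (by simp only; linarith)
  rw [← h1]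
  have hper : ∀ e, perS n (fun e => c (T e)) e = perS n c (T e) := by
    intro e
    unfold perS
    apply finsum_congr
    intro k
    have e1 : T (she n k e) = she n k (T e) := by
      simp only [hT, she]
      ext
      · simp only; ring
      · simp only; ring
      · rfl
    show c (T (she n k e)) = _
    rw [e1]
  unfold pot
  symm
  apply Finset.sum_bij' (fun j _ => j - m) (fun j _ => j + m)
  · intro j hj
    rw [Finset.mem_Ioo] at hj ⊢
    constructor <;> linarith [hj.1, hj.2]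
  · intro j hj
    rw [Finset.mem_Ioo] at hj ⊢
    constructor <;> linarith [hj.1, hj.2]
  · intro j _; ring
  · intro j _; ring
  · intro j _
    rw [hper]
    show perS n c (f.1 - m + m, j - m, false) = perS n c (f.1, j - m, false)
    rw [sub_add_cancel]

/-- a periodic sequence in `ZMod 2` cannot be `0` on the left and `1` on the right -/
lemma no_period {r : ℤ → ZMod 2} {d r0 : ℤ} (hd : d ≠ 0) (h : ∀ m : ℤ, r (r0 + (m + 1) * d) = r (r0 + m * d))
    {A B : ℤ} (h0 : ∀ j, j ≤ A → r j = 0) (h1 : ∀ j, B ≤ j → r j = 1) : False := by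
  have hconst : ∀ m : ℤ, r (r0 + m * d) = r r0 := by
    intro m
    induction m using Int.induction_on with
    | zero => simp
    | succ m ih => rw [h]; exact ih
    | pred m ih =>
      have := h (-m - 1)
      rw [show (-(m : ℤ) - 1 + 1) = -m by ring] at this
      rw [← this]; exact ih
  -- choose `m` with `r0 + m d` very negative and very positive
  have hlow : ∃ m : ℤ, r0 + m * d ≤ A := by
    rcases lt_or_gt_of_ne hd with hd' | hd'
    · refine ⟨|r0| + |A|, ?_⟩
      have h2 : (|r0| + |A|) * d ≤ (|r0| + |A|) * (-1) :=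
        mul_le_mul_of_nonneg_left (by omega) (by positivity)
      have h3 := le_abs_self r0
      have h4 := neg_abs_le A
      linarith
    · refine ⟨-(|r0| + |A|), ?_⟩
      have h2 : (|r0| + |A|) * 1 ≤ (|r0| + |A|) * d :=
        mul_le_mul_of_nonneg_left (by omega) (by positivity)
      have h3 := le_abs_self r0
      have h4 := neg_abs_le A
      linarith
  have hhigh : ∃ m : ℤ, B ≤ r0 + m * d := by
    rcases lt_or_gt_of_ne hd with hd' | hd'
    · refine ⟨-(|r0| + |B|), ?_⟩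
      have h2 : (|r0| + |B|) * d ≤ (|r0| + |B|) * (-1) :=
        mul_le_mul_of_nonneg_left (by omega) (by positivity)
      have h3 := neg_abs_le r0
      have h4 := le_abs_self B
      linarith
    · refine ⟨|r0| + |B|, ?_⟩
      have h2 : (|r0| + |B|) * 1 ≤ (|r0| + |B|) * d :=
        mul_le_mul_of_nonneg_left (by omega) (by positivity)
      have h3 := neg_abs_le r0
      have h4 := le_abs_self B
      linarith
  obtain ⟨m1, hm1⟩ := hlow
  obtain ⟨m2, hm2⟩ := hhigh
  have e1 := hconst m1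
  have e2 := hconst m2
  rw [h0 _ hm1] at e1
  rw [h1 _ hm2, ← e1] at e2
  exact absurd e2 (by decide)

/-- Data of a winding cluster: an open path from `u` to `u + (n, -n)` in the strip. -/
lemma wind_data {n : ℕ} {ω : Config} {H : ℕ} (m : ℤ)
    (h : Perc.Conn (per n ω) (strip H) (m, -m) (sh n 1 (m, -m))) :
    ∃ c : Edge → ZMod 2, {e | c e ≠ 0}.Finite ∧
      (∀ e, c e ≠ 0 → -(H : ℤ) < e.1 + e.2.1 ∧ e.1 + e.2.1 + 1 < H) ∧
      (∀ V : Vert, vsum c V = (if V = (m, -m) then 1 else 0) +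
        (if V = sh n 1 (m, -m) then 1 else 0)) ∧
      (∀ e, per n ω e = false → ∀ k : ℤ, c (she n k e) = 0) ∧
      (∀ e, perS n c e ≠ 0 → Perc.Conn (per n ω) Set.univ (m, -m) (src e) ∧
        Perc.Conn (per n ω) Set.univ (m, -m) (tgt e)) := by
  set η := per n ω with hη
  have hu : Perc.Conn η Set.univ ((m, -m) : Vert) (sh n 1 (m, -m)) := h.mono_set (Set.subset_univ _)
  have hsh : ∀ k : ℤ, Perc.Conn η Set.univ ((m, -m) : Vert) (sh n k (m, -m)) := by
    intro k
    induction k using Int.induction_on with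
    | zero => rw [sh_zero]; exact Perc.Conn.refl trivial
    | succ k ih =>
      have h1 := conn_sh n ω k hu
      rw [sh_sh] at h1
      exact ih.trans h1
    | pred k ih =>
      have h1 := conn_sh n ω (-(k : ℤ) - 1) hu
      rw [sh_sh, show -(k : ℤ) - 1 + 1 = -k by ring] at h1
      exact ih.trans h1.symm
  have h' : Perc.Conn η (strip H ∩ {v | Perc.Conn η Set.univ ((m, -m) : Vert) v}) (m, -m)
      (sh n 1 (m, -m)) := by
    refine h.induction_right (P := fun x => Perc.Conn η (strip H ∩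
      {v | Perc.Conn η Set.univ ((m, -m) : Vert) v}) (m, -m) x)
      (Perc.Conn.refl ⟨h.mem_left, Perc.Conn.refl trivial⟩) ?_
    intro a b _ hab ih
    refine ih.tail ⟨ih.mem_right, ⟨hab.2.1, ?_⟩, hab.2.2⟩
    have h1 : Perc.Conn η Set.univ ((m, -m) : Vert) a := ih.mem_right.2
    exact h1.tail ⟨trivial, trivial, hab.2.2⟩
  obtain ⟨c, hc1, hc2, hc3⟩ := exists_pathSum h'
  refine ⟨c, hc2, ?_, hc3, ?_, ?_⟩
  · intro e he
    obtain ⟨_, h4, h5⟩ := hc1 _ he
    have h6 : -(H : ℤ) < e.1 + e.2.1 := by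
      have := h4.1
      simp only [strip, Set.mem_ofPred_eq, src] at this
      exact this.1
    have h7 : e.1 + e.2.1 + 1 < H := by
      have := h5.1
      simp only [strip, Set.mem_ofPred_eq, tgt] at this
      split_ifs at this <;> simp only at this <;> omega
    exact ⟨h6, h7⟩
  · intro e h1 k
    by_contra h2
    have h3 := (hc1 _ h2).1
    rw [hη, show she n k e = (e.1 + n * k, e.2.1 - n * k, e.2.2) from rfl, per_shift, ← hη,
      h1] at h3
    exact absurd h3 (by decide)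
  · intro e he
    have h1 : ∃ k : ℤ, c (she n k e) ≠ 0 := by
      by_contra h2
      push Not at h2
      exact he (perS_eq_zero h2)
    obtain ⟨k, hk⟩ := h1
    obtain ⟨_, h4, h5⟩ := hc1 _ hk
    have h6 : Perc.Conn η Set.univ ((m, -m) : Vert) (src (she n k e)) := h4.2
    have h7 : Perc.Conn η Set.univ ((m, -m) : Vert) (tgt (she n k e)) := h5.2
    rw [src_she] at h6
    rw [tgt_she] at h7
    have h8 := conn_sh n ω (-k) h6
    have h9 := conn_sh n ω (-k) h7
    rw [sh_sh n (-k) k, show -k + k = 0 by ring, sh_zero] at h8 h9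
    exact ⟨(hsh (-k)).trans h8, (hsh (-k)).trans h9⟩

/-- A potential is constant around a cluster which carries no edge of its edge function. -/
lemma pot_cluster {η : Config} {A : Edge → ZMod 2} {G : Vert → ZMod 2}
    (hpot : ∀ e : Edge, G (lowFace e) + G (src e) = A e) {K : Vert → Prop}
    (hA : ∀ e, A e ≠ 0 → ¬ K (src e) ∧ ¬ K (tgt e)) {V : Vert} (hV : K V) :
    G (V.1, V.2 - 1) = G V ∧ G (V.1 - 1, V.2) = G V ∧
      (∀ e, η e = true → src e = V → K (tgt e) → G (tgt e) = G V) := by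
  have h1 : ∀ e, K (src e) ∨ K (tgt e) → G (lowFace e) = G (src e) := by
    intro e he
    have h2 := hpot e
    have h3 : A e = 0 := by
      by_contra h4
      obtain ⟨h5, h6⟩ := hA e h4
      rcases he with h7 | h7
      · exact h5 h7
      · exact h6 h7
    rw [h3] at h2
    exact Perc.z2_add_eq_zero.1 h2
  refine ⟨h1 (V.1, V.2, false) (Or.inl hV), h1 (V.1, V.2, true) (Or.inl hV), ?_⟩
  rintro ⟨a, b, t⟩ _ hs ht
  rcases t with _ | _
  · -- tgt = (a + 1, b), use the edge (a+1, b, true)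
    have h2 := h1 (a + 1, b, true) (Or.inl ht)
    have h3 : G (a + 1 - 1, b) = G (a + 1, b) := h2
    rw [show a + 1 - 1 = a by ring] at h3
    show G (a + 1, b) = G V
    rw [← h3, ← hs]
    rfl
  · have h2 := h1 (a, b + 1, false) (Or.inl ht)
    have h3 : G (a, b + 1 - 1) = G (a, b + 1) := h2
    rw [show b + 1 - 1 = b by ring] at h3
    show G (a, b + 1) = G V
    rw [← h3, ← hs]
    rfl

lemma pot_cluster_const {η : Config} {A : Edge → ZMod 2} {G : Vert → ZMod 2}
    (hpot : ∀ e : Edge, G (lowFace e) + G (src e) = A e) {u : Vert}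
    (hA : ∀ e, A e ≠ 0 → ¬ Perc.Conn η Set.univ u (src e) ∧ ¬ Perc.Conn η Set.univ u (tgt e))
    {V : Vert} (hV : Perc.Conn η Set.univ u V) : G V = G u := by
  refine hV.induction_right (P := fun x => G x = G u) rfl ?_
  rintro a b ha ⟨_, _, e, he, ho⟩ ih
  have hb : Perc.Conn η Set.univ u b := ha.tail ⟨trivial, trivial, e, he, ho⟩
  rcases he with ⟨h1, h2⟩ | ⟨h1, h2⟩
  · have := (pot_cluster (η := η) hpot (K := fun v => Perc.Conn η Set.univ u v) hA ha).2.2 e ho
      h1.symm (by rw [← h2]; exact hb)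
    rw [← ih, ← this, ← h2]
  · have := (pot_cluster (η := η) hpot (K := fun v => Perc.Conn η Set.univ u v) hA hb).2.2 e ho
      h2.symm (by rw [← h1]; exact ha)
    rw [← ih, ← this, ← h1]

theorem leg_of_wind (hL : L = 2 * n) (hn : 1 ≤ n) {s : Pat L} (hs : IsStar s) {h H : ℕ}
    (he : Even h) (hH : H ≤ h) (ω : Config) (hf : per n ω ∈ Fc2 n H) :
    Leg 2 2 (L - 2) (up s n h ω) (dn s n h ω) := by
  classical
  set η := per n ω with hη
  obtain ⟨hf1, hf2, hf3⟩ := hf
  have hx1 : Perc.Conn η (strip H) ((0 : ℤ), -(0 : ℤ)) (sh n 1 ((0 : ℤ), -(0 : ℤ))) := by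
    have : sh n 1 ((0 : ℤ), -(0 : ℤ)) = ((n : ℤ), -(n : ℤ)) := by
      unfold sh; ext <;> simp
    rw [this]
    exact hf1
  have hy1 : Perc.Conn η (strip H) ((1 : ℤ), -(1 : ℤ)) (sh n 1 ((1 : ℤ), -(1 : ℤ))) := by
    have : sh n 1 ((1 : ℤ), -(1 : ℤ)) = ((n : ℤ) + 1, -(n : ℤ) - 1) := by
      unfold sh; ext
      · simp only; ring
      · simp only; ring
    rw [this]
    exact hf2
  obtain ⟨cx, cxf, cxs, cxv, cxc, cxk⟩ := wind_data 0 hx1
  obtain ⟨cy, cyf, cys, cyv, cyc, cyk⟩ := wind_data 1 hy1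
  have hxx : ((0 : ℤ), -(0 : ℤ)) = xx := rfl
  have hyy : ((1 : ℤ), -(1 : ℤ)) = yy := rfl
  rw [hxx] at cxk
  rw [hyy] at cyk
  -- `H ≥ 2`
  have hH2 : 2 ≤ H := by
    by_contra hlt
    have hne : ∃ e, cx e ≠ 0 := by
      by_contra h0
      push Not at h0
      have h1 := cxv ((0 : ℤ), -(0 : ℤ))
      rw [if_pos rfl, if_neg] at h1
      · unfold vsum at h1
        simp only [h0] at h1
        exact absurd h1 (by decide)
      · intro h2
        have h3 := congrArg Prod.fst h2
        simp only [sh] at h3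
        omega
    obtain ⟨e, he1⟩ := hne
    have := cxs e he1
    omega
  -- full periodic potentials
  set Gx := pot (perS n cx) H with hGx
  set Gy := pot (perS n cy) H with hGy
  have hpx : ∀ e, Gx (lowFace e) + Gx (src e) = perS n cx e :=
    pot_even (perS_strip cxs) (perS_vsum_path hn cxf cxv)
  have hpy : ∀ e, Gy (lowFace e) + Gy (src e) = perS n cy e :=
    pot_even (perS_strip cys) (perS_vsum_path hn cyf cyv)
  have hAy : ∀ e, perS n cy e ≠ 0 → ¬ Perc.Conn η Set.univ xx (src e) ∧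
      ¬ Perc.Conn η Set.univ xx (tgt e) := by
    intro e h1
    obtain ⟨h2, h3⟩ := cyk e h1
    exact ⟨fun h4 => hf3 (h4.trans h2.symm), fun h4 => hf3 (h4.trans h3.symm)⟩
  have hAx : ∀ e, perS n cx e ≠ 0 → ¬ Perc.Conn η Set.univ yy (src e) ∧
      ¬ Perc.Conn η Set.univ yy (tgt e) := by
    intro e h1
    obtain ⟨h2, h3⟩ := cxk e h1
    exact ⟨fun h4 => hf3 (h2.trans h4.symm), fun h4 => hf3 (h3.trans h4.symm)⟩
  -- values at `q`
  have hgx : Gx (0, -1) = Gx yy :=
    (pot_cluster (η := η) hpx (K := fun v => Perc.Conn η Set.univ yy v) hAx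
      (Perc.Conn.refl trivial : Perc.Conn η Set.univ yy yy)).2.1
  have hgy : Gy (0, -1) = Gy xx :=
    (pot_cluster (η := η) hpy (K := fun v => Perc.Conn η Set.univ xx v) hAy
      (Perc.Conn.refl trivial : Perc.Conn η Set.univ xx xx)).1
  have hsum : Gx (0, -1) + Gy (0, -1) = 1 := by
    by_contra hne
    have hgg : Gx yy = Gy xx := by
      rw [hgx, hgy] at hne
      by_contra h2
      exact hne (Perc.z2_add_eq_one.2 h2)
    set g := Gx yy with hg
    have hR : ∀ j : ℤ, (Gx (0, j - 1) = 1 + g ∧ Gy (0, j - 1) = 1 + g) ↔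
        (Gx (0, j) = 1 + g ∧ Gy (0, j) = 1 + g) := by
      intro j
      have e1 : Gx (0, j - 1) + Gx (0, j) = perS n cx (0, j, false) := hpx (0, j, false)
      have e2 : Gy (0, j - 1) + Gy (0, j) = perS n cy (0, j, false) := hpy (0, j, false)
      have hg1 : g ≠ 1 + g := by
        intro h1
        have h2 : (1 : ZMod 2) = 0 := by linear_combination -h1
        exact absurd h2 (by decide)
      -- if the edge is in the x path, then Gy takes the value g on both sides
      have f1 : perS n cx (0, j, false) ≠ 0 → Gy (0, j - 1) = g ∧ Gy (0, j) = g := by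
        intro h1
        have h2 : Perc.Conn η Set.univ xx (0, j) := (cxk _ h1).1
        have h3 := pot_cluster_const hpy hAy h2
        have h4 := (pot_cluster (η := η) hpy (K := fun v => Perc.Conn η Set.univ xx v) hAy h2).1
        rw [h3, ← hgg] at h4
        rw [← hgg] at h3
        exact ⟨h4, h3⟩
      have f2 : perS n cy (0, j, false) ≠ 0 → Gx (0, j - 1) = g ∧ Gx (0, j) = g := by
        intro h1
        have h2 : Perc.Conn η Set.univ yy (0, j) := (cyk _ h1).1
        have h3 := pot_cluster_const hpx hAx h2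
        have h4 := (pot_cluster (η := η) hpx (K := fun v => Perc.Conn η Set.univ yy v) hAx h2).1
        rw [h3] at h4
        exact ⟨h4, h3⟩
      constructor
      · rintro ⟨h1, h2⟩
        have h3 : perS n cx (0, j, false) = 0 := by
          by_contra h4
          exact hg1 ((f1 h4).1.symm.trans h2)
        have h5 : perS n cy (0, j, false) = 0 := by
          by_contra h4
          exact hg1 ((f2 h4).1.symm.trans h1)
        rw [h3] at e1
        rw [h5] at e2
        rw [← Perc.z2_add_eq_zero.1 e1, ← Perc.z2_add_eq_zero.1 e2]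
        exact ⟨h1, h2⟩
      · rintro ⟨h1, h2⟩
        have h3 : perS n cx (0, j, false) = 0 := by
          by_contra h4
          exact hg1 ((f1 h4).2.symm.trans h2)
        have h5 : perS n cy (0, j, false) = 0 := by
          by_contra h4
          exact hg1 ((f2 h4).2.symm.trans h1)
        rw [h3] at e1
        rw [h5] at e2
        rw [Perc.z2_add_eq_zero.1 e1, Perc.z2_add_eq_zero.1 e2]
        exact ⟨h1, h2⟩
    have hRall : ∀ k : ℕ, (Gx (0, -(H : ℤ) - 1) = 1 + g ∧ Gy (0, -(H : ℤ) - 1) = 1 + g) ↔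
        (Gx (0, -(H : ℤ) - 1 + k) = 1 + g ∧ Gy (0, -(H : ℤ) - 1 + k) = 1 + g) := by
      intro k
      induction k with
      | zero => simp
      | succ k ih =>
        rw [ih]
        have := hR (-(H : ℤ) - 1 + (k + 1))
        rw [show -(H : ℤ) - 1 + (k + 1) - 1 = -(H : ℤ) - 1 + k by ring] at this
        push_cast
        exact this
    have hfin := hRall (2 * H + 1)
    have hb1 : Gx (0, -(H : ℤ) - 1) = 1 := bottom_one hn cxf cxs 0 cxv _ (by simp only; ring)
    have hb2 : Gy (0, -(H : ℤ) - 1) = 1 := bottom_one hn cyf cys 1 cyv _ (by simp only; ring)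
    have ht1 : Gx (0, -(H : ℤ) - 1 + ((2 * H + 1 : ℕ) : ℤ)) = 0 := by
      rw [hGx]
      apply pot_top
      simp only
      push_cast
      linarith
    have ht2 : Gy (0, -(H : ℤ) - 1 + ((2 * H + 1 : ℕ) : ℤ)) = 0 := by
      rw [hGy]
      apply pot_top
      simp only
      push_cast
      linarith
    rw [hb1, hb2, ht1, ht2] at hfin
    rcases (show g = 0 ∨ g = 1 by
      by_cases h0 : g = 0
      · exact Or.inl h0
      · exact Or.inr (Perc.z2_one_of_ne h0)) with h0 | h0
    · rw [h0] at hfin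
      exact absurd (hfin.1 ⟨by decide, by decide⟩).1 (by decide)
    · rw [h0] at hfin
      exact absurd (hfin.2 ⟨by decide, by decide⟩).1 (by decide)
  -- the half infinite path and its potential
  set g1 : Edge := (0, 0, false) with hg1
  set g2 : Edge := (1, -1, true) with hg2
  set A : Edge → ZMod 2 := fun e => ((halfS n cx e + halfS n cy e) + Perc.one g1 e) +
    Perc.one g2 e with hA
  have hAv : ∀ V, vsum A V = 0 := by
    intro V
    rw [hA, Perc.vsum_add, Perc.vsum_add, Perc.vsum_add, halfS_vsum_path hn cxf cxv,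
      halfS_vsum_path hn cyf cyv, Perc.vsum_one, Perc.vsum_one]
    have e1 : src g1 = ((0 : ℤ), -(0 : ℤ)) := rfl
    have e2 : tgt g1 = ((1 : ℤ), (0 : ℤ)) := rfl
    have e3 : src g2 = ((1 : ℤ), -(1 : ℤ)) := rfl
    have e4 : tgt g2 = ((1 : ℤ), (0 : ℤ)) := rfl
    rw [e1, e2, e3, e4]
    have z1 := Perc.z2_add_self (if V = ((0 : ℤ), -(0 : ℤ)) then (1 : ZMod 2) else 0)
    have z2 := Perc.z2_add_self (if V = ((1 : ℤ), (0 : ℤ)) then (1 : ZMod 2) else 0)
    have z3 := Perc.z2_add_self (if V = ((1 : ℤ), -(1 : ℤ)) then (1 : ZMod 2) else 0)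
    linear_combination z1 + z2 + z3
  have hAstrip : ∀ e : Edge, ¬ (-(H : ℤ) < e.1 + e.2.1 ∧ e.1 + e.2.1 + 1 < H) → A e = 0 := by
    intro e h1
    rw [hA]
    simp only
    rw [halfS_strip cxs e h1, halfS_strip cys e h1]
    have h2 : Perc.one g1 e = 0 := by
      unfold Perc.one
      rw [if_neg]
      rintro rfl
      rw [hg1] at h1
      simp only at h1
      omega
    have h3 : Perc.one g2 e = 0 := by
      unfold Perc.one
      rw [if_neg]
      rintro rfl
      rw [hg2] at h1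
      simp only at h1
      omega
    rw [h2, h3]
    simp
  have hAclosed : ∀ e, η e = false → A e = Perc.one g1 e + Perc.one g2 e := by
    intro e h1
    rw [hA]
    simp only
    rw [halfS_eq_zero (fun k => cxc e h1 _), halfS_eq_zero (fun k => cyc e h1 _)]
    ring
  have hpA := pot_even hAstrip hAv
  set P := pot A H with hP
  set Pu : Vert → ZMod 2 := fun f => P f + if f = (0, -1) then 1 else 0 with hPu
  have hu : ∀ e : Edge, 0 ≤ e.1 + e.2.1 → η e = false → Pu (lowFace e) = Pu (src e) := by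
    intro e h1 h2
    have h3 := hpA e
    rw [hAclosed e h2] at h3
    have hsrc : src e ≠ (0, -1) := by
      intro h4
      have h5 : e.1 = 0 := congrArg Prod.fst h4
      have h6 : e.2.1 = -1 := congrArg Prod.snd h4
      omega
    have hlow : (Perc.one g1 e + Perc.one g2 e : ZMod 2) = if lowFace e = (0, -1) then 1 else 0 := by
      obtain ⟨a, b, t⟩ := e
      rcases t with _ | _
      · have h4 : lowFace (a, b, false) = (a, b - 1) := rfl
        have h5 : Perc.one g2 (a, b, false) = 0 := by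
          unfold Perc.one
          rw [if_neg]
          intro h6
          have h7 : false = true := congrArg (fun x : Edge => x.2.2) h6
          exact absurd h7 (by decide)
        rw [h4, h5, add_zero]
        unfold Perc.one
        by_cases h6 : (a, b, false) = g1
        · have h7 : a = 0 := congrArg Prod.fst h6
          have h8 : b = 0 := congrArg (fun x : Edge => x.2.1) h6
          rw [if_pos h6, if_pos (by rw [h7, h8]; rfl)]
        · rw [if_neg h6, if_neg]
          intro h7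
          apply h6
          have h8 : a = 0 := congrArg Prod.fst h7
          have h9 : b - 1 = -1 := congrArg Prod.snd h7
          have h10 : b = 0 := by omega
          rw [h8, h10]
      · have h4 : lowFace (a, b, true) = (a - 1, b) := rfl
        have h5 : Perc.one g1 (a, b, true) = 0 := by
          unfold Perc.one
          rw [if_neg]
          intro h6
          have h7 : true = false := congrArg (fun x : Edge => x.2.2) h6
          exact absurd h7 (by decide)
        rw [h4, h5, zero_add]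
        unfold Perc.one
        by_cases h6 : (a, b, true) = g2
        · have h7 : a = 1 := congrArg Prod.fst h6
          have h8 : b = -1 := congrArg (fun x : Edge => x.2.1) h6
          rw [if_pos h6, if_pos (by rw [h7, h8]; rfl)]
        · rw [if_neg h6, if_neg]
          intro h7
          apply h6
          have h8 : a - 1 = 0 := congrArg Prod.fst h7
          have h9 : b = -1 := congrArg Prod.snd h7
          have h10 : a = 1 := by omega
          rw [h9, h10]
    rw [hPu]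
    simp only
    rw [if_neg hsrc, add_zero]
    rw [hlow] at h3
    by_cases hq : lowFace e = (0, -1)
    · rw [if_pos hq] at h3 ⊢
      have z1 := Perc.z2_add_self (1 : ZMod 2)
      have z2 := Perc.z2_add_self (P (src e))
      linear_combination h3 + z1 - z2
    · rw [if_neg hq] at h3 ⊢
      rw [add_zero]
      exact Perc.z2_add_eq_zero.1 h3
  have hd : ∀ e : Edge, e.1 + e.2.1 < 0 → η e = false → P (lowFace e) = P (src e) := by
    intro e h1 h2
    have h3 := hpA e
    rw [hAclosed e h2] at h3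
    have h4 : Perc.one g1 e = 0 := by
      unfold Perc.one
      rw [if_neg]
      rintro rfl
      rw [hg1] at h1
      simp only at h1
      omega
    have h5 : Perc.one g2 e = 0 := by
      unfold Perc.one
      rw [if_neg]
      rintro rfl
      rw [hg2] at h1
      simp only at h1
      omega
    rw [h4, h5, add_zero] at h3
    exact Perc.z2_add_eq_zero.1 h3
  have hupD := up_dual hL hs he ω (G := Pu) (fun e h1 _ h2 => hu e h1 h2) 0 (by
    intro f hf4
    rw [hPu]
    simp only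
    rw [hP, pot_top A H (by omega), if_neg, add_zero]
    intro h4
    have h5 : f.1 = 0 := congrArg Prod.fst h4
    have h6 : f.2 = -1 := congrArg Prod.snd h4
    omega)
  have hdnD := dn_dual hL hs he ω (G := P) (fun e _ h1 h2 => hd e h1 h2) (P (0, -(h : ℤ) - 1))
    (bot_const h (by
      intro e h1
      have h3 := hpA e
      rw [hAstrip e (by omega)] at h3
      exact Perc.z2_add_eq_zero.1 h3))
  -- primal colours
  set F : Vert → Set Vert := fun v => {u | Perc.Conn η Set.univ v u} with hF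
  have hFc : ∀ e : Edge, η e = true → F (src e) = F (tgt e) := by
    intro e ho
    have hst : Perc.Conn η Set.univ (src e) (tgt e) :=
      Perc.Step.conn ⟨trivial, trivial, e, Perc.joins_src_tgt e, ho⟩
    ext u
    exact ⟨fun h1 => hst.symm.trans h1, fun h1 => hst.trans h1⟩
  have hupP := up_primal hL hs he ω (F := F) (fun e _ _ ho => hFc e ho)
  have hdnP := dn_primal hL hs he ω (F := F) (fun e _ _ ho => hFc e ho)
  have hFeq : ∀ v w, F v = F w → Perc.Conn η Set.univ v w := by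
    intro v w hvw
    have : w ∈ F w := Perc.Conn.refl trivial
    rw [← hvw] at this
    exact this
  -- colours of the nodes, translated by `k` periods
  set col : ℤ → ℤ ⊕ ℤ → ZMod 2 := fun k => Sum.elim (fun x => Pu (dv (x - L * k)))
    (fun y => P (dv (y - L * k))) with hcol
  set prim : ℤ ⊕ ℤ → Set Vert := Sum.elim (fun x => F (pv x)) (fun y => F (pv y)) with hprim
  have hshiftm : ∀ (Q : Pat L) (x k : ℤ), Q.m x - L * k = Q.m (x - L * k) := by
    intro Q x k
    have := Q.per_mul (x - L * k) k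
    rw [sub_add_cancel] at this
    linarith
  have hcolS : ∀ k x y, Step 2 2 (L - 2) (up s n h ω) (dn s n h ω) x y → col k x = col k y := by
    intro k x y hxy1
    cases hxy1 with
    | top x =>
      show Pu (dv (x - L * k)) = Pu (dv ((up s n h ω).m x - L * k))
      rw [hshiftm]
      exact (hupD _).symm
    | bot y =>
      show P (dv (y - L * k)) = P (dv ((dn s n h ω).m y - L * k))
      rw [hshiftm]
      exact (hdnD _).symm
    | glue a j hj =>
      show Pu (dv _) = P (dv _)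
      rw [hPu]
      simp only
      rw [if_neg, add_zero]
      intro hk
      have h4 : (((2 : ℕ) : ℤ) + j + L * a - L * k) / 2 = 0 := congrArg Prod.fst hk
      have h5 : (((2 : ℕ) : ℤ) + j + L * a - L * k) / 2 = 1 + (j : ℤ) / 2 + n * (a - k) := by
        subst hL
        have : ((2 : ℕ) : ℤ) + j + ((2 * n : ℕ) : ℤ) * a - ((2 * n : ℕ) : ℤ) * k =
            (j : ℤ) + (1 + n * (a - k)) * 2 := by
          push_cast; ring
        rw [this, Int.add_mul_ediv_right _ _ (by norm_num)]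
        ring
      have h6 : 1 + (j : ℤ) / 2 = n * (k - a) := by linarith
      have h7 : (0 : ℤ) < 1 + (j : ℤ) / 2 := by omega
      have h8 : 1 + (j : ℤ) / 2 < n := by omega
      have h9 : 0 < k - a := by
        by_contra hlt
        have : (n : ℤ) * (k - a) ≤ n * 0 := mul_le_mul_of_nonneg_left (by omega) (by omega)
        omega
      have h10 : (n : ℤ) * 1 ≤ n * (k - a) := mul_le_mul_of_nonneg_left (by omega) (by omega)
      omega
  have hprimS : ∀ x y, Step 2 2 (L - 2) (up s n h ω) (dn s n h ω) x y → prim x = prim y := by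
    intro x y hxy1
    cases hxy1 with
    | top x => exact (hupP x).symm
    | bot y => exact (hdnP y).symm
    | glue a j hj => rfl
  -- the sequence `p`
  set p : ℤ → ZMod 2 := fun a => P (sh n a (0, -1)) with hp
  have hdvh : ∀ (t : Fin 2) (a k : ℤ), dv ((t : ℕ) + L * a - L * k) = sh n (a - k) (0, -1) := by
    intro t a k
    have ht := t.isLt
    have h1 : (((t : ℕ) : ℤ) + L * a - L * k) / 2 = n * (a - k) := by
      subst hL
      have : ((t : ℕ) : ℤ) + ((2 * n : ℕ) : ℤ) * a - ((2 * n : ℕ) : ℤ) * k =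
          ((t : ℕ) : ℤ) + (n * (a - k)) * 2 := by
        push_cast; ring
      rw [this, Int.add_mul_ediv_right _ _ (by norm_num)]
      omega
    unfold dv sh
    rw [h1]
    ext <;> simp only <;> ring
  have hshq : ∀ a : ℤ, sh n a ((0 : ℤ), (-1 : ℤ)) = (0, -1) ↔ a = 0 := by
    intro a
    constructor
    · intro h1
      have h2 : (fun k : ℤ => sh n k ((0 : ℤ), (-1 : ℤ))) a =
          (fun k : ℤ => sh n k ((0 : ℤ), (-1 : ℤ))) 0 := by
        simp only [sh_zero]; exact h1
      exact sh_inj hn _ h2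
    · rintro rfl
      exact sh_zero _ _
  have hcolt : ∀ (t : Fin 2) (a k : ℤ), col k (Sum.inl ((t : ℕ) + L * a)) =
      p (a - k) + if a - k = 0 then 1 else 0 := by
    intro t a k
    show Pu (dv _) = _
    rw [hdvh, hPu]
    simp only [hshq, hp]
  have hcolb : ∀ (t : Fin 2) (a k : ℤ), col k (Sum.inr ((t : ℕ) + L * a)) = p (a - k) := by
    intro t a k
    show P (dv _) = _
    rw [hdvh]
  -- the limits of `p`
  have hbound : ∃ A0 B0 : ℤ, A0 < 0 ∧ 0 < B0 ∧ (∀ j, j ≤ A0 → p j = 0) ∧ ∀ j, B0 ≤ j → p j = 1 := by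
    obtain ⟨hix, hhix⟩ := (cxf.image Prod.fst).bddAbove
    obtain ⟨lox, hlox⟩ := (cxf.image Prod.fst).bddBelow
    obtain ⟨hiy, hhiy⟩ := (cyf.image Prod.fst).bddAbove
    obtain ⟨loy, hloy⟩ := (cyf.image Prod.fst).bddBelow
    have bx1 : ∀ e, cx e ≠ 0 → e.1 ≤ hix := fun e he => hhix ⟨e, he, rfl⟩
    have bx2 : ∀ e, cx e ≠ 0 → lox ≤ e.1 := fun e he => hlox ⟨e, he, rfl⟩
    have by1 : ∀ e, cy e ≠ 0 → e.1 ≤ hiy := fun e he => hhiy ⟨e, he, rfl⟩
    have by2 : ∀ e, cy e ≠ 0 → loy ≤ e.1 := fun e he => hloy ⟨e, he, rfl⟩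
    refine ⟨-(|lox| + |loy| + 1), |hix| + |hiy| + 2, ?_, ?_, ?_, ?_⟩
    · have := abs_nonneg lox
      have := abs_nonneg loy
      linarith
    · have := abs_nonneg hix
      have := abs_nonneg hiy
      linarith
    · intro j hj
      have h1 : (n : ℤ) * j ≤ j := by
        have h2 : (n : ℤ) * (-j) ≥ 1 * (-j) := by
          apply mul_le_mul_of_nonneg_right (by omega)
          have := abs_nonneg lox
          have := abs_nonneg loy
          linarith
        linarith
      have hl1 := neg_abs_le lox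
      have hl2 := neg_abs_le loy
      have h3 := abs_nonneg lox
      have h4 := abs_nonneg loy
      rw [hp]
      simp only
      rw [hP]
      apply pot_zero
      intro i
      have h5 : (sh n j ((0 : ℤ), (-1 : ℤ))).1 = n * j := by simp [sh]
      rw [h5, hA]
      simp only
      rw [halfS_left bx2 (by simp only; linarith), halfS_left by2 (by simp only; linarith)]
      have h6 : Perc.one g1 ((n : ℤ) * j, i, false) = 0 := by
        unfold Perc.one
        rw [if_neg]
        intro h7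
        have h8 : (n : ℤ) * j = 0 := congrArg Prod.fst h7
        linarith
      have h7 : Perc.one g2 ((n : ℤ) * j, i, false) = 0 := by
        unfold Perc.one
        rw [if_neg]
        intro h7
        have h8 : false = true := congrArg (fun x : Edge => x.2.2) h7
        exact absurd h8 (by decide)
      rw [h6, h7]
      simp
    · intro j hj
      have h1 : j ≤ (n : ℤ) * j := by
        have h2 : (n : ℤ) * j ≥ 1 * j := by
          apply mul_le_mul_of_nonneg_right (by omega)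
          have := abs_nonneg hix
          have := abs_nonneg hiy
          linarith
        linarith
      have hl1 := le_abs_self hix
      have hl2 := le_abs_self hiy
      have h3 := abs_nonneg hix
      have h4 := abs_nonneg hiy
      have h5 : (sh n j ((0 : ℤ), (-1 : ℤ))).1 = n * j := by simp [sh]
      have h8 : P (sh n j (0, -1)) = Gx (sh n j (0, -1)) + Gy (sh n j (0, -1)) := by
        rw [hP, hGx, hGy, ← pot_add]
        apply pot_congr
        intro i
        rw [h5, hA]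
        simp only
        rw [halfS_right bx1 (by simp only; linarith), halfS_right by1 (by simp only; linarith)]
        have h6 : Perc.one g1 ((n : ℤ) * j, i, false) = 0 := by
          unfold Perc.one
          rw [if_neg]
          intro h7
          have h8 : (n : ℤ) * j = 0 := congrArg Prod.fst h7
          linarith
        have h7 : Perc.one g2 ((n : ℤ) * j, i, false) = 0 := by
          unfold Perc.one
          rw [if_neg]
          intro h7
          have h8 : false = true := congrArg (fun x : Edge => x.2.2) h7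
          exact absurd h8 (by decide)
        rw [h6, h7]
        simp
      rw [hp]
      simp only
      rw [h8, hGx, hGy, pot_sh (fun e k => perS_per n cx k e), pot_sh (fun e k => perS_per n cy k e)]
      exact hsum
  obtain ⟨A0, B0, hA0, hB0, hp0, hp1⟩ := hbound
  -- primal separation of the two strands
  have hpv0 : ∀ a : ℤ, pv (((0 : Fin 2) : ℕ) + L * a) = sh n a xx := by
    intro a
    have h1 : ((((0 : Fin 2) : ℕ) : ℤ) + L * a + 1) / 2 = n * a := by
      subst hL
      have : (((0 : Fin 2) : ℕ) : ℤ) + ((2 * n : ℕ) : ℤ) * a + 1 = 1 + (n * a) * 2 := by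
        push_cast; simp; ring
      rw [this, Int.add_mul_ediv_right _ _ (by norm_num)]
      norm_num
    unfold pv sh xx
    rw [h1]
    ext <;> simp only <;> ring
  have hpv1 : ∀ a : ℤ, pv (((1 : Fin 2) : ℕ) + L * a) = sh n a yy := by
    intro a
    have h1 : ((((1 : Fin 2) : ℕ) : ℤ) + L * a + 1) / 2 = 1 + n * a := by
      subst hL
      have : (((1 : Fin 2) : ℕ) : ℤ) + ((2 * n : ℕ) : ℤ) * a + 1 = 0 + (1 + n * a) * 2 := by
        push_cast; simp; ring
      rw [this, Int.add_mul_ediv_right _ _ (by norm_num)]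
      norm_num
    unfold pv sh yy
    rw [h1]
    ext <;> simp only
    ring
  have hxsh : ∀ k : ℤ, Perc.Conn η Set.univ xx (sh n k xx) := by
    have hu1 : Perc.Conn η Set.univ xx (sh n 1 xx) := hx1.mono_set (Set.subset_univ _)
    intro k
    induction k using Int.induction_on with
    | zero => rw [sh_zero]; exact Perc.Conn.refl trivial
    | succ k ih =>
      have h1 := conn_sh n ω k hu1
      rw [sh_sh] at h1
      exact ih.trans h1
    | pred k ih =>
      have h1 := conn_sh n ω (-(k : ℤ) - 1) hu1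
      rw [sh_sh, show -(k : ℤ) - 1 + 1 = -k by ring] at h1
      exact ih.trans h1.symm
  have hysh : ∀ k : ℤ, Perc.Conn η Set.univ yy (sh n k yy) := by
    have hu1 : Perc.Conn η Set.univ yy (sh n 1 yy) := hy1.mono_set (Set.subset_univ _)
    intro k
    induction k using Int.induction_on with
    | zero => rw [sh_zero]; exact Perc.Conn.refl trivial
    | succ k ih =>
      have h1 := conn_sh n ω k hu1
      rw [sh_sh] at h1
      exact ih.trans h1
    | pred k ih =>
      have h1 := conn_sh n ω (-(k : ℤ) - 1) hu1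
      rw [sh_sh, show -(k : ℤ) - 1 + 1 = -k by ring] at h1
      exact ih.trans h1.symm
  have hsep : ∀ (t t' : Fin 2) (a b : ℤ), F (pv ((t : ℕ) + L * a)) = F (pv ((t' : ℕ) + L * b)) →
      t = t' := by
    intro t t' a b hFF
    have h1 := hFeq _ _ hFF
    rcases (by fin_cases t <;> simp : t = 0 ∨ t = 1) with rfl | rfl <;>
    rcases (by fin_cases t' <;> simp : t' = 0 ∨ t' = 1) with rfl | rfl
    · rfl
    · exfalso
      rw [hpv0, hpv1] at h1
      exact hf3 (((hxsh a).trans h1).trans (hysh b).symm)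
    · exfalso
      rw [hpv0, hpv1] at h1
      exact hf3 (((hxsh b).trans h1.symm).trans (hysh a).symm)
    · rfl
  -- invariance of the colours under a connection
  intro u v a b hconn
  have hcc : ∀ k : ℤ, col k (hpos L L 2 2 u a) = col k (hpos L L 2 2 v b) :=
    fun k => comp_const (hcolS k) hconn
  have hpp := comp_const hprimS hconn
  by_cases hab : a = b
  · -- same sheet
    subst hab
    rcases u with t | t <;> rcases v with t' | t'
    · left; exact ⟨by rw [hsep t t' a a hpp], rfl⟩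
    · exfalso
      have h1 := hcc a
      have e1 : col a (hpos L L 2 2 (Sum.inl t) a) = p (a - a) + if a - a = 0 then 1 else 0 :=
        hcolt t a a
      have e2 : col a (hpos L L 2 2 (Sum.inr t') a) = p (a - a) := hcolb t' a a
      rw [e1, e2, if_pos (sub_self a)] at h1
      have h2 : (1 : ZMod 2) = 0 := by linear_combination h1
      exact absurd h2 (by decide)
    · exfalso
      have h1 := hcc a
      have e1 : col a (hpos L L 2 2 (Sum.inl t') a) = p (a - a) + if a - a = 0 then 1 else 0 :=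
        hcolt t' a a
      have e2 : col a (hpos L L 2 2 (Sum.inr t) a) = p (a - a) := hcolb t a a
      rw [e1, e2, if_pos (sub_self a)] at h1
      have h2 : (1 : ZMod 2) = 0 := by linear_combination -h1
      exact absurd h2 (by decide)
    · left; exact ⟨by rw [hsep t t' a a hpp], rfl⟩
  · have hd0 : b - a ≠ 0 := fun h1 => hab (by linarith)
    -- relation between top and bottom
    have hkeyodd : ∀ d : ℤ, d ≠ 0 → (∀ j : ℤ, p j + (if j = 0 then 1 else 0) = p (j + d)) →
        Odd d := by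
      intro d hd1 hrel
      by_contra hodd
      have habs : ∀ m : ℤ, 1 + m * d ≠ 0 := by
        intro m h1
        apply hodd
        have h2 : d * (-m) = 1 := by linarith
        have h3 : d ∣ 1 := ⟨-m, h2.symm⟩
        rcases Int.isUnit_iff.1 (isUnit_of_dvd_one h3) with h4 | h4
        · rw [h4]; exact ⟨0, by norm_num⟩
        · rw [h4]; exact ⟨-1, by norm_num⟩
      apply no_period (r := p) (r0 := 1) hd1 _ hp0 hp1
      intro m
      have h1 := hrel (1 + m * d)
      rw [if_neg (habs m), add_zero] at h1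
      rw [h1]
      congr 1
      ring
    rcases u with t | t <;> rcases v with t' | t'
    · exfalso
      have hrel : ∀ j : ℤ, p j + (if j = 0 then 1 else 0) =
          p (j + (b - a)) + if j + (b - a) = 0 then 1 else 0 := by
        intro j
        have h1 := hcc (a - j)
        have e1 : col (a - j) (hpos L L 2 2 (Sum.inl t) a) =
            p (a - (a - j)) + if a - (a - j) = 0 then 1 else 0 := hcolt t a (a - j)
        have e2 : col (a - j) (hpos L L 2 2 (Sum.inl t') b) =
            p (b - (a - j)) + if b - (a - j) = 0 then 1 else 0 := hcolt t' b (a - j)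
        rw [e1, e2, show a - (a - j) = j by ring, show b - (a - j) = j + (b - a) by ring] at h1
        exact h1
      apply no_period (r := fun j => p j + if j = 0 then 1 else 0) (r0 := 0) hd0
        (A := A0) (B := B0)
      · intro m
        have h1 := hrel (0 + m * (b - a))
        rw [show 0 + (m + 1) * (b - a) = 0 + m * (b - a) + (b - a) by ring]
        exact h1.symm
      · intro j hj
        rw [hp0 j hj, if_neg (by omega), add_zero]
      · intro j hj
        rw [hp1 j hj, if_neg (by omega), add_zero]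
    · right
      apply hkeyodd _ hd0
      intro j
      have h1 := hcc (a - j)
      have e1 : col (a - j) (hpos L L 2 2 (Sum.inl t) a) =
          p (a - (a - j)) + if a - (a - j) = 0 then 1 else 0 := hcolt t a (a - j)
      have e2 : col (a - j) (hpos L L 2 2 (Sum.inr t') b) = p (b - (a - j)) :=
        hcolb t' b (a - j)
      rw [e1, e2, show a - (a - j) = j by ring, show b - (a - j) = j + (b - a) by ring] at h1
      exact h1
    · right
      have h0 : Odd (a - b) := by
        apply hkeyodd _ (fun h1 => hab (by linarith))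
        intro j
        have h1 := hcc (b - j)
        have e1 : col (b - j) (hpos L L 2 2 (Sum.inl t') b) =
            p (b - (b - j)) + if b - (b - j) = 0 then 1 else 0 := hcolt t' b (b - j)
        have e2 : col (b - j) (hpos L L 2 2 (Sum.inr t) a) = p (a - (b - j)) :=
          hcolb t a (b - j)
        rw [e1, e2, show b - (b - j) = j by ring, show a - (b - j) = j + (a - b) by ring] at h1
        exact h1.symm
      have h2 : b - a = -(a - b) := by ring
      rw [h2]
      exact h0.neg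
    · exfalso
      apply no_period (r := p) (r0 := 0) hd0 _ hp0 hp1
      intro m
      have h1 := hcc (a - (0 + m * (b - a)))
      have e1 : col (a - (0 + m * (b - a))) (hpos L L 2 2 (Sum.inr t) a) =
          p (a - (a - (0 + m * (b - a)))) := hcolb t a _
      have e2 : col (a - (0 + m * (b - a))) (hpos L L 2 2 (Sum.inr t') b) =
          p (b - (a - (0 + m * (b - a)))) := hcolb t' b _
      rw [e1, e2, show a - (a - (0 + m * (b - a))) = 0 + m * (b - a) by ring,
        show b - (a - (0 + m * (b - a))) = 0 + (m + 1) * (b - a) by ring] at h1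
      exact h1.symm

theorem leg_of_fc2 (hL : L = 2 * n) (hn : 2 ≤ n) {s : Pat L} (hs : IsStar s) {h H : ℕ}
    (he : Even h) (hH : H ≤ h) (ω : Config) (hf : per n ω ∈ Fc2 n H) :
    Leg 2 2 (L - 2) (up s n h ω) (dn s n h ω) :=
  leg_of_wind hL (by omega) hs he hH ω hf

/-- The limit of real numbers in `ℂ` is real. -/
private lemma real_limit' {a : ℕ → ℝ} {z : ℂ} (h : Tendsto (fun n => (a n : ℂ)) atTop (𝓝 z)) :
    ∃ g : ℝ, (g : ℂ) = z ∧ Tendsto a atTop (𝓝 g) := by
  have h1 : Tendsto a atTop (𝓝 z.re) := by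
    have := (Complex.continuous_re.tendsto z).comp h
    simpa [Function.comp_def] using this
  have h2 : Tendsto (fun n => (a n : ℂ)) atTop (𝓝 (z.re : ℂ)) :=
    (Complex.continuous_ofReal.tendsto z.re).comp h1
  exact ⟨z.re, tendsto_nhds_unique h2 h, h1⟩

private lemma pr_mono' {A B : Set Config} (h : A ⊆ B) : Pr half A ≤ Pr half B :=
  measureReal_mono h

open Classical in
/-- **Four arms**, with both lower bounds. -/
theorem link_four2 (hL : L = 2 * n) (hn : 2 ≤ n) {v : Pat L → ℂ} (hv : Stat v) (hS : ∑ P, v P ≠ 0) :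
    ∃ g : ℝ, (g : ℂ) = legSum 2 2 (L - 2) v v / (∑ P, v P) ^ 2 ∧
      (∀ k : ℕ, 1 ≤ k → 2 * k < n → k + 2 < n → g ≤ Pr half (FourD k)) ∧
      (∀ H : ℕ, Pr half {ω | per n ω ∈ Fc n H} ≤ g) ∧
      ∀ H : ℕ, Pr half {ω | per n ω ∈ Fc2 n H} ≤ g := by
  obtain ⟨s, hs⟩ := exists_star hL (by omega : 1 ≤ n)
  have hT := pr_tendsto hL (by omega : 1 ≤ n) hs hv hS
    {PQ : Pat L × Pat L | Leg 2 2 (L - 2) PQ.1 PQ.2}
  obtain ⟨g, hg, ht⟩ := real_limit' hT
  refine ⟨g, ?_, ?_, ?_, ?_⟩
  · rw [hg]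
    rfl
  · intro k hk1 hk2 hk3
    refine le_of_tendsto ht ?_
    filter_upwards [eventually_ge_atTop (2 * k + 2)] with h hh
    rw [← pr_per_fourD half hk2]
    refine pr_mono' fun ω hω => ?_
    exact fourD_of_leg hL hs (even_two_mul h) hk1 hk3 (by omega) ω hω
  · intro H
    refine ge_of_tendsto ht ?_
    filter_upwards [eventually_ge_atTop H] with h hh
    refine pr_mono' fun ω hω => ?_
    exact leg_of_fc hL hn hs (even_two_mul h) (by omega) ω hω
  · intro H
    refine ge_of_tendsto ht ?_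
    filter_upwards [eventually_ge_atTop H] with h hh
    refine pr_mono' fun ω hω => ?_
    exact leg_of_fc2 hL hn hs (even_two_mul h) (by omega) ω hω

end Pool.Agent.H89.Link

end

section

/-!
# LINK module `CylArm`: an arm of the plane can be completed to a winding path on the cylinder

`n = 16 m`, `η = per n ω`.  Events for `η`, all increasing and local:
* `A = Arm 0 (2 m)`;
* `T` = `HCross η (-2m) (2m) m (2m)`, `B` = `HCross η (-2m) (2m) (-2m) (-m)`, `Le` = `VCross η (-2m) (-m) (-2m) (2m)`,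
  `Ri` = `VCross η m (2m) (-2m) (2m)` (four `4 : 1` rectangles around `ball 0 m`);
* `R1` = `HCross η (-2m) (18m) (-m) m`, `R2` = `VCross η (15m) (17m) (-18m) (2m)`.
Determinism.  An open path from `0` to `sphere 0 (2m)` in `ball 0 (2m)` ends on one of the four sides; by `hv_meet` (or
`Conn.cross_x/cross_y` + `cross`) it meets the crossing of the corresponding rectangle.  The four crossings meet pairwise
in the corners (`hv_meet`), `Le` meets `R1`, `R1` meets `R2`.  `R2` meets the translate by `(n, -n)` of `B`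
(`HCross η (14m) (18m) (-18m) (-17m)`), which exists because `η` has period `(n, -n)` (`conn_sh` in `Link/Fc.lean`); the
translate of the whole picture joins it to `(n, -n)`.  Everything is in `strip (64 m)`.
Probability.  `Pr half {ω | per n ω ∈ E} = Pr half E` for each of the seven events (`pr_per`: `base n` is injective on
`eRect a b c d` if `b - a < n` or `d - c < n`, because `base n e = base n e'` forces
`e' = (e.1 + n k, e.2.1 - n k, e.2.2)`).  `ω ↦ per n ω` is monotone and local, so FKG (`Perc.fkg`) holds for these events;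
`rsw` and `long_rsw` bound the crossing probabilities from below (translate, reflect: `Pr_hcross_translate`,
`Pr_vcross_eq_hcross`); the `20m x 2m` rectangles have aspect ratio 10.
-/

set_option autoImplicit false

open MeasureTheory ProbabilityTheory

namespace Pool.Agent.H89.Link

open Pool.Agent.H89.Perc (Vert Edge Config Pr half)

theorem cylArm_localOn_per (n : ℕ) {s : Finset Edge} {A : Set Config} (hA : Perc.LocalOn s A) :
    Perc.LocalOn (s.image (base n)) {ω | per n ω ∈ A} := by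
  intro ω ω' h hA'
  refine hA _ _ (fun e he => ?_) hA'
  rw [per_eq, per_eq]
  exact h _ (Finset.mem_image_of_mem _ he)

theorem cylArm_incr_per (n : ℕ) {A : Set Config} (iA : Perc.Incr A) :
    Perc.Incr {ω | per n ω ∈ A} := by
  intro ω ω' h hA'
  exact iA _ _ (fun e he => h _ he) hA'

/-- FKG on the cylinder. -/
theorem fkg_per (p : unitInterval) (n : ℕ) {s t : Finset Edge} {A B : Set Config}
    (hA : Perc.LocalOn s A) (hB : Perc.LocalOn t B) (iA : Perc.Incr A) (iB : Perc.Incr B) :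
    Pr p {ω | per n ω ∈ A} * Pr p {ω | per n ω ∈ B} ≤ Pr p {ω | per n ω ∈ A ∩ B} := by
  have h := Perc.fkg (p := p) (cylArm_localOn_per n hA) (cylArm_localOn_per n hB)
    (cylArm_incr_per n iA) (cylArm_incr_per n iB)
  exact h

/-- `base n` is injective on a rectangle which is narrow in one direction. -/
theorem base_injOn_rect {n : ℕ} {a b c d : ℤ} (h : b - a < n ∨ d - c < n) :
    Set.InjOn (base n) {e : Edge | a ≤ e.1 ∧ e.1 ≤ b ∧ c ≤ e.2.1 ∧ e.2.1 ≤ d} := by
  rintro ⟨x, y, o⟩ ⟨h1, h2, h3, h4⟩ ⟨x', y', o'⟩ ⟨h1', h2', h3', h4'⟩ he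
  simp only [base, Prod.mk.injEq] at he
  simp only at h1 h2 h3 h4 h1' h2' h3' h4'
  obtain ⟨e1, e2, e3⟩ := he
  have hd : (n : ℤ) ∣ x - x' := Int.ModEq.dvd (Eq.symm e1)
  have h0 : x - x' = 0 := by
    rcases h with h | h
    · have hlt : |x - x'| < (n : ℤ) := by
        rw [abs_lt]
        constructor <;> omega
      exact Int.eq_zero_of_abs_lt_dvd hd hlt
    · have hxy : x - x' = y' - y := by omega
      have hlt : |x - x'| < (n : ℤ) := by
        rw [hxy, abs_lt]
        constructor <;> omega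
      exact Int.eq_zero_of_abs_lt_dvd hd hlt
  have hx : x = x' := by omega
  subst hx
  have hy : y = y' := by omega
  subst hy
  subst e3
  rfl

/-- Translation by a period, with sets. -/
theorem cylArm_conn_sh (n : ℕ) (ω : Config) (k : ℤ) {S S' : Set Vert}
    (hS : ∀ w ∈ S, sh n k w ∈ S') {u v : Vert} (h : Perc.Conn (per n ω) S u v) :
    Perc.Conn (per n ω) S' (sh n k u) (sh n k v) := by
  refine h.induction_right (P := fun x => Perc.Conn (per n ω) S' (sh n k u) (sh n k x))
    (Perc.Conn.refl (hS _ h.mem_left)) ?_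
  rintro a b _ ⟨ha, hb, e, he, ho⟩ ih
  refine ih.tail ⟨hS _ ha, hS _ hb, she n k e, ?_, ?_⟩
  · rcases he with ⟨h1, h2⟩ | ⟨h1, h2⟩
    · left; rw [src_she, tgt_she, ← h1, ← h2]; exact ⟨rfl, rfl⟩
    · right; rw [src_she, tgt_she, ← h1, ← h2]; exact ⟨rfl, rfl⟩
  · have := per_shift n ω e k
    rw [show she n k e = (e.1 + n * k, e.2.1 - n * k, e.2.2) from rfl, this]
    exact ho

/-- The deterministic part. -/
theorem cylArm_det {m : ℕ} (hm : 1 ≤ m) {ω : Config} (hA : per (16 * m) ω ∈ Perc.Arm 0 (2 * m))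
    (hT : Perc.HCross (per (16 * m) ω) (-(2 * m)) (2 * m) m (2 * m))
    (hB : Perc.HCross (per (16 * m) ω) (-(2 * m)) (2 * m) (-(2 * m)) (-m))
    (hL : Perc.VCross (per (16 * m) ω) (-(2 * m)) (-m) (-(2 * m)) (2 * m))
    (hR : Perc.VCross (per (16 * m) ω) m (2 * m) (-(2 * m)) (2 * m))
    (h1 : Perc.HCross (per (16 * m) ω) (-(2 * m)) (18 * m) (-m) m)
    (h2 : Perc.VCross (per (16 * m) ω) (15 * m) (17 * m) (-(18 * m)) (2 * m)) :
    Perc.Conn (per (16 * m) ω) (strip (64 * m)) 0 (((16 * m : ℕ) : ℤ), -((16 * m : ℕ) : ℤ)) := by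
  set η := per (16 * m) ω with hη
  have hM : (1 : ℤ) ≤ (m : ℤ) := by exact_mod_cast hm
  set M : ℤ := (m : ℤ) with hMdef
  obtain ⟨tu, tv, htu, htv, cT⟩ := hT
  obtain ⟨bu, bv, hbu, hbv, cB⟩ := hB
  obtain ⟨lu, lv, hlu, hlv, cL⟩ := hL
  obtain ⟨ru, rv, hru, hrv, cR⟩ := hR
  obtain ⟨xu, xv, hxu, hxv, cX⟩ := h1
  obtain ⟨yu, yv, hyu, hyv, cY⟩ := h2
  obtain ⟨w, hw, cA⟩ := hA
  have hball : Perc.ball 0 (2 * m) = Perc.rect (-(2 * M)) (2 * M) (-(2 * M)) (2 * M) := by
    simp [Perc.ball, hMdef]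
  rw [hball] at cA
  -- inclusions in the strip
  have sub : ∀ a b c d : ℤ, -(64 * M) < a + c → b + d < 64 * M →
      Perc.rect a b c d ⊆ strip (64 * m) := by
    intro a b c d h1 h2 v hv
    simp only [Perc.rect, Set.mem_ofPred_eq] at hv
    simp only [strip, Set.mem_ofPred_eq]
    push_cast
    omega
  have hwc : w.1 = -(2 * M) ∨ w.1 = 2 * M ∨ w.2 = -(2 * M) ∨ w.2 = 2 * M := by
    have := hw.2
    simpa [hMdef] using this
  -- the crossings meet
  obtain ⟨z1, a1, b1⟩ := H85.Strict.hv_meet cT (by omega) (by omega) cL (by omega) (by omega) (by omega) (by omega)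
  obtain ⟨z2, a2, b2⟩ := H85.Strict.hv_meet cT (by omega) (by omega) cR (by omega) (by omega) (by omega) (by omega)
  obtain ⟨z3, a3, b3⟩ := H85.Strict.hv_meet cB (by omega) (by omega) cL (by omega) (by omega) (by omega) (by omega)
  obtain ⟨z4, a4, b4⟩ := H85.Strict.hv_meet cX (by omega) (by omega) cL (by omega) (by omega) (by omega) (by omega)
  obtain ⟨z5, a5, b5⟩ := H85.Strict.hv_meet cX (by omega) (by omega) cY (by omega) (by omega) (by omega) (by omega)
  -- connections in the strip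
  have sT := sub (-(2 * M)) (2 * M) M (2 * M) (by omega) (by omega)
  have sB := sub (-(2 * M)) (2 * M) (-(2 * M)) (-M) (by omega) (by omega)
  have sL := sub (-(2 * M)) (-M) (-(2 * M)) (2 * M) (by omega) (by omega)
  have sR := sub M (2 * M) (-(2 * M)) (2 * M) (by omega) (by omega)
  have sX := sub (-(2 * M)) (18 * M) (-M) M (by omega) (by omega)
  have sY := sub (15 * M) (17 * M) (-(18 * M)) (2 * M) (by omega) (by omega)
  have sA := sub (-(2 * M)) (2 * M) (-(2 * M)) (2 * M) (by omega) (by omega)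
  have kTL : Perc.Conn η (strip (64 * m)) tu lu := (a1.mono_set sT).trans (b1.mono_set sL).symm
  have kTR : Perc.Conn η (strip (64 * m)) tu ru := (a2.mono_set sT).trans (b2.mono_set sR).symm
  have kBL : Perc.Conn η (strip (64 * m)) bu lu := (a3.mono_set sB).trans (b3.mono_set sL).symm
  have kXL : Perc.Conn η (strip (64 * m)) xu lu := (a4.mono_set sX).trans (b4.mono_set sL).symm
  have kXY : Perc.Conn η (strip (64 * m)) xu yu := (a5.mono_set sX).trans (b5.mono_set sY).symm
  -- the arm meets the circuit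
  have k0L : Perc.Conn η (strip (64 * m)) 0 lu := by
    have h00 : (0 : Vert).1 = 0 := rfl
    have h01 : (0 : Vert).2 = 0 := rfl
    rcases hwc with h | h | h | h
    · obtain ⟨z, k1, k2⟩ := H85.Strict.hv_meet cA.symm (a₂ := -(2 * M)) (b₂ := -M) (by omega)
        (by rw [h00]; omega) cL (by omega) (by omega) (by omega) (by omega)
      exact ((cA.mono_set sA).trans (k1.mono_set sA)).trans (k2.mono_set sL).symm
    · obtain ⟨z, k1, k2⟩ := H85.Strict.hv_meet cA (a₂ := M) (b₂ := 2 * M) (by rw [h00]; omega)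
        (by omega) cR (by omega) (by omega) (by omega) (by omega)
      exact (((k1.mono_set sA).trans (k2.mono_set sR).symm).trans kTR.symm).trans kTL
    · obtain ⟨z, k1, k2⟩ := H85.Strict.hv_meet cB (a₂ := -(2 * M)) (b₂ := 2 * M) (by omega)
        (by omega) cA.symm (by omega) (by rw [h01]; omega) (by omega) (by omega)
      exact (((cA.mono_set sA).trans (k2.mono_set sA)).trans (k1.mono_set sB).symm).trans kBL
    · obtain ⟨z, k1, k2⟩ := H85.Strict.hv_meet cT (a₂ := -(2 * M)) (b₂ := 2 * M) (by omega)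
        (by omega) cA (by rw [h01]; omega) (by omega) (by omega) (by omega)
      exact ((k2.mono_set sA).trans (k1.mono_set sT).symm).trans kTL
  -- the translate of `B`
  have cB' := cylArm_conn_sh (16 * m) ω 1 (S' := Perc.rect (14 * M) (18 * M) (-(18 * M)) (-(17 * M)))
    (fun v hv => by
      simp only [Perc.rect, Set.mem_ofPred_eq, sh] at hv ⊢
      push_cast
      omega) cB
  have hbu' : (sh (16 * m) 1 bu).1 = 14 * M := by
    simp only [sh]
    push_cast
    omega
  have hbv' : (sh (16 * m) 1 bv).1 = 18 * M := by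
    simp only [sh]
    push_cast
    omega
  obtain ⟨z6, a6, b6⟩ := H85.Strict.hv_meet cB' (by omega) (by omega) cY (by omega) (by omega)
    (by omega) (by omega)
  have sB' := sub (14 * M) (18 * M) (-(18 * M)) (-(17 * M)) (by omega) (by omega)
  have k1 : Perc.Conn η (strip (64 * m)) yu (sh (16 * m) 1 bu) :=
    (b6.mono_set sY).trans (a6.mono_set sB').symm
  have k2 : Perc.Conn η (strip (64 * m)) (sh (16 * m) 1 bu) (sh (16 * m) 1 0) := by
    refine cylArm_conn_sh (16 * m) ω 1 ?_ (kBL.trans k0L.symm)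
    intro v hv
    simp only [strip, Set.mem_ofPred_eq, sh] at hv ⊢
    omega
  have k3 : sh (16 * m) 1 0 = (((16 * m : ℕ) : ℤ), -((16 * m : ℕ) : ℤ)) := by
    simp [sh]
  rw [← k3]
  exact (((k0L.trans kXL.symm).trans kXY).trans k1).trans k2

theorem cylArm_step (n : ℕ) {s t : Finset Edge} {A B : Set Config} {x y : ℝ}
    (hA : Perc.LocalOn s A) (hB : Perc.LocalOn t B) (iA : Perc.Incr A) (iB : Perc.Incr B)
    (hy0 : 0 ≤ y) (hx : x ≤ Pr half {ω | per n ω ∈ A})
    (hy : y ≤ Pr half {ω | per n ω ∈ B}) : x * y ≤ Pr half {ω | per n ω ∈ A ∩ B} :=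
  (mul_le_mul hx hy hy0 Perc.Pr_nonneg).trans (fkg_per half n hA hB iA iB)

theorem cylArm_injOn {n : ℕ} {a b c d : ℤ} (h : b - a < n ∨ d - c < n) :
    Set.InjOn (base n) (Perc.eRect a b c d : Finset Edge) := by
  refine (base_injOn_rect h).mono ?_
  intro e he
  have he' := Perc.mem_eRect.1 (Finset.mem_coe.1 he)
  exact he'

theorem cylArm_pr_h {n : ℕ} {a b c d : ℤ} (h : b - a < n ∨ d - c < n) :
    Pr half {ω | per n ω ∈ {η : Config | Perc.HCross η a b c d}} =
      Pr half {ω : Config | Perc.HCross ω a b c d} :=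
  pr_per half (cylArm_injOn h) (Perc.localOn_hcross a b c d)

theorem cylArm_pr_v {n : ℕ} {a b c d : ℤ} (h : b - a < n ∨ d - c < n) :
    Pr half {ω | per n ω ∈ {η : Config | Perc.VCross η a b c d}} =
      Pr half {ω : Config | Perc.VCross ω a b c d} :=
  pr_per half (cylArm_injOn h) (Perc.localOn_vcross a b c d)

/-- An arm of the plane can be completed to a winding path on the cylinder. -/
theorem arm_le_wind : ∃ c : ℝ, 0 < c ∧ ∀ m : ℕ, 1 ≤ m → c * Perc.arm half (2 * m) ≤
    Pr half {ω | Perc.Conn (per (16 * m) ω) (strip (64 * m)) 0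
      (((16 * m : ℕ) : ℤ), -((16 * m : ℕ) : ℤ))} := by
  classical
  obtain ⟨c, hc, hrsw⟩ := Perc.rsw
  refine ⟨c ^ 14, by positivity, fun m hm => ?_⟩
  have hM : (1 : ℤ) ≤ (m : ℤ) := by exact_mod_cast hm
  -- probabilities of the crossings
  have hshort : ∀ x y : ℤ, c ≤ Pr half {ω : Config | Perc.HCross ω x (x + 4 * m) y (y + m)} := by
    intro x y
    have h1 := Perc.Pr_hcross_translate (p := half) (a := 0) (b := 4 * (m : ℤ)) (c := 0)
      (d := (m : ℤ)) x y
    rw [zero_add, zero_add, add_comm (4 * (m : ℤ)) x, add_comm (m : ℤ) y] at h1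
    rw [h1]
    exact hrsw m hm
  have hlong : ∀ x y : ℤ, c ^ 5 ≤ Pr half {ω : Config | Perc.HCross ω x (x + 20 * m) y (y + 2 * m)} := by
    intro x y
    have h0 := H85.Strict.long_rsw (q := half) hc.le (hrsw (2 * m) (by omega)) 2
    have e1 : ((4 : ℤ) + 3 * ((2 : ℕ) : ℤ)) * ((2 * m : ℕ) : ℤ) = 20 * (m : ℤ) := by
      push_cast; ring
    have e2 : ((2 * m : ℕ) : ℤ) = 2 * (m : ℤ) := by push_cast; ring
    rw [e1, e2] at h0
    have h1 := Perc.Pr_hcross_translate (p := half) (a := 0) (b := 20 * (m : ℤ)) (c := 0)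
      (d := 2 * (m : ℤ)) x y
    rw [zero_add, zero_add, add_comm (20 * (m : ℤ)) x, add_comm (2 * (m : ℤ)) y] at h1
    rw [h1]
    simpa using h0
  have n16 : ((16 * m : ℕ) : ℤ) = 16 * (m : ℤ) := by push_cast; ring
  have pT : c ≤ Pr half {ω | per (16 * m) ω ∈ {η : Config | Perc.HCross η (-(2 * m)) (2 * m) m (2 * m)}} := by
    rw [cylArm_pr_h (by rw [n16]; omega)]
    have := hshort (-(2 * m)) m
    have e1 : -(2 * (m : ℤ)) + 4 * m = 2 * m := by ring
    have e2 : (m : ℤ) + m = 2 * m := by ring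
    rw [e1, e2] at this
    exact this
  have pB : c ≤ Pr half {ω | per (16 * m) ω ∈
      {η : Config | Perc.HCross η (-(2 * m)) (2 * m) (-(2 * m)) (-m)}} := by
    rw [cylArm_pr_h (by rw [n16]; omega)]
    have := hshort (-(2 * m)) (-(2 * m))
    have e1 : -(2 * (m : ℤ)) + 4 * m = 2 * m := by ring
    have e2 : -(2 * (m : ℤ)) + m = -m := by ring
    rw [e1, e2] at this
    exact this
  have pL : c ≤ Pr half {ω | per (16 * m) ω ∈
      {η : Config | Perc.VCross η (-(2 * m)) (-m) (-(2 * m)) (2 * m)}} := by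
    rw [cylArm_pr_v (by rw [n16]; omega), Perc.Pr_vcross_eq_hcross]
    have := hshort (-(2 * m)) (-(2 * m))
    have e1 : -(2 * (m : ℤ)) + 4 * m = 2 * m := by ring
    have e2 : -(2 * (m : ℤ)) + m = -m := by ring
    rw [e1, e2] at this
    exact this
  have pR : c ≤ Pr half {ω | per (16 * m) ω ∈
      {η : Config | Perc.VCross η m (2 * m) (-(2 * m)) (2 * m)}} := by
    rw [cylArm_pr_v (by rw [n16]; omega), Perc.Pr_vcross_eq_hcross]
    have := hshort (-(2 * m)) m
    have e1 : -(2 * (m : ℤ)) + 4 * m = 2 * m := by ring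
    have e2 : (m : ℤ) + m = 2 * m := by ring
    rw [e1, e2] at this
    exact this
  have p1 : c ^ 5 ≤ Pr half {ω | per (16 * m) ω ∈
      {η : Config | Perc.HCross η (-(2 * m)) (18 * m) (-m) m}} := by
    rw [cylArm_pr_h (by rw [n16]; omega)]
    have := hlong (-(2 * m)) (-m)
    have e1 : -(2 * (m : ℤ)) + 20 * m = 18 * m := by ring
    have e2 : -(m : ℤ) + 2 * m = m := by ring
    rw [e1, e2] at this
    exact this
  have p2 : c ^ 5 ≤ Pr half {ω | per (16 * m) ω ∈
      {η : Config | Perc.VCross η (15 * m) (17 * m) (-(18 * m)) (2 * m)}} := by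
    rw [cylArm_pr_v (by rw [n16]; omega), Perc.Pr_vcross_eq_hcross]
    have := hlong (-(18 * m)) (15 * m)
    have e1 : -(18 * (m : ℤ)) + 20 * m = 2 * m := by ring
    have e2 : 15 * (m : ℤ) + 2 * m = 17 * m := by ring
    rw [e1, e2] at this
    exact this
  have pA : Perc.arm half (2 * m) ≤ Pr half {ω | per (16 * m) ω ∈ Perc.Arm 0 (2 * m)} :=
    (pr_per_arm half (by omega)).ge
  -- FKG
  have q1 := cylArm_step (16 * m) (Perc.localOn_arm 0 (2 * m)) (Perc.localOn_hcross _ _ _ _)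
    (Perc.incr_arm 0 (2 * m)) (Perc.incr_hcross _ _ _ _) hc.le pA pT
  have q2 := cylArm_step (16 * m) ((Perc.localOn_arm 0 (2 * m)).inter' (Perc.localOn_hcross _ _ _ _))
    (Perc.localOn_hcross _ _ _ _)
    ((Perc.incr_arm 0 (2 * m)).inter (Perc.incr_hcross _ _ _ _)) (Perc.incr_hcross _ _ _ _) hc.le q1 pB
  have q3 := cylArm_step (16 * m) (((Perc.localOn_arm 0 (2 * m)).inter'
    (Perc.localOn_hcross _ _ _ _)).inter' (Perc.localOn_hcross _ _ _ _)) (Perc.localOn_vcross _ _ _ _)
    (((Perc.incr_arm 0 (2 * m)).inter (Perc.incr_hcross _ _ _ _)).inter (Perc.incr_hcross _ _ _ _))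
    (Perc.incr_vcross _ _ _ _) hc.le q2 pL
  have q4 := cylArm_step (16 * m) ((((Perc.localOn_arm 0 (2 * m)).inter'
    (Perc.localOn_hcross _ _ _ _)).inter' (Perc.localOn_hcross _ _ _ _)).inter'
    (Perc.localOn_vcross _ _ _ _)) (Perc.localOn_vcross _ _ _ _)
    ((((Perc.incr_arm 0 (2 * m)).inter (Perc.incr_hcross _ _ _ _)).inter
    (Perc.incr_hcross _ _ _ _)).inter (Perc.incr_vcross _ _ _ _))
    (Perc.incr_vcross _ _ _ _) hc.le q3 pR
  have q5 := cylArm_step (16 * m) (((((Perc.localOn_arm 0 (2 * m)).inter'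
    (Perc.localOn_hcross _ _ _ _)).inter' (Perc.localOn_hcross _ _ _ _)).inter'
    (Perc.localOn_vcross _ _ _ _)).inter' (Perc.localOn_vcross _ _ _ _)) (Perc.localOn_hcross _ _ _ _)
    (((((Perc.incr_arm 0 (2 * m)).inter (Perc.incr_hcross _ _ _ _)).inter
    (Perc.incr_hcross _ _ _ _)).inter (Perc.incr_vcross _ _ _ _)).inter (Perc.incr_vcross _ _ _ _))
    (Perc.incr_hcross _ _ _ _) (by positivity) q4 p1
  have q6 := cylArm_step (16 * m) ((((((Perc.localOn_arm 0 (2 * m)).inter'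
    (Perc.localOn_hcross _ _ _ _)).inter' (Perc.localOn_hcross _ _ _ _)).inter'
    (Perc.localOn_vcross _ _ _ _)).inter' (Perc.localOn_vcross _ _ _ _)).inter'
    (Perc.localOn_hcross _ _ _ _)) (Perc.localOn_vcross _ _ _ _)
    ((((((Perc.incr_arm 0 (2 * m)).inter (Perc.incr_hcross _ _ _ _)).inter
    (Perc.incr_hcross _ _ _ _)).inter (Perc.incr_vcross _ _ _ _)).inter
    (Perc.incr_vcross _ _ _ _)).inter (Perc.incr_hcross _ _ _ _))
    (Perc.incr_vcross _ _ _ _) (by positivity) q5 p2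
  have e : c ^ 14 * Perc.arm half (2 * m) =
      Perc.arm half (2 * m) * c * c * c * c * c ^ 5 * c ^ 5 := by ring
  rw [e]
  refine q6.trans (Perc.Pr_mono ?_)
  rintro ω ⟨⟨⟨⟨⟨⟨w1, w2⟩, w3⟩, w4⟩, w5⟩, w6⟩, w7⟩
  exact cylArm_det hm w1 w2 w3 w4 w5 w6 w7

end Pool.Agent.H89.Link

end

section

/-! The function `TM M c z`: the explicit sum times the product over pairs; its recursions. -/

namespace H56.EX

open Finset Pool.Agent.H96.EX

/-- relabelling of the explicit sum -/
lemma SG_map {K ι κ : Type*} [Field K] [DecidableEq ι] [DecidableEq κ] (q u v : K) (e : ι ↪ κ)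
    (s : Finset ι) (c : List K) (z : κ → K) :
    SG q u v (s.map e) c z = SG q u v s c (z ∘ e) := by
  unfold SG
  symm
  refine Finset.sum_bij (fun A _ => A.map e) ?_ ?_ ?_ ?_
  · intro A hA
    rw [mem_powerset] at hA ⊢
    exact map_subset_map.2 hA
  · intro A _ B _ h
    exact map_injective e h
  · intro B hB
    rw [mem_powerset] at hB
    obtain ⟨A, hA, rfl⟩ := subset_map_iff.1 hB
    exact ⟨A, mem_powerset.2 hA, rfl⟩
  · intro A _
    rw [← Finset.map_sdiff]
    simp only [Finset.prod_map, Function.comp_apply]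

/-- product over pairs of the first `M` strands -/
noncomputable def prp : ℕ → (ℕ → ℂ) → ℂ
  | 0, _ => 1
  | M + 1, z => (∏ k ∈ range M, (z 0 ^ 2 + z 0 * z (k + 1) + z (k + 1) ^ 2)) *
      prp M (fun n => z (n + 1))

lemma prp_swap : ∀ (M : ℕ) (z : ℕ → ℂ) (j : ℕ), j + 1 < M →
    prp M (z ∘ Equiv.swap j (j + 1)) = prp M z := by
  intro M
  induction M with
  | zero => intro z j hj; omega
  | succ M ih =>
    intro z j hj
    rcases j with _ | j
    · obtain ⟨M, rfl⟩ : ∃ M', M = M' + 1 := ⟨M - 1, by omega⟩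
      simp only [prp]
      have e : (fun n => (z ∘ Equiv.swap 0 (0 + 1)) (n + 1 + 1)) = fun n => z (n + 1 + 1) := by
        funext n
        rw [Function.comp_apply, Equiv.swap_apply_of_ne_of_ne (by omega) (by omega)]
      rw [e, Finset.prod_range_succ', Finset.prod_range_succ']
      have e0 : (z ∘ Equiv.swap 0 (0 + 1)) 0 = z 1 := by simp
      have e1 : (z ∘ Equiv.swap 0 (0 + 1)) (0 + 1) = z 0 := by simp
      have e2 : ∀ n, (z ∘ Equiv.swap 0 (0 + 1)) (n + 1 + 1) = z (n + 1 + 1) := congrFun e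
      simp only [e0, e1, e2]
      have e3 : ((z 1) ^ 2 + z 1 * z 0 + z 0 ^ 2) = z 0 ^ 2 + z 0 * z 1 + z 1 ^ 2 := by ring
      rw [e3]
      ring
    · have hp : (∏ k ∈ range M, ((z ∘ Equiv.swap (j + 1) (j + 1 + 1)) 0 ^ 2 +
          (z ∘ Equiv.swap (j + 1) (j + 1 + 1)) 0 * (z ∘ Equiv.swap (j + 1) (j + 1 + 1)) (k + 1) +
          (z ∘ Equiv.swap (j + 1) (j + 1 + 1)) (k + 1) ^ 2)) =
          ∏ k ∈ range M, (z 0 ^ 2 + z 0 * z (k + 1) + z (k + 1) ^ 2) := by
        have e0 : (z ∘ Equiv.swap (j + 1) (j + 1 + 1)) 0 = z 0 := by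
          rw [Function.comp_apply, Equiv.swap_apply_of_ne_of_ne (by omega) (by omega)]
        rw [e0]
        refine Finset.prod_bij (fun k _ => Equiv.swap j (j + 1) k) ?_ ?_ ?_ ?_
        · intro k hk
          rw [mem_range] at hk ⊢
          by_cases h1 : k = j
          · subst h1; simp; omega
          by_cases h2 : k = j + 1
          · subst h2; simp; omega
          rw [Equiv.swap_apply_of_ne_of_ne h1 h2]; exact hk
        · intro a _ b _ h; exact (Equiv.swap j (j + 1)).injective h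
        · intro b hb
          refine ⟨Equiv.swap j (j + 1) b, ?_, by simp⟩
          rw [mem_range] at hb ⊢
          by_cases h1 : b = j
          · subst h1; simp; omega
          by_cases h2 : b = j + 1
          · subst h2; simp; omega
          rw [Equiv.swap_apply_of_ne_of_ne h1 h2]; exact hb
        · intro k _
          have e1 : (z ∘ Equiv.swap (j + 1) (j + 1 + 1)) (k + 1) =
              z (Equiv.swap j (j + 1) k + 1) := by
            rw [Function.comp_apply]
            congr 1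
            by_cases h1 : k = j
            · subst h1; simp
            by_cases h2 : k = j + 1
            · subst h2; simp
            rw [Equiv.swap_apply_of_ne_of_ne h1 h2,
              Equiv.swap_apply_of_ne_of_ne (by omega) (by omega)]
          rw [e1]
      have hs : (fun n => (z ∘ Equiv.swap (j + 1) (j + 1 + 1)) (n + 1)) =
          (fun n => z (n + 1)) ∘ Equiv.swap j (j + 1) := by
        funext k
        rw [Function.comp_apply, Function.comp_apply]
        show z _ = z (_ + 1)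
        congr 1
        by_cases h1 : k = j
        · subst h1; simp
        by_cases h2 : k = j + 1
        · subst h2; simp
        rw [Equiv.swap_apply_of_ne_of_ne h1 h2,
          Equiv.swap_apply_of_ne_of_ne (by omega) (by omega)]
      simp only [prp]
      rw [hp, hs, ih _ j (by omega)]

/-- `S_M(c;z)` at generic points -/
noncomputable def TM (M : ℕ) (c : List ℂ) (z : ℕ → ℂ) : ℂ :=
  prp M z * SG q q (q ^ 2) (range M) c z

lemma TM_perm {M : ℕ} {c c' : List ℂ} (h : c.Perm c') (z : ℕ → ℂ) : TM M c z = TM M c' z := by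
  unfold TM
  rw [SG_perm h]

lemma TM_zero (c : List ℂ) (z : ℕ → ℂ) : TM 0 c z = 1 := by
  simp [TM, prp, SG_empty]

lemma TM_swap (M : ℕ) (c : List ℂ) (z : ℕ → ℂ) (j : ℕ) (hj : j + 1 < M) :
    TM M c (z ∘ Equiv.swap j (j + 1)) = TM M c z := by
  unfold TM
  rw [prp_swap M z j hj]
  have := SG_map q q (q ^ 2) (Equiv.swap j (j + 1)).toEmbedding (range M) c z
  have hm : (range M).map (Equiv.swap j (j + 1)).toEmbedding = range M := by
    ext x
    simp only [mem_map, mem_range, Equiv.coe_toEmbedding]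
    constructor
    · rintro ⟨k, hk, rfl⟩
      by_cases h1 : k = j
      · subst h1; simp; omega
      by_cases h2 : k = j + 1
      · subst h2; simp; omega
      rw [Equiv.swap_apply_of_ne_of_ne h1 h2]; exact hk
    · intro hx
      refine ⟨Equiv.swap j (j + 1) x, ?_, by simp⟩
      by_cases h1 : x = j
      · subst h1; simp; omega
      by_cases h2 : x = j + 1
      · subst h2; simp; omega
      rw [Equiv.swap_apply_of_ne_of_ne h1 h2]; exact hx
  rw [hm] at this
  rw [this]
  rfl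

lemma TM_mvf (M : ℕ) (c : List ℂ) (z : ℕ → ℂ) (hz : Gen M z) (j : ℕ) (hj : j < M) :
    TM M c (mvf j z) = TM M c z :=
  inv_mvf (TM M c) (fun z _ j hj => TM_swap M c z j hj) j hj z hz

lemma TM_congr {M : ℕ} {c : List ℂ} {z z' : ℕ → ℂ} (h : ∀ j, j < M → z j = z' j) :
    TM M c z = TM M c z' := by
  have hp : ∀ (M : ℕ) (z z' : ℕ → ℂ), (∀ j, j < M → z j = z' j) → prp M z = prp M z' := by
    intro M
    induction M with
    | zero => intro _ _ _; rfl
    | succ M ih =>
      intro z z' h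
      simp only [prp]
      rw [ih _ _ (fun j hj => h (j + 1) (by omega)), h 0 (by omega)]
      congr 1
      refine Finset.prod_congr rfl fun k hk => ?_
      rw [h (k + 1) (by have := mem_range.1 hk; omega)]
  unfold TM
  rw [hp M z z' h]
  congr 1
  unfold SG
  refine Finset.sum_congr rfl fun A hA => ?_
  rw [mem_powerset] at hA
  congr 1
  · congr 1
    · refine Finset.prod_congr rfl fun j hj => ?_
      rw [h j (mem_range.1 (hA hj))]
    · refine Finset.prod_congr rfl fun j hj => ?_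
      rw [h j (mem_range.1 (mem_sdiff.1 hj).1)]
  · refine Finset.prod_congr rfl fun j hj => Finset.prod_congr rfl fun k hk => ?_
    rw [h j (mem_range.1 (hA hj)), h k (mem_range.1 (mem_sdiff.1 hk).1)]

lemma range_erase_zero (M : ℕ) :
    (range (M + 1)).erase 0 = (range M).map (addRightEmbedding 1) := by
  ext x
  simp only [mem_erase, mem_range, mem_map, addRightEmbedding_apply]
  constructor
  · rintro ⟨h1, h2⟩
    exact ⟨x - 1, by omega, by omega⟩
  · rintro ⟨k, hk, rfl⟩
    omega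

/-- recursion at `c = q² z_0` -/
theorem TM_rec1 (M : ℕ) (c : List ℂ) (z : ℕ → ℂ) (hz : Gen (M + 1) z) :
    TM (M + 1) ((q ^ 2 * z 0) :: c) z =
      (1 - q ^ 2) * z 0 * lg c (q * z 0) * (∏ k ∈ range M, (z (k + 1) - q * z 0) ^ 2) *
        TM M (z 0 :: c) (fun n => z (n + 1)) := by
  have hd : ∀ j ∈ (range (M + 1)).erase 0, z j ≠ z 0 ∧ z j ≠ q ^ 2 * z 0 := by
    intro j hj
    rw [mem_erase, mem_range] at hj
    have := hz.2 j 0 hj.2 (by omega) hj.1
    exact ⟨this.ne1, this.neq2⟩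
  unfold TM
  rw [SG_rec1 q_sq (mem_range.2 (Nat.succ_pos M)) c z hd, range_erase_zero, SG_map,
    Finset.prod_map]
  simp only [prp, addRightEmbedding_apply]
  have hp : (∏ k ∈ range M, (z 0 ^ 2 + z 0 * z (k + 1) + z (k + 1) ^ 2)) *
      (∏ k ∈ range M, (z (k + 1) - q * z 0) / (z (k + 1) - q ^ 2 * z 0)) =
      ∏ k ∈ range M, (z (k + 1) - q * z 0) ^ 2 := by
    rw [← Finset.prod_mul_distrib]
    refine Finset.prod_congr rfl fun k hk => ?_
    have hne : z (k + 1) - q ^ 2 * z 0 ≠ 0 :=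
      sub_ne_zero.2 (hz.2 (k + 1) 0 (by have := mem_range.1 hk; omega) (by omega)
        (by omega)).neq2
    rw [mul_div_assoc', div_eq_iff hne]
    linear_combination (z 0 * z (k + 1) * (z (k + 1) - q * z 0)) * q_sq +
      (- (z 0 ^ 2 * (z (k + 1) - q * z 0))) * q_cube
  have hc : (fun n => z (n + 1)) = z ∘ (addRightEmbedding 1 : ℕ ↪ ℕ) := rfl
  rw [hc, ← hp]
  linear_combination (z 0 * lg c (q * z 0) *
    (∏ k ∈ range M, (z 0 ^ 2 + z 0 * z (k + 1) + z (k + 1) ^ 2)) *
      (∏ k ∈ range M, (z (k + 1) - q * z 0) / (z (k + 1) - q ^ 2 * z 0)) *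
      prp M (z ∘ (addRightEmbedding 1 : ℕ ↪ ℕ)) *
      SG q q (q ^ 2) (range M) (z 0 :: c) (z ∘ (addRightEmbedding 1 : ℕ ↪ ℕ))) * q_cube

/-- recursion at `c = q z_0` -/
theorem TM_rec2 (M : ℕ) (c : List ℂ) (z : ℕ → ℂ) (hz : Gen (M + 1) z) :
    TM (M + 1) ((q * z 0) :: c) z =
      (1 - q) * z 0 * lg c (q ^ 2 * z 0) * (∏ k ∈ range M, (z (k + 1) - q ^ 2 * z 0) ^ 2) *
        TM M (z 0 :: c) (fun n => z (n + 1)) := by
  have hd : ∀ j ∈ (range (M + 1)).erase 0, z j ≠ z 0 ∧ z j ≠ q * z 0 := by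
    intro j hj
    rw [mem_erase, mem_range] at hj
    have := hz.2 j 0 hj.2 (by omega) hj.1
    exact ⟨this.ne1, this.neq⟩
  unfold TM
  rw [SG_rec2 q_sq (mem_range.2 (Nat.succ_pos M)) c z hd, range_erase_zero, SG_map,
    Finset.prod_map]
  simp only [prp, addRightEmbedding_apply]
  have hp : (∏ k ∈ range M, (z 0 ^ 2 + z 0 * z (k + 1) + z (k + 1) ^ 2)) *
      (∏ k ∈ range M, (z (k + 1) - q ^ 2 * z 0) / (z (k + 1) - q * z 0)) =
      ∏ k ∈ range M, (z (k + 1) - q ^ 2 * z 0) ^ 2 := by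
    rw [← Finset.prod_mul_distrib]
    refine Finset.prod_congr rfl fun k hk => ?_
    have hne : z (k + 1) - q * z 0 ≠ 0 :=
      sub_ne_zero.2 (hz.2 (k + 1) 0 (by have := mem_range.1 hk; omega) (by omega)
        (by omega)).neq
    rw [mul_div_assoc', div_eq_iff hne]
    linear_combination (z 0 * z (k + 1) * (z (k + 1) - q ^ 2 * z 0)) * q_sq +
      (- (z 0 ^ 2 * (z (k + 1) - q ^ 2 * z 0))) * q_cube
  have hc : (fun n => z (n + 1)) = z ∘ (addRightEmbedding 1 : ℕ ↪ ℕ) := rfl
  rw [hc, ← hp]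
  linear_combination ((1 - q) * z 0 * lg c (q ^ 2 * z 0) *
    (∏ k ∈ range M, (z 0 ^ 2 + z 0 * z (k + 1) + z (k + 1) ^ 2)) *
      (∏ k ∈ range M, (z (k + 1) - q ^ 2 * z 0) / (z (k + 1) - q * z 0)) *
      prp M (z ∘ (addRightEmbedding 1 : ℕ ↪ ℕ)) *
      SG q q (q ^ 2) (range M) (z 0 :: c) (z ∘ (addRightEmbedding 1 : ℕ ↪ ℕ))) * q_cube

/-- shifting after moving the last strand to the front -/
lemma mvf_last (M : ℕ) (z : ℕ → ℂ) (j : ℕ) (hj : j < M) : mvf M z (j + 1) = z j := by
  unfold mvf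
  rw [if_neg (by omega), if_pos (by omega)]
  congr 1

lemma mvf_head (M : ℕ) (z : ℕ → ℂ) : mvf M z 0 = z M := by simp [mvf]

lemma Gen.mvf {M : ℕ} : ∀ (j : ℕ) (_ : j < M) (z : ℕ → ℂ), Gen M z → Gen M (mvf j z) := by
  intro j
  induction j with
  | zero => intro _ z hz; rw [mvf_zero]; exact hz
  | succ j ih =>
    intro hj z hz
    rw [mvf_succ]
    exact ih (by omega) _ (hz.swap j hj)

lemma prod_mvf_last (M : ℕ) (z : ℕ → ℂ) (f : ℂ → ℂ) :
    ∏ k ∈ range M, f (mvf M z (k + 1)) = ∏ k ∈ range M, f (z k) := by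
  refine Finset.prod_congr rfl fun k hk => ?_
  rw [mvf_last M z k (mem_range.1 hk)]

theorem TM_rec1_last (M : ℕ) (c : List ℂ) (z : ℕ → ℂ) (hz : Gen (M + 1) z) :
    TM (M + 1) ((q ^ 2 * z M) :: c) z =
      (1 - q ^ 2) * z M * lg c (q * z M) * (∏ k ∈ range M, (z k - q * z M) ^ 2) *
        TM M (z M :: c) z := by
  have h := TM_rec1 M c (mvf M z) (hz.mvf M (by omega) z)
  rw [mvf_head, prod_mvf_last M z (fun x => (x - q * z M) ^ 2),
    TM_mvf (M + 1) _ z hz M (by omega),
    TM_congr (z := fun n => mvf M z (n + 1)) (z' := z) (fun j hj => mvf_last M z j hj)] at h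
  exact h

theorem TM_rec2_last (M : ℕ) (c : List ℂ) (z : ℕ → ℂ) (hz : Gen (M + 1) z) :
    TM (M + 1) ((q * z M) :: c) z =
      (1 - q) * z M * lg c (q ^ 2 * z M) * (∏ k ∈ range M, (z k - q ^ 2 * z M) ^ 2) *
        TM M (z M :: c) z := by
  have h := TM_rec2 M c (mvf M z) (hz.mvf M (by omega) z)
  rw [mvf_head, prod_mvf_last M z (fun x => (x - q ^ 2 * z M) ^ 2),
    TM_mvf (M + 1) _ z hz M (by omega),
    TM_congr (z := fun n => mvf M z (n + 1)) (z' := z) (fun j hj => mvf_last M z j hj)] at h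
  exact h

/-- polynomial in the first leg -/
theorem TM_poly (M : ℕ) (c : List ℂ) (z : ℕ → ℂ) :
    ∃ p : Polynomial ℂ, p.natDegree ≤ M ∧ ∀ t, TM M (t :: c) z = p.eval t := by
  refine ⟨Polynomial.C (prp M z) * SGpoly q q (q ^ 2) (range M) c z, ?_, fun t => ?_⟩
  · refine (Polynomial.natDegree_C_mul_le _ _).trans ?_
    have := SGpoly_natDegree q q (q ^ 2) (range M) c z
    rwa [card_range] at this
  · rw [Polynomial.eval_mul, Polynomial.eval_C, SGpoly_eval]
    rfl

end H56.EX

end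

section

/-! The explicit right hand sides of the leg formulas and their recursions. -/

namespace H56.EX

open Finset Pool.Agent.H96.EX

/-- exponents of 3 -/
def ee : ℕ → ℕ
  | 0 => 1
  | M + 1 => ee M + (M + 2)

/-- the explicit (2,2) leg function -/
noncomputable def R22 (M : ℕ) (a0 a1 b0 b1 : ℂ) (z : ℕ → ℂ) : ℂ :=
  -((q * a1 - q⁻¹ * a0) * (q * b0 - q⁻¹ * b1) * TM M [a1, a0, b0, b1] z) /
    (3 ^ (ee M) * (b0 * b1 * ∏ k ∈ range M, z k) ^ (M + 1))

/-- the explicit (1,3) leg function -/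
noncomputable def R13 (M : ℕ) (a b0 b1 b2 : ℂ) (z : ℕ → ℂ) : ℂ :=
  -((q ^ 2 - q) * ((q * b0 - q⁻¹ * b1) * (q * b0 - q⁻¹ * b2) * (q * b1 - q⁻¹ * b2)) *
    TM M [b2, a, b0, b1] z) / (3 ^ (ee M + 1) * (b0 * b1 * b2 * ∏ k ∈ range M, z k) ^ (M + 2))

lemma qi : q⁻¹ = q ^ 2 := q_inv

lemma three_ne (n : ℕ) : (3 : ℂ) ^ n ≠ 0 := pow_ne_zero _ (by norm_num)

/-- A1 -/
lemma R22_right (M : ℕ) (a0 b0 b1 : ℂ) (z : ℕ → ℂ) (hz : Gen (M + 1) z) (h0 : b0 ≠ 0)
    (h1 : b1 ≠ 0) :
    R22 (M + 1) a0 (q ^ 2 * z 0) b0 b1 z =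
      (-q * z 0 * ((∏ s ∈ range M, (z (s + 1) - q * z 0) ^ 2) * (a0 - q * z 0) ^ 2) /
        3 ^ (M + 1)) * R13 M a0 b0 b1 (z 0) (fun n => z (n + 1)) := by
  unfold R22 R13
  rw [TM_rec1 M _ z hz, Finset.prod_range_succ', qi]
  simp only [lg_cons, lg_nil, ee]
  set Z := ∏ k ∈ range M, z (k + 1) with hZ
  set D := ∏ k ∈ range M, (z (k + 1) - q * z 0) ^ 2 with hD
  set T := TM M [z 0, a0, b0, b1] fun n => z (n + 1) with hT
  have hz0 : z 0 ≠ 0 := hz.1 0 (by omega)
  have hZ0 : Z ≠ 0 := by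
    rw [hZ]
    exact Finset.prod_ne_zero_iff.2 fun k hk => hz.1 _ (by have := mem_range.1 hk; omega)
  have e1 : q * (q ^ 2 * z 0) - q ^ 2 * a0 = -q ^ 2 * (a0 - q * z 0) := by ring
  have e2 : ∀ b : ℂ, q * b - q ^ 2 * z 0 = q * (b - q * z 0) := fun b => by ring
  rw [e1, e2 b0, e2 b1, div_mul_div_comm, div_eq_div_iff]
  · linear_combination (-(q ^ 2 * (q * b0 - q ^ 2 * b1) * z 0 * (a0 - q * z 0) ^ 2 *
      (b0 - q * z 0) * (b1 - q * z 0) * D * T * (3 ^ (ee M + (M + 2)) *
        (b0 * b1 * (Z * z 0)) ^ (M + 2)))) * q_cube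
  · refine mul_ne_zero (three_ne _) (pow_ne_zero _ ?_)
    simp [h0, h1, hz0, hZ0]
  · refine mul_ne_zero (three_ne _) (mul_ne_zero (three_ne _) (pow_ne_zero _ ?_))
    simp [h0, h1, hz0, hZ0]

/-- A3 -/
lemma R22_left (M : ℕ) (a0 b0 b1 : ℂ) (z : ℕ → ℂ) (hz : Gen (M + 1) z) (h0 : b0 ≠ 0)
    (h1 : b1 ≠ 0) :
    R22 (M + 1) (q * z M) a0 b0 b1 z =
      (-q * (q * z M) * ((∏ s ∈ range M, (z s - q * (q * z M)) ^ 2) *
        (a0 - q * (q * z M)) ^ 2) / 3 ^ (M + 1)) * R13 M a0 (z M) b0 b1 z := by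
  unfold R22 R13
  rw [TM_perm (c := [a0, q * z M, b0, b1]) (c' := [q * z M, a0, b0, b1]) (List.Perm.swap _ _ _),
    TM_rec2_last M _ z hz, Finset.prod_range_succ, qi,
    TM_perm (c := [b1, a0, z M, b0]) (c' := [z M, a0, b0, b1])
      (by
        rw [List.perm_iff_count]
        intro x
        simp only [List.count_cons, List.count_nil]
        ring)]
  simp only [lg_cons, lg_nil, ee]
  set Z := ∏ k ∈ range M, z k with hZ
  have eD : (∏ s ∈ range M, (z s - q * (q * z M)) ^ 2) =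
      ∏ k ∈ range M, (z k - q ^ 2 * z M) ^ 2 := by
    refine Finset.prod_congr rfl fun k _ => ?_
    ring
  rw [eD]
  set D := ∏ k ∈ range M, (z k - q ^ 2 * z M) ^ 2 with hD
  set T := TM M [z M, a0, b0, b1] z with hT
  have hz0 : z M ≠ 0 := hz.1 M (by omega)
  have hZ0 : Z ≠ 0 := by
    rw [hZ]
    exact Finset.prod_ne_zero_iff.2 fun k hk => hz.1 _ (by have := mem_range.1 hk; omega)
  have e1 : ∀ x y : ℂ, q * x - q ^ 2 * (q * y) = q * (x - q ^ 2 * y) := fun x y => by ring
  have e2 : ∀ x : ℂ, q * z M - q ^ 2 * x = -q ^ 2 * (x - q ^ 2 * z M) := fun x => by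
    linear_combination (- q * z M) * q_cube
  rw [e1, e2 b0, e2 b1, div_mul_div_comm, div_eq_div_iff]
  · linear_combination (-((q ^ 2 - q) * (q ^ 3 + 1) * (q * b0 - q ^ 2 * b1) * z M *
      (a0 - q ^ 2 * z M) ^ 2 * (b0 - q ^ 2 * z M) * (b1 - q ^ 2 * z M) * D * T *
      (3 ^ (ee M + (M + 2)) * (b0 * b1 * (Z * z M)) ^ (M + 2)))) * q_cube
  · refine mul_ne_zero (three_ne _) (pow_ne_zero _ ?_)
    simp [h0, h1, hz0, hZ0]
  · refine mul_ne_zero (three_ne _) (mul_ne_zero (three_ne _) (pow_ne_zero _ ?_))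
    simp [h0, h1, hz0, hZ0]

lemma inv_sub_sq {x y : ℂ} (hx : x ≠ 0) (hy : y ≠ 0) :
    (x⁻¹ - q * y⁻¹) ^ 2 = q ^ 2 * (x - q ^ 2 * y) ^ 2 / (x * y) ^ 2 := by
  field_simp
  linear_combination (2 * q * x * y - q ^ 3 * y ^ 2 - y ^ 2) * q_cube

/-- B1 -/
lemma R13_right (M : ℕ) (a b0 b1 : ℂ) (z : ℕ → ℂ) (hz : Gen (M + 1) z) (h0 : b0 ≠ 0)
    (h1 : b1 ≠ 0) :
    R13 (M + 1) a b0 b1 (q * z 0) z =
      (-q * (z 0)⁻¹ * ((∏ s ∈ range M, ((z (s + 1))⁻¹ - q * (z 0)⁻¹) ^ 2) *
        (b0⁻¹ - q * (z 0)⁻¹) ^ 2 * (b1⁻¹ - q * (z 0)⁻¹) ^ 2) /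
        3 ^ (M + 2)) * R22 M a (z 0) b0 b1 (fun n => z (n + 1)) := by
  have hz0 : z 0 ≠ 0 := hz.1 0 (by omega)
  have hk0 : ∀ k, k < M → z (k + 1) ≠ 0 := fun k hk => hz.1 _ (by omega)
  unfold R22 R13
  rw [TM_rec2 M _ z hz, Finset.prod_range_succ', qi, inv_sub_sq h0 hz0, inv_sub_sq h1 hz0]
  simp only [lg_cons, lg_nil, ee]
  have eD : (∏ s ∈ range M, ((z (s + 1))⁻¹ - q * (z 0)⁻¹) ^ 2) =
      (q ^ 2) ^ M * (∏ k ∈ range M, (z (k + 1) - q ^ 2 * z 0) ^ 2) /
        ((∏ k ∈ range M, z (k + 1)) ^ 2 * (z 0 ^ 2) ^ M) := by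
    rw [eq_div_iff]
    · have : (q ^ 2) ^ M = ∏ k ∈ range M, q ^ 2 := by rw [Finset.prod_const, card_range]
      rw [this, ← Finset.prod_mul_distrib]
      have : (z 0 ^ 2) ^ M = ∏ k ∈ range M, z 0 ^ 2 := by rw [Finset.prod_const, card_range]
      rw [this, ← Finset.prod_pow, ← Finset.prod_mul_distrib, ← Finset.prod_mul_distrib]
      refine Finset.prod_congr rfl fun k hk => ?_
      have hk := hk0 k (mem_range.1 hk)
      rw [inv_sub_sq hk hz0]
      field_simp
    · refine mul_ne_zero (pow_ne_zero _ ?_) (pow_ne_zero _ (pow_ne_zero _ hz0))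
      exact Finset.prod_ne_zero_iff.2 fun k hk => hk0 k (mem_range.1 hk)
  rw [eD]
  set Z := ∏ k ∈ range M, z (k + 1) with hZ
  set D := ∏ k ∈ range M, (z (k + 1) - q ^ 2 * z 0) ^ 2 with hD
  set T := TM M [z 0, a, b0, b1] fun n => z (n + 1) with hT
  have hZ0 : Z ≠ 0 := by
    rw [hZ]
    exact Finset.prod_ne_zero_iff.2 fun k hk => hk0 k (mem_range.1 hk)
  have e1 : ∀ b : ℂ, q * b - q ^ 2 * (q * z 0) = q * (b - q ^ 2 * z 0) := fun b => by ring
  have e2 : q * z 0 - q ^ 2 * a = -q ^ 2 * (a - q ^ 2 * z 0) := by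
    linear_combination (- q * z 0) * q_cube
  rw [e1 b0, e1 b1, e2]
  have hQ : (q ^ M) ^ 3 = 1 := by rw [← pow_mul, mul_comm, pow_mul, q_cube, one_pow]
  have hQ0 : q ^ M ≠ 0 := pow_ne_zero _ q_ne_zero
  have h30 : (3 : ℂ) ^ M ≠ 0 := three_ne M
  have h31 : (3 : ℂ) ^ (ee M) ≠ 0 := three_ne _
  have hq := q_ne_zero
  have hK : ∀ K : ℂ, (q - 1) ^ 2 * K = -(3 * q ^ 7 * (q ^ M) ^ 3 * K) := by
    intro K
    linear_combination K * q_sq + 3 * q * K * (q ^ M) ^ 3 * (q ^ 3 + 1) * q_cube + 3 * q * K * hQ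
  field_simp
  linear_combination hK (b0 ^ 2 * b1 ^ 2 * (b0 - q * b1) * z 0 ^ 6 * (b0 - q ^ 2 * z 0) ^ 2 *
    (b1 - q ^ 2 * z 0) ^ 2 * (a - q ^ 2 * z 0) * D * T * Z ^ 2 * (z 0 ^ 2) ^ M * 3 ^ (M + 2) *
    3 ^ ee M * (b0 * b1 * Z) ^ (M + 1))

/-- B4 -/
lemma R13_left (M : ℕ) (a b0 b1 : ℂ) (z : ℕ → ℂ) (hz : Gen (M + 1) z) (h0 : b0 ≠ 0)
    (h1 : b1 ≠ 0) :
    R13 (M + 1) a (q ^ 2 * z M) b0 b1 z =
      (-q * (q ^ 2 * z M)⁻¹ * ((∏ s ∈ range M, ((z s)⁻¹ - q * (q ^ 2 * z M)⁻¹) ^ 2) *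
        (b1⁻¹ - q * (q ^ 2 * z M)⁻¹) ^ 2 * (b0⁻¹ - q * (q ^ 2 * z M)⁻¹) ^ 2) /
        3 ^ (M + 2)) * R22 M (z M) a b0 b1 z := by
  have hz0 : z M ≠ 0 := hz.1 M (by omega)
  have hk0 : ∀ k, k < M → z k ≠ 0 := fun k hk => hz.1 _ (by omega)
  have hq := q_ne_zero
  have hqz : q ^ 2 * z M ≠ 0 := mul_ne_zero (pow_ne_zero _ hq) hz0
  unfold R22 R13
  rw [TM_perm (c := [b1, a, q ^ 2 * z M, b0]) (c' := [q ^ 2 * z M, a, b0, b1])
      (by
        rw [List.perm_iff_count]
        intro x
        simp only [List.count_cons, List.count_nil]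
        ring),
    TM_rec1_last M _ z hz, Finset.prod_range_succ, qi, inv_sub_sq h0 hqz, inv_sub_sq h1 hqz,
    TM_perm (c := [a, z M, b0, b1]) (c' := [z M, a, b0, b1]) (List.Perm.swap _ _ _)]
  simp only [lg_cons, lg_nil, ee]
  have e0 : ∀ x : ℂ, x - q ^ 2 * (q ^ 2 * z M) = x - q * z M := fun x => by
    linear_combination (- q * z M) * q_cube
  have eD : (∏ s ∈ range M, ((z s)⁻¹ - q * (q ^ 2 * z M)⁻¹) ^ 2) =
      (q ^ 2) ^ M * (∏ k ∈ range M, (z k - q * z M) ^ 2) /
        ((∏ k ∈ range M, z k) ^ 2 * ((q ^ 2 * z M) ^ 2) ^ M) := by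
    rw [eq_div_iff]
    · have : (q ^ 2) ^ M = ∏ k ∈ range M, q ^ 2 := by rw [Finset.prod_const, card_range]
      rw [this, ← Finset.prod_mul_distrib]
      have : ((q ^ 2 * z M) ^ 2) ^ M = ∏ k ∈ range M, (q ^ 2 * z M) ^ 2 := by
        rw [Finset.prod_const, card_range]
      rw [this, ← Finset.prod_pow, ← Finset.prod_mul_distrib, ← Finset.prod_mul_distrib]
      refine Finset.prod_congr rfl fun k hk => ?_
      have hk := hk0 k (mem_range.1 hk)
      rw [inv_sub_sq hk hqz, e0]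
      field_simp
    · refine mul_ne_zero (pow_ne_zero _ ?_) (pow_ne_zero _ (pow_ne_zero _ hqz))
      exact Finset.prod_ne_zero_iff.2 fun k hk => hk0 k (mem_range.1 hk)
  rw [eD, e0, e0]
  set Z := ∏ k ∈ range M, z k with hZ
  set D := ∏ k ∈ range M, (z k - q * z M) ^ 2 with hD
  set T := TM M [z M, a, b0, b1] z with hT
  have hZ0 : Z ≠ 0 := by
    rw [hZ]
    exact Finset.prod_ne_zero_iff.2 fun k hk => hk0 k (mem_range.1 hk)
  have e1 : ∀ b : ℂ, q * (q ^ 2 * z M) - q ^ 2 * b = -q ^ 2 * (b - q * z M) := fun b => by ring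
  have e2 : q * a - q ^ 2 * z M = q * (a - q * z M) := by ring
  rw [e1 b0, e1 b1, e2]
  have hQ : (q ^ M) ^ 3 = 1 := by rw [← pow_mul, mul_comm, pow_mul, q_cube, one_pow]
  have hQ0 : q ^ M ≠ 0 := pow_ne_zero _ q_ne_zero
  have h30 : (3 : ℂ) ^ M ≠ 0 := three_ne M
  have h31 : (3 : ℂ) ^ (ee M) ≠ 0 := three_ne _
  field_simp
  have hK : ∀ K : ℂ, -(q ^ 9 * (q - 1) * (1 - q ^ 2) * (q ^ M) ^ 4 * K) =
      3 * q ^ 6 * (q ^ M) ^ 4 * K := by
    intro K
    linear_combination (-(q ^ 9 * (q ^ M) ^ 4 * K)) * q_sq +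
      (q ^ 6 * (q ^ 3 + 3) * (q ^ M) ^ 4 * K) * q_cube
  linear_combination hK (b0 ^ 2 * z M ^ 6 * (b0 - q * z M) ^ 2 * b1 ^ 2 * (b1 - q * z M) ^ 2 *
    (b0 - q * b1) * (a - q * z M) * D * T * Z ^ 2 * (z M ^ 2) ^ M * 3 ^ (M + 2) * 3 ^ ee M *
    (b0 * b1 * Z) ^ (M + 1))

end H56.EX

end

section

/-!
# Lower bounds for the influence of an edge of the torus
-/

open MeasureTheory ProbabilityTheory unitInterval

namespace Pool.Agent.H26.ST

open Pool.Agent.H89.Perc Pool.Agent.H61.NC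

theorem le_sT {N : ℕ} (hN : 1 ≤ N) {q : I} {d : Bool} {E : Set Config}
    (hE : ∀ ω ∈ E, Function.update ω (0, 0, d) true ∈ Wind N ∧
      Function.update ω (0, 0, d) false ∉ Wind N) : Pr q E ≤ sT q N d := by
  have h0 : ((0, 0, d) : Edge) ∈ tEdges N := by
    simp only [tEdges, Finset.mem_product, Finset.mem_Ico, Finset.mem_univ, and_true]
    omega
  have h1 : sT q N d = pivot q (Wind N) (0, 0, d) := pivot_wind hN q (ctr_mem hN d) h0 rfl
  rw [h1]
  have hl : ∀ b : Bool, LocalOn (tEdges N) {ω | Function.update ω (0, 0, d) b ∈ Wind N} := by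
    intro b ω ω' hω h2
    refine localOn_wind hN _ _ (fun f hf => ?_) h2
    by_cases hfe : f = (0, 0, d)
    · subst hfe; simp
    · simp only [Function.update_of_ne hfe]; exact hω f hf
  have hsub : {ω | Function.update ω (0, 0, d) false ∈ Wind N} ⊆
      {ω | Function.update ω (0, 0, d) true ∈ Wind N} := by
    intro ω hω
    refine incr_wind N _ _ ?_ hω
    intro e he
    by_cases h : e = (0, 0, d)
    · subst h; simp
    · rw [Function.update_of_ne h] at he ⊢
      exact he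
  have h2 : Pr q ({ω | Function.update ω (0, 0, d) true ∈ Wind N} \
      {ω | Function.update ω (0, 0, d) false ∈ Wind N}) = pivot q (Wind N) (0, 0, d) :=
    measureReal_sdiff hsub (hl false).measurableSet
  rw [← h2]
  exact Pr_mono fun ω hω => ⟨(hE ω hω).1, (hE ω hω).2⟩

end Pool.Agent.H26.ST

end
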