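import Pool.Agent.H31.PT.H59.EX.Iter
import Pool.Agent.H31.PT.M22
import Pool.Agent.H31.PT.M33
import Pool.Agent.H31.PT.M35
import Pool.Agent.H31.PT.M36

/-! The parts of this file: H90.NC.ArmMain, H83.EX.Exit, H47.EX.CylDet, H47.EX.CylProb, H56.EX.Recs, H56.EX.Main, H56.EX.Top, H56.EX.All, H34.Hom.P4, H34.Hom.Final, H89.EX.FourExp, H47.EX.CylMain, H47.EX.UpA4, H26.ST.Prob, H26.ST.Ext, H26.ST.Final. -/

section

/-!
# Stability of the one-arm probability in the near-critical window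
-/

open MeasureTheory ProbabilityTheory unitInterval

namespace Pool.Agent.H61.NC

open Pool.Agent.H89.Perc

theorem pivot_nonneg_of {q : I} {A : Set Config} (iA : Incr A) (e : Edge) : 0 ≤ pivot q A e := by
  unfold pivot
  refine sub_nonneg.2 (Pr_mono fun ω hω => iA _ _ (fun x hx => ?_) hω)
  by_cases hxe : x = e
  · subst hxe; simp
  · rw [Function.update_of_ne hxe] at hx ⊢; exact hx

/-- The derivative of the probability of `W0` is bounded by this probability times a sum of four-arm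
probabilities. -/
theorem deriv_W0 : ∀ c : ℝ, 0 < c → ∃ C : ℝ, 0 < C ∧
    ∀ (N : ℕ) (q : I) (S : ℝ), 64 ≤ N → 1 / 4 ≤ (q : ℝ) → RSWreg c N q → 1 ≤ S →
      ∑ t ∈ Finset.Icc 1 N, (t : ℝ) * a4 q t ≤ S → (N : ℝ) ^ 2 * a4 q (N / 64) ≤ S →
      ∑ f ∈ tEdges N, pivot q (W0 N) f ≤ C * Pr q (W0 N) * S := by
  classical
  intro c hc
  obtain ⟨E, hE, hext⟩ := arm_ext_reg c hc 64
  refine ⟨1800 + 1920 * (E * c⁻¹ ^ 4) + 2 * (E * c⁻¹ ^ 5),
    by positivity, fun N q S hN hq1 hR hS1 hsum hS2 => ?_⟩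
  have hNpos : (0 : ℝ) < N := by exact_mod_cast (by omega : 0 < N)
  have hN1 : 1 ≤ N := by omega
  obtain ⟨P, hP⟩ : ∃ P, P = Pr q (W0 N) := ⟨_, rfl⟩
  have hP0 : 0 ≤ P := by rw [hP]; exact Pr_nonneg
  rw [← hP]
  obtain ⟨g, hg⟩ : ∃ g, g = a4 q (N / 64) := ⟨_, rfl⟩
  have hg0 : 0 ≤ g := by rw [hg]; exact a4_nonneg _ _
  rw [← hg] at hS2
  have hcinv : ∀ (k : ℕ) (x y : ℝ), x * c ^ k ≤ y → x ≤ c⁻¹ ^ k * y := by
    intro k x y h
    rw [inv_pow, ← div_eq_inv_mul, le_div_iff₀ (by positivity)]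
    exact h
  -- bound of one term
  have hterm : ∀ f ∈ tEdges N, pivot q (W0 N) f ≤
      (if dist0 N f < 8 then 4 * P else 0) +
      (if 8 ≤ dist0 N f then E * c⁻¹ ^ 4 * P * a4 q (dist0 N f / 8) else 0) +
        E * c⁻¹ ^ 5 * P * g := by
    intro f hf
    have ha := a4_nonneg q (dist0 N f / 8)
    have hz : 0 ≤ E * c⁻¹ ^ 5 * P * g := by positivity
    by_cases h8 : dist0 N f < 8
    · rw [if_pos h8, if_neg (by omega)]
      have k1 := pivot_W0_small hN1 hq1 f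
      rw [← hP] at k1
      linarith
    · rw [if_neg h8, if_pos (by omega)]
      obtain ⟨t, ht⟩ : ∃ t, t = dist0 N f := ⟨_, rfl⟩
      rw [← ht] at ha h8 ⊢
      by_cases hnear : 8 * t < N
      · have k1 := pivot_W0_near q (ρ := t / 8) (ρ' := t / 8) (R := 2 * t - 1) hf (by omega)
          (by omega) (by omega) (by omega)
        have k2 := armGlue (q := q) hc.le (m := 2 * t) (R := 2 * t - 1) hR (by omega) (by omega)
        have k3 := hext N q (t / 8) (2 * (2 * t)) hR hq1 (by omega) (by omega) (by omega)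
        rw [← hP] at k2
        have k4 := hcinv 4 _ _ k2
        have k5 : arm q (t / 8) * Pr q (OutArm N (2 * t - 1)) ≤ E * c⁻¹ ^ 4 * P := by
          calc arm q (t / 8) * Pr q (OutArm N (2 * t - 1))
              ≤ E * arm q (2 * (2 * t)) * Pr q (OutArm N (2 * t - 1)) :=
                mul_le_mul_of_nonneg_right k3 Pr_nonneg
            _ = E * (arm q (2 * (2 * t)) * Pr q (OutArm N (2 * t - 1))) := by ring
            _ ≤ E * (c⁻¹ ^ 4 * P) := mul_le_mul_of_nonneg_left k4 hE.le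
            _ = _ := by ring
        have k6 := mul_le_mul_of_nonneg_left k5 ha
        have k7 : a4 q (t / 8) * (E * c⁻¹ ^ 4 * P) = E * c⁻¹ ^ 4 * P * a4 q (t / 8) := by ring
        linarith
      · have k1 := pivot_W0_far q (ρ := N / 64) (ρ' := N / 64) hf (by omega) (by omega)
        have k3 := W0_lower (q := q) hc.le (m := (N - 1) / 4) hR (by omega) (by omega) (by omega)
        have k4 := hext N q (N / 64) (2 * ((N - 1) / 4)) hR hq1 (by omega) (by omega) (by omega)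
        rw [← hP] at k3
        rw [← hg] at k1
        have k5 := hcinv 5 _ _ k3
        have k6 : arm q (N / 64) ≤ E * c⁻¹ ^ 5 * P := by
          calc arm q (N / 64) ≤ E * arm q (2 * ((N - 1) / 4)) := k4
            _ ≤ E * (c⁻¹ ^ 5 * P) := mul_le_mul_of_nonneg_left k5 hE.le
            _ = _ := by ring
        have k7 : g * arm q (N / 64) ≤ g * (E * c⁻¹ ^ 5 * P) :=
          mul_le_mul_of_nonneg_left k6 hg0
        have k8 : 0 ≤ E * c⁻¹ ^ 4 * P * a4 q (t / 8) := by positivity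
        have k9 : g * (E * c⁻¹ ^ 5 * P) = E * c⁻¹ ^ 5 * P * g := by ring
        linarith
  have p1 : ∑ f ∈ tEdges N, (if dist0 N f < 8 then 4 * P else 0) ≤ 1800 * P := by
    rw [← Finset.sum_filter, Finset.sum_const, nsmul_eq_mul]
    have k := Sum_card_small N
    nlinarith
  have p2 : ∑ f ∈ tEdges N, (if 8 ≤ dist0 N f then
      E * c⁻¹ ^ 4 * P * a4 q (dist0 N f / 8) else 0) ≤
      1920 * (E * c⁻¹ ^ 4) * P * S := by
    rw [← Finset.sum_filter, ← Finset.mul_sum]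
    have k1 := Sum_by_dist N (fun t => a4 q (t / 8)) (fun t => a4_nonneg q _)
    have k2 := Sum_eight N (fun t => a4 q t) (fun t => a4_nonneg q _)
    have k3 : ∑ t ∈ Finset.Icc 8 N, 16 * (t : ℝ) * a4 q (t / 8) =
        16 * ∑ t ∈ Finset.Icc 8 N, (t : ℝ) * a4 q (t / 8) := by
      rw [Finset.mul_sum]
      exact Finset.sum_congr rfl fun t _ => by ring
    have k4 : ∑ f ∈ (tEdges N).filter (fun f => 8 ≤ dist0 N f), a4 q (dist0 N f / 8) ≤
        1920 * S := by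
      refine k1.trans ?_
      rw [k3]
      linarith
    calc E * c⁻¹ ^ 4 * P * ∑ f ∈ (tEdges N).filter (fun f => 8 ≤ dist0 N f), a4 q (dist0 N f / 8)
        ≤ E * c⁻¹ ^ 4 * P * (1920 * S) :=
          mul_le_mul_of_nonneg_left k4 (by positivity)
      _ = _ := by ring
  have p3 : ∑ _f ∈ tEdges N, E * c⁻¹ ^ 5 * P * g = 2 * (E * c⁻¹ ^ 5) * P * ((N : ℝ) ^ 2 * g) := by
    rw [Finset.sum_const, nsmul_eq_mul, Sum_card_tEdges]
    ring
  have p3' : 2 * (E * c⁻¹ ^ 5) * P * ((N : ℝ) ^ 2 * g) ≤ 2 * (E * c⁻¹ ^ 5) * P * S :=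
    mul_le_mul_of_nonneg_left hS2 (by positivity)
  have p4 : 1800 * P ≤ 1800 * P * S := le_mul_of_one_le_right (by positivity) hS1
  calc ∑ f ∈ tEdges N, pivot q (W0 N) f
      ≤ ∑ f ∈ tEdges N, ((if dist0 N f < 8 then 4 * P else 0) +
        (if 8 ≤ dist0 N f then E * c⁻¹ ^ 4 * P * a4 q (dist0 N f / 8) else 0) +
        E * c⁻¹ ^ 5 * P * g) := Finset.sum_le_sum hterm
    _ = ∑ f ∈ tEdges N, (if dist0 N f < 8 then 4 * P else 0) +
        ∑ f ∈ tEdges N, (if 8 ≤ dist0 N f then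
          E * c⁻¹ ^ 4 * P * a4 q (dist0 N f / 8) else 0) +
        ∑ _f ∈ tEdges N, E * c⁻¹ ^ 5 * P * g := by
        rw [Finset.sum_add_distrib, Finset.sum_add_distrib]
    _ ≤ 1800 * P * S + 1920 * (E * c⁻¹ ^ 4) * P * S + 2 * (E * c⁻¹ ^ 5) * P * S := by
        rw [p3]
        linarith
    _ = _ := by ring

/-- A lower bound shows that the probability of `W0` is positive. -/
theorem W0_pos {c : ℝ} (hc : 0 < c) {q : I} {N : ℕ} (hN : 64 ≤ N) (hq : 1 / 4 ≤ (q : ℝ))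
    (hR : RSWreg c N q) : 0 < Pr q (W0 N) := by
  have k1 := W0_lower (q := q) hc.le (m := (N - 1) / 4) hR (by omega) (by omega)
    (by omega)
  have k2 := arm_ge_pow (q := q) hq (le_refl (2 * ((N - 1) / 4)))
  have k3 : 0 < arm q (2 * ((N - 1) / 4)) := lt_of_lt_of_le (by positivity) k2
  exact lt_of_lt_of_le (by positivity) k1

/-- Stability of the probability of `W0`, abstract form: `F` is a function with values in `[0, 1]`
whose derivative dominates the sums of four-arm probabilities. -/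
theorem W0_stability : ∀ c : ℝ, 0 < c → ∃ C : ℝ, 0 < C ∧
    ∀ (N : ℕ) (q₀ q₁ : I) (F F' : ℝ → ℝ), 64 ≤ N → q₀ ≤ q₁ → 1 / 4 ≤ (q₀ : ℝ) →
      (∀ x ∈ Set.Icc (q₀ : ℝ) q₁, HasDerivAt F (F' x) x) →
      (∀ x ∈ Set.Icc (q₀ : ℝ) q₁, 0 ≤ F x ∧ F x ≤ 1) → ∀ B : ℝ, 0 < B →
      (∀ q : I, q₀ ≤ q → q ≤ q₁ → RSWreg c N q ∧ 1 ≤ B * F' q ∧
        ∑ t ∈ Finset.Icc 1 N, (t : ℝ) * a4 q t ≤ B * F' q ∧
        (N : ℝ) ^ 2 * a4 q (N / 64) ≤ B * F' q) →
      Pr q₁ (W0 N) ≤ Real.exp (C * B) * Pr q₀ (W0 N) := by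
  intro c hc
  obtain ⟨C, hC, H⟩ := deriv_W0 c hc
  refine ⟨C, hC, fun N q₀ q₁ F F' hN h01 h0 hF hF01 B hB hR => ?_⟩
  have hN1 : 1 ≤ N := by omega
  have hloc0 := localOn_W0 hN1
  have hle : (q₀ : ℝ) ≤ q₁ := h01
  have hmem : ∀ x ∈ Set.Icc (q₀ : ℝ) q₁, ∃ q : I, (q : ℝ) = x ∧ q₀ ≤ q ∧ q ≤ q₁ ∧
      1 / 4 ≤ (q : ℝ) := by
    intro x hx
    refine ⟨⟨x, q₀.2.1.trans hx.1, hx.2.trans q₁.2.2⟩, rfl, hx.1, hx.2, ?_⟩
    exact h0.trans hx.1
  have key := log_stability (F := F) (F' := F')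
    (G := PrR (tEdges N) (W0 N)) (G' := PrR' (tEdges N) (W0 N)) (K := C * B) hle
    (mul_nonneg hC.le hB.le) hF ?_ ?_ ?_ hF01
  · rw [Pr_eq_PrR hloc0, Pr_eq_PrR hloc0]
    exact key.1
  · intro x hx
    obtain ⟨q, rfl, -⟩ := hmem x hx
    exact hasDerivAt_PrR_eq hloc0 q
  · intro x hx
    obtain ⟨q, rfl, g1, g2, g3⟩ := hmem x hx
    rw [← Pr_eq_PrR hloc0]
    exact W0_pos hc hN g3 (hR q g1 g2).1
  · intro x hx
    obtain ⟨q, rfl, g1, g2, g3⟩ := hmem x hx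
    obtain ⟨j1, j2, j3, j4⟩ := hR q g1 g2
    rw [PrR'_eq hloc0, ← Pr_eq_PrR hloc0,
      abs_of_nonneg (Finset.sum_nonneg fun e _ => pivot_nonneg_of (incr_W0 N) e)]
    refine (H N q _ hN g3 j1 j2 j3 j4).trans (le_of_eq ?_)
    ring

/-- From the stability of `W0` to the stability of the one-arm probability. -/
theorem arm_of_W0 : ∀ c : ℝ, 0 < c → ∃ C : ℝ, 0 < C ∧ ∀ (N : ℕ) (q₀ q₁ : I) (K : ℝ), 0 ≤ K →
    1 / 4 ≤ (q₀ : ℝ) → RSWreg c N q₀ → RSWreg c N q₁ →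
    (64 ≤ N → Pr q₁ (W0 N) ≤ K * Pr q₀ (W0 N)) → arm q₁ N ≤ (C * (K + 1)) * arm q₀ N := by
  intro c hc
  obtain ⟨E, hE, hext⟩ := arm_ext_reg c hc 64
  refine ⟨c⁻¹ ^ 5 * E + 4 ^ 64, by positivity, fun N q₀ q₁ K hK h0 hR0 hR1 H => ?_⟩
  have ha : 0 ≤ arm q₀ N := arm_nonneg
  have e1 : (c⁻¹ ^ 5 * E + 4 ^ 64) * (K + 1) * arm q₀ N =
      c⁻¹ ^ 5 * K * E * arm q₀ N + c⁻¹ ^ 5 * E * arm q₀ N + K * (4 ^ 64 * arm q₀ N) +
        4 ^ 64 * arm q₀ N := by ring
  have e2 : 0 ≤ c⁻¹ ^ 5 * K * E * arm q₀ N := by positivity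
  have e3 : 0 ≤ c⁻¹ ^ 5 * E * arm q₀ N := by positivity
  have e4 : 0 ≤ K * (4 ^ 64 * arm q₀ N) := by positivity
  have e5 : 0 ≤ 4 ^ 64 * arm q₀ N := by positivity
  by_cases hN : N < 64
  · have k1 := arm_ge_pow (q := q₀) h0 hN.le
    have k2 : 1 ≤ 4 ^ 64 * arm q₀ N := by
      calc (1 : ℝ) = 4 ^ 64 * (1 / 4 : ℝ) ^ 64 := by norm_num
        _ ≤ _ := mul_le_mul_of_nonneg_left k1 (by positivity)
    have k3 := arm_le_one (p := q₁) (r := N)
    linarith
  · push Not at hN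
    have k1 := W0_lower (q := q₁) hc.le (m := (N - 1) / 4) hR1 (by omega) (by omega) (by omega)
    have k2 : arm q₁ (2 * ((N - 1) / 4)) ≤ c⁻¹ ^ 5 * Pr q₁ (W0 N) := by
      rw [inv_pow, ← div_eq_inv_mul, le_div_iff₀ (by positivity)]
      exact k1
    have k3 : arm q₁ N ≤ arm q₁ (2 * ((N - 1) / 4)) := arm_antitone (by omega)
    have k4 := H hN
    have k5 : Pr q₀ (W0 N) ≤ arm q₀ ((N - 1) / 2) := W0_upper (by omega)
    have k6 := hext N q₀ ((N - 1) / 2) N hR0 h0 (by omega) (by omega) le_rfl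
    have k7 : arm q₁ N ≤ c⁻¹ ^ 5 * K * E * arm q₀ N := by
      calc arm q₁ N ≤ c⁻¹ ^ 5 * Pr q₁ (W0 N) := k3.trans k2
        _ ≤ c⁻¹ ^ 5 * (K * Pr q₀ (W0 N)) := by gcongr
        _ ≤ c⁻¹ ^ 5 * (K * arm q₀ ((N - 1) / 2)) := by gcongr
        _ ≤ c⁻¹ ^ 5 * (K * (E * arm q₀ N)) := by gcongr
        _ = c⁻¹ ^ 5 * K * E * arm q₀ N := by ring
    linarith

/-- Stability of the one-arm probability with the torus interfaces: no window is needed. -/
theorem arm_stability_torus (hGL : GLTorus) (hBL : BlockLow) : ∀ c : ℝ, 0 < c → ∃ K : ℝ, 0 < K ∧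
    ∀ (N : ℕ) (q₀ q₁ : I), q₀ ≤ q₁ → 1 / 4 ≤ (q₀ : ℝ) → (q₁ : ℝ) ≤ 3 / 4 →
      (∀ q : I, q₀ ≤ q → q ≤ q₁ → RSWreg c N q) → arm q₁ N ≤ K * arm q₀ N := by
  intro c hc
  obtain ⟨C, hC, H⟩ := W0_stability c hc
  obtain ⟨C', hC', H'⟩ := arm_of_W0 c hc
  obtain ⟨C3, hC3, h3⟩ := a4_le_sT hGL hBL c hc
  obtain ⟨C4, hC4, h4⟩ := sum_a4 hGL hBL c hc
  obtain ⟨B, hB⟩ : ∃ B : ℝ, B = 4 ^ 24 * C4 + C4 + C3 := ⟨_, rfl⟩
  have hBpos : 0 < B := by rw [hB]; positivity
  refine ⟨C' * (Real.exp (C * B) + 1), by positivity, fun N q₀ q₁ h01 h0 h1 hR => ?_⟩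
  refine H' N q₀ q₁ (Real.exp (C * B)) (Real.exp_pos _).le h0 (hR q₀ le_rfl h01)
    (hR q₁ h01 le_rfl) fun hN => ?_
  have hN1 : 1 ≤ N := by omega
  have hlocW := localOn_wind hN1
  have hle : (q₀ : ℝ) ≤ q₁ := h01
  have hmem : ∀ x ∈ Set.Icc (q₀ : ℝ) q₁, ∃ q : I, (q : ℝ) = x := fun x hx =>
    ⟨⟨x, q₀.2.1.trans hx.1, hx.2.trans q₁.2.2⟩, rfl⟩
  refine H N q₀ q₁ (PrR (tEdges N) (Wind N)) (PrR' (tEdges N) (Wind N)) hN h01 h0 ?_ ?_ B hBpos ?_
  · intro x hx
    obtain ⟨q, rfl⟩ := hmem x hx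
    exact hasDerivAt_PrR_eq hlocW q
  · intro x hx
    obtain ⟨q, rfl⟩ := hmem x hx
    rw [← Pr_eq_PrR hlocW]
    exact ⟨Pr_nonneg, Pr_le_one⟩
  · intro q hq0 hq1
    have hq0' : (q₀ : ℝ) ≤ q := hq0
    have hq1' : (q : ℝ) ≤ q₁ := hq1
    have hreg := hR q hq0 hq1
    have hs := sT_nonneg q N false
    have hs' := sT_nonneg q N true
    have hsum := h4 N q false hN hreg
    have k1 := a4_one q (by linarith) (by linarith)
    have k2 : a4 q 1 ≤ ∑ t ∈ Finset.Icc 1 N, (t : ℝ) * a4 q t := by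
      have k3 := Finset.single_le_sum (f := fun t : ℕ => (t : ℝ) * a4 q t)
        (fun t _ => mul_nonneg (Nat.cast_nonneg t) (a4_nonneg q t))
        (Finset.mem_Icc.2 ⟨le_rfl, hN1⟩ : 1 ∈ Finset.Icc 1 N)
      simpa using k3
    rw [PrR'_eq hlocW, sum_pivot hN1]
    obtain ⟨T, hT⟩ : ∃ T, T = (N : ℝ) ^ 2 * sT q N false := ⟨_, rfl⟩
    rw [← hT] at hsum
    have hT0 : 0 ≤ T := by rw [hT]; positivity
    have hT1 : T ≤ (N : ℝ) ^ 2 * (sT q N false + sT q N true) := by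
      rw [hT]
      exact mul_le_mul_of_nonneg_left (by linarith) (by positivity)
    have hBT : B * T ≤ B * ((N : ℝ) ^ 2 * (sT q N false + sT q N true)) :=
      mul_le_mul_of_nonneg_left hT1 hBpos.le
    have e1 : B * T = 4 ^ 24 * C4 * T + C4 * T + C3 * T := by rw [hB]; ring
    have z1 : 0 ≤ 4 ^ 24 * C4 * T := by positivity
    have z2 : 0 ≤ C4 * T := by positivity
    have z3 : 0 ≤ C3 * T := by positivity
    refine ⟨hreg, ?_, ?_, ?_⟩
    · have k4 : (1 / 4 : ℝ) ^ 24 ≤ C4 * T := k1.trans (k2.trans hsum)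
      have k5 : (1 : ℝ) ≤ 4 ^ 24 * C4 * T := by
        calc (1 : ℝ) = 4 ^ 24 * (1 / 4 : ℝ) ^ 24 := by norm_num
          _ ≤ 4 ^ 24 * (C4 * T) := mul_le_mul_of_nonneg_left k4 (by norm_num)
          _ = _ := by ring
      linarith
    · linarith
    · have k6 := mul_le_mul_of_nonneg_left (h3 N q false hN hreg) (sq_nonneg (N : ℝ))
      have k7 : (N : ℝ) ^ 2 * (C3 * sT q N false) = C3 * T := by rw [hT]; ring
      linarith

end Pool.Agent.H61.NC

end

section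

/-!
# The characteristic length

`Len δ p` is the first scale `m` at which the square of side `4 m` is crossed with probability at
least `1 - δ`.  Up to a multiple of this length the box-crossing property holds for all densities
between `1 - p` and `p`, and beyond it the percolation probability and the mean cluster size are
computed by the one-arm probability at `1 / 2`.
-/

open MeasureTheory ProbabilityTheory unitInterval Filter Topology
open scoped ENNReal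

namespace Pool.Agent.H83.EX

open Pool.Agent.H89.Perc Pool.Agent.H61.NC Pool.Agent.H31.EX

lemma half_val : ((half : I) : ℝ) = 1 / 2 := rfl

lemma Good.mono {δ δ' : ℝ} (h : δ ≤ δ') {p : I} {m : ℕ} (hg : Good δ p m) : Good δ' p m := by
  unfold Good at hg ⊢
  linarith

/-- The characteristic length. -/
noncomputable def Len (δ : ℝ) (p : I) : ℕ := sInf {m : ℕ | 1 ≤ m ∧ Good δ p m}

lemma Len_spec {δ : ℝ} {p : I} (h : ∃ m : ℕ, 1 ≤ m ∧ Good δ p m) :
    1 ≤ Len δ p ∧ Good δ p (Len δ p) := Nat.sInf_mem h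

lemma not_good_of_lt {δ : ℝ} {p : I} {m : ℕ} (hm : 1 ≤ m) (h : m < Len δ p) : ¬ Good δ p m :=
  fun hg => Nat.notMem_of_lt_sInf h ⟨hm, hg⟩

lemma le_Len {δ : ℝ} {p : I} {m₀ : ℕ} (h : ∃ m : ℕ, 1 ≤ m ∧ Good δ p m)
    (hb : ∀ m : ℕ, 1 ≤ m → m < m₀ → ¬ Good δ p m) : m₀ ≤ Len δ p := by
  by_contra hlt
  push Not at hlt
  exact hb _ (Len_spec h).1 hlt (Len_spec h).2

lemma rsw_anti {c : ℝ} {n m : ℕ} {q : I} (h : RSWreg c n q) (hm : m ≤ n) : RSWreg c m q :=
  fun k hk hkm => h k hk (hkm.trans hm)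

lemma sigma_le_half {p : I} (hp : half ≤ p) : σ p ≤ half := by
  have h : ((half : I) : ℝ) ≤ (p : ℝ) := hp
  change (1 - (p : ℝ)) ≤ ((half : I) : ℝ)
  rw [half_val] at h ⊢
  linarith

/-- The box-crossing property up to a multiple of the first good scale. -/
theorem reg_of_bad : ∀ δ > (0 : ℝ), ∀ K : ℕ, ∃ c > (0 : ℝ), ∀ p : I, half ≤ p → ∀ n : ℕ, 2 ≤ n →
    (∀ m : ℕ, 1 ≤ m → m < n → ¬ Good δ p m) → ∀ q : I, σ p ≤ q → q ≤ p → RSWreg c (K * n) q := by
  intro δ hδ K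
  obtain ⟨c, hc, H⟩ := rswreg_of_bad δ hδ (2 * K)
  refine ⟨c, hc, fun p hp n hn hb q h1 h2 => ?_⟩
  have h3 := H p hp (n - 1) (by omega) (fun m hm hmn => by
    have := hb m hm (by omega)
    unfold Good at this
    linarith) q h1 h2
  refine rsw_anti h3 ?_
  obtain ⟨k, rfl⟩ : ∃ k, n = k + 2 := ⟨n - 2, by omega⟩
  have : k + 2 - 1 = k + 1 := by omega
  rw [this]
  nlinarith

/-- No scale is good at `1 / 2`. -/
theorem exists_bad_half : ∃ δ > (0 : ℝ), ∀ m : ℕ, 1 ≤ m → ¬ Good δ half m := by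
  obtain ⟨δ, hδ, c, hc, H⟩ := wind_gap
  refine ⟨δ, hδ, fun m hm hg => ?_⟩
  have h1 := H half le_rfl m hm hg
  linarith

/-- Continuity: small scales are bad near `1 / 2`. -/
theorem bad_near {δ : ℝ} (hbad : ∀ m : ℕ, 1 ≤ m → ¬ Good δ half m) (m₀ : ℕ) :
    ∃ η > (0 : ℝ), ∀ p : I, half ≤ p → (p : ℝ) < 1 / 2 + η → ∀ m : ℕ, 1 ≤ m → m < m₀ →
      ¬ Good δ p m := by
  induction m₀ with
  | zero => exact ⟨1, one_pos, fun p _ _ m _ hm => absurd hm (by omega)⟩
  | succ k ih =>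
    obtain ⟨η, hη, H⟩ := ih
    by_cases hk : 1 ≤ k
    · have hl := localOn_hcross 0 (4 * (k : ℤ)) 0 (4 * (k : ℤ))
      have h1 : Pr half {ω | HCross ω 0 (4 * k) 0 (4 * k)} < 1 - δ := by
        have := hbad k hk
        unfold Good at this
        linarith
      have h2 : ContinuousAt (PrR (eRect 0 (4 * (k : ℤ)) 0 (4 * (k : ℤ)))
          {ω | HCross ω 0 (4 * k) 0 (4 * k)}) ((half : I) : ℝ) :=
        (hasDerivAt_PrR_eq hl half).continuousAt
      rw [Pr_eq_PrR hl] at h1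
      have h3 := h2.eventually_lt_const h1
      rw [Metric.eventually_nhds_iff] at h3
      obtain ⟨η', hη', h3⟩ := h3
      refine ⟨min η η', lt_min hη hη', fun p hp hp1 m hm hmk => ?_⟩
      rcases Nat.lt_succ_iff_lt_or_eq.1 hmk with h | h
      · exact H p hp (hp1.trans_le (by linarith [min_le_left η η'])) m hm h
      · subst h
        have h4 := h3 (y := (p : ℝ)) (by
          rw [Real.dist_eq, half_val]
          have : ((half : I) : ℝ) ≤ (p : ℝ) := hp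
          rw [half_val] at this
          rw [abs_of_nonneg (by linarith)]
          linarith [min_le_right η η'])
        rw [← Pr_eq_PrR hl] at h4
        unfold Good
        linarith
    · exact ⟨η, hη, fun p hp hp1 m hm hmk => H p hp hp1 m hm (by omega)⟩

theorem theta_le_arm (p : I) (n : ℕ) : theta p ≤ arm p n :=
  le_of_tendsto (tendsto_arm p) (by
    filter_upwards [eventually_ge_atTop n] with r hr
    exact arm_antitone hr)

lemma half_le {p : I} (hp : (1 / 2 : ℝ) < p) : half ≤ p := by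
  change ((half : I) : ℝ) ≤ (p : ℝ)
  rw [half_val]
  exact hp.le

/-- Above `1 / 2` there are good scales. -/
theorem exists_good (hGL : GLTorus) {a : ℝ} (ha : a < 2) (h4 : PN (a4 half) a) {δ : ℝ}
    (hδ : 0 < δ) {p : I} (hp : (1 / 2 : ℝ) < p) (hp1 : (p : ℝ) ≤ 3 / 4) :
    ∃ m : ℕ, 1 ≤ m ∧ Good δ p m := by
  by_contra hno
  push Not at hno
  obtain ⟨c, hc, H⟩ := reg_of_bad δ hδ 1
  obtain ⟨C, hC, HC⟩ := scale_upper hGL blockLow c hc
  have hpI : half ≤ p := half_le hp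
  have hR : ∀ N : ℕ, 2 ≤ N → ∀ q : I, half ≤ q → q ≤ p → RSWreg c N q := fun N hN q h1 h2 => by
    have := H p hpI N hN (fun m hm _ => hno m hm) q ((sigma_le_half hpI).trans h1) h2
    simpa using this
  have h5 : ∀ r : ℕ, 1 ≤ r →
      ((p : ℝ) - 1 / 2) * (((64 * r : ℕ) : ℝ) ^ 2 * a4 half r) ≤ C := by
    intro r hr
    have := HC (64 * r) half p (by omega) hpI (by rw [half_val]; norm_num) hp1
      (fun q h1 h2 => hR _ (by omega) q h1 h2)
    rw [half_val, Nat.mul_div_cancel_left r (by norm_num)] at this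
    exact this
  obtain ⟨n₀, hn₀⟩ := h4 ((2 - a) / 2) (by linarith)
  have h6 : Tendsto (fun r : ℕ => (r : ℝ) ^ ((2 - a) / 2)) atTop atTop :=
    (tendsto_rpow_atTop (by linarith)).comp tendsto_natCast_atTop_atTop
  obtain ⟨r, hr1, hr2, hr3⟩ := ((h6.eventually_gt_atTop (C / ((p : ℝ) - 1 / 2))).and
    ((eventually_ge_atTop n₀).and (eventually_ge_atTop 1))).exists
  have hr0 : (0 : ℝ) < r := by exact_mod_cast hr3
  have h7 := (hn₀ r hr2).1
  have h8 := h5 r hr3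
  have hx : 0 < (p : ℝ) - 1 / 2 := by linarith
  rw [div_lt_iff₀ hx] at hr1
  have h9 : (r : ℝ) ^ 2 * (r : ℝ) ^ (-a - (2 - a) / 2) = (r : ℝ) ^ ((2 - a) / 2) := by
    rw [← Real.rpow_natCast (r : ℝ) 2, ← Real.rpow_add hr0]
    congr 1
    push_cast
    ring
  have h10 : (r : ℝ) ^ ((2 - a) / 2) ≤ (r : ℝ) ^ 2 * a4 half r := by
    rw [← h9]
    exact mul_le_mul_of_nonneg_left h7 (by positivity)
  have h11 : (r : ℝ) ^ 2 * a4 half r ≤ ((64 * r : ℕ) : ℝ) ^ 2 * a4 half r := by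
    push_cast
    have h12 := a4_nonneg half r
    have h13 : (0 : ℝ) ≤ (r : ℝ) ^ 2 * a4 half r := by positivity
    nlinarith
  have h14 : ((p : ℝ) - 1 / 2) * (r : ℝ) ^ ((2 - a) / 2) ≤ C :=
    (mul_le_mul_of_nonneg_left (h10.trans h11) hx.le).trans h8
  linarith

/-- The properties of the characteristic length. -/
theorem length_facts (hGL : GLTorus) {a : ℝ} (ha : a < 2) (h4 : PN (a4 half) a) :
    ∃ δ₀ > (0 : ℝ),
      (∀ n : ℕ, ∃ η > (0 : ℝ), ∀ p : I, (1 / 2 : ℝ) < p → (p : ℝ) < 1 / 2 + η →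
        n ≤ Len δ₀ p ∧ 1 ≤ Len δ₀ p ∧ Good δ₀ p (Len δ₀ p)) ∧
      (∀ K : ℕ, ∃ c > (0 : ℝ), ∃ η > (0 : ℝ), ∀ p : I, (1 / 2 : ℝ) < p → (p : ℝ) < 1 / 2 + η →
        ∀ q : I, σ p ≤ q → q ≤ p → RSWreg c (K * Len δ₀ p) q) ∧
      (∀ ε > (0 : ℝ), ∃ C > (0 : ℝ), ∃ η > (0 : ℝ), ∀ p : I, (1 / 2 : ℝ) < p →
        (p : ℝ) < 1 / 2 + η → ((p : ℝ) - 1 / 2) * (Len δ₀ p : ℝ) ^ ((2 - a) - ε) ≤ C) ∧
      (∀ ε > (0 : ℝ), ∃ c > (0 : ℝ), ∃ η > (0 : ℝ), ∀ p : I, (1 / 2 : ℝ) < p →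
        (p : ℝ) < 1 / 2 + η → c ≤ ((p : ℝ) - 1 / 2) * (Len δ₀ p : ℝ) ^ ((2 - a) + ε)) ∧
      (∃ c > (0 : ℝ), ∃ C > (0 : ℝ), ∃ η > (0 : ℝ), ∀ p : I, (1 / 2 : ℝ) < p →
        (p : ℝ) < 1 / 2 + η → c * arm half (Len δ₀ p) ≤ theta p ∧
          theta p ≤ C * arm half (Len δ₀ p)) ∧
      (∃ c > (0 : ℝ), ∃ C > (0 : ℝ), ∃ η > (0 : ℝ), ∀ p : I, (1 / 2 : ℝ) < p →
        (p : ℝ) < 1 / 2 + η →
        ENNReal.ofReal (c * ((Len δ₀ p : ℝ) ^ 2 * arm half (Len δ₀ p) ^ 2)) ≤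
          Pool.Agent.H85.Gamma.sigma (σ p) ∧
        Pool.Agent.H85.Gamma.sigma (σ p) ≤
          ENNReal.ofReal (C * ((Len δ₀ p : ℝ) ^ 2 * arm half (Len δ₀ p) ^ 2))) := by
  obtain ⟨δ₁, hδ₁, c₁, hc₁, C₁, hC₁, H1⟩ := good_scale
  obtain ⟨δ₂, hδ₂, c₂, hc₂, H2⟩ := wind_gap
  obtain ⟨δ₃, hδ₃, H3⟩ := exists_bad_half
  obtain ⟨δ₀, hδ₀⟩ : ∃ δ₀ : ℝ, δ₀ = min δ₁ (min δ₂ δ₃) := ⟨_, rfl⟩
  have h0 : 0 < δ₀ := by rw [hδ₀]; exact lt_min hδ₁ (lt_min hδ₂ hδ₃)
  have h01 : δ₀ ≤ δ₁ := by rw [hδ₀]; exact min_le_left _ _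
  have h02 : δ₀ ≤ δ₂ := by rw [hδ₀]; exact (min_le_right _ _).trans (min_le_left _ _)
  have h03 : δ₀ ≤ δ₃ := by rw [hδ₀]; exact (min_le_right _ _).trans (min_le_right _ _)
  have hbad : ∀ m : ℕ, 1 ≤ m → ¬ Good δ₀ half m := fun m hm hg => H3 m hm (hg.mono h03)
  -- large length near `1 / 2`
  have hlen : ∀ n : ℕ, ∃ η > (0 : ℝ), η ≤ 1 / 4 ∧ ∀ p : I, (1 / 2 : ℝ) < p →
      (p : ℝ) < 1 / 2 + η → n ≤ Len δ₀ p ∧ 1 ≤ Len δ₀ p ∧ Good δ₀ p (Len δ₀ p) := by
    intro n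
    obtain ⟨η, hη, Hn⟩ := bad_near hbad n
    refine ⟨min η (1 / 4), lt_min hη (by norm_num), min_le_right _ _, fun p hp hp1 => ?_⟩
    have hp2 : (p : ℝ) < 1 / 2 + η := hp1.trans_le (by linarith [min_le_left η (1 / 4 : ℝ)])
    have hp3 : (p : ℝ) ≤ 3 / 4 := hp1.le.trans (by linarith [min_le_right η (1 / 4 : ℝ)])
    have hex := exists_good hGL ha h4 h0 hp hp3
    exact ⟨le_Len hex fun m hm hmn => Hn p (half_le hp) hp2 m hm hmn, Len_spec hex⟩
  -- the box-crossing regime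
  have hreg : ∀ K : ℕ, ∃ c > (0 : ℝ), ∀ p : I, (1 / 2 : ℝ) < p →
      2 ≤ Len δ₀ p → ∀ q : I, σ p ≤ q → q ≤ p → RSWreg c (K * Len δ₀ p) q := by
    intro K
    obtain ⟨c, hc, H⟩ := reg_of_bad δ₀ h0 K
    exact ⟨c, hc, fun p hp h2 => H p (half_le hp) _ h2 fun m hm hml => not_good_of_lt hm hml⟩
  refine ⟨δ₀, h0, fun n => ?_, fun K => ?_, fun ε hε => ?_, fun ε hε => ?_, ?_, ?_⟩
  · obtain ⟨η, hη, -, H⟩ := hlen n
    exact ⟨η, hη, H⟩
  · obtain ⟨c, hc, H⟩ := hreg K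
    obtain ⟨η, hη, -, H'⟩ := hlen 2
    exact ⟨c, hc, η, hη, fun p hp hp1 => H p hp (H' p hp hp1).1⟩
  · -- upper bound for the length
    obtain ⟨c, hc, HR⟩ := hreg 64
    obtain ⟨C, hC, HC⟩ := scale_upper hGL blockLow c hc
    obtain ⟨n₀, hn₀⟩ := h4 ε hε
    obtain ⟨η, hη, hη4, HL⟩ := hlen (n₀ + 2)
    refine ⟨C, hC, η, hη, fun p hp hp1 => ?_⟩
    obtain ⟨hL1, hL2, -⟩ := HL p hp hp1
    have hpI := half_le hp
    obtain ⟨L, hL⟩ : ∃ L : ℕ, L = Len δ₀ p := ⟨_, rfl⟩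
    have HRp := HR p hp (by omega)
    rw [← hL] at hL1 hL2 HRp ⊢
    have hL0 : (0 : ℝ) < L := by exact_mod_cast hL2
    have h5 := HC (64 * L) half p (by omega) hpI (by rw [half_val]; norm_num) (by linarith)
      (fun q h1 h2 => HRp q ((sigma_le_half hpI).trans h1) h2)
    rw [half_val, Nat.mul_div_cancel_left L (by norm_num)] at h5
    have h7 := (hn₀ L (by omega)).1
    have hx : 0 < (p : ℝ) - 1 / 2 := by linarith
    have h9 : (L : ℝ) ^ 2 * (L : ℝ) ^ (-a - ε) = (L : ℝ) ^ ((2 - a) - ε) := by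
      rw [← Real.rpow_natCast (L : ℝ) 2, ← Real.rpow_add hL0]
      congr 1
      push_cast
      ring
    refine le_trans (mul_le_mul_of_nonneg_left ?_ hx.le) h5
    rw [← h9]
    refine mul_le_mul ?_ h7 (by positivity) (by positivity)
    push_cast
    nlinarith [sq_nonneg (L : ℝ)]
  · -- lower bound for the length
    obtain ⟨c, hc, HR⟩ := hreg 14
    obtain ⟨C, hC, HC⟩ := scale_lower hGL blockLow c hc
    obtain ⟨n₀, hn₀⟩ := h4 ε hε
    obtain ⟨η, hη, hη4, HL⟩ := hlen (n₀ + 5)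
    refine ⟨c₂ / (C * (196 * (6 : ℝ) ^ (-a + ε))), by positivity, η, hη, fun p hp hp1 => ?_⟩
    obtain ⟨hL1, hL2, hL3⟩ := HL p hp hp1
    have hpI := half_le hp
    obtain ⟨L, hL⟩ : ∃ L : ℕ, L = Len δ₀ p := ⟨_, rfl⟩
    have HRp := HR p hp (by omega)
    rw [← hL] at hL1 hL2 hL3 HRp ⊢
    have hL0 : (0 : ℝ) < L := by exact_mod_cast hL2
    have h5 := HC (14 * L) (6 * L) half p (by omega) (by omega) (by omega) hpI
      (by rw [half_val]; norm_num) (by linarith)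
      (fun q h1 h2 => HRp q ((sigma_le_half hpI).trans h1) h2)
    have h6 := H2 p hpI L hL2 (hL3.mono h02)
    have h7 := (hn₀ (6 * L) (by omega)).2
    have hx : 0 < (p : ℝ) - 1 / 2 := by linarith
    have h8 : ((14 * L : ℕ) : ℝ) ^ 2 * a4 half (6 * L) ≤
        196 * (6 : ℝ) ^ (-a + ε) * (L : ℝ) ^ ((2 - a) + ε) := by
      have e1 : ((6 * L : ℕ) : ℝ) ^ (-a + ε) = (6 : ℝ) ^ (-a + ε) * (L : ℝ) ^ (-a + ε) := by
        push_cast
        rw [Real.mul_rpow (by norm_num) hL0.le]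
      have e2 : (L : ℝ) ^ 2 * (L : ℝ) ^ (-a + ε) = (L : ℝ) ^ ((2 - a) + ε) := by
        rw [← Real.rpow_natCast (L : ℝ) 2, ← Real.rpow_add hL0]
        congr 1
        push_cast
        ring
      calc ((14 * L : ℕ) : ℝ) ^ 2 * a4 half (6 * L)
          ≤ ((14 * L : ℕ) : ℝ) ^ 2 * ((6 * L : ℕ) : ℝ) ^ (-a + ε) :=
            mul_le_mul_of_nonneg_left h7 (by positivity)
        _ = 196 * (6 : ℝ) ^ (-a + ε) * ((L : ℝ) ^ 2 * (L : ℝ) ^ (-a + ε)) := by
            rw [e1]; push_cast; ring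
        _ = _ := by rw [e2]
    have h9 : c₂ ≤ C * (((p : ℝ) - 1 / 2) *
        (196 * (6 : ℝ) ^ (-a + ε) * (L : ℝ) ^ ((2 - a) + ε))) := by
      rw [half_val] at h5
      refine h6.trans (h5.trans ?_)
      gcongr
    rw [div_le_iff₀ (by positivity)]
    calc c₂ ≤ _ := h9
      _ = _ := by ring
  · -- the percolation probability
    obtain ⟨c, hc, HR⟩ := hreg 1
    obtain ⟨K, hK, HK⟩ := arm_stability_torus hGL blockLow c hc
    obtain ⟨η, hη, hη4, HL⟩ := hlen 2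
    refine ⟨c₁, hc₁, K, hK, η, hη, fun p hp hp1 => ?_⟩
    obtain ⟨hL1, hL2, hL3⟩ := HL p hp hp1
    have hpI := half_le hp
    have HRp := HR p hp hL1
    rw [one_mul] at HRp
    constructor
    · have h5 := (H1 p hpI _ hL2 (hL3.mono h01)).1
      exact (mul_le_mul_of_nonneg_left (arm_mono_param _ hpI) hc₁.le).trans h5
    · exact (theta_le_arm p (Len δ₀ p)).trans (HK _ half p hpI (by rw [half_val]; norm_num)
        (by linarith) fun q h1 h2 => HRp q ((sigma_le_half hpI).trans h1) h2)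
  · -- the mean cluster size
    obtain ⟨c, hc, HR⟩ := hreg 9
    obtain ⟨K, hK, HK⟩ := arm_stability_torus hGL blockLow c hc
    obtain ⟨c', hc', HT⟩ := Pool.Agent.H85.Gamma.trunc_lower
    obtain ⟨c'', hc'', HE⟩ := arm_ext
    obtain ⟨η, hη, hη4, HL⟩ := hlen 2
    refine ⟨c' * (c'' / 3 / K) ^ 2, by positivity, C₁, hC₁, η, hη, fun p hp hp1 => ?_⟩
    obtain ⟨hL1, hL2, hL3⟩ := HL p hp hp1
    have hpI := half_le hp
    have HRp := HR p hp hL1
    obtain ⟨L, hL⟩ : ∃ L : ℕ, L = Len δ₀ p := ⟨_, rfl⟩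
    rw [← hL] at hL1 hL2 hL3 HRp ⊢
    have hL0 : (0 : ℝ) < L := by exact_mod_cast hL2
    constructor
    · refine (ENNReal.ofReal_le_ofReal ?_).trans
        (Pool.Agent.H85.Gamma.trunc_le_sigma (σ p) (Pool.Agent.H85.Gamma.bx (2 * L)) (5 * L + 4))
      have hσv : ((σ p : I) : ℝ) = 1 - (p : ℝ) := rfl
      refine le_trans ?_ (HT L hL2 (σ p) (by rw [hσv]; linarith))
      have h5 := HK (5 * L + 4) (σ p) half (sigma_le_half hpI) (by rw [hσv]; linarith)
        (by rw [half_val]; norm_num)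
        (fun q h1 h2 => rsw_anti (HRp q h1 (h2.trans hpI)) (by omega))
      have h6 := HE half le_rfl L (5 * L + 4) hL2 (by omega)
      have h7 : (1 / 3 : ℝ) ≤ Real.sqrt ((L : ℝ) / ((5 * L + 4 : ℕ) : ℝ)) := by
        apply Real.le_sqrt_of_sq_le
        rw [le_div_iff₀ (by positivity)]
        push_cast
        have : (1 : ℝ) ≤ L := by exact_mod_cast hL2
        linarith
      have h8 := arm_nonneg (p := half) (r := L)
      have h9 : c'' / 3 * arm half L ≤ K * arm (σ p) (5 * L + 4) := by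
        refine le_trans ?_ (h6.trans h5)
        have : c'' * (1 / 3) ≤ c'' * Real.sqrt ((L : ℝ) / ((5 * L + 4 : ℕ) : ℝ)) :=
          mul_le_mul_of_nonneg_left h7 hc''.le
        calc c'' / 3 * arm half L = c'' * (1 / 3) * arm half L := by ring
          _ ≤ _ := mul_le_mul_of_nonneg_right this h8
      have h10 : c'' / 3 / K * arm half L ≤ arm (σ p) (5 * L + 4) := by
        rw [div_mul_eq_mul_div, div_le_iff₀ hK]
        linarith
      calc c' * (c'' / 3 / K) ^ 2 * ((L : ℝ) ^ 2 * arm half L ^ 2)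
          = c' * (L : ℝ) ^ 2 * (c'' / 3 / K * arm half L) ^ 2 := by ring
        _ ≤ c' * (L : ℝ) ^ 2 * arm (σ p) (5 * L + 4) ^ 2 := by gcongr
    · have h5 := (H1 p hpI _ hL2 (hL3.mono h01)).2
      rw [← mul_assoc]
      exact h5

/-- The exponents `β` and `γ` from the one-arm and four-arm exponents at `1 / 2`. -/
theorem exponents_of (hGL : GLTorus) {a b : ℝ} (ha : a < 2) (hb : 0 < b)
    (h4 : PN (a4 half) a) (h1 : PN (arm half) b) :
    HasBeta (b / (2 - a)) ∧ HasGamma ((2 - 2 * b) / (2 - a)) := by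
  obtain ⟨δ₀, -, -, -, hup, hlow, hθ, hσ⟩ := length_facts hGL ha h4
  have hL := length_exponent (L := Len δ₀) (s := 2 - a) (by linarith) hup hlow
  exact ⟨beta_of_scaling hb (by linarith) h1 hL hθ, gamma_of_scaling hb (by linarith) h1 hL hσ⟩

/-- The exponents of critical bond percolation, conditional on the arm exponents at `1 / 2` and on
the gluing lemma. -/
theorem exact_exponents_of (hGL : GLTorus) (h4 : PN (a4 half) (5 / 4))
    (h1 : PN (arm half) (5 / 48)) : HasBeta (5 / 36) ∧ HasGamma (43 / 18) := by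
  have h := exponents_of hGL (by norm_num) (by norm_num) h4 h1
  norm_num at h
  exact h

end Pool.Agent.H83.EX

end

section

/-!
# From the separated event to two winding clusters: deterministic part
-/

set_option autoImplicit false

open MeasureTheory ProbabilityTheory unitInterval

namespace Pool.Agent.H47.EX

open Pool.Agent.H89.Perc hiding per
open Pool.Agent.H59.EX
open Pool.Agent.H89.Link (per base per_eq strip Fc2 xx yy sh cylArm_conn_sh)

variable {n k K : ℕ} {ω η : Config} {e : Edge}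

/-! ### The crossing event -/

/-- Periodic extension of the configuration on the edges of `CC`. -/
noncomputable def ext (n k : ℕ) (η : Config) : Config := fun e => by
  classical exact decide (∃ e' ∈ inE (CC n k), base n e' = base n e ∧ η e' = true)

theorem ext_true : ext n k η e = true ↔
    ∃ e' ∈ inE (CC n k), base n e' = base n e ∧ η e' = true := by
  simp [ext]

theorem ext_le (h : ext n k (per n ω) e = true) : per n ω e = true := by
  obtain ⟨e', -, h1, h2⟩ := ext_true.1 h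
  rw [per_eq] at h2 ⊢
  rw [← h1]
  exact h2

theorem le_ext (hn : 1 ≤ n) (he : e ∈ inE (pset (gam n) (XX n k ∪ YY n k)))
    (h : per n ω e = true) : ext n k (per n ω) e = true := by
  obtain ⟨e', he', h1⟩ := exists_CC hn he
  refine ext_true.2 ⟨e', he', h1, ?_⟩
  rw [per_eq] at h ⊢
  rw [h1]
  exact h

/-- The crossings of the corridors (in the extended configuration). -/
def Np (n k : ℕ) : Set Config :=
  {η | HCross (ext n k η) (28 * k) (n + 67 * k) (-(3 * k)) (3 * k) ∧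
    VCross (ext n k η) (n + 61 * k) (n + 67 * k) (-(n + 3 * k)) (3 * k) ∧
    HCross (ext n k η) (-(n + 67 * k)) (-(28 * k)) (-(3 * k)) (3 * k) ∧
    VCross (ext n k η) (-(n + 67 * k)) (-(n + 61 * k)) (-(3 * k)) (n + 3 * k)}

theorem hcross_mono {ω ω' : Config} {a b c d : ℤ} (h : ∀ e, ω e = true → ω' e = true)
    (hc : HCross ω a b c d) : HCross ω' a b c d := by
  obtain ⟨u, v, h1, h2, h3⟩ := hc
  exact ⟨u, v, h1, h2, h3.mono le_rfl h⟩

theorem vcross_mono {ω ω' : Config} {a b c d : ℤ} (h : ∀ e, ω e = true → ω' e = true)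
    (hc : VCross ω a b c d) : VCross ω' a b c d := by
  obtain ⟨u, v, h1, h2, h3⟩ := hc
  exact ⟨u, v, h1, h2, h3.mono le_rfl h⟩

theorem incr_Np (n k : ℕ) : Incr (Np n k) := by
  rintro η η' h ⟨h1, h2, h3, h4⟩
  have key : ∀ e, ext n k η e = true → ext n k η' e = true := by
    intro e he
    obtain ⟨e', he', h5, h6⟩ := ext_true.1 he
    exact ext_true.2 ⟨e', he', h5, h _ h6⟩
  exact ⟨hcross_mono key h1, vcross_mono key h2, hcross_mono key h3, vcross_mono key h4⟩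

theorem locS_Np (n k : ℕ) : LocS (inE (CC n k)) (Np n k) := by
  rintro η η' h ⟨h1, h2, h3, h4⟩
  have key : ∀ e, ext n k η e = true → ext n k η' e = true := by
    intro e he
    obtain ⟨e', he', h5, h6⟩ := ext_true.1 he
    refine ext_true.2 ⟨e', he', h5, ?_⟩
    rw [← h e' he']
    exact h6
  exact ⟨hcross_mono key h1, vcross_mono key h2, hcross_mono key h3, vcross_mono key h4⟩

/-- Crossings of the periodic configuration inside the corridors. -/
def Np' (n k : ℕ) : Set Config :=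
  {η | HCross η (28 * k) (n + 67 * k) (-(3 * k)) (3 * k)} ∩
    ({η | VCross η (n + 61 * k) (n + 67 * k) (-(n + 3 * k)) (3 * k)} ∩
      ({η | HCross η (-(n + 67 * k)) (-(28 * k)) (-(3 * k)) (3 * k)} ∩
        {η | VCross η (-(n + 67 * k)) (-(n + 61 * k)) (-(3 * k)) (n + 3 * k)}))

theorem conn_ext (hn : 1 ≤ n) {S : Set Vert} (hS : S ⊆ XX n k ∪ YY n k) {u v : Vert}
    (h : Conn (per n ω) S u v) : Conn (ext n k (per n ω)) S u v := by
  refine h.congr (fun e h1 h2 => ?_)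
  have he : e ∈ inE (pset (gam n) (XX n k ∪ YY n k)) :=
    ⟨pset_sub _ (hS h1), pset_sub _ (hS h2)⟩
  by_cases ho : per n ω e = true
  · rw [ho, le_ext hn he ho]
  · rw [Bool.not_eq_true] at ho
    rw [ho]
    by_contra h3
    have := ext_le (Bool.not_eq_false _ |>.mp (Ne.symm h3))
    rw [ho] at this
    exact Bool.false_ne_true this

theorem Np_of (hn : 1 ≤ n) (h : per n ω ∈ Np' n k) : per n ω ∈ Np n k := by
  obtain ⟨⟨u1, v1, a1, b1, c1⟩, ⟨u2, v2, a2, b2, c2⟩, ⟨u3, v3, a3, b3, c3⟩,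
    ⟨u4, v4, a4, b4, c4⟩⟩ := h
  refine ⟨⟨u1, v1, a1, b1, conn_ext hn ?_ c1⟩, ⟨u2, v2, a2, b2, conn_ext hn ?_ c2⟩,
    ⟨u3, v3, a3, b3, conn_ext hn ?_ c3⟩, ⟨u4, v4, a4, b4, conn_ext hn ?_ c4⟩⟩
  · exact fun v hv => Or.inl (Or.inl hv)
  · exact fun v hv => Or.inl (Or.inr hv)
  · exact fun v hv => Or.inr (Or.inl hv)
  · exact fun v hv => Or.inr (Or.inr hv)

theorem Np'_of (h : per n ω ∈ Np n k) : per n ω ∈ Np' n k := by
  obtain ⟨h1, h2, h3, h4⟩ := h
  exact ⟨hcross_mono (fun _ => ext_le) h1, vcross_mono (fun _ => ext_le) h2,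
    hcross_mono (fun _ => ext_le) h3, vcross_mono (fun _ => ext_le) h4⟩

/-! ### Clusters -/

theorem rect_conn {A B C D : ℤ} {a b : Vert} (ha : a ∈ rect A B C D) (hb : b ∈ rect A B C D) :
    Conn allOpen (rect A B C D) a b := by
  obtain ⟨a1, a2⟩ := a
  obtain ⟨b1, b2⟩ := b
  simp only [rect, Set.mem_ofPred_eq] at ha hb
  have h1 : Conn allOpen (rect A B C D) (a1, a2) (b1, a2) := by
    rcases le_total a1 b1 with h | h
    · refine ArmBoxLower.line_h' _ _ _ _ h (fun t h3 h4 => ?_)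
      simp only [rect, Set.mem_ofPred_eq]
      omega
    · refine (ArmBoxLower.line_h' _ _ _ _ h (fun t h3 h4 => ?_)).symm
      simp only [rect, Set.mem_ofPred_eq]
      omega
  have h2 : Conn allOpen (rect A B C D) (b1, a2) (b1, b2) := by
    rcases le_total a2 b2 with h | h
    · refine ArmBoxLower.line_v' _ _ _ _ h (fun t h3 h4 => ?_)
      simp only [rect, Set.mem_ofPred_eq]
      omega
    · refine (ArmBoxLower.line_v' _ _ _ _ h (fun t h3 h4 => ?_)).symm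
      simp only [rect, Set.mem_ofPred_eq]
      omega
  exact h1.trans h2

theorem TE_dom : T .E k ⊆ dom .E .W k := fun _ h => Or.inr (Or.inl h)

theorem TW_dom : T .W k ⊆ dom .E .W k := fun _ h => Or.inr (Or.inr h)

theorem TE_FX (hS : η ∈ Sep srcD .E .W k) : T .E k ⊆ FX srcD .E .W k η := by
  obtain ⟨⟨u, v, -, -, h1, h2⟩, -⟩ := hS
  intro w hw
  rw [FX, mem_clus_single]
  have h3 : Conn allOpen (T .E k) u w := rect_conn h1.mem_left hw
  have h4 : Conn (fillV (T .E k ∪ T .W k) (srcD.cut η)) (dom .E .W k) u w :=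
    conn_fillV (by
      rintro x (hx | hx)
      · exact TE_dom hx
      · exact TW_dom hx) (h3.mono_set Set.subset_union_left)
  exact (h2.mono le_rfl fun e he => fillV_true.2 (Or.inl he)).trans h4

theorem TW_FY (hS : η ∈ Sep srcD .E .W k) : T .W k ⊆ FY srcD .E .W k η := by
  obtain ⟨-, ⟨u, v, -, -, h1, h2⟩, -⟩ := hS
  intro w hw
  rw [FY, mem_clus_single]
  have h3 : Conn allOpen (T .W k) u w := rect_conn h1.mem_left hw
  have h4 : Conn (fillV (T .E k ∪ T .W k) (srcD.cut η)) (dom .E .W k) u w :=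
    conn_fillV (by
      rintro x (hx | hx)
      · exact TE_dom hx
      · exact TW_dom hx) (h3.mono_set Set.subset_union_right)
  exact (h2.mono le_rfl fun e he => fillV_true.2 (Or.inl he)).trans h4

theorem F_disj (hS : η ∈ Sep srcD .E .W k) {a : Vert} (h1 : a ∈ FX srcD .E .W k η)
    (h2 : a ∈ FY srcD .E .W k η) : False := by
  rw [FX, mem_clus_single] at h1
  rw [FY, mem_clus_single] at h2
  exact hS.2.2.1 (h1.trans h2.symm)

theorem sphere_of {r : ℕ} {a b : Vert} (ha : a ∈ ball 0 r) (hb : b ∉ ball 0 r)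
    (hab : b ∈ ball a 1) : a ∈ sphere 0 r := by
  refine ⟨ha, ?_⟩
  rw [mem_ball] at ha hb hab
  simp only [Prod.fst_zero, Prod.snd_zero, zero_sub, zero_add] at *
  push_cast at hab
  omega

theorem twoData (hk : 1 ≤ k) (hn : 256 * k ≤ n) (hS : per n ω ∈ Sep srcD .E .W k) :
    TwoData (gam n) (dom .E .W k) (FX srcD .E .W k (per n ω)) (FY srcD .E .W k (per n ω))
      (XX n k) (YY n k) (Mouth .E k) (Mouth .W k) (CC n k) (per n ω) k where
  per := per_gam n ω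
  s1 := clus_sub
  s2 := clus_sub
  disj := fun a h1 h2 => F_disj hS h1 h2
  cl1 := by
    intro a ha b hb
    refine clus_step ha (hb.mono le_rfl fun e he => fillV_true.2 (Or.inl ?_))
    rw [cut_srcD]
    exact he
  cl2 := by
    intro a ha b hb
    refine clus_step ha (hb.mono le_rfl fun e he => fillV_true.2 (Or.inl ?_))
    rw [cut_srcD]
    exact he
  x1 := fun a ha hd => TE_FX hS (XX_dom hk hn ha hd)
  x2 := fun a ha hd => TW_FY hS (YY_dom hk hn ha hd)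
  m1 := by
    intro a ha hx b hb hab
    have hd : a ∈ dom .E .W k := clus_sub ha
    have hbb : b ∉ ball 0 (32 * k) := fun h => hb (Or.inl h)
    rcases hd with hd | hd | hd
    · refine hS.2.2.2.1 a (sphere_of hd hbb hab) ?_
      rw [FX, mem_clus_single] at ha
      exact ha
    · exact absurd (TE_XX hk hn hd) hx
    · exact (F_disj hS ha (TW_FY hS hd)).elim
  m2 := by
    intro a ha hx b hb hab
    have hd : a ∈ dom .E .W k := clus_sub ha
    have hbb : b ∉ ball 0 (32 * k) := fun h => hb (Or.inl h)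
    rcases hd with hd | hd | hd
    · refine hS.2.2.2.2 a (sphere_of hd hbb hab) ?_
      rw [FY, mem_clus_single] at ha
      exact ha
    · exact (F_disj hS (TE_FX hS hd) ha).elim
    · exact absurd (TW_YY hk hn hd) hx
  far := fun a ha b z hz hb => far_XY hk hn ha hz hb
  one := fun a ha b z hz hb hab => one_sheet hk hn ha hz hb hab
  cC := CC_sub

/-! ### Winding -/

theorem rect_strip {a b c d : ℤ} {H : ℕ} (h1 : -(H : ℤ) < a + c) (h2 : b + d < H) :
    rect a b c d ⊆ strip H := by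
  intro v hv
  simp only [rect, Set.mem_ofPred_eq] at hv
  simp only [strip, Set.mem_ofPred_eq]
  omega

theorem dom_strip (hk : 1 ≤ k) (hn : 256 * k ≤ n) : dom .E .W k ⊆ strip (8 * n) := by
  intro v hv
  rw [mem_dom] at hv
  simp only [strip, Set.mem_ofPred_eq]
  push_cast
  omega

theorem strip_sh {H : ℕ} (j : ℤ) : ∀ v ∈ strip H, sh n j v ∈ strip H := by
  intro v hv
  simp only [strip, Set.mem_ofPred_eq, sh] at hv ⊢
  omega

theorem wind_x (hk : 1 ≤ k) (hn : 256 * k ≤ n) (hS : per n ω ∈ Sep srcD .E .W k)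
    (hN : per n ω ∈ Np' n k) : Conn (per n ω) (strip (8 * n)) xx (n, -n) := by
  obtain ⟨⟨u1, v1, p1, q1, c1⟩, ⟨u2, v2, p2, q2, c2⟩, -⟩ := hN
  obtain ⟨⟨u, v, p, q, h1, h2⟩, -⟩ := hS
  rw [cut_srcD] at h1 h2
  have hk' : (1 : ℤ) ≤ k := by exact_mod_cast hk
  have hn' : 256 * (k : ℤ) ≤ n := by exact_mod_cast hn
  have h1' : Conn (per n ω) (rect (28 * k) (36 * k) (-(3 * k)) (3 * k)) u v := h1
  have c1' := cylArm_conn_sh n ω 1
    (S' := rect (n + 28 * k) (2 * n + 67 * k) (-(n + 3 * k)) (-n + 3 * k))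
    (fun w hw => by
      simp only [rect, Set.mem_ofPred_eq, sh] at hw ⊢
      omega) c1
  have p1' : (sh n 1 u1).1 = n + 28 * k := by
    simp only [sh]
    omega
  have q1' : (sh n 1 v1).1 = 2 * n + 67 * k := by
    simp only [sh]
    omega
  obtain ⟨z1, a1, b1⟩ := Pool.Agent.H85.Strict.hv_meet c1 (by omega) (by omega) h1' (by omega)
    (by omega) (by omega) (by omega)
  obtain ⟨z2, a2, b2⟩ := Pool.Agent.H85.Strict.hv_meet c1 (by omega) (by omega) c2 (by omega)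
    (by omega) (by omega) (by omega)
  obtain ⟨z3, a3, b3⟩ := Pool.Agent.H85.Strict.hv_meet c1' (by omega) (by omega) c2 (by omega)
    (by omega) (by omega) (by omega)
  have s1 : rect (28 * k) (n + 67 * k) (-(3 * k)) (3 * k) ⊆ strip (8 * n) :=
    rect_strip (by push_cast; omega) (by push_cast; omega)
  have s2 : rect (n + 61 * k) (n + 67 * k) (-(n + 3 * k)) (3 * k) ⊆ strip (8 * n) :=
    rect_strip (by push_cast; omega) (by push_cast; omega)
  have s3 : rect (n + 28 * k) (2 * n + 67 * k) (-(n + 3 * k)) (-n + 3 * k) ⊆ strip (8 * n) :=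
    rect_strip (by push_cast; omega) (by push_cast; omega)
  have s4 : rect (28 * k) (36 * k) (-(3 * k)) (3 * k) ⊆ strip (8 * n) :=
    rect_strip (by push_cast; omega) (by push_cast; omega)
  have k1 : Conn (per n ω) (strip (8 * n)) xx u1 :=
    ((h2.mono_set (dom_strip hk hn)).trans (b1.mono_set s4)).trans (a1.mono_set s1).symm
  have k2 : Conn (per n ω) (strip (8 * n)) u1 (sh n 1 u1) :=
    (((a2.mono_set s1).trans (b2.mono_set s2).symm).trans (b3.mono_set s2)).trans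
      (a3.mono_set s3).symm
  have k3 := cylArm_conn_sh n ω 1 (strip_sh 1) k1
  have e : sh n 1 xx = ((n : ℤ), -(n : ℤ)) := by
    simp [sh, xx]
  rw [← e]
  exact (k1.trans k2).trans k3.symm

theorem wind_y (hk : 1 ≤ k) (hn : 256 * k ≤ n) (hS : per n ω ∈ Sep srcD .E .W k)
    (hN : per n ω ∈ Np' n k) : Conn (per n ω) (strip (8 * n)) yy (n + 1, -n - 1) := by
  obtain ⟨-, -, ⟨u1, v1, p1, q1, c1⟩, ⟨u2, v2, p2, q2, c2⟩⟩ := hN
  obtain ⟨-, ⟨u, v, p, q, h1, h2⟩, -⟩ := hS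
  rw [cut_srcD] at h1 h2
  have hk' : (1 : ℤ) ≤ k := by exact_mod_cast hk
  have hn' : 256 * (k : ℤ) ≤ n := by exact_mod_cast hn
  have h1' : Conn (per n ω) (rect (-(36 * k)) (-(28 * k)) (-(3 * k)) (3 * k)) u v := h1
  have c1' := cylArm_conn_sh n ω (-1)
    (S' := rect (-(2 * n + 67 * k)) (-(n + 28 * k)) (n - 3 * k) (n + 3 * k))
    (fun w hw => by
      simp only [rect, Set.mem_ofPred_eq, sh] at hw ⊢
      omega) c1
  have p1' : (sh n (-1) u1).1 = -(2 * n + 67 * k) := by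
    simp only [sh]
    omega
  have q1' : (sh n (-1) v1).1 = -(n + 28 * k) := by
    simp only [sh]
    omega
  obtain ⟨z1, a1, b1⟩ := Pool.Agent.H85.Strict.hv_meet c1 (by omega) (by omega) h1' (by omega)
    (by omega) (by omega) (by omega)
  obtain ⟨z2, a2, b2⟩ := Pool.Agent.H85.Strict.hv_meet c1 (by omega) (by omega) c2 (by omega)
    (by omega) (by omega) (by omega)
  obtain ⟨z3, a3, b3⟩ := Pool.Agent.H85.Strict.hv_meet c1' (by omega) (by omega) c2 (by omega)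
    (by omega) (by omega) (by omega)
  have s1 : rect (-(n + 67 * k)) (-(28 * k)) (-(3 * k)) (3 * k) ⊆ strip (8 * n) :=
    rect_strip (by push_cast; omega) (by push_cast; omega)
  have s2 : rect (-(n + 67 * k)) (-(n + 61 * k)) (-(3 * k)) (n + 3 * k) ⊆ strip (8 * n) :=
    rect_strip (by push_cast; omega) (by push_cast; omega)
  have s3 : rect (-(2 * n + 67 * k)) (-(n + 28 * k)) (n - 3 * k) (n + 3 * k) ⊆ strip (8 * n) :=
    rect_strip (by push_cast; omega) (by push_cast; omega)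
  have s4 : rect (-(36 * k)) (-(28 * k)) (-(3 * k)) (3 * k) ⊆ strip (8 * n) :=
    rect_strip (by push_cast; omega) (by push_cast; omega)
  have k1 : Conn (per n ω) (strip (8 * n)) yy u1 :=
    ((h2.mono_set (dom_strip hk hn)).trans (b1.mono_set s4)).trans (a1.mono_set s1).symm
  have k2 : Conn (per n ω) (strip (8 * n)) u1 (sh n (-1) u1) :=
    (((a2.mono_set s1).trans (b2.mono_set s2).symm).trans (b3.mono_set s2)).trans
      (a3.mono_set s3).symm
  have k3 := cylArm_conn_sh n ω (-1) (strip_sh (-1)) k1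
  have k4 : Conn (per n ω) (strip (8 * n)) yy (sh n (-1) yy) := (k1.trans k2).trans k3.symm
  have k5 := cylArm_conn_sh n ω 1 (strip_sh 1) k4
  have e1 : sh n 1 yy = ((n : ℤ) + 1, -(n : ℤ) - 1) := by
    simp only [sh, yy]
    ext <;> simp <;> omega
  have e2 : sh n 1 (sh n (-1) yy) = yy := by
    rw [Pool.Agent.H89.Link.sh_sh, show (1 : ℤ) + -1 = 0 by norm_num,
      Pool.Agent.H89.Link.sh_zero]
  rw [e1, e2] at k5
  exact k5.symm

/-- The deterministic part. -/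
theorem cyl_det (hk : 1 ≤ k) (hn : 256 * k ≤ n) (hK : n + 67 * k ≤ K * k)
    (hS : per n ω ∈ Sep srcD .E .W k) (hN : per n ω ∈ Np n k)
    (hs : per n ω ∈ Seal (grid k K) k (det (base n) .E .W k (CC n k)
      (FX srcD .E .W k (per n ω) ∪ FY srcD .E .W k (per n ω)))) :
    per n ω ∈ Fc2 n (8 * n) := by
  have hN' := Np'_of hN
  refine ⟨wind_x hk hn hS hN', wind_y hk hn hS hN', ?_⟩
  refine (twoData hk hn hS).not_conn hk ?_ (x := xx) (y := yy) ?_ ?_
  · intro a ha v hv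
    have hK' : (n : ℤ) + 67 * k ≤ K * k := by exact_mod_cast hK
    have hk' : (1 : ℤ) ≤ k := by exact_mod_cast hk
    have hn' : 256 * (k : ℤ) ≤ n := by exact_mod_cast hn
    have hb : a ∈ ball 0 (K * k) := by
      rw [mem_ball]
      rw [Set.mem_union, mem_ME, mem_XX] at ha
      simp only [Prod.fst_zero, Prod.snd_zero, zero_sub, zero_add]
      push_cast
      omega
    obtain ⟨g, hg, hag⟩ := exists_grid hk hb
    have h3 : v ∈ ball g (3 * k) := by
      by_contra h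
      rw [det_eq] at hs
      exact hs g hg a hag v h hv
    rw [mem_ball] at h3 hag ⊢
    push_cast at h3 ⊢
    omega
  · refine pset_sub _ (Or.inl ?_)
    rw [FX, mem_clus_single]
    obtain ⟨⟨u, v, -, -, -, h2⟩, -⟩ := hS
    exact Conn.refl h2.mem_left
  · refine pset_sub _ (Or.inl ?_)
    rw [FY, mem_clus_single]
    obtain ⟨-, ⟨u, v, -, -, -, h2⟩, -⟩ := hS
    exact Conn.refl h2.mem_left

end Pool.Agent.H47.EX

end

section

/-!
# From the separated event to two winding clusters: probability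
-/

set_option autoImplicit false

open MeasureTheory ProbabilityTheory unitInterval

namespace Pool.Agent.H47.EX

open Pool.Agent.H89.Perc hiding per
open Pool.Agent.H59.EX
open Pool.Agent.H61.NC (RSWreg)
open Pool.Agent.H89.Link (per base per_eq Fc2 cylArm_pr_h cylArm_pr_v cylArm_step base_injOn_rect)

/-- The regularity condition at the critical point. -/
theorem rswreg_half : ∃ c : ℝ, 0 < c ∧ ∀ n : ℕ, RSWreg c n half := by
  obtain ⟨c, hc, h⟩ := rsw
  refine ⟨c, hc, fun n m hm _ => ⟨h m hm, ?_⟩⟩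
  rw [rsw_symm_half]
  exact h m hm

theorem Np_lower (L : ℕ) : ∃ c : ℝ, 0 < c ∧ ∀ k : ℕ, 1 ≤ k → 256 ≤ L →
    c ≤ Pr half {ω | per (L * k) ω ∈ Np (L * k) k} := by
  obtain ⟨c₀, hc₀, hreg⟩ := rswreg_half
  obtain ⟨c, hc, h⟩ := Pool.Agent.H29.Sep.rect_lower c₀ hc₀ (L + 100)
  refine ⟨c * (c * (c * c)), by positivity, fun k hk hL => ?_⟩
  have hk' : (1 : ℤ) ≤ k := by exact_mod_cast hk
  have hL' : (256 : ℤ) ≤ L := by exact_mod_cast hL
  obtain ⟨n, hn⟩ : ∃ n : ℕ, n = L * k := ⟨_, rfl⟩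
  have hnz : (n : ℤ) = L * k := by rw [hn]; push_cast; ring
  have hn256 : 256 * (k : ℤ) ≤ n := by rw [hnz]; nlinarith
  rw [← hn]
  have hR := hreg (6 * k)
  have e6 : ((6 * k : ℕ) : ℤ) = 6 * k := by push_cast; ring
  have hone : 1 ≤ 6 * k := by omega
  have hLk : (0 : ℤ) ≤ (L : ℤ) * k := by positivity
  have r1 := (h (6 * k) half hone hR (28 * k) (n + 67 * k) (-(3 * k)) (3 * k) (by omega)
    (by omega) (by push_cast; nlinarith) (by push_cast; nlinarith)).1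
  have r2 := (h (6 * k) half hone hR (-(n + 3 * k)) (3 * k) (n + 61 * k) (n + 67 * k) (by omega)
    (by omega) (by push_cast; nlinarith) (by push_cast; nlinarith)).2
  have r3 := (h (6 * k) half hone hR (-(n + 67 * k)) (-(28 * k)) (-(3 * k)) (3 * k) (by omega)
    (by omega) (by push_cast; nlinarith) (by push_cast; nlinarith)).1
  have r4 := (h (6 * k) half hone hR (-(3 * k)) (n + 3 * k) (-(n + 67 * k)) (-(n + 61 * k))
    (by omega) (by omega) (by push_cast; nlinarith) (by push_cast; nlinarith)).2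
  rw [← cylArm_pr_h (n := n) (by right; omega)] at r1 r3
  rw [← cylArm_pr_v (n := n) (by left; omega)] at r2 r4
  have q3 := cylArm_step n (localOn_hcross _ _ _ _) (localOn_vcross _ _ _ _)
    (incr_hcross _ _ _ _) (incr_vcross _ _ _ _) hc.le r3 r4
  have q2 := cylArm_step n (localOn_vcross _ _ _ _)
    ((localOn_hcross _ _ _ _).inter' (localOn_vcross _ _ _ _))
    (incr_vcross _ _ _ _) ((incr_hcross _ _ _ _).inter (incr_vcross _ _ _ _))
    (by positivity) r2 q3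
  have q1 := cylArm_step n (localOn_hcross _ _ _ _)
    ((localOn_vcross _ _ _ _).inter' ((localOn_hcross _ _ _ _).inter' (localOn_vcross _ _ _ _)))
    (incr_hcross _ _ _ _)
    ((incr_vcross _ _ _ _).inter ((incr_hcross _ _ _ _).inter (incr_vcross _ _ _ _)))
    (by positivity) r1 q2
  refine q1.trans (Pr_mono ?_)
  intro ω hω
  exact Np_of (by omega) hω

theorem injOn_ball {n k : ℕ} (hk : 1 ≤ k) (hn : 256 * k ≤ n) (g : Vert) :
    Set.InjOn (base n) (inE (ball g (3 * k))) := by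
  have hk' : (1 : ℤ) ≤ k := by exact_mod_cast hk
  have hn' : 256 * (k : ℤ) ≤ n := by exact_mod_cast hn
  refine (base_injOn_rect (n := n) (a := g.1 - 3 * k) (b := g.1 + 3 * k) (c := g.2 - 3 * k)
    (d := g.2 + 3 * k) (by omega)).mono ?_
  rintro ⟨a, b, t⟩ ⟨h1, -⟩
  rw [mem_ball] at h1
  simp only [src] at h1
  push_cast at h1
  simp only [Set.mem_ofPred_eq]
  omega

/-- **From the separated event to two winding clusters on the cylinder.** -/
theorem cyl_ext (L : ℕ) (hL : 256 ≤ L) : ∃ c : ℝ, 0 < c ∧ ∀ k : ℕ, 1 ≤ k →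
    c * Pr half (Sep srcD .E .W k) ≤
      Pr half {ω | per (L * k) ω ∈ Fc2 (L * k) (8 * (L * k))} := by
  obtain ⟨c₁, hc₁, hN⟩ := Np_lower L
  obtain ⟨c₀, hc₀, hreg⟩ := rswreg_half
  obtain ⟨c₂, hc₂, hSe⟩ := seal_lower_pb c₀ hc₀ 1 ((2 * (L + 67) + 1) ^ 2)
  refine ⟨c₁ * c₂, by positivity, fun k hk => ?_⟩
  obtain ⟨n, hn⟩ : ∃ n : ℕ, n = L * k := ⟨_, rfl⟩
  have hn256 : 256 * k ≤ n := by rw [hn]; exact Nat.mul_le_mul_right k hL
  rw [← hn]
  refine (corridor_prob (q := half) (π := base n) (s := srcD) (d := .E) (d' := .W) (k := k) hk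
    (C := CC n k) (Np := Np n k) (H := fun S => Seal (grid k (L + 67)) k
      (det (base n) .E .W k (CC n k) S)) (c₁ := c₁) (c₂ := c₂) hc₁.le hc₂.le
    (inj_CC hk hn256) (T_CC hk hn256) (CC_dom hk hn256) (CC_finite hk hn256) (locS_Np n k)
    (incr_Np n k) ?_ (fun S => locS_seal _ _ _) ?_ ?_).trans (Pr_mono ?_)
  · rw [hn]
    exact hN k hk hL
  · obtain ⟨Λ, hΛ⟩ := localOn_seal (grid k (L + 67)) k
    exact ⟨Λ, fun S => hΛ _⟩
  · intro S
    exact hSe k k half _ _ (base n) hk (hreg k) hk (by omega) (card_grid k (L + 67))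
      (fun g _ => injOn_ball hk hn256 g)
  · rintro ω ⟨h1, h2, h3⟩
    exact cyl_det hk hn256 (K := L + 67) (by rw [hn, add_mul]) h1 h2 h3

end Pool.Agent.H47.EX

end

section

/-! Recursions of `F22`, `F13`. -/

namespace H56.EX

open scoped BigOperators Classical

lemma gfac_congr {L : ℕ} {i : ℤ} {ζ : ℤ → ℂ} {x : ℂ} {y : ℕ → ℂ} (h1 : ζ (i + 1) = x)
    (h2 : ∀ s, s < L → ζ (i + 2 + s) = y s) :
    gfac L i ζ = -q * x * (∏ s ∈ Finset.range L, (y s - q * x) ^ 2) / 3 ^ L := by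
  unfold gfac
  rw [h1]
  congr 2
  refine Finset.prod_congr rfl fun s hs => ?_
  rw [h2 s (Finset.mem_range.1 hs)]

lemma scons_eta (z : ℕ → ℂ) : scons (z 0) (fun n => z (n + 1)) = z := by
  funext n
  rcases n with _ | n <;> rfl

section psi

variable {Ψ : ∀ L : ℕ, Pat L → (ℤ → ℂ) → ℂ} (hΨ : PsiProps Ψ) (hT : LegTop)

include hΨ hT

theorem F22_rec_right (M : ℕ) (hM : 1 ≤ M) (a0 b0 b1 : ℂ) (z : ℕ → ℂ) :
    F22 Ψ (M + 1) a0 (q ^ 2 * z 0) b0 b1 z =
      (-q * z 0 * ((∏ s ∈ Finset.range M, (z (s + 1) - q * z 0) ^ 2) * (a0 - q * z 0) ^ 2) /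
        3 ^ (M + 1)) * F13 Ψ M a0 b0 b1 (z 0) (fun n => z (n + 1)) := by
  set s : ℕ → ℂ := scons a0 (scons (q ^ 2 * z 0) z) with hs
  have e1 : par (M + 1 + 2) s ((1 : ℕ) : ℤ) = q ^ 2 * z 0 := par_nat _ (by omega)
  have e2 : par (M + 1 + 2) s (((1 : ℕ) : ℤ) + 1) = z 0 := by
    have : (((1 : ℕ) : ℤ) + 1) = ((2 : ℕ) : ℤ) := by norm_num
    rw [this]; exact par_nat _ (by omega)
  have h := rec_right hΨ (Lt := M + 1) (Lb := M + 3) 1 2 M
    (fun Pt Pb => hT.right 1 2 M (by omega) (by omega) Pt Pb) (by omega)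
    (par (M + 1 + 2) s) (per_par _ _) (by rw [e1, e2])
    (fun P : Pat (M + 3) => Ψ (M + 3) P
      (par (M + 3) (scons b0⁻¹ (scons b1⁻¹ (fun n => (z n)⁻¹)))))
  rw [phi_par (by omega) s 1 (by omega)] at h
  have hg : gfac (M + 1) ((1 : ℕ) : ℤ) (par (M + 1 + 2) s) =
      -q * z 0 * (∏ k ∈ Finset.range (M + 1), ((if k < M then z (k + 1) else a0) - q * z 0) ^ 2) /
        3 ^ (M + 1) := by
    apply gfac_congr (y := fun k => if k < M then z (k + 1) else a0) e2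
    intro k hk
    by_cases h : k < M
    · have : ((1 : ℕ) : ℤ) + 2 + (k : ℤ) = ((k + 1 + 2 : ℕ) : ℤ) := by push_cast; ring
      rw [this, par_nat _ (by omega)]
      simp only [h, if_true]
      rfl
    · simp only [h, if_false]
      have hk : k = M := by omega
      subst hk
      have : par (k + 1 + 2) s (((1 : ℕ) : ℤ) + 2 + (k : ℤ)) = s 0 := by
        apply par_of s (by omega)
        refine ⟨1, by push_cast; ring⟩
      rw [this]; rfl
  rw [hg, Finset.prod_range_succ] at h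
  have hp : ∏ k ∈ Finset.range M, ((if k < M then z (k + 1) else a0) - q * z 0) ^ 2 =
      ∏ k ∈ Finset.range M, (z (k + 1) - q * z 0) ^ 2 := by
    refine Finset.prod_congr rfl fun k hk => ?_
    rw [if_pos (Finset.mem_range.1 hk)]
  rw [hp, if_neg (lt_irrefl M)] at h
  have hs' : (fun n => if n < 1 then s n else s (n + 2)) = scons a0 (fun n => z (n + 1)) := by
    funext n
    rcases n with _ | n
    · rfl
    · rfl
  rw [hs'] at h
  have hb : scons b0⁻¹ (scons b1⁻¹ (scons (z 0)⁻¹ (fun n => (z (n + 1))⁻¹))) =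
      scons b0⁻¹ (scons b1⁻¹ (fun n => (z n)⁻¹)) := by
    congr 2
    exact scons_eta (fun n => (z n)⁻¹)
  unfold F22 F13
  rw [hb]
  exact h

theorem F22_rec_left (M : ℕ) (hM : 1 ≤ M) (a0 a1 b0 b1 : ℂ) (z : ℕ → ℂ)
    (hz : z M = q ^ 2 * a0) :
    F22 Ψ (M + 1) a0 a1 b0 b1 z =
      (-q * a0 * ((∏ s ∈ Finset.range M, (z s - q * a0) ^ 2) * (a1 - q * a0) ^ 2) /
        3 ^ (M + 1)) * F13 Ψ M a1 (z M) b0 b1 z := by
  set s : ℕ → ℂ := scons a0 (scons a1 z) with hs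
  set s' : ℕ → ℂ := scons b0⁻¹ (scons b1⁻¹ (fun n => (z n)⁻¹)) with hs'
  have e1 : par (M + 1 + 2) s (-1) = z M := by
    have : par (M + 1 + 2) s (-1) = s (M + 2) := by
      apply par_of s (by omega)
      refine ⟨-1, by push_cast; ring⟩
    rw [this]; rfl
  have e2 : par (M + 1 + 2) s 0 = a0 := par_nat (L := M + 1 + 2) s (n := 0) (by omega)
  have h := rec_left hΨ (Lt := M + 1) (Lb := M + 3) 1 2 M
    (fun Pt Pb => hT.left 1 2 M (by omega) (by omega) Pt Pb) (by omega)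
    (par (M + 1 + 2) s) (par (M + 3) s') (per_par _ _) (per_par _ _) (by rw [e1, e2, hz])
  rw [phi_par_left (by omega) s, rot_par (by omega) s'] at h
  have hg : gfac (M + 1) (-1) (par (M + 1 + 2) s) =
      -q * a0 * (∏ k ∈ Finset.range (M + 1), (scons a1 z k - q * a0) ^ 2) /
        3 ^ (M + 1) := by
    apply gfac_congr (y := scons a1 z) (by simpa using e2)
    intro k hk
    have : (-1 : ℤ) + 2 + (k : ℤ) = ((k + 1 : ℕ) : ℤ) := by push_cast; ring
    rw [this, par_nat _ (by omega)]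
    rfl
  rw [hg, Finset.prod_range_succ'] at h
  exact h

theorem F13_rec_right (M : ℕ) (a b0 b1 : ℂ) (z : ℕ → ℂ) :
    F13 Ψ (M + 1) a b0 b1 (q * z 0) z =
      (-q * (z 0)⁻¹ * ((∏ s ∈ Finset.range M, ((z (s + 1))⁻¹ - q * (z 0)⁻¹) ^ 2) *
        (b0⁻¹ - q * (z 0)⁻¹) ^ 2 * (b1⁻¹ - q * (z 0)⁻¹) ^ 2) /
        3 ^ (M + 2)) * F22 Ψ M a (z 0) b0 b1 (fun n => z (n + 1)) := by
  set s : ℕ → ℂ := scons b0⁻¹ (scons b1⁻¹ (scons (q * z 0)⁻¹ (fun n => (z n)⁻¹))) with hs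
  have e1 : par (M + 2 + 2) s ((2 : ℕ) : ℤ) = (q * z 0)⁻¹ := par_nat _ (by omega)
  have e2 : par (M + 2 + 2) s (((2 : ℕ) : ℤ) + 1) = (z 0)⁻¹ := by
    have : (((2 : ℕ) : ℤ) + 1) = ((3 : ℕ) : ℤ) := by norm_num
    rw [this]; exact par_nat _ (by omega)
  have h := rec_right hΨ (Lt := M + 2) (Lb := M + 2) 2 1 M
    (fun Pt Pb => hT.right 2 1 M (by omega) (by omega) Pt Pb) (by omega)
    (par (M + 2 + 2) s) (per_par _ _) (by rw [e1, e2, mul_inv, q_inv])
    (fun P : Pat (M + 2) => Ψ (M + 2) P (par (M + 2) (scons a z)))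
  rw [phi_par (by omega) s 2 (by omega)] at h
  have hg : gfac (M + 2) ((2 : ℕ) : ℤ) (par (M + 2 + 2) s) =
      -q * (z 0)⁻¹ * (∏ k ∈ Finset.range (M + 2), ((if k < M then (z (k + 1))⁻¹ else
        if k = M then b0⁻¹ else b1⁻¹) - q * (z 0)⁻¹) ^ 2) / 3 ^ (M + 2) := by
    apply gfac_congr (y := fun k => if k < M then (z (k + 1))⁻¹ else
        if k = M then b0⁻¹ else b1⁻¹) e2
    intro k hk
    by_cases h : k < M
    · have : ((2 : ℕ) : ℤ) + 2 + (k : ℤ) = ((k + 1 + 3 : ℕ) : ℤ) := by push_cast; ring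
      rw [this, par_nat _ (by omega)]
      simp only [h, if_true]
      rfl
    · simp only [h, if_false]
      by_cases hk : k = M
      · subst hk
        have : par (k + 2 + 2) s (((2 : ℕ) : ℤ) + 2 + (k : ℤ)) = s 0 := by
          apply par_of s (by omega)
          refine ⟨1, by push_cast; ring⟩
        rw [this, if_pos rfl]; rfl
      · rw [if_neg hk]
        have hk' : k = M + 1 := by omega
        subst hk'
        have : par (M + 2 + 2) s (((2 : ℕ) : ℤ) + 2 + ((M + 1 : ℕ) : ℤ)) = s 1 := by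
          apply par_of s (by omega)
          refine ⟨1, by push_cast; ring⟩
        rw [this]; rfl
  rw [hg, Finset.prod_range_succ, Finset.prod_range_succ] at h
  have hp : ∏ k ∈ Finset.range M, ((if k < M then (z (k + 1))⁻¹ else
        if k = M then b0⁻¹ else b1⁻¹) - q * (z 0)⁻¹) ^ 2 =
      ∏ k ∈ Finset.range M, ((z (k + 1))⁻¹ - q * (z 0)⁻¹) ^ 2 := by
    refine Finset.prod_congr rfl fun k hk => ?_
    rw [if_pos (Finset.mem_range.1 hk)]
  rw [hp, if_neg (lt_irrefl M), if_pos rfl, if_neg (by omega), if_neg (by omega)] at h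
  have hs' : (fun n => if n < 2 then s n else s (n + 2)) =
      scons b0⁻¹ (scons b1⁻¹ (fun n => (z (n + 1))⁻¹)) := by
    funext n
    rcases n with _ | _ | n
    · rfl
    · rfl
    · rfl
  rw [hs'] at h
  have ht : scons a (scons (z 0) (fun n => z (n + 1))) = scons a z := by rw [scons_eta]
  unfold F22 F13
  rw [ht, legSum_swap 1 3, legSum_swap 2 2]
  exact h

theorem F13_rec_left (M : ℕ) (a b0 b1 b2 : ℂ) (z : ℕ → ℂ) (hz : b0 = q ^ 2 * z M) :
    F13 Ψ (M + 1) a b0 b1 b2 z =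
      (-q * b0⁻¹ * ((∏ s ∈ Finset.range M, ((z s)⁻¹ - q * b0⁻¹) ^ 2) *
        (b2⁻¹ - q * b0⁻¹) ^ 2 * (b1⁻¹ - q * b0⁻¹) ^ 2) /
        3 ^ (M + 2)) * F22 Ψ M (z M) a b1 b2 z := by
  set s : ℕ → ℂ := scons b0⁻¹ (scons b1⁻¹ (scons b2⁻¹ (fun n => (z n)⁻¹))) with hs
  set s' : ℕ → ℂ := scons a z with hs'
  have e1 : par (M + 2 + 2) s (-1) = (z M)⁻¹ := by
    have : par (M + 2 + 2) s (-1) = s (M + 3) := by
      apply par_of s (by omega)
      refine ⟨-1, by push_cast; ring⟩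
    rw [this]; rfl
  have e2 : par (M + 2 + 2) s 0 = b0⁻¹ := par_nat (L := M + 2 + 2) s (n := 0) (by omega)
  have hq3 : q ^ 2 * (q ^ 2)⁻¹ = 1 := mul_inv_cancel₀ (pow_ne_zero _ q_ne_zero)
  have h := rec_left hΨ (Lt := M + 2) (Lb := M + 2) 2 1 M
    (fun Pt Pb => hT.left 2 1 M (by omega) (by omega) Pt Pb) (by omega)
    (par (M + 2 + 2) s) (par (M + 2) s') (per_par _ _) (per_par _ _)
    (by rw [e1, e2, hz, mul_inv, ← mul_assoc, hq3, one_mul])
  rw [phi_par_left (by omega) s, rot_par (by omega) s'] at h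
  have hg : gfac (M + 2) (-1) (par (M + 2 + 2) s) =
      -q * b0⁻¹ * (∏ k ∈ Finset.range (M + 2),
        (scons b1⁻¹ (scons b2⁻¹ (fun n => (z n)⁻¹)) k - q * b0⁻¹) ^ 2) / 3 ^ (M + 2) := by
    apply gfac_congr (y := scons b1⁻¹ (scons b2⁻¹ (fun n => (z n)⁻¹))) (by simpa using e2)
    intro k hk
    have : (-1 : ℤ) + 2 + (k : ℤ) = ((k + 1 : ℕ) : ℤ) := by push_cast; ring
    rw [this, par_nat _ (by omega)]
    rfl
  rw [hg, Finset.prod_range_succ', Finset.prod_range_succ'] at h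
  unfold F22 F13
  rw [legSum_swap 1 3, legSum_swap 2 2]
  exact h

end psi

end H56.EX

end

section

/-! Main theorem: the explicit leg functions. -/

namespace H56.EX

open Finset Pool.Agent.H96.EX

/-- a generic set of parameters -/
structure GG (M : ℕ) (x y w : ℂ) (z : ℕ → ℂ) : Prop where
  gz : Gen M z
  x0 : x ≠ 0
  y0 : y ≠ 0
  w0 : w ≠ 0
  xy : Cub x y
  xw : Cub x w
  yw : Cub y w
  xz : ∀ j, j < M → Cub x (z j)
  yz : ∀ j, j < M → Cub y (z j)
  wz : ∀ j, j < M → Cub w (z j)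

lemma swap_lt {M j k : ℕ} (hj : j + 1 < M) (hk : k < M) : Equiv.swap j (j + 1) k < M := by
  by_cases h1 : k = j
  · subst h1; simp; omega
  by_cases h2 : k = j + 1
  · subst h2; simp; omega
  rw [Equiv.swap_apply_of_ne_of_ne h1 h2]; exact hk

lemma GG.swap {M : ℕ} {x y w : ℂ} {z : ℕ → ℂ} (h : GG M x y w z) (j : ℕ) (hj : j + 1 < M) :
    GG M x y w (z ∘ Equiv.swap j (j + 1)) :=
  ⟨h.gz.swap j hj, h.x0, h.y0, h.w0, h.xy, h.xw, h.yw, fun _ hk => h.xz _ (swap_lt hj hk),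
    fun _ hk => h.yz _ (swap_lt hj hk), fun _ hk => h.wz _ (swap_lt hj hk)⟩

lemma GG.mvf {M : ℕ} {x y w : ℂ} : ∀ (j : ℕ) (_ : j < M) (z : ℕ → ℂ), GG M x y w z →
    GG M x y w (mvf j z) := by
  intro j
  induction j with
  | zero => intro _ z hz; rw [mvf_zero]; exact hz
  | succ j ih =>
    intro hj z hz
    rw [mvf_succ]
    exact ih (by omega) _ (hz.swap j hj)

lemma Gen.shift {M : ℕ} {z : ℕ → ℂ} (h : Gen (M + 1) z) : Gen M (fun n => z (n + 1)) :=
  ⟨fun j hj => h.1 _ (by omega), fun j k hj hk hjk => h.2 _ _ (by omega) (by omega) (by omega)⟩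

lemma Gen.mono {M : ℕ} {z : ℕ → ℂ} (h : Gen (M + 1) z) : Gen M z :=
  ⟨fun j hj => h.1 _ (by omega), fun j k hj hk hjk => h.2 _ _ (by omega) (by omega) (by omega)⟩

lemma GG.shift {M : ℕ} {x y w : ℂ} {z : ℕ → ℂ} (h : GG (M + 1) x y w z) :
    GG M x y w (fun n => z (n + 1)) :=
  ⟨h.gz.shift, h.x0, h.y0, h.w0, h.xy, h.xw, h.yw, fun _ hk => h.xz _ (by omega),
    fun _ hk => h.yz _ (by omega), fun _ hk => h.wz _ (by omega)⟩

lemma GG.last13 {M : ℕ} {x y w : ℂ} {z : ℕ → ℂ} (h : GG (M + 1) x y w z) :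
    GG M x (z M) y z :=
  ⟨h.gz.mono, h.x0, h.gz.1 M (by omega), h.y0, h.xz M (by omega), h.xy,
    (h.yz M (by omega)).symm, fun _ hk => h.xz _ (by omega),
    fun j hk => h.gz.2 M j (by omega) (by omega) (by omega), fun _ hk => h.yz _ (by omega)⟩

lemma GG.last22 {M : ℕ} {x y w : ℂ} {z : ℕ → ℂ} (h : GG (M + 1) x y w z) :
    GG M (z M) y w z :=
  ⟨h.gz.mono, h.gz.1 M (by omega), h.y0, h.w0, (h.yz M (by omega)).symm,
    (h.wz M (by omega)).symm, h.yw, fun j hk => h.gz.2 M j (by omega) (by omega) (by omega),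
    fun _ hk => h.yz _ (by omega), fun _ hk => h.wz _ (by omega)⟩

lemma range_map_swap {M j : ℕ} (hj : j + 1 < M) :
    (range M).map (Equiv.swap j (j + 1)).toEmbedding = range M := by
  ext x
  simp only [mem_map, mem_range, Equiv.coe_toEmbedding]
  constructor
  · rintro ⟨k, hk, rfl⟩
    exact swap_lt hj hk
  · intro hx
    exact ⟨Equiv.swap j (j + 1) x, swap_lt hj hx, by simp⟩

lemma prod_swap {M j : ℕ} (hj : j + 1 < M) (z : ℕ → ℂ) :
    ∏ k ∈ range M, (z ∘ Equiv.swap j (j + 1)) k = ∏ k ∈ range M, z k := by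
  conv_rhs => rw [← range_map_swap hj, Finset.prod_map]
  rfl

lemma R22_mvf (M : ℕ) (a0 a1 b0 b1 : ℂ) (z : ℕ → ℂ) (hz : Gen M z) (j : ℕ) (hj : j < M) :
    R22 M a0 a1 b0 b1 (mvf j z) = R22 M a0 a1 b0 b1 z :=
  inv_mvf (R22 M a0 a1 b0 b1) (fun z _ j hj => by
    unfold R22
    rw [TM_swap _ _ _ _ hj, prod_swap hj]) j hj z hz

lemma R13_mvf (M : ℕ) (a b0 b1 b2 : ℂ) (z : ℕ → ℂ) (hz : Gen M z) (j : ℕ) (hj : j < M) :
    R13 M a b0 b1 b2 (mvf j z) = R13 M a b0 b1 b2 z :=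
  inv_mvf (R13 M a b0 b1 b2) (fun z _ j hj => by
    unfold R13
    rw [TM_swap _ _ _ _ hj, prod_swap hj]) j hj z hz

lemma R22_swap_a (M : ℕ) (a0 a1 b0 b1 : ℂ) (z : ℕ → ℂ) :
    (q * a1 - q⁻¹ * a0) * R22 M a1 a0 b0 b1 z = (q * a0 - q⁻¹ * a1) * R22 M a0 a1 b0 b1 z := by
  unfold R22
  rw [TM_perm (c := [a0, a1, b0, b1]) (c' := [a1, a0, b0, b1]) (List.Perm.swap _ _ _)]
  ring

lemma R13_swap_b01 (M : ℕ) (a b0 b1 b2 : ℂ) (z : ℕ → ℂ) (h0 : b0 ≠ 0) (h1 : b1 ≠ 0) :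
    (q * b1⁻¹ - q⁻¹ * b0⁻¹) * R13 M a b1 b0 b2 z =
      (q * b0⁻¹ - q⁻¹ * b1⁻¹) * R13 M a b0 b1 b2 z := by
  have e1 : (q * b1⁻¹ - q⁻¹ * b0⁻¹) = (q * b0 - q⁻¹ * b1) / (b0 * b1) := by
    have hq0 := q_ne_zero
    field_simp
  have e2 : (q * b0⁻¹ - q⁻¹ * b1⁻¹) = (q * b1 - q⁻¹ * b0) / (b0 * b1) := by
    have hq0 := q_ne_zero
    field_simp
  unfold R13
  rw [TM_perm (c := [b2, a, b1, b0]) (c' := [b2, a, b0, b1])
    (by
      rw [List.perm_iff_count]
      intro x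
      simp only [List.count_cons, List.count_nil]
      ring), e1, e2, show b1 * b0 * b2 = b0 * b1 * b2 by ring]
  ring

lemma R13_swap_b12 (M : ℕ) (a b0 b1 b2 : ℂ) (z : ℕ → ℂ) (h1 : b1 ≠ 0) (h2 : b2 ≠ 0) :
    (q * b2⁻¹ - q⁻¹ * b1⁻¹) * R13 M a b0 b2 b1 z =
      (q * b1⁻¹ - q⁻¹ * b2⁻¹) * R13 M a b0 b1 b2 z := by
  have e1 : (q * b2⁻¹ - q⁻¹ * b1⁻¹) = (q * b1 - q⁻¹ * b2) / (b1 * b2) := by
    have hq0 := q_ne_zero
    field_simp
  have e2 : (q * b1⁻¹ - q⁻¹ * b2⁻¹) = (q * b2 - q⁻¹ * b1) / (b1 * b2) := by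
    have hq0 := q_ne_zero
    field_simp
  unfold R13
  rw [TM_perm (c := [b1, a, b0, b2]) (c' := [b2, a, b0, b1])
    (by
      rw [List.perm_iff_count]
      intro x
      simp only [List.count_cons, List.count_nil]
      ring), e1, e2, show b0 * b2 * b1 = b0 * b1 * b2 by ring]
  ring

open Polynomial in
/-- `R22` is polynomial in the last top leg -/
lemma R22_poly (M : ℕ) (a0 b0 b1 : ℂ) (z : ℕ → ℂ) :
    ∃ p : Polynomial ℂ, p.natDegree ≤ M + 1 ∧ ∀ t, R22 M a0 t b0 b1 z = p.eval t := by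
  obtain ⟨p, hp, he⟩ := TM_poly M [a0, b0, b1] z
  refine ⟨C (-(q * b0 - q⁻¹ * b1) / (3 ^ (ee M) * (b0 * b1 * ∏ k ∈ range M, z k) ^ (M + 1))) *
    ((C q * X - C (q⁻¹ * a0)) * p), ?_, fun t => ?_⟩
  · refine (natDegree_C_mul_le _ _).trans ?_
    refine natDegree_mul_le.trans ?_
    have h1 : (C q * X - C (q⁻¹ * a0)).natDegree ≤ 1 := by
      refine (natDegree_sub_le _ _).trans ?_
      rw [natDegree_C]
      refine max_le ((natDegree_C_mul_le _ _).trans natDegree_X_le) (Nat.zero_le _)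
    omega
  · unfold R22
    rw [he]
    simp only [eval_mul, eval_C, eval_sub, eval_X]
    ring

open Polynomial in
/-- `R13` is polynomial in the last bottom leg, up to a power -/
lemma R13_poly (M : ℕ) (a b0 b1 : ℂ) (z : ℕ → ℂ) :
    ∃ p : Polynomial ℂ, p.natDegree ≤ M + 2 ∧
      ∀ t, t ≠ 0 → t ^ (M + 2) * R13 M a b0 b1 t z = p.eval t := by
  obtain ⟨p, hp, he⟩ := TM_poly M [a, b0, b1] z
  refine ⟨C (-((q ^ 2 - q) * (q * b0 - q⁻¹ * b1)) /
      (3 ^ (ee M + 1) * (b0 * b1 * ∏ k ∈ range M, z k) ^ (M + 2))) *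
    ((C (-q⁻¹) * X + C (q * b0)) * ((C (-q⁻¹) * X + C (q * b1)) * p)), ?_, fun t ht => ?_⟩
  · refine (natDegree_C_mul_le _ _).trans ?_
    have h1 : ∀ c : ℂ, (C (-q⁻¹) * X + C c).natDegree ≤ 1 := by
      intro c
      refine (natDegree_add_le _ _).trans ?_
      rw [natDegree_C]
      refine max_le ((natDegree_C_mul_le _ _).trans natDegree_X_le) (Nat.zero_le _)
    have h2 := h1 (q * b0)
    have h3 := h1 (q * b1)
    refine natDegree_mul_le.trans ?_
    have h4 : ((C (-q⁻¹) * X + C (q * b1)) * p).natDegree ≤ 1 + M :=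
      natDegree_mul_le.trans (by omega)
    omega
  · unfold R13
    rw [he]
    simp only [eval_mul, eval_C, eval_add, eval_X]
    rw [show b0 * b1 * t * ∏ k ∈ range M, z k = (b0 * b1 * ∏ k ∈ range M, z k) * t by ring,
      mul_pow]
    have ht' : t ^ (M + 2) ≠ 0 := pow_ne_zero _ ht
    rw [mul_div_assoc', show (3 : ℂ) ^ (ee M + 1) * ((b0 * b1 * ∏ k ∈ range M, z k) ^ (M + 2) *
      t ^ (M + 2)) = t ^ (M + 2) * (3 ^ (ee M + 1) * (b0 * b1 * ∏ k ∈ range M, z k) ^ (M + 2))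
      by ring, mul_div_mul_left _ _ ht']
    ring

lemma q_cancel {x y : ℂ} (h : q * x = q ^ 2 * y) : x = q * y := by
  have : q * (x - q * y) = 0 := by linear_combination h
  rcases mul_eq_zero.1 this with h1 | h1
  · exact absurd h1 q_ne_zero
  · exact sub_eq_zero.1 h1

lemma q_cancel1 {x y : ℂ} (h : q * x = q * y) : x = y := mul_left_cancel₀ q_ne_zero h

lemma q_cancel2 {x y : ℂ} (h : q ^ 2 * x = q ^ 2 * y) : x = y :=
  mul_left_cancel₀ (pow_ne_zero _ q_ne_zero) h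

lemma R22_zero_q (M : ℕ) (a0 b0 b1 : ℂ) (z : ℕ → ℂ) : R22 M a0 (q * a0) b0 b1 z = 0 := by
  unfold R22
  have h1 : q * (q * a0) - q⁻¹ * a0 = 0 := by rw [q_inv]; ring
  rw [h1]
  simp

lemma R13_zero_b12 (M : ℕ) (a b0 b1 : ℂ) (z : ℕ → ℂ) : R13 M a b0 b1 (q ^ 2 * b1) z = 0 := by
  unfold R13
  have h1 : q * b1 - q⁻¹ * (q ^ 2 * b1) = 0 := by
    rw [q_inv]; linear_combination (-q * b1) * q_cube
  rw [h1]
  simp

lemma R13_zero_b02 (M : ℕ) (a b0 b1 : ℂ) (z : ℕ → ℂ) : R13 M a b0 b1 (q ^ 2 * b0) z = 0 := by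
  unfold R13
  have h1 : q * b0 - q⁻¹ * (q ^ 2 * b0) = 0 := by
    rw [q_inv]; linear_combination (-q * b0) * q_cube
  rw [h1]
  simp

lemma Cub.g_inv {x y : ℂ} (hx : x ≠ 0) (hy : y ≠ 0) (h : Cub x y) :
    q * x⁻¹ - q⁻¹ * y⁻¹ ≠ 0 := by
  have e : q * x⁻¹ - q⁻¹ * y⁻¹ = (q * y - q⁻¹ * x) / (x * y) := by
    have hq0 := q_ne_zero
    field_simp
  rw [e]
  exact div_ne_zero h.symm.g (mul_ne_zero hx hy)

section psi

variable {Ψ : ∀ L : ℕ, Pat L → (ℤ → ℂ) → ℂ} (hΨ : PsiProps Ψ)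

include hΨ

lemma F22_zero_q (M : ℕ) (a0 b0 b1 : ℂ) (z : ℕ → ℂ) (ha : a0 ≠ 0) :
    F22 Ψ M a0 (q * a0) b0 b1 z = 0 := by
  have h := F22_swap_a hΨ M a0 (q * a0) b0 b1 z
  have h1 : q * (q * a0) - q⁻¹ * a0 = 0 := by rw [q_inv]; ring
  have h2 : q * a0 - q⁻¹ * (q * a0) ≠ 0 := by
    rw [← mul_assoc, inv_mul_cancel₀ q_ne_zero]
    intro h
    have : (q - 1) * a0 = 0 := by linear_combination h
    rcases mul_eq_zero.1 this with h3 | h3
    · exact q_ne_one (sub_eq_zero.1 h3)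
    · exact ha h3
  rw [h1, zero_mul] at h
  exact (mul_eq_zero.1 h.symm).resolve_left h2

lemma F13_zero_b12 (M : ℕ) (a b0 b1 : ℂ) (z : ℕ → ℂ) (hb : b1 ≠ 0) :
    F13 Ψ M a b0 b1 (q ^ 2 * b1) z = 0 := by
  have h := F13_swap_b12 hΨ M a b0 b1 (q ^ 2 * b1) z
  have hq := q_ne_zero
  have h1 : q * (q ^ 2 * b1)⁻¹ - q⁻¹ * b1⁻¹ = 0 := by
    field_simp
    ring
  have h2 : q * b1⁻¹ - q⁻¹ * (q ^ 2 * b1)⁻¹ ≠ 0 := by
    intro h
    field_simp at h
    have h4 : q = 1 := by linear_combination h - q * q_cube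
    exact q_ne_one h4
  rw [h1, zero_mul] at h
  exact (mul_eq_zero.1 h.symm).resolve_left h2

lemma F13_zero_b02 (M : ℕ) (a b0 b1 : ℂ) (z : ℕ → ℂ) (hb : b0 ≠ 0)
    (hc : q * b0⁻¹ - q⁻¹ * b1⁻¹ ≠ 0) :
    F13 Ψ M a b0 b1 (q ^ 2 * b0) z = 0 := by
  have h := F13_swap_b01 hΨ M a b0 b1 (q ^ 2 * b0) z
  rw [F13_zero_b12 hΨ M a b1 b0 z hb, mul_zero] at h
  exact (mul_eq_zero.1 h.symm).resolve_left hc

variable (hT : LegTop)

include hT

/-- the statement for F22 -/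
def P22 (Ψ : ∀ L : ℕ, Pat L → (ℤ → ℂ) → ℂ) (M : ℕ) : Prop :=
  ∀ (a0 b0 b1 : ℂ) (z : ℕ → ℂ), GG M a0 b0 b1 z → ∀ a1, F22 Ψ M a0 a1 b0 b1 z = R22 M a0 a1 b0 b1 z

/-- the statement for F13 -/
def P13 (Ψ : ∀ L : ℕ, Pat L → (ℤ → ℂ) → ℂ) (M : ℕ) : Prop :=
  ∀ (a b0 b1 : ℂ) (z : ℕ → ℂ), GG M a b0 b1 z → ∀ b2, b2 ≠ 0 →
    F13 Ψ M a b0 b1 b2 z = R13 M a b0 b1 b2 z

theorem stepA (M : ℕ) (hM : 1 ≤ M) (ih : P13 Ψ M) : P22 Ψ (M + 1) := by
  intro a0 b0 b1 z hz a1
  obtain ⟨p, hp, hpe⟩ := F22_poly hΨ (M + 1) a0 b0 b1 z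
  obtain ⟨r, hr, hre⟩ := R22_poly (M + 1) a0 b0 b1 z
  have hzM : z M ≠ 0 := hz.gz.1 M (by omega)
  have key : p = r := by
    apply Polynomial.eq_of_natDegree_lt_card_of_eval_eq p r
      (f := Sum.elim (fun j : Fin (M + 1) => q ^ 2 * z j) ![q * a0, q * z M])
    · apply Function.Injective.sumElim
      · intro j k hjk
        by_contra hne
        have hne' : (j : ℕ) ≠ k := fun h => hne (Fin.ext h)
        exact (hz.gz.2 j k j.2 k.2 hne').ne1 (q_cancel2 hjk)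
      · intro i j hij
        fin_cases i <;> fin_cases j
        · rfl
        · exact absurd (q_cancel1 hij) (hz.xz M (by omega)).ne1
        · exact absurd (q_cancel1 hij).symm (hz.xz M (by omega)).ne1
        · rfl
      · intro j i
        fin_cases i
        · intro h
          exact (hz.xz j j.2).neq (q_cancel h.symm)
        · intro h
          have h1 : z M = q * z j := q_cancel h.symm
          by_cases hj : (j : ℕ) = M
          · rw [hj] at h1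
            have : (q - 1) * z M = 0 := by linear_combination -h1
            rcases mul_eq_zero.1 this with h3 | h3
            · exact q_ne_one (sub_eq_zero.1 h3)
            · exact hzM h3
          · exact (hz.gz.2 M j (by omega) j.2 (Ne.symm hj)).neq h1
    · intro i
      rcases i with j | i
      · -- the points q² z_j
        show p.eval (q ^ 2 * z j) = r.eval (q ^ 2 * z j)
        rw [← hpe, ← hre, ← F22_mvf hΨ hT (M + 1) _ _ _ _ z hz.gz j j.2,
          ← R22_mvf (M + 1) _ _ _ _ z hz.gz j j.2]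
        have hm := hz.mvf j j.2
        have h0 : mvf j z 0 = z j := mvf_head j z
        rw [← h0, F22_rec_right hΨ hT M hM a0 b0 b1 (mvf j z),
          R22_right M a0 b0 b1 (mvf j z) hm.gz hz.y0 hz.w0,
          ih a0 b0 b1 _ hm.shift _ (by rw [h0]; exact hz.gz.1 j j.2)]
      · fin_cases i
        · show p.eval (q * a0) = r.eval (q * a0)
          rw [← hpe, ← hre, F22_zero_q hΨ _ _ _ _ _ hz.x0, R22_zero_q]
        · show p.eval (q * z M) = r.eval (q * z M)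
          rw [← hpe, ← hre]
          have e1 := F22_swap_a hΨ (M + 1) a0 (q * z M) b0 b1 z
          have e2 := R22_swap_a (M + 1) a0 (q * z M) b0 b1 z
          have hc : q * a0 - q⁻¹ * (q * z M) ≠ 0 := ((hz.xz M (by omega)).symm.qmul).symm.g
          have e3 : F22 Ψ (M + 1) (q * z M) a0 b0 b1 z = R22 (M + 1) (q * z M) a0 b0 b1 z := by
            rw [F22_rec_left hΨ hT M hM (q * z M) a0 b0 b1 z
              (by linear_combination (-(z M)) * q_cube),
              R22_left M a0 b0 b1 z hz.gz hz.y0 hz.w0,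
              ih a0 (z M) b0 z hz.last13 b1 hz.w0]
          rw [e3, e2] at e1
          exact (mul_left_cancel₀ hc e1).symm
    · simp only [Fintype.card_sum, Fintype.card_fin]
      rw [max_lt_iff]
      omega
  rw [hpe, key, hre]

theorem stepB (M : ℕ) (ih : P22 Ψ M) : P13 Ψ (M + 1) := by
  intro a b0 b1 z hz b2 hb2
  obtain ⟨p, hp, hpe⟩ := F13_poly hΨ (M + 1) a b0 b1 z
  obtain ⟨r, hr, hre⟩ := R13_poly (M + 1) a b0 b1 z
  have hzM : z M ≠ 0 := hz.gz.1 M (by omega)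
  set p' := Polynomial.reflect (M + 1 + 2) p with hp'
  have hpe' : ∀ t, t ≠ 0 → t ^ (M + 1 + 2) * F13 Ψ (M + 1) a b0 b1 t z = p'.eval t := by
    intro t ht
    have h1 := hpe t⁻¹
    rw [inv_inv] at h1
    rw [h1]
    let _ : Invertible t := invertibleOfNonzero ht
    let _ : Invertible t⁻¹ := invertibleOfNonzero (inv_ne_zero ht)
    have h2 := Polynomial.eval₂_reflect_mul_pow (RingHom.id ℂ) t⁻¹ (M + 1 + 2) p (by omega)
    simp only [invOf_eq_inv, inv_inv, Polynomial.eval₂_id] at h2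
    rw [hp', ← h2, inv_pow]
    have : t ^ (M + 1 + 2) ≠ 0 := pow_ne_zero _ ht
    field_simp
  have hpd : p'.natDegree ≤ M + 1 + 2 := by
    rw [hp']
    exact (Polynomial.natDegree_reflect_le).trans (max_le le_rfl hp)
  have hcan : ∀ t, t ≠ 0 → (p'.eval t = r.eval t ↔
      F13 Ψ (M + 1) a b0 b1 t z = R13 (M + 1) a b0 b1 t z) := by
    intro t ht
    rw [← hpe' t ht, ← hre t ht]
    exact ⟨fun h => mul_left_cancel₀ (pow_ne_zero _ ht) h, fun h => by rw [h]⟩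
  have hq := q_ne_zero
  have key : p' = r := by
    apply Polynomial.eq_of_natDegree_lt_card_of_eval_eq p' r
      (f := Sum.elim (fun j : Fin (M + 1) => q * z j) ![q ^ 2 * b0, q ^ 2 * b1, q ^ 2 * z M])
    · apply Function.Injective.sumElim
      · intro j k hjk
        by_contra hne
        have hne' : (j : ℕ) ≠ k := fun h => hne (Fin.ext h)
        exact (hz.gz.2 j k j.2 k.2 hne').ne1 (q_cancel1 hjk)
      · intro i j hij
        fin_cases i <;> fin_cases j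
        · rfl
        · exact absurd (q_cancel2 hij) hz.yw.ne1
        · exact absurd (q_cancel2 hij) (hz.yz M (by omega)).ne1
        · exact absurd (q_cancel2 hij).symm hz.yw.ne1
        · rfl
        · exact absurd (q_cancel2 hij) (hz.wz M (by omega)).ne1
        · exact absurd (q_cancel2 hij).symm (hz.yz M (by omega)).ne1
        · exact absurd (q_cancel2 hij).symm (hz.wz M (by omega)).ne1
        · rfl
      · intro j i
        fin_cases i
        · intro h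
          exact (hz.yz j j.2).symm.neq (q_cancel h)
        · intro h
          exact (hz.wz j j.2).symm.neq (q_cancel h)
        · intro h
          have h1 : z j = q * z M := q_cancel h
          by_cases hj : (j : ℕ) = M
          · rw [hj] at h1
            have : (q - 1) * z M = 0 := by linear_combination -h1
            rcases mul_eq_zero.1 this with h3 | h3
            · exact q_ne_one (sub_eq_zero.1 h3)
            · exact hzM h3
          · exact (hz.gz.2 j M j.2 (by omega) hj).neq h1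
    · intro i
      rcases i with j | i
      · -- the points q z_j
        have hzj := hz.gz.1 j j.2
        show p'.eval (q * z j) = r.eval (q * z j)
        rw [hcan _ (mul_ne_zero hq hzj), ← F13_mvf hΨ hT (M + 1) _ _ _ _ z hz.gz j j.2,
          ← R13_mvf (M + 1) _ _ _ _ z hz.gz j j.2]
        have hm := hz.mvf j j.2
        have h0 : mvf j z 0 = z j := mvf_head j z
        rw [← h0, F13_rec_right hΨ hT M a b0 b1 (mvf j z),
          R13_right M a b0 b1 (mvf j z) hm.gz hz.y0 hz.w0, ih a b0 b1 _ hm.shift _]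
      · fin_cases i
        · show p'.eval (q ^ 2 * b0) = r.eval (q ^ 2 * b0)
          rw [hcan _ (mul_ne_zero (pow_ne_zero _ hq) hz.y0), R13_zero_b02,
            F13_zero_b02 hΨ _ _ _ _ _ hz.y0 (Cub.g_inv hz.y0 hz.w0 hz.yw)]
        · show p'.eval (q ^ 2 * b1) = r.eval (q ^ 2 * b1)
          rw [hcan _ (mul_ne_zero (pow_ne_zero _ hq) hz.w0), R13_zero_b12,
            F13_zero_b12 hΨ _ _ _ _ _ hz.w0]
        · show p'.eval (q ^ 2 * z M) = r.eval (q ^ 2 * z M)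
          have hx0 : q ^ 2 * z M ≠ 0 := mul_ne_zero (pow_ne_zero _ hq) hzM
          rw [hcan _ hx0]
          have e1 := F13_swap_b12 hΨ (M + 1) a b0 b1 (q ^ 2 * z M) z
          have e2 := F13_swap_b01 hΨ (M + 1) a b0 (q ^ 2 * z M) b1 z
          have f1 := R13_swap_b12 (M + 1) a b0 b1 (q ^ 2 * z M) z hz.w0 hx0
          have f2 := R13_swap_b01 (M + 1) a b0 (q ^ 2 * z M) b1 z hz.y0 hx0
          have hc1 : q * b1⁻¹ - q⁻¹ * (q ^ 2 * z M)⁻¹ ≠ 0 :=
            Cub.g_inv hz.w0 hx0 ((hz.wz M (by omega)).symm.q2mul).symm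
          have hc2 : q * b0⁻¹ - q⁻¹ * (q ^ 2 * z M)⁻¹ ≠ 0 :=
            Cub.g_inv hz.y0 hx0 ((hz.yz M (by omega)).symm.q2mul).symm
          have e3 : F13 Ψ (M + 1) a (q ^ 2 * z M) b0 b1 z =
              R13 (M + 1) a (q ^ 2 * z M) b0 b1 z := by
            rw [F13_rec_left hΨ hT M a (q ^ 2 * z M) b0 b1 z rfl,
              R13_left M a b0 b1 z hz.gz hz.y0 hz.w0, ih (z M) b0 b1 z hz.last22 a]
          rw [e3, f2] at e2
          have e4 := mul_left_cancel₀ hc2 e2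
          rw [← e4, f1] at e1
          exact (mul_left_cancel₀ hc1 e1).symm
    · simp only [Fintype.card_sum, Fintype.card_fin]
      rw [max_lt_iff]
      omega
  rw [← hcan b2 hb2, key]

theorem P22_P13 (n : ℕ) : P22 Ψ (2 * n) ∧ P13 Ψ (2 * n + 1) := by
  induction n with
  | zero =>
    have h : P22 Ψ 0 := by
      intro a0 b0 b1 z hz a1
      rw [F22_zero hΨ a0 a1 b0 b1 z hz.y0 hz.w0]
      unfold R22
      rw [TM_zero]
      simp only [ee, pow_one, range_zero, prod_empty]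
      have h0 := hz.y0
      have h1 := hz.w0
      field_simp
      ring
    exact ⟨h, stepB hΨ hT 0 h⟩
  | succ n ih =>
    have h : P22 Ψ (2 * n + 1 + 1) := stepA hΨ hT (2 * n + 1) (by omega) ih.2
    exact ⟨h, stepB hΨ hT _ h⟩

/-- the (2,2) leg function -/
theorem F22_eq (M : ℕ) (hM : Even M) (a0 a1 b0 b1 : ℂ) (z : ℕ → ℂ) (h : GG M a0 b0 b1 z) :
    F22 Ψ M a0 a1 b0 b1 z = R22 M a0 a1 b0 b1 z := by
  obtain ⟨n, hn⟩ := hM
  have : M = 2 * n := by omega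
  subst this
  exact (P22_P13 hΨ hT n).1 a0 b0 b1 z h a1

end psi

end H56.EX

end

section

/-! The topological lemmas collected. -/

namespace H56.EX

theorem legTop : LegTop where
  adj := fun kt kb M h1 h2 Pt Pb j hj => leg_adj kt kb M h1 h2 Pt Pb j hj
  right := fun kt kb M h1 h2 Pt Pb => leg_ins_right kt kb M h1 h2 Pt Pb
  left := fun kt kb M h1 h2 Pt Pb => leg_ins_left kt kb M h1 h2 Pt Pb

/-- the (2,2) leg function -/
theorem F22_formula {Ψ : ∀ L : ℕ, Pat L → (ℤ → ℂ) → ℂ} (hΨ : PsiProps Ψ) (M : ℕ) (hM : Even M)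
    (a0 a1 b0 b1 : ℂ) (z : ℕ → ℂ) (h : GG M a0 b0 b1 z) :
    F22 Ψ M a0 a1 b0 b1 z = R22 M a0 a1 b0 b1 z :=
  F22_eq hΨ legTop M hM a0 a1 b0 b1 z h

end H56.EX

end

section

/-! The leg formula for all nonzero parameters, in terms of the polynomial `S4`. -/

namespace H56.EX

open Finset Filter Topology

/-- helper96's `S4` -/
noncomputable abbrev S4 := Pool.Agent.H96.EX.S4

lemma prp_eq_prz : ∀ (M : ℕ) (z : ℕ → ℂ), prp M z = Pool.Agent.H96.EX.prz M z := by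
  intro M
  induction M with
  | zero => intro z; simp [prp, Pool.Agent.H96.EX.prz_range']
  | succ M ih =>
    intro z
    simp only [prp]
    rw [ih, Pool.Agent.H96.EX.prz_range', Pool.Agent.H96.EX.prz_range', Finset.prod_range_succ']
    simp only [Finset.prod_range_succ', range_zero, prod_empty, mul_one]
    rw [Finset.prod_mul_distrib, mul_comm]

/-- `TM` is the polynomial `S4` at generic points -/
lemma TM_eq_S4 (M : ℕ) (a b c d : ℂ) (z : ℕ → ℂ) (hz : Gen M z) :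
    TM M [a, b, c, d] z = S4 M ![a, b, c, d] z := by
  unfold TM S4
  rw [prp_eq_prz, Pool.Agent.H96.EX.S4_eq_SG_range a b c d z
    (fun i j hij => hz.2 i j i.2 j.2 (fun h => hij (Fin.ext h)))]

lemma legSum_contAt {Lt Lb : ℕ} (kt kb M : ℕ) (v : ℂ → Pat Lt → ℂ) (w : ℂ → Pat Lb → ℂ)
    (hv : ∀ P, ContinuousAt (fun t => v t P) 0) (hw : ∀ P, ContinuousAt (fun t => w t P) 0) :
    ContinuousAt (fun t => legSum kt kb M (v t) (w t)) 0 := by
  simp only [legSum_eq]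
  apply tendsto_finsetSum
  intro Pt _
  apply tendsto_finsetSum
  intro Pb _
  exact continuousAt_const.mul ((hv Pt).mul (hw Pb))

section cont

variable {Ψ : ∀ L : ℕ, Pat L → (ℤ → ℂ) → ℂ} (hΨ : PsiProps Ψ)

include hΨ

lemma psi_contAt (L : ℕ) (P : Pat L) (s : ℂ → ℕ → ℂ)
    (hs : ∀ n, n < L → ContinuousAt (fun t => s t n) 0) :
    ContinuousAt (fun t => Ψ L P (par L (s t))) 0 := by
  obtain ⟨p, hp⟩ := hΨ.mv L P
  have h : (fun t => Ψ L P (par L (s t))) =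
      fun t => MvPolynomial.eval (fun k : Fin L => s t k) p := by
    funext t
    rw [hp]
    congr 2
    funext k
    exact par_nat _ k.2
  rw [h]
  exact ((MvPolynomial.continuous_eval p).continuousAt).comp
    (continuousAt_pi.2 fun k => hs k k.2)

end cont

lemma bad_finite (N : ℕ) (w : ℕ → ℂ) :
    {t : ℂ | ¬ Gen N (Pool.Agent.H96.EX.zt w t)}.Finite := by
  have h1 := Pool.Agent.H96.EX.cubes_finite (M := N) w
  have h2 : (⋃ j ∈ range N, {t : ℂ | w j + t * ((j : ℂ) + 1) = 0}).Finite := by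
    apply Set.Finite.biUnion (Finset.finite_toSet _)
    intro j _
    have hj : ((j : ℂ) + 1) ≠ 0 := by exact_mod_cast Nat.succ_ne_zero j
    apply Set.Finite.subset (Set.finite_singleton (-(w j) / ((j : ℂ) + 1)))
    intro t ht
    simp only [Set.mem_ofPred_eq] at ht
    rw [Set.mem_singleton_iff, eq_div_iff hj]
    linear_combination ht
  apply (h1.union h2).subset
  intro t ht
  simp only [Set.mem_ofPred_eq, Set.mem_union, Set.mem_iUnion] at ht ⊢
  by_contra hcon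
  push Not at hcon
  apply ht
  refine ⟨fun j hj => hcon.2 j (mem_range.2 hj), fun j k hj hk hjk => ?_⟩
  exact hcon.1 ⟨j, hj⟩ ⟨k, hk⟩ (fun h => hjk (congrArg Fin.val h))

lemma gen_eventually (N : ℕ) (w : ℕ → ℂ) :
    ∀ᶠ t in 𝓝[≠] (0 : ℂ), Gen N (Pool.Agent.H96.EX.zt w t) := by
  have h := (bad_finite N w).subset (Set.sdiff_subset (t := {0}))
  have hc : (({t : ℂ | ¬ Gen N (Pool.Agent.H96.EX.zt w t)} \ {0})ᶜ) ∈ 𝓝 (0 : ℂ) := by
    apply h.isClosed.isOpen_compl.mem_nhds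
    simp
  have hc' : (({t : ℂ | ¬ Gen N (Pool.Agent.H96.EX.zt w t)} \ {0})ᶜ) ∈ 𝓝[≠] (0 : ℂ) :=
    mem_nhdsWithin_of_mem_nhds hc
  filter_upwards [hc', self_mem_nhdsWithin] with t ht ht0
  by_contra hcon
  exact ht ⟨hcon, ht0⟩

lemma GG_of_Gen {M : ℕ} {w : ℕ → ℂ} (h : Gen (M + 3) w) :
    GG M (w 0) (w 1) (w 2) (fun n => w (n + 3)) :=
  ⟨⟨fun j hj => h.1 _ (by omega), fun j k hj hk hjk => h.2 _ _ (by omega) (by omega) (by omega)⟩,
    h.1 0 (by omega), h.1 1 (by omega), h.1 2 (by omega), h.2 0 1 (by omega) (by omega) (by omega),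
    h.2 0 2 (by omega) (by omega) (by omega), h.2 1 2 (by omega) (by omega) (by omega),
    fun j hj => h.2 0 (j + 3) (by omega) (by omega) (by omega),
    fun j hj => h.2 1 (j + 3) (by omega) (by omega) (by omega),
    fun j hj => h.2 2 (j + 3) (by omega) (by omega) (by omega)⟩

/-- The (2,2) leg function for all nonzero parameters. -/
theorem F22_all {Ψ : ∀ L : ℕ, Pat L → (ℤ → ℂ) → ℂ} (hΨ : PsiProps Ψ) (M : ℕ) (hM : Even M)
    (a0 a1 b0 b1 : ℂ) (z : ℕ → ℂ) (h0 : b0 ≠ 0) (h1 : b1 ≠ 0) (hz : ∀ j, j < M → z j ≠ 0) :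
    F22 Ψ M a0 a1 b0 b1 z =
      -((q * a1 - q⁻¹ * a0) * (q * b0 - q⁻¹ * b1) * S4 M ![a1, a0, b0, b1] z) /
        (3 ^ (ee M) * (b0 * b1 * ∏ k ∈ range M, z k) ^ (M + 1)) := by
  set w : ℕ → ℂ := scons a0 (scons b0 (scons b1 z)) with hw
  set W : ℂ → ℕ → ℂ := Pool.Agent.H96.EX.zt w with hW
  have hW0 : W 0 = w := Pool.Agent.H96.EX.zt_zero w
  have hWc : Continuous W := Pool.Agent.H96.EX.zt_cont w
  have hWn : ∀ n, Continuous (fun t => W t n) := fun n => (continuous_apply n).comp hWc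
  set F : ℂ → ℂ := fun t => F22 Ψ M (W t 0) a1 (W t 1) (W t 2) (fun n => W t (n + 3)) with hF
  set G : ℂ → ℂ := fun t => -((q * a1 - q⁻¹ * W t 0) * (q * W t 1 - q⁻¹ * W t 2) *
    S4 M ![a1, W t 0, W t 1, W t 2] (fun n => W t (n + 3))) /
        (3 ^ (ee M) * (W t 1 * W t 2 * ∏ k ∈ range M, W t (k + 3)) ^ (M + 1)) with hG
  have hb0 : W 0 1 ≠ 0 := by rw [hW0]; exact h0
  have hb1 : W 0 2 ≠ 0 := by rw [hW0]; exact h1
  have hzz : ∀ n, n < M → W 0 (n + 3) ≠ 0 := by intro n hn; rw [hW0]; exact hz n hn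
  have hFc : ContinuousAt F 0 := by
    apply legSum_contAt
    · intro P
      apply psi_contAt hΨ
      intro n hn
      rcases n with _ | _ | n
      · exact (hWn 0).continuousAt
      · exact continuousAt_const
      · exact (hWn (n + 3)).continuousAt
    · intro P
      apply psi_contAt hΨ
      intro n hn
      rcases n with _ | _ | n
      · exact (hWn 1).continuousAt.inv₀ hb0
      · exact (hWn 2).continuousAt.inv₀ hb1
      · exact (hWn (n + 3)).continuousAt.inv₀ (hzz n (by omega))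
  have hGc : ContinuousAt G 0 := by
    have hS : Continuous (fun t => S4 M ![a1, W t 0, W t 1, W t 2] (fun n => W t (n + 3))) := by
      unfold S4 Pool.Agent.H96.EX.S4
      apply Pool.Agent.H96.EX.S_continuous
      · apply continuous_pi
        intro i
        fin_cases i
        · exact continuous_const
        · exact hWn 0
        · exact hWn 1
        · exact hWn 2
      · apply continuous_pi
        intro n
        exact hWn (n + 3)
    apply ContinuousAt.div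
    · have h0' := hWn 0
      have h1' := hWn 1
      have h2' := hWn 2
      apply Continuous.continuousAt
      fun_prop
    · have h1' := hWn 1
      have h2' := hWn 2
      have hp : Continuous (fun t => ∏ k ∈ range M, W t (k + 3)) :=
        continuous_finsetProd _ fun k _ => hWn (k + 3)
      apply Continuous.continuousAt
      fun_prop
    · refine mul_ne_zero (three_ne _) (pow_ne_zero _ (mul_ne_zero (mul_ne_zero hb0 hb1) ?_))
      exact Finset.prod_ne_zero_iff.2 fun k hk => hzz k (mem_range.1 hk)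
  have hev : F =ᶠ[𝓝[≠] 0] G := by
    filter_upwards [gen_eventually (M + 3) w] with t ht
    have hgg := GG_of_Gen ht
    show F22 Ψ M (W t 0) a1 (W t 1) (W t 2) (fun n => W t (n + 3)) = _
    rw [F22_formula hΨ M hM _ a1 _ _ _ hgg]
    unfold R22
    rw [TM_eq_S4 _ _ _ _ _ _ hgg.gz]
  have hlim := tendsto_nhds_unique (hFc.tendsto.mono_left nhdsWithin_le_nhds)
    ((hGc.tendsto.mono_left nhdsWithin_le_nhds).congr' hev.symm)
  have hF0 : F 0 = F22 Ψ M a0 a1 b0 b1 z := by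
    show F22 Ψ M (W 0 0) a1 (W 0 1) (W 0 2) (fun n => W 0 (n + 3)) = _
    rw [hW0]; rfl
  have hG0 : G 0 = -((q * a1 - q⁻¹ * a0) * (q * b0 - q⁻¹ * b1) * S4 M ![a1, a0, b0, b1] z) /
        (3 ^ (ee M) * (b0 * b1 * ∏ k ∈ range M, z k) ^ (M + 1)) := by
    show -((q * a1 - q⁻¹ * W 0 0) * (q * W 0 1 - q⁻¹ * W 0 2) *
      S4 M ![a1, W 0 0, W 0 1, W 0 2] (fun n => W 0 (n + 3))) /
        (3 ^ (ee M) * (W 0 1 * W 0 2 * ∏ k ∈ range M, W 0 (k + 3)) ^ (M + 1)) = _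
    rw [hW0]; rfl
  rw [← hF0, hlim, hG0]

/-- The homogeneous value. -/
theorem F22_one {Ψ : ∀ L : ℕ, Pat L → (ℤ → ℂ) → ℂ} (hΨ : PsiProps Ψ) (M : ℕ) (hM : Even M) :
    F22 Ψ M 1 1 1 1 (fun _ => 1) = 3 * S4 M ![1, 1, 1, 1] (fun _ => 1) / 3 ^ (ee M) := by
  rw [F22_all hΨ M hM 1 1 1 1 (fun _ => 1) one_ne_zero one_ne_zero (fun _ _ => one_ne_zero)]
  have hq2 : q⁻¹ = -1 - q := by
    rw [q_inv]; linear_combination q_sq
  have hd : (q * 1 - q⁻¹ * 1) * (q * 1 - q⁻¹ * 1) = -3 := by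
    rw [hq2]; linear_combination 4 * q_sq
  rw [hd]
  simp

end H56.EX

end

section

/-!
# The homogeneous four-leg function is `f4`
-/

namespace Pool.Agent.H34.Hom

open Finset Pool.Agent.H96.EX Filter Topology

lemma PM_eq_prz (M : ℕ) (z : ℕ → ℂ) : PM M z = prz M z := (prz_range' M z).symm

lemma gen_fin {M : ℕ} {z : ℕ → ℂ} (h : Gen M z) : ∀ i j : Fin M, i ≠ j → (z i) ^ 3 ≠ (z j) ^ 3 :=
  fun i j hij => h i i.2 j j.2 (fun e => hij (Fin.ext e))

theorem S4_HV (M : ℕ) : S4 M ![1, 1, 1, 1] (fun _ => 1) =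
    HV H56.EX.q H56.EX.q (H56.EX.q ^ 2) M [1, 1, 1, 1] := by
  have hcont : Continuous (fun t : ℝ => S4 M ![1, 1, 1, 1] (zt t)) := by
    unfold S4
    apply S_continuous
    · exact continuous_const
    · apply continuous_pi
      intro j
      unfold zt
      fun_prop
  have h1 : Tendsto (fun t : ℝ => S4 M ![1, 1, 1, 1] (zt t)) (𝓝[>] 0)
      (𝓝 (S4 M ![1, 1, 1, 1] (fun _ => 1))) := by
    have h2 := (hcont.tendsto 0).mono_left (nhdsWithin_le_nhds (s := Set.Ioi 0))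
    have h3 : zt 0 = fun _ => 1 := by
      funext j; simp [zt]
    rw [h3] at h2
    exact h2
  refine tendsto_nhds_unique h1 ?_
  refine (tendsto_HV H56.EX.q (H56.EX.q ^ 2) H56.EX.q_sq M [1, 1, 1, 1]).congr' ?_
  filter_upwards [self_mem_nhdsWithin] with t ht
  rw [S4_eq_SG_range 1 1 1 1 (zt t) (gen_fin (gen_zt M ht))]
  unfold SS
  rw [PM_eq_prz]

lemma ee_even (m : ℕ) : H56.EX.ee (2 * m) = 2 * m ^ 2 + 3 * m + 1 := by
  induction m with
  | zero => rfl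
  | succ m ih =>
    have h1 : H56.EX.ee (2 * (m + 1)) = H56.EX.ee (2 * m) + (2 * m + 2) + (2 * m + 1 + 2) := rfl
    rw [h1, ih]; ring

/-- the homogeneous (2,2) leg function is `f4` -/
theorem F22_f4 {Ψ : ∀ L : ℕ, H56.EX.Pat L → (ℤ → ℂ) → ℂ} (hΨ : H56.EX.PsiProps Ψ) (m : ℕ) :
    H56.EX.F22 Ψ (2 * m) 1 1 1 1 (fun _ => 1) = ((f4 m : ℝ) : ℂ) := by
  have hM : Even (2 * m) := ⟨m, by ring⟩
  rw [H56.EX.F22_one hΨ (2 * m) hM, show H56.EX.S4 (2 * m) ![1, 1, 1, 1] (fun _ => 1) = _ from S4_HV (2 * m)]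
  have h4 := four_leg_value H56.EX.q_sq (2 * m) hM
  rw [two_leg_value H56.EX.q_sq (2 * m)] at h4
  have e0 : ((-1 : ℂ)) ^ (2 * m) = 1 := by rw [pow_mul]; norm_num
  have e1 : 2 * m * (2 * m + 1) / 2 = m * (2 * m + 1) := by
    rw [mul_assoc, Nat.mul_div_cancel_left _ (by norm_num)]
  rw [e0, one_mul, e1] at h4
  rw [ee_even]
  have e2 : 2 * (2 * m) + 3 = 4 * m + 3 := by ring
  have e3 : 2 * (2 * m) + 2 = 4 * m + 2 := by ring
  rw [e2, e3] at h4
  have e4 : (3 : ℂ) ^ (2 * m ^ 2 + 3 * m + 1) = 3 * 3 ^ (m * (2 * m + 1)) * 9 ^ m := by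
    have : (9 : ℂ) ^ m = 3 ^ (2 * m) := by rw [pow_mul]; norm_num
    rw [this, mul_assoc, ← pow_add, ← pow_succ']
    congr 1
    ring
  rw [e4]
  unfold f4
  push_cast at h4 ⊢
  have hf1 : ((4 * m + 3).factorial : ℂ) ≠ 0 := by exact_mod_cast Nat.factorial_ne_zero _
  have hf2 : ((4 * m + 2).factorial : ℂ) ≠ 0 := by exact_mod_cast Nat.factorial_ne_zero _
  have h3 : (3 : ℂ) ^ (m * (2 * m + 1)) ≠ 0 := pow_ne_zero _ (by norm_num)
  have h9 : (9 : ℂ) ^ m ≠ 0 := pow_ne_zero _ (by norm_num)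
  rw [div_eq_div_iff (mul_ne_zero (mul_ne_zero (by norm_num) h3) h9)
    (mul_ne_zero h9 (mul_ne_zero hf1 hf2))]
  linear_combination 3 * 9 ^ m * h4

end Pool.Agent.H34.Hom

end

section

/-!
# The homogeneous values: sum of the components and four-leg function
-/

set_option autoImplicit false

namespace Pool.Agent.H34.Hom

open Finset

variable {Ψ : ∀ L : ℕ, H56.EX.Pat L → (ℤ → ℂ) → ℂ}

lemma sr_psi (hΨ : H56.EX.PsiProps Ψ) : SR H56.EX.q (H56.EX.ZZ Ψ) :=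
  ⟨fun L z i hi => H56.EX.ZZ_swap hΨ L z i hi, fun L hL z => H56.EX.ZZ_poly hΨ L hL z,
    fun L hL z hz => H56.EX.ZZ_rec hΨ L hL z hz, fun z => H56.EX.ZZ_two hΨ z⟩

lemma par_one (L : ℕ) : H56.EX.par L (fun _ => (1 : ℂ)) = fun _ => 1 := rfl

/-- **Sum rule**: the sum of the components at the homogeneous point is `A_HT(2n)`. -/
theorem sum_psi (hΨ : H56.EX.PsiProps Ψ) (n : ℕ) :
    ∑ P : H56.EX.Pat (2 * n + 2), Ψ (2 * n + 2) P (fun _ => 1) = ((aht (n + 1) : ℝ) : ℂ) := by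
  have hc : Continuous (fun r : ℂ => H56.EX.ZZ Ψ (2 * n + 2) (fun j => r ^ j)) := by
    obtain ⟨p, hp⟩ := H56.EX.ZZ_mv hΨ (2 * n + 2)
    have h : (fun r : ℂ => H56.EX.ZZ Ψ (2 * n + 2) (fun j => r ^ j)) =
        fun r => MvPolynomial.eval (fun k : Fin (2 * n + 2) => r ^ (k : ℕ)) p := by
      funext r; rw [hp]
    rw [h]
    apply (MvPolynomial.continuous_eval p).comp
    fun_prop
  exact sum_value H56.EX.q_sq (sr_psi hΨ) n hc

lemma scons_one : H56.EX.scons (1 : ℂ) (fun _ => 1) = fun _ => 1 := by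
  funext n
  rcases n with _ | n <;> rfl

/-- **Four legs** at the homogeneous point. -/
theorem legSum_f4 (hΨ : H56.EX.PsiProps Ψ) (m : ℕ) :
    H56.EX.legSum 2 2 (2 * m) (fun P : H56.EX.Pat (2 * m + 2) => Ψ (2 * m + 2) P (fun _ => 1))
      (fun P : H56.EX.Pat (2 * m + 2) => Ψ (2 * m + 2) P (fun _ => 1)) = ((f4 m : ℝ) : ℂ) := by
  have h := F22_f4 hΨ m
  unfold H56.EX.F22 at h
  simp only [inv_one, scons_one, par_one] at h
  exact h

/-- the homogeneous vector in size `2 n` -/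
noncomputable def vv (Ψ : ∀ L : ℕ, H56.EX.Pat L → (ℤ → ℂ) → ℂ) (L : ℕ) (P : H56.EX.Pat L) : ℂ :=
  Ψ L P (fun _ => 1)

theorem sum_vv (hΨ : H56.EX.PsiProps Ψ) {L n : ℕ} (hL : L = 2 * n) (hn : 1 ≤ n) :
    ∑ P : H56.EX.Pat L, vv Ψ L P = ((aht n : ℝ) : ℂ) := by
  obtain ⟨m, rfl⟩ : ∃ m, n = m + 1 := ⟨n - 1, by omega⟩
  subst hL
  exact sum_psi hΨ m

theorem sum_vv_ne (hΨ : H56.EX.PsiProps Ψ) {L n : ℕ} (hL : L = 2 * n) (hn : 1 ≤ n) :
    ∑ P : H56.EX.Pat L, vv Ψ L P ≠ 0 := by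
  rw [sum_vv hΨ hL hn]
  exact_mod_cast (aht_pos n).ne'

theorem legSum_vv (hΨ : H56.EX.PsiProps Ψ) {L n : ℕ} (hL : L = 2 * n) (hn : 1 ≤ n) :
    H56.EX.legSum 2 2 (L - 2) (vv Ψ L) (vv Ψ L) / (∑ P : H56.EX.Pat L, vv Ψ L P) ^ 2 =
      ((p4 n : ℝ) : ℂ) := by
  rw [sum_vv hΨ hL hn]
  obtain ⟨m, rfl⟩ : ∃ m, n = m + 1 := ⟨n - 1, by omega⟩
  subst hL
  have h := legSum_f4 hΨ m
  have h2 : 2 * (m + 1) - 2 = 2 * m := by omega
  rw [h2]
  unfold p4
  push_cast
  rw [← h]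
  rfl

end Pool.Agent.H34.Hom

end

section

/-!
# The four-arm exponent of the square lattice at `1 / 2`

The four-leg sum of the stationary vector of the cylinder of circumference `2 n` gives the
probability of four arms up to constants.
-/

set_option autoImplicit false

open MeasureTheory ProbabilityTheory unitInterval Filter Topology

namespace Pool.Agent.H89.EX

open H56.EX
open Pool.Agent.H89.Link
open Pool.Agent.H89.Perc (Vert Edge Config Pr half)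
open Pool.Agent.H61.NC (a4 a4_nonneg)
open Pool.Agent.H31.EX (PN)
open Pool.Agent.H34.Hom (p4 p4_power_law sum_vv_ne legSum_vv)

theorem link_four_p4 {n : ℕ} (hn : 2 ≤ n) :
    (∀ k : ℕ, 1 ≤ k → 2 * k < n → k + 2 < n → p4 n ≤ Pr half (FourD k)) ∧
      (∀ H : ℕ, Pr half {ω | per n ω ∈ Fc n H} ≤ p4 n) ∧
      ∀ H : ℕ, Pr half {ω | per n ω ∈ Fc2 n H} ≤ p4 n := by
  have hst := H56.EX.stat Pool.Agent.H12.QKZ.psiProps (L := 2 * n) (by omega)
  obtain ⟨g, hg, h1, h2, h3⟩ := link_four2 (L := 2 * n) (n := n) rfl hn hst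
    (sum_vv_ne Pool.Agent.H12.QKZ.psiProps rfl (by omega))
  have e : g = p4 n := by
    have h := legSum_vv Pool.Agent.H12.QKZ.psiProps (L := 2 * n) (n := n) rfl (by omega)
    have h' : (g : ℂ) = ((p4 n : ℝ) : ℂ) := hg.trans h
    exact_mod_cast h'
  subst e
  exact ⟨h1, h2, h3⟩

/-- The lower bound for the probability of four arms. -/
theorem a4_lower : ∃ c > (0 : ℝ), ∀ r : ℕ, 1 ≤ r → c * (r : ℝ) ^ (-(5 / 4 : ℝ)) ≤ a4 half r := by
  obtain ⟨c, C, hc, hC, h⟩ := p4_power_law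
  refine ⟨c / 6 * (5 : ℝ) ^ (-(5 / 4 : ℝ)), by positivity, fun r hr => ?_⟩
  have h1 := (h (2 * r + 3) (by omega)).1
  have h2 := (link_four_p4 (n := 2 * r + 3) (by omega)).1 (r + 1) (by omega) (by omega)
    (by omega)
  have h3 := fourD_le_a4 half (by rw [show ((half : I) : ℝ) = 1 / 2 from rfl]; norm_num)
    (k := r + 1) (by omega)
  rw [Nat.add_sub_cancel] at h3
  have hr0 : (0 : ℝ) < r := by exact_mod_cast hr
  have h4 : (5 : ℝ) ^ (-(5 / 4 : ℝ)) * (r : ℝ) ^ (-(5 / 4 : ℝ)) ≤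
      ((2 * r + 3 : ℕ) : ℝ) ^ (-(5 / 4 : ℝ)) := by
    rw [← Real.mul_rpow (by norm_num) hr0.le]
    apply Real.rpow_le_rpow_of_nonpos
    · positivity
    · push_cast
      have : (1 : ℝ) ≤ r := by exact_mod_cast hr
      linarith
    · norm_num
  have h5 : p4 (2 * r + 3) ≤ 6 * a4 half r := h2.trans h3
  have h6 : c * ((2 * r + 3 : ℕ) : ℝ) ^ (-(5 / 4 : ℝ)) ≤ 6 * a4 half r := h1.trans h5
  have h7 := mul_le_mul_of_nonneg_left h4 hc.le
  calc c / 6 * (5 : ℝ) ^ (-(5 / 4 : ℝ)) * (r : ℝ) ^ (-(5 / 4 : ℝ))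
      = 1 / 6 * (c * ((5 : ℝ) ^ (-(5 / 4 : ℝ)) * (r : ℝ) ^ (-(5 / 4 : ℝ)))) := by ring
    _ ≤ a4 half r := by linarith

/-- Outward separation: four arms of the plane can be continued to the four-leg event of the
cylinder. -/
def UpA4 : Prop := ∃ C > (0 : ℝ), ∀ r : ℕ, 1 ≤ r → ∃ n H : ℕ, r ≤ n ∧ 2 ≤ n ∧
  (a4 half r ≤ C * Pr half {ω | per n ω ∈ Fc n H} ∨
    a4 half r ≤ C * Pr half {ω | per n ω ∈ Fc2 n H})

theorem a4_upper (hU : UpA4) :
    ∃ C > (0 : ℝ), ∀ r : ℕ, 1 ≤ r → a4 half r ≤ C * (r : ℝ) ^ (-(5 / 4 : ℝ)) := by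
  obtain ⟨c, C, hc, hC, h⟩ := p4_power_law
  obtain ⟨K, hK, hU⟩ := hU
  refine ⟨K * C, by positivity, fun r hr => ?_⟩
  obtain ⟨n, H, h1, h2, h3⟩ := hU r hr
  have hr0 : (0 : ℝ) < r := by exact_mod_cast hr
  have h4 : a4 half r ≤ K * p4 n := by
    rcases h3 with h3 | h3
    · exact h3.trans (mul_le_mul_of_nonneg_left ((link_four_p4 h2).2.1 H) hK.le)
    · exact h3.trans (mul_le_mul_of_nonneg_left ((link_four_p4 h2).2.2 H) hK.le)
  have h5 : p4 n ≤ C * (n : ℝ) ^ (-(5 / 4 : ℝ)) := (h n (by omega)).2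
  have h6 : (n : ℝ) ^ (-(5 / 4 : ℝ)) ≤ (r : ℝ) ^ (-(5 / 4 : ℝ)) := by
    apply Real.rpow_le_rpow_of_nonpos hr0
    · exact_mod_cast h1
    · norm_num
  calc a4 half r ≤ K * p4 n := h4
    _ ≤ K * (C * (n : ℝ) ^ (-(5 / 4 : ℝ))) := mul_le_mul_of_nonneg_left h5 hK.le
    _ ≤ K * (C * (r : ℝ) ^ (-(5 / 4 : ℝ))) := by gcongr
    _ = K * C * (r : ℝ) ^ (-(5 / 4 : ℝ)) := by ring

/-- A power law up to constants implies the power law with `o(1)` in the exponent. -/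
theorem PN_of_bounds {f : ℕ → ℝ} {a c C : ℝ} (hc : 0 < c)
    (h : ∀ r : ℕ, 1 ≤ r → c * (r : ℝ) ^ (-a) ≤ f r ∧ f r ≤ C * (r : ℝ) ^ (-a)) : PN f a := by
  intro ε hε
  have h1 : Tendsto (fun r : ℕ => (r : ℝ) ^ ε) atTop atTop :=
    (tendsto_rpow_atTop hε).comp tendsto_natCast_atTop_atTop
  obtain ⟨n₀, hn₀⟩ := (((h1.eventually_ge_atTop (1 / c)).and
    (h1.eventually_ge_atTop C)).and (eventually_ge_atTop 1)).exists_forall_of_atTop
  refine ⟨n₀, fun n hn => ?_⟩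
  obtain ⟨⟨h2, h3⟩, h4⟩ := hn₀ n hn
  obtain ⟨h5, h6⟩ := h n h4
  have hn0 : (0 : ℝ) < n := by exact_mod_cast h4
  have hp : 0 < (n : ℝ) ^ (-a) := by positivity
  have hq : 0 < (n : ℝ) ^ (-a - ε) := by positivity
  constructor
  · refine le_trans ?_ h5
    have e : (n : ℝ) ^ (-a) = (n : ℝ) ^ ε * (n : ℝ) ^ (-a - ε) := by
      rw [← Real.rpow_add hn0]
      congr 1
      ring
    rw [e, ← mul_assoc]
    have : 1 ≤ c * (n : ℝ) ^ ε := by
      rw [div_le_iff₀ hc] at h2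
      linarith
    nlinarith
  · refine h6.trans ?_
    have e : (n : ℝ) ^ (-a + ε) = (n : ℝ) ^ ε * (n : ℝ) ^ (-a) := by
      rw [← Real.rpow_add hn0]
      congr 1
      ring
    rw [e]
    exact mul_le_mul_of_nonneg_right h3 hp.le

/-- **The four-arm exponent.** -/
theorem a4_PN (hU : UpA4) : PN (a4 half) (5 / 4) := by
  obtain ⟨c, hc, h1⟩ := a4_lower
  obtain ⟨C, hC, h2⟩ := a4_upper hU
  exact PN_of_bounds hc fun r hr => ⟨h1 r hr, h2 r hr⟩

end Pool.Agent.H89.EX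

end

section

/-!
# Four arms of the plane can be continued to the four-leg event of the cylinder
-/

set_option autoImplicit false

open MeasureTheory ProbabilityTheory unitInterval

namespace Pool.Agent.H47.EX

open Pool.Agent.H89.Perc hiding per
open Pool.Agent.H59.EX
open Pool.Agent.H61.NC (a4 RSWreg)
open Pool.Agent.H89.Link (per Fc2 FourD a4_le_fourD)
open Pool.Agent.H89.EX (UpA4)

theorem four_srcD (r : ℕ) : Four srcD r = FourD r := by
  ext ω
  simp only [Four, FourD, Set.mem_ofPred_eq, cut_srcD]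
  rfl

/-- The upper bound for large radii gives `UpA4`. -/
theorem upA4_of_large {C : ℝ} {r₁ : ℕ} (hC : 0 < C) (h : ∀ r : ℕ, r₁ ≤ r → ∃ n H : ℕ, r ≤ n ∧
    2 ≤ n ∧ a4 half r ≤ C * Pr half {ω | per n ω ∈ Fc2 n H}) : UpA4 := by
  obtain ⟨c, hc, hlow⟩ := Pool.Agent.H89.EX.a4_lower
  obtain ⟨n₁, H₁, hn₁, hn₂, h₁⟩ := h (r₁ + 1) (by omega)
  have hpos : 0 < a4 half (r₁ + 1) :=
    lt_of_lt_of_le (by positivity) (hlow (r₁ + 1) (by omega))
  refine ⟨C + C / a4 half (r₁ + 1), by positivity, fun r hr => ?_⟩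
  have hnn : 0 ≤ C / a4 half (r₁ + 1) := by positivity
  rcases le_or_gt r₁ r with h2 | h2
  · obtain ⟨n, H, h3, h4, h5⟩ := h r h2
    refine ⟨n, H, h3, h4, Or.inr (h5.trans ?_)⟩
    have : (0 : ℝ) ≤ Pr half {ω | per n ω ∈ Fc2 n H} := Pr_nonneg
    nlinarith
  · refine ⟨n₁, H₁, by omega, hn₂, Or.inr ?_⟩
    have h6 : (0 : ℝ) ≤ Pr half {ω | per n₁ ω ∈ Fc2 n₁ H₁} := Pr_nonneg
    have h7 : a4 half r ≤ 1 := Pr_le_one
    have h8 : 1 ≤ C / a4 half (r₁ + 1) * Pr half {ω | per n₁ ω ∈ Fc2 n₁ H₁} := by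
      rw [div_mul_eq_mul_div, le_div_iff₀ hpos, one_mul]
      exact h₁
    nlinarith

/-- `UpA4` from the separation of the arms. -/
theorem upA4_of (h : ∃ (C : ℝ) (r₀ : ℕ), 0 < C ∧ ∀ r : ℕ, r₀ ≤ r → ∃ k : ℕ, 64 * r ≤ k ∧
    k ≤ 128 * r ∧ Pr half (Four srcD r) ≤ C * Pr half (Sep srcD .E .W k)) : UpA4 := by
  obtain ⟨C, r₀, hC, h⟩ := h
  obtain ⟨c, hc, hcyl⟩ := cyl_ext 256 le_rfl
  refine upA4_of_large (C := 100 * (C / c)) (r₁ := r₀ + 2) (by positivity) fun r hr => ?_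
  obtain ⟨k, h1, h2, h3⟩ := h (r - 1) (by omega)
  refine ⟨256 * k, 8 * (256 * k), by omega, by omega, ?_⟩
  have h4 := a4_le_fourD half (by rw [show ((half : I) : ℝ) = 1 / 2 from rfl]; norm_num)
    (by rw [show ((half : I) : ℝ) = 1 / 2 from rfl]; norm_num) (k := r) (by omega)
  rw [← four_srcD] at h4
  have h5 := hcyl k (by omega)
  have h6 : Pr half (Sep srcD .E .W k) ≤
      c⁻¹ * Pr half {ω | per (256 * k) ω ∈ Fc2 (256 * k) (8 * (256 * k))} := by
    rw [inv_mul_eq_div, le_div_iff₀ hc]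
    linarith
  calc a4 half r ≤ 100 * Pr half (Four srcD (r - 1)) := h4
    _ ≤ 100 * (C * Pr half (Sep srcD .E .W k)) := by gcongr
    _ ≤ 100 * (C * (c⁻¹ * Pr half {ω | per (256 * k) ω ∈ Fc2 (256 * k) (8 * (256 * k))})) := by
        gcongr
    _ = 100 * (C / c) * Pr half {ω | per (256 * k) ω ∈ Fc2 (256 * k) (8 * (256 * k))} := by
        rw [div_eq_mul_inv]; ring

end Pool.Agent.H47.EX

end

section

/-!
# The upper bound `UpA4` on the four-arm probability of the plane by that of the cylinder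
-/

set_option autoImplicit false

open MeasureTheory ProbabilityTheory unitInterval

namespace Pool.Agent.H47.EX

open Pool.Agent.H89.Perc hiding per
open Pool.Agent.H59.EX
open Pool.Agent.H29.Sep (BadIn)
open Pool.Agent.H89.EX (UpA4)

theorem upA4_of_bad (hB : BadIn) : UpA4 := by
  obtain ⟨c, hc, hreg⟩ := rswreg_half
  obtain ⟨C, r₀, hC, h⟩ := four_le_sep hB (s := srcD) (fun k hk => sep_srcD_nonempty hk) c hc
  refine upA4_of ⟨C, r₀, hC, fun r hr => ?_⟩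
  exact h r r half .E .W (by decide) hr le_rfl (hreg r)

theorem upA4 : UpA4 := upA4_of_bad Pool.Agent.H26.HP.badIn

end Pool.Agent.H47.EX

end

section

/-!
# Probabilities of the corridor event and of the seals; locality
-/

open MeasureTheory ProbabilityTheory unitInterval

namespace Pool.Agent.H26.ST

open Pool.Agent.H89.Perc Pool.Agent.H61.NC Pool.Agent.H59.EX

private lemma mod_eq' {N : ℕ} {x y : ℤ} (h1 : x - y < N) (h2 : y - x < N)
    (h : x % N = y % N) : x = y := by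
  have hd : (N : ℤ) ∣ x - y := Int.ModEq.dvd (Int.ModEq.symm h)
  have : x - y = 0 := by
    apply Int.eq_zero_of_abs_lt_dvd hd
    rw [abs_lt]
    omega
  omega

private lemma conn_congr_on {ω ω' : Config} {D : Set Vert} {u v : Vert}
    (h : ∀ e ∈ inE D, ω e = true → ω' e = true) (hc : Conn ω D u v) : Conn ω' D u v := by
  refine ⟨hc.1, Relation.ReflTransGen.mono ?_ _ _ hc.2⟩
  rintro a b ⟨ha, hb, e, hj, ho⟩
  exact ⟨ha, hb, e, hj, h e ((inE_of_joins hj).2 ⟨ha, hb⟩) ho⟩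

private lemma hcross_congr {ω ω' : Config} {a b c d : ℤ}
    (h : ∀ e ∈ inE (rect a b c d), ω e = true → ω' e = true) (hc : HCross ω a b c d) :
    HCross ω' a b c d := by
  obtain ⟨u, v, hu, hv, hc⟩ := hc
  exact ⟨u, v, hu, hv, conn_congr_on h hc⟩

private lemma mem_inE_rect {a b c d : ℤ} {e : Edge} : e ∈ inE (rect a b c d) ↔
    (a ≤ e.1 ∧ c ≤ e.2.1) ∧ (e.2.2 = true → e.1 ≤ b ∧ e.2.1 + 1 ≤ d) ∧
      (e.2.2 = false → e.1 + 1 ≤ b ∧ e.2.1 ≤ d) := by
  obtain ⟨x, y, t⟩ := e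
  cases t
  · simp only [inE, rect, src, tgt, Set.mem_ofPred_eq, Bool.false_eq_true, if_false, false_imp_iff,
      true_and, forall_const]
    omega
  · simp only [inE, rect, src, tgt, Set.mem_ofPred_eq, if_true, forall_const]
    simp only [Bool.true_eq_false, false_imp_iff, and_true]
    omega

private lemma mem_domP {k : ℕ} {v : Vert} (h : v ∈ dom .W .E k) :
    -(36 * (k : ℤ)) ≤ v.1 ∧ v.1 ≤ 36 * k ∧ -(32 * (k : ℤ)) ≤ v.2 ∧ v.2 ≤ 32 * k ∧
      (32 * (k : ℤ) < |v.1| → -(3 * (k : ℤ)) ≤ v.2 ∧ v.2 ≤ 3 * k) := by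
  simp only [dom, T, ball, rect, Set.mem_union, Set.mem_ofPred_eq, Prod.fst_zero,
    Prod.snd_zero] at h
  push_cast at h
  rcases abs_cases v.1 with h1 | h1 <;> omega

private lemma EC_bounds {N k : ℕ} (hk : 64 ≤ k) (hN : 128 * k ≤ N) {e : Edge} (he : e ∈ EC N k) :
    -(36 * (k : ℤ)) ≤ e.1 ∧ e.1 < N - 36 * k ∧ -(3 * (k : ℤ)) ≤ e.2.1 ∧ e.2.1 ≤ 3 * k := by
  have hN' : 128 * (k : ℤ) ≤ N := by exact_mod_cast hN
  rcases he with ⟨⟨h1, -⟩, h2⟩ | ⟨h1, -⟩
  · simp only [Cor, rect, src, Set.mem_ofPred_eq] at h1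
    omega
  · simp only [T, rect, src, Set.mem_ofPred_eq] at h1
    omega

private lemma dom_bounds {k : ℕ} {e : Edge} (he : e ∈ inE (dom .W .E k)) :
    -(36 * (k : ℤ)) ≤ e.1 ∧ e.1 ≤ 36 * k ∧ -(32 * (k : ℤ)) ≤ e.2.1 ∧ e.2.1 ≤ 32 * k := by
  have h := mem_domP he.1
  simp only [src] at h
  omega

theorem injOn_modE {N k : ℕ} (hk : 64 ≤ k) (hN : 128 * k ≤ N) :
    Set.InjOn (modE N) (inE (dom .W .E k) ∪ EC N k) := by
  have hN' : 128 * (k : ℤ) ≤ N := by exact_mod_cast hN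
  have hk' : 64 ≤ (k : ℤ) := by exact_mod_cast hk
  have key : ∀ e ∈ inE (dom .W .E k) ∪ EC N k, -(36 * (k : ℤ)) ≤ e.1 ∧ e.1 < N - 36 * k ∧
      -(32 * (k : ℤ)) ≤ e.2.1 ∧ e.2.1 ≤ 32 * k := by
    rintro e (he | he)
    · have := dom_bounds he
      omega
    · have := EC_bounds hk hN he
      omega
  rintro ⟨x, y, t⟩ h1 ⟨x', y', t'⟩ h2 h
  have k1 := key _ h1
  have k2 := key _ h2
  simp only at k1 k2
  simp only [modE, Prod.mk.injEq] at h
  obtain ⟨h3, h4, h5⟩ := h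
  rw [mod_eq' (by omega) (by omega) h3, mod_eq' (by omega) (by omega) h4, h5]

theorem EC_inter {N k : ℕ} (hk : 64 ≤ k) (hN : 128 * k ≤ N) :
    EC N k ∩ inE (dom .W .E k) ⊆ inE (T .W k ∪ T .E k) := by
  have hN' : 128 * (k : ℤ) ≤ N := by exact_mod_cast hN
  have key : ∀ v : Vert, v ∈ Cor N k → v ∈ dom .W .E k → v ∈ T .W k ∪ T .E k := by
    intro v h1 h2
    have h3 := mem_domP h2
    right
    simp only [Cor, rect, Set.mem_ofPred_eq] at h1
    simp only [T, rect, Set.mem_ofPred_eq]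
    omega
  rintro e ⟨⟨h1, -⟩ | h1, h2⟩
  · exact ⟨key _ h1.1 h2.1, key _ h1.2 h2.2⟩
  · exact ⟨Or.inl h1.1, Or.inl h1.2⟩

theorem TW_sub (N k : ℕ) : inE (T .W k) ⊆ EC N k := fun _ h => Or.inr h

theorem TE_sub {N k : ℕ} (hk : 64 ≤ k) (hN : 128 * k ≤ N) : inE (T .E k) ⊆ EC N k := by
  have hN' : 128 * (k : ℤ) ≤ N := by exact_mod_cast hN
  have hk' : 64 ≤ (k : ℤ) := by exact_mod_cast hk
  have key : ∀ v : Vert, v ∈ T .E k → v ∈ Cor N k := by
    intro v h
    simp only [T, rect, Set.mem_ofPred_eq] at h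
    simp only [Cor, rect, Set.mem_ofPred_eq]
    omega
  intro e he
  refine Or.inl ⟨⟨key _ he.1, key _ he.2⟩, ?_⟩
  have h := he.1
  simp only [T, rect, src, Set.mem_ofPred_eq] at h
  omega

private lemma inE_rect_finite (a b c d : ℤ) : (inE (rect a b c d)).Finite :=
  (eRect a b c d).finite_toSet.subset fun _ he => Finset.mem_coe.2 (mem_eRect.2 he.1)

theorem EC_finite (N k : ℕ) : (EC N k).Finite := by
  refine ((inE_rect_finite (28 * k) (N - 28 * k) (-(3 * k)) (3 * k)).union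
    (inE_rect_finite (-(36 * k)) (-(28 * k)) (-(3 * k)) (3 * k))).subset ?_
  rintro e (h | h)
  · exact Or.inl h.1
  · exact Or.inr h

private lemma glu_congr {N k : ℕ} (hN : 128 * k ≤ N) {η η' : Config}
    (h : ∀ e ∈ EC N k, η e = η' e) :
    ∀ e ∈ inE (rect (28 * k) (N - 28 * k) (-(3 * k)) (3 * k)), glu N k η e = glu N k η' e := by
  have hN' : 128 * (k : ℤ) ≤ N := by exact_mod_cast hN
  rintro ⟨x, y, t⟩ he
  unfold glu
  by_cases hx : x < N - 36 * k
  · simp only [hx, if_true]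
    exact h _ (Or.inl ⟨he, hx⟩)
  · simp only [hx, if_false]
    refine h _ (Or.inr ?_)
    rw [mem_inE_rect] at he
    show (x - N, y, t) ∈ inE (rect _ _ _ _)
    rw [mem_inE_rect]
    simp only at he ⊢
    cases t
    · simp only [Bool.false_eq_true, false_imp_iff, true_and, forall_const] at he ⊢
      omega
    · simp only [Bool.true_eq_false, false_imp_iff, and_true, forall_const] at he ⊢
      omega

theorem locS_NpT {N k : ℕ} (hk : 64 ≤ k) (hN : 128 * k ≤ N) : LocS (EC N k) (NpT N k) := by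
  intro η η' h hη
  refine hcross_congr (fun e he ho => ?_) hη
  rw [← glu_congr hN h e he]
  exact ho

theorem incr_NpT (N k : ℕ) : Incr (NpT N k) := by
  intro η η' h hη
  refine hcross_congr (fun e _ ho => ?_) hη
  unfold glu at ho ⊢
  split_ifs at ho ⊢
  · exact h _ ho
  · exact h _ ho

private lemma locS_NoX (N k : ℕ) :
    LocS (inE (rect (40 * k) (50 * k) (3 * k + 1) (N - 3 * k - 1))) (NoX N k) := by
  intro η η' h hη hη'
  refine hη (hcross_congr (fun e he ho => ?_) hη')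
  rw [h e he]
  exact ho

/-- `NoX` does not see the corridor nor the clusters. -/
theorem locS_HT {N k ρ K : ℕ} (hk : 64 ≤ k) (hN : 128 * k ≤ N) (S : Set Vert) :
    LocS (detE (modE N) .W .E k (EC N k) S)ᶜ (HT N k ρ K S) := by
  have hN' : 128 * (k : ℤ) ≤ N := by exact_mod_cast hN
  have hk' : 64 ≤ (k : ℤ) := by exact_mod_cast hk
  intro η η' h hη
  refine ⟨locS_seal _ _ _ η η' h hη.1, locS_NoX N k η η' (fun e he => h e ?_) hη.2⟩
  rintro ⟨e', he', heq⟩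
  rw [mem_inE_rect] at he
  obtain ⟨x, y, t⟩ := e
  obtain ⟨x', y', t'⟩ := e'
  simp only [modE, Prod.mk.injEq] at heq
  obtain ⟨h3, h4, h5⟩ := heq
  simp only at he
  have hb : (40 * (k : ℤ) ≤ x ∧ x ≤ 50 * k) ∧ 3 * (k : ℤ) + 1 ≤ y ∧ y ≤ N - 3 * k - 1 := by
    cases t
    · simp only [Bool.false_eq_true, false_imp_iff, true_and, forall_const] at he
      omega
    · simp only [Bool.true_eq_false, false_imp_iff, and_true, forall_const] at he
      omega
  rcases he' with he' | he'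
  · have h6 := dom_bounds he'.1
    simp only at h6
    have := mod_eq' (by omega) (by omega) h3
    omega
  · have h6 := EC_bounds hk hN he'
    simp only at h6
    have := mod_eq' (by omega) (by omega) h4
    omega

private lemma localOn_NoX (N k : ℕ) :
    LocalOn (eRect (40 * k) (50 * k) (3 * k + 1) (N - 3 * k - 1)) (NoX N k) := by
  intro η η' h hη
  exact locS_NoX N k η η' (fun e he => h e (mem_eRect.2 he.1)) hη

theorem localOn_HT (N k ρ K : ℕ) : ∃ Λ : Finset Edge, ∀ S, LocalOn Λ (HT N k ρ K S) := by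
  classical
  obtain ⟨Λ, hΛ⟩ := localOn_seal (grid ρ K) ρ
  refine ⟨Λ ∪ eRect (40 * k) (50 * k) (3 * k + 1) (N - 3 * k - 1), fun S η η' h hη => ?_⟩
  exact ⟨hΛ _ η η' (fun e he => h e (Finset.mem_union_left _ he)) hη.1,
    localOn_NoX N k η η' (fun e he => h e (Finset.mem_union_right _ he)) hη.2⟩

private lemma modE_injOn' {N : ℕ} {a b c d : ℤ} (hab : b - a < N) (hcd : d - c < N) :
    Set.InjOn (modE N) (eRect a b c d : Set Edge) := by
  rintro ⟨x, y, t⟩ h1 ⟨x', y', t'⟩ h2 h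
  rw [Finset.mem_coe, mem_eRect] at h1 h2
  simp only [src, rect, Set.mem_ofPred_eq] at h1 h2
  simp only [modE, Prod.mk.injEq] at h
  obtain ⟨h3, h4, h5⟩ := h
  rw [mod_eq' (by omega) (by omega) h3, mod_eq' (by omega) (by omega) h4, h5]

theorem NpT_lower (c : ℝ) (hc : 0 < c) (K₁ : ℕ) : ∃ c' : ℝ, 0 < c' ∧ ∀ (N k : ℕ) (q : I),
    64 ≤ k → 128 * k ≤ N → N ≤ K₁ * k → RSWreg c N q →
      c' ≤ Pr q {ω | pb (modE N) ω ∈ NpT N k} := by
  obtain ⟨c', hc', H⟩ := Pool.Agent.H29.Sep.rect_lower c hc K₁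
  refine ⟨c', hc', fun N k q hk hN hK hR => ?_⟩
  have hN' : 128 * (k : ℤ) ≤ N := by exact_mod_cast hN
  have hk' : 64 ≤ (k : ℤ) := by exact_mod_cast hk
  have hK' : (N : ℤ) ≤ K₁ * k := by exact_mod_cast hK
  have hK1 : (1 : ℤ) ≤ K₁ := by
    rcases Nat.eq_zero_or_pos K₁ with h | h
    · rw [h] at hK
      omega
    · exact_mod_cast h
  have h1 := (H N q (by omega) hR (28 * k) (N - 28 * k) (-(3 * k)) (3 * k) (by omega) (by omega)
    (by nlinarith) (by nlinarith)).1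
  refine h1.trans ?_
  rw [← Pr_comp (localOn_hcross (28 * (k : ℤ)) (N - 28 * k) (-(3 * k)) (3 * k))
    (modE_injOn' (N := N) (by omega) (by omega))]
  refine Pr_mono fun ω hω => ?_
  show HCross (glu N k (per N ω)) _ _ _ _
  rw [glu_per]
  exact hω

private lemma incr_NoX_compl (N k : ℕ) : Incr ({ω | pb (modE N) ω ∈ NoX N k} : Set Config)ᶜ := by
  intro ω ω' h hω hω'
  have h1 : HCross (pb (modE N) ω) (40 * k) (50 * k) (3 * k + 1) (N - 3 * k - 1) := by
    by_contra hcon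
    exact hω hcon
  exact hω' (hcross_congr (fun e _ ho => h _ ho) h1)

private lemma incr_Seal_compl (N ρ : ℕ) (G : Finset Vert) (t : Set Edge) :
    Incr ({ω | pb (modE N) ω ∈ Seal G ρ t} : Set Config)ᶜ := by
  intro ω ω' h hω hω'
  exact seal_decr G ρ t _ _ (fun e he => h (modE N e) he) hω hω'

theorem HT_lower (c : ℝ) (hc : 0 < c) (K₁ K : ℕ) : ∃ c' : ℝ, 0 < c' ∧ ∀ (N k ρ : ℕ) (q : I)
    (S : Set Vert), 64 ≤ k → 128 * k ≤ N → N ≤ K₁ * k → 1 ≤ ρ → 8 * ρ ≤ k → RSWreg c N q →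
      c' ≤ Pr q {ω | pb (modE N) ω ∈ HT N k ρ K S} := by
  classical
  obtain ⟨c₁, hc₁, H1⟩ := Pool.Agent.H29.Sep.rect_lower c hc K₁
  obtain ⟨c₂, hc₂, H2⟩ := seal_lower_pb c hc 1 ((2 * K + 1) ^ 2)
  refine ⟨c₂ * c₁, by positivity, fun N k ρ q S hk hN hK hρ hρk hR => ?_⟩
  have hN' : 128 * (k : ℤ) ≤ N := by exact_mod_cast hN
  have hk' : 64 ≤ (k : ℤ) := by exact_mod_cast hk
  have hK' : (N : ℤ) ≤ K₁ * k := by exact_mod_cast hK
  have hρk' : 8 * (ρ : ℤ) ≤ k := by exact_mod_cast hρk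
  have hK1 : (1 : ℤ) ≤ K₁ := by
    rcases Nat.eq_zero_or_pos K₁ with h | h
    · rw [h] at hK
      omega
    · exact_mod_cast h
  have hseal := H2 N ρ q (grid ρ K) (detE (modE N) .W .E k (EC N k) S) (modE N) (by omega) hR hρ
    (by omega) (card_grid ρ K) (by
      intro g _ e he e' he' h
      refine modE_injOn' (N := N) (a := g.1 - (3 * ρ : ℕ)) (b := g.1 + (3 * ρ : ℕ))
        (c := g.2 - (3 * ρ : ℕ)) (d := g.2 + (3 * ρ : ℕ)) (by push_cast; omega)
        (by push_cast; omega) ?_ ?_ h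
      · exact Finset.mem_coe.2 (mem_eRect.2 he.1)
      · exact Finset.mem_coe.2 (mem_eRect.2 he'.1))
  have hnox : c₁ ≤ Pr q {ω | pb (modE N) ω ∈ NoX N k} := by
    have h1 := (H1 N (σ q) (by omega) (Pool.Agent.H29.Sep.rswreg_symm hR) (3 * k)
      (N - 3 * k - 1) (40 * k) (50 * k - 1) (by omega) (by omega) (by nlinarith)
      (by nlinarith)).2
    have h2 : Pr q {ω | pb (modE N) ω ∈ NoX N k} = Pr q (NoX N k) :=
      Pr_comp (localOn_NoX N k) (modE_injOn' (N := N) (by omega) (by omega))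
    rw [h2]
    refine h1.trans ?_
    rw [← Pr_dual (localOn_vcross (40 * (k : ℤ)) (50 * k - 1) (3 * k) (N - 3 * k - 1))]
    refine Pr_mono fun ω hω => ?_
    intro hcon
    have h3 := not_hcross_and_dual_vcross (by omega) hcon
    rw [show (3 * (k : ℤ) + 1 - 1) = 3 * k by ring] at h3
    exact h3 hω
  obtain ⟨Λ, hΛ⟩ := localOn_seal (grid ρ K) ρ
  have hl1 : LocalOn (Λ.image (modE N)) {ω | pb (modE N) ω ∈
      Seal (grid ρ K) ρ (detE (modE N) .W .E k (EC N k) S)} := by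
    intro ω ω' h hω
    exact hΛ _ _ _ (fun e he => h _ (Finset.mem_image_of_mem _ he)) hω
  have hl2 : LocalOn ((eRect (40 * k) (50 * k) (3 * k + 1) (N - 3 * k - 1)).image (modE N))
      {ω | pb (modE N) ω ∈ NoX N k} := by
    intro ω ω' h hω
    exact localOn_NoX N k _ _ (fun e he => h _ (Finset.mem_image_of_mem _ he)) hω
  have hfkg := fkg_decr (p := q) hl1 hl2 (incr_Seal_compl N ρ _ _) (incr_NoX_compl N k)
  refine ((mul_le_mul hseal hnox hc₁.le Pr_nonneg).trans hfkg).trans (Pr_mono ?_)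
  intro ω hω
  exact ⟨hω.1, hω.2⟩

end Pool.Agent.H26.ST

end

section

/-!
# A separated four-arm event costs at most a pivotal edge of the torus
-/

open MeasureTheory ProbabilityTheory unitInterval

namespace Pool.Agent.H26.ST

open Pool.Agent.H89.Perc Pool.Agent.H61.NC Pool.Agent.H59.EX

/-- `K₁` is any constant. -/
theorem torus_ext (c : ℝ) (hc : 0 < c) (K₁ : ℕ) : ∃ C : ℝ, 0 < C ∧ ∀ (N k : ℕ) (q : I) (d : Bool)
    (s : Src), IsSrc s d → 64 ≤ k → 128 * k ≤ N → N ≤ K₁ * k → RSWreg c N q →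
      Pr q (Pool.Agent.H59.EX.Sep s .W .E k) ≤ C * sT q N d := by
  obtain ⟨c₁, hc₁, H1⟩ := NpT_lower c hc K₁
  obtain ⟨c₂, hc₂, H2⟩ := HT_lower c hc K₁ (16 * K₁)
  refine ⟨1 / (c₁ * c₂), by positivity, ?_⟩
  intro N k q d s hs hk hN hN₁ hreg
  obtain ⟨ρ, hρ⟩ : ∃ ρ : ℕ, ρ = k / 8 := ⟨_, rfl⟩
  have hρ1 : 1 ≤ ρ := by omega
  have hρk : 8 * ρ ≤ k := by omega
  have hkρ : k ≤ 16 * ρ := by omega
  have hK : N ≤ 16 * K₁ * ρ := by
    calc N ≤ K₁ * k := hN₁
      _ ≤ K₁ * (16 * ρ) := Nat.mul_le_mul_left _ hkρ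
      _ = 16 * K₁ * ρ := by ring
  have key := corridor_probE (q := q) (π := modE N) (s := s) (d := .W) (d' := .E) (k := k)
    (EC := EC N k) (Np := NpT N k) (H := HT N k ρ (16 * K₁)) (c₁ := c₁) (c₂ := c₂) hc₂.le
    (injOn_modE hk hN) (TW_sub N k) (TE_sub hk hN) (EC_inter hk hN) (EC_finite N k)
    (locS_NpT hk hN) (incr_NpT N k) (H1 N k q hk hN hN₁ hreg) (locS_HT hk hN)
    (localOn_HT N k ρ (16 * K₁)) (fun S => H2 N k ρ q S hk hN hN₁ hρ1 hρk hreg)
  have h3 : Pr q {ω | pb (modE N) ω ∈ Pool.Agent.H59.EX.Sep s .W .E k ∧ pb (modE N) ω ∈ NpT N k ∧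
      pb (modE N) ω ∈ HT N k ρ (16 * K₁) (FX s .W .E k (pb (modE N) ω) ∪
        FY s .W .E k (pb (modE N) ω))} ≤ sT q N d := by
    refine le_sT (by omega) ?_
    rintro ω ⟨h4, h5, h6⟩
    exact ⟨open_wind hs hk hN h4 h5, closed_not_wind hs hk hN hρ1 hρk hK h4 h6⟩
  have h7 := key.trans h3
  rw [div_mul_eq_mul_div, one_mul, le_div_iff₀ (by positivity)]
  calc Pr q (Pool.Agent.H59.EX.Sep s .W .E k) * (c₁ * c₂)
      = c₁ * c₂ * Pr q (Pool.Agent.H59.EX.Sep s .W .E k) := by ring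
    _ ≤ _ := h7

end Pool.Agent.H26.ST

end

section

/-!
# `SepTorus`
-/

open MeasureTheory ProbabilityTheory unitInterval

namespace Pool.Agent.H26.ST

open Pool.Agent.H89.Perc Pool.Agent.H61.NC Pool.Agent.H59.EX
open Pool.Agent.H29.Sep (BadIn SepTorus)

theorem isSrc_sE (d : Bool) : IsSrc (sE d) d := ⟨rfl, rfl, rfl⟩

/-- **Four arms at scale `N / 64` cost at most a pivotal edge of the torus.** -/
theorem sepTorus (hB : BadIn) : SepTorus := by
  intro c hc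
  obtain ⟨C₁, hC₁, H1⟩ := torus_ext c hc 512
  obtain ⟨C₂, r₂, hC₂, H2⟩ := four_le_sep hB (fun k hk => sep_sE_nonempty false hk) c hc
  obtain ⟨C₃, r₃, hC₃, H3⟩ := four_le_sep hB (fun k hk => sep_sE_nonempty true hk) c hc
  obtain ⟨c₄, hc₄, H4⟩ := sT_small c hc (16384 * (r₂ + r₃ + 1))
  refine ⟨(C₂ + C₃) * C₁ + 1 / c₄, by positivity, ?_⟩
  intro N r q d hr h1 h2 hreg
  have hs0 : 0 ≤ sT q N d := sT_nonneg q N d
  rcases Nat.lt_or_ge (16384 * (r₂ + r₃ + 1)) N with hN | hN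
  · obtain ⟨r', hr'⟩ : ∃ r' : ℕ, r' = N / 16384 := ⟨_, rfl⟩
    have e1 : r₂ + r₃ + 1 ≤ r' := by omega
    have e2 : r' ≤ r := by omega
    have e3 : a4 q r ≤ a4 q r' := Pool.Agent.H29.Sep.a4_anti (by omega) e2
    have key : a4 q r' ≤ (C₂ + C₃) * C₁ * sT q N d := by
      cases d
      · obtain ⟨k, hk1, hk2, hk3⟩ := H2 N r' q .W .E (by decide) (by omega) (by omega) hreg
        rw [a4_eq_four false]
        have h4 := H1 N k q false (sE false) (isSrc_sE false) (by omega) (by omega) (by omega) hreg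
        calc Pr q (Four (sE false) r') ≤ C₂ * Pr q (Pool.Agent.H59.EX.Sep (sE false) .W .E k) := hk3
          _ ≤ C₂ * (C₁ * sT q N false) := mul_le_mul_of_nonneg_left h4 hC₂.le
          _ ≤ (C₂ + C₃) * C₁ * sT q N false := by
            rw [← mul_assoc]
            refine mul_le_mul_of_nonneg_right ?_ hs0
            exact mul_le_mul_of_nonneg_right (by linarith) hC₁.le
      · obtain ⟨k, hk1, hk2, hk3⟩ := H3 N r' q .W .E (by decide) (by omega) (by omega) hreg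
        rw [a4_eq_four true]
        have h4 := H1 N k q true (sE true) (isSrc_sE true) (by omega) (by omega) (by omega) hreg
        calc Pr q (Four (sE true) r') ≤ C₃ * Pr q (Pool.Agent.H59.EX.Sep (sE true) .W .E k) := hk3
          _ ≤ C₃ * (C₁ * sT q N true) := mul_le_mul_of_nonneg_left h4 hC₃.le
          _ ≤ (C₂ + C₃) * C₁ * sT q N true := by
            rw [← mul_assoc]
            refine mul_le_mul_of_nonneg_right ?_ hs0
            exact mul_le_mul_of_nonneg_right (by linarith) hC₁.le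
    refine (e3.trans key).trans (mul_le_mul_of_nonneg_right ?_ hs0)
    have : 0 ≤ 1 / c₄ := by positivity
    linarith
  · have h5 := H4 N q d (by omega) hN hreg
    have h6 : a4 q r ≤ 1 := Pool.Agent.H29.Sep.a4_le_one q r
    have h7 : (1 : ℝ) ≤ 1 / c₄ * sT q N d := by
      rw [div_mul_eq_mul_div, one_mul, le_div_iff₀ hc₄, one_mul]
      exact h5
    have h8 : 0 ≤ (C₂ + C₃) * C₁ * sT q N d := by positivity
    calc a4 q r ≤ 1 := h6
      _ ≤ 1 / c₄ * sT q N d := h7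
      _ ≤ ((C₂ + C₃) * C₁ + 1 / c₄) * sT q N d := by rw [add_mul]; linarith

theorem sepTorus_holds : SepTorus := sepTorus Pool.Agent.H26.HP.badIn

end Pool.Agent.H26.ST

end
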