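import Pool.Agent.H31.PT.M03
import Pool.Agent.H31.PT.M05
import Pool.Agent.H31.PT.M16

/-! The parts of this file: H29.Kap.Analysis, H29.Kap.Rem, H29.Kap.Analysis3, H29.Kap.DerivBound, H29.Kap.TupleSum, H29.Kap.ExpMom, H29.Kap.EdgeDuality, H29.Kap.Pivot, H29.Kap.TupleSum3, H89.Perc.EdgeDual, H29.Kap.ThreeArms, H29.Kap.CrossMom, H29.Kap.SecondDiff, H29.Kap.StabA, H29.Kap.StabB, H29.Kap.Count, H29.Kap.Tilt, H29.Kap.Sens, H29.Kap.Invar, H29.Kap.Euler, H29.Kap.EulerExp, H29.Kap.Geo, H29.Kap.ArmRatio, H31.AL.Defs. -/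

section

/-! # Analysis of the scale decomposition -/

set_option autoImplicit false

namespace Pool.Agent.H29.Kap

/-- the even remainder -/
noncomputable def analysis_evR (y : ℕ → ℝ) (D : ℕ) (z : ℝ) : ℝ :=
  ∑ i ∈ Finset.range D, y (4 + i) * ((z ^ (4 + i) + (-z) ^ (4 + i)) / 2)

theorem analysis_sum_ext {y : ℕ → ℝ} {D : ℕ} (hyD : ∀ j, D ≤ j → y j = 0) (n : ℕ) (f : ℕ → ℝ) :
    ∑ j ∈ Finset.range D, y j * f j
      = ∑ j ∈ Finset.range n, y j * f j + ∑ i ∈ Finset.range D, y (n + i) * f (n + i) := by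
  rw [← Finset.sum_range_add]
  apply Finset.sum_subset (Finset.range_mono (by omega))
  intro j _ hj
  rw [Finset.mem_range, not_lt] at hj
  rw [hyD j hj, zero_mul]

theorem analysis_even {y : ℕ → ℝ} {D : ℕ} (hyD : ∀ j, D ≤ j → y j = 0) (z : ℝ) :
    (∑ j ∈ Finset.range D, y j * z ^ j + ∑ j ∈ Finset.range D, y j * (-z) ^ j) / 2
      = y 0 + y 2 * z ^ 2 + analysis_evR y D z := by
  rw [analysis_sum_ext hyD 4 (fun j => z ^ j), analysis_sum_ext hyD 4 (fun j => (-z) ^ j)]
  have h : analysis_evR y D z = (∑ i ∈ Finset.range D, y (4 + i) * z ^ (4 + i)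
      + ∑ i ∈ Finset.range D, y (4 + i) * (-z) ^ (4 + i)) / 2 := by
    unfold analysis_evR
    rw [← Finset.sum_add_distrib, Finset.sum_div]
    apply Finset.sum_congr rfl
    intro i _
    ring
  rw [h]
  simp only [Finset.sum_range_succ, Finset.sum_range_zero]
  ring

theorem analysis_geom (n : ℕ) : ∑ i ∈ Finset.range n, (1 / 2 : ℝ) ^ i ≤ 2 := by
  have h : ∑ i ∈ Finset.range n, (1 / 2 : ℝ) ^ i = 2 - 2 * (1 / 2) ^ n := by
    induction n with
    | zero => simp
    | succ n ih =>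
      rw [Finset.sum_range_succ, ih]
      ring
  rw [h]
  have : (0 : ℝ) < (1 / 2) ^ n := by positivity
  linarith

theorem analysis_geom2 (n : ℕ) : ∑ i ∈ Finset.range n, ((2 : ℝ) + i) * (1 / 2 : ℝ) ^ i ≤ 6 := by
  have h : ∑ i ∈ Finset.range n, ((2 : ℝ) + i) * (1 / 2 : ℝ) ^ i = 6 - (2 * n + 6) * (1 / 2) ^ n := by
    induction n with
    | zero => simp
    | succ n ih =>
      rw [Finset.sum_range_succ, ih]
      push_cast
      ring
  rw [h]
  have : (0 : ℝ) ≤ (2 * n + 6) * (1 / 2) ^ n := by positivity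
  linarith

theorem analysis_evR_le {y : ℕ → ℝ} {D : ℕ} {C r z : ℝ} (hr : 0 < r) (hC : ∀ j, |y j| * r ^ j ≤ C)
    (hz : |z| ≤ r / 2) : |analysis_evR y D z| ≤ 2 * C * (|z| / r) ^ 4 := by
  have hC0 : 0 ≤ C := le_trans (by positivity) (hC 0)
  have hq0 : 0 ≤ |z| / r := by positivity
  have hq : |z| / r ≤ 1 / 2 := by
    rw [div_le_iff₀ hr]
    linarith
  unfold analysis_evR
  refine (Finset.abs_sum_le_sum_abs _ _).trans ?_
  have h1 : ∀ i ∈ Finset.range D, |y (4 + i) * ((z ^ (4 + i) + (-z) ^ (4 + i)) / 2)|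
      ≤ C * (|z| / r) ^ 4 * (1 / 2) ^ i := by
    intro i _
    have h2 : |(z ^ (4 + i) + (-z) ^ (4 + i)) / 2| ≤ |z| ^ (4 + i) := by
      rw [abs_div, abs_of_pos (by norm_num : (0 : ℝ) < 2), div_le_iff₀ (by norm_num)]
      refine (abs_add_le _ _).trans ?_
      rw [abs_pow, abs_pow, abs_neg]
      linarith
    rw [abs_mul]
    have h3 : |y (4 + i)| * |(z ^ (4 + i) + (-z) ^ (4 + i)) / 2| ≤ |y (4 + i)| * |z| ^ (4 + i) :=
      mul_le_mul_of_nonneg_left h2 (abs_nonneg _)
    refine h3.trans ?_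
    have h4 : |z| = r * (|z| / r) := by field_simp
    have h5 : |y (4 + i)| * |z| ^ (4 + i) = |y (4 + i)| * r ^ (4 + i) * (|z| / r) ^ (4 + i) := by
      conv_lhs => rw [h4]
      rw [mul_pow]
      ring
    rw [h5]
    have h6 : |y (4 + i)| * r ^ (4 + i) * (|z| / r) ^ (4 + i) ≤ C * (|z| / r) ^ (4 + i) :=
      mul_le_mul_of_nonneg_right (hC _) (by positivity)
    refine h6.trans ?_
    rw [pow_add, ← mul_assoc]
    apply mul_le_mul_of_nonneg_left _ (by positivity)
    exact pow_le_pow_left₀ hq0 hq i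
  refine (Finset.sum_le_sum h1).trans ?_
  rw [← Finset.mul_sum]
  have h7 := mul_le_mul_of_nonneg_left (analysis_geom D) (by positivity : 0 ≤ C * (|z| / r) ^ 4)
  linarith

/-- the derivative -/
noncomputable def analysis_d (y : ℕ → ℝ) (D : ℕ) (p : ℝ) : ℝ :=
  ∑ j ∈ Finset.range D, y j * ((j : ℝ) * (2 * p - 1) ^ (j - 1) * 2)

theorem analysis_hasDeriv (y : ℕ → ℝ) (D : ℕ) (p : ℝ) :
    HasDerivAt (fun p => ∑ j ∈ Finset.range D, y j * (2 * p - 1) ^ j) (analysis_d y D p) p := by
  unfold analysis_d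
  apply HasDerivAt.fun_sum
  intro j _
  have h1 : HasDerivAt (fun p : ℝ => 2 * p - 1) 2 p := by
    simpa using ((hasDerivAt_id p).const_mul 2).sub_const 1
  exact (h1.pow j).const_mul (y j)

theorem analysis_hasDeriv2 {y : ℕ → ℝ} {D : ℕ} (hyD : ∀ j, D ≤ j → y j = 0) :
    HasDerivAt (analysis_d y D) (8 * y 2) (1 / 2) := by
  have h0 : HasDerivAt (analysis_d y D)
      (∑ j ∈ Finset.range D, y j * ((j : ℝ) * (((j - 1 : ℕ) : ℝ) * (2 * (1 / 2) - 1) ^ (j - 1 - 1) * 2) * 2))
      (1 / 2) := by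
    unfold analysis_d
    apply HasDerivAt.fun_sum
    intro j _
    have h1 : HasDerivAt (fun p : ℝ => 2 * p - 1) 2 (1 / 2) := by
      simpa using ((hasDerivAt_id (1 / 2 : ℝ)).const_mul 2).sub_const 1
    have h2 := (((h1.pow (j - 1)).const_mul (j : ℝ)).mul_const 2).const_mul (y j)
    exact h2
  have h3 : (∑ j ∈ Finset.range D, y j * ((j : ℝ) * (((j - 1 : ℕ) : ℝ) * (2 * (1 / 2) - 1) ^ (j - 1 - 1) * 2) * 2))
      = 8 * y 2 := by
    rw [analysis_sum_ext hyD 3
      (fun j => ((j : ℝ) * (((j - 1 : ℕ) : ℝ) * (2 * (1 / 2) - 1) ^ (j - 1 - 1) * 2) * 2))]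
    have h4 : ∑ i ∈ Finset.range D, y (3 + i) * (((3 + i : ℕ) : ℝ) *
        (((3 + i - 1 : ℕ) : ℝ) * (2 * (1 / 2) - 1) ^ (3 + i - 1 - 1) * 2) * 2) = 0 := by
      apply Finset.sum_eq_zero
      intro i _
      have h5 : 3 + i - 1 - 1 = i + 1 := by omega
      rw [h5]
      norm_num
    rw [h4]
    simp only [Finset.sum_range_succ, Finset.sum_range_zero]
    norm_num
    ring
  rw [h3] at h0
  exact h0

theorem analysis_d_diff {y : ℕ → ℝ} {D : ℕ} (hyD : ∀ j, D ≤ j → y j = 0) (p : ℝ) :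
    analysis_d y D p - analysis_d y D (1 / 2)
      = ∑ i ∈ Finset.range D, y (2 + i) * (((2 : ℝ) + i) * (2 * p - 1) ^ (1 + i) * 2) := by
  unfold analysis_d
  rw [analysis_sum_ext hyD 2 (fun j => ((j : ℝ) * (2 * p - 1) ^ (j - 1) * 2)),
    analysis_sum_ext hyD 2 (fun j => ((j : ℝ) * (2 * (1 / 2) - 1) ^ (j - 1) * 2))]
  have h4 : ∑ i ∈ Finset.range D, y (2 + i) * (((2 + i : ℕ) : ℝ) *
      (2 * (1 / 2) - 1) ^ (2 + i - 1) * 2) = 0 := by
    apply Finset.sum_eq_zero
    intro i _
    have h5 : 2 + i - 1 = i + 1 := by omega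
    rw [h5]
    norm_num
  rw [h4]
  have h6 : ∑ i ∈ Finset.range D, y (2 + i) * (((2 + i : ℕ) : ℝ) * (2 * p - 1) ^ (2 + i - 1) * 2)
      = ∑ i ∈ Finset.range D, y (2 + i) * (((2 : ℝ) + i) * (2 * p - 1) ^ (1 + i) * 2) := by
    apply Finset.sum_congr rfl
    intro i _
    have h5 : 2 + i - 1 = 1 + i := by omega
    rw [h5]
    push_cast
    ring
  rw [h6]
  simp only [Finset.sum_range_succ, Finset.sum_range_zero]
  norm_num

theorem analysis_d_le {y : ℕ → ℝ} {D : ℕ} {C r p : ℝ} (hyD : ∀ j, D ≤ j → y j = 0) (hr : 0 < r)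
    (hC : ∀ j, |y j| * r ^ j ≤ C) (hz : |2 * p - 1| ≤ r / 2) :
    |analysis_d y D p - analysis_d y D (1 / 2)| ≤ 12 * C * |2 * p - 1| / r ^ 2 := by
  have hC0 : 0 ≤ C := le_trans (by positivity) (hC 0)
  set z := 2 * p - 1 with hzdef
  have hq0 : 0 ≤ |z| / r := by positivity
  have hq : |z| / r ≤ 1 / 2 := by
    rw [div_le_iff₀ hr]
    linarith
  rw [analysis_d_diff hyD]
  refine (Finset.abs_sum_le_sum_abs _ _).trans ?_
  have h1 : ∀ i ∈ Finset.range D, |y (2 + i) * (((2 : ℝ) + i) * z ^ (1 + i) * 2)|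
      ≤ 2 * C * |z| / r ^ 2 * (((2 : ℝ) + i) * (1 / 2) ^ i) := by
    intro i _
    have hi : (0 : ℝ) ≤ 2 + i := by positivity
    rw [abs_mul, abs_mul, abs_mul, abs_pow, abs_of_nonneg hi, abs_of_pos (by norm_num : (0 : ℝ) < 2)]
    have h4 : |z| = r * (|z| / r) := by field_simp
    have h5 : |y (2 + i)| * ((2 + i) * |z| ^ (1 + i) * 2)
        = |y (2 + i)| * r ^ (2 + i) * (2 * |z| / r ^ 2 * ((2 + i) * (|z| / r) ^ i)) := by
      rw [div_pow]
      field_simp
      ring
    rw [h5]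
    have h6 : |y (2 + i)| * r ^ (2 + i) * (2 * |z| / r ^ 2 * ((2 + i) * (|z| / r) ^ i))
        ≤ C * (2 * |z| / r ^ 2 * ((2 + i) * (|z| / r) ^ i)) :=
      mul_le_mul_of_nonneg_right (hC _) (by positivity)
    refine h6.trans ?_
    have h7 : (|z| / r) ^ i ≤ (1 / 2) ^ i := pow_le_pow_left₀ hq0 hq i
    have h8 : C * (2 * |z| / r ^ 2 * ((2 + i) * (|z| / r) ^ i))
        ≤ C * (2 * |z| / r ^ 2 * ((2 + i) * (1 / 2) ^ i)) := by gcongr
    refine h8.trans (le_of_eq ?_)
    ring
  refine (Finset.sum_le_sum h1).trans ?_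
  rw [← Finset.mul_sum]
  have h7 := mul_le_mul_of_nonneg_left (analysis_geom2 D) (by positivity : 0 ≤ 2 * C * |z| / r ^ 2)
  refine h7.trans (le_of_eq ?_)
  ring

/-- the polynomial -/
noncomputable def analysis_P (y : ℕ → ℝ) (D : ℕ) (p : ℝ) : ℝ :=
  ∑ j ∈ Finset.range D, y j * (2 * p - 1) ^ j

theorem analysis_P_hasDeriv (y : ℕ → ℝ) (D : ℕ) (p : ℝ) :
    HasDerivAt (analysis_P y D) (analysis_d y D p) p := analysis_hasDeriv y D p

open Filter Topology in
theorem analysis_series_one {y : ℕ → ℕ → ℝ} {D : ℕ → ℕ} {C : ℝ}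
    (hd : ∀ (k : ℕ) (p : ℝ), 1 / 4 ≤ p → p ≤ 3 / 4 → |analysis_d (y k) (D k) p| ≤ C * 2 ^ k)
    (hs : Summable fun k => analysis_P (y k) (D k) (1 / 2) / 4 ^ (k + 1)) {p : ℝ} (hp1 : 1 / 4 < p)
    (hp2 : p < 3 / 4) :
    (Summable fun k => analysis_d (y k) (D k) p / 4 ^ (k + 1)) ∧
    HasDerivAt (fun p => ∑' k, analysis_P (y k) (D k) p / 4 ^ (k + 1))
      (∑' k, analysis_d (y k) (D k) p / 4 ^ (k + 1)) p := by
  have hu : Summable fun k : ℕ => C / 4 * (1 / 2 : ℝ) ^ k :=
    (summable_geometric_of_lt_one (by norm_num) (by norm_num)).mul_left _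
  have hb : ∀ (k : ℕ) (q : ℝ), q ∈ Set.Ioo (1 / 4 : ℝ) (3 / 4) →
      ‖analysis_d (y k) (D k) q / 4 ^ (k + 1)‖ ≤ C / 4 * (1 / 2 : ℝ) ^ k := by
    intro k q hq
    rw [Real.norm_eq_abs, abs_div, abs_of_pos (by positivity : (0 : ℝ) < 4 ^ (k + 1)),
      div_le_iff₀ (by positivity)]
    refine (hd k q hq.1.le hq.2.le).trans (le_of_eq ?_)
    have h4 : (4 : ℝ) ^ k = 2 ^ k * 2 ^ k := by
      rw [← mul_pow]
      norm_num
    rw [pow_succ, h4, div_pow, one_pow]
    field_simp
  refine ⟨Summable.of_norm_bounded hu (fun k => hb k p ⟨hp1, hp2⟩), ?_⟩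
  exact hasDerivAt_tsum_of_isPreconnected hu isOpen_Ioo isPreconnected_Ioo
    (fun k q _ => (analysis_P_hasDeriv (y k) (D k) q).div_const _) hb
    (y₀ := 1 / 2) ⟨by norm_num, by norm_num⟩ hs ⟨hp1, hp2⟩

open Filter Topology in
theorem analysis_series_two {y : ℕ → ℕ → ℝ} {D : ℕ → ℕ} (hyD : ∀ k j, D k ≤ j → y k j = 0) {C : ℝ}
    (hd : ∀ (k : ℕ) (p : ℝ), 1 / 4 ≤ p → p ≤ 3 / 4 → |analysis_d (y k) (D k) p| ≤ C * 2 ^ k)
    {r : ℕ → ℝ} (hr : ∀ k, 0 < r k) (hC : ∀ k j, |y k j| * r k ^ j ≤ C)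
    (hs : Summable fun k => analysis_P (y k) (D k) (1 / 2) / 4 ^ (k + 1))
    (hr1 : Summable fun k => 1 / r k ^ 2 / 4 ^ (k + 1))
    (hr2 : Summable fun k => 2 ^ k / r k / 4 ^ (k + 1)) :
    HasDerivAt (fun p => ∑' k, analysis_d (y k) (D k) p / 4 ^ (k + 1))
      (∑' k, 8 * y k 2 / 4 ^ (k + 1)) (1 / 2) := by
  have hC0 : 0 ≤ C := le_trans (mul_nonneg (abs_nonneg _) (pow_nonneg (hr 0).le 0)) (hC 0 0)
  rw [hasDerivAt_iff_tendsto_slope]
  have hbsum : Summable fun k => 24 * C * (1 / r k ^ 2 / 4 ^ (k + 1))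
      + 8 * C * (2 ^ k / r k / 4 ^ (k + 1)) := (hr1.mul_left _).add (hr2.mul_left _)
  have hmem : ∀ᶠ p in 𝓝[≠] (1 / 2 : ℝ), p ∈ Set.Ioo (1 / 4 : ℝ) (3 / 4) ∧ p ≠ 1 / 2 := by
    have h1 : Set.Ioo (1 / 4 : ℝ) (3 / 4) ∈ 𝓝 (1 / 2 : ℝ) :=
      Ioo_mem_nhds (by norm_num) (by norm_num)
    filter_upwards [mem_nhdsWithin_of_mem_nhds h1, self_mem_nhdsWithin] with p hp hp2
    exact ⟨hp, hp2⟩
  have key := tendsto_tsum_of_dominated_convergence (𝓕 := 𝓝[≠] (1 / 2 : ℝ))
    (f := fun p k => slope (fun q => analysis_d (y k) (D k) q / 4 ^ (k + 1)) (1 / 2) p)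
    (g := fun k => 8 * y k 2 / 4 ^ (k + 1)) hbsum
    (by
      intro k
      exact hasDerivAt_iff_tendsto_slope.1 ((analysis_hasDeriv2 (hyD k)).div_const _))
    (by
      filter_upwards [hmem] with p hp k
      obtain ⟨⟨hp1, hp2⟩, hp3⟩ := hp
      have hne : 0 < |p - 1 / 2| := abs_pos.2 (sub_ne_zero.2 hp3)
      have h2p : |2 * p - 1| = 2 * |p - 1 / 2| := by
        rw [← abs_of_pos (by norm_num : (0 : ℝ) < 2), ← abs_mul]
        congr 1
        rw [abs_of_pos (by norm_num : (0 : ℝ) < 2)]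
        ring
      have hrk := hr k
      have hdiff : |analysis_d (y k) (D k) p - analysis_d (y k) (D k) (1 / 2)|
          ≤ |p - 1 / 2| * (24 * C * (1 / r k ^ 2) + 8 * C * (2 ^ k / r k)) := by
        rcases le_or_gt |2 * p - 1| (r k / 2) with h | h
        · have h3 := analysis_d_le (hyD k) hrk (hC k) h
          refine h3.trans ?_
          rw [h2p]
          have h4 : 0 ≤ |p - 1 / 2| * (8 * C * (2 ^ k / r k)) := by positivity
          have h5 : 12 * C * (2 * |p - 1 / 2|) / r k ^ 2 = |p - 1 / 2| * (24 * C * (1 / r k ^ 2)) := by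
            ring
          rw [h5, mul_add]
          linarith
        · have h3 := hd k p hp1.le hp2.le
          have h4 := hd k (1 / 2) (by norm_num) (by norm_num)
          have h5 : |analysis_d (y k) (D k) p - analysis_d (y k) (D k) (1 / 2)| ≤ 2 * (C * 2 ^ k) := by
            refine (abs_sub _ _).trans ?_
            linarith
          refine h5.trans ?_
          rw [h2p] at h
          have h6 : 1 ≤ 4 * |p - 1 / 2| / r k := by
            rw [le_div_iff₀ hrk]
            linarith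
          have h7 : 2 * (C * 2 ^ k) * 1 ≤ 2 * (C * 2 ^ k) * (4 * |p - 1 / 2| / r k) :=
            mul_le_mul_of_nonneg_left h6 (by positivity)
          have h8 : 0 ≤ |p - 1 / 2| * (24 * C * (1 / r k ^ 2)) := by positivity
          have h9 : 2 * (C * 2 ^ k) * (4 * |p - 1 / 2| / r k)
              = |p - 1 / 2| * (8 * C * (2 ^ k / r k)) := by ring
          rw [mul_add]
          linarith
      rw [slope_def_field, Real.norm_eq_abs, ← sub_div, div_div, abs_div, abs_mul,
        abs_of_pos (by positivity : (0 : ℝ) < 4 ^ (k + 1)), div_le_iff₀ (by positivity)]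
      refine hdiff.trans (le_of_eq ?_)
      field_simp)
  refine key.congr' ?_
  filter_upwards [hmem] with p hp
  obtain ⟨⟨hp1, hp2⟩, hp3⟩ := hp
  have s1 := (analysis_series_one hd hs hp1 hp2).1
  have s2 := (analysis_series_one hd hs (p := 1 / 2) (by norm_num) (by norm_num)).1
  rw [slope_def_field, ← s1.tsum_sub s2, ← tsum_div_const]
  apply tsum_congr
  intro k
  rw [slope_def_field]

/-- the size of the scale `k` -/
noncomputable def analysis_A (π : ℕ → ℝ) (k : ℕ) : ℝ :=
  4 ^ k * π (2 ^ k) ^ 2 * Real.log (2 * 2 ^ k)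

theorem analysis_log (k : ℕ) : Real.log (2 * 2 ^ k) = ((k : ℝ) + 1) * Real.log 2 := by
  rw [← pow_succ', Real.log_pow]
  push_cast
  ring

theorem analysis_log2_pos : 0 < Real.log 2 := Real.log_pos (by norm_num)

theorem analysis_log2_le : Real.log 2 ≤ 1 := by
  have := Real.log_two_lt_d9
  linarith

theorem analysis_C2_pos {π : ℕ → ℝ} (hπ0 : ∀ n, 0 < π n) {C₂ a₀ : ℝ}
    (h2 : ∀ m n : ℕ, 1 ≤ m → m ≤ n → π n ≤ C₂ * ((m : ℝ) / n) ^ a₀ * π m) : 1 ≤ C₂ := by
  have h := h2 1 1 le_rfl le_rfl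
  norm_num at h
  have h0 := hπ0 1
  by_contra hcon
  push Not at hcon
  nlinarith

theorem analysis_rho {a₀ : ℝ} (ha₀ : 0 < a₀) : 0 < (1 / 2 : ℝ) ^ a₀ ∧ (1 / 2 : ℝ) ^ a₀ < 1 :=
  ⟨by positivity, Real.rpow_lt_one (by norm_num) (by norm_num) ha₀⟩

theorem analysis_rpow_pow (a₀ : ℝ) (i : ℕ) : ((1 / 2 : ℝ) ^ i) ^ a₀ = ((1 / 2 : ℝ) ^ a₀) ^ i := by
  rw [← Real.rpow_natCast, ← Real.rpow_natCast, ← Real.rpow_mul (by norm_num),
    ← Real.rpow_mul (by norm_num), mul_comm]

theorem analysis_A_le {π : ℕ → ℝ} (hπ0 : ∀ n, 0 < π n) (hπ1 : ∀ n, π n ≤ 1) {C₂ a₀ : ℝ}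
    (h2 : ∀ m n : ℕ, 1 ≤ m → m ≤ n → π n ≤ C₂ * ((m : ℝ) / n) ^ a₀ * π m) (k : ℕ) :
    analysis_A π k ≤ 4 ^ k * (C₂ ^ 2 * (((k : ℝ) + 1) * (((1 / 2 : ℝ) ^ a₀) ^ k) ^ 2)) := by
  have hC2 := analysis_C2_pos hπ0 h2
  have h := h2 1 (2 ^ k) le_rfl Nat.one_le_two_pow
  have h3 : (((1 : ℕ) : ℝ) / ((2 ^ k : ℕ) : ℝ)) ^ a₀ = ((1 / 2 : ℝ) ^ a₀) ^ k := by
    rw [← analysis_rpow_pow]
    congr 1
    push_cast
    rw [one_div_pow]
  rw [h3] at h
  set ρ := (1 / 2 : ℝ) ^ a₀ with hρ
  have hρ0 : 0 < ρ := by positivity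
  have h4 : π (2 ^ k) ≤ C₂ * ρ ^ k := by
    refine h.trans ?_
    have : 0 ≤ C₂ * ρ ^ k := by positivity
    nlinarith [hπ1 1, hπ0 1]
  have h5 := pow_le_pow_left₀ (hπ0 (2 ^ k)).le h4 2
  unfold analysis_A
  rw [analysis_log, mul_assoc]
  apply mul_le_mul_of_nonneg_left _ (by positivity)
  have h6 : ((k : ℝ) + 1) * Real.log 2 ≤ (k : ℝ) + 1 := by
    have := analysis_log2_le
    have : (0 : ℝ) ≤ k := Nat.cast_nonneg k
    nlinarith
  have hl := analysis_log2_pos
  calc π (2 ^ k) ^ 2 * (((k : ℝ) + 1) * Real.log 2)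
      ≤ (C₂ * ρ ^ k) ^ 2 * ((k : ℝ) + 1) := mul_le_mul h5 h6 (by positivity) (by positivity)
    _ = _ := by ring

theorem analysis_summable {ρ : ℝ} (h0 : 0 < ρ) (h1 : ρ < 1) :
    Summable fun k : ℕ => ((k : ℝ) + 1) * ρ ^ k := by
  have hn : ‖ρ‖ < 1 := by rw [Real.norm_eq_abs, abs_of_pos h0]; exact h1
  have h2 := (summable_pow_mul_geometric_of_norm_lt_one 1 hn).add
    (summable_pow_mul_geometric_of_norm_lt_one 0 hn)
  refine h2.congr ?_
  intro k
  ring

theorem analysis_summables {π : ℕ → ℝ} (hπ0 : ∀ n, 0 < π n) (hπ1 : ∀ n, π n ≤ 1) {C₂ a₀ : ℝ}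
    (ha₀ : 0 < a₀)
    (h2 : ∀ m n : ℕ, 1 ≤ m → m ≤ n → π n ≤ C₂ * ((m : ℝ) / n) ^ a₀ * π m)
    {r : ℕ → ℝ} {C₃ : ℝ} (hC₃ : 0 < C₃) (hr0 : ∀ k, 0 < r k)
    (hr : ∀ k, 1 / r k ^ 2 ≤ C₃ * analysis_A π k) :
    (Summable fun k => 1 / r k ^ 2 / 4 ^ (k + 1)) ∧
    (Summable fun k => 2 ^ k / r k / 4 ^ (k + 1)) := by
  obtain ⟨hρ0, hρ1⟩ := analysis_rho ha₀
  set ρ := (1 / 2 : ℝ) ^ a₀ with hρ
  have hC2 := analysis_C2_pos hπ0 h2
  have hk : ∀ k, 1 / r k ^ 2 ≤ 4 ^ k * (C₃ * C₂ ^ 2 * (((k : ℝ) + 1) * (ρ ^ k) ^ 2)) := by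
    intro k
    refine (hr k).trans ?_
    have h3 := mul_le_mul_of_nonneg_left (analysis_A_le hπ0 hπ1 h2 k) hC₃.le
    rw [← hρ] at h3
    refine h3.trans (le_of_eq ?_)
    ring
  constructor
  · apply Summable.of_nonneg_of_le (fun k => by have := hr0 k; positivity) _
      ((analysis_summable hρ0 hρ1).mul_left (C₃ * C₂ ^ 2))
    intro k
    rw [div_le_iff₀ (by positivity)]
    refine (hk k).trans ?_
    have h4 : (ρ ^ k) ^ 2 ≤ ρ ^ k := by
      have h5 : ρ ^ k ≤ 1 := pow_le_one₀ hρ0.le hρ1.le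
      have h6 : 0 < ρ ^ k := by positivity
      nlinarith
    have h7 : (4 : ℝ) ^ k ≤ 4 ^ (k + 1) := pow_le_pow_right₀ (by norm_num) (by omega)
    calc 4 ^ k * (C₃ * C₂ ^ 2 * (((k : ℝ) + 1) * (ρ ^ k) ^ 2))
        ≤ 4 ^ (k + 1) * (C₃ * C₂ ^ 2 * (((k : ℝ) + 1) * ρ ^ k)) := by gcongr
      _ = _ := by ring
  · apply Summable.of_nonneg_of_le (fun k => by have := hr0 k; positivity) _
      ((analysis_summable hρ0 hρ1).mul_left (1 + C₃ * C₂ ^ 2))
    intro k
    have hrk := hr0 k
    have h4k : (4 : ℝ) ^ k = 2 ^ k * 2 ^ k := by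
      rw [← mul_pow]
      norm_num
    -- `t = 1 / (r 2^k)`
    set t := 1 / (r k * 2 ^ k) with ht
    have ht0 : 0 < t := by positivity
    have e1 : 2 ^ k / r k / 4 ^ (k + 1) = t / 4 := by
      rw [pow_succ, h4k, ht]
      field_simp
    have e2 : t ^ 2 ≤ C₃ * C₂ ^ 2 * (((k : ℝ) + 1) * (ρ ^ k) ^ 2) := by
      have e3 : t ^ 2 = 1 / r k ^ 2 / 4 ^ k := by
        rw [ht, h4k]
        field_simp
      rw [e3, div_le_iff₀ (by positivity)]
      refine (hk k).trans (le_of_eq ?_)
      ring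
    have hs0 : 0 < ρ ^ k := by positivity
    have hk0 : (0 : ℝ) ≤ k := Nat.cast_nonneg k
    rw [e1]
    -- `t ≤ (s + t² / s) / 2`
    have e4 : t * ρ ^ k ≤ ((ρ ^ k) ^ 2 + t ^ 2) / 2 := by nlinarith [sq_nonneg (t - ρ ^ k)]
    have e5 : t * ρ ^ k ≤ (1 + C₃ * C₂ ^ 2) * (((k : ℝ) + 1) * ρ ^ k) * ρ ^ k := by
      refine e4.trans ?_
      have e6 : (ρ ^ k) ^ 2 ≤ ((k : ℝ) + 1) * (ρ ^ k) ^ 2 := by nlinarith [sq_nonneg (ρ ^ k)]
      have e7 : 0 ≤ ((k : ℝ) + 1) * (ρ ^ k) ^ 2 := by positivity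
      have e8 : 0 ≤ C₃ * C₂ ^ 2 * (((k : ℝ) + 1) * (ρ ^ k) ^ 2) := by positivity
      have e9 : (1 + C₃ * C₂ ^ 2) * (((k : ℝ) + 1) * ρ ^ k) * ρ ^ k
          = ((k : ℝ) + 1) * (ρ ^ k) ^ 2 + C₃ * C₂ ^ 2 * (((k : ℝ) + 1) * (ρ ^ k) ^ 2) := by ring
      rw [e9]
      linarith
    have e10 := le_of_mul_le_mul_right e5 hs0
    linarith

theorem analysis_evR_abs (y : ℕ → ℝ) (D : ℕ) {z : ℝ} (hz : |z| ≤ 1) :
    |analysis_evR y D z| ≤ (∑ i ∈ Finset.range D, |y (4 + i)|) * z ^ 4 := by
  unfold analysis_evR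
  refine (Finset.abs_sum_le_sum_abs _ _).trans ?_
  rw [Finset.sum_mul]
  apply Finset.sum_le_sum
  intro i _
  rw [abs_mul]
  apply mul_le_mul_of_nonneg_left _ (abs_nonneg _)
  have h2 : |(z ^ (4 + i) + (-z) ^ (4 + i)) / 2| ≤ |z| ^ (4 + i) := by
    rw [abs_div, abs_of_pos (by norm_num : (0 : ℝ) < 2), div_le_iff₀ (by norm_num)]
    refine (abs_add_le _ _).trans ?_
    rw [abs_pow, abs_pow, abs_neg]
    linarith
  refine h2.trans ?_
  have h3 : |z| ^ (4 + i) ≤ |z| ^ 4 := pow_le_pow_of_le_one (abs_nonneg _) hz (by omega)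
  refine h3.trans (le_of_eq ?_)
  exact Even.pow_abs (by decide) z

/-- the two bounds for the even remainder of a scale -/
theorem analysis_evR_two {y : ℕ → ℝ} {D : ℕ} {C r p : ℝ} (hyD : ∀ j, D ≤ j → y j = 0)
    (hr : 0 < r) (hC : ∀ j, |y j| * r ^ j ≤ C)
    (hb1 : |analysis_P y D p| ≤ C) (hb2 : |analysis_P y D (1 - p)| ≤ C) :
    |analysis_evR y D (2 * p - 1)| ≤ 9 * C * ((2 * p - 1) ^ 2 * (1 / r ^ 2)) ∧
    |analysis_evR y D (2 * p - 1)| ≤ 36 * C * ((2 * p - 1) ^ 2 * (1 / r ^ 2)) ^ 2 := by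
  have hC0 : 0 ≤ C := le_trans (by positivity) (hC 0)
  set z := 2 * p - 1 with hz
  set u := z ^ 2 * (1 / r ^ 2) with hu
  have hu0 : 0 ≤ u := by positivity
  have hur : u = (|z| / r) ^ 2 := by
    rw [hu, div_pow, sq_abs]
    ring
  rcases le_or_gt |z| (r / 2) with h | h
  · have h1 := analysis_evR_le (D := D) hr hC h
    have h2 : (|z| / r) ^ 4 = u ^ 2 := by rw [hur]; ring
    rw [h2] at h1
    have hq : |z| / r ≤ 1 / 2 := by
      rw [div_le_iff₀ hr]
      linarith
    have hu1 : u ≤ 1 / 4 := by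
      rw [hur]
      have := pow_le_pow_left₀ (by positivity : 0 ≤ |z| / r) hq 2
      norm_num at this ⊢
      exact this
    constructor
    · refine h1.trans ?_
      have : 2 * C * u ^ 2 ≤ 2 * C * u := by
        apply mul_le_mul_of_nonneg_left _ (by positivity)
        nlinarith
      nlinarith [mul_nonneg hC0 hu0]
    · refine h1.trans ?_
      have : 0 ≤ C * u ^ 2 := by positivity
      linarith
  · have hq : 1 / 2 < |z| / r := by
      rw [lt_div_iff₀ hr]
      linarith
    have hu1 : 1 / 4 < u := by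
      rw [hur]
      have := pow_lt_pow_left₀ hq (by norm_num) (by norm_num : 2 ≠ 0)
      norm_num at this ⊢
      exact this
    have he := analysis_even hyD z
    have hp2 : analysis_P y D (1 - p) = ∑ j ∈ Finset.range D, y j * (-z) ^ j := by
      unfold analysis_P
      apply Finset.sum_congr rfl
      intro j _
      congr 2
      rw [hz]
      ring
    have hp1 : analysis_P y D p = ∑ j ∈ Finset.range D, y j * z ^ j := rfl
    rw [← hp1, ← hp2] at he
    have h0 : |y 0| ≤ C := by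
      have := hC 0
      rwa [pow_zero, mul_one] at this
    have h2 : |y 2 * z ^ 2| ≤ C * u := by
      have h3 := hC 2
      rw [abs_mul, abs_of_nonneg (sq_nonneg z)]
      have h4 : |y 2| * z ^ 2 = |y 2| * r ^ 2 * u := by
        rw [hu]
        field_simp
      rw [h4]
      exact mul_le_mul_of_nonneg_right h3 hu0
    have h5 : analysis_evR y D z
        = (analysis_P y D p + analysis_P y D (1 - p)) / 2 - y 0 - y 2 * z ^ 2 := by
      rw [he]
      ring
    have h6 : |analysis_evR y D z| ≤ 9 * C * u := by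
      rw [h5]
      have a1 := abs_le.1 hb1
      have a2 := abs_le.1 hb2
      have a3 := abs_le.1 h0
      have a4 := abs_le.1 h2
      have a5 : C ≤ 4 * (C * u) := by nlinarith
      rw [abs_le]
      constructor <;> linarith [a1.1, a1.2, a2.1, a2.2, a3.1, a3.2, a4.1, a4.2]
    refine ⟨h6, h6.trans ?_⟩
    have h7 : 9 * C * u ≤ 9 * C * u * (4 * u) := by
      have : 0 ≤ 9 * C * u := by positivity
      nlinarith
    refine h7.trans (le_of_eq ?_)
    ring

theorem analysis_P_half (y : ℕ → ℝ) {D : ℕ} (hyD : ∀ j, D ≤ j → y j = 0) :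
    analysis_P y D (1 / 2) = y 0 := by
  unfold analysis_P
  rw [analysis_sum_ext hyD 1 (fun j => (2 * (1 / 2 : ℝ) - 1) ^ j)]
  have h4 : ∑ i ∈ Finset.range D, y (1 + i) * (2 * (1 / 2 : ℝ) - 1) ^ (1 + i) = 0 := by
    apply Finset.sum_eq_zero
    intro i _
    rw [add_comm 1 i]
    norm_num
  rw [h4]
  norm_num

theorem analysis_P_even {y : ℕ → ℝ} {D : ℕ} (hyD : ∀ j, D ≤ j → y j = 0) (p : ℝ) :
    (analysis_P y D p + analysis_P y D (1 - p)) / 2
      = y 0 + y 2 * (2 * p - 1) ^ 2 + analysis_evR y D (2 * p - 1) := by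
  rw [← analysis_even hyD]
  have hp2 : analysis_P y D (1 - p) = ∑ j ∈ Finset.range D, y j * (-(2 * p - 1)) ^ j := by
    unfold analysis_P
    apply Finset.sum_congr rfl
    intro j _
    congr 2
    ring
  rw [hp2]
  rfl

end Pool.Agent.H29.Kap

end

section

/-! # The remainder of the second order expansion at `1/2` -/

set_option autoImplicit false

namespace Pool.Agent.H29.Kap

/-- The remainder `R(p)` of the second order expansion of `κ` at `1/2`. -/
noncomputable def Rem (κ : ℝ → ℝ) (p : ℝ) : ℝ :=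
  κ p - κ (1 / 2) - deriv κ (1 / 2) * (p - 1 / 2)
    - 1 / 2 * deriv (deriv κ) (1 / 2) * (p - 1 / 2) ^ 2

/-- `|R(p)| = |p - 1/2|^{2 - α₀ + o(1)}` as `p → 1/2`. -/
def HasAlpha (κ : ℝ → ℝ) (α₀ : ℝ) : Prop :=
  ∀ ε > (0 : ℝ), ∃ δ > (0 : ℝ), ∀ p : ℝ, 0 ≤ p → p ≤ 1 → p ≠ 1 / 2 → |p - 1 / 2| < δ →
    |p - 1 / 2| ^ (2 - α₀ + ε) ≤ |Rem κ p| ∧ |Rem κ p| ≤ |p - 1 / 2| ^ (2 - α₀ - ε)

end Pool.Agent.H29.Kap

end

section

/-! # Analysis of the scale decomposition, without logarithms -/

set_option autoImplicit false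

namespace Pool.Agent.H29.Kap

/-- the size of the scale `k` -/
noncomputable def analysis3_A (π : ℕ → ℝ) (k : ℕ) : ℝ := 4 ^ k * π (2 ^ k) ^ 2

theorem analysis3_A_pos {π : ℕ → ℝ} (hπ0 : ∀ n, 0 < π n) (k : ℕ) : 0 < analysis3_A π k := by
  unfold analysis3_A
  have := hπ0 (2 ^ k)
  positivity

theorem analysis3_C1_pos {π : ℕ → ℝ} (hπ0 : ∀ n, 0 < π n) {C₁ : ℝ}
    (h1 : ∀ m n : ℕ, 1 ≤ m → m ≤ n → π m ≤ C₁ * ((n : ℝ) / m) ^ (1 / 3 : ℝ) * π n) : 1 ≤ C₁ := by
  have h := h1 1 1 le_rfl le_rfl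
  norm_num at h
  have h0 := hπ0 1
  by_contra hcon
  push Not at hcon
  nlinarith

/-- `π(n) ≥ c / n^{1/3}` in the form used below -/
theorem analysis3_lower {π : ℕ → ℝ} (hπ0 : ∀ n, 0 < π n) {C₁ : ℝ}
    (h1 : ∀ m n : ℕ, 1 ≤ m → m ≤ n → π m ≤ C₁ * ((n : ℝ) / m) ^ (1 / 3 : ℝ) * π n) {n : ℕ}
    (hn : 1 ≤ n) : (π 1 / C₁) ^ 2 ≤ n * π n ^ 2 := by
  have hC := analysis3_C1_pos hπ0 h1
  have h := h1 1 n le_rfl hn
  rw [Nat.cast_one, div_one] at h
  have hnr : (1 : ℝ) ≤ n := by exact_mod_cast hn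
  have h3 : (n : ℝ) ^ (1 / 3 : ℝ) ≤ (n : ℝ) ^ (1 / 2 : ℝ) :=
    Real.rpow_le_rpow_of_exponent_le hnr (by norm_num)
  have hπn := hπ0 n
  have h4 : π 1 / C₁ ≤ (n : ℝ) ^ (1 / 2 : ℝ) * π n := by
    rw [div_le_iff₀ (by positivity)]
    calc π 1 ≤ C₁ * (n : ℝ) ^ (1 / 3 : ℝ) * π n := h
      _ ≤ C₁ * (n : ℝ) ^ (1 / 2 : ℝ) * π n := by gcongr
      _ = _ := by ring
  have h5 := pow_le_pow_left₀ (by have := hπ0 1; positivity) h4 2
  refine h5.trans (le_of_eq ?_)
  rw [mul_pow, ← Real.rpow_natCast ((n : ℝ) ^ (1 / 2 : ℝ)), ← Real.rpow_mul (by positivity)]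
  norm_num

theorem analysis3_A_ge {π : ℕ → ℝ} (hπ0 : ∀ n, 0 < π n) {C₁ : ℝ}
    (h1 : ∀ m n : ℕ, 1 ≤ m → m ≤ n → π m ≤ C₁ * ((n : ℝ) / m) ^ (1 / 3 : ℝ) * π n) (k : ℕ) :
    (π 1 / C₁) ^ 2 ≤ analysis3_A π k := by
  have h3 := analysis3_lower hπ0 h1 (n := 2 ^ k) Nat.one_le_two_pow
  push_cast at h3
  refine h3.trans ?_
  unfold analysis3_A
  have h4 : (2 : ℝ) ^ k ≤ 4 ^ k := pow_le_pow_left₀ (by norm_num) (by norm_num) k
  exact mul_le_mul_of_nonneg_right h4 (sq_nonneg _)

theorem analysis3_r {A : ℕ → ℝ} {c : ℝ} (hc0 : 0 < c) (hAc : ∀ k, c ≤ A k) {c₀ : ℝ}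
    (hc₀ : 0 < c₀) : ∃ (r : ℕ → ℝ) (C₃ : ℝ), 0 < C₃ ∧ ∀ k, 0 < r k ∧ r k ≤ 1 ∧
      r k ^ 2 * A k ≤ c₀ ∧ 1 / r k ^ 2 ≤ C₃ * A k := by
  refine ⟨fun k => min 1 (Real.sqrt (c₀ / A k)), 1 / c + 1 / c₀, by positivity, ?_⟩
  intro k
  have hA : 0 < A k := lt_of_lt_of_le hc0 (hAc k)
  have hs : 0 < Real.sqrt (c₀ / A k) := Real.sqrt_pos.2 (by positivity)
  have h3 : 1 / c * A k ≥ 1 := by
    rw [ge_iff_le, div_mul_eq_mul_div, le_div_iff₀ hc0]
    linarith [hAc k]
  have h4 : 0 < 1 / c₀ * A k := by positivity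
  beta_reduce
  refine ⟨lt_min one_pos hs, min_le_left _ _, ?_, ?_⟩
  · rcases le_total 1 (Real.sqrt (c₀ / A k)) with h | h
    · rw [min_eq_left h, one_pow, one_mul]
      have h5 : 1 ≤ c₀ / A k := by
        have := pow_le_pow_left₀ (by norm_num : (0 : ℝ) ≤ 1) h 2
        rwa [Real.sq_sqrt (by positivity), one_pow] at this
      rwa [le_div_iff₀ hA, one_mul] at h5
    · rw [min_eq_right h, Real.sq_sqrt (by positivity), div_mul_cancel₀ _ hA.ne']
  · rcases le_total 1 (Real.sqrt (c₀ / A k)) with h | h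
    · rw [min_eq_left h, one_pow, div_one, add_mul]
      linarith
    · rw [min_eq_right h, Real.sq_sqrt (by positivity), add_mul]
      have h6 : 1 / (c₀ / A k) = 1 / c₀ * A k := by
        field_simp
      rw [h6]
      linarith

theorem analysis3_A_le {π : ℕ → ℝ} (k : ℕ) :
    analysis3_A π k ≤ 1 / Real.log 2 * analysis_A π k := by
  have hl := analysis_log2_pos
  unfold analysis_A
  rw [analysis_log]
  change analysis3_A π k ≤ 1 / Real.log 2 * (analysis3_A π k * (((k : ℝ) + 1) * Real.log 2))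
  have h0 : 0 ≤ analysis3_A π k := by
    unfold analysis3_A
    positivity
  have h1 : 1 / Real.log 2 * (analysis3_A π k * (((k : ℝ) + 1) * Real.log 2))
      = analysis3_A π k * ((k : ℝ) + 1) := by
    field_simp
  rw [h1]
  have : (0 : ℝ) ≤ k := Nat.cast_nonneg k
  nlinarith

/-- `σ = 2^{-2/3}` -/
theorem analysis3_sigma : 0 < (1 / 2 : ℝ) ^ (2 / 3 : ℝ) ∧ (1 / 2 : ℝ) ^ (2 / 3 : ℝ) < 1 :=
  analysis_rho (by norm_num)

/-- a scale below `N` -/
theorem analysis3_small {π : ℕ → ℝ} (hπ0 : ∀ n, 0 < π n) {C₁ : ℝ}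
    (h1 : ∀ m n : ℕ, 1 ≤ m → m ≤ n → π m ≤ C₁ * ((n : ℝ) / m) ^ (1 / 3 : ℝ) * π n)
    {k K N : ℕ} (hkK : k ≤ K) (hN : 2 ^ K ≤ N) :
    analysis3_A π k ^ 2 / 4 ^ k
      ≤ C₁ ^ 4 * ((N : ℝ) ^ 2 * π N ^ 4) * ((1 / 2 : ℝ) ^ (2 / 3 : ℝ)) ^ (K - k) := by
  have hk : 2 ^ k ≤ N := (Nat.pow_le_pow_right (by norm_num) hkK).trans hN
  have hN1 : 1 ≤ N := Nat.one_le_two_pow.trans hk
  have h := h1 (2 ^ k) N Nat.one_le_two_pow hk
  have hC1 := analysis3_C1_pos hπ0 h1
  have hNr : (0 : ℝ) < N := by exact_mod_cast hN1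
  push_cast at h
  set t : ℝ := (N : ℝ) / 2 ^ k with ht
  have ht0 : 0 < t := by positivity
  have hπk := hπ0 (2 ^ k)
  have hπN := hπ0 N
  have h4k : (4 : ℝ) ^ k = 2 ^ k * 2 ^ k := by
    rw [← mul_pow]
    norm_num
  -- `t ≥ 2^{K-k}`
  have htK : (2 : ℝ) ^ (K - k) ≤ t := by
    rw [ht, le_div_iff₀ (by positivity), ← pow_add]
    have : K - k + k = K := by omega
    rw [this]
    exact_mod_cast hN
  have h2 : analysis3_A π k ^ 2 / 4 ^ k = 4 ^ k * π (2 ^ k) ^ 4 := by
    unfold analysis3_A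
    field_simp
  rw [h2]
  have h3 := pow_le_pow_left₀ hπk.le h 4
  have h4 : 4 ^ k * π (2 ^ k) ^ 4 ≤ 4 ^ k * (C₁ * t ^ (1 / 3 : ℝ) * π N) ^ 4 :=
    mul_le_mul_of_nonneg_left h3 (by positivity)
  refine h4.trans ?_
  -- `4^k t^{4/3} = N² t^{-2/3}`
  have h5 : (t ^ (1 / 3 : ℝ)) ^ 4 = t ^ 2 * t ^ (-(2 / 3) : ℝ) := by
    rw [← Real.rpow_natCast (t ^ (1 / 3 : ℝ)), ← Real.rpow_mul ht0.le, ← Real.rpow_natCast t,
      ← Real.rpow_add ht0]
    norm_num
  have h6 : t ^ (-(2 / 3) : ℝ) ≤ ((1 / 2 : ℝ) ^ (2 / 3 : ℝ)) ^ (K - k) := by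
    rw [← analysis_rpow_pow]
    have e1 : ((1 / 2 : ℝ) ^ (K - k)) ^ (2 / 3 : ℝ) = ((2 : ℝ) ^ (K - k)) ^ (-(2 / 3) : ℝ) := by
      rw [one_div_pow, one_div, Real.inv_rpow (by positivity), Real.rpow_neg (by positivity)]
    rw [e1]
    exact Real.rpow_le_rpow_of_nonpos (by positivity) htK (by norm_num)
  have h7 : 4 ^ k * (C₁ * t ^ (1 / 3 : ℝ) * π N) ^ 4
      = C₁ ^ 4 * ((N : ℝ) ^ 2 * π N ^ 4) * t ^ (-(2 / 3) : ℝ) := by
    have e1 : (C₁ * t ^ (1 / 3 : ℝ) * π N) ^ 4 = C₁ ^ 4 * π N ^ 4 * (t ^ (1 / 3 : ℝ)) ^ 4 := by ring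
    rw [e1, h5]
    have e2 : 4 ^ k * t ^ 2 = (N : ℝ) ^ 2 := by
      rw [ht, h4k]
      field_simp
    calc 4 ^ k * (C₁ ^ 4 * π N ^ 4 * (t ^ 2 * t ^ (-(2 / 3) : ℝ)))
        = (4 ^ k * t ^ 2) * (C₁ ^ 4 * π N ^ 4 * t ^ (-(2 / 3) : ℝ)) := by ring
      _ = _ := by rw [e2]; ring
  rw [h7]
  exact mul_le_mul_of_nonneg_left h6 (by positivity)

/-- a scale above `N` -/
theorem analysis3_large {π : ℕ → ℝ} (hπ0 : ∀ n, 0 < π n) {C₂ a₀ : ℝ} (ha₀ : 0 < a₀)
    (h2 : ∀ m n : ℕ, 1 ≤ m → m ≤ n → π n ≤ C₂ * ((m : ℝ) / n) ^ a₀ * π m)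
    {K N i : ℕ} (hN : 1 ≤ N) (hK : N < 2 ^ (K + 1)) :
    analysis3_A π (i + (K + 1)) / 4 ^ (i + (K + 1))
      ≤ C₂ ^ 2 * π N ^ 2 * ((1 / 2 : ℝ) ^ a₀) ^ i := by
  have hC2 := analysis_C2_pos hπ0 h2
  set k := i + (K + 1) with hk
  have hKk : 2 ^ (K + 1) ≤ 2 ^ k := Nat.pow_le_pow_right (by norm_num) (by omega)
  have hNk : N ≤ 2 ^ k := by omega
  have h := h2 N (2 ^ k) hN hNk
  push_cast at h
  have hπN := hπ0 N
  have hπk := hπ0 (2 ^ k)
  have hti2 : (N : ℝ) / 2 ^ k ≤ (1 / 2) ^ i := by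
    rw [div_le_iff₀ (by positivity), hk, pow_add, ← mul_assoc, ← mul_pow]
    norm_num
    have : (N : ℝ) < 2 ^ (K + 1) := by exact_mod_cast hK
    linarith
  have hinv : ((N : ℝ) / 2 ^ k) ^ a₀ ≤ ((1 / 2 : ℝ) ^ a₀) ^ i := by
    rw [← analysis_rpow_pow]
    exact Real.rpow_le_rpow (by positivity) hti2 ha₀.le
  obtain ⟨hρ0, hρ1⟩ := analysis_rho ha₀
  set ρ := (1 / 2 : ℝ) ^ a₀ with hρ
  have h3 : analysis3_A π k / 4 ^ k = π (2 ^ k) ^ 2 := by
    unfold analysis3_A
    field_simp
  rw [h3]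
  have h4 : π (2 ^ k) ≤ C₂ * ρ ^ i * π N := by
    refine h.trans ?_
    gcongr
  have h5 := pow_le_pow_left₀ hπk.le h4 2
  refine h5.trans ?_
  have h6 : (ρ ^ i) ^ 2 ≤ ρ ^ i := by
    have e1 : ρ ^ i ≤ 1 := pow_le_one₀ hρ0.le hρ1.le
    have e2 : 0 < ρ ^ i := by positivity
    nlinarith
  calc (C₂ * ρ ^ i * π N) ^ 2 = C₂ ^ 2 * π N ^ 2 * (ρ ^ i) ^ 2 := by ring
    _ ≤ C₂ ^ 2 * π N ^ 2 * ρ ^ i := mul_le_mul_of_nonneg_left h6 (by positivity)

/-- the sum over the scales -/
theorem analysis3_T {π : ℕ → ℝ} (hπ0 : ∀ n, 0 < π n)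
    {C₁ : ℝ} (h1 : ∀ m n : ℕ, 1 ≤ m → m ≤ n → π m ≤ C₁ * ((n : ℝ) / m) ^ (1 / 3 : ℝ) * π n)
    {C₂ a₀ : ℝ} (ha₀ : 0 < a₀)
    (h2 : ∀ m n : ℕ, 1 ≤ m → m ≤ n → π n ≤ C₂ * ((m : ℝ) / n) ^ a₀ * π m)
    {C C₃ : ℝ} (hC : 0 ≤ C) (hC₃ : 0 < C₃) {R : ℕ → ℝ} (hR : ∀ k, 0 ≤ R k)
    (hRA : ∀ k, R k ≤ C₃ * analysis3_A π k) (hRs : Summable fun k => R k / 4 ^ (k + 1))
    {E : ℕ → ℝ} {z : ℝ} (hE1 : ∀ k, |E k| ≤ 9 * C * (z ^ 2 * R k))
    (hE2 : ∀ k, |E k| ≤ 36 * C * (z ^ 2 * R k) ^ 2) {N : ℕ} (hN : 1 ≤ N)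
    (hW : z ^ 2 * ((N : ℝ) ^ 2 * π N ^ 2) ≤ 4) :
    |∑' k, E k / 4 ^ (k + 1)| ≤ (144 * C * C₃ ^ 2 * C₁ ^ 4 / (1 - (1 / 2 : ℝ) ^ (2 / 3 : ℝ))
      + 9 * C * C₃ * C₂ ^ 2 / (1 - (1 / 2 : ℝ) ^ a₀)) / (N : ℝ) ^ 2 := by
  have hC1 := analysis3_C1_pos hπ0 h1
  have hC2 := analysis_C2_pos hπ0 h2
  obtain ⟨hρ0, hρ1⟩ := analysis_rho ha₀
  set ρ := (1 / 2 : ℝ) ^ a₀ with hρ
  obtain ⟨hσ0, hσ1⟩ := analysis3_sigma
  set σ := (1 / 2 : ℝ) ^ (2 / 3 : ℝ) with hσ
  have hNr : (0 : ℝ) < N := by exact_mod_cast hN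
  have hπN := hπ0 N
  have hA := analysis3_A_pos hπ0
  have hρ2 : 0 < 1 - ρ := by linarith
  have hσ2 : 0 < 1 - σ := by linarith
  -- absolute summability
  have hEs : Summable fun k => |E k / 4 ^ (k + 1)| := by
    apply Summable.of_nonneg_of_le (fun k => abs_nonneg _) _ (hRs.mul_left (9 * C * z ^ 2))
    intro k
    rw [abs_div, abs_of_pos (by positivity : (0 : ℝ) < 4 ^ (k + 1)), ← mul_div_assoc]
    apply div_le_div_of_nonneg_right _ (by positivity)
    refine (hE1 k).trans (le_of_eq ?_)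
    ring
  have h3 : |∑' k, E k / 4 ^ (k + 1)| ≤ ∑' k, |E k / 4 ^ (k + 1)| := by
    exact norm_tsum_le_tsum_norm (f := fun k => E k / 4 ^ (k + 1)) hEs
  refine h3.trans ?_
  set K := Nat.log 2 N with hK
  have hK1 : 2 ^ K ≤ N := Nat.pow_log_le_self 2 (by omega)
  have hK2 : N < 2 ^ (K + 1) := Nat.lt_pow_succ_log_self (by norm_num) _
  rw [← hEs.sum_add_tsum_nat_add (K + 1), add_div]
  apply add_le_add
  · -- small scales
    have h4 : ∀ k ∈ Finset.range (K + 1), |E k / 4 ^ (k + 1)|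
        ≤ 9 * C * C₃ ^ 2 * C₁ ^ 4 * (z ^ 4 * ((N : ℝ) ^ 2 * π N ^ 4)) * σ ^ (K + 1 - 1 - k) := by
      intro k hk
      have hkK : k ≤ K := by
        rw [Finset.mem_range] at hk
        omega
      have h5 := analysis3_small hπ0 h1 hkK hK1
      rw [← hσ] at h5
      rw [abs_div, abs_of_pos (by positivity : (0 : ℝ) < 4 ^ (k + 1)), Nat.add_sub_cancel]
      have h6 : |E k| ≤ 36 * C * (z ^ 2 * (C₃ * analysis3_A π k)) ^ 2 := by
        refine (hE2 k).trans ?_
        have := hRA k
        have := hR k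
        gcongr
      have h7 : |E k| / 4 ^ (k + 1) ≤ 36 * C * (z ^ 2 * (C₃ * analysis3_A π k)) ^ 2 / 4 ^ (k + 1) :=
        div_le_div_of_nonneg_right h6 (by positivity)
      refine h7.trans ?_
      have h8 : 36 * C * (z ^ 2 * (C₃ * analysis3_A π k)) ^ 2 / 4 ^ (k + 1)
          = 9 * C * C₃ ^ 2 * z ^ 4 * (analysis3_A π k ^ 2 / 4 ^ k) := by
        rw [pow_succ (4 : ℝ) k]
        field_simp
        ring
      rw [h8]
      have h9 : 0 ≤ 9 * C * C₃ ^ 2 * z ^ 4 := by positivity
      refine (mul_le_mul_of_nonneg_left h5 h9).trans (le_of_eq ?_)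
      ring
    refine (Finset.sum_le_sum h4).trans ?_
    rw [Finset.sum_range_reflect (fun j => 9 * C * C₃ ^ 2 * C₁ ^ 4
      * (z ^ 4 * ((N : ℝ) ^ 2 * π N ^ 4)) * σ ^ j) (K + 1), ← Finset.mul_sum]
    have hgeo : ∑ i ∈ Finset.range (K + 1), σ ^ i ≤ 1 / (1 - σ) := by
      rw [one_div, ← tsum_geometric_of_lt_one hσ0.le hσ1]
      exact (summable_geometric_of_lt_one hσ0.le hσ1).sum_le_tsum _ (fun i _ => by positivity)
    have hW0 : 0 ≤ z ^ 2 * ((N : ℝ) ^ 2 * π N ^ 2) := by positivity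
    have h13 : (z ^ 2 * ((N : ℝ) ^ 2 * π N ^ 2)) ^ 2 ≤ 4 ^ 2 := pow_le_pow_left₀ hW0 hW 2
    have h14 : 9 * C * C₃ ^ 2 * C₁ ^ 4 * (z ^ 4 * ((N : ℝ) ^ 2 * π N ^ 4))
        = 9 * C * C₃ ^ 2 * C₁ ^ 4 / (N : ℝ) ^ 2 * (z ^ 2 * ((N : ℝ) ^ 2 * π N ^ 2)) ^ 2 := by
      field_simp
    rw [h14]
    calc 9 * C * C₃ ^ 2 * C₁ ^ 4 / (N : ℝ) ^ 2 * (z ^ 2 * ((N : ℝ) ^ 2 * π N ^ 2)) ^ 2
          * ∑ i ∈ Finset.range (K + 1), σ ^ i
        ≤ 9 * C * C₃ ^ 2 * C₁ ^ 4 / (N : ℝ) ^ 2 * 4 ^ 2 * (1 / (1 - σ)) := by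
          apply mul_le_mul _ hgeo (Finset.sum_nonneg (fun i _ => by positivity)) (by positivity)
          exact mul_le_mul_of_nonneg_left h13 (by positivity)
      _ = _ := by
          field_simp
          ring
  · -- large scales
    have h4 : ∀ i, |E (i + (K + 1)) / 4 ^ (i + (K + 1) + 1)|
        ≤ 9 / 4 * C * C₃ * C₂ ^ 2 * (z ^ 2 * π N ^ 2) * ρ ^ i := by
      intro i
      have h5 := analysis3_large hπ0 ha₀ h2 (i := i) hN hK2
      rw [← hρ] at h5
      set k := i + (K + 1) with hk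
      rw [abs_div, abs_of_pos (by positivity : (0 : ℝ) < 4 ^ (k + 1))]
      have h6 : |E k| ≤ 9 * C * (z ^ 2 * (C₃ * analysis3_A π k)) := by
        refine (hE1 k).trans ?_
        have := hRA k
        have := hR k
        gcongr
      have h7 : |E k| / 4 ^ (k + 1) ≤ 9 * C * (z ^ 2 * (C₃ * analysis3_A π k)) / 4 ^ (k + 1) :=
        div_le_div_of_nonneg_right h6 (by positivity)
      refine h7.trans ?_
      have h8 : 9 * C * (z ^ 2 * (C₃ * analysis3_A π k)) / 4 ^ (k + 1)
          = 9 / 4 * C * C₃ * z ^ 2 * (analysis3_A π k / 4 ^ k) := by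
        rw [pow_succ (4 : ℝ) k]
        field_simp
      rw [h8]
      have h9 : 0 ≤ 9 / 4 * C * C₃ * z ^ 2 := by positivity
      refine (mul_le_mul_of_nonneg_left h5 h9).trans (le_of_eq ?_)
      ring
    have hgeo : Summable fun i : ℕ => ρ ^ i := summable_geometric_of_lt_one hρ0.le hρ1
    have h5 : ∑' i, |E (i + (K + 1)) / 4 ^ (i + (K + 1) + 1)|
        ≤ ∑' i, 9 / 4 * C * C₃ * C₂ ^ 2 * (z ^ 2 * π N ^ 2) * ρ ^ i :=
      Summable.tsum_le_tsum h4 ((summable_nat_add_iff (K + 1)).2 hEs) (hgeo.mul_left _)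
    refine h5.trans ?_
    rw [tsum_mul_left, tsum_geometric_of_lt_one hρ0.le hρ1]
    have h6 : 9 / 4 * C * C₃ * C₂ ^ 2 * (z ^ 2 * π N ^ 2) * (1 - ρ)⁻¹
        = 9 / 4 * C * C₃ * C₂ ^ 2 / (1 - ρ) / (N : ℝ) ^ 2 * (z ^ 2 * ((N : ℝ) ^ 2 * π N ^ 2)) := by
      field_simp
    rw [h6]
    have h7 : 0 ≤ 9 / 4 * C * C₃ * C₂ ^ 2 / (1 - ρ) / (N : ℝ) ^ 2 := by positivity
    refine (mul_le_mul_of_nonneg_left hW h7).trans (le_of_eq ?_)
    ring

theorem analysis3_G {π : ℕ → ℝ} (hπ0 : ∀ n, 0 < π n)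
    {C₁ : ℝ} (h1 : ∀ m n : ℕ, 1 ≤ m → m ≤ n → π m ≤ C₁ * ((n : ℝ) / m) ^ (1 / 3 : ℝ) * π n)
    {z : ℝ} {N : ℕ} (hN : 1 ≤ N) (hW : z ^ 2 * ((N : ℝ) ^ 2 * π N ^ 2) ≤ 4) :
    z ^ 4 ≤ 16 / (π 1 / C₁) ^ 4 / (N : ℝ) ^ 2 := by
  have hC1 := analysis3_C1_pos hπ0 h1
  have hNr : (0 : ℝ) < N := by exact_mod_cast hN
  have hπN := hπ0 N
  have hπ1 := hπ0 1
  have h3 := analysis3_lower hπ0 h1 hN
  set c := (π 1 / C₁) ^ 2 with hc
  have hc0 : 0 < c := by positivity
  have h4 : z ^ 2 * (N * c) ≤ 4 := by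
    refine le_trans ?_ hW
    apply mul_le_mul_of_nonneg_left _ (sq_nonneg z)
    have : (N : ℝ) ^ 2 * π N ^ 2 = N * (N * π N ^ 2) := by ring
    rw [this]
    exact mul_le_mul_of_nonneg_left h3 (by positivity)
  have h5 : 0 ≤ z ^ 2 * (N * c) := by positivity
  have h6 := pow_le_pow_left₀ h5 h4 2
  have h7 : z ^ 4 * ((N : ℝ) ^ 2 * c ^ 2) ≤ 16 := by
    have : (z ^ 2 * (N * c)) ^ 2 = z ^ 4 * ((N : ℝ) ^ 2 * c ^ 2) := by ring
    rw [this] at h6
    linarith
  have h8 : (π 1 / C₁) ^ 4 = c ^ 2 := by rw [hc]; ring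
  rw [h8, div_div, le_div_iff₀ (by positivity)]
  linarith

theorem analysis3_W {P : ℝ} (hP : 0 < P) {p : ℝ} {N : ℕ}
    (h : |p - 1 / 2| * N * P ≤ 1) :
    (2 * p - 1) ^ 2 * ((N : ℝ) ^ 2 * P ^ 2) ≤ 4 := by
  have h0 : 0 ≤ |p - 1 / 2| * N * P := by positivity
  have h1 := pow_le_pow_left₀ h0 h 2
  rw [mul_pow, mul_pow, sq_abs, one_pow] at h1
  have h2 : (2 * p - 1) ^ 2 * ((N : ℝ) ^ 2 * P ^ 2)
      = 4 * ((p - 1 / 2) ^ 2 * N ^ 2 * P ^ 2) := by ring
  rw [h2]
  linarith

open Filter Topology in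
theorem analysis3_aux (π : ℕ → ℝ) (hπ0 : ∀ n, 0 < π n) (hπ1 : ∀ n, π n ≤ 1)
    (C₁ : ℝ) (h1 : ∀ m n : ℕ, 1 ≤ m → m ≤ n → π m ≤ C₁ * ((n : ℝ) / m) ^ (1 / 3 : ℝ) * π n)
    (C₂ a₀ : ℝ) (ha₀ : 0 < a₀)
    (h2 : ∀ m n : ℕ, 1 ≤ m → m ≤ n → π n ≤ C₂ * ((m : ℝ) / n) ^ a₀ * π m)
    (Y : ℕ → ℝ → ℝ) (y : ℕ → ℕ → ℝ) (D : ℕ → ℕ)
    (hY : ∀ k p, Y k p = ∑ j ∈ Finset.range (D k), y k j * (2 * p - 1) ^ j)
    (hyD : ∀ k j, D k ≤ j → y k j = 0)
    (C c₀ : ℝ) (hc₀ : 0 < c₀)
    (hy : ∀ (k : ℕ) (r : ℝ), 0 ≤ r → r ≤ 1 →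
      r ^ 2 * (4 ^ k * π (2 ^ k) ^ 2) ≤ c₀ → ∀ j, |y k j| * r ^ j ≤ C)
    (hYb : ∀ (k : ℕ) (p : ℝ), 0 ≤ p → p ≤ 1 → |Y k p| ≤ C)
    (hYd : ∀ (k : ℕ) (p : ℝ), 1 / 4 ≤ p → p ≤ 3 / 4 → |deriv (Y k) p| ≤ C * 2 ^ k)
    (G : ℝ → ℝ) (g : ℕ → ℝ) (m : ℕ)
    (hG : ∀ p, G p = ∑ j ∈ Finset.range m, g j * (2 * p - 1) ^ j)
    (κ : ℝ → ℝ)
    (hκ : ∀ p : ℝ, 0 ≤ p → p ≤ 1 → HasSum (fun k => Y k p / 4 ^ (k + 1)) (κ p - G p))
    (hdual : ∀ p : ℝ, 0 ≤ p → p ≤ 1 → κ p = κ (1 - p) + 1 - 2 * p) :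
    (∀ p : ℝ, 1 / 4 < p → p < 3 / 4 → DifferentiableAt ℝ κ p) ∧
    DifferentiableAt ℝ (deriv κ) (1 / 2) ∧
    ∃ C' : ℝ, ∀ p : ℝ, 0 ≤ p → p ≤ 1 → ∀ N : ℕ, 1 ≤ N →
      |p - 1 / 2| * N * π N ≤ 1 → |Rem κ p| ≤ C' / (N : ℝ) ^ 2 := by
  have hC1 := analysis3_C1_pos hπ0 h1
  have hc1 : 0 < (π 1 / C₁) ^ 2 := by
    have := hπ0 1
    positivity
  obtain ⟨r, C₃, hC₃, hr⟩ := analysis3_r hc1 (analysis3_A_ge hπ0 h1) hc₀
  have hr0 : ∀ k, 0 < r k := fun k => (hr k).1
  have hYk : ∀ k, Y k = analysis_P (y k) (D k) := by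
    intro k
    funext p
    exact hY k p
  have hC : ∀ k j, |y k j| * r k ^ j ≤ C := fun k j =>
    hy k (r k) (hr0 k).le (hr k).2.1 (hr k).2.2.1 j
  have hC0 : 0 ≤ C := le_trans (mul_nonneg (abs_nonneg _) (pow_nonneg (hr0 0).le 0)) (hC 0 0)
  have hd : ∀ (k : ℕ) (p : ℝ), 1 / 4 ≤ p → p ≤ 3 / 4 → |analysis_d (y k) (D k) p| ≤ C * 2 ^ k := by
    intro k p hp1 hp2
    have h3 := hYd k p hp1 hp2
    rwa [hYk k, (analysis_P_hasDeriv (y k) (D k) p).deriv] at h3
  have hl2 := analysis_log2_pos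
  obtain ⟨hs1, hs2⟩ := analysis_summables (C₃ := C₃ * (1 / Real.log 2)) hπ0 hπ1 ha₀ h2
    (by positivity) hr0 (fun k => by
      refine (hr k).2.2.2.trans ?_
      rw [mul_assoc]
      exact mul_le_mul_of_nonneg_left (analysis3_A_le k) hC₃.le)
  have hκ' : ∀ p : ℝ, 0 ≤ p → p ≤ 1 →
      HasSum (fun k => analysis_P (y k) (D k) p / 4 ^ (k + 1)) (κ p - G p) := by
    intro p hp0 hp1
    have h3 := hκ p hp0 hp1
    simp only [hYk] at h3
    exact h3
  have hs : Summable fun k => analysis_P (y k) (D k) (1 / 2) / 4 ^ (k + 1) :=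
    (hκ' (1 / 2) (by norm_num) (by norm_num)).summable
  -- the polynomial `G`
  set g' : ℕ → ℝ := fun j => if j < m then g j else 0 with hg'
  have hg'm : ∀ j, m ≤ j → g' j = 0 := by
    intro j hj
    rw [hg']
    exact if_neg (by omega)
  have hGP : G = analysis_P g' m := by
    funext p
    rw [hG p]
    unfold analysis_P
    apply Finset.sum_congr rfl
    intro j hj
    rw [Finset.mem_range] at hj
    rw [hg']
    simp only
    rw [if_pos hj]
  -- first derivative
  have hκd : ∀ p : ℝ, 1 / 4 < p → p < 3 / 4 →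
      HasDerivAt κ ((∑' k, analysis_d (y k) (D k) p / 4 ^ (k + 1)) + analysis_d g' m p) p := by
    intro p hp1 hp2
    have h3 := (analysis_series_one hd hs hp1 hp2).2.add (analysis_P_hasDeriv g' m p)
    refine h3.congr_of_eventuallyEq ?_
    filter_upwards [Ioo_mem_nhds hp1 hp2] with q hq
    have h4 := (hκ' q (by linarith [hq.1]) (by linarith [hq.2])).tsum_eq
    simp only [Pi.add_apply]
    rw [h4, hGP]
    ring
  have hone : ∀ p : ℝ, 1 / 4 < p → p < 3 / 4 → DifferentiableAt ℝ κ p :=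
    fun p hp1 hp2 => (hκd p hp1 hp2).differentiableAt
  -- second derivative
  have hsum2 : Summable fun k => y k 2 / 4 ^ (k + 1) := by
    apply Summable.of_norm_bounded (hs1.mul_left C)
    intro k
    rw [Real.norm_eq_abs, abs_div, abs_of_pos (by positivity : (0 : ℝ) < 4 ^ (k + 1)), ← mul_div_assoc]
    apply div_le_div_of_nonneg_right _ (by positivity)
    have := hr0 k
    rw [mul_one_div, le_div_iff₀ (by positivity)]
    exact hC k 2
  set q := ∑' k, y k 2 / 4 ^ (k + 1) with hq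
  have hκ2 : HasDerivAt (deriv κ) (8 * (q + g' 2)) (1 / 2) := by
    have h3 := (analysis_series_two hyD hd hr0 hC hs hs1 hs2).add (analysis_hasDeriv2 hg'm)
    have h5 : (∑' k, 8 * y k 2 / 4 ^ (k + 1)) + 8 * g' 2 = 8 * (q + g' 2) := by
      have : (∑' k, 8 * y k 2 / 4 ^ (k + 1)) = 8 * q := by
        rw [hq, ← tsum_mul_left]
        apply tsum_congr
        intro k
        ring
      rw [this]
      ring
    rw [h5] at h3
    refine h3.congr_of_eventuallyEq ?_
    filter_upwards [Ioo_mem_nhds (by norm_num : (1 / 4 : ℝ) < 1 / 2) (by norm_num : (1 / 2 : ℝ) < 3 / 4)]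
      with p hp
    exact (hκd p hp.1 hp.2).deriv
  have hd1 : deriv κ (1 / 2) = -1 := by
    have h3 := (hone (1 / 2) (by norm_num) (by norm_num)).hasDerivAt
    have h4 : HasDerivAt (fun p : ℝ => κ (1 - p) + 1 - 2 * p) (-deriv κ (1 / 2) - 2) (1 / 2) := by
      have h5 : HasDerivAt (fun p : ℝ => 1 - p) (-1) (1 / 2) := by
        simpa using (hasDerivAt_id (1 / 2 : ℝ)).const_sub 1
      have h6 : HasDerivAt κ (deriv κ (1 / 2)) (1 - 1 / 2) := by
        have : (1 : ℝ) - 1 / 2 = 1 / 2 := by norm_num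
        rw [this]
        exact h3
      have h7 := (h6.comp (1 / 2 : ℝ) h5).add_const 1
      have h8 : HasDerivAt (fun p : ℝ => 2 * p) 2 (1 / 2) := by
        simpa using (hasDerivAt_id (1 / 2 : ℝ)).const_mul 2
      have h9 := h7.sub h8
      have h10 : deriv κ (1 / 2) * -1 - 2 = -deriv κ (1 / 2) - 2 := by ring
      rw [h10] at h9
      exact h9
    have h11 : κ =ᶠ[𝓝 (1 / 2)] fun p => κ (1 - p) + 1 - 2 * p := by
      filter_upwards [Ioo_mem_nhds (by norm_num : (1 / 4 : ℝ) < 1 / 2)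
        (by norm_num : (1 / 2 : ℝ) < 3 / 4)] with p hp
      exact hdual p (by linarith [hp.1]) (by linarith [hp.2])
    have h12 := (h4.congr_of_eventuallyEq h11).unique h3
    linarith
  refine ⟨hone, hκ2.differentiableAt, ?_⟩
  refine ⟨(144 * C * C₃ ^ 2 * C₁ ^ 4 / (1 - (1 / 2 : ℝ) ^ (2 / 3 : ℝ))
      + 9 * C * C₃ * C₂ ^ 2 / (1 - (1 / 2 : ℝ) ^ a₀))
      + (∑ i ∈ Finset.range m, |g' (4 + i)|) * (16 / (π 1 / C₁) ^ 4), ?_⟩
  intro p hp0 hp1 N hN hyp
  have hW := analysis3_W (hπ0 N) hyp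
  set z := 2 * p - 1 with hz
  have hT := analysis3_T (z := z) hπ0 h1 ha₀ h2 hC0 hC₃ (R := fun k => 1 / r k ^ 2)
    (fun k => by have := hr0 k; positivity) (fun k => (hr k).2.2.2) hs1
    (E := fun k => analysis_evR (y k) (D k) z)
    (fun k => (analysis_evR_two (hyD k) (hr0 k) (hC k)
      (by rw [← hYk]; exact hYb k p hp0 hp1)
      (by rw [← hYk]; exact hYb k (1 - p) (by linarith) (by linarith))).1)
    (fun k => (analysis_evR_two (hyD k) (hr0 k) (hC k)
      (by rw [← hYk]; exact hYb k p hp0 hp1)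
      (by rw [← hYk]; exact hYb k (1 - p) (by linarith) (by linarith))).2)
    hN hW
  have hsT : HasSum (fun k => analysis_evR (y k) (D k) z / 4 ^ (k + 1))
      ((κ p - G p + (κ (1 - p) - G (1 - p))) / 2 - (κ (1 / 2) - G (1 / 2)) - q * z ^ 2) := by
    have a1 := hκ' p hp0 hp1
    have a2 := hκ' (1 - p) (by linarith) (by linarith)
    have a3 := hκ' (1 / 2) (by norm_num) (by norm_num)
    have a4 := hsum2.hasSum.mul_right (z ^ 2)
    have a5 := (((a1.add a2).div_const 2).sub a3).sub a4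
    refine a5.congr_fun ?_
    intro k
    have h3 := analysis_P_even (hyD k) p
    rw [← hz] at h3
    have h4 := analysis_P_half (y k) (hyD k)
    have h5 : analysis_evR (y k) (D k) z
        = (analysis_P (y k) (D k) p + analysis_P (y k) (D k) (1 - p)) / 2 - y k 0 - y k 2 * z ^ 2 := by
      rw [h3]
      ring
    rw [h5, h4]
    ring
  have hGe := analysis_P_even hg'm p
  rw [← hz, ← hGP] at hGe
  have hGh := analysis_P_half g' hg'm
  rw [← hGP] at hGh
  have hRem : Rem κ p = (∑' k, analysis_evR (y k) (D k) z / 4 ^ (k + 1)) + analysis_evR g' m z := by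
    rw [hsT.tsum_eq]
    unfold Rem
    rw [hd1, hκ2.deriv, hGh]
    have h3 := hdual p hp0 hp1
    have h4 : analysis_evR g' m z = (G p + G (1 - p)) / 2 - g' 0 - g' 2 * z ^ 2 := by
      rw [hGe]
      ring
    rw [h4, hz]
    have h5 : κ (1 - p) = κ p - 1 + 2 * p := by linarith
    rw [h5]
    ring
  rw [hRem]
  refine (abs_add_le _ _).trans ?_
  rw [add_div]
  apply add_le_add hT
  have hz1 : |z| ≤ 1 := by
    rw [abs_le]
    constructor <;> linarith
  refine (analysis_evR_abs g' m hz1).trans ?_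
  rw [mul_div_assoc]
  apply mul_le_mul_of_nonneg_left _ (Finset.sum_nonneg (fun i _ => abs_nonneg _))
  exact analysis3_G hπ0 h1 hN hW

theorem analysis3 (π : ℕ → ℝ) (hπ0 : ∀ n, 0 < π n) (hπ1 : ∀ n, π n ≤ 1)
    (C₁ : ℝ) (h1 : ∀ m n : ℕ, 1 ≤ m → m ≤ n → π m ≤ C₁ * ((n : ℝ) / m) ^ (1 / 3 : ℝ) * π n)
    (C₂ a₀ : ℝ) (ha₀ : 0 < a₀)
    (h2 : ∀ m n : ℕ, 1 ≤ m → m ≤ n → π n ≤ C₂ * ((m : ℝ) / n) ^ a₀ * π m)
    (Y : ℕ → ℝ → ℝ) (y : ℕ → ℕ → ℝ) (D : ℕ → ℕ)
    (hY : ∀ k p, Y k p = ∑ j ∈ Finset.range (D k), y k j * (2 * p - 1) ^ j)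
    (hyD : ∀ k j, D k ≤ j → y k j = 0)
    (C c₀ : ℝ) (hc₀ : 0 < c₀)
    (hy : ∀ (k : ℕ) (r : ℝ), 0 ≤ r → r ≤ 1 →
      r ^ 2 * (4 ^ k * π (2 ^ k) ^ 2) ≤ c₀ → ∀ j, |y k j| * r ^ j ≤ C)
    (hYb : ∀ (k : ℕ) (p : ℝ), 0 ≤ p → p ≤ 1 → |Y k p| ≤ C)
    (hYd : ∀ (k : ℕ) (p : ℝ), 1 / 4 ≤ p → p ≤ 3 / 4 → |deriv (Y k) p| ≤ C * 2 ^ k)
    (G : ℝ → ℝ) (g : ℕ → ℝ) (m : ℕ)
    (hG : ∀ p, G p = ∑ j ∈ Finset.range m, g j * (2 * p - 1) ^ j)
    (κ : ℝ → ℝ)
    (hκ : ∀ p : ℝ, 0 ≤ p → p ≤ 1 → HasSum (fun k => Y k p / 4 ^ (k + 1)) (κ p - G p))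
    (hdual : ∀ p : ℝ, 0 ≤ p → p ≤ 1 → κ p = κ (1 - p) + 1 - 2 * p) :
    (∀ p : ℝ, 1 / 4 < p → p < 3 / 4 → DifferentiableAt ℝ κ p) ∧
    DifferentiableAt ℝ (deriv κ) (1 / 2) ∧
    ∃ C' : ℝ, ∀ p : ℝ, 0 ≤ p → p ≤ 1 → ∀ N : ℕ, 1 ≤ N →
      |p - 1 / 2| * N * π N ≤ 1 → |Rem κ p| ≤ C' / (N : ℝ) ^ 2 := by
  exact analysis3_aux π hπ0 hπ1 C₁ h1 C₂ a₀ ha₀ h2 Y y D hY hyD C c₀ hc₀ hy hYb hYd G g m hG κ hκ
    hdual

end Pool.Agent.H29.Kap

end

section

/-! # Derivative of an expectation with respect to the density -/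

set_option autoImplicit false

namespace Pool.Agent.H29.Kap

open Pool.Agent.Perc

variable {ι : Type*} [DecidableEq ι]

/-- normalised indicator -/
noncomputable def derivbound_g (p : ℝ) (e : ι) (S : Finset ι) : ℝ :=
  ((if e ∈ S then 1 else 0) - p) / (p * (1 - p))

lemma derivbound_g_in {p : ℝ} (h0 : 0 < p) (h1 : p < 1) {e : ι} {S : Finset ι} (h : e ∈ S) :
    derivbound_g p e S = 1 / p := by
  have h2 : (1 - p) ≠ 0 := by linarith
  unfold derivbound_g
  rw [if_pos h]
  field_simp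

lemma derivbound_g_out {p : ℝ} (h0 : 0 < p) (h1 : p < 1) {e : ι} {S : Finset ι} (h : e ∉ S) :
    derivbound_g p e S = - (1 / (1 - p)) := by
  have h2 : (1 - p) ≠ 0 := by linarith
  unfold derivbound_g
  rw [if_neg h]
  field_simp
  ring

lemma derivbound_DD {F : Finset ι} {e : ι} (he : e ∈ F) (f : Finset ι → ℝ) {p : ℝ} (h0 : 0 < p)
    (h1 : p < 1) :
    Ex p F (DD e f) = Ex p F (fun S => f S * derivbound_g p e S) := by
  have h2 : (1 - p) ≠ 0 := by linarith
  rw [Ex_DD he, Ex_erase he p (fun S => f S * derivbound_g p e S)]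
  have e1 : Ex p (F.erase e) (fun S => f (insert e S) * derivbound_g p e (insert e S)) =
      Ex p (F.erase e) (fun S => f (insert e S)) * (1 / p) := by
    rw [← Ex_mul_const]
    exact Ex_congr fun S _ => by rw [derivbound_g_in h0 h1 (Finset.mem_insert_self e S)]
  have e2 : Ex p (F.erase e) (fun S => f S * derivbound_g p e S) =
      Ex p (F.erase e) f * (- (1 / (1 - p))) := by
    rw [← Ex_mul_const]
    exact Ex_congr fun S hS => by
      rw [derivbound_g_out h0 h1 (fun h => (Finset.mem_erase.1 (hS h)).1 rfl)]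
  rw [e1, e2]
  field_simp
  ring

lemma derivbound_W (F : Finset ι) {p : ℝ} (h0 : 0 < p) (h1 : p < 1) :
    Ex p F (fun S => (∑ e ∈ F, derivbound_g p e S) ^ 2) = F.card / (p * (1 - p)) := by
  have h2 : (1 - p) ≠ 0 := by linarith
  induction F using Finset.induction_on with
  | empty => simp
  | insert a F ha ih =>
    rw [Ex_insert ha, Finset.card_insert_of_notMem ha]
    have hother : ∀ S : Finset ι, ∑ e ∈ F, derivbound_g p e (insert a S) = ∑ e ∈ F, derivbound_g p e S := by
      intro S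
      apply Finset.sum_congr rfl
      intro e he
      have hea : e ≠ a := fun h => ha (h ▸ he)
      unfold derivbound_g
      simp [Finset.mem_insert, hea]
    have e1 : Ex p F (fun S => (∑ e ∈ insert a F, derivbound_g p e (insert a S)) ^ 2) =
        1 / p ^ 2 + 2 / p * Ex p F (fun S => ∑ e ∈ F, derivbound_g p e S) +
          Ex p F (fun S => (∑ e ∈ F, derivbound_g p e S) ^ 2) := by
      rw [← Ex_const_mul, ← Ex_const p F (1 / p ^ 2), ← Ex_add, ← Ex_add]
      refine Ex_congr fun S _ => ?_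
      rw [Finset.sum_insert ha, hother, derivbound_g_in h0 h1 (Finset.mem_insert_self a S)]
      ring
    have e2 : Ex p F (fun S => (∑ e ∈ insert a F, derivbound_g p e S) ^ 2) =
        1 / (1 - p) ^ 2 + (-(2 / (1 - p))) * Ex p F (fun S => ∑ e ∈ F, derivbound_g p e S) +
          Ex p F (fun S => (∑ e ∈ F, derivbound_g p e S) ^ 2) := by
      rw [← Ex_const_mul, ← Ex_const p F (1 / (1 - p) ^ 2), ← Ex_add, ← Ex_add]
      refine Ex_congr fun S hS => ?_
      rw [Finset.sum_insert ha, derivbound_g_out h0 h1 (fun h => ha (hS h)),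
        show (1 : ℝ) / (1 - p) ^ 2 = (1 / (1 - p)) ^ 2 by rw [one_div, one_div, inv_pow],
        show (2 : ℝ) / (1 - p) = 2 * (1 / (1 - p)) by ring]
      ring
    rw [e1, e2, ih]
    push_cast
    field_simp
    ring

theorem deriv_Ex_bound (F : Finset ι) (f : Finset ι → ℝ) {p : ℝ} (h0 : 0 < p) (h1 : p < 1) :
    |deriv (fun q => Ex q F f) p| ≤
      Real.sqrt (F.card / (p * (1 - p))) * Real.sqrt (Ex p F (fun S => f S ^ 2)) := by
  rw [(hasDerivAt_Ex F f p).deriv]
  have e1 : ∑ e ∈ F, Ex p F (DD e f) = Ex p F (fun S => f S * ∑ e ∈ F, derivbound_g p e S) := by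
    rw [Finset.sum_congr rfl (fun e he => derivbound_DD he f h0 h1), ← Ex_sum]
    exact Ex_congr fun S _ => by rw [Finset.mul_sum]
  rw [e1]
  have h2 := Ex_mul_sq_le h0.le h1.le F f (fun S => ∑ e ∈ F, derivbound_g p e S)
  rw [derivbound_W F h0 h1] at h2
  rw [← Real.sqrt_mul (by
    have : 0 < 1 - p := by linarith
    positivity), mul_comm ((F.card : ℝ) / (p * (1 - p)))]
  exact Real.abs_le_sqrt h2

end Pool.Agent.H29.Kap

end

section

/-! # A sum over tuples of edges -/

set_option autoImplicit false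

namespace Pool.Agent.H29.Kap

open Pool.Agent.H89.Perc

/-- Sup distance between the first endpoints. -/
def dist2 (e e' : Edge) : ℕ := max (e.1 - e'.1).natAbs (e.2.1 - e'.2.1).natAbs

/-- Distance of the first endpoint to the boundary of the rectangle. -/
def dbd (a b c d : ℤ) (e : Edge) : ℕ :=
  (min (min (e.1 - a) (b - e.1)) (min (e.2.1 - c) (d - e.2.1))).toNat

/-! ### The abstract inequality -/

section abstract_part

variable {α : Type*} [DecidableEq α]

/-- the upper factors -/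
noncomputable def tupsum_U (s : α → ℝ) (t : α → α → ℝ) {j : ℕ} (e : Fin j → α) (i : Fin j) : ℝ :=
  1 + s (e i) + ∑ k ∈ Finset.univ.filter (fun k => i < k), t (e i) (e k)

/-- the lower factors -/
noncomputable def tupsum_D (s : α → ℝ) (t : α → α → ℝ) {j : ℕ} (e : Fin j → α) (i : Fin j) : ℝ :=
  1 + s (e i) + ∑ k ∈ Finset.univ.filter (fun k => k < i), t (e i) (e k)

lemma tupsum_pi_succ (E : Finset α) (n : ℕ) (f : (Fin (n + 1) → α) → ℝ) :
    ∑ e ∈ Fintype.piFinset (fun _ : Fin (n + 1) => E), f e =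
      ∑ e ∈ Fintype.piFinset (fun _ : Fin n => E), ∑ x ∈ E, f (Fin.cons x e) := by
  rw [← Finset.sum_product']
  refine Finset.sum_bij' (fun e _ => (Fin.tail e, e 0)) (fun p _ => Fin.cons p.2 p.1) ?_ ?_ ?_ ?_ ?_
  · intro e he
    rw [Fintype.mem_piFinset] at he
    simp only [Finset.mem_product, Fintype.mem_piFinset]
    exact ⟨fun i => he _, he 0⟩
  · intro p hp
    simp only [Finset.mem_product, Fintype.mem_piFinset] at hp
    rw [Fintype.mem_piFinset]
    intro i
    refine Fin.cases ?_ (fun i => ?_) i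
    · simpa using hp.2
    · simpa using hp.1 i
  · intro e _
    exact Fin.cons_self_tail e
  · intro p _
    simp
  · intro e _
    rw [Fin.cons_self_tail]

lemma tupsum_pi_rev (E : Finset α) (n : ℕ) (f : (Fin n → α) → ℝ) :
    ∑ e ∈ Fintype.piFinset (fun _ : Fin n => E), f e =
      ∑ e ∈ Fintype.piFinset (fun _ : Fin n => E), f (fun i => e (Fin.rev i)) := by
  refine Finset.sum_bij' (fun e _ => fun i => e (Fin.rev i)) (fun e _ => fun i => e (Fin.rev i))
    ?_ ?_ ?_ ?_ ?_
  · intro e he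
    rw [Fintype.mem_piFinset] at he ⊢
    exact fun i => he _
  · intro e he
    rw [Fintype.mem_piFinset] at he ⊢
    exact fun i => he _
  · intro e _
    funext i
    simp
  · intro e _
    funext i
    simp
  · intro e _
    congr 1
    funext i
    simp

lemma tupsum_U_nonneg {s : α → ℝ} {t : α → α → ℝ} (hs : ∀ x, 0 ≤ s x) (ht : ∀ x y, 0 ≤ t x y)
    {j : ℕ} (e : Fin j → α) (i : Fin j) : 1 ≤ tupsum_U s t e i := by
  unfold tupsum_U
  have := hs (e i)
  have h2 : 0 ≤ ∑ k ∈ Finset.univ.filter (fun k => i < k), t (e i) (e k) :=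
    Finset.sum_nonneg fun k _ => ht _ _
  linarith

lemma tupsum_U_sum {s : α → ℝ} {t : α → α → ℝ} (hs : ∀ x, 0 ≤ s x) (ht : ∀ x y, 0 ≤ t x y)
    (E : Finset α) {B : ℝ} (hB1 : (E.card : ℝ) ≤ B) (hB2 : ∑ x ∈ E, s x ≤ B)
    (hB3 : ∀ y ∈ E, ∑ x ∈ E, t x y ≤ B) (j : ℕ) :
    ∑ e ∈ Fintype.piFinset (fun _ : Fin j => E), ∏ i, tupsum_U s t e i ≤
      (j + 1).factorial * B ^ j := by
  have hB0 : 0 ≤ B := le_trans (by positivity) hB1
  induction j with
  | zero => simp
  | succ n ih =>
    rw [tupsum_pi_succ]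
    have key : ∀ e ∈ Fintype.piFinset (fun _ : Fin n => E),
        ∑ x ∈ E, ∏ i, tupsum_U s t (Fin.cons x e : Fin (n + 1) → α) i ≤
          ((n + 2 : ℕ) : ℝ) * B * ∏ i, tupsum_U s t e i := by
      intro e he
      rw [Fintype.mem_piFinset] at he
      have h1 : ∀ x, ∏ i, tupsum_U s t (Fin.cons x e : Fin (n + 1) → α) i =
          (1 + s x + ∑ k, t x (e k)) * ∏ i, tupsum_U s t e i := by
        intro x
        rw [Fin.prod_univ_succ]
        congr 1
        · unfold tupsum_U
          rw [Fin.cons_zero]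
          congr 1
          rw [Finset.sum_filter, Fin.sum_univ_succ]
          simp
        · refine Finset.prod_congr rfl fun i _ => ?_
          unfold tupsum_U
          rw [Fin.cons_succ]
          congr 1
          rw [Finset.sum_filter, Fin.sum_univ_succ, Finset.sum_filter]
          simp
      simp only [h1]
      rw [← Finset.sum_mul]
      refine mul_le_mul_of_nonneg_right ?_ (Finset.prod_nonneg fun i _ =>
        le_trans zero_le_one (tupsum_U_nonneg hs ht e i))
      rw [Finset.sum_add_distrib, Finset.sum_add_distrib, Finset.sum_comm]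
      have h2 : ∑ k, ∑ x ∈ E, t x (e k) ≤ ∑ _k : Fin n, B :=
        Finset.sum_le_sum fun k _ => hB3 _ (he k)
      simp only [Finset.sum_const, Finset.card_univ, Fintype.card_fin, nsmul_eq_mul, mul_one] at h2 ⊢
      push_cast
      nlinarith
    calc _ ≤ ∑ e ∈ Fintype.piFinset (fun _ : Fin n => E), ((n + 2 : ℕ) : ℝ) * B * ∏ i, tupsum_U s t e i :=
          Finset.sum_le_sum key
      _ = ((n + 2 : ℕ) : ℝ) * B * ∑ e ∈ Fintype.piFinset (fun _ : Fin n => E), ∏ i, tupsum_U s t e i := by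
          rw [Finset.mul_sum]
      _ ≤ ((n + 2 : ℕ) : ℝ) * B * ((n + 1).factorial * B ^ n) :=
          mul_le_mul_of_nonneg_left ih (by positivity)
      _ = _ := by
          rw [Nat.factorial_succ (n + 1)]
          push_cast
          ring

lemma tupsum_D_sum {s : α → ℝ} {t : α → α → ℝ} (hs : ∀ x, 0 ≤ s x) (ht : ∀ x y, 0 ≤ t x y)
    (E : Finset α) {B : ℝ} (hB1 : (E.card : ℝ) ≤ B) (hB2 : ∑ x ∈ E, s x ≤ B)
    (hB3 : ∀ y ∈ E, ∑ x ∈ E, t x y ≤ B) (j : ℕ) :
    ∑ e ∈ Fintype.piFinset (fun _ : Fin j => E), ∏ i, tupsum_D s t e i ≤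
      (j + 1).factorial * B ^ j := by
  rw [tupsum_pi_rev]
  refine le_of_eq_of_le (Finset.sum_congr rfl fun e _ => ?_) (tupsum_U_sum hs ht E hB1 hB2 hB3 j)
  refine Fintype.prod_equiv Fin.revPerm _ _ fun i => ?_
  unfold tupsum_D tupsum_U
  simp only [Fin.revPerm_apply]
  congr 1
  refine Finset.sum_bij' (fun k _ => Fin.rev k) (fun k _ => Fin.rev k) ?_ ?_ ?_ ?_ ?_
  · intro k hk
    simp only [Finset.mem_filter, Finset.mem_univ, true_and] at hk ⊢
    exact Fin.rev_lt_rev.2 hk
  · intro k hk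
    simp only [Finset.mem_filter, Finset.mem_univ, true_and] at hk ⊢
    rw [← Fin.rev_lt_rev, Fin.rev_rev]
    exact hk
  · simp
  · simp
  · simp

lemma tupsum_prod {s : α → ℝ} {t : α → α → ℝ} (hs : ∀ x, 0 ≤ s x) (ht : ∀ x y, 0 ≤ t x y)
    {j : ℕ} (e : Fin j → α) (w : Fin j → ℝ) (hw0 : ∀ i, 0 ≤ w i)
    (hw : ∀ i, w i = s (e i) ∨ ∃ k, k ≠ i ∧ w i ^ 2 = t (e i) (e k)) :
    ∏ i, w i ≤ (∏ i, tupsum_D s t e i + ∏ i, tupsum_U s t e i) / 2 := by
  have hD : ∀ i, 1 ≤ tupsum_D s t e i := by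
    intro i
    unfold tupsum_D
    have := hs (e i)
    have h2 : 0 ≤ ∑ k ∈ Finset.univ.filter (fun k => k < i), t (e i) (e k) :=
      Finset.sum_nonneg fun k _ => ht _ _
    linarith
  have hU : ∀ i, 1 ≤ tupsum_U s t e i := fun i => tupsum_U_nonneg hs ht e i
  have hone : ∀ i, w i ^ 2 ≤ tupsum_D s t e i * tupsum_U s t e i := by
    intro i
    rcases hw i with h | ⟨k, hk, h⟩
    · have h1 : s (e i) ≤ tupsum_D s t e i := by
        unfold tupsum_D
        have h2 : 0 ≤ ∑ k ∈ Finset.univ.filter (fun k => k < i), t (e i) (e k) :=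
          Finset.sum_nonneg fun k _ => ht _ _
        linarith
      have h3 : s (e i) ≤ tupsum_U s t e i := by
        unfold tupsum_U
        have h2 : 0 ≤ ∑ k ∈ Finset.univ.filter (fun k => i < k), t (e i) (e k) :=
          Finset.sum_nonneg fun k _ => ht _ _
        linarith
      rw [h, sq]
      exact mul_le_mul h1 h3 (hs _) (le_trans zero_le_one (hD i))
    · rw [h]
      rcases lt_or_gt_of_ne hk with hlt | hgt
      · have h1 : t (e i) (e k) ≤ tupsum_D s t e i := by
          unfold tupsum_D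
          have h2 : t (e i) (e k) ≤ ∑ k ∈ Finset.univ.filter (fun k => k < i), t (e i) (e k) :=
            Finset.single_le_sum (f := fun k => t (e i) (e k)) (fun k _ => ht _ _) (by simpa using hlt)
          have := hs (e i)
          linarith
        have h3 := hU i
        have h4 := ht (e i) (e k)
        nlinarith
      · have h1 : t (e i) (e k) ≤ tupsum_U s t e i := by
          unfold tupsum_U
          have h2 : t (e i) (e k) ≤ ∑ k ∈ Finset.univ.filter (fun k => i < k), t (e i) (e k) :=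
            Finset.single_le_sum (f := fun k => t (e i) (e k)) (fun k _ => ht _ _) (by simpa using hgt)
          have := hs (e i)
          linarith
        have h3 := hD i
        have h4 := ht (e i) (e k)
        nlinarith
  have h2 : (∏ i, w i) ^ 2 ≤ (∏ i, tupsum_D s t e i) * ∏ i, tupsum_U s t e i := by
    rw [← Finset.prod_pow, ← Finset.prod_mul_distrib]
    exact Finset.prod_le_prod (fun i _ => sq_nonneg _) fun i _ => hone i
  have hDp : 0 ≤ ∏ i, tupsum_D s t e i :=
    Finset.prod_nonneg fun i _ => le_trans zero_le_one (hD i)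
  have hUp : 0 ≤ ∏ i, tupsum_U s t e i :=
    Finset.prod_nonneg fun i _ => le_trans zero_le_one (hU i)
  refine le_of_sq_le_sq ?_ (by positivity)
  refine h2.trans ?_
  nlinarith [sq_nonneg (∏ i, tupsum_D s t e i - ∏ i, tupsum_U s t e i)]

end abstract_part

/-! ### One dimensional sums -/

lemma tupsum_fiber (s : Finset ℤ) (g : ℤ → ℕ) (κ L : ℕ)
    (hκ : ∀ n, (s.filter (fun x => g x = n)).card ≤ κ) (hL : ∀ x ∈ s, g x ≤ L)
    (f : ℕ → ℝ) (hf : ∀ n, 0 ≤ f n) :
    ∑ x ∈ s, f (g x) ≤ κ * ∑ n ∈ Finset.range (L + 1), f n := by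
  rw [Finset.sum_comp, Finset.mul_sum]
  have h1 : ∀ n ∈ s.image g, ((s.filter (fun x => g x = n)).card) • f n ≤ κ * f n := by
    intro n _
    rw [nsmul_eq_mul]
    exact mul_le_mul_of_nonneg_right (by exact_mod_cast hκ n) (hf n)
  refine (Finset.sum_le_sum h1).trans ?_
  refine Finset.sum_le_sum_of_subset_of_nonneg ?_ fun n _ _ => mul_nonneg (by positivity) (hf n)
  intro n hn
  obtain ⟨x, hx, rfl⟩ := Finset.mem_image.1 hn
  exact Finset.mem_range.2 (Nat.lt_succ_of_le (hL x hx))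

lemma tupsum_toNat {M : ℕ} (a b : ℤ) (hab : b - a ≤ M) (f : ℕ → ℝ)
    (hf : ∀ n, 0 ≤ f n) :
    ∑ x ∈ Finset.Icc a b, f (x - a).toNat ≤ ∑ n ∈ Finset.range (M + 1), f n := by
  have := tupsum_fiber (Finset.Icc a b) (fun x => (x - a).toNat) 1 M (fun n => by
    rw [Finset.card_le_one]
    intro x hx y hy
    simp only [Finset.mem_filter, Finset.mem_Icc] at hx hy
    omega) (fun x hx => by
    simp only [Finset.mem_Icc] at hx
    show (x - a).toNat ≤ M
    omega) f hf
  simpa using this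

lemma tupsum_toNat' {M : ℕ} (a b : ℤ) (hab : b - a ≤ M) (f : ℕ → ℝ)
    (hf : ∀ n, 0 ≤ f n) :
    ∑ x ∈ Finset.Icc a b, f (b - x).toNat ≤ ∑ n ∈ Finset.range (M + 1), f n := by
  have := tupsum_fiber (Finset.Icc a b) (fun x => (b - x).toNat) 1 M (fun n => by
    rw [Finset.card_le_one]
    intro x hx y hy
    simp only [Finset.mem_filter, Finset.mem_Icc] at hx hy
    omega) (fun x hx => by
    simp only [Finset.mem_Icc] at hx
    show (b - x).toNat ≤ M
    omega) f hf
  simpa using this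

lemma tupsum_natAbs {M : ℕ} (a b : ℤ) (hab : b - a ≤ M) (x' : ℤ) (hx' : x' ∈ Finset.Icc a b)
    (f : ℕ → ℝ) (hf : ∀ n, 0 ≤ f n) :
    ∑ x ∈ Finset.Icc a b, f (x - x').natAbs ≤ 2 * ∑ n ∈ Finset.range (M + 1), f n := by
  rw [Finset.mem_Icc] at hx'
  have := tupsum_fiber (Finset.Icc a b) (fun x => (x - x').natAbs) 2 M (fun n => by
    refine (Finset.card_le_card (t := {x' + n, x' - n}) ?_).trans Finset.card_le_two
    intro x hx
    simp only [Finset.mem_filter, Finset.mem_Icc] at hx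
    simp only [Finset.mem_insert, Finset.mem_singleton]
    omega) (fun x hx => by
    simp only [Finset.mem_Icc] at hx
    show (x - x').natAbs ≤ M
    omega) f hf
  simpa using this

/-! ### Sums over the edges of a rectangle -/

lemma tupsum_redges_le {a b c d : ℤ} (f : ℤ → ℤ → ℝ) (hf : ∀ x y, 0 ≤ f x y) :
    ∑ e ∈ redges a b c d, f e.1 e.2.1 ≤
      2 * ∑ x ∈ Finset.Icc a b, ∑ y ∈ Finset.Icc c d, f x y := by
  have hsub : redges a b c d ⊆ Finset.Icc a b ×ˢ Finset.Icc c d ×ˢ (Finset.univ : Finset Bool) := by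
    intro e he
    obtain ⟨x, y, t⟩ := e
    simp only [redges, Finset.mem_union, Finset.mem_product, Finset.mem_Icc, Finset.mem_singleton,
      Finset.mem_univ, and_true] at he ⊢
    omega
  refine (Finset.sum_le_sum_of_subset_of_nonneg hsub fun e _ _ => hf _ _).trans ?_
  rw [Finset.sum_product]
  simp only [Finset.sum_product]
  simp only [Finset.sum_const, Finset.card_univ, Fintype.card_bool, nsmul_eq_mul]
  rw [Finset.mul_sum]
  simp only [Finset.mul_sum]
  push_cast
  exact le_rfl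

lemma tupsum_card_Icc {M : ℕ} (a b : ℤ) (hM : 1 ≤ M) (hab : b - a ≤ M) :
    ((Finset.Icc a b).card : ℝ) ≤ 2 * M := by
  rw [Int.card_Icc]
  have : (b + 1 - a).toNat ≤ 2 * M := by omega
  exact_mod_cast this

end Pool.Agent.H29.Kap

end

section

/-! # Exponential moments of the size of `R` -/

set_option autoImplicit false

namespace Pool.Agent.H29.Kap

open Pool.Agent.H89.Perc Pool.Agent.Perc

/-- Distance of the `i`-th edge to the other edges and to the boundary. -/
noncomputable def expmomRho (a b c d : ℤ) {j : ℕ} (e : Fin j → Edge) (i : Fin j) : ℕ :=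
  (insert (dbd a b c d (e i))
    ((Finset.univ.erase i).image fun k => dist2 (e i) (e k))).min' (Finset.insert_nonempty _ _)

theorem expmomRho_mem (a b c d : ℤ) {j : ℕ} (e : Fin j → Edge) (i : Fin j) :
    expmomRho a b c d e i = dbd a b c d (e i) ∨
      ∃ k, k ≠ i ∧ expmomRho a b c d e i = dist2 (e i) (e k) := by
  have h := Finset.min'_mem (insert (dbd a b c d (e i))
    ((Finset.univ.erase i).image fun k => dist2 (e i) (e k))) (Finset.insert_nonempty _ _)
  rw [Finset.mem_insert, Finset.mem_image] at h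
  rcases h with h | ⟨k, hk, h⟩
  · exact Or.inl h
  · exact Or.inr ⟨k, (Finset.mem_erase.1 hk).1, h.symm⟩

theorem expmomRho_le (a b c d : ℤ) {j : ℕ} (e : Fin j → Edge) (i : Fin j) :
    expmomRho a b c d e i ≤ dbd a b c d (e i) :=
  Finset.min'_le _ _ (Finset.mem_insert_self _ _)

theorem expmomRho_le' (a b c d : ℤ) {j : ℕ} (e : Fin j → Edge) (i k : Fin j) (h : k ≠ i) :
    expmomRho a b c d e i ≤ dist2 (e i) (e k) :=
  Finset.min'_le _ _ (Finset.mem_insert_of_mem (Finset.mem_image.2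
    ⟨k, Finset.mem_erase.2 ⟨h, Finset.mem_univ k⟩, rfl⟩))

end Pool.Agent.H29.Kap

end

section

/-! # Duality for a single edge in a rectangle -/

set_option autoImplicit false

namespace Pool.Agent.H29.Kap

open Pool.Agent.H89.Perc

/-- A function which does not change across the edges outside `D` is constant on the faces
outside `D`. -/
theorem edgeduality_ring {α : Type*} {f : Vert → α} {a b c d : ℤ} (hab : a ≤ b) (hcd : c ≤ d)
    (h : ∀ g : Edge, ¬ (src g ∈ rect a b c d ∧ tgt g ∈ rect a b c d) →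
      lowFace g ∈ rect (a - 1) b (c - 1) d → src g ∈ rect (a - 1) b (c - 1) d →
      f (lowFace g) = f (src g)) :
    ∀ v ∈ bd (a - 1) b (c - 1) d, f v = f (a - 1, c - 1) := by
  have hor : ∀ x y : ℤ, a - 1 ≤ x → x < b → (y = c - 1 ∨ y = d) → f (x, y) = f (x + 1, y) := by
    intro x y h1 h2 h3
    have h4 := h (x + 1, y, true) (by
      simp only [src, tgt, rect, Set.mem_ofPred_eq, if_true]
      omega) (by
      simp only [lowFace, rect, Set.mem_ofPred_eq, if_true]
      omega) (by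
      simp only [src, rect, Set.mem_ofPred_eq]
      omega)
    simpa [lowFace, src] using h4
  have ver : ∀ x y : ℤ, c - 1 ≤ y → y < d → (x = a - 1 ∨ x = b) → f (x, y) = f (x, y + 1) := by
    intro x y h1 h2 h3
    have h4 := h (x, y + 1, false) (by
      simp only [src, tgt, rect, Set.mem_ofPred_eq, Bool.false_eq_true, if_false]
      omega) (by
      simp only [lowFace, rect, Set.mem_ofPred_eq, Bool.false_eq_true, if_false]
      omega) (by
      simp only [src, rect, Set.mem_ofPred_eq]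
      omega)
    simpa [lowFace, src] using h4
  rintro ⟨x, y⟩ ⟨⟨h1, h2, h3, h4⟩, h5⟩
  simp only at h1 h2 h3 h4 h5
  rcases h5 with h5 | h5 | h5 | h5
  · subst h5
    exact (const_col (f := f) h3 fun y' k1 k2 => ver _ _ k1 (by omega) (Or.inl rfl)).symm
  · subst h5
    rw [← const_col (f := f) h3 fun y' k1 k2 => ver _ _ k1 (by omega) (Or.inr rfl)]
    exact (const_row (f := f) h1 fun x' k1 k2 => hor _ _ k1 (by omega) (Or.inl rfl)).symm
  · subst h5
    exact (const_row (f := f) h1 fun x' k1 k2 => hor _ _ k1 (by omega) (Or.inl rfl)).symm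
  · subst h5
    rw [← const_row (f := f) h1 fun x' k1 k2 => hor _ _ k1 (by omega) (Or.inr rfl)]
    exact (const_col (f := f) h3 fun y' k1 k2 => ver _ _ k1 (by omega) (Or.inl rfl)).symm

/-- Face sums of the indicator of an edge. -/
theorem edgeduality_fsum_one (e : Edge) (G : Vert) :
    fsum (one e) G = (if G = lowFace e then 1 else 0) + (if G = src e then 1 else 0) := by
  rw [← vsum_crossed]
  have h : (fun e' => one e (crossed e')) = one (uncross e) := by
    funext e'
    unfold one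
    have : crossed e' = e ↔ e' = uncross e := by
      constructor
      · intro h; rw [← h, uncross_crossed]
      · intro h; rw [h, crossed_uncross]
    simp only [this]
  rw [h, vsum_one, src_uncross, tgt_uncross]

/-- The sum of all face sums of an edge function with finite support vanishes. -/
theorem edgeduality_total (k : Edge → ZMod 2) (hk : (Function.support k).Finite) :
    ∑ᶠ G : Vert, fsum k G = 0 := by
  have hsupp : ∀ (m : Vert → Edge), Function.Injective m →
      (Function.support (fun G => k (m G))).Finite := by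
    intro m hm
    exact Set.Finite.preimage (f := m) (s := Function.support k) hm.injOn hk
  have i1 : Function.Injective (fun G : Vert => ((G.1, G.2, false) : Edge)) := by
    rintro ⟨x, y⟩ ⟨x', y'⟩ h
    simp only [Prod.mk.injEq, and_true] at h
    simp only [Prod.mk.injEq]
    omega
  have i2 : Function.Injective (fun G : Vert => ((G.1 + 1, G.2, true) : Edge)) := by
    rintro ⟨x, y⟩ ⟨x', y'⟩ h
    simp only [Prod.mk.injEq, and_true] at h
    simp only [Prod.mk.injEq]
    omega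
  have i3 : Function.Injective (fun G : Vert => ((G.1, G.2 + 1, false) : Edge)) := by
    rintro ⟨x, y⟩ ⟨x', y'⟩ h
    simp only [Prod.mk.injEq, and_true] at h
    simp only [Prod.mk.injEq]
    omega
  have i4 : Function.Injective (fun G : Vert => ((G.1, G.2, true) : Edge)) := by
    rintro ⟨x, y⟩ ⟨x', y'⟩ h
    simp only [Prod.mk.injEq, and_true] at h
    simp only [Prod.mk.injEq]
    omega
  have s1 := hsupp _ i1
  have s2 := hsupp _ i2
  have s3 := hsupp _ i3
  have s4 := hsupp _ i4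
  have e1 : ∑ᶠ G : Vert, k (G.1, G.2 + 1, false) = ∑ᶠ G : Vert, k (G.1, G.2, false) := by
    have := finsum_comp_equiv (Equiv.addRight ((0, 1) : Vert))
      (f := fun G : Vert => k (G.1, G.2, false))
    rw [← this]
    refine finsum_congr fun G => ?_
    simp
  have e2 : ∑ᶠ G : Vert, k (G.1 + 1, G.2, true) = ∑ᶠ G : Vert, k (G.1, G.2, true) := by
    have := finsum_comp_equiv (Equiv.addRight ((1, 0) : Vert))
      (f := fun G : Vert => k (G.1, G.2, true))
    rw [← this]
    refine finsum_congr fun G => ?_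
    simp
  have s12 : (Function.support (fun G : Vert => k (G.1, G.2, false) +
      k (G.1 + 1, G.2, true))).Finite :=
    (s1.union s2).subset (Function.support_add _ _)
  have s123 : (Function.support (fun G : Vert => k (G.1, G.2, false) +
      k (G.1 + 1, G.2, true) + k (G.1, G.2 + 1, false))).Finite :=
    (s12.union s3).subset (Function.support_add _ _)
  unfold fsum
  rw [finsum_add_distrib s123 s4, finsum_add_distrib s12 s3, finsum_add_distrib s1 s2, e1, e2]
  linear_combination z2_add_self (∑ᶠ G : Vert, k (G.1, G.2, false)) +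
    z2_add_self (∑ᶠ G : Vert, k (G.1, G.2, true))

/-- The main step of the converse direction. -/
theorem edgeduality_aux {ω : Config} {a b c d : ℤ} {e : Edge} (he : e ∈ redges a b c d)
    (hno : ¬ Conn (Function.update ω e false) (rect a b c d) (src e) (tgt e)) {G₀ G₁ : Vert}
    (hG : (G₀ = lowFace e ∧ G₁ = src e) ∨ (G₀ = src e ∧ G₁ = lowFace e))
    (h01 : ¬ Conn (dual (Function.update ω e true)) (rect (a - 1) b (c - 1) d) G₀ G₁)
    (hbd : ∀ v ∈ bd (a - 1) b (c - 1) d,
      ¬ Conn (dual (Function.update ω e true)) (rect (a - 1) b (c - 1) d) G₀ v) : False := by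
  classical
  obtain ⟨hx, hy⟩ := mem_redges.1 he
  set ω₀ := Function.update ω e false with hω₀
  set ω₁ := Function.update ω e true with hω₁
  set χ : Vert → ZMod 2 := fun v => if Conn ω₀ (rect a b c d) (src e) v then 1 else 0 with hχ
  set z : Edge → ZMod 2 := fun f =>
    if src f ∈ rect a b c d ∧ tgt f ∈ rect a b c d then χ (src f) + χ (tgt f) else 0 with hz
  have hze : z e = 1 := by
    simp only [hz, hχ]
    rw [if_pos ⟨hx, hy⟩, if_pos (Conn.refl hx), if_neg hno, add_zero]
  have hface : ∀ f : Edge, src f ∈ rect a b c d → tgt f ∈ rect a b c d →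
      lowFace f ∈ rect (a - 1) b (c - 1) d ∧ src f ∈ rect (a - 1) b (c - 1) d := by
    rintro ⟨x, y, t⟩ k1 k2
    cases t <;>
    · simp only [src, tgt, lowFace, rect, Set.mem_ofPred_eq, if_true, Bool.false_eq_true,
        if_false] at k1 k2 ⊢
      omega
  have hzclosed : ∀ f, z f ≠ 0 → (src f ∈ rect a b c d ∧ tgt f ∈ rect a b c d) ∧
      ω₀ f = false := by
    intro f hf
    simp only [hz] at hf
    split_ifs at hf with hin
    · refine ⟨hin, ?_⟩
      by_contra ho
      rw [Bool.not_eq_false] at ho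
      apply hf
      rw [z2_add_eq_zero]
      have : Conn ω₀ (rect a b c d) (src e) (src f) ↔ Conn ω₀ (rect a b c d) (src e) (tgt f) :=
        ⟨fun h => h.tail ⟨hin.1, hin.2, f, joins_src_tgt f, ho⟩,
          fun h => h.tail ⟨hin.2, hin.1, f, (joins_src_tgt f).symm, ho⟩⟩
      simp only [hχ, this]
    · exact absurd rfl hf
  set Q : Set Vert := {G | Conn (dual ω₁) (rect (a - 1) b (c - 1) d) G₀ G} with hQ
  have hG₀T : G₀ ∈ rect (a - 1) b (c - 1) d := by
    obtain ⟨k1, k2⟩ := hface e hx hy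
    rcases hG with ⟨h, _⟩ | ⟨h, _⟩
    · rw [h]; exact k1
    · rw [h]; exact k2
  have hG₀Q : G₀ ∈ Q := Conn.refl hG₀T
  have hG₁Q : G₁ ∉ Q := h01
  have hQin : ∀ G ∈ Q, G ∈ rect a (b - 1) c (d - 1) := by
    intro G hGQ
    have k1 : G ∈ rect (a - 1) b (c - 1) d := Conn.mem_right hGQ
    have k2 : ¬ (G.1 = a - 1 ∨ G.1 = b ∨ G.2 = c - 1 ∨ G.2 = d) := fun h => hbd G ⟨k1, h⟩ hGQ
    simp only [rect, Set.mem_ofPred_eq] at k1 ⊢
    omega
  -- closed edges different from `e` have both or no faces in `Q`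
  have hstep : ∀ f : Edge, f ≠ e → z f ≠ 0 → (lowFace f ∈ Q ↔ src f ∈ Q) := by
    intro f hfe hf
    obtain ⟨hin, hcl⟩ := hzclosed f hf
    obtain ⟨k1, k2⟩ := hface f hin.1 hin.2
    have k3 : ω₁ f = false := by
      rw [hω₀, Function.update_of_ne hfe] at hcl
      rw [hω₁, Function.update_of_ne hfe]
      exact hcl
    have k4 := dual_step k3 k1 k2
    exact ⟨fun h => Conn.tail h k4, fun h => Conn.tail h k4.symm⟩
  set k : Edge → ZMod 2 := fun f =>
    if f ≠ e ∧ (lowFace f ∈ Q ∨ src f ∈ Q) then z f else 0 with hk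
  have hkfin : (Function.support k).Finite := by
    refine (redges a b c d).finite_toSet.subset ?_
    intro f hf
    rw [Function.mem_support] at hf
    simp only [hk] at hf
    split_ifs at hf with h
    · exact mem_redges.2 (hzclosed f hf).1
    · exact absurd rfl hf
  -- the value near a face
  have hkin : ∀ f : Edge, (lowFace f ∈ Q ∨ src f ∈ Q) → k f = z f + one e f := by
    intro f hf
    by_cases hfe : f = e
    · have h1 : k e = 0 := by
        simp only [hk]
        rw [if_neg (by tauto)]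
      have h2 : one e e = 1 := by simp [one]
      rw [hfe, h1, hze, h2, z2_add_self]
    · simp only [hk, one]
      rw [if_pos ⟨hfe, hf⟩, if_neg hfe, add_zero]
  have hkout : ∀ f : Edge, (lowFace f ∉ Q ∨ src f ∉ Q) → k f = 0 := by
    intro f hf
    by_contra hne
    simp only [hk] at hne
    split_ifs at hne with h
    · have := hstep f h.1 hne
      tauto
    · exact hne rfl
  have hfs : ∀ G : Vert, fsum k G = if G = G₀ then 1 else 0 := by
    intro G
    have s1 : G = src (G.1, G.2, false) := rfl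
    have s2 : G = lowFace (G.1 + 1, G.2, true) := by simp [lowFace]
    have s3 : G = lowFace (G.1, G.2 + 1, false) := by simp [lowFace]
    have s4 : G = src (G.1, G.2, true) := rfl
    by_cases hGQ : G ∈ Q
    · have h1 : fsum k G = fsum z G + fsum (one e) G := by
        rw [← fsum_add]
        unfold fsum
        rw [hkin _ (Or.inr (s1 ▸ hGQ)), hkin _ (Or.inl (s2 ▸ hGQ)), hkin _ (Or.inl (s3 ▸ hGQ)),
          hkin _ (Or.inr (s4 ▸ hGQ))]
      have h2 : fsum z G = 0 := by
        have h3 := hQin G hGQ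
        simp only [rect, Set.mem_ofPred_eq] at h3
        have z1 : z (G.1, G.2, false) = χ (G.1, G.2) + χ (G.1 + 1, G.2) := by
          simp only [hz]
          rw [if_pos]
          · rfl
          · simp only [src, tgt, rect, Set.mem_ofPred_eq, Bool.false_eq_true, if_false]
            omega
        have z2 : z (G.1 + 1, G.2, true) = χ (G.1 + 1, G.2) + χ (G.1 + 1, G.2 + 1) := by
          simp only [hz]
          rw [if_pos]
          · rfl
          · simp only [src, tgt, rect, Set.mem_ofPred_eq, if_true]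
            omega
        have z3 : z (G.1, G.2 + 1, false) = χ (G.1, G.2 + 1) + χ (G.1 + 1, G.2 + 1) := by
          simp only [hz]
          rw [if_pos]
          · rfl
          · simp only [src, tgt, rect, Set.mem_ofPred_eq, Bool.false_eq_true, if_false]
            omega
        have z4 : z (G.1, G.2, true) = χ (G.1, G.2) + χ (G.1, G.2 + 1) := by
          simp only [hz]
          rw [if_pos]
          · rfl
          · simp only [src, tgt, rect, Set.mem_ofPred_eq, if_true]
            omega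
        unfold fsum
        rw [z1, z2, z3, z4]
        linear_combination z2_add_self (χ (G.1, G.2)) + z2_add_self (χ (G.1 + 1, G.2)) +
          z2_add_self (χ (G.1, G.2 + 1)) + z2_add_self (χ (G.1 + 1, G.2 + 1))
      rw [h1, h2, zero_add, edgeduality_fsum_one]
      have h4 : G ≠ G₁ := fun h => hG₁Q (h ▸ hGQ)
      rcases hG with ⟨h5, h6⟩ | ⟨h5, h6⟩
      · rw [← h5, ← h6, if_neg h4, add_zero]
      · rw [← h5, ← h6, if_neg h4, zero_add]
    · have h1 : fsum k G = 0 := by
        unfold fsum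
        rw [hkout _ (Or.inr (s1 ▸ hGQ)), hkout _ (Or.inl (s2 ▸ hGQ)), hkout _ (Or.inl (s3 ▸ hGQ)),
          hkout _ (Or.inr (s4 ▸ hGQ))]
        simp
      have h2 : G ≠ G₀ := by
        intro h
        rw [h] at hGQ
        exact hGQ hG₀Q
      rw [h1, if_neg h2]
  have htot := edgeduality_total k hkfin
  rw [finsum_congr hfs, finsum_eq_single _ G₀ (fun G hG' => if_neg hG'), if_pos rfl] at htot
  exact one_ne_zero htot

/-- For an edge `e` of a rectangle `D`, exactly one of the following holds: the endpoints of `e` are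
joined by an open path in `D` off `e`; the faces next to `e` are joined by a closed dual path off the
dual edge of `e`, where all faces outside `D` are identified. -/
theorem edge_dual {ω : Config} {a b c d : ℤ} {e : Edge} (he : e ∈ redges a b c d) :
    Conn (Function.update ω e false) (rect a b c d) (src e) (tgt e) ↔
      ¬ WConn (dual (Function.update ω e true)) (rect (a - 1) b (c - 1) d)
        (bd (a - 1) b (c - 1) d) (lowFace e) (src e) := by
  constructor
  · intro h
    obtain ⟨hx, hy⟩ := mem_redges.1 he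
    have hab : a ≤ b := by
      simp only [rect, Set.mem_ofPred_eq] at hx
      omega
    have hcd : c ≤ d := by
      simp only [rect, Set.mem_ofPred_eq] at hx
      omega
    obtain ⟨z, hz1, hz2⟩ := h.chain
    have hvs : ∀ V, vsum (fun f => z f + one e f) V = 0 := by
      intro V
      rw [vsum_add, hz2, vsum_one, z2_add_self]
    obtain ⟨W, hW⟩ := integRect (a := a - 1) (b := b) (c := c - 1) (d := d)
      (fun e' => z (crossed e') + one e (crossed e')) (by
        intro F _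
        have h1 := hvs (F.1 + 1, F.2 + 1)
        simp only [vsum] at h1
        simp only [fsum, crossed, if_true, Bool.false_eq_true, if_false]
        rw [show F.1 + 1 - 1 = F.1 by ring, show F.2 + 1 - 1 = F.2 by ring] at h1
        linear_combination h1)
    have hW' : ∀ f : Edge, lowFace f ∈ rect (a - 1) b (c - 1) d →
        src f ∈ rect (a - 1) b (c - 1) d → z f + one e f = W (lowFace f) + W (src f) := by
      intro f k1 k2
      have := hW (uncross f) (by rwa [src_uncross]) (by rwa [tgt_uncross])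
      rwa [crossed_uncross, src_uncross, tgt_uncross] at this
    have hring := edgeduality_ring (f := W) hab hcd (by
      intro g hg k1 k2
      have k3 := hW' g k1 k2
      have k4 : z g = 0 := by
        by_contra hne
        exact hg (hz1 g hne).2
      have k5 : one e g = 0 := by
        unfold one
        rw [if_neg]
        rintro rfl
        exact hg ⟨hx, hy⟩
      rw [k4, k5, add_zero] at k3
      exact z2_add_eq_zero.1 k3.symm)
    have hconn : ∀ u v, Conn (dual (Function.update ω e true)) (rect (a - 1) b (c - 1) d) u v →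
        W u = W v := by
      intro u v huv
      refine huv.const fun e' k1 k2 k3 => ?_
      have k4 := hW e' k1 k2
      have k5 : Function.update ω e true (crossed e') = false := by
        simpa [dual] using k3
      have k6 : crossed e' ≠ e := by
        intro heq
        rw [heq, Function.update_self] at k5
        exact absurd k5 (by simp)
      have k7 : z (crossed e') = 0 := by
        by_contra hne
        have k8 := (hz1 _ hne).1
        rw [Function.update_of_ne k6] at k5 k8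
        rw [k5] at k8
        exact absurd k8 (by simp)
      have k8 : one e (crossed e') = 0 := by
        unfold one
        rw [if_neg k6]
      rw [k7, k8, add_zero] at k4
      exact z2_add_eq_zero.1 k4.symm
    have hface : lowFace e ∈ rect (a - 1) b (c - 1) d ∧ src e ∈ rect (a - 1) b (c - 1) d := by
      obtain ⟨x, y, t⟩ := e
      cases t <;>
      · simp only [src, tgt, lowFace, rect, Set.mem_ofPred_eq, if_true, Bool.false_eq_true,
          if_false] at hx hy ⊢
        omega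
    have hne : W (lowFace e) ≠ W (src e) := by
      have k1 := hW' e hface.1 hface.2
      have k2 : z e = 0 := by
        by_contra hne
        have := (hz1 e hne).1
        rw [Function.update_self] at this
        exact absurd this (by simp)
      have k3 : one e e = 1 := by simp [one]
      rw [k2, k3, zero_add] at k1
      exact z2_add_eq_one.1 k1.symm
    rintro (h1 | ⟨⟨u, hu, h1⟩, ⟨v, hv, h2⟩⟩)
    · exact hne (hconn _ _ h1)
    · exact hne ((hconn _ _ h1).trans ((hring u hu).trans ((hring v hv).symm.trans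
        (hconn _ _ h2).symm)))
  · intro h
    by_contra hno
    apply h
    by_contra hW
    unfold WConn at hW
    push Not at hW
    obtain ⟨h1, h2⟩ := hW
    by_cases h3 : ∃ v ∈ bd (a - 1) b (c - 1) d,
        Conn (dual (Function.update ω e true)) (rect (a - 1) b (c - 1) d) (lowFace e) v
    · exact edgeduality_aux he hno (Or.inr ⟨rfl, rfl⟩) (fun h4 => h1 h4.symm) (h2 h3)
    · push Not at h3
      exact edgeduality_aux he hno (Or.inl ⟨rfl, rfl⟩) h1 h3

end Pool.Agent.H29.Kap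

end

section

/-! # Edges which matter outside `D` but not inside `D` have two arms in `D` -/

set_option autoImplicit false

namespace Pool.Agent.H29.Kap

open Pool.Agent.H89.Perc

/-- A horizontal line of open edges. -/
lemma pivot_line_x {ω : Config} {S : Set Vert} {x₁ x₂ y : ℤ} (hx : x₁ ≤ x₂)
    (hS : ∀ x, x₁ ≤ x → x ≤ x₂ → ((x, y) : Vert) ∈ S)
    (ho : ∀ x, x₁ ≤ x → x < x₂ → ω (x, y, false) = true) :
    Conn ω S (x₁, y) (x₂, y) := by
  have key : ∀ n : ℕ, x₁ + n ≤ x₂ → Conn ω S (x₁, y) (x₁ + n, y) := by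
    intro n
    induction n with
    | zero =>
      intro _
      simpa using Conn.refl (ω := ω) (hS x₁ le_rfl hx)
    | succ n ih =>
      intro hn
      push_cast at hn
      refine (ih (by omega)).tail ⟨hS _ (by omega) (by omega), hS _ (by push_cast; omega)
        (by push_cast; omega), (x₁ + n, y, false), Or.inl ⟨rfl, ?_⟩, ho _ (by omega) (by omega)⟩
      simp only [tgt, Bool.false_eq_true, if_false, Prod.mk.injEq, and_true]
      push_cast
      ring
  have h := key (x₂ - x₁).toNat (by omega)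
  have e : x₁ + ((x₂ - x₁).toNat : ℤ) = x₂ := by omega
  rwa [e] at h

/-- A vertical line of open edges. -/
lemma pivot_line_y {ω : Config} {S : Set Vert} {x y₁ y₂ : ℤ} (hy : y₁ ≤ y₂)
    (hS : ∀ y, y₁ ≤ y → y ≤ y₂ → ((x, y) : Vert) ∈ S)
    (ho : ∀ y, y₁ ≤ y → y < y₂ → ω (x, y, true) = true) :
    Conn ω S (x, y₁) (x, y₂) := by
  have key : ∀ n : ℕ, y₁ + n ≤ y₂ → Conn ω S (x, y₁) (x, y₁ + n) := by
    intro n
    induction n with
    | zero =>
      intro _
      simpa using Conn.refl (ω := ω) (hS y₁ le_rfl hy)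
    | succ n ih =>
      intro hn
      push_cast at hn
      refine (ih (by omega)).tail ⟨hS _ (by omega) (by omega), hS _ (by push_cast; omega)
        (by push_cast; omega), (x, y₁ + n, true), Or.inl ⟨rfl, ?_⟩, ho _ (by omega) (by omega)⟩
      simp only [tgt, if_true, Prod.mk.injEq, true_and]
      push_cast
      ring
  have h := key (y₂ - y₁).toNat (by omega)
  have e : y₁ + ((y₂ - y₁).toNat : ℤ) = y₂ := by omega
  rwa [e] at h

/-- If the ring edges are open then every boundary vertex is joined to the corner `(b, d)`. -/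
lemma pivot_ring {ω : Config} {a b c d : ℤ} (hab : a ≤ b) (hcd : c ≤ d)
    (h1 : ∀ x, a ≤ x → x < b → ω (x, c, false) = true)
    (h2 : ∀ x, a ≤ x → x < b → ω (x, d, false) = true)
    (h3 : ∀ y, c ≤ y → y < d → ω (a, y, true) = true)
    (h4 : ∀ y, c ≤ y → y < d → ω (b, y, true) = true) {u : Vert} (hu : u ∈ bd a b c d) :
    Conn ω (rect a b c d) u (b, d) := by
  obtain ⟨x, y⟩ := u
  obtain ⟨⟨k1, k2, k3, k4⟩, k5⟩ := hu
  simp only at k1 k2 k3 k4 k5
  have right : ∀ y, c ≤ y → y ≤ d → Conn ω (rect a b c d) (b, y) (b, d) := by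
    intro y hy1 hy2
    exact pivot_line_y hy2 (fun z l1 l2 => ⟨hab, le_rfl, by simp only; omega, l2⟩)
      (fun z l1 l2 => h4 z (by omega) l2)
  have top : ∀ x, a ≤ x → x ≤ b → Conn ω (rect a b c d) (x, d) (b, d) := by
    intro x hx1 hx2
    exact pivot_line_x hx2 (fun z l1 l2 => ⟨by simp only; omega, l2, hcd, le_rfl⟩)
      (fun z l1 l2 => h2 z (by omega) l2)
  rcases k5 with k5 | k5 | k5 | k5
  · subst k5
    have l := pivot_line_y (ω := ω) (S := rect x b c d) (x := x) k4
      (fun z l1 l2 => ⟨le_rfl, hab, by simp only; omega, l2⟩)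
      (fun z l1 l2 => h3 z (by omega) l2)
    exact l.trans (top _ le_rfl hab)
  · subst k5
    exact right y k3 k4
  · subst k5
    have l := pivot_line_x (ω := ω) (S := rect a b y d) (y := y) k2
      (fun z l1 l2 => ⟨by simp only; omega, l2, le_rfl, hcd⟩)
      (fun z l1 l2 => h1 z (by omega) l2)
    exact l.trans (right _ le_rfl hcd)
  · subst k5
    exact top x k1 k2

/-- A path which leaves the cluster of `x` in `D` gives an arm of `x` to the boundary of `D`. -/
lemma pivot_arm {ω : Config} {a b c d : ℤ} {U : Set Vert} {x y : Vert}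
    (hx : x ∈ rect a b c d) (h1 : Conn ω U x y) (h2 : ¬ Conn ω (rect a b c d) x y) :
    ∃ w ∈ bd a b c d, Conn ω (rect a b c d) x w := by
  obtain ⟨w, w', h3, h4, h5, -⟩ := h1.exists_exit (T := {v | Conn ω (rect a b c d) x v})
    (Conn.refl hx) h2
  have h6 : Conn ω (rect a b c d) x w := h3.mem_right.2
  have h7 : w' ∉ rect a b c d := fun h => h5 (h6.tail ⟨h6.mem_right, h, h4.2.2⟩)
  refine ⟨w, ⟨h6.mem_right, ?_⟩, h6⟩
  have k1 := h6.mem_right
  have k2 := h4.fst_le
  have k3 := h4.snd_le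
  simp only [rect, Set.mem_ofPred_eq] at h7 k1
  omega

/-- The faces next to an edge of `D`. -/
lemma pivot_faces {a b c d : ℤ} {e : Edge} (he : e ∈ redges a b c d) :
    src e ∈ rect (a - 1) b (c - 1) d ∧ lowFace e ∈ rect (a - 1) b (c - 1) d := by
  rw [mem_redges] at he
  obtain ⟨x, y, t⟩ := e
  cases t <;>
  · simp only [src, tgt, lowFace, rect, Set.mem_ofPred_eq, if_true, Bool.false_eq_true,
      if_false] at he ⊢
    omega

/-- An edge with two adjacent faces in the larger rectangle of faces, one of them inner, is an edge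
of `D`. -/
lemma pivot_redges {a b c d : ℤ} {e : Edge} (h1 : src e ∈ rect (a - 1) b (c - 1) d)
    (h2 : lowFace e ∈ rect (a - 1) b (c - 1) d)
    (h3 : src e ∉ bd (a - 1) b (c - 1) d ∨ lowFace e ∉ bd (a - 1) b (c - 1) d) :
    e ∈ redges a b c d := by
  rw [mem_redges]
  obtain ⟨x, y, t⟩ := e
  cases t <;>
  · simp only [src, tgt, lowFace, rect, bd, Set.mem_ofPred_eq, if_true, Bool.false_eq_true,
      if_false] at h1 h2 h3 ⊢
    omega

/-- If the endpoints of an edge `e` of the rectangle `D` are joined by an open path off `e` in a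
larger set `U`, but not in `D`, then `e` has an open arm and a closed dual arm to the outside of
`D`. -/
theorem inR_of_pivot {ω : Config} {a b c d : ℤ} {U : Set Vert} {e : Edge}
    (he : e ∈ redges a b c d) (hU : rect a b c d ⊆ U)
    (h1 : Conn (Function.update ω e false) U (src e) (tgt e))
    (h2 : ¬ Conn (Function.update ω e false) (rect a b c d) (src e) (tgt e)) :
    InR ω a b c d e := by
  classical
  have hD := mem_redges.1 he
  obtain ⟨w, hw, hxw⟩ := pivot_arm hD.1 h1 h2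
  obtain ⟨w', hw', hyw'⟩ := pivot_arm hD.2 h1.symm (fun h => h2 h.symm)
  refine ⟨he, ⟨src e, Or.inl rfl, w, hw, hxw⟩, ?_⟩
  by_contra hC
  have hCs : ∀ G ∈ bd (a - 1) b (c - 1) d,
      ¬ Conn (dual (Function.update ω e true)) (rect (a - 1) b (c - 1) d) (src e) G :=
    fun G hG h => hC ⟨src e, Or.inl rfl, G, hG, h⟩
  have hCl : ∀ G ∈ bd (a - 1) b (c - 1) d,
      ¬ Conn (dual (Function.update ω e true)) (rect (a - 1) b (c - 1) d) (lowFace e) G :=
    fun G hG h => hC ⟨lowFace e, Or.inr rfl, G, hG, h⟩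
  have hdual : Conn (dual (Function.update ω e true)) (rect (a - 1) b (c - 1) d)
      (lowFace e) (src e) := by
    by_contra hcon
    apply h2
    rw [edge_dual he]
    rintro (h | ⟨⟨G, hG, h⟩, -⟩)
    · exact hcon h
    · exact hCl G hG h
  obtain ⟨hf1, hf2⟩ := pivot_faces he
  have hs : src e ∉ bd (a - 1) b (c - 1) d := fun h => hCs _ h (Conn.refl hf1)
  have hl : lowFace e ∉ bd (a - 1) b (c - 1) d := fun h => hCl _ h (Conn.refl hf2)
  -- open the edges next to the ring
  set ω' : Config := fun f =>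
    if src f ∈ bd (a - 1) b (c - 1) d ∨ lowFace f ∈ bd (a - 1) b (c - 1) d then true else ω f
    with hω'
  have hle : ∀ f, Function.update ω e false f = true → Function.update ω' e false f = true := by
    intro f hf
    by_cases hfe : f = e
    · subst hfe
      simp at hf
    · rw [Function.update_of_ne hfe] at hf ⊢
      simp only [hω']
      split_ifs
      · rfl
      · exact hf
  have hring : ∀ f : Edge, (src f ∈ bd (a - 1) b (c - 1) d ∨ lowFace f ∈ bd (a - 1) b (c - 1) d) →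
      Function.update ω' e false f = true := by
    intro f hf
    have hfe : f ≠ e := by
      rintro rfl
      rcases hf with hf | hf
      · exact hs hf
      · exact hl hf
    rw [Function.update_of_ne hfe]
    simp only [hω', if_pos hf]
  have hab : a ≤ b ∧ c ≤ d := by
    obtain ⟨⟨k1, k2, k3, k4⟩, -⟩ := hD
    exact ⟨k1.trans k2, k3.trans k4⟩
  have hr1 : ∀ x, a ≤ x → x < b → Function.update ω' e false (x, c, false) = true := by
    intro x k1 k2
    refine hring _ (Or.inr ?_)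
    simp only [lowFace, Bool.false_eq_true, if_false, bd, rect, Set.mem_ofPred_eq, true_or,
      or_true, and_true]
    omega
  have hr2 : ∀ x, a ≤ x → x < b → Function.update ω' e false (x, d, false) = true := by
    intro x k1 k2
    refine hring _ (Or.inl ?_)
    simp only [src, bd, rect, Set.mem_ofPred_eq, true_or, or_true, and_true]
    omega
  have hr3 : ∀ y, c ≤ y → y < d → Function.update ω' e false (a, y, true) = true := by
    intro y k1 k2
    refine hring _ (Or.inr ?_)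
    simp only [lowFace, if_true, bd, rect, Set.mem_ofPred_eq, true_or, or_true, and_true]
    omega
  have hr4 : ∀ y, c ≤ y → y < d → Function.update ω' e false (b, y, true) = true := by
    intro y k1 k2
    refine hring _ (Or.inl ?_)
    simp only [src, bd, rect, Set.mem_ofPred_eq, true_or, or_true, and_true]
    omega
  have hc1 := pivot_ring (ω := Function.update ω' e false) hab.1 hab.2 hr1 hr2 hr3 hr4 hw
  have hc2 := pivot_ring (ω := Function.update ω' e false) hab.1 hab.2 hr1 hr2 hr3 hr4 hw'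
  have hxy : Conn (Function.update ω' e false) (rect a b c d) (src e) (tgt e) :=
    (((hxw.mono subset_rfl hle).trans hc1).trans hc2.symm).trans (hyw'.mono subset_rfl hle).symm
  rw [edge_dual he] at hxy
  apply hxy
  left
  refine hdual.induction_right
    (P := fun z => Conn (dual (Function.update ω' e true)) (rect (a - 1) b (c - 1) d)
      (lowFace e) z) (Conn.refl hf2) ?_
  intro z z' hz hs' ih
  have hz' := hz.tail hs'
  have kz : z ∉ bd (a - 1) b (c - 1) d := fun h => hCl z h hz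
  have kz' : z' ∉ bd (a - 1) b (c - 1) d := fun h => hCl z' h hz'
  refine ih.tail ?_
  obtain ⟨m1, m2, f, m3, m4⟩ := hs'
  refine ⟨m1, m2, f, m3, ?_⟩
  have m5 : src f ∉ bd (a - 1) b (c - 1) d ∧ tgt f ∉ bd (a - 1) b (c - 1) d := by
    rcases m3 with ⟨l1, l2⟩ | ⟨l1, l2⟩
    · rw [← l1, ← l2]; exact ⟨kz, kz'⟩
    · rw [← l1, ← l2]; exact ⟨kz', kz⟩
  have m6 : Function.update ω' e true (crossed f) = Function.update ω e true (crossed f) := by
    by_cases hfe : crossed f = e
    · rw [hfe]; simp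
    · rw [Function.update_of_ne hfe, Function.update_of_ne hfe]
      simp only [hω']
      rw [if_neg]
      rw [← src_eq_lowFace_crossed, ← tgt_eq_src_crossed]
      tauto
  simp only [dual] at m4 ⊢
  rw [m6]
  exact m4

lemma pivot_congr {ω ω' : Config} {a b c d : ℤ} (h : ∀ e ∈ redges a b c d, ω e = ω' e)
    (e : Edge) (hR : InR ω a b c d e) : InR ω' a b c d e := by
  obtain ⟨he, ⟨u, hu, w, hw, huw⟩, F, hF, G, hG, hFG⟩ := hR
  have hup : ∀ v : Bool, ∀ f ∈ redges a b c d,
      Function.update ω e v f = Function.update ω' e v f := by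
    intro v f hf
    by_cases hfe : f = e
    · subst hfe; simp
    · rw [Function.update_of_ne hfe, Function.update_of_ne hfe, h f hf]
  refine ⟨he, ⟨u, hu, w, hw, huw.congr fun f k1 k2 => hup false f (mem_redges.2 ⟨k1, k2⟩)⟩, ?_⟩
  have hstep : ∀ z z' : Vert, (z ∉ bd (a - 1) b (c - 1) d ∨ z' ∉ bd (a - 1) b (c - 1) d) →
      Step (dual (Function.update ω e true)) (rect (a - 1) b (c - 1) d) z z' →
      Step (dual (Function.update ω' e true)) (rect (a - 1) b (c - 1) d) z z' := by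
    rintro z z' hz ⟨m1, m2, f, m3, m4⟩
    refine ⟨m1, m2, f, m3, ?_⟩
    have m5 : crossed f ∈ redges a b c d := by
      apply pivot_redges
      · rw [← tgt_eq_src_crossed]
        rcases m3 with ⟨l1, l2⟩ | ⟨l1, l2⟩
        · rw [← l2]; exact m2
        · rw [← l1]; exact m1
      · rw [← src_eq_lowFace_crossed]
        rcases m3 with ⟨l1, l2⟩ | ⟨l1, l2⟩
        · rw [← l1]; exact m1
        · rw [← l2]; exact m2
      · rw [← src_eq_lowFace_crossed, ← tgt_eq_src_crossed]
        rcases m3 with ⟨l1, l2⟩ | ⟨l1, l2⟩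
        · rw [← l1, ← l2]; exact hz.symm
        · rw [← l1, ← l2]; exact hz
    simp only [dual] at m4 ⊢
    rw [← hup true _ m5]
    exact m4
  by_cases hFb : F ∈ bd (a - 1) b (c - 1) d
  · exact ⟨F, hF, F, hFb, Conn.refl hFG.mem_left⟩
  · obtain ⟨z, z', k1, k2, k3, -⟩ := hFG.exists_hit hFb hG
    refine ⟨F, hF, z', k3, ?_⟩
    have k4 : Conn (dual (Function.update ω' e true)) (rect (a - 1) b (c - 1) d) F z := by
      refine k1.induction_right
        (P := fun z => Conn (dual (Function.update ω' e true)) (rect (a - 1) b (c - 1) d) F z)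
        (Conn.refl hFG.mem_left) ?_
      intro x y hx hxy ih
      refine ih.tail (hstep x y (Or.inl hxy.1.2) ⟨hxy.1.1, hxy.2.1.1, hxy.2.2⟩)
    exact k4.tail (hstep z z' (Or.inl k1.mem_right.2) k2)

/-- `InR` depends only on the edges of the rectangle. -/
theorem inR_congr {ω ω' : Config} {a b c d : ℤ} (h : ∀ e ∈ redges a b c d, ω e = ω' e)
    (e : Edge) : InR ω a b c d e ↔ InR ω' a b c d e :=
  ⟨pivot_congr h e, pivot_congr (fun f hf => (h f hf).symm) e⟩

/-- `InR` of `e` does not depend on the state of `e`. -/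
theorem inR_update_self {ω : Config} {a b c d : ℤ} (e : Edge) (v : Bool) :
    InR (Function.update ω e v) a b c d e ↔ InR ω a b c d e := by
  unfold InR OArm CArm
  rw [Function.update_idem, Function.update_idem]

end Pool.Agent.H29.Kap

end

section

/-! # A sum over tuples of edges, exponent `2/3` -/

set_option autoImplicit false

namespace Pool.Agent.H29.Kap

open Pool.Agent.H89.Perc

/-- the weight -/
noncomputable def tuplesum3_g (M n : ℕ) : ℝ := ((M : ℝ) / max (n : ℝ) 1) ^ (2 / 3 : ℝ)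

lemma tuplesum3_g_nonneg (M n : ℕ) : 0 ≤ tuplesum3_g M n := by
  unfold tuplesum3_g; positivity

lemma tuplesum3_g_anti (M : ℕ) {m n : ℕ} (h : m ≤ n) : tuplesum3_g M n ≤ tuplesum3_g M m := by
  unfold tuplesum3_g
  refine Real.rpow_le_rpow (by positivity) ?_ (by norm_num)
  refine div_le_div_of_nonneg_left (by positivity) (by positivity) ?_
  exact max_le_max (by exact_mod_cast h) le_rfl

lemma tuplesum3_pow (n : ℕ) :
    ∑ k ∈ Finset.range n, ((k : ℝ) + 1) ^ (-(2 / 3) : ℝ) ≤ 3 * (n : ℝ) ^ (1 / 3 : ℝ) := by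
  induction n with
  | zero => simp
  | succ n ih =>
    rw [Finset.sum_range_succ]
    have hn : (0 : ℝ) ≤ n := Nat.cast_nonneg n
    have hn1 : (0 : ℝ) < (n : ℝ) + 1 := by positivity
    set u : ℝ := ((n : ℝ) + 1) ^ (1 / 3 : ℝ) with hu
    set v : ℝ := (n : ℝ) ^ (1 / 3 : ℝ) with hv
    have hu0 : 0 < u := Real.rpow_pos_of_pos hn1 _
    have hv0 : 0 ≤ v := Real.rpow_nonneg hn _
    have hu3 : u ^ 3 = (n : ℝ) + 1 := by
      rw [hu, ← Real.rpow_natCast, ← Real.rpow_mul hn1.le]
      norm_num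
    have hv3 : v ^ 3 = (n : ℝ) := by
      rw [hv, ← Real.rpow_natCast, ← Real.rpow_mul hn]
      norm_num
    have huv : v ≤ u := Real.rpow_le_rpow hn (by linarith) (by norm_num)
    have hw : ((n : ℝ) + 1) ^ (-(2 / 3) : ℝ) = 1 / u ^ 2 := by
      rw [hu, ← Real.rpow_natCast, ← Real.rpow_mul hn1.le, Real.rpow_neg hn1.le]
      norm_num
    rw [hw]
    push_cast
    have h1 : 1 / u ^ 2 ≤ 3 * (u - v) := by
      rw [div_le_iff₀ (by positivity)]
      have h2 : (u - v) * (u ^ 2 + u * v + v ^ 2) = 1 := by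
        have : (u - v) * (u ^ 2 + u * v + v ^ 2) = u ^ 3 - v ^ 3 := by ring
        rw [this, hu3, hv3]; ring
      have h3 : u ^ 2 + u * v + v ^ 2 ≤ 3 * u ^ 2 := by nlinarith
      have h4 : 0 ≤ u - v := by linarith
      nlinarith [mul_le_mul_of_nonneg_left h3 h4]
    linarith

lemma tuplesum3_sum {M : ℕ} (hM : 1 ≤ M) :
    ∑ n ∈ Finset.range (M + 1), tuplesum3_g M n ≤ 4 * (M : ℝ) := by
  have hM' : (1 : ℝ) ≤ M := by exact_mod_cast hM
  have hM0 : (0 : ℝ) < M := by linarith
  rw [Finset.sum_range_succ']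
  have h0 : tuplesum3_g M 0 = (M : ℝ) ^ (2 / 3 : ℝ) := by
    unfold tuplesum3_g; norm_num
  have h1 : ∀ k ∈ Finset.range M, tuplesum3_g M (k + 1) =
      (M : ℝ) ^ (2 / 3 : ℝ) * ((k : ℝ) + 1) ^ (-(2 / 3) : ℝ) := by
    intro k _
    have hk : (0 : ℝ) ≤ k := Nat.cast_nonneg k
    unfold tuplesum3_g
    push_cast
    rw [max_eq_left (by linarith), Real.div_rpow hM0.le (by linarith), Real.rpow_neg (by linarith),
      div_eq_mul_inv]
  rw [Finset.sum_congr rfl h1, ← Finset.mul_sum, h0]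
  have h2 := tuplesum3_pow M
  have hp : (0 : ℝ) < (M : ℝ) ^ (2 / 3 : ℝ) := Real.rpow_pos_of_pos hM0 _
  have h3 : (M : ℝ) ^ (2 / 3 : ℝ) * (M : ℝ) ^ (1 / 3 : ℝ) = M := by
    rw [← Real.rpow_add hM0]
    norm_num
  have h4 : (M : ℝ) ^ (2 / 3 : ℝ) ≤ M := by
    calc (M : ℝ) ^ (2 / 3 : ℝ) ≤ (M : ℝ) ^ (1 : ℝ) :=
          Real.rpow_le_rpow_of_exponent_le hM' (by norm_num)
      _ = M := Real.rpow_one _
  have h5 := mul_le_mul_of_nonneg_left h2 hp.le
  have h6 : (M : ℝ) ^ (2 / 3 : ℝ) * (3 * (M : ℝ) ^ (1 / 3 : ℝ)) = 3 * M := by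
    linarith
  linarith

lemma tuplesum3_one {M : ℕ} (hM : 1 ≤ M) {a b c d : ℤ} (hab : b - a ≤ M) (hcd : d - c ≤ M) :
    ((redges a b c d).card : ℝ) ≤ 128 * (M : ℝ) ^ 2 := by
  have h1 := tupsum_redges_le (a := a) (b := b) (c := c) (d := d) (fun _ _ => 1)
    (fun _ _ => zero_le_one)
  simp only [Finset.sum_const, nsmul_eq_mul, mul_one] at h1
  have h2 := tupsum_card_Icc a b hM hab
  have h3 := tupsum_card_Icc c d hM hcd
  have h5 : ((Finset.Icc a b).card : ℝ) * ((Finset.Icc c d).card : ℝ) ≤ 2 * M * (2 * M) :=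
    mul_le_mul h2 h3 (by positivity) (by positivity)
  have h6 : (0 : ℝ) ≤ (M : ℝ) ^ 2 := by positivity
  nlinarith

lemma tuplesum3_two {M : ℕ} (hM : 1 ≤ M) {a b c d : ℤ} (hab : b - a ≤ M) (hcd : d - c ≤ M) :
    ∑ e ∈ redges a b c d, tuplesum3_g M (dbd a b c d e) ≤ 128 * (M : ℝ) ^ 2 := by
  have hM' : (0 : ℝ) ≤ M := Nat.cast_nonneg M
  have hH := tuplesum3_sum hM
  have hg0 := tuplesum3_g_nonneg M
  have h1 : ∀ e ∈ redges a b c d, tuplesum3_g M (dbd a b c d e) ≤
      (fun x y : ℤ => (tuplesum3_g M (x - a).toNat + tuplesum3_g M (b - x).toNat +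
        (tuplesum3_g M (y - c).toNat + tuplesum3_g M (d - y).toNat))) e.1 e.2.1 := by
    intro e _
    show tuplesum3_g M (dbd a b c d e) ≤ (tuplesum3_g M (e.1 - a).toNat +
      tuplesum3_g M (b - e.1).toNat +
        (tuplesum3_g M (e.2.1 - c).toNat + tuplesum3_g M (d - e.2.1).toNat))
    have n1 := hg0 (e.1 - a).toNat
    have n2 := hg0 (b - e.1).toNat
    have n3 := hg0 (e.2.1 - c).toNat
    have n4 := hg0 (d - e.2.1).toNat
    have hor : dbd a b c d e = (e.1 - a).toNat ∨ dbd a b c d e = (b - e.1).toNat ∨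
        dbd a b c d e = (e.2.1 - c).toNat ∨ dbd a b c d e = (d - e.2.1).toNat := by
      unfold dbd
      omega
    rcases hor with h | h | h | h <;> rw [h] <;> linarith
  refine (Finset.sum_le_sum h1).trans ?_
  refine (tupsum_redges_le (fun x y : ℤ => (tuplesum3_g M (x - a).toNat +
    tuplesum3_g M (b - x).toNat + (tuplesum3_g M (y - c).toNat +
      tuplesum3_g M (d - y).toNat))) ?_).trans ?_
  · intro x y
    have n1 := hg0 (x - a).toNat
    have n2 := hg0 (b - x).toNat
    have n3 := hg0 (y - c).toNat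
    have n4 := hg0 (d - y).toNat
    positivity
  · simp only [Finset.sum_add_distrib, Finset.sum_const, nsmul_eq_mul]
    have c1 := tupsum_card_Icc a b hM hab
    have c2 := tupsum_card_Icc c d hM hcd
    have s1 := (tupsum_toNat a b hab (tuplesum3_g M) hg0).trans hH
    have s2 := (tupsum_toNat' a b hab (tuplesum3_g M) hg0).trans hH
    have s3 := (tupsum_toNat c d hcd (tuplesum3_g M) hg0).trans hH
    have s4 := (tupsum_toNat' c d hcd (tuplesum3_g M) hg0).trans hH
    have m1 := mul_le_mul c2 s1 (Finset.sum_nonneg fun _ _ => hg0 _) (by positivity)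
    have m2 := mul_le_mul c2 s2 (Finset.sum_nonneg fun _ _ => hg0 _) (by positivity)
    have m3 := mul_le_mul c1 s3 (Finset.sum_nonneg fun _ _ => hg0 _) (by positivity)
    have m4 := mul_le_mul c1 s4 (Finset.sum_nonneg fun _ _ => hg0 _) (by positivity)
    simp only [← Finset.mul_sum]
    nlinarith

lemma tuplesum3_three {M : ℕ} (hM : 1 ≤ M) {a b c d : ℤ} (hab : b - a ≤ M) (hcd : d - c ≤ M)
    (e' : Edge) (he' : e' ∈ redges a b c d) :
    ∑ e ∈ redges a b c d, tuplesum3_g M (dist2 e e') ^ 2 ≤ 128 * (M : ℝ) ^ 2 := by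
  have hM' : (0 : ℝ) ≤ M := Nat.cast_nonneg M
  have hH := tuplesum3_sum hM
  have hg0 := tuplesum3_g_nonneg M
  have hx' : e'.1 ∈ Finset.Icc a b := by
    obtain ⟨x, y, t⟩ := e'
    simp only [redges, Finset.mem_union, Finset.mem_product, Finset.mem_Icc,
      Finset.mem_singleton] at he' ⊢
    omega
  have hy' : e'.2.1 ∈ Finset.Icc c d := by
    obtain ⟨x, y, t⟩ := e'
    simp only [redges, Finset.mem_union, Finset.mem_product, Finset.mem_Icc,
      Finset.mem_singleton] at he' ⊢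
    omega
  have h1 : ∀ e ∈ redges a b c d, tuplesum3_g M (dist2 e e') ^ 2 ≤
      (fun x y : ℤ => tuplesum3_g M (x - e'.1).natAbs * tuplesum3_g M (y - e'.2.1).natAbs)
        e.1 e.2.1 := by
    intro e _
    show tuplesum3_g M (dist2 e e') ^ 2 ≤
      tuplesum3_g M (e.1 - e'.1).natAbs * tuplesum3_g M (e.2.1 - e'.2.1).natAbs
    rw [sq]
    exact mul_le_mul (tuplesum3_g_anti M (le_max_left _ _)) (tuplesum3_g_anti M (le_max_right _ _))
      (hg0 _) (hg0 _)
  refine (Finset.sum_le_sum h1).trans ?_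
  refine (tupsum_redges_le (fun x y : ℤ => tuplesum3_g M (x - e'.1).natAbs *
    tuplesum3_g M (y - e'.2.1).natAbs) (fun x y => mul_nonneg (hg0 _) (hg0 _))).trans ?_
  rw [← Finset.sum_mul_sum]
  have h7 := (tupsum_natAbs a b hab e'.1 hx' (tuplesum3_g M) hg0)
  have h8 := (tupsum_natAbs c d hcd e'.2.1 hy' (tuplesum3_g M) hg0)
  have h9 : ∑ x ∈ Finset.Icc a b, tuplesum3_g M (x - e'.1).natAbs ≤ 8 * M := by linarith
  have h10 : ∑ y ∈ Finset.Icc c d, tuplesum3_g M (y - e'.2.1).natAbs ≤ 8 * M := by linarith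
  have h11 := mul_le_mul h9 h10 (Finset.sum_nonneg fun _ _ => hg0 _) (by positivity)
  nlinarith

theorem tuple_sum3 : ∃ C : ℝ, 0 < C ∧ ∀ M : ℕ, 1 ≤ M → ∀ a b c d : ℤ, b - a ≤ M → d - c ≤ M →
    ∀ (j : ℕ) (ρ : (Fin j → Edge) → Fin j → ℕ),
      (∀ e i, ρ e i = dbd a b c d (e i) ∨ ∃ k, k ≠ i ∧ ρ e i = dist2 (e i) (e k)) →
      ∑ e ∈ Fintype.piFinset (fun _ : Fin j => redges a b c d),
          ∏ i, ((M : ℝ) / max (ρ e i : ℝ) 1) ^ (2 / 3 : ℝ) ≤
        (j + 1).factorial * (C * (M : ℝ) ^ 2) ^ j := by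
  refine ⟨128, by norm_num, fun M hM a b c d hab hcd j ρ hρ => ?_⟩
  set s : Edge → ℝ := fun e => tuplesum3_g M (dbd a b c d e) with hs
  set t : Edge → Edge → ℝ := fun e e' => tuplesum3_g M (dist2 e e') ^ 2 with ht
  have hs0 : ∀ x, 0 ≤ s x := fun x => tuplesum3_g_nonneg M _
  have ht0 : ∀ x y, 0 ≤ t x y := fun x y => sq_nonneg _
  have hD := tupsum_D_sum hs0 ht0 (redges a b c d) (tuplesum3_one hM hab hcd)
    (tuplesum3_two hM hab hcd) (tuplesum3_three hM hab hcd) j
  have hU := tupsum_U_sum hs0 ht0 (redges a b c d) (tuplesum3_one hM hab hcd)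
    (tuplesum3_two hM hab hcd) (tuplesum3_three hM hab hcd) j
  have h1 : ∀ e ∈ Fintype.piFinset (fun _ : Fin j => redges a b c d),
      ∏ i, ((M : ℝ) / max (ρ e i : ℝ) 1) ^ (2 / 3 : ℝ) ≤
        (∏ i, tupsum_D s t e i + ∏ i, tupsum_U s t e i) / 2 := by
    intro e _
    refine tupsum_prod hs0 ht0 e (fun i => ((M : ℝ) / max (ρ e i : ℝ) 1) ^ (2 / 3 : ℝ))
      (fun i => by positivity) fun i => ?_
    rcases hρ e i with h | ⟨k, hk, h⟩
    · left
      simp only [hs, h, tuplesum3_g]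
    · right
      exact ⟨k, hk, by simp only [ht, h, tuplesum3_g]⟩
  refine (Finset.sum_le_sum h1).trans ?_
  rw [← Finset.sum_div, Finset.sum_add_distrib]
  linarith

end Pool.Agent.H29.Kap

end

section

/-!
# Pivotal edges and closed dual paths
-/

namespace Pool.Agent.H89.Perc

variable {ω : Config} {S : Set Vert} {e : Edge}

lemma Joins.eq_or {u v u' v' : Vert} (h : Joins e u v) (h' : Joins e u' v') :
    (u = u' ∧ v = v') ∨ (u = v' ∧ v = u') := by
  rcases h with ⟨h1, h2⟩ | ⟨h1, h2⟩ <;> rcases h' with ⟨h3, h4⟩ | ⟨h3, h4⟩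
  · left; exact ⟨h1.trans h3.symm, h2.trans h4.symm⟩
  · right; exact ⟨h1.trans h4.symm, h2.trans h3.symm⟩
  · right; exact ⟨h1.trans h4.symm, h2.trans h3.symm⟩
  · left; exact ⟨h1.trans h3.symm, h2.trans h4.symm⟩

/-- A path in the configuration with `e` open avoids `e` or can be split at `e`. -/
theorem Conn.split_edge {a b : Vert} (h : Conn (Function.update ω e true) S a b) :
    Conn (Function.update ω e false) S a b ∨ ∃ u v, Joins e u v ∧
      Conn (Function.update ω e false) S a u ∧ Conn (Function.update ω e false) S v b := by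
  refine h.induction_right (P := fun x => Conn (Function.update ω e false) S a x ∨
    ∃ u v, Joins e u v ∧ Conn (Function.update ω e false) S a u ∧
      Conn (Function.update ω e false) S v x) (Or.inl (Conn.refl h.mem_left)) ?_
  rintro x y _ ⟨hx, hy, f, hf, hfo⟩ ih
  by_cases hfe : f = e
  · subst hfe
    rcases ih with ih | ⟨u, v, h1, h2, h3⟩
    · exact Or.inr ⟨x, y, hf, ih, Conn.refl hy⟩
    · rcases hf.eq_or h1 with ⟨h4, h5⟩ | ⟨h4, h5⟩
      · subst h4 h5
        exact Or.inr ⟨x, y, hf, h2, Conn.refl hy⟩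
      · subst h4 h5
        exact Or.inl h2
  · have hs : Step (Function.update ω e false) S x y := by
      refine ⟨hx, hy, f, hf, ?_⟩
      rw [Function.update_of_ne hfe] at hfo ⊢
      exact hfo
    rcases ih with ih | ⟨u, v, h1, h2, h3⟩
    · exact Or.inl (ih.tail hs)
    · exact Or.inr ⟨u, v, h1, h2, h3.tail hs⟩

end Pool.Agent.H89.Perc

end

section

/-! # Two disjoint open arms and one closed dual arm on a line -/

set_option autoImplicit false

namespace Pool.Agent.H29.Kap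

open Pool.Agent.H89.Perc

/-- The configuration with all edges `(-1, y, false)`, `y > h`, closed. -/
def threearms_w (ω : Config) (h : ℤ) : Config :=
  fun e => if e.1 = -1 ∧ e.2.2 = false ∧ h < e.2.1 then false else ω e

lemma threearms_le {ω : Config} {h : ℤ} {e : Edge} (he : threearms_w ω h e = true) :
    ω e = true := by
  unfold threearms_w at he
  split_ifs at he
  exact he

lemma threearms_mono {ω : Config} {h h' : ℤ} (hh : h ≤ h') {e : Edge}
    (he : threearms_w ω h e = true) : threearms_w ω h' e = true := by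
  unfold threearms_w at he ⊢
  split_ifs at he with h1
  rw [if_neg]
  · exact he
  · rintro ⟨h2, h3, h4⟩
    exact h1 ⟨h2, h3, by omega⟩

/-- Going up a column of open edges. -/
lemma threearms_col {w : Config} {S : Set Vert} {x y₁ y₂ : ℤ} (hy : y₁ ≤ y₂)
    (h : ∀ y, y₁ ≤ y → y ≤ y₂ → (x, y) ∈ S)
    (hw : ∀ y, y₁ ≤ y → y < y₂ → w (x, y, true) = true) : Conn w S (x, y₁) (x, y₂) := by
  have key : ∀ n : ℕ, y₁ + n ≤ y₂ → Conn w S (x, y₁) (x, y₁ + n) := by
    intro n
    induction n with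
    | zero => intro _; simpa using Conn.refl (h y₁ le_rfl hy)
    | succ n ih =>
      intro hn
      push_cast at hn
      refine (ih (by omega)).tail ⟨h _ (by omega) (by omega), h _ (by push_cast; omega)
        (by push_cast; omega), (x, y₁ + n, true), Or.inl ⟨rfl, ?_⟩, hw _ (by omega) (by omega)⟩
      simp only [tgt, if_true, Prod.mk.injEq, true_and]
      push_cast
      ring
  have := key (y₂ - y₁).toNat (by omega)
  rwa [Int.toNat_of_nonneg (by omega), add_sub_cancel] at this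

/-- The column above `(-1, y)`, `y ≥ h`, is open in the dual of `threearms_w ω h`. -/
lemma threearms_up {ω : Config} {h W y : ℤ} (hW : 4 ≤ W) (hy : h ≤ y) (hy1 : -3 * W - 1 ≤ y)
    (hy2 : y ≤ 3 * W) :
    Conn (dual (threearms_w ω h)) (rect (-W) (W - 1) (-3 * W - 1) (3 * W)) (-1, y)
      (-1, 3 * W) := by
  refine threearms_col hy2 (fun z h1 h2 => ?_) (fun z h1 h2 => ?_)
  · simp only [rect, Set.mem_ofPred_eq]
    omega
  · simp only [dual, crossed, threearms_w, if_true]
    rw [if_pos ⟨trivial, trivial, by omega⟩]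
    rfl

/-- Step (1). -/
lemma threearms_one {ω : Config} {W : ℤ} (hW : 4 ≤ W) (h1 : HCross ω (-W) W 0 (2 * W)) :
    HCross (threearms_w ω (2 * W)) (-W) W (-3 * W) (3 * W) := by
  obtain ⟨u, v, hu, hv, hc⟩ := h1
  refine ⟨u, v, hu, hv, ?_⟩
  have h2 : Conn (threearms_w ω (2 * W)) (rect (-W) W 0 (2 * W)) u v := by
    refine hc.congr ?_
    intro e he _
    unfold threearms_w
    rw [if_neg]
    rintro ⟨h3, h4, h5⟩
    simp only [rect, src, Set.mem_ofPred_eq] at he
    omega
  refine h2.mono_set ?_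
  rintro ⟨a, b⟩ hab
  simp only [rect, Set.mem_ofPred_eq] at hab ⊢
  omega

/-- Step (2). -/
lemma threearms_two {ω : Config} {W : ℤ} (hW : 4 ≤ W)
    (h2 : HCross (dual ω) (-W - 1) W (-W) (-2))
    (h3 : VCross (dual ω) (-W) (W - 1) (-3 * W - 1) (-2)) :
    ¬ HCross (threearms_w ω (-W - 1)) (-W) W (-3 * W) (3 * W) := by
  intro hcon
  refine not_hcross_and_dual_vcross (by omega) hcon ?_
  obtain ⟨φ, ψ, hφ, hψ, hc⟩ := h3
  obtain ⟨φ', ψ', hφ', hψ', hc1, hc2, -⟩ := hc.cross_y (a := -W) (b := -2) (by omega) (by omega)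
    (by omega)
  obtain ⟨u, v, hu, hv, hd⟩ := h2
  obtain ⟨u', v', hu', hv', hd1, -, -⟩ := hd.cross_x (a := -W) (b := W - 1) (by omega) (by omega)
    (by omega)
  have e1 : Conn (dual ω) (rect (-W) (W - 1) (-W) (-2)) φ' ψ' := by
    refine hc1.mono_set ?_
    rintro ⟨a, b⟩ ⟨hab, hab'⟩
    simp only [rect, Set.mem_ofPred_eq] at hab hab' ⊢
    omega
  have e2 : Conn (dual ω) (rect (-W) (W - 1) (-W) (-2)) u' v' := by
    refine hd1.mono_set ?_
    rintro ⟨a, b⟩ ⟨hab, hab'⟩
    simp only [rect, Set.mem_ofPred_eq] at hab hab' ⊢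
    omega
  obtain ⟨w0, k1, k2⟩ := cross e2 hu' hv' e1 hφ' hψ'
  obtain ⟨w1, w2, hw1, -, -, k3, -⟩ := e2.cross_x (a := -1) (b := -1) (by omega) (by omega) le_rfl
  have k4 : Conn (dual ω) (rect (-W) (W - 1) (-W) (-2)) φ' w1 :=
    k2.trans (k1.symm.trans k3)
  have hw1m := k4.mem_right
  simp only [rect, Set.mem_ofPred_eq] at hw1m
  have k5 : Conn (dual ω) (rect (-W) (W - 1) (-3 * W - 1) (3 * W)) φ w1 := by
    refine Conn.trans (hc2.mono_set ?_) (k4.mono_set ?_)
    · rintro ⟨a, b⟩ hab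
      simp only [rect, Set.mem_ofPred_eq] at hab ⊢
      omega
    · rintro ⟨a, b⟩ hab
      simp only [rect, Set.mem_ofPred_eq] at hab ⊢
      omega
  have k6 : Conn (dual (threearms_w ω (-W - 1))) (rect (-W) (W - 1) (-3 * W - 1) (3 * W)) φ w1 := by
    refine k5.mono (le_refl _) ?_
    intro e he
    simp only [dual, Bool.not_eq_true'] at he ⊢
    by_contra hne
    rw [Bool.not_eq_false] at hne
    rw [threearms_le hne] at he
    exact absurd he (by decide)
  have hw1' : w1 = (-1, w1.2) := Prod.ext hw1 rfl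
  rw [hw1'] at k6
  exact ⟨φ, _, hφ, rfl, k6.trans (threearms_up hW (by omega) (by omega) (by omega))⟩

/-- The choice of `h`. -/
lemma threearms_min {P : ℤ → Prop} {a b : ℤ} (hab : a ≤ b) (ha : ¬ P a) (hb : P b) :
    ∃ h, a < h ∧ h ≤ b ∧ P h ∧ ¬ P (h - 1) := by
  classical
  by_contra hno
  push Not at hno
  have key : ∀ n : ℕ, a ≤ b - n → P (b - n) := by
    intro n
    induction n with
    | zero => intro _; simpa using hb
    | succ n ih =>
      intro hn
      push_cast at hn ⊢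
      have h1 := ih (by omega)
      have h2 := hno (b - n) (by omega) (by omega) h1
      rwa [show b - (n : ℤ) - 1 = b - (n + 1) by ring] at h2
  have := key (b - a).toNat (by omega)
  rw [Int.toNat_of_nonneg (by omega), sub_sub_cancel] at this
  exact ha this

theorem three_arms {ω : Config} {W : ℤ} (hW : 4 ≤ W) (h1 : HCross ω (-W) W 0 (2 * W))
    (h2 : HCross (dual ω) (-W - 1) W (-W) (-2))
    (h3 : VCross (dual ω) (-W) (W - 1) (-3 * W - 1) (-2)) :
    ∃ h : ℤ, -W ≤ h ∧ h ≤ 2 * W ∧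
      (∃ ω₁ ω₂ : Config, (∀ e, ω₁ e = true → ω e = true) ∧ (∀ e, ω₂ e = true → ω e = true) ∧
        (∀ e, ω₁ e = true → ω₂ e = false) ∧
        (∃ a : Vert, (a.1 = -W ∨ a.1 = W) ∧ Conn ω₁ (rect (-W) W (-3 * W) (3 * W)) (0, h) a) ∧
        (∃ a : Vert, (a.1 = -W ∨ a.1 = W) ∧ Conn ω₂ (rect (-W) W (-3 * W) (3 * W)) (0, h) a)) ∧
      (∃ φ : Vert, φ.2 = -3 * W - 1 ∧
        Conn (dual ω) (rect (-W) (W - 1) (-3 * W - 1) (3 * W)) (-1, h - 1) φ) := by
  classical
  obtain ⟨h, hh1, hh2, hP, hnP⟩ := threearms_min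
    (P := fun h => HCross (threearms_w ω h) (-W) W (-3 * W) (3 * W)) (a := -W - 1) (b := 2 * W)
    (by omega) (threearms_two hW h2 h3) (threearms_one hW h1)
  set w := threearms_w ω h with hw
  set w' := threearms_w ω (h - 1) with hw'
  set B : Set Vert := rect (-W) W (-3 * W) (3 * W) with hB
  set PP : Set Vert := rect (-W) (W - 1) (-3 * W - 1) (3 * W) with hPP
  -- relation between `w` and `w'`
  have hne : ∀ e : Edge, e ≠ (-1, h, false) → w' e = w e := by
    rintro ⟨x, y, t⟩ hne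
    simp only [hw, hw', threearms_w]
    by_cases k : x = -1 ∧ t = false ∧ h < y
    · rw [if_pos k, if_pos ⟨k.1, k.2.1, by omega⟩]
    · rw [if_neg k, if_neg]
      rintro ⟨k1, k2, k3⟩
      by_cases k4 : y = h
      · exact hne (by rw [k1, k2, k4])
      · exact k ⟨k1, k2, by omega⟩
  have hw'e : w' (-1, h, false) = false := by
    simp only [hw', threearms_w]
    rw [if_pos ⟨trivial, trivial, by omega⟩]
  have hwe : w (-1, h, false) = true := by
    by_contra hcon
    rw [Bool.not_eq_true] at hcon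
    have : w = w' := by
      funext e
      by_cases k : e = (-1, h, false)
      · rw [k, hcon, hw'e]
      · exact (hne e k).symm
    apply hnP
    show HCross w' _ _ _ _
    rw [← this]
    exact hP
  have hωe : ω (-1, h, false) = true := threearms_le hwe
  have hup : w = Function.update w' (-1, h, false) true := by
    funext e
    by_cases k : e = (-1, h, false)
    · rw [k, hwe, Function.update_self]
    · rw [Function.update_of_ne k, hne e k]
  have hup' : w' = Function.update w' (-1, h, false) false := by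
    funext e
    by_cases k : e = (-1, h, false)
    · rw [k, hw'e, Function.update_self]
    · rw [Function.update_of_ne k]
  have hw'w : ∀ e, w' e = true → w e = true := fun e he => threearms_mono (by omega) he
  -- the two open arms
  obtain ⟨a, b, ha, hb, hab⟩ := hP
  have hsplit : ∃ s₀ s₁ : Vert, (s₀.1 = -W ∨ s₀.1 = W) ∧ (s₁.1 = -W ∨ s₁.1 = W) ∧
      Conn w' B (0, h) s₀ ∧ Conn w' B (-1, h) s₁ ∧ ¬ Conn w' B (0, h) (-1, h) := by
    have hab' : Conn (Function.update w' (-1, h, false) true) B a b := by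
      rw [← hup]; exact hab
    rcases hab'.split_edge with k | ⟨u, v, k1, k2, k3⟩
    · rw [← hup'] at k
      exact absurd ⟨a, b, ha, hb, k⟩ hnP
    · rw [← hup'] at k2 k3
      have hnot : ¬ Conn w' B u v := fun k4 =>
        hnP ⟨a, b, ha, hb, (k2.trans k4).trans k3⟩
      rcases k1 with ⟨k4, k5⟩ | ⟨k4, k5⟩
      · have e1 : u = (-1, h) := by rw [k4]; rfl
        have e2 : v = (0, h) := by rw [k5]; simp [tgt]
        rw [e1] at k2 hnot
        rw [e2] at k3 hnot
        exact ⟨b, a, Or.inr hb, Or.inl ha, k3, k2.symm, fun k => hnot k.symm⟩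
      · have e1 : u = (0, h) := by rw [k4]; simp [tgt]
        have e2 : v = (-1, h) := by rw [k5]; rfl
        rw [e1] at k2 hnot
        rw [e2] at k3 hnot
        exact ⟨a, b, Or.inl ha, Or.inr hb, k2.symm, k3, hnot⟩
  obtain ⟨s₀, s₁, hs₀, hs₁, c0, c1, hnc⟩ := hsplit
  refine ⟨h, by omega, hh2, ⟨fun e => w' e && decide (Conn w' B (0, h) (src e)),
    fun e => decide (e = (-1, h, false)) || (w' e && decide (Conn w' B (-1, h) (src e))),
    ?_, ?_, ?_, ⟨s₀, hs₀, ?_⟩, ⟨s₁, hs₁, ?_⟩⟩, ?_⟩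
  · intro e he
    simp only [Bool.and_eq_true] at he
    exact threearms_le he.1
  · intro e he
    simp only [Bool.or_eq_true, Bool.and_eq_true, decide_eq_true_eq] at he
    rcases he with he | he
    · rw [he]; exact hωe
    · exact threearms_le he.1
  · intro e he
    simp only [Bool.and_eq_true, decide_eq_true_eq] at he
    simp only [Bool.or_eq_false_iff, Bool.and_eq_false_iff, decide_eq_false_iff_not]
    refine ⟨?_, Or.inr ?_⟩
    · intro k
      rw [k, hw'e] at he
      exact absurd he.1 (by decide)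
    · intro k
      exact hnc (he.2.trans k.symm)
  · refine c0.induction_right (P := fun x =>
      Conn (fun e => w' e && decide (Conn w' B (0, h) (src e))) B (0, h) x)
      (Conn.refl c0.mem_left) ?_
    rintro x y hx ⟨hxB, hyB, e, he, heo⟩ ih
    refine ih.tail ⟨hxB, hyB, e, he, ?_⟩
    simp only [Bool.and_eq_true, decide_eq_true_eq]
    refine ⟨heo, ?_⟩
    have hy : Conn w' B (0, h) y := hx.tail ⟨hxB, hyB, e, he, heo⟩
    rcases he with ⟨k1, _⟩ | ⟨_, k2⟩
    · rw [← k1]; exact hx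
    · rw [← k2]; exact hy
  · refine c1.induction_right (P := fun x =>
      Conn (fun e => decide (e = (-1, h, false)) ||
        (w' e && decide (Conn w' B (-1, h) (src e)))) B (0, h) x) ?_ ?_
    · refine (Step.conn ⟨c0.mem_left, c1.mem_left, (-1, h, false), Or.inr ⟨?_, rfl⟩, ?_⟩)
      · simp [tgt]
      · simp
    · rintro x y hx ⟨hxB, hyB, e, he, heo⟩ ih
      refine ih.tail ⟨hxB, hyB, e, he, ?_⟩
      simp only [Bool.or_eq_true, Bool.and_eq_true, decide_eq_true_eq]
      refine Or.inr ⟨heo, ?_⟩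
      have hy : Conn w' B (-1, h) y := hx.tail ⟨hxB, hyB, e, he, heo⟩
      rcases he with ⟨k1, _⟩ | ⟨_, k2⟩
      · rw [← k1]; exact hx
      · rw [← k2]; exact hy
  · -- the dual arm
    rcases hcross_or_dual_vcross (ω := w') (a := -W) (b := W) (c := -3 * W) (d := 3 * W)
      (by omega) (by omega) with k | ⟨φ, ψ, hφ, hψ, hc⟩
    · exact absurd k hnP
    have hg : crossed (-1, h - 1, true) = (-1, h, false) := by
      simp [crossed]
    have hcr : ∀ e : Edge, crossed e = (-1, h, false) → e = (-1, h - 1, true) := by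
      rintro ⟨x, y, t⟩ he
      cases t
      · simp [crossed] at he
      · simp only [crossed, if_true, Prod.mk.injEq, and_true] at he
        obtain ⟨k1, k2⟩ := he
        rw [k1, show y = h - 1 by omega]
    have hd : dual w' = Function.update (dual w) (-1, h - 1, true) true := by
      funext e
      by_cases k : e = (-1, h - 1, true)
      · rw [k, Function.update_self]
        simp only [dual, hg, hw'e, Bool.not_false]
      · rw [Function.update_of_ne k]
        simp only [dual]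
        rw [hne _ (fun k' => k (hcr e k'))]
    have hd' : dual w = Function.update (dual w) (-1, h - 1, true) false := by
      funext e
      by_cases k : e = (-1, h - 1, true)
      · rw [k, Function.update_self]
        simp only [dual, hg, hwe, Bool.not_true]
      · rw [Function.update_of_ne k]
    have hHC : HCross w (-W) W (-3 * W) (3 * W) := ⟨a, b, ha, hb, hab⟩
    have hnv : ¬ VCross (dual w) (-W) (W - 1) (-3 * W - 1) (3 * W) :=
      not_hcross_and_dual_vcross (by omega) hHC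
    have hno : ∀ y : ℤ, h ≤ y → y ≤ 3 * W → ¬ Conn (dual w) PP φ (-1, y) := by
      intro y k1 k2 k3
      have k4 : Conn (dual w) PP (-1, y) (-1, 3 * W) :=
        threearms_up hW k1 (by omega) k2
      exact hnv ⟨φ, (-1, 3 * W), hφ, rfl, k3.trans k4⟩
    have hc' : Conn (Function.update (dual w) (-1, h - 1, true) true) PP φ ψ := by
      rw [← hd]; exact hc
    have hend : Conn (dual w) PP φ (-1, h - 1) := by
      rcases hc'.split_edge with k | ⟨u, v, k1, k2, k3⟩
      · rw [← hd'] at k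
        exact absurd ⟨φ, ψ, hφ, hψ, k⟩ hnv
      · rw [← hd'] at k2 k3
        rcases k1 with ⟨k4, k5⟩ | ⟨k4, k5⟩
        · rw [k4] at k2
          exact k2
        · rw [k4] at k2
          have e1 : tgt ((-1, h - 1, true) : Edge) = (-1, h) := by
            simp [tgt]
          rw [e1] at k2
          exact absurd k2 (hno h le_rfl (by omega))
    refine ⟨φ, hφ, Conn.symm ?_⟩
    refine hend.induction_right (P := fun x => Conn (dual ω) PP φ x) (Conn.refl hend.mem_left) ?_
    rintro x y hx ⟨hxB, hyB, e, he, heo⟩ ih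
    refine ih.tail ⟨hxB, hyB, e, he, ?_⟩
    by_cases k : (crossed e).1 = -1 ∧ (crossed e).2.2 = false ∧ h < (crossed e).2.1
    · exfalso
      obtain ⟨ex, ey, et⟩ := e
      have hy : Conn (dual w) PP φ y := hx.tail ⟨hxB, hyB, _, he, heo⟩
      cases et
      · simp [crossed] at k
      · simp only [crossed, if_true] at k
        obtain ⟨k1, -, k2⟩ := k
        have key : Conn (dual w) PP φ (-1, ey) := by
          rcases he with ⟨k3, _⟩ | ⟨_, k4⟩
          · rw [k3] at hx
            simpa [src, k1] using hx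
          · rw [k4] at hy
            simpa [src, k1] using hy
        have hm := key.mem_right
        simp only [hPP, rect, Set.mem_ofPred_eq] at hm
        exact hno ey (by omega) (by omega) key
    · simp only [dual] at heo ⊢
      rw [hw] at heo
      unfold threearms_w at heo
      rw [if_neg k] at heo
      exact heo

end Pool.Agent.H29.Kap

end

section

/-! # Second moment of the number of crossing clusters for `p ≤ 1/2` -/

set_option autoImplicit false

namespace Pool.Agent.H29.Kap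

open Pool.Agent.H89.Perc Pool.Agent.Perc

/-- Gluing of two horizontal crossings with a vertical crossing of the overlap. -/
theorem crossmom_glue {ω : Config} {a a' b b' c d : ℤ} (h1 : a ≤ a') (h2 : a' ≤ b) (h3 : b ≤ b')
    (hA : HCross ω a b c d) (hB : HCross ω a' b' c d) (hV : VCross ω a' b c d) :
    HCross ω a b' c d := by
  obtain ⟨u, v, hu, hv, hc⟩ := hA
  obtain ⟨x, y, hx, hy, hc'⟩ := hB
  obtain ⟨p, q, hp, hq, hw⟩ := hV
  obtain ⟨u1, v1, hu1, hv1, k1, k2, k3⟩ := hc.cross_x (a := a') (b := b) (by omega) (by omega) h2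
  obtain ⟨x1, y1, hx1, hy1, l1, l2, l3⟩ := hc'.cross_x (a := a') (b := b) (by omega) (by omega) h2
  have s1 : rect a b c d ∩ {w | a' ≤ w.1 ∧ w.1 ≤ b} ⊆ rect a' b c d := by
    rintro w ⟨m1, m2⟩
    simp only [rect, Set.mem_ofPred_eq] at m1 m2 ⊢
    omega
  have s2 : rect a' b' c d ∩ {w | a' ≤ w.1 ∧ w.1 ≤ b} ⊆ rect a' b c d := by
    rintro w ⟨m1, m2⟩
    simp only [rect, Set.mem_ofPred_eq] at m1 m2 ⊢
    omega
  obtain ⟨w1, n1, n2⟩ := cross (k1.mono_set s1) hu1 hv1 hw hp hq
  obtain ⟨w2, n3, n4⟩ := cross (l1.mono_set s2) hx1 hy1 hw hp hq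
  have t1 : rect a b c d ⊆ rect a b' c d := by
    intro w m1
    simp only [rect, Set.mem_ofPred_eq] at m1 ⊢
    omega
  have t2 : rect a' b' c d ⊆ rect a b' c d := by
    intro w m1
    simp only [rect, Set.mem_ofPred_eq] at m1 ⊢
    omega
  have t3 : rect a' b c d ⊆ rect a b' c d := by
    intro w m1
    simp only [rect, Set.mem_ofPred_eq] at m1 ⊢
    omega
  refine ⟨u, y, hu, hy, ?_⟩
  have r1 : Conn ω (rect a b' c d) u w1 := (k2.mono_set t1).trans (n1.mono_set t3)
  have r2 : Conn ω (rect a b' c d) w1 w2 := ((n2.mono_set t3).symm).trans (n4.mono_set t3)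
  have r3 : Conn ω (rect a b' c d) w2 x1 := (n3.mono_set t3).symm
  have r4 : Conn ω (rect a b' c d) x1 y := ((l2.mono_set t2).symm).trans (hc'.mono_set t2)
  exact ((r1.trans r2).trans r3).trans r4

theorem crossmom_long (k : ℕ) : ∃ c > (0 : ℝ), ∀ m : ℕ, 1 ≤ m →
    c ≤ Pool.Agent.H89.Perc.Pr half {ω | HCross ω 0 (3 * m * k + m) 0 m} := by
  classical
  induction k with
  | zero =>
    refine ⟨1 / 2, by norm_num, fun m _ => ?_⟩
    have := half_le_hcross m
    simpa using this
  | succ k ih =>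
    obtain ⟨c, hc, ih⟩ := ih
    obtain ⟨c', hc', hr⟩ := rsw
    refine ⟨c * c' * (1 / 2), by positivity, fun m hm => ?_⟩
    have i1 := ih m hm
    have i2 := hr m hm
    have i3 := half_le_vcross m
    set L : ℤ := 3 * m * k with hL
    have hL0 : 0 ≤ L := by positivity
    have j2 : c' ≤ Pool.Agent.H89.Perc.Pr half {ω | HCross ω L (L + 4 * m) 0 m} := by
      have := Pr_hcross_translate (p := half) (a := 0) (b := 4 * m) (c := 0) (d := m) L 0
      rw [← this] at i2
      simpa [add_comm] using i2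
    have j3 : 1 / 2 ≤ Pool.Agent.H89.Perc.Pr half {ω | VCross ω L (L + m) 0 m} := by
      have := Pr_vcross_translate (p := half) (a := 0) (b := m) (c := 0) (d := m) L 0
      rw [← this] at i3
      simpa [add_comm] using i3
    have f1 := fkg (p := half) (localOn_hcross 0 (L + m) 0 m) (localOn_hcross L (L + 4 * m) 0 m)
      (incr_hcross _ _ _ _) (incr_hcross _ _ _ _)
    have f2 := fkg (p := half) ((localOn_hcross 0 (L + m) 0 m).inter'
      (localOn_hcross L (L + 4 * m) 0 m)) (localOn_vcross L (L + m) 0 m)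
      ((incr_hcross _ _ _ _).inter (incr_hcross _ _ _ _)) (incr_vcross _ _ _ _)
    have hsub : ({ω | HCross ω 0 (L + m) 0 m} ∩ {ω | HCross ω L (L + 4 * m) 0 m}) ∩
        {ω | VCross ω L (L + m) 0 m} ⊆ {ω | HCross ω 0 (3 * m * ((k + 1 : ℕ) : ℤ) + m) 0 m} := by
      rintro ω ⟨⟨h1, h2⟩, h3⟩
      have e : 3 * (m : ℤ) * ((k + 1 : ℕ) : ℤ) + m = L + 4 * m := by
        rw [hL]; push_cast; ring
      rw [Set.mem_ofPred_eq, e]
      exact crossmom_glue hL0 (by omega) (by omega) h1 h2 h3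
    have f3 := Pool.Agent.H89.Perc.Pr_mono (p := half) hsub
    have g1 : c * c' ≤ Pool.Agent.H89.Perc.Pr half
        ({ω | HCross ω 0 (L + m) 0 m} ∩ {ω | HCross ω L (L + 4 * m) 0 m}) :=
      (mul_le_mul i1 j2 hc'.le (hc.le.trans i1)).trans f1
    have g2 : c * c' * (1 / 2) ≤ _ :=
      (mul_le_mul g1 j3 (by norm_num) ((mul_pos hc hc').le.trans g1)).trans f2
    exact g2.trans f3

theorem crossmom_line (k : ℕ) :
    (1 / 2 : ℝ) ^ k ≤ Pool.Agent.H89.Perc.Pr half {ω | VCross ω 0 0 0 k} := by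
  classical
  induction k with
  | zero =>
    have : {ω : Config | VCross ω 0 0 0 ((0 : ℕ) : ℤ)} = Set.univ := by
      ext ω
      simp only [Set.mem_ofPred_eq, Set.mem_univ, iff_true]
      exact ⟨(0, 0), (0, 0), rfl, rfl, Conn.refl ⟨le_rfl, le_rfl, le_rfl, le_rfl⟩⟩
    rw [this, Pr_univ, pow_zero]
  | succ k ih =>
    have hloc : LocalOn {((0, (k : ℤ), true) : Edge)} {ω : Config | ω (0, (k : ℤ), true) = true} := by
      intro ω ω' h hA
      have : ω (0, (k : ℤ), true) = ω' (0, (k : ℤ), true) := h _ (by simp)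
      simp only [Set.mem_ofPred_eq] at hA ⊢
      rw [← this]
      exact hA
    have hinc : Incr {ω : Config | ω (0, (k : ℤ), true) = true} := fun ω ω' h hA => h _ hA
    have f1 := fkg (p := half) (localOn_vcross 0 0 0 (k : ℤ)) hloc (incr_vcross _ _ _ _) hinc
    have hsub : {ω | VCross ω 0 0 0 (k : ℤ)} ∩ {ω : Config | ω (0, (k : ℤ), true) = true} ⊆
        {ω | VCross ω 0 0 0 ((k + 1 : ℕ) : ℤ)} := by
      rintro ω ⟨⟨u, v, hu, hv, hc⟩, h2⟩
      refine ⟨u, (0, (k : ℤ) + 1), hu, by push_cast; rfl, ?_⟩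
      have hs : rect 0 0 0 (k : ℤ) ⊆ rect 0 0 0 ((k + 1 : ℕ) : ℤ) := by
        intro w hw
        simp only [rect, Set.mem_ofPred_eq] at hw ⊢
        push_cast
        omega
      have hvm := hc.mem_right
      have hv' : v = (0, (k : ℤ)) := by
        simp only [rect, Set.mem_ofPred_eq] at hvm
        exact Prod.ext (by simp only; omega) hv
      rw [hv'] at hc
      refine (hc.mono_set hs).tail ⟨hs hc.mem_right, ?_, (0, (k : ℤ), true), Or.inl ⟨rfl, rfl⟩, h2⟩
      refine ⟨le_rfl, le_rfl, ?_, ?_⟩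
      · show (0 : ℤ) ≤ (k : ℤ) + 1
        omega
      · show (k : ℤ) + 1 ≤ ((k + 1 : ℕ) : ℤ)
        push_cast
        exact le_rfl
    have f3 := Pool.Agent.H89.Perc.Pr_mono (p := half) hsub
    have g := rsw_edge (0, (k : ℤ), true)
    calc (1 / 2 : ℝ) ^ (k + 1) = (1 / 2) ^ k * (1 / 2) := pow_succ _ _
      _ ≤ _ := (mul_le_mul ih g (by norm_num) ((by positivity : (0:ℝ) ≤ (1/2)^k).trans ih)).trans f1
      _ ≤ _ := f3

theorem crossmom_vert : ∃ c > (0 : ℝ), ∀ n : ℕ, 1 ≤ n →
    c ≤ Pool.Agent.H89.Perc.Pr half {ω | VCross ω 0 (n - 1) (-1) (8 * n)} := by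
  obtain ⟨c, hc, h⟩ := crossmom_long 6
  refine ⟨min c ((1 / 2) ^ 9), by positivity, fun n hn => ?_⟩
  by_cases h1 : n = 1
  · subst h1
    refine (min_le_right _ _).trans ((crossmom_line 9).trans (le_of_eq ?_))
    have := Pr_vcross_translate (p := half) (a := 0) (b := 0) (c := 0) (d := 9) 0 (-1)
    rw [show ((9 : ℕ) : ℤ) = 9 from rfl, ← this]
    norm_num
  · obtain ⟨m, rfl⟩ : ∃ m, n = m + 1 := ⟨n - 1, by omega⟩
    have hm : 1 ≤ m := by omega
    refine (min_le_left _ _).trans ((h m hm).trans ?_)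
    rw [← Pr_vcross_eq_hcross]
    have := Pr_vcross_translate (p := half) (a := 0) (b := m) (c := 0)
      (d := 3 * m * ((6 : ℕ) : ℤ) + m) 0 (-1)
    rw [← this]
    refine Pool.Agent.H89.Perc.Pr_mono ?_
    intro ω hω
    rw [Set.mem_ofPred_eq] at hω ⊢
    refine VCross.mono hω ?_ ?_ ?_ ?_ ?_ <;> push_cast <;> omega

theorem crossmom_q : ∃ q : ℝ, 0 ≤ q ∧ q < 1 ∧ ∀ n : ℕ, 1 ≤ n → ∀ x1 x2 c d : ℤ,
    n ≤ x2 - x1 → c ≤ d → d - c ≤ 8 * n →
      Pool.Agent.H89.Perc.Pr half {ω | HCross ω x1 x2 c d} ≤ q := by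
  obtain ⟨c0, hc0, h⟩ := crossmom_vert
  refine ⟨max 0 (1 - c0), le_max_left _ _, by rw [max_lt_iff]; constructor <;> linarith, ?_⟩
  intro n hn x1 x2 c d h1 h2 h3
  refine le_trans ?_ (le_max_right _ _)
  have s1 : {ω : Config | HCross ω x1 x2 c d} ⊆ {ω | HCross ω (0 + x1) (n + x1) (0 + c) (8 * n + c)} := by
    intro ω hω
    rw [Set.mem_ofPred_eq] at hω ⊢
    refine HCross.mono hω ?_ ?_ ?_ ?_ ?_ <;> omega
  refine (Pool.Agent.H89.Perc.Pr_mono s1).trans ?_
  rw [Pr_hcross_translate]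
  have s2 : {ω : Config | HCross ω 0 n 0 (8 * n)} ⊆
      {ω | dual ω ∈ {η | VCross η 0 ((n : ℤ) - 1) (-1) (8 * n)}}ᶜ := by
    intro ω hω hd
    exact not_hcross_and_dual_vcross (by omega) hω hd
  refine (Pool.Agent.H89.Perc.Pr_mono s2).trans ?_
  rw [Pr_compl (LocalOn.dual' (localOn_vcross _ _ _ _)), Pr_dual (localOn_vcross _ _ _ _),
    rsw_symm_half]
  linarith [h n hn]

theorem crossmom_disjK {S : Finset Edge} {x1 x2 c d : ℤ} {k : ℕ} (hk : k ≤ NC (ofS S) x1 x2 c d) :
    DisjK (fun T => HCross (ofS T) x1 x2 c d) k S := by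
  classical
  set T : Set (Set Vert) := {C | C ∈ clusters (ofS S) (rect x1 x2 c d) ∧ (∃ u ∈ C, u.1 = x1) ∧
    ∃ v ∈ C, v.1 = x2} with hT
  have hfin : T.Finite := (clusters_finite (ofS S) (rect_finite x1 x2 c d)).subset fun C hC => hC.1
  obtain ⟨T', hT'1, hT'2⟩ := Set.exists_subset_card_eq (s := T) (n := k) hk
  have hfin' : T'.Finite := hfin.subset hT'1
  have hcard : hfin'.toFinset.card = k := by
    rw [← Set.ncard_eq_toFinset_card T' hfin']; exact hT'2
  set e := hfin'.toFinset.equivFinOfCardEq hcard with he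
  -- the clusters
  set Cl : ℕ → Set Vert := fun i => if h : i < k then ((e.symm ⟨i, h⟩ : hfin'.toFinset) : Set Vert)
    else ∅ with hCl
  have hmem : ∀ i < k, Cl i ∈ T := by
    intro i hi
    have : Cl i = ((e.symm ⟨i, hi⟩ : hfin'.toFinset) : Set Vert) := by
      simp only [hCl]; rw [dif_pos hi]
    rw [this]
    exact hT'1 (hfin'.mem_toFinset.1 (e.symm ⟨i, hi⟩).2)
  have hne : ∀ i < k, ∀ j < k, i ≠ j → Cl i ≠ Cl j := by
    intro i hi j hj hij h
    have e1 : Cl i = ((e.symm ⟨i, hi⟩ : hfin'.toFinset) : Set Vert) := by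
      simp only [hCl]; rw [dif_pos hi]
    have e2 : Cl j = ((e.symm ⟨j, hj⟩ : hfin'.toFinset) : Set Vert) := by
      simp only [hCl]; rw [dif_pos hj]
    rw [e1, e2] at h
    have h2 := e.symm.injective (Subtype.ext h)
    exact hij (by simpa using h2)
  refine DisjK_of_family _ k (fun i => S.filter (fun f => src f ∈ Cl i ∧ tgt f ∈ Cl i)) S
    (fun i _ => Finset.filter_subset _ _) ?_ ?_
  · intro i hi j hj hij
    rw [Finset.disjoint_left]
    intro f hf hf'
    rw [Finset.mem_filter] at hf hf'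
    have a1 := mem_cluster_iff (hmem i hi).1 hf.2.1
    have a2 := mem_cluster_iff (hmem j hj).1 hf'.2.1
    exact hne i hi j hj hij (a1.trans a2.symm)
  · intro i hi
    obtain ⟨h1, ⟨u, hu, hu1⟩, ⟨v, hv, hv1⟩⟩ := hmem i hi
    refine ⟨u, v, hu1, hv1, ?_⟩
    have a1 := mem_cluster_iff h1 hu
    have hc : Conn (ofS S) (rect x1 x2 c d) u v := by
      have := hv
      rw [a1] at this
      exact this
    refine hc.induction_right (P := fun w => Conn _ (rect x1 x2 c d) u w)
      (Conn.refl hc.mem_left) ?_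
    intro a b hab hst ih
    obtain ⟨ha, hb, f, hf, ho⟩ := hst
    refine ih.tail ⟨ha, hb, f, hf, ?_⟩
    rw [ofS_eq_true, Finset.mem_filter]
    refine ⟨ofS_eq_true.1 ho, ?_⟩
    have ha' : a ∈ Cl i := by rw [a1]; exact hab
    have hb' : b ∈ Cl i := by rw [a1]; exact hab.tail ⟨ha, hb, f, hf, ho⟩
    rcases hf with ⟨r1, r2⟩ | ⟨r1, r2⟩
    · rw [← r1, ← r2]; exact ⟨ha', hb'⟩
    · rw [← r1, ← r2]; exact ⟨hb', ha'⟩

theorem crossmom_sq (N : ℕ) : ∀ M : ℕ, N ≤ M →
    (N : ℝ) ^ 2 = ∑ k ∈ Finset.range M, (2 * (k : ℝ) + 1) * (if k + 1 ≤ N then 1 else 0) := by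
  intro M hM
  have h1 : ∀ n : ℕ, ∑ k ∈ Finset.range n, (2 * (k : ℝ) + 1) = (n : ℝ) ^ 2 := by
    intro n
    induction n with
    | zero => simp
    | succ n ih => rw [Finset.sum_range_succ, ih]; push_cast; ring
  rw [← h1 N]
  rw [← Finset.sum_subset (Finset.range_mono hM)]
  · refine Finset.sum_congr rfl fun k hk => ?_
    rw [if_pos (by have := Finset.mem_range.1 hk; omega), mul_one]
  · intro k _ hk
    rw [if_neg (by intro h; exact hk (Finset.mem_range.2 (by omega))), mul_zero]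

theorem NC_moment : ∃ C : ℝ, ∀ n : ℕ, 1 ≤ n → ∀ x1 x2 c d : ℤ, n ≤ x2 - x1 → c ≤ d →
    d - c ≤ 8 * n → ∀ p : ℝ, 0 ≤ p → p ≤ 1 / 2 →
      Ex p (redges x1 x2 c d) (fun S => (NC (ofS S) x1 x2 c d : ℝ) ^ 2) ≤ C := by
  obtain ⟨q, hq0, hq1, hq⟩ := crossmom_q
  have hsum : Summable (fun k : ℕ => (2 * (k : ℝ) + 1) * q ^ (k + 1)) := by
    have s1 : Summable (fun k : ℕ => (k : ℝ) ^ 1 * q ^ k) :=
      summable_pow_mul_geometric_of_norm_lt_one 1 (by rw [Real.norm_eq_abs, abs_of_nonneg hq0]; exact hq1)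
    have s2 : Summable (fun k : ℕ => q ^ k) := summable_geometric_of_lt_one hq0 hq1
    have s3 := (s1.mul_left (2 * q)).add (s2.mul_left q)
    refine s3.congr fun k => ?_
    rw [pow_one, pow_succ]
    ring
  refine ⟨∑' k : ℕ, (2 * (k : ℝ) + 1) * q ^ (k + 1), ?_⟩
  intro n hn x1 x2 c d h1 h2 h3 p hp0 hp1
  classical
  set F := redges x1 x2 c d with hF
  have hp1' : p ≤ 1 := by linarith
  -- the crossing event
  set A : Finset Edge → Prop := fun T => HCross (ofS T) x1 x2 c d with hA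
  have hUp : UpOn F A := by
    rintro S T hST _ ⟨u, v, hu, hv, hc⟩
    exact ⟨u, v, hu, hv, hc.mono le_rfl (ofS_mono hST)⟩
  have hloc : LocalOn F {ω | HCross ω x1 x2 c d} := by
    rintro ω ω' h ⟨u, v, hu, hv, hc⟩
    exact ⟨u, v, hu, hv, Conn.congr (fun e he he' => h e (mem_redges.2 ⟨he, he'⟩)) hc⟩
  have hPA : Pool.Agent.Perc.Pr p F A ≤ q := by
    have m1 : Pool.Agent.Perc.Pr p F A ≤ Pool.Agent.Perc.Pr (1 / 2) F A := by
      refine Ex_mono_p hp0 hp1 (by norm_num) ?_
      intro S T hST hT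
      exact ind_le_ind (hUp S T hST hT)
    refine m1.trans ?_
    have m2 := Pr_eq_Ex hloc half
    have m3 := hq n hn x1 x2 c d h1 h2 h3
    rw [m2] at m3
    exact m3
  have hPA0 : 0 ≤ Pool.Agent.Perc.Pr p F A := Pool.Agent.Perc.Pr_nonneg hp0 hp1' A
  -- upper bound for the number of clusters
  have hb : ∀ S : Finset Edge, NC (ofS S) x1 x2 c d ≤ (rect x1 x2 c d).ncard := by
    intro S
    have e1 : clusters (ofS S) (rect x1 x2 c d) =
        (fun v => {w | Conn (ofS S) (rect x1 x2 c d) v w}) '' rect x1 x2 c d := by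
      ext C
      constructor
      · rintro ⟨v, hv, rfl⟩; exact ⟨v, hv, rfl⟩
      · rintro ⟨v, hv, rfl⟩; exact ⟨v, hv, rfl⟩
    refine (Set.ncard_le_ncard (t := clusters (ofS S) (rect x1 x2 c d)) (fun C hC => hC.1)
      (clusters_finite _ (rect_finite _ _ _ _))).trans ?_
    rw [e1]
    exact Set.ncard_image_le (rect_finite _ _ _ _)
  set M := (rect x1 x2 c d).ncard with hM
  calc Ex p F (fun S => (NC (ofS S) x1 x2 c d : ℝ) ^ 2)
      ≤ Ex p F (fun S => ∑ k ∈ Finset.range M, (2 * (k : ℝ) + 1) * ind (DisjK A (k + 1)) S) := by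
        refine Ex_mono hp0 hp1' fun S _ => ?_
        rw [crossmom_sq _ M (hb S)]
        refine Finset.sum_le_sum fun k _ => ?_
        refine mul_le_mul_of_nonneg_left ?_ (by positivity)
        by_cases hk : k + 1 ≤ NC (ofS S) x1 x2 c d
        · rw [if_pos hk, ind_of (A := DisjK A (k + 1)) (crossmom_disjK hk)]
        · rw [if_neg hk]; exact ind_nonneg _ _
    _ = ∑ k ∈ Finset.range M, (2 * (k : ℝ) + 1) * Pool.Agent.Perc.Pr p F (DisjK A (k + 1)) := by
        rw [Ex_sum]
        refine Finset.sum_congr rfl fun k _ => ?_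
        rw [Ex_const_mul]
        rfl
    _ ≤ ∑ k ∈ Finset.range M, (2 * (k : ℝ) + 1) * q ^ (k + 1) := by
        refine Finset.sum_le_sum fun k _ => ?_
        refine mul_le_mul_of_nonneg_left ?_ (by positivity)
        exact (bk_pow hp0 hp1' hUp (k + 1)).trans (pow_le_pow_left₀ hPA0 hPA _)
    _ ≤ ∑' k : ℕ, (2 * (k : ℝ) + 1) * q ^ (k + 1) :=
        hsum.sum_le_tsum _ fun k _ => by positivity

end Pool.Agent.H29.Kap

end

section

/-! # Second differences of cluster counts are bounded by the number of crossing clusters -/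

set_option autoImplicit false

namespace Pool.Agent.H29.Kap

open Pool.Agent.H89.Perc

/-- A cluster of a larger set which is contained in a smaller set is a cluster there. -/
theorem seconddiff_cluster_of_subset {ω : Config} {S S' : Set Vert} (hSS : S ⊆ S')
    {C : Set Vert} (hC : C ∈ clusters ω S') (hCS : C ⊆ S) : C ∈ clusters ω S := by
  obtain ⟨v, hv, rfl⟩ := hC
  have hvC : v ∈ {w | Conn ω S' v w} := Conn.refl hv
  refine ⟨v, hCS hvC, ?_⟩
  ext w
  constructor
  · intro hw
    refine Conn.induction_right (P := fun x => Conn ω S v x) hw (Conn.refl (hCS hvC)) ?_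
    intro a b hva hab ha
    exact ha.tail ⟨ha.mem_right, hCS (hva.tail hab), hab.2.2⟩
  · intro hw
    exact Conn.mono_set hSS hw

/-- A cluster of a smaller set which cannot be left inside the larger set is a cluster there. -/
theorem seconddiff_cluster_of_closed {ω : Config} {S S' : Set Vert} (hSS : S ⊆ S')
    {C : Set Vert} (hC : C ∈ clusters ω S)
    (hcl : ∀ w ∈ C, ∀ w', Step ω S' w w' → w' ∈ S) : C ∈ clusters ω S' := by
  obtain ⟨v, hv, rfl⟩ := hC
  refine ⟨v, hSS hv, ?_⟩
  ext w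
  constructor
  · intro hw
    exact Conn.mono_set hSS hw
  · intro hw
    refine Conn.induction_right (P := fun x => Conn ω S v x) hw (Conn.refl hv) ?_
    intro a b hva hab ha
    exact ha.tail ⟨ha.mem_right, hcl a ha b hab, hab.2.2⟩

/-- Counting by touching clusters. -/
theorem seconddiff_ncard_le {ω : Config} {S S' : Set Vert} (hSS : S ⊆ S')
    {A B : Set (Set Vert)} (hA : A ⊆ clusters ω S') (hB : B ⊆ clusters ω S) (hfin : B.Finite)
    (h : ∀ C ∈ A, ∃ D ∈ B, ∃ v, v ∈ C ∧ v ∈ D) : A.ncard ≤ B.ncard := by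
  classical
  choose! f hf v hv1 hv2 using h
  refine Set.ncard_le_ncard_of_injOn f hf ?_ hfin
  intro C hC C' hC' hff
  have h1 : v C' ∈ f C := by
    rw [hff]
    exact hv2 C' hC'
  have h2 := mem_cluster_iff (hB (hf C hC)) (hv2 C hC)
  rw [h2] at h1
  have h3 : Conn ω S' (v C) (v C') := Conn.mono_set hSS h1
  have h4 := mem_cluster_iff (hA hC) (hv1 C hC)
  have h5 : v C' ∈ C := by
    rw [h4]
    exact h3
  rw [mem_cluster_iff (hA hC) h5]
  exact (mem_cluster_iff (hA hC') (hv1 C' hC')).symm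

theorem seconddiff_mem_rect {a b c d : ℤ} {v : Vert} :
    v ∈ rect a b c d ↔ a ≤ v.1 ∧ v.1 ≤ b ∧ c ≤ v.2 ∧ v.2 ≤ d := Iff.rfl

/-- the cluster of `v` in `S` -/
theorem seconddiff_mk {ω : Config} {S : Set Vert} {v : Vert} (hv : v ∈ S) :
    {w | Conn ω S v w} ∈ clusters ω S := ⟨v, hv, rfl⟩

/-- clusters to the left of `x2` -/
theorem seconddiff_left {ω : Config} {a b c d x : ℤ} (hxb : x ≤ b) :
    {C | C ∈ clusters ω (rect a b c d) ∧ ∀ v ∈ C, v.1 < x} =
      {C | C ∈ clusters ω (rect a x c d) ∧ ∀ v ∈ C, v.1 < x} := by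
  have hSS : rect a x c d ⊆ rect a b c d := fun v hv =>
    ⟨hv.1, hv.2.1.trans hxb, hv.2.2⟩
  ext C
  constructor
  · rintro ⟨h1, h2⟩
    refine ⟨seconddiff_cluster_of_subset hSS h1 ?_, h2⟩
    intro v hv
    have h3 := cluster_subset h1 hv
    exact ⟨h3.1, (h2 v hv).le, h3.2.2⟩
  · rintro ⟨h1, h2⟩
    refine ⟨seconddiff_cluster_of_closed hSS h1 ?_, h2⟩
    intro w hw w' hst
    have h3 := h2 w hw
    have h4 := hst.2.1
    have h5 := hst.fst_le
    rw [seconddiff_mem_rect] at h4 ⊢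
    omega

/-- clusters split according to whether they reach `x` -/
theorem seconddiff_split {ω : Config} {a b c d : ℤ} (x : ℤ) :
    K ω (rect a b c d) =
      {C | C ∈ clusters ω (rect a b c d) ∧ ∃ v ∈ C, x ≤ v.1}.ncard +
        {C | C ∈ clusters ω (rect a b c d) ∧ ∀ v ∈ C, v.1 < x}.ncard := by
  have hfin := clusters_finite ω (rect_finite a b c d)
  have f1 : {C | C ∈ clusters ω (rect a b c d) ∧ ∃ v ∈ C, x ≤ v.1}.Finite :=
    hfin.subset fun C hC => hC.1
  have f2 : {C | C ∈ clusters ω (rect a b c d) ∧ ∀ v ∈ C, v.1 < x}.Finite :=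
    hfin.subset fun C hC => hC.1
  unfold K
  rw [← Set.ncard_union_eq ?_ f1 f2]
  · congr 1
    ext C
    constructor
    · intro hC
      by_cases h : ∃ v ∈ C, x ≤ v.1
      · exact Or.inl ⟨hC, h⟩
      · push Not at h
        exact Or.inr ⟨hC, h⟩
    · rintro (h | h)
      · exact h.1
      · exact h.1
  · rw [Set.disjoint_left]
    rintro C ⟨-, v, hv, hv'⟩ ⟨-, h⟩
    have := h v hv
    omega

theorem second_diff_free {ω : Config} {x0 x1 x2 x3 c d : ℤ} (h01 : x0 ≤ x1) (h12 : x1 ≤ x2)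
    (h23 : x2 ≤ x3) :
    |(K ω (rect x0 x3 c d) : ℤ) - K ω (rect x0 x2 c d) - K ω (rect x1 x3 c d)
      + K ω (rect x1 x2 c d)| ≤ NC ω x1 x2 c d := by
  have fI := clusters_finite ω (rect_finite x1 x2 c d)
  have fA := clusters_finite ω (rect_finite x0 x2 c d)
  have fB := clusters_finite ω (rect_finite x1 x3 c d)
  have fU := clusters_finite ω (rect_finite x0 x3 c d)
  have sIA : rect x1 x2 c d ⊆ rect x0 x2 c d := fun v hv => ⟨h01.trans hv.1, hv.2⟩
  have sBU : rect x1 x3 c d ⊆ rect x0 x3 c d := fun v hv => ⟨h01.trans hv.1, hv.2⟩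
  have sIB : rect x1 x2 c d ⊆ rect x1 x3 c d := fun v hv => ⟨hv.1, hv.2.1.trans h23, hv.2.2⟩
  rw [seconddiff_split x2 (a := x0) (b := x3), seconddiff_split x2 (a := x0) (b := x2),
    seconddiff_split x2 (a := x1) (b := x3), seconddiff_split x2 (a := x1) (b := x2),
    seconddiff_left (a := x0) h23, seconddiff_left (a := x1) h23]
  set U1 := {C | C ∈ clusters ω (rect x0 x3 c d) ∧ ∃ v ∈ C, x2 ≤ v.1} with hU1
  set A1 := {C | C ∈ clusters ω (rect x0 x2 c d) ∧ ∃ v ∈ C, x2 ≤ v.1} with hA1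
  set B1 := {C | C ∈ clusters ω (rect x1 x3 c d) ∧ ∃ v ∈ C, x2 ≤ v.1} with hB1
  set I1 := {C | C ∈ clusters ω (rect x1 x2 c d) ∧ ∃ v ∈ C, x2 ≤ v.1} with hI1
  set N1 := {C | C ∈ clusters ω (rect x1 x2 c d) ∧ (∃ u ∈ C, u.1 = x1) ∧ ∃ v ∈ C, v.1 = x2}
    with hN1
  have hNC : NC ω x1 x2 c d = N1.ncard := rfl
  have fN1 : N1.Finite := fI.subset fun C hC => hC.1
  have fI1 : I1.Finite := fI.subset fun C hC => hC.1
  have fA1 : A1.Finite := fA.subset fun C hC => hC.1
  have fB1 : B1.Finite := fB.subset fun C hC => hC.1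
  have fU1 : U1.Finite := fU.subset fun C hC => hC.1
  -- the four inequalities
  have i1 : A1.ncard ≤ I1.ncard := by
    refine seconddiff_ncard_le sIA (fun C hC => hC.1) (fun C hC => hC.1) fI1 ?_
    rintro C ⟨hC, v, hv, hv2⟩
    have h3 := cluster_subset hC hv
    have h4 : v ∈ rect x1 x2 c d := ⟨h12.trans hv2, h3.2⟩
    exact ⟨_, ⟨seconddiff_mk h4, v, Conn.refl h4, hv2⟩, v, hv, Conn.refl h4⟩
  have i2 : I1.ncard ≤ A1.ncard + N1.ncard := by
    refine (Set.ncard_le_ncard ?_ (fA1.union fN1)).trans (Set.ncard_union_le A1 N1)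
    rintro C ⟨hC, v, hv, hv2⟩
    by_cases h : ∃ u ∈ C, u.1 = x1
    · right
      refine ⟨hC, h, v, hv, ?_⟩
      have h3 := cluster_subset hC hv
      exact le_antisymm h3.2.1 hv2
    · left
      refine ⟨seconddiff_cluster_of_closed sIA hC ?_, v, hv, hv2⟩
      intro w hw w' hst
      have h3 : w.1 ≠ x1 := fun h' => h ⟨w, hw, h'⟩
      have h4 := hst.2.1
      have h5 := hst.fst_le
      have h6 := cluster_subset hC hw
      rw [seconddiff_mem_rect] at h4 h6 ⊢
      omega
  have i3 : U1.ncard ≤ B1.ncard := by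
    refine seconddiff_ncard_le sBU (fun C hC => hC.1) (fun C hC => hC.1) fB1 ?_
    rintro C ⟨hC, v, hv, hv2⟩
    have h3 := cluster_subset hC hv
    have h4 : v ∈ rect x1 x3 c d := ⟨h12.trans hv2, h3.2⟩
    exact ⟨_, ⟨seconddiff_mk h4, v, Conn.refl h4, hv2⟩, v, hv, Conn.refl h4⟩
  have i4 : B1.ncard ≤ U1.ncard + N1.ncard := by
    have h1 : B1 ⊆ U1 ∪ {C | C ∈ B1 ∧ ∃ u ∈ C, u.1 = x1} := by
      rintro C ⟨hC, v, hv, hv2⟩
      by_cases h : ∃ u ∈ C, u.1 = x1
      · exact Or.inr ⟨⟨hC, v, hv, hv2⟩, h⟩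
      · left
        refine ⟨seconddiff_cluster_of_closed sBU hC ?_, v, hv, hv2⟩
        intro w hw w' hst
        have h3 : w.1 ≠ x1 := fun h' => h ⟨w, hw, h'⟩
        have h4 := hst.2.1
        have h5 := hst.fst_le
        have h6 := cluster_subset hC hw
        rw [seconddiff_mem_rect] at h4 h6 ⊢
        omega
    have f2 : {C | C ∈ B1 ∧ ∃ u ∈ C, u.1 = x1}.Finite := fB1.subset fun C hC => hC.1
    refine (Set.ncard_le_ncard h1 (fU1.union f2)).trans ((Set.ncard_union_le _ _).trans ?_)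
    gcongr ?_ + ?_
    · exact le_rfl
    · refine seconddiff_ncard_le sIB (fun C hC => hC.1.1) (fun C hC => hC.1) fN1 ?_
      rintro C ⟨⟨hC, v, hv, hv2⟩, u, hu, hu1⟩
      have h3 : Conn ω (rect x1 x3 c d) u v := by
        rw [mem_cluster_iff hC hu] at hv
        exact hv
      obtain ⟨u', v', h4, h5, h6, h7, -⟩ := h3.cross_x (a := x1) (b := x2) hu1.le hv2 h12
      have h8 : Conn ω (rect x1 x2 c d) u' v' := by
        refine h6.mono_set ?_
        rintro w ⟨hw1, hw2⟩
        exact ⟨hw2.1, hw2.2, hw1.2.2⟩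
      refine ⟨_, ⟨seconddiff_mk h8.mem_left, ⟨u', Conn.refl h8.mem_left, h4⟩, v', h8, h5⟩, u', ?_,
        Conn.refl h8.mem_left⟩
      rw [mem_cluster_iff hC hu]
      exact h7
  rw [hNC, abs_le]
  push_cast
  constructor <;> omega

/-- inner clusters of a smaller rectangle are inner clusters of a larger one -/
theorem seconddiff_inner_mono {ω : Config} {a b a' b' c d : ℤ} (ha : a ≤ a') (hb : b' ≤ b) :
    {C | C ∈ clusters ω (rect a' b' c d) ∧ Disjoint C (bd a' b' c d)} ⊆
      {C | C ∈ clusters ω (rect a b c d) ∧ Disjoint C (bd a b c d)} := by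
  have hSS : rect a' b' c d ⊆ rect a b c d := fun v hv =>
    ⟨ha.trans hv.1, hv.2.1.trans hb, hv.2.2⟩
  rintro C ⟨h1, h2⟩
  rw [Set.disjoint_left] at h2
  refine ⟨seconddiff_cluster_of_closed hSS h1 ?_, ?_⟩
  · intro w hw w' hst
    have h3 := cluster_subset h1 hw
    have h4 : ¬ (w.1 = a' ∨ w.1 = b' ∨ w.2 = c ∨ w.2 = d) := fun h => h2 hw ⟨h3, h⟩
    have h5 := hst.fst_le
    have h6 := hst.snd_le
    rw [seconddiff_mem_rect] at h3 ⊢
    omega
  · rw [Set.disjoint_left]
    rintro v hv ⟨hv1, hv2⟩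
    have h3 := cluster_subset h1 hv
    apply h2 hv
    refine ⟨h3, ?_⟩
    rw [seconddiff_mem_rect] at h3
    omega

theorem second_diff_wired {ω : Config} {x0 x1 x2 x3 c d : ℤ} (h01 : x0 ≤ x1) (h12 : x1 ≤ x2)
    (h23 : x2 ≤ x3) :
    |(J ω (rect x0 x3 c d) (bd x0 x3 c d) : ℤ) - J ω (rect x0 x2 c d) (bd x0 x2 c d)
      - J ω (rect x1 x3 c d) (bd x1 x3 c d) + J ω (rect x1 x2 c d) (bd x1 x2 c d)|
      ≤ NC ω x1 x2 c d := by
  have fI := clusters_finite ω (rect_finite x1 x2 c d)
  have fA := clusters_finite ω (rect_finite x0 x2 c d)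
  have fB := clusters_finite ω (rect_finite x1 x3 c d)
  have fU := clusters_finite ω (rect_finite x0 x3 c d)
  have sAU : rect x0 x2 c d ⊆ rect x0 x3 c d := fun v hv => ⟨hv.1, hv.2.1.trans h23, hv.2.2⟩
  have sBU : rect x1 x3 c d ⊆ rect x0 x3 c d := fun v hv => ⟨h01.trans hv.1, hv.2⟩
  have sIU : rect x1 x2 c d ⊆ rect x0 x3 c d := fun v hv =>
    ⟨h01.trans hv.1, hv.2.1.trans h23, hv.2.2⟩
  have sIA : rect x1 x2 c d ⊆ rect x0 x2 c d := fun v hv => ⟨h01.trans hv.1, hv.2⟩
  unfold J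
  set U1 := {C | C ∈ clusters ω (rect x0 x3 c d) ∧ Disjoint C (bd x0 x3 c d)} with hU1
  set A1 := {C | C ∈ clusters ω (rect x0 x2 c d) ∧ Disjoint C (bd x0 x2 c d)} with hA1
  set B1 := {C | C ∈ clusters ω (rect x1 x3 c d) ∧ Disjoint C (bd x1 x3 c d)} with hB1
  set I1 := {C | C ∈ clusters ω (rect x1 x2 c d) ∧ Disjoint C (bd x1 x2 c d)} with hI1
  set N1 := {C | C ∈ clusters ω (rect x1 x2 c d) ∧ (∃ u ∈ C, u.1 = x1) ∧ ∃ v ∈ C, v.1 = x2}
    with hN1
  have hNC : NC ω x1 x2 c d = N1.ncard := rfl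
  have fN1 : N1.Finite := fI.subset fun C hC => hC.1
  have fA1 : A1.Finite := fA.subset fun C hC => hC.1
  have fB1 : B1.Finite := fB.subset fun C hC => hC.1
  have fU1 : U1.Finite := fU.subset fun C hC => hC.1
  have hAU : A1 ⊆ U1 := seconddiff_inner_mono le_rfl h23
  have hBU : B1 ⊆ U1 := seconddiff_inner_mono h01 le_rfl
  have hIA : I1 ⊆ A1 := seconddiff_inner_mono h01 le_rfl
  have hIB : I1 ⊆ B1 := seconddiff_inner_mono le_rfl h23
  have hAB : A1 ∩ B1 = I1 := by
    apply Set.Subset.antisymm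
    · rintro C ⟨⟨h1, h2⟩, h3, h4⟩
      rw [Set.disjoint_left] at h2 h4
      refine ⟨seconddiff_cluster_of_subset sIA h1 ?_, ?_⟩
      · intro v hv
        exact ⟨(cluster_subset h3 hv).1, (cluster_subset h1 hv).2⟩
      · rw [Set.disjoint_left]
        rintro v hv ⟨hv1, hv2⟩
        have h5 := cluster_subset h1 hv
        have h6 := cluster_subset h3 hv
        rcases hv2 with h | h | h | h
        · exact h4 hv ⟨h6, Or.inl h⟩
        · exact h2 hv ⟨h5, Or.inr (Or.inl h)⟩
        · exact h2 hv ⟨h5, Or.inr (Or.inr (Or.inl h))⟩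
        · exact h2 hv ⟨h5, Or.inr (Or.inr (Or.inr h))⟩
    · exact Set.subset_inter hIA hIB
  have e1 : (A1 ∪ B1).ncard + I1.ncard = A1.ncard + B1.ncard := by
    rw [← hAB]
    exact Set.ncard_union_add_ncard_inter A1 B1 fA1 fB1
  have e2 : (U1 \ (A1 ∪ B1)).ncard + (A1 ∪ B1).ncard = U1.ncard :=
    Set.ncard_sdiff_add_ncard_of_subset (Set.union_subset hAU hBU) fU1
  have e3 : (U1 \ (A1 ∪ B1)).ncard ≤ N1.ncard := by
    refine seconddiff_ncard_le sIU (fun C hC => hC.1.1) (fun C hC => hC.1) fN1 ?_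
    rintro C ⟨⟨h1, h2⟩, h3⟩
    rw [Set.disjoint_left] at h2
    have hu : ∃ u ∈ C, u.1 ≤ x1 := by
      by_contra hcon
      push Not at hcon
      apply h3
      right
      refine ⟨seconddiff_cluster_of_subset sBU h1 ?_, ?_⟩
      · intro v hv
        exact ⟨(hcon v hv).le, (cluster_subset h1 hv).2⟩
      · rw [Set.disjoint_left]
        rintro v hv ⟨hv1, hv2⟩
        have h5 := cluster_subset h1 hv
        have h6 := hcon v hv
        rcases hv2 with h | h | h | h
        · omega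
        · exact h2 hv ⟨h5, Or.inr (Or.inl h)⟩
        · exact h2 hv ⟨h5, Or.inr (Or.inr (Or.inl h))⟩
        · exact h2 hv ⟨h5, Or.inr (Or.inr (Or.inr h))⟩
    have hv : ∃ v ∈ C, x2 ≤ v.1 := by
      by_contra hcon
      push Not at hcon
      apply h3
      left
      refine ⟨seconddiff_cluster_of_subset sAU h1 ?_, ?_⟩
      · intro v hv
        have h5 := cluster_subset h1 hv
        exact ⟨h5.1, (hcon v hv).le, h5.2.2⟩
      · rw [Set.disjoint_left]
        rintro v hv ⟨hv1, hv2⟩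
        have h5 := cluster_subset h1 hv
        have h6 := hcon v hv
        rcases hv2 with h | h | h | h
        · exact h2 hv ⟨h5, Or.inl h⟩
        · omega
        · exact h2 hv ⟨h5, Or.inr (Or.inr (Or.inl h))⟩
        · exact h2 hv ⟨h5, Or.inr (Or.inr (Or.inr h))⟩
    obtain ⟨u, hu, hu1⟩ := hu
    obtain ⟨v, hv, hv1⟩ := hv
    have h4 : Conn ω (rect x0 x3 c d) u v := by
      rw [mem_cluster_iff h1 hu] at hv
      exact hv
    obtain ⟨u', v', h5, h6, h7, h8, -⟩ := h4.cross_x (a := x1) (b := x2) hu1 hv1 h12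
    have h9 : Conn ω (rect x1 x2 c d) u' v' := by
      refine h7.mono_set ?_
      rintro w ⟨hw1, hw2⟩
      exact ⟨hw2.1, hw2.2, hw1.2.2⟩
    refine ⟨_, ⟨seconddiff_mk h9.mem_left, ⟨u', Conn.refl h9.mem_left, h5⟩, v', h9, h6⟩, u', ?_,
      Conn.refl h9.mem_left⟩
    rw [mem_cluster_iff h1 hu]
    exact h8
  rw [hNC, abs_le]
  constructor <;> omega

end Pool.Agent.H29.Kap

end

section

/-! # Stability of the set `R` under changes of an edge without open arm -/

set_option autoImplicit false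

namespace Pool.Agent.H29.Kap

open Pool.Agent.H89.Perc

/-- The boundary ring of a rectangle is connected. -/
theorem stabA_ring {a b c d : ℤ} (hab : a ≤ b) (hcd : c ≤ d) {u : Vert} (hu : u ∈ bd a b c d) :
    Conn allOpen (bd a b c d) (b, d) u := by
  have hmem : ∀ x y : ℤ, a ≤ x → x ≤ b → c ≤ y → y ≤ d →
      (x = a ∨ x = b ∨ y = c ∨ y = d) → ((x, y) : Vert) ∈ bd a b c d := by
    intro x y h1 h2 h3 h4 h5
    exact ⟨⟨h1, h2, h3, h4⟩, h5⟩
  obtain ⟨x, y⟩ := u
  obtain ⟨⟨h1, h2, h3, h4⟩, h5⟩ := hu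
  simp only at h1 h2 h3 h4 h5
  have right : ∀ y : ℤ, c ≤ y → y ≤ d → Conn allOpen (bd a b c d) (b, d) (b, y) := by
    intro y hy1 hy2
    exact (conn_line_y (S := bd a b c d) hy2 fun z k1 k2 =>
      hmem _ _ (by omega) (by omega) (by omega) (by omega) (by omega)).symm
  have top : ∀ x : ℤ, a ≤ x → x ≤ b → Conn allOpen (bd a b c d) (b, d) (x, d) := by
    intro x hx1 hx2
    exact (conn_line_x (S := bd a b c d) hx2 fun z k1 k2 =>
      hmem _ _ (by omega) (by omega) (by omega) (by omega) (by omega)).symm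
  rcases h5 with h5 | h5 | h5 | h5
  · subst h5
    exact (top x (by omega) (by omega)).trans (conn_line_y (S := bd x b c d) h4 fun z k1 k2 =>
      hmem _ _ (by omega) (by omega) (by omega) (by omega) (by omega)).symm
  · subst h5
    exact right y h3 h4
  · subst h5
    exact (right y (by omega) (by omega)).trans (conn_line_x (S := bd a b y d) h2 fun z k1 k2 =>
      hmem _ _ (by omega) (by omega) (by omega) (by omega) (by omega)).symm
  · subst h5
    exact top x h1 h2

theorem stabA_tgt_faces (e : Edge) {F : Vert} (hF : F = src e ∨ F = lowFace e) :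
    (F = src e ∨ F = ((src e).1 - 1, (src e).2) ∨ F = ((src e).1, (src e).2 - 1) ∨
      F = ((src e).1 - 1, (src e).2 - 1)) ∧
    (F = tgt e ∨ F = ((tgt e).1 - 1, (tgt e).2) ∨ F = ((tgt e).1, (tgt e).2 - 1) ∨
      F = ((tgt e).1 - 1, (tgt e).2 - 1)) := by
  obtain ⟨x, y, t⟩ := e
  cases t <;> rcases hF with rfl | rfl <;> simp [src, tgt, lowFace]

/-- The main case of `stabA`. -/
theorem stabA_core {ω : Config} {a b c d : ℤ} {g e : Edge} (hg : g ∈ redges a b c d)
    (he : e ∈ redges a b c d) (h : ¬ OArm ω a b c d g) (hge : e ≠ g)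
    (hO : ∃ u, (u = src e ∨ u = tgt e) ∧ ∃ w ∈ bd a b c d,
      Conn (Function.update (Function.update ω g false) e false) (rect a b c d) u w)
    (hC : CArm (Function.update ω g false) a b c d e) :
    CArm (Function.update ω g true) a b c d e := by
  classical
  by_contra hno
  obtain ⟨hg1, hg2⟩ := mem_redges.1 hg
  obtain ⟨he1, he2⟩ := mem_redges.1 he
  have hab : a ≤ b := le_trans hg1.1 hg1.2.1
  have hcd : c ≤ d := le_trans hg1.2.2.1 hg1.2.2.2
  set D : Set Vert := rect a b c d with hD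
  set T : Set Vert := rect (a - 1) b (c - 1) d with hT
  set ω1 : Config := Function.update (Function.update ω g true) e true with hω1
  set ω0 : Config := Function.update (Function.update ω g false) e false with hω0
  -- faces of an edge of `D`
  have hface : ∀ f : Edge, src f ∈ D → tgt f ∈ D → src f ∈ T ∧ lowFace f ∈ T := by
    rintro ⟨x, y, t⟩ k1 k2
    rw [hD] at k1 k2
    rw [hT]
    cases t <;>
    · simp only [src, tgt, lowFace, rect, Set.mem_ofPred_eq, if_true, Bool.false_eq_true,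
        if_false] at k1 k2 ⊢
      omega
  set FF : Set Vert := {G | ∃ F, (F = src e ∨ F = lowFace e) ∧ Conn (dual ω1) T F G} with hFF
  have hFFbd : ∀ G ∈ FF, G ∉ bd (a - 1) b (c - 1) d := by
    rintro G ⟨F, k1, k2⟩ k3
    exact hno ⟨F, k1, G, k3, k2⟩
  have hFFT : ∀ G ∈ FF, G ∈ T := by
    rintro G ⟨F, k1, k2⟩
    exact k2.mem_right
  have hFF1 : src e ∈ FF := ⟨_, Or.inl rfl, Conn.refl (hface e he1 he2).1⟩
  have hFF2 : lowFace e ∈ FF := ⟨_, Or.inr rfl, Conn.refl (hface e he1 he2).2⟩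
  set χ : Vert → ZMod 2 := fun G => if G ∈ FF then 1 else 0 with hχ
  set z : Edge → ZMod 2 := fun f => χ (src f) + χ (lowFace f) with hz
  have hzv : ∀ V, vsum z V = 0 := by
    intro V
    simp only [vsum, hz, src, lowFace, if_true, Bool.false_eq_true, if_false]
    linear_combination z2_add_self (χ (V.1, V.2)) + z2_add_self (χ (V.1 - 1, V.2)) +
      z2_add_self (χ (V.1, V.2 - 1)) + z2_add_self (χ (V.1 - 1, V.2 - 1))
  have hze : z e = 0 := by
    simp only [hz, hχ]
    rw [if_pos hFF1, if_pos hFF2]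
    decide
  -- an edge with `z ≠ 0` is an edge of `D`
  have hzD : ∀ f, z f ≠ 0 → src f ∈ D ∧ tgt f ∈ D := by
    rintro ⟨x, y, t⟩ k
    have k1 : src (x, y, t) ∈ FF ∨ lowFace (x, y, t) ∈ FF := by
      by_contra k2
      push Not at k2
      apply k
      simp only [hz, hχ]
      rw [if_neg k2.1, if_neg k2.2]
      decide
    have k2 : ∀ G ∈ FF, a ≤ G.1 ∧ G.1 ≤ b - 1 ∧ c ≤ G.2 ∧ G.2 ≤ d - 1 := by
      intro G hG
      have k3 := hFFT G hG
      have k4 := hFFbd G hG
      have k5 : ¬ (G.1 = a - 1 ∨ G.1 = b ∨ G.2 = c - 1 ∨ G.2 = d) := fun k6 => k4 ⟨k3, k6⟩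
      rw [hT] at k3
      simp only [rect, Set.mem_ofPred_eq] at k3
      omega
    rw [hD]
    rcases k1 with k1 | k1 <;> have k3 := k2 _ k1 <;> cases t <;>
    · simp only [src, tgt, lowFace, rect, Set.mem_ofPred_eq, if_true, Bool.false_eq_true,
        if_false] at k3 ⊢
      omega
  have hzopen : ∀ f, z f ≠ 0 → ω1 f = true := by
    intro f k
    by_contra k1
    rw [Bool.not_eq_true] at k1
    obtain ⟨k2, k3⟩ := hzD f k
    obtain ⟨k4, k5⟩ := hface f k2 k3
    have k6 : Step (dual ω1) T (lowFace f) (src f) := dual_step k1 k5 k4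
    have k7 : src f ∈ FF ↔ lowFace f ∈ FF := by
      constructor
      · rintro ⟨F, k8, k9⟩
        exact ⟨F, k8, k9.tail k6.symm⟩
      · rintro ⟨F, k8, k9⟩
        exact ⟨F, k8, k9.tail k6⟩
    apply k
    simp only [hz, hχ, k7]
    exact z2_add_self _
  set O : Set Vert := {v | ∃ w ∈ bd a b c d, Conn ω0 D v w} with hOdef
  have hgO : ∀ v, (v = src g ∨ v = tgt g) → v ∉ O := by
    rintro v k1 ⟨w, k2, k3⟩
    refine h ⟨v, k1, w, k2, k3.mono (le_refl _) ?_⟩
    intro f k4
    rw [hω0] at k4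
    by_cases k5 : f = e
    · subst k5
      rw [Function.update_self] at k4
      exact absurd k4 (by decide)
    · rw [Function.update_of_ne k5] at k4
      exact k4
  have hzO : ∀ f, z f ≠ 0 → (src f ∈ O ↔ tgt f ∈ O) := by
    intro f k
    by_cases k1 : f = g
    · subst k1
      exact ⟨fun k2 => absurd k2 (hgO _ (Or.inl rfl)), fun k2 => absurd k2 (hgO _ (Or.inr rfl))⟩
    · have k2 : f ≠ e := by
        rintro rfl
        exact k hze
      have k3 := hzopen f k
      rw [hω1, Function.update_of_ne k2, Function.update_of_ne k1] at k3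
      have k4 : ω0 f = true := by
        rw [hω0, Function.update_of_ne k2, Function.update_of_ne k1]
        exact k3
      obtain ⟨k5, k6⟩ := hzD f k
      have k7 : Step ω0 D (src f) (tgt f) := ⟨k5, k6, f, joins_src_tgt f, k4⟩
      constructor
      · rintro ⟨w, k8, k9⟩
        exact ⟨w, k8, k7.symm.conn.trans k9⟩
      · rintro ⟨w, k8, k9⟩
        exact ⟨w, k8, k7.conn.trans k9⟩
  set z' : Edge → ZMod 2 := fun f => if src f ∈ O then 0 else z f with hz'
  have hz'0 : ∀ f, z f = 0 → z' f = 0 := by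
    intro f k
    simp only [hz']
    split_ifs
    · rfl
    · exact k
  have hz'O : ∀ f, (src f ∈ O ∨ tgt f ∈ O) → z' f = 0 := by
    intro f k
    by_cases k1 : z f = 0
    · exact hz'0 f k1
    · have k2 : src f ∈ O := by
        rcases k with k | k
        · exact k
        · exact (hzO f k1).2 k
      simp only [hz']
      rw [if_pos k2]
  have hz'n : ∀ f, src f ∉ O → z' f = z f := by
    intro f k
    simp only [hz']
    rw [if_neg k]
  have hz'n2 : ∀ f, tgt f ∉ O → z' f = z f := by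
    intro f k
    by_cases k1 : z f = 0
    · rw [hz'0 f k1, k1]
    · exact hz'n f fun k2 => k ((hzO f k1).1 k2)
  have hz'v : ∀ V, vsum z' V = 0 := by
    intro V
    have s1 : src (V.1, V.2, false) = V := rfl
    have s2 : src (V.1, V.2, true) = V := rfl
    have s3 : tgt (V.1 - 1, V.2, false) = V := by simp [tgt]
    have s4 : tgt (V.1, V.2 - 1, true) = V := by simp [tgt]
    by_cases hV : V ∈ O
    · unfold vsum
      rw [hz'O _ (Or.inl (s1.symm ▸ hV)), hz'O _ (Or.inl (s2.symm ▸ hV)),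
        hz'O (V.1 - 1, V.2, false) (Or.inr (by rw [s3]; exact hV)),
        hz'O (V.1, V.2 - 1, true) (Or.inr (by rw [s4]; exact hV))]
      decide
    · rw [← hzv V]
      unfold vsum
      rw [hz'n _ (s1.symm ▸ hV), hz'n _ (s2.symm ▸ hV),
        hz'n2 (V.1 - 1, V.2, false) (by rw [s3]; exact hV),
        hz'n2 (V.1, V.2 - 1, true) (by rw [s4]; exact hV)]
  obtain ⟨W, hW⟩ := integRect (a := a - 1) (b := b) (c := c - 1) (d := d)
    (fun e' => z' (crossed e')) (by
      intro F _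
      have e1 : fsum (fun e' => z' (crossed e')) F = vsum z' (F.1 + 1, F.2 + 1) := by
        simp only [fsum, vsum, crossed, if_true, Bool.false_eq_true, if_false, add_sub_cancel_right]
        ring
      rw [e1, hz'v])
  -- the value of `W` across an edge
  have hWe : ∀ f : Edge, lowFace f ∈ T → src f ∈ T → z' f = W (lowFace f) + W (src f) := by
    intro f k1 k2
    have k3 := hW (uncross f) (by rw [src_uncross]; exact k1) (by rw [tgt_uncross]; exact k2)
    simp only [crossed_uncross, src_uncross, tgt_uncross] at k3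
    exact k3
  -- the ring
  have hWring : ∀ G ∈ bd (a - 1) b (c - 1) d, W (b, d) = W G := by
    intro G hG
    refine (stabA_ring (by omega) (by omega) hG).const fun f k1 k2 _ => ?_
    have k3 := hWe (crossed f) (by rw [← src_eq_lowFace_crossed]; exact k1.1)
      (by rw [← tgt_eq_src_crossed]; exact k2.1)
    have k4 : z (crossed f) = 0 := by
      simp only [hz, hχ]
      rw [← src_eq_lowFace_crossed, ← tgt_eq_src_crossed,
        if_neg (fun k5 => hFFbd _ k5 k1), if_neg (fun k5 => hFFbd _ k5 k2)]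
      decide
    rw [hz'0 _ k4, ← src_eq_lowFace_crossed, ← tgt_eq_src_crossed] at k3
    exact z2_add_eq_zero.1 k3.symm
  -- closed dual paths which avoid `g` and `e`
  have hWdual : ∀ F G : Vert, Conn (dual ω1) T F G → W F = W G := by
    intro F G hFG
    refine hFG.const fun f k1 k2 k3 => ?_
    have k4 := hWe (crossed f) (by rw [← src_eq_lowFace_crossed]; exact k1)
      (by rw [← tgt_eq_src_crossed]; exact k2)
    have k5 : z (crossed f) = 0 := by
      by_contra k6
      have k7 := hzopen _ k6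
      simp only [dual, k7] at k3
      exact absurd k3 (by decide)
    rw [hz'0 _ k5, ← src_eq_lowFace_crossed, ← tgt_eq_src_crossed] at k4
    exact z2_add_eq_zero.1 k4.symm
  -- around a vertex of `O`
  have hfaces : ∀ V ∈ D, V ∈ T ∧ ((V.1 - 1, V.2) : Vert) ∈ T ∧ ((V.1, V.2 - 1) : Vert) ∈ T ∧
      ((V.1 - 1, V.2 - 1) : Vert) ∈ T := by
    intro V hV
    rw [hD] at hV
    rw [hT]
    simp only [rect, Set.mem_ofPred_eq] at hV ⊢
    omega
  have hO_D : ∀ V ∈ O, V ∈ D := by
    rintro V ⟨w, _, k⟩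
    exact k.mem_left
  have hWV : ∀ V ∈ O, W (V.1 - 1, V.2) = W V ∧ W (V.1, V.2 - 1) = W V ∧
      W (V.1 - 1, V.2 - 1) = W V := by
    intro V hV
    obtain ⟨f1, f2, f3, f4⟩ := hfaces V (hO_D V hV)
    have s3 : tgt (V.1 - 1, V.2, false) = V := by simp [tgt]
    have s4 : tgt (V.1, V.2 - 1, true) = V := by simp [tgt]
    have k1 := hWe (V.1, V.2, true) (by simpa [lowFace] using f2) f1
    have k2 := hWe (V.1, V.2, false) (by simpa [lowFace] using f3) f1
    have k3 := hWe (V.1, V.2 - 1, true) (by simpa [lowFace] using f4) (by simpa [src] using f3)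
    rw [hz'O (V.1, V.2, true) (Or.inl hV)] at k1
    rw [hz'O (V.1, V.2, false) (Or.inl hV)] at k2
    rw [hz'O (V.1, V.2 - 1, true) (Or.inr (by rw [s4]; exact hV))] at k3
    simp only [lowFace, src, if_true, Bool.false_eq_true, if_false] at k1 k2 k3
    have k1' := z2_add_eq_zero.1 k1.symm
    have k2' := z2_add_eq_zero.1 k2.symm
    have k3' := z2_add_eq_zero.1 k3.symm
    exact ⟨k1', k2', k3'.trans k2'⟩
  have hWstep : ∀ f : Edge, src f ∈ O → tgt f ∈ O → W (src f) = W (tgt f) := by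
    rintro ⟨x, y, t⟩ k1 k2
    have k3 := hWV _ k2
    cases t
    · have e1 : ((tgt (x, y, false)).1 - 1, (tgt (x, y, false)).2) = src (x, y, false) := by
        simp [src, tgt]
      rw [e1] at k3
      exact k3.1
    · have e1 : ((tgt (x, y, true)).1, (tgt (x, y, true)).2 - 1) = src (x, y, true) := by
        simp [src, tgt]
      rw [e1] at k3
      exact k3.2.1
  have hWO : ∀ V w : Vert, w ∈ bd a b c d → Conn ω0 D V w → W V = W (b, d) := by
    intro V w hw hVw
    have key : Conn ω0 O V w := by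
      have hVw' := hVw.symm
      have k0 : Conn ω0 O w V := by
        refine hVw'.induction_right (P := fun x => Conn ω0 O w x)
          (Conn.refl ⟨w, hw, Conn.refl hVw'.mem_left⟩) ?_
        intro p q k1 k2 k3
        refine k3.tail ⟨k3.mem_right, ⟨w, hw, ?_⟩, k2.2.2⟩
        exact (k1.tail k2).symm
      exact k0.symm
    have k1 : W V = W w := key.const fun f k1 k2 _ => hWstep f k1 k2
    rw [k1]
    have hwO : w ∈ O := key.mem_right
    obtain ⟨hw1, hw2, hw3⟩ := hWV w hwO
    obtain ⟨f1, f2, f3, f4⟩ := hfaces w hw.1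
    rcases hw.2 with k2 | k2 | k2 | k2
    · rw [← hw1]
      exact (hWring _ ⟨f2, Or.inl (by simp only; omega)⟩).symm
    · exact (hWring _ ⟨f1, Or.inr (Or.inl k2)⟩).symm
    · rw [← hw2]
      exact (hWring _ ⟨f3, Or.inr (Or.inr (Or.inl (by simp only; omega)))⟩).symm
    · exact (hWring _ ⟨f1, Or.inr (Or.inr (Or.inr k2))⟩).symm
  -- the dual arm of `e`
  obtain ⟨F, hF, G, hG, hFG⟩ := hC
  have hWF : W F ≠ W (b, d) := by
    have e1 : dual (Function.update (Function.update ω g false) e true) =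
        Function.update (dual (Function.update ω e true)) (uncross g) true := by
      funext f
      by_cases k1 : f = uncross g
      · subst k1
        rw [Function.update_self]
        simp only [dual, crossed_uncross]
        rw [Function.update_of_ne hge.symm, Function.update_self]
        rfl
      · rw [Function.update_of_ne k1]
        have k2 : crossed f ≠ g := by
          rintro rfl
          exact k1 (uncross_crossed f).symm
        simp only [dual]
        by_cases k3 : crossed f = e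
        · rw [k3, Function.update_self, Function.update_self]
        · rw [Function.update_of_ne k3, Function.update_of_ne k3, Function.update_of_ne k2]
    have e2 : dual ω1 =
        Function.update (dual (Function.update ω e true)) (uncross g) false := by
      funext f
      by_cases k1 : f = uncross g
      · subst k1
        rw [Function.update_self, hω1]
        simp only [dual, crossed_uncross]
        rw [Function.update_of_ne hge.symm, Function.update_self]
        rfl
      · rw [Function.update_of_ne k1]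
        have k2 : crossed f ≠ g := by
          rintro rfl
          exact k1 (uncross_crossed f).symm
        simp only [dual, hω1]
        by_cases k3 : crossed f = e
        · rw [k3, Function.update_self, Function.update_self]
        · rw [Function.update_of_ne k3, Function.update_of_ne k3, Function.update_of_ne k2]
    rw [e1] at hFG
    rcases hFG.split_edge with k | ⟨u, v, k1, k2, k3⟩
    · rw [← e2] at k
      exact absurd ⟨F, hF, G, hG, k⟩ hno
    · rw [← e2] at k2 k3
      have k4 : u ∈ FF := ⟨F, hF, k2⟩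
      have k5 : v ∉ FF := by
        rintro ⟨F', k6, k7⟩
        exact hno ⟨F', k6, G, hG, k7.trans k3⟩
      have k6 : W u ≠ W v := by
        have k7 : z g = 1 := by
          simp only [hz, hχ]
          rcases k1 with ⟨k8, k9⟩ | ⟨k8, k9⟩
          · rw [src_uncross] at k8
            rw [tgt_uncross] at k9
            rw [← k8, ← k9, if_pos k4, if_neg k5]
            decide
          · rw [tgt_uncross] at k8
            rw [src_uncross] at k9
            rw [← k8, ← k9, if_pos k4, if_neg k5]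
            decide
        obtain ⟨k10, k11⟩ := hface g hg1 hg2
        have k12 := hWe g k11 k10
        rw [hz'n g (hgO _ (Or.inl rfl)), k7] at k12
        have k13 := z2_add_eq_one.1 k12.symm
        rcases k1 with ⟨k8, k9⟩ | ⟨k8, k9⟩
        · rw [src_uncross] at k8
          rw [tgt_uncross] at k9
          rw [k8, k9]
          exact k13
        · rw [tgt_uncross] at k8
          rw [src_uncross] at k9
          rw [k8, k9]
          exact k13.symm
      rw [hWdual F u k2, hWring G hG, ← hWdual v G k3]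
      exact k6
  obtain ⟨u, hu, w, hw, huw⟩ := hO
  have hWu : W u = W (b, d) := hWO u w hw huw
  have huO : u ∈ O := ⟨w, hw, huw⟩
  obtain ⟨m1, m2, m3⟩ := hWV u huO
  obtain ⟨n1, n2⟩ := stabA_tgt_faces e hF
  apply hWF
  rcases hu with rfl | rfl
  · rcases n1 with k | k | k | k <;> rw [k]
    · exact hWu
    · exact m1.trans hWu
    · exact m2.trans hWu
    · exact m3.trans hWu
  · rcases n2 with k | k | k | k <;> rw [k]
    · exact hWu
    · exact m1.trans hWu
    · exact m2.trans hWu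
    · exact m3.trans hWu

theorem stabA {ω : Config} {a b c d : ℤ} {g e : Edge} (hg : g ∈ redges a b c d)
    (h : ¬ OArm ω a b c d g) (hge : e ≠ g) :
    InR (Function.update ω g false) a b c d e ↔ InR (Function.update ω g true) a b c d e := by
  have hle : ∀ s : Bool, ∀ f, Function.update (Function.update ω g false) e s f = true →
      Function.update (Function.update ω g true) e s f = true := by
    intro s f k
    by_cases k1 : f = e
    · subst k1
      rw [Function.update_self] at k ⊢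
      exact k
    · rw [Function.update_of_ne k1] at k ⊢
      by_cases k2 : f = g
      · subst k2
        rw [Function.update_self] at k
        exact absurd k (by decide)
      · rw [Function.update_of_ne k2] at k ⊢
        exact k
  constructor
  · rintro ⟨he, hO, hC⟩
    refine ⟨he, ?_, stabA_core hg he h hge hO hC⟩
    obtain ⟨u, hu, w, hw, huw⟩ := hO
    exact ⟨u, hu, w, hw, huw.mono (le_refl _) (hle false)⟩
  · rintro ⟨he, hO, hC⟩
    refine ⟨he, ?_, ?_⟩
    · obtain ⟨u, hu, w, hw, huw⟩ := hO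
      have e1 : ∀ s : Bool, Function.update (Function.update ω g s) e false =
          Function.update (Function.update ω e false) g s := by
        intro s
        exact Function.update_comm hge.symm _ _ _
      rw [e1] at huw
      rcases huw.split_edge with k | ⟨u', v', k1, k2, k3⟩
      · rw [← e1] at k
        exact ⟨u, hu, w, hw, k⟩
      · exfalso
        refine h ⟨v', ?_, w, hw, k3.mono (le_refl _) ?_⟩
        · rcases k1 with ⟨_, k4⟩ | ⟨_, k4⟩
          · exact Or.inr k4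
          · exact Or.inl k4
        · intro f k4
          by_cases k5 : f = g
          · subst k5
            rw [Function.update_self] at k4
            exact absurd k4 (by decide)
          · rw [Function.update_of_ne k5] at k4 ⊢
            by_cases k6 : f = e
            · subst k6
              rw [Function.update_self] at k4
              exact absurd k4 (by decide)
            · rw [Function.update_of_ne k6] at k4
              exact k4
    · obtain ⟨F, hF, G, hG, hFG⟩ := hC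
      refine ⟨F, hF, G, hG, hFG.mono (le_refl _) ?_⟩
      intro f k
      simp only [dual, Bool.not_eq_true'] at k ⊢
      by_contra k1
      rw [Bool.not_eq_false] at k1
      rw [hle true _ k1] at k
      exact absurd k (by decide)

end Pool.Agent.H29.Kap

end

section

/-! # Stability of the set `R` under changes of an edge without closed dual arm -/

set_option autoImplicit false

namespace Pool.Agent.H29.Kap

open Pool.Agent.H89.Perc

/-- The boundary ring of a rectangle is connected. -/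
theorem stabB_ring {a b c d : ℤ} (hab : a ≤ b) (hcd : c ≤ d) {u : Vert} (hu : u ∈ bd a b c d) :
    Conn allOpen (bd a b c d) (b, d) u := by
  have hmem : ∀ x y : ℤ, a ≤ x → x ≤ b → c ≤ y → y ≤ d →
      (x = a ∨ x = b ∨ y = c ∨ y = d) → ((x, y) : Vert) ∈ bd a b c d := by
    intro x y h1 h2 h3 h4 h5
    exact ⟨⟨h1, h2, h3, h4⟩, h5⟩
  obtain ⟨x, y⟩ := u
  obtain ⟨⟨h1, h2, h3, h4⟩, h5⟩ := hu
  simp only at h1 h2 h3 h4 h5
  have right : ∀ y : ℤ, c ≤ y → y ≤ d → Conn allOpen (bd a b c d) (b, d) (b, y) := by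
    intro y hy1 hy2
    exact (conn_line_y (S := bd a b c d) hy2 fun z k1 k2 =>
      hmem _ _ (by omega) (by omega) (by omega) (by omega) (by omega)).symm
  have top : ∀ x : ℤ, a ≤ x → x ≤ b → Conn allOpen (bd a b c d) (b, d) (x, d) := by
    intro x hx1 hx2
    exact (conn_line_x (S := bd a b c d) hx2 fun z k1 k2 =>
      hmem _ _ (by omega) (by omega) (by omega) (by omega) (by omega)).symm
  rcases h5 with h5 | h5 | h5 | h5
  · subst h5
    exact (top x (by omega) (by omega)).trans (conn_line_y (S := bd x b c d) h4 fun z k1 k2 =>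
      hmem _ _ (by omega) (by omega) (by omega) (by omega) (by omega)).symm
  · subst h5
    exact right y h3 h4
  · subst h5
    exact (right y (by omega) (by omega)).trans (conn_line_x (S := bd a b y d) h2 fun z k1 k2 =>
      hmem _ _ (by omega) (by omega) (by omega) (by omega) (by omega)).symm
  · subst h5
    exact top x h1 h2

/-- The main case of `stabB`. -/
theorem stabB_core {ω : Config} {a b c d : ℤ} {g e : Edge} (hg : g ∈ redges a b c d)
    (he : e ∈ redges a b c d) (h : ¬ CArm ω a b c d g) (hge : e ≠ g)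
    (hO : OArm (Function.update ω g true) a b c d e)
    (hC : CArm (Function.update ω g true) a b c d e) :
    OArm (Function.update ω g false) a b c d e := by
  classical
  by_contra hno
  obtain ⟨hg1, hg2⟩ := mem_redges.1 hg
  obtain ⟨he1, he2⟩ := mem_redges.1 he
  have hab : a ≤ b := le_trans hg1.1 hg1.2.1
  have hcd : c ≤ d := le_trans hg1.2.2.1 hg1.2.2.2
  set D : Set Vert := rect a b c d with hD
  set T : Set Vert := rect (a - 1) b (c - 1) d with hT
  set ω1 : Config := Function.update (Function.update ω g true) e true with hω1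
  set ω0 : Config := Function.update (Function.update ω g false) e false with hω0
  -- faces of an edge of `D`
  have hface : ∀ f : Edge, src f ∈ D → tgt f ∈ D → src f ∈ T ∧ lowFace f ∈ T := by
    rintro ⟨x, y, t⟩ k1 k2
    rw [hD] at k1 k2
    rw [hT]
    cases t <;>
    · simp only [src, tgt, lowFace, rect, Set.mem_ofPred_eq, if_true, Bool.false_eq_true,
        if_false] at k1 k2 ⊢
      omega
  set C : Set Vert := {v | ∃ u, (u = src e ∨ u = tgt e) ∧ Conn ω0 D u v} with hCdef
  have hCbd : ∀ v ∈ C, v ∉ bd a b c d := by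
    rintro v ⟨u, k1, k2⟩ k3
    exact hno ⟨u, k1, v, k3, k2⟩
  have hCD : ∀ v ∈ C, v ∈ D := by
    rintro v ⟨u, k1, k2⟩
    exact k2.mem_right
  have hC1 : src e ∈ C := ⟨_, Or.inl rfl, Conn.refl he1⟩
  have hC2 : tgt e ∈ C := ⟨_, Or.inr rfl, Conn.refl he2⟩
  set χ : Vert → ZMod 2 := fun v => if v ∈ C then 1 else 0 with hχ
  set z : Edge → ZMod 2 := fun f => χ (src f) + χ (tgt f) with hz
  have hzf : ∀ F, fsum z F = 0 := by
    intro F
    simp only [fsum, hz, src, tgt, if_true, Bool.false_eq_true, if_false]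
    linear_combination z2_add_self (χ (F.1, F.2)) + z2_add_self (χ (F.1 + 1, F.2)) +
      z2_add_self (χ (F.1, F.2 + 1)) + z2_add_self (χ (F.1 + 1, F.2 + 1))
  have hze : z e = 0 := by
    simp only [hz, hχ]
    rw [if_pos hC1, if_pos hC2]
    decide
  -- an edge with `z ≠ 0` is an edge of `D`
  have hzD : ∀ f, z f ≠ 0 → src f ∈ D ∧ tgt f ∈ D := by
    rintro ⟨x, y, t⟩ k
    have k1 : src (x, y, t) ∈ C ∨ tgt (x, y, t) ∈ C := by
      by_contra k2
      push Not at k2
      apply k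
      simp only [hz, hχ]
      rw [if_neg k2.1, if_neg k2.2]
      decide
    have k2 : ∀ v ∈ C, a + 1 ≤ v.1 ∧ v.1 ≤ b - 1 ∧ c + 1 ≤ v.2 ∧ v.2 ≤ d - 1 := by
      intro v hv
      have k3 := hCD v hv
      have k4 := hCbd v hv
      have k5 : ¬ (v.1 = a ∨ v.1 = b ∨ v.2 = c ∨ v.2 = d) := fun k6 => k4 ⟨k3, k6⟩
      rw [hD] at k3
      simp only [rect, Set.mem_ofPred_eq] at k3
      omega
    rw [hD]
    rcases k1 with k1 | k1 <;> have k3 := k2 _ k1 <;> cases t <;>
    · simp only [src, tgt, rect, Set.mem_ofPred_eq, if_true, Bool.false_eq_true,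
        if_false] at k3 ⊢
      omega
  have hzclosed : ∀ f, z f ≠ 0 → ω0 f = false := by
    intro f k
    by_contra k1
    rw [Bool.not_eq_false] at k1
    obtain ⟨k2, k3⟩ := hzD f k
    have k6 : Step ω0 D (src f) (tgt f) := ⟨k2, k3, f, joins_src_tgt f, k1⟩
    have k7 : src f ∈ C ↔ tgt f ∈ C := by
      constructor
      · rintro ⟨F, k8, k9⟩
        exact ⟨F, k8, k9.tail k6⟩
      · rintro ⟨F, k8, k9⟩
        exact ⟨F, k8, k9.tail k6.symm⟩
    apply k
    simp only [hz, hχ, k7]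
    exact z2_add_self _
  set O : Set Vert := {v | ∃ w ∈ bd (a - 1) b (c - 1) d, Conn (dual ω1) T v w} with hOdef
  have hgO : ∀ v, (v = src g ∨ v = lowFace g) → v ∉ O := by
    rintro v k1 ⟨w, k2, k3⟩
    refine h ⟨v, k1, w, k2, k3.mono (le_refl _) ?_⟩
    intro f k4
    simp only [dual, hω1] at k4 ⊢
    by_cases k5 : crossed f = e
    · rw [k5, Function.update_self] at k4
      exact absurd k4 (by decide)
    · rw [Function.update_of_ne k5] at k4
      exact k4
  have hzO : ∀ f, z f ≠ 0 → (src f ∈ O ↔ lowFace f ∈ O) := by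
    intro f k
    by_cases k1 : f = g
    · subst k1
      exact ⟨fun k2 => absurd k2 (hgO _ (Or.inl rfl)), fun k2 => absurd k2 (hgO _ (Or.inr rfl))⟩
    · have k2 : f ≠ e := by
        rintro rfl
        exact k hze
      have k3 := hzclosed f k
      rw [hω0, Function.update_of_ne k2, Function.update_of_ne k1] at k3
      have k4 : ω1 f = false := by
        rw [hω1, Function.update_of_ne k2, Function.update_of_ne k1]
        exact k3
      obtain ⟨k5, k6⟩ := hzD f k
      obtain ⟨k5', k6'⟩ := hface f k5 k6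
      have k7 : Step (dual ω1) T (lowFace f) (src f) := dual_step k4 k6' k5'
      constructor
      · rintro ⟨w, k8, k9⟩
        exact ⟨w, k8, k7.conn.trans k9⟩
      · rintro ⟨w, k8, k9⟩
        exact ⟨w, k8, k7.symm.conn.trans k9⟩
  set z' : Edge → ZMod 2 := fun f => if src f ∈ O then 0 else z f with hz'
  have hz'0 : ∀ f, z f = 0 → z' f = 0 := by
    intro f k
    simp only [hz']
    split_ifs
    · rfl
    · exact k
  have hz'O : ∀ f, (src f ∈ O ∨ lowFace f ∈ O) → z' f = 0 := by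
    intro f k
    by_cases k1 : z f = 0
    · exact hz'0 f k1
    · have k2 : src f ∈ O := by
        rcases k with k | k
        · exact k
        · exact (hzO f k1).2 k
      simp only [hz']
      rw [if_pos k2]
  have hz'n : ∀ f, src f ∉ O → z' f = z f := by
    intro f k
    simp only [hz']
    rw [if_neg k]
  have hz'n2 : ∀ f, lowFace f ∉ O → z' f = z f := by
    intro f k
    by_cases k1 : z f = 0
    · rw [hz'0 f k1, k1]
    · exact hz'n f fun k2 => k ((hzO f k1).1 k2)
  have hz'f : ∀ F, fsum z' F = 0 := by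
    intro F
    have s1 : src (F.1, F.2, false) = F := rfl
    have s2 : lowFace (F.1 + 1, F.2, true) = F := by simp [lowFace]
    have s3 : lowFace (F.1, F.2 + 1, false) = F := by simp [lowFace]
    have s4 : src (F.1, F.2, true) = F := rfl
    by_cases hF : F ∈ O
    · unfold fsum
      rw [hz'O (F.1, F.2, false) (Or.inl (by rw [s1]; exact hF)),
        hz'O (F.1 + 1, F.2, true) (Or.inr (by rw [s2]; exact hF)),
        hz'O (F.1, F.2 + 1, false) (Or.inr (by rw [s3]; exact hF)),
        hz'O (F.1, F.2, true) (Or.inl (by rw [s4]; exact hF))]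
      decide
    · rw [← hzf F]
      unfold fsum
      rw [hz'n (F.1, F.2, false) (by rw [s1]; exact hF),
        hz'n2 (F.1 + 1, F.2, true) (by rw [s2]; exact hF),
        hz'n2 (F.1, F.2 + 1, false) (by rw [s3]; exact hF),
        hz'n (F.1, F.2, true) (by rw [s4]; exact hF)]
  obtain ⟨W, hW⟩ := integRect (a := a) (b := b) (c := c) (d := d) z' (fun F _ => hz'f F)
  -- the ring
  have hWring : ∀ v ∈ bd a b c d, W (b, d) = W v := by
    intro v hv
    refine (stabB_ring hab hcd hv).const fun f k1 k2 _ => ?_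
    have k3 := hW f k1.1 k2.1
    have k4 : z f = 0 := by
      simp only [hz, hχ]
      rw [if_neg (fun k5 => hCbd _ k5 k1), if_neg (fun k5 => hCbd _ k5 k2)]
      decide
    rw [hz'0 _ k4] at k3
    exact z2_add_eq_zero.1 k3.symm
  -- open paths which avoid `g` and `e`
  have hWopen : ∀ u v : Vert, Conn ω0 D u v → W u = W v := by
    intro u v huv
    refine huv.const fun f k1 k2 k3 => ?_
    have k4 := hW f k1 k2
    have k5 : z f = 0 := by
      by_contra k6
      have k7 := hzclosed _ k6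
      rw [k3] at k7
      exact absurd k7 (by decide)
    rw [hz'0 _ k5] at k4
    exact z2_add_eq_zero.1 k4.symm
  -- corners of faces in `O`
  have hcorner : ∀ F ∈ O, a ≤ F.1 → F.1 ≤ b - 1 → c ≤ F.2 → F.2 ≤ d - 1 →
      W (F.1 + 1, F.2) = W F ∧ W (F.1, F.2 + 1) = W F ∧ W (F.1 + 1, F.2 + 1) = W F := by
    intro F hF i1 i2 i3 i4
    have s1 : src (F.1, F.2, false) = F := rfl
    have s2 : lowFace (F.1 + 1, F.2, true) = F := by simp [lowFace]
    have s3 : lowFace (F.1, F.2 + 1, false) = F := by simp [lowFace]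
    have s4 : src (F.1, F.2, true) = F := rfl
    have k1 := hW (F.1, F.2, false)
      (by simp only [src, rect, Set.mem_ofPred_eq]; omega)
      (by simp only [tgt, rect, Set.mem_ofPred_eq, Bool.false_eq_true, if_false]; omega)
    have k2 := hW (F.1 + 1, F.2, true)
      (by simp only [src, rect, Set.mem_ofPred_eq]; omega)
      (by simp only [tgt, rect, Set.mem_ofPred_eq, if_true]; omega)
    have k4 := hW (F.1, F.2, true)
      (by simp only [src, rect, Set.mem_ofPred_eq]; omega)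
      (by simp only [tgt, rect, Set.mem_ofPred_eq, if_true]; omega)
    rw [hz'O (F.1, F.2, false) (Or.inl (by rw [s1]; exact hF))] at k1
    rw [hz'O (F.1 + 1, F.2, true) (Or.inr (by rw [s2]; exact hF))] at k2
    rw [hz'O (F.1, F.2, true) (Or.inl (by rw [s4]; exact hF))] at k4
    simp only [src, tgt, if_true, Bool.false_eq_true, if_false] at k1 k2 k4
    have k1' := (z2_add_eq_zero.1 k1.symm).symm
    have k2' := (z2_add_eq_zero.1 k2.symm).symm
    have k4' := (z2_add_eq_zero.1 k4.symm).symm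
    exact ⟨k1', k4', k2'.trans k1'⟩
  -- all corners (in `D`) of a face have the value of the ring
  set P : Vert → Prop := fun F =>
    (F ∈ D → W F = W (b, d)) ∧ (((F.1 + 1, F.2) : Vert) ∈ D → W (F.1 + 1, F.2) = W (b, d)) ∧
    (((F.1, F.2 + 1) : Vert) ∈ D → W (F.1, F.2 + 1) = W (b, d)) ∧
    (((F.1 + 1, F.2 + 1) : Vert) ∈ D → W (F.1 + 1, F.2 + 1) = W (b, d)) with hP
  have hPbd : ∀ F ∈ bd (a - 1) b (c - 1) d, P F := by
    rintro ⟨x, y⟩ ⟨k1, k2⟩
    rw [hP]
    simp only at k2
    refine ⟨fun k3 => ?_, fun k3 => ?_, fun k3 => ?_, fun k3 => ?_⟩ <;>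
    · refine (hWring _ ⟨k3, ?_⟩).symm
      rw [hD] at k3
      simp only [rect, Set.mem_ofPred_eq] at k3
      simp only
      omega
  have hPedge : ∀ f F, (F = src f ∨ F = lowFace f) → P F → src f ∈ D → W (src f) = W (b, d) := by
    rintro ⟨x, y, t⟩ F k1 k2 k3
    rw [hP] at k2
    obtain ⟨p1, p2, p3, p4⟩ := k2
    rcases k1 with rfl | rfl
    · exact p1 k3
    · cases t
      · simp only [lowFace, src, Bool.false_eq_true, if_false, sub_add_cancel] at p3 k3 ⊢
        exact p3 k3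
      · simp only [lowFace, src, if_true, sub_add_cancel] at p2 k3 ⊢
        exact p2 k3
  have hPall : ∀ F G : Vert, G ∈ bd (a - 1) b (c - 1) d → Conn (dual ω1) T F G → P F := by
    intro F G hG hFG
    refine hFG.symm.induction_right (P := P) (hPbd G hG) ?_
    intro p q k1 k2 k3
    have hqO : q ∈ O := ⟨G, hG, (k1.tail k2).symm⟩
    by_cases hq : q ∈ bd (a - 1) b (c - 1) d
    · exact hPbd q hq
    have hqT : q ∈ T := k2.2.1
    have k5 : ¬ (q.1 = a - 1 ∨ q.1 = b ∨ q.2 = c - 1 ∨ q.2 = d) := fun k6 => hq ⟨hqT, k6⟩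
    rw [hT] at hqT
    simp only [rect, Set.mem_ofPred_eq] at hqT
    obtain ⟨m1, m2, m3⟩ := hcorner q hqO (by omega) (by omega) (by omega) (by omega)
    obtain ⟨_, _, f, _, hf⟩ := Step.of_dual k2
    have hq4 : W q = W (b, d) := by
      rcases hf with ⟨f1, f2⟩ | ⟨f1, f2⟩
      · have k6 : src f ∈ D := by
          rw [← f2, hD]
          simp only [rect, Set.mem_ofPred_eq]
          omega
        have k7 := hPedge f p (Or.inr f1) k3 k6
        rw [← f2] at k7
        exact k7
      · have k6 : src f ∈ D ∧ W (src f) = W q := by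
          obtain ⟨x, y, t⟩ := f
          cases t
          · simp only [lowFace, Bool.false_eq_true, if_false] at f2
            have e1 : src (x, y, false) = (q.1, q.2 + 1) := by
              rw [f2]; simp [src]
            rw [e1, hD]
            refine ⟨?_, m2⟩
            simp only [rect, Set.mem_ofPred_eq]
            omega
          · simp only [lowFace, if_true] at f2
            have e1 : src (x, y, true) = (q.1 + 1, q.2) := by
              rw [f2]; simp [src]
            rw [e1, hD]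
            refine ⟨?_, m1⟩
            simp only [rect, Set.mem_ofPred_eq]
            omega
        have k7 := hPedge f p (Or.inl f1) k3 k6.1
        rw [← k6.2]
        exact k7
    rw [hP]
    exact ⟨fun _ => hq4, fun _ => m1.trans hq4, fun _ => m2.trans hq4, fun _ => m3.trans hq4⟩
  -- the open arm of `e`
  obtain ⟨u, hu, w, hw, huw⟩ := hO
  have hWu : W u ≠ W (b, d) := by
    have e1 : ∀ s : Bool, Function.update (Function.update ω g s) e false =
        Function.update (Function.update ω e false) g s := by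
      intro s
      exact Function.update_comm hge.symm _ _ _
    rw [e1] at huw
    rcases huw.split_edge with k | ⟨u', v', k1, k2, k3⟩
    · rw [← e1] at k
      exact absurd ⟨u, hu, w, hw, k⟩ hno
    · rw [← e1] at k2 k3
      have k4 : u' ∈ C := ⟨u, hu, k2⟩
      have k5 : v' ∉ C := by
        rintro ⟨u'', k6, k7⟩
        exact hno ⟨u'', k6, w, hw, k7.trans k3⟩
      have k6 : W u' ≠ W v' := by
        have k7 : z g = 1 := by
          simp only [hz, hχ]
          rcases k1 with ⟨k8, k9⟩ | ⟨k8, k9⟩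
          · rw [← k8, ← k9, if_pos k4, if_neg k5]
            decide
          · rw [← k8, ← k9, if_pos k4, if_neg k5]
            decide
        have k12 := hW g hg1 hg2
        rw [hz'n g (hgO _ (Or.inl rfl)), k7] at k12
        have k13 := z2_add_eq_one.1 k12.symm
        rcases k1 with ⟨k8, k9⟩ | ⟨k8, k9⟩
        · rw [k8, k9]
          exact k13
        · rw [k8, k9]
          exact k13.symm
      rw [hWopen u u' k2, hWring w hw, ← hWopen v' w k3]
      exact k6
  obtain ⟨F, hF, G, hG, hFG⟩ := hC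
  have hPF := hPall F G hG hFG
  rw [hP] at hPF
  obtain ⟨p1, p2, p3, p4⟩ := hPF
  apply hWu
  obtain ⟨x, y, t⟩ := e
  rcases hu with rfl | rfl <;> rcases hF with rfl | rfl <;> cases t
  · exact p1 he1
  · exact p1 he1
  · simp only [lowFace, src, Bool.false_eq_true, if_false, sub_add_cancel] at p3 he1 ⊢
    exact p3 he1
  · simp only [lowFace, src, if_true, sub_add_cancel] at p2 he1 ⊢
    exact p2 he1
  · simp only [src, tgt, Bool.false_eq_true, if_false] at p2 he2 ⊢
    exact p2 he2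
  · simp only [src, tgt, if_true] at p3 he2 ⊢
    exact p3 he2
  · simp only [lowFace, tgt, Bool.false_eq_true, if_false, sub_add_cancel] at p4 he2 ⊢
    exact p4 he2
  · simp only [lowFace, tgt, if_true, sub_add_cancel] at p4 he2 ⊢
    exact p4 he2

theorem stabB {ω : Config} {a b c d : ℤ} {g e : Edge} (hg : g ∈ redges a b c d)
    (h : ¬ CArm ω a b c d g) (hge : e ≠ g) :
    InR (Function.update ω g false) a b c d e ↔ InR (Function.update ω g true) a b c d e := by
  have hle : ∀ s : Bool, ∀ f, Function.update (Function.update ω g false) e s f = true →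
      Function.update (Function.update ω g true) e s f = true := by
    intro s f k
    by_cases k1 : f = e
    · subst k1
      rw [Function.update_self] at k ⊢
      exact k
    · rw [Function.update_of_ne k1] at k ⊢
      by_cases k2 : f = g
      · subst k2
        rw [Function.update_self] at k
        exact absurd k (by decide)
      · rw [Function.update_of_ne k2] at k ⊢
        exact k
  constructor
  · rintro ⟨he, hO, hC⟩
    refine ⟨he, ?_, ?_⟩
    · obtain ⟨u, hu, w, hw, huw⟩ := hO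
      exact ⟨u, hu, w, hw, huw.mono (le_refl _) (hle false)⟩
    · obtain ⟨F, hF, G, hG, hFG⟩ := hC
      have e0 : ∀ s : Bool, dual (Function.update (Function.update ω g s) e true) =
          Function.update (dual (Function.update ω e true)) (uncross g) (!s) := by
        intro s
        funext f
        by_cases k1 : f = uncross g
        · subst k1
          rw [Function.update_self]
          simp only [dual, crossed_uncross]
          rw [Function.update_of_ne hge.symm, Function.update_self]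
        · rw [Function.update_of_ne k1]
          have k2 : crossed f ≠ g := by
            rintro rfl
            exact k1 (uncross_crossed f).symm
          simp only [dual]
          by_cases k3 : crossed f = e
          · rw [k3, Function.update_self, Function.update_self]
          · rw [Function.update_of_ne k3, Function.update_of_ne k3, Function.update_of_ne k2]
      rw [e0] at hFG
      rcases hFG.split_edge with k | ⟨u', v', k1, k2, k3⟩
      · have e2 := e0 true
        rw [Bool.not_true] at e2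
        rw [← e2] at k
        exact ⟨F, hF, G, hG, k⟩
      · exfalso
        refine h ⟨v', ?_, G, hG, k3.mono (le_refl _) ?_⟩
        · rcases k1 with ⟨_, k4⟩ | ⟨_, k4⟩
          · rw [tgt_uncross] at k4
            exact Or.inl k4
          · rw [src_uncross] at k4
            exact Or.inr k4
        · intro f k4
          by_cases k5 : f = uncross g
          · rw [k5, Function.update_self] at k4
            exact absurd k4 (by decide)
          · rw [Function.update_of_ne k5] at k4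
            have k6 : crossed f ≠ g := by
              rintro rfl
              exact k5 (uncross_crossed f).symm
            simp only [dual] at k4 ⊢
            rw [Function.update_of_ne k6]
            by_cases k7 : crossed f = e
            · rw [k7, Function.update_self] at k4
              exact absurd k4 (by decide)
            · rw [Function.update_of_ne k7] at k4
              exact k4
  · rintro ⟨he, hO, hC⟩
    refine ⟨he, stabB_core hg he h hge hO hC, ?_⟩
    obtain ⟨F, hF, G, hG, hFG⟩ := hC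
    refine ⟨F, hF, G, hG, hFG.mono (le_refl _) ?_⟩
    intro f k
    simp only [dual, Bool.not_eq_true'] at k ⊢
    by_contra k1
    rw [Bool.not_eq_false] at k1
    rw [hle true _ k1] at k
    exact absurd k (by decide)

end Pool.Agent.H29.Kap

end

section

/-! # Cluster counts: effect of one edge, locality, simple bounds -/

set_option autoImplicit false

namespace Pool.Agent.H29.Kap

open Pool.Agent.H89.Perc

/-- the cluster of a vertex -/
def count_cl (ω : Config) (S : Set Vert) (v : Vert) : Set Vert := {w | Conn ω S v w}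

lemma count_clusters_eq (ω : Config) (S : Set Vert) : clusters ω S = count_cl ω S '' S := by
  ext C
  constructor
  · rintro ⟨v, hv, rfl⟩; exact ⟨v, hv, rfl⟩
  · rintro ⟨v, hv, rfl⟩; exact ⟨v, hv, rfl⟩

lemma count_cl_eq {ω : Config} {S : Set Vert} {u v : Vert} (h : Conn ω S u v) :
    count_cl ω S u = count_cl ω S v := by
  ext w
  exact ⟨fun h' => h.symm.trans h', fun h' => h.trans h'⟩

lemma count_cl_mem {ω : Config} {S : Set Vert} {v : Vert} (hv : v ∈ S) :
    count_cl ω S v ∈ clusters ω S := ⟨v, hv, rfl⟩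

lemma count_upd_mono {ω : Config} {e : Edge} : ∀ f, Function.update ω e false f = true →
    Function.update ω e true f = true := by
  intro f hf
  by_cases h : f = e
  · subst h; simp at hf
  · rw [Function.update_of_ne h] at hf ⊢
    exact hf

lemma count_conn_one {ω : Config} {S : Set Vert} {e : Edge} (h1 : src e ∈ S) (h2 : tgt e ∈ S) :
    Conn (Function.update ω e true) S (src e) (tgt e) :=
  Step.conn ⟨h1, h2, e, joins_src_tgt e, by simp⟩

lemma count_conn_iff {ω : Config} {S : Set Vert} {e : Edge} (h1 : src e ∈ S) (h2 : tgt e ∈ S)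
    (u v : Vert) :
    Conn (Function.update ω e true) S u v ↔ Conn (Function.update ω e false) S u v ∨
      (Conn (Function.update ω e false) S u (src e) ∧
        Conn (Function.update ω e false) S (tgt e) v) ∨
      (Conn (Function.update ω e false) S u (tgt e) ∧
        Conn (Function.update ω e false) S (src e) v) := by
  constructor
  · intro h
    rcases h.split_edge with h | ⟨a, b, hab, h3, h4⟩
    · exact Or.inl h
    · rcases hab with ⟨rfl, rfl⟩ | ⟨rfl, rfl⟩
      · exact Or.inr (Or.inl ⟨h3, h4⟩)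
      · exact Or.inr (Or.inr ⟨h3, h4⟩)
  · rintro (h | ⟨h3, h4⟩ | ⟨h3, h4⟩)
    · exact h.mono subset_rfl count_upd_mono
    · exact ((h3.mono subset_rfl count_upd_mono).trans (count_conn_one h1 h2)).trans
        (h4.mono subset_rfl count_upd_mono)
    · exact ((h3.mono subset_rfl count_upd_mono).trans (count_conn_one h1 h2).symm).trans
        (h4.mono subset_rfl count_upd_mono)

lemma count_cl_conn {ω : Config} {S : Set Vert} {e : Edge} (h1 : src e ∈ S) (h2 : tgt e ∈ S)
    (h : Conn (Function.update ω e false) S (src e) (tgt e)) (v : Vert) :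
    count_cl (Function.update ω e true) S v = count_cl (Function.update ω e false) S v := by
  ext w
  show Conn _ _ _ _ ↔ Conn _ _ _ _
  rw [count_conn_iff h1 h2]
  constructor
  · rintro (h' | ⟨h3, h4⟩ | ⟨h3, h4⟩)
    · exact h'
    · exact (h3.trans h).trans h4
    · exact (h3.trans h.symm).trans h4
  · exact Or.inl

lemma count_cl_away {ω : Config} {S : Set Vert} {e : Edge} (h1 : src e ∈ S) (h2 : tgt e ∈ S)
    {v : Vert} (hx : ¬ Conn (Function.update ω e false) S v (src e))
    (hy : ¬ Conn (Function.update ω e false) S v (tgt e)) :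
    count_cl (Function.update ω e true) S v = count_cl (Function.update ω e false) S v := by
  ext w
  show Conn _ _ _ _ ↔ Conn _ _ _ _
  rw [count_conn_iff h1 h2]
  constructor
  · rintro (h' | ⟨h3, h4⟩ | ⟨h3, h4⟩)
    · exact h'
    · exact absurd h3 hx
    · exact absurd h3 hy
  · exact Or.inl

lemma count_cl_src {ω : Config} {S : Set Vert} {e : Edge} (h1 : src e ∈ S) (h2 : tgt e ∈ S) :
    count_cl (Function.update ω e true) S (src e) =
      count_cl (Function.update ω e false) S (src e) ∪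
      count_cl (Function.update ω e false) S (tgt e) := by
  ext w
  show Conn _ _ _ _ ↔ Conn _ _ _ _ ∨ Conn _ _ _ _
  rw [count_conn_iff h1 h2]
  constructor
  · rintro (h' | ⟨h3, h4⟩ | ⟨h3, h4⟩)
    · exact Or.inl h'
    · exact Or.inr h4
    · exact Or.inl h4
  · rintro (h' | h')
    · exact Or.inl h'
    · exact Or.inr (Or.inl ⟨Conn.refl h1, h'⟩)

/-- Effect of opening one edge on the number of clusters which do not meet `B`. -/
theorem J_update {ω : Config} {S B : Set Vert} (hS : S.Finite) {e : Edge} (h1 : src e ∈ S)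
    (h2 : tgt e ∈ S) :
    (WConn (Function.update ω e false) S B (src e) (tgt e) →
      J (Function.update ω e false) S B = J (Function.update ω e true) S B) ∧
    (¬ WConn (Function.update ω e false) S B (src e) (tgt e) →
      J (Function.update ω e false) S B = J (Function.update ω e true) S B + 1) := by
  by_cases hc : Conn (Function.update ω e false) S (src e) (tgt e)
  · have hw : WConn (Function.update ω e false) S B (src e) (tgt e) := Or.inl hc
    refine ⟨fun _ => ?_, fun h => absurd hw h⟩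
    have : clusters (Function.update ω e false) S = clusters (Function.update ω e true) S := by
      rw [count_clusters_eq, count_clusters_eq]
      exact Set.image_congr fun v _ => (count_cl_conn h1 h2 hc v).symm
    unfold J
    rw [this]
  · set w0 := Function.update ω e false with hw0
    set w1 := Function.update ω e true with hw1
    set x := src e
    set y := tgt e
    set D : Set (Set Vert) := {C | (C ∈ clusters w0 S ∧ C ≠ count_cl w0 S x ∧
      C ≠ count_cl w0 S y) ∧ Disjoint C B} with hD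
    have hxx : x ∈ count_cl w0 S x := Conn.refl h1
    have hyy : y ∈ count_cl w0 S y := Conn.refl h2
    have hxy : count_cl w0 S x ≠ count_cl w0 S y := fun h => hc (by
      have : y ∈ count_cl w0 S x := h ▸ hyy
      exact this)
    have hDfin : D.Finite := (clusters_finite w0 hS).subset fun C hC => hC.1.1
    have hxD : count_cl w0 S x ∉ D := fun h => h.1.2.1 rfl
    have hyD : count_cl w0 S y ∉ D := fun h => h.1.2.2 rfl
    have hxyD : count_cl w0 S x ∪ count_cl w0 S y ∉ D := by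
      rintro ⟨⟨⟨v, hv, h3⟩, h4, h5⟩, -⟩
      have h6 : x ∈ {w | Conn w0 S v w} := h3 ▸ Or.inl hxx
      have h7 : y ∈ {w | Conn w0 S v w} := h3 ▸ Or.inr hyy
      exact hc (Conn.trans (Conn.symm h6) h7)
    -- clusters of w0
    have hc0 : ∀ C, (C ∈ clusters w0 S ∧ Disjoint C B) ↔
        ((C = count_cl w0 S x ∧ Disjoint C B) ∨ (C = count_cl w0 S y ∧ Disjoint C B) ∨ C ∈ D) := by
      intro C
      constructor
      · rintro ⟨h3, h4⟩
        by_cases h5 : C = count_cl w0 S x
        · exact Or.inl ⟨h5, h4⟩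
        · by_cases h6 : C = count_cl w0 S y
          · exact Or.inr (Or.inl ⟨h6, h4⟩)
          · exact Or.inr (Or.inr ⟨⟨h3, h5, h6⟩, h4⟩)
      · rintro (⟨rfl, h4⟩ | ⟨rfl, h4⟩ | h4)
        · exact ⟨count_cl_mem h1, h4⟩
        · exact ⟨count_cl_mem h2, h4⟩
        · exact ⟨h4.1.1, h4.2⟩
    have hc1 : ∀ C, (C ∈ clusters w1 S ∧ Disjoint C B) ↔
        ((C = count_cl w0 S x ∪ count_cl w0 S y ∧ Disjoint C B) ∨ C ∈ D) := by
      intro C
      constructor
      · rintro ⟨⟨v, hv, h3⟩, h4⟩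
        have h3' : C = count_cl w1 S v := h3
        by_cases h5 : Conn w0 S v x
        · left
          refine ⟨?_, h4⟩
          rw [h3', ← count_cl_src h1 h2]
          exact count_cl_eq (h5.mono subset_rfl count_upd_mono)
        · by_cases h6 : Conn w0 S v y
          · left
            refine ⟨?_, h4⟩
            rw [h3', ← count_cl_src h1 h2]
            exact count_cl_eq ((h6.mono subset_rfl count_upd_mono).trans (count_conn_one h1 h2).symm)
          · right
            have h7 : C = count_cl w0 S v := by rw [h3', count_cl_away h1 h2 h5 h6]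
            have h8 : v ∈ count_cl w0 S v := Conn.refl hv
            refine ⟨⟨h7 ▸ count_cl_mem hv, ?_, ?_⟩, h4⟩
            · rw [h7]
              intro h9
              have : v ∈ count_cl w0 S x := h9 ▸ h8
              exact h5 (Conn.symm this)
            · rw [h7]
              intro h9
              have : v ∈ count_cl w0 S y := h9 ▸ h8
              exact h6 (Conn.symm this)
      · rintro (⟨h3, h4⟩ | h4)
        · refine ⟨?_, h4⟩
          rw [h3, ← count_cl_src h1 h2]
          exact count_cl_mem h1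
        · refine ⟨?_, h4.2⟩
          obtain ⟨⟨⟨v, hv, h3⟩, h5, h6⟩, -⟩ := h4
          have h3' : C = count_cl w0 S v := h3
          have h7 : ¬ Conn w0 S v x := fun h => h5 (by rw [h3']; exact count_cl_eq h)
          have h8 : ¬ Conn w0 S v y := fun h => h6 (by rw [h3']; exact count_cl_eq h)
          rw [h3', ← count_cl_away h1 h2 h7 h8]
          exact count_cl_mem hv
    by_cases hX : Disjoint (count_cl w0 S x) B
    · by_cases hY : Disjoint (count_cl w0 S y) B
      · have hnw : ¬ WConn w0 S B x y := by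
          rintro (h | ⟨⟨z, hz, h⟩, -⟩)
          · exact hc h
          · exact Set.disjoint_left.1 hX h hz
        refine ⟨fun h => absurd h hnw, fun _ => ?_⟩
        have e0 : {C | C ∈ clusters w0 S ∧ Disjoint C B} =
            insert (count_cl w0 S x) (insert (count_cl w0 S y) D) := by
          ext C
          rw [Set.mem_ofPred_eq, hc0, Set.mem_insert_iff, Set.mem_insert_iff]
          constructor
          · rintro (⟨h, -⟩ | ⟨h, -⟩ | h)
            exacts [Or.inl h, Or.inr (Or.inl h), Or.inr (Or.inr h)]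
          · rintro (h | h | h)
            exacts [Or.inl ⟨h, h ▸ hX⟩, Or.inr (Or.inl ⟨h, h ▸ hY⟩), Or.inr (Or.inr h)]
        have e1 : {C | C ∈ clusters w1 S ∧ Disjoint C B} =
            insert (count_cl w0 S x ∪ count_cl w0 S y) D := by
          ext C
          rw [Set.mem_ofPred_eq, hc1, Set.mem_insert_iff]
          constructor
          · rintro (⟨h, -⟩ | h)
            exacts [Or.inl h, Or.inr h]
          · rintro (h | h)
            · refine Or.inl ⟨h, ?_⟩
              rw [h, Set.disjoint_union_left]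
              exact ⟨hX, hY⟩
            · exact Or.inr h
        unfold J
        rw [e0, e1, Set.ncard_insert_of_notMem _ (hDfin.insert _),
          Set.ncard_insert_of_notMem hyD hDfin, Set.ncard_insert_of_notMem hxyD hDfin]
        intro h
        rcases h with h | h
        · exact hxy h
        · exact hxD h
      · -- Y meets B, X does not
        have hnw : ¬ WConn w0 S B x y := by
          rintro (h | ⟨⟨z, hz, h⟩, -⟩)
          · exact hc h
          · exact Set.disjoint_left.1 hX h hz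
        refine ⟨fun h => absurd h hnw, fun _ => ?_⟩
        have e0 : {C | C ∈ clusters w0 S ∧ Disjoint C B} = insert (count_cl w0 S x) D := by
          ext C
          rw [Set.mem_ofPred_eq, hc0, Set.mem_insert_iff]
          constructor
          · rintro (⟨h, -⟩ | ⟨h, h'⟩ | h)
            exacts [Or.inl h, absurd (h ▸ h') hY, Or.inr h]
          · rintro (h | h)
            exacts [Or.inl ⟨h, h ▸ hX⟩, Or.inr (Or.inr h)]
        have e1 : {C | C ∈ clusters w1 S ∧ Disjoint C B} = D := by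
          ext C
          rw [Set.mem_ofPred_eq, hc1]
          constructor
          · rintro (⟨h, h'⟩ | h)
            · rw [h, Set.disjoint_union_left] at h'
              exact absurd h'.2 hY
            · exact h
          · exact Or.inr
        unfold J
        rw [e0, e1, Set.ncard_insert_of_notMem hxD hDfin]
    · by_cases hY : Disjoint (count_cl w0 S y) B
      · have hnw : ¬ WConn w0 S B x y := by
          rintro (h | ⟨-, ⟨z, hz, h⟩⟩)
          · exact hc h
          · exact Set.disjoint_left.1 hY h hz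
        refine ⟨fun h => absurd h hnw, fun _ => ?_⟩
        have e0 : {C | C ∈ clusters w0 S ∧ Disjoint C B} = insert (count_cl w0 S y) D := by
          ext C
          rw [Set.mem_ofPred_eq, hc0, Set.mem_insert_iff]
          constructor
          · rintro (⟨h, h'⟩ | ⟨h, -⟩ | h)
            exacts [absurd (h ▸ h') hX, Or.inl h, Or.inr h]
          · rintro (h | h)
            exacts [Or.inr (Or.inl ⟨h, h ▸ hY⟩), Or.inr (Or.inr h)]
        have e1 : {C | C ∈ clusters w1 S ∧ Disjoint C B} = D := by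
          ext C
          rw [Set.mem_ofPred_eq, hc1]
          constructor
          · rintro (⟨h, h'⟩ | h)
            · rw [h, Set.disjoint_union_left] at h'
              exact absurd h'.1 hX
            · exact h
          · exact Or.inr
        unfold J
        rw [e0, e1, Set.ncard_insert_of_notMem hyD hDfin]
      · have hw : WConn w0 S B x y := by
          rw [Set.not_disjoint_iff] at hX hY
          obtain ⟨z, hz, hzB⟩ := hX
          obtain ⟨z', hz', hzB'⟩ := hY
          exact Or.inr ⟨⟨z, hzB, hz⟩, z', hzB', hz'⟩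
        refine ⟨fun _ => ?_, fun h => absurd hw h⟩
        have e0 : {C | C ∈ clusters w0 S ∧ Disjoint C B} = D := by
          ext C
          rw [Set.mem_ofPred_eq, hc0]
          constructor
          · rintro (⟨h, h'⟩ | ⟨h, h'⟩ | h)
            exacts [absurd (h ▸ h') hX, absurd (h ▸ h') hY, h]
          · exact fun h => Or.inr (Or.inr h)
        have e1 : {C | C ∈ clusters w1 S ∧ Disjoint C B} = D := by
          ext C
          rw [Set.mem_ofPred_eq, hc1]
          constructor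
          · rintro (⟨h, h'⟩ | h)
            · rw [h, Set.disjoint_union_left] at h'
              exact absurd h'.1 hX
            · exact h
          · exact Or.inr
        unfold J
        rw [e0, e1]

/-- Effect of opening one edge on the number of clusters. -/
theorem K_update {ω : Config} {S : Set Vert} (hS : S.Finite) {e : Edge} (h1 : src e ∈ S)
    (h2 : tgt e ∈ S) :
    (Conn (Function.update ω e false) S (src e) (tgt e) →
      K (Function.update ω e false) S = K (Function.update ω e true) S) ∧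
    (¬ Conn (Function.update ω e false) S (src e) (tgt e) →
      K (Function.update ω e false) S = K (Function.update ω e true) S + 1) := by
  rw [K_eq_J, K_eq_J]
  obtain ⟨h3, h4⟩ := J_update (ω := ω) (B := ∅) hS h1 h2
  refine ⟨fun h => h3 (Or.inl h), fun h => h4 ?_⟩
  rintro (h' | ⟨⟨z, hz, -⟩, -⟩)
  · exact h h'
  · exact hz

/-- The counts depend only on the edges with both endpoints in `S`. -/
theorem J_congr {ω ω' : Config} {S : Set Vert} (B : Set Vert)
    (h : ∀ e, src e ∈ S → tgt e ∈ S → ω e = ω' e) : J ω S B = J ω' S B := by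
  have : clusters ω S = clusters ω' S := by
    rw [count_clusters_eq, count_clusters_eq]
    refine Set.image_congr fun v _ => ?_
    ext w
    exact ⟨fun h' => Conn.congr h h', fun h' => Conn.congr (fun e h1 h2 => (h e h1 h2).symm) h'⟩
  unfold J
  rw [this]

theorem K_congr {ω ω' : Config} {S : Set Vert}
    (h : ∀ e, src e ∈ S → tgt e ∈ S → ω e = ω' e) : K ω S = K ω' S := by
  rw [K_eq_J, K_eq_J, J_congr ∅ h]

lemma count_wired_sub {ω ω' : Config} {S B : Set Vert}
    (h : ∀ e, src e ∈ S → tgt e ∈ S → ¬ (src e ∈ B ∧ tgt e ∈ B) → ω e = ω' e) :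
    {C | C ∈ clusters ω S ∧ Disjoint C B} ⊆ {C | C ∈ clusters ω' S ∧ Disjoint C B} := by
  rintro C ⟨⟨v, hv, rfl⟩, hd⟩
  refine ⟨⟨v, hv, ?_⟩, hd⟩
  have hstep : ∀ (σ σ' : Config), (∀ e, src e ∈ S → tgt e ∈ S → ¬ (src e ∈ B ∧ tgt e ∈ B) →
      σ e = σ' e) → ∀ a b, a ∉ B → Step σ S a b → Step σ' S a b := by
    rintro σ σ' hσ a b ha ⟨h1, h2, e, he, ho⟩
    refine ⟨h1, h2, e, he, ?_⟩
    rcases he with ⟨h3, h4⟩ | ⟨h3, h4⟩
    · rw [← hσ e (h3 ▸ h1) (h4 ▸ h2) (fun h5 => ha (h3 ▸ h5.1))]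
      exact ho
    · rw [← hσ e (h4 ▸ h2) (h3 ▸ h1) (fun h5 => ha (h3 ▸ h5.2))]
      exact ho
  ext w
  constructor
  · intro hw
    have hw' : Conn ω S v w := hw
    refine hw'.induction_right (P := fun z => Conn ω' S v z) (Conn.refl hv) ?_
    intro a b hva hab hva'
    exact hva'.tail (hstep ω ω' h a b (Set.disjoint_left.1 hd hva) hab)
  · intro hw
    have hw' : Conn ω' S v w := hw
    refine hw'.induction_right (P := fun z => Conn ω S v z) (Conn.refl hv) ?_
    intro a b _ hab hva'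
    exact hva'.tail (hstep ω' ω (fun e h1 h2 h3 => (h e h1 h2 h3).symm) a b
      (Set.disjoint_left.1 hd hva') hab)

/-- Edges with both endpoints in `B` do not matter for `J` (finitely many edges in `S`). -/
theorem J_congr_wired {ω ω' : Config} {S B : Set Vert} (hS : S.Finite)
    (h : ∀ e, src e ∈ S → tgt e ∈ S → ¬ (src e ∈ B ∧ tgt e ∈ B) → ω e = ω' e) :
    J ω S B = J ω' S B := by
  unfold J
  exact congrArg Set.ncard (Set.Subset.antisymm (count_wired_sub h)
    (count_wired_sub fun e h1 h2 h3 => (h e h1 h2 h3).symm))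

/-- All edges closed. -/
theorem J_closed {ω : Config} {S : Set Vert} (B : Set Vert)
    (h : ∀ e, src e ∈ S → tgt e ∈ S → ω e = false) : J ω S B = (S \ B).ncard := by
  have hcl : ∀ v ∈ S, {w | Conn ω S v w} = {v} := by
    intro v hv
    ext w
    constructor
    · intro hw
      have hw' : Conn ω S v w := hw
      refine hw'.induction_right (P := fun z => z ∈ ({v} : Set Vert)) rfl ?_
      rintro a b _ ⟨h1, h2, e, he, ho⟩ _
      exfalso
      rcases he with ⟨h3, h4⟩ | ⟨h3, h4⟩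
      · rw [h e (h3 ▸ h1) (h4 ▸ h2)] at ho
        exact Bool.false_ne_true ho
      · rw [h e (h4 ▸ h2) (h3 ▸ h1)] at ho
        exact Bool.false_ne_true ho
    · rintro rfl
      exact Conn.refl hv
  have : {C | C ∈ clusters ω S ∧ Disjoint C B} = (fun v => ({v} : Set Vert)) '' (S \ B) := by
    ext C
    constructor
    · rintro ⟨⟨v, hv, rfl⟩, hd⟩
      rw [hcl v hv] at hd ⊢
      exact ⟨v, ⟨hv, Set.disjoint_singleton_left.1 hd⟩, rfl⟩
    · rintro ⟨v, ⟨hv, hvB⟩, rfl⟩
      exact ⟨⟨v, hv, (hcl v hv).symm⟩, Set.disjoint_singleton_left.2 hvB⟩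
  unfold J
  rw [this]
  exact Set.ncard_image_of_injective _ Set.singleton_injective

theorem K_closed {ω : Config} {S : Set Vert}
    (h : ∀ e, src e ∈ S → tgt e ∈ S → ω e = false) : K ω S = S.ncard := by
  rw [K_eq_J, J_closed ∅ h, Set.sdiff_empty]

theorem K_le_ncard {ω : Config} {S : Set Vert} (hS : S.Finite) : K ω S ≤ S.ncard := by
  unfold K
  rw [count_clusters_eq]
  exact Set.ncard_image_le hS

theorem J_le_K {ω : Config} {S : Set Vert} (B : Set Vert) (hS : S.Finite) : J ω S B ≤ K ω S :=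
  Set.ncard_le_ncard (fun _ hC => hC.1) (clusters_finite ω hS)

theorem K_le_J_add {ω : Config} {S B : Set Vert} (hS : S.Finite) (hB : B.Finite) :
    K ω S ≤ J ω S B + B.ncard := by
  have hsub : clusters ω S ⊆ {C | C ∈ clusters ω S ∧ Disjoint C B} ∪ count_cl ω S '' B := by
    intro C hC
    by_cases hd : Disjoint C B
    · exact Or.inl ⟨hC, hd⟩
    · rw [Set.not_disjoint_iff] at hd
      obtain ⟨z, hz, hzB⟩ := hd
      exact Or.inr ⟨z, hzB, (mem_cluster_iff hC hz).symm⟩
  have hfin : ({C | C ∈ clusters ω S ∧ Disjoint C B} ∪ count_cl ω S '' B).Finite :=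
    ((clusters_finite ω hS).subset fun _ hC => hC.1).union (hB.image _)
  calc K ω S ≤ ({C | C ∈ clusters ω S ∧ Disjoint C B} ∪ count_cl ω S '' B).ncard :=
        Set.ncard_le_ncard hsub hfin
    _ ≤ {C | C ∈ clusters ω S ∧ Disjoint C B}.ncard + (count_cl ω S '' B).ncard :=
        Set.ncard_union_le _ _
    _ ≤ J ω S B + B.ncard := Nat.add_le_add le_rfl (Set.ncard_image_le hB)

/-- Subadditivity. -/
theorem K_union_le {ω : Config} {S T : Set Vert} (hS : S.Finite) (hT : T.Finite) :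
    K ω (S ∪ T) ≤ K ω S + K ω T := by
  set g : Set Vert → Set Vert := fun C => {w | ∃ u ∈ C, Conn ω (S ∪ T) u w} with hg
  have hgS : ∀ v ∈ S, g (count_cl ω S v) = count_cl ω (S ∪ T) v := by
    intro v hv
    ext w
    constructor
    · rintro ⟨u, hu, huw⟩
      exact Conn.trans (Conn.mono_set Set.subset_union_left hu) huw
    · intro hw
      exact ⟨v, Conn.refl hv, hw⟩
  have hgT : ∀ v ∈ T, g (count_cl ω T v) = count_cl ω (S ∪ T) v := by
    intro v hv
    ext w
    constructor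
    · rintro ⟨u, hu, huw⟩
      exact Conn.trans (Conn.mono_set Set.subset_union_right hu) huw
    · intro hw
      exact ⟨v, Conn.refl hv, hw⟩
  have hsub : clusters ω (S ∪ T) ⊆ g '' clusters ω S ∪ g '' clusters ω T := by
    rintro C ⟨v, hv | hv, rfl⟩
    · exact Or.inl ⟨_, count_cl_mem hv, hgS v hv⟩
    · exact Or.inr ⟨_, count_cl_mem hv, hgT v hv⟩
  have hf1 := clusters_finite ω hS
  have hf2 := clusters_finite ω hT
  calc K ω (S ∪ T) ≤ (g '' clusters ω S ∪ g '' clusters ω T).ncard :=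
        Set.ncard_le_ncard hsub ((hf1.image _).union (hf2.image _))
    _ ≤ (g '' clusters ω S).ncard + (g '' clusters ω T).ncard := Set.ncard_union_le _ _
    _ ≤ _ := Nat.add_le_add (Set.ncard_image_le hf1) (Set.ncard_image_le hf2)

/-- close the edges of `F` -/
def count_close (ω : Config) (F : Finset Edge) : Config := fun e => if e ∈ F then false else ω e

lemma count_close_le {ω : Config} {S : Set Vert} (hS : S.Finite) (F : Finset Edge)
    (hF : ∀ e ∈ F, src e ∈ S ∧ tgt e ∈ S) : K (count_close ω F) S ≤ K ω S + F.card := by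
  classical
  induction F using Finset.induction_on with
  | empty =>
    have : count_close ω ∅ = ω := by funext e; simp [count_close]
    rw [this]
    simp
  | insert e F he ih =>
    have ih' := ih fun f hf => hF f (Finset.mem_insert_of_mem hf)
    obtain ⟨h1, h2⟩ := hF e (Finset.mem_insert_self e F)
    have e1 : count_close ω (insert e F) = Function.update (count_close ω F) e false := by
      funext f
      by_cases hf : f = e
      · subst hf; simp [count_close]
      · rw [Function.update_of_ne hf]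
        simp [count_close, Finset.mem_insert, hf]
    have e2 : K (Function.update (count_close ω F) e false) S ≤ K (count_close ω F) S + 1 := by
      rcases hb : count_close ω F e with _ | _
      · have : Function.update (count_close ω F) e false = count_close ω F := by
          rw [← hb]; exact Function.update_eq_self e _
        rw [this]
        omega
      · have : Function.update (count_close ω F) e true = count_close ω F := by
          rw [← hb]; exact Function.update_eq_self e _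
        obtain ⟨h3, h4⟩ := K_update (ω := count_close ω F) hS h1 h2
        rw [this] at h3 h4
        by_cases hc : Conn (Function.update (count_close ω F) e false) S (src e) (tgt e)
        · rw [h3 hc]; omega
        · rw [h4 hc]
    rw [e1, Finset.card_insert_of_notMem he]
    omega

/-- Splitting a rectangle along a vertical line costs at most the number of edges between the two
parts. -/
theorem K_split_le {ω : Config} {a m b c d : ℤ} (h1 : a ≤ m) (h2 : m < b) (hcd : c ≤ d) :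
    ((K ω (rect a m c d) : ℤ) + K ω (rect (m + 1) b c d)) ≤ K ω (rect a b c d) + (d - c + 1) := by
  classical
  set F : Finset Edge := (Finset.Icc c d).image (fun y => (m, y, false)) with hFdef
  set S := rect a b c d with hS
  set L := rect a m c d with hL
  set R := rect (m + 1) b c d with hR
  have hLS : L ⊆ S := by
    rintro ⟨x, y⟩ h
    simp only [hL, hS, rect, Set.mem_ofPred_eq] at h ⊢
    omega
  have hRS : R ⊆ S := by
    rintro ⟨x, y⟩ h
    simp only [hR, hS, rect, Set.mem_ofPred_eq] at h ⊢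
    omega
  have hFS : ∀ e ∈ F, src e ∈ S ∧ tgt e ∈ S := by
    intro e he
    simp only [hFdef, Finset.mem_image, Finset.mem_Icc] at he
    obtain ⟨y, hy, rfl⟩ := he
    simp only [src, tgt, hS, rect, Set.mem_ofPred_eq, Bool.false_eq_true, if_false]
    omega
  have hcard : F.card ≤ (d - c + 1).toNat := by
    refine Finset.card_image_le.trans ?_
    rw [Int.card_Icc]
    omega
  have hfinS : S.Finite := rect_finite a b c d
  have hle := count_close_le (ω := ω) hfinS F hFS
  -- edges joining L and R are in F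
  have hcross : ∀ e u v, Joins e u v → u ∈ S → v ∈ S → count_close ω F e = true →
      (u ∈ L ↔ v ∈ L) := by
    intro e u v he hu hv ho
    have hnF : e ∉ F := by
      intro h
      simp [count_close, h] at ho
    obtain ⟨x, y, t⟩ := e
    obtain ⟨u1, u2⟩ := u
    obtain ⟨v1, v2⟩ := v
    simp only [hS, rect, Set.mem_ofPred_eq] at hu hv
    simp only [hL, rect, Set.mem_ofPred_eq]
    have hnF' : ¬ (c ≤ y ∧ y ≤ d ∧ m = x ∧ t = false) := by
      rintro ⟨h3, h4, h5, h6⟩
      apply hnF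
      simp only [hFdef, Finset.mem_image, Finset.mem_Icc]
      exact ⟨y, ⟨h3, h4⟩, by rw [h5, h6]⟩
    cases t
    · simp only [Joins, src, tgt, Bool.false_eq_true, if_false, Prod.mk.injEq] at he
      simp only [and_true] at hnF'
      omega
    · simp only [Joins, src, tgt, if_true, Prod.mk.injEq] at he
      omega
  have hLR : ∀ v ∈ S, (v ∈ R ↔ v ∉ L) := by
    rintro ⟨x, y⟩ h
    simp only [hR, hL, hS, rect, Set.mem_ofPred_eq] at h ⊢
    omega
  have hopen : ∀ e, count_close ω F e = true → ω e = true := by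
    intro e he
    unfold count_close at he
    split_ifs at he
    exact he
  have hLconn : ∀ v ∈ L, ∀ w, Conn ω L v w ↔ Conn (count_close ω F) S v w := by
    intro v hv w
    constructor
    · intro h
      have h3 : Conn (count_close ω F) L v w := by
        refine h.congr ?_
        intro e he1 he2
        have : e ∉ F := by
          intro hF
          simp only [hFdef, Finset.mem_image, Finset.mem_Icc] at hF
          obtain ⟨y, hy, rfl⟩ := hF
          simp only [tgt, hL, rect, Set.mem_ofPred_eq, Bool.false_eq_true, if_false] at he2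
          omega
        simp [count_close, this]
      exact h3.mono_set hLS
    · intro h
      refine h.induction_right (P := fun z => Conn ω L v z) (Conn.refl hv) ?_
      rintro p q _ ⟨hp, hq, e, he, ho⟩ hvp
      refine hvp.tail ⟨hvp.mem_right, ?_, e, he, hopen e ho⟩
      exact (hcross e p q he hp hq ho).1 hvp.mem_right
  have hRconn : ∀ v ∈ R, ∀ w, Conn ω R v w ↔ Conn (count_close ω F) S v w := by
    intro v hv w
    constructor
    · intro h
      have h3 : Conn (count_close ω F) R v w := by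
        refine h.congr ?_
        intro e he1 he2
        have : e ∉ F := by
          intro hF
          simp only [hFdef, Finset.mem_image, Finset.mem_Icc] at hF
          obtain ⟨y, hy, rfl⟩ := hF
          simp only [src, hR, rect, Set.mem_ofPred_eq] at he1
          omega
        simp [count_close, this]
      exact h3.mono_set hRS
    · intro h
      refine h.induction_right (P := fun z => Conn ω R v z) (Conn.refl hv) ?_
      rintro p q _ ⟨hp, hq, e, he, ho⟩ hvp
      refine hvp.tail ⟨hvp.mem_right, ?_, e, he, hopen e ho⟩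
      have h3 := hcross e p q he hp hq ho
      have h4 := (hLR p hp).1 hvp.mem_right
      exact (hLR q hq).2 fun h5 => h4 (h3.2 h5)
  have hunion : clusters ω L ∪ clusters ω R ⊆ clusters (count_close ω F) S := by
    rintro C (⟨v, hv, rfl⟩ | ⟨v, hv, rfl⟩)
    · exact ⟨v, hLS hv, Set.ext fun w => hLconn v hv w⟩
    · exact ⟨v, hRS hv, Set.ext fun w => hRconn v hv w⟩
  have hfL := clusters_finite ω (rect_finite a m c d)
  have hfR := clusters_finite ω (rect_finite (m + 1) b c d)
  have hdisj : Disjoint (clusters ω L) (clusters ω R) := by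
    rw [Set.disjoint_left]
    intro C hC1 hC2
    obtain ⟨z, hz⟩ := cluster_nonempty hC1
    have h3 := cluster_subset hC1 hz
    have h4 := cluster_subset hC2 hz
    exact (hLR z (hLS h3)).1 h4 h3
  have hcount : K ω L + K ω R ≤ K (count_close ω F) S := by
    unfold K
    rw [← Set.ncard_union_eq hdisj hfL hfR]
    exact Set.ncard_le_ncard hunion (clusters_finite _ hfinS)
  omega

end Pool.Agent.H29.Kap

end

section

/-! # Tilting on a stable random set -/

set_option autoImplicit false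

namespace Pool.Agent.H29.Kap

open Pool.Agent.Perc

variable {ι : Type*} [DecidableEq ι]

/-- Flip the membership of `g`. -/
def sflip (S : Finset ι) (g : ι) : Finset ι := if g ∈ S then S.erase g else insert g S

/-- Sign of an element. -/
def tiltSg (S : Finset ι) (e : ι) : ℝ := if e ∈ S then 1 else -1

theorem tilt_sg_sq (S : Finset ι) (e : ι) : tiltSg S e ^ 2 = 1 := by
  unfold tiltSg; split_ifs <;> norm_num

theorem tilt_mem_sflip (S : Finset ι) (g e : ι) :
    e ∈ sflip S g ↔ (e ≠ g ∧ e ∈ S) ∨ (e = g ∧ e ∉ S) := by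
  unfold sflip
  split_ifs with h
  · rw [Finset.mem_erase]
    constructor
    · rintro ⟨h1, h2⟩; exact Or.inl ⟨h1, h2⟩
    · rintro (⟨h1, h2⟩ | ⟨h1, h2⟩)
      · exact ⟨h1, h2⟩
      · exact absurd (h1 ▸ h) h2
  · rw [Finset.mem_insert]
    constructor
    · rintro (h1 | h1)
      · exact Or.inr ⟨h1, h1 ▸ h⟩
      · exact Or.inl ⟨fun h2 => h (h2 ▸ h1), h1⟩
    · rintro (⟨_, h2⟩ | ⟨h1, _⟩)
      · exact Or.inr h2
      · exact Or.inl h1

theorem tilt_sflip_sflip (S : Finset ι) (g : ι) : sflip (sflip S g) g = S := by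
  ext e
  rw [tilt_mem_sflip, tilt_mem_sflip]
  by_cases h : e = g
  · simp [h]
  · simp [h]

theorem tilt_sflip_subset {F S : Finset ι} {g : ι} (hS : S ⊆ F) (hg : g ∈ F) : sflip S g ⊆ F := by
  intro e he
  rw [tilt_mem_sflip] at he
  rcases he with ⟨_, h⟩ | ⟨h, _⟩
  · exact hS h
  · exact h ▸ hg

theorem tilt_sflip_ne (S : Finset ι) (g : ι) : sflip S g ≠ S := by
  intro h
  have h1 : g ∈ sflip S g ↔ g ∈ S := by rw [h]
  rw [tilt_mem_sflip] at h1
  by_cases h' : g ∈ S <;> simp [h'] at h1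

theorem tilt_sg_sflip_self (S : Finset ι) (g : ι) : tiltSg (sflip S g) g = - tiltSg S g := by
  unfold tiltSg
  by_cases h : g ∈ S
  · rw [if_pos h, if_neg]
    rw [tilt_mem_sflip]; simp [h]
  · rw [if_neg h, if_pos, neg_neg]
    rw [tilt_mem_sflip]; simp [h]

theorem tilt_sg_sflip_of_ne (S : Finset ι) {g e : ι} (he : e ≠ g) :
    tiltSg (sflip S g) e = tiltSg S e := by
  unfold tiltSg
  have : e ∈ sflip S g ↔ e ∈ S := by rw [tilt_mem_sflip]; simp [he]
  simp only [this]

theorem tilt_prod_sflip (S A : Finset ι) {g : ι} (hg : g ∈ A) :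
    ∏ e ∈ A, tiltSg (sflip S g) e = - ∏ e ∈ A, tiltSg S e := by
  rw [← Finset.mul_prod_erase _ _ hg, ← Finset.mul_prod_erase A (fun e => tiltSg S e) hg,
    tilt_sg_sflip_self, neg_mul]
  congr 2
  refine Finset.prod_congr rfl fun e he => ?_
  exact tilt_sg_sflip_of_ne S (Finset.ne_of_mem_erase he)

theorem tilt_Ex_half (F : Finset ι) (f : Finset ι → ℝ) :
    Ex (1 / 2) F f = (1 / 2) ^ F.card * ∑ S ∈ F.powerset, f S := by
  unfold Ex
  rw [Finset.mul_sum]
  refine Finset.sum_congr rfl fun S hS => ?_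
  have hS' := Finset.mem_powerset.1 hS
  have h1 : F.card = S.card + (F \ S).card := by
    rw [Finset.card_sdiff_of_subset hS']
    have := Finset.card_le_card hS'
    omega
  rw [h1, pow_add]
  norm_num

/-- Terms with `A` not inside `R S` cancel. -/
theorem tilt_cancel (F : Finset ι) (f : Finset ι → ℝ) (R : Finset ι → Finset ι)
    (hstab : ∀ S, S ⊆ F → ∀ g ∈ F, g ∉ R S → R (sflip S g) = R S)
    (hf : ∀ S, S ⊆ F → ∀ g ∈ F, g ∉ R S → f (sflip S g) = f S) {A : Finset ι} (hA : A ⊆ F) :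
    ∑ S ∈ F.powerset, f S * ∏ e ∈ A, tiltSg S e =
      ∑ S ∈ F.powerset with A ⊆ R S, f S * ∏ e ∈ A, tiltSg S e := by
  classical
  rw [← Finset.sum_filter_add_sum_filter_not F.powerset (fun S => A ⊆ R S)]
  suffices h : ∑ S ∈ F.powerset with ¬ A ⊆ R S, f S * ∏ e ∈ A, tiltSg S e = 0 by
    rw [h, add_zero]
  have hne : ∀ S ∈ F.powerset.filter (fun S => ¬ A ⊆ R S), (A \ R S).Nonempty := by
    intro S hS
    have h1 := (Finset.mem_filter.1 hS).2
    rwa [Finset.sdiff_nonempty]
  let ch : Finset ι → ι → ι := fun T d => if h : T.Nonempty then h.choose else d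
  have hch : ∀ S ∈ F.powerset.filter (fun S => ¬ A ⊆ R S), ∀ d, ch (A \ R S) d ∈ A \ R S := by
    intro S hS d
    have h1 := hne S hS
    simp only [ch, dif_pos h1]
    exact h1.choose_spec
  refine Finset.sum_involution
    (fun S hS => sflip S (ch (A \ R S) (hne S hS).choose)) ?_ ?_ ?_ ?_
  · intro S hS
    have h1 := hch S hS (hne S hS).choose
    rw [Finset.mem_sdiff] at h1
    have h2 : S ⊆ F := Finset.mem_powerset.1 (Finset.mem_filter.1 hS).1
    rw [hf S h2 _ (hA h1.1) h1.2, tilt_prod_sflip S A h1.1]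
    ring
  · intro S hS _
    exact tilt_sflip_ne _ _
  · intro S hS
    have h1 := hch S hS (hne S hS).choose
    rw [Finset.mem_sdiff] at h1
    have h2 : S ⊆ F := Finset.mem_powerset.1 (Finset.mem_filter.1 hS).1
    rw [Finset.mem_filter, Finset.mem_powerset]
    refine ⟨tilt_sflip_subset h2 (hA h1.1), ?_⟩
    rw [hstab S h2 _ (hA h1.1) h1.2]
    exact (Finset.mem_filter.1 hS).2
  · intro S hS
    have h1 := hch S hS (hne S hS).choose
    rw [Finset.mem_sdiff] at h1
    have h2 : S ⊆ F := Finset.mem_powerset.1 (Finset.mem_filter.1 hS).1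
    have h3 := hstab S h2 _ (hA h1.1) h1.2
    have h4 : ∀ d d', ch (A \ R S) d = ch (A \ R S) d' := by
      intro d d'
      simp only [ch, dif_pos (hne S hS)]
    have h5 : ∀ d, sflip (sflip S (ch (A \ R S) (hne S hS).choose))
        (ch (A \ R (sflip S (ch (A \ R S) (hne S hS).choose))) d) = S := by
      intro d
      rw [h3, h4 d (hne S hS).choose]
      exact tilt_sflip_sflip _ _
    exact h5 _

/-- The generating polynomial at a complex point. -/
theorem tilt_key (F : Finset ι) (f : Finset ι → ℝ) (R : Finset ι → Finset ι)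
    (hR : ∀ S, S ⊆ F → R S ⊆ F)
    (hstab : ∀ S, S ⊆ F → ∀ g ∈ F, g ∉ R S → R (sflip S g) = R S)
    (hf : ∀ S, S ⊆ F → ∀ g ∈ F, g ∉ R S → f (sflip S g) = f S) (z : ℂ) :
    ∑ A ∈ F.powerset, ((Ex (1 / 2) F (fun S => f S * ∏ e ∈ A, tiltSg S e) : ℝ) : ℂ) * z ^ A.card =
      (1 / 2 : ℂ) ^ F.card * ∑ S ∈ F.powerset, (f S : ℂ) * ∏ e ∈ R S, (1 + z * (tiltSg S e : ℂ)) := by
  classical
  have h1 : ∀ A ∈ F.powerset,
      ((Ex (1 / 2) F (fun S => f S * ∏ e ∈ A, tiltSg S e) : ℝ) : ℂ) * z ^ A.card =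
      (1 / 2 : ℂ) ^ F.card * ∑ S ∈ F.powerset, (if A ⊆ R S then
        (f S : ℂ) * ∏ e ∈ A, (z * (tiltSg S e : ℂ)) else 0) := by
    intro A hA
    rw [tilt_Ex_half, tilt_cancel F f R hstab hf (Finset.mem_powerset.1 hA), Finset.sum_filter]
    push_cast
    rw [mul_assoc, Finset.sum_mul]
    congr 1
    refine Finset.sum_congr rfl fun S _ => ?_
    split_ifs
    · push_cast
      rw [Finset.prod_mul_distrib, Finset.prod_const]
      ring
    · simp
  rw [Finset.sum_congr rfl h1, ← Finset.mul_sum, Finset.sum_comm]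
  congr 1
  refine Finset.sum_congr rfl fun S hS => ?_
  have hS' := hR S (Finset.mem_powerset.1 hS)
  rw [Finset.prod_one_add, Finset.mul_sum, ← Finset.sum_filter]
  refine Finset.sum_congr ?_ fun _ _ => rfl
  ext A
  simp only [Finset.mem_filter, Finset.mem_powerset]
  exact ⟨fun h => h.2, fun h => ⟨h.trans hS', h⟩⟩

theorem tilt_expand (p : ℝ) (F : Finset ι) (f : Finset ι → ℝ) :
    Ex p F f = ∑ A ∈ F.powerset,
      Ex (1 / 2) F (fun S => f S * ∏ e ∈ A, tiltSg S e) * (2 * p - 1) ^ A.card := by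
  have h1 : ∀ A ∈ F.powerset, Ex (1 / 2) F (fun S => f S * ∏ e ∈ A, tiltSg S e) *
      (2 * p - 1) ^ A.card = (1 / 2) ^ F.card * ∑ S ∈ F.powerset, f S *
        ∏ e ∈ A, ((2 * p - 1) * tiltSg S e) := by
    intro A _
    rw [tilt_Ex_half, mul_assoc, Finset.sum_mul]
    congr 1
    refine Finset.sum_congr rfl fun S _ => ?_
    rw [Finset.prod_mul_distrib, Finset.prod_const]
    ring
  rw [Finset.sum_congr rfl h1, ← Finset.mul_sum, Finset.sum_comm]
  unfold Ex
  rw [Finset.mul_sum]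
  refine Finset.sum_congr rfl fun S hS => ?_
  have hS' := Finset.mem_powerset.1 hS
  rw [← Finset.mul_sum, ← Finset.prod_one_add, ← Finset.prod_sdiff hS']
  have h2 : ∏ e ∈ F \ S, (1 + (2 * p - 1) * tiltSg S e) = (2 * (1 - p)) ^ (F \ S).card := by
    rw [← Finset.prod_const]
    refine Finset.prod_congr rfl fun e he => ?_
    rw [tiltSg, if_neg (Finset.mem_sdiff.1 he).2]
    ring
  have h3 : ∏ e ∈ S, (1 + (2 * p - 1) * tiltSg S e) = (2 * p) ^ S.card := by
    rw [← Finset.prod_const]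
    refine Finset.prod_congr rfl fun e he => ?_
    rw [tiltSg, if_pos he]
    ring
  have h4 : F.card = S.card + (F \ S).card := by
    rw [Finset.card_sdiff_of_subset hS']
    have := Finset.card_le_card hS'
    omega
  rw [h2, h3, h4, mul_pow, mul_pow, pow_add]
  have h5 : (1 / 2 : ℝ) ^ S.card * 2 ^ S.card = 1 := by
    rw [← mul_pow]; norm_num
  have h6 : (1 / 2 : ℝ) ^ (F \ S).card * 2 ^ (F \ S).card = 1 := by
    rw [← mul_pow]; norm_num
  calc p ^ S.card * (1 - p) ^ (F \ S).card * f S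
      = ((1 / 2 : ℝ) ^ S.card * 2 ^ S.card) * ((1 / 2 : ℝ) ^ (F \ S).card * 2 ^ (F \ S).card) *
        (p ^ S.card * (1 - p) ^ (F \ S).card * f S) := by rw [h5, h6]; ring
    _ = _ := by ring

theorem tilt_iter_deriv (q : Polynomial ℂ) (j : ℕ) :
    deriv^[j] (fun z : ℂ => q.eval z) = fun z => (Polynomial.derivative^[j] q).eval z := by
  induction j generalizing q with
  | zero => rfl
  | succ j ih =>
    rw [Function.iterate_succ_apply, Function.iterate_succ_apply]
    have h1 : deriv (fun z : ℂ => q.eval z) = fun z => (Polynomial.derivative q).eval z := by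
      ext z; exact q.deriv
    rw [h1, ih]

/-- Cauchy's estimate for the coefficients of a polynomial. -/
theorem tilt_cauchy (n : ℕ) (y : ℕ → ℂ) (r C : ℝ) (hr : 0 < r)
    (h : ∀ z : ℂ, ‖z‖ = r → ‖∑ i ∈ Finset.range n, y i * z ^ i‖ ≤ C) (j : ℕ) (hj : j < n) :
    ‖y j‖ * r ^ j ≤ C := by
  let q : Polynomial ℂ := ∑ i ∈ Finset.range n, Polynomial.C (y i) * Polynomial.X ^ i
  have hq : ∀ z, q.eval z = ∑ i ∈ Finset.range n, y i * z ^ i := by
    intro z
    simp [q, Polynomial.eval_finsetSum]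
  have hc : q.coeff j = y j := by
    simp only [q, Polynomial.finsetSum_coeff, Polynomial.coeff_C_mul, Polynomial.coeff_X_pow]
    rw [Finset.sum_eq_single j]
    · simp
    · intro b _ hb; simp [Ne.symm hb]
    · intro hb; exact absurd (Finset.mem_range.2 hj) hb
  have h1 := Complex.norm_iteratedDeriv_le_of_forall_mem_sphere_norm_le (c := (0 : ℂ)) (R := r)
    (C := C) (f := fun z : ℂ => q.eval z) j hr
    (Differentiable.diffContOnCl (by
      have := q.differentiable
      exact this))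
    (by
      intro z hz
      rw [mem_sphere_zero_iff_norm] at hz
      simp only [hq z]
      exact h z hz)
  rw [iteratedDeriv_eq_iterate, tilt_iter_deriv] at h1
  simp only at h1
  rw [← Polynomial.coeff_zero_eq_eval_zero, Polynomial.coeff_iterate_derivative, zero_add, hc,
    Nat.descFactorial_self, nsmul_eq_mul, norm_mul, Complex.norm_natCast] at h1
  have h2 : (0 : ℝ) < (j.factorial : ℝ) := by exact_mod_cast j.factorial_pos
  have h3 : 0 < r ^ j := pow_pos hr j
  rw [le_div_iff₀ h3, mul_assoc] at h1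
  exact le_of_mul_le_mul_left h1 h2

theorem tilt_bound (F : Finset ι) (f : Finset ι → ℝ) (R : Finset ι → Finset ι)
    (hR : ∀ S, S ⊆ F → R S ⊆ F)
    (hstab : ∀ S, S ⊆ F → ∀ g ∈ F, g ∉ R S → R (sflip S g) = R S)
    (r : ℝ) (hr : 0 ≤ r) (hr1 : r ≤ 1) (z : ℂ) (hz : ‖z‖ = r) :
    ‖(1 / 2 : ℂ) ^ F.card * ∑ S ∈ F.powerset, (f S : ℂ) * ∏ e ∈ R S, (1 + z * (tiltSg S e : ℂ))‖ ≤
      Real.sqrt (Ex (1 / 2) F (fun S => f S ^ 2)) *
          (Ex (1 / 2) F (fun S => (1 + 19 * r ^ 2) ^ (R S).card)) ^ (1 / 4 : ℝ) := by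
  classical
  set W : Finset ι → ℝ := fun S => ∏ e ∈ R S, ‖1 + z * (tiltSg S e : ℂ)‖ with hW
  set a : ℝ := 1 + r ^ 2 with ha
  set u : ℝ := 2 * z.re with hu
  have ha0 : 0 < a := by positivity
  set b : ℝ := a ^ 2 + u ^ 2 with hb
  have hb0 : 0 < b := by positivity
  have hu2 : u ^ 2 ≤ 4 * r ^ 2 := by
    have h1 : z.re ^ 2 ≤ ‖z‖ ^ 2 := by
      rw [← Complex.normSq_eq_norm_sq, Complex.normSq_apply]
      nlinarith [mul_self_nonneg z.im]
    rw [hz] at h1
    rw [hu]; nlinarith
  have hr2 : r ^ 2 ≤ 1 := by nlinarith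
  have hb1 : b ≤ 1 + 19 * r ^ 2 := by
    rw [hb, ha]
    nlinarith [sq_nonneg r, mul_nonneg (sq_nonneg r) (sub_nonneg.2 hr2)]
  -- norm bound
  have h1 : ‖(1 / 2 : ℂ) ^ F.card * ∑ S ∈ F.powerset, (f S : ℂ) *
      ∏ e ∈ R S, (1 + z * (tiltSg S e : ℂ))‖ ≤ Ex (1 / 2) F (fun S => |f S| * W S) := by
    rw [tilt_Ex_half, norm_mul]
    have h2 : ‖(1 / 2 : ℂ) ^ F.card‖ = (1 / 2) ^ F.card := by
      rw [norm_pow]; norm_num
    rw [h2]
    refine mul_le_mul_of_nonneg_left ?_ (by positivity)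
    refine (norm_sum_le _ _).trans (Finset.sum_le_sum fun S _ => ?_)
    rw [norm_mul, norm_prod, Complex.norm_real, Real.norm_eq_abs]
  have hW2 : ∀ S, W S ^ 2 = ∏ e ∈ R S, (a + u * tiltSg S e) := by
    intro S
    rw [hW]
    simp only
    rw [← Finset.prod_pow]
    refine Finset.prod_congr rfl fun e _ => ?_
    rw [← Complex.normSq_eq_norm_sq, Complex.normSq_apply]
    simp only [Complex.add_re, Complex.one_re, Complex.mul_re, Complex.ofReal_re,
      Complex.ofReal_im, mul_zero, sub_zero, Complex.add_im, Complex.one_im, Complex.mul_im,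
      zero_add]
    have h2 : z.re ^ 2 + z.im ^ 2 = r ^ 2 := by
      rw [← hz, ← Complex.normSq_eq_norm_sq, Complex.normSq_apply]; ring
    have h3 := tilt_sg_sq S e
    have h4 : (z.re * tiltSg S e) * (z.re * tiltSg S e) = z.re ^ 2 := by
      calc (z.re * tiltSg S e) * (z.re * tiltSg S e) = z.re ^ 2 * tiltSg S e ^ 2 := by ring
        _ = _ := by rw [h3, mul_one]
    have h5 : (z.im * tiltSg S e) * (z.im * tiltSg S e) = z.im ^ 2 := by
      calc (z.im * tiltSg S e) * (z.im * tiltSg S e) = z.im ^ 2 * tiltSg S e ^ 2 := by ring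
        _ = _ := by rw [h3, mul_one]
    rw [ha, hu, ← h2]
    nlinarith [h4, h5]
  have hone : ∀ t : ℝ, Ex (1 / 2) F (fun S => ∏ e ∈ R S, (1 + t * tiltSg S e)) = 1 := by
    intro t
    have h2 := tilt_key F (fun _ => 1) R hR hstab (fun _ _ _ _ _ => rfl) (t : ℂ)
    have h3 := tilt_expand ((1 + t) / 2) F (fun _ => (1 : ℝ))
    rw [Ex_const] at h3
    have h4 : 2 * ((1 + t) / 2) - 1 = t := by ring
    rw [h4] at h3
    have h5 : ((1 : ℝ) : ℂ) = (1 / 2 : ℂ) ^ F.card * ∑ S ∈ F.powerset, ((1 : ℝ) : ℂ) *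
        ∏ e ∈ R S, (1 + (t : ℂ) * (tiltSg S e : ℂ)) := by
      rw [← h2]
      have h3' := congrArg (fun x : ℝ => (x : ℂ)) h3
      rw [h3']
      push_cast
      rfl
    rw [tilt_Ex_half]
    have h6 : (((1 / 2) ^ F.card * ∑ S ∈ F.powerset, ∏ e ∈ R S, (1 + t * tiltSg S e) : ℝ) : ℂ) =
        ((1 : ℝ) : ℂ) := by
      rw [h5]
      push_cast
      simp
    exact_mod_cast h6
  set sb : ℝ := Real.sqrt b with hsb
  have hsb0 : 0 < sb := Real.sqrt_pos.2 hb0
  have hsb2 : sb ^ 2 = b := Real.sq_sqrt hb0.le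
  have h7 := Ex_mul_sq_le (p := 1 / 2) (by norm_num) (by norm_num) F
    (fun S => sb ^ (R S).card) (fun S => W S ^ 2 * (1 / sb) ^ (R S).card)
  have h8 : (fun S => sb ^ (R S).card * (W S ^ 2 * (1 / sb) ^ (R S).card)) = fun S => W S ^ 2 := by
    funext S
    calc sb ^ (R S).card * (W S ^ 2 * (1 / sb) ^ (R S).card)
        = W S ^ 2 * (sb * (1 / sb)) ^ (R S).card := by rw [mul_pow]; ring
      _ = W S ^ 2 := by rw [mul_one_div_cancel hsb0.ne', one_pow, mul_one]
  have h9 : (fun S => (sb ^ (R S).card) ^ 2) = fun S => b ^ (R S).card := by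
    funext S
    rw [← pow_mul, mul_comm, pow_mul, hsb2]
  have h10 : (fun S => (W S ^ 2 * (1 / sb) ^ (R S).card) ^ 2) =
      fun S => ∏ e ∈ R S, (1 + (2 * a * u / b) * tiltSg S e) := by
    funext S
    rw [mul_pow, hW2 S, ← Finset.prod_pow, ← pow_mul, mul_comm (R S).card 2, pow_mul,
      ← Finset.prod_const, ← Finset.prod_mul_distrib]
    refine Finset.prod_congr rfl fun e _ => ?_
    have h11 := tilt_sg_sq S e
    have h12 : (1 / sb) ^ 2 = 1 / b := by rw [div_pow, hsb2, one_pow]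
    rw [h12]
    field_simp
    rw [hb]
    calc (a + u * tiltSg S e) ^ 2 = a ^ 2 + u ^ 2 * tiltSg S e ^ 2 + 2 * a * u * tiltSg S e := by ring
      _ = _ := by rw [h11]; ring
  rw [h8, h9, h10, hone, mul_one] at h7
  -- E W^2 squared bound
  set E3 : ℝ := Ex (1 / 2) F (fun S => (1 + 19 * r ^ 2) ^ (R S).card) with hE3
  have h13 : Ex (1 / 2) F (fun S => b ^ (R S).card) ≤ E3 := by
    refine Ex_mono (by norm_num) (by norm_num) fun S _ => ?_
    exact pow_le_pow_left₀ hb0.le hb1 _
  have hE30 : 0 ≤ E3 := Ex_nonneg (by norm_num) (by norm_num) fun S _ => by positivity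
  have h14 := Ex_mul_sq_le (p := 1 / 2) (by norm_num) (by norm_num) F (fun S => |f S|) W
  simp only [sq_abs] at h14
  set E1 : ℝ := Ex (1 / 2) F (fun S => f S ^ 2) with hE1
  set E2 : ℝ := Ex (1 / 2) F (fun S => W S ^ 2) with hE2
  have hE10 : 0 ≤ E1 := Ex_nonneg (by norm_num) (by norm_num) fun S _ => by positivity
  have hE20 : 0 ≤ E2 := Ex_nonneg (by norm_num) (by norm_num) fun S _ => by positivity
  have h15 : E2 ^ 2 ≤ E3 := h7.trans h13
  set Q : ℝ := E3 ^ (1 / 4 : ℝ) with hQ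
  have hQ0 : 0 ≤ Q := Real.rpow_nonneg hE30 _
  have hQ4 : Q ^ 4 = E3 := by
    rw [hQ, ← Real.rpow_natCast, ← Real.rpow_mul hE30]
    norm_num
  have h16 : E2 ≤ Q ^ 2 := by
    have : E2 ^ 2 ≤ (Q ^ 2) ^ 2 := by rw [← pow_mul]; rw [hQ4]; exact h15
    exact le_of_sq_le_sq this (by positivity)
  have hX0 : 0 ≤ Ex (1 / 2) F (fun S => |f S| * W S) :=
    Ex_nonneg (by norm_num) (by norm_num) fun S _ =>
      mul_nonneg (abs_nonneg _) (Finset.prod_nonneg fun _ _ => norm_nonneg _)
  refine h1.trans ?_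
  have h17 : (Ex (1 / 2) F (fun S => |f S| * W S)) ^ 2 ≤ (Real.sqrt E1 * Q) ^ 2 := by
    rw [mul_pow, Real.sq_sqrt hE10]
    exact h14.trans (mul_le_mul_of_nonneg_left h16 hE10)
  exact le_of_sq_le_sq h17 (mul_nonneg (Real.sqrt_nonneg _) hQ0)

/-- Let `R` be a random subset which is stable (it does not change when an element outside `R` is
flipped) and let `f` not change when an element outside `R` is flipped. Then the coefficients of the
polynomial `E_p f` in the variable `z = 2p - 1` are controlled by exponential moments of `R` at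
density `1/2`. -/
theorem tilt (F : Finset ι) (f : Finset ι → ℝ) (R : Finset ι → Finset ι)
    (hR : ∀ S, S ⊆ F → R S ⊆ F)
    (hstab : ∀ S, S ⊆ F → ∀ g ∈ F, g ∉ R S → R (sflip S g) = R S)
    (hf : ∀ S, S ⊆ F → ∀ g ∈ F, g ∉ R S → f (sflip S g) = f S) :
    ∃ y : ℕ → ℝ, (∀ p : ℝ, Ex p F f = ∑ j ∈ Finset.range (F.card + 1), y j * (2 * p - 1) ^ j) ∧
      (∀ j, F.card < j → y j = 0) ∧
      ∀ r : ℝ, 0 ≤ r → r ≤ 1 → ∀ j, |y j| * r ^ j ≤
        Real.sqrt (Ex (1 / 2) F (fun S => f S ^ 2)) *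
          (Ex (1 / 2) F (fun S => (1 + 19 * r ^ 2) ^ (R S).card)) ^ (1 / 4 : ℝ) := by
  classical
  set c : Finset ι → ℝ := fun A => Ex (1 / 2) F (fun S => f S * ∏ e ∈ A, tiltSg S e) with hc
  refine ⟨fun j => ∑ A ∈ F.powersetCard j, c A, ?_, ?_, ?_⟩
  · intro p
    rw [tilt_expand, Finset.sum_powerset]
    refine Finset.sum_congr rfl fun j _ => ?_
    rw [Finset.sum_mul]
    refine Finset.sum_congr rfl fun A hA => ?_
    rw [(Finset.mem_powersetCard.1 hA).2]
  · intro j hj
    simp only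
    rw [Finset.powersetCard_eq_empty.2 hj, Finset.sum_empty]
  · intro r hr hr1 j
    set Y : ℕ → ℝ := fun j => ∑ A ∈ F.powersetCard j, c A with hY
    change |Y j| * r ^ j ≤ _
    have hRHS : 0 ≤ Real.sqrt (Ex (1 / 2) F (fun S => f S ^ 2)) *
          (Ex (1 / 2) F (fun S => (1 + 19 * r ^ 2) ^ (R S).card)) ^ (1 / 4 : ℝ) := by
      refine mul_nonneg (Real.sqrt_nonneg _) (Real.rpow_nonneg ?_ _)
      exact Ex_nonneg (by norm_num) (by norm_num) fun S _ => by positivity
    have hP : ∀ z : ℂ, ‖z‖ = r → ‖∑ i ∈ Finset.range (F.card + 1), (Y i : ℂ) * z ^ i‖ ≤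
        Real.sqrt (Ex (1 / 2) F (fun S => f S ^ 2)) *
          (Ex (1 / 2) F (fun S => (1 + 19 * r ^ 2) ^ (R S).card)) ^ (1 / 4 : ℝ) := by
      intro z hz
      have h1 : ∑ i ∈ Finset.range (F.card + 1), (Y i : ℂ) * z ^ i =
          ∑ A ∈ F.powerset, ((c A : ℝ) : ℂ) * z ^ A.card := by
        rw [Finset.sum_powerset]
        refine Finset.sum_congr rfl fun i _ => ?_
        rw [hY]
        push_cast
        rw [Finset.sum_mul]
        refine Finset.sum_congr rfl fun A hA => ?_
        rw [(Finset.mem_powersetCard.1 hA).2]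
      rw [h1, hc]
      simp only
      rw [tilt_key F f R hR hstab hf z]
      exact tilt_bound F f R hR hstab r hr hr1 z hz
    by_cases hj : j < F.card + 1
    · rcases hr.eq_or_lt with h0 | h0
      · rcases Nat.eq_zero_or_pos j with hj0 | hj0
        · have h2 := hP 0 (by rw [norm_zero, h0])
          rw [Finset.sum_range_succ'] at h2
          simp only [pow_succ, mul_zero, Finset.sum_const_zero, pow_zero, mul_one, zero_add,
            Complex.norm_real, Real.norm_eq_abs] at h2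
          rw [hj0, pow_zero, mul_one]
          exact h2
        · have h2 : |Y j| * r ^ j = 0 := by rw [← h0, zero_pow hj0.ne', mul_zero]
          rw [h2]
          exact hRHS
      · have h2 := tilt_cauchy (F.card + 1) (fun i => (Y i : ℂ)) r _ h0 hP j hj
        simpa using h2
    · have h2 : Y j = 0 := by
        rw [hY]; simp only
        rw [Finset.powersetCard_eq_empty.2 (by omega), Finset.sum_empty]
      rw [h2, abs_zero, zero_mul]
      exact hRHS

end Pool.Agent.H29.Kap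

end

section

/-! # The second difference `X` does not change when an edge outside `R` is flipped -/

set_option autoImplicit false

namespace Pool.Agent.H29.Kap

open Pool.Agent.H89.Perc

theorem sens_update_cases {P : Config → Prop} {ω : Config} {g : Edge}
    (h : P (Function.update ω g false) ↔ P (Function.update ω g true)) :
    P (flip ω g) ↔ P ω := by
  unfold flip
  have h0 : Function.update ω g (ω g) = ω := Function.update_eq_self g ω
  cases hg : ω g
  · rw [hg] at h0
    rw [Bool.not_false, ← h, h0]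
  · rw [hg] at h0
    rw [Bool.not_true, h, h0]

/-- Stability of `R`. -/
theorem inR_flip {ω : Config} {a b c d : ℤ} {g : Edge} (hg : g ∈ redges a b c d)
    (h : ¬ InR ω a b c d g) (e : Edge) : InR (flip ω g) a b c d e ↔ InR ω a b c d e := by
  by_cases hge : e = g
  · subst hge
    exact inR_update_self e _
  · refine sens_update_cases (P := fun ω => InR ω a b c d e) ?_
    by_cases h1 : OArm ω a b c d g
    · by_cases h2 : CArm ω a b c d g
      · exact absurd ⟨hg, h1, h2⟩ h
      · exact stabB hg h2 hge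
    · exact stabA hg h1 hge

/-- The number of clusters does not notice edges that are not inside. -/
theorem sens_K_out {ω : Config} {S : Set Vert} {e : Edge} (h : ¬ (src e ∈ S ∧ tgt e ∈ S)) :
    K (Function.update ω e false) S = K (Function.update ω e true) S := by
  refine K_congr fun e' h1 h2 => ?_
  have hne : e' ≠ e := by
    rintro rfl
    exact h ⟨h1, h2⟩
  rw [Function.update_of_ne hne, Function.update_of_ne hne]

theorem sens_X_update {ω : Config} {x0 x1 x2 x3 c d : ℤ} (h01 : x0 ≤ x1) (h12 : x1 ≤ x2)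
    (h23 : x2 ≤ x3) {e : Edge} (h1 : ¬ InR ω x0 x1 c d e) (h2 : ¬ InR ω x1 x2 c d e)
    (h3 : ¬ InR ω x2 x3 c d e) :
    X (Function.update ω e false) x0 x1 x2 x3 c d
      = X (Function.update ω e true) x0 x1 x2 x3 c d := by
  have sub : ∀ {a b a' b' : ℤ}, a' ≤ a → b ≤ b' → rect a b c d ⊆ rect a' b' c d := by
    intro a b a' b' ha hb v hv
    exact ⟨ha.trans hv.1, hv.2.1.trans hb, hv.2.2.1, hv.2.2.2⟩
  have fin : ∀ a b : ℤ, (rect a b c d).Finite := fun a b => rect_finite a b c d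
  set cc : ℤ → ℤ → Prop := fun a b =>
    Conn (Function.update ω e false) (rect a b c d) (src e) (tgt e) with hcc
  have up0 : ∀ a b : ℤ, src e ∈ rect a b c d → tgt e ∈ rect a b c d → cc a b →
      (K (Function.update ω e false) (rect a b c d) : ℤ)
        = K (Function.update ω e true) (rect a b c d) := by
    intro a b hs ht hc
    exact_mod_cast (K_update (fin a b) hs ht).1 hc
  have up1 : ∀ a b : ℤ, src e ∈ rect a b c d → tgt e ∈ rect a b c d → ¬ cc a b →
      (K (Function.update ω e false) (rect a b c d) : ℤ)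
        = K (Function.update ω e true) (rect a b c d) + 1 := by
    intro a b hs ht hc
    exact_mod_cast (K_update (fin a b) hs ht).2 hc
  have out : ∀ a b : ℤ, ¬ (src e ∈ rect a b c d ∧ tgt e ∈ rect a b c d) →
      (K (Function.update ω e false) (rect a b c d) : ℤ)
        = K (Function.update ω e true) (rect a b c d) := by
    intro a b h
    exact_mod_cast sens_K_out h
  have mono : ∀ {a b a' b' : ℤ}, a' ≤ a → b ≤ b' → cc a b → cc a' b' := by
    intro a b a' b' ha hb hc
    exact Conn.mono_set (sub ha hb) hc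
  have piv : ∀ {a b a' b' : ℤ}, a' ≤ a → b ≤ b' → src e ∈ rect a b c d → tgt e ∈ rect a b c d →
      ¬ InR ω a b c d e → cc a' b' → cc a b := by
    intro a b a' b' ha hb hs ht hn hc
    by_contra hcon
    exact hn (inR_of_pivot (mem_redges.2 ⟨hs, ht⟩) (sub ha hb) hc hcon)
  unfold X
  by_cases hU : src e ∈ rect x0 x3 c d ∧ tgt e ∈ rect x0 x3 c d
  · obtain ⟨hUs, hUt⟩ := hU
    by_cases hI : src e ∈ rect x1 x2 c d ∧ tgt e ∈ rect x1 x2 c d
    · obtain ⟨hIs, hIt⟩ := hI
      have hAs := sub h01 le_rfl hIs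
      have hAt := sub h01 le_rfl hIt
      have hBs := sub le_rfl h23 hIs
      have hBt := sub le_rfl h23 hIt
      by_cases hc : cc x0 x3
      · have hcI : cc x1 x2 := piv h01 h23 hIs hIt h2 hc
        rw [up0 _ _ hUs hUt hc, up0 _ _ hAs hAt (mono h01 le_rfl hcI),
          up0 _ _ hBs hBt (mono le_rfl h23 hcI), up0 _ _ hIs hIt hcI]
      · have hA : ¬ cc x0 x2 := fun h => hc (mono le_rfl h23 h)
        have hB : ¬ cc x1 x3 := fun h => hc (mono h01 le_rfl h)
        have hI' : ¬ cc x1 x2 := fun h => hc (mono h01 h23 h)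
        rw [up1 _ _ hUs hUt hc, up1 _ _ hAs hAt hA, up1 _ _ hBs hBt hB, up1 _ _ hIs hIt hI']
        ring
    · -- geometry of the edge
      have hlen : (src e).1 ≤ (tgt e).1 ∧ (tgt e).1 ≤ (src e).1 + 1 := by
        unfold src tgt
        split <;> constructor <;> simp
      by_cases hA : src e ∈ rect x0 x2 c d ∧ tgt e ∈ rect x0 x2 c d
      · obtain ⟨hAs, hAt⟩ := hA
        -- `e` is an edge of `[x0, x1]`
        have hlt : (src e).1 < x1 ∨ (tgt e).1 < x1 := by
          by_contra hcon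
          push Not at hcon
          exact hI ⟨⟨hcon.1, hAs.2.1, hAs.2.2⟩, ⟨hcon.2, hAt.2.1, hAt.2.2⟩⟩
        have hs1 : src e ∈ rect x0 x1 c d := ⟨hAs.1, by omega, hAs.2.2⟩
        have ht1 : tgt e ∈ rect x0 x1 c d := ⟨hAt.1, by omega, hAt.2.2⟩
        have hB : ¬ (src e ∈ rect x1 x3 c d ∧ tgt e ∈ rect x1 x3 c d) := by
          rintro ⟨⟨h4, -⟩, ⟨h5, -⟩⟩
          omega
        rw [out _ _ hI, out _ _ hB]
        by_cases hc : cc x0 x3
        · have hc1 : cc x0 x1 := piv le_rfl (h12.trans h23) hs1 ht1 h1 hc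
          rw [up0 _ _ hUs hUt hc, up0 _ _ hAs hAt (mono le_rfl h12 hc1)]
        · have hA : ¬ cc x0 x2 := fun h => hc (mono le_rfl h23 h)
          rw [up1 _ _ hUs hUt hc, up1 _ _ hAs hAt hA]
          ring
      · -- `e` is an edge of `[x2, x3]`
        have hgt : x2 < (src e).1 ∨ x2 < (tgt e).1 := by
          by_contra hcon
          push Not at hcon
          exact hA ⟨⟨hUs.1, hcon.1, hUs.2.2⟩, ⟨hUt.1, hcon.2, hUt.2.2⟩⟩
        have hs3 : src e ∈ rect x2 x3 c d := ⟨by omega, hUs.2.1, hUs.2.2⟩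
        have ht3 : tgt e ∈ rect x2 x3 c d := ⟨by omega, hUt.2.1, hUt.2.2⟩
        have hBs := sub h12 le_rfl hs3
        have hBt := sub h12 le_rfl ht3
        rw [out _ _ hI, out _ _ hA]
        by_cases hc : cc x0 x3
        · have hc3 : cc x2 x3 := piv (h01.trans h12) le_rfl hs3 ht3 h3 hc
          rw [up0 _ _ hUs hUt hc, up0 _ _ hBs hBt (mono h12 le_rfl hc3)]
        · have hB : ¬ cc x1 x3 := fun h => hc (mono h01 le_rfl h)
          rw [up1 _ _ hUs hUt hc, up1 _ _ hBs hBt hB]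
          ring
  · have hnot : ∀ {a b : ℤ}, x0 ≤ a → b ≤ x3 →
        ¬ (src e ∈ rect a b c d ∧ tgt e ∈ rect a b c d) := by
      intro a b ha hb h
      exact hU ⟨sub ha hb h.1, sub ha hb h.2⟩
    rw [out _ _ hU, out _ _ (hnot (a := x0) (b := x2) le_rfl h23),
      out _ _ (hnot (a := x1) (b := x3) h01 le_rfl), out _ _ (hnot (a := x1) (b := x2) h01 h23)]

theorem X_flip {ω : Config} {x0 x1 x2 x3 c d : ℤ} (h01 : x0 ≤ x1) (h12 : x1 ≤ x2)
    (h23 : x2 ≤ x3) {e : Edge} (h1 : ¬ InR ω x0 x1 c d e) (h2 : ¬ InR ω x1 x2 c d e)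
    (h3 : ¬ InR ω x2 x3 c d e) : X (flip ω e) x0 x1 x2 x3 c d = X ω x0 x1 x2 x3 c d := by
  have h := sens_X_update h01 h12 h23 h1 h2 h3
  exact (sens_update_cases (P := fun ω' => X ω' x0 x1 x2 x3 c d = X ω x0 x1 x2 x3 c d)
    (by simp only [h])).2 rfl

/-- The union of the three random sets, for configurations given by finite sets of edges. -/
noncomputable def RU (x0 x1 x2 x3 c d : ℤ) (S : Finset Edge) : Finset Edge := by
  classical
  exact (redges x0 x3 c d).filter (fun e => InR (ofS S) x0 x1 c d e ∨ InR (ofS S) x1 x2 c d e ∨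
    InR (ofS S) x2 x3 c d e)

theorem sens_ofS_sflip (S : Finset Edge) (g : Edge) : ofS (sflip S g) = flip (ofS S) g := by
  unfold sflip flip
  by_cases h : g ∈ S
  · have h' : ofS S g = true := ofS_eq_true.2 h
    rw [if_pos h, h', Bool.not_true, (ofS_update S g).2]
  · have h' : ofS S g = false := by simp [ofS, h]
    rw [if_neg h, h', Bool.not_false, (ofS_update S g).1]

theorem sens_mem_RU {x0 x1 x2 x3 c d : ℤ} {S : Finset Edge} {g : Edge} :
    g ∈ RU x0 x1 x2 x3 c d S ↔ g ∈ redges x0 x3 c d ∧ (InR (ofS S) x0 x1 c d g ∨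
      InR (ofS S) x1 x2 c d g ∨ InR (ofS S) x2 x3 c d g) := by
  classical
  unfold RU
  simp only [Finset.mem_filter]

theorem sens_not_inR {x0 x1 x2 x3 c d : ℤ} (h01 : x0 ≤ x1) (h12 : x1 ≤ x2) (h23 : x2 ≤ x3)
    {S : Finset Edge} {g : Edge} (hg : g ∉ RU x0 x1 x2 x3 c d S) :
    ¬ InR (ofS S) x0 x1 c d g ∧ ¬ InR (ofS S) x1 x2 c d g ∧ ¬ InR (ofS S) x2 x3 c d g := by
  rw [sens_mem_RU] at hg
  have sub : ∀ {a b : ℤ}, x0 ≤ a → b ≤ x3 → g ∈ redges a b c d → g ∈ redges x0 x3 c d := by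
    intro a b ha hb h
    rw [mem_redges] at h ⊢
    exact ⟨⟨ha.trans h.1.1, h.1.2.1.trans hb, h.1.2.2⟩, ⟨ha.trans h.2.1, h.2.2.1.trans hb, h.2.2.2⟩⟩
  refine ⟨fun h => hg ⟨?_, Or.inl h⟩, fun h => hg ⟨?_, Or.inr (Or.inl h)⟩,
    fun h => hg ⟨?_, Or.inr (Or.inr h)⟩⟩
  · exact sub le_rfl (h12.trans h23) h.1
  · exact sub h01 h23 h.1
  · exact sub (h01.trans h12) le_rfl h.1

theorem sens_inR_flip' {ω : Config} {a b c d : ℤ} {g : Edge}
    (h : ¬ InR ω a b c d g) (e : Edge) : InR (flip ω g) a b c d e ↔ InR ω a b c d e := by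
  by_cases hg : g ∈ redges a b c d
  · exact inR_flip hg h e
  · refine inR_congr (fun e' he' => ?_) e
    have hne : e' ≠ g := by
      rintro rfl
      exact hg he'
    unfold flip
    rw [Function.update_of_ne hne]

/-- The union of the three sets is stable. -/
theorem RU_sflip {x0 x1 x2 x3 c d : ℤ} (h01 : x0 ≤ x1) (h12 : x1 ≤ x2) (h23 : x2 ≤ x3)
    {S : Finset Edge} {g : Edge} (hg : g ∉ RU x0 x1 x2 x3 c d S) :
    RU x0 x1 x2 x3 c d (sflip S g) = RU x0 x1 x2 x3 c d S := by
  obtain ⟨h1, h2, h3⟩ := sens_not_inR h01 h12 h23 hg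
  ext e
  rw [sens_mem_RU, sens_mem_RU, sens_ofS_sflip, sens_inR_flip' h1 e, sens_inR_flip' h2 e,
    sens_inR_flip' h3 e]

theorem X_sflip {x0 x1 x2 x3 c d : ℤ} (h01 : x0 ≤ x1) (h12 : x1 ≤ x2) (h23 : x2 ≤ x3)
    {S : Finset Edge} {g : Edge} (hg : g ∉ RU x0 x1 x2 x3 c d S) :
    X (ofS (sflip S g)) x0 x1 x2 x3 c d = X (ofS S) x0 x1 x2 x3 c d := by
  obtain ⟨h1, h2, h3⟩ := sens_not_inR h01 h12 h23 hg
  rw [sens_ofS_sflip]
  exact X_flip h01 h12 h23 h1 h2 h3

end Pool.Agent.H29.Kap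

end

section

/-! # Expected cluster counts: invariance and limit -/

set_option autoImplicit false

namespace Pool.Agent.H29.Kap

open Pool.Agent.H89.Perc Pool.Agent.Perc

theorem invar_ofS_inter {S : Finset Edge} {G : Finset Edge} {e : Edge} (he : e ∈ G) :
    ofS S e = ofS (S ∩ G) e := by
  rw [ofS_apply, ofS_apply, decide_eq_decide, Finset.mem_inter]
  exact ⟨fun x => ⟨x, he⟩, fun x => x.1⟩

/-- The expectation may be computed on any larger finite set of edges. -/
theorem EK_of_subset {p : ℝ} {a b c d : ℤ} {F : Finset Edge} (h : redges a b c d ⊆ F) :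
    Ex p F (fun S => (K (ofS S) (rect a b c d) : ℝ)) = EK p a b c d := by
  refine Ex_restrict h (fun S _ => ?_) p
  rw [K_congr (ω := ofS S) (ω' := ofS (S ∩ redges a b c d))]
  intro e h1 h2
  exact invar_ofS_inter (mem_redges.2 ⟨h1, h2⟩)

theorem EJ_of_subset {p : ℝ} {a b c d : ℤ} {F : Finset Edge} (h : redges a b c d ⊆ F) :
    Ex p F (fun S => (J (ofS S) (rect a b c d) (bd a b c d) : ℝ)) = EJ p a b c d := by
  refine Ex_restrict h (fun S _ => ?_) p
  rw [J_congr (ω := ofS S) (ω' := ofS (S ∩ redges a b c d))]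
  intro e h1 h2
  exact invar_ofS_inter (mem_redges.2 ⟨h1, h2⟩)

/-- Cluster counts under a relabelling. -/
theorem invar_K_map {ω ω' : Config} {S T : Set Vert} (f : Vert → Vert) (hf : Function.Injective f)
    (hT : T = f '' S) (h : ∀ u ∈ S, ∀ v ∈ S, Conn ω S u v ↔ Conn ω' T (f u) (f v)) :
    K ω S = K ω' T := by
  have hc : clusters ω' T = (fun C => f '' C) '' clusters ω S := by
    ext D
    constructor
    · rintro ⟨v, hv, rfl⟩
      rw [hT] at hv
      obtain ⟨u, hu, rfl⟩ := hv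
      refine ⟨{w | Conn ω S u w}, ⟨u, hu, rfl⟩, ?_⟩
      ext w
      constructor
      · rintro ⟨x, hx, rfl⟩
        exact (h u hu x (Conn.mem_right hx)).1 hx
      · intro hw
        have hwT := Conn.mem_right hw
        rw [hT] at hwT
        obtain ⟨x, hx, rfl⟩ := hwT
        exact ⟨x, (h u hu x hx).2 hw, rfl⟩
    · rintro ⟨C, ⟨u, hu, rfl⟩, rfl⟩
      refine ⟨f u, by rw [hT]; exact ⟨u, hu, rfl⟩, ?_⟩
      ext w
      constructor
      · rintro ⟨x, hx, rfl⟩
        exact (h u hu x (Conn.mem_right hx)).1 hx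
      · intro hw
        have hwT := Conn.mem_right hw
        rw [hT] at hwT
        obtain ⟨x, hx, rfl⟩ := hwT
        exact ⟨x, (h u hu x hx).2 hw, rfl⟩
  unfold K
  rw [hc, Set.ncard_image_of_injective _ (Set.image_injective.2 hf)]

theorem invar_ofS_image {S : Finset Edge} {φ : Edge → Edge} (hφ : Function.Injective φ) :
    (fun e => ofS (S.image φ) (φ e)) = ofS S := by
  funext e
  rw [ofS_apply, ofS_apply, decide_eq_decide, Finset.mem_image]
  constructor
  · rintro ⟨x, hx, hxe⟩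
    rwa [← hφ hxe]
  · intro h; exact ⟨e, h, rfl⟩

/-- Translation invariance. -/
theorem EK_shift (p : ℝ) (a b c d x y : ℤ) :
    EK p (a + x) (b + x) (c + y) (d + y) = EK p a b c d := by
  have h1 : redges (a + x) (b + x) (c + y) (d + y) = (redges a b c d).image (shiftE (x, y)) := by
    ext e
    rw [Finset.mem_image]
    constructor
    · intro he
      refine ⟨shiftE (-(x, y)) e, ?_, shiftE_neg _ _⟩
      rw [mem_redges] at he ⊢
      obtain ⟨u, v, t⟩ := e
      cases t <;> simp [src, tgt, rect, shiftE] at he ⊢ <;> omega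
    · rintro ⟨e', he', rfl⟩
      rw [mem_redges] at he' ⊢
      obtain ⟨u, v, t⟩ := e'
      cases t <;> simp [src, tgt, rect, shiftE] at he' ⊢ <;> omega
  unfold EK
  rw [h1, Ex_image _ (shiftE_injective _).injOn]
  refine Ex_congr fun S _ => ?_
  have h2 := invar_K_map (ω := ofS S) (ω' := ofS (S.image (shiftE (x, y)))) (S := rect a b c d)
    (T := rect (a + x) (b + x) (c + y) (d + y)) (fun w => (w.1 + x, w.2 + y)) ?_ ?_ ?_
  · rw [h2]
  · rintro ⟨u, v⟩ ⟨u', v'⟩ h
    simp only [Prod.mk.injEq] at h ⊢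
    omega
  · ext ⟨u, v⟩
    simp only [rect, Set.mem_ofPred_eq, Set.mem_image, Prod.mk.injEq, Prod.exists]
    constructor
    · intro h
      exact ⟨u - x, v - y, by omega, by omega, by omega⟩
    · rintro ⟨u', v', h, h3, h4⟩
      omega
  · intro u _ v _
    have h3 := conn_shift (ω := ofS (S.image (shiftE (x, y)))) (x, y) (rect a b c d) u v
    rw [invar_ofS_image (shiftE_injective _)] at h3
    rw [h3]
    have h4 : {w : Vert | (w.1 - (x, y).1, w.2 - (x, y).2) ∈ rect a b c d}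
        = rect (a + x) (b + x) (c + y) (d + y) := by
      ext w
      simp only [Set.mem_ofPred_eq, rect]
      omega
    rw [h4]

/-- Invariance under reflection in the diagonal. -/
theorem EK_swap (p : ℝ) (a b c d : ℤ) : EK p c d a b = EK p a b c d := by
  have h1 : redges c d a b = (redges a b c d).image swapE := by
    ext e
    rw [Finset.mem_image]
    constructor
    · intro he
      refine ⟨swapE e, ?_, swapE_swapE _⟩
      rw [mem_redges] at he ⊢
      obtain ⟨u, v, t⟩ := e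
      cases t <;> simp [src, tgt, rect, swapE] at he ⊢ <;> omega
    · rintro ⟨e', he', rfl⟩
      rw [mem_redges] at he' ⊢
      obtain ⟨u, v, t⟩ := e'
      cases t <;> simp [src, tgt, rect, swapE] at he' ⊢ <;> omega
  unfold EK
  rw [h1, Ex_image _ swapE_injective.injOn]
  refine Ex_congr fun S _ => ?_
  have h2 := invar_K_map (ω := ofS S) (ω' := ofS (S.image swapE)) (S := rect a b c d)
    (T := rect c d a b) (fun w => (w.2, w.1)) ?_ ?_ ?_
  · rw [h2]
  · rintro ⟨u, v⟩ ⟨u', v'⟩ h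
    simp only [Prod.mk.injEq] at h ⊢
    omega
  · ext ⟨u, v⟩
    simp only [rect, Set.mem_ofPred_eq, Set.mem_image, Prod.mk.injEq, Prod.exists]
    constructor
    · intro h
      exact ⟨v, u, by omega, rfl, rfl⟩
    · rintro ⟨u', v', h, h3, h4⟩
      omega
  · intro u _ v _
    have h3 := conn_swap (ω := ofS (S.image swapE)) (rect a b c d) u v
    rw [invar_ofS_image swapE_injective] at h3
    rw [h3]
    have h4 : {w : Vert | (w.2, w.1) ∈ rect a b c d} = rect c d a b := by
      ext w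
      simp only [Set.mem_ofPred_eq, rect]
      omega
    rw [h4]

/-- Almost additivity in the first coordinate. -/
theorem EK_split {p : ℝ} (h0 : 0 ≤ p) (h1 : p ≤ 1) {a m b c d : ℤ} (ham : a ≤ m) (hmb : m < b)
    (hcd : c ≤ d) :
    |EK p a b c d - EK p a m c d - EK p (m + 1) b c d| ≤ d - c + 1 := by
  have e1 : redges a m c d ⊆ redges a b c d := by
    intro e he
    rw [mem_redges] at he ⊢
    simp only [rect, Set.mem_ofPred_eq] at he ⊢
    omega
  have e2 : redges (m + 1) b c d ⊆ redges a b c d := by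
    intro e he
    rw [mem_redges] at he ⊢
    simp only [rect, Set.mem_ofPred_eq] at he ⊢
    omega
  rw [← EK_of_subset e1, ← EK_of_subset e2]
  unfold EK
  rw [← Ex_sub, ← Ex_sub]
  refine (abs_Ex_le h0 h1 _).trans ?_
  have h3 : Ex p (redges a b c d) (fun _ => ((d : ℝ) - c + 1)) = (d : ℝ) - c + 1 := Ex_const _ _ _
  rw [← h3]
  refine Ex_mono h0 h1 fun S _ => ?_
  have hu : rect a m c d ∪ rect (m + 1) b c d = rect a b c d := by
    ext w
    simp only [rect, Set.mem_ofPred_eq, Set.mem_union]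
    omega
  have k1 : K (ofS S) (rect a b c d) ≤ K (ofS S) (rect a m c d) + K (ofS S) (rect (m + 1) b c d) := by
    rw [← hu]
    exact K_union_le (rect_finite _ _ _ _) (rect_finite _ _ _ _)
  have k2 := K_split_le (ω := ofS S) ham hmb hcd
  have k1' : (K (ofS S) (rect a b c d) : ℝ) ≤ K (ofS S) (rect a m c d)
      + K (ofS S) (rect (m + 1) b c d) := by exact_mod_cast k1
  have k2' : (K (ofS S) (rect a m c d) : ℝ) + K (ofS S) (rect (m + 1) b c d)
      ≤ K (ofS S) (rect a b c d) + (d - c + 1) := by exact_mod_cast k2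
  have hcd' : (c : ℝ) ≤ d := by exact_mod_cast hcd
  rw [abs_le]
  constructor <;> linarith

theorem invar_ncard_rect {a b c d : ℤ} (hab : a ≤ b + 1) (hcd : c ≤ d + 1) :
    ((rect a b c d).ncard : ℝ) = (b - a + 1) * (d - c + 1) := by
  have h : rect a b c d = ((Finset.Icc a b ×ˢ Finset.Icc c d : Finset (ℤ × ℤ)) : Set (ℤ × ℤ)) := by
    ext ⟨x, y⟩
    simp only [rect, Set.mem_ofPred_eq, Finset.coe_product, Finset.coe_Icc, Set.mem_prod,
      Set.mem_Icc]
    tauto
  rw [h, Set.ncard_coe_finset, Finset.card_product, Int.card_Icc, Int.card_Icc]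
  have e1 : (((b + 1 - a).toNat : ℕ) : ℤ) = b + 1 - a := Int.toNat_of_nonneg (by omega)
  have e2 : (((d + 1 - c).toNat : ℕ) : ℤ) = d + 1 - c := Int.toNat_of_nonneg (by omega)
  have e1' : (((b + 1 - a).toNat : ℕ) : ℝ) = b + 1 - a := by exact_mod_cast e1
  have e2' : (((d + 1 - c).toNat : ℕ) : ℝ) = d + 1 - c := by exact_mod_cast e2
  push_cast
  rw [e1', e2']
  ring

theorem EK_nonneg_le {p : ℝ} (h0 : 0 ≤ p) (h1 : p ≤ 1) {a b c d : ℤ} (hab : a ≤ b)
    (hcd : c ≤ d) : 0 ≤ EK p a b c d ∧ EK p a b c d ≤ (b - a + 1) * (d - c + 1) := by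
  constructor
  · exact Ex_nonneg h0 h1 fun S _ => Nat.cast_nonneg _
  · rw [← invar_ncard_rect (a := a) (b := b) (c := c) (d := d) (by omega) (by omega)]
    have h3 : Ex p (redges a b c d) (fun _ => ((rect a b c d).ncard : ℝ))
        = ((rect a b c d).ncard : ℝ) := Ex_const _ _ _
    rw [← h3]
    unfold EK
    refine Ex_mono h0 h1 fun S _ => ?_
    exact_mod_cast K_le_ncard (rect_finite _ _ _ _)

/-- Expected number of clusters of the box with `n × m` vertices. -/
noncomputable def invarB (p : ℝ) (n m : ℕ) : ℝ := EK p 0 (n - 1) 0 (m - 1)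

theorem invarB_comm (p : ℝ) (n m : ℕ) : invarB p n m = invarB p m n := EK_swap p _ _ _ _

theorem invarB_add {p : ℝ} (h0 : 0 ≤ p) (h1 : p ≤ 1) {n n' m : ℕ} (hn : 1 ≤ n) (hn' : 1 ≤ n')
    (hm : 1 ≤ m) : |invarB p (n + n') m - invarB p n m - invarB p n' m| ≤ m := by
  have h := EK_split h0 h1 (a := 0) (m := (n : ℤ) - 1) (b := ((n + n' : ℕ) : ℤ) - 1) (c := 0)
    (d := (m : ℤ) - 1) (by omega) (by push_cast; omega) (by omega)
  have h2 := EK_shift p 0 ((n' : ℤ) - 1) 0 ((m : ℤ) - 1) n 0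
  have e1 : (0 : ℤ) + n = (n : ℤ) - 1 + 1 := by ring
  have e2 : (n' : ℤ) - 1 + n = ((n + n' : ℕ) : ℤ) - 1 := by push_cast; ring
  rw [e1, e2, add_zero, add_zero] at h2
  rw [h2] at h
  unfold invarB
  refine h.trans (le_of_eq ?_)
  push_cast
  ring

theorem invarB_mul {p : ℝ} (h0 : 0 ≤ p) (h1 : p ≤ 1) {n m : ℕ} (hn : 1 ≤ n) (hm : 1 ≤ m) (q : ℕ) :
    |invarB p ((q + 1) * n) m - (q + 1) * invarB p n m| ≤ q * m := by
  induction q with
  | zero => simp
  | succ q ih =>
    have h := invarB_add h0 h1 (n := (q + 1) * n) (n' := n) (m := m) (Nat.mul_pos (by omega) hn) hn hm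
    have e : (q + 1 + 1) * n = (q + 1) * n + n := by ring
    rw [e]
    push_cast
    rw [abs_le] at h ih ⊢
    constructor <;> nlinarith [h.1, h.2, ih.1, ih.2]

theorem invarB_sq {p : ℝ} (h0 : 0 ≤ p) (h1 : p ≤ 1) {n q : ℕ} (hn : 1 ≤ n) (hq : 1 ≤ q) :
    |invarB p (q * n) (q * n) / ((q * n : ℕ) : ℝ) ^ 2 - invarB p n n / (n : ℝ) ^ 2| ≤ 2 / n := by
  obtain ⟨r, rfl⟩ : ∃ r, q = r + 1 := ⟨q - 1, by omega⟩
  have k1 := invarB_mul h0 h1 hn (m := (r + 1) * n) (Nat.mul_pos (by omega) hn) r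
  have k2 := invarB_mul h0 h1 hn hn r
  rw [invarB_comm p n ((r + 1) * n)] at k1
  have hn0 : (1 : ℝ) ≤ n := by exact_mod_cast hn
  have hr0 : (0 : ℝ) ≤ r := Nat.cast_nonneg _
  set A := invarB p ((r + 1) * n) ((r + 1) * n)
  set B := invarB p ((r + 1) * n) n
  set D := invarB p n n
  push_cast at k1 ⊢
  have hden : (0 : ℝ) < (((r : ℝ) + 1) * n) ^ 2 := by positivity
  have key : A / (((r : ℝ) + 1) * n) ^ 2 - D / (n : ℝ) ^ 2
      = (A - (r + 1) ^ 2 * D) / (((r : ℝ) + 1) * n) ^ 2 := by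
    field_simp
  rw [key, abs_div, abs_of_pos hden, div_le_div_iff₀ hden (by linarith)]
  have h3 : |A - ((r : ℝ) + 1) ^ 2 * D| ≤ 2 * ((r : ℝ) + 1) ^ 2 * (n : ℝ) := by
    rw [abs_le] at k1 k2 ⊢
    constructor <;> nlinarith [k1.1, k1.2, k2.1, k2.2, mul_nonneg hr0 (by linarith : (0:ℝ) ≤ n),
      mul_le_mul_of_nonneg_left k2.1 (by linarith : (0:ℝ) ≤ r + 1),
      mul_le_mul_of_nonneg_left k2.2 (by linarith : (0:ℝ) ≤ r + 1),
      mul_nonneg (mul_nonneg hr0 hr0) (by linarith : (0:ℝ) ≤ n)]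
  calc |A - ((r : ℝ) + 1) ^ 2 * D| * (n : ℝ) ≤ 2 * ((r : ℝ) + 1) ^ 2 * (n : ℝ) * (n : ℝ) :=
        mul_le_mul_of_nonneg_right h3 (by linarith)
    _ = 2 * (((r : ℝ) + 1) * n) ^ 2 := by ring

/-- The cluster density: the limit of `E_p K / n²` exists, with a rate. -/
theorem kappa_exists {p : ℝ} (h0 : 0 ≤ p) (h1 : p ≤ 1) :
    ∃ κ : ℝ, ∀ n : ℕ, 1 ≤ n → |EK p 0 (n - 1) 0 (n - 1) / (n : ℝ) ^ 2 - κ| ≤ 2 / n := by
  set s : ℕ → ℝ := fun n => invarB p n n / (n : ℝ) ^ 2 with hs
  have h2 : ∀ n m : ℕ, 1 ≤ n → 1 ≤ m → |s n - s m| ≤ 2 / n + 2 / m := by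
    intro n m hn hm
    have k1 := invarB_sq h0 h1 (n := n) (q := m) hn hm
    have k2 := invarB_sq h0 h1 (n := m) (q := n) hm hn
    rw [mul_comm n m] at k2
    simp only [hs]
    rw [abs_le] at k1 k2 ⊢
    constructor <;> linarith [k1.1, k1.2, k2.1, k2.2]
  have hc : CauchySeq s := by
    rw [Metric.cauchySeq_iff']
    intro ε hε
    obtain ⟨N, hN⟩ := exists_nat_gt (4 / ε)
    have hN0 : (0 : ℝ) < N := lt_of_le_of_lt (by positivity) hN
    have hN1 : 1 ≤ N := by
      rcases Nat.eq_zero_or_pos N with h | h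
      · rw [h] at hN0; simp at hN0
      · exact h
    refine ⟨N, fun n hn => ?_⟩
    rw [Real.dist_eq]
    have hn1 : 1 ≤ n := hN1.trans hn
    have hnN : (N : ℝ) ≤ n := by exact_mod_cast hn
    refine (h2 n N hn1 hN1).trans_lt ?_
    have : (2 : ℝ) / n ≤ 2 / N := div_le_div_of_nonneg_left (by norm_num) hN0 hnN
    have h4 : (2 : ℝ) / N + 2 / N = 4 / N := by ring
    have h5 : (4 : ℝ) / N < ε := by
      rw [div_lt_iff₀ hε] at hN
      rw [div_lt_iff₀ hN0]
      linarith
    linarith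
  obtain ⟨κ, hκ⟩ := cauchySeq_tendsto_of_complete hc
  refine ⟨κ, fun n hn => ?_⟩
  have h3 : Filter.Tendsto (fun m : ℕ => |s n - s m|) Filter.atTop (nhds |s n - κ|) :=
    (hκ.const_sub (s n)).abs
  have h4 : Filter.Tendsto (fun m : ℕ => (2 : ℝ) / n + 2 / m) Filter.atTop (nhds (2 / n + 0)) :=
    (tendsto_const_div_atTop_nhds_zero_nat (2 : ℝ)).const_add _
  rw [add_zero] at h4
  refine le_of_tendsto_of_tendsto h3 h4 ?_
  filter_upwards [Filter.eventually_ge_atTop 1] with m hm
  exact h2 n m hn hm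

theorem invarB_one_le {p : ℝ} (h0 : 0 ≤ p) (h1 : p ≤ 1) {m : ℕ} (hm : 1 ≤ m) :
    0 ≤ invarB p 1 m ∧ invarB p 1 m ≤ m := by
  have := EK_nonneg_le h0 h1 (a := 0) (b := ((1 : ℕ) : ℤ) - 1) (c := 0) (d := (m : ℤ) - 1)
    (by norm_num) (by omega)
  refine ⟨this.1, this.2.trans (le_of_eq ?_)⟩
  push_cast
  ring

theorem invarB_succ {p : ℝ} (h0 : 0 ≤ p) (h1 : p ≤ 1) {n m : ℕ} (hn : 1 ≤ n) (hm : 1 ≤ m) :
    |invarB p (n + 1) m - invarB p n m| ≤ 2 * m := by
  have k1 := invarB_add h0 h1 hn le_rfl hm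
  have k2 := invarB_one_le h0 h1 hm
  rw [abs_le] at k1 ⊢
  constructor <;> linarith [k1.1, k1.2, k2.1, k2.2]

/-- Boxes with side lengths `2n`, `2n × n` and `n` (that is `2n + 1`, ... vertices). -/
theorem EK_boxes {p κ : ℝ} (h0 : 0 ≤ p) (h1 : p ≤ 1)
    (hκ : ∀ n : ℕ, 1 ≤ n → |EK p 0 (n - 1) 0 (n - 1) / (n : ℝ) ^ 2 - κ| ≤ 2 / n) :
    ∃ C : ℝ, ∀ n : ℕ, 1 ≤ n →
      |EK p 0 (2 * n) 0 (2 * n) - 2 * EK p 0 (2 * n) 0 n + EK p 0 n 0 n - κ * n ^ 2| ≤ C * n := by
  refine ⟨100, fun n hn => ?_⟩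
  have hn0 : (1 : ℝ) ≤ n := by exact_mod_cast hn
  have e1 : EK p 0 (2 * n) 0 (2 * n) = invarB p (2 * n + 1) (2 * n + 1) := by
    unfold invarB
    congr 1 <;> push_cast <;> ring
  have e2 : EK p 0 (2 * n) 0 n = invarB p (2 * n + 1) (n + 1) := by
    unfold invarB
    congr 1 <;> push_cast <;> ring
  have e3 : EK p 0 n 0 n = invarB p (n + 1) (n + 1) := by
    unfold invarB
    congr 1 <;> push_cast <;> ring
  rw [e1, e2, e3]
  have h2n : 1 ≤ 2 * n := by omega
  -- reductions
  have a1 := invarB_succ h0 h1 (n := 2 * n) (m := 2 * n + 1) h2n (by omega)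
  have a2 := invarB_succ h0 h1 (n := 2 * n) (m := 2 * n) h2n h2n
  rw [invarB_comm p (2 * n + 1) (2 * n)] at a2
  have a3 := invarB_add h0 h1 (n := n) (n' := n) (m := 2 * n) hn hn h2n
  have a4 := invarB_add h0 h1 (n := n) (n' := n) (m := n) hn hn hn
  rw [← two_mul] at a3 a4
  rw [invarB_comm p n (2 * n)] at a3
  have b1 := invarB_succ h0 h1 (n := 2 * n) (m := n + 1) h2n (by omega)
  have b2 := invarB_succ h0 h1 (n := n) (m := 2 * n) hn h2n
  rw [invarB_comm p (n + 1) (2 * n), invarB_comm p n (2 * n)] at b2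
  have c1 := invarB_succ h0 h1 (n := n) (m := n + 1) hn (by omega)
  have c2 := invarB_succ h0 h1 (n := n) (m := n) hn hn
  rw [invarB_comm p (n + 1) n] at c2
  have hk : |invarB p n n - κ * n ^ 2| ≤ 2 * n := by
    have := hκ n hn
    have h3 : invarB p n n - κ * n ^ 2 = (EK p 0 (n - 1) 0 (n - 1) / (n : ℝ) ^ 2 - κ) * n ^ 2 := by
      unfold invarB
      field_simp
    rw [h3, abs_mul, abs_of_nonneg (by positivity : (0 : ℝ) ≤ (n : ℝ) ^ 2)]
    calc |EK p 0 (n - 1) 0 (n - 1) / (n : ℝ) ^ 2 - κ| * (n : ℝ) ^ 2 ≤ 2 / n * (n : ℝ) ^ 2 :=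
          mul_le_mul_of_nonneg_right this (by positivity)
      _ = 2 * n := by field_simp
  push_cast at *
  rw [abs_le] at *
  constructor <;> linarith [a1.1, a1.2, a2.1, a2.2, a3.1, a3.2, a4.1, a4.2, b1.1, b1.2, b2.1, b2.2,
    c1.1, c1.2, c2.1, c2.2, hk.1, hk.2]

end Pool.Agent.H29.Kap

end

section

/-! # Euler's formula for the clusters of a rectangle -/

set_option autoImplicit false

namespace Pool.Agent.H29.Kap

open Pool.Agent.H89.Perc

/-- A dual edge inside `T` which does not have both ends on the ring crosses an edge of `D`. -/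
theorem euler_crossed_mem {a b c d : ℤ} {e : Edge} (h1 : src e ∈ rect (a - 1) b (c - 1) d)
    (h2 : tgt e ∈ rect (a - 1) b (c - 1) d)
    (h3 : ¬ (src e ∈ bd (a - 1) b (c - 1) d ∧ tgt e ∈ bd (a - 1) b (c - 1) d)) :
    crossed e ∈ redges a b c d := by
  rw [mem_redges]
  obtain ⟨x, y, t⟩ := e
  cases t
  · simp only [src, tgt, rect, bd, crossed, Set.mem_ofPred_eq, Bool.false_eq_true, if_false,
      if_true] at h1 h2 h3 ⊢
    omega
  · simp only [src, tgt, rect, bd, crossed, Set.mem_ofPred_eq, Bool.false_eq_true, if_false,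
      if_true] at h1 h2 h3 ⊢
    omega

/-- Both faces next to an edge of `D` lie in `T`. -/
theorem euler_faces_mem {a b c d : ℤ} {e : Edge} (he : e ∈ redges a b c d) :
    lowFace e ∈ rect (a - 1) b (c - 1) d ∧ src e ∈ rect (a - 1) b (c - 1) d := by
  rw [mem_redges] at he
  obtain ⟨x, y, t⟩ := e
  cases t
  · simp only [src, tgt, rect, lowFace, Set.mem_ofPred_eq, Bool.false_eq_true, if_false,
      if_true] at he ⊢
    omega
  · simp only [src, tgt, rect, lowFace, Set.mem_ofPred_eq, Bool.false_eq_true, if_false,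
      if_true] at he ⊢
    omega

theorem euler_dual_update (ω : Config) (e : Edge) (b : Bool) :
    dual (Function.update ω e b) = Function.update (dual ω) (uncross e) (!b) := by
  funext f
  simp only [dual]
  by_cases h : f = uncross e
  · subst h; simp [crossed_uncross, Function.update_self]
  · have h' : crossed f ≠ e := by
      intro hc
      apply h
      rw [← hc, uncross_crossed]
    rw [Function.update_of_ne h', Function.update_of_ne h]
    rfl

/-- If all edges of `D` are closed, every inner face is joined to the ring. -/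
theorem euler_base_conn {ω : Config} {a b c d : ℤ} (hω : ∀ e ∈ redges a b c d, ω e = false)
    (n : ℕ) : ∀ x y : ℤ, (x, y) ∈ rect (a - 1) b (c - 1) d → b - x = n →
    ∃ v ∈ bd (a - 1) b (c - 1) d, Conn (dual ω) (rect (a - 1) b (c - 1) d) (x, y) v := by
  induction n with
  | zero =>
    intro x y hxy hn
    refine ⟨(x, y), ⟨hxy, Or.inr (Or.inl ?_)⟩, Conn.refl hxy⟩
    simp only
    push_cast at hn
    omega
  | succ n ih =>
    intro x y hxy hn
    push_cast at hn
    by_cases hb : (x, y) ∈ bd (a - 1) b (c - 1) d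
    · exact ⟨(x, y), hb, Conn.refl hxy⟩
    · have hxy' := hxy
      simp only [rect, Set.mem_ofPred_eq] at hxy'
      have hx1 : ((x + 1, y) : Vert) ∈ rect (a - 1) b (c - 1) d := by
        simp only [rect, Set.mem_ofPred_eq]
        omega
      obtain ⟨v, hv, hc⟩ := ih (x + 1) y hx1 (by omega)
      refine ⟨v, hv, Conn.trans (Step.conn ⟨hxy, hx1, (x, y, false), Or.inl ⟨rfl, ?_⟩, ?_⟩) hc⟩
      · simp [tgt]
      · have hmem : crossed (x, y, false) ∈ redges a b c d := by
          refine euler_crossed_mem (by simpa [src] using hxy) (by simpa [tgt] using hx1) ?_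
          rintro ⟨h, -⟩
          exact hb (by simpa [src] using h)
        simp [dual, hω _ hmem]

theorem euler_base_J {ω : Config} {a b c d : ℤ} (hω : ∀ e ∈ redges a b c d, ω e = false) :
    J (dual ω) (rect (a - 1) b (c - 1) d) (bd (a - 1) b (c - 1) d) = 0 := by
  unfold J
  have : {C | C ∈ clusters (dual ω) (rect (a - 1) b (c - 1) d) ∧
      Disjoint C (bd (a - 1) b (c - 1) d)} = ∅ := by
    ext C
    simp only [Set.mem_ofPred_eq, Set.mem_empty_iff_false, iff_false, not_and]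
    rintro ⟨⟨x, y⟩, hv, rfl⟩ hdis
    have hv' := hv
    simp only [rect, Set.mem_ofPred_eq] at hv'
    obtain ⟨w, hw, hc⟩ := euler_base_conn hω (b - x).toNat x y hv (by omega)
    exact Set.disjoint_left.1 hdis hc hw
  rw [this, Set.ncard_empty]

theorem euler_ncard_rect {a b c d : ℤ} (hab : a ≤ b) (hcd : c ≤ d) :
    ((rect a b c d).ncard : ℤ) = (b - a + 1) * (d - c + 1) := by
  have : rect a b c d = ((Finset.Icc a b ×ˢ Finset.Icc c d : Finset Vert) : Set Vert) := by
    ext ⟨x, y⟩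
    simp only [rect, Set.mem_ofPred_eq, Finset.coe_product, Finset.coe_Icc, Set.mem_prod,
      Set.mem_Icc]
    omega
  rw [this, Set.ncard_coe_finset, Finset.card_product, Int.card_Icc, Int.card_Icc]
  push_cast
  rw [Int.toNat_of_nonneg (by omega), Int.toNat_of_nonneg (by omega)]
  ring

theorem euler_ofS {a b c d : ℤ} (hab : a ≤ b) (hcd : c ≤ d) (A : Finset Edge) :
    A ⊆ redges a b c d → (K (ofS A) (rect a b c d) : ℤ) + A.card =
      (b - a + 1) * (d - c + 1) +
        J (dual (ofS A)) (rect (a - 1) b (c - 1) d) (bd (a - 1) b (c - 1) d) := by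
  classical
  induction A using Finset.induction_on with
  | empty =>
    intro _
    have h0 : ∀ e : Edge, ofS ∅ e = false := fun e => by simp [ofS]
    rw [euler_base_J (fun e _ => h0 e), K_closed (fun e _ _ => h0 e), euler_ncard_rect hab hcd]
    simp
  | insert e A heA ih =>
    intro hsub
    have he : e ∈ redges a b c d := hsub (Finset.mem_insert_self e A)
    have hA := ih (fun f hf => hsub (Finset.mem_insert_of_mem hf))
    have e1 : Function.update (ofS A) e true = ofS (insert e A) := (ofS_update A e).1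
    have e2 : Function.update (ofS A) e false = ofS A := by
      rw [(ofS_update A e).2, Finset.erase_eq_of_notMem heA]
    have hK := K_update (ω := ofS A) (rect_finite a b c d) (mem_redges.1 he).1 (mem_redges.1 he).2
    have hf := euler_faces_mem he
    have hJ := J_update (ω := dual (ofS A)) (B := bd (a - 1) b (c - 1) d)
      (rect_finite (a - 1) b (c - 1) d) (e := uncross e)
      (by rw [src_uncross]; exact hf.1) (by rw [tgt_uncross]; exact hf.2)
    have e3 : Function.update (dual (ofS A)) (uncross e) false = dual (ofS (insert e A)) := by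
      rw [← e1, euler_dual_update]; rfl
    have e4 : Function.update (dual (ofS A)) (uncross e) true = dual (ofS A) := by
      conv_rhs => rw [← e2]
      rw [euler_dual_update]; rfl
    have hD := edge_dual (ω := ofS A) he
    rw [e1, e2] at hK
    rw [e3, e4, src_uncross, tgt_uncross] at hJ
    rw [e1, e2] at hD
    rw [Finset.card_insert_of_notMem heA]
    push_cast
    by_cases hc : Conn (ofS A) (rect a b c d) (src e) (tgt e)
    · have h1 := hK.1 hc
      have h2 := hJ.2 (hD.1 hc)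
      rw [← h1, h2]
      push_cast
      linarith
    · have h1 := hK.2 hc
      have h3 : WConn (dual (ofS (insert e A))) (rect (a - 1) b (c - 1) d)
          (bd (a - 1) b (c - 1) d) (lowFace e) (src e) := by
        by_contra h
        exact hc (hD.2 h)
      have h2 := hJ.1 h3
      rw [h2]
      rw [h1] at hA
      push_cast at hA
      linarith

/-- **Euler's formula.** The number of clusters plus the number of open edges is the number of
vertices plus the number of inner clusters of the dual configuration. -/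
theorem euler {ω : Config} {a b c d : ℤ} (hab : a ≤ b) (hcd : c ≤ d) :
    (K ω (rect a b c d) : ℤ) + ((redges a b c d).filter (fun e => ω e = true)).card =
      (b - a + 1) * (d - c + 1) +
        J (dual ω) (rect (a - 1) b (c - 1) d) (bd (a - 1) b (c - 1) d) := by
  classical
  set A := (redges a b c d).filter (fun e => ω e = true) with hA
  have hag : ∀ e ∈ redges a b c d, ω e = ofS A e := by
    intro e he
    cases h : ω e
    · symm
      simp only [ofS, decide_eq_false_iff_not, hA, Finset.mem_filter, not_and]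
      intro _
      simp [h]
    · symm
      rw [ofS_eq_true, hA, Finset.mem_filter]
      exact ⟨he, h⟩
  have hK : K ω (rect a b c d) = K (ofS A) (rect a b c d) :=
    K_congr fun e h1 h2 => hag e (mem_redges.2 ⟨h1, h2⟩)
  have hJ : J (dual ω) (rect (a - 1) b (c - 1) d) (bd (a - 1) b (c - 1) d) =
      J (dual (ofS A)) (rect (a - 1) b (c - 1) d) (bd (a - 1) b (c - 1) d) := by
    refine J_congr_wired (rect_finite _ _ _ _) fun e h1 h2 h3 => ?_
    simp only [dual]
    rw [hag _ (euler_crossed_mem h1 h2 h3)]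
  rw [hK, hJ]
  exact euler_ofS hab hcd A (Finset.filter_subset _ _)

end Pool.Agent.H29.Kap

end

section

/-! # Euler's formula for the expected number of clusters and duality of the cluster density -/

set_option autoImplicit false

namespace Pool.Agent.H29.Kap

open Pool.Agent.H89.Perc Pool.Agent.Perc

theorem eulerexp_card (p : ℝ) (F : Finset Edge) :
    Ex p F (fun S => (S.card : ℝ)) = p * F.card := by
  induction F using Finset.induction_on with
  | empty => simp
  | insert e F he ih =>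
    rw [Ex_insert he, Finset.card_insert_of_notMem he]
    have h1 : Ex p F (fun S => ((insert e S).card : ℝ)) = Ex p F (fun S => (S.card : ℝ) + 1) := by
      refine Ex_congr fun S hS => ?_
      rw [Finset.card_insert_of_notMem (fun h => he (hS h))]
      push_cast
      ring
    rw [h1, Ex_add, Ex_const, ih]
    push_cast
    ring

theorem eulerexp_card_redges {a b c d : ℤ} (hab : a ≤ b) (hcd : c ≤ d) :
    ((redges a b c d).card : ℝ) = (b - a) * (d - c + 1) + (b - a + 1) * (d - c) := by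
  unfold redges
  rw [Finset.card_union_of_disjoint]
  · simp only [Finset.card_product, Int.card_Icc, Finset.card_singleton, mul_one]
    have h1 : (((b - 1 + 1 - a).toNat : ℕ) : ℝ) = b - a := by
      have : (((b - 1 + 1 - a).toNat : ℕ) : ℤ) = b - a := by omega
      exact_mod_cast this
    have h2 : (((d + 1 - c).toNat : ℕ) : ℝ) = d - c + 1 := by
      have : (((d + 1 - c).toNat : ℕ) : ℤ) = d - c + 1 := by omega
      exact_mod_cast this
    have h3 : (((b + 1 - a).toNat : ℕ) : ℝ) = b - a + 1 := by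
      have : (((b + 1 - a).toNat : ℕ) : ℤ) = b - a + 1 := by omega
      exact_mod_cast this
    have h4 : (((d - 1 + 1 - c).toNat : ℕ) : ℝ) = d - c := by
      have : (((d - 1 + 1 - c).toNat : ℕ) : ℤ) = d - c := by omega
      exact_mod_cast this
    push_cast
    rw [h1, h2, h3, h4]
  · rw [Finset.disjoint_left]
    rintro ⟨x, y, t⟩ h1 h2
    simp only [Finset.mem_product, Finset.mem_singleton] at h1 h2
    rw [h1.2.2] at h2
    exact absurd h2.2.2 (by simp)

theorem eulerexp_uncross {a b c d : ℤ} {e : Edge} (h : e ∈ redges a b c d) :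
    uncross e ∈ redges (a - 1) b (c - 1) d := by
  rw [mem_redges] at h ⊢
  obtain ⟨x, y, t⟩ := e
  cases t
  · simp only [src, tgt, uncross, rect, Set.mem_ofPred_eq, Bool.false_eq_true, if_false,
      if_true] at h ⊢
    omega
  · simp only [src, tgt, uncross, rect, Set.mem_ofPred_eq, Bool.false_eq_true, if_false,
      if_true] at h ⊢
    omega

theorem eulerexp_crossed {a b c d : ℤ} {e : Edge} (h1 : src e ∈ rect (a - 1) b (c - 1) d)
    (h2 : tgt e ∈ rect (a - 1) b (c - 1) d)
    (h3 : ¬ (src e ∈ bd (a - 1) b (c - 1) d ∧ tgt e ∈ bd (a - 1) b (c - 1) d)) :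
    crossed e ∈ redges a b c d := by
  rw [mem_redges]
  obtain ⟨x, y, t⟩ := e
  cases t
  · simp only [src, tgt, crossed, rect, bd, Set.mem_ofPred_eq, Bool.false_eq_true, if_false,
      if_true] at h1 h2 h3 ⊢
    omega
  · simp only [src, tgt, crossed, rect, bd, Set.mem_ofPred_eq, Bool.false_eq_true, if_false,
      if_true] at h1 h2 h3 ⊢
    omega

/-- The expected number of inner clusters of the dual configuration. -/
theorem eulerexp_dual (p : ℝ) (a b c d : ℤ) :
    Ex p (redges a b c d) (fun S => (J (dual (ofS S)) (rect (a - 1) b (c - 1) d)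
      (bd (a - 1) b (c - 1) d) : ℝ)) = EJ (1 - p) (a - 1) b (c - 1) d := by
  have hinj : Function.Injective uncross := fun e e' h => by
    rw [← crossed_uncross e, h, crossed_uncross]
  have hsub : (redges a b c d).image uncross ⊆ redges (a - 1) b (c - 1) d := by
    intro e he
    obtain ⟨e', he', rfl⟩ := Finset.mem_image.1 he
    exact eulerexp_uncross he'
  have hfin := rect_finite (a - 1) b (c - 1) d
  unfold EJ
  rw [Ex_compl, Ex_restrict (F := redges (a - 1) b (c - 1) d)
    (G := (redges a b c d).image uncross) hsub, Ex_image _ hinj.injOn]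
  · refine Ex_congr fun S hS => ?_
    congr 1
    refine J_congr_wired hfin fun e h1 h2 h3 => ?_
    have h4 := eulerexp_crossed h1 h2 h3
    have h5 : (e ∈ S.image uncross) ↔ crossed e ∈ S := by
      rw [Finset.mem_image]
      constructor
      · rintro ⟨e', he', rfl⟩
        rwa [crossed_uncross]
      · intro h
        exact ⟨crossed e, h, uncross_crossed e⟩
    simp only [dual, ofS, Finset.mem_sdiff, h4, true_and, h5]
    by_cases h6 : crossed e ∈ S <;> simp [h6]
  · intro S hS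
    congr 1
    refine J_congr_wired hfin fun e h1 h2 h3 => ?_
    have h4 := eulerexp_crossed h1 h2 h3
    have h5 : e ∈ (redges a b c d).image uncross :=
      Finset.mem_image.2 ⟨crossed e, h4, uncross_crossed e⟩
    simp only [ofS, Finset.mem_inter, h5, and_true]

theorem EK_euler (p : ℝ) {a b c d : ℤ} (hab : a ≤ b) (hcd : c ≤ d) :
    EK p a b c d = (b - a + 1) * (d - c + 1)
      - p * ((b - a) * (d - c + 1) + (b - a + 1) * (d - c))
      + EJ (1 - p) (a - 1) b (c - 1) d := by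
  rw [← eulerexp_dual, ← eulerexp_card_redges hab hcd, ← eulerexp_card]
  unfold EK
  have h : Ex p (redges a b c d) (fun S => (K (ofS S) (rect a b c d) : ℝ)) =
      Ex p (redges a b c d) (fun S => ((((b : ℝ) - a + 1) * (d - c + 1)) + (-(S.card : ℝ))) +
        (J (dual (ofS S)) (rect (a - 1) b (c - 1) d) (bd (a - 1) b (c - 1) d) : ℝ)) := by
    refine Ex_congr fun S hS => ?_
    have h1 := euler (ω := ofS S) hab hcd
    have h2 : (redges a b c d).filter (fun e => ofS S e = true) = S := by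
      ext e
      rw [Finset.mem_filter, ofS_eq_true]
      exact ⟨fun h => h.2, fun h => ⟨hS h, h⟩⟩
    rw [h2] at h1
    have h3 : ((K (ofS S) (rect a b c d) : ℤ) : ℝ) + (S.card : ℝ) =
      ((b : ℝ) - a + 1) * (d - c + 1) +
        (J (dual (ofS S)) (rect (a - 1) b (c - 1) d) (bd (a - 1) b (c - 1) d) : ℝ) := by
      exact_mod_cast h1
    have h4 : ((K (ofS S) (rect a b c d) : ℤ) : ℝ) = (K (ofS S) (rect a b c d) : ℝ) := by
      norm_cast
    rw [h4] at h3
    linarith
  rw [h, Ex_add, Ex_add, Ex_const, Ex_neg]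
  ring

theorem eulerexp_bd_card (n : ℕ) (hn : 1 ≤ n) :
    (bd (0 - 1) ((n : ℤ) - 1) (0 - 1) ((n : ℤ) - 1)).Finite ∧
    (bd (0 - 1) ((n : ℤ) - 1) (0 - 1) ((n : ℤ) - 1)).ncard ≤ 8 * n := by
  set G : Finset Vert := (({-1, (n : ℤ) - 1} : Finset ℤ) ×ˢ Finset.Icc (-1) ((n : ℤ) - 1)) ∪
    (Finset.Icc (-1) ((n : ℤ) - 1) ×ˢ ({-1, (n : ℤ) - 1} : Finset ℤ)) with hG
  have hsub : bd (0 - 1) ((n : ℤ) - 1) (0 - 1) ((n : ℤ) - 1) ⊆ (G : Set Vert) := by
    rintro ⟨x, y⟩ h
    simp only [bd, rect, Set.mem_ofPred_eq] at h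
    rw [hG]
    simp only [Finset.coe_union, Finset.coe_product, Set.mem_union, Set.mem_prod,
      Finset.coe_Icc, Finset.coe_insert, Finset.coe_singleton, Set.mem_insert_iff,
      Set.mem_singleton_iff, Set.mem_Icc]
    omega
  have hcard : G.card ≤ 8 * n := by
    refine (Finset.card_union_le _ _).trans ?_
    rw [Finset.card_product, Finset.card_product, Int.card_Icc]
    have h1 : ({-1, (n : ℤ) - 1} : Finset ℤ).card ≤ 2 := Finset.card_le_two
    have h2 : ((n : ℤ) - 1 + 1 - (-1)).toNat = n + 1 := by omega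
    rw [h2]
    nlinarith
  refine ⟨G.finite_toSet.subset hsub, ?_⟩
  calc _ ≤ (G : Set Vert).ncard := Set.ncard_le_ncard hsub G.finite_toSet
    _ = G.card := Set.ncard_coe_finset G
    _ ≤ 8 * n := hcard

theorem eulerexp_EJ_EK {p : ℝ} (h0 : 0 ≤ p) (h1 : p ≤ 1) (n : ℕ) (hn : 1 ≤ n) :
    |EJ p (0 - 1) ((n : ℤ) - 1) (0 - 1) ((n : ℤ) - 1)
      - EK p (0 - 1) ((n : ℤ) - 1) (0 - 1) ((n : ℤ) - 1)| ≤ 8 * n := by
  obtain ⟨hB, hBc⟩ := eulerexp_bd_card n hn
  have hS := rect_finite (0 - 1) ((n : ℤ) - 1) (0 - 1) ((n : ℤ) - 1)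
  rw [abs_le]
  unfold EJ EK
  constructor
  · have : Ex p (redges (0 - 1) ((n : ℤ) - 1) (0 - 1) ((n : ℤ) - 1)) (fun S =>
        (K (ofS S) (rect (0 - 1) ((n : ℤ) - 1) (0 - 1) ((n : ℤ) - 1)) : ℝ)) ≤
        Ex p (redges (0 - 1) ((n : ℤ) - 1) (0 - 1) ((n : ℤ) - 1)) (fun S =>
        (J (ofS S) (rect (0 - 1) ((n : ℤ) - 1) (0 - 1) ((n : ℤ) - 1))
          (bd (0 - 1) ((n : ℤ) - 1) (0 - 1) ((n : ℤ) - 1)) : ℝ) + ((8 * n : ℕ) : ℝ)) := by
      refine Ex_mono h0 h1 fun S _ => ?_
      have h2 := K_le_J_add (ω := ofS S) hS hB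
      have h3 := h2.trans (Nat.add_le_add_left hBc _)
      exact_mod_cast h3
    rw [Ex_add, Ex_const, Nat.cast_mul, Nat.cast_ofNat] at this
    linarith
  · have : Ex p (redges (0 - 1) ((n : ℤ) - 1) (0 - 1) ((n : ℤ) - 1)) (fun S =>
        (J (ofS S) (rect (0 - 1) ((n : ℤ) - 1) (0 - 1) ((n : ℤ) - 1))
          (bd (0 - 1) ((n : ℤ) - 1) (0 - 1) ((n : ℤ) - 1)) : ℝ)) ≤
        Ex p (redges (0 - 1) ((n : ℤ) - 1) (0 - 1) ((n : ℤ) - 1)) (fun S =>
        (K (ofS S) (rect (0 - 1) ((n : ℤ) - 1) (0 - 1) ((n : ℤ) - 1)) : ℝ)) := by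
      refine Ex_mono h0 h1 fun S _ => ?_
      exact_mod_cast J_le_K (ω := ofS S) _ hS
    have h3 : (0 : ℝ) ≤ 8 * n := by positivity
    linarith

/-- Duality for the cluster density. -/
theorem kappa_dual {p κ κ' : ℝ} (h0 : 0 ≤ p) (h1 : p ≤ 1)
    (hκ : ∀ n : ℕ, 1 ≤ n → |EK p 0 (n - 1) 0 (n - 1) / (n : ℝ) ^ 2 - κ| ≤ 2 / n)
    (hκ' : ∀ n : ℕ, 1 ≤ n → |EK (1 - p) 0 (n - 1) 0 (n - 1) / (n : ℝ) ^ 2 - κ'| ≤ 2 / n) :
    κ = κ' + 1 - 2 * p := by
  -- it suffices to bound the difference by `C / n`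
  have key : ∀ n : ℕ, 1 ≤ n → |κ - (κ' + 1 - 2 * p)| * n ≤ 16 + 3 * |κ'| := by
    intro n hn
    have hn' : (1 : ℝ) ≤ n := by exact_mod_cast hn
    have hn0 : (0 : ℝ) < n := by linarith
    have e1 : |EK p 0 (n - 1) 0 (n - 1) - κ * (n : ℝ) ^ 2| ≤ 2 * n := by
      have h := hκ n hn
      have h2 : EK p 0 (n - 1) 0 (n - 1) - κ * (n : ℝ) ^ 2
          = (EK p 0 (n - 1) 0 (n - 1) / (n : ℝ) ^ 2 - κ) * (n : ℝ) ^ 2 := by
        field_simp
      rw [h2, abs_mul, abs_of_pos (by positivity : (0 : ℝ) < (n : ℝ) ^ 2)]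
      calc _ ≤ 2 / n * (n : ℝ) ^ 2 := mul_le_mul_of_nonneg_right h (by positivity)
        _ = 2 * n := by field_simp
    have e2 : |EK (1 - p) 0 n 0 n - κ' * ((n : ℝ) + 1) ^ 2| ≤ 2 * ((n : ℝ) + 1) := by
      have h := hκ' (n + 1) (by omega)
      have h3 : (((n + 1 : ℕ) : ℤ) - 1) = n := by push_cast; ring
      rw [h3] at h
      push_cast at h
      have hp : (0 : ℝ) < (n : ℝ) + 1 := by linarith
      have h2 : EK (1 - p) 0 n 0 n - κ' * ((n : ℝ) + 1) ^ 2
          = (EK (1 - p) 0 n 0 n / ((n : ℝ) + 1) ^ 2 - κ') * ((n : ℝ) + 1) ^ 2 := by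
        field_simp
      rw [h2, abs_mul, abs_of_pos (by positivity : (0 : ℝ) < ((n : ℝ) + 1) ^ 2)]
      calc _ ≤ 2 / ((n : ℝ) + 1) * ((n : ℝ) + 1) ^ 2 :=
            mul_le_mul_of_nonneg_right h (by positivity)
        _ = 2 * ((n : ℝ) + 1) := by field_simp
    have e3 := eulerexp_EJ_EK (p := 1 - p) (by linarith) (by linarith) n hn
    have e4 : EK (1 - p) (0 - 1) ((n : ℤ) - 1) (0 - 1) ((n : ℤ) - 1) = EK (1 - p) 0 n 0 n := by
      have := EK_shift (1 - p) 0 n 0 n (-1) (-1)
      simpa [sub_eq_add_neg] using this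
    have e5 := EK_euler p (a := 0) (b := (n : ℤ) - 1) (c := 0) (d := (n : ℤ) - 1)
      (by omega) (by omega)
    rw [e4] at e3
    generalize EJ (1 - p) (0 - 1) ((n : ℤ) - 1) (0 - 1) ((n : ℤ) - 1) = E3 at e3 e5
    push_cast at e5
    rw [abs_le] at e1 e2 e3
    set E1 := EK p 0 (n - 1) 0 (n - 1) with hE1
    set E2 := EK (1 - p) 0 n 0 n with hE2
    have hab : -|κ'| ≤ κ' ∧ κ' ≤ |κ'| := ⟨neg_abs_le κ', le_abs_self κ'⟩
    have h6 : |κ - (κ' + 1 - 2 * p)| * n ^ 2 ≤ (16 + 3 * |κ'|) * n := by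
      have hpn : p * n ≤ n := by nlinarith
      have hpn0 : 0 ≤ p * n := by positivity
      have hk1 : -(|κ'| * n) ≤ κ' * n := by nlinarith [hab.1]
      have hk2 : κ' * n ≤ |κ'| * n := by nlinarith [hab.2]
      have hk3 : |κ'| ≤ |κ'| * n := by nlinarith [abs_nonneg κ']
      have e5' : E1 = (n : ℝ) ^ 2 - 2 * p * n ^ 2 + 2 * (p * n) + E3 := by
        rw [e5]; ring
      rcases abs_cases (κ - (κ' + 1 - 2 * p)) with ⟨h, -⟩ | ⟨h, -⟩ <;> rw [h] <;>
        nlinarith [e1.1, e1.2, e2.1, e2.2, e3.1, e3.2]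
    have h7 : (|κ - (κ' + 1 - 2 * p)| * n) * n ≤ (16 + 3 * |κ'|) * n := by
      calc _ = |κ - (κ' + 1 - 2 * p)| * n ^ 2 := by ring
        _ ≤ _ := h6
    exact le_of_mul_le_mul_right h7 hn0
  by_contra hne
  have hpos : 0 < |κ - (κ' + 1 - 2 * p)| := abs_pos.2 (sub_ne_zero.2 hne)
  obtain ⟨n, hn⟩ := exists_nat_gt ((16 + 3 * |κ'|) / |κ - (κ' + 1 - 2 * p)|)
  rw [div_lt_iff₀ hpos] at hn
  have h3 := key (n + 1) (by omega)
  push_cast at h3
  nlinarith

end Pool.Agent.H29.Kap

end

section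

/-! # Uniform control of the expected second differences -/

set_option autoImplicit false

namespace Pool.Agent.H29.Kap

open Pool.Agent.H89.Perc Pool.Agent.Perc

/-- Uniform control of a polynomial in `p` at scale `n`. -/
def Good (n : ℕ) (C c₀ : ℝ) (f : ℝ → ℝ) : Prop :=
  (∃ (y : ℕ → ℝ) (D : ℕ), (∀ p, f p = ∑ j ∈ Finset.range D, y j * (2 * p - 1) ^ j) ∧
    (∀ j, D ≤ j → y j = 0) ∧
    ∀ r : ℝ, 0 ≤ r → r ≤ 1 →
      r ^ 2 * ((n : ℝ) ^ 2 * arm half n ^ 2) ≤ c₀ → ∀ j, |y j| * r ^ j ≤ C) ∧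
  (∀ p : ℝ, 0 ≤ p → p ≤ 1 → |f p| ≤ C) ∧
  ∀ p : ℝ, 1 / 4 ≤ p → p ≤ 3 / 4 → |deriv f p| ≤ C * n

lemma geo_sum_extend {y : ℕ → ℝ} {D D' : ℕ} (h : D ≤ D') (hy : ∀ j, D ≤ j → y j = 0) (z : ℝ) :
    ∑ j ∈ Finset.range D, y j * z ^ j = ∑ j ∈ Finset.range D', y j * z ^ j := by
  refine Finset.sum_subset (Finset.range_subset_range.2 h) fun j _ hj => ?_
  rw [hy j (by simpa using hj), zero_mul]

lemma Good.differentiable {n : ℕ} {C c₀ : ℝ} {f : ℝ → ℝ} (h : Good n C c₀ f) :
    Differentiable ℝ f := by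
  obtain ⟨⟨y, D, h1, _⟩, _⟩ := h
  have : f = fun p => ∑ j ∈ Finset.range D, y j * (2 * p - 1) ^ j := funext h1
  rw [this]
  fun_prop

lemma Good.add {n : ℕ} {C C' c₀ : ℝ} {f g : ℝ → ℝ} (hf : Good n C c₀ f) (hg : Good n C' c₀ g) :
    Good n (C + C') c₀ (fun p => f p + g p) := by
  have hdf := hf.differentiable
  have hdg := hg.differentiable
  obtain ⟨⟨y, D, h1, h2, h3⟩, h4, h5⟩ := hf
  obtain ⟨⟨y', D', h1', h2', h3'⟩, h4', h5'⟩ := hg
  refine ⟨⟨fun j => y j + y' j, max D D', fun p => ?_, fun j hj => ?_, fun r hr0 hr1 hr j => ?_⟩,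
    fun p hp0 hp1 => ?_, fun p hp0 hp1 => ?_⟩
  · simp only
    rw [h1, h1', geo_sum_extend (le_max_left D D') h2, geo_sum_extend (le_max_right D D') h2',
      ← Finset.sum_add_distrib]
    exact Finset.sum_congr rfl fun j _ => by ring
  · simp only
    rw [h2 j (le_of_max_le_left hj), h2' j (le_of_max_le_right hj), add_zero]
  · have h6 := h3 r hr0 hr1 hr j
    have h7 := h3' r hr0 hr1 hr j
    have h8 := abs_add_le (y j) (y' j)
    have h9 : 0 ≤ r ^ j := pow_nonneg hr0 j
    nlinarith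
  · have h6 := h4 p hp0 hp1
    have h7 := h4' p hp0 hp1
    have h8 := abs_add_le (f p) (g p)
    linarith
  · have h6 := h5 p hp0 hp1
    have h7 := h5' p hp0 hp1
    have h8 : deriv (fun p => f p + g p) p = deriv f p + deriv g p :=
      deriv_fun_add (hdf p) (hdg p)
    rw [h8]
    have h9 := abs_add_le (deriv f p) (deriv g p)
    linarith

lemma Good.const_mul {n : ℕ} {C c₀ : ℝ} {f : ℝ → ℝ} (a : ℝ) (hf : Good n C c₀ f) :
    Good n (|a| * C) c₀ (fun p => a * f p) := by
  have hdf := hf.differentiable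
  obtain ⟨⟨y, D, h1, h2, h3⟩, h4, h5⟩ := hf
  refine ⟨⟨fun j => a * y j, D, fun p => ?_, fun j hj => ?_, fun r hr0 hr1 hr j => ?_⟩,
    fun p hp0 hp1 => ?_, fun p hp0 hp1 => ?_⟩
  · simp only
    rw [h1, Finset.mul_sum]
    exact Finset.sum_congr rfl fun j _ => by ring
  · simp only
    rw [h2 j hj, mul_zero]
  · rw [abs_mul, mul_assoc]
    exact mul_le_mul_of_nonneg_left (h3 r hr0 hr1 hr j) (abs_nonneg a)
  · rw [abs_mul]
    exact mul_le_mul_of_nonneg_left (h4 p hp0 hp1) (abs_nonneg a)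
  · have h8 : deriv (fun p => a * f p) p = a * deriv f p := deriv_const_mul a (hdf p)
    rw [h8, abs_mul, mul_assoc]
    exact mul_le_mul_of_nonneg_left (h5 p hp0 hp1) (abs_nonneg a)

lemma Good.mono {n : ℕ} {C C' c₀ : ℝ} {f : ℝ → ℝ} (hf : Good n C c₀ f) (h : C ≤ C') :
    Good n C' c₀ f := by
  obtain ⟨⟨y, D, h1, h2, h3⟩, h4, h5⟩ := hf
  refine ⟨⟨y, D, h1, h2, fun r hr0 hr1 hr j => (h3 r hr0 hr1 hr j).trans h⟩,
    fun p hp0 hp1 => (h4 p hp0 hp1).trans h, fun p hp0 hp1 => (h5 p hp0 hp1).trans ?_⟩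
  have : (0 : ℝ) ≤ n := Nat.cast_nonneg n
  nlinarith

/-- Locality of `NC`. -/
lemma NC_congr {ω ω' : Config} {x1 x2 c d : ℤ} (h : ∀ e ∈ redges x1 x2 c d, ω e = ω' e) :
    NC ω x1 x2 c d = NC ω' x1 x2 c d := by
  have h1 : ∀ u v, Conn ω (rect x1 x2 c d) u v ↔ Conn ω' (rect x1 x2 c d) u v := by
    intro u v
    constructor
    · exact Conn.congr fun e he he' => h e (mem_redges.2 ⟨he, he'⟩)
    · exact Conn.congr fun e he he' => (h e (mem_redges.2 ⟨he, he'⟩)).symm
  unfold NC clusters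
  simp only [h1]

lemma geo_ofS_inter {F G : Finset Edge} (hGF : G ⊆ F) (S : Finset Edge) :
    ∀ e ∈ G, ofS S e = ofS (S ∩ G) e := by
  intro e he
  rw [ofS_apply, ofS_apply, decide_eq_decide, Finset.mem_inter]
  exact ⟨fun h => ⟨h, he⟩, fun h => h.1⟩

lemma redges_subset {a b c d a' b' c' d' : ℤ} (h1 : a' ≤ a) (h2 : b ≤ b') (h3 : c' ≤ c)
    (h4 : d ≤ d') : redges a b c d ⊆ redges a' b' c' d' := by
  intro e he
  rw [mem_redges] at he ⊢
  simp only [rect, Set.mem_ofPred_eq] at he ⊢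
  omega

/-- `NC²` may be integrated on a larger set of edges. -/
lemma NC_restrict {p : ℝ} {F : Finset Edge} {x1 x2 c d : ℤ} (h : redges x1 x2 c d ⊆ F) :
    Ex p F (fun S => (NC (ofS S) x1 x2 c d : ℝ) ^ 2) =
      Ex p (redges x1 x2 c d) (fun S => (NC (ofS S) x1 x2 c d : ℝ) ^ 2) := by
  refine Ex_restrict h (fun S _ => ?_) p
  rw [NC_congr (geo_ofS_inter h S)]

/-- The wired second difference. -/
noncomputable def XW (ω : Config) (x0 x1 x2 x3 c d : ℤ) : ℤ :=
  (J ω (rect x0 x3 c d) (bd x0 x3 c d) : ℤ) - J ω (rect x0 x2 c d) (bd x0 x2 c d)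
    - J ω (rect x1 x3 c d) (bd x1 x3 c d) + J ω (rect x1 x2 c d) (bd x1 x2 c d)

lemma Ex_X {p : ℝ} {x0 x1 x2 x3 c d : ℤ} (h01 : x0 ≤ x1) (h12 : x1 ≤ x2) (h23 : x2 ≤ x3) :
    Ex p (redges x0 x3 c d) (fun S => (X (ofS S) x0 x1 x2 x3 c d : ℝ)) =
      EK p x0 x3 c d - EK p x0 x2 c d - EK p x1 x3 c d + EK p x1 x2 c d := by
  have e1 := EK_of_subset (p := p) (redges_subset (a := x0) (b := x3) (c := c) (d := d)
    (a' := x0) (b' := x3) (c' := c) (d' := d) le_rfl le_rfl le_rfl le_rfl)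
  have e2 := EK_of_subset (p := p) (redges_subset (a := x0) (b := x2) (c := c) (d := d)
    (a' := x0) (b' := x3) (c' := c) (d' := d) le_rfl h23 le_rfl le_rfl)
  have e3 := EK_of_subset (p := p) (redges_subset (a := x1) (b := x3) (c := c) (d := d)
    (a' := x0) (b' := x3) (c' := c) (d' := d) h01 le_rfl le_rfl le_rfl)
  have e4 := EK_of_subset (p := p) (redges_subset (a := x1) (b := x2) (c := c) (d := d)
    (a' := x0) (b' := x3) (c' := c) (d' := d) h01 h23 le_rfl le_rfl)
  rw [← e1, ← e2, ← e3, ← e4, ← Ex_sub, ← Ex_sub, ← Ex_add]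
  refine Ex_congr fun S _ => ?_
  unfold X
  push_cast
  ring

lemma Ex_XW {p : ℝ} {x0 x1 x2 x3 c d : ℤ} (h01 : x0 ≤ x1) (h12 : x1 ≤ x2) (h23 : x2 ≤ x3) :
    Ex p (redges x0 x3 c d) (fun S => (XW (ofS S) x0 x1 x2 x3 c d : ℝ)) =
      EJ p x0 x3 c d - EJ p x0 x2 c d - EJ p x1 x3 c d + EJ p x1 x2 c d := by
  have e1 := EJ_of_subset (p := p) (redges_subset (a := x0) (b := x3) (c := c) (d := d)
    (a' := x0) (b' := x3) (c' := c) (d' := d) le_rfl le_rfl le_rfl le_rfl)
  have e2 := EJ_of_subset (p := p) (redges_subset (a := x0) (b := x2) (c := c) (d := d)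
    (a' := x0) (b' := x3) (c' := c) (d' := d) le_rfl h23 le_rfl le_rfl)
  have e3 := EJ_of_subset (p := p) (redges_subset (a := x1) (b := x3) (c := c) (d := d)
    (a' := x0) (b' := x3) (c' := c) (d' := d) h01 le_rfl le_rfl le_rfl)
  have e4 := EJ_of_subset (p := p) (redges_subset (a := x1) (b := x2) (c := c) (d := d)
    (a' := x0) (b' := x3) (c' := c) (d' := d) h01 h23 le_rfl le_rfl)
  rw [← e1, ← e2, ← e3, ← e4, ← Ex_sub, ← Ex_sub, ← Ex_add]
  refine Ex_congr fun S _ => ?_
  unfold XW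
  push_cast
  ring

/-- Duality for the second differences. -/
lemma X_euler (p : ℝ) {x0 x1 x2 x3 c d : ℤ} (h01 : x0 ≤ x1) (h12 : x1 ≤ x2) (h23 : x2 ≤ x3)
    (hcd : c ≤ d) :
    EK p x0 x3 c d - EK p x0 x2 c d - EK p x1 x3 c d + EK p x1 x2 c d =
      EJ (1 - p) (x0 - 1) x3 (c - 1) d - EJ (1 - p) (x0 - 1) x2 (c - 1) d
        - EJ (1 - p) (x1 - 1) x3 (c - 1) d + EJ (1 - p) (x1 - 1) x2 (c - 1) d := by
  rw [EK_euler p (by omega) hcd, EK_euler p (by omega) hcd, EK_euler p (by omega) hcd,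
    EK_euler p h12 hcd]
  ring

lemma card_redges_le {a b c d : ℤ} {M N : ℕ} (h1 : b - a + 1 ≤ M) (h2 : d - c + 1 ≤ N) :
    (redges a b c d).card ≤ 2 * M * N := by
  have h3 : (redges a b c d) ⊆ Finset.Icc a b ×ˢ Finset.Icc c d ×ˢ Finset.univ := by
    intro e he
    rw [mem_redges] at he
    simp only [Finset.mem_product, Finset.mem_Icc, Finset.mem_univ, and_true]
    simp only [src, rect, Set.mem_ofPred_eq] at he
    omega
  refine (Finset.card_le_card h3).trans ?_
  rw [Finset.card_product, Finset.card_product, Int.card_Icc, Int.card_Icc]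
  simp only [Finset.card_univ, Fintype.card_bool]
  have h4 : (b + 1 - a).toNat ≤ M := by omega
  have h5 : (d + 1 - c).toNat ≤ N := by omega
  calc (b + 1 - a).toNat * ((d + 1 - c).toNat * 2) ≤ M * (N * 2) := by gcongr
    _ = 2 * M * N := by ring

end Pool.Agent.H29.Kap

end

section

/-! # Comparison of one-arm probabilities at different scales -/

set_option autoImplicit false

namespace Pool.Agent.H29.Kap

open Pool.Agent.H89.Perc

/-- The event of an arm to distance `m` and crossings of `n` successive annuli. -/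
def armInter (m : ℕ) : ℕ → Set Config
  | 0 => Arm 0 m
  | n + 1 => armInter m n ∩ Ann (m * 16 ^ n) (m * 16 ^ (n + 1))

lemma armratio_localOn (m n : ℕ) : LocalOn (eBall (m * 16 ^ n)) (armInter m n) := by
  classical
  induction n with
  | zero =>
    have h := localOn_arm (0 : Vert) m
    have h1 : eBall (m * 16 ^ 0) = eRect ((0 : Vert).1 - m) ((0 : Vert).1 + m)
        ((0 : Vert).2 - m) ((0 : Vert).2 + m) := by
      simp [eBall]
    rw [h1]
    exact h
  | succ n ih =>
    have h1 : m * 16 ^ n ≤ m * 16 ^ (n + 1) :=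
      Nat.mul_le_mul_left _ (Nat.pow_le_pow_right (by norm_num) (Nat.le_succ n))
    exact (ih.mono (eBall_subset h1)).inter
      ((localOn_ann _ _).mono Finset.sdiff_subset)

lemma armratio_subset {m R : ℕ} (hm : 1 ≤ m) (n : ℕ) (h : m * 16 ^ n ≤ R) :
    Arm 0 R ⊆ armInter m n := by
  induction n with
  | zero =>
    rintro ω ⟨u, hu, hc⟩
    have hmR : m ≤ R := by simpa using h
    obtain ⟨hb, h2⟩ := hu
    refine hc.mem_arm ?_
    simp only [Prod.fst_zero, Prod.snd_zero, zero_sub, zero_add, sub_zero] at h2 ⊢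
    rcases h2 with h2 | h2 | h2 | h2
    · left; rw [h2, abs_neg, Nat.abs_cast]; exact_mod_cast hmR
    · left; rw [h2, Nat.abs_cast]; exact_mod_cast hmR
    · right; rw [h2, abs_neg, Nat.abs_cast]; exact_mod_cast hmR
    · right; rw [h2, Nat.abs_cast]; exact_mod_cast hmR
  | succ n ih =>
    have h1 : m * 16 ^ n < m * 16 ^ (n + 1) :=
      Nat.mul_lt_mul_of_pos_left (Nat.pow_lt_pow_right (by norm_num) (Nat.lt_succ_self n)) hm
    exact Set.subset_inter (ih (h1.le.trans h)) (arm_subset_ann h1 h)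

/-- Power decay of ratios of one-arm probabilities at `1 / 2`. -/
theorem arm_ratio : ∃ C a : ℝ, 0 < C ∧ 0 < a ∧ ∀ m n : ℕ, 1 ≤ m → m ≤ n →
    arm half n ≤ C * ((m : ℝ) / n) ^ a * arm half m := by
  classical
  obtain ⟨c, hc, h⟩ := armBox_le
  have hc1 : c ≤ 1 := by
    have h1 := h 1 8 le_rfl (by norm_num)
    have h2 : 0 ≤ Pr half (ArmBox 0 1 8) := Pr_nonneg
    linarith
  set q : ℝ := 1 - c / 2 with hq
  have hq0 : 0 < q := by linarith
  have hq1 : q < 1 := by linarith
  have key : ∀ m : ℕ, 1 ≤ m → ∀ n : ℕ, Pr half (armInter m n) ≤ q ^ n * arm half m := by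
    intro m hm n
    induction n with
    | zero => rw [pow_zero, one_mul]; exact le_rfl
    | succ n ih =>
      have h1 : Pr half (armInter m (n + 1)) =
          Pr half (armInter m n) * Pr half (Ann (m * 16 ^ n) (m * 16 ^ (n + 1))) :=
        Pr_inter_of_disjoint (armratio_localOn m n) (localOn_ann _ _) Finset.disjoint_sdiff
      have h2 : Pr half (Ann (m * 16 ^ n) (m * 16 ^ (n + 1))) ≤ q := by
        have h6 : 1 ≤ 16 ^ n := Nat.one_le_pow _ _ (by norm_num)
        have h7 : 1 ≤ m * 16 ^ n := Nat.one_le_iff_ne_zero.2 (by positivity)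
        have h3 : 4 * (m * 16 ^ n + 1 + 1) ≤ m * 16 ^ (n + 1) := by
          have : m * 16 ^ (n + 1) = 16 * (m * 16 ^ n) := by ring
          rw [this]
          omega
        have h4 := h (m * 16 ^ n + 1) (m * 16 ^ (n + 1)) (by omega) h3
        have h5 : Pr half (Ann (m * 16 ^ n) (m * 16 ^ (n + 1))) ≤
            Pr half (ArmBox 0 (m * 16 ^ n + 1) (m * 16 ^ (n + 1))) :=
          Pr_mono (ann_subset_armBox _ _)
        linarith
      rw [h1, pow_succ]
      have h8 : 0 ≤ arm half m := Pr_nonneg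
      calc Pr half (armInter m n) * Pr half (Ann (m * 16 ^ n) (m * 16 ^ (n + 1)))
          ≤ (q ^ n * arm half m) * q := mul_le_mul ih h2 Pr_nonneg (by positivity)
        _ = q ^ n * q * arm half m := by ring
  have hlog : Real.log q < 0 := Real.log_neg hq0 hq1
  have hlog16 : 0 < Real.log 16 := Real.log_pos (by norm_num)
  set a : ℝ := -Real.log q / Real.log 16 with ha
  have ha0 : 0 < a := div_pos (neg_pos.2 hlog) hlog16
  refine ⟨1 / q, a, by positivity, ha0, fun m n hm hmn => ?_⟩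
  have hm0 : (0 : ℝ) < m := by exact_mod_cast hm
  have hn0 : (0 : ℝ) < n := by exact_mod_cast (hm.trans hmn)
  set k := Nat.log 16 (n / m) with hk
  have hnm : n / m ≠ 0 := by
    have := Nat.div_pos hmn hm
    omega
  have hk1 : 16 ^ k ≤ n / m := Nat.pow_log_le_self 16 hnm
  have hk2 : n / m < 16 ^ (k + 1) := Nat.lt_pow_succ_log_self (by norm_num) _
  have hk3 : m * 16 ^ k ≤ n := by
    calc m * 16 ^ k ≤ m * (n / m) := Nat.mul_le_mul_left _ hk1
      _ ≤ n := Nat.mul_div_le n m
  have hk4 : n < m * 16 ^ (k + 1) := by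
    have := Nat.lt_mul_of_div_lt hk2 hm
    rw [mul_comm]; exact this
  have h1 : arm half n ≤ q ^ k * arm half m :=
    (Pr_mono (armratio_subset hm k hk3)).trans (key m hm k)
  have h2 : q ^ (k + 1) ≤ ((m : ℝ) / n) ^ a := by
    have h3 : ((16 : ℝ) ^ (k + 1)) ^ (-a) = q ^ (k + 1) := by
      rw [← Real.rpow_natCast (16 : ℝ) (k + 1), ← Real.rpow_mul (by norm_num), mul_comm,
        Real.rpow_mul (by norm_num), Real.rpow_natCast]
      congr 1
      rw [Real.rpow_def_of_pos (by norm_num)]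
      have : Real.log 16 * -a = Real.log q := by
        rw [ha]; field_simp
      rw [this, Real.exp_log hq0]
    have h4 : ((m : ℝ) / n) ^ a = ((n : ℝ) / m) ^ (-a) := by
      rw [Real.rpow_neg (by positivity), ← Real.inv_rpow (by positivity), inv_div]
    rw [← h3, h4]
    refine Real.rpow_le_rpow_of_nonpos (by positivity) ?_ (by linarith)
    rw [div_le_iff₀ hm0]
    have : (n : ℝ) ≤ (m * 16 ^ (k + 1) : ℕ) := by exact_mod_cast hk4.le
    push_cast at this
    linarith
  have h8 : 0 ≤ arm half m := Pr_nonneg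
  calc arm half n ≤ q ^ k * arm half m := h1
    _ = 1 / q * q ^ (k + 1) * arm half m := by rw [pow_succ]; field_simp
    _ ≤ 1 / q * ((m : ℝ) / n) ^ a * arm half m := by gcongr

end Pool.Agent.H29.Kap

end

section

/-!
# The probability that the endpoints of an edge are connected off the edge: definitions
-/

open MeasureTheory ProbabilityTheory unitInterval

namespace Pool.Agent.H31.AL

open Pool.Agent.H89.Perc Pool.Agent.H61.NC

/-- The endpoints of `e` are joined by an open path in `S` which does not use `e`. -/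
def Dn (S : Set Vert) (e : Edge) : Set Config := {ω | Conn (close e ω) S (src e) (tgt e)}

/-- The probability that the endpoints of the edge between `(0, 0)` and `(1, 0)` are joined by an
open path in the plane which does not use this edge. -/
noncomputable def tau (p : I) : ℝ := Pr p (Dn Set.univ (0, 0, false))

/-- `tau` as a function on the real line (`0` outside the unit interval). -/
noncomputable def tauR (x : ℝ) : ℝ := by
  classical exact if h : x ∈ I then tau ⟨x, h⟩ else 0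

/-- The same event on the torus (in the periodic extension the first endpoint is joined to a
translate of the second one; the edge in the middle of the torus and all its translates are
closed). -/
def DT (N : ℕ) (d : Bool) : Set Config :=
  {ω | ∃ a b : ℤ, Conn (per N (close (ctr N d) ω)) Set.univ (src (ctr N d))
    ((tgt (ctr N d)).1 + a * N, (tgt (ctr N d)).2 + b * N)}

/-- The probability of `DT`. -/
noncomputable def tauT (N : ℕ) (q : I) : ℝ := Pr q (DT N false)

end Pool.Agent.H31.AL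

end
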