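import Pool.Agent.H31.PT.M37
import Pool.Agent.H31.PT.M39

/-! The parts of this file: H31.AL.Window, H31.AL.Alpha. -/

section

/-!
# The window around the critical density at a given scale
-/

open MeasureTheory ProbabilityTheory unitInterval Filter Topology

namespace Pool.Agent.H31.AL

open Pool.Agent.H89.Perc Pool.Agent.H61.NC Pool.Agent.H31.EX Pool.Agent.H29.Sep

theorem ex_I {x : ℝ} (h : |x - 1 / 2| ≤ 1 / 4) :
    ∃ q : I, (q : ℝ) = x ∧ 1 / 4 ≤ (q : ℝ) ∧ (q : ℝ) ≤ 3 / 4 := by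
  have h1 := abs_le.1 h
  exact ⟨⟨x, by linarith, by linarith⟩, rfl, by linarith, by linarith⟩

/-- The box-crossing regime at scale `2 ^ k`. -/
theorem window_reg (hGL : GLTorus) {a : ℝ} (ha : a < 2) (h4 : PN (a4 half) a) (K : ℕ) {ε : ℝ}
    (hε : 0 < ε) : ∃ c > (0 : ℝ), ∃ c' > (0 : ℝ), ∃ k₀ : ℕ, ∀ k : ℕ, k₀ ≤ k →
      c' * (2 : ℝ) ^ (-(((2 - a) + ε) * k)) ≤ 1 / 4 ∧
      ∀ q : I, |(q : ℝ) - 1 / 2| ≤ c' * (2 : ℝ) ^ (-(((2 - a) + ε) * k)) →
        RSWreg c (K * 2 ^ k) q := by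
  obtain ⟨δ₀, -, -, h2, -, h4', -, -⟩ := Pool.Agent.H83.EX.length_facts hGL ha h4
  obtain ⟨c, hc, η₁, hη₁, H1⟩ := h2 K
  obtain ⟨c₁, hc₁, η₂, hη₂, H2⟩ := h4' ε hε
  set w : ℝ := (2 - a) + ε with hw
  have hw0 : 0 < w := by rw [hw]; linarith
  have hlim : Tendsto (fun k : ℕ => c₁ * (2 : ℝ) ^ (-(w * k))) atTop (𝓝 (c₁ * 0)) := by
    refine Tendsto.const_mul c₁ ?_
    have hr : (2 : ℝ) ^ (-w) < 1 :=
      Real.rpow_lt_one_of_one_lt_of_neg (by norm_num) (by linarith)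
    refine (tendsto_pow_atTop_nhds_zero_of_lt_one
      (Real.rpow_pos_of_pos (by norm_num) (-w)).le hr).congr fun n => ?_
    rw [← Real.rpow_natCast, ← Real.rpow_mul (by norm_num)]
    congr 1
    ring
  rw [mul_zero] at hlim
  have hm : 0 < min (1 / 4) (min η₁ η₂) := lt_min (by norm_num) (lt_min hη₁ hη₂)
  obtain ⟨k₀, hk₀⟩ := eventually_atTop.1 (hlim.eventually (gt_mem_nhds hm))
  refine ⟨c, hc, c₁, hc₁, k₀, fun k hk => ?_⟩
  have h5 := hk₀ k hk
  set x : ℝ := c₁ * (2 : ℝ) ^ (-(w * k)) with hx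
  have hx0 : 0 < x := mul_pos hc₁ (Real.rpow_pos_of_pos (by norm_num) _)
  have hx1 : x < 1 / 4 := h5.trans_le (min_le_left _ _)
  have hx2 : x < η₁ := h5.trans_le ((min_le_right _ _).trans (min_le_left _ _))
  have hx3 : x < η₂ := h5.trans_le ((min_le_right _ _).trans (min_le_right _ _))
  refine ⟨hx1.le, fun q hq => ?_⟩
  set p : I := ⟨1 / 2 + x, by linarith, by linarith⟩ with hp
  have hpv : (p : ℝ) = 1 / 2 + x := rfl
  have hp1 : (1 / 2 : ℝ) < p := by rw [hpv]; linarith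
  have e1 := H2 p hp1 (by rw [hpv]; linarith)
  have e2 := H1 p hp1 (by rw [hpv]; linarith) q
  have hq' := abs_le.1 hq
  have e3 : RSWreg c (K * Pool.Agent.H83.EX.Len δ₀ p) q := by
    refine e2 ?_ ?_
    · change (1 - (p : ℝ)) ≤ (q : ℝ)
      rw [hpv]
      linarith
    · change (q : ℝ) ≤ (p : ℝ)
      rw [hpv]
      linarith
  refine Pool.Agent.H83.EX.rsw_anti e3 (Nat.mul_le_mul_left K ?_)
  -- `2 ^ k ≤ Len`
  rw [hpv, add_sub_cancel_left, hx, mul_assoc] at e1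
  have e4 : 1 ≤ (2 : ℝ) ^ (-(w * k)) * (Pool.Agent.H83.EX.Len δ₀ p : ℝ) ^ w := by
    have : c₁ * 1 ≤ c₁ * ((2 : ℝ) ^ (-(w * k)) * (Pool.Agent.H83.EX.Len δ₀ p : ℝ) ^ w) := by
      rw [mul_one]; exact e1
    exact le_of_mul_le_mul_left this hc₁
  by_contra hcon
  push Not at hcon
  have e5 : (Pool.Agent.H83.EX.Len δ₀ p : ℝ) < (2 : ℝ) ^ k := by exact_mod_cast hcon
  have e6 : (Pool.Agent.H83.EX.Len δ₀ p : ℝ) ^ w < ((2 : ℝ) ^ k) ^ w :=
    Real.rpow_lt_rpow (Nat.cast_nonneg _) e5 hw0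
  have e7 : (2 : ℝ) ^ (-(w * k)) * ((2 : ℝ) ^ k) ^ w = 1 := by
    rw [← Real.rpow_natCast, ← Real.rpow_mul (by norm_num), ← Real.rpow_add (by norm_num)]
    have : -(w * k) + k * w = 0 := by ring
    rw [this, Real.rpow_zero]
  have e8 : (2 : ℝ) ^ (-(w * k)) * (Pool.Agent.H83.EX.Len δ₀ p : ℝ) ^ w <
      (2 : ℝ) ^ (-(w * k)) * ((2 : ℝ) ^ k) ^ w :=
    mul_lt_mul_of_pos_left e6 (Real.rpow_pos_of_pos (by norm_num) _)
  linarith

/-- Stability of the four-arm probability. -/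
theorem a4_near (hGL : GLTorus) {c : ℝ} (hc : 0 < c) : ∃ C > (0 : ℝ), ∀ (M : ℕ) (x : ℝ),
    x ≤ 1 / 4 → (∀ q : I, |(q : ℝ) - 1 / 2| ≤ x → RSWreg c (64 * M) q) →
      ∀ q : I, |(q : ℝ) - 1 / 2| ≤ x → ∀ t : ℕ, 1 ≤ t → t ≤ M → a4 q t ≤ C * a4 half t := by
  obtain ⟨C₁, hC₁, H1⟩ := le_FT' hGL blockLow c hc
  obtain ⟨K, hK, H2⟩ := near_critical hGL blockLow c hc
  refine ⟨C₁ * (K * 2), by positivity, fun M x hx hreg q hq t ht htM => ?_⟩
  have hqx := abs_le.1 hq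
  have hx0 : 0 ≤ x := (abs_nonneg _).trans hq
  have hreg' : ∀ q : I, |(q : ℝ) - 1 / 2| ≤ x → RSWreg c (64 * t) q := fun q hq =>
    Pool.Agent.H83.EX.rsw_anti (hreg q hq) (by omega)
  have hh : ((half : I) : ℝ) = 1 / 2 := rfl
  have e1 := H1 (64 * t) q (by omega) (hreg' q hq)
  have e2 : FT' (64 * t) q ≤ K * FT' (64 * t) half := by
    rcases le_total q half with h | h
    · have h' : (q : ℝ) ≤ 1 / 2 := h
      refine (H2 (64 * t) q half (by omega) h (by linarith) (by rw [hh]; norm_num) ?_).2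
      intro q' hq1 hq2
      have h1 : (q : ℝ) ≤ q' := hq1
      have h2 : (q' : ℝ) ≤ 1 / 2 := hq2
      exact hreg' q' (abs_le.2 ⟨by linarith, by linarith⟩)
    · have h' : 1 / 2 ≤ (q : ℝ) := h
      refine (H2 (64 * t) half q (by omega) h (by rw [hh]; norm_num) (by linarith) ?_).1
      intro q' hq1 hq2
      have h1 : 1 / 2 ≤ (q' : ℝ) := hq1
      have h2 : (q' : ℝ) ≤ q := hq2
      exact hreg' q' (abs_le.2 ⟨by linarith, by linarith⟩)
  have e3 := FT'_le (N := 64 * t) (r := t) (by omega) half ht (by omega)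
  rw [show 64 * t / 64 = t by omega] at e1
  have hN : (0 : ℝ) < ((64 * t : ℕ) : ℝ) ^ 2 := by
    have : 0 < 64 * t := by omega
    positivity
  have e4 : ((64 * t : ℕ) : ℝ) ^ 2 * a4 q t ≤
      ((64 * t : ℕ) : ℝ) ^ 2 * (C₁ * (K * 2) * a4 half t) := by
    calc ((64 * t : ℕ) : ℝ) ^ 2 * a4 q t ≤ C₁ * FT' (64 * t) q := e1
      _ ≤ C₁ * (K * FT' (64 * t) half) := mul_le_mul_of_nonneg_left e2 hC₁.le
      _ ≤ C₁ * (K * (2 * ((64 * t : ℕ) : ℝ) ^ 2 * a4 half t)) := by gcongr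
      _ = _ := by ring
  exact le_of_mul_le_mul_left e4 hN

theorem PN_le {f : ℕ → ℝ} (hf : ∀ n, f n ≤ 1) {a s : ℝ} (h : PN f a) (hs : s < a) (hs0 : 0 ≤ s) :
    ∃ A > (0 : ℝ), ∀ t : ℕ, 1 ≤ t → f t ≤ A * (t : ℝ) ^ (-s) := by
  obtain ⟨n₀, hn₀⟩ := h (a - s) (by linarith)
  refine ⟨((n₀ : ℝ) + 1) ^ s, by positivity, fun t ht => ?_⟩
  have ht0 : (0 : ℝ) < t := by exact_mod_cast ht
  rcases le_or_gt n₀ t with h1 | h1
  · have h2 := (hn₀ t h1).2
    have e : -a + (a - s) = -s := by ring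
    rw [e] at h2
    have h3 : (1 : ℝ) ≤ ((n₀ : ℝ) + 1) ^ s :=
      Real.one_le_rpow (by linarith [Nat.cast_nonneg (α := ℝ) n₀]) hs0
    have h4 : 0 < (t : ℝ) ^ (-s) := Real.rpow_pos_of_pos ht0 _
    nlinarith
  · have h2 : (t : ℝ) ≤ (n₀ : ℝ) + 1 := by
      have : (t : ℝ) < n₀ := by exact_mod_cast h1
      linarith
    have h3 : (t : ℝ) ^ s ≤ ((n₀ : ℝ) + 1) ^ s := Real.rpow_le_rpow ht0.le h2 hs0
    rw [Real.rpow_neg ht0.le, ← div_eq_mul_inv, le_div_iff₀ (Real.rpow_pos_of_pos ht0 _)]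
    have h4 : 0 < (t : ℝ) ^ s := Real.rpow_pos_of_pos ht0 _
    nlinarith [hf t]

/-- Linear approximation of `tau` in the window at scale `2 ^ k`. -/
theorem window_tau (hGL : GLTorus) (hQM : QMann) {a ε : ℝ} (ha2 : a < 4 / 3) (h4 : PN (a4 half) a) (hε : 0 < ε) (hεa : ε < a - 1) :
    ∃ c > (0 : ℝ), ∃ C > (0 : ℝ), ∃ k₀ : ℕ, ∃ b : ℕ → ℝ, ∀ k : ℕ, k₀ ≤ k → ∀ t : ℝ,
      |t| ≤ c * (2 : ℝ) ^ (-(((2 - a) + ε) * k)) →
        |tauR (1 / 2 + t) - tauR (1 / 2) - b k * t| ≤ C * (2 : ℝ) ^ (-((a - ε) * k)) := by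
  obtain ⟨c, hc, c', hc', k₀, hreg⟩ := window_reg hGL (by linarith : a < 2) h4 (64 * 4) hε
  obtain ⟨C₁, hC₁, hnear⟩ := a4_near hGL hc
  obtain ⟨A, hA, hA4⟩ := PN_le (fun n => Pool.Agent.H61.NC.a4_le_one half n) h4 (s := a - ε) (by linarith)
    (by linarith)
  obtain ⟨C₂, hC₂, hsec⟩ := second_DT hQM c (C₁ * A) (a - ε) hc (by positivity) (by linarith)
    (by linarith)
  set w : ℝ := (2 - a) + ε with hw
  set s : ℝ := a - ε with hs
  refine ⟨c', hc', C₂ * (4 : ℝ) ^ (4 - 3 * s) * c' ^ 2 + 2 * (C₁ * A), by positivity, k₀,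
    fun k => PrR' (tEdges (4 * 2 ^ k)) (DT (4 * 2 ^ k) false) (1 / 2), fun k hk t ht => ?_⟩
  obtain ⟨hx4, hR⟩ := hreg k hk
  have h2k : (0 : ℝ) < 2 ^ k := by positivity
  set N : ℕ := 4 * 2 ^ k with hN
  have hN1 : 1 ≤ N := by
    have : 0 < 2 ^ k := by positivity
    omega
  have hloc := localOn_DT hN1 false
  have hinc := incr_DT N false
  -- four arms in the window
  have hfour : ∀ q : I, |(q : ℝ) - 1 / 2| ≤ c' * (2 : ℝ) ^ (-(w * k)) → ∀ t : ℕ, 1 ≤ t → t ≤ N →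
      a4 q t ≤ C₁ * A * (t : ℝ) ^ (-s) := by
    intro q hq t ht htN
    have h1 := hnear N (c' * (2 : ℝ) ^ (-(w * k))) hx4 (fun q hq => by
      have := hR q hq
      rw [hN, ← mul_assoc]
      exact this) q hq t ht htN
    refine h1.trans ?_
    rw [mul_assoc]
    exact mul_le_mul_of_nonneg_left (hA4 t ht) hC₁.le
  -- Taylor
  have hB : 0 ≤ C₂ * (N : ℝ) ^ (4 - 3 * s) := by positivity
  have htay := taylor_one (F := PrR (tEdges N) (DT N false)) (F' := PrR' (tEdges N) (DT N false))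
    (F'' := fun x => if hx : x ∈ I then
      ∑ e ∈ tEdges N, ∑ f ∈ tEdges N, (pivot ⟨x, hx⟩ (upd (DT N false) e true) f -
        pivot ⟨x, hx⟩ (upd (DT N false) e false) f) else 0)
    (x₀ := 1 / 2) (r := c' * (2 : ℝ) ^ (-(w * k))) hB
    (fun x hx => by
      obtain ⟨q, rfl, -, -⟩ := ex_I (hx.trans hx4)
      exact hasDerivAt_PrR_eq hloc q)
    (fun x hx => by
      obtain ⟨q, rfl, -, -⟩ := ex_I (hx.trans hx4)
      rw [dif_pos q.2]
      exact hasDerivAt_PrR' hloc q)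
    (fun x hx => by
      obtain ⟨q, hqx, h1, h2⟩ := ex_I (hx.trans hx4)
      subst hqx
      rw [dif_pos q.2]
      refine (abs_second_le hloc hinc q).trans ?_
      refine hsec N q hN1 h1 h2 ?_ (hfour q hx)
      have := hR q hx
      rw [hN, ← mul_assoc]
      exact this)
    (x := 1 / 2 + t) (by rw [add_sub_cancel_left]; exact ht)
  rw [add_sub_cancel_left] at htay
  -- comparison with the plane
  have ht4 : |1 / 2 + t - 1 / 2| ≤ 1 / 4 := by rw [add_sub_cancel_left]; exact ht.trans hx4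
  obtain ⟨q, hq, -, -⟩ := ex_I ht4
  have hqw : |(q : ℝ) - 1 / 2| ≤ c' * (2 : ℝ) ^ (-(w * k)) := by
    rw [hq, add_sub_cancel_left]; exact ht
  have hhw : |((half : I) : ℝ) - 1 / 2| ≤ c' * (2 : ℝ) ^ (-(w * k)) := by
    have : ((half : I) : ℝ) = 1 / 2 := rfl
    rw [this, sub_self, abs_zero]
    exact (abs_nonneg _).trans ht
  have hcomp : ∀ q : I, |(q : ℝ) - 1 / 2| ≤ c' * (2 : ℝ) ^ (-(w * k)) →
      |PrR (tEdges N) (DT N false) q - tau q| ≤ C₁ * A * (2 : ℝ) ^ (-(s * k)) := by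
    intro q hq
    rw [← Pr_eq_PrR hloc]
    have h1 := tauT_near q (N := N) (r := 2 ^ k) Nat.one_le_two_pow (by
      have : 0 < 2 ^ k := by positivity
      omega)
    refine h1.trans ((hfour q hq (2 ^ k) Nat.one_le_two_pow (by omega)).trans (le_of_eq ?_))
    push_cast
    rw [← Real.rpow_natCast, ← Real.rpow_mul (by norm_num)]
    congr 2
    ring
  have h5 := hcomp q hqw
  have h6 := hcomp half hhw
  have e1 : tauR (1 / 2 + t) = tau q := by
    have : (1 / 2 + t) ∈ I := by rw [← hq]; exact q.2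
    unfold tauR
    rw [dif_pos this]
    congr 1
    exact Subtype.ext hq.symm
  have e2 : tauR (1 / 2) = tau half := by
    have : (1 / 2 : ℝ) ∈ I := half.2
    unfold tauR
    rw [dif_pos this]
    rfl
  rw [e1, e2]
  have hh : ((half : I) : ℝ) = 1 / 2 := rfl
  rw [hh] at h6
  rw [hq] at h5
  have e3 : tau q - tau half - PrR' (tEdges N) (DT N false) (1 / 2) * t =
      (PrR (tEdges N) (DT N false) (1 / 2 + t) - PrR (tEdges N) (DT N false) (1 / 2) -
        PrR' (tEdges N) (DT N false) (1 / 2) * t) -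
      (PrR (tEdges N) (DT N false) (1 / 2 + t) - tau q) +
      (PrR (tEdges N) (DT N false) (1 / 2) - tau half) := by ring
  rw [e3]
  refine (abs_add_le _ _).trans ?_
  have h7 := abs_sub (PrR (tEdges N) (DT N false) (1 / 2 + t) -
    PrR (tEdges N) (DT N false) (1 / 2) - PrR' (tEdges N) (DT N false) (1 / 2) * t)
    (PrR (tEdges N) (DT N false) (1 / 2 + t) - tau q)
  have h8 : C₂ * (N : ℝ) ^ (4 - 3 * s) * |t| ^ 2 ≤
      C₂ * (4 : ℝ) ^ (4 - 3 * s) * c' ^ 2 * (2 : ℝ) ^ (-(s * k)) := by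
    have h9 : |t| ^ 2 ≤ (c' * (2 : ℝ) ^ (-(w * k))) ^ 2 := pow_le_pow_left₀ (abs_nonneg _) ht 2
    refine (mul_le_mul_of_nonneg_left h9 hB).trans (le_of_eq ?_)
    have h10 : (N : ℝ) ^ (4 - 3 * s) = (4 : ℝ) ^ (4 - 3 * s) * (2 : ℝ) ^ ((4 - 3 * s) * k) := by
      rw [hN]
      push_cast
      rw [Real.mul_rpow (by norm_num) h2k.le, ← Real.rpow_natCast, ← Real.rpow_mul (by norm_num)]
      congr 2
      ring
    have h11 : (2 : ℝ) ^ (-(s * k)) =
        (2 : ℝ) ^ ((4 - 3 * s) * k) * ((2 : ℝ) ^ (-(w * k))) ^ 2 := by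
      rw [← Real.rpow_natCast, ← Real.rpow_mul (by norm_num), ← Real.rpow_add (by norm_num)]
      congr 1
      rw [hs, hw]
      push_cast
      ring
    rw [h10, h11, mul_pow]
    ring
  rw [hN] at *
  linarith

end Pool.Agent.H31.AL

end

section

/-!
# The second-order expansion of the cluster density at the critical point
-/

open MeasureTheory ProbabilityTheory unitInterval Filter Topology

namespace Pool.Agent.H31.AL

open Pool.Agent.H89.Perc Pool.Agent.H61.NC Pool.Agent.H31.EX Pool.Agent.H29.Sep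
open Pool.Agent.H29.Kap

/-- From a first-order expansion of `τ` to the expansion of the cluster density. -/
theorem rem_of_tau {β C δ v : ℝ} (hC : 0 < C) (hδ : 0 < δ) (hv : 1 < v)
    (h : ∀ t : ℝ, |t| ≤ δ → |tauR (1 / 2 + t) - tauR (1 / 2) - β * t| ≤ C * |t| ^ v) :
    ∃ δ' > (0 : ℝ), ∀ p : ℝ, |p - 1 / 2| ≤ δ' → |Rem kap p| ≤ 2 * C * |p - 1 / 2| ^ (1 + v) := by
  have h0 : (1 / 4 : ℝ) < 1 / 2 ∧ (1 / 2 : ℝ) < 3 / 4 := by norm_num
  have hd0 : deriv kap (1 / 2) = -(2 * (1 - tauR (1 / 2))) := (kap_hasDerivAt h0.1 h0.2).deriv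
  have hder : ∀ x : ℝ, |x - 1 / 2| < 1 / 4 → deriv kap x = -(2 * (1 - tauR x)) := by
    intro x hx
    have := abs_lt.1 hx
    exact (kap_hasDerivAt (by linarith) (by linarith)).deriv
  -- second derivative
  have hdd : HasDerivAt (deriv kap) (2 * β) (1 / 2) := by
    rw [hasDerivAt_iff_isLittleO]
    have hO : (fun x : ℝ => deriv kap x - deriv kap (1 / 2) - (x - 1 / 2) • (2 * β)) =O[𝓝 (1 / 2)]
        fun x : ℝ => |x - 1 / 2| ^ v := by
      refine Asymptotics.IsBigO.of_bound (2 * C) ?_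
      have hm : 0 < min δ (1 / 4) := lt_min hδ (by norm_num)
      filter_upwards [Metric.ball_mem_nhds (1 / 2 : ℝ) hm] with x hx
      rw [Metric.mem_ball, Real.dist_eq] at hx
      have h1 := h (x - 1 / 2) (hx.le.trans (min_le_left _ _))
      rw [add_sub_cancel] at h1
      rw [hder x (hx.trans_le (min_le_right _ _)), hd0, Real.norm_eq_abs, Real.norm_eq_abs,
        abs_of_nonneg (Real.rpow_nonneg (abs_nonneg _) v), smul_eq_mul]
      have e : -(2 * (1 - tauR x)) - -(2 * (1 - tauR (1 / 2))) - (x - 1 / 2) * (2 * β) =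
          2 * (tauR x - tauR (1 / 2) - β * (x - 1 / 2)) := by ring
      rw [e, abs_mul, abs_of_pos (by norm_num : (0 : ℝ) < 2)]
      linarith
    refine hO.trans_isLittleO ?_
    have hl : (fun x : ℝ => |x - 1 / 2| ^ v) = fun x : ℝ => |x - 1 / 2| ^ (v - 1) * |x - 1 / 2| := by
      funext x
      rcases eq_or_ne (x - 1 / 2) 0 with h1 | h1
      · rw [h1, abs_zero, mul_zero, Real.zero_rpow (by linarith)]
      · have h2 : 0 < |x - 1 / 2| := abs_pos.2 h1
        nth_rw 3 [← Real.rpow_one |x - 1 / 2|]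
        rw [← Real.rpow_add h2]
        congr 1
        ring
    rw [hl]
    have h1 : (fun x : ℝ => |x - 1 / 2| ^ (v - 1)) =o[𝓝 (1 / 2)] fun _ : ℝ => (1 : ℝ) := by
      rw [Asymptotics.isLittleO_one_iff]
      have h2 : ContinuousAt (fun x : ℝ => |x - 1 / 2| ^ (v - 1)) (1 / 2) := by
        refine ContinuousAt.rpow_const ?_ (Or.inr (by linarith))
        exact (continuous_abs.comp (continuous_id.sub continuous_const)).continuousAt
      have h3 := h2.tendsto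
      rw [sub_self, abs_zero, Real.zero_rpow (by linarith)] at h3
      exact h3
    have h2 : (fun x : ℝ => |x - 1 / 2|) =O[𝓝 (1 / 2)] fun x : ℝ => x - 1 / 2 :=
      Asymptotics.IsBigO.of_bound 1 (by simp)
    have h3 := h1.mul_isBigO h2
    simpa using h3
  have hdd' : deriv (deriv kap) (1 / 2) = 2 * β := hdd.deriv
  refine ⟨min δ (1 / 8), lt_min hδ (by norm_num), fun p hp => ?_⟩
  have hpδ : |p - 1 / 2| ≤ δ := hp.trans (min_le_left _ _)
  have hp8 : |p - 1 / 2| ≤ 1 / 8 := hp.trans (min_le_right _ _)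
  have hx0m : (1 / 2 : ℝ) ∈ Metric.closedBall (1 / 2 : ℝ) |p - 1 / 2| := by
    rw [Metric.mem_closedBall, dist_self]; exact abs_nonneg _
  have hxm : p ∈ Metric.closedBall (1 / 2 : ℝ) |p - 1 / 2| := by
    rw [Metric.mem_closedBall, Real.dist_eq]
  have h3 := (convex_closedBall (1 / 2 : ℝ) |p - 1 / 2|).norm_image_sub_le_of_norm_hasDerivWithin_le
      (f := Rem kap) (f' := fun z => 2 * (tauR z - tauR (1 / 2) - β * (z - 1 / 2)))
      (C := 2 * (C * |p - 1 / 2| ^ v))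
      (fun z hz => by
        rw [Metric.mem_closedBall, Real.dist_eq] at hz
        have hz8 := abs_le.1 (hz.trans hp8)
        have h4 := kap_hasDerivAt (x := z) (by linarith) (by linarith)
        have h5 : HasDerivAt (fun z : ℝ => z - 1 / 2) 1 z := (hasDerivAt_id z).sub_const _
        have h6 := ((h4.sub_const (kap (1 / 2))).sub (h5.const_mul (deriv kap (1 / 2)))).sub
          ((h5.pow 2).const_mul (1 / 2 * deriv (deriv kap) (1 / 2)))
        refine HasDerivAt.hasDerivWithinAt (h6.congr_deriv ?_)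
        rw [hd0, hdd']
        simp only [Nat.cast_ofNat, Nat.add_one_sub_one, pow_one]
        ring)
      (fun z hz => by
        rw [Metric.mem_closedBall, Real.dist_eq] at hz
        have h4 := h (z - 1 / 2) (hz.trans hpδ)
        rw [add_sub_cancel] at h4
        rw [Real.norm_eq_abs, abs_mul, abs_of_pos (by norm_num : (0 : ℝ) < 2)]
        have h5 : |z - 1 / 2| ^ v ≤ |p - 1 / 2| ^ v :=
          Real.rpow_le_rpow (abs_nonneg _) hz (by linarith)
        have h6 : C * |z - 1 / 2| ^ v ≤ C * |p - 1 / 2| ^ v := mul_le_mul_of_nonneg_left h5 hC.le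
        linarith) hx0m hxm
  rw [Real.norm_eq_abs, Real.norm_eq_abs] at h3
  have hR0 : Rem kap (1 / 2) = 0 := by unfold Rem; simp
  rw [hR0, sub_zero] at h3
  refine h3.trans (le_of_eq ?_)
  rcases eq_or_ne (p - 1 / 2) 0 with h1 | h1
  · rw [h1, abs_zero, Real.zero_rpow (by linarith), Real.zero_rpow (by linarith)]
    ring
  · have h2 : 0 < |p - 1 / 2| := abs_pos.2 h1
    rw [add_comm 1 v, Real.rpow_add h2, Real.rpow_one]
    ring

/-- The remainder of the second-order expansion of the cluster density at `1 / 2` is at most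
`|p - 1/2| ^ (2 ν - o(1))`. -/
theorem rem_le (hGL : GLTorus) (hQM : QMann) {a : ℝ} (ha : 1 < a) (ha2 : a < 4 / 3)
    (h4 : PN (a4 half) a) {v : ℝ} (hv : v < 2 / (2 - a)) :
    ∃ C > (0 : ℝ), ∃ δ > (0 : ℝ), ∀ p : ℝ, |p - 1 / 2| ≤ δ →
      |Rem kap p| ≤ C * |p - 1 / 2| ^ v := by
  -- the choice of `ε`
  have h2a : 0 < 2 - a := by linarith
  obtain ⟨ε, hε, hεa, hvε⟩ : ∃ ε > (0 : ℝ), ε < a - 1 ∧ v ≤ 2 / ((2 - a) + ε) := by
    have hcont : ContinuousAt (fun ε : ℝ => 2 / ((2 - a) + ε)) 0 :=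
      continuousAt_const.div (continuousAt_const.add continuousAt_id) (by simpa using h2a.ne')
    have h1 := hcont.tendsto
    rw [add_zero] at h1
    have h2 : ∀ᶠ ε in 𝓝[>] (0 : ℝ), v < 2 / ((2 - a) + ε) :=
      (h1.mono_left nhdsWithin_le_nhds).eventually (lt_mem_nhds hv)
    obtain ⟨ε, h3, h4⟩ := (h2.and (Ioo_mem_nhdsGT (by linarith : (0 : ℝ) < a - 1))).exists
    exact ⟨ε, h4.1, h4.2, h3.le⟩
  obtain ⟨c, hc, C, hC, k₀, b, hb⟩ := window_tau hGL hQM ha2 h4 hε hεa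
  obtain ⟨β, C', δ, hC', hδ, hβ⟩ := dyadic (f := fun t => tauR (1 / 2 + t) - tauR (1 / 2))
    (by simp) hc hC (w := (2 - a) + ε) (u := a - ε) (by linarith) (by linarith)
    (fun k hk t ht => hb k hk t ht)
  obtain ⟨δ', hδ', hR⟩ := rem_of_tau hC' hδ (v := (a - ε) / ((2 - a) + ε)) (by
    rw [one_lt_div (by linarith)]
    linarith) hβ
  refine ⟨2 * C', by positivity, min δ' 1, lt_min hδ' one_pos, fun p hp => ?_⟩
  refine (hR p (hp.trans (min_le_left _ _))).trans ?_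
  refine mul_le_mul_of_nonneg_left ?_ (by positivity)
  have e : 1 + (a - ε) / ((2 - a) + ε) = 2 / ((2 - a) + ε) := by
    have : (2 - a) + ε ≠ 0 := by linarith
    field_simp
    ring
  rw [e]
  rcases eq_or_ne (p - 1 / 2) 0 with h1 | h1
  · rw [h1, abs_zero, Real.zero_rpow (by
      have : 0 < 2 / ((2 - a) + ε) := div_pos two_pos (by linarith)
      exact this.ne')]
    exact Real.rpow_nonneg le_rfl _
  · exact Real.rpow_le_rpow_of_exponent_ge (abs_pos.2 h1) (hp.trans (min_le_right _ _)) hvε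

/-- Bounds for the remainder give a bound for the exponent. -/
theorem alpha_le {κ : ℝ → ℝ} {v₀ α₀ : ℝ}
    (h : ∀ v < v₀, ∃ C > (0 : ℝ), ∃ δ > (0 : ℝ), ∀ p : ℝ, |p - 1 / 2| ≤ δ →
      |Rem κ p| ≤ C * |p - 1 / 2| ^ v) (hα : HasAlpha κ α₀) : α₀ ≤ 2 - v₀ := by
  by_contra hcon
  push Not at hcon
  obtain ⟨v, hv1, hv2⟩ := exists_between (show 2 - α₀ < v₀ by linarith)
  obtain ⟨C', -, δ, hδ, hC'⟩ := h v hv2
  set ε : ℝ := (v - (2 - α₀)) / 2 with hε
  have hε0 : 0 < ε := by rw [hε]; linarith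
  obtain ⟨δ', hδ', hα'⟩ := hα ε hε0
  set s : ℝ := 2 - α₀ + ε with hs
  have hst : v - s = ε := by rw [hs, hε]; ring
  have key : ∀ x : ℝ, 0 < x → x < min (min δ δ') (1 / 2) → 1 ≤ C' * x ^ ε := by
    intro x hx0 hx
    have hxδ : x < δ := hx.trans_le ((min_le_left _ _).trans (min_le_left _ _))
    have hxδ' : x < δ' := hx.trans_le ((min_le_left _ _).trans (min_le_right _ _))
    have hx2 : x < 1 / 2 := hx.trans_le (min_le_right _ _)
    have e2 : |1 / 2 + x - 1 / 2| = x := by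
      rw [add_sub_cancel_left, abs_of_pos hx0]
    have g1 := hC' (1 / 2 + x) (by rw [e2]; exact hxδ.le)
    have g2 := (hα' (1 / 2 + x) (by linarith) (by linarith) (by linarith)
      (by rw [e2]; exact hxδ')).1
    rw [e2] at g1 g2
    have g3 : x ^ s ≤ C' * x ^ v := g2.trans g1
    have e3 : x ^ v = x ^ s * x ^ ε := by
      rw [← Real.rpow_add hx0]; congr 1; linarith
    rw [e3] at g3
    have hxs : 0 < x ^ s := Real.rpow_pos_of_pos hx0 s
    have g4 : x ^ s * 1 ≤ x ^ s * (C' * x ^ ε) := by linarith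
    exact le_of_mul_le_mul_left g4 hxs
  have hlim : Tendsto (fun x : ℝ => C' * x ^ ε) (nhdsWithin 0 (Set.Ioi 0)) (nhds 0) := by
    have h1 : Tendsto (fun x : ℝ => x ^ ε) (nhdsWithin 0 (Set.Ioi 0)) (nhds 0) := by
      have h2 := (Real.continuousAt_rpow_const 0 ε (Or.inr hε0.le)).tendsto
      rw [Real.zero_rpow hε0.ne'] at h2
      exact h2.mono_left nhdsWithin_le_nhds
    simpa using h1.const_mul C'
  have hm : 0 < min (min δ δ') (1 / 2) := by positivity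
  have hev2 := (hlim.eventually (gt_mem_nhds (one_pos))).and (Ioo_mem_nhdsGT hm)
  obtain ⟨x, hx1, hx2⟩ := hev2.exists
  have := key x hx2.1 hx2.2
  linarith

/-- **Hyperscaling inequality for the cluster density**: `α ≤ 2 - 2 ν`. -/
theorem alpha_bound (hGL : GLTorus) (hQM : QMann) {a : ℝ} (ha : 1 < a) (ha2 : a < 4 / 3)
    (h4 : PN (a4 half) a) {α₀ : ℝ} (hα : HasAlpha kap α₀) : α₀ ≤ 2 - 2 / (2 - a) :=
  alpha_le (fun _ hv => rem_le hGL hQM ha ha2 h4 hv) hα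

end Pool.Agent.H31.AL

end
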