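import Pool.Agent.H31.PT.M31

/-! The parts of this file: H89.Perc.FinalAnalysis, H15.Exact.Form, H66.OneArm.Defs, H66.OneArm.Ode, H66.OneArm.MaxPrin, H66.OneArm.Ratio, H66.OneArm.RatioMain, H66.OneArm.QuasiA, H66.OneArm.QuasiB, H66.OneArm.Convex, H66.OneArm.LowerA, H66.OneArm.Eigen, H66.OneArm.Trace, H66.OneArm.Spectral, H66.OneArm.Squeeze. -/

section

/-!
# The real analysis behind the lower bound for the percolation probability
-/

open Filter Topology

namespace Pool.Agent.H89.Perc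

/-- The inputs: `a = ` one-arm probabilities at `1/2 + h`, `b = ` at `1/2`, `d = ` at `1/2 - h`. -/
structure FinalHyp (ce Cd cd h θ : ℝ) (a b d : ℕ → ℝ) : Prop where
  ce0 : 0 < ce
  Cd0 : 0 < Cd
  cd0 : 0 < cd
  h0 : 0 < h
  h1 : h ≤ 1 / 4
  a_anti : Antitone a
  a_le_one : ∀ k, a k ≤ 1
  b_nonneg : ∀ k, 0 ≤ b k
  b_le_a : ∀ k, b k ≤ a k
  d_nonneg : ∀ k, 0 ≤ d k
  d_le_one : ∀ k, d k ≤ 1
  b_low : ∀ r : ℕ, 1 ≤ r → ce * Real.sqrt (1 / r) ≤ b r
  a_ext : ∀ k R : ℕ, 1 ≤ k → k ≤ R → ce * Real.sqrt (k / R) * a k ≤ a R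
  b_ext : ∀ k R : ℕ, 1 ≤ k → k ≤ R → ce * Real.sqrt (k / R) * b k ≤ b R
  b_dec : ∀ r : ℕ, 1 ≤ r → b r ≤ Cd * (r : ℝ) ^ (-cd)
  thr : ∀ r : ℕ, 1 ≤ r → (b r / (8 * r)) ^ 4 * (d r / (8 * r)) ^ 4 ≤
    Real.exp (-2 * h * r / (5 * ∑ k ∈ Finset.range (4 * r), a k * b k))
  sl : ∀ s n : ℕ, s < n → d n ≤ (8 * s + 4) * d s * d (n - s - 1)
  sub : ∀ R M : ℕ, 1 ≤ R → 2 * R < M → a (2 * R) ≤ a M + ∑ j ∈ Finset.range M, d (max j R)
  lim : Tendsto a atTop (𝓝 θ)

namespace FinalHyp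

variable {ce Cd cd h θ : ℝ} {a b d : ℕ → ℝ}

lemma ce_le_one (H : FinalHyp ce Cd cd h θ a b d) : ce ≤ 1 := by
  have h1 := H.b_low 1 le_rfl
  have h2 := H.b_le_a 1
  have h3 := H.a_le_one 1
  simp at h1
  linarith

lemma a_nonneg (H : FinalHyp ce Cd cd h θ a b d) (k : ℕ) : 0 ≤ a k :=
  (H.b_nonneg k).trans (H.b_le_a k)

lemma sqrt_low {N : ℕ} (hN : 1 ≤ N) : 1 / (N : ℝ) ≤ Real.sqrt (1 / N) := by
  have hN' : (1 : ℝ) ≤ N := by exact_mod_cast hN
  apply Real.le_sqrt_of_sq_le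
  have : 1 / (N : ℝ) ≤ 1 := by
    rw [div_le_one (by linarith)]; exact hN'
  have h0 : 0 ≤ 1 / (N : ℝ) := by positivity
  nlinarith

lemma b_low' (H : FinalHyp ce Cd cd h θ a b d) {N : ℕ} (hN : 1 ≤ N) : ce / N ≤ b N := by
  refine le_trans ?_ (H.b_low N hN)
  have := sqrt_low hN
  have h2 := mul_le_mul_of_nonneg_left this H.ce0.le
  calc ce / N = ce * (1 / N) := by ring
    _ ≤ _ := h2

/-- Upper bound for the sum in terms of the one-arm probability. -/
lemma S_upper (H : FinalHyp ce Cd cd h θ a b d) {N : ℕ} (hN : 1 ≤ N) :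
    ∑ k ∈ Finset.range N, a k * b k ≤ N * a N ^ 2 / ce ^ 2 * (2 + Real.log N) := by
  have hN' : (1 : ℝ) ≤ N := by exact_mod_cast hN
  have hce := H.ce0
  set Q : ℝ := N * a N ^ 2 / ce ^ 2 with hQ
  have hQ1 : 1 ≤ Q := by
    rw [hQ, le_div_iff₀ (by positivity)]
    have h1 : ce * Real.sqrt (1 / N) ≤ a N := (H.b_low N hN).trans (H.b_le_a N)
    have h2 : (ce * Real.sqrt (1 / N)) ^ 2 ≤ a N ^ 2 := by
      apply pow_le_pow_left₀ (by positivity) h1
    rw [mul_pow, Real.sq_sqrt (by positivity)] at h2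
    have h3 : (N : ℝ) * (ce ^ 2 * (1 / N)) = ce ^ 2 := by field_simp
    nlinarith [mul_le_mul_of_nonneg_left h2 (by linarith : (0 : ℝ) ≤ N)]
  have hterm : ∀ k ∈ Finset.range N, k ≠ 0 → a k * b k ≤ Q * (1 / (k : ℝ)) := by
    intro k hk hk0
    have hk1 : 1 ≤ k := Nat.one_le_iff_ne_zero.2 hk0
    have hkN : k ≤ N := (Finset.mem_range.1 hk).le
    have hk' : (1 : ℝ) ≤ k := by exact_mod_cast hk1
    have h1 := H.a_ext k N hk1 hkN
    have h2 := (H.b_ext k N hk1 hkN).trans (H.b_le_a N)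
    have hs : 0 < ce * Real.sqrt (k / N) := by positivity
    have h3 : (ce * Real.sqrt (k / N) * a k) * (ce * Real.sqrt (k / N) * b k) ≤ a N * a N :=
      mul_le_mul h1 h2 (mul_nonneg hs.le (H.b_nonneg k)) (H.a_nonneg N)
    have h4 : (ce * Real.sqrt (k / N) * a k) * (ce * Real.sqrt (k / N) * b k) =
        ce ^ 2 * (k / N) * (a k * b k) := by
      have : Real.sqrt (k / N) * Real.sqrt (k / N) = k / N := Real.mul_self_sqrt (by positivity)
      calc _ = ce ^ 2 * (Real.sqrt (k / N) * Real.sqrt (k / N)) * (a k * b k) := by ring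
        _ = _ := by rw [this]
    rw [h4] at h3
    rw [hQ]
    have h5 : a k * b k ≤ a N * a N / (ce ^ 2 * (k / N)) := by
      rw [le_div_iff₀ (by positivity)]; linarith
    refine h5.trans (le_of_eq ?_)
    field_simp
  have hsplit : ∑ k ∈ Finset.range N, a k * b k ≤
      Q + ∑ k ∈ Finset.range N, Q * (1 / (k : ℝ)) := by
    obtain ⟨n, rfl⟩ : ∃ n, N = n + 1 := ⟨N - 1, by omega⟩
    rw [Finset.sum_range_succ', Finset.sum_range_succ']
    have h0 : a 0 * b 0 ≤ 1 := by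
      have := H.a_le_one 0
      have h2 := (H.b_le_a 0).trans this
      have h3 := H.b_nonneg 0
      have h4 := H.a_nonneg 0
      nlinarith
    have h1 : ∑ k ∈ Finset.range n, a (k + 1) * b (k + 1) ≤
        ∑ k ∈ Finset.range n, Q * (1 / ((k + 1 : ℕ) : ℝ)) := by
      apply Finset.sum_le_sum
      intro k hk
      exact hterm (k + 1) (Finset.mem_range.2 (by have := Finset.mem_range.1 hk; omega)) (by omega)
    simp only [Nat.cast_zero, div_zero, mul_zero, add_zero]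
    linarith
  have hharm : ∑ k ∈ Finset.range N, (1 / (k : ℝ)) ≤ 1 + Real.log N := by
    obtain ⟨n, rfl⟩ : ∃ n, N = n + 1 := ⟨N - 1, by omega⟩
    rw [Finset.sum_range_succ']
    simp only [Nat.cast_zero, div_zero, add_zero]
    rcases Nat.eq_zero_or_pos n with rfl | hn
    · simp
    have h1 := harmonic_le_one_add_log n
    have h2 : ((harmonic n : ℚ) : ℝ) = ∑ k ∈ Finset.range n, (1 / ((k + 1 : ℕ) : ℝ)) := by
      simp [harmonic]
    rw [← h2]
    refine h1.trans ?_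
    have hn' : (0 : ℝ) < n := by exact_mod_cast hn
    have := Real.log_le_log hn' (show (n : ℝ) ≤ ((n + 1 : ℕ) : ℝ) by push_cast; linarith)
    linarith
  rw [← Finset.mul_sum] at hsplit
  have := mul_le_mul_of_nonneg_left hharm (by linarith : (0 : ℝ) ≤ Q)
  nlinarith

lemma S_pos (H : FinalHyp ce Cd cd h θ a b d) {r : ℕ} (hr : 1 ≤ r) :
    0 < ∑ k ∈ Finset.range (4 * r), a k * b k := by
  have h1 : a 1 * b 1 ≤ ∑ k ∈ Finset.range (4 * r), a k * b k :=
    Finset.single_le_sum (f := fun k => a k * b k)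
      (fun k _ => mul_nonneg (H.a_nonneg k) (H.b_nonneg k)) (Finset.mem_range.2 (by omega))
  have h2 := H.b_low' (N := 1) le_rfl
  have h3 := H.b_le_a 1
  have h4 := H.ce0
  have : 0 < a 1 * b 1 := by
    simp at h2
    have : 0 < b 1 := by linarith
    have : 0 < a 1 := by linarith
    positivity
  linarith

/-- Polynomially small upper bound for the sum. -/
lemma S_upper2 (H : FinalHyp ce Cd cd h θ a b d) {m : ℕ} (hm : 1 ≤ m) :
    ∑ k ∈ Finset.range (4 * m ^ 2), a k * b k ≤ m + 4 * m ^ 2 * (Cd * (m : ℝ) ^ (-cd)) := by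
  have hm' : (1 : ℝ) ≤ m := by exact_mod_cast hm
  have hle : ∀ k, a k * b k ≤ b k := by
    intro k
    have := H.a_le_one k
    have h3 := H.b_nonneg k
    nlinarith
  have hone : ∀ k, b k ≤ 1 := fun k => (H.b_le_a k).trans (H.a_le_one k)
  have h1 : ∑ k ∈ Finset.range (4 * m ^ 2), a k * b k ≤
      ∑ k ∈ Finset.range (4 * m ^ 2), ((if k < m then (1 : ℝ) else 0) + Cd * (m : ℝ) ^ (-cd)) := by
    apply Finset.sum_le_sum
    intro k _
    have hpos : 0 ≤ Cd * (m : ℝ) ^ (-cd) := mul_nonneg H.Cd0.le (by positivity)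
    split_ifs with hk
    · have := (hle k).trans (hone k)
      linarith
    · push Not at hk
      have hk1 : 1 ≤ k := hm.trans hk
      have h2 := H.b_dec k hk1
      have h3 : (k : ℝ) ^ (-cd) ≤ (m : ℝ) ^ (-cd) := by
        apply Real.rpow_le_rpow_of_nonpos (by linarith) (by exact_mod_cast hk)
        linarith [H.cd0]
      have h4 := mul_le_mul_of_nonneg_left h3 H.Cd0.le
      linarith [hle k]
  refine h1.trans ?_
  rw [Finset.sum_add_distrib]
  simp only [Finset.sum_const, Finset.card_range, nsmul_eq_mul]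
  have h2 : ∑ k ∈ Finset.range (4 * m ^ 2), (if k < m then (1 : ℝ) else 0) ≤ m := by
    rw [← Finset.sum_filter]
    simp only [Finset.sum_const, nsmul_eq_mul, mul_one]
    have : (Finset.filter (fun k => k < m) (Finset.range (4 * m ^ 2))).card ≤ (Finset.range m).card := by
      apply Finset.card_le_card
      intro k hk
      simp only [Finset.mem_filter, Finset.mem_range] at hk ⊢
      exact hk.2
    rw [Finset.card_range] at this
    exact_mod_cast this
  push_cast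
  linarith

/-- Decay of `d` from the smallness at one scale. -/
lemma d_decay (H : FinalHyp ce Cd cd h θ a b d) {r : ℕ} {ε : ℝ}
    (hε : (8 * r + 4) * d r ≤ ε) (m : ℕ) : ∀ n : ℕ, m * (r + 1) ≤ n → d n ≤ ε ^ m := by
  have hε0 : 0 ≤ ε := le_trans (mul_nonneg (by positivity) (H.d_nonneg r)) hε
  induction m with
  | zero => intro n _; simpa using H.d_le_one n
  | succ m ih =>
    intro n hn
    have hrn : r < n := by
      have : (m + 1) * (r + 1) = m * (r + 1) + (r + 1) := by ring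
      have h2 : 0 ≤ m * (r + 1) := Nat.zero_le _
      omega
    have h1 := H.sl r n hrn
    have h2 : d (n - r - 1) ≤ ε ^ m := by
      apply ih
      have : (m + 1) * (r + 1) = m * (r + 1) + (r + 1) := by ring
      omega
    calc d n ≤ (8 * r + 4) * d r * d (n - r - 1) := h1
      _ ≤ ε * ε ^ m := mul_le_mul hε h2 (H.d_nonneg _) hε0
      _ = ε ^ (m + 1) := by ring

/-- Sum of the decaying sequence. -/
lemma d_sum (H : FinalHyp ce Cd cd h θ a b d) {r : ℕ} {ε : ℝ}
    (hε : (8 * r + 4) * d r ≤ ε) (hε2 : ε ≤ 1 / 2) {m : ℕ} (hm : 1 ≤ m) :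
    ∑ j ∈ Finset.range ((r + 1) * m), d (max j (r + 1)) ≤ (r + 1) * (3 * ε - 2 * ε ^ m) := by
  have hε0 : 0 ≤ ε := le_trans (mul_nonneg (by positivity) (H.d_nonneg r)) hε
  induction m, hm using Nat.le_induction with
  | base =>
    have : ∀ j ∈ Finset.range ((r + 1) * 1), d (max j (r + 1)) ≤ ε := by
      intro j _
      have := H.d_decay hε 1 (max j (r + 1)) (by rw [one_mul]; exact le_max_right _ _)
      simpa using this
    have h2 := Finset.sum_le_card_nsmul _ _ _ this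
    simp only [Finset.card_range, nsmul_eq_mul] at h2
    push_cast at h2
    refine h2.trans (le_of_eq ?_)
    ring
  | succ m hm ih =>
    rw [Nat.mul_succ, Finset.sum_range_add]
    have h1 : ∑ x ∈ Finset.range (r + 1), d (max ((r + 1) * m + x) (r + 1)) ≤ (r + 1) * ε ^ m := by
      have : ∀ x ∈ Finset.range (r + 1), d (max ((r + 1) * m + x) (r + 1)) ≤ ε ^ m := by
        intro x _
        apply H.d_decay hε m
        have : m * (r + 1) = (r + 1) * m := by ring
        exact le_trans (by omega) (le_max_left _ _)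
      have h2 := Finset.sum_le_card_nsmul _ _ _ this
      simp only [Finset.card_range, nsmul_eq_mul] at h2
      push_cast at h2
      exact h2
    have h3 : ε ^ (m + 1) ≤ ε ^ m * (1 / 2) := by
      rw [pow_succ]
      exact mul_le_mul_of_nonneg_left hε2 (by positivity)
    have hr0 : (0 : ℝ) ≤ r + 1 := by positivity
    have h4 := mul_le_mul_of_nonneg_left h3 hr0
    nlinarith

/-- Lower bound for `θ` once `d` is small at scale `r`. -/
lemma θ_ge (H : FinalHyp ce Cd cd h θ a b d) {r : ℕ} {ε : ℝ} 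
    (hε : (8 * r + 4) * d r ≤ ε) (hε2 : ε ≤ 1 / 2) :
    a (2 * (r + 1)) ≤ θ + (r + 1) * (3 * ε) := by
  have hε0 : 0 ≤ ε := le_trans (mul_nonneg (by positivity) (H.d_nonneg r)) hε
  have hlim : Tendsto (fun m : ℕ => a ((r + 1) * m)) atTop (𝓝 θ) :=
    H.lim.comp (tendsto_id.const_mul_atTop' (Nat.succ_pos r))
  have : a (2 * (r + 1)) - (r + 1) * (3 * ε) ≤ θ := by
    apply ge_of_tendsto hlim
    filter_upwards [eventually_ge_atTop 3] with m hm
    have h1 := H.sub (r + 1) ((r + 1) * m) (by omega) (by nlinarith)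
    have h2 := H.d_sum hε hε2 (m := m) (by omega)
    have h3 : 0 ≤ ε ^ m := by positivity
    have hr0 : (0 : ℝ) ≤ r + 1 := by positivity
    have h4 := mul_nonneg hr0 h3
    nlinarith
  linarith

/-- Smallness of `d` from the threshold inequality. -/
lemma d_small (H : FinalHyp ce Cd cd h θ a b d) {r K : ℕ} (hr : 1 ≤ r)
    (hP : 10 * K * Real.log (r + 1) * ∑ k ∈ Finset.range (4 * r), a k * b k ≤ h * r) :
    d r ≤ 64 / ce * (r + 1) ^ 3 / (r + 1) ^ K := by
  have hS := H.S_pos hr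
  set S := ∑ k ∈ Finset.range (4 * r), a k * b k with hSdef
  have hr' : (1 : ℝ) ≤ r := by exact_mod_cast hr
  have h1 := H.thr r hr
  rw [← hSdef] at h1
  have h2 : Real.exp (-2 * h * r / (5 * S)) ≤ (1 / ((r : ℝ) + 1) ^ K) ^ 4 := by
    have h3 : (1 / ((r : ℝ) + 1) ^ K) ^ 4 = Real.exp (-(4 * K * Real.log (r + 1))) := by
      rw [Real.exp_neg, one_div, inv_pow, ← pow_mul, ← Real.rpow_natCast, Real.rpow_def_of_pos (by positivity)]
      congr 2
      push_cast
      ring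
    rw [h3, Real.exp_le_exp, div_le_iff₀ (by positivity)]
    nlinarith
  have h3 : (b r / (8 * r) * (d r / (8 * r))) ^ 4 ≤ (1 / ((r : ℝ) + 1) ^ K) ^ 4 := by
    rw [mul_pow]; exact h1.trans h2
  have hb := H.b_nonneg r
  have hd := H.d_nonneg r
  have h4 : b r / (8 * r) * (d r / (8 * r)) ≤ 1 / ((r : ℝ) + 1) ^ K :=
    le_of_pow_le_pow_left₀ (by norm_num) (by positivity) h3
  have h5 := H.b_low' hr
  have hce := H.ce0
  have h6 : ce / r / (8 * r) * (d r / (8 * r)) ≤ 1 / ((r : ℝ) + 1) ^ K := by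
    refine le_trans ?_ h4
    gcongr
  have h7 : d r = 64 * r ^ 3 / ce * (ce / r / (8 * r) * (d r / (8 * r))) := by
    field_simp
    norm_num
  rw [h7]
  calc 64 * (r : ℝ) ^ 3 / ce * (ce / r / (8 * r) * (d r / (8 * r)))
      ≤ 64 * (r : ℝ) ^ 3 / ce * (1 / ((r : ℝ) + 1) ^ K) := by gcongr
    _ ≤ 64 * ((r : ℝ) + 1) ^ 3 / ce * (1 / ((r : ℝ) + 1) ^ K) := by gcongr; linarith
    _ = _ := by ring

lemma a_le_two_θ (H : FinalHyp ce Cd cd h θ a b d) {r K : ℕ} (hr : 1 ≤ r)
    (hK : 8192 / ce ^ 2 ≤ 2 ^ K)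
    (hP : 10 * ((K + 6 : ℕ) : ℝ) * Real.log (r + 1) * ∑ k ∈ Finset.range (4 * r), a k * b k ≤ h * r) :
    a (2 * (r + 1)) ≤ 2 * θ := by
  have hr' : (1 : ℝ) ≤ r := by exact_mod_cast hr
  have hce := H.ce0
  have hce1 := H.ce_le_one
  have h1 := H.d_small hr hP
  set ε : ℝ := ce / (16 * ((r : ℝ) + 1) ^ 2) with hεdef
  have hε : (8 * r + 4) * d r ≤ ε := by
    have h2 : (2 : ℝ) ^ K ≤ ((r : ℝ) + 1) ^ K := by gcongr; linarith
    have h3 : 8192 / ce ^ 2 ≤ ((r : ℝ) + 1) ^ K := hK.trans h2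
    have h4 : 64 / ce * ((r : ℝ) + 1) ^ 3 / (r + 1) ^ (K + 6) =
        64 / ce / (((r : ℝ) + 1) ^ 3 * (r + 1) ^ K) := by
      rw [pow_add]
      field_simp
    rw [h4] at h1
    have h5 : 64 / ce / (((r : ℝ) + 1) ^ 3 * (r + 1) ^ K) ≤
        64 / ce / (((r : ℝ) + 1) ^ 3 * (8192 / ce ^ 2)) := by gcongr
    have h6 : d r ≤ ce / (128 * ((r : ℝ) + 1) ^ 3) := by
      refine (h1.trans h5).trans (le_of_eq ?_)
      field_simp
      norm_num
    calc (8 * (r : ℝ) + 4) * d r ≤ (8 * ((r : ℝ) + 1)) * (ce / (128 * ((r : ℝ) + 1) ^ 3)) := by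
          apply mul_le_mul (by linarith) h6 (H.d_nonneg r) (by positivity)
      _ = ε := by
          rw [hεdef]
          field_simp
          norm_num
  have hε2 : ε ≤ 1 / 2 := by
    rw [hεdef, div_le_iff₀ (by positivity)]
    nlinarith
  have h2 := H.θ_ge hε hε2
  have h3 := (H.b_low' (N := 2 * (r + 1)) (by omega)).trans (H.b_le_a _)
  have h4 : ((r : ℝ) + 1) * (3 * ε) ≤ 1 / 2 * (ce / ((2 * (r + 1) : ℕ) : ℝ)) := by
    rw [hεdef]
    have : ((r : ℝ) + 1) * (3 * (ce / (16 * ((r : ℝ) + 1) ^ 2))) = 3 / 8 * (ce / (2 * ((r : ℝ) + 1))) := by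
      field_simp
      norm_num
    rw [this]
    push_cast
    have : 0 ≤ ce / (2 * ((r : ℝ) + 1)) := by positivity
    linarith
  linarith

lemma exists_scale (hCd : 0 < Cd) (hcd : 0 < cd) {A : ℝ} (hA : 1 ≤ A) :
    ∃ C2 > (0 : ℝ), ∀ (ce h θ : ℝ) (a b d : ℕ → ℝ), FinalHyp ce Cd cd h θ a b d →
      ∃ m : ℕ, 1 ≤ m ∧
        A * Real.log ((m ^ 2 : ℕ) + 1) * ∑ k ∈ Finset.range (4 * m ^ 2), a k * b k ≤
          h * (m ^ 2 : ℕ) ∧
        Real.log ((m ^ 2 : ℕ) + 1) ≤ C2 * Real.log (2 + 1 / h) := by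
  set c1 : ℝ := min 1 cd with hc1def
  have hc1 : 0 < c1 := lt_min one_pos hcd
  have hc11 : c1 ≤ 1 := min_le_left _ _
  have hc1d : c1 ≤ cd := min_le_right _ _
  set K2 : ℝ := A * (8 / c1) * (1 + 4 * Cd) with hK2
  have h8 : 8 ≤ 8 / c1 := by rw [le_div_iff₀ hc1]; linarith
  have hK21 : 1 ≤ K2 := by
    rw [hK2]
    have : 1 ≤ A * (8 / c1) := by nlinarith
    nlinarith
  refine ⟨Real.log 8 + 4 / c1 * Real.log K2 + 4 / c1, ?_, ?_⟩
  · have h1 : 0 < Real.log 8 := Real.log_pos (by norm_num)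
    have h2 : 0 ≤ Real.log K2 := Real.log_nonneg hK21
    positivity
  intro ce h θ a b d H
  have hh := H.h0
  have hh1 := H.h1
  have hx1 : 1 ≤ K2 / h := by rw [le_div_iff₀ hh]; linarith
  set X : ℝ := (K2 / h) ^ (2 / c1) with hX
  have hX1 : 1 ≤ X := Real.one_le_rpow hx1 (by positivity)
  have hmX : X ≤ ⌈X⌉₊ := Nat.le_ceil X
  have hmX2 : (⌈X⌉₊ : ℝ) < X + 1 := Nat.ceil_lt_add_one (by linarith)
  set m := ⌈X⌉₊ with hm
  have hm1' : (1 : ℝ) ≤ m := hX1.trans hmX
  have hm1 : 1 ≤ m := by exact_mod_cast hm1'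
  have hm0 : (0 : ℝ) < m := by linarith
  refine ⟨m, hm1, ?_, ?_⟩
  · have hS := H.S_upper2 hm1
    have hS2 : (m : ℝ) + 4 * m ^ 2 * (Cd * (m : ℝ) ^ (-cd)) ≤ (1 + 4 * Cd) * (m ^ 2 * (m : ℝ) ^ (-c1)) := by
      have h1 : (m : ℝ) ^ (-cd) ≤ (m : ℝ) ^ (-c1) :=
        Real.rpow_le_rpow_of_exponent_le hm1' (by linarith)
      have h2 : (m : ℝ) ≤ m ^ 2 * (m : ℝ) ^ (-c1) := by
        have h3 : (m : ℝ) ^ (-1 : ℝ) ≤ (m : ℝ) ^ (-c1) :=
          Real.rpow_le_rpow_of_exponent_le hm1' (by linarith)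
        rw [Real.rpow_neg_one] at h3
        have h4 : (m : ℝ) = m ^ 2 * (m : ℝ)⁻¹ := by field_simp
        calc (m : ℝ) = m ^ 2 * (m : ℝ)⁻¹ := h4
          _ ≤ _ := by gcongr
      have h5 : 4 * (m : ℝ) ^ 2 * (Cd * (m : ℝ) ^ (-cd)) ≤ 4 * (m : ℝ) ^ 2 * (Cd * (m : ℝ) ^ (-c1)) := by
        gcongr
      calc (m : ℝ) + 4 * m ^ 2 * (Cd * (m : ℝ) ^ (-cd))
          ≤ m ^ 2 * (m : ℝ) ^ (-c1) + 4 * (m : ℝ) ^ 2 * (Cd * (m : ℝ) ^ (-c1)) := add_le_add h2 h5
        _ = _ := by ring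
    have hlog : Real.log ((m ^ 2 : ℕ) + 1) ≤ 8 / c1 * (m : ℝ) ^ (c1 / 2) := by
      have h1 := Real.log_le_rpow_div (x := ((m ^ 2 : ℕ) : ℝ) + 1) (by positivity) (show 0 < c1 / 4 by positivity)
      refine h1.trans ?_
      have h2 : (((m ^ 2 : ℕ) : ℝ) + 1) ^ (c1 / 4) ≤ (2 * (m : ℝ) ^ (2 : ℝ)) ^ (c1 / 4) := by
        apply Real.rpow_le_rpow (by positivity) _ (by positivity)
        rw [Real.rpow_two]
        push_cast
        nlinarith
      have h3 : (2 * (m : ℝ) ^ (2 : ℝ)) ^ (c1 / 4) = 2 ^ (c1 / 4) * (m : ℝ) ^ (c1 / 2) := by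
        rw [Real.mul_rpow (by norm_num) (by positivity), ← Real.rpow_mul hm0.le]
        congr 2
        ring
      have h4 : (2 : ℝ) ^ (c1 / 4) ≤ 2 := by
        calc (2 : ℝ) ^ (c1 / 4) ≤ 2 ^ (1 : ℝ) :=
              Real.rpow_le_rpow_of_exponent_le (by norm_num) (by linarith)
          _ = 2 := by norm_num
      rw [h3] at h2
      have h5 : (2 : ℝ) ^ (c1 / 4) * (m : ℝ) ^ (c1 / 2) ≤ 2 * (m : ℝ) ^ (c1 / 2) := by gcongr
      calc (((m ^ 2 : ℕ) : ℝ) + 1) ^ (c1 / 4) / (c1 / 4)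
          ≤ (2 * (m : ℝ) ^ (c1 / 2)) / (c1 / 4) := by
            apply div_le_div_of_nonneg_right (h2.trans h5) (by positivity)
        _ = _ := by field_simp; norm_num
    have hlog0 : 0 ≤ Real.log ((m ^ 2 : ℕ) + 1) := Real.log_nonneg (by
      have : (0 : ℝ) ≤ (m ^ 2 : ℕ) := by positivity
      linarith)
    have hSS := hS.trans hS2
    have hSn : 0 ≤ ∑ k ∈ Finset.range (4 * m ^ 2), a k * b k :=
      Finset.sum_nonneg fun k _ => mul_nonneg (H.a_nonneg k) (H.b_nonneg k)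
    have hmain : A * Real.log ((m ^ 2 : ℕ) + 1) * ∑ k ∈ Finset.range (4 * m ^ 2), a k * b k ≤
        A * (8 / c1 * (m : ℝ) ^ (c1 / 2)) * ((1 + 4 * Cd) * (m ^ 2 * (m : ℝ) ^ (-c1))) := by
      gcongr
    refine hmain.trans ?_
    have h6 : A * (8 / c1 * (m : ℝ) ^ (c1 / 2)) * ((1 + 4 * Cd) * (m ^ 2 * (m : ℝ) ^ (-c1))) =
        K2 * ((m : ℝ) ^ (c1 / 2) * (m : ℝ) ^ (-c1)) * m ^ 2 := by
      rw [hK2]; ring
    rw [h6, ← Real.rpow_add hm0]
    have h7 : c1 / 2 + -c1 = -(c1 / 2) := by ring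
    rw [h7]
    have h9 : K2 / h ≤ (m : ℝ) ^ (c1 / 2) := by
      have : K2 / h = X ^ (c1 / 2) := by
        rw [hX, ← Real.rpow_mul (by positivity)]
        have : 2 / c1 * (c1 / 2) = 1 := by field_simp
        rw [this, Real.rpow_one]
      rw [this]
      exact Real.rpow_le_rpow (by positivity) hmX (by positivity)
    have h10 : K2 * (m : ℝ) ^ (-(c1 / 2)) ≤ h := by
      rw [Real.rpow_neg hm0.le, ← div_eq_mul_inv, div_le_iff₀ (by positivity)]
      rw [div_le_iff₀ hh] at h9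
      linarith
    push_cast
    exact mul_le_mul_of_nonneg_right h10 (by positivity)
  · have hL : 1 ≤ Real.log (2 + 1 / h) := by
      rw [Real.le_log_iff_exp_le (by positivity)]
      have : 4 ≤ 1 / h := by rw [le_div_iff₀ hh]; linarith
      have := Real.exp_one_lt_d9
      linarith
    have h1 : (((m ^ 2 : ℕ) : ℝ) + 1) ≤ 8 * (K2 / h) ^ (4 / c1) := by
      have h2 : (K2 / h) ^ (4 / c1) = X ^ 2 := by
        rw [hX, ← Real.rpow_natCast, ← Real.rpow_mul (by positivity)]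
        congr 1
        push_cast
        ring
      rw [h2]
      push_cast
      nlinarith
    have h2 : Real.log (((m ^ 2 : ℕ) : ℝ) + 1) ≤ Real.log (8 * (K2 / h) ^ (4 / c1)) :=
      Real.log_le_log (by positivity) h1
    rw [Real.log_mul (by norm_num) (by positivity), Real.log_rpow (by positivity),
      Real.log_div (by positivity) (by positivity)] at h2
    have h3 : -Real.log h ≤ Real.log (2 + 1 / h) := by
      rw [← Real.log_inv]
      apply Real.log_le_log (by positivity)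
      rw [one_div]; linarith
    have h4 : 0 ≤ Real.log K2 := Real.log_nonneg hK21
    have h5 : 0 ≤ Real.log 8 := Real.log_nonneg (by norm_num)
    have h6 : 0 < 4 / c1 := by positivity
    calc Real.log (((m ^ 2 : ℕ) : ℝ) + 1) ≤ Real.log 8 + 4 / c1 * (Real.log K2 - Real.log h) := h2
      _ ≤ Real.log 8 + 4 / c1 * (Real.log K2 + Real.log (2 + 1 / h)) := by gcongr; linarith
      _ = (Real.log 8 + 4 / c1 * Real.log K2) * 1 + 4 / c1 * Real.log (2 + 1 / h) := by ring
      _ ≤ (Real.log 8 + 4 / c1 * Real.log K2) * Real.log (2 + 1 / h) + 4 / c1 * Real.log (2 + 1 / h) := by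
          gcongr
      _ = _ := by ring

theorem final_core (hce : 0 < ce) (hCd : 0 < Cd) (hcd : 0 < cd) :
    ∃ c > (0 : ℝ), ∀ (h θ : ℝ) (a b d : ℕ → ℝ), FinalHyp ce Cd cd h θ a b d →
      c * Real.sqrt h / Real.log (2 + 1 / h) ≤ θ := by
  obtain ⟨K, hK⟩ := pow_unbounded_of_one_lt (8192 / ce ^ 2) (one_lt_two : (1 : ℝ) < 2)
  set A : ℝ := 10 * ((K + 6 : ℕ) : ℝ) with hA
  have hA1 : 1 ≤ A := by
    rw [hA]; push_cast
    have : (0 : ℝ) ≤ K := by positivity
    linarith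
  obtain ⟨C2, hC2, hsc⟩ := exists_scale hCd hcd hA1
  refine ⟨min (ce / 12) (ce / (80 * A * C2)), lt_min (by positivity) (by positivity), ?_⟩
  intro h θ a b d H
  have hh := H.h0
  have hh1 := H.h1
  obtain ⟨m, hm1, hm2, hm3⟩ := hsc ce h θ a b d H
  have hex : ∃ r : ℕ, 1 ≤ r ∧
      A * Real.log (r + 1) * ∑ k ∈ Finset.range (4 * r), a k * b k ≤ h * r :=
    ⟨m ^ 2, Nat.one_le_pow _ _ hm1, hm2⟩
  classical
  obtain ⟨hr1, hr2⟩ := Nat.find_spec hex
  have hrm : Nat.find hex ≤ m ^ 2 := Nat.find_min' hex ⟨Nat.one_le_pow _ _ hm1, hm2⟩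
  have hmin : ∀ n, n < Nat.find hex → ¬ (1 ≤ n ∧
      A * Real.log (n + 1) * ∑ k ∈ Finset.range (4 * n), a k * b k ≤ h * n) :=
    fun n hn => Nat.find_min hex hn
  set r := Nat.find hex with hr
  have hθ := H.a_le_two_θ hr1 hK.le hr2
  have hL : 1 ≤ Real.log (2 + 1 / h) := by
    rw [Real.le_log_iff_exp_le (by positivity)]
    have : 4 ≤ 1 / h := by rw [le_div_iff₀ hh]; linarith
    have := Real.exp_one_lt_d9
    linarith
  set L := Real.log (2 + 1 / h) with hLdef
  have hsq : Real.sqrt h ≤ 1 := Real.sqrt_le_iff.2 ⟨by norm_num, by linarith⟩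
  have hsq0 : 0 ≤ Real.sqrt h := Real.sqrt_nonneg h
  have hθ0 : 0 ≤ θ := by
    have := H.a_nonneg (2 * (r + 1))
    linarith
  rw [div_le_iff₀ (by linarith)]
  by_cases hr3 : r ≤ 2
  · have h1 : ce / 6 ≤ 2 * θ := by
      have h2 := (H.b_low' (N := 6) (by norm_num)).trans (H.b_le_a 6)
      have h3 : a 6 ≤ a (2 * (r + 1)) := H.a_anti (by omega)
      push_cast at h2
      linarith
    calc min (ce / 12) (ce / (80 * A * C2)) * Real.sqrt h ≤ ce / 12 * 1 := by
          apply mul_le_mul (min_le_left _ _) hsq hsq0 (by positivity)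
      _ ≤ θ * 1 := by linarith
      _ ≤ θ * L := by gcongr
  · push Not at hr3
    obtain ⟨n, hn⟩ : ∃ n, r = n + 1 := ⟨r - 1, by omega⟩
    have hn2 : 2 ≤ n := by omega
    have h1 := hmin n (by omega)
    push Not at h1
    have h2 := h1 (by omega)
    have h3 := H.S_upper (N := 4 * n) (by omega)
    have hn' : (2 : ℝ) ≤ n := by exact_mod_cast hn2
    have hlog1 : 0 < Real.log ((n : ℝ) + 1) := Real.log_pos (by linarith)
    have h4 : a (4 * n) ≤ 2 * θ := (H.a_anti (by omega)).trans hθ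
    have h5 := H.a_nonneg (4 * n)
    set ℓ := Real.log ((n : ℝ) + 2) with hℓ
    have hℓ1 : 1 ≤ ℓ := by
      rw [hℓ, Real.le_log_iff_exp_le (by linarith)]
      have := Real.exp_one_lt_d9
      linarith
    have hℓ2 : Real.log ((n : ℝ) + 1) ≤ ℓ := Real.log_le_log (by linarith) (by linarith)
    have hℓ3 : 2 + Real.log ((4 * n : ℕ) : ℝ) ≤ 5 * ℓ := by
      push_cast
      rw [Real.log_mul (by norm_num) (by linarith)]
      have h6 : Real.log 4 ≤ 2 := by
        have : Real.log 4 = 2 * Real.log 2 := by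
          rw [show (4 : ℝ) = 2 ^ 2 by norm_num, Real.log_pow]; push_cast; ring
        rw [this]
        have := Real.log_two_lt_d9
        linarith
      have h7 : Real.log (n : ℝ) ≤ ℓ := Real.log_le_log (by linarith) (by linarith)
      linarith
    have hℓ4 : ℓ ≤ C2 * L := by
      refine le_trans ?_ hm3
      apply Real.log_le_log (by linarith)
      have : n + 1 ≤ m ^ 2 := by omega
      have : ((n : ℝ) + 1) ≤ ((m ^ 2 : ℕ) : ℝ) := by exact_mod_cast this
      linarith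
    have h6 : h * n < A * ℓ * ((4 * n : ℕ) * (2 * θ) ^ 2 / ce ^ 2 * (5 * ℓ)) := by
      refine lt_of_lt_of_le h2 ?_
      have hlogn : 0 ≤ 2 + Real.log ((4 * n : ℕ) : ℝ) := by
        have : 0 ≤ Real.log ((4 * n : ℕ) : ℝ) := Real.log_nonneg (by push_cast; linarith)
        linarith
      have h31 : ∑ k ∈ Finset.range (4 * n), a k * b k ≤
          (4 * n : ℕ) * (2 * θ) ^ 2 / ce ^ 2 * (5 * ℓ) := by
        refine h3.trans ?_
        gcongr
      have h32 : 0 ≤ ∑ k ∈ Finset.range (4 * n), a k * b k :=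
        Finset.sum_nonneg fun k _ => mul_nonneg (H.a_nonneg k) (H.b_nonneg k)
      gcongr
    have h7 : h < 80 * A / ce ^ 2 * (ℓ * θ) ^ 2 := by
      have h8 : A * ℓ * ((4 * n : ℕ) * (2 * θ) ^ 2 / ce ^ 2 * (5 * ℓ)) =
          80 * A / ce ^ 2 * (ℓ * θ) ^ 2 * n := by
        push_cast
        field_simp
        ring
      rw [h8] at h6
      exact lt_of_mul_lt_mul_right h6 (by linarith)
    have h9 : Real.sqrt h ≤ 80 * A / ce * (ℓ * θ) := by
      apply Real.sqrt_le_iff.2 ⟨by positivity, ?_⟩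
      refine h7.le.trans ?_
      have h10 : (80 * A / ce * (ℓ * θ)) ^ 2 = (80 * A) * (80 * A / ce ^ 2 * (ℓ * θ) ^ 2) := by
        field_simp
      rw [h10]
      have h11 : 0 ≤ 80 * A / ce ^ 2 * (ℓ * θ) ^ 2 := by positivity
      nlinarith
    calc min (ce / 12) (ce / (80 * A * C2)) * Real.sqrt h
        ≤ ce / (80 * A * C2) * (80 * A / ce * (ℓ * θ)) := by
          apply mul_le_mul (min_le_right _ _) h9 hsq0 (by positivity)
      _ = ℓ / C2 * θ := by field_simp
      _ ≤ (C2 * L) / C2 * θ := by gcongr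
      _ = θ * L := by field_simp

end FinalHyp

end Pool.Agent.H89.Perc

end

section

/-!
# Project EXACT, one-arm formula: the form of a pair of patterns with a marked gap

The marked gap lies between strand `-1` and strand `0`.
-/

set_option autoImplicit false

open Finset

namespace Pool.Agent.H15.Exact

open H56.EX

variable {L : ℕ}

/-- Some loop formed by the two patterns is contractible and surrounds the gap between strand
`-1` and strand `0`: there is a finite union of loops (on the universal cover) with an odd number of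
points to the left of the gap. -/
def Surr (P Q : Pat L) : Prop :=
  ∃ S : Finset ℤ, (∀ x ∈ S, P.m x ∈ S) ∧ (∀ x ∈ S, Q.m x ∈ S) ∧ Odd (S.filter (· < 0)).card

/-- Axioms of the form `τ ^ (number of loops around the gap)`. -/
structure FormProps (τ : ℂ) (W : ∀ L : ℕ, Pat L → Pat L → ℂ) : Prop where
  /-- the move `e_i` is self-adjoint if it does not straddle the gap -/
  adj : ∀ (L : ℕ) (i : ℤ), 0 ≤ i → i + 1 < L → ∀ P Q : Pat L, W L (E i P) Q = W L P (E i Q)
  /-- a small loop which does not surround the gap has weight one -/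
  ins0 : ∀ (L : ℕ) (P Q : Pat L), W (L + 2) (ins 0 P) (ins 0 Q) = W L P Q
  /-- a small loop around the gap has weight `τ` -/
  insm : ∀ (L : ℕ) (P Q : Pat L),
    W (L + 2) (ins (-1) P) (ins (-1) Q) = τ * W L (rot P) (rot Q)
  /-- two strands -/
  two_left : ∀ P Q : Pat 2, P.m 0 = 1 → W 2 P Q = 1
  /-- two strands -/
  two_right : ∀ P Q : Pat 2, Q.m 0 = 1 → W 2 P Q = 1
  /-- two strands -/
  two_base : ∀ P Q : Pat 2, P.m 0 = -1 → Q.m 0 = -1 → W 2 P Q = τ

/-- The form with weight one. -/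
theorem formProps_one : FormProps 1 (fun _ _ _ => 1) where
  adj := fun _ _ _ _ _ _ => rfl
  ins0 := fun _ _ _ => rfl
  insm := fun _ _ _ => by norm_num
  two_left := fun _ _ _ => rfl
  two_right := fun _ _ _ => rfl
  two_base := fun _ _ _ _ => rfl

theorem surr_comm {P Q : Pat L} : Surr P Q ↔ Surr Q P := by
  constructor
  · rintro ⟨S, h1, h2, h3⟩
    exact ⟨S, h2, h1, h3⟩
  · rintro ⟨S, h1, h2, h3⟩
    exact ⟨S, h2, h1, h3⟩

theorem neg_iff_of_cg {i x : ℤ} (h0 : 0 ≤ i) (h1 : i + 1 < L) (h : Cg L x i) :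
    x < 0 ↔ x + 1 < 0 := by
  obtain ⟨k, hk⟩ := h
  constructor
  · intro hx
    have hk0 : k < 0 := by
      by_contra hc
      rw [not_lt] at hc
      have : (0 : ℤ) ≤ L * k := mul_nonneg (by omega) hc
      omega
    have : (L : ℤ) * k ≤ -L := by nlinarith
    omega
  · intro hx
    omega

theorem pair_even {i : ℤ} (h0 : 0 ≤ i) (h1 : i + 1 < L) (U : Finset ℤ)
    (hpr : ∀ x ∈ U, Cg L x i ∨ Cg L x (i + 1)) (hs : ∀ x ∈ U, Cg L x i → x + 1 ∈ U)
    (hp : ∀ x ∈ U, Cg L x (i + 1) → x - 1 ∈ U) : Even (U.filter (· < 0)).card := by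
  classical
  have hL : 2 ≤ L := by omega
  set U1 := U.filter (fun x => Cg L x i ∧ x < 0) with hU1
  set U2 := U.filter (fun x => Cg L x (i + 1) ∧ x < 0) with hU2
  have hdisj : Disjoint U1 U2 := by
    rw [Finset.disjoint_left]
    intro x hx1 hx2
    have a1 := (mem_filter.mp hx1).2.1
    have a2 := (mem_filter.mp hx2).2.1
    exact not_Cg_succ hL i (Cg.trans' (Cg.symm' a1) a2)
  have hun : U.filter (· < 0) = U1 ∪ U2 := by
    ext x
    simp only [hU1, hU2, mem_filter, mem_union]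
    constructor
    · rintro ⟨hx, hx0⟩
      rcases hpr x hx with h | h
      · left; exact ⟨hx, h, hx0⟩
      · right; exact ⟨hx, h, hx0⟩
    · rintro (⟨hx, _, hx0⟩ | ⟨hx, _, hx0⟩) <;> exact ⟨hx, hx0⟩
  have him : U2 = U1.image (· + 1) := by
    ext x
    simp only [hU1, hU2, mem_filter, mem_image]
    constructor
    · rintro ⟨hx, hc, hx0⟩
      have hc' : Cg L (x - 1) i := by
        have := Cg.sub 1 hc
        simpa using this
      refine ⟨x - 1, ⟨hp x hx hc, hc', ?_⟩, by ring⟩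
      rw [neg_iff_of_cg h0 h1 hc']
      simpa using hx0
    · rintro ⟨y, ⟨hy, hc, hy0⟩, rfl⟩
      exact ⟨hs y hy hc, Cg.add 1 hc, (neg_iff_of_cg h0 h1 hc).mp hy0⟩
  have hcard : U2.card = U1.card := by
    rw [him]
    exact card_image_of_injective _ (fun a b h => by simpa using h)
  rw [hun, card_union_of_disjoint hdisj, hcard]
  exact ⟨_, rfl⟩

theorem surr_E_aux {i : ℤ} (h0 : 0 ≤ i) (h1 : i + 1 < L) {P Q : Pat L} (h : Surr (E i P) Q) :
    Surr P (E i Q) := by
  classical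
  obtain ⟨S, hP, hQ, hodd⟩ := h
  set R := S.filter (fun x => ¬ (Cg L x i ∨ Cg L x (i + 1))) with hR
  set T := (R.image P.m).filter (fun x => Cg L x i ∨ Cg L x (i + 1)) with hT
  have memT : ∀ x, x ∈ T ↔ (P.m x ∈ R ∧ (Cg L x i ∨ Cg L x (i + 1))) := by
    intro x
    rw [hT, mem_filter, mem_image]
    constructor
    · rintro ⟨⟨y, hy, rfl⟩, hx⟩
      rw [P.inv]
      exact ⟨hy, hx⟩
    · rintro ⟨hx, hx'⟩
      exact ⟨⟨P.m x, hx, P.inv x⟩, hx'⟩
  have memR : ∀ x, x ∈ R ↔ (x ∈ S ∧ ¬ Cg L x i ∧ ¬ Cg L x (i + 1)) := by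
    intro x
    rw [hR, mem_filter, not_or]
  -- the partners of `z` and `z + 1`
  have ha : ∀ z, Cg L z i → P.m z ∈ R → P.m (z + 1) ∈ R := by
    intro z hz hw
    obtain ⟨hw1, hw2, hw3⟩ := (memR _).mp hw
    have e := E.of_m P i hw2 hw3 (by rw [P.inv]; exact hz)
    rw [P.inv] at e
    have hn := E.mem_not P i hw2 hw3
    have hin := hP _ hw1
    rw [e] at hn hin
    exact (memR _).mpr ⟨hin, hn.1, hn.2⟩
  have hb : ∀ z, Cg L z (i + 1) → P.m z ∈ R → P.m (z - 1) ∈ R := by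
    intro z hz hw
    obtain ⟨hw1, hw2, hw3⟩ := (memR _).mp hw
    have e := E.of_m_succ P i hw2 hw3 (by rw [P.inv]; exact hz)
    rw [P.inv] at e
    have hn := E.mem_not P i hw2 hw3
    have hin := hP _ hw1
    rw [e] at hn hin
    exact (memR _).mpr ⟨hin, hn.1, hn.2⟩
  have hTs : ∀ x ∈ T, Cg L x i → x + 1 ∈ T := by
    intro x hx hc
    rw [memT] at hx ⊢
    exact ⟨ha x hc hx.1, Or.inr (Cg.add 1 hc)⟩
  have hTp : ∀ x ∈ T, Cg L x (i + 1) → x - 1 ∈ T := by
    intro x hx hc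
    rw [memT] at hx ⊢
    refine ⟨hb x hc hx.1, Or.inl ?_⟩
    have := Cg.sub 1 hc
    simpa using this
  have hdisj : Disjoint R T := by
    rw [Finset.disjoint_left]
    intro x hx1 hx2
    obtain ⟨_, h2, h3⟩ := (memR x).mp hx1
    rcases ((memT x).mp hx2).2 with h | h
    · exact h2 h
    · exact h3 h
  refine ⟨R ∪ T, ?_, ?_, ?_⟩
  · intro x hx
    rcases mem_union.mp hx with hx | hx
    · obtain ⟨hxS, hx1, hx2⟩ := (memR x).mp hx
      by_cases hpr : Cg L (P.m x) i ∨ Cg L (P.m x) (i + 1)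
      · refine mem_union_right _ ((memT _).mpr ⟨?_, hpr⟩)
        rw [P.inv]
        exact hx
      · rw [not_or] at hpr
        refine mem_union_left _ ((memR _).mpr ⟨?_, hpr.1, hpr.2⟩)
        have := hP x hxS
        rwa [E.other P i hx1 hx2 hpr.1 hpr.2] at this
    · exact mem_union_left _ ((memT x).mp hx).1
  · intro x hx
    rcases mem_union.mp hx with hx | hx
    · obtain ⟨hxS, hx1, hx2⟩ := (memR x).mp hx
      have hn := E.mem_not Q i hx1 hx2
      refine mem_union_left _ ((memR _).mpr ⟨?_, hn.1, hn.2⟩)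
      have hQx := hQ x hxS
      by_cases c1 : Cg L (Q.m x) i
      · rw [E.of_m Q i hx1 hx2 c1]
        refine hQ _ ?_
        have := hP _ hQx
        rwa [E.of_i P i c1] at this
      by_cases c2 : Cg L (Q.m x) (i + 1)
      · rw [E.of_m_succ Q i hx1 hx2 c2]
        refine hQ _ ?_
        have := hP _ hQx
        rwa [E.of_succ P i c2] at this
      rw [E.other Q i hx1 hx2 c1 c2]
      exact hQx
    · rcases ((memT x).mp hx).2 with h | h
      · rw [E.of_i Q i h]
        exact mem_union_right _ (hTs x hx h)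
      · rw [E.of_succ Q i h]
        exact mem_union_right _ (hTp x hx h)
  · -- parity
    have e1 : Even (T.filter (· < 0)).card :=
      pair_even h0 h1 T (fun x hx => ((memT x).mp hx).2) hTs hTp
    set U := S.filter (fun x => Cg L x i ∨ Cg L x (i + 1)) with hU
    have e2 : Even (U.filter (· < 0)).card := by
      refine pair_even h0 h1 U (fun x hx => (mem_filter.mp hx).2) ?_ ?_
      · intro x hx hc
        refine mem_filter.mpr ⟨?_, Or.inr (Cg.add 1 hc)⟩
        have := hP x (mem_filter.mp hx).1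
        rwa [E.of_i P i hc] at this
      · intro x hx hc
        refine mem_filter.mpr ⟨?_, Or.inl ?_⟩
        · have := hP x (mem_filter.mp hx).1
          rwa [E.of_succ P i hc] at this
        · have := Cg.sub 1 hc
          simpa using this
    have c1 : ((R ∪ T).filter (· < 0)).card = (R.filter (· < 0)).card + (T.filter (· < 0)).card := by
      rw [filter_union, card_union_of_disjoint (disjoint_filter_filter hdisj)]
    have c2 : (S.filter (· < 0)).card = (U.filter (· < 0)).card + (R.filter (· < 0)).card := by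
      have : S.filter (· < 0) = U.filter (· < 0) ∪ R.filter (· < 0) := by
        ext x
        simp only [hU, hR, mem_filter, mem_union]
        tauto
      rw [this, card_union_of_disjoint]
      rw [Finset.disjoint_left]
      intro x hx1 hx2
      exact (mem_filter.mp (mem_filter.mp hx2).1).2 (mem_filter.mp (mem_filter.mp hx1).1).2
    rw [c1]
    rw [c2] at hodd
    have hR : Odd (R.filter (· < 0)).card := by
      rcases Nat.odd_add.mp hodd with h
      by_contra hc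
      rw [Nat.not_odd_iff_even] at hc
      have := h.mpr hc
      exact (Nat.not_odd_iff_even.mpr e2) this
    exact hR.add_even e1

theorem surr_E {i : ℤ} (h0 : 0 ≤ i) (h1 : i + 1 < L) (P Q : Pat L) :
    Surr (E i P) Q ↔ Surr P (E i Q) := by
  constructor
  · exact surr_E_aux h0 h1
  · intro h
    rw [surr_comm] at h ⊢
    exact surr_E_aux h0 h1 h

theorem phi_zero_neg (hL : 1 ≤ L) (y : ℤ) : phi L 0 y < 0 ↔ y < 0 := by
  unfold phi
  have hLp : (0 : ℤ) < L := by exact_mod_cast hL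
  rw [sub_zero]
  constructor
  · intro h
    by_contra hc
    rw [not_lt] at hc
    have : 0 ≤ y / (L : ℤ) := Int.ediv_nonneg hc hLp.le
    omega
  · intro h
    have : y / (L : ℤ) < 0 := Int.ediv_neg_of_neg_of_pos h hLp
    omega

theorem surr_ins0 (P Q : Pat L) : Surr (ins 0 P) (ins 0 Q) ↔ Surr P Q := by
  classical
  have hL : 1 ≤ L := le_trans (by norm_num) P.two_le
  have hinj : Function.Injective (phi L 0) := fun x y h => phi_inj hL h
  constructor
  · rintro ⟨S, hP, hQ, hodd⟩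
    refine ⟨S.preimage (phi L 0) hinj.injOn, ?_, ?_, ?_⟩
    · intro x hx
      rw [mem_preimage] at hx ⊢
      rw [← ins_phi]
      exact hP _ hx
    · intro x hx
      rw [mem_preimage] at hx ⊢
      rw [← ins_phi]
      exact hQ _ hx
    · set U := S.filter (fun x => Cg (L + 2) x 0 ∨ Cg (L + 2) x (0 + 1)) with hU
      have e2 : Even (U.filter (· < 0)).card := by
        refine pair_even (i := 0) le_rfl (by push_cast; omega) U (fun x hx => (mem_filter.mp hx).2) ?_ ?_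
        · intro x hx hc
          refine mem_filter.mpr ⟨?_, Or.inr (Cg.add 1 hc)⟩
          have := hP x (mem_filter.mp hx).1
          rwa [ins_i 0 P hc] at this
        · intro x hx hc
          refine mem_filter.mpr ⟨?_, Or.inl ?_⟩
          · have := hP x (mem_filter.mp hx).1
            rwa [ins_succ 0 P hc] at this
          · have := Cg.sub 1 hc
            simpa using this
      set R := S.filter (fun x => ¬ (Cg (L + 2) x 0 ∨ Cg (L + 2) x (0 + 1))) with hR
      have c2 : (S.filter (· < 0)).card = (U.filter (· < 0)).card + (R.filter (· < 0)).card := by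
        have : S.filter (· < 0) = U.filter (· < 0) ∪ R.filter (· < 0) := by
          ext x
          simp only [hU, hR, mem_filter, mem_union]
          tauto
        rw [this, card_union_of_disjoint]
        rw [Finset.disjoint_left]
        intro x hx1 hx2
        exact (mem_filter.mp (mem_filter.mp hx2).1).2 (mem_filter.mp (mem_filter.mp hx1).1).2
      have c3 : (R.filter (· < 0)) =
          ((S.preimage (phi L 0) hinj.injOn).filter (· < 0)).image (phi L 0) := by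
        ext x
        simp only [hR, mem_filter, mem_image, mem_preimage]
        constructor
        · rintro ⟨⟨hx, hn⟩, hx0⟩
          rw [not_or] at hn
          rcases pos_cases hL 0 x with h | h | ⟨y, rfl⟩
          · exact absurd h hn.1
          · exact absurd h hn.2
          · exact ⟨y, ⟨hx, (phi_zero_neg hL y).mp hx0⟩, rfl⟩
        · rintro ⟨y, ⟨hy, hy0⟩, rfl⟩
          have := phi_not hL 0 y
          exact ⟨⟨hy, by rw [not_or]; exact this⟩, (phi_zero_neg hL y).mpr hy0⟩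
      rw [c2, c3, card_image_of_injective _ hinj] at hodd
      by_contra hc
      rw [Nat.not_odd_iff_even] at hc
      exact (Nat.not_odd_iff_even.mpr (e2.add hc)) hodd
  · rintro ⟨S, hP, hQ, hodd⟩
    refine ⟨S.image (phi L 0), ?_, ?_, ?_⟩
    · intro x hx
      obtain ⟨y, hy, rfl⟩ := mem_image.mp hx
      rw [ins_phi]
      exact mem_image_of_mem _ (hP y hy)
    · intro x hx
      obtain ⟨y, hy, rfl⟩ := mem_image.mp hx
      rw [ins_phi]
      exact mem_image_of_mem _ (hQ y hy)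
    · have : (S.image (phi L 0)).filter (· < 0) = (S.filter (· < 0)).image (phi L 0) := by
        ext x
        simp only [mem_filter, mem_image]
        constructor
        · rintro ⟨⟨y, hy, rfl⟩, hx0⟩
          exact ⟨y, ⟨hy, (phi_zero_neg hL y).mp hx0⟩, rfl⟩
        · rintro ⟨y, ⟨hy, hy0⟩, rfl⟩
          exact ⟨⟨y, hy, rfl⟩, (phi_zero_neg hL y).mpr hy0⟩
      rw [this, card_image_of_injective _ hinj]
      exact hodd

theorem surr_of_m {P Q : Pat L} (hP : P.m (-1) = 0) (hQ : Q.m (-1) = 0) : Surr P Q := by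
  classical
  have hP' : P.m 0 = -1 := by rw [← hP, P.inv]
  have hQ' : Q.m 0 = -1 := by rw [← hQ, Q.inv]
  refine ⟨{-1, 0}, ?_, ?_, ?_⟩
  · intro x hx
    rcases mem_insert.mp hx with rfl | hx
    · rw [hP]; simp
    · rw [mem_singleton.mp hx, hP']; simp
  · intro x hx
    rcases mem_insert.mp hx with rfl | hx
    · rw [hQ]; simp
    · rw [mem_singleton.mp hx, hQ']; simp
  · have : (({-1, 0} : Finset ℤ).filter (· < 0)) = {-1} := by decide
    rw [this, card_singleton]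
    exact odd_one

theorem not_surr_two {P Q : Pat 2} (hP : P.m 0 = 1) : ¬ Surr P Q := by
  rintro ⟨S, h1, _, h3⟩
  have h0 : ∀ x : ℤ, Cg 2 x 0 → P.m x = x + 1 := by
    intro x hx
    rw [P.per_dvd hx, hP]
    ring
  have h0' : ∀ x : ℤ, Cg 2 x (0 + 1) → P.m x = x - 1 := by
    intro x hx
    have := P.per_dvd hx
    have h5 : P.m (0 + 1) = 0 := by
      have := P.inv 0
      rw [hP] at this
      simpa using this
    rw [this, h5]
    ring
  have : Even (S.filter (· < 0)).card := by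
    refine pair_even (L := 2) (i := 0) le_rfl (by norm_num) S ?_ ?_ ?_
    · intro x _
      unfold Cg
      push_cast
      omega
    · intro x hx hc
      rw [← h0 x hc]
      exact h1 x hx
    · intro x hx hc
      rw [← h0' x hc]
      exact h1 x hx
  exact (Nat.not_odd_iff_even.mpr this) h3

open Classical in
/-- The weight: `0` if some contractible loop surrounds the gap, `1` otherwise. -/
noncomputable def W0 (L : ℕ) (P Q : Pat L) : ℂ := if Surr P Q then 0 else 1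

theorem W0_of {P Q : Pat L} (h : Surr P Q) : W0 L P Q = 0 := by
  unfold W0
  exact if_pos h

theorem W0_of_not {P Q : Pat L} (h : ¬ Surr P Q) : W0 L P Q = 1 := by
  unfold W0
  exact if_neg h

theorem formProps_zero : FormProps 0 W0 where
  adj := fun L i h0 h1 P Q => by
    by_cases h : Surr (E i P) Q
    · rw [W0_of h, W0_of ((surr_E h0 h1 P Q).mp h)]
    · rw [W0_of_not h, W0_of_not (fun h' => h ((surr_E h0 h1 P Q).mpr h'))]
  ins0 := fun L P Q => by
    by_cases h : Surr P Q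
    · rw [W0_of h, W0_of ((surr_ins0 P Q).mpr h)]
    · rw [W0_of_not h, W0_of_not (fun h' => h ((surr_ins0 P Q).mp h'))]
  insm := fun L P Q => by
    have : Surr (ins (-1) P) (ins (-1) Q) :=
      surr_of_m (by rw [ins_self]; norm_num) (by rw [ins_self]; norm_num)
    rw [zero_mul, W0, if_pos this]
  two_left := fun P Q h => by
    rw [W0, if_neg (not_surr_two h)]
  two_right := fun P Q h => by
    rw [W0, if_neg]
    rw [surr_comm]
    exact not_surr_two h
  two_base := fun P Q hP hQ => by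
    have : Surr P Q := by
      refine surr_of_m ?_ ?_
      · rw [← hP, P.inv]
      · rw [← hQ, Q.inv]
    rw [W0, if_pos this]

end Pool.Agent.H15.Exact

end

section

/-!
# The Pascal matrix and the commuting tridiagonal matrix
-/

open Matrix

namespace Pool.Agent.H66.OneArm

/-- The symmetric Pascal matrix. -/
def pasc (n : ℕ) : Matrix (Fin n) (Fin n) ℝ := fun i j => ((i + j : ℕ).choose i : ℝ)

/-- The lower triangular Pascal matrix. -/
def lowp (n : ℕ) : Matrix (Fin n) (Fin n) ℝ := fun i j => ((i : ℕ).choose j : ℝ)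

/-- The off-diagonal entries of the commuting tridiagonal matrix. -/
def offd (n : ℕ) (i : ℕ) : ℝ := ((i : ℝ) + 1) * ((n : ℝ) ^ 2 - ((i : ℝ) + 1) ^ 2)

/-- The diagonal entries of the commuting tridiagonal matrix. -/
def diag (n : ℕ) (i : ℕ) : ℝ := 2 * (i : ℝ) ^ 3 + 3 * (i : ℝ) ^ 2 + 2 * (i : ℝ) - (n : ℝ) ^ 2 * (i : ℝ)

/-- The commuting tridiagonal matrix. -/
def trid (n : ℕ) : Matrix (Fin n) (Fin n) ℝ := fun i j =>
  if (i : ℕ) = j then diag n i else if (j : ℕ) = i + 1 then offd n i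
    else if (i : ℕ) = j + 1 then offd n j else 0

/-- The extension by zero of a vector. -/
def ext {n : ℕ} (v : Fin n → ℝ) (i : ℕ) : ℝ := if h : i < n then v ⟨i, h⟩ else 0

lemma ext_of_lt {n : ℕ} (v : Fin n → ℝ) {i : ℕ} (h : i < n) : ext v i = v ⟨i, h⟩ := by
  simp [ext, h]

lemma ext_of_le {n : ℕ} (v : Fin n → ℝ) {i : ℕ} (h : n ≤ i) : ext v i = 0 := by
  simp [ext, not_lt.mpr h]

@[simp] lemma ext_val {n : ℕ} (v : Fin n → ℝ) (i : Fin n) : ext v i = v i := by
  simp [ext]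

lemma offd_last {n : ℕ} (hn : 1 ≤ n) : offd n (n - 1) = 0 := by
  unfold offd
  rw [Nat.cast_sub hn]
  simp

/-- The action of the tridiagonal matrix. -/
lemma trid_mulVec {n : ℕ} (v : Fin n → ℝ) (i : Fin n) :
    (trid n *ᵥ v) i = (if (i : ℕ) = 0 then 0 else offd n (i - 1) * ext v (i - 1)) +
      diag n i * v i + offd n i * ext v (i + 1) := by
  have hsum : (trid n *ᵥ v) i = ∑ j ∈ Finset.range n, (if (i : ℕ) = j then diag n i else
      if (j : ℕ) = i + 1 then offd n i else if (i : ℕ) = j + 1 then offd n j else 0) * ext v j := by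
    rw [← Fin.sum_univ_eq_sum_range (fun j => (if (i : ℕ) = j then diag n i else
      if (j : ℕ) = i + 1 then offd n i else if (i : ℕ) = j + 1 then offd n j else 0) * ext v j) n]
    simp only [mulVec, dotProduct, trid, ext_val]
  have hi := i.2
  rw [hsum]
  have hsplit : ∀ j ∈ Finset.range n, (if (i : ℕ) = j then diag n i else
      if (j : ℕ) = i + 1 then offd n i else if (i : ℕ) = j + 1 then offd n j else 0) * ext v j =
      (if (i : ℕ) = j then diag n i * ext v i else 0) +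
      (if (i : ℕ) + 1 = j then offd n i * ext v (i + 1) else 0) +
      (if (i : ℕ) - 1 = j then (if (i : ℕ) = 0 then 0 else offd n (i - 1) * ext v (i - 1)) else 0) := by
    intro j _
    rcases Nat.lt_trichotomy (i : ℕ) j with h | h | h
    · by_cases h1 : (i : ℕ) + 1 = j
      · rw [if_neg h.ne, if_pos h1.symm, if_neg h.ne, if_pos h1, if_neg (by omega), ← h1]
        ring
      · rw [if_neg h.ne, if_neg (by omega), if_neg (by omega), if_neg h.ne, if_neg h1,
          if_neg (by omega)]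
        ring
    · rw [if_pos h, if_pos h, if_neg (by omega), ← h]
      by_cases h0 : (i : ℕ) = 0
      · rw [if_pos (by omega), if_pos h0]
        ring
      · rw [if_neg (by omega)]
        ring
    · by_cases h1 : (i : ℕ) = j + 1
      · rw [if_neg h.ne', if_neg (by omega), if_pos h1, if_neg h.ne', if_neg (by omega),
          if_pos (by omega), if_neg (by omega)]
        have : (i : ℕ) - 1 = j := by omega
        rw [this]
        ring
      · rw [if_neg h.ne', if_neg (by omega), if_neg h1, if_neg h.ne', if_neg (by omega),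
          if_neg (by omega)]
        ring
  have hm1 : (i : ℕ) - 1 ∈ Finset.range n := Finset.mem_range.mpr (by omega)
  rw [Finset.sum_congr rfl hsplit, Finset.sum_add_distrib, Finset.sum_add_distrib,
    Finset.sum_ite_eq, Finset.sum_ite_eq, Finset.sum_ite_eq, if_pos (Finset.mem_range.mpr hi),
    if_pos hm1, ext_val]
  by_cases hlast : (i : ℕ) + 1 < n
  · rw [if_pos (Finset.mem_range.mpr hlast)]
    ring
  · have h1 : (i : ℕ) + 1 ∉ Finset.range n := by simpa using hlast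
    rw [if_neg h1, ext_of_le v (not_lt.mp hlast)]
    ring

lemma trid_isSymm (n : ℕ) : (trid n).IsSymm := by
  ext i j
  simp only [transpose_apply, trid]
  by_cases h : (i : ℕ) = j
  · rw [if_pos h, if_pos h.symm, h]
  · rw [if_neg h, if_neg (Ne.symm h)]
    by_cases h1 : (j : ℕ) = i + 1
    · have h2 : ¬ ((i : ℕ) = j + 1) := by omega
      rw [if_pos h1, if_neg h2, if_pos h1]
    · by_cases h2 : (i : ℕ) = j + 1
      · rw [if_pos h2, if_neg h1, if_pos h2]
      · rw [if_neg h2, if_neg h1, if_neg h1, if_neg h2]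

lemma pasc_isSymm (n : ℕ) : (pasc n).IsSymm := by
  ext i j
  simp only [transpose_apply, pasc]
  rw [add_comm (j : ℕ) i]
  norm_cast
  exact (Nat.choose_symm_add).symm

/-- `B = L Lᵀ`. -/
lemma pasc_eq (n : ℕ) : pasc n = lowp n * (lowp n)ᵀ := by
  ext i j
  simp only [mul_apply, transpose_apply, pasc, lowp]
  rw [Fin.sum_univ_eq_sum_range (fun k => ((i : ℕ).choose k : ℝ) * ((j : ℕ).choose k : ℝ)) n]
  rw [Nat.add_choose_eq, Finset.Nat.sum_antidiagonal_eq_sum_range_succ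
    (fun a b => (i : ℕ).choose a * (j : ℕ).choose b), ← Finset.sum_range_reflect]
  push_cast
  have hi := i.2
  have h1 : Finset.range ((i : ℕ) + 1) ⊆ Finset.range n :=
    Finset.range_subset_range.mpr (by omega)
  rw [← Finset.sum_subset h1 (f := fun k => ((i : ℕ).choose k : ℝ) * ((j : ℕ).choose k : ℝ))]
  · refine Finset.sum_congr rfl fun k hk => ?_
    have hk' : k ≤ i := by
      have := Finset.mem_range.mp hk
      omega
    have e2 : (i : ℕ) - (i - k) = k := by omega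
    simp only [Nat.add_sub_cancel, e2, Nat.choose_symm hk']
  · intro k _ hk
    rw [Finset.mem_range, not_lt] at hk
    rw [Nat.choose_eq_zero_of_lt (by omega)]
    simp

lemma det_lowp (n : ℕ) : (lowp n).det = 1 := by
  rw [Matrix.det_of_isLowerTriangular]
  · exact Finset.prod_eq_one fun i _ => by simp [lowp]
  · intro i j hij
    have : (i : ℕ) < j := hij
    simp only [lowp]
    rw [Nat.choose_eq_zero_of_lt this]
    simp

lemma det_pasc (n : ℕ) : (pasc n).det = 1 := by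
  rw [pasc_eq, det_mul, det_transpose, det_lowp, one_mul]

end Pool.Agent.H66.OneArm

end

section

/-!
# The differential equation of the eigenvectors
-/

open Matrix Finset

namespace Pool.Agent.H66.OneArm

variable {n : ℕ}

/-- The generating polynomial of a vector and its derivatives. -/
noncomputable def V0 (v : Fin n → ℝ) (t : ℝ) : ℝ := ∑ i ∈ range n, ext v i * t ^ i
noncomputable def V1 (v : Fin n → ℝ) (t : ℝ) : ℝ := ∑ i ∈ range n, ext v i * (i * t ^ (i - 1))
noncomputable def V2 (v : Fin n → ℝ) (t : ℝ) : ℝ :=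
  ∑ i ∈ range n, ext v i * (i * (i - 1) * t ^ (i - 2))
noncomputable def V3 (v : Fin n → ℝ) (t : ℝ) : ℝ :=
  ∑ i ∈ range n, ext v i * (i * (i - 1) * (i - 2) * t ^ (i - 3))

lemma hasDerivAt_V0 (v : Fin n → ℝ) (t : ℝ) : HasDerivAt (V0 v) (V1 v t) t := by
  unfold V0 V1
  exact HasDerivAt.fun_sum fun i _ => (hasDerivAt_pow i t).const_mul _

lemma hasDerivAt_V1 (v : Fin n → ℝ) (t : ℝ) : HasDerivAt (V1 v) (V2 v t) t := by
  unfold V1 V2
  refine HasDerivAt.fun_sum fun i _ => ?_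
  have h := ((hasDerivAt_pow (i - 1) t).const_mul (i : ℝ)).const_mul (ext v i)
  refine h.congr_deriv ?_
  rcases Nat.eq_zero_or_pos i with h0 | h0
  · subst h0
    simp
  · rw [Nat.cast_sub h0, show i - 1 - 1 = i - 2 by omega]
    push_cast
    ring

lemma hasDerivAt_V2 (v : Fin n → ℝ) (t : ℝ) : HasDerivAt (V2 v) (V3 v t) t := by
  unfold V2 V3
  refine HasDerivAt.fun_sum fun i _ => ?_
  have h := ((hasDerivAt_pow (i - 2) t).const_mul ((i : ℝ) * (i - 1))).const_mul (ext v i)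
  refine h.congr_deriv ?_
  rcases Nat.lt_or_ge i 2 with h0 | h0
  · interval_cases i <;> simp
  · rw [Nat.cast_sub h0, show i - 2 - 1 = i - 3 by omega]
    push_cast
    ring

/-- The differential operator on monomials. -/
lemma monomial_ode (n : ℕ) (i : ℕ) (t : ℝ) :
    (n : ℝ) ^ 2 * ((t ^ 2 - t + 1) * (i * t ^ (i - 1)) + t * t ^ i)
      - t ^ 2 * (1 - t) ^ 2 * (i * (i - 1) * (i - 2) * t ^ (i - 3))
      - 3 * (t * (1 - t) * (1 - 2 * t)) * (i * (i - 1) * t ^ (i - 2))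
      - (7 * t ^ 2 - 7 * t + 1) * (i * t ^ (i - 1)) - t * t ^ i =
    offd n i * t ^ (i + 1) + diag n i * t ^ i + (if i = 0 then 0 else offd n (i - 1) * t ^ (i - 1)) := by
  rcases Nat.lt_or_ge i 3 with h0 | h0
  · interval_cases i <;> simp [offd, diag] <;> ring
  · obtain ⟨k, rfl⟩ : ∃ k, i = k + 3 := ⟨i - 3, by omega⟩
    rw [if_neg (by omega), show k + 3 - 1 = k + 2 by omega, show k + 3 - 2 = k + 1 by omega,
      show k + 3 - 3 = k by omega]
    unfold offd diag
    push_cast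
    ring

/-- The differential equation. -/
lemma ode (v : Fin n → ℝ) {τ : ℝ} (hv : trid n *ᵥ v = τ • v) (t : ℝ) :
    (n : ℝ) ^ 2 * ((t ^ 2 - t + 1) * V1 v t + t * V0 v t) - t ^ 2 * (1 - t) ^ 2 * V3 v t
      - 3 * (t * (1 - t) * (1 - 2 * t)) * V2 v t - (7 * t ^ 2 - 7 * t + 1) * V1 v t - t * V0 v t =
    τ * V0 v t := by
  have h1 : (n : ℝ) ^ 2 * ((t ^ 2 - t + 1) * V1 v t + t * V0 v t) - t ^ 2 * (1 - t) ^ 2 * V3 v t
      - 3 * (t * (1 - t) * (1 - 2 * t)) * V2 v t - (7 * t ^ 2 - 7 * t + 1) * V1 v t - t * V0 v t =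
      ∑ i ∈ range n, ext v i * (offd n i * t ^ (i + 1) + diag n i * t ^ i +
        (if i = 0 then 0 else offd n (i - 1) * t ^ (i - 1))) := by
    unfold V0 V1 V2 V3
    simp only [mul_sum, ← sum_add_distrib, ← sum_sub_distrib]
    refine sum_congr rfl fun i _ => ?_
    rw [← monomial_ode n i t]
    ring
  have hrow : ∀ i < n, (if i = 0 then 0 else offd n (i - 1) * ext v (i - 1)) +
      diag n i * ext v i + offd n i * ext v (i + 1) = τ * ext v i := by
    intro i hi
    have h := congrFun hv ⟨i, hi⟩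
    rw [trid_mulVec] at h
    simp only [Pi.smul_apply, smul_eq_mul] at h
    rw [← ext_of_lt v hi] at h
    exact h
  rw [h1]
  rcases Nat.eq_zero_or_pos n with h0 | h0
  · subst h0
    simp [V0]
  obtain ⟨m, rfl⟩ : ∃ m, n = m + 1 := ⟨n - 1, by omega⟩
  have h2 : τ * V0 v t = ∑ i ∈ range (m + 1), ((if i = 0 then 0 else offd (m + 1) (i - 1) *
      ext v (i - 1)) + diag (m + 1) i * ext v i + offd (m + 1) i * ext v (i + 1)) * t ^ i := by
    unfold V0
    rw [mul_sum]
    refine sum_congr rfl fun i hi => ?_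
    rw [hrow i (mem_range.mp hi)]
    ring
  rw [h2]
  -- compare the two sums
  have hlast : offd (m + 1) m = 0 := by
    have := offd_last (n := m + 1) (by omega)
    rwa [Nat.add_sub_cancel] at this
  have hext : ext v (m + 1) = 0 := ext_of_le v le_rfl
  have hA : ∑ i ∈ range (m + 1), ext v i * (offd (m + 1) i * t ^ (i + 1)) =
      ∑ i ∈ range (m + 1), (if i = 0 then 0 else offd (m + 1) (i - 1) * ext v (i - 1)) * t ^ i := by
    rw [sum_range_succ, sum_range_succ', hlast]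
    simp only [if_true, zero_mul, mul_zero, add_zero]
    refine sum_congr rfl fun i _ => ?_
    rw [if_neg (by omega), Nat.add_sub_cancel]
    ring
  have hB : ∑ i ∈ range (m + 1), ext v i * (if i = 0 then 0 else offd (m + 1) (i - 1) * t ^ (i - 1)) =
      ∑ i ∈ range (m + 1), offd (m + 1) i * ext v (i + 1) * t ^ i := by
    rw [sum_range_succ', sum_range_succ, hext]
    simp only [if_true, zero_mul, mul_zero, add_zero]
    refine sum_congr rfl fun i _ => ?_
    rw [if_neg (by omega), Nat.add_sub_cancel]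
    ring
  simp only [mul_add, add_mul, sum_add_distrib]
  rw [hA, hB]
  congr 2
  exact sum_congr rfl fun i _ => by ring

lemma V0_zero (v : Fin n → ℝ) : V0 v 0 = ext v 0 := by
  unfold V0
  rcases Nat.eq_zero_or_pos n with h0 | h0
  · subst h0
    simp [ext]
  · rw [sum_eq_single 0]
    · simp
    · intro i _ hi
      simp [hi]
    · intro h
      exact absurd (mem_range.mpr h0) h

lemma V0_one (v : Fin n → ℝ) : V0 v 1 = ∑ j, v j := by
  unfold V0
  rw [← Fin.sum_univ_eq_sum_range (fun i => ext v i * (1 : ℝ) ^ i) n]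
  simp

end Pool.Agent.H66.OneArm

end

section

/-!
# A maximum principle on the unit interval
-/

open Set Filter Topology

namespace Pool.Agent.H66.OneArm

/-- At an interior maximum the second derivative is not positive. -/
lemma second_deriv_nonpos {z z1 : ℝ → ℝ} {z2 t : ℝ} (hz : ∀ s ∈ Ioo (0 : ℝ) 1, HasDerivAt z (z1 s) s)
    (hz1 : HasDerivAt z1 z2 t) (ht : t ∈ Ioo (0 : ℝ) 1) (hmax : ∀ s ∈ Icc (0 : ℝ) 1, z s ≤ z t) :
    z1 t = 0 ∧ z2 ≤ 0 := by
  have hloc : IsLocalMax z t := by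
    filter_upwards [Ioo_mem_nhds ht.1 ht.2] with s hs
    exact hmax s ⟨hs.1.le, hs.2.le⟩
  have h0 : z1 t = 0 := hloc.hasDerivAt_eq_zero (hz t ht)
  refine ⟨h0, ?_⟩
  by_contra hcon
  push Not at hcon
  -- the first derivative is positive just after `t`
  have h1 : ∀ᶠ s in 𝓝[>] t, 0 < z1 s := by
    have h2 := hz1.tendsto_slope
    have h3 : ∀ᶠ s in 𝓝[≠] t, 0 < slope z1 t s := h2.eventually (lt_mem_nhds hcon)
    have h4 : ∀ᶠ s in 𝓝[>] t, 0 < slope z1 t s :=
      h3.filter_mono (nhdsWithin_mono _ fun s hs => ne_of_gt hs)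
    filter_upwards [h4, self_mem_nhdsWithin] with s hs hts
    rw [slope_def_field, h0, sub_zero] at hs
    have hts' : 0 < s - t := sub_pos.mpr hts
    have := mul_pos hs hts'
    rwa [div_mul_cancel₀ _ hts'.ne'] at this
  obtain ⟨u, hu, hu2⟩ := mem_nhdsGT_iff_exists_Ioo_subset.mp
    (inter_mem h1 (Ioo_mem_nhdsGT ht.2))
  set w := (t + u) / 2 with hw
  have htu : t < u := hu
  have hwt : t < w := by rw [hw]; linarith
  have hwu : w < u := by rw [hw]; linarith
  have hw1 : w < 1 := (hu2 ⟨hwt, hwu⟩).2.2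
  have hmono : StrictMonoOn z (Icc t w) := by
    apply strictMonoOn_of_deriv_pos (convex_Icc t w)
    · intro s hs
      exact (hz s ⟨lt_of_lt_of_le ht.1 hs.1, lt_of_le_of_lt hs.2 hw1⟩).continuousAt.continuousWithinAt
    · intro s hs
      rw [interior_Icc] at hs
      rw [(hz s ⟨ht.1.trans hs.1, hs.2.trans hw1⟩).deriv]
      exact (hu2 ⟨hs.1, hs.2.trans hwu⟩).1
  have h5 := hmono ⟨le_rfl, hwt.le⟩ ⟨hwt.le, le_rfl⟩ hwt
  have h6 := hmax w ⟨(ht.1.trans hwt).le, hw1.le⟩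
  linarith

/-- One-sided maximum principle. -/
lemma max_principle_aux {z z1 z2 q P A Bf F : ℝ → ℝ} {ε b f : ℝ}
    (hz : ∀ t ∈ Icc (0 : ℝ) 1, HasDerivAt z (z1 t) t)
    (hz1 : ∀ t ∈ Icc (0 : ℝ) 1, HasDerivAt z1 (z2 t) t)
    (hq : ∀ t ∈ Icc (0 : ℝ) 1, 3 / 4 ≤ q t) (hP : ∀ t ∈ Icc (0 : ℝ) 1, 0 ≤ P t)
    (hP0 : P 0 = 0) (hP1 : P 1 = 0) (hA0 : A 0 = 0) (hA1 : A 1 = 0)
    (hB : ∀ t ∈ Icc (0 : ℝ) 1, |Bf t| ≤ b) (hF : ∀ t ∈ Icc (0 : ℝ) 1, |F t| ≤ f)
    (hε : 0 ≤ ε) (hεb : ε * b ≤ 1 / 4)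
    (heq : ∀ t ∈ Icc (0 : ℝ) 1, q t * z t = ε * (P t * z2 t + A t * z1 t + Bf t * z t + F t)) :
    ∀ t ∈ Icc (0 : ℝ) 1, z t ≤ 2 * ε * f := by
  have hcont : ContinuousOn z (Icc 0 1) := fun t ht => (hz t ht).continuousAt.continuousWithinAt
  obtain ⟨t₀, ht₀, hmax⟩ := isCompact_Icc.exists_isMaxOn (nonempty_Icc.mpr zero_le_one) hcont
  have hmax' : ∀ s ∈ Icc (0 : ℝ) 1, z s ≤ z t₀ := fun s hs => hmax hs
  have hf0 : 0 ≤ f := (abs_nonneg _).trans (hF 0 ⟨le_rfl, zero_le_one⟩)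
  suffices h : z t₀ ≤ 2 * ε * f from fun t ht => (hmax' t ht).trans h
  by_contra hcon
  push Not at hcon
  have hpos : 0 < z t₀ := lt_of_le_of_lt (by positivity) hcon
  have key : q t₀ * z t₀ ≤ ε * (Bf t₀ * z t₀ + F t₀) := by
    rw [heq t₀ ht₀]
    refine mul_le_mul_of_nonneg_left ?_ hε
    rcases eq_or_lt_of_le ht₀.1 with h0 | h0
    · rw [← h0, hP0, hA0]
      linarith
    rcases eq_or_lt_of_le ht₀.2 with h1 | h1
    · rw [h1, hP1, hA1]
      linarith
    obtain ⟨h2, h3⟩ := second_deriv_nonpos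
      (fun s hs => hz s ⟨hs.1.le, hs.2.le⟩) (hz1 t₀ ht₀) ⟨h0, h1⟩ hmax'
    rw [h2]
    have := mul_nonpos_of_nonneg_of_nonpos (hP t₀ ht₀) h3
    linarith
  have h1 : Bf t₀ * z t₀ ≤ b * z t₀ :=
    mul_le_mul_of_nonneg_right ((le_abs_self _).trans (hB t₀ ht₀)) hpos.le
  have h2 : F t₀ ≤ f := (le_abs_self _).trans (hF t₀ ht₀)
  have h3 : q t₀ * z t₀ ≤ ε * (b * z t₀ + f) :=
    key.trans (mul_le_mul_of_nonneg_left (add_le_add h1 h2) hε)
  have h4 := mul_le_mul_of_nonneg_right (hq t₀ ht₀) hpos.le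
  have h5 : ε * (b * z t₀) ≤ 1 / 4 * z t₀ := by
    rw [← mul_assoc]
    exact mul_le_mul_of_nonneg_right hεb hpos.le
  nlinarith

/-- **Maximum principle.** -/
theorem max_principle {z z1 z2 q P A Bf F : ℝ → ℝ} {ε b f : ℝ}
    (hz : ∀ t ∈ Icc (0 : ℝ) 1, HasDerivAt z (z1 t) t)
    (hz1 : ∀ t ∈ Icc (0 : ℝ) 1, HasDerivAt z1 (z2 t) t)
    (hq : ∀ t ∈ Icc (0 : ℝ) 1, 3 / 4 ≤ q t) (hP : ∀ t ∈ Icc (0 : ℝ) 1, 0 ≤ P t)
    (hP0 : P 0 = 0) (hP1 : P 1 = 0) (hA0 : A 0 = 0) (hA1 : A 1 = 0)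
    (hB : ∀ t ∈ Icc (0 : ℝ) 1, |Bf t| ≤ b) (hF : ∀ t ∈ Icc (0 : ℝ) 1, |F t| ≤ f)
    (hε : 0 ≤ ε) (hεb : ε * b ≤ 1 / 4)
    (heq : ∀ t ∈ Icc (0 : ℝ) 1, q t * z t = ε * (P t * z2 t + A t * z1 t + Bf t * z t + F t)) :
    ∀ t ∈ Icc (0 : ℝ) 1, |z t| ≤ 2 * ε * f := by
  intro t ht
  rw [abs_le]
  constructor
  · have h := max_principle_aux (z := fun s => -z s) (z1 := fun s => -z1 s) (z2 := fun s => -z2 s)
      (F := fun s => -F s) (fun s hs => (hz s hs).neg) (fun s hs => (hz1 s hs).neg) hq hP hP0 hP1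
      hA0 hA1 hB (fun s hs => by rw [abs_neg]; exact hF s hs) hε hεb
      (fun s hs => by have := heq s hs; linear_combination -this) t ht
    linarith
  · exact max_principle_aux hz hz1 hq hP hP0 hP1 hA0 hA1 hB hF hε hεb heq t ht

end Pool.Agent.H66.OneArm

end

section

/-!
# The eigenvalues of the Pascal matrix in terms of those of the tridiagonal matrix
-/

open Matrix Finset Real Set

namespace Pool.Agent.H66.OneArm

variable {n : ℕ}

noncomputable def qf (t : ℝ) : ℝ := t ^ 2 - t + 1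
noncomputable def rho (c t : ℝ) : ℝ := (c - t) / qf t
noncomputable def rho1 (c t : ℝ) : ℝ := (-1 - rho c t * (2 * t - 1)) / qf t
noncomputable def rho2 (c t : ℝ) : ℝ := (-2 * rho1 c t * (2 * t - 1) - 2 * rho c t) / qf t

lemma qf_ge (t : ℝ) : 3 / 4 ≤ qf t := by
  unfold qf
  nlinarith [sq_nonneg (t - 1 / 2)]

lemma qf_pos (t : ℝ) : 0 < qf t := lt_of_lt_of_le (by norm_num) (qf_ge t)

lemma hasDerivAt_qf (t : ℝ) : HasDerivAt qf (2 * t - 1) t := by
  unfold qf
  have h := (((hasDerivAt_pow 2 t).sub (hasDerivAt_id' t)).add_const 1)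
  refine h.congr_deriv ?_
  simp

lemma hasDerivAt_rho (c t : ℝ) : HasDerivAt (rho c) (rho1 c t) t := by
  have hq := (qf_pos t).ne'
  have h := ((hasDerivAt_id' t).const_sub c).div (hasDerivAt_qf t) hq
  refine h.congr_deriv ?_
  unfold rho1 rho
  field_simp

lemma hasDerivAt_rho1 (c t : ℝ) : HasDerivAt (rho1 c) (rho2 c t) t := by
  have hq := (qf_pos t).ne'
  have h1 : HasDerivAt (fun s => 2 * s - 1) 2 t := by
    simpa using ((hasDerivAt_id' t).const_mul 2).sub_const 1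
  have h := (((hasDerivAt_rho c t).mul h1).const_sub (-1)).div (hasDerivAt_qf t) hq
  refine h.congr_deriv ?_
  have e : (-1 - rho c t * (2 * t - 1)) = rho1 c t * qf t := by
    unfold rho1
    field_simp
  unfold rho2
  simp only [Pi.mul_apply]
  rw [e]
  field_simp
  ring

lemma abs_two_sub_one {t : ℝ} (ht : t ∈ Icc (0 : ℝ) 1) : |2 * t - 1| ≤ 1 := by
  rw [abs_le]
  constructor <;> linarith [ht.1, ht.2]

lemma abs_div_qf {a r : ℝ} (t : ℝ) (h : |a| ≤ r) : |a / qf t| ≤ 4 / 3 * r := by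
  rw [abs_div, abs_of_pos (qf_pos t), div_le_iff₀ (qf_pos t)]
  have := qf_ge t
  have hr : 0 ≤ r := (abs_nonneg a).trans h
  nlinarith

lemma abs_rho_le {c K t : ℝ} (hc : |c| ≤ K) (ht : t ∈ Icc (0 : ℝ) 1) :
    |rho c t| ≤ 4 / 3 * (K + 1) := by
  refine abs_div_qf t ?_
  refine (abs_sub _ _).trans ?_
  rw [abs_of_nonneg ht.1]
  linarith [ht.2]

lemma abs_rho1_le {c K t : ℝ} (hc : |c| ≤ K) (ht : t ∈ Icc (0 : ℝ) 1) :
    |rho1 c t| ≤ 4 / 3 * (1 + 4 / 3 * (K + 1)) := by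
  refine abs_div_qf t ?_
  refine (abs_sub _ _).trans ?_
  rw [abs_neg, abs_one, abs_mul]
  have h1 := abs_rho_le hc ht
  have h2 := abs_two_sub_one ht
  have h3 : |rho c t| * |2 * t - 1| ≤ |rho c t| * 1 := mul_le_mul_of_nonneg_left h2 (abs_nonneg _)
  linarith

lemma abs_rho2_le {c K t : ℝ} (hc : |c| ≤ K) (ht : t ∈ Icc (0 : ℝ) 1) :
    |rho2 c t| ≤ 4 / 3 * (2 * (4 / 3 * (1 + 4 / 3 * (K + 1))) + 2 * (4 / 3 * (K + 1))) := by
  refine abs_div_qf t ?_
  refine (abs_sub _ _).trans ?_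
  rw [abs_mul, abs_mul, abs_mul, abs_neg, abs_two]
  have h1 := abs_rho_le hc ht
  have h2 := abs_two_sub_one ht
  have h4 := abs_rho1_le hc ht
  have h3 : |rho1 c t| * |2 * t - 1| ≤ |rho1 c t| * 1 :=
    mul_le_mul_of_nonneg_left h2 (abs_nonneg _)
  nlinarith

/-- The coefficient of the solution in the reduced equation. -/
noncomputable def coefF (c t : ℝ) : ℝ :=
  t ^ 2 * (1 - t) ^ 2 * (rho2 c t + 3 * rho c t * rho1 c t + rho c t ^ 3) +
    3 * (t * (1 - t) * (1 - 2 * t)) * (rho1 c t + rho c t ^ 2) + (7 * t ^ 2 - 7 * t + 1) * rho c t + t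

noncomputable def coefB (c t : ℝ) : ℝ :=
  t ^ 2 * (1 - t) ^ 2 * (2 * rho1 c t + rho c t ^ 2) + 3 * (t * (1 - t) * (1 - 2 * t)) * rho c t +
    (7 * t ^ 2 - 7 * t + 1)

noncomputable def coefA (c t : ℝ) : ℝ :=
  t ^ 2 * (1 - t) ^ 2 * rho c t + 3 * (t * (1 - t) * (1 - 2 * t))

lemma coef_bounds {t : ℝ} (ht : t ∈ Icc (0 : ℝ) 1) : |t ^ 2 * (1 - t) ^ 2| ≤ 1 ∧
    |3 * (t * (1 - t) * (1 - 2 * t))| ≤ 1 ∧ |7 * t ^ 2 - 7 * t + 1| ≤ 1 := by
  obtain ⟨h0, h1⟩ := ht
  have h2 : 0 ≤ t * (1 - t) := mul_nonneg h0 (by linarith)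
  have h3 : t * (1 - t) ≤ 1 / 4 := by nlinarith [sq_nonneg (t - 1 / 2)]
  refine ⟨?_, ?_, ?_⟩
  · rw [← mul_pow, abs_of_nonneg (sq_nonneg _)]
    nlinarith
  · have h4 : |1 - 2 * t| ≤ 1 := by
      rw [abs_le]
      constructor <;> linarith
    rw [abs_mul, abs_mul, abs_of_nonneg h2, abs_of_pos (show (0 : ℝ) < 3 by norm_num)]
    nlinarith [abs_nonneg (1 - 2 * t)]
  · rw [abs_le]
    constructor <;> nlinarith

/-- For bounded parameters the coefficients are bounded. -/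
lemma exists_coef_bound (K : ℝ) : ∃ b : ℝ, 0 < b ∧ ∀ c t : ℝ, |c| ≤ K → t ∈ Icc (0 : ℝ) 1 →
    |coefB c t| ≤ b ∧ |coefF c t| ≤ b := by
  set r := 4 / 3 * (|K| + 1) with hr
  set r1 := 4 / 3 * (1 + 4 / 3 * (|K| + 1)) with hr1
  set r2 := 4 / 3 * (2 * (4 / 3 * (1 + 4 / 3 * (|K| + 1))) + 2 * (4 / 3 * (|K| + 1))) with hr2
  have hK := abs_nonneg K
  refine ⟨(2 * r1 + r ^ 2 + r + 1) + (r2 + 3 * r * r1 + r ^ 3 + (r1 + r ^ 2) + r + 1),
    by positivity, fun c t hc ht => ?_⟩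
  have hc' : |c| ≤ |K| := hc.trans (le_abs_self K)
  have h0 : |rho c t| ≤ r := abs_rho_le hc' ht
  have h1 : |rho1 c t| ≤ r1 := abs_rho1_le hc' ht
  have h2 : |rho2 c t| ≤ r2 := abs_rho2_le hc' ht
  obtain ⟨hP, hR, hQ⟩ := coef_bounds ht
  have hr0 : 0 ≤ r := (abs_nonneg _).trans h0
  have hr10 : 0 ≤ r1 := (abs_nonneg _).trans h1
  have hr20 : 0 ≤ r2 := (abs_nonneg _).trans h2
  have h00 : |rho c t ^ 2| ≤ r ^ 2 := by
    rw [abs_pow]
    exact pow_le_pow_left₀ (abs_nonneg _) h0 2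
  have h000 : |rho c t ^ 3| ≤ r ^ 3 := by
    rw [abs_pow]
    exact pow_le_pow_left₀ (abs_nonneg _) h0 3
  have h01 : |3 * rho c t * rho1 c t| ≤ 3 * r * r1 := by
    rw [abs_mul, abs_mul, abs_of_pos (show (0 : ℝ) < 3 by norm_num)]
    gcongr
  have mulle : ∀ a b s : ℝ, |a| ≤ 1 → |b| ≤ s → |a * b| ≤ s := by
    intro a b s ha hb
    rw [abs_mul]
    have := mul_le_mul ha hb (abs_nonneg _) zero_le_one
    linarith
  have ht1 : |t| ≤ 1 := by
    rw [abs_of_nonneg ht.1]
    exact ht.2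
  constructor
  · have e1 : |2 * rho1 c t + rho c t ^ 2| ≤ 2 * r1 + r ^ 2 := by
      refine (abs_add_le _ _).trans (add_le_add ?_ h00)
      rw [abs_mul, abs_two]
      linarith
    have e2 := mulle _ _ _ hP e1
    have e3 := mulle _ _ _ hR h0
    have e4 : |coefB c t| ≤ (2 * r1 + r ^ 2) + r + 1 := by
      unfold coefB
      exact (abs_add_le _ _).trans (add_le_add ((abs_add_le _ _).trans (add_le_add e2 e3)) hQ)
    have : 0 ≤ r2 + 3 * r * r1 + r ^ 3 + (r1 + r ^ 2) + r + 1 := by positivity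
    linarith
  · have e1 : |rho2 c t + 3 * rho c t * rho1 c t + rho c t ^ 3| ≤ r2 + 3 * r * r1 + r ^ 3 :=
      (abs_add_le _ _).trans (add_le_add ((abs_add_le _ _).trans (add_le_add h2 h01)) h000)
    have e2 : |rho1 c t + rho c t ^ 2| ≤ r1 + r ^ 2 := (abs_add_le _ _).trans (add_le_add h1 h00)
    have e3 := mulle _ _ _ hP e1
    have e4 := mulle _ _ _ hR e2
    have e5 := mulle _ _ _ hQ h0
    have e6 : |coefF c t| ≤ (r2 + 3 * r * r1 + r ^ 3) + (r1 + r ^ 2) + r + 1 := by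
      unfold coefF
      exact (abs_add_le _ _).trans (add_le_add ((abs_add_le _ _).trans (add_le_add
        ((abs_add_le _ _).trans (add_le_add e3 e4)) e5)) ht1)
    have : 0 ≤ 2 * r1 + r ^ 2 + r + 1 := by positivity
    linarith

/-- The defect `V' - ρ V` of an eigenvector is of size `1 / n ^ 2`. -/
lemma defect_bound {c K b M : ℝ} (hn : 1 ≤ n) (v : Fin n → ℝ)
    (hv : trid n *ᵥ v = ((n : ℝ) ^ 2 * c) • v) (hc : |c| ≤ K)
    (hb : ∀ c t : ℝ, |c| ≤ K → t ∈ Icc (0 : ℝ) 1 → |coefB c t| ≤ b ∧ |coefF c t| ≤ b)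
    (hnb : b / (n : ℝ) ^ 2 ≤ 1 / 4) (hM : ∀ t ∈ Icc (0 : ℝ) 1, |V0 v t| ≤ M) :
    ∀ t ∈ Icc (0 : ℝ) 1, |V1 v t - rho c t * V0 v t| ≤ 2 * b * M / (n : ℝ) ^ 2 := by
  have hn0 : (0 : ℝ) < (n : ℝ) ^ 2 := by positivity
  have hb0 : 0 ≤ b := (abs_nonneg _).trans (hb c 0 hc ⟨le_rfl, zero_le_one⟩).1
  have h := max_principle (z := fun t => V1 v t - rho c t * V0 v t)
    (z1 := fun t => V2 v t - (rho1 c t * V0 v t + rho c t * V1 v t))
    (z2 := fun t => V3 v t - ((rho2 c t * V0 v t + rho1 c t * V1 v t) +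
      (rho1 c t * V1 v t + rho c t * V2 v t)))
    (q := qf) (P := fun t => t ^ 2 * (1 - t) ^ 2) (A := coefA c) (Bf := coefB c)
    (F := fun t => coefF c t * V0 v t) (ε := 1 / (n : ℝ) ^ 2) (b := b) (f := b * M)
    (fun t _ => (hasDerivAt_V1 v t).sub ((hasDerivAt_rho c t).mul (hasDerivAt_V0 v t)))
    (fun t _ => (hasDerivAt_V2 v t).sub (((hasDerivAt_rho1 c t).mul (hasDerivAt_V0 v t)).add
      ((hasDerivAt_rho c t).mul (hasDerivAt_V1 v t))))
    (fun t _ => qf_ge t) (fun t _ => by positivity) (by simp) (by simp)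
    (by simp [coefA]) (by simp [coefA]) (fun t ht => (hb c t hc ht).1)
    (fun t ht => by
      rw [abs_mul]
      exact mul_le_mul (hb c t hc ht).2 (hM t ht) (abs_nonneg _) hb0)
    (by positivity) (by rw [one_div, inv_mul_eq_div]; exact hnb)
    (fun t _ => by
      have hode := ode v hv t
      have hq : rho c t * qf t = c - t := by
        unfold rho
        rw [div_mul_cancel₀ _ (qf_pos t).ne']
      have hqf : t ^ 2 - t + 1 = qf t := rfl
      rw [hqf] at hode
      rw [one_div, eq_inv_mul_iff_mul_eq₀ hn0.ne']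
      unfold coefA coefB coefF
      linear_combination hode - (n : ℝ) ^ 2 * V0 v t * hq)
  intro t ht
  have h1 := h t ht
  calc |V1 v t - rho c t * V0 v t| ≤ 2 * (1 / (n : ℝ) ^ 2) * (b * M) := h1
    _ = 2 * b * M / (n : ℝ) ^ 2 := by ring

/-- The phase. -/
noncomputable def psi (x t : ℝ) : ℝ :=
  -(1 / 2) * log (qf t) + 2 * x * arctan ((2 * t - 1) / √3)

lemma hasDerivAt_psi (x t : ℝ) : HasDerivAt (psi x) (rho (1 / 2 + √3 * x) t) t := by
  have hq := (qf_pos t).ne'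
  have h3 : √3 ≠ 0 := by positivity
  have h33 : √3 ^ 2 = 3 := Real.sq_sqrt (by norm_num)
  have h1 : HasDerivAt (fun s => (2 * s - 1) / √3) (2 / √3) t := by
    simpa using (((hasDerivAt_id' t).const_mul 2).sub_const 1).div_const (√3)
  have h := (((hasDerivAt_qf t).log hq).const_mul (-(1 / 2))).add (h1.arctan.const_mul (2 * x))
  refine h.congr_deriv ?_
  have e : 1 + ((2 * t - 1) / √3) ^ 2 = 4 / 3 * qf t := by
    rw [div_pow, h33]
    unfold qf
    ring
  rw [e]
  unfold rho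
  field_simp
  linear_combination (-8 * x) * h33

lemma psi_one_sub_zero (x : ℝ) : psi x 1 - psi x 0 = 2 * π * x / 3 := by
  have h6 : arctan (1 / √3) = π / 6 := by
    rw [← tan_pi_div_six]
    exact arctan_tan (by linarith [pi_pos]) (by linarith [pi_pos])
  unfold psi qf
  have e1 : (2 * (1 : ℝ) - 1) / √3 = 1 / √3 := by norm_num
  have e0 : (2 * (0 : ℝ) - 1) / √3 = -(1 / √3) := by rw [← neg_div]; norm_num
  rw [e1, e0, arctan_neg, h6]
  norm_num
  ring

end Pool.Agent.H66.OneArm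

end

section

/-!
# The eigenvalues of the Pascal matrix in terms of those of the tridiagonal matrix, main result
-/

open Matrix Finset Real Set

namespace Pool.Agent.H66.OneArm

lemma abs_psi_le {x X t : ℝ} (hx : |x| ≤ X) (ht : t ∈ Icc (0 : ℝ) 1) : |psi x t| ≤ 1 / 2 + π * X := by
  unfold psi
  have hX : 0 ≤ X := (abs_nonneg x).trans hx
  refine (abs_add_le _ _).trans (add_le_add ?_ ?_)
  · rw [abs_mul, abs_neg, abs_of_pos (show (0 : ℝ) < 1 / 2 by norm_num)]
    have h1 : qf t ≤ 1 := by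
      unfold qf
      nlinarith [ht.1, ht.2]
    have h2 : log (qf t) ≤ 0 := log_nonpos (qf_pos t).le h1
    have h3 : 1 - (qf t)⁻¹ ≤ log (qf t) := one_sub_inv_le_log_of_pos (qf_pos t)
    have h4 : (qf t)⁻¹ ≤ 4 / 3 := by
      rw [inv_le_comm₀ (qf_pos t) (by norm_num)]
      have := qf_ge t
      norm_num
      linarith
    rw [abs_of_nonpos h2]
    linarith
  · rw [abs_mul, abs_mul, abs_two]
    have h1 : |arctan ((2 * t - 1) / √3)| ≤ π / 2 := (abs_arctan_lt_pi_div_two' _).le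
    have h2 : 2 * |x| * |arctan ((2 * t - 1) / √3)| ≤ 2 * X * (π / 2) := by gcongr
    linarith
where
  abs_arctan_lt_pi_div_two' (y : ℝ) : |arctan y| < π / 2 := by
    rw [abs_lt]
    exact ⟨neg_pi_div_two_lt_arctan y, arctan_lt_pi_div_two y⟩

/-- The eigenvalue of the Pascal matrix is close to `exp (2 π x / 3)`. -/
theorem ratio_bound (X : ℝ) : ∃ C : ℝ, 0 < C ∧ ∀ (n : ℕ) (x : ℝ) (v : Fin n → ℝ),
    C ≤ (n : ℝ) ^ 2 → |x| ≤ X → trid n *ᵥ v = ((n : ℝ) ^ 2 * (1 / 2 + √3 * x)) • v →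
    ext v 0 ≠ 0 → |(∑ j, v j) / ext v 0 * exp (-(2 * π * x / 3)) - 1| ≤ C / (n : ℝ) ^ 2 := by
  obtain ⟨b, hb0, hb⟩ := exists_coef_bound (1 / 2 + √3 * |X|)
  set E := exp (1 / 2 + π * |X|) with hE
  have hE1 : 1 ≤ E := by
    rw [hE]
    exact one_le_exp (by positivity)
  refine ⟨4 * b * E ^ 2, by positivity, fun n x v hn hx hv hv0 => ?_⟩
  have hn1 : 1 ≤ n := by
    by_contra hcon
    have : n = 0 := by omega
    rw [this] at hn
    have h4 : 0 < 4 * b * E ^ 2 := by positivity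
    norm_num at hn
    linarith
  have hn0 : (0 : ℝ) < (n : ℝ) ^ 2 := by positivity
  have hx' : |x| ≤ |X| := hx.trans (le_abs_self X)
  set c := 1 / 2 + √3 * x with hc
  have hcK : |c| ≤ 1 / 2 + √3 * |X| := by
    rw [hc]
    refine (abs_add_le _ _).trans ?_
    rw [abs_mul, abs_of_nonneg (sqrt_nonneg 3), abs_of_pos (show (0 : ℝ) < 1 / 2 by norm_num)]
    gcongr
  have hE2 : 1 ≤ E ^ 2 := one_le_pow₀ hE1
  have hnb : b / (n : ℝ) ^ 2 ≤ 1 / 4 := by
    rw [div_le_iff₀ hn0]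
    nlinarith
  have hexp : ∀ t ∈ Icc (0 : ℝ) 1, exp (psi x t) ≤ E ∧ exp (-psi x t) ≤ E := by
    intro t ht
    have h1 := abs_le.mp (abs_psi_le hx' ht)
    rw [hE]
    constructor
    · exact exp_le_exp.mpr h1.2
    · exact exp_le_exp.mpr (by linarith)
  -- the normalised solution
  set W : ℝ → ℝ := fun t => exp (-psi x t) * V0 v t with hW
  have hWd : ∀ t, HasDerivAt W (exp (-psi x t) * (V1 v t - rho c t * V0 v t)) t := by
    intro t
    have h := ((hasDerivAt_psi x t).neg.exp).mul (hasDerivAt_V0 v t)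
    refine h.congr_deriv ?_
    simp only [Pi.neg_apply]
    rw [hc]
    ring
  have hWc : Continuous W := continuous_iff_continuousAt.mpr fun t => (hWd t).continuousAt
  obtain ⟨ts, hts, hmax⟩ := isCompact_Icc.exists_isMaxOn (nonempty_Icc.mpr zero_le_one)
    (hWc.abs.continuousOn (s := Icc (0 : ℝ) 1))
  set M := |W ts| with hM
  have hmax' : ∀ t ∈ Icc (0 : ℝ) 1, |W t| ≤ M := fun t ht => hmax ht
  have hM0 : 0 ≤ M := abs_nonneg _
  have hV : ∀ t ∈ Icc (0 : ℝ) 1, |V0 v t| ≤ E * M := by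
    intro t ht
    have h1 : V0 v t = exp (psi x t) * W t := by
      rw [hW]
      simp only
      rw [← mul_assoc, ← exp_add, add_neg_cancel, exp_zero, one_mul]
    rw [h1, abs_mul, abs_of_pos (exp_pos _)]
    exact mul_le_mul (hexp t ht).1 (hmax' t ht) (abs_nonneg _) (by positivity)
  have hdef := defect_bound hn1 v hv hcK hb hnb hV
  set κ := 2 * b * E ^ 2 / (n : ℝ) ^ 2 with hκ
  have hκ1 : κ ≤ 1 / 2 := by
    rw [hκ, div_le_iff₀ hn0]
    linarith
  have hκ0 : 0 ≤ κ := by positivity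
  have hWd' : ∀ t ∈ Icc (0 : ℝ) 1, ‖exp (-psi x t) * (V1 v t - rho c t * V0 v t)‖ ≤ κ * M := by
    intro t ht
    rw [Real.norm_eq_abs, abs_mul, abs_of_pos (exp_pos _)]
    calc exp (-psi x t) * |V1 v t - rho c t * V0 v t|
        ≤ E * (2 * b * (E * M) / (n : ℝ) ^ 2) :=
          mul_le_mul (hexp t ht).2 (hdef t ht) (abs_nonneg _) (by positivity)
      _ = κ * M := by rw [hκ]; ring
  have hdiff : ∀ t ∈ Icc (0 : ℝ) 1, |W t - W 0| ≤ κ * M := by
    intro t ht
    have h := (convex_Icc (0 : ℝ) 1).norm_image_sub_le_of_norm_hasDerivWithin_le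
      (fun s _ => (hWd s).hasDerivWithinAt) hWd' (x := 0) (y := t) ⟨le_rfl, zero_le_one⟩ ht
    rw [Real.norm_eq_abs, Real.norm_eq_abs, sub_zero, abs_of_nonneg ht.1] at h
    refine h.trans ?_
    have := mul_le_mul_of_nonneg_left ht.2 (mul_nonneg hκ0 hM0)
    linarith
  have hM2 : M ≤ 2 * |W 0| := by
    have h1 := hdiff ts hts
    have h2 : M ≤ |W 0| + |W ts - W 0| := by
      rw [hM]
      have := abs_add_le (W 0) (W ts - W 0)
      rwa [add_sub_cancel] at this
    nlinarith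
  have h1 := hdiff 1 ⟨zero_le_one, le_rfl⟩
  have h2 : |W 1 - W 0| ≤ 2 * κ * |W 0| := h1.trans (by nlinarith)
  have hW0 : W 0 = exp (-psi x 0) * ext v 0 := by
    rw [hW]
    simp only
    rw [V0_zero]
  have hW1 : W 1 = exp (-psi x 1) * ∑ j, v j := by
    rw [hW]
    simp only
    rw [V0_one]
  have hW0' : W 0 ≠ 0 := by
    rw [hW0]
    exact mul_ne_zero (exp_pos _).ne' hv0
  have h3 : (∑ j, v j) / ext v 0 * exp (-(2 * π * x / 3)) - 1 = (W 1 - W 0) / W 0 := by
    rw [sub_div, div_self hW0', hW0, hW1, ← psi_one_sub_zero x, neg_sub, sub_eq_add_neg,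
      sub_eq_add_neg, exp_add]
    have he : exp (-psi x 0) ≠ 0 := (exp_pos _).ne'
    have he' : exp (psi x 0) * exp (-psi x 0) = 1 := by rw [← exp_add, add_neg_cancel, exp_zero]
    field_simp
    linear_combination (exp (-psi x 1) * ∑ j, v j) * he'
  rw [h3, abs_div, div_le_iff₀ (abs_pos.mpr hW0')]
  refine h2.trans (le_of_eq ?_)
  rw [hκ]
  ring

end Pool.Agent.H66.OneArm

end

section

/-!
# The phases of the quasi-modes
-/

open Matrix Finset Real

namespace Pool.Agent.H66.OneArm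

/-- Off-diagonal entries (divided by `n ^ 2`). -/
noncomputable def gg (n : ℕ) (b : ℝ) : ℝ := b * (1 - b ^ 2 / (n : ℝ) ^ 2)

/-- Minus the diagonal entries. -/
noncomputable def bet (n : ℕ) (b : ℝ) : ℝ := b - 2 * b ^ 3 / (n : ℝ) ^ 2

noncomputable def kap (n : ℕ) (b : ℝ) : ℝ := b * √(3 - 4 * (b ^ 2 / (n : ℝ) ^ 2))

/-- The local phase factor. -/
noncomputable def phase (n : ℕ) (b : ℝ) : ℂ := ⟨bet n b / (2 * gg n b), kap n b / (2 * gg n b)⟩

/-- The phases. -/
noncomputable def cc (n : ℕ) (j : ℕ) : ℂ := ∏ b ∈ range j, phase n ((b : ℝ) + 1)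

lemma cc_succ (n j : ℕ) : cc n (j + 1) = cc n j * phase n ((j : ℝ) + 1) := by
  unfold cc
  rw [prod_range_succ]

lemma sq_div_le {n : ℕ} {b : ℝ} (hb : 0 ≤ b) (hbn : b ≤ n / 2) : b ^ 2 / (n : ℝ) ^ 2 ≤ 1 / 4 := by
  rcases Nat.eq_zero_or_pos n with h | h
  · subst h
    simp
  · have hn : (0 : ℝ) < n := by exact_mod_cast h
    rw [div_le_iff₀ (by positivity)]
    nlinarith

lemma gg_pos {n : ℕ} {b : ℝ} (hb : 0 < b) (hbn : b ≤ n / 2) : 0 < gg n b := by
  unfold gg
  have := sq_div_le hb.le hbn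
  exact mul_pos hb (by linarith)

lemma bet_sq_add_kap_sq {n : ℕ} {b : ℝ} (hb : 0 ≤ b) (hbn : b ≤ n / 2) :
    bet n b ^ 2 + kap n b ^ 2 = (2 * gg n b) ^ 2 := by
  have h := sq_div_le hb hbn
  unfold bet kap gg
  rw [mul_pow b, Real.sq_sqrt (by linarith)]
  ring

lemma normSq_phase {n : ℕ} {b : ℝ} (hb : 0 < b) (hbn : b ≤ n / 2) :
    Complex.normSq (phase n b) = 1 := by
  have hg := gg_pos hb hbn
  rw [Complex.normSq_apply]
  unfold phase
  simp only
  have h := bet_sq_add_kap_sq hb.le hbn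
  field_simp
  linarith

lemma normSq_cc {n j : ℕ} (h : (j : ℝ) ≤ n / 2) : Complex.normSq (cc n j) = 1 := by
  induction j with
  | zero => simp [cc]
  | succ j ih =>
    push_cast at h
    rw [cc_succ, map_mul, ih (by linarith), normSq_phase (by positivity) h, one_mul]

/-- `g(j+1) c_(j+1) = (β + i κ)/2 c_j`. -/
lemma gg_mul_cc_succ {n j : ℕ} (h : (j : ℝ) + 1 ≤ n / 2) :
    (gg n ((j : ℝ) + 1) : ℂ) * cc n (j + 1) =
      cc n j * ⟨bet n ((j : ℝ) + 1) / 2, kap n ((j : ℝ) + 1) / 2⟩ := by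
  have hg := gg_pos (n := n) (b := (j : ℝ) + 1) (by positivity) h
  have e : (gg n ((j : ℝ) + 1) : ℂ) * phase n ((j : ℝ) + 1) =
      ⟨bet n ((j : ℝ) + 1) / 2, kap n ((j : ℝ) + 1) / 2⟩ := by
    unfold phase
    apply Complex.ext
    · simp only [Complex.mul_re, Complex.ofReal_re, Complex.ofReal_im, zero_mul, sub_zero]
      field_simp
    · simp only [Complex.mul_im, Complex.ofReal_re, Complex.ofReal_im, zero_mul, add_zero]
      field_simp
  rw [cc_succ, ← e]
  ring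

/-- `g(j+1) c_j = (β - i κ)/2 c_(j+1)`. -/
lemma gg_mul_cc {n j : ℕ} (h : (j : ℝ) + 1 ≤ n / 2) :
    (gg n ((j : ℝ) + 1) : ℂ) * cc n j =
      cc n (j + 1) * ⟨bet n ((j : ℝ) + 1) / 2, -(kap n ((j : ℝ) + 1) / 2)⟩ := by
  have hg := gg_pos (n := n) (b := (j : ℝ) + 1) (by positivity) h
  have e : phase n ((j : ℝ) + 1) * ⟨bet n ((j : ℝ) + 1) / 2, -(kap n ((j : ℝ) + 1) / 2)⟩ =
      (gg n ((j : ℝ) + 1) : ℂ) := by
    have h1 := bet_sq_add_kap_sq (n := n) (b := (j : ℝ) + 1) (by positivity) h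
    unfold phase
    apply Complex.ext
    · simp only [Complex.mul_re, Complex.ofReal_re]
      field_simp
      linarith
    · simp only [Complex.mul_im, Complex.ofReal_im]
      field_simp
      ring
  rw [cc_succ, mul_assoc, e]
  ring

lemma offd_eq {n : ℕ} (hn : 1 ≤ n) (j : ℕ) : offd n j = (n : ℝ) ^ 2 * gg n ((j : ℝ) + 1) := by
  have : (n : ℝ) ≠ 0 := by positivity
  unfold offd gg
  field_simp

lemma diag_eq {n : ℕ} (hn : 1 ≤ n) (j : ℕ) : diag n j - (n : ℝ) ^ 2 * (1 / 2) = (n : ℝ) ^ 2 *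
    (-bet n ((j : ℝ) + 1 / 2) + (((j : ℝ) + 1 / 2) / 2 - 1 / 2) / (n : ℝ) ^ 2) := by
  have : (n : ℝ) ≠ 0 := by positivity
  unfold diag bet
  field_simp
  ring

end Pool.Agent.H66.OneArm

end

section

/-!
# Sums of `cos (γ log s) / s`
-/

open Finset Real Set

namespace Pool.Agent.H66.OneArm

/-- `cos (γ (log s - y)) / s`. -/
noncomputable def cs (γ y s : ℝ) : ℝ := cos (γ * (log s - y)) / s

/-- Its derivative. -/
noncomputable def cs' (γ y s : ℝ) : ℝ :=
  (-(sin (γ * (log s - y)) * γ) - cos (γ * (log s - y))) / s ^ 2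

lemma hasDerivAt_cs (γ y : ℝ) {s : ℝ} (hs : 0 < s) : HasDerivAt (cs γ y) (cs' γ y s) s := by
  have h1 : HasDerivAt (fun s => γ * (log s - y)) (γ * s⁻¹) s :=
    ((Real.hasDerivAt_log hs.ne').sub_const y).const_mul γ
  have h := h1.cos.div (hasDerivAt_id' s) hs.ne'
  refine h.congr_deriv ?_
  unfold cs'
  field_simp

lemma abs_cs'_le (γ y : ℝ) {s a : ℝ} (ha : 0 < a) (has : a ≤ s) : |cs' γ y s| ≤ (1 + |γ|) / a ^ 2 := by
  unfold cs'
  have hs : 0 < s := lt_of_lt_of_le ha has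
  rw [abs_div, abs_of_pos (show 0 < s ^ 2 by positivity)]
  have h1 : |-(sin (γ * (log s - y)) * γ) - cos (γ * (log s - y))| ≤ 1 + |γ| := by
    refine (abs_sub _ _).trans ?_
    rw [abs_neg, abs_mul]
    have h2 := abs_sin_le_one (γ * (log s - y))
    have h3 := abs_cos_le_one (γ * (log s - y))
    have h4 := mul_le_mul_of_nonneg_right h2 (abs_nonneg γ)
    linarith
  have h5 : 0 ≤ 1 + |γ| := by positivity
  exact div_le_div₀ h5 h1 (by positivity) (pow_le_pow_left₀ ha.le has 2)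

lemma abs_cs_sub_le (γ y : ℝ) {s t a : ℝ} (ha : 0 < a) (has : a ≤ s) (hat : a ≤ t) :
    |cs γ y s - cs γ y t| ≤ (1 + |γ|) / a ^ 2 * |s - t| := by
  have h := (convex_Ici a).norm_image_sub_le_of_norm_hasDerivWithin_le (f := cs γ y)
    (f' := cs' γ y) (C := (1 + |γ|) / a ^ 2)
    (fun u hu => (hasDerivAt_cs γ y (lt_of_lt_of_le ha hu)).hasDerivWithinAt)
    (fun u hu => by rw [Real.norm_eq_abs]; exact abs_cs'_le γ y ha hu) hat has
  simpa only [Real.norm_eq_abs] using h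

lemma abs_cs_le (γ y : ℝ) {s : ℝ} (hs : 0 < s) : |cs γ y s| ≤ 1 / s := by
  unfold cs
  rw [abs_div, abs_of_pos hs]
  gcongr
  exact abs_cos_le_one _

lemma sum_inv_sq_le {N₀ N₁ : ℕ} (h0 : 1 ≤ N₀) (h : N₀ ≤ N₁) :
    ∑ j ∈ Finset.Ico N₀ N₁, 1 / (j : ℝ) ^ 2 ≤ 2 / (N₀ : ℝ) := by
  have key : ∀ N₁ : ℕ, N₀ ≤ N₁ →
      ∑ j ∈ Finset.Ico N₀ N₁, 1 / (j : ℝ) ^ 2 ≤ 2 / (N₀ : ℝ) - 2 / (N₁ : ℝ) := by
    intro N₁ h
    induction N₁, h using Nat.le_induction with
    | base => simp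
    | succ k hk ih =>
      rw [Finset.sum_Ico_succ_top hk]
      have hk0 : (0 : ℝ) < k := by
        have : 1 ≤ k := h0.trans hk
        exact_mod_cast this
      have h1 : 1 / (k : ℝ) ^ 2 ≤ 2 / (k : ℝ) - 2 / ((k + 1 : ℕ) : ℝ) := by
        push_cast
        rw [div_sub_div _ _ hk0.ne' (by positivity), div_le_div_iff₀ (by positivity) (by positivity)]
        have : (1 : ℝ) ≤ k := by
          have : 1 ≤ k := h0.trans hk
          exact_mod_cast this
        nlinarith [mul_pos hk0 hk0]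
      linarith
  have h1 := key N₁ h
  have h2 : (0 : ℝ) ≤ 2 / (N₁ : ℝ) := by positivity
  linarith

/-- Comparison of the sum with the integral. -/
lemma sum_cs {Φ : ℝ → ℝ} {γ y : ℝ} (hΦ : ∀ s, 0 < s → HasDerivAt Φ (cs γ y s) s) {N₀ N₁ : ℕ}
    (h0 : 1 ≤ N₀) (h : N₀ ≤ N₁) :
    |∑ j ∈ Finset.Ico N₀ N₁, cs γ y ((j : ℝ) + 1 / 2) - (Φ N₁ - Φ N₀)| ≤ 2 * (1 + |γ|) / N₀ := by
  have hstep : ∀ j : ℕ, 1 ≤ j →
      |cs γ y ((j : ℝ) + 1 / 2) - (Φ ((j : ℝ) + 1) - Φ j)| ≤ (1 + |γ|) * (1 / (j : ℝ) ^ 2) := by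
    intro j hj
    have hj0 : (0 : ℝ) < j := by exact_mod_cast hj
    have h1 := (convex_Icc (j : ℝ) ((j : ℝ) + 1)).norm_image_sub_le_of_norm_hasDerivWithin_le
      (f := fun s => Φ s - cs γ y ((j : ℝ) + 1 / 2) * s)
      (f' := fun s => cs γ y s - cs γ y ((j : ℝ) + 1 / 2) * 1) (C := (1 + |γ|) / (j : ℝ) ^ 2)
      (fun u hu => ((hΦ u (lt_of_lt_of_le hj0 hu.1)).sub
        ((hasDerivAt_id' u).const_mul _)).hasDerivWithinAt)
      (fun u hu => by
        rw [Real.norm_eq_abs, mul_one]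
        refine (abs_cs_sub_le γ y hj0 hu.1 (by linarith)).trans ?_
        have h2 : |u - ((j : ℝ) + 1 / 2)| ≤ 1 := by
          rw [abs_le]
          constructor <;> linarith [hu.1, hu.2]
        have h3 : 0 ≤ (1 + |γ|) / (j : ℝ) ^ 2 := by positivity
        nlinarith)
      (x := (j : ℝ)) (y := (j : ℝ) + 1) ⟨le_rfl, by linarith⟩ ⟨by linarith, le_rfl⟩
    rw [Real.norm_eq_abs, Real.norm_eq_abs, add_sub_cancel_left, abs_one, mul_one] at h1
    have h4 : Φ ((j : ℝ) + 1) - cs γ y ((j : ℝ) + 1 / 2) * ((j : ℝ) + 1) -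
        (Φ j - cs γ y ((j : ℝ) + 1 / 2) * j) =
        -(cs γ y ((j : ℝ) + 1 / 2) - (Φ ((j : ℝ) + 1) - Φ j)) := by ring
    rw [h4, abs_neg] at h1
    calc _ ≤ (1 + |γ|) / (j : ℝ) ^ 2 := h1
      _ = _ := by ring
  have htel : Φ N₁ - Φ N₀ = ∑ j ∈ Finset.Ico N₀ N₁, (Φ ((j : ℝ) + 1) - Φ j) := by
    rw [← Finset.sum_Ico_sub (fun j : ℕ => Φ j) h]
    exact Finset.sum_congr rfl fun j _ => by push_cast; rfl
  rw [htel, ← Finset.sum_sub_distrib]
  refine (Finset.abs_sum_le_sum_abs _ _).trans ?_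
  calc ∑ j ∈ Finset.Ico N₀ N₁, |cs γ y ((j : ℝ) + 1 / 2) - (Φ ((j : ℝ) + 1) - Φ j)|
      ≤ ∑ j ∈ Finset.Ico N₀ N₁, (1 + |γ|) * (1 / (j : ℝ) ^ 2) :=
        Finset.sum_le_sum fun j hj => hstep j (h0.trans (Finset.mem_Ico.mp hj).1)
    _ = (1 + |γ|) * ∑ j ∈ Finset.Ico N₀ N₁, 1 / (j : ℝ) ^ 2 := by rw [Finset.mul_sum]
    _ ≤ (1 + |γ|) * (2 / N₀) := mul_le_mul_of_nonneg_left (sum_inv_sq_le h0 h) (by positivity)
    _ = 2 * (1 + |γ|) / N₀ := by ring

/-- Frequency zero. -/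
lemma sum_cs_zero (y : ℝ) {N₀ N₁ : ℕ} (h0 : 1 ≤ N₀) (h : N₀ ≤ N₁) :
    |∑ j ∈ Finset.Ico N₀ N₁, cs 0 y ((j : ℝ) + 1 / 2) - (log N₁ - log N₀)| ≤ 2 / N₀ := by
  have h1 := sum_cs (Φ := log) (γ := 0) (y := y)
    (fun s hs => (Real.hasDerivAt_log hs.ne').congr_deriv (by simp [cs])) h0 h
  simpa using h1

/-- Nonzero frequency with vanishing boundary terms. -/
lemma sum_cs_of_ne {γ : ℝ} (hγ : γ ≠ 0) {N₀ N₁ : ℕ} (h0 : 1 ≤ N₀) (h : N₀ ≤ N₁)
    (hs : sin (γ * (log N₁ - log N₀)) = 0) :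
    |∑ j ∈ Finset.Ico N₀ N₁, cs γ (log N₀) ((j : ℝ) + 1 / 2)| ≤ 2 * (1 + |γ|) / N₀ := by
  have h1 := sum_cs (Φ := fun s => sin (γ * (log s - log N₀)) / γ) (γ := γ) (y := log N₀)
    (fun s hs => by
      have h1 : HasDerivAt (fun s => γ * (log s - log N₀)) (γ * s⁻¹) s :=
        ((Real.hasDerivAt_log hs.ne').sub_const _).const_mul γ
      refine (h1.sin.div_const γ).congr_deriv ?_
      unfold cs
      field_simp) h0 h
  simp only [sub_self, mul_zero, sin_zero, zero_div, sub_zero, hs] at h1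
  exact h1

end Pool.Agent.H66.OneArm

end

section

/-!
# Two facts of elementary calculus about `1 / (c + cosh x)`
-/

set_option autoImplicit false

open Real Set

namespace Pool.Agent.H66.OneArm

private lemma conv_num {c : ℝ} (hc : -1 < c) (hc' : c ≤ 1) {x : ℝ} (hx : 0 < x) :
    (x * cosh x - sinh x) * (c + cosh x) - 2 * x * sinh x ^ 2 ≤ 0 := by
  have h1 : 1 ≤ cosh x := Real.one_le_cosh x
  have h2 : x ≤ sinh x := Real.self_le_sinh_iff.2 hx.le
  have h3 : cosh x ^ 2 - sinh x ^ 2 = 1 := Real.cosh_sq_sub_sinh_sq x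
  by_cases h : 0 ≤ x * cosh x - sinh x
  · have h4 : (x * cosh x - sinh x) * (c + cosh x) ≤ (x * cosh x - sinh x) * (1 + cosh x) :=
      mul_le_mul_of_nonneg_left (by linarith) h
    have h5 : (x * cosh x - sinh x) * (1 + cosh x) - 2 * x * sinh x ^ 2 =
        (1 + cosh x) * (2 * x - x * cosh x - sinh x) := by
      have : sinh x ^ 2 = cosh x ^ 2 - 1 := by linarith
      rw [this]
      ring
    have h6 : (1 + cosh x) * (2 * x - x * cosh x - sinh x) ≤ 0 := by
      apply mul_nonpos_of_nonneg_of_nonpos (by linarith)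
      nlinarith
    linarith
  · push Not at h
    have h4 : (x * cosh x - sinh x) * (c + cosh x) ≤ 0 :=
      mul_nonpos_of_nonpos_of_nonneg h.le (by linarith)
    have h5 : 0 ≤ 2 * x * sinh x ^ 2 := by positivity
    linarith

private lemma conv_antitone {c : ℝ} (hc : -1 < c) (hc' : c ≤ 1) :
    AntitoneOn (fun x : ℝ => sinh x / (x * (c + cosh x) ^ 2)) (Ioi 0) := by
  have hpos : ∀ x : ℝ, 0 < c + cosh x := fun x => by linarith [Real.one_le_cosh x]
  have hder : ∀ x : ℝ, 0 < x → HasDerivAt (fun x : ℝ => sinh x / (x * (c + cosh x) ^ 2))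
      ((cosh x * (x * (c + cosh x) ^ 2) - sinh x * (1 * (c + cosh x) ^ 2 +
        x * (2 * (c + cosh x) * sinh x))) / (x * (c + cosh x) ^ 2) ^ 2) x := by
    intro x hx
    have h1 : HasDerivAt (fun x : ℝ => (c + cosh x) ^ 2) (2 * (c + cosh x) * sinh x) x := by
      have h0 := ((Real.hasDerivAt_cosh x).const_add c).pow 2
      refine (h0.congr_deriv (by simp)).congr_of_eventuallyEq ?_
      filter_upwards with y
      rfl
    have h2 : HasDerivAt (fun x : ℝ => x * (c + cosh x) ^ 2)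
        (1 * (c + cosh x) ^ 2 + x * (2 * (c + cosh x) * sinh x)) x := (hasDerivAt_id x).mul h1
    exact (Real.hasDerivAt_sinh x).div h2 (mul_pos hx (pow_pos (hpos x) 2)).ne'
  apply antitoneOn_of_deriv_nonpos (convex_Ioi 0)
  · intro x hx
    exact (hder x hx).continuousAt.continuousWithinAt
  · rw [interior_Ioi]
    intro x hx
    exact (hder x hx).differentiableAt.differentiableWithinAt
  · rw [interior_Ioi]
    intro x hx
    rw [(hder x hx).deriv]
    apply div_nonpos_of_nonpos_of_nonneg _ (sq_nonneg _)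
    have h1 := conv_num hc hc' hx
    have h2 : cosh x * (x * (c + cosh x) ^ 2) - sinh x * (1 * (c + cosh x) ^ 2 +
        x * (2 * (c + cosh x) * sinh x)) =
        (c + cosh x) * ((x * cosh x - sinh x) * (c + cosh x) - 2 * x * sinh x ^ 2) := by ring
    rw [h2]
    exact mul_nonpos_of_nonneg_of_nonpos (hpos x).le h1

theorem convexOn_inv_cosh {c : ℝ} (hc : -1 < c) (hc' : c ≤ 1) {a : ℝ} (ha : 0 ≤ a) : ConvexOn ℝ (Set.Ici 0) fun E : ℝ => 1 / (c + cosh (a * √E)) := by
  have hpos : ∀ x : ℝ, 0 < c + cosh x := fun x => by linarith [Real.one_le_cosh x]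
  rcases ha.eq_or_lt with rfl | ha
  · simp only [zero_mul]
    exact convexOn_const _ (convex_Ici 0)
  have hder : ∀ E : ℝ, 0 < E → HasDerivAt (fun E : ℝ => 1 / (c + cosh (a * √E)))
      (-(a ^ 2 / 2) * (sinh (a * √E) / (a * √E * (c + cosh (a * √E)) ^ 2))) E := by
    intro E hE
    have hs : 0 < √E := Real.sqrt_pos.2 hE
    have h1 : HasDerivAt (fun E : ℝ => a * √E) (a * (1 / (2 * √E))) E :=
      (Real.hasDerivAt_sqrt hE.ne').const_mul a
    have h2 : HasDerivAt (fun E : ℝ => c + cosh (a * √E))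
        (sinh (a * √E) * (a * (1 / (2 * √E)))) E := by
      have := (Real.hasDerivAt_cosh (a * √E)).comp E h1
      exact this.const_add c
    have h3 := h2.inv (hpos _).ne'
    simp only [one_div]
    refine h3.congr_deriv ?_
    have h4 := (hpos (a * √E)).ne'
    field_simp
  have hcont : ContinuousOn (fun E : ℝ => 1 / (c + cosh (a * √E))) (Set.Ici 0) := by
    apply Continuous.continuousOn
    apply Continuous.div continuous_const
    · exact continuous_const.add (Real.continuous_cosh.comp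
        (continuous_const.mul Real.continuous_sqrt))
    · intro E
      exact (hpos _).ne'
  apply MonotoneOn.convexOn_of_deriv (convex_Ici 0) hcont
  · rw [interior_Ici]
    intro E hE
    exact (hder E hE).differentiableAt.differentiableWithinAt
  · rw [interior_Ici]
    intro E hE F hF hEF
    rw [(hder E hE).deriv, (hder F hF).deriv]
    have hE' : (0 : ℝ) < E := hE
    have hF' : (0 : ℝ) < F := hF
    have h1 := conv_antitone hc hc' (show a * √E ∈ Ioi 0 from mul_pos ha (Real.sqrt_pos.2 hE'))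
      (show a * √F ∈ Ioi 0 from mul_pos ha (Real.sqrt_pos.2 hF'))
      (mul_le_mul_of_nonneg_left (Real.sqrt_le_sqrt hEF) ha.le)
    simp only at h1
    nlinarith [sq_nonneg a, mul_le_mul_of_nonneg_left h1 (show (0 : ℝ) ≤ a ^ 2 / 2 by positivity)]

private lemma sum_der {t : ℝ} (ht : 0 < t) (ht' : t < π) (m : ℝ) :
    HasDerivAt (fun m : ℝ => 2 * arctan (tan (t / 2) * tanh (m / 2)))
      (sin t / (cos t + cosh m)) m := by
  have hc : 0 < cos (t / 2) := Real.cos_pos_of_mem_Ioo ⟨by linarith, by linarith⟩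
  have hC : 0 < cosh (m / 2) := Real.cosh_pos _
  have h1 : HasDerivAt (fun m : ℝ => m / 2) (1 / 2) m := (hasDerivAt_id m).div_const 2
  have h2 : HasDerivAt (fun m : ℝ => tanh (m / 2))
      ((cosh (m / 2) * (1 / 2) * cosh (m / 2) - sinh (m / 2) * (sinh (m / 2) * (1 / 2))) /
        cosh (m / 2) ^ 2) m := by
    have hs := (Real.hasDerivAt_sinh (m / 2)).comp m h1
    have hcc := (Real.hasDerivAt_cosh (m / 2)).comp m h1
    have h3 := hs.div hcc hC.ne'
    refine h3.congr_of_eventuallyEq ?_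
    filter_upwards with x
    rw [Real.tanh_eq_sinh_div_cosh]
    rfl
  have h3 := (h2.const_mul (tan (t / 2))).arctan.const_mul 2
  refine h3.congr_deriv ?_
  rw [Real.tanh_eq_sinh_div_cosh, Real.tan_eq_sin_div_cos]
  have e1 : sin t = 2 * sin (t / 2) * cos (t / 2) := by
    rw [← Real.sin_two_mul]
    congr 1
    ring
  have e2 : cos t = 2 * cos (t / 2) ^ 2 - 1 := by
    rw [← Real.cos_two_mul]
    congr 1
    ring
  have e3 : cosh m = cosh (m / 2) ^ 2 + sinh (m / 2) ^ 2 := by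
    rw [← Real.cosh_two_mul]
    congr 1
    ring
  have e4 : cosh (m / 2) ^ 2 - sinh (m / 2) ^ 2 = 1 := Real.cosh_sq_sub_sinh_sq _
  have e5 : sin (t / 2) ^ 2 + cos (t / 2) ^ 2 = 1 := Real.sin_sq_add_cos_sq _
  have e6 : cos t + cosh m = 2 * (cos (t / 2) ^ 2 * cosh (m / 2) ^ 2 +
      sin (t / 2) ^ 2 * sinh (m / 2) ^ 2) := by
    rw [e2, e3]
    have : cosh (m / 2) ^ 2 = 1 + sinh (m / 2) ^ 2 := by linarith
    rw [this]
    have : sin (t / 2) ^ 2 = 1 - cos (t / 2) ^ 2 := by linarith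
    rw [this]
    ring
  have hden : 0 < cos (t / 2) ^ 2 * cosh (m / 2) ^ 2 + sin (t / 2) ^ 2 * sinh (m / 2) ^ 2 := by
    positivity
  rw [e6, e1]
  have hne : 1 + (sin (t / 2) / cos (t / 2) * (sinh (m / 2) / cosh (m / 2))) ^ 2 =
      (cos (t / 2) ^ 2 * cosh (m / 2) ^ 2 + sin (t / 2) ^ 2 * sinh (m / 2) ^ 2) /
        (cos (t / 2) ^ 2 * cosh (m / 2) ^ 2) := by
    field_simp
  have hnum : cosh (m / 2) * (1 / 2) * cosh (m / 2) - sinh (m / 2) * (sinh (m / 2) * (1 / 2)) =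
      1 / 2 := by linarith
  rw [hne, hnum]
  field_simp

theorem sum_h_ge {t Δ : ℝ} (ht : 0 < t) (ht' : t < π) (hΔ : 0 < Δ) (a b : ℕ) (hab : a ≤ b) :
    2 * arctan (tan (t / 2) * tanh ((b + 1) * Δ / 2)) -
      2 * arctan (tan (t / 2) * tanh ((a + 1) * Δ / 2)) ≤
      Δ * ∑ k ∈ Finset.Ico a b, sin t / (cos t + cosh ((k + 1) * Δ)) := by
  induction b, hab using Nat.le_induction with
  | base => simp
  | succ b hab ih =>
    rw [Finset.sum_Ico_succ_top hab, mul_add]
    have hstep : 2 * arctan (tan (t / 2) * tanh ((((b + 1 : ℕ) : ℝ) + 1) * Δ / 2)) -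
        2 * arctan (tan (t / 2) * tanh (((b : ℝ) + 1) * Δ / 2)) ≤
        Δ * (sin t / (cos t + cosh (((b : ℝ) + 1) * Δ))) := by
      have hst : 0 < sin t := Real.sin_pos_of_pos_of_lt_pi ht ht'
      have hb : (0 : ℝ) ≤ ((b : ℝ) + 1) * Δ := by positivity
      have hct : -1 < cos t := by
        have h1 : cos π < cos t := Real.cos_lt_cos_of_nonneg_of_le_pi ht.le le_rfl ht'
        rwa [Real.cos_pi] at h1
      have hmv := Convex.image_sub_le_mul_sub_of_deriv_le
        (D := Set.Icc (((b : ℝ) + 1) * Δ) (((b : ℝ) + 1) * Δ + Δ)) (convex_Icc _ _)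
        (f := fun m : ℝ => 2 * arctan (tan (t / 2) * tanh (m / 2)))
        (fun m _ => (sum_der ht ht' m).continuousAt.continuousWithinAt)
        (fun m _ => (sum_der ht ht' m).differentiableAt.differentiableWithinAt)
        (C := sin t / (cos t + cosh (((b : ℝ) + 1) * Δ)))
        (by
          intro m hm
          rw [interior_Icc] at hm
          rw [(sum_der ht ht' m).deriv]
          have hcm : cosh (((b : ℝ) + 1) * Δ) ≤ cosh m := by
            rw [Real.cosh_le_cosh, abs_of_nonneg hb, abs_of_nonneg (by linarith [hm.1])]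
            exact hm.1.le
          apply div_le_div_of_nonneg_left hst.le _ (by linarith)
          linarith [Real.one_le_cosh (((b : ℝ) + 1) * Δ)])
        (((b : ℝ) + 1) * Δ) ⟨le_rfl, by linarith⟩ (((b : ℝ) + 1) * Δ + Δ) ⟨by linarith, le_rfl⟩
        (by linarith)
      have e1 : (((b + 1 : ℕ) : ℝ) + 1) * Δ / 2 = (((b : ℝ) + 1) * Δ + Δ) / 2 := by
        push_cast
        ring
      rw [e1]
      have e2 : sin t / (cos t + cosh (((b : ℝ) + 1) * Δ)) *
          (((b : ℝ) + 1) * Δ + Δ - ((b : ℝ) + 1) * Δ) =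
          Δ * (sin t / (cos t + cosh (((b : ℝ) + 1) * Δ))) := by ring
      rw [e2] at hmv
      exact hmv
    linarith

end Pool.Agent.H66.OneArm

end

section

/-!
# The functions `h` and `H`
-/

open Filter Topology Real

namespace Pool.Agent.H66.OneArm

/-- `sin t / (cos t + cosh m)`. -/
noncomputable def hh (t m : ℝ) : ℝ := sin t / (cos t + cosh m)

/-- The truncated function of the energy. -/
noncomputable def HH (t X E : ℝ) : ℝ := max (hh t (2 * π / 3 * √(E / 3)) - hh t (2 * π * X / 3)) 0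

lemma neg_one_lt_cos {t : ℝ} (h0 : 0 < t) (h1 : t < π) : -1 < cos t := by
  rw [← cos_pi]
  exact cos_lt_cos_of_nonneg_of_le_pi h0.le le_rfl h1

lemma den_pos {t : ℝ} (h0 : 0 < t) (h1 : t < π) (m : ℝ) : 0 < cos t + cosh m := by
  linarith [neg_one_lt_cos h0 h1, one_le_cosh m]

lemma hh_pos {t : ℝ} (h0 : 0 < t) (h1 : t < π) (m : ℝ) : 0 < hh t m :=
  div_pos (sin_pos_of_pos_of_lt_pi h0 h1) (den_pos h0 h1 m)

lemma hh_anti {t : ℝ} (h0 : 0 < t) (h1 : t < π) {m m' : ℝ} (h : |m| ≤ |m'|) :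
    hh t m' ≤ hh t m := by
  have h2 := Real.cosh_le_cosh.mpr h
  exact div_le_div_of_nonneg_left (sin_pos_of_pos_of_lt_pi h0 h1).le (den_pos h0 h1 m) (by linarith)

lemma HH_nonneg (t X E : ℝ) : 0 ≤ HH t X E := le_max_right _ _

lemma HH_anti {t X : ℝ} (h0 : 0 < t) (h1 : t < π) {E E' : ℝ} (h : E ≤ E') :
    HH t X E' ≤ HH t X E := by
  unfold HH
  apply max_le_max _ le_rfl
  have h2 : √(E / 3) ≤ √(E' / 3) := Real.sqrt_le_sqrt (by linarith)
  have h3 : hh t (2 * π / 3 * √(E' / 3)) ≤ hh t (2 * π / 3 * √(E / 3)) := by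
    apply hh_anti h0 h1
    have := pi_pos
    rw [abs_of_nonneg (by positivity), abs_of_nonneg (by positivity)]
    exact mul_le_mul_of_nonneg_left h2 (by positivity)
  linarith

lemma HH_convex {t X : ℝ} (h0 : 0 < t) (h1 : t < π) : ConvexOn ℝ (Set.Ici 0) (HH t X) := by
  have hπ := pi_pos
  have h2 := convexOn_inv_cosh (c := cos t) (neg_one_lt_cos h0 h1) (cos_le_one t)
    (a := 2 * π / 3 / √3) (by positivity)
  have h3 := (h2.smul (sin_pos_of_pos_of_lt_pi h0 h1).le).add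
    (convexOn_const (-hh t (2 * π * X / 3)) (convex_Ici (0 : ℝ)))
  have h4 := h3.sup (convexOn_const (0 : ℝ) (convex_Ici (0 : ℝ)))
  have e : HH t X = ((sin t • (fun E : ℝ => 1 / (cos t + cosh (2 * π / 3 / √3 * √E)))) +
      fun _ => -hh t (2 * π * X / 3)) ⊔ fun _ => 0 := by
    funext E
    simp only [Pi.sup_apply, Pi.add_apply, Pi.smul_apply, smul_eq_mul]
    unfold HH
    have h5 : 2 * π / 3 * √(E / 3) = 2 * π / 3 / √3 * √E := by
      rw [Real.sqrt_div' E (by norm_num)]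
      ring
    rw [h5]
    unfold hh
    rw [mul_one_div, ← sub_eq_add_neg]
  rw [e]
  exact h4

lemma HH_ge {t X : ℝ} {a : ℝ} (ha : 0 ≤ a) :
    hh t (2 * π / 3 * a) - hh t (2 * π * X / 3) ≤ HH t X (3 * a ^ 2) := by
  unfold HH
  have : 3 * a ^ 2 / 3 = a ^ 2 := by ring
  rw [this, Real.sqrt_sq ha]
  exact le_max_left _ _

/-! ### The hyperbolic tangent -/

lemma tanh_mono {x y : ℝ} (h : x ≤ y) : tanh x ≤ tanh y := by
  rw [Real.tanh_eq_sinh_div_cosh, Real.tanh_eq_sinh_div_cosh, div_le_div_iff₀ (cosh_pos x) (cosh_pos y)]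
  have h1 : 0 ≤ sinh (y - x) := Real.sinh_nonneg_iff.mpr (by linarith)
  rw [Real.sinh_sub] at h1
  linarith

lemma tanh_ge {x : ℝ} (hx : 0 ≤ x) : 1 - exp (-x) ≤ tanh x := by
  rw [Real.tanh_eq_sinh_div_cosh, le_div_iff₀ (cosh_pos x)]
  have h1 : cosh x - sinh x = exp (-x) := Real.cosh_sub_sinh x
  have h2 := one_le_cosh x
  have h3 := exp_pos (-x)
  nlinarith

lemma tendsto_tanh : Tendsto tanh atTop (𝓝 1) := by
  have h1 : Tendsto (fun x : ℝ => 1 - exp (-x)) atTop (𝓝 (1 - 0)) :=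
    tendsto_const_nhds.sub (tendsto_exp_neg_atTop_nhds_zero)
  rw [sub_zero] at h1
  refine tendsto_of_tendsto_of_tendsto_of_le_of_le' h1 tendsto_const_nhds ?_ ?_
  · filter_upwards [eventually_ge_atTop (0 : ℝ)] with x hx using tanh_ge hx
  · exact Eventually.of_forall fun x => (tanh_lt_one x).le

lemma tan_half_pos {t : ℝ} (h0 : 0 < t) (h1 : t < π) : 0 < tan (t / 2) :=
  tan_pos_of_pos_of_lt_pi_div_two (by linarith) (by linarith)

/-- The choice of the cut-off. -/
lemma exists_X {t κ : ℝ} (h0 : 0 < t) (h1 : t < π) (hκ : 0 < κ) :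
    ∃ X : ℝ, 0 < X ∧ t - κ ≤ 2 * arctan (tan (t / 2) * tanh (π * X / 3)) ∧
      2 * π / 3 * X * hh t (2 * π * X / 3) ≤ κ := by
  have hπ := pi_pos
  have h2 : Tendsto (fun X : ℝ => 2 * arctan (tan (t / 2) * tanh (π * X / 3))) atTop (𝓝 t) := by
    have h3 : Tendsto (fun X : ℝ => π * X / 3) atTop atTop := by
      have : (fun X : ℝ => π * X / 3) = fun X => (π / 3) * X := by
        funext X
        ring
      rw [this]
      exact tendsto_id.const_mul_atTop (by positivity)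
    have h4 := ((continuous_arctan.tendsto _).comp
      ((tendsto_tanh.comp h3).const_mul (tan (t / 2)))).const_mul 2
    rw [mul_one, arctan_tan (by linarith) (by linarith)] at h4
    have e : 2 * (t / 2) = t := by ring
    rw [e] at h4
    exact h4
  have h5 : ∀ᶠ X : ℝ in atTop, t - κ ≤ 2 * arctan (tan (t / 2) * tanh (π * X / 3)) :=
    h2.eventually (eventually_ge_nhds (by linarith))
  obtain ⟨X, hX1, hX2⟩ := (h5.and (eventually_ge_atTop (max 1 (1 / κ)))).exists
  have hX3 : 1 ≤ X := (le_max_left _ _).trans hX2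
  have hX4 : 1 / κ ≤ X := (le_max_right _ _).trans hX2
  refine ⟨X, by linarith, hX1, ?_⟩
  have hX0 : 0 < X := by linarith
  -- `hh ≤ 2 / m²`
  set m := 2 * π * X / 3 with hm
  have hm0 : 0 < m := by positivity
  have h6 : hh t m ≤ 2 / m ^ 2 := by
    have h7 : m ^ 2 / 2 ≤ cos t + cosh m := by
      have := neg_one_lt_cos h0 h1
      have h8 : 1 + m ^ 2 / 2 ≤ cosh m := by
        have h9 := Real.cosh_eq m
        have h10 := Real.quadratic_le_exp_of_nonneg hm0.le
        have h11 : cosh m = 1 + 2 * sinh (m / 2) ^ 2 := by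
          have := Real.cosh_two_mul (m / 2)
          have h12 := Real.cosh_sq (m / 2)
          rw [show 2 * (m / 2) = m by ring] at this
          rw [this, h12]
          ring
        have h13 : m / 2 ≤ sinh (m / 2) := Real.self_le_sinh_iff.mpr (by linarith)
        have h14 : (m / 2) ^ 2 ≤ sinh (m / 2) ^ 2 := pow_le_pow_left₀ (by linarith) h13 2
        rw [h11]
        linarith
      linarith
    unfold hh
    rw [div_le_div_iff₀ (den_pos h0 h1 m) (by positivity)]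
    have := sin_le_one t
    nlinarith [sq_nonneg m, sin_pos_of_pos_of_lt_pi h0 h1]
  have e : 2 * π / 3 * X = m := by rw [hm]; ring
  rw [e]
  calc m * hh t m ≤ m * (2 / m ^ 2) := mul_le_mul_of_nonneg_left h6 hm0.le
    _ = 2 / m := by field_simp
    _ ≤ 1 / X := by
      rw [div_le_div_iff₀ hm0 hX0, hm]
      have : (3 : ℝ) ≤ π := pi_gt_three.le
      nlinarith
    _ ≤ κ := by
      rw [div_le_iff₀ hκ] at hX4
      rw [div_le_iff₀ hX0]
      linarith

/-- The choice of the lower cut-off. -/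
lemma exists_s {t κ : ℝ} (hκ : 0 < κ) :
    ∃ s : ℝ, 0 < s ∧ 2 * arctan (tan (t / 2) * tanh s) ≤ κ := by
  have h2 : Tendsto (fun s : ℝ => 2 * arctan (tan (t / 2) * tanh s)) (𝓝 0) (𝓝 0) := by
    have h3 : Continuous fun s : ℝ => 2 * arctan (tan (t / 2) * (sinh s / cosh s)) := by
      have : Continuous fun s : ℝ => sinh s / cosh s :=
        continuous_sinh.div₀ continuous_cosh fun s => (cosh_pos s).ne'
      exact (continuous_arctan.comp (this.const_mul _)).const_mul _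
    have h4 := h3.tendsto 0
    simp only [sinh_zero, zero_div, mul_zero, arctan_zero] at h4
    simpa only [Real.tanh_eq_sinh_div_cosh] using h4
  have h5 : ∀ᶠ s : ℝ in 𝓝[>] 0, 2 * arctan (tan (t / 2) * tanh s) ≤ κ :=
    (h2.mono_left nhdsWithin_le_nhds).eventually (eventually_le_nhds hκ)
  obtain ⟨s, hs1, hs2⟩ := (h5.and self_mem_nhdsWithin).exists
  exact ⟨s, hs2, hs1⟩

end Pool.Agent.H66.OneArm

end

section

/-!
# The tridiagonal matrix commutes with the Pascal matrix, and common eigenvectors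
-/

open Matrix

namespace Pool.Agent.H66.OneArm

/-- Row `i` of `T B`. -/
noncomputable def rowS (n i j : ℕ) : ℝ :=
  (if i = 0 then 0 else offd n (i - 1) * ((i - 1 + j).choose (i - 1) : ℝ)) +
    diag n i * ((i + j).choose i : ℝ) + offd n i * ((i + 1 + j).choose (i + 1) : ℝ)

lemma rowS_eq (n i j : ℕ) : ((i : ℝ) + j) * rowS n i j = ((i + j).choose i : ℝ) *
    ((i : ℝ) ^ 2 * ((n : ℝ) ^ 2 - (i : ℝ) ^ 2) + ((i : ℝ) + j) * diag n i +
      ((i : ℝ) + j) * (((n : ℝ) ^ 2 - ((i : ℝ) + 1) ^ 2) * ((i : ℝ) + j + 1))) := by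
  have h2 : ((i : ℝ) + 1) * ((i + 1 + j).choose (i + 1) : ℝ) =
      ((i : ℝ) + j + 1) * ((i + j).choose i : ℝ) := by
    have h := Nat.add_one_mul_choose_eq (i + j) i
    have e : i + 1 + j = i + j + 1 := by omega
    rw [e]
    have h' : (((i + j + 1 : ℕ) : ℝ)) * ((i + j).choose i : ℝ) =
        ((i + j + 1).choose (i + 1) : ℝ) * ((i + 1 : ℕ) : ℝ) := by exact_mod_cast h
    push_cast at h' ⊢
    linarith
  unfold rowS
  rcases Nat.eq_zero_or_pos i with h0 | h0
  · subst h0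
    rw [if_pos rfl]
    unfold offd
    have : ((0 : ℕ) : ℝ) = 0 := Nat.cast_zero
    simp only [this] at h2 ⊢
    linear_combination ((j : ℝ) * ((n : ℝ) ^ 2 - (0 + 1) ^ 2)) * h2
  · rw [if_neg (by omega)]
    obtain ⟨k, rfl⟩ : ∃ k, i = k + 1 := ⟨i - 1, by omega⟩
    have h1 : ((k : ℝ) + 1 + j) * ((k + j).choose k : ℝ) =
        ((k : ℝ) + 1) * ((k + 1 + j).choose (k + 1) : ℝ) := by
      have h := Nat.add_one_mul_choose_eq (k + j) k
      have e : k + 1 + j = k + j + 1 := by omega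
      rw [e]
      have h' : (((k + j + 1 : ℕ) : ℝ)) * ((k + j).choose k : ℝ) =
          ((k + j + 1).choose (k + 1) : ℝ) * ((k + 1 : ℕ) : ℝ) := by exact_mod_cast h
      push_cast at h' ⊢
      linarith
    rw [Nat.add_sub_cancel]
    unfold offd
    push_cast at h2 ⊢
    linear_combination (((k : ℝ) + 1) * ((n : ℝ) ^ 2 - ((k : ℝ) + 1) ^ 2)) * h1 +
      (((k : ℝ) + 1 + j) * ((n : ℝ) ^ 2 - ((k : ℝ) + 1 + 1) ^ 2)) * h2

lemma rowS_symm (n i j : ℕ) : rowS n i j = rowS n j i := by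
  rcases Nat.eq_zero_or_pos (i + j) with h | h
  · have hi : i = 0 := by omega
    have hj : j = 0 := by omega
    rw [hi, hj]
  · have hpos : ((i : ℝ) + j) ≠ 0 := by
      have : (0 : ℝ) < ((i + j : ℕ) : ℝ) := by exact_mod_cast h
      push_cast at this
      exact this.ne'
    apply mul_left_cancel₀ hpos
    have e : ((i : ℝ) + j) * rowS n j i = ((j : ℝ) + i) * rowS n j i := by ring
    rw [e, rowS_eq, rowS_eq, add_comm j i, Nat.choose_symm_add]
    unfold diag
    ring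

lemma trid_mul_pasc_apply {n : ℕ} (i j : Fin n) : (trid n * pasc n) i j = rowS n i j := by
  have h1 : (trid n * pasc n) i j = (trid n *ᵥ fun k => pasc n k j) i := rfl
  have hi := i.2
  rw [h1, trid_mulVec]
  unfold rowS
  congr 1
  · congr 1
    by_cases h0 : (i : ℕ) = 0
    · rw [if_pos h0, if_pos h0]
    · rw [if_neg h0, if_neg h0, ext_of_lt _ (show (i : ℕ) - 1 < n by omega)]
      rfl
  · by_cases hlast : (i : ℕ) + 1 < n
    · rw [ext_of_lt _ hlast]
      rfl
    · have e : (i : ℕ) = n - 1 := by omega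
      rw [e, offd_last (by omega)]
      ring

/-- The tridiagonal matrix commutes with the Pascal matrix. -/
theorem trid_comm (n : ℕ) : trid n * pasc n = pasc n * trid n := by
  have h : (trid n * pasc n)ᵀ = pasc n * trid n := by
    rw [transpose_mul, (trid_isSymm n).eq, (pasc_isSymm n).eq]
  rw [← h]
  ext i j
  rw [transpose_apply, trid_mul_pasc_apply, trid_mul_pasc_apply, rowS_symm]

lemma offd_pos {n i : ℕ} (h : i + 1 < n) : 0 < offd n i := by
  unfold offd
  have h1 : (i : ℝ) + 1 < n := by exact_mod_cast h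
  have h2 : (0 : ℝ) ≤ i := Nat.cast_nonneg i
  refine mul_pos (by linarith) ?_
  nlinarith

/-- An eigenvector of the tridiagonal matrix is determined by its first component. -/
lemma eq_zero_of_first {n : ℕ} (v : Fin n → ℝ) (τ : ℝ) (hv : trid n *ᵥ v = τ • v)
    (h0 : ext v 0 = 0) : v = 0 := by
  have key : ∀ i, ext v i = 0 ∧ ext v (i + 1) = 0 := by
    intro i
    induction i with
    | zero =>
      refine ⟨h0, ?_⟩
      by_cases h1 : 0 + 1 < n
      · have h := congrFun hv ⟨0, by omega⟩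
        rw [trid_mulVec] at h
        simp only [Pi.smul_apply, smul_eq_mul] at h
        rw [ext_of_lt v (show 0 < n by omega)] at h0
        rw [if_pos trivial, h0] at h
        have h2 : offd n 0 * ext v (0 + 1) = 0 := by linarith
        rcases mul_eq_zero.mp h2 with h3 | h3
        · exact absurd h3 (offd_pos h1).ne'
        · exact h3
      · exact ext_of_le v (by omega)
    | succ i ih =>
      refine ⟨ih.2, ?_⟩
      by_cases h1 : i + 1 + 1 < n
      · have h := congrFun hv ⟨i + 1, by omega⟩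
        rw [trid_mulVec] at h
        simp only [Pi.smul_apply, smul_eq_mul] at h
        have e1 : v ⟨i + 1, by omega⟩ = 0 := by
          rw [← ext_of_lt v (show i + 1 < n by omega)]
          exact ih.2
        rw [if_neg (by omega), Nat.add_sub_cancel, ih.1, e1] at h
        have h2 : offd n (i + 1) * ext v (i + 1 + 1) = 0 := by linarith
        rcases mul_eq_zero.mp h2 with h3 | h3
        · exact absurd h3 (offd_pos h1).ne'
        · exact h3
      · exact ext_of_le v (by omega)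
  ext i
  have := (key i).1
  rw [ext_val] at this
  exact this

/-- An eigenvector of the tridiagonal matrix is an eigenvector of the Pascal matrix. -/
theorem pasc_mulVec {n : ℕ} (v : Fin n → ℝ) (τ : ℝ) (hv : trid n *ᵥ v = τ • v) (hv0 : v ≠ 0) :
    ext v 0 ≠ 0 ∧ pasc n *ᵥ v = ((∑ j, v j) / ext v 0) • v := by
  have h0 : ext v 0 ≠ 0 := fun h => hv0 (eq_zero_of_first v τ hv h)
  refine ⟨h0, ?_⟩
  have hn : 0 < n := by
    by_contra hcon
    exact h0 (ext_of_le v (by omega))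
  set w : Fin n → ℝ := pasc n *ᵥ v - ((∑ j, v j) / ext v 0) • v with hw
  have h1 : trid n *ᵥ w = τ • w := by
    rw [hw, mulVec_sub, mulVec_smul, mulVec_mulVec, trid_comm, ← mulVec_mulVec, hv, mulVec_smul,
      smul_sub, smul_comm]
  have h2 : ext w 0 = 0 := by
    rw [ext_of_lt w hn, hw]
    simp only [Pi.sub_apply, Pi.smul_apply, smul_eq_mul]
    have h3 : (pasc n *ᵥ v) ⟨0, hn⟩ = ∑ j, v j := by
      simp only [mulVec, dotProduct, pasc]
      exact Finset.sum_congr rfl fun j _ => by simp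
    rw [h3, ← ext_of_lt v hn, div_mul_cancel₀ _ h0, sub_self]
  have h3 := eq_zero_of_first w τ h1 h2
  rw [hw] at h3
  exact sub_eq_zero.mp h3

lemma dot_self_nonneg {n : ℕ} (v : Fin n → ℝ) : 0 ≤ v ⬝ᵥ v :=
  Finset.sum_nonneg fun i _ => mul_self_nonneg (v i)

/-- The eigenvalues of the Pascal matrix are positive. -/
lemma eigenvalue_pos {n : ℕ} (v : Fin n → ℝ) (lam : ℝ) (hv : pasc n *ᵥ v = lam • v)
    (hv0 : v ≠ 0) : 0 < lam := by
  have h1 : v ⬝ᵥ (pasc n *ᵥ v) = ((lowp n)ᵀ *ᵥ v) ⬝ᵥ ((lowp n)ᵀ *ᵥ v) := by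
    rw [pasc_eq, ← mulVec_mulVec, dotProduct_mulVec, mulVec_transpose]
  rw [hv, dotProduct_smul, smul_eq_mul] at h1
  have hpos : 0 < v ⬝ᵥ v := by
    refine lt_of_le_of_ne (dot_self_nonneg v) fun h => hv0 ?_
    exact (dotProduct_self_eq_zero.mp h.symm)
  have hpos2 : 0 < ((lowp n)ᵀ *ᵥ v) ⬝ᵥ ((lowp n)ᵀ *ᵥ v) := by
    refine lt_of_le_of_ne (dot_self_nonneg _) fun h => hv0 ?_
    have h2 := dotProduct_self_eq_zero.mp h.symm
    have hdet : IsUnit ((lowp n)ᵀ).det := by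
      rw [det_transpose, det_lowp]
      exact isUnit_one
    exact (Matrix.mulVec_injective_iff_isUnit.mpr ((Matrix.isUnit_iff_isUnit_det _).mpr hdet))
      (by rw [h2, mulVec_zero])
  rw [← h1] at hpos2
  exact (pos_iff_pos_of_mul_pos hpos2).mpr hpos

end Pool.Agent.H66.OneArm

end

section

/-!
# A trace inequality

If the vectors `u i` are nearly orthonormal and `H` is convex, then the sum of `H` over the squared
distances of the eigenvalues of a symmetric matrix from `c` is at least about the sum of `H` over the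
squared errors of the quasi-modes `u i`.
-/

open Matrix Finset

namespace Pool.Agent.H66.OneArm

variable {n : ℕ}

lemma dot_eq_inner (v w : EuclideanSpace ℝ (Fin n)) :
    inner ℝ v w = (v : Fin n → ℝ) ⬝ᵥ (w : Fin n → ℝ) := by
  rw [EuclideanSpace.inner_eq_star_dotProduct]
  simp [dotProduct_comm]

/-- Bessel inequality for nearly orthonormal vectors. -/
lemma bessel {ι : Type} [Fintype ι] [DecidableEq ι] (u : ι → Fin n → ℝ) {η : ℝ}
    (h : ∀ i j, |u i ⬝ᵥ u j - (if i = j then 1 else 0)| ≤ η) (v : Fin n → ℝ) :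
    ∑ i, (u i ⬝ᵥ v) ^ 2 ≤ (1 + η * Fintype.card ι) * (v ⬝ᵥ v) := by
  set c : ι → ℝ := fun i => u i ⬝ᵥ v with hc
  set S := ∑ i, c i ^ 2 with hS
  set y : Fin n → ℝ := ∑ i, c i • u i with hy
  have hS0 : 0 ≤ S := sum_nonneg fun i _ => sq_nonneg _
  have h1 : S = y ⬝ᵥ v := by
    rw [hy, sum_dotProduct]
    refine sum_congr rfl fun i _ => ?_
    rw [smul_dotProduct, smul_eq_mul, hc, sq]
  have h2 : y ⬝ᵥ y ≤ (1 + η * Fintype.card ι) * S := by
    have h3 : y ⬝ᵥ y = ∑ i, ∑ j, c i * c j * (u i ⬝ᵥ u j) := by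
      rw [hy, sum_dotProduct]
      refine sum_congr rfl fun i _ => ?_
      rw [smul_dotProduct, dotProduct_sum, smul_eq_mul, mul_sum]
      refine sum_congr rfl fun j _ => ?_
      rw [dotProduct_smul, smul_eq_mul]
      ring
    have h4 : ∀ i j, c i * c j * (u i ⬝ᵥ u j) ≤ (if i = j then c i ^ 2 else 0) +
        η * (|c i| * |c j|) := by
      intro i j
      have h5 := h i j
      have h6 : c i * c j * (u i ⬝ᵥ u j) = c i * c j * (u i ⬝ᵥ u j - (if i = j then 1 else 0)) +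
          (if i = j then c i ^ 2 else 0) := by
        split_ifs with hij
        · rw [hij]
          ring
        · ring
      rw [h6]
      have h7 : c i * c j * (u i ⬝ᵥ u j - (if i = j then 1 else 0)) ≤ η * (|c i| * |c j|) := by
        refine (le_abs_self _).trans ?_
        rw [abs_mul, abs_mul]
        have := mul_le_mul_of_nonneg_left h5 (mul_nonneg (abs_nonneg (c i)) (abs_nonneg (c j)))
        linarith
      linarith
    rw [h3]
    calc ∑ i, ∑ j, c i * c j * (u i ⬝ᵥ u j)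
        ≤ ∑ i, ∑ j, ((if i = j then c i ^ 2 else 0) + η * (|c i| * |c j|)) :=
          sum_le_sum fun i _ => sum_le_sum fun j _ => h4 i j
      _ = S + η * (∑ i, |c i|) ^ 2 := by
          simp only [sum_add_distrib, sum_ite_eq, mem_univ, if_true]
          rw [hS]
          congr 1
          simp only [← mul_sum]
          rw [sq, sum_mul]
      _ ≤ S + η * (Fintype.card ι * S) := by
          have hη : 0 ≤ η ∨ IsEmpty ι := by
            by_cases he : IsEmpty ι
            · exact Or.inr he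
            · rw [not_isEmpty_iff] at he
              obtain ⟨i⟩ := he
              exact Or.inl ((abs_nonneg _).trans (h i i))
          rcases hη with hη | he
          · have h8 : (∑ i, |c i|) ^ 2 ≤ Fintype.card ι * S := by
              have := sq_sum_le_card_mul_sum_sq (s := (univ : Finset ι)) (f := fun i => |c i|)
              simpa [sq_abs] using this
            have := mul_le_mul_of_nonneg_left h8 hη
            linarith
          · simp
      _ = (1 + η * Fintype.card ι) * S := by ring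
  have h5 : (y ⬝ᵥ v) ^ 2 ≤ (y ⬝ᵥ y) * (v ⬝ᵥ v) := by
    have := sum_mul_sq_le_sq_mul_sq (univ : Finset (Fin n)) y v
    simp only [dotProduct]
    simpa only [sq] using this
  have hv0 : 0 ≤ v ⬝ᵥ v := sum_nonneg fun i _ => mul_self_nonneg _
  rcases eq_or_lt_of_le hS0 with h0 | h0
  · rw [← h0] at h2 ⊢
    have hy0 : 0 ≤ y ⬝ᵥ y := sum_nonneg fun i _ => mul_self_nonneg _
    by_cases he : IsEmpty ι
    · have : Fintype.card ι = 0 := Fintype.card_eq_zero
      rw [this]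
      simpa using hv0
    · rw [not_isEmpty_iff] at he
      obtain ⟨i⟩ := he
      have hη : 0 ≤ η := (abs_nonneg _).trans (h i i)
      positivity
  · have h6 : S ^ 2 ≤ (1 + η * Fintype.card ι) * S * (v ⬝ᵥ v) := by
      calc S ^ 2 = (y ⬝ᵥ v) ^ 2 := by rw [h1]
        _ ≤ (y ⬝ᵥ y) * (v ⬝ᵥ v) := h5
        _ ≤ (1 + η * Fintype.card ι) * S * (v ⬝ᵥ v) := mul_le_mul_of_nonneg_right h2 hv0
    have h7 : S * S ≤ S * ((1 + η * Fintype.card ι) * (v ⬝ᵥ v)) := by nlinarith
    exact le_of_mul_le_mul_left h7 h0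

/-- **Trace inequality.** -/
theorem trace_lower (T : Matrix (Fin n) (Fin n) ℝ) (hT : T.IsHermitian) {ι : Type} [Fintype ι]
    (u : ι → Fin n → ℝ) {A : ℝ} (hA : 0 ≤ A)
    (hbessel : ∀ v : Fin n → ℝ, ∑ i, (u i ⬝ᵥ v) ^ 2 ≤ A * (v ⬝ᵥ v))
    (H : ℝ → ℝ) (hH : ConvexOn ℝ (Set.Ici 0) H) (hH0 : ∀ E, 0 ≤ E → 0 ≤ H E) (c : ℝ)
    (hu : ∀ i, 0 < u i ⬝ᵥ u i) :
    ∑ i, (u i ⬝ᵥ u i) * H (((T *ᵥ u i - c • u i) ⬝ᵥ (T *ᵥ u i - c • u i)) / (u i ⬝ᵥ u i)) ≤
      A * ∑ k, H ((hT.eigenvalues k - c) ^ 2) := by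
  set b := hT.eigenvectorBasis with hb
  have hbT : ∀ k, T *ᵥ (b k : Fin n → ℝ) = hT.eigenvalues k • (b k : Fin n → ℝ) := by
    intro k
    exact hT.mulVec_eigenvectorBasis k
  have hsym : ∀ x y : Fin n → ℝ, (T *ᵥ x) ⬝ᵥ y = x ⬝ᵥ (T *ᵥ y) := by
    intro x y
    have hTt : Tᵀ = T := by
      have := hT.eq
      rwa [conjTranspose_eq_transpose_of_trivial] at this
    rw [dotProduct_mulVec, ← mulVec_transpose, hTt]
  have hparseval : ∀ x : Fin n → ℝ, ∑ k, (x ⬝ᵥ (b k : Fin n → ℝ)) ^ 2 = x ⬝ᵥ x := by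
    intro x
    have h1 := b.sum_sq_norm_inner_right (WithLp.toLp 2 x)
    rw [← real_inner_self_eq_norm_sq, dot_eq_inner] at h1
    simp only [dot_eq_inner, Real.norm_eq_abs, sq_abs] at h1
    rw [← h1]
    refine sum_congr rfl fun k _ => ?_
    rw [dotProduct_comm]
  have hcoef : ∀ (x : Fin n → ℝ) (k), (T *ᵥ x - c • x) ⬝ᵥ (b k : Fin n → ℝ) =
      (hT.eigenvalues k - c) * (x ⬝ᵥ (b k : Fin n → ℝ)) := by
    intro x k
    rw [sub_dotProduct, hsym, hbT, dotProduct_smul, smul_dotProduct, smul_eq_mul, smul_eq_mul]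
    ring
  have hjensen : ∀ i, (u i ⬝ᵥ u i) *
      H (((T *ᵥ u i - c • u i) ⬝ᵥ (T *ᵥ u i - c • u i)) / (u i ⬝ᵥ u i)) ≤
        ∑ k, (u i ⬝ᵥ (b k : Fin n → ℝ)) ^ 2 * H ((hT.eigenvalues k - c) ^ 2) := by
    intro i
    have hpos := hu i
    have h1 := hH.map_sum_le (t := univ) (w := fun k => (u i ⬝ᵥ (b k : Fin n → ℝ)) ^ 2 / (u i ⬝ᵥ u i))
      (p := fun k => (hT.eigenvalues k - c) ^ 2) (fun k _ => by positivity)
      (by rw [← sum_div, hparseval, div_self hpos.ne']) (fun k _ => Set.mem_Ici.mpr (sq_nonneg _))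
    have h2 : ∑ k, ((u i ⬝ᵥ (b k : Fin n → ℝ)) ^ 2 / (u i ⬝ᵥ u i)) • (hT.eigenvalues k - c) ^ 2 =
        ((T *ᵥ u i - c • u i) ⬝ᵥ (T *ᵥ u i - c • u i)) / (u i ⬝ᵥ u i) := by
      rw [← hparseval (T *ᵥ u i - c • u i), sum_div]
      refine sum_congr rfl fun k _ => ?_
      rw [hcoef, smul_eq_mul]
      ring
    rw [h2] at h1
    have h3 := mul_le_mul_of_nonneg_left h1 hpos.le
    refine h3.trans (le_of_eq ?_)
    rw [mul_sum]
    refine sum_congr rfl fun k _ => ?_
    rw [smul_eq_mul]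
    field_simp
  calc ∑ i, (u i ⬝ᵥ u i) * H (((T *ᵥ u i - c • u i) ⬝ᵥ (T *ᵥ u i - c • u i)) / (u i ⬝ᵥ u i))
      ≤ ∑ i, ∑ k, (u i ⬝ᵥ (b k : Fin n → ℝ)) ^ 2 * H ((hT.eigenvalues k - c) ^ 2) :=
        sum_le_sum fun i _ => hjensen i
    _ = ∑ k, (∑ i, (u i ⬝ᵥ (b k : Fin n → ℝ)) ^ 2) * H ((hT.eigenvalues k - c) ^ 2) := by
        rw [sum_comm]
        exact sum_congr rfl fun k _ => by rw [sum_mul]
    _ ≤ ∑ k, A * H ((hT.eigenvalues k - c) ^ 2) := by
        refine sum_le_sum fun k _ => mul_le_mul_of_nonneg_right ?_ (hH0 _ (sq_nonneg _))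
        refine (hbessel _).trans (le_of_eq ?_)
        have : (b k : Fin n → ℝ) ⬝ᵥ (b k : Fin n → ℝ) = 1 := by
          rw [← dot_eq_inner, real_inner_self_eq_norm_sq, b.norm_eq_one]
          norm_num
        rw [this, mul_one]
    _ = A * ∑ k, H ((hT.eigenvalues k - c) ^ 2) := by rw [mul_sum]

end Pool.Agent.H66.OneArm

end

section

/-!
# Spectral description of the Pascal matrix
-/

open Matrix Finset Real

namespace Pool.Agent.H66.OneArm

/-- The rescaled tridiagonal matrix. -/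
noncomputable def TT (n : ℕ) : Matrix (Fin n) (Fin n) ℝ := ((n : ℝ) ^ 2)⁻¹ • trid n

lemma TT_herm (n : ℕ) : (TT n).IsHermitian := by
  unfold Matrix.IsHermitian
  rw [conjTranspose_eq_transpose_of_trivial]
  unfold TT
  rw [transpose_smul, (trid_isSymm n).eq]

/-- The eigenvectors. -/
noncomputable def evec (n : ℕ) (k : Fin n) : Fin n → ℝ := ((TT_herm n).eigenvectorBasis k : Fin n → ℝ)

/-- The eigenvalues of the Pascal matrix. -/
noncomputable def lam (n : ℕ) (k : Fin n) : ℝ := (∑ j, evec n k j) / ext (evec n k) 0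

noncomputable def mu (n : ℕ) (k : Fin n) : ℝ := log (lam n k)

lemma evec_ne_zero (n : ℕ) (k : Fin n) : evec n k ≠ 0 := by
  intro h
  have h1 := (TT_herm n).eigenvectorBasis.norm_eq_one k
  have h2 : ((TT_herm n).eigenvectorBasis k) = 0 := by
    ext i
    exact congrFun h i
  rw [h2, norm_zero] at h1
  exact zero_ne_one h1

lemma TT_mulVec (n : ℕ) (k : Fin n) :
    TT n *ᵥ evec n k = (TT_herm n).eigenvalues k • evec n k :=
  (TT_herm n).mulVec_eigenvectorBasis k

lemma trid_mulVec_evec (n : ℕ) (k : Fin n) :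
    trid n *ᵥ evec n k = ((n : ℝ) ^ 2 * (TT_herm n).eigenvalues k) • evec n k := by
  have hn : (n : ℝ) ^ 2 ≠ 0 := by
    have : 0 < n := Fin.pos k
    positivity
  have h := TT_mulVec n k
  have e : TT n *ᵥ evec n k = ((n : ℝ) ^ 2)⁻¹ • (trid n *ᵥ evec n k) := by
    unfold TT
    rw [smul_mulVec]
  rw [← smul_smul, ← h, e, smul_smul, mul_inv_cancel₀ hn, one_smul]

lemma pasc_mulVec_evec (n : ℕ) (k : Fin n) :
    ext (evec n k) 0 ≠ 0 ∧ pasc n *ᵥ evec n k = lam n k • evec n k :=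
  pasc_mulVec (evec n k) _ (trid_mulVec_evec n k) (evec_ne_zero n k)

lemma lam_pos (n : ℕ) (k : Fin n) : 0 < lam n k :=
  eigenvalue_pos (evec n k) _ (pasc_mulVec_evec n k).2 (evec_ne_zero n k)

lemma exp_mu (n : ℕ) (k : Fin n) : exp (mu n k) = lam n k := Real.exp_log (lam_pos n k)

/-- The matrix of eigenvectors. -/
noncomputable def UU (n : ℕ) : Matrix (Fin n) (Fin n) ℝ := fun i k => evec n k i

lemma UU_orth (n : ℕ) : (UU n)ᵀ * UU n = 1 := by
  ext i j
  rw [mul_apply]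
  have h := orthonormal_iff_ite.mp (TT_herm n).eigenvectorBasis.orthonormal i j
  rw [dot_eq_inner] at h
  rw [one_apply]
  simp only [dotProduct] at h
  exact h

lemma det_UU_ne (n : ℕ) : (UU n).det ≠ 0 := by
  intro h
  have h1 := congrArg det (UU_orth n)
  rw [det_mul, det_transpose, h, det_one, zero_mul] at h1
  exact zero_ne_one h1

lemma pasc_mul_UU (n : ℕ) : pasc n * UU n = UU n * diagonal (lam n) := by
  ext i k
  rw [mul_diagonal]
  have h := congrFun (pasc_mulVec_evec n k).2 i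
  rw [Pi.smul_apply, smul_eq_mul] at h
  have h2 : (pasc n * UU n) i k = (pasc n *ᵥ evec n k) i := rfl
  rw [h2, h, mul_comm]
  rfl

/-- The characteristic determinant. -/
theorem det_eq_prod (n : ℕ) (w : ℝ) :
    (1 + w • pasc n + pasc n ^ 2).det = ∏ k, (1 + w * lam n k + lam n k ^ 2) := by
  have h1 : (1 + w • pasc n + pasc n ^ 2) * UU n =
      UU n * diagonal (fun k => 1 + w * lam n k + lam n k ^ 2) := by
    have h2 : pasc n ^ 2 * UU n = UU n * diagonal (fun k => lam n k ^ 2) := by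
      rw [pow_two, mul_assoc, pasc_mul_UU, ← mul_assoc, pasc_mul_UU, mul_assoc, diagonal_mul_diagonal]
      simp only [pow_two]
    have h3 : (diagonal (fun k => 1 + w * lam n k + lam n k ^ 2) : Matrix (Fin n) (Fin n) ℝ) =
        1 + w • diagonal (lam n) + diagonal (fun k => lam n k ^ 2) := by
      ext i j
      by_cases hij : i = j
      · subst hij
        simp
      · simp [hij]
    rw [h3, add_mul, add_mul, one_mul, smul_mul_assoc, pasc_mul_UU, h2, mul_add, mul_add, mul_one,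
      mul_smul_comm]
  have h4 := congrArg det h1
  rw [det_mul, det_mul, mul_comm, det_diagonal] at h4
  exact mul_left_cancel₀ (det_UU_ne n) h4

lemma prod_lam (n : ℕ) : ∏ k, lam n k = 1 := by
  have h4 := congrArg det (pasc_mul_UU n)
  rw [det_mul, det_mul, mul_comm, det_diagonal, det_pasc] at h4
  exact (mul_left_cancel₀ (det_UU_ne n) h4).symm

theorem det_eq_prod_cosh (n : ℕ) (w : ℝ) :
    (1 + w • pasc n + pasc n ^ 2).det = ∏ k, (w + 2 * cosh (mu n k)) := by
  rw [det_eq_prod]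
  have h : ∀ k ∈ (univ : Finset (Fin n)), 1 + w * lam n k + lam n k ^ 2 =
      lam n k * (w + 2 * cosh (mu n k)) := by
    intro k _
    rw [cosh_eq, exp_neg, exp_mu]
    have := (lam_pos n k).ne'
    field_simp
    ring
  rw [Finset.prod_congr rfl h, Finset.prod_mul_distrib, prod_lam, one_mul]

end Pool.Agent.H66.OneArm

end

section

/-!
# A squeeze argument for sums over a spectrum
-/

set_option autoImplicit false

open Real Filter Topology

namespace Pool.Agent.H66.OneArm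

/-- Geometry of the interval `[π / 3, 2 π / 3]`. -/
private lemma squeeze_sin_ge {t : ℝ} (h1 : π / 3 ≤ t) (h2 : t ≤ 2 * π / 3) : 1 / 2 ≤ sin t := by
  have hπ := Real.pi_pos
  rcases le_total t (π / 2) with h | h
  · have : sin (π / 6) ≤ sin t :=
      Real.sin_le_sin_of_le_of_le_pi_div_two (by linarith) h (by linarith)
    rwa [Real.sin_pi_div_six] at this
  · have : sin (π / 6) ≤ sin (π - t) :=
      Real.sin_le_sin_of_le_of_le_pi_div_two (by linarith) (by linarith) (by linarith)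
    rwa [Real.sin_pi_div_six, Real.sin_pi_sub] at this

private lemma squeeze_cos_ge {t : ℝ} (h1 : π / 3 ≤ t) (h2 : t ≤ 2 * π / 3) :
    -(1 / 2) ≤ cos t := by
  have hπ := Real.pi_pos
  have h : cos (2 * π / 3) ≤ cos t :=
    Real.cos_le_cos_of_nonneg_of_le_pi (by linarith) (by linarith) h2
  have e : cos (2 * π / 3) = -(1 / 2) := by
    have : 2 * π / 3 = π - π / 3 := by ring
    rw [this, Real.cos_pi_sub, Real.cos_pi_div_three]
  rwa [e] at h

/-- The elementary lower bound for the difference of cosines. -/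
private lemma squeeze_cos_diff {s h : ℝ} (h1 : π / 3 ≤ s) (h2 : s ≤ 2 * π / 3) (hh : 0 < h)
    (hh1 : h ≤ 1) : (h - 2 * h ^ 2) * sin s ≤ cos s - cos (s + h) := by
  have hs := squeeze_sin_ge h1 h2
  have hc := squeeze_cos_ge h1 h2
  rw [Real.cos_add]
  have f1 : 1 - h ^ 2 / 2 ≤ cos h := Real.one_sub_sq_div_two_le_cos
  have f2 : h - h ^ 3 / 4 < sin h := by
    have f0 := Real.sin_gt_sub_cube hh
    have f00 : 0 < h ^ 3 := by positivity
    linarith
  have f3 : cos h ≤ 1 := Real.cos_le_one h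
  have g1 : -(sin s * (h ^ 2 / 2)) ≤ cos s * (1 - cos h) := by
    have a1 : -(sin s) * (1 - cos h) ≤ cos s * (1 - cos h) :=
      mul_le_mul_of_nonneg_right (by linarith) (by linarith)
    have a2 : sin s * (1 - cos h) ≤ sin s * (h ^ 2 / 2) :=
      mul_le_mul_of_nonneg_left (by linarith) (by linarith)
    linarith
  have g2 : sin s * (h - h ^ 3 / 4) ≤ sin s * sin h :=
    mul_le_mul_of_nonneg_left f2.le (by linarith)
  have g3 : (h - 2 * h ^ 2) * sin s ≤ sin s * (h - h ^ 3 / 4) - sin s * (h ^ 2 / 2) := by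
    have : 0 ≤ sin s * (h ^ 2 * (3 / 2 - h / 4)) := by
      apply mul_nonneg (by linarith)
      apply mul_nonneg (sq_nonneg h)
      linarith
    nlinarith [this]
  have e : cos s - (cos s * cos h - sin s * sin h) = cos s * (1 - cos h) + sin s * sin h := by
    ring
  rw [e]
  linarith

/-- The sum of logarithms. -/
private noncomputable def FF {κ : Type} [Fintype κ] (μ : κ → ℝ) (t : ℝ) : ℝ :=
  ∑ k, log (2 * cos t + 2 * cosh (μ k))

private lemma squeeze_pos {t : ℝ} (h1 : π / 3 ≤ t) (h2 : t ≤ 2 * π / 3) (x : ℝ) :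
    0 < cos t + cosh x := by
  have := squeeze_cos_ge h1 h2
  have := Real.one_le_cosh x
  linarith

/-- One step. -/
private lemma squeeze_step {κ : Type} [Fintype κ] (μ : κ → ℝ) {s h δ Lg : ℝ} (h1 : π / 3 ≤ s)
    (h2 : s + h ≤ 2 * π / 3) (hh : 0 < h) (hh1 : h ≤ 1 / 2) (hδ0 : 0 ≤ δ)
    (hδ1 : δ ≤ 1 / 4)
    (hL : 0 ≤ Lg)
    (hS : (3 * s / π ^ 2 - δ) * Lg ≤ ∑ k, sin s / (cos s + cosh (μ k))) :
    (3 / (2 * π ^ 2) * ((s + h) ^ 2 - s ^ 2) - h * (δ + 2 * h)) * Lg ≤
      FF μ s - FF μ (s + h) := by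
  have hπ := Real.pi_pos
  have hπ3 := Real.pi_gt_three
  have hπ4 := Real.pi_lt_four
  have hs2 : s ≤ 2 * π / 3 := by linarith
  have hs0 : 0 < s := by linarith
  have hsin := squeeze_sin_ge h1 hs2
  have hcd := squeeze_cos_diff h1 hs2 hh (by linarith)
  have hκ0 : 0 ≤ (h - 2 * h ^ 2) * sin s := by
    apply mul_nonneg _ (by linarith)
    nlinarith
  -- termwise
  have hterm : ∀ k, (cos s - cos (s + h)) / sin s * (sin s / (cos s + cosh (μ k))) ≤
      log (2 * cos s + 2 * cosh (μ k)) - log (2 * cos (s + h) + 2 * cosh (μ k)) := by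
    intro k
    have p1 := squeeze_pos h1 hs2 (μ k)
    have p2 := squeeze_pos (t := s + h) (by linarith) h2 (μ k)
    have hx : 0 < 2 * cos s + 2 * cosh (μ k) := by linarith
    have hy : 0 < 2 * cos (s + h) + 2 * cosh (μ k) := by linarith
    have hlog := Real.log_le_sub_one_of_pos (div_pos hy hx)
    rw [Real.log_div hy.ne' hx.ne'] at hlog
    have e1 : (cos s - cos (s + h)) / sin s * (sin s / (cos s + cosh (μ k))) =
        1 - (2 * cos (s + h) + 2 * cosh (μ k)) / (2 * cos s + 2 * cosh (μ k)) := by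
      have : sin s ≠ 0 := by linarith
      field_simp
      ring
    rw [e1]
    linarith
  have hsum : (cos s - cos (s + h)) / sin s * ∑ k, sin s / (cos s + cosh (μ k)) ≤
      FF μ s - FF μ (s + h) := by
    unfold FF
    rw [Finset.mul_sum, ← Finset.sum_sub_distrib]
    exact Finset.sum_le_sum fun k _ => hterm k
  have hκ : h - 2 * h ^ 2 ≤ (cos s - cos (s + h)) / sin s := by
    rw [le_div_iff₀ (by linarith)]
    exact hcd
  have hκ1 : 0 ≤ h - 2 * h ^ 2 := by nlinarith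
  have hden : 0 ≤ 3 * s / π ^ 2 - δ := by
    have : 1 / 4 ≤ 3 * s / π ^ 2 := by
      rw [div_le_div_iff₀ (by norm_num) (by positivity)]
      nlinarith
    linarith
  have hstep : (h - 2 * h ^ 2) * ((3 * s / π ^ 2 - δ) * Lg) ≤ FF μ s - FF μ (s + h) := by
    calc (h - 2 * h ^ 2) * ((3 * s / π ^ 2 - δ) * Lg)
        ≤ (cos s - cos (s + h)) / sin s * ((3 * s / π ^ 2 - δ) * Lg) :=
          mul_le_mul_of_nonneg_right hκ (mul_nonneg hden hL)
      _ ≤ (cos s - cos (s + h)) / sin s * ∑ k, sin s / (cos s + cosh (μ k)) :=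
          mul_le_mul_of_nonneg_left hS (hκ1.trans hκ)
      _ ≤ _ := hsum
  refine le_trans ?_ hstep
  rw [← mul_assoc]
  apply mul_le_mul_of_nonneg_right _ hL
  -- numeric comparison
  have hq : 0 < π ^ 2 := by positivity
  have e1 : 3 / (2 * π ^ 2) * ((s + h) ^ 2 - s ^ 2) = 3 * s / π ^ 2 * h + 3 / (2 * π ^ 2) * h ^ 2 := by
    field_simp
    ring
  have e2 : 3 / (2 * π ^ 2) ≤ 1 / 6 := by
    rw [div_le_div_iff₀ (by positivity) (by norm_num)]
    nlinarith
  have e3 : 3 * s / π ^ 2 ≤ 2 / 3 := by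
    rw [div_le_div_iff₀ (by positivity) (by norm_num)]
    nlinarith
  have e4 : 3 / (2 * π ^ 2) * h ^ 2 ≤ 1 / 6 * h ^ 2 :=
    mul_le_mul_of_nonneg_right e2 (sq_nonneg h)
  have e5 : 3 * s / π ^ 2 * (2 * h ^ 2) ≤ 2 / 3 * (2 * h ^ 2) :=
    mul_le_mul_of_nonneg_right e3 (by positivity)
  have e6 : 0 ≤ δ * h ^ 2 := by positivity
  rw [e1]
  have key : (h - 2 * h ^ 2) * (3 * s / π ^ 2 - δ) = 3 * s / π ^ 2 * h - 3 * s / π ^ 2 * (2 * h ^ 2)
      - δ * h + 2 * (δ * h ^ 2) := by ring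
  rw [key]
  nlinarith [sq_nonneg h]

/-- The lower bound for the difference over an interval. -/
private lemma squeeze_lower {ι : ℕ → Type} [∀ n, Fintype (ι n)] (μ : ∀ n, ι n → ℝ)
    (hlow : ∀ t, 0 < t → t < π → ∀ ε > 0, ∀ᶠ n : ℕ in atTop,
      (3 * t / π ^ 2 - ε) * log n ≤ ∑ k, sin t / (cos t + cosh (μ n k)))
    {a b : ℝ} (ha : π / 3 ≤ a) (hab : a ≤ b) (hb : b ≤ 2 * π / 3) {ε : ℝ} (hε : 0 < ε) :
    ∀ᶠ n : ℕ in atTop, (3 / (2 * π ^ 2) * (b ^ 2 - a ^ 2) - ε) * log n ≤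
      FF (μ n) a - FF (μ n) b := by
  have hπ := Real.pi_pos
  have hπ4 := Real.pi_lt_four
  rcases hab.eq_or_lt with rfl | hlt
  · filter_upwards [eventually_ge_atTop 1] with n hn
    have : 0 ≤ log (n : ℝ) := Real.log_nonneg (by exact_mod_cast hn)
    nlinarith
  -- the partition
  set D := b - a with hD
  have hD0 : 0 < D := by linarith
  have hD2 : D ≤ 2 := by linarith
  obtain ⟨N, hN⟩ := exists_nat_gt (max (2 * D) (8 * D / ε))
  have hN1 : 2 * D < N := lt_of_le_of_lt (le_max_left _ _) hN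
  have hN2 : 8 * D / ε < N := lt_of_le_of_lt (le_max_right _ _) hN
  have hN0 : (0 : ℝ) < N := by linarith
  set h := D / N with hh
  have hh0 : 0 < h := by positivity
  have hh1 : h ≤ 1 / 2 := by
    rw [hh, div_le_div_iff₀ hN0 (by norm_num)]
    linarith
  have hh2 : h ≤ ε / 8 := by
    rw [hh, div_le_div_iff₀ hN0 (by norm_num)]
    rw [div_lt_iff₀ hε] at hN2
    linarith
  have hNh : N * h = D := by
    rw [hh]
    field_simp
  set δ := min (1 / 4) (ε / 4) with hδ
  have hδ0 : 0 < δ := lt_min (by norm_num) (by linarith)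
  have hδ1 : δ ≤ 1 / 4 := min_le_left _ _
  have hδ2 : δ ≤ ε / 4 := min_le_right _ _
  have ht : ∀ i : ℕ, i < N → a + (i + 1 : ℕ) * h ≤ b := by
    intro i hi
    have : ((i + 1 : ℕ) : ℝ) ≤ N := by exact_mod_cast hi
    have := mul_le_mul_of_nonneg_right this hh0.le
    linarith
  have hev : ∀ᶠ n : ℕ in atTop, ∀ i ∈ Finset.range N,
      (3 * (a + i * h) / π ^ 2 - δ) * log n ≤
        ∑ k, sin (a + i * h) / (cos (a + i * h) + cosh (μ n k)) := by
    rw [Filter.eventually_all_finset]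
    intro i hi
    rw [Finset.mem_range] at hi
    have h1 : (0 : ℝ) ≤ i * h := by positivity
    have h2 := ht i hi
    push_cast at h2
    exact hlow (a + i * h) (by linarith) (by linarith) δ hδ0
  filter_upwards [hev, eventually_ge_atTop 1] with n hn hn1
  have hL : 0 ≤ log (n : ℝ) := Real.log_nonneg (by exact_mod_cast hn1)
  have hstep : ∀ i ∈ Finset.range N,
      (3 / (2 * π ^ 2) * ((a + (i + 1 : ℕ) * h) ^ 2 - (a + i * h) ^ 2) - h * (δ + 2 * h)) *
        log n ≤ FF (μ n) (a + i * h) - FF (μ n) (a + (i + 1 : ℕ) * h) := by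
    intro i hi
    have hi' := Finset.mem_range.1 hi
    have h1 : (0 : ℝ) ≤ i * h := by positivity
    have h2 := ht i hi'
    have e : a + ((i + 1 : ℕ) : ℝ) * h = a + i * h + h := by push_cast; ring
    rw [e] at h2 ⊢
    exact squeeze_step (μ n) (by linarith) (by linarith) hh0 hh1 hδ0.le hδ1 hL (hn i hi)
  have hsum := Finset.sum_le_sum hstep
  rw [← Finset.sum_mul, Finset.sum_range_sub' (fun i : ℕ => FF (μ n) (a + i * h)),
    Finset.sum_sub_distrib, ← Finset.mul_sum,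
    Finset.sum_range_sub (fun i : ℕ => (a + i * h) ^ 2)] at hsum
  simp only [Nat.cast_zero, zero_mul, add_zero, Finset.sum_const, Finset.card_range,
    nsmul_eq_mul] at hsum
  have e1 : a + (N : ℝ) * h = b := by rw [hNh, hD]; ring
  rw [e1] at hsum
  refine le_trans ?_ hsum
  apply mul_le_mul_of_nonneg_right _ hL
  have e2 : (N : ℝ) * (h * (δ + 2 * h)) = D * (δ + 2 * h) := by rw [← mul_assoc, hNh]
  rw [e2]
  have e3 : D * (δ + 2 * h) ≤ 2 * (ε / 4 + 2 * (ε / 8)) := by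
    apply mul_le_mul hD2 (by linarith) (by positivity) (by norm_num)
  linarith

/-- The difference of the sums of logarithms as a sum of logarithms of quotients. -/
private lemma squeeze_FF_sub {κ : Type} [Fintype κ] (μ : κ → ℝ) {a b : ℝ} (ha : π / 3 ≤ a)
    (ha' : a ≤ 2 * π / 3) (hb : π / 3 ≤ b) (hb' : b ≤ 2 * π / 3) :
    ∑ k, log ((2 * cos a + 2 * cosh (μ k)) / (2 * cos b + 2 * cosh (μ k))) =
      FF μ a - FF μ b := by
  unfold FF
  rw [← Finset.sum_sub_distrib]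
  refine Finset.sum_congr rfl fun k _ => ?_
  have p1 := squeeze_pos ha ha' (μ k)
  have p2 := squeeze_pos hb hb' (μ k)
  rw [Real.log_div (by linarith) (by linarith)]

theorem squeeze {ν : ℕ → ℕ} (hν : Tendsto ν atTop atTop) {ι : ℕ → Type} [∀ n, Fintype (ι n)] (μ : ∀ n, ι n → ℝ)
    (hlow : ∀ t, 0 < t → t < π → ∀ ε > 0, ∀ᶠ n : ℕ in atTop, (3 * t / π ^ 2 - ε) * log n ≤ ∑ k, sin t / (cos t + cosh (μ n k)))
    (htot : Tendsto (fun m => (∑ k, log ((1 + 2 * cosh (μ (ν m) k)) / (-1 + 2 * cosh (μ (ν m) k)))) / log (ν m)) atTop (𝓝 (1 / 2)))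
    {θ : ℝ} (hθ : π / 3 ≤ θ) (hθ' : θ ≤ 2 * π / 3) :
    Tendsto (fun m => (∑ k, log ((1 + 2 * cosh (μ (ν m) k)) / (2 * cos θ + 2 * cosh (μ (ν m) k)))) / log (ν m)) atTop (𝓝 (3 / (2 * π ^ 2) * (θ ^ 2 - π ^ 2 / 9))) := by
  have hπ := Real.pi_pos
  have c1 : (1 : ℝ) = 2 * cos (π / 3) := by rw [Real.cos_pi_div_three]; norm_num
  have c2 : (-1 : ℝ) = 2 * cos (2 * π / 3) := by
    have : 2 * π / 3 = π - π / 3 := by ring
    rw [this, Real.cos_pi_sub, Real.cos_pi_div_three]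
    norm_num
  have A0 : π / 3 ≤ π / 3 := le_rfl
  have A1 : π / 3 ≤ 2 * π / 3 := by linarith
  have A2 : 2 * π / 3 ≤ 2 * π / 3 := le_rfl
  have E1 : ∀ n : ℕ, ∑ k, log ((1 + 2 * cosh (μ n k)) / (-1 + 2 * cosh (μ n k))) =
      FF (μ n) (π / 3) - FF (μ n) (2 * π / 3) := by
    intro n
    rw [← squeeze_FF_sub (μ n) A0 A1 A1 A2, ← c1, ← c2]
  have E2 : ∀ n : ℕ, ∑ k, log ((1 + 2 * cosh (μ n k)) / (2 * cos θ + 2 * cosh (μ n k))) =
      FF (μ n) (π / 3) - FF (μ n) θ := by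
    intro n
    rw [← squeeze_FF_sub (μ n) A0 A1 hθ hθ', ← c1]
  simp only [E1] at htot
  simp only [E2]
  rw [Metric.tendsto_atTop] at htot ⊢
  intro ε hε
  obtain ⟨N1, hN1⟩ := htot (ε / 4) (by linarith)
  have L1 := hν.eventually (squeeze_lower μ hlow A0 hθ hθ' (ε := ε / 4) (by linarith))
  have L2 := hν.eventually (squeeze_lower μ hlow hθ hθ' A2 (ε := ε / 4) (by linarith))
  have L3 := hν.eventually (eventually_ge_atTop 2)
  obtain ⟨N2, hN2⟩ := ((L1.and L2).and L3).exists_forall_of_atTop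
  refine ⟨max N1 N2, fun m hm => ?_⟩
  have h1 := hN1 m ((le_max_left _ _).trans hm)
  obtain ⟨⟨h2, h3⟩, h4⟩ := hN2 m ((le_max_right _ _).trans hm)
  have hlog : 0 < log (ν m : ℝ) := Real.log_pos (by exact_mod_cast h4)
  rw [Real.dist_eq, abs_lt] at h1 ⊢
  set X := FF (μ (ν m)) (π / 3)
  set Y := FF (μ (ν m)) θ
  set Z := FF (μ (ν m)) (2 * π / 3)
  have e1 : (X - Z) / log (ν m : ℝ) = (X - Y) / log (ν m : ℝ) + (Y - Z) / log (ν m : ℝ) := by
    rw [← add_div]; congr 1; ring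
  have f2 := (le_div_iff₀ hlog).2 h2
  have f3 := (le_div_iff₀ hlog).2 h3
  have e2 : 3 / (2 * π ^ 2) * ((2 * π / 3) ^ 2 - θ ^ 2) =
      1 / 2 - 3 / (2 * π ^ 2) * (θ ^ 2 - π ^ 2 / 9) := by
    field_simp
    ring
  have e3 : 3 / (2 * π ^ 2) * (θ ^ 2 - (π / 3) ^ 2) = 3 / (2 * π ^ 2) * (θ ^ 2 - π ^ 2 / 9) := by
    ring
  rw [e2] at f3
  rw [e3] at f2
  rw [e1] at h1
  obtain ⟨h5, h6⟩ := h1
  constructor <;> linarith

end Pool.Agent.H66.OneArm

end
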