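import Pool.Agent.H31.PT.M41

/-! The parts of this file: H66.OneArm.QuasiC, H66.OneArm.QuasiD, H66.OneArm.QuasiE, H66.OneArm.QuasiF, H66.OneArm.QuasiG, H66.OneArm.QuasiH, H66.OneArm.QuasiI, H66.OneArm.QuasiJ, H66.OneArm.QuasiK, H66.OneArm.LowerB. -/

section

/-!
# Oscillating sums: the phases average out
-/

open Finset Real

namespace Pool.Agent.H66.OneArm

/-- `√(3 - 4 b²/n²)`. -/
noncomputable def aa (n : ℕ) (b : ℝ) : ℝ := √(3 - 4 * (b ^ 2 / (n : ℝ) ^ 2))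

/-- `(1 - 2x)/√(3-4x) = (a - 1/a)/2`. -/
noncomputable def rr (n : ℕ) (b : ℝ) : ℝ := (aa n b - 1 / aa n b) / 2

/-- `1/(ρ² - 1)`. -/
noncomputable def tau (n : ℕ) (b : ℝ) : ℂ := ⟨-(1 / 2), -(rr n b / 2)⟩

lemma aa_sq {n : ℕ} {b : ℝ} (hb : 0 ≤ b) (hbn : b ≤ n / 2) :
    aa n b ^ 2 = 3 - 4 * (b ^ 2 / (n : ℝ) ^ 2) := by
  have h := sq_div_le hb hbn
  unfold aa
  rw [Real.sq_sqrt (by linarith)]

lemma one_le_aa {n : ℕ} {b : ℝ} (hb : 0 ≤ b) (hbn : b ≤ n / 2) : 1 ≤ aa n b := by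
  have h := sq_div_le hb hbn
  unfold aa
  rw [Real.one_le_sqrt]
  linarith

lemma aa_le {n : ℕ} {b : ℝ} (hb : 0 ≤ b) (hbn : b ≤ n / 2) : aa n b ≤ 2 := by
  have h : (0 : ℝ) ≤ b ^ 2 / (n : ℝ) ^ 2 := by positivity
  unfold aa
  rw [Real.sqrt_le_left (by norm_num)]
  linarith

lemma abs_rr_le {n : ℕ} {b : ℝ} (hb : 0 ≤ b) (hbn : b ≤ n / 2) : |rr n b| ≤ 1 := by
  have h1 := one_le_aa hb hbn
  have h2 := aa_le hb hbn
  have h3 : 1 / aa n b ≤ 1 := by
    rw [div_le_one (by linarith)]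
    exact h1
  have h4 : 0 ≤ 1 / aa n b := by positivity
  unfold rr
  rw [abs_le]
  constructor <;> linarith

lemma norm_tau_le {n : ℕ} {b : ℝ} (hb : 0 ≤ b) (hbn : b ≤ n / 2) : ‖tau n b‖ ≤ 1 := by
  have h1 := abs_rr_le hb hbn
  refine (Complex.norm_le_abs_re_add_abs_im _).trans ?_
  unfold tau
  simp only [abs_neg, abs_div]
  rw [abs_of_pos (show (0 : ℝ) < 2 by norm_num), abs_one]
  linarith

lemma abs_rr_sub_le {n : ℕ} {b b' : ℝ} (hb : 0 ≤ b) (hbn : b ≤ n / 2) (hb' : 0 ≤ b')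
    (hbn' : b' ≤ n / 2) :
    |rr n b - rr n b'| ≤ 2 * |b ^ 2 / (n : ℝ) ^ 2 - b' ^ 2 / (n : ℝ) ^ 2| := by
  have h1 := one_le_aa hb hbn
  have h2 := one_le_aa hb' hbn'
  have e1 : rr n b - rr n b' = (aa n b - aa n b') * ((1 + 1 / (aa n b * aa n b')) / 2) := by
    unfold rr
    field_simp
    ring
  have e2 : (aa n b - aa n b') * (aa n b + aa n b') =
      -4 * (b ^ 2 / (n : ℝ) ^ 2 - b' ^ 2 / (n : ℝ) ^ 2) := by
    have h3 := aa_sq hb hbn
    have h4 := aa_sq hb' hbn'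
    linear_combination h3 - h4
  have h5 : |(1 + 1 / (aa n b * aa n b')) / 2| ≤ 1 := by
    have h6 : 1 / (aa n b * aa n b') ≤ 1 := by
      rw [div_le_one (by positivity)]
      nlinarith
    have h7 : 0 ≤ 1 / (aa n b * aa n b') := by positivity
    rw [abs_le]
    constructor <;> linarith
  have h8 : |aa n b - aa n b'| * 2 ≤ 4 * |b ^ 2 / (n : ℝ) ^ 2 - b' ^ 2 / (n : ℝ) ^ 2| := by
    have h9 := congrArg abs e2
    rw [abs_mul, abs_mul, abs_neg, abs_of_pos (show (0 : ℝ) < 4 by norm_num),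
      abs_of_pos (show 0 < aa n b + aa n b' by linarith)] at h9
    rw [← h9]
    exact mul_le_mul_of_nonneg_left (by linarith) (abs_nonneg _)
  rw [e1, abs_mul]
  calc |aa n b - aa n b'| * |(1 + 1 / (aa n b * aa n b')) / 2|
      ≤ |aa n b - aa n b'| * 1 := mul_le_mul_of_nonneg_left h5 (abs_nonneg _)
    _ ≤ _ := by linarith

lemma norm_tau_sub_le {n : ℕ} {b b' : ℝ} (hb : 0 ≤ b) (hbn : b ≤ n / 2) (hb' : 0 ≤ b')
    (hbn' : b' ≤ n / 2) :
    ‖tau n b - tau n b'‖ ≤ |b ^ 2 / (n : ℝ) ^ 2 - b' ^ 2 / (n : ℝ) ^ 2| := by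
  have h := abs_rr_sub_le hb hbn hb' hbn'
  refine (Complex.norm_le_abs_re_add_abs_im _).trans ?_
  unfold tau
  simp only [Complex.sub_re, Complex.sub_im, sub_self, abs_zero, zero_add]
  have e : -(rr n b / 2) - -(rr n b' / 2) = -((rr n b - rr n b') / 2) := by ring
  rw [e, abs_neg, abs_div, abs_of_pos (show (0 : ℝ) < 2 by norm_num)]
  linarith

lemma tau_mul {n : ℕ} {b : ℝ} (hb : 0 < b) (hbn : b ≤ n / 2) :
    tau n b * (phase n b ^ 2 - 1) = 1 := by
  have h1 := one_le_aa hb.le hbn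
  have h2 := aa_sq hb.le hbn
  have hx := sq_div_le hb.le hbn
  have hn : n ≠ 0 := by
    rintro rfl
    simp at hbn
    linarith
  have hn' : (n : ℝ) ≠ 0 := by exact_mod_cast hn
  set x := b ^ 2 / (n : ℝ) ^ 2 with hxdef
  have hx' : x = (3 - aa n b ^ 2) / 4 := by linarith
  have h1x : 1 - x = (1 + aa n b ^ 2) / 4 := by rw [hx']; ring
  have e1 : bet n b / (2 * gg n b) = 2 * (rr n b * aa n b) / (1 + aa n b ^ 2) := by
    have e3 : bet n b = b * (1 - 2 * x) := by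
      unfold bet
      rw [hxdef]
      ring
    have e4 : gg n b = b * (1 - x) := rfl
    have e5 : 1 - 2 * x = rr n b * aa n b := by
      unfold rr
      rw [hx']
      field_simp
      ring
    rw [e3, e4, h1x, e5]
    field_simp
    ring
  have e2 : kap n b / (2 * gg n b) = 2 * aa n b / (1 + aa n b ^ 2) := by
    have e3 : kap n b = b * aa n b := rfl
    have e4 : gg n b = b * (1 - x) := rfl
    rw [e3, e4, h1x]
    field_simp
    ring
  have e6 : rr n b * aa n b = (aa n b ^ 2 - 1) / 2 := by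
    unfold rr
    field_simp
  have ha : aa n b ≠ 0 := by linarith
  have hr : rr n b = (aa n b ^ 2 - 1) / (2 * aa n b) := by
    field_simp
    linarith
  have hpos : 1 + aa n b ^ 2 ≠ 0 := by positivity
  unfold tau phase
  rw [e1, e2, e6, hr]
  apply Complex.ext
  · simp only [pow_two (⟨_, _⟩ : ℂ), Complex.mul_re, Complex.sub_re, Complex.sub_im, Complex.mul_im,
      Complex.one_re, Complex.one_im]
    field_simp
    ring
  · simp only [pow_two (⟨_, _⟩ : ℂ), Complex.mul_re, Complex.sub_re, Complex.sub_im, Complex.mul_im,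
      Complex.one_re, Complex.one_im]
    field_simp
    ring

lemma norm_cc {n j : ℕ} (h : (j : ℝ) ≤ n / 2) : ‖cc n j‖ = 1 := by
  have := normSq_cc h
  rw [Complex.normSq_eq_norm_sq] at this
  have h0 := norm_nonneg (cc n j)
  nlinarith

/-- Abel summation. -/
lemma abel {f : ℕ → ℂ} {C : ℕ → ℂ} {N₀ N₁ : ℕ} (h : N₀ ≤ N₁) :
    ∑ j ∈ Ico N₀ N₁, f j * (C (j + 1) - C j) =
      f N₁ * C N₁ - f N₀ * C N₀ - ∑ j ∈ Ico N₀ N₁, (f (j + 1) - f j) * C (j + 1) := by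
  induction N₁, h using Nat.le_induction with
  | base => simp
  | succ k hk ih =>
    rw [Finset.sum_Ico_succ_top hk, Finset.sum_Ico_succ_top hk, ih]
    ring

/-- The oscillating sums are small. -/
theorem norm_sum_cs_cc_le (γ y : ℝ) {n N₀ N₁ : ℕ} (h0 : 1 ≤ N₀) (h : N₀ ≤ N₁)
    (hn : (N₁ : ℝ) + 2 ≤ n / 2) :
    ‖∑ j ∈ Ico N₀ N₁, (cs γ y ((j : ℝ) + 1 / 2) : ℂ) * cc n j ^ 2‖ ≤ 6 * (1 + |γ|) / N₀ := by
  have hN0 : (0 : ℝ) < N₀ := by exact_mod_cast h0
  have hcast : ∀ j : ℕ, j ≤ N₁ → (j : ℝ) ≤ N₁ := fun j hj => by exact_mod_cast hj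
  have e1 : ∑ j ∈ Ico N₀ N₁, (cs γ y ((j : ℝ) + 1 / 2) : ℂ) * cc n j ^ 2 =
      ∑ j ∈ Ico N₀ N₁, ((cs γ y ((j : ℝ) + 1 / 2) : ℂ) * tau n ((j : ℝ) + 1)) *
        (cc n (j + 1) ^ 2 - cc n j ^ 2) := by
    refine Finset.sum_congr rfl fun j hj => ?_
    have hj' := hcast j (Finset.mem_Ico.mp hj).2.le
    have h1 := tau_mul (n := n) (b := (j : ℝ) + 1) (by positivity) (by linarith)
    rw [cc_succ]
    linear_combination (-(cs γ y ((j : ℝ) + 1 / 2) : ℂ) * cc n j ^ 2) * h1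
  have e2 := abel (f := fun j : ℕ => (cs γ y ((j : ℝ) + 1 / 2) : ℂ) * tau n ((j : ℝ) + 1))
    (C := fun j => cc n j ^ 2) h
  rw [e1]
  refine (le_of_eq (congrArg norm e2)).trans ?_
  have hb : ∀ j : ℕ, N₀ ≤ j → j ≤ N₁ →
      ‖(cs γ y ((j : ℝ) + 1 / 2) : ℂ) * tau n ((j : ℝ) + 1) * cc n j ^ 2‖ ≤ 1 / N₀ := by
    intro j hj0 hj1
    have hj := hcast j hj1
    have hj0' : (N₀ : ℝ) ≤ j := by exact_mod_cast hj0
    rw [norm_mul, norm_mul, norm_pow, norm_cc (by linarith), one_pow, mul_one, Complex.norm_real,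
      Real.norm_eq_abs]
    have h1 := abs_cs_le γ y (s := (j : ℝ) + 1 / 2) (by positivity)
    have h2 := norm_tau_le (n := n) (b := (j : ℝ) + 1) (by positivity) (by linarith)
    calc |cs γ y ((j : ℝ) + 1 / 2)| * ‖tau n ((j : ℝ) + 1)‖ ≤ 1 / ((j : ℝ) + 1 / 2) * 1 :=
          mul_le_mul h1 h2 (norm_nonneg _) (by positivity)
      _ = 1 / ((j : ℝ) + 1 / 2) := mul_one _
      _ ≤ 1 / N₀ := one_div_le_one_div_of_le hN0 (by linarith)
  have hd : ∀ j ∈ Ico N₀ N₁,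
      ‖((cs γ y (((j + 1 : ℕ) : ℝ) + 1 / 2) : ℂ) * tau n (((j + 1 : ℕ) : ℝ) + 1) -
        (cs γ y ((j : ℝ) + 1 / 2) : ℂ) * tau n ((j : ℝ) + 1)) * cc n (j + 1) ^ 2‖ ≤
        2 * (1 + |γ|) * (1 / (j : ℝ) ^ 2) := by
    intro j hj
    rw [Finset.mem_Ico] at hj
    have hj1 : ((j + 1 : ℕ) : ℝ) ≤ N₁ := hcast _ hj.2
    have hj0 : (0 : ℝ) < j := by
      have : 1 ≤ j := h0.trans hj.1
      exact_mod_cast this
    have hj1' : (1 : ℝ) ≤ j := by
      have : 1 ≤ j := h0.trans hj.1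
      exact_mod_cast this
    rw [norm_mul, norm_pow, norm_cc (by linarith), one_pow, mul_one]
    push_cast at hj1 ⊢
    have e3 : (cs γ y ((j : ℝ) + 1 + 1 / 2) : ℂ) * tau n ((j : ℝ) + 1 + 1) -
        (cs γ y ((j : ℝ) + 1 / 2) : ℂ) * tau n ((j : ℝ) + 1) =
        ((cs γ y ((j : ℝ) + 1 + 1 / 2) - cs γ y ((j : ℝ) + 1 / 2) : ℝ) : ℂ) * tau n ((j : ℝ) + 1 + 1) +
        (cs γ y ((j : ℝ) + 1 / 2) : ℂ) * (tau n ((j : ℝ) + 1 + 1) - tau n ((j : ℝ) + 1)) := by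
      push_cast
      ring
    rw [e3]
    refine (norm_add_le _ _).trans ?_
    rw [norm_mul, norm_mul, Complex.norm_real, Complex.norm_real, Real.norm_eq_abs, Real.norm_eq_abs]
    have h1 : |cs γ y ((j : ℝ) + 1 + 1 / 2) - cs γ y ((j : ℝ) + 1 / 2)| ≤ (1 + |γ|) / (j : ℝ) ^ 2 := by
      have := abs_cs_sub_le γ y hj0 (s := (j : ℝ) + 1 + 1 / 2) (t := (j : ℝ) + 1 / 2)
        (by linarith) (by linarith)
      refine this.trans (le_of_eq ?_)
      have e4 : (j : ℝ) + 1 + 1 / 2 - ((j : ℝ) + 1 / 2) = 1 := by ring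
      rw [e4, abs_one, mul_one]
    have h2 := norm_tau_le (n := n) (b := (j : ℝ) + 1 + 1) (by positivity) (by linarith)
    have h3 := abs_cs_le γ y (s := (j : ℝ) + 1 / 2) (by positivity)
    have h4 := norm_tau_sub_le (n := n) (b := (j : ℝ) + 1 + 1) (b' := (j : ℝ) + 1) (by positivity)
      (by linarith) (by positivity) (by linarith)
    have hnpos : (0 : ℝ) < n := by
      have : (0 : ℝ) ≤ N₁ := by positivity
      linarith
    have h5 : |((j : ℝ) + 1 + 1) ^ 2 / (n : ℝ) ^ 2 - ((j : ℝ) + 1) ^ 2 / (n : ℝ) ^ 2| ≤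
        (2 * j + 3) / (n : ℝ) ^ 2 := by
      rw [← sub_div, abs_div, abs_of_pos (show (0 : ℝ) < (n : ℝ) ^ 2 by positivity)]
      apply div_le_div_of_nonneg_right _ (by positivity)
      rw [abs_of_nonneg (by nlinarith)]
      nlinarith
    have h6 : 1 / ((j : ℝ) + 1 / 2) * ((2 * j + 3) / (n : ℝ) ^ 2) ≤ (1 + |γ|) / (j : ℝ) ^ 2 := by
      have h7 : 1 / ((j : ℝ) + 1 / 2) * ((2 * j + 3) / (n : ℝ) ^ 2) ≤ 4 / (n : ℝ) ^ 2 := by
        rw [div_mul_div_comm, one_mul, div_le_div_iff₀ (by positivity) (by positivity)]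
        have : (0 : ℝ) < (n : ℝ) ^ 2 := by positivity
        nlinarith
      have h8 : 4 / (n : ℝ) ^ 2 ≤ 1 / (j : ℝ) ^ 2 := by
        rw [div_le_div_iff₀ (by positivity) (by positivity)]
        nlinarith
      refine h7.trans (h8.trans ?_)
      apply div_le_div_of_nonneg_right _ (by positivity)
      linarith [abs_nonneg γ]
    calc |cs γ y ((j : ℝ) + 1 + 1 / 2) - cs γ y ((j : ℝ) + 1 / 2)| * ‖tau n ((j : ℝ) + 1 + 1)‖ +
          |cs γ y ((j : ℝ) + 1 / 2)| * ‖tau n ((j : ℝ) + 1 + 1) - tau n ((j : ℝ) + 1)‖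
        ≤ (1 + |γ|) / (j : ℝ) ^ 2 * 1 + 1 / ((j : ℝ) + 1 / 2) * ((2 * j + 3) / (n : ℝ) ^ 2) := by
          refine add_le_add (mul_le_mul h1 h2 (norm_nonneg _) (by positivity))
            (mul_le_mul h3 (h4.trans h5) (norm_nonneg _) (by positivity))
      _ ≤ (1 + |γ|) / (j : ℝ) ^ 2 * 1 + (1 + |γ|) / (j : ℝ) ^ 2 := by linarith
      _ = 2 * (1 + |γ|) * (1 / (j : ℝ) ^ 2) := by ring
  have hsum := (norm_sum_le (Ico N₀ N₁) (fun j : ℕ =>
    ((cs γ y (((j + 1 : ℕ) : ℝ) + 1 / 2) : ℂ) * tau n (((j + 1 : ℕ) : ℝ) + 1) -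
        (cs γ y ((j : ℝ) + 1 / 2) : ℂ) * tau n ((j : ℝ) + 1)) * cc n (j + 1) ^ 2)).trans
    (Finset.sum_le_sum hd)
  rw [← Finset.mul_sum] at hsum
  have h9 := mul_le_mul_of_nonneg_left (sum_inv_sq_le h0 h) (show 0 ≤ 2 * (1 + |γ|) by positivity)
  refine (norm_sub_le _ _).trans ?_
  refine (add_le_add ((norm_sub_le _ _).trans (add_le_add (hb N₁ h le_rfl) (hb N₀ le_rfl h)))
    (hsum.trans h9)).trans ?_
  have h10 : (0 : ℝ) ≤ |γ| / N₀ := by positivity
  have e5 : 6 * (1 + |γ|) / (N₀ : ℝ) - (1 / N₀ + 1 / N₀ + 2 * (1 + |γ|) * (2 / (N₀ : ℝ))) =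
      2 * (|γ| / N₀) := by ring
  linarith

end Pool.Agent.H66.OneArm

end

section

/-!
# Taylor expansions of the amplitudes
-/

open Finset Real

namespace Pool.Agent.H66.OneArm

/-- The amplitude. -/
noncomputable def am (α y u : ℝ) : ℝ := sin (α * (log u - y)) / √u

noncomputable def am' (α y u : ℝ) : ℝ :=
  (α * cos (α * (log u - y)) - sin (α * (log u - y)) / 2) / (u * √u)

noncomputable def am'' (α y u : ℝ) : ℝ :=
  ((3 / 4 - α ^ 2) * sin (α * (log u - y)) - 2 * α * cos (α * (log u - y))) / (u ^ 2 * √u)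

lemma hasDerivAt_phase (α y : ℝ) {u : ℝ} (hu : 0 < u) :
    HasDerivAt (fun u => α * (log u - y)) (α / u) u := by
  have := ((Real.hasDerivAt_log hu.ne').sub_const y).const_mul α
  exact this.congr_deriv (by ring)

lemma hasDerivAt_am (α y : ℝ) {u : ℝ} (hu : 0 < u) : HasDerivAt (am α y) (am' α y u) u := by
  have h1 := (hasDerivAt_phase α y hu).sin
  have h2 := h1.div (Real.hasDerivAt_sqrt hu.ne') (Real.sqrt_pos.mpr hu).ne'
  refine h2.congr_deriv ?_
  unfold am'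
  have h3 : 0 < √u := Real.sqrt_pos.mpr hu
  have h4 : √u ^ 2 = u := Real.sq_sqrt hu.le
  rw [div_eq_div_iff (by positivity) (by positivity)]
  field_simp
  rw [h4]
  ring

lemma hasDerivAt_am' (α y : ℝ) {u : ℝ} (hu : 0 < u) : HasDerivAt (am' α y) (am'' α y u) u := by
  have h1 := ((hasDerivAt_phase α y hu).cos.const_mul α).sub ((hasDerivAt_phase α y hu).sin.div_const 2)
  have h3 : 0 < √u := Real.sqrt_pos.mpr hu
  have h4 : √u ^ 2 = u := Real.sq_sqrt hu.le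
  have h2 := h1.div ((hasDerivAt_id' u).mul (Real.hasDerivAt_sqrt hu.ne')) (mul_pos hu h3).ne'
  refine h2.congr_deriv ?_
  unfold am''
  simp only [Pi.mul_apply, Pi.sub_apply]
  set S := √u with hS
  have hu' : u = S ^ 2 := h4.symm
  rw [hu']
  field_simp
  ring

lemma abs_am_le (α y : ℝ) {u : ℝ} (hu : 0 < u) : |am α y u| ≤ 1 / √u := by
  unfold am
  have h3 : 0 < √u := Real.sqrt_pos.mpr hu
  rw [abs_div, abs_of_pos h3]
  exact div_le_div_of_nonneg_right (abs_sin_le_one _) h3.le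

lemma abs_am'_le {α : ℝ} (hα : 0 ≤ α) (y : ℝ) {u : ℝ} (hu : 0 < u) :
    |am' α y u| ≤ (1 + α) / (u * √u) := by
  unfold am'
  have h3 : 0 < √u := Real.sqrt_pos.mpr hu
  rw [abs_div, abs_of_pos (show 0 < u * √u by positivity)]
  apply div_le_div_of_nonneg_right _ (by positivity)
  refine (abs_sub _ _).trans ?_
  rw [abs_mul, abs_div, abs_of_nonneg hα, abs_of_pos (show (0 : ℝ) < 2 by norm_num)]
  have h1 := abs_sin_le_one (α * (log u - y))
  have h2 := abs_cos_le_one (α * (log u - y))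
  have h4 := mul_le_mul_of_nonneg_left h2 hα
  linarith

lemma abs_am''_le {α : ℝ} (hα : 0 ≤ α) (y : ℝ) {u : ℝ} (hu : 0 < u) :
    |am'' α y u| ≤ (1 + α) ^ 2 / (u ^ 2 * √u) := by
  unfold am''
  have h3 : 0 < √u := Real.sqrt_pos.mpr hu
  rw [abs_div, abs_of_pos (show 0 < u ^ 2 * √u by positivity)]
  apply div_le_div_of_nonneg_right _ (by positivity)
  refine (abs_sub _ _).trans ?_
  rw [abs_mul, abs_mul, abs_of_nonneg (show 0 ≤ 2 * α by positivity)]
  have h1 := abs_sin_le_one (α * (log u - y))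
  have h2 := abs_cos_le_one (α * (log u - y))
  have h4 := mul_le_mul_of_nonneg_left h2 (show 0 ≤ 2 * α by positivity)
  have h5 : |3 / 4 - α ^ 2| ≤ 1 + α ^ 2 := by
    rw [abs_le]
    constructor <;> nlinarith [sq_nonneg α]
  have h6 : |3 / 4 - α ^ 2| * |sin (α * (log u - y))| ≤ (1 + α ^ 2) * 1 :=
    mul_le_mul h5 h1 (abs_nonneg _) (by positivity)
  nlinarith

lemma abs_am''_le_of_mem {α : ℝ} (hα : 0 ≤ α) (y : ℝ) {u s : ℝ} (hs : 3 / 2 ≤ s)
    (hu : u ∈ Set.Icc (s - 1) (s + 1)) :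
    |am'' α y u| ≤ 18 * (1 + α) ^ 2 / (s ^ 2 * √s) := by
  have hu3 : s / 3 ≤ u := by linarith [hu.1]
  have hu0 : 0 < u := by linarith
  have hs0 : 0 < s := by linarith
  refine (abs_am''_le hα y hu0).trans ?_
  have h1 : √(s / 4) ≤ √u := Real.sqrt_le_sqrt (by linarith)
  have h2 : √(s / 4) = √s / 2 := by
    rw [Real.sqrt_div' s (by norm_num), show (4 : ℝ) = 2 ^ 2 by norm_num,
      Real.sqrt_sq (by norm_num)]
  rw [h2] at h1
  have h3 : 0 < √s := Real.sqrt_pos.mpr hs0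
  have h4 : (s / 3) ^ 2 ≤ u ^ 2 := pow_le_pow_left₀ (by positivity) hu3 2
  have h5 : (s / 3) ^ 2 * (√s / 2) ≤ u ^ 2 * √u := mul_le_mul h4 h1 (by positivity) (by positivity)
  rw [div_le_div_iff₀ (by positivity) (by positivity)]
  have h6 : s ^ 2 * √s ≤ 18 * (u ^ 2 * √u) := by nlinarith
  have h7 := mul_le_mul_of_nonneg_left h6 (sq_nonneg (1 + α))
  nlinarith

/-- Taylor bounds. -/
lemma taylor_am {α : ℝ} (hα : 0 ≤ α) (y : ℝ) {s t : ℝ} (hs : 3 / 2 ≤ s)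
    (ht : t ∈ Set.Icc (s - 1) (s + 1)) :
    |am α y t - am α y s - am' α y s * (t - s)| ≤ 18 * (1 + α) ^ 2 / (s ^ 2 * √s) := by
  have hs0 : 0 < s := by linarith
  have hsm : s ∈ Set.Icc (s - 1) (s + 1) := ⟨by linarith, by linarith⟩
  have hM : 0 ≤ 18 * (1 + α) ^ 2 / (s ^ 2 * √s) := by positivity
  have hpos : ∀ u ∈ Set.Icc (s - 1) (s + 1), 0 < u := fun u hu => by linarith [hu.1]
  have h1 : ∀ u ∈ Set.Icc (s - 1) (s + 1), |am' α y u - am' α y s| ≤
      18 * (1 + α) ^ 2 / (s ^ 2 * √s) := by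
    intro u hu
    have h := (convex_Icc (s - 1) (s + 1)).norm_image_sub_le_of_norm_hasDerivWithin_le
      (f := am' α y) (f' := am'' α y) (C := 18 * (1 + α) ^ 2 / (s ^ 2 * √s))
      (fun v hv => (hasDerivAt_am' α y (hpos v hv)).hasDerivWithinAt)
      (fun v hv => by rw [Real.norm_eq_abs]; exact abs_am''_le_of_mem hα y hs hv) hsm hu
    rw [Real.norm_eq_abs, Real.norm_eq_abs] at h
    have h2 : |u - s| ≤ 1 := by
      rw [abs_le]
      constructor <;> linarith [hu.1, hu.2]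
    nlinarith
  have h := (convex_Icc (s - 1) (s + 1)).norm_image_sub_le_of_norm_hasDerivWithin_le
    (f := fun v => am α y v - am' α y s * v) (f' := fun v => am' α y v - am' α y s * 1)
    (C := 18 * (1 + α) ^ 2 / (s ^ 2 * √s))
    (fun v hv => ((hasDerivAt_am α y (hpos v hv)).sub
      ((hasDerivAt_id' v).const_mul _)).hasDerivWithinAt)
    (fun v hv => by rw [Real.norm_eq_abs, mul_one]; exact h1 v hv) hsm ht
  rw [Real.norm_eq_abs, Real.norm_eq_abs] at h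
  have h2 : |t - s| ≤ 1 := by
    rw [abs_le]
    constructor <;> linarith [ht.1, ht.2]
  have e : am α y t - am' α y s * t - (am α y s - am' α y s * s) =
      am α y t - am α y s - am' α y s * (t - s) := by ring
  rw [e] at h
  nlinarith

/-- The size of the error. -/
lemma eta_le {n : ℕ} {b : ℝ} (hb : 0 ≤ b) (hbn : b ≤ n / 2) :
    |aa n b - √3| ≤ 2 * (b ^ 2 / (n : ℝ) ^ 2) := by
  have h1 := one_le_aa hb hbn
  have h2 := aa_sq hb hbn
  have h3 : 1 ≤ √3 := by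
    rw [Real.one_le_sqrt]
    norm_num
  have h4 : √3 ^ 2 = 3 := Real.sq_sqrt (by norm_num)
  have h5 : (aa n b - √3) * (aa n b + √3) = -(4 * (b ^ 2 / (n : ℝ) ^ 2)) := by
    linear_combination h2 - h4
  have h6 := congrArg abs h5
  rw [abs_mul, abs_neg, abs_of_pos (show 0 < aa n b + √3 by linarith),
    abs_of_nonneg (show 0 ≤ 4 * (b ^ 2 / (n : ℝ) ^ 2) by positivity)] at h6
  nlinarith [abs_nonneg (aa n b - √3)]

lemma aa_sub_le {n : ℕ} {b b' : ℝ} (hb : 0 ≤ b) (hbn : b ≤ n / 2) (hb' : 0 ≤ b')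
    (hbn' : b' ≤ n / 2) :
    |aa n b - aa n b'| ≤ 2 * |b ^ 2 / (n : ℝ) ^ 2 - b' ^ 2 / (n : ℝ) ^ 2| := by
  have h1 := one_le_aa hb hbn
  have h2 := one_le_aa hb' hbn'
  have e2 : (aa n b - aa n b') * (aa n b + aa n b') =
      -4 * (b ^ 2 / (n : ℝ) ^ 2 - b' ^ 2 / (n : ℝ) ^ 2) := by
    have h3 := aa_sq hb hbn
    have h4 := aa_sq hb' hbn'
    linear_combination h3 - h4
  have h9 := congrArg abs e2
  rw [abs_mul, abs_mul, abs_neg, abs_of_pos (show (0 : ℝ) < 4 by norm_num),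
    abs_of_pos (show 0 < aa n b + aa n b' by linarith)] at h9
  have : |aa n b - aa n b'| * 2 ≤ |aa n b - aa n b'| * (aa n b + aa n b') :=
    mul_le_mul_of_nonneg_left (by linarith) (abs_nonneg _)
  linarith

end Pool.Agent.H66.OneArm

end

section

/-!
# The local errors of the quasi-modes
-/

open Finset Real

namespace Pool.Agent.H66.OneArm

lemma abs_lin4 {c0 c1 c2 c3 a0 a1 a2 a3 C0 C1 C2 C3 A0 A1 A2 A3 : ℝ}
    (h0 : |c0| ≤ C0) (h1 : |c1| ≤ C1) (h2 : |c2| ≤ C2) (h3 : |c3| ≤ C3)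
    (k0 : |a0| ≤ A0) (k1 : |a1| ≤ A1) (k2 : |a2| ≤ A2) (k3 : |a3| ≤ A3) :
    |c0 * a0 + c1 * a1 + c2 * a2 + c3 * a3| ≤ C0 * A0 + C1 * A1 + C2 * A2 + C3 * A3 := by
  have m : ∀ {c a C A : ℝ}, |c| ≤ C → |a| ≤ A → |c * a| ≤ C * A := by
    intro c a C A h k
    rw [abs_mul]
    exact mul_le_mul h k (abs_nonneg _) ((abs_nonneg _).trans h)
  have e0 := m h0 k0
  have e1 := m h1 k1
  have e2 := m h2 k2
  have e3 := m h3 k3
  refine (abs_add_le _ _).trans (add_le_add ((abs_add_le _ _).trans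
    (add_le_add ((abs_add_le _ _).trans (add_le_add e0 e1)) e2)) e3)

lemma cube_le {s : ℝ} (hs : 3 / 2 ≤ s) : (s + 1 / 2) ^ 3 ≤ 3 * s ^ 3 := by
  have h1 : s + 1 / 2 ≤ 4 / 3 * s := by linarith only [hs]
  have h2 : (s + 1 / 2) ^ 3 ≤ (4 / 3 * s) ^ 3 := pow_le_pow_left₀ (by linarith) h1 3
  have h3 : 0 < s ^ 3 := by positivity
  nlinarith only [h2, h3]

lemma cube_le' {s : ℝ} (hs : 3 / 2 ≤ s) : (s - 1 / 2) ^ 3 ≤ s ^ 3 :=
  pow_le_pow_left₀ (by linarith only [hs]) (by linarith) 3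

lemma P_bound {s ν q M a0 a1 dp dm : ℝ} (hs : 3 / 2 ≤ s) (hν : 0 ≤ ν) (hM : 1 ≤ M)
    (h0 : |a0| ≤ q) (h1 : |a1| ≤ M * q / s) (hdp : |dp| ≤ M * q / s ^ 2)
    (hdm : |dm| ≤ M * q / s ^ 2) :
    |1 / 2 * ((s - 1 / 2) - 2 * (s - 1 / 2) ^ 3 * ν) * (a0 - a1 + dm) +
      1 / 2 * ((s + 1 / 2) - 2 * (s + 1 / 2) ^ 3 * ν) * (a0 + a1 + dp) +
      ((s / 2 - 1 / 2) * ν - (s - 2 * s ^ 3 * ν)) * a0| ≤ M * q * (3 / s + 12 * (s ^ 2 * ν)) := by
  have hq : 0 ≤ q := (abs_nonneg _).trans h0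
  have hs0 : 0 < s := by linarith only [hs]
  have e : 1 / 2 * ((s - 1 / 2) - 2 * (s - 1 / 2) ^ 3 * ν) * (a0 - a1 + dm) +
      1 / 2 * ((s + 1 / 2) - 2 * (s + 1 / 2) ^ 3 * ν) * (a0 + a1 + dp) +
      ((s / 2 - 1 / 2) * ν - (s - 2 * s ^ 3 * ν)) * a0 =
      (-(ν * (s + 1 / 2))) * a0 + (1 / 2 - ν * (3 * s ^ 2 + 1 / 4)) * a1 +
      (1 / 2 * (s + 1 / 2) - (s + 1 / 2) ^ 3 * ν) * dp +
      (1 / 2 * (s - 1 / 2) - (s - 1 / 2) ^ 3 * ν) * dm := by ring
  rw [e]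
  have hc := mul_le_mul_of_nonneg_right (cube_le hs) hν
  have hc' := mul_le_mul_of_nonneg_right (cube_le' hs) hν
  have hs2 : 0 < s ^ 2 := by positivity
  have hs3 : 0 < s ^ 3 := by positivity
  have n1 : 0 ≤ (s + 1 / 2) ^ 3 * ν := by positivity
  have n2 : 0 ≤ (s - 1 / 2) ^ 3 * ν := by
    have : 0 ≤ s - 1 / 2 := by linarith only [hs]
    positivity
  have n3 : 0 ≤ s ^ 3 * ν := by positivity
  have n4 : 0 ≤ s ^ 2 * ν := by positivity
  have n5 : 0 ≤ s * ν := by positivity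
  have n6 : s * ν ≤ s ^ 2 * ν * (2 / 3) := by nlinarith only [hs, n1, n2]
  have n7 : ν ≤ s * ν := by nlinarith only [n2, n4, n6]
  refine (abs_lin4 (C0 := 2 * (s ^ 2 * ν)) (C1 := 1 / 2 + 4 * (s ^ 2 * ν))
    (C2 := s + 3 * (s ^ 3 * ν)) (C3 := s + 3 * (s ^ 3 * ν)) ?_ ?_ ?_ ?_ h0 h1 hdp hdm).trans ?_
  · rw [abs_neg, abs_of_nonneg (by positivity)]
    nlinarith only [n4, n6, n7]
  · rw [abs_le]
    constructor <;> nlinarith only [n4, n7, hν]
  · rw [abs_le]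
    constructor <;> nlinarith only [hs, hc, n1]
  · rw [abs_le]
    constructor <;> nlinarith only [hs, hc, n1, n2]
  · have e1 : 2 * (s ^ 2 * ν) * q + (1 / 2 + 4 * (s ^ 2 * ν)) * (M * q / s) +
        (s + 3 * (s ^ 3 * ν)) * (M * q / s ^ 2) + (s + 3 * (s ^ 3 * ν)) * (M * q / s ^ 2) =
        q * (2 * (s ^ 2 * ν)) + M * q * ((5 / 2) / s + 10 * (s * ν)) := by
      field_simp
      ring
    rw [e1]
    have hMq : q ≤ M * q := by nlinarith only [hM, hq]
    have h5 : q * (2 * (s ^ 2 * ν)) ≤ M * q * (2 * (s ^ 2 * ν)) :=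
      mul_le_mul_of_nonneg_right hMq (by positivity)
    have h6 : (5 / 2) / s + 10 * (s * ν) ≤ 3 / s + 10 * (s ^ 2 * ν) := by
      have : (5 / 2) / s ≤ 3 / s := div_le_div_of_nonneg_right (by norm_num) hs0.le
      linarith only [n4, n6, this]
    have h7 := mul_le_mul_of_nonneg_left h6 (show 0 ≤ M * q by positivity)
    nlinarith only [h5, h7]

lemma Q_bound {s ν q M a0 a1 dp dm A B : ℝ} (hs : 3 / 2 ≤ s) (hν : 0 ≤ ν) (hM : 1 ≤ M)
    (h0 : |a0| ≤ q) (h1 : |a1| ≤ M * q / s) (hdp : |dp| ≤ M * q / s ^ 2)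
    (hdm : |dm| ≤ M * q / s ^ 2) (hA : |A - √3| ≤ 2 * ((s + 1 / 2) ^ 2 * ν))
    (hB : |B - √3| ≤ 2 * ((s - 1 / 2) ^ 2 * ν)) (hAB : |A - B| ≤ 2 * (2 * s * ν))
    (hA' : |A| ≤ 2) (hB' : |B| ≤ 2) :
    |1 / 2 * ((s + 1 / 2) * A * (a0 + a1 + dp) - (s - 1 / 2) * B * (a0 - a1 + dm)) -
      √3 * (s * a1 + a0 / 2)| ≤ M * q * (3 / s + 8 * (s ^ 2 * ν)) := by
  have hq : 0 ≤ q := (abs_nonneg _).trans h0
  have hs0 : 0 < s := by linarith only [hs]
  have e : 1 / 2 * ((s + 1 / 2) * A * (a0 + a1 + dp) - (s - 1 / 2) * B * (a0 - a1 + dm)) -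
      √3 * (s * a1 + a0 / 2) =
      (1 / 2 * ((s - 1 / 2) * (A - B) + (A - √3))) * a0 +
      (1 / 2 * ((s + 1 / 2) * (A - √3) + (s - 1 / 2) * (B - √3))) * a1 +
      (1 / 2 * (s + 1 / 2) * A) * dp + (-(1 / 2 * (s - 1 / 2) * B)) * dm := by ring
  rw [e]
  have hc := mul_le_mul_of_nonneg_right (cube_le hs) hν
  have hc' := mul_le_mul_of_nonneg_right (cube_le' hs) hν
  have hs2 : 0 < s ^ 2 := by positivity
  have hs3 : 0 < s ^ 3 := by positivity
  have hsm : 0 ≤ s - 1 / 2 := by linarith only [hs]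
  have hsp : 0 ≤ s + 1 / 2 := by linarith only [hs]
  have n3 : 0 ≤ s ^ 3 * ν := by positivity
  have n4 : 0 ≤ s ^ 2 * ν := by positivity
  have n5 : 0 ≤ s * ν := by positivity
  refine (abs_lin4 (C0 := 4 * (s ^ 2 * ν)) (C1 := 4 * (s ^ 3 * ν))
    (C2 := 2 * s) (C3 := s) ?_ ?_ ?_ ?_ h0 h1 hdp hdm).trans ?_
  · rw [abs_mul, abs_of_pos (show (0 : ℝ) < 1 / 2 by norm_num)]
    have h2 := abs_add_le ((s - 1 / 2) * (A - B)) (A - √3)
    rw [abs_mul, abs_of_nonneg hsm] at h2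
    have h3 := mul_le_mul_of_nonneg_left hAB hsm
    have h4 : (s + 1 / 2) ^ 2 ≤ 2 * s ^ 2 := by nlinarith only [hs]
    have h5 := mul_le_mul_of_nonneg_right h4 hν
    nlinarith only [hA, n5, h2, h3, h5]
  · rw [abs_mul, abs_of_pos (show (0 : ℝ) < 1 / 2 by norm_num)]
    have h2 := abs_add_le ((s + 1 / 2) * (A - √3)) ((s - 1 / 2) * (B - √3))
    rw [abs_mul, abs_of_nonneg hsp, abs_mul, abs_of_nonneg hsm] at h2
    have h3 := mul_le_mul_of_nonneg_left hA hsp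
    have h4 := mul_le_mul_of_nonneg_left hB hsm
    have e3 : (s + 1 / 2) * (2 * ((s + 1 / 2) ^ 2 * ν)) = 2 * ((s + 1 / 2) ^ 3 * ν) := by ring
    have e4 : (s - 1 / 2) * (2 * ((s - 1 / 2) ^ 2 * ν)) = 2 * ((s - 1 / 2) ^ 3 * ν) := by ring
    rw [e3] at h3
    rw [e4] at h4
    linarith only [hc, hc', h2, h3, h4]
  · rw [abs_mul, abs_of_nonneg (show 0 ≤ 1 / 2 * (s + 1 / 2) by positivity)]
    have := mul_le_mul_of_nonneg_left hA' (show 0 ≤ 1 / 2 * (s + 1 / 2) by positivity)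
    linarith only [hs, this]
  · rw [abs_neg, abs_mul, abs_of_nonneg (show 0 ≤ 1 / 2 * (s - 1 / 2) by positivity)]
    have := mul_le_mul_of_nonneg_left hB' (show 0 ≤ 1 / 2 * (s - 1 / 2) by positivity)
    linarith only [this]
  · have e1 : 4 * (s ^ 2 * ν) * q + 4 * (s ^ 3 * ν) * (M * q / s) + 2 * s * (M * q / s ^ 2) +
        s * (M * q / s ^ 2) = q * (4 * (s ^ 2 * ν)) + M * q * (3 / s + 4 * (s ^ 2 * ν)) := by
      field_simp
      ring
    rw [e1]
    have hMq : q ≤ M * q := by nlinarith only [hM, hq]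
    have h5 : q * (4 * (s ^ 2 * ν)) ≤ M * q * (4 * (s ^ 2 * ν)) :=
      mul_le_mul_of_nonneg_right hMq (by positivity)
    nlinarith only [h5]

/-- The main term. -/
noncomputable def mm (α y s : ℝ) : ℝ := √3 * (α * cos (α * (log s - y)) / √s)

/-- The local operator. -/
noncomputable def Rr (n j : ℕ) (a b c : ℝ) : ℂ :=
  ⟨1 / 2 * bet n j * a + 1 / 2 * bet n ((j : ℝ) + 1) * c +
      (((((j : ℝ) + 1 / 2) / 2 - 1 / 2) / (n : ℝ) ^ 2) - bet n ((j : ℝ) + 1 / 2)) * b,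
    1 / 2 * (kap n ((j : ℝ) + 1) * c - kap n j * a)⟩

/-- Interior error. -/
theorem interior {α : ℝ} (hα : 0 ≤ α) (y : ℝ) {n j : ℕ} (hj : 1 ≤ j) (hjn : (j : ℝ) + 1 ≤ n / 2) :
    ‖Rr n j (am α y ((j : ℝ) + 1 / 2 - 1)) (am α y ((j : ℝ) + 1 / 2)) (am α y ((j : ℝ) + 1 / 2 + 1)) -
      ⟨0, mm α y ((j : ℝ) + 1 / 2)⟩‖ ≤ 18 * (1 + α) ^ 2 * (1 / √((j : ℝ) + 1 / 2)) *
        (6 / ((j : ℝ) + 1 / 2) + 20 * (((j : ℝ) + 1 / 2) ^ 2 / (n : ℝ) ^ 2)) := by
  have hj' : (1 : ℝ) ≤ j := by exact_mod_cast hj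
  set s : ℝ := (j : ℝ) + 1 / 2 with hsdef
  have hs : 3 / 2 ≤ s := by rw [hsdef]; linarith only [hj']
  have hs0 : 0 < s := by linarith only [hsdef]
  have hS : 0 < √s := Real.sqrt_pos.mpr hs0
  set M : ℝ := 18 * (1 + α) ^ 2 with hM
  set q : ℝ := 1 / √s with hq
  set ν : ℝ := 1 / (n : ℝ) ^ 2 with hν
  have hν0 : 0 ≤ ν := by positivity
  have hMpos : 1 ≤ M := by
    rw [hM]
    nlinarith only [hα]
  set a0 := am α y s with ha0
  set a1 := am' α y s with ha1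
  have h0 : |a0| ≤ q := abs_am_le α y hs0
  have h1 : |a1| ≤ M * q / s := by
    refine (abs_am'_le hα y hs0).trans ?_
    have e : M * q / s = M / (s * √s) := by
      rw [hq]
      field_simp
    rw [e]
    apply div_le_div_of_nonneg_right _ (by positivity)
    rw [hM]
    nlinarith only [hMpos]
  have e2 : 18 * (1 + α) ^ 2 / (s ^ 2 * √s) = M * q / s ^ 2 := by
    rw [hM, hq]
    field_simp
  have tp := taylor_am hα y hs (t := s + 1) ⟨by linarith only [], le_rfl⟩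
  have tm := taylor_am hα y hs (t := s - 1) ⟨le_rfl, by linarith⟩
  rw [e2] at tp tm
  set dp := am α y (s + 1) - a0 - a1 * (s + 1 - s) with hdp
  set dm := am α y (s - 1) - a0 - a1 * (s - 1 - s) with hdm
  have ep : am α y (s + 1) = a0 + a1 + dp := by rw [hdp]; ring
  have em : am α y (s - 1) = a0 - a1 + dm := by rw [hdm]; ring
  have ebj : (j : ℝ) = s - 1 / 2 := by rw [hsdef]; ring
  have ebj1 : (j : ℝ) + 1 = s + 1 / 2 := by rw [hsdef]; ring
  have ebet : ∀ b, bet n b = b - 2 * b ^ 3 * ν := by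
    intro b
    unfold bet
    rw [hν]
    ring
  have ekap : ∀ b, kap n b = b * aa n b := fun b => rfl
  have hP := P_bound hs hν0 hMpos h0 h1 tp tm
  have hsn : s + 1 / 2 ≤ n / 2 := by rw [← ebj1]; exact hjn
  have hA := eta_le (n := n) (b := s + 1 / 2) (by linarith only [hsdef]) hsn
  have hB := eta_le (n := n) (b := s - 1 / 2) (by linarith only [hsdef]) (by linarith only [hjn, hsdef])
  have hAB := aa_sub_le (n := n) (b := s + 1 / 2) (b' := s - 1 / 2) (by linarith only [hsdef]) hsn (by linarith only [hsdef])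
    (by linarith only [hjn, hsdef])
  have hA2 : |aa n (s + 1 / 2)| ≤ 2 := by
    rw [abs_of_nonneg (by linarith only [one_le_aa (n := n) (b := s + 1 / 2) (by linarith) hsn])]
    exact aa_le (by linarith only [hsdef]) hsn
  have hB2 : |aa n (s - 1 / 2)| ≤ 2 := by
    rw [abs_of_nonneg (by linarith only [one_le_aa (n := n) (b := s - 1 / 2) (by linarith) (by linarith)])]
    exact aa_le (by linarith only [hsdef]) (by linarith only [hjn, hsdef])
  have f1 : (s + 1 / 2) ^ 2 / (n : ℝ) ^ 2 = (s + 1 / 2) ^ 2 * ν := by rw [hν]; ring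
  have f2 : (s - 1 / 2) ^ 2 / (n : ℝ) ^ 2 = (s - 1 / 2) ^ 2 * ν := by rw [hν]; ring
  rw [f1] at hA
  rw [f2] at hB
  have f3 : |(s + 1 / 2) ^ 2 / (n : ℝ) ^ 2 - (s - 1 / 2) ^ 2 / (n : ℝ) ^ 2| = 2 * s * ν := by
    rw [f1, f2, ← sub_mul, abs_mul, abs_of_nonneg hν0, abs_of_nonneg (by nlinarith only [hsdef])]
    ring
  rw [f3] at hAB
  have hQ := Q_bound hs hν0 hMpos h0 h1 tp tm hA hB hAB hA2 hB2
  have emm : √3 * (s * a1 + a0 / 2) = mm α y s := by
    rw [ha1, ha0]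
    unfold am am' mm
    field_simp
    ring
  rw [emm] at hQ
  refine (Complex.norm_le_abs_re_add_abs_im _).trans ?_
  unfold Rr
  simp only [Complex.sub_re, Complex.sub_im, sub_zero]
  rw [← hsdef, ebj1, ebj, ep, em, ebet, ebet, ebet, ekap, ekap]
  have g1 : 1 / 2 * (s - 1 / 2 - 2 * (s - 1 / 2) ^ 3 * ν) * (a0 - a1 + dm) +
      1 / 2 * (s + 1 / 2 - 2 * (s + 1 / 2) ^ 3 * ν) * (a0 + a1 + dp) +
      ((s / 2 - 1 / 2) / (n : ℝ) ^ 2 - (s - 2 * s ^ 3 * ν)) * a0 =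
      1 / 2 * ((s - 1 / 2) - 2 * (s - 1 / 2) ^ 3 * ν) * (a0 - a1 + dm) +
      1 / 2 * ((s + 1 / 2) - 2 * (s + 1 / 2) ^ 3 * ν) * (a0 + a1 + dp) +
      ((s / 2 - 1 / 2) * ν - (s - 2 * s ^ 3 * ν)) * a0 := by
    rw [hν]
    ring
  rw [g1]
  have g2 : s ^ 2 / (n : ℝ) ^ 2 = s ^ 2 * ν := by rw [hν]; ring
  rw [g2]
  have g3 : M * q * (6 / s + 20 * (s ^ 2 * ν)) = M * q * (3 / s + 12 * (s ^ 2 * ν)) +
      M * q * (3 / s + 8 * (s ^ 2 * ν)) := by ring
  rw [g3]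
  exact add_le_add hP hQ

end Pool.Agent.H66.OneArm

end

section

/-!
# The quasi-modes
-/

open Finset Real Matrix

namespace Pool.Agent.H66.OneArm

/-- Real or imaginary part. -/
def ph (b : Bool) (z : ℂ) : ℝ := if b then z.im else z.re

lemma ph_add (b : Bool) (z w : ℂ) : ph b (z + w) = ph b z + ph b w := by
  cases b <;> simp [ph]

lemma ph_smul (b : Bool) (r : ℝ) (z : ℂ) : ph b ((r : ℂ) * z) = r * ph b z := by
  cases b <;> simp [ph]

lemma abs_ph_le (b : Bool) (z : ℂ) : |ph b z| ≤ ‖z‖ := by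
  cases b
  · simpa [ph] using Complex.abs_re_le_norm z
  · simpa [ph] using Complex.abs_im_le_norm z

/-- The truncated amplitudes. -/
noncomputable def AA (α y : ℝ) (N₀ N₁ j : ℕ) : ℝ :=
  if N₀ ≤ j ∧ j < N₁ then am α y ((j : ℝ) + 1 / 2) else 0

/-- The real modes. -/
noncomputable def uu (c : ℝ) (A : ℕ → ℝ) (n : ℕ) (b : Bool) : Fin n → ℝ :=
  fun j => c * (A j * ph b (cc n j))

/-- The shifted rescaled operator. -/
noncomputable def opT (n : ℕ) (v : Fin n → ℝ) : Fin n → ℝ :=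
  ((n : ℝ) ^ 2)⁻¹ • (trid n *ᵥ v) - (1 / 2 : ℝ) • v

lemma opT_apply {n : ℕ} (c : ℝ) {A : ℕ → ℝ} (hA : ∀ j, n ≤ j → A j = 0) (b : Bool) (j : Fin n) :
    opT n (uu c A n b) j = c * ((if (j : ℕ) = 0 then 0 else
        gg n j * (A ((j : ℕ) - 1) * ph b (cc n ((j : ℕ) - 1)))) +
      (((((j : ℕ) : ℝ) + 1 / 2) / 2 - 1 / 2) / (n : ℝ) ^ 2 - bet n (((j : ℕ) : ℝ) + 1 / 2)) *
        (A j * ph b (cc n j)) +
      gg n (((j : ℕ) : ℝ) + 1) * (A ((j : ℕ) + 1) * ph b (cc n ((j : ℕ) + 1)))) := by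
  have hn : 1 ≤ n := by
    have := j.2
    omega
  have hn' : (n : ℝ) ≠ 0 := by positivity
  have hext : ∀ i : ℕ, ext (uu c A n b) i = c * (A i * ph b (cc n i)) := by
    intro i
    by_cases h : i < n
    · rw [ext_of_lt _ h]
      rfl
    · rw [ext_of_le _ (not_lt.mp h), hA i (not_lt.mp h)]
      ring
  have hd := diag_eq hn j
  have hd' : diag n j = (n : ℝ) ^ 2 * (1 / 2) + (n : ℝ) ^ 2 *
    (-bet n (((j : ℕ) : ℝ) + 1 / 2) + ((((j : ℕ) : ℝ) + 1 / 2) / 2 - 1 / 2) / (n : ℝ) ^ 2) := by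
    linarith
  unfold opT
  simp only [Pi.sub_apply, Pi.smul_apply, smul_eq_mul]
  rw [trid_mulVec, hext, hext, offd_eq hn, hd', offd_eq hn]
  have huj : uu c A n b j = c * (A j * ph b (cc n j)) := rfl
  rw [huj]
  by_cases hj : (j : ℕ) = 0
  · rw [if_pos hj, if_pos hj]
    field_simp
    ring
  · rw [if_neg hj, if_neg hj]
    have hc : ((((j : ℕ) - 1 : ℕ) : ℝ)) + 1 = ((j : ℕ) : ℝ) := by
      rw [Nat.cast_sub (by omega)]
      push_cast
      ring
    rw [hc]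
    field_simp
    ring

lemma opT_eq {n : ℕ} (c : ℝ) {A : ℕ → ℝ} (hA : ∀ j, n ≤ j → A j = 0) (b : Bool) (j : Fin n)
    (hj : ((j : ℕ) : ℝ) + 1 ≤ n / 2) :
    opT n (uu c A n b) j =
      c * ph b (cc n j * Rr n j (A ((j : ℕ) - 1)) (A j) (A ((j : ℕ) + 1))) := by
  rw [opT_apply c hA b j]
  have hR : Rr n j (A ((j : ℕ) - 1)) (A j) (A ((j : ℕ) + 1)) =
      (A ((j : ℕ) - 1) : ℂ) * ⟨bet n (j : ℕ) / 2, -(kap n (j : ℕ) / 2)⟩ +
      (((((((j : ℕ) : ℝ) + 1 / 2) / 2 - 1 / 2) / (n : ℝ) ^ 2 - bet n (((j : ℕ) : ℝ) + 1 / 2)) *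
        A j : ℝ) : ℂ) +
      (A ((j : ℕ) + 1) : ℂ) * ⟨bet n (((j : ℕ) : ℝ) + 1) / 2, kap n (((j : ℕ) : ℝ) + 1) / 2⟩ := by
    unfold Rr
    apply Complex.ext
    · simp only [Complex.add_re, Complex.mul_re, Complex.ofReal_re, Complex.ofReal_im]
      ring
    · simp only [Complex.add_im, Complex.mul_im, Complex.ofReal_re, Complex.ofReal_im]
      ring
  refine congrArg (c * ·) ?_
  have hexp : ∀ z a b c : ℂ, z * (a + b + c) = z * a + z * b + z * c := fun z a b c => by ring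
  rw [hR, hexp, ph_add, ph_add]
  have e1 : cc n j * ((A ((j : ℕ) - 1) : ℂ) * ⟨bet n (j : ℕ) / 2, -(kap n (j : ℕ) / 2)⟩) =
      (A ((j : ℕ) - 1) : ℂ) * (cc n j * ⟨bet n (j : ℕ) / 2, -(kap n (j : ℕ) / 2)⟩) := by ring
  have e3 : cc n j * ((A ((j : ℕ) + 1) : ℂ) *
      ⟨bet n (((j : ℕ) : ℝ) + 1) / 2, kap n (((j : ℕ) : ℝ) + 1) / 2⟩) =
      (A ((j : ℕ) + 1) : ℂ) * ((gg n (((j : ℕ) : ℝ) + 1) : ℂ) * cc n ((j : ℕ) + 1)) := by
    rw [gg_mul_cc_succ hj]
    ring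
  have e2 : cc n j * (((((((j : ℕ) : ℝ) + 1 / 2) / 2 - 1 / 2) / (n : ℝ) ^ 2 -
      bet n (((j : ℕ) : ℝ) + 1 / 2)) * A j : ℝ) : ℂ) =
      (((((((j : ℕ) : ℝ) + 1 / 2) / 2 - 1 / 2) / (n : ℝ) ^ 2 -
      bet n (((j : ℕ) : ℝ) + 1 / 2)) * A j : ℝ) : ℂ) * cc n j := by ring
  rw [e1, e2, e3, ph_smul, ph_smul, ph_smul, ph_smul]
  have e4 : (if (j : ℕ) = 0 then 0 else
        gg n j * (A ((j : ℕ) - 1) * ph b (cc n ((j : ℕ) - 1)))) =
      A ((j : ℕ) - 1) * ph b (cc n j * ⟨bet n (j : ℕ) / 2, -(kap n (j : ℕ) / 2)⟩) := by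
    by_cases h0 : (j : ℕ) = 0
    · rw [if_pos h0]
      have : (⟨bet n (j : ℕ) / 2, -(kap n (j : ℕ) / 2)⟩ : ℂ) = 0 := by
        rw [h0]
        apply Complex.ext
        · simp [bet]
        · simp [kap]
      rw [this, mul_zero]
      cases b <;> simp [ph]
    · rw [if_neg h0]
      have h1 := gg_mul_cc (n := n) (j := (j : ℕ) - 1) (by
        rw [Nat.cast_sub (by omega)]
        push_cast
        linarith)
      have h2 : (j : ℕ) - 1 + 1 = j := by omega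
      have hc : ((((j : ℕ) - 1 : ℕ) : ℝ)) + 1 = ((j : ℕ) : ℝ) := by
        rw [Nat.cast_sub (by omega)]
        push_cast
        ring
      rw [hc, h2] at h1
      rw [← h1, ph_smul]
      ring
  rw [e4]
  ring

lemma opT_zero {n : ℕ} (c : ℝ) {A : ℕ → ℝ} (hA : ∀ j, n ≤ j → A j = 0) (b : Bool) (j : Fin n)
    (h1 : A ((j : ℕ) - 1) = 0) (h2 : A j = 0) (h3 : A ((j : ℕ) + 1) = 0) :
    opT n (uu c A n b) j = 0 := by
  rw [opT_apply c hA b j, h1, h2, h3]
  simp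

/-! ### The boundary -/

lemma abs_log_sub_le {x t : ℝ} (hx : 1 ≤ x) (ht : |t - x| ≤ 1 / 2) : |log t - log x| ≤ 1 / x := by
  obtain ⟨h1, h2⟩ := abs_le.mp ht
  have hx0 : 0 < x := by linarith
  have ht0 : 0 < t := by linarith
  rw [abs_le]
  constructor
  · have := Real.log_le_sub_one_of_pos (show 0 < x / t by positivity)
    rw [Real.log_div hx0.ne' ht0.ne'] at this
    have h3 : x / t - 1 ≤ 1 / x := by
      rw [div_sub_one ht0.ne', div_le_div_iff₀ ht0 hx0]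
      nlinarith
    linarith
  · have := Real.log_le_sub_one_of_pos (show 0 < t / x by positivity)
    rw [Real.log_div ht0.ne' hx0.ne'] at this
    have h3 : t / x - 1 ≤ 1 / x := by
      rw [div_sub_one hx0.ne']
      apply div_le_div_of_nonneg_right _ hx0.le
      linarith
    linarith

lemma edge {α y : ℝ} (hα : 0 ≤ α) {x t : ℝ} (hx : 1 ≤ x) (ht : |t - x| ≤ 1 / 2)
    (hs : sin (α * (log x - y)) = 0) : x * |am α y t| ≤ 2 * α / √x := by
  obtain ⟨h1, h2⟩ := abs_le.mp ht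
  have hx0 : 0 < x := by linarith
  have ht0 : 0 < t := by linarith
  have hlog := abs_log_sub_le hx ht
  have e : α * (log t - y) = α * (log t - log x) + α * (log x - y) := by ring
  have h3 : |sin (α * (log t - y))| ≤ α * (1 / x) := by
    rw [e, sin_add, hs, mul_zero, add_zero, abs_mul]
    calc |sin (α * (log t - log x))| * |cos (α * (log x - y))| ≤ |α * (log t - log x)| * 1 :=
          mul_le_mul (abs_sin_le_abs (x := α * (log t - log x))) (abs_cos_le_one _) (abs_nonneg _) (abs_nonneg _)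
      _ = α * |log t - log x| := by rw [mul_one, abs_mul, abs_of_nonneg hα]
      _ ≤ _ := mul_le_mul_of_nonneg_left hlog hα
  have h4 : √x / 2 ≤ √t := by
    have h5 : √(x / 4) ≤ √t := Real.sqrt_le_sqrt (by linarith)
    rwa [Real.sqrt_div' x (by norm_num), show (4 : ℝ) = 2 ^ 2 by norm_num,
      Real.sqrt_sq (by norm_num)] at h5
  have hsx : 0 < √x := Real.sqrt_pos.mpr hx0
  have hst : 0 < √t := Real.sqrt_pos.mpr ht0
  unfold am
  rw [abs_div, abs_of_pos hst, mul_div_assoc', div_le_div_iff₀ hst hsx]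
  have h6 : x * |sin (α * (log t - y))| ≤ α := by
    calc x * |sin (α * (log t - y))| ≤ x * (α * (1 / x)) := mul_le_mul_of_nonneg_left h3 hx0.le
      _ = α := by field_simp
  calc x * |sin (α * (log t - y))| * √x ≤ α * √x := mul_le_mul_of_nonneg_right h6 hsx.le
    _ ≤ α * (2 * √t) := mul_le_mul_of_nonneg_left (by linarith) hα
    _ = 2 * α * √t := by ring

lemma norm_half {n : ℕ} {b : ℝ} (hb : 0 ≤ b) (hbn : b ≤ n / 2) (ε : ℝ) (hε : ε ^ 2 = 1) :
    ‖(⟨bet n b / 2, ε * (kap n b / 2)⟩ : ℂ)‖ ≤ b := by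
  have h1 := bet_sq_add_kap_sq hb hbn
  have h2 := sq_div_le hb hbn
  have h3 : 0 ≤ b ^ 2 / (n : ℝ) ^ 2 := by positivity
  have hg : gg n b ≤ b := by
    unfold gg
    nlinarith
  have hg0 : 0 ≤ gg n b := by
    unfold gg
    exact mul_nonneg hb (by linarith)
  have h4 : ‖(⟨bet n b / 2, ε * (kap n b / 2)⟩ : ℂ)‖ ^ 2 = gg n b ^ 2 := by
    rw [← Complex.normSq_eq_norm_sq, Complex.normSq_apply]
    simp only
    have : ε * (kap n b / 2) * (ε * (kap n b / 2)) = ε ^ 2 * (kap n b ^ 2) / 4 := by ring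
    rw [this, hε]
    linarith
  have h5 : ‖(⟨bet n b / 2, ε * (kap n b / 2)⟩ : ℂ)‖ = gg n b := by
    rwa [sq_eq_sq₀ (norm_nonneg _) hg0] at h4
  rw [h5]
  exact hg

end Pool.Agent.H66.OneArm

end

section

/-!
# Errors of the truncated quasi-modes
-/

open Finset Real Matrix

namespace Pool.Agent.H66.OneArm

lemma Rr_eq (n j : ℕ) (a b c : ℝ) : Rr n j a b c =
    (a : ℂ) * ⟨bet n (j : ℕ) / 2, -1 * (kap n (j : ℕ) / 2)⟩ +
      ((((((j : ℕ) : ℝ) + 1 / 2) / 2 - 1 / 2) / (n : ℝ) ^ 2 - bet n (((j : ℕ) : ℝ) + 1 / 2) : ℝ) : ℂ) * b +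
      (c : ℂ) * ⟨bet n (((j : ℕ) : ℝ) + 1) / 2, 1 * (kap n (((j : ℕ) : ℝ) + 1) / 2)⟩ := by
  unfold Rr
  apply Complex.ext
  · simp only [Complex.add_re, Complex.mul_re, Complex.ofReal_re, Complex.ofReal_im]
    ring
  · simp only [Complex.add_im, Complex.mul_im, Complex.ofReal_re, Complex.ofReal_im]
    ring

/-- Bound of interior errors. -/
noncomputable def Ib (n : ℕ) (α s : ℝ) : ℝ :=
  18 * (1 + α) ^ 2 * (1 / √s) * (6 / s + 20 * (s ^ 2 / (n : ℝ) ^ 2))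

/-- Bound of all errors. -/
noncomputable def EE (n N₀ N₁ : ℕ) (α : ℝ) (j : ℕ) : ℝ :=
  (if N₀ ≤ j ∧ j < N₁ then Ib n α ((j : ℝ) + 1 / 2) else 0) +
  (if j = N₀ then 2 * α / √N₀ else 0) + (if j + 1 = N₁ then 2 * α / √N₀ else 0) +
  (if j + 1 = N₀ then 2 * α / √N₀ else 0) + (if j = N₁ then 2 * α / √N₀ else 0)

noncomputable def mmT (N₀ N₁ : ℕ) (α y : ℝ) (j : ℕ) : ℝ :=
  if N₀ ≤ j ∧ j < N₁ then mm α y ((j : ℝ) + 1 / 2) else 0

lemma edge' {α y : ℝ} (hα : 0 ≤ α) {N₀ N : ℕ} (h0 : 1 ≤ N₀) (h : N₀ ≤ N) {t : ℝ}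
    (ht : |t - N| ≤ 1 / 2) (hs : sin (α * (log N - y)) = 0) :
    N * |am α y t| ≤ 2 * α / √N₀ := by
  have h1 : (1 : ℝ) ≤ N₀ := by exact_mod_cast h0
  have h2 : (N₀ : ℝ) ≤ N := by exact_mod_cast h
  refine (edge hα (h1.trans h2) ht hs).trans ?_
  have h3 : √(N₀ : ℝ) ≤ √(N : ℝ) := Real.sqrt_le_sqrt h2
  have h4 : 0 < √(N₀ : ℝ) := Real.sqrt_pos.mpr (by linarith)
  exact div_le_div_of_nonneg_left (by positivity) h4 h3

theorem err_le {α y : ℝ} (hα : 0 ≤ α) {n N₀ N₁ : ℕ} (h0 : 1 ≤ N₀) (h : N₀ < N₁)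
    (hs0 : sin (α * (log N₀ - y)) = 0) (hs1 : sin (α * (log N₁ - y)) = 0) {j : ℕ}
    (hj : (j : ℝ) + 1 ≤ n / 2) :
    ‖Rr n j (AA α y N₀ N₁ (j - 1)) (AA α y N₀ N₁ j) (AA α y N₀ N₁ (j + 1)) -
      ⟨0, mmT N₀ N₁ α y j⟩‖ ≤ EE n N₀ N₁ α j := by
  have hB : 0 ≤ 2 * α / √(N₀ : ℝ) := by positivity
  by_cases hin : N₀ ≤ j ∧ j < N₁
  · obtain ⟨hj0, hj1⟩ := hin
    have hint := interior hα y (h0.trans hj0) hj
    set s : ℝ := (j : ℝ) + 1 / 2 with hsdef
    have e1 : Rr n j (AA α y N₀ N₁ (j - 1)) (AA α y N₀ N₁ j) (AA α y N₀ N₁ (j + 1)) -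
        ⟨0, mmT N₀ N₁ α y j⟩ = (Rr n j (am α y (s - 1)) (am α y s) (am α y (s + 1)) -
        ⟨0, mm α y s⟩) + ((AA α y N₀ N₁ (j - 1) - am α y (s - 1) : ℝ) : ℂ) *
          ⟨bet n (j : ℕ) / 2, -1 * (kap n (j : ℕ) / 2)⟩ +
        ((AA α y N₀ N₁ (j + 1) - am α y (s + 1) : ℝ) : ℂ) *
          ⟨bet n (((j : ℕ) : ℝ) + 1) / 2, 1 * (kap n (((j : ℕ) : ℝ) + 1) / 2)⟩ := by
      have e2 : AA α y N₀ N₁ j = am α y s := by
        unfold AA
        rw [if_pos ⟨hj0, hj1⟩]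
      have e3 : mmT N₀ N₁ α y j = mm α y s := by
        unfold mmT
        rw [if_pos ⟨hj0, hj1⟩]
      rw [e2, e3, Rr_eq, Rr_eq n j (am α y (s - 1))]
      push_cast
      ring
    rw [e1]
    have hk0 : ‖((AA α y N₀ N₁ (j - 1) - am α y (s - 1) : ℝ) : ℂ) *
          ⟨bet n (j : ℕ) / 2, -1 * (kap n (j : ℕ) / 2)⟩‖ ≤
        (if j = N₀ then 2 * α / √N₀ else 0) := by
      by_cases hjN : j = N₀
      · rw [if_pos hjN]
        have e2 : AA α y N₀ N₁ (j - 1) = 0 := by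
          unfold AA
          rw [if_neg (by omega)]
        rw [e2, zero_sub, norm_mul, Complex.norm_real, Real.norm_eq_abs, abs_neg]
        have h2 := norm_half (n := n) (b := (j : ℝ)) (by positivity) (by linarith) (-1) (by norm_num)
        have h3 := edge' (y := y) hα h0 hj0 (t := s - 1) (by
          have : s - 1 - j = -(1 / 2) := by rw [hsdef]; ring
          rw [this, abs_neg, abs_of_pos (by norm_num)]) (by rw [hjN]; exact hs0)
        calc _ ≤ |am α y (s - 1)| * j := mul_le_mul_of_nonneg_left h2 (abs_nonneg _)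
          _ = j * |am α y (s - 1)| := mul_comm _ _
          _ ≤ _ := h3
      · rw [if_neg hjN]
        have e2 : AA α y N₀ N₁ (j - 1) = am α y (s - 1) := by
          unfold AA
          rw [if_pos (by omega), Nat.cast_sub (by omega)]
          congr 1
          rw [hsdef]
          push_cast
          ring
        rw [e2, sub_self]
        simp
    have hk1 : ‖((AA α y N₀ N₁ (j + 1) - am α y (s + 1) : ℝ) : ℂ) *
          ⟨bet n (((j : ℕ) : ℝ) + 1) / 2, 1 * (kap n (((j : ℕ) : ℝ) + 1) / 2)⟩‖ ≤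
        (if j + 1 = N₁ then 2 * α / √N₀ else 0) := by
      by_cases hjN : j + 1 = N₁
      · rw [if_pos hjN]
        have e2 : AA α y N₀ N₁ (j + 1) = 0 := by
          unfold AA
          rw [if_neg (by omega)]
        rw [e2, zero_sub, norm_mul, Complex.norm_real, Real.norm_eq_abs, abs_neg]
        have h2 := norm_half (n := n) (b := (j : ℝ) + 1) (by positivity) hj 1 (by norm_num)
        have hc : ((N₁ : ℕ) : ℝ) = (j : ℝ) + 1 := by rw [← hjN]; push_cast; ring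
        have h3 := edge' (y := y) hα h0 h.le (t := s + 1) (by
          have : s + 1 - N₁ = 1 / 2 := by rw [hsdef, hc]; ring
          rw [this, abs_of_pos (by norm_num)]) hs1
        rw [hc] at h3
        calc _ ≤ |am α y (s + 1)| * ((j : ℝ) + 1) := mul_le_mul_of_nonneg_left h2 (abs_nonneg _)
          _ = ((j : ℝ) + 1) * |am α y (s + 1)| := mul_comm _ _
          _ ≤ _ := h3
      · rw [if_neg hjN]
        have e2 : AA α y N₀ N₁ (j + 1) = am α y (s + 1) := by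
          unfold AA
          rw [if_pos (by omega)]
          congr 1
          rw [hsdef]
          push_cast
          ring
        rw [e2, sub_self]
        simp
    refine (norm_add₃_le).trans ?_
    unfold EE
    rw [if_pos ⟨hj0, hj1⟩]
    have h5 : (0 : ℝ) ≤ (if j + 1 = N₀ then 2 * α / √(N₀ : ℝ) else 0) := by
      split_ifs <;> positivity
    have h6 : (0 : ℝ) ≤ (if j = N₁ then 2 * α / √(N₀ : ℝ) else 0) := by
      split_ifs <;> positivity
    have h7 : ‖Rr n j (am α y (s - 1)) (am α y s) (am α y (s + 1)) - ⟨0, mm α y s⟩‖ ≤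
        Ib n α ((j : ℝ) + 1 / 2) := hint
    linarith
  · have e0 : mmT N₀ N₁ α y j = 0 := by
      unfold mmT
      rw [if_neg hin]
    have e0' : AA α y N₀ N₁ j = 0 := by
      unfold AA
      rw [if_neg hin]
    have e00 : (⟨0, 0⟩ : ℂ) = 0 := rfl
    rw [e0, e0', e00, sub_zero, Rr_eq]
    unfold EE
    rw [if_neg hin]
    have h2' : (0 : ℝ) ≤ (if j = N₀ then 2 * α / √(N₀ : ℝ) else 0) := by
      split_ifs <;> positivity
    have h3' : (0 : ℝ) ≤ (if j + 1 = N₁ then 2 * α / √(N₀ : ℝ) else 0) := by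
      split_ifs <;> positivity
    have h4' : (0 : ℝ) ≤ (if j + 1 = N₀ then 2 * α / √(N₀ : ℝ) else 0) := by
      split_ifs <;> positivity
    have h5' : (0 : ℝ) ≤ (if j = N₁ then 2 * α / √(N₀ : ℝ) else 0) := by
      split_ifs <;> positivity
    by_cases hA : j + 1 = N₀
    · have e1 : AA α y N₀ N₁ (j - 1) = 0 := by
        unfold AA
        rw [if_neg (by omega)]
      have hc : ((N₀ : ℕ) : ℝ) = (j : ℝ) + 1 := by rw [← hA]; push_cast; ring
      have e2 : AA α y N₀ N₁ (j + 1) = am α y ((j : ℝ) + 1 + 1 / 2) := by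
        unfold AA
        rw [if_pos (by omega)]
        push_cast
        rfl
      rw [e1, e2, Complex.ofReal_zero, zero_mul, mul_zero, zero_add, zero_add, norm_mul,
        Complex.norm_real, Real.norm_eq_abs]
      have h2 := norm_half (n := n) (b := (j : ℝ) + 1) (by positivity) hj 1 (by norm_num)
      have h3 := edge' (y := y) hα h0 le_rfl (t := (j : ℝ) + 1 + 1 / 2) (by
          have : (j : ℝ) + 1 + 1 / 2 - N₀ = 1 / 2 := by rw [hc]; ring
          rw [this, abs_of_pos (by norm_num)]) hs0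
      rw [if_pos hA]
      have h4 : |am α y ((j : ℝ) + 1 + 1 / 2)| * ‖(⟨bet n ((j : ℝ) + 1) / 2,
          1 * (kap n ((j : ℝ) + 1) / 2)⟩ : ℂ)‖ ≤ 2 * α / √(N₀ : ℝ) := by
        calc _ ≤ |am α y ((j : ℝ) + 1 + 1 / 2)| * ((j : ℝ) + 1) :=
              mul_le_mul_of_nonneg_left h2 (abs_nonneg _)
          _ = (N₀ : ℝ) * |am α y ((j : ℝ) + 1 + 1 / 2)| := by rw [mul_comm, hc]
          _ ≤ _ := h3
      linarith
    · by_cases hA1 : j = N₁
      · have e1 : AA α y N₀ N₁ (j + 1) = 0 := by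
          unfold AA
          rw [if_neg (by omega)]
        have e2 : AA α y N₀ N₁ (j - 1) = am α y ((j : ℝ) - 1 / 2) := by
          unfold AA
          rw [if_pos (by omega), Nat.cast_sub (by omega)]
          congr 1
          push_cast
          ring
        rw [e1, e2, Complex.ofReal_zero, zero_mul, mul_zero, add_zero, add_zero, norm_mul,
          Complex.norm_real, Real.norm_eq_abs]
        have h2 := norm_half (n := n) (b := (j : ℝ)) (by positivity) (by linarith) (-1) (by norm_num)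
        have h3 := edge' (y := y) hα h0 h.le (t := (j : ℝ) - 1 / 2) (by
            have : (j : ℝ) - 1 / 2 - N₁ = -(1 / 2) := by rw [hA1]; ring
            rw [this, abs_neg, abs_of_pos (by norm_num)]) hs1
        rw [if_pos hA1]
        have h4 : |am α y ((j : ℝ) - 1 / 2)| * ‖(⟨bet n (j : ℝ) / 2,
            -1 * (kap n (j : ℝ) / 2)⟩ : ℂ)‖ ≤ 2 * α / √(N₀ : ℝ) := by
          calc _ ≤ |am α y ((j : ℝ) - 1 / 2)| * (j : ℝ) :=
                mul_le_mul_of_nonneg_left h2 (abs_nonneg _)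
            _ = (N₁ : ℝ) * |am α y ((j : ℝ) - 1 / 2)| := by rw [mul_comm, hA1]
            _ ≤ _ := h3
        linarith
      · have e1 : AA α y N₀ N₁ (j + 1) = 0 := by
          unfold AA
          rw [if_neg (by omega)]
        have e2 : AA α y N₀ N₁ (j - 1) = 0 := by
          unfold AA
          rw [if_neg (by omega)]
        rw [e1, e2, Complex.ofReal_zero, zero_mul, mul_zero, zero_mul, add_zero, add_zero, norm_zero]
        linarith

end Pool.Agent.H66.OneArm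

end

section

/-!
# Gram matrix and energies of the quasi-modes
-/

open Finset Real Matrix

namespace Pool.Agent.H66.OneArm

lemma Ib_sq_le {n N₀ N₁ j : ℕ} {α : ℝ} (h0 : 1 ≤ N₀) (hj0 : N₀ ≤ j) (hj1 : j < N₁) (hn : 1 ≤ n) :
    Ib n α ((j : ℝ) + 1 / 2) ^ 2 ≤ (18 * (1 + α) ^ 2) ^ 2 *
      (72 / N₀ * (1 / (j : ℝ) ^ 2) + 800 * ((N₁ : ℝ) ^ 3 / (n : ℝ) ^ 4)) := by
  have hN : (1 : ℝ) ≤ N₀ := by exact_mod_cast h0
  have hjN : (N₀ : ℝ) ≤ j := by exact_mod_cast hj0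
  have hjN1 : (j : ℝ) + 1 ≤ N₁ := by exact_mod_cast hj1
  have hn' : (0 : ℝ) < n := by exact_mod_cast hn
  have hj : (0 : ℝ) < j := by linarith
  set s : ℝ := (j : ℝ) + 1 / 2 with hs
  have hs0 : 0 < s := by positivity
  have hS : (√s) ^ 2 = s := Real.sq_sqrt hs0.le
  have hS0 : 0 < √s := Real.sqrt_pos.mpr hs0
  have e1 : Ib n α s ^ 2 = (18 * (1 + α) ^ 2) ^ 2 *
      (1 / s * (6 / s + 20 * (s ^ 2 / (n : ℝ) ^ 2)) ^ 2) := by
    unfold Ib
    have : (1 / √s) ^ 2 = 1 / s := by rw [div_pow, one_pow, hS]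
    rw [mul_pow, mul_pow, this]
    ring
  rw [e1]
  apply mul_le_mul_of_nonneg_left _ (by positivity)
  have e2 : (6 / s + 20 * (s ^ 2 / (n : ℝ) ^ 2)) ^ 2 ≤
      2 * ((6 / s) ^ 2 + (20 * (s ^ 2 / (n : ℝ) ^ 2)) ^ 2) := by
    nlinarith [sq_nonneg (6 / s - 20 * (s ^ 2 / (n : ℝ) ^ 2))]
  have e3 : 1 / s * (2 * ((6 / s) ^ 2 + (20 * (s ^ 2 / (n : ℝ) ^ 2)) ^ 2)) =
      72 * (1 / s ^ 3) + 800 * (s ^ 3 / (n : ℝ) ^ 4) := by
    field_simp
    ring
  refine (mul_le_mul_of_nonneg_left e2 (by positivity)).trans ?_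
  rw [e3]
  have e4 : 1 / s ^ 3 ≤ 1 / N₀ * (1 / (j : ℝ) ^ 2) := by
    rw [div_mul_div_comm, one_mul]
    apply div_le_div_of_nonneg_left (by norm_num) (by positivity)
    have h1 : (N₀ : ℝ) * (j : ℝ) ^ 2 ≤ s * s ^ 2 :=
      mul_le_mul (by linarith) (pow_le_pow_left₀ hj.le (by linarith) 2) (by positivity) hs0.le
    linarith [show s * s ^ 2 = s ^ 3 by ring]
  have e5 : s ^ 3 / (n : ℝ) ^ 4 ≤ (N₁ : ℝ) ^ 3 / (n : ℝ) ^ 4 := by
    apply div_le_div_of_nonneg_right _ (by positivity)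
    exact pow_le_pow_left₀ hs0.le (by linarith) 3
  have e6 : 72 / (N₀ : ℝ) * (1 / (j : ℝ) ^ 2) = 72 * (1 / N₀ * (1 / (j : ℝ) ^ 2)) := by ring
  rw [e6]
  linarith

lemma sq_add5 (a b c d e : ℝ) : (a + b + c + d + e) ^ 2 ≤ 5 * (a ^ 2 + b ^ 2 + c ^ 2 + d ^ 2 + e ^ 2) := by
  nlinarith [sq_nonneg (a - b), sq_nonneg (a - c), sq_nonneg (a - d), sq_nonneg (a - e),
    sq_nonneg (b - c), sq_nonneg (b - d), sq_nonneg (b - e), sq_nonneg (c - d), sq_nonneg (c - e),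
    sq_nonneg (d - e)]

lemma sum_ite_Ico {N₀ N₁ n : ℕ} (hn : N₁ ≤ n) (f : ℕ → ℝ) :
    ∑ j ∈ range n, (if N₀ ≤ j ∧ j < N₁ then f j else 0) = ∑ j ∈ Ico N₀ N₁, f j := by
  rw [← Finset.sum_filter]
  congr 1
  ext j
  simp only [Finset.mem_filter, Finset.mem_range, Finset.mem_Ico]
  omega

lemma sum_ite_le (n a : ℕ) {B : ℝ} (hB : 0 ≤ B) {P : ℕ → Prop} [DecidablePred P]
    (hP : ∀ j, P j → j = a) : ∑ j ∈ range n, (if P j then B else 0) ≤ B := by
  have h1 : ∑ j ∈ range n, (if P j then B else 0) ≤ ∑ j ∈ range n, (if j = a then B else 0) := by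
    refine Finset.sum_le_sum fun j _ => ?_
    by_cases h : P j
    · rw [if_pos h, if_pos (hP j h)]
    · rw [if_neg h]
      split_ifs <;> simp [hB]
  refine h1.trans ?_
  rw [Finset.sum_ite_eq']
  split_ifs <;> simp [hB]

theorem sum_EE_sq_le {n N₀ N₁ : ℕ} {α : ℝ} (hα : 0 ≤ α) (h0 : 1 ≤ N₀) (h : N₀ < N₁) (hn : N₁ ≤ n) :
    ∑ j ∈ range n, EE n N₀ N₁ α j ^ 2 ≤
      4000 * (18 * (1 + α) ^ 2) ^ 2 * (1 / N₀ + ((N₁ : ℝ) / n) ^ 4) := by
  have hN : (1 : ℝ) ≤ N₀ := by exact_mod_cast h0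
  have hN0 : (0 : ℝ) < N₀ := by linarith
  have hn1 : 1 ≤ n := by omega
  have hn' : (0 : ℝ) < n := by exact_mod_cast hn1
  set M : ℝ := (18 * (1 + α) ^ 2) ^ 2 with hM
  have hB : 0 ≤ 2 * α / √(N₀ : ℝ) := by positivity
  have hB2 : (2 * α / √(N₀ : ℝ)) ^ 2 = 4 * α ^ 2 * (1 / N₀) := by
    rw [div_pow, Real.sq_sqrt hN0.le]
    ring
  have hstep : ∀ j ∈ range n, EE n N₀ N₁ α j ^ 2 ≤
      5 * ((if N₀ ≤ j ∧ j < N₁ then M *
        (72 / N₀ * (1 / (j : ℝ) ^ 2) + 800 * ((N₁ : ℝ) ^ 3 / (n : ℝ) ^ 4)) else 0) +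
      (if j = N₀ then (2 * α / √N₀) ^ 2 else 0) + (if j + 1 = N₁ then (2 * α / √N₀) ^ 2 else 0) +
      (if j + 1 = N₀ then (2 * α / √N₀) ^ 2 else 0) + (if j = N₁ then (2 * α / √N₀) ^ 2 else 0)) := by
    intro j _
    unfold EE
    refine (sq_add5 _ _ _ _ _).trans ?_
    have hsq : ∀ (P : Prop) [Decidable P] (x : ℝ), (if P then x else 0) ^ 2 = if P then x ^ 2 else 0 := by
      intro P _ x
      split_ifs <;> simp
    rw [hsq, hsq, hsq, hsq, hsq]
    apply mul_le_mul_of_nonneg_left _ (by norm_num)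
    gcongr
    split_ifs with hc
    · exact Ib_sq_le h0 hc.1 hc.2 hn1
    · exact le_rfl
  refine (Finset.sum_le_sum hstep).trans ?_
  rw [← Finset.mul_sum, Finset.sum_add_distrib, Finset.sum_add_distrib, Finset.sum_add_distrib,
    Finset.sum_add_distrib, sum_ite_Ico hn, ← Finset.mul_sum, Finset.sum_add_distrib, ← Finset.mul_sum,
    Finset.sum_const, nsmul_eq_mul, Nat.card_Ico]
  have s1 := sum_ite_le n N₀ (sq_nonneg (2 * α / √(N₀ : ℝ))) (P := fun j => j = N₀) (fun j h => h)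
  have s2 := sum_ite_le n (N₁ - 1) (sq_nonneg (2 * α / √(N₀ : ℝ))) (P := fun j => j + 1 = N₁)
    (fun j h => by omega)
  have s3 := sum_ite_le n (N₀ - 1) (sq_nonneg (2 * α / √(N₀ : ℝ))) (P := fun j => j + 1 = N₀)
    (fun j h => by omega)
  have s4 := sum_ite_le n N₁ (sq_nonneg (2 * α / √(N₀ : ℝ))) (P := fun j => j = N₁) (fun j h => h)
  have s5 := sum_inv_sq_le h0 h.le
  have s6 : 72 / (N₀ : ℝ) * ∑ j ∈ Ico N₀ N₁, 1 / (j : ℝ) ^ 2 ≤ 144 * (1 / N₀) := by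
    calc 72 / (N₀ : ℝ) * ∑ j ∈ Ico N₀ N₁, 1 / (j : ℝ) ^ 2 ≤ 72 / (N₀ : ℝ) * (2 / N₀) :=
          mul_le_mul_of_nonneg_left s5 (by positivity)
      _ = 144 * (1 / N₀) * (1 / N₀) := by ring
      _ ≤ 144 * (1 / N₀) * 1 := by
          apply mul_le_mul_of_nonneg_left _ (by positivity)
          rw [div_le_one hN0]
          exact hN
      _ = _ := mul_one _
  have s7 : ((N₁ - N₀ : ℕ) : ℝ) * (800 * ((N₁ : ℝ) ^ 3 / (n : ℝ) ^ 4)) ≤ 800 * ((N₁ : ℝ) / n) ^ 4 := by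
    have h1 : ((N₁ - N₀ : ℕ) : ℝ) ≤ N₁ := by exact_mod_cast Nat.sub_le _ _
    calc ((N₁ - N₀ : ℕ) : ℝ) * (800 * ((N₁ : ℝ) ^ 3 / (n : ℝ) ^ 4)) ≤
          N₁ * (800 * ((N₁ : ℝ) ^ 3 / (n : ℝ) ^ 4)) := mul_le_mul_of_nonneg_right h1 (by positivity)
      _ = _ := by rw [div_pow]; ring
  have hMα : α ^ 2 ≤ M := by
    rw [hM]
    nlinarith [sq_nonneg (α * (1 + α)), mul_nonneg hα hα, pow_nonneg hα 3, pow_nonneg hα 4]
  rw [hB2] at s1 s2 s3 s4
  rw [hB2]
  have hr : 0 ≤ 1 / (N₀ : ℝ) := by positivity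
  have hM0 : 0 ≤ M := by positivity
  have s8 := mul_le_mul_of_nonneg_left (add_le_add s6 s7) hM0
  have s9 := mul_le_mul_of_nonneg_right hMα hr
  have s10 : 0 ≤ ((N₁ : ℝ) / n) ^ 4 := by positivity
  have s11 : 0 ≤ M * (1 / (N₀ : ℝ)) := by positivity
  nlinarith

end Pool.Agent.H66.OneArm

end

section

/-!
# Gram matrix and energies of the quasi-modes
-/

open Finset Real Matrix

namespace Pool.Agent.H66.OneArm

/-- The oscillating factor. -/
def osc (b b' : Bool) (z : ℂ) : ℝ :=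
  if b = b' then (if b then -z.re else z.re) else z.im

lemma abs_osc_le (b b' : Bool) (z : ℂ) : |osc b b' z| ≤ ‖z‖ := by
  unfold osc
  split_ifs
  · rw [abs_neg]; exact Complex.abs_re_le_norm z
  · exact Complex.abs_re_le_norm z
  · exact Complex.abs_im_le_norm z

lemma osc_sum (b b' : Bool) {ι : Type*} (s : Finset ι) (f : ι → ℝ) (z : ι → ℂ) :
    ∑ j ∈ s, f j * osc b b' (z j) = osc b b' (∑ j ∈ s, (f j : ℂ) * z j) := by
  unfold osc
  split_ifs
  · rw [Complex.re_sum, ← Finset.sum_neg_distrib]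
    exact Finset.sum_congr rfl fun j _ => by simp
  · rw [Complex.re_sum]
    exact Finset.sum_congr rfl fun j _ => by simp
  · rw [Complex.im_sum]
    exact Finset.sum_congr rfl fun j _ => by simp

lemma ph_mul_ph {z : ℂ} (hz : Complex.normSq z = 1) (b b' : Bool) :
    2 * (ph b z * ph b' z) = (if b = b' then 1 else 0) + osc b b' (z ^ 2) := by
  rw [Complex.normSq_apply] at hz
  unfold ph osc
  cases b <;> cases b' <;> simp [pow_two] <;> linarith

lemma ph_I {z : ℂ} (hz : Complex.normSq z = 1) (b : Bool) (m : ℝ) :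
    2 * ph b (z * ⟨0, m⟩) ^ 2 = m ^ 2 * (1 + osc (!b) (!b) (z ^ 2)) := by
  rw [Complex.normSq_apply] at hz
  unfold ph osc
  cases b
  · simp [pow_two]
    linear_combination (m * m) * hz
  · simp [pow_two]
    linear_combination (m * m) * hz

lemma am_mul_am {α α' y s : ℝ} (hs : 0 < s) :
    2 * (am α y s * am α' y s) = cs (α - α') y s - cs (α + α') y s := by
  unfold am cs
  have h : √s * √s = s := Real.mul_self_sqrt hs.le
  have e1 : (α - α') * (log s - y) = α * (log s - y) - α' * (log s - y) := by ring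
  have e2 : (α + α') * (log s - y) = α * (log s - y) + α' * (log s - y) := by ring
  rw [e1, e2, cos_sub, cos_add, div_mul_div_comm, h]
  ring

lemma mm_sq {α y s : ℝ} (hs : 0 < s) :
    2 * mm α y s ^ 2 = 3 * α ^ 2 * (cs 0 y s + cs (2 * α) y s) := by
  unfold mm cs
  have h : √s ^ 2 = s := Real.sq_sqrt hs.le
  have h3 : √3 ^ 2 = 3 := Real.sq_sqrt (by norm_num)
  have e2 : 2 * α * (log s - y) = 2 * (α * (log s - y)) := by ring
  rw [e2, cos_two_mul, mul_pow, div_pow, h, h3, zero_mul, cos_zero]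
  field_simp
  ring

/-- Bounded sums. -/
lemma sum_cs_osc_le (γ y : ℝ) {n N₀ N₁ : ℕ} (h0 : 1 ≤ N₀) (h : N₀ ≤ N₁)
    (hn : (N₁ : ℝ) + 2 ≤ n / 2) (b b' : Bool) :
    |∑ j ∈ Ico N₀ N₁, cs γ y ((j : ℝ) + 1 / 2) * osc b b' (cc n j ^ 2)| ≤ 6 * (1 + |γ|) / N₀ := by
  rw [osc_sum]
  exact (abs_osc_le _ _ _).trans (norm_sum_cs_cc_le γ y h0 h hn)

lemma dot_uu {n N₀ N₁ : ℕ} (hn : N₁ ≤ n) (c α α' y : ℝ) (b b' : Bool) :
    uu c (AA α y N₀ N₁) n b ⬝ᵥ uu c (AA α' y N₀ N₁) n b' =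
      ∑ j ∈ Ico N₀ N₁, c ^ 2 * (am α y ((j : ℝ) + 1 / 2) * am α' y ((j : ℝ) + 1 / 2) *
        (ph b (cc n j) * ph b' (cc n j))) := by
  rw [← sum_ite_Ico hn, dotProduct, ← Fin.sum_univ_eq_sum_range (fun j : ℕ => if N₀ ≤ j ∧ j < N₁ then
    c ^ 2 * (am α y ((j : ℝ) + 1 / 2) * am α' y ((j : ℝ) + 1 / 2) *
        (ph b (cc n j) * ph b' (cc n j))) else 0) n]
  refine Finset.sum_congr rfl fun j _ => ?_
  unfold uu AA
  split_ifs
  · ring
  · ring

/-- The frequencies. -/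
noncomputable def fr (N₀ N₁ k : ℕ) : ℝ := π * ((k : ℝ) + 1) / (log N₁ - log N₀)

lemma fr_nonneg {N₀ N₁ : ℕ} (h0 : 1 ≤ N₀) (h : N₀ < N₁) (k : ℕ) : 0 ≤ fr N₀ N₁ k := by
  have h1 : (0 : ℝ) < N₀ := by exact_mod_cast h0
  have h2 : (N₀ : ℝ) < N₁ := by exact_mod_cast h
  have h3 : 0 < log N₁ - log N₀ := sub_pos.mpr (Real.log_lt_log h1 h2)
  unfold fr
  have := pi_pos
  positivity

theorem gram_bound {n N₀ N₁ : ℕ} (h0 : 1 ≤ N₀) (h : N₀ < N₁) (hn : (N₁ : ℝ) + 2 ≤ n / 2)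
    (k k' : ℕ) (b b' : Bool) {X : ℝ} (hk : fr N₀ N₁ k ≤ X) (hk' : fr N₀ N₁ k' ≤ X) :
    |uu (2 / √(log N₁ - log N₀)) (AA (fr N₀ N₁ k) (log N₀) N₀ N₁) n b ⬝ᵥ
      uu (2 / √(log N₁ - log N₀)) (AA (fr N₀ N₁ k') (log N₀) N₀ N₁) n b' -
      (if k = k' ∧ b = b' then 1 else 0)| ≤ 16 * (1 + 2 * X) / ((log N₁ - log N₀) * N₀) := by
  have h1 : (0 : ℝ) < N₀ := by exact_mod_cast h0
  have h2 : (N₀ : ℝ) < N₁ := by exact_mod_cast h
  have hl : 0 < log N₁ - log N₀ := sub_pos.mpr (Real.log_lt_log h1 h2)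
  have hNn : N₁ ≤ n := by
    have h3 : (0 : ℝ) ≤ N₁ := by positivity
    have : (N₁ : ℝ) ≤ n := by linarith
    exact_mod_cast this
  have hα := fr_nonneg h0 h k
  have hα' := fr_nonneg h0 h k'
  set l := log N₁ - log N₀ with hldef
  set α := fr N₀ N₁ k with hαdef
  set α' := fr N₀ N₁ k' with hαdef'
  have hc2 : (2 / √l) ^ 2 = 4 / l := by
    rw [div_pow, Real.sq_sqrt hl.le]
    norm_num
  rw [dot_uu hNn, hc2]
  have hjn : ∀ j ∈ Ico N₀ N₁, (j : ℝ) ≤ n / 2 := by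
    intro j hj
    have : (j : ℝ) ≤ N₁ := by exact_mod_cast (Finset.mem_Ico.mp hj).2.le
    linarith
  have e1 : ∀ j ∈ Ico N₀ N₁, 4 / l * (am α (log N₀) ((j : ℝ) + 1 / 2) * am α' (log N₀) ((j : ℝ) + 1 / 2) *
        (ph b (cc n j) * ph b' (cc n j))) =
      1 / l * ((if b = b' then 1 else 0) * (cs (α - α') (log N₀) ((j : ℝ) + 1 / 2) -
        cs (α + α') (log N₀) ((j : ℝ) + 1 / 2)) +
        (cs (α - α') (log N₀) ((j : ℝ) + 1 / 2) * osc b b' (cc n j ^ 2) -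
        cs (α + α') (log N₀) ((j : ℝ) + 1 / 2) * osc b b' (cc n j ^ 2))) := by
    intro j hj
    have h3 := ph_mul_ph (normSq_cc (hjn j hj)) b b'
    have h4 := am_mul_am (α := α) (α' := α') (y := log N₀) (s := (j : ℝ) + 1 / 2) (by positivity)
    have h5 : 4 / l * (am α (log N₀) ((j : ℝ) + 1 / 2) * am α' (log N₀) ((j : ℝ) + 1 / 2) *
        (ph b (cc n j) * ph b' (cc n j))) =
        1 / l * ((2 * (am α (log N₀) ((j : ℝ) + 1 / 2) * am α' (log N₀) ((j : ℝ) + 1 / 2))) *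
        (2 * (ph b (cc n j) * ph b' (cc n j)))) := by ring
    rw [h5, h3, h4]
    ring
  rw [Finset.sum_congr rfl e1, ← Finset.mul_sum, Finset.sum_add_distrib, ← Finset.mul_sum,
    Finset.sum_sub_distrib, Finset.sum_sub_distrib]
  have hX : 0 ≤ X := hα.trans hk
  have hb1 : |α - α'| ≤ 2 * X := by
    rw [abs_le]
    constructor <;> linarith
  have hb2 : |α + α'| ≤ 2 * X := by
    rw [abs_le]
    constructor <;> linarith
  have hmono : ∀ (K : ℝ), 0 ≤ K → ∀ γ : ℝ, |γ| ≤ 2 * X → K * (1 + |γ|) / N₀ ≤ K * (1 + 2 * X) / N₀ := by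
    intro K hK γ hγ
    apply div_le_div_of_nonneg_right _ h1.le
    exact mul_le_mul_of_nonneg_left (by linarith) hK
  have o1 := (sum_cs_osc_le (α - α') (log N₀) h0 h.le hn b b').trans (hmono 6 (by norm_num) _ hb1)
  have o2 := (sum_cs_osc_le (α + α') (log N₀) h0 h.le hn b b').trans (hmono 6 (by norm_num) _ hb2)
  have sinp : ∀ m : ℤ, ∀ γ : ℝ, γ * l = π * m → sin (γ * (log N₁ - log N₀)) = 0 := by
    intro m γ hγ
    rw [← hldef, hγ, mul_comm]
    exact sin_int_mul_pi m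
  have hαl : α * l = π * ((k : ℝ) + 1) := by
    rw [hαdef]
    unfold fr
    rw [← hldef]
    field_simp
  have hαl' : α' * l = π * ((k' : ℝ) + 1) := by
    rw [hαdef']
    unfold fr
    rw [← hldef]
    field_simp
  have hsum_pos : 0 < α + α' := by
    have h3 : 0 < (α + α') * l := by
      rw [add_mul, hαl, hαl']
      have := pi_pos
      positivity
    exact pos_of_mul_pos_left h3 hl.le
  have s2 := (sum_cs_of_ne (γ := α + α') hsum_pos.ne' h0 h.le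
    (sinp ((k : ℤ) + k' + 2) _ (by rw [add_mul, hαl, hαl']; push_cast; ring))).trans
    (hmono 2 (by norm_num) _ hb2)
  have s1 : |∑ j ∈ Ico N₀ N₁, cs (α - α') (log N₀) ((j : ℝ) + 1 / 2) - (if k = k' then l else 0)| ≤
      2 * (1 + 2 * X) / N₀ := by
    by_cases hkk : k = k'
    · have h3 : α - α' = 0 := by
        rw [hαdef, hαdef', hkk]
        ring
      rw [if_pos hkk, h3]
      refine (sum_cs_zero (log N₀) h0 h.le).trans ?_
      apply div_le_div_of_nonneg_right _ h1.le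
      linarith
    · rw [if_neg hkk, sub_zero]
      have h3 : α - α' ≠ 0 := by
        intro h4
        have h5 : (α - α') * l = 0 := by rw [h4, zero_mul]
        rw [sub_mul, hαl, hαl', ← mul_sub] at h5
        have h6 := (mul_eq_zero.mp h5).resolve_left pi_pos.ne'
        apply hkk
        have : (k : ℝ) = k' := by linarith
        exact_mod_cast this
      exact (sum_cs_of_ne (γ := α - α') h3 h0 h.le
        (sinp ((k : ℤ) - k') _ (by rw [sub_mul, hαl, hαl']; push_cast; ring))).trans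
        (hmono 2 (by norm_num) _ hb1)
  set S1 := ∑ j ∈ Ico N₀ N₁, cs (α - α') (log N₀) ((j : ℝ) + 1 / 2)
  set S2 := ∑ j ∈ Ico N₀ N₁, cs (α + α') (log N₀) ((j : ℝ) + 1 / 2)
  set O1 := ∑ j ∈ Ico N₀ N₁, cs (α - α') (log N₀) ((j : ℝ) + 1 / 2) * osc b b' (cc n j ^ 2)
  set O2 := ∑ j ∈ Ico N₀ N₁, cs (α + α') (log N₀) ((j : ℝ) + 1 / 2) * osc b b' (cc n j ^ 2)
  have e2 : 1 / l * ((if b = b' then 1 else 0) * (S1 - S2) + (O1 - O2)) -
      (if k = k' ∧ b = b' then 1 else 0) =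
      1 / l * ((if b = b' then 1 else 0) * ((S1 - (if k = k' then l else 0)) - S2) + (O1 - O2)) := by
    by_cases hb : b = b'
    · by_cases hkk : k = k'
      · rw [if_pos hb, if_pos ⟨hkk, hb⟩, if_pos hkk]
        field_simp
        ring
      · rw [if_pos hb, if_neg (fun h => hkk h.1), if_neg hkk]
        ring
    · rw [if_neg hb, if_neg (fun h => hb h.2)]
      ring
  rw [e2, abs_mul, abs_of_pos (show 0 < 1 / l by positivity)]
  have e3 : |(if b = b' then (1 : ℝ) else 0) * ((S1 - (if k = k' then l else 0)) - S2) + (O1 - O2)| ≤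
      16 * (1 + 2 * X) / N₀ := by
    have h3 : |(if b = b' then (1 : ℝ) else 0) * ((S1 - (if k = k' then l else 0)) - S2)| ≤
        |S1 - (if k = k' then l else 0)| + |S2| := by
      rw [abs_mul]
      have h4 : |(if b = b' then (1 : ℝ) else 0)| ≤ 1 := by
        split_ifs <;> simp
      calc _ ≤ 1 * |(S1 - (if k = k' then l else 0)) - S2| :=
            mul_le_mul_of_nonneg_right h4 (abs_nonneg _)
        _ ≤ _ := by
            rw [one_mul]
            exact abs_sub _ _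
    have h4 := abs_add_le ((if b = b' then (1 : ℝ) else 0) * ((S1 - (if k = k' then l else 0)) - S2))
      (O1 - O2)
    have h5 := abs_sub O1 O2
    have h6 : 16 * (1 + 2 * X) / (N₀ : ℝ) = 2 * (1 + 2 * X) / N₀ + 2 * (1 + 2 * X) / N₀ +
      (6 * (1 + 2 * X) / N₀ + 6 * (1 + 2 * X) / N₀) := by ring
    rw [h6]
    linarith
  calc 1 / l * |(if b = b' then (1 : ℝ) else 0) * ((S1 - (if k = k' then l else 0)) - S2) + (O1 - O2)|
      ≤ 1 / l * (16 * (1 + 2 * X) / N₀) := mul_le_mul_of_nonneg_left e3 (by positivity)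
    _ = _ := by
      field_simp

end Pool.Agent.H66.OneArm

end

section

/-!
# Energies of the quasi-modes
-/

open Finset Real Matrix

namespace Pool.Agent.H66.OneArm

lemma sq_add_le {x y E η : ℝ} (hη : 0 < η) (hy : |y| ≤ E) :
    (x + y) ^ 2 ≤ (1 + η) * x ^ 2 + (1 + 1 / η) * E ^ 2 := by
  have h1 : y ^ 2 ≤ E ^ 2 := by
    rw [← sq_abs y]
    exact pow_le_pow_left₀ (abs_nonneg _) hy 2
  have h2 : 2 * x * y ≤ η * x ^ 2 + 1 / η * y ^ 2 := by
    have h3 : 0 ≤ (η * x - y) ^ 2 / η := by positivity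
    have h4 : (η * x - y) ^ 2 / η = η * x ^ 2 + 1 / η * y ^ 2 - 2 * x * y := by
      field_simp
      ring
    linarith
  have h5 : (1 + 1 / η) * y ^ 2 ≤ (1 + 1 / η) * E ^ 2 :=
    mul_le_mul_of_nonneg_left h1 (by positivity)
  nlinarith

theorem energy_bound {n N₀ N₁ : ℕ} (h0 : 1 ≤ N₀) (h : N₀ < N₁) (hn : (N₁ : ℝ) + 2 ≤ n / 2)
    (k : ℕ) (b : Bool) {X η : ℝ} (hk : fr N₀ N₁ k ≤ X) (hη : 0 < η) (hl : 1 ≤ log N₁ - log N₀) :
    opT n (uu (2 / √(log N₁ - log N₀)) (AA (fr N₀ N₁ k) (log N₀) N₀ N₁) n b) ⬝ᵥ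
      opT n (uu (2 / √(log N₁ - log N₀)) (AA (fr N₀ N₁ k) (log N₀) N₀ N₁) n b) ≤
      (1 + η) * (3 * fr N₀ N₁ k ^ 2 + 48 * X ^ 2 * (1 + 2 * X) / N₀) +
      (1 + 1 / η) * (16000 * (18 * (1 + X) ^ 2) ^ 2 * (1 / N₀ + ((N₁ : ℝ) / n) ^ 4)) := by
  have h1 : (0 : ℝ) < N₀ := by exact_mod_cast h0
  have h2 : (N₀ : ℝ) < N₁ := by exact_mod_cast h
  have hNn : N₁ ≤ n := by
    have h3 : (0 : ℝ) ≤ N₁ := by positivity
    have : (N₁ : ℝ) ≤ n := by linarith
    exact_mod_cast this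
  have hα := fr_nonneg h0 h k
  have hlpos : 0 < log N₁ - log N₀ := by linarith
  set l := log N₁ - log N₀ with hldef
  set α := fr N₀ N₁ k with hαdef
  have hX : 0 ≤ X := hα.trans hk
  set c := 2 / √l with hc
  have hc2 : c ^ 2 = 4 / l := by
    rw [hc, div_pow, Real.sq_sqrt hlpos.le]
    norm_num
  have hA0 : ∀ j, n ≤ j → AA α (log N₀) N₀ N₁ j = 0 := by
    intro j hj
    unfold AA
    rw [if_neg (by omega)]
  have hαl : α * l = π * ((k : ℝ) + 1) := by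
    rw [hαdef]
    unfold fr
    rw [← hldef]
    field_simp
  have hs0 : sin (α * (log N₀ - log N₀)) = 0 := by simp
  have hs1 : sin (α * (log N₁ - log N₀)) = 0 := by
    rw [← hldef, hαl, mul_comm]
    have := sin_int_mul_pi ((k : ℤ) + 1)
    push_cast at this
    exact this
  have hα0 : 0 < α := by
    have h3 : 0 < α * l := by
      rw [hαl]
      have := pi_pos
      positivity
    exact pos_of_mul_pos_left h3 hlpos.le
  -- pointwise bound
  have hpt : ∀ j : Fin n, opT n (uu c (AA α (log N₀) N₀ N₁) n b) j *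
      opT n (uu c (AA α (log N₀) N₀ N₁) n b) j ≤
      c ^ 2 * ((1 + η) * (if N₀ ≤ (j : ℕ) ∧ (j : ℕ) < N₁ then
        ph b (cc n j * ⟨0, mm α (log N₀) ((j : ℕ) + 1 / 2)⟩) ^ 2 else 0) +
        (1 + 1 / η) * EE n N₀ N₁ α j ^ 2) := by
    intro j
    by_cases hj : ((j : ℕ) : ℝ) + 1 ≤ n / 2
    · rw [opT_eq c hA0 b j hj]
      have herr := err_le (y := log N₀) hα (n := n) h0 h hs0 hs1 hj
      set R := Rr n j (AA α (log N₀) N₀ N₁ ((j : ℕ) - 1)) (AA α (log N₀) N₀ N₁ j)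
        (AA α (log N₀) N₀ N₁ ((j : ℕ) + 1)) with hR
      have e1 : cc n j * R = cc n j * ⟨0, mmT N₀ N₁ α (log N₀) j⟩ +
          cc n j * (R - ⟨0, mmT N₀ N₁ α (log N₀) j⟩) := by ring
      have e2 : |ph b (cc n j * (R - ⟨0, mmT N₀ N₁ α (log N₀) j⟩))| ≤ EE n N₀ N₁ α j := by
        refine (abs_ph_le _ _).trans ?_
        rw [norm_mul, norm_cc (by linarith), one_mul]
        exact herr
      have e3 := sq_add_le (x := ph b (cc n j * ⟨0, mmT N₀ N₁ α (log N₀) j⟩)) hη e2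
      have e4 : ph b (cc n j * ⟨0, mmT N₀ N₁ α (log N₀) j⟩) ^ 2 =
          (if N₀ ≤ (j : ℕ) ∧ (j : ℕ) < N₁ then
            ph b (cc n j * ⟨0, mm α (log N₀) ((j : ℕ) + 1 / 2)⟩) ^ 2 else 0) := by
        unfold mmT
        split_ifs with hc
        · rfl
        · have : (⟨0, 0⟩ : ℂ) = 0 := rfl
          rw [this, mul_zero]
          cases b <;> simp [ph]
      rw [e4] at e3
      rw [e1, ph_add]
      calc c * (ph b (cc n j * ⟨0, mmT N₀ N₁ α (log N₀) j⟩) +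
            ph b (cc n j * (R - ⟨0, mmT N₀ N₁ α (log N₀) j⟩))) *
          (c * (ph b (cc n j * ⟨0, mmT N₀ N₁ α (log N₀) j⟩) +
            ph b (cc n j * (R - ⟨0, mmT N₀ N₁ α (log N₀) j⟩)))) =
          c ^ 2 * (ph b (cc n j * ⟨0, mmT N₀ N₁ α (log N₀) j⟩) +
            ph b (cc n j * (R - ⟨0, mmT N₀ N₁ α (log N₀) j⟩))) ^ 2 := by ring
        _ ≤ _ := mul_le_mul_of_nonneg_left e3 (sq_nonneg c)
    · have hjN : N₁ + 1 < (j : ℕ) := by
        have : ((N₁ + 1 : ℕ) : ℝ) < ((j : ℕ) : ℝ) := by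
          push_cast
          linarith [not_le.mp hj]
        exact_mod_cast this
      have hz : opT n (uu c (AA α (log N₀) N₀ N₁) n b) j = 0 := by
        apply opT_zero c hA0 b j
        · unfold AA
          rw [if_neg (by omega)]
        · unfold AA
          rw [if_neg (by omega)]
        · unfold AA
          rw [if_neg (by omega)]
      rw [hz, zero_mul]
      rw [if_neg (by omega)]
      positivity
  rw [dotProduct]
  refine (Finset.sum_le_sum fun j _ => hpt j).trans ?_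
  rw [Fin.sum_univ_eq_sum_range (fun j : ℕ => c ^ 2 * ((1 + η) * (if N₀ ≤ j ∧ j < N₁ then
        ph b (cc n j * ⟨0, mm α (log N₀) (j + 1 / 2)⟩) ^ 2 else 0) +
        (1 + 1 / η) * EE n N₀ N₁ α j ^ 2)) n, ← Finset.mul_sum, Finset.sum_add_distrib,
    ← Finset.mul_sum, ← Finset.mul_sum, sum_ite_Ico hNn]
  have hEE := sum_EE_sq_le hα h0 h hNn
  have hjn : ∀ j ∈ Ico N₀ N₁, (j : ℝ) ≤ n / 2 := by
    intro j hj
    have : (j : ℝ) ≤ N₁ := by exact_mod_cast (Finset.mem_Ico.mp hj).2.le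
    linarith
  have hmain : c ^ 2 * ∑ j ∈ Ico N₀ N₁, ph b (cc n j * ⟨0, mm α (log N₀) ((j : ℝ) + 1 / 2)⟩) ^ 2 ≤
      3 * α ^ 2 + 48 * X ^ 2 * (1 + 2 * X) / N₀ := by
    have e1 : ∀ j ∈ Ico N₀ N₁, ph b (cc n j * ⟨0, mm α (log N₀) ((j : ℝ) + 1 / 2)⟩) ^ 2 =
        3 / 4 * α ^ 2 * ((cs 0 (log N₀) ((j : ℝ) + 1 / 2) + cs (2 * α) (log N₀) ((j : ℝ) + 1 / 2)) +
          (cs 0 (log N₀) ((j : ℝ) + 1 / 2) * osc (!b) (!b) (cc n j ^ 2) +
           cs (2 * α) (log N₀) ((j : ℝ) + 1 / 2) * osc (!b) (!b) (cc n j ^ 2))) := by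
      intro j hj
      have h3 := ph_I (normSq_cc (hjn j hj)) b (mm α (log N₀) ((j : ℝ) + 1 / 2))
      have h4 := mm_sq (α := α) (y := log N₀) (s := (j : ℝ) + 1 / 2) (by positivity)
      linear_combination (1 / 2) * h3 + (1 / 4) * (1 + osc (!b) (!b) (cc n j ^ 2)) * h4
    rw [Finset.sum_congr rfl e1, ← Finset.mul_sum, Finset.sum_add_distrib, Finset.sum_add_distrib,
      Finset.sum_add_distrib, hc2]
    have s1 := (abs_le.mp (sum_cs_zero (log N₀) h0 h.le)).2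
    have s2 := (abs_le.mp (sum_cs_of_ne (γ := 2 * α) (by positivity) h0 h.le (by
      rw [mul_assoc, ← hldef, hαl]
      have := sin_int_mul_pi (2 * ((k : ℤ) + 1))
      push_cast at this
      rw [← this]
      congr 1
      ring))).2
    have s3 := (abs_le.mp (sum_cs_osc_le 0 (log N₀) h0 h.le hn (!b) (!b))).2
    have s4 := (abs_le.mp (sum_cs_osc_le (2 * α) (log N₀) h0 h.le hn (!b) (!b))).2
    set S1 := ∑ j ∈ Ico N₀ N₁, cs 0 (log N₀) ((j : ℝ) + 1 / 2)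
    set S2 := ∑ j ∈ Ico N₀ N₁, cs (2 * α) (log N₀) ((j : ℝ) + 1 / 2)
    set S3 := ∑ j ∈ Ico N₀ N₁, cs 0 (log N₀) ((j : ℝ) + 1 / 2) * osc (!b) (!b) (cc n j ^ 2)
    set S4 := ∑ j ∈ Ico N₀ N₁, cs (2 * α) (log N₀) ((j : ℝ) + 1 / 2) * osc (!b) (!b) (cc n j ^ 2)
    rw [← hldef] at s1
    rw [abs_zero] at s3
    rw [abs_of_pos (show 0 < 2 * α by positivity)] at s2 s4
    have hr : ∀ K : ℝ, 0 ≤ K → K * (1 + 2 * α) / N₀ ≤ K * (1 + 2 * X) / N₀ := by
      intro K hK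
      apply div_le_div_of_nonneg_right _ h1.le
      exact mul_le_mul_of_nonneg_left (by linarith) hK
    have hr0 : ∀ K : ℝ, 0 ≤ K → K / N₀ ≤ K * (1 + 2 * X) / N₀ := by
      intro K hK
      apply div_le_div_of_nonneg_right _ h1.le
      nlinarith
    have t1 := hr0 2 (by norm_num)
    have t2 := hr 2 (by norm_num)
    have t3 := hr0 6 (by norm_num)
    have t4 := hr 6 (by norm_num)
    have t3' : 6 * (1 + 0) / (N₀ : ℝ) = 6 / N₀ := by norm_num
    have hsum : (S1 + S2) + (S3 + S4) ≤ l + 16 * (1 + 2 * X) / N₀ := by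
      have : 16 * (1 + 2 * X) / (N₀ : ℝ) = 2 * (1 + 2 * X) / N₀ + 2 * (1 + 2 * X) / N₀ +
        (6 * (1 + 2 * X) / N₀ + 6 * (1 + 2 * X) / N₀) := by ring
      linarith
    have e5 : 4 / l * (3 / 4 * α ^ 2 * ((S1 + S2) + (S3 + S4))) =
        3 * α ^ 2 / l * ((S1 + S2) + (S3 + S4)) := by ring
    rw [e5]
    calc 3 * α ^ 2 / l * ((S1 + S2) + (S3 + S4)) ≤ 3 * α ^ 2 / l * (l + 16 * (1 + 2 * X) / N₀) :=
          mul_le_mul_of_nonneg_left hsum (by positivity)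
      _ = 3 * α ^ 2 + 48 * α ^ 2 * (1 + 2 * X) / N₀ * (1 / l) := by
          field_simp
          ring
      _ ≤ 3 * α ^ 2 + 48 * α ^ 2 * (1 + 2 * X) / N₀ * 1 := by
          have : 1 / l ≤ 1 := by
            rw [div_le_one hlpos]
            exact hl
          have := mul_le_mul_of_nonneg_left this (show 0 ≤ 48 * α ^ 2 * (1 + 2 * X) / N₀ by positivity)
          linarith
      _ ≤ 3 * α ^ 2 + 48 * X ^ 2 * (1 + 2 * X) / N₀ := by
          rw [mul_one]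
          have h5 : α ^ 2 ≤ X ^ 2 := pow_le_pow_left₀ hα hk 2
          have h6 : 48 * α ^ 2 * (1 + 2 * X) / (N₀ : ℝ) ≤ 48 * X ^ 2 * (1 + 2 * X) / N₀ := by
            apply div_le_div_of_nonneg_right _ h1.le
            apply mul_le_mul_of_nonneg_right _ (by linarith)
            linarith
          linarith
  have hc4 : c ^ 2 ≤ 4 := by
    rw [hc2, div_le_iff₀ hlpos]
    linarith
  have hMX : (18 * (1 + α) ^ 2) ^ 2 ≤ (18 * (1 + X) ^ 2) ^ 2 := by
    have h3 : 1 + α ≤ 1 + X := by linarith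
    gcongr
  have hr5 : 0 ≤ 1 / (N₀ : ℝ) + ((N₁ : ℝ) / n) ^ 4 := by positivity
  have hEE2 : c ^ 2 * ∑ j ∈ range n, EE n N₀ N₁ α j ^ 2 ≤
      16000 * (18 * (1 + X) ^ 2) ^ 2 * (1 / N₀ + ((N₁ : ℝ) / n) ^ 4) := by
    have h4 : 4000 * (18 * (1 + α) ^ 2) ^ 2 * (1 / (N₀ : ℝ) + ((N₁ : ℝ) / n) ^ 4) ≤
        4000 * (18 * (1 + X) ^ 2) ^ 2 * (1 / N₀ + ((N₁ : ℝ) / n) ^ 4) := by
      apply mul_le_mul_of_nonneg_right _ hr5
      linarith
    have h5 : 0 ≤ ∑ j ∈ range n, EE n N₀ N₁ α j ^ 2 := Finset.sum_nonneg fun j _ => sq_nonneg _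
    calc c ^ 2 * ∑ j ∈ range n, EE n N₀ N₁ α j ^ 2 ≤ 4 * ∑ j ∈ range n, EE n N₀ N₁ α j ^ 2 :=
          mul_le_mul_of_nonneg_right hc4 h5
      _ ≤ 4 * (4000 * (18 * (1 + X) ^ 2) ^ 2 * (1 / N₀ + ((N₁ : ℝ) / n) ^ 4)) :=
          mul_le_mul_of_nonneg_left (hEE.trans h4) (by norm_num)
      _ = _ := by ring
  have hη1 : 0 ≤ 1 + η := by linarith
  have hη2 : 0 ≤ 1 + 1 / η := by positivity
  have f1 := mul_le_mul_of_nonneg_left hmain hη1
  have f2 := mul_le_mul_of_nonneg_left hEE2 hη2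
  calc _ = (1 + η) * (c ^ 2 * ∑ j ∈ Ico N₀ N₁, ph b (cc n j * ⟨0, mm α (log N₀) ((j : ℝ) + 1 / 2)⟩) ^ 2) +
        (1 + 1 / η) * (c ^ 2 * ∑ j ∈ range n, EE n N₀ N₁ α j ^ 2) := by ring
    _ ≤ _ := add_le_add f1 f2

end Pool.Agent.H66.OneArm

end

section

/-!
# Existence of the quasi-modes
-/

open Matrix Filter Topology Real

namespace Pool.Agent.H66.OneArm

/-- M4 (quasi-modes). -/
theorem exists_quasi {X δ η : ℝ} (hX : 0 < X) (hδ : 0 < δ) (hδ' : δ < 1 / 4) (hη : 0 < η) :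
    ∀ᶠ n : ℕ in atTop, ∃ (l : ℝ) (K : ℕ) (u : Fin K → Bool → Fin n → ℝ),
      (1 - 3 * δ) * log n ≤ l ∧ l ≤ log n ∧ X * l / π - 1 ≤ K ∧ (K : ℝ) ≤ X * l / π ∧
      (∀ k b k' b', |u k b ⬝ᵥ u k' b' - (if k = k' ∧ b = b' then 1 else 0)| ≤ η / (2 * log n)) ∧
      ∀ k b, (((n : ℝ) ^ 2)⁻¹ • (trid n *ᵥ u k b) - (1 / 2 : ℝ) • u k b) ⬝ᵥ
          (((n : ℝ) ^ 2)⁻¹ • (trid n *ᵥ u k b) - (1 / 2 : ℝ) • u k b) ≤
            3 * (π * ((k : ℕ) + 1) / l) ^ 2 + η := by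
  have hcast : Tendsto (fun n : ℕ => (n : ℝ)) atTop atTop := tendsto_natCast_atTop_atTop
  set η' : ℝ := η / (9 * X ^ 2) with hη'
  have hη'0 : 0 < η' := by positivity
  set Ca : ℝ := (1 + η') * (48 * X ^ 2 * (1 + 2 * X)) with hCa
  set Cb : ℝ := (1 + 1 / η') * (16000 * (18 * (1 + X) ^ 2) ^ 2) with hCb
  have hCa0 : 0 ≤ Ca := by positivity
  have hCb0 : 0 ≤ Cb := by positivity
  -- limits
  have ht : Tendsto (fun n : ℕ => (n : ℝ) ^ (-δ)) atTop (𝓝 0) :=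
    (tendsto_rpow_neg_atTop hδ).comp hcast
  have htlog : Tendsto (fun n : ℕ => log (n : ℝ) / (n : ℝ) ^ δ) atTop (𝓝 0) :=
    (isLittleO_log_rpow_atTop hδ).tendsto_div_nhds_zero.comp hcast
  have hlog : Tendsto (fun n : ℕ => log (n : ℝ)) atTop atTop := tendsto_log_atTop.comp hcast
  have hpow : Tendsto (fun n : ℕ => (n : ℝ) ^ (1 - δ)) atTop atTop :=
    (tendsto_rpow_atTop (by linarith)).comp hcast
  have E1 : ∀ᶠ n : ℕ in atTop, (n : ℝ) ^ (-δ) ≤ 1 / 4 :=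
    ht.eventually (eventually_le_nhds (by norm_num))
  have E2 : ∀ᶠ n : ℕ in atTop, (n : ℝ) ^ (-δ) ≤ η / (3 * (Ca + 1)) :=
    ht.eventually (eventually_le_nhds (by positivity))
  have E3 : ∀ᶠ n : ℕ in atTop, (n : ℝ) ^ (-δ) ≤ η / (6 * (Cb + 1)) :=
    ht.eventually (eventually_le_nhds (by positivity))
  have E4 : ∀ᶠ n : ℕ in atTop, log (n : ℝ) / (n : ℝ) ^ δ ≤ η / (32 * (1 + 2 * X)) :=
    htlog.eventually (eventually_le_nhds (by positivity))
  have E5 : ∀ᶠ n : ℕ in atTop, max (4 / δ) 8 ≤ log (n : ℝ) := hlog.eventually_ge_atTop _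
  have E6 : ∀ᶠ n : ℕ in atTop, (2 : ℝ) ≤ (n : ℝ) ^ (1 - δ) := hpow.eventually_ge_atTop _
  filter_upwards [E1, E2, E3, E4, E5, E6, eventually_ge_atTop 8] with n e1 e2 e3 e4 e5 e6 e7
  have hn8 : (8 : ℝ) ≤ n := by exact_mod_cast e7
  have hn0 : (0 : ℝ) < n := by linarith
  have hn1 : (1 : ℝ) ≤ n := by linarith
  set t : ℝ := (n : ℝ) ^ (-δ) with htdef
  have ht0 : 0 < t := Real.rpow_pos_of_pos hn0 _
  have htinv : (n : ℝ) ^ δ = 1 / t := by
    rw [htdef, Real.rpow_neg hn0.le]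
    simp
  have hnt : (n : ℝ) ^ (1 - δ) = n * t := by
    rw [htdef, sub_eq_add_neg, Real.rpow_add hn0, Real.rpow_one]
  set N₀ : ℕ := ⌈(n : ℝ) ^ δ⌉₊ with hN0
  set N₁ : ℕ := ⌊(n : ℝ) ^ (1 - δ)⌋₊ with hN1
  have hδ1 : (1 : ℝ) ≤ (n : ℝ) ^ δ := Real.one_le_rpow hn1 hδ.le
  have hN0a : (n : ℝ) ^ δ ≤ N₀ := Nat.le_ceil _
  have hN0b : (N₀ : ℝ) ≤ 2 * (n : ℝ) ^ δ := by
    have := (Nat.ceil_lt_add_one (show (0 : ℝ) ≤ (n : ℝ) ^ δ by linarith)).le
    linarith
  have hN1a : (N₁ : ℝ) ≤ (n : ℝ) ^ (1 - δ) := Nat.floor_le (by linarith)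
  have hN1b : (n : ℝ) ^ (1 - δ) / 2 ≤ N₁ := by
    have := (Nat.lt_floor_add_one ((n : ℝ) ^ (1 - δ))).le
    linarith
  have hN0pos : (0 : ℝ) < N₀ := by linarith
  have hN1pos : (0 : ℝ) < N₁ := by linarith
  have h0 : 1 ≤ N₀ := by
    have : (1 : ℝ) ≤ N₀ := by linarith
    exact_mod_cast this
  have hlogn : 0 < log (n : ℝ) := Real.log_pos (by linarith)
  have e5a : 4 / δ ≤ log (n : ℝ) := (le_max_left _ _).trans e5
  have e5b : 8 ≤ log (n : ℝ) := (le_max_right _ _).trans e5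
  have hlog2 : log 2 ≤ 1 := by
    have := Real.log_le_sub_one_of_pos (show (0 : ℝ) < 2 by norm_num)
    linarith
  have l1 : (1 - δ) * log n - 1 ≤ log N₁ := by
    have h1 := Real.log_le_log (by positivity) hN1b
    rw [Real.log_div (by positivity) (by norm_num), Real.log_rpow hn0] at h1
    linarith
  have l0 : log N₀ ≤ δ * log n + 1 := by
    have h1 := Real.log_le_log hN0pos hN0b
    rw [Real.log_mul (by norm_num) (by positivity), Real.log_rpow hn0] at h1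
    linarith
  have l1' : log N₁ ≤ (1 - δ) * log n := by
    have h1 := Real.log_le_log hN1pos hN1a
    rwa [Real.log_rpow hn0] at h1
  have l0' : 0 ≤ log N₀ := Real.log_natCast_nonneg _
  set l : ℝ := log N₁ - log N₀ with hl
  have hδlog : 4 ≤ δ * log n := by
    rw [div_le_iff₀ hδ] at e5a
    linarith
  have hl1 : (1 - 3 * δ) * log n ≤ l := by
    rw [hl]
    nlinarith only [l1, l0, hδlog]
  have hl2 : l ≤ log n := by
    rw [hl]
    nlinarith only [l1', l0', hδlog]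
  have hlge : 1 ≤ l := by
    have : (1 / 4 : ℝ) * log n ≤ (1 - 3 * δ) * log n := mul_le_mul_of_nonneg_right (by linarith) hlogn.le
    linarith
  have h : N₀ < N₁ := by
    have h1 : log N₀ < log N₁ := by linarith
    have h2 : (N₀ : ℝ) < N₁ := (Real.log_lt_log_iff hN0pos hN1pos).mp h1
    exact_mod_cast h2
  have hnN : (N₁ : ℝ) + 2 ≤ n / 2 := by
    rw [hnt] at hN1a
    have : (n : ℝ) * t ≤ n * (1 / 4) := mul_le_mul_of_nonneg_left e1 hn0.le
    linarith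
  have hXl : 0 ≤ X * l / π := by
    have := pi_pos
    positivity
  set K : ℕ := ⌊X * l / π⌋₊ with hK
  have hKle : (K : ℝ) ≤ X * l / π := Nat.floor_le hXl
  have hKge : X * l / π - 1 ≤ K := by
    have := (Nat.lt_floor_add_one (X * l / π)).le
    linarith
  have hlpos : 0 < l := by linarith
  have hfr : ∀ k : Fin K, fr N₀ N₁ k ≤ X := by
    intro k
    unfold fr
    rw [← hl, div_le_iff₀ hlpos]
    have h1 : ((k : ℕ) : ℝ) + 1 ≤ K := by exact_mod_cast k.2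
    have h2 : ((k : ℕ) : ℝ) + 1 ≤ X * l / π := h1.trans hKle
    rw [le_div_iff₀ pi_pos] at h2
    linarith
  have hinvN : 1 / (N₀ : ℝ) ≤ t := by
    rw [htinv] at hN0a
    rw [div_le_iff₀ hN0pos]
    have := mul_le_mul_of_nonneg_left hN0a ht0.le
    have h3 : t * (1 / t) = 1 := by field_simp
    linarith
  refine ⟨l, K, fun k b => uu (2 / √(log N₁ - log N₀)) (AA (fr N₀ N₁ k) (log N₀) N₀ N₁) n b,
    hl1, hl2, hKge, hKle, ?_, ?_⟩
  · intro k b k' b'
    have hg := gram_bound h0 h hnN k k' b b' (hfr k) (hfr k')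
    have e : (if k = k' ∧ b = b' then (1 : ℝ) else 0) =
        (if (k : ℕ) = k' ∧ b = b' then (1 : ℝ) else 0) := by
      simp only [Fin.ext_iff]
    rw [e]
    refine hg.trans ?_
    rw [← hl]
    have h3 : 16 * (1 + 2 * X) / (l * N₀) ≤ 16 * (1 + 2 * X) * t := by
      have h4 : 1 / l ≤ 1 := by
        rw [div_le_one hlpos]
        exact hlge
      calc 16 * (1 + 2 * X) / (l * N₀) = 16 * (1 + 2 * X) * (1 / N₀) * (1 / l) := by field_simp
        _ ≤ 16 * (1 + 2 * X) * (1 / N₀) * 1 := mul_le_mul_of_nonneg_left h4 (by positivity)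
        _ = 16 * (1 + 2 * X) * (1 / N₀) := mul_one _
        _ ≤ _ := mul_le_mul_of_nonneg_left hinvN (by positivity)
    refine h3.trans ?_
    rw [htinv] at e4
    have e4' : log n * t ≤ η / (32 * (1 + 2 * X)) := by
      have : log n / (1 / t) = log n * t := by field_simp
      linarith
    rw [le_div_iff₀ (by positivity)] at e4' ⊢
    linarith
  · intro k b
    have hE := energy_bound h0 h hnN k b (hfr k) hη'0 hlge
    have hop : ∀ v : Fin n → ℝ, ((n : ℝ) ^ 2)⁻¹ • (trid n *ᵥ v) - (1 / 2 : ℝ) • v = opT n v :=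
      fun v => rfl
    rw [hop]
    refine hE.trans ?_
    have hfrk : fr N₀ N₁ k = π * ((k : ℕ) + 1) / l := rfl
    rw [hfrk]
    have hα : (π * (((k : ℕ) : ℝ) + 1) / l) ^ 2 ≤ X ^ 2 := by
      have h1 := hfr k
      have h2 := fr_nonneg h0 h k
      rw [hfrk] at h1 h2
      exact pow_le_pow_left₀ h2 h1 2
    set α2 := (π * (((k : ℕ) : ℝ) + 1) / l) ^ 2 with hα2
    have hr1 : ((N₁ : ℝ) / n) ^ 4 ≤ t := by
      have h1 : (N₁ : ℝ) / n ≤ t := by
        rw [div_le_iff₀ hn0]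
        rw [hnt] at hN1a
        linarith only [hN1a]
      have h2 : ((N₁ : ℝ) / n) ^ 4 ≤ t ^ 4 := pow_le_pow_left₀ (by positivity) h1 4
      have h3 : t ^ 4 ≤ t := by
        have : t ^ 4 ≤ t ^ 1 := pow_le_pow_of_le_one ht0.le (by linarith only [e1]) (by norm_num)
        simpa using this
      linarith only [h2, h3]
    have g1 : (1 + η') * (48 * X ^ 2 * (1 + 2 * X) / N₀) ≤ η / 3 := by
      calc (1 + η') * (48 * X ^ 2 * (1 + 2 * X) / N₀) = Ca * (1 / N₀) := by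
            rw [hCa]
            ring
        _ ≤ Ca * t := mul_le_mul_of_nonneg_left hinvN hCa0
        _ ≤ (Ca + 1) * t := mul_le_mul_of_nonneg_right (by linarith only []) ht0.le
        _ ≤ (Ca + 1) * (η / (3 * (Ca + 1))) := mul_le_mul_of_nonneg_left e2 (by positivity)
        _ = η / 3 := by field_simp
    have g2 : (1 + 1 / η') * (16000 * (18 * (1 + X) ^ 2) ^ 2 * (1 / N₀ + ((N₁ : ℝ) / n) ^ 4)) ≤ η / 3 := by
      calc (1 + 1 / η') * (16000 * (18 * (1 + X) ^ 2) ^ 2 * (1 / N₀ + ((N₁ : ℝ) / n) ^ 4)) =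
            Cb * (1 / N₀ + ((N₁ : ℝ) / n) ^ 4) := by
            rw [hCb]
            ring
        _ ≤ Cb * (t + t) := mul_le_mul_of_nonneg_left (add_le_add hinvN hr1) hCb0
        _ ≤ (Cb + 1) * (t + t) := mul_le_mul_of_nonneg_right (by linarith only []) (by linarith)
        _ = 2 * (Cb + 1) * t := by ring
        _ ≤ 2 * (Cb + 1) * (η / (6 * (Cb + 1))) := mul_le_mul_of_nonneg_left e3 (by positivity)
        _ = η / 3 := by
          field_simp
          norm_num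
    have g3 : η' * (3 * α2) ≤ η / 3 := by
      calc η' * (3 * α2) ≤ η' * (3 * X ^ 2) := mul_le_mul_of_nonneg_left (by linarith only [hα]) hη'0.le
        _ = η / 3 := by
          rw [hη']
          field_simp
          norm_num
    nlinarith

end Pool.Agent.H66.OneArm

end

section

/-!
# The lower bound
-/

open Filter Topology Real Matrix

namespace Pool.Agent.H66.OneArm

/-- Comparison of the eigenvalues of the two matrices. -/
theorem HH_le_hh {t X : ℝ} (h0 : 0 < t) (h1 : t < π) (hX : 0 < X) :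
    ∀ᶠ n : ℕ in atTop, ∀ k : Fin n,
      HH t X (((TT_herm n).eigenvalues k - 1 / 2) ^ 2) ≤ hh t (mu n k) := by
  have hπ := pi_pos
  obtain ⟨C, hC, hrat⟩ := ratio_bound X
  have hc := neg_one_lt_cos h0 h1
  set b := hh t (2 * π * X / 3) with hb
  have hb0 : 0 < b := hh_pos h0 h1 _
  set D := 2 * cosh (2 * π * X / 3) / (1 + cos t) ^ 2 with hD
  have hD0 : 0 < D := by
    have := cosh_pos (2 * π * X / 3)
    have h2 : 0 < 1 + cos t := by linarith
    positivity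
  have hcast : Tendsto (fun n : ℕ => (n : ℝ) ^ 2) atTop atTop :=
    (tendsto_pow_atTop (by norm_num)).comp tendsto_natCast_atTop_atTop
  filter_upwards [hcast.eventually_ge_atTop C, hcast.eventually_ge_atTop (2 * C),
    hcast.eventually_ge_atTop (C * D / b), eventually_ge_atTop 1] with n e1 e2 e3 hn k
  have hn0 : (0 : ℝ) < (n : ℝ) ^ 2 := by
    have : (0 : ℝ) < n := by exact_mod_cast hn
    positivity
  have h3 : 0 < √3 := Real.sqrt_pos.mpr (by norm_num)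
  have h33 : √3 ^ 2 = 3 := Real.sq_sqrt (by norm_num)
  set τ := (TT_herm n).eigenvalues k with hτ
  set x := (τ - 1 / 2) / √3 with hx
  have hτx : τ = 1 / 2 + √3 * x := by
    rw [hx]
    field_simp
    ring
  have hE : (τ - 1 / 2) ^ 2 = 3 * |x| ^ 2 := by
    rw [hτx, sq_abs]
    have : (1 / 2 + √3 * x - 1 / 2) ^ 2 = √3 ^ 2 * x ^ 2 := by ring
    rw [this, h33]
  rw [hE]
  unfold HH
  have e4 : 3 * |x| ^ 2 / 3 = |x| ^ 2 := by ring
  rw [e4, Real.sqrt_sq (abs_nonneg x)]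
  apply max_le _ (hh_pos h0 h1 _).le
  rw [← hb]
  by_cases hxX : X ≤ |x|
  · have h4 : hh t (2 * π / 3 * |x|) ≤ b := by
      apply hh_anti h0 h1
      rw [abs_of_nonneg (by positivity), abs_of_nonneg (by positivity)]
      calc 2 * π * X / 3 = 2 * π / 3 * X := by ring
        _ ≤ _ := mul_le_mul_of_nonneg_left hxX (by positivity)
    have := (hh_pos h0 h1 (mu n k)).le
    linarith
  · push Not at hxX
    have hv : trid n *ᵥ evec n k = ((n : ℝ) ^ 2 * (1 / 2 + √3 * x)) • evec n k := by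
      rw [← hτx]
      exact trid_mulVec_evec n k
    have hr := hrat n x (evec n k) e1 hxX.le hv (pasc_mulVec_evec n k).1
    have hlam : (∑ j, evec n k j) / ext (evec n k) 0 = lam n k := rfl
    rw [hlam] at hr
    set ε := C / (n : ℝ) ^ 2 with hε
    have hε0 : 0 < ε := by positivity
    have hε1 : ε ≤ 1 / 2 := by
      rw [hε, div_le_iff₀ hn0]
      linarith
    have hεD : ε * D ≤ b := by
      rw [div_le_iff₀ hb0] at e3
      rw [hε, div_mul_eq_mul_div, div_le_iff₀ hn0]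
      linarith
    set y := 2 * π * x / 3 with hy
    have hyabs : |y| = 2 * π / 3 * |x| := by
      rw [hy]
      have : 2 * π * x / 3 = 2 * π / 3 * x := by ring
      rw [this, abs_mul, abs_of_pos (by positivity)]
    have hhy : hh t (2 * π / 3 * |x|) = hh t y := by
      unfold hh
      rw [← hyabs, cosh_abs]
    rw [hhy]
    obtain ⟨r1, r2⟩ := abs_le.mp hr
    have hlp := lam_pos n k
    set r := lam n k * exp (-y) with hrdef
    have hr0 : 0 < r := by positivity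
    have hlr : lam n k = r * exp y := by
      rw [hrdef, mul_assoc, ← Real.exp_add]
      simp
    -- `cosh μ ≤ cosh y / (1 - ε)`
    have hcosh : cosh (mu n k) * (1 - ε) ≤ cosh y := by
      have h5 : cosh (mu n k) = (r * exp y + r⁻¹ * exp (-y)) / 2 := by
        rw [Real.cosh_eq, Real.exp_neg, exp_mu, hlr, mul_inv, ← Real.exp_neg]
      have h6 : r * (1 - ε) ≤ 1 := by nlinarith
      have h7 : r⁻¹ * (1 - ε) ≤ 1 := by
        rw [inv_mul_le_iff₀ hr0]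
        linarith
      rw [h5, Real.cosh_eq]
      have h8 := mul_le_mul_of_nonneg_right h6 (exp_pos y).le
      have h9 := mul_le_mul_of_nonneg_right h7 (exp_pos (-y)).le
      linarith
    have hy2 : cosh y ≤ cosh (2 * π * X / 3) := by
      apply Real.cosh_le_cosh.mpr
      have hXabs : |2 * π * X / 3| = 2 * π * X / 3 := abs_of_nonneg (by positivity)
      rw [hyabs, hXabs]
      calc 2 * π / 3 * |x| ≤ 2 * π / 3 * X := mul_le_mul_of_nonneg_left hxX.le (by positivity)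
        _ = _ := by ring
    have hdiff : cosh (mu n k) - cosh y ≤ ε * (2 * cosh (2 * π * X / 3)) := by
      have h10 : cosh (mu n k) ≤ 2 * cosh y := by
        have := cosh_pos (mu n k)
        nlinarith
      have h11 : cosh (mu n k) - cosh y ≤ ε * cosh (mu n k) := by nlinarith
      have h12 : ε * cosh (mu n k) ≤ ε * (2 * cosh (2 * π * X / 3)) :=
        mul_le_mul_of_nonneg_left (by linarith) hε0.le
      linarith
    have hd1 := den_pos h0 h1 y
    have hd2 := den_pos h0 h1 (mu n k)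
    have hd1' : 1 + cos t ≤ cos t + cosh y := by linarith [one_le_cosh y]
    have hd2' : 1 + cos t ≤ cos t + cosh (mu n k) := by linarith [one_le_cosh (mu n k)]
    have hcpos : 0 < 1 + cos t := by linarith
    have hs1 := sin_le_one t
    have hs0 := sin_pos_of_pos_of_lt_pi h0 h1
    have e5 : hh t y - hh t (mu n k) =
        sin t * (cosh (mu n k) - cosh y) / ((cos t + cosh y) * (cos t + cosh (mu n k))) := by
      unfold hh
      field_simp
      ring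
    have e6 : hh t y - hh t (mu n k) ≤ ε * D := by
      rw [e5]
      have hnum : sin t * (cosh (mu n k) - cosh y) ≤ ε * (2 * cosh (2 * π * X / 3)) := by
        have h13 : sin t * (cosh (mu n k) - cosh y) ≤ sin t * (ε * (2 * cosh (2 * π * X / 3))) :=
          mul_le_mul_of_nonneg_left hdiff hs0.le
        have h14 : 0 ≤ ε * (2 * cosh (2 * π * X / 3)) := by
          have := cosh_pos (2 * π * X / 3)
          positivity
        nlinarith
      have h15 : (1 + cos t) ^ 2 ≤ (cos t + cosh y) * (cos t + cosh (mu n k)) := by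
        rw [sq]
        exact mul_le_mul hd1' hd2' hcpos.le hd1.le
      calc sin t * (cosh (mu n k) - cosh y) / ((cos t + cosh y) * (cos t + cosh (mu n k))) ≤
            ε * (2 * cosh (2 * π * X / 3)) / ((cos t + cosh y) * (cos t + cosh (mu n k))) :=
            div_le_div_of_nonneg_right hnum (by positivity)
        _ ≤ ε * (2 * cosh (2 * π * X / 3)) / (1 + cos t) ^ 2 := by
            apply div_le_div_of_nonneg_left _ (by positivity) h15
            have := cosh_pos (2 * π * X / 3)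
            positivity
        _ = ε * D := by
            rw [hD]
            ring
    linarith

/-- The lower bound for the sums of `h`. -/
theorem lower_bound {t : ℝ} (h0 : 0 < t) (h1 : t < π) {ε : ℝ} (hε : 0 < ε) :
    ∀ᶠ n : ℕ in atTop, (3 * t / π ^ 2 - ε) * log n ≤ ∑ k : Fin n, sin t / (cos t + cosh (mu n k)) := by
  have hπ := pi_pos
  have hlogt : Tendsto (fun n : ℕ => log (n : ℝ)) atTop atTop :=
    tendsto_log_atTop.comp tendsto_natCast_atTop_atTop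
  by_cases hneg : 3 * t / π ^ 2 - ε ≤ 0
  · filter_upwards [hlogt.eventually_ge_atTop 0] with n hn
    have h2 : 0 ≤ ∑ k : Fin n, sin t / (cos t + cosh (mu n k)) :=
      Finset.sum_nonneg fun k _ => (hh_pos h0 h1 (mu n k)).le
    exact (mul_nonpos_of_nonpos_of_nonneg hneg hn).trans h2
  push Not at hneg
  set ρ : ℝ := 1 - ε * π ^ 2 / (3 * t) with hρ
  have hρt : 3 * t / π ^ 2 - ε = ρ * (3 * t / π ^ 2) := by
    rw [hρ]
    field_simp
  have hρ1 : ρ < 1 := by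
    rw [hρ]
    have : 0 < ε * π ^ 2 / (3 * t) := by positivity
    linarith
  have hρ0 : 0 < ρ := by
    rw [hρt] at hneg
    exact pos_of_mul_pos_left hneg (by positivity)
  set r : ℝ := 1 - (1 - ρ) / 4 with hr
  have hr1 : r < 1 := by
    rw [hr]
    linarith
  have hr34 : 3 / 4 < r := by
    rw [hr]
    linarith
  have hr0 : 0 < r := by linarith
  have hrρ : ρ ≤ r ^ 4 := by
    have h2 := one_add_mul_le_pow (a := r - 1) (by linarith) 4
    have e : 1 + (r - 1) = r := by ring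
    rw [e] at h2
    refine le_trans (le_of_eq ?_) h2
    rw [hr]
    push_cast
    ring
  -- parameters
  obtain ⟨X, hX, hX1, hX2⟩ := exists_X h0 h1 (κ := (1 - r) * t / 3) (by
    have : 0 < 1 - r := by linarith
    positivity)
  obtain ⟨s, hs, hs1⟩ := exists_s (t := t) (κ := (1 - r) * t / 3) (by
    have : 0 < 1 - r := by linarith
    positivity)
  set σ : ℝ := s / π with hσ
  have hσ0 : 0 < σ := by positivity
  set δ : ℝ := (1 - r) / 3 with hδ
  have hδ0 : 0 < δ := by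
    rw [hδ]
    linarith
  have hδ1 : δ < 1 / 4 := by
    rw [hδ]
    linarith
  set η : ℝ := min (3 * σ ^ 2 / (1 + 3 * X ^ 2 + 3 * σ ^ 2)) (min (1 - r) ((1 / r - 1) * π / X)) with hη
  have hrinv : 0 < 1 / r - 1 := by
    rw [sub_pos, lt_div_iff₀ hr0]
    linarith
  have hη0 : 0 < η := by
    rw [hη]
    refine lt_min (by positivity) (lt_min (by linarith) (by positivity))
  have hη1 : η ≤ 3 * σ ^ 2 / (1 + 3 * X ^ 2 + 3 * σ ^ 2) := min_le_left _ _
  have hη2 : η ≤ 1 - r := (min_le_right _ _).trans (min_le_left _ _)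
  have hη3 : η ≤ (1 / r - 1) * π / X := (min_le_right _ _).trans (min_le_right _ _)
  have hη4 : η * (1 + 3 * X ^ 2 + 3 * σ ^ 2) ≤ 3 * σ ^ 2 := by
    rwa [le_div_iff₀ (by positivity)] at hη1
  have hη5 : η * X ≤ (1 / r - 1) * π := by
    rwa [le_div_iff₀ hX] at hη3
  filter_upwards [exists_quasi hX hδ0 hδ1 hη0, HH_le_hh h0 h1 hX, hlogt.eventually_ge_atTop 1,
    hlogt.eventually_ge_atTop (π ^ 2 / (s * r))] with n hq hH hn1 hn2
  obtain ⟨l, K, u, hl1, hl2, hK1, hK2, hG, hEn⟩ := hq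
  have hlogn : 0 < log (n : ℝ) := by linarith
  have hlr : r * log n ≤ l := by
    have : 1 - 3 * δ = r := by
      rw [hδ]
      ring
    rw [← this]
    exact hl1
  have hl0 : 0 < l := lt_of_lt_of_le (by positivity) hlr
  have hls : π ^ 2 ≤ s * l := by
    rw [div_le_iff₀ (mul_pos hs hr0)] at hn2
    calc π ^ 2 ≤ log n * (s * r) := hn2
      _ = s * (r * log n) := by ring
      _ ≤ s * l := mul_le_mul_of_nonneg_left hlr hs.le
  -- Bessel
  set ηn : ℝ := η / (2 * log n) with hηn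
  have hηn0 : 0 ≤ ηn := by positivity
  have hηn1 : ηn ≤ η := by
    rw [hηn, div_le_iff₀ (mul_pos two_pos hlogn)]
    exact le_mul_of_one_le_right hη0.le (by linarith only [hn1])
  set uι : Fin K × Bool → Fin n → ℝ := fun i => u i.1 i.2 with huι
  have hG' : ∀ i j, |uι i ⬝ᵥ uι j - (if i = j then 1 else 0)| ≤ ηn := by
    intro i j
    have h2 := hG i.1 i.2 j.1 j.2
    have e : (if i = j then (1 : ℝ) else 0) = if i.1 = j.1 ∧ i.2 = j.2 then 1 else 0 := by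
      simp only [Prod.ext_iff]
    rw [e]
    exact h2
  set A : ℝ := 1 + ηn * Fintype.card (Fin K × Bool) with hA
  have hAr : A ≤ 1 / r := by
    have hcard : (Fintype.card (Fin K × Bool) : ℝ) = 2 * K := by
      simp [mul_comm]
    rw [hA, hcard, hηn]
    have h2 : η / (2 * log n) * (2 * K) = η * (K / log n) := by field_simp
    rw [h2]
    have h3 : (K : ℝ) / log n ≤ X / π := by
      rw [div_le_div_iff₀ hlogn hπ]
      rw [le_div_iff₀ hπ] at hK2
      exact hK2.trans (mul_le_mul_of_nonneg_left hl2 hX.le)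
    have h4 : η * (K / log n) ≤ η * (X / π) := mul_le_mul_of_nonneg_left h3 hη0.le
    have h5 : η * (X / π) ≤ 1 / r - 1 := by
      rw [mul_div_assoc', div_le_iff₀ hπ]
      exact hη5
    linarith
  have hA0 : 0 ≤ A := by positivity
  have hself : ∀ i, 1 - η ≤ uι i ⬝ᵥ uι i ∧ uι i ⬝ᵥ uι i ≤ 1 + η := by
    intro i
    have h2 := hG' i i
    rw [if_pos rfl, abs_le] at h2
    constructor <;> linarith
  have hηlt : η < 1 := by linarith
  have htr := trace_lower (TT n) (TT_herm n) uι hA0 (bessel uι hG') (HH t X) (HH_convex h0 h1)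
    (fun E _ => HH_nonneg t X E) (1 / 2) (fun i => by linarith [(hself i).1])
  -- lower bound of the left side
  set Δ : ℝ := 2 * π ^ 2 / (3 * l) with hΔ
  have hΔ0 : 0 < Δ := by positivity
  set a : ℕ := ⌈σ * l / π⌉₊ with ha
  have ha1 : σ * l / π ≤ a := Nat.le_ceil _
  have ha2 : (a : ℝ) ≤ σ * l / π + 1 := (Nat.ceil_lt_add_one (by positivity)).le
  have hterm : ∀ i : Fin K × Bool, (1 - η) * (hh t (((i.1 : ℕ) + a + 1) * Δ) - hh t (2 * π * X / 3)) ≤
      (uι i ⬝ᵥ uι i) * HH t X (((TT n *ᵥ uι i - (1 / 2 : ℝ) • uι i) ⬝ᵥ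
        (TT n *ᵥ uι i - (1 / 2 : ℝ) • uι i)) / (uι i ⬝ᵥ uι i)) := by
    intro i
    set α : ℝ := π * ((i.1 : ℕ) + 1) / l with hα
    have hα0 : 0 ≤ α := by positivity
    have hαX : α ≤ X := by
      rw [hα, div_le_iff₀ hl0]
      have h2 : ((i.1 : ℕ) : ℝ) + 1 ≤ K := by exact_mod_cast i.1.2
      have h3 := h2.trans hK2
      rw [le_div_iff₀ hπ] at h3
      linarith
    have hE := hEn i.1 i.2
    have hTT : TT n *ᵥ uι i = ((n : ℝ) ^ 2)⁻¹ • (trid n *ᵥ uι i) := by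
      unfold TT
      rw [smul_mulVec]
    have hE' : (TT n *ᵥ uι i - (1 / 2 : ℝ) • uι i) ⬝ᵥ (TT n *ᵥ uι i - (1 / 2 : ℝ) • uι i) ≤
        3 * α ^ 2 + η := by
      rw [hTT]
      exact hE
    obtain ⟨hs1, hs2⟩ := hself i
    have hpos : 0 < uι i ⬝ᵥ uι i := by linarith
    have hquot : ((TT n *ᵥ uι i - (1 / 2 : ℝ) • uι i) ⬝ᵥ (TT n *ᵥ uι i - (1 / 2 : ℝ) • uι i)) /
        (uι i ⬝ᵥ uι i) ≤ 3 * (α + σ) ^ 2 := by
      rw [div_le_iff₀ hpos]
      have h4 : α ^ 2 ≤ X ^ 2 := pow_le_pow_left₀ hα0 hαX 2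
      have h5 : 3 * α ^ 2 + η ≤ (3 * (α ^ 2 + σ ^ 2)) * (1 - η) := by
        have h5a := mul_le_mul_of_nonneg_left h4 hη0.le
        have e1 : η * (1 + 3 * X ^ 2 + 3 * σ ^ 2) = η + 3 * (η * X ^ 2) + 3 * (η * σ ^ 2) := by ring
        have e2 : (3 * (α ^ 2 + σ ^ 2)) * (1 - η) =
          3 * α ^ 2 + 3 * σ ^ 2 - 3 * (η * α ^ 2) - 3 * (η * σ ^ 2) := by ring
        rw [e1] at hη4
        rw [e2]
        linarith only [h5a, hη4]
      have h6 : (3 * (α ^ 2 + σ ^ 2)) * (1 - η) ≤ 3 * (α + σ) ^ 2 * (uι i ⬝ᵥ uι i) := by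
        have e3 : 3 * (α + σ) ^ 2 = 3 * (α ^ 2 + σ ^ 2) + 6 * (α * σ) := by ring
        have h6a := mul_nonneg hα0 hσ0.le
        refine mul_le_mul ?_ hs1 (by linarith only [hηlt]) (by positivity)
        rw [e3]
        linarith only [h6a]
      linarith
    have hHm := HH_anti (X := X) h0 h1 hquot
    have hge := HH_ge (t := t) (X := X) (a := α + σ) (by positivity)
    have hshift : hh t (((i.1 : ℕ) + a + 1) * Δ) ≤ hh t (2 * π / 3 * (α + σ)) := by
      apply hh_anti h0 h1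
      rw [abs_of_nonneg (by positivity), abs_of_nonneg (by positivity)]
      have h7 : 2 * π / 3 * (α + σ) = ((i.1 : ℕ) + σ * l / π + 1) * Δ := by
        rw [hα, hΔ]
        field_simp
        ring
      rw [h7]
      apply mul_le_mul_of_nonneg_right _ hΔ0.le
      linarith
    have hHH0 := HH_nonneg t X (((TT n *ᵥ uι i - (1 / 2 : ℝ) • uι i) ⬝ᵥ
      (TT n *ᵥ uι i - (1 / 2 : ℝ) • uι i)) / (uι i ⬝ᵥ uι i))
    calc (1 - η) * (hh t (((i.1 : ℕ) + a + 1) * Δ) - hh t (2 * π * X / 3)) ≤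
          (1 - η) * HH t X (((TT n *ᵥ uι i - (1 / 2 : ℝ) • uι i) ⬝ᵥ
      (TT n *ᵥ uι i - (1 / 2 : ℝ) • uι i)) / (uι i ⬝ᵥ uι i)) := by
            apply mul_le_mul_of_nonneg_left _ (by linarith)
            linarith
      _ ≤ _ := mul_le_mul_of_nonneg_right hs1 hHH0
  have hsum := Finset.sum_le_sum fun i (_ : i ∈ (Finset.univ : Finset (Fin K × Bool))) => hterm i
  have hsumeq : ∑ i : Fin K × Bool, (1 - η) * (hh t (((i.1 : ℕ) + a + 1) * Δ) - hh t (2 * π * X / 3)) =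
      2 * (1 - η) * (∑ k ∈ Finset.Ico a (a + K), sin t / (cos t + cosh ((k + 1) * Δ)) -
        K * hh t (2 * π * X / 3)) := by
    rw [Fintype.sum_prod_type]
    simp only [Finset.sum_const, Finset.card_univ, Fintype.card_bool, nsmul_eq_mul]
    rw [← Finset.mul_sum, ← Finset.mul_sum, Finset.sum_sub_distrib,
      Fin.sum_univ_eq_sum_range (fun k : ℕ => hh t (((k : ℝ) + a + 1) * Δ)) K]
    simp only [Finset.sum_const, Finset.card_univ, Fintype.card_fin, nsmul_eq_mul]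
    rw [Finset.sum_Ico_eq_sum_range, Nat.add_sub_cancel_left]
    have e : ∀ k ∈ Finset.range K, hh t (((k : ℝ) + a + 1) * Δ) =
        sin t / (cos t + cosh ((((a + k : ℕ) : ℝ) + 1) * Δ)) := by
      intro k _
      unfold hh
      push_cast
      rw [add_comm (a : ℝ) k]
    rw [Finset.sum_congr rfl e]
    push_cast
    ring
  have hint := sum_h_ge h0 h1 hΔ0 a (a + K) (Nat.le_add_right _ _)
  have htan := tan_half_pos h0 h1
  have hup : 2 * arctan (tan (t / 2) * tanh (π * X / 3)) ≤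
      2 * arctan (tan (t / 2) * tanh ((((a + K : ℕ) : ℝ) + 1) * Δ / 2)) := by
    apply mul_le_mul_of_nonneg_left _ (by norm_num)
    apply arctan_mono
    apply mul_le_mul_of_nonneg_left _ htan.le
    apply tanh_mono
    push_cast
    have h8 : X * l / π ≤ a + K + 1 := by
      have : (0 : ℝ) ≤ a := by positivity
      linarith
    calc π * X / 3 = (X * l / π) * Δ / 2 := by
          rw [hΔ]
          field_simp
      _ ≤ (a + K + 1) * Δ / 2 := by
          apply div_le_div_of_nonneg_right _ (by norm_num)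
          exact mul_le_mul_of_nonneg_right h8 hΔ0.le
  have hlo : 2 * arctan (tan (t / 2) * tanh (((a : ℝ) + 1) * Δ / 2)) ≤
      2 * arctan (tan (t / 2) * tanh s) := by
    apply mul_le_mul_of_nonneg_left _ (by norm_num)
    apply arctan_mono
    apply mul_le_mul_of_nonneg_left _ htan.le
    apply tanh_mono
    calc ((a : ℝ) + 1) * Δ / 2 ≤ (σ * l / π + 2) * Δ / 2 := by
          apply div_le_div_of_nonneg_right _ (by norm_num)
          exact mul_le_mul_of_nonneg_right (by linarith) hΔ0.le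
      _ = s / 3 + 2 * π ^ 2 / (3 * l) := by
          rw [hΔ, hσ]
          field_simp
      _ ≤ s := by
          have : 2 * π ^ 2 / (3 * l) ≤ 2 / 3 * s := by
            rw [div_le_iff₀ (mul_pos three_pos hl0)]
            have e4 : 2 / 3 * s * (3 * l) = 2 * (s * l) := by ring
            rw [e4]
            linarith only [hls]
          linarith only [this]
  have hKb : Δ * (K * hh t (2 * π * X / 3)) ≤ (1 - r) * t / 3 := by
    have hhp := (hh_pos h0 h1 (2 * π * X / 3)).le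
    calc Δ * (K * hh t (2 * π * X / 3)) ≤ Δ * ((X * l / π) * hh t (2 * π * X / 3)) := by
          apply mul_le_mul_of_nonneg_left _ hΔ0.le
          exact mul_le_mul_of_nonneg_right hK2 hhp
      _ = 2 * π / 3 * X * hh t (2 * π * X / 3) := by
          rw [hΔ]
          field_simp
      _ ≤ _ := hX2
  set S₀ := ∑ k ∈ Finset.Ico a (a + K), sin t / (cos t + cosh (((k : ℝ) + 1) * Δ)) with hS₀
  have hmain : r * t ≤ Δ * (S₀ - K * hh t (2 * π * X / 3)) := by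
    rw [mul_sub]
    linarith only [hint, hup, hlo, hX1, hs1, hKb]
  have hmain2 : 3 * l / (2 * π ^ 2) * (r * t) ≤ S₀ - K * hh t (2 * π * X / 3) := by
    calc 3 * l / (2 * π ^ 2) * (r * t) ≤
          3 * l / (2 * π ^ 2) * (Δ * (S₀ - K * hh t (2 * π * X / 3))) :=
          mul_le_mul_of_nonneg_left hmain (by positivity)
      _ = _ := by
          rw [hΔ]
          field_simp
  -- conclusion
  have hfin : 2 * (1 - η) * (3 * l / (2 * π ^ 2) * (r * t)) ≤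
      A * ∑ k, HH t X (((TT_herm n).eigenvalues k - 1 / 2) ^ 2) := by
    refine le_trans ?_ ((hsumeq.symm.le.trans hsum).trans htr)
    exact mul_le_mul_of_nonneg_left hmain2 (by linarith)
  have hHsum : ∑ k, HH t X (((TT_herm n).eigenvalues k - 1 / 2) ^ 2) ≤
      ∑ k : Fin n, sin t / (cos t + cosh (mu n k)) := Finset.sum_le_sum fun k _ => hH k
  set SS := ∑ k : Fin n, sin t / (cos t + cosh (mu n k)) with hSS
  have hSS0 : 0 ≤ SS := Finset.sum_nonneg fun k _ => (hh_pos h0 h1 (mu n k)).le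
  have hA2 : A * ∑ k, HH t X (((TT_herm n).eigenvalues k - 1 / 2) ^ 2) ≤ 1 / r * SS := by
    calc _ ≤ A * SS := mul_le_mul_of_nonneg_left hHsum hA0
      _ ≤ _ := mul_le_mul_of_nonneg_right hAr hSS0
  have hfin2 : 2 * (1 - η) * (3 * l / (2 * π ^ 2) * (r * t)) ≤ 1 / r * SS := hfin.trans hA2
  have hfin3 : r * (2 * (1 - η) * (3 * l / (2 * π ^ 2) * (r * t))) ≤ SS := by
    have := mul_le_mul_of_nonneg_left hfin2 hr0.le
    have e : r * (1 / r * SS) = SS := by field_simp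
    linarith
  have hlow : r ^ 4 * (3 * t / π ^ 2) * log n ≤ r * (2 * (1 - η) * (3 * l / (2 * π ^ 2) * (r * t))) := by
    have e : r * (2 * (1 - η) * (3 * l / (2 * π ^ 2) * (r * t))) =
        (1 - η) * l * (r ^ 2 * (3 * t / π ^ 2)) := by
      field_simp
    have e2 : r ^ 4 * (3 * t / π ^ 2) * log n = (r * (r * log n)) * (r ^ 2 * (3 * t / π ^ 2)) := by ring
    rw [e, e2]
    apply mul_le_mul_of_nonneg_right _ (by positivity)
    exact mul_le_mul (by linarith) hlr (by positivity) (by linarith)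
  rw [hρt]
  have hρr : ρ * (3 * t / π ^ 2) * log n ≤ r ^ 4 * (3 * t / π ^ 2) * log n := by
    apply mul_le_mul_of_nonneg_right _ hlogn.le
    exact mul_le_mul_of_nonneg_right hrρ (by positivity)
  linarith

end Pool.Agent.H66.OneArm

end
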