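import Pool.Agent.H31.PT.M13
import Pool.Agent.H31.PT.M33
import Pool.Agent.H31.PT.M34
import Pool.Agent.H31.PT.M41

/-! The parts of this file: H89.Perc.SimonLieb, H89.Perc.TorusReveal, H89.Perc.TorusVar, H89.Perc.WindBounds, H89.Perc.TorusThreshold, H89.Perc.Final, H93.EX.Basic, H93.EX.Hom1, H93.EX.Hom2, H93.EX.Deg, H93.EX.Uniq, H93.EX.Step, H93.EX.Induct, H93.EX.Hom3, H93.EX.Hom4, H93.EX.Asm, H15.Exact.Bil, H15.Exact.QP, H15.Exact.Rel, H15.Exact.Biv, H15.Exact.Top, H15.Exact.TopG, H15.Exact.Two, H15.Exact.GPoly, H15.Exact.Real, H15.Exact.Final. -/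

section

/-!
# The Simon-Lieb inequality for one-arm probabilities
-/

open MeasureTheory ProbabilityTheory unitInterval

namespace Pool.Agent.H89.Perc

/-- The vertices of the ball as a finset. -/
private noncomputable def slB (s : ℕ) : Finset Vert :=
  Finset.Icc (-(s : ℤ)) s ×ˢ Finset.Icc (-(s : ℤ)) s

private lemma sl_fst : ((0 : Vert).1) = 0 := rfl
private lemma sl_snd : ((0 : Vert).2) = 0 := rfl

private lemma mem_slB {s : ℕ} {v : Vert} : v ∈ slB s ↔ v ∈ ball 0 s := by
  simp only [slB, Finset.mem_product, Finset.mem_Icc, mem_ball, sl_fst, sl_snd]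
  omega

/-- The cluster of the origin in the ball of radius `s` is `C0`. -/
private def slE (s : ℕ) (C0 : Finset Vert) : Set Config :=
  {ω | ∀ v, Conn ω (ball 0 s) 0 v ↔ v ∈ C0}

/-- One-arm event off the set `C0`. -/
private def slOff (m : ℕ) (w : Vert) (C0 : Finset Vert) : Set Config :=
  {ω | ∃ u ∈ sphere w m, Conn ω (ball w m \ ↑C0) w u}

private noncomputable def slEs (s : ℕ) (C0 : Finset Vert) : Finset Edge :=
  (eRect ((0 : Vert).1 - s) ((0 : Vert).1 + s) ((0 : Vert).2 - s) ((0 : Vert).2 + s)).filter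
    (fun e => src e ∈ C0 ∨ tgt e ∈ C0)

private noncomputable def slOs (m : ℕ) (w : Vert) (C0 : Finset Vert) : Finset Edge :=
  (eRect (w.1 - m) (w.1 + m) (w.2 - m) (w.2 + m)).filter
    (fun e => src e ∉ C0 ∧ tgt e ∉ C0)

private lemma slE_local (s : ℕ) (C0 : Finset Vert) : LocalOn (slEs s C0) (slE s C0) := by
  intro ω ω' hω hE
  have h00 : Conn ω (ball 0 s) 0 0 := Conn.refl self_mem_ball
  have h0 : (0 : Vert) ∈ C0 := (hE 0).1 h00
  have hedge : ∀ (a b : Vert) (e : Edge), a ∈ ball 0 s → b ∈ ball 0 s → Joins e a b →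
      a ∈ C0 → ω e = ω' e := by
    intro a b e ha hb he haC
    apply hω
    rw [slEs, Finset.mem_filter, mem_eRect]
    rcases he with ⟨h1, h2⟩ | ⟨h1, h2⟩
    · subst h1 h2
      exact ⟨ha, Or.inl haC⟩
    · subst h1 h2
      exact ⟨hb, Or.inr haC⟩
  intro v
  constructor
  · intro hv
    refine hv.induction_right (P := fun x => x ∈ C0) h0 ?_
    intro a b _ hab haC
    obtain ⟨ha, hb, e, he, ho⟩ := hab
    rw [← hE b]
    refine ((hE a).2 haC).tail ⟨ha, hb, e, he, ?_⟩
    rw [hedge a b e ha hb he haC]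
    exact ho
  · intro hv
    have hc := (hE v).2 hv
    refine hc.induction_right (P := fun x => Conn ω' (ball 0 s) 0 x)
      (Conn.refl self_mem_ball) ?_
    intro a b h0a hab ha'
    obtain ⟨ha, hb, e, he, ho⟩ := hab
    refine ha'.tail ⟨ha, hb, e, he, ?_⟩
    rw [← hedge a b e ha hb he ((hE a).1 h0a)]
    exact ho

private lemma slOff_local (m : ℕ) (w : Vert) (C0 : Finset Vert) :
    LocalOn (slOs m w C0) (slOff m w C0) := by
  rintro ω ω' hω ⟨u, hu, hc⟩
  refine ⟨u, hu, hc.congr ?_⟩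
  intro e h1 h2
  apply hω
  rw [slOs, Finset.mem_filter, mem_eRect]
  exact ⟨h1.1, by simpa using h1.2, by simpa using h2.2⟩

private lemma sl_disj (s m : ℕ) (w : Vert) (C0 : Finset Vert) :
    Disjoint (slEs s C0) (slOs m w C0) := by
  rw [Finset.disjoint_left]
  intro e h1 h2
  rw [slEs, Finset.mem_filter] at h1
  rw [slOs, Finset.mem_filter] at h2
  rcases h1.2 with h | h
  · exact h2.2.1 h
  · exact h2.2.2 h

private lemma sl_key (q : I) (s m : ℕ) (w w' : Vert) (hw : w ∈ sphere 0 s) :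
    Pr q {ω | Conn ω (ball 0 s) 0 w ∧ ∃ C0 : Finset Vert, ω ∈ slE s C0 ∧ ω ∈ slOff m w' C0}
      ≤ arm q s * arm q m := by
  classical
  set F : Finset (Finset Vert) := (slB s).powerset.filter (fun C0 => w ∈ C0) with hF
  have hsub : {ω | Conn ω (ball 0 s) 0 w ∧ ∃ C0 : Finset Vert, ω ∈ slE s C0 ∧ ω ∈ slOff m w' C0}
      ⊆ ⋃ C0 ∈ F, slE s C0 ∩ slOff m w' C0 := by
    rintro ω ⟨hcw, C0, hE, hO⟩
    simp only [Set.mem_iUnion]
    refine ⟨C0, ?_, hE, hO⟩
    rw [hF, Finset.mem_filter, Finset.mem_powerset]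
    refine ⟨?_, (hE w).1 hcw⟩
    intro v hv
    exact mem_slB.2 ((hE v).2 hv).mem_right
  have h1 : ∑ C0 ∈ F, Pr q (slE s C0) ≤ arm q s := by
    have hd : Set.PairwiseDisjoint (↑F) (fun C0 : Finset Vert => slE s C0) := by
      intro C1 _ C2 _ hne
      rw [Function.onFun, Set.disjoint_left]
      intro ω h1 h2
      apply hne
      ext v
      rw [← h1 v, ← h2 v]
    have hm : ∀ C0 ∈ F, MeasurableSet (slE s C0) := fun C0 _ => (slE_local s C0).measurableSet
    have := measureReal_biUnion_finset (μ := μ q) hd hm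
    unfold Pr
    rw [← this]
    refine measureReal_mono ?_
    intro ω hω
    simp only [Set.mem_iUnion] at hω
    obtain ⟨C0, hC0, hE⟩ := hω
    rw [hF, Finset.mem_filter] at hC0
    exact ⟨w, hw, (hE w).2 hC0.2⟩
  calc Pr q {ω | Conn ω (ball 0 s) 0 w ∧
          ∃ C0 : Finset Vert, ω ∈ slE s C0 ∧ ω ∈ slOff m w' C0}
      ≤ Pr q (⋃ C0 ∈ F, slE s C0 ∩ slOff m w' C0) := Pr_mono hsub
    _ ≤ ∑ C0 ∈ F, Pr q (slE s C0 ∩ slOff m w' C0) := Pr_biUnion_le F _
    _ ≤ ∑ C0 ∈ F, Pr q (slE s C0) * arm q m := by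
        apply Finset.sum_le_sum
        intro C0 _
        rw [Pr_inter_of_disjoint (slE_local s C0) (slOff_local m w' C0) (sl_disj s m w' C0)]
        apply mul_le_mul_of_nonneg_left _ Pr_nonneg
        rw [← Pr_arm w' m]
        refine Pr_mono ?_
        rintro ω ⟨u, hu, hc⟩
        exact ⟨u, hu, hc.mono_set Set.sdiff_subset⟩
    _ = (∑ C0 ∈ F, Pr q (slE s C0)) * arm q m := by rw [Finset.sum_mul]
    _ ≤ arm q s * arm q m := mul_le_mul_of_nonneg_right h1 arm_nonneg

private def slW (s : ℕ) (i : Fin 4 × ℤ) : Vert :=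
  if i.1 = 0 then (s, i.2) else if i.1 = 1 then (-s, i.2) else if i.1 = 2 then (i.2, s)
    else (i.2, -s)

private def slW' (s : ℕ) (i : Fin 4 × ℤ) : Vert :=
  if i.1 = 0 then (s + 1, i.2) else if i.1 = 1 then (-s - 1, i.2) else if i.1 = 2 then
    (i.2, s + 1) else (i.2, -s - 1)

private lemma slW_zero (s : ℕ) (t : ℤ) : slW s (0, t) = ((s : ℤ), t) := rfl
private lemma slW_one (s : ℕ) (t : ℤ) : slW s (1, t) = (-(s : ℤ), t) := rfl
private lemma slW_two (s : ℕ) (t : ℤ) : slW s (2, t) = (t, (s : ℤ)) := rfl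
private lemma slW_three (s : ℕ) (t : ℤ) : slW s (3, t) = (t, -(s : ℤ)) := rfl
private lemma slW'_zero (s : ℕ) (t : ℤ) : slW' s (0, t) = ((s : ℤ) + 1, t) := rfl
private lemma slW'_one (s : ℕ) (t : ℤ) : slW' s (1, t) = (-(s : ℤ) - 1, t) := rfl
private lemma slW'_two (s : ℕ) (t : ℤ) : slW' s (2, t) = (t, (s : ℤ) + 1) := rfl
private lemma slW'_three (s : ℕ) (t : ℤ) : slW' s (3, t) = (t, -(s : ℤ) - 1) := rfl

private lemma slW_sphere (s : ℕ) (i : Fin 4 × ℤ) (hi : i.2 ∈ Finset.Icc (-(s : ℤ)) s) :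
    slW s i ∈ sphere 0 s := by
  rw [Finset.mem_Icc] at hi
  unfold slW
  split_ifs <;>
    refine ⟨?_, ?_⟩ <;> simp only [mem_ball, sl_fst, sl_snd] <;> omega

private lemma sl_incl {s n : ℕ} (h : s < n) {ω : Config} (hω : ω ∈ Arm 0 n) :
    ∃ i ∈ (Finset.univ : Finset (Fin 4)) ×ˢ Finset.Icc (-(s : ℤ)) s,
      Conn ω (ball 0 s) 0 (slW s i) ∧
        ∃ C0 : Finset Vert, ω ∈ slE s C0 ∧ ω ∈ slOff (n - s - 1) (slW' s i) C0 := by
  classical
  obtain ⟨u, hu, hc⟩ := hω
  obtain ⟨hub, hus⟩ := hu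
  have huT : u ∉ {v | Conn ω (ball 0 s) 0 v} := by
    intro hcu
    have := Conn.mem_right hcu
    simp only [mem_ball, sl_fst, sl_snd] at this hub hus
    omega
  obtain ⟨w, w', hwT, _, hstep, hlast⟩ := hc.exists_last (T := {v | Conn ω (ball 0 s) 0 v})
    (Conn.refl self_mem_ball) huT
  have hwb : w ∈ ball 0 s := Conn.mem_right hwT
  have hw'T := hlast.mem_left.2
  have hw'b : w' ∉ ball 0 s := by
    intro hw'
    exact hw'T (Conn.tail hwT ⟨hwb, hw', hstep.2.2⟩)
  -- the event off the cluster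
  have hE : ω ∈ slE s ((slB s).filter (fun v => Conn ω (ball 0 s) 0 v)) := by
    intro v
    rw [Finset.mem_filter]
    constructor
    · intro hv
      exact ⟨mem_slB.2 hv.mem_right, hv⟩
    · intro hv
      exact hv.2
  have hcases := hstep.cases
  have hO : ω ∈ slOff (n - s - 1) w' ((slB s).filter (fun v => Conn ω (ball 0 s) 0 v)) := by
    obtain ⟨x, hx, hcx⟩ := hlast.to_sphere (v := w') (r := n - s - 1) self_mem_ball (by
      by_cases hu' : u ∈ ball w' (n - s - 1)
      · right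
        refine ⟨hu', ?_⟩
        simp only [mem_ball, sl_fst, sl_snd] at hu' hwb hw'b hub hus
        omega
      · exact Or.inl hu')
    refine ⟨x, hx, hcx.mono_set ?_⟩
    rintro v ⟨⟨_, hv1⟩, hv2⟩
    refine ⟨hv2, ?_⟩
    intro hv3
    rw [Finset.mem_coe, Finset.mem_filter] at hv3
    exact hv1 hv3.2
  simp only [mem_ball, sl_fst, sl_snd] at hwb hw'b
  obtain ⟨w1, w2⟩ := w
  obtain ⟨v1, v2⟩ := w'
  simp only at hwb hw'b hcases
  rcases hcases with ⟨h1, h2 | h2⟩ | ⟨h1, h2 | h2⟩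
  · refine ⟨(2, w1), ?_, ?_, _, hE, ?_⟩
    · simp only [Finset.mem_product, Finset.mem_univ, true_and, Finset.mem_Icc]; omega
    · have : slW s (2, w1) = (w1, w2) := by
        rw [slW_two, Prod.mk.injEq]; omega
      rw [this]; exact hwT
    · have : slW' s (2, w1) = (v1, v2) := by
        rw [slW'_two, Prod.mk.injEq]; omega
      rw [this]; exact hO
  · refine ⟨(3, w1), ?_, ?_, _, hE, ?_⟩
    · simp only [Finset.mem_product, Finset.mem_univ, true_and, Finset.mem_Icc]; omega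
    · have : slW s (3, w1) = (w1, w2) := by
        rw [slW_three, Prod.mk.injEq]; omega
      rw [this]; exact hwT
    · have : slW' s (3, w1) = (v1, v2) := by
        rw [slW'_three, Prod.mk.injEq]; omega
      rw [this]; exact hO
  · refine ⟨(0, w2), ?_, ?_, _, hE, ?_⟩
    · simp only [Finset.mem_product, Finset.mem_univ, true_and, Finset.mem_Icc]; omega
    · have : slW s (0, w2) = (w1, w2) := by
        rw [slW_zero, Prod.mk.injEq]; omega
      rw [this]; exact hwT
    · have : slW' s (0, w2) = (v1, v2) := by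
        rw [slW'_zero, Prod.mk.injEq]; omega
      rw [this]; exact hO
  · refine ⟨(1, w2), ?_, ?_, _, hE, ?_⟩
    · simp only [Finset.mem_product, Finset.mem_univ, true_and, Finset.mem_Icc]; omega
    · have : slW s (1, w2) = (w1, w2) := by
        rw [slW_one, Prod.mk.injEq]; omega
      rw [this]; exact hwT
    · have : slW' s (1, w2) = (v1, v2) := by
        rw [slW'_one, Prod.mk.injEq]; omega
      rw [this]; exact hO

theorem simon_lieb (q : I) {s n : ℕ} (h : s < n) :
    arm q n ≤ (8 * s + 4) * arm q s * arm q (n - s - 1) := by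
  set F : Finset (Fin 4 × ℤ) := (Finset.univ : Finset (Fin 4)) ×ˢ Finset.Icc (-(s : ℤ)) s with hF
  have hcard : (F.card : ℝ) = 8 * s + 4 := by
    rw [hF, Finset.card_product, Int.card_Icc]
    have : ((s : ℤ) + 1 - -(s : ℤ)).toNat = 2 * s + 1 := by omega
    rw [this]
    simp
    ring
  calc arm q n = Pr q (Arm 0 n) := rfl
    _ ≤ Pr q (⋃ i ∈ F, {ω | Conn ω (ball 0 s) 0 (slW s i) ∧
        ∃ C0 : Finset Vert, ω ∈ slE s C0 ∧ ω ∈ slOff (n - s - 1) (slW' s i) C0}) := by
        refine Pr_mono ?_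
        intro ω hω
        obtain ⟨i, hi, h1⟩ := sl_incl h hω
        simp only [Set.mem_iUnion]
        exact ⟨i, hi, h1⟩
    _ ≤ ∑ i ∈ F, Pr q {ω | Conn ω (ball 0 s) 0 (slW s i) ∧
        ∃ C0 : Finset Vert, ω ∈ slE s C0 ∧ ω ∈ slOff (n - s - 1) (slW' s i) C0} :=
        Pr_biUnion_le F _
    _ ≤ ∑ _i ∈ F, arm q s * arm q (n - s - 1) := by
        apply Finset.sum_le_sum
        intro i hi
        apply sl_key
        apply slW_sphere
        rw [hF, Finset.mem_product] at hi
        exact hi.2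
    _ = (8 * s + 4) * arm q s * arm q (n - s - 1) := by
        rw [Finset.sum_const, nsmul_eq_mul, hcard]
        ring

end Pool.Agent.H89.Perc

end

section

/-!
# Queried edges have a primal arm and a dual arm
-/

open MeasureTheory ProbabilityTheory unitInterval

namespace Pool.Agent.H89.Perc

private lemma expl_succ' (R : Rule) (ω : Config) (n : ℕ) :
    expl R ω (n + 1) = explStep R ω (expl R ω n) := by
  simp only [expl, Function.iterate_succ_apply']

private lemma expl_inv (R : Rule) (ω : Config) (n : ℕ) :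
    (∀ e ∈ (expl R ω n).1, ω e = true) ∧ (∀ e ∈ (expl R ω n).2, ω e = false) := by
  induction n with
  | zero => simp [expl]
  | succ n ih =>
    rw [expl_succ']
    unfold explStep
    cases h : R (expl R ω n).1 (expl R ω n).2 with
    | none => simpa using ih
    | some e =>
      by_cases hω : ω e = true
      · simp only [hω, if_true, Finset.mem_insert]
        exact ⟨fun e' he' => he'.elim (fun h => h ▸ hω) (ih.1 e'), ih.2⟩
      · simp only [if_neg hω, Finset.mem_insert]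
        exact ⟨ih.1, fun e' he' => he'.elim (fun h => h ▸ by simpa using hω) (ih.2 e')⟩

private lemma exists_step_of_queried (R : Rule) (ω : Config) (n : ℕ) {e : Edge}
    (he : e ∈ queried R ω n) :
    ∃ m, R (expl R ω m).1 (expl R ω m).2 = some e := by
  induction n with
  | zero => simp [queried, expl] at he
  | succ n ih =>
    by_cases h : e ∈ queried R ω n
    · exact ih h
    refine ⟨n, ?_⟩
    rw [queried, expl_succ'] at he
    unfold explStep at he
    rw [queried] at h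
    cases h' : R (expl R ω n).1 (expl R ω n).2 with
    | none => simp only [h'] at he; exact absurd he h
    | some e' =>
      simp only [h'] at he
      by_cases hω : ω e' = true
      · simp only [hω, if_true, Finset.mem_union, Finset.mem_insert] at he h
        have : e = e' := by tauto
        rw [this]
      · simp only [if_neg hω, Finset.mem_union, Finset.mem_insert] at he h
        have : e = e' := by tauto
        rw [this]

/-- Probability that an edge is queried. -/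
theorem torus_reveal {N : ℕ} (hN : 2 ≤ N) (q : I) {e : Edge} (he : e ∈ tEdges N) {k : ℕ}
    (hk : (k : ℤ) + 1 = rho N e.1 e.2.1) :
    Pr q {ω | e ∈ queried (torusRule N) ω (tEdges N).card} ≤ 4 * (arm q k * arm (σ q) k) := by
  -- the second face
  set φ' : Vert := if e.2.2 then (e.1 - 1, e.2.1) else (e.1, e.2.1 - 1) with hφ'
  have hr := hk
  unfold rho at hr
  have h1 : (k : ℤ) + 1 ≤ e.1 := by omega
  have h2 : (k : ℤ) + 1 ≤ N - 1 - e.1 := by omega
  have h3 : (k : ℤ) + 1 ≤ e.2.1 := by omega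
  have h4 : (k : ℤ) + 1 ≤ N - 1 - e.2.1 := by omega
  have hev : ∀ u φ : Vert, Pr q (Arm u k ∩ {ω | dual ω ∈ Arm φ k}) ≤
      arm q k * arm (σ q) k := by
    intro u φ
    refine (fkg_mixed (localOn_arm u k) (localOn_arm φ k).dual' (incr_arm u k)
      (incr_arm φ k).dual_compl).trans ?_
    rw [Pr_arm, Pr_dual_arm]
  have hsub : {ω | e ∈ queried (torusRule N) ω (tEdges N).card} ⊆
      ((Arm (src e) k ∩ {ω | dual ω ∈ Arm (src e) k}) ∪
        (Arm (src e) k ∩ {ω | dual ω ∈ Arm φ' k})) ∪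
      ((Arm (tgt e) k ∩ {ω | dual ω ∈ Arm (src e) k}) ∪
        (Arm (tgt e) k ∩ {ω | dual ω ∈ Arm φ' k})) := by
    intro ω hω
    obtain ⟨m, hm⟩ := exists_step_of_queried _ _ _ hω
    obtain ⟨_, _, _, hc⟩ := torusRule_spec hm
    obtain ⟨hO, hC⟩ := expl_inv (torusRule N) ω m
    have hnb : ¬ IsBd e := by
      rintro (⟨_, h⟩ | ⟨_, h⟩) <;> omega
    obtain ⟨hV, φ, hφ, hφr⟩ := hc.resolve_left hnb
    have hArm : ∀ u : Vert, u ∈ reachV N (expl (torusRule N) ω m).1 →
        (k : ℤ) ≤ u.1 → (k : ℤ) ≤ N - u.1 → (k : ℤ) ≤ u.2 → (k : ℤ) ≤ N - u.2 →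
        ω ∈ Arm u k := by
      rintro u ⟨w, hw, hc⟩ a1 a2 a3 a4
      have hc' : Conn ω (rect 0 N 0 N) u w :=
        (hc.mono le_rfl fun e' he' => hO e' (by simpa using he')).symm
      refine hc'.mem_arm ?_
      obtain ⟨_, hw⟩ := hw
      rcases hw with h | h | h | h <;> [left; left; right; right] <;> rw [h] <;>
        rcases abs_cases ((0 : ℤ) - u.1) with h5 | h5 <;>
        rcases abs_cases ((N : ℤ) - u.1) with h6 | h6 <;>
        rcases abs_cases ((0 : ℤ) - u.2) with h7 | h7 <;>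
        rcases abs_cases ((N : ℤ) - u.2) with h8 | h8 <;> omega
    have hDual : ∀ φ : Vert, φ ∈ reachF N (expl (torusRule N) ω m).2 →
        (k : ℤ) ≤ φ.1 → (k : ℤ) ≤ N - 1 - φ.1 → (k : ℤ) ≤ φ.2 → (k : ℤ) ≤ N - 1 - φ.2 →
        dual ω ∈ Arm φ k := by
      rintro u ⟨w, hw, hc⟩ a1 a2 a3 a4
      have hc' : Conn (dual ω) (rect 0 (N - 1) 0 (N - 1)) u w :=
        (hc.mono le_rfl fun e' he' => by
          simp only [decide_eq_true_eq] at he'
          simp [dual, hC _ he']).symm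
      refine hc'.mem_arm ?_
      obtain ⟨_, hw⟩ := hw
      rcases hw with h | h | h | h <;> [left; left; right; right] <;> rw [h] <;>
        rcases abs_cases ((0 : ℤ) - u.1) with h5 | h5 <;>
        rcases abs_cases ((N : ℤ) - 1 - u.1) with h6 | h6 <;>
        rcases abs_cases ((0 : ℤ) - u.2) with h7 | h7 <;>
        rcases abs_cases ((N : ℤ) - 1 - u.2) with h8 | h8 <;> omega
    have hsrcA : src e ∈ reachV N (expl (torusRule N) ω m).1 → ω ∈ Arm (src e) k := fun h =>
      hArm _ h (by simp only [src]; omega) (by simp only [src]; omega)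
        (by simp only [src]; omega) (by simp only [src]; omega)
    have htgtA : tgt e ∈ reachV N (expl (torusRule N) ω m).1 → ω ∈ Arm (tgt e) k := fun h => by
      apply hArm _ h <;> unfold tgt <;> split_ifs <;> simp only <;> omega
    have hD1 : src e ∈ reachF N (expl (torusRule N) ω m).2 → dual ω ∈ Arm (src e) k := fun h =>
      hDual _ h (by simp only [src]; omega) (by simp only [src]; omega)
        (by simp only [src]; omega) (by simp only [src]; omega)
    have hD2 : φ' ∈ reachF N (expl (torusRule N) ω m).2 → dual ω ∈ Arm φ' k := fun h => by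
      apply hDual _ h <;> rw [hφ'] <;> split_ifs <;> simp only <;> omega
    rcases hφ with hφ | hφ
    · subst hφ
      rcases hV with hV | hV
      · exact Or.inl (Or.inl ⟨hsrcA hV, hD1 hφr⟩)
      · exact Or.inr (Or.inl ⟨htgtA hV, hD1 hφr⟩)
    · rw [← hφ'] at hφ
      subst hφ
      rcases hV with hV | hV
      · exact Or.inl (Or.inr ⟨hsrcA hV, hD2 hφr⟩)
      · exact Or.inr (Or.inr ⟨htgtA hV, hD2 hφr⟩)
  refine (Pr_mono hsub).trans ?_
  refine (Pr_union_le).trans ?_
  have ha := hev (src e) (src e)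
  have hb := hev (src e) φ'
  have hc := hev (tgt e) (src e)
  have hd := hev (tgt e) φ'
  have hl := Pr_union_le (p := q) (A := Arm (src e) k ∩ {ω | dual ω ∈ Arm (src e) k})
    (B := Arm (src e) k ∩ {ω | dual ω ∈ Arm φ' k})
  have hl' := Pr_union_le (p := q) (A := Arm (tgt e) k ∩ {ω | dual ω ∈ Arm (src e) k})
    (B := Arm (tgt e) k ∩ {ω | dual ω ∈ Arm φ' k})
  linarith

end Pool.Agent.H89.Perc

end

section

/-!
# The OSSS inequality for the winding event
-/

open MeasureTheory ProbabilityTheory unitInterval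

namespace Pool.Agent.H89.Perc

private theorem pivot_wind_nonneg {N : ℕ} (q : I) (e : Edge) : 0 ≤ pivot q (Wind N) e := by
  unfold pivot
  rw [sub_nonneg]
  refine Pr_mono ?_
  intro ω hω
  refine incr_wind N _ _ (fun f hf => ?_) hω
  by_cases hfe : f = e
  · subst hfe; simp
  · rw [Function.update_of_ne hfe] at hf ⊢; exact hf

/-- The weight of a coordinate at distance `n` from the boundary. -/
private noncomputable def gW (q : I) : ℕ → ℝ
  | 0 => 1
  | n + 1 => 4 * (arm q n * arm (σ q) n)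

private theorem gW_nonneg (q : I) (n : ℕ) : 0 ≤ gW q n := by
  cases n with
  | zero => simp [gW]
  | succ n =>
    simp only [gW]
    have h1 : 0 ≤ arm q n := arm_nonneg
    have h2 : 0 ≤ arm (σ q) n := arm_nonneg
    positivity

private theorem sum_gW {N : ℕ} (hN : 2 ≤ N) (q : I) :
    ∑ n ∈ Finset.range N, gW q n ≤ 5 * ∑ k ∈ Finset.range N, arm q k * arm (σ q) k := by
  obtain ⟨M, rfl⟩ : ∃ M, N = M + 1 := ⟨N - 1, by omega⟩
  rw [Finset.sum_range_succ' (gW q)]
  have h0 : gW q 0 = 1 := rfl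
  have h1 : ∀ k ∈ Finset.range M, gW q (k + 1) = 4 * (arm q k * arm (σ q) k) := fun k _ => rfl
  rw [Finset.sum_congr rfl h1, ← Finset.mul_sum, h0]
  have ha : ∀ k, 0 ≤ arm q k * arm (σ q) k := fun k => mul_nonneg arm_nonneg arm_nonneg
  have h2 : ∑ k ∈ Finset.range M, arm q k * arm (σ q) k ≤
      ∑ k ∈ Finset.range (M + 1), arm q k * arm (σ q) k := by
    rw [Finset.sum_range_succ]
    linarith [ha M]
  have h3 : (1 : ℝ) ≤ ∑ k ∈ Finset.range (M + 1), arm q k * arm (σ q) k := by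
    rw [Finset.sum_range_succ' (fun k => arm q k * arm (σ q) k), arm_zero, arm_zero]
    have := Finset.sum_nonneg fun (k : ℕ) (_ : k ∈ Finset.range M) => ha (k + 1)
    linarith
  linarith

private theorem sum_Ico_toNat (N : ℕ) (f : ℕ → ℝ) :
    ∑ x ∈ Finset.Ico (0 : ℤ) N, f x.toNat = ∑ n ∈ Finset.range N, f n := by
  refine Finset.sum_bij (fun x _ => x.toNat) ?_ ?_ ?_ ?_
  · intro x hx
    rw [Finset.mem_Ico] at hx
    rw [Finset.mem_range]; omega
  · intro x hx y hy h
    rw [Finset.mem_Ico] at hx hy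
    omega
  · intro n hn
    rw [Finset.mem_range] at hn
    exact ⟨n, by rw [Finset.mem_Ico]; omega, by simp⟩
  · intro x _; rfl

private theorem sum_Ico_toNat' (N : ℕ) (f : ℕ → ℝ) :
    ∑ x ∈ Finset.Ico (0 : ℤ) N, f (N - 1 - x).toNat = ∑ n ∈ Finset.range N, f n := by
  refine Finset.sum_bij (fun x _ => (N - 1 - x).toNat) ?_ ?_ ?_ ?_
  · intro x hx
    rw [Finset.mem_Ico] at hx
    rw [Finset.mem_range]; omega
  · intro x hx y hy h
    rw [Finset.mem_Ico] at hx hy
    omega
  · intro n hn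
    rw [Finset.mem_range] at hn
    exact ⟨N - 1 - n, by rw [Finset.mem_Ico]; omega, by simp⟩
  · intro x _; rfl

/-- The OSSS inequality for the winding event. -/
theorem torus_var {N : ℕ} (hN : 2 ≤ N) (q : I) :
    Pr q (Wind N) * (1 - Pr q (Wind N)) ≤
      10 / N * (∑ k ∈ Finset.range N, arm q k * arm (σ q) k) *
        ∑ e ∈ tEdges N, pivot q (Wind N) e := by
  have hN1 : 1 ≤ N := by omega
  set δ : Edge → ℝ := fun e => Pr q {ω | e ∈ queried (torusRule N) ω (tEdges N).card} with hδ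
  set G : ℤ → ℤ → ℝ := fun x y => gW q x.toNat + gW q (N - 1 - x).toNat + gW q y.toNat +
    gW q (N - 1 - y).toNat with hG
  set Q : Finset ℤ := Finset.Ico (0 : ℤ) N with hQ
  have hcardQ : (Q.card : ℝ) = N := by rw [hQ]; simp
  -- the revealment
  have hδG : ∀ e ∈ tEdges N, δ e ≤ G e.1 e.2.1 := by
    intro e he
    have he' := he
    simp only [tEdges, Finset.mem_product, Finset.mem_Ico, Finset.mem_univ, and_true] at he'
    have n1 := gW_nonneg q e.1.toNat
    have n2 := gW_nonneg q (N - 1 - e.1).toNat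
    have n3 := gW_nonneg q e.2.1.toNat
    have n4 := gW_nonneg q (N - 1 - e.2.1).toNat
    have hρ : δ e ≤ gW q (rho N e.1 e.2.1).toNat := by
      by_cases h0 : rho N e.1 e.2.1 = 0
      · rw [h0]
        exact Pr_le_one
      · have hpos : 0 < rho N e.1 e.2.1 := by
          unfold rho at h0 ⊢
          omega
        obtain ⟨k, hk⟩ : ∃ k : ℕ, (k : ℤ) + 1 = rho N e.1 e.2.1 :=
          ⟨(rho N e.1 e.2.1 - 1).toNat, by omega⟩
        have h2 : (rho N e.1 e.2.1).toNat = k + 1 := by omega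
        rw [h2]
        exact torus_reveal hN q he hk
    have h4 : rho N e.1 e.2.1 = e.1 ∨ rho N e.1 e.2.1 = N - 1 - e.1 ∨ rho N e.1 e.2.1 = e.2.1 ∨
        rho N e.1 e.2.1 = N - 1 - e.2.1 := by
      unfold rho; omega
    rcases h4 with h4 | h4 | h4 | h4 <;> rw [h4] at hρ <;> simp only [hG] <;> linarith
  have hsumG : ∑ x ∈ Q, ∑ y ∈ Q, G x y ≤
      20 * N * ∑ k ∈ Finset.range N, arm q k * arm (σ q) k := by
    have h1 : ∑ x ∈ Q, ∑ y ∈ Q, G x y = 4 * N * ∑ n ∈ Finset.range N, gW q n := by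
      simp only [hG, Finset.sum_add_distrib, Finset.sum_const, nsmul_eq_mul, ← Finset.mul_sum]
      rw [hQ, sum_Ico_toNat N (gW q), sum_Ico_toNat' N (gW q), ← hQ, hcardQ]
      ring
    rw [h1]
    have h2 := sum_gW hN q
    have h3 : (0 : ℝ) ≤ 4 * N := by positivity
    nlinarith [mul_le_mul_of_nonneg_left h2 h3]
  -- the influences
  have h00 : ∀ d : Bool, ((0 : ℤ), (0 : ℤ), d) ∈ tEdges N := by
    intro d
    simp only [tEdges, Finset.mem_product, Finset.mem_Ico, Finset.mem_univ, and_true]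
    omega
  set c : Bool → ℝ := fun d => pivot q (Wind N) ((0 : ℤ), (0 : ℤ), d) with hc
  have hc0 : ∀ d, 0 ≤ c d := fun d => pivot_wind_nonneg q _
  have hpc : ∀ e ∈ tEdges N, pivot q (Wind N) e = c e.2.2 := fun e he =>
    pivot_wind hN1 q he (h00 _) rfl
  have hsum : ∀ F : Edge → ℝ, ∑ e ∈ tEdges N, F e = ∑ x ∈ Q, ∑ y ∈ Q, ∑ d : Bool, F (x, y, d) := by
    intro F
    unfold tEdges
    rw [Finset.sum_product]
    refine Finset.sum_congr rfl fun x _ => ?_
    rw [Finset.sum_product]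
  have hpiv : ∑ e ∈ tEdges N, pivot q (Wind N) e = N ^ 2 * (c true + c false) := by
    rw [Finset.sum_congr rfl hpc, hsum]
    simp only [Fintype.sum_bool, Finset.sum_const, nsmul_eq_mul, hcardQ]
    ring
  have hos := osss (p := q) (localOn_wind hN1) (incr_wind N) (torusRule N)
    (fun O C e h => ⟨(torusRule_spec h).1, (torusRule_spec h).2.1, (torusRule_spec h).2.2.1⟩)
    (fun ω ω' h hω => torus_det hN ω ω' h hω)
  have hmain : ∑ e ∈ tEdges N, δ e * pivot q (Wind N) e ≤
      (c true + c false) * (20 * N * ∑ k ∈ Finset.range N, arm q k * arm (σ q) k) := by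
    calc ∑ e ∈ tEdges N, δ e * pivot q (Wind N) e
        ≤ ∑ e ∈ tEdges N, G e.1 e.2.1 * c e.2.2 := by
          refine Finset.sum_le_sum fun e he => ?_
          rw [hpc e he]
          exact mul_le_mul_of_nonneg_right (hδG e he) (hc0 _)
      _ = (c true + c false) * ∑ x ∈ Q, ∑ y ∈ Q, G x y := by
          rw [hsum, Finset.mul_sum]
          refine Finset.sum_congr rfl fun x _ => ?_
          rw [Finset.mul_sum]
          refine Finset.sum_congr rfl fun y _ => ?_
          rw [Fintype.sum_bool]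
          ring
      _ ≤ _ := mul_le_mul_of_nonneg_left hsumG (add_nonneg (hc0 _) (hc0 _))
  refine hos.trans ?_
  rw [hpiv]
  have hNpos : (0 : ℝ) < N := by
    have : 0 < N := by omega
    exact_mod_cast this
  calc 1 / 2 * ∑ e ∈ tEdges N, Pr q {ω | e ∈ queried (torusRule N) ω (tEdges N).card} *
        pivot q (Wind N) e
      ≤ 1 / 2 * ((c true + c false) *
        (20 * N * ∑ k ∈ Finset.range N, arm q k * arm (σ q) k)) :=
        mul_le_mul_of_nonneg_left hmain (by norm_num)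
    _ = 10 / N * (∑ k ∈ Finset.range N, arm q k * arm (σ q) k) *
        (N ^ 2 * (c true + c false)) := by
        field_simp
        ring

end Pool.Agent.H89.Perc

end

section

/-!
# Lower and upper bounds for the probability of the winding event
-/

open MeasureTheory ProbabilityTheory unitInterval

namespace Pool.Agent.H89.Perc

/-- The event that `u` and `v` are joined inside a rectangle. -/
private def wbE (a b c d : ℤ) (u v : Vert) : Set Config := {ω | Conn ω (rect a b c d) u v}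

private lemma wbE_local (a b c d : ℤ) (u v : Vert) : LocalOn (eRect a b c d) (wbE a b c d u v) :=
  localOn_conn u v

private lemma wbE_incr (a b c d : ℤ) (u v : Vert) : Incr (wbE a b c d u v) :=
  incr_conn _ u v

private lemma wb_reflX_inj (z : ℤ) : Function.Injective (reflX z) := by
  rintro ⟨x, y, b⟩ ⟨x', y', b'⟩ h
  cases b <;> cases b' <;> simp [reflX] at h ⊢ <;> omega

private lemma wb_reflY_inj (z : ℤ) : Function.Injective (reflY z) := by
  rintro ⟨x, y, b⟩ ⟨x', y', b'⟩ h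
  cases b <;> cases b' <;> simp [reflY] at h ⊢ <;> omega

private lemma wb_swap_inj : Function.Injective swapE := by
  rintro ⟨x, y, b⟩ ⟨x', y', b'⟩ h
  cases b <;> cases b' <;> simp [swapE] at h ⊢ <;> omega

private lemma wb_shift_inj (z : Vert) : Function.Injective (shiftE z) := by
  rintro ⟨x, y, b⟩ ⟨x', y', b'⟩ h
  cases b <;> cases b' <;> simp [shiftE] at h ⊢ <;> omega

private lemma wb_reflX (q : I) (z a b c d x1 y1 x2 y2 : ℤ) :
    Pr q (wbE (z - b) (z - a) c d (z - x1, y1) (z - x2, y2)) =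
      Pr q (wbE a b c d (x1, y1) (x2, y2)) := by
  rw [← Pr_comp (wbE_local a b c d (x1, y1) (x2, y2)) (wb_reflX_inj z).injOn]
  congr 1
  ext ω
  change _ ↔ Conn (fun e => ω (reflX z e)) (rect a b c d) (x1, y1) (x2, y2)
  rw [conn_reflX]
  have : {w : Vert | (z - w.1, w.2) ∈ rect a b c d} = rect (z - b) (z - a) c d := by
    ext w
    simp only [rect, Set.mem_ofPred_eq]
    omega
  rw [this]
  rfl

private lemma wb_reflY (q : I) (z a b c d x1 y1 x2 y2 : ℤ) :
    Pr q (wbE a b (z - d) (z - c) (x1, z - y1) (x2, z - y2)) =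
      Pr q (wbE a b c d (x1, y1) (x2, y2)) := by
  rw [← Pr_comp (wbE_local a b c d (x1, y1) (x2, y2)) (wb_reflY_inj z).injOn]
  congr 1
  ext ω
  change _ ↔ Conn (fun e => ω (reflY z e)) (rect a b c d) (x1, y1) (x2, y2)
  rw [conn_reflY]
  have : {w : Vert | (w.1, z - w.2) ∈ rect a b c d} = rect a b (z - d) (z - c) := by
    ext w
    simp only [rect, Set.mem_ofPred_eq]
    omega
  rw [this]
  rfl

private lemma wb_swap (q : I) (a b c d x1 y1 x2 y2 : ℤ) :
    Pr q (wbE c d a b (y1, x1) (y2, x2)) = Pr q (wbE a b c d (x1, y1) (x2, y2)) := by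
  rw [← Pr_comp (wbE_local a b c d (x1, y1) (x2, y2)) wb_swap_inj.injOn]
  congr 1
  ext ω
  change _ ↔ Conn (fun e => ω (swapE e)) (rect a b c d) (x1, y1) (x2, y2)
  rw [conn_swap]
  have : {w : Vert | (w.2, w.1) ∈ rect a b c d} = rect c d a b := by
    ext w
    simp only [rect, Set.mem_ofPred_eq]
    omega
  rw [this]
  rfl

private lemma wb_shift (q : I) (z1 z2 a b c d x1 y1 x2 y2 : ℤ) :
    Pr q (wbE (a + z1) (b + z1) (c + z2) (d + z2) (x1 + z1, y1 + z2) (x2 + z1, y2 + z2)) =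
      Pr q (wbE a b c d (x1, y1) (x2, y2)) := by
  rw [← Pr_comp (wbE_local a b c d (x1, y1) (x2, y2)) (wb_shift_inj (z1, z2)).injOn]
  congr 1
  ext ω
  change _ ↔ Conn (fun e => ω (shiftE (z1, z2) e)) (rect a b c d) (x1, y1) (x2, y2)
  rw [conn_shift]
  have : {w : Vert | (w.1 - ((z1, z2) : Vert).1, w.2 - ((z1, z2) : Vert).2) ∈ rect a b c d} =
      rect (a + z1) (b + z1) (c + z2) (d + z2) := by
    ext w
    simp only [rect, Set.mem_ofPred_eq]
    omega
  rw [this]
  rfl

/-- Probability that the origin is joined to `(r, y)` in the ball. -/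
private noncomputable def wbg (q : I) (r : ℕ) (y : ℤ) : ℝ :=
  Pr q (wbE (-r) r (-r) r (0, 0) (r, y))

private lemma wbg_left (q : I) (r : ℕ) (y : ℤ) :
    Pr q (wbE (-r) r (-r) r (0, 0) (-r, y)) = wbg q r y := by
  have := wb_reflX q 0 (-r) r (-r) r 0 0 r y
  simpa [wbg] using this

private lemma wbg_top (q : I) (r : ℕ) (y : ℤ) :
    Pr q (wbE (-r) r (-r) r (0, 0) (y, r)) = wbg q r y := by
  have := wb_swap q (-r) r (-r) r 0 0 r y
  simpa [wbg] using this

private lemma wbg_bottom (q : I) (r : ℕ) (y : ℤ) :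
    Pr q (wbE (-r) r (-r) r (0, 0) (y, -r)) = wbg q r y := by
  have := wb_reflY q 0 (-r) r (-r) r 0 0 y r
  rw [wbg_top] at this
  simpa [wbg] using this

private def wbv (r : ℕ) (i : Fin 4 × ℤ) : Vert :=
  if i.1 = 0 then ((r : ℤ), i.2) else if i.1 = 1 then (-(r : ℤ), -i.2) else
    if i.1 = 2 then (-i.2, (r : ℤ)) else (i.2, -(r : ℤ))

private lemma wbv_zero (r : ℕ) (t : ℤ) : wbv r (0, t) = ((r : ℤ), t) := rfl
private lemma wbv_one (r : ℕ) (t : ℤ) : wbv r (1, t) = (-(r : ℤ), -t) := rfl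
private lemma wbv_two (r : ℕ) (t : ℤ) : wbv r (2, t) = (-t, (r : ℤ)) := rfl
private lemma wbv_three (r : ℕ) (t : ℤ) : wbv r (3, t) = (t, -(r : ℤ)) := rfl

private lemma wb_arm_incl {r : ℕ} (hr : 1 ≤ r) {ω : Config} (hω : ω ∈ Arm 0 r) :
    ∃ i ∈ (Finset.univ : Finset (Fin 4)) ×ˢ Finset.Icc (-(r : ℤ)) (r - 1),
      ω ∈ wbE (-r) r (-r) r (0, 0) (wbv r i) := by
  obtain ⟨⟨x, y⟩, ⟨hb, hs⟩, hc⟩ := hω
  have hball : ball 0 r = rect (-r) r (-r) r := by
    ext w
    have h0 : ((0 : Vert).1) = 0 := rfl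
    have h1 : ((0 : Vert).2) = 0 := rfl
    simp only [mem_ball, rect, Set.mem_ofPred_eq, h0, h1]
    omega
  rw [hball] at hc
  have h0 : ((0 : Vert).1) = 0 := rfl
  have h1 : ((0 : Vert).2) = 0 := rfl
  simp only [mem_ball, h0, h1] at hb hs
  have hcase : (x = r ∧ y < r) ∨ (x = -r ∧ -r < y) ∨ (y = r ∧ -r < x) ∨ (y = -r ∧ x < r) := by
    omega
  rcases hcase with ⟨hx, hy⟩ | ⟨hx, hy⟩ | ⟨hy, hx⟩ | ⟨hy, hx⟩
  · refine ⟨(0, y), ?_, ?_⟩
    · simp only [Finset.mem_product, Finset.mem_univ, true_and, Finset.mem_Icc]; omega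
    · have e : wbv r (0, y) = (x, y) := by rw [wbv_zero, hx]
      rw [e]; exact hc
  · refine ⟨(1, -y), ?_, ?_⟩
    · simp only [Finset.mem_product, Finset.mem_univ, true_and, Finset.mem_Icc]; omega
    · have e : wbv r (1, -y) = (x, y) := by rw [wbv_one, hx, neg_neg]
      rw [e]; exact hc
  · refine ⟨(2, -x), ?_, ?_⟩
    · simp only [Finset.mem_product, Finset.mem_univ, true_and, Finset.mem_Icc]; omega
    · have e : wbv r (2, -x) = (x, y) := by rw [wbv_two, hy, neg_neg]
      rw [e]; exact hc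
  · refine ⟨(3, x), ?_, ?_⟩
    · simp only [Finset.mem_product, Finset.mem_univ, true_and, Finset.mem_Icc]; omega
    · have e : wbv r (3, x) = (x, y) := by rw [wbv_three, hy]
      rw [e]; exact hc

private lemma wb_choose (q : I) {r : ℕ} (hr : 1 ≤ r) :
    ∃ y : ℤ, -r ≤ y ∧ y ≤ r ∧ arm q r / (8 * r) ≤ wbg q r y := by
  by_contra hcon
  push Not at hcon
  set F : Finset (Fin 4 × ℤ) := (Finset.univ : Finset (Fin 4)) ×ˢ Finset.Icc (-(r : ℤ)) (r - 1)
    with hF
  have hcard : (F.card : ℝ) = 8 * r := by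
    rw [hF, Finset.card_product, Int.card_Icc]
    have : ((r : ℤ) - 1 + 1 - -(r : ℤ)).toNat = 2 * r := by omega
    rw [this]
    simp
    ring
  have hrpos : (0 : ℝ) < 8 * r := by
    have : (1 : ℝ) ≤ r := by exact_mod_cast hr
    linarith
  have hne : F.Nonempty := by
    rw [← Finset.card_pos]
    have : (0 : ℝ) < F.card := by rw [hcard]; exact hrpos
    exact_mod_cast this
  have h1 : arm q r ≤ ∑ i ∈ F, Pr q (wbE (-r) r (-r) r (0, 0) (wbv r i)) := by
    calc arm q r = Pr q (Arm 0 r) := rfl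
      _ ≤ Pr q (⋃ i ∈ F, wbE (-r) r (-r) r (0, 0) (wbv r i)) := by
          refine Pr_mono ?_
          intro ω hω
          obtain ⟨i, hi, h1⟩ := wb_arm_incl hr hω
          simp only [Set.mem_iUnion]
          exact ⟨i, hi, h1⟩
      _ ≤ _ := Pr_biUnion_le F _
  have h2 : ∑ i ∈ F, Pr q (wbE (-r) r (-r) r (0, 0) (wbv r i)) < ∑ _i ∈ F, arm q r / (8 * r) := by
    apply Finset.sum_lt_sum_of_nonempty hne
    rintro ⟨j, t⟩ hi
    rw [hF, Finset.mem_product, Finset.mem_Icc] at hi
    simp only at hi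
    fin_cases j
    · change Pr q (wbE (-r) r (-r) r (0, 0) (r, t)) < _
      exact hcon t (by omega) (by omega)
    · change Pr q (wbE (-r) r (-r) r (0, 0) (-r, -t)) < _
      rw [wbg_left]
      exact hcon (-t) (by omega) (by omega)
    · change Pr q (wbE (-r) r (-r) r (0, 0) (-t, r)) < _
      rw [wbg_top]
      exact hcon (-t) (by omega) (by omega)
    · change Pr q (wbE (-r) r (-r) r (0, 0) (t, -r)) < _
      rw [wbg_bottom]
      exact hcon t (by omega) (by omega)
  rw [Finset.sum_const, nsmul_eq_mul, hcard, mul_div_cancel₀ _ hrpos.ne'] at h2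
  linarith

/-! ### The torus -/

/-- Reduction modulo `N`. -/
private def wbφ (N : ℕ) (e : Edge) : Edge := (e.1 % N, e.2.1 % N, e.2.2)

private lemma wb_mod {N : ℕ} {x y a b : ℤ} (hab : b - a < N) (hx : a ≤ x ∧ x ≤ b)
    (hy : a ≤ y ∧ y ≤ b) (h : x % N = y % N) : x = y := by
  have hd : (N : ℤ) ∣ x - y := Int.ModEq.dvd (Int.ModEq.symm h)
  have : x - y = 0 := by
    apply Int.eq_zero_of_abs_lt_dvd hd
    rw [abs_lt]
    omega
  omega

private lemma wbφ_injOn {N : ℕ} {a b c d : ℤ} (hab : b - a < N) (hcd : d - c < N) :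
    Set.InjOn (wbφ N) (eRect a b c d : Set Edge) := by
  rintro ⟨x, y, t⟩ h1 ⟨x', y', t'⟩ h2 h
  rw [Finset.mem_coe, mem_eRect] at h1 h2
  simp only [src, rect, Set.mem_ofPred_eq] at h1 h2
  simp only [wbφ, Prod.mk.injEq] at h
  obtain ⟨h3, h4, h5⟩ := h
  rw [wb_mod hab ⟨h1.1, h1.2.1⟩ ⟨h2.1, h2.2.1⟩ h3,
    wb_mod hcd ⟨h1.2.2.1, h1.2.2.2⟩ ⟨h2.2.2.1, h2.2.2.2⟩ h4, h5]

private lemma wbφc_injOn {N : ℕ} {a b c d : ℤ} (hab : b - a < N) (hcd : d - c < N) :
    Set.InjOn (fun e => wbφ N (crossed e)) (eRect a b c d : Set Edge) := by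
  rintro ⟨x, y, t⟩ h1 ⟨x', y', t'⟩ h2 h
  rw [Finset.mem_coe, mem_eRect] at h1 h2
  simp only [src, rect, Set.mem_ofPred_eq] at h1 h2
  cases t <;> cases t'
  · simp only [wbφ, crossed, Prod.mk.injEq, Bool.false_eq_true, if_false] at h
    have e1 := wb_mod (a := a + 1) (b := b + 1) (by omega) (by omega) (by omega) h.1
    have e2 := wb_mod hcd ⟨h1.2.2.1, h1.2.2.2⟩ ⟨h2.2.2.1, h2.2.2.2⟩ h.2.1
    simp only [Prod.mk.injEq, and_true]
    omega
  · simp [wbφ, crossed] at h
  · simp [wbφ, crossed] at h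
  · simp only [wbφ, crossed, Prod.mk.injEq, if_true] at h
    have e1 := wb_mod hab ⟨h1.1, h1.2.1⟩ ⟨h2.1, h2.2.1⟩ h.1
    have e2 := wb_mod (a := c + 1) (b := d + 1) (by omega) (by omega) (by omega) h.2.1
    simp only [Prod.mk.injEq, and_true]
    omega

private lemma wb_per_Pr (q : I) {N : ℕ} {a b c d : ℤ} (hab : b - a < N) (hcd : d - c < N)
    (u v : Vert) :
    Pr q {ω | per N ω ∈ wbE a b c d u v} = Pr q (wbE a b c d u v) :=
  Pr_comp (wbE_local a b c d u v) (wbφ_injOn hab hcd)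

private lemma wb_per_local (N : ℕ) (a b c d : ℤ) (u v : Vert) :
    LocalOn ((eRect a b c d).image (wbφ N)) {ω | per N ω ∈ wbE a b c d u v} := by
  intro ω ω' h hA
  refine wbE_local a b c d u v _ _ (fun e he => ?_) hA
  exact h _ (Finset.mem_image_of_mem _ he)

private lemma wb_per_incr (N : ℕ) (a b c d : ℤ) (u v : Vert) :
    Incr {ω | per N ω ∈ wbE a b c d u v} := by
  intro ω ω' h hA
  exact wbE_incr a b c d u v _ _ (fun e he => h _ he) hA

private lemma wb_dual_Pr (q : I) {N : ℕ} {a b c d : ℤ} (hab : b - a < N) (hcd : d - c < N)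
    (u v : Vert) :
    Pr q {ω | dual (per N ω) ∈ wbE a b c d u v} = Pr (σ q) (wbE a b c d u v) :=
  Pr_comp_not (wbE_local a b c d u v) (wbφc_injOn hab hcd)

private lemma wb_dual_local (N : ℕ) (a b c d : ℤ) (u v : Vert) :
    LocalOn ((eRect a b c d).image (fun e => wbφ N (crossed e)))
      {ω | dual (per N ω) ∈ wbE a b c d u v} := by
  intro ω ω' h hA
  refine wbE_local a b c d u v _ _ (fun e he => ?_) hA
  have := h _ (Finset.mem_image_of_mem (fun e => wbφ N (crossed e)) he)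
  change (!ω (wbφ N (crossed e))) = (!ω' (wbφ N (crossed e)))
  rw [this]

private lemma wb_dual_decr (N : ℕ) (a b c d : ℤ) (u v : Vert) :
    Incr {ω | dual (per N ω) ∈ wbE a b c d u v}ᶜ := by
  intro ω ω' h hA hA'
  apply hA
  refine wbE_incr a b c d u v _ _ (fun e he => ?_) hA'
  change (!ω' (wbφ N (crossed e))) = true at he
  change (!ω (wbφ N (crossed e))) = true
  rw [Bool.not_eq_true'] at he ⊢
  by_contra hc
  rw [Bool.not_eq_false] at hc
  rw [h _ hc] at he
  exact absurd he (by decide)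

private lemma wb_pow4 {x a b c d : ℝ} (hx : 0 ≤ x) (ha : x ≤ a) (hb : x ≤ b) (hc : x ≤ c)
    (hd : x ≤ d) : x ^ 4 ≤ (a * b) * (c * d) := by
  have h1 : x * x ≤ a * b := mul_le_mul ha hb hx (hx.trans ha)
  have h2 : x * x ≤ c * d := mul_le_mul hc hd hx (hx.trans hc)
  calc x ^ 4 = (x * x) * (x * x) := by ring
    _ ≤ (a * b) * (c * d) := mul_le_mul h1 h2 (mul_nonneg hx hx) ((mul_nonneg hx hx).trans h1)

private lemma wb_fkg4 {q : I} {s1 s2 s3 s4 : Finset Edge} {A B C D : Set Config}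
    (lA : LocalOn s1 A) (lB : LocalOn s2 B) (lC : LocalOn s3 C) (lD : LocalOn s4 D)
    (iA : Incr A) (iB : Incr B) (iC : Incr C) (iD : Incr D) :
    (Pr q A * Pr q B) * (Pr q C * Pr q D) ≤ Pr q ((A ∩ B) ∩ (C ∩ D)) := by
  classical
  have h1 := fkg (p := q) lA lB iA iB
  have h2 := fkg (p := q) lC lD iC iD
  have h3 := fkg (p := q) (lA.inter' lB) (lC.inter' lD) (iA.inter iB) (iC.inter iD)
  calc (Pr q A * Pr q B) * (Pr q C * Pr q D)
      ≤ Pr q (A ∩ B) * Pr q (C ∩ D) :=
        mul_le_mul h1 h2 (mul_nonneg Pr_nonneg Pr_nonneg) Pr_nonneg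
    _ ≤ _ := h3

private lemma wb_decr_inter {A B : Set Config} (iA : Incr Aᶜ) (iB : Incr Bᶜ) :
    Incr (A ∩ B)ᶜ := by
  rw [Set.compl_inter]
  exact iA.union iB

private lemma wb_fkg4_decr {q : I} {s1 s2 s3 s4 : Finset Edge} {A B C D : Set Config}
    (lA : LocalOn s1 A) (lB : LocalOn s2 B) (lC : LocalOn s3 C) (lD : LocalOn s4 D)
    (iA : Incr Aᶜ) (iB : Incr Bᶜ) (iC : Incr Cᶜ) (iD : Incr Dᶜ) :
    (Pr q A * Pr q B) * (Pr q C * Pr q D) ≤ Pr q ((A ∩ B) ∩ (C ∩ D)) := by
  classical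
  have h1 := fkg_decr (p := q) lA lB iA iB
  have h2 := fkg_decr (p := q) lC lD iC iD
  have h3 := fkg_decr (p := q) (lA.inter' lB) (lC.inter' lD) (wb_decr_inter iA iB)
    (wb_decr_inter iC iD)
  calc (Pr q A * Pr q B) * (Pr q C * Pr q D)
      ≤ Pr q (A ∩ B) * Pr q (C ∩ D) :=
        mul_le_mul h1 h2 (mul_nonneg Pr_nonneg Pr_nonneg) Pr_nonneg
    _ ≤ _ := h3

/-- Winding is at least polynomially likely. -/
theorem wind_lower {r : ℕ} (hr : 1 ≤ r) (q : I) :
    (arm q r / (8 * r)) ^ 4 ≤ Pr q (Wind (4 * r)) := by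
  obtain ⟨y, hy1, hy2, hy⟩ := wb_choose q hr
  have hN : ((4 * r : ℕ) : ℤ) = 4 * r := by push_cast; ring
  have hr' : (1 : ℤ) ≤ r := by exact_mod_cast hr
  have hx0 : 0 ≤ arm q r / (8 * r) := div_nonneg arm_nonneg (by positivity)
  -- the four events
  have p1 : Pr q {ω | per (4 * r) ω ∈ wbE (-r) r (-r) r (0, 0) (r, y)} = wbg q r y := by
    rw [wb_per_Pr q (by omega) (by omega)]
    rfl
  have p2 : Pr q {ω | per (4 * r) ω ∈ wbE (2 * r - r) (2 * r - -r) (-r) r (2 * r - 0, 0)
      (2 * r - r, y)} = wbg q r y := by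
    rw [wb_per_Pr q (by omega) (by omega), wb_reflX q (2 * r) (-r) r (-r) r 0 0 r y]
    rfl
  have p3 : Pr q {ω | per (4 * r) ω ∈ wbE (-r + 2 * r) (r + 2 * r) (-r + 0) (r + 0)
      (0 + 2 * r, 0 + 0) (r + 2 * r, y + 0)} = wbg q r y := by
    rw [wb_per_Pr q (by omega) (by omega), wb_shift q (2 * r) 0 (-r) r (-r) r 0 0 r y]
    rfl
  have p4 : Pr q {ω | per (4 * r) ω ∈ wbE (4 * r - r) (4 * r - -r) (-r) r (4 * r - 0, 0)
      (4 * r - r, y)} = wbg q r y := by
    rw [wb_per_Pr q (by omega) (by omega), wb_reflX q (4 * r) (-r) r (-r) r 0 0 r y]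
    rfl
  have key := wb_fkg4 (q := q)
    (wb_per_local (4 * r) (-r) r (-r) r (0, 0) (r, y))
    (wb_per_local (4 * r) (2 * r - r) (2 * r - -r) (-r) r (2 * r - 0, 0) (2 * r - r, y))
    (wb_per_local (4 * r) (-r + 2 * r) (r + 2 * r) (-r + 0) (r + 0) (0 + 2 * r, 0 + 0)
      (r + 2 * r, y + 0))
    (wb_per_local (4 * r) (4 * r - r) (4 * r - -r) (-r) r (4 * r - 0, 0) (4 * r - r, y))
    (wb_per_incr _ _ _ _ _ _ _) (wb_per_incr _ _ _ _ _ _ _) (wb_per_incr _ _ _ _ _ _ _)
    (wb_per_incr _ _ _ _ _ _ _)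
  rw [p1, p2, p3, p4] at key
  refine (wb_pow4 hx0 hy hy hy hy).trans (key.trans (Pr_mono ?_))
  rintro ω ⟨⟨h1, h2⟩, ⟨h3, h4⟩⟩
  have h1' : Conn (per (4 * r) ω) Set.univ (0, 0) (r, y) :=
    Conn.mono_set (Set.subset_univ _) h1
  have h2' : Conn (per (4 * r) ω) Set.univ (2 * r - 0, 0) (2 * r - r, y) :=
    Conn.mono_set (Set.subset_univ _) h2
  have h3' : Conn (per (4 * r) ω) Set.univ (0 + 2 * r, 0 + 0) (r + 2 * r, y + 0) :=
    Conn.mono_set (Set.subset_univ _) h3
  have h4' : Conn (per (4 * r) ω) Set.univ (4 * r - 0, 0) (4 * r - r, y) :=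
    Conn.mono_set (Set.subset_univ _) h4
  have e2 : (2 * (r : ℤ) - r, y) = ((r : ℤ), y) := by congr 1; ring
  have e3 : ((0 : ℤ) + 2 * r, (0 : ℤ) + 0) = (2 * (r : ℤ) - 0, (0 : ℤ)) := by
    rw [Prod.mk.injEq]; constructor <;> ring
  have e4 : ((r : ℤ) + 2 * r, y + 0) = (4 * (r : ℤ) - r, y) := by
    rw [Prod.mk.injEq]; constructor <;> ring
  rw [e2] at h2'
  rw [e3, e4] at h3'
  have hall := ((h1'.trans h2'.symm).trans h3').trans h4'.symm
  refine ⟨(0, 0), 1, 0, one_ne_zero, ?_⟩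
  have e5 : (((0, 0) : Vert).1 + 1 * ((4 * r : ℕ) : ℤ), ((0, 0) : Vert).2 + 0 * ((4 * r : ℕ) : ℤ))
      = (4 * (r : ℤ) - 0, (0 : ℤ)) := by
    rw [Prod.mk.injEq, hN]; constructor <;> ring
  rw [e5]
  exact hall

theorem wind_upper {r : ℕ} (hr : 1 ≤ r) (q : I) :
    (arm (σ q) r / (8 * r)) ^ 4 ≤ 1 - Pr q (Wind (4 * r)) := by
  obtain ⟨y, hy1, hy2, hy⟩ := wb_choose (σ q) hr
  have hN : ((4 * r : ℕ) : ℤ) = 4 * r := by push_cast; ring
  have hr' : (1 : ℤ) ≤ r := by exact_mod_cast hr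
  have hx0 : 0 ≤ arm (σ q) r / (8 * r) := div_nonneg arm_nonneg (by positivity)
  have p1 : Pr q {ω | dual (per (4 * r) ω) ∈ wbE (-r) r (-r) r (0, 0) (y, r)} =
      wbg (σ q) r y := by
    rw [wb_dual_Pr q (by omega) (by omega), wbg_top]
  have p2 : Pr q {ω | dual (per (4 * r) ω) ∈ wbE (-r) r (2 * r - r) (2 * r - -r) (0, 2 * r - 0)
      (y, 2 * r - r)} = wbg (σ q) r y := by
    rw [wb_dual_Pr q (by omega) (by omega), wb_reflY (σ q) (2 * r) (-r) r (-r) r 0 0 y r,
      wbg_top]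
  have p3 : Pr q {ω | dual (per (4 * r) ω) ∈ wbE (-r + 0) (r + 0) (-r + 2 * r) (r + 2 * r)
      (0 + 0, 0 + 2 * r) (y + 0, r + 2 * r)} = wbg (σ q) r y := by
    rw [wb_dual_Pr q (by omega) (by omega), wb_shift (σ q) 0 (2 * r) (-r) r (-r) r 0 0 y r,
      wbg_top]
  have p4 : Pr q {ω | dual (per (4 * r) ω) ∈ wbE (-r) r (4 * r - r) (4 * r - -r) (0, 4 * r - 0)
      (y, 4 * r - r)} = wbg (σ q) r y := by
    rw [wb_dual_Pr q (by omega) (by omega), wb_reflY (σ q) (4 * r) (-r) r (-r) r 0 0 y r,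
      wbg_top]
  have key := wb_fkg4_decr (q := q)
    (wb_dual_local (4 * r) (-r) r (-r) r (0, 0) (y, r))
    (wb_dual_local (4 * r) (-r) r (2 * r - r) (2 * r - -r) (0, 2 * r - 0) (y, 2 * r - r))
    (wb_dual_local (4 * r) (-r + 0) (r + 0) (-r + 2 * r) (r + 2 * r) (0 + 0, 0 + 2 * r)
      (y + 0, r + 2 * r))
    (wb_dual_local (4 * r) (-r) r (4 * r - r) (4 * r - -r) (0, 4 * r - 0) (y, 4 * r - r))
    (wb_dual_decr _ _ _ _ _ _ _) (wb_dual_decr _ _ _ _ _ _ _) (wb_dual_decr _ _ _ _ _ _ _)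
    (wb_dual_decr _ _ _ _ _ _ _)
  rw [p1, p2, p3, p4] at key
  rw [← Pr_compl (localOn_wind (N := 4 * r) (by omega))]
  refine (wb_pow4 hx0 hy hy hy hy).trans (key.trans (Pr_mono ?_))
  rintro ω ⟨⟨h1, h2⟩, ⟨h3, h4⟩⟩ hW
  have h1' : Conn (dual (per (4 * r) ω)) Set.univ (0, 0) (y, r) :=
    Conn.mono_set (Set.subset_univ _) h1
  have h2' : Conn (dual (per (4 * r) ω)) Set.univ (0, 2 * r - 0) (y, 2 * r - r) :=
    Conn.mono_set (Set.subset_univ _) h2
  have h3' : Conn (dual (per (4 * r) ω)) Set.univ (0 + 0, 0 + 2 * r) (y + 0, r + 2 * r) :=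
    Conn.mono_set (Set.subset_univ _) h3
  have h4' : Conn (dual (per (4 * r) ω)) Set.univ (0, 4 * r - 0) (y, 4 * r - r) :=
    Conn.mono_set (Set.subset_univ _) h4
  have e2 : (y, 2 * (r : ℤ) - r) = (y, (r : ℤ)) := by congr 1; ring
  have e3 : ((0 : ℤ) + 0, (0 : ℤ) + 2 * r) = ((0 : ℤ), 2 * (r : ℤ) - 0) := by
    rw [Prod.mk.injEq]; constructor <;> ring
  have e4 : (y + 0, (r : ℤ) + 2 * r) = (y, 4 * (r : ℤ) - r) := by
    rw [Prod.mk.injEq]; constructor <;> ring
  rw [e2] at h2'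
  rw [e3, e4] at h3'
  have hall := ((h1'.trans h2'.symm).trans h3').trans h4'.symm
  refine wind_exclusion (N := 4 * r) (by omega) hW (0, 0) ?_
  have e5 : (((0, 0) : Vert).1, ((0, 0) : Vert).2 + ((4 * r : ℕ) : ℤ))
      = ((0 : ℤ), 4 * (r : ℤ) - 0) := by
    rw [Prod.mk.injEq, hN]; constructor <;> ring
  rw [e5]
  exact hall

end Pool.Agent.H89.Perc

end

section

/-!
# Consequence of the threshold inequality
-/

open MeasureTheory ProbabilityTheory unitInterval

namespace Pool.Agent.H89.Perc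

/-- Consequence of the threshold inequality. -/
theorem torus_threshold {r : ℕ} (hr : 1 ≤ r) {p : I} (hp : half ≤ p) (hp1 : (p : ℝ) < 1) :
    (arm half r / (8 * r)) ^ 4 * (arm (σ p) r / (8 * r)) ^ 4 ≤
      Real.exp (-2 * ((p : ℝ) - 1 / 2) * r /
        (5 * ∑ k ∈ Finset.range (4 * r), arm p k * arm half k)) := by
  set S : ℝ := ∑ k ∈ Finset.range (4 * r), arm p k * arm half k with hS
  have hr0 : (0 : ℝ) < r := by exact_mod_cast hr
  have hSpos : 0 < S := by
    have h0 : (0 : ℕ) ∈ Finset.range (4 * r) := Finset.mem_range.2 (by omega)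
    have h1 : arm p 0 * arm half 0 ≤ S :=
      Finset.single_le_sum (f := fun k => arm p k * arm half k)
        (fun k _ => mul_nonneg arm_nonneg arm_nonneg) h0
    rw [arm_zero, arm_zero] at h1
    linarith
  have hhalf : ((half : I) : ℝ) = 1 / 2 := rfl
  have hcast : ((4 * r : ℕ) : ℝ) = 4 * r := by push_cast; ring
  -- the variance inequality
  have hvar : ∀ q : I, half ≤ q → q ≤ p →
      Pr q (Wind (4 * r)) * (1 - Pr q (Wind (4 * r))) ≤
        (5 * S / r) / 2 * ∑ e ∈ tEdges (4 * r), pivot q (Wind (4 * r)) e := by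
    intro q hq hqp
    refine (torus_var (N := 4 * r) (by omega) q).trans ?_
    have hσ : σ q ≤ half := by
      rw [← Subtype.coe_le_coe, coe_symm_eq, hhalf]
      have : ((half : I) : ℝ) ≤ q := hq
      rw [hhalf] at this
      linarith
    have hsum : ∑ k ∈ Finset.range (4 * r), arm q k * arm (σ q) k ≤ S :=
      Finset.sum_le_sum fun k _ => mul_le_mul (arm_mono_param k hqp) (arm_mono_param k hσ)
        arm_nonneg arm_nonneg
    have hpiv : 0 ≤ ∑ e ∈ tEdges (4 * r), pivot q (Wind (4 * r)) e := by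
      refine Finset.sum_nonneg fun e _ => ?_
      refine sub_nonneg.2 (Pr_mono fun ω hω => ?_)
      refine incr_wind (4 * r) _ _ (fun e' h' => ?_) hω
      by_cases he : e' = e
      · subst he; simp
      · rw [Function.update_of_ne he] at h' ⊢; exact h'
    refine mul_le_mul_of_nonneg_right ?_ hpiv
    rw [hcast]
    calc 10 / (4 * (r : ℝ)) * ∑ k ∈ Finset.range (4 * r), arm q k * arm (σ q) k
        ≤ 10 / (4 * (r : ℝ)) * S := mul_le_mul_of_nonneg_left hsum (by positivity)
      _ = (5 * S / r) / 2 := by field_simp; norm_num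
  have key := threshold (localOn_wind (N := 4 * r) (by omega)) (incr_wind (4 * r)) (p₀ := half)
    (p₁ := p) (by rw [hhalf]; norm_num) hp hp1 (δ := 5 * S / r) (by positivity) hvar
  have hl := wind_lower hr half
  have hu := wind_upper hr p
  have hprod : (arm half r / (8 * r)) ^ 4 * (arm (σ p) r / (8 * r)) ^ 4 ≤
      Pr half (Wind (4 * r)) * (1 - Pr p (Wind (4 * r))) :=
    mul_le_mul hl hu (by positivity) Pr_nonneg
  refine (hprod.trans key).trans (le_of_eq ?_)
  congr 1
  rw [hhalf]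
  field_simp

end Pool.Agent.H89.Perc

end

section

/-!
# Lower bound for the percolation probability
-/

open MeasureTheory ProbabilityTheory unitInterval Filter Topology

namespace Pool.Agent.H89.Perc

theorem theta_mono {p q : I} (h : p ≤ q) : theta p ≤ theta q :=
  le_of_tendsto_of_tendsto' (tendsto_arm p) (tendsto_arm q) fun r => arm_mono_param r h

theorem theta_nonneg (p : I) : 0 ≤ theta p := Pr_nonneg

theorem theta_half : theta half = 0 := by
  obtain ⟨C, c, hC, hc, h⟩ := arm_decay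
  refine le_antisymm ?_ (theta_nonneg _)
  have h1 : Tendsto (fun r : ℕ => C * (r : ℝ) ^ (-c)) atTop (𝓝 (C * 0)) :=
    ((tendsto_rpow_neg_atTop hc).comp tendsto_natCast_atTop_atTop).const_mul C
  rw [mul_zero] at h1
  refine le_of_tendsto_of_tendsto (tendsto_arm half) h1 ?_
  filter_upwards [eventually_ge_atTop 1] with r hr
  exact h r hr

theorem theta_of_le_half {p : I} (h : (p : ℝ) ≤ 1 / 2) : theta p = 0 := by
  refine le_antisymm ?_ (theta_nonneg _)
  rw [← theta_half]
  exact theta_mono h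

lemma ArmBox_zero (r : ℕ) : ArmBox 0 0 r = Arm 0 r := by
  ext ω
  constructor
  · rintro ⟨w, hw, u, hu, hc⟩
    have : w = 0 := by
      rw [mem_ball] at hw
      obtain ⟨h1, h2, h3, h4⟩ := hw
      have h0 : ((0 : Vert).1) = 0 := rfl
      have h0' : ((0 : Vert).2) = 0 := rfl
      apply Prod.ext <;> simp only [h0, h0'] at * <;> push_cast at * <;> omega
    subst this
    exact ⟨u, hu, hc⟩
  · rintro ⟨u, hu, hc⟩
    exact ⟨0, self_mem_ball, u, hu, hc⟩

theorem finalHyp : ∃ ce Cd cd : ℝ, 0 < ce ∧ 0 < Cd ∧ 0 < cd ∧ ∀ p : I, (1 / 2 : ℝ) < p →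
    (p : ℝ) ≤ 3 / 4 → FinalHyp ce Cd cd ((p : ℝ) - 1 / 2) (theta p) (fun k => arm p k)
      (fun k => arm half k) (fun k => arm (σ p) k) := by
  obtain ⟨c1, hc1, h1⟩ := armBox_lower
  obtain ⟨c2, hc2, h2⟩ := arm_ext
  obtain ⟨Cd, cd, hCd, hcd, h3⟩ := arm_decay
  refine ⟨min c1 c2, Cd, cd, lt_min hc1 hc2, hCd, hcd, ?_⟩
  intro p hp hp'
  have hhp : half ≤ p := Subtype.coe_le_coe.1 hp.le
  refine
    { ce0 := lt_min hc1 hc2
      Cd0 := hCd
      cd0 := hcd
      h0 := by linarith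
      h1 := by linarith
      a_anti := fun i j hij => arm_antitone hij
      a_le_one := fun _ => arm_le_one
      b_nonneg := fun _ => arm_nonneg
      b_le_a := fun r => arm_mono_param r hhp
      d_nonneg := fun _ => arm_nonneg
      d_le_one := fun _ => arm_le_one
      b_low := ?_
      a_ext := ?_
      b_ext := ?_
      b_dec := h3
      thr := ?_
      sl := fun s n hsn => simon_lieb (σ p) hsn
      sub := fun R M hR hM => arm_sub_le hR hM
      lim := tendsto_arm p }
  · intro r hr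
    have := h1 0 r hr (Nat.zero_le r)
    rw [ArmBox_zero] at this
    refine le_trans ?_ this
    have h0 : Real.sqrt (1 / r) = Real.sqrt (((0 : ℕ) + 1) / r) := by norm_num
    rw [← h0]
    exact mul_le_mul_of_nonneg_right (min_le_left _ _) (Real.sqrt_nonneg _)
  · intro k R hk hkR
    refine le_trans ?_ (h2 p hhp k R hk hkR)
    have : 0 ≤ Real.sqrt (k / R) * arm p k := mul_nonneg (Real.sqrt_nonneg _) arm_nonneg
    have h4 : min c1 c2 ≤ c2 := min_le_right _ _
    nlinarith
  · intro k R hk hkR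
    refine le_trans ?_ (h2 half le_rfl k R hk hkR)
    have : 0 ≤ Real.sqrt (k / R) * arm half k := mul_nonneg (Real.sqrt_nonneg _) arm_nonneg
    have h4 : min c1 c2 ≤ c2 := min_le_right _ _
    nlinarith
  · intro r hr
    exact torus_threshold hr hhp (by linarith)

/-- Main estimate: `θ(p) ≥ c (p - 1/2)^{1/2} / log (2 + 1 / (p - 1/2))`. -/
theorem theta_lower : ∃ c > (0 : ℝ), ∀ p : I, (1 / 2 : ℝ) < p →
    c * Real.sqrt ((p : ℝ) - 1 / 2) / Real.log (2 + 1 / ((p : ℝ) - 1 / 2)) ≤ theta p := by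
  obtain ⟨ce, Cd, cd, hce, hCd, hcd, H⟩ := finalHyp
  obtain ⟨c, hc, h⟩ := FinalHyp.final_core hce hCd hcd
  refine ⟨c / 8, by positivity, ?_⟩
  intro p hp
  set x : ℝ := (p : ℝ) - 1 / 2 with hx
  have hx0 : 0 < x := by rw [hx]; linarith
  have hxh : x ≤ 1 / 2 := by have := p.2.2; rw [hx]; linarith
  have hL : 1 ≤ Real.log (2 + 1 / x) := by
    rw [Real.le_log_iff_exp_le (by positivity)]
    have : 2 ≤ 1 / x := by rw [le_div_iff₀ hx0]; linarith
    have := Real.exp_one_lt_d9
    linarith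
  have hs : 0 ≤ Real.sqrt x := Real.sqrt_nonneg x
  by_cases hp' : (p : ℝ) ≤ 3 / 4
  · have h1 := h _ _ _ _ _ (H p hp hp')
    refine le_trans ?_ h1
    rw [← hx]
    gcongr
    linarith
  · push Not at hp'
    set q : I := ⟨3 / 4, by norm_num, by norm_num⟩ with hq
    have hqv : (q : ℝ) = 3 / 4 := rfl
    have h1 := h _ _ _ _ _ (H q (by rw [hqv]; norm_num) hqv.le)
    have h2 : theta q ≤ theta p := theta_mono (Subtype.coe_le_coe.1 (by rw [hqv]; exact hp'.le))
    refine le_trans ?_ (h1.trans h2)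
    rw [hqv]
    have h3 : Real.sqrt (3 / 4 - 1 / 2) = 1 / 2 := by
      rw [show (3 / 4 - 1 / 2 : ℝ) = (1 / 2) ^ 2 by norm_num]
      exact Real.sqrt_sq (by norm_num)
    have h4 : Real.log (2 + 1 / (3 / 4 - 1 / 2)) ≤ 2 := by
      rw [Real.log_le_iff_le_exp (by norm_num)]
      have := Real.add_one_le_exp (1 : ℝ)
      have h5 : Real.exp 2 = Real.exp 1 * Real.exp 1 := by
        rw [← Real.exp_add]; norm_num
      rw [h5]
      have := Real.exp_one_gt_d9
      norm_num
      nlinarith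
    have h5 : 0 < Real.log (2 + 1 / (3 / 4 - 1 / 2)) := Real.log_pos (by norm_num)
    rw [h3]
    have h6 : Real.sqrt x ≤ 1 := Real.sqrt_le_iff.2 ⟨by norm_num, by linarith⟩
    calc c / 8 * Real.sqrt x / Real.log (2 + 1 / x) ≤ c / 8 * 1 / 1 := by gcongr
      _ ≤ c * (1 / 2) / 2 := by linarith
      _ ≤ c * (1 / 2) / Real.log (2 + 1 / (3 / 4 - 1 / 2)) := by gcongr

end Pool.Agent.H89.Perc

end

section

/-! EXACT project, one-arm formula, pure algebra part (helper93). -/

namespace EX93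

open Finset Polynomial

variable {R : Type*} [CommRing R]

/-- local pair factor -/
def hh (q : R) : Bool → Bool → R → R → R
  | true, true, x, y => y ^ 3 - x ^ 3
  | false, false, x, y => y ^ 3 - x ^ 3
  | true, false, x, y => -(x - q * y) ^ 3
  | false, true, x, y => (y - q * x) ^ 3

lemma hh_anti (q : R) (a b : Bool) (x y : R) : hh q a b x y = - hh q b a y x := by
  cases a <;> cases b <;> simp [hh]

/-- weight of a colouring -/
def wt (ω : R) {m : ℕ} (s : Fin m → Bool) : R := ∏ i, if s i then ω else 1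

/-- the product over pairs -/
def pp (q : R) {m : ℕ} (s : Fin m → Bool) (z : Fin m → R) : R :=
  ∏ i, ∏ j ∈ Ioi i, hh q (s i) (s j) (z i) (z j)

/-- numerator of the symmetric function -/
def QQ (q ω : R) (m : ℕ) (z : Fin m → R) : R :=
  ∑ s : Fin m → Bool, wt ω s * pp q s z

/-- Vandermonde product -/
def VV (m : ℕ) (z : Fin m → R) : R := ∏ i, ∏ j ∈ Ioi i, (z j - z i)

lemma wt_perm (ω : R) {m : ℕ} (s : Fin m → Bool) (σ : Equiv.Perm (Fin m)) :
    wt ω (s ∘ σ) = wt ω s := by
  unfold wt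
  exact Equiv.prod_comp σ (fun i => if s i then ω else 1)

lemma pp_perm (q : R) {m : ℕ} (s : Fin m → Bool) (z : Fin m → R) (σ : Equiv.Perm (Fin m)) :
    pp q (s ∘ σ) (z ∘ σ) = (Equiv.Perm.sign σ : ℤ) * pp q s z := by
  unfold pp
  have := σ.prod_Ioi_comp_eq_sign_mul_prod (R := R)
    (f := fun i j => hh q (s i) (s j) (z i) (z j)) (fun i j => hh_anti q _ _ _ _)
  simpa using this

lemma QQ_perm (q ω : R) {m : ℕ} (z : Fin m → R) (σ : Equiv.Perm (Fin m)) :
    QQ q ω m (z ∘ σ) = (Equiv.Perm.sign σ : ℤ) * QQ q ω m z := by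
  unfold QQ
  rw [Finset.mul_sum]
  have e : (Fin m → Bool) ≃ (Fin m → Bool) := Equiv.arrowCongr σ.symm (Equiv.refl _)
  refine Fintype.sum_equiv (Equiv.arrowCongr σ (Equiv.refl Bool)) _ _ (fun s => ?_)
  have h1 : wt ω ((Equiv.arrowCongr σ (Equiv.refl Bool)) s) = wt ω s := by
    have := wt_perm ω ((Equiv.arrowCongr σ (Equiv.refl Bool)) s) σ
    rw [← this]
    congr 1
    funext i
    simp [Equiv.arrowCongr]
  have h2 : pp q s (z ∘ σ) = (Equiv.Perm.sign σ : ℤ) *
      pp q ((Equiv.arrowCongr σ (Equiv.refl Bool)) s) z := by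
    rw [← pp_perm]
    congr 1
    funext i
    simp [Equiv.arrowCongr]
  rw [h1, h2]
  ring

lemma VV_perm {m : ℕ} (z : Fin m → R) (σ : Equiv.Perm (Fin m)) :
    VV m (z ∘ σ) = (Equiv.Perm.sign σ : ℤ) * VV m z := by
  unfold VV
  have := σ.prod_Ioi_comp_eq_sign_mul_prod (R := R)
    (f := fun i j => z j - z i) (fun i j => by ring)
  simpa using this

lemma QQ_map {S : Type*} [CommRing S] (f : R →+* S) (q ω : R) (m : ℕ) (z : Fin m → R) :
    f (QQ q ω m z) = QQ (f q) (f ω) m (fun i => f (z i)) := by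
  unfold QQ wt pp
  rw [map_sum]
  refine Finset.sum_congr rfl fun s _ => ?_
  rw [map_mul, map_prod, map_prod]
  congr 1
  · refine Finset.prod_congr rfl fun i _ => ?_
    split_ifs <;> simp
  · refine Finset.prod_congr rfl fun i _ => ?_
    rw [map_prod]
    refine Finset.prod_congr rfl fun j _ => ?_
    cases s i <;> cases s j <;> simp [hh]

lemma VV_map {S : Type*} [CommRing S] (f : R →+* S) (m : ℕ) (z : Fin m → R) :
    f (VV m z) = VV m (fun i => f (z i)) := by
  unfold VV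
  rw [map_prod]
  refine Finset.prod_congr rfl fun i _ => ?_
  rw [map_prod]
  refine Finset.prod_congr rfl fun j _ => ?_
  simp

lemma pp_cons (q : R) {m : ℕ} (b : Bool) (s : Fin m → Bool) (x : R) (z : Fin m → R) :
    pp q (Fin.cons b s : Fin (m + 1) → Bool) (Fin.cons x z : Fin (m + 1) → R)
      = (∏ j, hh q b (s j) x (z j)) * pp q s z := by
  unfold pp
  rw [Fin.prod_univ_succ, Fin.prod_Ioi_zero]
  simp [Fin.prod_Ioi_succ]

lemma VV_cons {m : ℕ} (x : R) (z : Fin m → R) :
    VV (m + 1) (Fin.cons x z : Fin (m + 1) → R) = (∏ j, (z j - x)) * VV m z := by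
  unfold VV
  rw [Fin.prod_univ_succ, Fin.prod_Ioi_zero]
  simp [Fin.prod_Ioi_succ]

lemma wt_cons (ω : R) {m : ℕ} (b : Bool) (s : Fin m → Bool) :
    wt ω (Fin.cons b s : Fin (m + 1) → Bool) = (if b then ω else 1) * wt ω s := by
  unfold wt
  rw [Fin.prod_univ_succ]
  simp

lemma sum_cons {m : ℕ} (f : (Fin (m + 1) → Bool) → R) :
    ∑ s : Fin (m + 1) → Bool, f s = ∑ s : Fin m → Bool,
      (f (Fin.cons true s) + f (Fin.cons false s)) := by
  have : ∑ s : Fin (m + 1) → Bool, f s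
      = ∑ p : Bool × (Fin m → Bool), f (Fin.cons p.1 p.2) := by
    refine (Fintype.sum_equiv (Fin.consEquiv (fun _ => Bool)) _ _ (fun p => ?_)).symm
    rfl
  rw [this, Fintype.sum_prod_type]
  simp only [Fintype.sum_bool]
  rw [← Finset.sum_add_distrib]

lemma QQ_cons (q ω : R) {m : ℕ} (x : R) (z : Fin m → R) :
    QQ q ω (m + 1) (Fin.cons x z : Fin (m + 1) → R) = ∑ s : Fin m → Bool,
      wt ω s * (ω * (∏ j, hh q true (s j) x (z j)) + ∏ j, hh q false (s j) x (z j)) * pp q s z := by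
  unfold QQ
  rw [sum_cons]
  refine Finset.sum_congr rfl fun s _ => ?_
  rw [wt_cons, wt_cons, pp_cons, pp_cons]
  simp
  ring

/-- the wheel recursion for the numerator -/
lemma QQ_wheel (q ω : R) (hq : q ^ 2 + q + 1 = 0) {m : ℕ} (w : R) (z : Fin m → R) :
    QQ q ω (m + 2) (Fin.cons (q ^ 2 * w) (Fin.cons w z : Fin (m + 1) → R) : Fin (m + 2) → R)
      = -(q ^ 2 - q) ^ 3 * w ^ 3 * ω *
        (∏ j, ((z j - w) * (z j - q ^ 2 * w) * (z j - q * w) ^ 4)) * QQ q ω m z := by
  have q3 : q ^ 3 = 1 := by linear_combination (q - 1) * hq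
  unfold QQ
  rw [sum_cons, sum_cons, Finset.mul_sum]
  refine Finset.sum_congr rfl fun s _ => ?_
  simp only [wt_cons, pp_cons]
  rw [Fin.prod_univ_succ, Fin.prod_univ_succ, Fin.prod_univ_succ, Fin.prod_univ_succ]
  simp only [Fin.cons_zero, Fin.cons_succ]
  have h1 : hh q true true (q ^ 2 * w) w = 0 := by
    simp only [hh]; linear_combination (-(q^3+1) * w^3) * q3
  have h2 : hh q false false (q ^ 2 * w) w = 0 := by
    simp only [hh]; linear_combination (-(q^3+1) * w^3) * q3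
  have h3 : hh q false true (q ^ 2 * w) w = 0 := by
    simp only [hh]
    have : w - q * (q ^ 2 * w) = 0 := by linear_combination (-w) * q3
    rw [this]; ring
  have h4 : hh q true false (q ^ 2 * w) w = -(q ^ 2 - q) ^ 3 * w ^ 3 := by
    simp only [hh]; ring
  rw [h1, h2, h3, h4]
  have key : (∏ j, hh q true (s j) (q ^ 2 * w) (z j)) * (∏ j, hh q false (s j) w (z j))
      = ∏ j, ((z j - w) * (z j - q ^ 2 * w) * (z j - q * w) ^ 4) := by
    rw [← Finset.prod_mul_distrib]
    refine Finset.prod_congr rfl fun j _ => ?_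
    have e1 : (z j) ^ 3 - w ^ 3 = (z j - w) * (z j - q ^ 2 * w) * (z j - q * w) := by
      linear_combination ((z j - w) * z j * w) * hq - ((z j - w) * w ^ 2) * q3
    cases s j
    · have a1 : hh q true false (q ^ 2 * w) (z j) = (z j - q * w) ^ 3 := by
        simp only [hh]
        linear_combination (z j - q * w) ^ 3 * q3
      have a2 : hh q false false w (z j) = (z j - w) * (z j - q ^ 2 * w) * (z j - q * w) := by
        simp only [hh]; rw [e1]
      rw [a1, a2]; ring
    · have a1 : hh q true true (q ^ 2 * w) (z j) =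
          (z j - w) * (z j - q ^ 2 * w) * (z j - q * w) := by
        simp only [hh]; rw [← e1]
        linear_combination (-(q ^ 3 + 1) * w ^ 3) * q3
      have a2 : hh q false true w (z j) = (z j - q * w) ^ 3 := by
        simp only [hh]
      rw [a1, a2]; ring
  rw [← key]
  simp only [Bool.false_eq_true, if_true, if_false]
  ring

/-- the wheel factor of the Vandermonde product -/
lemma VV_wheel (q : R) {m : ℕ} (w : R) (z : Fin m → R) :
    VV (m + 2) (Fin.cons (q ^ 2 * w) (Fin.cons w z : Fin (m + 1) → R) : Fin (m + 2) → R)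
      = (1 - q ^ 2) * w * (∏ j, ((z j - w) * (z j - q ^ 2 * w))) * VV m z := by
  rw [VV_cons, VV_cons, Fin.prod_univ_succ]
  simp only [Fin.cons_zero, Fin.cons_succ, Finset.prod_mul_distrib]
  ring

end EX93

end

section

namespace EX93

open Finset Polynomial Matrix

section
variable {R : Type*} [CommRing R] {L : ℕ}

/-- bilinear kernel -/
def gg (x y : R) : R := 1 - y + x * y

/-- entry of the mixed matrix -/
def ent (ω : R) (x : Fin L → R) (b : Bool) (j k : Fin L) : R :=
  (if b then ω * ∏ l, gg (x l) (x j) else ∏ l, gg (x j) (x l)) *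
    (projVandermonde (fun j => if b then x j else 1) (fun j => if b then 1 else 1 - x j) j k)

/-- the matrix `W` -/
def WW (ω : R) (x : Fin L → R) : Matrix (Fin L) (Fin L) R :=
  Matrix.of fun j k => ent ω x true j k + ent ω x false j k

/-- the local factor in the new coordinates -/
def rr (x y : R) : Bool → Bool → R
  | true, true => (y - x) * gg x y * gg y x
  | false, false => (y - x) * gg x y * gg y x
  | true, false => gg y x ^ 3
  | false, true => - gg x y ^ 3

lemma det_WW_expand (ω : R) (x : Fin L → R) :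
    (WW ω x).det = ∑ s : Fin L → Bool, (Matrix.of fun j k => ent ω x (s j) j k).det := by
  rw [← Matrix.det_transpose, Matrix.det_apply]
  have h1 : ∀ σ : Equiv.Perm (Fin L), (∏ i, (WW ω x)ᵀ (σ i) i)
      = ∑ s : Fin L → Bool, ∏ i, ent ω x (s i) i (σ i) := by
    intro σ
    have : ∀ i, (WW ω x)ᵀ (σ i) i = ∑ b : Bool, ent ω x b i (σ i) := by
      intro i
      simp [WW, Matrix.transpose_apply]
    simp_rw [this]
    rw [Finset.prod_univ_sum, Fintype.piFinset_univ]
  simp_rw [h1, Finset.smul_sum]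
  rw [Finset.sum_comm]
  refine Finset.sum_congr rfl fun s _ => ?_
  rw [← Matrix.det_transpose, Matrix.det_apply]
  rfl

lemma det_mixed (ω : R) (x : Fin L → R) (s : Fin L → Bool) :
    (Matrix.of fun j k => ent ω x (s j) j k).det
      = (∏ i, if s i then ω * ∏ l, gg (x l) (x i) else ∏ l, gg (x i) (x l)) *
        ∏ i, ∏ j ∈ Ioi i, ((if s j then x j else 1) * (if s i then 1 else 1 - x i)
          - (if s i then x i else 1) * (if s j then 1 else 1 - x j)) := by
  have : (Matrix.of fun j k => ent ω x (s j) j k) = Matrix.of fun j k =>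
      (if s j then ω * ∏ l, gg (x l) (x j) else ∏ l, gg (x j) (x l)) *
      (projVandermonde (fun j => if s j then x j else 1) (fun j => if s j then 1 else 1 - x j)) j k := by
    ext j k
    simp only [Matrix.of_apply, ent, projVandermonde_apply]
  rw [this, Matrix.det_mul_column, Matrix.det_projVandermonde]

lemma prod_offdiag (f : Fin L → Fin L → R) :
    ∏ i, ∏ l, f i l = (∏ i, f i i) * ∏ i, ∏ j ∈ Ioi i, (f i j * f j i) := by
  have h1 := Finset.prod_prod_Ioi_mul_eq_prod_prod_off_diag (fun i j => f j i)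
  rw [h1, ← Finset.prod_mul_distrib]
  refine Finset.prod_congr rfl fun i _ => ?_
  rw [← Finset.mul_prod_erase Finset.univ (fun l => f i l) (Finset.mem_univ i)]
  congr 1
  refine Finset.prod_congr ?_ fun _ _ => rfl
  ext l; simp

lemma mixed_eq (x : Fin L → R) (s : Fin L → Bool) :
    (∏ i, if s i then ∏ l, gg (x l) (x i) else ∏ l, gg (x i) (x l)) *
        ∏ i, ∏ j ∈ Ioi i, ((if s j then x j else 1) * (if s i then 1 else 1 - x i)
          - (if s i then x i else 1) * (if s j then 1 else 1 - x j))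
      = (∏ i, gg (x i) (x i)) * ∏ i, ∏ j ∈ Ioi i, rr (x i) (x j) (s i) (s j) := by
  have h1 : (∏ i, if s i then ∏ l, gg (x l) (x i) else ∏ l, gg (x i) (x l))
      = ∏ i, ∏ l, (if s i then gg (x l) (x i) else gg (x i) (x l)) := by
    refine Finset.prod_congr rfl fun i _ => ?_
    split_ifs <;> rfl
  rw [h1, prod_offdiag, mul_assoc, ← Finset.prod_mul_distrib]
  have h2 : (∏ i, if s i then gg (x i) (x i) else gg (x i) (x i)) = ∏ i, gg (x i) (x i) := by
    refine Finset.prod_congr rfl fun i _ => ?_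
    split_ifs <;> rfl
  rw [h2]
  congr 1
  refine Finset.prod_congr rfl fun i _ => ?_
  rw [← Finset.prod_mul_distrib]
  refine Finset.prod_congr rfl fun j _ => ?_
  cases s i <;> cases s j <;> simp [rr, gg] <;> ring

lemma det_WW (ω : R) (x : Fin L → R) :
    (WW ω x).det = (∏ i, gg (x i) (x i)) *
      ∑ s : Fin L → Bool, wt ω s * ∏ i, ∏ j ∈ Ioi i, rr (x i) (x j) (s i) (s j) := by
  rw [det_WW_expand, Finset.mul_sum]
  refine Finset.sum_congr rfl fun s _ => ?_
  rw [det_mixed]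
  have h1 : (∏ i, if s i then ω * ∏ l, gg (x l) (x i) else ∏ l, gg (x i) (x l))
      = wt ω s * ∏ i, if s i then ∏ l, gg (x l) (x i) else ∏ l, gg (x i) (x l) := by
    unfold wt
    rw [← Finset.prod_mul_distrib]
    refine Finset.prod_congr rfl fun i _ => ?_
    split_ifs <;> simp
  rw [h1, mul_assoc, mixed_eq]
  ring

end

section
variable {L : ℕ}

/-- local comparison between the multiplicative and the Moebius coordinates -/
lemma hh_eq_rr (q : ℂ) (hq : q ^ 2 + q + 1 = 0) (x y : ℂ) (hx : x + q ≠ 0) (hy : y + q ≠ 0)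
    (a b : Bool) :
    hh q a b ((q ^ 2 * x + q) / (x + q)) ((q ^ 2 * y + q) / (y + q)) * ((x + q) * (y + q)) ^ 3
      = ((1 - q) * (3 * q)) * rr x y a b := by
  have q3 : q ^ 3 = 1 := by linear_combination (q - 1) * hq
  have e1 : ((q ^ 2 * y + q) / (y + q) - (q ^ 2 * x + q) / (x + q)) * ((x + q) * (y + q))
      = (1 - q) * (y - x) := by
    field_simp
    linear_combination (y - x) * q3
  have e2 : ((q ^ 2 * x + q) / (x + q) - q * ((q ^ 2 * y + q) / (y + q))) * ((x + q) * (y + q))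
      = (q ^ 2 - 1) * gg y x := by
    unfold gg
    field_simp
    linear_combination (x - x * y - q * y - 1) * q3
  have e3 : ((q ^ 2 * y + q) / (y + q) - q * ((q ^ 2 * x + q) / (x + q))) * ((x + q) * (y + q))
      = (q ^ 2 - 1) * gg x y := by
    unfold gg
    field_simp
    linear_combination (y - x * y - q * x - 1) * q3
  have e4 : ∀ u v : ℂ, u ^ 3 - v ^ 3 = (u - v) * (u - q * v) * (-q ^ 2) * (v - q * u) := by
    intro u v
    linear_combination ((u - v) * u * v) * hq + ((u - v) * (-(u ^ 2 + v ^ 2) + u * v * q)) * q3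
  set u := (q ^ 2 * x + q) / (x + q) with hu
  set v := (q ^ 2 * y + q) / (y + q) with hv
  set t := (x + q) * (y + q) with ht
  have e5 : (v ^ 3 - u ^ 3) * t ^ 3 = ((1 - q) * (3 * q)) * ((y - x) * gg x y * gg y x) := by
    have : (v ^ 3 - u ^ 3) * t ^ 3
        = (-q ^ 2) * ((v - u) * t) * ((v - q * u) * t) * ((u - q * v) * t) := by
      rw [e4 v u]; ring
    rw [this, e1, e2, e3]
    have h9 : (-q ^ 2) * (q ^ 2 - 1) ^ 2 = 3 * q := by
      linear_combination (-(q ^ 4) + q ^ 3 + 2 * q ^ 2 - 3 * q) * hq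
    linear_combination ((1 - q) * (y - x) * gg x y * gg y x) * h9
  have e6 : (q ^ 2 - 1) ^ 3 = -((1 - q) * (3 * q)) := by
    linear_combination (q ^ 4 - q ^ 3 - 3 * q ^ 2 + 4 * q - 1) * hq
  cases a <;> cases b <;> simp only [hh, rr]
  · exact e5
  · have : (v - q * u) ^ 3 * t ^ 3 = ((v - q * u) * t) ^ 3 := by ring
    rw [this, e3]
    linear_combination (gg x y) ^ 3 * e6
  · have : -(u - q * v) ^ 3 * t ^ 3 = -((u - q * v) * t) ^ 3 := by ring
    rw [this, e2]
    linear_combination -(gg y x) ^ 3 * e6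
  · exact e5

end

end EX93

end

section

namespace EX93

open Finset Polynomial Matrix

section
variable {R : Type*} [CommRing R] {L : ℕ}

noncomputable def bpol (x : Fin L → R) : R[X] := ∏ l, gg (C (x l)) X
noncomputable def cpol (x : Fin L → R) : R[X] := ∏ l, gg X (C (x l))
noncomputable def Apol (x : Fin L → R) : R[X] := ∏ l, (X - C (x l))

noncomputable def rpol (ω : R) (x : Fin L → R) (k : Fin L) : R[X] :=
  C ω * bpol x * X ^ (k : ℕ) + cpol x * (1 - X) ^ (k.rev : ℕ)

/-- the matrix with polynomial entries -/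
noncomputable def NN (ω : R) (x : Fin L → R) : Matrix (Fin L) (Fin L) R :=
  Matrix.of fun i k => (rpol ω x k %ₘ Apol x).coeff i

lemma Apol_monic (x : Fin L → R) : (Apol x).Monic :=
  monic_prod_of_monic _ _ (fun _ _ => monic_X_sub_C _)

lemma eval_rpol (ω : R) (x : Fin L → R) (j k : Fin L) :
    (rpol ω x k).eval (x j) = WW ω x j k := by
  unfold rpol bpol cpol WW
  simp only [Matrix.of_apply, ent, projVandermonde_apply, if_true, Bool.false_eq_true, if_false]
  simp only [eval_add, eval_mul, eval_C, eval_prod, eval_pow, eval_X, eval_sub, eval_one, gg]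
  simp

lemma vand_mul_NN [IsDomain R] (ω : R) (x : Fin L → R) : vandermonde x * NN ω x = WW ω x := by
  ext j k
  rw [Matrix.mul_apply, ← eval_rpol]
  have hL : 0 < L := Fin.pos j
  have hdeg : (Apol x).natDegree = L := by
    unfold Apol
    rw [natDegree_prod_of_monic _ _ (fun _ _ => monic_X_sub_C _)]
    simp
  have hne : Apol x ≠ 1 := by
    intro h
    rw [h] at hdeg
    simp at hdeg
    omega
  have h1 : (rpol ω x k %ₘ Apol x).natDegree < L := by
    have := natDegree_modByMonic_lt (rpol ω x k) (Apol_monic x) hne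
    rwa [hdeg] at this
  have h2 : (rpol ω x k %ₘ Apol x).eval (x j) = (rpol ω x k).eval (x j) := by
    have := modByMonic_add_div (rpol ω x k) (Apol x)
    conv_rhs => rw [← this]
    have hA : (Apol x).eval (x j) = 0 := by
      unfold Apol
      rw [eval_prod]
      exact Finset.prod_eq_zero (Finset.mem_univ j) (by simp)
    rw [eval_add, eval_mul, hA, zero_mul, add_zero]
  rw [← h2, eval_eq_sum_range' h1, Finset.sum_range]
  refine Finset.sum_congr rfl fun i _ => ?_
  simp only [vandermonde_apply, NN, Matrix.of_apply]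
  ring

lemma det_WW_eq [IsDomain R] (ω : R) (x : Fin L → R) :
    (WW ω x).det = VV L x * (NN ω x).det := by
  rw [← vand_mul_NN, Matrix.det_mul, Matrix.det_vandermonde]
  rfl

lemma NN_map {S : Type*} [CommRing S] (f : R →+* S) (ω : R) (x : Fin L → R) :
    (NN ω x).map f = NN (f ω) (fun i => f (x i)) := by
  ext i k
  simp only [NN, Matrix.map_apply, Matrix.of_apply]
  rw [← coeff_map, map_modByMonic _ (Apol_monic x)]
  congr 2
  · unfold rpol bpol cpol gg
    simp [Polynomial.map_prod]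
  · unfold Apol
    simp [Polynomial.map_prod]

/-- the symmetric Pascal matrix -/
def pasc (R : Type*) [CommRing R] (L : ℕ) : Matrix (Fin L) (Fin L) R :=
  Matrix.of fun i j => ((Nat.choose ((i : ℕ) + j) i : ℕ) : R)

/-- unitriangular factor -/
noncomputable def UU (R : Type*) [CommRing R] (L : ℕ) : Matrix (Fin L) (Fin L) R :=
  Matrix.of fun i j => ((1 - X : R[X]) ^ L * X ^ (j : ℕ)).coeff i

lemma det_UU : (UU R L).det = 1 := by
  have h : (UU R L).BlockTriangular OrderDual.toDual := by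
    intro i j hij
    have hij' : i < j := hij
    simp only [UU, Matrix.of_apply]
    rw [coeff_mul_X_pow', if_neg (by simpa using hij')]
  rw [Matrix.det_of_isLowerTriangular _ h]
  refine Finset.prod_eq_one fun i _ => ?_
  simp only [UU, Matrix.of_apply]
  rw [coeff_mul_X_pow', if_pos le_rfl, Nat.sub_self, coeff_zero_eq_eval_zero]
  simp

lemma pasc_series (k L : ℕ) (hk : k < L) :
    ((1 : PowerSeries R) - PowerSeries.X) ^ L *
      PowerSeries.mk (fun n => ((Nat.choose (k + n) k : ℕ) : R))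
      = ((1 : PowerSeries R) - PowerSeries.X) ^ (L - (k + 1)) := by
  rw [← PowerSeries.mk_one_pow_eq_mk_choose_add]
  have h := PowerSeries.mk_one_mul_one_sub_eq_one (S := R)
  have : L = (L - (k + 1)) + (k + 1) := by omega
  conv_lhs => rw [this, pow_add]
  rw [mul_assoc, ← mul_pow, mul_comm (1 - PowerSeries.X), h, one_pow, mul_one]

lemma NN_zero_eq [Nontrivial R] (ω : R) :
    NN ω (fun _ => 0 : Fin L → R) = UU R L * (ω • (1 : Matrix (Fin L) (Fin L) R) + pasc R L) := by
  ext i k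
  have hA : Apol (fun _ => 0 : Fin L → R) = X ^ L := by
    unfold Apol; simp
  have hb : bpol (fun _ => 0 : Fin L → R) = (1 - X) ^ L := by
    unfold bpol gg; simp
  have hc : cpol (fun _ => 0 : Fin L → R) = 1 := by
    unfold cpol gg; simp
  simp only [NN, Matrix.of_apply]
  rw [hA]
  have hmod : ∀ P : R[X], (P %ₘ X ^ L).coeff i = P.coeff i := by
    intro P
    have := modByMonic_add_div P (X ^ L : R[X])
    conv_rhs => rw [← this]
    rw [coeff_add, mul_comm, coeff_mul_X_pow', if_neg (by simp), add_zero]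
  rw [hmod]
  unfold rpol
  rw [hb, hc, one_mul, mul_assoc, coeff_add, coeff_C_mul]
  rw [Matrix.mul_add, Matrix.add_apply, Matrix.mul_smul, Matrix.mul_one, Matrix.smul_apply,
    smul_eq_mul]
  congr 1
  rw [Matrix.mul_apply]
  -- power series comparison
  have hk : (k : ℕ) < L := k.2
  have h1 := congrArg (PowerSeries.coeff (i : ℕ)) (pasc_series (R := R) k L hk)
  have h2 : PowerSeries.coeff (i : ℕ) (((1 : PowerSeries R) - PowerSeries.X) ^ (L - (k + 1)))
      = ((1 - X : R[X]) ^ (k.rev : ℕ)).coeff i := by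
    rw [Fin.val_rev]
    have : (((1 : PowerSeries R) - PowerSeries.X) ^ (L - (k + 1)))
        = (((1 - X : R[X]) ^ (L - (k + 1)) : R[X]) : PowerSeries R) := by
      simp
    rw [this, Polynomial.coeff_coe]
  rw [h2] at h1
  rw [← h1]
  have h3 : ((1 : PowerSeries R) - PowerSeries.X) ^ L = (((1 - X : R[X]) ^ L : R[X]) : PowerSeries R) := by
    simp
  rw [h3, PowerSeries.coeff_mul, Finset.Nat.sum_antidiagonal_eq_sum_range_succ_mk]
  simp only [Polynomial.coeff_coe, PowerSeries.coeff_mk, UU, pasc, Matrix.of_apply]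
  -- sum over Fin L of coeff((1-X)^L X^j) i * C(j+k, j)
  have h4 : ∀ j : Fin L, ((1 - X : R[X]) ^ L * X ^ (j : ℕ)).coeff i *
      ((Nat.choose ((j : ℕ) + k) j : ℕ) : R)
      = if (j : ℕ) ≤ i then ((1 - X : R[X]) ^ L).coeff (i - j) *
        ((Nat.choose ((j : ℕ) + k) j : ℕ) : R) else 0 := by
    intro j
    rw [coeff_mul_X_pow']
    split_ifs <;> simp
  rw [Finset.sum_congr rfl (fun j _ => h4 j)]
  rw [Fin.sum_univ_eq_sum_range (fun j => if j ≤ (i : ℕ) then ((1 - X : R[X]) ^ L).coeff (i - j) *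
        ((Nat.choose (j + k) j : ℕ) : R) else 0) L]
  rw [← Finset.sum_filter]
  have h5 : (Finset.range L).filter (fun j => j ≤ (i : ℕ)) = Finset.range ((i : ℕ) + 1) := by
    ext j
    simp only [Finset.mem_filter, Finset.mem_range]
    have := i.2
    omega
  rw [h5, ← Finset.sum_range_reflect]
  refine Finset.sum_congr rfl fun j hj => ?_
  rw [Finset.mem_range] at hj
  have e1 : (i : ℕ) + 1 - 1 - j = i - j := by omega
  have e2 : (i : ℕ) - (i - j) = j := by omega
  have e3 : Nat.choose ((j : ℕ) + k) j = Nat.choose (k + j) k := by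
    rw [Nat.choose_symm_add, Nat.add_comm]
  rw [e1, e2, e3]

lemma NN_zero [Nontrivial R] (ω : R) :
    (NN ω (fun _ => 0 : Fin L → R)).det
      = (ω • (1 : Matrix (Fin L) (Fin L) R) + pasc R L).det := by
  rw [NN_zero_eq, Matrix.det_mul, det_UU, one_mul]

end

end EX93

end

section

namespace EX93

open Finset Polynomial

variable {R : Type*} [CommRing R]

lemma natDegree_hh_le (q z : R) (a b : Bool) :
    (hh (C q) a b X (C z : R[X])).natDegree ≤ 3 := by
  cases a <;> cases b <;> simp only [hh] <;> compute_degree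

lemma coeff3_aux (a b c d : R) :
    (C a - C b * X + C c * X ^ 2 - C d * X ^ 3 : R[X]).coeff 3 = -d := by
  simp only [coeff_sub, coeff_add, coeff_C_mul, coeff_X, coeff_X_pow, coeff_C]
  norm_num

lemma coeff_hh (q : R) (hq : q ^ 3 = 1) (z : R) (a b : Bool) :
    (hh (C q) a b X (C z : R[X])).coeff 3 = -1 := by
  have h3 : (C (3 : R) : R[X]) = 3 := by exact map_ofNat C 3
  have e0 : (C z : R[X]) ^ 3 - X ^ 3 = C (z ^ 3) - C 0 * X + C 0 * X ^ 2 - C 1 * X ^ 3 := by
    simp
  cases a <;> cases b <;> simp only [hh]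
  · rw [e0, coeff3_aux]
  · have : ((C z : R[X]) - C q * X) ^ 3
        = C (z ^ 3) - C (3 * z ^ 2 * q) * X + C (3 * z * q ^ 2) * X ^ 2 - C (q ^ 3) * X ^ 3 := by
      simp only [map_pow, map_mul]
      rw [h3]; ring
    rw [this, hq, coeff3_aux]
  · have : -((X : R[X]) - C q * C z) ^ 3
        = C (q ^ 3 * z ^ 3) - C (3 * z ^ 2 * q ^ 2) * X + C (3 * z * q) * X ^ 2 - C 1 * X ^ 3 := by
      simp only [map_pow, map_mul, map_one]
      rw [h3]; ring
    rw [this, coeff3_aux]
  · rw [e0, coeff3_aux]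

lemma natDegree_prod_hh_le (q : R) {m : ℕ} (z : Fin m → R) (a : Bool) (s : Fin m → Bool) :
    (∏ j, hh (C q) a (s j) X (C (z j) : R[X])).natDegree ≤ 3 * m := by
  refine (natDegree_prod_le _ _).trans ?_
  refine (Finset.sum_le_sum (fun j _ => natDegree_hh_le q (z j) a (s j))).trans ?_
  simp [mul_comm]

lemma coeff_prod_hh (q : R) (hq : q ^ 3 = 1) {m : ℕ} (z : Fin m → R) (a : Bool)
    (s : Fin m → Bool) :
    (∏ j, hh (C q) a (s j) X (C (z j) : R[X])).coeff (3 * m) = (-1) ^ m := by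
  have := coeff_prod_of_natDegree_le (s := (Finset.univ : Finset (Fin m)))
    (fun j => hh (C q) a (s j) X (C (z j) : R[X])) 3
    (fun j _ => natDegree_hh_le q (z j) a (s j))
  simp only [Finset.card_univ, Fintype.card_fin] at this
  rw [mul_comm 3 m, this]
  simp [coeff_hh q hq]

/-- the numerator as a polynomial in its first variable -/
lemma natDegree_QQ_le (q ω : R) {m : ℕ} (z : Fin m → R) :
    (QQ (C q) (C ω) (m + 1) (Fin.cons X (fun j => C (z j)) : Fin (m + 1) → R[X])).natDegree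
      ≤ 3 * m := by
  rw [QQ_cons]
  refine natDegree_sum_le_of_forall_le _ _ (fun s _ => ?_)
  have hw : wt (C ω : R[X]) s = C (wt ω s) := by
    unfold wt; rw [map_prod]
    refine Finset.prod_congr rfl fun i _ => ?_
    split_ifs <;> simp
  have hp : pp (C q : R[X]) s (fun j => C (z j)) = C (pp q s z) := by
    unfold pp; rw [map_prod]
    refine Finset.prod_congr rfl fun i _ => ?_
    rw [map_prod]
    refine Finset.prod_congr rfl fun j _ => ?_
    cases s i <;> cases s j <;> simp [hh]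
  rw [hw, hp]
  refine (natDegree_mul_C_le _ _).trans ?_
  refine (natDegree_C_mul_le _ _).trans ?_
  refine (natDegree_add_le _ _).trans ?_
  refine max_le ?_ (natDegree_prod_hh_le q z false s)
  exact (natDegree_C_mul_le _ _).trans (natDegree_prod_hh_le q z true s)

lemma coeff_QQ (q ω : R) (hq : q ^ 3 = 1) {m : ℕ} (z : Fin m → R) :
    (QQ (C q) (C ω) (m + 1) (Fin.cons X (fun j => C (z j)) : Fin (m + 1) → R[X])).coeff (3 * m)
      = (-1) ^ m * (1 + ω) * QQ q ω m z := by
  rw [QQ_cons, finsetSum_coeff]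
  unfold QQ
  rw [Finset.mul_sum]
  refine Finset.sum_congr rfl fun s _ => ?_
  have hw : wt (C ω : R[X]) s = C (wt ω s) := by
    unfold wt; rw [map_prod]
    refine Finset.prod_congr rfl fun i _ => ?_
    split_ifs <;> simp
  have hp : pp (C q : R[X]) s (fun j => C (z j)) = C (pp q s z) := by
    unfold pp; rw [map_prod]
    refine Finset.prod_congr rfl fun i _ => ?_
    rw [map_prod]
    refine Finset.prod_congr rfl fun j _ => ?_
    cases s i <;> cases s j <;> simp [hh]
  rw [hw, hp, coeff_mul_C, coeff_C_mul, coeff_add, coeff_C_mul,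
    coeff_prod_hh q hq, coeff_prod_hh q hq]
  ring

lemma natDegree_VV_le {m : ℕ} (z : Fin m → R) :
    (VV (m + 1) (Fin.cons X (fun j => C (z j)) : Fin (m + 1) → R[X])).natDegree ≤ m := by
  rw [VV_cons]
  have hp : VV m (fun j => (C (z j) : R[X])) = C (VV m z) := by
    rw [VV_map]
  rw [hp]
  refine (natDegree_mul_C_le _ _).trans ?_
  refine (natDegree_prod_le _ _).trans ?_
  have : ∀ j ∈ (Finset.univ : Finset (Fin m)), (C (z j) - X : R[X]).natDegree ≤ 1 := by
    intro j _; compute_degree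
  refine (Finset.sum_le_sum this).trans ?_
  simp

lemma coeff_VV {m : ℕ} (z : Fin m → R) :
    (VV (m + 1) (Fin.cons X (fun j => C (z j)) : Fin (m + 1) → R[X])).coeff m
      = (-1) ^ m * VV m z := by
  rw [VV_cons]
  have hp : VV m (fun j => (C (z j) : R[X])) = C (VV m z) := by
    rw [VV_map]
  rw [hp, coeff_mul_C]
  have := coeff_prod_of_natDegree_le (s := (Finset.univ : Finset (Fin m)))
    (fun j => (C (z j) - X : R[X])) 1 (fun j _ => by compute_degree)
  simp only [Finset.card_univ, Fintype.card_fin, mul_one] at this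
  rw [this]
  congr 1
  simp

end EX93

end

section

namespace EX93

open Finset Polynomial

section
variable {q : ℂ}

lemma q3 (hq : q ^ 2 + q + 1 = 0) : q ^ 3 = 1 := by linear_combination (q - 1) * hq

lemma q_ne_zero (hq : q ^ 2 + q + 1 = 0) : q ≠ 0 := by
  rintro rfl; norm_num at hq

lemma q_ne_one (hq : q ^ 2 + q + 1 = 0) : q ≠ 1 := by
  rintro rfl; norm_num at hq

lemma q2_ne_one (hq : q ^ 2 + q + 1 = 0) : q ^ 2 ≠ 1 := by
  intro h
  have h2 : q = -2 := by linear_combination hq - h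
  rw [h2] at hq; norm_num at hq

lemma cube_factor (hq : q ^ 2 + q + 1 = 0) (a : ℂ) :
    (X ^ 3 - C (a ^ 3) : ℂ[X]) = (X - C a) * ((X - C (q * a)) * (X - C (q ^ 2 * a))) := by
  have h1 : (C q : ℂ[X]) ^ 2 + C q + 1 = 0 := by
    rw [← C_pow, ← C_add, ← C_1, ← C_add, hq, C_0]
  have h3 : (C q : ℂ[X]) ^ 3 = 1 := by linear_combination (C q - 1) * h1
  simp only [map_pow, map_mul]
  linear_combination (X - C a) * X * C a * h1 - (X - C a) * C a ^ 2 * h3

/-- factorisation of a polynomial vanishing at all cube-root multiples of given points -/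
lemma root_factor (hq : q ^ 2 + q + 1 = 0) {N : ℕ} (a : Fin N → ℂ) (ha : ∀ i, a i ≠ 0)
    (hd : ∀ i j, i ≠ j → a i ^ 3 ≠ a j ^ 3) (P : ℂ[X]) (hP : P.natDegree ≤ 3 * N)
    (h0 : ∀ i, P.eval (a i) = 0) (h1 : ∀ i, P.eval (q * a i) = 0)
    (h2 : ∀ i, P.eval (q ^ 2 * a i) = 0) :
    P = C (P.coeff (3 * N)) * ∏ i, (X ^ 3 - C (a i ^ 3)) := by
  have q3' := q3 hq
  -- each factor divides P
  have hdiv : ∀ i, (X ^ 3 - C (a i ^ 3) : ℂ[X]) ∣ P := by
    intro i
    rw [cube_factor hq]
    have n1 : a i ≠ q * a i := by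
      intro h
      apply q_ne_one hq
      have := mul_right_cancel₀ (ha i) (by rw [one_mul]; exact h : (1 : ℂ) * a i = q * a i)
      exact this.symm
    have n2 : a i ≠ q ^ 2 * a i := by
      intro h
      apply q2_ne_one hq
      have := mul_right_cancel₀ (ha i) (by rw [one_mul]; exact h : (1 : ℂ) * a i = q ^ 2 * a i)
      exact this.symm
    have n3 : q * a i ≠ q ^ 2 * a i := by
      intro h
      have := mul_right_cancel₀ (ha i) h
      apply q_ne_one hq
      have h' : q * (q - 1) = 0 := by linear_combination -this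
      rcases mul_eq_zero.mp h' with h'' | h''
      · exact absurd h'' (q_ne_zero hq)
      · linear_combination h''
    have c23 : IsCoprime (X - C (q * a i) : ℂ[X]) (X - C (q ^ 2 * a i)) :=
      isCoprime_X_sub_C_of_isUnit_sub (sub_ne_zero.mpr n3).isUnit
    have c12 : IsCoprime (X - C (a i) : ℂ[X]) (X - C (q * a i)) :=
      isCoprime_X_sub_C_of_isUnit_sub (sub_ne_zero.mpr n1).isUnit
    have c13 : IsCoprime (X - C (a i) : ℂ[X]) (X - C (q ^ 2 * a i)) :=
      isCoprime_X_sub_C_of_isUnit_sub (sub_ne_zero.mpr n2).isUnit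
    refine IsCoprime.mul_dvd (c12.mul_right c13) (dvd_iff_isRoot.mpr (h0 i)) ?_
    exact IsCoprime.mul_dvd c23 (dvd_iff_isRoot.mpr (h1 i)) (dvd_iff_isRoot.mpr (h2 i))
  have hcop : Pairwise (Function.onFun IsCoprime fun i => (X ^ 3 - C (a i ^ 3) : ℂ[X])) := by
    intro i j hij
    simp only [Function.onFun]
    have hne : a i ^ 3 - a j ^ 3 ≠ 0 := sub_ne_zero.mpr (hd i j hij)
    refine ⟨-C ((a i ^ 3 - a j ^ 3)⁻¹), C ((a i ^ 3 - a j ^ 3)⁻¹), ?_⟩
    have : -C ((a i ^ 3 - a j ^ 3)⁻¹) * (X ^ 3 - C (a i ^ 3)) +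
        C ((a i ^ 3 - a j ^ 3)⁻¹) * (X ^ 3 - C (a j ^ 3))
        = C ((a i ^ 3 - a j ^ 3)⁻¹ * (a i ^ 3 - a j ^ 3)) := by
      rw [C_mul, C_sub]; ring
    rw [this, inv_mul_cancel₀ hne, C_1]
  obtain ⟨r, hr⟩ := Fintype.prod_dvd_of_coprime hcop hdiv
  have hmon : (∏ i, (X ^ 3 - C (a i ^ 3) : ℂ[X])).Monic :=
    monic_prod_of_monic _ _ (fun i _ => monic_X_pow_sub_C _ (by norm_num))
  have hdeg : (∏ i, (X ^ 3 - C (a i ^ 3) : ℂ[X])).natDegree = 3 * N := by
    rw [natDegree_prod_of_monic _ _ (fun i _ => monic_X_pow_sub_C _ (by norm_num))]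
    simp only [natDegree_X_pow_sub_C]
    simp [mul_comm]
  have hr0 : r.natDegree = 0 := by
    by_cases hr' : r = 0
    · rw [hr']; simp
    have h := hmon.natDegree_mul' hr'
    rw [← hr, hdeg] at h
    omega
  obtain ⟨c, rfl⟩ : ∃ c, r = C c := ⟨r.coeff 0, eq_C_of_natDegree_eq_zero hr0⟩
  have hc : P.coeff (3 * N) = c := by
    rw [hr, coeff_mul_C, ← hdeg]
    rw [hmon.coeff_natDegree, one_mul]
  rw [hc, mul_comm]
  exact hr

end

section
variable {m : ℕ}

/-- a permutation sending `0, 1` to `i, j` -/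
lemma exists_perm (i j : Fin (m + 2)) (h : i ≠ j) :
    ∃ σ : Equiv.Perm (Fin (m + 2)), σ 0 = i ∧ σ 1 = j := by
  refine ⟨Equiv.swap 0 i * Equiv.swap 1 (Equiv.swap 0 i j), ?_, ?_⟩
  · have h1 : Equiv.swap 1 (Equiv.swap 0 i j) 0 = 0 := by
      apply Equiv.swap_apply_of_ne_of_ne
      · simp
      · intro h'
        apply h
        have := congrArg (Equiv.swap 0 i) h'
        rw [Equiv.swap_apply_self, Equiv.swap_apply_left] at this
        exact this
    rw [Equiv.Perm.mul_apply, h1, Equiv.swap_apply_left]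
  · rw [Equiv.Perm.mul_apply, Equiv.swap_apply_left, Equiv.swap_apply_self]

lemma cons_cons_of (Z : Fin (m + 2) → ℂ) :
    Z = (Fin.cons (Z 0) (Fin.cons (Z 1) (fun j : Fin m => Z j.succ.succ) : Fin (m + 1) → ℂ)
      : Fin (m + 2) → ℂ) := by
  funext i
  refine Fin.cases ?_ (fun i => ?_) i
  · simp
  · refine Fin.cases ?_ (fun i => ?_) i
    · simp
    · simp

/-- An antisymmetric function vanishing on the wheel locus vanishes on all its images. -/
lemma anti_zero (q : ℂ) (hq : q ^ 2 + q + 1 = 0) (F : (Fin (m + 2) → ℂ) → ℂ)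
    (hanti : ∀ Z (σ : Equiv.Perm (Fin (m + 2))), F (Z ∘ σ) = (Equiv.Perm.sign σ : ℤ) * F Z)
    (hwheel : ∀ (w : ℂ) (z : Fin m → ℂ),
      F (Fin.cons (q ^ 2 * w) (Fin.cons w z : Fin (m + 1) → ℂ)) = 0)
    (Z : Fin (m + 2) → ℂ) (i j : Fin (m + 2)) (hij : i ≠ j)
    (h : Z i = Z j ∨ Z i = q * Z j ∨ Z i = q ^ 2 * Z j) : F Z = 0 := by
  have key : ∀ i j : Fin (m + 2), i ≠ j → Z i = q ^ 2 * Z j → F Z = 0 := by
    intro i j hij h
    obtain ⟨σ, h0, h1⟩ := exists_perm i j hij
    have h2 := hanti Z σ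
    have h3 : F (Z ∘ σ) = 0 := by
      rw [cons_cons_of (Z ∘ σ)]
      have e0 : (Z ∘ σ) 0 = q ^ 2 * (Z ∘ σ) 1 := by
        simp only [Function.comp_apply, h0, h1, h]
      rw [e0]
      exact hwheel _ _
    rw [h3] at h2
    rcases Int.units_eq_one_or (Equiv.Perm.sign σ) with hs | hs
    · rw [hs] at h2; simpa using h2.symm
    · rw [hs] at h2; simpa using h2.symm
  rcases h with h | h | h
  · have h2 := hanti Z (Equiv.swap i j)
    have h3 : Z ∘ (Equiv.swap i j) = Z := by
      funext k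
      simp only [Function.comp_apply]
      by_cases hk : k = i
      · subst hk; rw [Equiv.swap_apply_left, h]
      by_cases hk' : k = j
      · subst hk'; rw [Equiv.swap_apply_right, h]
      rw [Equiv.swap_apply_of_ne_of_ne hk hk']
    rw [h3, Equiv.Perm.sign_swap hij] at h2
    have : F Z = - F Z := by simpa using h2
    linear_combination (1 / 2 : ℂ) * this
  · apply key j i hij.symm
    rw [h]; linear_combination (-(Z j)) * q3 hq
  · exact key i j hij h

end

end EX93

end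

section

namespace EX93

open Finset Polynomial

section
variable {m : ℕ}

/-- the vector `(x, y, z)` in the bivariate polynomial ring (outer variable `x`) -/
noncomputable def wz (z : Fin m → ℂ) : Fin (m + 1) → ℂ[X] := Fin.cons X (fun j => C (z j))

noncomputable def ZZ (z : Fin m → ℂ) : Fin (m + 2) → ℂ[X][X] :=
  Fin.cons X (fun j => C (wz z j))

lemma map_wz (z : Fin m → ℂ) (b : ℂ) (j : Fin (m + 1)) :
    (wz z j).eval b = (Fin.cons b z : Fin (m + 1) → ℂ) j := by
  unfold wz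
  refine Fin.cases ?_ (fun i => ?_) j
  · simp
  · simp

lemma ev_ZZ (z : Fin m → ℂ) (a b : ℂ) (j : Fin (m + 2)) :
    ((ZZ z j).eval (C a)).eval b
      = (Fin.cons a (Fin.cons b z : Fin (m + 1) → ℂ) : Fin (m + 2) → ℂ) j := by
  unfold ZZ
  refine Fin.cases ?_ (fun i => ?_) j
  · simp
  · simp only [Fin.cons_succ, eval_C]
    exact map_wz z b i

/-- evaluation as a ring homomorphism -/
noncomputable def ev2 (a b : ℂ) : ℂ[X][X] →+* ℂ :=
  (evalRingHom b).comp (evalRingHom (C a))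

lemma ev2_apply (a b : ℂ) (p : ℂ[X][X]) : ev2 a b p = (p.eval (C a)).eval b := rfl

lemma ev2_eq_map (a b : ℂ) (p : ℂ[X][X]) : ev2 a b p = (p.map (evalRingHom b)).eval a := by
  rw [ev2_apply, eval_map]
  change (evalRingHom b) (eval₂ (RingHom.id _) (C a) p) = _
  rw [hom_eval₂]
  simp

theorem step (q ω A B : ℂ) (hq : q ^ 2 + q + 1 = 0)
    (G' : (Fin (m + 2) → ℂ) → ℂ)
    (hsym : ∀ Z (σ : Equiv.Perm (Fin (m + 2))), G' (Z ∘ σ) = G' Z)
    (hwheel : ∀ (w : ℂ) (z : Fin m → ℂ),
      A * G' (Fin.cons (q ^ 2 * w) (Fin.cons w z : Fin (m + 1) → ℂ)) *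
        VV (m + 2) (Fin.cons (q ^ 2 * w) (Fin.cons w z : Fin (m + 1) → ℂ)) =
      B * QQ q ω (m + 2) (Fin.cons (q ^ 2 * w) (Fin.cons w z : Fin (m + 1) → ℂ)))
    (z : Fin m → ℂ) (hz : ∀ i, z i ≠ 0) (hz' : ∀ i j, i ≠ j → z i ^ 3 ≠ z j ^ 3)
    (p : ℂ[X][X]) (hp1 : p.natDegree ≤ 2 * (m + 1))
    (hp2 : (p.coeff (2 * (m + 1))).natDegree ≤ 2 * m)
    (hp3 : A * (p.coeff (2 * (m + 1))).coeff (2 * m) * VV m z
      = B * (1 + ω) ^ 2 * QQ q ω m z)
    (hp4 : ∀ x y, (p.eval (C x)).eval y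
      = G' (Fin.cons x (Fin.cons y z : Fin (m + 1) → ℂ)))
    (x y : ℂ) :
    A * G' (Fin.cons x (Fin.cons y z : Fin (m + 1) → ℂ)) *
        VV (m + 2) (Fin.cons x (Fin.cons y z : Fin (m + 1) → ℂ)) =
      B * QQ q ω (m + 2) (Fin.cons x (Fin.cons y z : Fin (m + 1) → ℂ)) := by
  have q3' := q3 hq
  set F : (Fin (m + 2) → ℂ) → ℂ := fun Z => A * G' Z * VV (m + 2) Z - B * QQ q ω (m + 2) Z
    with hF
  have hanti : ∀ Z (σ : Equiv.Perm (Fin (m + 2))),
      F (Z ∘ σ) = (Equiv.Perm.sign σ : ℤ) * F Z := by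
    intro Z σ
    simp only [hF]
    rw [hsym, VV_perm, QQ_perm]
    ring
  have hw : ∀ (w : ℂ) (z : Fin m → ℂ),
      F (Fin.cons (q ^ 2 * w) (Fin.cons w z : Fin (m + 1) → ℂ)) = 0 := by
    intro w z
    simp only [hF]
    rw [hwheel, sub_self]
  have hzero := anti_zero q hq F hanti hw
  -- the bivariate polynomial
  set V2 : ℂ[X][X] := VV (m + 2) (ZZ z) with hV2
  set Q2 : ℂ[X][X] := QQ (C (C q)) (C (C ω)) (m + 2) (ZZ z) with hQ2
  set E2 : ℂ[X][X] := C (C A) * p * V2 - C (C B) * Q2 with hE2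
  have hV2d : V2.natDegree ≤ m + 1 := natDegree_VV_le (wz z)
  have hQ2d : Q2.natDegree ≤ 3 * (m + 1) := natDegree_QQ_le (C q) (C ω) (wz z)
  have hCA : (C (C A) * p).natDegree ≤ 2 * (m + 1) := (natDegree_C_mul_le _ _).trans hp1
  have hE2d : E2.natDegree ≤ 3 * (m + 1) := by
    refine (natDegree_sub_le _ _).trans (max_le ?_ ?_)
    · refine natDegree_mul_le.trans ?_
      omega
    · exact (natDegree_C_mul_le _ _).trans hQ2d
  have hev : ∀ a b, ev2 a b E2 = F (Fin.cons a (Fin.cons b z : Fin (m + 1) → ℂ)) := by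
    intro a b
    rw [hE2, map_sub, map_mul, map_mul, map_mul, hV2, hQ2, VV_map, QQ_map]
    have e1 : (fun i => ev2 a b (ZZ z i))
        = (Fin.cons a (Fin.cons b z : Fin (m + 1) → ℂ) : Fin (m + 2) → ℂ) := by
      funext i; exact ev_ZZ z a b i
    have e2 : ∀ c : ℂ, ev2 a b (C (C c)) = c := by intro c; simp [ev2_apply]
    rw [e1, e2, e2, e2, e2, ev2_apply, hp4]
  set l : ℂ[X] := E2.coeff (3 * (m + 1)) with hl
  -- Step A
  have hA : ∀ b : ℂ, b ≠ 0 → (∀ j, b ^ 3 ≠ z j ^ 3) → ∀ a,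
      ev2 a b E2 = l.eval b * ((a ^ 3 - b ^ 3) * ∏ j, (a ^ 3 - z j ^ 3)) := by
    intro b hb hbz a
    set Zb : Fin (m + 1) → ℂ := Fin.cons b z with hZb
    have h0 : ∀ i, Zb i ≠ 0 := by
      intro i; refine Fin.cases ?_ (fun i => ?_) i
      · simpa [hZb] using hb
      · simpa [hZb] using hz i
    have h1 : ∀ i j, i ≠ j → Zb i ^ 3 ≠ Zb j ^ 3 := by
      intro i j
      refine Fin.cases ?_ (fun i => ?_) i
      · refine Fin.cases ?_ (fun j => ?_) j
        · intro h; exact absurd rfl h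
        · intro _; simpa [hZb] using hbz j
      · refine Fin.cases ?_ (fun j => ?_) j
        · intro _; simpa [hZb] using (hbz i).symm
        · intro h; simpa [hZb] using hz' i j (fun h' => h (by rw [h']))
    set P := E2.map (evalRingHom b) with hP
    have hPd : P.natDegree ≤ 3 * (m + 1) := natDegree_map_le.trans hE2d
    have hroot : ∀ (i : Fin (m + 1)) (ζ : ℂ), (ζ = 1 ∨ ζ = q ∨ ζ = q ^ 2) →
        P.eval (ζ * Zb i) = 0 := by
      intro i ζ hζ
      rw [hP, ← ev2_eq_map, hev]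
      refine hzero _ 0 i.succ (by exact (Fin.succ_ne_zero i).symm) ?_
      simp only [Fin.cons_zero, Fin.cons_succ]
      rcases hζ with h | h | h
      · left; rw [h, one_mul]
      · right; left; rw [h]
      · right; right; rw [h]
    have := root_factor hq Zb h0 h1 P hPd
      (fun i => by simpa using hroot i 1 (Or.inl rfl))
      (fun i => hroot i q (Or.inr (Or.inl rfl)))
      (fun i => hroot i (q ^ 2) (Or.inr (Or.inr rfl)))
    rw [ev2_eq_map, ← hP, this, eval_mul, eval_C, hP, coeff_map]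
    rw [eval_prod, Fin.prod_univ_succ]
    simp [hZb, hl]
  -- generic values are cofinite
  have hinf : ∀ (T : Finset ℂ), ∃ b : ℂ, b ∉ T := fun T => Infinite.exists_notMem_finset T
  set bad : Set ℂ := {b | b = 0} ∪ ⋃ j, {b | b ^ 3 = z j ^ 3} with hbad
  have hbadfin : bad.Finite := by
    refine Set.Finite.union (by simp) (Set.finite_iUnion (fun j => ?_))
    have : {b : ℂ | b ^ 3 = z j ^ 3} ⊆ ↑((X ^ 3 - C (z j ^ 3) : ℂ[X]).roots.toFinset) := by
      intro b hb
      have hne : (X ^ 3 - C (z j ^ 3) : ℂ[X]) ≠ 0 :=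
        (monic_X_pow_sub_C _ (by norm_num)).ne_zero
      have hb' : b ^ 3 = z j ^ 3 := hb
      simp only [Finset.mem_coe, Multiset.mem_toFinset]
      rw [mem_roots hne, IsRoot, eval_sub, eval_pow, eval_X, eval_C, hb', sub_self]
    exact (Finset.finite_toSet _).subset this
  -- Step B
  have hB : ∀ a : ℂ, E2.eval (C a)
      = l * ((C (a ^ 3) - X ^ 3) * C (∏ j, (a ^ 3 - z j ^ 3))) := by
    intro a
    apply eq_of_infinite_eval_eq
    refine Set.Infinite.mono ?_ (hbadfin.infinite_compl)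
    intro b hb
    have hb1 : b ≠ 0 := fun h => hb (Or.inl h)
    have hb2 : ∀ j, b ^ 3 ≠ z j ^ 3 := fun j h => hb (Or.inr (Set.mem_iUnion.mpr ⟨j, h⟩))
    have := hA b hb1 hb2 a
    rw [ev2_apply] at this
    change eval b (eval (C a) E2) = _
    rw [this, eval_mul, eval_mul, eval_C, eval_sub, eval_C, eval_pow, eval_X]
  -- degree in the inner variable
  have hBd : ∀ a : ℂ, (E2.eval (C a)).natDegree ≤ 3 * (m + 1) := by
    intro a
    have : E2.eval (C a) = - E2.map (evalRingHom a) := by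
      apply Polynomial.funext
      intro b
      rw [eval_neg, ← ev2_eq_map, ← ev2_apply, hev, hev]
      have := hanti (Fin.cons b (Fin.cons a z : Fin (m + 1) → ℂ)) (Equiv.swap 0 1)
      rw [Equiv.Perm.sign_swap (by simp)] at this
      have h2 : (Fin.cons b (Fin.cons a z : Fin (m + 1) → ℂ) : Fin (m + 2) → ℂ) ∘
          (Equiv.swap 0 1) = (Fin.cons a (Fin.cons b z : Fin (m + 1) → ℂ)) := by
        funext i
        refine Fin.cases ?_ (fun i => ?_) i
        · simp only [Function.comp_apply, Equiv.swap_apply_left, Fin.cons_zero]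
          rfl
        · refine Fin.cases ?_ (fun i => ?_) i
          · have : (Fin.succ 0 : Fin (m + 2)) = 1 := rfl
            simp only [Function.comp_apply, this, Equiv.swap_apply_right, Fin.cons_zero]
            rfl
          · have h3 : (Equiv.swap (0 : Fin (m + 2)) 1) i.succ.succ = i.succ.succ := by
              apply Equiv.swap_apply_of_ne_of_ne
              · exact Fin.succ_ne_zero _
              · intro h
                have : (1 : Fin (m + 2)) = Fin.succ 0 := rfl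
                rw [this] at h
                exact Fin.succ_ne_zero _ (Fin.succ_injective _ h)
            simp [Function.comp_apply, h3]
      rw [h2] at this
      rw [this]; simp
    rw [this, natDegree_neg]
    exact natDegree_map_le.trans hE2d
  -- choose a generic a
  obtain ⟨a0, ha0⟩ : ∃ a0 : ℂ, a0 ∉ bad := by
    obtain ⟨a0, h⟩ := hbadfin.infinite_compl.nonempty
    exact ⟨a0, h⟩
  have ha1 : ∀ j, a0 ^ 3 - z j ^ 3 ≠ 0 :=
    fun j h => ha0 (Or.inr (Set.mem_iUnion.mpr ⟨j, sub_eq_zero.mp h⟩))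
  have hc : (∏ j, (a0 ^ 3 - z j ^ 3)) ≠ 0 := Finset.prod_ne_zero_iff.mpr (fun j _ => ha1 j)
  have hld : l.natDegree ≤ 3 * m := by
    by_cases hl0 : l = 0
    · rw [hl0]; simp
    have h1 := hBd a0
    rw [hB a0] at h1
    have hX : (C (a0 ^ 3) - X ^ 3 : ℂ[X]).natDegree = 3 := by
      have : (C (a0 ^ 3) - X ^ 3 : ℂ[X]) = -(X ^ 3 - C (a0 ^ 3)) := by ring
      rw [this, natDegree_neg, natDegree_X_pow_sub_C]
    have hXne : (C (a0 ^ 3) - X ^ 3 : ℂ[X]) ≠ 0 := by
      intro h; rw [h] at hX; simp at hX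
    rw [natDegree_mul hl0 (mul_ne_zero hXne (C_ne_zero.mpr hc)),
      natDegree_mul hXne (C_ne_zero.mpr hc), hX, natDegree_C] at h1
    omega
  have hlroot : ∀ (i : Fin m) (ζ : ℂ), (ζ = 1 ∨ ζ = q ∨ ζ = q ^ 2) →
      l.eval (ζ * z i) = 0 := by
    intro i ζ hζ
    have h1 : ev2 a0 (ζ * z i) E2 = 0 := by
      rw [hev]
      refine hzero _ 1 i.succ.succ ?_ ?_
      · intro h
        have : (1 : Fin (m + 2)) = Fin.succ 0 := rfl
        rw [this] at h
        exact Fin.succ_ne_zero _ (Fin.succ_injective _ h).symm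
      · have : (1 : Fin (m + 2)) = Fin.succ 0 := rfl
        rw [this]
        simp only [Fin.cons_zero, Fin.cons_succ]
        rcases hζ with h | h | h
        · left; rw [h, one_mul]
        · right; left; rw [h]
        · right; right; rw [h]
    rw [ev2_apply, hB a0, eval_mul, eval_mul, eval_C, eval_sub, eval_C, eval_pow, eval_X] at h1
    have hζ3 : (ζ * z i) ^ 3 = z i ^ 3 := by
      rcases hζ with h | h | h
      · rw [h]; ring
      · rw [h, mul_pow, q3']; ring
      · rw [h, mul_pow, ← pow_mul, mul_comm 2 3, pow_mul, q3']; ring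
    rw [hζ3] at h1
    rcases mul_eq_zero.mp h1 with h | h
    · exact h
    · exact absurd h (mul_ne_zero (ha1 i) hc)
  have hlf := root_factor hq z hz hz' l hld
      (fun i => by simpa using hlroot i 1 (Or.inl rfl))
      (fun i => hlroot i q (Or.inr (Or.inl rfl)))
      (fun i => hlroot i (q ^ 2) (Or.inr (Or.inr rfl)))
  -- the leading coefficient
  have hl1 : l = (-1) ^ (m + 1) * (C A * p.coeff (2 * (m + 1)) * VV (m + 1) (wz z)
      - C B * (1 + C ω) * QQ (C q) (C ω) (m + 1) (wz z)) := by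
    rw [hl, hE2, coeff_sub]
    have e1 : (C (C A) * p * V2).coeff (3 * (m + 1))
        = (C (C A) * p).coeff (2 * (m + 1)) * V2.coeff (m + 1) := by
      have : 3 * (m + 1) = 2 * (m + 1) + (m + 1) := by ring
      rw [this]
      exact coeff_mul_add_eq_of_natDegree_le hCA hV2d
    have e2 : V2.coeff (m + 1) = (-1) ^ (m + 1) * VV (m + 1) (wz z) := coeff_VV (wz z)
    have e3 : Q2.coeff (3 * (m + 1))
        = (-1) ^ (m + 1) * (1 + C ω) * QQ (C q) (C ω) (m + 1) (wz z) := by
      have hq3 : (C q : ℂ[X]) ^ 3 = 1 := by rw [← C_pow, q3', C_1]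
      exact coeff_QQ (C q) (C ω) hq3 (wz z)
    rw [e1, e2, coeff_C_mul, coeff_C_mul, e3]
    ring
  have hl2 : l.coeff (3 * m) = 0 := by
    have f1 : (p.coeff (2 * (m + 1)) * VV (m + 1) (wz z)).coeff (3 * m)
        = (p.coeff (2 * (m + 1))).coeff (2 * m) * ((-1) ^ m * VV m z) := by
      have : 3 * m = 2 * m + m := by ring
      have h5 : (VV (m + 1) (wz z)).natDegree ≤ m := natDegree_VV_le z
      have h6 : (VV (m + 1) (wz z)).coeff m = (-1) ^ m * VV m z := coeff_VV z
      rw [this, coeff_mul_add_eq_of_natDegree_le hp2 h5, h6]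
    have f2 : (QQ (C q) (C ω) (m + 1) (wz z)).coeff (3 * m)
        = (-1) ^ m * (1 + ω) * QQ q ω m z := coeff_QQ q ω q3' z
    have f3 : (C A * p.coeff (2 * (m + 1)) * VV (m + 1) (wz z)
      - C B * (1 + C ω) * QQ (C q) (C ω) (m + 1) (wz z)).coeff (3 * m) = 0 := by
      have : C B * (1 + C ω) * QQ (C q) (C ω) (m + 1) (wz z)
          = C (B * (1 + ω)) * QQ (C q) (C ω) (m + 1) (wz z) := by
        rw [C_mul, C_add, C_1]
      rw [this, mul_assoc (C A), coeff_sub, coeff_C_mul, coeff_C_mul, f1, f2]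
      linear_combination (-1) ^ m * hp3
    rw [hl1]
    rcases Nat.even_or_odd (m + 1) with he | ho
    · rw [he.neg_one_pow, one_mul]; exact f3
    · rw [ho.neg_one_pow, neg_one_mul, coeff_neg, f3, neg_zero]
  have hl3 : l = 0 := by rw [hlf, hl2]; simp
  have hfin : ev2 x y E2 = 0 := by
    rw [ev2_apply, hB x, hl3]; simp
  rw [hev] at hfin
  simp only [hF] at hfin
  exact sub_eq_zero.mp hfin

end

end EX93

end

section

namespace EX93

open Finset Polynomial

/-- **Uniqueness theorem**: a family of symmetric polynomials with the wheel recursion and the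
prescribed top coefficient is the explicit symmetric function `QQ / VV`. -/
theorem main_identity (q ω κ τ : ℂ) (hq : q ^ 2 + q + 1 = 0)
    (hτ : ω * (τ + 2) = (1 + ω) ^ 2)
    (G : (n : ℕ) → MvPolynomial (Fin (2 * n)) ℂ)
    (h0 : ∀ z, MvPolynomial.eval z (G 0) = 1)
    (hsym : ∀ n (σ : Equiv.Perm (Fin (2 * n))) (z : Fin (2 * n) → ℂ),
      MvPolynomial.eval (z ∘ σ) (G n) = MvPolynomial.eval z (G n))
    (hwheel : ∀ n (w : ℂ) (z : Fin (2 * n) → ℂ),
      MvPolynomial.eval (Fin.cons (q ^ 2 * w) (Fin.cons w z : Fin (2 * n + 1) → ℂ)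
        : Fin (2 * n + 2) → ℂ) (G (n + 1))
      = 3 * κ * q ^ 2 * w ^ 2 * (∏ j, (z j - q * w) ^ 4) * MvPolynomial.eval z (G n))
    (htop : ∀ n (z : Fin (2 * n) → ℂ), ∃ p : ℂ[X][X],
      p.natDegree ≤ 2 * (2 * n + 1) ∧ (p.coeff (2 * (2 * n + 1))).natDegree ≤ 2 * (2 * n) ∧
      (p.coeff (2 * (2 * n + 1))).coeff (2 * (2 * n)) = κ * (τ + 2) * MvPolynomial.eval z (G n) ∧
      ∀ x y : ℂ, (p.eval (C x)).eval y = MvPolynomial.eval
        (Fin.cons x (Fin.cons y z : Fin (2 * n + 1) → ℂ) : Fin (2 * n + 2) → ℂ) (G (n + 1))) :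
    ∀ n (z : Fin (2 * n) → ℂ),
      ω ^ n * MvPolynomial.eval z (G n) * VV (2 * n) z = κ ^ n * QQ q ω (2 * n) z := by
  intro n
  induction n with
  | zero =>
    intro z
    rw [h0]
    have e1 : VV (2 * 0) z = 1 := by simp [VV]
    have e2 : QQ q ω (2 * 0) z = 1 := by simp [QQ, wt, pp]
    rw [e1, e2]; simp
  | succ n ih =>
    have q3' := q3 hq
    -- wheel
    have hw : ∀ (w : ℂ) (z : Fin (2 * n) → ℂ),
        ω ^ (n + 1) * MvPolynomial.eval (Fin.cons (q ^ 2 * w)
          (Fin.cons w z : Fin (2 * n + 1) → ℂ) : Fin (2 * n + 2) → ℂ) (G (n + 1)) *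
        VV (2 * n + 2) (Fin.cons (q ^ 2 * w) (Fin.cons w z : Fin (2 * n + 1) → ℂ)) =
        κ ^ (n + 1) * QQ q ω (2 * n + 2)
          (Fin.cons (q ^ 2 * w) (Fin.cons w z : Fin (2 * n + 1) → ℂ)) := by
      intro w z
      rw [hwheel, VV_wheel, QQ_wheel q ω hq]
      have hprod : (∏ j, ((z j - w) * (z j - q ^ 2 * w) * (z j - q * w) ^ 4))
          = (∏ j, (z j - q * w) ^ 4) * ∏ j, ((z j - w) * (z j - q ^ 2 * w)) := by
        rw [← Finset.prod_mul_distrib]
        exact Finset.prod_congr rfl (fun j _ => by ring)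
      rw [hprod]
      have hi := ih z
      have hc : 3 * q ^ 2 * (1 - q ^ 2) = -(q ^ 2 - q) ^ 3 := by
        linear_combination (q ^ 3 - 3 * q ^ 2) * q3'
      have : ω ^ (n + 1) * (3 * κ * q ^ 2 * w ^ 2 * (∏ j, (z j - q * w) ^ 4)
            * MvPolynomial.eval z (G n)) *
          ((1 - q ^ 2) * w * (∏ j, ((z j - w) * (z j - q ^ 2 * w))) * VV (2 * n) z)
          = (3 * q ^ 2 * (1 - q ^ 2)) * κ * ω * w ^ 3 * (∏ j, (z j - q * w) ^ 4) *
            (∏ j, ((z j - w) * (z j - q ^ 2 * w))) *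
            (ω ^ n * MvPolynomial.eval z (G n) * VV (2 * n) z) := by ring
      rw [this, hi, hc]
      ring
    -- generic points
    have hgen : ∀ (z : Fin (2 * n) → ℂ), (∀ i, z i ≠ 0) → (∀ i j, i ≠ j → z i ^ 3 ≠ z j ^ 3) →
        ∀ x y : ℂ, ω ^ (n + 1) * MvPolynomial.eval (Fin.cons x
          (Fin.cons y z : Fin (2 * n + 1) → ℂ) : Fin (2 * n + 2) → ℂ) (G (n + 1)) *
        VV (2 * n + 2) (Fin.cons x (Fin.cons y z : Fin (2 * n + 1) → ℂ)) =
        κ ^ (n + 1) * QQ q ω (2 * n + 2)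
          (Fin.cons x (Fin.cons y z : Fin (2 * n + 1) → ℂ)) := by
      intro z hz hz' x y
      obtain ⟨p, hp1, hp2, hp3, hp4⟩ := htop n z
      refine step (m := 2 * n) q ω (ω ^ (n + 1)) (κ ^ (n + 1)) hq
        (fun Z => MvPolynomial.eval Z (G (n + 1))) (fun Z σ => hsym (n + 1) σ Z) hw z hz hz' p hp1
        hp2 ?_ hp4 x y
      have hi := ih z
      rw [hp3]
      linear_combination (κ * ω * (τ + 2)) * hi + κ ^ (n + 1) * QQ q ω (2 * n) z * hτ
    -- density
    set D : MvPolynomial (Fin (2 * n + 2)) ℂ :=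
      (∏ i : Fin (2 * n), MvPolynomial.X i.succ.succ) *
      ∏ i : Fin (2 * n), ∏ j : Fin (2 * n), (if i = j then 1 else
        (MvPolynomial.X i.succ.succ ^ 3 - MvPolynomial.X j.succ.succ ^ 3)) with hD
    have hDev : ∀ Z : Fin (2 * n + 2) → ℂ, MvPolynomial.eval Z D =
        (∏ i : Fin (2 * n), Z i.succ.succ) *
        ∏ i : Fin (2 * n), ∏ j : Fin (2 * n), (if i = j then 1 else
          (Z i.succ.succ ^ 3 - Z j.succ.succ ^ 3)) := by
      intro Z
      rw [hD, map_mul, map_prod, map_prod]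
      congr 1
      · simp
      · refine Finset.prod_congr rfl fun i _ => ?_
        rw [map_prod]
        refine Finset.prod_congr rfl fun j _ => ?_
        split_ifs <;> simp
    have hD0 : D ≠ 0 := by
      intro h
      have h1 := hDev (fun i => (i : ℕ))
      rw [h, map_zero] at h1
      have h2 : (∏ i : Fin (2 * n), (((i.succ.succ : Fin (2 * n + 2)) : ℕ) : ℂ)) *
        ∏ i : Fin (2 * n), ∏ j : Fin (2 * n), (if i = j then 1 else
          ((((i.succ.succ : Fin (2 * n + 2)) : ℕ) : ℂ) ^ 3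
            - (((j.succ.succ : Fin (2 * n + 2)) : ℕ) : ℂ) ^ 3)) ≠ 0 := by
        refine mul_ne_zero ?_ ?_
        · refine Finset.prod_ne_zero_iff.mpr (fun i _ => ?_)
          simp only [Fin.val_succ]
          exact Nat.cast_ne_zero.mpr (Nat.succ_ne_zero (i.val + 1))
        · refine Finset.prod_ne_zero_iff.mpr (fun i _ => Finset.prod_ne_zero_iff.mpr
            (fun j _ => ?_))
          split_ifs with hij
          · exact one_ne_zero
          · rw [sub_ne_zero]
            intro h3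
            apply hij
            have h4 : ((i.succ.succ : Fin (2 * n + 2)) : ℕ) ^ 3
                = ((j.succ.succ : Fin (2 * n + 2)) : ℕ) ^ 3 := by exact_mod_cast h3
            have h5 := Nat.pow_left_injective (n := 3) (by norm_num) h4
            simp only [Fin.val_succ] at h5
            exact Fin.ext (by omega)
      exact h2 h1.symm
    set EE : MvPolynomial (Fin (2 * n + 2)) ℂ :=
      MvPolynomial.C (ω ^ (n + 1)) * G (n + 1) * VV (2 * n + 2) MvPolynomial.X
      - MvPolynomial.C (κ ^ (n + 1)) * QQ (MvPolynomial.C q) (MvPolynomial.C ω) (2 * n + 2)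
        MvPolynomial.X with hEE
    have hEEev : ∀ Z : Fin (2 * n + 2) → ℂ, MvPolynomial.eval Z EE
        = ω ^ (n + 1) * MvPolynomial.eval Z (G (n + 1)) * VV (2 * n + 2) Z
          - κ ^ (n + 1) * QQ q ω (2 * n + 2) Z := by
      intro Z
      rw [hEE, map_sub, map_mul, map_mul, map_mul, VV_map, QQ_map]
      simp
    have hprod0 : EE * D = 0 := by
      apply MvPolynomial.funext
      intro Z
      rw [map_mul, map_zero]
      by_cases hDZ : MvPolynomial.eval Z D = 0
      · rw [hDZ, mul_zero]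
      · have hDZ' := hDZ
        rw [hDev] at hDZ'
        have h1 := left_ne_zero_of_mul hDZ'
        have h2 := right_ne_zero_of_mul hDZ'
        have h3 : ∀ i : Fin (2 * n), Z i.succ.succ ≠ 0 := fun i =>
          Finset.prod_ne_zero_iff.mp h1 i (Finset.mem_univ _)
        have h4 : ∀ i j : Fin (2 * n), i ≠ j → Z i.succ.succ ^ 3 ≠ Z j.succ.succ ^ 3 := by
          intro i j hij
          have := Finset.prod_ne_zero_iff.mp (Finset.prod_ne_zero_iff.mp h2 i
            (Finset.mem_univ _)) j (Finset.mem_univ _)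
          rw [if_neg hij] at this
          exact sub_ne_zero.mp this
        have h5 := hgen (fun j => Z j.succ.succ) h3 h4 (Z 0) (Z 1)
        rw [← cons_cons_of Z] at h5
        rw [hEEev, h5, sub_self, zero_mul]
    have hEE0 : EE = 0 := by
      rcases mul_eq_zero.mp hprod0 with h | h
      · exact h
      · exact absurd h hD0
    intro z
    have := hEEev z
    rw [hEE0, map_zero] at this
    exact (sub_eq_zero.mp this.symm)

end EX93

end

section

namespace EX93

open Finset Polynomial Matrix Filter Topology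

/-- constant product over pairs -/
lemma pairs_const {R : Type*} [CommRing R] (L : ℕ) (c : R) :
    (∏ i : Fin L, ∏ _j ∈ Ioi i, c) = c ^ (L * (L - 1) / 2) := by
  simp only [Finset.prod_const, Fin.card_Ioi]
  rw [Finset.prod_pow_eq_pow_sum]
  congr 1
  rw [← Finset.sum_range_id, Fin.sum_univ_eq_sum_range (fun i => L - 1 - i) L,
    Finset.sum_range_reflect (fun i => i) L]

/-- Moebius coordinate -/
noncomputable def zz (q : ℂ) {L : ℕ} (x : Fin L → ℂ) (i : Fin L) : ℂ :=
  (q ^ 2 * x i + q) / (x i + q)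

/-- product of denominators over pairs -/
noncomputable def V2 (q : ℂ) {L : ℕ} (x : Fin L → ℂ) : ℂ :=
  ∏ i, ∏ j ∈ Ioi i, ((x i + q) * (x j + q))

lemma QQ_zz (q : ℂ) (hq : q ^ 2 + q + 1 = 0) (ω : ℂ) {L : ℕ} (x : Fin L → ℂ)
    (hx : ∀ i, x i + q ≠ 0) :
    QQ q ω L (zz q x) * V2 q x ^ 3 * ∏ i, gg (x i) (x i)
      = (∏ i : Fin L, ∏ _j ∈ Ioi i, ((1 - q) * (3 * q))) * (WW ω x).det := by
  rw [det_WW]
  have h1 : QQ q ω L (zz q x) * V2 q x ^ 3
      = (∏ i : Fin L, ∏ _j ∈ Ioi i, ((1 - q) * (3 * q))) *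
        ∑ s : Fin L → Bool, wt ω s * ∏ i, ∏ j ∈ Ioi i, rr (x i) (x j) (s i) (s j) := by
    unfold QQ
    rw [Finset.sum_mul, Finset.mul_sum]
    refine Finset.sum_congr rfl fun s _ => ?_
    have h2 : pp q s (zz q x) * V2 q x ^ 3 = (∏ i : Fin L, ∏ _j ∈ Ioi i, ((1 - q) * (3 * q))) *
        ∏ i, ∏ j ∈ Ioi i, rr (x i) (x j) (s i) (s j) := by
      unfold pp V2
      rw [← Finset.prod_pow, ← Finset.prod_mul_distrib, ← Finset.prod_mul_distrib]
      refine Finset.prod_congr rfl fun i _ => ?_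
      rw [← Finset.prod_pow, ← Finset.prod_mul_distrib, ← Finset.prod_mul_distrib]
      refine Finset.prod_congr rfl fun j _ => ?_
      exact hh_eq_rr q hq (x i) (x j) (hx i) (hx j) (s i) (s j)
    rw [mul_assoc, h2]; ring
  rw [h1]; ring

lemma VV_zz (q : ℂ) (hq : q ^ 2 + q + 1 = 0) {L : ℕ} (x : Fin L → ℂ)
    (hx : ∀ i, x i + q ≠ 0) :
    VV L (zz q x) * V2 q x = (∏ i : Fin L, ∏ _j ∈ Ioi i, (1 - q)) * VV L x := by
  unfold VV V2
  rw [← Finset.prod_mul_distrib, ← Finset.prod_mul_distrib]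
  refine Finset.prod_congr rfl fun i _ => ?_
  rw [← Finset.prod_mul_distrib, ← Finset.prod_mul_distrib]
  refine Finset.prod_congr rfl fun j _ => ?_
  have q3 : q ^ 3 = 1 := by linear_combination (q - 1) * hq
  have h1 := hx i
  have h2 := hx j
  unfold zz
  field_simp
  linear_combination (x j - x i) * q3

lemma VV_ne_zero {L : ℕ} (x : Fin L → ℂ) (hx : Function.Injective x) : VV L x ≠ 0 := by
  unfold VV
  refine Finset.prod_ne_zero_iff.mpr fun i _ => Finset.prod_ne_zero_iff.mpr fun j hj => ?_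
  rw [sub_ne_zero]
  intro h
  have := hx h
  rw [Finset.mem_Ioi] at hj
  exact absurd this (ne_of_gt hj)

/-- the evaluation in generic Moebius coordinates -/
lemma generic_eval (q ω κ : ℂ) (hq : q ^ 2 + q + 1 = 0) (n : ℕ)
    (G : MvPolynomial (Fin (2 * n)) ℂ)
    (hG : ∀ z, ω ^ n * MvPolynomial.eval z G * VV (2 * n) z = κ ^ n * QQ q ω (2 * n) z)
    (x : Fin (2 * n) → ℂ) (hx : ∀ i, x i + q ≠ 0) (hinj : Function.Injective x) :
    ω ^ n * MvPolynomial.eval (zz q x) G * V2 q x ^ 2 * ∏ i, gg (x i) (x i)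
      = κ ^ n * (∏ i : Fin (2 * n), ∏ _j ∈ Ioi i, (3 * q)) * (NN ω x).det := by
  have h1 := hG (zz q x)
  have h2 := QQ_zz q hq ω x hx
  have h3 := VV_zz q hq x hx
  rw [det_WW_eq] at h2
  have hV := VV_ne_zero x hinj
  have hq1 : (1 - q : ℂ) ≠ 0 := by
    intro h
    have : q = 1 := by linear_combination -h
    rw [this] at hq
    norm_num at hq
  have hC : (∏ i : Fin (2 * n), ∏ _j ∈ Ioi i, (1 - q)) ≠ 0 :=
    Finset.prod_ne_zero_iff.mpr fun i _ => Finset.prod_ne_zero_iff.mpr fun j _ => hq1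
  have h4 : (∏ i : Fin (2 * n), ∏ _j ∈ Ioi i, ((1 - q) * (3 * q)))
      = (∏ i : Fin (2 * n), ∏ _j ∈ Ioi i, (1 - q)) *
        ∏ i : Fin (2 * n), ∏ _j ∈ Ioi i, (3 * q) := by
    simp only [Finset.prod_mul_distrib]
  rw [h4] at h2
  apply mul_left_cancel₀ (mul_ne_zero hC hV)
  set A := ∏ i : Fin (2 * n), ∏ _j ∈ Ioi i, (1 - q)
  set B := ∏ i : Fin (2 * n), ∏ _j ∈ Ioi i, (3 * q)
  set V := VV (2 * n) x
  set E := MvPolynomial.eval (zz q x) G
  linear_combination (-(ω ^ n) * E * V2 q x ^ 2 * (∏ i, gg (x i) (x i))) * h3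
    + (V2 q x ^ 3 * (∏ i, gg (x i) (x i))) * h1 + κ ^ n * h2

lemma cont_det_NN (ω : ℂ) {L : ℕ} :
    Continuous fun t : ℂ => (NN ω (fun i : Fin L => t * (i : ℕ))).det := by
  have h : ∀ t : ℂ, (NN ω (fun i : Fin L => t * (i : ℕ))).det
      = ((NN (C ω) (fun i : Fin L => (X : ℂ[X]) * C ((i : ℕ) : ℂ))).det).eval t := by
    intro t
    have h1 := NN_map (evalRingHom t) (C ω) (fun i : Fin L => (X : ℂ[X]) * C ((i : ℕ) : ℂ))
    have h2 := RingHom.map_det (evalRingHom t)
      (NN (C ω) (fun i : Fin L => (X : ℂ[X]) * C ((i : ℕ) : ℂ)))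
    rw [coe_evalRingHom] at h2
    rw [h2]
    congr 1
    rw [RingHom.mapMatrix_apply, h1]
    simp
  simp_rw [h]
  exact Polynomial.continuous _

theorem eval_one (q ω κ τ : ℂ) (hq : q ^ 2 + q + 1 = 0)
    (hτ : ω * (τ + 2) = (1 + ω) ^ 2)
    (G : (n : ℕ) → MvPolynomial (Fin (2 * n)) ℂ)
    (h0 : ∀ z, MvPolynomial.eval z (G 0) = 1)
    (hsym : ∀ n (σ : Equiv.Perm (Fin (2 * n))) (z : Fin (2 * n) → ℂ),
      MvPolynomial.eval (z ∘ σ) (G n) = MvPolynomial.eval z (G n))
    (hwheel : ∀ n (w : ℂ) (z : Fin (2 * n) → ℂ),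
      MvPolynomial.eval (Fin.cons (q ^ 2 * w) (Fin.cons w z : Fin (2 * n + 1) → ℂ)
        : Fin (2 * n + 2) → ℂ) (G (n + 1))
      = 3 * κ * q ^ 2 * w ^ 2 * (∏ j, (z j - q * w) ^ 4) * MvPolynomial.eval z (G n))
    (htop : ∀ n (z : Fin (2 * n) → ℂ), ∃ p : ℂ[X][X],
      p.natDegree ≤ 2 * (2 * n + 1) ∧ (p.coeff (2 * (2 * n + 1))).natDegree ≤ 2 * (2 * n) ∧
      (p.coeff (2 * (2 * n + 1))).coeff (2 * (2 * n)) = κ * (τ + 2) * MvPolynomial.eval z (G n) ∧
      ∀ x y : ℂ, (p.eval (C x)).eval y = MvPolynomial.eval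
        (Fin.cons x (Fin.cons y z : Fin (2 * n + 1) → ℂ) : Fin (2 * n + 2) → ℂ) (G (n + 1))) (n : ℕ) :
    ω ^ n * MvPolynomial.eval (fun _ => 1) (G n)
      = κ ^ n * 3 ^ (n * (2 * n - 1)) *
        (ω • (1 : Matrix (Fin (2 * n)) (Fin (2 * n)) ℂ) + pasc ℂ (2 * n)).det := by
  have hmain := main_identity q ω κ τ hq hτ G h0 hsym hwheel htop n
  have q3 : q ^ 3 = 1 := by linear_combination (q - 1) * hq
  have hq0 : q ≠ 0 := by
    rintro rfl
    norm_num at q3
  set x : ℂ → Fin (2 * n) → ℂ := fun t i => t * ((i : ℕ) : ℂ) with hx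
  -- the two sides as functions of `t`
  set F1 : ℂ → ℂ := fun t => ω ^ n * MvPolynomial.eval (zz q (x t)) (G n) * V2 q (x t) ^ 2 *
    ∏ i, gg (x t i) (x t i) with hF1
  set F2 : ℂ → ℂ := fun t => κ ^ n * (∏ i : Fin (2 * n), ∏ _j ∈ Ioi i, (3 * q)) *
    (NN ω (x t)).det with hF2
  have hxc : ∀ i, Continuous fun t => x t i := fun i => by
    simp only [hx]; fun_prop
  have hx0 : ∀ i, x 0 i = 0 := fun i => by simp [hx]
  have c2 : ContinuousAt F2 0 := by
    have := cont_det_NN ω (L := 2 * n)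
    exact (continuous_const.mul this).continuousAt
  have c1 : ContinuousAt F1 0 := by
    have ca : ContinuousAt (fun t => MvPolynomial.eval (zz q (x t)) (G n)) 0 := by
      have hz : ContinuousAt (fun t => zz q (x t)) 0 := by
        rw [continuousAt_pi]
        intro i
        unfold zz
        apply ContinuousAt.div
        · exact ((continuous_const.mul (hxc i)).add continuous_const).continuousAt
        · exact ((hxc i).add continuous_const).continuousAt
        · rw [hx0, zero_add]; exact hq0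
      exact ContinuousAt.comp (f := fun t => zz q (x t))
        (g := fun z => MvPolynomial.eval z (G n)) (MvPolynomial.continuous_eval (G n)).continuousAt hz
    have cb : Continuous (fun t => V2 q (x t)) := by
      unfold V2
      refine continuous_finsetProd _ fun i _ => continuous_finsetProd _ fun j _ => ?_
      exact ((hxc i).add continuous_const).mul ((hxc j).add continuous_const)
    have cc : Continuous (fun t => ∏ i, gg (x t i) (x t i)) := by
      refine continuous_finsetProd _ fun i _ => ?_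
      unfold gg
      exact (continuous_const.sub (hxc i)).add ((hxc i).mul (hxc i))
    exact ((continuousAt_const.mul ca).mul (cb.pow 2).continuousAt).mul cc.continuousAt
  have heq : F1 =ᶠ[𝓝[≠] 0] F2 := by
    have hne : ∀ i, ∀ᶠ t in 𝓝[≠] (0 : ℂ), x t i + q ≠ 0 := by
      intro i
      have : ContinuousAt (fun t => x t i + q) 0 := ((hxc i).add continuous_const).continuousAt
      have h1 : ∀ᶠ t in 𝓝 (0 : ℂ), x t i + q ≠ 0 := by
        apply this.eventually_ne
        rw [hx0, zero_add]; exact hq0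
      exact h1.filter_mono nhdsWithin_le_nhds
    have hne' : ∀ᶠ t in 𝓝[≠] (0 : ℂ), ∀ i, x t i + q ≠ 0 := Filter.eventually_all.mpr hne
    filter_upwards [hne', self_mem_nhdsWithin] with t ht ht0
    have hinj : Function.Injective (x t) := by
      intro i j hij
      simp only [hx] at hij
      have := mul_left_cancel₀ ht0 hij
      exact Fin.ext (by exact_mod_cast this)
    exact generic_eval q ω κ hq n (G n) hmain (x t) ht hinj
  have t1 : Tendsto F1 (𝓝[≠] 0) (𝓝 (F1 0)) := c1.tendsto.mono_left nhdsWithin_le_nhds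
  have t2 : Tendsto F2 (𝓝[≠] 0) (𝓝 (F2 0)) := c2.tendsto.mono_left nhdsWithin_le_nhds
  have hlim : F1 0 = F2 0 := tendsto_nhds_unique t1 (t2.congr' heq.symm)
  -- evaluate at zero
  have hx0' : x 0 = fun _ => 0 := funext hx0
  simp only [hF1, hF2] at hlim
  rw [hx0'] at hlim
  rw [NN_zero] at hlim
  have hzz : zz q (fun _ : Fin (2 * n) => (0 : ℂ)) = fun _ => 1 := by
    funext i
    simp [zz, hq0]
  have hV2 : V2 q (fun _ : Fin (2 * n) => (0 : ℂ)) = q ^ (2 * (n * (2 * n - 1))) := by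
    unfold V2
    simp only [zero_add]
    rw [pairs_const, ← sq, ← pow_mul]
    congr 2
    rw [show 2 * n * (2 * n - 1) = 2 * (n * (2 * n - 1)) by ring]
    omega
  have hgg : (∏ _i : Fin (2 * n), gg (0 : ℂ) 0) = 1 := by simp [gg]
  have hpairs : (2 * n) * (2 * n - 1) / 2 = n * (2 * n - 1) := by
    rw [show 2 * n * (2 * n - 1) = 2 * (n * (2 * n - 1)) by ring]
    omega
  rw [hzz, hV2, hgg, pairs_const, hpairs, mul_one, mul_pow] at hlim
  set N := n * (2 * n - 1)
  have hqN : q ^ N ≠ 0 := pow_ne_zero _ hq0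
  have h5 : (q ^ (2 * N)) ^ 2 = q ^ N := by
    have : (q ^ (2 * N)) ^ 2 = (q ^ 3) ^ N * q ^ N := by
      rw [← pow_mul, ← pow_mul, ← pow_add]
      congr 1
      ring
    rw [this, q3, one_pow, one_mul]
  rw [h5] at hlim
  apply mul_left_cancel₀ hqN
  linear_combination hlim

end EX93

end

section

namespace EX93

open Finset Polynomial Matrix

lemma exists_omega (τ : ℂ) : ∃ ω : ℂ, ω ≠ 0 ∧ ω * (τ + 2) = (1 + ω) ^ 2 ∧
    ω⁻¹ * (τ + 2) = (1 + ω⁻¹) ^ 2 ∧ ω + ω⁻¹ = τ := by
  obtain ⟨s, hs⟩ := IsAlgClosed.exists_pow_nat_eq (τ ^ 2 - 4) (n := 2) (by norm_num)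
  set ω : ℂ := (τ + s) / 2 with hω
  have h1 : ω ^ 2 - τ * ω + 1 = 0 := by
    rw [hω]
    linear_combination (1 / 4 : ℂ) * hs
  have h0 : ω ≠ 0 := by
    intro h
    rw [h] at h1
    norm_num at h1
  have h2 : ω + ω⁻¹ = τ := by
    field_simp
    linear_combination h1
  refine ⟨ω, h0, by linear_combination -h1, ?_, h2⟩
  field_simp
  linear_combination -h1

lemma det_factor {L : ℕ} (ω τ : ℂ) (h0 : ω ≠ 0) (h : ω + ω⁻¹ = τ)
    (P : Matrix (Fin L) (Fin L) ℂ) :
    (ω • (1 : Matrix (Fin L) (Fin L) ℂ) + P).det * (ω⁻¹ • (1 : Matrix (Fin L) (Fin L) ℂ) + P).det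
      = (1 + τ • P + P ^ 2).det := by
  rw [← Matrix.det_mul]
  congr 1
  rw [← h]
  simp only [Matrix.mul_add, Matrix.add_mul, Matrix.mul_smul, Matrix.smul_mul, Matrix.mul_one,
    Matrix.one_mul, smul_add, smul_smul, add_smul, inv_mul_cancel₀ h0, one_smul, sq]
  abel

/-- the Pascal matrix over `ℂ` is the image of the real one -/
lemma pasc_map (L : ℕ) : pasc ℂ L = (pasc ℝ L).map (algebraMap ℝ ℂ) := by
  ext i j
  simp [pasc]

lemma det_pasc_real (L : ℕ) (τ : ℝ) :
    (1 + (τ : ℂ) • pasc ℂ L + pasc ℂ L ^ 2).det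
      = (((1 + τ • pasc ℝ L + pasc ℝ L ^ 2).det : ℝ) : ℂ) := by
  have h := RingHom.map_det (algebraMap ℝ ℂ) (1 + τ • pasc ℝ L + pasc ℝ L ^ 2)
  rw [Complex.coe_algebraMap] at h
  rw [h, pasc_map]
  congr 1
  rw [← Complex.coe_algebraMap, map_add, map_add, map_one, map_pow, RingHom.mapMatrix_apply]
  congr 2
  ext i j
  simp [Matrix.smul_apply]

end EX93

end

section

/-! EXACT: the determinant `det (1 - P + P ^ 2)` of the Pascal matrix is the square of the number of
alternating sign matrices (connection with the leg sums of helper96/helper34). -/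

namespace EX93

open Finset Polynomial Matrix Filter Topology
open Pool.Agent.H34.Hom Pool.Agent.H96.EX

lemma pairs_pp {R : Type*} [CommMonoid R] (M : ℕ) (F : ℕ → ℕ → R) :
    ∏ i : Fin M, ∏ j ∈ Ioi i, F i j = Pool.Agent.H34.Hom.pp M F := by
  have h1 : ∏ i : Fin M, ∏ j ∈ Ioi i, F i j = ∏ j : Fin M, ∏ i ∈ Iio j, F i j := by
    refine Finset.prod_comm' ?_
    intro i j
    simp
  rw [h1]
  unfold Pool.Agent.H34.Hom.pp
  rw [← Fin.prod_univ_eq_prod_range (fun k => ∏ j ∈ range k, F j k) M]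
  refine Finset.prod_congr rfl fun j _ => ?_
  have h2 : (Iio j).map Fin.valEmbedding = range (j : ℕ) := by
    rw [Fin.map_valEmbedding_Iio, Nat.Iio_eq_range]
  rw [← h2, Finset.prod_map]
  rfl

lemma SG_eq_QQ {q : ℂ} (hq : q ^ 2 + q + 1 = 0) (M : ℕ) (z : ℕ → ℂ) (hz : Gen M z) :
    V3 M z * SG q (q ^ 2) q (range M) [] z = (q ^ 2) ^ M * QQ q (q ^ 2) M (fun i : Fin M => z i) := by
  have q3 : q ^ 3 = 1 := by linear_combination (q - 1) * hq
  have h0 := eval_Npoly (κ := Empty) q (q ^ 2) q hq M [] (fun _ => 0) z hz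
  rw [List.map_nil] at h0
  rw [← h0]
  unfold Npoly QQ
  rw [map_sum, Finset.mul_sum]
  refine Finset.sum_bij' (fun A _ => fun i : Fin M => decide ((i : ℕ) ∉ A))
    (fun s _ => (range M).filter (fun n => ∃ h : n < M, s ⟨n, h⟩ = false)) ?_ ?_ ?_ ?_ ?_
  · intro A _; exact Finset.mem_univ _
  · intro s _
    rw [Finset.mem_powerset]
    exact Finset.filter_subset _ _
  · intro A hA
    rw [Finset.mem_powerset] at hA
    ext n
    simp only [Finset.mem_filter, Finset.mem_range, decide_eq_false_iff_not, not_not]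
    constructor
    · rintro ⟨_, _, h⟩; exact h
    · intro h; exact ⟨Finset.mem_range.mp (hA h), Finset.mem_range.mp (hA h), h⟩
  · intro s _
    funext i
    simp only [Finset.mem_filter, Finset.mem_range, i.2, exists_true_left, true_and]
    cases s i <;> simp
  · intro A hA
    rw [Finset.mem_powerset] at hA
    rw [map_mul, map_mul, map_prod, map_prod, eval_pp, ← mul_assoc]
    congr 1
    · simp only [List.map_nil, List.prod_nil, mul_one, MvPolynomial.eval_C]
      unfold wt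
      have e0 : (q ^ 2) ^ M = ∏ _i : Fin M, q ^ 2 := by simp
      rw [e0, ← Finset.prod_mul_distrib]
      have e1 : ∏ i : Fin M, q ^ 2 * (if decide ((i : ℕ) ∉ A) = true then q ^ 2 else 1)
          = ∏ n ∈ range M, (if n ∈ A then q ^ 2 else q) := by
        rw [← Fin.prod_univ_eq_prod_range (fun n => if n ∈ A then q ^ 2 else q) M]
        refine Finset.prod_congr rfl fun i _ => ?_
        by_cases h : (i : ℕ) ∈ A
        · simp [h]
        · simp [h]
          linear_combination q * q3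
      rw [e1, ← Finset.prod_sdiff hA, mul_comm]
      congr 1
      · refine Finset.prod_congr rfl fun n hn => ?_
        rw [if_neg (Finset.mem_sdiff.mp hn).2]
      · refine Finset.prod_congr rfl fun n hn => ?_
        rw [if_pos hn]
    · unfold EX93.pp
      rw [← pairs_pp]
      refine Finset.prod_congr rfl fun i _ => Finset.prod_congr rfl fun j _ => ?_
      unfold Pool.Agent.H34.Hom.hA
      by_cases hi : (i : ℕ) ∈ A <;> by_cases hj : (j : ℕ) ∈ A <;>
        simp [hi, hj, hh]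

/-- the path -/
noncomputable def zp (q : ℂ) (t : ℝ) (j : ℕ) : ℂ :=
  (q ^ 2 * ((t : ℂ) * j) + q) / ((t : ℂ) * j + q)

lemma HV_eq_det {q : ℂ} (hq : q ^ 2 + q + 1 = 0) (M : ℕ) :
    HV q (q ^ 2) q M [] = (q ^ 2) ^ M * 3 ^ (M * (M - 1) / 2) *
      (q ^ 2 • (1 : Matrix (Fin M) (Fin M) ℂ) + pasc ℂ M).det := by
  have q3 : q ^ 3 = 1 := by linear_combination (q - 1) * hq
  have hq0 : q ≠ 0 := by
    rintro rfl
    norm_num at q3
  have hq1 : (1 - q : ℂ) ≠ 0 := by
    intro h
    have : q = 1 := by linear_combination -h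
    rw [this] at hq
    norm_num at hq
  set x : ℝ → ℕ → ℂ := fun t j => (t : ℂ) * j with hx
  have hxc : ∀ j, Continuous fun t => x t j := fun j => by
    simp only [hx]; fun_prop
  have hx0 : ∀ j, x 0 j = 0 := fun j => by simp [hx]
  have hz : ∀ j, Tendsto (fun t => zp q t j) (𝓝[>] 0) (𝓝 1) := by
    intro j
    have h1 : ContinuousAt (fun t => zp q t j) 0 := by
      unfold zp
      apply ContinuousAt.div
      · exact ((continuous_const.mul (hxc j)).add continuous_const).continuousAt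
      · exact ((hxc j).add continuous_const).continuousAt
      · simp [hq0]
    have h2 := h1.tendsto.mono_left (nhdsWithin_le_nhds (s := Set.Ioi 0))
    have h3 : zp q 0 j = 1 := by simp [zp, hq0]
    rwa [h3] at h2
  have hne : ∀ j, ∀ᶠ t in 𝓝[>] (0 : ℝ), x t j + q ≠ 0 := by
    intro j
    have : ContinuousAt (fun t => x t j + q) 0 := ((hxc j).add continuous_const).continuousAt
    have h1 : ∀ᶠ t in 𝓝 (0 : ℝ), x t j + q ≠ 0 := by
      apply this.eventually_ne
      rw [hx0, zero_add]; exact hq0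
    exact h1.filter_mono nhdsWithin_le_nhds
  have hgn : ∀ j k, ∀ᶠ t in 𝓝[>] (0 : ℝ), EX93.gg (x t j) (x t k) ≠ 0 := by
    intro j k
    have : ContinuousAt (fun t => EX93.gg (x t j) (x t k)) 0 := by
      unfold EX93.gg
      exact ((continuous_const.sub (hxc k)).add ((hxc j).mul (hxc k))).continuousAt
    have h1 : ∀ᶠ t in 𝓝 (0 : ℝ), EX93.gg (x t j) (x t k) ≠ 0 := by
      apply this.eventually_ne
      rw [hx0, hx0]; simp [EX93.gg]
    exact h1.filter_mono nhdsWithin_le_nhds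
  have hneM : ∀ᶠ t in 𝓝[>] (0 : ℝ), ∀ j ∈ range M, x t j + q ≠ 0 :=
    (Filter.eventually_all_finset (range M)).mpr fun j _ => hne j
  have hgnM : ∀ᶠ t in 𝓝[>] (0 : ℝ), ∀ j ∈ range M, ∀ k ∈ range M, EX93.gg (x t j) (x t k) ≠ 0 :=
    (Filter.eventually_all_finset (range M)).mpr fun j _ =>
      (Filter.eventually_all_finset (range M)).mpr fun k _ => hgn j k
  have hgen : ∀ᶠ t in 𝓝[>] (0 : ℝ), Gen M (zp q t) := by
    filter_upwards [hneM, hgnM, self_mem_nhdsWithin] with t h1 h2 h3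
    intro j hj k hk hjk h4
    have h5 := hh_eq_rr q hq (x t k) (x t j) (h1 k (mem_range.mpr hk)) (h1 j (mem_range.mpr hj))
      true true
    have h6 : hh q true true ((q ^ 2 * x t k + q) / (x t k + q)) ((q ^ 2 * x t j + q) / (x t j + q))
        = 0 := by
      simp only [hh]
      rw [sub_eq_zero]
      exact h4
    rw [h6, zero_mul] at h5
    have h7 : ((1 - q) * (3 * q)) * EX93.rr (x t k) (x t j) true true ≠ 0 := by
      simp only [EX93.rr]
      refine mul_ne_zero (mul_ne_zero hq1 (mul_ne_zero (by norm_num) hq0))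
        (mul_ne_zero (mul_ne_zero ?_ (h2 k (mem_range.mpr hk) j (mem_range.mpr hj)))
          (h2 j (mem_range.mpr hj) k (mem_range.mpr hk)))
      simp only [hx]
      have ht : (t : ℂ) ≠ 0 := by exact_mod_cast (ne_of_gt h3)
      rw [← mul_sub]
      refine mul_ne_zero ht (sub_ne_zero.mpr ?_)
      exact_mod_cast hjk
    exact h7 h5.symm
  have hlim := tendsto_HV' (κ := Empty) (q ^ 2) q hq M [] (F := 𝓝[>] (0 : ℝ)) (fun _ _ => 0)
    (fun _ => 0) (fun a => a.elim) (zp q) hz hgen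
  simp only [List.map_nil] at hlim
  -- the identity for small `t`
  have hid : ∀ᶠ t in 𝓝[>] (0 : ℝ),
      SS q (q ^ 2) q M [] (zp q t) * V2 q (fun i : Fin M => x t i) ^ 2 *
        ∏ i : Fin M, EX93.gg (x t i) (x t i) =
      (q ^ 2) ^ M * (∏ i : Fin M, ∏ _j ∈ Ioi i, (3 * q)) * (NN (q ^ 2) (fun i : Fin M => x t i)).det := by
    filter_upwards [hneM, hgen, self_mem_nhdsWithin] with t h1 h2 h3
    have ht : (t : ℂ) ≠ 0 := by exact_mod_cast (ne_of_gt h3)
    set xx : Fin M → ℂ := fun i => x t i with hxx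
    have hxx1 : ∀ i, xx i + q ≠ 0 := fun i => h1 i (mem_range.mpr i.2)
    have hinj : Function.Injective xx := by
      intro i j hij
      simp only [hxx, hx] at hij
      have := mul_left_cancel₀ ht hij
      exact Fin.ext (by exact_mod_cast this)
    have e1 := QQ_zz q hq (q ^ 2) xx hxx1
    have e2 := VV_zz q hq xx hxx1
    rw [det_WW_eq] at e1
    have e3 := SG_eq_QQ hq M (zp q t) h2
    have e4 : zz q xx = fun i : Fin M => zp q t i := by
      funext i; rfl
    rw [e4] at e1 e2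
    have e5 : VV M (fun i : Fin M => zp q t i) = VM M (zp q t) := by
      unfold VV VM
      exact pairs_pp M (fun j k => zp q t k - zp q t j)
    rw [V3_eq, ← e5] at e3
    have e6 : (∏ i : Fin M, ∏ _j ∈ Ioi i, ((1 - q) * (3 * q)))
        = (∏ i : Fin M, ∏ _j ∈ Ioi i, (1 - q)) * ∏ i : Fin M, ∏ _j ∈ Ioi i, (3 * q) := by
      simp only [Finset.prod_mul_distrib]
    rw [e6] at e1
    have hV := VV_ne_zero xx hinj
    have hC : (∏ i : Fin M, ∏ _j ∈ Ioi i, (1 - q)) ≠ 0 :=
      Finset.prod_ne_zero_iff.mpr fun i _ => Finset.prod_ne_zero_iff.mpr fun j _ => hq1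
    apply mul_left_cancel₀ (mul_ne_zero hC hV)
    unfold SS
    set Vz := VV M (fun i : Fin M => zp q t i)
    set PP := PM M (zp q t)
    set S := SG q (q ^ 2) q (range M) [] (zp q t)
    set B := ∏ i : Fin M, ∏ _j ∈ Ioi i, (3 * q)
    linear_combination (-(PP * S) * V2 q xx ^ 2 * (∏ i, EX93.gg (xx i) (xx i))) * e2
      + (V2 q xx ^ 3 * (∏ i, EX93.gg (xx i) (xx i))) * e3 + (q ^ 2) ^ M * e1
  -- limits of both sides
  have cV : Tendsto (fun t : ℝ => V2 q (fun i : Fin M => x t i)) (𝓝[>] 0)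
      (𝓝 (V2 q (fun i : Fin M => x 0 i))) := by
    have : Continuous (fun t : ℝ => V2 q (fun i : Fin M => x t i)) := by
      unfold V2
      refine continuous_finsetProd _ fun i _ => continuous_finsetProd _ fun j _ => ?_
      exact ((hxc i).add continuous_const).mul ((hxc j).add continuous_const)
    exact (this.tendsto 0).mono_left nhdsWithin_le_nhds
  have cG : Tendsto (fun t : ℝ => ∏ i : Fin M, EX93.gg (x t i) (x t i)) (𝓝[>] 0)
      (𝓝 (∏ i : Fin M, EX93.gg (x 0 i) (x 0 i))) := by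
    have : Continuous (fun t : ℝ => ∏ i : Fin M, EX93.gg (x t i) (x t i)) := by
      refine continuous_finsetProd _ fun i _ => ?_
      unfold EX93.gg
      exact (continuous_const.sub (hxc i)).add ((hxc i).mul (hxc i))
    exact (this.tendsto 0).mono_left nhdsWithin_le_nhds
  have cN : Tendsto (fun t : ℝ => (NN (q ^ 2) (fun i : Fin M => x t i)).det) (𝓝[>] 0)
      (𝓝 (NN (q ^ 2) (fun i : Fin M => x 0 i)).det) := by
    have h1 := cont_det_NN (q ^ 2) (L := M)
    have h2 : Continuous (fun t : ℝ => (NN (q ^ 2) (fun i : Fin M => x t i)).det) :=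
      h1.comp Complex.continuous_ofReal
    exact (h2.tendsto 0).mono_left nhdsWithin_le_nhds
  have l1 := (hlim.mul (cV.pow 2)).mul cG
  have l2 := cN.const_mul ((q ^ 2) ^ M * (∏ i : Fin M, ∏ _j ∈ Ioi i, (3 * q)))
  have hfin := tendsto_nhds_unique l1 (l2.congr' (hid.mono fun t ht => ht.symm))
  have hxz : (fun i : Fin M => x 0 (i : ℕ)) = fun _ => 0 := funext fun i => hx0 i
  have hgg : (∏ i : Fin M, EX93.gg (x 0 i) (x 0 i)) = 1 := by
    refine Finset.prod_eq_one fun i _ => ?_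
    rw [hx0]; simp [EX93.gg]
  have hV2 : V2 q (fun _ : Fin M => (0 : ℂ)) = (q ^ 2) ^ (M * (M - 1) / 2) := by
    unfold V2
    simp only [zero_add]
    rw [pairs_const, ← sq]
  rw [hxz, hgg, hV2, NN_zero, pairs_const, mul_one, mul_pow] at hfin
  set N := M * (M - 1) / 2
  have hqN : q ^ N ≠ 0 := pow_ne_zero _ hq0
  have h5 : ((q ^ 2) ^ N) ^ 2 = q ^ N := by
    have : ((q ^ 2) ^ N) ^ 2 = (q ^ 3) ^ N * q ^ N := by
      rw [← pow_mul, ← pow_mul, ← pow_mul, ← pow_add]
      congr 1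
      ring
    rw [this, q3, one_pow, one_mul]
  rw [h5] at hfin
  apply mul_left_cancel₀ hqN
  linear_combination hfin

lemma det_omega_asm {q : ℂ} (hq : q ^ 2 + q + 1 = 0) (M : ℕ) :
    (q ^ 2 • (1 : Matrix (Fin M) (Fin M) ℂ) + pasc ℂ M).det = (-q) ^ M * ((asm M : ℝ) : ℂ) := by
  have q3 : q ^ 3 = 1 := by linear_combination (q - 1) * hq
  have h1 := HV_eq_det hq M
  rw [zero_leg_value hq M] at h1
  have h3 : (3 : ℂ) ^ (M * (M - 1) / 2) ≠ 0 := pow_ne_zero _ (by norm_num)
  have h4 : (-1 : ℂ) ^ M * ((asm M : ℝ) : ℂ) =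
      (q ^ 2) ^ M * (q ^ 2 • (1 : Matrix (Fin M) (Fin M) ℂ) + pasc ℂ M).det := by
    apply mul_left_cancel₀ h3
    linear_combination h1
  have h5 : q ^ M * (q ^ 2) ^ M = 1 := by
    rw [← mul_pow, ← pow_succ', q3, one_pow]
  rw [neg_pow]
  calc (q ^ 2 • (1 : Matrix (Fin M) (Fin M) ℂ) + pasc ℂ M).det
      = q ^ M * ((q ^ 2) ^ M * (q ^ 2 • (1 : Matrix (Fin M) (Fin M) ℂ) + pasc ℂ M).det) := by
        rw [← mul_assoc, h5, one_mul]
    _ = _ := by rw [← h4]; ring

/-- **`det (1 - P + P ^ 2) = A(M) ^ 2`** for the symmetric Pascal matrix `P` of size `M`. -/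
theorem det_pasc_neg_one (M : ℕ) :
    (1 - pasc ℝ M + pasc ℝ M ^ 2).det = asm M ^ 2 := by
  obtain ⟨q, hq⟩ : ∃ q : ℂ, q ^ 2 + q + 1 = 0 := by
    obtain ⟨ω, h0, h1, -, -⟩ := exists_omega (-1)
    exact ⟨ω, by linear_combination -h1⟩
  have q3 : q ^ 3 = 1 := by linear_combination (q - 1) * hq
  have hq' : (q ^ 2) ^ 2 + q ^ 2 + 1 = 0 := by linear_combination hq + q * q3
  have h1 := det_omega_asm hq M
  have h2 := det_omega_asm hq' M
  have hq4 : (q ^ 2) ^ 2 = q := by linear_combination q * q3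
  rw [hq4] at h2
  have hq0 : q ≠ 0 := by
    rintro rfl
    norm_num at q3
  have hinv : q⁻¹ = q ^ 2 := by
    field_simp
    exact q3.symm
  have h3 := det_factor q (-1) hq0 (by rw [hinv]; linear_combination hq) (pasc ℂ M)
  rw [hinv, h1, h2] at h3
  have h4 := det_pasc_real M (-1)
  have h5 : (1 + ((-1 : ℝ) : ℂ) • pasc ℂ M + pasc ℂ M ^ 2).det = ((asm M ^ 2 : ℝ) : ℂ) := by
    have e0 : (((-1 : ℝ) : ℝ) : ℂ) = -1 := by push_cast; ring
    rw [e0, ← h3, neg_pow, neg_pow q]
    have e1 : q ^ M * (q ^ 2) ^ M = 1 := by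
      rw [← mul_pow, ← pow_succ', q3, one_pow]
    have e2 : (-1 : ℂ) ^ M * (-1) ^ M = 1 := by
      rw [← mul_pow]; norm_num
    push_cast
    linear_combination (((asm M : ℝ) : ℂ) ^ 2 * ((-1) ^ M * (-1) ^ M)) * e1 + ((asm M : ℝ) : ℂ) ^ 2 * e2
  rw [h5] at h4
  have h6 : (1 + (-1 : ℝ) • pasc ℝ M + pasc ℝ M ^ 2) = 1 - pasc ℝ M + pasc ℝ M ^ 2 := by
    rw [neg_one_smul, ← sub_eq_add_neg]
  rw [h6] at h4
  exact_mod_cast h4.symm

end EX93

end

section

/-!
# Project EXACT, one-arm formula: pushforwards and bilinear forms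
-/

set_option autoImplicit false

open Finset

namespace Pool.Agent.H15.Exact

open H56.EX
open scoped Classical

section push

variable {α β γ : Type} [Fintype α] [Fintype β] [Fintype γ]

omit [Fintype β] [Fintype γ] in
/-- pushforward of a weight function -/
noncomputable def push (f : α → β) : (α → ℂ) →ₗ[ℂ] (β → ℂ) where
  toFun v := fun b => ∑ a, if f a = b then v a else 0
  map_add' u v := by
    funext b
    simp only [Pi.add_apply, ← sum_add_distrib]
    refine sum_congr rfl fun a _ => ?_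
    split_ifs <;> simp
  map_smul' c v := by
    funext b
    simp only [Pi.smul_apply, smul_eq_mul, RingHom.id_apply, mul_sum]
    refine sum_congr rfl fun a _ => ?_
    split_ifs <;> simp

omit [Fintype β] in
theorem push_apply (f : α → β) (v : α → ℂ) (b : β) :
    push f v b = ∑ a, if f a = b then v a else 0 := rfl

theorem sum_push (f : α → β) (v : α → ℂ) (w : β → ℂ) :
    ∑ b, w b * push f v b = ∑ a, w (f a) * v a := by
  simp only [push_apply, mul_sum]
  rw [sum_comm]
  refine sum_congr rfl fun a _ => ?_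
  rw [sum_eq_single (f a)]
  · simp
  · intro b _ hb
    rw [if_neg (fun h => hb h.symm), mul_zero]
  · intro h
    exact absurd (mem_univ _) h

theorem push_push (f : α → β) (g : β → γ) (v : α → ℂ) :
    push g (push f v) = push (fun a => g (f a)) v := by
  funext c
  have h := sum_push f v (fun b => if g b = c then 1 else 0)
  rw [push_apply, push_apply]
  have e1 : ∀ b : β, (if g b = c then push f v b else 0) =
      (if g b = c then (1 : ℂ) else 0) * push f v b := by
    intro b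
    split_ifs <;> simp
  have e2 : ∀ a : α, (if g (f a) = c then v a else 0) =
      (if g (f a) = c then (1 : ℂ) else 0) * v a := by
    intro a
    split_ifs <;> simp
  rw [sum_congr rfl (fun b _ => e1 b), sum_congr rfl (fun a _ => e2 a)]
  exact h

/-- The bilinear form with kernel `W`. -/
noncomputable def bf (W : α → β → ℂ) : (α → ℂ) →ₗ[ℂ] (β → ℂ) →ₗ[ℂ] ℂ :=
  LinearMap.mk₂ ℂ (fun u v => ∑ a, ∑ b, W a b * (u a * v b))
    (fun u u' v => by
      simp only [Pi.add_apply, ← sum_add_distrib]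
      exact sum_congr rfl fun a _ => sum_congr rfl fun b _ => by ring)
    (fun c u v => by
      simp only [Pi.smul_apply, smul_eq_mul, mul_sum]
      exact sum_congr rfl fun a _ => sum_congr rfl fun b _ => by ring)
    (fun u v v' => by
      simp only [Pi.add_apply, ← sum_add_distrib]
      exact sum_congr rfl fun a _ => sum_congr rfl fun b _ => by ring)
    (fun c u v => by
      simp only [Pi.smul_apply, smul_eq_mul, mul_sum]
      exact sum_congr rfl fun a _ => sum_congr rfl fun b _ => by ring)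

theorem bf_apply (W : α → β → ℂ) (u : α → ℂ) (v : β → ℂ) :
    bf W u v = ∑ a, ∑ b, W a b * (u a * v b) := rfl

theorem bf_push_left (W : β → γ → ℂ) (f : α → β) (u : α → ℂ) (v : γ → ℂ) :
    bf W (push f u) v = bf (fun a c => W (f a) c) u v := by
  have h := sum_push f u (fun b => ∑ c, W b c * v c)
  rw [bf_apply, bf_apply]
  calc ∑ b, ∑ c, W b c * (push f u b * v c) = ∑ b, (∑ c, W b c * v c) * push f u b := by
        refine sum_congr rfl fun b _ => ?_
        rw [sum_mul]
        exact sum_congr rfl fun c _ => by ring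
    _ = ∑ a, (∑ c, W (f a) c * v c) * u a := h
    _ = _ := by
        refine sum_congr rfl fun b _ => ?_
        rw [sum_mul]
        exact sum_congr rfl fun c _ => by ring

theorem bf_push_right (W : γ → β → ℂ) (f : α → β) (u : γ → ℂ) (v : α → ℂ) :
    bf W u (push f v) = bf (fun c a => W c (f a)) u v := by
  rw [bf_apply, bf_apply]
  refine sum_congr rfl fun c _ => ?_
  have h := sum_push f v (fun b => W c b * u c)
  calc ∑ b, W c b * (u c * push f v b) = ∑ b, (W c b * u c) * push f v b :=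
        sum_congr rfl fun c _ => by ring
    _ = ∑ a, (W c (f a) * u c) * v a := h
    _ = _ := sum_congr rfl fun c _ => by ring

end push

section pat

variable {L : ℕ}

/-- `e_i` as a linear map -/
noncomputable def eL (L : ℕ) (i : ℤ) : (Pat L → ℂ) →ₗ[ℂ] (Pat L → ℂ) := push (E i)

theorem eL_eq (i : ℤ) (v : Pat L → ℂ) : eL L i v = eop i v := by
  funext P
  unfold eL eop
  rw [push_apply]

theorem eL_idem (i : ℤ) (v : Pat L → ℂ) : eL L i (eL L i v) = eL L i v := by
  unfold eL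
  rw [push_push]
  congr 2
  funext P
  exact E.idem P i

theorem bf_eL {W : Pat L → Pat L → ℂ} {i : ℤ} (h : ∀ P Q, W (E i P) Q = W P (E i Q))
    (u v : Pat L → ℂ) : bf W (eL L i u) v = bf W u (eL L i v) := by
  unfold eL
  rw [bf_push_left, bf_push_right]
  have : (fun a c => W (E i a) c) = (fun c a => W c (E i a)) := by
    funext P Q
    exact h P Q
  rw [this]

theorem rot_ins (i : ℤ) (P : Pat L) : rot (ins i P) = ins (i + 1) (rot P) := by
  have hL : 1 ≤ L := le_trans (by norm_num) P.two_le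
  apply Pat.ext
  funext x
  rcases pos_cases hL (i + 1) x with h | h | ⟨y, rfl⟩
  · rw [ins_i (i + 1) _ h, rot_m, ins_i i P]
    · ring
    · have := Cg.sub 1 h
      simpa using this
  · rw [ins_succ (i + 1) _ h, rot_m, ins_succ i P]
    · ring
    · have := Cg.sub 1 h
      simpa using this
  · have e1 : ∀ y, phi L (i + 1) y = phi L i (y - 1) + 1 := by
      intro y
      unfold phi
      rw [show y - (i + 1) = y - 1 - i by ring]
      ring
    rw [ins_phi, rot_m, rot_m, e1, e1, add_sub_cancel_right, ins_phi, add_sub_cancel_right]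

/-- pushforward under the inverse rotation -/
noncomputable def rI (L : ℕ) : (Pat L → ℂ) →ₗ[ℂ] (Pat L → ℂ) := push unrot

theorem rot_unrot (P : Pat L) : rot (unrot P) = P := (rotEquiv L).right_inv P

theorem unrot_rot (P : Pat L) : unrot (rot P) = P := (rotEquiv L).left_inv P

theorem rI_apply (v : Pat L → ℂ) (P : Pat L) : rI L v P = v (rot P) := by
  unfold rI
  rw [push_apply, sum_eq_single (rot P)]
  · rw [if_pos (unrot_rot P)]
  · intro Q _ hQ
    rw [if_neg]
    intro h
    apply hQ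
    rw [← h, rot_unrot]
  · intro h
    exact absurd (mem_univ _) h

theorem unrot_ins (P : Pat L) : unrot (ins 0 P) = ins (-1) (unrot P) := by
  have h := rot_ins (-1) (unrot P)
  rw [rot_unrot] at h
  have h2 := congrArg unrot h
  rw [unrot_rot] at h2
  rw [h2]
  norm_num

/-- insertion of a small arc at the strands `0, 1` -/
noncomputable def i0 (L : ℕ) : (Pat L → ℂ) →ₗ[ℂ] (Pat (L + 2) → ℂ) := push (ins 0)

theorem i0_ins (v : Pat L → ℂ) (Q : Pat L) : i0 L v (ins 0 Q) = v Q := by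
  unfold i0
  rw [push_apply, sum_eq_single Q]
  · rw [if_pos rfl]
  · intro Q' _ hQ'
    rw [if_neg]
    intro h
    exact hQ' (ins_injective 0 h)
  · intro h
    exact absurd (mem_univ _) h

theorem i0_of_ne (v : Pat L → ℂ) {P : Pat (L + 2)} (hP : P.m 0 ≠ 1) : i0 L v P = 0 := by
  unfold i0
  rw [push_apply]
  refine sum_eq_zero fun Q _ => ?_
  rw [if_neg]
  rintro rfl
  apply hP
  rw [ins_self]
  norm_num

theorem eL_i0 (v : Pat L → ℂ) : eL (L + 2) 0 (i0 L v) = i0 L v := by
  unfold eL i0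
  rw [push_push]
  congr 2
  funext P
  exact E.eq_self _ _ (ins_self 0 P)

variable {τ : ℂ} {W : ∀ L : ℕ, Pat L → Pat L → ℂ}

theorem bf_i0 (hW : FormProps τ W) (u v : Pat L → ℂ) :
    bf (W (L + 2)) (i0 L u) (i0 L v) = bf (W L) u v := by
  unfold i0
  rw [bf_push_left, bf_push_right]
  have : (fun c a => W (L + 2) (ins 0 c) (ins 0 a)) = W L := by
    funext P Q
    exact hW.ins0 L P Q
  rw [this]

theorem bf_rI_i0 (hW : FormProps τ W) (u v : Pat L → ℂ) :
    bf (W (L + 2)) (rI (L + 2) (i0 L u)) (rI (L + 2) (i0 L v)) = τ * bf (W L) u v := by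
  unfold i0 rI
  rw [push_push, push_push, bf_push_left, bf_push_right, bf_apply, bf_apply, mul_sum]
  refine sum_congr rfl fun P _ => ?_
  rw [mul_sum]
  refine sum_congr rfl fun Q _ => ?_
  rw [unrot_ins, unrot_ins, hW.insm, rot_unrot, rot_unrot]
  ring

end pat

end Pool.Agent.H15.Exact

end

section

/-!
# Project EXACT, one-arm formula: the qKZ solution and its complex conjugate

`QP κ Φ` lists the properties of the polynomial qKZ solution with the cube root of unity `κ` in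
terms of sequences of parameters.
-/

set_option autoImplicit false

open Finset

namespace Pool.Agent.H15.Exact

open H56.EX

/-- The properties of the polynomial qKZ solution with the cube root of unity `κ`, in terms of
sequences of parameters. -/
structure QP (κ : ℂ) (Φ : ∀ L : ℕ, Pat L → (ℕ → ℂ) → ℂ) : Prop where
  kk : κ ^ 2 + κ + 1 = 0
  mv : ∀ (L : ℕ) (P : Pat L), ∃ p : MvPolynomial (Fin L) ℂ, ∀ s : ℕ → ℂ,
    Φ L P s = MvPolynomial.eval (fun k : Fin L => s k) p
  poly : ∀ (L : ℕ) (P : Pat L) (s : ℕ → ℂ) (n : ℕ), n < L →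
    ∃ p : Polynomial ℂ, p.natDegree ≤ L - 1 ∧ ∀ t, Φ L P (Function.update s n t) = p.eval t
  exch : ∀ (L : ℕ) (P : Pat L) (s : ℕ → ℂ) (n : ℕ), n + 1 < L →
    (κ * s (n + 1) - κ ^ 2 * s n) * Φ L P (s ∘ Equiv.swap n (n + 1)) =
      (κ * s n - κ ^ 2 * s (n + 1)) * Φ L P s +
        (s n - s (n + 1)) * eop n (fun P' => Φ L P' s) P
  rot : ∀ (L : ℕ) (P : Pat L) (s : ℕ → ℂ), Φ L (rot P) (scons (s (L - 1)) s) = Φ L P s
  arc_zero : ∀ (L : ℕ) (P : Pat L) (s : ℕ → ℂ), s 0 = κ ^ 2 * s 1 → P.m 0 ≠ 1 → Φ L P s = 0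
  arc : ∀ (L : ℕ) (P : Pat L) (w : ℂ) (z : ℕ → ℂ),
    Φ (L + 2) (ins 0 P) (scons (κ ^ 2 * w) (scons w z)) =
      (-κ * w * (∏ j ∈ Finset.range L, (z j - κ * w) ^ 2) / 3 ^ L) * Φ L P z
  two_base : ∀ (P : Pat 2) (s : ℕ → ℂ), P.m 0 = -1 →
    Φ 2 P s = (κ * s 1 - κ ^ 2 * s 0) / (κ - κ ^ 2)
  two_other : ∀ (P : Pat 2) (s : ℕ → ℂ), P.m 0 = 1 →
    Φ 2 P s = (κ * s 0 - κ ^ 2 * s 1) / (κ - κ ^ 2)

theorem m_neg_one_of {P : Pat 2} (h : P.m 0 = -1) : P.m (-1) = 0 := by
  rw [← h, P.inv]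

theorem qp_of_psi {Ψ : ∀ L : ℕ, Pat L → (ℤ → ℂ) → ℂ} (hΨ : PsiProps Ψ) :
    QP q (fun L P s => Ψ L P (par L s)) := by
  have hbase : ∀ (P : Pat 2) (s : ℕ → ℂ), P.m 0 = -1 →
      Ψ 2 P (par 2 s) = (q * s 1 - q ^ 2 * s 0) / (q - q ^ 2) := by
    intro P s h
    have hb : IsBase P := by
      intro x h1 h2
      have hx : x = -1 ∨ x = 0 := by push_cast at h1 h2; omega
      rcases hx with rfl | rfl
      · rw [m_neg_one_of h]; norm_num
      · rw [h]; norm_num
    rw [hΨ.base 2 P _ hb]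
    have e0 : par 2 s ((0 : ℕ) : ℤ) = s 0 := par_nat s (by norm_num)
    have e1 : par 2 s ((1 : ℕ) : ℤ) = s 1 := par_nat s (by norm_num)
    simp only [prod_range_succ, prod_range_zero, one_mul, e0, e1, q_inv]
  refine ⟨by linear_combination q_sq, ?_, ?_, ?_, ?_, ?_, ?_, hbase, ?_⟩
  · intro L P
    obtain ⟨p, hp⟩ := hΨ.mv L P
    refine ⟨p, fun s => ?_⟩
    rw [hp]
    congr 2
    funext k
    exact par_nat s k.2
  · intro L P s n hn
    obtain ⟨p, hp, he⟩ := hΨ.poly L P (par L s) (per_par L s) n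
    refine ⟨p, hp, fun t => ?_⟩
    rw [← he t, upd_par s hn]
  · intro L P s n hn
    have h := hΨ.exch L P (par L s) (per_par L s) n
    have e0 : par L s ((n : ℕ) : ℤ) = s n := par_nat s (by omega)
    have e1 : par L s (((n : ℕ) : ℤ) + 1) = s (n + 1) := by
      have : (((n : ℕ) : ℤ) + 1) = ((n + 1 : ℕ) : ℤ) := by push_cast; ring
      rw [this]
      exact par_nat s hn
    rw [swp_par s hn, e0, e1, q_inv] at h
    exact h
  · intro L P s
    have hL := P.two_le
    have h := hΨ.rot L P (par L s) (per_par L s)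
    rw [rot_par (by omega) s] at h
    exact h
  · intro L P s hs hP
    have hL := P.two_le
    have e0 : par L s 0 = s 0 := by
      have := par_nat (L := L) s (n := 0) (by omega)
      simpa using this
    have e1 : par L s (0 + 1) = s 1 := by
      have := par_nat (L := L) s (n := 1) (by omega)
      simpa using this
    exact hΨ.arc_zero L P (par L s) (per_par L s) 0 (by rw [e0, e1, hs]) (by simpa using hP)
  · intro L P w z
    have hL := P.two_le
    set s := scons (q ^ 2 * w) (scons w z) with hs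
    have e0 : par (L + 2) s 0 = q ^ 2 * w := by
      have := par_nat (L := L + 2) s (n := 0) (by omega)
      simpa [hs, scons] using this
    have e1 : par (L + 2) s (0 + 1) = w := by
      have := par_nat (L := L + 2) s (n := 1) (by omega)
      simpa [hs, scons] using this
    have e2 : ∀ j, j ∈ Finset.range L → par (L + 2) s (0 + 2 + (j : ℤ)) = z j := by
      intro j hj
      have := par_nat (L := L + 2) s (n := j + 2) (by have := mem_range.mp hj; omega)
      rw [show (0 : ℤ) + 2 + (j : ℤ) = ((j + 2 : ℕ) : ℤ) by push_cast; ring, this]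
      simp [hs, scons]
    have h := hΨ.arc L P (par (L + 2) s) (per_par _ _) 0 (by rw [e0, e1])
    rw [e1] at h
    have e3 : (fun x => par (L + 2) s (phi L 0 x)) = par L z := by
      have := phi_par (L := L) (by omega) s 0 (by omega)
      simp only [Nat.cast_zero] at this
      rw [this]
      congr 1
    rw [e3] at h
    have e4 : ∏ j ∈ Finset.range L, (par (L + 2) s (0 + 2 + (j : ℤ)) - q * w) ^ 2 =
        ∏ j ∈ Finset.range L, (z j - q * w) ^ 2 :=
      prod_congr rfl (fun j hj => by rw [e2 j hj])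
    rw [e4] at h
    exact h
  · intro P s hP
    have h1 : (H56.EX.rot P).m 0 = -1 := by
      have h2 : (H56.EX.rot P).m 1 = 2 := by
        rw [rot_m, sub_self, hP]; norm_num
      have h3 : (H56.EX.rot P).m 2 = 1 := by rw [← h2, (H56.EX.rot P).inv]
      have h4 := (H56.EX.rot P).per 0
      simp only [Nat.cast_ofNat, zero_add] at h4
      rw [h3] at h4
      linarith
    have h := hΨ.rot 2 P (par 2 s) (per_par 2 s)
    rw [rot_par (by omega) s, hbase _ _ h1] at h
    rw [← h]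
    simp [scons]

section conj

variable {κ : ℂ} {Φ : ∀ L : ℕ, Pat L → (ℕ → ℂ) → ℂ}

/-- The conjugate vector. -/
noncomputable def cj (Φ : ∀ L : ℕ, Pat L → (ℕ → ℂ) → ℂ) : ∀ L : ℕ, Pat L → (ℕ → ℂ) → ℂ :=
  fun L P s => (starRingEnd ℂ) (Φ L P (fun n => (starRingEnd ℂ) (s n)))

theorem conj_eop {L : ℕ} (i : ℤ) (v : Pat L → ℂ) (P : Pat L) :
    (starRingEnd ℂ) (eop i v P) = eop i (fun P' => (starRingEnd ℂ) (v P')) P := by
  unfold eop
  rw [map_sum]
  refine sum_congr rfl fun P' _ => ?_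
  split_ifs
  · rfl
  · exact map_zero _

theorem qp_conj (h : QP κ Φ) : QP ((starRingEnd ℂ) κ) (cj Φ) := by
  refine ⟨?_, ?_, ?_, ?_, ?_, ?_, ?_, ?_, ?_⟩
  · have := congrArg (starRingEnd ℂ) h.kk
    simpa using this
  · intro L P
    obtain ⟨p, hp⟩ := h.mv L P
    refine ⟨MvPolynomial.map (starRingEnd ℂ) p, fun s => ?_⟩
    unfold cj
    rw [hp, MvPolynomial.eval_map]
    have := MvPolynomial.eval₂_comp_left (starRingEnd ℂ) (RingHom.id ℂ)
      (fun k : Fin L => (starRingEnd ℂ) (s k)) p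
    rw [RingHom.comp_id] at this
    have e2 : ((starRingEnd ℂ) ∘ fun k : Fin L => (starRingEnd ℂ) (s k)) =
        fun k : Fin L => s k := by
      funext k
      exact Complex.conj_conj _
    rw [e2] at this
    exact this
  · intro L P s n hn
    obtain ⟨p, hp, he⟩ := h.poly L P (fun n => (starRingEnd ℂ) (s n)) n hn
    refine ⟨p.map (starRingEnd ℂ), (Polynomial.natDegree_map_le).trans hp, fun t => ?_⟩
    have e1 : (fun m => (starRingEnd ℂ) (Function.update s n t m)) =
        Function.update (fun n => (starRingEnd ℂ) (s n)) n ((starRingEnd ℂ) t) := by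
      funext m
      by_cases hm : m = n
      · subst hm; simp
      · simp [hm]
    unfold cj
    rw [e1, he, Polynomial.eval_map, Polynomial.eval, Polynomial.hom_eval₂]
    simp
  · intro L P s n hn
    have h1 := congrArg (starRingEnd ℂ) (h.exch L P (fun n => (starRingEnd ℂ) (s n)) n hn)
    simp only [map_mul, map_sub, map_add, map_pow, Complex.conj_conj, conj_eop] at h1
    exact h1
  · intro L P s
    have h1 := congrArg (starRingEnd ℂ) (h.rot L P (fun n => (starRingEnd ℂ) (s n)))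
    have e1 : (fun m => (starRingEnd ℂ) (scons (s (L - 1)) s m)) =
        scons ((starRingEnd ℂ) (s (L - 1))) (fun n => (starRingEnd ℂ) (s n)) := by
      funext m
      rcases m with _ | m <;> simp [scons]
    unfold cj
    rw [e1]
    exact h1
  · intro L P s hs hP
    unfold cj
    rw [h.arc_zero L P (fun n => (starRingEnd ℂ) (s n)) (by simp [hs]) hP, map_zero]
  · intro L P w z
    have h1 := congrArg (starRingEnd ℂ) (h.arc L P ((starRingEnd ℂ) w)
      (fun n => (starRingEnd ℂ) (z n)))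
    have e1 : (fun m => (starRingEnd ℂ) (scons ((starRingEnd ℂ) κ ^ 2 * w) (scons w z) m)) =
        scons (κ ^ 2 * (starRingEnd ℂ) w) (scons ((starRingEnd ℂ) w)
          (fun n => (starRingEnd ℂ) (z n))) := by
      funext m
      rcases m with _ | _ | m <;> simp [scons]
    unfold cj
    rw [e1, h1]
    simp only [map_mul, map_div₀, map_neg, map_pow, map_prod, map_sub, Complex.conj_conj,
      map_ofNat]
  · intro P s hP
    unfold cj
    rw [h.two_base P _ hP]
    simp
  · intro P s hP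
    unfold cj
    rw [h.two_other P _ hP]
    simp

end conj

theorem conj_q : (starRingEnd ℂ) q = q ^ 2 := by
  have h1 : (starRingEnd ℂ) q + q = -1 := by
    apply Complex.ext
    · simp [q]
    · simp [q]
  linear_combination h1 - q_sq

end Pool.Agent.H15.Exact

end

section

/-!
# Project EXACT, one-arm formula: symmetry and wheel recursion
-/

set_option autoImplicit false

open Finset

namespace Pool.Agent.H15.Exact

open H56.EX

/-- the vector of components -/
def vec (Φ : ∀ L : ℕ, Pat L → (ℕ → ℂ) → ℂ) (L : ℕ) (s : ℕ → ℂ) : Pat L → ℂ := fun P => Φ L P s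

/-- The pairing of the two vectors. -/
noncomputable def Gv (W : ∀ L : ℕ, Pat L → Pat L → ℂ) (Φ' Φ : ∀ L : ℕ, Pat L → (ℕ → ℂ) → ℂ)
    (L : ℕ) (s : ℕ → ℂ) : ℂ := bf (W L) (vec Φ' L s) (vec Φ L s)

variable {κ τ : ℂ} {Φ Φ' : ∀ L : ℕ, Pat L → (ℕ → ℂ) → ℂ} {W : ∀ L : ℕ, Pat L → Pat L → ℂ}

theorem QP.cube (h : QP κ Φ) : κ ^ 3 = 1 := by
  linear_combination (κ - 1) * h.kk

theorem QP.ne_zero (h : QP κ Φ) : κ ≠ 0 := by
  intro h0
  have := h.cube
  rw [h0] at this
  norm_num at this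

theorem QP.ne_one (h : QP κ Φ) : κ ≠ 1 := by
  intro h0
  have := h.kk
  rw [h0] at this
  norm_num at this

theorem QP.exch_vec (h : QP κ Φ) (L : ℕ) (s : ℕ → ℂ) (n : ℕ) (hn : n + 1 < L) :
    (κ * s (n + 1) - κ ^ 2 * s n) • vec Φ L (s ∘ Equiv.swap n (n + 1)) =
      (κ * s n - κ ^ 2 * s (n + 1)) • vec Φ L s + (s n - s (n + 1)) • eL L n (vec Φ L s) := by
  funext P
  have h1 := h.exch L P s n hn
  rw [eL_eq]
  simp only [Pi.smul_apply, Pi.add_apply, smul_eq_mul]
  exact h1

theorem QP.arc_vec (h : QP κ Φ) {L : ℕ} (hL : 2 ≤ L) (w : ℂ) (z : ℕ → ℂ) :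
    vec Φ (L + 2) (scons (κ ^ 2 * w) (scons w z)) =
      (-κ * w * (∏ j ∈ Finset.range L, (z j - κ * w) ^ 2) / 3 ^ L) • i0 L (vec Φ L z) := by
  funext P
  by_cases hP : P.m 0 = 1
  · obtain ⟨Q, rfl⟩ := exists_ins hL 0 P (by simpa using hP)
    simp only [Pi.smul_apply, smul_eq_mul, i0_ins]
    exact h.arc L Q w z
  · simp only [Pi.smul_apply, smul_eq_mul, i0_of_ne _ hP, mul_zero]
    exact h.arc_zero (L + 2) P _ (by simp [scons]) hP

theorem Gv_swap (h : QP κ Φ) (h' : QP (κ ^ 2) Φ') (hW : FormProps τ W) (L : ℕ) (s : ℕ → ℂ)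
    (n : ℕ) (hn : n + 1 < L) :
    ((κ * s (n + 1) - κ ^ 2 * s n) * (κ * s n - κ ^ 2 * s (n + 1))) *
      (Gv W Φ' Φ L (s ∘ Equiv.swap n (n + 1)) - Gv W Φ' Φ L s) = 0 := by
  have e1 := h.exch_vec L s n hn
  have e2 := h'.exch_vec L s n hn
  have hk := h.kk
  have hk4 : κ ^ 4 = κ := by linear_combination κ * h.cube
  set x := s n with hx
  set y := s (n + 1) with hy
  set u := vec Φ' L s with hu
  set v := vec Φ L s with hv
  set u' := vec Φ' L (s ∘ Equiv.swap n (n + 1)) with hu'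
  set v' := vec Φ L (s ∘ Equiv.swap n (n + 1)) with hv'
  have hadj : ∀ a b : Pat L → ℂ, bf (W L) (eL L n a) b = bf (W L) a (eL L n b) :=
    fun a b => bf_eL (fun P Q => hW.adj L n (by omega) (by omega) P Q) a b
  have h3 := congrArg₂ (fun a b => bf (W L) a b) e2 e1
  simp only [map_add, map_smul, LinearMap.add_apply, LinearMap.smul_apply, smul_eq_mul, hadj,
    eL_idem] at h3
  change _ * (bf (W L) u' v' - bf (W L) u v) = 0
  rw [show (κ ^ 2) ^ 2 = κ by rw [← pow_mul]; exact hk4] at h3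
  linear_combination (-1) * h3 - (x - y) * (bf (W L) u (eL L n v)) * (x - y) * hk

theorem Gv_wheel (h : QP κ Φ) (h' : QP (κ ^ 2) Φ') (hW : FormProps τ W) {L : ℕ} (hL : 2 ≤ L)
    (w : ℂ) (z : ℕ → ℂ) :
    Gv W Φ' Φ (L + 2) (scons (κ ^ 2 * w) (scons w z)) =
      κ ^ 2 * w ^ 2 * (∏ j ∈ Finset.range L, (z j - κ * w) ^ 4) / 9 ^ L * Gv W Φ' Φ L z := by
  have hk := h.kk
  have hk3 := h.cube
  have hk4 : κ ^ 4 = κ := by linear_combination κ * h.cube
  unfold Gv
  rw [h.arc_vec hL w z]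
  rcases eq_or_ne w 0 with rfl | hw
  · simp
  have e1 := h'.exch_vec (L + 2) (scons (κ ^ 2 * w) (scons w z)) 0 (by omega)
  have e2 : (scons (κ ^ 2 * w) (scons w z)) ∘ Equiv.swap 0 (0 + 1) =
      scons ((κ ^ 2) ^ 2 * (κ ^ 2 * w)) (scons (κ ^ 2 * w) z) := by
    rw [zero_add, scons_swap01]
    congr 1
    linear_combination (-w) * (κ ^ 3 + 1) * hk3
  rw [e2, h'.arc_vec hL] at e1
  have e3 : (κ ^ 2 - 1) * w ≠ 0 := by
    refine mul_ne_zero ?_ hw
    intro h0
    have : κ = -2 := by linear_combination hk - h0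
    rw [this] at hk
    norm_num at hk
  have hadj : ∀ a b : Pat (L + 2) → ℂ,
      bf (W (L + 2)) (eL (L + 2) 0 a) b = bf (W (L + 2)) a (eL (L + 2) 0 b) :=
    fun a b => bf_eL (fun P Q => hW.adj (L + 2) 0 (by omega) (by omega) P Q) a b
  set u := vec Φ' (L + 2) (scons (κ ^ 2 * w) (scons w z)) with hu
  have e4 : eL (L + 2) 0 u = (-κ ^ 2 * (κ ^ 2 * w) *
      (∏ j ∈ Finset.range L, (z j - κ ^ 2 * (κ ^ 2 * w)) ^ 2) / 3 ^ L) •
        i0 L (vec Φ' L z) := by
    have a1 : κ ^ 2 * scons (κ ^ 2 * w) (scons w z) (0 + 1) -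
        (κ ^ 2) ^ 2 * scons (κ ^ 2 * w) (scons w z) 0 = (κ ^ 2 - 1) * w := by
      simp only [scons]
      linear_combination (-w) * (κ ^ 3 + 1) * hk3
    have a2 : κ ^ 2 * scons (κ ^ 2 * w) (scons w z) 0 -
        (κ ^ 2) ^ 2 * scons (κ ^ 2 * w) (scons w z) (0 + 1) = 0 := by
      simp only [scons]
      ring
    have a3 : scons (κ ^ 2 * w) (scons w z) 0 - scons (κ ^ 2 * w) (scons w z) (0 + 1) =
        (κ ^ 2 - 1) * w := by
      simp only [scons]
      ring
    rw [a1, a2, a3, zero_smul, zero_add] at e1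
    exact (smul_right_injective _ e3 e1).symm
  have e5 : i0 L (vec Φ L z) = eL (L + 2) 0 (i0 L (vec Φ L z)) := (eL_i0 _).symm
  rw [map_smul, e5, ← hadj, e4, map_smul, LinearMap.smul_apply, bf_i0 hW]
  have e6 : ∀ j, z j - κ ^ 2 * (κ ^ 2 * w) = z j - κ * w := by
    intro j
    linear_combination (-w) * hk4
  simp only [e6, smul_eq_mul]
  have e7 : (∏ j ∈ Finset.range L, (z j - κ * w) ^ 4) =
      (∏ j ∈ Finset.range L, (z j - κ * w) ^ 2) * (∏ j ∈ Finset.range L, (z j - κ * w) ^ 2) := by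
    rw [← prod_mul_distrib]
    exact prod_congr rfl fun j _ => by ring
  have e8 : (9 : ℂ) ^ L = 3 ^ L * 3 ^ L := by
    rw [← mul_pow]; norm_num
  rw [e7, e8]
  have h3 : (3 : ℂ) ^ L ≠ 0 := pow_ne_zero _ (by norm_num)
  field_simp
  linear_combination ((∏ j ∈ Finset.range L, (z j - κ * w) ^ 2) ^ 2 *
    bf (W L) (vec Φ' L z) (vec Φ L z) * κ ^ 2) * hk3

end Pool.Agent.H15.Exact

end

section

/-!
# Project EXACT, one-arm formula: polynomials in two variables

The outer variable is `x` and the inner variable is `y`.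
-/

set_option autoImplicit false

open Finset

namespace Pool.Agent.H15.Exact

open H56.EX
open scoped Classical

/-- polynomials in `x` (outer) and `y` (inner) -/
abbrev BV := Polynomial (Polynomial ℂ)

/-- evaluation of the outer variable at `x` and the inner variable at `y` -/
noncomputable def ev (x y : ℂ) : BV →+* ℂ := Polynomial.evalEvalRingHom y x

theorem ev_eq (x y : ℂ) (F : BV) : ev x y F = F.evalEval y x := rfl

theorem ev_X (x y : ℂ) : ev x y Polynomial.X = x := Polynomial.evalEval_X y x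

theorem ev_CX (x y : ℂ) : ev x y (Polynomial.C Polynomial.X) = y := by
  rw [ev_eq, Polynomial.evalEval_C, Polynomial.eval_X]

theorem ev_CC (x y a : ℂ) : ev x y (Polynomial.C (Polynomial.C a)) = a := by
  rw [ev_eq, Polynomial.evalEval_C, Polynomial.eval_C]

theorem ev_map (x y : ℂ) (F : BV) :
    ev x y F = (F.map (Polynomial.evalRingHom y)).eval x := by
  rw [ev_eq, Polynomial.map_evalRingHom_eval]

theorem bv_zero {F : BV} (h : ∀ x y, ev x y F = 0) : F = 0 := by
  ext a b
  have h1 : ∀ y, F.map (Polynomial.evalRingHom y) = 0 := by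
    intro y
    apply Polynomial.funext
    intro x
    rw [← ev_map, h]
    simp
  have h2 : F.coeff a = 0 := by
    apply Polynomial.funext
    intro y
    have := congrArg (fun p => Polynomial.coeff p a) (h1 y)
    simpa [Polynomial.coeff_map] using this
  rw [h2]
  simp

theorem bv_ext {F G : BV} (h : ∀ x y, ev x y F = ev x y G) : F = G := by
  have : F - G = 0 := bv_zero (fun x y => by rw [map_sub, h, sub_self])
  exact sub_eq_zero.mp this

/-- coefficient of `x ^ a * y ^ b` -/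
noncomputable def cf (a b : ℕ) (F : BV) : ℂ := (F.coeff a).coeff b

theorem cf_add (a b : ℕ) (F G : BV) : cf a b (F + G) = cf a b F + cf a b G := by
  unfold cf
  rw [Polynomial.coeff_add, Polynomial.coeff_add]

theorem cf_sub (a b : ℕ) (F G : BV) : cf a b (F - G) = cf a b F - cf a b G := by
  unfold cf
  rw [Polynomial.coeff_sub, Polynomial.coeff_sub]

theorem cf_zero (a b : ℕ) : cf a b 0 = 0 := by
  unfold cf
  simp

theorem cf_sum {ι : Type} (a b : ℕ) (s : Finset ι) (F : ι → BV) :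
    cf a b (∑ i ∈ s, F i) = ∑ i ∈ s, cf a b (F i) := by
  unfold cf
  rw [Polynomial.finsetSum_coeff, Polynomial.finsetSum_coeff]

theorem cf_CC (a b : ℕ) (c : ℂ) (F : BV) :
    cf a b (Polynomial.C (Polynomial.C c) * F) = c * cf a b F := by
  unfold cf
  rw [Polynomial.coeff_C_mul, Polynomial.coeff_C_mul]

theorem cf_X (a b : ℕ) (F : BV) : cf (a + 1) b (Polynomial.X * F) = cf a b F := by
  unfold cf
  rw [Polynomial.coeff_X_mul]

theorem swap_ev (x y : ℂ) (F : BV) : ev x y (Polynomial.Bivariate.swap F) = ev y x F := by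
  induction F using Polynomial.induction_on' with
  | add p r hp hr => rw [map_add, map_add, map_add, hp, hr]
  | monomial n f =>
    induction f using Polynomial.induction_on' with
    | add p r hp hr =>
      rw [map_add, map_add, map_add, map_add, hp, hr]
    | monomial m c =>
      rw [Polynomial.Bivariate.swap_monomial_monomial]
      rw [ev_eq, ev_eq, Polynomial.evalEval, Polynomial.evalEval, Polynomial.eval_monomial,
        Polynomial.eval_monomial]
      simp [Polynomial.eval_monomial]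
      ring

theorem swap_cf (a b : ℕ) (F : BV) : cf a b (Polynomial.Bivariate.swap F) = cf b a F := by
  induction F using Polynomial.induction_on' with
  | add p r hp hr => rw [map_add, cf_add, cf_add, hp, hr]
  | monomial n f =>
    induction f using Polynomial.induction_on' with
    | add p r hp hr =>
      rw [map_add, map_add, cf_add, cf_add, hp, hr]
    | monomial m c =>
      rw [Polynomial.Bivariate.swap_monomial_monomial]
      unfold cf
      rw [Polynomial.coeff_monomial, Polynomial.coeff_monomial]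
      by_cases h1 : m = a <;> by_cases h2 : n = b <;>
        simp [h1, h2, Polynomial.coeff_monomial]

theorem outer_deg {F : BV} {d : ℕ}
    (h : ∀ y, ∃ p : Polynomial ℂ, p.natDegree ≤ d ∧ ∀ x, ev x y F = p.eval x) :
    F.natDegree ≤ d := by
  rw [Polynomial.natDegree_le_iff_coeff_eq_zero]
  intro N hN
  apply Polynomial.funext
  intro y
  obtain ⟨p, hp, he⟩ := h y
  have h1 : F.map (Polynomial.evalRingHom y) = p := by
    apply Polynomial.funext
    intro x
    rw [← ev_map, he]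
  have := congrArg (fun r => Polynomial.coeff r N) h1
  simp only [Polynomial.coeff_map] at this
  rw [Polynomial.coeff_eq_zero_of_natDegree_lt (lt_of_le_of_lt hp hN)] at this
  simpa using this

theorem inner_deg {F : BV} {d : ℕ}
    (h : ∀ x, ∃ p : Polynomial ℂ, p.natDegree ≤ d ∧ ∀ y, ev x y F = p.eval y) (a : ℕ) :
    (F.coeff a).natDegree ≤ d := by
  have h1 : (Polynomial.Bivariate.swap F).natDegree ≤ d := by
    apply outer_deg
    intro y
    obtain ⟨p, hp, he⟩ := h y
    exact ⟨p, hp, fun x => by rw [swap_ev, he]⟩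
  rw [Polynomial.natDegree_le_iff_coeff_eq_zero]
  intro N hN
  have h2 := swap_cf N a F
  unfold cf at h2
  rw [← h2, Polynomial.coeff_eq_zero_of_natDegree_lt (lt_of_le_of_lt h1 hN)]
  simp

section vec

variable {L : ℕ}

/-- coefficient vectors -/
noncomputable def cfv (a b : ℕ) (F : Pat L → BV) : Pat L → ℂ := fun P => cf a b (F P)

/-- `e_i` on polynomial vectors -/
noncomputable def eB (i : ℤ) (F : Pat L → BV) (P : Pat L) : BV :=
  ∑ P' : Pat L, if E i P' = P then F P' else 0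

theorem ev_eB (i : ℤ) (F : Pat L → BV) (P : Pat L) (x y : ℂ) :
    ev x y (eB i F P) = eL L i (fun P' => ev x y (F P')) P := by
  unfold eB eL
  rw [push_apply, map_sum]
  refine sum_congr rfl fun P' _ => ?_
  split_ifs
  · rfl
  · exact map_zero _

theorem cf_eB (i : ℤ) (F : Pat L → BV) (P : Pat L) (a b : ℕ) :
    cf a b (eB i F P) = eL L i (cfv a b F) P := by
  unfold eB eL
  rw [push_apply, cf_sum]
  refine sum_congr rfl fun P' _ => ?_
  split_ifs
  · rfl
  · exact cf_zero a b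

/-- the inverse of the exchange of a strand with parameter `∞`: the strand moves to the left -/
noncomputable def tb (κ : ℂ) (L : ℕ) (i : ℤ) : (Pat L → ℂ) →ₗ[ℂ] (Pat L → ℂ) :=
  -(κ • LinearMap.id + κ ^ 2 • eL L i)

theorem tb_apply (κ : ℂ) (i : ℤ) (v : Pat L → ℂ) :
    tb κ L i v = -(κ • v + κ ^ 2 • eL L i v) := rfl

/-- moving the strand with the outer parameter one step to the left -/
theorem move {κ : ℂ} (hκ : κ ^ 3 = 1) {F F' : Pat L → BV} {w : ℂ} {n : ℤ}
    (hex : ∀ (P : Pat L) (x y : ℂ), (κ * x - κ ^ 2 * w) * ev x y (F' P) =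
      (κ * w - κ ^ 2 * x) * ev x y (F P) + (w - x) * eL L n (fun P' => ev x y (F P')) P)
    {a b : ℕ} (h0 : cfv (a + 1) b F = 0) (h0' : cfv (a + 1) b F' = 0) :
    cfv a b F' = tb κ L n (cfv a b F) := by
  funext P
  have h1 : Polynomial.X * (Polynomial.C (Polynomial.C κ) * F' P) -
      Polynomial.C (Polynomial.C (κ ^ 2 * w)) * F' P =
      Polynomial.C (Polynomial.C (κ * w)) * F P -
        Polynomial.X * (Polynomial.C (Polynomial.C (κ ^ 2)) * F P) +
        (Polynomial.C (Polynomial.C w) * eB n F P - Polynomial.X * eB n F P) := by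
    apply bv_ext
    intro x y
    simp only [map_sub, map_add, map_mul, ev_X]
    simp only [← map_mul, ← map_pow, ev_CC, ev_eB]
    have := hex P x y
    linear_combination this
  have h2 := congrArg (cf (a + 1) b) h1
  simp only [cf_add, cf_sub, cf_X, cf_CC, cf_eB] at h2
  have h3 : cf (a + 1) b (F P) = 0 := congrFun h0 P
  have h4 : cf (a + 1) b (F' P) = 0 := congrFun h0' P
  have h5 : eL L n (cfv (a + 1) b F) P = 0 := by
    rw [h0, map_zero]
    rfl
  rw [h3, h4, h5] at h2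
  rw [tb_apply]
  simp only [Pi.neg_apply, Pi.add_apply, Pi.smul_apply, smul_eq_mul]
  change cf a b (F' P) = -(κ * cf a b (F P) + κ ^ 2 * eL L n (cfv a b F) P)
  linear_combination κ ^ 2 * h2 - (cf a b (F' P) + κ * cf a b (F P)) * hκ

end vec

section FB

variable {κ : ℂ} {Φ : ∀ L : ℕ, Pat L → (ℕ → ℂ) → ℂ}

/-- the components as polynomials in two variables -/
noncomputable def QP.FB (h : QP κ Φ) (L : ℕ) (s : ℕ → BV) (P : Pat L) : BV :=
  MvPolynomial.eval₂ ((Polynomial.C).comp Polynomial.C) (fun k : Fin L => s k)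
    (Classical.choose (h.mv L P))

theorem QP.ev_FB (h : QP κ Φ) (L : ℕ) (s : ℕ → BV) (P : Pat L) (x y : ℂ) :
    ev x y (h.FB L s P) = Φ L P (fun n => ev x y (s n)) := by
  unfold QP.FB
  rw [MvPolynomial.eval₂_comp_left, Classical.choose_spec (h.mv L P)]
  have e1 : (ev x y).comp ((Polynomial.C).comp Polynomial.C) = RingHom.id ℂ := by
    ext a
    exact ev_CC x y a
  rw [e1]
  rfl

theorem QP.congr (h : QP κ Φ) {L : ℕ} (P : Pat L) {s s' : ℕ → ℂ} (hs : ∀ n, n < L → s n = s' n) :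
    Φ L P s = Φ L P s' := by
  obtain ⟨p, hp⟩ := h.mv L P
  rw [hp, hp]
  congr 2
  funext k
  exact hs k k.2

end FB

end Pool.Agent.H15.Exact

end

section

/-!
# Project EXACT, one-arm formula: the top coefficient of the vector
-/

set_option autoImplicit false

open Finset

namespace Pool.Agent.H15.Exact

open H56.EX
open scoped Classical

/-- the parameters `y, z_0, …, z_{k-2}, x, z_{k-1}, …` -/
def ar (k : ℕ) (x y : ℂ) (z : ℕ → ℂ) : ℕ → ℂ := fun j =>
  if j = 0 then y else if j < k then z (j - 1) else if j = k then x else z (j - 2)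

/-- the same parameters as polynomials -/
noncomputable def arB (k : ℕ) (z : ℕ → ℂ) : ℕ → BV := fun j =>
  if j = 0 then Polynomial.C Polynomial.X else if j < k then Polynomial.C (Polynomial.C (z (j - 1)))
    else if j = k then Polynomial.X else Polynomial.C (Polynomial.C (z (j - 2)))

/-- the parameters `x, y, z` as polynomials -/
noncomputable def s0B (z : ℕ → ℂ) : ℕ → BV
  | 0 => Polynomial.X
  | 1 => Polynomial.C Polynomial.X
  | n + 2 => Polynomial.C (Polynomial.C (z n))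

theorem ev_arB (k : ℕ) (z : ℕ → ℂ) (x y : ℂ) : (fun n => ev x y (arB k z n)) = ar k x y z := by
  funext n
  unfold arB ar
  split_ifs
  · exact ev_CX x y
  · exact ev_CC x y _
  · exact ev_X x y
  · exact ev_CC x y _

theorem ev_s0B (z : ℕ → ℂ) (x y : ℂ) : (fun n => ev x y (s0B z n)) = scons x (scons y z) := by
  funext n
  rcases n with _ | _ | n
  · exact ev_X x y
  · exact ev_CX x y
  · exact ev_CC x y _

theorem ar_swap {k : ℕ} (hk : 1 ≤ k) (x y : ℂ) (z : ℕ → ℂ) :
    (ar (k + 1) x y z) ∘ Equiv.swap k (k + 1) = ar k x y z := by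
  funext j
  simp only [Function.comp_apply]
  by_cases h1 : j = k
  · subst h1
    rw [Equiv.swap_apply_left]
    unfold ar
    rw [if_neg (by omega), if_neg (by omega), if_pos rfl, if_neg (by omega), if_neg (by omega),
      if_pos rfl]
  by_cases h2 : j = k + 1
  · subst h2
    rw [Equiv.swap_apply_right]
    unfold ar
    rw [if_neg (by omega), if_pos (by omega), if_neg (by omega), if_neg (by omega),
      if_neg (by omega)]
    congr 1
  · rw [Equiv.swap_apply_of_ne_of_ne h1 h2]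
    unfold ar
    by_cases h3 : j = 0
    · rw [if_pos h3, if_pos h3]
    · rw [if_neg h3, if_neg h3]
      by_cases h4 : j < k
      · rw [if_pos (by omega), if_pos h4]
      · rw [if_neg (by omega), if_neg (by omega), if_neg h4, if_neg h1]

theorem ar_update {k : ℕ} (hk : 1 ≤ k) (x y : ℂ) (z : ℕ → ℂ) :
    ar k x y z = Function.update (ar k 0 y z) k x := by
  funext j
  by_cases h1 : j = k
  · subst h1
    rw [Function.update_self]
    unfold ar
    rw [if_neg (by omega), if_neg (by omega), if_pos rfl]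
  · rw [Function.update_of_ne h1]
    unfold ar
    by_cases h3 : j = 0
    · rw [if_pos h3, if_pos h3]
    · rw [if_neg h3, if_neg h3]
      by_cases h4 : j < k
      · rw [if_pos h4, if_pos h4]
      · rw [if_neg h4, if_neg h1, if_neg h4, if_neg h1]

theorem ar_one (x y : ℂ) (z : ℕ → ℂ) : ar 1 x y z = scons y (scons x z) := by
  funext j
  rcases j with _ | _ | j
  · rfl
  · rfl
  · unfold ar
    rw [if_neg (by omega), if_neg (by omega), if_neg (by omega)]
    rfl

/-- the product `t_{N-m+1} ⋯ t_N` -/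
noncomputable def chn (κ : ℂ) (L N : ℕ) : ℕ → (Pat L → ℂ) →ₗ[ℂ] (Pat L → ℂ)
  | 0 => LinearMap.id
  | m + 1 => (tb κ L ((N - m : ℕ) : ℤ)).comp (chn κ L N m)

/-- the operator moving the first strand around the cylinder to the second place -/
noncomputable def Sop (κ : ℂ) (N : ℕ) : (Pat (N + 2) → ℂ) →ₗ[ℂ] (Pat (N + 2) → ℂ) :=
  (chn κ (N + 2) N N).comp (rI (N + 2))

theorem coeff_eval {F : BV} {d : ℕ} (hd : F.natDegree ≤ d) (c : ℂ) (m : ℕ) :
    (F.eval (Polynomial.C c * Polynomial.X)).coeff m =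
      ∑ a ∈ range (d + 1), c ^ a * (if a ≤ m then cf a (m - a) F else 0) := by
  rw [Polynomial.eval_eq_sum_range' (lt_of_le_of_lt hd (Nat.lt_succ_self d)),
    Polynomial.finsetSum_coeff]
  refine sum_congr rfl fun a _ => ?_
  have e1 : F.coeff a * (Polynomial.C c * Polynomial.X) ^ a =
      Polynomial.C (c ^ a) * (F.coeff a * Polynomial.X ^ a) := by
    rw [mul_pow, Polynomial.C_pow]
    ring
  rw [e1, Polynomial.coeff_C_mul, Polynomial.coeff_mul_X_pow']
  rfl

theorem eval_eval (F : BV) (c w : ℂ) :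
    (F.eval (Polynomial.C c * Polynomial.X)).eval w = ev (c * w) w F := by
  have h1 : ev (c * w) w F = Polynomial.eval₂ (Polynomial.evalRingHom w) (c * w) F := by
    rw [Polynomial.eval₂_evalRingHom]
    rfl
  have h2 := Polynomial.hom_eval₂ F (RingHom.id (Polynomial ℂ)) (Polynomial.evalRingHom w)
    (Polynomial.C c * Polynomial.X)
  rw [RingHom.comp_id] at h2
  rw [h1]
  have h3 : Polynomial.evalRingHom w (Polynomial.C c * Polynomial.X) = c * w := by simp
  rw [h3] at h2
  exact h2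

section

variable {κ : ℂ} {Φ : ∀ L : ℕ, Pat L → (ℕ → ℂ) → ℂ}

theorem prod_deg (κ : ℂ) (N : ℕ) (z : ℕ → ℂ) :
    (∏ j ∈ range N, (Polynomial.C (z j) - Polynomial.C κ * Polynomial.X) ^ 2).natDegree ≤ N * 2 ∧
      (∏ j ∈ range N, (Polynomial.C (z j) - Polynomial.C κ * Polynomial.X) ^ 2).coeff (N * 2) =
        (κ ^ 2) ^ N := by
  have h1 : ∀ j, ((Polynomial.C (z j) - Polynomial.C κ * Polynomial.X) ^ 2).natDegree ≤ 2 := by
    intro j
    have h2 : (Polynomial.C (z j) - Polynomial.C κ * Polynomial.X).natDegree ≤ 1 := by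
      compute_degree
    exact (Polynomial.natDegree_pow_le_of_le 2 h2)
  constructor
  · refine (Polynomial.natDegree_prod_le _ _).trans ?_
    refine (sum_le_sum fun j _ => h1 j).trans ?_
    rw [sum_const, card_range, smul_eq_mul]
  · have h3 := Polynomial.coeff_prod_of_natDegree_le (range N)
      (fun j => (Polynomial.C (z j) - Polynomial.C κ * Polynomial.X) ^ 2) 2 (fun j _ => h1 j)
    rw [card_range] at h3
    rw [h3]
    have h4 : ∀ j, ((Polynomial.C (z j) - Polynomial.C κ * Polynomial.X) ^ 2).coeff 2 = κ ^ 2 := by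
      intro j
      have e : (Polynomial.C (z j) - Polynomial.C κ * Polynomial.X) ^ 2 =
          Polynomial.C (κ ^ 2) * Polynomial.X ^ 2 +
            (Polynomial.C (-2 * z j * κ) * Polynomial.X + Polynomial.C (z j ^ 2)) := by
        simp only [map_mul, map_pow, map_neg, map_ofNat]
        ring
      rw [e, Polynomial.coeff_add, Polynomial.coeff_add, Polynomial.coeff_C_mul_X_pow,
        Polynomial.coeff_C_mul, Polynomial.coeff_X_of_ne_one (by norm_num), Polynomial.coeff_C]
      norm_num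
    rw [prod_congr rfl (fun j _ => h4 j), prod_const, card_range]

/-- The top coefficient of the vector. -/
theorem QP.top (h : QP κ Φ) {N : ℕ} (hN : 2 ≤ N) (z : ℕ → ℂ) :
    ∃ F : Pat (N + 2) → BV,
      (∀ P x y, ev x y (F P) = Φ (N + 2) P (scons x (scons y z))) ∧
      (∀ P, (F P).natDegree ≤ N + 1) ∧
      (∀ P, ((F P).coeff (N + 1)).natDegree ≤ N) ∧
      (κ - 1) • cfv (N + 1) N F = (-κ / 3 ^ N) • (κ ^ 2 • i0 N (vec Φ N z) -
        Sop κ N (i0 N (vec Φ N z))) ∧
      eL (N + 2) 0 (Sop κ N (i0 N (vec Φ N z))) = i0 N (vec Φ N z) := by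
  have hk := h.kk
  have hk3 := h.cube
  have hk0 := h.ne_zero
  set F0 : Pat (N + 2) → BV := h.FB (N + 2) (s0B z) with hF0
  set Fk : ℕ → Pat (N + 2) → BV := fun k => h.FB (N + 2) (arB k z) with hFk
  have evF0 : ∀ P x y, ev x y (F0 P) = Φ (N + 2) P (scons x (scons y z)) := by
    intro P x y
    rw [hF0, h.ev_FB, ev_s0B]
  have evFk : ∀ k P x y, ev x y (Fk k P) = Φ (N + 2) P (ar k x y z) := by
    intro k P x y
    rw [hFk]
    simp only
    rw [h.ev_FB, ev_arB]
  -- degrees
  have degk : ∀ k, 1 ≤ k → k ≤ N + 1 → ∀ P, (Fk k P).natDegree ≤ N + 1 := by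
    intro k hk1 hk2 P
    apply outer_deg
    intro y
    obtain ⟨p, hp, he⟩ := h.poly (N + 2) P (ar k 0 y z) k (by omega)
    refine ⟨p, hp, fun x => ?_⟩
    rw [evFk, ar_update hk1, he]
  have deg0 : ∀ P, (F0 P).natDegree ≤ N + 1 := by
    intro P
    apply outer_deg
    intro y
    obtain ⟨p, hp, he⟩ := h.poly (N + 2) P (scons 0 (scons y z)) 0 (by omega)
    refine ⟨p, hp, fun x => ?_⟩
    rw [evF0, ← he x]
    congr 1
    funext n
    rcases n with _ | n <;> simp [scons, Function.update]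
  have deg1 : ∀ P a, ((F0 P).coeff a).natDegree ≤ N + 1 := by
    intro P a
    apply inner_deg
    intro x
    obtain ⟨p, hp, he⟩ := h.poly (N + 2) P (scons x (scons 0 z)) 1 (by omega)
    refine ⟨p, hp, fun y => ?_⟩
    rw [evF0, ← he y]
    congr 1
    funext n
    rcases n with _ | _ | n <;> simp [scons, Function.update]
  -- swapping the two variables
  have hsw : ∀ P, Fk 1 P = Polynomial.Bivariate.swap (F0 P) := by
    intro P
    apply bv_ext
    intro x y
    rw [evFk, swap_ev, evF0, ar_one]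
  have hsw' : ∀ a b, cfv a b (Fk 1) = cfv b a F0 := by
    intro a b
    funext P
    change cf a b (Fk 1 P) = cf b a (F0 P)
    rw [hsw, swap_cf]
  -- rotation
  have hrot : ∀ P, Fk (N + 1) P = F0 (H56.EX.rot P) := by
    intro P
    apply bv_ext
    intro x y
    rw [evFk, evF0, ← h.rot (N + 2) P (ar (N + 1) x y z)]
    apply h.congr
    intro n hn
    rcases n with _ | _ | n
    · simp [scons, ar]
    · simp [scons, ar]
    · change ar (N + 1) x y z (n + 1) = z n
      unfold ar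
      rw [if_neg (by omega), if_pos (by omega)]
      congr 1
  have hrot' : ∀ a b, cfv a b (Fk (N + 1)) = rI (N + 2) (cfv a b F0) := by
    intro a b
    funext P
    rw [rI_apply]
    change cf a b (Fk (N + 1) P) = cf a b (F0 (H56.EX.rot P))
    rw [hrot]
  -- moving the strand
  have hmove : ∀ a b, (∀ k, 1 ≤ k → k ≤ N + 1 → cfv (a + 1) b (Fk k) = 0) → ∀ m, m ≤ N →
      cfv a b (Fk (N + 1 - m)) = chn κ (N + 2) N m (cfv a b (Fk (N + 1))) := by
    intro a b hz m
    induction m with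
    | zero =>
      intro _
      rfl
    | succ m ih =>
      intro hm
      have ih' := ih (by omega)
      have e1 : N + 1 - m = (N - m) + 1 := by omega
      have e2 : N + 1 - (m + 1) = N - m := by omega
      have hk1 : 1 ≤ N - m := by omega
      rw [e2]
      change _ = tb κ (N + 2) ((N - m : ℕ) : ℤ) (chn κ (N + 2) N m (cfv a b (Fk (N + 1))))
      rw [← ih', e1]
      refine move (w := z (N - m - 1)) hk3 ?_ (hz _ (by omega) (by omega))
        (hz _ (by omega) (by omega))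
      intro P x y
      have hex := h.exch (N + 2) P (ar (N - m + 1) x y z) (N - m) (by omega)
      have a1 : ar (N - m + 1) x y z (N - m + 1) = x := by
        unfold ar
        rw [if_neg (by omega), if_neg (by omega), if_pos rfl]
      have a2 : ar (N - m + 1) x y z (N - m) = z (N - m - 1) := by
        unfold ar
        rw [if_neg (by omega), if_pos (by omega)]
      rw [ar_swap hk1, a1, a2] at hex
      rw [evFk, evFk, eL_eq]
      have a3 : (fun P' => ev x y (Fk (N - m + 1) P')) =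
          fun P' => Φ (N + 2) P' (ar (N - m + 1) x y z) := by
        funext P'
        exact evFk _ _ _ _
      rw [a3]
      exact hex
  have hmove' : ∀ a b, (∀ k, 1 ≤ k → k ≤ N + 1 → cfv (a + 1) b (Fk k) = 0) →
      cfv b a F0 = Sop κ N (cfv a b F0) := by
    intro a b hz
    have h1 := hmove a b hz N le_rfl
    rw [show N + 1 - N = 1 by omega, hsw', hrot'] at h1
    exact h1
  -- the arc recursion
  set u : Pat (N + 2) → ℂ := i0 N (vec Φ N z) with hu
  have harc : ∀ P, (F0 P).eval (Polynomial.C (κ ^ 2) * Polynomial.X) =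
      Polynomial.C (-κ / 3 ^ N * u P) * (Polynomial.X *
        ∏ j ∈ range N, (Polynomial.C (z j) - Polynomial.C κ * Polynomial.X) ^ 2) := by
    intro P
    apply Polynomial.funext
    intro w
    rw [eval_eval, evF0]
    have h1 := congrFun (h.arc_vec hN w z) P
    change Φ (N + 2) P (scons (κ ^ 2 * w) (scons w z)) = _ at h1
    rw [h1]
    simp only [Pi.smul_apply, smul_eq_mul, Polynomial.eval_mul, Polynomial.eval_C,
      Polynomial.eval_X, Polynomial.eval_prod, Polynomial.eval_pow, Polynomial.eval_sub]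
    ring
  have hcoef : ∀ P m, ∑ a ∈ range (N + 1 + 1), (κ ^ 2) ^ a *
      (if a ≤ m + 1 then cf a (m + 1 - a) (F0 P) else 0) = -κ / 3 ^ N * u P *
        (∏ j ∈ range N, (Polynomial.C (z j) - Polynomial.C κ * Polynomial.X) ^ 2).coeff m := by
    intro P m
    rw [← coeff_eval (deg0 P), harc, Polynomial.coeff_C_mul, Polynomial.coeff_X_mul]
  obtain ⟨pd1, pd2⟩ := prod_deg κ N z
  have hcf0 : ∀ P a b, N + 1 < b → cf a b (F0 P) = 0 := by
    intro P a b hb
    exact Polynomial.coeff_eq_zero_of_natDegree_lt (lt_of_le_of_lt (deg1 P a) hb)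
  -- the coefficient `D`
  have hD : cfv (N + 1) (N + 1) F0 = 0 := by
    funext P
    have h1 := hcoef P (2 * N + 1)
    rw [Polynomial.coeff_eq_zero_of_natDegree_lt (lt_of_le_of_lt pd1 (by omega)), mul_zero,
      sum_range_succ, sum_eq_zero, zero_add, if_pos (by omega),
      show 2 * N + 1 + 1 - (N + 1) = N + 1 by omega] at h1
    · rcases mul_eq_zero.mp h1 with h2 | h2
      · exact absurd h2 (pow_ne_zero _ (pow_ne_zero _ hk0))
      · exact h2
    · intro a ha
      have ha' := mem_range.mp ha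
      rw [if_pos (by omega), hcf0 P a _ (by omega), mul_zero]
  -- the sum rule
  have hsum : κ ^ 2 • cfv (N + 1) N F0 + cfv N (N + 1) F0 = (-κ / 3 ^ N) • u := by
    funext P
    have h1 := hcoef P (N * 2)
    rw [pd2, sum_range_succ, sum_range_succ, sum_eq_zero, zero_add, if_pos (by omega),
      if_pos (by omega), show N * 2 + 1 - (N + 1) = N by omega,
      show N * 2 + 1 - N = N + 1 by omega] at h1
    · have h2 : (κ ^ 2) ^ N ≠ 0 := pow_ne_zero _ (pow_ne_zero _ hk0)
      apply mul_left_cancel₀ h2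
      simp only [Pi.add_apply, Pi.smul_apply, smul_eq_mul]
      change (κ ^ 2) ^ N * (κ ^ 2 * cf (N + 1) N (F0 P) + cf N (N + 1) (F0 P)) = _
      rw [pow_succ] at h1
      linear_combination h1
    · intro a ha
      have ha' := mem_range.mp ha
      rw [if_pos (by omega), hcf0 P a _ (by omega), mul_zero]
  -- vanishing of the coefficients
  have hz1 : ∀ b k, 1 ≤ k → k ≤ N + 1 → cfv (N + 1 + 1) b (Fk k) = 0 := by
    intro b k h1 h2
    funext P
    change ((Fk k P).coeff (N + 1 + 1)).coeff b = 0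
    rw [Polynomial.coeff_eq_zero_of_natDegree_lt (lt_of_le_of_lt (degk k h1 h2 P) (by omega))]
    simp
  have hz2 : ∀ k, 1 ≤ k → k ≤ N + 1 → cfv (N + 1) (N + 1) (Fk k) = 0 := by
    intro k h1 h2
    have h3 := hmove (N + 1) (N + 1) (hz1 _) (N + 1 - k) (by omega)
    rw [show N + 1 - (N + 1 - k) = k by omega, hrot', hD, map_zero, map_zero] at h3
    exact h3
  have hC1 : cfv N (N + 1) F0 = Sop κ N (cfv (N + 1) N F0) := hmove' (N + 1) N (hz1 _)
  have hC0 : cfv (N + 1) N F0 = Sop κ N (cfv N (N + 1) F0) := hmove' N (N + 1) hz2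
  -- symmetry after applying `e_0`
  have hsym : eL (N + 2) 0 (cfv (N + 1) N F0) = eL (N + 2) 0 (cfv N (N + 1) F0) := by
    have h1 : ∀ P, eB 0 (Fk 1) P = eB 0 F0 P := by
      intro P
      have h2 : (Polynomial.C (Polynomial.C κ) * Polynomial.C Polynomial.X -
          Polynomial.C (Polynomial.C (κ ^ 2)) * Polynomial.X) *
          (eB 0 (Fk 1) P - eB 0 F0 P) = 0 := by
        apply bv_zero
        intro x y
        have h3 := h.exch_vec (N + 2) (scons x (scons y z)) 0 (by omega)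
        rw [zero_add, scons_swap01] at h3
        have h4 := congrArg (fun v => eL (N + 2) 0 v P) h3
        simp only [map_add, map_smul] at h4
        have e0 : (((0 : ℕ) : ℤ)) = 0 := rfl
        rw [e0, eL_idem] at h4
        simp only [Pi.add_apply, Pi.smul_apply, smul_eq_mul, scons] at h4
        rw [map_mul, map_sub, map_sub, map_mul, map_mul, ev_CC, ev_CC, ev_CX, ev_X, ev_eB, ev_eB]
        have e1 : (fun P' => ev x y (Fk 1 P')) = vec Φ (N + 2) (scons y (scons x z)) := by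
          funext P'
          rw [evFk, ar_one]
          rfl
        have e2 : (fun P' => ev x y (F0 P')) = vec Φ (N + 2) (scons x (scons y z)) := by
          funext P'
          rw [evF0]
          rfl
        rw [e1, e2]
        linear_combination h4 + (x - y) *
          (eL (N + 2) 0 (vec Φ (N + 2) (scons x (scons y z))) P) * hk
      rcases mul_eq_zero.mp h2 with h3 | h3
      · exfalso
        have h4 := congrArg (ev 0 1) h3
        rw [map_sub, map_mul, map_mul, ev_CC, ev_CC, ev_CX, ev_X, map_zero] at h4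
        apply hk0
        linear_combination h4
      · exact sub_eq_zero.mp h3
    funext P
    rw [← cf_eB, ← h1 P, cf_eB, hsw']
  refine ⟨F0, evF0, deg0, ?_, ?_, ?_⟩
  · intro P
    rw [Polynomial.natDegree_le_iff_coeff_eq_zero]
    intro b hb
    rcases Nat.lt_or_ge (N + 1) b with h1 | h1
    · exact hcf0 P _ _ h1
    · have : b = N + 1 := by omega
      rw [this]
      exact congrFun hD P
  · have h1 : (-κ / 3 ^ N) • Sop κ N u = κ ^ 2 • cfv N (N + 1) F0 + cfv (N + 1) N F0 := by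
      rw [← map_smul, ← hsum, map_add, map_smul, ← hC1, ← hC0]
    rw [smul_sub, h1, smul_comm, ← hsum]
    funext P
    simp only [Pi.add_apply, Pi.sub_apply, Pi.smul_apply, smul_eq_mul]
    linear_combination (-(κ * cfv (N + 1) N F0 P)) * hk3
  · have h1 : (-κ / 3 ^ N) • Sop κ N u = κ ^ 2 • cfv N (N + 1) F0 + cfv (N + 1) N F0 := by
      rw [← map_smul, ← hsum, map_add, map_smul, ← hC1, ← hC0]
    have h2 := congrArg (eL (N + 2) 0) h1
    have h3 := congrArg (eL (N + 2) 0) hsum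
    rw [map_smul, eL_i0, map_add, map_smul, hsym] at h3
    rw [map_smul, map_add, map_smul, hsym, h3] at h2
    have h4 : (-κ / 3 ^ N : ℂ) ≠ 0 :=
      div_ne_zero (neg_ne_zero.mpr hk0) (pow_ne_zero _ (by norm_num))
    exact smul_right_injective _ h4 h2

end

end Pool.Agent.H15.Exact

end

section

/-!
# Project EXACT, one-arm formula: the top coefficient of the pairing
-/

set_option autoImplicit false

open Finset

namespace Pool.Agent.H15.Exact

open H56.EX
open scoped Classical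

variable {κ τ : ℂ} {Φ Φ' : ∀ L : ℕ, Pat L → (ℕ → ℂ) → ℂ} {W : ∀ L : ℕ, Pat L → Pat L → ℂ}

theorem chn_adj (hk : κ ^ 2 + κ + 1 = 0) {N : ℕ} {V : Pat (N + 2) → Pat (N + 2) → ℂ}
    (hadj : ∀ i : ℤ, 0 ≤ i → i + 1 < (N + 2 : ℕ) → ∀ P Q, V (E i P) Q = V P (E i Q))
    (a b : Pat (N + 2) → ℂ) : ∀ m, m ≤ N →
    bf V (chn (κ ^ 2) (N + 2) N m a) (chn κ (N + 2) N m b) = bf V a b := by
  intro m
  induction m with
  | zero =>
    intro _
    rfl
  | succ m ih =>
    intro hm
    rw [← ih (by omega)]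
    change bf V (tb (κ ^ 2) (N + 2) ((N - m : ℕ) : ℤ) (chn (κ ^ 2) (N + 2) N m a))
      (tb κ (N + 2) ((N - m : ℕ) : ℤ) (chn κ (N + 2) N m b)) = _
    set a' := chn (κ ^ 2) (N + 2) N m a
    set b' := chn κ (N + 2) N m b
    set i : ℤ := ((N - m : ℕ) : ℤ) with hi
    have hadj' : ∀ c d : Pat (N + 2) → ℂ, bf V (eL (N + 2) i c) d = bf V c (eL (N + 2) i d) :=
      fun c d => bf_eL (fun P Q => hadj i (by omega) (by omega) P Q) c d
    rw [tb_apply, tb_apply]
    simp only [map_neg, map_add, map_smul, LinearMap.add_apply, LinearMap.neg_apply,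
      LinearMap.smul_apply, smul_eq_mul, hadj', eL_idem, neg_add_rev]
    have hk3 : κ ^ 3 = 1 := by linear_combination (κ - 1) * hk
    linear_combination (bf V a' b' + (1 + κ + κ ^ 2 + κ ^ 3) * bf V a' (eL (N + 2) i b')) * hk3 +
      bf V a' (eL (N + 2) i b') * hk

theorem top_form (h : QP κ Φ) (hW : FormProps τ W) {N : ℕ} (z : ℕ → ℂ)
    {C C' : Pat (N + 2) → ℂ}
    (e1 : (κ - 1) • C = (-κ / 3 ^ N) • (κ ^ 2 • i0 N (vec Φ N z) -
        Sop κ N (i0 N (vec Φ N z))))
    (e2 : eL (N + 2) 0 (Sop κ N (i0 N (vec Φ N z))) = i0 N (vec Φ N z))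
    (e1' : (κ ^ 2 - 1) • C' = (-κ ^ 2 / 3 ^ N) • ((κ ^ 2) ^ 2 • i0 N (vec Φ' N z) -
        Sop (κ ^ 2) N (i0 N (vec Φ' N z))))
    (e2' : eL (N + 2) 0 (Sop (κ ^ 2) N (i0 N (vec Φ' N z))) = i0 N (vec Φ' N z)) :
    bf (W (N + 2)) C' C = (τ + 2) / (3 * 9 ^ N) * Gv W Φ' Φ N z := by
  have hk := h.kk
  have hk3 := h.cube
  have hk4 : κ ^ 4 = κ := by linear_combination κ * hk3
  set B := bf (W (N + 2)) with hB
  set u := i0 N (vec Φ N z) with hu
  set u' := i0 N (vec Φ' N z) with hu'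
  set v := Sop κ N u with hv
  set v' := Sop (κ ^ 2) N u' with hv'
  have hadj : ∀ i : ℤ, 0 ≤ i → i + 1 < (N + 2 : ℕ) → ∀ P Q : Pat (N + 2),
      W (N + 2) (E i P) Q = W (N + 2) P (E i Q) := fun i h0 h1 P Q => hW.adj (N + 2) i h0 h1 P Q
  have hadj0 : ∀ c d : Pat (N + 2) → ℂ, B (eL (N + 2) 0 c) d = B c (eL (N + 2) 0 d) :=
    fun c d => bf_eL (fun P Q => hadj 0 (by omega) (by omega) P Q) c d
  have g1 : B u' u = Gv W Φ' Φ N z := bf_i0 hW _ _
  have g2 : B v' v = τ * Gv W Φ' Φ N z := by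
    have h1 : B v' v = B (rI (N + 2) u') (rI (N + 2) u) :=
      chn_adj hk hadj _ _ N le_rfl
    rw [h1]
    exact bf_rI_i0 hW _ _
  have g3 : B u' v = Gv W Φ' Φ N z := by
    rw [← g1]
    conv_lhs => rw [hu', ← eL_i0, hadj0, e2]
  have g4 : B v' u = Gv W Φ' Φ N z := by
    rw [← g1]
    conv_lhs => rw [hu, ← eL_i0, ← hadj0, e2']
  have h2 := congrArg₂ (fun a b => B a b) e1' e1
  simp only [map_sub, map_smul, LinearMap.sub_apply, LinearMap.smul_apply, smul_eq_mul, g1, g2,
    g3, g4] at h2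
  have h9 : (9 : ℂ) ^ N = 3 ^ N * 3 ^ N := by
    rw [← mul_pow]; norm_num
  obtain ⟨t, ht⟩ : ∃ t : ℂ, t = (3 ^ N)⁻¹ := ⟨_, rfl⟩
  rw [h9]
  simp only [div_eq_mul_inv, mul_inv, ← ht] at h2 ⊢
  linear_combination (1 / 3) * h2 - (1 / 3) * B C' C * (hk3 - hk) +
    (1 / 3) * t ^ 2 * Gv W Φ' Φ N z *
      ((τ + κ ^ 6 + κ ^ 3 + 1 - κ ^ 4 - κ - κ ^ 2) * hk3 - hk)

/-- The top coefficient of the pairing. -/
theorem G_top (h : QP κ Φ) (h' : QP (κ ^ 2) Φ') (hW : FormProps τ W) {N : ℕ} (hN : 2 ≤ N)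
    (z : ℕ → ℂ) : ∃ p : BV,
      (∀ x y, ev x y p = Gv W Φ' Φ (N + 2) (scons x (scons y z))) ∧
      p.natDegree ≤ 2 * (N + 1) ∧ (p.coeff (2 * (N + 1))).natDegree ≤ 2 * N ∧
      (p.coeff (2 * (N + 1))).coeff (2 * N) = (τ + 2) / (3 * 9 ^ N) * Gv W Φ' Φ N z := by
  obtain ⟨F, hF1, hF2, hF3, hF4, hF5⟩ := h.top hN z
  obtain ⟨F', hF1', hF2', hF3', hF4', hF5'⟩ := h'.top hN z
  have hc : ∀ P Q, (Polynomial.C (Polynomial.C (W (N + 2) P Q)) * (F' P * F Q)).coeff
      (2 * (N + 1)) = Polynomial.C (W (N + 2) P Q) *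
        ((F' P).coeff (N + 1) * (F Q).coeff (N + 1)) := by
    intro P Q
    rw [Polynomial.coeff_C_mul, two_mul,
      Polynomial.coeff_mul_add_eq_of_natDegree_le (hF2' P) (hF2 Q)]
  have hc2 : ∀ P Q, (Polynomial.C (W (N + 2) P Q) *
      ((F' P).coeff (N + 1) * (F Q).coeff (N + 1))).coeff (2 * N) =
        W (N + 2) P Q * (cfv (N + 1) N F' P * cfv (N + 1) N F Q) := by
    intro P Q
    rw [Polynomial.coeff_C_mul, two_mul,
      Polynomial.coeff_mul_add_eq_of_natDegree_le (hF3' P) (hF3 Q)]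
    rfl
  refine ⟨∑ P, ∑ Q, Polynomial.C (Polynomial.C (W (N + 2) P Q)) * (F' P * F Q), ?_, ?_, ?_, ?_⟩
  · intro x y
    unfold Gv
    rw [bf_apply, map_sum]
    refine sum_congr rfl fun P _ => ?_
    rw [map_sum]
    refine sum_congr rfl fun Q _ => ?_
    rw [map_mul, map_mul, ev_CC, hF1, hF1']
    rfl
  · apply Polynomial.natDegree_sum_le_of_forall_le
    intro P _
    apply Polynomial.natDegree_sum_le_of_forall_le
    intro Q _
    refine (Polynomial.natDegree_C_mul_le _ _).trans (Polynomial.natDegree_mul_le.trans ?_)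
    have := hF2 Q
    have := hF2' P
    omega
  · rw [Polynomial.finsetSum_coeff]
    apply Polynomial.natDegree_sum_le_of_forall_le
    intro P _
    rw [Polynomial.finsetSum_coeff]
    apply Polynomial.natDegree_sum_le_of_forall_le
    intro Q _
    rw [hc]
    refine (Polynomial.natDegree_C_mul_le _ _).trans (Polynomial.natDegree_mul_le.trans ?_)
    have := hF3 Q
    have := hF3' P
    omega
  · have h1 := top_form h hW z hF4 hF5 hF4' hF5'
    rw [← h1, bf_apply, Polynomial.finsetSum_coeff, Polynomial.finsetSum_coeff]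
    refine sum_congr rfl fun P _ => ?_
    rw [Polynomial.finsetSum_coeff, Polynomial.finsetSum_coeff]
    refine sum_congr rfl fun Q _ => ?_
    rw [hc, hc2]

end Pool.Agent.H15.Exact

end

section

/-!
# Project EXACT, one-arm formula: two strands
-/

set_option autoImplicit false

open Finset

namespace Pool.Agent.H15.Exact

open H56.EX
open scoped Classical

/-- the pattern joining `0` and `1` -/
def patA : Pat 2 where
  m := fun x => if x % 2 = 0 then x + 1 else x - 1
  inv := fun x => by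
    show (if (if x % 2 = 0 then x + 1 else x - 1) % 2 = 0 then
      (if x % 2 = 0 then x + 1 else x - 1) + 1 else (if x % 2 = 0 then x + 1 else x - 1) - 1) = x
    split_ifs <;> omega
  per := fun x => by
    show (if (x + ((2 : ℕ) : ℤ)) % 2 = 0 then (x + ((2 : ℕ) : ℤ)) + 1 else
      (x + ((2 : ℕ) : ℤ)) - 1) = (if x % 2 = 0 then x + 1 else x - 1) + ((2 : ℕ) : ℤ)
    split_ifs <;> omega
  ne := fun x => by
    show (if x % 2 = 0 then x + 1 else x - 1) ≠ x
    split_ifs <;> omega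
  short := fun x => by
    show |(if x % 2 = 0 then x + 1 else x - 1) - x| < ((2 : ℕ) : ℤ)
    split_ifs
    · rw [show x + 1 - x = 1 by ring]; norm_num
    · rw [show x - 1 - x = -1 by ring]; norm_num
  nc := fun x y h1 h2 => by
    exfalso
    change y < (if x % 2 = 0 then x + 1 else x - 1) at h2
    split_ifs at h2 <;> omega

/-- the pattern joining `-1` and `0` -/
def patB : Pat 2 := rot patA

theorem patA_zero : patA.m 0 = 1 := rfl

theorem patB_zero : patB.m 0 = -1 := rfl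

theorem two_cases (P : Pat 2) : P.m 0 = 1 ∨ P.m 0 = -1 := by
  have h1 := P.short 0
  have h2 := P.ne 0
  rw [sub_zero, abs_lt] at h1
  obtain ⟨h3, h4⟩ := h1
  push_cast at h3 h4
  omega

theorem two_one {P : Pat 2} (h : P.m 0 = 1) : P.m 1 = 0 := by
  rw [← h, P.inv]

theorem two_one' {P : Pat 2} (h : P.m 0 = -1) : P.m 1 = 2 := by
  have h1 : P.m (-1) = 0 := m_neg_one_of h
  have h2 := P.per (-1)
  rw [h1] at h2
  norm_num at h2
  exact h2

theorem eq_patA {P : Pat 2} (h : P.m 0 = 1) : P = patA := by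
  apply Pat.ext_Ico
  intro x h0 h1
  have hx : x = 0 ∨ x = 1 := by push_cast at h1; omega
  rcases hx with rfl | rfl
  · rw [h, patA_zero]
  · rw [two_one h, two_one patA_zero]

theorem eq_patB {P : Pat 2} (h : P.m 0 = -1) : P = patB := by
  apply Pat.ext_Ico
  intro x h0 h1
  have hx : x = 0 ∨ x = 1 := by push_cast at h1; omega
  rcases hx with rfl | rfl
  · rw [h, patB_zero]
  · rw [two_one' h, two_one' patB_zero]

theorem patA_ne : patA ≠ patB := by
  intro h
  have := congrArg (fun P : Pat 2 => P.m 0) h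
  simp only [patA_zero, patB_zero] at this
  norm_num at this

theorem sum_two (f : Pat 2 → ℂ) : ∑ P, f P = f patA + f patB := by
  have h : (univ : Finset (Pat 2)) = {patA, patB} := by
    ext P
    simp only [mem_univ, mem_insert, mem_singleton, true_iff]
    rcases two_cases P with h | h
    · left; exact eq_patA h
    · right; exact eq_patB h
  rw [h, sum_pair patA_ne]

variable {κ τ : ℂ} {Φ Φ' : ∀ L : ℕ, Pat L → (ℕ → ℂ) → ℂ} {W : ∀ L : ℕ, Pat L → Pat L → ℂ}

theorem Gv_two (h : QP κ Φ) (h' : QP (κ ^ 2) Φ') (hW : FormProps τ W) (s : ℕ → ℂ) :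
    Gv W Φ' Φ 2 s = (s 0 + s 1) ^ 2 + (τ - 1) * (s 0 ^ 2 + s 0 * s 1 + s 1 ^ 2) / 3 := by
  have hk := h.kk
  have hk3 := h.cube
  have hk4 : κ ^ 4 = κ := by linear_combination κ * hk3
  have hne : κ - κ ^ 2 ≠ 0 := by
    intro h0
    have : κ * (1 - κ) = 0 := by linear_combination h0
    rcases mul_eq_zero.mp this with h1 | h1
    · exact h.ne_zero h1
    · exact h.ne_one (by linear_combination -h1)
  have hd : (κ - κ ^ 2) ^ 2 = -3 := by linear_combination (κ ^ 2 - 3 * κ + 3) * hk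
  unfold Gv
  rw [bf_apply, sum_two, sum_two, sum_two]
  rw [hW.two_left _ _ patA_zero, hW.two_left _ _ patA_zero, hW.two_right _ _ patA_zero,
    hW.two_base _ _ patB_zero patB_zero]
  unfold vec
  rw [h.two_other _ s patA_zero, h.two_base _ s patB_zero, h'.two_other _ s patA_zero,
    h'.two_base _ s patB_zero]
  have e1 : (κ ^ 2) ^ 2 = κ := by rw [← pow_mul]; exact hk4
  rw [e1]
  set x := s 0
  set y := s 1
  have e2 : (κ ^ 2 * x - κ * y) / (κ ^ 2 - κ) = (κ * y - κ ^ 2 * x) / (κ - κ ^ 2) := by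
    rw [← neg_div_neg_eq]
    congr 1 <;> ring
  have e3 : (κ ^ 2 * y - κ * x) / (κ ^ 2 - κ) = (κ * x - κ ^ 2 * y) / (κ - κ ^ 2) := by
    rw [← neg_div_neg_eq]
    congr 1 <;> ring
  have e4 : (κ * x - κ ^ 2 * y) / (κ - κ ^ 2) + (κ * y - κ ^ 2 * x) / (κ - κ ^ 2) = x + y := by
    rw [← add_div, div_eq_iff hne]
    ring
  have e5 : (κ * x - κ ^ 2 * y) / (κ - κ ^ 2) * ((κ * y - κ ^ 2 * x) / (κ - κ ^ 2)) =
      (x ^ 2 + x * y + y ^ 2) / 3 := by
    rw [div_mul_div_comm, ← sq, hd]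
    have : (κ * x - κ ^ 2 * y) * (κ * y - κ ^ 2 * x) = -(x ^ 2 + x * y + y ^ 2) := by
      linear_combination (x * y * (κ ^ 2 - κ + 1) - (κ - 1) * (x ^ 2 + y ^ 2)) * hk
    rw [this, neg_div_neg_eq]
  rw [e2, e3]
  set A := (κ * x - κ ^ 2 * y) / (κ - κ ^ 2)
  set B := (κ * y - κ ^ 2 * x) / (κ - κ ^ 2)
  rw [← e4]
  linear_combination (τ - 1) * e5

end Pool.Agent.H15.Exact

end

section

/-!
# Project EXACT, one-arm formula: the pairing as a symmetric polynomial, and its value at `1`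
-/

set_option autoImplicit false

open Finset

namespace Pool.Agent.H15.Exact

open H56.EX
open scoped Classical

variable {κ τ : ℂ} {Φ Φ' : ∀ L : ℕ, Pat L → (ℕ → ℂ) → ℂ} {W : ∀ L : ℕ, Pat L → Pat L → ℂ}

/-- the components as multivariate polynomials -/
noncomputable def QP.pol (h : QP κ Φ) (L : ℕ) (P : Pat L) : MvPolynomial (Fin L) ℂ :=
  Classical.choose (h.mv L P)

theorem QP.eval_pol (h : QP κ Φ) (L : ℕ) (P : Pat L) (s : ℕ → ℂ) :
    MvPolynomial.eval (fun k : Fin L => s k) (h.pol L P) = Φ L P s :=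
  (Classical.choose_spec (h.mv L P) s).symm

/-- the pairing as a polynomial -/
noncomputable def GP (h : QP κ Φ) (h' : QP (κ ^ 2) Φ') (W : ∀ L : ℕ, Pat L → Pat L → ℂ)
    (L : ℕ) : MvPolynomial (Fin L) ℂ :=
  ∑ P, ∑ Q, MvPolynomial.C (W L P Q) * (h'.pol L P * h.pol L Q)

theorem eval_GP (h : QP κ Φ) (h' : QP (κ ^ 2) Φ') (L : ℕ) (s : ℕ → ℂ) :
    MvPolynomial.eval (fun k : Fin L => s k) (GP h h' W L) = Gv W Φ' Φ L s := by
  unfold GP Gv
  rw [map_sum, bf_apply]
  refine sum_congr rfl fun P _ => ?_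
  rw [map_sum]
  refine sum_congr rfl fun Q _ => ?_
  rw [map_mul, map_mul, MvPolynomial.eval_C, h.eval_pol, h'.eval_pol]
  rfl

/-- extension of a finite sequence -/
noncomputable def ex (L : ℕ) (z : Fin L → ℂ) : ℕ → ℂ := fun n => if h : n < L then z ⟨n, h⟩ else 0

theorem ex_fin (L : ℕ) (z : Fin L → ℂ) : (fun k : Fin L => ex L z k) = z := by
  funext k
  unfold ex
  rw [dif_pos k.2]

theorem eval_GP' (h : QP κ Φ) (h' : QP (κ ^ 2) Φ') (L : ℕ) (z : Fin L → ℂ) :
    MvPolynomial.eval z (GP h h' W L) = Gv W Φ' Φ L (ex L z) := by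
  rw [← eval_GP h h', ex_fin]

theorem ex_comp_swap (L : ℕ) (z : Fin L → ℂ) (n : ℕ) (hn : n + 1 < L) :
    z ∘ Equiv.swap (⟨n, by omega⟩ : Fin L) ⟨n + 1, hn⟩ =
      fun k : Fin L => (ex L z ∘ Equiv.swap n (n + 1)) k := by
  funext k
  simp only [Function.comp_apply]
  by_cases h1 : k = ⟨n, by omega⟩
  · subst h1
    rw [Equiv.swap_apply_left, Equiv.swap_apply_left]
    unfold ex
    rw [dif_pos hn]
  by_cases h2 : k = ⟨n + 1, hn⟩
  · subst h2
    rw [Equiv.swap_apply_right, Equiv.swap_apply_right]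
    unfold ex
    rw [dif_pos]
  · rw [Equiv.swap_apply_of_ne_of_ne h1 h2, Equiv.swap_apply_of_ne_of_ne]
    · unfold ex
      rw [dif_pos k.2]
    · intro h
      exact h1 (Fin.ext h)
    · intro h
      exact h2 (Fin.ext h)

theorem GP_swap (h : QP κ Φ) (h' : QP (κ ^ 2) Φ') (hW : FormProps τ W) (L : ℕ) (n : ℕ)
    (hn : n + 1 < L) (z : Fin L → ℂ) :
    MvPolynomial.eval (z ∘ Equiv.swap (⟨n, by omega⟩ : Fin L) ⟨n + 1, hn⟩) (GP h h' W L) =
      MvPolynomial.eval z (GP h h' W L) := by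
  set i : Fin L := ⟨n, by omega⟩ with hi
  set j : Fin L := ⟨n + 1, hn⟩ with hj
  set σ := Equiv.swap i j with hσ
  have hij : i ≠ j := by
    intro h0
    have := congrArg Fin.val h0
    simp [hi, hj] at this
  have h1 : ((MvPolynomial.C κ * MvPolynomial.X j - MvPolynomial.C (κ ^ 2) * MvPolynomial.X i) *
      (MvPolynomial.C κ * MvPolynomial.X i - MvPolynomial.C (κ ^ 2) * MvPolynomial.X j)) *
      (MvPolynomial.rename σ (GP h h' W L) - GP h h' W L) = 0 := by
    apply MvPolynomial.funext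
    intro z
    rw [map_mul, map_mul, map_sub, map_sub, map_sub, map_mul, map_mul, map_mul, map_mul,
      MvPolynomial.eval_C, MvPolynomial.eval_C, MvPolynomial.eval_X, MvPolynomial.eval_X,
      MvPolynomial.eval_rename, map_zero]
    have e1 : MvPolynomial.eval (z ∘ σ) (GP h h' W L) =
        Gv W Φ' Φ L (ex L z ∘ Equiv.swap n (n + 1)) := by
      rw [hσ, ex_comp_swap L z n hn]
      exact eval_GP h h' L _
    rw [e1, eval_GP' h h' L z]
    have e2 := Gv_swap h h' hW L (ex L z) n hn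
    have e3 : ex L z n = z i := by unfold ex; rw [dif_pos]
    have e4 : ex L z (n + 1) = z j := by unfold ex; rw [dif_pos]
    rw [e3, e4] at e2
    exact e2
  have h2 : MvPolynomial.rename σ (GP h h' W L) - GP h h' W L = 0 := by
    rcases mul_eq_zero.mp h1 with h3 | h3
    · exfalso
      rcases mul_eq_zero.mp h3 with h4 | h4
      · have h5 := congrArg (MvPolynomial.eval (Function.update (fun _ => (0 : ℂ)) j 1)) h4
        rw [map_sub, map_mul, map_mul, MvPolynomial.eval_C, MvPolynomial.eval_C,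
          MvPolynomial.eval_X, MvPolynomial.eval_X, Function.update_self,
          Function.update_of_ne hij, map_zero] at h5
        exact h.ne_zero (by linear_combination h5)
      · have h5 := congrArg (MvPolynomial.eval (Function.update (fun _ => (0 : ℂ)) i 1)) h4
        rw [map_sub, map_mul, map_mul, MvPolynomial.eval_C, MvPolynomial.eval_C,
          MvPolynomial.eval_X, MvPolynomial.eval_X, Function.update_self,
          Function.update_of_ne hij.symm, map_zero] at h5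
        exact h.ne_zero (by linear_combination h5)
    · exact h3
  have h3 := congrArg (MvPolynomial.eval z) h2
  rw [map_sub, MvPolynomial.eval_rename, map_zero] at h3
  exact sub_eq_zero.mp h3

theorem GP_perm (h : QP κ Φ) (h' : QP (κ ^ 2) Φ') (hW : FormProps τ W) :
    ∀ (L : ℕ) (σ : Equiv.Perm (Fin L)) (z : Fin L → ℂ),
    MvPolynomial.eval (z ∘ σ) (GP h h' W L) = MvPolynomial.eval z (GP h h' W L) := by
  intro L
  rcases L with _ | m
  · intro σ z
    congr 2
    funext k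
    exact k.elim0
  · intro σ
    have hσ : σ ∈ Submonoid.closure (Set.range fun i : Fin m => Equiv.swap i.castSucc i.succ) := by
      rw [Equiv.Perm.mclosure_swap_castSucc_succ]
      trivial
    induction hσ using Submonoid.closure_induction with
    | mem x hx =>
      obtain ⟨i, rfl⟩ := hx
      intro z
      exact GP_swap h h' hW (m + 1) i (by omega) z
    | one =>
      intro z
      rfl
    | mul a b _ _ ha hb =>
      intro z
      have : z ∘ (a * b : Equiv.Perm (Fin (m + 1))) = (z ∘ a) ∘ b := rfl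
      rw [this, hb, ha]

/-- the normalising constants -/
noncomputable def cc : ℕ → ℂ
  | 0 => 1
  | n + 1 => 3 * 81 ^ n * cc n

theorem cc_eq (n : ℕ) : cc n = 3 ^ (n * (2 * n - 1)) := by
  induction n with
  | zero => simp [cc]
  | succ n ih =>
    rw [cc, ih]
    have e1 : (81 : ℂ) ^ n = 3 ^ (4 * n) := by
      rw [pow_mul]; norm_num
    rw [e1, ← pow_succ', ← pow_add]
    congr 1
    rcases n with _ | n
    · rfl
    · have a1 : 2 * (n + 1) - 1 = 2 * n + 1 := by omega
      have a2 : 2 * (n + 1 + 1) - 1 = 2 * n + 3 := by omega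
      rw [a1, a2]
      ring

/-- the normalised family of polynomials -/
noncomputable def GG (h : QP κ Φ) (h' : QP (κ ^ 2) Φ') (W : ∀ L : ℕ, Pat L → Pat L → ℂ) :
    (n : ℕ) → MvPolynomial (Fin (2 * n)) ℂ
  | 0 => 1
  | n + 1 => MvPolynomial.C (cc (n + 1)) * GP h h' W (2 * (n + 1))

theorem scons_cons (N : ℕ) (a b : ℂ) (z : Fin N → ℂ) :
    (fun k : Fin (N + 2) => scons a (scons b (ex N z)) k) =
      (Fin.cons a (Fin.cons b z : Fin (N + 1) → ℂ) : Fin (N + 2) → ℂ) := by
  funext k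
  refine Fin.cases rfl (fun k => ?_) k
  refine Fin.cases rfl (fun k => ?_) k
  change ex N z k = z k
  unfold ex
  rw [dif_pos k.2]

theorem GG_wheel (h : QP κ Φ) (h' : QP (κ ^ 2) Φ') (hW : FormProps τ W) (n : ℕ) (w : ℂ)
    (z : Fin (2 * n) → ℂ) :
    MvPolynomial.eval (Fin.cons (κ ^ 2 * w) (Fin.cons w z : Fin (2 * n + 1) → ℂ)
        : Fin (2 * n + 2) → ℂ) (GG h h' W (n + 1))
      = 3 * 1 * κ ^ 2 * w ^ 2 * (∏ j, (z j - κ * w) ^ 4) *
        MvPolynomial.eval z (GG h h' W n) := by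
  have hk := h.kk
  have e1 : MvPolynomial.eval (Fin.cons (κ ^ 2 * w) (Fin.cons w z : Fin (2 * n + 1) → ℂ)
        : Fin (2 * n + 2) → ℂ) (GG h h' W (n + 1)) =
      cc (n + 1) * Gv W Φ' Φ (2 * n + 2) (scons (κ ^ 2 * w) (scons w (ex (2 * n) z))) := by
    rw [← scons_cons, ← eval_GP h h']
    change MvPolynomial.eval _ (MvPolynomial.C (cc (n + 1)) * GP h h' W (2 * (n + 1))) = _
    rw [map_mul, MvPolynomial.eval_C]
    rfl
  rw [e1]
  rcases n with _ | n
  · rw [show 2 * 0 + 2 = 2 from rfl, Gv_two h h' hW]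
    have e2 : (∏ j : Fin (2 * 0), (z j - κ * w) ^ 4) = 1 := Fin.prod_univ_zero _
    rw [e2]
    change _ = _ * MvPolynomial.eval z 1
    rw [map_one, cc, cc]
    simp only [scons]
    linear_combination (3 * w ^ 2 * (κ ^ 2 - κ + 1) + (τ - 1) * w ^ 2 * (κ ^ 2 - κ + 1)) * hk
  · rw [Gv_wheel h h' hW (by omega)]
    have e2 : MvPolynomial.eval z (GG h h' W (n + 1)) =
        cc (n + 1) * Gv W Φ' Φ (2 * (n + 1)) (ex (2 * (n + 1)) z) := by
      rw [← eval_GP' h h']
      change MvPolynomial.eval z (MvPolynomial.C (cc (n + 1)) * GP h h' W (2 * (n + 1))) = _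
      rw [map_mul, MvPolynomial.eval_C]
    have e3 : ∏ j ∈ Finset.range (2 * (n + 1)), (ex (2 * (n + 1)) z j - κ * w) ^ 4 =
        ∏ j, (z j - κ * w) ^ 4 := by
      rw [Finset.prod_range]
      refine prod_congr rfl fun j _ => ?_
      unfold ex
      rw [dif_pos j.2]
    rw [e2, e3, cc]
    have e4 : (9 : ℂ) ^ (2 * (n + 1)) = 81 ^ (n + 1) := by
      rw [pow_mul]; norm_num
    rw [e4]
    have e5 : (81 : ℂ) ^ (n + 1) ≠ 0 := pow_ne_zero _ (by norm_num)
    field_simp

theorem GG_top (h : QP κ Φ) (h' : QP (κ ^ 2) Φ') (hW : FormProps τ W) (n : ℕ)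
    (z : Fin (2 * n) → ℂ) : ∃ p : Polynomial (Polynomial ℂ),
      p.natDegree ≤ 2 * (2 * n + 1) ∧ (p.coeff (2 * (2 * n + 1))).natDegree ≤ 2 * (2 * n) ∧
      (p.coeff (2 * (2 * n + 1))).coeff (2 * (2 * n)) =
        1 * (τ + 2) * MvPolynomial.eval z (GG h h' W n) ∧
      ∀ x y : ℂ, (p.eval (Polynomial.C x)).eval y = MvPolynomial.eval
        (Fin.cons x (Fin.cons y z : Fin (2 * n + 1) → ℂ) : Fin (2 * n + 2) → ℂ)
          (GG h h' W (n + 1)) := by
  have e1 : ∀ x y : ℂ, MvPolynomial.eval (Fin.cons x (Fin.cons y z : Fin (2 * n + 1) → ℂ)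
        : Fin (2 * n + 2) → ℂ) (GG h h' W (n + 1)) =
      cc (n + 1) * Gv W Φ' Φ (2 * n + 2) (scons x (scons y (ex (2 * n) z))) := by
    intro x y
    rw [← scons_cons, ← eval_GP h h']
    change MvPolynomial.eval _ (MvPolynomial.C (cc (n + 1)) * GP h h' W (2 * (n + 1))) = _
    rw [map_mul, MvPolynomial.eval_C]
    rfl
  rcases n with _ | n
  · have hc : (Polynomial.C (Polynomial.C (τ + 2)) * Polynomial.X ^ 2 +
      (Polynomial.C (Polynomial.C (τ + 5) * Polynomial.X) * Polynomial.X +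
        Polynomial.C (Polynomial.C (τ + 2) * Polynomial.X ^ 2)) : Polynomial (Polynomial ℂ)).coeff
          (2 * (2 * 0 + 1)) = Polynomial.C (τ + 2) := by
      rw [show 2 * (2 * 0 + 1) = 2 from rfl, Polynomial.coeff_add, Polynomial.coeff_add,
        Polynomial.coeff_C_mul_X_pow, if_pos rfl, Polynomial.coeff_C_mul,
        Polynomial.coeff_X_of_ne_one (by norm_num), Polynomial.coeff_C, if_neg (by norm_num),
        mul_zero, add_zero, add_zero]
    refine ⟨Polynomial.C (Polynomial.C (τ + 2)) * Polynomial.X ^ 2 +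
      (Polynomial.C (Polynomial.C (τ + 5) * Polynomial.X) * Polynomial.X +
        Polynomial.C (Polynomial.C (τ + 2) * Polynomial.X ^ 2)), ?_, ?_, ?_, ?_⟩
    · rw [show 2 * (2 * 0 + 1) = 2 from rfl]
      compute_degree
    · rw [hc, Polynomial.natDegree_C]
    · rw [hc]
      change (Polynomial.C (τ + 2)).coeff 0 = 1 * (τ + 2) * MvPolynomial.eval z 1
      rw [map_one, Polynomial.coeff_C_zero, one_mul, mul_one]
    · intro x y
      rw [e1, show 2 * 0 + 2 = 2 from rfl, Gv_two h h' hW, cc, cc]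
      simp only [scons, Polynomial.eval_add, Polynomial.eval_mul, Polynomial.eval_pow,
        Polynomial.eval_C, Polynomial.eval_X]
      ring
  · obtain ⟨p, h1, h2, h3, h4⟩ := G_top h h' hW (N := 2 * (n + 1)) (by omega) (ex (2 * (n + 1)) z)
    have e2 : MvPolynomial.eval z (GG h h' W (n + 1)) =
        cc (n + 1) * Gv W Φ' Φ (2 * (n + 1)) (ex (2 * (n + 1)) z) := by
      rw [← eval_GP' h h']
      change MvPolynomial.eval z (MvPolynomial.C (cc (n + 1)) * GP h h' W (2 * (n + 1))) = _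
      rw [map_mul, MvPolynomial.eval_C]
    refine ⟨Polynomial.C (Polynomial.C (cc (n + 1 + 1))) * p, ?_, ?_, ?_, ?_⟩
    · exact (Polynomial.natDegree_C_mul_le _ _).trans h2
    · rw [Polynomial.coeff_C_mul]
      exact (Polynomial.natDegree_C_mul_le _ _).trans h3
    · rw [Polynomial.coeff_C_mul, Polynomial.coeff_C_mul, h4, e2, cc]
      have e4 : (9 : ℂ) ^ (2 * (n + 1)) = 81 ^ (n + 1) := by
        rw [pow_mul]; norm_num
      rw [e4]
      have e5 : (81 : ℂ) ^ (n + 1) ≠ 0 := pow_ne_zero _ (by norm_num)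
      field_simp
    · intro x y
      rw [e1, ← h1]
      change ev x y (Polynomial.C (Polynomial.C (cc (n + 1 + 1))) * p) = _
      rw [map_mul, ev_CC]

end Pool.Agent.H15.Exact

end

section

/-!
# Project EXACT: the components of the qKZ solution at `ζ = 1` are real
-/

set_option autoImplicit false

open Finset

namespace Pool.Agent.H15.Exact

open H56.EX Pool.Agent.H12.QKZ Pool.Agent.H14.EX
open scoped Classical

variable {L : ℕ}

/-- the conjugate solution -/
noncomputable def cinv (L : ℕ) (P : Pat L) (ζ : ℤ → ℂ) : ℂ :=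
  (∏ k ∈ range L, ζ k ^ (L - 1)) *
    (starRingEnd ℂ) (Psi L P (fun x => (starRingEnd ℂ) (ζ x)⁻¹))

theorem cinv_exch (hL : 2 ≤ L) (P : Pat L) (ζ : ℤ → ℂ) (hζ : Per L ζ) (h0 : ∀ x, ζ x ≠ 0)
    (i : ℤ) :
    (q * ζ (i + 1) - q⁻¹ * ζ i) * cinv L P (swp L i ζ) =
      (q * ζ i - q⁻¹ * ζ (i + 1)) * cinv L P ζ +
        (ζ i - ζ (i + 1)) * eop i (fun P' => cinv L P' ζ) P := by
  set η : ℤ → ℂ := fun x => (starRingEnd ℂ) (ζ x)⁻¹ with hη
  have hper : Per L η := fun x => by
    show (starRingEnd ℂ) (ζ (x + L))⁻¹ = (starRingEnd ℂ) (ζ x)⁻¹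
    rw [hζ]
  have h1 := congrArg (starRingEnd ℂ) (psiProps.exch L P η hper i)
  have hcq : (starRingEnd ℂ) q = q⁻¹ := by rw [conj_q, q_inv]
  have hcq' : (starRingEnd ℂ) q⁻¹ = q := by
    rw [map_inv₀, hcq, inv_inv]
  simp only [map_mul, map_sub, map_add, conj_eop, hcq, hcq'] at h1
  have e1 : ∀ x, (starRingEnd ℂ) (η x) = (ζ x)⁻¹ := by
    intro x
    simp [hη]
  rw [e1, e1] at h1
  have e2 : swp L i η = fun x => (starRingEnd ℂ) (swp L i ζ x)⁻¹ := by
    funext x
    simp only [swp_eq, hη]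
  have e3 : ∏ k ∈ range L, swp L i ζ k ^ (L - 1) = ∏ k ∈ range L, ζ k ^ (L - 1) :=
    prod_swp hL hζ i (fun x => x ^ (L - 1)) (Per_swp hζ i)
  rw [e2] at h1
  unfold cinv
  rw [e3]
  set Z0 := ∏ k ∈ range L, ζ k ^ (L - 1) with hZ0
  have e4 : eop i (fun P' => Z0 * (starRingEnd ℂ) (Psi L P' η)) P =
      Z0 * eop i (fun P' => (starRingEnd ℂ) (Psi L P' η)) P := by
    unfold eop
    rw [mul_sum]
    refine sum_congr rfl fun P' _ => ?_
    split_ifs <;> simp
  change _ = (q * ζ i - q⁻¹ * ζ (i + 1)) * (Z0 * (starRingEnd ℂ) (Psi L P η)) +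
    (ζ i - ζ (i + 1)) * eop i (fun P' => Z0 * (starRingEnd ℂ) (Psi L P' η)) P
  rw [e4]
  have hi := h0 i
  have hi1 := h0 (i + 1)
  set A := (starRingEnd ℂ) (Psi L P (fun x => (starRingEnd ℂ) (swp L i ζ x)⁻¹))
  set B := (starRingEnd ℂ) (Psi L P η)
  set C := eop i (fun P' => (starRingEnd ℂ) (Psi L P' η)) P
  have h2 : ζ i * ζ (i + 1) * ((q⁻¹ * (ζ (i + 1))⁻¹ - q * (ζ i)⁻¹) * A) =
      ζ i * ζ (i + 1) * ((q⁻¹ * (ζ i)⁻¹ - q * (ζ (i + 1))⁻¹) * B +
        ((ζ i)⁻¹ - (ζ (i + 1))⁻¹) * C) := by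
    rw [h1]
  have e5 : ζ i * (ζ i)⁻¹ = 1 := mul_inv_cancel₀ hi
  have e6 : ζ (i + 1) * (ζ (i + 1))⁻¹ = 1 := mul_inv_cancel₀ hi1
  linear_combination (-Z0) * h2 + Z0 * (q⁻¹ * ζ i * A + q * ζ i * B + ζ i * C) * e6 -
    Z0 * (q * ζ (i + 1) * A + q⁻¹ * ζ (i + 1) * B + ζ (i + 1) * C) * e5

theorem cinv_rot (P : Pat L) (ζ : ℤ → ℂ) (hζ : Per L ζ) :
    cinv L (rot P) (fun x => ζ (x - 1)) = cinv L P ζ := by
  set η : ℤ → ℂ := fun x => (starRingEnd ℂ) (ζ x)⁻¹ with hη
  have hper : Per L η := fun x => by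
    show (starRingEnd ℂ) (ζ (x + L))⁻¹ = (starRingEnd ℂ) (ζ x)⁻¹
    rw [hζ]
  unfold cinv
  have h1 := psiProps.rot L P η hper
  have h2 := prod_period (L := L) (ψ := fun x => ζ x ^ (L - 1)) (fun x => by
    show ζ (x + L) ^ (L - 1) = ζ x ^ (L - 1)
    rw [hζ]) (-1)
  have h3 : ∏ k ∈ range L, ζ ((k : ℤ) - 1) ^ (L - 1) = ∏ k ∈ range L, ζ k ^ (L - 1) := by
    rw [← h2]
    refine prod_congr rfl fun k _ => ?_
    rw [show (-1 : ℤ) + k = k - 1 by ring]
  rw [h3]
  congr 2

theorem prod_pairs (f : ℕ → ℂ) (L : ℕ) :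
    ∏ k ∈ range L, f k ^ (L - 1) = ∏ j ∈ range L, ∏ i ∈ range j, (f i * f j) := by
  induction L with
  | zero => simp
  | succ L ih =>
    rw [prod_range_succ, prod_range_succ, ← ih, prod_mul_distrib, prod_const, card_range,
      Nat.add_sub_cancel, ← mul_assoc, ← prod_mul_distrib]
    congr 1
    refine prod_congr rfl fun k hk => ?_
    have : L - 1 + 1 = L := by have := mem_range.mp hk; omega
    rw [← pow_succ, this]

theorem cinv_base (P : Pat L) (hP : IsBase P) (ζ : ℤ → ℂ) (h0 : ∀ x, ζ x ≠ 0) :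
    cinv L P ζ = Psi L P ζ := by
  unfold cinv
  rw [psiProps.base L P _ hP, psiProps.base L P _ hP]
  have hcq : (starRingEnd ℂ) q = q⁻¹ := by rw [conj_q, q_inv]
  have hcq' : (starRingEnd ℂ) q⁻¹ = q := by
    rw [map_inv₀, hcq, inv_inv]
  rw [prod_pairs (fun k : ℕ => ζ k), map_prod, ← prod_mul_distrib]
  refine prod_congr rfl fun j _ => ?_
  rw [map_prod, ← prod_mul_distrib]
  refine prod_congr rfl fun i _ => ?_
  simp only [map_div₀, map_sub, map_mul, hcq, hcq', Complex.conj_conj]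
  have hi := h0 i
  have hj := h0 j
  have e5 : ζ i * (ζ i)⁻¹ = 1 := mul_inv_cancel₀ hi
  have e6 : ζ j * (ζ j)⁻¹ = 1 := mul_inv_cancel₀ hj
  rw [← neg_div_neg_eq (q⁻¹ * (ζ j)⁻¹ - q * (ζ i)⁻¹), mul_div_assoc', neg_sub, neg_sub]
  congr 1
  linear_combination q * ζ j * e5 - q⁻¹ * ζ i * e6

/-- The conjugate solution is the solution. -/
theorem cinv_eq (P : Pat L) (ζ : ℤ → ℂ) (hζ : ζ ∈ gen L 0) : cinv L P ζ = Psi L P ζ := by
  have hL := P.two_le
  have key := triangular L (ℤ → ℂ) (gen L 0) (fun i ζ => swp L i ζ) (fun ζ x => ζ (x - 1))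
    (fun ζ => ζ) (fun P ζ => cinv L P ζ - Psi L P ζ) ?_ ?_ ?_ ?_ ?_ ?_ P ζ hζ
  · exact sub_eq_zero.mp key
  · intro i ζ hζ
    exact gen_swp hL i hζ
  · rintro ζ ⟨h1, h2, h3⟩
    refine ⟨fun x => ζ (x + 1), ⟨?_, ?_, ?_⟩, ?_⟩
    · intro x
      show ζ (x + L + 1) = ζ (x + 1)
      rw [show x + (L : ℤ) + 1 = x + 1 + L by ring, h1]
    · intro x y hxy
      have := h2 _ _ hxy
      have := Cg.sub 1 this
      simpa using this
    · intro x
      exact h3 (x + 1)
    · funext x
      show ζ (x - 1 + 1) = ζ x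
      rw [sub_add_cancel]
  · rintro ζ ⟨_, h2, _⟩ i h
    exact not_Cg_succ hL i (h2 _ _ h)
  · rintro P ζ ⟨h1, _, h3⟩ i
    have e1 := cinv_exch hL P ζ h1 (fun x => (h3 x).1) i
    have e2 := psiProps.exch L P ζ h1 i
    have e3 : eop i (fun P' => cinv L P' ζ - Psi L P' ζ) P =
        eop i (fun P' => cinv L P' ζ) P - eop i (fun P' => Psi L P' ζ) P := by
      unfold eop
      rw [← sum_sub_distrib]
      refine sum_congr rfl fun P' _ => ?_
      split_ifs <;> simp
    rw [e3]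
    linear_combination e1 - e2
  · rintro P ζ ⟨h1, _, _⟩
    show cinv L (rot P) (fun x => ζ (x - 1)) - Psi L (rot P) (fun x => ζ (x - 1)) = _
    rw [cinv_rot P ζ h1, psiProps.rot L P ζ h1]
  · rintro P hP ζ ⟨_, _, h3⟩
    rw [cinv_base P hP ζ (fun x => (h3 x).1), sub_self]

theorem psi_cont (P : Pat L) (F : ℝ → ℤ → ℂ) (hF : ∀ k, ContinuousAt (fun t => F t k) 0) :
    ContinuousAt (fun t => Psi L P (F t)) 0 := by
  obtain ⟨p, hp⟩ := psiProps.mv L P
  have h1 : (fun t => Psi L P (F t)) =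
      (fun s : Fin L → ℂ => MvPolynomial.eval s p) ∘ fun t => fun k : Fin L => F t ((k : ℕ) : ℤ) := by
    funext t
    exact hp (F t)
  rw [h1]
  refine ContinuousAt.comp ?_ ?_
  · exact (MvPolynomial.continuous_eval p).continuousAt
  · exact continuousAt_pi.mpr fun k => hF _

/-- The components at `ζ = 1` are real. -/
theorem conj_psi_one (P : Pat L) :
    (starRingEnd ℂ) (Psi L P (fun _ => 1)) = Psi L P (fun _ => 1) := by
  have hL := P.two_le
  have hLp : (0 : ℤ) < L := by omega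
  set zt : ℝ → ℤ → ℂ := fun t x => 1 + (t : ℂ) * ((x % (L : ℤ) : ℤ) : ℂ) with hzt
  have hre : ∀ t x, zt t x = ((1 + t * ((x % (L : ℤ) : ℤ) : ℝ) : ℝ) : ℂ) := by
    intro t x
    simp [hzt]
  have hgen : ∀ t : ℝ, 0 < t → zt t ∈ gen L 0 := by
    intro t ht
    refine ⟨?_, ?_, ?_⟩
    · intro x
      simp only [hzt, Int.add_emod_right]
    · intro x y hxy
      simp only [hzt] at hxy
      have h1 : (t : ℂ) * ((x % (L : ℤ) : ℤ) : ℂ) = (t : ℂ) * ((y % (L : ℤ) : ℤ) : ℂ) :=
        add_left_cancel hxy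
      have ht0 : (t : ℂ) ≠ 0 := by exact_mod_cast ht.ne'
      have h2 := mul_left_cancel₀ ht0 h1
      have h3 : x % (L : ℤ) = y % (L : ℤ) := by exact_mod_cast h2
      unfold Cg
      exact Int.ModEq.dvd h3.symm
    · intro x
      have h1 : (0 : ℝ) ≤ ((x % (L : ℤ) : ℤ) : ℝ) := by
        exact_mod_cast Int.emod_nonneg x hLp.ne'
      have h2 : zt t x ≠ 0 := by
        rw [hre]
        have : (0 : ℝ) < 1 + t * ((x % (L : ℤ) : ℤ) : ℝ) := by positivity
        exact_mod_cast this.ne'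
      exact ⟨h2, by rwa [mul_zero]⟩
  have hz0 : zt 0 = fun _ => 1 := by
    funext x
    simp [hzt]
  have c0 : ∀ k, ContinuousAt (fun t : ℝ => zt t k) 0 := by
    intro k
    have : Continuous (fun t : ℝ => zt t k) := by
      simp only [hzt]
      fun_prop
    exact this.continuousAt
  have c1 : ∀ k, ContinuousAt (fun t : ℝ => (starRingEnd ℂ) (zt t k)⁻¹) 0 := by
    intro k
    have h1 : ContinuousAt (fun t : ℝ => (zt t k)⁻¹) 0 :=
      (c0 k).inv₀ (by rw [hz0]; exact one_ne_zero)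
    exact Complex.continuous_conj.continuousAt.comp h1
  have h1 : ContinuousAt (fun t : ℝ => cinv L P (zt t)) 0 := by
    unfold cinv
    refine ContinuousAt.mul ?_ ?_
    · have := tendsto_finsetProd (f := fun (k : ℕ) (t : ℝ) => zt t k ^ (L - 1))
        (x := nhds (0 : ℝ)) (a := fun k => zt 0 k ^ (L - 1)) (range L)
        (fun k _ => ((c0 k).pow (L - 1)))
      exact this
    · exact Complex.continuous_conj.continuousAt.comp
        (psi_cont P (fun t x => (starRingEnd ℂ) (zt t x)⁻¹) c1)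
  have h2 : ContinuousAt (fun t : ℝ => Psi L P (zt t)) 0 := psi_cont P zt c0
  have h3 : Filter.Tendsto (fun t : ℝ => cinv L P (zt t)) (nhdsWithin 0 (Set.Ioi 0))
      (nhds (cinv L P (zt 0))) := h1.tendsto.mono_left nhdsWithin_le_nhds
  have h4 : Filter.Tendsto (fun t : ℝ => Psi L P (zt t)) (nhdsWithin 0 (Set.Ioi 0))
      (nhds (Psi L P (zt 0))) := h2.tendsto.mono_left nhdsWithin_le_nhds
  have h5 : cinv L P (zt 0) = Psi L P (zt 0) := by
    refine tendsto_nhds_unique h3 (h4.congr' ?_)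
    filter_upwards [self_mem_nhdsWithin] with t ht
    exact (cinv_eq P (zt t) (hgen t ht)).symm
  rw [hz0] at h5
  have h6 : cinv L P (fun _ => 1) = (starRingEnd ℂ) (Psi L P (fun _ => 1)) := by
    unfold cinv
    simp
  rw [← h6, h5]

end Pool.Agent.H15.Exact

end

section

/-!
# Project EXACT, one-arm formula: final statements

`vR P` is the component at the pattern `P` of the stationary vector (`ζ = 1`).
-/

set_option autoImplicit false

open Finset

namespace Pool.Agent.H15.Exact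

open H56.EX Pool.Agent.H12.QKZ
open scoped Classical

variable {κ τ : ℂ} {Φ Φ' : ∀ L : ℕ, Pat L → (ℕ → ℂ) → ℂ} {W : ∀ L : ℕ, Pat L → Pat L → ℂ}

theorem eval_GG_one (h : QP κ Φ) (h' : QP (κ ^ 2) Φ') (n : ℕ) (hn : 1 ≤ n) :
    MvPolynomial.eval (fun _ => 1) (GG h h' W n) =
      cc n * Gv W Φ' Φ (2 * n) (fun _ => 1) := by
  obtain ⟨m, rfl⟩ : ∃ m, n = m + 1 := ⟨n - 1, by omega⟩
  rw [← eval_GP h h']
  change MvPolynomial.eval _ (MvPolynomial.C (cc (m + 1)) * GP h h' W (2 * (m + 1))) = _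
  rw [map_mul, MvPolynomial.eval_C]

/-- **The one-arm formula**: the pairing at `ζ = 1`. -/
theorem Gv_one (h : QP κ Φ) (h' : QP (κ ^ 2) Φ') (hW : FormProps τ W) (ω : ℂ)
    (hω : ω * (τ + 2) = (1 + ω) ^ 2) (n : ℕ) (hn : 1 ≤ n) :
    ω ^ n * Gv W Φ' Φ (2 * n) (fun _ => 1) =
      (ω • (1 : Matrix (Fin (2 * n)) (Fin (2 * n)) ℂ) + EX93.pasc ℂ (2 * n)).det := by
  have h1 := EX93.eval_one κ ω 1 τ h.kk hω (GG h h' W) (fun z => by
      change MvPolynomial.eval z 1 = 1
      exact map_one _)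
    (fun n σ z => by
      rcases n with _ | n
      · change MvPolynomial.eval _ 1 = MvPolynomial.eval _ 1
        rw [map_one, map_one]
      · change MvPolynomial.eval _ (MvPolynomial.C (cc (n + 1)) * GP h h' W (2 * (n + 1))) =
          MvPolynomial.eval _ (MvPolynomial.C (cc (n + 1)) * GP h h' W (2 * (n + 1)))
        rw [map_mul, map_mul, GP_perm h h' hW, MvPolynomial.eval_C, MvPolynomial.eval_C])
    (GG_wheel h h' hW) (GG_top h h' hW) n
  rw [eval_GG_one h h' n hn, cc_eq, one_pow, one_mul] at h1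
  have h3 : (3 : ℂ) ^ (n * (2 * n - 1)) ≠ 0 := pow_ne_zero _ (by norm_num)
  apply mul_left_cancel₀ h3
  rw [← h1]
  ring

/-- Square of the pairing at `ζ = 1`. -/
theorem Gv_one_sq (h : QP κ Φ) (h' : QP (κ ^ 2) Φ') (hW : FormProps τ W) (n : ℕ) (hn : 1 ≤ n) :
    Gv W Φ' Φ (2 * n) (fun _ => 1) ^ 2 =
      (1 + τ • EX93.pasc ℂ (2 * n) + EX93.pasc ℂ (2 * n) ^ 2).det := by
  obtain ⟨ω, hω, h1, h2, h3⟩ := EX93.exists_omega τ
  have e1 := Gv_one h h' hW ω h1 n hn
  have e2 := Gv_one h h' hW ω⁻¹ h2 n hn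
  rw [← EX93.det_factor ω τ hω h3, ← e1, ← e2]
  have hn : ω ^ n * ω⁻¹ ^ n = 1 := by
    rw [← mul_pow, mul_inv_cancel₀ hω, one_pow]
  linear_combination (-(Gv W Φ' Φ (2 * n) (fun _ => 1) ^ 2)) * hn

/-- The stationary vector (real components). -/
noncomputable def vR (L : ℕ) (P : Pat L) : ℝ := (Psi L P (fun _ => 1)).re

theorem vR_eq (L : ℕ) (P : Pat L) : (vR L P : ℂ) = Psi L P (fun _ => 1) :=
  Complex.conj_eq_iff_re.mp (conj_psi_one P)

/-- The solution with parameters given by a sequence. -/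
noncomputable def Phi0 : ∀ L : ℕ, Pat L → (ℕ → ℂ) → ℂ := fun L P s => Psi L P (par L s)

theorem qp0 : QP q Phi0 := qp_of_psi psiProps

theorem qp0' : QP (q ^ 2) (cj Phi0) := by
  have := qp_conj qp0
  rwa [conj_q] at this

theorem vec_phi (L : ℕ) : vec Phi0 L (fun _ => 1) = fun P => (vR L P : ℂ) := by
  funext P
  rw [vR_eq]
  rfl

theorem vec_cj (L : ℕ) : vec (cj Phi0) L (fun _ => 1) = fun P => (vR L P : ℂ) := by
  funext P
  change (starRingEnd ℂ) (Psi L P (par L (fun _ => (starRingEnd ℂ) 1))) = _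
  rw [map_one, vR_eq, ← conj_psi_one P]
  rfl

theorem even_card_of_closed {L : ℕ} (P : Pat L) (X : Finset ℤ) (h : ∀ x ∈ X, P.m x ∈ X) :
    Even X.card := by
  have h1 : ∑ _x ∈ X, (1 : ZMod 2) = 0 := by
    refine Finset.sum_involution (fun x _ => P.m x) ?_ ?_ ?_ ?_
    · intro x _
      decide
    · intro x _ _
      exact P.ne x
    · intro x hx
      exact h x hx
    · intro x _
      exact P.inv x
  rw [sum_const, nsmul_eq_mul, mul_one] at h1
  exact (ZMod.natCast_eq_zero_iff_even).mp h1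

theorem noSurr_iff {L : ℕ} (P Q : Pat L) : Pool.Agent.H89.Link.NoSurr P Q ↔ ¬ Surr P Q := by
  have hcard : ∀ X : Finset ℤ, (X.filter (· < 0)).card + (X.filter fun c => 0 ≤ c).card =
      X.card := by
    intro X
    rw [← card_filter_add_card_filter_not (s := X) (p := fun c : ℤ => c < 0)]
    congr 2
    ext x
    simp
  constructor
  · rintro h ⟨X, h1, h2, h3⟩
    have h4 := h X h1 h2
    have h5 := even_card_of_closed P X h1
    rw [← hcard X] at h5
    exact (Nat.not_even_iff_odd.mpr (h3.add_even h4)) h5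
  · intro h X h1 h2
    by_contra h3
    rw [Nat.not_even_iff_odd] at h3
    apply h
    refine ⟨X, h1, h2, ?_⟩
    have h5 := even_card_of_closed P X h1
    rw [← hcard X] at h5
    by_contra h6
    rw [Nat.not_odd_iff_even] at h6
    exact (Nat.not_even_iff_odd.mpr (h6.add_odd h3)) h5

/-- The unnormalised one-arm sum. -/
noncomputable def arm1 (L : ℕ) : ℝ :=
  ∑ P : Pat L, ∑ Q : Pat L, if Pool.Agent.H89.Link.NoSurr P Q then vR L P * vR L Q else 0

theorem arm1_sq (n : ℕ) (hn : 1 ≤ n) :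
    arm1 (2 * n) ^ 2 = (1 + EX93.pasc ℝ (2 * n) ^ 2).det := by
  have h1 := Gv_one_sq qp0 qp0' formProps_zero n hn
  have h2 : Gv W0 (cj Phi0) Phi0 (2 * n) (fun _ => 1) = ((arm1 (2 * n) : ℝ) : ℂ) := by
    unfold Gv arm1
    rw [vec_phi, vec_cj, bf_apply, Complex.ofReal_sum]
    refine sum_congr rfl fun P _ => ?_
    rw [Complex.ofReal_sum]
    refine sum_congr rfl fun Q _ => ?_
    by_cases h : Pool.Agent.H89.Link.NoSurr P Q
    · rw [if_pos h, W0_of_not ((noSurr_iff P Q).mp h), one_mul, Complex.ofReal_mul]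
    · rw [if_neg h, W0_of (not_not.mp (fun h' => h ((noSurr_iff P Q).mpr h'))), zero_mul,
        Complex.ofReal_zero]
  rw [h2] at h1
  have h3 := EX93.det_pasc_real (2 * n) 0
  rw [Complex.ofReal_zero, zero_smul, zero_smul, add_zero, add_zero] at h3
  rw [zero_smul, add_zero, h3] at h1
  exact_mod_cast h1

theorem sum_vR_pow (n : ℕ) (hn : 1 ≤ n) :
    (∑ P : Pat (2 * n), vR (2 * n) P) ^ 4 =
      (1 + EX93.pasc ℝ (2 * n) + EX93.pasc ℝ (2 * n) ^ 2).det := by
  have h1 := Gv_one_sq qp0 qp0' formProps_one n hn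
  have h2 : Gv (fun _ _ _ => 1) (cj Phi0) Phi0 (2 * n) (fun _ => 1) =
      (((∑ P : Pat (2 * n), vR (2 * n) P) ^ 2 : ℝ) : ℂ) := by
    unfold Gv
    rw [vec_phi, vec_cj, bf_apply, sq, Complex.ofReal_mul, Complex.ofReal_sum, sum_mul]
    refine sum_congr rfl fun P _ => ?_
    rw [mul_sum]
    refine sum_congr rfl fun Q _ => ?_
    rw [one_mul]
  rw [h2] at h1
  have h3 := EX93.det_pasc_real (2 * n) 1
  rw [Complex.ofReal_one, one_smul, one_smul] at h3
  rw [one_smul, h3] at h1
  have h4 : ((∑ P : Pat (2 * n), vR (2 * n) P) ^ 2) ^ 2 =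
      (1 + EX93.pasc ℝ (2 * n) + EX93.pasc ℝ (2 * n) ^ 2).det := by
    exact_mod_cast h1
  rw [← h4]
  ring

/-- **One-arm formula**, normalised. -/
theorem oneArm_formula (n : ℕ) (hn : 1 ≤ n) :
    (arm1 (2 * n) / (∑ P : Pat (2 * n), vR (2 * n) P) ^ 2) ^ 2 =
      (1 + EX93.pasc ℝ (2 * n) ^ 2).det /
        (1 + EX93.pasc ℝ (2 * n) + EX93.pasc ℝ (2 * n) ^ 2).det := by
  rw [div_pow, arm1_sq n hn, ← pow_mul, sum_vR_pow n hn]

end Pool.Agent.H15.Exact

end
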