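import Pool.Agent.H31.PT.H57.EX.Main
import Pool.Agent.H31.PT.M37
import Pool.Agent.H31.PT.M42
import Pool.Agent.H31.PT.M43

/-! The parts of this file: H89.EX.Exact, H66.OneArm.Final, H66.OneArm.Tot, H89.EX.ArmExp. -/

section

/-!
# The exponents `β = 5/36` and `γ = 43/18` of bond percolation on the square lattice
-/

set_option autoImplicit false

open MeasureTheory ProbabilityTheory unitInterval Filter Topology

namespace Pool.Agent.H89.EX

open Pool.Agent.H89.Perc (Vert Edge Config Pr half arm)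
open Pool.Agent.H61.NC (a4)
open Pool.Agent.H31.EX (PN HasBeta HasGamma)

/-- Gluing on the torus. -/
theorem glTorus : Pool.Agent.H61.NC.GLTorus :=
  Pool.Agent.H29.Sep.glTorus Pool.Agent.H26.HP.badIn
    (Pool.Agent.H57.EX.glt Pool.Agent.H26.HP.badIn Pool.Agent.H26.HP.badOut)
    (Pool.Agent.H59.EX.regA4 Pool.Agent.H26.HP.badIn) Pool.Agent.H26.ST.sepTorus_holds

/-- **The four-arm exponent** `5/4` of critical bond percolation on the square lattice. -/
theorem four_PN : PN (a4 half) (5 / 4) := a4_PN Pool.Agent.H47.EX.upA4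

end Pool.Agent.H89.EX

end

section

/-!
# The one-arm exponent
-/

open Filter Topology Real Matrix

namespace Pool.Agent.H66.OneArm

lemma factor_pos {w : ℝ} (hw : -2 < w) (m : ℝ) : 0 < w + 2 * cosh m := by
  linarith [one_le_cosh m]

lemma det_pos {w : ℝ} (hw : -2 < w) (n : ℕ) : 0 < (1 + w • pasc n + pasc n ^ 2).det := by
  rw [det_eq_prod_cosh]
  exact Finset.prod_pos fun k _ => factor_pos hw _

lemma log_det_div {w w' : ℝ} (hw : -2 < w) (hw' : -2 < w') (n : ℕ) :
    log ((1 + w • pasc n + pasc n ^ 2).det / (1 + w' • pasc n + pasc n ^ 2).det) =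
      ∑ k, log ((w + 2 * cosh (mu n k)) / (w' + 2 * cosh (mu n k))) := by
  rw [det_eq_prod_cosh, det_eq_prod_cosh, ← Finset.prod_div_distrib,
    Real.log_prod fun k _ => (div_pos (factor_pos hw _) (factor_pos hw' _)).ne']

/-- **The asymptotics of the determinants** `det (1 + 2 cos θ B + B²)` along a sequence of sizes on which
the ratio at `θ = π/3, 2π/3` is known. -/
theorem tendsto_log_det {ν : ℕ → ℕ} (hν : Tendsto ν atTop atTop)
    (htot : Tendsto (fun m => log ((1 + (1 : ℝ) • pasc (ν m) + pasc (ν m) ^ 2).det /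
      (1 + (-1 : ℝ) • pasc (ν m) + pasc (ν m) ^ 2).det) / log (ν m)) atTop (𝓝 (1 / 2)))
    {θ : ℝ} (hθ : π / 3 ≤ θ) (hθ' : θ ≤ 2 * π / 3) :
    Tendsto (fun m => log ((1 + (1 : ℝ) • pasc (ν m) + pasc (ν m) ^ 2).det /
      (1 + (2 * cos θ) • pasc (ν m) + pasc (ν m) ^ 2).det) / log (ν m)) atTop
      (𝓝 (3 / (2 * π ^ 2) * (θ ^ 2 - π ^ 2 / 9))) := by
  have hπ := pi_pos
  have hcos : -2 < 2 * cos θ := by
    have := neg_one_lt_cos (t := θ) (by linarith) (by linarith)
    linarith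
  have h := squeeze hν (ι := fun n => Fin n) (fun n k => mu n k)
    (fun t h0 h1 ε hε => lower_bound h0 h1 hε) (by
      refine htot.congr fun m => ?_
      rw [log_det_div (by norm_num) (by norm_num)]) hθ hθ'
  refine h.congr fun m => ?_
  rw [log_det_div (by norm_num) hcos]

/-- **The one-arm exponent** `5/48` from the four-arm type exponent of the total. -/
theorem oneArm_exponent {ν : ℕ → ℕ} (hν : Tendsto ν atTop atTop)
    (htot : Tendsto (fun m => log ((1 + pasc (ν m) + pasc (ν m) ^ 2).det /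
      (1 - pasc (ν m) + pasc (ν m) ^ 2).det) / log (ν m)) atTop (𝓝 (1 / 2))) :
    Tendsto (fun m => log (√((1 + pasc (ν m) ^ 2).det / (1 + pasc (ν m) + pasc (ν m) ^ 2).det)) /
      log (ν m)) atTop (𝓝 (-(5 / 48))) := by
  have hπ := pi_pos
  have h := tendsto_log_det hν (by
    refine htot.congr fun m => ?_
    rw [one_smul, neg_one_smul, ← sub_eq_add_neg]) (θ := π / 2) (by linarith) (by linarith)
  have e : 3 / (2 * π ^ 2) * ((π / 2) ^ 2 - π ^ 2 / 9) = 5 / 24 := by
    field_simp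
    ring
  rw [e] at h
  have h2 := h.const_mul (-(1 / 2))
  have e2 : -(1 / 2) * (5 / 24 : ℝ) = -(5 / 48) := by norm_num
  rw [e2] at h2
  refine h2.congr fun m => ?_
  have e3 : (2 * cos (π / 2)) • pasc (ν m) = 0 := by simp
  rw [e3, add_zero, one_smul]
  have p1 := det_pos (w := 1) (by norm_num) (ν m)
  have p0 := det_pos (w := 0) (by norm_num) (ν m)
  rw [one_smul] at p1
  rw [zero_smul, add_zero] at p0
  rw [Real.log_sqrt (div_pos p0 p1).le, Real.log_div p1.ne' p0.ne', Real.log_div p0.ne' p1.ne']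
  ring

/-- The same as a two-sided bound. -/
theorem oneArm_bounds {ν : ℕ → ℕ} (hν : Tendsto ν atTop atTop)
    (htot : Tendsto (fun m => log ((1 + pasc (ν m) + pasc (ν m) ^ 2).det /
      (1 - pasc (ν m) + pasc (ν m) ^ 2).det) / log (ν m)) atTop (𝓝 (1 / 2))) {ε : ℝ} (hε : 0 < ε) :
    ∀ᶠ m in atTop, (ν m : ℝ) ^ (-(5 / 48) - ε) ≤
        √((1 + pasc (ν m) ^ 2).det / (1 + pasc (ν m) + pasc (ν m) ^ 2).det) ∧
      √((1 + pasc (ν m) ^ 2).det / (1 + pasc (ν m) + pasc (ν m) ^ 2).det) ≤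
        (ν m : ℝ) ^ (-(5 / 48) + ε) := by
  have h := oneArm_exponent hν htot
  have hν' : Tendsto (fun m => (ν m : ℝ)) atTop atTop := tendsto_natCast_atTop_atTop.comp hν
  have hl : ∀ᶠ m in atTop, 0 < log (ν m : ℝ) :=
    (tendsto_log_atTop.comp hν').eventually_gt_atTop 0
  filter_upwards [h.eventually (eventually_ge_nhds (show -(5 / 48) - ε < -(5 / 48) by linarith)),
    h.eventually (eventually_le_nhds (show -(5 / 48) < -(5 / 48) + ε by linarith)), hl,
    hν'.eventually_gt_atTop 0] with m h1 h2 h3 h4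
  have p1 := det_pos (w := 1) (by norm_num) (ν m)
  have p0 := det_pos (w := 0) (by norm_num) (ν m)
  rw [one_smul] at p1
  rw [zero_smul, add_zero] at p0
  have hs : 0 < √((1 + pasc (ν m) ^ 2).det / (1 + pasc (ν m) + pasc (ν m) ^ 2).det) :=
    Real.sqrt_pos.mpr (div_pos p0 p1)
  rw [le_div_iff₀ h3] at h1
  rw [div_le_iff₀ h3] at h2
  constructor
  · rw [← Real.exp_log hs, Real.rpow_def_of_pos h4]
    exact Real.exp_le_exp.mpr (by linarith)
  · rw [← Real.exp_log hs, Real.rpow_def_of_pos h4]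
    exact Real.exp_le_exp.mpr (by linarith)

end Pool.Agent.H66.OneArm

end

section

/-!
# The one-arm exponent on the cylinder
-/

open Filter Topology Real Matrix

namespace Pool.Agent.H66.OneArm

open Pool.Agent.H34.Hom (asm aht asm_pos aht_pos p2_power_law)
open Pool.Agent.H15.Exact (vR vR_eq arm1 oneArm_formula sum_vR_pow)

lemma pascEX_eq (n : ℕ) : EX93.pasc ℝ n = pasc n := by
  ext i j
  simp [EX93.pasc, pasc]

/-- The sum of the components of the stationary vector. -/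
theorem sum_vR (n : ℕ) (hn : 1 ≤ n) :
    ∑ P : H56.EX.Pat (2 * n), vR (2 * n) P = aht n := by
  have h := Pool.Agent.H34.Hom.sum_vv Pool.Agent.H12.QKZ.psiProps (L := 2 * n) rfl hn
  have h2 : ((∑ P : H56.EX.Pat (2 * n), vR (2 * n) P : ℝ) : ℂ) = ((aht n : ℝ) : ℂ) := by
    rw [← h, Complex.ofReal_sum]
    refine Finset.sum_congr rfl fun P _ => ?_
    rw [vR_eq]
    rfl
  exact_mod_cast h2

theorem det_one (n : ℕ) (hn : 1 ≤ n) :
    (1 + pasc (2 * n) + pasc (2 * n) ^ 2).det = aht n ^ 4 := by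
  rw [← pascEX_eq, ← sum_vR_pow n hn, sum_vR n hn]

theorem det_neg_one (M : ℕ) :
    (1 - pasc M + pasc M ^ 2).det = asm M ^ 2 := by
  rw [← pascEX_eq]
  exact EX93.det_pasc_neg_one M

lemma tendsto_nu : Tendsto (fun m : ℕ => 2 * m) atTop atTop :=
  tendsto_atTop_mono (fun h => by simp only [id]; omega) tendsto_id

theorem htot : Tendsto (fun m : ℕ => log ((1 + pasc (2 * m) + pasc (2 * m) ^ 2).det /
      (1 - pasc (2 * m) + pasc (2 * m) ^ 2).det) / log ((2 * m : ℕ) : ℝ)) atTop (𝓝 (1 / 2)) := by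
  obtain ⟨c, C, hc, hC, h⟩ := p2_power_law
  have hν' : Tendsto (fun m : ℕ => ((2 * m : ℕ) : ℝ)) atTop atTop :=
    tendsto_natCast_atTop_atTop.comp tendsto_nu
  have hlog : Tendsto (fun m : ℕ => log ((2 * m : ℕ) : ℝ)) atTop atTop :=
    tendsto_log_atTop.comp hν'
  -- `log (ratio) - (1/2) log (2 m)` is bounded
  have key : ∀ m : ℕ, 1 ≤ m →
      -2 * log C - (1 / 2) * log 2 ≤ log ((1 + pasc (2 * m) + pasc (2 * m) ^ 2).det /
        (1 - pasc (2 * m) + pasc (2 * m) ^ 2).det) - (1 / 2) * log ((2 * m : ℕ) : ℝ) ∧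
      log ((1 + pasc (2 * m) + pasc (2 * m) ^ 2).det /
        (1 - pasc (2 * m) + pasc (2 * m) ^ 2).det) - (1 / 2) * log ((2 * m : ℕ) : ℝ) ≤
        -2 * log c - (1 / 2) * log 2 := by
    intro m hm
    have hm' : (0 : ℝ) < m := by exact_mod_cast hm
    have ha := asm_pos (2 * m)
    have hb := aht_pos m
    have hp : 0 < asm (2 * m) / aht m ^ 2 := by positivity
    obtain ⟨h1, h2⟩ := h m hm
    have e : (1 + pasc (2 * m) + pasc (2 * m) ^ 2).det /
        (1 - pasc (2 * m) + pasc (2 * m) ^ 2).det = ((asm (2 * m) / aht m ^ 2) ^ 2)⁻¹ := by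
      rw [det_one m hm, det_neg_one]
      field_simp
    rw [e, Real.log_inv, Real.log_pow]
    have e2 : log ((2 * m : ℕ) : ℝ) = log 2 + log m := by
      rw [Nat.cast_mul, Nat.cast_ofNat, Real.log_mul (by norm_num) hm'.ne']
    rw [e2]
    have hmp : 0 < (m : ℝ) ^ (-(1 / 4 : ℝ)) := rpow_pos_of_pos hm' _
    have l1 := Real.log_le_log (by positivity) h1
    have l2 := Real.log_le_log hp h2
    rw [Real.log_mul hc.ne' hmp.ne', Real.log_rpow hm'] at l1
    rw [Real.log_mul hC.ne' hmp.ne', Real.log_rpow hm'] at l2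
    push_cast
    constructor <;> linarith
  have h0 : Tendsto (fun m : ℕ => (log ((1 + pasc (2 * m) + pasc (2 * m) ^ 2).det /
        (1 - pasc (2 * m) + pasc (2 * m) ^ 2).det) - (1 / 2) * log ((2 * m : ℕ) : ℝ)) /
        log ((2 * m : ℕ) : ℝ)) atTop (𝓝 0) := by
    refine tendsto_of_tendsto_of_tendsto_of_le_of_le'
      (hlog.const_div_atTop (-2 * log C - (1 / 2) * log 2))
      (hlog.const_div_atTop (-2 * log c - (1 / 2) * log 2)) ?_ ?_
    · filter_upwards [eventually_ge_atTop 1, hlog.eventually_gt_atTop 0] with m hm hl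
      exact (div_le_div_iff_of_pos_right hl).mpr (key m hm).1
    · filter_upwards [eventually_ge_atTop 1, hlog.eventually_gt_atTop 0] with m hm hl
      exact (div_le_div_iff_of_pos_right hl).mpr (key m hm).2
  have h1 := h0.add_const (1 / 2 : ℝ)
  rw [zero_add] at h1
  refine h1.congr' ?_
  filter_upwards [hlog.eventually_gt_atTop 0] with m hl
  field_simp
  ring

/-- The one-arm number of the cylinder. -/
noncomputable def g1 (n : ℕ) : ℝ :=
  arm1 (2 * n) / (∑ P : H56.EX.Pat (2 * n), vR (2 * n) P) ^ 2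

theorem abs_g1 (n : ℕ) (hn : 1 ≤ n) : |g1 n| =
    √((1 + pasc (2 * n) ^ 2).det / (1 + pasc (2 * n) + pasc (2 * n) ^ 2).det) := by
  rw [← pascEX_eq, ← oneArm_formula n hn, Real.sqrt_sq_eq_abs]
  rfl

/-- **The one-arm exponent of the cylinder.** -/
theorem g1_bounds : ∀ ε : ℝ, ε > 0 → ∀ᶠ n : ℕ in atTop,
    ((2 * n : ℕ) : ℝ) ^ (-(5 / 48) - ε) ≤
      |arm1 (2 * n) / (∑ P : H56.EX.Pat (2 * n), vR (2 * n) P) ^ 2| ∧
    |arm1 (2 * n) / (∑ P : H56.EX.Pat (2 * n), vR (2 * n) P) ^ 2| ≤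
      ((2 * n : ℕ) : ℝ) ^ (-(5 / 48) + ε) := by
  intro ε hε
  filter_upwards [oneArm_bounds tendsto_nu htot hε, eventually_ge_atTop 1] with n h hn
  have := abs_g1 n hn
  unfold g1 at this
  rw [this]
  exact h

end Pool.Agent.H66.OneArm

end

section

/-!
# The one-arm exponent of the square lattice at `1 / 2`

The exact one-arm probability of the cylinder of circumference `2 n` gives the one-arm probability
of the plane up to constants, and `PN (arm half) (5 / 48)`.
-/

set_option autoImplicit false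

open MeasureTheory ProbabilityTheory unitInterval Filter Topology

namespace Pool.Agent.H89.EX

open H56.EX
open Pool.Agent.H89.Link
open Pool.Agent.H89.Perc (Vert Edge Config Pr half arm arm_antitone)
open Pool.Agent.H31.EX (PN)
open Pool.Agent.H15.Exact (vR vR_eq arm1)
open Pool.Agent.H34.Hom (sum_vv_ne)

/-- The absolute value of the normalised one-arm sum. -/
noncomputable def g1 (n : ℕ) : ℝ :=
  |arm1 (2 * n) / (∑ P : H56.EX.Pat (2 * n), vR (2 * n) P) ^ 2|

theorem link_one_g1 {n : ℕ} (hn : 1 ≤ n) :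
    (∀ k : ℕ, 2 * k < n → g1 n ≤ arm half k) ∧
      ∀ H : ℕ, Pr half {ω | Perc.Conn (per n ω) (strip H) 0 ((n : ℤ), -(n : ℤ))} ≤ g1 n := by
  have hst := H56.EX.stat Pool.Agent.H12.QKZ.psiProps (L := 2 * n) (by omega)
  obtain ⟨g, hg, h1, h2⟩ := link_one (L := 2 * n) (n := n) rfl hn hst
    (sum_vv_ne Pool.Agent.H12.QKZ.psiProps rfl (by omega))
  have h0 : 0 ≤ g := le_trans measureReal_nonneg (h2 0)
  have e : g = arm1 (2 * n) / (∑ P : H56.EX.Pat (2 * n), vR (2 * n) P) ^ 2 := by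
    have e1 : ∑ P : Pat (2 * n), Pool.Agent.H12.QKZ.Psi (2 * n) P (fun _ => 1) =
        ((∑ P : Pat (2 * n), vR (2 * n) P : ℝ) : ℂ) := by
      push_cast
      exact Finset.sum_congr rfl fun P _ => (vR_eq _ P).symm
    have e2 : (g : ℂ) = ((arm1 (2 * n) / (∑ P : H56.EX.Pat (2 * n), vR (2 * n) P) ^ 2 : ℝ) : ℂ) := by
      rw [hg, e1]
      unfold arm1
      push_cast
      congr 1
      refine Finset.sum_congr rfl fun P _ => Finset.sum_congr rfl fun Q _ => ?_
      split_ifs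
      · push_cast
        rw [vR_eq, vR_eq]
      · simp
    exact_mod_cast e2
  have e3 : g = g1 n := by
    unfold g1
    rw [← e, abs_of_nonneg h0]
  subst e3
  exact ⟨h1, h2⟩

/-- **The one-arm exponent.** -/
theorem arm_PN : PN (arm half) (5 / 48) := by
  intro ε hε
  obtain ⟨c, hc, hwind⟩ := arm_le_wind
  have hb := Pool.Agent.H66.OneArm.g1_bounds (ε / 2) (by linarith)
  -- constants
  have hpow : Tendsto (fun r : ℕ => (r : ℝ) ^ (ε / 2)) atTop atTop :=
    (tendsto_rpow_atTop (by linarith)).comp tendsto_natCast_atTop_atTop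
  obtain ⟨N, hN⟩ := (hb.and (eventually_ge_atTop 1)).exists_forall_of_atTop
  obtain ⟨M, hM⟩ := ((hpow.eventually_ge_atTop ((6 : ℝ) ^ (5 / 48 + ε / 2))).and
    ((hpow.eventually_ge_atTop (c⁻¹)).and (eventually_ge_atTop 4))).exists_forall_of_atTop
  refine ⟨N + M + 4, fun r hr => ?_⟩
  obtain ⟨hM1, hM2, hM3⟩ := hM r (by omega)
  have hr0 : (0 : ℝ) < r := by
    have : 0 < r := by omega
    exact_mod_cast this
  constructor
  · -- lower bound: `n = 2 r + 1`
    obtain ⟨⟨h1, -⟩, -⟩ := hN (2 * r + 1) (by omega)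
    have h2 := (link_one_g1 (n := 2 * r + 1) (by omega)).1 r (by omega)
    have h3 : ((2 * (2 * r + 1) : ℕ) : ℝ) ^ (-(5 / 48) - ε / 2 : ℝ) ≤ arm half r := h1.trans h2
    have h4 : (6 * (r : ℝ)) ^ (-(5 / 48) - ε / 2 : ℝ) ≤
        ((2 * (2 * r + 1) : ℕ) : ℝ) ^ (-(5 / 48) - ε / 2 : ℝ) := by
      apply Real.rpow_le_rpow_of_nonpos
      · positivity
      · push_cast
        have : (1 : ℝ) ≤ r := by
          have : 1 ≤ r := by omega
          exact_mod_cast this
        linarith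
      · linarith
    refine le_trans ?_ (h4.trans h3)
    rw [Real.mul_rpow (by norm_num) hr0.le]
    have e1 : (r : ℝ) ^ (-(5 / 48) - ε : ℝ) = (r : ℝ) ^ (-(ε / 2)) * (r : ℝ) ^ (-(5 / 48) - ε / 2 : ℝ) := by
      rw [← Real.rpow_add hr0]
      congr 1
      ring
    rw [e1]
    apply mul_le_mul_of_nonneg_right _ (by positivity)
    rw [Real.rpow_neg hr0.le]
    have e2 : (6 : ℝ) ^ (-(5 / 48) - ε / 2 : ℝ) = ((6 : ℝ) ^ (5 / 48 + ε / 2))⁻¹ := by
      rw [← Real.rpow_neg (by norm_num)]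
      congr 1
      ring
    rw [e2]
    exact inv_anti₀ (by positivity) hM1
  · -- upper bound: `m = r / 2`, `n = 16 m`
    obtain ⟨m, hm⟩ : ∃ m, m = r / 2 := ⟨_, rfl⟩
    have hm1 : 1 ≤ m := by omega
    have hm2 : 2 * m ≤ r := by omega
    have hm3 : r ≤ 4 * m := by omega
    have hm4 : N ≤ 16 * m := by omega
    obtain ⟨⟨-, h1⟩, -⟩ := hN (16 * m) hm4
    have h2 := (link_one_g1 (n := 16 * m) (by omega)).2 (64 * m)
    have h3 := hwind m hm1
    have h4 : arm half r ≤ arm half (2 * m) := arm_antitone hm2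
    have h5 : c * arm half r ≤ ((2 * (16 * m) : ℕ) : ℝ) ^ (-(5 / 48) + ε / 2 : ℝ) :=
      (mul_le_mul_of_nonneg_left h4 hc.le).trans (h3.trans (h2.trans h1))
    by_cases hs : -(5 / 48) + ε / 2 ≤ (0 : ℝ)
    · have h6 : ((2 * (16 * m) : ℕ) : ℝ) ^ (-(5 / 48) + ε / 2 : ℝ) ≤
          (r : ℝ) ^ (-(5 / 48) + ε / 2 : ℝ) := by
        apply Real.rpow_le_rpow_of_nonpos hr0 _ hs
        have : r ≤ 2 * (16 * m) := by omega
        exact_mod_cast this
      have h7 : arm half r ≤ c⁻¹ * (r : ℝ) ^ (-(5 / 48) + ε / 2 : ℝ) := by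
        rw [inv_mul_eq_div, le_div_iff₀ hc]
        linarith
      refine h7.trans ?_
      have e1 : (r : ℝ) ^ (-(5 / 48) + ε : ℝ) = (r : ℝ) ^ (ε / 2) * (r : ℝ) ^ (-(5 / 48) + ε / 2 : ℝ) := by
        rw [← Real.rpow_add hr0]
        congr 1
        ring
      rw [e1]
      exact mul_le_mul_of_nonneg_right hM2 (by positivity)
    · -- `ε` large: trivial
      push Not at hs
      refine (measureReal_le_one).trans ?_
      apply Real.one_le_rpow
      · have : 1 ≤ r := by omega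
        exact_mod_cast this
      · linarith

end Pool.Agent.H89.EX

end
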